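import Pool.Agent.Work.MP_0c3a8f_co.Stmts

/-! Bundle of small proof modules (one section per former module). -/

section

open Finset

namespace MP0c3a8f

theorem E12_e1 : E1_statement := by
  classical
  intro W _ F r hF V G w e hinj hadj hw hfree
  obtain ⟨a, b, hab, c, hcab, hc⟩ := hF
  let idx := Fintype.equivFin W
  let φ : W → V := fun u => if u = a then w else e (c u) (idx u)
  have hφa : φ a = w := if_pos rfl
  have hφ : ∀ u, u ≠ a → φ u = e (c u) (idx u) := fun u hu => if_neg hu
  have hhom : ∀ {u v : W}, F.Adj u v → G.Adj (φ u) (φ v) := by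
    intro u v huv
    by_cases hu : u = a
    · subst hu
      have hv : v ≠ u := fun h => F.loopless.irrefl u (h ▸ huv)
      rw [hφa, hφ v hv]
      exact hw _ _
    · by_cases hv : v = a
      · subst hv
        rw [hφa, hφ u hu]
        exact (hw _ _).symm
      · rw [hφ u hu, hφ v hv]
        refine hadj _ _ _ _ (hc u v huv ?_)
        intro h
        rcases Sym2.eq_iff.1 h with ⟨h1, _⟩ | ⟨_, h2⟩
        · exact hu h1
        · exact hv h2
  have hwne : ∀ t i, w ≠ e t i := fun t i h => G.loopless.irrefl w (by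
    have := hw t i
    rwa [← h] at this)
  have hφinj : Function.Injective φ := by
    intro u v huv
    by_cases hu : u = a
    · by_cases hv : v = a
      · rw [hu, hv]
      · rw [hu, hφa, hφ v hv] at huv
        exact absurd huv (hwne _ _)
    · by_cases hv : v = a
      · rw [hv, hφa, hφ u hu] at huv
        exact absurd huv.symm (hwne _ _)
      · rw [hφ u hu, hφ v hv] at huv
        by_cases hcc : c u = c v
        · rw [hcc] at huv
          exact idx.injective (hinj _ huv)
        · have := hadj _ _ (idx u) (idx v) hcc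
          rw [huv] at this
          exact absurd this (G.loopless.irrefl _)
  exact hfree ⟨⟨⟨φ, hhom⟩, hφinj⟩⟩

theorem E12_e2 : E2_statement := by
  classical
  intro W _ F r hF V G w w' t₀ e hinj hadj hww' hw hne hfree
  obtain ⟨a, b, hab, c, hcab, hc⟩ := hF
  have hanb : a ≠ b := fun h => F.loopless.irrefl b (h ▸ hab)
  let idx := Fintype.equivFin W
  let σ : Equiv.Perm (Fin r) := Equiv.swap (c a) t₀
  have hσ : ∀ t, t ≠ c a → σ t ≠ t₀ := by
    intro t ht h
    apply ht
    have h2 : σ (c a) = t₀ := Equiv.swap_apply_left _ _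
    exact σ.injective (h.trans h2.symm)
  let φ : W → V := fun u => if u = a then w else if u = b then w' else e (σ (c u)) (idx u)
  have hφa : φ a = w := if_pos rfl
  have hφb : φ b = w' := by
    show (if b = a then w else if b = b then w' else e (σ (c b)) (idx b)) = w'
    rw [if_neg hanb.symm, if_pos rfl]
  have hφ : ∀ u, u ≠ a → u ≠ b → φ u = e (σ (c u)) (idx u) := by
    intro u hu hb
    show (if u = a then w else if u = b then w' else e (σ (c u)) (idx u)) = _
    rw [if_neg hu, if_neg hb]
  have hwe : ∀ t i, w ≠ e t i ∧ w' ≠ e t i := by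
    intro t i
    by_cases ht : t = t₀
    · subst ht
      exact ⟨(hne i).1.symm, (hne i).2.symm⟩
    · obtain ⟨h1, h2⟩ := hw t i ht
      exact ⟨h1.ne, h2.ne⟩
  -- adjacency of `a` and `b` with the others
  have hac : ∀ v, F.Adj a v → v ≠ b → G.Adj w (e (σ (c v)) (idx v)) := by
    intro v hv hvb
    have h1 : c a ≠ c v := by
      refine hc a v hv ?_
      intro h
      rcases Sym2.eq_iff.1 h with ⟨_, h1⟩ | ⟨h1, _⟩
      · exact hvb h1
      · exact hanb h1
    exact (hw _ _ (hσ _ h1.symm)).1
  have hbc : ∀ v, F.Adj b v → v ≠ a → G.Adj w' (e (σ (c v)) (idx v)) := by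
    intro v hv hva
    have h1 : c b ≠ c v := by
      refine hc b v hv ?_
      intro h
      rcases Sym2.eq_iff.1 h with ⟨h1, _⟩ | ⟨_, h1⟩
      · exact hanb h1.symm
      · exact hva h1
    rw [← hcab] at h1
    exact (hw _ _ (hσ _ h1.symm)).2
  have hhom : ∀ {u v : W}, F.Adj u v → G.Adj (φ u) (φ v) := by
    intro u v huv
    by_cases hu : u = a
    · rw [hu] at huv ⊢
      by_cases hv : v = b
      · rw [hv, hφa, hφb]
        exact hww'
      · have hva : v ≠ a := fun h => F.loopless.irrefl a (by rwa [h] at huv)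
        rw [hφa, hφ v hva hv]
        exact hac v huv hv
    · by_cases hub : u = b
      · rw [hub] at huv ⊢
        by_cases hv : v = a
        · rw [hv, hφa, hφb]
          exact hww'.symm
        · have hvb : v ≠ b := fun h => F.loopless.irrefl b (by rwa [h] at huv)
          rw [hφb, hφ v hv hvb]
          exact hbc v huv hv
      · by_cases hv : v = a
        · rw [hv] at huv ⊢
          rw [hφa, hφ u hu hub]
          exact (hac u huv.symm hub).symm
        · by_cases hvb : v = b
          · rw [hvb] at huv ⊢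
            rw [hφb, hφ u hu hub]
            exact (hbc u huv.symm hu).symm
          · rw [hφ u hu hub, hφ v hv hvb]
            refine hadj _ _ _ _ fun h => ?_
            refine hc u v huv ?_ (σ.injective h)
            intro h
            rcases Sym2.eq_iff.1 h with ⟨h1, _⟩ | ⟨h1, _⟩
            · exact hu h1
            · exact hub h1
  have hφinj : Function.Injective φ := by
    intro u v huv
    by_cases hu : u = a
    · by_cases hv : v = a
      · rw [hu, hv]
      · by_cases hvb : v = b
        · rw [hu, hvb, hφa, hφb] at huv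
          exact absurd huv hww'.ne
        · rw [hu, hφa, hφ v hv hvb] at huv
          exact absurd huv (hwe _ _).1
    · by_cases hub : u = b
      · by_cases hv : v = a
        · rw [hub, hv, hφa, hφb] at huv
          exact absurd huv.symm hww'.ne
        · by_cases hvb : v = b
          · rw [hub, hvb]
          · rw [hub, hφb, hφ v hv hvb] at huv
            exact absurd huv (hwe _ _).2
      · by_cases hv : v = a
        · rw [hv, hφa, hφ u hu hub] at huv
          exact absurd huv.symm (hwe _ _).1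
        · by_cases hvb : v = b
          · rw [hvb, hφb, hφ u hu hub] at huv
            exact absurd huv.symm (hwe _ _).2
          · rw [hφ u hu hub, hφ v hv hvb] at huv
            by_cases hcc : σ (c u) = σ (c v)
            · rw [hcc] at huv
              exact idx.injective (hinj _ huv)
            · have := hadj _ _ (idx u) (idx v) hcc
              rw [huv] at this
              exact absurd this (G.loopless.irrefl _)
  exact hfree ⟨⟨⟨φ, hhom⟩, hφinj⟩⟩

theorem prfE12 : E1_statement ∧ E2_statement := ⟨E12_e1, E12_e2⟩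

end MP0c3a8f

end

section

set_option autoImplicit false

/-!
# MP_0c3a8f_co: item G3

The edges `ij` with `x i * x j` of order `1 / sqrt m` carry almost all the weight.
-/

open Finset

namespace MP0c3a8f

namespace IG3

variable {V : Type}

theorem adj_nonneg (G : SimpleGraph V) (i j : V) : 0 ≤ adj G i j := by
  unfold adj
  split_ifs <;> norm_num

theorem adj_le_one (G : SimpleGraph V) (i j : V) : adj G i j ≤ 1 := by
  unfold adj
  split_ifs <;> norm_num

theorem adj_sq (G : SimpleGraph V) (i j : V) : adj G i j * adj G i j = adj G i j := by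
  unfold adj
  split_ifs <;> norm_num

theorem adj_mono {G H : SimpleGraph V} (h : H ≤ G) (i j : V) : adj H i j ≤ adj G i j := by
  unfold adj
  split_ifs with h1 h2
  · norm_num
  · exact absurd (h h1) h2
  · norm_num
  · norm_num

theorem mid_le (G : SimpleGraph V) (x : V → ℝ) (K : ℝ) (m : ℕ) : mid G x K m ≤ G :=
  fun _ _ h => h.1

variable [Fintype V]

/-- Cauchy-Schwarz -/
theorem cs (H : SimpleGraph V) (x : V → ℝ) :
    (∑ i, ∑ j, adj H i j * (x i * x j)) ^ 2 ≤
      (∑ i, ∑ j, adj H i j) * qf H (fun i => x i ^ 2) := by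
  have h := Finset.sum_mul_sq_le_sq_mul_sq (Finset.univ : Finset (V × V))
    (fun p => adj H p.1 p.2) (fun p => adj H p.1 p.2 * (x p.1 * x p.2))
  rw [← Finset.univ_product_univ, Finset.sum_product, Finset.sum_product, Finset.sum_product] at h
  have e1 : ∀ i j, adj H i j * (adj H i j * (x i * x j)) = adj H i j * (x i * x j) := by
    intro i j
    rw [← mul_assoc, adj_sq]
  have e2 : ∀ i j, adj H i j ^ 2 = adj H i j := by
    intro i j
    rw [sq, adj_sq]
  have e3 : ∀ i j, (adj H i j * (x i * x j)) ^ 2 = adj H i j * (x i ^ 2 * x j ^ 2) := by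
    intro i j
    rw [mul_pow, e2, mul_pow]
  simp only [e1, e2, e3] at h
  exact h

theorem qf_le_one (H : SimpleGraph V) (x : V → ℝ) (hx : ∑ i, x i ^ 2 = 1) :
    qf H (fun i => x i ^ 2) ≤ 1 := by
  unfold qf
  calc ∑ i, ∑ j, adj H i j * (x i ^ 2 * x j ^ 2) ≤ ∑ i, ∑ j, x i ^ 2 * x j ^ 2 := by
        refine Finset.sum_le_sum fun i _ => Finset.sum_le_sum fun j _ => ?_
        have h1 : 0 ≤ x i ^ 2 * x j ^ 2 := by positivity
        have h2 := adj_le_one H i j
        nlinarith
    _ = 1 := by
        rw [← Finset.sum_mul_sum, hx, mul_one]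

theorem form_eq {G : SimpleGraph V} {x : V → ℝ} {l : ℝ} {m : ℕ} (h : Data G x l m) :
    ∑ i, ∑ j, adj G i j * (x i * x j) = l := by
  have e : ∀ i, ∑ j, adj G i j * (x i * x j) = l * x i ^ 2 := by
    intro i
    calc ∑ j, adj G i j * (x i * x j) = x i * ∑ j, adj G i j * x j := by
          rw [Finset.mul_sum]
          exact Finset.sum_congr rfl fun j _ => by ring
      _ = l * x i ^ 2 := by
          rw [h.eig]
          ring
  simp only [e]
  rw [← Finset.mul_sum, h.unit, mul_one]

theorem split {G : SimpleGraph V} {x : V → ℝ} {l : ℝ} {m : ℕ} (h : Data G x l m) {K s : ℝ}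
    (hK : 0 < K) (hs : 0 < s) (hs2 : s = Real.sqrt m) (i j : V) :
    adj G i j * (x i * x j) ≤ adj (mid G x K m) i j * (x i * x j) +
      (s / K) * (x i ^ 2 * x j ^ 2) + adj G i j * (1 / (K * s)) := by
  have hx : 0 ≤ x i * x j := mul_nonneg (h.nonneg i) (h.nonneg j)
  have h1 : 0 ≤ (s / K) * (x i ^ 2 * x j ^ 2) := by positivity
  have h2 : 0 ≤ adj G i j * (1 / (K * s)) := mul_nonneg (adj_nonneg G i j) (by positivity)
  have h3 : 0 ≤ adj (mid G x K m) i j * (x i * x j) := mul_nonneg (adj_nonneg _ i j) hx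
  by_cases hG : G.Adj i j
  · have e1 : adj G i j = 1 := by
      unfold adj
      rw [if_pos hG]
    rw [e1, one_mul, one_mul]
    rw [e1, one_mul] at h2
    by_cases hlo : 1 / (K * s) ≤ x i * x j
    · by_cases hhi : x i * x j ≤ K / s
      · have e2 : adj (mid G x K m) i j = 1 := by
          unfold adj
          rw [if_pos]
          exact ⟨hG, by rw [← hs2]; exact hlo, by rw [← hs2]; exact hhi⟩
        rw [e2]
        linarith
      · have h4 : K / s < x i * x j := not_le.1 hhi
        rw [div_lt_iff₀ hs] at h4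
        have h5 : x i * x j ≤ (s / K) * (x i ^ 2 * x j ^ 2) := by
          have h6 : x i * x j * K ≤ x i * x j * (x i * x j * s) :=
            mul_le_mul_of_nonneg_left h4.le hx
          have h7 : (s / K) * (x i ^ 2 * x j ^ 2) = (x i * x j * (x i * x j * s)) / K := by
            field_simp
          rw [h7, le_div_iff₀ hK]
          exact h6
        linarith
    · have h4 := (not_le.1 hlo).le
      linarith
  · have e1 : adj G i j = 0 := by
      unfold adj
      rw [if_neg hG]
    rw [e1, zero_mul]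
    rw [e1] at h2
    linarith

end IG3

open IG3 in
theorem prfG3 : G3_statement := by
  intro r ε hr hε
  refine ⟨max 3 (10 / ε), le_trans (by norm_num) (le_max_left _ _), min ε (1 / 3),
    lt_min hε (by norm_num), ?_⟩
  intro V _ G x l m hD hl
  set K := max 3 (10 / ε) with hKdef
  have hK3 : 3 ≤ K := le_max_left _ _
  have hKε : 10 / ε ≤ K := le_max_right _ _
  have hK : 0 < K := by linarith
  set ε₀ := min ε (1 / 3) with hε₀
  have hε1 : ε₀ ≤ ε := min_le_left _ _
  have hε2 : ε₀ ≤ 1 / 3 := min_le_right _ _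
  have hm : (0:ℝ) < m := by exact_mod_cast hD.pos
  set s := Real.sqrt m with hsdef
  have hs : 0 < s := Real.sqrt_pos.2 hm
  have hs2 : s ^ 2 = m := Real.sq_sqrt hm.le
  set M := mid G x K m with hM
  set S := ∑ i, ∑ j, adj M i j * (x i * x j) with hS
  -- the bounds for `l`
  have hr' : (3:ℝ) ≤ r := by exact_mod_cast hr
  have hβ : 1 / (r : ℝ) ≤ 1 / 3 := one_div_le_one_div_of_le (by norm_num) hr'
  have hl0 := hD.l_nonneg
  have hl1 : s ^ 2 ≤ l ^ 2 := by
    rw [hs2]
    refine le_trans ?_ hl
    have : 1 * (m:ℝ) ≤ (2 * (1 - 1 / (r : ℝ)) - ε₀) * m :=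
      mul_le_mul_of_nonneg_right (by linarith) hm.le
    linarith
  have hl2 : s ≤ l := by
    exact (pow_le_pow_iff_left₀ hs.le hl0 two_ne_zero).1 hl1
  have hl3 : l ^ 2 ≤ 2 * s ^ 2 := by
    have h1 := cs G x
    rw [form_eq hD, hD.edges] at h1
    have h2 := qf_le_one G x hD.unit
    have h3 : 2 * (m:ℝ) * qf G (fun i => x i ^ 2) ≤ 2 * m * 1 :=
      mul_le_mul_of_nonneg_left h2 (by linarith)
    rw [hs2]
    linarith
  have hl4 : l ≤ 3 / 2 * s := by
    by_contra hc
    have h1 := not_le.1 hc
    nlinarith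
  -- the sum over the middle edges
  have hsplit : l ≤ S + s / K + 2 * m * (1 / (K * s)) := by
    rw [← form_eq hD]
    calc ∑ i, ∑ j, adj G i j * (x i * x j) ≤ ∑ i, ∑ j, (adj M i j * (x i * x j) +
          (s / K) * (x i ^ 2 * x j ^ 2) + adj G i j * (1 / (K * s))) :=
          Finset.sum_le_sum fun i _ => Finset.sum_le_sum fun j _ =>
            split hD hK hs hsdef i j
      _ = S + s / K + 2 * m * (1 / (K * s)) := by
          simp only [Finset.sum_add_distrib, ← Finset.mul_sum, ← Finset.sum_mul]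
          rw [hD.edges, hD.unit, mul_one, mul_one]
  have h2m : 2 * (m:ℝ) * (1 / (K * s)) = 2 * (s / K) := by
    rw [← hs2]
    field_simp
  have hS1 : l - 3 * (s / K) ≤ S := by
    rw [h2m] at hsplit
    linarith
  have hsK : 3 * (s / K) ≤ s := by
    rw [mul_div_assoc', div_le_iff₀ hK]
    nlinarith
  have hS2 : (l - 3 * (s / K)) ^ 2 ≤ S ^ 2 :=
    pow_le_pow_left₀ (by linarith) hS1 2
  have hcs := cs M x
  have hsum : ∑ i, ∑ j, adj M i j ≤ 2 * m := by
    rw [← hD.edges]
    exact Finset.sum_le_sum fun i _ => Finset.sum_le_sum fun j _ => adj_mono (mid_le G x K m) i j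
  have hq0 : 0 ≤ qf M (fun i => x i ^ 2) := by
    unfold qf
    refine Finset.sum_nonneg fun i _ => Finset.sum_nonneg fun j _ => ?_
    exact mul_nonneg (adj_nonneg M i j) (by positivity)
  have hmain : (l - 3 * (s / K)) ^ 2 ≤ 2 * m * qf M (fun i => x i ^ 2) :=
    hS2.trans (hcs.trans (mul_le_mul_of_nonneg_right hsum hq0))
  have hk : s / K ≤ s * (ε / 10) := by
    rw [div_le_iff₀ hK]
    rw [div_le_iff₀ hε] at hKε
    nlinarith
  have hlow : l ^ 2 - 9 * m * (ε / 10) ≤ (l - 3 * (s / K)) ^ 2 := by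
    have h1 : l * (s / K) ≤ (3 / 2 * s) * (s * (ε / 10)) :=
      mul_le_mul hl4 hk (by positivity) (by positivity)
    have h2 : (3 / 2 * s) * (s * (ε / 10)) = 3 / 2 * m * (ε / 10) := by
      rw [← hs2]
      ring
    have h3 : 0 ≤ (3 * (s / K)) ^ 2 := sq_nonneg _
    nlinarith
  have hfin : (2 * (1 - 1 / (r : ℝ)) - ε₀ - 9 * (ε / 10)) * m ≤
      2 * qf M (fun i => x i ^ 2) * m := by
    linarith
  have := le_of_mul_le_mul_right hfin hm
  linarith

end MP0c3a8f

end

section

namespace MP0c3a8f

theorem GRD_aux (r : ℕ) (V : Type) [Fintype V] [DecidableEq V] (G : SimpleGraph V) (S : Set V)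
    (c : V → Fin r) (h1 : ∀ u v, u ∈ S → v ∈ S → G.Adj u v → c u ≠ c v)
    (h2 : ∀ v, v ∉ S → {w | G.Adj v w}.ncard < r) (T : Finset V) :
    ∃ c' : V → Fin r, ∀ u v, (u ∈ S ∨ u ∈ T) → (v ∈ S ∨ v ∈ T) → G.Adj u v → c' u ≠ c' v := by
  induction T using Finset.induction_on with
  | empty =>
    refine ⟨c, fun u v hu hv => ?_⟩
    simp only [Finset.notMem_empty, or_false] at hu hv
    exact h1 u v hu hv
  | insert v T hv ih =>
    obtain ⟨c', hc'⟩ := ih
    by_cases hvS : v ∈ S
    · refine ⟨c', fun a b ha hb => hc' a b ?_ ?_⟩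
      · rcases ha with ha | ha
        · exact Or.inl ha
        · rcases Finset.mem_insert.1 ha with rfl | ha
          · exact Or.inl hvS
          · exact Or.inr ha
      · rcases hb with ha | ha
        · exact Or.inl ha
        · rcases Finset.mem_insert.1 ha with rfl | ha
          · exact Or.inl hvS
          · exact Or.inr ha
    · have hk : ∃ k : Fin r, k ∉ c' '' {w | G.Adj v w} := by
        by_contra hcon
        push Not at hcon
        have hu : c' '' {w | G.Adj v w} = Set.univ := Set.eq_univ_of_forall hcon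
        have hle : (c' '' {w | G.Adj v w}).ncard ≤ {w | G.Adj v w}.ncard :=
          Set.ncard_image_le (Set.toFinite _)
        rw [hu, Set.ncard_univ, Nat.card_fin] at hle
        exact absurd (h2 v hvS) (by omega)
      obtain ⟨k, hk⟩ := hk
      have hk' : ∀ w, G.Adj v w → c' w ≠ k := fun w hw e => hk ⟨w, hw, e⟩
      refine ⟨Function.update c' v k, fun a b ha hb hab => ?_⟩
      have hmem : ∀ a, (a ∈ S ∨ a ∈ insert v T) → a ≠ v → (a ∈ S ∨ a ∈ T) := by
        intro a ha hne
        rcases ha with ha | ha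
        · exact Or.inl ha
        · rcases Finset.mem_insert.1 ha with rfl | ha
          · exact absurd rfl hne
          · exact Or.inr ha
      by_cases hav : a = v
      · subst hav
        have hbv : b ≠ a := fun e => G.loopless.irrefl a (e ▸ hab)
        rw [Function.update_self, Function.update_of_ne hbv]
        exact (hk' b hab).symm
      · by_cases hbv : b = v
        · subst hbv
          rw [Function.update_self, Function.update_of_ne hav]
          exact hk' a hab.symm
        · rw [Function.update_of_ne hav, Function.update_of_ne hbv]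
          exact hc' a b (hmem a ha hav) (hmem b hb hbv) hab

theorem prfGRD1 : GRD_statement := by
  classical
  intro r V _ G S c h1 h2
  obtain ⟨c', hc'⟩ := GRD_aux r V G S c h1 h2 Finset.univ
  exact ⟨SimpleGraph.Coloring.mk c' fun {u v} huv =>
    hc' u v (Or.inr (Finset.mem_univ _)) (Or.inr (Finset.mem_univ _)) huv⟩

theorem prfGRD : GRD_statement ∧ TYP_statement := by
  refine ⟨prfGRD1, ?_⟩
  intro r s a b V _ G f hM hG
  by_contra hlt
  push Not at hlt
  apply hG
  refine prfGRD1 r V G {v | f v ≠ none} (fun v => (f v).getD ⟨0, by omega⟩) ?_ ?_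
  · intro u v hu hv huv
    have h1 := hM.indep u v hu
    intro e
    apply h1 _ huv
    have hu' : f u ≠ none := hu
    have hv' : f v ≠ none := hv
    obtain ⟨x, hx⟩ := Option.ne_none_iff_exists'.1 hu'
    obtain ⟨y, hy⟩ := Option.ne_none_iff_exists'.1 hv'
    simp only [hx, hy, Option.getD_some] at e
    rw [hx, hy, e]
  · intro v hv
    have hv' : f v = none := by
      by_contra h
      exact hv h
    have h1 : {w | G.Adj v w}.ncard ≤ (outSet G f).ncard := by
      refine Set.ncard_le_ncard_of_injOn (fun w => s(v, w)) ?_ ?_ (Set.toFinite _)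
      · intro w hw
        exact ⟨hw, v, Sym2.mem_mk_left v w, hv'⟩
      · intro w _ w' _ e
        have h3 : w = w' ∨ v = w' ∧ w = v := by simpa using e
        rcases h3 with h3 | ⟨h3, h4⟩
        · exact h3
        · rw [h4, h3]
    rw [hM.outer] at h1
    omega

end MP0c3a8f

end

section

open Finset

namespace MP0c3a8f

theorem LOW_edg (V : Type) [Fintype V] (G : SimpleGraph V) :
    ∑ i, ∑ j, adj G i j = 2 * (G.edgeSet.ncard : ℝ) := by
  classical
  have h1 : ∀ i, ∑ j, adj G i j = (G.degree i : ℝ) := by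
    intro i
    unfold adj
    rw [Finset.sum_boole, ← SimpleGraph.card_neighborFinset_eq_degree]
    congr 2
    ext j
    simp
  simp_rw [h1]
  rw [← Nat.cast_sum, G.sum_degrees_eq_twice_card_edges]
  have h2 : G.edgeSet.ncard = #G.edgeFinset := by
    rw [Set.ncard_eq_toFinset_card']
    rfl
  rw [h2]
  push_cast
  ring

/-- core edges -/
def LOW_Gc {V : Type} {r : ℕ} (G : SimpleGraph V) (f : V → Option (Fin r)) : SimpleGraph V where
  Adj i j := G.Adj i j ∧ f i ≠ none ∧ f j ≠ none
  symm := ⟨fun _ _ h => ⟨h.1.symm, h.2.2, h.2.1⟩⟩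
  loopless := ⟨fun i h => G.loopless.irrefl i h.1⟩

/-- outer edges -/
def LOW_Go {V : Type} {r : ℕ} (G : SimpleGraph V) (f : V → Option (Fin r)) : SimpleGraph V where
  Adj i j := G.Adj i j ∧ (f i = none ∨ f j = none)
  symm := ⟨fun _ _ h => ⟨h.1.symm, h.2.symm⟩⟩
  loopless := ⟨fun i h => G.loopless.irrefl i h.1⟩

/-- missing pairs -/
def LOW_Gm {V : Type} {r : ℕ} (G : SimpleGraph V) (f : V → Option (Fin r)) : SimpleGraph V where
  Adj i j := f i ≠ none ∧ f j ≠ none ∧ f i ≠ f j ∧ ¬ G.Adj i j
  symm := ⟨fun _ _ h => ⟨h.2.1, h.1, h.2.2.1.symm, fun h' => h.2.2.2 h'.symm⟩⟩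
  loopless := ⟨fun _ h => h.2.2.1 rfl⟩

theorem LOW_edgeGo {V : Type} {r : ℕ} (G : SimpleGraph V) (f : V → Option (Fin r)) :
    (LOW_Go G f).edgeSet = outSet G f := by
  ext e
  induction e using Sym2.ind with
  | _ v w =>
    simp only [SimpleGraph.mem_edgeSet, outSet, Set.mem_ofPred_eq, LOW_Go, Sym2.mem_iff,
      exists_eq_or_imp, exists_eq_left]

theorem LOW_edgeGm {V : Type} {r : ℕ} (G : SimpleGraph V) (f : V → Option (Fin r)) :
    (LOW_Gm G f).edgeSet = missSet G f := by
  ext e
  induction e using Sym2.ind with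
  | _ v w =>
    simp only [SimpleGraph.mem_edgeSet, missSet, Set.mem_ofPred_eq]
    constructor
    · intro h
      exact ⟨v, w, rfl, h⟩
    · rintro ⟨a, b, e, h⟩
      rcases Sym2.eq_iff.1 e with ⟨rfl, rfl⟩ | ⟨rfl, rfl⟩
      · exact h
      · exact (LOW_Gm G f).symm.symm _ _ h

theorem LOW_core (V : Type) [Fintype V] {r s : ℕ} (f : V → Option (Fin r))
    (hs : ∀ t, {v | f v = some t}.ncard = s) :
    ∑ j, (if f j ≠ none then (1 : ℝ) else 0) = r * s := by
  classical
  have h1 : ∀ t, ∑ j, (if f j = some t then (1 : ℝ) else 0) = s := by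
    intro t
    rw [Finset.sum_boole, ← hs t, Set.ncard_eq_toFinset_card']
    congr 2
    ext j
    simp
  have h2 : ∀ j, (if f j ≠ none then (1 : ℝ) else 0) =
      ∑ t, if f j = some t then (1 : ℝ) else 0 := by
    intro j
    cases hj : f j with
    | none => simp
    | some u => simp
  simp_rw [h2]
  rw [Finset.sum_comm]
  simp_rw [h1]
  simp

theorem LOW_tot (V : Type) [Fintype V] {r s : ℕ} (f : V → Option (Fin r))
    (hs : ∀ t, {v | f v = some t}.ncard = s) :
    ∑ i, ∑ j, (if f i ≠ none ∧ f j ≠ none ∧ f i ≠ f j then (1 : ℝ) else 0) =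
      r * s * ((r - 1) * s) := by
  classical
  have h1 : ∀ t, ∑ j, (if f j = some t then (1 : ℝ) else 0) = s := by
    intro t
    rw [Finset.sum_boole, ← hs t, Set.ncard_eq_toFinset_card']
    congr 2
    ext j
    simp
  have h2 : ∀ i, ∑ j, (if f i ≠ none ∧ f j ≠ none ∧ f i ≠ f j then (1 : ℝ) else 0) =
      (if f i ≠ none then (1 : ℝ) else 0) * ((r - 1) * s) := by
    intro i
    cases hi : f i with
    | none => simp
    | some t =>
      have h3 : ∀ j, (if some t ≠ none ∧ f j ≠ none ∧ some t ≠ f j then (1 : ℝ) else 0) =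
          (if f j ≠ none then (1 : ℝ) else 0) - (if f j = some t then (1 : ℝ) else 0) := by
        intro j
        cases hj : f j with
        | none => simp
        | some u =>
          by_cases e : u = t
          · subst e; simp
          · have e' : ¬ t = u := fun h => e h.symm
            simp [e, e']
      simp_rw [h3]
      rw [Finset.sum_sub_distrib, LOW_core V f hs, h1 t]
      simp
      ring
  simp_rw [h2]
  rw [← Finset.sum_mul, LOW_core V f hs]

theorem LOW_split1 {V : Type} {r : ℕ} (G : SimpleGraph V) (f : V → Option (Fin r)) (i j : V) :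
    adj G i j = adj (LOW_Gc G f) i j + adj (LOW_Go G f) i j := by
  unfold adj LOW_Gc LOW_Go
  by_cases h : G.Adj i j <;> by_cases hi : f i = none <;> by_cases hj : f j = none <;>
    simp [h, hi, hj]

open Classical in
theorem LOW_split2 {V : Type} {r : ℕ} (G : SimpleGraph V) (f : V → Option (Fin r))
    (hI : Indep G f) (i j : V) :
    adj (LOW_Gc G f) i j + adj (LOW_Gm G f) i j =
      if f i ≠ none ∧ f j ≠ none ∧ f i ≠ f j then (1 : ℝ) else 0 := by
  unfold adj LOW_Gc LOW_Gm
  by_cases hi : f i = none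
  · simp [hi]
  · by_cases hj : f j = none
    · simp [hj]
    · by_cases hij : f i = f j
      · have := hI i j hi hij
        simp [this, hij]
      · by_cases h : G.Adj i j
        · simp [h, hi, hj, hij]
        · simp [h, hi, hj, hij]

theorem LOW_main (r s a b : ℕ) (V : Type) [Fintype V] (G : SimpleGraph V)
    (f : V → Option (Fin r)) (hM : IsMod r s a b G f) :
    (∑ i, ∑ j, adj (LOW_Gc G f) i j) + 2 * a = r * s * ((r - 1) * s) ∧
      2 * (G.edgeSet.ncard : ℝ) = (∑ i, ∑ j, adj (LOW_Gc G f) i j) + 2 * b := by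
  classical
  constructor
  · have h1 := LOW_edg V (LOW_Gm G f)
    rw [LOW_edgeGm, hM.miss] at h1
    rw [← h1, ← LOW_tot V f hM.size, ← Finset.sum_add_distrib]
    refine Finset.sum_congr rfl fun i _ => ?_
    rw [← Finset.sum_add_distrib]
    refine Finset.sum_congr rfl fun j _ => ?_
    rw [LOW_split2 G f hM.indep i j]
  · have h1 := LOW_edg V (LOW_Go G f)
    rw [LOW_edgeGo, hM.outer] at h1
    rw [← h1, ← LOW_edg V G, ← Finset.sum_add_distrib]
    refine Finset.sum_congr rfl fun i _ => ?_
    rw [← Finset.sum_add_distrib]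
    exact Finset.sum_congr rfl fun j _ => LOW_split1 G f i j

theorem LOW_nn {V : Type} (G : SimpleGraph V) (i j : V) : 0 ≤ adj G i j := by
  unfold adj
  split_ifs <;> norm_num

theorem prfLOW : CNT_statement ∧ (P_statement → EDG_statement → LOW_statement) := by
  constructor
  · intro r s a b V _ G f hM
    obtain ⟨h1, h2⟩ := LOW_main r s a b V G f hM
    have h3 : ((r.choose 2 : ℕ) : ℝ) = r * (r - 1) / 2 := Nat.cast_choose_two ℝ r
    have h4 : ((G.edgeSet.ncard + a : ℕ) : ℝ) = ((r.choose 2 * s ^ 2 + b : ℕ) : ℝ) := by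
      push_cast
      rw [h3]
      linarith
    exact_mod_cast h4
  · intro hP _ r s a b V _ G f hr hs hM
    classical
    obtain ⟨h1, h2⟩ := LOW_main r s a b V G f hM
    have hne : Nonempty V := by
      have h5 := hM.size ⟨0, by omega⟩
      have h6 : {v | f v = some (⟨0, by omega⟩ : Fin r)}.Nonempty := by
        apply Set.nonempty_of_ncard_ne_zero
        omega
      exact ⟨h6.some⟩
    obtain ⟨hl0, hq, -⟩ := hP V G
    have h7 := hq (fun i => if f i ≠ none then (1 : ℝ) else 0)
    have h8 : qf G (fun i => if f i ≠ none then (1 : ℝ) else 0) =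
        ∑ i, ∑ j, adj (LOW_Gc G f) i j := by
      unfold qf
      refine Finset.sum_congr rfl fun i _ => Finset.sum_congr rfl fun j _ => ?_
      unfold adj LOW_Gc
      by_cases h : G.Adj i j <;> by_cases hi : f i = none <;> by_cases hj : f j = none <;>
        simp [h, hi, hj]
    have h9 : ∑ i, (fun i => if f i ≠ none then (1 : ℝ) else 0) i ^ 2 = r * s := by
      rw [← LOW_core V f hM.size]
      refine Finset.sum_congr rfl fun i _ => ?_
      by_cases hi : f i = none <;> simp [hi]
    rw [h8, h9] at h7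
    have hS : 0 ≤ ∑ i, ∑ j, adj (LOW_Gc G f) i j :=
      Finset.sum_nonneg fun i _ => Finset.sum_nonneg fun j _ => LOW_nn _ i j
    set S := ∑ i, ∑ j, adj (LOW_Gc G f) i j with hSd
    have hr' : (2 : ℝ) ≤ r := by exact_mod_cast hr
    have hs' : (1 : ℝ) ≤ s := by exact_mod_cast hs
    have hrs : (0 : ℝ) < r * s := by positivity
    have hlam : S / (r * s) ≤ lam G := by
      rw [div_le_iff₀ hrs]
      exact h7
    have hlam2 : (S / (r * s)) ^ 2 ≤ lam G ^ 2 :=
      pow_le_pow_left₀ (div_nonneg hS hrs.le) hlam 2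
    refine le_trans ?_ hlam2
    have hSe : S = r * s * ((r - 1) * s) - 2 * a := by linarith
    have hE : (G.edgeSet.ncard : ℝ) = (S + 2 * b) / 2 := by linarith
    rw [hE, hSe]
    have e1 : (r * s * ((r - 1) * s) - 2 * (a : ℝ)) / (r * s) = (r - 1) * s - 2 * a / (r * s) := by
      field_simp
    rw [e1]
    have e2 : 2 * (1 - 1 / (r : ℝ)) * ((r * s * ((r - 1) * s) - 2 * a + 2 * b) / 2 - a - b) =
        ((r - 1) * s) ^ 2 - 2 * ((r - 1) * s) * (2 * a / (r * s)) := by
      field_simp
      ring
    rw [e2]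
    nlinarith [sq_nonneg (2 * (a : ℝ) / (r * s))]

end MP0c3a8f

end

section

/-!
# MAXE: existence of a maximiser
-/

open Finset

namespace MP0c3a8f

namespace MAXE

variable {V U W : Type} {r m : ℕ} {F : SimpleGraph W} {G : SimpleGraph V} {H : SimpleGraph U}

theorem transfer (φ : G ≃g H) (h : InN r m F G) : InN r m F H where
  free := (SimpleGraph.free_congr_right φ).1 h.free
  size := by
    rw [← h.size, ← Nat.card_coe_set_eq, ← Nat.card_coe_set_eq]
    exact (Nat.card_congr φ.mapEdgeSet).symm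
  noIso := by
    intro v
    obtain ⟨w, hw⟩ := h.noIso (φ.symm v)
    refine ⟨φ w, ?_⟩
    have := φ.map_adj_iff.2 hw
    simpa using this
  notPartite := fun hc => h.notPartite (hc.of_hom φ.toHom)

theorem card_le [Fintype V] (h : InN r m F G) : Fintype.card V ≤ 2 * m := by
  classical
  have h1 := G.sum_degrees_eq_twice_card_edges
  have h2 : G.edgeFinset.card = m := by
    rw [← h.size, Set.ncard_eq_toFinset_card']
    rfl
  rw [h2] at h1
  rw [← h1, Fintype.card_eq_sum_ones]
  refine Finset.sum_le_sum fun v _ => ?_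
  obtain ⟨w, hw⟩ := h.noIso v
  exact (G.degree_pos_iff_exists_adj v).2 ⟨w, hw⟩

theorem exists_fin [Fintype V] (h : InN r m F G) : ∃ (k : Fin (2 * m + 1))
    (G' : SimpleGraph (Fin k)), InN r m F G' ∧ Nonempty (G ≃g G') := by
  have hk := card_le h
  refine ⟨⟨Fintype.card V, by omega⟩, G.map (Fintype.equivFin V).toEmbedding, ?_, ?_⟩
  · exact transfer (SimpleGraph.Iso.map (Fintype.equivFin V) G) h
  · exact ⟨SimpleGraph.Iso.map (Fintype.equivFin V) G⟩

end MAXE

theorem prfMAXE : ISO_statement → MAXE_statement := by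
  classical
  intro hiso W F r m ⟨V, _, G, hG⟩
  have hfin : ∀ k : ℕ, Finite (SimpleGraph (Fin k)) := fun k =>
    Finite.of_injective (fun G : SimpleGraph (Fin k) => G.Adj) fun _ _ h =>
      SimpleGraph.ext h
  have hfin2 : Finite (Σ k : Fin (2 * m + 1), SimpleGraph (Fin (k : ℕ))) := by
    have := fun k : Fin (2 * m + 1) => hfin (k : ℕ)
    infer_instance
  set S : Set (Σ k : Fin (2 * m + 1), SimpleGraph (Fin (k : ℕ))) := {p | InN r m F p.2} with hS
  obtain ⟨k0, G0, hG0, -⟩ := MAXE.exists_fin hG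
  obtain ⟨p, hp, hmax⟩ := Set.exists_max_image S (fun p => lam p.2) S.toFinite
    ⟨⟨k0, G0⟩, hG0⟩
  refine ⟨p.1, p.2, hp, ?_⟩
  intro U _ H hH
  obtain ⟨k, H', hH', hi⟩ := MAXE.exists_fin hH
  rw [hiso U (Fin k) H H' hi]
  exact hmax ⟨k, H'⟩ hH'

end MP0c3a8f

end

section

/-!
# MM: the chain of Moon and Moser
-/

open Finset

namespace MP0c3a8f

namespace MM

variable {V : Type} [Fintype V] {G : SimpleGraph V} {y : V → ℝ}

theorem dd_le (hy : ∀ i, 0 ≤ y i) (h1 : ∑ i, y i = 1) {k : ℕ} (v : Fin k → V) :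
    dd G y v ≤ 1 := by
  classical
  rw [← h1]
  unfold dd
  refine Finset.sum_le_sum fun i _ => ?_
  split_ifs
  · exact le_rfl
  · exact hy i

theorem hh_nonneg (hy : ∀ i, 0 ≤ y i) (k : ℕ) : 0 ≤ hh G y k := by
  classical
  unfold hh
  refine Finset.sum_nonneg fun v _ => ?_
  split_ifs
  · exact Finset.prod_nonneg fun t _ => hy _
  · exact le_rfl

theorem hh_zero : hh G y 0 = 1 := by
  classical
  unfold hh
  rw [Fintype.sum_unique, if_pos]
  · simp
  · intro i
    exact i.elim0

theorem hh_one (hA : AVG_statement) (hy : ∀ i, 0 ≤ y i) (h1 : ∑ i, y i = 1) : hh G y 1 = 1 := by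
  classical
  rw [(hA V G y 0 hy h1).2.2.2, Fintype.sum_unique, if_pos]
  · unfold dd
    simp [h1]
  · intro i
    exact i.elim0

theorem hh_two (hA : AVG_statement) (hy : ∀ i, 0 ≤ y i) (h1 : ∑ i, y i = 1) :
    hh G y 2 = qf G y := by
  classical
  rw [(hA V G y 1 hy h1).2.2.2]
  unfold qf
  refine Fintype.sum_equiv (Equiv.funUnique (Fin 1) V) _ _ fun v => ?_
  rw [if_pos]
  · unfold dd
    rw [Finset.mul_sum]
    refine Finset.sum_congr rfl fun w _ => ?_
    have e : (Equiv.funUnique (Fin 1) V) v = v 0 := rfl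
    rw [e]
    unfold adj
    by_cases h : G.Adj (v 0) w
    · rw [if_pos h, if_pos (fun t => by rw [Subsingleton.elim t 0]; exact h.symm)]
      simp
    · rw [if_neg h, if_neg (fun h' => h (h' 0).symm)]
      simp
  · intro i j hij
    exact absurd (Subsingleton.elim i j) hij

theorem hh_succ_le (hA : AVG_statement) (hy : ∀ i, 0 ≤ y i) (h1 : ∑ i, y i = 1) (k : ℕ) :
    hh G y (k + 1) ≤ hh G y k := by
  classical
  rw [(hA V G y k hy h1).2.2.2]
  unfold hh
  refine Finset.sum_le_sum fun v _ => ?_
  by_cases h : cl G v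
  · rw [if_pos h, if_pos h]
    have h2 : 0 ≤ ∏ t, y (v t) := Finset.prod_nonneg fun t _ => hy _
    have h3 := dd_le (G := G) hy h1 v
    calc (∏ t, y (v t)) * dd G y v ≤ (∏ t, y (v t)) * 1 := mul_le_mul_of_nonneg_left h3 h2
      _ = _ := mul_one _
  · rw [if_neg h, if_neg h]

theorem mm2 (hA : AVG_statement) (hy : ∀ i, 0 ≤ y i) (h1 : ∑ i, y i = 1) (k : ℕ) :
    ((k : ℝ) + 1) * hh G y (k + 1) ^ 2 ≤
      hh G y k * (hh G y (k + 1) + k * hh G y (k + 2)) := by
  classical
  obtain ⟨ha, -, hc, -⟩ := hA V G y k hy h1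
  have hd := (hA V G y (k + 1) hy h1).2.2.2
  refine ha.trans (mul_le_mul_of_nonneg_left ?_ (hh_nonneg hy k))
  have h2 : (∑ v : Fin (k + 1) → V, if cl G v then (∏ t, y (v t)) * gg G y v else 0) ≤
      hh G y (k + 1) - hh G y (k + 2) := by
    rw [hd]
    unfold hh
    rw [← Finset.sum_sub_distrib]
    refine Finset.sum_le_sum fun v _ => ?_
    by_cases h : cl G v
    · rw [if_pos h, if_pos h, if_pos h]
      have h3 : 0 ≤ ∏ t, y (v t) := Finset.prod_nonneg fun t _ => hy _
      have h4 := hc v
      nlinarith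
    · rw [if_neg h, if_neg h, if_neg h]
      norm_num
  linarith

theorem qf_le (hA : AVG_statement) (hy : ∀ i, 0 ≤ y i) (h1 : ∑ i, y i = 1) : qf G y ≤ 1 := by
  rw [← hh_two hA hy h1, ← hh_one (G := G) hA hy h1]
  exact hh_succ_le hA hy h1 1

theorem chain (hA : AVG_statement) (hy : ∀ i, 0 ≤ y i) (h1 : ∑ i, y i = 1) (k : ℕ) :
    (1 - (k : ℝ) * (1 - qf G y)) * hh G y k ≤ hh G y (k + 1) := by
  have hθ : 0 ≤ 1 - qf G y := by linarith [qf_le (G := G) hA hy h1]
  induction k with
  | zero =>
    rw [hh_zero, zero_add, hh_one hA hy h1]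
    simp
  | succ k ih =>
    rcases Nat.eq_zero_or_pos k with h0 | hk
    · subst h0
      rw [zero_add, hh_one hA hy h1, hh_two hA hy h1]
      push_cast
      linarith
    · have hkR : (0 : ℝ) < k := by exact_mod_cast hk
      have ha := hh_nonneg (G := G) hy k
      have hb := hh_nonneg (G := G) hy (k + 1)
      have hc := hh_nonneg (G := G) hy (k + 2)
      have hm := mm2 (G := G) hA hy h1 k
      generalize hh G y k = A at ih ha hm
      have hle := hh_succ_le (G := G) hA hy h1 (k + 1)
      generalize hh G y (k + 1) = D at ih hb hm hle ⊢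
      generalize hh G y (k + 1 + 1) = E at hle ⊢ hm hc
      generalize 1 - qf G y = θ at ih hθ ⊢
      push_cast
      by_cases hs : 1 - ((k : ℝ) + 1) * θ ≤ 0
      · have : (1 - ((k : ℝ) + 1) * θ) * D ≤ 0 := mul_nonpos_of_nonpos_of_nonneg hs hb
        linarith
      · push Not at hs
        have hs' : 0 < 1 - (k : ℝ) * θ := by nlinarith
        rcases hb.eq_or_lt with hD | hD
        · rw [← hD, mul_zero]
          exact hc
        · have h2 : (1 - (k : ℝ) * θ) * (((k : ℝ) + 1) * D ^ 2) ≤ D * (D + k * E) := by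
            calc (1 - (k : ℝ) * θ) * (((k : ℝ) + 1) * D ^ 2)
                ≤ (1 - (k : ℝ) * θ) * (A * (D + k * E)) :=
                  mul_le_mul_of_nonneg_left hm hs'.le
              _ = ((1 - (k : ℝ) * θ) * A) * (D + k * E) := by ring
              _ ≤ D * (D + k * E) := mul_le_mul_of_nonneg_right ih (by positivity)
          have h3 : (1 - (k : ℝ) * θ) * (((k : ℝ) + 1) * D) ≤ D + k * E := by
            have h4 : D * ((1 - (k : ℝ) * θ) * (((k : ℝ) + 1) * D)) ≤ D * (D + k * E) := by
              calc D * ((1 - (k : ℝ) * θ) * (((k : ℝ) + 1) * D))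
                  = (1 - (k : ℝ) * θ) * (((k : ℝ) + 1) * D ^ 2) := by ring
                _ ≤ _ := h2
            exact le_of_mul_le_mul_left h4 hD
          have h5 : (k : ℝ) * ((1 - ((k : ℝ) + 1) * θ) * D) ≤ k * E := by
            have e : (k : ℝ) * ((1 - ((k : ℝ) + 1) * θ) * D) =
                (1 - (k : ℝ) * θ) * (((k : ℝ) + 1) * D) - D := by ring
            rw [e]
            linarith
          exact le_of_mul_le_mul_left h5 hkR

end MM

theorem prfMM : AVG_statement → MM_statement := by
  intro hA V _ G y hy h1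
  exact ⟨MM.hh_one hA hy h1, MM.hh_two hA hy h1, fun k =>
    ⟨MM.hh_nonneg hy k, MM.hh_succ_le hA hy h1 k, MM.chain hA hy h1 k⟩⟩

end MP0c3a8f

end

section

/-!
# MP_0c3a8f_co: item NON
-/

set_option autoImplicit false

namespace MP0c3a8f

namespace INON

/-- the join of a complete graph and a cycle -/
def hAdj (r L : ℕ) : Fin (r - 2) ⊕ Fin L → Fin (r - 2) ⊕ Fin L → Prop
  | Sum.inl i, Sum.inl j => i ≠ j
  | Sum.inl _, Sum.inr _ => True
  | Sum.inr _, Sum.inl _ => True
  | Sum.inr i, Sum.inr j => i.val + 1 = j.val ∨ j.val + 1 = i.val ∨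
      (i.val = 0 ∧ j.val + 1 = L) ∨ (j.val = 0 ∧ i.val + 1 = L)

/-- the join of a complete graph and a cycle -/
def HH (r L : ℕ) (hL : 2 ≤ L) : SimpleGraph (Fin (r - 2) ⊕ Fin L) where
  Adj := hAdj r L
  symm := ⟨by
    rintro (i | i) (j | j) h
    · exact Ne.symm h
    · trivial
    · trivial
    · simp only [hAdj] at h ⊢
      omega⟩
  loopless := ⟨by
    rintro (i | i) h
    · exact h rfl
    · simp only [hAdj] at h
      omega⟩

/-- disjoint union with the complete `r`-partite graph -/
def gAdj (r L s : ℕ) : (Fin (r - 2) ⊕ Fin L) ⊕ (Fin r × Fin s) →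
    (Fin (r - 2) ⊕ Fin L) ⊕ (Fin r × Fin s) → Prop
  | Sum.inl i, Sum.inl j => hAdj r L i j
  | Sum.inl _, Sum.inr _ => False
  | Sum.inr _, Sum.inl _ => False
  | Sum.inr p, Sum.inr q => p.1 ≠ q.1

/-- disjoint union with the complete `r`-partite graph -/
def GG (r L s : ℕ) (hL : 2 ≤ L) : SimpleGraph ((Fin (r - 2) ⊕ Fin L) ⊕ (Fin r × Fin s)) where
  Adj := gAdj r L s
  symm := ⟨by
    rintro (i | i) (j | j) h
    · exact (HH r L hL).symm.symm _ _ h
    · exact h
    · exact h
    · exact Ne.symm h⟩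
  loopless := ⟨by
    rintro (i | i) h
    · exact (HH r L hL).loopless.irrefl i h
    · exact h rfl⟩

/-- the parts -/
def ff (r L s : ℕ) : (Fin (r - 2) ⊕ Fin L) ⊕ (Fin r × Fin s) → Option (Fin r)
  | Sum.inl _ => none
  | Sum.inr p => some p.1

theorem not_col (r L s : ℕ) (hL : 2 ≤ L) (hr : 3 ≤ r) (hodd : L % 2 = 1)
    (c : (Fin (r - 2) ⊕ Fin L) ⊕ (Fin r × Fin s) → Fin r)
    (hc : ∀ u v, gAdj r L s u v → c u ≠ c v) : False := by
  classical
  have hinj : Function.Injective (fun i : Fin (r - 2) => c (Sum.inl (Sum.inl i))) := by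
    intro i j hij
    by_contra hne
    exact hc (Sum.inl (Sum.inl i)) (Sum.inl (Sum.inl j)) hne hij
  set S : Finset (Fin r) := Finset.univ.image (fun i : Fin (r - 2) => c (Sum.inl (Sum.inl i)))
    with hS
  have hScard : S.card = r - 2 := by
    rw [hS, Finset.card_image_of_injective _ hinj, Finset.card_univ, Fintype.card_fin]
  have hR : (Finset.univ \ S).card = 2 := by
    rw [Finset.card_sdiff_of_subset (Finset.subset_univ _), hScard, Finset.card_univ,
      Fintype.card_fin]
    omega
  obtain ⟨a, b, hab, hRab⟩ := Finset.card_eq_two.1 hR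
  have hcyc : ∀ j : Fin L, c (Sum.inl (Sum.inr j)) = a ∨ c (Sum.inl (Sum.inr j)) = b := by
    intro j
    have : c (Sum.inl (Sum.inr j)) ∈ Finset.univ \ S := by
      rw [Finset.mem_sdiff]
      refine ⟨Finset.mem_univ _, fun hm => ?_⟩
      rw [hS, Finset.mem_image] at hm
      obtain ⟨i, -, hi⟩ := hm
      exact hc (Sum.inl (Sum.inl i)) (Sum.inl (Sum.inr j)) trivial hi
    rw [hRab] at this
    simpa using this
  have hstep : ∀ i (h1 : i + 1 < L), c (Sum.inl (Sum.inr ⟨i, by omega⟩)) ≠
      c (Sum.inl (Sum.inr ⟨i + 1, h1⟩)) := by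
    intro i h1
    exact hc _ _ (Or.inl rfl)
  have hev : ∀ i, ∀ h : 2 * i < L, c (Sum.inl (Sum.inr ⟨2 * i, h⟩)) =
      c (Sum.inl (Sum.inr ⟨0, by omega⟩)) := by
    intro i
    induction i with
    | zero => intro h; rfl
    | succ i ih =>
      intro h
      have e1 := hstep (2 * i) (by omega)
      have e2 := hstep (2 * i + 1) (by omega)
      have e3 := ih (by omega)
      have e4 : c (Sum.inl (Sum.inr ⟨2 * (i + 1), h⟩)) =
          c (Sum.inl (Sum.inr ⟨2 * i + 1 + 1, by omega⟩)) := rfl
      rw [e4, ← e3]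
      rcases hcyc ⟨2 * i, by omega⟩ with h1 | h1 <;>
      rcases hcyc ⟨2 * i + 1, by omega⟩ with h2 | h2 <;>
      rcases hcyc ⟨2 * i + 1 + 1, by omega⟩ with h3 | h3 <;>
      rw [h1, h2] at e1 <;> rw [h2, h3] at e2 <;> rw [h1, h3] <;>
      first | rfl | exact absurd rfl e1 | exact absurd rfl e2
  have hlast := hev ((L - 1) / 2) (by omega)
  refine hc (Sum.inl (Sum.inr ⟨2 * ((L - 1) / 2), by omega⟩)) (Sum.inl (Sum.inr ⟨0, by omega⟩))
    ?_ hlast
  refine Or.inr (Or.inr (Or.inr ⟨rfl, ?_⟩))
  show 2 * ((L - 1) / 2) + 1 = L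
  omega

/-- a colouring of all vertices except one vertex of the cycle -/
def colf (r L s : ℕ) (hr : 3 ≤ r) (j0 : Fin L) :
    (Fin (r - 2) ⊕ Fin L) ⊕ (Fin r × Fin s) → Fin r
  | Sum.inl (Sum.inl i) => ⟨i.val, by omega⟩
  | Sum.inl (Sum.inr j) => ⟨r - 2 + (if j0.val < j.val then j.val - j0.val
      else j.val + L - j0.val) % 2, by omega⟩
  | Sum.inr p => p.1

theorem colf_ne (r L s : ℕ) (hr : 3 ≤ r) (j0 : Fin L)
    (u v : (Fin (r - 2) ⊕ Fin L) ⊕ (Fin r × Fin s)) (hu : u ≠ Sum.inl (Sum.inr j0))
    (hv : v ≠ Sum.inl (Sum.inr j0)) (h : gAdj r L s u v) :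
    colf r L s hr j0 u ≠ colf r L s hr j0 v := by
  rcases u with (i | i) | p <;> rcases v with (j | j) | q
  · intro he
    refine h ?_
    have := congrArg Fin.val he
    simp only [colf] at this
    exact Fin.ext this
  · intro he
    have := congrArg Fin.val he
    simp only [colf] at this
    omega
  · exact absurd h (by simp [gAdj])
  · intro he
    have := congrArg Fin.val he
    simp only [colf] at this
    omega
  · intro he
    have h1 := congrArg Fin.val he
    have hi : i.val ≠ j0.val := fun hh => hu (by rw [Fin.ext hh])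
    have hj : j.val ≠ j0.val := fun hh => hv (by rw [Fin.ext hh])
    simp only [colf] at h1
    simp only [gAdj, hAdj] at h
    have := i.isLt
    have := j.isLt
    have := j0.isLt
    split_ifs at h1 <;> omega
  · exact absurd h (by simp [gAdj])
  · exact absurd h (by simp [gAdj])
  · exact absurd h (by simp [gAdj])
  · exact h

end INON

open INON in
theorem prfNON : NON_statement := by
  intro W _ F r hr hF
  classical
  set L : ℕ := 2 * Fintype.card W + 3 with hL
  have hL2 : 2 ≤ L := by omega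
  refine ⟨(HH r L hL2).edgeSet.ncard, fun s => ⟨s, le_rfl, ?_⟩⟩
  set e := Fintype.equivFin ((Fin (r - 2) ⊕ Fin L) ⊕ (Fin r × Fin s)) with he
  refine ⟨_, (GG r L s hL2).comap e.symm, fun v => ff r L s (e.symm v), ⟨?_, ?_, ?_, ?_⟩,
    ?_, ?_, ?_⟩
  · intro t
    have h1 : {v | ff r L s (e.symm v) = some t} =
        (fun x : Fin s => e (Sum.inr (t, x))) '' Set.univ := by
      ext v
      simp only [Set.mem_ofPred_eq, Set.image_univ, Set.mem_range]
      constructor
      · intro h
        rcases hv : e.symm v with p | p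
        · rw [hv] at h
          simp [ff] at h
        · rw [hv] at h
          simp only [ff, Option.some.injEq] at h
          refine ⟨p.2, ?_⟩
          rw [← h]
          rw [Prod.mk.eta, ← hv, Equiv.apply_symm_apply]
      · rintro ⟨x, rfl⟩
        rw [Equiv.symm_apply_apply]
        rfl
    rw [h1, Set.ncard_image_of_injective _ (fun x y hxy => by
      have := e.injective hxy
      simpa using this), Set.ncard_univ, Nat.card_fin]
  · intro v w h1 h2 h3
    have h3' : gAdj r L s (e.symm v) (e.symm w) := h3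
    beta_reduce at h1 h2
    rcases hv : e.symm v with p | p <;> rcases hw : e.symm w with q | q <;>
      rw [hv] at h1 h2 h3' <;> rw [hw] at h2 h3'
    · exact h1 rfl
    · exact h3'
    · exact h3'
    · simp only [ff, Option.some.injEq] at h2
      exact h3' h2
  · have h1 : missSet ((GG r L s hL2).comap e.symm) (fun v => ff r L s (e.symm v)) = ∅ := by
      rw [Set.eq_empty_iff_forall_notMem]
      rintro z ⟨v, w, -, h2, h3, h4, h5⟩
      refine h5 ?_
      show gAdj r L s (e.symm v) (e.symm w)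
      beta_reduce at h2 h3 h4
      rcases hv : e.symm v with p | p <;> rcases hw : e.symm w with q | q <;>
        rw [hv] at h2 h4 <;> rw [hw] at h3 h4
      · exact absurd rfl h2
      · exact absurd rfl h2
      · exact absurd rfl h3
      · intro hh
        exact h4 (by simp only [ff, hh])
    rw [h1, Set.ncard_empty]
  · have h1 : outSet ((GG r L s hL2).comap e.symm) (fun v => ff r L s (e.symm v)) =
        (Sym2.map fun h => e (Sum.inl h)) '' (HH r L hL2).edgeSet := by
      ext z
      induction z using Sym2.ind with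
      | _ v w =>
        constructor
        · rintro ⟨h2, u, hu, hfu⟩
          rw [SimpleGraph.mem_edgeSet] at h2
          beta_reduce at hfu
          have h3 : gAdj r L s (e.symm v) (e.symm w) := h2
          rcases hv : e.symm v with p | p <;> rcases hw : e.symm w with q | q <;>
            rw [hv, hw] at h3
          · refine ⟨s(p, q), ?_, ?_⟩
            · rw [SimpleGraph.mem_edgeSet]
              exact h3
            · rw [Sym2.map_mk, ← hv, ← hw, Equiv.apply_symm_apply, Equiv.apply_symm_apply]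
          · exact absurd h3 (by simp [gAdj])
          · exact absurd h3 (by simp [gAdj])
          · rcases Sym2.mem_iff.1 hu with rfl | rfl
            · rw [hv] at hfu
              simp [ff] at hfu
            · rw [hw] at hfu
              simp [ff] at hfu
        · rintro ⟨y, hy, hz⟩
          induction y using Sym2.ind with
          | _ p q =>
            rw [Sym2.map_mk] at hz
            rw [← hz]
            refine ⟨?_, e (Sum.inl p), Sym2.mem_mk_left _ _, ?_⟩
            · rw [SimpleGraph.mem_edgeSet, SimpleGraph.comap_adj, Equiv.symm_apply_apply,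
                Equiv.symm_apply_apply]
              exact hy
            · beta_reduce
              rw [Equiv.symm_apply_apply]
              rfl
    rw [h1, Set.ncard_image_of_injective]
    exact Sym2.map.injective fun x y hxy => by simpa using hxy
  · rintro ⟨φ⟩
    refine hF ?_
    set ψ : W → (Fin (r - 2) ⊕ Fin L) ⊕ (Fin r × Fin s) := fun w => e.symm (φ w) with hψ
    have hj0 : ∃ j0 : Fin L, ∀ w, ψ w ≠ Sum.inl (Sum.inr j0) := by
      by_contra hcon
      push Not at hcon
      choose g hg using hcon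
      have hginj : Function.Injective g := by
        intro a b hab
        have h1 := hg a
        have h2 := hg b
        rw [hab, h2] at h1
        simpa using h1.symm
      have := Fintype.card_le_of_injective g hginj
      rw [Fintype.card_fin] at this
      omega
    obtain ⟨j0, hj0⟩ := hj0
    refine ⟨SimpleGraph.Coloring.mk (fun w => colf r L s hr j0 (ψ w)) ?_⟩
    intro a b hab
    exact colf_ne r L s hr j0 _ _ (hj0 a) (hj0 b) (φ.toHom.map_adj hab)
  · rintro ⟨C⟩
    refine not_col r L s hL2 hr (by omega) (fun v => C (e v)) fun u v huv => ?_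
    refine C.valid ?_
    rw [SimpleGraph.comap_adj, Equiv.symm_apply_apply, Equiv.symm_apply_apply]
    exact huv
  · intro v
    rcases hv : e.symm v with (p | p) | p
    · refine ⟨e (Sum.inl (Sum.inr ⟨0, by omega⟩)), ?_⟩
      rw [SimpleGraph.comap_adj, hv, Equiv.symm_apply_apply]
      trivial
    · refine ⟨e (Sum.inl (Sum.inl ⟨0, by omega⟩)), ?_⟩
      rw [SimpleGraph.comap_adj, hv, Equiv.symm_apply_apply]
      trivial
    · have hex : ∃ t : Fin r, p.1 ≠ t := by
        have : Nontrivial (Fin r) := Fin.nontrivial_iff_two_le.2 (by omega)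
        obtain ⟨t, ht⟩ := exists_ne p.1
        exact ⟨t, ht.symm⟩
      obtain ⟨t, ht⟩ := hex
      refine ⟨e (Sum.inr (t, p.2)), ?_⟩
      rw [SimpleGraph.comap_adj, hv, Equiv.symm_apply_apply]
      exact ht

end MP0c3a8f

end

section

/-!
# MP_0c3a8f_co: item NRM
-/

open Finset

namespace MP0c3a8f

open Classical in
/-- local weight -/
noncomputable def nrmW {V : Type} [Fintype V] {r : ℕ} (G : SimpleGraph V) (z : V → ℝ)
    (f : V → Option (Fin r)) (i : V) : ℝ :=
  ∑ j, adj G i j * (z i * z j - 1) ^ 2 +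
    ∑ j, if f i ≠ none ∧ f j ≠ none ∧ f i ≠ f j ∧ ¬ G.Adj i j then z i ^ 2 * z j ^ 2 else 0

lemma nrm_adj_nonneg {V : Type} (G : SimpleGraph V) (i j : V) : 0 ≤ adj G i j := by
  unfold adj; split_ifs <;> norm_num

lemma nrmW_nonneg {V : Type} [Fintype V] {r : ℕ} (G : SimpleGraph V) (z : V → ℝ)
    (f : V → Option (Fin r)) (i : V) : 0 ≤ nrmW G z f i := by
  unfold nrmW
  apply add_nonneg
  · exact Finset.sum_nonneg fun j _ => mul_nonneg (nrm_adj_nonneg G i j) (sq_nonneg _)
  · refine Finset.sum_nonneg fun j _ => ?_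
    split_ifs
    · positivity
    · exact le_refl _

/-- (a) -/
lemma nrm_a {V : Type} [Fintype V] {r : ℕ} (G : SimpleGraph V) (z : V → ℝ)
    (f : V → Option (Fin r)) (hz : ∀ i, 0 ≤ z i) {κ Q C : ℝ} (hκ : 0 < κ) (hQ : 0 < Q)
    (hC : 4 * C ≤ κ * Q) (hW : ∑ i, nrmW G z f i ≤ 2 * C) (S : Finset V)
    (hS : Q / 2 ≤ ∑ i ∈ S, z i ^ 2) : ∃ i ∈ S, 0 < z i ∧ nrmW G z f i ≤ κ * z i ^ 2 := by
  by_contra hcon
  push Not at hcon
  have h1 : ∀ i ∈ S, κ * z i ^ 2 ≤ nrmW G z f i := by
    intro i hi
    rcases (hz i).lt_or_eq with h | h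
    · exact (hcon i hi h).le
    · rw [← h]; simpa using nrmW_nonneg G z f i
  have h2 : ∃ i ∈ S, κ * z i ^ 2 < nrmW G z f i := by
    by_contra h
    push Not at h
    have h3 : ∀ i ∈ S, z i ^ 2 = 0 := by
      intro i hi
      rcases (hz i).lt_or_eq with h' | h'
      · exact absurd (h i hi) (not_le.mpr (hcon i hi h'))
      · rw [← h']; norm_num
    rw [Finset.sum_eq_zero h3] at hS
    linarith
  have h3 : ∑ i ∈ S, κ * z i ^ 2 < ∑ i ∈ S, nrmW G z f i := Finset.sum_lt_sum h1 h2
  have h4 : ∑ i ∈ S, nrmW G z f i ≤ ∑ i, nrmW G z f i :=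
    Finset.sum_le_sum_of_subset_of_nonneg (Finset.subset_univ _)
      fun i _ _ => nrmW_nonneg G z f i
  rw [← Finset.mul_sum] at h3
  have h5 : κ * (Q / 2) ≤ κ * ∑ i ∈ S, z i ^ 2 := mul_le_mul_of_nonneg_left hS hκ.le
  nlinarith

/-- (b) adjacent -/
lemma nrm_b1 {V : Type} [Fintype V] {r : ℕ} (G : SimpleGraph V) (z : V → ℝ)
    (f : V → Option (Fin r)) {k : ℝ} (hk : 0 < k) {i j : V} (hi : 0 < z i)
    (hW : nrmW G z f i ≤ k ^ 2 * z i ^ 2) (hij : G.Adj i j) : |z j - 1 / z i| ≤ k := by
  have h1 : adj G i j * (z i * z j - 1) ^ 2 ≤ ∑ j, adj G i j * (z i * z j - 1) ^ 2 :=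
    Finset.single_le_sum (f := fun j => adj G i j * (z i * z j - 1) ^ 2)
      (fun j _ => mul_nonneg (nrm_adj_nonneg G i j) (sq_nonneg _)) (Finset.mem_univ j)
  have h2 : 0 ≤ ∑ j, (open Classical in if f i ≠ none ∧ f j ≠ none ∧ f i ≠ f j ∧ ¬ G.Adj i j
      then z i ^ 2 * z j ^ 2 else 0) := by
    refine Finset.sum_nonneg fun j _ => ?_
    split_ifs
    · positivity
    · exact le_refl _
  have h3 : adj G i j = 1 := by simp [adj, hij]
  unfold nrmW at hW
  rw [h3, one_mul] at h1
  have h4 : (z i * z j - 1) ^ 2 ≤ (k * z i) ^ 2 := by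
    rw [mul_pow]; linarith
  have h5 : |z i * z j - 1| ≤ k * z i := abs_le_of_sq_le_sq h4 (by positivity)
  have h6 : z j - 1 / z i = (z i * z j - 1) / z i := by field_simp
  rw [h6, abs_div, abs_of_pos hi, div_le_iff₀ hi]
  exact h5

open Classical in
/-- (b) not adjacent -/
lemma nrm_b2 {V : Type} [Fintype V] {r : ℕ} (G : SimpleGraph V) (z : V → ℝ)
    (f : V → Option (Fin r)) {k : ℝ} {i : V} (hi : 0 < z i)
    (hW : nrmW G z f i ≤ k ^ 2 * z i ^ 2) {s s' : Fin r} (hs : f i = some s) (hss : s' ≠ s) :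
    ∑ j ∈ univ.filter (fun j => f j = some s' ∧ ¬ G.Adj i j), z j ^ 2 ≤ k ^ 2 := by
  have h1 : 0 ≤ ∑ j, adj G i j * (z i * z j - 1) ^ 2 :=
    Finset.sum_nonneg (fun j _ => mul_nonneg (nrm_adj_nonneg G i j) (sq_nonneg _))
  unfold nrmW at hW
  have h2 : z i ^ 2 * ∑ j ∈ univ.filter (fun j => f j = some s' ∧ ¬ G.Adj i j), z j ^ 2 ≤
      ∑ j, if f i ≠ none ∧ f j ≠ none ∧ f i ≠ f j ∧ ¬ G.Adj i j then z i ^ 2 * z j ^ 2 else 0 := by
    rw [Finset.mul_sum, Finset.sum_filter]
    refine Finset.sum_le_sum fun j _ => ?_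
    by_cases h : f j = some s' ∧ ¬ G.Adj i j
    · rw [if_pos h, if_pos]
      refine ⟨by simp [hs], by simp [h.1], ?_, h.2⟩
      rw [hs, h.1]
      intro hh
      exact hss (Option.some.inj hh).symm
    · rw [if_neg h]
      split_ifs
      · positivity
      · exact le_refl _
  have h3 : z i ^ 2 * ∑ j ∈ univ.filter (fun j => f j = some s' ∧ ¬ G.Adj i j), z j ^ 2 ≤
      z i ^ 2 * k ^ 2 := by linarith
  exact le_of_mul_le_mul_left h3 (by positivity)

lemma nrm_b3 {V : Type} [Fintype V] {r : ℕ} (G : SimpleGraph V) (z : V → ℝ)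
    (f : V → Option (Fin r)) {k : ℝ} (hk : 0 < k) {i j : V} (hi : 0 < z i)
    (hW : nrmW G z f i ≤ k ^ 2 * z i ^ 2) {s s' : Fin r} (hs : f i = some s) (hss : s' ≠ s)
    (hj : f j = some s') (hij : ¬ G.Adj i j) : z j ≤ k := by
  classical
  have h1 := nrm_b2 G z f hi hW hs hss
  have h2 : z j ^ 2 ≤ ∑ j ∈ univ.filter (fun j => f j = some s' ∧ ¬ G.Adj i j), z j ^ 2 :=
    Finset.single_le_sum (f := fun j => z j ^ 2) (fun j _ => sq_nonneg _)
      (by simp [hj, hij])
  exact le_of_sq_le_sq (by linarith) hk.le |> fun h => h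

theorem prfNRM : NRM_statement := by
  classical
  intro r δ C₁ hr hδ hC
  obtain ⟨k, hk0, hkδ, hk2⟩ : ∃ k : ℝ, 0 < k ∧ 7 * k ≤ δ ∧ k ≤ 1 / 2 :=
    ⟨min (δ / 7) (1 / 2), by positivity, by
      have := min_le_left (δ / 7) (1 / 2 : ℝ); linarith, min_le_right _ _⟩
  have hk2' : k ^ 2 ≤ 1 / 4 := by nlinarith
  refine ⟨max 2 (4 * C₁ / k ^ 2), by positivity, ?_⟩
  intro V _ G z f hz hE hM hQ hnone
  set Q := max 2 (4 * C₁ / k ^ 2) with hQdef
  have hQ2 : 2 ≤ Q := le_max_left _ _
  have hQC : 4 * C₁ ≤ k ^ 2 * Q := by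
    have h : 4 * C₁ / k ^ 2 ≤ Q := le_max_right _ _
    rw [div_le_iff₀ (by positivity)] at h
    linarith
  have hW : ∑ i, nrmW G z f i ≤ 2 * C₁ := by
    unfold nrmW
    rw [Finset.sum_add_distrib]
    unfold miss at hM
    have : ∑ i, ∑ j, (if f i ≠ none ∧ f j ≠ none ∧ f i ≠ f j ∧ ¬ G.Adj i j
        then z i ^ 2 * z j ^ 2 else 0) ≤ C₁ := by
      refine le_trans (le_of_eq ?_) hM
      rfl
    linarith
  have ha := nrm_a G z f hz (κ := k ^ 2) (Q := Q) (C := C₁) (by positivity) (by linarith) hQC hW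
  let p0 : Fin r := ⟨0, by omega⟩
  let p1 : Fin r := ⟨1, by omega⟩
  let p2 : Fin r := ⟨2, by omega⟩
  have h10 : p1 ≠ p0 := by simp [p0, p1]
  have h20 : p2 ≠ p0 := by simp [p0, p2]
  have h21 : p2 ≠ p1 := by simp [p1, p2]
  have hcw : ∀ t, Q ≤ ∑ j ∈ univ.filter (fun j => f j = some t), z j ^ 2 := by
    intro t
    have := hQ t
    unfold cw at this
    rw [Finset.sum_filter]
    convert this using 2
  -- step 1
  obtain ⟨i0, hi0, hz0, hW0⟩ := ha (univ.filter (fun j => f j = some p0))
    (by have := hcw p0; linarith)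
  have hf0 : f i0 = some p0 := by simpa using hi0
  -- step 2
  have hsplit : ∀ (i : V) (t : Fin r), ∑ j ∈ univ.filter (fun j => f j = some t), z j ^ 2 =
      ∑ j ∈ univ.filter (fun j => f j = some t ∧ G.Adj i j), z j ^ 2 +
      ∑ j ∈ univ.filter (fun j => f j = some t ∧ ¬ G.Adj i j), z j ^ 2 := by
    intro i t
    rw [← Finset.sum_filter_add_sum_filter_not (univ.filter (fun j => f j = some t))
      (fun j => G.Adj i j), Finset.filter_filter, Finset.filter_filter]
  have hS1 : Q / 2 ≤ ∑ j ∈ univ.filter (fun j => f j = some p1 ∧ G.Adj i0 j), z j ^ 2 := by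
    have h1 := hcw p1
    rw [hsplit i0 p1] at h1
    have h2 := nrm_b2 G z f hz0 hW0 hf0 h10
    linarith
  obtain ⟨i1, hi1, hz1, hW1⟩ := ha _ hS1
  have hf1 : f i1 = some p1 := by simp at hi1; exact hi1.1
  have hadj01 : G.Adj i0 i1 := by simp at hi1; exact hi1.2
  -- step 3
  obtain ⟨j2, hf2, h02, h12⟩ : ∃ j, f j = some p2 ∧ G.Adj i0 j ∧ G.Adj i1 j := by
    by_contra hcon
    push Not at hcon
    have h1 := hcw p2
    have h2 := nrm_b2 G z f hz0 hW0 hf0 h20
    have h3 := nrm_b2 G z f hz1 hW1 hf1 h21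
    have h4 : ∑ j ∈ univ.filter (fun j => f j = some p2), z j ^ 2 ≤
        ∑ j ∈ univ.filter (fun j => f j = some p2 ∧ ¬ G.Adj i0 j), z j ^ 2 +
        ∑ j ∈ univ.filter (fun j => f j = some p2 ∧ ¬ G.Adj i1 j), z j ^ 2 := by
      rw [Finset.sum_filter, Finset.sum_filter, Finset.sum_filter, ← Finset.sum_add_distrib]
      refine Finset.sum_le_sum fun j _ => ?_
      by_cases hj : f j = some p2
      · by_cases hj0 : G.Adj i0 j
        · have hj1 := hcon j hj hj0
          simp [hj, hj0, hj1]
        · simp only [hj, hj0, not_false_iff, and_self, if_true, true_and]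
          split_ifs <;> nlinarith [sq_nonneg (z j)]
      · simp [hj]
    linarith
  have e0 := nrm_b1 G z f hk0 hz0 hW0 h02
  have e1 := nrm_b1 G z f hk0 hz1 hW1 h12
  have e2 := nrm_b1 G z f hk0 hz0 hW0 hadj01
  set a0 := 1 / z i0 with ha0
  set a1 := 1 / z i1 with ha1
  have e3 : |z i1 - a1| ≤ 3 * k := by
    rw [abs_le] at *
    constructor <;> linarith [e0.1, e0.2, e1.1, e1.2, e2.1, e2.2]
  have e4 : |z i1 - 1| ≤ 3 * k := by
    have h1 : z i1 - a1 = (z i1 - 1) * (z i1 + 1) / z i1 := by
      rw [ha1]; field_simp; ring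
    rw [h1, abs_div, abs_mul, abs_of_pos hz1, abs_of_pos (by linarith : 0 < z i1 + 1),
      div_le_iff₀ hz1] at e3
    have h2 : |z i1 - 1| * (z i1 + 1) ≤ 3 * k * (z i1 + 1) := by nlinarith
    exact le_of_mul_le_mul_right h2 (by linarith)
  have e5 : |a0 - 1| ≤ 4 * k := by
    rw [abs_le] at *
    constructor <;> linarith [e4.1, e4.2, e2.1, e2.2]
  have e6 : |a1 - 1| ≤ 6 * k := by
    rw [abs_le] at *
    constructor <;> linarith [e4.1, e4.2, e3.1, e3.2]
  -- step 4
  intro j
  rcases hfj : f j with _ | s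
  · right
    have h1 : z j ^ 2 ≤ cw (fun i => z i ^ 2) f none := by
      unfold cw
      have := Finset.single_le_sum (f := fun i => if f i = none then z i ^ 2 else 0)
        (fun i _ => by split_ifs; positivity; exact le_refl _) (Finset.mem_univ j)
      simp only [hfj, if_true] at this
      convert this using 2
    exact le_of_sq_le_sq (h1.trans hnone) hδ.le |> fun h => h
  · by_cases hs : s = p0
    · -- use i1
      have hs1 : s ≠ p1 := by rw [hs]; exact h10.symm
      by_cases hadj : G.Adj i1 j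
      · left
        refine ⟨by simp, ?_⟩
        have h1 := nrm_b1 G z f hk0 hz1 hW1 hadj
        rw [← ha1] at h1
        rw [abs_le] at *
        constructor <;> linarith [h1.1, h1.2, e6.1, e6.2]
      · right
        have h1 := nrm_b3 G z f hk0 hz1 hW1 hf1 hs1 hfj hadj
        linarith
    · by_cases hadj : G.Adj i0 j
      · left
        refine ⟨by simp, ?_⟩
        have h1 := nrm_b1 G z f hk0 hz0 hW0 hadj
        rw [← ha0] at h1
        rw [abs_le] at *
        constructor <;> linarith [h1.1, h1.2, e5.1, e5.2]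
      · right
        have h1 := nrm_b3 G z f hk0 hz0 hW0 hf0 hs hfj hadj
        linarith

end MP0c3a8f

end

section

/-!
# MP_0c3a8f_co, item PRT (helper43)
-/

open Finset

namespace MP0c3a8f

namespace PRT

theorem inB_unique {V : Type} {k : ℕ} {G : SimpleGraph V} {v : Fin k → V} {t t' : Fin k} {w : V}
    (h : InB G v t w) (h' : InB G v t' w) : t = t' := by
  by_contra hne
  exact h'.2 (h.1 t' (fun h => hne h.symm))

open Classical in
/-- the partition -/
noncomputable def pf {V : Type} {r : ℕ} (G : SimpleGraph V) (v : Fin r → V) (w : V) :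
    Option (Fin r) :=
  if h : ∃ t, InB G v t w then some h.choose else none

theorem pf_some {V : Type} {r : ℕ} (G : SimpleGraph V) (v : Fin r → V) (w : V) (t : Fin r) :
    pf G v w = some t ↔ InB G v t w := by
  unfold pf
  constructor
  · intro h
    split_ifs at h with h1
    rw [Option.some.injEq] at h
    rw [← h]
    exact h1.choose_spec
  · intro h
    have h1 : ∃ t, InB G v t w := ⟨t, h⟩
    rw [dif_pos h1, Option.some.injEq]
    exact inB_unique h1.choose_spec h

theorem pf_none {V : Type} {r : ℕ} (G : SimpleGraph V) (v : Fin r → V) (w : V) :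
    pf G v w ≠ none ↔ ∃ t, InB G v t w := by
  rw [Option.ne_none_iff_exists']
  exact exists_congr fun t => pf_some G v w t

theorem three {r : ℕ} (hr : 3 ≤ r) (t : Fin r) : ∃ a b : Fin r, a ≠ t ∧ b ≠ t ∧ a ≠ b := by
  have h : 2 < Fintype.card (Fin r) := by rw [Fintype.card_fin]; omega
  obtain ⟨a, b, c, hab, hac, hbc⟩ := Fintype.two_lt_card_iff.1 h
  by_cases h1 : a = t
  · exact ⟨b, c, fun h => hab (h1.trans h.symm), fun h => hac (h1.trans h.symm), hbc⟩
  · by_cases h2 : b = t
    · exact ⟨a, c, h1, fun h => hbc (h2.trans h.symm), hac⟩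
    · exact ⟨a, b, h1, h2, hab⟩

open Classical in
/-- the pointwise inequality -/
theorem point {V : Type} {r : ℕ} (G : SimpleGraph V) (v : Fin r → V) (i j : V) :
    adj G i j + (if pf G v i ≠ none ∧ pf G v j ≠ none ∧ pf G v i ≠ pf G v j ∧ ¬ G.Adj i j
      then (1 : ℝ) else 0) ≤
    (if pf G v i = none then 1 else 0) + (if pf G v j = none then 1 else 0) +
    (∑ t : Fin r, if G.Adj i j ∧ (∀ s, s ≠ t → G.Adj i (v s)) ∧ (∀ s, s ≠ t → G.Adj j (v s))
      then (1 : ℝ) else 0) +
    ((if pf G v i = none then 0 else 1) * (if pf G v j = none then 0 else 1) -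
      ∑ t : Fin r, (if pf G v i = some t then 1 else 0) * (if pf G v j = some t then 1 else 0)) := by
  have hS : (0 : ℝ) ≤ ∑ t : Fin r, if G.Adj i j ∧ (∀ s, s ≠ t → G.Adj i (v s)) ∧
      (∀ s, s ≠ t → G.Adj j (v s)) then (1 : ℝ) else 0 := by
    refine Finset.sum_nonneg fun t _ => ?_
    split_ifs <;> norm_num
  have ha : adj G i j ≤ 1 := by
    unfold adj
    split_ifs <;> norm_num
  cases hi : pf G v i with
  | none =>
    simp only [ne_eq, not_true_eq_false, false_and, if_false, if_true, reduceCtorEq,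
      zero_mul, Finset.sum_const_zero, sub_zero, add_zero]
    have : (0 : ℝ) ≤ if pf G v j = none then 1 else 0 := by split_ifs <;> norm_num
    linarith
  | some s =>
    cases hj : pf G v j with
    | none =>
      simp only [ne_eq, not_true_eq_false, and_false, false_and, if_false, if_true, reduceCtorEq,
        mul_zero, Finset.sum_const_zero, sub_zero, add_zero]
      linarith
    | some t =>
      by_cases hst : s = t
      · subst hst
        have h1 : (∑ t : Fin r, (if some s = some t then (1 : ℝ) else 0) *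
            (if some s = some t then 1 else 0)) = 1 := by
          rw [Finset.sum_eq_single s]
          · simp
          · intro b _ hb
            rw [if_neg (fun h => hb (Option.some.inj h).symm), zero_mul]
          · intro h
            exact absurd (Finset.mem_univ _) h
        rw [h1]
        simp only [ne_eq, reduceCtorEq, not_false_eq_true, not_true_eq_false, false_and,
          and_false, if_false, add_zero, mul_one, sub_self, zero_add]
        by_cases hadj : G.Adj i j
        · have h2 : (1 : ℝ) ≤ ∑ t : Fin r, if G.Adj i j ∧ (∀ s, s ≠ t → G.Adj i (v s)) ∧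
              (∀ s, s ≠ t → G.Adj j (v s)) then (1 : ℝ) else 0 := by
            have h3 := Finset.single_le_sum (f := fun t : Fin r => if G.Adj i j ∧
              (∀ s, s ≠ t → G.Adj i (v s)) ∧ (∀ s, s ≠ t → G.Adj j (v s)) then (1 : ℝ) else 0)
              (fun t _ => by split_ifs <;> norm_num) (Finset.mem_univ s)
            rw [if_pos ⟨hadj, ((pf_some G v i s).1 hi).1, ((pf_some G v j s).1 hj).1⟩] at h3
            exact h3
          exact ha.trans h2
        · have : adj G i j = 0 := by
            unfold adj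
            rw [if_neg hadj]
          rw [this]
          exact hS
      · have h1 : (∑ u : Fin r, (if some s = some u then (1 : ℝ) else 0) *
            (if some t = some u then 1 else 0)) = 0 := by
          refine Finset.sum_eq_zero fun u _ => ?_
          by_cases hsu : s = u
          · subst hsu
            rw [if_neg (fun h => hst (Option.some.inj h).symm : ¬ some t = some s), mul_zero]
          · rw [if_neg (fun h => hsu (Option.some.inj h)), zero_mul]
        rw [h1]
        have hst' : (some s : Option (Fin r)) ≠ some t := fun h => hst (Option.some.inj h)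
        simp only [ne_eq, reduceCtorEq, not_false_eq_true, true_and, if_false, mul_one, sub_zero,
          zero_add, Option.some.injEq, hst]
        unfold adj
        by_cases hadj : G.Adj i j
        · simp only [hadj, not_true_eq_false, if_false, if_true, add_zero]
          simp only [hadj] at hS
          linarith
        · simp only [hadj, not_false_eq_true, if_false, if_true, zero_add]
          simp only [hadj] at hS
          linarith

theorem sum_sq {r : ℕ} (hr : 0 < r) (b : Fin r → ℝ) (g : ℝ) (hg : ∑ t, b t = g) :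
    ∑ t, b t ^ 2 = g ^ 2 / r + ∑ t, (b t - g / r) ^ 2 := by
  have hr' : (r : ℝ) ≠ 0 := by positivity
  have : ∑ t, (b t - g / r) ^ 2 = ∑ t, b t ^ 2 - 2 * (g / r) * ∑ t, b t + r * (g / r) ^ 2 := by
    rw [Finset.mul_sum, ← Finset.sum_sub_distrib]
    have h2 : (r : ℝ) * (g / r) ^ 2 = ∑ _t : Fin r, (g / r) ^ 2 := by
      rw [Finset.sum_const, Finset.card_univ, Fintype.card_fin, nsmul_eq_mul]
    rw [h2, ← Finset.sum_add_distrib]
    exact Finset.sum_congr rfl fun t _ => by ring
  rw [this, hg]
  field_simp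
  ring

end PRT

theorem prfPRT : CLQ_statement → PRT_statement := by
  classical
  intro hCLQ r eps hr heps
  have hrp : (0 : ℝ) < r := by
    have : 0 < r := by omega
    exact_mod_cast this
  have hr1 : (1 : ℝ) ≤ r := by exact_mod_cast (by omega : 1 ≤ r)
  set d1 : ℝ := min (eps / 4) (eps ^ 2 / 16) with hd1
  have hd10 : 0 < d1 := lt_min (by positivity) (by positivity)
  have hd1a : d1 ≤ eps / 4 := min_le_left _ _
  have hd1b : d1 ≤ eps ^ 2 / 16 := min_le_right _ _
  obtain ⟨e1, he1, eta, heta, hC⟩ := hCLQ r d1 (by omega) hd10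
  refine ⟨min e1 d1, lt_min he1 hd10, eta, heta, ?_⟩
  intro V _ G y hy hsum hq hh'
  obtain ⟨v, hcl, hgg, hii⟩ := hC V G y hy hsum (by
    have := min_le_left e1 d1
    linarith) hh'
  have hq' : 1 - 1 / (r : ℝ) - d1 ≤ qf G y := by
    have := min_le_right e1 d1
    linarith
  set f : V → Option (Fin r) := PRT.pf G v with hf
  set g : ℝ := ∑ i, (if f i = none then (0 : ℝ) else 1) * y i with hg
  have hggg : gg G y v = g := by
    unfold gg
    rw [hg]
    refine Finset.sum_congr rfl fun w _ => ?_
    by_cases h : f w = none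
    · rw [if_pos h, if_neg, zero_mul]
      intro h'
      exact (PRT.pf_none G v w).2 h' h
    · rw [if_neg h, if_pos ((PRT.pf_none G v w).1 h), one_mul]
  have hnone : cw y f none = 1 - g := by
    have h1 : 1 - g = ∑ i, y i - g := by rw [hsum]
    unfold cw
    rw [h1, hg, ← Finset.sum_sub_distrib]
    refine Finset.sum_congr rfl fun w _ => ?_
    by_cases h : f w = none
    · rw [if_pos h, if_pos h]
      ring
    · rw [if_neg h, if_neg h]
      ring
  have hcws : ∀ t, cw y f (some t) = ∑ i, (if f i = some t then (1 : ℝ) else 0) * y i := by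
    intro t
    unfold cw
    refine Finset.sum_congr rfl fun w _ => ?_
    split_ifs <;> ring
  have hsg : ∑ t, cw y f (some t) = g := by
    rw [hg]
    simp only [hcws]
    rw [Finset.sum_comm]
    refine Finset.sum_congr rfl fun w _ => ?_
    rw [← Finset.sum_mul]
    congr 1
    cases hw : f w with
    | none => simp
    | some s => simp
  have hg0 : 0 ≤ g := by
    rw [hg]
    refine Finset.sum_nonneg fun i _ => mul_nonneg ?_ (hy i)
    split_ifs <;> norm_num
  have hg1 : g ≤ 1 := by
    have : 0 ≤ cw y f none := by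
      unfold cw
      refine Finset.sum_nonneg fun i _ => ?_
      split_ifs
      · exact hy i
      · exact le_rfl
    linarith
  -- the main inequality
  have hmain : qf G y + miss G y f ≤ (1 - g) + (1 - g) + ∑ t, ii G y v t +
      (g ^ 2 - ∑ t, cw y f (some t) ^ 2) := by
    have e1 : qf G y + miss G y f = ∑ i, ∑ j, (adj G i j + (if f i ≠ none ∧ f j ≠ none ∧
        f i ≠ f j ∧ ¬ G.Adj i j then (1 : ℝ) else 0)) * (y i * y j) := by
      unfold qf miss
      rw [← Finset.sum_add_distrib]
      refine Finset.sum_congr rfl fun i _ => ?_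
      rw [← Finset.sum_add_distrib]
      refine Finset.sum_congr rfl fun j _ => ?_
      rw [add_mul]
      congr 1
      split_ifs <;> ring
    have e2 : 1 - g = ∑ i, ∑ j, (if f i = none then (1 : ℝ) else 0) * (y i * y j) := by
      rw [← hnone]
      unfold cw
      refine Finset.sum_congr rfl fun i _ => ?_
      rw [← Finset.mul_sum, ← Finset.mul_sum, hsum]
      split_ifs <;> ring
    have e3 : 1 - g = ∑ i, ∑ j, (if f j = none then (1 : ℝ) else 0) * (y i * y j) := by
      rw [Finset.sum_comm, e2]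
      refine Finset.sum_congr rfl fun i _ => Finset.sum_congr rfl fun j _ => ?_
      ring
    have e4 : ∑ t, ii G y v t = ∑ i, ∑ j, (∑ t : Fin r, if G.Adj i j ∧
        (∀ s, s ≠ t → G.Adj i (v s)) ∧ (∀ s, s ≠ t → G.Adj j (v s))
        then (1 : ℝ) else 0) * (y i * y j) := by
      unfold ii
      rw [Finset.sum_comm]
      refine Finset.sum_congr rfl fun i _ => ?_
      rw [Finset.sum_comm]
      refine Finset.sum_congr rfl fun j _ => ?_
      rw [Finset.sum_mul]
      refine Finset.sum_congr rfl fun t _ => ?_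
      split_ifs <;> ring
    have e5 : g ^ 2 = ∑ i, ∑ j, ((if f i = none then (0 : ℝ) else 1) *
        (if f j = none then 0 else 1)) * (y i * y j) := by
      rw [hg, sq, Finset.sum_mul_sum]
      refine Finset.sum_congr rfl fun i _ => Finset.sum_congr rfl fun j _ => ?_
      ring
    have e6 : ∑ t, cw y f (some t) ^ 2 = ∑ i, ∑ j, (∑ t : Fin r,
        (if f i = some t then (1 : ℝ) else 0) * (if f j = some t then 1 else 0)) *
          (y i * y j) := by
      have h1 : ∀ t, cw y f (some t) ^ 2 = ∑ i, ∑ j,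
          ((if f i = some t then (1 : ℝ) else 0) * (if f j = some t then 1 else 0)) *
          (y i * y j) := by
        intro t
        rw [hcws, sq, Finset.sum_mul_sum]
        refine Finset.sum_congr rfl fun i _ => Finset.sum_congr rfl fun j _ => ?_
        ring
      simp only [h1]
      rw [Finset.sum_comm]
      refine Finset.sum_congr rfl fun i _ => ?_
      rw [Finset.sum_comm]
      refine Finset.sum_congr rfl fun j _ => ?_
      rw [Finset.sum_mul]
    rw [e1, e4, e5, e6]
    nth_rewrite 1 [e2]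
    nth_rewrite 1 [e3]
    rw [← Finset.sum_sub_distrib, ← Finset.sum_add_distrib, ← Finset.sum_add_distrib,
      ← Finset.sum_add_distrib]
    refine Finset.sum_le_sum fun i _ => ?_
    rw [← Finset.sum_sub_distrib, ← Finset.sum_add_distrib, ← Finset.sum_add_distrib,
      ← Finset.sum_add_distrib]
    refine Finset.sum_le_sum fun j _ => ?_
    rw [← sub_mul, ← add_mul, ← add_mul, ← add_mul]
    refine mul_le_mul_of_nonneg_right ?_ (mul_nonneg (hy i) (hy j))
    exact PRT.point G v i j
  have hsq := PRT.sum_sq (by omega) (fun t => cw y f (some t)) g hsg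
  have hvar : miss G y f + ∑ t, (cw y f (some t) - g / r) ^ 2 ≤ 4 * d1 := by
    have h1 : g ^ 2 - g ^ 2 / r ≤ 1 - 1 / r := by
      have h2 : g ^ 2 ≤ 1 := by nlinarith
      have h3 : g ^ 2 - g ^ 2 / r = g ^ 2 * (1 - 1 / r) := by ring
      have h4 : (0 : ℝ) ≤ 1 - 1 / r := by
        rw [sub_nonneg, div_le_one hrp]
        exact hr1
      rw [h3]
      nlinarith
    rw [hggg] at hgg
    linarith
  have hmiss0 : 0 ≤ miss G y f := by
    unfold miss
    refine Finset.sum_nonneg fun i _ => Finset.sum_nonneg fun j _ => ?_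
    split_ifs
    · exact mul_nonneg (hy i) (hy j)
    · exact le_rfl
  refine ⟨f, ?_, ?_, ?_, ?_⟩
  · intro i hi
    obtain ⟨t, ht⟩ := (PRT.pf_none G v i).1 hi
    obtain ⟨a, b, ha, hb, hab⟩ := PRT.three hr t
    exact ⟨v a, v b, ht.1 a ha, ht.1 b hb, hcl a b hab⟩
  · intro t
    have h1 : (cw y f (some t) - g / r) ^ 2 ≤ 4 * d1 := by
      have h2 := Finset.single_le_sum (f := fun t : Fin r => (cw y f (some t) - g / r) ^ 2)
        (fun t _ => sq_nonneg _) (Finset.mem_univ t)
      linarith
    have h3 : |cw y f (some t) - g / r| ≤ eps / 2 := by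
      apply abs_le_of_sq_le_sq _ (by positivity)
      nlinarith
    have h4 : |g / r - 1 / r| ≤ eps / 4 := by
      rw [← sub_div, abs_div, abs_of_pos hrp, abs_sub_comm, abs_of_nonneg (by linarith),
        div_le_iff₀ hrp]
      rw [hggg] at hgg
      nlinarith
    calc |cw y f (some t) - 1 / (r : ℝ)| = |(cw y f (some t) - g / r) + (g / r - 1 / r)| := by
          congr 1
          ring
      _ ≤ |cw y f (some t) - g / r| + |g / r - 1 / r| := abs_add_le _ _
      _ ≤ eps := by linarith
  · rw [hnone]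
    rw [hggg] at hgg
    linarith
  · have : 0 ≤ ∑ t, (cw y f (some t) - g / r) ^ 2 := Finset.sum_nonneg fun t _ => sq_nonneg _
    linarith

end MP0c3a8f

end

section

/-!
# MP_0c3a8f_co, item RED: reduction of the size of the parts (helper18)
-/

open Finset

namespace MP0c3a8f

namespace IRED

theorem card_ends {V : Type} [Fintype V] (E : Set (Sym2 V)) :
    {v : V | ∃ e ∈ E, v ∈ e}.ncard ≤ 2 * E.ncard := by
  classical
  have hfin : E.Finite := Set.toFinite E
  have hsub : {v : V | ∃ e ∈ E, v ∈ e} = ((hfin.toFinset.biUnion fun e => e.toFinset : Finset V) : Set V) := by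
    ext v
    simp only [Finset.mem_coe, Finset.mem_biUnion, Set.Finite.mem_toFinset, Sym2.mem_toFinset,
      Set.mem_ofPred_eq]
  rw [hsub, Set.ncard_coe_finset, Set.ncard_eq_toFinset_card E hfin, mul_comm]
  apply Finset.card_biUnion_le_card_mul
  intro e _
  rw [Sym2.card_toFinset]
  split_ifs <;> omega

/-- special vertices -/
def Sp {V : Type} {r : ℕ} (G : SimpleGraph V) (g : V → Option (Fin r)) : Set V :=
  {v | g v ≠ none ∧ ((∃ w, g w ≠ none ∧ g v ≠ g w ∧ ¬ G.Adj v w) ∨ ∃ u, g u = none ∧ G.Adj v u)}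

theorem card_Sp {V : Type} [Fintype V] {r : ℕ} (G : SimpleGraph V) (g : V → Option (Fin r)) :
    (Sp G g).ncard ≤ 2 * ((missSet G g).ncard + (outSet G g).ncard) := by
  have h1 : Sp G g ⊆ {v : V | ∃ e ∈ missSet G g ∪ outSet G g, v ∈ e} := by
    rintro v ⟨hv, ⟨w, hw, hne, hadj⟩ | ⟨u, hu, hadj⟩⟩
    · exact ⟨s(v, w), Or.inl ⟨v, w, rfl, hv, hw, hne, hadj⟩, Sym2.mem_mk_left _ _⟩
    · exact ⟨s(v, u), Or.inr ⟨hadj, u, Sym2.mem_mk_right _ _, hu⟩, Sym2.mem_mk_left _ _⟩
  calc (Sp G g).ncard ≤ {v : V | ∃ e ∈ missSet G g ∪ outSet G g, v ∈ e}.ncard :=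
        Set.ncard_le_ncard h1 (Set.toFinite _)
    _ ≤ 2 * (missSet G g ∪ outSet G g).ncard := card_ends _
    _ ≤ _ := Nat.mul_le_mul_left 2 (Set.ncard_union_le _ _)

theorem choose_parts {V : Type} [Fintype V] (P Q : Set V) (s : ℕ) (hQ : Q.ncard < s)
    (hP : s ≤ P.ncard) : ∃ P' : Set V, Q ∩ P ⊆ P' ∧ P' ⊆ P ∧ P'.ncard = s ∧ ∃ q ∈ P', q ∉ Q := by
  classical
  have h1 : ((Q ∩ P).toFinset).card ≤ s := by
    rw [← Set.ncard_eq_toFinset_card']
    exact (Set.ncard_le_ncard Set.inter_subset_left (Set.toFinite _)).trans hQ.le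
  have h2 : s ≤ (P.toFinset).card := by
    rw [← Set.ncard_eq_toFinset_card']
    exact hP
  have h3 : (Q ∩ P).toFinset ⊆ P.toFinset := Set.toFinset_mono Set.inter_subset_right
  obtain ⟨U, hU1, hU2, hU3⟩ := Finset.exists_subsuperset_card_eq h3 h1 h2
  refine ⟨U, ?_, ?_, ?_, ?_⟩
  · intro v hv
    exact hU1 (Set.mem_toFinset.2 hv)
  · intro v hv
    exact Set.mem_toFinset.1 (hU2 hv)
  · rw [Set.ncard_coe_finset, hU3]
  · by_contra hcon
    push Not at hcon
    have h4 : (U : Set V) ⊆ Q := fun v hv => hcon v hv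
    have h5 := Set.ncard_le_ncard h4 (Set.toFinite _)
    rw [Set.ncard_coe_finset, hU3] at h5
    omega

end IRED

open IRED in
theorem prfRED : RED_statement := by
  classical
  intro W _ F r s V _ G g hr hind hs hsize hfree hcol hiso
  have hSp : (Sp G g).ncard < s := by
    have := card_Sp G g
    omega
  choose P' hP1 hP2 hP3 q hq1 hq2 using fun t : Fin r =>
    choose_parts {i | g i = some t} (Sp G g) s hSp (hsize t)
  have hgq : ∀ t, g (q t) = some t := fun t => hP2 t (hq1 t)
  -- adjacency of the normal vertices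
  have hqadj : ∀ t v, g v ≠ none → g v ≠ some t → G.Adj (q t) v := by
    intro t v hv hvt
    by_contra hadj
    apply hq2 t
    refine ⟨by rw [hgq t]; simp, Or.inl ⟨v, hv, ?_, hadj⟩⟩
    rw [hgq t]
    exact fun h => hvt h.symm
  set S : Set V := {v | g v = none ∨ ∃ t, g v = some t ∧ v ∈ P' t} with hS
  have hSpS : ∀ v, v ∈ Sp G g → v ∈ S := by
    intro v hv
    obtain ⟨t, ht⟩ := Option.ne_none_iff_exists'.1 hv.1
    exact Or.inr ⟨t, ht, hP1 t ⟨hv, ht⟩⟩
  have hqS : ∀ t, q t ∈ S := fun t => Or.inr ⟨t, hgq t, hq1 t⟩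
  have hout : ∀ v w, G.Adj v w → g w = none → v ∈ S := by
    intro v w hvw hw
    by_cases hv : g v = none
    · exact Or.inl hv
    · exact hSpS v ⟨hv, Or.inr ⟨w, hw, hvw⟩⟩
  set k := Fintype.card S with hk
  let e : S ≃ Fin k := Fintype.equivFin S
  set emb : Fin k → V := fun i => (e.symm i : V) with hemb
  have hinj : Function.Injective emb := fun i j h => e.symm.injective (Subtype.ext h)
  have hmem : ∀ i, emb i ∈ S := fun i => (e.symm i).2
  have hsurj : ∀ v ∈ S, ∃ i, emb i = v := fun v hv => ⟨e ⟨v, hv⟩, by simp [hemb]⟩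
  refine ⟨k, G.comap emb, g ∘ emb, ⟨?_, ?_, ?_, ?_⟩, ?_, ?_, ?_⟩
  · intro t
    have h1 : emb '' {i | (g ∘ emb) i = some t} = P' t := by
      ext v
      constructor
      · rintro ⟨i, hi, rfl⟩
        have hi' : g (emb i) = some t := hi
        rcases hmem i with h | ⟨t', ht', hP⟩
        · rw [h] at hi'
          simp at hi'
        · rw [hi'] at ht'
          obtain rfl : t = t' := Option.some_injective _ ht'
          exact hP
      · intro hv
        have hgv : g v = some t := hP2 t hv
        obtain ⟨i, rfl⟩ := hsurj v (Or.inr ⟨t, hgv, hv⟩)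
        exact ⟨i, hgv, rfl⟩
    rw [← Set.ncard_image_of_injective _ hinj, h1, hP3]
  · intro i j hi hij
    exact hind (emb i) (emb j) hi hij
  · rw [← Set.ncard_image_of_injective (missSet (G.comap emb) (g ∘ emb)) (Sym2.map.injective hinj)]
    congr 1
    ext z
    constructor
    · rintro ⟨_, ⟨i, j, rfl, hi, hj, hne, hadj⟩, rfl⟩
      exact ⟨emb i, emb j, rfl, hi, hj, hne, hadj⟩
    · rintro ⟨v, w, rfl, hv, hw, hne, hadj⟩
      obtain ⟨i, rfl⟩ := hsurj v (hSpS v ⟨hv, Or.inl ⟨w, hw, hne, hadj⟩⟩)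
      obtain ⟨j, rfl⟩ := hsurj w (hSpS w ⟨hw, Or.inl ⟨emb i, hv, hne.symm, fun h => hadj h.symm⟩⟩)
      exact ⟨s(i, j), ⟨i, j, rfl, hv, hw, hne, hadj⟩, rfl⟩
  · rw [← Set.ncard_image_of_injective (outSet (G.comap emb) (g ∘ emb)) (Sym2.map.injective hinj)]
    congr 1
    ext z
    constructor
    · rintro ⟨y, ⟨hy, u, hu, hgu⟩, rfl⟩
      induction y using Sym2.ind with
      | _ i j =>
      refine ⟨hy, emb u, ?_, hgu⟩
      exact Sym2.mem_map.2 ⟨u, hu, rfl⟩
    · induction z using Sym2.ind with
      | _ v w =>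
      rintro ⟨hvw, u, hu, hgu⟩
      have hadj : G.Adj v w := hvw
      have hvw' : v ∈ S ∧ w ∈ S := by
        rcases Sym2.mem_iff.1 hu with rfl | rfl
        · exact ⟨Or.inl hgu, hout w u hadj.symm hgu⟩
        · exact ⟨hout v u hadj hgu, Or.inl hgu⟩
      obtain ⟨i, rfl⟩ := hsurj v hvw'.1
      obtain ⟨j, rfl⟩ := hsurj w hvw'.2
      refine ⟨s(i, j), ⟨hadj, ?_⟩, rfl⟩
      rcases Sym2.mem_iff.1 hu with h | h
      · exact ⟨i, Sym2.mem_mk_left _ _, by rw [h] at hgu; exact hgu⟩
      · exact ⟨j, Sym2.mem_mk_right _ _, by rw [h] at hgu; exact hgu⟩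
  · intro hF
    apply hfree
    exact hF.trans ⟨(SimpleGraph.Embedding.comap ⟨emb, hinj⟩ G).toCopy⟩
  · rintro ⟨c⟩
    apply hcol
    -- colours on S
    have hC : ∃ C : V → Fin r, ∀ v ∈ S, ∀ w ∈ S, G.Adj v w → C v ≠ C w := by
      have hr0 : 0 < r := by omega
      refine ⟨fun v => if h : v ∈ S then c (e ⟨v, h⟩) else ⟨0, hr0⟩, ?_⟩
      intro v hv w hw hvw
      simp only [hv, hw, dif_pos]
      apply c.valid
      show G.Adj (emb (e ⟨v, hv⟩)) (emb (e ⟨w, hw⟩))
      simpa [hemb] using hvw
    obtain ⟨C, hC⟩ := hC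
    have hCq : Function.Injective fun t => C (q t) := by
      intro t t' htt
      by_contra hne
      apply hC (q t) (hqS t) (q t') (hqS t') _ htt
      apply hqadj t (q t')
      · rw [hgq]; simp
      · rw [hgq]
        intro h
        exact hne (Option.some_injective _ h).symm
    have hCs : Function.Surjective fun t => C (q t) := Finite.surjective_of_injective hCq
    have hCv : ∀ v ∈ S, ∀ t, g v = some t → C v = C (q t) := by
      intro v hv t ht
      obtain ⟨t', ht'⟩ := hCs (C v)
      have ht'' : C (q t') = C v := ht'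
      by_cases h : t' = t
      · rw [← ht'', h]
      · exfalso
        apply hC (q t') (hqS t') v hv _ ht''
        apply hqadj t' v
        · rw [ht]; simp
        · rw [ht]
          intro h'
          exact h (Option.some_injective _ h').symm
    refine ⟨SimpleGraph.Coloring.mk (fun v => match g v with
      | some t => C (q t)
      | none => C v) ?_⟩
    intro v w hvw
    rcases hv : g v with _ | t <;> rcases hw : g w with _ | t'
    · exact hC v (Or.inl hv) w (Or.inl hw) hvw
    · have hwS := hout w v hvw.symm hv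
      show C v ≠ C (q t')
      rw [← hCv w hwS t' hw]
      exact hC v (Or.inl hv) w hwS hvw
    · have hvS := hout v w hvw hw
      show C (q t) ≠ C w
      rw [← hCv v hvS t hv]
      exact hC v hvS w (Or.inl hw) hvw
    · show C (q t) ≠ C (q t')
      intro h
      have htt : t = t' := hCq h
      exact hind v w (by rw [hv]; simp) (by rw [hv, hw, htt]) hvw
  · intro i
    by_cases hi : g (emb i) = none
    · obtain ⟨w, hw⟩ := hiso (emb i)
      obtain ⟨j, rfl⟩ := hsurj w (hout w (emb i) hw.symm hi)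
      exact ⟨j, hw⟩
    · obtain ⟨t, ht⟩ := Option.ne_none_iff_exists'.1 hi
      have hne : ∃ t' : Fin r, t' ≠ t := by
        have : Nontrivial (Fin r) := Fin.nontrivial_iff_two_le.2 (by omega)
        exact exists_ne t
      obtain ⟨t', ht'⟩ := hne
      obtain ⟨j, hj⟩ := hsurj (q t') (hqS t')
      refine ⟨j, ?_⟩
      show G.Adj (emb i) (emb j)
      rw [hj]
      exact (hqadj t' (emb i) hi (by rw [ht]; intro h; exact ht' (Option.some_injective _ h).symm)).symm

end MP0c3a8f

end
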