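import Pool.Agent.Work.MP_0c3a8f_co.Stmts
import Pool.Agent.Work.MP_0c3a8f_co.Ext.Stmts
import Pool.Agent.Work.MP_0c3a8f_co.Bd.B02
import Pool.Agent.Work.MP_0c3a8f_co.PB.Stmts
import Pool.Agent.Work.MP_0c3a8f_co.PB.Stmts2

/-! Bundle of small proof modules (one section per former module). -/

section

/-!
# MP_0c3a8f_co, item STB (helper43)
-/

open Finset

namespace MP0c3a8f

namespace STB

theorem three {r : ℕ} (hr : 3 ≤ r) (t : Fin r) : ∃ a b : Fin r, a ≠ t ∧ b ≠ t ∧ a ≠ b := by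
  have h : 2 < Fintype.card (Fin r) := by rw [Fintype.card_fin]; omega
  obtain ⟨a, b, c, hab, hac, hbc⟩ := Fintype.two_lt_card_iff.1 h
  by_cases h1 : a = t
  · exact ⟨b, c, fun h => hab (h1.trans h.symm), fun h => hac (h1.trans h.symm), hbc⟩
  · by_cases h2 : b = t
    · exact ⟨a, c, h1, fun h => hbc (h2.trans h.symm), hac⟩
    · exact ⟨a, b, h1, h2, hab⟩

theorem tri {V : Type} {G : SimpleGraph V} {x : V → ℝ} {K : ℝ} {m : ℕ} (hK : 1 ≤ K)
    (hm : 0 < m) (hx : ∀ i, 0 ≤ x i) {i j k : V} (h1 : (mid G x K m).Adj i j)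
    (h2 : (mid G x K m).Adj i k) (h3 : (mid G x K m).Adj j k) :
    x i ^ 2 ≤ K ^ 3 / Real.sqrt m := by
  have hs : 0 < Real.sqrt m := Real.sqrt_pos.2 (by exact_mod_cast hm)
  have hK0 : 0 < K := by linarith
  set s := Real.sqrt m with hsd
  have a1 : x i * x j ≤ K / s := h1.2.2
  have a2 : x i * x k ≤ K / s := h2.2.2
  have a3 : 1 / (K * s) ≤ x j * x k := h3.2.1
  have b1 : (x i * x j) * (x i * x k) ≤ (K / s) * (K / s) :=
    mul_le_mul a1 a2 (mul_nonneg (hx i) (hx k)) (by positivity)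
  have b2 : x i ^ 2 * (1 / (K * s)) ≤ x i ^ 2 * (x j * x k) :=
    mul_le_mul_of_nonneg_left a3 (sq_nonneg _)
  have b3 : x i ^ 2 * (1 / (K * s)) ≤ (K / s) * (K / s) := by
    calc _ ≤ x i ^ 2 * (x j * x k) := b2
      _ = (x i * x j) * (x i * x k) := by ring
      _ ≤ _ := b1
  have b4 : x i ^ 2 * (1 / (K * s)) * (K * s) ≤ (K / s) * (K / s) * (K * s) :=
    mul_le_mul_of_nonneg_right b3 (by positivity)
  have b5 : x i ^ 2 * (1 / (K * s)) * (K * s) = x i ^ 2 := by field_simp
  have b6 : (K / s) * (K / s) * (K * s) = K ^ 3 / s := by field_simp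
  rw [b5, b6] at b4
  exact b4

end STB

theorem prfSTB : G3_statement → BU_statement → PRT_statement → STB_statement := by
  classical
  intro hG3 hBU hPRT W _ F r eps hr hcol heps
  obtain ⟨eps1, heps1, eta, heta, hP⟩ := hPRT r eps hr heps
  obtain ⟨K, hK, eps0, heps0, hG⟩ := hG3 r eps1 hr heps1
  obtain ⟨de, hde, hB⟩ := hBU (Fintype.card W) (r + 1) eta heta
  have hK0 : (0 : ℝ) < K := by linarith
  have hmin : 0 < min de eps := lt_min hde heps
  refine ⟨eps0, heps0, ⌈(K ^ 3 / min de eps) ^ 2⌉₊ + 1, ?_⟩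
  intro V _ G x l m hfree hD hm hl
  have hmr : (K ^ 3 / min de eps) ^ 2 ≤ m := by
    have h1 := Nat.le_ceil ((K ^ 3 / min de eps) ^ 2)
    have h2 : (⌈(K ^ 3 / min de eps) ^ 2⌉₊ : ℝ) ≤ m := by exact_mod_cast (by omega)
    exact h1.trans h2
  have hs : 0 < Real.sqrt m := Real.sqrt_pos.2 (by exact_mod_cast hD.pos)
  have hKs : K ^ 3 / Real.sqrt m ≤ min de eps := by
    have h1 : K ^ 3 / min de eps ≤ Real.sqrt m := Real.le_sqrt_of_sq_le hmr
    rw [div_le_iff₀ hmin] at h1
    rw [div_le_iff₀ hs]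
    linarith
  set M := mid G x K m with hM
  have htri : ∀ i j k, M.Adj i j → M.Adj i k → M.Adj j k → x i ^ 2 ≤ min de eps :=
    fun i j k h1 h2 h3 => (STB.tri hK hD.pos hD.nonneg h1 h2 h3).trans hKs
  have hqf := hG V G x l m hD hl
  have hy : ∀ i, 0 ≤ x i ^ 2 := fun i => sq_nonneg _
  have hhh : hh M (fun i => x i ^ 2) (r + 1) ≤ eta := by
    by_contra hlt
    rw [not_le] at hlt
    set y' : V → ℝ := fun i => if x i ^ 2 ≤ de then x i ^ 2 else 0 with hy'
    have h1 : ∀ i, 0 ≤ y' i := by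
      intro i
      rw [hy']
      dsimp only
      split_ifs
      · exact hy i
      · exact le_rfl
    have h2 : ∀ i, y' i ≤ x i ^ 2 := by
      intro i
      rw [hy']
      dsimp only
      split_ifs
      · exact le_rfl
      · exact hy i
    have h3 : ∀ i, y' i ≤ de := by
      intro i
      rw [hy']
      dsimp only
      split_ifs with h
      · exact h
      · exact hde.le
    have h4 : ∑ i, y' i ≤ 1 := by
      rw [← hD.unit]
      exact Finset.sum_le_sum fun i _ => h2 i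
    have h5 : eta ≤ ∑ v : Fin (r + 1) → V, if v ∈ {v | cl M v} then ∏ t, y' (v t) else 0 := by
      refine hlt.le.trans (le_of_eq ?_)
      unfold hh
      refine Finset.sum_congr rfl fun v _ => ?_
      by_cases hv : cl M v
      · rw [if_pos hv, if_pos (show v ∈ {v | cl M v} from hv)]
        refine Finset.prod_congr rfl fun t _ => ?_
        obtain ⟨a, b, ha, hb, hab⟩ := STB.three (by omega : 3 ≤ r + 1) t
        have h6 := htri (v t) (v a) (v b) (hv _ _ ha.symm) (hv _ _ hb.symm) (hv _ _ hab)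
        rw [hy']
        dsimp only
        rw [if_pos (h6.trans (min_le_left _ _))]
      · rw [if_neg hv, if_neg (show ¬ v ∈ {v | cl M v} from hv)]
    obtain ⟨e, he1, he2⟩ := hB V y' {v | cl M v} h1 h4 h3 h5
    have hadj : ∀ s t i j, s ≠ t → M.Adj (e s i) (e t j) := by
      intro s t i j hst
      have h6 := he2 (fun u => if u = s then i else j) s t hst
      simp only [if_true, if_neg hst.symm] at h6
      exact h6
    obtain ⟨C⟩ := hcol
    apply hfree
    refine ⟨⟨⟨fun w => e (C w) (Fintype.equivFin W w), ?_⟩, ?_⟩⟩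
    · intro u w huw
      exact (hadj _ _ _ _ (C.valid huw)).1
    · intro u w huw
      change e (C u) (Fintype.equivFin W u) = e (C w) (Fintype.equivFin W w) at huw
      by_cases hc : C u = C w
      · rw [hc] at huw
        exact (Fintype.equivFin W).injective (he1 _ huw)
      · exact absurd huw (hadj _ _ _ _ hc).ne
  obtain ⟨f, hf1, hf2, hf3, hf4⟩ := hP V M (fun i => x i ^ 2) hy hD.unit hqf hhh
  refine ⟨f, ?_, hf2, hf3, ?_⟩
  · intro i hi
    obtain ⟨j, k, h1, h2, h3⟩ := hf1 i hi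
    exact (htri i j k h1 h2 h3).trans (min_le_right _ _)
  · refine le_trans ?_ hf4
    unfold miss
    refine Finset.sum_le_sum fun i _ => Finset.sum_le_sum fun j _ => ?_
    by_cases h : f i ≠ none ∧ f j ≠ none ∧ f i ≠ f j ∧ ¬ G.Adj i j
    · rw [if_pos h, if_pos ⟨h.1, h.2.1, h.2.2.1, fun h' => h.2.2.2 h'.1⟩]
    · rw [if_neg h]
      split_ifs
      · exact mul_nonneg (hy i) (hy j)
      · exact le_rfl

end MP0c3a8f

end

section

open Finset

namespace MP0c3a8f

theorem CLI_tz (r s : ℕ) (hr : 0 < r) (t : Fin r) : tz r (r * s) t = s := by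
  unfold tz
  rw [Nat.mul_div_cancel_left s hr, Nat.mul_mod_right]
  simp

theorem CLI_comm (r n i j : ℕ) : TUMn r n i j = TUMn r n j i := by
  unfold TUMn
  congr 1
  funext p q
  cases p with
  | none => cases q with
    | none => rfl
    | some q => rfl
  | some p => cases q with
    | none => rfl
    | some q =>
      apply propext
      constructor
      · rintro ⟨h1, h2, h3⟩
        exact ⟨h1, fun h => h3 ⟨h.1, h.2⟩, fun h => h2 ⟨h.1, h.2⟩⟩
      · rintro ⟨h1, h2, h3⟩
        exact ⟨h1, fun h => h3 ⟨h.1, h.2⟩, fun h => h2 ⟨h.1, h.2⟩⟩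

theorem prfCLI : WIN_statement → CRT_statement → KCC_statement → TYP_statement →
    LOWS_statement → REDS_statement → CNTS_statement → DEV_statement → TUCn_statement →
    TUMCn_statement → TUPn_statement → TUMPn_statement → SYM_statement → CMP_statement →
    ISO_statement → P_statement → CLI_statement := by
  intro hWin hCrt hKcc hTyp _ hReds hCnts hDev hTuc hTumc hTup hTump hSym hCmp hIso _ r hr
  obtain ⟨hchi, hcc⟩ := hKcc r hr
  obtain ⟨hcrit, hncol, hcol⟩ := hCrt (Fin (r + 1)) ⊤ r hchi hcc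
  have hr0 : (3 : ℝ) ≤ r := by exact_mod_cast hr
  -- the type (1, r)
  have hR1 : Real r (⊤ : SimpleGraph (Fin (r + 1))) 1 r := by
    intro s₀
    have hn : 2 * r ≤ r * (s₀ + 2 * (1 + r) + 1) := by nlinarith
    obtain ⟨⟨f, hf⟩, h1, h2, h3⟩ := hTump r (r * (s₀ + 2 * (1 + r) + 1)) 0 1 hr hn (by omega)
      (by omega)
    obtain ⟨k, H, f', h4, h5, h6, h7⟩ := hReds (Fin (r + 1)) ⊤ r
      (fun _ => s₀ + 2 * (1 + r) + 1) _ (TUMn r (r * (s₀ + 2 * (1 + r) + 1)) 0 1) f hr hf.indep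
      (by intro t; rw [hf.miss, hf.outer]; omega)
      (by intro t; rw [hf.size, CLI_tz r _ (by omega)]) h3 h1 h2
    rw [hf.miss, hf.outer] at h4
    exact ⟨s₀ + 2 * (1 + r) + 1, by omega, k, H, f', ⟨h4.size, h4.indep, h4.miss, h4.outer⟩,
      h5, h6, h7⟩
  -- all types
  have hRb : ∀ a b, Real r (⊤ : SimpleGraph (Fin (r + 1))) a b → r ≤ b := by
    intro a b h
    obtain ⟨s, _, k, G, f, h1, _, h3, _⟩ := h 0
    exact hTyp r s a b (Fin k) G f h1 h3
  have hR0 : ¬ Real r (⊤ : SimpleGraph (Fin (r + 1))) 0 r := by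
    intro h
    obtain ⟨s, hs, k, G, f, h1, h2, h3, h4⟩ := h 1
    have hn : r ≤ r * s := by nlinarith
    obtain ⟨e⟩ := hTuc r (r * s) (fun _ => s) 1 (Fin k) G f hr hn
      (fun t => (CLI_tz r s (by omega) _).symm) ⟨h1.size, h1.indep, h1.miss, h1.outer⟩ h3 h4
    obtain ⟨_, _, _, h5⟩ := hTup r (r * s) hr hn
    exact h5 ((SimpleGraph.free_congr_right e).1 h2)
  obtain ⟨n₁, hn₁⟩ := hWin (Fin (r + 1)) ⊤ r hr hcrit hcol hncol (4 * r) 1 one_pos
  obtain ⟨n₂, hn₂⟩ := hCmp r hr
  refine ⟨n₁ + n₂ + 2 * r, ?_⟩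
  intro n hn
  set m : ℕ := (SimpleGraph.turanGraph n r).edgeSet.ncard + r - 1 with hm
  have hstz : ∑ t, tz r n t = n := by
    exact (hDev r n (fun t => if t = ⟨0, by omega⟩ then n else 0) (by omega) (by simp)).1
  obtain ⟨_, _, hd1, hd2, _, hd3⟩ := hDev r n (tz r n) (by omega) hstz
  unfold Sz at hd3
  rw [hstz] at hd3
  have hd3R : 2 * ((SimpleGraph.turanGraph n r).edgeSet.ncard : ℝ) +
      ∑ t, (tz r n t : ℝ) ^ 2 = (n : ℝ) ^ 2 := by
    have : ((2 * (SimpleGraph.turanGraph n r).edgeSet.ncard + 2 * 0 + ∑ t, tz r n t ^ 2 : ℕ) : ℝ)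
      = ((n ^ 2 + 2 * 0 : ℕ) : ℝ) := by rw [hd3]
    push_cast at this
    linarith
  have hdn : 0 ≤ dev (tz r n) := Finset.sum_nonneg fun t _ => sq_nonneg _
  have hmR : (m : ℝ) = ((SimpleGraph.turanGraph n r).edgeSet.ncard : ℝ) + r - 1 := by
    rw [hm, Nat.cast_sub (by omega)]
    push_cast
    ring
  have hwin : |2 * (m : ℝ) - (1 - 1 / (r : ℝ)) * (n : ℝ) ^ 2| ≤ 4 * (r : ℝ) := by
    have h1 : 2 * (m : ℝ) - (1 - 1 / (r : ℝ)) * (n : ℝ) ^ 2 = 2 * r - 2 - dev (tz r n) := by
      rw [hmR, hd2]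
      have : (1 - 1 / (r : ℝ)) * (n : ℝ) ^ 2 = (n : ℝ) ^ 2 - (n : ℝ) ^ 2 / r := by ring
      rw [this]
      linarith
    rw [h1, abs_le]
    constructor <;> linarith
  obtain ⟨⟨k₀, G₀, hG₀⟩, hmax⟩ := hn₁ n (by omega) m hwin
  -- the graphs TUMn are in the class
  have hIn : ∀ i j : ℕ, i < r → j < r → i ≠ j →
      InN r m (⊤ : SimpleGraph (Fin (r + 1))) (TUMn r n i j) := by
    have h0 : ∀ i j : ℕ, i < j → j < r →
        InN r m (⊤ : SimpleGraph (Fin (r + 1))) (TUMn r n i j) := by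
      intro i j hij hj
      obtain ⟨⟨f, hf⟩, h1, h2, h3⟩ := hTump r n i j hr (by omega) hij hj
      refine ⟨h3, ?_, h2, h1⟩
      have h4 := hCnts r (tz r n) 1 r _ (TUMn r n i j) f hf
      unfold Sz at h4
      rw [hstz] at h4
      omega
    intro i j hi hj hij
    rcases Nat.lt_or_gt_of_ne hij with h | h
    · exact h0 i j h hj
    · rw [CLI_comm]
      exact h0 j i h hi
  -- the maximisers
  have hmain : ∀ (V : Type) [Fintype V] (G : SimpleGraph V),
      IsMaximiser r m (⊤ : SimpleGraph (Fin (r + 1))) G → Nonempty (G ≃g TUMn r n 0 1) := by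
    intro V _ G hG
    obtain ⟨σ, a, b, f, h1, h2, h3, h4, _⟩ := hmax V G hG
    have h5 := h4 (tz r n) 1 r hstz hR1 (by
      unfold Sz
      rw [hstz]
      omega)
    obtain ⟨_, h6, _, h7, h8, _⟩ := hDev r n σ (by omega) h2
    have h9 := hCnts r σ a b V G f h1
    rw [hG.1.size] at h9
    unfold Sz at h9
    rw [h2] at h9
    have h10 := hRb a b h3
    have h11 : r + 1 ≤ a + b := by
      by_contra hlt
      have : a = 0 ∧ b = r := by omega
      obtain ⟨rfl, rfl⟩ := this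
      exact hR0 h3
    -- the deviation
    have h12 : ∑ t, σ t ^ 2 = ∑ t, (tz r n t) ^ 2 ∧ a + b ≤ r + 1 := by
      unfold Phi at h5
      rw [h7, hd2] at h5
      have e1 : ((∑ t, σ t ^ 2 : ℕ) : ℝ) = ∑ t, (σ t : ℝ) ^ 2 := by push_cast; rfl
      have e2 : ((∑ t, tz r n t ^ 2 : ℕ) : ℝ) = ∑ t, (tz r n t : ℝ) ^ 2 := by push_cast; rfl
      rw [← e1, ← e2] at h5
      have h13 : (1 : ℝ) / 3 ≤ 1 - 2 / (r : ℝ) := by
        have : 2 / (r : ℝ) ≤ 2 / 3 := div_le_div_of_nonneg_left (by norm_num) (by norm_num) hr0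
        linarith
      have h14 : ((∑ t, tz r n t ^ 2 : ℕ) : ℝ) ≤ ((∑ t, σ t ^ 2 : ℕ) : ℝ) := by exact_mod_cast h6
      have h15 : (r : ℝ) + 1 ≤ (a : ℝ) + b := by exact_mod_cast h11
      push_cast at h5
      have h16 : (1 - 2 / (r : ℝ)) * (((∑ t, σ t ^ 2 : ℕ) : ℝ) - ((∑ t, tz r n t ^ 2 : ℕ) : ℝ)) ≤
          2 * ((r : ℝ) + 1 - (a + b)) := by
        push_cast
        linarith
      have h17 : 0 ≤ (1 - 2 / (r : ℝ)) *
          (((∑ t, σ t ^ 2 : ℕ) : ℝ) - ((∑ t, tz r n t ^ 2 : ℕ) : ℝ)) :=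
        mul_nonneg (by linarith) (by linarith)
      have h18 : (a : ℝ) + b ≤ r + 1 := by linarith
      have h19 : (1 - 2 / (r : ℝ)) *
          (((∑ t, σ t ^ 2 : ℕ) : ℝ) - ((∑ t, tz r n t ^ 2 : ℕ) : ℝ)) ≤ 0 := by linarith
      have h20 : ((∑ t, σ t ^ 2 : ℕ) : ℝ) ≤ ((∑ t, tz r n t ^ 2 : ℕ) : ℝ) := by
        by_contra hcon
        push Not at hcon
        have : 0 < (1 - 2 / (r : ℝ)) *
          (((∑ t, σ t ^ 2 : ℕ) : ℝ) - ((∑ t, tz r n t ^ 2 : ℕ) : ℝ)) :=
          mul_pos (by linarith) (by linarith)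
        linarith
      have h21 : ∑ t, σ t ^ 2 ≤ ∑ t, tz r n t ^ 2 := by exact_mod_cast h20
      exact ⟨le_antisymm h21 h6, by exact_mod_cast h18⟩
    have hab : a = 1 ∧ b = r := by
      have := h12.1
      omega
    obtain ⟨rfl, rfl⟩ : a = 1 ∧ r = b := ⟨hab.1, hab.2.symm⟩
    obtain ⟨π, hπ⟩ := h8 h12.1
    obtain ⟨i, j, hij, hj, ⟨e⟩⟩ := hTumc r n σ π V G f hr (by omega) hπ h1 hG.1.notPartite
      hG.1.noIso hG.1.free
    have hlam : lam G = lam (TUMn r n i j) := hIso _ _ _ _ ⟨e⟩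
    -- maximality
    have hA : ∀ k, k < r → k ≠ j → k < n % r → i < n % r := by
      intro k hk hkj hkn
      by_contra hcon
      have h13 := hn₂ n (by omega) i j k (by omega) hj hk (by omega) hkj hkn (by omega)
      have h14 := hG.2 _ (TUMn r n k j) (hIn k j hk hj hkj)
      linarith
    have hB : ∀ k, k < r → k ≠ i → k < n % r → j < n % r := by
      intro k hk hki hkn
      by_contra hcon
      have h13 := hn₂ n (by omega) j i k hj (by omega) hk (by omega) hki hkn (by omega)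
      have h14 := hG.2 _ (TUMn r n k i) (hIn k i hk (by omega) hki)
      rw [CLI_comm r n j i] at h13
      linarith
    have hA' : i < n % r ↔ 0 < n % r :=
      ⟨fun h => by omega, fun h => hA 0 (by omega) (by omega) h⟩
    have hB' : j < n % r ↔ 1 < n % r := by
      refine ⟨fun h => by omega, fun h => ?_⟩
      by_cases hi : i = 0
      · exact hB 1 (by omega) (by omega) h
      · exact hB 0 (by omega) (by omega) (by omega)
    obtain ⟨e'⟩ := hSym r n i j 0 1 (by omega) hj (by omega) (by omega) (by omega) (by omega)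
      (by omega) hA' hB'
    exact ⟨e.trans e'⟩
  refine ⟨⟨hIn 0 1 (by omega) (by omega) (by omega), ?_⟩, hmain⟩
  intro U _ H hH
  obtain ⟨e⟩ := hmain _ G₀ hG₀
  rw [← hIso _ _ _ _ ⟨e⟩]
  exact hG₀.2 U H hH

end MP0c3a8f

end

section

open Finset

namespace MP0c3a8f

theorem prfCLSS : GRD_statement → CLSS_statement := by
  classical
  intro hGRD r σ a V _ G f hr hM hcol hiso
  -- colouring of the core
  have hprop : ∀ u v, f u ≠ none → f v ≠ none → G.Adj u v →
      (f u).getD ⟨0, by omega⟩ ≠ (f v).getD ⟨0, by omega⟩ := by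
    intro u v hu hv huv e
    have h1 := hM.indep u v hu
    obtain ⟨x, hx⟩ := Option.ne_none_iff_exists'.1 hu
    obtain ⟨y, hy⟩ := Option.ne_none_iff_exists'.1 hv
    simp only [hx, hy, Option.getD_some] at e
    exact h1 (by rw [hx, hy, e]) huv
  -- neighbourhoods of the outer vertices
  have hsub : ∀ v, f v = none → (fun w => s(v, w)) '' {w | G.Adj v w} ⊆ outSet G f := by
    rintro v hv _ ⟨w, hw, rfl⟩
    exact ⟨hw, v, Sym2.mem_mk_left v w, hv⟩
  have hinj : ∀ v, Set.InjOn (fun w => s(v, w)) {w | G.Adj v w} := by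
    intro v w _ w' _ e
    have h3 : w = w' ∨ v = w' ∧ w = v := by simpa using e
    rcases h3 with h3 | ⟨h3, h4⟩
    · exact h3
    · rw [h4, h3]
  have hcard : ∀ v, ((fun w => s(v, w)) '' {w | G.Adj v w}).ncard = {w | G.Adj v w}.ncard :=
    fun v => (hinj v).ncard_image
  have hle : ∀ v, f v = none → {w | G.Adj v w}.ncard ≤ r := by
    intro v hv
    rw [← hcard v, ← hM.outer]
    exact Set.ncard_le_ncard (hsub v hv) (Set.toFinite _)
  -- the vertex u
  obtain ⟨u, hu, hur⟩ : ∃ u, f u = none ∧ r ≤ {w | G.Adj u w}.ncard := by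
    by_contra hcon
    push Not at hcon
    apply hcol
    refine hGRD r V G {v | f v ≠ none} (fun v => (f v).getD ⟨0, by omega⟩) ?_ ?_
    · intro x y hx hy hxy
      exact hprop x y hx hy hxy
    · intro v hv
      exact hcon v (by
        by_contra h
        exact hv h)
  have hNu : {w | G.Adj u w}.ncard = r := le_antisymm (hle u hu) hur
  have himg : (fun w => s(u, w)) '' {w | G.Adj u w} = outSet G f := by
    refine Set.eq_of_subset_of_ncard_le (hsub u hu) ?_ (Set.toFinite _)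
    rw [hcard u, hNu, hM.outer]
  have hmem : ∀ e ∈ outSet G f, u ∈ e := by
    intro e he
    rw [← himg] at he
    obtain ⟨w, -, rfl⟩ := he
    exact Sym2.mem_mk_left u w
  have hother : ∀ v, v ≠ u → f v = none → ∀ w, G.Adj v w → w = u := by
    intro v hv hfv w hw
    have h1 := hmem _ (hsub v hfv ⟨w, hw, rfl⟩)
    rcases Sym2.mem_iff.1 h1 with h2 | h2
    · exact absurd h2.symm hv
    · exact h2.symm
  -- all colours are used by the neighbours of u
  have hA : ∀ t, ∃ w, G.Adj u w ∧ f w = some t := by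
    by_contra hcon
    push Not at hcon
    obtain ⟨t, ht⟩ := hcon
    apply hcol
    refine hGRD r V G {v | f v ≠ none ∨ v = u}
      (fun v => if v = u then t else (f v).getD ⟨0, by omega⟩) ?_ ?_
    · have key : ∀ w, f w ≠ none → G.Adj u w → t ≠ (f w).getD ⟨0, by omega⟩ := by
        intro w hw huw e
        obtain ⟨y, hy⟩ := Option.ne_none_iff_exists'.1 hw
        rw [hy, Option.getD_some] at e
        exact ht w huw (by rw [hy, e])
      intro x y hx hy hxy
      by_cases hxu : x = u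
      · subst hxu
        have hyx : y ≠ x := hxy.ne.symm
        rw [if_pos rfl, if_neg hyx]
        exact key y (hy.resolve_right hyx) hxy
      · by_cases hyu : y = u
        · subst hyu
          rw [if_pos rfl, if_neg hxu]
          exact (key x (hx.resolve_right hxu) hxy.symm).symm
        · rw [if_neg hxu, if_neg hyu]
          exact hprop x y (hx.resolve_right hxu) (hy.resolve_right hyu) hxy
    · intro v hv
      have hv1 : f v = none := by
        by_contra h
        exact hv (Or.inl h)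
      have hv2 : v ≠ u := fun h => hv (Or.inr h)
      have h1 : {w | G.Adj v w}.ncard ≤ ({u} : Set V).ncard :=
        Set.ncard_le_ncard (fun w hw => hother v hv2 hv1 w hw) (Set.toFinite _)
      rw [Set.ncard_singleton] at h1
      omega
  choose q hq1 hq2 using hA
  have hqinj : Function.Injective q := by
    intro t t' h
    have h1 := hq2 t
    rw [h, hq2 t'] at h1
    exact (Option.some.inj h1).symm
  have hrange : Set.range q = {w | G.Adj u w} := by
    refine Set.eq_of_subset_of_ncard_le ?_ ?_ (Set.toFinite _)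
    · rintro _ ⟨t, rfl⟩
      exact hq1 t
    · rw [hNu, ← Set.image_univ, Set.ncard_image_of_injective _ hqinj, Set.ncard_univ,
        Nat.card_fin]
  refine ⟨u, q, ?_, hq2, ?_⟩
  · intro v
    constructor
    · intro hv
      by_contra hvu
      obtain ⟨w, hw⟩ := hiso v
      have h1 := hother v hvu hv w hw
      rw [h1] at hw
      have h2 : v ∈ Set.range q := by
        rw [hrange]
        exact hw.symm
      obtain ⟨t, rfl⟩ := h2
      rw [hq2 t] at hv
      exact absurd hv (by simp)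
    · rintro rfl
      exact hu
  · intro w
    constructor
    · intro hw
      have h2 : w ∈ Set.range q := by
        rw [hrange]
        exact hw
      obtain ⟨t, rfl⟩ := h2
      exact ⟨t, rfl⟩
    · rintro ⟨t, rfl⟩
      exact hq1 t

end MP0c3a8f

end

section

open Finset

namespace MP0c3a8f

theorem DEV_card (r k : ℕ) (hk : k ≤ r) :
    ∑ t : Fin r, (if t.val < k then 1 else 0) = k := by
  rw [Fin.sum_univ_eq_sum_range (fun i => if i < k then 1 else 0) r, Finset.sum_boole]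
  have : (Finset.range r).filter (fun i => i < k) = Finset.range k := by
    ext i
    simp only [Finset.mem_filter, Finset.mem_range]
    omega
  rw [this, Finset.card_range]
  rfl

theorem DEV_sum (r n : ℕ) (hr : 1 ≤ r) : ∑ t, tz r n t = n := by
  unfold tz
  rw [Finset.sum_add_distrib, DEV_card r (n % r) (Nat.mod_lt _ hr).le, Finset.sum_const,
    Finset.card_univ, Fintype.card_fin, smul_eq_mul]
  exact Nat.div_add_mod n r

theorem DEV_pt (s a : ℕ) : (2 * s + 1) * a ≤ a ^ 2 + s * (s + 1) := by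
  rcases Nat.lt_or_ge s a with h | h
  · obtain ⟨b, rfl⟩ : ∃ b, a = s + 1 + b := ⟨a - (s + 1), by omega⟩
    nlinarith
  · obtain ⟨b, rfl⟩ : ∃ b, s = a + b := ⟨s - a, by omega⟩
    nlinarith [Nat.zero_le (b ^ 2)]

theorem DEV_pt_eq (s a : ℕ) (h : (2 * s + 1) * a = a ^ 2 + s * (s + 1)) :
    a = s ∨ a = s + 1 := by
  rcases Nat.lt_trichotomy a s with h1 | h1 | h1
  · exfalso
    obtain ⟨b, rfl⟩ : ∃ b, s = a + 1 + b := ⟨s - (a + 1), by omega⟩
    nlinarith
  · exact Or.inl h1
  · rcases Nat.lt_or_ge (s + 1) a with h2 | h2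
    · exfalso
      obtain ⟨b, rfl⟩ : ∃ b, a = s + 2 + b := ⟨a - (s + 2), by omega⟩
      nlinarith
    · exact Or.inr (by omega)

theorem DEV_tz (r n : ℕ) (t : Fin r) :
    (2 * (n / r) + 1) * tz r n t = (tz r n t) ^ 2 + n / r * (n / r + 1) := by
  unfold tz
  split_ifs <;> ring

theorem DEV_sq (r n : ℕ) (hr : 1 ≤ r) :
    ∑ t, (tz r n t) ^ 2 + r * (n / r * (n / r + 1)) = (2 * (n / r) + 1) * n := by
  have h1 : (2 * (n / r) + 1) * ∑ t, tz r n t = ∑ t, (2 * (n / r) + 1) * tz r n t :=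
    Finset.mul_sum _ _ _
  rw [DEV_sum r n hr] at h1
  rw [h1, Finset.sum_congr rfl fun t _ => DEV_tz r n t, Finset.sum_add_distrib, Finset.sum_const,
    Finset.card_univ, Fintype.card_fin, smul_eq_mul]

theorem DEV_sq' (r n : ℕ) (σ : Fin r → ℕ) (hσ : ∑ t, σ t = n) :
    (2 * (n / r) + 1) * n ≤ ∑ t, σ t ^ 2 + r * (n / r * (n / r + 1)) := by
  calc (2 * (n / r) + 1) * n = ∑ t, (2 * (n / r) + 1) * σ t := by
        rw [← Finset.mul_sum, hσ]
    _ ≤ ∑ t, (σ t ^ 2 + n / r * (n / r + 1)) := Finset.sum_le_sum fun t _ => DEV_pt _ _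
    _ = _ := by
        rw [Finset.sum_add_distrib, Finset.sum_const, Finset.card_univ, Fintype.card_fin,
          smul_eq_mul]

theorem DEV_sz (r n : ℕ) (hr : 1 ≤ r) :
    Sz (tz r n) 0 0 (SimpleGraph.turanGraph n r).edgeSet.ncard := by
  classical
  unfold Sz
  rw [DEV_sum r n hr]
  have h1 : (SimpleGraph.turanGraph n r).edgeSet.ncard =
      (SimpleGraph.turanGraph n r).edgeFinset.card := by
    rw [← SimpleGraph.coe_edgeFinset, Set.ncard_coe_finset]
  rw [h1, SimpleGraph.card_edgeFinset_turanGraph]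
  have h2 := DEV_sq r n hr
  have hdm := Nat.div_add_mod n r
  set s := n / r with hs
  set k := n % r with hk
  obtain ⟨q, rfl⟩ : ∃ q, r = q + 1 := ⟨r - 1, by omega⟩
  obtain ⟨c, hc⟩ := (Nat.even_mul_succ_self q).two_dvd
  have hX : (n ^ 2 - k ^ 2) * (q + 1 - 1) = 2 * (q + 1) * (c * s ^ 2 + k * s * q) := by
    have e1 : n ^ 2 - k ^ 2 = (q + 1) * s * ((q + 1) * s + 2 * k) := by
      rw [← hdm]
      have : ((q + 1) * s + k) ^ 2 = (q + 1) * s * ((q + 1) * s + 2 * k) + k ^ 2 := by ring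
      rw [this, Nat.add_sub_cancel]
    rw [e1, Nat.add_sub_cancel]
    have e2 : (q + 1) * s * ((q + 1) * s + 2 * k) * q
        = (q + 1) * (q * (q + 1)) * s ^ 2 + 2 * (q + 1) * (k * s * q) := by ring
    rw [e2, hc]
    ring
  rw [hX, Nat.mul_div_cancel_left _ (by positivity : 0 < 2 * (q + 1)), Nat.choose_two_right]
  have h3 := Nat.two_mul_div_two_of_even (Nat.even_mul_pred_self k)
  have h4 : 2 * (c * s ^ 2 + k * s * q + k * (k - 1) / 2) =
      q * (q + 1) * s ^ 2 + 2 * (k * s * q) + k * (k - 1) := by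
    rw [hc]
    calc 2 * (c * s ^ 2 + k * s * q + k * (k - 1) / 2)
        = 2 * c * s ^ 2 + 2 * (k * s * q) + 2 * (k * (k - 1) / 2) := by ring
      _ = _ := by rw [h3]
  have h5 : k * (k - 1) + k = k ^ 2 := by
    rcases Nat.eq_zero_or_pos k with h | h
    · simp [h]
    · obtain ⟨j, hj⟩ : ∃ j, k = j + 1 := ⟨k - 1, by omega⟩
      rw [hj, Nat.add_sub_cancel]
      ring
  rw [h4]
  have h6 : n ^ 2 = ((q + 1) * s + k) ^ 2 := by rw [hdm]
  have h7 : (2 * s + 1) * n = (2 * s + 1) * ((q + 1) * s + k) := by rw [hdm]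
  rw [h7] at h2
  rw [h6]
  nlinarith

theorem prfDEV : DEV_statement := by
  intro r n σ hr hσ
  have hr0 : (0 : ℝ) < r := by
    have : (1 : ℝ) ≤ r := by exact_mod_cast hr
    linarith
  have hsum := DEV_sum r n hr
  have h2 := DEV_sq r n hr
  have h2' := DEV_sq' r n σ hσ
  refine ⟨hsum, by omega, ?_, ?_, ?_, DEV_sz r n hr⟩
  · unfold dev
    have hc : ∑ s, ((tz r n s : ℕ) : ℝ) = n := by exact_mod_cast hsum
    rw [hc]
    have hb : ∀ t : Fin r, ((tz r n t : ℝ) - n / r) ^ 2 ≤ 1 := by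
      intro t
      have hdm : ((r * (n / r) + n % r : ℕ) : ℝ) = n := by
        rw [Nat.div_add_mod]
      push_cast at hdm
      have hm1 : ((n % r : ℕ) : ℝ) < r := by exact_mod_cast Nat.mod_lt n hr
      have hm0 : (0 : ℝ) ≤ ((n % r : ℕ) : ℝ) := by positivity
      have e : (n : ℝ) / r = ((n / r : ℕ) : ℝ) + ((n % r : ℕ) : ℝ) / r := by
        rw [← hdm]
        field_simp
      have hq1 : ((n % r : ℕ) : ℝ) / r < 1 := by
        rw [div_lt_one hr0]
        exact hm1
      have hq0 : 0 ≤ ((n % r : ℕ) : ℝ) / r := by positivity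
      rw [e]
      unfold tz
      split_ifs
      · push_cast
        nlinarith
      · push_cast
        nlinarith
    calc ∑ t, ((tz r n t : ℝ) - n / r) ^ 2 ≤ ∑ _t : Fin r, (1 : ℝ) :=
          Finset.sum_le_sum fun t _ => hb t
      _ = r := by simp
  · unfold dev
    have hc : ∑ s, ((σ s : ℕ) : ℝ) = n := by exact_mod_cast hσ
    rw [hc]
    have e : ∀ t, ((σ t : ℝ) - n / r) ^ 2 =
        (σ t : ℝ) ^ 2 - 2 * (n / r) * (σ t : ℝ) + (n / r : ℝ) ^ 2 := fun t => by ring
    rw [Finset.sum_congr rfl fun t _ => e t, Finset.sum_add_distrib, Finset.sum_sub_distrib,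
      ← Finset.mul_sum, hc, Finset.sum_const, Finset.card_univ, Fintype.card_fin, nsmul_eq_mul]
    field_simp
    ring
  · intro heq
    set s := n / r with hs
    have hall : ∀ t, (2 * s + 1) * σ t = σ t ^ 2 + s * (s + 1) := by
      have h3 : ∑ t, (2 * s + 1) * σ t = ∑ t, (σ t ^ 2 + s * (s + 1)) := by
        rw [← Finset.mul_sum, hσ, Finset.sum_add_distrib, Finset.sum_const, Finset.card_univ,
          Fintype.card_fin, smul_eq_mul, heq]
        exact h2.symm
      intro t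
      exact (Finset.sum_eq_sum_iff_of_le fun i _ => DEV_pt s (σ i)).1 h3 t (Finset.mem_univ _)
    have hval : ∀ t, σ t = s + if σ t = s + 1 then 1 else 0 := by
      intro t
      rcases DEV_pt_eq s (σ t) (hall t) with h | h
      · rw [if_neg (by omega)]
        omega
      · rw [if_pos h]
        exact h
    have hcard : ∑ t, (if σ t = s + 1 then 1 else 0) = n % r := by
      have h3 : ∑ t, σ t = ∑ t, (s + if σ t = s + 1 then 1 else 0) :=
        Finset.sum_congr rfl fun t _ => hval t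
      rw [Finset.sum_add_distrib, Finset.sum_const, Finset.card_univ, Fintype.card_fin,
        smul_eq_mul] at h3
      have hdm : r * s + n % r = n := Nat.div_add_mod n r
      rw [hσ] at h3
      omega
    have hcard2 := DEV_card r (n % r) (Nat.mod_lt _ hr).le
    have hc1 : Fintype.card {t : Fin r // σ t = s + 1} = n % r := by
      rw [Fintype.card_subtype, Finset.card_filter]
      exact hcard
    have hc2 : Fintype.card {t : Fin r // t.val < n % r} = n % r := by
      rw [Fintype.card_subtype, Finset.card_filter]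
      exact hcard2
    let e : {t : Fin r // σ t = s + 1} ≃ {t : Fin r // t.val < n % r} :=
      Fintype.equivOfCardEq (by rw [hc1, hc2])
    refine ⟨e.extendSubtype, fun t => ?_⟩
    unfold tz
    by_cases h : σ t = s + 1
    · have h4 := e.extendSubtype_mem t h
      rw [if_pos h4]
      exact h
    · have h4 := e.extendSubtype_not_mem t h
      rw [if_neg h4]
      have h5 := hval t
      rw [if_neg h] at h5
      exact h5

end MP0c3a8f

end

section

/-!
# MP_0c3a8f_co, extension: the final theorem for `F` not contained in `TUn r n`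
-/

set_option autoImplicit false

open Finset

namespace MP0c3a8f

theorem GEN_tz_mul (r s : ℕ) (hr : 1 ≤ r) (t : Fin r) : tz r (r * s) t = s := by
  unfold tz
  rw [Nat.mul_div_cancel_left s (by omega), Nat.mul_mod_right]
  simp

theorem GEN_exists_sum (r n : ℕ) (hr : 1 ≤ r) : ∃ σ : Fin r → ℕ, ∑ t, σ t = n := by
  refine ⟨fun t => if t = ⟨0, by omega⟩ then n else 0, ?_⟩
  simp

/-- the sums for the Turán graph -/
theorem GEN_tz (hDev : DEV_statement) (r n : ℕ) (hr : 1 ≤ r) :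
    ∑ t, tz r n t = n ∧
    2 * (SimpleGraph.turanGraph n r).edgeSet.ncard + ∑ t, tz r n t ^ 2 = n ^ 2 ∧
    dev (tz r n) = ∑ t, (tz r n t : ℝ) ^ 2 - (n : ℝ) ^ 2 / r ∧ dev (tz r n) ≤ r ∧
    0 ≤ dev (tz r n) := by
  obtain ⟨σ, hσ⟩ := GEN_exists_sum r n hr
  have h1 := (hDev r n σ hr hσ).1
  obtain ⟨_, _, h3, h4, _, h6⟩ := hDev r n (tz r n) hr h1
  refine ⟨h1, ?_, h4, h3, ?_⟩
  · unfold Sz at h6
    rw [h1] at h6
    omega
  · unfold dev
    exact Finset.sum_nonneg fun t _ => sq_nonneg _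

/-- `0, r` is a type -/
theorem GEN_real (hReds : REDS_statement) (hTup : TUPn_statement) {W : Type} [Fintype W]
    (F : SimpleGraph W) (r : ℕ) (hr : 3 ≤ r) (hfree : ∀ n, F.Free (TUn r n)) :
    Real r F 0 r := by
  intro s₀
  obtain ⟨s, hs⟩ : ∃ s, s = s₀ + 2 * r + 1 := ⟨_, rfl⟩
  have hle : r ≤ r * s := Nat.le_mul_of_pos_right r (by omega)
  obtain ⟨⟨f, hf⟩, h2, h3, _⟩ := hTup r (r * s) hr hle
  have := hReds W F r (fun _ => s) _ (TUn r (r * s)) f hr hf.indep
    (by rw [hf.miss, hf.outer]; intro t; omega)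
    (by intro t; rw [hf.size, GEN_tz_mul r s (by omega)]) (hfree _) h2 h3
  rw [hf.miss, hf.outer] at this
  obtain ⟨k, H, g, hg, h4, h5, h6⟩ := this
  exact ⟨s, by omega, k, H, g, ⟨hg.size, hg.indep, hg.miss, hg.outer⟩, h4, h5, h6⟩

/-- comparison of the types -/
theorem GEN_compare (hDev : DEV_statement) (r n : ℕ) (hr : 3 ≤ r) (σ : Fin r → ℕ) (a b : ℕ)
    (hσ : ∑ t, σ t = n)
    (hSz : Sz σ a b ((SimpleGraph.turanGraph n r).edgeSet.ncard + r))
    (hPhi : Phi σ a b ≤ Phi (tz r n) 0 r) :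
    a = 0 ∧ b = r ∧ ∃ π : Equiv.Perm (Fin r), ∀ t, σ t = tz r n (π t) := by
  obtain ⟨h1, h2, h3, h4, _⟩ := GEN_tz hDev r n (by omega)
  obtain ⟨_, g2, _, g4, g5, _⟩ := hDev r n σ (by omega) hσ
  obtain ⟨D, hD⟩ := Nat.exists_eq_add_of_le g2
  unfold Sz at hSz
  rw [hσ] at hSz
  have hb : b + b = 2 * r + 2 * a + D := by omega
  have hD' : (∑ t, (σ t : ℝ) ^ 2) = ∑ t, (tz r n t : ℝ) ^ 2 + D := by
    have : ((∑ t, σ t ^ 2 : ℕ) : ℝ) = ((∑ t, tz r n t ^ 2 + D : ℕ) : ℝ) := by rw [hD]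
    push_cast at this
    exact this
  have hbR : (b : ℝ) + b = 2 * r + 2 * a + D := by exact_mod_cast hb
  have hr' : (3 : ℝ) ≤ r := by exact_mod_cast hr
  have hc : 0 ≤ 1 - 2 / (r : ℝ) := by
    have : 2 / (r : ℝ) ≤ 1 := by
      rw [div_le_one (by linarith)]
      linarith
    linarith
  have hDn : (0 : ℝ) ≤ D := Nat.cast_nonneg D
  have han : (0 : ℝ) ≤ a := Nat.cast_nonneg a
  unfold Phi at hPhi
  rw [g4, h3, hD'] at hPhi
  have hprod : 0 ≤ (1 - 2 / (r : ℝ)) * D := mul_nonneg hc hDn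
  have key : 2 * ((a : ℝ) + b) + (1 - 2 / (r : ℝ)) * D ≤ 2 * (r : ℝ) := by
    push_cast at hPhi
    have e : (1 - 2 / (r : ℝ)) * (∑ t, (tz r n t : ℝ) ^ 2 + D - (n : ℝ) ^ 2 / r)
        = (1 - 2 / (r : ℝ)) * (∑ t, (tz r n t : ℝ) ^ 2 - (n : ℝ) ^ 2 / r)
          + (1 - 2 / (r : ℝ)) * D := by ring
    rw [e] at hPhi
    linarith
  have ha0 : (a : ℝ) = 0 := by linarith
  have hD0 : (D : ℝ) = 0 := by linarith
  have ha : a = 0 := by exact_mod_cast ha0
  have hDz : D = 0 := by exact_mod_cast hD0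
  refine ⟨ha, by omega, g5 ?_⟩
  omega

theorem prfGEN : WIN_statement → CRT_statement → TYP_statement → LOWS_statement →
    REDS_statement → CNTS_statement → DEV_statement → TUCn_statement → TUPn_statement →
    ISO_statement → P_statement → GEN_statement := by
  intro hWin hCrt _ _ hReds hCnts hDev hTuc hTup hIso _
  intro W _ F r hr hχ hc hfree
  obtain ⟨hcrit, hncol, hcol⟩ := hCrt W F r hχ hc
  have hR := GEN_real hReds hTup F r hr hfree
  obtain ⟨n₀, hn₀⟩ := hWin W F r hr hcrit hcol hncol (3 * r) 1 one_pos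
  refine ⟨n₀ + r, ?_⟩
  intro n hn
  obtain ⟨h1, h2, h3, h4, h5⟩ := GEN_tz hDev r n (by omega)
  have hr' : (3 : ℝ) ≤ r := by exact_mod_cast hr
  obtain ⟨⟨f, hf⟩, t2, t3, _⟩ := hTup r n hr (by omega)
  have hwin := hn₀ n (by omega) ((SimpleGraph.turanGraph n r).edgeSet.ncard + r) (by
    have h2R : 2 * ((SimpleGraph.turanGraph n r).edgeSet.ncard : ℝ) + ∑ t, (tz r n t : ℝ) ^ 2
        = (n : ℝ) ^ 2 := by exact_mod_cast h2
    have e : 2 * (((SimpleGraph.turanGraph n r).edgeSet.ncard + r : ℕ) : ℝ)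
        - (1 - 1 / (r : ℝ)) * (n : ℝ) ^ 2 = 2 * r - dev (tz r n) := by
      rw [h3]
      push_cast
      have : (1 - 1 / (r : ℝ)) * (n : ℝ) ^ 2 = (n : ℝ) ^ 2 - (n : ℝ) ^ 2 / r := by ring
      rw [this, ← h2R]
      ring
    rw [e, abs_le]
    constructor <;> linarith)
  obtain ⟨⟨k, G₀, hG₀⟩, hall⟩ := hwin
  have hSz : Sz (tz r n) 0 r ((SimpleGraph.turanGraph n r).edgeSet.ncard + r) := by
    unfold Sz
    rw [h1]
    omega
  have hiso : ∀ (V : Type) [Fintype V] (G : SimpleGraph V),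
      IsMaximiser r ((SimpleGraph.turanGraph n r).edgeSet.ncard + r) F G →
      Nonempty (G ≃g TUn r n) := by
    intro V _ G hG
    obtain ⟨σ, a, b, g, hg, hσ, _, hmin, _⟩ := hall V G hG
    have hsz := hCnts r σ a b V G g hg
    rw [hG.1.size] at hsz
    obtain ⟨ha, hb, π, hπ⟩ := GEN_compare hDev r n hr σ a b hσ hsz (hmin _ 0 r h1 hR hSz)
    subst ha
    subst hb
    exact hTuc b n σ π V G g hr (by omega) hπ hg hG.1.notPartite hG.1.noIso
  refine ⟨⟨⟨hfree n, ?_, t3, t2⟩, ?_⟩, hiso⟩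
  · have := hCnts r _ 0 r _ (TUn r n) f hf
    unfold Sz at this
    rw [h1] at this
    omega
  · intro U _ H hH
    rw [← hIso _ _ G₀ (TUn r n) (hiso _ G₀ hG₀)]
    exact hG₀.2 U H hH

end MP0c3a8f

end

section

/-!
# MP_0c3a8f_co, extension to all Turán graphs: KAP
-/

open Finset

namespace MP0c3a8f

theorem KAP_term {h d μ L : ℝ} (hL : L = μ + h) (hLp : 0 < L) (hLd : 0 < L + d) :
    (h + d) / (μ + (h + d)) = h / L + μ / L ^ 2 * d - μ / L ^ 2 * (d ^ 2 / (L + d)) := by
  have h1 : μ + (h + d) = L + d := by rw [hL]; ring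
  have h2 : μ = L - h := by rw [hL]; ring
  rw [h1, h2]
  field_simp
  ring

theorem KAP_sums {r : ℕ} (hr : 3 ≤ r) (σ : Fin r → ℕ) {μ n h L q : ℝ} (hn : n = ∑ t, (σ t : ℝ))
    (hh : h = n / r) (hL : L = μ + h) (hμ : 0 < μ) (hq : ∀ t, |(σ t : ℝ) - h| ≤ q) (hqL : q < L) :
    n / L - μ / L ^ 2 * (dev σ / (L - q)) ≤ ∑ t, (σ t : ℝ) / (μ + σ t) ∧
    ∑ t, (σ t : ℝ) / (μ + σ t) ≤ n / L - μ / L ^ 2 * (dev σ / (L + q)) := by
  have hr0 : (0 : ℝ) < r := by
    have : 0 < r := by omega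
    exact_mod_cast this
  have hq0 : 0 ≤ q := le_trans (abs_nonneg _) (hq ⟨0, by omega⟩)
  have hLp : 0 < L := lt_of_le_of_lt hq0 hqL
  have hd0 : ∑ t, ((σ t : ℝ) - h) = 0 := by
    rw [Finset.sum_sub_distrib, Finset.sum_const, Finset.card_univ, Fintype.card_fin, nsmul_eq_mul,
      ← hn, hh]
    field_simp
    ring
  have hdev : dev σ = ∑ t, ((σ t : ℝ) - h) ^ 2 := by
    unfold dev
    rw [← hn, ← hh]
  have hsumh : ∑ _t : Fin r, h / L = n / L := by
    rw [Finset.sum_const, Finset.card_univ, Fintype.card_fin, nsmul_eq_mul, hh]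
    field_simp
  have hterm : ∀ t, (σ t : ℝ) / (μ + σ t) = h / L + μ / L ^ 2 * ((σ t : ℝ) - h) -
      μ / L ^ 2 * (((σ t : ℝ) - h) ^ 2 / (L + ((σ t : ℝ) - h))) := by
    intro t
    have h3 := (abs_le.1 (hq t)).1
    have h4 := KAP_term (h := h) (d := (σ t : ℝ) - h) hL hLp (by linarith)
    rw [← h4]
    congr 1 <;> ring
  have hc : 0 ≤ μ / L ^ 2 := by positivity
  constructor
  · have h5 : ∑ t : Fin r, (h / L + μ / L ^ 2 * ((σ t : ℝ) - h) -
        μ / L ^ 2 * (((σ t : ℝ) - h) ^ 2 / (L - q))) = n / L - μ / L ^ 2 * (dev σ / (L - q)) := by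
      rw [Finset.sum_sub_distrib, Finset.sum_add_distrib, hsumh, ← Finset.mul_sum, hd0,
        ← Finset.mul_sum, ← Finset.sum_div, ← hdev]
      ring
    rw [← h5]
    refine Finset.sum_le_sum fun t _ => ?_
    rw [hterm t]
    have h3 := (abs_le.1 (hq t)).1
    have h6 : ((σ t : ℝ) - h) ^ 2 / (L + ((σ t : ℝ) - h)) ≤ ((σ t : ℝ) - h) ^ 2 / (L - q) :=
      div_le_div_of_nonneg_left (sq_nonneg _) (by linarith) (by linarith)
    have h7 := mul_le_mul_of_nonneg_left h6 hc
    linarith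
  · have h5 : ∑ t : Fin r, (h / L + μ / L ^ 2 * ((σ t : ℝ) - h) -
        μ / L ^ 2 * (((σ t : ℝ) - h) ^ 2 / (L + q))) = n / L - μ / L ^ 2 * (dev σ / (L + q)) := by
      rw [Finset.sum_sub_distrib, Finset.sum_add_distrib, hsumh, ← Finset.mul_sum, hd0,
        ← Finset.mul_sum, ← Finset.sum_div, ← hdev]
      ring
    rw [← h5]
    refine Finset.sum_le_sum fun t _ => ?_
    rw [hterm t]
    have h3 := (abs_le.1 (hq t)).1
    have h4 := (abs_le.1 (hq t)).2
    have h6 : ((σ t : ℝ) - h) ^ 2 / (L + q) ≤ ((σ t : ℝ) - h) ^ 2 / (L + ((σ t : ℝ) - h)) :=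
      div_le_div_of_nonneg_left (sq_nonneg _) (by linarith) (by linarith)
    have h7 := mul_le_mul_of_nonneg_left h6 hc
    linarith

theorem KAP_sq {β n S D η c ε : ℝ} (hβ0 : 0 ≤ β) (hβ1 : β ≤ 1) (hn1 : 1 ≤ n)
    (hη0 : 0 ≤ η) (hη8 : η ≤ ε / 8) (hnε : 2 * (D + 1) ^ 2 ≤ n * ε)
    (hc : c = η ∨ c = - η) (hcS : |β * S + c| ≤ D + 1) (hε : 0 < ε) :
    |(β * n - (β * S + c) / n) ^ 2 - (β ^ 2 * n ^ 2 - 2 * β ^ 2 * S)| ≤ ε := by
  have hn0 : 0 < n := by linarith
  have h1 : (β * n - (β * S + c) / n) ^ 2 - (β ^ 2 * n ^ 2 - 2 * β ^ 2 * S) =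
      - (2 * β * c) + (β * S + c) ^ 2 / n ^ 2 := by
    field_simp
    ring
  have h2 : (β * S + c) ^ 2 ≤ (D + 1) ^ 2 := by
    rw [← sq_abs]
    exact pow_le_pow_left₀ (abs_nonneg _) hcS 2
  have h3 : (β * S + c) ^ 2 / n ^ 2 ≤ ε / 2 := by
    rw [div_le_iff₀ (by positivity)]
    nlinarith
  have h4 : 0 ≤ (β * S + c) ^ 2 / n ^ 2 := by positivity
  have h5 : |2 * β * c| ≤ ε / 4 := by
    have h6 : |c| = η := by
      rcases hc with h | h
      · rw [h, abs_of_nonneg hη0]
      · rw [h, abs_neg, abs_of_nonneg hη0]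
    rw [abs_mul, abs_mul, abs_of_nonneg hβ0, h6, abs_of_pos (by norm_num : (0 : ℝ) < 2)]
    nlinarith
  rw [h1]
  have h7 := abs_le.1 h5
  rw [abs_le]
  constructor <;> linarith [h7.1, h7.2]

theorem KAP_fin1 {n L μ X : ℝ} (hL : 0 < L) (h : μ * X ≤ L * (n - L)) :
    1 ≤ n / L - μ / L ^ 2 * X := by
  have h1 : n / L - μ / L ^ 2 * X = (n * L - μ * X) / L ^ 2 := by
    field_simp
  rw [h1, one_le_div (by positivity)]
  linarith

theorem KAP_fin2 {n L μ X : ℝ} (hL : 0 < L) (h : L * (n - L) ≤ μ * X) :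
    n / L - μ / L ^ 2 * X ≤ 1 := by
  have h1 : n / L - μ / L ^ 2 * X = (n * L - μ * X) / L ^ 2 := by
    field_simp
  rw [h1, div_le_one (by positivity)]
  linarith

theorem KAP_c1a {n L D : ℝ} (h1 : n - 1 ≤ L) (h2 : 4 * D + 4 ≤ n) (hD : 1 ≤ D) :
    n ^ 2 - (2 + D) * n ≤ L * (L - D) := by
  have h3 : (n - 1) * (n - 1 - D) ≤ L * (L - D) :=
    mul_le_mul h1 (by linarith) (by linarith) (by linarith)
  nlinarith

theorem KAP_c1b {n L D S β η μ : ℝ} (hn : 0 < n) (hS : 0 ≤ S) (hη : 0 < η) (hβ : 0 ≤ β)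
    (h4 : n ^ 2 - (2 + D) * n ≤ L * (L - D)) (h2 : μ ≤ β * n)
    (h9 : (2 + D) * (β * S + η) ≤ n * η) :
    μ * S * n ≤ L * (L - D) * (β * S + η) := by
  have h6 : μ * S * n ≤ β * n * S * n := by
    have := mul_le_mul_of_nonneg_right h2 (mul_nonneg hS hn.le)
    linarith
  have h7 : (n ^ 2 - (2 + D) * n) * (β * S + η) ≤ L * (L - D) * (β * S + η) :=
    mul_le_mul_of_nonneg_right h4 (by positivity)
  have h10 := mul_le_mul_of_nonneg_left h9 hn.le
  have h8 : β * n * S * n ≤ (n ^ 2 - (2 + D) * n) * (β * S + η) := by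
    have h11 : (n ^ 2 - (2 + D) * n) * (β * S + η) =
        β * n * S * n + (n * (n * η) - n * ((2 + D) * (β * S + η))) := by ring
    rw [h11]
    linarith
  linarith

theorem KAP_c1c {n L D S μ y : ℝ} (hn : 0 < n) (hLD : 0 < L - D) (h1 : n * (n - L) = y)
    (h5 : μ * S * n ≤ L * (L - D) * y) : μ * (S / (L - D)) ≤ L * (n - L) := by
  rw [← mul_div_assoc, div_le_iff₀ hLD]
  have h11 : L * (n - L) * (L - D) * n = L * (L - D) * y := by
    rw [← h1]; ring
  have h12 : μ * S * n ≤ L * (n - L) * (L - D) * n := by rw [h11]; exact h5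
  exact le_of_mul_le_mul_right h12 hn

theorem KAP_c2b {n L D S μ z : ℝ} (hn : 0 < n) (hz : 0 ≤ z) (hLn : L ≤ n)
    (hL0 : 0 < L) (hD : 1 ≤ D) (hzD : z ≤ D) (hSD : S ≤ D) (hS : 0 ≤ S) (hn1 : 1 ≤ n)
    {w η : ℝ} (hw : w = z + η) (hb2 : 2 * D ^ 2 ≤ n * η)
    (hμ : μ * S * n = w * n * n - z * S) :
    L * (L + D) * z ≤ μ * S * n := by
  have h7 : L * (L + D) ≤ n * (n + D) := mul_le_mul hLn (by linarith) (by linarith) hn.le
  have h8 : L * (L + D) * z ≤ n * (n + D) * z := mul_le_mul_of_nonneg_right h7 hz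
  have h11 : z * S ≤ D * D := mul_le_mul hzD hSD hS (by linarith)
  have h12 : n * (D * z) ≤ n * (D * D) :=
    mul_le_mul_of_nonneg_left (mul_le_mul_of_nonneg_left hzD (by linarith)) hn.le
  have h13 : 1 * (D * D) ≤ n * (D * D) := mul_le_mul_of_nonneg_right hn1 (mul_self_nonneg D)
  have h14 : n * (2 * D ^ 2) ≤ n * (n * η) := mul_le_mul_of_nonneg_left hb2 hn.le
  rw [hμ, hw]
  have h15 : n * (n + D) * z = n * n * z + n * (D * z) := by ring
  have h16 : (z + η) * n * n - z * S = n * n * z + n * (n * η) - z * S := by ring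
  have h17 : n * (2 * D ^ 2) = n * (D * D) + n * (D * D) := by ring
  linarith

theorem KAP_c2c {n L D S μ y : ℝ} (hn : 0 < n) (hLD : 0 < L + D) (h1 : n * (n - L) = y)
    (h5 : L * (L + D) * y ≤ μ * S * n) : L * (n - L) ≤ μ * (S / (L + D)) := by
  rw [← mul_div_assoc, le_div_iff₀ hLD]
  have h11 : L * (n - L) * (L + D) * n = L * (L + D) * y := by
    rw [← h1]; ring
  have h12 : L * (n - L) * (L + D) * n ≤ μ * S * n := by rw [h11]; exact h5
  exact le_of_mul_le_mul_right h12 hn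

theorem prfKAP : KAP_statement := by
  intro r D0 ε hr hε
  set D : ℝ := max D0 1 with hD
  have hD1 : 1 ≤ D := le_max_right _ _
  have hDD : D0 ≤ D := le_max_left _ _
  set η : ℝ := min 1 (ε / 8) with hη
  have hη0 : 0 < η := lt_min one_pos (by positivity)
  have hη1 : η ≤ 1 := min_le_left _ _
  have hη8 : η ≤ ε / 8 := min_le_right _ _
  obtain ⟨n₀, hn₀⟩ := exists_nat_ge (max (max ((3 * D + 2) * (D + 1) / η) (2 * D ^ 2 / η))
    (max (2 * (D + 1) ^ 2 / ε) (4 * D + 4)))
  refine ⟨n₀, fun σ hσ hdevD => ?_⟩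
  set n : ℝ := ∑ t, (σ t : ℝ) with hn
  have hnn : (n₀ : ℝ) ≤ n := by
    rw [hn]
    exact_mod_cast hσ
  have hb1 : (3 * D + 2) * (D + 1) ≤ n * η := by
    rw [← div_le_iff₀ hη0]
    exact le_trans (le_trans (le_trans (le_max_left _ _) (le_max_left _ _)) hn₀) hnn
  have hb2 : 2 * D ^ 2 ≤ n * η := by
    rw [← div_le_iff₀ hη0]
    exact le_trans (le_trans (le_trans (le_max_right _ _) (le_max_left _ _)) hn₀) hnn
  have hb3 : 2 * (D + 1) ^ 2 ≤ n * ε := by
    rw [← div_le_iff₀ hε]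
    exact le_trans (le_trans (le_trans (le_max_left _ _) (le_max_right _ _)) hn₀) hnn
  have hb4 : 4 * D + 4 ≤ n :=
    le_trans (le_trans (le_trans (le_max_right _ _) (le_max_right _ _)) hn₀) hnn
  have hn1 : 1 ≤ n := by linarith
  have hn0 : 0 < n := by linarith
  have hr3 : (3 : ℝ) ≤ r := by exact_mod_cast hr
  have hr0 : (0 : ℝ) < r := by linarith
  set β : ℝ := 1 - 1 / (r : ℝ) with hβ
  have hir : 1 / (r : ℝ) ≤ 1 / 3 := one_div_le_one_div_of_le (by norm_num) hr3
  have hir0 : 0 < 1 / (r : ℝ) := by positivity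
  have hβ0 : 2 / 3 ≤ β := by rw [hβ]; linarith
  have hβ1 : β ≤ 1 := by rw [hβ]; linarith
  set h : ℝ := n / r with hh
  have hβh : β * n + h = n := by
    rw [hβ, hh]
    field_simp
    ring
  have hh0 : 0 < h := by rw [hh]; positivity
  set S : ℝ := dev σ with hS
  have hSD : S ≤ D := le_trans hdevD hDD
  have hS0 : 0 ≤ S := by
    rw [hS]
    unfold dev
    exact Finset.sum_nonneg fun t _ => sq_nonneg _
  have hdt : ∀ t, |(σ t : ℝ) - h| ≤ D := by
    intro t
    have h1 : ((σ t : ℝ) - h) ^ 2 ≤ S := by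
      rw [hS]
      unfold dev
      rw [← hn, ← hh]
      exact Finset.single_le_sum (f := fun t => ((σ t : ℝ) - h) ^ 2) (fun t _ => sq_nonneg _)
        (Finset.mem_univ t)
    rw [← sq_abs] at h1
    nlinarith [abs_nonneg ((σ t : ℝ) - h)]
  have hβS : β * S ≤ D := by nlinarith
  have hβS0 : 0 ≤ β * S := by positivity
  have key : ∀ c : ℝ, |c| ≤ 1 → |β * S + c| ≤ D + 1 ∧ |(β * S + c) / n| ≤ 1 := by
    intro c hc
    have h1 : |β * S + c| ≤ D + 1 := by
      refine le_trans (abs_add_le _ _) ?_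
      rw [abs_of_nonneg hβS0]
      linarith
    refine ⟨h1, ?_⟩
    rw [abs_div, abs_of_pos hn0, div_le_iff₀ hn0]
    linarith
  have k1 := key η (by rw [abs_of_pos hη0]; exact hη1)
  have k2 := key (-η) (by rw [abs_neg, abs_of_pos hη0]; exact hη1)
  have k1' := abs_le.1 k1.2
  have k2' := abs_le.1 k2.2
  set μ₁ : ℝ := β * n - (β * S + η) / n with hμ₁
  set μ₂ : ℝ := β * n - (β * S + -η) / n with hμ₂
  have hβn : 2 / 3 * n ≤ β * n := by nlinarith
  have hμ₁0 : 0 < μ₁ := by rw [hμ₁]; linarith [k1'.2]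
  have hμ₂0 : 0 < μ₂ := by rw [hμ₂]; linarith [k2'.2]
  set L₁ : ℝ := μ₁ + h with hL₁
  set L₂ : ℝ := μ₂ + h with hL₂
  have hL₁n : L₁ = n - (β * S + η) / n := by rw [hL₁, hμ₁]; linarith
  have hL₂n : L₂ = n - (β * S + -η) / n := by rw [hL₂, hμ₂]; linarith
  have hL₁D : D < L₁ := by rw [hL₁n]; linarith [k1'.2]
  have hL₂D : D < L₂ := by rw [hL₂n]; linarith [k2'.2]
  have hL₁0 : 0 < L₁ := by linarith
  have hL₂0 : 0 < L₂ := by linarith
  refine ⟨μ₁, μ₂, hμ₁0, hμ₂0, ?_, ?_, ?_, ?_⟩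
  · refine le_trans ?_ (KAP_sums hr σ hn hh hL₁ hμ₁0 hdt hL₁D).1
    have h1 : n * (n - L₁) = β * S + η := by
      rw [hL₁n]
      field_simp
      ring
    have h2 : μ₁ ≤ β * n := by
      rw [hμ₁]
      have : 0 ≤ (β * S + η) / n := by positivity
      linarith
    have h3 : n - 1 ≤ L₁ := by rw [hL₁n]; linarith [k1'.2]
    have h9 : (2 + D) * (β * S + η) ≤ n * η := by
      have h10 : (2 + D) * (β * S + η) ≤ (3 * D + 2) * (D + 1) :=
        mul_le_mul (by linarith) (by linarith) (by linarith) (by linarith)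
      linarith
    exact KAP_fin1 hL₁0 (KAP_c1c hn0 (by linarith) h1
      (KAP_c1b hn0 hS0 hη0 (by linarith) (KAP_c1a h3 hb4 hD1) h2 h9))
  · refine le_trans (KAP_sums hr σ hn hh hL₂ hμ₂0 hdt hL₂D).2 ?_
    have h1 : n * (n - L₂) = β * S + -η := by
      rw [hL₂n]
      field_simp
      ring
    have h5 : L₂ * (L₂ + D) * (β * S + -η) ≤ μ₂ * S * n := by
      by_cases hneg : β * S + -η ≤ 0
      · have h6 : L₂ * (L₂ + D) * (β * S + -η) ≤ 0 :=
          mul_nonpos_of_nonneg_of_nonpos (by positivity) hneg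
        have h7 : 0 ≤ μ₂ * S * n := by positivity
        linarith
      · push Not at hneg
        have h6 : L₂ ≤ n := by
          rw [hL₂n]
          have : 0 ≤ (β * S + -η) / n := by positivity
          linarith
        have h9 : μ₂ * S * n = β * S * n * n - (β * S + -η) * S := by
          rw [hμ₂]
          field_simp
        exact KAP_c2b hn0 hneg.le h6 hL₂0 hD1 (by linarith) hSD hS0 hn1 (by ring) hb2 h9
    exact KAP_fin2 hL₂0 (KAP_c2c hn0 (by linarith) h1 h5)
  · exact KAP_sq (by linarith) hβ1 hn1 hη0.le hη8 hb3 (Or.inl rfl) k1.1 hε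
  · exact KAP_sq (by linarith) hβ1 hn1 hη0.le hη8 hb3 (Or.inr rfl) k2.1 hε

end MP0c3a8f

end

section

open Finset

namespace MP0c3a8f

theorem LOWS_sum {V : Type} [Fintype V] {r : ℕ} (σ : Fin r → ℕ) (f : V → Option (Fin r))
    (hs : ∀ t, {v | f v = some t}.ncard = σ t) (F : Option (Fin r) → ℝ) (h0 : F none = 0) :
    ∑ i, F (f i) = ∑ t, (σ t : ℝ) * F (some t) := by
  classical
  have h1 : ∀ t, ∑ j, (if f j = some t then (1 : ℝ) else 0) = σ t := by
    intro t
    rw [Finset.sum_boole, ← hs t, Set.ncard_eq_toFinset_card']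
    congr 2
    ext j
    simp
  have h2 : ∀ i, F (f i) = ∑ t, (if f i = some t then (1 : ℝ) else 0) * F (some t) := by
    intro i
    cases hi : f i with
    | none => simp [h0]
    | some u => simp
  simp_rw [h2]
  rw [Finset.sum_comm]
  simp_rw [← Finset.sum_mul, h1]

open Classical in
theorem LOWS_pair {V : Type} {r : ℕ} (G : SimpleGraph V) (f : V → Option (Fin r))
    (hI : Indep G f) (w : Fin r → ℝ) (i j : V) :
    adj G i j * ((f i).elim 0 w * (f j).elim 0 w) =
      (f i).elim 0 w * ((f j).elim 0 w - (if f i = f j then (f j).elim 0 w else 0)) -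
        adj (LOW_Gm G f) i j * ((f i).elim 0 w * (f j).elim 0 w) := by
  by_cases hi : f i = none
  · simp [hi]
  · by_cases hj : f j = none
    · simp [hj]
    · by_cases hij : f i = f j
      · have h1 : adj G i j = 0 := by
          unfold adj
          rw [if_neg (hI i j hi hij)]
        have h2 : adj (LOW_Gm G f) i j = 0 := by
          unfold adj
          rw [if_neg (fun h => h.2.2.1 hij)]
        rw [h1, h2, if_pos hij]
        ring
      · rw [if_neg hij]
        by_cases h : G.Adj i j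
        · have h1 : adj G i j = 1 := by
            unfold adj
            rw [if_pos h]
          have h2 : adj (LOW_Gm G f) i j = 0 := by
            unfold adj
            rw [if_neg (fun h' => h'.2.2.2 h)]
          rw [h1, h2]
          ring
        · have h1 : adj G i j = 0 := by
            unfold adj
            rw [if_neg h]
          have h2 : adj (LOW_Gm G f) i j = 1 := by
            unfold adj
            rw [if_pos (show (LOW_Gm G f).Adj i j from ⟨hi, hj, hij, h⟩)]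
          rw [h1, h2]
          ring

theorem LOWS_qf (hE : EDG_statement) {V : Type} [Fintype V] {r : ℕ} (σ : Fin r → ℕ) (a b : ℕ)
    (G : SimpleGraph V) (f : V → Option (Fin r)) (hM : IsModS σ a b G f) (w : Fin r → ℝ) (W : ℝ)
    (hW : 0 ≤ W) (hw : ∀ t, 0 ≤ w t ∧ w t ≤ W) :
    (∑ t, (σ t : ℝ) * w t) ^ 2 - ∑ t, ((σ t : ℝ) * w t) ^ 2 - 2 * a * W ^ 2 ≤
      qf G (fun i => (f i).elim 0 w) := by
  classical
  have hz : ∀ i, 0 ≤ (f i).elim 0 w ∧ (f i).elim 0 w ≤ W := by
    intro i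
    cases hi : f i with
    | none => exact ⟨le_rfl, hW⟩
    | some t => exact hw t
  have h1 : qf G (fun i => (f i).elim 0 w) =
      ∑ i, (f i).elim 0 w * (∑ j, ((f j).elim 0 w - (if f i = f j then (f j).elim 0 w else 0))) -
        ∑ i, ∑ j, adj (LOW_Gm G f) i j * ((f i).elim 0 w * (f j).elim 0 w) := by
    unfold qf
    rw [← Finset.sum_sub_distrib]
    refine Finset.sum_congr rfl fun i _ => ?_
    rw [Finset.mul_sum, ← Finset.sum_sub_distrib]
    exact Finset.sum_congr rfl fun j _ => LOWS_pair G f hM.indep w i j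
  have h2 : ∀ i, (f i).elim 0 w *
      (∑ j, ((f j).elim 0 w - (if f i = f j then (f j).elim 0 w else 0))) =
      (f i).elim 0 w * ((∑ t, (σ t : ℝ) * w t) - (f i).elim 0 (fun t => (σ t : ℝ) * w t)) := by
    intro i
    cases hi : f i with
    | none => simp
    | some t =>
      congr 1
      rw [Finset.sum_sub_distrib, LOWS_sum σ f hM.size (fun o => o.elim 0 w) rfl]
      congr 1
      have h3 := LOWS_sum σ f hM.size (fun o => if some t = o then o.elim 0 w else 0) (by simp)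
      rw [h3]
      simp
  have h4 : ∑ i, (f i).elim 0 w * ((∑ t, (σ t : ℝ) * w t) -
      (f i).elim 0 (fun t => (σ t : ℝ) * w t)) =
      (∑ t, (σ t : ℝ) * w t) ^ 2 - ∑ t, ((σ t : ℝ) * w t) ^ 2 := by
    rw [LOWS_sum σ f hM.size (fun o => o.elim 0 w * ((∑ t, (σ t : ℝ) * w t) -
      o.elim 0 (fun t => (σ t : ℝ) * w t))) (by simp)]
    simp only [Option.elim_some]
    have h5 : ∀ t, (σ t : ℝ) * (w t * ((∑ t, (σ t : ℝ) * w t) - (σ t : ℝ) * w t)) =
        (σ t : ℝ) * w t * (∑ t, (σ t : ℝ) * w t) - ((σ t : ℝ) * w t) ^ 2 := fun t => by ring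
    simp_rw [h5]
    rw [Finset.sum_sub_distrib, ← Finset.sum_mul, sq]
  have h6 : ∑ i, ∑ j, adj (LOW_Gm G f) i j * ((f i).elim 0 w * (f j).elim 0 w) ≤
      2 * a * W ^ 2 := by
    have h7 := hE V (LOW_Gm G f)
    rw [LOW_edgeGm, hM.miss] at h7
    rw [← h7, Finset.sum_mul]
    refine Finset.sum_le_sum fun i _ => ?_
    rw [Finset.sum_mul]
    refine Finset.sum_le_sum fun j _ => ?_
    refine mul_le_mul_of_nonneg_left ?_ (LOW_nn _ i j)
    rw [sq]
    exact mul_le_mul (hz i).2 (hz j).2 (hz j).1 hW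
  rw [h1, Finset.sum_congr rfl fun i _ => h2 i, h4]
  linarith

theorem LOWS_low {r : ℕ} (σ : Fin r → ℕ) (μ : ℝ) (hμ : 0 < μ)
    (h : 1 ≤ ∑ t, (σ t : ℝ) / (μ + σ t)) :
    μ * ∑ t, (σ t : ℝ) * (1 / (μ + σ t)) ^ 2 ≤
      (∑ t, (σ t : ℝ) * (1 / (μ + σ t))) ^ 2 - ∑ t, ((σ t : ℝ) * (1 / (μ + σ t))) ^ 2 := by
  have h1 : ∑ t, (σ t : ℝ) / (μ + σ t) = ∑ t, (σ t : ℝ) * (1 / (μ + σ t)) :=
    Finset.sum_congr rfl fun t _ => by rw [mul_one_div]
  rw [h1] at h
  have h2 : ∑ t, (σ t : ℝ) * (1 / (μ + σ t)) =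
      μ * ∑ t, (σ t : ℝ) * (1 / (μ + σ t)) ^ 2 + ∑ t, ((σ t : ℝ) * (1 / (μ + σ t))) ^ 2 := by
    rw [Finset.mul_sum, ← Finset.sum_add_distrib]
    refine Finset.sum_congr rfl fun t _ => ?_
    have h3 : μ + (σ t : ℝ) ≠ 0 := by positivity
    field_simp
  nlinarith

theorem prfLOWS : KAP_statement → P_statement → EDG_statement → CNTS_statement →
    LOWS_statement := by
  intro hK hP hE hC r N D₀ ε hr hε
  obtain ⟨D, hD0, hDD⟩ : ∃ D : ℝ, 0 ≤ D ∧ D₀ ≤ D := ⟨max D₀ 0, le_max_right _ _, le_max_left _ _⟩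
  obtain ⟨n₁, hn₁⟩ := hK r D (ε / 4) hr (by positivity)
  have hr0 : (3 : ℝ) ≤ r := by exact_mod_cast hr
  have hβ : (2 : ℝ) / 3 ≤ 1 - 1 / (r : ℝ) := by
    have : 1 / (r : ℝ) ≤ 1 / 3 := one_div_le_one_div_of_le (by norm_num) hr0
    linarith
  have hβ1 : 1 - 1 / (r : ℝ) ≤ 1 := by
    have : 0 ≤ 1 / (r : ℝ) := by positivity
    linarith
  set β : ℝ := 1 - 1 / (r : ℝ) with hβdef
  set d : ℝ := Real.sqrt D with hd
  have hd0 : 0 ≤ d := Real.sqrt_nonneg _
  set c : ℝ := 4 * d * r with hc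
  have hc0 : 0 ≤ c := by positivity
  set C : ℝ := 2 * c + c ^ 2 with hCd
  have hC0 : 0 ≤ C := by positivity
  set κ : ℝ := ε / (8 * ((N : ℝ) + 1)) with hκ
  have hκ0 : 0 < κ := by positivity
  set n₂ : ℕ := ⌈2 * r * d⌉₊ with hn₂
  set n₃ : ℕ := ⌈(C + ε + ε * C) / κ⌉₊ with hn₃
  refine ⟨n₁ + n₂ + n₃ + 1, ?_⟩
  intro σ a b V _ G f hM hn hdev ha
  obtain ⟨μ, _, hμ, _, hφ, _, habs, _⟩ := hn₁ σ (by omega) (hdev.trans hDD)
  have hcast : ((∑ t, σ t : ℕ) : ℝ) = ∑ t, (σ t : ℝ) := by push_cast; rfl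
  have hnR : (n₁ : ℝ) + n₂ + n₃ + 1 ≤ ∑ t, (σ t : ℝ) := by
    rw [← hcast]
    exact_mod_cast hn
  set n : ℝ := ∑ t, (σ t : ℝ) with hnd
  have hn1 : 1 ≤ n := by
    have h1 : (0 : ℝ) ≤ n₁ := Nat.cast_nonneg _
    have h2 : (0 : ℝ) ≤ n₂ := Nat.cast_nonneg _
    have h3 : (0 : ℝ) ≤ n₃ := Nat.cast_nonneg _
    linarith
  have hn2 : 2 * r * d ≤ n := by
    have h1 : (0 : ℝ) ≤ n₁ := Nat.cast_nonneg _
    have h2 : 2 * r * d ≤ n₂ := Nat.le_ceil _
    have h3 : (0 : ℝ) ≤ n₃ := Nat.cast_nonneg _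
    linarith
  have hn3 : (C + ε + ε * C) / κ ≤ n := by
    have h1 : (0 : ℝ) ≤ n₁ := Nat.cast_nonneg _
    have h2 : (0 : ℝ) ≤ n₂ := Nat.cast_nonneg _
    have h3 : (C + ε + ε * C) / κ ≤ n₃ := Nat.le_ceil _
    linarith
  have hn3' : C + ε + ε * C ≤ κ * n := by
    rw [div_le_iff₀ hκ0] at hn3
    linarith
  have hne : Nonempty V := by
    by_contra hcon
    rw [not_nonempty_iff] at hcon
    have h1 : ∀ t, σ t = 0 := by
      intro t
      rw [← hM.size t]
      have : {v | f v = some t} = ∅ := by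
        ext v
        exact isEmptyElim v
      rw [this, Set.ncard_empty]
    have h2 : ∑ t, σ t = 0 := Finset.sum_eq_zero fun t _ => h1 t
    omega
  obtain ⟨hl0, hq, -⟩ := hP V G
  -- the sizes
  have hS0 : 0 ≤ dev σ := Finset.sum_nonneg fun t _ => sq_nonneg _
  have hσ : ∀ t, n / r - d ≤ σ t ∧ (σ t : ℝ) ≤ n / r + d := by
    intro t
    have h1 : ((σ t : ℝ) - n / r) ^ 2 ≤ dev σ := by
      unfold dev
      exact Finset.single_le_sum (f := fun t => ((σ t : ℝ) - (∑ s, (σ s : ℝ)) / r) ^ 2)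
        (fun _ _ => sq_nonneg _) (Finset.mem_univ t)
    have h2 : |(σ t : ℝ) - n / r| ≤ d := Real.abs_le_sqrt (h1.trans (hdev.trans hDD))
    rw [abs_le] at h2
    constructor <;> linarith [h2.1, h2.2]
  have hnr : 2 * d ≤ n / r := by
    rw [le_div_iff₀ (by linarith)]
    linarith
  set A : ℝ := μ + n / r with hA
  have hAd : n / (2 * r) ≤ A - d := by
    have h1 : n / (2 * r) = n / r / 2 := by field_simp
    rw [h1]
    linarith
  have hAd0 : 0 < A - d := lt_of_lt_of_le (by positivity) hAd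
  set W : ℝ := 1 / (A - d) with hW
  have hW0 : 0 < W := by positivity
  have hw : ∀ t, 0 ≤ 1 / (μ + (σ t : ℝ)) ∧ 1 / (μ + (σ t : ℝ)) ≤ W := by
    intro t
    refine ⟨by positivity, ?_⟩
    rw [hW]
    exact one_div_le_one_div_of_le hAd0 (by linarith [(hσ t).1])
  have hwl : ∀ t, 1 / (A + d) ≤ 1 / (μ + (σ t : ℝ)) := by
    intro t
    exact one_div_le_one_div_of_le (by positivity) (by linarith [(hσ t).2])
  have h1 := LOWS_qf hE σ a b G f hM (fun t => 1 / (μ + (σ t : ℝ))) W hW0.le hw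
  have h2 := LOWS_low σ μ hμ hφ
  have h3 := hq (fun i => (f i).elim 0 (fun t => 1 / (μ + (σ t : ℝ))))
  have h4 : ∑ i, ((f i).elim 0 (fun t => 1 / (μ + (σ t : ℝ)))) ^ 2 =
      ∑ t, (σ t : ℝ) * (1 / (μ + σ t)) ^ 2 := by
    rw [LOWS_sum σ f hM.size (fun o => (o.elim 0 (fun t => 1 / (μ + (σ t : ℝ)))) ^ 2) (by simp)]
    rfl
  rw [h4] at h3
  set Q : ℝ := ∑ t, (σ t : ℝ) * (1 / (μ + σ t)) ^ 2 with hQ
  have hQ1 : n * (1 / (A + d)) ^ 2 ≤ Q := by
    rw [hnd, Finset.sum_mul, hQ]
    refine Finset.sum_le_sum fun t _ => ?_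
    refine mul_le_mul_of_nonneg_left ?_ (Nat.cast_nonneg _)
    exact pow_le_pow_left₀ (by positivity) (hwl t) 2
  have hQ0 : 0 < Q := lt_of_lt_of_le (by positivity) hQ1
  -- the quotient
  set ρ : ℝ := W ^ 2 / Q with hρ
  have hρ0 : 0 ≤ ρ := by positivity
  have hρQ : ρ * Q = W ^ 2 := by
    rw [hρ]
    field_simp
  have hlam : μ - 2 * a * ρ ≤ lam G := by
    have h5 : (μ - 2 * a * ρ) * Q ≤ lam G * Q := by
      have : (μ - 2 * a * ρ) * Q = μ * Q - 2 * a * W ^ 2 := by
        rw [← hρQ]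
        ring
      rw [this]
      linarith
    exact le_of_mul_le_mul_right h5 hQ0
  have hρn : ρ * n ≤ (1 + c / n) ^ 2 := by
    have h5 : ρ * (n * (1 / (A + d)) ^ 2) ≤ W ^ 2 := by
      rw [← hρQ]
      exact mul_le_mul_of_nonneg_left hQ1 hρ0
    have h6 : ρ * n ≤ ((A + d) / (A - d)) ^ 2 := by
      have h7 : ρ * n = ρ * (n * (1 / (A + d)) ^ 2) * (A + d) ^ 2 := by
        have : A + d ≠ 0 := by positivity
        field_simp
      rw [h7]
      calc ρ * (n * (1 / (A + d)) ^ 2) * (A + d) ^ 2 ≤ W ^ 2 * (A + d) ^ 2 :=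
            mul_le_mul_of_nonneg_right h5 (by positivity)
        _ = ((A + d) / (A - d)) ^ 2 := by
            rw [hW]
            field_simp
    refine h6.trans (pow_le_pow_left₀ (by positivity) ?_ 2)
    rw [div_le_iff₀ hAd0]
    have h8 : 2 * d ≤ c / n * (A - d) := by
      calc 2 * d = c / n * (n / (2 * r)) := by
            rw [hc]
            field_simp
            ring
        _ ≤ c / n * (A - d) := mul_le_mul_of_nonneg_left hAd (by positivity)
    linarith
  have hμn : μ ≤ β * n + ε := by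
    have h5 : μ ^ 2 ≤ (β * n + ε) ^ 2 := by
      have h6 := (abs_le.1 habs).2
      have h7 : 0 ≤ β ^ 2 * dev σ := by positivity
      have h8 : ε / 4 ≤ 2 * (β * n) * ε := by
        have h9 : (1 : ℝ) / 4 ≤ 2 * (β * n) := by
          have : 2 / 3 * 1 ≤ β * n := mul_le_mul hβ hn1 (by norm_num) (by linarith)
          linarith
        have := mul_le_mul_of_nonneg_right h9 hε.le
        linarith
      have h10 : (β * n + ε) ^ 2 = β ^ 2 * n ^ 2 + 2 * (β * n) * ε + ε ^ 2 := by ring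
      linarith [sq_nonneg ε]
    exact le_of_sq_le_sq h5 (by positivity)
  have hμρ : μ * ρ ≤ β + κ := by
    have h5 : μ * (ρ * n) ≤ (β * n + ε) * (1 + c / n) ^ 2 :=
      mul_le_mul hμn hρn (by positivity) (by positivity)
    have h6 : (1 + c / n) ^ 2 ≤ 1 + C / n := by
      have h7 : (c / n) ^ 2 ≤ c ^ 2 / n := by
        rw [div_pow]
        exact div_le_div_of_nonneg_left (by positivity) (by positivity) (by nlinarith)
      have h8 : C / n = 2 * (c / n) + c ^ 2 / n := by
        rw [hCd]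
        ring
      rw [h8]
      have h8' : (1 + c / n) ^ 2 = 1 + 2 * (c / n) + (c / n) ^ 2 := by ring
      linarith
    have h9 : (β * n + ε) * (1 + c / n) ^ 2 ≤ (β * n + ε) * (1 + C / n) :=
      mul_le_mul_of_nonneg_left h6 (by positivity)
    have h10 : (β * n + ε) * (1 + C / n) = β * n + ε + β * C + ε * C / n := by
      field_simp
      ring
    have h11 : ε * C / n ≤ ε * C := div_le_self (by positivity) hn1
    have h12 : β * C ≤ C := mul_le_of_le_one_left hC0 hβ1
    have h13 : μ * ρ * n ≤ (β + κ) * n := by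
      calc μ * ρ * n = μ * (ρ * n) := by ring
        _ ≤ β * n + ε + β * C + ε * C / n := by linarith
        _ ≤ (β + κ) * n := by linarith
    exact le_of_mul_le_mul_right h13 (by linarith)
  have hl2 : μ ^ 2 - 4 * a * (μ * ρ) ≤ lam G ^ 2 := by
    have ha0 : (0 : ℝ) ≤ a := Nat.cast_nonneg _
    by_cases h5 : 2 * a * ρ ≤ μ
    · have h6 : (μ - 2 * a * ρ) ^ 2 ≤ lam G ^ 2 := pow_le_pow_left₀ (by linarith) hlam 2
      have h7 : (μ - 2 * a * ρ) ^ 2 = μ ^ 2 - 4 * a * (μ * ρ) + (2 * a * ρ) ^ 2 := by ring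
      linarith [sq_nonneg (2 * a * ρ)]
    · push Not at h5
      have h6 : 0 ≤ lam G ^ 2 := sq_nonneg _
      have h7 : μ * μ ≤ μ * (2 * a * ρ) := mul_le_mul_of_nonneg_left h5.le hμ.le
      have h8 : 0 ≤ μ * μ := mul_self_nonneg _
      linarith
  have haN : (a : ℝ) ≤ N := by exact_mod_cast ha
  have hκN : 4 * a * κ ≤ ε / 2 := by
    have h5 : κ * (8 * ((N : ℝ) + 1)) = ε := by
      rw [hκ]
      field_simp
    have h6 : (a : ℝ) * κ ≤ N * κ := mul_le_mul_of_nonneg_right haN hκ0.le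
    linarith
  have haμ : 4 * a * (μ * ρ) ≤ 4 * a * (β + κ) :=
    mul_le_mul_of_nonneg_left hμρ (by positivity)
  -- the number of edges
  have hsz := hC r σ a b V G f hM
  unfold Sz at hsz
  have hszR : 2 * (G.edgeSet.ncard : ℝ) + 2 * a + ∑ t, (σ t : ℝ) ^ 2 = n ^ 2 + 2 * b := by
    have : ((2 * G.edgeSet.ncard + 2 * a + ∑ t, σ t ^ 2 : ℕ) : ℝ) =
      (((∑ t, σ t) ^ 2 + 2 * b : ℕ) : ℝ) := by rw [hsz]
    push_cast at this
    exact this
  have hdv : dev σ = ∑ t, (σ t : ℝ) ^ 2 - n ^ 2 / r := by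
    unfold dev
    rw [← hnd]
    have h5 : ∀ t, ((σ t : ℝ) - n / r) ^ 2 = (σ t : ℝ) ^ 2 - 2 * (n / r) * σ t + (n / r) ^ 2 :=
      fun t => by ring
    simp_rw [h5]
    rw [Finset.sum_add_distrib, Finset.sum_sub_distrib, ← Finset.mul_sum, ← hnd]
    simp only [Finset.sum_const, Finset.card_univ, Fintype.card_fin, nsmul_eq_mul]
    field_simp
    ring
  have hm2 : 2 * (G.edgeSet.ncard : ℝ) = β * n ^ 2 - dev σ + 2 * b - 2 * a := by
    rw [hdv, hβdef]
    have : (1 - 1 / (r : ℝ)) * n ^ 2 = n ^ 2 - n ^ 2 / r := by ring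
    rw [this]
    linarith
  have h6 := (abs_le.1 habs).1
  have h7 : 2 * β * (G.edgeSet.ncard : ℝ) = β * (β * n ^ 2 - dev σ + 2 * b - 2 * a) := by
    rw [← hm2]
    ring
  have h8 : β * Phi σ a b = β * (2 * ((a : ℝ) + b) + (2 * β - 1) * dev σ) := by
    unfold Phi
    rw [hβdef]
    ring
  rw [h7, h8]
  linarith

end MP0c3a8f

end

section

/-!
# MP_0c3a8f_co, extension, item NON2: types with many new edges
-/

set_option autoImplicit false

namespace MP0c3a8f

open INON

theorem NON2_card (r L : ℕ) (hL : 2 ≤ L) (hr : 3 ≤ r) : L ≤ (HH r L hL).edgeSet.ncard := by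
  classical
  set φ : Fin L → Sym2 (Fin (r - 2) ⊕ Fin L) :=
    fun j => s(Sum.inl ⟨0, by omega⟩, Sum.inr j) with hφ
  have hinj : Function.Injective φ := by
    intro j j' h
    rcases Sym2.eq_iff.1 h with ⟨-, h2⟩ | ⟨h1, -⟩
    · exact Sum.inr_injective h2
    · exact absurd h1 (by simp)
  have hsub : φ '' Set.univ ⊆ (HH r L hL).edgeSet := by
    rintro _ ⟨j, -, rfl⟩
    rw [hφ, SimpleGraph.mem_edgeSet]
    trivial
  have h1 := Set.ncard_le_ncard hsub (Set.toFinite _)
  rw [Set.ncard_image_of_injective _ hinj, Set.ncard_univ, Nat.card_fin] at h1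
  exact h1

theorem prfNON2 : NON2_statement := by
  intro W _ F r hr hF B
  classical
  set L : ℕ := 2 * (Fintype.card W + B) + 3 with hL
  have hL2 : 2 ≤ L := by omega
  have hLB := NON2_card r L hL2 hr
  refine ⟨(HH r L hL2).edgeSet.ncard, by omega, fun s => ⟨s, le_rfl, ?_⟩⟩
  set e := Fintype.equivFin ((Fin (r - 2) ⊕ Fin L) ⊕ (Fin r × Fin s)) with he
  refine ⟨_, (GG r L s hL2).comap e.symm, fun v => ff r L s (e.symm v), ⟨?_, ?_, ?_, ?_⟩,
    ?_, ?_, ?_⟩
  · intro t
    have h1 : {v | ff r L s (e.symm v) = some t} =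
        (fun x : Fin s => e (Sum.inr (t, x))) '' Set.univ := by
      ext v
      simp only [Set.mem_ofPred_eq, Set.image_univ, Set.mem_range]
      constructor
      · intro h
        rcases hv : e.symm v with p | p
        · rw [hv] at h
          simp [ff] at h
        · rw [hv] at h
          simp only [ff, Option.some.injEq] at h
          refine ⟨p.2, ?_⟩
          rw [← h]
          rw [Prod.mk.eta, ← hv, Equiv.apply_symm_apply]
      · rintro ⟨x, rfl⟩
        rw [Equiv.symm_apply_apply]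
        rfl
    rw [h1, Set.ncard_image_of_injective _ (fun x y hxy => by
      have := e.injective hxy
      simpa using this), Set.ncard_univ, Nat.card_fin]
  · intro v w h1 h2 h3
    have h3' : gAdj r L s (e.symm v) (e.symm w) := h3
    beta_reduce at h1 h2
    rcases hv : e.symm v with p | p <;> rcases hw : e.symm w with q | q <;>
      rw [hv] at h1 h2 h3' <;> rw [hw] at h2 h3'
    · exact h1 rfl
    · exact h3'
    · exact h3'
    · simp only [ff, Option.some.injEq] at h2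
      exact h3' h2
  · have h1 : missSet ((GG r L s hL2).comap e.symm) (fun v => ff r L s (e.symm v)) = ∅ := by
      rw [Set.eq_empty_iff_forall_notMem]
      rintro z ⟨v, w, -, h2, h3, h4, h5⟩
      refine h5 ?_
      show gAdj r L s (e.symm v) (e.symm w)
      beta_reduce at h2 h3 h4
      rcases hv : e.symm v with p | p <;> rcases hw : e.symm w with q | q <;>
        rw [hv] at h2 h4 <;> rw [hw] at h3 h4
      · exact absurd rfl h2
      · exact absurd rfl h2
      · exact absurd rfl h3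
      · intro hh
        exact h4 (by simp only [ff, hh])
    rw [h1, Set.ncard_empty]
  · have h1 : outSet ((GG r L s hL2).comap e.symm) (fun v => ff r L s (e.symm v)) =
        (Sym2.map fun h => e (Sum.inl h)) '' (HH r L hL2).edgeSet := by
      ext z
      induction z using Sym2.ind with
      | _ v w =>
        constructor
        · rintro ⟨h2, u, hu, hfu⟩
          rw [SimpleGraph.mem_edgeSet] at h2
          beta_reduce at hfu
          have h3 : gAdj r L s (e.symm v) (e.symm w) := h2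
          rcases hv : e.symm v with p | p <;> rcases hw : e.symm w with q | q <;>
            rw [hv, hw] at h3
          · refine ⟨s(p, q), ?_, ?_⟩
            · rw [SimpleGraph.mem_edgeSet]
              exact h3
            · rw [Sym2.map_mk, ← hv, ← hw, Equiv.apply_symm_apply, Equiv.apply_symm_apply]
          · exact absurd h3 (by simp [gAdj])
          · exact absurd h3 (by simp [gAdj])
          · rcases Sym2.mem_iff.1 hu with rfl | rfl
            · rw [hv] at hfu
              simp [ff] at hfu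
            · rw [hw] at hfu
              simp [ff] at hfu
        · rintro ⟨y, hy, hz⟩
          induction y using Sym2.ind with
          | _ p q =>
            rw [Sym2.map_mk] at hz
            rw [← hz]
            refine ⟨?_, e (Sum.inl p), Sym2.mem_mk_left _ _, ?_⟩
            · rw [SimpleGraph.mem_edgeSet, SimpleGraph.comap_adj, Equiv.symm_apply_apply,
                Equiv.symm_apply_apply]
              exact hy
            · beta_reduce
              rw [Equiv.symm_apply_apply]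
              rfl
    rw [h1, Set.ncard_image_of_injective]
    exact Sym2.map.injective fun x y hxy => by simpa using hxy
  · rintro ⟨φ⟩
    refine hF ?_
    set ψ : W → (Fin (r - 2) ⊕ Fin L) ⊕ (Fin r × Fin s) := fun w => e.symm (φ w) with hψ
    have hj0 : ∃ j0 : Fin L, ∀ w, ψ w ≠ Sum.inl (Sum.inr j0) := by
      by_contra hcon
      push Not at hcon
      choose g hg using hcon
      have hginj : Function.Injective g := by
        intro a b hab
        have h1 := hg a
        have h2 := hg b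
        rw [hab, h2] at h1
        simpa using h1.symm
      have := Fintype.card_le_of_injective g hginj
      rw [Fintype.card_fin] at this
      omega
    obtain ⟨j0, hj0⟩ := hj0
    refine ⟨SimpleGraph.Coloring.mk (fun w => colf r L s hr j0 (ψ w)) ?_⟩
    intro a b hab
    exact colf_ne r L s hr j0 _ _ (hj0 a) (hj0 b) (φ.toHom.map_adj hab)
  · rintro ⟨C⟩
    refine not_col r L s hL2 hr (by omega) (fun v => C (e v)) fun u v huv => ?_
    refine C.valid ?_
    rw [SimpleGraph.comap_adj, Equiv.symm_apply_apply, Equiv.symm_apply_apply]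
    exact huv
  · intro v
    rcases hv : e.symm v with (p | p) | p
    · refine ⟨e (Sum.inl (Sum.inr ⟨0, by omega⟩)), ?_⟩
      rw [SimpleGraph.comap_adj, hv, Equiv.symm_apply_apply]
      trivial
    · refine ⟨e (Sum.inl (Sum.inl ⟨0, by omega⟩)), ?_⟩
      rw [SimpleGraph.comap_adj, hv, Equiv.symm_apply_apply]
      trivial
    · have hex : ∃ t : Fin r, p.1 ≠ t := by
        have : Nontrivial (Fin r) := Fin.nontrivial_iff_two_le.2 (by omega)
        obtain ⟨t, ht⟩ := exists_ne p.1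
        exact ⟨t, ht.symm⟩
      obtain ⟨t, ht⟩ := hex
      refine ⟨e (Sum.inr (t, p.2)), ?_⟩
      rw [SimpleGraph.comap_adj, hv, Equiv.symm_apply_apply]
      exact ht

end MP0c3a8f

end

section

/-!
# MP_0c3a8f_co, extension, item REDS: reduction of the sizes of the parts, number of edges
-/

open Finset

namespace MP0c3a8f

open IRED in
theorem REDS_red : REDS_statement := by
  classical
  intro W _ F r τ V _ G g hr hind hs hsize hfree hcol hiso
  have hSp : ∀ t, (Sp G g).ncard < τ t := by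
    intro t
    have := card_Sp G g
    have := hs t
    omega
  choose P' hP1 hP2 hP3 q hq1 hq2 using fun t : Fin r =>
    choose_parts {i | g i = some t} (Sp G g) (τ t) (hSp t) (hsize t)
  have hgq : ∀ t, g (q t) = some t := fun t => hP2 t (hq1 t)
  -- adjacency of the normal vertices
  have hqadj : ∀ t v, g v ≠ none → g v ≠ some t → G.Adj (q t) v := by
    intro t v hv hvt
    by_contra hadj
    apply hq2 t
    refine ⟨by rw [hgq t]; simp, Or.inl ⟨v, hv, ?_, hadj⟩⟩
    rw [hgq t]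
    exact fun h => hvt h.symm
  set S : Set V := {v | g v = none ∨ ∃ t, g v = some t ∧ v ∈ P' t} with hS
  have hSpS : ∀ v, v ∈ Sp G g → v ∈ S := by
    intro v hv
    obtain ⟨t, ht⟩ := Option.ne_none_iff_exists'.1 hv.1
    exact Or.inr ⟨t, ht, hP1 t ⟨hv, ht⟩⟩
  have hqS : ∀ t, q t ∈ S := fun t => Or.inr ⟨t, hgq t, hq1 t⟩
  have hout : ∀ v w, G.Adj v w → g w = none → v ∈ S := by
    intro v w hvw hw
    by_cases hv : g v = none
    · exact Or.inl hv
    · exact hSpS v ⟨hv, Or.inr ⟨w, hw, hvw⟩⟩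
  set k := Fintype.card S with hk
  let e : S ≃ Fin k := Fintype.equivFin S
  set emb : Fin k → V := fun i => (e.symm i : V) with hemb
  have hinj : Function.Injective emb := fun i j h => e.symm.injective (Subtype.ext h)
  have hmem : ∀ i, emb i ∈ S := fun i => (e.symm i).2
  have hsurj : ∀ v ∈ S, ∃ i, emb i = v := fun v hv => ⟨e ⟨v, hv⟩, by simp [hemb]⟩
  refine ⟨k, G.comap emb, g ∘ emb, ⟨?_, ?_, ?_, ?_⟩, ?_, ?_, ?_⟩
  · intro t
    have h1 : emb '' {i | (g ∘ emb) i = some t} = P' t := by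
      ext v
      constructor
      · rintro ⟨i, hi, rfl⟩
        have hi' : g (emb i) = some t := hi
        rcases hmem i with h | ⟨t', ht', hP⟩
        · rw [h] at hi'
          simp at hi'
        · rw [hi'] at ht'
          obtain rfl : t = t' := Option.some_injective _ ht'
          exact hP
      · intro hv
        have hgv : g v = some t := hP2 t hv
        obtain ⟨i, rfl⟩ := hsurj v (Or.inr ⟨t, hgv, hv⟩)
        exact ⟨i, hgv, rfl⟩
    rw [← Set.ncard_image_of_injective _ hinj, h1, hP3]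
  · intro i j hi hij
    exact hind (emb i) (emb j) hi hij
  · rw [← Set.ncard_image_of_injective (missSet (G.comap emb) (g ∘ emb)) (Sym2.map.injective hinj)]
    congr 1
    ext z
    constructor
    · rintro ⟨_, ⟨i, j, rfl, hi, hj, hne, hadj⟩, rfl⟩
      exact ⟨emb i, emb j, rfl, hi, hj, hne, hadj⟩
    · rintro ⟨v, w, rfl, hv, hw, hne, hadj⟩
      obtain ⟨i, rfl⟩ := hsurj v (hSpS v ⟨hv, Or.inl ⟨w, hw, hne, hadj⟩⟩)
      obtain ⟨j, rfl⟩ := hsurj w (hSpS w ⟨hw, Or.inl ⟨emb i, hv, hne.symm, fun h => hadj h.symm⟩⟩)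
      exact ⟨s(i, j), ⟨i, j, rfl, hv, hw, hne, hadj⟩, rfl⟩
  · rw [← Set.ncard_image_of_injective (outSet (G.comap emb) (g ∘ emb)) (Sym2.map.injective hinj)]
    congr 1
    ext z
    constructor
    · rintro ⟨y, ⟨hy, u, hu, hgu⟩, rfl⟩
      induction y using Sym2.ind with
      | _ i j =>
      refine ⟨hy, emb u, ?_, hgu⟩
      exact Sym2.mem_map.2 ⟨u, hu, rfl⟩
    · induction z using Sym2.ind with
      | _ v w =>
      rintro ⟨hvw, u, hu, hgu⟩
      have hadj : G.Adj v w := hvw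
      have hvw' : v ∈ S ∧ w ∈ S := by
        rcases Sym2.mem_iff.1 hu with rfl | rfl
        · exact ⟨Or.inl hgu, hout w u hadj.symm hgu⟩
        · exact ⟨hout v u hadj hgu, Or.inl hgu⟩
      obtain ⟨i, rfl⟩ := hsurj v hvw'.1
      obtain ⟨j, rfl⟩ := hsurj w hvw'.2
      refine ⟨s(i, j), ⟨hadj, ?_⟩, rfl⟩
      rcases Sym2.mem_iff.1 hu with h | h
      · exact ⟨i, Sym2.mem_mk_left _ _, by rw [h] at hgu; exact hgu⟩
      · exact ⟨j, Sym2.mem_mk_right _ _, by rw [h] at hgu; exact hgu⟩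
  · intro hF
    apply hfree
    exact hF.trans ⟨(SimpleGraph.Embedding.comap ⟨emb, hinj⟩ G).toCopy⟩
  · rintro ⟨c⟩
    apply hcol
    -- colours on S
    have hC : ∃ C : V → Fin r, ∀ v ∈ S, ∀ w ∈ S, G.Adj v w → C v ≠ C w := by
      have hr0 : 0 < r := by omega
      refine ⟨fun v => if h : v ∈ S then c (e ⟨v, h⟩) else ⟨0, hr0⟩, ?_⟩
      intro v hv w hw hvw
      simp only [hv, hw, dif_pos]
      apply c.valid
      show G.Adj (emb (e ⟨v, hv⟩)) (emb (e ⟨w, hw⟩))
      simpa [hemb] using hvw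
    obtain ⟨C, hC⟩ := hC
    have hCq : Function.Injective fun t => C (q t) := by
      intro t t' htt
      by_contra hne
      apply hC (q t) (hqS t) (q t') (hqS t') _ htt
      apply hqadj t (q t')
      · rw [hgq]; simp
      · rw [hgq]
        intro h
        exact hne (Option.some_injective _ h).symm
    have hCs : Function.Surjective fun t => C (q t) := Finite.surjective_of_injective hCq
    have hCv : ∀ v ∈ S, ∀ t, g v = some t → C v = C (q t) := by
      intro v hv t ht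
      obtain ⟨t', ht'⟩ := hCs (C v)
      have ht'' : C (q t') = C v := ht'
      by_cases h : t' = t
      · rw [← ht'', h]
      · exfalso
        apply hC (q t') (hqS t') v hv _ ht''
        apply hqadj t' v
        · rw [ht]; simp
        · rw [ht]
          intro h'
          exact h (Option.some_injective _ h').symm
    refine ⟨SimpleGraph.Coloring.mk (fun v => match g v with
      | some t => C (q t)
      | none => C v) ?_⟩
    intro v w hvw
    rcases hv : g v with _ | t <;> rcases hw : g w with _ | t'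
    · exact hC v (Or.inl hv) w (Or.inl hw) hvw
    · have hwS := hout w v hvw.symm hv
      show C v ≠ C (q t')
      rw [← hCv w hwS t' hw]
      exact hC v (Or.inl hv) w hwS hvw
    · have hvS := hout v w hvw hw
      show C (q t) ≠ C w
      rw [← hCv v hvS t hv]
      exact hC v hvS w (Or.inl hw) hvw
    · show C (q t) ≠ C (q t')
      intro h
      have htt : t = t' := hCq h
      exact hind v w (by rw [hv]; simp) (by rw [hv, hw, htt]) hvw
  · intro i
    by_cases hi : g (emb i) = none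
    · obtain ⟨w, hw⟩ := hiso (emb i)
      obtain ⟨j, rfl⟩ := hsurj w (hout w (emb i) hw.symm hi)
      exact ⟨j, hw⟩
    · obtain ⟨t, ht⟩ := Option.ne_none_iff_exists'.1 hi
      have hne : ∃ t' : Fin r, t' ≠ t := by
        have : Nontrivial (Fin r) := Fin.nontrivial_iff_two_le.2 (by omega)
        exact exists_ne t
      obtain ⟨t', ht'⟩ := hne
      obtain ⟨j, hj⟩ := hsurj (q t') (hqS t')
      refine ⟨j, ?_⟩
      show G.Adj (emb i) (emb j)
      rw [hj]
      exact (hqadj t' (emb i) hi (by rw [ht]; intro h; exact ht' (Option.some_injective _ h).symm)).symm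

theorem REDS_part (V : Type) [Fintype V] {r : ℕ} {σ : Fin r → ℕ} (f : V → Option (Fin r))
    (hs : ∀ t, {v | f v = some t}.ncard = σ t) (t : Fin r) :
    ∑ j, (if f j = some t then (1 : ℝ) else 0) = σ t := by
  classical
  rw [Finset.sum_boole, ← hs t, Set.ncard_eq_toFinset_card']
  congr 2
  ext j
  simp

theorem REDS_ne_none {V : Type} {r : ℕ} (f : V → Option (Fin r)) (j : V) :
    (if f j ≠ none then (1 : ℝ) else 0) = ∑ t, if f j = some t then (1 : ℝ) else 0 := by
  cases hj : f j with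
  | none => simp
  | some u => simp

theorem REDS_core (V : Type) [Fintype V] {r : ℕ} {σ : Fin r → ℕ} (f : V → Option (Fin r))
    (hs : ∀ t, {v | f v = some t}.ncard = σ t) :
    ∑ j, (if f j ≠ none then (1 : ℝ) else 0) = ∑ t, (σ t : ℝ) := by
  simp_rw [REDS_ne_none f]
  rw [Finset.sum_comm]
  exact Finset.sum_congr rfl fun t _ => REDS_part V f hs t

theorem REDS_tot (V : Type) [Fintype V] {r : ℕ} {σ : Fin r → ℕ} (f : V → Option (Fin r))
    (hs : ∀ t, {v | f v = some t}.ncard = σ t) :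
    ∑ i, ∑ j, (if f i ≠ none ∧ f j ≠ none ∧ f i ≠ f j then (1 : ℝ) else 0) =
      (∑ t, (σ t : ℝ)) ^ 2 - ∑ t, (σ t : ℝ) ^ 2 := by
  classical
  have h2 : ∀ i, ∑ j, (if f i ≠ none ∧ f j ≠ none ∧ f i ≠ f j then (1 : ℝ) else 0) =
      ∑ t, (if f i = some t then (1 : ℝ) else 0) * (∑ s, (σ s : ℝ) - σ t) := by
    intro i
    cases hi : f i with
    | none => simp
    | some t =>
      have h3 : ∀ j, (if some t ≠ none ∧ f j ≠ none ∧ some t ≠ f j then (1 : ℝ) else 0) =
          (if f j ≠ none then (1 : ℝ) else 0) - (if f j = some t then (1 : ℝ) else 0) := by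
        intro j
        cases hj : f j with
        | none => simp
        | some u =>
          by_cases e : u = t
          · subst e; simp
          · have e' : ¬ t = u := fun h => e h.symm
            simp [e, e']
      simp_rw [h3]
      rw [Finset.sum_sub_distrib, REDS_core V f hs, REDS_part V f hs t]
      symm
      refine (Finset.sum_eq_single t ?_ ?_).trans ?_
      · intro u _ hu
        rw [if_neg (fun h => hu (Option.some_injective _ h).symm), zero_mul]
      · intro h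
        exact absurd (Finset.mem_univ t) h
      · rw [if_pos rfl, one_mul]
  simp_rw [h2]
  rw [Finset.sum_comm]
  have h4 : ∀ t, ∑ i, (if f i = some t then (1 : ℝ) else 0) * (∑ s, (σ s : ℝ) - σ t) =
      (∑ s, (σ s : ℝ)) * σ t - (σ t : ℝ) ^ 2 := by
    intro t
    rw [← Finset.sum_mul, REDS_part V f hs t]
    ring
  simp_rw [h4]
  rw [Finset.sum_sub_distrib, ← Finset.mul_sum]
  ring

theorem REDS_main {r : ℕ} {σ : Fin r → ℕ} {a b : ℕ} (V : Type) [Fintype V] (G : SimpleGraph V)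
    (f : V → Option (Fin r)) (hM : IsModS σ a b G f) :
    (∑ i, ∑ j, adj (LOW_Gc G f) i j) + 2 * a = (∑ t, (σ t : ℝ)) ^ 2 - ∑ t, (σ t : ℝ) ^ 2 ∧
      2 * (G.edgeSet.ncard : ℝ) = (∑ i, ∑ j, adj (LOW_Gc G f) i j) + 2 * b := by
  classical
  constructor
  · have h1 := LOW_edg V (LOW_Gm G f)
    rw [LOW_edgeGm, hM.miss] at h1
    rw [← h1, ← REDS_tot V f hM.size, ← Finset.sum_add_distrib]
    refine Finset.sum_congr rfl fun i _ => ?_
    rw [← Finset.sum_add_distrib]
    refine Finset.sum_congr rfl fun j _ => ?_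
    rw [LOW_split2 G f hM.indep i j]
  · have h1 := LOW_edg V (LOW_Go G f)
    rw [LOW_edgeGo, hM.outer] at h1
    rw [← h1, ← LOW_edg V G, ← Finset.sum_add_distrib]
    refine Finset.sum_congr rfl fun i _ => ?_
    rw [← Finset.sum_add_distrib]
    exact Finset.sum_congr rfl fun j _ => LOW_split1 G f i j

theorem prfREDS : REDS_statement ∧ CNTS_statement := by
  refine ⟨REDS_red, ?_⟩
  intro r σ a b V _ G f hM
  obtain ⟨h1, h2⟩ := REDS_main V G f hM
  have h3 : ((2 * G.edgeSet.ncard + 2 * a + ∑ t, σ t ^ 2 : ℕ) : ℝ) =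
      (((∑ t, σ t) ^ 2 + 2 * b : ℕ) : ℝ) := by
    push_cast
    linarith
  exact_mod_cast h3

end MP0c3a8f

end

section

/-!
# MP_0c3a8f_co, extension: item REM, removal of an edge of the core (helper26)
-/

open Finset

namespace MP0c3a8f

theorem REM_two {V : Type} [Fintype V] (P Q : Set V) (h : Q.ncard + 2 ≤ P.ncard) :
    ∃ q v, q ∈ P ∧ v ∈ P ∧ q ∉ Q ∧ v ∉ Q ∧ q ≠ v := by
  have h1 : 1 < (P \ Q).ncard := by
    have := Set.le_ncard_sdiff Q P (Set.toFinite _)
    omega
  obtain ⟨q, hq, v, hv, hne⟩ := (Set.one_lt_ncard (Set.toFinite _)).1 h1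
  exact ⟨q, v, hq.1, hv.1, hq.2, hv.2, hne⟩

open IRED in
theorem prfREM : RED_statement → REM_statement := by
  classical
  intro _ W _ F r a b hr hreal s₀
  obtain ⟨s, hs, k, G, f, hM, hfree, hcol, hiso⟩ := hreal (max s₀ (2 * (a + b) + 2))
  have hs1 : s₀ ≤ s := le_trans (le_max_left _ _) hs
  have hs2 : 2 * (a + b) + 2 ≤ s := le_trans (le_max_right _ _) hs
  have hSp : (Sp G f).ncard ≤ 2 * (a + b) := by
    have := card_Sp G f
    rw [hM.miss, hM.outer] at this
    exact this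
  choose q v hq hv hqS hvS hqv using fun t : Fin r =>
    REM_two {i | f i = some t} (Sp G f) (by rw [hM.size t]; omega)
  have hfq : ∀ t, f (q t) = some t := hq
  have hfv : ∀ t, f (v t) = some t := hv
  -- adjacency of non special vertices
  have hadj : ∀ x y, x ∉ Sp G f → f x ≠ none → f y ≠ none → f x ≠ f y → G.Adj x y := by
    intro x y hx hfx hfy hne
    by_contra h
    exact hx ⟨hfx, Or.inl ⟨y, hfy, hne, h⟩⟩
  let t1 : Fin r := ⟨0, by omega⟩
  let t2 : Fin r := ⟨1, by omega⟩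
  let t3 : Fin r := ⟨2, by omega⟩
  have h12 : t1 ≠ t2 := by simp [t1, t2]
  have h13 : t1 ≠ t3 := by simp [t1, t3]
  have h23 : t2 ≠ t3 := by simp [t2, t3]
  have hne1 : ∀ t, f (v t) ≠ none := fun t => by rw [hfv t]; simp
  have hne2 : ∀ t, f (q t) ≠ none := fun t => by rw [hfq t]; simp
  have hvv : ∀ t t', v t = v t' → t = t' := by
    intro t t' h
    have h1 := congrArg f h
    rw [hfv, hfv] at h1
    exact Option.some_injective _ h1
  have hqq : ∀ t t', q t = q t' → t = t' := by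
    intro t t' h
    have h1 := congrArg f h
    rw [hfq, hfq] at h1
    exact Option.some_injective _ h1
  have hqv' : ∀ t t', q t ≠ v t' := by
    intro t t' h
    have h1 := congrArg f h
    rw [hfq, hfv] at h1
    have h2 : t = t' := Option.some_injective _ h1
    subst h2
    exact hqv t h
  have hA12 : G.Adj (v t1) (v t2) := hadj _ _ (hvS t1) (hne1 _) (hne1 _) (by
    rw [hfv, hfv]
    exact fun h => h12 (Option.some_injective _ h))
  set G' : SimpleGraph (Fin k) := G.deleteEdges {s(v t1, v t2)} with hG'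
  have hG'adj : ∀ x y, G'.Adj x y ↔ G.Adj x y ∧ s(x, y) ≠ s(v t1, v t2) := by
    intro x y
    rw [hG', SimpleGraph.deleteEdges_adj]
    simp
  have hle : G' ≤ G := SimpleGraph.deleteEdges_le _
  have hq1 : ∀ t y, s(q t, y) ≠ s(v t1, v t2) := by
    intro t y h
    have h1 : q t ∈ s(v t1, v t2) := h ▸ Sym2.mem_mk_left _ _
    rcases Sym2.mem_iff.1 h1 with h2 | h2
    · exact hqv' _ _ h2
    · exact hqv' _ _ h2
  refine ⟨s, hs1, k, G', f, ⟨hM.size, ?_, ?_, ?_⟩, ?_, ?_, ?_⟩
  · intro x y hx hxy h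
    exact hM.indep x y hx hxy (hle h)
  · have e : missSet G' f = insert s(v t1, v t2) (missSet G f) := by
      ext z
      constructor
      · rintro ⟨x, y, rfl, hx, hy, hne, hn⟩
        by_cases h : s(x, y) = s(v t1, v t2)
        · exact Or.inl h
        · exact Or.inr ⟨x, y, rfl, hx, hy, hne, fun h' => hn ((hG'adj x y).2 ⟨h', h⟩)⟩
      · rintro (rfl | ⟨x, y, rfl, hx, hy, hne, hn⟩)
        · refine ⟨v t1, v t2, rfl, hne1 _, hne1 _, ?_, ?_⟩
          · rw [hfv, hfv]
            exact fun h => h12 (Option.some_injective _ h)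
          · intro h
            exact ((hG'adj _ _).1 h).2 rfl
        · exact ⟨x, y, rfl, hx, hy, hne, fun h' => hn (hle h')⟩
    rw [e, Set.ncard_insert_of_notMem, hM.miss]
    rintro ⟨x, y, hxy, -, -, -, hn⟩
    apply hn
    have h1 : s(v t1, v t2) ∈ G.edgeSet := hA12
    rw [hxy] at h1
    exact h1
  · have e : outSet G' f = outSet G f := by
      ext z
      induction z using Sym2.ind with
      | _ x y =>
      constructor
      · rintro ⟨h1, h2⟩
        exact ⟨hle h1, h2⟩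
      · rintro ⟨h1, u, hu, hfu⟩
        refine ⟨?_, u, hu, hfu⟩
        show G'.Adj x y
        rw [hG'adj]
        refine ⟨h1, fun h => ?_⟩
        rw [h] at hu
        rcases Sym2.mem_iff.1 hu with rfl | rfl
        · exact hne1 _ hfu
        · exact hne1 _ hfu
    rw [e, hM.outer]
  · intro hF
    exact hfree (hF.mono_right hle)
  · rintro ⟨c⟩
    apply hcol
    have hc : Function.Injective fun t => c (q t) := by
      intro t t' htt
      by_contra hne
      refine c.valid ((hG'adj _ _).2 ⟨hadj (q t) (q t') (hqS t) (hne2 _) (hne2 _) ?_, hq1 _ _⟩) htt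
      rw [hfq, hfq]
      exact fun h => hne (Option.some_injective _ h)
    have hs : Function.Surjective fun t => c (q t) := Finite.surjective_of_injective hc
    have hcv : ∀ t, c (v t) = c (q t) := by
      intro t
      obtain ⟨t', ht'⟩ := hs (c (v t))
      have ht'' : c (q t') = c (v t) := ht'
      by_cases h : t' = t
      · rw [← ht'', h]
      · exfalso
        refine c.valid ((hG'adj _ _).2 ⟨hadj (q t') (v t) (hqS t') (hne2 _) (hne1 _) ?_, hq1 _ _⟩) ht''
        rw [hfq, hfv]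
        exact fun h' => h (Option.some_injective _ h')
    refine ⟨SimpleGraph.Coloring.mk c ?_⟩
    intro x y hxy
    by_cases h : s(x, y) = s(v t1, v t2)
    · have h0 : c (v t1) ≠ c (v t2) := by
        rw [hcv, hcv]
        exact fun h' => h12 (hc h')
      rcases Sym2.eq_iff.1 h with ⟨rfl, rfl⟩ | ⟨rfl, rfl⟩
      · exact h0
      · exact h0.symm
    · exact c.valid ((hG'adj _ _).2 ⟨hxy, h⟩)
  · intro x
    obtain ⟨y, hxy⟩ := hiso x
    by_cases h : s(x, y) = s(v t1, v t2)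
    · have hx : ∃ t, t ≠ t3 ∧ x = v t := by
        rcases Sym2.eq_iff.1 h with ⟨h1, _⟩ | ⟨h1, _⟩
        · exact ⟨t1, h13, h1⟩
        · exact ⟨t2, h23, h1⟩
      obtain ⟨t, ht, rfl⟩ := hx
      refine ⟨q t3, ((hG'adj _ _).2 ⟨hadj (q t3) (v t) (hqS _) (hne2 _) (hne1 _) ?_, hq1 _ _⟩).symm⟩
      rw [hfq, hfv]
      exact fun h' => ht (Option.some_injective _ h').symm
    · exact ⟨y, (hG'adj _ _).2 ⟨hxy, h⟩⟩

end MP0c3a8f

end

section

/-! # MP_0c3a8f_co, phase B: item CHP -/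

set_option autoImplicit false

open Finset

namespace MP0c3a8f

open Classical in
/-- the part of the cost at the vertex `v` -/
noncomputable def CHPs {V : Type} [Fintype V] {r : ℕ} (G : SimpleGraph V) (z : V → ℝ)
    (f : V → Option (Fin r)) (v : V) : ℝ :=
  (∑ u, adj G v u * (z v * z u - 1) ^ 2) +
    ∑ u, if f v ≠ none ∧ f u ≠ none ∧ f v ≠ f u ∧ ¬ G.Adj v u then z v ^ 2 * z u ^ 2 else 0

theorem CHPs_nonneg {V : Type} [Fintype V] {r : ℕ} (G : SimpleGraph V) (z : V → ℝ)
    (f : V → Option (Fin r)) (v : V) : 0 ≤ CHPs G z f v := by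
  unfold CHPs
  refine add_nonneg (Finset.sum_nonneg fun u _ => ?_) (Finset.sum_nonneg fun u _ => ?_)
  · have : 0 ≤ adj G v u := by unfold adj; split_ifs <;> norm_num
    positivity
  · split_ifs
    · positivity
    · exact le_rfl

theorem prfCHP : CHP_statement := by
  classical
  intro r C M V _ G z f hC hM hL t
  by_contra hcon
  push Not at hcon
  have hadj : ∀ v u, 0 ≤ adj G v u := by
    intro v u; unfold adj; split_ifs <;> norm_num
  -- the sum of the parts
  have hsum : ∑ v, CHPs G z f v ≤ 2 * C * M := by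
    unfold CHPs
    rw [Finset.sum_add_distrib]
    have h1 := hL.ed
    have h2 := hL.ms
    unfold miss at h2
    have h3 : (∑ x, ∑ u, if f x ≠ none ∧ f u ≠ none ∧ f x ≠ f u ∧ ¬ G.Adj x u
        then z x ^ 2 * z u ^ 2 else 0) ≤ C * M := h2
    linarith
  -- the key inequality
  have key : ∀ v, f v = some t → z v ^ 2 ≠ 0 → z v ^ 2 * (2 * C ^ 2) < CHPs G z f v := by
    intro v hv hz
    have hz0 : z v ≠ 0 := fun h => hz (by rw [h]; ring)
    have hzp : 0 < z v := lt_of_le_of_ne (hL.nonneg v) (Ne.symm hz0)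
    have hnc := hcon v hv
    have hA0 : 0 ≤ ∑ u, adj G v u * (z u - 1 / z v) ^ 2 :=
      Finset.sum_nonneg fun u _ => mul_nonneg (hadj v u) (sq_nonneg _)
    have hB0 : 0 ≤ ∑ u, if f u ≠ none ∧ f u ≠ f v ∧ ¬ G.Adj v u then z u ^ 2 else 0 := by
      refine Finset.sum_nonneg fun u _ => ?_
      split_ifs
      · positivity
      · exact le_rfl
    have hAB : 2 * C ^ 2 < (∑ u, adj G v u * (z u - 1 / z v) ^ 2) +
        ∑ u, if f u ≠ none ∧ f u ≠ f v ∧ ¬ G.Adj v u then z u ^ 2 else 0 := by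
      by_contra hle
      push Not at hle
      apply hnc
      refine ⟨hzp, ?_, ?_⟩
      · linarith
      · linarith
    have hS : CHPs G z f v = z v ^ 2 * ((∑ u, adj G v u * (z u - 1 / z v) ^ 2) +
        ∑ u, if f u ≠ none ∧ f u ≠ f v ∧ ¬ G.Adj v u then z u ^ 2 else 0) := by
      unfold CHPs
      rw [mul_add, Finset.mul_sum, Finset.mul_sum]
      congr 1
      · refine Finset.sum_congr rfl fun u _ => ?_
        have : z v * z u - 1 = z v * (z u - 1 / z v) := by field_simp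
        rw [this]; ring
      · refine Finset.sum_congr rfl fun u _ => ?_
        by_cases hc : f u ≠ none ∧ f u ≠ f v ∧ ¬ G.Adj v u
        · rw [if_pos hc, if_pos ⟨by rw [hv]; exact Option.some_ne_none t, hc.1,
            fun h => hc.2.1 h.symm, hc.2.2⟩]
        · rw [if_neg hc, if_neg, mul_zero]
          rintro ⟨_, h2, h3, h4⟩
          exact hc ⟨h2, fun h => h3 h.symm, h4⟩
    rw [hS]
    exact mul_lt_mul_of_pos_left hAB (by positivity)
  have hle : ∀ v, (if f v = some t then z v ^ 2 else 0) * (2 * C ^ 2) ≤ CHPs G z f v := by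
    intro v
    split_ifs with hv
    · by_cases hz : z v ^ 2 = 0
      · rw [hz, zero_mul]; exact CHPs_nonneg G z f v
      · exact (key v hv hz).le
    · rw [zero_mul]; exact CHPs_nonneg G z f v
  have hcls := hL.cls t
  unfold cw at hcls
  have hcls' : M / C ≤ ∑ i, if f i = some t then z i ^ 2 else 0 := hcls
  have hCp : 0 < C := by linarith
  have hpos : 0 < ∑ i, if f i = some t then z i ^ 2 else 0 := lt_of_lt_of_le (by positivity) hcls'
  obtain ⟨v₀, _, hv₀⟩ := Finset.exists_ne_zero_of_sum_ne_zero hpos.ne'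
  have hlt : ∑ v, (if f v = some t then z v ^ 2 else 0) * (2 * C ^ 2) <
      ∑ v, CHPs G z f v := by
    refine Finset.sum_lt_sum (fun v _ => hle v) ⟨v₀, Finset.mem_univ _, ?_⟩
    split_ifs at hv₀ ⊢ with h
    · exact key v₀ h hv₀
    · exact absurd rfl hv₀
  rw [← Finset.sum_mul] at hlt
  have h5 : M / C * (2 * C ^ 2) ≤
      (∑ i, if f i = some t then z i ^ 2 else 0) * (2 * C ^ 2) :=
    mul_le_mul_of_nonneg_right hcls' (by positivity)
  have h6 : M / C * (2 * C ^ 2) = 2 * C * M := by field_simp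
  linarith

end MP0c3a8f

end

section

/-!
# (EMBZ) two classes with few neighbours
-/

set_option autoImplicit false

namespace MP0c3a8f

theorem EMBZ_inj {V : Type} [Finite V] (s : Set V) (k : ℕ) (h : k ≤ s.ncard) :
    ∃ e : Fin k → V, Function.Injective e ∧ ∀ i, e i ∈ s := by
  have h1 : k ≤ Nat.card s := by rwa [Nat.card_coe_set_eq]
  refine ⟨fun i => ((Finite.equivFin s).symm (Fin.castLE h1 i)).1, ?_, fun i => Subtype.coe_prop _⟩
  intro i j hij
  have h2 := (Finite.equivFin s).symm.injective (Subtype.ext hij)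
  exact Fin.castLE_injective h1 h2

theorem prfEMBZ (h2 : E2_statement) : EMBZ_statement := by
  intro W _ F r hr hF V _ G f w hT hfree hsiz hnb
  classical
  by_contra hcon
  push Not at hcon
  have h3 : ∃ t₀ : Fin r, ∀ t, t ≠ t₀ → Fintype.card W + 1 ≤ nbn G f w t := by
    by_cases h : ∃ t₀, nbn G f w t₀ ≤ Fintype.card W
    · obtain ⟨t₀, ht₀⟩ := h
      exact ⟨t₀, fun t ht => hcon t₀ t (Ne.symm ht) ht₀⟩
    · push Not at h
      exact ⟨⟨0, by omega⟩, fun t _ => h t⟩
  obtain ⟨t₀, ht₀⟩ := h3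
  have h4 : ∃ w', f w' = some t₀ ∧ G.Adj w w' := by
    have h5 : {v | f v = some t₀ ∧ G.Adj w v}.ncard ≠ 0 := by
      have := hnb t₀
      unfold nbn at this
      omega
    obtain ⟨v, hv⟩ := Set.nonempty_of_ncard_ne_zero h5
    exact ⟨v, hv⟩
  obtain ⟨w', hw', hadj⟩ := h4
  have h5 : ∀ t, ∃ e : Fin (Fintype.card W) → V, Function.Injective e ∧ (∀ i, f (e i) = some t) ∧
      (t ≠ t₀ → ∀ i, G.Adj w (e i)) ∧ (t = t₀ → ∀ i, e i ≠ w') := by
    intro t
    by_cases h : t = t₀
    · obtain ⟨e, he, he'⟩ := EMBZ_inj ({v | f v = some t} \ {w'}) (Fintype.card W) (by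
        have h6 := hsiz t
        unfold siz at h6
        have h7 : ({v | f v = some t} \ {w'} : Set V).ncard = {v | f v = some t}.ncard - 1 :=
          Set.ncard_sdiff_singleton_of_mem (by rw [h]; exact hw')
        omega)
      exact ⟨e, he, fun i => (he' i).1, fun h' => absurd h h', fun _ i => (he' i).2⟩
    · obtain ⟨e, he, he'⟩ := EMBZ_inj {v | f v = some t ∧ G.Adj w v} (Fintype.card W) (by
        have h6 := ht₀ t h
        unfold nbn at h6
        omega)
      exact ⟨e, he, fun i => (he' i).1, fun _ i => (he' i).2, fun h' => absurd h' h⟩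
  choose e he hf hw hne using h5
  have hnone : ∀ t i, f (e t i) ≠ none := fun t i => by rw [hf]; simp
  refine h2 W F r hF V G w w' t₀ e he ?_ hadj ?_ ?_ hfree
  · intro s t i j hst
    rw [hT.core _ _ (hnone s i) (hnone t j), hf, hf]
    intro h
    exact hst (Option.some.inj h)
  · intro t i ht
    refine ⟨hw t ht i, ?_⟩
    rw [hT.core _ _ (by rw [hw']; simp) (hnone t i), hf, hw']
    intro h
    exact ht (Option.some.inj h).symm
  · intro i
    refine ⟨?_, hne t₀ rfl i⟩
    intro h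
    exact hnone t₀ i ((hT.out _).2 h)

end MP0c3a8f

end

section

/-!
# MP_0c3a8f_co, phase B: the final theorem for generic color-critical graphs
-/

set_option autoImplicit false

open Finset

namespace MP0c3a8f

namespace GENX

/-- balanced sizes are the sizes of the classes of the Turán graph -/
theorem perm (hDEV : DEV_statement) {r n : ℕ} (hr : 1 ≤ r) (σ : Fin r → ℕ)
    (hb : ∀ t, n / r ≤ σ t ∧ σ t ≤ n / r + 1) (hs : ∑ t, σ t = n) :
    ∃ π : Equiv.Perm (Fin r), ∀ t, σ t = tz r n (π t) := by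
  obtain ⟨h1, _, _, _, h5, _⟩ := hDEV r n σ hr hs
  apply h5
  have key : ∀ τ : Fin r → ℕ, (∀ t, n / r ≤ τ t ∧ τ t ≤ n / r + 1) → ∑ t, τ t = n →
      (2 * (n / r) + 1) * n = ∑ t, τ t ^ 2 + r * (n / r * (n / r + 1)) := by
    intro τ hτ hn
    have e2 : ∑ t, (2 * (n / r) + 1) * τ t = ∑ t, (τ t ^ 2 + n / r * (n / r + 1)) := by
      refine Finset.sum_congr rfl fun t _ => ?_
      have h3 : τ t = n / r ∨ τ t = n / r + 1 := by
        have := hτ t
        omega
      rcases h3 with h3 | h3 <;> rw [h3] <;> ring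
    rw [← Finset.mul_sum, hn, Finset.sum_add_distrib, Finset.sum_const, Finset.card_univ,
      Fintype.card_fin, smul_eq_mul] at e2
    exact e2
  have k1 := key σ hb hs
  have k2 := key (tz r n) (fun t => by unfold tz; split_ifs <;> omega) h1
  omega

theorem tz_pos {r n : ℕ} (hr : 1 ≤ r) (hn : r ≤ n) (t : Fin r) : 1 ≤ tz r n t := by
  have : 1 ≤ n / r := (Nat.one_le_div_iff (by omega)).2 hn
  unfold tz
  omega

/-- the graphs of the family are in the class -/
theorem mem (hDEV : DEV_statement) (hMEMZ : MEMZ_statement) {W : Type} {F : SimpleGraph W}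
    {r n D : ℕ} (hr : 3 ≤ r) (hn : r ≤ n) {V : Type} [Fintype V] {G : SimpleGraph V}
    (h : IsG0 r n D G) (hF : F.Free G) :
    InN r ((SimpleGraph.turanGraph n r).edgeSet.ncard + D) F G := by
  obtain ⟨f, w, hT, hs, hd, hp⟩ := h
  obtain ⟨m1, m2, m3⟩ := hMEMZ r V G f w hr hT
    (fun t => by rw [hs t]; exact tz_pos (by omega) hn t)
  obtain ⟨σ, hσ⟩ : ∃ σ : Fin r → ℕ, ∑ t, σ t = n := by
    refine ⟨fun t => if t = ⟨0, by omega⟩ then n else 0, ?_⟩
    simp
  obtain ⟨d1, _, _, _, _, d6⟩ := hDEV r n σ (by omega) hσ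
  unfold Sz at d6
  refine ⟨hF, ?_, m2 ?_, ?_⟩
  · rw [hd] at m3
    simp only [hs] at m3
    omega
  · calc 1 ≤ nbn G f w ⟨0, by omega⟩ := hp _
      _ ≤ ∑ t, nbn G f w t := Finset.single_le_sum (fun t _ => Nat.zero_le _) (mem_univ _)
  · rw [m1]
    rintro ⟨t, ht⟩
    have := hp t
    omega

/-- relabelling -/
theorem isG0 (hDEV : DEV_statement) (hREL : REL_statement) {r n D : ℕ} (hr : 3 ≤ r)
    {V : Type} [Fintype V] {G : SimpleGraph V} {f : V → Option (Fin r)} {w : V}
    (hT : Ty0 G f w) (hB : Bal n f) (hd : ∑ t, nbn G f w t = D)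
    (hp : ∀ t, 1 ≤ nbn G f w t) : IsG0 r n D G := by
  obtain ⟨π, hπ⟩ := perm hDEV (by omega) (siz f) hB.1 hB.2
  obtain ⟨r1, r2, _, _⟩ := hREL r V G f π
  have hnb : ∀ t, nbn G (fun v => (f v).map π) w t = nbn G f w (π.symm t) := by
    intro t
    have := r2 w (π.symm t)
    rwa [Equiv.apply_symm_apply] at this
  have hnone : ∀ v, (f v).map π = none ↔ f v = none := fun v => Option.map_eq_none_iff
  refine ⟨fun v => (f v).map π, w, ⟨?_, ?_⟩, ?_, ?_, ?_⟩
  · intro v
    show (f v).map π = none ↔ v = w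
    rw [hnone, hT.out]
  · intro u v hu hv
    show G.Adj u v ↔ (f u).map π ≠ (f v).map π
    rw [hT.core u v (fun h => hu ((hnone u).2 h)) (fun h => hv ((hnone v).2 h))]
    exact not_congr (Option.map_injective π.injective).eq_iff.symm
  · intro t
    have h1 := r1 (π.symm t)
    rw [Equiv.apply_symm_apply] at h1
    rw [h1, hπ (π.symm t), Equiv.apply_symm_apply]
  · rw [← hd, ← Equiv.sum_comp π.symm (nbn G f w)]
    exact Finset.sum_congr rfl fun t _ => hnb t
  · intro t
    rw [hnb]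
    exact hp _

end GENX

theorem prfGENX : P_statement → DEV_statement → REL_statement → MEMZ_statement →
    TOPZ_statement → GENX_statement := by
  intro _ hDEV hREL hMEMZ hTOPZ W _ F r ε hr hcr hcol hgen hε
  obtain ⟨n₀, hn₀⟩ := hTOPZ W F r ε hr hcr hcol hgen hε
  refine ⟨n₀ + r, ?_⟩
  intro n hn D hD
  obtain ⟨hex, hmx⟩ := hn₀ n (by omega) D hD
  have fwd : ∀ (V : Type) [Fintype V] (G : SimpleGraph V), MxF r n D F G →
      IsG0 r n D G ∧ F.Free G := by
    intro V _ G hG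
    obtain ⟨f, w, h1, h2, h3, h4⟩ := hmx V G hG
    exact ⟨GENX.isG0 hDEV hREL hr h1 h2 h3 h4, hG.1.free⟩
  refine ⟨hex, ?_⟩
  intro V _ G
  constructor
  · intro hG
    refine ⟨fwd V G hG, ?_⟩
    intro U _ H hH hFH
    exact hG.2 U H (GENX.mem hDEV hMEMZ hr (by omega) hH hFH)
  · rintro ⟨⟨h1, h2⟩, h3⟩
    refine ⟨GENX.mem hDEV hMEMZ hr (by omega) h1 h2, ?_⟩
    intro U _ H hH
    obtain ⟨k, M, hM⟩ := hex
    obtain ⟨g1, g2⟩ := fwd (Fin k) M hM
    exact (hM.2 U H hH).trans (h3 (Fin k) M g1 g2)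

end MP0c3a8f

end
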