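import Mathlib
import Pool.Agent.Work.MP_0c3a8f_co.PB.Stmts6
import Pool.Agent.Work.MP_0c3a8f_co.ItemP
import Pool.Agent.Work.MP_0c3a8f_co.PB.Stmts7
import Pool.Agent.Work.MP_0c3a8f_co.PB.Stmts8
import Pool.Agent.Work.MP_0c3a8f_co.Bd.B03

/-! Bundle of small proof modules (one section per former module). -/

section

/-!
# MP_0c3a8f_co, phase B, item BLA: few light edges or no missing pairs
-/

open Finset

namespace MP0c3a8f

namespace ItemBLA

theorem isKU0 {V : Type} {r : ℕ} {G : SimpleGraph V} {g : V → Option (Fin r)} :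
    IsKU (KU G g ∅) g ∅ where
  core u v hu hv := by
    change (g u ≠ none ∧ g v ≠ none ∧ g u ≠ g v) ∨ _ ↔ _
    constructor
    · rintro (h | h)
      · exact h.2.2
      · rcases h.2.1 with h1 | h1 <;> simp at h1
    · intro h
      exact Or.inl ⟨hu, hv, h⟩
  exc v hv := by simp at hv
  iso u v hu _ := by
    rintro (h | h)
    · exact h.1 hu
    · rcases h.2.1 with h1 | h1 <;> simp at h1

theorem light_empty {V : Type} {r : ℕ} (G : SimpleGraph V) (g : V → Option (Fin r)) :
    lightSet G g ∅ = outSet G g := by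
  ext e
  simp [lightSet, outSet]

theorem lam_nonneg {V : Type} [Fintype V] (v : V) (G : SimpleGraph V) : 0 ≤ lam G := by
  have : Nonempty V := ⟨v⟩
  exact (prfP V G).1

/-- the number of edges -/
theorem count0 (hC : CNTU_statement) {V : Type} [Fintype V] {r n : ℕ} {G : SimpleGraph V}
    {g : V → Option (Fin r)} (hi : Indep G g) (ht : ∑ t, siz g t = n) :
    2 * G.edgeSet.ncard + 2 * (missSet G g).ncard + ∑ t, siz g t ^ 2 =
      n ^ 2 + 2 * (outSet G g).ncard := by
  obtain ⟨e, he, h1⟩ := hC r V G g ∅ hi (by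
    intro v hv
    exact absurd hv (Finset.notMem_empty v))
  rw [Finset.card_empty] at he
  have he0 : e = 0 := by omega
  rw [he0, Finset.sum_empty, ht, light_empty] at h1
  omega

/-- the number of edges, one special vertex -/
theorem count1 (hC : CNTU_statement) {V : Type} [Fintype V] {r n : ℕ} {G : SimpleGraph V}
    {g : V → Option (Fin r)} {w : V} (hi : Indep G g) (hw : g w = none)
    (ht : ∑ t, siz g t = n) :
    2 * G.edgeSet.ncard + 2 * (missSet G g).ncard + ∑ t, siz g t ^ 2 =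
      n ^ 2 + 2 * (∑ t, nbn G g w t) + 2 * (lightSet G g {w}).ncard := by
  obtain ⟨e, he, h1⟩ := hC r V G g {w} hi (by
    intro v hv
    rw [Finset.mem_singleton.1 hv]
    exact hw)
  rw [Finset.card_singleton] at he
  have he0 : e = 0 := by omega
  rw [he0, Finset.sum_singleton, ht] at h1
  omega

/-- the classes are large -/
theorem large {V : Type} {r n : ℕ} (hr : 3 ≤ r) {C K : ℝ} (hC : 0 ≤ C)
    {g : V → Option (Fin r)} (ht : ∑ t, siz g t = n) (hd : dev (siz g) ≤ C * n)
    (hn : 1 ≤ Real.sqrt n) (hs : r * (Real.sqrt C + K) ≤ Real.sqrt n) (t : Fin r) :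
    K * Real.sqrt n ≤ siz g t := by
  have hR : (3 : ℝ) ≤ r := by exact_mod_cast hr
  have hR0 : (0 : ℝ) < r := by linarith
  obtain ⟨s, hsd⟩ : ∃ s : ℝ, s = Real.sqrt n := ⟨_, rfl⟩
  rw [← hsd] at hn hs ⊢
  have hs0 : 0 ≤ s := by linarith
  have hs2 : s * s = n := by rw [hsd]; exact Real.mul_self_sqrt (Nat.cast_nonneg n)
  have hsum : (∑ s, (siz g s : ℝ)) = n := by exact_mod_cast ht
  have h1 : ((siz g t : ℝ) - n / r) ^ 2 ≤ C * n := by
    refine le_trans ?_ hd
    unfold dev
    rw [hsum]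
    exact Finset.single_le_sum (f := fun t => ((siz g t : ℝ) - n / r) ^ 2)
      (fun i _ => sq_nonneg _) (Finset.mem_univ t)
  have h2 : |(siz g t : ℝ) - n / r| ≤ Real.sqrt C * s := by
    apply abs_le_of_sq_le_sq
    · calc ((siz g t : ℝ) - n / r) ^ 2 ≤ C * n := h1
        _ = (Real.sqrt C * s) ^ 2 := by
          rw [mul_pow, Real.sq_sqrt hC, ← hs2]
          ring
    · positivity
  have h3 := (abs_le.1 h2).1
  have h4 : (Real.sqrt C + K) * s ≤ n / r := by
    rw [le_div_iff₀ hR0]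
    calc (Real.sqrt C + K) * s * r = (r * (Real.sqrt C + K)) * s := by ring
      _ ≤ s * s := mul_le_mul_of_nonneg_right hs hs0
      _ = n := hs2
  linarith

/-- the integer inequality -/
theorem gap {q h lG lH lK : ℝ} {CU CL : ℝ} {a a' : ℕ} (hq : 2 / 3 ≤ q) (hh : 0 < h)
    (hc : CU + CL < h) (hG : lG ^ 2 ≤ lK ^ 2 - 4 * q * a + CU / h)
    (hH : lK ^ 2 - 4 * q * a' - CL / h ≤ lH ^ 2) (hl : lH ^ 2 ≤ lG ^ 2) : a ≤ a' := by
  by_contra hcon
  push Not at hcon
  have h1 : (a' : ℝ) + 1 ≤ a := by exact_mod_cast hcon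
  have h2 : CU / h + CL / h < 1 := by
    rw [← add_div, div_lt_one hh]
    exact hc
  have h3 : 4 * q * ((a' : ℝ) + 1) ≤ 4 * q * a := mul_le_mul_of_nonneg_left h1 (by linarith)
  linarith

end ItemBLA

open ItemBLA in
theorem prfBLA : CNTU_statement → MEMS_statement → MEMV_statement → UPL_statement →
    LOL_statement → TRK_statement → BLA_statement := by
  intro hCNTU hMEMS hMEMV hUPL hLOL hTRK W _ F r C hr hncol hC
  have hR : (3 : ℝ) ≤ r := by exact_mod_cast hr
  have hR0 : (0 : ℝ) < r := by linarith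
  obtain ⟨b2, n2, hS⟩ := hMEMS W F r hr hncol
  obtain ⟨b1, hb1, n1, hV⟩ := hMEMV W F r hr hncol (b2 + 1)
  obtain ⟨CU, nU, hCU0, hU⟩ := hUPL r C hr hC
  obtain ⟨CL, nL, hCL0, hL⟩ := hLOL r (C + 2 * b1) hr (by positivity)
  have hK0 : (0 : ℝ) ≤ n1 + n2 + C + b1 + 1 := by positivity
  obtain ⟨X, hX⟩ : ∃ X : ℝ, X = r * (Real.sqrt C + (n1 + n2 + C + b1 + 1)) +
      (CU + CL + 1) ^ 2 + 1 := ⟨_, rfl⟩
  have hX1 : 0 ≤ r * (Real.sqrt C + (n1 + n2 + C + b1 + 1)) := by positivity
  have hX0 : 0 ≤ X := by rw [hX]; positivity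
  refine ⟨b1, nU + nL + ⌈X ^ 2⌉₊ + 1, ?_⟩
  intro V _ G g n m hn hG hNK
  have hXs : X ≤ Real.sqrt n := by
    apply Real.le_sqrt_of_sq_le
    refine (Nat.le_ceil _).trans ?_
    have : ⌈X ^ 2⌉₊ ≤ n := by omega
    exact_mod_cast this
  have hs1 : 1 ≤ Real.sqrt n := by
    refine le_trans ?_ hXs
    rw [hX]
    have := sq_nonneg (CU + CL + 1)
    linarith
  have hh1 : 1 ≤ Real.sqrt (Real.sqrt n) := Real.one_le_sqrt.2 hs1
  have hhX : CU + CL + 1 ≤ Real.sqrt (Real.sqrt n) := by
    apply Real.le_sqrt_of_sq_le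
    refine le_trans ?_ hXs
    rw [hX]
    linarith
  have hhs : Real.sqrt (Real.sqrt n) ≤ Real.sqrt n := by
    calc Real.sqrt (Real.sqrt n) = Real.sqrt (Real.sqrt n) * 1 := (mul_one _).symm
      _ ≤ Real.sqrt (Real.sqrt n) * Real.sqrt (Real.sqrt n) :=
          mul_le_mul_of_nonneg_left hh1 (Real.sqrt_nonneg _)
      _ = Real.sqrt n := Real.mul_self_sqrt (Real.sqrt_nonneg _)
  have hh0 : 0 < Real.sqrt (Real.sqrt n) := by linarith
  have hlt : CU + CL < Real.sqrt (Real.sqrt n) := by linarith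
  have hrsX : r * (Real.sqrt C + (n1 + n2 + C + b1 + 1)) ≤ Real.sqrt n := by
    refine le_trans ?_ hXs
    rw [hX]
    have := sq_nonneg (CU + CL + 1)
    linarith
  have hsz : ∀ t, (n1 + n2 + C + b1 + 1) * Real.sqrt n ≤ (siz g t : ℝ) :=
    fun t => large hr hC hNK.tot hNK.dev hs1 hrsX t
  have hq : 2 / 3 ≤ qq r := by
    unfold qq
    have : 1 / (r : ℝ) ≤ 1 / 3 := one_div_le_one_div_of_le (by norm_num) hR
    linarith
  have hcG := count0 hCNTU hNK.indep hNK.tot
  rw [hG.1.size] at hcG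
  have hUG := hU V G g n (by omega) hNK
  have hfew := hNK.few
  have ha0 : (0 : ℝ) ≤ (missSet G g).ncard := Nat.cast_nonneg _
  have hb0 : (0 : ℝ) ≤ (outSet G g).ncard := Nat.cast_nonneg _
  have hChs : C * Real.sqrt (Real.sqrt n) ≤ C * Real.sqrt n := mul_le_mul_of_nonneg_left hhs hC
  have hC2 : C * (n : ℝ) ≤ (C + 2 * b1) * n :=
    mul_le_mul_of_nonneg_right (by
      have : (0 : ℝ) ≤ b1 := Nat.cast_nonneg _
      linarith) (Nat.cast_nonneg n)
  have hC3 : C * Real.sqrt (Real.sqrt n) + 2 * b1 ≤ (C + 2 * b1) * Real.sqrt (Real.sqrt n) := by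
    have h1 : (2 * b1 : ℝ) * 1 ≤ 2 * b1 * Real.sqrt (Real.sqrt n) :=
      mul_le_mul_of_nonneg_left hh1 (by positivity)
    linarith
  have hb10 : (0 : ℝ) ≤ b1 := Nat.cast_nonneg b1
  have hn10 : (0 : ℝ) ≤ n1 := Nat.cast_nonneg n1
  have hn20 : (0 : ℝ) ≤ n2 := Nat.cast_nonneg n2
  have hKs : (n1 + n2 + C + b1 + 1 : ℝ) * Real.sqrt n =
      n1 * Real.sqrt n + n2 * Real.sqrt n + C * Real.sqrt n + b1 * Real.sqrt n
        + Real.sqrt n := by ring
  have hn1s : (n1 : ℝ) * 1 ≤ n1 * Real.sqrt n := mul_le_mul_of_nonneg_left hs1 hn10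
  have hn2s : (n2 : ℝ) * 1 ≤ n2 * Real.sqrt n := mul_le_mul_of_nonneg_left hs1 hn20
  have hb1s : (b1 : ℝ) * 1 ≤ b1 * Real.sqrt n := mul_le_mul_of_nonneg_left hs1 hb10
  rcases le_or_gt (outSet G g).ncard ((missSet G g).ncard + b1) with hcase | hcase
  · -- replacing light edges by fewer missing pairs
    left
    obtain ⟨a', ha'⟩ : ∃ a' : ℕ, a' + (outSet G g).ncard = (missSet G g).ncard + b1 :=
      ⟨(missSet G g).ncard + b1 - (outSet G g).ncard, by omega⟩
    have ha'r : (a' : ℝ) + (outSet G g).ncard = (missSet G g).ncard + b1 := by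
      exact_mod_cast ha'
    obtain ⟨k, H, f, hfree, hnc, hiso, hind, hmiss, hout, hsiz⟩ := hV (siz g) a' (by
      intro t
      have h1 := hsz t
      have h2 : (n1 : ℝ) + a' ≤ siz g t := by linarith
      exact_mod_cast h2)
    have hfun : siz f = siz g := funext hsiz
    have hcH := count0 hCNTU hind (n := n) (by rw [hfun]; exact hNK.tot)
    rw [hfun, hmiss, hout] at hcH
    have hInH : InN r m F H := ⟨hfree, by omega, hiso, hnc⟩
    have hle := hG.2 _ H hInH
    obtain ⟨v₀⟩ : Nonempty (Fin k) := by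
      by_contra hne
      rw [not_nonempty_iff] at hne
      exact hnc (SimpleGraph.Colorable.of_isEmpty r)
    have hl0 := lam_nonneg v₀ H
    have hNKH : NK n (C + 2 * b1) H f := by
      refine ⟨hind, by rw [hfun]; exact hNK.tot, ?_, ?_⟩
      · rw [hfun]
        exact hNK.dev.trans hC2
      · rw [hmiss, hout]
        linarith
    have hLH := hL _ H f n (by omega) hNKH
    have hT : lam (KU H f ∅) = lam (KU G g ∅) := hTRK r _ _ _ _ f g isKU0 isKU0 hsiz
    rw [hT, hmiss] at hLH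
    have h1 : (missSet G g).ncard ≤ a' :=
      ItemBLA.gap hq hh0 hlt hUG hLH (pow_le_pow_left₀ hl0 hle 2)
    omega
  · -- a star of light edges
    right
    obtain ⟨d, hd⟩ : ∃ d : ℕ, d + (missSet G g).ncard + b2 = (outSet G g).ncard :=
      ⟨(outSet G g).ncard - (missSet G g).ncard - b2, by omega⟩
    have hdr : (d : ℝ) + (missSet G g).ncard + b2 = (outSet G g).ncard := by
      exact_mod_cast hd
    have hb20 : (0 : ℝ) ≤ b2 := Nat.cast_nonneg b2
    have hd1 : 1 ≤ d := by omega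
    obtain ⟨k, H, f, w, hfree, hnc, hiso, hind, hw, hmiss, hlight, hsiz, hnb⟩ :=
      hS (siz g) ⟨0, by omega⟩ ⟨1, by omega⟩ d (by simp) (by
        intro t
        have h1 := hsz t
        have h2 : (n2 : ℝ) ≤ siz g t := by linarith [mul_nonneg hC (Real.sqrt_nonneg (n : ℝ))]
        exact_mod_cast h2) hd1 (by
        have h1 := hsz ⟨1, by omega⟩
        have h2 : (d : ℝ) + n2 ≤ siz g ⟨1, by omega⟩ := by linarith
        exact_mod_cast h2)
    have hfun : siz f = siz g := funext hsiz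
    have hsumd : ∑ t, nbn H f w t = d := by
      rw [Finset.sum_congr rfl (fun t _ => hnb t), Finset.sum_ite_eq']
      simp
    have hcH1 := count1 hCNTU hind hw (n := n) (by rw [hfun]; exact hNK.tot)
    rw [hfun, hmiss, hlight, hsumd] at hcH1
    have hcH0 := count0 hCNTU hind (n := n) (by rw [hfun]; exact hNK.tot)
    rw [hfun, hmiss] at hcH0
    have hInH : InN r m F H := ⟨hfree, by omega, hiso, hnc⟩
    have hle := hG.2 _ H hInH
    have hl0 := lam_nonneg w H
    have hoH : (outSet H f).ncard + (missSet G g).ncard = (outSet G g).ncard := by omega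
    have hoHr : ((outSet H f).ncard : ℝ) + (missSet G g).ncard = (outSet G g).ncard := by
      exact_mod_cast hoH
    have hNKH : NK n (C + 2 * b1) H f := by
      refine ⟨hind, by rw [hfun]; exact hNK.tot, ?_, ?_⟩
      · rw [hfun]
        exact hNK.dev.trans hC2
      · rw [hmiss]
        push_cast
        linarith
    have hLH := hL _ H f n (by omega) hNKH
    have hT : lam (KU H f ∅) = lam (KU G g ∅) := hTRK r _ _ _ _ f g isKU0 isKU0 hsiz
    rw [hT, hmiss] at hLH
    have h1 : (missSet G g).ncard ≤ 0 :=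
      ItemBLA.gap hq hh0 hlt hUG hLH (pow_le_pow_left₀ hl0 hle 2)
    omega

end MP0c3a8f

end

section

/-! Item FNW (helper64). -/

open Finset

namespace MP0c3a8f

namespace FNWx

variable {V : Type} {r : ℕ}

theorem light_empty (G : SimpleGraph V) (g : V → Option (Fin r)) :
    lightSet G g ∅ = outSet G g := by
  ext e
  simp [lightSet, outSet]

theorem cnt0 (hC : CNTU_statement) [Fintype V] (G : SimpleGraph V) (g : V → Option (Fin r))
    (hI : Indep G g) :
    2 * G.edgeSet.ncard + 2 * (missSet G g).ncard + ∑ t, siz g t ^ 2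
      = (∑ t, siz g t) ^ 2 + 2 * (outSet G g).ncard := by
  obtain ⟨e, he, h⟩ := hC r V G g ∅ hI (by simp)
  rw [light_empty] at h
  simp at he h
  omega

theorem cnt1 (hC : CNTU_statement) [Fintype V] (G : SimpleGraph V) (g : V → Option (Fin r))
    (w : V) (hI : Indep G g) (hw : g w = none) :
    2 * G.edgeSet.ncard + 2 * (missSet G g).ncard + ∑ t, siz g t ^ 2
      = (∑ t, siz g t) ^ 2 + 2 * (∑ t, nbn G g w t) + 2 * (lightSet G g {w}).ncard := by
  obtain ⟨e, he, h⟩ := hC r V G g {w} hI (by simpa using hw)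
  simp at he h
  omega

theorem siz_low {n : ℕ} {C : ℝ} {G : SimpleGraph V} {g : V → Option (Fin r)} (h : NK n C G g)
    (t : Fin r) : (n : ℝ) / r - Real.sqrt (C * n) ≤ siz g t := by
  have h1 : ((siz g t : ℝ) - (n : ℝ) / r) ^ 2 ≤ C * n := by
    have h2 := h.dev
    unfold dev at h2
    have h3 : (∑ s, (siz g s : ℝ)) = n := by
      have := h.tot
      exact_mod_cast this
    rw [h3] at h2
    refine le_trans ?_ h2
    exact Finset.single_le_sum (f := fun t => ((siz g t : ℝ) - (n : ℝ) / r) ^ 2)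
      (fun _ _ => sq_nonneg _) (mem_univ t)
  have h4 := Real.abs_le_sqrt h1
  have h5 := (abs_le.mp h4).1
  linarith

theorem num (r : ℕ) (C K : ℝ) (hr : 3 ≤ r) (hC : 0 ≤ C) (hK : 0 ≤ K) : ∃ n₀ : ℕ, ∀ n ≥ n₀,
    K + 4 * (C * Real.sqrt (Real.sqrt n)) ≤ (n : ℝ) / r - Real.sqrt (C * n) ∧
    0 ≤ qq r * n - K * Real.sqrt (Real.sqrt n) - K * Real.sqrt n ∧ 1 ≤ n := by
  have hr' : (3 : ℝ) ≤ r := by exact_mod_cast hr
  obtain ⟨N, hN⟩ := exists_nat_ge ((r * (Real.sqrt C + 4 * C + 2 * K + 1) + 1) ^ 2)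
  refine ⟨N + 1, fun n hn => ?_⟩
  have hn1 : (N : ℝ) ≤ n := by exact_mod_cast (by omega : N ≤ n)
  set s := Real.sqrt n with hs
  have hs0 : 0 ≤ s := Real.sqrt_nonneg _
  have hss : s ^ 2 = n := Real.sq_sqrt (Nat.cast_nonneg n)
  have hsC : 0 ≤ Real.sqrt C := Real.sqrt_nonneg _
  have hs1 : r * (Real.sqrt C + 4 * C + 2 * K + 1) + 1 ≤ s := by
    rw [hs]
    apply Real.le_sqrt_of_sq_le
    linarith
  have hpos : 0 ≤ (r : ℝ) * (Real.sqrt C + 4 * C + 2 * K + 1) := by positivity
  have hs2 : 1 ≤ s := by linarith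
  have hh : Real.sqrt s ≤ s := by
    rw [Real.sqrt_le_left hs0]
    nlinarith
  have hh0 : 0 ≤ Real.sqrt s := Real.sqrt_nonneg _
  have hCn : Real.sqrt (C * n) = Real.sqrt C * s := by
    rw [Real.sqrt_mul hC]
  have hsr : (Real.sqrt C + 4 * C + 2 * K + 1) * s ≤ (n : ℝ) / r := by
    rw [le_div_iff₀ (by linarith), ← hss]
    nlinarith
  refine ⟨?_, ?_, by omega⟩
  · rw [hCn]
    have h1 : C * Real.sqrt s ≤ C * s := mul_le_mul_of_nonneg_left hh hC
    have h2 : K ≤ K * s := by nlinarith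
    nlinarith
  · have hq : 1 / 3 ≤ qq r := by
      unfold qq
      have : 1 / (r : ℝ) ≤ 1 / 3 := by
        apply one_div_le_one_div_of_le <;> linarith
      linarith
    have h1 : K * Real.sqrt s ≤ K * s := mul_le_mul_of_nonneg_left hh hK
    have h3 : (n : ℝ) / r ≤ n / 3 := by
      apply div_le_div_of_nonneg_left (Nat.cast_nonneg n) (by norm_num) hr'
    have h4 : (n : ℝ) / 3 ≤ qq r * n := by
      have : (0 : ℝ) ≤ n := Nat.cast_nonneg n
      nlinarith
    have h5 : 0 ≤ Real.sqrt C * s := by positivity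
    have h6 : 0 ≤ C * s := by positivity
    nlinarith

/-- the graph of the missing pairs -/
def MG (G : SimpleGraph V) (g : V → Option (Fin r)) : SimpleGraph V where
  Adj u v := g u ≠ none ∧ g v ≠ none ∧ g v ≠ g u ∧ ¬ G.Adj u v
  symm := ⟨fun _ _ h => ⟨h.2.1, h.1, h.2.2.1.symm, fun h' => h.2.2.2 h'.symm⟩⟩
  loopless := ⟨fun _ h => h.2.2.1 rfl⟩

theorem MG_edge (G : SimpleGraph V) (g : V → Option (Fin r)) :
    (MG G g).edgeSet = missSet G g := by
  ext e
  induction e using Sym2.ind with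
  | _ u v =>
    rw [SimpleGraph.mem_edgeSet]
    constructor
    · rintro ⟨h1, h2, h3, h4⟩
      exact ⟨u, v, rfl, h1, h2, h3.symm, h4⟩
    · rintro ⟨x, y, hxy, h1, h2, h3, h4⟩
      rcases Sym2.eq_iff.mp hxy with ⟨rfl, rfl⟩ | ⟨rfl, rfl⟩
      · exact ⟨h1, h2, h3.symm, h4⟩
      · exact ⟨h2, h1, h3, fun h' => h4 h'.symm⟩

theorem MG_deg (G : SimpleGraph V) (g : V → Option (Fin r)) (v : V) :
    {u | (MG G g).Adj v u}.ncard = mdeg G g v := by
  rfl

theorem outSet_congr (G H : SimpleGraph V) (g : V → Option (Fin r))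
    (h : ∀ u v, g u = none → (H.Adj u v ↔ G.Adj u v)) : outSet H g = outSet G g := by
  ext e
  induction e using Sym2.ind with
  | _ u v =>
    simp only [outSet, Set.mem_ofPred_eq, SimpleGraph.mem_edgeSet]
    constructor
    · rintro ⟨h1, x, hx, hx0⟩
      refine ⟨?_, x, hx, hx0⟩
      rcases Sym2.mem_iff.mp hx with rfl | rfl
      · exact (h _ _ hx0).mp h1
      · exact ((h _ _ hx0).mp h1.symm).symm
    · rintro ⟨h1, x, hx, hx0⟩
      refine ⟨?_, x, hx, hx0⟩
      rcases Sym2.mem_iff.mp hx with rfl | rfl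
      · exact (h _ _ hx0).mpr h1
      · exact ((h _ _ hx0).mpr h1.symm).symm

/-- complete core and a vertex `w` joined to `S` -/
def KS (g : V → Option (Fin r)) (w : V) (S : Set V) (hw : g w = none)
    (hS : ∀ v ∈ S, g v ≠ none) : SimpleGraph V where
  Adj u v := (g u ≠ none ∧ g v ≠ none ∧ g u ≠ g v) ∨ (u = w ∧ v ∈ S) ∨ (v = w ∧ u ∈ S)
  symm := ⟨fun u v h => by
    rcases h with h | h | h
    · exact Or.inl ⟨h.2.1, h.1, h.2.2.symm⟩
    · exact Or.inr (Or.inr h)
    · exact Or.inr (Or.inl h)⟩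
  loopless := ⟨fun u h => by
    rcases h with h | h | h
    · exact h.2.2 rfl
    · exact hS u h.2 (h.1 ▸ hw)
    · exact hS u h.2 (h.1 ▸ hw)⟩

theorem KS_isKU (g : V → Option (Fin r)) (w : V) (S : Set V) (hw : g w = none)
    (hS : ∀ v ∈ S, g v ≠ none) : IsKU (KS g w S hw hS) g {w} where
  core u v hu hv := by
    constructor
    · rintro (h | h | h)
      · exact h.2.2
      · exact absurd hw (h.1 ▸ hu)
      · exact absurd hw (h.1 ▸ hv)
    · intro h
      exact Or.inl ⟨hu, hv, h⟩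
  exc v hv := by
    rw [Finset.mem_singleton] at hv
    rw [hv]; exact hw
  iso u v hu hv := by
    rw [Finset.mem_singleton] at hv
    rintro (h | h | h)
    · exact h.1 hu
    · exact hv h.1
    · exact hS u h.2 hu

theorem KS_nbn (g : V → Option (Fin r)) (w : V) (S : Set V) (hw : g w = none)
    (t₁ : Fin r) (hS : ∀ v ∈ S, g v = some t₁) (t : Fin r) :
    nbn (KS g w S hw (fun v hv => by rw [hS v hv]; simp)) g w t
      = if t = t₁ then S.ncard else 0 := by
  unfold nbn
  split_ifs with h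
  · subst h
    congr 1
    ext v
    simp only [Set.mem_ofPred_eq]
    constructor
    · rintro ⟨h1, h2 | h2 | h2⟩
      · exact absurd hw h2.1
      · exact h2.2
      · rw [h2.1, hw] at h1
        exact absurd h1 (by simp)
    · intro h
      exact ⟨hS v h, Or.inr (Or.inl ⟨rfl, h⟩)⟩
  · have : {v | g v = some t ∧ (KS g w S hw (fun v hv => by rw [hS v hv]; simp)).Adj w v} = ∅ := by
      ext v
      simp only [Set.mem_ofPred_eq, Set.mem_empty_iff_false, iff_false, not_and]
      rintro h1 (h2 | h2 | h2)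
      · exact h2.1 hw
      · rw [hS v h2.2] at h1
        exact h (Option.some.inj h1).symm
      · rw [h2.1, hw] at h1
        exact absurd h1 (by simp)
    rw [this]
    simp

theorem case1 (hCN : CNTU_statement) (hF : FLU_statement) (hSWM : SWM_statement)
    (hSWS : SWS_statement) (hSQN : SQN_statement) (hMKH : MKH_statement)
    (W : Type) [Fintype W] (F : SimpleGraph W) (r : ℕ) (C : ℝ) (hr : 3 ≤ r) (hC : 0 ≤ C)
    (b₀ : ℕ) : ∃ N n₀ : ℕ, ∀ (V : Type) [Fintype V] (G : SimpleGraph V)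
    (g : V → Option (Fin r)) (n m : ℕ), n₀ ≤ n → IsMaximiser r m F G → NK n C G g →
    (outSet G g).ncard ≤ b₀ →
    ∃ w, {e | e ∈ missSet G g ∧ w ∉ e}.ncard + {e | e ∈ outSet G g ∧ w ∉ e}.ncard ≤ N := by
  obtain ⟨C₁, n₁, hC₁, h₁⟩ := hF r C hr hC
  obtain ⟨C₂, n₂, hC₂, h₂⟩ := hSWS r b₀ C hr hC
  obtain ⟨N₃, h₃⟩ := hSQN (2 * b₀ ^ 2 + b₀ ^ 4 + 2 * C₂) (by positivity)
  obtain ⟨n₄, h₄⟩ := num r C (C₁ + Fintype.card W + 3) hr hC (by positivity)
  refine ⟨N₃ + b₀, n₁ + n₂ + n₄, ?_⟩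
  intro V _ G g n m hn hmax hNK hb
  obtain ⟨h4a, h4b, h4c⟩ := h₄ n (by omega)
  obtain ⟨⟨z, hz⟩, hz2⟩ := h₁ V G g n (by omega) hNK
  obtain ⟨_, _, hlam, hcw⟩ := hz2 z hz
  set a := (missSet G g).ncard with ha
  set b := (outSet G g).ncard with hbdef
  have hab := hNK.few
  rw [← ha, ← hbdef] at hab
  have hsiz : ∀ t, Fintype.card W + 3 + 4 * (a + b) ≤ siz g t := by
    intro t
    have h := siz_low hNK t
    have : ((Fintype.card W + 3 + 4 * (a + b) : ℕ) : ℝ) ≤ siz g t := by
      push_cast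
      linarith
    exact_mod_cast this
  -- the function `Y`
  have hY : ∀ t, 0 ≤ (n : ℝ) - cw z g (some t) := by
    intro t
    have h1 := (abs_le.mp (hcw t)).1
    have h2 := (abs_le.mp hlam).1
    have h3 : 0 ≤ Real.sqrt (Real.sqrt (n : ℝ)) := Real.sqrt_nonneg _
    have h4 : 0 ≤ Real.sqrt (n : ℝ) := Real.sqrt_nonneg _
    have h5 : (0 : ℝ) ≤ Fintype.card W := Nat.cast_nonneg _
    nlinarith
  obtain ⟨H, a₁, hHI, hH1, hH2, hHa, hHm, ha1, ha1s⟩ :=
    hMKH r V G g (fun o => (n : ℝ) - cw z g o) hr hNK.indep hY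
      (fun t => by have := hsiz t; omega)
  have hout : outSet H g = outSet G g := outSet_congr G H g hH1
  have hHfree := hSWM W F r V G H g hr hmax.1.free hmax.1.notPartite hmax.1.noIso hNK.indep hHI
    (fun t => by have := hsiz t; rw [hHa, ← ha, ← hbdef]; omega) hH1 hH2
  have hedge : H.edgeSet.ncard = m := by
    have e1 := cnt0 hCN G g hNK.indep
    have e2 := cnt0 hCN H g hHI
    rw [hHa, hout] at e2
    have := hmax.1.size
    omega
  have hHN : InN r m F H := ⟨hHfree.1, hedge, hHfree.2.2, hHfree.2.1⟩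
  have hlamH : lam H ≤ lam G := hmax.2 V H hHN
  have hNKH : NK n C H g := by
    refine ⟨hHI, hNK.tot, hNK.dev, ?_⟩
    rw [hHa, hout, ← ha, ← hbdef]
    exact hab
  have hs := h₂ V G H z g n (by omega) hNK hNKH hb hH1 hz hHm hlamH
  rw [hHa, ← ha] at hs
  have hne : Nonempty V := by
    have h := hsiz ⟨0, by omega⟩
    have h' : 0 < siz g ⟨0, by omega⟩ := by omega
    unfold siz at h'
    obtain ⟨v, _⟩ := (Set.ncard_pos (Set.toFinite _)).mp h'
    exact ⟨v⟩
  have hb' : (b : ℝ) ≤ b₀ := by exact_mod_cast hb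
  have ha1' : (a : ℝ) ≤ a₁ + (b₀ : ℝ) ^ 2 := by
    have h1 : (a : ℝ) ≤ a₁ + (b : ℝ) ^ 2 := by exact_mod_cast ha1
    have h2 : (b : ℝ) ^ 2 ≤ (b₀ : ℝ) ^ 2 := by
      have : (0 : ℝ) ≤ b := Nat.cast_nonneg _
      nlinarith
    linarith
  have hsq : (a : ℝ) ^ 2 ≤ (a₁ : ℝ) ^ 2 + 2 * a * (b₀ : ℝ) ^ 2 + (b₀ : ℝ) ^ 4 := by
    have h0 : (0 : ℝ) ≤ a := Nat.cast_nonneg _
    have h1 : (0 : ℝ) ≤ a₁ := Nat.cast_nonneg _
    have h2 : (0 : ℝ) ≤ (b₀ : ℝ) ^ 2 := by positivity
    rcases le_total (a : ℝ) a₁ with h | h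
    · have : (a : ℝ) ^ 2 ≤ (a₁ : ℝ) ^ 2 := by nlinarith
      have : 0 ≤ 2 * a * (b₀ : ℝ) ^ 2 + (b₀ : ℝ) ^ 4 := by positivity
      linarith
    · have h3 : (a : ℝ) ^ 2 ≤ (a₁ + (b₀ : ℝ) ^ 2) ^ 2 := by nlinarith
      have h4 : 2 * a₁ * (b₀ : ℝ) ^ 2 ≤ 2 * a * (b₀ : ℝ) ^ 2 := by nlinarith
      nlinarith
  have hM : ((MG G g).edgeSet.ncard : ℝ) ^ 2 - (2 * b₀ ^ 2 + b₀ ^ 4 + 2 * C₂)
      * ((MG G g).edgeSet.ncard + 1)
      ≤ ∑ v, (({u | (MG G g).Adj v u}.ncard : ℕ) : ℝ) ^ 2 := by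
    rw [MG_edge, ← ha]
    simp only [MG_deg]
    have h0 : (0 : ℝ) ≤ a := Nat.cast_nonneg _
    have h5 : 0 ≤ (b₀ : ℝ) ^ 4 * a := by positivity
    have h6 : 0 ≤ (b₀ : ℝ) ^ 2 := by positivity
    nlinarith
  obtain ⟨w, hw⟩ := h₃ V (MG G g) hM
  refine ⟨w, ?_⟩
  rw [MG_edge] at hw
  have hle : {e | e ∈ outSet G g ∧ w ∉ e}.ncard ≤ b₀ :=
    le_trans (Set.ncard_le_ncard (fun e he => he.1) (Set.toFinite _)) hb
  omega

theorem case2 (hCN : CNTU_statement) (hS : SSWU_statement) (hM : MEMS_statement)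
    (hT : TRF_statement)
    (W : Type) [Fintype W] (F : SimpleGraph W) (r : ℕ) (C : ℝ) (hr : 3 ≤ r)
    (hFr : ¬ F.Colorable r) (hC : 0 ≤ C) :
    ∃ N n₀ : ℕ, ∀ (V : Type) [Fintype V] (G : SimpleGraph V)
    (g : V → Option (Fin r)) (n m : ℕ), n₀ ≤ n → IsMaximiser r m F G → NK n C G g →
    (missSet G g).ncard = 0 →
    ∃ w, {e | e ∈ missSet G g ∧ w ∉ e}.ncard + {e | e ∈ outSet G g ∧ w ∉ e}.ncard ≤ N := by
  obtain ⟨b₂, n₂, h₂⟩ := hM W F r hr hFr
  obtain ⟨n₃, h₃⟩ := hS r C hr hC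
  obtain ⟨n₄, h₄⟩ := num r C (n₂ + 1) hr hC (by positivity)
  refine ⟨4 * b₂ + 12, n₃ + n₄, ?_⟩
  intro V _ G g n m hn hmax hNK ha
  classical
  obtain ⟨h4a, h4b, h4c⟩ := h₄ n (by omega)
  set b := (outSet G g).ncard with hbdef
  have hab := hNK.few
  rw [ha, ← hbdef] at hab
  have hsiz : ∀ t, n₂ + 1 + 4 * b ≤ siz g t := by
    intro t
    have h := siz_low hNK t
    have : ((n₂ + 1 + 4 * b : ℕ) : ℝ) ≤ siz g t := by
      push_cast
      push_cast at hab
      linarith
    exact_mod_cast this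
  have hmiss : ∀ w : V, {e | e ∈ missSet G g ∧ w ∉ e}.ncard = 0 := by
    intro w
    have : {e | e ∈ missSet G g ∧ w ∉ e}.ncard ≤ (missSet G g).ncard :=
      Set.ncard_le_ncard (fun e he => he.1) (Set.toFinite _)
    omega
  by_cases hb : b ≤ b₂
  · have h' : 0 < siz g ⟨0, by omega⟩ := by
      have h := hsiz ⟨0, by omega⟩
      omega
    unfold siz at h'
    obtain ⟨v, _⟩ := (Set.ncard_pos (Set.toFinite _)).mp h'
    refine ⟨v, ?_⟩
    rw [hmiss v]
    have hle : {e | e ∈ outSet G g ∧ v ∉ e}.ncard ≤ b :=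
      Set.ncard_le_ncard (fun e he => he.1) (Set.toFinite _)
    omega
  · push Not at hb
    -- a light vertex with maximal core degree
    have hlight : (Finset.univ.filter fun v : V => g v = none).Nonempty := by
      have h' : 0 < (outSet G g).ncard := by omega
      obtain ⟨e, he⟩ := (Set.ncard_pos (Set.toFinite _)).mp h'
      obtain ⟨_, v, _, hv⟩ := he
      exact ⟨v, by simpa using hv⟩
    obtain ⟨w, hw, hwmax⟩ := Finset.exists_max_image _ (fun v => ∑ t, nbn G g v t) hlight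
    have hw0 : g w = none := by simpa using hw
    set d := b - b₂ with hd
    let t₀ : Fin r := ⟨0, by omega⟩
    let t₁ : Fin r := ⟨1, by omega⟩
    obtain ⟨k, H', g', w', hfree, hcol, hiso, hInd, hw'0, hmiss', hlight', hsiz', hnbn'⟩ :=
      h₂ (siz g) t₀ t₁ d (by simp [t₀, t₁]) (fun t => by have := hsiz t; omega)
        (by omega) (by have := hsiz t₁; omega)
    have hedge : H'.edgeSet.ncard = m := by
      have e1 := cnt0 hCN G g hNK.indep
      have e2 := cnt1 hCN H' g' w' hInd hw'0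
      have e3 : ∑ t, nbn H' g' w' t = d := by
        simp only [hnbn']
        simp
      rw [hmiss', hlight', e3] at e2
      simp only [hsiz'] at e2
      rw [ha, ← hbdef] at e1
      have := hmax.1.size
      omega
    have hlam' : lam H' ≤ lam G := hmax.2 (Fin k) H' ⟨hfree, hedge, hiso, hcol⟩
    -- the graph `H0`
    obtain ⟨S, hS1, hS2⟩ := Set.exists_subset_card_eq
      (s := {v | g v = some t₁}) (n := d) (by
        have := hsiz t₁
        unfold siz at this
        omega)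
    have hS3 : ∀ v ∈ S, g v = some t₁ := fun v hv => hS1 hv
    let H0 := KS g w S hw0 (fun v hv => by rw [hS3 v hv]; simp)
    have hKU : IsKU H0 g {w} := KS_isKU g w S hw0 _
    have hnb : ∀ t, nbn H0 g w t = if t = t₁ then d else 0 := by
      intro t
      have := KS_nbn g w S hw0 t₁ hS3 t
      rw [hS2] at this
      exact this
    have hlam0 : lam H0 ≤ lam H' := hT r V (Fin k) H0 H' g g' w w' hKU hw'0 hmiss'
      (fun t => (hsiz' t).symm) (fun t => by rw [hnb t, hnbn' t])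
    have hsum : ∑ t, nbn H0 g w t = d := by
      simp only [hnb]
      simp
    have hfin := h₃ V G H0 g w n d (by omega) hNK ha hw0
      (fun v hv => hwmax v (by simpa using hv)) hKU hsum (by omega) (hlam0.trans hlam')
    refine ⟨w, ?_⟩
    rw [hmiss w]
    have hsub : {e | e ∈ outSet G g ∧ w ∉ e} ⊆ lightSet G g {w} := by
      rintro e ⟨⟨he, v, hv, hv0⟩, hwe⟩
      refine ⟨he, v, hv, hv0, ?_⟩
      rw [Finset.mem_singleton]
      rintro rfl
      exact hwe hv
    have hle := Set.ncard_le_ncard hsub (Set.toFinite _)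
    omega

end FNWx

theorem prfFNW : P_statement → CNTU_statement → FLU_statement → BLA_statement →
    SSWU_statement → MEMS_statement → TRF_statement → SWM_statement → SWS_statement →
    SQN_statement → MKH_statement → FNW_statement := by
  intro _ hCN hF hB hS hM hT hSWM hSWS hSQN hMKH W _ F r C hr hFr hC
  obtain ⟨b₀, n₀, h₀⟩ := hB W F r C hr hFr hC
  obtain ⟨N₁, n₁, h₁⟩ := FNWx.case1 hCN hF hSWM hSWS hSQN hMKH W F r C hr hC b₀
  obtain ⟨N₂, n₂, h₂⟩ := FNWx.case2 hCN hS hM hT W F r C hr hFr hC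
  refine ⟨N₁ + N₂, n₀ + n₁ + n₂, ?_⟩
  intro V _ G g n m hn hmax hNK
  rcases h₀ V G g n m (by omega) hmax hNK with hb | ha
  · obtain ⟨w, hw⟩ := h₁ V G g n m (by omega) hmax hNK hb
    exact ⟨w, by omega⟩
  · obtain ⟨w, hw⟩ := h₂ V G g n m (by omega) hmax hNK ha
    exact ⟨w, by omega⟩

end MP0c3a8f

end

section

/-!
# MP_0c3a8f_co, item MKH: replacing missing pairs by a star
-/

set_option autoImplicit false
set_option linter.unusedSectionVars false

open Finset

namespace MP0c3a8f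

namespace ItemMKH

/-- ordered and unordered pairs -/
theorem ordered {V : Type} [Fintype V] (S : Set (Sym2 V)) (hS : ∀ u, s(u, u) ∉ S) :
    open Classical in
    ∑ u : V, ∑ v : V, (if s(u, v) ∈ S then (1 : ℝ) else 0) = 2 * (S.ncard : ℝ) := by
  classical
  set Q : SimpleGraph V := SimpleGraph.fromEdgeSet S with hQ
  have hadj : ∀ u v, Q.Adj u v ↔ s(u, v) ∈ S := by
    intro u v
    rw [hQ, SimpleGraph.fromEdgeSet_adj]
    constructor
    · exact fun h => h.1
    · intro h
      refine ⟨h, ?_⟩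
      rintro rfl
      exact hS u h
  have hedge : Q.edgeSet = S := by
    ext e
    induction e using Sym2.ind with
    | _ u v => rw [SimpleGraph.mem_edgeSet, hadj]
  have h1 : ∀ u, ∑ v : V, (if s(u, v) ∈ S then (1 : ℝ) else 0) = (Q.degree u : ℝ) := by
    intro u
    rw [← SimpleGraph.card_neighborFinset_eq_degree, SimpleGraph.neighborFinset_eq_filter,
      Finset.card_filter]
    push_cast
    apply Finset.sum_congr rfl
    intro v _
    simp only [hadj]
  have hc : ∀ inst : Fintype Q.edgeSet, #(@SimpleGraph.edgeFinset V Q inst) = S.ncard := by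
    intro inst
    rw [← Set.ncard_coe_finset, SimpleGraph.coe_edgeFinset, hedge]
  rw [Finset.sum_congr rfl fun u _ => h1 u, ← Nat.cast_sum, Q.sum_degrees_eq_twice_card_edges,
    hc]
  push_cast
  rfl

variable {V : Type} [Fintype V] {r : ℕ}

/-- core vertices with a light neighbour -/
def Xs (G : SimpleGraph V) (g : V → Option (Fin r)) : Set V :=
  {v | g v ≠ none ∧ ∃ x, g x = none ∧ G.Adj v x}

theorem Xs_card (G : SimpleGraph V) (g : V → Option (Fin r)) :
    (Xs G g).ncard ≤ (outSet G g).ncard := by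
  classical
  have hch : ∀ v, ∃ x, v ∈ Xs G g → g x = none ∧ G.Adj v x := by
    intro v
    by_cases h : v ∈ Xs G g
    · obtain ⟨x, hx⟩ := h.2
      exact ⟨x, fun _ => hx⟩
    · exact ⟨v, fun h' => absurd h' h⟩
  choose F hF using hch
  apply Set.ncard_le_ncard_of_injOn (fun v => s(v, F v)) _ _ (Set.toFinite _)
  · intro v hv
    refine ⟨?_, F v, by simp, (hF v hv).1⟩
    rw [SimpleGraph.mem_edgeSet]
    exact (hF v hv).2
  · intro v hv w hw h
    simp only [Sym2.eq_iff] at h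
    rcases h with h | h
    · exact h.1
    · exact absurd (h.1 ▸ (hF w hw).1) hv.1

/-- missing pairs inside of `Xs` -/
def M0 (G : SimpleGraph V) (g : V → Option (Fin r)) : Set (Sym2 V) :=
  {e | e ∈ missSet G g ∧ ∀ v ∈ e, v ∈ Xs G g}

theorem M0_card (G : SimpleGraph V) (g : V → Option (Fin r)) :
    (M0 G g).ncard ≤ (outSet G g).ncard ^ 2 := by
  classical
  have h1 : M0 G g ⊆ (fun q : V × V => s(q.1, q.2)) '' ((Xs G g) ×ˢ (Xs G g)) := by
    intro e
    induction e using Sym2.ind with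
    | _ u v =>
      intro h
      exact ⟨(u, v), ⟨h.2 u (by simp), h.2 v (by simp)⟩, rfl⟩
  calc (M0 G g).ncard ≤ ((fun q : V × V => s(q.1, q.2)) '' ((Xs G g) ×ˢ (Xs G g))).ncard :=
        Set.ncard_le_ncard h1 (Set.toFinite _)
    _ ≤ ((Xs G g) ×ˢ (Xs G g)).ncard := Set.ncard_image_le (Set.toFinite _)
    _ = (Xs G g).ncard * (Xs G g).ncard := Set.ncard_prod
    _ ≤ (outSet G g).ncard * (outSet G g).ncard := Nat.mul_le_mul (Xs_card G g) (Xs_card G g)
    _ = (outSet G g).ncard ^ 2 := (sq _).symm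

/-- the star -/
def St (p : V) (T : Set V) : Set (Sym2 V) := (fun y => s(p, y)) '' T

theorem St_card (p : V) (T : Set V) : (St p T).ncard = T.ncard := by
  apply Set.ncard_image_of_injective
  intro y y' h
  have h' : s(p, y) = s(p, y') := h
  rw [Sym2.eq_iff] at h'
  rcases h' with h' | h'
  · exact h'.2
  · exact h'.2.trans h'.1

theorem mem_missSet (G : SimpleGraph V) (g : V → Option (Fin r)) (u v : V) :
    s(u, v) ∈ missSet G g ↔ g u ≠ none ∧ g v ≠ none ∧ g u ≠ g v ∧ ¬ G.Adj u v := by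
  constructor
  · rintro ⟨a, b, h, h1, h2, h3, h4⟩
    rw [Sym2.eq_iff] at h
    rcases h with ⟨rfl, rfl⟩ | ⟨rfl, rfl⟩
    · exact ⟨h1, h2, h3, h4⟩
    · exact ⟨h2, h1, h3.symm, fun h => h4 h.symm⟩
  · intro h
    exact ⟨u, v, rfl, h⟩

/-- the graph with given missing pairs -/
def HH (G : SimpleGraph V) (g : V → Option (Fin r)) (S : Set (Sym2 V)) : SimpleGraph V where
  Adj u v := ((g u = none ∨ g v = none) ∧ G.Adj u v) ∨
    (g u ≠ none ∧ g v ≠ none ∧ g u ≠ g v ∧ s(u, v) ∉ S)
  symm := ⟨fun u v h => by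
    rcases h with h | h
    · exact Or.inl ⟨h.1.symm, h.2.symm⟩
    · exact Or.inr ⟨h.2.1, h.1, h.2.2.1.symm, by rw [Sym2.eq_swap]; exact h.2.2.2⟩⟩
  loopless := ⟨fun u h => by
    rcases h with h | h
    · exact G.loopless.irrefl u h.2
    · exact h.2.2.1 rfl⟩

theorem miss_eq (G : SimpleGraph V) (g : V → Option (Fin r)) (y : V → ℝ) :
    open Classical in
    miss G y g = ∑ u : V, ∑ v : V, (if s(u, v) ∈ missSet G g then y u * y v else 0) := by
  classical
  unfold miss
  apply Finset.sum_congr rfl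
  intro u _
  apply Finset.sum_congr rfl
  intro v _
  simp only [mem_missSet]

theorem sum_union (U S T : Set (Sym2 V)) (hU : U = S ∪ T) (hd : Disjoint S T) (y : V → ℝ) :
    open Classical in
    ∑ u : V, ∑ v : V, (if s(u, v) ∈ U then y u * y v else 0) =
      ∑ u : V, ∑ v : V, (if s(u, v) ∈ S then y u * y v else 0) +
      ∑ u : V, ∑ v : V, (if s(u, v) ∈ T then y u * y v else 0) := by
  classical
  subst hU
  rw [← Finset.sum_add_distrib]
  apply Finset.sum_congr rfl
  intro u _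
  rw [← Finset.sum_add_distrib]
  apply Finset.sum_congr rfl
  intro v _
  by_cases h1 : s(u, v) ∈ S
  · have h2 : s(u, v) ∉ T := fun h => Set.disjoint_left.mp hd h1 h
    simp [h1, h2]
  · by_cases h2 : s(u, v) ∈ T
    · simp [h1, h2]
    · simp [h1, h2]

end ItemMKH

open ItemMKH in
theorem prfMKH : MKH_statement := by
  classical
  intro r V _ G g Y hr hI _ hsz
  -- the classes `i`, `j`
  obtain ⟨q, hq, hmin⟩ := Finset.exists_min_image
    (Finset.univ.filter fun q : Fin r × Fin r => q.1 ≠ q.2)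
    (fun q => Y (some q.1) * Y (some q.2))
    ⟨(⟨0, by omega⟩, ⟨1, by omega⟩), by simp⟩
  obtain ⟨i, j⟩ := q
  have hij : i ≠ j := (Finset.mem_filter.mp hq).2
  have hmin' : ∀ s t : Fin r, s ≠ t → Y (some i) * Y (some j) ≤ Y (some s) * Y (some t) :=
    fun s t h => hmin (s, t) (Finset.mem_filter.mpr ⟨Finset.mem_univ _, h⟩)
  set M₀ := M0 G g with hM0
  set M₁ := missSet G g \ M₀ with hM1
  have hM0sub : M₀ ⊆ missSet G g := fun e he => he.1
  have hcard : (missSet G g).ncard = M₀.ncard + M₁.ncard := by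
    rw [hM1, add_comm]
    exact (Set.ncard_sdiff_add_ncard_of_subset hM0sub (Set.toFinite _)).symm
  -- the vertex `p`
  have hp : ∃ p, g p = some i ∧ p ∉ Xs G g := by
    by_contra hne
    push Not at hne
    have h1 : {v | g v = some i} ⊆ Xs G g := fun v hv => hne v hv
    have h2 := Set.ncard_le_ncard h1 (Set.toFinite _)
    have h3 := Xs_card G g
    have h4 := hsz i
    unfold siz at h4
    omega
  obtain ⟨p, hpi, hpX⟩ := hp
  -- the set `T`
  obtain ⟨T, hTsub, hTcard⟩ := Set.exists_subset_card_eq (s := {v | g v = some j})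
    (n := M₁.ncard) (by
      have h4 := hsz j
      unfold siz at h4
      omega)
  set S := M₀ ∪ St p T with hS
  have hdisj : Disjoint M₀ (St p T) := by
    rw [Set.disjoint_left]
    rintro e he ⟨y, _, rfl⟩
    exact hpX (he.2 p (by simp))
  have hSt : ∀ u v, s(u, v) ∈ St p T → (g u = some i ∧ g v = some j) ∨
      (g u = some j ∧ g v = some i) := by
    rintro u v ⟨y, hy, h⟩
    have h' : s(p, y) = s(u, v) := h
    rw [Sym2.eq_iff] at h'
    have hyj : g y = some j := hTsub hy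
    rcases h' with ⟨rfl, rfl⟩ | ⟨rfl, rfl⟩
    · exact Or.inl ⟨hpi, hyj⟩
    · exact Or.inr ⟨hyj, hpi⟩
  have hne : (some i : Option (Fin r)) ≠ some j := fun h => hij (Option.some_injective _ h)
  have hmiss : missSet (HH G g S) g = S := by
    ext e
    induction e using Sym2.ind with
    | _ u v =>
      rw [mem_missSet]
      constructor
      · rintro ⟨h1, h2, h3, h4⟩
        by_contra h5
        exact h4 (Or.inr ⟨h1, h2, h3, h5⟩)
      · intro h
        have h1 : g u ≠ none ∧ g v ≠ none ∧ g u ≠ g v := by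
          rcases h with h | h
          · have h2 := (mem_missSet G g u v).mp (hM0sub h)
            exact ⟨h2.1, h2.2.1, h2.2.2.1⟩
          · rcases hSt u v h with ⟨h2, h3⟩ | ⟨h2, h3⟩
            · rw [h2, h3]
              exact ⟨by simp, by simp, hne⟩
            · rw [h2, h3]
              exact ⟨by simp, by simp, hne.symm⟩
        refine ⟨h1.1, h1.2.1, h1.2.2, ?_⟩
        rintro (h2 | h2)
        · rcases h2.1 with h3 | h3
          · exact h1.1 h3
          · exact h1.2.1 h3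
        · exact h2.2.2.2 h
  have hdiag : ∀ (G' : SimpleGraph V) (u : V), s(u, u) ∉ missSet G' g := by
    intro G' u h
    exact ((mem_missSet G' g u u).mp h).2.2.1 rfl
  refine ⟨HH G g S, M₁.ncard, ?_, ?_, ?_, ?_, ?_, ?_, ?_⟩
  · intro v w h1 h2 h3
    rcases h3 with h3 | h3
    · rcases h3.1 with h4 | h4
      · exact h1 h4
      · exact h1 (h2.trans h4)
    · exact h3.2.2.1 h2
  · intro u v hu
    constructor
    · rintro (h | h)
      · exact h.2
      · exact absurd hu h.1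
    · intro h
      exact Or.inl ⟨Or.inl hu, h⟩
  · intro u v hu hv
    by_cases hgu : g u = none
    · constructor
      · rintro (h | h)
        · exact h.2
        · exact absurd hgu h.1
      · exact fun h => Or.inl ⟨Or.inl hgu, h⟩
    · by_cases hgv : g v = none
      · constructor
        · rintro (h | h)
          · exact h.2
          · exact absurd hgv h.2.1
        · exact fun h => Or.inl ⟨Or.inr hgv, h⟩
      · have huX : u ∈ Xs G g := ⟨hgu, hu⟩
        have hvX : v ∈ Xs G g := ⟨hgv, hv⟩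
        constructor
        · rintro (h | h)
          · exact h.2
          · by_contra hnadj
            apply h.2.2.2
            left
            refine ⟨(mem_missSet G g u v).mpr ⟨hgu, hgv, h.2.2.1, hnadj⟩, ?_⟩
            intro w hw
            rw [Sym2.mem_iff] at hw
            rcases hw with rfl | rfl
            · exact huX
            · exact hvX
        · intro h
          right
          refine ⟨hgu, hgv, fun h' => hI u v hgu h' h, ?_⟩
          rintro (h1 | h1)
          · exact ((mem_missSet G g u v).mp (hM0sub h1)).2.2.2 h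
          · obtain ⟨y, hy, h2⟩ := h1
            have h3 : s(p, y) = s(u, v) := h2
            rw [Sym2.eq_iff] at h3
            rcases h3 with ⟨rfl, rfl⟩ | ⟨rfl, rfl⟩
            · exact hpX huX
            · exact hpX hvX
  · rw [hmiss, hcard, hS, Set.ncard_union_eq hdisj (Set.toFinite _) (Set.toFinite _), St_card,
      hTcard]
  · rw [miss_eq, miss_eq, hmiss]
    have hsplit : missSet G g = M₀ ∪ M₁ := by
      rw [hM1, Set.union_sdiff_cancel hM0sub]
    have hdisj' : Disjoint M₀ M₁ := by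
      rw [hM1]
      exact Set.disjoint_sdiff_right
    have e1 := sum_union (missSet G g) M₀ M₁ hsplit hdisj' (fun v => Y (g v))
    have e2 := sum_union S M₀ (St p T) hS hdisj (fun v => Y (g v))
    have h1 : ∑ u : V, ∑ v : V, (if s(u, v) ∈ St p T then Y (g u) * Y (g v) else 0) =
        Y (some i) * Y (some j) * (2 * (M₁.ncard : ℝ)) := by
      rw [← hTcard, ← St_card p T, ← ordered (St p T) (by
        intro u h
        apply hdiag (HH G g S) u
        rw [hmiss]
        exact Or.inr h), Finset.mul_sum]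
      apply Finset.sum_congr rfl
      intro u _
      rw [Finset.mul_sum]
      apply Finset.sum_congr rfl
      intro v _
      by_cases h : s(u, v) ∈ St p T
      · rw [if_pos h, if_pos h]
        rcases hSt u v h with ⟨h2, h3⟩ | ⟨h2, h3⟩
        · rw [h2, h3, mul_one]
        · rw [h2, h3, mul_one, mul_comm]
      · rw [if_neg h, if_neg h, mul_zero]
    have h2 : Y (some i) * Y (some j) * (2 * (M₁.ncard : ℝ)) ≤
        ∑ u : V, ∑ v : V, (if s(u, v) ∈ M₁ then Y (g u) * Y (g v) else 0) := by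
      rw [← ordered M₁ (fun u h => hdiag G u h.1), Finset.mul_sum]
      apply Finset.sum_le_sum
      intro u _
      rw [Finset.mul_sum]
      apply Finset.sum_le_sum
      intro v _
      by_cases h : s(u, v) ∈ M₁
      · rw [if_pos h, if_pos h, mul_one]
        have h3 := (mem_missSet G g u v).mp h.1
        obtain ⟨s, hs⟩ := Option.ne_none_iff_exists'.mp h3.1
        obtain ⟨t, ht⟩ := Option.ne_none_iff_exists'.mp h3.2.1
        rw [hs, ht]
        apply hmin' s t
        rintro rfl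
        exact h3.2.2.1 (hs.trans ht.symm)
      · rw [if_neg h, if_neg h, mul_zero]
    rw [e1, e2]
    refine add_le_add le_rfl (le_trans (le_of_eq ?_) (le_trans h2 (le_of_eq ?_)))
    · convert h1
    · congr!
  · have h1 := M0_card G g
    rw [← hM0] at h1
    rw [hcard]
    omega
  · have h1 : M₁.ncard ≤ mdeg (HH G g S) g p := by
      rw [← hTcard]
      unfold mdeg
      apply Set.ncard_le_ncard _ (Set.toFinite _)
      intro y hy
      have hyj : g y = some j := hTsub hy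
      refine ⟨by rw [hpi]; simp, by rw [hyj]; simp, by rw [hpi, hyj]; exact hne.symm, ?_⟩
      rintro (h | h)
      · rcases h.1 with h3 | h3
        · rw [hpi] at h3
          simp at h3
        · rw [hyj] at h3
          simp at h3
      · exact h.2.2.2 (Or.inr ⟨y, hy, rfl⟩)
    have h2 : ((M₁.ncard : ℕ) : ℝ) ^ 2 ≤ (mdeg (HH G g S) g p : ℝ) ^ 2 := by
      have : (M₁.ncard : ℝ) ≤ mdeg (HH G g S) g p := by exact_mod_cast h1
      have h0 : (0 : ℝ) ≤ M₁.ncard := Nat.cast_nonneg _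
      nlinarith
    refine h2.trans ?_
    exact Finset.single_le_sum (f := fun v => (mdeg (HH G g S) g v : ℝ) ^ 2)
      (fun v _ => sq_nonneg _) (Finset.mem_univ p)

end MP0c3a8f

end

section

/-!
# MP_0c3a8f_co, phase B: item SWM (changing the missing pairs)
-/

open Finset

namespace MP0c3a8f

namespace ItemSWM

/-- the vertices of a finite set of pairs -/
theorem verts_le {V : Type} [Fintype V] (S : Set (Sym2 V)) :
    {v | ∃ e ∈ S, v ∈ e}.ncard ≤ 2 * S.ncard := by
  classical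
  have hS : S.Finite := S.toFinite
  have h1 : {v | ∃ e ∈ S, v ∈ e} ⊆
      (hS.toFinset.biUnion fun e => univ.filter fun v => v ∈ e : Finset V) := by
    rintro v ⟨e, he, hv⟩
    exact mem_coe.2 (mem_biUnion.2 ⟨e, hS.mem_toFinset.2 he, mem_filter.2 ⟨mem_univ v, hv⟩⟩)
  have h2 := Set.ncard_le_ncard h1 (Finset.finite_toSet _)
  rw [Set.ncard_coe_finset] at h2
  have h3 : (hS.toFinset.biUnion fun e => univ.filter fun v => v ∈ e : Finset V).card ≤
      hS.toFinset.card * 2 := by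
    refine card_biUnion_le_card_mul _ _ _ fun e _ => ?_
    induction e using Sym2.ind with
    | _ a b =>
      have : (univ.filter fun v => v ∈ s(a, b)) ⊆ ({a, b} : Finset V) := by
        intro v hv
        have := (mem_filter.1 hv).2
        rw [Sym2.mem_iff] at this
        rw [mem_insert, mem_singleton]
        exact this
      exact (card_le_card this).trans card_le_two
  rw [Set.ncard_eq_toFinset_card S hS]
  omega

/-- clean vertices -/
structure Cl {V : Type} {r : ℕ} (G H : SimpleGraph V) (g : V → Option (Fin r)) (v : V) :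
    Prop where
  gadj : ∀ x, g x ≠ none → g x ≠ g v → G.Adj v x
  hadj : ∀ x, g x ≠ none → g x ≠ g v → H.Adj v x
  nolight : ∀ x, g x = none → ¬ G.Adj v x

/-- there are many clean vertices -/
theorem many {V : Type} [Fintype V] {r : ℕ} (G H : SimpleGraph V) (g : V → Option (Fin r))
    (t : Fin r) (N : ℕ)
    (h : N + 2 * ((missSet G g).ncard + (missSet H g).ncard + (outSet G g).ncard) ≤ siz g t) :
    N ≤ {v | g v = some t ∧ Cl G H g v}.ncard := by
  have h1 : {v | g v = some t} ⊆ {v | g v = some t ∧ Cl G H g v} ∪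
      {v | ∃ e ∈ missSet G g ∪ missSet H g ∪ outSet G g, v ∈ e} := by
    intro v hv
    have hv' : g v = some t := hv
    have hv0 : g v ≠ none := by rw [hv']; exact Option.some_ne_none t
    by_cases hB : ∃ e ∈ missSet G g ∪ missSet H g ∪ outSet G g, v ∈ e
    · exact Or.inr hB
    · refine Or.inl ⟨hv', ⟨fun x hx hxv => ?_, fun x hx hxv => ?_, fun x hx hA => ?_⟩⟩
      · by_contra hA
        exact hB ⟨s(v, x), Or.inl (Or.inl ⟨v, x, rfl, hv0, hx, hxv.symm, hA⟩),
          Sym2.mem_mk_left v x⟩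
      · by_contra hA
        exact hB ⟨s(v, x), Or.inl (Or.inr ⟨v, x, rfl, hv0, hx, hxv.symm, hA⟩),
          Sym2.mem_mk_left v x⟩
      · exact hB ⟨s(v, x), Or.inr ⟨hA, x, Sym2.mem_mk_right v x, hx⟩, Sym2.mem_mk_left v x⟩
  have h2 := Set.ncard_le_ncard h1 (Set.toFinite _)
  have h3 := Set.ncard_union_le {v | g v = some t ∧ Cl G H g v}
    {v | ∃ e ∈ missSet G g ∪ missSet H g ∪ outSet G g, v ∈ e}
  have h4 := verts_le (missSet G g ∪ missSet H g ∪ outSet G g)
  have h5 := Set.ncard_union_le (missSet G g ∪ missSet H g) (outSet G g)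
  have h6 := Set.ncard_union_le (missSet G g) (missSet H g)
  unfold siz at h
  omega

/-- `F`-free -/
theorem free {W : Type} [Fintype W] {F : SimpleGraph W} {r : ℕ} {V : Type} [Fintype V]
    {G H : SimpleGraph V} {g : V → Option (Fin r)} (hF : F.Free G) (hH : Indep H g)
    (hsiz : ∀ t, Fintype.card W ≤ {v | g v = some t ∧ Cl G H g v}.ncard)
    (h1 : ∀ u v, g u = none → (H.Adj u v ↔ G.Adj u v))
    (h2 : ∀ u v, (∃ x, g x = none ∧ G.Adj u x) → (∃ x, g x = none ∧ G.Adj v x) →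
      (H.Adj u v ↔ G.Adj u v)) : F.Free H := by
  classical
  rintro ⟨φ⟩
  apply hF
  have hemb : ∀ t, Nonempty (W ↪ {v // g v = some t ∧ Cl G H g v}) := by
    intro t
    refine Function.Embedding.nonempty_of_card_le ?_
    rw [Fintype.card_subtype]
    have := hsiz t
    rw [Set.ncard_eq_toFinset_card', Set.toFinset_ofPred] at this
    exact this
  obtain ⟨ι⟩ : Nonempty (∀ t, W ↪ {v // g v = some t ∧ Cl G H g v}) :=
    ⟨fun t => (hemb t).some⟩
  have hex : ∀ w, ∃ y, ((g (φ w) ≠ none ∧ ¬ ∃ x, g x = none ∧ G.Adj (φ w) x) →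
      ∃ t, g (φ w) = some t ∧ y = (ι t w).1) ∧
      (¬ (g (φ w) ≠ none ∧ ¬ ∃ x, g x = none ∧ G.Adj (φ w) x) → y = φ w) := by
    intro w
    by_cases hR : g (φ w) ≠ none ∧ ¬ ∃ x, g x = none ∧ G.Adj (φ w) x
    · obtain ⟨t, ht⟩ := Option.ne_none_iff_exists'.1 hR.1
      exact ⟨_, fun _ => ⟨t, ht, rfl⟩, fun h => absurd hR h⟩
    · exact ⟨φ w, fun h => absurd h hR, fun _ => rfl⟩
  choose ψ hψ1 hψ2 using hex
  have hinj : Function.Injective φ := φ.injective
  -- the images of the changed vertices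
  have himg : ∀ w, (g (φ w) ≠ none ∧ ¬ ∃ x, g x = none ∧ G.Adj (φ w) x) →
      g (ψ w) = g (φ w) ∧ Cl G H g (ψ w) := by
    intro w hw
    obtain ⟨t, ht, hy⟩ := hψ1 w hw
    rw [hy, ht]
    exact (ι t w).2
  have hcls : ∀ w, g (ψ w) = g (φ w) := by
    intro w
    by_cases hR : g (φ w) ≠ none ∧ ¬ ∃ x, g x = none ∧ G.Adj (φ w) x
    · exact (himg w hR).1
    · rw [hψ2 w hR]
  have hψinj : Function.Injective ψ := by
    have hne : ∀ w w', (g (φ w) ≠ none ∧ ¬ ∃ x, g x = none ∧ G.Adj (φ w) x) →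
        ¬ (g (φ w') ≠ none ∧ ¬ ∃ x, g x = none ∧ G.Adj (φ w') x) → ψ w ≠ ψ w' := by
      intro w w' hw hw' he
      obtain ⟨h3, h4⟩ := himg w hw
      rw [he, hψ2 w' hw'] at h3 h4
      apply hw'
      refine ⟨by rw [h3]; exact hw.1, ?_⟩
      rintro ⟨x, hx, hA⟩
      exact h4.nolight x hx hA
    intro w w' he
    by_cases hw : g (φ w) ≠ none ∧ ¬ ∃ x, g x = none ∧ G.Adj (φ w) x
    · by_cases hw' : g (φ w') ≠ none ∧ ¬ ∃ x, g x = none ∧ G.Adj (φ w') x
      · obtain ⟨t, ht, hy⟩ := hψ1 w hw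
        obtain ⟨t', ht', hy'⟩ := hψ1 w' hw'
        have htt : t = t' := by
          have h3 := hcls w
          have h4 := hcls w'
          rw [he] at h3
          rw [h3, ht, ht'] at h4
          exact Option.some_injective _ h4
        subst htt
        rw [hy, hy'] at he
        exact (ι t).injective (Subtype.ext he)
      · exact absurd he (hne w w' hw hw')
    · by_cases hw' : g (φ w') ≠ none ∧ ¬ ∃ x, g x = none ∧ G.Adj (φ w') x
      · exact absurd he.symm (hne w' w hw' hw)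
      · rw [hψ2 w hw, hψ2 w' hw'] at he
        exact hinj he
  have hone : ∀ w w', F.Adj w w' → (g (φ w) ≠ none ∧ ¬ ∃ x, g x = none ∧ G.Adj (φ w) x) →
      G.Adj (ψ w) (ψ w') := by
    intro w w' hA hw
    have hHA : H.Adj (φ w) (φ w') := φ.toHom.map_adj hA
    have h3 : g (φ w') ≠ none := by
      intro h4
      exact hw.2 ⟨φ w', h4, ((h1 (φ w') (φ w) h4).1 hHA.symm).symm⟩
    have h5 : g (φ w') ≠ g (φ w) := fun h6 => hH (φ w) (φ w') hw.1 h6.symm hHA
    exact (himg w hw).2.gadj (ψ w') (by rw [hcls]; exact h3) (by rw [hcls, hcls]; exact h5)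
  refine ⟨⟨⟨ψ, ?_⟩, hψinj⟩⟩
  intro w w' hA
  by_cases hw : g (φ w) ≠ none ∧ ¬ ∃ x, g x = none ∧ G.Adj (φ w) x
  · exact hone w w' hA hw
  · by_cases hw' : g (φ w') ≠ none ∧ ¬ ∃ x, g x = none ∧ G.Adj (φ w') x
    · exact (hone w' w hA.symm hw').symm
    · rw [hψ2 w hw, hψ2 w' hw']
      have hHA : H.Adj (φ w) (φ w') := φ.toHom.map_adj hA
      by_cases h3 : g (φ w) = none
      · exact (h1 _ _ h3).1 hHA
      · by_cases h4 : g (φ w') = none
        · exact ((h1 _ _ h4).1 hHA.symm).symm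
        · have h5 : ∃ x, g x = none ∧ G.Adj (φ w) x := by
            by_contra h6
            exact hw ⟨h3, h6⟩
          have h7 : ∃ x, g x = none ∧ G.Adj (φ w') x := by
            by_contra h6
            exact hw' ⟨h4, h6⟩
          exact (h2 _ _ h5 h7).1 hHA

end ItemSWM

open ItemSWM in
theorem prfSWM : SWM_statement := by
  intro W _ F r V _ G H g hr hF hG hiso hIG hIH hsiz h1 h2
  have hmany : ∀ t, Fintype.card W + 2 ≤ {v | g v = some t ∧ Cl G H g v}.ncard := by
    intro t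
    refine many G H g t _ ?_
    have := hsiz t
    omega
  refine ⟨free hF hIH (fun t => by have := hmany t; omega) h1 h2, ?_, ?_⟩
  · -- not colorable
    rintro ⟨c⟩
    apply hG
    have hp : ∀ t, ∃ v, g v = some t ∧ Cl G H g v := by
      intro t
      have h3 : 0 < {v | g v = some t ∧ Cl G H g v}.ncard := by
        have := hmany t
        omega
      exact (Set.ncard_pos).1 h3
    choose p hp1 hp2 using hp
    have hinj : Function.Injective fun t => c (p t) := by
      intro s t hst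
      by_contra hne
      refine c.valid ((hp2 s).hadj (p t) ?_ ?_) hst
      · rw [hp1]
        exact Option.some_ne_none t
      · rw [hp1, hp1]
        exact fun h => hne (Option.some_injective _ h).symm
    have hsurj := Finite.injective_iff_surjective.1 hinj
    have hcol : ∀ v t, g v = some t → c v = c (p t) := by
      intro v t hv
      obtain ⟨s, hs⟩ := hsurj (c v)
      have hs' : c (p s) = c v := hs
      by_cases hst : s = t
      · rw [← hs', hst]
      · exfalso
        refine c.valid ((hp2 s).hadj v ?_ ?_) hs'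
        · rw [hv]
          exact Option.some_ne_none t
        · rw [hv, hp1]
          exact fun h => hst (Option.some_injective _ h).symm
    refine ⟨SimpleGraph.Coloring.mk c ?_⟩
    intro u v hA
    by_cases hu : g u = none
    · exact c.valid ((h1 u v hu).2 hA)
    · by_cases hv : g v = none
      · exact (c.valid ((h1 v u hv).2 hA.symm)).symm
      · obtain ⟨s, hs⟩ := Option.ne_none_iff_exists'.1 hu
        obtain ⟨t, ht⟩ := Option.ne_none_iff_exists'.1 hv
        have hst : s ≠ t := by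
          intro h
          exact hIG u v hu (by rw [hs, ht, h]) hA
        rw [hcol u s hs, hcol v t ht]
        exact fun h => hst (hinj h)
  · intro v
    by_cases hv : g v = none
    · obtain ⟨u, hu⟩ := hiso v
      exact ⟨u, (h1 v u hv).2 hu⟩
    · obtain ⟨t, ht⟩ := Option.ne_none_iff_exists'.1 hv
      have hex : ∃ s : Fin r, s ≠ t := by
        have : Nontrivial (Fin r) := Fin.nontrivial_iff_two_le.2 (by omega)
        exact exists_ne t
      obtain ⟨s, hs⟩ := hex
      have h3 : 0 < {v | g v = some s ∧ Cl G H g v}.ncard := by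
        have := hmany s
        omega
      obtain ⟨u, hu, hc⟩ := (Set.ncard_pos).1 h3
      refine ⟨u, (hc.hadj v hv ?_).symm⟩
      rw [ht, hu]
      exact fun h => hs (Option.some_injective _ h).symm

end MP0c3a8f

end

section

/-!
# MP_0c3a8f_co, phase B, item FIND: the maximisers minimise the cost up to `o(1)`
-/

set_option autoImplicit false

open Finset

namespace MP0c3a8f

namespace ItemFIND

theorem light_empty {V : Type} {r : ℕ} (G : SimpleGraph V) (g : V → Option (Fin r)) :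
    lightSet G g ∅ = outSet G g := by
  ext e
  simp [lightSet, outSet]

theorem root_le {n : ℕ} (hn : 1 ≤ n) : Real.sqrt (Real.sqrt (n : ℝ)) ≤ n := by
  have h1 : (1 : ℝ) ≤ n := by exact_mod_cast hn
  have h2 : Real.sqrt (n : ℝ) ≤ n := by
    rw [Real.sqrt_le_left (by linarith)]
    nlinarith
  refine (Real.sqrt_le_sqrt h2).trans h2

theorem turan (hD : DEV_statement) (r n : ℕ) (hr : 1 ≤ r) :
    0 ≤ dev (tz r n) ∧ dev (tz r n) ≤ r ∧
      2 * ((SimpleGraph.turanGraph n r).edgeSet.ncard : ℝ) = qq r * (n : ℝ) ^ 2 - dev (tz r n) := by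
  classical
  have h0 : ∑ t, (Pi.single (⟨0, hr⟩ : Fin r) n : Fin r → ℕ) t = n := by
    rw [Finset.sum_pi_single']
    simp
  obtain ⟨h1, -, h2, -, -, h3⟩ := hD r n _ hr h0
  obtain ⟨-, -, -, h4, -, -⟩ := hD r n (tz r n) hr h1
  refine ⟨Finset.sum_nonneg fun t _ => sq_nonneg _, h2, ?_⟩
  unfold Sz at h3
  rw [h1] at h3
  have h5 : 2 * ((SimpleGraph.turanGraph n r).edgeSet.ncard : ℝ) + ∑ t, (tz r n t : ℝ) ^ 2 =
      (n : ℝ) ^ 2 := by
    have h6 : 2 * (SimpleGraph.turanGraph n r).edgeSet.ncard + ∑ t, tz r n t ^ 2 = n ^ 2 := by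
      omega
    exact_mod_cast h6
  rw [h4]
  unfold qq
  linear_combination h5

theorem qq_le {r : ℕ} : qq r ≤ 1 := by
  unfold qq
  have : (0 : ℝ) ≤ 1 / (r : ℝ) := by positivity
  linarith

theorem turan_le (hD : DEV_statement) (r n : ℕ) (hr : 1 ≤ r) :
    (SimpleGraph.turanGraph n r).edgeSet.ncard ≤ n ^ 2 := by
  obtain ⟨h2, -, h4⟩ := turan hD r n hr
  have h5 : qq r * (n : ℝ) ^ 2 ≤ 1 * (n : ℝ) ^ 2 :=
    mul_le_mul_of_nonneg_right qq_le (sq_nonneg _)
  have h6 : ((SimpleGraph.turanGraph n r).edgeSet.ncard : ℝ) ≤ (n : ℝ) ^ 2 := by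
    have := sq_nonneg (n : ℝ)
    linarith
  exact_mod_cast h6

theorem small (C η : ℝ) (hη : 0 < η) : ∃ n₀ : ℕ, ∀ n ≥ n₀, C / (n : ℝ) ≤ η ∧
    C / Real.sqrt (Real.sqrt (n : ℝ)) ≤ η := by
  have h1 : Filter.Tendsto (fun n : ℕ => C / (n : ℝ)) Filter.atTop (nhds 0) :=
    tendsto_const_nhds.div_atTop tendsto_natCast_atTop_atTop
  have h2 : Filter.Tendsto (fun n : ℕ => C / Real.sqrt (Real.sqrt (n : ℝ))) Filter.atTop
      (nhds 0) :=
    tendsto_const_nhds.div_atTop (Real.tendsto_sqrt_atTop.comp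
      (Real.tendsto_sqrt_atTop.comp tendsto_natCast_atTop_atTop))
  obtain ⟨n₀, h⟩ := Filter.eventually_atTop.1
    ((h1.eventually (eventually_le_nhds hη)).and (h2.eventually (eventually_le_nhds hη)))
  exact ⟨n₀, h⟩

theorem bd_mono {V : Type} {r n N N' : ℕ} {G : SimpleGraph V} {g : V → Option (Fin r)} {w : V}
    (h : N ≤ N') (hb : Bd n N G g w) : Bd n N' G g w :=
  ⟨hb.indep, hb.out, hb.tot, hb.bnd.trans (by exact_mod_cast h)⟩

theorem lam_nonneg (hP : P_statement) {V W : Type} [Fintype V] {r m : ℕ} {F : SimpleGraph W}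
    {G : SimpleGraph V} (hG : InN r m F G) : 0 ≤ lam G := by
  rcases isEmpty_or_nonempty V with h | h
  · exact absurd ⟨SimpleGraph.Coloring.mk (fun v => isEmptyElim v)
      (fun {v} => isEmptyElim v)⟩ hG.notPartite
  · exact (hP V G).1

/-- comparison of the defects -/
theorem def_le {V U : Type} [Fintype V] [Fintype U] {r m : ℕ} {G : SimpleGraph V}
    {H : SimpleGraph U} (hG : G.edgeSet.ncard = m) (hH : H.edgeSet.ncard = m)
    (h0 : 0 ≤ lam H) (hl : lam H ≤ lam G) : Def r G ≤ Def r H := by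
  unfold Def
  rw [hG, hH]
  have : lam H ^ 2 ≤ lam G ^ 2 := pow_le_pow_left₀ h0 hl 2
  linarith

/-- the defect and the cost -/
theorem def_cs {V : Type} [Fintype V] {r m : ℕ} {G : SimpleGraph V} (g : V → Option (Fin r))
    (U : Finset V) (hG : G.edgeSet.ncard = m) {x : ℝ}
    (h1 : lam G ^ 2 ≤ lam (KU G g U) ^ 2 - 4 * qq r * (missSet G g).ncard + x)
    (h2 : lam (KU G g U) ^ 2 - 4 * qq r * (missSet G g).ncard - x ≤ lam G ^ 2) :
    |Def r G - Cs m G g U| ≤ x := by
  unfold Def Cs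
  rw [hG, abs_le]
  constructor <;> linarith

end ItemFIND

open ItemFIND in
theorem prfFIND : P_statement → DEV_statement → CNTU_statement → TURN_statement →
    FINB_statement → BDU_statement → UPL_statement → LOL_statement → FIND_statement := by
  classical
  intro hP hDe hCn hT hB hBD hU hL W _ F r hr hcrit hcol hncol
  obtain ⟨N1, m0, h1⟩ := hB W F r hr hcrit hcol hncol
  obtain ⟨N, hN⟩ : ∃ N : ℕ, N = 2 * N1 + r + 2 := ⟨_, rfl⟩
  have hN1N : N1 ≤ N := by omega
  have hN1N' : (N1 : ℝ) ≤ (N : ℝ) := by exact_mod_cast hN1N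
  refine ⟨N, fun η N' hη => ?_⟩
  have hη2 : 0 < η / 2 := by linarith
  have key : ∀ M : ℕ, ∃ n₀ : ℕ, ∀ n ≥ n₀, ∀ (V : Type) [Fintype V]
      (G : SimpleGraph V) (g : V → Option (Fin r)) (m : ℕ), G.edgeSet.ncard = m →
      (∀ w, Bd n M G g w → |Def r G - Cs m G g {w}| ≤ η / 2) ∧
      (NK (n + 1) M G g → |Def r G - Cs m G g ∅| ≤ η / 2) := by
    intro M
    obtain ⟨C1, n1, -, k1⟩ := hBD r M hr
    obtain ⟨C2, n2, -, k2⟩ := hU r M hr (Nat.cast_nonneg M)
    obtain ⟨C3, n3, -, k3⟩ := hL r M hr (Nat.cast_nonneg M)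
    obtain ⟨a1, s1⟩ := small C1 (η / 2) hη2
    obtain ⟨a2, s2⟩ := small C2 (η / 2) hη2
    obtain ⟨a3, s3⟩ := small C3 (η / 2) hη2
    refine ⟨n1 + n2 + n3 + a1 + a2 + a3, fun n hn V _ G g m hG => ⟨fun w hw => ?_, fun hk => ?_⟩⟩
    · have e1 := k1 V G g w n (by omega) hw
      have e2 := (s1 n (by omega)).1
      rw [abs_le] at e1
      exact def_cs g {w} hG (by linarith [e1.2]) (by linarith [e1.1])
    · have e1 := k2 V G g (n + 1) (by omega) hk
      have e2 := k3 V G g (n + 1) (by omega) hk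
      have e3 := (s2 (n + 1) (by omega)).2
      have e4 := (s3 (n + 1) (by omega)).2
      exact def_cs g ∅ hG (by linarith) (by linarith)
  obtain ⟨n1, k1⟩ := key N
  obtain ⟨n2, k2⟩ := key N'
  refine ⟨max m0 ((n1 + n2 + 1) ^ 2), fun m hm => ?_⟩
  rw [ge_iff_le, max_le_iff] at hm
  obtain ⟨n, D, B, e1, e2, e3, e4⟩ := h1 m hm.1
  have hn : n1 + n2 + 1 ≤ n + 1 := by
    have h3 := turan_le hDe r (n + 1) (by omega)
    have h4 : (n1 + n2 + 1) ^ 2 ≤ (n + 1) ^ 2 := by omega
    exact (Nat.pow_le_pow_iff_left (by norm_num)).1 h4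
  refine ⟨n, D, B, e1, e2, e3, fun V _ G hG => ?_⟩
  obtain ⟨e5, e6⟩ := e4 V G hG
  refine ⟨e5.trans (mul_le_mul_of_nonneg_right hN1N' (Real.sqrt_nonneg _)), ?_⟩
  have hGm : G.edgeSet.ncard = m := hG.1.size
  have low : ∀ c : ℝ, c ≤ Def r G + η / 2 → LowC r m n N' η F c := by
    intro c hc Y _ H h hH
    have d1 : Def r G ≤ Def r H := def_le hGm hH.size (lam_nonneg hP hH) (hG.2 Y H hH)
    have d2 := k2 n (by omega) Y H h m hH.size
    refine ⟨fun u hu => ?_, fun hk => ?_⟩
    · have d3 := (abs_le.1 (d2.1 u hu)).2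
      linarith
    · have d3 := (abs_le.1 (d2.2 hk)).2
      linarith
  rcases e6 with e6 | e6
  · obtain ⟨a1, g, w, a2, a3⟩ := e6
    have a4 : Bd n N G g w := bd_mono hN1N a2
    have a5 := (k1 n (by omega) V G g m hGm).1 w a4
    refine ⟨g, w, Or.inl ⟨⟨a1.trans hN1N', a4, fun b1 b2 => a3 (hN1N.trans b1)
      ((Nat.mul_le_mul_right D hN1N).trans b2)⟩, a5.trans (by linarith), low _ ?_⟩⟩
    linarith [(abs_le.1 a5).1]
  · obtain ⟨g1, g, w, g2, g3, g7, g4, t₀, g5, g6⟩ := e6
    have hBn : D + B + n / r = n := by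
      have := hT r n (by omega)
      omega
    have hBn0 : B ≤ n := by
      rw [← hBn, add_assoc]
      exact (Nat.le_add_right B (n / r)).trans (Nat.le_add_left _ D)
    have hBn' : (B : ℝ) ≤ n := by exact_mod_cast hBn0
    have hroot := root_le (n := n + 1) (by omega)
    have hroot0 : 0 ≤ Real.sqrt (Real.sqrt ((n + 1 : ℕ) : ℝ)) := Real.sqrt_nonneg _
    have ha0 : (0 : ℝ) ≤ (missSet G g).ncard := Nat.cast_nonneg _
    have hb0 : (0 : ℝ) ≤ (outSet G g).ncard := Nat.cast_nonneg _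
    have hr0 : (0 : ℝ) ≤ r := Nat.cast_nonneg r
    have hN10 : (0 : ℝ) ≤ N1 := Nat.cast_nonneg N1
    have hNr : (N : ℝ) = 2 * N1 + r + 2 := by rw [hN]; push_cast; ring
    have hNK : NK (n + 1) N G g := by
      refine ⟨g2, g3, ?_, ?_⟩
      · obtain ⟨e, he1, he2⟩ := hCn r V G g ∅ g2 (by simp)
        obtain ⟨-, -, -, hdv, -, -⟩ := hDe r (n + 1) (siz g) (by omega) g3
        obtain ⟨ht2, ht3, ht4⟩ := turan hDe r (n + 1) (by omega)
        have he0 : e = 0 := by
          simp only [Finset.card_empty, zero_mul, nonpos_iff_eq_zero, mul_eq_zero] at he1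
          omega
        rw [Finset.sum_empty, he0, g3, light_empty, hG.1.size] at he2
        have he3 : 2 * (m : ℝ) + 2 * ((missSet G g).ncard : ℝ)
            + ∑ t, (siz g t : ℝ) ^ 2 = ((n + 1 : ℕ) : ℝ) ^ 2 + 2 * 0 + 2 * 0
              + 2 * ((outSet G g).ncard : ℝ) := by exact_mod_cast he2
        have hm' : (m : ℝ) + B = ((SimpleGraph.turanGraph (n + 1) r).edgeSet.ncard : ℝ) := by
          exact_mod_cast e2
        have e7 : qq r * ((n + 1 : ℕ) : ℝ) ^ 2 = ((n + 1 : ℕ) : ℝ) ^ 2 -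
            ((n + 1 : ℕ) : ℝ) ^ 2 / r := by
          unfold qq
          ring
        have hb1 : ((outSet G g).ncard : ℝ) ≤ N1 * ((n + 1 : ℕ) : ℝ) := by
          have := mul_le_mul_of_nonneg_left hroot hN10
          linarith
        have hn1 : (1 : ℝ) ≤ ((n + 1 : ℕ) : ℝ) := by exact_mod_cast Nat.le_add_left 1 n
        have hnn : ((n + 1 : ℕ) : ℝ) = (n : ℝ) + 1 := by push_cast; ring
        have hrn : (r : ℝ) * 1 ≤ r * ((n + 1 : ℕ) : ℝ) := mul_le_mul_of_nonneg_left hn1 hr0
        have hn0 : (0 : ℝ) ≤ n := Nat.cast_nonneg n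
        rw [hdv, hNr]
        linarith
      · have := mul_le_mul_of_nonneg_right hN1N' hroot0
        linarith
    have hs2 : (0 : ℝ) ≤ ((n + 1 : ℕ) : ℝ) * Real.sqrt (Real.sqrt ((n + 1 : ℕ) : ℝ)) := by
      positivity
    have a5 := (k1 n (by omega) V G g m hGm).2 hNK
    refine ⟨g, w, Or.inr ⟨⟨g1.trans (mul_le_mul_of_nonneg_right hN1N' hroot0), hNK,
      g7.trans hN1N, t₀, g5.trans (mul_le_mul_of_nonneg_right hN1N' hs2), fun t htt =>
        (g6 t htt).trans (mul_le_mul_of_nonneg_right hN1N' hs2)⟩, a5.trans (by linarith), low _ ?_⟩⟩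
    linarith [(abs_le.1 a5).1]

end MP0c3a8f

end

section

/-!
# MP_0c3a8f_co, phase B, item CAB: the numbers of missing pairs and outer edges
-/

set_option autoImplicit false

open Finset

namespace MP0c3a8f

namespace CABx

theorem isKU_KU {V : Type} {r : ℕ} (G : SimpleGraph V) (g : V → Option (Fin r)) :
    IsKU (KU G g ∅) g ∅ where
  core := by
    intro u v hu hv
    constructor
    · rintro (h | h)
      · exact h.2.2
      · rcases h.2.1 with h | h
        · exact absurd h (Finset.notMem_empty _)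
        · exact absurd h (Finset.notMem_empty _)
    · intro h
      exact Or.inl ⟨hu, hv, h⟩
  exc := fun v hv => absurd hv (Finset.notMem_empty _)
  iso := by
    rintro u v hu - (h | h)
    · exact h.1 hu
    · rcases h.2.1 with h | h
      · exact absurd h (Finset.notMem_empty _)
      · exact absurd h (Finset.notMem_empty _)

theorem sz_of {V : Type} [Fintype V] {r : ℕ} {G : SimpleGraph V} {g : V → Option (Fin r)}
    (hI : Indep G g) : 2 * G.edgeSet.ncard + 2 * (missSet G g).ncard + ∑ t, siz g t ^ 2 =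
      (∑ t, siz g t) ^ 2 + 2 * (outSet G g).ncard := by
  have hM : IsModS (siz g) (missSet G g).ncard (outSet G g).ncard G g :=
    ⟨fun t => rfl, hI, rfl, rfl⟩
  exact prfREDS.2 r (siz g) _ _ V G g hM

/-- the comparison -/
theorem final (hTRK : TRK_statement) {r n m : ℕ} {C C1 C2 : ℝ} (hr : 3 ≤ r)
    (hU : ∀ (V : Type) [Fintype V] (G : SimpleGraph V) (g : V → Option (Fin r)), NK n C G g →
      lam G ^ 2 ≤ lam (KU G g ∅) ^ 2 - 4 * qq r * (missSet G g).ncard
        + C1 / Real.sqrt (Real.sqrt n))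
    (hL : ∀ (V : Type) [Fintype V] (G : SimpleGraph V) (g : V → Option (Fin r)), NK n C G g →
      lam (KU G g ∅) ^ 2 - 4 * qq r * (missSet G g).ncard - C2 / Real.sqrt (Real.sqrt n)
        ≤ lam G ^ 2)
    (hA : (C1 + C2) / Real.sqrt (Real.sqrt n) < 4 * qq r)
    {V : Type} [Fintype V] {G : SimpleGraph V} {g : V → Option (Fin r)} (hMx : MxK r m G)
    (hNK : NK n C G g) {a' b' : ℕ} (ha : a' + 1 ≤ (missSet G g).ncard)
    (hb : b' ≤ (outSet G g).ncard)
    (hab : (outSet G g).ncard + a' = b' + (missSet G g).ncard)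
    {k : ℕ} (H : SimpleGraph (Fin k)) (f : Fin k → Option (Fin r)) (hI : Indep H f)
    (hm : (missSet H f).ncard = a') (ho : (outSet H f).ncard = b')
    (hs : ∀ t, siz f t = siz g t) (hF : (⊤ : SimpleGraph (Fin (r + 1))).Free H)
    (hc : ¬ H.Colorable r) (hn : ∀ v, ∃ u, H.Adj v u) : False := by
  have hs' : siz f = siz g := funext hs
  have e1 := sz_of hNK.indep
  have e2 := sz_of hI
  rw [hs', hm, ho] at e2
  have hsize := hMx.1.size
  have hInN : InN r m (⊤ : SimpleGraph (Fin (r + 1))) H := by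
    refine ⟨hF, ?_, hn, hc⟩
    rw [hsize] at e1
    omega
  have hle := hMx.2 (Fin k) H hInN
  have hNKH : NK n C H f := by
    refine ⟨hI, ?_, ?_, ?_⟩
    · rw [hs']; exact hNK.tot
    · rw [hs']; exact hNK.dev
    · rw [hm, ho]
      refine le_trans ?_ hNK.few
      have h1 : (a' : ℝ) ≤ (missSet G g).ncard := by exact_mod_cast (by omega : a' ≤ _)
      have h2 : (b' : ℝ) ≤ (outSet G g).ncard := by exact_mod_cast hb
      linarith
  have hne : Nonempty (Fin k) := by
    by_contra hne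
    rw [not_nonempty_iff] at hne
    exact hc ⟨SimpleGraph.Coloring.mk (fun v => hne.elim v) (fun {v} => hne.elim v)⟩
  have hpos : 0 ≤ lam H := (prfP (Fin k) H).1
  have hsq : lam H ^ 2 ≤ lam G ^ 2 := pow_le_pow_left₀ hpos hle 2
  have hK : lam (KU G g ∅) = lam (KU H f ∅) :=
    hTRK r V (Fin k) (KU G g ∅) (KU H f ∅) g f (isKU_KU G g) (isKU_KU H f) fun t => (hs t).symm
  have h1 := hU V G g hNK
  have h2 := hL (Fin k) H f hNKH
  rw [hm, ← hK] at h2
  have hq : 0 < qq r := by
    unfold qq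
    have : (3 : ℝ) ≤ r := by exact_mod_cast hr
    have h3 : 1 / (r : ℝ) ≤ 1 / 3 := one_div_le_one_div_of_le (by norm_num) this
    linarith
  have h4 : ((a' : ℝ) + 1) ≤ (missSet G g).ncard := by exact_mod_cast ha
  have h5 : 4 * qq r * ((a' : ℝ) + 1) ≤ 4 * qq r * (missSet G g).ncard :=
    mul_le_mul_of_nonneg_left h4 (by linarith)
  have h6 : (C1 + C2) / Real.sqrt (Real.sqrt n) =
      C1 / Real.sqrt (Real.sqrt n) + C2 / Real.sqrt (Real.sqrt n) := add_div _ _ _
  nlinarith

theorem miss1 {V : Type} {r : ℕ} {G : SimpleGraph V} {f : V → Option (Fin r)} {w p p' : V}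
    {i j : Fin r} (h : Ty1 G f w p p' i j) : (missSet G f).ncard = 1 := by
  have h1 : missSet G f = {s(p, p')} := by
    ext e
    rw [Set.mem_singleton_iff]
    constructor
    · rintro ⟨u, v, rfl, hu, hv, hne, hadj⟩
      by_contra hcon
      exact hadj ((h.core u v hu hv).2 ⟨hne, hcon⟩)
    · rintro rfl
      have hp : f p ≠ none := by rw [h.hp]; simp
      have hp' : f p' ≠ none := by rw [h.hp']; simp
      refine ⟨p, p', rfl, hp, hp', ?_, fun hadj => ((h.core p p' hp hp').1 hadj).2 rfl⟩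
      rw [h.hp, h.hp']
      simpa using h.ij
  rw [h1, Set.ncard_singleton]

theorem miss2 {V : Type} {r : ℕ} {G : SimpleGraph V} {f : V → Option (Fin r)} {w u : V}
    {v : Fin r → V} {i : Fin r} (h : Ty2 G f w u v i) : (missSet G f).ncard = 0 := by
  have h1 : missSet G f = ∅ := by
    rw [Set.eq_empty_iff_forall_notMem]
    rintro e ⟨x, y, rfl, hx, hy, hne, hadj⟩
    exact hadj ((h.core x y hx hy).2 hne)
  rw [h1, Set.ncard_empty]

theorem ind1 {V : Type} {r : ℕ} {G : SimpleGraph V} {f : V → Option (Fin r)} {w p p' : V}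
    {i j : Fin r} (h : Ty1 G f w p p' i j) : Indep G f := by
  intro x y hx hxy hadj
  exact ((h.core x y hx (hxy ▸ hx)).1 hadj).1 hxy

theorem ind2 {V : Type} {r : ℕ} {G : SimpleGraph V} {f : V → Option (Fin r)} {w u : V}
    {v : Fin r → V} {i : Fin r} (h : Ty2 G f w u v i) : Indep G f := by
  intro x y hx hxy hadj
  exact ((h.core x y hx (hxy ▸ hx)).1 hadj) hxy

/-- at least `r` outer edges -/
theorem out_ge (hGRD : GRD_statement) {r : ℕ} (hr : 3 ≤ r) {V : Type} [Fintype V]
    {G : SimpleGraph V} {g : V → Option (Fin r)} (hI : Indep G g) (hc : ¬ G.Colorable r) :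
    r ≤ (outSet G g).ncard := by
  by_contra hlt
  push Not at hlt
  apply hc
  refine hGRD r V G {v | g v ≠ none} (fun v => (g v).getD ⟨0, by omega⟩) ?_ ?_
  · intro u v hu hv hadj heq
    obtain ⟨s, hs⟩ := Option.ne_none_iff_exists'.1 hu
    obtain ⟨t, ht⟩ := Option.ne_none_iff_exists'.1 hv
    have heq' : (g u).getD ⟨0, by omega⟩ = (g v).getD ⟨0, by omega⟩ := heq
    rw [hs, ht, Option.getD_some, Option.getD_some] at heq'
    exact hI u v hu (by rw [hs, ht, heq']) hadj
  · intro v hv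
    have hv' : g v = none := by
      by_contra h
      exact hv h
    refine lt_of_le_of_lt ?_ hlt
    refine Set.ncard_le_ncard_of_injOn (fun w => s(v, w)) ?_ ?_ (Set.toFinite _)
    · intro w hw
      exact ⟨hw, v, Sym2.mem_mk_left _ _, hv'⟩
    · intro w _ w' _ h
      exact Sym2.congr_right.1 h

theorem sum_vec {r : ℕ} (l : Fin r) (x : ℕ) :
    ∑ t : Fin r, (1 + if t = l then x else 0) = r + x := by
  rw [Finset.sum_add_distrib]
  simp

theorem sum_vec0 {r : ℕ} (i l : Fin r) (hil : i ≠ l) (x : ℕ) :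
    ∑ t : Fin r, (if t = i then 0 else 1 + if t = l then x else 0) + 1 = r + x := by
  have h1 : ∑ t : Fin r, (if t = i then 1 else 0) = 1 := by simp
  have h2 : ∑ t : Fin r, (if t = i then 0 else 1 + if t = l then x else 0) +
      ∑ t : Fin r, (if t = i then 1 else 0) = ∑ t : Fin r, (1 + if t = l then x else 0) := by
    rw [← Finset.sum_add_distrib]
    refine Finset.sum_congr rfl fun t _ => ?_
    by_cases h : t = i
    · subst h
      rw [if_pos rfl, if_pos rfl, if_neg hil]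
    · rw [if_neg h, if_neg h, add_zero]
  rw [h1, sum_vec l x] at h2
  exact h2

/-- the sizes of the classes -/
theorem size_low {V : Type} [Fintype V] {r n : ℕ} {C : ℝ} {G : SimpleGraph V}
    {g : V → Option (Fin r)} (h : NK n C G g)
    (hB : C * Real.sqrt (Real.sqrt n) + (2 * r + 2) + Real.sqrt (C * n) ≤ n / r) (t : Fin r) :
    (missSet G g).ncard + (outSet G g).ncard + (2 * r + 2) ≤ siz g t := by
  have h1 : ((siz g t : ℝ) - (∑ s, (siz g s : ℝ)) / r) ^ 2 ≤ C * n := by
    refine le_trans ?_ h.dev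
    unfold dev
    exact Finset.single_le_sum (f := fun t => ((siz g t : ℝ) - (∑ s, (siz g s : ℝ)) / r) ^ 2)
      (fun s _ => sq_nonneg _) (Finset.mem_univ t)
  have h2 : (∑ s, (siz g s : ℝ)) = n := by
    have := h.tot
    exact_mod_cast this
  rw [h2] at h1
  have h3 := Real.abs_le_sqrt h1
  have h4 := (abs_le.1 h3).1
  have h5 := h.few
  have h6 : ((missSet G g).ncard : ℝ) + (outSet G g).ncard + (2 * r + 2) ≤ siz g t := by
    linarith
  exact_mod_cast h6

theorem large (r : ℕ) (C D : ℝ) (hr : 3 ≤ r) (hC : 0 ≤ C) : ∃ n₀ : ℕ, ∀ n ≥ n₀,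
    D / Real.sqrt (Real.sqrt (n : ℝ)) < 4 * qq r ∧
    C * Real.sqrt (Real.sqrt (n : ℝ)) + (2 * r + 2) + Real.sqrt (C * n) ≤ (n : ℝ) / r := by
  have hr0 : (0 : ℝ) < r := by exact_mod_cast (by omega : 0 < r)
  have hq : 0 < 4 * qq r := by
    unfold qq
    have : (3 : ℝ) ≤ r := by exact_mod_cast hr
    have h3 : 1 / (r : ℝ) ≤ 1 / 3 := one_div_le_one_div_of_le (by norm_num) this
    linarith
  have hs : Filter.Tendsto (fun n : ℕ => Real.sqrt (n : ℝ)) Filter.atTop Filter.atTop :=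
    Real.tendsto_sqrt_atTop.comp tendsto_natCast_atTop_atTop
  have hss : Filter.Tendsto (fun n : ℕ => Real.sqrt (Real.sqrt (n : ℝ))) Filter.atTop
      Filter.atTop := Real.tendsto_sqrt_atTop.comp hs
  have h1 : ∀ᶠ n : ℕ in Filter.atTop, D / Real.sqrt (Real.sqrt (n : ℝ)) < 4 * qq r :=
    (hss.const_div_atTop D).eventually (eventually_lt_nhds hq)
  have h2 : ∀ᶠ n : ℕ in Filter.atTop,
      (r : ℝ) * (C + (2 * r + 2) + Real.sqrt C) ≤ Real.sqrt (n : ℝ) :=
    hs.eventually_ge_atTop _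
  have h3 : ∀ᶠ n : ℕ in Filter.atTop, (1 : ℝ) ≤ Real.sqrt (n : ℝ) := hs.eventually_ge_atTop _
  obtain ⟨n₀, hn₀⟩ := Filter.eventually_atTop.1 (h1.and (h2.and h3))
  refine ⟨n₀, fun n hn => ?_⟩
  obtain ⟨g1, g2, g3⟩ := hn₀ n hn
  refine ⟨g1, ?_⟩
  set s := Real.sqrt (n : ℝ) with hsdef
  have hn2 : (n : ℝ) = s * s := (Real.mul_self_sqrt (Nat.cast_nonneg n)).symm
  have k1 : Real.sqrt s ≤ s := by
    have : Real.sqrt s ≤ Real.sqrt (s * s) := Real.sqrt_le_sqrt (by nlinarith)
    rwa [Real.sqrt_mul_self (by linarith)] at this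
  have k2 : Real.sqrt (C * n) = Real.sqrt C * s := by
    rw [Real.sqrt_mul hC]
  have k3 : C * Real.sqrt s ≤ C * s := mul_le_mul_of_nonneg_left k1 hC
  have k4 : (2 * (r : ℝ) + 2) ≤ (2 * r + 2) * s := le_mul_of_one_le_right (by positivity) g3
  rw [k2, le_div_iff₀ hr0]
  calc (C * Real.sqrt s + (2 * r + 2) + Real.sqrt C * s) * r
      ≤ (C * s + (2 * r + 2) * s + Real.sqrt C * s) * r := by
        apply mul_le_mul_of_nonneg_right _ hr0.le
        linarith
    _ = ((r : ℝ) * (C + (2 * r + 2) + Real.sqrt C)) * s := by ring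
    _ ≤ s * s := mul_le_mul_of_nonneg_right g2 (by linarith)
    _ = n := hn2.symm

end CABx

open CABx in
theorem prfCAB : CNTU_statement → GRD_statement → UPL_statement → LOL_statement →
    TRK_statement → RLE_statement → MEM1_statement → MEM2_statement → MEMP_statement →
    FAM1_statement → FAM2_statement → FAMP_statement → CAB_statement := by
  intro _ hGRD hUPL hLOL hTRK hRLE hMEM1 hMEM2 hMEMP hFAM1 hFAM2 hFAMP r C hr hC
  obtain ⟨C1, n1, hC1, h1⟩ := hUPL r C hr hC
  obtain ⟨C2, n2, hC2, h2⟩ := hLOL r C hr hC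
  obtain ⟨n3, h3⟩ := large r C (C1 + C2) hr hC
  refine ⟨max n1 (max n2 n3), ?_⟩
  intro V _ G g n m hn hMx hNK
  have hn1 : n1 ≤ n := (le_max_left _ _).trans hn
  have hn2 : n2 ≤ n := (le_max_left _ _).trans ((le_max_right _ _).trans hn)
  have hn3 : n3 ≤ n := (le_max_right _ _).trans ((le_max_right _ _).trans hn)
  obtain ⟨hA, hB⟩ := h3 n hn3
  have hsize := size_low hNK hB
  have hbr := out_ge hGRD hr hNK.indep hMx.1.notPartite
  have hfin := fun {a' b' : ℕ} => final hTRK (C := C) hr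
    (fun V _ G g h => h1 V G g n hn1 h) (fun V _ G g h => h2 V G g n hn2 h) hA hMx hNK
    (a' := a') (b' := b')
  obtain ⟨a, ha⟩ : ∃ a, a = (missSet G g).ncard := ⟨_, rfl⟩
  obtain ⟨b, hb⟩ : ∃ b, b = (outSet G g).ncard := ⟨_, rfl⟩
  rw [← ha, ← hb] at hfin
  rw [← hb] at hbr
  have hsize' : ∀ t, a + b + (2 * r + 2) ≤ siz g t := by
    intro t
    rw [ha, hb]
    exact hsize t
  rw [← ha, ← hb]
  rcases Nat.eq_zero_or_pos a with ha0 | ha0
  · -- complete core
    have h4 := (hRLE r b V G g hr hNK.indep (by rw [← ha, ha0])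
      (fun t => by have := hsize' t; omega) hMx.1.free hMx.1.notPartite hMx.1.noIso hb.symm).1
    exact Or.inr (Or.inr ⟨ha0, h4⟩)
  · by_cases hb0 : b = r
    · exact Or.inl ⟨hb0, ha0⟩
    by_cases hcase : a = 1 ∧ b ≤ 2 * r - 1
    · exact Or.inr (Or.inl ⟨hcase.1, by omega, hcase.2⟩)
    exfalso
    rcases Nat.lt_or_ge (a + (r - 1)) b with hd | hd
    · rcases Nat.lt_or_ge (a + (2 * r - 2)) b with hd2 | hd2
      · -- no missing edge
        obtain ⟨x, hx⟩ : ∃ x, b = a + (2 * r - 1) + x := ⟨b - (a + (2 * r - 1)), by omega⟩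
        have hil : (⟨0, by omega⟩ : Fin r) ≠ ⟨2, by omega⟩ := by simp
        have hij : (⟨1, by omega⟩ : Fin r) ≠ ⟨0, by omega⟩ := by simp
        obtain ⟨k, H, f, w, u, v, hTh, -, hsz, hnb⟩ := hFAM2 r (siz g)
          (fun t => if t = ⟨0, by omega⟩ then 0 else 1 + if t = ⟨2, by omega⟩ then x else 0)
          ⟨0, by omega⟩ ⟨1, by omega⟩ hr (by simp)
          (by have := hsize' ⟨0, by omega⟩; omega)
          (by
            intro t ht
            have := hsize' t
            rw [if_neg ht]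
            split_ifs <;> constructor <;> omega)
          hij
          (by
            have := hsize' ⟨1, by omega⟩
            rw [if_neg hij, if_neg (by simp)]
            omega)
        obtain ⟨hF, hc, hiso, hed⟩ := hMEM2 r (Fin k) H f w u v _ hr hTh
          (fun t => by rw [hsz]; have := hsize' t; omega)
        have hI := ind2 hTh.ty
        have hmi := miss2 hTh.ty
        have he := sz_of hI
        rw [hmi] at he
        have hsum := sum_vec0 (⟨0, by omega⟩ : Fin r) ⟨2, by omega⟩ hil x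
        have hsum' : ∑ t, nbn H f w t + 1 = r + x := by
          rw [← hsum, Finset.sum_congr rfl fun t _ => hnb t]
        exact hfin (a' := 0) (b' := b - a) (by omega) (by omega) (by omega) H f hI hmi (by omega)
          hsz hF hc hiso
      · -- one missing edge
        obtain ⟨x, hx⟩ : ∃ x, b + 1 = a + r + x := ⟨b + 1 - (a + r), by omega⟩
        have hij : (⟨0, by omega⟩ : Fin r) ≠ ⟨1, by omega⟩ := by simp
        obtain ⟨k, H, f, w, p, p', hTh, hsz, hnb⟩ := hFAM1 r (siz g)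
          (fun t => 1 + if t = ⟨2, by omega⟩ then x else 0)
          ⟨0, by omega⟩ ⟨1, by omega⟩ hr hij (by simp) (by simp)
          (by
            intro t
            have := hsize' t
            split_ifs <;> constructor <;> omega)
        obtain ⟨hF, hc, hiso, hed⟩ := hMEM1 r (Fin k) H f w p p' _ _ hr hTh
          (fun t => by rw [hsz]; have := hsize' t; omega)
        have hI := ind1 hTh.ty
        have hmi := miss1 hTh.ty
        have he := sz_of hI
        rw [hmi] at he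
        have hsum := sum_vec (⟨2, by omega⟩ : Fin r) x
        have hsum' : ∑ t, nbn H f w t = r + x := by
          rw [← hsum, Finset.sum_congr rfl fun t _ => hnb t]
        exact hfin (a' := 1) (b' := r + x) (by omega) (by omega) (by omega) H f hI hmi (by omega)
          hsz hF hc hiso
    · -- type `P`
      obtain ⟨k, H, f, w, q, i, L, hTy, hLc, hsz⟩ := hFAMP r (a + r - b) (siz g) hr (by omega)
        (fun t => by have := hsize' t; omega)
      obtain ⟨hF, hc, hiso, hI, hmi, hou, -⟩ := hMEMP r (Fin k) H f w q i L hr hTy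
      rw [hLc] at hmi
      exact hfin (a' := a + r - b) (b' := r) (by omega) (by omega) (by omega) H f hI hmi hou
        hsz hF hc hiso

end MP0c3a8f

end

section

/-!
# MP_0c3a8f_co, PB8: item FINC (the extremal graphs for `K_{r+1}` in the upper range)
-/

set_option autoImplicit false

open Finset

namespace MP0c3a8f

namespace FINCx

/-- the candidates belong to `N_r(m, K_{r+1})` -/
theorem inN (hP : MEMP_statement) (h1 : MEM1_statement) (h2 : MEM2_statement) {r m : ℕ}
    (hr : 3 ≤ r) {σ : Fin r → ℕ} {U : Type} [Fintype U] (H : SimpleGraph U) (h : IsX σ m H) :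
    InN r m (⊤ : SimpleGraph (Fin (r + 1))) H := by
  obtain ⟨hσ, hm, hc⟩ := h
  rcases hc with ⟨a, f, w, q, i, L, hT, _⟩ | ⟨b, _, _, f, w, p, p', i, j, hT, _, hz, _⟩ |
    ⟨b, f, w, u, v, i, hT, _, _, hz, _⟩
  · obtain ⟨m1, m2, m3, _⟩ := hP r U H f w q i L hr hT
    exact ⟨m1, hm, m3, m2⟩
  · obtain ⟨m1, m2, m3, _⟩ := h1 r U H f w p p' i j hr hT fun t => by rw [hz t]; exact hσ t
    exact ⟨m1, hm, m3, m2⟩
  · obtain ⟨m1, m2, m3, _⟩ := h2 r U H f w u v i hr hT fun t => by
      rw [hz t]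
      exact le_trans (by norm_num) (hσ t)
    exact ⟨m1, hm, m3, m2⟩

end FINCx

theorem prfFINC : KCC_statement → CRT_statement → FINU_statement → NLU_statement →
    CAB_statement → PST_statement → PEV_statement → QST_statement → QEV_statement →
    RST_statement → RII_statement → REV_statement → MEMP_statement → MEM1_statement →
    MEM2_statement → FINC_statement := by
  intro hKCC hCRT hFINU hNLU hCAB hPST hPEV hQST hQEV hRST hRII hREV hMEMP hMEM1 hMEM2 r ε hr hε
  obtain ⟨hk1, hk2⟩ := hKCC r hr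
  obtain ⟨c1, c2, c3⟩ := hCRT (Fin (r + 1)) (⊤ : SimpleGraph (Fin (r + 1))) r hk1 hk2
  obtain ⟨N, n₁, h₁⟩ := hFINU (Fin (r + 1)) (⊤ : SimpleGraph (Fin (r + 1))) r ε hr c1 c3 c2 hε
  obtain ⟨C, c, n₂, hC, hc, h₂⟩ := hNLU r ε hr hε
  obtain ⟨n₃, h₃⟩ := hCAB r C hr hC
  obtain ⟨n₄, h₄⟩ := hPST r C c hr hC hc
  obtain ⟨n₅, h₅⟩ := hPEV r C c hr hC hc
  obtain ⟨n₆, h₆⟩ := hQST r C c hr hC hc
  obtain ⟨n₇, h₇⟩ := hQEV r C hr hC
  obtain ⟨n₈, h₈⟩ := hRST r C hr hC
  obtain ⟨n₉, h₉⟩ := hRII r C c hr hC hc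
  obtain ⟨n₁₀, h₁₀⟩ := hREV r C hr hC
  obtain ⟨n₁₁, h₁₁⟩ := FNWx.num r C 2 hr hC (by norm_num)
  refine ⟨n₁ + n₂ + n₃ + n₄ + n₅ + n₆ + n₇ + n₈ + n₉ + n₁₀ + n₁₁, ?_⟩
  intro n hn B m hB hm
  obtain ⟨hex, _⟩ := h₁ n (by omega) B m hB hm
  obtain ⟨s1, _, s3⟩ := h₁₁ n (by omega)
  have hfwd : ∀ (V : Type) [Fintype V] (G : SimpleGraph V), MxK r m G →
      ∃ σ : Fin r → ℕ, ∑ t, σ t = n ∧ IsX σ m G := by
    intro V _ G hG
    obtain ⟨g, i, hNL⟩ := h₂ n (by omega) B m hB hm V G hG
    have hn0 : 0 < c * Real.sqrt n := by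
      have : (0 : ℝ) < n := by exact_mod_cast s3
      positivity
    have hbig : ∀ t, t ≠ i → siz g t < siz g i := by
      intro t ht
      have h1 := hNL.big t ht
      have h2 : (siz g t : ℝ) < siz g i := by linarith
      exact_mod_cast h2
    have htwo : ∀ t, 2 ≤ siz g t := by
      intro t
      have h1 := FNWx.siz_low hNL.nk t
      have h2 : 0 ≤ 4 * (C * Real.sqrt (Real.sqrt n)) := by positivity
      have h3 : (2 : ℝ) ≤ siz g t := by linarith
      exact_mod_cast h3
    refine ⟨siz g, hNL.nk.tot, htwo, hG.1.size, ?_⟩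
    rcases h₃ V G g n m (by omega) hG hNL.nk with ⟨o1, o2⟩ | ⟨o1, o2, o3⟩ | ⟨o1, _⟩
    · left
      obtain ⟨w, q, L, hT⟩ := h₄ V G g i n m (by omega) hG hNL o1 o2
      obtain ⟨e1, e2, e3⟩ := h₅ V G g w q i L n m (by omega) hG hNL hT
      exact ⟨L.card, g, w, q, i, L, hT, e1, rfl, fun _ => rfl, hbig, e2, e3⟩
    · right
      left
      obtain ⟨w, p, p', j, hT, hj, hs⟩ := h₆ V G g i n m (by omega) hG hNL o1 o2 o3
      exact ⟨(outSet G g).ncard, o2, o3, g, w, p, p', i, j, hT, hs, fun _ => rfl, hbig, hj,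
        h₇ V G g w p p' i j n m (by omega) hG hNL.nk hT⟩
    · right
      right
      obtain ⟨w, u, v, k, hT⟩ := h₈ V G g n m (by omega) hG hNL.nk o1
      obtain rfl := h₉ V G g w u v i k n m (by omega) hG hNL hT
      obtain ⟨e1, e2⟩ := h₁₀ V G g w u v k n m (by omega) hG hNL.nk hT
      exact ⟨∑ t, nbn G g w t + r, g, w, u, v, k, hT, e1, rfl, fun _ => rfl, hbig, e2⟩
  refine ⟨hex, ?_⟩
  intro V _ G
  constructor
  · intro hG
    exact ⟨hfwd V G hG, fun U _ H σ _ hH => hG.2 U H (FINCx.inN hMEMP hMEM1 hMEM2 hr H hH)⟩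
  · rintro ⟨⟨σ, _, hσ⟩, hmax⟩
    refine ⟨FINCx.inN hMEMP hMEM1 hMEM2 hr G hσ, ?_⟩
    intro U _ H hH
    obtain ⟨k, M, hM⟩ := hex
    obtain ⟨τ, hτ, hτM⟩ := hfwd (Fin k) M hM
    exact (hM.2 U H hH).trans (hmax (Fin k) M τ hτ hτM)

end MP0c3a8f

end
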