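import Mathlib
import Pool.Agent.Work.MP_0c3a8f_co.Stmts

/-! Bundle of small proof modules (one section per former module). -/

section

/-!
# MP_0c3a8f_co, item PSN, part 5: numerical lemmas
-/

set_option autoImplicit false

namespace MP0c3a8f

namespace ItemPSN

/-- `M / h ^ k ≤ 1 / 64` -/
theorem small {M h : ℝ} (hM : 64 * M ≤ h) (h1 : 1 ≤ h) (k : ℕ) (hk : 1 ≤ k) (hM0 : 0 ≤ M) :
    M / h ^ k ≤ 1 / 64 := by
  have h2 : h ≤ h ^ k := le_self_pow₀ h1 (by omega)
  rw [div_le_div_iff₀ (by positivity) (by norm_num)]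
  linarith

theorem numE {α R C3 n l zw : ℝ} (hα : 1 ≤ α) (hR : 3 ≤ R) (hC3 : 0 ≤ C3) (hn : 2 ≤ n)
    (hl : n / 2 ≤ l) (hz0 : 0 ≤ zw) (hz1 : zw ≤ 1) :
    C3 * (α + α + R + R + 1) ^ 3 / n + R * zw / l * (4 * R + R * zw / l) ≤
      C3 * (2 * R + 1) ^ 3 * (α + 1) ^ 3 / n + 10 * R ^ 2 / n := by
  have hn0 : 0 < n := by linarith
  have hl0 : 0 < l := by linarith
  have h1 : (α + α + R + R + 1) ^ 3 ≤ ((2 * R + 1) * (α + 1)) ^ 3 :=
    pow_le_pow_left₀ (by linarith) (by nlinarith) 3
  have h2 : C3 * (α + α + R + R + 1) ^ 3 / n ≤ C3 * (2 * R + 1) ^ 3 * (α + 1) ^ 3 / n := by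
    refine div_le_div_of_nonneg_right ?_ hn0.le
    rw [mul_pow] at h1
    have := mul_le_mul_of_nonneg_left h1 hC3
    linarith
  have h3 : R * zw / l ≤ 2 * R / n := by
    rw [div_le_div_iff₀ hl0 hn0]
    have k1 : R * zw ≤ R * 1 := mul_le_mul_of_nonneg_left hz1 (by linarith)
    have k2 : R * zw * n ≤ R * 1 * n := mul_le_mul_of_nonneg_right k1 hn0.le
    have k3 : 2 * R * (n / 2) ≤ 2 * R * l := mul_le_mul_of_nonneg_left hl (by linarith)
    linarith
  have h4 : 2 * R / n ≤ R := by
    rw [div_le_iff₀ hn0]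
    nlinarith
  have h5 : 0 ≤ R * zw / l := by positivity
  have h6 : R * zw / l * (4 * R + R * zw / l) ≤ 2 * R / n * (5 * R) :=
    mul_le_mul h3 (by linarith) (by linarith) (by positivity)
  have h7 : 2 * R / n * (5 * R) = 10 * R ^ 2 / n := by ring
  linarith

theorem numA {α R C1 C2 C3 A h n l e δ es : ℝ} (hα : 1 ≤ α) (hR : 3 ≤ R) (hC1 : 0 ≤ C1)
    (hC2 : 0 ≤ C2) (hC3 : 0 ≤ C3) (hA : 1 ≤ A) (h1 : 1 ≤ h) (hn : n = h ^ 4)
    (hαA : α + 1 ≤ A * h) (hl : n / 2 ≤ l) (he : e = C2 * (α + 1) / n)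
    (hδ : δ = 4 * es * h ^ 2 + 8 * (α + 1) / n + C1 * h / n) (hes : 0 ≤ es)
    (hes' : 40 * A ^ 2 * es ≤ 1 / 8)
    (M1 : 64 * (C3 * (2 * R + 1) ^ 3 * A ^ 3) ≤ h) (M2 : 64 * (10 * R ^ 2) ≤ h)
    (M3 : 64 * (8 * C2 * A ^ 2) ≤ h) (M4 : 64 * (10 * A ^ 2 * (8 * A + C1)) ≤ h) :
    C3 * (2 * R + 1) ^ 3 * (α + 1) ^ 3 / n + 10 * R ^ 2 / n + 8 * α * e +
      5 * (α ^ 2 + α) * δ / l < 1 / 4 := by
  have hh : 0 < h := by linarith
  have hn0 : 0 < n := by rw [hn]; positivity
  have hl0 : 0 < l := by linarith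
  have k1 : C3 * (2 * R + 1) ^ 3 * (α + 1) ^ 3 / n ≤ 1 / 64 := by
    have e1 : (α + 1) ^ 3 ≤ (A * h) ^ 3 := pow_le_pow_left₀ (by linarith) hαA 3
    have e2 : C3 * (2 * R + 1) ^ 3 * (α + 1) ^ 3 ≤ C3 * (2 * R + 1) ^ 3 * (A * h) ^ 3 :=
      mul_le_mul_of_nonneg_left e1 (by positivity)
    refine (div_le_div_of_nonneg_right e2 hn0.le).trans ?_
    have e3 : C3 * (2 * R + 1) ^ 3 * (A * h) ^ 3 / n = C3 * (2 * R + 1) ^ 3 * A ^ 3 / h ^ 1 := by
      rw [hn]
      field_simp
    rw [e3]
    exact small M1 h1 1 le_rfl (by positivity)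
  have k2 : 10 * R ^ 2 / n ≤ 1 / 64 := by
    rw [hn]
    exact small M2 h1 4 (by norm_num) (by positivity)
  have k3 : 8 * α * e ≤ 1 / 64 := by
    have e1 : 8 * α * e = 8 * C2 * (α * (α + 1)) / n := by rw [he]; ring
    have e2 : α * (α + 1) ≤ (A * h) * (A * h) :=
      mul_le_mul (by linarith) hαA (by linarith) (by positivity)
    have e3 : 8 * C2 * (α * (α + 1)) ≤ 8 * C2 * ((A * h) * (A * h)) :=
      mul_le_mul_of_nonneg_left e2 (by positivity)
    rw [e1]
    refine (div_le_div_of_nonneg_right e3 hn0.le).trans ?_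
    have e4 : 8 * C2 * ((A * h) * (A * h)) / n = 8 * C2 * A ^ 2 / h ^ 2 := by
      rw [hn]
      field_simp
    rw [e4]
    exact small M3 h1 2 (by norm_num) (by positivity)
  have k4 : 5 * (α ^ 2 + α) * δ / l ≤ 1 / 8 + 1 / 64 := by
    have hδ0 : 0 ≤ δ := by rw [hδ]; positivity
    have hδ1 : δ ≤ 4 * es * h ^ 2 + (8 * A + C1) / h ^ 3 := by
      have e1 : 8 * (α + 1) / n ≤ 8 * (A * h) / n :=
        div_le_div_of_nonneg_right (by linarith) hn0.le
      have e2 : 8 * (A * h) / n + C1 * h / n = (8 * A + C1) / h ^ 3 := by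
        rw [hn]
        field_simp
      rw [hδ]
      linarith
    have e2 : α ^ 2 + α ≤ A ^ 2 * h ^ 2 := by
      have : α * (α + 1) ≤ (A * h) * (A * h) :=
        mul_le_mul (by linarith) hαA (by linarith) (by positivity)
      nlinarith
    have e3 : 5 * (α ^ 2 + α) * δ ≤ 5 * (A ^ 2 * h ^ 2) *
        (4 * es * h ^ 2 + (8 * A + C1) / h ^ 3) :=
      mul_le_mul (by linarith) hδ1 hδ0 (by positivity)
    have e4 : 5 * (α ^ 2 + α) * δ / l ≤ 5 * (A ^ 2 * h ^ 2) *
        (4 * es * h ^ 2 + (8 * A + C1) / h ^ 3) / (n / 2) := by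
      refine div_le_div₀ (by positivity) e3 (by positivity) hl
    have e5 : 5 * (A ^ 2 * h ^ 2) * (4 * es * h ^ 2 + (8 * A + C1) / h ^ 3) / (n / 2) =
        40 * A ^ 2 * es + 10 * A ^ 2 * (8 * A + C1) / h ^ 5 := by
      rw [hn]
      field_simp
      ring
    rw [e5] at e4
    have e6 := small M4 h1 5 (by norm_num) (by positivity)
    linarith
  linarith

theorem numB {α R C1 C2 C3 A h n e κ κ' : ℝ} (hα : 1 ≤ α) (hR : 3 ≤ R) (hC1 : 0 ≤ C1)
    (hC2 : 0 ≤ C2) (hC3 : 0 ≤ C3) (hA : 1 ≤ A) (h1 : 1 ≤ h) (hn : n = h ^ 4)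
    (hαA : α + 1 ≤ A * h) (he : e = C2 * (α + 1) / n)
    (hκ : κ = C1 / h ^ 2) (hκ' : κ' = 2 * C1 / h ^ 2)
    (M2 : 64 * (10 * R ^ 2) ≤ h)
    (M3 : 64 * (8 * C2 * A) ≤ h) (M5 : 64 * (2 * C3 * (2 * R + 1) ^ 3 * A ^ 2) ≤ h)
    (M6 : 64 * (7 * C1 * A) ≤ h) :
    C3 * (2 * R + 1) ^ 3 * (α + 1) ^ 3 / n + 10 * R ^ 2 / n + 8 * α * e +
      (3 * κ + 2 * κ') * (α ^ 2 + α) < α / 4 := by
  have hh : 0 < h := by linarith
  have hn0 : 0 < n := by rw [hn]; positivity
  have hα0 : 0 ≤ α := by linarith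
  have k1 : C3 * (2 * R + 1) ^ 3 * (α + 1) ^ 3 / n ≤ α * (1 / 64) := by
    have e1 : (α + 1) ^ 3 ≤ 2 * α * (A * h) ^ 2 := by
      have e0 : (α + 1) ^ 2 ≤ (A * h) ^ 2 := pow_le_pow_left₀ (by linarith) hαA 2
      have : (α + 1) * (α + 1) ^ 2 ≤ 2 * α * (A * h) ^ 2 :=
        mul_le_mul (by linarith) e0 (by positivity) (by linarith)
      calc (α + 1) ^ 3 = (α + 1) * (α + 1) ^ 2 := by ring
        _ ≤ _ := this
    have e2 : C3 * (2 * R + 1) ^ 3 * (α + 1) ^ 3 ≤
        C3 * (2 * R + 1) ^ 3 * (2 * α * (A * h) ^ 2) :=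
      mul_le_mul_of_nonneg_left e1 (by positivity)
    refine (div_le_div_of_nonneg_right e2 hn0.le).trans ?_
    have e3 : C3 * (2 * R + 1) ^ 3 * (2 * α * (A * h) ^ 2) / n =
        α * (2 * C3 * (2 * R + 1) ^ 3 * A ^ 2 / h ^ 2) := by
      rw [hn]
      field_simp
    rw [e3]
    exact mul_le_mul_of_nonneg_left (small M5 h1 2 (by norm_num) (by positivity)) hα0
  have k2 : 10 * R ^ 2 / n ≤ 1 / 64 := by
    rw [hn]
    exact small M2 h1 4 (by norm_num) (by positivity)
  have k3 : 8 * α * e ≤ α * (1 / 64) := by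
    have e1 : 8 * α * e = α * (8 * C2 * (α + 1) / n) := by rw [he]; ring
    have e3 : 8 * C2 * (α + 1) ≤ 8 * C2 * (A * h) :=
      mul_le_mul_of_nonneg_left hαA (by positivity)
    rw [e1]
    refine mul_le_mul_of_nonneg_left ?_ hα0
    refine (div_le_div_of_nonneg_right e3 hn0.le).trans ?_
    have e4 : 8 * C2 * (A * h) / n = 8 * C2 * A / h ^ 3 := by
      rw [hn]
      field_simp
    rw [e4]
    exact small M3 h1 3 (by norm_num) (by positivity)
  have k4 : (3 * κ + 2 * κ') * (α ^ 2 + α) ≤ α * (1 / 64) := by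
    have e1 : (3 * κ + 2 * κ') * (α ^ 2 + α) = α * (7 * C1 / h ^ 2 * (α + 1)) := by
      rw [hκ, hκ']
      ring
    rw [e1]
    refine mul_le_mul_of_nonneg_left ?_ hα0
    have e2 : 7 * C1 / h ^ 2 * (α + 1) ≤ 7 * C1 / h ^ 2 * (A * h) :=
      mul_le_mul_of_nonneg_left hαA (by positivity)
    refine e2.trans ?_
    have e4 : 7 * C1 / h ^ 2 * (A * h) = 7 * C1 * A / h ^ 1 := by
      field_simp
    rw [e4]
    exact small M6 h1 1 le_rfl (by positivity)
  linarith

/-- differences of the weights -/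
theorem tv_diff {l n σs σt Ts Tt Xs Xt a D : ℝ} (hn : 0 < n) (hl : n / 2 ≤ l) (hl' : l ≤ n)
    (hDs : 3 / 4 * n ≤ l + σs) (hDt : 3 / 4 * n ≤ l + σt)
    (h1 : (l + σs) * Ts = l * n + Xs) (h2 : (l + σt) * Tt = l * n + Xt)
    (hXs : |Xs| ≤ 2 * (a + 1)) (hXt : |Xt| ≤ 2 * (a + 1)) (hσ : |σt - σs| ≤ D) :
    Ts - Tt ≤ 2 * D + 8 * (a + 1) / n := by
  have hs0 : 0 < l + σs := by linarith
  have ht0 : 0 < l + σt := by linarith
  have hl0 : 0 < l := by linarith
  have ha : 0 ≤ a + 1 := by
    have := abs_nonneg Xs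
    linarith
  have hD0 : 0 ≤ D := (abs_nonneg _).trans hσ
  have e1 : Ts = (l * n + Xs) / (l + σs) := by
    rw [← h1, mul_div_cancel_left₀ _ hs0.ne']
  have e2 : Tt = (l * n + Xt) / (l + σt) := by
    rw [← h2, mul_div_cancel_left₀ _ ht0.ne']
  have e3 : Ts - Tt = l * n * (σt - σs) / ((l + σs) * (l + σt)) + Xs / (l + σs) -
      Xt / (l + σt) := by
    rw [e1, e2]
    field_simp
    ring
  have h3 : l * n * (σt - σs) / ((l + σs) * (l + σt)) ≤ 2 * D := by
    rw [div_le_iff₀ (by positivity)]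
    have h4 : 3 / 4 * n * (3 / 4 * n) ≤ (l + σs) * (l + σt) :=
      mul_le_mul hDs hDt (by positivity) hs0.le
    have h5 : l * n ≤ n * n := mul_le_mul_of_nonneg_right hl' hn.le
    have h6 : l * n ≤ 2 * ((l + σs) * (l + σt)) := by nlinarith
    have h7 : l * n * (σt - σs) ≤ l * n * D :=
      mul_le_mul_of_nonneg_left ((le_abs_self _).trans hσ) (by positivity)
    have h8 : l * n * D ≤ 2 * ((l + σs) * (l + σt)) * D := mul_le_mul_of_nonneg_right h6 hD0
    linarith
  have h4 : ∀ {X σ : ℝ}, |X| ≤ 2 * (a + 1) → 3 / 4 * n ≤ l + σ →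
      |X / (l + σ)| ≤ 4 * (a + 1) / n := by
    intro X σ hX hD
    have h0 : 0 < l + σ := by linarith
    rw [abs_div, abs_of_pos h0, div_le_div_iff₀ h0 hn]
    have k1 : |X| * n ≤ 2 * (a + 1) * n := mul_le_mul_of_nonneg_right hX hn.le
    have k2 : 4 * (a + 1) * (3 / 4 * n) ≤ 4 * (a + 1) * (l + σ) :=
      mul_le_mul_of_nonneg_left hD (by linarith)
    nlinarith
  have h5 := (abs_le.1 (h4 hXs hDs)).2
  have h6 := (abs_le.1 (h4 hXt hDt)).1
  have h7 : 8 * (a + 1) / n = 4 * (a + 1) / n + 4 * (a + 1) / n := by ring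
  rw [e3, h7]
  linarith

theorem x1 {α R C A h : ℝ} (hA : A = C + 1) (hh : 0 ≤ h) (hR : 3 ≤ R) (hf : α + R ≤ C * h) :
    α + 1 ≤ A * h := by
  have : A * h = C * h + h := by rw [hA]; ring
  linarith

theorem x2 {C h : ℝ} (h1 : 1 ≤ h) (hC : 64 * C ≤ h) : C * h ≤ h ^ 4 / 64 := by
  have hh0 : 0 < h := by linarith
  have k1 : C * h ≤ h / 64 * h := mul_le_mul_of_nonneg_right (by linarith) hh0.le
  have k2 : h ^ 2 ≤ h ^ 4 := pow_le_pow_right₀ h1 (by norm_num)
  have k3 : h / 64 * h = h ^ 2 / 64 := by ring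
  linarith

theorem x3 {C R h : ℝ} (h1 : 1 ≤ h) (hR : 3 ≤ R) (hC : R * C ≤ h) : C * h ≤ h ^ 4 / R := by
  have hh0 : 0 < h := by linarith
  rw [le_div_iff₀ (by linarith)]
  have k1 : R * C * h ≤ h * h := mul_le_mul_of_nonneg_right hC hh0.le
  have k2 : h ^ 2 ≤ h ^ 4 := pow_le_pow_right₀ h1 (by norm_num)
  have k3 : h * h = h ^ 2 := by ring
  have k4 : C * h * R = R * C * h := by ring
  linarith

theorem x4 {C A : ℝ} (hC : 0 ≤ C) (hA : A = C + 1) : C ≤ A ^ 2 := by
  have : A ^ 2 = C ^ 2 + 2 * C + 1 := by rw [hA]; ring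
  have := sq_nonneg C
  linarith

theorem x5 {A R h : ℝ} (h1 : 1 ≤ h) (hA : 1 ≤ A) (hR : 3 ≤ R) (hM : R * (4 * A + R + 5) ≤ h) :
    R * (A * h ^ 2 + 3 * (A * h) + R + 2) ≤ h ^ 4 := by
  have hh0 : 0 < h := by linarith
  have hh12 : h ≤ h ^ 2 := le_self_pow₀ h1 (by norm_num)
  have hh34 : h ^ 3 ≤ h ^ 4 := pow_le_pow_right₀ h1 (by norm_num)
  have k1 : A * h ≤ A * h ^ 2 := mul_le_mul_of_nonneg_left hh12 (by linarith)
  have k2 : (1 : ℝ) ≤ h ^ 2 := by linarith
  have k3 : (R + 5) * 1 ≤ (R + 5) * h ^ 2 := mul_le_mul_of_nonneg_left k2 (by linarith)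
  have k4 : A * h ^ 2 + 3 * (A * h) + R + 2 ≤ (4 * A + R + 5) * h ^ 2 := by linarith
  have k5 : R * (A * h ^ 2 + 3 * (A * h) + R + 2) ≤ R * ((4 * A + R + 5) * h ^ 2) :=
    mul_le_mul_of_nonneg_left k4 (by linarith)
  have k6 : R * ((4 * A + R + 5) * h ^ 2) ≤ h * h ^ 2 := by
    have : R * (4 * A + R + 5) * h ^ 2 ≤ h * h ^ 2 :=
      mul_le_mul_of_nonneg_right hM (by positivity)
    linarith
  calc R * (A * h ^ 2 + 3 * (A * h) + R + 2) ≤ h * h ^ 2 := k5.trans k6
    _ = h ^ 3 := by ring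
    _ ≤ h ^ 4 := hh34

theorem x6 {A R h : ℝ} (h1 : 1 ≤ h) (hA : 1 ≤ A) (hR : 3 ≤ R) (hM : R * (4 * A + R + 5) ≤ h) :
    A * h ^ 2 ≤ h ^ 4 / 8 := by
  have hh0 : 0 < h := by linarith
  have hh34 : h ^ 3 ≤ h ^ 4 := pow_le_pow_right₀ h1 (by norm_num)
  have k0 : 3 * (4 * A + R + 5) ≤ R * (4 * A + R + 5) :=
    mul_le_mul_of_nonneg_right hR (by linarith)
  have k3 : 8 * A ≤ h := by linarith
  have k4 : 8 * A * h ^ 2 ≤ h * h ^ 2 := mul_le_mul_of_nonneg_right k3 (by positivity)
  have k5 : h * h ^ 2 = h ^ 3 := by ring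
  linarith

theorem x7 {es A C1 α h n δ : ℝ} (h1 : 1 ≤ h) (hn : n = h ^ 4) (hes : es ≤ 1 / 320)
    (hαA : α + 1 ≤ A * h) (hM : 64 * (8 * A + C1) ≤ h) (hC1 : 0 ≤ C1)
    (hδ : δ = 4 * es * h ^ 2 + 8 * (α + 1) / n + C1 * h / n) : δ ≤ n / 2 := by
  have hh0 : 0 < h := by linarith
  have hn0 : 0 < n := by rw [hn]; positivity
  have k0 : h ^ 2 ≤ h ^ 4 := pow_le_pow_right₀ h1 (by norm_num)
  have k1 : 4 * es * h ^ 2 ≤ h ^ 4 / 80 := by
    have : 4 * es * h ^ 2 ≤ 4 * (1 / 320) * h ^ 2 :=
      mul_le_mul_of_nonneg_right (by linarith) (by positivity)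
    linarith
  have k2 : 8 * (α + 1) / n + C1 * h / n ≤ 1 / 64 := by
    rw [← add_div, div_le_iff₀ hn0]
    have k3 : (8 * A + C1) * h ≤ h / 64 * h := mul_le_mul_of_nonneg_right (by linarith) hh0.le
    have k4 : h / 64 * h = h ^ 2 / 64 := by ring
    rw [hn]
    linarith
  have k3 : (1 : ℝ) ≤ h ^ 4 := one_le_pow₀ h1
  rw [hδ, hn]
  rw [hn] at k2
  linarith

theorem x8 {A C2 α h n : ℝ} (h1 : 1 ≤ h) (hn : n = h ^ 4) (hαA : α + 1 ≤ A * h)
    (hC2 : 0 ≤ C2) (hM : 64 * (8 * C2 * A) ≤ h) : C2 * (α + 1) / n ≤ 1 / 32 := by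
  have hh0 : 0 < h := by linarith
  have hn0 : 0 < n := by rw [hn]; positivity
  rw [div_le_iff₀ hn0]
  have k0 : h ^ 2 ≤ h ^ 4 := pow_le_pow_right₀ h1 (by norm_num)
  have k1 : C2 * (α + 1) ≤ C2 * (A * h) := mul_le_mul_of_nonneg_left hαA hC2
  have k2 : C2 * A * h ≤ h / 512 * h := mul_le_mul_of_nonneg_right (by linarith) hh0.le
  have k3 : h / 512 * h = h ^ 2 / 512 := by ring
  have k4 : 0 ≤ h ^ 4 := by positivity
  rw [hn]
  linarith

theorem x9 {C1 h n l : ℝ} (h1 : 1 ≤ h) (hn : n = h ^ 4) (hl : n / 2 ≤ l) (hC1 : 0 ≤ C1) :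
    C1 * h ^ 2 ≤ 2 * C1 / h ^ 2 * l := by
  have hh0 : 0 < h := by linarith
  have k1 : 2 * C1 / h ^ 2 * (n / 2) ≤ 2 * C1 / h ^ 2 * l :=
    mul_le_mul_of_nonneg_left hl (by positivity)
  have k2 : 2 * C1 / h ^ 2 * (n / 2) = C1 * h ^ 2 := by
    rw [hn]
    field_simp
  linarith

/-- bounds of the weights -/
theorem x10 {C1 h n l T : ℝ} (h1 : 1 ≤ h) (hn : n = h ^ 4) (hl : n / 2 ≤ l) (hC1 : 0 ≤ C1)
    (hκ : C1 / h ^ 2 ≤ 1 / 64) (hT : |T - l| ≤ C1 * h ^ 2) :
    (1 - 2 * C1 / h ^ 2) * l ≤ T ∧ 3 / 4 * l ≤ T ∧ T ≤ 2 * l := by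
  have hh0 : 0 < h := by linarith
  have hn0 : 0 < n := by rw [hn]; positivity
  have hl0 : 0 < l := by linarith
  have k1 := x9 h1 hn hl hC1
  have k2 : 2 * C1 / h ^ 2 = 2 * (C1 / h ^ 2) := by ring
  have k3 : 2 * C1 / h ^ 2 * l ≤ 1 / 32 * l := mul_le_mul_of_nonneg_right (by linarith) hl0.le
  obtain ⟨k4, k5⟩ := abs_le.1 hT
  refine ⟨by linarith, by linarith, by linarith⟩

end ItemPSN

end MP0c3a8f

end

section

/-!
# MP_0c3a8f_co: the averaging identities behind Moon and Moser (item AVG)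
-/

open Finset

namespace MP0c3a8f

namespace AVG

open Classical in
/-- weight of an ordered clique -/
noncomputable def pc {V : Type} {k : ℕ} (G : SimpleGraph V) (y : V → ℝ) (v : Fin k → V) : ℝ :=
  if cl G v then ∏ t, y (v t) else 0

open Classical in
/-- adjacency to all members -/
noncomputable def al {V : Type} {k : ℕ} (G : SimpleGraph V) (y : V → ℝ) (v : Fin k → V)
    (w : V) : ℝ := if ∀ t, G.Adj w (v t) then y w else 0

section

variable {V : Type} [Fintype V] {k : ℕ} (G : SimpleGraph V) (y : V → ℝ)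

lemma pc_nonneg (hy : ∀ i, 0 ≤ y i) (v : Fin k → V) : 0 ≤ pc G y v := by
  unfold pc
  split_ifs
  · exact Finset.prod_nonneg fun t _ => hy _
  · exact le_rfl

lemma al_nonneg (hy : ∀ i, 0 ≤ y i) (v : Fin k → V) (w : V) : 0 ≤ al G y v w := by
  unfold al
  split_ifs
  · exact hy w
  · exact le_rfl

open Classical in
lemma pc_mul (v : Fin k → V) (a : ℝ) :
    (if cl G v then (∏ t, y (v t)) * a else 0) = pc G y v * a := by
  unfold pc
  split_ifs
  · rfl
  · rw [zero_mul]

lemma hh_eq : hh G y k = ∑ v : Fin k → V, pc G y v := rfl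

lemma dd_eq (v : Fin k → V) : dd G y v = ∑ w, al G y v w := rfl

lemma sum_insertNth (t : Fin (k + 1)) (φ : (Fin (k + 1) → V) → ℝ) :
    ∑ v, φ v = ∑ u : Fin k → V, ∑ w : V, φ (t.insertNth w u) := by
  rw [← Equiv.sum_comp (Fin.insertNthEquiv (fun _ => V) t) φ, Fintype.sum_prod_type,
    Finset.sum_comm]
  rfl

omit [Fintype V] in
lemma cl_insertNth (t : Fin (k + 1)) (w : V) (u : Fin k → V) :
    cl G (t.insertNth w u : Fin (k + 1) → V) ↔ cl G u ∧ ∀ s, G.Adj w (u s) := by
  constructor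
  · intro h
    refine ⟨fun i j hij => ?_, fun s => ?_⟩
    · have := h (t.succAbove i) (t.succAbove j) (fun h' => hij (Fin.succAbove_right_injective h'))
      simpa using this
    · have := h t (t.succAbove s) (Fin.succAbove_ne t s).symm
      simpa using this
  · rintro ⟨h1, h2⟩ i j hij
    rcases Fin.eq_self_or_eq_succAbove t i with rfl | ⟨i', rfl⟩
    · rcases Fin.eq_self_or_eq_succAbove i j with rfl | ⟨j', rfl⟩
      · exact absurd rfl hij
      · simpa using h2 j'
    · rcases Fin.eq_self_or_eq_succAbove t j with rfl | ⟨j', rfl⟩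
      · simpa using (h2 i').symm
      · simpa using h1 i' j' (fun h => hij (by rw [h]))

omit [Fintype V] in
lemma pc_insertNth (t : Fin (k + 1)) (w : V) (u : Fin k → V) :
    pc G y (t.insertNth w u : Fin (k + 1) → V) = al G y u w * pc G y u := by
  classical
  have hp : ∏ s, y ((t.insertNth w u : Fin (k + 1) → V) s) = y w * ∏ s, y (u s) := by
    rw [Fin.prod_univ_succAbove _ t]
    simp
  unfold pc al
  by_cases h1 : cl G u
  · by_cases h2 : ∀ s, G.Adj w (u s)
    · rw [if_pos ((cl_insertNth G t w u).2 ⟨h1, h2⟩), if_pos h2, if_pos h1, hp]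
    · rw [if_neg (fun h => h2 ((cl_insertNth G t w u).1 h).2), if_neg h2, zero_mul]
  · rw [if_neg (fun h => h1 ((cl_insertNth G t w u).1 h).1), if_neg h1, mul_zero]

/-- The basic expansion. -/
lemma expand (t : Fin (k + 1)) (A : (Fin (k + 1) → V) → ℝ) :
    ∑ v : Fin (k + 1) → V, pc G y v * A v =
      ∑ u : Fin k → V, pc G y u * ∑ w, al G y u w * A (t.insertNth w u) := by
  rw [sum_insertNth t]
  refine Finset.sum_congr rfl fun u _ => ?_
  rw [Finset.mul_sum]
  refine Finset.sum_congr rfl fun w _ => ?_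
  rw [pc_insertNth]
  ring

lemma hh_succ : hh G y (k + 1) = ∑ u : Fin k → V, pc G y u * dd G y u := by
  rw [hh_eq]
  have := expand G y (0 : Fin (k + 1)) (fun _ => 1)
  simp only [mul_one] at this
  rw [this]
  rfl

/-- The sum of squares. -/
noncomputable def SS (k : ℕ) : ℝ := ∑ u : Fin k → V, pc G y u * dd G y u ^ 2

omit [Fintype V] in
lemma rem_insertNth (t : Fin (k + 1)) (w : V) (u : Fin k → V) :
    (fun s => (t.insertNth w u : Fin (k + 1) → V) (t.succAbove s)) = u := by
  funext s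
  simp

lemma SS_eq (t : Fin (k + 1)) :
    ∑ v : Fin (k + 1) → V, pc G y v * dd G y (fun s => v (t.succAbove s)) = SS G y k := by
  rw [expand G y t (fun v => dd G y (fun s => v (t.succAbove s)))]
  unfold SS
  refine Finset.sum_congr rfl fun u _ => ?_
  simp only [rem_insertNth]
  rw [← Finset.sum_mul, ← dd_eq]
  ring

open Classical in
lemma sum_rem (hy : ∀ i, 0 ≤ y i) (v : Fin (k + 1) → V) :
    ∑ t : Fin (k + 1), dd G y (fun s => v (t.succAbove s)) ≤
      gg G y v + ((k : ℝ) + 1) * dd G y v := by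
  simp only [dd_eq]
  rw [Finset.sum_comm]
  unfold gg
  rw [Finset.mul_sum, ← Finset.sum_add_distrib]
  refine Finset.sum_le_sum fun w _ => ?_
  by_cases h : ∀ t, G.Adj w (v t)
  · have e1 : ∀ t : Fin (k + 1), al G y (fun s => v (t.succAbove s)) w = y w := by
      intro t
      unfold al
      rw [if_pos fun s => h _]
    have e2 : al G y v w = y w := by
      unfold al
      rw [if_pos h]
    simp only [e1, e2, Finset.sum_const, Finset.card_univ, Fintype.card_fin, nsmul_eq_mul]
    have h3 : 0 ≤ (if ∃ t, InB G v t w then y w else 0) := by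
      split_ifs
      · exact hy w
      · exact le_rfl
    push_cast
    linarith
  · push Not at h
    obtain ⟨t0, ht0⟩ := h
    have e3 : al G y v w = 0 := by
      unfold al
      rw [if_neg fun h => ht0 (h t0)]
    rw [e3, mul_zero, add_zero]
    rw [Finset.sum_eq_single t0]
    · unfold al
      by_cases h4 : ∀ s, G.Adj w (v (t0.succAbove s))
      · rw [if_pos h4, if_pos]
        refine ⟨t0, fun s hs => ?_, ht0⟩
        rcases Fin.eq_self_or_eq_succAbove t0 s with rfl | ⟨s', rfl⟩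
        · exact absurd rfl hs
        · exact h4 s'
      · rw [if_neg h4]
        split_ifs
        · exact hy w
        · exact le_rfl
    · intro t _ ht
      unfold al
      rw [if_neg]
      intro h5
      rcases Fin.eq_self_or_eq_succAbove t t0 with h6 | ⟨s', h6⟩
      · exact ht h6.symm
      · exact ht0 (by rw [h6]; exact h5 s')
    · intro h5
      exact absurd (Finset.mem_univ _) h5

open Classical in
/-- weight of the ordered edges in the common neighbourhood -/
noncomputable def JJ (u : Fin k → V) : ℝ :=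
  ∑ i, ∑ j, if G.Adj i j ∧ (∀ s, G.Adj i (u s)) ∧ (∀ s, G.Adj j (u s)) then y i * y j else 0

lemma ii_insertNth (t : Fin (k + 1)) (w : V) (u : Fin k → V) :
    ii G y (t.insertNth w u : Fin (k + 1) → V) t = JJ G y u := by
  classical
  have key : ∀ i : V, (∀ s, s ≠ t → G.Adj i ((t.insertNth w u : Fin (k + 1) → V) s)) ↔
      ∀ s, G.Adj i (u s) := by
    intro i
    constructor
    · intro h s
      have := h (t.succAbove s) (Fin.succAbove_ne t s)
      simpa using this
    · intro h s hs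
      rcases Fin.eq_self_or_eq_succAbove t s with rfl | ⟨s', rfl⟩
      · exact absurd rfl hs
      · simpa using h s'
  unfold ii JJ
  simp only [key]

lemma JJ_nonneg (hy : ∀ i, 0 ≤ y i) (u : Fin k → V) : 0 ≤ JJ G y u := by
  classical
  unfold JJ
  refine Finset.sum_nonneg fun i _ => Finset.sum_nonneg fun j _ => ?_
  split_ifs
  · exact mul_nonneg (hy i) (hy j)
  · exact le_rfl

lemma JJ_eq (u : Fin k → V) :
    ∑ w, al G y u w * dd G y ((0 : Fin (k + 1)).insertNth w u : Fin (k + 1) → V) = JJ G y u := by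
  classical
  unfold JJ
  rw [Finset.sum_comm]
  refine Finset.sum_congr rfl fun j _ => ?_
  rw [dd_eq, Finset.mul_sum]
  refine Finset.sum_congr rfl fun i _ => ?_
  have key : (∀ s, G.Adj i (((0 : Fin (k + 1)).insertNth j u : Fin (k + 1) → V) s)) ↔
      G.Adj i j ∧ ∀ s, G.Adj i (u s) := by
    constructor
    · intro h
      refine ⟨?_, fun s => ?_⟩
      · have := h 0
        simpa using this
      · have := h ((0 : Fin (k + 1)).succAbove s)
        rw [Fin.insertNth_apply_succAbove] at this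
        exact this
    · rintro ⟨h1, h2⟩ s
      rcases Fin.eq_self_or_eq_succAbove 0 s with rfl | ⟨s', rfl⟩
      · rw [Fin.insertNth_apply_same]
        exact h1
      · rw [Fin.insertNth_apply_succAbove]
        exact h2 s'
  unfold al
  simp only [key]
  by_cases h1 : ∀ s, G.Adj j (u s)
  · by_cases h2 : G.Adj i j ∧ ∀ s, G.Adj i (u s)
    · rw [if_pos h1, if_pos h2, if_pos ⟨h2.1, h2.2, h1⟩, mul_comm]
    · rw [if_neg h2, mul_zero, if_neg fun h => h2 ⟨h.1, h.2.1⟩]
  · rw [if_neg h1, zero_mul, if_neg fun h => h1 h.2.2]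

end

end AVG

open AVG in
theorem prfAVG : AVG_statement := by
  classical
  intro V _ G y k hy hs
  simp only [pc_mul]
  refine ⟨?_, ?_, ?_, hh_succ G y⟩
  · have h1 : hh G y (k + 1) ^ 2 ≤ hh G y k * SS G y k := by
      rw [hh_succ, hh_eq]
      unfold SS
      refine Finset.sum_sq_le_sum_mul_sum_of_sq_eq_mul _ (fun u _ => pc_nonneg G y hy u)
        (fun u _ => mul_nonneg (pc_nonneg G y hy u) (sq_nonneg _)) (fun u _ => ?_)
      ring
    have h2 : ((k : ℝ) + 1) * SS G y k ≤
        (∑ v : Fin (k + 1) → V, pc G y v * gg G y v) + ((k : ℝ) + 1) * hh G y (k + 2) := by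
      have e1 : ((k : ℝ) + 1) * SS G y k = ∑ v : Fin (k + 1) → V, pc G y v *
          ∑ t : Fin (k + 1), dd G y (fun s => v (t.succAbove s)) := by
        have : ((k : ℝ) + 1) * SS G y k = ∑ _t : Fin (k + 1), SS G y k := by
          simp
        rw [this, Finset.sum_congr rfl fun t _ => (SS_eq G y t).symm, Finset.sum_comm]
        refine Finset.sum_congr rfl fun v _ => ?_
        rw [Finset.mul_sum]
      have e2 : hh G y (k + 2) = ∑ u : Fin (k + 1) → V, pc G y u * dd G y u := hh_succ G y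
      rw [e1, e2, Finset.mul_sum, ← Finset.sum_add_distrib]
      refine Finset.sum_le_sum fun v _ => ?_
      have := mul_le_mul_of_nonneg_left (sum_rem G y hy v) (pc_nonneg G y hy v)
      linarith
    have h3 : 0 ≤ hh G y k := Finset.sum_nonneg fun v _ => pc_nonneg G y hy v
    have h4 : 0 ≤ (k : ℝ) + 1 := by positivity
    calc ((k : ℝ) + 1) * hh G y (k + 1) ^ 2 ≤ ((k : ℝ) + 1) * (hh G y k * SS G y k) :=
          mul_le_mul_of_nonneg_left h1 h4
      _ = hh G y k * (((k : ℝ) + 1) * SS G y k) := by ring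
      _ ≤ _ := mul_le_mul_of_nonneg_left h2 h3
  · intro t
    have e1 : hh G y (k + 2) = ∑ u : Fin k → V, pc G y u * JJ G y u := by
      have e2 : hh G y (k + 2) = ∑ u : Fin (k + 1) → V, pc G y u * dd G y u := hh_succ G y
      rw [e2, expand G y (0 : Fin (k + 1)) (fun v => dd G y v)]
      refine Finset.sum_congr rfl fun u _ => ?_
      rw [JJ_eq]
    rw [e1, expand G y t (fun v => ii G y v t)]
    refine Finset.sum_le_sum fun u _ => ?_
    refine mul_le_mul_of_nonneg_left ?_ (pc_nonneg G y hy u)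
    simp only [ii_insertNth]
    rw [← Finset.sum_mul]
    have h1 : ∑ w, al G y u w ≤ 1 := by
      rw [← hs]
      refine Finset.sum_le_sum fun w _ => ?_
      unfold al
      split_ifs
      · exact le_rfl
      · exact hy w
    have h2 := JJ_nonneg G y hy u
    nlinarith
  · intro v
    rw [dd_eq, ← hs]
    unfold gg
    rw [← Finset.sum_add_distrib]
    refine Finset.sum_le_sum fun w _ => ?_
    unfold al
    by_cases h1 : ∀ t, G.Adj w (v t)
    · have h2 : ¬ ∃ t, InB G v t w := by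
        rintro ⟨t, ht⟩
        exact ht.2 (h1 t)
      rw [if_neg h2, if_pos h1, zero_add]
    · rw [if_neg h1, add_zero]
      split_ifs
      · exact le_rfl
      · exact hy w

end MP0c3a8f

end

section

/-!
# MP_0c3a8f_co, item BU (helper63): blow-up lemma for weighted k-partite hypergraphs
-/

open Finset

namespace MP0c3a8f

namespace BUaux

theorem tangent (n : ℕ) {x a : ℝ} (hx : 0 ≤ x) (ha : 0 ≤ a) :
    a ^ (n + 1) + (n + 1) * a ^ n * (x - a) ≤ x ^ (n + 1) := by
  induction n with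
  | zero => simp
  | succ n ih =>
    have h1 : x * (a ^ (n + 1) + (n + 1) * a ^ n * (x - a)) ≤ x * x ^ (n + 1) :=
      mul_le_mul_of_nonneg_left ih hx
    have h2 : 0 ≤ ((n : ℝ) + 1) * a ^ n * (x - a) ^ 2 := by positivity
    have h3 : x * (a ^ (n + 1) + (n + 1) * a ^ n * (x - a)) -
        (a ^ (n + 1 + 1) + ((n + 1 : ℕ) + 1) * a ^ (n + 1) * (x - a)) =
        ((n : ℝ) + 1) * a ^ n * (x - a) ^ 2 := by
      push_cast
      ring
    have h4 : x ^ (n + 1 + 1) = x * x ^ (n + 1) := by ring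
    rw [h4]
    linarith

/-- power mean inequality with weights of total weight at most one -/
theorem power_mean {ι : Type} [Fintype ι] (n : ℕ) (p D : ι → ℝ) (hp : ∀ i, 0 ≤ p i)
    (hD : ∀ i, 0 ≤ D i) (hP : ∑ i, p i ≤ 1) :
    (∑ i, p i * D i) ^ (n + 1) ≤ ∑ i, p i * D i ^ (n + 1) := by
  set a := ∑ i, p i * D i with ha
  have ha0 : 0 ≤ a := Finset.sum_nonneg fun i _ => mul_nonneg (hp i) (hD i)
  have h1 : ∑ i, p i * (a ^ (n + 1) + (n + 1) * a ^ n * (D i - a)) ≤
      ∑ i, p i * D i ^ (n + 1) :=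
    Finset.sum_le_sum fun i _ => mul_le_mul_of_nonneg_left (tangent n (hD i) ha0) (hp i)
  have h2 : ∑ i, p i * (a ^ (n + 1) + (n + 1) * a ^ n * (D i - a)) =
      (∑ i, p i) * (a ^ (n + 1) - (n + 1) * a ^ n * a) + (n + 1) * a ^ n * a := by
    have : ∀ i, p i * (a ^ (n + 1) + (n + 1) * a ^ n * (D i - a)) =
        p i * (a ^ (n + 1) - (n + 1) * a ^ n * a) + (n + 1) * a ^ n * (p i * D i) := by
      intro i; ring
    simp_rw [this]
    rw [Finset.sum_add_distrib, ← Finset.sum_mul, ← Finset.mul_sum, ← ha]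
  have h3 : a ^ (n + 1) ≤ (∑ i, p i) * (a ^ (n + 1) - (n + 1) * a ^ n * a) +
      (n + 1) * a ^ n * a := by
    have h4 : 0 ≤ (1 - ∑ i, p i) * ((n : ℝ) * a ^ (n + 1)) :=
      mul_nonneg (by linarith) (by positivity)
    have h5 : (∑ i, p i) * (a ^ (n + 1) - (n + 1) * a ^ n * a) + (n + 1) * a ^ n * a -
        a ^ (n + 1) = (1 - ∑ i, p i) * ((n : ℝ) * a ^ (n + 1)) := by
      ring
    linarith
  linarith

theorem sum_prod_le_one {V : Type} [Fintype V] (y : V → ℝ) (hy : ∀ i, 0 ≤ y i)
    (hs : ∑ i, y i ≤ 1) (n : ℕ) : ∑ u : Fin n → V, ∏ t, y (u t) ≤ 1 := by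
  rw [← Fintype.sum_pow]
  exact pow_le_one₀ (Finset.sum_nonneg fun i _ => hy i) hs

open Classical in
theorem pair_bound {V : Type} [Fintype V] (y : V → ℝ) (hy : ∀ i, 0 ≤ y i)
    (hs : ∑ i, y i ≤ 1) {δ : ℝ} (hδ : ∀ i, y i ≤ δ) (hδ0 : 0 ≤ δ) (n : ℕ) (i j : Fin (n + 1))
    (hij : i ≠ j) :
    ∑ u : Fin (n + 1) → V, (if u i = u j then ∏ t, y (u t) else 0) ≤ δ := by
  obtain ⟨i', rfl⟩ := Fin.exists_succAbove_eq hij
  rw [← (Fin.insertNthEquiv (fun _ => V) j).sum_comp, Fintype.sum_prod_type, Finset.sum_comm]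
  have h1 : ∀ u' : Fin n → V, ∑ w : V,
      (if (Fin.insertNthEquiv (fun _ => V) j (w, u')) (j.succAbove i') =
        (Fin.insertNthEquiv (fun _ => V) j (w, u')) j then
        ∏ t, y ((Fin.insertNthEquiv (fun _ => V) j (w, u')) t) else 0) =
      y (u' i') * ∏ t, y (u' t) := by
    intro u'
    have h2 : ∀ w : V, (if (Fin.insertNthEquiv (fun _ => V) j (w, u')) (j.succAbove i') =
        (Fin.insertNthEquiv (fun _ => V) j (w, u')) j then
        ∏ t, y ((Fin.insertNthEquiv (fun _ => V) j (w, u')) t) else 0) =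
        if u' i' = w then y w * ∏ t, y (u' t) else 0 := by
      intro w
      rw [Fin.prod_univ_succAbove _ j]
      simp [Fin.insertNthEquiv]
    simp_rw [h2]
    simp
  simp_rw [h1]
  calc ∑ u' : Fin n → V, y (u' i') * ∏ t, y (u' t)
      ≤ ∑ u' : Fin n → V, δ * ∏ t, y (u' t) :=
        Finset.sum_le_sum fun u' _ =>
          mul_le_mul_of_nonneg_right (hδ _) (Finset.prod_nonneg fun t _ => hy _)
    _ = δ * ∑ u' : Fin n → V, ∏ t, y (u' t) := by rw [Finset.mul_sum]
    _ ≤ δ * 1 := mul_le_mul_of_nonneg_left (sum_prod_le_one y hy hs n) hδ0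
    _ = δ := mul_one δ

open Classical in
theorem noninj_bound {V : Type} [Fintype V] (y : V → ℝ) (hy : ∀ i, 0 ≤ y i)
    (hs : ∑ i, y i ≤ 1) {δ : ℝ} (hδ : ∀ i, y i ≤ δ) (hδ0 : 0 ≤ δ) (n : ℕ) :
    ∑ u : Fin (n + 1) → V, (if Function.Injective u then 0 else ∏ t, y (u t)) ≤
      ((n : ℝ) + 1) ^ 2 * δ := by
  have h1 : ∀ u : Fin (n + 1) → V, (if Function.Injective u then 0 else ∏ t, y (u t)) ≤
      ∑ i : Fin (n + 1), ∑ j : Fin (n + 1),
        (if i ≠ j then (if u i = u j then ∏ t, y (u t) else 0) else 0) := by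
    intro u
    have hp : 0 ≤ ∏ t, y (u t) := Finset.prod_nonneg fun t _ => hy _
    have hnn : ∀ i j : Fin (n + 1),
        0 ≤ (if i ≠ j then (if u i = u j then ∏ t, y (u t) else 0) else 0) := by
      intro i j
      split_ifs <;> first | exact hp | exact le_rfl
    split_ifs with hu
    · exact Finset.sum_nonneg fun i _ => Finset.sum_nonneg fun j _ => hnn i j
    · have hu' : ∃ a b, u a = u b ∧ a ≠ b := by
        simpa [Function.Injective] using hu
      obtain ⟨a, b, hab, hne⟩ := hu'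
      calc ∏ t, y (u t) = (if a ≠ b then (if u a = u b then ∏ t, y (u t) else 0) else 0) := by
            rw [if_pos hne, if_pos hab]
        _ ≤ ∑ j : Fin (n + 1),
            (if a ≠ j then (if u a = u j then ∏ t, y (u t) else 0) else 0) :=
          Finset.single_le_sum (f := fun j =>
            (if a ≠ j then (if u a = u j then ∏ t, y (u t) else 0) else 0))
            (fun j _ => hnn a j) (Finset.mem_univ b)
        _ ≤ _ :=
          Finset.single_le_sum (f := fun i => ∑ j : Fin (n + 1),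
            (if i ≠ j then (if u i = u j then ∏ t, y (u t) else 0) else 0))
            (fun i _ => Finset.sum_nonneg fun j _ => hnn i j) (Finset.mem_univ a)
  calc ∑ u : Fin (n + 1) → V, (if Function.Injective u then 0 else ∏ t, y (u t))
      ≤ ∑ u : Fin (n + 1) → V, ∑ i : Fin (n + 1), ∑ j : Fin (n + 1),
        (if i ≠ j then (if u i = u j then ∏ t, y (u t) else 0) else 0) :=
        Finset.sum_le_sum fun u _ => h1 u
    _ = ∑ i : Fin (n + 1), ∑ j : Fin (n + 1), ∑ u : Fin (n + 1) → V,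
        (if i ≠ j then (if u i = u j then ∏ t, y (u t) else 0) else 0) := by
        rw [Finset.sum_comm]
        refine Finset.sum_congr rfl fun i _ => ?_
        rw [Finset.sum_comm]
    _ ≤ ∑ i : Fin (n + 1), ∑ j : Fin (n + 1), δ := by
        refine Finset.sum_le_sum fun i _ => Finset.sum_le_sum fun j _ => ?_
        by_cases hij : i ≠ j
        · simp only [if_pos hij]
          exact pair_bound y hy hs hδ hδ0 n i j hij
        · simp only [if_neg hij, Finset.sum_const_zero]
          exact hδ0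
    _ = ((n : ℝ) + 1) ^ 2 * δ := by
        simp
        ring

end BUaux

open BUaux in
open Classical in
theorem prfBU : BU_statement := by
  intro τ k
  induction k with
  | zero =>
    intro η hη
    refine ⟨1, one_pos, ?_⟩
    intro V _ y E hy hs hd hE
    refine ⟨fun t => t.elim0, fun t => t.elim0, fun c => ?_⟩
    have h1 : (∑ v : Fin 0 → V, if v ∈ E then ∏ t, y (v t) else 0) =
        if (default : Fin 0 → V) ∈ E then 1 else 0 := by
      rw [Fintype.sum_unique]
      simp
    rw [h1] at hE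
    by_contra hc
    have : (default : Fin 0 → V) ∉ E := by
      intro h
      apply hc
      exact Eq.subst (motive := fun g : Fin 0 → V => g ∈ E)
        (@Subsingleton.elim (Fin 0 → V) (Unique.instSubsingleton) _ _) h
    rw [if_neg this] at hE
    linarith
  | succ k ih =>
    intro η hη
    rcases τ with _ | n
    · refine ⟨1, one_pos, ?_⟩
      intro V _ y E hy hs hd hE
      exact ⟨fun _ i => i.elim0, fun _ i => i.elim0, fun c => (c 0).elim0⟩
    obtain ⟨δ₁, hδ₁, H⟩ := ih (η ^ (n + 1) / 2) (by positivity)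
    refine ⟨min δ₁ (η ^ (n + 1) / (4 * ((n : ℝ) + 1) ^ 2)), lt_min hδ₁ (by positivity), ?_⟩
    intro V _ y E hy hs hd hE
    set δ := η ^ (n + 1) / (4 * ((n : ℝ) + 1) ^ 2) with hδ
    have hδ0 : 0 ≤ δ := by positivity
    -- notation
    set p : (Fin k → V) → ℝ := fun v => ∏ t, y (v t) with hp
    have hp0 : ∀ v, 0 ≤ p v := fun v => Finset.prod_nonneg fun t _ => hy _
    have hP : ∑ v, p v ≤ 1 := sum_prod_le_one y hy hs k
    set ind : V → (Fin k → V) → ℝ := fun w v => if (Fin.cons w v : Fin (k + 1) → V) ∈ E then 1 else 0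
      with hind
    have hind0 : ∀ w v, 0 ≤ ind w v := by
      intro w v
      simp only [hind]
      split_ifs <;> norm_num
    have hind1 : ∀ w v, ind w v ≤ 1 := by
      intro w v
      simp only [hind]
      split_ifs <;> norm_num
    set D : (Fin k → V) → ℝ := fun v => ∑ w, ind w v * y w with hD
    have hD0 : ∀ v, 0 ≤ D v := fun v => Finset.sum_nonneg fun w _ => mul_nonneg (hind0 w v) (hy w)
    have hS : (∑ v : Fin (k + 1) → V, if v ∈ E then ∏ t, y (v t) else 0) = ∑ v, p v * D v := by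
      rw [← (Fin.consEquiv (fun _ => V)).sum_comp, Fintype.sum_prod_type, Finset.sum_comm]
      refine Finset.sum_congr rfl fun v _ => ?_
      simp only [hD, Finset.mul_sum]
      refine Finset.sum_congr rfl fun w _ => ?_
      have h1 : (Fin.consEquiv (fun _ => V)) (w, v) = (Fin.cons w v : Fin (k + 1) → V) := rfl
      rw [h1, Fin.prod_univ_succ]
      simp only [Fin.cons_zero, Fin.cons_succ, hind, hp]
      split_ifs <;> ring
    rw [hS] at hE
    have hpm := power_mean n p D hp0 hD0 hP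
    have h1 : η ^ (n + 1) ≤ ∑ v, p v * D v ^ (n + 1) :=
      (pow_le_pow_left₀ hη.le hE _).trans hpm
    -- expansion
    set q : (Fin (n + 1) → V) → ℝ := fun u => ∏ i, y (u i) with hq
    have hq0 : ∀ u, 0 ≤ q u := fun u => Finset.prod_nonneg fun t _ => hy _
    set μ : (Fin (n + 1) → V) → ℝ := fun u => ∑ v, p v * ∏ i, ind (u i) v with hμ
    have hprod : ∀ (u : Fin (n + 1) → V) v, ∏ i, ind (u i) v ≤ 1 := fun u v =>
      Finset.prod_le_one (fun i _ => hind0 _ _) (fun i _ => hind1 _ _)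
    have hprod0 : ∀ (u : Fin (n + 1) → V) v, 0 ≤ ∏ i, ind (u i) v := fun u v =>
      Finset.prod_nonneg (fun i _ => hind0 _ _)
    have hμ0 : ∀ u, 0 ≤ μ u := fun u =>
      Finset.sum_nonneg fun v _ => mul_nonneg (hp0 v) (hprod0 u v)
    have hμ1 : ∀ u, μ u ≤ 1 := fun u =>
      (Finset.sum_le_sum fun v _ => (mul_le_of_le_one_right (hp0 v) (hprod u v))).trans hP
    have h2 : ∑ v, p v * D v ^ (n + 1) = ∑ u, q u * μ u := by
      have h3 : ∀ v, p v * D v ^ (n + 1) =
          ∑ u : Fin (n + 1) → V, q u * (p v * ∏ i, ind (u i) v) := by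
        intro v
        simp only [hD]
        rw [Fintype.sum_pow, Finset.mul_sum]
        refine Finset.sum_congr rfl fun u _ => ?_
        rw [Finset.prod_mul_distrib]
        simp only [hq]
        ring
      simp_rw [h3]
      rw [Finset.sum_comm]
      refine Finset.sum_congr rfl fun u _ => ?_
      simp only [hμ]
      rw [Finset.mul_sum]
    rw [h2] at h1
    -- the non-injective part
    have h4 : ∑ u, q u * μ u ≤ ∑ u : Fin (n + 1) → V, (if Function.Injective u then q u * μ u else 0)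
        + ((n : ℝ) + 1) ^ 2 * δ := by
      have h5 := noninj_bound y hy hs (δ := δ) (fun i => (hd i).trans (min_le_right _ _)) hδ0 n
      refine le_trans ?_ (add_le_add_right h5 _)
      rw [← Finset.sum_add_distrib]
      refine Finset.sum_le_sum fun u _ => ?_
      split_ifs
      · simp
      · simpa using mul_le_of_le_one_right (hq0 u) (hμ1 u)
    have h6 : ((n : ℝ) + 1) ^ 2 * δ = η ^ (n + 1) / 4 := by
      rw [hδ]
      field_simp
    obtain ⟨u, hu, hμu⟩ : ∃ u : Fin (n + 1) → V, Function.Injective u ∧ η ^ (n + 1) / 2 ≤ μ u := by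
      by_contra hcon
      push Not at hcon
      have h7 : ∑ u : Fin (n + 1) → V, (if Function.Injective u then q u * μ u else 0) ≤
          ∑ u : Fin (n + 1) → V, q u * (η ^ (n + 1) / 2) := by
        refine Finset.sum_le_sum fun u _ => ?_
        split_ifs with hu
        · exact mul_le_mul_of_nonneg_left (hcon u hu).le (hq0 u)
        · exact mul_nonneg (hq0 u) (by positivity)
      rw [← Finset.sum_mul] at h7
      have h8 : ∑ u : Fin (n + 1) → V, q u ≤ 1 := sum_prod_le_one y hy hs (n + 1)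
      have h9 : (∑ u : Fin (n + 1) → V, q u) * (η ^ (n + 1) / 2) ≤ 1 * (η ^ (n + 1) / 2) :=
        mul_le_mul_of_nonneg_right h8 (by positivity)
      have h10 : 0 < η ^ (n + 1) := by positivity
      linarith
    -- induction hypothesis
    obtain ⟨e', he', hc'⟩ := H V y {v | ∀ i, (Fin.cons (u i) v : Fin (k + 1) → V) ∈ E} hy hs
      (fun i => (hd i).trans (min_le_left _ _)) (by
        refine hμu.trans (le_of_eq ?_)
        simp only [hμ]
        refine Finset.sum_congr rfl fun v _ => ?_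
        simp only [Set.mem_ofPred_eq, hind, hp]
        split_ifs with h
        · have h' : (∏ i, if (Fin.cons (u i) v : Fin (k + 1) → V) ∈ E then (1 : ℝ) else 0) = 1 :=
            Finset.prod_eq_one fun i _ => if_pos (h i)
          rw [h', mul_one]
        · push Not at h
          obtain ⟨i, hi⟩ := h
          have h' : (∏ i, if (Fin.cons (u i) v : Fin (k + 1) → V) ∈ E then (1 : ℝ) else 0) = 0 :=
            Finset.prod_eq_zero (Finset.mem_univ i) (if_neg hi)
          rw [h', mul_zero])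
    refine ⟨Fin.cons u e', fun t => ?_, fun c => ?_⟩
    · refine Fin.cases ?_ (fun t' => ?_) t
      · simpa using hu
      · simpa using he' t'
    · have h11 := hc' (fun t => c t.succ) (c 0)
      have h12 : (fun t => (Fin.cons u e' : Fin (k + 1) → Fin (n + 1) → V) t (c t)) =
          (Fin.cons (u (c 0)) (fun t => e' t (c t.succ)) : Fin (k + 1) → V) := by
        funext t
        refine Fin.cases ?_ (fun t' => ?_) t
        · simp
        · simp
      rw [h12]
      exact h11

end MP0c3a8f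

end

section

/-!
# MP_0c3a8f_co, item CLQ (helper43)
-/

open Finset

namespace MP0c3a8f

namespace CLQ

theorem dd_nonneg {V : Type} [Fintype V] {k : ℕ} (G : SimpleGraph V) {y : V → ℝ}
    (hy : ∀ i, 0 ≤ y i) (v : Fin k → V) : 0 ≤ dd G y v := by
  classical
  unfold dd
  refine Finset.sum_nonneg fun w _ => ?_
  split_ifs
  · exact hy w
  · exact le_rfl

theorem ii_nonneg {V : Type} [Fintype V] {k : ℕ} (G : SimpleGraph V) {y : V → ℝ}
    (hy : ∀ i, 0 ≤ y i) (v : Fin k → V) (t : Fin k) : 0 ≤ ii G y v t := by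
  classical
  unfold ii
  refine Finset.sum_nonneg fun i _ => Finset.sum_nonneg fun j _ => ?_
  split_ifs
  · exact mul_nonneg (hy i) (hy j)
  · exact le_rfl

/-- the numerical part -/
theorem num (rho k eps eps1 h0 eta h hk hk2 Sg Si th : ℝ) (hrho : rho = k + 1) (hk1 : 1 ≤ k)
    (heps : 0 < eps) (he1 : eps1 ≤ eps / (2 * rho ^ 2)) (he2 : eps1 ≤ 1 / (2 * rho ^ 2))
    (hh0 : 0 < h0) (heta : eta = eps * h0 / (4 * rho)) (hh : h0 ≤ h) (hk0 : 0 ≤ hk)
    (hk20 : 0 ≤ hk2) (hk2e : hk2 ≤ eta) (hSg : 0 ≤ Sg) (hSi : Si ≤ rho * eta)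
    (hth : th ≤ 1 / rho + eps1) (hmm : (1 - k * th) * hk ≤ h)
    (havg : rho * h ^ 2 ≤ hk * (Sg + rho * hk2)) (hT : eps * h ≤ h - Sg + Si) : False := by
  have hrp : 0 < rho := by linarith
  have hr2 : 2 ≤ rho := by linarith
  have hhp : 0 < h := lt_of_lt_of_le hh0 hh
  have hetap : 0 ≤ eta := by rw [heta]; positivity
  -- c0
  set c0 : ℝ := 1 / rho - k * eps1 with hc0
  have hc0' : 1 / (2 * rho) ≤ c0 := by
    have h1 : k * eps1 ≤ rho * (1 / (2 * rho ^ 2)) := by
      rcases le_or_gt 0 eps1 with h | h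
      · exact mul_le_mul (by linarith) he2 h hrp.le
      · have : k * eps1 ≤ 0 := mul_nonpos_of_nonneg_of_nonpos (by linarith) h.le
        exact this.trans (by positivity)
    have h2 : rho * (1 / (2 * rho ^ 2)) = 1 / (2 * rho) := by field_simp
    have h3 : 1 / rho = 1 / (2 * rho) + 1 / (2 * rho) := by field_simp; norm_num
    rw [hc0, h3]
    rw [h2] at h1
    linarith
  have hc0p : 0 < c0 := lt_of_lt_of_le (by positivity) hc0'
  have hc1 : c0 ≤ 1 - k * th := by
    have h1 : k * th ≤ k * (1 / rho + eps1) := mul_le_mul_of_nonneg_left hth (by linarith)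
    have h2 : 1 / rho = 1 - k * (1 / rho) := by
      field_simp
      linarith
    rw [hc0]
    nlinarith
  have hk' : c0 * hk ≤ h := (mul_le_mul_of_nonneg_right hc1 hk0).trans hmm
  have hX : 0 ≤ Sg + rho * hk2 := by positivity
  have h5 : c0 * (rho * h ^ 2) ≤ h * (Sg + rho * hk2) := by
    calc c0 * (rho * h ^ 2) ≤ c0 * (hk * (Sg + rho * hk2)) := mul_le_mul_of_nonneg_left havg hc0p.le
      _ = (c0 * hk) * (Sg + rho * hk2) := by ring
      _ ≤ h * (Sg + rho * hk2) := mul_le_mul_of_nonneg_right hk' hX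
  have h6 : c0 * rho * h ≤ Sg + rho * hk2 := by
    have : h * (c0 * rho * h) ≤ h * (Sg + rho * hk2) := by linarith [h5, (by ring : h * (c0 * rho * h) = c0 * (rho * h ^ 2))]
    exact le_of_mul_le_mul_left this hhp
  have h7 : rho * hk2 ≤ rho * eta := mul_le_mul_of_nonneg_left hk2e hrp.le
  have h8 : c0 * rho = 1 - k * eps1 * rho := by
    rw [hc0]
    field_simp
  have h9 : k * eps1 * rho < eps / 2 := by
    rcases le_or_gt 0 eps1 with h | h
    · have h1 : k * eps1 * rho ≤ k * (eps / (2 * rho ^ 2)) * rho := by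
        apply mul_le_mul_of_nonneg_right _ hrp.le
        exact mul_le_mul_of_nonneg_left he1 (by linarith)
      have h2 : k * (eps / (2 * rho ^ 2)) * rho = (k / rho) * (eps / 2) := by
        field_simp
      have h3 : k / rho < 1 := by rw [div_lt_one hrp]; linarith
      have h4 : (k / rho) * (eps / 2) < 1 * (eps / 2) :=
        mul_lt_mul_of_pos_right h3 (by positivity)
      linarith
    · have : k * eps1 * rho ≤ 0 :=
        mul_nonpos_of_nonpos_of_nonneg (mul_nonpos_of_nonneg_of_nonpos (by linarith) h.le) hrp.le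
      linarith [half_pos heps]
  have h10 : rho * eta = eps * h0 / 4 := by
    rw [heta]
    field_simp
  have h11 : eps * h0 ≤ eps * h := mul_le_mul_of_nonneg_left hh heps.le
  rw [h8] at h6
  have h12 : k * eps1 * rho * h < eps / 2 * h := mul_lt_mul_of_pos_right h9 hhp
  nlinarith

end CLQ

theorem prfCLQ : AVG_statement → MM_statement → CLQ_statement := by
  classical
  intro hAVG hMM r eps hr heps
  obtain ⟨k, rfl⟩ : ∃ k, r = k + 1 := ⟨r - 1, by omega⟩
  have hk1 : (1 : ℝ) ≤ k := by exact_mod_cast (by omega : 1 ≤ k)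
  set rho : ℝ := (k : ℝ) + 1 with hrho
  have hrp : 0 < rho := by positivity
  have hcast : ((k + 1 : ℕ) : ℝ) = rho := by push_cast; rfl
  set eps1 : ℝ := min (eps / (2 * rho ^ 2)) (1 / (2 * rho ^ 2)) with heps1
  have he1 : eps1 ≤ eps / (2 * rho ^ 2) := min_le_left _ _
  have he2 : eps1 ≤ 1 / (2 * rho ^ 2) := min_le_right _ _
  have he0 : 0 < eps1 := lt_min (by positivity) (by positivity)
  set h0 : ℝ := (1 / (2 * rho)) ^ k with hh0
  have hh0p : 0 < h0 := by positivity
  refine ⟨eps1, he0, eps * h0 / (4 * rho), by positivity, ?_⟩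
  intro V _ G y hy hsum hq hh'
  rw [hcast] at hq
  obtain ⟨hm1, -, hm3⟩ := hMM V G y hy hsum
  obtain ⟨ha1, ha2, ha3, -⟩ := hAVG V G y k hy hsum
  have hth : 1 - qf G y ≤ 1 / rho + eps1 := by linarith
  have hchain : ∀ j : ℕ, j ≤ k → (1 / (2 * rho)) ^ j ≤ hh G y (j + 1) := by
    intro j
    induction j with
    | zero =>
      intro _
      rw [pow_zero, hm1]
    | succ j ih =>
      intro hj
      have ih' := ih (by omega)
      have h1 := (hm3 (j + 1)).2.2
      have h2 : 1 / (2 * rho) ≤ 1 - ((j + 1 : ℕ) : ℝ) * (1 - qf G y) := by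
        have hjk : ((j + 1 : ℕ) : ℝ) ≤ k := by exact_mod_cast hj
        have h3 : ((j + 1 : ℕ) : ℝ) * (1 - qf G y) ≤ k * (1 / rho + eps1) :=
          (mul_le_mul_of_nonneg_left hth (Nat.cast_nonneg _)).trans
            (mul_le_mul_of_nonneg_right hjk (by positivity))
        have h4 : k * eps1 ≤ rho * (1 / (2 * rho ^ 2)) :=
          mul_le_mul (by linarith) he2 he0.le hrp.le
        have h5 : rho * (1 / (2 * rho ^ 2)) = 1 / (2 * rho) := by field_simp
        have h6 : (k : ℝ) * (1 / rho) = 1 - 1 / rho := by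
          rw [hrho]
          field_simp
          ring
        have h7 : 1 / rho = 1 / (2 * rho) + 1 / (2 * rho) := by field_simp; norm_num
        rw [h5] at h4
        rw [mul_add, h6] at h3
        linarith
      calc (1 / (2 * rho)) ^ (j + 1) = 1 / (2 * rho) * (1 / (2 * rho)) ^ j := pow_succ' _ _
        _ ≤ (1 - ((j + 1 : ℕ) : ℝ) * (1 - qf G y)) * hh G y (j + 1) :=
            mul_le_mul h2 ih' (by positivity) ((by positivity : (0 : ℝ) ≤ 1 / (2 * rho)).trans h2)
        _ ≤ _ := h1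
  have hhk := hchain k le_rfl
  by_contra hcon
  push Not at hcon
  have hpi : ∀ v : Fin (k + 1) → V, 0 ≤ ∏ t, y (v t) := fun v =>
    Finset.prod_nonneg fun t _ => hy _
  have hgg1 : ∀ v : Fin (k + 1) → V, gg G y v ≤ 1 := fun v => by
    have := ha3 v
    have := CLQ.dd_nonneg G hy v
    linarith
  have hgg0 : ∀ v : Fin (k + 1) → V, 0 ≤ gg G y v := fun v => by
    unfold gg
    refine Finset.sum_nonneg fun w _ => ?_
    split_ifs
    · exact hy w
    · exact le_rfl
  have hbad : ∀ v : Fin (k + 1) → V, cl G v → eps ≤ (1 - gg G y v) + ∑ t, ii G y v t := by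
    intro v hv
    by_contra hlt
    rw [not_le] at hlt
    have hi0 : 0 ≤ ∑ t, ii G y v t := Finset.sum_nonneg fun t _ => CLQ.ii_nonneg G hy v t
    have h1 : 1 - eps ≤ gg G y v := by linarith
    have h2 := hcon v hv h1
    linarith [hgg1 v]
  set Sg : ℝ := ∑ v : Fin (k + 1) → V, if cl G v then (∏ t, y (v t)) * gg G y v else 0 with hSg
  set Si : ℝ := ∑ t : Fin (k + 1), ∑ v : Fin (k + 1) → V,
    if cl G v then (∏ t, y (v t)) * ii G y v t else 0 with hSi
  have hSg0 : 0 ≤ Sg := by
    refine Finset.sum_nonneg fun v _ => ?_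
    split_ifs
    · exact mul_nonneg (hpi v) (hgg0 v)
    · exact le_rfl
  have hSi' : Si ≤ rho * (eps * h0 / (4 * rho)) := by
    have h1 : Si ≤ ∑ _t : Fin (k + 1), (eps * h0 / (4 * rho)) :=
      Finset.sum_le_sum fun t _ => (ha2 t).trans hh'
    rw [Finset.sum_const, Finset.card_univ, Fintype.card_fin, nsmul_eq_mul, hcast] at h1
    exact h1
  have hT : eps * hh G y (k + 1) ≤ hh G y (k + 1) - Sg + Si := by
    rw [hSg, hSi, Finset.sum_comm]
    unfold hh
    rw [Finset.mul_sum, ← Finset.sum_sub_distrib, ← Finset.sum_add_distrib]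
    refine Finset.sum_le_sum fun v _ => ?_
    by_cases hv : cl G v
    · simp only [hv, if_true]
      rw [← Finset.mul_sum]
      have := mul_le_mul_of_nonneg_left (hbad v hv) (hpi v)
      linarith
    · simp only [hv, if_false]
      simp
  exact CLQ.num rho k eps eps1 h0 (eps * h0 / (4 * rho)) (hh G y (k + 1)) (hh G y k)
    (hh G y (k + 2)) Sg Si (1 - qf G y) hrho hk1 heps he1 he2 hh0p rfl hhk (hm3 k).1
    (hm3 (k + 2)).1 hh' hSg0 hSi' hth (hm3 k).2.2 ha1 hT

end MP0c3a8f

end

section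

/-!
# MP_0c3a8f_co: items CNV and YU
-/

open Finset

namespace MP0c3a8f

/-- ordered pairs of a symmetric relation without loops -/
theorem cnv_count {V : Type} [Fintype V] (R : V → V → Prop) [∀ i j, Decidable (R i j)]
    (hs : ∀ i j, R i j → R j i) (hl : ∀ i, ¬ R i i) :
    ∑ i, ∑ j, (if R i j then (1 : ℝ) else 0)
      = 2 * (({e : Sym2 V | ∃ v w, e = s(v, w) ∧ R v w}.ncard : ℕ) : ℝ) := by
  classical
  let H : SimpleGraph V := { Adj := R, symm := ⟨fun i j h => hs i j h⟩, loopless := ⟨fun i h => hl i h⟩ }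
  have hE : {e : Sym2 V | ∃ v w, e = s(v, w) ∧ R v w} = (H.edgeFinset : Set (Sym2 V)) := by
    ext e
    simp only [Set.mem_ofPred_eq, SimpleGraph.coe_edgeFinset]
    constructor
    · rintro ⟨v, w, rfl, h⟩
      exact (SimpleGraph.mem_edgeSet H).2 h
    · induction e using Sym2.ind with
      | _ v w => exact fun h => ⟨v, w, rfl, (SimpleGraph.mem_edgeSet H).1 h⟩
  rw [hE, Set.ncard_coe_finset]
  have h1 := H.sum_degrees_eq_twice_card_edges
  have h2 : ∀ i, ∑ j, (if R i j then (1 : ℝ) else 0) = (H.degree i : ℝ) := by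
    intro i
    rw [← SimpleGraph.card_neighborFinset_eq_degree, Finset.sum_boole]
    congr 1
    congr 1
    ext j
    simp only [Finset.mem_filter, Finset.mem_univ, true_and, SimpleGraph.mem_neighborFinset]
    rfl
  rw [Finset.sum_congr rfl (fun i _ => h2 i), ← Nat.cast_sum, h1]
  push_cast
  ring

open Classical in
theorem cnv_out {V : Type} [Fintype V] {r : ℕ} (G : SimpleGraph V) (g : V → Option (Fin r)) :
    ∑ i, ∑ j, (if G.Adj i j ∧ (g i = none ∨ g j = none) then (1 : ℝ) else 0)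
      = 2 * ((outSet G g).ncard : ℝ) := by
  have h0 := cnv_count (fun i j => G.Adj i j ∧ (g i = none ∨ g j = none))
    (fun i j h => ⟨h.1.symm, h.2.symm⟩) (fun i h => G.loopless.irrefl i h.1)
  refine h0.trans ?_
  congr 3
  ext e
  unfold outSet
  simp only [Set.mem_ofPred_eq]
  constructor
  · rintro ⟨v, w, rfl, h, h2⟩
    refine ⟨(SimpleGraph.mem_edgeSet G).2 h, ?_⟩
    rcases h2 with h2 | h2
    · exact ⟨v, Sym2.mem_mk_left _ _, h2⟩
    · exact ⟨w, Sym2.mem_mk_right _ _, h2⟩
  · induction e using Sym2.ind with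
    | _ v w =>
      rintro ⟨h, u, hu, h2⟩
      refine ⟨v, w, rfl, (SimpleGraph.mem_edgeSet G).1 h, ?_⟩
      rcases Sym2.mem_iff.1 hu with rfl | rfl
      · exact Or.inl h2
      · exact Or.inr h2

open Classical in
theorem cnv_miss {V : Type} [Fintype V] {r : ℕ} (G : SimpleGraph V) (g : V → Option (Fin r)) :
    ∑ i, ∑ j, (if g i ≠ none ∧ g j ≠ none ∧ g i ≠ g j ∧ ¬ G.Adj i j then (1 : ℝ) else 0)
      = 2 * ((missSet G g).ncard : ℝ) := by
  exact cnv_count (fun i j => g i ≠ none ∧ g j ≠ none ∧ g i ≠ g j ∧ ¬ G.Adj i j)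
    (fun i j h => ⟨h.2.1, h.1, h.2.2.1.symm, fun h' => h.2.2.2 h'.symm⟩)
    (fun i h => h.2.2.1 rfl)

theorem cnv_ineq1 {p δ : ℝ} (hδ : 0 < δ) (hδ' : δ ≤ 1 / 8) (hp : 0 ≤ p) (hp' : p ≤ δ * (1 + δ)) :
    1 - 4 * δ ≤ (p - 1) ^ 2 := by
  have h1 : p ≤ 2 * δ := by nlinarith
  nlinarith

theorem cnv_ineq2 {a b δ : ℝ} (hδ : 0 < δ) (hδ' : δ ≤ 1 / 8) (ha : 1 - δ ≤ a) (hb : 1 - δ ≤ b) :
    1 - 4 * δ ≤ a ^ 2 * b ^ 2 := by
  have h0 : 0 ≤ 1 - δ := by linarith
  have h1 : (1 - δ) ^ 2 ≤ a ^ 2 := by gcongr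
  have h2 : (1 - δ) ^ 2 ≤ b ^ 2 := by gcongr
  have h3 : (1 - δ) ^ 2 * (1 - δ) ^ 2 ≤ a ^ 2 * b ^ 2 :=
    mul_le_mul h1 h2 (by positivity) (by positivity)
  have h4 : 1 - 2 * δ ≤ (1 - δ) ^ 2 := by nlinarith
  have h5 : (1 - 2 * δ) * (1 - 2 * δ) ≤ (1 - δ) ^ 2 * (1 - δ) ^ 2 :=
    mul_le_mul h4 h4 (by linarith) (by positivity)
  nlinarith

theorem prfCNV1 : CNV_statement := by
  classical
  intro r δ V _ G z g hδ hδ' hz h0 h1
  have hup : ∀ i, z i ≤ 1 + δ := by
    intro i
    by_cases hi : g i = none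
    · have := h0 i hi; linarith
    · have := abs_le.1 (h1 i hi); linarith
  constructor
  · have h2 : 2 * (1 - 4 * δ) * ((outSet G g).ncard : ℝ)
        = ∑ i, ∑ j, (if G.Adj i j ∧ (g i = none ∨ g j = none) then (1 - 4 * δ) else 0) := by
      have h3 : ∀ i j, (if G.Adj i j ∧ (g i = none ∨ g j = none) then (1 - 4 * δ) else 0)
          = (1 - 4 * δ) * (if G.Adj i j ∧ (g i = none ∨ g j = none) then (1 : ℝ) else 0) := by
        intro i j; split_ifs <;> simp
      simp_rw [h3, ← Finset.mul_sum]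
      rw [cnv_out]; ring
    rw [h2]
    refine Finset.sum_le_sum fun i _ => Finset.sum_le_sum fun j _ => ?_
    unfold adj
    split_ifs with ha hb hb
    · rw [one_mul]
      apply cnv_ineq1 hδ hδ' (mul_nonneg (hz i) (hz j))
      rcases ha.2 with hi | hj
      · exact mul_le_mul (h0 i hi) (hup j) (hz j) hδ.le
      · rw [mul_comm]
        exact mul_le_mul (h0 j hj) (hup i) (hz i) hδ.le
    · exact absurd ha.1 hb
    · rw [one_mul]; positivity
    · rw [zero_mul]
  · have h2 : 2 * (1 - 4 * δ) * ((missSet G g).ncard : ℝ)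
        = ∑ i, ∑ j, (if g i ≠ none ∧ g j ≠ none ∧ g i ≠ g j ∧ ¬ G.Adj i j
            then (1 - 4 * δ) else 0) := by
      have h3 : ∀ i j, (if g i ≠ none ∧ g j ≠ none ∧ g i ≠ g j ∧ ¬ G.Adj i j
            then (1 - 4 * δ) else 0)
          = (1 - 4 * δ) * (if g i ≠ none ∧ g j ≠ none ∧ g i ≠ g j ∧ ¬ G.Adj i j
            then (1 : ℝ) else 0) := by
        intro i j; split_ifs <;> simp
      simp_rw [h3, ← Finset.mul_sum]
      rw [cnv_miss]; ring
    rw [h2]
    unfold miss
    refine Finset.sum_le_sum fun i _ => Finset.sum_le_sum fun j _ => ?_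
    split_ifs with ha
    · have h3 := (abs_le.1 (h1 i ha.1)).1
      have h4 := (abs_le.1 (h1 j ha.2.1)).1
      exact cnv_ineq2 hδ hδ' (by linarith) (by linarith)
    · exact le_rfl

theorem prfYU : YU_statement := by
  classical
  intro r V _ G x l m g B hD hB
  have hB0 : ∀ i, 0 ≤ x i ∧ x i ≤ B := fun i => ⟨hD.nonneg i, hB i⟩
  constructor
  · have h1 : l * cw (fun i => x i ^ 2) g none
        = ∑ i, ∑ j, (if g i = none then adj G i j * (x i * x j) else 0) := by
      unfold cw
      rw [Finset.mul_sum]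
      refine Finset.sum_congr rfl fun i _ => ?_
      split_ifs with hi
      · have h2 := hD.eig i
        calc l * x i ^ 2 = x i * (l * x i) := by ring
          _ = x i * ∑ j, adj G i j * x j := by rw [h2]
          _ = ∑ j, adj G i j * (x i * x j) := by
              rw [Finset.mul_sum]
              exact Finset.sum_congr rfl fun j _ => by ring
      · simp
    have h2 : 2 * ((outSet G g).ncard : ℝ) * B ^ 2
        = ∑ i, ∑ j, (if G.Adj i j ∧ (g i = none ∨ g j = none) then B ^ 2 else 0) := by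
      have h3 : ∀ i j, (if G.Adj i j ∧ (g i = none ∨ g j = none) then B ^ 2 else 0)
          = B ^ 2 * (if G.Adj i j ∧ (g i = none ∨ g j = none) then (1 : ℝ) else 0) := by
        intro i j; split_ifs <;> simp
      simp_rw [h3, ← Finset.mul_sum]
      rw [cnv_out]; ring
    rw [h1, h2]
    refine Finset.sum_le_sum fun i _ => Finset.sum_le_sum fun j _ => ?_
    unfold adj
    by_cases hi : g i = none
    · by_cases hij : G.Adj i j
      · rw [if_pos hi, if_pos hij, if_pos ⟨hij, Or.inl hi⟩, one_mul, pow_two]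
        exact mul_le_mul (hB0 i).2 (hB0 j).2 (hB0 j).1 (le_trans (hB0 i).1 (hB0 i).2)
      · rw [if_pos hi, if_neg hij, zero_mul]
        split_ifs <;> positivity
    · rw [if_neg hi]
      split_ifs <;> positivity
  · intro w hw
    unfold nb
    have h1 : ∑ j, adj G w j * (x j ^ 2) ≤ ∑ j, adj G w j * B ^ 2 := by
      refine Finset.sum_le_sum fun j _ => ?_
      apply mul_le_mul_of_nonneg_left
      · have := hB0 j
        gcongr
        · exact this.1
        · exact this.2
      · unfold adj; split_ifs <;> norm_num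
    refine h1.trans ?_
    rw [← Finset.sum_mul]
    apply mul_le_mul_of_nonneg_right _ (by positivity)
    have h2 : ∑ j, adj G w j = ((Finset.univ.filter (fun j => G.Adj w j)).card : ℝ) := by
      unfold adj
      rw [Finset.sum_boole]
    rw [h2]
    have h3 : (Finset.univ.filter (fun j => G.Adj w j)).card ≤ (outSet G g).ncard := by
      rw [← Set.ncard_coe_finset]
      apply Set.ncard_le_ncard_of_injOn (fun j => s(w, j))
      · intro j hj
        have hj' : G.Adj w j := by simpa using hj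
        exact ⟨(SimpleGraph.mem_edgeSet G).2 hj', w, Sym2.mem_mk_left _ _, hw⟩
      · intro j _ k _ hjk
        rcases (Sym2.eq_iff).1 hjk with h | h
        · exact h.2
        · exact h.2.trans h.1
    exact_mod_cast h3

theorem prfCNV : CNV_statement ∧ YU_statement := ⟨prfCNV1, prfYU⟩

end MP0c3a8f

end

section

/-!
# MP_0c3a8f_co: item COR (correction of the partition)
-/

open Finset

namespace MP0c3a8f

namespace COR

open Classical in
theorem marg {V : Type} [Fintype V] {r : ℕ} (y : V → ℝ) (hy1 : ∑ i, y i = 1) {s t : Fin r}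
    (hst : s ≠ t) (i j : V) :
    ∑ p : Fin r → V, (if p s = i ∧ p t = j then ∏ u, y (p u) else 0) = y i * y j := by
  set φ : Fin r → V → ℝ := fun u x =>
    if u = s then (if x = i then y x else 0) else if u = t then (if x = j then y x else 0)
      else y x with hφ
  have h1 : ∀ p : Fin r → V, (if p s = i ∧ p t = j then ∏ u, y (p u) else 0) =
      ∏ u, φ u (p u) := by
    intro p
    by_cases h : p s = i ∧ p t = j
    · rw [if_pos h]
      refine Finset.prod_congr rfl fun u _ => ?_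
      simp only [hφ]
      by_cases hus : u = s
      · subst hus
        simp [h.1]
      · by_cases hut : u = t
        · subst hut
          simp [hus, h.2]
        · simp [hus, hut]
    · rw [if_neg h]
      by_cases hs : p s = i
      · have ht : p t ≠ j := fun ht => h ⟨hs, ht⟩
        refine (Finset.prod_eq_zero (Finset.mem_univ t) ?_).symm
        simp only [hφ]
        simp [hst.symm, ht]
      · refine (Finset.prod_eq_zero (Finset.mem_univ s) ?_).symm
        simp only [hφ]
        simp [hs]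
  have h2 : ∑ p : Fin r → V, ∏ u, φ u (p u) = ∏ u, ∑ x, φ u x := by
    rw [Finset.prod_univ_sum]
    rw [Fintype.piFinset_univ]
  rw [Finset.sum_congr rfl fun p _ => h1 p, h2, Fintype.prod_eq_mul s t hst]
  · have e1 : ∑ x, φ s x = y i := by simp [hφ]
    have e2 : ∑ x, φ t x = y j := by simp [hφ, hst.symm]
    rw [e1, e2]
  · rintro u ⟨hus, hut⟩
    simp only [hφ, hus, hut, if_false]
    exact hy1

open Classical in
theorem marg' {V : Type} [Fintype V] {r : ℕ} (y : V → ℝ) (hy1 : ∑ i, y i = 1) {s t : Fin r}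
    (hst : s ≠ t) (P : V → V → Prop) :
    ∑ p : Fin r → V, (if P (p s) (p t) then ∏ u, y (p u) else 0) =
      ∑ i, ∑ j, if P i j then y i * y j else 0 := by
  have h1 : ∀ p : Fin r → V, (if P (p s) (p t) then ∏ u, y (p u) else 0) =
      ∑ i, ∑ j, if P i j then (if p s = i ∧ p t = j then ∏ u, y (p u) else 0) else 0 := by
    intro p
    rw [Finset.sum_eq_single (p s), Finset.sum_eq_single (p t)]
    · simp
    · intro j _ hj
      simp [hj.symm]
    · intro h
      exact absurd (Finset.mem_univ _) h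
    · intro i _ hi
      refine Finset.sum_eq_zero fun j _ => ?_
      simp [hi.symm]
    · intro h
      exact absurd (Finset.mem_univ _) h
  rw [Finset.sum_congr rfl fun p _ => h1 p, Finset.sum_comm]
  refine Finset.sum_congr rfl fun i _ => ?_
  rw [Finset.sum_comm]
  refine Finset.sum_congr rfl fun j _ => ?_
  by_cases h : P i j
  · simp only [h, if_true]
    exact marg y hy1 hst i j
  · simp [h]

open Classical in
theorem factT {V : Type} [Fintype V] {r : ℕ} (G : SimpleGraph V) (y : V → ℝ)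
    (f₀ : V → Option (Fin r)) (hy0 : ∀ i, 0 ≤ y i) (hy1 : ∑ i, y i = 1) (A : Fin r → Finset V)
    (hA : ∀ t, ∀ i ∈ A t, f₀ i = some t) :
    ∏ t, (∑ i ∈ A t, y i) - miss G y f₀ ≤
      ∑ v : Fin r → V, if (∀ t, v t ∈ A t) ∧ cl G v then ∏ t, y (v t) else 0 := by
  have hnn : ∀ v : Fin r → V, 0 ≤ ∏ t, y (v t) := fun v => Finset.prod_nonneg fun t _ => hy0 _
  have h1 : ∏ t, (∑ i ∈ A t, y i) =
      ∑ v : Fin r → V, if ∀ t, v t ∈ A t then ∏ t, y (v t) else 0 := by
    rw [Finset.prod_univ_sum, ← Finset.sum_filter]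
    refine Finset.sum_congr ?_ fun _ _ => rfl
    ext v
    simp [Fintype.mem_piFinset]
  have h2 : ∀ v : Fin r → V, (if ∀ t, v t ∈ A t then ∏ t, y (v t) else 0) ≤
      (if (∀ t, v t ∈ A t) ∧ cl G v then ∏ t, y (v t) else 0) +
      ∑ s, ∑ t, (if s ≠ t ∧ f₀ (v s) = some s ∧ f₀ (v t) = some t ∧ ¬ G.Adj (v s) (v t)
        then ∏ u, y (v u) else 0) := by
    intro v
    have hS : ∀ s t, 0 ≤ (if s ≠ t ∧ f₀ (v s) = some s ∧ f₀ (v t) = some t ∧
        ¬ G.Adj (v s) (v t) then ∏ u, y (v u) else 0) := by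
      intro s t
      split_ifs
      · exact hnn v
      · exact le_rfl
    by_cases hv : ∀ t, v t ∈ A t
    · by_cases hc : cl G v
      · rw [if_pos hv, if_pos ⟨hv, hc⟩]
        have := Finset.sum_nonneg (s := Finset.univ) fun (s : Fin r) _ =>
          Finset.sum_nonneg (s := Finset.univ) fun (t : Fin r) _ => hS s t
        linarith
      · rw [if_pos hv, if_neg (fun h => hc h.2), zero_add]
        unfold cl at hc
        push Not at hc
        obtain ⟨s, t, hst, hadj⟩ := hc
        calc ∏ t, y (v t) = (if s ≠ t ∧ f₀ (v s) = some s ∧ f₀ (v t) = some t ∧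
              ¬ G.Adj (v s) (v t) then ∏ u, y (v u) else 0) := by
              rw [if_pos ⟨hst, hA s _ (hv s), hA t _ (hv t), hadj⟩]
          _ ≤ ∑ t, (if s ≠ t ∧ f₀ (v s) = some s ∧ f₀ (v t) = some t ∧
              ¬ G.Adj (v s) (v t) then ∏ u, y (v u) else 0) :=
              Finset.single_le_sum (f := fun t => (if s ≠ t ∧ f₀ (v s) = some s ∧
                f₀ (v t) = some t ∧ ¬ G.Adj (v s) (v t) then ∏ u, y (v u) else 0))
                (fun t _ => hS s t) (Finset.mem_univ t)
          _ ≤ _ := Finset.single_le_sum (f := fun s => ∑ t, (if s ≠ t ∧ f₀ (v s) = some s ∧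
                f₀ (v t) = some t ∧ ¬ G.Adj (v s) (v t) then ∏ u, y (v u) else 0))
                (fun s _ => Finset.sum_nonneg fun t _ => hS s t) (Finset.mem_univ s)
    · rw [if_neg hv, if_neg (fun h => hv h.1), zero_add]
      exact Finset.sum_nonneg fun s _ => Finset.sum_nonneg fun t _ => hS s t
  have h3 : ∑ v : Fin r → V, ∑ s, ∑ t, (if s ≠ t ∧ f₀ (v s) = some s ∧ f₀ (v t) = some t ∧
      ¬ G.Adj (v s) (v t) then ∏ u, y (v u) else 0) ≤ miss G y f₀ := by
    rw [Finset.sum_comm]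
    have h4 : ∀ s, ∑ v : Fin r → V, ∑ t, (if s ≠ t ∧ f₀ (v s) = some s ∧ f₀ (v t) = some t ∧
        ¬ G.Adj (v s) (v t) then ∏ u, y (v u) else 0) = ∑ t, ∑ i, ∑ j,
          (if s ≠ t ∧ f₀ i = some s ∧ f₀ j = some t ∧ ¬ G.Adj i j then y i * y j else 0) := by
      intro s
      rw [Finset.sum_comm]
      refine Finset.sum_congr rfl fun t _ => ?_
      by_cases hst : s = t
      · subst hst
        simp
      · convert marg' y hy1 hst (fun i j => s ≠ t ∧ f₀ i = some s ∧ f₀ j = some t ∧ ¬ G.Adj i j)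
    rw [Finset.sum_congr rfl fun s _ => h4 s]
    have h5 : ∑ s : Fin r, ∑ t : Fin r, ∑ i, ∑ j,
        (if s ≠ t ∧ f₀ i = some s ∧ f₀ j = some t ∧ ¬ G.Adj i j then y i * y j else 0) =
        ∑ i, ∑ j, ∑ s : Fin r, ∑ t : Fin r,
        (if s ≠ t ∧ f₀ i = some s ∧ f₀ j = some t ∧ ¬ G.Adj i j then y i * y j else 0) := by
      calc _ = ∑ s : Fin r, ∑ i, ∑ j, ∑ t : Fin r,
            (if s ≠ t ∧ f₀ i = some s ∧ f₀ j = some t ∧ ¬ G.Adj i j then y i * y j else 0) := by
            refine Finset.sum_congr rfl fun s _ => ?_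
            rw [Finset.sum_comm]
            refine Finset.sum_congr rfl fun i _ => ?_
            rw [Finset.sum_comm]
        _ = _ := by
            rw [Finset.sum_comm]
            refine Finset.sum_congr rfl fun i _ => ?_
            rw [Finset.sum_comm]
    rw [h5]
    unfold miss
    refine Finset.sum_le_sum fun i _ => Finset.sum_le_sum fun j _ => ?_
    have hij : 0 ≤ y i * y j := mul_nonneg (hy0 i) (hy0 j)
    rcases hi : f₀ i with _ | a
    · simp
    rcases hj : f₀ j with _ | b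
    · simp
    rw [Finset.sum_eq_single a, Finset.sum_eq_single b]
    · by_cases hab : a = b
      · simp [hab]
      · by_cases hadj : G.Adj i j
        · simp [hadj]
        · simp [hab, hadj]
    · intro t _ ht
      rw [if_neg]
      rintro ⟨-, -, h, -⟩
      exact ht (Option.some.inj h).symm
    · intro h
      exact absurd (Finset.mem_univ _) h
    · intro s _ hs
      refine Finset.sum_eq_zero fun t _ => ?_
      rw [if_neg]
      rintro ⟨-, h, -, -⟩
      exact hs (Option.some.inj h).symm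
    · intro h
      exact absurd (Finset.mem_univ _) h
  have h6 := Finset.sum_le_sum fun v (_ : v ∈ Finset.univ) => h2 v
  rw [Finset.sum_add_distrib] at h6
  rw [h1]
  linarith

open Classical in
/-- the blow-up lemma applied to the transversal cliques -/
theorem blow {V : Type} [Fintype V] {r τ : ℕ} {η δ : ℝ}
    (hBU : ∀ (V : Type) [Fintype V] (y : V → ℝ)
      (E : Set (Fin r → V)), (∀ i, 0 ≤ y i) → ∑ i, y i ≤ 1 → (∀ i, y i ≤ δ) →
      (η ≤ ∑ v : Fin r → V, if v ∈ E then ∏ t, y (v t) else 0) →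
      ∃ e : Fin r → Fin τ → V, (∀ t, Function.Injective (e t)) ∧
        ∀ c : Fin r → Fin τ, (fun t => e t (c t)) ∈ E)
    (G : SimpleGraph V) (y : V → ℝ)
    (f₀ : V → Option (Fin r)) (hy0 : ∀ i, 0 ≤ y i) (hy1 : ∑ i, y i = 1) (hδ : 0 ≤ δ)
    (hf : ∀ i, f₀ i ≠ none → y i ≤ δ) (A : Fin r → Finset V)
    (hA : ∀ t, ∀ i ∈ A t, f₀ i = some t)
    (hη : η ≤ ∏ t, (∑ i ∈ A t, y i) - miss G y f₀) :
    ∃ e : Fin r → Fin τ → V, (∀ t, Function.Injective (e t)) ∧
      (∀ s t i j, s ≠ t → G.Adj (e s i) (e t j)) ∧ ∀ t i, e t i ∈ A t := by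
  set y' : V → ℝ := fun i => if f₀ i ≠ none then y i else 0 with hy'
  have h0 : ∀ i, 0 ≤ y' i := by
    intro i
    by_cases h : f₀ i = none
    · simp [hy', h]
    · simp [hy', h, hy0 i]
  have hle : ∀ i, y' i ≤ y i := by
    intro i
    by_cases h : f₀ i = none
    · simp [hy', h, hy0 i]
    · simp [hy', h]
  obtain ⟨e, he1, he2⟩ := hBU V y' {v | (∀ t, v t ∈ A t) ∧ cl G v} h0
    ((Finset.sum_le_sum fun i _ => hle i).trans hy1.le) (by
      intro i
      by_cases h : f₀ i = none
      · simp [hy', h, hδ]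
      · simp only [hy', ne_eq, h, not_false_eq_true, if_true]
        exact hf i h) (by
      refine (hη.trans (factT G y f₀ hy0 hy1 A hA)).trans (le_of_eq ?_)
      refine Finset.sum_congr rfl fun v _ => ?_
      by_cases hv : (∀ t, v t ∈ A t) ∧ cl G v
      · rw [if_pos hv, if_pos (by exact hv)]
        refine Finset.prod_congr rfl fun t _ => ?_
        simp only [hy']
        rw [if_pos]
        rw [hA t _ (hv.1 t)]
        simp
      · rw [if_neg hv, if_neg (by exact hv)])
  refine ⟨e, he1, fun s t i j hst => ?_, fun t i => ?_⟩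
  · have h := (he2 (Function.update (fun _ => i) t j)).2 s t hst
    simp only [Function.update_self, Function.update_of_ne hst] at h
    exact h
  · exact (he2 (fun _ => i)).1 t

end COR

open Classical in
theorem prfCOR : BU_statement → E1_statement → E2_statement → COR_statement := by
  intro hBU hE1 hE2 W _ F r ρ hr hcrit hρ
  have hrpos : (0 : ℝ) < r := by
    have : 0 < r := by omega
    exact_mod_cast this
  set c1 : ℝ := (1 / (64 * r)) ^ r with hc1
  set c2 : ℝ := (1 / (2 * r)) ^ r with hc2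
  have hc1p : 0 < c1 := by positivity
  have hc2p : 0 < c2 := by positivity
  obtain ⟨d1, hd1, BU1⟩ := hBU (Fintype.card W) r (c1 / 2) (by positivity)
  obtain ⟨d2, hd2, BU2⟩ := hBU (Fintype.card W) r (c2 / 2) (by positivity)
  obtain ⟨ε, hε, e1, e2, e3, e4, e5, e6⟩ : ∃ ε : ℝ, 0 < ε ∧ ε ≤ d1 ∧ ε ≤ d2 ∧
      ε ≤ 1 / (64 * r) ∧ ε ≤ c1 / 2 ∧ ε ≤ c2 / 2 ∧ ε + 8 * r * ε ≤ ρ := by
    refine ⟨min (min (min d1 d2) (1 / (64 * r))) (min (min (c1 / 2) (c2 / 2))
      (ρ / (1 + 8 * r))), ?_, ?_, ?_, ?_, ?_, ?_, ?_⟩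
    · positivity
    · exact (min_le_left _ _).trans ((min_le_left _ _).trans (min_le_left _ _))
    · exact (min_le_left _ _).trans ((min_le_left _ _).trans (min_le_right _ _))
    · exact (min_le_left _ _).trans (min_le_right _ _)
    · exact (min_le_right _ _).trans ((min_le_left _ _).trans (min_le_left _ _))
    · exact (min_le_right _ _).trans ((min_le_left _ _).trans (min_le_right _ _))
    · set ε := min (min (min d1 d2) (1 / (64 * (r : ℝ)))) (min (min (c1 / 2) (c2 / 2))
        (ρ / (1 + 8 * r))) with hεd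
      have h : ε ≤ ρ / (1 + 8 * r) := (min_le_right _ _).trans (min_le_right _ _)
      rw [le_div_iff₀ (by positivity)] at h
      linarith
  refine ⟨ε, hε, ?_⟩
  intro V _ G y f₀ hfree hy0 hy1 hf hcw hcwn hmiss
  have hrinv : 1 / (64 * (r : ℝ)) = (1 / r) / 64 := by field_simp
  have hrinv8 : 1 / (8 * (r : ℝ)) = (1 / r) / 8 := by field_simp
  have hrinv2 : 1 / (2 * (r : ℝ)) = (1 / r) / 2 := by field_simp
  have hrinv16 : 1 / (16 * (r : ℝ)) = (1 / r) / 16 := by field_simp
  have hinv : 0 < 1 / (r : ℝ) := by positivity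
  -- weights
  set mu : Fin r → V → ℝ := fun s w => ∑ i, if f₀ i = some s ∧ ¬ G.Adj w i then y i else 0 with hmu
  set nu : Fin r → V → ℝ := fun s w => ∑ i, if f₀ i = some s ∧ G.Adj w i then y i else 0 with hnu
  have hsum : ∀ s w, mu s w + nu s w = cw y f₀ (some s) := by
    intro s w
    simp only [hmu, hnu, cw]
    rw [← Finset.sum_add_distrib]
    refine Finset.sum_congr rfl fun i _ => ?_
    by_cases h1 : f₀ i = some s <;> by_cases h2 : G.Adj w i <;> simp [h1, h2]
  have hcw' : ∀ s, 1 / (r : ℝ) - ε ≤ cw y f₀ (some s) := fun s => by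
    have := (abs_le.1 (hcw s)).1
    linarith
  -- (A)
  have hAA : ∀ w, ∃ t, nu t w < 1 / (64 * r) := by
    intro w
    by_contra hcon
    push Not at hcon
    obtain ⟨e, he1, he2, he3⟩ := COR.blow BU1 G y f₀ hy0 hy1 hd1.le
      (fun i hi => (hf i hi).trans e1)
      (fun t => Finset.univ.filter fun i => f₀ i = some t ∧ G.Adj w i)
      (fun t i hi => (Finset.mem_filter.1 hi).2.1) (by
        have h1 : c1 ≤ ∏ t, (∑ i ∈ Finset.univ.filter (fun i => f₀ i = some t ∧ G.Adj w i),
            y i) := by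
          rw [hc1]
          calc (1 / (64 * (r : ℝ))) ^ r = ∏ _t : Fin r, 1 / (64 * (r : ℝ)) := by
                rw [Finset.prod_const, Finset.card_univ, Fintype.card_fin]
            _ ≤ _ := by
                refine Finset.prod_le_prod (fun t _ => by positivity) fun t _ => ?_
                rw [Finset.sum_filter]
                exact hcon t
        linarith)
    refine hE1 W F r hcrit V G w e he1 he2 (fun t i => ?_) hfree
    exact (Finset.mem_filter.1 (he3 t i)).2.2
  -- the new partition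
  set C : Fin r → V → Prop := fun t w => ∀ s, s ≠ t → mu s w ≤ 1 / (8 * r) with hC
  set f : V → Option (Fin r) := fun w => if h : ∃ t, C t w then some h.choose else none with hfdef
  have hf1 : ∀ w t, f w = some t → C t w := by
    intro w t hw
    simp only [hfdef] at hw
    split_ifs at hw with h
    rw [← Option.some.inj hw]
    exact h.choose_spec
  have hf2 : ∀ w, f w = none → ∀ t, ¬ C t w := by
    intro w hw t ht
    simp only [hfdef] at hw
    rw [dif_pos ⟨t, ht⟩] at hw
    exact absurd hw (by simp)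
  have hnotC : ∀ w t, ¬ C t w → ∃ s, s ≠ t ∧ 1 / (8 * r) < mu s w := by
    intro w t h
    simp only [hC] at h
    push Not at h
    exact h
  refine ⟨f, ?_, ?_, ?_⟩
  · -- independence
    intro v w hv hvw hadj
    obtain ⟨t, ht⟩ := Option.ne_none_iff_exists'.1 hv
    have hvC := hf1 v t ht
    have hwC := hf1 w t (hvw ▸ ht)
    set A : Fin r → Finset V := fun s => if s = t then
      Finset.univ.filter (fun i => f₀ i = some t ∧ i ≠ v ∧ i ≠ w) else
      Finset.univ.filter (fun i => f₀ i = some s ∧ G.Adj v i ∧ G.Adj w i) with hAdef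
    have hA : ∀ s, ∀ i ∈ A s, f₀ i = some s := by
      intro s i hi
      simp only [hAdef] at hi
      split_ifs at hi with h
      · rw [h]
        exact (Finset.mem_filter.1 hi).2.1
      · exact (Finset.mem_filter.1 hi).2.1
    have hAw : ∀ s, 1 / (2 * (r : ℝ)) ≤ ∑ i ∈ A s, y i := by
      intro s
      simp only [hAdef]
      split_ifs with h
      · rw [Finset.sum_filter]
        have h1 : cw y f₀ (some t) ≤ (∑ i, if f₀ i = some t ∧ i ≠ v ∧ i ≠ w then y i else 0) +
            (∑ i, if i = v then ε else 0) + ∑ i, if i = w then ε else 0 := by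
          unfold cw
          rw [← Finset.sum_add_distrib, ← Finset.sum_add_distrib]
          refine Finset.sum_le_sum fun i _ => ?_
          have a1 : 0 ≤ (if i = v then ε else 0) := by split_ifs <;> linarith
          have a2 : 0 ≤ (if i = w then ε else 0) := by split_ifs <;> linarith
          have a3 : 0 ≤ (if f₀ i = some t ∧ i ≠ v ∧ i ≠ w then y i else 0) := by
            by_cases h : f₀ i = some t ∧ i ≠ v ∧ i ≠ w
            · rw [if_pos h]
              exact hy0 i
            · rw [if_neg h]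
          by_cases h1 : f₀ i = some t
          · rw [if_pos h1]
            have hyi : y i ≤ ε := hf i (by rw [h1]; simp)
            by_cases h2 : i = v
            · have h4 : (if i = v then ε else 0) = ε := if_pos h2
              linarith
            · by_cases h3 : i = w
              · have h4 : (if i = w then ε else 0) = ε := if_pos h3
                linarith
              · rw [if_pos ⟨h1, h2, h3⟩]
                linarith
          · rw [if_neg h1]
            linarith
        rw [Finset.sum_ite_eq' Finset.univ v, Finset.sum_ite_eq' Finset.univ w] at h1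
        simp only [Finset.mem_univ, if_true] at h1
        have := hcw' t
        linarith
      · rw [Finset.sum_filter]
        have h1 : cw y f₀ (some s) ≤
            (∑ i, if f₀ i = some s ∧ G.Adj v i ∧ G.Adj w i then y i else 0) + mu s v + mu s w := by
          simp only [cw, hmu]
          rw [← Finset.sum_add_distrib, ← Finset.sum_add_distrib]
          refine Finset.sum_le_sum fun i _ => ?_
          have := hy0 i
          by_cases h1 : f₀ i = some s <;> by_cases h2 : G.Adj v i <;> by_cases h3 : G.Adj w i <;>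
            simp [h1, h2, h3] <;> linarith
        have a1 := hvC s h
        have a2 := hwC s h
        have := hcw' s
        linarith
    obtain ⟨e, he1, he2, he3⟩ := COR.blow BU2 G y f₀ hy0 hy1 hd2.le
      (fun i hi => (hf i hi).trans e2) A hA (by
        have h1 : c2 ≤ ∏ t, (∑ i ∈ A t, y i) := by
          rw [hc2]
          calc (1 / (2 * (r : ℝ))) ^ r = ∏ _t : Fin r, 1 / (2 * (r : ℝ)) := by
                rw [Finset.prod_const, Finset.card_univ, Fintype.card_fin]
            _ ≤ _ := Finset.prod_le_prod (fun t _ => by positivity) fun t _ => hAw t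
        linarith)
    refine hE2 W F r hcrit V G v w t e he1 he2 hadj (fun s i hs => ?_) (fun i => ?_) hfree
    · have h := he3 s i
      simp only [hAdef, if_neg hs] at h
      exact (Finset.mem_filter.1 h).2.2
    · have h := he3 t i
      simp only [hAdef, if_true] at h
      exact (Finset.mem_filter.1 h).2.2
  · -- weight of the vertices outside
    have h1 : cw y f none ≤ cw y f₀ none + 8 * r * miss G y f₀ := by
      unfold cw miss
      rw [Finset.mul_sum, ← Finset.sum_add_distrib]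
      refine Finset.sum_le_sum fun w _ => ?_
      have hnn : ∀ j, 0 ≤ (if f₀ w ≠ none ∧ f₀ j ≠ none ∧ f₀ w ≠ f₀ j ∧ ¬ G.Adj w j
          then y w * y j else 0) := by
        intro j
        split_ifs
        · exact mul_nonneg (hy0 w) (hy0 j)
        · exact le_rfl
      have hnn' : 0 ≤ 8 * r * ∑ j, (if f₀ w ≠ none ∧ f₀ j ≠ none ∧ f₀ w ≠ f₀ j ∧ ¬ G.Adj w j
          then y w * y j else 0) :=
        mul_nonneg (by positivity) (Finset.sum_nonneg fun j _ => hnn j)
      by_cases hw : f w = none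
      · rw [if_pos hw]
        by_cases hw0 : f₀ w = none
        · rw [if_pos hw0]
          linarith
        · rw [if_neg hw0, zero_add]
          obtain ⟨t, ht⟩ := Option.ne_none_iff_exists'.1 hw0
          obtain ⟨s, hst, hs⟩ := hnotC w t (hf2 w hw t)
          have h2 : y w * mu s w ≤ ∑ j, (if f₀ w ≠ none ∧ f₀ j ≠ none ∧ f₀ w ≠ f₀ j ∧
              ¬ G.Adj w j then y w * y j else 0) := by
            simp only [hmu]
            rw [Finset.mul_sum]
            refine Finset.sum_le_sum fun j _ => ?_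
            by_cases h3 : f₀ j = some s ∧ ¬ G.Adj w j
            · rw [if_pos h3, if_pos]
              refine ⟨hw0, by rw [h3.1]; simp, ?_, h3.2⟩
              rw [ht, h3.1]
              intro h4
              exact hst (Option.some.inj h4).symm
            · rw [if_neg h3, mul_zero]
              exact hnn j
          have h3 : y w * (1 / (8 * r)) ≤ y w * mu s w :=
            mul_le_mul_of_nonneg_left hs.le (hy0 w)
          have h4 : 8 * r * (y w * (1 / (8 * (r : ℝ)))) = y w := by field_simp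
          calc y w = 8 * r * (y w * (1 / (8 * (r : ℝ)))) := h4.symm
            _ ≤ _ := mul_le_mul_of_nonneg_left (h3.trans h2) (by positivity)
      · rw [if_neg hw]
        have : 0 ≤ (if f₀ w = none then y w else 0) := by
          split_ifs
          · exact hy0 w
          · exact le_rfl
        linarith
    have h2 : 8 * r * miss G y f₀ ≤ 8 * r * ε := mul_le_mul_of_nonneg_left hmiss (by positivity)
    linarith
  · -- neighbourhoods of the vertices outside
    intro w hw
    obtain ⟨t, ht⟩ := hAA w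
    obtain ⟨s, hst, hs⟩ := hnotC w t (hf2 w hw t)
    have h1 : nb G y w + mu t w + mu s w ≤ 1 := by
      rw [← hy1]
      simp only [nb, hmu]
      rw [← Finset.sum_add_distrib, ← Finset.sum_add_distrib]
      refine Finset.sum_le_sum fun j _ => ?_
      have hyj := hy0 j
      unfold adj
      by_cases h1 : G.Adj w j
      · simp [h1]
      · by_cases h2 : f₀ j = some t
        · have h3 : f₀ j ≠ some s := by
            rw [h2]
            intro h
            exact hst (Option.some.inj h).symm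
          rw [if_neg h1, if_pos ⟨h2, h1⟩, if_neg (fun h => h3 h.1)]
          linarith
        · rw [if_neg h1, if_neg (fun h => h2 h.1)]
          by_cases h3 : f₀ j = some s
          · rw [if_pos ⟨h3, h1⟩]
            linarith
          · rw [if_neg (fun h => h3 h.1)]
            linarith
    have h2 := hsum t w
    have h3 := hcw' t
    linarith

end MP0c3a8f

end

section

open Finset

namespace MP0c3a8f

theorem prfCRT : CRT_statement := by
  intro W _ F r hχ hc
  have h1 : F.Colorable (r + 1) := by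
    rw [← SimpleGraph.chromaticNumber_le_iff_colorable, hχ]
    push_cast
    rfl
  have h2 : ¬ F.Colorable r := by
    intro h
    rw [← SimpleGraph.chromaticNumber_le_iff_colorable, hχ] at h
    have : r + 1 ≤ r := by exact_mod_cast h
    omega
  refine ⟨?_, h2, h1⟩
  obtain ⟨e, he, hlt⟩ := hc
  rw [hχ] at hlt
  have h3 : (F.deleteEdges {e}).Colorable r := by
    rw [← SimpleGraph.chromaticNumber_le_iff_colorable]
    exact Order.le_of_lt_add_one hlt
  obtain ⟨c⟩ := h3
  induction e using Sym2.ind with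
  | _ a b =>
    refine ⟨a, b, he, c, ?_, ?_⟩
    · by_contra hne
      apply h2
      refine ⟨SimpleGraph.Coloring.mk c ?_⟩
      intro u v huv
      by_cases h : s(u, v) = s(a, b)
      · rw [Sym2.eq_iff] at h
        rcases h with ⟨rfl, rfl⟩ | ⟨rfl, rfl⟩
        · exact hne
        · exact fun h => hne h.symm
      · apply c.valid
        rw [SimpleGraph.deleteEdges_adj]
        exact ⟨huv, by simpa using h⟩
    · intro u v huv h
      apply c.valid
      rw [SimpleGraph.deleteEdges_adj]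
      exact ⟨huv, by simpa using h⟩

theorem prfKCC : KCC_statement := by
  intro r hr
  have h1 : (⊤ : SimpleGraph (Fin (r + 1))).chromaticNumber = r + 1 := by
    rw [SimpleGraph.chromaticNumber_top]
    simp
  refine ⟨h1, s(0, 1), ?_, ?_⟩
  · rw [SimpleGraph.mem_edgeSet, SimpleGraph.top_adj]
    intro h
    have := congrArg Fin.val h
    simp at this
    omega
  · rw [h1]
    have h2 : ((⊤ : SimpleGraph (Fin (r + 1))).deleteEdges {s(0, 1)}).Colorable r := by
      refine ⟨SimpleGraph.Coloring.mk (fun i => ⟨i.val - 1, by have := i.isLt; omega⟩) ?_⟩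
      intro u v huv h
      rw [SimpleGraph.deleteEdges_adj] at huv
      obtain ⟨h3, h4⟩ := huv
      rw [SimpleGraph.top_adj] at h3
      have h5 : u.val - 1 = v.val - 1 := by simpa using h
      have h6 : u.val ≠ v.val := fun h => h3 (Fin.ext h)
      apply h4
      simp only [Set.mem_singleton_iff, Sym2.eq_iff]
      have h01 : ((1 : Fin (r + 1)).val) = 1 := by
        rw [Fin.val_one']
        exact Nat.mod_eq_of_lt (by omega)
      by_cases h7 : u.val = 0
      · left
        exact ⟨Fin.ext (by simpa using h7), Fin.ext (by rw [h01]; omega)⟩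
      · right
        exact ⟨Fin.ext (by rw [h01]; omega), Fin.ext (by show v.val = 0; omega)⟩
    calc ((⊤ : SimpleGraph (Fin (r + 1))).deleteEdges {s(0, 1)}).chromaticNumber ≤ (r : ℕ∞) :=
          SimpleGraph.chromaticNumber_le_iff_colorable.mpr h2
      _ < (r : ℕ∞) + 1 := by exact_mod_cast Nat.lt_succ_self r

end MP0c3a8f

end

section

/-!
# EDG and ISO
-/

open Finset

namespace MP0c3a8f

theorem EDG.main : EDG_statement := by
  classical
  intro V _ G
  have h1 : ∀ i, ∑ j, adj G i j = (G.degree i : ℝ) := by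
    intro i
    have h2 : ∀ j, adj G i j = if j ∈ G.neighborFinset i then (1 : ℝ) else 0 := by
      intro j
      unfold adj
      by_cases h : G.Adj i j
      · simp [h]
      · simp [h]
    rw [Finset.sum_congr rfl fun j _ => h2 j, Finset.sum_ite_mem, Finset.univ_inter,
      Finset.sum_const, nsmul_eq_mul, mul_one, SimpleGraph.card_neighborFinset_eq_degree]
  rw [Finset.sum_congr rfl fun i _ => h1 i]
  have h3 := G.sum_degrees_eq_twice_card_edges
  have h4 : G.edgeSet.ncard = G.edgeFinset.card := by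
    rw [Set.ncard_eq_toFinset_card']
    rfl
  rw [h4]
  exact_mod_cast h3

theorem ISO.adj_eq {V U : Type} {G : SimpleGraph V} {H : SimpleGraph U} (φ : G ≃g H) (i j : V) :
    adj G i j = adj H (φ i) (φ j) := by
  unfold adj
  by_cases h : G.Adj i j
  · rw [if_pos h, if_pos (φ.map_adj_iff.2 h)]
  · rw [if_neg h, if_neg fun h' => h (φ.map_adj_iff.1 h')]

theorem ISO.sub {V U : Type} [Fintype V] [Fintype U] {G : SimpleGraph V} {H : SimpleGraph U}
    (φ : G ≃g H) (μ : ℝ) (h : ∃ x : V → ℝ, x ≠ 0 ∧ ∀ i, ∑ j, adj G i j * x j = μ * x i) :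
    ∃ x : U → ℝ, x ≠ 0 ∧ ∀ i, ∑ j, adj H i j * x j = μ * x i := by
  obtain ⟨x, hx, h⟩ := h
  refine ⟨fun u => x (φ.symm u), ?_, fun i => ?_⟩
  · intro h0
    apply hx
    funext v
    have := congrFun h0 (φ v)
    simpa using this
  · have h1 := h (φ.symm i)
    rw [← h1]
    refine (Fintype.sum_equiv φ.toEquiv _ _ fun j => ?_).symm
    rw [ISO.adj_eq φ]
    simp

theorem ISO.main : ISO_statement := by
  intro V U _ _ G H ⟨φ⟩
  unfold lam
  congr 1
  ext μ
  exact ⟨ISO.sub φ μ, ISO.sub φ.symm μ⟩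

theorem prfEDG : EDG_statement ∧ ISO_statement := ⟨EDG.main, ISO.main⟩

end MP0c3a8f

end
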