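import Pool.Agent.Work.MP_0c3a8f_co.Ext.Stmts
import Pool.Agent.Work.MP_0c3a8f_co.PB.Stmts
import Pool.Agent.Work.MP_0c3a8f_co.Bd.B03
import Pool.Agent.Work.MP_0c3a8f_co.PB.Stmts2

/-! Bundle of small proof modules (one section per former module). -/

section

open Finset

namespace MP0c3a8f

namespace WIN

/-- reference types for all differences -/
theorem ref (hRem : REM_statement) (hNon : NON2_statement) {W : Type} [Fintype W]
    (F : SimpleGraph W) (r : ℕ) (hr : 3 ≤ r) (hncol : ¬ F.Colorable r) (J : ℕ) :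
    ∃ M : ℕ, ∀ j : ℤ, |j| ≤ J → ∃ a b : ℕ, Real r F a b ∧ (b : ℤ) - a = j ∧ a + b ≤ M := by
  obtain ⟨b, hb, hR⟩ := hNon W F r hr hncol J
  have hall : ∀ a : ℕ, Real r F a b := by
    intro a
    induction a with
    | zero => exact hR
    | succ a ih => exact hRem W F r a b hr ih
  refine ⟨b + b + J, ?_⟩
  intro j hj
  rw [abs_le] at hj
  have h1 : 0 ≤ (b : ℤ) - j := by
    have : (J : ℤ) ≤ b := by exact_mod_cast hb
    linarith [hj.2]
  obtain ⟨a, ha⟩ := Int.eq_ofNat_of_zero_le h1
  refine ⟨a, b, hall a, by omega, ?_⟩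
  omega

/-- realisation of a type -/
theorem real (hReds : REDS_statement) (hCnt : CNTS_statement) {W : Type} [Fintype W]
    (F : SimpleGraph W) (r : ℕ) (hr : 3 ≤ r) (σ : Fin r → ℕ) (a b m : ℕ) (hR : Real r F a b)
    (hσ : ∀ t, 2 * (a + b) + 1 ≤ σ t) (hm : Sz σ a b m) :
    ∃ (k : ℕ) (G : SimpleGraph (Fin k)) (f : Fin k → Option (Fin r)), IsModS σ a b G f ∧
      InN r m F G := by
  obtain ⟨s, hs, k, G, f, h1, h2, h3, h4⟩ := hR (∑ t, σ t)
  obtain ⟨k', H, f', h5, h6, h7, h8⟩ := hReds W F r σ (Fin k) G f hr h1.indep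
    (by intro t; rw [h1.miss, h1.outer]; exact hσ t)
    (by
      intro t
      rw [h1.size]
      exact le_trans (Finset.single_le_sum (f := σ) (fun _ _ => Nat.zero_le _)
        (Finset.mem_univ t)) hs) h2 h3 h4
  rw [h1.miss, h1.outer] at h5
  refine ⟨k', H, f', h5, h6, ?_, h8, h7⟩
  have h9 := hCnt r σ a b (Fin k') H f' h5
  unfold Sz at h9 hm
  omega

theorem size_eq (hDev : DEV_statement) {r : ℕ} (hr : 3 ≤ r) {σ : Fin r → ℕ} {a b m : ℕ}
    (h : Sz σ a b m) : 2 * (m : ℝ) = (1 - 1 / (r : ℝ)) * ((∑ t, σ t : ℕ) : ℝ) ^ 2 - dev σ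
      + 2 * ((b : ℝ) - a) := by
  have h1 := (hDev r (∑ t, σ t) σ (by omega) rfl).2.2.2.1
  unfold Sz at h
  have h2 : (2 * (m : ℝ) + 2 * a + ∑ t, (σ t : ℝ) ^ 2) = ((∑ t, σ t : ℕ) : ℝ) ^ 2 + 2 * b := by
    exact_mod_cast h
  rw [h1]
  ring_nf
  ring_nf at h2
  linarith

theorem phi_int (hDev : DEV_statement) {r : ℕ} (hr : 3 ≤ r) (n : ℕ) (σ : Fin r → ℕ)
    (hn : ∑ t, σ t = n) (a b : ℕ) :
    ∃ z : ℤ, (r : ℝ) ^ 2 * Phi σ a b = z := by
  have h1 := (hDev r n σ (by omega) hn).2.2.2.1
  refine ⟨2 * r ^ 2 * (a + b) + (r - 2) * (r * ∑ t, (σ t : ℤ) ^ 2 - n ^ 2), ?_⟩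
  have hr0 : (r : ℝ) ≠ 0 := by
    have : 0 < r := by omega
    positivity
  unfold Phi
  rw [h1]
  push_cast
  field_simp

theorem dev_nonneg {r : ℕ} (σ : Fin r → ℕ) : 0 ≤ dev σ :=
  Finset.sum_nonneg fun _ _ => sq_nonneg _

theorem ar1 {β n m m₁ J₀ : ℝ} (hβ : 2 / 3 ≤ β) (hn : 60 ≤ n) (h0 : 0 ≤ m₁) (h1 : 0 ≤ J₀)
    (h : 3 * m₁ + 6 * J₀ ≤ n) (h2 : -J₀ ≤ 2 * m - β * n ^ 2) : m₁ ≤ m := by
  have h3 : 2 / 3 * n ^ 2 ≤ β * n ^ 2 := mul_le_mul_of_nonneg_right hβ (by positivity)
  have h4 : n * n ≥ n * (3 * m₁ + 6 * J₀) := mul_le_mul_of_nonneg_left h (by linarith)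
  have h5 : n * (3 * m₁ + 6 * J₀) ≥ 1 * (3 * m₁ + 6 * J₀) :=
    mul_le_mul_of_nonneg_right (by linarith) (by linarith)
  nlinarith

theorem ar2 {β n n' J₀ P : ℝ} (hβ : 2 / 3 ≤ β) (hn : 60 ≤ n) (hn' : 0 ≤ n')
    (h1 : |β * (n' ^ 2 - n ^ 2)| ≤ J₀ + 5 * P) (h2 : J₀ + 5 * P < 2 / 3 * n)
    (h : n' + 1 ≤ n ∨ n + 1 ≤ n') : False := by
  rw [abs_le] at h1
  rcases h with h | h
  · have h4 : n' ^ 2 - n ^ 2 ≤ -n := by nlinarith
    have h5 : β * (n' ^ 2 - n ^ 2) ≤ β * (-n) := mul_le_mul_of_nonneg_left h4 (by linarith)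
    have h6 : 2 / 3 * n ≤ β * n := mul_le_mul_of_nonneg_right hβ (by linarith)
    linarith [h1.1]
  · have h4 : n ≤ n' ^ 2 - n ^ 2 := by nlinarith
    have h5 : β * n ≤ β * (n' ^ 2 - n ^ 2) := mul_le_mul_of_nonneg_left h4 (by linarith)
    have h6 : 2 / 3 * n ≤ β * n := mul_le_mul_of_nonneg_right hβ (by linarith)
    linarith [h1.2]

theorem phi_nonneg {r : ℕ} (hr : 3 ≤ r) (σ : Fin r → ℕ) (a b : ℕ) : 0 ≤ Phi σ a b := by
  have hr0 : (3 : ℝ) ≤ r := by exact_mod_cast hr
  have h1 : 2 / (r : ℝ) ≤ 2 / 3 := by gcongr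
  have h2 : 0 ≤ (1 - 2 / (r : ℝ)) * dev σ := mul_nonneg (by linarith) (dev_nonneg σ)
  unfold Phi
  positivity

theorem phi_bounds {r : ℕ} (hr : 3 ≤ r) (σ : Fin r → ℕ) (a b : ℕ) {P : ℝ}
    (h : Phi σ a b ≤ P) : (a : ℝ) + b ≤ P ∧ dev σ ≤ 3 * P := by
  have hr0 : (3 : ℝ) ≤ r := by exact_mod_cast hr
  have h1 : 2 / (r : ℝ) ≤ 2 / 3 := by gcongr
  have h0 := dev_nonneg σ
  have h2 : 1 / 3 * dev σ ≤ (1 - 2 / (r : ℝ)) * dev σ :=
    mul_le_mul_of_nonneg_right (by linarith) h0
  have h3 : (0 : ℝ) ≤ (a : ℝ) + b := by positivity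
  unfold Phi at h
  constructor <;> linarith

theorem phi_upper {r : ℕ} (σ : Fin r → ℕ) (a b : ℕ) {M : ℝ}
    (h : (a : ℝ) + b ≤ M) (hd : dev σ ≤ r) : Phi σ a b ≤ 2 * M + r := by
  have h0 := dev_nonneg σ
  have h1 : 0 ≤ 2 / (r : ℝ) := by positivity
  have h2 : (1 - 2 / (r : ℝ)) * dev σ ≤ 1 * dev σ :=
    mul_le_mul_of_nonneg_right (by linarith) h0
  unfold Phi
  linarith

theorem size_lower {r : ℕ} (n : ℕ) (σ : Fin r → ℕ) (hn : ∑ t, σ t = n) (P : ℝ)
    (hP : dev σ ≤ P) (t : Fin r) : (n : ℝ) / r - P - 1 ≤ σ t := by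
  have h1 : ((σ t : ℝ) - (∑ s, (σ s : ℝ)) / r) ^ 2 ≤ dev σ :=
    Finset.single_le_sum (f := fun t => ((σ t : ℝ) - (∑ s, (σ s : ℝ)) / r) ^ 2)
      (fun _ _ => sq_nonneg _) (Finset.mem_univ t)
  have h2 : (∑ s, (σ s : ℝ)) = n := by exact_mod_cast hn
  rw [h2] at h1
  nlinarith [sq_nonneg ((σ t : ℝ) - (n : ℝ) / r + 1), sq_nonneg ((σ t : ℝ) - (n : ℝ) / r - 1)]

end WIN

theorem prfWIN (hStrf : STRF_statement) (hLows : LOWS_statement) (hReds : REDS_statement)
    (hCnt : CNTS_statement) (hRem : REM_statement) (hNon : NON2_statement)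
    (hMax : MAXE_statement) (hP : P_statement) (hDev : DEV_statement) : WIN_statement := by
  intro W _ F r hr hcrit hcol hncol J ε hε
  have hr0 : (3 : ℝ) ≤ r := by exact_mod_cast hr
  have hβ : (2 : ℝ) / 3 ≤ 1 - 1 / (r : ℝ) := by
    have : 1 / (r : ℝ) ≤ 1 / 3 := one_div_le_one_div_of_le (by norm_num) hr0
    linarith
  have hβ1 : 1 - 1 / (r : ℝ) ≤ 1 := by
    have : 0 < 1 / (r : ℝ) := by positivity
    linarith
  have hγ : (1 : ℝ) / 3 ≤ 1 - 2 / (r : ℝ) := by
    have : 2 / (r : ℝ) ≤ 2 / 3 := by gcongr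
    linarith
  have hγ1 : 1 - 2 / (r : ℝ) ≤ 1 := by
    have : 0 < 2 / (r : ℝ) := by positivity
    linarith
  set β : ℝ := 1 - 1 / (r : ℝ) with hβdef
  set ε' : ℝ := min (min ε 1) (1 / (4 * (r : ℝ) ^ 2)) with hε'
  have hε'0 : 0 < ε' := lt_min (lt_min hε one_pos) (by positivity)
  have hε'1 : ε' ≤ ε := le_trans (min_le_left _ _) (min_le_left _ _)
  have hε'2 : ε' ≤ 1 := le_trans (min_le_left _ _) (min_le_right _ _)
  have hε'3 : ε' ≤ 1 / (4 * (r : ℝ) ^ 2) := min_le_right _ _
  set J₀ : ℕ := ⌈|J|⌉₊ + r with hJ₀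
  have hJ₀' : |J| + r ≤ J₀ := by
    rw [hJ₀]
    push_cast
    linarith [Nat.le_ceil |J|]
  obtain ⟨M, hM⟩ := WIN.ref hRem hNon F r hr hncol J₀
  set C : ℝ := 2 * M + r + 1 with hC
  set P : ℝ := 3 / 2 * (C + 1) with hPd
  have hP0 : 0 ≤ P := by positivity
  obtain ⟨n₁, hn₁⟩ := hLows r M r ε' hr hε'0
  obtain ⟨n₂, hn₂⟩ := hLows r ⌈P⌉₊ (3 * P) ε' hr hε'0
  obtain ⟨m₁, hm₁⟩ := hStrf W F r hr hcrit hcol C ε' 1 hε'0
  set K : ℕ := ⌈P⌉₊ with hK
  have hKP : P ≤ K := Nat.le_ceil P
  refine ⟨n₁ + n₂ + 3 * m₁ + r * (2 * M + 1) + 6 * J₀ + 20 * K * r + 20 * r, ?_⟩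
  intro n hn m hm
  have hnJ : |2 * (m : ℝ) - β * (n : ℝ) ^ 2| ≤ |J| := hm.trans (le_abs_self J)
  have hn' : ((n₁ : ℝ) + n₂ + 3 * m₁ + r * (2 * M + 1) + 6 * J₀ + 20 * K * r + 20 * r) ≤ n := by
    exact_mod_cast hn
  have hK0 : (0 : ℝ) ≤ K := Nat.cast_nonneg _
  have hKr : (0 : ℝ) ≤ K * r := by positivity
  have hn₁0 : (0 : ℝ) ≤ n₁ := Nat.cast_nonneg _
  have hn₂0 : (0 : ℝ) ≤ n₂ := Nat.cast_nonneg _
  have hm₁0 : (0 : ℝ) ≤ m₁ := Nat.cast_nonneg _
  have hM0 : (0 : ℝ) ≤ M := Nat.cast_nonneg _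
  have hrM : (0 : ℝ) ≤ r * (2 * M + 1) := by positivity
  have hJ₀0 : (0 : ℝ) ≤ J₀ := Nat.cast_nonneg _
  have hJabs : |J| ≤ J₀ := by linarith
  have hn60 : (60 : ℝ) ≤ n := by linarith
  rw [abs_le] at hnJ
  have hmm : m₁ ≤ m := by
    have h1 : (m₁ : ℝ) ≤ m := by
      exact WIN.ar1 hβ hn60 hm₁0 hJ₀0 (by linarith) (by linarith [hnJ.1])
    exact_mod_cast h1
  -- facts on the Turán sizes
  obtain ⟨hsum, hmin, hdev, -, -, -⟩ := hDev r n (tz r n) (by omega) (hDev r n
    (fun t => if t.val = 0 then n else 0) (by omega) (by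
      rw [Finset.sum_eq_single (⟨0, by omega⟩ : Fin r)]
      · simp
      · intro b _ hb
        rw [if_neg]
        intro h
        exact hb (Fin.ext h)
      · intro h
        exact absurd (Finset.mem_univ _) h)).1
  have hdev2 : dev (tz r n) = ∑ t, (tz r n t : ℝ) ^ 2 - (n : ℝ) ^ 2 / r :=
    (hDev r n (tz r n) (by omega) hsum).2.2.2.1
  -- the reference type
  obtain ⟨j, hj⟩ : ∃ j : ℤ, 2 * (m : ℤ) + ∑ t, (tz r n t : ℤ) ^ 2 = (n : ℤ) ^ 2 + 2 * j := by
    have hpar : Even (2 * (m : ℤ) + ∑ t, (tz r n t : ℤ) ^ 2 - (n : ℤ) ^ 2) := by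
      have h1 : Even (∑ t, (tz r n t : ℤ) ^ 2 - (n : ℤ) ^ 2) := by
        have h2 : (n : ℤ) = ∑ t, (tz r n t : ℤ) := by exact_mod_cast hsum.symm
        have h3 : Even (∑ t, ((tz r n t : ℤ) ^ 2 - (tz r n t : ℤ))) := by
          apply Finset.even_sum
          intro t _
          have := Int.even_mul_succ_self ((tz r n t : ℤ) - 1)
          have h4 : ((tz r n t : ℤ) - 1) * ((tz r n t : ℤ) - 1 + 1)
            = (tz r n t : ℤ) ^ 2 - (tz r n t : ℤ) := by ring
          rwa [h4] at this
        rw [Finset.sum_sub_distrib, ← h2] at h3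
        have h5 : Even ((n : ℤ) ^ 2 - n) := by
          have := Int.even_mul_succ_self ((n : ℤ) - 1)
          have h4 : ((n : ℤ) - 1) * ((n : ℤ) - 1 + 1) = (n : ℤ) ^ 2 - n := by ring
          rwa [h4] at this
        have h6 := h3.sub h5
        have h7 : ∑ t, (tz r n t : ℤ) ^ 2 - n - ((n : ℤ) ^ 2 - n)
            = ∑ t, (tz r n t : ℤ) ^ 2 - (n : ℤ) ^ 2 := by ring
        rwa [h7] at h6
      have h8 : 2 * (m : ℤ) + ∑ t, (tz r n t : ℤ) ^ 2 - (n : ℤ) ^ 2
          = 2 * (m : ℤ) + (∑ t, (tz r n t : ℤ) ^ 2 - (n : ℤ) ^ 2) := by ring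
      rw [h8]
      exact (even_two_mul _).add h1
    obtain ⟨j, hj⟩ := hpar
    exact ⟨j, by linarith⟩
  have hjR : 2 * (m : ℝ) + ∑ t, (tz r n t : ℝ) ^ 2 = (n : ℝ) ^ 2 + 2 * j := by exact_mod_cast hj
  have hdev0 := WIN.dev_nonneg (tz r n)
  have hj2 : 2 * (j : ℝ) = 2 * m - β * (n : ℝ) ^ 2 + dev (tz r n) := by
    rw [hdev2, hβdef]
    ring_nf
    ring_nf at hjR
    linarith
  have hjabs : |j| ≤ J₀ := by
    have h1 : |(j : ℝ)| ≤ J₀ := by
      rw [abs_le]
      constructor <;> linarith [hnJ.1, hnJ.2]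
    exact_mod_cast h1
  obtain ⟨a₀, b₀, hR₀, hab₀, hM₀⟩ := hM j hjabs
  have hSz₀ : Sz (tz r n) a₀ b₀ m := by
    unfold Sz
    rw [hsum]
    have h1 : (2 * (m : ℤ) + 2 * a₀ + ∑ t, (tz r n t : ℤ) ^ 2) = (n : ℤ) ^ 2 + 2 * b₀ := by
      linarith
    exact_mod_cast h1
  have htz : ∀ t, 2 * (a₀ + b₀) + 1 ≤ tz r n t := by
    intro t
    have h1 : r * (2 * M + 1) ≤ n := by omega
    have h2 : 2 * M + 1 ≤ n / r := by
      rw [Nat.le_div_iff_mul_le (by omega)]
      linarith
    unfold tz
    omega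
  obtain ⟨k₀, G₀, f₀, hG₀, hN₀⟩ := WIN.real hReds hCnt F r hr (tz r n) a₀ b₀ m hR₀ htz hSz₀
  have hMR : ((a₀ : ℝ) + b₀) ≤ M := by exact_mod_cast hM₀
  have hPhi₀ : β * Phi (tz r n) a₀ b₀ ≤ 2 * M + r := by
    have h1 : Phi (tz r n) a₀ b₀ ≤ 2 * M + r := WIN.phi_upper (tz r n) a₀ b₀ hMR hdev
    have h3 : 0 ≤ Phi (tz r n) a₀ b₀ := WIN.phi_nonneg hr (tz r n) a₀ b₀
    have h4 : β * Phi (tz r n) a₀ b₀ ≤ 1 * Phi (tz r n) a₀ b₀ :=
      mul_le_mul_of_nonneg_right hβ1 h3
    linarith
  have hlow₀ := hn₁ (tz r n) a₀ b₀ (Fin k₀) G₀ f₀ hG₀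
    (by rw [hsum]; omega) hdev (by omega)
  rw [hN₀.size] at hlow₀
  have hlow₀' : 2 * β * m - lam G₀ ^ 2 ≤ C := by linarith
  have hex := hMax W F r m ⟨Fin k₀, inferInstance, G₀, hN₀⟩
  refine ⟨?_, ?_⟩
  · obtain ⟨k, G, h1, h2⟩ := hex
    exact ⟨k, G, h1, h2⟩
  intro V _ G hG
  have hne : ∀ {U : Type} {H : SimpleGraph U}, InN r m F H → Nonempty U := by
    intro U H hH
    by_contra hne
    rw [not_nonempty_iff] at hne
    exact hH.notPartite ⟨SimpleGraph.Coloring.mk (fun v => hne.elim v)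
      (fun {v} => hne.elim v)⟩
  have hle : ∀ {k : ℕ} {H : SimpleGraph (Fin k)}, InN r m F H → lam H ^ 2 ≤ lam G ^ 2 := by
    intro k H hH
    have := hne hH
    exact pow_le_pow_left₀ (hP (Fin k) H).1 (hG.2 (Fin k) H hH) 2
  obtain ⟨σ, a, b, f, hmod, -, hReal, habs⟩ := hm₁ m hmm V G hG.1 (by
    have := hle hN₀
    linarith)
  rw [abs_le] at habs
  have hdσ := WIN.dev_nonneg σ
  have hPhi : Phi σ a b ≤ P := by
    have h1 : β * Phi σ a b ≤ C + 1 := by
      have := hle hN₀
      linarith [habs.1]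
    have h2 : 2 / 3 * Phi σ a b ≤ β * Phi σ a b :=
      mul_le_mul_of_nonneg_right hβ (WIN.phi_nonneg hr σ a b)
    rw [hPd]
    linarith
  obtain ⟨hab, hdev'⟩ := WIN.phi_bounds hr σ a b hPhi
  have hsz := hCnt r σ a b V G f hmod
  rw [hG.1.size] at hsz
  have hszR := WIN.size_eq hDev hr hsz
  have hsumσ : ∑ t, σ t = n := by
    set n' : ℕ := ∑ t, σ t with hn'def
    have h1 : |β * ((n' : ℝ) ^ 2 - (n : ℝ) ^ 2)| ≤ J₀ + 5 * P := by
      rw [abs_le]
      have ha0 : (0 : ℝ) ≤ a := Nat.cast_nonneg _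
      have hb0 : (0 : ℝ) ≤ b := Nat.cast_nonneg _
      have h0 : β * ((n' : ℝ) ^ 2 - (n : ℝ) ^ 2) = β * (n' : ℝ) ^ 2 - β * (n : ℝ) ^ 2 := by ring
      rw [h0]
      constructor <;> linarith [hnJ.1, hnJ.2]
    have h2 : (J₀ : ℝ) + 5 * P < 2 / 3 * n := by
      have h3 : (K : ℝ) * 1 ≤ K * r := mul_le_mul_of_nonneg_left (by linarith) hK0
      linarith
    rcases lt_trichotomy n' n with h | h | h
    · exfalso
      exact WIN.ar2 hβ hn60 (Nat.cast_nonneg n') h1 h2 (Or.inl (by exact_mod_cast h))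
    · exact h
    · exfalso
      exact WIN.ar2 hβ hn60 (Nat.cast_nonneg n') h1 h2 (Or.inr (by exact_mod_cast h))
  refine ⟨σ, a, b, f, hmod, hsumσ, hReal, ?_, ?_⟩
  · intro σ' a' b' hsum' hReal' hSz'
    by_contra hlt
    push Not at hlt
    obtain ⟨z, hz⟩ := WIN.phi_int hDev hr n σ hsumσ a b
    obtain ⟨z', hz'⟩ := WIN.phi_int hDev hr n σ' hsum' a' b'
    have hr2 : (0 : ℝ) < (r : ℝ) ^ 2 := by positivity
    have hzz : z' + 1 ≤ z := by
      have h1 : (z' : ℝ) < z := by
        rw [← hz, ← hz']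
        exact mul_lt_mul_of_pos_left hlt hr2
      exact_mod_cast h1
    have hgap : Phi σ' a' b' + 1 / (r : ℝ) ^ 2 ≤ Phi σ a b := by
      have h1 : (z' : ℝ) + 1 ≤ z := by exact_mod_cast hzz
      rw [← hz, ← hz'] at h1
      have h2 : (r : ℝ) ^ 2 * (Phi σ' a' b' + 1 / (r : ℝ) ^ 2) ≤ (r : ℝ) ^ 2 * Phi σ a b := by
        rw [mul_add, mul_one_div_cancel hr2.ne']
        exact h1
      exact le_of_mul_le_mul_left h2 hr2
    have hdσ' := WIN.dev_nonneg σ'
    have hPhi' : Phi σ' a' b' ≤ P := hlt.le.trans hPhi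
    obtain ⟨hab', hdev''⟩ := WIN.phi_bounds hr σ' a' b' hPhi'
    have hσ' : ∀ t, 2 * (a' + b') + 1 ≤ σ' t := by
      intro t
      have h1 := WIN.size_lower n σ' hsum' (3 * P) hdev'' t
      have h2 : (20 : ℝ) * K + 20 ≤ (n : ℝ) / r := by
        rw [le_div_iff₀ (by linarith)]
        have h4 : ((20 : ℝ) * K + 20) * r = 20 * K * r + 20 * r := by ring
        rw [h4]
        linarith
      have h3 : (2 * ((a' : ℝ) + b') + 1) ≤ σ' t := by linarith
      exact_mod_cast h3
    obtain ⟨k', G', f', hG', hN'⟩ := WIN.real hReds hCnt F r hr σ' a' b' m hReal' hσ' hSz'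
    have hlow' := hn₂ σ' a' b' (Fin k') G' f' hG' (by rw [hsum']; omega) hdev'' (by
      have h1 : (a' : ℝ) ≤ K := by
        have : (0 : ℝ) ≤ b' := Nat.cast_nonneg _
        linarith
      exact_mod_cast h1)
    rw [hN'.size] at hlow'
    have h5 := hle hN'
    have h6 : β * (Phi σ' a' b' + 1 / (r : ℝ) ^ 2) ≤ β * Phi σ a b :=
      mul_le_mul_of_nonneg_left hgap (by linarith)
    have h7 : 0 < 1 / (r : ℝ) ^ 2 := by positivity
    have h8 : 1 / (4 * (r : ℝ) ^ 2) = 1 / 4 * (1 / (r : ℝ) ^ 2) := by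
      field_simp
    rw [h8] at hε'3
    have h9 : 2 / 3 * (1 / (r : ℝ) ^ 2) ≤ β * (1 / (r : ℝ) ^ 2) :=
      mul_le_mul_of_nonneg_right hβ h7.le
    rw [mul_add] at h6
    linarith [habs.1]
  · rw [abs_le]
    constructor <;> linarith [habs.1, habs.2]

end MP0c3a8f

end

section

/-!
# MP_0c3a8f_co, phase B: item CLA
-/

open Finset

namespace MP0c3a8f

namespace ItemCLA

theorem free_aux {V : Type} {r : ℕ} {G : SimpleGraph V}
    (hF : (⊤ : SimpleGraph (Fin (r + 1))).Free G) (x : V) (c : Fin r → V)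
    (hx : ∀ t, G.Adj x (c t)) (hc : ∀ s t, s ≠ t → G.Adj (c s) (c t)) : False := by
  apply hF
  let h : (⊤ : SimpleGraph (Fin (r + 1))) →g G :=
    { toFun := Fin.cons x c
      map_rel' := by
        intro a b hab
        have hab' : a ≠ b := by simpa using hab
        revert hab'
        refine Fin.cases ?_ ?_ a <;> refine Fin.cases ?_ ?_ b
        · intro h; exact absurd rfl h
        · intro t _
          simpa using hx t
        · intro t _
          simpa using (hx t).symm
        · intro s t h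
          have : t ≠ s := fun e => h (by rw [e])
          simpa using hc t s this }
  exact ⟨⟨h, h.injective_of_top_hom⟩⟩

theorem colour_aux {V : Type} {r : ℕ} {G : SimpleGraph V} {g : V → Option (Fin r)} {w : V}
    (hI : Indep G g) (hw : g w = none) (i : Fin r) (hi : ∀ v, g v = some i → ¬ G.Adj w v)
    (u v : V) (hu : g u ≠ none ∨ u = w) (hv : g v ≠ none ∨ v = w) (huv : G.Adj u v) :
    (g u).getD i ≠ (g v).getD i := by
  intro h
  rcases hu with hu | hu <;> rcases hv with hv | hv
  · obtain ⟨s, hs⟩ := Option.ne_none_iff_exists'.1 hu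
    obtain ⟨t, ht⟩ := Option.ne_none_iff_exists'.1 hv
    rw [hs, ht] at h
    simp only [Option.getD_some] at h
    exact hI u v hu (by rw [hs, ht, h]) huv
  · obtain ⟨s, hs⟩ := Option.ne_none_iff_exists'.1 hu
    rw [hs, hv, hw] at h
    simp only [Option.getD_some, Option.getD_none] at h
    subst hv
    exact hi u (by rw [hs, h]) huv.symm
  · obtain ⟨s, hs⟩ := Option.ne_none_iff_exists'.1 hv
    rw [hs, hu, hw] at h
    simp only [Option.getD_some, Option.getD_none] at h
    subst hu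
    exact hi v (by rw [hs, ← h]) huv
  · subst hu; subst hv
    exact G.loopless.irrefl _ huv

end ItemCLA

open ItemCLA in
theorem prfCLA : GRD_statement → CLA_statement := by
  classical
  intro hGRD r V _ G g w hr hI hw hmiss hsiz hF hcol hiso
  -- the core is complete
  have hmiss' : missSet G g = ∅ := by
    rwa [Set.ncard_eq_zero (Set.toFinite _)] at hmiss
  have hcore : ∀ x y, g x ≠ none → g y ≠ none → (G.Adj x y ↔ g x ≠ g y) := by
    intro x y hx hy
    constructor
    · intro h e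
      exact hI x y hx e h
    · intro h
      by_contra hn
      have : s(x, y) ∈ missSet G g := ⟨x, y, rfl, hx, hy, h, hn⟩
      rw [hmiss'] at this
      exact this
  -- `w` misses a class
  obtain ⟨i, hi⟩ : ∃ i : Fin r, ∀ v, g v = some i → ¬ G.Adj w v := by
    by_contra hcon
    push Not at hcon
    choose c hc hwc using hcon
    refine free_aux hF w c hwc ?_
    intro s t hst
    refine (hcore _ _ (by simp [hc]) (by simp [hc])).2 ?_
    rw [hc, hc]
    exact fun e => hst (Option.some.inj e)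
  -- a vertex of large degree outside
  obtain ⟨u, hgu, huw, hdeg⟩ : ∃ u, g u = none ∧ u ≠ w ∧ r ≤ {x | G.Adj u x}.ncard := by
    by_contra hcon
    push Not at hcon
    apply hcol
    refine hGRD r V G {v | g v ≠ none ∨ v = w} (fun v => (g v).getD i) ?_ ?_
    · intro a b ha hb hab
      exact colour_aux hI hw i hi a b ha hb hab
    · intro v hv
      simp only [Set.mem_ofPred_eq, not_or, not_not] at hv
      exact hcon v hv.1 hv.2
  -- its edges
  have hinj : Set.InjOn (fun x => s(u, x)) {x | G.Adj u x} := by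
    intro a _ b _ hab
    simp only [Sym2.eq_iff] at hab
    rcases hab with ⟨_, h⟩ | ⟨h1, h2⟩
    · exact h
    · rw [h2, h1]
  have hsub : (fun x => s(u, x)) '' {x | G.Adj u x} ⊆ lightSet G g {w} := by
    rintro _ ⟨x, hx, rfl⟩
    refine ⟨hx, u, by simp, hgu, by simpa using huw⟩
  have hcard : ((fun x => s(u, x)) '' {x | G.Adj u x}).ncard = {x | G.Adj u x}.ncard :=
    hinj.ncard_image
  have hle : {x | G.Adj u x}.ncard ≤ (lightSet G g {w}).ncard := by
    rw [← hcard]
    exact Set.ncard_le_ncard hsub (Set.toFinite _)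
  refine ⟨hdeg.trans hle, fun heq => ?_⟩
  have hdeg' : {x | G.Adj u x}.ncard = r := le_antisymm (heq ▸ hle) hdeg
  have himg : (fun x => s(u, x)) '' {x | G.Adj u x} = lightSet G g {w} := by
    refine Set.eq_of_subset_of_ncard_le hsub ?_ (Set.toFinite _)
    rw [hcard, hdeg', heq]
  -- the other vertices outside have degree at most one
  have hoth : ∀ v, g v = none → v ≠ w → v ≠ u → ∀ y, G.Adj v y → y = u := by
    intro v hv hvw hvu y hy
    have : s(v, y) ∈ lightSet G g {w} := ⟨hy, v, by simp, hv, by simpa using hvw⟩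
    rw [← himg] at this
    obtain ⟨x, hx, hxe⟩ := this
    simp only [Sym2.eq_iff] at hxe
    rcases hxe with ⟨h1, h2⟩ | ⟨h1, h2⟩
    · exact absurd h1.symm hvu
    · exact h1.symm
  have hothdeg : ∀ v, g v = none → v ≠ w → v ≠ u → {x | G.Adj v x}.ncard < r := by
    intro v hv hvw hvu
    have : {x | G.Adj v x} ⊆ {u} := fun y hy => hoth v hv hvw hvu y hy
    calc {x | G.Adj v x}.ncard ≤ ({u} : Set V).ncard := Set.ncard_le_ncard this (Set.toFinite _)
      _ = 1 := Set.ncard_singleton u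
      _ < r := by omega
  -- surjectivity of the colours of the neighbours of `u`
  have hsurj : ∀ i : Fin r, (∀ v, g v = some i → ¬ G.Adj w v) → ∀ t : Fin r,
      ∃ x, G.Adj u x ∧ (g x ≠ none ∨ x = w) ∧ (g x).getD i = t := by
    intro i hi t
    by_contra hcon
    push Not at hcon
    apply hcol
    refine hGRD r V G {v | (g v ≠ none ∨ v = w) ∨ v = u}
      (fun v => if v = u then t else (g v).getD i) ?_ ?_
    · intro a b ha hb hab
      by_cases hau : a = u
      · have hbu : b ≠ u := by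
          rintro rfl; rw [hau] at hab; exact G.loopless.irrefl _ hab
        rw [if_pos hau, if_neg hbu]
        rw [hau] at hab
        exact (hcon b hab (hb.resolve_right hbu)).symm
      · by_cases hbu : b = u
        · rw [if_neg hau, if_pos hbu]
          rw [hbu] at hab
          exact hcon a hab.symm (ha.resolve_right hau)
        · rw [if_neg hau, if_neg hbu]
          exact colour_aux hI hw i hi a b (ha.resolve_right hau) (hb.resolve_right hbu) hab
    · intro v hv
      simp only [Set.mem_ofPred_eq, not_or, not_not] at hv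
      exact hothdeg v hv.1.1 hv.1.2 hv.2
  -- hence the colours of the neighbours are a bijection
  have hbij : ∀ i : Fin r, (∀ v, g v = some i → ¬ G.Adj w v) →
      (∀ x, G.Adj u x → (g x ≠ none ∨ x = w)) ∧
      ∀ x y, G.Adj u x → G.Adj u y → (g x).getD i = (g y).getD i → x = y := by
    intro i hi
    choose c hc1 hc2 hc3 using hsurj i hi
    have hcinj : Function.Injective c := by
      intro a b hab
      rw [← hc3 a, ← hc3 b, hab]
    have hrange : Set.range c = {x | G.Adj u x} := by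
      refine Set.eq_of_subset_of_ncard_le ?_ ?_ (Set.toFinite _)
      · rintro _ ⟨t, rfl⟩
        exact hc1 t
      · rw [hdeg', ← Set.image_univ, Set.ncard_image_of_injective _ hcinj, Set.ncard_univ]
        simp
    have hx : ∀ x, G.Adj u x → ∃ t, c t = x := by
      intro x hx
      have : x ∈ Set.range c := by rw [hrange]; exact hx
      exact this
    refine ⟨?_, ?_⟩
    · intro x hux
      obtain ⟨t, rfl⟩ := hx x hux
      exact hc2 t
    · intro x y hux huy hxy
      obtain ⟨s, rfl⟩ := hx x hux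
      obtain ⟨t, rfl⟩ := hx y huy
      rw [hc3, hc3] at hxy
      rw [hxy]
  -- `L = {u}`
  have hL : ∀ y, g y = none ↔ y = w ∨ y = u := by
    intro y
    constructor
    · intro hy
      by_contra hcon
      push Not at hcon
      obtain ⟨z, hz⟩ := hiso y
      have hzu := hoth y hy hcon.1 hcon.2 z hz
      rw [hzu] at hz
      rcases (hbij i hi).1 y hz.symm with h | h
      · exact h hy
      · exact hcon.1 h
    · rintro (rfl | rfl)
      · exact hw
      · exact hgu
  -- `u` is adjacent to `w`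
  have huwadj : G.Adj u w := by
    by_contra hn
    choose c hc1 hc2 hc3 using hsurj i hi
    have hgc : ∀ t, g (c t) = some t := by
      intro t
      rcases hc2 t with h | h
      · obtain ⟨s, hs⟩ := Option.ne_none_iff_exists'.1 h
        have := hc3 t
        rw [hs] at this ⊢
        simp only [Option.getD_some] at this
        rw [this]
      · exact absurd (h ▸ hc1 t) hn
    refine free_aux hF u c hc1 ?_
    intro s t hst
    refine (hcore _ _ (by simp [hgc]) (by simp [hgc])).2 ?_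
    rw [hgc, hgc]
    exact fun e => hst (Option.some.inj e)
  -- the choice of `v`
  choose c hc1 hc2 hc3 using hsurj i hi
  have hcw : ∀ t, t ≠ i → g (c t) = some t := by
    intro t ht
    rcases hc2 t with h | h
    · obtain ⟨s, hs⟩ := Option.ne_none_iff_exists'.1 h
      have := hc3 t
      rw [hs] at this ⊢
      simp only [Option.getD_some] at this
      rw [this]
    · exfalso
      have := hc3 t
      rw [h, hw] at this
      exact ht this.symm
  refine ⟨u, c, i, ⟨⟨hL, huw.symm, hcore, huwadj, hcw, ?_⟩, ?_, ?_, ?_⟩⟩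
  · -- un
    intro y hy
    constructor
    · intro huy
      obtain ⟨t, ht⟩ := Option.ne_none_iff_exists'.1 hy
      have hti : t ≠ i := by
        rintro rfl
        have : y = w := (hbij t hi).2 y w huy huwadj (by rw [ht, hw]; rfl)
        rw [this] at hy
        exact hy hw
      refine ⟨t, hti, ?_⟩
      exact (hbij i hi).2 y (c t) huy (hc1 t) (by rw [ht, hcw t hti])
    · rintro ⟨t, _, rfl⟩
      exact hc1 t
  · -- ni
    unfold nbn
    rw [Set.ncard_eq_zero (Set.toFinite _)]
    ext v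
    simp only [Set.mem_ofPred_eq, Set.mem_empty_iff_false, iff_false, not_and]
    exact hi v
  · -- pos
    intro t ht
    unfold nbn
    rw [Nat.one_le_iff_ne_zero, Ne, Set.ncard_eq_zero (Set.toFinite _)]
    intro he
    have hit : ∀ v, g v = some t → ¬ G.Adj w v := by
      intro v hv hwv
      have : v ∈ {v | g v = some t ∧ G.Adj w v} := ⟨hv, hwv⟩
      rw [he] at this
      exact this
    obtain ⟨x, hx1, hx2, hx3⟩ := hsurj t hit i
    rcases hx2 with h | h
    · obtain ⟨s, hs⟩ := Option.ne_none_iff_exists'.1 h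
      rw [hs] at hx3
      simp only [Option.getD_some] at hx3
      have : x = w := (hbij i hi).2 x w hx1 huwadj (by rw [hs, hw, hx3]; rfl)
      rw [this] at h
      exact h hw
    · rw [h, hw] at hx3
      exact ht hx3
  · -- exc
    by_contra hcon
    push Not at hcon
    refine free_aux hF u (fun t => if t = i then w else c t) ?_ ?_
    · intro t
      by_cases ht : t = i
      · simp only [ht, if_true]; exact huwadj
      · simp only [ht, if_false]; exact hc1 t
    · intro s t hst
      by_cases hs : s = i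
      · have ht : t ≠ i := fun e => hst (hs.trans e.symm)
        simp only [hs, ht, if_true, if_false]
        exact hcon t ht
      · by_cases ht : t = i
        · simp only [hs, ht, if_true, if_false]
          exact (hcon s hs).symm
        · simp only [hs, ht, if_false]
          refine (hcore _ _ (by simp [hcw s hs]) (by simp [hcw t ht])).2 ?_
          rw [hcw s hs, hcw t ht]
          exact fun e => hst (Option.some.inj e)

end MP0c3a8f

end

section

/-!
# MP_0c3a8f_co, phase B: item CLB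
-/

open Finset

namespace MP0c3a8f

namespace CLB

theorem free_aux {V : Type} {r : ℕ} {G : SimpleGraph V}
    (hF : (⊤ : SimpleGraph (Fin (r + 1))).Free G) (x : V) (c : Fin r → V)
    (hx : ∀ t, G.Adj x (c t)) (hc : ∀ s t, s ≠ t → G.Adj (c s) (c t)) : False := by
  apply hF
  let h : (⊤ : SimpleGraph (Fin (r + 1))) →g G :=
    { toFun := Fin.cons x c
      map_rel' := by
        intro a b hab
        have hab' : a ≠ b := by simpa using hab
        revert hab'
        refine Fin.cases ?_ ?_ a <;> refine Fin.cases ?_ ?_ b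
        · intro h; exact absurd rfl h
        · intro t _
          simpa using hx t
        · intro t _
          simpa using (hx t).symm
        · intro s t h
          have : t ≠ s := fun e => h (by rw [e])
          simpa using hc t s this }
  exact ⟨⟨h, h.injective_of_top_hom⟩⟩

/-- the only neighbour of `w` in the class of `p` is `p` -/
theorem nb_eq {V : Type} {r : ℕ} {G : SimpleGraph V} {g : V → Option (Fin r)} {w p p' : V}
    {i : Fin r} (hF : (⊤ : SimpleGraph (Fin (r + 1))).Free G)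
    (hp : g p = some i)
    (hcore : ∀ u v, g u ≠ none → g v ≠ none → (G.Adj u v ↔ g u ≠ g v ∧ s(u, v) ≠ s(p, p')))
    (hN : ∀ t, ∃ v, g v = some t ∧ G.Adj w v) (v : V) (hv : g v = some i)
    (hwv : G.Adj w v) : v = p := by
  classical
  by_contra hne
  choose c hc hwc using hN
  have hg : ∀ t, g (if t = i then v else c t) = some t := by
    intro t
    by_cases ht : t = i
    · rw [if_pos ht, hv, ht]
    · rw [if_neg ht, hc]
  have hnp : ∀ t, (if t = i then v else c t) ≠ p := by
    intro t h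
    have h1 := hg t
    rw [h, hp] at h1
    have h2 : i = t := Option.some.inj h1
    rw [if_pos h2.symm] at h
    exact hne h
  refine free_aux hF w (fun t => if t = i then v else c t) ?_ ?_
  · intro t
    by_cases ht : t = i
    · simp only [ht, if_true]; exact hwv
    · simp only [ht, if_false]; exact hwc t
  · intro s t hst
    refine (hcore _ _ (by rw [hg]; exact Option.some_ne_none _)
      (by rw [hg]; exact Option.some_ne_none _)).2 ⟨?_, ?_⟩
    · rw [hg, hg]
      exact fun e => hst (Option.some.inj e)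
    · intro e
      rw [Sym2.eq_iff] at e
      rcases e with ⟨h1, -⟩ | ⟨-, h2⟩
      · exact hnp s h1
      · exact hnp t h2

end CLB

open CLB in
theorem prfCLB : CLB_statement := by
  classical
  intro r V _ G g w hr hI hw hmiss hlight hsiz hF hcol hiso
  -- no light vertices
  have hlight' : lightSet G g {w} = ∅ := by
    rwa [Set.ncard_eq_zero (Set.toFinite _)] at hlight
  have hout : ∀ v, g v = none ↔ v = w := by
    intro v
    constructor
    · intro hv
      by_contra hne
      obtain ⟨u, hu⟩ := hiso v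
      have : s(v, u) ∈ lightSet G g {w} := ⟨hu, v, by simp, hv, by simpa using hne⟩
      rw [hlight'] at this
      exact this
    · rintro rfl
      exact hw
  -- the missing edge
  obtain ⟨e, he⟩ := Set.ncard_eq_one.1 hmiss
  have hem : e ∈ missSet G g := by rw [he]; exact Set.mem_singleton e
  obtain ⟨p, p', hep, hgp, hgp', hpp, hnadj⟩ := hem
  obtain ⟨i, hi⟩ := Option.ne_none_iff_exists'.1 hgp
  obtain ⟨j, hj⟩ := Option.ne_none_iff_exists'.1 hgp'
  have hij : i ≠ j := by
    intro h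
    apply hpp
    rw [hi, hj, h]
  have hcore : ∀ u v, g u ≠ none → g v ≠ none →
      (G.Adj u v ↔ g u ≠ g v ∧ s(u, v) ≠ s(p, p')) := by
    intro x y hx hy
    constructor
    · intro h
      refine ⟨fun e => hI x y hx e h, fun e => hnadj ?_⟩
      have : s(x, y) ∈ G.edgeSet := h
      rw [e] at this
      exact this
    · rintro ⟨h1, h2⟩
      by_contra hn
      have : s(x, y) ∈ missSet G g := ⟨x, y, rfl, hx, hy, h1, hn⟩
      rw [he, Set.mem_singleton_iff, hep] at this
      exact h2 this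
  have hcore' : ∀ u v, g u ≠ none → g v ≠ none →
      (G.Adj u v ↔ g u ≠ g v ∧ s(u, v) ≠ s(p', p)) := by
    intro x y hx hy
    rw [hcore x y hx hy, Sym2.eq_swap (a := p') (b := p)]
  -- `w` has neighbours in all classes
  have hN : ∀ t, ∃ v, g v = some t ∧ G.Adj w v := by
    intro t
    by_contra hcon
    push Not at hcon
    apply hcol
    refine ⟨SimpleGraph.Coloring.mk (fun v => (g v).getD t) ?_⟩
    intro x y hxy h
    rcases hgx : g x with _ | s <;> rcases hgy : g y with _ | s'
    · rw [(hout x).1 hgx, (hout y).1 hgy] at hxy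
      exact G.loopless.irrefl _ hxy
    · rw [hgx, hgy] at h
      simp only [Option.getD_none, Option.getD_some] at h
      rw [(hout x).1 hgx] at hxy
      exact hcon y (by rw [hgy, h]) hxy
    · rw [hgx, hgy] at h
      simp only [Option.getD_none, Option.getD_some] at h
      rw [(hout y).1 hgy] at hxy
      exact hcon x (by rw [hgx, h]) hxy.symm
    · rw [hgx, hgy] at h
      simp only [Option.getD_some] at h
      exact hI x y (by rw [hgx]; exact Option.some_ne_none _) (by rw [hgx, hgy, h]) hxy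
  have h1 : ∀ v, g v = some i → G.Adj w v → v = p := fun v =>
    nb_eq hF hi hcore hN v
  have h2 : ∀ v, g v = some j → G.Adj w v → v = p' := fun v =>
    nb_eq hF hj hcore' hN v
  have hwp : G.Adj w p := by
    obtain ⟨v, hv, hwv⟩ := hN i
    rw [← h1 v hv hwv]
    exact hwv
  have hwp' : G.Adj w p' := by
    obtain ⟨v, hv, hwv⟩ := hN j
    rw [← h2 v hv hwv]
    exact hwv
  refine ⟨p, p', i, j, ⟨⟨hout, hij, hi, hj, hcore⟩, hwp, hwp', ?_, ?_, ?_⟩⟩
  · unfold nbn
    rw [Set.ncard_eq_one]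
    refine ⟨p, ?_⟩
    ext v
    simp only [Set.mem_ofPred_eq, Set.mem_singleton_iff]
    constructor
    · rintro ⟨h, h'⟩
      exact h1 v h h'
    · rintro rfl
      exact ⟨hi, hwp⟩
  · unfold nbn
    rw [Set.ncard_eq_one]
    refine ⟨p', ?_⟩
    ext v
    simp only [Set.mem_ofPred_eq, Set.mem_singleton_iff]
    constructor
    · rintro ⟨h, h'⟩
      exact h2 v h h'
    · rintro rfl
      exact ⟨hj, hwp'⟩
  · intro t
    unfold nbn
    rw [Nat.one_le_iff_ne_zero, Ne, Set.ncard_eq_zero (Set.toFinite _)]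
    intro h
    obtain ⟨v, hv, hwv⟩ := hN t
    have : v ∈ {v | g v = some t ∧ G.Adj w v} := ⟨hv, hwv⟩
    rw [h] at this
    exact this

end MP0c3a8f

end

section

open Finset

namespace MP0c3a8f

namespace EIG1

open Classical in
theorem tot {V : Type} [Fintype V] {r : ℕ} (x : V → ℝ) (f : V → Option (Fin r)) :
    ∑ s, cw x f (some s) = ∑ u, if f u ≠ none then x u else 0 := by
  unfold cw
  rw [Finset.sum_comm]
  refine Finset.sum_congr rfl fun u _ => ?_
  cases h : f u with
  | none => simp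
  | some t => simp

theorem ncard_eq {V : Type} [Fintype V] (P : V → Prop) [DecidablePred P] :
    (({v | P v}.ncard : ℕ) : ℝ) = ∑ v, if P v then (1 : ℝ) else 0 := by
  rw [Set.ncard_eq_toFinset_card', Finset.sum_boole]
  congr 2
  ext v
  simp

open Classical in
theorem row {r : ℕ} {V : Type} [Fintype V] {G : SimpleGraph V} {f : V → Option (Fin r)}
    {w p p' : V} {i j : Fin r} (x : V → ℝ) (h : Ty1 G f w p p' i j) (v : V) (t : Fin r)
    (hv : f v = some t) :
    ∑ u, adj G v u * x u = (∑ s, cw x f (some s) - cw x f (some t)) +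
      (if G.Adj w v then x w else 0) - (if v = p then x p' else 0) -
      (if v = p' then x p else 0) := by
  have hpp : p ≠ p' := by
    intro e
    have h1 := h.hp
    rw [e, h.hp'] at h1
    exact h.ij (by simpa using h1.symm)
  have hw : f w = none := (h.out w).2 rfl
  have e1 : (if G.Adj w v then x w else 0) =
      ∑ u, if u = w then (if G.Adj w v then x w else 0) else 0 := by
    rw [Finset.sum_ite_eq' Finset.univ w]
    simp
  have e2 : (if v = p then x p' else 0) =
      ∑ u, if u = p' then (if v = p then x p' else 0) else 0 := by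
    rw [Finset.sum_ite_eq' Finset.univ p']
    simp
  have e3 : (if v = p' then x p else 0) =
      ∑ u, if u = p then (if v = p' then x p else 0) else 0 := by
    rw [Finset.sum_ite_eq' Finset.univ p]
    simp
  rw [tot, e1, e2, e3]
  unfold cw
  rw [← Finset.sum_sub_distrib, ← Finset.sum_add_distrib, ← Finset.sum_sub_distrib,
    ← Finset.sum_sub_distrib]
  refine Finset.sum_congr rfl fun u _ => ?_
  unfold adj
  by_cases huw : u = w
  · subst huw
    have hup : u ≠ p := by
      intro e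
      rw [e, h.hp] at hw
      simp at hw
    have hup' : u ≠ p' := by
      intro e
      rw [e, h.hp'] at hw
      simp at hw
    simp [hw, hup, hup', G.adj_comm v u]
  · have hu : f u ≠ none := fun e => huw ((h.out u).1 e)
    have hv' : f v ≠ none := by rw [hv]; simp
    have hc := h.core v u hv' hu
    rw [hv] at hc
    by_cases hut : f u = some t
    · have hna : ¬ G.Adj v u := by
        rw [hc, hut]
        simp
      have h1 : ¬ (u = p' ∧ v = p) := by
        rintro ⟨q1, q2⟩
        rw [q1, h.hp'] at hut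
        rw [q2, h.hp] at hv
        exact h.ij (by simpa using (hv.trans hut.symm))
      have h2 : ¬ (u = p ∧ v = p') := by
        rintro ⟨q1, q2⟩
        rw [q1, h.hp] at hut
        rw [q2, h.hp'] at hv
        exact h.ij (by simpa using (hut.trans hv.symm))
      have h1' : (if u = p' then (if v = p then x p' else 0) else 0) = (0 : ℝ) := by
        split_ifs <;> simp_all
      have h2' : (if u = p then (if v = p' then x p else 0) else 0) = (0 : ℝ) := by
        split_ifs <;> simp_all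
      rw [if_neg hna, if_pos hu, if_pos hut, if_neg huw, h1', h2']
      ring
    · rw [if_pos hu, if_neg hut, if_neg huw]
      by_cases h1 : u = p' ∧ v = p
      · obtain ⟨q1, q2⟩ := h1
        have hna : ¬ G.Adj v u := by
          rw [hc]
          simp [q1, q2]
        rw [if_neg hna, q1, q2, if_pos rfl, if_pos rfl, if_neg hpp.symm]
        simp
      · by_cases h2 : u = p ∧ v = p'
        · obtain ⟨q1, q2⟩ := h2
          have hna : ¬ G.Adj v u := by
            rw [hc]
            simp [q1, q2]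
          rw [if_neg hna, q1, q2, if_pos rfl, if_pos rfl, if_neg hpp]
          simp
        · have ha : G.Adj v u := by
            rw [hc]
            refine ⟨fun e => hut e.symm, ?_⟩
            simp only [ne_eq, Sym2.eq_iff, not_or]
            exact ⟨fun e => h1 ⟨e.2, e.1⟩, fun e => h2 ⟨e.2, e.1⟩⟩
          have h1' : (if u = p' then (if v = p then x p' else 0) else 0) = (0 : ℝ) := by
            split_ifs <;> simp_all
          have h2' : (if u = p then (if v = p' then x p else 0) else 0) = (0 : ℝ) := by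
            split_ifs <;> simp_all
          rw [if_pos ha, h1', h2']
          ring

end EIG1

open Classical in
theorem prfEIG1 : EIG1_statement := by
  intro r V _ G f w p p' i j x l h hx
  have hpp : p ≠ p' := by
    intro e
    have h1 := h.hp
    rw [e, h.hp'] at h1
    exact h.ij (by simpa using h1.symm)
  have hrow : ∀ v t, f v = some t → l * x v = (∑ s, cw x f (some s) - cw x f (some t)) +
      (if G.Adj w v then x w else 0) - (if v = p then x p' else 0) -
      (if v = p' then x p else 0) := fun v t hv => by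
    rw [← hx v]
    exact EIG1.row x h v t hv
  refine ⟨fun v t hv h1 h2 => ?_, ?_, ?_, fun t => ?_, ?_⟩
  · rw [hrow v t hv, if_neg h1, if_neg h2]
    ring
  · rw [hrow p i h.hp, if_pos rfl, if_neg hpp]
    ring
  · rw [hrow p' j h.hp', if_neg hpp.symm, if_pos rfl]
    ring
  · have e1 : l * cw x f (some t) = ∑ v, if f v = some t then l * x v else 0 := by
      unfold cw
      rw [Finset.mul_sum]
      exact Finset.sum_congr rfl fun v _ => by split_ifs <;> simp
    have e2 : ∀ v, (if f v = some t then l * x v else 0) =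
        (if f v = some t then (1 : ℝ) else 0) * (∑ s, cw x f (some s) - cw x f (some t)) +
        (if f v = some t ∧ G.Adj w v then (1 : ℝ) else 0) * x w -
        (if v = p then (if t = i then x p' else 0) else 0) -
        (if v = p' then (if t = j then x p else 0) else 0) := by
      intro v
      have hpi : v = p → (f v = some t ↔ t = i) := by
        intro e
        rw [e, h.hp]
        simp [eq_comm]
      have hpj : v = p' → (f v = some t ↔ t = j) := by
        intro e
        rw [e, h.hp']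
        simp [eq_comm]
      by_cases hv : f v = some t
      · rw [if_pos hv, if_pos hv, hrow v t hv]
        have a1 : (if f v = some t ∧ G.Adj w v then (1 : ℝ) else 0) * x w =
            if G.Adj w v then x w else 0 := by
          by_cases ha : G.Adj w v <;> simp [ha, hv]
        have a2 : (if v = p then (if t = i then x p' else 0) else 0) =
            if v = p then x p' else 0 := by
          by_cases e : v = p
          · rw [if_pos e, if_pos e, if_pos ((hpi e).1 hv)]
          · rw [if_neg e, if_neg e]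
        have a3 : (if v = p' then (if t = j then x p else 0) else 0) =
            if v = p' then x p else 0 := by
          by_cases e : v = p'
          · rw [if_pos e, if_pos e, if_pos ((hpj e).1 hv)]
          · rw [if_neg e, if_neg e]
        rw [a1, a2, a3]
        ring
      · have a2 : (if v = p then (if t = i then x p' else 0) else 0) = (0 : ℝ) := by
          by_cases e : v = p
          · rw [if_pos e, if_neg (fun h' => hv ((hpi e).2 h'))]
          · rw [if_neg e]
        have a3 : (if v = p' then (if t = j then x p else 0) else 0) = (0 : ℝ) := by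
          by_cases e : v = p'
          · rw [if_pos e, if_neg (fun h' => hv ((hpj e).2 h'))]
          · rw [if_neg e]
        rw [if_neg hv, if_neg hv, if_neg (fun h' => hv h'.1), a2, a3]
        ring
    rw [e1, Finset.sum_congr rfl fun v _ => e2 v, Finset.sum_sub_distrib, Finset.sum_sub_distrib,
      Finset.sum_add_distrib, ← Finset.sum_mul, ← Finset.sum_mul, ← EIG1.ncard_eq,
      ← EIG1.ncard_eq, Finset.sum_ite_eq' Finset.univ p, Finset.sum_ite_eq' Finset.univ p']
    simp [siz, nbn]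
  · rw [← hx w]
    refine Finset.sum_congr rfl fun u _ => ?_
    unfold adj
    by_cases ha : G.Adj w u
    · have hu : f u ≠ none := by
        intro e
        rw [(h.out u).1 e] at ha
        exact G.loopless.irrefl w ha
      simp [ha, hu]
    · simp [ha]

end MP0c3a8f

end

section

open Finset

namespace MP0c3a8f

namespace EIG2

open Classical in
theorem tot {V : Type} [Fintype V] {r : ℕ} (x : V → ℝ) (f : V → Option (Fin r)) :
    ∑ s, cw x f (some s) = ∑ u, if f u ≠ none then x u else 0 := by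
  unfold cw
  rw [Finset.sum_comm]
  refine Finset.sum_congr rfl fun u _ => ?_
  cases h : f u with
  | none => simp
  | some t => simp

theorem ncard_eq {V : Type} [Fintype V] (P : V → Prop) [DecidablePred P] :
    (({v | P v}.ncard : ℕ) : ℝ) = ∑ v, if P v then (1 : ℝ) else 0 := by
  rw [Set.ncard_eq_toFinset_card', Finset.sum_boole]
  congr 2
  ext v
  simp

open Classical in
theorem row {r : ℕ} {V : Type} [Fintype V] {G : SimpleGraph V} {f : V → Option (Fin r)}
    {w u : V} {v : Fin r → V} {i : Fin r} (x : V → ℝ) (h : Ty2 G f w u v i) (y : V) (t : Fin r)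
    (hy : f y = some t) :
    ∑ z, adj G y z * x z = (∑ s, cw x f (some s) - cw x f (some t)) +
      (if G.Adj w y then x w else 0) + (if G.Adj u y then x u else 0) := by
  have hw : f w = none := (h.out w).2 (Or.inl rfl)
  have hu : f u = none := (h.out u).2 (Or.inr rfl)
  have e1 : (if G.Adj w y then x w else 0) =
      ∑ z, if z = w then (if G.Adj w y then x w else 0) else 0 := by
    rw [Finset.sum_ite_eq' Finset.univ w]
    simp
  have e2 : (if G.Adj u y then x u else 0) =
      ∑ z, if z = u then (if G.Adj u y then x u else 0) else 0 := by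
    rw [Finset.sum_ite_eq' Finset.univ u]
    simp
  rw [tot, e1, e2]
  unfold cw
  rw [← Finset.sum_sub_distrib, ← Finset.sum_add_distrib, ← Finset.sum_add_distrib]
  refine Finset.sum_congr rfl fun z _ => ?_
  unfold adj
  by_cases hzw : z = w
  · have hzu : z ≠ u := by rw [hzw]; exact h.ne
    rw [if_neg hzu, hzw, hw, G.adj_comm y w]
    simp
  · by_cases hzu : z = u
    · rw [if_neg hzw, hzu, hu, G.adj_comm y u]
      simp
    · have hz : f z ≠ none := fun e => by
        rcases (h.out z).1 e with q | q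
        · exact hzw q
        · exact hzu q
      have hy' : f y ≠ none := by rw [hy]; simp
      have hc := h.core y z hy' hz
      rw [hy] at hc
      rw [if_neg hzw, if_neg hzu, if_pos hz]
      by_cases hzt : f z = some t
      · rw [if_pos hzt, if_neg (fun ha => (hc.1 ha) hzt.symm)]
        ring
      · rw [if_neg hzt, if_pos (hc.2 fun e => hzt e.symm)]
        ring

end EIG2

open Classical in
theorem prfEIG2 : EIG2_statement := by
  intro r V _ G f w u v i x l h hx
  have hw : f w = none := (h.out w).2 (Or.inl rfl)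
  have hu : f u = none := (h.out u).2 (Or.inr rfl)
  have hrow : ∀ y t, f y = some t → l * x y = (∑ s, cw x f (some s) - cw x f (some t)) +
      (if G.Adj w y then x w else 0) + (if G.Adj u y then x u else 0) := fun y t hy => by
    rw [← hx y]
    exact EIG2.row x h y t hy
  refine ⟨hrow, fun t => ?_, ?_, ?_⟩
  · have e1 : l * cw x f (some t) = ∑ y, if f y = some t then l * x y else 0 := by
      unfold cw
      rw [Finset.mul_sum]
      exact Finset.sum_congr rfl fun y _ => by split_ifs <;> simp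
    have e2 : ∀ y, (if f y = some t then l * x y else 0) =
        (if f y = some t then (1 : ℝ) else 0) * (∑ s, cw x f (some s) - cw x f (some t)) +
        (if f y = some t ∧ G.Adj w y then (1 : ℝ) else 0) * x w +
        (if y = v t then (if t ≠ i then x u else 0) else 0) := by
      intro y
      by_cases hy : f y = some t
      · have hyn : f y ≠ none := by rw [hy]; simp
        have a1 : (if f y = some t ∧ G.Adj w y then (1 : ℝ) else 0) * x w =
            if G.Adj w y then x w else 0 := by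
          by_cases ha : G.Adj w y <;> simp [ha, hy]
        have a2 : (if y = v t then (if t ≠ i then x u else 0) else 0) =
            if G.Adj u y then x u else 0 := by
          by_cases ha : G.Adj u y
          · obtain ⟨s, hs, hys⟩ := (h.un y hyn).1 ha
            have hst : s = t := by
              have := h.hv s hs
              rw [← hys, hy] at this
              simpa using this.symm
            subst hst
            rw [if_pos hys, if_pos hs, if_pos ha]
          · rw [if_neg ha]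
            by_cases q : y = v t
            · rw [if_pos q]
              by_cases hs : t ≠ i
              · exact absurd ((h.un y hyn).2 ⟨t, hs, q⟩) ha
              · rw [if_neg hs]
            · rw [if_neg q]
        rw [if_pos hy, if_pos hy, hrow y t hy, a1, a2]
        ring
      · have a2 : (if y = v t then (if t ≠ i then x u else 0) else 0) = (0 : ℝ) := by
          by_cases q : y = v t
          · rw [if_pos q]
            by_cases hs : t ≠ i
            · exact absurd (by rw [q]; exact h.hv t hs) hy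
            · rw [if_neg hs]
          · rw [if_neg q]
        rw [if_neg hy, if_neg hy, if_neg (fun h' => hy h'.1), a2]
        ring
    rw [e1, Finset.sum_congr rfl fun y _ => e2 y, Finset.sum_add_distrib,
      Finset.sum_add_distrib, ← Finset.sum_mul, ← Finset.sum_mul, ← EIG2.ncard_eq,
      ← EIG2.ncard_eq, Finset.sum_ite_eq' Finset.univ (v t)]
    simp [siz, nbn]
  · rw [← hx w]
    have e2 : x u = ∑ z, if z = u then x u else 0 := by
      rw [Finset.sum_ite_eq' Finset.univ u]
      simp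
    rw [e2, ← Finset.sum_add_distrib]
    refine Finset.sum_congr rfl fun z _ => ?_
    unfold adj
    by_cases hzu : z = u
    · rw [hzu, if_pos h.uw.symm, hu]
      simp
    · rw [if_neg hzu]
      by_cases ha : G.Adj w z
      · have hz : f z ≠ none := by
          intro e
          rcases (h.out z).1 e with q | q
          · rw [q] at ha
            exact G.loopless.irrefl w ha
          · exact hzu q
        simp [ha, hz]
      · simp [ha]
  · rw [← hx u]
    have e1 : x w = ∑ z, if z = w then x w else 0 := by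
      rw [Finset.sum_ite_eq' Finset.univ w]
      simp
    have e2 : (∑ t, if t ≠ i then x (v t) else 0) =
        ∑ z, ∑ t, if t ≠ i ∧ z = v t then x z else 0 := by
      rw [Finset.sum_comm]
      refine Finset.sum_congr rfl fun t _ => ?_
      by_cases ht : t ≠ i
      · have : ∀ z, (if t ≠ i ∧ z = v t then x z else 0) = if z = v t then x z else 0 := by
          intro z
          by_cases q : z = v t
          · rw [if_pos ⟨ht, q⟩, if_pos q]
          · rw [if_neg (fun h' => q h'.2), if_neg q]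
        rw [Finset.sum_congr rfl fun z _ => this z, Finset.sum_ite_eq' Finset.univ (v t), if_pos ht]
        simp
      · rw [if_neg ht]
        refine (Finset.sum_eq_zero fun z _ => ?_).symm
        rw [if_neg (fun h' => ht h'.1)]
    rw [e1, e2, ← Finset.sum_add_distrib]
    refine Finset.sum_congr rfl fun z _ => ?_
    unfold adj
    have hvn : ∀ t, t ≠ i → f (v t) ≠ none := fun t ht => by
      rw [h.hv t ht]
      simp
    by_cases hz : f z = none
    · have h0 : (∑ t, if t ≠ i ∧ z = v t then x z else 0) = 0 := by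
        refine Finset.sum_eq_zero fun t _ => ?_
        rw [if_neg]
        rintro ⟨ht, q⟩
        exact hvn t ht (by rw [← q]; exact hz)
      rw [h0]
      rcases (h.out z).1 hz with q | q
      · rw [q, if_pos h.uw]
        simp
      · have hne : z ≠ w := by rw [q]; exact h.ne.symm
        rw [if_neg hne, q]
        simp
    · have hzw : z ≠ w := fun q => hz (by rw [q]; exact hw)
      rw [if_neg hzw]
      by_cases ha : G.Adj u z
      · obtain ⟨s, hs, hq⟩ := (h.un z hz).1 ha
        have h1 : (∑ t, if t ≠ i ∧ z = v t then x z else 0) = x z := by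
          rw [Finset.sum_eq_single s]
          · rw [if_pos ⟨hs, hq⟩]
          · intro t _ hts
            rw [if_neg]
            rintro ⟨ht, q⟩
            apply hts
            have e3 := h.hv t ht
            rw [← q, hq, h.hv s hs] at e3
            simpa using e3.symm
          · intro h'
            exact absurd (Finset.mem_univ s) h'
        rw [h1, if_pos ha]
        ring
      · have h1 : (∑ t, if t ≠ i ∧ z = v t then x z else 0) = 0 := by
          refine Finset.sum_eq_zero fun t _ => ?_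
          rw [if_neg]
          rintro ⟨ht, q⟩
          exact ha ((h.un z hz).2 ⟨t, ht, q⟩)
        rw [h1, if_neg ha]
        ring

end MP0c3a8f

end

section

open Finset

namespace MP0c3a8f

theorem FIN1_perm {r n : ℕ} (hr : 3 ≤ r) (σ : Fin r → ℕ) (i j : Fin r) (hij : i ≠ j)
    (hb : ∀ t, n / r ≤ σ t ∧ σ t ≤ n / r + 1) (hs : ∑ t, σ t = n)
    (hi : ∀ t, σ t ≤ σ i) (hj : ∀ t, t ≠ i → σ t ≤ σ j) :
    ∃ π : Equiv.Perm (Fin r), (∀ t, σ t = tz r n (π t)) ∧ (π i).val = 0 ∧ (π j).val = 1 := by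
  have hr1 : 1 ≤ r := by omega
  obtain ⟨h1, h2, _, _, h5, _⟩ := prfDEV r n σ hr1 hs
  have hsq : ∑ t, σ t ^ 2 = ∑ t, (tz r n t) ^ 2 := by
    have e1 := DEV_sq r n hr1
    have e2 : ∑ t, (2 * (n / r) + 1) * σ t = ∑ t, (σ t ^ 2 + n / r * (n / r + 1)) := by
      refine Finset.sum_congr rfl fun t _ => ?_
      have h3 : σ t = n / r ∨ σ t = n / r + 1 := by
        have := hb t
        omega
      rcases h3 with h3 | h3 <;> rw [h3] <;> ring
    rw [← Finset.mul_sum, hs, Finset.sum_add_distrib, Finset.sum_const, Finset.card_univ,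
      Fintype.card_fin, smul_eq_mul] at e2
    omega
  obtain ⟨π₀, hπ₀⟩ := h5 hsq
  have hmono : ∀ s t : Fin r, s.val ≤ t.val → tz r n t ≤ tz r n s := by
    intro s t hst
    unfold tz
    split_ifs <;> omega
  set z : Fin r := ⟨0, by omega⟩ with hz
  set o : Fin r := ⟨1, by omega⟩ with ho
  have hzo : z ≠ o := by
    intro h
    have := congrArg Fin.val h
    simp [hz, ho] at this
  have hzi : tz r n z = tz r n (π₀ i) := by
    apply le_antisymm
    · have h3 := hπ₀ (π₀.symm z)
      rw [Equiv.apply_symm_apply] at h3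
      rw [← h3, ← hπ₀ i]
      exact hi _
    · exact hmono _ _ (Nat.zero_le _)
  set π₁ : Equiv.Perm (Fin r) := π₀.trans (Equiv.swap (π₀ i) z) with hπ₁
  have h1i : π₁ i = z := by
    rw [hπ₁, Equiv.trans_apply, Equiv.swap_apply_left]
  have h1t : ∀ t, σ t = tz r n (π₁ t) := by
    intro t
    rw [hπ₀ t, hπ₁, Equiv.trans_apply]
    by_cases h3 : π₀ t = π₀ i
    · rw [h3, Equiv.swap_apply_left, hzi]
    · by_cases h4 : π₀ t = z
      · rw [h4, Equiv.swap_apply_right, hzi]
      · rw [Equiv.swap_apply_of_ne_of_ne h3 h4]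
  clear_value π₁
  have h1j : π₁ j ≠ z := by
    rw [← h1i]
    exact fun h => hij (π₁.injective h).symm
  have hoj : tz r n o = tz r n (π₁ j) := by
    apply le_antisymm
    · have h3 := h1t (π₁.symm o)
      rw [Equiv.apply_symm_apply] at h3
      rw [← h3, ← h1t j]
      refine hj _ fun h => ?_
      have h4 := congrArg π₁ h
      rw [Equiv.apply_symm_apply, h1i] at h4
      exact hzo h4.symm
    · refine hmono _ _ ?_
      have h3 : (π₁ j).val ≠ 0 := fun h => h1j (Fin.ext h)
      show 1 ≤ (π₁ j).val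
      omega
  refine ⟨π₁.trans (Equiv.swap (π₁ j) o), ?_, ?_, ?_⟩
  · intro t
    rw [h1t t, Equiv.trans_apply]
    by_cases h3 : π₁ t = π₁ j
    · rw [h3, Equiv.swap_apply_left, hoj]
    · by_cases h4 : π₁ t = o
      · rw [h4, Equiv.swap_apply_right, hoj]
      · rw [Equiv.swap_apply_of_ne_of_ne h3 h4]
  · rw [Equiv.trans_apply, h1i, Equiv.swap_apply_of_ne_of_ne h1j.symm hzo]
  · rw [Equiv.trans_apply, Equiv.swap_apply_left]

/-- a maximiser is in the family, if the class `j` is not larger than the class `i` -/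
theorem FIN1_mx {r n D : ℕ} {ε : ℝ} (hr : 3 ≤ r)
    (hREL : REL_statement) {V : Type} [Fintype V] {G : SimpleGraph V}
    {f : V → Option (Fin r)} {w p p' : V} {i j : Fin r} (hT : Th1 G f w p p' i j)
    (hB : Bal n f) (hs : ∑ t, nbn G f w t = D + 1)
    (hi : ∀ k, k ≠ i → k ≠ j → siz f k ≤ siz f i)
    (hj : ∀ k, k ≠ i → k ≠ j → siz f k ≤ siz f j) (hji : siz f j ≤ siz f i)
    (hev : (∀ k l, k ≠ i → k ≠ j → l ≠ i → l ≠ j → siz f k = siz f l →
      nbn G f w k ≤ nbn G f w l + 1) ∧
    (∀ k l, k ≠ i → k ≠ j → l ≠ i → l ≠ j → siz f k = siz f l + 1 → 2 ≤ nbn G f w k →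
      nbn G f w l = siz f l)) : IsG1 r n D G := by
  obtain ⟨π, h1, h2, h3⟩ := FIN1_perm (n := n) hr (siz f) i j hT.ty.ij hB.1 hB.2
    (by
      intro t
      by_cases h4 : t = i
      · rw [h4]
      · by_cases h5 : t = j
        · rw [h5]; exact hji
        · exact hi t h4 h5)
    (by
      intro t h4
      by_cases h5 : t = j
      · rw [h5]
      · exact hj t h4 h5)
  obtain ⟨r1, r2, r3, _⟩ := hREL r V G f π
  have hne : ∀ t : Fin r, 2 ≤ t.val → π.symm t ≠ i ∧ π.symm t ≠ j := by
    intro t ht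
    constructor
    · intro h4
      have h5 := congrArg (fun x => (π x).val) h4
      simp only [Equiv.apply_symm_apply] at h5
      omega
    · intro h4
      have h5 := congrArg (fun x => (π x).val) h4
      simp only [Equiv.apply_symm_apply] at h5
      omega
  have hsz : ∀ t, siz f (π.symm t) = tz r n t := by
    intro t
    have := h1 (π.symm t)
    rwa [Equiv.apply_symm_apply] at this
  have hnb : ∀ t, nbn G (fun v => (f v).map π) w t = nbn G f w (π.symm t) := by
    intro t
    have := r2 w (π.symm t)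
    rwa [Equiv.apply_symm_apply] at this
  refine ⟨fun v => (f v).map π, w, p, p', π i, π j, h2, h3, (r3 w p p' i j hT).1, ?_, ?_, ?_, ?_⟩
  · intro t
    have := r1 (π.symm t)
    rw [Equiv.apply_symm_apply] at this
    rw [this, hsz]
  · rw [← hs, ← Equiv.sum_comp π.symm (nbn G f w)]
    exact Finset.sum_congr rfl fun t _ => hnb t
  · intro s t hs2 ht2 hst
    rw [hnb, hnb]
    refine hev.1 _ _ (hne s hs2).1 (hne s hs2).2 (hne t ht2).1 (hne t ht2).2 ?_
    rw [hsz, hsz, hst]
  · intro s t hs2 ht2 hst hle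
    rw [hnb] at hle ⊢
    rw [← hsz t]
    refine hev.2 _ _ (hne s hs2).1 (hne s hs2).2 (hne t ht2).1 (hne t ht2).2 ?_ hle
    rw [hsz, hsz]
    unfold tz at hst ⊢
    split_ifs at hst ⊢ <;> omega

/-- two members of the family are isomorphic -/
theorem FIN1_iso {r n D : ℕ} (hr : 3 ≤ r) (hREL : REL_statement) (hGV : GV_statement)
    (hISO1 : ISO1_statement) {V V' : Type} [Fintype V] [Fintype V'] {G : SimpleGraph V}
    {G' : SimpleGraph V'} (h : IsG1 r n D G) (h' : IsG1 r n D G') : Nonempty (G ≃g G') := by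
  obtain ⟨f, w, p, q, i, j, hi, hj, hT, hz, hs, he, hg⟩ := h
  obtain ⟨f', w', p', q', i', j', hi', hj', hT', hz', hs', he', hg'⟩ := h'
  have hii : i' = i := Fin.ext (by omega)
  have hjj : j' = j := Fin.ext (by omega)
  subst hii
  subst hjj
  have hle : ∀ (U : Type) [Fintype U] (H : SimpleGraph U) (φ : U → Option (Fin r)) (x : U)
      (t : Fin r), nbn H φ x t ≤ siz φ t := by
    intro U _ H φ x t
    unfold nbn siz
    exact Set.ncard_le_ncard (fun v hv => hv.1) (Set.toFinite _)
  obtain ⟨π, h1, h2, h3⟩ := hGV r n 2 (nbn G f w) (nbn G' f' w') (by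
    intro t ht
    have h4 : t = i' ∨ t = j' := by
      have : t.val = 0 ∨ t.val = 1 := by omega
      rcases this with h5 | h5
      · exact Or.inl (Fin.ext (by omega))
      · exact Or.inr (Fin.ext (by omega))
    rcases h4 with h4 | h4
    · rw [h4, hT.ni, hT'.ni]
    · rw [h4, hT.nj, hT'.nj]) (by rw [hs, hs']) (by
    intro t _
    refine ⟨hT.pos t, ?_, hT'.pos t, ?_⟩
    · rw [← hz t]; exact hle V G f w t
    · rw [← hz' t]; exact hle V' G' f' w' t)
    (fun s t hs2 ht2 hst => ⟨he s t hs2 ht2 hst, he' s t hs2 ht2 hst⟩)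
    (fun s t hs2 ht2 hst => ⟨hg s t hs2 ht2 hst, hg' s t hs2 ht2 hst⟩)
  obtain ⟨r1, r2, r3, _⟩ := hREL r V G f π
  have hpi : π i' = i' := h2 _ (by omega)
  have hpj : π j' = j' := h2 _ (by omega)
  have h5 := (r3 w p q i' j' hT).1
  rw [hpi, hpj] at h5
  refine hISO1 r V V' G G' _ f' w p q w' p' q' i' j' h5 hT' ?_ ?_
  · intro t
    have := r1 (π.symm t)
    rw [Equiv.apply_symm_apply] at this
    rw [this, hz, hz']
    have := h1 (π.symm t)
    rw [Equiv.apply_symm_apply] at this
    exact this.symm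
  · intro t
    have := r2 w (π.symm t)
    rw [Equiv.apply_symm_apply] at this
    rw [this]
    have := h3 (π.symm t)
    rw [Equiv.apply_symm_apply] at this
    exact this.symm

theorem prfFIN1 : ISO_statement → MEM1_statement → GV_statement → ISO1_statement →
    REL_statement → TOP1_statement → EVF1_statement → ORD1_statement → FIN1_statement := by
  intro hISO hMEM1 hGV hISO1 hREL hTOP1 hEVF1 hORD1 r ε hr hε
  obtain ⟨n₁, h1⟩ := hTOP1 r ε hr hε
  obtain ⟨n₂, h2⟩ := hEVF1 r ε hr hε
  obtain ⟨n₃, h3⟩ := hORD1 r ε hr hε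
  refine ⟨n₁ + n₂ + n₃ + 2 * r, ?_⟩
  intro n hn D hD
  have hiso : ∀ (V V' : Type) [Fintype V] [Fintype V'] (G : SimpleGraph V)
      (G' : SimpleGraph V'), IsG1 r n D G → IsG1 r n D G' → Nonempty (G ≃g G') :=
    fun V V' _ _ G G' h h' => FIN1_iso hr hREL hGV hISO1 h h'
  obtain ⟨hex, hall⟩ := h1 n (by omega) D hD
  have hmx : ∀ (V : Type) [Fintype V] (G : SimpleGraph V), Mx r n D G → IsG1 r n D G := by
    intro V _ G hG
    obtain ⟨f, w, p, p', i, j, hT, hB, hs⟩ := hall V G hG
    have hT' : Th1 G f w p' p j i := ((hREL r V G f 1).2.2.1 w p p' i j hT).2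
    have o1 := h3 n (by omega) D hD V G f w p p' i j hG hT hB hs
    have o2 := h3 n (by omega) D hD V G f w p' p j i hG hT' hB hs
    obtain ⟨e1, e2, _⟩ := h2 n (by omega) D hD V G f w p p' i j hG hT hB hs
    rcases le_total (siz f j) (siz f i) with h | h
    · exact FIN1_mx (ε := ε) hr hREL hT hB hs o1 (fun k hk1 hk2 => o2 k hk2 hk1) h ⟨e1, e2⟩
    · exact FIN1_mx (ε := ε) hr hREL hT' hB hs o2 (fun k hk1 hk2 => o1 k hk2 hk1) h
        ⟨fun k l a b c d => e1 k l b a d c, fun k l a b c d => e2 k l b a d c⟩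
  refine ⟨hex, ?_, hiso⟩
  intro V _ G
  refine ⟨hmx V G, ?_⟩
  intro hG
  obtain ⟨k, G₀, hG₀⟩ := hex
  obtain ⟨e⟩ := hiso V (Fin k) G G₀ hG (hmx (Fin k) G₀ hG₀)
  have hlam : lam G = lam G₀ := hISO V (Fin k) G G₀ ⟨e⟩
  obtain ⟨f, w, p, q, i, j, hi, hj, hT, hz, hs, he, hg⟩ := hG
  have hsum : ∑ t, siz f t = n := by
    rw [Finset.sum_congr rfl fun t _ => hz t]
    exact DEV_sum r n (by omega)
  have hge : ∀ t, 2 ≤ siz f t := by
    intro t
    rw [hz t]
    unfold tz
    have : 2 ≤ n / r := (Nat.le_div_iff_mul_le (by omega)).2 (by omega)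
    omega
  obtain ⟨m1, m2, m3, m4⟩ := hMEM1 r V G f w p q i j hr hT hge
  have hSz := DEV_sz r n (by omega : 1 ≤ r)
  unfold Sz at hSz
  rw [DEV_sum r n (by omega : 1 ≤ r)] at hSz
  rw [hsum, hs, Finset.sum_congr rfl fun t _ => congrArg (· ^ 2) (hz t)] at m4
  refine ⟨⟨m1, by omega, m3, m2⟩, ?_⟩
  intro U _ H hH
  rw [hlam]
  exact hG₀.2 U H hH

end MP0c3a8f

end

section

/-!
# MP_0c3a8f_co, phase B: item FIN2 (the second theorem)
-/

open Finset

namespace MP0c3a8f

namespace FIN2

/-- permutation which maps the classes to the classes of the Turán graph of the same size and a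
class of maximal size to class `0` -/
theorem exists_perm {r n : ℕ} (σ : Fin r → ℕ) (i : Fin r)
    (hσ : ∀ t, n / r ≤ σ t ∧ σ t ≤ n / r + 1) (hs : ∑ t, σ t = n) (hi : ∀ t, σ t ≤ σ i) :
    ∃ π : Equiv.Perm (Fin r), (π i).val = 0 ∧ ∀ t, σ t = tz r n (π t) := by
  classical
  have hr : 0 < r := i.pos
  have hval : ∀ t, σ t = n / r + if σ t = n / r + 1 then 1 else 0 := by
    intro t
    rcases Nat.lt_or_ge (σ t) (n / r + 1) with h | h
    · rw [if_neg (by omega)]
      have := (hσ t).1
      omega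
    · rw [if_pos (by have := (hσ t).2; omega)]
      have := (hσ t).2
      omega
  have hL : (univ.filter fun t : Fin r => σ t = n / r + 1).card = n % r := by
    have h1 : ∑ t, σ t = ∑ t : Fin r, (n / r + if σ t = n / r + 1 then 1 else 0) :=
      Finset.sum_congr rfl fun t _ => hval t
    rw [hs, Finset.sum_add_distrib, Finset.sum_const, Finset.card_univ, Fintype.card_fin,
      smul_eq_mul, ← Finset.card_filter] at h1
    have h2 := Nat.div_add_mod n r
    omega
  have hP : (univ.filter fun t : Fin r => t.val < n % r).card = n % r := by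
    have h1 : n % r < r := Nat.mod_lt _ hr
    rw [Fin.card_filter_val_lt]
    omega
  have hcard : Fintype.card {t : Fin r // σ t = n / r + 1}
      = Fintype.card {t : Fin r // t.val < n % r} := by
    rw [Fintype.card_subtype, Fintype.card_subtype, hL, hP]
  obtain ⟨e⟩ := Fintype.card_eq.mp hcard
  have he1 : ∀ t, σ t = n / r + 1 → (e.extendSubtype t).val < n % r := fun t ht =>
    e.extendSubtype_mem t ht
  have he2 : ∀ t, ¬ σ t = n / r + 1 → ¬ (e.extendSubtype t).val < n % r := fun t ht =>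
    e.extendSubtype_not_mem t ht
  set ρ : Equiv.Perm (Fin r) := e.extendSubtype with hρ
  set o : Fin r := ⟨0, hr⟩ with ho
  have hio : (ρ i).val < n % r ↔ o.val < n % r := by
    constructor
    · intro h
      exact lt_of_le_of_lt (Nat.zero_le _) h
    · intro h
      have h1 : 0 < (univ.filter fun t : Fin r => σ t = n / r + 1).card := by
        rw [hL]
        exact h
      obtain ⟨k, hk⟩ := Finset.card_pos.mp h1
      rw [Finset.mem_filter] at hk
      have h2 := hi k
      have h3 := (hσ i).2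
      exact he1 i (by omega)
  refine ⟨ρ.trans (Equiv.swap (ρ i) o), ?_, ?_⟩
  · rw [Equiv.trans_apply, Equiv.swap_apply_left]
  · intro t
    have hmem : (ρ t).val < n % r ↔ (Equiv.swap (ρ i) o (ρ t)).val < n % r := by
      by_cases h1 : ρ t = ρ i
      · rw [h1, Equiv.swap_apply_left]
        exact hio
      · by_cases h2 : ρ t = o
        · rw [h2, Equiv.swap_apply_right]
          exact hio.symm
        · rw [Equiv.swap_apply_of_ne_of_ne h1 h2]
    rw [Equiv.trans_apply, tz, hval t]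
    congr 1
    by_cases h : σ t = n / r + 1
    · rw [if_pos h, if_pos (hmem.mp (he1 t h))]
    · rw [if_neg h, if_neg fun h' => he2 t h (hmem.mpr h')]

theorem nbn_le {V : Type} [Fintype V] {r : ℕ} (G : SimpleGraph V) (f : V → Option (Fin r))
    (w : V) (t : Fin r) : nbn G f w t ≤ siz f t :=
  Set.ncard_le_ncard (fun _ hv => hv.1) (Set.toFinite _)

theorem exc_transport {V : Type} {r : ℕ} (G : SimpleGraph V) (w : V) (v : Fin r → V)
    (i : Fin r) (π : Equiv.Perm (Fin r)) (h : ∃! t, t ≠ i ∧ ¬ G.Adj w (v t)) :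
    ∃! t, t ≠ π i ∧ ¬ G.Adj w (v (π.symm t)) := by
  obtain ⟨t₀, ⟨h1, h2⟩, h3⟩ := h
  refine ⟨π t₀, ⟨fun h => h1 (π.injective h), ?_⟩, ?_⟩
  · rw [Equiv.symm_apply_apply]
    exact h2
  · intro s hs
    have h4 : π.symm s = t₀ := by
      apply h3
      refine ⟨fun h => hs.1 ?_, hs.2⟩
      rw [← h, Equiv.apply_symm_apply]
    rw [← h4, Equiv.apply_symm_apply]

theorem tz_cases (r n : ℕ) (t : Fin r) : tz r n t = n / r ∨ tz r n t = n / r + 1 := by
  unfold tz
  split_ifs
  · exact Or.inr rfl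
  · exact Or.inl rfl

/-- one direction -/
theorem isG2_of (hREL : REL_statement) {r n D : ℕ} {V : Type} [Fintype V]
    (G : SimpleGraph V) (f : V → Option (Fin r)) (w u : V) (v : Fin r → V) (i : Fin r)
    (hTh : Th2 G f w u v i) (hBal : Bal n f) (hsum : ∑ t, nbn G f w t + r = D)
    (hexc : ∃! t, t ≠ i ∧ ¬ G.Adj w (v t))
    (hev1 : ∀ k l, k ≠ i → l ≠ i → siz f k = siz f l → nbn G f w k ≤ nbn G f w l + 1)
    (hev2 : ∀ k l, k ≠ i → l ≠ i → siz f k = siz f l + 1 → 2 ≤ nbn G f w k →
      nbn G f w l = siz f l)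
    (hord : ∀ k, siz f k ≤ siz f i) : IsG2 r n D G := by
  obtain ⟨π, hπ0, hπ⟩ := exists_perm (siz f) i hBal.1 hBal.2 hord
  obtain ⟨h1, h2, -, h4⟩ := hREL r V G f π
  have hne : ∀ s : Fin r, 1 ≤ s.val → π.symm s ≠ i := by
    intro s hs h
    have h5 : s = π i := by rw [← h, Equiv.apply_symm_apply]
    rw [h5] at hs
    omega
  have hsz : ∀ s : Fin r, siz f (π.symm s) = tz r n s := by
    intro s
    rw [hπ, Equiv.apply_symm_apply]
  have hnb : ∀ s : Fin r, nbn G (fun v => (f v).map π) w s = nbn G f w (π.symm s) := by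
    intro s
    rw [← h2 w (π.symm s), Equiv.apply_symm_apply]
  refine ⟨fun v => (f v).map π, w, u, fun t => v (π.symm t), π i, hπ0, h4 w u v i hTh,
    exc_transport G w v i π hexc, ?_, ?_, ?_, ?_⟩
  · intro t
    rw [← hsz t, ← h1 (π.symm t), Equiv.apply_symm_apply]
  · rw [← Equiv.sum_comp π]
    simp_rw [h2 w]
    exact hsum
  · intro s t hs ht hst
    rw [hnb, hnb]
    exact hev1 _ _ (hne s hs) (hne t ht) (by rw [hsz, hsz, hst])
  · intro s t hs ht hst h2'
    rw [hnb] at h2' ⊢
    rw [← hsz t]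
    refine hev2 _ _ (hne s hs) (hne t ht) ?_ h2'
    rw [hsz, hsz]
    rcases tz_cases r n s with h | h <;> rcases tz_cases r n t with h' | h' <;> omega

/-- two graphs of the second family have the same spectral radius and the same size -/
theorem eq_of (hMEM : MEM2_statement) (hGV : GV_statement) (hREL : REL_statement)
    (hTI : TI2_statement) {r n D : ℕ} (hr : 3 ≤ r) (hn : r ≤ n) {V V' : Type} [Fintype V]
    [Fintype V'] (G : SimpleGraph V) (H : SimpleGraph V') (hG : IsG2 r n D G)
    (hH : IsG2 r n D H) : lam G = lam H ∧ G.edgeSet.ncard = H.edgeSet.ncard ∧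
      (⊤ : SimpleGraph (Fin (r + 1))).Free G ∧ ¬ G.Colorable r ∧ (∀ v, ∃ u, G.Adj v u) := by
  obtain ⟨f, w, u, v, i, hi, hTh, hexc, hsz, hsum, hev1, hev2⟩ := hG
  obtain ⟨f', w', u', v', i', hi', hTh', hexc', hsz', hsum', hev1', hev2'⟩ := hH
  have hii : i' = i := Fin.ext (by rw [hi, hi'])
  subst hii
  have hpos : ∀ t : Fin r, 1 ≤ tz r n t := by
    intro t
    have h1 : 1 ≤ n / r := (Nat.one_le_div_iff (by omega)).mpr hn
    unfold tz
    omega
  have hne : ∀ t : Fin r, 1 ≤ t.val → t ≠ i' := by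
    intro t ht h
    rw [h] at ht
    omega
  have h0 : ∀ t : Fin r, t.val < 1 → t = i' := by
    intro t ht
    exact Fin.ext (by omega)
  obtain ⟨π, hπ1, hπ2, hπ3⟩ := hGV r n 1 (fun t => nbn G f w t) (fun t => nbn H f' w' t)
    (by
      intro t ht
      show nbn G f w t = nbn H f' w' t
      rw [h0 t ht, hTh.ni, hTh'.ni])
    (by
      show ∑ t, nbn G f w t = ∑ t, nbn H f' w' t
      omega)
    (by
      intro t ht
      refine ⟨hTh.pos t (hne t ht), ?_, hTh'.pos t (hne t ht), ?_⟩
      · rw [← hsz t]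
        exact nbn_le G f w t
      · rw [← hsz' t]
        exact nbn_le H f' w' t)
    (fun s t hs ht hst => ⟨hev1 s t hs ht hst, hev1' s t hs ht hst⟩)
    (fun s t hs ht hst => ⟨hev2 s t hs ht hst, hev2' s t hs ht hst⟩)
  obtain ⟨h1, h2, -, h4⟩ := hREL r V G f π
  have hπi : π i' = i' := hπ2 i' (by omega)
  have hTh2 := h4 w u v i' hTh
  have hexc2 := exc_transport G w v i' π hexc
  rw [hπi] at hTh2 hexc2
  have hszt : ∀ t, siz (fun v => (f v).map π) t = siz f' t := by
    intro t
    have h5 := h1 (π.symm t)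
    rw [Equiv.apply_symm_apply] at h5
    rw [h5, hsz, hsz', ← hπ1, Equiv.apply_symm_apply]
  have hnbt : ∀ t, nbn G (fun v => (f v).map π) w t = nbn H f' w' t := by
    intro t
    have h5 := h2 w (π.symm t)
    have h6 := hπ3 (π.symm t)
    rw [Equiv.apply_symm_apply] at h5 h6
    rw [h5]
    exact h6.symm
  have hlam : lam G = lam H := hTI r V V' G H (fun v => (f v).map π) f' w u w' u'
    (fun t => v (π.symm t)) v' i' hr hTh2.ty hTh'.ty
    (fun t => by rw [hszt, hsz']; exact hpos t) hszt hnbt hexc2 hexc'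
  obtain ⟨m1, m2, m3, m4⟩ := hMEM r V G f w u v i' hr hTh (fun t => by rw [hsz]; exact hpos t)
  obtain ⟨-, -, -, m4'⟩ := hMEM r V' H f' w' u' v' i' hr hTh'
    (fun t => by rw [hsz']; exact hpos t)
  refine ⟨hlam, ?_, m1, m2, m3⟩
  have hse : ∀ t, siz f t = siz f' t := fun t => by rw [hsz, hsz']
  simp_rw [hse] at m4
  omega

end FIN2

theorem prfFIN2 : MEM2_statement → GV_statement → REL_statement → TI2_statement →
    TOP2_statement → EXC2_statement → EVF2_statement → ORD2_statement → FIN2_statement := by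
  intro hMEM hGV hREL hTI hTOP hEXC hEVF hORD r ε hr hε
  obtain ⟨n₁, h₁⟩ := hTOP r ε hr hε
  obtain ⟨n₂, h₂⟩ := hEXC r ε hr hε
  obtain ⟨n₃, h₃⟩ := hEVF r ε hr hε
  obtain ⟨n₄, h₄⟩ := hORD r ε hr hε
  refine ⟨n₁ + n₂ + n₃ + n₄ + r, ?_⟩
  intro n hn D hD
  obtain ⟨hex, hall⟩ := h₁ n (by omega) D hD
  have hfwd : ∀ (V : Type) [Fintype V] (G : SimpleGraph V), Mx r n D G → IsG2 r n D G := by
    intro V _ G hG
    obtain ⟨f, w, u, v, i, hTh, hBal, hsum⟩ := hall V G hG
    obtain ⟨he1, he2⟩ := h₃ n (by omega) D hD V G f w u v i hG hTh hBal hsum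
    exact FIN2.isG2_of hREL G f w u v i hTh hBal hsum
      (h₂ n (by omega) D hD V G f w u v i hG hTh hBal hsum) he1 he2
      (h₄ n (by omega) D hD V G f w u v i hG hTh hBal hsum)
  refine ⟨hex, ?_⟩
  intro V _ G
  refine ⟨hfwd V G, ?_⟩
  intro hG
  obtain ⟨k, H, hH⟩ := hex
  have hH2 := hfwd _ H hH
  obtain ⟨e1, e2, e3, e4, e5⟩ := FIN2.eq_of hMEM hGV hREL hTI hr (by omega) G H hG hH2
  obtain ⟨hin, hmax⟩ := hH
  refine ⟨⟨e3, by rw [e2, hin.size], e5, e4⟩, ?_⟩
  intro U _ K hK
  rw [e1]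
  exact hmax U K hK

end MP0c3a8f

end

section

/-!
# MP_0c3a8f_co, phase B: item GRE
-/

open Finset

namespace MP0c3a8f

lemma GRE.fill {ι : Type} [DecidableEq ι] (c : ι → ℕ) (S : Finset ι) :
    ∀ R : ℕ, (∀ t ∈ S, 1 ≤ c t) → S.card ≤ R → R ≤ ∑ t ∈ S, c t →
    ∃ a : ι → ℕ, (∀ t ∈ S, 1 ≤ a t ∧ a t ≤ c t) ∧ ∑ t ∈ S, a t = R := by
  induction S using Finset.induction_on with
  | empty =>
    intro R _ _ h
    exact ⟨fun _ => 0, by simp, by simpa using (Nat.le_zero.1 h).symm⟩
  | insert s S hs ih =>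
    intro R hc h1 h2
    rw [Finset.card_insert_of_notMem hs] at h1
    rw [Finset.sum_insert hs] at h2
    have hcs : 1 ≤ c s := hc s (Finset.mem_insert_self s S)
    have hcS : ∀ t ∈ S, 1 ≤ c t := fun t ht => hc t (Finset.mem_insert_of_mem ht)
    have hcard : S.card ≤ ∑ t ∈ S, c t := by
      calc S.card = ∑ _t ∈ S, 1 := by simp
        _ ≤ ∑ t ∈ S, c t := Finset.sum_le_sum hcS
    obtain ⟨a, ha, hsum⟩ := ih (R - min (c s) (R - S.card)) hcS (by omega) (by omega)
    refine ⟨Function.update a s (min (c s) (R - S.card)), ?_, ?_⟩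
    · intro t ht
      rcases Finset.mem_insert.1 ht with h | h
      · subst h
        rw [Function.update_self]
        omega
      · have : t ≠ s := fun h' => hs (h' ▸ h)
        rw [Function.update_of_ne this]
        exact ha t h
    · rw [Finset.sum_insert hs, Function.update_self,
        Finset.sum_congr rfl (g := a) (fun t ht => Function.update_of_ne
          (by rintro rfl; exact hs ht) _ _), hsum]
      omega

open Classical in
lemma GRE.fill2 {ι : Type} [Fintype ι] (c : ι → ℕ) (S : Finset ι) (P : ι → Prop) (R : ℕ)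
    (hc : ∀ t ∈ S, 1 ≤ c t) (h1 : S.card ≤ R) (h2 : R ≤ ∑ t ∈ S, c t) :
    ∃ a : ι → ℕ, (∀ t ∈ S, 1 ≤ a t ∧ a t ≤ c t) ∧ ∑ t ∈ S, a t = R ∧
      ((∀ t ∈ S, P t → a t = c t) ∨ ∀ t ∈ S, ¬ P t → a t = 1) := by
  have hcard : (S.filter P).card + (S.filter (fun t => ¬ P t)).card = S.card :=
    Finset.card_filter_add_card_filter_not P
  have hsum : ∀ f : ι → ℕ, ∑ t ∈ S.filter P, f t + ∑ t ∈ S.filter (fun t => ¬ P t), f t =
      ∑ t ∈ S, f t := fun f => Finset.sum_filter_add_sum_filter_not S P f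
  have hc1 : ∀ t ∈ S.filter P, 1 ≤ c t := fun t ht => hc t (Finset.mem_filter.1 ht).1
  have hc2 : ∀ t ∈ S.filter (fun t => ¬ P t), 1 ≤ c t := fun t ht =>
    hc t (Finset.mem_filter.1 ht).1
  have hs := hsum c
  rcases le_total (∑ t ∈ S.filter P, c t + (S.filter (fun t => ¬ P t)).card) R with h | h
  · obtain ⟨a, ha, hsa⟩ := GRE.fill c (S.filter (fun t => ¬ P t)) (R - ∑ t ∈ S.filter P, c t) hc2
      (by omega) (by omega)
    refine ⟨fun t => if P t then c t else a t, ?_, ?_, Or.inl ?_⟩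
    · intro t ht
      simp only
      split_ifs with hP
      · exact ⟨hc t ht, le_rfl⟩
      · exact ha t (Finset.mem_filter.2 ⟨ht, hP⟩)
    · rw [← hsum, Finset.sum_congr rfl (g := c)
        (fun t ht => if_pos (Finset.mem_filter.1 ht).2),
        Finset.sum_congr (rfl : S.filter (fun t => ¬ P t) = _) (g := a)
        (fun t ht => if_neg (Finset.mem_filter.1 ht).2), hsa]
      have e : (S.filter P).sum c = ∑ t ∈ S.filter P, c t := rfl
      omega
    · intro t _ hP
      simp only [if_pos hP]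
  · obtain ⟨a, ha, hsa⟩ := GRE.fill c (S.filter P) (R - (S.filter (fun t => ¬ P t)).card) hc1
      (by omega) (by omega)
    refine ⟨fun t => if P t then a t else 1, ?_, ?_, Or.inr ?_⟩
    · intro t ht
      simp only
      split_ifs with hP
      · exact ha t (Finset.mem_filter.2 ⟨ht, hP⟩)
      · exact ⟨le_rfl, hc t ht⟩
    · rw [← hsum, Finset.sum_congr rfl (g := a)
        (fun t ht => if_pos (Finset.mem_filter.1 ht).2),
        Finset.sum_congr (rfl : S.filter (fun t => ¬ P t) = _) (g := fun _ => 1)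
        (fun t ht => if_neg (Finset.mem_filter.1 ht).2), hsa]
      simp only [Finset.sum_const, smul_eq_mul, mul_one]
      omega
    · intro t _ hP
      simp only [if_neg hP]

lemma GRE.card_ge (r k : ℕ) (hk : k ≤ r) :
    (Finset.univ.filter (fun t : Fin r => k ≤ t.val)).card = r - k ∧
    (Finset.univ.filter (fun t : Fin r => ¬ k ≤ t.val)).card = k := by
  have h2 : (Finset.univ.filter (fun t : Fin r => ¬ k ≤ t.val)).card = k := by
    have e : (Finset.univ.filter (fun t : Fin r => ¬ k ≤ t.val)) =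
        (Finset.univ : Finset (Fin k)).map ⟨Fin.castLE hk, Fin.castLE_injective hk⟩ := by
      ext t
      simp only [Finset.mem_filter, Finset.mem_univ, true_and, Finset.mem_map,
        Function.Embedding.coeFn_mk, not_le]
      constructor
      · intro h
        exact ⟨⟨t.val, h⟩, by ext; simp⟩
      · rintro ⟨s, rfl⟩
        simp
    rw [e, Finset.card_map, Finset.card_univ, Fintype.card_fin]
  have h1 := Finset.card_filter_add_card_filter_not (s := (Finset.univ : Finset (Fin r)))
    (fun t : Fin r => k ≤ t.val)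
  rw [h2, Finset.card_univ, Fintype.card_fin] at h1
  exact ⟨by omega, h2⟩

lemma GRE.sum_tz (r n k : ℕ) (hk : k ≤ r) :
    (r - k) * (n / r) ≤ ∑ t ∈ Finset.univ.filter (fun t : Fin r => k ≤ t.val), tz r n t := by
  calc (r - k) * (n / r) = ∑ _t ∈ Finset.univ.filter (fun t : Fin r => k ≤ t.val), n / r := by
        rw [Finset.sum_const, (GRE.card_ge r k hk).1, smul_eq_mul]
    _ ≤ _ := Finset.sum_le_sum fun t _ => by unfold tz; exact Nat.le_add_right _ _

theorem prfGRE : DEV_statement → GRE_statement := by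
  intro _ r ε hr hε
  obtain ⟨n₁, hn₁⟩ := exists_nat_ge (3 * (2 * r) / ε)
  refine ⟨max n₁ r, ?_⟩
  intro n hn D hD1 hD2
  have hnr : r ≤ n := (le_max_right _ _).trans hn
  have hrR : (3 : ℝ) ≤ r := by exact_mod_cast hr
  have hnR : 3 * (2 * r) / ε ≤ n := hn₁.trans (by exact_mod_cast (le_max_left _ _).trans hn)
  rw [div_le_iff₀ hε] at hnR
  have hq : 2 / 3 ≤ qq r := by
    unfold qq
    have : 1 / (r : ℝ) ≤ 1 / 3 := one_div_le_one_div_of_le (by norm_num) hrR
    linarith
  have hq1 : qq r ≤ 1 := by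
    unfold qq
    have : 0 ≤ 1 / (r : ℝ) := by positivity
    linarith
  have hn0 : (0 : ℝ) ≤ n := Nat.cast_nonneg n
  have hεn : 2 * (2 * (r : ℝ)) ≤ ε * (qq r * n) := by
    have : ε * (2 / 3 * n) ≤ ε * (qq r * n) := by gcongr
    nlinarith
  have hDl : 4 * r ≤ D := by
    have : (4 * r : ℝ) ≤ D := by linarith
    exact_mod_cast this
  have hpos : 1 ≤ n / r := by
    rw [Nat.one_le_div_iff (by omega)]
    exact hnr
  have hDu : (D : ℝ) + 4 * r ≤ (r - 2) * (n / r) := by
    have e1 : (1 - 2 / (r : ℝ) - ε) * (qq r * n) ≤ (1 - 2 / (r : ℝ)) * n - ε * (qq r * n) := by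
      have h1 : 0 ≤ 1 - 2 / (r : ℝ) := by
        rw [sub_nonneg, div_le_one (by linarith)]
        linarith
      have h2 : (1 - 2 / (r : ℝ)) * (qq r * n) ≤ (1 - 2 / (r : ℝ)) * n := by
        apply mul_le_mul_of_nonneg_left _ h1
        nlinarith
      linarith
    have e2 : (1 - 2 / (r : ℝ)) * n = (r - 2) * (n / r) := by
      field_simp
    linarith
  have hfl : (n : ℝ) / r ≤ ((n / r : ℕ) : ℝ) + 1 := by
    rw [div_le_iff₀ (by linarith)]
    have := Nat.lt_div_mul_add (a := n) (b := r) (by omega)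
    have h2 : (n : ℝ) ≤ (n / r : ℕ) * r + r := by exact_mod_cast this.le
    linarith
  have hDn : D + r ≤ (r - 2) * (n / r) := by
    have h1 : (D : ℝ) + r ≤ ((r - 2 : ℕ) : ℝ) * ((n / r : ℕ) : ℝ) := by
      rw [Nat.cast_sub (by omega)]
      push_cast
      have h2 : ((r : ℝ) - 2) * (n / r) ≤ (r - 2) * (((n / r : ℕ) : ℝ) + 1) := by
        apply mul_le_mul_of_nonneg_left hfl
        linarith
      linarith
    exact_mod_cast h1
  have htz : ∀ t : Fin r, 1 ≤ tz r n t := fun t => by
    unfold tz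
    omega
  constructor
  · -- type one
    obtain ⟨c1, c2⟩ := GRE.card_ge r 2 (by omega)
    have s1 := GRE.sum_tz r n 2 (by omega)
    obtain ⟨a, ha1, ha2, ha3⟩ := GRE.fill2 (tz r n)
      (Finset.univ.filter (fun t : Fin r => 2 ≤ t.val)) (fun t => tz r n t = n / r) (D - 1)
      (fun t _ => htz t) (by omega) (by omega)
    refine ⟨fun t => if 2 ≤ t.val then a t else 1, ?_, ?_, ?_, ?_⟩
    · intro t ht
      simp only
      rw [if_neg (by omega)]
    · intro t
      simp only
      split_ifs with h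
      · exact ha1 t (Finset.mem_filter.2 ⟨Finset.mem_univ t, h⟩)
      · exact ⟨le_rfl, htz t⟩
    · rw [← Finset.sum_filter_add_sum_filter_not Finset.univ (fun t : Fin r => 2 ≤ t.val),
        Finset.sum_congr rfl (g := a) (fun t ht => if_pos (Finset.mem_filter.1 ht).2),
        Finset.sum_congr (rfl : Finset.univ.filter (fun t : Fin r => ¬ 2 ≤ t.val) = _)
          (g := fun _ => 1) (fun t ht => if_neg (Finset.mem_filter.1 ht).2), ha2]
      simp only [Finset.sum_const, smul_eq_mul, mul_one]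
      omega
    · rcases ha3 with h | h
      · left
        intro t ht h1
        simp only [if_pos ht]
        exact h t (Finset.mem_filter.2 ⟨Finset.mem_univ t, ht⟩) h1
      · right
        intro t ht h1
        simp only [if_pos ht]
        exact h t (Finset.mem_filter.2 ⟨Finset.mem_univ t, ht⟩) (by omega)
  · -- type two
    obtain ⟨c1, c2⟩ := GRE.card_ge r 1 (by omega)
    have s1 := GRE.sum_tz r n 1 (by omega)
    have s2 : (r - 2) * (n / r) ≤ (r - 1) * (n / r) := Nat.mul_le_mul_right _ (by omega)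
    obtain ⟨a, ha1, ha2, ha3⟩ := GRE.fill2 (tz r n)
      (Finset.univ.filter (fun t : Fin r => 1 ≤ t.val)) (fun t => tz r n t = n / r) (D - r)
      (fun t _ => htz t) (by omega) (by omega)
    refine ⟨fun t => if 1 ≤ t.val then a t else 0, ?_, ?_, ?_, ?_, ?_⟩
    · intro t ht
      simp only
      rw [if_neg (by omega)]
    · intro t ht
      simp only
      rw [if_pos (by omega)]
      exact (ha1 t (Finset.mem_filter.2 ⟨Finset.mem_univ t, by omega⟩)).1
    · intro t
      simp only
      split_ifs with h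
      · exact (ha1 t (Finset.mem_filter.2 ⟨Finset.mem_univ t, h⟩)).2
      · exact Nat.zero_le _
    · rw [← Finset.sum_filter_add_sum_filter_not Finset.univ (fun t : Fin r => 1 ≤ t.val),
        Finset.sum_congr rfl (g := a) (fun t ht => if_pos (Finset.mem_filter.1 ht).2),
        Finset.sum_congr (rfl : Finset.univ.filter (fun t : Fin r => ¬ 1 ≤ t.val) = _)
          (g := fun _ => 0) (fun t ht => if_neg (Finset.mem_filter.1 ht).2), ha2]
      simp only [Finset.sum_const, smul_eq_mul, mul_zero]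
      omega
    · rcases ha3 with h | h
      · left
        intro t ht h1
        simp only [if_pos ht]
        exact h t (Finset.mem_filter.2 ⟨Finset.mem_univ t, ht⟩) h1
      · right
        intro t ht h1
        simp only [if_pos ht]
        exact h t (Finset.mem_filter.2 ⟨Finset.mem_univ t, ht⟩) (by omega)

end MP0c3a8f

end

section

/-! (GV) uniqueness of greedy vectors. -/

open Finset

namespace MP0c3a8f

namespace GV

/-- two functions with equal fibre cardinalities differ by a permutation -/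
theorem exists_perm {α γ : Type} [Fintype α] [DecidableEq γ] (A B : α → γ)
    (h : ∀ c, #{t | A t = c} = #{t | B t = c}) : ∃ π : Equiv.Perm α, ∀ t, B (π t) = A t := by
  classical
  have e : ∀ c, Nonempty ({t // A t = c} ≃ {t // B t = c}) := by
    intro c
    rw [← Fintype.card_eq]
    rw [Fintype.card_subtype, Fintype.card_subtype]
    exact h c
  let e' := fun c => Classical.choice (e c)
  refine ⟨(Equiv.sigmaFiberEquiv A).symm.trans
    ((Equiv.sigmaCongrRight e').trans (Equiv.sigmaFiberEquiv B)), fun t => ?_⟩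
  exact (e' (A t) ⟨t, rfl⟩).2

/-- a balanced function takes the values `S / m` and `S / m + 1` -/
theorem bal_val {α : Type} (G : Finset α) (a : α → ℕ) (hb : ∀ s ∈ G, ∀ t ∈ G, a s ≤ a t + 1)
    {t : α} (ht : t ∈ G) : (∑ s ∈ G, a s) / #G ≤ a t ∧ a t ≤ (∑ s ∈ G, a s) / #G + 1 := by
  classical
  have hm : 0 < #G := card_pos.mpr ⟨t, ht⟩
  have h1 : ∑ s ∈ G, a s < #G * (a t + 1) := by
    have : ∑ s ∈ G, a s < ∑ s ∈ G, (a t + 1) :=
      sum_lt_sum (fun s hs => hb s hs t ht) ⟨t, ht, Nat.lt_succ_self _⟩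
    simpa using this
  have h2 : #G * a t < ∑ s ∈ G, a s + #G := by
    have : ∑ s ∈ G, a t < ∑ s ∈ G, (a s + 1) :=
      sum_lt_sum (fun s hs => hb t ht s hs) ⟨t, ht, Nat.lt_succ_self _⟩
    simpa [sum_add_distrib] using this
  constructor
  · have := (Nat.div_lt_iff_lt_mul hm).mpr (by rwa [mul_comm] at h1)
    omega
  · by_contra hc
    push Not at hc
    have h3 : (∑ s ∈ G, a s) / #G + 2 ≤ a t := by omega
    have h4 : ∑ s ∈ G, a s < #G * ((∑ s ∈ G, a s) / #G + 1) := by
      have := Nat.lt_mul_div_succ (∑ s ∈ G, a s) hm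
      simpa using this
    have h5 : #G * ((∑ s ∈ G, a s) / #G + 2) ≤ #G * a t := Nat.mul_le_mul_left _ h3
    have h6 : #G * ((∑ s ∈ G, a s) / #G + 2) = #G * ((∑ s ∈ G, a s) / #G + 1) + #G := by ring
    omega

theorem bal_count {α : Type} (G : Finset α) (a : α → ℕ) (hb : ∀ s ∈ G, ∀ t ∈ G, a s ≤ a t + 1) :
    #{t ∈ G | a t = (∑ s ∈ G, a s) / #G + 1} = (∑ s ∈ G, a s) - #G * ((∑ s ∈ G, a s) / #G) := by
  classical
  have h1 : ∑ s ∈ G, a s = ∑ s ∈ G, ((∑ s ∈ G, a s) / #G +
      if a s = (∑ s ∈ G, a s) / #G + 1 then 1 else 0) := by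
    refine sum_congr rfl fun t ht => ?_
    have := bal_val G a hb ht
    split_ifs with h
    · exact h
    · omega
  rw [sum_add_distrib, sum_const, smul_eq_mul, sum_boole] at h1
  simp only [Nat.cast_id] at h1
  omega

theorem bal_eq {α : Type} (G : Finset α) (a b : α → ℕ)
    (ha : ∀ s ∈ G, ∀ t ∈ G, a s ≤ a t + 1) (hb : ∀ s ∈ G, ∀ t ∈ G, b s ≤ b t + 1)
    (hs : ∑ s ∈ G, a s = ∑ s ∈ G, b s) (y : ℕ) : #{t ∈ G | a t = y} = #{t ∈ G | b t = y} := by
  classical
  set k := (∑ s ∈ G, a s) / #G with hk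
  have hk' : (∑ s ∈ G, b s) / #G = k := by rw [← hs]
  have va : ∀ t ∈ G, k ≤ a t ∧ a t ≤ k + 1 := fun t ht => bal_val G a ha ht
  have vb : ∀ t ∈ G, k ≤ b t ∧ b t ≤ k + 1 := fun t ht => by
    have := bal_val G b hb ht
    rwa [hk'] at this
  have c1 : #{t ∈ G | a t = k + 1} = #{t ∈ G | b t = k + 1} := by
    have e1 := bal_count G a ha
    have e2 := bal_count G b hb
    rw [hk'] at e2
    rw [e1, e2, hs, hk']
  rcases eq_or_ne y (k + 1) with rfl | h1
  · exact c1
  rcases eq_or_ne y k with h2 | h2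
  · rw [h2]
    have s1 : ∀ c : α → ℕ, (∀ t ∈ G, k ≤ c t ∧ c t ≤ k + 1) →
        #{t ∈ G | c t = k} + #{t ∈ G | c t = k + 1} = #G := by
      intro c hc
      have h5 : ({t ∈ G | c t = k + 1} : Finset α) = {t ∈ G | ¬ c t = k} := by
        refine filter_congr fun t ht => ?_
        have := hc t ht
        omega
      rw [h5]
      exact card_filter_add_card_filter_not (s := G) (fun t => c t = k)
    have := s1 a va
    have := s1 b vb
    omega
  · have z : ∀ c : α → ℕ, (∀ t ∈ G, k ≤ c t ∧ c t ≤ k + 1) → #{t ∈ G | c t = y} = 0 := by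
      intro c hc
      rw [card_eq_zero, filter_eq_empty_iff]
      intro t ht h
      have := hc t ht
      omega
    rw [z a va, z b vb]

end GV

open GV in
theorem prfGV : GV_statement := by
  classical
  intro r n lo a b hlo hsum hbd hbal hgr
  -- the two groups
  have tv : ∀ t : Fin r, tz r n t = n / r ∨ tz r n t = n / r + 1 := by
    intro t
    unfold tz
    split_ifs
    · exact Or.inr rfl
    · exact Or.inl rfl
  set L : Finset (Fin r) := {t | lo ≤ t.val ∧ tz r n t = n / r + 1} with hL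
  set S : Finset (Fin r) := {t | lo ≤ t.val ∧ tz r n t = n / r} with hS
  have mL : ∀ t, t ∈ L ↔ lo ≤ t.val ∧ tz r n t = n / r + 1 := fun t => by simp [hL]
  have mS : ∀ t, t ∈ S ↔ lo ≤ t.val ∧ tz r n t = n / r := fun t => by simp [hS]
  have split : ∀ c : Fin r → ℕ,
      ∑ t, c t = ∑ t with t.val < lo, c t + (∑ t ∈ L, c t + ∑ t ∈ S, c t) := by
    intro c
    rw [← sum_filter_add_sum_filter_not univ (fun t : Fin r => t.val < lo)]
    congr 1
    rw [← sum_union]
    · refine sum_congr ?_ fun _ _ => rfl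
      ext t
      rw [mem_union, mL, mS]
      simp only [mem_filter, mem_univ, true_and, not_lt]
      rcases tv t with h | h <;> rw [h] <;> constructor <;> intro h' <;> tauto
    · rw [disjoint_left]
      intro t h1 h2
      rw [mL] at h1
      rw [mS] at h2
      omega
  have e0 : ∑ t with t.val < lo, a t = ∑ t with t.val < lo, b t :=
    sum_congr rfl fun t ht => hlo t (by simpa using ht)
  have e1 : ∑ t ∈ L, a t + ∑ t ∈ S, a t = ∑ t ∈ L, b t + ∑ t ∈ S, b t := by
    have h1 := split a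
    have h2 := split b
    omega
  -- comparison
  have key : ∀ c d : Fin r → ℕ, (∀ t ∈ L, 1 ≤ c t ∧ 1 ≤ d t) → (∀ t ∈ S, d t ≤ tz r n t) →
      (∀ s ∈ L, ∀ t ∈ S, 2 ≤ c s → c t = tz r n t) →
      ∑ t ∈ L, c t + ∑ t ∈ S, c t = ∑ t ∈ L, d t + ∑ t ∈ S, d t →
      ∑ t ∈ S, d t ≤ ∑ t ∈ S, c t := by
    intro c d h1 h2 h3 h4
    by_cases h5 : ∃ s ∈ L, 2 ≤ c s
    · obtain ⟨s, hs, hs2⟩ := h5
      exact sum_le_sum fun t ht => by rw [h3 s hs t ht hs2]; exact h2 t ht
    · push Not at h5
      have h6 : ∑ t ∈ L, c t ≤ ∑ t ∈ L, d t := sum_le_sum fun t ht => by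
        have := h5 t ht
        have := (h1 t ht).2
        omega
      omega
  have lt' : ∀ s ∈ L, ∀ t ∈ S, tz r n t < tz r n s := by
    intro s hs t ht
    rw [mL] at hs
    rw [mS] at ht
    omega
  have k1 := key a b (fun t ht => ⟨(hbd t ((mL t).mp ht).1).1, (hbd t ((mL t).mp ht).1).2.2.1⟩)
    (fun t ht => (hbd t ((mS t).mp ht).1).2.2.2)
    (fun s hs t ht => (hgr s t ((mL s).mp hs).1 ((mS t).mp ht).1 (lt' s hs t ht)).1) e1
  have k2 := key b a (fun t ht => ⟨(hbd t ((mL t).mp ht).1).2.2.1, (hbd t ((mL t).mp ht).1).1⟩)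
    (fun t ht => (hbd t ((mS t).mp ht).1).2.1)
    (fun s hs t ht => (hgr s t ((mL s).mp hs).1 ((mS t).mp ht).1 (lt' s hs t ht)).2) e1.symm
  have eS : ∑ t ∈ S, a t = ∑ t ∈ S, b t := le_antisymm k2 k1
  have eL : ∑ t ∈ L, a t = ∑ t ∈ L, b t := by omega
  have cL : ∀ y, #{t ∈ L | a t = y} = #{t ∈ L | b t = y} := bal_eq L a b
    (fun s hs t ht => (hbal s t ((mL s).mp hs).1 ((mL t).mp ht).1
      (((mL s).mp hs).2.trans ((mL t).mp ht).2.symm)).1)
    (fun s hs t ht => (hbal s t ((mL s).mp hs).1 ((mL t).mp ht).1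
      (((mL s).mp hs).2.trans ((mL t).mp ht).2.symm)).2) eL
  have cS : ∀ y, #{t ∈ S | a t = y} = #{t ∈ S | b t = y} := bal_eq S a b
    (fun s hs t ht => (hbal s t ((mS s).mp hs).1 ((mS t).mp ht).1
      (((mS s).mp hs).2.trans ((mS t).mp ht).2.symm)).1)
    (fun s hs t ht => (hbal s t ((mS s).mp hs).1 ((mS t).mp ht).1
      (((mS s).mp hs).2.trans ((mS t).mp ht).2.symm)).2) eS
  -- codes
  let A : (Fin r → ℕ) → Fin r → Fin r ⊕ (ℕ × ℕ) := fun c t =>
    if t.val < lo then Sum.inl t else Sum.inr (tz r n t, c t)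
  obtain ⟨π, hπ⟩ := exists_perm (A a) (A b) (by
    rintro (c | ⟨x, y⟩)
    · congr 1
      refine filter_congr fun t _ => ?_
      simp only [A]
      split_ifs <;> simp
    · by_cases hx : x = n / r + 1
      · subst hx
        have h1 : ∀ c : Fin r → ℕ, ({t | A c t = Sum.inr (n / r + 1, y)} : Finset (Fin r)) =
            {t ∈ L | c t = y} := by
          intro c
          ext t
          rw [mem_filter, mem_filter, mL]
          simp only [A, mem_univ, true_and]
          split_ifs with h2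
          · simp only [false_iff]
            omega
          · rw [Sum.inr.injEq, Prod.mk.injEq]
            constructor
            · intro h3
              exact ⟨⟨by omega, h3.1⟩, h3.2⟩
            · intro h3
              exact ⟨h3.1.2, h3.2⟩
        rw [h1, h1]
        exact cL y
      · by_cases hx' : x = n / r
        · subst hx'
          have h1 : ∀ c : Fin r → ℕ, ({t | A c t = Sum.inr (n / r, y)} : Finset (Fin r)) =
              {t ∈ S | c t = y} := by
            intro c
            ext t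
            rw [mem_filter, mem_filter, mS]
            simp only [A, mem_univ, true_and]
            split_ifs with h2
            · simp only [false_iff]
              omega
            · rw [Sum.inr.injEq, Prod.mk.injEq]
              constructor
              · intro h3
                exact ⟨⟨by omega, h3.1⟩, h3.2⟩
              · intro h3
                exact ⟨h3.1.2, h3.2⟩
          rw [h1, h1]
          exact cS y
        · have h1 : ∀ c : Fin r → ℕ, ({t | A c t = Sum.inr (x, y)} : Finset (Fin r)) = ∅ := by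
            intro c
            rw [filter_eq_empty_iff]
            intro t _
            simp only [A]
            split_ifs with h2
            · simp
            · rw [Sum.inr.injEq, Prod.mk.injEq]
              rintro ⟨h3, -⟩
              rcases tv t with h | h <;> omega
          rw [h1, h1])
  have cases : ∀ t, (t.val < lo → π t = t) ∧
      (lo ≤ t.val → tz r n (π t) = tz r n t ∧ b (π t) = a t) := by
    intro t
    have h1 := hπ t
    simp only [A] at h1
    constructor
    · intro h2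
      rw [if_pos h2] at h1
      split_ifs at h1 with h3
      exact Sum.inl.inj h1
    · intro h2
      rw [if_neg (not_lt.mpr h2)] at h1
      split_ifs at h1 with h3
      exact Prod.mk.inj (Sum.inr.inj h1)
  refine ⟨π, fun t => ?_, fun t => (cases t).1, fun t => ?_⟩
  · rcases lt_or_ge t.val lo with h | h
    · rw [(cases t).1 h]
    · exact ((cases t).2 h).1
  · rcases lt_or_ge t.val lo with h | h
    · rw [(cases t).1 h, hlo t h]
    · exact ((cases t).2 h).2

end MP0c3a8f

end

section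

/-!
# Item KW
-/

open Finset

namespace MP0c3a8f

namespace ItemKW

set_option linter.unusedSectionVars false

variable {V : Type} [Fintype V] {r : ℕ}

/-- the graph without the edges at `U` -/
def G0 (G : SimpleGraph V) (U : Finset V) : SimpleGraph V where
  Adj u v := G.Adj u v ∧ u ∉ U ∧ v ∉ U
  symm := ⟨fun _ _ h => ⟨h.1.symm, h.2.2, h.2.1⟩⟩
  loopless := ⟨fun u h => G.loopless.irrefl u h.1⟩

lemma isKU_G0 {G : SimpleGraph V} {g : V → Option (Fin r)} {U : Finset V} (h : IsKU G g U) :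
    IsKU (G0 G U) g ∅ where
  core := by
    intro u v hu hv
    have h1 : u ∉ U := fun hh => hu (h.exc u hh)
    have h2 : v ∉ U := fun hh => hv (h.exc v hh)
    exact ⟨fun hh => (h.core u v hu hv).1 hh.1, fun hh => ⟨(h.core u v hu hv).2 hh, h1, h2⟩⟩
  exc := by
    intro v hv
    exact absurd hv (Finset.notMem_empty v)
  iso := by
    intro u v hu _ hadj
    exact h.iso u v hu hadj.2.1 hadj.1

lemma nbn_le (G : SimpleGraph V) (g : V → Option (Fin r)) (w : V) (t : Fin r) :
    nbn G g w t ≤ siz g t :=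
  Set.ncard_le_ncard (fun _ hv => hv.1) (Set.toFinite _)

lemma dev_le (g : V → Option (Fin r)) (n : ℕ) (hr : 3 ≤ r) (hn : ∑ t, siz g t = n)
    (h : ∀ t, |(siz g t : ℝ) - (n : ℝ) / r| ≤ n / (4 * (r : ℝ))) : dev (siz g) ≤ (n : ℝ) ^ 2 := by
  have hr' : (3 : ℝ) ≤ r := by exact_mod_cast hr
  have hs : (∑ s, (siz g s : ℝ)) = n := by rw [← hn]; push_cast; rfl
  unfold dev
  rw [hs]
  have h1 : ∀ t ∈ (Finset.univ : Finset (Fin r)), ((siz g t : ℝ) - (n : ℝ) / r) ^ 2 ≤
      (n / (4 * (r : ℝ))) ^ 2 := by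
    intro t _
    rw [← sq_abs]
    exact pow_le_pow_left₀ (abs_nonneg _) (h t) 2
  refine (Finset.sum_le_sum h1).trans ?_
  rw [Finset.sum_const, Finset.card_univ, Fintype.card_fin, nsmul_eq_mul]
  have e : (r : ℝ) * (n / (4 * (r : ℝ))) ^ 2 = (n : ℝ) ^ 2 / (16 * r) := by
    field_simp
    ring
  rw [e, div_le_iff₀ (by positivity)]
  nlinarith [sq_nonneg (n : ℝ)]

lemma sq_step (l l0 s : ℝ) (hl : 0 ≤ l) (hl0 : 0 ≤ l0) (hs : 0 ≤ s) (hs1 : s ≤ 1 / 8)
    (h : l * (1 - 2 * s) ≤ l0 * (1 - s)) : l ^ 2 ≤ l0 ^ 2 + 2 * (s * l ^ 2) + 16 * (s ^ 2 * l ^ 2) := by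
  have h1 : (l * (1 - 2 * s)) ^ 2 ≤ (l0 * (1 - s)) ^ 2 :=
    pow_le_pow_left₀ (mul_nonneg hl (by linarith)) h 2
  have h2 : (1 - 2 * s - 16 * s ^ 2) * (1 - s) ^ 2 ≤ (1 - 2 * s) ^ 2 := by
    have e : (1 - 2 * s) ^ 2 - (1 - 2 * s - 16 * s ^ 2) * (1 - s) ^ 2
        = 15 * s ^ 2 * (1 - 2 * s) + 16 * s ^ 4 := by ring
    have : 0 ≤ 15 * s ^ 2 * (1 - 2 * s) + 16 * s ^ 4 := by
      have : 0 ≤ 1 - 2 * s := by linarith
      positivity
    linarith
  have h3 : (l ^ 2 * (1 - 2 * s - 16 * s ^ 2)) * (1 - s) ^ 2 ≤ l0 ^ 2 * (1 - s) ^ 2 := by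
    calc (l ^ 2 * (1 - 2 * s - 16 * s ^ 2)) * (1 - s) ^ 2
        = l ^ 2 * ((1 - 2 * s - 16 * s ^ 2) * (1 - s) ^ 2) := by ring
      _ ≤ l ^ 2 * (1 - 2 * s) ^ 2 := mul_le_mul_of_nonneg_left h2 (sq_nonneg _)
      _ = (l * (1 - 2 * s)) ^ 2 := by ring
      _ ≤ (l0 * (1 - s)) ^ 2 := h1
      _ = l0 ^ 2 * (1 - s) ^ 2 := by ring
  have h4 : 0 < (1 - s) ^ 2 := by
    have : 0 < 1 - s := by linarith
    positivity
  have h5 := le_of_mul_le_mul_right h3 h4
  linarith [h5, mul_comm (s) (l ^ 2), mul_comm (s ^ 2) (l ^ 2)]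

end ItemKW

open ItemKW in
theorem prfKW : P_statement → KW1_statement → KW2_statement → KW3_statement → KW_statement := by
  intro hP h1 h2 h3 r ε hr hε
  obtain ⟨δ₁, hδ₁, n₁, hn₁⟩ := h1 r ε hr hε
  have hr' : (3 : ℝ) ≤ r := by exact_mod_cast hr
  refine ⟨min δ₁ (1 / (4 * (r : ℝ))), lt_min hδ₁ (by positivity), fun K => ?_⟩
  obtain ⟨C3, n₃, hC3, h3'⟩ := h3 r K hr
  set C' : ℝ := 1 + 2 * C3 with hC'
  have hC'0 : 0 ≤ C' := by positivity
  refine ⟨2 * K * C3 + 1024 * (K : ℝ) ^ 2 * C' ^ 2, max (max n₁ n₃) (max 1 ⌈32 * (K : ℝ) * C'⌉₊),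
    by positivity, ?_⟩
  intro V _ G g U n hKU hU hn hsum hsiz
  have hnn1 : n₁ ≤ n := (le_max_left _ _).trans ((le_max_left _ _).trans hn)
  have hnn3 : n₃ ≤ n := (le_max_right _ _).trans ((le_max_left _ _).trans hn)
  have hn1 : 1 ≤ n := (le_max_left _ _).trans ((le_max_right _ _).trans hn)
  have hnK : 32 * (K : ℝ) * C' ≤ n := by
    have : ⌈32 * (K : ℝ) * C'⌉₊ ≤ n := (le_max_right _ _).trans ((le_max_right _ _).trans hn)
    exact (Nat.le_ceil _).trans (by exact_mod_cast this)
  have hnr : (1 : ℝ) ≤ n := by exact_mod_cast hn1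
  have hsiz4 : ∀ t, |(siz g t : ℝ) - (n : ℝ) / r| ≤ n / (4 * (r : ℝ)) := by
    intro t
    refine (hsiz t).trans ?_
    have : min δ₁ (1 / (4 * (r : ℝ))) * n ≤ 1 / (4 * (r : ℝ)) * n :=
      mul_le_mul_of_nonneg_right (min_le_right _ _) (by positivity)
    refine this.trans (le_of_eq ?_)
    ring
  have hsiz1 : ∀ t, |(siz g t : ℝ) - (n : ℝ) / r| ≤ δ₁ * n := by
    intro t
    exact (hsiz t).trans (mul_le_mul_of_nonneg_right (min_le_left _ _) (by positivity))
  have hne : Nonempty V := by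
    by_contra hcon
    rw [not_nonempty_iff] at hcon
    have : ∀ t, siz g t = 0 := fun t => by
      unfold siz
      rw [Set.eq_empty_of_isEmpty {v | g v = some t}, Set.ncard_empty]
    have h0 : ∑ t, siz g t = 0 := Finset.sum_eq_zero (fun t _ => this t)
    omega
  obtain ⟨hl0, _, x, hx0, hx1, hxe⟩ := hP V G
  obtain ⟨hl00, _, _⟩ := hP V (G0 G U)
  obtain ⟨hln, _, _, hlU⟩ := h3' V G g U x n hKU hU hnn3 hsum hsiz4 hx0 hx1 hxe
  have hdev0 : 0 ≤ Real.sqrt (dev (siz g)) := Real.sqrt_nonneg _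
  have hdev : Real.sqrt (dev (siz g)) ≤ n := by
    rw [Real.sqrt_le_left (by positivity)]
    exact dev_le g n hr hsum hsiz4
  have hl2n : lam G ≤ 2 * n := (h3' V G g U x n hKU hU hnn3 hsum hsiz4 hx0 hx1 hxe).2.1
  set l := lam G with hl
  set D : ℝ := 1 + Real.sqrt (dev (siz g)) with hD
  have hD0 : 0 ≤ D := by positivity
  set s : ℝ := ∑ v ∈ U, x v ^ 2 with hs
  have hs0 : 0 ≤ s := Finset.sum_nonneg (fun v _ => sq_nonneg _)
  set S : ℝ := ∑ v ∈ U, ((∑ t, nbn G g v t : ℕ) : ℝ) ^ 2 with hS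
  -- the sum of the squares
  have e1 : s * l ^ 2 = ∑ v ∈ U, (l * x v) ^ 2 := by
    rw [hs, Finset.sum_mul]
    exact Finset.sum_congr rfl (fun v _ => by ring)
  have hUK : (U.card : ℝ) ≤ K := by exact_mod_cast hU
  have e2 : s * l ^ 2 ≤ S / n + K * (C3 * D) := by
    rw [e1]
    refine (Finset.sum_le_sum (fun v hv => hlU v hv)).trans ?_
    rw [Finset.sum_add_distrib, Finset.sum_const, nsmul_eq_mul, hS, Finset.sum_div]
    have : (U.card : ℝ) * (C3 * D) ≤ K * (C3 * D) :=
      mul_le_mul_of_nonneg_right hUK (by positivity)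
    linarith
  have e3 : s * l ^ 2 ≤ K * (C' * n) := by
    rw [e1]
    have h5 : ∀ v ∈ U, (l * x v) ^ 2 ≤ C' * n := by
      intro v hv
      refine (hlU v hv).trans ?_
      have h6 : ((∑ t, nbn G g v t : ℕ) : ℝ) ≤ n := by
        rw [← hsum]
        exact_mod_cast Finset.sum_le_sum (fun t _ => nbn_le G g v t)
      have h7 : ((∑ t, nbn G g v t : ℕ) : ℝ) ^ 2 / n ≤ n := by
        rw [div_le_iff₀ (by positivity)]
        nlinarith [Nat.cast_nonneg (α := ℝ) (∑ t, nbn G g v t)]
      have h8 : C3 * D ≤ C3 * (2 * n) := by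
        apply mul_le_mul_of_nonneg_left _ hC3
        rw [hD]
        linarith
      rw [hC']
      nlinarith
    refine (Finset.sum_le_sum h5).trans ?_
    rw [Finset.sum_const, nsmul_eq_mul]
    exact mul_le_mul_of_nonneg_right hUK (by positivity)
  have e4 : s * n ≤ 4 * K * C' := by
    have h5 : (n : ℝ) ^ 2 / 4 ≤ l ^ 2 := by nlinarith
    have h6 : s * ((n : ℝ) ^ 2 / 4) ≤ K * (C' * n) := (mul_le_mul_of_nonneg_left h5 hs0).trans e3
    have h7 : (s * n) * n ≤ (4 * K * C') * n := by nlinarith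
    exact le_of_mul_le_mul_right h7 (by positivity)
  have e5 : s ≤ 1 / 8 := by
    have h5 : s * n ≤ (1 / 8) * n := by linarith
    exact le_of_mul_le_mul_right h5 (by positivity)
  obtain ⟨_, k2⟩ := h2 V G (G0 G U) U x (fun u v => Iff.rfl) hx0 hx1 hxe
  have k3 := sq_step l (lam (G0 G U)) s hl0 hl00 hs0 e5 k2
  have k4 := hn₁ V (G0 G U) g (isKU_G0 hKU) (by rw [hsum]; exact hnn1)
    (by rw [hsum]; exact hsiz1)
  rw [hsum] at k4
  have k5 : s ^ 2 * l ^ 2 ≤ 64 * (K : ℝ) ^ 2 * C' ^ 2 := by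
    have h5 : s * l ≤ 8 * K * C' := by
      have : s * l ≤ s * (2 * n) := mul_le_mul_of_nonneg_left hl2n hs0
      linarith
    have h6 : (s * l) ^ 2 ≤ (8 * K * C') ^ 2 := pow_le_pow_left₀ (mul_nonneg hs0 hl0) h5 2
    have h7 : (s * l) ^ 2 = s ^ 2 * l ^ 2 := by ring
    have h8 : (8 * (K : ℝ) * C') ^ 2 = 64 * (K : ℝ) ^ 2 * C' ^ 2 := by ring
    rw [← h7, ← h8]
    exact h6
  have k6 : 1024 * (K : ℝ) ^ 2 * C' ^ 2 ≤ 1024 * (K : ℝ) ^ 2 * C' ^ 2 * D := by
    have h5 : 1 ≤ D := by rw [hD]; linarith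
    have h6 : 0 ≤ 1024 * (K : ℝ) ^ 2 * C' ^ 2 := by positivity
    nlinarith
  have k7 : 2 * S / n = 2 * (S / n) := by ring
  have k8 : (2 * K * C3 + 1024 * (K : ℝ) ^ 2 * C' ^ 2) * D
      = 2 * (K * (C3 * D)) + 1024 * (K : ℝ) ^ 2 * C' ^ 2 * D := by ring
  rw [k7, k8]
  linarith

end MP0c3a8f

end

section

/-!
# MP_0c3a8f_co, phase B, second part: item FIN3 (the final theorem for complete graphs)
-/

open Finset

namespace MP0c3a8f

namespace FIN3

/-- the graphs of the first family belong to `InN` -/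
theorem in1 (hMEM1 : MEM1_statement) {r n D : ℕ} (hr : 3 ≤ r) (hn : 2 * r ≤ n)
    {V : Type} [Fintype V] (G : SimpleGraph V) (hG : IsG1 r n D G) :
    InN r ((SimpleGraph.turanGraph n r).edgeSet.ncard + D) (⊤ : SimpleGraph (Fin (r + 1))) G := by
  obtain ⟨f, w, p, q, i, j, hi, hj, hT, hz, hs, he, hg⟩ := hG
  have hsum : ∑ t, siz f t = n := by
    rw [Finset.sum_congr rfl fun t _ => hz t]
    exact DEV_sum r n (by omega)
  have hge : ∀ t, 2 ≤ siz f t := by
    intro t
    rw [hz t]
    unfold tz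
    have : 2 ≤ n / r := (Nat.le_div_iff_mul_le (by omega)).2 (by omega)
    omega
  obtain ⟨m1, m2, m3, m4⟩ := hMEM1 r V G f w p q i j hr hT hge
  have hSz := DEV_sz r n (by omega : 1 ≤ r)
  unfold Sz at hSz
  rw [DEV_sum r n (by omega : 1 ≤ r)] at hSz
  rw [hsum, hs, Finset.sum_congr rfl fun t _ => congrArg (· ^ 2) (hz t)] at m4
  exact ⟨m1, by omega, m3, m2⟩

/-- the graphs of the second family belong to `InN` -/
theorem in2 (hMEM2 : MEM2_statement) {r n D : ℕ} (hr : 3 ≤ r) (hn : r ≤ n)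
    {V : Type} [Fintype V] (G : SimpleGraph V) (hG : IsG2 r n D G) :
    InN r ((SimpleGraph.turanGraph n r).edgeSet.ncard + D) (⊤ : SimpleGraph (Fin (r + 1))) G := by
  obtain ⟨f, w, u, v, i, hi, hT, hexc, hz, hs, he, hg⟩ := hG
  have hsum : ∑ t, siz f t = n := by
    rw [Finset.sum_congr rfl fun t _ => hz t]
    exact DEV_sum r n (by omega)
  have hge : ∀ t, 1 ≤ siz f t := by
    intro t
    rw [hz t]
    unfold tz
    have : 1 ≤ n / r := (Nat.one_le_div_iff (by omega)).mpr hn
    omega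
  obtain ⟨m1, m2, m3, m4⟩ := hMEM2 r V G f w u v i hr hT hge
  have hSz := DEV_sz r n (by omega : 1 ≤ r)
  unfold Sz at hSz
  rw [DEV_sum r n (by omega : 1 ≤ r)] at hSz
  rw [hsum, Finset.sum_congr rfl fun t _ => congrArg (· ^ 2) (hz t)] at m4
  exact ⟨m1, by omega, m3, m2⟩

end FIN3

theorem prfFIN3 : ISO_statement → MEM1_statement → MEM2_statement → GV_statement →
    ISO1_statement → REL_statement → TI2_statement → DEV_statement → TOP3_statement →
    EVFR1_statement → ORDR1_statement → EXCR2_statement → EVFR2_statement → ORDR2_statement →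
    FIN3_statement := by
  intro hISO hMEM1 hMEM2 hGV hISO1 hREL hTI _ hTOP hEV1 hOR1 hEX2 hEV2 hOR2 r ε hr hε
  obtain ⟨n₁, h₁⟩ := hTOP r ε hr hε
  obtain ⟨n₂, h₂⟩ := hEV1 r ε hr hε
  obtain ⟨n₃, h₃⟩ := hOR1 r ε hr hε
  obtain ⟨n₄, h₄⟩ := hEX2 r ε hr hε
  obtain ⟨n₅, h₅⟩ := hEV2 r ε hr hε
  obtain ⟨n₆, h₆⟩ := hOR2 r ε hr hε
  refine ⟨n₁ + n₂ + n₃ + n₄ + n₅ + n₆ + 2 * r, ?_⟩
  intro n hn D hD
  obtain ⟨hex, hall⟩ := h₁ n (by omega) D hD
  have hsplit : ∀ (V : Type) [Fintype V] (G : SimpleGraph V), Mx r n D G →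
      (-ε < gap r n D ∧ IsG1 r n D G) ∨ (gap r n D < ε ∧ IsG2 r n D G) := by
    intro V _ G hG
    rcases hall V G hG with ⟨hgap, f, w, p, p', i, j, hT, hB, hs⟩ |
      ⟨hgap, f, w, u, v, i, hT, hB, hs⟩
    · refine Or.inl ⟨hgap, ?_⟩
      have hT' : Th1 G f w p' p j i := ((hREL r V G f 1).2.2.1 w p p' i j hT).2
      have o1 := h₃ n (by omega) D hD V G f w p p' i j hG hT hB hs
      have o2 := h₃ n (by omega) D hD V G f w p' p j i hG hT' hB hs
      obtain ⟨e1, e2, _⟩ := h₂ n (by omega) D hD V G f w p p' i j hG hT hB hs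
      rcases le_total (siz f j) (siz f i) with h | h
      · exact FIN1_mx (ε := ε) hr hREL hT hB hs o1 (fun k hk1 hk2 => o2 k hk2 hk1) h ⟨e1, e2⟩
      · exact FIN1_mx (ε := ε) hr hREL hT' hB hs o2 (fun k hk1 hk2 => o1 k hk2 hk1) h
          ⟨fun k l a b c d => e1 k l b a d c, fun k l a b c d => e2 k l b a d c⟩
    · refine Or.inr ⟨hgap, ?_⟩
      obtain ⟨he1, he2⟩ := h₅ n (by omega) D hD V G f w u v i hG hT hB hs
      exact FIN2.isG2_of hREL G f w u v i hT hB hs
        (h₄ n (by omega) D hD V G f w u v i hG hT hB hs) he1 he2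
        (h₆ n (by omega) D hD V G f w u v i hG hT hB hs)
  have hor : ∀ (V : Type) [Fintype V] (G : SimpleGraph V), Mx r n D G →
      IsG1 r n D G ∨ IsG2 r n D G := by
    intro V _ G hG
    rcases hsplit V G hG with h | h
    · exact Or.inl h.2
    · exact Or.inr h.2
  have hin : ∀ (V : Type) [Fintype V] (G : SimpleGraph V), IsG1 r n D G ∨ IsG2 r n D G →
      InN r ((SimpleGraph.turanGraph n r).edgeSet.ncard + D)
        (⊤ : SimpleGraph (Fin (r + 1))) G := by
    intro V _ G hG
    rcases hG with h | h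
    · exact FIN3.in1 hMEM1 hr (by omega) G h
    · exact FIN3.in2 hMEM2 hr (by omega) G h
  have hiso : ∀ (V U : Type) [Fintype V] [Fintype U] (G : SimpleGraph V)
      (H : SimpleGraph U), IsG1 r n D G → IsG1 r n D H → Nonempty (G ≃g H) :=
    fun V U _ _ G H h h' => FIN1_iso hr hREL hGV hISO1 h h'
  have heq : ∀ (V U : Type) [Fintype V] [Fintype U] (G : SimpleGraph V)
      (H : SimpleGraph U), IsG2 r n D G → IsG2 r n D H → lam G = lam H :=
    fun V U _ _ G H h h' => (FIN2.eq_of hMEM2 hGV hREL hTI hr (by omega) G H h h').1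
  refine ⟨hex, ?_, hiso, heq, ?_, ?_⟩
  · intro V _ G
    constructor
    · intro hG
      exact ⟨hor V G hG, fun U _ H hH => hG.2 U H (hin U H hH)⟩
    · rintro ⟨hG, hmax⟩
      obtain ⟨k, M, hM⟩ := hex
      refine ⟨hin V G hG, ?_⟩
      intro U _ H hH
      exact (hM.2 U H hH).trans (hmax (Fin k) M (hor (Fin k) M hM))
  · intro hgap V _ G
    have hfwd : ∀ (V : Type) [Fintype V] (G : SimpleGraph V), Mx r n D G → IsG1 r n D G := by
      intro V _ G hG
      rcases hsplit V G hG with h | h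
      · exact h.2
      · exact absurd h.1 (not_lt.mpr hgap)
    refine ⟨hfwd V G, ?_⟩
    intro hG
    obtain ⟨k, M, hM⟩ := hex
    obtain ⟨e⟩ := hiso V (Fin k) G M hG (hfwd (Fin k) M hM)
    have hlam : lam G = lam M := hISO V (Fin k) G M ⟨e⟩
    refine ⟨hin V G (Or.inl hG), ?_⟩
    intro U _ H hH
    rw [hlam]
    exact hM.2 U H hH
  · intro hgap V _ G
    have hfwd : ∀ (V : Type) [Fintype V] (G : SimpleGraph V), Mx r n D G → IsG2 r n D G := by
      intro V _ G hG
      rcases hsplit V G hG with h | h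
      · exact absurd h.1 (not_lt.mpr hgap)
      · exact h.2
    refine ⟨hfwd V G, ?_⟩
    intro hG
    obtain ⟨k, M, hM⟩ := hex
    have hlam : lam G = lam M := heq V (Fin k) G M hG (hfwd (Fin k) M hM)
    refine ⟨hin V G (Or.inr hG), ?_⟩
    intro U _ H hH
    rw [hlam]
    exact hM.2 U H hH

end MP0c3a8f

end
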