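import Pool.Agent.Work.MP_0c3a8f_co.Ext.Stmts
import Pool.Agent.Work.MP_0c3a8f_co.Bd.B01
import Pool.Agent.Work.MP_0c3a8f_co.ItemBAL
import Pool.Agent.Work.MP_0c3a8f_co.Bd.B02
import Pool.Agent.Work.MP_0c3a8f_co.ItemKEY
import Pool.Agent.Work.MP_0c3a8f_co.ItemP
import Pool.Agent.Work.MP_0c3a8f_co.Bd.B03
import Pool.Agent.Work.MP_0c3a8f_co.Ext.ItemCMP
import Pool.Agent.Work.MP_0c3a8f_co.Bd.B05
import Pool.Agent.Work.MP_0c3a8f_co.PB.Stmts

/-! Bundle of small proof modules (one section per former module). -/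

section

/-!
# MP_0c3a8f_co, extension: item PRE
-/

open Finset

namespace MP0c3a8f

/-- the quadratic form of the complete multipartite graph -/
theorem PRE_quad {V : Type} [Fintype V] {r : ℕ} (x : V → ℝ) (g : V → Option (Fin r))
    (σ : Fin r → ℕ) (μ : ℝ) (hμ : 0 < μ) (hσ : ∀ t, 1 ≤ σ t)
    (hs : ∀ t, {v | g v = some t}.ncard = σ t) (hu : ∑ i, x i ^ 2 = 1)
    (h1 : ∑ t, (σ t : ℝ) / (μ + σ t) ≤ 1) :
    ∑ i, ∑ j, (if g i ≠ none ∧ g j ≠ none ∧ g i ≠ g j then x i * x j else 0) ≤ μ := by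
  classical
  set X : Fin r → ℝ := fun t => ∑ i, if g i = some t then x i else 0 with hX
  set Q : Fin r → ℝ := fun t => ∑ i, if g i = some t then x i ^ 2 else 0 with hQ
  have hsp : ∀ t, (0 : ℝ) < σ t := by
    intro t
    have := hσ t
    exact_mod_cast this
  have hpt : ∀ i j, (if g i ≠ none ∧ g j ≠ none ∧ g i ≠ g j then x i * x j else 0)
      = (∑ s, if g i = some s then x i else 0) * (∑ t, if g j = some t then x j else 0)
        - ∑ t, (if g i = some t then x i else 0) * (if g j = some t then x j else 0) := by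
    intro i j
    cases hi : g i with
    | none => simp
    | some s =>
      cases hj : g j with
      | none => simp
      | some t =>
        by_cases e : s = t
        · subst e; simp
        · have e' : ¬ t = s := fun h => e h.symm
          simp [e]
  have hsum : ∑ i, ∑ j, (if g i ≠ none ∧ g j ≠ none ∧ g i ≠ g j then x i * x j else 0)
      = (∑ t, X t) ^ 2 - ∑ t, X t ^ 2 := by
    simp_rw [hpt, Finset.sum_sub_distrib]
    congr 1
    · rw [pow_two, ← Finset.sum_mul_sum]
      congr 1 <;> exact Finset.sum_comm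
    · have h2 : ∀ i, ∑ j, ∑ t, (if g i = some t then x i else 0) *
          (if g j = some t then x j else 0) = ∑ t, (if g i = some t then x i else 0) * X t := by
        intro i
        rw [Finset.sum_comm]
        refine Finset.sum_congr rfl fun t _ => ?_
        rw [hX, Finset.mul_sum]
      rw [Finset.sum_congr rfl fun i _ => h2 i, Finset.sum_comm]
      refine Finset.sum_congr rfl fun t _ => ?_
      rw [← Finset.sum_mul, pow_two]
  have hXQ : ∀ t, X t ^ 2 ≤ σ t * Q t := by
    intro t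
    have e1 : X t = ∑ i ∈ Finset.univ.filter (fun i => g i = some t), x i := by
      rw [hX, Finset.sum_filter]
    have e2 : Q t = ∑ i ∈ Finset.univ.filter (fun i => g i = some t), x i ^ 2 := by
      rw [hQ, Finset.sum_filter]
    have e3 : ((Finset.univ.filter (fun i => g i = some t)).card : ℝ) = σ t := by
      rw [← hs t, Set.ncard_eq_toFinset_card']
      congr 2
      ext j
      simp
    rw [e1, e2, ← e3]
    exact sq_sum_le_card_mul_sum_sq
  have hQ1 : ∑ t, Q t ≤ 1 := by
    rw [← hu, hQ]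
    simp only
    rw [Finset.sum_comm]
    refine Finset.sum_le_sum fun i _ => ?_
    cases hi : g i with
    | none => simp; positivity
    | some s => simp
  have hCS : (∑ t, X t) ^ 2 ≤ (∑ t, (X t ^ 2 * (μ + σ t) / σ t)) * ∑ t, (σ t : ℝ) / (μ + σ t) := by
    refine Finset.sum_sq_le_sum_mul_sum_of_sq_le_mul _ (fun t _ => ?_) (fun t _ => ?_)
      (fun t _ => le_of_eq ?_)
    · have := hsp t; positivity
    · have := hsp t; positivity
    · have h3 := hsp t
      have h4 : μ + σ t ≠ 0 := by positivity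
      field_simp
  have hf0 : 0 ≤ ∑ t, (X t ^ 2 * (μ + σ t) / σ t) :=
    Finset.sum_nonneg fun t _ => by have := hsp t; positivity
  have hf1 : ∑ t, (X t ^ 2 * (μ + σ t) / σ t) ≤ μ + ∑ t, X t ^ 2 := by
    have h5 : ∀ t, X t ^ 2 * (μ + σ t) / σ t ≤ μ * Q t + X t ^ 2 := by
      intro t
      have h3 := hsp t
      have h6 : X t ^ 2 * (μ + σ t) / σ t = μ * (X t ^ 2 / σ t) + X t ^ 2 := by
        field_simp
      rw [h6]
      have h7 : X t ^ 2 / σ t ≤ Q t := by
        rw [div_le_iff₀ h3, mul_comm]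
        exact hXQ t
      have := mul_le_mul_of_nonneg_left h7 hμ.le
      linarith
    calc ∑ t, (X t ^ 2 * (μ + σ t) / σ t) ≤ ∑ t, (μ * Q t + X t ^ 2) :=
          Finset.sum_le_sum fun t _ => h5 t
      _ = μ * ∑ t, Q t + ∑ t, X t ^ 2 := by rw [Finset.sum_add_distrib, Finset.mul_sum]
      _ ≤ μ + ∑ t, X t ^ 2 := by nlinarith
  rw [hsum]
  have h8 : (∑ t, X t) ^ 2 ≤ ∑ t, (X t ^ 2 * (μ + σ t) / σ t) :=
    hCS.trans (by nlinarith)
  linarith

/-- the main estimate -/
theorem PRE_lin {V : Type} [Fintype V] {r : ℕ} (G : SimpleGraph V) (x : V → ℝ) (l : ℝ) (m : ℕ)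
    (g : V → Option (Fin r)) (σ : Fin r → ℕ) (a b : ℕ) (δ μ q : ℝ) (hD : Data G x l m)
    (hG : IsModS σ a b G g) (hσ : ∀ t, 1 ≤ σ t) (hμ : 0 < μ)
    (h1 : ∑ t, (σ t : ℝ) / (μ + σ t) ≤ 1) (hδ : 0 < δ) (hδ1 : δ ≤ 1 / 2) (hq0 : 0 ≤ q)
    (h0 : ∀ i, g i = none → x i ≤ δ * q) (hq : ∀ i, g i ≠ none → |x i - q| ≤ δ * q) :
    l + 2 * a * ((1 - δ) ^ 2 * q ^ 2) ≤ μ + 2 * b * (δ * (1 + δ) * q ^ 2) := by
  classical
  have hlow : ∀ i, g i ≠ none → (1 - δ) * q ≤ x i := by
    intro i hi
    have := abs_le.1 (hq i hi)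
    nlinarith [this.1]
  have hup : ∀ i, x i ≤ (1 + δ) * q := by
    intro i
    by_cases hi : g i = none
    · have := h0 i hi; nlinarith
    · have := (abs_le.1 (hq i hi)).2; nlinarith
  have hl : l = ∑ i, ∑ j, adj G i j * (x i * x j) := by
    have h2 : ∀ i, ∑ j, adj G i j * (x i * x j) = l * x i ^ 2 := by
      intro i
      calc ∑ j, adj G i j * (x i * x j) = x i * ∑ j, adj G i j * x j := by
            rw [Finset.mul_sum]
            exact Finset.sum_congr rfl fun j _ => by ring
        _ = l * x i ^ 2 := by rw [hD.eig i]; ring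
    rw [Finset.sum_congr rfl fun i _ => h2 i, ← Finset.mul_sum, hD.unit, mul_one]
  have hm : 2 * a * ((1 - δ) ^ 2 * q ^ 2) = ∑ i, ∑ j,
      (if g i ≠ none ∧ g j ≠ none ∧ g i ≠ g j ∧ ¬ G.Adj i j then (1 - δ) ^ 2 * q ^ 2 else 0) := by
    have h3 : ∀ i j, (if g i ≠ none ∧ g j ≠ none ∧ g i ≠ g j ∧ ¬ G.Adj i j
          then (1 - δ) ^ 2 * q ^ 2 else 0)
        = ((1 - δ) ^ 2 * q ^ 2) * (if g i ≠ none ∧ g j ≠ none ∧ g i ≠ g j ∧ ¬ G.Adj i j
          then (1 : ℝ) else 0) := by
      intro i j; split_ifs <;> simp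
    simp_rw [h3, ← Finset.mul_sum]
    rw [cnv_miss, hG.miss]; ring
  have ho : 2 * b * (δ * (1 + δ) * q ^ 2) = ∑ i, ∑ j,
      (if G.Adj i j ∧ (g i = none ∨ g j = none) then δ * (1 + δ) * q ^ 2 else 0) := by
    have h3 : ∀ i j, (if G.Adj i j ∧ (g i = none ∨ g j = none) then δ * (1 + δ) * q ^ 2 else 0)
        = (δ * (1 + δ) * q ^ 2) *
          (if G.Adj i j ∧ (g i = none ∨ g j = none) then (1 : ℝ) else 0) := by
      intro i j; split_ifs <;> simp
    simp_rw [h3, ← Finset.mul_sum]
    rw [cnv_out, hG.outer]; ring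
  have hquad := PRE_quad x g σ μ hμ hσ hG.size hD.unit h1
  rw [hm, ho]
  nth_rewrite 1 [hl]
  refine le_trans ?_ (add_le_add_left hquad _)
  rw [← Finset.sum_add_distrib, ← Finset.sum_add_distrib]
  refine Finset.sum_le_sum fun i _ => ?_
  rw [← Finset.sum_add_distrib, ← Finset.sum_add_distrib]
  refine Finset.sum_le_sum fun j _ => ?_
  have hxi := hD.nonneg i
  have hxj := hD.nonneg j
  have hd : (0 : ℝ) ≤ 1 - δ := by linarith
  by_cases hA : G.Adj i j
  · have e1 : adj G i j = 1 := by unfold adj; rw [if_pos hA]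
    have e2 : ¬ (g i ≠ none ∧ g j ≠ none ∧ g i ≠ g j ∧ ¬ G.Adj i j) := fun h => h.2.2.2 hA
    rw [e1, if_neg e2, one_mul, add_zero]
    by_cases hn : g i = none ∨ g j = none
    · have e3 : ¬ (g i ≠ none ∧ g j ≠ none ∧ g i ≠ g j) := by
        rintro ⟨h3, h4, _⟩
        rcases hn with h5 | h5
        · exact h3 h5
        · exact h4 h5
      rw [if_neg e3, if_pos ⟨hA, hn⟩, zero_add]
      rcases hn with h5 | h5
      · calc x i * x j ≤ (δ * q) * ((1 + δ) * q) :=
              mul_le_mul (h0 i h5) (hup j) hxj (by positivity)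
          _ = δ * (1 + δ) * q ^ 2 := by ring
      · calc x i * x j ≤ ((1 + δ) * q) * (δ * q) :=
              mul_le_mul (hup i) (h0 j h5) hxj (by positivity)
          _ = δ * (1 + δ) * q ^ 2 := by ring
    · push Not at hn
      have e3 : g i ≠ none ∧ g j ≠ none ∧ g i ≠ g j :=
        ⟨hn.1, hn.2, fun h => hG.indep i j hn.1 h hA⟩
      rw [if_pos e3]
      have : 0 ≤ (if G.Adj i j ∧ (g i = none ∨ g j = none) then δ * (1 + δ) * q ^ 2 else 0) := by
        split_ifs <;> positivity
      linarith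
  · have e1 : adj G i j = 0 := by unfold adj; rw [if_neg hA]
    have e2 : ¬ (G.Adj i j ∧ (g i = none ∨ g j = none)) := fun h => hA h.1
    rw [e1, zero_mul, zero_add, if_neg e2, add_zero]
    by_cases hE : g i ≠ none ∧ g j ≠ none ∧ g i ≠ g j
    · rw [if_pos hE, if_pos ⟨hE.1, hE.2.1, hE.2.2, hA⟩]
      calc (1 - δ) ^ 2 * q ^ 2 = ((1 - δ) * q) * ((1 - δ) * q) := by ring
        _ ≤ x i * x j := mul_le_mul (hlow i hE.1) (hlow j hE.2.1) (by positivity) hxi
    · rw [if_neg hE, if_neg fun h => hE ⟨h.1, h.2.1, h.2.2.1⟩]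

/-- the spectral radius is at most `sqrt (2 m)` -/
theorem PRE_crude {V : Type} [Fintype V] (G : SimpleGraph V) (x : V → ℝ) (l : ℝ) (m : ℕ)
    (hD : Data G x l m) : l ^ 2 ≤ 2 * m := by
  classical
  have h2 : ∀ i, (l * x i) ^ 2 ≤ ∑ j, adj G i j := by
    intro i
    rw [← hD.eig i]
    have h3 := Finset.sum_mul_sq_le_sq_mul_sq Finset.univ (fun j => adj G i j) x
    rw [hD.unit, mul_one] at h3
    refine h3.trans (le_of_eq (Finset.sum_congr rfl fun j _ => ?_))
    unfold adj
    split_ifs <;> norm_num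
  calc l ^ 2 = ∑ i, (l * x i) ^ 2 := by
        simp_rw [mul_pow]
        rw [← Finset.mul_sum, hD.unit, mul_one]
    _ ≤ ∑ i, ∑ j, adj G i j := Finset.sum_le_sum fun i _ => h2 i
    _ = 2 * m := hD.edges

theorem prfPRE : KAP_statement → CNTS_statement → PRE_statement := by
  intro hKAP hCNT r N ε hr hε
  obtain ⟨n₀, hn₀⟩ := hKAP r N (ε / 4) hr (by positivity)
  have hN : (0 : ℝ) ≤ N := Nat.cast_nonneg N
  set δ : ℝ := min (1 / 2) (ε / (32 * (N + 1))) with hδdef
  have hδ : 0 < δ := by rw [hδdef]; positivity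
  have hδ1 : δ ≤ 1 / 2 := min_le_left _ _
  have hδ2 : 8 * N * δ ≤ ε / 4 := by
    have h1 : δ ≤ ε / (32 * (N + 1)) := min_le_right _ _
    rw [le_div_iff₀ (by positivity)] at h1
    nlinarith [mul_nonneg hN hδ.le]
  obtain ⟨m₁, hm₁⟩ := exists_nat_ge (8 * (N : ℝ) ^ 2 / ε)
  refine ⟨δ, hδ, m₁ + n₀ ^ 2 + N + 1, ?_⟩
  intro V _ G x l m g σ a b hD hm hl hG hσ hab hdev h0 hq
  have hβr : (0 : ℝ) < r := by
    have : 0 < r := by omega
    exact_mod_cast this
  set β : ℝ := 1 - 1 / (r : ℝ) with hβ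
  have hr3 : (3 : ℝ) ≤ r := by exact_mod_cast hr
  have hβ1 : β ≤ 1 := by
    rw [hβ]
    have : 0 < 1 / (r : ℝ) := by positivity
    linarith
  have hβ0 : 0 ≤ β := by
    rw [hβ]
    have : 1 / (r : ℝ) ≤ 1 := by
      rw [div_le_one hβr]; linarith
    linarith
  -- number of edges
  have hmE : G.edgeSet.ncard = m := by
    have h1 := prfEDG.1 V G
    rw [hD.edges] at h1
    have h2 : (m : ℝ) = (G.edgeSet.ncard : ℝ) := by linarith
    exact_mod_cast h2.symm
  have hS := hCNT r σ a b V G g hG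
  rw [hmE] at hS
  unfold Sz at hS
  have hSR : 2 * (m : ℝ) + 2 * a + ∑ t, (σ t : ℝ) ^ 2 = (∑ t, (σ t : ℝ)) ^ 2 + 2 * b := by
    exact_mod_cast hS
  set n : ℝ := ∑ t, (σ t : ℝ) with hn
  have hdevE : dev σ = ∑ t, (σ t : ℝ) ^ 2 - n ^ 2 / r := by
    unfold dev
    rw [← hn]
    have h1 : ∀ t, ((σ t : ℝ) - n / r) ^ 2 = (σ t : ℝ) ^ 2 - 2 * (n / r) * σ t + (n / r) ^ 2 := by
      intro t; ring
    rw [Finset.sum_congr rfl fun t _ => h1 t, Finset.sum_add_distrib, Finset.sum_sub_distrib,
      ← Finset.mul_sum, ← hn, Finset.sum_const, Finset.card_univ, Fintype.card_fin, nsmul_eq_mul]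
    field_simp
    ring
  have haN : (a : ℝ) ≤ N := by
    have : a ≤ N := by omega
    exact_mod_cast this
  have hbN : (b : ℝ) ≤ N := by
    have : b ≤ N := by omega
    exact_mod_cast this
  have habN : (a : ℝ) + b ≤ N := by exact_mod_cast hab
  have ha0 : (0 : ℝ) ≤ a := Nat.cast_nonneg a
  have hb0 : (0 : ℝ) ≤ b := Nat.cast_nonneg b
  have hmR : ((m₁ : ℝ) + (n₀ : ℝ) ^ 2 + N + 1) ≤ m := by exact_mod_cast hm
  have hm₁0 : (0 : ℝ) ≤ m₁ := Nat.cast_nonneg m₁
  have hm0 : (0 : ℝ) < m := by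
    have : (0 : ℝ) ≤ (n₀ : ℝ) ^ 2 := by positivity
    linarith
  have hsq0 : 0 ≤ ∑ t, (σ t : ℝ) ^ 2 := Finset.sum_nonneg fun t _ => by positivity
  have hn0 : 0 ≤ n := Finset.sum_nonneg fun t _ => Nat.cast_nonneg _
  have hnbig : n₀ ≤ ∑ t, σ t := by
    have h1 : (n₀ : ℝ) ^ 2 ≤ n ^ 2 := by linarith [sq_nonneg (n₀ : ℝ)]
    have h2 : (n₀ : ℝ) ≤ n := by
      by_contra h
      push Not at h
      have : n ^ 2 < (n₀ : ℝ) ^ 2 := by gcongr
      linarith
    rw [hn] at h2
    exact_mod_cast h2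
  obtain ⟨_, μ, _, hμ, _, hμ1, _, hμ2⟩ := hn₀ σ hnbig hdev
  have hμ3 := (abs_le.1 hμ2).2
  set q : ℝ := Real.sqrt (l / (2 * m)) with hqdef
  have hq0 : 0 ≤ q := Real.sqrt_nonneg _
  have hqq : q ^ 2 = l / (2 * m) := Real.sq_sqrt (div_nonneg hD.l_nonneg (by positivity))
  have hlin := PRE_lin G x l m g σ a b δ μ q hD hG hσ hμ hμ1 hδ hδ1 hq0 h0 hq
  rw [hqq] at hlin
  have hl0 := hD.l_nonneg
  have hcr := PRE_crude G x l m hD
  -- the linear inequality
  set θ : ℝ := a - 2 * N * δ with hθ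
  have h5 : l * (1 + θ / m) ≤ μ := by
    have h6 : l * (1 + θ / m) = l + 2 * θ * (l / (2 * m)) := by
      field_simp
    rw [h6]
    have hc0 : 0 ≤ l / (2 * m) := div_nonneg hl0 (by positivity)
    have h7 : θ ≤ a * (1 - δ) ^ 2 - b * (δ * (1 + δ)) := by
      rw [hθ]
      have h8 : (a : ℝ) * (1 - 2 * δ) ≤ a * (1 - δ) ^ 2 := by
        apply mul_le_mul_of_nonneg_left _ ha0
        nlinarith
      have h9 : (b : ℝ) * (δ * (1 + δ)) ≤ b * (2 * δ) := by
        apply mul_le_mul_of_nonneg_left _ hb0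
        nlinarith
      have h10 : ((a : ℝ) + b) * δ ≤ N * δ := mul_le_mul_of_nonneg_right habN hδ.le
      linarith
    have h11 := mul_le_mul_of_nonneg_right h7 hc0
    linarith
  have h12 : 0 ≤ 1 + θ / m := by
    have h13 : -1 ≤ θ / m := by
      rw [le_div_iff₀ hm0, hθ]
      have h14 : 2 * N * δ ≤ N := by nlinarith
      have : (0 : ℝ) ≤ (n₀ : ℝ) ^ 2 := by positivity
      linarith
    linarith
  have h15 : (l * (1 + θ / m)) ^ 2 ≤ μ ^ 2 := by
    have : 0 ≤ l * (1 + θ / m) := mul_nonneg hl0 h12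
    gcongr
  have h16 : l ^ 2 + 2 * θ * (l ^ 2 / m) ≤ μ ^ 2 := by
    have h17 : (l * (1 + θ / m)) ^ 2 = l ^ 2 + 2 * θ * (l ^ 2 / m) + (l * (θ / m)) ^ 2 := by
      field_simp
      ring
    have h18 : 0 ≤ (l * (θ / m)) ^ 2 := sq_nonneg _
    linarith
  have h19 : l ^ 2 / m ≤ 2 := by
    rw [div_le_iff₀ hm0]; exact hcr
  have h20 : 2 * β - N / m ≤ l ^ 2 / m := by
    rw [le_div_iff₀ hm0]
    have : (2 * β - N / m) * m = 2 * β * m - N := by field_simp
    rw [this]; exact hl
  have h21 : 4 * β * a - 2 * N * (N / m) - 8 * N * δ ≤ 2 * θ * (l ^ 2 / m) := by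
    rw [hθ]
    have h22 : (a : ℝ) * (2 * β - N / m) ≤ a * (l ^ 2 / m) := mul_le_mul_of_nonneg_left h20 ha0
    have h23 : (a : ℝ) * (N / m) ≤ N * (N / m) := mul_le_mul_of_nonneg_right haN (by positivity)
    have h24 : (N * δ) * (l ^ 2 / m) ≤ (N * δ) * 2 := mul_le_mul_of_nonneg_left h19 (by positivity)
    linarith
  have h25 : 2 * N * (N / m) ≤ ε / 4 := by
    have h26 : 2 * (N : ℝ) * (N / m) = 2 * (N : ℝ) ^ 2 / m := by ring
    rw [h26, div_le_iff₀ hm0]
    have h27 : 8 * (N : ℝ) ^ 2 / ε ≤ m := by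
      have : (0 : ℝ) ≤ (n₀ : ℝ) ^ 2 := by positivity
      linarith
    rw [div_le_iff₀ hε] at h27
    nlinarith
  unfold Phi
  have h28 : (1 : ℝ) - 2 / r = 2 * β - 1 := by rw [hβ]; ring
  rw [h28]
  have h29 : 2 * (m : ℝ) = β * n ^ 2 - dev σ + 2 * b - 2 * a := by
    rw [hdevE, hβ]
    have : (1 - 1 / (r : ℝ)) * n ^ 2 = n ^ 2 - n ^ 2 / r := by ring
    rw [this]
    linarith
  have h30 : 2 * β * (m : ℝ) = β * (β * n ^ 2 - dev σ + 2 * b - 2 * a) := by
    rw [← h29]; ring
  rw [h30]
  linarith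

end MP0c3a8f

end

section

/-!
# MP_0c3a8f_co, extension: item STR2, the structure theorem with the Perron vector

Adapted (helper26) from `ItemSTR.lean` (helper79).
-/

open Finset

namespace MP0c3a8f

namespace STR2_aux

variable {V : Type} [Fintype V]

lemma zz {c : ℝ} (hc : 0 < c) (a b : ℝ) :
    (a / Real.sqrt c) * (b / Real.sqrt c) = a * b / c := by
  rw [div_mul_div_comm, Real.mul_self_sqrt hc.le]

lemma z2 {c : ℝ} (hc : 0 < c) (a : ℝ) : (a / Real.sqrt c) ^ 2 = a ^ 2 / c := by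
  rw [div_pow, Real.sq_sqrt hc.le]

lemma sc_vE (G : SimpleGraph V) (x : V → ℝ) {c : ℝ} (hc : 0 < c) :
    ∑ i, ∑ j, adj G i j * ((x i / Real.sqrt c) * (x j / Real.sqrt c) - 1) ^ 2 =
      vE G x c / c ^ 2 := by
  unfold vE
  rw [Finset.sum_div]
  refine Finset.sum_congr rfl fun i _ => ?_
  rw [Finset.sum_div]
  refine Finset.sum_congr rfl fun j _ => ?_
  rw [zz hc]
  field_simp

lemma sc_miss {r : ℕ} (G : SimpleGraph V) (x : V → ℝ) (f : V → Option (Fin r)) {c : ℝ}
    (hc : 0 < c) :
    miss G (fun i => (x i / Real.sqrt c) ^ 2) f = miss G (fun i => x i ^ 2) f / c ^ 2 := by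
  unfold miss
  rw [Finset.sum_div]
  refine Finset.sum_congr rfl fun i _ => ?_
  rw [Finset.sum_div]
  refine Finset.sum_congr rfl fun j _ => ?_
  split_ifs
  · show (x i / Real.sqrt c) ^ 2 * (x j / Real.sqrt c) ^ 2 = _
    rw [z2 hc, z2 hc]
    field_simp
  · rw [zero_div]

lemma sc_cw {r : ℕ} (x : V → ℝ) (f : V → Option (Fin r)) (o : Option (Fin r)) {c : ℝ}
    (hc : 0 < c) :
    cw (fun i => (x i / Real.sqrt c) ^ 2) f o = cw (fun i => x i ^ 2) f o / c := by
  unfold cw
  rw [Finset.sum_div]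
  refine Finset.sum_congr rfl fun i _ => ?_
  split_ifs
  · show (x i / Real.sqrt c) ^ 2 = _
    rw [z2 hc]
  · rw [zero_div]

lemma vE_nonneg (G : SimpleGraph V) (x : V → ℝ) (c : ℝ) : 0 ≤ vE G x c := by
  unfold vE adj
  refine Finset.sum_nonneg fun i _ => Finset.sum_nonneg fun j _ => ?_
  split_ifs
  · positivity
  · simp

lemma miss_nonneg {r : ℕ} (G : SimpleGraph V) (y : V → ℝ) (f : V → Option (Fin r))
    (hy : ∀ i, 0 ≤ y i) : 0 ≤ miss G y f := by
  unfold miss
  refine Finset.sum_nonneg fun i _ => Finset.sum_nonneg fun j _ => ?_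
  split_ifs
  · exact mul_nonneg (hy i) (hy j)
  · exact le_refl _

lemma cw_nonneg {r : ℕ} (y : V → ℝ) (f : V → Option (Fin r)) (o : Option (Fin r))
    (hy : ∀ i, 0 ≤ y i) : 0 ≤ cw y f o := by
  unfold cw
  refine Finset.sum_nonneg fun i _ => ?_
  split_ifs
  · exact hy i
  · exact le_refl _

lemma miss_mono {r : ℕ} (G : SimpleGraph V) (y : V → ℝ) (f g : V → Option (Fin r))
    (hy : ∀ i, 0 ≤ y i) (hg : ∀ i, g i ≠ none → g i = f i) : miss G y g ≤ miss G y f := by
  unfold miss
  refine Finset.sum_le_sum fun i _ => Finset.sum_le_sum fun j _ => ?_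
  by_cases h : g i ≠ none ∧ g j ≠ none ∧ g i ≠ g j ∧ ¬ G.Adj i j
  · have hi := hg i h.1
    have hj := hg j h.2.1
    rw [if_pos h, if_pos ⟨hi ▸ h.1, hj ▸ h.2.1, by rw [← hi, ← hj]; exact h.2.2.1, h.2.2.2⟩]
  · rw [if_neg h]
    split_ifs
    · exact mul_nonneg (hy i) (hy j)
    · exact le_refl _

lemma cw_le {r : ℕ} (y : V → ℝ) (g : V → Option (Fin r)) (t : Fin r) (B : ℝ)
    (hy : ∀ i, y i ≤ B) : cw y g (some t) ≤ ({i | g i = some t}.ncard : ℝ) * B := by
  classical
  unfold cw
  rw [← Finset.sum_filter]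
  have e : ({i | g i = some t}.ncard : ℝ) = ((Finset.univ.filter fun i => g i = some t).card : ℝ) := by
    have : {i | g i = some t} = ((Finset.univ.filter fun i => g i = some t : Finset V) : Set V) := by
      ext i
      simp
    rw [this, Set.ncard_coe_finset]
  rw [e, ← nsmul_eq_mul]
  exact Finset.sum_le_card_nsmul _ _ _ fun i _ => hy i

lemma two_sq {r : ℕ} (u : Fin r → ℝ) (c : ℝ) (s t : Fin r) (hst : s ≠ t) :
    (u s - u t) ^ 2 ≤ 2 * ∑ q, (u q - c) ^ 2 := by
  have h1 : (u s - c) ^ 2 + (u t - c) ^ 2 ≤ ∑ q, (u q - c) ^ 2 := by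
    have := Finset.sum_le_sum_of_subset_of_nonneg (s := {s, t}) (t := Finset.univ)
      (f := fun q => (u q - c) ^ 2) (Finset.subset_univ _) (fun _ _ _ => sq_nonneg _)
    rwa [Finset.sum_pair hst] at this
  nlinarith [sq_nonneg (u s - c + (u t - c))]

end STR2_aux

open STR2_aux in
theorem prfSTR2 (hP : P_statement) (hE : EDG_statement) (hS : STB_statement)
    (hCOR : COR_statement) (hK : KEY_statement) (hN : NRM_statement) (hV : CNV_statement)
    (hY : YU_statement) (hB : BAL_statement) : STR2_statement := by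
  classical
  intro W _ F r hr hcrit hcol C0
  obtain ⟨C, hC0, hC1⟩ : ∃ C : ℝ, C0 ≤ C ∧ 1 ≤ C := ⟨max C0 1, le_max_left _ _, le_max_right _ _⟩
  have hr3 : (3 : ℝ) ≤ (r : ℝ) := by exact_mod_cast hr
  have hr0 : (0 : ℝ) < (r : ℝ) := by linarith
  obtain ⟨γ, hγ⟩ : ∃ γ : ℝ, γ = 1 / (16 * (r : ℝ)) := ⟨_, rfl⟩
  have hγ0 : 0 < γ := by rw [hγ]; positivity
  have hγ1 : γ ≤ 1 / 4 := by
    rw [hγ, div_le_div_iff₀ (by positivity) (by norm_num)]
    linarith
  have hβ1 : (1 : ℝ) - 1 / (r : ℝ) < 1 := by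
    have : 0 < 1 / (r : ℝ) := by positivity
    linarith
  have hβ0 : 2 / 3 ≤ (1 : ℝ) - 1 / (r : ℝ) := by
    have : 1 / (r : ℝ) ≤ 1 / 3 := one_div_le_one_div_of_le (by norm_num) hr3
    linarith
  refine ⟨⌈4 * C⌉₊ + ⌈(r : ℝ) * (10 ^ 6 * C)⌉₊, ?_⟩
  intro δ' s₁ hδ'
  obtain ⟨δ, hδ0, hδ1, hδ2⟩ : ∃ δ : ℝ, 0 < δ ∧ δ ≤ 1 / 20 ∧ δ ≤ δ' :=
    ⟨min (1 / 20) δ', lt_min (by norm_num) hδ', min_le_left _ _, min_le_right _ _⟩
  obtain ⟨εc, hεc, hcor⟩ := hCOR W F r γ hr hcrit hγ0
  obtain ⟨ε0, hε0, m1, hstb⟩ := hS W F r εc hr hcol hεc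
  obtain ⟨Q0, hQ0, hnrm⟩ := hN r δ (2 * C) hr hδ0 (by positivity)
  obtain ⟨m2, hbal⟩ := hB ⌈4 * C⌉₊
  obtain ⟨Lm, hL0, hL1, hL2, hL3, hL4⟩ : ∃ Lm : ℝ, 0 ≤ Lm ∧ C ≤ γ * δ ^ 2 * Lm ∧
      4 * r * Q0 ≤ Lm ∧ 242 * C ≤ Lm ∧ 5 * r * ((s₁ : ℝ) + 1) ≤ Lm := by
    refine ⟨C / (γ * δ ^ 2) + 4 * r * Q0 + 242 * C + 5 * r * ((s₁ : ℝ) + 1), by positivity,
      ?_, ?_, ?_, ?_⟩
    · have h1 : γ * δ ^ 2 * (C / (γ * δ ^ 2)) = C := by field_simp
      have h2 : 0 ≤ γ * δ ^ 2 * (4 * r * Q0 + 242 * C + 5 * r * ((s₁ : ℝ) + 1)) := by positivity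
      linarith
    · have h1 : 0 ≤ C / (γ * δ ^ 2) := by positivity
      have h2 : 0 ≤ 5 * (r : ℝ) * ((s₁ : ℝ) + 1) := by positivity
      linarith
    · have h1 : 0 ≤ C / (γ * δ ^ 2) := by positivity
      have h2 : 0 ≤ 5 * (r : ℝ) * ((s₁ : ℝ) + 1) := by positivity
      have h3 : 0 ≤ 4 * (r : ℝ) * Q0 := by positivity
      linarith
    · have h1 : 0 ≤ C / (γ * δ ^ 2) := by positivity
      have h3 : 0 ≤ 4 * (r : ℝ) * Q0 := by positivity
      linarith
  obtain ⟨Mm, hM1, hM2, hM3, hM4, hM5⟩ : ∃ Mm : ℝ, Lm ^ 2 ≤ Mm ∧ 25 * C ≤ Mm ∧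
      C ≤ ε0 * Mm ∧ 2 * C * (r : ℝ) ^ 2 ≤ Mm ∧ 8 * C ^ 2 ≤ 1 * Mm := by
    refine ⟨Lm ^ 2 + 25 * C + C / ε0 + 2 * C * (r : ℝ) ^ 2 + 8 * C ^ 2 / (1 : ℝ), ?_, ?_, ?_, ?_, ?_⟩
    · have : 0 ≤ 25 * C + C / ε0 + 2 * C * (r : ℝ) ^ 2 + 8 * C ^ 2 / (1 : ℝ) := by positivity
      linarith
    · have : 0 ≤ Lm ^ 2 + C / ε0 + 2 * C * (r : ℝ) ^ 2 + 8 * C ^ 2 / (1 : ℝ) := by positivity
      linarith
    · have h1 : ε0 * (C / ε0) = C := by field_simp
      have h2 : 0 ≤ ε0 * (Lm ^ 2 + 25 * C + 2 * C * (r : ℝ) ^ 2 + 8 * C ^ 2 / (1 : ℝ)) := by positivity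
      linarith
    · have : 0 ≤ Lm ^ 2 + 25 * C + C / ε0 + 8 * C ^ 2 / (1 : ℝ) := by positivity
      linarith
    · have h1 : (1 : ℝ) * (8 * C ^ 2 / (1 : ℝ)) = 8 * C ^ 2 := by field_simp
      have h2 : 0 ≤ (1 : ℝ) * (Lm ^ 2 + 25 * C + C / ε0 + 2 * C * (r : ℝ) ^ 2) := by positivity
      linarith
  refine ⟨max (max m1 m2) ⌈Mm⌉₊ + 1, ?_⟩
  intro V _ G hfree hm hl
  obtain ⟨m, hmdef⟩ : ∃ m : ℕ, m = G.edgeSet.ncard := ⟨_, rfl⟩
  rw [← hmdef] at hm hl ⊢
  have hm1 : m1 ≤ m := by
    have := le_max_left (max m1 m2) ⌈Mm⌉₊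
    have := le_max_left m1 m2
    omega
  have hm2 : m2 ≤ m := by
    have := le_max_left (max m1 m2) ⌈Mm⌉₊
    have := le_max_right m1 m2
    omega
  have hm0 : 0 < m := by omega
  have hmM : Mm ≤ (m : ℝ) := by
    have h1 : ⌈Mm⌉₊ ≤ m := by
      have := le_max_right (max m1 m2) ⌈Mm⌉₊
      omega
    exact (Nat.le_ceil _).trans (by exact_mod_cast h1)
  have hMpos : (0 : ℝ) < (m : ℝ) := by exact_mod_cast hm0
  have : Nonempty V := by
    by_contra hne
    rw [not_nonempty_iff] at hne
    have : G.edgeSet = ∅ := by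
      ext e
      induction e using Sym2.ind with
      | _ a b => exact (hne.false a).elim
    rw [this, Set.ncard_empty] at hmdef
    omega
  obtain ⟨hl0, -, x, hx0, hx1, hxe⟩ := hP V G
  obtain ⟨l, hldef⟩ : ∃ l : ℝ, l = lam G := ⟨_, rfl⟩
  rw [← hldef] at hl0 hxe hl ⊢
  have D : Data G x l m := ⟨hx0, hx1, hxe, by rw [hE, hmdef], hm0, hl0⟩
  have hy0 : ∀ i, 0 ≤ (fun i => x i ^ 2) i := fun i => sq_nonneg _
  have hlC : 2 * (1 - 1 / (r : ℝ)) * m - C ≤ l ^ 2 := by linarith
  have hlm : (m : ℝ) ≤ l ^ 2 := by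
    have h1 := mul_le_mul_of_nonneg_right hβ0 hMpos.le
    linarith
  have hlL : Lm ≤ l := by
    have h1 : Lm ^ 2 ≤ l ^ 2 := by linarith
    exact abs_le_of_sq_le_sq' h1 hl0 |>.2
  have hlpos : 0 < l := by linarith
  -- the partition
  obtain ⟨f0, hf1, hf2, hf3, hf4⟩ := hstb V G x l m hfree D hm1 (by
    have h1 := mul_le_mul_of_nonneg_left hmM hε0.le
    linarith)
  obtain ⟨f, hI, hcwf, hnbf⟩ := hcor V G (fun i => x i ^ 2) f0 hfree hy0 hx1 hf1 hf2 hf3 hf4
  rw [← hγ] at hnbf
  have key1 := hK r γ V G x l m f (by omega) hγ0 D hI hnbf hcwf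
  have nv := vE_nonneg G x (l / (2 * m))
  have nm := miss_nonneg G (fun i => x i ^ 2) f hy0
  have nc := cw_nonneg (fun i => x i ^ 2) f none hy0
  have nS : 0 ≤ ∑ t, (cw (fun i => x i ^ 2) f (some t) -
      (1 - cw (fun i => x i ^ 2) f none) / r) ^ 2 := Finset.sum_nonneg fun _ _ => sq_nonneg _
  have hl2 : l ^ 2 ≤ 2 * m := by
    have h1 : 0 ≤ 2 * (m : ℝ) * (γ * cw (fun i => x i ^ 2) f none
      + ∑ t, (cw (fun i => x i ^ 2) f (some t) - (1 - cw (fun i => x i ^ 2) f none) / r) ^ 2
      + miss G (fun i => x i ^ 2) f + vE G x (l / (2 * m))) := by positivity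
    have h2 := mul_le_mul_of_nonneg_right hβ1.le hMpos.le
    linarith
  have kv : 2 * (m : ℝ) * vE G x (l / (2 * m)) ≤ C := by
    have h1 : 0 ≤ 2 * (m : ℝ) * (γ * cw (fun i => x i ^ 2) f none
      + ∑ t, (cw (fun i => x i ^ 2) f (some t) - (1 - cw (fun i => x i ^ 2) f none) / r) ^ 2
      + miss G (fun i => x i ^ 2) f) := by positivity
    linarith
  have km : 2 * (m : ℝ) * miss G (fun i => x i ^ 2) f ≤ C := by
    have h1 : 0 ≤ 2 * (m : ℝ) * (γ * cw (fun i => x i ^ 2) f none
      + ∑ t, (cw (fun i => x i ^ 2) f (some t) - (1 - cw (fun i => x i ^ 2) f none) / r) ^ 2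
      + vE G x (l / (2 * m))) := by positivity
    linarith
  have kc : 2 * (m : ℝ) * (γ * cw (fun i => x i ^ 2) f none) ≤ C := by
    have h1 : 0 ≤ 2 * (m : ℝ) * (∑ t, (cw (fun i => x i ^ 2) f (some t) -
      (1 - cw (fun i => x i ^ 2) f none) / r) ^ 2
      + miss G (fun i => x i ^ 2) f + vE G x (l / (2 * m))) := by positivity
    linarith
  have kS : 2 * (m : ℝ) * ∑ t, (cw (fun i => x i ^ 2) f (some t) -
      (1 - cw (fun i => x i ^ 2) f none) / r) ^ 2 ≤ C := by
    have h1 : 0 ≤ 2 * (m : ℝ) * (γ * cw (fun i => x i ^ 2) f none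
      + miss G (fun i => x i ^ 2) f + vE G x (l / (2 * m))) := by positivity
    linarith
  -- the general lower bound for the weights of the parts
  have lowb : ∀ (u : Fin r → ℝ) (w : ℝ), w ≤ 1 / 4 →
      2 * (m : ℝ) * ∑ t, (u t - (1 - w) / r) ^ 2 ≤ C → ∀ t, 1 / (4 * (r : ℝ)) ≤ u t := by
    intro u w hw hu t
    by_contra hlt
    push Not at hlt
    have h1 : (u t - (1 - w) / r) ^ 2 ≤ ∑ t, (u t - (1 - w) / r) ^ 2 :=
      Finset.single_le_sum (f := fun t => (u t - (1 - w) / r) ^ 2) (fun _ _ => sq_nonneg _)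
        (Finset.mem_univ t)
    have h2 : 1 / (2 * (r : ℝ)) < (1 - w) / r - u t := by
      have h3 : 3 / (4 * (r : ℝ)) ≤ (1 - w) / r := by
        rw [div_le_div_iff₀ (by positivity) hr0]
        have := mul_le_mul_of_nonneg_right hw hr0.le
        linarith
      have h4 : 3 / (4 * (r : ℝ)) - 1 / (4 * (r : ℝ)) = 1 / (2 * (r : ℝ)) := by
        field_simp
        norm_num
      linarith
    have h5 : (1 / (2 * (r : ℝ))) ^ 2 < ((1 - w) / r - u t) ^ 2 :=
      pow_lt_pow_left₀ h2 (by positivity) (by norm_num)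
    have h6 : ((1 - w) / r - u t) ^ 2 = (u t - (1 - w) / r) ^ 2 := by ring
    have h7 : 2 * (m : ℝ) * (1 / (2 * (r : ℝ))) ^ 2 < C := by
      refine lt_of_lt_of_le ?_ hu
      have : (1 / (2 * (r : ℝ))) ^ 2 < ∑ t, (u t - (1 - w) / r) ^ 2 := by linarith
      exact mul_lt_mul_of_pos_left this (by positivity)
    have h8 : C ≤ 2 * (m : ℝ) * (1 / (2 * (r : ℝ))) ^ 2 := by
      have e : 2 * (m : ℝ) * (1 / (2 * (r : ℝ))) ^ 2 = (m : ℝ) / (2 * (r : ℝ) ^ 2) := by
        field_simp
      rw [e, le_div_iff₀ (by positivity)]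
      linarith
    linarith
  -- scaling
  obtain ⟨c, hc⟩ : ∃ c : ℝ, c = l / (2 * m) := ⟨_, rfl⟩
  have hc0 : 0 < c := by rw [hc]; positivity
  have hcl : c * (2 * m) = l := by rw [hc]; field_simp
  have hcl1 : c * l ≤ 1 := by
    have h1 : c * l * (2 * m) = l ^ 2 := by rw [mul_right_comm, hcl]; ring
    by_contra h2
    push Not at h2
    have h3 : 1 * (2 * (m : ℝ)) < c * l * (2 * m) := mul_lt_mul_of_pos_right h2 (by positivity)
    linarith
  have hc4 : 4 * (m : ℝ) * c ^ 2 * m = l ^ 2 := by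
    rw [← hcl]
    ring
  have hc41 : 1 ≤ 4 * (m : ℝ) * c ^ 2 := by
    by_contra h2
    push Not at h2
    have h3 : 4 * (m : ℝ) * c ^ 2 * m < 1 * m := mul_lt_mul_of_pos_right h2 hMpos
    linarith
  rw [← hc] at key1 nv kv
  have bnd : ∀ q : ℝ, 2 * (m : ℝ) * q ≤ C → q / c ^ 2 ≤ 2 * C := by
    intro q hq
    rw [div_le_iff₀ (by positivity)]
    have h1 : C * 1 ≤ C * (4 * (m : ℝ) * c ^ 2) := mul_le_mul_of_nonneg_left hc41 (by linarith)
    have h2 : 2 * (m : ℝ) * q ≤ 2 * (m : ℝ) * (2 * C * c ^ 2) := by linarith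
    exact le_of_mul_le_mul_left h2 (by positivity)
  have hlb := lowb (fun t => cw (fun i => x i ^ 2) f (some t)) (cw (fun i => x i ^ 2) f none)
    (hcwf.trans hγ1) kS
  obtain ⟨z, hz⟩ : ∃ z : V → ℝ, z = fun i => x i / Real.sqrt c := ⟨_, rfl⟩
  have hsc : 0 < Real.sqrt c := Real.sqrt_pos.2 hc0
  have hz0 : ∀ i, 0 ≤ z i := fun i => by
    rw [hz]
    exact div_nonneg (hx0 i) hsc.le
  have hxz : ∀ i, x i = z i * Real.sqrt c := fun i => by
    rw [hz]
    field_simp
  have ev : ∑ i, ∑ j, adj G i j * (z i * z j - 1) ^ 2 = vE G x c / c ^ 2 := by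
    rw [hz]
    exact sc_vE G x hc0
  have em : ∀ f : V → Option (Fin r),
      miss G (fun i => z i ^ 2) f = miss G (fun i => x i ^ 2) f / c ^ 2 := fun f => by
    rw [hz]
    exact sc_miss G x f hc0
  have ec : ∀ (f : V → Option (Fin r)) (o : Option (Fin r)),
      cw (fun i => z i ^ 2) f o = cw (fun i => x i ^ 2) f o / c := fun f o => by
    rw [hz]
    exact sc_cw x f o hc0
  have hvz : vE G x c / c ^ 2 ≤ 2 * C := bnd _ kv
  have hmz : miss G (fun i => x i ^ 2) f / c ^ 2 ≤ 2 * C := bnd _ km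
  have hz1 := hnrm V G z f hz0 (by rw [ev]; exact hvz) (by rw [em]; exact hmz)
    (by
      intro t
      rw [ec, le_div_iff₀ hc0]
      have h1 := hlb t
      have h2 : Q0 * c ≤ 1 / (4 * (r : ℝ)) := by
        rw [le_div_iff₀ (by positivity)]
        have h3 : 4 * r * Q0 * c ≤ l * c := mul_le_mul_of_nonneg_right (hL2.trans hlL) hc0.le
        linarith
      exact h2.trans h1)
    (by
      rw [ec, div_le_iff₀ hc0]
      have h1 : C ≤ γ * δ ^ 2 * l :=
        hL1.trans (mul_le_mul_of_nonneg_left hlL (by positivity))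
      have h2 : (2 * (m : ℝ) * γ) * cw (fun i => x i ^ 2) f none ≤
          (2 * (m : ℝ) * γ) * (δ ^ 2 * c) := by
        have e : (2 * (m : ℝ) * γ) * (δ ^ 2 * c) = γ * δ ^ 2 * (c * (2 * m)) := by ring
        rw [e, hcl]
        linarith
      exact le_of_mul_le_mul_left h2 (by positivity))
  -- the new partition
  obtain ⟨g, hg⟩ : ∃ g : V → Option (Fin r), g = fun i => if |z i - 1| ≤ δ then f i else none :=
    ⟨_, rfl⟩
  have hg1 : ∀ i, g i ≠ none → g i = f i ∧ |z i - 1| ≤ δ := by
    intro i hi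
    by_cases h : |z i - 1| ≤ δ
    · refine ⟨?_, h⟩
      rw [hg]
      exact if_pos h
    · exfalso
      apply hi
      rw [hg]
      exact if_neg h
  have hg2 : ∀ i, g i = none → z i ≤ δ := by
    intro i hi
    rcases hz1 i with h | h
    · exfalso
      apply h.1
      rw [← hi, hg]
      exact (if_pos h.2).symm
    · exact h
  have hgI : Indep G g := by
    intro v w hv hvw
    have h1 := (hg1 v hv).1
    have h2 := (hg1 w (hvw ▸ hv)).1
    exact hI v w (h1 ▸ hv) (by rw [← h1, ← h2, hvw])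
  have hzu : ∀ i, z i ≤ 11 / 10 := by
    intro i
    by_cases h : g i = none
    · have := hg2 i h
      linarith
    · have := (abs_le.1 (hg1 i h).2).2
      linarith
  have hzl : ∀ i, g i ≠ none → 9 / 10 ≤ z i := by
    intro i h
    have := (abs_le.1 (hg1 i h).2).1
    linarith
  obtain ⟨hob, hmb⟩ := hV r δ V G z g hδ0 (by linarith) hz0 hg2 (fun i hi => (hg1 i hi).2)
  rw [ev] at hob
  rw [em] at hmb
  obtain ⟨b, hbdef⟩ : ∃ b : ℕ, b = (outSet G g).ncard := ⟨_, rfl⟩
  obtain ⟨a, hadef⟩ : ∃ a : ℕ, a = (missSet G g).ncard := ⟨_, rfl⟩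
  rw [← hbdef] at hob
  rw [← hadef] at hmb
  have hmz2 : miss G (fun i => x i ^ 2) g / c ^ 2 ≤ 2 * C := by
    refine le_trans ?_ hmz
    exact div_le_div_of_nonneg_right
      (miss_mono G _ f g hy0 fun i hi => (hg1 i hi).1) (by positivity)
  have hb0 : (0 : ℝ) ≤ (b : ℝ) := Nat.cast_nonneg b
  have ha0 : (0 : ℝ) ≤ (a : ℝ) := Nat.cast_nonneg a
  have hδ4 : 4 / 5 ≤ 1 - 4 * δ := by linarith
  have hb2 : (b : ℝ) ≤ 2 * C := by
    have h1 := mul_le_mul_of_nonneg_right hδ4 hb0
    linarith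
  have ha2 : (a : ℝ) ≤ 2 * C := by
    have h1 := mul_le_mul_of_nonneg_right hδ4 ha0
    linarith
  have hab : a + b ≤ ⌈4 * C⌉₊ := by
    have h1 : ((a + b : ℕ) : ℝ) ≤ (⌈4 * C⌉₊ : ℝ) := by
      push_cast
      have := Nat.le_ceil (4 * C)
      linarith
    exact_mod_cast h1
  -- the vertices outside
  have hxB : ∀ i, x i ≤ 11 / 10 * Real.sqrt c := fun i => by
    rw [hxz i]
    exact mul_le_mul_of_nonneg_right (hzu i) hsc.le
  obtain ⟨hyu1, hyu2⟩ := hY r V G x l m g (11 / 10 * Real.sqrt c) D hxB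
  have hB2 : (11 / 10 * Real.sqrt c) ^ 2 = 121 / 100 * c := by
    rw [mul_pow, Real.sq_sqrt hc0.le]
    norm_num
  rw [hB2, ← hbdef] at hyu1
  have ncg := cw_nonneg (fun i => x i ^ 2) g none hy0
  have hyU : cw (fun i => x i ^ 2) g none ≤ 1 / 10 := by
    have h1 : l * cw (fun i => x i ^ 2) g none ≤ l * (1 / 10) := by
      refine hyu1.trans ?_
      rw [← hcl]
      have h2 : 242 / 100 * (b : ℝ) ≤ 2 * m * (1 / 10) := by linarith
      have h3 := mul_le_mul_of_nonneg_right h2 hc0.le
      linarith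
    exact le_of_mul_le_mul_left h1 hlpos
  have hnbg : ∀ w, g w = none → nb G (fun i => x i ^ 2) w ≤ 1 - 1 / (r : ℝ) - 1 / 4 := by
    intro w hw
    have h1 := hyu2 w hw
    rw [hB2, ← hbdef] at h1
    have h2 : 242 * C * c ≤ l * c := mul_le_mul_of_nonneg_right (hL3.trans hlL) hc0.le
    have h3 : (b : ℝ) * c ≤ 2 * C * c := mul_le_mul_of_nonneg_right hb2 hc0.le
    linarith
  have key2 := hK r (1 / 4) V G x l m g (by omega) (by norm_num) D hgI hnbg (by linarith)
  rw [← hc] at key2
  have nmg := miss_nonneg G (fun i => x i ^ 2) g hy0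
  obtain ⟨S, hSdef⟩ : ∃ S : ℝ, S = ∑ t, (cw (fun i => x i ^ 2) g (some t) -
      (1 - cw (fun i => x i ^ 2) g none) / r) ^ 2 := ⟨_, rfl⟩
  have nSg : 0 ≤ S := by
    rw [hSdef]
    exact Finset.sum_nonneg fun _ _ => sq_nonneg _
  rw [← hSdef] at key2
  -- the sizes of the parts
  have kSg : 2 * (m : ℝ) * S ≤ C := by
    have h1 : 0 ≤ 2 * (m : ℝ) * (1 / 4 * cw (fun i => x i ^ 2) g none
      + miss G (fun i => x i ^ 2) g + vE G x c) := by positivity
    linarith
  have hlbg := lowb (fun t => cw (fun i => x i ^ 2) g (some t)) (cw (fun i => x i ^ 2) g none)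
    (by linarith) (by rw [← hSdef]; exact kSg)
  have hxB2 : ∀ i, (fun i => x i ^ 2) i ≤ 121 / 100 * c := fun i => by
    rw [← hB2]
    exact pow_le_pow_left₀ (hx0 i) (hxB i) 2
  have hsize : ∀ t, (s₁ : ℝ) + 1 ≤ ({i | g i = some t}.ncard : ℝ) := by
    intro t
    have h1 := hlbg t
    have h2 := cw_le (fun i => x i ^ 2) g t _ hxB2
    obtain ⟨n, hn⟩ : ∃ n : ℕ, n = {i | g i = some t}.ncard := ⟨_, rfl⟩
    rw [← hn] at h2 ⊢
    have h3 : 1 / (4 * (r : ℝ)) ≤ (n : ℝ) * (121 / 100 * c) := h1.trans h2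
    rw [div_le_iff₀ (by positivity)] at h3
    have hn0 : (0 : ℝ) ≤ (n : ℝ) := Nat.cast_nonneg n
    have h4 : 1 ≤ 5 * r * n * c := by linarith [mul_nonneg (mul_nonneg hn0 hr0.le) hc0.le]
    have h5 : 5 * r * ((s₁ : ℝ) + 1) * c ≤ 5 * r * n * c := by
      have h6 : 5 * r * ((s₁ : ℝ) + 1) * c ≤ l * c :=
        mul_le_mul_of_nonneg_right (hL4.trans hlL) hc0.le
      linarith [mul_comm l c]
    have h6 : (5 * r * c) * ((s₁ : ℝ) + 1) ≤ (5 * r * c) * n := by linarith
    exact le_of_mul_le_mul_left h6 (by positivity)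
  have hbal1 := hbal r V G x l m g hr D hm2 hlm hgI
    (by
      intro i hi
      rw [← hc, hxz i]
      exact mul_le_mul_of_nonneg_right (hzl i hi) hsc.le)
    (by
      intro i
      rw [← hc]
      exact hxB i)
    hyU
    (by
      intro t
      have h1 := hsize t
      by_contra hne
      push Not at hne
      have h2 : {i | g i = some t} = ∅ := by
        ext i
        simp [hne i]
      rw [h2, Set.ncard_empty] at h1
      have : (0 : ℝ) ≤ (s₁ : ℝ) := Nat.cast_nonneg _
      push_cast at h1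
      linarith)
    (by rw [← hadef, ← hbdef]; exact hab)
  have hdiff : ∀ s t, (({i | g i = some s}.ncard : ℝ) - ({i | g i = some t}.ncard : ℝ)) ^ 2 ≤
      10 ^ 6 * C := by
    intro s t
    have t4 : (({i | g i = some s}.ncard : ℝ) - ({i | g i = some t}.ncard : ℝ)) ^ 2 / 10 ^ 6 ≤
        2 * (m : ℝ) * S := by
      by_cases hst : s = t
      · subst hst
        rw [sub_self]
        have : 0 ≤ 2 * (m : ℝ) * S := by positivity
        linarith
      · refine (hbal1 s t).trans ?_
        have h1 := two_sq (fun t => cw (fun i => x i ^ 2) g (some t))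
          ((1 - cw (fun i => x i ^ 2) g none) / r) s t hst
        rw [← hSdef] at h1
        have h2 := mul_le_mul_of_nonneg_left h1 hMpos.le
        linarith
    have t6 := t4.trans kSg
    rw [div_le_iff₀ (by norm_num)] at t6
    linarith
  obtain ⟨σ, hσ⟩ : ∃ σ : Fin r → ℕ, σ = fun t => {i | g i = some t}.ncard := ⟨_, rfl⟩
  have hdiff2 : ∀ s t, ((σ s : ℝ) - (σ t : ℝ)) ^ 2 ≤ 10 ^ 6 * C := by
    intro s t
    rw [hσ]
    exact hdiff s t
  have hdev : dev σ ≤ r * (10 ^ 6 * C) := by
    unfold dev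
    have h1 : ∀ t : Fin r, ((σ t : ℝ) - (∑ s, (σ s : ℝ)) / r) ^ 2 ≤ 10 ^ 6 * C := by
      intro t
      have h2 : (σ t : ℝ) - (∑ s, (σ s : ℝ)) / r = (∑ s, ((σ t : ℝ) - σ s)) / r := by
        rw [Finset.sum_sub_distrib, Finset.sum_const, Finset.card_univ, Fintype.card_fin,
          nsmul_eq_mul, sub_div, mul_div_cancel_left₀ _ hr0.ne']
      rw [h2, div_pow, div_le_iff₀ (by positivity)]
      have h3 := sq_sum_le_card_mul_sum_sq (s := (Finset.univ : Finset (Fin r)))
        (f := fun s => (σ t : ℝ) - σ s)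
      have h4 : ∑ s, ((σ t : ℝ) - σ s) ^ 2 ≤ r * (10 ^ 6 * C) := by
        refine (Finset.sum_le_sum fun s _ => hdiff2 t s).trans (le_of_eq ?_)
        rw [Finset.sum_const, Finset.card_univ, Fintype.card_fin, nsmul_eq_mul]
      rw [Finset.card_univ, Fintype.card_fin] at h3
      have h5 := mul_le_mul_of_nonneg_left h4 hr0.le
      refine h3.trans (h5.trans (le_of_eq ?_))
      ring
    refine (Finset.sum_le_sum fun t _ => h1 t).trans (le_of_eq ?_)
    rw [Finset.sum_const, Finset.card_univ, Fintype.card_fin, nsmul_eq_mul]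
  refine ⟨x, g, σ, a, b, D, ⟨fun t => by rw [hσ], hgI, hadef.symm, hbdef.symm⟩, ?_, ?_, ?_, ?_, ?_⟩
  · intro t
    have h1 := hsize t
    have h2 : (s₁ : ℝ) ≤ ({i | g i = some t}.ncard : ℝ) := by linarith
    rw [hσ]
    exact_mod_cast h2
  · omega
  · push_cast
    have h1 := Nat.le_ceil ((r : ℝ) * (10 ^ 6 * C))
    have h2 : (0 : ℝ) ≤ (⌈4 * C⌉₊ : ℝ) := Nat.cast_nonneg _
    linarith
  · intro i hi
    rw [← hc, hxz i]
    exact mul_le_mul_of_nonneg_right ((hg2 i hi).trans hδ2) hsc.le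
  · intro i hi
    rw [← hc, hxz i]
    have e : z i * Real.sqrt c - Real.sqrt c = (z i - 1) * Real.sqrt c := by ring
    rw [e, abs_mul, abs_of_pos hsc]
    exact mul_le_mul_of_nonneg_right ((hg1 i hi).2.trans hδ2) hsc.le

end MP0c3a8f

end

section

open Finset

namespace MP0c3a8f

/-- a uniform bound for the types which do not occur -/
theorem STRF_bound {W : Type} [Fintype W] (F : SimpleGraph W) (r N : ℕ) :
    ∃ S : ℕ, ∀ a' b', a' + b' < N → ¬ Real r F a' b' → ∀ s ≥ S, ¬ ∃ (k : ℕ)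
      (G : SimpleGraph (Fin k)) (f : Fin k → Option (Fin r)),
      IsMod r s a' b' G f ∧ F.Free G ∧ ¬ G.Colorable r ∧ ∀ v, ∃ w, G.Adj v w := by
  have h1 : ∀ a' b', ∃ s₀ : ℕ, ¬ Real r F a' b' → ∀ s ≥ s₀, ¬ ∃ (k : ℕ)
      (G : SimpleGraph (Fin k)) (f : Fin k → Option (Fin r)),
      IsMod r s a' b' G f ∧ F.Free G ∧ ¬ G.Colorable r ∧ ∀ v, ∃ w, G.Adj v w := by
    intro a' b'
    by_cases h2 : Real r F a' b'
    · exact ⟨0, fun h => absurd h2 h⟩
    · by_contra hcon
      apply h2
      intro s₀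
      by_contra h3
      exact hcon ⟨s₀, fun _ s hs h4 => h3 ⟨s, hs, h4⟩⟩
  choose σ hσ using h1
  refine ⟨∑ a' ∈ range (N + 1), ∑ b' ∈ range (N + 1), σ a' b', ?_⟩
  intro a' b' hab hR s hs
  refine hσ a' b' hR s (le_trans ?_ hs)
  calc σ a' b' ≤ ∑ b' ∈ range (N + 1), σ a' b' :=
        Finset.single_le_sum (f := fun b' => σ a' b') (fun _ _ => Nat.zero_le _)
          (Finset.mem_range.mpr (by omega))
    _ ≤ ∑ a' ∈ range (N + 1), ∑ b' ∈ range (N + 1), σ a' b' :=
        Finset.single_le_sum (f := fun a' => ∑ b' ∈ range (N + 1), σ a' b')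
          (fun _ _ => Nat.zero_le _) (Finset.mem_range.mpr (by omega))

theorem prfSTRF : STR2_statement → PRE_statement → RED_statement → LOWS_statement →
    STRF_statement := by
  intro hSt hPre hRed hLow W _ F r hr hcrit hcol C ε s₁ hε
  obtain ⟨N, hN⟩ := hSt W F r hr hcrit hcol C
  obtain ⟨N', hN1, hN2⟩ : ∃ N' : ℕ, N ≤ N' ∧ C ≤ N' :=
    ⟨max N ⌈C⌉₊, le_max_left _ _, le_trans (Nat.le_ceil C) (by
      exact_mod_cast le_max_right N ⌈C⌉₊)⟩
  obtain ⟨S, hS⟩ := STRF_bound F r (N' + 1)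
  obtain ⟨δ, hδ, m1, hpre⟩ := hPre r N' ε hr hε
  obtain ⟨n0, hlow⟩ := hLow r N' N' ε hr hε
  obtain ⟨m2, hm2⟩ := hN δ (max s₁ (S + 2 * N' + n0 + 1)) hδ
  refine ⟨max m1 m2, ?_⟩
  intro m hm V _ G hG hlam
  obtain ⟨x, g, σ, a, b, hD, hM, hs, hab, hdev, hx0, hx1⟩ := hm2 V G hG.free
    (by rw [hG.size]; exact le_trans (le_max_right _ _) hm) (by rw [hG.size]; exact hlam)
  have hNN : (N : ℝ) ≤ N' := by exact_mod_cast hN1
  have hs2 : ∀ t, S + 2 * N' + n0 + 1 ≤ σ t := fun t => le_trans (le_max_right _ _) (hs t)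
  refine ⟨σ, a, b, g, hM, fun t => le_trans (le_max_left _ _) (hs t), ?_, ?_⟩
  · by_contra hn
    obtain ⟨k, H, f, h6, h7, h8, h9⟩ := hRed W F r (S + 2 * N' + 1) V G g hr hM.indep
      (by rw [hM.miss, hM.outer]; omega)
      (by intro t; rw [hM.size]; have := hs2 t; omega) hG.free hG.notPartite hG.noIso
    rw [hM.miss, hM.outer] at h6
    exact hS a b (by omega) hn _ (by omega) ⟨k, H, f, h6, h7, h8, h9⟩
  · have h1 := hpre V G x (lam G) m g σ a b (by rw [← hG.size]; exact hD)
      (le_trans (le_max_left _ _) hm) (by linarith) hM (fun t => by have := hs2 t; omega)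
      (by omega) (by linarith) (by rw [← hG.size]; exact hx0) (by rw [← hG.size]; exact hx1)
    have h2 := hlow σ a b V G g hM (by
      have h3 : σ ⟨0, by omega⟩ ≤ ∑ t, σ t :=
        Finset.single_le_sum (f := σ) (fun _ _ => Nat.zero_le _) (Finset.mem_univ _)
      have := hs2 ⟨0, by omega⟩
      omega) (by linarith) (by omega)
    rw [hG.size] at h2
    rw [abs_le]
    constructor <;> linarith

end MP0c3a8f

end

section

/-!
# Item SYM (helper81): symmetry of `TUMn`
-/

open Finset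

namespace MP0c3a8f

theorem SYM_swap {r s a b : ℕ} (ha : a < r) (hb : b < r) (h : a < s ↔ b < s) (t : ℕ) :
    (Equiv.swap a b t < r ↔ t < r) ∧ (Equiv.swap a b t < s ↔ t < s) := by
  by_cases h1 : t = a
  · subst h1
    rw [Equiv.swap_apply_left]
    exact ⟨⟨fun _ => ha, fun _ => hb⟩, h.symm⟩
  · by_cases h2 : t = b
    · subst h2
      rw [Equiv.swap_apply_right]
      exact ⟨⟨fun _ => hb, fun _ => ha⟩, h⟩
    · rw [Equiv.swap_apply_of_ne_of_ne h1 h2]
      exact ⟨Iff.rfl, Iff.rfl⟩

/-- the induced map of the vertices -/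
def SYM_map (r : ℕ) (ρ : Equiv.Perm ℕ) (p : ℕ) : ℕ := r * (p / r) + ρ (p % r)

theorem SYM_map_div {r : ℕ} (hr : 0 < r) {ρ : Equiv.Perm ℕ} (hρ : ∀ t, ρ t < r ↔ t < r) (p : ℕ) :
    SYM_map r ρ p / r = p / r ∧ SYM_map r ρ p % r = ρ (p % r) := by
  have h := (hρ (p % r)).2 (Nat.mod_lt _ hr)
  unfold SYM_map
  constructor
  · rw [Nat.mul_add_div hr, Nat.div_eq_of_lt h, add_zero]
  · rw [Nat.mul_add_mod, Nat.mod_eq_of_lt h]

theorem SYM_lt {r n : ℕ} (hr : 0 < r) (p : ℕ) :
    p < n ↔ (p / r < n / r ∨ (p / r = n / r ∧ p % r < n % r)) := by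
  have h1 := Nat.div_add_mod p r
  have h2 := Nat.div_add_mod n r
  have h3 := Nat.mod_lt p hr
  have h4 := Nat.mod_lt n hr
  constructor
  · intro h
    rcases lt_trichotomy (p / r) (n / r) with h5 | h5 | h5
    · exact Or.inl h5
    · right
      refine ⟨h5, ?_⟩
      rw [h5] at h1
      omega
    · exfalso
      have := Nat.div_le_div_right (c := r) h.le
      omega
  · rintro (h5 | ⟨h5, h6⟩)
    · have h6 : r * (p / r + 1) ≤ r * (n / r) := Nat.mul_le_mul_left r h5
      rw [mul_add, mul_one] at h6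
      omega
    · rw [h5] at h1
      omega

theorem SYM_map_lt {r n : ℕ} (hr : 0 < r) {ρ : Equiv.Perm ℕ} (hρ : ∀ t, ρ t < r ↔ t < r)
    (hs : ∀ t, ρ t < n % r ↔ t < n % r) (p : ℕ) : SYM_map r ρ p < n ↔ p < n := by
  rw [SYM_lt hr, SYM_lt hr (p := p), (SYM_map_div hr hρ p).1, (SYM_map_div hr hρ p).2, hs]

theorem SYM_map_inv {r : ℕ} (hr : 0 < r) {ρ : Equiv.Perm ℕ} (hρ : ∀ t, ρ t < r ↔ t < r) (p : ℕ) :
    SYM_map r ρ.symm (SYM_map r ρ p) = p := by
  show r * (SYM_map r ρ p / r) + ρ.symm (SYM_map r ρ p % r) = p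
  rw [(SYM_map_div hr hρ p).1, (SYM_map_div hr hρ p).2, Equiv.symm_apply_apply, Nat.div_add_mod]

theorem SYM_symm {s : ℕ} {ρ : Equiv.Perm ℕ} (hρ : ∀ t, ρ t < s ↔ t < s) (t : ℕ) :
    ρ.symm t < s ↔ t < s := by
  have := hρ (ρ.symm t)
  rw [Equiv.apply_symm_apply] at this
  exact this.symm

/-- the induced permutation of the vertices -/
def SYM_equiv {r n : ℕ} (hr : 0 < r) (ρ : Equiv.Perm ℕ) (hρ : ∀ t, ρ t < r ↔ t < r)
    (hs : ∀ t, ρ t < n % r ↔ t < n % r) : Fin n ≃ Fin n where
  toFun p := ⟨SYM_map r ρ p, (SYM_map_lt hr hρ hs _).2 p.2⟩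
  invFun p := ⟨SYM_map r ρ.symm p, (SYM_map_lt hr (SYM_symm hρ) (SYM_symm hs) _).2 p.2⟩
  left_inv p := Fin.ext (SYM_map_inv hr hρ p)
  right_inv p := Fin.ext (SYM_map_inv (ρ := ρ.symm) hr (SYM_symm hρ) p)

theorem prfSYM : SYM_statement := by
  intro r n i j i' j' hi hj hi' hj' hij hij' hrn hti htj
  have hr : 0 < r := by omega
  set j1 := Equiv.swap i i' j with hj1
  have hs1 := fun t => SYM_swap hi hi' hti t
  have hj1r : j1 < r := (hs1 j).1.2 hj
  have hj1t : j1 < n % r ↔ j' < n % r := (hs1 j).2.trans htj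
  have hs2 := fun t => SYM_swap hj1r hj' hj1t t
  set ρ : Equiv.Perm ℕ := (Equiv.swap i i').trans (Equiv.swap j1 j') with hρdef
  have hρ : ∀ t, ρ t < r ↔ t < r := fun t => (hs2 _).1.trans (hs1 t).1
  have hs : ∀ t, ρ t < n % r ↔ t < n % r := fun t => (hs2 _).2.trans (hs1 t).2
  have hρi : ρ i = i' := by
    show Equiv.swap j1 j' (Equiv.swap i i' i) = i'
    rw [Equiv.swap_apply_left]
    refine Equiv.swap_apply_of_ne_of_ne ?_ hij'
    intro h
    apply hij
    have : Equiv.swap i i' i = Equiv.swap i i' j := by rw [Equiv.swap_apply_left, ← hj1]; exact h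
    exact (Equiv.swap i i').injective this
  have hρj : ρ j = j' := by
    show Equiv.swap j1 j' (Equiv.swap i i' j) = j'
    rw [← hj1, Equiv.swap_apply_left]
  have hmap : ∀ {a b : ℕ}, a < r → ρ a = b → SYM_map r ρ a = b := by
    intro a b ha hab
    unfold SYM_map
    rw [Nat.div_eq_of_lt ha, Nat.mod_eq_of_lt ha, mul_zero, zero_add, hab]
  have hinj : Function.Injective (SYM_map r ρ) := by
    intro a b hab
    have := congrArg (SYM_map r ρ.symm) hab
    rwa [SYM_map_inv hr hρ, SYM_map_inv hr hρ] at this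
  have e1 : ∀ p : ℕ, SYM_map r ρ p = i' ↔ p = i := fun p => by
    rw [← hmap hi hρi]; exact hinj.eq_iff
  have e2 : ∀ p : ℕ, SYM_map r ρ p = j' ↔ p = j := fun p => by
    rw [← hmap hj hρj]; exact hinj.eq_iff
  have e3 : ∀ p q : ℕ, SYM_map r ρ p % r ≠ SYM_map r ρ q % r ↔ p % r ≠ q % r := fun p q => by
    rw [(SYM_map_div hr hρ p).2, (SYM_map_div hr hρ q).2]
    exact ρ.injective.ne_iff
  have e4 : ∀ p : ℕ, SYM_map r ρ p < r ↔ p < r := fun p => by
    rw [← Nat.div_eq_zero_iff_lt hr, (SYM_map_div hr hρ p).1, Nat.div_eq_zero_iff_lt hr]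
  refine ⟨⟨(SYM_equiv hr ρ hρ hs).optionCongr, ?_⟩⟩
  intro p q
  rcases p with _ | p <;> rcases q with _ | q
  · simp [TUMn]
  · simp only [TUMn, SimpleGraph.fromRel_adj, Equiv.optionCongr_apply, Option.map_none,
      Option.map_some, SYM_equiv, Equiv.coe_fn_mk, e4, ne_eq, reduceCtorEq, not_false_eq_true,
      true_and]
  · simp only [TUMn, SimpleGraph.fromRel_adj, Equiv.optionCongr_apply, Option.map_none,
      Option.map_some, SYM_equiv, Equiv.coe_fn_mk, e4, ne_eq, reduceCtorEq, not_false_eq_true,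
      true_and]
  · simp only [TUMn, SimpleGraph.fromRel_adj, Equiv.optionCongr_apply,
      Option.map_some, SYM_equiv, Equiv.coe_fn_mk, e1, e2, e3, ne_eq, Option.some.injEq,
      hinj.eq_iff, Fin.ext_iff]

end MP0c3a8f

end

section

/-!
# MP_0c3a8f_co, extension: classification of the types (0, r) and (1, r) (item TUCn)
-/

open Finset

namespace MP0c3a8f

namespace TUCn_

lemma card_res {r : ℕ} (n : ℕ) (t : Fin r) :
    Fintype.card {p : Fin n // p.val % r = t.val} = tz r n t := by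
  have hr : 0 < r := lt_of_le_of_lt (Nat.zero_le _) t.2
  have h1 := Nat.count_modEq_card n hr t.val
  rw [Nat.count_eq_card_filter_range, Nat.mod_eq_of_lt t.2] at h1
  unfold tz
  rw [← h1, Fintype.card_subtype]
  refine Finset.card_bij (fun p _ => p.val) ?_ ?_ ?_
  · intro p hp
    rw [Finset.mem_filter] at hp ⊢
    refine ⟨Finset.mem_range.2 p.2, ?_⟩
    unfold Nat.ModEq
    rw [hp.2, Nat.mod_eq_of_lt t.2]
  · intro p _ q _ h
    exact Fin.ext h
  · intro p hp
    rw [Finset.mem_filter, Finset.mem_range] at hp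
    refine ⟨⟨p, hp.1⟩, ?_, rfl⟩
    rw [Finset.mem_filter]
    refine ⟨Finset.mem_univ _, ?_⟩
    have := hp.2
    unfold Nat.ModEq at this
    rw [Nat.mod_eq_of_lt t.2] at this
    exact this

/-- Coordinates in the parts. -/
lemma coords {V : Type} [Fintype V] {r n : ℕ} (f : V → Option (Fin r)) (q : Fin r → V)
    (π : Equiv.Perm (Fin r)) (hs : ∀ t, {v | f v = some t}.ncard = tz r n (π t))
    (hq : ∀ t, f (q t) = some t) (hr : 0 < r) (hrn : r ≤ n) :
    ∃ g : Fin r → V → Fin n,
      (∀ t v, f v = some t → (g t v).val % r = (π t).val) ∧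
      (∀ t v w, f v = some t → f w = some t → g t v = g t w → v = w) ∧
      (∀ t (p : Fin n), p.val % r = (π t).val → ∃ v, f v = some t ∧ g t v = p) ∧
      (∀ t v, f v = some t → ((g t v).val = (π t).val ↔ v = q t)) := by
  classical
  have key : ∀ t : Fin r, ∃ g : V → Fin n,
      (∀ v, f v = some t → (g v).val % r = (π t).val) ∧
      (∀ v w, f v = some t → f w = some t → g v = g w → v = w) ∧
      (∀ (p : Fin n), p.val % r = (π t).val → ∃ v, f v = some t ∧ g v = p) ∧
      (∀ v, f v = some t → ((g v).val = (π t).val ↔ v = q t)) := by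
    intro t
    have hc : Fintype.card {v // f v = some t} =
        Fintype.card {p : Fin n // p.val % r = (π t).val} := by
      rw [card_res, ← hs t, ← Nat.card_coe_set_eq, Nat.card_eq_fintype_card]
      rfl
    set e0 := Fintype.equivOfCardEq hc with he0
    have hpt : (π t).val < n := lt_of_lt_of_le (π t).2 hrn
    set b : {p : Fin n // p.val % r = (π t).val} :=
      ⟨⟨(π t).val, hpt⟩, Nat.mod_eq_of_lt (π t).2⟩ with hb
    set e := e0.trans (Equiv.swap (e0 ⟨q t, hq t⟩) b) with he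
    have heq : e ⟨q t, hq t⟩ = b := by
      rw [he, Equiv.trans_apply, Equiv.swap_apply_left]
    refine ⟨fun v => if h : f v = some t then (e ⟨v, h⟩).val else b.val, ?_, ?_, ?_, ?_⟩
    · intro v hv
      simp only [dif_pos hv]
      exact (e ⟨v, hv⟩).2
    · intro v w hv hw h
      simp only [dif_pos hv, dif_pos hw] at h
      have := e.injective (Subtype.ext h)
      exact congrArg Subtype.val this
    · intro p hp
      refine ⟨(e.symm ⟨p, hp⟩).val, (e.symm ⟨p, hp⟩).2, ?_⟩
      simp only [dif_pos (e.symm ⟨p, hp⟩).2]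
      rw [Subtype.coe_eta, e.apply_symm_apply]
    · intro v hv
      simp only [dif_pos hv]
      constructor
      · intro h
        have h1 : e ⟨v, hv⟩ = e ⟨q t, hq t⟩ := by
          rw [heq]
          exact Subtype.ext (Fin.ext h)
        exact congrArg Subtype.val (e.injective h1)
      · intro h
        subst h
        have : e ⟨q t, hv⟩ = b := heq
        rw [this]
  choose g hg using key
  exact ⟨g, fun t => (hg t).1, fun t => (hg t).2.1, fun t => (hg t).2.2.1, fun t => (hg t).2.2.2⟩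

/-- The identification. -/
def FF {V : Type} {r n : ℕ} (f : V → Option (Fin r)) (g : Fin r → V → Fin n) (v : V) :
    Option (Fin n) :=
  match f v with
  | none => none
  | some t => some (g t v)

lemma FF_none {V : Type} {r n : ℕ} {f : V → Option (Fin r)}
    (g : Fin r → V → Fin n) {v : V} (h : f v = none) : FF f g v = none := by
  unfold FF
  rw [h]

lemma FF_some {V : Type} {r n : ℕ} {f : V → Option (Fin r)}
    (g : Fin r → V → Fin n) {v : V} {t : Fin r} (h : f v = some t) :
    FF f g v = some (g t v) := by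
  unfold FF
  rw [h]

lemma FF_bij {V : Type} {r n : ℕ} (f : V → Option (Fin r)) (π : Equiv.Perm (Fin r))
    (g : Fin r → V → Fin n) (u : V) (hr : 0 < r) (hu : ∀ v, f v = none ↔ v = u)
    (h0 : ∀ t v, f v = some t → (g t v).val % r = (π t).val)
    (h1 : ∀ t v w, f v = some t → f w = some t → g t v = g t w → v = w)
    (h2 : ∀ t (p : Fin n), p.val % r = (π t).val → ∃ v, f v = some t ∧ g t v = p) :
    Function.Bijective (FF f g) := by
  constructor
  · intro v w h
    rcases hv : f v with _ | t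
    · rcases hw : f w with _ | t'
      · rw [(hu v).1 hv, (hu w).1 hw]
      · rw [FF_none g hv, FF_some g hw] at h
        cases h
    · rcases hw : f w with _ | t'
      · rw [FF_some g hv, FF_none g hw] at h
        cases h
      · rw [FF_some g hv, FF_some g hw] at h
        have h3 := Option.some.inj h
        have h4 : (π t).val = (π t').val := by
          rw [← h0 t v hv, ← h0 t' w hw, h3]
        have h5 : t = t' := π.injective (Fin.ext h4)
        subst h5
        exact h1 t v w hv hw h3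
  · intro p
    rcases p with _ | p
    · exact ⟨u, FF_none g ((hu u).2 rfl)⟩
    · obtain ⟨v, hv, hi⟩ := h2 (π.symm ⟨p.val % r, Nat.mod_lt _ hr⟩) p
        (by rw [Equiv.apply_symm_apply])
      refine ⟨v, ?_⟩
      rw [FF_some g hv, hi]

/-- Values of the coordinates. -/
lemma val_eq {V : Type} {r n : ℕ} {f : V → Option (Fin r)} {π : Equiv.Perm (Fin r)}
    {g : Fin r → V → Fin n} {q : Fin r → V} (hq : ∀ t, f (q t) = some t)
    (h0 : ∀ t v, f v = some t → (g t v).val % r = (π t).val)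
    (h3 : ∀ t v, f v = some t → ((g t v).val = (π t).val ↔ v = q t)) {a c : Fin r} {v : V}
    (hv : f v = some a) : (g a v).val = (π c).val ↔ v = q c := by
  constructor
  · intro h
    have h4 := h0 a v hv
    rw [h, Nat.mod_eq_of_lt (π c).2] at h4
    have h5 : c = a := π.injective (Fin.ext h4)
    subst h5
    exact (h3 c v hv).1 h
  · intro h
    have h5 : a = c := by
      have : some a = some c := by rw [← hv, h, hq]
      exact Option.some.inj this
    subst h5
    exact (h3 a v hv).2 h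

lemma val_lt {V : Type} {r n : ℕ} {f : V → Option (Fin r)} {π : Equiv.Perm (Fin r)}
    {g : Fin r → V → Fin n} {q : Fin r → V}
    (h0 : ∀ t v, f v = some t → (g t v).val % r = (π t).val)
    (h3 : ∀ t v, f v = some t → ((g t v).val = (π t).val ↔ v = q t)) {a : Fin r} {v : V}
    (hv : f v = some a) : (g a v).val < r ↔ v = q a := by
  rw [← h3 a v hv]
  constructor
  · intro h
    rw [← h0 a v hv, Nat.mod_eq_of_lt h]
  · intro h
    rw [h]
    exact (π a).2

end TUCn_

open TUCn_ in
theorem prfTUCn : CLSS_statement → (TUCn_statement ∧ TUMCn_statement) := by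
  intro hcls
  constructor
  · intro r n σ π V _ G f hr hrn hσ hmod hcol hiso
    classical
    obtain ⟨u, q, hu, hq, hadj⟩ := hcls r σ 0 V G f hr hmod hcol hiso
    obtain ⟨g, g0, g1, g2, g3⟩ := coords (n := n) f q π
      (fun t => (hmod.size t).trans (hσ t)) hq (by omega) hrn
    have hmiss : missSet G f = ∅ := by
      have := hmod.miss
      rwa [Set.ncard_eq_zero (Set.toFinite _)] at this
    have hG : ∀ v w, f v ≠ none → f w ≠ none → (G.Adj v w ↔ f v ≠ f w) := by
      intro v w hv hw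
      constructor
      · intro h h'
        exact hmod.indep v w hv h' h
      · intro h
        by_contra h'
        have : s(v, w) ∈ missSet G f := ⟨v, w, rfl, hv, hw, h, h'⟩
        rw [hmiss] at this
        exact this
    refine ⟨⟨Equiv.ofBijective _ (FF_bij f π g u (by omega) hu g0 g1 g2), ?_⟩⟩
    intro v w
    simp only [Equiv.ofBijective_apply, TUn, SimpleGraph.fromRel_adj]
    rcases hv : f v with _ | a
    · rcases hw : f w with _ | b
      · rw [FF_none g hv, FF_none g hw]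
        have e1 := (hu v).1 hv
        have e2 := (hu w).1 hw
        subst e1
        subst e2
        simp
      · rw [FF_none g hv, FF_some g hw]
        have e1 := (hu v).1 hv
        subst e1
        rw [hadj]
        simp only [ne_eq, reduceCtorEq, not_false_eq_true, or_self, true_and, val_lt g0 g3 hw]
        constructor
        · intro h
          exact ⟨b, h⟩
        · rintro ⟨t, ht⟩
          have : some b = some t := by rw [← hw, ht, hq]
          rw [Option.some.inj this]
          exact ht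
    · rcases hw : f w with _ | b
      · rw [FF_some g hv, FF_none g hw]
        have e1 := (hu w).1 hw
        subst e1
        rw [G.adj_comm, hadj]
        simp only [ne_eq, reduceCtorEq, not_false_eq_true, or_self, true_and, val_lt g0 g3 hv]
        constructor
        · intro h
          exact ⟨a, h⟩
        · rintro ⟨t, ht⟩
          have : some a = some t := by rw [← hv, ht, hq]
          rw [Option.some.inj this]
          exact ht
      · rw [FF_some g hv, FF_some g hw, hG v w (by rw [hv]; simp) (by rw [hw]; simp), hv, hw]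
        simp only [ne_eq, Option.some.injEq, g0 a v hv, g0 b w hw]
        have hab : (π a).val = (π b).val ↔ a = b :=
          ⟨fun h => π.injective (Fin.ext h), fun h => by rw [h]⟩
        have hba : (π b).val = (π a).val ↔ a = b :=
          ⟨fun h => π.injective (Fin.ext h.symm), fun h => by rw [h]⟩
        rw [hab, hba, or_self]
        constructor
        · rintro ⟨-, h⟩
          exact h
        · intro h
          refine ⟨fun h' => h ?_, h⟩
          apply hab.1
          rw [← g0 a v hv, ← g0 b w hw, h']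
  · intro r n σ π V _ G f hr hrn hσ hmod hcol hiso hfree
    classical
    obtain ⟨u, q, hu, hq, hadj⟩ := hcls r σ 1 V G f hr hmod hcol hiso
    obtain ⟨g, g0, g1, g2, g3⟩ := coords (n := n) f q π
      (fun t => (hmod.size t).trans (hσ t)) hq (by omega) hrn
    have hqi : ∀ a b, q a = q b → a = b := by
      intro a b h
      have : some a = some b := by rw [← hq a, h, hq b]
      exact Option.some.inj this
    -- a missing pair
    have hex : ∃ t t', t ≠ t' ∧ ¬ G.Adj (q t) (q t') := by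
      by_contra hcon
      push Not at hcon
      apply hfree
      have hhom : ∀ i j : Fin (r + 1), i ≠ j →
          G.Adj ((Fin.cons u q : Fin (r + 1) → V) i) ((Fin.cons u q : Fin (r + 1) → V) j) := by
        intro i j hij
        refine Fin.cases ?_ (fun i' => ?_) i (motive := fun i => i ≠ j →
          G.Adj ((Fin.cons u q : Fin (r + 1) → V) i) ((Fin.cons u q : Fin (r + 1) → V) j)) hij
        · intro hj
          refine Fin.cases (fun h => absurd rfl h) (fun j' _ => ?_) j (motive := fun j => 0 ≠ j →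
            G.Adj ((Fin.cons u q : Fin (r + 1) → V) 0) ((Fin.cons u q : Fin (r + 1) → V) j)) hj
          rw [Fin.cons_zero, Fin.cons_succ]
          exact (hadj _).2 ⟨j', rfl⟩
        · intro hj
          refine Fin.cases (fun _ => ?_) (fun j' h => ?_) j (motive := fun j => i'.succ ≠ j →
            G.Adj ((Fin.cons u q : Fin (r + 1) → V) i'.succ)
              ((Fin.cons u q : Fin (r + 1) → V) j)) hj
          · rw [Fin.cons_zero, Fin.cons_succ]
            exact ((hadj _).2 ⟨i', rfl⟩).symm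
          · rw [Fin.cons_succ, Fin.cons_succ]
            exact hcon i' j' (fun h' => h (by rw [h']))
      let φ : (⊤ : SimpleGraph (Fin (r + 1))) →g G :=
        { toFun := (Fin.cons u q : Fin (r + 1) → V)
          map_rel' := fun {i j} h => hhom i j (by simpa using h) }
      refine ⟨φ.toCopy ?_⟩
      intro i j hij
      by_contra hne
      have h1 := hhom i j hne
      have h2 : (Fin.cons u q : Fin (r + 1) → V) i = (Fin.cons u q : Fin (r + 1) → V) j := hij
      rw [h2] at h1
      exact G.loopless.irrefl _ h1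
    -- in increasing order
    have hex' : ∃ t t', (π t).val < (π t').val ∧ ¬ G.Adj (q t) (q t') := by
      obtain ⟨t, t', htt, hn⟩ := hex
      have hne : (π t).val ≠ (π t').val := fun h => htt (π.injective (Fin.ext h))
      rcases lt_or_gt_of_ne hne with h | h
      · exact ⟨t, t', h, hn⟩
      · exact ⟨t', t, h, fun h' => hn h'.symm⟩
    obtain ⟨t, t', hlt, hnadj⟩ := hex'
    have htt : t ≠ t' := by
      rintro rfl
      exact lt_irrefl _ hlt
    refine ⟨(π t).val, (π t').val, hlt, (π t').2, ?_⟩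
    have hmiss : missSet G f = {s(q t, q t')} := by
      have h1 := hmod.miss
      rw [Set.ncard_eq_one] at h1
      obtain ⟨e, he⟩ := h1
      have h2 : s(q t, q t') ∈ missSet G f :=
        ⟨q t, q t', rfl, by rw [hq]; simp, by rw [hq]; simp, by rw [hq, hq]; simpa using htt, hnadj⟩
      rw [he, Set.mem_singleton_iff] at h2
      rw [he, h2]
    have hG : ∀ v w, f v ≠ none → f w ≠ none →
        (G.Adj v w ↔ f v ≠ f w ∧ s(v, w) ≠ s(q t, q t')) := by
      intro v w hv hw
      constructor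
      · intro h
        refine ⟨fun h' => hmod.indep v w hv h' h, fun h' => hnadj ?_⟩
        rw [Sym2.eq_iff] at h'
        rcases h' with ⟨h1, h2⟩ | ⟨h1, h2⟩
        · rw [← h1, ← h2]
          exact h
        · rw [← h1, ← h2]
          exact h.symm
      · rintro ⟨h, h3⟩
        by_contra h'
        have : s(v, w) ∈ missSet G f := ⟨v, w, rfl, hv, hw, h, h'⟩
        rw [hmiss, Set.mem_singleton_iff] at this
        exact h3 this
    refine ⟨⟨Equiv.ofBijective _ (FF_bij f π g u (by omega) hu g0 g1 g2), ?_⟩⟩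
    intro v w
    simp only [Equiv.ofBijective_apply, TUMn, SimpleGraph.fromRel_adj]
    rcases hv : f v with _ | a
    · rcases hw : f w with _ | b
      · rw [FF_none g hv, FF_none g hw]
        have e1 := (hu v).1 hv
        have e2 := (hu w).1 hw
        subst e1
        subst e2
        simp
      · rw [FF_none g hv, FF_some g hw]
        have e1 := (hu v).1 hv
        subst e1
        rw [hadj]
        simp only [ne_eq, reduceCtorEq, not_false_eq_true, or_self, true_and, val_lt g0 g3 hw]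
        constructor
        · intro h
          exact ⟨b, h⟩
        · rintro ⟨t, ht⟩
          have : some b = some t := by rw [← hw, ht, hq]
          rw [Option.some.inj this]
          exact ht
    · rcases hw : f w with _ | b
      · rw [FF_some g hv, FF_none g hw]
        have e1 := (hu w).1 hw
        subst e1
        rw [G.adj_comm, hadj]
        simp only [ne_eq, reduceCtorEq, not_false_eq_true, or_self, true_and, val_lt g0 g3 hv]
        constructor
        · intro h
          exact ⟨a, h⟩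
        · rintro ⟨t, ht⟩
          have : some a = some t := by rw [← hv, ht, hq]
          rw [Option.some.inj this]
          exact ht
      · rw [FF_some g hv, FF_some g hw, hG v w (by rw [hv]; simp) (by rw [hw]; simp), hv, hw]
        simp only [ne_eq, Option.some.injEq, g0 a v hv, g0 b w hw, val_eq hq g0 g3 hv,
          val_eq hq g0 g3 hw]
        have hab : (π a).val = (π b).val ↔ a = b :=
          ⟨fun h => π.injective (Fin.ext h), fun h => by rw [h]⟩
        have hba : (π b).val = (π a).val ↔ a = b :=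
          ⟨fun h => π.injective (Fin.ext h.symm), fun h => by rw [h]⟩
        have hg : g a v = g b w → a = b := by
          intro h
          apply hab.1
          rw [← g0 a v hv, ← g0 b w hw, h]
        rw [hab, hba, Sym2.eq_iff]
        tauto

end MP0c3a8f

end

section

open Finset

namespace MP0c3a8f

theorem TUPn_ss (r n : ℕ) (p q : Fin n) :
    (TUn r n).Adj (some p) (some q) ↔ p.val % r ≠ q.val % r := by
  unfold TUn
  rw [SimpleGraph.fromRel_adj]
  constructor
  · rintro ⟨-, h | h⟩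
    · exact h
    · exact h.symm
  · intro h
    refine ⟨fun e => h ?_, Or.inl h⟩
    rw [Option.some.inj e]

theorem TUPn_ns (r n : ℕ) (q : Fin n) :
    (TUn r n).Adj none (some q) ↔ q.val < r := by
  unfold TUn
  rw [SimpleGraph.fromRel_adj]
  constructor
  · rintro ⟨-, h | h⟩
    · exact h
    · exact h
  · intro h
    exact ⟨by simp, Or.inl h⟩

theorem TUPn_mss (r n i j : ℕ) (p q : Fin n) :
    (TUMn r n i j).Adj (some p) (some q) ↔
      p.val % r ≠ q.val % r ∧ ¬ (p.val = i ∧ q.val = j) ∧ ¬ (p.val = j ∧ q.val = i) := by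
  unfold TUMn
  rw [SimpleGraph.fromRel_adj]
  constructor
  · rintro ⟨-, h | h⟩
    · exact h
    · exact ⟨h.1.symm, fun h' => h.2.2 ⟨h'.2, h'.1⟩, fun h' => h.2.1 ⟨h'.2, h'.1⟩⟩
  · intro h
    refine ⟨fun e => h.1 ?_, Or.inl h⟩
    rw [Option.some.inj e]

theorem TUPn_mns (r n i j : ℕ) (q : Fin n) :
    (TUMn r n i j).Adj none (some q) ↔ q.val < r := by
  unfold TUMn
  rw [SimpleGraph.fromRel_adj]
  constructor
  · rintro ⟨-, h | h⟩
    · exact h
    · exact h
  · intro h
    exact ⟨by simp, Or.inl h⟩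

/-- the parts -/
def TUPn_f (r n : ℕ) (hr : 0 < r) : Option (Fin n) → Option (Fin r) :=
  Option.map fun p => ⟨p.val % r, Nat.mod_lt _ hr⟩

theorem TUPn_size (r n : ℕ) (hr : 0 < r) (t : Fin r) :
    {v | TUPn_f r n hr v = some t}.ncard = tz r n t := by
  have h : {v | TUPn_f r n hr v = some t} = some '' {p : Fin n | p.val % r = t.val} := by
    ext v
    constructor
    · intro hv
      cases v with
      | none => exact absurd hv (by simp [TUPn_f])
      | some p =>
        refine ⟨p, ?_, rfl⟩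
        have : (⟨p.val % r, Nat.mod_lt _ hr⟩ : Fin r) = t := by simpa [TUPn_f] using hv
        exact congrArg Fin.val this
    · rintro ⟨p, hp, rfl⟩
      show some _ = some t
      congr 1
      exact Fin.ext hp
  rw [h, Set.ncard_image_of_injective _ (Option.some_injective _)]
  have h2 : (fun p : Fin n => p.val) '' {p : Fin n | p.val % r = t.val} =
      ((Finset.range n).filter fun x => x ≡ t.val [MOD r] : Finset ℕ) := by
    ext x
    simp only [Set.mem_image, Set.mem_ofPred_eq, Finset.coe_filter, Finset.mem_range]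
    constructor
    · rintro ⟨p, hp, rfl⟩
      refine ⟨p.isLt, ?_⟩
      show p.val % r = t.val % r
      rw [hp, Nat.mod_eq_of_lt t.isLt]
    · rintro ⟨hx, hm⟩
      refine ⟨⟨x, hx⟩, ?_, rfl⟩
      show x % r = t.val
      have hm' : x % r = t.val % r := hm
      rw [hm', Nat.mod_eq_of_lt t.isLt]
  rw [← Set.ncard_image_of_injective _ Fin.val_injective, h2, Set.ncard_coe_finset,
    ← Nat.count_eq_card_filter_range, Nat.count_modEq_card n hr t.val, Nat.mod_eq_of_lt t.isLt]
  rfl

theorem TUPn_mod (r n a : ℕ) (hr : 0 < r) (hn : r ≤ n) (H : SimpleGraph (Option (Fin n)))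
    (hnn : ∀ q, H.Adj none (some q) ↔ q.val < r)
    (hi : ∀ p q, H.Adj (some p) (some q) → p.val % r ≠ q.val % r)
    (hm : (missSet H (TUPn_f r n hr)).ncard = a) : IsModS (tz r n) a r H (TUPn_f r n hr) := by
  refine ⟨TUPn_size r n hr, ?_, hm, ?_⟩
  · intro v w hv hvw hadj
    cases v with
    | none => exact hv rfl
    | some p =>
      cases w with
      | none => simp [TUPn_f] at hvw
      | some q =>
        refine hi p q hadj ?_
        have : (⟨p.val % r, Nat.mod_lt _ hr⟩ : Fin r) = ⟨q.val % r, Nat.mod_lt _ hr⟩ := by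
          simpa [TUPn_f] using hvw
        exact congrArg Fin.val this
  · have h : outSet H (TUPn_f r n hr) =
        Set.range fun t : Fin r => s(none, some (⟨t.val, by omega⟩ : Fin n)) := by
      ext e
      induction e using Sym2.ind with
      | _ v w =>
        constructor
        · rintro ⟨hadj, x, hx, hfx⟩
          have hx0 : x = none := by
            cases x with
            | none => rfl
            | some p => simp [TUPn_f] at hfx
          subst hx0
          have hadj' : H.Adj v w := hadj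
          rcases Sym2.mem_iff.1 hx with h | h
          · subst h
            cases w with
            | none => exact absurd hadj' (H.loopless.irrefl _)
            | some q => exact ⟨⟨q.val, (hnn q).1 hadj'⟩, rfl⟩
          · subst h
            cases v with
            | none => exact absurd hadj' (H.loopless.irrefl _)
            | some q => exact ⟨⟨q.val, (hnn q).1 hadj'.symm⟩, Sym2.eq_swap⟩
        · rintro ⟨t, ht⟩
          rw [← ht]
          exact ⟨(hnn _).2 t.isLt, none, Sym2.mem_mk_left _ _, rfl⟩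
    rw [h, ← Set.image_univ, Set.ncard_image_of_injective, Set.ncard_univ, Nat.card_fin]
    intro t t' h
    apply Fin.ext
    simpa using h

theorem TUPn_clique (r n : ℕ) (hn : r ≤ n) :
    ∃ φ : Fin (r + 1) → Option (Fin n), ∀ i j, i ≠ j → (TUn r n).Adj (φ i) (φ j) := by
  refine ⟨Fin.cons none fun t => some ⟨t.val, by omega⟩, ?_⟩
  intro i j hij
  induction i using Fin.cases with
  | zero =>
    induction j using Fin.cases with
    | zero => exact absurd rfl hij
    | succ j' =>
      rw [Fin.cons_zero, Fin.cons_succ]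
      exact (TUPn_ns r n _).2 j'.isLt
  | succ i' =>
    induction j using Fin.cases with
    | zero =>
      rw [Fin.cons_zero, Fin.cons_succ]
      exact ((TUPn_ns r n _).2 i'.isLt).symm
    | succ j' =>
      rw [Fin.cons_succ, Fin.cons_succ]
      refine (TUPn_ss r n _ _).2 fun e => hij ?_
      have e' : i'.val % r = j'.val % r := e
      rw [Nat.mod_eq_of_lt i'.isLt, Nat.mod_eq_of_lt j'.isLt] at e'
      rw [Fin.ext e']

theorem prfTUPn : TUPn_statement ∧ TUMPn_statement := by
  constructor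
  · intro r n hr hn
    have hr0 : 0 < r := by omega
    refine ⟨⟨TUPn_f r n hr0, TUPn_mod r n 0 hr0 hn _ (TUPn_ns r n)
      (fun p q h => (TUPn_ss r n p q).1 h) ?_⟩, ?_, ?_, ?_⟩
    · have h : missSet (TUn r n) (TUPn_f r n hr0) = ∅ := by
        rw [Set.eq_empty_iff_forall_notMem]
        rintro e ⟨v, w, -, hv, hw, hvw, hadj⟩
        cases v with
        | none => exact hv rfl
        | some p =>
          cases w with
          | none => exact hw rfl
          | some q =>
            apply hadj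
            rw [TUPn_ss]
            intro e
            apply hvw
            simp [TUPn_f, e]
      rw [h, Set.ncard_empty]
    · rintro ⟨c⟩
      obtain ⟨φ, hφ⟩ := TUPn_clique r n hn
      have hinj : Function.Injective fun i => c (φ i) := by
        intro i j h
        by_contra hij
        exact c.valid (hφ i j hij) h
      have := Fintype.card_le_of_injective _ hinj
      simp at this
    · intro v
      cases v with
      | none => exact ⟨some ⟨0, by omega⟩, (TUPn_ns r n _).2 hr0⟩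
      | some p =>
        by_cases h : p.val % r = 0
        · refine ⟨some ⟨1, by omega⟩, (TUPn_ss r n _ _).2 fun e => ?_⟩
          have e' : p.val % r = 1 % r := e
          rw [h, Nat.mod_eq_of_lt (by omega : 1 < r)] at e'
          omega
        · refine ⟨some ⟨0, by omega⟩, (TUPn_ss r n _ _).2 fun e => ?_⟩
          have e' : p.val % r = 0 % r := e
          rw [Nat.zero_mod] at e'
          exact h e'
    · intro hfree
      obtain ⟨φ, hφ⟩ := TUPn_clique r n hn
      refine hfree ⟨⟨⟨φ, fun {i j} hij => hφ i j hij⟩, ?_⟩⟩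
      intro i j h
      by_contra hij
      exact (hφ i j hij).ne h
  · intro r n i j hr hn hij hj
    have hr0 : 0 < r := by omega
    have hi : i < r := by omega
    refine ⟨⟨TUPn_f r n hr0, TUPn_mod r n 1 hr0 (by omega) _ (TUPn_mns r n i j)
      (fun p q h => ((TUPn_mss r n i j p q).1 h).1) ?_⟩, ?_, ?_, ?_⟩
    · have h : missSet (TUMn r n i j) (TUPn_f r n hr0) =
          {s(some (⟨i, by omega⟩ : Fin n), some (⟨j, by omega⟩ : Fin n))} := by
        ext e
        constructor
        · rintro ⟨v, w, rfl, hv, hw, hvw, hadj⟩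
          cases v with
          | none => exact absurd rfl hv
          | some p =>
            cases w with
            | none => exact absurd rfl hw
            | some q =>
              have hpq : p.val % r ≠ q.val % r := by
                intro e
                apply hvw
                simp [TUPn_f, e]
              have h0 : (p.val = i ∧ q.val = j) ∨ (p.val = j ∧ q.val = i) := by
                by_contra hcon
                push Not at hcon
                refine hadj ((TUPn_mss r n i j p q).2 ⟨hpq, fun h' => hcon.1 h'.1 h'.2,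
                  fun h' => hcon.2 h'.1 h'.2⟩)
              rw [Set.mem_singleton_iff]
              rcases h0 with ⟨a1, a2⟩ | ⟨a1, a2⟩
              · have hp : p = (⟨i, by omega⟩ : Fin n) := Fin.ext a1
                have hq : q = (⟨j, by omega⟩ : Fin n) := Fin.ext a2
                rw [hp, hq]
              · have hp : p = (⟨j, by omega⟩ : Fin n) := Fin.ext a1
                have hq : q = (⟨i, by omega⟩ : Fin n) := Fin.ext a2
                rw [hp, hq]
                exact Sym2.eq_swap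
        · intro he
          rw [Set.mem_singleton_iff] at he
          refine ⟨_, _, he, by simp [TUPn_f], by simp [TUPn_f], ?_, ?_⟩
          · intro h1
            have h2 : (⟨i % r, Nat.mod_lt _ hr0⟩ : Fin r) = ⟨j % r, Nat.mod_lt _ hr0⟩ := by
              simpa [TUPn_f] using h1
            have h3 : i % r = j % r := congrArg Fin.val h2
            rw [Nat.mod_eq_of_lt hi, Nat.mod_eq_of_lt hj] at h3
            omega
          · rw [TUPn_mss]
            intro h1
            exact h1.2.1 ⟨rfl, rfl⟩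
      rw [h, Set.ncard_singleton]
    · rintro ⟨c⟩
      have hmod : ∀ t : Fin r, (r + t.val) % r = t.val := by
        intro t
        rw [Nat.add_mod_left, Nat.mod_eq_of_lt t.isLt]
      have hinj : Function.Injective fun t : Fin r =>
          c (some (⟨r + t.val, by omega⟩ : Fin n)) := by
        intro t t' h
        by_contra hne
        refine c.valid ((TUPn_mss r n i j _ _).2 ⟨?_, ?_, ?_⟩) h
        · show (r + t.val) % r ≠ (r + t'.val) % r
          rw [hmod, hmod]
          exact fun e => hne (Fin.ext e)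
        · intro h'
          have : r + t.val = i := h'.1
          omega
        · intro h'
          have : r + t.val = j := h'.1
          omega
      have hsurj := Finite.injective_iff_surjective.1 hinj
      have h0 : ∀ t : Fin r, c (some (⟨t.val, by omega⟩ : Fin n)) =
          c (some (⟨r + t.val, by omega⟩ : Fin n)) := by
        intro t
        obtain ⟨t', ht'⟩ := hsurj (c (some (⟨t.val, by omega⟩ : Fin n)))
        by_cases e : t' = t
        · rw [← ht', e]
        · exfalso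
          refine c.valid ((TUPn_mss r n i j (⟨t.val, by omega⟩ : Fin n)
            (⟨r + t'.val, by omega⟩ : Fin n)).2 ⟨?_, ?_, ?_⟩) ht'.symm
          · show t.val % r ≠ (r + t'.val) % r
            rw [hmod, Nat.mod_eq_of_lt t.isLt]
            exact fun h => e (Fin.ext h).symm
          · intro h'
            have : r + t'.val = j := h'.2
            omega
          · intro h'
            have : r + t'.val = i := h'.2
            omega
      obtain ⟨t, ht⟩ := hsurj (c none)
      refine c.valid ((TUPn_mns r n i j (⟨t.val, by omega⟩ : Fin n)).2 t.isLt) ?_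
      rw [h0 t]
      exact ht.symm
    · intro v
      cases v with
      | none => exact ⟨some ⟨0, by omega⟩, (TUPn_mns r n i j _).2 hr0⟩
      | some p =>
        by_cases h : p.val % r = 0
        · refine ⟨some ⟨r + 1, by omega⟩, (TUPn_mss r n i j _ _).2 ⟨?_, ?_, ?_⟩⟩
          · show p.val % r ≠ (r + 1) % r
            rw [h, Nat.add_mod_left, Nat.mod_eq_of_lt (by omega : 1 < r)]
            omega
          · intro h'
            have : r + 1 = j := h'.2
            omega
          · intro h'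
            have : r + 1 = i := h'.2
            omega
        · refine ⟨some ⟨r, by omega⟩, (TUPn_mss r n i j _ _).2 ⟨?_, ?_, ?_⟩⟩
          · show p.val % r ≠ r % r
            rw [Nat.mod_self]
            exact h
          · intro h'
            have : r = j := h'.2
            omega
          · intro h'
            have : r = i := h'.2
            omega
    · rintro ⟨φ⟩
      have hadj : ∀ k l, k ≠ l → (TUMn r n i j).Adj (φ k) (φ l) := fun k l hkl =>
        φ.toHom.map_adj hkl
      by_cases hall : ∃ k, φ k = none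
      · obtain ⟨i0, hi0⟩ := hall
        have hk : ∀ k : Fin r, ∃ t : Fin r, φ (i0.succAbove k) =
            some (⟨t.val, by omega⟩ : Fin n) := by
          intro k
          have h1 := hadj i0 (i0.succAbove k) (Fin.succAbove_ne i0 k).symm
          rw [hi0] at h1
          cases hq : φ (i0.succAbove k) with
          | none =>
            rw [hq] at h1
            exact absurd h1 ((TUMn r n i j).loopless.irrefl _)
          | some q =>
            rw [hq, TUPn_mns] at h1
            exact ⟨⟨q.val, h1⟩, rfl⟩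
        choose g hg using hk
        have hginj : Function.Injective g := by
          intro k k' h
          have h1 : φ (i0.succAbove k) = φ (i0.succAbove k') := by rw [hg, hg, h]
          exact Fin.succAbove_right_injective (φ.injective h1)
        have hgs := Finite.injective_iff_surjective.1 hginj
        obtain ⟨k0, hk0⟩ := hgs ⟨i, hi⟩
        obtain ⟨k1, hk1⟩ := hgs ⟨j, hj⟩
        have hne : k0 ≠ k1 := by
          intro e
          rw [e, hk1] at hk0
          have : j = i := congrArg Fin.val hk0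
          omega
        have h1 := hadj (i0.succAbove k0) (i0.succAbove k1)
          fun e => hne (Fin.succAbove_right_injective e)
        rw [hg, hg, hk0, hk1, TUPn_mss] at h1
        exact h1.2.1 ⟨rfl, rfl⟩
      · push Not at hall
        have hp : ∀ k, ∃ p, φ k = some p := fun k => Option.ne_none_iff_exists'.1 (hall k)
        choose p hp using hp
        have hinj : Function.Injective fun k => (⟨(p k).val % r, Nat.mod_lt _ hr0⟩ : Fin r) := by
          intro k l h
          by_contra hkl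
          have h1 := hadj k l hkl
          rw [hp, hp, TUPn_mss] at h1
          exact h1.1 (congrArg Fin.val h)
        have := Fintype.card_le_of_injective _ hinj
        simp at this

end MP0c3a8f

end

section

/-!
# MP_0c3a8f_co: all items together
-/

namespace MP0c3a8f

theorem pSTB : STB_statement :=
  prfSTB prfG3 prfBU (prfPRT (prfCLQ prfAVG (prfMM prfAVG)))

theorem pCOR : COR_statement := prfCOR prfBU prfE12.1 prfE12.2

theorem pSTR2 : STR2_statement :=
  prfSTR2 prfP prfEDG.1 pSTB pCOR prfKEY prfNRM prfCNV.1 prfCNV.2 prfBAL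

theorem pLOWS : LOWS_statement := prfLOWS prfKAP prfP prfEDG.1 prfREDS.2

theorem pPRE : PRE_statement := prfPRE prfKAP prfREDS.2

theorem pSTRF : STRF_statement := prfSTRF pSTR2 pPRE prfRED pLOWS

theorem pWIN : WIN_statement :=
  prfWIN pSTRF pLOWS prfREDS.1 prfREDS.2 (prfREM prfRED) prfNON2 (prfMAXE prfEDG.2) prfP prfDEV

theorem pTUC : TUCn_statement ∧ TUMCn_statement := prfTUCn (prfCLSS prfGRD.1)

theorem pGEN : GEN_statement :=
  prfGEN pWIN prfCRT prfGRD.2 pLOWS prfREDS.1 prfREDS.2 prfDEV pTUC.1 prfTUPn.1 prfEDG.2 prfP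

theorem pCLI : CLI_statement :=
  prfCLI pWIN prfCRT prfKCC prfGRD.2 pLOWS prfREDS.1 prfREDS.2 prfDEV pTUC.1 pTUC.2 prfTUPn.1
    prfTUPn.2 prfSYM (prfCMP prfP prfEDG.1 prfTUPn.2) prfEDG.2 prfP

end MP0c3a8f

end

section

/-!
# MP_0c3a8f_co, phase B, item CNTU: counting of the edges
-/

open Finset

namespace MP0c3a8f

namespace CNTUx

/-- the edges inside `U` -/
def inSet {V : Type} (G : SimpleGraph V) (U : Finset V) : Set (Sym2 V) :=
  {e | e ∈ G.edgeSet ∧ ∀ v ∈ e, v ∈ U}

/-- the edges between `U` and the core -/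
def betSet {V : Type} {r : ℕ} (G : SimpleGraph V) (g : V → Option (Fin r)) (U : Finset V) :
    Set (Sym2 V) :=
  {e | ∃ v w, e = s(v, w) ∧ v ∈ U ∧ g w ≠ none ∧ G.Adj v w}

theorem in_card {V : Type} [Fintype V] (G : SimpleGraph V) (U : Finset V) :
    2 * (inSet G U).ncard ≤ U.card * (U.card - 1) := by
  classical
  have h1 : inSet G U ⊆ ((U.offDiag.image Sym2.mk.uncurry : Finset (Sym2 V)) : Set (Sym2 V)) := by
    intro e he
    induction e using Sym2.ind with
    | _ v w =>
    obtain ⟨h1, h2⟩ := he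
    have hadj : G.Adj v w := h1
    rw [Finset.mem_coe, Finset.mem_image]
    exact ⟨(v, w), Finset.mem_offDiag.2
      ⟨h2 v (Sym2.mem_mk_left _ _), h2 w (Sym2.mem_mk_right _ _), hadj.ne⟩, rfl⟩
  have h2 := Set.ncard_le_ncard h1 (Finset.finite_toSet _)
  rw [Set.ncard_coe_finset, Sym2.card_image_offDiag, Nat.choose_two_right] at h2
  omega

theorem bet_card {V : Type} [Fintype V] {r : ℕ} (G : SimpleGraph V) (g : V → Option (Fin r))
    (U : Finset V) (hU : ∀ v ∈ U, g v = none) :
    (betSet G g U).ncard = ∑ v ∈ U, ∑ t, nbn G g v t := by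
  classical
  set P : Finset (V × V) := (U ×ˢ Finset.univ).filter (fun p => g p.2 ≠ none ∧ G.Adj p.1 p.2)
    with hP
  have h1 : betSet G g U = (fun p : V × V => s(p.1, p.2)) '' (P : Set (V × V)) := by
    ext e
    constructor
    · rintro ⟨v, w, rfl, hv, hw, hadj⟩
      exact ⟨(v, w), by simp [hP, hv, hw, hadj], rfl⟩
    · rintro ⟨⟨v, w⟩, hp, rfl⟩
      simp only [hP, Finset.coe_filter, Finset.mem_product, Finset.mem_univ, and_true,
        Set.mem_ofPred_eq] at hp
      exact ⟨v, w, rfl, hp.1, hp.2.1, hp.2.2⟩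
  have h2 : Set.InjOn (fun p : V × V => s(p.1, p.2)) (P : Set (V × V)) := by
    rintro ⟨v, w⟩ hp ⟨v', w'⟩ hp' h
    simp only [hP, Finset.coe_filter, Finset.mem_product, Finset.mem_univ, and_true,
        Set.mem_ofPred_eq] at hp hp'
    rcases Sym2.eq_iff.1 h with ⟨e1, e2⟩ | ⟨e1, e2⟩
    · exact Prod.ext e1 e2
    · exfalso
      apply hp'.2.1
      have e1' : v = w' := e1
      show g w' = none
      rw [← e1']
      exact hU v hp.1
  rw [h1, Set.InjOn.ncard_image h2, Set.ncard_coe_finset, hP, Finset.card_filter,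
    Finset.sum_product]
  refine Finset.sum_congr rfl fun v _ => ?_
  have h3 : ∀ t, nbn G g v t = ∑ w, if g w = some t ∧ G.Adj v w then 1 else 0 := by
    intro t
    rw [nbn, Set.ncard_eq_toFinset_card', ← Finset.card_filter]
    congr 1
    ext w
    simp
  simp_rw [h3]
  rw [Finset.sum_comm]
  refine Finset.sum_congr rfl fun w _ => ?_
  by_cases hadj : G.Adj v w
  · cases hw : g w with
    | none => simp
    | some u => simp [hadj]
  · simp [hadj]

theorem out_card {V : Type} [Fintype V] {r : ℕ} (G : SimpleGraph V) (g : V → Option (Fin r))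
    (U : Finset V) (hU : ∀ v ∈ U, g v = none) :
    (outSet G g).ncard = (betSet G g U).ncard + (inSet G U).ncard + (lightSet G g U).ncard := by
  classical
  have h1 : outSet G g = betSet G g U ∪ inSet G U ∪ lightSet G g U := by
    ext e
    induction e using Sym2.ind with
    | _ v w =>
    constructor
    · rintro ⟨he, x, hx, hgx⟩
      have key : ∀ x y : V, G.Adj x y → g x = none →
          s(x, y) ∈ betSet G g U ∪ inSet G U ∪ lightSet G g U := by
        intro x y hxy hgx
        by_cases hxU : x ∈ U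
        · by_cases hgy : g y = none
          · by_cases hyU : y ∈ U
            · refine Or.inl (Or.inr ⟨hxy, ?_⟩)
              intro z hz
              rcases Sym2.mem_iff.1 hz with rfl | rfl
              · exact hxU
              · exact hyU
            · exact Or.inr ⟨hxy, y, Sym2.mem_mk_right _ _, hgy, hyU⟩
          · exact Or.inl (Or.inl ⟨x, y, rfl, hxU, hgy, hxy⟩)
        · exact Or.inr ⟨hxy, x, Sym2.mem_mk_left _ _, hgx, hxU⟩
      have hadj : G.Adj v w := he
      rcases Sym2.mem_iff.1 hx with rfl | rfl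
      · exact key _ _ hadj hgx
      · rw [Sym2.eq_swap]
        exact key _ _ hadj.symm hgx
    · rintro ((⟨x, y, hxy, hxU, hgy, hadj⟩ | ⟨he, h⟩) | ⟨he, x, hx, hgx, -⟩)
      · rw [hxy]
        exact ⟨hadj, x, Sym2.mem_mk_left _ _, hU x hxU⟩
      · exact ⟨he, v, Sym2.mem_mk_left _ _, hU v (h v (Sym2.mem_mk_left _ _))⟩
      · exact ⟨he, x, hx, hgx⟩
  have h2 : Disjoint (betSet G g U) (inSet G U) := by
    rw [Set.disjoint_left]
    rintro e ⟨x, y, rfl, hxU, hgy, hadj⟩ ⟨-, h⟩
    exact hgy (hU y (h y (Sym2.mem_mk_right _ _)))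
  have h3 : Disjoint (betSet G g U ∪ inSet G U) (lightSet G g U) := by
    rw [Set.disjoint_left]
    rintro e (⟨x, y, rfl, hxU, hgy, hadj⟩ | ⟨-, h⟩) ⟨-, z, hz, hgz, hzU⟩
    · rcases Sym2.mem_iff.1 hz with rfl | rfl
      · exact hzU hxU
      · exact hgy hgz
    · exact hzU (h z hz)
  rw [h1, Set.ncard_union_eq h3 (Set.toFinite _) (Set.toFinite _),
    Set.ncard_union_eq h2 (Set.toFinite _) (Set.toFinite _)]

end CNTUx

theorem prfCNTU : CNTU_statement := by
  classical
  intro r V _ G g U hind hU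
  refine ⟨(CNTUx.inSet G U).ncard, CNTUx.in_card G U, ?_⟩
  have hM : IsModS (siz g) (missSet G g).ncard (outSet G g).ncard G g :=
    ⟨fun t => rfl, hind, rfl, rfl⟩
  have h := prfREDS.2 r (siz g) _ _ V G g hM
  have h2 := CNTUx.out_card G g U hU
  have h3 := CNTUx.bet_card G g U hU
  unfold Sz at h
  rw [h2, h3] at h
  omega

end MP0c3a8f

end
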