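import Pool.Agent.Work.MP_0c3a8f_co.PB.Stmts
import Pool.Agent.Work.MP_0c3a8f_co.PB.Stmts2
import Pool.Agent.Work.MP_0c3a8f_co.PB.Stmts3
import Pool.Agent.Work.MP_0c3a8f_co.PB.ItemISO1

/-! Bundle of small proof modules (one section per former module). -/

section

/-!
# MP_0c3a8f_co, phase B: item KW1
-/

open Finset

namespace MP0c3a8f

namespace ItemKW1

theorem siz_eq {V : Type} [Fintype V] {r : ℕ} (g : V → Option (Fin r)) (t : Fin r)
    [DecidableEq (Option (Fin r))] :
    (siz g t : ℝ) = ∑ v, if g v = some t then (1 : ℝ) else 0 := by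
  classical
  unfold siz
  rw [Finset.sum_boole, Set.ncard_eq_toFinset_card']
  congr 2
  ext v
  simp

theorem sum_cls {V : Type} {r : ℕ} (g : V → Option (Fin r)) (v : V) (a : ℝ)
    [DecidableEq (Option (Fin r))] :
    (∑ s : Fin r, if g v = some s then a else 0) = if g v = none then 0 else a := by
  classical
  cases h : g v with
  | none => simp
  | some t => simp

theorem adj_core {V : Type} [Fintype V] {r : ℕ} {G : SimpleGraph V} {g : V → Option (Fin r)}
    (h : IsKU G g ∅) (x : V → ℝ) (u : V) (t : Fin r) (hu : g u = some t) :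
    ∑ v, adj G u v * x v = ∑ s, cw x g (some s) - cw x g (some t) := by
  classical
  unfold cw
  rw [Finset.sum_comm, ← Finset.sum_sub_distrib]
  refine Finset.sum_congr rfl fun v _ => ?_
  rw [sum_cls]
  unfold adj
  cases hv : g v with
  | none =>
    have : ¬ G.Adj u v := fun hh => h.iso v u hv (by simp) hh.symm
    simp [this]
  | some s =>
    have : G.Adj u v ↔ g u ≠ g v := h.core u v (by simp [hu]) (by simp [hv])
    rw [hu, hv] at this
    by_cases hst : s = t
    · subst hst
      have h1 : ¬ G.Adj u v := fun hh => (this.1 hh) rfl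
      simp [h1]
    · have h1 : G.Adj u v := this.2 (fun e => hst (Option.some.inj e).symm)
      simp [h1, hst]

theorem adj_out {V : Type} [Fintype V] {r : ℕ} {G : SimpleGraph V} {g : V → Option (Fin r)}
    (h : IsKU G g ∅) (x : V → ℝ) (u : V) (hu : g u = none) :
    ∑ v, adj G u v * x v = 0 := by
  refine Finset.sum_eq_zero fun v _ => ?_
  have : ¬ G.Adj u v := h.iso u v hu (by simp)
  simp [adj, this]

theorem sum_if_const {V : Type} [Fintype V] {r : ℕ} (g : V → Option (Fin r)) (t : Fin r) (c : ℝ)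
    [DecidableEq (Option (Fin r))] :
    (∑ v, if g v = some t then c else 0) = siz g t * c := by
  rw [siz_eq, Finset.sum_mul]
  refine Finset.sum_congr rfl fun v _ => ?_
  split_ifs <;> simp

/-- the analytic part -/
theorem ana {r : ℕ} (hr : 3 ≤ r) (ε δ n l : ℝ) (σ : Fin r → ℝ)
    (hδ : 0 < δ) (hδε : 5 * δ ≤ ε) (hδr : 8 * r * δ ≤ 1) (hn : 0 < n)
    (hσn : ∑ t, σ t = n) (hσ0 : ∀ t, 0 ≤ σ t) (hdev : ∀ t, |σ t - n / r| ≤ δ * n)
    (hl : n * (qq r - δ) ≤ l) (heq : ∑ t, σ t / (l + σ t) = 1) :
    l ^ 2 ≤ qq r ^ 2 * n ^ 2 - (2 * qq r ^ 2 - ε) * ∑ t, (σ t - n / r) ^ 2 := by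
  have hr0 : (3 : ℝ) ≤ r := by exact_mod_cast hr
  have hrpos : (0 : ℝ) < r := by linarith
  have hqdef : qq r = 1 - 1 / (r : ℝ) := rfl
  have hir : 1 / (r : ℝ) ≤ 1 / 3 := by
    rw [div_le_div_iff₀ hrpos (by norm_num)]; linarith
  have hirpos : 0 < 1 / (r : ℝ) := by positivity
  have hδ24 : δ ≤ 1 / 24 := by nlinarith only [hδr, hr0, hδ]
  set q := qq r with hq
  have hq23 : 2 / 3 ≤ q := by rw [hqdef]; linarith
  have hq1 : q ≤ 1 := by rw [hqdef]; linarith
  have hlpos : 0 < l := by
    have : 0 < n * (q - δ) := mul_pos hn (by linarith)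
    linarith
  set h := n / (r : ℝ) with hh
  have hhpos : 0 < h := by positivity
  have hhn : h = n * (1 / r) := by rw [hh]; ring
  have hrh : (r : ℝ) * h = n := by rw [hh]; field_simp
  set L := l + h with hL
  have hLpos : 0 < L := by positivity
  set D := ∑ t, (σ t - h) ^ 2 with hD
  have hDnn : 0 ≤ D := Finset.sum_nonneg fun t _ => sq_nonneg _
  have hsum0 : ∑ t, (σ t - h) = 0 := by
    rw [Finset.sum_sub_distrib, hσn]
    simp only [Finset.sum_const, Finset.card_univ, Fintype.card_fin, nsmul_eq_mul]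
    rw [hrh]; ring
  -- the identity
  set S := ∑ t, (σ t - h) ^ 2 / (l + σ t) with hS
  have hden : ∀ t, 0 < l + σ t := fun t => by have := hσ0 t; linarith
  have hid : L * (n - L) = l * S := by
    have h1 : ∀ t, σ t / (l + σ t) = 1 - l / L + l / L ^ 2 * (σ t - h)
        - l / L ^ 2 * ((σ t - h) ^ 2 / (l + σ t)) := by
      intro t
      have := hden t
      have h2 : l + σ t = L + (σ t - h) := by rw [hL]; ring
      have h3 : L + (σ t - h) ≠ 0 := by rw [← h2]; exact this.ne'
      rw [h2]
      have h4 : σ t = (L + (σ t - h)) - l := by rw [hL]; ring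
      generalize hdd : σ t - h = d at *
      rw [h4]
      field_simp
      ring
    have h5 : ∑ t, σ t / (l + σ t) = r * (1 - l / L) - l / L ^ 2 * S := by
      rw [Finset.sum_congr rfl fun t _ => h1 t, Finset.sum_sub_distrib, Finset.sum_add_distrib,
        ← Finset.mul_sum, ← Finset.mul_sum, hsum0]
      simp only [Finset.sum_const, Finset.card_univ, Fintype.card_fin, nsmul_eq_mul]
      rw [hS]; ring
    rw [heq] at h5
    have h6 : L ^ 2 = r * (L - l) * L - l * S := by
      have h8 : L ^ 2 = (r * (1 - l / L) - l / L ^ 2 * S) * L ^ 2 := by rw [← h5, one_mul]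
      rw [h8]
      field_simp
    have h7 : (r : ℝ) * (L - l) = n := by rw [hL]; rw [← hrh]; ring
    rw [h7] at h6
    linarith
  have hSnn : 0 ≤ S := Finset.sum_nonneg fun t _ => div_nonneg (sq_nonneg _) (hden t).le
  have hLn : L ≤ n := by
    by_contra hcon
    push Not at hcon
    have : L * (n - L) < 0 := mul_neg_of_pos_of_neg hLpos (by linarith)
    have : 0 ≤ l * S := by positivity
    linarith
  -- lower bound for `S`
  have hSD : D ≤ n * (1 + δ) * S := by
    rw [hD, hS, Finset.mul_sum]
    refine Finset.sum_le_sum fun t _ => ?_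
    have h1 := hden t
    have h2 : l + σ t ≤ n * (1 + δ) := by
      have := (abs_le.1 (hdev t)).2
      have h3 : l + σ t = L + (σ t - h) := by rw [hL]; ring
      rw [h3]; linarith only [this, hLn]
    rw [mul_div_assoc', le_div_iff₀ h1]
    have h4 := sq_nonneg (σ t - h)
    calc (σ t - h) ^ 2 * (l + σ t) ≤ (σ t - h) ^ 2 * (n * (1 + δ)) :=
          mul_le_mul_of_nonneg_left h2 h4
      _ = _ := by ring
  have hL1 : n * (1 - δ) ≤ L := by
    rw [hL, hhn]
    have : q + 1 / (r : ℝ) = 1 := by rw [hqdef]; ring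
    have h1 : n * (q - δ) + n * (1 / r) = n * (1 - δ) := by
      rw [← mul_add]; congr 1; linarith
    linarith
  -- `l ≥ (q - δ) L`
  have hlL : (q - δ) * L ≤ l := by
    -- `h ≤ (1/r) n ≤ (1/r) L/(1-δ)`
    have h1 : l = L - n * (1 / r) := by rw [hL, hhn]; ring
    have h2 : n * (1 / (r : ℝ)) ≤ (1 / r) * (1 + 2 * δ) * L := by
      have h3 : n ≤ (1 + 2 * δ) * L := by
        have h3 : n * 1 ≤ n * ((1 + 2 * δ) * (1 - δ)) := by
          apply mul_le_mul_of_nonneg_left _ hn.le
          nlinarith only [hδ, hδ24]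
        have h4 : (1 + 2 * δ) * (n * (1 - δ)) ≤ (1 + 2 * δ) * L :=
          mul_le_mul_of_nonneg_left hL1 (by linarith only [hδ])
        linarith only [h3, h4]
      calc n * (1 / (r : ℝ)) ≤ ((1 + 2 * δ) * L) * (1 / r) :=
            mul_le_mul_of_nonneg_right h3 hirpos.le
        _ = _ := by ring
    have h5 : (1 / (r : ℝ)) * (1 + 2 * δ) * L ≤ (1 / r + δ) * L := by
      apply mul_le_mul_of_nonneg_right _ hLpos.le
      nlinarith only [hir, hδ]
    have h6 : q = 1 - 1 / (r : ℝ) := hqdef
    have h7 : (q - δ) * L = L - (1 / r + δ) * L := by rw [h6]; ring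
    rw [h7]
    linarith only [h1, h2, h5]
  -- `n - L ≥ (q - 2δ) D / n`
  have hkey : (q - 2 * δ) * D ≤ n * (n - L) := by
    have h1 : (q - δ) * L * S ≤ l * S := mul_le_mul_of_nonneg_right hlL hSnn
    rw [← hid] at h1
    have h2 : (q - δ) * S ≤ n - L := by
      have : L * ((q - δ) * S) ≤ L * (n - L) := by linarith
      exact le_of_mul_le_mul_left this hLpos
    have h3 : (q - 2 * δ) * (1 + δ) ≤ q - δ := by
      have h4 : q * δ ≤ 1 * δ := mul_le_mul_of_nonneg_right hq1 hδ.le
      nlinarith only [h4, hδ]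
    calc (q - 2 * δ) * D ≤ (q - 2 * δ) * (n * (1 + δ) * S) :=
          mul_le_mul_of_nonneg_left hSD (by linarith)
      _ = ((q - 2 * δ) * (1 + δ)) * (n * S) := by ring
      _ ≤ (q - δ) * (n * S) := mul_le_mul_of_nonneg_right h3 (by positivity)
      _ = n * ((q - δ) * S) := by ring
      _ ≤ n * (n - L) := mul_le_mul_of_nonneg_left h2 hn.le
  -- bound for `D`
  have hDle : D ≤ δ * n ^ 2 := by
    have h1 : D ≤ ∑ _t : Fin r, (δ * n) ^ 2 := by
      refine Finset.sum_le_sum fun t _ => ?_
      rw [← sq_abs (σ t - h)]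
      exact pow_le_pow_left₀ (abs_nonneg _) (hdev t) 2
    simp only [Finset.sum_const, Finset.card_univ, Fintype.card_fin, nsmul_eq_mul] at h1
    have h2 : (r : ℝ) * (δ * n) ^ 2 = (r * δ) * (δ * n ^ 2) := by ring
    have h3 : (r : ℝ) * δ ≤ 1 := by
      have : 0 ≤ (r : ℝ) * δ := by positivity
      linarith only [hδr, this]
    have h4 : 0 ≤ δ * n ^ 2 := by positivity
    have h5 : (r * δ) * (δ * n ^ 2) ≤ 1 * (δ * n ^ 2) := mul_le_mul_of_nonneg_right h3 h4
    linarith only [h1, h2, h5]
  -- the end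
  have hlval : l = q * n - (n - L) := by
    rw [hL, hhn, hqdef]; ring
  -- `u = D / n`
  have hnL : (q - 2 * δ) * (D / n) ≤ n - L := by
    rw [mul_div_assoc', div_le_iff₀ hn]; linarith
  have hl2 : l ≤ q * n - (q - 2 * δ) * (D / n) := by linarith
  have hl3 : l ^ 2 ≤ (q * n - (q - 2 * δ) * (D / n)) ^ 2 := pow_le_pow_left₀ hlpos.le hl2 2
  have hexp : (q * n - (q - 2 * δ) * (D / n)) ^ 2
      = q ^ 2 * n ^ 2 - 2 * q * (q - 2 * δ) * D + (q - 2 * δ) ^ 2 * (D ^ 2 / n ^ 2) := by
    field_simp
    ring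
  have hDD : D ^ 2 / n ^ 2 ≤ δ * D := by
    rw [div_le_iff₀ (by positivity)]
    have := mul_le_mul_of_nonneg_left hDle hDnn
    linarith only [this]
  have hc2 : (q - 2 * δ) ^ 2 ≤ 1 := by
    have h1 : 0 ≤ q - 2 * δ := by linarith only [hq23, hδ24]
    have h2 : q - 2 * δ ≤ 1 := by linarith only [hq1, hδ]
    nlinarith only [h1, h2]
  have h8 : (q - 2 * δ) ^ 2 * (D ^ 2 / n ^ 2) ≤ δ * D := by
    have h1 : 0 ≤ D ^ 2 / n ^ 2 := by positivity
    have h2 := mul_le_mul_of_nonneg_right hc2 h1
    linarith only [h2, hDD]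
  have h9 : q * (δ * D) ≤ 1 * (δ * D) := mul_le_mul_of_nonneg_right hq1 (by positivity)
  have h10 : 5 * δ * D ≤ ε * D := mul_le_mul_of_nonneg_right hδε hDnn
  rw [hexp] at hl3
  linarith only [hl3, h8, h9, h10]

end ItemKW1

open ItemKW1 in
theorem prfKW1 : P_statement → KW1_statement := by
  classical
  intro hP r ε hr hε
  have hr0 : (3 : ℝ) ≤ r := by exact_mod_cast hr
  have hrpos : (0 : ℝ) < r := by linarith
  refine ⟨min (ε / 5) (1 / (8 * r)), lt_min (by positivity) (by positivity), 1, ?_⟩
  set δ := min (ε / 5) (1 / (8 * (r : ℝ))) with hδdef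
  have hδ : 0 < δ := lt_min (by positivity) (by positivity)
  have hδε : 5 * δ ≤ ε := by
    have := min_le_left (ε / 5) (1 / (8 * (r : ℝ)))
    linarith
  have hδr : 8 * r * δ ≤ 1 := by
    have h1 := min_le_right (ε / 5) (1 / (8 * (r : ℝ)))
    rw [← hδdef, le_div_iff₀ (by positivity)] at h1
    linarith
  intro V _ G g hK hn hd
  have hnpos : 0 < ((∑ s, siz g s : ℕ) : ℝ) := by exact_mod_cast hn
  have hcast : ((∑ s, siz g s : ℕ) : ℝ) = ∑ s, (siz g s : ℝ) := by push_cast; rfl
  set n : ℝ := ((∑ s, siz g s : ℕ) : ℝ) with hndef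
  -- a vertex
  obtain ⟨t₀, -, ht₀⟩ : ∃ t ∈ Finset.univ, siz g t ≠ 0 := by
    by_contra hcon
    push Not at hcon
    have : ∑ s, siz g s = 0 := Finset.sum_eq_zero hcon
    omega
  have hne : Nonempty V := by
    by_contra hcon
    rw [not_nonempty_iff] at hcon
    apply ht₀
    unfold siz
    rw [Set.ncard_eq_zero (Set.toFinite _)]
    exact Set.eq_empty_of_isEmpty _
  obtain ⟨hl0, hR, x, hx0, hx1, hxe⟩ := hP V G
  have hqdef : qq r = 1 - 1 / (r : ℝ) := rfl
  -- lower bound
  have hlow : n * (qq r - δ) ≤ lam G := by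
    have h1 := hR (fun v => if g v = none then 0 else 1)
    have h2 : ∑ v, (if g v = none then (0 : ℝ) else 1) ^ 2 = n := by
      rw [hcast, Finset.sum_congr rfl fun t _ => siz_eq g t, Finset.sum_comm]
      refine Finset.sum_congr rfl fun v _ => ?_
      rw [sum_cls]
      split_ifs <;> simp
    have h3 : ∀ s, cw (fun v => if g v = none then (0 : ℝ) else 1) g (some s) = siz g s := by
      intro s
      rw [siz_eq]
      unfold cw
      refine Finset.sum_congr rfl fun v _ => ?_
      by_cases hv : g v = some s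
      · simp [hv]
      · simp [hv]
    have h4 : qf G (fun v => if g v = none then 0 else 1)
        = ∑ t, (siz g t : ℝ) * (n - siz g t) := by
      unfold qf
      have h5 : ∀ u, (∑ v, adj G u v * ((if g u = none then (0 : ℝ) else 1)
          * (if g v = none then 0 else 1)))
          = ∑ t, if g u = some t then (n - siz g t) else 0 := by
        intro u
        cases hu : g u with
        | none => simp
        | some t =>
          have h6 := adj_core hK (fun v => if g v = none then (0 : ℝ) else 1) u t hu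
          simp only [h3] at h6
          rw [← hcast] at h6
          simp only [reduceCtorEq, if_false, one_mul, Option.some.injEq]
          rw [h6]
          simp
      rw [Finset.sum_congr rfl fun u _ => h5 u, Finset.sum_comm]
      refine Finset.sum_congr rfl fun t _ => ?_
      rw [sum_if_const]
    rw [h2, h4] at h1
    have h7 : n * (n * (qq r - δ)) ≤ ∑ t, (siz g t : ℝ) * (n - siz g t) := by
      have h8 : ∑ t, (siz g t : ℝ) * (n * (qq r - δ)) ≤ ∑ t, (siz g t : ℝ) * (n - siz g t) := by
        refine Finset.sum_le_sum fun t _ => mul_le_mul_of_nonneg_left ?_ (Nat.cast_nonneg _)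
        have := (abs_le.1 (hd t)).2
        rw [hqdef]
        have h9 : n * (1 - 1 / (r : ℝ) - δ) = n - n / r - δ * n := by ring
        rw [h9]; linarith
      rw [← Finset.sum_mul, ← hcast] at h8
      exact h8
    have h10 : n * (n * (qq r - δ)) ≤ n * lam G := by linarith
    exact le_of_mul_le_mul_left h10 hnpos
  have hir : 1 / (r : ℝ) ≤ 1 / 3 := by
    rw [div_le_div_iff₀ hrpos (by norm_num)]; linarith
  have hδ24 : δ ≤ 1 / 24 := by nlinarith only [hδr, hr0, hδ]
  have hlpos : 0 < lam G := by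
    have : 0 < n * (qq r - δ) := mul_pos hnpos (by rw [hqdef]; linarith)
    linarith
  -- equations
  set X : Fin r → ℝ := fun t => cw x g (some t) with hX
  set T := ∑ s, X s with hT
  have hXnn : ∀ t, 0 ≤ X t := fun t => Finset.sum_nonneg fun v _ => by
    split_ifs
    · exact hx0 v
    · exact le_rfl
  have hxc : ∀ v t, g v = some t → lam G * x v = T - X t := by
    intro v t hv
    rw [← hxe v, adj_core hK x v t hv]
  have hxo : ∀ v, g v = none → x v = 0 := by
    intro v hv
    have := hxe v
    rw [adj_out hK x v hv] at this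
    rcases mul_eq_zero.1 this.symm with h | h
    · exact absurd h hlpos.ne'
    · exact h
  have hXt : ∀ t, lam G * X t = siz g t * (T - X t) := by
    intro t
    rw [← sum_if_const g t (T - X t)]
    simp only [hX, cw]
    rw [Finset.mul_sum]
    refine Finset.sum_congr rfl fun v _ => ?_
    by_cases hv : g v = some t
    · rw [if_pos hv, if_pos hv]
      exact hxc v t hv
    · rw [if_neg hv, if_neg hv, mul_zero]
  have hTnn : 0 ≤ T := Finset.sum_nonneg fun t _ => hXnn t
  have hTpos : 0 < T := by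
    rcases hTnn.lt_or_eq with h | h
    · exact h
    · exfalso
      have hX0 : ∀ t, X t = 0 := fun t =>
        (Finset.sum_eq_zero_iff_of_nonneg fun t _ => hXnn t).1 h.symm t (Finset.mem_univ t)
      have hxz : ∀ v, x v = 0 := by
        intro v
        cases hv : g v with
        | none => exact hxo v hv
        | some t =>
          have := hxc v t hv
          rw [hX0 t, ← h, sub_zero] at this
          rcases mul_eq_zero.1 this with h' | h'
          · exact absurd h' hlpos.ne'
          · exact h'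
      simp [hxz] at hx1
  have hden : ∀ t, 0 < lam G + (siz g t : ℝ) := fun t => by
    have : (0 : ℝ) ≤ siz g t := Nat.cast_nonneg _
    linarith
  have heq : ∑ t, (siz g t : ℝ) / (lam G + siz g t) = 1 := by
    have h1 : ∀ t, X t = T * ((siz g t : ℝ) / (lam G + siz g t)) := by
      intro t
      have h2 := hXt t
      have h3 := hden t
      field_simp
      linarith
    have h4 : T = T * ∑ t, (siz g t : ℝ) / (lam G + siz g t) := by
      rw [Finset.mul_sum]
      exact Finset.sum_congr rfl fun t _ => h1 t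
    have h5 : T * 1 = T * ∑ t, (siz g t : ℝ) / (lam G + siz g t) := by rw [mul_one]; exact h4
    exact (mul_left_cancel₀ hTpos.ne' h5).symm
  have hfin := ana hr ε δ n (lam G) (fun t => (siz g t : ℝ)) hδ hδε hδr hnpos hcast.symm
    (fun t => Nat.cast_nonneg _) hd hlow heq
  have hdev : dev (siz g) = ∑ t, ((siz g t : ℝ) - n / r) ^ 2 := by
    unfold dev
    rw [← hcast]
  rw [hdev]
  exact hfin

end MP0c3a8f

end

section

/-!
# MP_0c3a8f_co, phase B: item KW2
-/

open Finset

namespace MP0c3a8f

namespace ItemKW2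

theorem adj_nonneg {V : Type} (G : SimpleGraph V) (i j : V) : 0 ≤ adj G i j := by
  unfold adj
  split_ifs <;> norm_num

theorem adj_comm {V : Type} (G : SimpleGraph V) (i j : V) : adj G i j = adj G j i := by
  unfold adj
  by_cases h : G.Adj i j
  · rw [if_pos h, if_pos h.symm]
  · rw [if_neg h, if_neg fun h' => h h'.symm]

theorem qf_eig {V : Type} [Fintype V] {G : SimpleGraph V} {x : V → ℝ} {l : ℝ}
    (h : ∀ i, ∑ j, adj G i j * x j = l * x i) : qf G x = l * ∑ i, x i ^ 2 := by
  unfold qf
  rw [Finset.mul_sum]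
  refine Finset.sum_congr rfl fun i _ => ?_
  calc ∑ j, adj G i j * (x i * x j) = x i * ∑ j, adj G i j * x j := by
        rw [Finset.mul_sum]
        refine Finset.sum_congr rfl fun j _ => ?_
        ring
    _ = l * x i ^ 2 := by
        rw [h i]
        ring

end ItemKW2

open ItemKW2 in
theorem prfKW2 : P_statement → KW2_statement := by
  classical
  intro hP V _ G G₀ U x hG₀ hx0 hx1 hxe
  have hne : Nonempty V := by
    by_contra hcon
    rw [not_nonempty_iff] at hcon
    simp at hx1
  have hadj : ∀ i j, adj G₀ i j ≤ adj G i j := by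
    intro i j
    by_cases h : G₀.Adj i j
    · have h' := ((hG₀ i j).1 h).1
      unfold adj
      rw [if_pos h, if_pos h']
    · have : adj G₀ i j = 0 := by
        unfold adj
        rw [if_neg h]
      rw [this]
      exact adj_nonneg G i j
  constructor
  · obtain ⟨_, _, y, hy0, hy1, hye⟩ := hP V G₀
    have h1 : qf G₀ y = lam G₀ := by
      rw [qf_eig hye, hy1, mul_one]
    have h2 : qf G₀ y ≤ qf G y := by
      unfold qf
      refine Finset.sum_le_sum fun i _ => Finset.sum_le_sum fun j _ => ?_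
      exact mul_le_mul_of_nonneg_right (hadj i j) (mul_nonneg (hy0 i) (hy0 j))
    have h3 := (hP V G).2.1 y
    rw [hy1, mul_one] at h3
    linarith
  · set s : ℝ := ∑ v ∈ U, x v ^ 2 with hs
    set x0 : V → ℝ := fun i => if i ∈ U then 0 else x i with hx0def
    have h1 : ∑ i, x0 i ^ 2 = 1 - s := by
      have h2 : ∀ i, x i ^ 2 = x0 i ^ 2 + (if i ∈ U then x i ^ 2 else 0) := by
        intro i
        simp only [hx0def]
        split_ifs <;> ring
      have h3 : ∑ i, x i ^ 2 = ∑ i, x0 i ^ 2 + ∑ i, (if i ∈ U then x i ^ 2 else 0) := by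
        rw [← Finset.sum_add_distrib]
        exact Finset.sum_congr rfl fun i _ => h2 i
      rw [Finset.sum_ite_mem, Finset.univ_inter, hx1, ← hs] at h3
      linarith
    have h2 := (hP V G₀).2.1 x0
    rw [h1] at h2
    have h3 : qf G x = lam G := by
      rw [qf_eig hxe, hx1, mul_one]
    have h4 : qf G x ≤ qf G₀ x0 + ∑ i, ∑ j, (if i ∈ U then adj G i j * (x i * x j) else 0) +
        ∑ i, ∑ j, (if j ∈ U then adj G i j * (x i * x j) else 0) := by
      unfold qf
      rw [← Finset.sum_add_distrib, ← Finset.sum_add_distrib]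
      refine Finset.sum_le_sum fun i _ => ?_
      rw [← Finset.sum_add_distrib, ← Finset.sum_add_distrib]
      refine Finset.sum_le_sum fun j _ => ?_
      have hnn : 0 ≤ adj G i j * (x i * x j) :=
        mul_nonneg (adj_nonneg G i j) (mul_nonneg (hx0 i) (hx0 j))
      by_cases hi : i ∈ U
      · have e1 : x0 i = 0 := by simp [hx0def, hi]
        rw [e1, if_pos hi]
        by_cases hj : j ∈ U
        · rw [if_pos hj]
          linarith
        · rw [if_neg hj]
          linarith
      · by_cases hj : j ∈ U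
        · have e1 : x0 j = 0 := by simp [hx0def, hj]
          rw [e1, if_neg hi, if_pos hj]
          linarith
        · have e1 : x0 i = x i := by simp [hx0def, hi]
          have e2 : x0 j = x j := by simp [hx0def, hj]
          have e3 : adj G₀ i j = adj G i j := by
            unfold adj
            have : G₀.Adj i j ↔ G.Adj i j := by
              rw [hG₀]
              exact ⟨fun h => h.1, fun h => ⟨h, hi, hj⟩⟩
            simp only [this]
          rw [e1, e2, e3, if_neg hi, if_neg hj]
          linarith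
    have h5 : ∑ i, ∑ j, (if i ∈ U then adj G i j * (x i * x j) else 0) = lam G * s := by
      have h6 : ∀ i, ∑ j, (if i ∈ U then adj G i j * (x i * x j) else 0) =
          if i ∈ U then lam G * x i ^ 2 else 0 := by
        intro i
        by_cases hi : i ∈ U
        · simp only [hi, if_true]
          calc ∑ j, adj G i j * (x i * x j) = x i * ∑ j, adj G i j * x j := by
                rw [Finset.mul_sum]
                refine Finset.sum_congr rfl fun j _ => ?_
                ring
            _ = lam G * x i ^ 2 := by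
                rw [hxe i]
                ring
        · simp [hi]
      rw [Finset.sum_congr rfl fun i _ => h6 i, Finset.sum_ite_mem, Finset.univ_inter, hs,
        Finset.mul_sum]
    have h6 : ∑ i, ∑ j, (if j ∈ U then adj G i j * (x i * x j) else 0) = lam G * s := by
      rw [Finset.sum_comm, ← h5]
      refine Finset.sum_congr rfl fun i _ => Finset.sum_congr rfl fun j _ => ?_
      rw [adj_comm G j i, mul_comm (x j) (x i)]
    rw [h5, h6, h3] at h4
    linarith

end MP0c3a8f

end

section

/-!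
# MP_0c3a8f_co, phase B: item KW3
-/

open Finset

namespace MP0c3a8f

namespace ItemKW3

theorem siz_eq {V : Type} [Fintype V] {r : ℕ} (g : V → Option (Fin r)) (t : Fin r)
    [DecidableEq (Option (Fin r))] :
    (siz g t : ℝ) = ∑ v, if g v = some t then (1 : ℝ) else 0 := by
  classical
  unfold siz
  rw [Finset.sum_boole, Set.ncard_eq_toFinset_card']
  congr 2
  ext v
  simp

theorem nbn_eq {V : Type} [Fintype V] {r : ℕ} (G : SimpleGraph V) (g : V → Option (Fin r)) (w : V)
    (t : Fin r) [DecidableEq (Option (Fin r))] :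
    (nbn G g w t : ℝ) = ∑ v, if g v = some t then adj G w v else 0 := by
  classical
  have h : ∀ v, (if g v = some t then adj G w v else 0)
      = if (g v = some t ∧ G.Adj w v) then (1 : ℝ) else 0 := by
    intro v
    unfold adj
    by_cases h1 : g v = some t <;> by_cases h2 : G.Adj w v <;> simp [h1, h2]
  rw [Finset.sum_congr rfl fun v _ => h v]
  unfold nbn
  rw [Finset.sum_boole, Set.ncard_eq_toFinset_card']
  congr 2
  ext v
  simp

theorem sum_cls {V : Type} {r : ℕ} (g : V → Option (Fin r)) (v : V) (a : ℝ)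
    [DecidableEq (Option (Fin r))] :
    (∑ s : Fin r, if g v = some s then a else 0) = if g v = none then 0 else a := by
  classical
  cases h : g v with
  | none => simp
  | some t => simp

theorem sum_if_const {V : Type} [Fintype V] {r : ℕ} (g : V → Option (Fin r)) (t : Fin r) (c : ℝ)
    [DecidableEq (Option (Fin r))] :
    (∑ v, if g v = some t then c else 0) = siz g t * c := by
  rw [siz_eq, Finset.sum_mul]
  refine Finset.sum_congr rfl fun v _ => ?_
  split_ifs <;> simp

theorem adj_le_one {V : Type} (G : SimpleGraph V) (i j : V) : adj G i j ≤ 1 := by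
  unfold adj; split_ifs <;> norm_num

theorem adj_nonneg {V : Type} (G : SimpleGraph V) (i j : V) : 0 ≤ adj G i j := by
  unfold adj; split_ifs <;> norm_num

variable {V : Type} [Fintype V] {r : ℕ} {G : SimpleGraph V} {g : V → Option (Fin r)}
  {U : Finset V}

/-- neighbours are in the core or in `U` -/
theorem split (h : IsKU G g U) (y : V → ℝ) (u : V) :
    ∑ v, adj G u v * y v = (∑ v, if g v = none then 0 else adj G u v * y v)
      + ∑ v ∈ U, adj G u v * y v := by
  classical
  have h1 : ∑ v ∈ U, adj G u v * y v = ∑ v, if v ∈ U then adj G u v * y v else 0 := by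
    rw [Finset.sum_ite_mem, Finset.univ_inter]
  rw [h1, ← Finset.sum_add_distrib]
  refine Finset.sum_congr rfl fun v _ => ?_
  by_cases hv : g v = none
  · by_cases hU : v ∈ U
    · simp [hv, hU]
    · have : ¬ G.Adj u v := fun hh => h.iso v u hv hU hh.symm
      simp [hv, hU, adj, this]
  · have hU : v ∉ U := fun hU => hv (h.exc v hU)
    simp [hv, hU]

theorem core_part (h : IsKU G g U) (y : V → ℝ) (u : V) (t : Fin r) (hu : g u = some t) :
    (∑ v, if g v = none then 0 else adj G u v * y v)
      = ∑ s, cw y g (some s) - cw y g (some t) := by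
  classical
  unfold cw
  rw [Finset.sum_comm, ← Finset.sum_sub_distrib]
  refine Finset.sum_congr rfl fun v _ => ?_
  rw [sum_cls]
  unfold adj
  cases hv : g v with
  | none => simp
  | some s =>
    have : G.Adj u v ↔ g u ≠ g v := h.core u v (by simp [hu]) (by simp [hv])
    rw [hu, hv] at this
    by_cases hst : s = t
    · subst hst
      have h1 : ¬ G.Adj u v := fun hh => (this.1 hh) rfl
      simp [h1]
    · have h1 : G.Adj u v := this.2 (fun e => hst (Option.some.inj e).symm)
      simp [h1, hst]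

theorem card_core (n : ℕ) (hn : ∑ t, siz g t = n) :
    ∑ v, (if g v = none then (0 : ℝ) else 1) = n := by
  have : (n : ℝ) = ∑ t, (siz g t : ℝ) := by rw [← hn]; push_cast; rfl
  rw [this, Finset.sum_congr rfl fun t _ => siz_eq g t, Finset.sum_comm]
  refine Finset.sum_congr rfl fun v _ => ?_
  rw [sum_cls]

/-- the lower bound for the spectral radius -/
theorem low (hP : P_statement) [Nonempty V] (h : IsKU G g U) (n : ℕ) (hn : ∑ t, siz g t = n)
    (hn0 : 0 < n) (hr : 0 < r) : qq r * n - dev (siz g) / n ≤ lam G := by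
  classical
  obtain ⟨-, hR, -⟩ := hP V G
  have hnpos : (0 : ℝ) < n := by exact_mod_cast hn0
  have hrpos : (0 : ℝ) < r := by exact_mod_cast hr
  have hcast : (n : ℝ) = ∑ s, (siz g s : ℝ) := by rw [← hn]; push_cast; rfl
  have h1 := hR (fun v => if g v = none then 0 else 1)
  have h2 : ∑ v, (if g v = none then (0 : ℝ) else 1) ^ 2 = n := by
    rw [← card_core n hn]
    refine Finset.sum_congr rfl fun v _ => ?_
    split_ifs <;> simp
  have h3 : ∀ s, cw (fun v => if g v = none then (0 : ℝ) else 1) g (some s) = siz g s := by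
    intro s
    rw [siz_eq]
    unfold cw
    refine Finset.sum_congr rfl fun v _ => ?_
    by_cases hv : g v = some s
    · simp [hv]
    · simp [hv]
  have h4 : qf G (fun v => if g v = none then 0 else 1)
      = ∑ t, (siz g t : ℝ) * (n - siz g t) := by
    unfold qf
    have h5 : ∀ u, (∑ v, adj G u v * ((if g u = none then (0 : ℝ) else 1)
        * (if g v = none then 0 else 1)))
        = ∑ t, if g u = some t then (n - siz g t : ℝ) else 0 := by
      intro u
      cases hu : g u with
      | none => simp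
      | some t =>
        have h6 := core_part h (fun v => if g v = none then (0 : ℝ) else 1) u t hu
        simp only [h3] at h6
        rw [← hcast] at h6
        simp only [reduceCtorEq, if_false, one_mul, Option.some.injEq]
        have h7 : ∑ v, adj G u v * (if g v = none then (0 : ℝ) else 1) =
            ∑ v, if g v = none then 0 else adj G u v * (if g v = none then (0 : ℝ) else 1) := by
          refine Finset.sum_congr rfl fun v _ => ?_
          split_ifs <;> simp
        rw [h7, h6]
        simp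
    rw [Finset.sum_congr rfl fun u _ => h5 u, Finset.sum_comm]
    refine Finset.sum_congr rfl fun t _ => ?_
    rw [sum_if_const]
  rw [h2, h4] at h1
  have hdev : dev (siz g) = ∑ t, (siz g t : ℝ) ^ 2 - (n : ℝ) ^ 2 / r := by
    unfold dev
    rw [← hcast]
    have h8 : ∀ t : Fin r, ((siz g t : ℝ) - n / r) ^ 2
        = (siz g t : ℝ) ^ 2 - 2 * (n / r) * siz g t + (n / r) ^ 2 := fun t => by ring
    rw [Finset.sum_congr rfl fun t _ => h8 t, Finset.sum_add_distrib, Finset.sum_sub_distrib,
      ← Finset.mul_sum, ← hcast, Finset.sum_const, Finset.card_univ, Fintype.card_fin,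
      nsmul_eq_mul]
    field_simp
    ring
  have h9 : ∑ t, (siz g t : ℝ) * (n - siz g t) = (qq r * n - dev (siz g) / n) * n := by
    have h10 : ∀ t : Fin r, (siz g t : ℝ) * (n - siz g t)
        = n * siz g t - (siz g t : ℝ) ^ 2 := fun t => by ring
    rw [Finset.sum_congr rfl fun t _ => h10 t, Finset.sum_sub_distrib, ← Finset.mul_sum, ← hcast,
      hdev]
    unfold qq
    field_simp
    ring
  rw [h9] at h1
  exact le_of_mul_le_mul_right h1 hnpos

end ItemKW3

open ItemKW3 in
theorem prfKW3 : P_statement → KW3_statement := by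
  classical
  intro hP r K hr
  have hr0 : (3 : ℝ) ≤ r := by exact_mod_cast hr
  have hrpos : (0 : ℝ) < r := by linarith
  refine ⟨54 + 102 * K + 9 * (K : ℝ) ^ 2, K + 1, by positivity, ?_⟩
  intro V _ G g U x n hK hUK hn0 hn hd hx0 hx1 hxe
  have hn1 : 1 ≤ n := by omega
  have hnpos : (0 : ℝ) < n := by exact_mod_cast hn1
  have hn1' : (1 : ℝ) ≤ n := by exact_mod_cast hn1
  have hKn : (K : ℝ) ≤ n := by
    have : K ≤ n := by omega
    exact_mod_cast this
  have hK0 : (0 : ℝ) ≤ K := Nat.cast_nonneg _
  have hcast : (n : ℝ) = ∑ s, (siz g s : ℝ) := by rw [← hn]; push_cast; rfl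
  have hne : Nonempty V := by
    by_contra hcon
    rw [not_nonempty_iff] at hcon
    simp at hx1
  set D := Real.sqrt (dev (siz g)) with hD
  have hdev0 : 0 ≤ dev (siz g) := Finset.sum_nonneg fun t _ => sq_nonneg _
  have hD0 : 0 ≤ D := Real.sqrt_nonneg _
  have hDsq : D ^ 2 = dev (siz g) := Real.sq_sqrt hdev0
  have hdev : dev (siz g) = ∑ t, ((siz g t : ℝ) - n / r) ^ 2 := by
    unfold dev
    rw [← hcast]
  have hdevle : dev (siz g) ≤ (n / 6 : ℝ) ^ 2 := by
    rw [hdev]
    have h1 : ∀ t ∈ (Finset.univ : Finset (Fin r)),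
        ((siz g t : ℝ) - n / r) ^ 2 ≤ (n / (4 * (r : ℝ))) ^ 2 := by
      intro t _
      rw [← sq_abs]
      exact pow_le_pow_left₀ (abs_nonneg _) (hd t) 2
    refine (Finset.sum_le_sum h1).trans ?_
    rw [Finset.sum_const, Finset.card_univ, Fintype.card_fin, nsmul_eq_mul]
    have h2 : (r : ℝ) * (n / (4 * (r : ℝ))) ^ 2 = n ^ 2 / (16 * r) := by
      field_simp
      ring
    rw [h2, div_le_iff₀ (by positivity)]
    nlinarith only [mul_nonneg (sq_nonneg (n : ℝ)) (sub_nonneg.2 hr0), sq_nonneg (n : ℝ)]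
  have hDle : D ≤ n / 6 := by
    rw [hD]
    exact Real.sqrt_le_iff.2 ⟨by positivity, hdevle⟩
  -- lower bound
  have hlow := low hP hK n hn (by omega) (by omega)
  have hdn : dev (siz g) / n ≤ D / 6 := by
    rw [← hDsq, div_le_iff₀ hnpos]
    nlinarith only [mul_nonneg hD0 (sub_nonneg.2 hDle)]
  have hq : qq r * (n : ℝ) = n - n / r := by unfold qq; ring
  have hnr : (n : ℝ) / r ≤ n / 3 := by
    apply div_le_div_of_nonneg_left hnpos.le (by norm_num) hr0
  have hl1 : n - n / r - D / 6 ≤ lam G := by rw [← hq]; linarith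
  have hl2 : (n : ℝ) / 2 ≤ lam G := by linarith
  have hlpos : 0 < lam G := by linarith
  -- indicator of the vertices which are not isolated
  set J : V → ℝ := fun v => (if g v = none then 0 else 1) + (if v ∈ U then 1 else 0) with hJ
  have hJsum : ∑ v, J v ≤ n + K := by
    rw [hJ, Finset.sum_add_distrib, card_core n hn, Finset.sum_boole]
    have h1 : (((Finset.univ.filter fun v => v ∈ U).card : ℕ) : ℝ) ≤ K := by
      have : (Finset.univ.filter fun v => v ∈ U) = U := by ext v; simp
      rw [this]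
      exact_mod_cast hUK
    linarith
  have hJ01 : ∀ v, J v = 0 ∨ J v = 1 := by
    intro v
    simp only [hJ]
    by_cases hv : g v = none
    · by_cases hU : v ∈ U <;> simp [hv, hU]
    · have hU : v ∉ U := fun hU => hv (hK.exc v hU)
      simp [hv, hU]
  have hJnn : ∀ v, 0 ≤ J v := by
    intro v
    rcases hJ01 v with h | h <;> rw [h]
    norm_num
  have hJadj : ∀ u v, adj G u v ≤ J v := by
    intro u v
    by_cases hv : g v = none
    · by_cases hU : v ∈ U
      · simp only [hJ, hv, hU, if_true, zero_add]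
        exact adj_le_one G u v
      · have h1 : ¬ G.Adj u v := fun hh => hK.iso v u hv hU hh.symm
        simp [adj, h1, hJnn v]
    · have hU : v ∉ U := fun hU => hv (hK.exc v hU)
      simp only [hJ, hv, hU, if_false, add_zero]
      exact adj_le_one G u v
  -- upper bound
  have hl3 : lam G ≤ 2 * n := by
    obtain ⟨i, -, hi⟩ := Finset.exists_max_image Finset.univ x Finset.univ_nonempty
    have hipos : 0 < x i := by
      rcases (hx0 i).lt_or_eq with h | h
      · exact h
      · exfalso
        have : ∀ j, x j = 0 := fun j => le_antisymm (by rw [h]; exact hi j (Finset.mem_univ j))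
          (hx0 j)
        simp [this] at hx1
    have h1 : lam G * x i ≤ (n + K) * x i := by
      rw [← hxe i]
      calc ∑ j, adj G i j * x j ≤ ∑ j, J j * x i := by
            refine Finset.sum_le_sum fun j _ => ?_
            exact mul_le_mul (hJadj i j) (hi j (Finset.mem_univ j)) (hx0 j) (hJnn j)
        _ = (∑ j, J j) * x i := by rw [Finset.sum_mul]
        _ ≤ (n + K) * x i := mul_le_mul_of_nonneg_right hJsum hipos.le
    have h2 := le_of_mul_le_mul_right h1 hipos
    linarith
  -- square root of n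
  set s := Real.sqrt n with hs
  have hspos : 0 < s := Real.sqrt_pos.2 hnpos
  have hssq : s ^ 2 = n := Real.sq_sqrt hnpos.le
  -- entries outside of the core
  have hxU : ∀ w, x w ≤ 3 / s := by
    intro w
    have h1 : lam G * x w ≤ ∑ j, J j * x j := by
      rw [← hxe w]
      exact Finset.sum_le_sum fun j _ => mul_le_mul_of_nonneg_right (hJadj w j) (hx0 j)
    have h2 : (∑ j, J j * x j) ^ 2 ≤ n + K := by
      refine (Finset.sum_mul_sq_le_sq_mul_sq _ _ _).trans ?_
      rw [hx1, mul_one]
      refine le_trans (le_of_eq ?_) hJsum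
      refine Finset.sum_congr rfl fun v _ => ?_
      rcases hJ01 v with h | h <;> rw [h] <;> norm_num
    have h3 : (lam G * x w) ^ 2 ≤ 2 * n := by
      refine (pow_le_pow_left₀ (mul_nonneg hlpos.le (hx0 w)) h1 2).trans ?_
      linarith
    have h4 : (n / 2 * x w) ^ 2 ≤ 2 * n :=
      (pow_le_pow_left₀ (mul_nonneg (by positivity) (hx0 w))
        (mul_le_mul_of_nonneg_right hl2 (hx0 w)) 2).trans h3
    have h5 : n * x w ^ 2 ≤ 8 := by
      have h6 : (n : ℝ) * (n * x w ^ 2) ≤ n * 8 := by nlinarith only [h4]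
      exact le_of_mul_le_mul_left h6 hnpos
    rw [le_div_iff₀ hspos]
    have h7 : (x w * s) ^ 2 ≤ 3 ^ 2 := by
      rw [mul_pow, hssq]; linarith
    exact (pow_le_pow_iff_left₀ (mul_nonneg (hx0 w) hspos.le) (by norm_num) two_ne_zero).1 h7
  set Ω : ℝ := 3 * K / s with hΩ
  have hΩ0 : 0 ≤ Ω := by positivity
  have hsumU : ∀ u, ∑ v ∈ U, adj G u v * x v ≤ Ω := by
    intro u
    calc ∑ v ∈ U, adj G u v * x v ≤ ∑ v ∈ U, 3 / s := by
          refine Finset.sum_le_sum fun v _ => ?_
          calc adj G u v * x v ≤ 1 * x v :=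
                mul_le_mul_of_nonneg_right (adj_le_one G u v) (hx0 v)
            _ ≤ 3 / s := by rw [one_mul]; exact hxU v
      _ = U.card * (3 / s) := by rw [Finset.sum_const, nsmul_eq_mul]
      _ ≤ K * (3 / s) := mul_le_mul_of_nonneg_right (by exact_mod_cast hUK) (by positivity)
      _ = Ω := by rw [hΩ]; ring
  -- class sums
  set X : Fin r → ℝ := fun t => cw x g (some t) with hX
  set T := ∑ t, X t with hT
  have hXnn : ∀ t, 0 ≤ X t := fun t => Finset.sum_nonneg fun v _ => by
    split_ifs
    · exact hx0 v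
    · exact le_rfl
  have hTnn : 0 ≤ T := Finset.sum_nonneg fun t _ => hXnn t
  have hxc : ∀ v t, g v = some t → lam G * x v = T - X t + ∑ w ∈ U, adj G v w * x w := by
    intro v t hv
    rw [← hxe v, split hK x v, core_part hK x v t hv]
  have hUnn : ∀ v, 0 ≤ ∑ w ∈ U, adj G v w * x w := fun v =>
    Finset.sum_nonneg fun w _ => mul_nonneg (adj_nonneg G v w) (hx0 w)
  have hXt : ∀ t, (siz g t : ℝ) * (T - X t) ≤ lam G * X t := by
    intro t
    rw [← sum_if_const g t (T - X t)]
    simp only [hX, cw]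
    rw [Finset.mul_sum]
    refine Finset.sum_le_sum fun v _ => ?_
    by_cases hv : g v = some t
    · rw [if_pos hv, if_pos hv]
      have h1 := hxc v t hv
      have h2 := hUnn v
      simp only [hX, cw] at h1
      linarith
    · rw [if_neg hv, if_neg hv, mul_zero]
  have hTs : T ≤ s := by
    have h1 : T = ∑ v, (if g v = none then (0 : ℝ) else 1) * x v := by
      simp only [hT, hX, cw]
      rw [Finset.sum_comm]
      refine Finset.sum_congr rfl fun v _ => ?_
      rw [sum_cls]
      split_ifs <;> simp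
    have h2 : T ^ 2 ≤ s ^ 2 := by
      rw [h1, hssq]
      refine (Finset.sum_mul_sq_le_sq_mul_sq _ _ _).trans ?_
      rw [hx1, mul_one, ← card_core n hn]
      refine le_of_eq (Finset.sum_congr rfl fun v _ => ?_)
      split_ifs <;> simp
    exact (pow_le_pow_iff_left₀ hTnn hspos.le two_ne_zero).1 h2
  have hσ : ∀ t, (n : ℝ) / r - D ≤ siz g t := by
    intro t
    have h1 : ((siz g t : ℝ) - n / r) ^ 2 ≤ dev (siz g) := by
      rw [hdev]
      exact Finset.single_le_sum (f := fun t => ((siz g t : ℝ) - n / r) ^ 2)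
        (fun t _ => sq_nonneg _) (Finset.mem_univ t)
    have h2 := Real.abs_le_sqrt h1
    have h3 := (abs_le.1 h2).1
    linarith
  -- entries in the core
  set y : ℝ := (3 * D + 6 * K) / n with hy
  have hy0 : 0 ≤ y := by positivity
  have hy7 : y ≤ 7 := by
    rw [hy, div_le_iff₀ hnpos]; linarith
  have hxM : ∀ v, g v ≠ none → x v ≤ (1 + y) / s := by
    intro v hv
    obtain ⟨t, ht⟩ := Option.ne_none_iff_exists'.1 hv
    have h1 := hxc v t ht
    have h2 := hsumU v
    have h3 := hXt t
    have hden : (n : ℝ) - 2 * D ≤ lam G + siz g t := by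
      have := hσ t
      linarith
    have hden0 : 0 < (n : ℝ) - 2 * D := by linarith
    -- (T - X t) (l + σ) ≤ l T
    have h4 : (T - X t) * (lam G + siz g t) ≤ lam G * T := by nlinarith only [h3]
    have h5 : T - X t ≤ lam G * T / (n - 2 * D) := by
      rw [le_div_iff₀ hden0]
      rcases le_or_gt 0 (T - X t) with h | h
      · calc (T - X t) * (n - 2 * D) ≤ (T - X t) * (lam G + siz g t) :=
              mul_le_mul_of_nonneg_left hden h
          _ ≤ lam G * T := h4
      · have h6 : (T - X t) * (n - 2 * D) ≤ 0 := mul_nonpos_of_nonpos_of_nonneg h.le hden0.le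
        have h7 : 0 ≤ lam G * T := mul_nonneg hlpos.le hTnn
        linarith
    have h6 : lam G * x v ≤ lam G * (s / (n - 2 * D) + 2 * Ω / n) := by
      have h7 : lam G * T / (n - 2 * D) ≤ lam G * (s / (n - 2 * D)) := by
        rw [mul_div_assoc]
        apply mul_le_mul_of_nonneg_left _ hlpos.le
        exact div_le_div_of_nonneg_right hTs hden0.le
      have h8 : Ω ≤ lam G * (2 * Ω / n) := by
        rw [mul_div_assoc', le_div_iff₀ hnpos]
        nlinarith only [mul_nonneg hΩ0 (sub_nonneg.2 hl2)]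
      rw [mul_add]
      linarith
    have h7 := le_of_mul_le_mul_left h6 hlpos
    refine h7.trans ?_
    have h8 : s / (n - 2 * D) ≤ (1 + 3 * D / n) / s := by
      rw [div_le_div_iff₀ hden0 hspos, ← sq, hssq]
      have h9 : (1 + 3 * D / (n : ℝ)) * (n - 2 * D) = n + D - 6 * D ^ 2 / n := by
        field_simp
        ring
      rw [h9]
      have h10 : 6 * D ^ 2 / n ≤ D := by
        rw [div_le_iff₀ hnpos]
        nlinarith only [mul_nonneg hD0 (sub_nonneg.2 hDle)]
      linarith
    have h9 : 2 * Ω / n = (6 * K / n) / s := by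
      rw [hΩ]
      field_simp
      ring
    rw [h9]
    calc s / (n - 2 * D) + 6 * K / n / s ≤ (1 + 3 * D / n) / s + 6 * K / n / s := by linarith
      _ = (1 + y) / s := by
        rw [hy]
        field_simp
        ring
  have hy9 : (1 + y) ^ 2 ≤ 1 + 9 * y := by
    nlinarith only [mul_nonneg hy0 (sub_nonneg.2 hy7)]
  have hyn : y * n = 3 * D + 6 * K := by
    rw [hy]; field_simp
  refine ⟨hl2, hl3, ?_, ?_⟩
  · intro v hv
    have h1 := hxM v hv
    have h2 : x v ^ 2 ≤ ((1 + y) / s) ^ 2 := pow_le_pow_left₀ (hx0 v) h1 2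
    refine h2.trans ?_
    rw [div_pow, hssq, one_div, mul_comm, ← div_eq_mul_inv]
    apply div_le_div_of_nonneg_right _ hnpos.le
    refine hy9.trans ?_
    have h3 : 9 * y ≤ (54 + 102 * K + 9 * (K : ℝ) ^ 2) * (1 + D) / n := by
      rw [le_div_iff₀ hnpos, mul_assoc, hyn]
      nlinarith only [mul_nonneg hK0 hD0, mul_nonneg (sq_nonneg (K : ℝ)) hD0, sq_nonneg (K : ℝ),
        hK0, hD0]
    linarith
  · intro w hw
    set d : ℝ := ((∑ t, nbn G g w t : ℕ) : ℝ) with hdd
    have hd1 : d = ∑ v, if g v = none then 0 else adj G w v := by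
      rw [hdd]
      push_cast
      rw [Finset.sum_congr rfl fun t _ => nbn_eq G g w t, Finset.sum_comm]
      refine Finset.sum_congr rfl fun v _ => ?_
      rw [sum_cls]
    have hd0 : 0 ≤ d := Nat.cast_nonneg _
    have hdn' : d ≤ n := by
      rw [hd1, ← card_core n hn]
      refine Finset.sum_le_sum fun v _ => ?_
      split_ifs
      · exact le_rfl
      · exact adj_le_one G w v
    have h1 : lam G * x w ≤ d * ((1 + y) / s) + Ω := by
      rw [← hxe w, split hK x w]
      apply add_le_add _ (hsumU w)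
      rw [hd1, Finset.sum_mul]
      refine Finset.sum_le_sum fun v _ => ?_
      split_ifs with h
      · simp
      · exact mul_le_mul_of_nonneg_left (hxM v h) (adj_nonneg G w v)
    have h2 : (lam G * x w) ^ 2 ≤ (d * ((1 + y) / s) + Ω) ^ 2 :=
      pow_le_pow_left₀ (mul_nonneg hlpos.le (hx0 w)) h1 2
    refine h2.trans ?_
    have e1 : (d * ((1 + y) / s)) ^ 2 = d ^ 2 / n * (1 + y) ^ 2 := by
      rw [mul_pow, div_pow, hssq]; ring
    have h3 : d ^ 2 / n * (1 + y) ^ 2 ≤ d ^ 2 / n + 9 * (3 * D + 6 * K) := by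
      have h4 : d ^ 2 / n * (1 + y) ^ 2 ≤ d ^ 2 / n * (1 + 9 * y) :=
        mul_le_mul_of_nonneg_left hy9 (by positivity)
      have h5 : d ^ 2 / n ≤ n := by
        rw [div_le_iff₀ hnpos, sq]
        exact mul_self_le_mul_self hd0 hdn'
      have h6 : d ^ 2 / n * (9 * y) ≤ n * (9 * y) :=
        mul_le_mul_of_nonneg_right h5 (by positivity)
      nlinarith only [h4, h6, hyn]
    have h4 : 2 * (d * ((1 + y) / s)) * Ω ≤ 48 * K := by
      have h5 : 2 * (d * ((1 + y) / s)) * Ω = 6 * K * (d / n) * (1 + y) := by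
        rw [hΩ, ← hssq]
        field_simp
        ring
      rw [h5]
      have h6 : d / n ≤ 1 := by rw [div_le_one hnpos]; exact hdn'
      have h7 : 0 ≤ d / n := by positivity
      have h8 : (d / n) * (1 + y) ≤ 1 * 8 := mul_le_mul h6 (by linarith) (by linarith) (by norm_num)
      nlinarith only [mul_le_mul_of_nonneg_left h8 hK0]
    have h5 : Ω ^ 2 ≤ 9 * (K : ℝ) ^ 2 := by
      rw [hΩ, div_pow, hssq, div_le_iff₀ hnpos]
      nlinarith only [mul_nonneg (sq_nonneg (K : ℝ)) (sub_nonneg.2 hn1')]
    have h6 : (d * ((1 + y) / s) + Ω) ^ 2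
        = (d * ((1 + y) / s)) ^ 2 + 2 * (d * ((1 + y) / s)) * Ω + Ω ^ 2 := by ring
    rw [h6, e1]
    nlinarith only [h3, h4, h5, mul_nonneg hK0 hD0, mul_nonneg (sq_nonneg (K : ℝ)) hD0,
      sq_nonneg (K : ℝ), hK0, hD0]

end MP0c3a8f

end

section

/-! Item LBG (helper42): lower bound for the defect. -/

set_option autoImplicit false

open Finset

namespace MP0c3a8f

namespace ItemLBG

theorem isKU {r : ℕ} {V : Type} (G : SimpleGraph V) (g : V → Option (Fin r)) (U : Finset V)
    (hU : ∀ v ∈ U, g v = none) : IsKU (KU G g U) g U where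
  core u v hu hv := by
    constructor
    · rintro (h | ⟨_, h, _, _⟩)
      · exact h.2.2
      · rcases h with h | h
        · exact absurd (hU u h) hu
        · exact absurd (hU v h) hv
    · intro h
      exact Or.inl ⟨hu, hv, h⟩
  exc := hU
  iso u v hu huU := by
    rintro (h | ⟨_, _, h, _⟩)
    · exact h.1 hu
    · rcases h with h | h
      · exact h hu
      · exact huU h

theorem nbn_KU {r : ℕ} {V : Type} (G : SimpleGraph V) (g : V → Option (Fin r)) (w : V)
    (hw : g w = none) : nbn (KU G g {w}) g w = nbn G g w := by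
  funext t
  unfold nbn
  congr 1
  ext v
  simp only [Set.mem_ofPred_eq]
  constructor
  · rintro ⟨hv, h | h⟩
    · exact absurd hw h.1
    · exact ⟨hv, h.1⟩
  · rintro ⟨hv, h⟩
    exact ⟨hv, Or.inr ⟨h, Or.inl (mem_singleton_self w), Or.inr (mem_singleton_self w),
      Or.inl (by rw [hv]; simp)⟩⟩

theorem dev_eq {r : ℕ} (hr : 1 ≤ r) (σ : Fin r → ℕ) :
    dev σ = ∑ t, (σ t : ℝ) ^ 2 - (∑ t, (σ t : ℝ)) ^ 2 / r := by
  have hr' : (r : ℝ) ≠ 0 := by positivity
  unfold dev
  set n : ℝ := ∑ t, (σ t : ℝ) with hn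
  have h1 : ∀ t, ((σ t : ℝ) - n / r) ^ 2 = (σ t : ℝ) ^ 2 - 2 * (n / r) * σ t + (n / r) ^ 2 :=
    fun t => by ring
  simp_rw [h1]
  rw [sum_add_distrib, sum_sub_distrib, ← mul_sum, ← hn, sum_const, card_univ, Fintype.card_fin,
    nsmul_eq_mul]
  field_simp
  ring

end ItemLBG

theorem prfLBG : CNTU_statement → COMPU_statement → SEC_statement → LBG_statement := by
  intro hC hP hS r N ε hr hε
  obtain ⟨n₀, hn₀⟩ := hS r N (ε / 2) hr (by positivity)
  refine ⟨min (1 / 40) (ε / (40 * ((N : ℝ) + 1))), by positivity, n₀, ?_⟩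
  intro V _ G z g w n hn hStr
  set δ : ℝ := min (1 / 40) (ε / (40 * ((N : ℝ) + 1))) with hδ
  have hδ0 : 0 < δ := by positivity
  have hδ1 : δ ≤ 1 / 40 := min_le_left _ _
  have hδ2 : δ * (40 * ((N : ℝ) + 1)) ≤ ε := by
    have : δ ≤ ε / (40 * ((N : ℝ) + 1)) := min_le_right _ _
    rwa [le_div_iff₀ (by positivity)] at this
  have hw : g w = none := hStr.flat.exc w (mem_singleton_self w)
  obtain ⟨e, he, hE⟩ := hC r V G g {w} hStr.flat.indep hStr.flat.exc
  have he0 : e = 0 := by simp at he; exact he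
  rw [he0, sum_singleton] at hE
  have hcomp := hP r δ V G z g {w} _ hr hδ0 hδ1 hStr.flat rfl
  have hdev0 : 0 ≤ dev (siz g) := by unfold dev; positivity
  have hb := hStr.bnd
  set a : ℝ := ((missSet G g).ncard : ℝ) with ha
  set b : ℝ := ((lightSet G g {w}).ncard : ℝ) with hbb
  have ha0 : 0 ≤ a := by positivity
  have hb0 : 0 ≤ b := by positivity
  have hsec := (hn₀ V (KU G g {w}) g w n hn (ItemLBG.isKU G g {w} hStr.flat.exc) hStr.tot
    (by linarith)).1
  rw [ItemLBG.nbn_KU G g w hw] at hsec
  have hsec' := (abs_le.1 hsec).2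
  have hEr : (2 : ℝ) * G.edgeSet.ncard + 2 * a + ∑ t, (siz g t : ℝ) ^ 2
      = (∑ t, (siz g t : ℝ)) ^ 2 + 2 * (∑ t, (nbn G g w t : ℝ)) + 2 * b := by
    have := congrArg (Nat.cast : ℕ → ℝ) hE
    push_cast at this
    linarith
  have hr' : (r : ℝ) ≠ 0 := by positivity
  have hdev := ItemLBG.dev_eq (by omega : 1 ≤ r) (siz g)
  have hq : qq r * (∑ t, (siz g t : ℝ)) ^ 2 =
      (∑ t, (siz g t : ℝ)) ^ 2 - (∑ t, (siz g t : ℝ)) ^ 2 / r := by
    unfold qq; field_simp
  have hE2 : (2 : ℝ) * G.edgeSet.ncard = (qq r * (∑ t, (siz g t : ℝ)) ^ 2 - dev (siz g))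
      + 2 * (∑ t, (nbn G g w t : ℝ)) - 2 * a + 2 * b := by
    rw [hq, hdev]; linarith
  have hKap : Kap r (siz g) (nbn G g w) = qq r * (qq r * (∑ t, (siz g t : ℝ)) ^ 2 - dev (siz g))
      + 2 * qq r * ∑ t, (nbn G g w t : ℝ) - Mu r (siz g) (nbn G g w) := rfl
  have hqE : 2 * qq r * (G.edgeSet.ncard : ℝ) =
      qq r * (qq r * (∑ t, (siz g t : ℝ)) ^ 2 - dev (siz g))
      + 2 * qq r * (∑ t, (nbn G g w t : ℝ)) - 2 * qq r * a + 2 * qq r * b := by
    have : 2 * qq r * (G.edgeSet.ncard : ℝ) = qq r * (2 * G.edgeSet.ncard) := by ring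
    rw [this, hE2]; ring
  have h10 : 10 * δ * (a + b) ≤ ε / 4 := by
    have h1 : a + b ≤ N := by linarith
    have h2 : δ * (a + b) ≤ δ * ((N : ℝ) + 1) := by
      apply mul_le_mul_of_nonneg_left _ hδ0.le; linarith
    nlinarith
  have h8 : 8 * δ * b ≤ 10 * δ * b := by nlinarith [mul_nonneg hδ0.le hb0]
  rw [hKap, hqE]
  linarith [hcomp, hsec', h10, h8]

end MP0c3a8f

end

section

open Finset

namespace MP0c3a8f

namespace ItemMAINx

theorem isKU {V : Type} {r : ℕ} (G : SimpleGraph V) (g : V → Option (Fin r)) (U : Finset V)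
    (hU : ∀ v ∈ U, g v = none) : IsKU (KU G g U) g U where
  core := fun u v hu hv => by
    change ((g u ≠ none ∧ g v ≠ none ∧ g u ≠ g v) ∨
      (G.Adj u v ∧ (u ∈ U ∨ v ∈ U) ∧ (g u ≠ none ∨ u ∈ U) ∧ (g v ≠ none ∨ v ∈ U))) ↔ g u ≠ g v
    constructor
    · rintro (h | ⟨-, h | h, -⟩)
      · exact h.2.2
      · exact absurd (hU u h) hu
      · exact absurd (hU v h) hv
    · intro h
      exact Or.inl ⟨hu, hv, h⟩
  exc := hU
  iso := fun u v hu huU h => by
    rcases h with h | h
    · exact h.1 hu
    · rcases h.2.2.1 with h1 | h1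
      · exact h1 hu
      · exact huU h1

theorem nbn_KU {V : Type} {r : ℕ} (G : SimpleGraph V) (g : V → Option (Fin r)) (U : Finset V)
    (hU : ∀ v ∈ U, g v = none) {v : V} (hv : v ∈ U) (t : Fin r) :
    nbn (KU G g U) g v t = nbn G g v t := by
  unfold nbn
  congr 1
  ext u
  simp only [Set.mem_ofPred_eq]
  constructor
  · rintro ⟨hu, h | h⟩
    · exact absurd (hU v hv) h.1
    · exact ⟨hu, h.1⟩
  · rintro ⟨hu, h⟩
    refine ⟨hu, Or.inr ⟨h, Or.inl hv, Or.inr hv, Or.inl ?_⟩⟩
    rw [hu]
    exact Option.some_ne_none t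

theorem sumsq {r : ℕ} (hr : 3 ≤ r) (σ : Fin r → ℕ) :
    ∑ t, (σ t : ℝ) ^ 2 = ((∑ t, σ t : ℕ) : ℝ) ^ 2 / r + dev σ := by
  have hr' : (r : ℝ) ≠ 0 := by
    have : 0 < r := by omega
    positivity
  unfold dev
  have h : ∀ t : Fin r, ((σ t : ℝ) - (∑ s, (σ s : ℝ)) / r) ^ 2 =
      (σ t : ℝ) ^ 2 - 2 * (∑ s, (σ s : ℝ)) / r * (σ t : ℝ) + ((∑ s, (σ s : ℝ)) / r) ^ 2 := by
    intro t; ring
  simp only [h]
  rw [Finset.sum_add_distrib, Finset.sum_sub_distrib, ← Finset.mul_sum, Finset.sum_const,
    Finset.card_univ, Fintype.card_fin, nsmul_eq_mul]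
  push_cast
  field_simp
  ring

end ItemMAINx

open ItemMAINx in
theorem prfMAIN : CNTU_statement → COMPU_statement → KW_statement → MAIN_statement := by
  intro hCNT hCOM hKW r ε hr hε
  have hr' : (3 : ℝ) ≤ r := by exact_mod_cast hr
  have hq : 0 < qq r := by
    unfold qq
    have : 1 / (r : ℝ) ≤ 1 / 3 := one_div_le_one_div_of_le (by norm_num) hr'
    linarith
  obtain ⟨δ₁, hδ₁, H⟩ := hKW r (qq r * ε) hr (mul_pos hq hε)
  refine ⟨min δ₁ (min (1 / 40) (ε / 10)), lt_min hδ₁ (lt_min (by norm_num) (by linarith)), ?_⟩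
  intro δ hδ hδ0 K
  obtain ⟨C, n₀, hC, HK⟩ := H K
  refine ⟨C, n₀, hC, ?_⟩
  intro V _ G z g U n hR hn hsum
  have hd1 : δ ≤ δ₁ := hδ0.trans (min_le_left _ _)
  have hd2 : δ ≤ 1 / 40 := hδ0.trans ((min_le_right _ _).trans (min_le_left _ _))
  have hd3 : δ ≤ ε / 10 := hδ0.trans ((min_le_right _ _).trans (min_le_right _ _))
  have hU := hR.flat.exc
  have hn0 : (0 : ℝ) ≤ n := Nat.cast_nonneg n
  -- the three inputs
  obtain ⟨e, -, hcnt⟩ := hCNT r V G g U hR.flat.indep hU
  have hcom := hCOM r δ V G z g U G.edgeSet.ncard hr hδ hd2 hR.flat rfl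
  have hkw := HK V (KU G g U) g U n (isKU G g U hU) hR.cardU hn hsum (fun t => by
    have h1 := hR.size t
    rw [hsum] at h1
    exact h1.trans (mul_le_mul_of_nonneg_right hd1 hn0))
  have hnb : ∑ v ∈ U, ((∑ t, nbn (KU G g U) g v t : ℕ) : ℝ) ^ 2 =
      ∑ v ∈ U, ((∑ t, nbn G g v t : ℕ) : ℝ) ^ 2 := by
    refine Finset.sum_congr rfl fun v hv => ?_
    rw [Finset.sum_congr rfl (fun t _ => nbn_KU G g U hU hv t)]
  rw [hnb] at hkw
  -- the edge count over the reals
  have hcnt' : 2 * (G.edgeSet.ncard : ℝ) + 2 * ((missSet G g).ncard : ℝ) + ∑ t, (siz g t : ℝ) ^ 2 =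
      (n : ℝ) ^ 2 + 2 * (∑ v ∈ U, ((∑ t, nbn G g v t : ℕ) : ℝ)) + 2 * e
        + 2 * ((lightSet G g U).ncard : ℝ) := by
    have h1 := congrArg (Nat.cast (R := ℝ)) hcnt
    rw [hsum] at h1
    push_cast at h1 ⊢
    exact h1
  rw [sumsq hr, hsum] at hcnt'
  have hsplit : ∑ v ∈ U, 2 * ((∑ t, nbn G g v t : ℕ) : ℝ)
      * (qq r - ((∑ t, nbn G g v t : ℕ) : ℝ) / n) =
      2 * qq r * (∑ v ∈ U, ((∑ t, nbn G g v t : ℕ) : ℝ)) -
        2 * (∑ v ∈ U, ((∑ t, nbn G g v t : ℕ) : ℝ) ^ 2) / n := by
    rw [Finset.mul_sum, Finset.mul_sum, Finset.sum_div, ← Finset.sum_sub_distrib]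
    refine Finset.sum_congr rfl fun v _ => ?_
    ring
  rw [hsplit]
  have hq2 : qq r * (1 - 2 / (r : ℝ) - ε) = 2 * qq r ^ 2 - qq r - qq r * ε := by
    unfold qq; ring
  have hq3 : (n : ℝ) ^ 2 / r = (1 - qq r) * (n : ℝ) ^ 2 := by unfold qq; ring
  rw [hq2]
  rw [hq3] at hcnt'
  have ha : (0 : ℝ) ≤ ((missSet G g).ncard : ℝ) := Nat.cast_nonneg _
  have hb : (0 : ℝ) ≤ ((lightSet G g U).ncard : ℝ) := Nat.cast_nonneg _
  have he : (0 : ℝ) ≤ (e : ℝ) := Nat.cast_nonneg _
  have h1 : (10 * δ) * ((missSet G g).ncard : ℝ) ≤ ε * ((missSet G g).ncard : ℝ) :=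
    mul_le_mul_of_nonneg_right (by linarith) ha
  have h2 : (8 * δ) * ((lightSet G g U).ncard : ℝ) ≤ ε * ((lightSet G g U).ncard : ℝ) :=
    mul_le_mul_of_nonneg_right (by linarith) hb
  have h3 : 0 ≤ qq r * (e : ℝ) := mul_nonneg hq.le he
  have h4 : qq r * (2 * (G.edgeSet.ncard : ℝ)) = qq r * ((n : ℝ) ^ 2 +
      2 * (∑ v ∈ U, ((∑ t, nbn G g v t : ℕ) : ℝ)) + 2 * e + 2 * ((lightSet G g U).ncard : ℝ)
        - 2 * ((missSet G g).ncard : ℝ) - ((1 - qq r) * (n : ℝ) ^ 2 + dev (siz g))) := by
    congr 1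
    linarith
  nlinarith

end MP0c3a8f

end

section

/-!
# MP_0c3a8f_co, phase B: graphs with complete core and one more vertex
-/

open Finset

namespace MP0c3a8f

theorem prfMEMZ : CNTU_statement → MEMZ_statement := by
  intro hC r V _ G f w hr hty hs
  have hb : ∀ t, ∃ b, f b = some t := by
    intro t
    have h1 := hs t
    have hne : {v | f v = some t}.Nonempty := by
      apply Set.nonempty_of_ncard_ne_zero
      unfold siz at h1
      omega
    exact hne
  choose b hb1 using hb
  have hnone : ∀ v, f v = none → v = w := fun v hv => (hty.out v).1 hv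
  have hcore : ∀ {x y : V} {s t : Fin r}, f x = some s → f y = some t → s ≠ t → G.Adj x y := by
    intro x y s t hx hy hst
    rw [hty.core x y (by rw [hx]; simp) (by rw [hy]; simp), hx, hy]
    simpa using hst
  have hindep : Indep G f := by
    intro x y hx hxy hadj
    have hy : f y ≠ none := by rw [← hxy]; exact hx
    exact ((hty.core x y hx hy).1 hadj) hxy
  have hnb : ∀ t, 1 ≤ nbn G f w t → ∃ y, f y = some t ∧ G.Adj w y := by
    intro t h1
    have hne : {v | f v = some t ∧ G.Adj w v}.Nonempty := by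
      apply Set.nonempty_of_ncard_ne_zero
      unfold nbn at h1
      omega
    exact hne
  refine ⟨⟨?_, ?_⟩, ?_, ?_⟩
  · rintro ⟨C⟩
    by_contra hcon
    push Not at hcon
    have hy : ∀ t, ∃ y, f y = some t ∧ G.Adj w y := fun t =>
      hnb t (Nat.one_le_iff_ne_zero.2 (hcon t))
    choose y hy1 hy2 using hy
    have hinj : Function.Injective (fun t => C (y t)) := by
      intro s t hst
      by_contra hne
      exact C.valid (hcore (hy1 s) (hy1 t) hne) hst
    obtain ⟨t, ht⟩ := Finite.surjective_of_injective hinj (C w)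
    exact C.valid (hy2 t) ht.symm
  · rintro ⟨t, ht⟩
    have hno : ∀ y, f y = some t → ¬ G.Adj w y := by
      intro y hy hadj
      have hfin : {v | f v = some t ∧ G.Adj w v}.Finite := Set.toFinite _
      have h1 : {v | f v = some t ∧ G.Adj w v} = ∅ := (Set.ncard_eq_zero hfin).1 ht
      have h2 : y ∈ {v | f v = some t ∧ G.Adj w v} := ⟨hy, hadj⟩
      rw [h1] at h2
      exact h2
    refine ⟨SimpleGraph.Coloring.mk (fun v => (f v).getD t) ?_⟩
    intro u v huv heq
    rcases hu : f u with _ | s
    · have hu' := hnone u hu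
      rcases hv : f v with _ | s'
      · have hv' := hnone v hv
        rw [hu', hv'] at huv
        exact G.loopless.irrefl w huv
      · rw [hu, hv] at heq
        simp only [Option.getD_none, Option.getD_some] at heq
        rw [← heq] at hv
        rw [hu'] at huv
        exact hno v hv huv
    · rcases hv : f v with _ | s'
      · have hv' := hnone v hv
        rw [hu, hv] at heq
        simp only [Option.getD_none, Option.getD_some] at heq
        rw [heq] at hu
        rw [hv'] at huv
        exact hno u hu huv.symm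
      · rw [hu, hv] at heq
        simp only [Option.getD_some] at heq
        exact hindep u v (by rw [hu]; simp) (by rw [hu, hv, heq]) huv
  · intro hpos v
    by_cases hv : f v = none
    · rw [hnone v hv]
      obtain ⟨t, ht⟩ : ∃ t, 1 ≤ nbn G f w t := by
        by_contra hcon
        push Not at hcon
        have h0 : ∑ t, nbn G f w t = 0 := Finset.sum_eq_zero fun t _ => by
          have := hcon t
          omega
        omega
      obtain ⟨y, -, hy⟩ := hnb t ht
      exact ⟨y, hy⟩
    · obtain ⟨t, ht⟩ := Option.ne_none_iff_exists'.1 hv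
      obtain ⟨s, hs'⟩ : ∃ s : Fin r, s ≠ t := by
        have : Nontrivial (Fin r) := Fin.nontrivial_iff_two_le.2 (by omega)
        exact exists_ne t
      exact ⟨b s, hcore ht (hb1 s) (Ne.symm hs')⟩
  · obtain ⟨e, he, h1⟩ := hC r V G f {w} hindep (by
      intro v hv
      rw [Finset.mem_singleton.1 hv]
      exact (hty.out w).2 rfl)
    rw [Finset.card_singleton] at he
    have hl : lightSet G f {w} = ∅ := by
      ext x
      simp only [lightSet, Set.mem_ofPred_eq, Set.mem_empty_iff_false, iff_false]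
      rintro ⟨-, v, -, hv, hv'⟩
      exact hv' (Finset.mem_singleton.2 (hnone v hv))
    have hm : missSet G f = ∅ := by
      ext x
      simp only [missSet, Set.mem_ofPred_eq, Set.mem_empty_iff_false, iff_false]
      rintro ⟨v, v', rfl, hv, hv', hne, hadj⟩
      exact hadj ((hty.core v v' hv hv').2 hne)
    rw [hl, hm, Set.ncard_empty, Finset.sum_singleton] at h1
    omega

end MP0c3a8f

end

section

/-!
# MP_0c3a8f_co, phase B: item ISO0
-/

open Finset

namespace MP0c3a8f

open ItemISO1 in
theorem prfISO0 : ISO0_statement := by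
  classical
  intro r V V' _ _ G G' f f' w w' h h' hs hn
  have hcard : ∀ c : Option (Fin r) × Bool,
      Nonempty ({a // key G f w a = c} ≃ {b // key G' f' w' b = c}) := by
    rintro ⟨o, b⟩
    rw [← Finite.card_eq]
    change Nat.card ↥{a | key G f w a = (o, b)} = Nat.card ↥{a | key G' f' w' a = (o, b)}
    rw [Nat.card_coe_set_eq, Nat.card_coe_set_eq]
    simp only [key_eq]
    have hA : ∀ t, {v | f v = some t ∧ ¬ G.Adj w v}.ncard
        = {v | f' v = some t ∧ ¬ G'.Adj w' v}.ncard := by
      intro t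
      have h1 := split G f w t
      have h2 := split G' f' w' t
      have h3 := hs t
      have h4 := hn t
      omega
    cases o with
    | none =>
      cases b with
      | true =>
        have e1 : {a | f a = none ∧ (G.Adj w a ↔ true = true)} = ∅ := by
          ext v
          simp only [Set.mem_ofPred_eq, iff_true, Set.mem_empty_iff_false, iff_false, not_and]
          intro hv hwv
          rw [(h.out v).1 hv] at hwv
          exact G.loopless.irrefl _ hwv
        have e2 : {a | f' a = none ∧ (G'.Adj w' a ↔ true = true)} = ∅ := by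
          ext v
          simp only [Set.mem_ofPred_eq, iff_true, Set.mem_empty_iff_false, iff_false, not_and]
          intro hv hwv
          rw [(h'.out v).1 hv] at hwv
          exact G'.loopless.irrefl _ hwv
        rw [e1, e2, Set.ncard_empty, Set.ncard_empty]
      | false =>
        have e1 : {a | f a = none ∧ (G.Adj w a ↔ false = true)} = {w} := by
          ext v
          simp only [Set.mem_ofPred_eq, Set.mem_singleton_iff]
          constructor
          · rintro ⟨hv, _⟩
            exact (h.out v).1 hv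
          · rintro rfl
            exact ⟨(h.out v).2 rfl, by simp⟩
        have e2 : {a | f' a = none ∧ (G'.Adj w' a ↔ false = true)} = {w'} := by
          ext v
          simp only [Set.mem_ofPred_eq, Set.mem_singleton_iff]
          constructor
          · rintro ⟨hv, _⟩
            exact (h'.out v).1 hv
          · rintro rfl
            exact ⟨(h'.out v).2 rfl, by simp⟩
        rw [e1, e2, Set.ncard_singleton, Set.ncard_singleton]
    | some t =>
      cases b with
      | true => simpa [nbn] using hn t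
      | false => simpa using hA t
  let e : V ≃ V' := Equiv.ofFiberEquiv (f := key G f w) (g := key G' f' w')
    (fun c => (hcard c).some)
  have he : ∀ v, key G' f' w' (e v) = key G f w v := fun v => Equiv.ofFiberEquiv_map _ v
  have he1 : ∀ v, f' (e v) = f v := fun v => congrArg Prod.fst (he v)
  have he2 : ∀ v, G'.Adj w' (e v) ↔ G.Adj w v := by
    intro v
    have := congrArg Prod.snd (he v)
    simpa [key] using this
  have hw : e w = w' := (h'.out _).1 (by rw [he1]; exact (h.out w).2 rfl)
  refine ⟨⟨e, ?_⟩⟩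
  intro a b
  by_cases ha : f a = none
  · have haw := (h.out a).1 ha
    rw [haw, hw]
    exact he2 b
  · by_cases hb : f b = none
    · have hbw := (h.out b).1 hb
      rw [hbw, hw, G'.adj_comm, G.adj_comm]
      exact he2 a
    · rw [h.core a b ha hb, h'.core (e a) (e b) (by rwa [he1]) (by rwa [he1]), he1, he1]

end MP0c3a8f

end
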