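import Pool.Agent.Work.MP_0c3a8f_co.PB.Stmts

/-! Bundle of small proof modules (one section per former module). -/

section

/-!
# MP_0c3a8f_co, phase B: graphs of type one
-/

open Finset

namespace MP0c3a8f

namespace ItemMEM1

lemma uniq {V : Type} {S : Set V} (h : S.ncard = 1) {a b : V} (ha : a ∈ S) (hb : b ∈ S) :
    a = b := by
  obtain ⟨c, hc⟩ := Set.ncard_eq_one.1 h
  rw [hc] at ha hb
  rw [Set.mem_singleton_iff.1 ha, Set.mem_singleton_iff.1 hb]

lemma core_ne {V : Type} {r : ℕ} {G : SimpleGraph V} {f : V → Option (Fin r)}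
    {w p p' : V} {i j : Fin r} (h : Ty1 G f w p p' i j) {x y : V} {s t : Fin r}
    (hx : f x = some s) (hy : f y = some t) (hst : s ≠ t) (hyp : y ≠ p) (hyp' : y ≠ p') :
    G.Adj x y := by
  rw [h.core x y (by rw [hx]; simp) (by rw [hy]; simp)]
  refine ⟨?_, ?_⟩
  · rw [hx, hy]
    simpa using hst
  · rw [Ne, Sym2.eq_iff]
    tauto

lemma exists_b {V : Type} [Finite V] {r : ℕ} {G : SimpleGraph V} {f : V → Option (Fin r)}
    {w p p' : V} {i j : Fin r} (h : Ty1 G f w p p' i j) (t : Fin r) (ht : 2 ≤ siz f t) :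
    ∃ b, f b = some t ∧ b ≠ p ∧ b ≠ p' := by
  have h1 : 1 < {v | f v = some t}.ncard := ht
  obtain ⟨a, ha, b, hb, hab⟩ := (Set.one_lt_ncard (Set.toFinite _)).1 h1
  by_cases h2 : a ≠ p ∧ a ≠ p'
  · exact ⟨a, ha, h2⟩
  by_cases h3 : b ≠ p ∧ b ≠ p'
  · exact ⟨b, hb, h3⟩
  exfalso
  have hpp : f p ≠ f p' := by
    rw [h.hp, h.hp']
    simpa using h.ij
  have ha' : f a = f b := Eq.trans ha (Eq.symm hb)
  by_cases e1 : a = p
  · by_cases e2 : b = p
    · exact hab (e1.trans e2.symm)
    · have e3 : b = p' := by tauto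
      rw [e1, e3] at ha'
      exact hpp ha'
  · have e2 : a = p' := by tauto
    by_cases e3 : b = p'
    · exact hab (e2.trans e3.symm)
    · have e4 : b = p := by tauto
      rw [e2, e4] at ha'
      exact hpp ha'.symm

end ItemMEM1

open ItemMEM1 in
theorem prfMEM1 : CNTU_statement → MEM1_statement := by
  intro hC r V _ G f w p p' i j hr h hs
  have hty := h.ty
  have hb : ∀ t, ∃ b, f b = some t ∧ b ≠ p ∧ b ≠ p' := fun t => exists_b hty t (hs t)
  choose b hb1 hb2 hb3 using hb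
  have hnone : ∀ v, f v = none → v = w := fun v hv => (hty.out v).1 hv
  have hindep : Indep G f := by
    intro x y hx hxy hadj
    have hy : f y ≠ none := by rw [← hxy]; exact hx
    exact ((hty.core x y hx hy).1 hadj).1 hxy
  refine ⟨?_, ?_, ?_, ?_⟩
  · rintro ⟨φ⟩
    have hinj : Function.Injective (fun a => f (φ a)) := by
      intro a c hac
      by_contra hne
      have hadj : G.Adj (φ a) (φ c) := φ.toHom.map_adj (by simpa using hne)
      simp only at hac
      by_cases h0 : f (φ a) = none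
      · have h1 := hnone _ h0
        rw [hac] at h0
        have h2 := hnone _ h0
        exact hne (φ.injective (h1.trans h2.symm))
      · exact hindep _ _ h0 hac hadj
    have hbij := (Fintype.bijective_iff_injective_and_card (fun a => f (φ a))).2
      ⟨hinj, by simp⟩
    obtain ⟨a0, ha0⟩ := hbij.2 none
    obtain ⟨ai, hai⟩ := hbij.2 (some i)
    obtain ⟨aj, haj⟩ := hbij.2 (some j)
    simp only at ha0 hai haj
    have hw := hnone _ ha0
    have h0i : a0 ≠ ai := by rintro rfl; rw [ha0] at hai; exact absurd hai (by simp)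
    have h0j : a0 ≠ aj := by rintro rfl; rw [ha0] at haj; exact absurd haj (by simp)
    have hij : ai ≠ aj := by
      rintro rfl
      rw [hai] at haj
      exact hty.ij (Option.some.inj haj)
    have adji : G.Adj w (φ ai) := by
      rw [← hw]
      exact φ.toHom.map_adj (by simpa using h0i)
    have adjj : G.Adj w (φ aj) := by
      rw [← hw]
      exact φ.toHom.map_adj (by simpa using h0j)
    have adjij : G.Adj (φ ai) (φ aj) := φ.toHom.map_adj (by simpa using hij)
    have e1 : φ ai = p := uniq h.ni ⟨hai, adji⟩ ⟨hty.hp, h.wp⟩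
    have e2 : φ aj = p' := uniq h.nj ⟨haj, adjj⟩ ⟨hty.hp', h.wp'⟩
    rw [e1, e2] at adjij
    exact ((hty.core p p' (by rw [hty.hp]; simp) (by rw [hty.hp']; simp)).1 adjij).2 rfl
  · rintro ⟨C⟩
    have hcinj : Function.Injective (fun t => C (b t)) := by
      intro s t hst
      by_contra hne
      exact C.valid (core_ne hty (hb1 s) (hb1 t) hne (hb2 t) (hb3 t)) hst
    have hsurj := Finite.surjective_of_injective hcinj
    obtain ⟨t, ht⟩ := hsurj (C w)
    have hpos := h.pos t
    have hne : {v | f v = some t ∧ G.Adj w v}.Nonempty := by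
      apply Set.nonempty_of_ncard_ne_zero
      unfold nbn at hpos
      omega
    obtain ⟨y, hy1, hy2⟩ := hne
    obtain ⟨s, hs'⟩ := hsurj (C y)
    simp only at ht hs'
    by_cases hst : s = t
    · rw [hst, ht] at hs'
      exact C.valid hy2 hs'
    · exact C.valid (core_ne hty hy1 (hb1 s) (Ne.symm hst) (hb2 s) (hb3 s)) hs'.symm
  · intro v
    by_cases hv : f v = none
    · rw [hnone v hv]
      exact ⟨p, h.wp⟩
    · obtain ⟨t, ht⟩ := Option.ne_none_iff_exists'.1 hv
      obtain ⟨s, hs'⟩ : ∃ s : Fin r, s ≠ t := by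
        have : Nontrivial (Fin r) := Fin.nontrivial_iff_two_le.2 (by omega)
        exact exists_ne t
      exact ⟨b s, core_ne hty ht (hb1 s) (Ne.symm hs') (hb2 s) (hb3 s)⟩
  · obtain ⟨e, he, h1⟩ := hC r V G f {w} hindep (by
      intro v hv
      rw [Finset.mem_singleton.1 hv]
      exact (hty.out w).2 rfl)
    rw [Finset.card_singleton] at he
    have hl : lightSet G f {w} = ∅ := by
      ext x
      simp only [lightSet, Set.mem_ofPred_eq, Set.mem_empty_iff_false, iff_false]
      rintro ⟨-, v, -, hv, hv'⟩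
      exact hv' (Finset.mem_singleton.2 (hnone v hv))
    have hm : missSet G f = {s(p, p')} := by
      ext x
      simp only [missSet, Set.mem_ofPred_eq, Set.mem_singleton_iff]
      constructor
      · rintro ⟨v, v', rfl, hv, hv', hne, hadj⟩
        by_contra hcon
        exact hadj ((hty.core v v' hv hv').2 ⟨hne, hcon⟩)
      · rintro rfl
        have h2 : f p ≠ none := by rw [hty.hp]; simp
        have h3 : f p' ≠ none := by rw [hty.hp']; simp
        refine ⟨p, p', rfl, h2, h3, ?_, ?_⟩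
        · rw [hty.hp, hty.hp']
          simpa using hty.ij
        · intro hadj
          exact ((hty.core p p' h2 h3).1 hadj).2 rfl
    rw [hl, hm, Set.ncard_empty, Set.ncard_singleton, Finset.sum_singleton] at h1
    omega

end MP0c3a8f

end

section

/-!
# MP_0c3a8f_co, phase B, item ORD1: the missing edge is between classes of maximal size
-/

open Finset

namespace MP0c3a8f

namespace ORD1x

/-- complete multipartite graph without the edge `pp'`, and a vertex `w` with neighbours `Q` -/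
def Gr {V : Type} {r : ℕ} (f : V → Option (Fin r)) (w p p' : V) (Q : V → Prop)
    (hw : f w = none) : SimpleGraph V where
  Adj u v := (f u ≠ none ∧ f v ≠ none ∧ f u ≠ f v ∧ s(u, v) ≠ s(p, p')) ∨
    (u = w ∧ f v ≠ none ∧ Q v) ∨ (v = w ∧ f u ≠ none ∧ Q u)
  symm := ⟨fun u v h => by
    rcases h with h | h | h
    · exact Or.inl ⟨h.2.1, h.1, h.2.2.1.symm, by rw [Sym2.eq_swap]; exact h.2.2.2⟩
    · exact Or.inr (Or.inr h)
    · exact Or.inr (Or.inl h)⟩
  loopless := ⟨fun u h => by
    rcases h with h | h | h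
    · exact h.2.2.1 rfl
    · exact h.2.1 (h.1 ▸ hw)
    · exact h.2.1 (h.1 ▸ hw)⟩

theorem gr_w {V : Type} {r : ℕ} {f : V → Option (Fin r)} {w p p' : V} {Q : V → Prop}
    {hw : f w = none} (y : V) : (Gr f w p p' Q hw).Adj w y ↔ f y ≠ none ∧ Q y := by
  constructor
  · rintro (h | h | h)
    · exact absurd hw h.1
    · exact h.2
    · exact absurd hw h.2.1
  · intro h
    exact Or.inr (Or.inl ⟨rfl, h⟩)

theorem gr_ty {V : Type} {r : ℕ} {f : V → Option (Fin r)} {w p p' : V} {Q : V → Prop}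
    {hw : f w = none} {i j : Fin r} (out : ∀ v, f v = none ↔ v = w) (ij : i ≠ j)
    (hp : f p = some i) (hp' : f p' = some j) : Ty1 (Gr f w p p' Q hw) f w p p' i j := by
  refine ⟨out, ij, hp, hp', fun u v hu hv => ?_⟩
  constructor
  · rintro (h | h | h)
    · exact h.2.2
    · exact absurd ((out u).2 h.1) hu
    · exact absurd ((out v).2 h.1) hv
  · intro h
    exact Or.inl ⟨hu, hv, h⟩

theorem nbn_eq {V : Type} {r : ℕ} {G H : SimpleGraph V} {f : V → Option (Fin r)} {w : V}
    (h : ∀ y, H.Adj w y ↔ G.Adj w y) (t : Fin r) : nbn H f w t = nbn G f w t := by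
  unfold nbn
  congr 1
  ext v
  simp only [Set.mem_ofPred_eq, h]

theorem qq_pos {r : ℕ} (hr : 3 ≤ r) : 0 < qq r := by
  unfold qq
  have h : (3 : ℝ) ≤ r := by exact_mod_cast hr
  have : 1 / (r : ℝ) < 1 := by
    rw [div_lt_one (by linarith)]
    linarith
  linarith

/-- the first step -/
theorem step1 (hMV : MV1_statement) (r : ℕ) (ε : ℝ) (hr : 3 ≤ r) (hε : 0 < ε) :
    ∃ n₀ : ℕ, ∀ (V : Type) [Fintype V] (G : SimpleGraph V) (f : V → Option (Fin r))
    (w p p' : V) (i j k : Fin r) (n : ℕ), n₀ ≤ n → Th1 G f w p p' i j → Bal n f →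
    ε * n ≤ ((∑ t, nbn G f w t : ℕ) : ℝ) →
    ((∑ t, nbn G f w t : ℕ) : ℝ) ≤ (1 - 2 / (r : ℝ)) * (qq r * n) + 1 → k ≠ i → k ≠ j →
    siz f k = siz f i + 1 → nbn G f w k + 2 ≤ siz f k →
    ∃ (G₁ : SimpleGraph V) (c : V), Ty1 G₁ f w p p' i j ∧ lam G ≤ lam G₁ ∧ f c = some k ∧
      G₁.Adj w c ∧ G₁.Adj w p ∧ G₁.Adj w p' ∧ nbn G₁ f w k = 1 ∧ nbn G₁ f w j = 1 ∧
      (∀ t, 1 ≤ nbn G₁ f w t) ∧ ∑ t, nbn G₁ f w t = ∑ t, nbn G f w t := by
  classical
  obtain ⟨n₁, hn₁⟩ := hMV r ε hr hε
  refine ⟨n₁, ?_⟩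
  intro V _ G f w p p' i j k n hn hTh hBal hlo hup hki hkj hsiz hnk
  have hty := hTh.ty
  have hpos : 0 < nbn G f w k := hTh.pos k
  have hfin : ∀ s : Set V, s.Finite := fun s => Set.toFinite s
  obtain ⟨c, hc⟩ := (Set.ncard_pos (hfin _)).1 hpos
  have hck : f c = some k := hc.1
  have hwc : G.Adj w c := hc.2
  by_cases h1 : nbn G f w k = 1
  · exact ⟨G, c, hty, le_refl _, hck, hwc, hTh.wp, hTh.wp', h1, hTh.nj, hTh.pos, rfl⟩
  have hw : f w = none := (hty.out w).2 rfl
  -- the set `M`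
  obtain ⟨A, hA⟩ : ∃ A : Finset V, ∀ v, v ∈ A ↔ f v = some k ∧ G.Adj w v :=
    ⟨Finset.univ.filter (fun v => f v = some k ∧ G.Adj w v), fun v => by simp⟩
  have hAcard : A.card = nbn G f w k := by
    unfold nbn
    rw [← Set.ncard_coe_finset]
    congr 1
    ext v
    rw [Finset.mem_coe, hA]
    rfl
  have hcA : c ∈ A := (hA c).2 hc
  have hMcard : (A.erase c).card = nbn G f w k - 1 := by
    rw [Finset.card_erase_of_mem hcA, hAcard]
  -- the class `i`
  obtain ⟨B, hB⟩ : ∃ B : Finset V, ∀ v, v ∈ B ↔ f v = some i :=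
    ⟨Finset.univ.filter (fun v => f v = some i), fun v => by simp⟩
  have hBcard : B.card = siz f i := by
    unfold siz
    rw [← Set.ncard_coe_finset]
    congr 1
    ext v
    rw [Finset.mem_coe, hB]
    rfl
  have hpB : p ∈ B := (hB p).2 hty.hp
  have hBp : (B.erase p).card = siz f i - 1 := by
    rw [Finset.card_erase_of_mem hpB, hBcard]
  obtain ⟨M', hM'B, hM'card⟩ := Finset.exists_subset_card_eq
    (show (A.erase c).card ≤ (B.erase p).card by omega)
  have hM' : ∀ y ∈ M', f y = some i ∧ y ≠ p := by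
    intro y hy
    have := hM'B hy
    rw [Finset.mem_erase, hB] at this
    exact ⟨this.2, this.1⟩
  -- the only neighbour in the class `i` is `p`
  have honly : ∀ y, f y = some i → G.Adj w y → y = p := by
    intro y hy hwy
    have h2 := hTh.ni
    unfold nbn at h2
    obtain ⟨a, ha⟩ := Set.ncard_eq_one.1 h2
    have hya : y ∈ ({a} : Set V) := by rw [← ha]; exact ⟨hy, hwy⟩
    have hpa : p ∈ ({a} : Set V) := by rw [← ha]; exact ⟨hty.hp, hTh.wp⟩
    rw [Set.mem_singleton_iff] at hya hpa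
    rw [hya, hpa]
  have hne : ∀ {x y : V} {s t : Fin r}, f x = some s → f y = some t → s ≠ t → x ≠ y := by
    intro x y s t hx hy hst hxy
    rw [hxy, hy] at hx
    exact hst (Option.some.inj hx).symm
  obtain ⟨Q, hQ⟩ : ∃ Q : V → Prop, ∀ y, Q y ↔ (G.Adj w y ∧ y ∉ A.erase c) ∨ y ∈ M' :=
    ⟨_, fun y => Iff.rfl⟩
  obtain ⟨G₁, hG₁⟩ : ∃ G₁ : SimpleGraph V, G₁ = Gr f w p p' Q hw := ⟨_, rfl⟩
  have hadj : ∀ y, G₁.Adj w y ↔ (G.Adj w y ∧ y ∉ A.erase c) ∨ y ∈ M' := by
    intro y
    rw [hG₁, gr_w, hQ]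
    constructor
    · exact fun h => h.2
    · intro h
      refine ⟨?_, h⟩
      rcases h with h | h
      · intro h3
        exact h.1.ne ((hty.out y).1 h3).symm
      · rw [(hM' y h).1]
        exact Option.some_ne_none _
  have hty₁ : Ty1 G₁ f w p p' i j := by
    rw [hG₁]
    exact gr_ty hty.out hty.ij hty.hp hty.hp'
  have hlam : lam G < lam G₁ := by
    refine hn₁ V G G₁ f w p p' i j k i (A.erase c) M' n hn hty hty₁ hBal hlo hup hki ?_
      hM'card.symm ?_ ?_ hadj (Or.inl hsiz)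
    · rw [← Finset.card_pos, hMcard]
      omega
    · intro y hy
      rw [Finset.mem_erase, hA] at hy
      exact ⟨hy.2.1, hy.2.2, hne hy.2.1 hty.hp hki, hne hy.2.1 hty.hp' hkj⟩
    · intro y hy
      obtain ⟨h3, h4⟩ := hM' y hy
      exact ⟨h3, fun h5 => h4 (honly y h3 h5), h4, hne h3 hty.hp' hty.ij⟩
  have hwc₁ : G₁.Adj w c := by
    rw [hadj]
    exact Or.inl ⟨hwc, Finset.notMem_erase c A⟩
  have hnotA : ∀ y t, f y = some t → t ≠ k → y ∉ A.erase c := by
    intro y t hy htk hyA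
    rw [Finset.mem_erase, hA, hy] at hyA
    exact htk (Option.some.inj hyA.2.1)
  have hwp₁ : G₁.Adj w p := by
    rw [hadj]
    exact Or.inl ⟨hTh.wp, hnotA p i hty.hp hki.symm⟩
  have hwp'₁ : G₁.Adj w p' := by
    rw [hadj]
    exact Or.inl ⟨hTh.wp', hnotA p' j hty.hp' hkj.symm⟩
  have hother : ∀ t, t ≠ i → t ≠ k → nbn G₁ f w t = nbn G f w t := by
    intro t hti htk
    unfold nbn
    congr 1
    ext y
    simp only [Set.mem_ofPred_eq, hadj]
    constructor
    · rintro ⟨hy, h | h⟩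
      · exact ⟨hy, h.1⟩
      · have := (hM' y h).1
        rw [hy] at this
        exact absurd (Option.some.inj this) hti
    · rintro ⟨hy, h⟩
      exact ⟨hy, Or.inl ⟨h, hnotA y t hy htk⟩⟩
  have hk₁ : nbn G₁ f w k = 1 := by
    unfold nbn
    rw [Set.ncard_eq_one]
    refine ⟨c, ?_⟩
    ext y
    simp only [Set.mem_ofPred_eq, Set.mem_singleton_iff, hadj]
    constructor
    · rintro ⟨hy, h | h⟩
      · by_contra hyc
        exact h.2 (Finset.mem_erase.2 ⟨hyc, (hA y).2 ⟨hy, h.1⟩⟩)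
      · have := (hM' y h).1
        rw [hy] at this
        exact absurd (Option.some.inj this) hki
    · rintro rfl
      exact ⟨hck, Or.inl ⟨hwc, Finset.notMem_erase _ A⟩⟩
  have hi₁ : nbn G₁ f w i = 1 + (nbn G f w k - 1) := by
    have h3 : {v | f v = some i ∧ G₁.Adj w v} = ((insert p M' : Finset V) : Set V) := by
      ext y
      rw [Finset.mem_coe, Finset.mem_insert]
      simp only [Set.mem_ofPred_eq, hadj]
      constructor
      · rintro ⟨hy, h | h⟩
        · exact Or.inl (honly y hy h.1)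
        · exact Or.inr h
      · rintro (h | h)
        · rw [h]
          exact ⟨hty.hp, Or.inl ⟨hTh.wp, hnotA p i hty.hp hki.symm⟩⟩
        · exact ⟨(hM' y h).1, Or.inr h⟩
    unfold nbn
    rw [h3, Set.ncard_coe_finset, Finset.card_insert_of_notMem, hM'card, hMcard]
    · unfold nbn
      rw [add_comm]
    · intro h
      exact (hM' p h).2 rfl
  refine ⟨G₁, c, hty₁, hlam.le, hck, hwc₁, hwp₁, hwp'₁, hk₁, ?_, ?_, ?_⟩
  · rw [hother j hty.ij.symm hkj.symm]
    exact hTh.nj
  · intro t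
    by_cases hti : t = i
    · rw [hti, hi₁]
      omega
    by_cases htk : t = k
    · rw [htk, hk₁]
    rw [hother t hti htk]
    exact hTh.pos t
  · have h4 : ∀ t, nbn G₁ f w t + (if t = k then nbn G f w k - 1 else 0)
        = nbn G f w t + (if t = i then nbn G f w k - 1 else 0) := by
      intro t
      by_cases hti : t = i
      · rw [hti, if_neg hki.symm, if_pos rfl, hi₁, hTh.ni, add_zero]
      by_cases htk : t = k
      · rw [htk, if_pos rfl, if_neg hki, hk₁]
        omega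
      rw [if_neg hti, if_neg htk, hother t hti htk]
    have h5 := Finset.sum_congr rfl (fun t (_ : t ∈ (Finset.univ : Finset (Fin r))) => h4 t)
    rw [Finset.sum_add_distrib, Finset.sum_add_distrib, Finset.sum_ite_eq', Finset.sum_ite_eq',
      if_pos (Finset.mem_univ _), if_pos (Finset.mem_univ _)] at h5
    exact Nat.add_right_cancel h5

end ORD1x

open ORD1x in
theorem prfORD1 : MV1_statement → SW1_statement → MEM1_statement → EVF1_statement →
    ORD1_statement := by
  intro hMV hSW hMEM hEVF r ε hr hε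
  have hq := qq_pos hr
  have hr0 : (0 : ℝ) < r := by
    have : 0 < r := by omega
    exact_mod_cast this
  obtain ⟨ε', hε'⟩ : ∃ ε' : ℝ, ε' = (1 / ((r : ℝ) + 1) + 1 / (r : ℝ) ^ 5) * qq r := ⟨_, rfl⟩
  have hε'0 : 0 < ε' := by
    rw [hε']
    positivity
  obtain ⟨n₁, hn₁⟩ := step1 hMV r ε' hr hε'0
  obtain ⟨n₂, hn₂⟩ := hSW r ε' hr hε'0
  obtain ⟨n₃, hn₃⟩ := hEVF r ε hr hε
  refine ⟨n₁ + n₂ + n₃ + 2 * r, ?_⟩
  intro n hn D hR V _ G f w p p' i j hMx hTh hBal hsum k hki hkj
  by_contra hlt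
  rw [not_le] at hlt
  have hsizk : siz f k = siz f i + 1 := by
    have h1 := hBal.1 k
    have h2 := hBal.1 i
    omega
  have hnr : 2 ≤ n / r := by
    rw [Nat.le_div_iff_mul_le (by omega)]
    omega
  have hsiz2 : ∀ t, 2 ≤ siz f t := fun t => hnr.trans (hBal.1 t).1
  have hnbk : nbn G f w k + 2 ≤ siz f k := by
    rcases (hn₃ n (by omega) D hR V G f w p p' i j hMx hTh hBal hsum).2.2 k hki hkj with h | h
    · exact h
    · obtain ⟨l, hl⟩ := h
      have h1 := hBal.1 l
      have h2 := hBal.1 i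
      omega
  have hcast : ((∑ t, nbn G f w t : ℕ) : ℝ) = (D : ℝ) + 1 := by
    rw [hsum]
    push_cast
    ring
  have hn0 : (0 : ℝ) ≤ n := Nat.cast_nonneg n
  have hlo : ε' * n ≤ ((∑ t, nbn G f w t : ℕ) : ℝ) := by
    rw [hcast, hε']
    have := hR.1
    nlinarith
  have hup : ((∑ t, nbn G f w t : ℕ) : ℝ) ≤ (1 - 2 / (r : ℝ)) * (qq r * n) + 1 := by
    rw [hcast]
    have := hR.2
    have h3 : 0 ≤ ε * (qq r * n) := by positivity
    nlinarith
  obtain ⟨G₁, c, hty₁, hlam₁, hck, hwc, hwp, hwp', hk1, hj1, hpos, hsum₁⟩ :=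
    hn₁ V G f w p p' i j k n (by omega) hTh hBal hlo hup hki hkj hsizk hnbk
  have hw : f w = none := (hty₁.out w).2 rfl
  obtain ⟨G₂, hG₂⟩ : ∃ G₂ : SimpleGraph V, G₂ = Gr f w c p' (fun y => G₁.Adj w y) hw :=
    ⟨_, rfl⟩
  have hadj : ∀ y, G₂.Adj w y ↔ G₁.Adj w y := by
    intro y
    rw [hG₂, gr_w]
    constructor
    · exact fun h => h.2
    · intro h
      exact ⟨fun h3 => h.ne ((hty₁.out y).1 h3).symm, h⟩
  have hty₂ : Ty1 G₂ f w c p' k j := by
    rw [hG₂]
    exact gr_ty hty₁.out hkj hck hty₁.hp'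
  have hlam₂ : lam G₁ < lam G₂ := by
    refine hn₂ V G₁ G₂ f w p p' c i j k n (by omega) hty₁ hty₂ hBal ?_ ?_ hki hadj hwp hwc hk1
      hsizk
    · rw [hsum₁]
      exact hlo
    · rw [hsum₁]
      exact hup
  have hTh₂ : Th1 G₂ f w c p' k j := by
    refine ⟨hty₂, (hadj _).2 hwc, (hadj _).2 hwp', ?_, ?_, fun t => ?_⟩
    · rw [nbn_eq hadj, hk1]
    · rw [nbn_eq hadj, hj1]
    · rw [nbn_eq hadj]
      exact hpos t
  obtain ⟨-, -, -, hcount⟩ := hMEM r V G f w p p' i j hr hTh hsiz2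
  obtain ⟨hfree, hcol, hiso, hcount₂⟩ := hMEM r V G₂ f w c p' k j hr hTh₂ hsiz2
  have hsum₂ : ∑ t, nbn G₂ f w t = ∑ t, nbn G f w t := by
    rw [← hsum₁]
    exact Finset.sum_congr rfl (fun t _ => nbn_eq hadj t)
  rw [hsum₂] at hcount₂
  have hedge : G₂.edgeSet.ncard = (SimpleGraph.turanGraph n r).edgeSet.ncard + D := by
    rw [← hMx.1.size]
    omega
  have hle := hMx.2 V G₂ ⟨hfree, hedge, hiso, hcol⟩
  linarith

end MP0c3a8f

end

section

set_option autoImplicit false

open Finset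

namespace MP0c3a8f

namespace ItemREL

variable {r : ℕ} {V : Type} (f : V → Option (Fin r)) (π : Equiv.Perm (Fin r))

theorem map_some_iff (v : V) (t : Fin r) : (f v).map π = some (π t) ↔ f v = some t := by
  cases h : f v with
  | none => simp
  | some a => simp

theorem map_none_iff (v : V) : (f v).map π = none ↔ f v = none := by
  cases h : f v with
  | none => simp
  | some a => simp

theorem map_eq_iff (u v : V) : (f u).map π = (f v).map π ↔ f u = f v :=
  (Option.map_injective π.injective).eq_iff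

theorem siz_map (t : Fin r) : siz (fun v => (f v).map π) (π t) = siz f t := by
  unfold siz
  congr 1
  ext v
  exact map_some_iff f π v t

theorem nbn_map (G : SimpleGraph V) (w : V) (t : Fin r) :
    nbn G (fun v => (f v).map π) w (π t) = nbn G f w t := by
  unfold nbn
  congr 1
  ext v
  exact and_congr_left fun _ => map_some_iff f π v t

theorem nbn_map' (G : SimpleGraph V) (w : V) (t : Fin r) :
    nbn G (fun v => (f v).map π) w t = nbn G f w (π.symm t) := by
  rw [← nbn_map f π G w (π.symm t), Equiv.apply_symm_apply]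

end ItemREL

open ItemREL

theorem prfREL : REL_statement := by
  intro r V _ G f π
  refine ⟨siz_map f π, nbn_map f π G, ?_, ?_⟩
  · intro w p p' i j h
    refine ⟨⟨⟨?_, ?_, ?_, ?_, ?_⟩, h.wp, h.wp', ?_, ?_, ?_⟩, ⟨⟨?_, ?_, ?_, ?_, ?_⟩, ?_, ?_, ?_, ?_, ?_⟩⟩
    · intro v
      show (f v).map π = none ↔ v = w
      rw [map_none_iff, h.ty.out]
    · exact fun e => h.ty.ij (π.injective e)
    · exact (map_some_iff f π p i).2 h.ty.hp
    · exact (map_some_iff f π p' j).2 h.ty.hp'
    · intro u v hu hv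
      have hu' : f u ≠ none := fun e => hu ((map_none_iff f π u).2 e)
      have hv' : f v ≠ none := fun e => hv ((map_none_iff f π v).2 e)
      rw [h.ty.core u v hu' hv']
      show _ ↔ (f u).map π ≠ (f v).map π ∧ _
      exact and_congr_left fun _ => not_congr (map_eq_iff f π u v).symm
    · rw [nbn_map]; exact h.ni
    · rw [nbn_map]; exact h.nj
    · intro t
      rw [nbn_map']
      exact h.pos _
    · exact h.ty.out
    · exact h.ty.ij.symm
    · exact h.ty.hp'
    · exact h.ty.hp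
    · intro u v hu hv
      rw [h.ty.core u v hu hv, Sym2.eq_swap (a := p) (b := p')]
    · exact h.wp'
    · exact h.wp
    · exact h.nj
    · exact h.ni
    · exact h.pos
  · intro w u v i h
    refine ⟨⟨?_, h.ty.ne, ?_, h.ty.uw, ?_, ?_⟩, ?_, ?_, ?_⟩
    · intro y
      show (f y).map π = none ↔ _
      rw [map_none_iff, h.ty.out]
    · intro x y hx hy
      have hx' : f x ≠ none := fun e => hx ((map_none_iff f π x).2 e)
      have hy' : f y ≠ none := fun e => hy ((map_none_iff f π y).2 e)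
      rw [h.ty.core x y hx' hy']
      exact not_congr (map_eq_iff f π x y).symm
    · intro t ht
      have ht' : π.symm t ≠ i := fun e => ht (by rw [← e, Equiv.apply_symm_apply])
      have := (map_some_iff f π (v (π.symm t)) (π.symm t)).2 (h.ty.hv _ ht')
      rw [Equiv.apply_symm_apply] at this
      exact this
    · intro y hy
      have hy' : f y ≠ none := fun e => hy ((map_none_iff f π y).2 e)
      rw [h.ty.un y hy']
      constructor
      · rintro ⟨t, ht, rfl⟩
        exact ⟨π t, fun e => ht (π.injective e), by rw [Equiv.symm_apply_apply]⟩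
      · rintro ⟨t, ht, rfl⟩
        exact ⟨π.symm t, fun e => ht (by rw [← e, Equiv.apply_symm_apply]), rfl⟩
    · rw [nbn_map]; exact h.ni
    · intro t ht
      rw [nbn_map']
      exact h.pos _ (fun e => ht (by rw [← e, Equiv.apply_symm_apply]))
    · obtain ⟨t, ht, hn⟩ := h.exc
      exact ⟨π t, fun e => ht (π.injective e), by rw [Equiv.symm_apply_apply]; exact hn⟩

end MP0c3a8f

end

section

/-!
# MP_0c3a8f_co, phase B: item SECEQ
-/

open Finset

namespace MP0c3a8f

namespace ItemSECEQ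

/-- the algebraic part -/
theorem alg {r : ℕ} (l y T : ℝ) (σ a X : Fin r → ℝ) (hl : 0 < l) (hσ : ∀ t, 0 ≤ σ t)
    (hT : T ≠ 0) (hTX : ∑ t, X t = T)
    (h1 : ∀ t, l * X t = σ t * (T - X t) + a t * y)
    (h2 : l ^ 2 * y = ∑ t, (a t * (T - X t) + a t * y)) :
    (1 - ∑ t, σ t / (l + σ t)) * (l ^ 2 - ∑ t, a t + ∑ t, a t ^ 2 / (l + σ t))
      = l * (∑ t, a t / (l + σ t)) ^ 2 := by
  have hp : ∀ t, 0 < l + σ t := fun t => by linarith [hσ t]
  have hX : ∀ t, X t = (σ t * T + a t * y) / (l + σ t) := fun t => by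
    rw [eq_div_iff (hp t).ne']
    linarith [h1 t]
  set P := ∑ t, σ t / (l + σ t) with hP
  set Q := ∑ t, a t / (l + σ t) with hQ
  set R := ∑ t, a t ^ 2 / (l + σ t) with hR
  set d := ∑ t, a t with hd
  have e1 : T = T * P + y * Q := by
    conv_lhs => rw [← hTX]
    rw [hP, hQ, Finset.mul_sum, Finset.mul_sum, ← Finset.sum_add_distrib]
    refine Finset.sum_congr rfl fun t _ => ?_
    rw [hX t]
    ring
  have e2 : l ^ 2 * y = d * y + l * T * Q - y * R := by
    rw [h2, hd, hQ, hR, Finset.mul_sum, Finset.mul_sum, Finset.sum_mul,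
      ← Finset.sum_add_distrib, ← Finset.sum_sub_distrib]
    refine Finset.sum_congr rfl fun t _ => ?_
    have : T - X t = (l * T - a t * y) / (l + σ t) := by
      rw [hX t, eq_div_iff (hp t).ne', sub_mul, div_mul_cancel₀ _ (hp t).ne']
      ring
    rw [this]
    ring
  have e3 : T * ((1 - P) * (l ^ 2 - d + R)) = T * (l * Q ^ 2) := by
    have f1 : T * (1 - P) = y * Q := by linarith
    have f2 : y * (l ^ 2 - d + R) = l * T * Q := by linarith
    calc T * ((1 - P) * (l ^ 2 - d + R)) = (T * (1 - P)) * (l ^ 2 - d + R) := by ring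
      _ = (y * (l ^ 2 - d + R)) * Q := by rw [f1]; ring
      _ = T * (l * Q ^ 2) := by rw [f2]; ring
  exact mul_left_cancel₀ hT e3

theorem siz_eq {V : Type} [Fintype V] {r : ℕ} (g : V → Option (Fin r)) (t : Fin r)
    [DecidableEq (Option (Fin r))] :
    (siz g t : ℝ) = ∑ v, if g v = some t then (1 : ℝ) else 0 := by
  classical
  unfold siz
  rw [Finset.sum_boole, Set.ncard_eq_toFinset_card']
  congr 2
  ext v
  simp

theorem nbn_eq {V : Type} [Fintype V] {r : ℕ} (G : SimpleGraph V) (g : V → Option (Fin r))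
    (w : V) (t : Fin r) [DecidableEq (Option (Fin r))] :
    (nbn G g w t : ℝ) = ∑ v, if g v = some t then adj G w v else 0 := by
  classical
  unfold nbn
  have h : (∑ v, if g v = some t then adj G w v else 0) =
      ∑ v, if g v = some t ∧ G.Adj w v then (1 : ℝ) else 0 := by
    refine Finset.sum_congr rfl fun v _ => ?_
    unfold adj
    by_cases h1 : g v = some t <;> by_cases h2 : G.Adj w v <;> simp [h1, h2]
  rw [h, Finset.sum_boole, Set.ncard_eq_toFinset_card']
  congr 2
  ext v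
  simp

theorem adj_comm' {V : Type} (G : SimpleGraph V) (u v : V) : adj G u v = adj G v u := by
  unfold adj
  by_cases h : G.Adj u v
  · rw [if_pos h, if_pos h.symm]
  · rw [if_neg h, if_neg fun h' => h h'.symm]

theorem sum_cls {V : Type} {r : ℕ} (g : V → Option (Fin r)) (v : V) (a : ℝ)
    [DecidableEq (Option (Fin r))] :
    (∑ s : Fin r, if g v = some s then a else 0) = if g v = none then 0 else a := by
  classical
  cases h : g v with
  | none => simp
  | some t => simp

/-- the equation at a core vertex -/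
theorem adj_core {V : Type} [Fintype V] {r : ℕ} {G : SimpleGraph V} {g : V → Option (Fin r)}
    {w : V} (h : IsKU G g {w}) (x : V → ℝ) (u : V) (t : Fin r) (hu : g u = some t) :
    ∑ v, adj G u v * x v = ∑ s, cw x g (some s) - cw x g (some t) + adj G u w * x w := by
  classical
  have hw : g w = none := h.exc w (by simp)
  have h0 : adj G u w * x w = ∑ v, if v = w then adj G u w * x w else 0 := by simp
  unfold cw
  rw [Finset.sum_comm, ← Finset.sum_sub_distrib, h0, ← Finset.sum_add_distrib]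
  refine Finset.sum_congr rfl fun v _ => ?_
  rw [sum_cls]
  by_cases hvw : v = w
  · subst hvw
    simp [hw]
  unfold adj
  cases hv : g v with
  | none =>
    have : ¬ G.Adj u v := fun hh => h.iso v u hv (by simp [hvw]) hh.symm
    simp [this, hvw]
  | some s =>
    have : G.Adj u v ↔ g u ≠ g v := h.core u v (by simp [hu]) (by simp [hv])
    rw [hu, hv] at this
    by_cases hst : s = t
    · subst hst
      have h1 : ¬ G.Adj u v := fun hh => (this.1 hh) rfl
      simp [h1, hvw]
    · have h1 : G.Adj u v := this.2 (fun e => hst (Option.some.inj e).symm)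
      simp [h1, hst, hvw]

end ItemSECEQ

open ItemSECEQ in
theorem prfSECEQ : P_statement → SECEQ_statement := by
  classical
  intro hP r V _ G g w h hl
  have : Nonempty V := ⟨w⟩
  obtain ⟨-, -, x, hx0, hx1, hx⟩ := hP V G
  set l := lam G with hldef
  have hw : g w = none := h.exc w (by simp)
  -- light vertices
  have hlight : ∀ v, g v = none → v ≠ w → x v = 0 := by
    intro v hv hvw
    have h1 : ∑ j, adj G v j * x j = 0 := by
      refine Finset.sum_eq_zero fun j _ => ?_
      have : ¬ G.Adj v j := h.iso v j hv (by simp [hvw])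
      simp [adj, this]
    rw [hx v] at h1
    rcases mul_eq_zero.1 h1 with h2 | h2
    · exact absurd h2 hl.ne'
    · exact h2
  set T : ℝ := ∑ s, cw x g (some s) with hT
  set y : ℝ := x w with hy
  have hcore : ∀ v t, g v = some t → l * x v = T - cw x g (some t) + adj G v w * y := by
    intro v t hv
    rw [← hx v]
    exact adj_core h x v t hv
  have hT' : T = ∑ v, if g v = none then 0 else x v := by
    rw [hT]
    unfold cw
    rw [Finset.sum_comm]
    refine Finset.sum_congr rfl fun v _ => ?_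
    rw [sum_cls]
  -- the equation at `w`
  have hwx : l * y = ∑ v, if g v = none then 0 else adj G w v * x v := by
    rw [hy, ← hx w]
    refine Finset.sum_congr rfl fun v _ => ?_
    split_ifs with h1
    · by_cases h2 : v = w
      · subst h2
        simp [adj]
      · rw [hlight v h1 h2, mul_zero]
    · rfl
  refine alg l y T (fun t => (siz g t : ℝ)) (fun t => (nbn G g w t : ℝ))
    (fun t => cw x g (some t)) hl (fun t => Nat.cast_nonneg _) ?_ rfl ?_ ?_
  · intro h0
    have h1 : ∀ v, g v ≠ none → x v = 0 := by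
      intro v hv
      rw [hT'] at h0
      have h2 := (Finset.sum_eq_zero_iff_of_nonneg (fun u _ => by
        split_ifs
        · exact le_refl _
        · exact hx0 u)).1 h0 v (Finset.mem_univ v)
      simpa [hv] using h2
    have h2 : l * y = 0 := by
      rw [hwx]
      refine Finset.sum_eq_zero fun v _ => ?_
      split_ifs with h3
      · rfl
      · rw [h1 v h3, mul_zero]
    have h3 : y = 0 := by
      rcases mul_eq_zero.1 h2 with h4 | h4
      · exact absurd h4 hl.ne'
      · exact h4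
    have h4 : ∀ v, x v = 0 := by
      intro v
      by_cases h5 : g v = none
      · by_cases h6 : v = w
        · rw [h6]; exact h3
        · exact hlight v h5 h6
      · exact h1 v h5
    have h5 : ∑ i, x i ^ 2 = 0 := Finset.sum_eq_zero fun i _ => by rw [h4 i]; norm_num
    rw [h5] at hx1
    exact zero_ne_one hx1
  · intro t
    show l * cw x g (some t) = (siz g t : ℝ) * (T - cw x g (some t)) + (nbn G g w t : ℝ) * y
    rw [siz_eq, nbn_eq, Finset.sum_mul, Finset.sum_mul, ← Finset.sum_add_distrib]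
    conv_lhs => unfold cw
    rw [Finset.mul_sum]
    refine Finset.sum_congr rfl fun v _ => ?_
    by_cases hv : g v = some t
    · simp only [hv, if_true]
      rw [hcore v t hv, adj_comm' G v w]
      ring
    · simp [hv]
  · show l ^ 2 * y = ∑ t, ((nbn G g w t : ℝ) * (T - cw x g (some t)) + (nbn G g w t : ℝ) * y)
    have e1 : l ^ 2 * y = ∑ v, ∑ t, if g v = some t then adj G w v * (l * x v) else 0 := by
      rw [sq, mul_assoc, hwx, Finset.mul_sum]
      refine Finset.sum_congr rfl fun v _ => ?_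
      rw [sum_cls]
      split_ifs
      · simp
      · ring
    rw [e1, Finset.sum_comm]
    refine Finset.sum_congr rfl fun t _ => ?_
    rw [nbn_eq, Finset.sum_mul, Finset.sum_mul, ← Finset.sum_add_distrib]
    refine Finset.sum_congr rfl fun v _ => ?_
    by_cases hv : g v = some t
    · simp only [hv, if_true]
      rw [hcore v t hv, adj_comm' G v w]
      have : adj G w v * adj G w v = adj G w v := by
        unfold adj
        split_ifs <;> simp
      linear_combination y * this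
    · simp [hv]

end MP0c3a8f

end

section

/-!
# MP_0c3a8f_co, phase B, item STRB: the structure theorem
-/

open Finset

namespace MP0c3a8f

namespace ItemSTRB

/-- the number of edges of the Turán graph -/
theorem turan (hD : DEV_statement) (r n : ℕ) (hr : 1 ≤ r) :
    ∑ t, tz r n t = n ∧ 0 ≤ dev (tz r n) ∧ dev (tz r n) ≤ r ∧
      2 * ((SimpleGraph.turanGraph n r).edgeSet.ncard : ℝ) = qq r * (n : ℝ) ^ 2 - dev (tz r n) := by
  classical
  have h0 : ∑ t, (Pi.single (⟨0, hr⟩ : Fin r) n : Fin r → ℕ) t = n := by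
    rw [Finset.sum_pi_single']
    simp
  obtain ⟨h1, -, h2, -, -, h3⟩ := hD r n _ hr h0
  obtain ⟨-, -, -, h4, -, -⟩ := hD r n (tz r n) hr h1
  refine ⟨h1, Finset.sum_nonneg fun t _ => sq_nonneg _, h2, ?_⟩
  unfold Sz at h3
  rw [h1] at h3
  have h5 : 2 * ((SimpleGraph.turanGraph n r).edgeSet.ncard : ℝ) + ∑ t, (tz r n t : ℝ) ^ 2 =
      (n : ℝ) ^ 2 := by
    have h6 : 2 * (SimpleGraph.turanGraph n r).edgeSet.ncard + ∑ t, tz r n t ^ 2 = n ^ 2 := by
      omega
    exact_mod_cast h6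
  rw [h4]
  unfold qq
  linear_combination h5

theorem lower (n m : ℝ) (q dT D : ℝ) (r : ℝ) (hq : 2 / 3 ≤ q) (hdT : dT ≤ r) (hD : 0 ≤ D)
    (hn : 1 ≤ n) (hn6 : 6 * r ≤ n) (hm : 2 * m = q * n ^ 2 - dT + 2 * D) :
    n ^ 2 / 4 ≤ m ∧ n / 2 ≤ Real.sqrt m := by
  have h1 : 6 * r ≤ n ^ 2 := hn6.trans (by nlinarith)
  have h2 : 2 / 3 * n ^ 2 ≤ q * n ^ 2 := mul_le_mul_of_nonneg_right hq (sq_nonneg n)
  have h3 : n ^ 2 / 4 ≤ m := by linarith
  refine ⟨h3, ?_⟩
  apply Real.le_sqrt_of_sq_le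
  have : (n / 2) ^ 2 = n ^ 2 / 4 := by ring
  rw [this]
  exact h3

theorem ksmall (D n q C₀ : ℝ) (hD : 0 ≤ D) (hDn : D ≤ n) (hn : 0 < n) (hq : q ≤ 1) : 2 * D * (q - D / n) + C₀ ≤ 2 * n + max C₀ 0 := by
  have h1 : q - D / n ≤ 1 := by
    have : 0 ≤ D / n := div_nonneg hD hn.le
    linarith
  have h2 : 2 * D * (q - D / n) ≤ 2 * D * 1 := mul_le_mul_of_nonneg_left h1 (by linarith)
  have h3 : C₀ ≤ max C₀ 0 := le_max_left _ _
  linarith

theorem big (m₀ : ℕ) (n m : ℝ) (h : 2 * (m₀ : ℝ) ≤ n) (hm : n ^ 2 / 4 ≤ m) : (m₀ : ℝ) ≤ m := by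
  have h1 : (m₀ : ℝ) ≤ (m₀ : ℝ) ^ 2 := by
    rcases Nat.eq_zero_or_pos m₀ with h | h
    · rw [h]; norm_num
    · have e3 : (1 : ℝ) ≤ m₀ := by exact_mod_cast h
      nlinarith
  have h2 : (2 * (m₀ : ℝ)) ^ 2 ≤ n ^ 2 := by gcongr
  linarith

theorem lowx (n m δ c : ℝ) (hn : 1 ≤ n) (hc : 0 ≤ c) (hδ : 0 ≤ δ) (h : 4 * (2 + c) ≤ δ * n)
    (hm : n ^ 2 / 4 ≤ m) : 2 * n + c ≤ δ * m := by
  have e3 : δ * (n ^ 2 / 4) ≤ δ * m := mul_le_mul_of_nonneg_left hm hδ
  have e4 : 4 * (2 + c) * n ≤ δ * n * n := mul_le_mul_of_nonneg_right h (by linarith)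
  have e5 : c * 1 ≤ c * n := mul_le_mul_of_nonneg_left hn hc
  linarith

theorem bdd (n r c : ℝ) (hn : 1 ≤ n) (hr : 0 ≤ r) (hc : 0 ≤ c) :
    2 * n + c + r ≤ (3 + 2 * r + c) * n := by
  have e2 : c * 1 ≤ c * n := mul_le_mul_of_nonneg_left hn hc
  have e3 : r * 1 ≤ r * n := mul_le_mul_of_nonneg_left hn hr
  linarith

theorem ksq (n s c : ℝ) (hn : 1 ≤ n) (hs : n / 2 ≤ s) (hc : 0 ≤ c) :
    2 * n + c ≤ (10 + 4 * c) * s := by
  have e1 : (10 + 4 * c) * (n / 2) ≤ (10 + 4 * c) * s :=
    mul_le_mul_of_nonneg_left hs (by linarith)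
  have e2 : c * 1 ≤ c * n := mul_le_mul_of_nonneg_left hn hc
  linarith

end ItemSTRB

theorem prfSTRB : P_statement → EDG_statement → ROUGH_statement → MAIN_statement →
    CNTU_statement → OPT_statement → FLAT_statement → DEV_statement → STRB_statement := by
  classical
  intro _ _ hRo hMa hCn hOp hFl hDe W _ F r ε C₀ hr hcrit hcol hε
  have hr1 : 1 ≤ r := by omega
  have hr0 : (0 : ℝ) < r := by exact_mod_cast hr1
  have hr3 : (3 : ℝ) ≤ r := by exact_mod_cast hr
  have hq1 : 2 / 3 ≤ qq r := by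
    unfold qq
    have : 1 / (r : ℝ) ≤ 1 / 3 := one_div_le_one_div_of_le (by norm_num) hr3
    linarith
  have hq0 : 0 < qq r := by linarith
  have hq2 : qq r ≤ 1 := by
    unfold qq
    have : 0 < 1 / (r : ℝ) := by positivity
    linarith
  have hC0 : 0 ≤ max C₀ 0 := le_max_right _ _
  obtain ⟨δ₀, hδ₀, hMa1⟩ := hMa r (ε / 4) hr (by positivity)
  have hδ1 : 0 < min δ₀ (1 / (40 * (r : ℝ))) := lt_min hδ₀ (by positivity)
  have hδ2 : min δ₀ (1 / (40 * (r : ℝ))) ≤ 1 / (40 * (r : ℝ)) := min_le_right _ _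
  have hδ3 : 1 / (40 * (r : ℝ)) ≤ 1 / 2 := by
    apply one_div_le_one_div_of_le (by norm_num)
    linarith
  obtain ⟨K, m₀, hRo1⟩ := hRo W F r (10 + 4 * max C₀ 0) hr hcrit hcol _ hδ1 hδ2
  obtain ⟨C5, n₁, hC5, hMa2⟩ := hMa1 _ hδ1 (min_le_left _ _) K
  obtain ⟨N, n₂, hOp1⟩ := hOp r ε (min δ₀ (1 / (40 * (r : ℝ))) / 2) C5 (max C₀ 0) K hr hε
    (by linarith) (by linarith) hC5 hC0
  obtain ⟨C', n₃, hFl1⟩ := hFl r N (3 + 2 * r + max C₀ 0) hr
  generalize min δ₀ (1 / (40 * (r : ℝ))) = δ1 at *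
  refine ⟨N, fun δ hδ => ?_⟩
  obtain ⟨n₄, hn₄⟩ := exists_nat_ge (C' / δ)
  obtain ⟨n₅, hn₅⟩ := exists_nat_ge (4 * (2 + max C₀ 0) / δ)
  refine ⟨max (2 * n₁) (max n₂ (max n₃ (max n₄ (max n₅ (max (2 * m₀) (6 * r)))))),
    fun n hn D hD1 hD2 V _ G hfree hm hk => ?_⟩
  simp only [max_le_iff] at hn
  obtain ⟨h1, h2, h3, h4, h5, h6, h7⟩ := hn
  have hn1 : (1 : ℝ) ≤ n := by exact_mod_cast (by omega : 1 ≤ n)
  have hn0 : (0 : ℝ) < n := by linarith
  obtain ⟨ht1, ht2, ht3, ht4⟩ := ItemSTRB.turan hDe r n hr1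
  have hD0 : (0 : ℝ) ≤ D := Nat.cast_nonneg D
  have hDn : (D : ℝ) ≤ n := by
    refine hD2.trans ?_
    have h2 : 1 - 2 / (r : ℝ) - ε ≤ 1 := by
      have : 0 < 2 / (r : ℝ) := by positivity
      linarith
    have h3 : qq r * n ≤ 1 * n := mul_le_mul_of_nonneg_right hq2 hn0.le
    have h4 : 0 ≤ qq r * n := by positivity
    have h5 := mul_le_mul_of_nonneg_right h2 h4
    linarith
  have hm2 : 2 * (G.edgeSet.ncard : ℝ) = qq r * (n : ℝ) ^ 2 - dev (tz r n) + 2 * D := by
    rw [hm, Nat.cast_add]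
    linarith
  obtain ⟨hml, hsq⟩ := ItemSTRB.lower n G.edgeSet.ncard (qq r) (dev (tz r n)) D r hq1 ht3 hD0
    hn1 (by exact_mod_cast h7) hm2
  have hk1 : 2 * qq r * G.edgeSet.ncard - lam G ^ 2 ≤ 2 * n + max C₀ 0 :=
    hk.trans (ItemSTRB.ksmall D n (qq r) C₀ hD0 hDn hn0 hq2)
  have hk2 : 2 * qq r * G.edgeSet.ncard - lam G ^ 2
      ≤ (10 + 4 * max C₀ 0) * Real.sqrt G.edgeSet.ncard :=
    hk1.trans (ItemSTRB.ksq _ _ _ hn1 hsq hC0)
  have hm0 : m₀ ≤ G.edgeSet.ncard := by
    have e1 : 2 * (m₀ : ℝ) ≤ n := by exact_mod_cast h6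
    have e2 : (m₀ : ℝ) ≤ G.edgeSet.ncard := ItemSTRB.big m₀ n _ e1 hml
    exact_mod_cast e2
  obtain ⟨z, g, U, hRg⟩ := hRo1 V G hfree hm0 hk2
  set n' : ℕ := ∑ t, siz g t with hn'
  have hn'1 : (n : ℝ) / 2 ≤ n' := by
    have e1 : (G.edgeSet.ncard : ℝ) ≤ (n' : ℝ) ^ 2 := hRg.nn
    have e2 : Real.sqrt G.edgeSet.ncard ≤ n' := by
      rw [Real.sqrt_le_left (Nat.cast_nonneg n')]
      exact e1
    linarith
  have hn'2 : n₁ ≤ n' := by
    have e1 : 2 * (n₁ : ℝ) ≤ n := by exact_mod_cast h1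
    have e2 : (n₁ : ℝ) ≤ n' := by linarith
    exact_mod_cast e2
  have hmain := hMa2 V G z g U n' hRg hn'2 hn'.symm
  obtain ⟨e, he1, he2⟩ := hCn r V G g U hRg.flat.indep hRg.flat.exc
  obtain ⟨-, -, -, hdv, -, -⟩ := hDe r n' (siz g) hr1 hn'.symm
  have heK : (e : ℝ) ≤ (K : ℝ) ^ 2 := by
    have e1 : U.card * (U.card - 1) ≤ K * K :=
      Nat.mul_le_mul hRg.cardU ((Nat.sub_le _ _).trans hRg.cardU)
    have e2 : e ≤ K ^ 2 := by
      rw [sq]
      omega
    exact_mod_cast e2
  have heq : qq r * (n' : ℝ) ^ 2 - dev (siz g)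
      + 2 * ∑ i ∈ U, ((∑ t, nbn G g i t : ℕ) : ℝ) + 2 * (e : ℝ)
      - 2 * ((missSet G g).ncard : ℝ) + 2 * ((lightSet G g U).ncard : ℝ)
      = qq r * (n : ℝ) ^ 2 - dev (tz r n) + 2 * D := by
    rw [← hm2]
    rw [← hn'] at he2
    have e1 : 2 * (G.edgeSet.ncard : ℝ) + 2 * ((missSet G g).ncard : ℝ)
        + ∑ t, (siz g t : ℝ) ^ 2 = (n' : ℝ) ^ 2
          + 2 * (∑ v ∈ U, ((∑ t, nbn G g v t : ℕ) : ℝ)) + 2 * e
          + 2 * ((lightSet G g U).ncard : ℝ) := by exact_mod_cast he2
    rw [hdv]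
    unfold qq
    linear_combination -e1
  obtain ⟨hU1, hnn, hbd⟩ := hOp1 n n' D (dev (siz g)) (dev (tz r n)) ((missSet G g).ncard)
    ((lightSet G g U).ncard) e V U (fun v => ((∑ t, nbn G g v t : ℕ) : ℝ)) h2 hD1 hD2
    (Finset.sum_nonneg fun t _ => sq_nonneg _) ht2 ht3 (Nat.cast_nonneg _) (Nat.cast_nonneg _)
    (Nat.cast_nonneg _) heK hRg.cardU hRg.degU heq (by
      have := le_max_left C₀ 0
      linarith)
  obtain ⟨w, rfl⟩ := Finset.card_eq_one.1 hU1
  have hsum : ∑ t, siz g t = n := by rw [← hn']; exact hnn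
  have hgw : g w = none := hRg.flat.exc w (Finset.mem_singleton_self w)
  have hup : lam G ^ 2 ≤ 2 * qq r * G.edgeSet.ncard := hRg.flat.up
  have hbb := ItemSTRB.bdd n r (max C₀ 0) hn1 hr0.le hC0
  obtain ⟨f1, f2, f3⟩ := hFl1 V G z g w n h3 hRg.flat.zd hRg.flat.indep hgw hsum hbd
    (fun v => (hRg.flat.bd v).trans (by linarith)) (by
      have e1 : 2 * (G.edgeSet.ncard : ℝ) - qq r * (n : ℝ) ^ 2 = 2 * D - dev (tz r n) := by
        linarith
      rw [e1, abs_le]
      constructor <;> linarith) (by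
      rw [abs_of_nonneg (by linarith)]
      linarith)
  have hC'n : C' / n ≤ δ := by
    have e1 : (n₄ : ℝ) ≤ n := by exact_mod_cast h4
    have e2 := hn₄.trans e1
    rw [div_le_iff₀ hδ] at e2
    rw [div_le_iff₀ hn0]
    linarith
  have hdw : (((∑ t, nbn G g w t : ℕ) : ℝ)) / (qq r * n) ≤ 1 := by
    have e1 := (hRg.degU w (Finset.mem_singleton_self w)).2
    rw [hsum] at e1
    rw [div_le_one (by positivity)]
    have e2 : (1 - δ1 / 2) * (qq r * n) ≤ 1 * (qq r * n) := by
      apply mul_le_mul_of_nonneg_right _ (by positivity)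
      linarith
    linarith
  refine ⟨z, g, w, ⟨⟨hRg.flat.zd, hRg.flat.indep, ?_, ?_, ?_, hRg.flat.exc, ?_, hup⟩, hsum, ?_⟩⟩
  · intro v hv
    exact (f1 v hv).trans hC'n
  · intro v hv hvw
    exact (f2 v hv (fun h => hvw (Finset.mem_singleton.2 h))).trans hC'n
  · intro v
    by_cases hv : g v = none
    · by_cases hvw : v = w
      · rw [hvw]
        have := (abs_le.1 f3).2
        linarith
      · have := f2 v hv hvw
        linarith
    · have := (abs_le.1 (f1 v hv)).2
      linarith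
  · have e1 : 4 * (2 + max C₀ 0) ≤ δ * n := by
      have e1 : (n₅ : ℝ) ≤ n := by exact_mod_cast h5
      have e2 := hn₅.trans e1
      rw [div_le_iff₀ hδ] at e2
      linarith
    have e2 := ItemSTRB.lowx n G.edgeSet.ncard δ _ hn1 hC0 hδ.le e1 hml
    have e3 : (2 * qq r - δ) * (G.edgeSet.ncard : ℝ) =
        2 * qq r * G.edgeSet.ncard - δ * G.edgeSet.ncard := by ring
    rw [e3]
    linarith
  · exact hbd

end MP0c3a8f

end

section

open Finset

namespace MP0c3a8f

namespace UB2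

theorem dev_eq {r : ℕ} (hr : 0 < r) (σ : Fin r → ℕ) :
    dev σ = ∑ t, (σ t : ℝ) ^ 2 - (∑ t, (σ t : ℝ)) ^ 2 / r := by
  have hr' : (r : ℝ) ≠ 0 := by exact_mod_cast hr.ne'
  unfold dev
  simp only [sub_sq, Finset.sum_add_distrib, Finset.sum_sub_distrib, Finset.sum_const,
    Finset.card_univ, Fintype.card_fin, nsmul_eq_mul]
  rw [← Finset.sum_mul, ← Finset.mul_sum]
  field_simp
  ring

/-- delete the edges at `u` -/
def del {V : Type} (G : SimpleGraph V) (u : V) : SimpleGraph V where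
  Adj x y := G.Adj x y ∧ x ≠ u ∧ y ≠ u
  symm := ⟨fun x y h => ⟨h.1.symm, h.2.2, h.2.1⟩⟩
  loopless := ⟨fun x h => G.loopless.irrefl x h.1⟩

theorem lam_del (hP : P_statement) {V : Type} [Fintype V] [Nonempty V] (G : SimpleGraph V)
    (u : V) : 0 ≤ lam (del G u) ∧ lam (del G u) ≤ lam G := by
  obtain ⟨h0, -, x, hx0, hx1, hx2⟩ := hP V (del G u)
  refine ⟨h0, ?_⟩
  obtain ⟨-, h1, -⟩ := hP V G
  have h2 : qf (del G u) x = lam (del G u) := by
    unfold qf
    calc ∑ i, ∑ j, adj (del G u) i j * (x i * x j) =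
        ∑ i, x i * ∑ j, adj (del G u) i j * x j := by
          refine Finset.sum_congr rfl fun i _ => ?_
          rw [Finset.mul_sum]
          exact Finset.sum_congr rfl fun j _ => by ring
      _ = ∑ i, lam (del G u) * x i ^ 2 := by
          refine Finset.sum_congr rfl fun i _ => ?_
          rw [hx2]
          ring
      _ = lam (del G u) := by rw [← Finset.mul_sum, hx1, mul_one]
  have h3 : qf (del G u) x ≤ qf G x := by
    unfold qf
    refine Finset.sum_le_sum fun i _ => Finset.sum_le_sum fun j _ => ?_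
    refine mul_le_mul_of_nonneg_right ?_ (mul_nonneg (hx0 i) (hx0 j))
    unfold adj
    by_cases h : (del G u).Adj i j
    · rw [if_pos h, if_pos h.1]
    · rw [if_neg h]
      split_ifs <;> norm_num
  have h4 := h1 x
  rw [hx1, mul_one] at h4
  linarith

theorem light_card {V : Type} [Fintype V] {r : ℕ} (G : SimpleGraph V) (f : V → Option (Fin r))
    (w u : V) (v : Fin r → V) (i : Fin r) (h : Ty2 G f w u v i) :
    (lightSet G f {w}).ncard ≤ r := by
  classical
  have hsub : lightSet G f {w} ⊆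
      Set.range (fun t : Fin r => if t = i then s(u, w) else s(u, v t)) := by
    rintro e ⟨he, x, hx, hfx, hxw⟩
    have hxu : x = u := by
      rcases (h.out x).1 hfx with h1 | h1
      · exact absurd (by simp [h1]) hxw
      · exact h1
    subst hxu
    obtain ⟨y, rfl⟩ := Sym2.mem_iff_exists.1 hx
    have hadj : G.Adj x y := he
    by_cases hfy : f y = none
    · rcases (h.out y).1 hfy with h1 | h1
      · exact ⟨i, by simp [h1]⟩
      · exact absurd h1 hadj.ne'
    · obtain ⟨t, ht, hyt⟩ := (h.un y hfy).1 hadj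
      exact ⟨t, by simp [ht, hyt]⟩
  calc (lightSet G f {w}).ncard ≤
      (Set.range (fun t : Fin r => if t = i then s(u, w) else s(u, v t))).ncard :=
        Set.ncard_le_ncard hsub (Set.finite_range _)
    _ ≤ r := by
        rw [← Set.image_univ]
        refine (Set.ncard_image_le Set.finite_univ).trans ?_
        rw [Set.ncard_univ, Nat.card_eq_fintype_card, Fintype.card_fin]

end UB2

open UB2 in
theorem prfUB2 : P_statement → SEC_statement → CNTU_statement → UB2_statement := by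
  intro hP hS hC r N ε hr hε
  obtain ⟨n₀, hn₀⟩ := hS r N ε hr hε
  refine ⟨n₀, ?_⟩
  intro V _ G f w u v i n hn hT hsum hdev
  have : Nonempty V := ⟨w⟩
  have hfw : f w = none := (hT.out w).2 (Or.inl rfl)
  have hfu : f u = none := (hT.out u).2 (Or.inr rfl)
  have hKU : IsKU (del G u) f {w} := by
    refine ⟨?_, ?_, ?_⟩
    · intro x y hx hy
      rw [← hT.core x y hx hy]
      exact ⟨fun h => h.1, fun h => ⟨h, fun e => hx (e ▸ hfu), fun e => hy (e ▸ hfu)⟩⟩
    · intro x hx
      rw [Finset.mem_singleton] at hx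
      rw [hx]
      exact hfw
    · intro x y hx hxw h
      rcases (hT.out x).1 hx with h1 | h1
      · exact hxw (by simp [h1])
      · exact h.2.1 h1
  have hnbn : nbn (del G u) f w = nbn G f w := by
    funext t
    unfold nbn
    congr 1
    ext y
    constructor
    · rintro ⟨h1, h2⟩
      exact ⟨h1, h2.1⟩
    · rintro ⟨h1, h2⟩
      refine ⟨h1, h2, hT.ne, fun e => ?_⟩
      rw [e, hfu] at h1
      exact absurd h1 (by simp)
  obtain ⟨hlam, -⟩ := hn₀ V (del G u) f w n hn hKU hsum hdev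
  rw [hnbn] at hlam
  obtain ⟨hl0, hl1⟩ := lam_del hP G u
  have hl2 : lam (del G u) ^ 2 ≤ lam G ^ 2 := by gcongr
  have hl3 := (abs_le.1 hlam).1
  -- edges
  have hind : Indep G f := by
    intro x y hx hxy hadj
    exact (hT.core x y hx (hxy ▸ hx)).1 hadj hxy
  obtain ⟨e, he, hE⟩ := hC r V G f {w} hind (fun x hx => by
    rw [Finset.mem_singleton] at hx
    rw [hx]
    exact hfw)
  have he0 : e = 0 := by
    simp at he
    omega
  have hmiss : missSet G f = ∅ := by
    ext e
    simp only [missSet, Set.mem_setOf_eq, Set.mem_empty_iff_false, iff_false]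
    rintro ⟨x, y, -, hx, hy, hne, hna⟩
    exact hna ((hT.core x y hx hy).2 hne)
  rw [he0, hmiss, Set.ncard_empty, Finset.sum_singleton] at hE
  have hL := light_card G f w u v i hT
  have hE' : (2 : ℝ) * G.edgeSet.ncard + ∑ t, (siz f t : ℝ) ^ 2 ≤
      (∑ t, (siz f t : ℝ)) ^ 2 + 2 * (∑ t, (nbn G f w t : ℝ)) + 2 * r := by
    have h1 : 2 * G.edgeSet.ncard + ∑ t, siz f t ^ 2 ≤
        (∑ t, siz f t) ^ 2 + 2 * (∑ t, nbn G f w t) + 2 * r := by omega
    exact_mod_cast h1
  have hr0 : (0 : ℝ) < r := by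
    have : 0 < r := by omega
    exact_mod_cast this
  have hq : 0 ≤ qq r := by
    unfold qq
    have : 1 / (r : ℝ) ≤ 1 := by
      rw [div_le_one hr0]
      have : 1 ≤ r := by omega
      exact_mod_cast this
    linarith
  have hdv := dev_eq (by omega : 0 < r) (siz f)
  have hn2 : (∑ t, (siz f t : ℝ)) ^ 2 - ∑ t, (siz f t : ℝ) ^ 2 =
      qq r * (∑ t, (siz f t : ℝ)) ^ 2 - dev (siz f) := by
    rw [hdv]
    unfold qq
    ring
  have h5 : 2 * (G.edgeSet.ncard : ℝ) ≤ (qq r * (∑ t, (siz f t : ℝ)) ^ 2 - dev (siz f)) +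
      2 * (∑ t, (nbn G f w t : ℝ)) + 2 * r := by linarith
  have h6 := mul_le_mul_of_nonneg_left h5 hq
  unfold Kap
  nlinarith
end MP0c3a8f

end

section

/-!
# MP_0c3a8f_co, phase B: common part of the items MV1 and MV2
-/

open Finset

namespace MP0c3a8f.MV

lemma adj_symm {V : Type} (G : SimpleGraph V) (a b : V) : adj G a b = adj G b a := by
  unfold adj
  by_cases h : G.Adj a b
  · rw [if_pos h, if_pos h.symm]
  · rw [if_neg h, if_neg (fun h' => h h'.symm)]

open Classical in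
/-- The comparison of the two spectral radii. -/
lemma core {V : Type} [Fintype V] {G G' : SimpleGraph V} {x x' : V → ℝ} {l l' : ℝ} {w : V}
    {M M' : Finset V} (hM : M.card = M'.card) (hne : M.Nonempty) (hx : ∀ v, 0 ≤ x v)
    (hx' : ∀ v, 0 ≤ x' v) (he : ∀ v, ∑ u, adj G v u * x u = l * x v)
    (he' : ∀ v, ∑ u, adj G' v u * x' u = l' * x' v)
    (hadj : ∀ a b, adj G' a b = adj G a b + (if a = w ∧ b ∈ M' then 1 else 0) +
      (if b = w ∧ a ∈ M' then 1 else 0) - (if a = w ∧ b ∈ M then 1 else 0) -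
      (if b = w ∧ a ∈ M then 1 else 0))
    (hl : 0 < l) (hl' : 0 < l') {T T' Xk Xl Xk' Xl' : ℝ}
    (h1 : ∀ v ∈ M, l * x v = T - Xk + x w) (h2 : ∀ v ∈ M, l' * x' v = T' - Xk')
    (h3 : ∀ v ∈ M', l * x v = T - Xl) (h4 : ∀ v ∈ M', l' * x' v = T' - Xl' + x' w)
    (hw : 0 < x w) (hw' : 0 < x' w) (hd : 0 < Xk - Xl) (hd' : 0 ≤ Xk' - Xl') : l < l' := by
  by_contra hcon
  push Not at hcon
  have hS : 0 ≤ ∑ v, x v * x' v := Finset.sum_nonneg fun v _ => mul_nonneg (hx v) (hx' v)
  -- the identity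
  have e1 : ∑ a, ∑ b, adj G' a b * (x a * x' b) = l' * ∑ v, x v * x' v := by
    rw [Finset.mul_sum]
    apply Finset.sum_congr rfl
    intro a _
    rw [show l' * (x a * x' a) = x a * (l' * x' a) by ring, ← he' a, Finset.mul_sum]
    exact Finset.sum_congr rfl fun b _ => by ring
  have e2 : ∑ a, ∑ b, adj G a b * (x a * x' b) = l * ∑ v, x v * x' v := by
    rw [Finset.sum_comm, Finset.mul_sum]
    apply Finset.sum_congr rfl
    intro b _
    rw [show l * (x b * x' b) = x' b * (l * x b) by ring, ← he b, Finset.mul_sum]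
    exact Finset.sum_congr rfl fun a _ => by rw [adj_symm G b a]; ring
  have e3 : ∀ N : Finset V, ∑ a, ∑ b, (if a = w ∧ b ∈ N then (1 : ℝ) else 0) * (x a * x' b) =
      x w * ∑ b ∈ N, x' b := by
    intro N
    rw [Finset.sum_eq_single w]
    · rw [Finset.mul_sum, ← Finset.sum_filter_add_sum_filter_not Finset.univ (fun b => b ∈ N)]
      rw [Finset.filter_mem_eq_inter, Finset.univ_inter]
      have : ∑ b ∈ Finset.univ.filter (fun b => b ∉ N),
          (if w = w ∧ b ∈ N then (1 : ℝ) else 0) * (x w * x' b) = 0 := by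
        apply Finset.sum_eq_zero
        intro b hb
        have := (Finset.mem_filter.1 hb).2
        rw [if_neg (fun h => this h.2), zero_mul]
      rw [this, add_zero]
      apply Finset.sum_congr rfl
      intro b hb
      rw [if_pos ⟨rfl, hb⟩, one_mul]
    · intro a _ ha
      apply Finset.sum_eq_zero
      intro b _
      rw [if_neg (fun h => ha h.1), zero_mul]
    · intro h
      exact absurd (Finset.mem_univ _) h
  have e4 : ∀ N : Finset V, ∑ a, ∑ b, (if b = w ∧ a ∈ N then (1 : ℝ) else 0) * (x a * x' b) =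
      x' w * ∑ a ∈ N, x a := by
    intro N
    rw [Finset.sum_comm, Finset.sum_eq_single w]
    · rw [Finset.mul_sum, ← Finset.sum_filter_add_sum_filter_not Finset.univ (fun b => b ∈ N)]
      rw [Finset.filter_mem_eq_inter, Finset.univ_inter]
      have : ∑ a ∈ Finset.univ.filter (fun b => b ∉ N),
          (if w = w ∧ a ∈ N then (1 : ℝ) else 0) * (x a * x' w) = 0 := by
        apply Finset.sum_eq_zero
        intro b hb
        have := (Finset.mem_filter.1 hb).2
        rw [if_neg (fun h => this h.2), zero_mul]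
      rw [this, add_zero]
      apply Finset.sum_congr rfl
      intro b hb
      rw [if_pos ⟨rfl, hb⟩]
      ring
    · intro a _ ha
      apply Finset.sum_eq_zero
      intro b _
      rw [if_neg (fun h => ha h.1), zero_mul]
    · intro h
      exact absurd (Finset.mem_univ _) h
  have e5 : (l' - l) * ∑ v, x v * x' v = x w * ∑ b ∈ M', x' b + x' w * ∑ a ∈ M', x a -
      x w * ∑ b ∈ M, x' b - x' w * ∑ a ∈ M, x a := by
    rw [sub_mul, ← e1, ← e2, ← e3 M', ← e4 M', ← e3 M, ← e4 M, ← Finset.sum_sub_distrib,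
      ← Finset.sum_add_distrib, ← Finset.sum_sub_distrib, ← Finset.sum_sub_distrib]
    apply Finset.sum_congr rfl
    intro a _
    rw [← Finset.sum_sub_distrib, ← Finset.sum_add_distrib, ← Finset.sum_sub_distrib,
      ← Finset.sum_sub_distrib]
    apply Finset.sum_congr rfl
    intro b _
    rw [hadj a b]
    ring
  -- the values
  have s1 : ∑ a ∈ M, x a = M.card * ((T - Xk + x w) / l) := by
    rw [Finset.sum_congr rfl (g := fun _ => (T - Xk + x w) / l)
      (fun v hv => by rw [← h1 v hv]; field_simp), Finset.sum_const, nsmul_eq_mul]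
  have s2 : ∑ a ∈ M, x' a = M.card * ((T' - Xk') / l') := by
    rw [Finset.sum_congr rfl (g := fun _ => (T' - Xk') / l')
      (fun v hv => by rw [← h2 v hv]; field_simp), Finset.sum_const, nsmul_eq_mul]
  have s3 : ∑ a ∈ M', x a = M.card * ((T - Xl) / l) := by
    rw [Finset.sum_congr rfl (g := fun _ => (T - Xl) / l)
      (fun v hv => by rw [← h3 v hv]; field_simp), Finset.sum_const, nsmul_eq_mul, hM]
  have s4 : ∑ a ∈ M', x' a = M.card * ((T' - Xl' + x' w) / l') := by
    rw [Finset.sum_congr rfl (g := fun _ => (T' - Xl' + x' w) / l')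
      (fun v hv => by rw [← h4 v hv]; field_simp), Finset.sum_const, nsmul_eq_mul, hM]
  rw [s1, s2, s3, s4] at e5
  have hc : (0 : ℝ) < M.card := by exact_mod_cast hne.card_pos
  have e6 : x w * (M.card * ((T' - Xl' + x' w) / l')) + x' w * (M.card * ((T - Xl) / l)) -
      x w * (M.card * ((T' - Xk') / l')) - x' w * (M.card * ((T - Xk + x w) / l)) =
      M.card * (x w * ((Xk' - Xl') / l') + x' w * ((Xk - Xl) / l) +
        x w * x' w * (1 / l' - 1 / l)) := by
    field_simp
    ring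
  rw [e6] at e5
  have t1 : (l' - l) * ∑ v, x v * x' v ≤ 0 := mul_nonpos_of_nonpos_of_nonneg (by linarith) hS
  have t2 : 0 ≤ 1 / l' - 1 / l := by
    have := one_div_le_one_div_of_le hl' hcon
    linarith
  have t3 : 0 ≤ x w * ((Xk' - Xl') / l') := mul_nonneg hw.le (div_nonneg hd' hl'.le)
  have t4 : 0 < x' w * ((Xk - Xl) / l) := mul_pos hw' (div_pos hd hl)
  have t5 : 0 ≤ x w * x' w * (1 / l' - 1 / l) := mul_nonneg (mul_nonneg hw.le hw'.le) t2
  have t6 : 0 < (M.card : ℝ) * (x w * ((Xk' - Xl') / l') + x' w * ((Xk - Xl) / l) +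
        x w * x' w * (1 / l' - 1 / l)) := mul_pos hc (by linarith)
  linarith

/-- The numbers of neighbours of `w` after the move. -/
lemma nbn_move {V : Type} [Fintype V] {r : ℕ} {G G' : SimpleGraph V} {f : V → Option (Fin r)}
    {w : V} {k l : Fin r} {M M' : Finset V} (hkl : k ≠ l)
    (hM : ∀ y ∈ M, f y = some k ∧ G.Adj w y) (hM' : ∀ y ∈ M', f y = some l ∧ ¬ G.Adj w y)
    (h : ∀ y, f y ≠ none → (G'.Adj w y ↔ (G.Adj w y ∧ y ∉ M) ∨ y ∈ M')) :
    nbn G' f w k + M.card = nbn G f w k ∧ nbn G' f w l = nbn G f w l + M'.card ∧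
      ∀ t, t ≠ k → t ≠ l → nbn G' f w t = nbn G f w t := by
  classical
  refine ⟨?_, ?_, ?_⟩
  · unfold nbn
    have e : {v | f v = some k ∧ G'.Adj w v} = {v | f v = some k ∧ G.Adj w v} \ (M : Set V) := by
      ext y
      simp only [Set.mem_ofPred_eq, Set.mem_diff, Finset.mem_coe]
      constructor
      · rintro ⟨h1, h2⟩
        rcases (h y (by rw [h1]; simp)).1 h2 with h3 | h3
        · exact ⟨⟨h1, h3.1⟩, h3.2⟩
        · have := (hM' y h3).1
          rw [h1] at this
          exact absurd (Option.some.inj this) hkl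
      · rintro ⟨⟨h1, h2⟩, h3⟩
        exact ⟨h1, (h y (by rw [h1]; simp)).2 (Or.inl ⟨h2, h3⟩)⟩
    rw [e, ← Set.ncard_coe_finset M]
    exact Set.ncard_sdiff_add_ncard_of_subset (fun y hy => hM y hy) (Set.toFinite _)
  · unfold nbn
    have e : {v | f v = some l ∧ G'.Adj w v} = {v | f v = some l ∧ G.Adj w v} ∪ (M' : Set V) := by
      ext y
      simp only [Set.mem_ofPred_eq, Set.mem_union, Finset.mem_coe]
      constructor
      · rintro ⟨h1, h2⟩
        rcases (h y (by rw [h1]; simp)).1 h2 with h3 | h3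
        · exact Or.inl ⟨h1, h3.1⟩
        · exact Or.inr h3
      · rintro (⟨h1, h2⟩ | h3)
        · refine ⟨h1, (h y (by rw [h1]; simp)).2 (Or.inl ⟨h2, fun h4 => ?_⟩)⟩
          have := (hM y h4).1
          rw [h1] at this
          exact absurd (Option.some.inj this).symm hkl
        · have h1 := (hM' y h3).1
          exact ⟨h1, (h y (by rw [h1]; simp)).2 (Or.inr h3)⟩
    rw [e, ← Set.ncard_coe_finset M']
    refine Set.ncard_union_eq ?_ (Set.toFinite _) (Set.toFinite _)
    rw [Set.disjoint_left]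
    intro y hy hy'
    exact (hM' y hy').2 hy.2
  · intro t htk htl
    unfold nbn
    congr 1
    ext y
    simp only [Set.mem_ofPred_eq]
    constructor
    · rintro ⟨h1, h2⟩
      rcases (h y (by rw [h1]; simp)).1 h2 with h3 | h3
      · exact ⟨h1, h3.1⟩
      · have := (hM' y h3).1
        rw [h1] at this
        exact absurd (Option.some.inj this) htl
    · rintro ⟨h1, h2⟩
      refine ⟨h1, (h y (by rw [h1]; simp)).2 (Or.inl ⟨h2, fun h4 => ?_⟩)⟩
      have := (hM y h4).1
      rw [h1] at this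
      exact absurd (Option.some.inj this) htk

lemma sum_nbn {V : Type} [Fintype V] {r : ℕ} {G G' : SimpleGraph V} {f : V → Option (Fin r)}
    {w : V} {k l : Fin r} {M M' : Finset V} (hkl : k ≠ l) (hMM : M.card = M'.card)
    (h1 : nbn G' f w k + M.card = nbn G f w k) (h2 : nbn G' f w l = nbn G f w l + M'.card)
    (h3 : ∀ t, t ≠ k → t ≠ l → nbn G' f w t = nbn G f w t) :
    ∑ t, nbn G' f w t = ∑ t, nbn G f w t := by
  have e : ∀ t, nbn G' f w t + (if t = k then M.card else 0) =
      nbn G f w t + (if t = l then M.card else 0) := by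
    intro t
    by_cases hk : t = k
    · subst hk
      rw [if_pos rfl, if_neg hkl, h1, add_zero]
    · by_cases hl : t = l
      · subst hl
        rw [if_neg hk, if_pos rfl, h2, hMM, add_zero]
      · rw [if_neg hk, if_neg hl, h3 t hk hl]
  have e2 := Finset.sum_congr (rfl : (Finset.univ : Finset (Fin r)) = Finset.univ)
    (fun t _ => e t)
  rw [Finset.sum_add_distrib, Finset.sum_add_distrib, Finset.sum_ite_eq', Finset.sum_ite_eq'] at e2
  simpa using e2

end MP0c3a8f.MV

end
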