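import Pool.Agent.Work.MP_0c3a8f_co.PB.Stmts
import Pool.Agent.Work.MP_0c3a8f_co.Bd.B07
import Pool.Agent.Work.MP_0c3a8f_co.PB.Stmts3

/-! Bundle of small proof modules (one section per former module). -/

section

/-!
# MP_0c3a8f_co, phase B, item STRL: the partition of a graph with linear defect
-/

set_option autoImplicit false

open Finset

namespace MP0c3a8f

namespace STRLx

variable {V : Type} [Fintype V] {r : ℕ}

theorem cw_smul (a : ℝ) (y : V → ℝ) (f : V → Option (Fin r)) (o : Option (Fin r)) :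
    cw (fun i => a * y i) f o = a * cw y f o := by
  unfold cw
  rw [Finset.mul_sum]
  refine Finset.sum_congr rfl fun i _ => ?_
  split_ifs
  · rfl
  · rw [mul_zero]

theorem cw_nonneg (y : V → ℝ) (hy : ∀ i, 0 ≤ y i) (f : V → Option (Fin r))
    (o : Option (Fin r)) : 0 ≤ cw y f o := by
  unfold cw
  refine Finset.sum_nonneg fun i _ => ?_
  split_ifs
  · exact hy i
  · exact le_rfl

theorem nb_smul (G : SimpleGraph V) (a : ℝ) (y : V → ℝ) (w : V) :
    nb G (fun i => a * y i) w = a * nb G y w := by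
  unfold nb
  rw [Finset.mul_sum]
  refine Finset.sum_congr rfl fun i _ => ?_
  ring

theorem miss_smul (G : SimpleGraph V) (a : ℝ) (y : V → ℝ) (f : V → Option (Fin r)) :
    miss G (fun i => a * y i) f = a ^ 2 * miss G y f := by
  unfold miss
  rw [Finset.mul_sum]
  refine Finset.sum_congr rfl fun i _ => ?_
  rw [Finset.mul_sum]
  refine Finset.sum_congr rfl fun j _ => ?_
  split_ifs
  · ring
  · rw [mul_zero]

theorem miss_nonneg (G : SimpleGraph V) (y : V → ℝ) (hy : ∀ i, 0 ≤ y i)
    (f : V → Option (Fin r)) : 0 ≤ miss G y f := by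
  unfold miss
  refine Finset.sum_nonneg fun i _ => Finset.sum_nonneg fun j _ => ?_
  split_ifs
  · exact mul_nonneg (hy i) (hy j)
  · exact le_rfl

theorem adj_nonneg (G : SimpleGraph V) (i j : V) : 0 ≤ adj G i j := by
  unfold adj
  split_ifs
  · exact zero_le_one
  · exact le_rfl

theorem vE_nonneg (G : SimpleGraph V) (x : V → ℝ) (c : ℝ) : 0 ≤ vE G x c := by
  unfold vE
  exact Finset.sum_nonneg fun i _ => Finset.sum_nonneg fun j _ =>
    mul_nonneg (adj_nonneg G i j) (sq_nonneg _)

theorem vE_smul (G : SimpleGraph V) (x : V → ℝ) (Z : ℝ) (hZ : 0 < Z) :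
    ∑ i, ∑ j, adj G i j * ((Real.sqrt Z * x i) * (Real.sqrt Z * x j) - 1) ^ 2
      = Z ^ 2 * vE G x (1 / Z) := by
  unfold vE
  rw [Finset.mul_sum]
  refine Finset.sum_congr rfl fun i _ => ?_
  rw [Finset.mul_sum]
  refine Finset.sum_congr rfl fun j _ => ?_
  have h1 : (Real.sqrt Z * x i) * (Real.sqrt Z * x j) = Z * (x i * x j) := by
    have := Real.mul_self_sqrt hZ.le
    linear_combination (x i * x j) * this
  rw [h1]
  have h2 : Z * (x i * x j) - 1 = Z * (x i * x j - 1 / Z) := by
    field_simp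
  rw [h2]
  ring

end STRLx

open STRLx in
theorem prfSTRL : P_statement → EDG_statement → STB_statement → COR_statement → KEY_statement →
    STRL_statement := by
  intro hP hE hS hC hK W _ F r C hr hF hcol
  have hr3 : (3 : ℝ) ≤ r := by exact_mod_cast hr
  have hr0 : (0 : ℝ) < r := by linarith
  obtain ⟨C', hC'def⟩ : ∃ C', C' = max C 1 := ⟨_, rfl⟩
  have hC1 : 1 ≤ C' := hC'def ▸ le_max_right _ _
  have hCC : C ≤ C' := hC'def ▸ le_max_left _ _
  have hγ : (0 : ℝ) < 1 / (16 * r) := by positivity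
  obtain ⟨ε, hε, hcor⟩ := hC W F r (1 / (16 * r)) hr hF hγ
  obtain ⟨ε₀, hε₀, m₁, hstb⟩ := hS W F r ε hr hcol hε
  obtain ⟨S₀, hS₀⟩ : ∃ S₀ : ℝ, S₀ = C' / ε₀ + 3 * C' + (36 * r * C') ^ 2 := ⟨_, rfl⟩
  have hS₀0 : 0 ≤ S₀ := by rw [hS₀]; positivity
  have hC0 : 0 ≤ C' := by linarith
  have hrC : (3 : ℝ) ≤ r * C' := by
    calc (3 : ℝ) = 3 * 1 := by norm_num
      _ ≤ r * C' := mul_le_mul hr3 hC1 zero_le_one hr0.le
  refine ⟨18 * r * C', by linarith, max m₁ (⌈S₀ ^ 2⌉₊ + 1), ?_⟩
  intro V _ G hfree hm hdef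
  obtain ⟨m, hmdef⟩ : ∃ m, m = G.edgeSet.ncard := ⟨_, rfl⟩
  rw [← hmdef] at hm hdef ⊢
  have hm1 : m₁ ≤ m := le_trans (le_max_left _ _) hm
  have hm2 : ⌈S₀ ^ 2⌉₊ + 1 ≤ m := le_trans (le_max_right _ _) hm
  have hm3 : S₀ ^ 2 ≤ m := by
    have h1 := Nat.le_ceil (S₀ ^ 2)
    have h2 : ((⌈S₀ ^ 2⌉₊ : ℕ) : ℝ) ≤ m := by exact_mod_cast (by omega : ⌈S₀ ^ 2⌉₊ ≤ m)
    linarith
  have hmpos : 0 < m := by omega
  have hmR : (0 : ℝ) < m := by exact_mod_cast hmpos
  obtain ⟨s, hs⟩ : ∃ s, s = Real.sqrt (m : ℝ) := ⟨_, rfl⟩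
  rw [← hs] at hdef ⊢
  have hs2 : s ^ 2 = m := by rw [hs]; exact Real.sq_sqrt hmR.le
  have hs0 : 0 < s := by rw [hs]; exact Real.sqrt_pos.2 hmR
  have hsS : S₀ ≤ s := by
    rw [hs]
    exact Real.le_sqrt_of_sq_le hm3
  have hCe : C' ≤ ε₀ * s := by
    have h1 : C' / ε₀ ≤ s := by
      have : C' / ε₀ ≤ S₀ := by
        rw [hS₀]
        have : 0 ≤ 3 * C' + (36 * r * C') ^ 2 := by positivity
        linarith
      linarith
    rw [div_le_iff₀ hε₀] at h1
    linarith
  have hC3 : 3 * C' ≤ s := by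
    have : 3 * C' ≤ S₀ := by
      rw [hS₀]
      have : 0 ≤ C' / ε₀ + (36 * r * C') ^ 2 := by positivity
      linarith
    linarith
  have hC36 : (36 * r * C') ^ 2 ≤ s := by
    have : (36 * r * C') ^ 2 ≤ S₀ := by
      rw [hS₀]
      have : 0 ≤ C' / ε₀ + 3 * C' := by positivity
      linarith
    linarith
  have hs1 : 1 ≤ s := by linarith
  -- the defect
  have hq : qq r = 1 - 1 / (r : ℝ) := rfl
  have hq23 : 2 / 3 ≤ qq r := by
    rw [hq]
    have : 1 / (r : ℝ) ≤ 1 / 3 := one_div_le_one_div_of_le (by norm_num) hr3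
    linarith
  have hq1 : qq r ≤ 1 := by
    rw [hq]
    have : 0 < 1 / (r : ℝ) := by positivity
    linarith
  obtain ⟨L, hL⟩ : ∃ L, L = lam G := ⟨_, rfl⟩
  rw [← hL] at hdef ⊢
  have hdef' : 2 * qq r * m - L ^ 2 ≤ C' * s :=
    hdef.trans (mul_le_mul_of_nonneg_right hCC hs0.le)
  have hne : Nonempty V := by
    by_contra hcon
    rw [not_nonempty_iff] at hcon
    have : G.edgeSet = ∅ := by
      rw [Set.eq_empty_iff_forall_notMem]
      intro e
      induction e using Sym2.ind with
      | _ a b => exact hcon.elim a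
    rw [this, Set.ncard_empty] at hmdef
    omega
  obtain ⟨hL0, -, x, hx0, hx1, hxe⟩ := hP V G
  rw [← hL] at hL0 hxe
  have hD : Data G x L m :=
    { nonneg := hx0
      unit := hx1
      eig := hxe
      edges := by rw [hE V G, hmdef]
      pos := hmpos
      l_nonneg := hL0 }
  have hLm : (m : ℝ) ≤ L ^ 2 := by
    have h1 : 3 * C' * s ≤ s * s := mul_le_mul_of_nonneg_right hC3 hs0.le
    have h2 : 2 / 3 * (m : ℝ) ≤ qq r * m := mul_le_mul_of_nonneg_right hq23 hmR.le
    have h3 : s * s = m := by rw [← sq, hs2]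
    linarith only [hdef', h1, h2, h3]
  have hLs : s ≤ L := by
    refine le_of_sq_le_sq ?_ hL0
    rw [hs2]
    exact hLm
  have hLpos : 0 < L := lt_of_lt_of_le hs0 hLs
  obtain ⟨f₀, hf1, hf2, hf3, hf4⟩ := hstb V G x L m hfree hD hm1 (by
    rw [← hq]
    have h1 : C' * s ≤ ε₀ * s * s := mul_le_mul_of_nonneg_right hCe hs0.le
    have h2 : ε₀ * s * s = ε₀ * m := by rw [← hs2]; ring
    have h3 : (2 * qq r - ε₀) * m = 2 * qq r * m - ε₀ * m := by ring
    rw [h3]
    linarith only [hdef', h1, h2])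
  obtain ⟨f, hind, hcw, hnb⟩ := hcor V G (fun i => x i ^ 2) f₀ hfree (fun i => sq_nonneg _) hx1
    hf1 hf2 hf3 hf4
  have hkey := hK r (1 / (16 * r)) V G x L m f (by omega) hγ hD hind hnb hcw
  rw [← hq] at hkey
  -- the terms
  have t0 := cw_nonneg (fun i => x i ^ 2) (fun i => sq_nonneg _) f none
  have t1 := miss_nonneg G (fun i => x i ^ 2) (fun i => sq_nonneg _) f
  have t2 := vE_nonneg G x (L / (2 * m))
  have t3 : ∀ t, 0 ≤ (cw (fun i => x i ^ 2) f (some t)
      - (1 - cw (fun i => x i ^ 2) f none) / r) ^ 2 := fun t => sq_nonneg _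
  obtain ⟨c0, hc0⟩ : ∃ c0, c0 = cw (fun i => x i ^ 2) f none := ⟨_, rfl⟩
  obtain ⟨ms, hms⟩ : ∃ ms, ms = miss G (fun i => x i ^ 2) f := ⟨_, rfl⟩
  obtain ⟨ve, hve⟩ : ∃ ve, ve = vE G x (L / (2 * m)) := ⟨_, rfl⟩
  obtain ⟨cs, hcs⟩ : ∃ cs : Fin r → ℝ, cs = fun t => cw (fun i => x i ^ 2) f (some t) := ⟨_, rfl⟩
  have hcs' : ∀ t, cw (fun i => x i ^ 2) f (some t) = cs t := fun t => by rw [hcs]
  simp only [hcs'] at hkey t3
  rw [← hc0] at hkey t0 t3
  rw [← hms] at hkey t1
  rw [← hve] at hkey t2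
  obtain ⟨κ, hκ⟩ : ∃ κ, κ = 2 * qq r * m - L ^ 2 := ⟨_, rfl⟩
  rw [← hκ] at hkey hdef'
  obtain ⟨Sg, hSg⟩ : ∃ Sg, Sg = ∑ t, (cs t - (1 - c0) / r) ^ 2 := ⟨_, rfl⟩
  rw [← hSg] at hkey
  have hSg0 : 0 ≤ Sg := by rw [hSg]; exact Finset.sum_nonneg fun t _ => t3 t
  have hSgt : ∀ t, (cs t - (1 - c0) / r) ^ 2 ≤ Sg := by
    intro t
    rw [hSg]
    exact Finset.single_le_sum (f := fun t => (cs t - (1 - c0) / r) ^ 2)
      (fun t _ => t3 t) (Finset.mem_univ t)
  have hγc : 0 ≤ 1 / (16 * (r : ℝ)) * c0 := mul_nonneg hγ.le t0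
  have hκ0 : 0 ≤ κ := le_trans (by positivity) hkey
  have hκc : 2 * m * (1 / (16 * (r : ℝ)) * c0) ≤ κ := by
    refine le_trans ?_ hkey
    exact mul_le_mul_of_nonneg_left (by linarith only [hγc, hSg0, t1, t2]) (by positivity)
  have hκS : 2 * m * Sg ≤ κ := by
    refine le_trans ?_ hkey
    exact mul_le_mul_of_nonneg_left (by linarith only [hγc, hSg0, t1, t2]) (by positivity)
  have hκm : 2 * m * ms ≤ κ := by
    refine le_trans ?_ hkey
    exact mul_le_mul_of_nonneg_left (by linarith only [hγc, hSg0, t1, t2]) (by positivity)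
  have hκv : 2 * m * ve ≤ κ := by
    refine le_trans ?_ hkey
    exact mul_le_mul_of_nonneg_left (by linarith only [hγc, hSg0, t1, t2]) (by positivity)
  have hLup : L ^ 2 ≤ 2 * qq r * m := by linarith only [hκ0, hκ]
  have hL2m : L ^ 2 ≤ 2 * m := by
    have h1 : qq r * m ≤ 1 * m := mul_le_mul_of_nonneg_right hq1 hmR.le
    linarith only [h1, hLup]
  -- the scaling
  obtain ⟨Z, hZ⟩ : ∃ Z : ℝ, Z = 2 * m / L := ⟨_, rfl⟩
  have hZ0 : 0 < Z := by rw [hZ]; positivity
  have hZL : Z * L = 2 * m := by rw [hZ]; field_simp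
  have hZi : 1 / Z = L / (2 * m) := by rw [hZ]; field_simp
  have hZs : s ≤ Z := by
    -- Z L = 2 m, L² ≤ 2 m, so Z ≥ L ≥ s
    have h1 : L * L ≤ Z * L := by rw [hZL, ← sq]; exact hL2m
    have h2 : L ≤ Z := le_of_mul_le_mul_right h1 hLpos
    linarith only [h2, hLs]
  have hZ2 : Z ^ 2 ≤ 4 * m := by
    -- Z² L² = 4 m², L² ≥ m
    have h1 : Z ^ 2 * L ^ 2 = 4 * m ^ 2 := by
      have : Z ^ 2 * L ^ 2 = (Z * L) ^ 2 := by ring
      rw [this, hZL]
      ring
    have h2 : Z ^ 2 * m ≤ 4 * m * m := by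
      calc Z ^ 2 * m ≤ Z ^ 2 * L ^ 2 := mul_le_mul_of_nonneg_left hLm (sq_nonneg Z)
        _ = 4 * m * m := by rw [h1]; ring
    exact le_of_mul_le_mul_right h2 hmR
  have hZκ : ∀ y : ℝ, 0 ≤ y → 2 * m * y ≤ κ → Z ^ 2 * y ≤ 2 * (C' * s) := by
    intro y hy hyκ
    calc Z ^ 2 * y ≤ 4 * m * y := mul_le_mul_of_nonneg_right hZ2 hy
      _ ≤ 2 * κ := by linarith only [hyκ]
      _ ≤ 2 * (C' * s) := by linarith only [hdef']
  have hzz : (fun i => (Real.sqrt Z * x i) ^ 2) = fun i => Z * x i ^ 2 := by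
    funext i
    rw [mul_pow, Real.sq_sqrt hZ0.le]
  have hsum : ∑ i, (Real.sqrt Z * x i) ^ 2 = Z := by
    have h1 : ∀ i, (Real.sqrt Z * x i) ^ 2 = Z * x i ^ 2 := fun i => congrFun hzz i
    simp only [h1]
    rw [← Finset.mul_sum, hx1, mul_one]
  have hZc0 : Z * c0 ≤ 16 * r * C' := by
    -- 2 m c0 / (16 r) ≤ κ ≤ C' s; Z L = 2 m, L ≥ s
    have h1 : 2 * m * c0 ≤ 16 * r * (C' * s) := by
      have h2 : 2 * m * (1 / (16 * (r : ℝ)) * c0) * (16 * r) = 2 * m * c0 := by
        field_simp
      calc 2 * m * c0 = 2 * m * (1 / (16 * (r : ℝ)) * c0) * (16 * r) := h2.symm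
        _ ≤ κ * (16 * r) := mul_le_mul_of_nonneg_right hκc (by positivity)
        _ ≤ (C' * s) * (16 * r) := mul_le_mul_of_nonneg_right hdef' (by positivity)
        _ = 16 * r * (C' * s) := by ring
    have h3 : (Z * c0) * s ≤ (16 * r * C') * s := by
      calc (Z * c0) * s ≤ (Z * c0) * L := mul_le_mul_of_nonneg_left hLs (by positivity)
        _ = 2 * m * c0 := by rw [← hZL]; ring
        _ ≤ 16 * r * (C' * s) := h1
        _ = (16 * r * C') * s := by ring
    exact le_of_mul_le_mul_right h3 hs0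
  have hss0 : 0 < Real.sqrt s := Real.sqrt_pos.2 hs0
  have hss1 : 1 ≤ Real.sqrt s := Real.one_le_sqrt.2 hs1
  have hss2 : Real.sqrt s ^ 2 = s := Real.sq_sqrt hs0.le
  have hclass : ∀ t, |Z * cs t - Z / r| ≤ 18 * C' * Real.sqrt s := by
    intro t
    have h1 : (Z * (cs t - (1 - c0) / r)) ^ 2 ≤ (2 * C' * Real.sqrt s) ^ 2 := by
      have h2 := hZκ _ (t3 t) (le_trans (mul_le_mul_of_nonneg_left (hSgt t) (by positivity)) hκS)
      calc (Z * (cs t - (1 - c0) / r)) ^ 2 = Z ^ 2 * (cs t - (1 - c0) / r) ^ 2 := by ring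
        _ ≤ 2 * (C' * s) := h2
        _ ≤ 4 * C' ^ 2 * s := by
            have h6 : 0 ≤ C' := hC0
            have h7 : C' * 1 ≤ C' * C' := mul_le_mul_of_nonneg_left hC1 h6
            have h8 : 2 * C' ≤ 4 * C' ^ 2 := by rw [sq]; linarith only [h7, h6]
            calc 2 * (C' * s) = (2 * C') * s := by ring
              _ ≤ (4 * C' ^ 2) * s := mul_le_mul_of_nonneg_right h8 hs0.le
        _ = (2 * C' * Real.sqrt s) ^ 2 := by rw [mul_pow, mul_pow, hss2]; ring
    have h3 : |Z * (cs t - (1 - c0) / r)| ≤ 2 * C' * Real.sqrt s := by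
      refine abs_le_of_sq_le_sq h1 (by positivity)
    have h4 : Z * cs t - Z / r = Z * (cs t - (1 - c0) / r) - Z * c0 / r := by
      field_simp
      ring
    have h5 : |Z * c0 / r| ≤ 16 * C' := by
      rw [abs_of_nonneg (by positivity), div_le_iff₀ hr0]
      linarith only [hZc0]
    rw [h4]
    calc |Z * (cs t - (1 - c0) / r) - Z * c0 / r|
        ≤ |Z * (cs t - (1 - c0) / r)| + |Z * c0 / r| := abs_sub _ _
      _ ≤ 2 * C' * Real.sqrt s + 16 * C' := add_le_add h3 h5
      _ ≤ 18 * C' * Real.sqrt s := by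
          have h6 : C' * 1 ≤ C' * Real.sqrt s := mul_le_mul_of_nonneg_left hss1 hC0
          linarith only [h6]
  refine ⟨fun i => Real.sqrt Z * x i, f, ?_, hind, hLup, ?_, ?_, ?_⟩
  · exact
    { nonneg := fun i => mul_nonneg (Real.sqrt_nonneg _) (hx0 i)
      lpos := hLpos
      mpos := hmpos
      eig := by
        intro v
        have h1 : ∑ u, adj G v u * (Real.sqrt Z * x u) = Real.sqrt Z * ∑ u, adj G v u * x u := by
          rw [Finset.mul_sum]
          exact Finset.sum_congr rfl fun u _ => by ring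
        rw [h1, hxe v]
        ring
      norm := by rw [hsum, mul_comm, hZL]
      edges := hD.edges }
  · refine
    { nonneg := fun i => mul_nonneg (Real.sqrt_nonneg _) (hx0 i)
      ed := ?_
      ms := ?_
      cls := ?_
      non := ?_ }
    · rw [vE_smul G x Z hZ0, hZi, ← hve]
      have h1 := hZκ ve t2 hκv
      have h2 : 2 * (C' * s) ≤ 18 * r * C' * s := by
        have h3 : 0 ≤ C' * s := mul_nonneg hC0 hs0.le
        have h4 : 3 * (C' * s) ≤ r * (C' * s) := mul_le_mul_of_nonneg_right hr3 h3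
        linarith only [h3, h4]
      linarith only [h1, h2]
    · rw [hzz, miss_smul, ← hms]
      have h1 := hZκ ms t1 hκm
      have h2 : 2 * (C' * s) ≤ 18 * r * C' * s := by
        have h3 : 0 ≤ C' * s := mul_nonneg hC0 hs0.le
        have h4 : 3 * (C' * s) ≤ r * (C' * s) := mul_le_mul_of_nonneg_right hr3 h3
        linarith only [h3, h4]
      linarith only [h1, h2]
    · intro t
      rw [hzz, cw_smul, hcs']
      have h1 := (abs_le.1 (hclass t)).1
      have h2 : s / (18 * r * C') ≤ s / (2 * r) := by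
        refine div_le_div_of_nonneg_left hs0.le (by positivity) ?_
        have h7 : (r : ℝ) * 1 ≤ r * C' := mul_le_mul_of_nonneg_left hC1 hr0.le
        linarith only [h7, hrC]
      have h3 : s / r ≤ Z / r := div_le_div_of_nonneg_right hZs hr0.le
      have h4 : 18 * C' * Real.sqrt s ≤ s / (2 * r) := by
        rw [le_div_iff₀ (by positivity)]
        have h5 : 36 * r * C' ≤ Real.sqrt s := Real.le_sqrt_of_sq_le hC36
        calc 18 * C' * Real.sqrt s * (2 * r) = (36 * r * C') * Real.sqrt s := by ring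
          _ ≤ Real.sqrt s * Real.sqrt s := mul_le_mul_of_nonneg_right h5 hss0.le
          _ = s := Real.mul_self_sqrt hs0.le
      have h6 : s / r = s / (2 * r) + s / (2 * r) := by
        field_simp
        ring
      linarith only [h1, h2, h3, h4, h6]
    · rw [hzz, cw_smul, ← hc0]
      have h2 : 16 * r * C' ≤ 18 * r * C' := by
        have h3 : (0 : ℝ) < r * C' := by linarith only [hrC]
        linarith only [h3]
      linarith only [h2, hZc0]
  · intro v hv
    have hsum' : ∑ i, Z * x i ^ 2 = Z := by rw [← Finset.mul_sum, hx1, mul_one]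
    have hzz' : ∀ i, (Real.sqrt Z * x i) ^ 2 = Z * x i ^ 2 := fun i => congrFun hzz i
    simp only [hzz']
    rw [nb_smul, hsum']
    have h1 := hnb v hv
    rw [← hq] at h1
    calc Z * nb G (fun i => x i ^ 2) v ≤ Z * (qq r - 1 / (16 * (r : ℝ))) :=
        mul_le_mul_of_nonneg_left h1 hZ0.le
      _ = (qq r - 1 / (16 * (r : ℝ))) * Z := mul_comm _ _
  · intro t
    have hsum' : ∑ i, Z * x i ^ 2 = Z := by rw [← Finset.mul_sum, hx1, mul_one]
    have hzz' : ∀ i, (Real.sqrt Z * x i) ^ 2 = Z * x i ^ 2 := fun i => congrFun hzz i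
    simp only [hzz']
    rw [cw_smul, hcs', hsum']
    refine (hclass t).trans ?_
    have h1 : 18 * C' ≤ 18 * r * C' := by
      have h2 : 3 * C' ≤ r * C' := mul_le_mul_of_nonneg_right hr3 hC0
      linarith only [h2, hrC]
    exact mul_le_mul_of_nonneg_right h1 hss0.le

end MP0c3a8f

end

section

/-!
# (TI2) graphs of type two with the same parameters have the same spectral radius
-/

set_option linter.unusedSectionVars false

open Finset

namespace MP0c3a8f

namespace ItemTI2

section

variable {V : Type} [Fintype V] {r : ℕ}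

lemma sum_split (F : V → ℝ) (f : V → Option (Fin r)) :
    ∑ z, F z = (∑ s, cw F f (some s)) + cw F f none := by
  classical
  have h1 : ∀ z, F z = ∑ o : Option (Fin r), if f z = o then F z else 0 := by
    intro z
    rw [Finset.sum_ite_eq]
    simp
  calc ∑ z, F z = ∑ z, ∑ o : Option (Fin r), (if f z = o then F z else 0) :=
        sum_congr rfl fun z _ => h1 z
    _ = ∑ o : Option (Fin r), ∑ z, (if f z = o then F z else 0) := sum_comm
    _ = ∑ o : Option (Fin r), cw F f o := by
        refine sum_congr rfl fun o _ => ?_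
        unfold cw
        exact sum_congr rfl fun z _ => by congr
    _ = _ := by rw [Fintype.sum_option, add_comm]

lemma cw_congr (F F' : V → ℝ) (f : V → Option (Fin r)) (o : Option (Fin r))
    (h : ∀ z, f z = o → F z = F' z) : cw F f o = cw F' f o := by
  unfold cw
  refine sum_congr rfl fun z _ => ?_
  split_ifs with h1
  · exact h z h1
  · rfl

lemma cw_add (F F' : V → ℝ) (f : V → Option (Fin r)) (o : Option (Fin r)) :
    cw (fun z => F z + F' z) f o = cw F f o + cw F' f o := by
  unfold cw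
  rw [← sum_add_distrib]
  refine sum_congr rfl fun z _ => ?_
  split_ifs
  · rfl
  · rw [add_zero]

lemma cw_mul (c : ℝ) (F : V → ℝ) (f : V → Option (Fin r)) (o : Option (Fin r)) :
    cw (fun z => c * F z) f o = c * cw F f o := by
  unfold cw
  rw [mul_sum]
  refine sum_congr rfl fun z _ => ?_
  split_ifs
  · rfl
  · rw [mul_zero]

lemma cw_one (f : V → Option (Fin r)) (t : Fin r) :
    cw (fun _ => 1) f (some t) = (siz f t : ℝ) := by
  classical
  unfold cw siz
  rw [sum_boole]
  congr 1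
  rw [← Set.ncard_coe_finset]
  congr 1
  ext z
  simp

lemma cw_nbn (G : SimpleGraph V) (f : V → Option (Fin r)) (w : V) (t : Fin r) :
    cw (fun z => adj G w z) f (some t) = (nbn G f w t : ℝ) := by
  classical
  unfold cw nbn adj
  have h1 : ∀ z, (if f z = some t then (if G.Adj w z then (1 : ℝ) else 0) else 0) =
      if f z = some t ∧ G.Adj w z then 1 else 0 := by
    intro z
    by_cases h1 : f z = some t
    · by_cases h2 : G.Adj w z
      · simp [h1, h2]
      · simp [h1, h2]
    · simp [h1]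
  have h2 : ∑ z, (if f z = some t ∧ G.Adj w z then (1 : ℝ) else 0) =
      ({z | f z = some t ∧ G.Adj w z}.ncard : ℝ) := by
    rw [sum_boole]
    congr 1
    rw [← Set.ncard_coe_finset]
    congr 1
    ext z
    simp
  rw [← h2]
  refine sum_congr rfl fun z _ => ?_
  rw [← h1 z]

variable {G : SimpleGraph V} {f : V → Option (Fin r)} {w u : V} {v : Fin r → V} {i : Fin r}

lemma cw_none (h : Ty2 G f w u v i) (F : V → ℝ) : cw F f none = F w + F u := by
  classical
  have h1 : ∀ z, (if f z = none then F z else 0) =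
      (if z = w then F z else 0) + (if z = u then F z else 0) := by
    intro z
    by_cases h2 : z = w
    · have h3 : f z = none := (h.out z).2 (Or.inl h2)
      have h4 : z ≠ u := fun h5 => h.ne (h2.symm.trans h5)
      rw [if_pos h3, if_pos h2, if_neg h4, add_zero]
    · by_cases h3 : z = u
      · have h4 : f z = none := (h.out z).2 (Or.inr h3)
        rw [if_pos h4, if_neg h2, if_pos h3, zero_add]
      · have h4 : f z ≠ none := fun h5 => ((h.out z).1 h5).elim h2 h3
        rw [if_neg h4, if_neg h2, if_neg h3, add_zero]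
  unfold cw
  calc ∑ z, (if f z = none then F z else 0)
      = ∑ z, ((if z = w then F z else 0) + (if z = u then F z else 0)) :=
        sum_congr rfl fun z _ => by rw [← h1 z]
    _ = F w + F u := by
        rw [sum_add_distrib, sum_ite_eq' , sum_ite_eq']
        simp

lemma fw (h : Ty2 G f w u v i) : f w = none := (h.out w).2 (Or.inl rfl)

lemma fu (h : Ty2 G f w u v i) : f u = none := (h.out u).2 (Or.inr rfl)

lemma adj_comm' (G : SimpleGraph V) (y z : V) : adj G y z = adj G z y := by
  unfold adj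
  by_cases h : G.Adj y z
  · rw [if_pos h, if_pos h.symm]
  · rw [if_neg h, if_neg fun h' => h h'.symm]

lemma adj_self (G : SimpleGraph V) (y : V) : adj G y y = 0 := by
  unfold adj
  rw [if_neg (G.irrefl)]

/-- the sum over the neighbours of a core vertex -/
lemma nb_core (h : Ty2 G f w u v i) (x : V → ℝ) {y : V} {t : Fin r} (hy : f y = some t) :
    ∑ z, adj G y z * x z = (∑ s, cw x f (some s) - cw x f (some t)) + adj G w y * x w
      + adj G u y * x u := by
  classical
  rw [sum_split _ f, cw_none h]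
  have hy0 : f y ≠ none := by rw [hy]; exact Option.some_ne_none t
  have h1 : ∀ s, cw (fun z => adj G y z * x z) f (some s) =
      cw x f (some s) - if s = t then cw x f (some s) else 0 := by
    intro s
    by_cases hs : s = t
    · rw [if_pos hs, sub_self]
      have h2 : cw (fun z => adj G y z * x z) f (some s) = cw (fun _ => 0) f (some s) := by
        refine cw_congr _ _ f _ fun z hz => ?_
        have h3 : ¬ G.Adj y z := by
          rw [h.core y z hy0 (by rw [hz]; exact Option.some_ne_none s), hy, hz, hs]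
          exact fun h4 => h4 rfl
        unfold adj
        rw [if_neg h3, zero_mul]
      rw [h2]
      unfold cw
      simp
    · rw [if_neg hs, sub_zero]
      refine cw_congr _ _ f _ fun z hz => ?_
      have h3 : G.Adj y z := by
        rw [h.core y z hy0 (by rw [hz]; exact Option.some_ne_none s), hy, hz]
        intro h4
        exact hs (Option.some_injective _ h4).symm
      unfold adj
      rw [if_pos h3, one_mul]
  have h2 : ∑ s, cw (fun z => adj G y z * x z) f (some s) =
      ∑ s, cw x f (some s) - cw x f (some t) := by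
    rw [sum_congr rfl fun s _ => h1 s, sum_sub_distrib, sum_ite_eq']
    simp
  rw [h2, adj_comm' G y w, adj_comm' G y u]
  ring

/-- the number of neighbours of `u` in a class -/
lemma cw_u (h : Ty2 G f w u v i) (F : V → ℝ) (t : Fin r) :
    cw (fun z => adj G u z * F z) f (some t) = if t = i then 0 else F (v t) := by
  classical
  by_cases ht : t = i
  · rw [if_pos ht]
    have h2 : cw (fun z => adj G u z * F z) f (some t) = cw (fun _ => 0) f (some t) := by
      refine cw_congr _ _ f _ fun z hz => ?_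
      have h3 : ¬ G.Adj u z := by
        rw [h.un z (by rw [hz]; exact Option.some_ne_none t)]
        rintro ⟨s, hs, rfl⟩
        rw [h.hv s hs] at hz
        exact hs ((Option.some_injective _ hz).trans ht)
      unfold adj
      rw [if_neg h3, zero_mul]
    rw [h2]
    unfold cw
    simp
  · rw [if_neg ht]
    have hvt := h.hv t ht
    unfold cw
    rw [Finset.sum_eq_single (v t)]
    · rw [if_pos hvt]
      have h3 : G.Adj u (v t) := by
        rw [h.un _ (by rw [hvt]; exact Option.some_ne_none t)]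
        exact ⟨t, ht, rfl⟩
      show adj G u (v t) * F (v t) = F (v t)
      unfold adj
      rw [if_pos h3, one_mul]
    · intro z _ hz
      split_ifs with h4
      · have h3 : ¬ G.Adj u z := by
          rw [h.un z (by rw [h4]; exact Option.some_ne_none t)]
          rintro ⟨s, hs, rfl⟩
          rw [h.hv s hs] at h4
          exact hz (by rw [Option.some_injective _ h4])
        show adj G u z * F z = 0
        unfold adj
        rw [if_neg h3, zero_mul]
      · rfl
    · intro h4
      exact absurd (mem_univ _) h4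

/-- the vector has the form of an eigenvector on the core -/
def Frm (G : SimpleGraph V) (f : V → Option (Fin r)) (w u : V) (l a b : ℝ) (c : Fin r → ℝ)
    (x : V → ℝ) : Prop :=
  ∀ z t, f z = some t → l * x z = c t + adj G w z * a + adj G u z * b

lemma frm_cls (h : Ty2 G f w u v i) {l a b : ℝ} {c : Fin r → ℝ} {x : V → ℝ}
    (hx : Frm G f w u l a b c x) (t : Fin r) :
    l * cw x f (some t) = siz f t * c t + nbn G f w t * a + if t = i then 0 else b := by
  rw [← cw_mul]
  have h1 : cw (fun z => l * x z) f (some t) =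
      cw (fun z => (c t * 1 + a * adj G w z) + adj G u z * b) f (some t) := by
    refine cw_congr _ _ f _ fun z hz => ?_
    rw [hx z t hz]
    ring
  rw [h1, cw_add, cw_add, cw_mul, cw_mul, cw_one, cw_nbn, cw_u h (fun _ => b)]
  ring

/-- exactly one exception -/
lemma count {Q : Fin r → Prop} (hex : ∃! t, t ≠ i ∧ ¬ Q t) (b : ℝ) :
    ∑ t, (open Classical in if t = i then 0 else (if Q t then (1 : ℝ) else 0) * b) =
      ((r : ℝ) - 2) * b := by
  classical
  obtain ⟨t₀, ⟨h0, h1⟩, h2⟩ := hex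
  have h3 : ∀ t, (if t = i then 0 else (if Q t then (1 : ℝ) else 0) * b) =
      b - (if t = i then b else 0) - (if t = t₀ then b else 0) := by
    intro t
    by_cases h4 : t = i
    · have h5 : t ≠ t₀ := fun h5 => h0 (h5.symm.trans h4)
      rw [if_pos h4, if_pos h4, if_neg h5]
      ring
    · by_cases h5 : t = t₀
      · have h6 : ¬ Q t := by rw [h5]; exact h1
        rw [if_neg h4, if_neg h4, if_pos h5, if_neg h6]
        ring
      · have h6 : Q t := by
          by_contra h7
          exact h5 (h2 t ⟨h4, h7⟩)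
        rw [if_neg h4, if_neg h4, if_neg h5, if_pos h6]
        ring
  calc _ = ∑ t, (b - (if t = i then b else 0) - (if t = t₀ then b else 0)) :=
        sum_congr rfl fun t _ => by rw [← h3 t]
    _ = _ := by
        rw [sum_sub_distrib, sum_sub_distrib, sum_ite_eq', sum_ite_eq']
        simp
        ring

lemma frm_w (h : Ty2 G f w u v i) (hex : ∃! t, t ≠ i ∧ ¬ G.Adj w (v t)) {l a b : ℝ}
    {c : Fin r → ℝ} {x : V → ℝ} (hx : Frm G f w u l a b c x) :
    l * ∑ z, adj G w z * x z =
      (∑ t, (nbn G f w t : ℝ) * (c t + a)) + ((r : ℝ) - 2) * b + l * x u := by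
  classical
  rw [sum_split _ f, cw_none h]
  have h1 : ∀ t, l * cw (fun z => adj G w z * x z) f (some t) =
      (nbn G f w t : ℝ) * (c t + a) +
        (if t = i then 0 else (if G.Adj w (v t) then (1 : ℝ) else 0) * b) := by
    intro t
    rw [← cw_mul]
    have h2 : cw (fun z => l * (adj G w z * x z)) f (some t) =
        cw (fun z => (c t + a) * adj G w z + adj G u z * (adj G w z * b)) f (some t) := by
      refine cw_congr _ _ f _ fun z hz => ?_
      have h3 : adj G w z * adj G w z = adj G w z := by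
        unfold adj
        split_ifs <;> norm_num
      calc l * (adj G w z * x z) = adj G w z * (l * x z) := by ring
        _ = adj G w z * (c t + adj G w z * a + adj G u z * b) := by rw [hx z t hz]
        _ = c t * adj G w z + (adj G w z * adj G w z) * a + adj G u z * (adj G w z * b) := by
            ring
        _ = _ := by rw [h3]; ring
    rw [h2, cw_add, cw_mul, cw_nbn, cw_u h (fun z => adj G w z * b)]
    unfold adj
    ring_nf
  have h2 : adj G w w = 0 := adj_self G w
  have h3 : adj G w u = 1 := by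
    unfold adj
    rw [if_pos h.uw.symm]
  rw [h2, h3, mul_add, mul_sum, sum_congr rfl fun t _ => h1 t, sum_add_distrib,
    count hex b]
  ring

lemma frm_u (h : Ty2 G f w u v i) (hex : ∃! t, t ≠ i ∧ ¬ G.Adj w (v t)) {l a b : ℝ}
    {c : Fin r → ℝ} {x : V → ℝ} (hx : Frm G f w u l a b c x) :
    l * ∑ z, adj G u z * x z =
      (∑ t, if t = i then 0 else (c t + b)) + ((r : ℝ) - 2) * a + l * x w := by
  classical
  rw [sum_split _ f, cw_none h]
  have h1 : ∀ t, l * cw (fun z => adj G u z * x z) f (some t) =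
      (if t = i then 0 else (c t + b)) +
        (if t = i then 0 else (if G.Adj w (v t) then (1 : ℝ) else 0) * a) := by
    intro t
    rw [cw_u h x]
    by_cases ht : t = i
    · rw [if_pos ht, if_pos ht, if_pos ht]
      ring
    · rw [if_neg ht, if_neg ht, if_neg ht, hx _ t (h.hv t ht)]
      have h3 : adj G u (v t) = 1 := by
        unfold adj
        rw [if_pos]
        rw [h.un _ (by rw [h.hv t ht]; exact Option.some_ne_none t)]
        exact ⟨t, ht, rfl⟩
      rw [h3]
      unfold adj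
      ring
  have h2 : adj G u u = 0 := adj_self G u
  have h3 : adj G u w = 1 := by
    unfold adj
    rw [if_pos h.uw]
  rw [h2, h3, mul_add, mul_sum, sum_congr rfl fun t _ => h1 t, sum_add_distrib,
    count hex a]
  ring

end

/-- the quotient equations -/
structure Sol (r : ℕ) (i : Fin r) (sz nb : Fin r → ℕ) (l a b : ℝ) (X : Fin r → ℝ) : Prop where
  cls : ∀ t, l * X t = sz t * (∑ s, X s - X t) + nb t * a + if t = i then 0 else b
  w : l * (l * a) = (∑ t, (nb t : ℝ) * ((∑ s, X s - X t) + a)) + ((r : ℝ) - 2) * b + l * b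
  u : l * (l * b) = (∑ t, if t = i then 0 else ((∑ s, X s - X t) + b)) + ((r : ℝ) - 2) * a
    + l * a

section

variable {V : Type} [Fintype V] {r : ℕ}
variable {G : SimpleGraph V} {f : V → Option (Fin r)} {w u : V} {v : Fin r → V} {i : Fin r}

lemma frm_of_eig (h : Ty2 G f w u v i) {x : V → ℝ} {l : ℝ}
    (hx : ∀ y, ∑ z, adj G y z * x z = l * x y) :
    Frm G f w u l (x w) (x u) (fun t => ∑ s, cw x f (some s) - cw x f (some t)) x := by
  intro z t hz
  rw [← hx z, nb_core h x hz]

lemma sol_of_eig (h : Ty2 G f w u v i) (hex : ∃! t, t ≠ i ∧ ¬ G.Adj w (v t)) {x : V → ℝ}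
    {l : ℝ} (hx : ∀ y, ∑ z, adj G y z * x z = l * x y) :
    Sol r i (siz f) (nbn G f w) l (x w) (x u) (fun t => cw x f (some t)) := by
  have hf := frm_of_eig h hx
  refine ⟨fun t => frm_cls h hf t, ?_, ?_⟩
  · rw [← hx w]
    exact frm_w h hex hf
  · rw [← hx u]
    exact frm_u h hex hf

open Classical in
/-- the eigenvector of the second graph -/
noncomputable def vec (G : SimpleGraph V) (f : V → Option (Fin r)) (w u : V) (l a b : ℝ)
    (c : Fin r → ℝ) (z : V) : ℝ :=
  match f z with
  | some t => (c t + adj G w z * a + adj G u z * b) / l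
  | none => if z = w then a else b

lemma eig_of_sol (h : Ty2 G f w u v i) (hex : ∃! t, t ≠ i ∧ ¬ G.Adj w (v t)) {l a b : ℝ}
    {X : Fin r → ℝ} (hl : 0 < l) (hX : Sol r i (siz f) (nbn G f w) l a b X) :
    ∃ x : V → ℝ, (∀ y, ∑ z, adj G y z * x z = l * x y) ∧ x w = a ∧ x u = b ∧
      ∀ t, cw x f (some t) = X t := by
  classical
  set c : Fin r → ℝ := fun t => ∑ s, X s - X t with hc
  have hw : vec G f w u l a b c w = a := by
    unfold vec
    rw [fw h]
    simp
  have hu : vec G f w u l a b c u = b := by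
    unfold vec
    rw [fu h]
    simp [h.ne.symm]
  have hfrm : Frm G f w u l a b c (vec G f w u l a b c) := by
    intro z t hz
    unfold vec
    rw [hz]
    dsimp only
    field_simp
  have hcls : ∀ t, cw (vec G f w u l a b c) f (some t) = X t := by
    intro t
    have h1 := frm_cls h hfrm t
    rw [← hX.cls t] at h1
    exact mul_left_cancel₀ hl.ne' h1
  refine ⟨vec G f w u l a b c, fun y => ?_, hw, hu, hcls⟩
  rcases hy : f y with _ | t
  · rcases (h.out y).1 hy with h1 | h1
    · rw [h1, hw]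
      apply mul_left_cancel₀ hl.ne'
      rw [frm_w h hex hfrm, hu, hX.w]
    · rw [h1, hu]
      apply mul_left_cancel₀ hl.ne'
      rw [frm_u h hex hfrm, hw, hX.u]
  · rw [nb_core h _ hy, hfrm y t hy, hw, hu, hcls]
    simp only [hcls]
    rfl

lemma zero_of_zero (h : Ty2 G f w u v i) {x : V → ℝ} {l : ℝ} (hl : 0 < l)
    (hx : ∀ y, ∑ z, adj G y z * x z = l * x y) (hw : x w = 0) (hu : x u = 0)
    (hX : ∀ t, cw x f (some t) = 0) (y : V) : x y = 0 := by
  rcases hy : f y with _ | t
  · rcases (h.out y).1 hy with h1 | h1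
    · rw [h1, hw]
    · rw [h1, hu]
  · have h1 := frm_of_eig h hx y t hy
    rw [hw, hu] at h1
    simp only [hX, sum_const_zero, sub_zero, mul_zero, add_zero] at h1
    exact (mul_eq_zero.1 h1).resolve_left hl.ne'

lemma lam_pos (hP : P_statement) (h : Ty2 G f w u v i) : 0 < lam G := by
  classical
  have : Nonempty V := ⟨w⟩
  obtain ⟨-, h2, -⟩ := hP V G
  have h3 := h2 fun _ => 1
  have h4 : (1 : ℝ) ≤ qf G fun _ => 1 := by
    unfold qf
    have h0 : ∀ y z, 0 ≤ adj G y z * ((1 : ℝ) * 1) := by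
      intro y z
      unfold adj
      split_ifs <;> norm_num
    calc (1 : ℝ) = adj G u w * ((1 : ℝ) * 1) := by
          unfold adj
          rw [if_pos h.uw]
          norm_num
      _ ≤ ∑ z, adj G u z * ((1 : ℝ) * 1) :=
          single_le_sum (f := fun z => adj G u z * ((1 : ℝ) * 1)) (fun z _ => h0 u z) (mem_univ w)
      _ ≤ ∑ y, ∑ z, adj G y z * ((1 : ℝ) * 1) :=
          single_le_sum (f := fun y => ∑ z, adj G y z * ((1 : ℝ) * 1))
            (fun y _ => sum_nonneg fun z _ => h0 y z) (mem_univ u)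
  have h5 : (0 : ℝ) ≤ ∑ _i : V, (1 : ℝ) ^ 2 := sum_nonneg fun _ _ => by norm_num
  by_contra h6
  have h7 : lam G ≤ 0 := not_lt.1 h6
  have h8 := mul_nonpos_of_nonpos_of_nonneg h7 h5
  linarith only [h3, h4, h8]

end

lemma le (hP : P_statement) {r : ℕ} {V V' : Type} [Fintype V] [Fintype V'] {G : SimpleGraph V}
    {G' : SimpleGraph V'} {f : V → Option (Fin r)} {f' : V' → Option (Fin r)} {w u : V}
    {w' u' : V'} {v : Fin r → V} {v' : Fin r → V'} {i : Fin r} (h : Ty2 G f w u v i)
    (h' : Ty2 G' f' w' u' v' i) (hs : ∀ t, siz f t = siz f' t)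
    (hn : ∀ t, nbn G f w t = nbn G' f' w' t) (hex : ∃! t, t ≠ i ∧ ¬ G.Adj w (v t))
    (hex' : ∃! t, t ≠ i ∧ ¬ G'.Adj w' (v' t)) : lam G ≤ lam G' := by
  have : Nonempty V := ⟨w⟩
  have : Nonempty V' := ⟨w'⟩
  have hl := lam_pos hP h
  obtain ⟨-, -, x, -, hx1, hx⟩ := hP V G
  have hsol := sol_of_eig h hex hx
  have e1 : siz f = siz f' := funext hs
  have e2 : nbn G f w = nbn G' f' w' := funext hn
  rw [e1, e2] at hsol
  obtain ⟨x', hx', hw', hu', hX'⟩ := eig_of_sol h' hex' hl hsol
  obtain ⟨-, h2, -⟩ := hP V' G'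
  have h3 := h2 x'
  have h4 : qf G' x' = lam G * ∑ y, x' y ^ 2 := by
    unfold qf
    rw [mul_sum]
    refine sum_congr rfl fun y _ => ?_
    calc ∑ z, adj G' y z * (x' y * x' z) = x' y * ∑ z, adj G' y z * x' z := by
          rw [mul_sum]
          exact sum_congr rfl fun z _ => by ring
      _ = lam G * x' y ^ 2 := by rw [hx' y]; ring
  have h5 : 0 < ∑ y, x' y ^ 2 := by
    rcases (sum_nonneg fun y _ => sq_nonneg (x' y) : 0 ≤ ∑ y, x' y ^ 2).lt_or_eq with h6 | h6
    · exact h6
    · exfalso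
      have h7 : ∀ y, x' y = 0 := by
        intro y
        have := (sum_eq_zero_iff_of_nonneg fun y _ => sq_nonneg (x' y)).1 h6.symm y (mem_univ y)
        exact pow_eq_zero_iff (two_ne_zero) |>.1 this
      have h8 : ∀ t, cw x f (some t) = 0 := by
        intro t
        rw [← hX' t]
        unfold cw
        refine sum_eq_zero fun z _ => ?_
        rw [h7 z]
        split_ifs <;> rfl
      have h9 := zero_of_zero h hl hx (hw'.symm.trans (h7 w')) (hu'.symm.trans (h7 u')) h8
      rw [sum_congr rfl fun y _ => by rw [h9 y]] at hx1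
      simp at hx1
  rw [h4] at h3
  exact le_of_mul_le_mul_right h3 h5

end ItemTI2

theorem prfTI2 : P_statement → EIG2_statement → TI2_statement := by
  intro hP _ r V V' _ _ G G' f f' w u w' u' v v' i _ h h' _ hs hn hex hex'
  exact le_antisymm (ItemTI2.le hP h h' hs hn hex hex')
    (ItemTI2.le hP h' h (fun t => (hs t).symm) (fun t => (hn t).symm) hex' hex)

end MP0c3a8f

end

section

/-!
# UB1: upper bound for the defect, type one
-/

open Finset

namespace MP0c3a8f

namespace ItemUB1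

/-- `G` with the edge `p p'` -/
def H0 {V : Type} (G : SimpleGraph V) (p p' : V) (h : p ≠ p') : SimpleGraph V where
  Adj u v := G.Adj u v ∨ s(u, v) = s(p, p')
  symm := ⟨fun u v huv => huv.imp (fun h => h.symm) (fun h => by rw [Sym2.eq_swap]; exact h)⟩
  loopless := ⟨fun u hu => by
    rcases hu with hu | hu
    · exact G.loopless.irrefl u hu
    · rcases Sym2.eq_iff.1 hu with ⟨h1, h2⟩ | ⟨h1, h2⟩
      · exact h (h1.symm.trans h2)
      · exact h (h2.symm.trans h1)⟩

theorem qf_H0 {V : Type} [Fintype V] (G : SimpleGraph V) (p p' : V) (h : p ≠ p')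
    (hn : ¬ G.Adj p p') (x : V → ℝ) :
    qf (H0 G p p' h) x = qf G x + 2 * (x p * x p') := by
  classical
  have key : ∀ i j, adj (H0 G p p' h) i j * (x i * x j) = adj G i j * (x i * x j)
      + ((if i = p ∧ j = p' then x i * x j else 0) + (if i = p' ∧ j = p then x i * x j else 0)) := by
    intro i j
    unfold adj
    by_cases h1 : i = p ∧ j = p'
    · obtain ⟨rfl, rfl⟩ := h1
      have : ¬ (i = j ∧ j = i) := fun h' => h h'.1
      simp [H0, hn, this]
    · by_cases h2 : i = p' ∧ j = p
      · obtain ⟨rfl, rfl⟩ := h2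
        have hn' : ¬ G.Adj i j := fun h' => hn h'.symm
        have : ¬ (i = j ∧ j = i) := fun h' => h h'.1.symm
        simp [H0, hn', this, Sym2.eq_swap]
      · simp [H0, h1, h2]
  have e1 : ∑ i, ∑ j, (if i = p ∧ j = p' then x i * x j else 0) = x p * x p' := by
    rw [Finset.sum_eq_single p]
    · rw [Finset.sum_eq_single p']
      · simp
      · intro b _ hb
        simp [hb]
      · simp
    · intro b _ hb
      simp [hb]
    · simp
  have e2 : ∑ i, ∑ j, (if i = p' ∧ j = p then x i * x j else 0) = x p' * x p := by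
    rw [Finset.sum_eq_single p']
    · rw [Finset.sum_eq_single p]
      · simp
      · intro b _ hb
        simp [hb]
      · simp
    · intro b _ hb
      simp [hb]
    · simp
  unfold qf
  simp_rw [key, Finset.sum_add_distrib]
  rw [e1, e2]
  ring

theorem qf_eig {V : Type} [Fintype V] (G : SimpleGraph V) (x : V → ℝ) (l : ℝ)
    (h1 : ∑ i, x i ^ 2 = 1) (h : ∀ i, ∑ j, adj G i j * x j = l * x i) : qf G x = l := by
  unfold qf
  have : ∀ i, ∑ j, adj G i j * (x i * x j) = l * x i ^ 2 := by
    intro i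
    have : ∀ j, adj G i j * (x i * x j) = x i * (adj G i j * x j) := fun j => by ring
    simp_rw [this, ← Finset.mul_sum, h i]
    ring
  simp_rw [this, ← Finset.mul_sum, h1, mul_one]

theorem isKU {V : Type} {r : ℕ} {G : SimpleGraph V} {f : V → Option (Fin r)} {w p p' : V}
    {i j : Fin r} (hT : Ty1 G f w p p' i j) (h : p ≠ p') : IsKU (H0 G p p' h) f {w} where
  core u v hu hv := by
    have hc := hT.core u v hu hv
    change G.Adj u v ∨ s(u, v) = s(p, p') ↔ _
    rw [hc]
    constructor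
    · rintro (h1 | h1)
      · exact h1.1
      · rcases Sym2.eq_iff.1 h1 with ⟨rfl, rfl⟩ | ⟨rfl, rfl⟩
        · rw [hT.hp, hT.hp']
          exact fun h' => hT.ij (Option.some.inj h')
        · rw [hT.hp, hT.hp']
          exact fun h' => hT.ij (Option.some.inj h').symm
    · intro h1
      by_cases h2 : s(u, v) = s(p, p')
      · exact Or.inr h2
      · exact Or.inl ⟨h1, h2⟩
  exc v hv := by
    rw [Finset.mem_singleton] at hv
    exact (hT.out v).2 hv
  iso u v hu hu' := by
    exact absurd (Finset.mem_singleton.2 ((hT.out u).1 hu)) hu'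

theorem nbn_H0 {V : Type} {r : ℕ} {G : SimpleGraph V} {f : V → Option (Fin r)} {w p p' : V}
    {i j : Fin r} (hT : Ty1 G f w p p' i j) (h : p ≠ p') :
    nbn (H0 G p p' h) f w = nbn G f w := by
  funext t
  unfold nbn
  congr 1
  ext v
  have hw : f w = none := (hT.out w).2 rfl
  have h1 : w ≠ p := by
    rintro rfl
    rw [hT.hp] at hw
    exact absurd hw (by simp)
  have h2 : w ≠ p' := by
    rintro rfl
    rw [hT.hp'] at hw
    exact absurd hw (by simp)
  simp [H0, h1, h2]

theorem not_adj {V : Type} {r : ℕ} {G : SimpleGraph V} {f : V → Option (Fin r)} {w p p' : V}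
    {i j : Fin r} (hT : Ty1 G f w p p' i j) : ¬ G.Adj p p' := by
  intro h
  have := (hT.core p p' (by rw [hT.hp]; simp) (by rw [hT.hp']; simp)).1 h
  exact this.2 rfl

theorem miss1 {V : Type} {r : ℕ} {G : SimpleGraph V} {f : V → Option (Fin r)} {w p p' : V}
    {i j : Fin r} (hT : Ty1 G f w p p' i j) : (missSet G f).ncard = 1 := by
  have : missSet G f = {s(p, p')} := by
    ext e
    constructor
    · rintro ⟨u, v, rfl, hu, hv, huv, hn⟩
      rw [Set.mem_singleton_iff]
      by_contra h
      exact hn ((hT.core u v hu hv).2 ⟨huv, h⟩)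
    · intro he
      rw [Set.mem_singleton_iff] at he
      refine ⟨p, p', he, by rw [hT.hp]; simp, by rw [hT.hp']; simp, ?_, not_adj hT⟩
      rw [hT.hp, hT.hp']
      exact fun h' => hT.ij (Option.some.inj h')
  rw [this, Set.ncard_singleton]

theorem light0 {V : Type} {r : ℕ} {G : SimpleGraph V} {f : V → Option (Fin r)} {w p p' : V}
    {i j : Fin r} (hT : Ty1 G f w p p' i j) : (lightSet G f {w}).ncard = 0 := by
  have : lightSet G f {w} = ∅ := by
    ext e
    constructor
    · rintro ⟨_, v, _, hv, hv'⟩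
      exact absurd (Finset.mem_singleton.2 ((hT.out v).1 hv)) hv'
    · intro h
      exact absurd h (Set.notMem_empty e)
  rw [this, Set.ncard_empty]

theorem indep {V : Type} {r : ℕ} {G : SimpleGraph V} {f : V → Option (Fin r)} {w p p' : V}
    {i j : Fin r} (hT : Ty1 G f w p p' i j) : Indep G f := by
  intro u v hu huv h
  exact ((hT.core u v hu (huv ▸ hu)).1 h).1 huv

theorem dev_eq {r : ℕ} (hr : 1 ≤ r) (σ : Fin r → ℕ) :
    dev σ = ∑ t, (σ t : ℝ) ^ 2 - (∑ t, (σ t : ℝ)) ^ 2 / r := by
  unfold dev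
  have h0 : (r : ℝ) ≠ 0 := by positivity
  have : ∀ t, ((σ t : ℝ) - (∑ s, (σ s : ℝ)) / r) ^ 2
      = (σ t : ℝ) ^ 2 - 2 * ((∑ s, (σ s : ℝ)) / r) * σ t + ((∑ s, (σ s : ℝ)) / r) ^ 2 := by
    intro t
    ring
  simp_rw [this, Finset.sum_add_distrib, Finset.sum_sub_distrib, ← Finset.mul_sum]
  rw [Finset.sum_const, Finset.card_univ, Fintype.card_fin, nsmul_eq_mul]
  field_simp
  ring

theorem dev_nonneg {r : ℕ} (σ : Fin r → ℕ) : 0 ≤ dev σ := by
  unfold dev
  positivity

theorem abs_le_sqrt_dev {r : ℕ} (σ : Fin r → ℕ) (t : Fin r) :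
    |(σ t : ℝ) - (∑ s, (σ s : ℝ)) / r| ≤ Real.sqrt (dev σ) := by
  apply Real.abs_le_sqrt
  unfold dev
  exact Finset.single_le_sum (f := fun t => ((σ t : ℝ) - (∑ s, (σ s : ℝ)) / r) ^ 2)
    (fun t _ => sq_nonneg _) (Finset.mem_univ t)

theorem fin_arith {q n N L l b M ε s C B : ℝ} (hN : 0 ≤ N) (hn : 1 ≤ n) (hε : 0 < ε)
    (_hq0 : 0 ≤ q) (hq1 : q ≤ 1) (hC : 0 ≤ C * (1 + s)) (hB : B = 1 + C * (1 + s))
    (hb : b = 1 / n * (1 + C * (1 + s) / n)) (hL1 : n / 2 ≤ L) (hL2 : L ≤ q * n + (N + 10))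
    (hL3 : M - ε / 4 ≤ L ^ 2) (hlL : L - 2 * b ≤ l) (hnB : 4 * B ≤ n)
    (hnX : 16 * ((N + 10) * B + C * (1 + s)) / ε ≤ n) : M - ε / 2 - 4 * q ≤ l ^ 2 := by
  have hn0 : 0 < n := by linarith
  have hnb : n * b = 1 + C * (1 + s) / n := by
    rw [hb]
    field_simp
  have hnb' : n * b ≤ B := by
    rw [hnb, hB]
    have : C * (1 + s) / n ≤ C * (1 + s) := div_le_self hC hn
    linarith
  have hb0 : 0 ≤ b := by rw [hb]; positivity
  have hpos : 0 ≤ L - 2 * b := by
    have h1 : n * (2 * b) ≤ n * (n / 2) := by nlinarith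
    have h2 : 2 * b ≤ n / 2 := le_of_mul_le_mul_left h1 hn0
    linarith
  have hsq : (L - 2 * b) ^ 2 ≤ l ^ 2 := pow_le_pow_left₀ hpos hlL 2
  have hLb : 4 * (L * b) ≤ 4 * q + ε / 4 := by
    have h1 : L * b ≤ (q * n + (N + 10)) * b := mul_le_mul_of_nonneg_right hL2 hb0
    have h2 : (q * n + (N + 10)) * b = q * (n * b) + (N + 10) * b := by ring
    have h3 : q * (n * b) ≤ q + C * (1 + s) / n := by
      rw [hnb]
      have : 0 ≤ C * (1 + s) / n := by positivity
      nlinarith
    have h4 : b ≤ B / n := by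
      rw [le_div_iff₀ hn0]
      linarith
    have h5 : (N + 10) * b ≤ (N + 10) * (B / n) :=
      mul_le_mul_of_nonneg_left h4 (by linarith)
    have h6 : C * (1 + s) / n + (N + 10) * (B / n) ≤ ε / 16 := by
      have h7 : C * (1 + s) / n + (N + 10) * (B / n) = ((N + 10) * B + C * (1 + s)) / n := by
        ring
      rw [h7, div_le_iff₀ hn0]
      rw [div_le_iff₀ hε] at hnX
      linarith
    linarith
  have h1 : (L - 2 * b) ^ 2 = L ^ 2 - 4 * (L * b) + 4 * b ^ 2 := by ring
  have h2 : 0 ≤ 4 * b ^ 2 := by positivity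
  linarith

end ItemUB1

open ItemUB1 in
theorem prfUB1 : P_statement → KW3_statement → SEC_statement → CNTU_statement → UB1_statement := by
  intro hP hK hS hC r N ε hr hε
  obtain ⟨C, n₁, hC0, hK⟩ := hK r 1 hr
  obtain ⟨n₂, hS⟩ := hS r N (ε / 4) hr (by positivity)
  set s : ℝ := Real.sqrt N with hs
  have hs0 : 0 ≤ s := Real.sqrt_nonneg _
  set B : ℝ := 1 + C * (1 + s) with hB
  have hB1 : 1 ≤ B := by
    have : 0 ≤ C * (1 + s) := by positivity
    linarith
  obtain ⟨n₃, hn₃⟩ := exists_nat_ge (4 * r * s + 4 * B + 16 * ((N + 10) * B + C * (1 + s)) / ε + 1)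
  refine ⟨max n₁ (max n₂ n₃), ?_⟩
  intro V _ G f w p p' i j n hn hT hsz hdev
  have hn1 : n₁ ≤ n := le_trans (le_max_left _ _) hn
  have hn2 : n₂ ≤ n := le_trans (le_trans (le_max_left _ _) (le_max_right _ _)) hn
  have hn3 : n₃ ≤ n := le_trans (le_trans (le_max_right _ _) (le_max_right _ _)) hn
  have hn3' : (n₃ : ℝ) ≤ n := by exact_mod_cast hn3
  have hr0 : (0 : ℝ) < r := by
    have : (3 : ℝ) ≤ r := by exact_mod_cast hr
    linarith
  have hrs : 0 ≤ 4 * r * s := by positivity
  have hX : 0 ≤ 16 * ((N + 10) * B + C * (1 + s)) / ε := by positivity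
  have hnr : 4 * r * s ≤ n := by linarith
  have hnB : 4 * B ≤ n := by linarith
  have hnX : 16 * ((N + 10) * B + C * (1 + s)) / ε ≤ n := by linarith
  have hnpos : (1 : ℝ) ≤ n := by linarith
  have hn0 : (0 : ℝ) < n := by linarith
  have hpp : p ≠ p' := by
    rintro rfl
    have := hT.hp.symm.trans hT.hp'
    exact hT.ij (Option.some.inj this)
  have : Nonempty V := ⟨p⟩
  obtain ⟨_, _, x, hx0, hx1, hxe⟩ := hP V (H0 G p p' hpp)
  have hsum : (∑ t, (siz f t : ℝ)) = n := by
    rw [← hsz]
    push_cast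
    rfl
  have hKU := isKU hT hpp
  have hdevs : Real.sqrt (dev (siz f)) ≤ s := Real.sqrt_le_sqrt hdev
  have hdd : ∀ t, |(siz f t : ℝ) - (n : ℝ) / r| ≤ n / (4 * (r : ℝ)) := by
    intro t
    have h1 := abs_le_sqrt_dev (siz f) t
    rw [hsum] at h1
    refine h1.trans (hdevs.trans ?_)
    rw [le_div_iff₀ (by positivity)]
    linarith
  obtain ⟨hl1, _, hl3, _⟩ := hK V (H0 G p p' hpp) f {w} x n hKU (by simp) hn1 hsz hdd hx0 hx1 hxe
  obtain ⟨hS1, hS2⟩ := hS V (H0 G p p' hpp) f w n hn2 hKU hsz hdev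
  rw [nbn_H0 hT hpp] at hS1
  set L := lam (H0 G p p' hpp) with hL
  set M := Mu r (siz f) (nbn G f w) with hM
  have hS1' : M - ε / 4 ≤ L ^ 2 := by
    have := (abs_le.1 hS1).1
    linarith
  have hS2' : L ≤ qq r * n + (N + 10) := by
    have := (abs_le.1 hS2).2
    linarith
  -- the entries
  have hb : ∀ v, f v ≠ none → x v ^ 2 ≤ 1 / n * (1 + C * (1 + s) / n) := by
    intro v hv
    refine (hl3 v hv).trans ?_
    gcongr
  have hbp := hb p (by rw [hT.hp]; simp)
  have hbp' := hb p' (by rw [hT.hp']; simp)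
  set b : ℝ := 1 / n * (1 + C * (1 + s) / n) with hbdef
  have hxx : x p * x p' ≤ b := by nlinarith [sq_nonneg (x p - x p')]
  -- lower bound for lam G
  have hq := qf_H0 G p p' hpp (not_adj hT) x
  rw [qf_eig _ _ _ hx1 hxe] at hq
  have hlG : L - 2 * b ≤ lam G := by
    have h1 := (hP V G).2.1 x
    rw [hx1, mul_one] at h1
    have : L = qf G x + 2 * (x p * x p') := hq
    linarith
  have hCs : 0 ≤ C * (1 + s) := by positivity
  have hq1 : qq r ≤ 1 := by
    unfold qq
    have : 0 ≤ 1 / (r : ℝ) := by positivity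
    linarith
  have hq0 : 0 ≤ qq r := by
    unfold qq
    have : 1 / (r : ℝ) ≤ 1 := by
      rw [div_le_one hr0]
      have : (3 : ℝ) ≤ r := by exact_mod_cast hr
      linarith
    linarith
  have hfin : M - ε / 2 - 4 * qq r ≤ lam G ^ 2 :=
    fin_arith (Nat.cast_nonneg N) hnpos hε hq0 hq1 hCs hB hbdef hl1 hS2' hS1' hlG hnB hnX
  -- the number of edges
  obtain ⟨e, he, hcnt⟩ := hC r V G f {w} (indep hT) (by
    intro v hv
    rw [Finset.mem_singleton] at hv
    exact (hT.out v).2 hv)
  have he0 : e = 0 := by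
    rw [Finset.card_singleton] at he
    omega
  rw [he0, miss1 hT, light0 hT, hsz, Finset.sum_singleton] at hcnt
  have hcnt' : 2 * (G.edgeSet.ncard : ℝ) + 2 * 1 + ∑ t, (siz f t : ℝ) ^ 2
      = (n : ℝ) ^ 2 + 2 * (∑ t, (nbn G f w t : ℝ)) + 2 * 0 + 2 * 0 := by
    exact_mod_cast hcnt
  have hde := dev_eq (by omega : 1 ≤ r) (siz f)
  rw [hsum] at hde
  have hE : 2 * (G.edgeSet.ncard : ℝ)
      = qq r * n ^ 2 - dev (siz f) + 2 * (∑ t, (nbn G f w t : ℝ)) - 2 := by
    rw [hde]
    unfold qq
    have : (1 - 1 / (r : ℝ)) * (n : ℝ) ^ 2 = n ^ 2 - (n : ℝ) ^ 2 / r := by ring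
    rw [this]
    linarith
  have hKap : Kap r (siz f) (nbn G f w) = qq r * (qq r * (n : ℝ) ^ 2 - dev (siz f))
      + 2 * qq r * ∑ t, (nbn G f w t : ℝ) - M := by
    unfold Kap
    rw [hsum]
  rw [hKap]
  have h8 : 2 * qq r * (G.edgeSet.ncard : ℝ) = qq r * (2 * G.edgeSet.ncard) := by ring
  rw [h8, hE]
  have h9 : qq r * (qq r * (n : ℝ) ^ 2 - dev (siz f) + 2 * (∑ t, (nbn G f w t : ℝ)) - 2)
      = qq r * (qq r * (n : ℝ) ^ 2 - dev (siz f)) + 2 * qq r * ∑ t, (nbn G f w t : ℝ)
        - 2 * qq r := by ring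
  rw [h9]
  linarith

end MP0c3a8f

end

section

/-!
# ZMAX: the eigenvector is bounded
-/

open Finset

namespace MP0c3a8f

theorem prfZMAX : NRML_statement → ZMAX_statement := by
  classical
  intro hN r C hr hC
  obtain ⟨C₂, hC₂, h⟩ := hN r C hr hC
  obtain ⟨K, M₀, hK⟩ := h (1 / 4) (by norm_num) le_rfl
  refine ⟨2 * (3 + C), by linarith, ⌈(max (max M₀ (2 * (K + 2 * C₂))) 1) ^ 2⌉₊, ?_⟩
  intro V _ G z f l m hm hZ hml hL v
  set B : ℝ := max (max M₀ (2 * (K + 2 * C₂))) 1 with hB
  have hB1 : (1 : ℝ) ≤ B := le_max_right _ _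
  have hBm : B ^ 2 ≤ (m : ℝ) := le_trans (Nat.le_ceil _) (by exact_mod_cast hm)
  set s : ℝ := Real.sqrt m with hs
  have hBs : B ≤ s := Real.le_sqrt_of_sq_le hBm
  have hs1 : 1 ≤ s := le_trans hB1 hBs
  have hsm : s ^ 2 = m := Real.sq_sqrt (Nat.cast_nonneg m)
  have hsl : s ≤ l := by
    have := hZ.lpos
    nlinarith
  have hM0 : M₀ ≤ s := le_trans (le_trans (le_max_left _ _) (le_max_left _ _)) hBs
  have hK0 : 2 * (K + 2 * C₂) ≤ s := le_trans (le_trans (le_max_right _ _) (le_max_left _ _)) hBs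
  obtain ⟨h1, h2⟩ := hK s V G z f hM0 hL
  obtain ⟨w, -, hw⟩ := Finset.exists_max_image (Finset.univ : Finset V) z ⟨v, mem_univ v⟩
  have hwv : ∀ u, z u ≤ z w := fun u => hw u (mem_univ u)
  refine le_trans (hwv v) ?_
  have hw0 : 0 ≤ z w := hZ.nonneg w
  have hadj : ∀ i j, adj G i j = 0 ∨ adj G i j = 1 := by
    intro i j
    unfold adj
    split_ifs <;> simp
  have hadj0 : ∀ i j, 0 ≤ adj G i j := by
    intro i j
    rcases hadj i j with h | h <;> rw [h] <;> norm_num
  have hsum2 : ∑ u, z u ^ 2 ≤ 2 * s := by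
    have h3 := hZ.norm
    have h4 : 0 ≤ ∑ u, z u ^ 2 := Finset.sum_nonneg fun u _ => sq_nonneg _
    have h5 : s * ∑ u, z u ^ 2 ≤ s * (2 * s) := by
      calc s * ∑ u, z u ^ 2 ≤ l * ∑ u, z u ^ 2 := mul_le_mul_of_nonneg_right hsl h4
        _ = 2 * m := h3
        _ = s * (2 * s) := by rw [← hsm]; ring
    exact le_of_mul_le_mul_left h5 (by linarith)
  have hrow : ∑ u, adj G w u * (z w * z u - 1) ^ 2 ≤ C * s := by
    refine le_trans ?_ hL.ed
    exact Finset.single_le_sum (f := fun i => ∑ j, adj G i j * (z i * z j - 1) ^ 2)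
      (fun i _ => Finset.sum_nonneg fun j _ => mul_nonneg (hadj0 i j) (sq_nonneg _)) (mem_univ w)
  set S : Set V := {v | 1 / 4 < z v ∧ ¬ (f v ≠ none ∧ |z v - 1| ≤ 1 / 4)} with hS
  have hpt : ∀ u, adj G w u * z u ≤ 4 / 3 * z u ^ 2 + (if u ∈ S then z w else 0) +
      adj G w u * (z w * z u - 1) ^ 2 + 2 * z w * (if z u ≤ 1 / 4 then z u ^ 2 else 0) := by
    intro u
    have hu0 := hZ.nonneg u
    have t1 : 0 ≤ 4 / 3 * z u ^ 2 := by positivity
    have t2 : (0 : ℝ) ≤ if u ∈ S then z w else 0 := by split_ifs <;> simp [hw0]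
    have t3 : 0 ≤ adj G w u * (z w * z u - 1) ^ 2 := mul_nonneg (hadj0 _ _) (sq_nonneg _)
    have t4 : 0 ≤ 2 * z w * (if z u ≤ 1 / 4 then z u ^ 2 else 0) := by
      split_ifs
      · positivity
      · simp
    have ha : adj G w u * z u ≤ z u := by
      rcases hadj w u with h | h <;> rw [h] <;> linarith
    by_cases hq : z u ≤ 1 / 4
    · by_cases hp : z u * z w ≤ 1 / 2
      · have h5 : adj G w u * z u ≤ adj G w u * (z w * z u - 1) ^ 2 := by
          apply mul_le_mul_of_nonneg_left _ (hadj0 _ _)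
          nlinarith
        linarith
      · have h5 : z u ≤ 2 * z w * (if z u ≤ 1 / 4 then z u ^ 2 else 0) := by
          rw [if_pos hq]
          push Not at hp
          nlinarith
        linarith
    · by_cases hSu : u ∈ S
      · rw [if_pos hSu] at t2 ⊢
        have := hwv u
        linarith
      · have h6 : |z u - 1| ≤ 1 / 4 := by
          by_contra h7
          exact hSu ⟨not_le.1 hq, fun h8 => h7 h8.2⟩
        have h7 := (abs_le.1 h6).1
        have h8 : z u ≤ 4 / 3 * z u ^ 2 := by nlinarith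
        linarith
  have hcard : ∑ u, (if u ∈ S then z w else 0) ≤ K * z w := by
    rw [← Finset.sum_filter, Finset.sum_const, nsmul_eq_mul]
    apply mul_le_mul_of_nonneg_right _ hw0
    have h5 : (Finset.univ.filter fun u => u ∈ S).card = S.ncard := by
      rw [← Set.ncard_coe_finset]
      congr 1
      ext u
      simp
    rw [h5]
    exact_mod_cast h1
  have htot : l * z w ≤ 4 / 3 * (2 * s) + K * z w + C * s + 2 * z w * C₂ := by
    rw [← hZ.eig w]
    calc ∑ u, adj G w u * z u
        ≤ ∑ u, (4 / 3 * z u ^ 2 + (if u ∈ S then z w else 0) +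
          adj G w u * (z w * z u - 1) ^ 2 + 2 * z w * (if z u ≤ 1 / 4 then z u ^ 2 else 0)) :=
          Finset.sum_le_sum fun u _ => hpt u
      _ = 4 / 3 * ∑ u, z u ^ 2 + ∑ u, (if u ∈ S then z w else 0) +
          ∑ u, adj G w u * (z w * z u - 1) ^ 2 +
          2 * z w * ∑ u, (if z u ≤ 1 / 4 then z u ^ 2 else 0) := by
          rw [Finset.sum_add_distrib, Finset.sum_add_distrib, Finset.sum_add_distrib,
            Finset.mul_sum, Finset.mul_sum]
      _ ≤ 4 / 3 * (2 * s) + K * z w + C * s + 2 * z w * C₂ := by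
          have h6 : 2 * z w * ∑ u, (if z u ≤ 1 / 4 then z u ^ 2 else 0) ≤ 2 * z w * C₂ :=
            mul_le_mul_of_nonneg_left h2 (by positivity)
          have h7 : 4 / 3 * ∑ u, z u ^ 2 ≤ 4 / 3 * (2 * s) :=
            mul_le_mul_of_nonneg_left hsum2 (by norm_num)
          linarith
  have hlow : s / 2 * z w ≤ (l - K - 2 * C₂) * z w := by
    apply mul_le_mul_of_nonneg_right _ hw0
    linarith
  have hfin : s / 2 * z w ≤ s / 2 * (2 * (3 + C)) := by
    nlinarith
  exact le_of_mul_le_mul_left hfin (by linarith)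

end MP0c3a8f

end

section

/-!
# MP_0c3a8f_co, phase B: item MV1
-/

open Finset

namespace MP0c3a8f

open Classical in
lemma MV.adj1 {V : Type} {r : ℕ} {G G' : SimpleGraph V} {f : V → Option (Fin r)}
    {w p p' : V} {i j k l : Fin r} {M M' : Finset V} (hG : Ty1 G f w p p' i j)
    (hG' : Ty1 G' f w p p' i j) (hkl : k ≠ l) (hM : ∀ y ∈ M, f y = some k ∧ G.Adj w y)
    (hM' : ∀ y ∈ M', f y = some l ∧ ¬ G.Adj w y)
    (h : ∀ y, G'.Adj w y ↔ (G.Adj w y ∧ y ∉ M) ∨ y ∈ M') (a b : V) :
    adj G' a b = adj G a b + (if a = w ∧ b ∈ M' then 1 else 0) +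
      (if b = w ∧ a ∈ M' then 1 else 0) - (if a = w ∧ b ∈ M then 1 else 0) -
      (if b = w ∧ a ∈ M then 1 else 0) := by
  have hfw : f w = none := (hG.out w).2 rfl
  have hwM : w ∉ M := fun h1 => by
    have := (hM w h1).1
    rw [hfw] at this
    exact absurd this (by simp)
  have hwM' : w ∉ M' := fun h1 => by
    have := (hM' w h1).1
    rw [hfw] at this
    exact absurd this (by simp)
  -- the case `a = w`
  have key : ∀ b, adj G' w b = adj G w b + (if b ∈ M' then 1 else 0) -
      (if b ∈ M then 1 else 0) := by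
    intro b
    unfold adj
    by_cases h1 : b ∈ M
    · have h2 : b ∉ M' := fun h3 => by
        have e1 := (hM b h1).1
        have e2 := (hM' b h3).1
        rw [e1] at e2
        exact hkl (Option.some.inj e2)
      have h3 : ¬ G'.Adj w b := by
        rw [h b]
        rintro (h4 | h4)
        · exact h4.2 h1
        · exact h2 h4
      rw [if_neg h3, if_pos (hM b h1).2, if_neg h2, if_pos h1]
      norm_num
    · by_cases h2 : b ∈ M'
      · rw [if_pos ((h b).2 (Or.inr h2)), if_neg (hM' b h2).2, if_pos h2, if_neg h1]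
        norm_num
      · have h3 : G'.Adj w b ↔ G.Adj w b := by
          rw [h b]
          constructor
          · rintro (h4 | h4)
            · exact h4.1
            · exact absurd h4 h2
          · intro h4
            exact Or.inl ⟨h4, h1⟩
        rw [if_neg h2, if_neg h1, add_zero, sub_zero]
        simp only [h3]
  by_cases ha : a = w
  · subst ha
    rw [key b]
    by_cases hb : b = a
    · subst hb
      simp [hwM, hwM']
    · have e1 : (b = a ∧ a ∈ M') ↔ False := by simp [hb]
      have e2 : (b = a ∧ a ∈ M) ↔ False := by simp [hb]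
      simp only [e1, e2, if_false, true_and]
      ring
  · by_cases hb : b = w
    · subst hb
      rw [MV.adj_symm G' a b, MV.adj_symm G a b, key a]
      have e1 : (a = b ∧ b ∈ M') ↔ False := by simp [ha]
      have e2 : (a = b ∧ b ∈ M) ↔ False := by simp [ha]
      simp only [e1, e2, if_false, true_and]
      ring
    · have e1 : (a = w ∧ b ∈ M') ↔ False := by simp [ha]
      have e2 : (a = w ∧ b ∈ M) ↔ False := by simp [ha]
      have e3 : (b = w ∧ a ∈ M') ↔ False := by simp [hb]
      have e4 : (b = w ∧ a ∈ M) ↔ False := by simp [hb]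
      simp only [e1, e2, e3, e4, if_false]
      have e5 : G'.Adj a b ↔ G.Adj a b := by
        have hfa : f a ≠ none := fun h1 => ha ((hG.out a).1 h1)
        have hfb : f b ≠ none := fun h1 => hb ((hG.out b).1 h1)
        rw [hG.core a b hfa hfb, hG'.core a b hfa hfb]
      unfold adj
      simp only [e5]
      ring

theorem prfMV1 : P_statement → EIG1_statement → GAP1_statement → MV1_statement := by
  intro hP hE hGap r ε hr hε
  obtain ⟨n₀, hn₀⟩ := hGap r ε hr hε
  refine ⟨max n₀ 1, ?_⟩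
  intro V _ G G' f w p p' i j k l M M' n hn hG hG' hbal hlow hup hkl hne hMM hM hM' hw hcase
  have hn0 : n₀ ≤ n := (le_max_left _ _).trans hn
  have hn1 : 1 ≤ n := (le_max_right _ _).trans hn
  have hnR : (0 : ℝ) < n := by exact_mod_cast hn1
  have : Nonempty V := ⟨w⟩
  obtain ⟨-, -, x, hx, hx1, hxe⟩ := hP V G
  obtain ⟨-, -, x', hx', hx1', hxe'⟩ := hP V G'
  have hx0 : x ≠ 0 := by
    rintro rfl
    simp at hx1
  have hx0' : x' ≠ 0 := by
    rintro rfl
    simp at hx1'
  obtain ⟨m1, m2, m3⟩ := MV.nbn_move hkl (fun y hy => ⟨(hM y hy).1, (hM y hy).2.1⟩)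
    (fun y hy => ⟨(hM' y hy).1, (hM' y hy).2.1⟩) (fun y _ => hw y)
  have hsum := MV.sum_nbn hkl hMM m1 m2 m3
  obtain ⟨g1, g2, g3, -, g5⟩ := hn₀ V G f w p p' i j x n hn0 hG hbal hlow hup hx hx0 hxe
  obtain ⟨g1', g2', g3', -, g5'⟩ := hn₀ V G' f w p p' i j x' n hn0 hG' hbal
    (by rw [hsum]; exact hlow) (by rw [hsum]; exact hup) hx' hx0' hxe'
  obtain ⟨q1, -, -, q4, -⟩ := hE r V G f w p p' i j x (lam G) hG hxe
  obtain ⟨q1', -, -, q4', -⟩ := hE r V G' f w p p' i j x' (lam G') hG' hxe'
  have hl : 0 < lam G := by linarith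
  have hl' : 0 < lam G' := by linarith
  have hdiff : 0 < cw x f (some k) - cw x f (some l) ∧
      0 ≤ cw x' f (some k) - cw x' f (some l) := by
    rcases hcase with hc | ⟨hc, hki, hkj, hli, hlj, hcc⟩
    · refine ⟨lt_of_lt_of_le (by positivity) (g5 k l hc).1,
        le_trans (by positivity) (g5' k l hc).1⟩
    · have hMc : (1 : ℝ) ≤ M.card := by exact_mod_cast hne.card_pos
      have hccR : (nbn G f w l : ℝ) + 2 * M.card ≤ nbn G f w k := by exact_mod_cast hcc
      have m1R : (nbn G' f w k : ℝ) + M.card = nbn G f w k := by exact_mod_cast m1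
      have m2R : (nbn G' f w l : ℝ) = nbn G f w l + M.card := by rw [hMM]; exact_mod_cast m2
      have hs : (siz f k : ℝ) = siz f l := by exact_mod_cast hc
      have hs0 : (0 : ℝ) ≤ siz f l := Nat.cast_nonneg _
      constructor
      · have k1 := q4 k
        have k2 := q4 l
        rw [if_neg hki, if_neg hkj] at k1
        rw [if_neg hli, if_neg hlj] at k2
        rw [hs] at k1
        have k3 : (lam G + siz f l) * (cw x f (some k) - cw x f (some l)) =
            (nbn G f w k - nbn G f w l) * x w := by linear_combination k1 - k2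
        have k4 : 0 < ((nbn G f w k : ℝ) - nbn G f w l) * x w := by
          apply mul_pos _ g3
          linarith
        rw [← k3] at k4
        exact (pos_iff_pos_of_mul_pos k4).1 (by positivity)
      · have k1 := q4' k
        have k2 := q4' l
        rw [if_neg hki, if_neg hkj] at k1
        rw [if_neg hli, if_neg hlj] at k2
        rw [hs] at k1
        have k3 : (lam G' + siz f l) * (cw x' f (some k) - cw x' f (some l)) =
            (nbn G' f w k - nbn G' f w l) * x' w := by linear_combination k1 - k2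
        have k4 : 0 ≤ ((nbn G' f w k : ℝ) - nbn G' f w l) * x' w := by
          apply mul_nonneg _ g3'.le
          linarith
        rw [← k3] at k4
        exact nonneg_of_mul_nonneg_right k4 (by positivity)
  have hGM' : ∀ y ∈ M, ¬ G'.Adj w y := by
    intro y hy
    rw [hw y]
    rintro (h1 | h1)
    · exact h1.2 hy
    · have e1 := (hM y hy).1
      have e2 := (hM' y h1).1
      rw [e1] at e2
      exact hkl (Option.some.inj e2)
  have hGM : ∀ y ∈ M', G'.Adj w y := fun y hy => (hw y).2 (Or.inr hy)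
  refine MV.core (T := ∑ s, cw x f (some s)) (T' := ∑ s, cw x' f (some s)) hMM hne hx hx' hxe
    hxe' (MV.adj1 hG hG' hkl (fun y hy => ⟨(hM y hy).1, (hM y hy).2.1⟩)
    (fun y hy => ⟨(hM' y hy).1, (hM' y hy).2.1⟩) hw) hl hl' ?_ ?_ ?_ ?_ g3 g3' hdiff.1 hdiff.2
  · intro y hy
    obtain ⟨h1, h2, h3, h4⟩ := hM y hy
    have := q1 y k h1 h3 h4
    rwa [if_pos h2] at this
  · intro y hy
    obtain ⟨h1, h2, h3, h4⟩ := hM y hy
    have := q1' y k h1 h3 h4
    rwa [if_neg (hGM' y hy), add_zero] at this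
  · intro y hy
    obtain ⟨h1, h2, h3, h4⟩ := hM' y hy
    have := q1 y l h1 h3 h4
    rwa [if_neg h2, add_zero] at this
  · intro y hy
    obtain ⟨h1, h2, h3, h4⟩ := hM' y hy
    have := q1' y l h1 h3 h4
    rwa [if_pos (hGM y hy)] at this

end MP0c3a8f

end

section

/-!
# MP_0c3a8f_co, phase B: item MV2
-/

open Finset

namespace MP0c3a8f

open Classical in
lemma MV.adj2 {V : Type} {r : ℕ} {G G' : SimpleGraph V} {f : V → Option (Fin r)}
    {w u : V} {v : Fin r → V} {i k l : Fin r} {M M' : Finset V} (hG : Ty2 G f w u v i)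
    (hG' : Ty2 G' f w u v i) (hkl : k ≠ l) (hM : ∀ y ∈ M, f y = some k ∧ G.Adj w y)
    (hM' : ∀ y ∈ M', f y = some l ∧ ¬ G.Adj w y)
    (h : ∀ y, f y ≠ none → (G'.Adj w y ↔ (G.Adj w y ∧ y ∉ M) ∨ y ∈ M')) (a b : V) :
    adj G' a b = adj G a b + (if a = w ∧ b ∈ M' then 1 else 0) +
      (if b = w ∧ a ∈ M' then 1 else 0) - (if a = w ∧ b ∈ M then 1 else 0) -
      (if b = w ∧ a ∈ M then 1 else 0) := by
  have hfw : f w = none := (hG.out w).2 (Or.inl rfl)
  have hfu : f u = none := (hG.out u).2 (Or.inr rfl)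
  have hnM : ∀ y, f y = none → y ∉ M := fun y hy h1 => by
    have := (hM y h1).1
    rw [hy] at this
    exact absurd this (by simp)
  have hnM' : ∀ y, f y = none → y ∉ M' := fun y hy h1 => by
    have := (hM' y h1).1
    rw [hy] at this
    exact absurd this (by simp)
  -- the case `a = w`
  have key : ∀ b, adj G' w b = adj G w b + (if b ∈ M' then 1 else 0) -
      (if b ∈ M then 1 else 0) := by
    intro b
    unfold adj
    by_cases hb : f b = none
    · rw [if_neg (hnM b hb), if_neg (hnM' b hb), add_zero, sub_zero]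
      rcases (hG.out b).1 hb with h1 | h1
      · subst h1
        rw [if_neg (G.loopless.irrefl b), if_neg (G'.loopless.irrefl b)]
      · subst h1
        rw [if_pos hG.uw.symm, if_pos hG'.uw.symm]
    · have h0 := h b hb
      by_cases h1 : b ∈ M
      · have h2 : b ∉ M' := fun h3 => by
          have e1 := (hM b h1).1
          have e2 := (hM' b h3).1
          rw [e1] at e2
          exact hkl (Option.some.inj e2)
        have h3 : ¬ G'.Adj w b := by
          rw [h0]
          rintro (h4 | h4)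
          · exact h4.2 h1
          · exact h2 h4
        rw [if_neg h3, if_pos (hM b h1).2, if_neg h2, if_pos h1]
        norm_num
      · by_cases h2 : b ∈ M'
        · rw [if_pos (h0.2 (Or.inr h2)), if_neg (hM' b h2).2, if_pos h2, if_neg h1]
          norm_num
        · have h3 : G'.Adj w b ↔ G.Adj w b := by
            rw [h0]
            constructor
            · rintro (h4 | h4)
              · exact h4.1
              · exact absurd h4 h2
            · intro h4
              exact Or.inl ⟨h4, h1⟩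
          rw [if_neg h2, if_neg h1, add_zero, sub_zero]
          simp only [h3]
  by_cases ha : a = w
  · subst ha
    rw [key b]
    by_cases hb : b = a
    · subst hb
      simp [hnM _ hfw, hnM' _ hfw]
    · have e1 : (b = a ∧ a ∈ M') ↔ False := by simp [hb]
      have e2 : (b = a ∧ a ∈ M) ↔ False := by simp [hb]
      simp only [e1, e2, if_false, true_and]
      ring
  · by_cases hb : b = w
    · subst hb
      rw [MV.adj_symm G' a b, MV.adj_symm G a b, key a]
      have e1 : (a = b ∧ b ∈ M') ↔ False := by simp [ha]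
      have e2 : (a = b ∧ b ∈ M) ↔ False := by simp [ha]
      simp only [e1, e2, if_false, true_and]
      ring
    · have e1 : (a = w ∧ b ∈ M') ↔ False := by simp [ha]
      have e2 : (a = w ∧ b ∈ M) ↔ False := by simp [ha]
      have e3 : (b = w ∧ a ∈ M') ↔ False := by simp [hb]
      have e4 : (b = w ∧ a ∈ M) ↔ False := by simp [hb]
      simp only [e1, e2, e3, e4, if_false]
      have hun : ∀ y, y ≠ w → (G'.Adj u y ↔ G.Adj u y) := by
        intro y hy
        by_cases hfy : f y = none
        · rcases (hG.out y).1 hfy with h1 | h1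
          · exact absurd h1 hy
          · subst h1
            exact ⟨fun h2 => absurd h2 (G'.loopless.irrefl y),
              fun h2 => absurd h2 (G.loopless.irrefl y)⟩
        · rw [hG.un y hfy, hG'.un y hfy]
      have e5 : G'.Adj a b ↔ G.Adj a b := by
        by_cases hfa : f a = none
        · rcases (hG.out a).1 hfa with h1 | h1
          · exact absurd h1 ha
          · subst h1
            exact hun b hb
        · by_cases hfb : f b = none
          · rcases (hG.out b).1 hfb with h1 | h1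
            · exact absurd h1 hb
            · subst h1
              rw [G'.adj_comm, G.adj_comm]
              exact hun a ha
          · rw [hG.core a b hfa hfb, hG'.core a b hfa hfb]
      unfold adj
      simp only [e5]
      ring

theorem prfMV2 : P_statement → EIG2_statement → GAP2_statement → MV2_statement := by
  intro hP hE hGap r ε hr hε
  obtain ⟨n₀, hn₀⟩ := hGap r ε hr hε
  refine ⟨max n₀ 1, ?_⟩
  intro V _ G G' f w u v i k l M M' n hn hG hG' hbal hlow hup hkl hne hMM hM hM' hw hcase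
  have hn0 : n₀ ≤ n := (le_max_left _ _).trans hn
  have hn1 : 1 ≤ n := (le_max_right _ _).trans hn
  have hnR : (0 : ℝ) < n := by exact_mod_cast hn1
  have : Nonempty V := ⟨w⟩
  obtain ⟨-, -, x, hx, hx1, hxe⟩ := hP V G
  obtain ⟨-, -, x', hx', hx1', hxe'⟩ := hP V G'
  have hx0 : x ≠ 0 := by
    rintro rfl
    simp at hx1
  have hx0' : x' ≠ 0 := by
    rintro rfl
    simp at hx1'
  obtain ⟨m1, m2, m3⟩ := MV.nbn_move hkl (fun y hy => ⟨(hM y hy).1, (hM y hy).2.1⟩)
    (fun y hy => ⟨(hM' y hy).1, (hM' y hy).2.1⟩) hw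
  have hsum := MV.sum_nbn hkl hMM m1 m2 m3
  obtain ⟨g1, g2, g3, -, -, -, -, g5⟩ := hn₀ V G f w u v i x n hn0 hG hbal hlow hup hx hx0 hxe
  obtain ⟨g1', g2', g3', -, -, -, -, g5'⟩ := hn₀ V G' f w u v i x' n hn0 hG' hbal
    (by rw [hsum]; exact hlow) (by rw [hsum]; exact hup) hx' hx0' hxe'
  obtain ⟨q1, q4, -, -⟩ := hE r V G f w u v i x (lam G) hG hxe
  obtain ⟨q1', q4', -, -⟩ := hE r V G' f w u v i x' (lam G') hG' hxe'
  have hl : 0 < lam G := by linarith
  have hl' : 0 < lam G' := by linarith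
  have hdiff : 0 < cw x f (some k) - cw x f (some l) ∧
      0 ≤ cw x' f (some k) - cw x' f (some l) := by
    rcases hcase with hc | ⟨hc, hki, hli, hcc⟩
    · exact ⟨lt_of_lt_of_le (by positivity) (g5 k l hc),
        le_trans (by positivity) (g5' k l hc)⟩
    · have hMc : (1 : ℝ) ≤ M.card := by exact_mod_cast hne.card_pos
      have hccR : (nbn G f w l : ℝ) + 2 * M.card ≤ nbn G f w k := by exact_mod_cast hcc
      have m1R : (nbn G' f w k : ℝ) + M.card = nbn G f w k := by exact_mod_cast m1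
      have m2R : (nbn G' f w l : ℝ) = nbn G f w l + M.card := by rw [hMM]; exact_mod_cast m2
      have hs : (siz f k : ℝ) = siz f l := by exact_mod_cast hc
      have hs0 : (0 : ℝ) ≤ siz f l := Nat.cast_nonneg _
      constructor
      · have k1 := q4 k
        have k2 := q4 l
        rw [if_pos hki] at k1
        rw [if_pos hli] at k2
        rw [hs] at k1
        have k3 : (lam G + siz f l) * (cw x f (some k) - cw x f (some l)) =
            (nbn G f w k - nbn G f w l) * x w := by linear_combination k1 - k2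
        have k4 : 0 < ((nbn G f w k : ℝ) - nbn G f w l) * x w := by
          apply mul_pos _ g3
          linarith
        rw [← k3] at k4
        exact (pos_iff_pos_of_mul_pos k4).1 (by positivity)
      · have k1 := q4' k
        have k2 := q4' l
        rw [if_pos hki] at k1
        rw [if_pos hli] at k2
        rw [hs] at k1
        have k3 : (lam G' + siz f l) * (cw x' f (some k) - cw x' f (some l)) =
            (nbn G' f w k - nbn G' f w l) * x' w := by linear_combination k1 - k2
        have k4 : 0 ≤ ((nbn G' f w k : ℝ) - nbn G' f w l) * x' w := by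
          apply mul_nonneg _ g3'.le
          linarith
        rw [← k3] at k4
        exact nonneg_of_mul_nonneg_right k4 (by positivity)
  have hfM : ∀ y ∈ M, f y ≠ none := fun y hy => by rw [(hM y hy).1]; simp
  have hfM' : ∀ y ∈ M', f y ≠ none := fun y hy => by rw [(hM' y hy).1]; simp
  have hGM' : ∀ y ∈ M, ¬ G'.Adj w y := by
    intro y hy
    rw [hw y (hfM y hy)]
    rintro (h1 | h1)
    · exact h1.2 hy
    · have e1 := (hM y hy).1
      have e2 := (hM' y h1).1
      rw [e1] at e2
      exact hkl (Option.some.inj e2)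
  have hGM : ∀ y ∈ M', G'.Adj w y := fun y hy => (hw y (hfM' y hy)).2 (Or.inr hy)
  have hu : ∀ y, f y ≠ none → ¬ G.Adj u y → ¬ G'.Adj u y := by
    intro y hy h1
    rwa [hG'.un y hy, ← hG.un y hy]
  refine MV.core (T := ∑ s, cw x f (some s)) (T' := ∑ s, cw x' f (some s)) hMM hne hx hx' hxe
    hxe' (MV.adj2 hG hG' hkl (fun y hy => ⟨(hM y hy).1, (hM y hy).2.1⟩)
    (fun y hy => ⟨(hM' y hy).1, (hM' y hy).2.1⟩) hw) hl hl' ?_ ?_ ?_ ?_ g3 g3' hdiff.1 hdiff.2
  · intro y hy
    obtain ⟨h1, h2, h3⟩ := hM y hy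
    have := q1 y k h1
    rwa [if_pos h2, if_neg h3, add_zero] at this
  · intro y hy
    obtain ⟨h1, h2, h3⟩ := hM y hy
    have := q1' y k h1
    rwa [if_neg (hGM' y hy), if_neg (hu y (hfM y hy) h3), add_zero, add_zero] at this
  · intro y hy
    obtain ⟨h1, h2, h3⟩ := hM' y hy
    have := q1 y l h1
    rwa [if_neg h2, if_neg h3, add_zero, add_zero] at this
  · intro y hy
    obtain ⟨h1, h2, h3⟩ := hM' y hy
    have := q1' y l h1
    rwa [if_pos (hGM y hy), if_neg (hu y (hfM' y hy) h3), add_zero] at this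

end MP0c3a8f

end

section

/-!
# MP_0c3a8f_co, phase B: item MV0
-/

open Finset

namespace MP0c3a8f

open Classical in
lemma MV.adj0 {V : Type} {r : ℕ} {G G' : SimpleGraph V} {f : V → Option (Fin r)}
    {w : V} {k l : Fin r} {M M' : Finset V} (hG : Ty0 G f w)
    (hG' : Ty0 G' f w) (hkl : k ≠ l) (hM : ∀ y ∈ M, f y = some k ∧ G.Adj w y)
    (hM' : ∀ y ∈ M', f y = some l ∧ ¬ G.Adj w y)
    (h : ∀ y, G'.Adj w y ↔ (G.Adj w y ∧ y ∉ M) ∨ y ∈ M') (a b : V) :
    adj G' a b = adj G a b + (if a = w ∧ b ∈ M' then 1 else 0) +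
      (if b = w ∧ a ∈ M' then 1 else 0) - (if a = w ∧ b ∈ M then 1 else 0) -
      (if b = w ∧ a ∈ M then 1 else 0) := by
  have hfw : f w = none := (hG.out w).2 rfl
  have hwM : w ∉ M := fun h1 => by
    have := (hM w h1).1
    rw [hfw] at this
    exact absurd this (by simp)
  have hwM' : w ∉ M' := fun h1 => by
    have := (hM' w h1).1
    rw [hfw] at this
    exact absurd this (by simp)
  -- the case `a = w`
  have key : ∀ b, adj G' w b = adj G w b + (if b ∈ M' then 1 else 0) -
      (if b ∈ M then 1 else 0) := by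
    intro b
    unfold adj
    by_cases h1 : b ∈ M
    · have h2 : b ∉ M' := fun h3 => by
        have e1 := (hM b h1).1
        have e2 := (hM' b h3).1
        rw [e1] at e2
        exact hkl (Option.some.inj e2)
      have h3 : ¬ G'.Adj w b := by
        rw [h b]
        rintro (h4 | h4)
        · exact h4.2 h1
        · exact h2 h4
      rw [if_neg h3, if_pos (hM b h1).2, if_neg h2, if_pos h1]
      norm_num
    · by_cases h2 : b ∈ M'
      · rw [if_pos ((h b).2 (Or.inr h2)), if_neg (hM' b h2).2, if_pos h2, if_neg h1]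
        norm_num
      · have h3 : G'.Adj w b ↔ G.Adj w b := by
          rw [h b]
          constructor
          · rintro (h4 | h4)
            · exact h4.1
            · exact absurd h4 h2
          · intro h4
            exact Or.inl ⟨h4, h1⟩
        rw [if_neg h2, if_neg h1, add_zero, sub_zero]
        simp only [h3]
  by_cases ha : a = w
  · subst ha
    rw [key b]
    by_cases hb : b = a
    · subst hb
      simp [hwM, hwM']
    · have e1 : (b = a ∧ a ∈ M') ↔ False := by simp [hb]
      have e2 : (b = a ∧ a ∈ M) ↔ False := by simp [hb]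
      simp only [e1, e2, if_false, true_and]
      ring
  · by_cases hb : b = w
    · subst hb
      rw [MV.adj_symm G' a b, MV.adj_symm G a b, key a]
      have e1 : (a = b ∧ b ∈ M') ↔ False := by simp [ha]
      have e2 : (a = b ∧ b ∈ M) ↔ False := by simp [ha]
      simp only [e1, e2, if_false, true_and]
      ring
    · have e1 : (a = w ∧ b ∈ M') ↔ False := by simp [ha]
      have e2 : (a = w ∧ b ∈ M) ↔ False := by simp [ha]
      have e3 : (b = w ∧ a ∈ M') ↔ False := by simp [hb]
      have e4 : (b = w ∧ a ∈ M) ↔ False := by simp [hb]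
      simp only [e1, e2, e3, e4, if_false]
      have e5 : G'.Adj a b ↔ G.Adj a b := by
        have hfa : f a ≠ none := fun h1 => ha ((hG.out a).1 h1)
        have hfb : f b ≠ none := fun h1 => hb ((hG.out b).1 h1)
        rw [hG.core a b hfa hfb, hG'.core a b hfa hfb]
      unfold adj
      simp only [e5]
      ring

theorem prfMV0 : P_statement → EIG0_statement → GAP0_statement → MV0_statement := by
  intro hP hE hGap r ε hr hε
  obtain ⟨n₀, hn₀⟩ := hGap r ε hr hε
  refine ⟨max n₀ 1, ?_⟩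
  intro V _ G G' f w k l M M' n hn hG hG' hbal hlow hup hkl hne hMM hM hM' hw hcase
  have hn0 : n₀ ≤ n := (le_max_left _ _).trans hn
  have hn1 : 1 ≤ n := (le_max_right _ _).trans hn
  have hnR : (0 : ℝ) < n := by exact_mod_cast hn1
  have : Nonempty V := ⟨w⟩
  obtain ⟨-, -, x, hx, hx1, hxe⟩ := hP V G
  obtain ⟨-, -, x', hx', hx1', hxe'⟩ := hP V G'
  have hx0 : x ≠ 0 := by
    rintro rfl
    simp at hx1
  have hx0' : x' ≠ 0 := by
    rintro rfl
    simp at hx1'
  obtain ⟨m1, m2, m3⟩ := MV.nbn_move hkl hM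
    hM' (fun y _ => hw y)
  have hsum := MV.sum_nbn hkl hMM m1 m2 m3
  obtain ⟨g1, g2, g3, g5⟩ := hn₀ V G f w x n hn0 hG hbal hlow hup hx hx0 hxe
  obtain ⟨g1', g2', g3', g5'⟩ := hn₀ V G' f w x' n hn0 hG' hbal
    (by rw [hsum]; exact hlow) (by rw [hsum]; exact hup) hx' hx0' hxe'
  obtain ⟨q1, q4, -⟩ := hE r V G f w x (lam G) hG hxe
  obtain ⟨q1', q4', -⟩ := hE r V G' f w x' (lam G') hG' hxe'
  have hl : 0 < lam G := by linarith
  have hl' : 0 < lam G' := by linarith
  have hdiff : 0 < cw x f (some k) - cw x f (some l) ∧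
      0 ≤ cw x' f (some k) - cw x' f (some l) := by
    rcases hcase with hc | ⟨hc, hcc⟩
    · refine ⟨lt_of_lt_of_le (by positivity) (g5 k l hc),
        le_trans (by positivity) (g5' k l hc)⟩
    · have hMc : (1 : ℝ) ≤ M.card := by exact_mod_cast hne.card_pos
      have hccR : (nbn G f w l : ℝ) + 2 * M.card ≤ nbn G f w k := by exact_mod_cast hcc
      have m1R : (nbn G' f w k : ℝ) + M.card = nbn G f w k := by exact_mod_cast m1
      have m2R : (nbn G' f w l : ℝ) = nbn G f w l + M.card := by rw [hMM]; exact_mod_cast m2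
      have hs : (siz f k : ℝ) = siz f l := by exact_mod_cast hc
      have hs0 : (0 : ℝ) ≤ siz f l := Nat.cast_nonneg _
      constructor
      · have k1 := q4 k
        have k2 := q4 l
        rw [hs] at k1
        have k3 : (lam G + siz f l) * (cw x f (some k) - cw x f (some l)) =
            (nbn G f w k - nbn G f w l) * x w := by linear_combination k1 - k2
        have k4 : 0 < ((nbn G f w k : ℝ) - nbn G f w l) * x w := by
          apply mul_pos _ g3
          linarith
        rw [← k3] at k4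
        exact (pos_iff_pos_of_mul_pos k4).1 (by positivity)
      · have k1 := q4' k
        have k2 := q4' l
        rw [hs] at k1
        have k3 : (lam G' + siz f l) * (cw x' f (some k) - cw x' f (some l)) =
            (nbn G' f w k - nbn G' f w l) * x' w := by linear_combination k1 - k2
        have k4 : 0 ≤ ((nbn G' f w k : ℝ) - nbn G' f w l) * x' w := by
          apply mul_nonneg _ g3'.le
          linarith
        rw [← k3] at k4
        exact nonneg_of_mul_nonneg_right k4 (by positivity)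
  have hGM' : ∀ y ∈ M, ¬ G'.Adj w y := by
    intro y hy
    rw [hw y]
    rintro (h1 | h1)
    · exact h1.2 hy
    · have e1 := (hM y hy).1
      have e2 := (hM' y h1).1
      rw [e1] at e2
      exact hkl (Option.some.inj e2)
  have hGM : ∀ y ∈ M', G'.Adj w y := fun y hy => (hw y).2 (Or.inr hy)
  refine MV.core (T := ∑ s, cw x f (some s)) (T' := ∑ s, cw x' f (some s)) hMM hne hx hx' hxe
    hxe' (MV.adj0 hG hG' hkl hM
    hM' hw) hl hl' ?_ ?_ ?_ ?_ g3 g3' hdiff.1 hdiff.2
  · intro y hy
    obtain ⟨h1, h2⟩ := hM y hy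
    have := q1 y k h1
    rwa [if_pos h2] at this
  · intro y hy
    obtain ⟨h1, h2⟩ := hM y hy
    have := q1' y k h1
    rwa [if_neg (hGM' y hy), add_zero] at this
  · intro y hy
    obtain ⟨h1, h2⟩ := hM' y hy
    have := q1 y l h1
    rwa [if_neg h2, add_zero] at this
  · intro y hy
    obtain ⟨h1, h2⟩ := hM' y hy
    have := q1' y l h1
    rwa [if_pos (hGM y hy)] at this

end MP0c3a8f

end
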