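import Pool.Agent.Work.MP_0c3a8f_co.PB.Stmts2
import Pool.Agent.Work.MP_0c3a8f_co.PB.ItemEVF1
import Pool.Agent.Work.MP_0c3a8f_co.PB.ItemEVF2

/-! Bundle of small proof modules (one section per former module). -/

section

/-! Item EVFR1: the neighbours of `w` are spread greedily, type one, the whole range
(adapted from ItemEVF1.lean of helper94). -/

set_option autoImplicit false

open Finset

namespace MP0c3a8f

namespace EVFR1

open ItemEVF1 (step)

theorem main (hMV : MV1_statement) (hMEM : MEM1_statement) : EVFR1_statement := by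
  intro r ε hr hε
  have hr0 : (0 : ℝ) < r := by
    have : 0 < r := by omega
    exact_mod_cast this
  have hr3 : (3 : ℝ) ≤ r := by exact_mod_cast hr
  have hq : 0 < qq r := by
    unfold qq
    have : 1 / (r : ℝ) < 1 := by rw [div_lt_one hr0]; linarith
    linarith
  set ε' : ℝ := ε * qq r with hε'
  have hε'0 : 0 < ε' := by positivity
  obtain ⟨n₁, hn₁⟩ := hMV r ε' hr hε'0
  refine ⟨max n₁ (4 * r ^ 2 + 1), ?_⟩
  intro n hn D hR V _ G f w p p' i j hMx hT hB hsumD
  have hnn₁ : n₁ ≤ n := le_trans (le_max_left _ _) hn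
  have hn4 : 4 * r ^ 2 + 1 ≤ n := le_trans (le_max_right _ _) hn
  have hn0 : (0 : ℝ) ≤ n := Nat.cast_nonneg n
  -- sizes
  have hs3 : 3 ≤ n / r := by
    rw [Nat.le_div_iff_mul_le (by omega)]
    nlinarith
  have hs : ∀ t, 2 ≤ siz f t := fun t => le_trans (by omega) (hB.1 t).1
  have hD1 : ε' * n ≤ ((∑ t, nbn G f w t : ℕ) : ℝ) := by
    rw [hsumD]
    push_cast
    have h1 := hR.1
    have h3 : ε' * n = ε * (qq r * n) := by rw [hε']; ring
    rw [h3]
    linarith
  have hD2 : ((∑ t, nbn G f w t : ℕ) : ℝ) ≤ (1 - 2 / (r : ℝ)) * (qq r * n) + 1 := by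
    rw [hsumD]
    push_cast
    have h1 := hR.2
    have h2 : (1 - 2 / (r : ℝ) - ε) * (qq r * n) ≤ (1 - 2 / (r : ℝ)) * (qq r * n) := by
      apply mul_le_mul_of_nonneg_right _ (by positivity)
      linarith
    linarith
  have hmv : ∀ (G' : SimpleGraph V) (k l : Fin r) (M M' : Finset V), Ty1 G' f w p p' i j →
      k ≠ l → M.Nonempty → M.card = M'.card →
      (∀ y ∈ M, f y = some k ∧ G.Adj w y ∧ y ≠ p ∧ y ≠ p') →
      (∀ y ∈ M', f y = some l ∧ ¬ G.Adj w y ∧ y ≠ p ∧ y ≠ p') →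
      (∀ y, G'.Adj w y ↔ (G.Adj w y ∧ y ∉ M) ∨ y ∈ M') →
      (siz f k = siz f l + 1 ∨ (siz f k = siz f l ∧ k ≠ i ∧ k ≠ j ∧ l ≠ i ∧ l ≠ j ∧
        nbn G f w l + 2 * M.card ≤ nbn G f w k)) → lam G < lam G' :=
    fun G' k l M M' hTy hkl hM hMM h1 h2 h3 h4 =>
      hn₁ V G G' f w p p' i j k l M M' n hnn₁ hT.ty hTy hB hD1 hD2 hkl hM hMM h1 h2 h3 h4
  have hle : ∀ t, nbn G f w t ≤ siz f t := by
    intro t
    unfold nbn siz
    exact Set.ncard_le_ncard (fun v hv => hv.1) (Set.toFinite _)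
  have P1 : ∀ k l, k ≠ i → k ≠ j → l ≠ i → l ≠ j → siz f k = siz f l →
      nbn G f w k ≤ nbn G f w l + 1 := by
    intro k l hki hkj hli hlj hkl
    by_contra hcon
    push Not at hcon
    have hk := hle k
    have hne : k ≠ l := by rintro rfl; omega
    have hpos := hT.pos l
    exact step hMEM hr hmv hMx hT hs hki hkj hli hlj hne (by omega) (by omega)
      (Or.inr ⟨hkl, by omega⟩)
  have P2 : ∀ k l, k ≠ i → k ≠ j → l ≠ i → l ≠ j → siz f k = siz f l + 1 →
      2 ≤ nbn G f w k → nbn G f w l = siz f l := by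
    intro k l hki hkj hli hlj hkl h2
    by_contra hcon
    have hl := hle l
    have hne : k ≠ l := by rintro rfl; omega
    exact step hMEM hr hmv hMx hT hs hki hkj hli hlj hne h2 (by omega) (Or.inl hkl)
  refine ⟨P1, P2, ?_⟩
  intro k hki hkj
  by_contra hcon
  push Not at hcon
  obtain ⟨hc1, hc2⟩ := hcon
  have hk := (hB.1 k)
  have hk2 : 2 ≤ nbn G f w k := by omega
  have hall : ∀ l, l ≠ i → l ≠ j → n / r ≤ nbn G f w l + 2 := by
    intro l hli hlj
    have hl := (hB.1 l)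
    have hc := hc2 l
    rcases Nat.lt_or_ge (siz f l) (siz f k) with h | h
    · have := P2 k l hki hkj hli hlj (by omega) hk2
      omega
    · have := P1 k l hki hkj hli hlj (by omega)
      omega
  -- summation
  have hdiv : (n : ℝ) / r - 1 ≤ ((n / r : ℕ) : ℝ) := by
    have h1 : n < r * (n / r + 1) := by
      have := Nat.lt_mul_div_succ n (show 0 < r by omega)
      simpa using this
    have h2 : (n : ℝ) < r * ((n / r : ℕ) + 1) := by exact_mod_cast h1
    rw [sub_le_iff_le_add, div_le_iff₀ hr0]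
    nlinarith
  have hsum : ((r : ℝ) - 2) * ((n : ℝ) / r - 3) ≤ ((∑ t, nbn G f w t : ℕ) : ℝ) := by
    have hij : i ≠ j := hT.ty.ij
    have hji : j ∈ (univ : Finset (Fin r)).erase i := mem_erase.2 ⟨hij.symm, mem_univ j⟩
    have hcard : (((univ : Finset (Fin r)).erase i).erase j).card = r - 2 := by
      rw [card_erase_of_mem hji, card_erase_of_mem (mem_univ i), card_univ, Fintype.card_fin]
      omega
    have h1 : ∑ t ∈ (univ.erase i).erase j, ((n : ℝ) / r - 3)
        ≤ ∑ t ∈ (univ.erase i).erase j, (nbn G f w t : ℝ) := by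
      apply sum_le_sum
      intro t ht
      rw [mem_erase, mem_erase] at ht
      have := hall t ht.2.1 ht.1
      have h3 : ((n / r : ℕ) : ℝ) ≤ nbn G f w t + 2 := by exact_mod_cast this
      linarith
    rw [sum_const, hcard, nsmul_eq_mul] at h1
    have h2 : ∑ t ∈ (univ.erase i).erase j, (nbn G f w t : ℝ) ≤ ∑ t, (nbn G f w t : ℝ) := by
      apply sum_le_sum_of_subset_of_nonneg
      · intro t _; exact mem_univ t
      · intro t _ _; exact Nat.cast_nonneg _
    have h3 : ((r - 2 : ℕ) : ℝ) = (r : ℝ) - 2 := by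
      rw [Nat.cast_sub (by omega)]; norm_num
    rw [h3] at h1
    push_cast
    linarith
  rw [hsumD] at hsum
  push_cast at hsum
  have hD3 : (D : ℝ) ≤ (1 - 2 / (r : ℝ)) * (qq r * n) := by
    rw [hsumD] at hD2
    push_cast at hD2
    linarith
  have hn4' : (4 : ℝ) * r ^ 2 + 1 ≤ n := by exact_mod_cast hn4
  unfold qq at hD3
  -- multiply by r^2
  have e1 : (1 - 2 / (r : ℝ)) * ((1 - 1 / (r : ℝ)) * n) = ((r : ℝ) - 2) * ((r - 1) * n) / r ^ 2 := by
    field_simp
  rw [e1, le_div_iff₀ (by positivity)] at hD3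
  have e2 : ((r : ℝ) - 2) * ((n : ℝ) / r - 3) = ((r : ℝ) - 2) * (n - 3 * r) / r := by
    field_simp
  rw [e2, div_le_iff₀ hr0] at hsum
  have h5 : ((r : ℝ) - 2) * (n - 3 * r) * r ≤ (D + 1) * r ^ 2 := by
    have := mul_le_mul_of_nonneg_right hsum hr0.le
    nlinarith
  have h6 : ((r : ℝ) - 2) * n ≤ 3 * (r - 2) * r ^ 2 + r ^ 2 := by nlinarith
  have h7 : ((r : ℝ) - 2) * (4 * r ^ 2 + 1) ≤ 3 * (r - 2) * r ^ 2 + r ^ 2 :=
    le_trans (mul_le_mul_of_nonneg_left hn4' (by linarith)) h6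
  nlinarith [sq_nonneg (r : ℝ)]

end EVFR1

theorem prfEVFR1 : MV1_statement → MEM1_statement → EVFR1_statement := EVFR1.main

end MP0c3a8f

end

section

/-!
# MP_0c3a8f_co, phase B, item EVFR2: the neighbours of `w` are spread greedily, type two, whole range
-/

set_option autoImplicit false

open Finset

namespace MP0c3a8f

theorem prfEVFR2 : MV2_statement → MEM2_statement → EXCR2_statement → RLC2_statement →
    EVFR2_statement := by
  intro hMV hMEM hEXC hRLC r ε hr hε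
  have hr0 : (3 : ℝ) ≤ r := by exact_mod_cast hr
  have hrpos : (0 : ℝ) < r := by linarith
  have hq : qq r = 1 - 1 / (r : ℝ) := rfl
  have hqpos : 0 < qq r := by
    rw [hq]
    have : 1 / (r : ℝ) ≤ 1 / 3 := one_div_le_one_div_of_le (by norm_num) hr0
    linarith
  have hε' : 0 < ε * qq r / 2 := by positivity
  obtain ⟨n1, hn1⟩ := hMV r (ε * qq r / 2) hr hε'
  obtain ⟨n2, hn2⟩ := hEXC r ε hr hε
  obtain ⟨n3, hn3⟩ := exists_nat_ge ((r : ℝ) / (ε * qq r / 2))
  refine ⟨n1 + n2 + n3 + 2 * r + 2 + r * r, ?_⟩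
  intro n hn D hD V _ G f w u v i hMx hTh hBal hsum
  have hn1' : n1 ≤ n := by omega
  have hn2' : n2 ≤ n := by omega
  have hn1'' : n1 + n2 + n3 + (2 * r + 2) + r * r ≤ n := by
    have := hn; omega
  have hrr : r * r ≤ n := by
    generalize r * r = q at hn1'' ⊢
    omega
  have hrn : 2 * r + 2 ≤ n := by
    generalize r * r = q at hn1''
    omega
  have hnn3 : (r : ℝ) ≤ ε * qq r / 2 * n := by
    have h1 : (r : ℝ) / (ε * qq r / 2) ≤ n := by
      refine hn3.trans ?_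
      have : n3 ≤ n := by omega
      exact_mod_cast this
    rw [div_le_iff₀ hε'] at h1
    linarith
  have hDr : ((∑ t, nbn G f w t : ℕ) : ℝ) + r = D := by exact_mod_cast hsum
  have hlow : (ε * qq r / 2) * n ≤ ((∑ t, nbn G f w t : ℕ) : ℝ) := by
    have h1 := hD.1
    have : ε * (qq r * n) = 2 * (ε * qq r / 2 * n) := by ring
    rw [this] at h1
    linarith
  have hnpos : (0 : ℝ) ≤ n := Nat.cast_nonneg _
  have hDle : (D : ℝ) ≤ (1 - 2 / (r : ℝ)) * (qq r * n) := by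
    refine hD.2.trans ?_
    apply mul_le_mul_of_nonneg_right _ (by positivity)
    linarith
  have hup : ((∑ t, nbn G f w t : ℕ) : ℝ) ≤ (1 - 2 / (r : ℝ)) * (qq r * n) + 1 := by
    linarith
  have hs : ∀ t, 1 ≤ siz f t := by
    intro t
    refine le_trans ?_ (hBal.1 t).1
    have : r ≤ n := by omega
    exact (Nat.one_le_div_iff (by omega)).2 this
  -- the basic move
  have basic : ∀ (H : SimpleGraph V) (v' : Fin r → V) (k l : Fin r) (y y' : V), Mx r n D H →
      Th2 H f w u v' i → (∀ t, nbn H f w t = nbn G f w t) → k ≠ i → l ≠ i → k ≠ l →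
      f y = some k → H.Adj w y → y ≠ v' k → 2 ≤ nbn G f w k →
      f y' = some l → ¬ H.Adj w y' → y' ≠ v' l →
      (siz f k = siz f l + 1 ∨ (siz f k = siz f l ∧ nbn G f w l + 2 ≤ nbn G f w k)) → False := by
    intro H v' k l y y' hMH hTH hnb hki hli hkl hy hwy hyk hk2 hy' hwy' hyl hcond
    have hfw : f w = none := (hTH.ty.out w).2 (Or.inl rfl)
    have hne : w ≠ y' := by intro h1; rw [← h1, hfw] at hy'; exact absurd hy' (by simp)
    have hwyne : w ≠ y := H.ne_of_adj hwy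
    have hle := EVF2.mem hMEM hr hMH hTH hs hki hli hy hwy (by rw [hnb]; exact hk2) hy' hwy' hyl hne
    have hsumH : (∑ t, nbn H f w t : ℕ) = ∑ t, nbn G f w t :=
      Finset.sum_congr rfl fun t _ => hnb t
    have huy : ¬ H.Adj u y := by
      intro h1
      rw [hTH.ty.un y (by rw [hy]; simp)] at h1
      obtain ⟨t, ht, h2⟩ := h1
      have h3 := hTH.ty.hv t ht
      rw [← h2, hy] at h3
      have h4 : k = t := Option.some.inj h3
      exact hyk (by rw [h4]; exact h2)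
    have huy' : ¬ H.Adj u y' := by
      intro h1
      rw [hTH.ty.un y' (by rw [hy']; simp)] at h1
      obtain ⟨t, ht, h2⟩ := h1
      have h3 := hTH.ty.hv t ht
      rw [← h2, hy'] at h3
      have h4 : l = t := Option.some.inj h3
      exact hyl (by rw [h4]; exact h2)
    have hlt := hn1 V H (EVF2.mv H w y y' hne) f w u v' i k l {y} {y'} n hn1' hTH.ty
      (EVF2.mv_ty2 hTH.ty hy hy' hne) hBal (by rw [hsumH]; exact hlow) (by rw [hsumH]; exact hup)
      hkl (Finset.singleton_nonempty y) (by simp)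
      (by
        intro z hz
        rw [Finset.mem_singleton] at hz
        rw [hz]; exact ⟨hy, hwy, huy⟩)
      (by
        intro z hz
        rw [Finset.mem_singleton] at hz
        rw [hz]; exact ⟨hy', hwy', huy'⟩)
      (by
        intro z _
        rw [EVF2.mv_adj_w hwyne, Finset.mem_singleton, Finset.mem_singleton])
      (by
        rcases hcond with h1 | ⟨h1, h2⟩
        · exact Or.inl h1
        · refine Or.inr ⟨h1, hki, hli, ?_⟩
          rw [hnb, hnb, Finset.card_singleton]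
          omega)
    exact absurd hlt (not_lt.2 hle)
  have part1 : ∀ k l, k ≠ i → l ≠ i → siz f k = siz f l → nbn G f w k ≤ nbn G f w l + 1 := by
    intro k l hki hli hsz
    by_contra hc
    push Not at hc
    have hkl : k ≠ l := by
      intro h1; rw [h1] at hc; omega
    have hk2 : 2 ≤ nbn G f w k := by omega
    obtain ⟨y, hy, hwy, hyk⟩ := EVF2.ex_nbr (v k) hk2
    have hle := EVF2.nbn_le G f w k
    obtain ⟨y', hy', hwy', hyl⟩ := EVF2.ex_non (G := G) (f := f) (w := w) (l := l) (v l) (by omega)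
    exact basic G v k l y y' hMx hTh (fun _ => rfl) hki hli hkl hy hwy hyk hk2 hy' hwy' hyl
      (Or.inr ⟨hsz, by omega⟩)
  refine ⟨part1, ?_⟩
  intro k l hki hli hsz hk2
  by_contra hc
  have hkl : k ≠ l := by
    intro h1; rw [h1] at hsz; omega
  have hlt : nbn G f w l < siz f l := lt_of_le_of_ne (EVF2.nbn_le G f w l) hc
  obtain ⟨y, hy, hwy, hyk⟩ := EVF2.ex_nbr (v k) hk2
  obtain ⟨z, hz, hwz⟩ := EVF2.ex_non1 hlt
  by_cases hzl : z = v l
  swap
  · exact basic G v k l y z hMx hTh (fun _ => rfl) hki hli hkl hy hwy hyk hk2 hz hwz hzl (Or.inl hsz)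
  rcases lt_or_ge (nbn G f w k) (siz f k) with hfull | hfull
  · obtain ⟨G2, v2, m1, m2, m3, m4⟩ := hRLC r n D V G f w u v i k hr (by omega) hMx hTh hBal
      (hn2 n hn2' D hD V G f w u v i hMx hTh hBal hsum) hki hfull
    have hnb : ∀ t, nbn G2 f w t = nbn G f w t := by
      intro t
      unfold nbn
      congr 1
      ext x
      simp only [Set.mem_setOf_eq, m4]
    have hy2 : y ≠ v2 k := by
      intro h1
      have h2 : G2.Adj w y := (m4 y).2 hwy
      rw [h1] at h2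
      exact ((m3 k hki).1 h2) rfl
    have hz2 : z ≠ v2 l := by
      intro h1
      have h2 : G2.Adj w (v2 l) := (m3 l hli).2 (Ne.symm hkl)
      rw [← h1, m4] at h2
      exact hwz h2
    exact basic G2 v2 k l y z m1 m2 hnb hki hli hkl hy ((m4 y).2 hwy) hy2 hk2 hz
      (fun h1 => hwz ((m4 z).1 h1)) hz2 (Or.inl hsz)
  · have hfull' : nbn G f w k = siz f k := le_antisymm (EVF2.nbn_le G f w k) hfull
    have hsk : siz f k = n / r + 1 := by
      have h1 := hBal.1 k
      have h2 := hBal.1 l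
      omega
    have hall : ∀ t, t ≠ i → n / r ≤ nbn G f w t + 1 := by
      intro t hti
      have h1 := hBal.1 t
      rcases Nat.lt_or_ge (siz f t) (siz f k) with h2 | h2
      · -- small class
        by_contra h3
        push Not at h3
        obtain ⟨z', hz', hwz', hzt⟩ :=
          EVF2.ex_non (G := G) (f := f) (w := w) (l := t) (v t) (by omega)
        have hkt : k ≠ t := by intro h4; rw [h4] at h2; omega
        exact basic G v k t y z' hMx hTh (fun _ => rfl) hki hti hkt hy hwy hyk hk2 hz' hwz' hzt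
          (Or.inl (by omega))
      · have h4 : siz f k = siz f t := by omega
        have := part1 k t hki hti h4
        omega
    have hcard : (Finset.univ.erase i).card = r - 1 := by
      rw [Finset.card_erase_of_mem (Finset.mem_univ i), Finset.card_univ, Fintype.card_fin]
    have h5 : (r - 1) * (n / r) ≤ ∑ t ∈ Finset.univ.erase i, (nbn G f w t + 1) := by
      rw [← hcard, ← smul_eq_mul, ← Finset.sum_const]
      apply Finset.sum_le_sum
      intro t ht
      exact hall t (Finset.ne_of_mem_erase ht)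
    rw [Finset.sum_add_distrib, Finset.sum_const, hcard, smul_eq_mul, mul_one] at h5
    have h6 : ∑ t ∈ Finset.univ.erase i, nbn G f w t ≤ ∑ t, nbn G f w t :=
      Finset.sum_le_sum_of_subset (Finset.erase_subset _ _)
    have h7 : (r - 1) * (n / r) + r ≤ D + (r - 1) := by omega
    have h8 : ((r - 1 : ℕ) : ℝ) = (r : ℝ) - 1 := by
      rw [Nat.cast_sub (by omega)]; simp
    have h9 : ((r : ℝ) - 1) * ((n / r : ℕ) : ℝ) + r ≤ D + ((r : ℝ) - 1) := by
      have : (((r - 1) * (n / r) + r : ℕ) : ℝ) ≤ ((D + (r - 1) : ℕ) : ℝ) := by exact_mod_cast h7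
      push_cast at this
      rw [h8] at this
      exact this
    have h10 : (n : ℝ) / r - 1 ≤ ((n / r : ℕ) : ℝ) := by
      have h11 : n < r * (n / r + 1) := by
        have := Nat.lt_mul_div_succ n (by omega : 0 < r)
        exact this
      have h12 : (n : ℝ) ≤ r * (((n / r : ℕ) : ℝ) + 1) := by exact_mod_cast h11.le
      rw [sub_le_iff_le_add, div_le_iff₀ hrpos]
      linarith
    have h13 : qq r * n = ((r : ℝ) - 1) * ((n : ℝ) / r) := by
      rw [hq]; field_simp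
    rw [h13] at hDle
    set x : ℝ := (n : ℝ) / r with hx
    have hx2 : 2 ≤ x := by
      rw [hx, le_div_iff₀ hrpos]
      have : (2 * r + 2 : ℝ) ≤ n := by exact_mod_cast hrn
      linarith
    have h14 : ((r : ℝ) - 1) * (x - 1) ≤ ((r : ℝ) - 1) * ((n / r : ℕ) : ℝ) :=
      mul_le_mul_of_nonneg_left h10 (by linarith)
    have hrr' : (r : ℝ) * r ≤ n := by exact_mod_cast hrr
    have hxr : (r : ℝ) ≤ x := by
      rw [hx, le_div_iff₀ hrpos]
      exact hrr'
    have h15 : (1 - 2 / (r : ℝ)) * (((r : ℝ) - 1) * x) =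
        ((r : ℝ) - 1) * x - 2 * ((1 - 1 / (r : ℝ)) * x) := by
      field_simp
    have h16 : (2 / 3 : ℝ) ≤ 1 - 1 / (r : ℝ) := by
      have : 1 / (r : ℝ) ≤ 1 / 3 := one_div_le_one_div_of_le (by norm_num) hr0
      linarith
    have h17 : (2 / 3 : ℝ) * x ≤ (1 - 1 / (r : ℝ)) * x :=
      mul_le_mul_of_nonneg_right h16 (by linarith)
    rw [h15] at hDle
    have h18 : ((r : ℝ) - 1) * (x - 1) = ((r : ℝ) - 1) * x - ((r : ℝ) - 1) := by ring
    rw [h18] at h14
    linarith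

end MP0c3a8f

end

section

/-! Item KXB: upper bound for `Kap`. -/

set_option autoImplicit false

open Finset

namespace MP0c3a8f

namespace ItemKXB

theorem qq_bounds {r : ℕ} (hr : 3 ≤ r) : 2 / 3 ≤ qq r ∧ qq r ≤ 1 := by
  have hr' : (3 : ℝ) ≤ r := by exact_mod_cast hr
  have h1 : 1 / (r : ℝ) ≤ 1 / 3 := one_div_le_one_div_of_le (by norm_num) hr'
  have h2 : 0 < 1 / (r : ℝ) := by positivity
  unfold qq
  constructor <;> linarith

theorem abs_sig {r : ℕ} (σ : Fin r → ℕ) (N : ℕ) (h : dev σ ≤ N) (t : Fin r) :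
    |(σ t : ℝ) - (∑ s, (σ s : ℝ)) / r| ≤ N + 1 := by
  have h1 : ((σ t : ℝ) - (∑ s, (σ s : ℝ)) / r) ^ 2 ≤ dev σ := by
    unfold dev
    exact Finset.single_le_sum (f := fun t => ((σ t : ℝ) - (∑ s, (σ s : ℝ)) / r) ^ 2)
      (fun _ _ => sq_nonneg _) (Finset.mem_univ t)
  have hN : (0 : ℝ) ≤ N := Nat.cast_nonneg _
  refine abs_le_of_sq_le_sq ?_ (by linarith)
  nlinarith

theorem bound (r n D N : ℕ) (hr : 3 ≤ r) (hn : 1 ≤ n) (hD : D ≤ n)
    (σ a : Fin r → ℕ) (hσ : ∑ t, σ t = n) (hdev : dev σ ≤ N) (ha : ∀ t, a t ≤ σ t)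
    (hsum : |(∑ t, (a t : ℝ)) - D| ≤ N) :
    |Kx r n D σ a - 2 * D * (qq r - D / n)| ≤
      64 + 2 * (3 * N + N + 2 * ((r : ℝ) ^ 2 * (N + 1)) + 6 * r) := by
  have hr' : (3 : ℝ) ≤ r := by exact_mod_cast hr
  have hn' : (1 : ℝ) ≤ n := by exact_mod_cast hn
  have hD' : (D : ℝ) ≤ n := by exact_mod_cast hD
  obtain ⟨q1, q2⟩ := qq_bounds hr
  have hσ' : (∑ t, (σ t : ℝ)) = n := by exact_mod_cast hσ
  have hdev0 : 0 ≤ dev σ := by unfold dev; positivity
  have hN : (0 : ℝ) ≤ N := Nat.cast_nonneg _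
  unfold Kx
  set q := qq r with hq
  set x : ℝ := (D : ℝ) / (q * n) with hx
  have hqn : 0 < q * n := by positivity
  have hx0 : 0 ≤ x := by rw [hx]; positivity
  have hx2 : x ≤ 2 := by
    rw [hx, div_le_iff₀ hqn]
    nlinarith
  have hr0 : (0 : ℝ) < r := by linarith
  -- the terms
  have t1 : |q ^ 2 * x ^ 4 * (1 + 2 * q) - 2 * q * x ^ 3| ≤ 64 := by
    have h1 : q ^ 2 ≤ 1 := pow_le_one₀ (by linarith) q2
    have h2 : x ^ 4 ≤ 16 := by
      calc x ^ 4 ≤ 2 ^ 4 := pow_le_pow_left₀ hx0 hx2 4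
        _ = 16 := by norm_num
    have h3 : x ^ 3 ≤ 8 := by
      calc x ^ 3 ≤ 2 ^ 3 := pow_le_pow_left₀ hx0 hx2 3
        _ = 8 := by norm_num
    have h30 : 0 ≤ x ^ 3 := by positivity
    have h20 : 0 ≤ x ^ 4 := by positivity
    have h4 : q ^ 2 * x ^ 4 ≤ 1 * 16 := mul_le_mul h1 h2 h20 (by norm_num)
    have h5 : q ^ 2 * x ^ 4 * (1 + 2 * q) ≤ 1 * 16 * 3 :=
      mul_le_mul h4 (by linarith) (by linarith) (by norm_num)
    have h50 : 0 ≤ q ^ 2 * x ^ 4 * (1 + 2 * q) := by positivity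
    have h6 : 2 * q * x ^ 3 ≤ 2 * 8 := mul_le_mul (by linarith) h3 h30 (by norm_num)
    have h60 : 0 ≤ 2 * q * x ^ 3 := by positivity
    rw [abs_le]
    constructor <;> linarith
  have t2 : |(1 - 2 * x) * ((∑ t, (a t : ℝ)) - D)| ≤ 3 * N := by
    rw [abs_mul]
    refine mul_le_mul ?_ hsum (abs_nonneg _) (by norm_num)
    rw [abs_le]
    constructor <;> linarith
  have t3 : |(1 / 2 - 1 / (r : ℝ)) * dev σ| ≤ N := by
    have h1 : 0 < 1 / (r : ℝ) := by positivity
    have h2 : 1 / (r : ℝ) ≤ 1 / 3 := one_div_le_one_div_of_le (by norm_num) hr'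
    rw [abs_mul, abs_of_nonneg hdev0, abs_of_nonneg (by linarith)]
    calc (1 / 2 - 1 / (r : ℝ)) * dev σ ≤ 1 * dev σ :=
          mul_le_mul_of_nonneg_right (by linarith) hdev0
      _ ≤ N := by linarith
  have hA : ∀ t, (r * (a t : ℝ) / n) ≤ r ∧ 0 ≤ (r * (a t : ℝ) / n) := by
    intro t
    refine ⟨?_, by positivity⟩
    rw [div_le_iff₀ (by linarith)]
    apply mul_le_mul_of_nonneg_left _ hr0.le
    have h1 : σ t ≤ n := by
      rw [← hσ]
      exact Finset.single_le_sum (f := σ) (fun _ _ => Nat.zero_le _) (Finset.mem_univ t)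
    exact_mod_cast (ha t).trans h1
  have t4 : |2 * x / r * ∑ t, (r * (a t : ℝ) / n) * ((σ t : ℝ) - n / r)| ≤
      2 * ((r : ℝ) ^ 2 * (N + 1)) := by
    rw [abs_mul]
    have h1 : |∑ t, (r * (a t : ℝ) / n) * ((σ t : ℝ) - n / r)| ≤ (r : ℝ) ^ 2 * (N + 1) := by
      calc |∑ t, (r * (a t : ℝ) / n) * ((σ t : ℝ) - n / r)|
          ≤ ∑ t, |(r * (a t : ℝ) / n) * ((σ t : ℝ) - n / r)| := Finset.abs_sum_le_sum_abs _ _
        _ ≤ ∑ _t : Fin r, (r : ℝ) * (N + 1) := by
            apply Finset.sum_le_sum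
            intro t _
            have h2 := abs_sig σ N hdev t
            rw [hσ'] at h2
            obtain ⟨h4, h5⟩ := hA t
            rw [abs_mul, abs_of_nonneg h5]
            exact mul_le_mul h4 h2 (abs_nonneg _) hr0.le
        _ = (r : ℝ) ^ 2 * (N + 1) := by
            rw [Finset.sum_const, Finset.card_univ, Fintype.card_fin, nsmul_eq_mul]
            ring
    have h2 : |2 * x / r| ≤ 2 := by
      rw [abs_of_nonneg (by positivity), div_le_iff₀ hr0]
      linarith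
    exact mul_le_mul h2 h1 (abs_nonneg _) (by norm_num)
  have t5 : |x ^ 2 / (q * r ^ 2) * ∑ t, (r * (a t : ℝ) / n) ^ 2| ≤ 6 * r := by
    rw [abs_of_nonneg (by positivity)]
    have h1 : ∑ t, (r * (a t : ℝ) / n) ^ 2 ≤ (r : ℝ) ^ 3 := by
      calc ∑ t, (r * (a t : ℝ) / n) ^ 2 ≤ ∑ _t : Fin r, (r : ℝ) ^ 2 :=
            Finset.sum_le_sum fun t _ => pow_le_pow_left₀ (hA t).2 (hA t).1 2
        _ = (r : ℝ) ^ 3 := by
            rw [Finset.sum_const, Finset.card_univ, Fintype.card_fin, nsmul_eq_mul]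
            ring
    have h2 : x ^ 2 ≤ 4 := by
      calc x ^ 2 ≤ 2 ^ 2 := pow_le_pow_left₀ hx0 hx2 2
        _ = 4 := by norm_num
    have h3 : x ^ 2 / (q * r ^ 2) ≤ 6 / (r : ℝ) ^ 2 := by
      rw [div_le_div_iff₀ (by positivity) (by positivity)]
      have h4 : x ^ 2 * (r : ℝ) ^ 2 ≤ 4 * (r : ℝ) ^ 2 :=
        mul_le_mul_of_nonneg_right h2 (by positivity)
      have h5 : 4 * (r : ℝ) ^ 2 ≤ 6 * (q * (r : ℝ) ^ 2) := by
        nlinarith [sq_nonneg (r : ℝ)]
      linarith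
    calc x ^ 2 / (q * r ^ 2) * ∑ t, (r * (a t : ℝ) / n) ^ 2
        ≤ 6 / (r : ℝ) ^ 2 * (r : ℝ) ^ 3 := mul_le_mul h3 h1 (by positivity) (by positivity)
      _ = 6 * r := by
          field_simp
  set A1 := (1 - 2 * x) * ((∑ t, (a t : ℝ)) - D)
  set A2 := (1 / 2 - 1 / (r : ℝ)) * dev σ
  set A3 := 2 * x / r * ∑ t, (r * (a t : ℝ) / n) * ((σ t : ℝ) - n / r)
  set A4 := x ^ 2 / (q * r ^ 2) * ∑ t, (r * (a t : ℝ) / n) ^ 2
  set A0 := q ^ 2 * x ^ 4 * (1 + 2 * q) - 2 * q * x ^ 3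
  have e1 : 2 * (D : ℝ) * (q - D / n) + A0 + 2 * q * (A1 + A2 + A3 + A4)
      - 2 * D * (q - D / n) = A0 + 2 * q * (A1 + A2 + A3 + A4) := by ring
  have e2 : |A1 + A2 + A3 + A4| ≤ 3 * N + N + 2 * ((r : ℝ) ^ 2 * (N + 1)) + 6 * r := by
    have h1 := abs_add_le (A1 + A2 + A3) A4
    have h2 := abs_add_le (A1 + A2) A3
    have h3 := abs_add_le A1 A2
    linarith
  change |2 * (D : ℝ) * (q - D / n) + A0 + 2 * q * (A1 + A2 + A3 + A4)
      - 2 * D * (q - D / n)| ≤ _
  rw [e1]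
  refine (abs_add_le _ _).trans (add_le_add t1 ?_)
  rw [abs_mul, abs_of_nonneg (by linarith : (0 : ℝ) ≤ 2 * q)]
  refine mul_le_mul (by linarith) e2 (abs_nonneg _) (by norm_num)

end ItemKXB

theorem prfKXB : EXP_statement → DEV_statement → KXB_statement := by
  intro hE _ r N hr
  obtain ⟨n₀, hn₀⟩ := hE r N 1 hr one_pos
  refine ⟨1 + (64 + 2 * (3 * N + N + 2 * ((r : ℝ) ^ 2 * (N + 1)) + 6 * r)), max n₀ 1, ?_⟩
  intro n hn D σ a hσ hdev ha hD hsum
  have h1 := hn₀ n D σ a ((le_max_left _ _).trans hn) hσ hdev ha hD hsum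
  have h2 := ItemKXB.bound r n D N hr ((le_max_right _ _).trans hn) hD σ a hσ hdev ha hsum
  have h3 : Kap r σ a - 2 * D * (qq r - D / n) =
      (Kap r σ a - Kx r n D σ a) + (Kx r n D σ a - 2 * D * (qq r - D / n)) := by ring
  rw [h3]
  exact (abs_add_le _ _).trans (add_le_add h1 h2)

end MP0c3a8f

end

section

/-!
# MP_0c3a8f_co, phase B, item MAXG: the maximisers for all color-critical graphs
-/

open Finset

namespace MP0c3a8f

namespace ItemMAXG

/-- the number of edges of the Turán graph -/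
theorem turan (hD : DEV_statement) (r n : ℕ) (hr : 1 ≤ r) :
    ∑ t, tz r n t = n ∧ 0 ≤ dev (tz r n) ∧ dev (tz r n) ≤ r ∧
      2 * ((SimpleGraph.turanGraph n r).edgeSet.ncard : ℝ) = qq r * (n : ℝ) ^ 2 - dev (tz r n) := by
  classical
  have h0 : ∑ t, (Pi.single (⟨0, hr⟩ : Fin r) n : Fin r → ℕ) t = n := by
    rw [Finset.sum_pi_single']
    simp
  obtain ⟨h1, -, h2, -, -, h3⟩ := hD r n _ hr h0
  obtain ⟨-, -, -, h4, -, -⟩ := hD r n (tz r n) hr h1
  refine ⟨h1, Finset.sum_nonneg fun t _ => sq_nonneg _, h2, ?_⟩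
  unfold Sz at h3
  rw [h1] at h3
  have h5 : 2 * ((SimpleGraph.turanGraph n r).edgeSet.ncard : ℝ) + ∑ t, (tz r n t : ℝ) ^ 2 =
      (n : ℝ) ^ 2 := by
    have h6 : 2 * (SimpleGraph.turanGraph n r).edgeSet.ncard + ∑ t, tz r n t ^ 2 = n ^ 2 := by
      omega
    exact_mod_cast h6
  rw [h4]
  unfold qq
  linear_combination h5

theorem dev_nonneg {r : ℕ} (σ : Fin r → ℕ) : 0 ≤ dev σ :=
  Finset.sum_nonneg fun _ _ => sq_nonneg _

/-- the number of edges -/
theorem count (hC : CNTU_statement) (hD : DEV_statement) {V : Type} [Fintype V] {r n : ℕ}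
    (hr : 1 ≤ r) (G : SimpleGraph V) (g : V → Option (Fin r)) (w : V) (hi : Indep G g)
    (hw : g w = none) (ht : ∑ t, siz g t = n) :
    2 * (G.edgeSet.ncard : ℝ) + 2 * ((missSet G g).ncard : ℝ) + dev (siz g) =
      qq r * (n : ℝ) ^ 2 + 2 * ((∑ t, nbn G g w t : ℕ) : ℝ)
        + 2 * ((lightSet G g {w}).ncard : ℝ) := by
  obtain ⟨e, he, h1⟩ := hC r V G g {w} hi (by
    intro v hv
    rw [Finset.mem_singleton] at hv
    rw [hv]; exact hw)
  rw [Finset.card_singleton] at he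
  have he0 : e = 0 := by omega
  rw [he0, Finset.sum_singleton, ht] at h1
  obtain ⟨-, -, -, h4, -, -⟩ := hD r n (siz g) hr ht
  have h2 : 2 * (G.edgeSet.ncard : ℝ) + 2 * ((missSet G g).ncard : ℝ)
      + ∑ t, (siz g t : ℝ) ^ 2 =
      (n : ℝ) ^ 2 + 2 * ((∑ t, nbn G g w t : ℕ) : ℝ) + 2 * ((lightSet G g {w}).ncard : ℝ) := by
    have h3 : 2 * G.edgeSet.ncard + 2 * (missSet G g).ncard + ∑ t, siz g t ^ 2 =
        n ^ 2 + 2 * (∑ t, nbn G g w t) + 2 * (lightSet G g {w}).ncard := by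
      omega
    exact_mod_cast h3
  rw [h4]
  unfold qq
  linear_combination h2

theorem nbn_le {V : Type} [Fintype V] {r : ℕ} (G : SimpleGraph V) (g : V → Option (Fin r))
    (w : V) (t : Fin r) : nbn G g w t ≤ siz g t :=
  Set.ncard_le_ncard (fun _ h => h.1) (Set.toFinite _)

theorem qq_bd {r : ℕ} (hr : 3 ≤ r) : 0 < qq r ∧ qq r ≤ 1 := by
  have h1 : (3 : ℝ) ≤ r := by exact_mod_cast hr
  have h2 : (1 : ℝ) / r ≤ 1 / 3 := one_div_le_one_div_of_le (by norm_num) h1
  have h3 : (0 : ℝ) ≤ 1 / r := by positivity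
  unfold qq
  constructor <;> linarith

/-- the range of `D` -/
theorem range {r n D b : ℕ} {ε : ℝ} (hr : 3 ≤ r) (hε : 0 < ε) (hR : RR r n D ε)
    (h1 : ((b : ℝ) + 1) / (ε * qq r) ≤ n) (h2 : r ^ 2 ≤ n) :
    b < D ∧ D ≤ (r - 1) * (n / r) ∧ D ≤ n := by
  obtain ⟨hq0, hq1⟩ := qq_bd hr
  have hr0 : (0 : ℝ) < r := by
    have : 0 < r := by omega
    exact_mod_cast this
  have hr1 : (3 : ℝ) ≤ r := by exact_mod_cast hr
  have hn0 : (0 : ℝ) ≤ n := Nat.cast_nonneg n
  obtain ⟨hA, hB⟩ := hR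
  have hbD : b < D := by
    rw [div_le_iff₀ (mul_pos hε hq0)] at h1
    have h3 : ((b : ℝ) + 1) ≤ D := by
      calc ((b : ℝ) + 1) ≤ n * (ε * qq r) := h1
        _ = ε * (qq r * n) := by ring
        _ ≤ D := hA
    have h4 : b + 1 ≤ D := by exact_mod_cast h3
    omega
  have h5 : (r : ℝ) ^ 2 ≤ n := by exact_mod_cast h2
  have h6 : (D : ℝ) ≤ (1 - 2 / (r : ℝ)) * (qq r * n) := by
    refine hB.trans (mul_le_mul_of_nonneg_right (by linarith) (by positivity))
  have h7 : (n : ℝ) < r * ((n / r : ℕ) + 1) := by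
    have : n < r * (n / r + 1) := by
      have := Nat.lt_mul_div_succ n (show 0 < r by omega)
      exact this
    exact_mod_cast this
  have hm : ((r - 1 : ℕ) : ℝ) = (r : ℝ) - 1 := by
    rw [Nat.cast_sub (by omega)]; norm_num
  have h8 : (D : ℝ) ≤ ((r - 1 : ℕ) : ℝ) * ((n / r : ℕ) : ℝ) := by
    rw [hm]
    have h9 : (1 - 2 / (r : ℝ)) * (qq r * n) = (r - 1) * ((n : ℝ) / r - 2 * n / r ^ 2) := by
      unfold qq
      field_simp
    have h10 : (n : ℝ) / r - 2 * n / r ^ 2 ≤ ((n / r : ℕ) : ℝ) := by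
      have h11 : (n : ℝ) / r < (n / r : ℕ) + 1 := by
        rw [div_lt_iff₀ hr0]; linarith
      have h12 : 1 ≤ 2 * (n : ℝ) / r ^ 2 := by
        rw [le_div_iff₀ (by positivity)]
        linarith
      linarith
    calc (D : ℝ) ≤ (r - 1) * ((n : ℝ) / r - 2 * n / r ^ 2) := by rw [← h9]; exact h6
      _ ≤ (r - 1) * ((n / r : ℕ) : ℝ) := mul_le_mul_of_nonneg_left h10 (by linarith)
  refine ⟨hbD, by exact_mod_cast h8, ?_⟩
  have h13 : (D : ℝ) ≤ n := by
    refine h6.trans ?_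
    have h14 : (1 - 2 / (r : ℝ)) ≤ 1 := by
      have : 0 ≤ 2 / (r : ℝ) := by positivity
      linarith
    have h15 : qq r * (n : ℝ) ≤ 1 * n := mul_le_mul_of_nonneg_right hq1 hn0
    calc (1 - 2 / (r : ℝ)) * (qq r * n) ≤ 1 * (qq r * n) :=
          mul_le_mul_of_nonneg_right h14 (by positivity)
      _ ≤ n := by linarith
  exact_mod_cast h13

theorem bd_mono {V : Type} {r n N N' : ℕ} {G : SimpleGraph V} {g : V → Option (Fin r)} {w : V}
    (h : N ≤ N') (hb : Bd n N G g w) : Bd n N' G g w :=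
  ⟨hb.indep, hb.out, hb.tot, hb.bnd.trans (by exact_mod_cast h)⟩

theorem lam_nonneg (hP : P_statement) {V : Type} [Fintype V] (v : V) (G : SimpleGraph V) :
    0 ≤ lam G := by
  have : Nonempty V := ⟨v⟩
  exact (hP V G).1

/-- comparison of the defects -/
theorem def_le {V U : Type} [Fintype V] [Fintype U] {r m : ℕ} {G : SimpleGraph V}
    {H : SimpleGraph U} (hG : G.edgeSet.ncard = m) (hH : H.edgeSet.ncard = m)
    (h0 : 0 ≤ lam H) (hl : lam H ≤ lam G) : Def r G ≤ Def r H := by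
  unfold Def
  rw [hG, hH]
  have : lam H ^ 2 ≤ lam G ^ 2 := pow_le_pow_left₀ h0 hl 2
  linarith

end ItemMAXG

open ItemMAXG in
/-- Item MAXG. -/
theorem prfMAXG : P_statement → MAXE_statement → DEV_statement → CNTU_statement →
    STRG_statement → UBG_statement → KXB_statement → MEMB_statement → MAXG_statement := by
  intro hP hMAXE hDEV hCNTU hSTRG hUBG hKXB hMEMB W _ F r ε hr hcrit hcol hncol hε
  obtain ⟨hq0, hq1⟩ := qq_bd hr
  have hr1 : 1 ≤ r := by omega
  obtain ⟨b, nM, hM⟩ := hMEMB W F r hr hncol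
  obtain ⟨C, nK, hK⟩ := hKXB r (b + r) hr
  obtain ⟨nU, hU⟩ := hUBG r (b + r) 1 hr one_pos
  obtain ⟨N1, hS⟩ := hSTRG W F r ε (C + 2 * qq r * b + 1) hr hcrit hcol hε
  obtain ⟨C2, nK2, hK2⟩ := hKXB r (N1 + r) hr
  refine ⟨3 * N1 + r + ⌈|C2|⌉₊ + 1, fun η N' hη => ?_⟩
  have hη' : 0 < min (η / 2) 1 := lt_min (by linarith) one_pos
  obtain ⟨nS, hS1⟩ := hS (min (η / 2) 1) hη'
  obtain ⟨nU2, hU2⟩ := hUBG r N' (η / 2) hr (by linarith)
  refine ⟨nM + nK + nU + nK2 + nS + nU2 + ⌈((b : ℝ) + 1) / (ε * qq r)⌉₊ + r ^ 2,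
    fun n hn D hR => ?_⟩
  have hn1 : ((b : ℝ) + 1) / (ε * qq r) ≤ n := by
    refine (Nat.le_ceil _).trans ?_
    have : ⌈((b : ℝ) + 1) / (ε * qq r)⌉₊ ≤ n := by omega
    exact_mod_cast this
  obtain ⟨hbD, hD1, hDn⟩ := range hr hε hR hn1 (by omega)
  obtain ⟨hT1, hT2, hT3, hT4⟩ := turan hDEV r n hr1
  obtain ⟨k, G₀, g₀, w₀, hfree, hnc, hiso, hind, hw₀, hmiss, hlight, hsiz, hnbn⟩ :=
    hM n (by omega) D hbD hD1
  have hsg : siz g₀ = tz r n := funext hsiz
  have htot : ∑ t, siz g₀ t = n := by rw [hsg]; exact hT1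
  -- the number of edges of the member
  have hnR : ((∑ t, nbn G₀ g₀ w₀ t : ℕ) : ℝ) + b = D := by exact_mod_cast hnbn
  have hcnt := count hCNTU hDEV hr1 G₀ g₀ w₀ hind hw₀ htot
  rw [hmiss, hlight, hsg] at hcnt
  have hedge : G₀.edgeSet.ncard = (SimpleGraph.turanGraph n r).edgeSet.ncard + D := by
    have : (G₀.edgeSet.ncard : ℝ) = (SimpleGraph.turanGraph n r).edgeSet.ncard + D := by
      push_cast at hcnt hnR ⊢
      linarith
    exact_mod_cast this
  have hIn : InN r ((SimpleGraph.turanGraph n r).edgeSet.ncard + D) F G₀ :=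
    ⟨hfree, hedge, hiso, hnc⟩
  -- its defect
  have hBd : Bd n (b + r) G₀ g₀ w₀ := by
    refine ⟨hind, hw₀, htot, ?_⟩
    rw [hmiss, hlight, hsg]
    push_cast
    linarith
  have hD0 := hU (Fin k) G₀ g₀ w₀ n (by omega) hBd
  have hKap := hK n (by omega) D (siz g₀) (nbn G₀ g₀ w₀) htot
    (by rw [hsg]; push_cast; linarith [Nat.cast_nonneg (α := ℝ) b])
    (nbn_le G₀ g₀ w₀) hDn (by
      have : (∑ t, (nbn G₀ g₀ w₀ t : ℝ)) - D = - b := by
        rw [← hnR]; push_cast; ring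
      rw [this, abs_neg, abs_of_nonneg (Nat.cast_nonneg b)]
      push_cast
      linarith [Nat.cast_nonneg (α := ℝ) r])
  have hDef0 : Def r G₀ ≤ 2 * D * (qq r - D / n) + (C + 2 * qq r * b + 1) := by
    unfold Def
    unfold Cst at hD0
    rw [hmiss, hlight] at hD0
    have := (abs_le.1 hKap).2
    push_cast at hD0 this
    linarith
  have hl0 : 0 ≤ lam G₀ := lam_nonneg hP w₀ G₀
  refine ⟨?_, ?_⟩
  · obtain ⟨k', G, h1, h2⟩ := hMAXE W F r _ ⟨Fin k, inferInstance, G₀, hIn⟩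
    exact ⟨k', G, h1, h2⟩
  intro V _ G hG
  have hdef : Def r G ≤ 2 * D * (qq r - D / n) + (C + 2 * qq r * b + 1) :=
    (def_le hG.1.size hedge hl0 (hG.2 _ G₀ hIn)).trans hDef0
  obtain ⟨g, w, hB, hDC⟩ := hS1 n (by omega) D hR V G hG.1.free hG.1.size hdef
  have hDC1 : |Def r G - Cst G g w| ≤ η / 2 := hDC.trans (min_le_left _ _)
  have hDC2 : |Def r G - Cst G g w| ≤ 1 := hDC.trans (min_le_right _ _)
  -- the number of neighbours of `w`
  have hc := count hCNTU hDEV hr1 G g w hB.indep hB.out hB.tot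
  rw [hG.1.size] at hc
  have hb := hB.bnd
  have hdv := dev_nonneg (siz g)
  have hm0 : (0 : ℝ) ≤ (missSet G g).ncard := Nat.cast_nonneg _
  have hli0 : (0 : ℝ) ≤ (lightSet G g {w}).ncard := Nat.cast_nonneg _
  have hr0 : (0 : ℝ) ≤ r := Nat.cast_nonneg _
  have hN10 : (0 : ℝ) ≤ N1 := Nat.cast_nonneg _
  have hnb : |((∑ t, nbn G g w t : ℕ) : ℝ) - D| ≤ N1 + r := by
    rw [abs_le]
    push_cast at hc ⊢
    constructor <;> linarith
  have hKap2 := hK2 n (by omega) D (siz g) (nbn G g w) hB.tot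
    (by push_cast; linarith) (nbn_le G g w) hDn (by
      have := hnb
      push_cast at this ⊢
      exact this)
  have hce : (|C2| : ℝ) ≤ ⌈|C2|⌉₊ := Nat.le_ceil _
  have hC2 : C2 ≤ |C2| := le_abs_self _
  refine ⟨?_, g, w, bd_mono (by omega) hB, hDC1.trans (by linarith), ?_, ?_⟩
  · have h1 := abs_le.1 hKap2
    have h2 := abs_le.1 hDC2
    unfold Cst at h2
    have h3 : 0 ≤ 2 * qq r * (((missSet G g).ncard : ℝ) + (lightSet G g {w}).ncard) := by
      positivity
    have h4 : 2 * qq r * (((missSet G g).ncard : ℝ) + (lightSet G g {w}).ncard) ≤ 2 * N1 := by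
      have h5 : ((missSet G g).ncard : ℝ) + (lightSet G g {w}).ncard ≤ N1 := by linarith
      calc 2 * qq r * (((missSet G g).ncard : ℝ) + (lightSet G g {w}).ncard)
          ≤ 2 * 1 * N1 := by
            apply mul_le_mul _ h5 (by linarith) (by norm_num)
            linarith
        _ = 2 * N1 := by ring
    rw [abs_le]
    push_cast
    constructor <;> linarith [h1.1, h1.2, h2.1, h2.2]
  · refine hnb.trans ?_
    push_cast
    have : (0 : ℝ) ≤ (⌈|C2|⌉₊ : ℝ) := Nat.cast_nonneg _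
    linarith
  · intro U _ H h u hH hBH
    have hlH : 0 ≤ lam H := lam_nonneg hP u H
    have h1 := hU2 U H h u n (by omega) hBH
    have h2 : Def r G ≤ Def r H := def_le hG.1.size hH.size hlH (hG.2 _ H hH)
    have h3 := (abs_le.1 hDC1).1
    have h4 : Def r H ≤ Cst H h u + η / 2 := h1
    linarith

end MP0c3a8f

end
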