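import Pool.Agent.Work.MP_0c3a8f_co.PB.Stmts2
import Pool.Agent.Work.MP_0c3a8f_co.PB.Stmts4
import Pool.Agent.Work.MP_0c3a8f_co.Bd.B09
import Pool.Agent.Work.MP_0c3a8f_co.PB.Stmts3
import Pool.Agent.Work.MP_0c3a8f_co.PB.ItemGAP1
import Pool.Agent.Work.MP_0c3a8f_co.Bd.B05
import Pool.Agent.Work.MP_0c3a8f_co.PB.Stmts10

/-! Bundle of small proof modules (one section per former module). -/

section

/-!
# MP_0c3a8f_co, phase B, item ORDR1: the missing edge is between classes of maximal size, whole range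
-/

open Finset

namespace MP0c3a8f

namespace ORDR1x

/-- complete multipartite graph without the edge `pp'`, and a vertex `w` with neighbours `Q` -/
def Gr {V : Type} {r : ℕ} (f : V → Option (Fin r)) (w p p' : V) (Q : V → Prop)
    (hw : f w = none) : SimpleGraph V where
  Adj u v := (f u ≠ none ∧ f v ≠ none ∧ f u ≠ f v ∧ s(u, v) ≠ s(p, p')) ∨
    (u = w ∧ f v ≠ none ∧ Q v) ∨ (v = w ∧ f u ≠ none ∧ Q u)
  symm := ⟨fun u v h => by
    rcases h with h | h | h
    · exact Or.inl ⟨h.2.1, h.1, h.2.2.1.symm, by rw [Sym2.eq_swap]; exact h.2.2.2⟩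
    · exact Or.inr (Or.inr h)
    · exact Or.inr (Or.inl h)⟩
  loopless := ⟨fun u h => by
    rcases h with h | h | h
    · exact h.2.2.1 rfl
    · exact h.2.1 (h.1 ▸ hw)
    · exact h.2.1 (h.1 ▸ hw)⟩

theorem gr_w {V : Type} {r : ℕ} {f : V → Option (Fin r)} {w p p' : V} {Q : V → Prop}
    {hw : f w = none} (y : V) : (Gr f w p p' Q hw).Adj w y ↔ f y ≠ none ∧ Q y := by
  constructor
  · rintro (h | h | h)
    · exact absurd hw h.1
    · exact h.2
    · exact absurd hw h.2.1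
  · intro h
    exact Or.inr (Or.inl ⟨rfl, h⟩)

theorem gr_ty {V : Type} {r : ℕ} {f : V → Option (Fin r)} {w p p' : V} {Q : V → Prop}
    {hw : f w = none} {i j : Fin r} (out : ∀ v, f v = none ↔ v = w) (ij : i ≠ j)
    (hp : f p = some i) (hp' : f p' = some j) : Ty1 (Gr f w p p' Q hw) f w p p' i j := by
  refine ⟨out, ij, hp, hp', fun u v hu hv => ?_⟩
  constructor
  · rintro (h | h | h)
    · exact h.2.2
    · exact absurd ((out u).2 h.1) hu
    · exact absurd ((out v).2 h.1) hv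
  · intro h
    exact Or.inl ⟨hu, hv, h⟩

theorem nbn_eq {V : Type} {r : ℕ} {G H : SimpleGraph V} {f : V → Option (Fin r)} {w : V}
    (h : ∀ y, H.Adj w y ↔ G.Adj w y) (t : Fin r) : nbn H f w t = nbn G f w t := by
  unfold nbn
  congr 1
  ext v
  simp only [Set.mem_ofPred_eq, h]

theorem qq_pos {r : ℕ} (hr : 3 ≤ r) : 0 < qq r := by
  unfold qq
  have h : (3 : ℝ) ≤ r := by exact_mod_cast hr
  have : 1 / (r : ℝ) < 1 := by
    rw [div_lt_one (by linarith)]
    linarith
  linarith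

/-- the first step -/
theorem step1 (hMV : MV1_statement) (r : ℕ) (ε : ℝ) (hr : 3 ≤ r) (hε : 0 < ε) :
    ∃ n₀ : ℕ, ∀ (V : Type) [Fintype V] (G : SimpleGraph V) (f : V → Option (Fin r))
    (w p p' : V) (i j k : Fin r) (n : ℕ), n₀ ≤ n → Th1 G f w p p' i j → Bal n f →
    ε * n ≤ ((∑ t, nbn G f w t : ℕ) : ℝ) →
    ((∑ t, nbn G f w t : ℕ) : ℝ) ≤ (1 - 2 / (r : ℝ)) * (qq r * n) + 1 → k ≠ i → k ≠ j →
    siz f k = siz f i + 1 → nbn G f w k + 2 ≤ siz f k →
    ∃ (G₁ : SimpleGraph V) (c : V), Ty1 G₁ f w p p' i j ∧ lam G ≤ lam G₁ ∧ f c = some k ∧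
      G₁.Adj w c ∧ G₁.Adj w p ∧ G₁.Adj w p' ∧ nbn G₁ f w k = 1 ∧ nbn G₁ f w j = 1 ∧
      (∀ t, 1 ≤ nbn G₁ f w t) ∧ ∑ t, nbn G₁ f w t = ∑ t, nbn G f w t := by
  classical
  obtain ⟨n₁, hn₁⟩ := hMV r ε hr hε
  refine ⟨n₁, ?_⟩
  intro V _ G f w p p' i j k n hn hTh hBal hlo hup hki hkj hsiz hnk
  have hty := hTh.ty
  have hpos : 0 < nbn G f w k := hTh.pos k
  have hfin : ∀ s : Set V, s.Finite := fun s => Set.toFinite s
  obtain ⟨c, hc⟩ := (Set.ncard_pos (hfin _)).1 hpos
  have hck : f c = some k := hc.1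
  have hwc : G.Adj w c := hc.2
  by_cases h1 : nbn G f w k = 1
  · exact ⟨G, c, hty, le_refl _, hck, hwc, hTh.wp, hTh.wp', h1, hTh.nj, hTh.pos, rfl⟩
  have hw : f w = none := (hty.out w).2 rfl
  -- the set `M`
  obtain ⟨A, hA⟩ : ∃ A : Finset V, ∀ v, v ∈ A ↔ f v = some k ∧ G.Adj w v :=
    ⟨Finset.univ.filter (fun v => f v = some k ∧ G.Adj w v), fun v => by simp⟩
  have hAcard : A.card = nbn G f w k := by
    unfold nbn
    rw [← Set.ncard_coe_finset]
    congr 1
    ext v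
    rw [Finset.mem_coe, hA]
    rfl
  have hcA : c ∈ A := (hA c).2 hc
  have hMcard : (A.erase c).card = nbn G f w k - 1 := by
    rw [Finset.card_erase_of_mem hcA, hAcard]
  -- the class `i`
  obtain ⟨B, hB⟩ : ∃ B : Finset V, ∀ v, v ∈ B ↔ f v = some i :=
    ⟨Finset.univ.filter (fun v => f v = some i), fun v => by simp⟩
  have hBcard : B.card = siz f i := by
    unfold siz
    rw [← Set.ncard_coe_finset]
    congr 1
    ext v
    rw [Finset.mem_coe, hB]
    rfl
  have hpB : p ∈ B := (hB p).2 hty.hp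
  have hBp : (B.erase p).card = siz f i - 1 := by
    rw [Finset.card_erase_of_mem hpB, hBcard]
  obtain ⟨M', hM'B, hM'card⟩ := Finset.exists_subset_card_eq
    (show (A.erase c).card ≤ (B.erase p).card by omega)
  have hM' : ∀ y ∈ M', f y = some i ∧ y ≠ p := by
    intro y hy
    have := hM'B hy
    rw [Finset.mem_erase, hB] at this
    exact ⟨this.2, this.1⟩
  -- the only neighbour in the class `i` is `p`
  have honly : ∀ y, f y = some i → G.Adj w y → y = p := by
    intro y hy hwy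
    have h2 := hTh.ni
    unfold nbn at h2
    obtain ⟨a, ha⟩ := Set.ncard_eq_one.1 h2
    have hya : y ∈ ({a} : Set V) := by rw [← ha]; exact ⟨hy, hwy⟩
    have hpa : p ∈ ({a} : Set V) := by rw [← ha]; exact ⟨hty.hp, hTh.wp⟩
    rw [Set.mem_singleton_iff] at hya hpa
    rw [hya, hpa]
  have hne : ∀ {x y : V} {s t : Fin r}, f x = some s → f y = some t → s ≠ t → x ≠ y := by
    intro x y s t hx hy hst hxy
    rw [hxy, hy] at hx
    exact hst (Option.some.inj hx).symm
  obtain ⟨Q, hQ⟩ : ∃ Q : V → Prop, ∀ y, Q y ↔ (G.Adj w y ∧ y ∉ A.erase c) ∨ y ∈ M' :=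
    ⟨_, fun y => Iff.rfl⟩
  obtain ⟨G₁, hG₁⟩ : ∃ G₁ : SimpleGraph V, G₁ = Gr f w p p' Q hw := ⟨_, rfl⟩
  have hadj : ∀ y, G₁.Adj w y ↔ (G.Adj w y ∧ y ∉ A.erase c) ∨ y ∈ M' := by
    intro y
    rw [hG₁, gr_w, hQ]
    constructor
    · exact fun h => h.2
    · intro h
      refine ⟨?_, h⟩
      rcases h with h | h
      · intro h3
        exact h.1.ne ((hty.out y).1 h3).symm
      · rw [(hM' y h).1]
        exact Option.some_ne_none _
  have hty₁ : Ty1 G₁ f w p p' i j := by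
    rw [hG₁]
    exact gr_ty hty.out hty.ij hty.hp hty.hp'
  have hlam : lam G < lam G₁ := by
    refine hn₁ V G G₁ f w p p' i j k i (A.erase c) M' n hn hty hty₁ hBal hlo hup hki ?_
      hM'card.symm ?_ ?_ hadj (Or.inl hsiz)
    · rw [← Finset.card_pos, hMcard]
      omega
    · intro y hy
      rw [Finset.mem_erase, hA] at hy
      exact ⟨hy.2.1, hy.2.2, hne hy.2.1 hty.hp hki, hne hy.2.1 hty.hp' hkj⟩
    · intro y hy
      obtain ⟨h3, h4⟩ := hM' y hy
      exact ⟨h3, fun h5 => h4 (honly y h3 h5), h4, hne h3 hty.hp' hty.ij⟩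
  have hwc₁ : G₁.Adj w c := by
    rw [hadj]
    exact Or.inl ⟨hwc, Finset.notMem_erase c A⟩
  have hnotA : ∀ y t, f y = some t → t ≠ k → y ∉ A.erase c := by
    intro y t hy htk hyA
    rw [Finset.mem_erase, hA, hy] at hyA
    exact htk (Option.some.inj hyA.2.1)
  have hwp₁ : G₁.Adj w p := by
    rw [hadj]
    exact Or.inl ⟨hTh.wp, hnotA p i hty.hp hki.symm⟩
  have hwp'₁ : G₁.Adj w p' := by
    rw [hadj]
    exact Or.inl ⟨hTh.wp', hnotA p' j hty.hp' hkj.symm⟩
  have hother : ∀ t, t ≠ i → t ≠ k → nbn G₁ f w t = nbn G f w t := by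
    intro t hti htk
    unfold nbn
    congr 1
    ext y
    simp only [Set.mem_ofPred_eq, hadj]
    constructor
    · rintro ⟨hy, h | h⟩
      · exact ⟨hy, h.1⟩
      · have := (hM' y h).1
        rw [hy] at this
        exact absurd (Option.some.inj this) hti
    · rintro ⟨hy, h⟩
      exact ⟨hy, Or.inl ⟨h, hnotA y t hy htk⟩⟩
  have hk₁ : nbn G₁ f w k = 1 := by
    unfold nbn
    rw [Set.ncard_eq_one]
    refine ⟨c, ?_⟩
    ext y
    simp only [Set.mem_ofPred_eq, Set.mem_singleton_iff, hadj]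
    constructor
    · rintro ⟨hy, h | h⟩
      · by_contra hyc
        exact h.2 (Finset.mem_erase.2 ⟨hyc, (hA y).2 ⟨hy, h.1⟩⟩)
      · have := (hM' y h).1
        rw [hy] at this
        exact absurd (Option.some.inj this) hki
    · rintro rfl
      exact ⟨hck, Or.inl ⟨hwc, Finset.notMem_erase _ A⟩⟩
  have hi₁ : nbn G₁ f w i = 1 + (nbn G f w k - 1) := by
    have h3 : {v | f v = some i ∧ G₁.Adj w v} = ((insert p M' : Finset V) : Set V) := by
      ext y
      rw [Finset.mem_coe, Finset.mem_insert]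
      simp only [Set.mem_ofPred_eq, hadj]
      constructor
      · rintro ⟨hy, h | h⟩
        · exact Or.inl (honly y hy h.1)
        · exact Or.inr h
      · rintro (h | h)
        · rw [h]
          exact ⟨hty.hp, Or.inl ⟨hTh.wp, hnotA p i hty.hp hki.symm⟩⟩
        · exact ⟨(hM' y h).1, Or.inr h⟩
    unfold nbn
    rw [h3, Set.ncard_coe_finset, Finset.card_insert_of_notMem, hM'card, hMcard]
    · unfold nbn
      rw [add_comm]
    · intro h
      exact (hM' p h).2 rfl
  refine ⟨G₁, c, hty₁, hlam.le, hck, hwc₁, hwp₁, hwp'₁, hk₁, ?_, ?_, ?_⟩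
  · rw [hother j hty.ij.symm hkj.symm]
    exact hTh.nj
  · intro t
    by_cases hti : t = i
    · rw [hti, hi₁]
      omega
    by_cases htk : t = k
    · rw [htk, hk₁]
    rw [hother t hti htk]
    exact hTh.pos t
  · have h4 : ∀ t, nbn G₁ f w t + (if t = k then nbn G f w k - 1 else 0)
        = nbn G f w t + (if t = i then nbn G f w k - 1 else 0) := by
      intro t
      by_cases hti : t = i
      · rw [hti, if_neg hki.symm, if_pos rfl, hi₁, hTh.ni, add_zero]
      by_cases htk : t = k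
      · rw [htk, if_pos rfl, if_neg hki, hk₁]
        omega
      rw [if_neg hti, if_neg htk, hother t hti htk]
    have h5 := Finset.sum_congr rfl (fun t (_ : t ∈ (Finset.univ : Finset (Fin r))) => h4 t)
    rw [Finset.sum_add_distrib, Finset.sum_add_distrib, Finset.sum_ite_eq', Finset.sum_ite_eq',
      if_pos (Finset.mem_univ _), if_pos (Finset.mem_univ _)] at h5
    exact Nat.add_right_cancel h5

end ORDR1x

open ORDR1x in
theorem prfORDR1 : MV1_statement → SW1_statement → MEM1_statement → EVFR1_statement →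
    ORDR1_statement := by
  intro hMV hSW hMEM hEVF r ε hr hε
  have hq := qq_pos hr
  have hr0 : (0 : ℝ) < r := by
    have : 0 < r := by omega
    exact_mod_cast this
  obtain ⟨ε', hε'⟩ : ∃ ε' : ℝ, ε' = ε * qq r := ⟨_, rfl⟩
  have hε'0 : 0 < ε' := by
    rw [hε']
    positivity
  obtain ⟨n₁, hn₁⟩ := step1 hMV r ε' hr hε'0
  obtain ⟨n₂, hn₂⟩ := hSW r ε' hr hε'0
  obtain ⟨n₃, hn₃⟩ := hEVF r ε hr hε
  refine ⟨n₁ + n₂ + n₃ + 2 * r, ?_⟩
  intro n hn D hR V _ G f w p p' i j hMx hTh hBal hsum k hki hkj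
  by_contra hlt
  rw [not_le] at hlt
  have hsizk : siz f k = siz f i + 1 := by
    have h1 := hBal.1 k
    have h2 := hBal.1 i
    omega
  have hnr : 2 ≤ n / r := by
    rw [Nat.le_div_iff_mul_le (by omega)]
    omega
  have hsiz2 : ∀ t, 2 ≤ siz f t := fun t => hnr.trans (hBal.1 t).1
  have hnbk : nbn G f w k + 2 ≤ siz f k := by
    rcases (hn₃ n (by omega) D hR V G f w p p' i j hMx hTh hBal hsum).2.2 k hki hkj with h | h
    · exact h
    · obtain ⟨l, hl⟩ := h
      have h1 := hBal.1 l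
      have h2 := hBal.1 i
      omega
  have hcast : ((∑ t, nbn G f w t : ℕ) : ℝ) = (D : ℝ) + 1 := by
    rw [hsum]
    push_cast
    ring
  have hn0 : (0 : ℝ) ≤ n := Nat.cast_nonneg n
  have hlo : ε' * n ≤ ((∑ t, nbn G f w t : ℕ) : ℝ) := by
    rw [hcast, hε']
    have := hR.1
    nlinarith
  have hup : ((∑ t, nbn G f w t : ℕ) : ℝ) ≤ (1 - 2 / (r : ℝ)) * (qq r * n) + 1 := by
    rw [hcast]
    have := hR.2
    have h3 : 0 ≤ ε * (qq r * n) := by positivity
    nlinarith
  obtain ⟨G₁, c, hty₁, hlam₁, hck, hwc, hwp, hwp', hk1, hj1, hpos, hsum₁⟩ :=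
    hn₁ V G f w p p' i j k n (by omega) hTh hBal hlo hup hki hkj hsizk hnbk
  have hw : f w = none := (hty₁.out w).2 rfl
  obtain ⟨G₂, hG₂⟩ : ∃ G₂ : SimpleGraph V, G₂ = Gr f w c p' (fun y => G₁.Adj w y) hw :=
    ⟨_, rfl⟩
  have hadj : ∀ y, G₂.Adj w y ↔ G₁.Adj w y := by
    intro y
    rw [hG₂, gr_w]
    constructor
    · exact fun h => h.2
    · intro h
      exact ⟨fun h3 => h.ne ((hty₁.out y).1 h3).symm, h⟩
  have hty₂ : Ty1 G₂ f w c p' k j := by
    rw [hG₂]
    exact gr_ty hty₁.out hkj hck hty₁.hp'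
  have hlam₂ : lam G₁ < lam G₂ := by
    refine hn₂ V G₁ G₂ f w p p' c i j k n (by omega) hty₁ hty₂ hBal ?_ ?_ hki hadj hwp hwc hk1
      hsizk
    · rw [hsum₁]
      exact hlo
    · rw [hsum₁]
      exact hup
  have hTh₂ : Th1 G₂ f w c p' k j := by
    refine ⟨hty₂, (hadj _).2 hwc, (hadj _).2 hwp', ?_, ?_, fun t => ?_⟩
    · rw [nbn_eq hadj, hk1]
    · rw [nbn_eq hadj, hj1]
    · rw [nbn_eq hadj]
      exact hpos t
  obtain ⟨-, -, -, hcount⟩ := hMEM r V G f w p p' i j hr hTh hsiz2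
  obtain ⟨hfree, hcol, hiso, hcount₂⟩ := hMEM r V G₂ f w c p' k j hr hTh₂ hsiz2
  have hsum₂ : ∑ t, nbn G₂ f w t = ∑ t, nbn G f w t := by
    rw [← hsum₁]
    exact Finset.sum_congr rfl (fun t _ => nbn_eq hadj t)
  rw [hsum₂] at hcount₂
  have hedge : G₂.edgeSet.ncard = (SimpleGraph.turanGraph n r).edgeSet.ncard + D := by
    rw [← hMx.1.size]
    omega
  have hle := hMx.2 V G₂ ⟨hfree, hedge, hiso, hcol⟩
  linarith

end MP0c3a8f

end

section

/-!
# MP_0c3a8f_co, phase B, item STRG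
-/

open Finset

namespace MP0c3a8f

theorem prfSTRG : STRB_statement → LBG_statement → UBG_statement → STRG_statement := by
  intro hS hL hU W _ F r ε C hr hcrit hcol hε
  obtain ⟨N, hN⟩ := hS W F r ε C hr hcrit hcol hε
  refine ⟨N, ?_⟩
  intro η hη
  obtain ⟨δ, hδ, n₁, h1⟩ := hL r N η hr hη
  obtain ⟨n₂, h2⟩ := hN δ hδ
  obtain ⟨n₃, h3⟩ := hU r N η hr hη
  refine ⟨max n₁ (max n₂ n₃), ?_⟩
  intro n hn D hRR V _ G hfree hcard hdef
  have hn1 : n₁ ≤ n := le_trans (le_max_left _ _) hn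
  have hn2 : n₂ ≤ n := le_trans (le_trans (le_max_left _ _) (le_max_right _ _)) hn
  have hn3 : n₃ ≤ n := le_trans (le_trans (le_max_right _ _) (le_max_right _ _)) hn
  obtain ⟨z, g, w, hstr⟩ := h2 n hn2 D hRR.1 hRR.2 V G hfree hcard hdef
  have hbd : Bd n N G g w :=
    ⟨hstr.flat.indep, hstr.flat.exc w (Finset.mem_singleton_self w), hstr.tot, hstr.bnd⟩
  refine ⟨g, w, hbd, ?_⟩
  have e1 := h1 V G z g w n hn1 hstr
  have e2 := h3 V G g w n hn3 hbd
  rw [abs_le]
  unfold Def Cst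
  unfold Cst at e2
  constructor <;> linarith

end MP0c3a8f

end

section

/-!
# MP_0c3a8f_co: item CHU (cheap members in the upper range)
-/

open Finset

namespace MP0c3a8f

namespace ItemCHU

theorem qq_bounds {r : ℕ} (hr : 3 ≤ r) : 0 ≤ qq r ∧ qq r ≤ 1 := by
  have hr' : (3 : ℝ) ≤ r := by exact_mod_cast hr
  unfold qq
  have h1 : 0 ≤ 1 / (r : ℝ) := by positivity
  have h2 : 1 / (r : ℝ) ≤ 1 := by
    rw [div_le_one (by linarith)]
    linarith
  constructor <;> linarith

theorem two_div_bounds {r : ℕ} (hr : 3 ≤ r) : 0 ≤ 2 / (r : ℝ) ∧ 2 / (r : ℝ) ≤ 1 := by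
  have hr' : (3 : ℝ) ≤ r := by exact_mod_cast hr
  refine ⟨by positivity, ?_⟩
  rw [div_le_one (by linarith)]
  linarith

/-- the bound `B ≤ n` in the upper range -/
theorem B_le {r n B : ℕ} {ε : ℝ} (hr : 3 ≤ r) (hε : 0 < ε) (h : RU r n B ε) : B ≤ n := by
  obtain ⟨q0, q1⟩ := qq_bounds hr
  obtain ⟨t0, t1⟩ := two_div_bounds hr
  have hn : (0 : ℝ) ≤ n := by positivity
  have hqn : 0 ≤ qq r * n := mul_nonneg q0 hn
  have hqn1 : qq r * n ≤ n := by nlinarith
  have h2 : (B : ℝ) ≤ n := by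
    calc (B : ℝ) ≤ (2 / (r : ℝ) - ε) * (qq r * n) := h.2
      _ ≤ 1 * (qq r * n) := by
          apply mul_le_mul_of_nonneg_right _ hqn
          linarith
      _ ≤ n := by linarith
  exact_mod_cast h2

theorem lightSet_empty {V : Type} {r : ℕ} (G : SimpleGraph V) (g : V → Option (Fin r)) :
    lightSet G g ∅ = outSet G g := by
  ext e
  simp [lightSet, outSet]

/-- the room for the sizes of the classes -/
theorem room {r n n₀ a s : ℕ} {C : ℝ} (hr : 3 ≤ r) (hC : 0 ≤ C)
    (hn : (2 * (r : ℝ) * (n₀ + C) + 1) ^ 2 ≤ n)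
    (ha : (a : ℝ) ≤ C * Real.sqrt (Real.sqrt n)) (hs : (n : ℝ) / (2 * r) ≤ s) : n₀ + a ≤ s := by
  have hr' : (3 : ℝ) ≤ r := by exact_mod_cast hr
  have hX0 : (0 : ℝ) ≤ 2 * (r : ℝ) * (n₀ + C) := by positivity
  have hX : 2 * (r : ℝ) * (n₀ + C) + 1 ≤ Real.sqrt n := Real.le_sqrt_of_sq_le hn
  have hq1 : 1 ≤ Real.sqrt n := by linarith
  have hq0 : 0 ≤ Real.sqrt n := by linarith
  have hss : Real.sqrt (Real.sqrt n) ≤ Real.sqrt n := by
    rw [Real.sqrt_le_left hq0]
    nlinarith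
  have hnn : Real.sqrt n * Real.sqrt n = n := Real.mul_self_sqrt (by positivity)
  have ha2 : (a : ℝ) ≤ C * Real.sqrt n := ha.trans (mul_le_mul_of_nonneg_left hss hC)
  have hdiv : (n₀ + C) * Real.sqrt n ≤ (n : ℝ) / (2 * r) := by
    rw [le_div_iff₀ (by positivity)]
    nlinarith
  have hn0 : (n₀ : ℝ) ≤ n₀ * Real.sqrt n := by
    have : (0 : ℝ) ≤ n₀ := by positivity
    nlinarith
  have : (n₀ : ℝ) + a ≤ s := by
    calc (n₀ : ℝ) + a ≤ n₀ * Real.sqrt n + C * Real.sqrt n := by linarith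
      _ = (n₀ + C) * Real.sqrt n := by ring
      _ ≤ (n : ℝ) / (2 * r) := hdiv
      _ ≤ s := hs
  exact_mod_cast this

/-- the final computation -/
theorem final_ineq {r : ℕ} {n B : ℕ} {q t a b C₁ C' dv cb D s : ℝ} (q0 : 0 ≤ q) (q1 : q ≤ 1)
    (t0 : 0 ≤ t) (t1 : t ≤ 1) (hr0 : (0 : ℝ) ≤ r) (ha0 : 0 ≤ a) (hb0 : 0 ≤ b)
    (hB0 : (0 : ℝ) ≤ B) (hC₁ : 0 ≤ C₁) (hnR : (1 : ℝ) ≤ n) (hs : 1 ≤ s) (ha : a ≤ C₁ * s)
    (hdev : dv ≤ r + 2 * B + 2 * b)
    (hcub : cr r * (2 * B * Real.sqrt (2 * B)) - C₁ * n ≤ cb)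
    (hD : D ≤ q * (1 - t) * dv + 2 * q * (a + b) - 2 * q ^ 2 * cb / n + C') :
    D ≤ 2 * q * (1 - t) * B - 2 * q ^ 2 * cr r * (2 * B * Real.sqrt (2 * B)) / n
      + ((r : ℝ) + 4 * b + 4 * C₁ + |C'|) * s := by
  have hA : q * (1 - t) * dv ≤ 2 * q * (1 - t) * B + (r + 2 * b) := by
    have h1 : 0 ≤ q * (1 - t) := mul_nonneg q0 (by linarith)
    have h2 : q * (1 - t) ≤ 1 := by nlinarith
    have h3 : q * (1 - t) * dv ≤ q * (1 - t) * (r + 2 * B + 2 * b) :=
      mul_le_mul_of_nonneg_left hdev h1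
    have h4 : q * (1 - t) * (r + 2 * b) ≤ 1 * (r + 2 * b) :=
      mul_le_mul_of_nonneg_right h2 (by positivity)
    calc q * (1 - t) * dv ≤ q * (1 - t) * (r + 2 * B + 2 * b) := h3
      _ = 2 * q * (1 - t) * B + q * (1 - t) * (r + 2 * b) := by ring
      _ ≤ 2 * q * (1 - t) * B + (r + 2 * b) := by linarith
  have hBt : 2 * q * (a + b) ≤ 2 * (C₁ * s) + 2 * b := by
    have h1 : q * (a + b) ≤ 1 * (a + b) :=
      mul_le_mul_of_nonneg_right q1 (by positivity)
    linarith
  have hn0 : (0 : ℝ) < n := by linarith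
  have hCt : - (2 * q ^ 2 * cb / n)
      ≤ - (2 * q ^ 2 * cr r * (2 * B * Real.sqrt (2 * B)) / n) + 2 * C₁ := by
    have hq2 : 0 ≤ 2 * q ^ 2 := by positivity
    have hq3 : q ^ 2 ≤ 1 := by nlinarith
    have h1 : 2 * q ^ 2 * (cr r * (2 * B * Real.sqrt (2 * B)) - C₁ * n)
        ≤ 2 * q ^ 2 * cb := mul_le_mul_of_nonneg_left hcub hq2
    have h2 : 2 * q ^ 2 * (cr r * (2 * B * Real.sqrt (2 * B)) - C₁ * n) / n
        ≤ 2 * q ^ 2 * cb / n := div_le_div_of_nonneg_right h1 hn0.le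
    have h3 : 2 * q ^ 2 * (cr r * (2 * B * Real.sqrt (2 * B)) - C₁ * n) / n
        = 2 * q ^ 2 * cr r * (2 * B * Real.sqrt (2 * B)) / n - 2 * q ^ 2 * C₁ := by
      field_simp
    have h4 : q ^ 2 * C₁ ≤ 1 * C₁ := mul_le_mul_of_nonneg_right hq3 hC₁
    linarith
  have hC'abs : C' ≤ |C'| := le_abs_self _
  have h1 : (r : ℝ) * 1 ≤ r * s := mul_le_mul_of_nonneg_left hs hr0
  have h2 : b * 1 ≤ b * s := mul_le_mul_of_nonneg_left hs hb0
  have h3 : C₁ * 1 ≤ C₁ * s := mul_le_mul_of_nonneg_left hs hC₁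
  have h4 : |C'| * 1 ≤ |C'| * s := mul_le_mul_of_nonneg_left hs (abs_nonneg _)
  have h5 : ((r : ℝ) + 4 * b + 4 * C₁ + |C'|) * s
      = r * s + 4 * (b * s) + 4 * (C₁ * s) + |C'| * s := by ring
  rw [h5]
  linarith

end ItemCHU

open ItemCHU in
theorem prfCHU : NUM_statement → MEMU_statement → LOWU_statement → CNTU_statement →
    DEV_statement → CHU_statement := by
  intro hNUM hMEMU hLOWU hCNTU hDEV W _ F r ε hr hF hε
  obtain ⟨b, n₀', hM⟩ := hMEMU W F r hr hF
  obtain ⟨C₁, n₁, hC₁, hN⟩ := hNUM r b ε hr hε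
  obtain ⟨C', n₂, hL⟩ := hLOWU r ((r : ℝ) + 2 * b + 2 + C₁) hr (by positivity)
  refine ⟨(r : ℝ) + 4 * b + 4 * C₁ + |C'|,
    max (max n₁ n₂) (max 1 ⌈(2 * (r : ℝ) * (n₀' + C₁) + 1) ^ 2⌉₊), by positivity, ?_⟩
  intro n hn B m hRU hm
  have hn1 : n₁ ≤ n := le_trans (le_trans (le_max_left _ _) (le_max_left _ _)) hn
  have hn2 : n₂ ≤ n := le_trans (le_trans (le_max_right _ _) (le_max_left _ _)) hn
  have hn3 : 1 ≤ n := le_trans (le_trans (le_max_left _ _) (le_max_right _ _)) hn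
  have hn4 : (2 * (r : ℝ) * (n₀' + C₁) + 1) ^ 2 ≤ n := by
    have h1 : ⌈(2 * (r : ℝ) * (n₀' + C₁) + 1) ^ 2⌉₊ ≤ n :=
      le_trans (le_trans (le_max_right _ _) (le_max_right _ _)) hn
    exact (Nat.le_ceil _).trans (by exact_mod_cast h1)
  have hBn : B ≤ n := B_le hr hε hRU
  obtain ⟨σ, a, hσn, hσ2, ha, hcub, hσt⟩ := hN n hn1 B hRU.1 hBn
  obtain ⟨k, G, g, hFG, hGc, hiso, hind, hmiss, hout, hsiz⟩ :=
    hM σ a (fun t => room hr hC₁ hn4 ha (hσt t))
  have hsizσ : siz g = σ := funext hsiz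
  -- counting
  obtain ⟨e, he, hcnt⟩ := hCNTU r (Fin k) G g ∅ hind (by simp)
  have he0 : e = 0 := by
    simp at he
    exact he
  subst he0
  rw [lightSet_empty, hmiss, hout, hsizσ, hσn] at hcnt
  obtain ⟨htz, hmin, hdtz, hdσ, -, hSz⟩ := hDEV r n σ (by omega) hσn
  obtain ⟨-, -, -, hdtz2, -, -⟩ := hDEV r n (tz r n) (by omega) htz
  unfold Sz at hSz
  rw [htz] at hSz
  have hmG : G.edgeSet.ncard = m := by
    simp only [Finset.sum_empty] at hcnt
    omega
  refine ⟨k, G, ⟨hFG, hmG, hiso, hGc⟩, ?_⟩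
  -- bounds
  obtain ⟨q0, q1⟩ := qq_bounds hr
  obtain ⟨t0, t1⟩ := two_div_bounds hr
  have hnR : (1 : ℝ) ≤ n := by exact_mod_cast hn3
  have hBR : (B : ℝ) ≤ n := by exact_mod_cast hBn
  have hq1 : 1 ≤ Real.sqrt n := by
    rw [Real.one_le_sqrt]
    exact hnR
  have hqq1 : 1 ≤ Real.sqrt (Real.sqrt n) := by
    rw [Real.one_le_sqrt]
    exact hq1
  have hss : Real.sqrt (Real.sqrt n) ≤ Real.sqrt n := by
    rw [Real.sqrt_le_left (by linarith)]
    nlinarith
  have hσ2R : ∑ t, (σ t : ℝ) ^ 2 + 2 * a = ∑ t, (tz r n t : ℝ) ^ 2 + 2 * B + 2 * b := by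
    exact_mod_cast hσ2
  have hdev : dev σ = dev (tz r n) + 2 * B + 2 * b - 2 * a := by
    rw [hdσ, hdtz2]
    linarith
  have ha0 : (0 : ℝ) ≤ a := by positivity
  have hb0 : (0 : ℝ) ≤ b := by positivity
  have hr0 : (0 : ℝ) ≤ r := by positivity
  have hB0 : (0 : ℝ) ≤ B := by positivity
  have hdevle : dev σ ≤ r + 2 * B + 2 * b := by linarith
  have hdevn : dev (siz g) ≤ ((r : ℝ) + 2 * b + 2 + C₁) * n := by
    rw [hsizσ]
    have e1 := mul_nonneg hr0 (sub_nonneg.2 hnR)
    have e2 := mul_nonneg hb0 (sub_nonneg.2 hnR)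
    have e3 := mul_nonneg hC₁ (by linarith : (0 : ℝ) ≤ n)
    have e4 : ((r : ℝ) + 2 * b + 2 + C₁) * n = r * n + 2 * (b * n) + 2 * n + C₁ * n := by ring
    rw [e4]
    linarith
  have hmissn : ((missSet G g).ncard : ℝ) ≤ ((r : ℝ) + 2 * b + 2 + C₁) * Real.sqrt n := by
    rw [hmiss]
    have h1 : C₁ * Real.sqrt (Real.sqrt n) ≤ C₁ * Real.sqrt n :=
      mul_le_mul_of_nonneg_left hss hC₁
    have h2 : 0 ≤ ((r : ℝ) + 2 * b + 2) * Real.sqrt n := by positivity
    have h3 : ((r : ℝ) + 2 * b + 2 + C₁) * Real.sqrt n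
        = ((r : ℝ) + 2 * b + 2) * Real.sqrt n + C₁ * Real.sqrt n := by ring
    rw [h3]
    linarith
  have hsum : ∑ t, siz g t = n := by rw [hsizσ, hσn]
  have hD := hL (Fin k) G g n hind hn2 hsum hdevn hmissn
  rw [hmiss, hout, hsizσ] at hD
  have hq1' : 1 ≤ Real.sqrt (Real.sqrt n) := hqq1
  exact final_ineq q0 q1 t0 t1 hr0 ha0 hb0 hB0 hC₁ hnR hq1' ha hdevle hcub hD

end MP0c3a8f

end

section

/-!
# MP_0c3a8f_co, phase B, item FINU: the final theorem for the upper range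
-/

open Finset

namespace MP0c3a8f

namespace ItemFINU

theorem cube_diff {p w M : ℝ} (hp : 0 ≤ p) (hw : 0 ≤ w) (hpM : p ≤ M) (hwM : w ≤ M) :
    |p * Real.sqrt p - w * Real.sqrt w| ≤ 2 * Real.sqrt M * |p - w| := by
  obtain ⟨x, hx0, hx⟩ : ∃ x : ℝ, 0 ≤ x ∧ Real.sqrt p = x := ⟨_, Real.sqrt_nonneg p, rfl⟩
  obtain ⟨y, hy0, hy⟩ : ∃ y : ℝ, 0 ≤ y ∧ Real.sqrt w = y := ⟨_, Real.sqrt_nonneg w, rfl⟩
  have hx2 : p = x ^ 2 := by rw [← hx, Real.sq_sqrt hp]
  have hy2 : w = y ^ 2 := by rw [← hy, Real.sq_sqrt hw]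
  have hxM : x ≤ Real.sqrt M := by rw [← hx]; exact Real.sqrt_le_sqrt hpM
  have hyM : y ≤ Real.sqrt M := by rw [← hy]; exact Real.sqrt_le_sqrt hwM
  rw [hx, hy, hx2, hy2]
  have e1 : x ^ 2 * x - y ^ 2 * y = (x - y) * (x ^ 2 + x * y + y ^ 2) := by ring
  have e2 : x ^ 2 - y ^ 2 = (x - y) * (x + y) := by ring
  have h1 : 0 ≤ x ^ 2 + x * y + y ^ 2 := by positivity
  have h2 : 0 ≤ x + y := by positivity
  rw [e1, e2, abs_mul, abs_mul, abs_of_nonneg h1, abs_of_nonneg h2]
  have h3 : x ^ 2 + x * y + y ^ 2 ≤ 2 * Real.sqrt M * (x + y) := by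
    nlinarith [mul_nonneg hx0 hy0, mul_le_mul_of_nonneg_right hxM hx0,
      mul_le_mul_of_nonneg_right hyM hy0, mul_le_mul_of_nonneg_right hxM hy0,
      mul_le_mul_of_nonneg_right hyM hx0]
  calc |x - y| * (x ^ 2 + x * y + y ^ 2) ≤ |x - y| * (2 * Real.sqrt M * (x + y)) :=
        mul_le_mul_of_nonneg_left h3 (abs_nonneg _)
    _ = 2 * Real.sqrt M * (|x - y| * (x + y)) := by ring

theorem cr_nonneg {r : ℕ} (hr : 3 ≤ r) : 0 ≤ cr r := by
  have hR : (3 : ℝ) ≤ r := by exact_mod_cast hr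
  exact div_nonneg (by linarith) (Real.sqrt_nonneg _)

/-- the number of edges -/
theorem count (hC : CNTU_statement) (hD : DEV_statement) {V : Type} [Fintype V] {r n : ℕ}
    (hr : 1 ≤ r) (G : SimpleGraph V) (g : V → Option (Fin r)) (hi : Indep G g)
    (ht : ∑ t, siz g t = n) :
    2 * (G.edgeSet.ncard : ℝ) + 2 * ((missSet G g).ncard : ℝ) + dev (siz g) =
      qq r * (n : ℝ) ^ 2 + 2 * ((lightSet G g ∅).ncard : ℝ) := by
  obtain ⟨e, he, h1⟩ := hC r V G g ∅ hi (by
    intro v hv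
    exact absurd hv (Finset.notMem_empty v))
  rw [Finset.card_empty] at he
  have he0 : e = 0 := by omega
  rw [he0, Finset.sum_empty, ht] at h1
  obtain ⟨-, -, -, h4, -, -⟩ := hD r n (siz g) hr ht
  have h2 : 2 * (G.edgeSet.ncard : ℝ) + 2 * ((missSet G g).ncard : ℝ)
      + ∑ t, (siz g t : ℝ) ^ 2 =
      (n : ℝ) ^ 2 + 2 * ((lightSet G g ∅).ncard : ℝ) := by
    have h3 : 2 * G.edgeSet.ncard + 2 * (missSet G g).ncard + ∑ t, siz g t ^ 2 =
        n ^ 2 + 2 * (lightSet G g ∅).ncard := by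
      omega
    exact_mod_cast h3
  rw [h4]
  unfold qq
  linear_combination h2

theorem light_eq {V : Type} {r : ℕ} (G : SimpleGraph V) (g : V → Option (Fin r)) :
    lightSet G g ∅ = outSet G g := by
  ext e
  simp [lightSet, outSet]

/-- the analysis -/
theorem core {r : ℕ} (hr : 3 ≤ r) {ε N1 CH CU CS : ℝ} (hε : 0 < ε) (hN1 : 0 ≤ N1)
    (hCH : 0 ≤ CH) (hCS : 0 ≤ CS) :
    ∃ (N : ℝ) (X : ℝ), 0 ≤ N ∧ 0 ≤ X ∧ ∀ (n B : ℕ) (a b dT v cb D : ℝ), X ≤ Real.sqrt n →
      1 ≤ Real.sqrt n → RU r n B ε → 0 ≤ a → 0 ≤ b → a + b ≤ N1 * Real.sqrt n → 0 ≤ dT →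
      dT ≤ r → v = 2 * B + dT - 2 * a + 2 * b →
      qq r * (1 - 2 / (r : ℝ)) * v + (2 * qq r - 10 * (1 / (40 * (r : ℝ)))) * (a + b)
        - 2 * qq r ^ 2 * cb / n - CU ≤ D →
      cb ≤ cr r * (v * Real.sqrt v) → D ≤ AB r n B + CH * Real.sqrt (Real.sqrt n) →
      |D - AB r n B| ≤ N * Real.sqrt (Real.sqrt n) ∧
      a + b ≤ N * Real.sqrt (Real.sqrt n) ∧ 0 < v ∧
      CS * (cr r * (v * Real.sqrt v) - cb) / v ≤ N * Real.sqrt (Real.sqrt n) ∧
      CS * (cr r * (v * Real.sqrt v) - cb) / Real.sqrt v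
        ≤ N * (Real.sqrt n * Real.sqrt (Real.sqrt n)) ∧
      |Real.sqrt (v * ((r : ℝ) - 1) / r) - Real.sqrt (2 * B * ((r : ℝ) - 1) / r)| ≤ N := by
  have hR : (3 : ℝ) ≤ r := by exact_mod_cast hr
  have hR0 : (0 : ℝ) < r := by linarith
  have hc0 := cr_nonneg hr
  set c := cr r with hc
  obtain ⟨u, hu⟩ : ∃ u : ℝ, u = 1 / (r : ℝ) := ⟨_, rfl⟩
  have hu0 : 0 < u := by rw [hu]; positivity
  have hu1 : u ≤ 1 / 3 := by rw [hu]; exact one_div_le_one_div_of_le (by norm_num) hR
  have hru : (r : ℝ) * u = 1 := by rw [hu]; field_simp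
  have hq : qq r = 1 - u := by rw [hu]; rfl
  have h2r : 2 / (r : ℝ) = 2 * u := by rw [hu]; ring
  have hδ : 10 * (1 / (40 * (r : ℝ))) = u / 4 := by rw [hu]; field_simp; norm_num
  set q := qq r with hqd
  have hq0 : 2 / 3 ≤ q := by rw [hq]; linarith
  have hq1 : q ≤ 1 := by rw [hq]; linarith
  have hqp : 0 < q := by linarith
  have hεq : 0 < ε * q := by positivity
  set κ := Real.sqrt (ε * q) with hκ
  have hκ0 : 0 < κ := Real.sqrt_pos.2 hεq
  have hκ2 : κ ^ 2 = ε * q := Real.sq_sqrt hεq.le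
  set C1 : ℝ := 2 + r + 2 * N1 with hC1
  have hC10 : 0 < C1 := by positivity
  set K : ℝ := 4 * q ^ 2 * c * Real.sqrt C1 with hK
  have hK0 : 0 ≤ K := by positivity
  set C3 : ℝ := |CU| + 1 + CH with hC3
  have hC30 : 0 < C3 := by
    have := abs_nonneg CU
    linarith
  set C4 : ℝ := C3 / (2 * q ^ 2) with hC4
  have hC40 : 0 < C4 := by positivity
  set C8 : ℝ := (r + 2 * (r * C3)) / κ with hC8
  have hC80 : 0 < C8 := by positivity
  have hA1 : 0 ≤ CS * C4 / (ε * q) := by positivity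
  have hA2 : 0 ≤ CS * C4 / κ := by positivity
  have hrC3 : 0 < r * C3 := by positivity
  refine ⟨C3 + r * C3 + CS * C4 / (ε * q) + CS * C4 / κ + C8,
    2 * N1 / (ε * q) + 2 * K * r, by positivity, by positivity, ?_⟩
  intro n B a b dT v cb D hX hs1 hRU ha hb hab hdT0 hdT1 hv hD hcb hDu
  set s := Real.sqrt n with hs
  have hs0 : 0 < s := by linarith
  have hs2 : s * s = n := Real.mul_self_sqrt (Nat.cast_nonneg n)
  have hn0 : (0 : ℝ) < n := by rw [← hs2]; positivity
  set h := Real.sqrt s with hh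
  have hh2 : h * h = s := Real.mul_self_sqrt hs0.le
  have hh1 : 1 ≤ h := by
    rw [hh]; exact Real.one_le_sqrt.2 hs1
  have hhs : h ≤ s := by
    calc h = h * 1 := (mul_one h).symm
      _ ≤ h * h := mul_le_mul_of_nonneg_left hh1 (zero_le_one.trans hh1)
      _ = s := hh2
  have hab0 : 0 ≤ a + b := by positivity
  have hX1 : 2 * N1 / (ε * q) ≤ s := le_trans (by
    have : 0 ≤ 2 * K * r := by positivity
    linarith) hX
  have hX2 : 2 * K * r ≤ s := le_trans (by
    have : 0 ≤ 2 * N1 / (ε * q) := by positivity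
    linarith) hX
  obtain ⟨hB1, hB2⟩ := hRU
  rw [← hqd] at hB1 hB2
  rw [h2r] at hB2 hD
  rw [hδ] at hD
  have hBn : (B : ℝ) ≤ n := by
    refine hB2.trans ?_
    have h1 : (2 * u - ε) * (q * n) ≤ 1 * (q * n) :=
      mul_le_mul_of_nonneg_right (by linarith) (by positivity)
    have h2 : q * (n : ℝ) ≤ 1 * n := mul_le_mul_of_nonneg_right hq1 hn0.le
    linarith
  have hB0 : (0 : ℝ) ≤ B := Nat.cast_nonneg B
  -- bounds for `v`
  have hsn : s ≤ n := by
    calc s = s * 1 := (mul_one s).symm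
      _ ≤ s * s := mul_le_mul_of_nonneg_left hs1 hs0.le
      _ = n := hs2
  have hvlow : ε * q * n ≤ v := by
    have h1 : 2 * N1 ≤ s * (ε * q) := by rwa [div_le_iff₀ hεq] at hX1
    have h2 : 2 * N1 * s ≤ s * (ε * q) * s := mul_le_mul_of_nonneg_right h1 hs0.le
    have h3 : s * (ε * q) * s = ε * q * n := by rw [← hs2]; ring
    have h4 : ε * (q * n) = ε * q * n := by ring
    have h5 : a + b ≤ N1 * s := hab
    rw [hv]
    linarith
  have hv0 : 0 < v := lt_of_lt_of_le (by positivity) hvlow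
  have hvup : v ≤ C1 * n := by
    have h1 : N1 * s ≤ N1 * n := mul_le_mul_of_nonneg_left hsn hN1
    have h2 : (1 : ℝ) ≤ n := by linarith
    have h3 : (r : ℝ) * 1 ≤ r * n := mul_le_mul_of_nonneg_left h2 hR0.le
    have h5 : a + b ≤ N1 * s := hab
    rw [hv, hC1]
    linarith
  have h2B : 2 * (B : ℝ) ≤ C1 * n := by
    have h1 : 0 ≤ (r + 2 * N1) * n := by positivity
    rw [hC1]
    linarith
  have hvB : |v - 2 * B| ≤ r + 2 * (a + b) := by
    rw [hv, abs_le]
    constructor <;> linarith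
  -- the error
  have hE : 2 * q ^ 2 * c * (v * Real.sqrt v - 2 * B * Real.sqrt (2 * B)) / n
      ≤ 1 + u * (a + b) := by
    have h1 := cube_diff hv0.le (by positivity : (0 : ℝ) ≤ 2 * B) hvup h2B
    have h2 : Real.sqrt (C1 * n) = Real.sqrt C1 * s := Real.sqrt_mul hC10.le _
    rw [h2] at h1
    have h3 : v * Real.sqrt v - 2 * B * Real.sqrt (2 * B) ≤
        2 * (Real.sqrt C1 * s) * (r + 2 * (a + b)) :=
      (le_abs_self _).trans (h1.trans (mul_le_mul_of_nonneg_left hvB (by positivity)))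
    rw [div_le_iff₀ hn0]
    have h4 : 2 * q ^ 2 * c * (v * Real.sqrt v - 2 * B * Real.sqrt (2 * B)) ≤
        K * s * (r + 2 * (a + b)) := by
      calc 2 * q ^ 2 * c * (v * Real.sqrt v - 2 * B * Real.sqrt (2 * B)) ≤
            2 * q ^ 2 * c * (2 * (Real.sqrt C1 * s) * (r + 2 * (a + b))) :=
            mul_le_mul_of_nonneg_left h3 (by positivity)
        _ = K * s * (r + 2 * (a + b)) := by rw [hK]; ring
    have h5 : K * (r + 2 * (a + b)) ≤ (1 + u * (a + b)) * s := by
      have h6 : K * r ≤ s := by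
        have : 0 ≤ K * r := by positivity
        linarith
      have h7 : 2 * K ≤ u * s := by
        have h8 : u * (2 * K * r) ≤ u * s := mul_le_mul_of_nonneg_left hX2 hu0.le
        have h9 : u * (2 * K * r) = 2 * K * (r * u) := by ring
        rw [h9, hru, mul_one] at h8
        exact h8
      have h10 : 2 * K * (a + b) ≤ u * s * (a + b) := mul_le_mul_of_nonneg_right h7 hab0
      linarith
    calc 2 * q ^ 2 * c * (v * Real.sqrt v - 2 * B * Real.sqrt (2 * B))
        ≤ K * s * (r + 2 * (a + b)) := h4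
      _ = K * (r + 2 * (a + b)) * s := by ring
      _ ≤ (1 + u * (a + b)) * s * s := mul_le_mul_of_nonneg_right h5 hs0.le
      _ = (1 + u * (a + b)) * n := by rw [← hs2]; ring
  -- the main inequality
  obtain ⟨Δ, hΔ⟩ : ∃ Δ : ℝ, Δ = c * (v * Real.sqrt v) - cb := ⟨_, rfl⟩
  have hΔ0 : 0 ≤ Δ := by rw [hΔ]; linarith
  have hAB : AB r n B = 2 * q * (1 - 2 * u) * B
      - 2 * q ^ 2 * c * (2 * B * Real.sqrt (2 * B)) / n := by
    unfold AB
    rw [h2r]
  have hM : AB r n B + u * (a + b) + 2 * q ^ 2 * Δ / n - 1 - CU ≤ D := by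
    have h1 : q * (1 - 2 * u) * v = 2 * q * (1 - 2 * u) * B
        + q * (1 - 2 * u) * (dT - 2 * a + 2 * b) := by rw [hv]; ring
    have h2 : 2 * q ^ 2 * Δ / n = 2 * q ^ 2 * c * (v * Real.sqrt v) / n
        - 2 * q ^ 2 * cb / n := by rw [hΔ]; ring
    have h3 : 2 * q ^ 2 * c * (v * Real.sqrt v - 2 * B * Real.sqrt (2 * B)) / n =
        2 * q ^ 2 * c * (v * Real.sqrt v) / n
          - 2 * q ^ 2 * c * (2 * B * Real.sqrt (2 * B)) / n := by ring
    rw [h3] at hE
    have h4 : 2 * u * (a + b) ≤ q * (1 - 2 * u) * (dT - 2 * a + 2 * b)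
        + (2 * q - u / 4) * (a + b) := by
      have h5 : 0 ≤ q * (1 - 2 * u) * dT := by
        have : 0 ≤ 1 - 2 * u := by linarith
        positivity
      have h6 : 0 ≤ u * (4 * q - 1 / 4 - 2) * a := by
        have : 0 ≤ 4 * q - 1 / 4 - 2 := by linarith
        positivity
      have h7 : 0 ≤ (2 * q - u / 4 + 2 * q * (1 - 2 * u) - 2 * u) * b := by
        refine mul_nonneg ?_ hb
        have : 0 ≤ q * (1 - 2 * u) := mul_nonneg hqp.le (by linarith)
        linarith
      linarith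
    rw [hAB, h2]
    linarith
  have hterm : 0 ≤ 2 * q ^ 2 * Δ / n := by positivity
  have hC3h : CH * h + 1 + CU ≤ C3 * h := by
    have h1 : CU ≤ |CU| := le_abs_self CU
    have h2 : (|CU| + 1) * 1 ≤ (|CU| + 1) * h :=
      mul_le_mul_of_nonneg_left hh1 (by positivity)
    rw [hC3]
    linarith
  have hsum : u * (a + b) + 2 * q ^ 2 * Δ / n ≤ C3 * h := by linarith
  have hab1 : a + b ≤ r * C3 * h := by
    have h1 : u * (a + b) ≤ C3 * h := by linarith
    have h2 : r * (u * (a + b)) ≤ r * (C3 * h) := mul_le_mul_of_nonneg_left h1 hR0.le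
    have h3 : r * (u * (a + b)) = (r * u) * (a + b) := by ring
    rw [h3, hru, one_mul] at h2
    linarith
  have hΔ1 : Δ ≤ C4 * h * n := by
    have h1 : 2 * q ^ 2 * Δ / n ≤ C3 * h := by
      have : 0 ≤ u * (a + b) := by positivity
      linarith
    rw [div_le_iff₀ hn0] at h1
    have h2 : C4 * h * n = (C3 * h * n) / (2 * q ^ 2) := by rw [hC4]; ring
    rw [h2, le_div_iff₀ (by positivity)]
    linarith
  have hsv : κ * s ≤ Real.sqrt v := by
    apply Real.le_sqrt_of_sq_le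
    calc (κ * s) ^ 2 = κ ^ 2 * (s * s) := by ring
      _ = ε * q * n := by rw [hκ2, hs2]
      _ ≤ v := hvlow
  have hsv0 : 0 < Real.sqrt v := Real.sqrt_pos.2 hv0
  have hN1' : C3 * h ≤ (C3 + r * C3 + CS * C4 / (ε * q) + CS * C4 / κ + C8) * h :=
    mul_le_mul_of_nonneg_right (by linarith) (by linarith)
  rw [← hΔ]
  refine ⟨?_, ?_, hv0, ?_, ?_, ?_⟩
  · rw [abs_le]
    have h1 : |CU| + 1 ≤ C3 * h := by
      have h2 : C3 * 1 ≤ C3 * h := mul_le_mul_of_nonneg_left hh1 hC30.le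
      rw [hC3] at h2 ⊢
      linarith
    have h2 : CU ≤ |CU| := le_abs_self CU
    have h3 : CH * h ≤ C3 * h := mul_le_mul_of_nonneg_right (by
      have := abs_nonneg CU
      rw [hC3]; linarith) (by linarith)
    have h4 : 0 ≤ u * (a + b) := by positivity
    constructor <;> linarith
  · refine hab1.trans (mul_le_mul_of_nonneg_right ?_ (by linarith))
    linarith
  · rw [div_le_iff₀ hv0]
    have h1 : CS * Δ ≤ CS * (C4 * h * n) := mul_le_mul_of_nonneg_left hΔ1 hCS
    have h2 : CS * (C4 * h * n) = CS * C4 / (ε * q) * h * (ε * q * n) := by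
      field_simp
    have h3 : CS * C4 / (ε * q) * h * (ε * q * n) ≤ CS * C4 / (ε * q) * h * v :=
      mul_le_mul_of_nonneg_left hvlow (by positivity)
    have h4 : CS * C4 / (ε * q) * h * v ≤
        (C3 + r * C3 + CS * C4 / (ε * q) + CS * C4 / κ + C8) * h * v :=
      mul_le_mul_of_nonneg_right (mul_le_mul_of_nonneg_right (by linarith) (by linarith)) hv0.le
    linarith
  · rw [div_le_iff₀ hsv0]
    have h1 : CS * Δ ≤ CS * (C4 * h * n) := mul_le_mul_of_nonneg_left hΔ1 hCS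
    have h2 : CS * (C4 * h * n) = CS * C4 / κ * (s * h) * (κ * s) := by
      rw [← hs2]
      field_simp
    have h3 : CS * C4 / κ * (s * h) * (κ * s) ≤ CS * C4 / κ * (s * h) * Real.sqrt v :=
      mul_le_mul_of_nonneg_left hsv (by positivity)
    have h4 : CS * C4 / κ * (s * h) * Real.sqrt v ≤
        (C3 + r * C3 + CS * C4 / (ε * q) + CS * C4 / κ + C8) * (s * h) * Real.sqrt v :=
      mul_le_mul_of_nonneg_right (mul_le_mul_of_nonneg_right (by linarith) (by positivity))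
        hsv0.le
    linarith
  · have hcc : 0 ≤ ((r : ℝ) - 1) / r := div_nonneg (by linarith) hR0.le
    have hcc1 : Real.sqrt (((r : ℝ) - 1) / r) ≤ 1 := by
      have h1 : ((r : ℝ) - 1) / r ≤ 1 := by
        rw [div_le_one hR0]
        linarith
      exact (Real.sqrt_le_sqrt h1).trans_eq Real.sqrt_one
    rw [mul_div_assoc, mul_div_assoc, Real.sqrt_mul hv0.le, Real.sqrt_mul (by positivity),
      ← sub_mul, abs_mul, abs_of_nonneg (Real.sqrt_nonneg (((r : ℝ) - 1) / r))]
    have h1 : |Real.sqrt v - Real.sqrt (2 * B)| ≤ C8 := by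
      have h2 : |Real.sqrt v - Real.sqrt (2 * B)| * (Real.sqrt v + Real.sqrt (2 * B)) =
          |v - 2 * B| := by
        have h0 : 0 ≤ Real.sqrt v + Real.sqrt (2 * B) :=
          add_nonneg (Real.sqrt_nonneg v) (Real.sqrt_nonneg (2 * (B : ℝ)))
        have h3 := Real.mul_self_sqrt hv0.le
        have h4 := Real.mul_self_sqrt (by positivity : (0 : ℝ) ≤ 2 * B)
        have h5 : v - 2 * B = (Real.sqrt v - Real.sqrt (2 * B)) *
            (Real.sqrt v + Real.sqrt (2 * B)) := by linear_combination h4 - h3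
        rw [h5, abs_mul, abs_of_nonneg h0]
      have h5 : |Real.sqrt v - Real.sqrt (2 * B)| * (κ * s) ≤ (r + 2 * (r * C3)) * s := by
        have h6 : |Real.sqrt v - Real.sqrt (2 * B)| * (κ * s) ≤
            |Real.sqrt v - Real.sqrt (2 * B)| * (Real.sqrt v + Real.sqrt (2 * B)) :=
          mul_le_mul_of_nonneg_left (by linarith [Real.sqrt_nonneg (2 * (B : ℝ))])
            (abs_nonneg _)
        have h7 : (r : ℝ) * 1 ≤ r * s := mul_le_mul_of_nonneg_left hs1 hR0.le
        have h8 : r * C3 * h ≤ r * C3 * s := mul_le_mul_of_nonneg_left hhs hrC3.le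
        linarith
      rw [hC8, le_div_iff₀ hκ0]
      have h9 : |Real.sqrt v - Real.sqrt (2 * B)| * κ * s ≤ (r + 2 * (r * C3)) * s := by
        linarith
      exact le_of_mul_le_mul_right h9 hs0
    have h10 : |Real.sqrt v - Real.sqrt (2 * B)| * Real.sqrt (((r : ℝ) - 1) / r) ≤ C8 * 1 :=
      mul_le_mul h1 hcc1 (Real.sqrt_nonneg _) hC80.le
    linarith

end ItemFINU

open ItemFINU in
theorem prfFINU : P_statement → MAXE_statement → DEV_statement → CNTU_statement →
    STU_statement → UPU_statement → S3M_statement → CHU_statement → FINU_statement := by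
  intro hP hMAXE hDEV hCNTU hSTU hUPU hS3M hCHU W _ F r ε hr hcrit hcol hncol hε
  have hr1 : 1 ≤ r := by omega
  have hR : (3 : ℝ) ≤ r := by exact_mod_cast hr
  have hR0 : (0 : ℝ) < r := by linarith
  obtain ⟨hq0, hq1⟩ := ItemMAXG.qq_bd hr
  obtain ⟨CH, nH, hCH0, hCH⟩ := hCHU W F r ε hr hncol hε
  have hδ : 0 < 1 / (40 * (r : ℝ)) := by positivity
  obtain ⟨N1, nS, hS⟩ := hSTU W F r ε CH (1 / (40 * (r : ℝ))) hr hcrit hcol hε hCH0 hδ
  have hN10 : (0 : ℝ) ≤ N1 := Nat.cast_nonneg N1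
  obtain ⟨CU, nU, hU⟩ := hUPU r (2 + r + 2 * N1) hr (by positivity)
  obtain ⟨CS, hCS0, hS3⟩ := hS3M r hr
  obtain ⟨N, X, hN0, hX0, hcore⟩ := core (CU := CU) hr hε hN10 hCH0 hCS0
  refine ⟨⌈2 * N + 2 * N ^ 2⌉₊, nH + nS + nU + ⌈X ^ 2⌉₊ + 1, fun n hn B m hRU hm => ?_⟩
  have hNc : 2 * N + 2 * N ^ 2 ≤ (⌈2 * N + 2 * N ^ 2⌉₊ : ℝ) := Nat.le_ceil _
  set N' : ℝ := (⌈2 * N + 2 * N ^ 2⌉₊ : ℝ) with hN'
  have hNN : 0 ≤ N ^ 2 := sq_nonneg N
  have hn1 : (1 : ℝ) ≤ n := by
    have : 1 ≤ n := by omega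
    exact_mod_cast this
  have hs1 : 1 ≤ Real.sqrt n := Real.one_le_sqrt.2 hn1
  have hXs : X ≤ Real.sqrt n := by
    apply Real.le_sqrt_of_sq_le
    refine (Nat.le_ceil _).trans ?_
    have : ⌈X ^ 2⌉₊ ≤ n := by omega
    exact_mod_cast this
  have hh1 : 1 ≤ Real.sqrt (Real.sqrt n) := Real.one_le_sqrt.2 hs1
  have hhs : Real.sqrt (Real.sqrt n) ≤ Real.sqrt n := by
    calc Real.sqrt (Real.sqrt n) = Real.sqrt (Real.sqrt n) * 1 := (mul_one _).symm
      _ ≤ Real.sqrt (Real.sqrt n) * Real.sqrt (Real.sqrt n) :=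
          mul_le_mul_of_nonneg_left hh1 (Real.sqrt_nonneg _)
      _ = Real.sqrt n := Real.mul_self_sqrt (Real.sqrt_nonneg _)
  obtain ⟨k, H, hH, hDH⟩ := hCH n (by omega) B m hRU hm
  -- a vertex of `H`
  obtain ⟨v₀⟩ : Nonempty (Fin k) := by
    by_contra hne
    rw [not_nonempty_iff] at hne
    exact hH.notPartite (SimpleGraph.Colorable.of_isEmpty r)
  have hl0 : 0 ≤ lam H := ItemMAXG.lam_nonneg hP v₀ H
  refine ⟨?_, ?_⟩
  · obtain ⟨k', G, h1, h2⟩ := hMAXE W F r _ ⟨Fin k, inferInstance, H, hH⟩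
    exact ⟨k', G, h1, h2⟩
  intro V _ G hG
  have hdef : Def r G ≤ AB r n B + CH * Real.sqrt (Real.sqrt n) :=
    (ItemMAXG.def_le hG.1.size hH.size hl0 (hG.2 _ H hH)).trans hDH
  have hc0 := cr_nonneg hr
  have hdef1 : Def r G ≤ 2 * qq r * (1 - 2 / (r : ℝ)) * B + CH * Real.sqrt n := by
    refine hdef.trans (add_le_add ?_ (mul_le_mul_of_nonneg_left hhs hCH0))
    unfold AB
    have : 0 ≤ 2 * qq r ^ 2 * cr r * (2 * B * Real.sqrt (2 * B)) / n := by positivity
    linarith
  have hedge : G.edgeSet.ncard + B = (SimpleGraph.turanGraph n r).edgeSet.ncard := by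
    rw [hG.1.size]; exact hm
  obtain ⟨z, g, hF, htot, hab⟩ := hS n (by omega) B hRU V G hG.1.free hedge hdef1
  obtain ⟨hT1, hT2, hT3, hT4⟩ := ItemMAXG.turan hDEV r n hr1
  have hcnt := count hCNTU hDEV hr1 G g hF.indep htot
  have hv : dev (siz g) = 2 * B + dev (tz r n) - 2 * ((missSet G g).ncard : ℝ)
      + 2 * ((lightSet G g ∅).ncard : ℝ) := by
    have h1 : (G.edgeSet.ncard : ℝ) + B = (SimpleGraph.turanGraph n r).edgeSet.ncard := by
      exact_mod_cast hedge
    linarith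
  have ha0 : (0 : ℝ) ≤ (missSet G g).ncard := Nat.cast_nonneg _
  have hb0 : (0 : ℝ) ≤ (lightSet G g ∅).ncard := Nat.cast_nonneg _
  have hBn : (B : ℝ) ≤ n := by
    refine hRU.2.trans ?_
    have h2r : 2 / (r : ℝ) ≤ 1 := by rw [div_le_one hR0]; linarith
    have h1 : (2 / (r : ℝ) - ε) * (qq r * n) ≤ 1 * (qq r * n) :=
      mul_le_mul_of_nonneg_right (by linarith) (by positivity)
    have h2 : qq r * (n : ℝ) ≤ 1 * n := mul_le_mul_of_nonneg_right hq1 (by linarith)
    linarith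
  have hsn : Real.sqrt n ≤ n := by
    calc Real.sqrt n = Real.sqrt n * 1 := (mul_one _).symm
      _ ≤ Real.sqrt n * Real.sqrt n := mul_le_mul_of_nonneg_left hs1 (Real.sqrt_nonneg _)
      _ = n := Real.mul_self_sqrt (Nat.cast_nonneg n)
  have hdv : dev (siz g) ≤ (2 + r + 2 * N1) * n := by
    have h1 : N1 * Real.sqrt n ≤ N1 * n := mul_le_mul_of_nonneg_left hsn hN10
    have h3 : (r : ℝ) * 1 ≤ r * n := mul_le_mul_of_nonneg_left hn1 hR0.le
    rw [hv]
    linarith
  have hUP := hU V (1 / (40 * (r : ℝ))) G z g n hδ (by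
    rw [div_le_div_iff₀ (by positivity) (by norm_num)]
    linarith) hF (by omega) htot hdv
  -- the deviations
  have hsum : (∑ s, (siz g s : ℝ)) = n := by exact_mod_cast htot
  set x : Fin r → ℝ := fun t => (siz g t : ℝ) - n / r with hx
  have hx1 : ∑ t, x t = 0 := by
    rw [hx, Finset.sum_sub_distrib, hsum, Finset.sum_const, Finset.card_univ, Fintype.card_fin,
      nsmul_eq_mul]
    field_simp
    ring
  have hx2 : ∑ t, x t ^ 2 = dev (siz g) := by
    unfold dev
    rw [hsum]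
  have hx3 : ∑ t, x t ^ 3 = cub (siz g) := by
    unfold cub
    rw [hsum]
  -- positivity of `dev`
  have hcb : ∀ hpos : 0 < dev (siz g),
      cub (siz g) ≤ cr r * (dev (siz g) * Real.sqrt (dev (siz g))) := by
    intro hpos
    have := (hS3 x (dev (siz g)) 0 hx1 hx2 hpos).1
    rwa [hx3] at this
  have hcb' : cub (siz g) ≤ cr r * (dev (siz g) * Real.sqrt (dev (siz g))) := by
    rcases (ItemMAXG.dev_nonneg (siz g)).lt_or_eq with hpos | h0
    · exact hcb hpos
    · rw [← h0, zero_mul, mul_zero, ← hx3]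
      rw [← hx2] at h0
      have h1 := (Finset.sum_eq_zero_iff_of_nonneg (fun t _ => sq_nonneg (x t))).1 h0.symm
      refine le_of_eq (Finset.sum_eq_zero fun t ht => ?_)
      have h2 : x t = 0 := by
        have := h1 t ht
        exact pow_eq_zero_iff (two_ne_zero) |>.1 this
      rw [h2]; norm_num
  obtain ⟨k1, k2, k3, k4, k5, k6⟩ := hcore n B _ _ (dev (tz r n)) (dev (siz g)) (cub (siz g))
    (Def r G) hXs hs1 hRU ha0 hb0 hab hT2 hT3 hv hUP hcb' hdef
  have hNN' : N ≤ N' := by linarith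
  refine ⟨k1.trans (mul_le_mul_of_nonneg_right hNN' (by linarith)), g, hF.indep, htot, ?_, ?_⟩
  · rw [← light_eq G g]
    exact k2.trans (mul_le_mul_of_nonneg_right hNN' (by linarith))
  obtain ⟨t₀, hst, hst'⟩ := (hS3 x (dev (siz g))
    (cr r * (dev (siz g) * Real.sqrt (dev (siz g))) - cub (siz g)) hx1 hx2 k3).2
    (by rw [hx3]; linarith)
  refine ⟨t₀, ?_, fun t ht => ?_⟩
  · have h1 : (siz g t₀ : ℝ) - (n / r + Real.sqrt (2 * B * ((r : ℝ) - 1) / r)) =
        (x t₀ - Real.sqrt (dev (siz g) * ((r : ℝ) - 1) / r))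
        + (Real.sqrt (dev (siz g) * ((r : ℝ) - 1) / r)
          - Real.sqrt (2 * B * ((r : ℝ) - 1) / r)) := by
      rw [hx]; ring
    rw [h1]
    refine (abs_add_le _ _).trans ?_
    have h2 := hst.trans k4
    have h3 : N * 1 ≤ N * Real.sqrt (Real.sqrt n) := mul_le_mul_of_nonneg_left hh1 hN0
    have h4 : (2 * N) * Real.sqrt (Real.sqrt n) ≤ N' * Real.sqrt (Real.sqrt n) :=
      mul_le_mul_of_nonneg_right (by linarith) (by linarith)
    linarith
  · have h2 := (hst' t ht).trans k5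
    have hr2 : (0 : ℝ) < (r : ℝ) - 1 := by linarith
    have h3 : |Real.sqrt (dev (siz g) * ((r : ℝ) - 1) / r) / ((r : ℝ) - 1)
        - Real.sqrt (2 * B * ((r : ℝ) - 1) / r) / ((r : ℝ) - 1)| ≤ N := by
      rw [← sub_div, abs_div, abs_of_pos hr2, div_le_iff₀ hr2]
      have h4 : N * 1 ≤ N * ((r : ℝ) - 1) := mul_le_mul_of_nonneg_left (by linarith) hN0
      linarith
    have h5 : (siz g t : ℝ)
        - (n / r - Real.sqrt (2 * B * ((r : ℝ) - 1) / r) / ((r : ℝ) - 1)) =
        (x t + Real.sqrt (dev (siz g) * ((r : ℝ) - 1) / r) / ((r : ℝ) - 1))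
        - (Real.sqrt (dev (siz g) * ((r : ℝ) - 1) / r) / ((r : ℝ) - 1)
          - Real.sqrt (2 * B * ((r : ℝ) - 1) / r) / ((r : ℝ) - 1)) := by
      rw [hx]; ring
    rw [h5]
    set P := x t + Real.sqrt (dev (siz g) * ((r : ℝ) - 1) / r) / ((r : ℝ) - 1) with hP'
    set Q := Real.sqrt (dev (siz g) * ((r : ℝ) - 1) / r) / ((r : ℝ) - 1)
          - Real.sqrt (2 * B * ((r : ℝ) - 1) / r) / ((r : ℝ) - 1) with hQ'
    have h6 : Q ^ 2 ≤ N ^ 2 := sq_le_sq' (by linarith [(abs_le.1 h3).1]) (abs_le.1 h3).2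
    have h7 : (P - Q) ^ 2 ≤ 2 * P ^ 2 + 2 * Q ^ 2 := by
      have e1 := sq_nonneg (P + Q)
      have e2 : (P - Q) ^ 2 = 2 * P ^ 2 + 2 * Q ^ 2 - (P + Q) ^ 2 := by ring
      linarith
    have h8 : 1 ≤ Real.sqrt n * Real.sqrt (Real.sqrt n) :=
      one_le_mul_of_one_le_of_one_le hs1 hh1
    have h9 : N ^ 2 * 1 ≤ N ^ 2 * (Real.sqrt n * Real.sqrt (Real.sqrt n)) :=
      mul_le_mul_of_nonneg_left h8 hNN
    have h10 : (2 * N + 2 * N ^ 2) * (Real.sqrt n * Real.sqrt (Real.sqrt n)) ≤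
        N' * (Real.sqrt n * Real.sqrt (Real.sqrt n)) :=
      mul_le_mul_of_nonneg_right hNc (by linarith)
    linarith

end MP0c3a8f

end

section

/-!
# MP_0c3a8f_co, phase B: item GAP0
-/

open Finset

namespace MP0c3a8f

namespace ItemGAP0

open ItemGAP1 (nbn_eq sum_nbn sum_cw nbn_le le_cw cw_nonneg ex_nb cw_smul)

/-- the case `∑ X t = n` -/
theorem norm (hE : EIG0_statement) {r : ℕ} (hr : 3 ≤ r) {V : Type} [Fintype V]
    (G : SimpleGraph V) (f : V → Option (Fin r)) (w : V) (x : V → ℝ) (n : ℕ)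
    (l : ℝ) (hn : 400 * r ≤ n) (hty : Ty0 G f w) (hB : Bal n f)
    (hd1 : 0 < ((∑ t, nbn G f w t : ℕ) : ℝ))
    (hd2 : ((∑ t, nbn G f w t : ℕ) : ℝ) ≤ (1 - 2 / (r : ℝ)) * (qq r * n) + 1)
    (hx : ∀ v, 0 ≤ x v) (hT : ∑ s, cw x f (some s) = n)
    (heig : ∀ v, ∑ u, adj G v u * x u = l * x v) :
    (n : ℝ) / 2 ≤ l ∧ 0 < x w ∧
    ∀ k l, siz f k = siz f l + 1 →
      1 / 2 ≤ cw x f (some k) - cw x f (some l) := by
  classical
  obtain ⟨hA, hD, hEw⟩ := hE r V G f w x l hty heig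
  simp only [hT] at hA hD
  set X : Fin r → ℝ := fun t => cw x f (some t) with hX
  have hXnn : ∀ t, 0 ≤ X t := fun t => cw_nonneg x hx f _
  -- numbers
  have hr0 : (3 : ℝ) ≤ r := by exact_mod_cast hr
  have hrpos : (0 : ℝ) < r := by linarith
  obtain ⟨u, hu⟩ : ∃ u : ℝ, u = 1 / (r : ℝ) := ⟨_, rfl⟩
  have hupos : 0 < u := by rw [hu]; positivity
  have hu3 : u ≤ 1 / 3 := by rw [hu, div_le_div_iff₀ hrpos (by norm_num)]; linarith
  obtain ⟨N, hN⟩ : ∃ N : ℝ, N = n := ⟨_, rfl⟩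
  have hnr : (400 : ℝ) * r ≤ N := by rw [hN]; exact_mod_cast hn
  have hNu : 400 ≤ N * u := by
    rw [hu, mul_one_div, le_div_iff₀ hrpos]; exact hnr
  have hN1200 : 1200 ≤ N := by linarith
  have hNpos : 0 < N := by linarith
  have hq : qq r = 1 - u := by rw [hu]; rfl
  have h2r : 2 / (r : ℝ) = 2 * u := by rw [hu]; ring
  have h4r : 1 / (4 * (r : ℝ)) = u / 4 := by rw [hu]; field_simp
  rw [h2r, hq, ← hN] at hd2
  rw [← hN] at hA hD hT
  rw [← hN]
  -- the sizes
  have hσ : ∀ t, N * u - 1 ≤ (siz f t : ℝ) ∧ (siz f t : ℝ) ≤ N * u + 1 := by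
    intro t
    obtain ⟨h1, h2⟩ := hB.1 t
    have h3 : N * u = (n : ℝ) / r := by rw [hu, hN]; ring
    have h4 : ((n / r : ℕ) : ℝ) ≤ (n : ℝ) / r := Nat.cast_div_le
    have h5 : (n : ℝ) / r ≤ ((n / r : ℕ) : ℝ) + 1 := by
      rw [div_le_iff₀ hrpos]
      have h6 : n < (n / r + 1) * r := by
        have := Nat.div_add_mod n r
        have h7 := Nat.mod_lt n (show 0 < r by omega)
        nlinarith
      have h8 : (n : ℝ) < ((n / r + 1 : ℕ) : ℝ) * r := by exact_mod_cast h6
      push_cast at h8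
      linarith
    have h6 : ((n / r : ℕ) : ℝ) ≤ siz f t := by exact_mod_cast h1
    have h7 : (siz f t : ℝ) ≤ ((n / r : ℕ) : ℝ) + 1 := by exact_mod_cast h2
    rw [h3]
    constructor <;> linarith
  have hσn : ∑ t, (siz f t : ℝ) = N := by
    rw [hN]; exact_mod_cast hB.2
  have ha : ∀ t, 0 ≤ (nbn G f w t : ℝ) ∧ (nbn G f w t : ℝ) ≤ N * u + 1 := by
    intro t
    refine ⟨Nat.cast_nonneg _, le_trans ?_ (hσ t).2⟩
    exact_mod_cast nbn_le G f w t
  obtain ⟨d, hd⟩ : ∃ d : ℝ, d = ((∑ t, nbn G f w t : ℕ) : ℝ) := ⟨_, rfl⟩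
  rw [← hd] at hd1 hd2
  have hda : ∑ t, (nbn G f w t : ℝ) = d := by rw [hd]; push_cast; rfl
  have hdN : d ≤ N := by nlinarith only [hd2, hupos, hu3, hNu, hNpos]
  obtain ⟨ξ, hξ⟩ : ∃ ξ : ℝ, ξ = x w := ⟨_, rfl⟩
  have hξ0 : 0 ≤ ξ := hξ ▸ hx w
  -- the sum of the equations
  have hsum : l * N = N * N - ∑ t, (siz f t : ℝ) * X t + d * ξ := by
    calc l * N = ∑ t, l * X t := by rw [← Finset.mul_sum, hT]
      _ = ∑ t, ((siz f t : ℝ) * (N - X t) + nbn G f w t * ξ) := by
          refine Finset.sum_congr rfl fun t _ => ?_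
          rw [hξ]
          exact hD t
      _ = _ := by
          rw [Finset.sum_add_distrib]
          rw [← Finset.sum_mul, hda]
          simp only [mul_sub]
          rw [Finset.sum_sub_distrib, ← Finset.sum_mul, hσn]
  have hs1 : ∑ t, (siz f t : ℝ) * X t ≤ (N * u + 1) * N := by
    calc ∑ t, (siz f t : ℝ) * X t ≤ ∑ t, (N * u + 1) * X t :=
          Finset.sum_le_sum fun t _ => mul_le_mul_of_nonneg_right (hσ t).2 (hXnn t)
      _ = (N * u + 1) * N := by rw [← Finset.mul_sum, hT]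
  have hs2 : (N * u - 1) * N ≤ ∑ t, (siz f t : ℝ) * X t := by
    calc (N * u - 1) * N = ∑ t, (N * u - 1) * X t := by rw [← Finset.mul_sum, hT]
      _ ≤ ∑ t, (siz f t : ℝ) * X t :=
          Finset.sum_le_sum fun t _ => mul_le_mul_of_nonneg_right (hσ t).1 (hXnn t)
  have hXle : ∀ t, X t ≤ N := fun t => by
    rw [← hT]
    exact Finset.single_le_sum (f := fun t => X t) (fun s _ => hXnn s) (Finset.mem_univ t)
  have hxX : ∀ v t, f v = some t → x v ≤ X t := fun v t hv => le_cw x hx f v t hv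
  have hdξ : 0 ≤ d * ξ := mul_nonneg hd1.le hξ0
  have hl1 : N / 2 ≤ l := by
    have h1 : N * (N - (N * u + 1) - 2) ≤ N * l := by nlinarith only [hsum, hs1, hdξ, hNpos]
    have h2 := le_of_mul_le_mul_left h1 hNpos
    nlinarith only [h2, hu3, hNpos, hN1200]
  have hlpos : 0 < l := by linarith
  -- `ξ ≤ 2`
  have hξE : l * ξ ≤ N := by
    rw [hξ, hEw, ← hT, sum_cw]
    refine Finset.sum_le_sum fun v _ => ?_
    by_cases h1 : f v ≠ none
    · by_cases h2 : G.Adj w v
      · rw [if_pos ⟨h1, h2⟩, if_pos h1]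
      · rw [if_neg (fun h => h2 h.2), if_pos h1]; exact hx v
    · rw [if_neg (fun h => h1 h.1), if_neg h1]
  have hξ2 : ξ ≤ 2 := by nlinarith only [hξE, hl1, hξ0, hNpos]
  -- core entries
  have hup : ∀ v t, f v = some t → l * x v ≤ N - X t + ξ := by
    intro v t hv
    rw [hA v t hv, hξ]
    have h3 := hx w
    split_ifs <;> linarith
  have hx3 : ∀ v t, f v = some t → x v ≤ 3 := by
    intro v t hv
    have h1 := hup v t hv
    have h2 := hXnn t
    have h3 : l * x v ≤ l * 3 := by linarith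
    exact le_of_mul_le_mul_left h3 hlpos
  have hlow : ∀ v t, f v = some t → N - X t - 3 ≤ l * x v := by
    intro v t hv
    rw [hA v t hv]
    have h3 := hx w
    split_ifs <;> linarith
  -- the bounds for `l`
  have hlL : N * (1 - u) - 2 ≤ l := by
    have h1 : N * (N * (1 - u) - 2) ≤ N * l := by nlinarith only [hsum, hs1, hdξ, hN1200]
    exact le_of_mul_le_mul_left h1 hNpos
  have hlU : l ≤ N * (1 - u) + 3 := by
    have h2 : d * ξ ≤ N * 2 := mul_le_mul hdN hξ2 hξ0 hNpos.le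
    have h1 : N * l ≤ N * (N * (1 - u) + 3) := by
      nlinarith only [hsum, hs2, h2, hN1200]
    exact le_of_mul_le_mul_left h1 hNpos
  -- the class sums
  obtain ⟨s, hs⟩ : ∃ s : Fin r → ℝ, ∀ t, s t = 0 := ⟨fun _ => 0, fun t => rfl⟩
  have hs03 : ∀ t, 0 ≤ s t ∧ s t ≤ 3 := by
    intro t
    rw [hs]
    norm_num
  have hDs : ∀ t, l * X t = siz f t * (N - X t) + nbn G f w t * ξ - s t := by
    intro t
    have h2 : l * X t = siz f t * (N - X t) + nbn G f w t * x w := hD t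
    rw [hs, h2, hξ]; ring
  have hNu1 : N * u ≤ N * (1 / 3) := mul_le_mul_of_nonneg_left hu3 hNpos.le
  have hXU : ∀ t, X t ≤ N * u + 6 := by
    intro t
    have h1 := hDs t
    obtain ⟨h2, h3⟩ := hσ t
    obtain ⟨h4, h5⟩ := ha t
    obtain ⟨h6, h7⟩ := hs03 t
    have h8 : (nbn G f w t : ℝ) * ξ ≤ (N * u + 1) * 2 := mul_le_mul h5 hξ2 hξ0 (by linarith)
    have h9 : (siz f t : ℝ) * N ≤ (N * u + 1) * N := mul_le_mul_of_nonneg_right h3 hNpos.le
    have h10 : (N - 3) * X t ≤ (l + siz f t) * X t :=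
      mul_le_mul_of_nonneg_right (by linarith) (hXnn t)
    have h11 : (N - 3) * X t ≤ (N - 3) * (N * u + 6) := by
      have : (l + siz f t) * X t ≤ (N * u + 1) * N + (N * u + 1) * 2 := by linarith
      nlinarith only [this, h10, hNu1, hN1200]
    exact le_of_mul_le_mul_left h11 (by linarith)
  have hXL : ∀ t, N * u - 4 ≤ X t := by
    intro t
    have h1 := hDs t
    obtain ⟨h2, h3⟩ := hσ t
    obtain ⟨h4, h5⟩ := ha t
    obtain ⟨h6, h7⟩ := hs03 t
    have h8 : 0 ≤ (nbn G f w t : ℝ) * ξ := mul_nonneg h4 hξ0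
    have h9 : (N * u - 1) * N ≤ (siz f t : ℝ) * N := mul_le_mul_of_nonneg_right h2 hNpos.le
    have h10 : (l + siz f t) * X t ≤ (N + 4) * X t :=
      mul_le_mul_of_nonneg_right (by linarith) (hXnn t)
    have h11 : (N + 4) * (N * u - 4) ≤ (N + 4) * X t := by
      have : (N * u - 1) * N - 3 ≤ (l + siz f t) * X t := by linarith
      nlinarith only [this, h10, hNu1, hN1200]
    exact le_of_mul_le_mul_left h11 (by linarith)
  -- core entries, fine
  have hxu : ∀ v t, f v = some t → (N * (1 - u) - 2) * x v ≤ N * (1 - u) + 6 := by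
    intro v t hv
    have h1 := hup v t hv
    have h2 := hXL t
    have h3 : (N * (1 - u) - 2) * x v ≤ l * x v := mul_le_mul_of_nonneg_right hlL (hx v)
    linarith
  have hxl : ∀ v t, f v = some t → N * (1 - u) - 9 ≤ (N * (1 - u) + 3) * x v := by
    intro v t hv
    have h1 := hlow v t hv
    have h2 := hXU t
    have h3 : l * x v ≤ (N * (1 - u) + 3) * x v := mul_le_mul_of_nonneg_right hlU (hx v)
    linarith
  have hxv2 : ∀ v t, f v = some t → x v ≤ 2 := by
    intro v t hv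
    have h1 : (N * (1 - u) - 2) * x v ≤ (N * (1 - u) - 2) * 2 := by
      have := hxu v t hv
      linarith
    exact le_of_mul_le_mul_left h1 (by linarith)
  have hxv1 : ∀ v t, f v = some t → 1 - u / 4 ≤ x v := by
    intro v t hv
    have h1 : (N * (1 - u) + 3) * (1 - u / 4) ≤ (N * (1 - u) + 3) * x v := by
      have := hxl v t hv
      nlinarith only [this, hNu, hu3, hupos]
    exact le_of_mul_le_mul_left h1 (by linarith)
  have hxn : ∀ v t, f v = some t → N * x v ≤ N + 16 := by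
    intro v t hv
    have h1 := hxu v t hv
    have h2 : (N * (1 - u) - 2) * (N * x v) ≤ (N * (1 - u) - 2) * (N + 16) := by
      have h3 : N * ((N * (1 - u) - 2) * x v) ≤ N * (N * (1 - u) + 6) :=
        mul_le_mul_of_nonneg_left h1 hNpos.le
      nlinarith only [h3, hNu1, hN1200]
    exact le_of_mul_le_mul_left h2 (by linarith)
  -- `ξ > 0`
  have hξpos : 0 < ξ := by
    obtain ⟨v, hv1, hv2⟩ := ex_nb G f w (hd ▸ hd1)
    obtain ⟨t, ht⟩ := Option.ne_none_iff_exists'.1 hv1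
    have h1 := hxv1 v t ht
    have h2 : x v ≤ l * ξ := by
      rw [hξ, hEw]
      have h := Finset.single_le_sum (f := fun v => if f v ≠ none ∧ G.Adj w v then x v else 0)
        (fun u _ => by split_ifs; exacts [hx u, le_rfl]) (Finset.mem_univ v)
      simpa [hv1, hv2] using h
    have h3 : 0 < l * ξ := by linarith
    exact (mul_pos_iff_of_pos_left hlpos).1 h3
  -- fine upper bound for `ξ`
  have hξU : N * ξ ≤ N * (1 - 2 * u) + 23 := by
    have h1 : N * (l * ξ) ≤ d * (N + 16) := by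
      rw [hξ, hEw, hd, sum_nbn, Finset.mul_sum, Finset.sum_mul]
      refine Finset.sum_le_sum fun v _ => ?_
      by_cases h1 : f v ≠ none ∧ G.Adj w v
      · rw [if_pos h1, if_pos h1, one_mul]
        obtain ⟨t, ht⟩ := Option.ne_none_iff_exists'.1 h1.1
        exact hxn v t ht
      · rw [if_neg h1, if_neg h1]; simp
    have h2 : (N * (1 - u) - 2) * (N * ξ) ≤ N * (l * ξ) := by
      have : (N * (1 - u) - 2) * (N * ξ) ≤ l * (N * ξ) :=
        mul_le_mul_of_nonneg_right hlL (by positivity)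
      linarith
    have h3 : d * (N + 16) ≤ ((1 - 2 * u) * ((1 - u) * N) + 1) * (N + 16) :=
      mul_le_mul_of_nonneg_right hd2 (by linarith)
    have h4 : ((1 - 2 * u) * ((1 - u) * N) + 1) * (N + 16)
        ≤ (N * (1 - u) - 2) * (N * (1 - 2 * u) + 23) := by
      -- `(7 q + 16 q (2u) - 2 (1 - 2u) - 1) N ≥ 62`
      have h5 : 0 ≤ N * u * (1 - u) := by
        have : 0 ≤ N * u := by positivity
        have h6 : 0 ≤ 1 - u := by linarith
        positivity
      nlinarith only [h5, hNu1, hN1200, hNu]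
    have h5 : (N * (1 - u) - 2) * (N * ξ) ≤ (N * (1 - u) - 2) * (N * (1 - 2 * u) + 23) := by
      linarith
    exact le_of_mul_le_mul_left h5 (by linarith)
  refine ⟨hl1, hξ ▸ hξpos, ?_⟩
  · intro k m hkm
    have hkm' : (siz f k : ℝ) = siz f m + 1 := by exact_mod_cast hkm
    have h1 := hDs k
    have h2 := hDs m
    obtain ⟨h3, h4⟩ := hs03 k
    obtain ⟨h5, h6⟩ := hs03 m
    obtain ⟨h7, h8⟩ := ha k
    obtain ⟨h9, h10⟩ := ha m
    obtain ⟨h11, h12⟩ := hσ m
    have h13 := hXU k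
    have h14 := hXL k
    have hdiff : (l + siz f m) * (X k - X m)
        = (N - X k) + ((nbn G f w k : ℝ) - nbn G f w m) * ξ - s k + s m := by
      rw [hkm'] at h1
      linarith
    change 1 / 2 ≤ X k - X m
    · have h15 : (nbn G f w m : ℝ) * ξ ≤ N * u * (1 - 2 * u) + 10 := by
        have h16 : (nbn G f w m : ℝ) * (N * ξ) ≤ (N * u + 1) * (N * (1 - 2 * u) + 23) :=
          mul_le_mul h10 hξU (by positivity) (by linarith)
        have h17 : N * ((nbn G f w m : ℝ) * ξ) ≤ N * (N * u * (1 - 2 * u) + 10) := by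
          nlinarith only [h16, hNu1, hN1200, hNu]
        exact le_of_mul_le_mul_left h17 hNpos
      have h16 : 0 ≤ (nbn G f w k : ℝ) * ξ := mul_nonneg h7 hξ0
      have h17 : 5 / 9 * N - 19 ≤ (l + siz f m) * (X k - X m) := by
        rw [hdiff]
        have h18 : 5 / 9 * N ≤ N - N * u - N * u * (1 - 2 * u) := by
          have h19 : 5 / 9 ≤ 1 - 2 * u + 2 * u ^ 2 := by nlinarith only [hu3, hupos]
          have := mul_le_mul_of_nonneg_left h19 hNpos.le
          linarith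
        linarith
      have h18 : 0 < X k - X m := by
        have h19 : 0 < (l + siz f m) * (X k - X m) := by linarith
        exact (mul_pos_iff_of_pos_left (by linarith)).1 h19
      have h19 : (l + siz f m) * (X k - X m) ≤ (N + 4) * (X k - X m) :=
        mul_le_mul_of_nonneg_right (by linarith) h18.le
      have h20 : (N + 4) * (1 / 2) ≤ (N + 4) * (X k - X m) := by linarith
      exact le_of_mul_le_mul_left h20 (by linarith)

end ItemGAP0

open ItemGAP1 (nbn_eq sum_nbn sum_cw nbn_le le_cw cw_nonneg ex_nb cw_smul) in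
theorem prfGAP0 : P_statement → EIG0_statement → GAP0_statement := by
  classical
  intro _ hE r ε hr hε
  refine ⟨400 * r, ?_⟩
  intro V _ G f w x n hn hty hB hd1 hd2 hx hx0 heig
  have hnpos : (0 : ℝ) < n := by
    have : 0 < n := by omega
    exact_mod_cast this
  have hd1' : 0 < ((∑ t, nbn G f w t : ℕ) : ℝ) := lt_of_lt_of_le (by positivity) hd1
  set T := ∑ s, cw x f (some s) with hT
  have hTnn : 0 ≤ T := Finset.sum_nonneg fun t _ => cw_nonneg x hx f _
  have hTpos : 0 < T := by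
    rcases hTnn.lt_or_eq with h | h
    · exact h
    · exfalso
      have hX0 : ∀ t, cw x f (some t) = 0 := fun t =>
        (Finset.sum_eq_zero_iff_of_nonneg fun t _ => cw_nonneg x hx f _).1 h.symm t
          (Finset.mem_univ t)
      have hc0 : ∀ v, f v ≠ none → x v = 0 := by
        intro v hv
        obtain ⟨t, ht⟩ := Option.ne_none_iff_exists'.1 hv
        have := le_cw x hx f v t ht
        rw [hX0 t] at this
        exact le_antisymm this (hx v)
      obtain ⟨hA, hD, hEw⟩ := hE r V G f w x (lam G) hty heig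
      obtain ⟨v, hv1, hv2⟩ := ex_nb G f w hd1'
      obtain ⟨t, ht⟩ := Option.ne_none_iff_exists'.1 hv1
      have hxw : x w = 0 := by
        have h3 := hA v t ht
        rw [hc0 v hv1, if_pos hv2, ← hT, ← h, hX0] at h3
        linarith
      apply hx0
      ext v
      by_cases hv : f v = none
      · rw [(hty.out v).1 hv, hxw]; rfl
      · rw [hc0 v hv]; rfl
  have hc : 0 < (n : ℝ) / T := by positivity
  have hcT : (n : ℝ) / T * T = n := by field_simp
  obtain ⟨h1, h2, h4⟩ := ItemGAP0.norm hE hr G f w (fun v => n / T * x v) n (lam G) hn hty hB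
    hd1' hd2 (fun v => mul_nonneg hc.le (hx v))
    (by simp only [cw_smul]; rw [← Finset.mul_sum, ← hT, hcT])
    (by
      intro v
      have := heig v
      calc ∑ u, adj G v u * (n / T * x u) = n / T * ∑ u, adj G v u * x u := by
            rw [Finset.mul_sum]
            exact Finset.sum_congr rfl fun u _ => by ring
        _ = lam G * (n / T * x v) := by rw [this]; ring)
  refine ⟨h1, hTpos, (mul_pos_iff_of_pos_left hc).1 h2, ?_⟩
  · intro k m hkm
    have h5 := h4 k m hkm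
    simp only [cw_smul] at h5
    rw [← mul_sub, div_mul_eq_mul_div] at h5
    rw [div_le_iff₀ (by positivity)]
    rw [le_div_iff₀ hTpos] at h5
    linarith

end MP0c3a8f

end

section

/-! (GVC) uniqueness of the vectors of the numbers of neighbours. -/

open Finset

namespace MP0c3a8f

namespace GVC

theorem glue {r n : ℕ} (g a b : Fin r → ℕ) (ha : ∀ s t, g s = g t → a s ≤ a t + 1)
    (hb : ∀ s t, g s = g t → b s ≤ b t + 1) (htz : ∀ s t, g s = g t → tz r n s = tz r n t)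
    (hs : ∀ i, ∑ t with g t = i, a t = ∑ t with g t = i, b t) :
    ∃ π : Equiv.Perm (Fin r), (∀ t, tz r n (π t) = tz r n t) ∧ ∀ t, b (π t) = a t := by
  classical
  have cnt : ∀ i y, #{t ∈ ({t | g t = i} : Finset (Fin r)) | a t = y} =
      #{t ∈ ({t | g t = i} : Finset (Fin r)) | b t = y} := by
    intro i y
    refine GV.bal_eq _ a b ?_ ?_ (hs i) y
    · intro s hs t ht
      rw [mem_filter] at hs ht
      exact ha s t (hs.2.trans ht.2.symm)
    · intro s hs t ht
      rw [mem_filter] at hs ht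
      exact hb s t (hs.2.trans ht.2.symm)
  obtain ⟨π, hπ⟩ := GV.exists_perm (fun t => (g t, a t)) (fun t => (g t, b t)) (by
    rintro ⟨i, y⟩
    have := cnt i y
    rw [filter_filter, filter_filter] at this
    simpa only [Prod.mk.injEq] using this)
  refine ⟨π, fun t => htz _ _ (Prod.mk.inj (hπ t)).1, fun t => (Prod.mk.inj (hπ t)).2⟩

theorem glue' {r n : ℕ} (g a b : Fin r → ℕ) (i₀ : ℕ) (ha : ∀ s t, g s = g t → a s ≤ a t + 1)
    (hb : ∀ s t, g s = g t → b s ≤ b t + 1) (htz : ∀ s t, g s = g t → tz r n s = tz r n t)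
    (htot : ∑ t, a t = ∑ t, b t)
    (hs : ∀ i, i ≠ i₀ → ∑ t with g t = i, a t = ∑ t with g t = i, b t) :
    ∃ π : Equiv.Perm (Fin r), (∀ t, tz r n (π t) = tz r n t) ∧ ∀ t, b (π t) = a t := by
  classical
  refine glue g a b ha hb htz fun i => ?_
  by_cases hi : i = i₀
  · subst hi
    have e : ∀ c : Fin r → ℕ, ∑ t, c t = ∑ t with g t = i, c t +
        ∑ j ∈ (univ.image g).erase i, ∑ t with g t = j, c t := by
      intro c
      rw [← sum_filter_add_sum_filter_not univ (fun t => g t = i)]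
      congr 1
      rw [← sum_fiberwise_of_maps_to (t := (univ.image g).erase i) (g := g)]
      · refine sum_congr rfl fun j hj => ?_
        rw [filter_filter]
        refine sum_congr (filter_congr fun t _ => ?_) fun _ _ => rfl
        have := (mem_erase.1 hj).1
        constructor
        · exact fun h => h.2
        · intro h
          exact ⟨by rw [h]; exact this, h⟩
      · intro t ht
        rw [mem_filter] at ht
        exact mem_erase.2 ⟨ht.2, mem_image_of_mem _ (mem_univ t)⟩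
    have e1 := e a
    have e2 := e b
    have e3 : ∑ j ∈ (univ.image g).erase i, ∑ t with g t = j, a t =
        ∑ j ∈ (univ.image g).erase i, ∑ t with g t = j, b t :=
      sum_congr rfl fun j hj => hs j (mem_erase.1 hj).1
    omega
  · exact hs i hi

section

variable {r n D s : ℕ}

theorem tz_lt {t : Fin r} (h : t.val < n % r) : tz r n t = n / r + 1 := by
  unfold tz
  rw [if_pos h]

theorem tz_ge {t : Fin r} (h : n % r ≤ t.val) : tz r n t = n / r := by
  unfold tz
  rw [if_neg (by omega), add_zero]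

/-- some class has at least `s + 1` neighbours -/
theorem ex_big (a : Fin r → ℕ) (hD : ∑ t, a t = D) (h : r * s < D) : ∃ t, s < a t := by
  by_contra hcon
  push Not at hcon
  have : ∑ t, a t ≤ ∑ _t : Fin r, s := sum_le_sum fun t _ => hcon t
  rw [sum_const, card_univ, Fintype.card_fin, smul_eq_mul] at this
  omega

/-- not all the classes `t ≥ 2` are full -/
theorem not_full (a : Fin r → ℕ) (hr : 3 ≤ r) (hD : ∑ t, a t = D) (h : D < (r - 2) * (n / r)) :
    ∃ t : Fin r, 2 ≤ t.val ∧ a t ≠ tz r n t := by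
  classical
  by_contra hcon
  push Not at hcon
  have h1 : ∑ t ∈ ({t | 2 ≤ t.val} : Finset (Fin r)), (n / r) ≤ ∑ t, a t := by
    refine (sum_le_sum (g := a) fun t ht => ?_).trans
      (sum_le_sum_of_subset (subset_univ _))
    rw [mem_filter] at ht
    rw [hcon t ht.2]
    unfold tz
    split_ifs <;> omega
  rw [sum_const, smul_eq_mul] at h1
  have h2 : #({t | 2 ≤ t.val} : Finset (Fin r)) = r - 2 := by
    have h3 : ({t | 2 ≤ t.val} : Finset (Fin r)) = Finset.Ici (⟨2, by omega⟩ : Fin r) := by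
      ext t
      simp [Fin.le_def]
    rw [h3, Fin.card_Ici]
  rw [h2] at h1
  omega

/-- the values on the classes `0` and `1` when `n % r ≤ 1` -/
theorem low {c : Fin r → ℕ} (hV : Vs r n D s c) (hρ : n % r ≤ 1) (hbig : ∃ t, s < c t)
    (hfull : ∃ t : Fin r, 2 ≤ t.val ∧ c t ≠ tz r n t) :
    ∀ t : Fin r, t.val ≤ 1 → c t = if t.val < n % r then 1 else s - 1 := by
  intro t ht
  obtain ⟨k, hk⟩ := hbig
  have hk2 : 2 ≤ k.val := by
    by_contra hc
    have := hV.cap k (by omega)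
    omega
  split_ifs with h
  · have h1 := hV.pos t
    by_contra hc
    obtain ⟨l, hl, hl'⟩ := hfull
    refine hl' (hV.greedy t l (Or.inl hl) ?_ (by omega))
    rw [tz_lt h, tz_ge (by omega)]
    omega
  · have h1 := hV.cap t ht
    by_contra hc
    have h2 := hV.even k t (Or.inr (by omega)) (by rw [tz_ge (by omega), tz_ge (by omega)])
    omega

theorem case_low (hρ : n % r ≤ 1) {a b : Fin r → ℕ} (hr : 3 ≤ r) (h1 : r * s < D)
    (h2 : D < (r - 2) * (n / r)) (ha : Vs r n D s a) (hb : Vs r n D s b) :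
    ∃ π : Equiv.Perm (Fin r), (∀ t, tz r n (π t) = tz r n t) ∧ ∀ t, b (π t) = a t := by
  have la := low ha hρ (ex_big a ha.sum h1) (not_full a hr ha.sum h2)
  have lb := low hb hρ (ex_big b hb.sum h1) (not_full b hr hb.sum h2)
  have key : ∀ x y : Fin r, min x.val 2 = min y.val 2 → x = y ∨ (2 ≤ x.val ∧ 2 ≤ y.val) := by
    intro x y h
    rcases Nat.lt_or_ge x.val 2 with hx | hx
    · exact Or.inl (Fin.ext (by omega))
    · exact Or.inr ⟨hx, by omega⟩
  refine glue' (fun t => min t.val 2) a b 2 ?_ ?_ ?_ (ha.sum.trans hb.sum.symm) ?_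
  · intro x y h
    rcases key x y h with rfl | ⟨hx, hy⟩
    · omega
    · exact ha.even x y (Or.inl hy) (by rw [tz_ge (by omega), tz_ge (by omega)])
  · intro x y h
    rcases key x y h with rfl | ⟨hx, hy⟩
    · omega
    · exact hb.even x y (Or.inl hy) (by rw [tz_ge (by omega), tz_ge (by omega)])
  · intro x y h
    rcases key x y h with rfl | ⟨hx, hy⟩
    · rfl
    · rw [tz_ge (by omega), tz_ge (by omega)]
  · intro i hi
    refine sum_congr rfl fun t ht => ?_
    rw [mem_filter] at ht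
    have : t.val ≤ 1 := by
      have := ht.2
      omega
    rw [la t this, lb t this]

theorem split_sum (c : Fin r → ℕ) (ρ : ℕ) :
    ∑ t, c t = ∑ t with t.val < ρ, c t + ∑ t with ρ ≤ t.val, c t := by
  rw [← sum_filter_add_sum_filter_not univ (fun t : Fin r => t.val < ρ)]
  simp only [not_lt]

theorem small_sums (hρ : 2 ≤ n % r) {a b : Fin r → ℕ} (ha : Vs r n D s a)
    (hb : Vs r n D s b) :
    ∑ t with n % r ≤ t.val, b t ≤ ∑ t with n % r ≤ t.val, a t := by
  by_cases h : ∃ k : Fin r, k.val < n % r ∧ 2 ≤ a k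
  · obtain ⟨k, hk, hk2⟩ := h
    refine sum_le_sum fun t ht => ?_
    rw [mem_filter] at ht
    rw [ha.greedy k t (Or.inl (by omega)) (by rw [tz_lt hk, tz_ge ht.2]; omega) hk2]
    exact hb.le t
  · push Not at h
    have h1 : ∑ t with t.val < n % r, a t ≤ ∑ t with t.val < n % r, b t := by
      refine sum_le_sum fun t ht => ?_
      rw [mem_filter] at ht
      have h2 := h t ht.2
      have h3 := hb.pos t
      omega
    have h2 := split_sum a (n % r)
    have h3 := split_sum b (n % r)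
    have h4 := ha.sum
    have h5 := hb.sum
    omega

/-- comparison values on the large classes -/
def mm {r : ℕ} (s : ℕ) (t : Fin r) : ℕ := if t.val ≤ 1 then s - 1 else s

theorem big_low (hρ : 2 ≤ n % r) {c : Fin r → ℕ} (hc : Vs r n D s c)
    (hbig : ∃ t : Fin r, t.val < n % r ∧ s < c t) : ∀ t : Fin r, t.val ≤ 1 → c t = s - 1 := by
  intro t ht
  obtain ⟨k, hk, hk2⟩ := hbig
  have h1 := hc.cap t ht
  by_contra h
  have h2 := hc.even k t (Or.inr (by omega)) (by rw [tz_lt hk, tz_lt (by omega)])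
  omega

theorem big_sum (hρ : 2 ≤ n % r) {c : Fin r → ℕ} (hc : Vs r n D s c)
    (hbig : ∃ t : Fin r, t.val < n % r ∧ s < c t) :
    ∑ t : Fin r with t.val < n % r, mm s t < ∑ t with t.val < n % r, c t := by
  have h0 := big_low hρ hc hbig
  obtain ⟨k, hk, hk2⟩ := hbig
  refine sum_lt_sum (fun t ht => ?_) ⟨k, by simpa using hk, ?_⟩
  · rw [mem_filter] at ht
    unfold mm
    split_ifs with h
    · rw [h0 t h]
    · have h2 := hc.even k t (Or.inl (by omega)) (by rw [tz_lt hk, tz_lt (by omega)])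
      omega
  · unfold mm
    split_ifs <;> omega

theorem small_sum {c : Fin r → ℕ} (hc : Vs r n D s c)
    (hbig : ¬ ∃ t : Fin r, t.val < n % r ∧ s < c t) :
    ∑ t with t.val < n % r, c t ≤ ∑ t : Fin r with t.val < n % r, mm s t := by
  push Not at hbig
  refine sum_le_sum fun t ht => ?_
  rw [mem_filter] at ht
  unfold mm
  split_ifs with h
  · have := hc.cap t h
    omega
  · exact hbig t ht.2

theorem case_high (hρ : 2 ≤ n % r) {a b : Fin r → ℕ} (ha : Vs r n D s a)
    (hb : Vs r n D s b) :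
    ∃ π : Equiv.Perm (Fin r), (∀ t, tz r n (π t) = tz r n t) ∧ ∀ t, b (π t) = a t := by
  have eS : ∑ t with n % r ≤ t.val, a t = ∑ t with n % r ≤ t.val, b t :=
    le_antisymm (small_sums hρ hb ha) (small_sums hρ ha hb)
  have eL : ∑ t with t.val < n % r, a t = ∑ t with t.val < n % r, b t := by
    have h2 := split_sum a (n % r)
    have h3 := split_sum b (n % r)
    have h4 := ha.sum
    have h5 := hb.sum
    omega
  by_cases hA : ∃ t : Fin r, t.val < n % r ∧ s < a t
  · have hB : ∃ t : Fin r, t.val < n % r ∧ s < b t := by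
      by_contra hB
      have h1 := big_sum hρ ha hA
      have h2 := small_sum hb hB
      omega
    have la := big_low hρ ha hA
    have lb := big_low hρ hb hB
    let g : Fin r → ℕ := fun t => if n % r ≤ t.val then 3 else min t.val 2
    have key : ∀ x y : Fin r, g x = g y → x = y ∨ (2 ≤ x.val ∧ 2 ≤ y.val ∧
        tz r n x = tz r n y) := by
      intro x y h
      simp only [g] at h
      split_ifs at h with h1 h2 h2
      · exact Or.inr ⟨by omega, by omega, by rw [tz_ge h1, tz_ge h2]⟩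
      · omega
      · omega
      · rcases Nat.lt_or_ge x.val 2 with hx | hx
        · exact Or.inl (Fin.ext (by omega))
        · exact Or.inr ⟨hx, by omega, by rw [tz_lt (by omega), tz_lt (by omega)]⟩
    refine glue' g a b 2 ?_ ?_ ?_ (ha.sum.trans hb.sum.symm) ?_
    · intro x y h
      rcases key x y h with rfl | ⟨_, hy, he⟩
      · omega
      · exact ha.even x y (Or.inl hy) he
    · intro x y h
      rcases key x y h with rfl | ⟨_, hy, he⟩
      · omega
      · exact hb.even x y (Or.inl hy) he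
    · intro x y h
      rcases key x y h with rfl | ⟨_, _, he⟩
      · rfl
      · exact he
    · intro i hi
      by_cases h3 : i = 3
      · subst h3
        have e : ({t | g t = 3} : Finset (Fin r)) = ({t | n % r ≤ t.val} : Finset (Fin r)) := by
          refine filter_congr fun t _ => ?_
          simp only [g]
          split_ifs with h
          · simp [h]
          · constructor
            · intro h'
              omega
            · intro h'
              exact absurd h' h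
        rw [e]
        exact eS
      · refine sum_congr rfl fun t ht => ?_
        rw [mem_filter] at ht
        have h4 := ht.2
        simp only [g] at h4
        split_ifs at h4 with h5
        · omega
        · rw [la t (by omega), lb t (by omega)]
  · have hB : ¬ ∃ t : Fin r, t.val < n % r ∧ s < b t := by
      intro hB
      have h1 := big_sum hρ hb hB
      have h2 := small_sum ha hA
      omega
    have bal : ∀ c : Fin r → ℕ, Vs r n D s c → (¬ ∃ t : Fin r, t.val < n % r ∧ s < c t) →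
        ∀ x y : Fin r, (if n % r ≤ x.val then 1 else 0) = (if n % r ≤ y.val then 1 else 0) →
        c x ≤ c y + 1 := by
      intro c hc hC x y h
      split_ifs at h with h1 h2 h2
      · exact hc.even x y (Or.inl (by omega)) (by rw [tz_ge h1, tz_ge h2])
      · by_cases h3 : 2 ≤ y.val ∨ c y + 1 < s
        · exact hc.even x y h3 (by rw [tz_lt (by omega), tz_lt (by omega)])
        · push Not at h3
          have h4 : ¬ (x.val < n % r ∧ s < c x) := fun h4 => hC ⟨x, h4⟩
          omega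
    refine glue' (fun t => if n % r ≤ t.val then 1 else 0) a b 0 (bal a ha hA) (bal b hb hB)
      ?_ (ha.sum.trans hb.sum.symm) ?_
    · intro x y h
      split_ifs at h with h1 h2 h2
      · rw [tz_ge h1, tz_ge h2]
      · rw [tz_lt (by omega), tz_lt (by omega)]
    · intro i hi
      have e : ({t | (if n % r ≤ t.val then 1 else 0) = i} : Finset (Fin r)) =
          if i = 1 then ({t | n % r ≤ t.val} : Finset (Fin r)) else ∅ := by
        ext t
        split_ifs with h1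
        · subst h1
          simp only [mem_filter, mem_univ, true_and]
          split_ifs with h <;> simp [h]
        · simp only [mem_filter, mem_univ, true_and, notMem_empty, iff_false]
          split_ifs with h <;> omega
      rw [e]
      split_ifs with h1
      · exact eS
      · rfl

end

end GVC

theorem prfGVC : GVC_statement := by
  intro r s ε hr hs hε
  refine ⟨⌈2 * (r : ℝ) * (s + 1) / ε⌉₊, fun n hn D hRR a b ha hb => ?_⟩
  obtain ⟨h1, h2⟩ := hRR
  have hr0 : (3 : ℝ) ≤ r := by exact_mod_cast hr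
  have hs0 : (0 : ℝ) ≤ s := Nat.cast_nonneg s
  have hn1 : 2 * (r : ℝ) * (s + 1) / ε ≤ n := Nat.ceil_le.1 hn
  have hn2 : 2 * (r : ℝ) * (s + 1) ≤ ε * n := by
    rw [div_le_iff₀ hε] at hn1
    linarith
  have hn0 : (0 : ℝ) ≤ n := Nat.cast_nonneg n
  have hi : 1 / (r : ℝ) ≤ 1 / 3 := one_div_le_one_div_of_le (by norm_num) hr0
  have hi0 : 0 < 1 / (r : ℝ) := by positivity
  have hri : (r : ℝ) * (1 / r) = 1 := by field_simp
  have hrs : (0 : ℝ) ≤ r * s := by positivity
  have hq1 : 2 / 3 * n ≤ qq r * n := by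
    refine mul_le_mul_of_nonneg_right ?_ hn0
    unfold qq
    linarith
  have hq2 : qq r * n ≤ n := by
    have : qq r ≤ 1 := by
      unfold qq
      linarith
    nlinarith
  have hq3 : ε * (2 / 3 * n) ≤ ε * (qq r * n) := mul_le_mul_of_nonneg_left hq1 hε.le
  have g1 : r * s < D := by
    have : (r : ℝ) * s < D := by linarith
    exact_mod_cast this
  have g2 : D < (r - 2) * (n / r) := by
    have e1 : (n : ℝ) < r * ((n / r : ℕ) : ℝ) + r := by
      have h3 : n < r * (n / r) + r := by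
        have := Nat.div_add_mod n r
        have := Nat.mod_lt n (show 0 < r by omega)
        omega
      exact_mod_cast h3
    have e2 : ((r - 2 : ℕ) : ℝ) = r - 2 := by
      rw [Nat.cast_sub (by omega)]
      norm_num
    have e3 : (D : ℝ) < ((r - 2 : ℕ) : ℝ) * ((n / r : ℕ) : ℝ) := by
      rw [e2]
      set y : ℝ := ((n / r : ℕ) : ℝ) with hy
      set z : ℝ := 1 / (r : ℝ) with hz
      have h20 : 2 / (r : ℝ) = 2 * z := by
        rw [hz]
        ring
      rw [h20] at h2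
      have e4 : (1 - 2 * z - ε) * (qq r * n) = (1 - 2 * z) * (qq r * n) - ε * (qq r * n) := by ring
      have e5 : (1 - 2 * z) * (qq r * n) ≤ (1 - 2 * z) * n :=
        mul_le_mul_of_nonneg_left hq2 (by linarith)
      have e6 : (1 - 2 * z) * n = (r - 2) * (z * n) := by
        have : (r - 2) * (z * n) = (r * z - 2 * z) * n := by ring
        rw [this, hri]
      have e7 : z * n < y + 1 := by
        have : z * n < z * (r * y + r) := mul_lt_mul_of_pos_left e1 hi0
        have e8 : z * (r * y + r) = (r * z) * (y + 1) := by ring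
        rw [e8, hri, one_mul] at this
        exact this
      have e9 : (r - 2) * (z * n) ≤ (r - 2) * (y + 1) :=
        mul_le_mul_of_nonneg_left e7.le (by linarith)
      have e10 : ((r : ℝ) - 2) * (y + 1) = (r - 2) * y + (r - 2) := by ring
      linarith
    exact_mod_cast e3
  rcases Nat.lt_or_ge (n % r) 2 with hρ | hρ
  · exact GVC.case_low (by omega) hr g1 g2 ha hb
  · exact GVC.case_high hρ ha hb

end MP0c3a8f

end

section

/-!
# MP_0c3a8f_co, phase B: item GRT
-/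

open Finset

namespace MP0c3a8f

theorem prfGRT : GRT_statement := by
  intro r n D hr hrD hDn
  have hpos : 1 ≤ n / r := by
    rcases Nat.eq_zero_or_pos (n / r) with h | h
    · rw [h, mul_zero] at hDn
      omega
    · exact h
  have htz : ∀ t : Fin r, 1 ≤ tz r n t := fun t => by
    unfold tz
    omega
  obtain ⟨c1, c2⟩ := GRE.card_ge r 2 (by omega)
  have s1 := GRE.sum_tz r n 2 (by omega)
  obtain ⟨a, ha1, ha2, ha3⟩ := GRE.fill2 (tz r n)
    (Finset.univ.filter (fun t : Fin r => 2 ≤ t.val)) (fun t => tz r n t = n / r) (D - 1)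
    (fun t _ => htz t) (by omega) (by omega)
  refine ⟨fun t => if 2 ≤ t.val then a t else 1, ?_, ?_, ?_, ?_⟩
  · intro t ht
    simp only
    rw [if_neg (by omega)]
  · intro t
    simp only
    split_ifs with h
    · exact ha1 t (Finset.mem_filter.2 ⟨Finset.mem_univ t, h⟩)
    · exact ⟨le_rfl, htz t⟩
  · rw [← Finset.sum_filter_add_sum_filter_not Finset.univ (fun t : Fin r => 2 ≤ t.val),
      Finset.sum_congr rfl (g := a) (fun t ht => if_pos (Finset.mem_filter.1 ht).2),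
      Finset.sum_congr (rfl : Finset.univ.filter (fun t : Fin r => ¬ 2 ≤ t.val) = _)
        (g := fun _ => 1) (fun t ht => if_neg (Finset.mem_filter.1 ht).2), ha2]
    simp only [Finset.sum_const, smul_eq_mul, mul_one]
    omega
  · rcases ha3 with h | h
    · left
      intro t ht h1
      simp only [if_pos ht]
      exact h t (Finset.mem_filter.2 ⟨Finset.mem_univ t, ht⟩) h1
    · right
      intro t ht h1
      simp only [if_pos ht]
      exact h t (Finset.mem_filter.2 ⟨Finset.mem_univ t, ht⟩) (by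
        intro h2
        omega)

end MP0c3a8f

end
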