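import Pool.Agent.Work.MP_0c3a8f_co.Bd.B04
import Pool.Agent.Work.MP_0c3a8f_co.Bd.B08
import Pool.Agent.Work.MP_0c3a8f_co.Bd.B03
import Pool.Agent.Work.MP_0c3a8f_co.PB.ItemZET
import Pool.Agent.Work.MP_0c3a8f_co.PB.ItemNRML
import Pool.Agent.Work.MP_0c3a8f_co.PB.ItemEST0
import Pool.Agent.Work.MP_0c3a8f_co.PB.ItemROUGH
import Pool.Agent.Work.MP_0c3a8f_co.PB.ItemCOMPU
import Pool.Agent.Work.MP_0c3a8f_co.Bd.B06
import Pool.Agent.Work.MP_0c3a8f_co.Bd.B05
import Pool.Agent.Work.MP_0c3a8f_co.PB.ItemOPTC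
import Pool.Agent.Work.MP_0c3a8f_co.PB.ItemOPT
import Pool.Agent.Work.MP_0c3a8f_co.PB.ItemFLAT
import Pool.Agent.Work.MP_0c3a8f_co.Bd.B07
import Pool.Agent.Work.MP_0c3a8f_co.PB.ItemSECAS
import Pool.Agent.Work.MP_0c3a8f_co.PB.ItemSEC
import Pool.Agent.Work.MP_0c3a8f_co.PB.ItemEXP
import Pool.Agent.Work.MP_0c3a8f_co.PB.ItemJF1
import Pool.Agent.Work.MP_0c3a8f_co.PB.ItemJF2
import Pool.Agent.Work.MP_0c3a8f_co.PB.ItemJB
import Pool.Agent.Work.MP_0c3a8f_co.PB.ItemFAM1
import Pool.Agent.Work.MP_0c3a8f_co.PB.ItemFAM2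
import Pool.Agent.Work.MP_0c3a8f_co.PB.ItemMEM2
import Pool.Agent.Work.MP_0c3a8f_co.PB.ItemGAP1
import Pool.Agent.Work.MP_0c3a8f_co.PB.ItemGAP2
import Pool.Agent.Work.MP_0c3a8f_co.PB.ItemSW1
import Pool.Agent.Work.MP_0c3a8f_co.PB.ItemUS2
import Pool.Agent.Work.MP_0c3a8f_co.PB.ItemISO1
import Pool.Agent.Work.MP_0c3a8f_co.PB.ItemTOP1
import Pool.Agent.Work.MP_0c3a8f_co.PB.ItemTOP2
import Pool.Agent.Work.MP_0c3a8f_co.PB.ItemEVF1
import Pool.Agent.Work.MP_0c3a8f_co.PB.ItemEXC2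
import Pool.Agent.Work.MP_0c3a8f_co.PB.ItemRLC2
import Pool.Agent.Work.MP_0c3a8f_co.PB.ItemEVF2
import Pool.Agent.Work.MP_0c3a8f_co.PB.ItemORD2
import Pool.Agent.Work.MP_0c3a8f_co.PB.Stmts3
import Pool.Agent.Work.MP_0c3a8f_co.PB.Stmts4
import Pool.Agent.Work.MP_0c3a8f_co.PB.ItemUBG
import Pool.Agent.Work.MP_0c3a8f_co.PB.ItemGREE
import Pool.Agent.Work.MP_0c3a8f_co.PB.ItemJFA
import Pool.Agent.Work.MP_0c3a8f_co.PB.ItemJFB
import Pool.Agent.Work.MP_0c3a8f_co.PB.ItemJFC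
import Pool.Agent.Work.MP_0c3a8f_co.PB.ItemTOP3
import Pool.Agent.Work.MP_0c3a8f_co.Bd.B09
import Pool.Agent.Work.MP_0c3a8f_co.Bd.B10
import Pool.Agent.Work.MP_0c3a8f_co.PB.ItemEXCR2
import Pool.Agent.Work.MP_0c3a8f_co.PB.ItemORDR2
import Pool.Agent.Work.MP_0c3a8f_co.PB.ItemMEMB
import Pool.Agent.Work.MP_0c3a8f_co.PB.ItemFAMZ
import Pool.Agent.Work.MP_0c3a8f_co.PB.ItemJFZ
import Pool.Agent.Work.MP_0c3a8f_co.PB.ItemJBZ
import Pool.Agent.Work.MP_0c3a8f_co.PB.ItemTOPZ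
import Pool.Agent.Work.MP_0c3a8f_co.PB.ItemPICK
import Pool.Agent.Work.MP_0c3a8f_co.PB.ItemMPF

/-! Bundle of small proof modules (one section per former module). -/

section

/-!
# MP_0c3a8f_co, phase B: all items together
-/

namespace MP0c3a8f

theorem bSTRL : STRL_statement := prfSTRL prfP prfEDG.1 pSTB pCOR prfKEY
theorem bNRML : NRML_statement := prfNRML prfCHP prfZET
theorem bROUGH : ROUGH_statement := prfROUGH (prfEST0 bSTRL bNRML (prfZMAX bNRML))
theorem bCOMPU : COMPU_statement := prfCOMPU prfP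
theorem bKW3 : KW3_statement := prfKW3 prfP
theorem bKW : KW_statement := prfKW prfP (prfKW1 prfP) (prfKW2 prfP) bKW3
theorem bMAIN : MAIN_statement := prfMAIN prfCNTU bCOMPU bKW
theorem bSTRB : STRB_statement :=
  prfSTRB prfP prfEDG.1 bROUGH bMAIN prfCNTU (prfOPT prfOPTC) (prfFLAT prfP) prfDEV
theorem bSEC : SEC_statement := prfSEC prfP (prfSECEQ prfP) prfSECAS bKW
theorem bLBG : LBG_statement := prfLBG prfCNTU bCOMPU bSEC
theorem bUB1 : UB1_statement := prfUB1 prfP bKW3 bSEC prfCNTU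
theorem bUB2 : UB2_statement := prfUB2 prfP bSEC prfCNTU
theorem bMEM1 : MEM1_statement := prfMEM1 prfCNTU
theorem bMEM2 : MEM2_statement := prfMEM2 prfCNTU
theorem bGAP1 : GAP1_statement := prfGAP1 prfP prfEIG1
theorem bGAP2 : GAP2_statement := prfGAP2 prfP prfEIG2
theorem bMV1 : MV1_statement := prfMV1 prfP prfEIG1 bGAP1
theorem bMV2 : MV2_statement := prfMV2 prfP prfEIG2 bGAP2
theorem bSW1 : SW1_statement := prfSW1 prfP prfEIG1 bGAP1
theorem bUS2 : US2_statement := prfUS2 prfP prfEIG2 bGAP2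
theorem bTI2 : TI2_statement := prfTI2 prfP prfEIG2
theorem bJB : JB_statement := prfJB prfEXP prfDEV
theorem bGRE : GRE_statement := prfGRE prfDEV
theorem bCLA : CLA_statement := prfCLA prfGRD.1
theorem bMAXE : MAXE_statement := prfMAXE prfEDG.2
theorem bTOP1 : TOP1_statement :=
  prfTOP1 prfP prfEDG.1 prfEDG.2 prfCRT prfKCC bMAXE prfDEV prfCNTU bSTRB bLBG bUB1 prfEXP bGRE
    (prfJF1 prfEXP prfDEV) bJB prfFAM1 bMEM1 bCLA prfCLB
theorem bTOP2 : TOP2_statement :=
  prfTOP2 prfP prfEDG.1 prfEDG.2 prfCRT prfKCC bMAXE prfDEV prfCNTU bSTRB bLBG bUB2 prfEXP bGRE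
    (prfJF2 prfEXP prfDEV) bJB prfFAM2 bMEM2 bCLA
theorem bEVF1 : EVF1_statement := prfEVF1 bMV1 bMEM1
theorem bORD1 : ORD1_statement := prfORD1 bMV1 bSW1 bMEM1 bEVF1
theorem bEXC2 : EXC2_statement := prfEXC2 bUS2 bMEM2
theorem bRLC2 : RLC2_statement := prfRLC2 bTI2 bMEM2
theorem bEVF2 : EVF2_statement := prfEVF2 bMV2 bMEM2 bEXC2 bRLC2
theorem bORD2 : ORD2_statement := prfORD2 bMV2 bUS2 bMEM2 bEXC2 bRLC2 bEVF2
theorem bFIN1 : FIN1_statement :=
  prfFIN1 prfEDG.2 bMEM1 prfGV prfISO1 prfREL bTOP1 bEVF1 bORD1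
theorem bFIN2 : FIN2_statement :=
  prfFIN2 bMEM2 prfGV prfREL bTI2 bTOP2 bEXC2 bEVF2 bORD2

end MP0c3a8f

end

section

/-! Item EIG0: the eigenvalue equations of a graph of type zero (as in item EIG1). -/

set_option autoImplicit false

open Finset

namespace MP0c3a8f

namespace EIG0

open Classical in
theorem row {r : ℕ} {V : Type} [Fintype V] {G : SimpleGraph V} {f : V → Option (Fin r)}
    {w : V} (x : V → ℝ) (h : Ty0 G f w) (v : V) (t : Fin r) (hv : f v = some t) :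
    ∑ u, adj G v u * x u = (∑ s, cw x f (some s) - cw x f (some t)) +
      (if G.Adj w v then x w else 0) := by
  have hw : f w = none := (h.out w).2 rfl
  have e1 : (if G.Adj w v then x w else 0) =
      ∑ u, if u = w then (if G.Adj w v then x w else 0) else 0 := by
    rw [Finset.sum_ite_eq' Finset.univ w]
    simp
  rw [EIG1.tot, e1]
  unfold cw
  rw [← Finset.sum_sub_distrib, ← Finset.sum_add_distrib]
  refine Finset.sum_congr rfl fun u _ => ?_
  unfold adj
  by_cases huw : u = w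
  · subst huw
    simp [hw, G.adj_comm v u]
  · have hu : f u ≠ none := fun e => huw ((h.out u).1 e)
    have hv' : f v ≠ none := by rw [hv]; simp
    have hc := h.core v u hv' hu
    rw [hv] at hc
    by_cases hut : f u = some t
    · have hna : ¬ G.Adj v u := by
        rw [hc, hut]
        simp
      rw [if_neg hna, if_pos hu, if_pos hut, if_neg huw]
      ring
    · have ha : G.Adj v u := by
        rw [hc]
        exact fun e => hut e.symm
      rw [if_pos ha, if_pos hu, if_neg hut, if_neg huw]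
      ring

end EIG0

open Classical in
theorem prfEIG0 : EIG0_statement := by
  intro r V _ G f w x l h hx
  have hrow : ∀ v t, f v = some t → l * x v = (∑ s, cw x f (some s) - cw x f (some t)) +
      (if G.Adj w v then x w else 0) := fun v t hv => by
    rw [← hx v]
    exact EIG0.row x h v t hv
  refine ⟨hrow, fun t => ?_, ?_⟩
  · have e1 : l * cw x f (some t) = ∑ v, if f v = some t then l * x v else 0 := by
      unfold cw
      rw [Finset.mul_sum]
      exact Finset.sum_congr rfl fun v _ => by split_ifs <;> simp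
    have e2 : ∀ v, (if f v = some t then l * x v else 0) =
        (if f v = some t then (1 : ℝ) else 0) * (∑ s, cw x f (some s) - cw x f (some t)) +
        (if f v = some t ∧ G.Adj w v then (1 : ℝ) else 0) * x w := by
      intro v
      by_cases hv : f v = some t
      · rw [if_pos hv, if_pos hv, hrow v t hv]
        have a1 : (if f v = some t ∧ G.Adj w v then (1 : ℝ) else 0) * x w =
            if G.Adj w v then x w else 0 := by
          by_cases ha : G.Adj w v <;> simp [ha, hv]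
        rw [a1]
        ring
      · rw [if_neg hv, if_neg hv, if_neg (fun h' => hv h'.1)]
        ring
    rw [e1, Finset.sum_congr rfl fun v _ => e2 v, Finset.sum_add_distrib, ← Finset.sum_mul,
      ← Finset.sum_mul, ← EIG1.ncard_eq, ← EIG1.ncard_eq]
    simp [siz, nbn]
  · rw [← hx w]
    refine Finset.sum_congr rfl fun u _ => ?_
    unfold adj
    by_cases ha : G.Adj w u
    · have hu : f u ≠ none := by
        intro e
        rw [(h.out u).1 e] at ha
        exact G.loopless.irrefl w ha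
      simp [ha, hu]
    · simp [ha]

end MP0c3a8f

end

section

/-!
# MP_0c3a8f_co, phase B: the final theorem for the class `Fs`
-/

open Finset

namespace MP0c3a8f

namespace FINS

theorem nbn_le {V : Type} [Fintype V] {r : ℕ} (G : SimpleGraph V) (f : V → Option (Fin r)) (w : V)
    (t : Fin r) : nbn G f w t ≤ siz f t := by
  unfold nbn siz
  exact Set.ncard_le_ncard (fun v hv => hv.1) (Set.toFinite _)

theorem ty0_map {V : Type} {r : ℕ} {G : SimpleGraph V} {f : V → Option (Fin r)} {w : V}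
    (hT : Ty0 G f w) (π : Equiv.Perm (Fin r)) : Ty0 G (fun v => (f v).map π) w := by
  have hnone : ∀ v, (f v).map π = none ↔ f v = none := fun v => Option.map_eq_none_iff
  refine ⟨fun v => ?_, fun u v hu hv => ?_⟩
  · show (f v).map π = none ↔ v = w
    rw [hnone, hT.out]
  · show G.Adj u v ↔ (f u).map π ≠ (f v).map π
    rw [hT.core u v (fun h => hu ((hnone u).2 h)) (fun h => hv ((hnone v).2 h))]
    exact not_congr (Option.map_injective π.injective).eq_iff.symm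

/-- a maximiser is in the family -/
theorem isGs {r n D s : ℕ} (hr : 3 ≤ r) (hREL : REL_statement) {V : Type} [Fintype V]
    {G : SimpleGraph V} {f : V → Option (Fin r)} {w : V} {i j : Fin r} (hT : Ty0 G f w)
    (hB : Bal n f) (hd : ∑ t, nbn G f w t = D) (hp : ∀ t, 1 ≤ nbn G f w t) (hij : i ≠ j)
    (hi : nbn G f w i < s) (hj : nbn G f w j < s) (hji : siz f j ≤ siz f i)
    (hk : ∀ k, k ≠ i → k ≠ j → siz f k ≤ siz f j)
    (he : ∀ k l, (l ≠ i ∧ l ≠ j ∨ nbn G f w l + 1 < s) → siz f k = siz f l →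
      nbn G f w k ≤ nbn G f w l + 1)
    (hg : ∀ k l, (l ≠ i ∧ l ≠ j ∨ nbn G f w l + 1 < s) → siz f k = siz f l + 1 →
      2 ≤ nbn G f w k → nbn G f w l = siz f l) : IsGs r n D s G := by
  obtain ⟨π, h1, h2, h3⟩ := FIN1_perm (n := n) hr (siz f) i j hij hB.1 hB.2
    (by
      intro t
      by_cases h4 : t = i
      · rw [h4]
      · by_cases h5 : t = j
        · rw [h5]; exact hji
        · exact (hk t h4 h5).trans hji)
    (by
      intro t h4
      by_cases h5 : t = j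
      · rw [h5]
      · exact hk t h4 h5)
  obtain ⟨r1, r2, _, _⟩ := hREL r V G f π
  have hsz : ∀ t, siz f (π.symm t) = tz r n t := by
    intro t
    have := h1 (π.symm t)
    rwa [Equiv.apply_symm_apply] at this
  have hnb : ∀ t, nbn G (fun v => (f v).map π) w t = nbn G f w (π.symm t) := by
    intro t
    have := r2 w (π.symm t)
    rwa [Equiv.apply_symm_apply] at this
  have hne : ∀ t : Fin r, 2 ≤ t.val → π.symm t ≠ i ∧ π.symm t ≠ j := by
    intro t ht
    constructor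
    · intro h4
      have h5 := congrArg (fun x => (π x).val) h4
      simp only [Equiv.apply_symm_apply] at h5
      omega
    · intro h4
      have h5 := congrArg (fun x => (π x).val) h4
      simp only [Equiv.apply_symm_apply] at h5
      omega
  have hcond : ∀ l : Fin r, (2 ≤ l.val ∨ nbn G (fun v => (f v).map π) w l + 1 < s) →
      (π.symm l ≠ i ∧ π.symm l ≠ j ∨ nbn G f w (π.symm l) + 1 < s) := by
    intro l hl
    rcases hl with hl | hl
    · exact Or.inl (hne l hl)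
    · right; rwa [hnb] at hl
  refine ⟨fun v => (f v).map π, w, ty0_map hT π, ?_, ?_, ?_, ?_, ?_, ?_⟩
  · intro t
    have h4 := r1 (π.symm t)
    rw [Equiv.apply_symm_apply] at h4
    rw [h4, hsz]
  · rw [← hd, ← Equiv.sum_comp π.symm (nbn G f w)]
    exact Finset.sum_congr rfl fun t _ => hnb t
  · intro t
    rw [hnb]
    exact hp _
  · intro t ht
    rw [hnb]
    have h4 : t.val = 0 ∨ t.val = 1 := by omega
    rcases h4 with h4 | h4
    · have h5 : π i = t := Fin.ext (by omega)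
      rw [← h5, Equiv.symm_apply_apply]
      exact hi
    · have h5 : π j = t := Fin.ext (by omega)
      rw [← h5, Equiv.symm_apply_apply]
      exact hj
  · intro k l hl hkl
    rw [hnb, hnb]
    exact he _ _ (hcond l hl) (by rw [hsz, hsz, hkl])
  · intro k l hl hkl h2k
    have h2k' : 2 ≤ nbn G f w (π.symm k) := by
      rw [← hnb]; exact h2k
    rw [hnb, ← hsz l]
    refine hg _ _ (hcond l hl) ?_ h2k'
    rw [hsz, hsz]
    unfold tz at hkl ⊢
    split_ifs at hkl ⊢ <;> omega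

/-- the family consists of vectors as in `Vs` -/
theorem vs {r n D s : ℕ} {V : Type} [Fintype V] {G : SimpleGraph V} {f : V → Option (Fin r)}
    {w : V} (hz : ∀ t, siz f t = tz r n t) (hd : ∑ t, nbn G f w t = D)
    (hp : ∀ t, 1 ≤ nbn G f w t) (hc : ∀ t : Fin r, t.val ≤ 1 → nbn G f w t < s)
    (he : ∀ k l : Fin r, (2 ≤ l.val ∨ nbn G f w l + 1 < s) → tz r n k = tz r n l →
      nbn G f w k ≤ nbn G f w l + 1)
    (hg : ∀ k l : Fin r, (2 ≤ l.val ∨ nbn G f w l + 1 < s) → tz r n l < tz r n k →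
      2 ≤ nbn G f w k → nbn G f w l = tz r n l) : Vs r n D s (nbn G f w) :=
  ⟨fun t => by rw [← hz t]; exact nbn_le G f w t, hd, hp, hc, he, hg⟩

theorem iso {r n D s : ℕ} (hREL : REL_statement) (hISO0 : ISO0_statement)
    (hGVC : ∀ a b : Fin r → ℕ, Vs r n D s a → Vs r n D s b →
      ∃ π : Equiv.Perm (Fin r), (∀ t, tz r n (π t) = tz r n t) ∧ ∀ t, b (π t) = a t)
    {V U : Type} [Fintype V] [Fintype U] {G : SimpleGraph V} {H : SimpleGraph U}
    (h : IsGs r n D s G) (h' : IsGs r n D s H) : Nonempty (G ≃g H) := by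
  obtain ⟨f, w, hT, hz, hd, hp, hc, he, hg⟩ := h
  obtain ⟨f', w', hT', hz', hd', hp', hc', he', hg'⟩ := h'
  obtain ⟨π, h1, h2⟩ := hGVC _ _ (vs hz hd hp hc he hg) (vs hz' hd' hp' hc' he' hg')
  obtain ⟨r1, r2, _, _⟩ := hREL r V G f π
  refine hISO0 r V U G H _ f' w w' (ty0_map hT π) hT' ?_ ?_
  · intro t
    have h3 := r1 (π.symm t)
    rw [Equiv.apply_symm_apply] at h3
    rw [h3, hz, hz']
    have h4 := h1 (π.symm t)
    rw [Equiv.apply_symm_apply] at h4
    exact h4.symm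
  · intro t
    have h3 := r2 w (π.symm t)
    rw [Equiv.apply_symm_apply] at h3
    rw [h3]
    have h4 := h2 (π.symm t)
    rw [Equiv.apply_symm_apply] at h4
    exact h4.symm

end FINS

theorem prfFINS : P_statement → ISO_statement → DEV_statement → REL_statement →
    MEMZ_statement → TOPZ_statement → ISO0_statement → GVC_statement → PICK_statement →
    FINS_statement := by
  intro _ hISO hDEV hREL hMEMZ hTOPZ hISO0 hGVC hPICK W _ F r s s₁ ε hr hs hcr hcol hF hε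
  have hgen : Gen2 r F := by
    intro V _ G f w i j hij hT h1 h2
    exact hF.free V G f w i j hij hT (by omega) (by omega)
  obtain ⟨n₁, hn₁⟩ := hTOPZ W F r ε hr hcr hcol hgen hε
  obtain ⟨n₂, hn₂⟩ := hPICK W F r s s₁ ε hr hs hF hε
  obtain ⟨n₃, hn₃⟩ := hGVC r s ε hr hs hε
  refine ⟨n₁ + n₂ + n₃ + r, ?_⟩
  intro n hn D hD
  obtain ⟨hex, hmx⟩ := hn₁ n (by omega) D hD
  have fwd : ∀ (V : Type) [Fintype V] (G : SimpleGraph V), MxF r n D F G →
      IsGs r n D s G := by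
    intro V _ G hG
    obtain ⟨f, w, h1, h2, h3, h4⟩ := hmx V G hG
    obtain ⟨i, j, p1, p2, p3, p4, p5, p6, p7⟩ := hn₂ n (by omega) D hD V G f w hG h1 h2 h3 h4
    exact FINS.isGs hr hREL h1 h2 h3 h4 p1 p2 p3 p4 p5 p6 p7
  have hiso : ∀ (V U : Type) [Fintype V] [Fintype U] (G : SimpleGraph V) (H : SimpleGraph U),
      IsGs r n D s G → IsGs r n D s H → Nonempty (G ≃g H) := by
    intro V U _ _ G H h h'
    exact FINS.iso hREL hISO0 (hn₃ n (by omega) D hD) h h'
  refine ⟨hex, ?_, hiso⟩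
  intro V _ G
  refine ⟨fwd V G, ?_⟩
  intro h
  obtain ⟨k, M, hM⟩ := hex
  have hlam : lam G = lam M := hISO _ _ _ _ (hiso _ _ _ _ h (fwd _ M hM))
  have hIn : InN r ((SimpleGraph.turanGraph n r).edgeSet.ncard + D) F G := by
    obtain ⟨f, w, hT, hz, hd, hp, hc, he, hg⟩ := h
    refine GENX.mem hDEV hMEMZ hr (by omega) ⟨f, w, hT, hz, hd, hp⟩ ?_
    refine hF.free V G f w ⟨0, by omega⟩ ⟨1, by omega⟩ ?_ hT (hc _ (by simp)) (hc _ (by simp))
    intro h0
    have := congrArg Fin.val h0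
    simp at this
  refine ⟨hIn, ?_⟩
  intro U _ H hH
  rw [hlam]
  exact hM.2 U H hH

end MP0c3a8f

end

section

/-!
# MP_0c3a8f_co, phase B: item KWS
-/

open Finset

namespace MP0c3a8f

namespace ItemKWS

open ItemKW1

/-- the lower bound from the test vector -/
theorem low (hP : P_statement) {V : Type} [Fintype V] [Nonempty V] {r : ℕ} {G : SimpleGraph V}
    {g : V → Option (Fin r)} (hK : IsKU G g ∅) (n : ℝ) (hcast : n = ∑ s, (siz g s : ℝ)) :
    ∑ t, (siz g t : ℝ) * (n - siz g t) ≤ n * lam G := by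
  classical
  obtain ⟨hl0, hR, x, hx0, hx1, hxe⟩ := hP V G
  have h1 := hR (fun v => if g v = none then 0 else 1)
  have h2 : ∑ v, (if g v = none then (0 : ℝ) else 1) ^ 2 = n := by
    rw [hcast, Finset.sum_congr rfl fun t _ => siz_eq g t, Finset.sum_comm]
    refine Finset.sum_congr rfl fun v _ => ?_
    rw [sum_cls]
    split_ifs <;> simp
  have h3 : ∀ s, cw (fun v => if g v = none then (0 : ℝ) else 1) g (some s) = siz g s := by
    intro s
    rw [siz_eq]
    unfold cw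
    refine Finset.sum_congr rfl fun v _ => ?_
    by_cases hv : g v = some s
    · simp [hv]
    · simp [hv]
  have h4 : qf G (fun v => if g v = none then 0 else 1)
      = ∑ t, (siz g t : ℝ) * (n - siz g t) := by
    unfold qf
    have h5 : ∀ u, (∑ v, adj G u v * ((if g u = none then (0 : ℝ) else 1)
        * (if g v = none then 0 else 1)))
        = ∑ t, if g u = some t then (n - siz g t) else 0 := by
      intro u
      cases hu : g u with
      | none => simp
      | some t =>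
        have h6 := adj_core hK (fun v => if g v = none then (0 : ℝ) else 1) u t hu
        simp only [h3] at h6
        rw [← hcast] at h6
        simp only [reduceCtorEq, if_false, one_mul, Option.some.injEq]
        rw [h6]
        simp
    rw [Finset.sum_congr rfl fun u _ => h5 u, Finset.sum_comm]
    refine Finset.sum_congr rfl fun t _ => ?_
    rw [sum_if_const]
  rw [h2, h4] at h1
  linarith

/-- the equation of the index -/
theorem eqn (hP : P_statement) {V : Type} [Fintype V] [Nonempty V] {r : ℕ} {G : SimpleGraph V}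
    {g : V → Option (Fin r)} (hK : IsKU G g ∅) (hlpos : 0 < lam G) :
    ∑ t, (siz g t : ℝ) / (lam G + siz g t) = 1 := by
  classical
  obtain ⟨hl0, hR, x, hx0, hx1, hxe⟩ := hP V G
  set X : Fin r → ℝ := fun t => cw x g (some t) with hX
  set T := ∑ s, X s with hT
  have hXnn : ∀ t, 0 ≤ X t := fun t => Finset.sum_nonneg fun v _ => by
    split_ifs
    · exact hx0 v
    · exact le_rfl
  have hxc : ∀ v t, g v = some t → lam G * x v = T - X t := by
    intro v t hv
    rw [← hxe v, adj_core hK x v t hv]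
  have hxo : ∀ v, g v = none → x v = 0 := by
    intro v hv
    have := hxe v
    rw [adj_out hK x v hv] at this
    rcases mul_eq_zero.1 this.symm with h | h
    · exact absurd h hlpos.ne'
    · exact h
  have hXt : ∀ t, lam G * X t = siz g t * (T - X t) := by
    intro t
    rw [← sum_if_const g t (T - X t)]
    simp only [hX, cw]
    rw [Finset.mul_sum]
    refine Finset.sum_congr rfl fun v _ => ?_
    by_cases hv : g v = some t
    · rw [if_pos hv, if_pos hv]
      exact hxc v t hv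
    · rw [if_neg hv, if_neg hv, mul_zero]
  have hTnn : 0 ≤ T := Finset.sum_nonneg fun t _ => hXnn t
  have hTpos : 0 < T := by
    rcases hTnn.lt_or_eq with h | h
    · exact h
    · exfalso
      have hX0 : ∀ t, X t = 0 := fun t =>
        (Finset.sum_eq_zero_iff_of_nonneg fun t _ => hXnn t).1 h.symm t (Finset.mem_univ t)
      have hxz : ∀ v, x v = 0 := by
        intro v
        cases hv : g v with
        | none => exact hxo v hv
        | some t =>
          have := hxc v t hv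
          rw [hX0 t, ← h, sub_zero] at this
          rcases mul_eq_zero.1 this with h' | h'
          · exact absurd h' hlpos.ne'
          · exact h'
      simp [hxz] at hx1
  have hden : ∀ t, 0 < lam G + (siz g t : ℝ) := fun t => by
    have : (0 : ℝ) ≤ siz g t := Nat.cast_nonneg _
    linarith
  have h1 : ∀ t, X t = T * ((siz g t : ℝ) / (lam G + siz g t)) := by
    intro t
    have h2 := hXt t
    have h3 := hden t
    field_simp
    linarith
  have h4 : T = T * ∑ t, (siz g t : ℝ) / (lam G + siz g t) := by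
    rw [Finset.mul_sum]
    exact Finset.sum_congr rfl fun t _ => h1 t
  have h5 : T * 1 = T * ∑ t, (siz g t : ℝ) / (lam G + siz g t) := by rw [mul_one]; exact h4
  exact (mul_left_cancel₀ hTpos.ne' h5).symm

/-- the analytic part -/
theorem ana2 {r : ℕ} (hr : 3 ≤ r) (C n l : ℝ) (σ : Fin r → ℝ) (hC : 0 ≤ C) (hn : 0 < n)
    (hnC : 64 * C ≤ n) (hσn : ∑ t, σ t = n) (hσ0 : ∀ t, 0 ≤ σ t)
    (hD : ∑ t, (σ t - n / r) ^ 2 ≤ C * n) (hl : qq r * n - C ≤ l)
    (heq : ∑ t, σ t / (l + σ t) = 1) :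
    |l ^ 2 - (qq r ^ 2 * n ^ 2 - 2 * qq r ^ 2 * ∑ t, (σ t - n / r) ^ 2
      + 2 * qq r ^ 2 * (∑ t, (σ t - n / r) ^ 3) / n)| ≤ 45 * C ^ 2 ∧ n / 2 ≤ l ∧
      l ≤ qq r * n := by
  have hr0 : (3 : ℝ) ≤ r := by exact_mod_cast hr
  have hrpos : (0 : ℝ) < r := by linarith
  have hqdef : qq r = 1 - 1 / (r : ℝ) := rfl
  have hir : 1 / (r : ℝ) ≤ 1 / 3 := by
    rw [div_le_div_iff₀ hrpos (by norm_num)]; linarith
  have hirpos : 0 < 1 / (r : ℝ) := by positivity
  set q := qq r with hq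
  have hq23 : 2 / 3 ≤ q := by rw [hqdef]; linarith
  have hq1 : q ≤ 1 := by rw [hqdef]; linarith
  have hln : n / 2 ≤ l := by
    have : 2 / 3 * n ≤ q * n := mul_le_mul_of_nonneg_right hq23 hn.le
    linarith only [this, hl, hnC, hC, hn]
  have hlpos : 0 < l := by linarith only [hln, hn]
  set h := n / (r : ℝ) with hh
  have hhpos : 0 < h := by positivity
  have hhn : h = n * (1 / r) := by rw [hh]; ring
  have hrh : (r : ℝ) * h = n := by rw [hh]; field_simp
  set L := l + h with hL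
  have hLpos : 0 < L := by positivity
  set D := ∑ t, (σ t - h) ^ 2 with hDd
  set Q := ∑ t, (σ t - h) ^ 3 with hQd
  have hDnn : 0 ≤ D := Finset.sum_nonneg fun t _ => sq_nonneg _
  have hsum0 : ∑ t, (σ t - h) = 0 := by
    rw [Finset.sum_sub_distrib, hσn]
    simp only [Finset.sum_const, Finset.card_univ, Fintype.card_fin, nsmul_eq_mul]
    rw [hrh]; ring
  set S := ∑ t, (σ t - h) ^ 2 / (l + σ t) with hS
  have hden : ∀ t, 0 < l + σ t := fun t => by have := hσ0 t; linarith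
  have hid : L * (n - L) = l * S := by
    have h1 : ∀ t, σ t / (l + σ t) = 1 - l / L + l / L ^ 2 * (σ t - h)
        - l / L ^ 2 * ((σ t - h) ^ 2 / (l + σ t)) := by
      intro t
      have := hden t
      have h2 : l + σ t = L + (σ t - h) := by rw [hL]; ring
      have h3 : L + (σ t - h) ≠ 0 := by rw [← h2]; exact this.ne'
      rw [h2]
      have h4 : σ t = (L + (σ t - h)) - l := by rw [hL]; ring
      generalize hdd : σ t - h = d at *
      rw [h4]
      field_simp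
      ring
    have h5 : ∑ t, σ t / (l + σ t) = r * (1 - l / L) - l / L ^ 2 * S := by
      rw [Finset.sum_congr rfl fun t _ => h1 t, Finset.sum_sub_distrib, Finset.sum_add_distrib,
        ← Finset.mul_sum, ← Finset.mul_sum, hsum0]
      simp only [Finset.sum_const, Finset.card_univ, Fintype.card_fin, nsmul_eq_mul]
      rw [hS]; ring
    rw [heq] at h5
    have h6 : L ^ 2 = r * (L - l) * L - l * S := by
      have h8 : L ^ 2 = (r * (1 - l / L) - l / L ^ 2 * S) * L ^ 2 := by rw [← h5, one_mul]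
      rw [h8]
      field_simp
    have h7 : (r : ℝ) * (L - l) = n := by rw [hL]; rw [← hrh]; ring
    rw [h7] at h6
    linarith
  have hSnn : 0 ≤ S := Finset.sum_nonneg fun t _ => div_nonneg (sq_nonneg _) (hden t).le
  have hLn : L ≤ n := by
    by_contra hcon
    push Not at hcon
    have : L * (n - L) < 0 := mul_neg_of_pos_of_neg hLpos (by linarith)
    have : 0 ≤ l * S := by positivity
    linarith
  have hqr : q + 1 / (r : ℝ) = 1 := by rw [hqdef]; ring
  have hLC : n - C ≤ L := by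
    have h1 : L = l + n * (1 / r) := by rw [hL, hhn]
    have h2 : q * n + n * (1 / r) = n := by
      have : q * n + n * (1 / r) = n * (q + 1 / r) := by ring
      rw [this, hqr, mul_one]
    linarith only [h1, h2, hl]
  have hL2 : n / 2 ≤ L := by linarith only [hLC, hnC, hC, hn]
  -- deviations
  have hdel : ∀ t, |σ t - h| ≤ n / 8 := by
    intro t
    have h1 : (σ t - h) ^ 2 ≤ D :=
      Finset.single_le_sum (f := fun t => (σ t - h) ^ 2) (fun t _ => sq_nonneg _)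
        (Finset.mem_univ t)
    have h2 : C * n ≤ (n / 8) ^ 2 := by nlinarith only [hnC, hn]
    exact abs_le_of_sq_le_sq (by linarith only [h1, h2, hD]) (by positivity)
  have hden2 : ∀ t, n / 2 ≤ L + (σ t - h) := by
    intro t
    have := (abs_le.1 (hdel t)).1
    linarith only [this, hLC, hnC, hC, hn]
  have hle : ∀ t, l + σ t = L + (σ t - h) := fun t => by rw [hL]; ring
  -- the remainder
  set R := ∑ t, (σ t - h) ^ 4 / (L ^ 2 * (L + (σ t - h))) with hR
  have hSex : S = D / L - Q / L ^ 2 + R := by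
    rw [hS, hDd, hQd, hR, Finset.sum_div, Finset.sum_div, ← Finset.sum_sub_distrib,
      ← Finset.sum_add_distrib]
    refine Finset.sum_congr rfl fun t _ => ?_
    rw [hle t]
    have h1 : L + (σ t - h) ≠ 0 := by
      have := hden2 t
      have h2 : 0 < L + (σ t - h) := by linarith only [this, hn]
      exact h2.ne'
    generalize σ t - h = d at *
    field_simp
    ring
  have hS2 : S ≤ 2 * C := by
    have h1 : S ≤ ∑ t, (σ t - h) ^ 2 * (2 / n) := by
      rw [hS]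
      refine Finset.sum_le_sum fun t _ => ?_
      rw [hle t, div_eq_mul_inv]
      apply mul_le_mul_of_nonneg_left _ (sq_nonneg _)
      rw [inv_eq_one_div, div_le_div_iff₀ (by have := hden2 t; linarith only [this, hn]) hn]
      have := hden2 t
      linarith only [this]
    rw [← Finset.sum_mul] at h1
    have h2 : D * (2 / n) ≤ C * n * (2 / n) := mul_le_mul_of_nonneg_right hD (by positivity)
    have h3 : C * n * (2 / n) = 2 * C := by field_simp
    linarith only [h1, h2, h3]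
  have hRnn : 0 ≤ R := Finset.sum_nonneg fun t _ => by
    have := hden2 t
    have h2 : 0 < L + (σ t - h) := by linarith only [this, hn]
    have h3 : 0 ≤ (σ t - h) ^ 4 := by positivity
    positivity
  have hR2 : R ≤ 8 * C ^ 2 / n := by
    have h1 : R ≤ ∑ t, (σ t - h) ^ 2 * (8 * C / n ^ 2) := by
      rw [hR]
      refine Finset.sum_le_sum fun t _ => ?_
      have h2 := hden2 t
      have h3 : 0 < L + (σ t - h) := by linarith only [h2, hn]
      have h4 : (σ t - h) ^ 2 ≤ C * n := le_trans (Finset.single_le_sum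
        (f := fun t => (σ t - h) ^ 2) (fun t _ => sq_nonneg _) (Finset.mem_univ t)) hD
      have h5 : n ^ 2 / 4 * (n / 2) ≤ L ^ 2 * (L + (σ t - h)) := by
        apply mul_le_mul _ h2 (by positivity) (by positivity)
        nlinarith only [hL2, hn]
      rw [div_le_iff₀ (by positivity)]
      have h6 : (σ t - h) ^ 4 = (σ t - h) ^ 2 * (σ t - h) ^ 2 := by ring
      rw [h6, mul_assoc]
      apply mul_le_mul_of_nonneg_left _ (sq_nonneg _)
      have h7 : C * n = 8 * C / n ^ 2 * (n ^ 2 / 4 * (n / 2)) := by field_simp; ring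
      calc (σ t - h) ^ 2 ≤ C * n := h4
        _ = 8 * C / n ^ 2 * (n ^ 2 / 4 * (n / 2)) := h7
        _ ≤ 8 * C / n ^ 2 * (L ^ 2 * (L + (σ t - h))) :=
          mul_le_mul_of_nonneg_left h5 (by positivity)
    rw [← Finset.sum_mul] at h1
    have h2 : D * (8 * C / n ^ 2) ≤ C * n * (8 * C / n ^ 2) :=
      mul_le_mul_of_nonneg_right hD (by positivity)
    have h3 : C * n * (8 * C / n ^ 2) = 8 * C ^ 2 / n := by field_simp
    linarith only [h1, h2, h3]
  have hQb : |Q| ≤ C * n ^ 2 := by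
    have h1 : |Q| ≤ ∑ t, |(σ t - h) ^ 3| := Finset.abs_sum_le_sum_abs _ _
    have h2 : ∑ t, |(σ t - h) ^ 3| ≤ ∑ t, (σ t - h) ^ 2 * n := by
      refine Finset.sum_le_sum fun t _ => ?_
      have h3 : |(σ t - h) ^ 3| = (σ t - h) ^ 2 * |σ t - h| := by
        rw [abs_pow, ← sq_abs (σ t - h)]; ring
      rw [h3]
      apply mul_le_mul_of_nonneg_left _ (sq_nonneg _)
      linarith only [hdel t, hn]
    rw [← Finset.sum_mul] at h2
    have h3 : D * n ≤ C * n * n := mul_le_mul_of_nonneg_right hD hn.le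
    calc |Q| ≤ D * n := le_trans h1 h2
      _ ≤ C * n * n := h3
      _ = C * n ^ 2 := by ring
  -- `u = n - L`
  set u := n - L with hu
  have hu0 : 0 ≤ u := by linarith only [hLn, hu]
  have huC : u ≤ C := by linarith only [hLC, hu]
  have hLu : L = n - u := by rw [hu]; ring
  have huS : u = l / L * S := by
    field_simp
    linarith only [hid]
  have hlL : l / L = q + (-(u / (r * L))) := by
    have h1 : l = L - n * (1 / r) := by rw [hL, hhn]; ring
    have h2 : q = 1 - 1 / (r : ℝ) := hqdef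
    have h3 : n = L + u := by rw [hu]; ring
    rw [h1, h2, h3]
    field_simp
    ring
  set v := q * D / n - q * Q / n ^ 2 with hv
  have huv : |u - v| ≤ 22 * C ^ 2 / n := by
    have e1 : u - v = q * (D / L - D / n) - q * (Q / L ^ 2 - Q / n ^ 2) + q * R
        - u / (r * L) * S := by
      have h1 : u = (q + (-(u / (r * L)))) * S := by rw [← hlL]; exact huS
      have h2 : u - v = (q + (-(u / (r * L)))) * S - v := by rw [← h1]
      rw [h2, hv]
      have h3 : (q + (-(u / (r * L)))) * S = q * S - u / (r * L) * S := by ring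
      rw [h3]
      have h4 : q * S = q * (D / L - Q / L ^ 2 + R) := by rw [← hSex]
      rw [h4]
      ring
    have b1 : |q * (D / L - D / n)| ≤ 2 * C ^ 2 / n := by
      have h1 : D / L - D / n = D * u / (L * n) := by
        rw [hLu]
        have : n - u ≠ 0 := by rw [← hLu]; exact hLpos.ne'
        field_simp
        ring
      have h0 : 0 ≤ D * u / (L * n) := by positivity
      rw [h1, abs_mul, abs_of_nonneg (by linarith only [hq23] : (0 : ℝ) ≤ q), abs_of_nonneg h0]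
      have h2 : D * u ≤ C * n * C := mul_le_mul hD huC hu0 (by positivity)
      have h3 : n / 2 * n ≤ L * n := mul_le_mul_of_nonneg_right hL2 hn.le
      have h4 : D * u / (L * n) ≤ 2 * C ^ 2 / n := by
        rw [div_le_div_iff₀ (by positivity) hn]
        have h5 : D * u * n ≤ C * n * C * n := mul_le_mul_of_nonneg_right h2 hn.le
        have h6 : 2 * C ^ 2 * (n / 2 * n) ≤ 2 * C ^ 2 * (L * n) :=
          mul_le_mul_of_nonneg_left h3 (by positivity)
        have h7 : C * n * C * n = 2 * C ^ 2 * (n / 2 * n) := by ring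
        linarith only [h5, h6, h7]
      have h5 : q * (D * u / (L * n)) ≤ 1 * (D * u / (L * n)) := mul_le_mul_of_nonneg_right hq1 h0
      linarith only [h4, h5]
    have b2 : |q * (Q / L ^ 2 - Q / n ^ 2)| ≤ 8 * C ^ 2 / n := by
      have h1 : Q / L ^ 2 - Q / n ^ 2 = Q * (u * (n + L) / (L ^ 2 * n ^ 2)) := by
        have : u * (n + L) = n ^ 2 - L ^ 2 := by rw [hu]; ring
        rw [this]
        field_simp
      have h0 : 0 ≤ u * (n + L) / (L ^ 2 * n ^ 2) := by positivity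
      rw [h1, abs_mul, abs_mul, abs_of_nonneg (by linarith only [hq23] : (0 : ℝ) ≤ q),
        abs_of_nonneg h0]
      have h2 : u * (n + L) / (L ^ 2 * n ^ 2) ≤ 8 * C / n ^ 3 := by
        rw [div_le_div_iff₀ (by positivity) (by positivity)]
        have h3 : u * (n + L) ≤ C * (2 * n) := mul_le_mul huC (by linarith only [hLn])
          (by positivity) hC
        have h4 : n ^ 2 / 4 ≤ L ^ 2 := by nlinarith only [hL2, hn]
        have h5 : u * (n + L) * n ^ 3 ≤ C * (2 * n) * n ^ 3 :=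
          mul_le_mul_of_nonneg_right h3 (by positivity)
        have h6 : 8 * C * (n ^ 2 / 4 * n ^ 2) ≤ 8 * C * (L ^ 2 * n ^ 2) := by
          apply mul_le_mul_of_nonneg_left _ (by positivity)
          exact mul_le_mul_of_nonneg_right h4 (by positivity)
        have h7 : C * (2 * n) * n ^ 3 = 8 * C * (n ^ 2 / 4 * n ^ 2) := by ring
        linarith only [h5, h6, h7]
      have h3 : |Q| * (u * (n + L) / (L ^ 2 * n ^ 2)) ≤ C * n ^ 2 * (8 * C / n ^ 3) :=
        mul_le_mul hQb h2 h0 (by positivity)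
      have h4 : C * n ^ 2 * (8 * C / n ^ 3) = 8 * C ^ 2 / n := by field_simp
      have h5 : 0 ≤ |Q| * (u * (n + L) / (L ^ 2 * n ^ 2)) := by positivity
      have h6 : q * (|Q| * (u * (n + L) / (L ^ 2 * n ^ 2)))
          ≤ 1 * (|Q| * (u * (n + L) / (L ^ 2 * n ^ 2))) := mul_le_mul_of_nonneg_right hq1 h5
      linarith only [h3, h4, h6]
    have b3 : |q * R| ≤ 8 * C ^ 2 / n := by
      rw [abs_mul, abs_of_nonneg (by linarith only [hq23] : (0 : ℝ) ≤ q), abs_of_nonneg hRnn]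
      have : q * R ≤ 1 * R := mul_le_mul_of_nonneg_right hq1 hRnn
      linarith only [this, hR2]
    have b4 : |u / (r * L) * S| ≤ 4 * C ^ 2 / n := by
      have h0 : 0 ≤ u / (r * L) := by positivity
      rw [abs_mul, abs_of_nonneg h0, abs_of_nonneg hSnn]
      have h1 : u / (r * L) ≤ 2 * C / n := by
        rw [div_le_div_iff₀ (by positivity) hn]
        have h2 : 1 * (n / 2) ≤ r * L := mul_le_mul (by linarith only [hr0]) hL2 (by positivity)
          hrpos.le
        have h3 : u * n ≤ C * n := mul_le_mul_of_nonneg_right huC hn.le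
        have h4 : 2 * C * (1 * (n / 2)) ≤ 2 * C * (r * L) :=
          mul_le_mul_of_nonneg_left h2 (by positivity)
        linarith only [h3, h4]
      have h2 : u / (r * L) * S ≤ 2 * C / n * (2 * C) := mul_le_mul h1 hS2 hSnn (by positivity)
      have h3 : 2 * C / n * (2 * C) = 4 * C ^ 2 / n := by ring
      linarith only [h2, h3]
    rw [e1]
    have t1 := abs_sub (q * (D / L - D / n) - q * (Q / L ^ 2 - Q / n ^ 2) + q * R)
      (u / (r * L) * S)
    have t2 := abs_add_le (q * (D / L - D / n) - q * (Q / L ^ 2 - Q / n ^ 2)) (q * R)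
    have t3 := abs_sub (q * (D / L - D / n)) (q * (Q / L ^ 2 - Q / n ^ 2))
    have e2 : 22 * C ^ 2 / n = 2 * C ^ 2 / n + 8 * C ^ 2 / n + 8 * C ^ 2 / n + 4 * C ^ 2 / n := by
      ring
    rw [e2]
    linarith only [t1, t2, t3, b1, b2, b3, b4]
  -- the end
  have hlval : l = q * n - u := by
    have h1 : L = l + n * (1 / r) := by rw [hL, hhn]
    have h2 : q = 1 - 1 / (r : ℝ) := hqdef
    rw [hu, h1, h2]; ring
  refine ⟨?_, hln, by linarith only [hlval, hu0]⟩
  have hfin : l ^ 2 - (q ^ 2 * n ^ 2 - 2 * q ^ 2 * D + 2 * q ^ 2 * Q / n)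
      = -(2 * q * n * (u - v)) + u ^ 2 := by
    rw [hlval, hv]
    field_simp
    ring
  rw [hfin]
  have t1 := abs_add_le (-(2 * q * n * (u - v))) (u ^ 2)
  have t2 : |-(2 * q * n * (u - v))| ≤ 44 * C ^ 2 := by
    rw [abs_neg, abs_mul, abs_of_nonneg (by positivity : (0 : ℝ) ≤ 2 * q * n)]
    have h1 : 2 * q * n ≤ 2 * n := by
      have := mul_le_mul_of_nonneg_right hq1 hn.le
      linarith only [this]
    have h2 : 2 * q * n * |u - v| ≤ 2 * n * (22 * C ^ 2 / n) :=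
      mul_le_mul h1 huv (abs_nonneg _) (by positivity)
    have h3 : 2 * n * (22 * C ^ 2 / n) = 44 * C ^ 2 := by field_simp; ring
    linarith only [h2, h3]
  have t3 : |u ^ 2| ≤ C ^ 2 := by
    rw [abs_of_nonneg (sq_nonneg u)]
    exact pow_le_pow_left₀ hu0 huC 2
  linarith only [t1, t2, t3]

end ItemKWS

open ItemKWS in
theorem prfKWS : P_statement → KWS_statement := by
  classical
  intro hP r C hr hC
  refine ⟨45 * C ^ 2, ⌈64 * C⌉₊ + 1, ?_⟩
  intro V _ G g n hK hn hsum hdev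
  have hr0 : (3 : ℝ) ≤ r := by exact_mod_cast hr
  have hrpos : (0 : ℝ) < r := by linarith
  have hn1 : 1 ≤ n := by omega
  have hnpos : (0 : ℝ) < n := by exact_mod_cast hn1
  have hnC : 64 * C ≤ n := by
    have h1 : ⌈64 * C⌉₊ ≤ n := by omega
    exact le_trans (Nat.le_ceil _) (by exact_mod_cast h1)
  have hcast : (n : ℝ) = ∑ s, (siz g s : ℝ) := by rw [← hsum]; push_cast; rfl
  have hdv : dev (siz g) = ∑ t, ((siz g t : ℝ) - n / r) ^ 2 := by
    unfold dev
    rw [← hcast]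
  have hcb : cub (siz g) = ∑ t, ((siz g t : ℝ) - n / r) ^ 3 := by
    unfold cub
    rw [← hcast]
  have hne : Nonempty V := by
    by_contra hcon
    rw [not_nonempty_iff] at hcon
    have : ∀ t, siz g t = 0 := by
      intro t
      unfold siz
      rw [Set.ncard_eq_zero (Set.toFinite _)]
      exact Set.eq_empty_of_isEmpty _
    simp [this] at hsum
    omega
  have hlow := low hP hK n hcast
  rw [hdv] at hdev
  have h1 : ∑ t, (siz g t : ℝ) * (n - siz g t)
      = n * (qq r * n) - ∑ t, ((siz g t : ℝ) - n / r) ^ 2 := by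
    have h2 : ∀ t, (siz g t : ℝ) * (n - siz g t)
        = (n - 2 * n / r) * siz g t + (n / r) ^ 2 - ((siz g t : ℝ) - n / r) ^ 2 := by
      intro t; ring
    rw [Finset.sum_congr rfl fun t _ => h2 t, Finset.sum_sub_distrib, Finset.sum_add_distrib,
      ← Finset.mul_sum, ← hcast]
    simp only [Finset.sum_const, Finset.card_univ, Fintype.card_fin, nsmul_eq_mul]
    have : qq r = 1 - 1 / (r : ℝ) := rfl
    rw [this]
    field_simp
    ring
  rw [h1] at hlow
  have hl : qq r * n - C ≤ lam G := by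
    have h3 : (n : ℝ) * (qq r * n - C) ≤ n * lam G := by
      have : (n : ℝ) * (qq r * n - C) = n * (qq r * n) - C * n := by ring
      linarith only [this, hlow, hdev]
    exact le_of_mul_le_mul_left h3 hnpos
  have hq23 : 2 / 3 ≤ qq r := by
    have h4 : qq r = 1 - 1 / (r : ℝ) := rfl
    have h5 : 1 / (r : ℝ) ≤ 1 / 3 := by
      rw [div_le_div_iff₀ hrpos (by norm_num)]; linarith
    rw [h4]; linarith
  have hlpos : 0 < lam G := by
    have : 2 / 3 * (n : ℝ) ≤ qq r * n := mul_le_mul_of_nonneg_right hq23 hnpos.le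
    linarith only [this, hl, hnC, hC, hnpos]
  have heq := eqn hP hK hlpos
  have hfin := ana2 hr C n (lam G) (fun t => (siz g t : ℝ)) hC hnpos hnC hcast.symm
    (fun t => Nat.cast_nonneg _) hdev hl heq
  rw [hdv, hcb]
  exact hfin

end MP0c3a8f

end

section

/-!
# Item KWU
-/

open Finset

namespace MP0c3a8f

namespace ItemKWU

lemma sq_sum {r : ℕ} (x : Fin r → ℝ) (t : Fin r) : |x t| ≤ Real.sqrt (∑ t, x t ^ 2) := by
  rw [← Real.sqrt_sq_eq_abs]
  exact Real.sqrt_le_sqrt (Finset.single_le_sum (f := fun t => x t ^ 2)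
    (fun i _ => sq_nonneg _) (Finset.mem_univ t))

lemma cube_sum {r : ℕ} (x : Fin r → ℝ) :
    ∑ t, x t ^ 3 ≤ (∑ t, x t ^ 2) * Real.sqrt (∑ t, x t ^ 2) := by
  rw [Finset.sum_mul]
  refine Finset.sum_le_sum fun t _ => ?_
  have h1 : x t ^ 3 = x t ^ 2 * x t := by ring
  rw [h1]
  exact mul_le_mul_of_nonneg_left ((le_abs_self _).trans (sq_sum x t)) (sq_nonneg _)

lemma dev_abs {r : ℕ} (σ : Fin r → ℕ) (n : ℕ) (hn : ∑ t, σ t = n) (t : Fin r) :
    |(σ t : ℝ) - (n : ℝ) / r| ≤ Real.sqrt (dev σ) := by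
  have hs : (∑ s, (σ s : ℝ)) = n := by rw [← hn]; push_cast; rfl
  have := sq_sum (fun t => (σ t : ℝ) - (∑ s, (σ s : ℝ)) / r) t
  simp only [hs] at this
  unfold dev
  rw [hs]
  exact this

lemma cub_le {r : ℕ} (σ : Fin r → ℕ) : cub σ ≤ dev σ * Real.sqrt (dev σ) := by
  have := cube_sum (fun t => (σ t : ℝ) - (∑ s, (σ s : ℝ)) / r)
  unfold cub dev
  exact this

lemma dev_nonneg {r : ℕ} (σ : Fin r → ℕ) : 0 ≤ dev σ := by
  unfold dev
  exact Finset.sum_nonneg fun t _ => sq_nonneg _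

end ItemKWU

open ItemKWU ItemKW in
theorem prfKWU : P_statement → KWS_statement → KW2_statement → KW3_statement → KWU_statement := by
  intro hP h1 h2 h3 r K C hr hC
  obtain ⟨C1, n₁, hn₁⟩ := h1 r C hr hC
  have hr' : (3 : ℝ) ≤ r := by exact_mod_cast hr
  obtain ⟨C3, n₃, hC3, h3'⟩ := h3 r K hr
  obtain ⟨C', hC'⟩ : ∃ C' : ℝ, C' = 1 + 2 * C3 := ⟨_, rfl⟩
  have hC'0 : 0 ≤ C' := by rw [hC']; positivity
  have hsC : 0 ≤ Real.sqrt C := Real.sqrt_nonneg _
  refine ⟨2 * (C * Real.sqrt C) + |C1| + 2 * K * C3 * (1 + Real.sqrt C)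
      + 1024 * (K : ℝ) ^ 2 * C' ^ 2,
    max (max n₁ n₃) (max 1 (max ⌈32 * (K : ℝ) * C'⌉₊ ⌈16 * (r : ℝ) ^ 2 * C⌉₊)),
    by positivity, ?_⟩
  intro V _ G g U n hKU hU hn hsum hdevC
  have hnn1 : n₁ ≤ n := (le_max_left _ _).trans ((le_max_left _ _).trans hn)
  have hnn3 : n₃ ≤ n := (le_max_right _ _).trans ((le_max_left _ _).trans hn)
  have hn1 : 1 ≤ n := (le_max_left _ _).trans ((le_max_right _ _).trans hn)
  have hnK : 32 * (K : ℝ) * C' ≤ n := by
    have : ⌈32 * (K : ℝ) * C'⌉₊ ≤ n :=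
      (le_max_left _ _).trans ((le_max_right _ _).trans ((le_max_right _ _).trans hn))
    exact (Nat.le_ceil _).trans (by exact_mod_cast this)
  have hnC : 16 * (r : ℝ) ^ 2 * C ≤ n := by
    have : ⌈16 * (r : ℝ) ^ 2 * C⌉₊ ≤ n :=
      (le_max_right _ _).trans ((le_max_right _ _).trans ((le_max_right _ _).trans hn))
    exact (Nat.le_ceil _).trans (by exact_mod_cast this)
  have hnr : (1 : ℝ) ≤ n := by exact_mod_cast hn1
  have hn0 : (0 : ℝ) < n := by linarith
  have hsn : 1 ≤ Real.sqrt n := by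
    rw [← Real.sqrt_one]
    exact Real.sqrt_le_sqrt hnr
  have hdevn : Real.sqrt (dev (siz g)) ≤ Real.sqrt C * Real.sqrt n := by
    rw [← Real.sqrt_mul hC]
    exact Real.sqrt_le_sqrt hdevC
  have hdevr : Real.sqrt (dev (siz g)) ≤ n / (4 * (r : ℝ)) := by
    refine (Real.sqrt_le_sqrt hdevC).trans ?_
    rw [Real.sqrt_le_left (by positivity), div_pow, le_div_iff₀ (by positivity)]
    have h := mul_le_mul_of_nonneg_right hnC hn0.le
    linarith only [h]
  have hsiz4 : ∀ t, |(siz g t : ℝ) - (n : ℝ) / r| ≤ n / (4 * (r : ℝ)) :=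
    fun t => (dev_abs (siz g) n hsum t).trans hdevr
  have hne : Nonempty V := by
    by_contra hcon
    rw [not_nonempty_iff] at hcon
    have : ∀ t, siz g t = 0 := fun t => by
      unfold siz
      rw [Set.eq_empty_of_isEmpty {v | g v = some t}, Set.ncard_empty]
    have h0 : ∑ t, siz g t = 0 := Finset.sum_eq_zero (fun t _ => this t)
    omega
  obtain ⟨hl0, _, x, hx0, hx1, hxe⟩ := hP V G
  obtain ⟨hl00, _, _⟩ := hP V (ItemKW.G0 G U)
  obtain ⟨hln, hl2n, _, hlU⟩ := h3' V G g U x n hKU hU hnn3 hsum hsiz4 hx0 hx1 hxe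
  have hdev0 : 0 ≤ Real.sqrt (dev (siz g)) := Real.sqrt_nonneg _
  have hdev : Real.sqrt (dev (siz g)) ≤ n := by
    refine hdevr.trans ?_
    exact div_le_self hn0.le (by linarith)
  obtain ⟨l, hl⟩ : ∃ l, l = lam G := ⟨_, rfl⟩
  rw [← hl] at hl0 hxe hln hl2n hlU ⊢
  obtain ⟨D, hD⟩ : ∃ D : ℝ, D = 1 + Real.sqrt (dev (siz g)) := ⟨_, rfl⟩
  rw [← hD] at hlU
  have hD0 : 0 ≤ D := by rw [hD]; positivity
  obtain ⟨s, hs⟩ : ∃ s : ℝ, s = ∑ v ∈ U, x v ^ 2 := ⟨_, rfl⟩
  have hs0 : 0 ≤ s := by rw [hs]; exact Finset.sum_nonneg (fun v _ => sq_nonneg _)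
  obtain ⟨S, hS⟩ : ∃ S : ℝ, S = ∑ v ∈ U, ((∑ t, nbn G g v t : ℕ) : ℝ) ^ 2 := ⟨_, rfl⟩
  -- the sum of the squares
  have e1 : s * l ^ 2 = ∑ v ∈ U, (l * x v) ^ 2 := by
    rw [hs, Finset.sum_mul]
    exact Finset.sum_congr rfl (fun v _ => by ring)
  have hUK : (U.card : ℝ) ≤ K := by exact_mod_cast hU
  have e2 : s * l ^ 2 ≤ S / n + K * (C3 * D) := by
    rw [e1]
    refine (Finset.sum_le_sum (fun v hv => hlU v hv)).trans ?_
    rw [Finset.sum_add_distrib, Finset.sum_const, nsmul_eq_mul, hS, Finset.sum_div]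
    have : (U.card : ℝ) * (C3 * D) ≤ K * (C3 * D) :=
      mul_le_mul_of_nonneg_right hUK (by positivity)
    linarith
  have e3 : s * l ^ 2 ≤ K * (C' * n) := by
    rw [e1]
    have h5 : ∀ v ∈ U, (l * x v) ^ 2 ≤ C' * n := by
      intro v hv
      refine (hlU v hv).trans ?_
      have h6 : ((∑ t, nbn G g v t : ℕ) : ℝ) ≤ n := by
        rw [← hsum]
        exact_mod_cast Finset.sum_le_sum (fun t _ => nbn_le G g v t)
      have h7 : ((∑ t, nbn G g v t : ℕ) : ℝ) ^ 2 / n ≤ n := by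
        rw [div_le_iff₀ (by positivity)]
        rw [← sq]
        exact pow_le_pow_left₀ (Nat.cast_nonneg _) h6 2
      have h8 : C3 * D ≤ C3 * (2 * n) := by
        apply mul_le_mul_of_nonneg_left _ hC3
        rw [hD]
        linarith
      rw [hC']
      linarith only [h7, h8]
    refine (Finset.sum_le_sum h5).trans ?_
    rw [Finset.sum_const, nsmul_eq_mul]
    exact mul_le_mul_of_nonneg_right hUK (by positivity)
  have e4 : s * n ≤ 4 * K * C' := by
    have h5 : (n : ℝ) ^ 2 / 4 ≤ l ^ 2 := by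
      have h5 := pow_le_pow_left₀ (by positivity) hln 2
      linarith only [h5]
    have h6 : s * ((n : ℝ) ^ 2 / 4) ≤ K * (C' * n) := (mul_le_mul_of_nonneg_left h5 hs0).trans e3
    have h7 : (s * n) * n ≤ (4 * K * C') * n := by linarith only [h6]
    exact le_of_mul_le_mul_right h7 (by positivity)
  have e5 : s ≤ 1 / 8 := by
    have h5 : s * n ≤ (1 / 8) * n := by linarith
    exact le_of_mul_le_mul_right h5 (by positivity)
  obtain ⟨_, k2⟩ := h2 V G (ItemKW.G0 G U) U x (fun u v => Iff.rfl) hx0 hx1 (by rw [← hl]; exact hxe)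
  rw [← hl, ← hs] at k2
  have k3 := sq_step l (lam (ItemKW.G0 G U)) s hl0 hl00 hs0 e5 k2
  obtain ⟨k4, _, _⟩ := hn₁ V (ItemKW.G0 G U) g n (isKU_G0 hKU) hnn1 hsum hdevC
  have k4' := (abs_le.mp k4).2
  have k5 : s ^ 2 * l ^ 2 ≤ 64 * (K : ℝ) ^ 2 * C' ^ 2 := by
    have h5 : s * l ≤ 8 * K * C' := by
      have : s * l ≤ s * (2 * n) := mul_le_mul_of_nonneg_left hl2n hs0
      linarith
    have h6 : (s * l) ^ 2 ≤ (8 * K * C') ^ 2 := pow_le_pow_left₀ (mul_nonneg hs0 hl0) h5 2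
    have h7 : (s * l) ^ 2 = s ^ 2 * l ^ 2 := by ring
    have h8 : (8 * (K : ℝ) * C') ^ 2 = 64 * (K : ℝ) ^ 2 * C' ^ 2 := by ring
    rw [← h7, ← h8]
    exact h6
  -- the error terms
  have m1 : 1024 * (K : ℝ) ^ 2 * C' ^ 2 ≤ 1024 * (K : ℝ) ^ 2 * C' ^ 2 * Real.sqrt n :=
    le_mul_of_one_le_right (by positivity) hsn
  have m2 : C1 ≤ |C1| * Real.sqrt n :=
    (le_abs_self C1).trans (le_mul_of_one_le_right (abs_nonneg _) hsn)
  have m3 : D ≤ (1 + Real.sqrt C) * Real.sqrt n := by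
    rw [hD, add_mul, one_mul]
    linarith
  have m4 : 2 * (K * (C3 * D)) ≤ 2 * K * C3 * (1 + Real.sqrt C) * Real.sqrt n := by
    have h5 : 2 * K * C3 * D ≤ 2 * K * C3 * ((1 + Real.sqrt C) * Real.sqrt n) :=
      mul_le_mul_of_nonneg_left m3 (by positivity)
    linarith
  have m5 : 2 * qq r ^ 2 * cub (siz g) / n ≤ 2 * (C * Real.sqrt C) * Real.sqrt n := by
    have hq0 : 0 ≤ qq r := by
      unfold qq
      have : 1 / (r : ℝ) ≤ 1 := by
        rw [div_le_one (by positivity)]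
        linarith
      linarith
    have hq1 : qq r ≤ 1 := by
      unfold qq
      have : 0 ≤ 1 / (r : ℝ) := by positivity
      linarith
    have hq2 : qq r ^ 2 ≤ 1 := pow_le_one₀ hq0 hq1
    have h5 : cub (siz g) ≤ (C * n) * (Real.sqrt C * Real.sqrt n) :=
      (cub_le _).trans (mul_le_mul hdevC hdevn hdev0 (by positivity))
    have h6 : 2 * qq r ^ 2 * cub (siz g) ≤ 2 * ((C * n) * (Real.sqrt C * Real.sqrt n)) := by
      have h7 : 0 ≤ (C * n) * (Real.sqrt C * Real.sqrt n) := by positivity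
      have h8 : 2 * qq r ^ 2 * cub (siz g) ≤
          2 * qq r ^ 2 * ((C * n) * (Real.sqrt C * Real.sqrt n)) :=
        mul_le_mul_of_nonneg_left h5 (by positivity)
      have h9 := mul_le_mul_of_nonneg_right hq2 h7
      linarith only [h8, h9]
    rw [div_le_iff₀ hn0]
    linarith
  have k7 : 2 * S / n = 2 * (S / n) := by ring
  rw [← hS, k7]
  have k8 : (2 * (C * Real.sqrt C) + |C1| + 2 * K * C3 * (1 + Real.sqrt C)
      + 1024 * (K : ℝ) ^ 2 * C' ^ 2) * Real.sqrt n = 2 * (C * Real.sqrt C) * Real.sqrt n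
      + |C1| * Real.sqrt n + 2 * K * C3 * (1 + Real.sqrt C) * Real.sqrt n
      + 1024 * (K : ℝ) ^ 2 * C' ^ 2 * Real.sqrt n := by ring
  rw [k8]
  linarith

end MP0c3a8f

end

section

/-!
# LOWU: upper bound for the defect in the upper range
-/

open Finset

namespace MP0c3a8f

namespace ItemLOWU

theorem isKU0 {V : Type} {r : ℕ} {G : SimpleGraph V} {g : V → Option (Fin r)} :
    IsKU (KU G g ∅) g ∅ where
  core u v hu hv := by
    change (g u ≠ none ∧ g v ≠ none ∧ g u ≠ g v) ∨ _ ↔ _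
    constructor
    · rintro (h | h)
      · exact h.2.2
      · rcases h.2.1 with h1 | h1 <;> simp at h1
    · intro h
      exact Or.inl ⟨hu, hv, h⟩
  exc v hv := by simp at hv
  iso u v hu _ := by
    rintro (h | h)
    · exact h.1 hu
    · rcases h.2.1 with h1 | h1 <;> simp at h1

theorem light_empty {V : Type} {r : ℕ} (G : SimpleGraph V) (g : V → Option (Fin r)) :
    lightSet G g ∅ = outSet G g := by
  ext e
  simp [lightSet, outSet]

theorem qf_le {V : Type} [Fintype V] {r : ℕ} {G : SimpleGraph V} {g : V → Option (Fin r)}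
    (x : V → ℝ) (hx : ∀ i, 0 ≤ x i) {b : ℝ} (hb : 0 ≤ b)
    (hxb : ∀ u v, g u ≠ none → g v ≠ none → x u * x v ≤ b) :
    qf (KU G g ∅) x ≤ qf G x + 2 * (missSet G g).ncard * b := by
  classical
  have key : ∀ i j, adj (KU G g ∅) i j * (x i * x j) ≤
      adj G i j * (x i * x j) + (if s(i, j) ∈ missSet G g then b else 0) := by
    intro i j
    have hxx : 0 ≤ x i * x j := mul_nonneg (hx i) (hx j)
    unfold adj
    by_cases h1 : G.Adj i j
    · rw [if_pos h1]
      have : 0 ≤ (if s(i, j) ∈ missSet G g then b else 0) := by split_ifs <;> simp [hb]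
      split_ifs <;> linarith
    · rw [if_neg h1]
      by_cases h2 : (KU G g ∅).Adj i j
      · have hA := h2
        rcases h2 with h2 | h2
        · have h3 : s(i, j) ∈ missSet G g := ⟨i, j, rfl, h2.1, h2.2.1, h2.2.2, h1⟩
          rw [if_pos h3, if_pos hA]
          have := hxb i j h2.1 h2.2.1
          linarith
        · exact absurd h2.1 h1
      · rw [if_neg h2]
        have : 0 ≤ (if s(i, j) ∈ missSet G g then b else 0) := by split_ifs <;> simp [hb]
        linarith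
  have h1 : ∑ i, ∑ j, (if s(i, j) ∈ missSet G g then b else 0) =
      ((Finset.univ.filter fun p : V × V => s(p.1, p.2) ∈ missSet G g).card : ℝ) * b := by
    rw [← Finset.sum_product', Finset.univ_product_univ, ← Finset.sum_filter, Finset.sum_const,
      nsmul_eq_mul]
  unfold qf
  calc ∑ i, ∑ j, adj (KU G g ∅) i j * (x i * x j) ≤
      ∑ i, ∑ j, (adj G i j * (x i * x j) + (if s(i, j) ∈ missSet G g then b else 0)) :=
        Finset.sum_le_sum fun i _ => Finset.sum_le_sum fun j _ => key i j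
    _ = ∑ i, ∑ j, adj G i j * (x i * x j) +
        ((Finset.univ.filter fun p : V × V => s(p.1, p.2) ∈ missSet G g).card : ℝ) * b := by
          simp_rw [Finset.sum_add_distrib]
          rw [h1]
    _ ≤ ∑ i, ∑ j, adj G i j * (x i * x j) + 2 * (missSet G g).ncard * b := by
          have := ItemUBG.card_pairs (missSet G g)
          gcongr

theorem fin_arith {q n α L l b M C C3 B : ℝ} (hα0 : 0 ≤ α) (hC : 0 ≤ C)
    (hα : α ≤ C * Real.sqrt n) (hn : 1 ≤ n) (hq0 : 0 ≤ q) (hq1 : q ≤ 1) (hC3 : 0 ≤ C3)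
    (hB : B = C3 * (1 + Real.sqrt C)) (hb0 : 0 ≤ b)
    (hb : b ≤ 1 / n * (1 + B * Real.sqrt n / n)) (hL1 : n / 2 ≤ L) (hL2 : L ≤ q * n)
    (hL3 : M ≤ L ^ 2) (hlL : L - 2 * α * b ≤ l) (hnB : 4 * C * (1 + B) ≤ n) :
    M - 4 * q * α - 4 * C * B ≤ l ^ 2 := by
  have hn0 : 0 < n := by linarith
  have hB0 : 0 ≤ B := by rw [hB]; positivity
  have hs0 : 0 ≤ Real.sqrt n := Real.sqrt_nonneg _
  have hs1 : Real.sqrt n ≤ n := by
    rw [Real.sqrt_le_left (by linarith)]
    nlinarith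
  have hss : Real.sqrt n * Real.sqrt n = n := Real.mul_self_sqrt hn0.le
  have hnb : n * b ≤ 1 + B * Real.sqrt n / n := by
    have h1 := mul_le_mul_of_nonneg_left hb hn0.le
    have h2 : n * (1 / n * (1 + B * Real.sqrt n / n)) = 1 + B * Real.sqrt n / n := by
      field_simp
    linarith
  have hnb' : n * b ≤ 1 + B := by
    have h1 : B * Real.sqrt n / n ≤ B := by
      rw [div_le_iff₀ hn0]
      exact mul_le_mul_of_nonneg_left hs1 hB0
    linarith
  have hαn : α ≤ C * n := hα.trans (mul_le_mul_of_nonneg_left hs1 hC)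
  have hpos : 0 ≤ L - 2 * α * b := by
    have h0 : n * (2 * α * b) ≤ 2 * α * (1 + B) := by
      have : n * (2 * α * b) = 2 * α * (n * b) := by ring
      rw [this]
      exact mul_le_mul_of_nonneg_left hnb' (by linarith)
    have h00 : 2 * α * (1 + B) ≤ 2 * (C * n) * (1 + B) := by
      have : 0 ≤ 1 + B := by linarith
      nlinarith
    have h1 : n * (2 * α * b) ≤ n * (n / 2) := by nlinarith
    have h2 : 2 * α * b ≤ n / 2 := le_of_mul_le_mul_left h1 hn0
    linarith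
  have hsq : (L - 2 * α * b) ^ 2 ≤ l ^ 2 := pow_le_pow_left₀ hpos hlL 2
  have hLb : L * b ≤ q + B * Real.sqrt n / n := by
    have h1 : L * b ≤ (q * n) * b := mul_le_mul_of_nonneg_right hL2 hb0
    have h2 : (q * n) * b = q * (n * b) := by ring
    have h3 : q * (n * b) ≤ q * (1 + B * Real.sqrt n / n) := mul_le_mul_of_nonneg_left hnb hq0
    have h4 : 0 ≤ B * Real.sqrt n / n := by positivity
    nlinarith
  have hLb2 : 4 * α * (L * b) ≤ 4 * q * α + 4 * C * B := by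
    have h1 : 4 * α * (L * b) ≤ 4 * α * (q + B * Real.sqrt n / n) :=
      mul_le_mul_of_nonneg_left hLb (by linarith)
    have h2 : α * (B * Real.sqrt n / n) ≤ C * B := by
      have h3 : α * (B * Real.sqrt n / n) ≤ (C * Real.sqrt n) * (B * Real.sqrt n / n) :=
        mul_le_mul_of_nonneg_right hα (by positivity)
      have h4 : (C * Real.sqrt n) * (B * Real.sqrt n / n) = C * B := by
        have : (C * Real.sqrt n) * (B * Real.sqrt n / n)
            = C * B * (Real.sqrt n * Real.sqrt n) / n := by ring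
        rw [this, hss]
        field_simp
      linarith
    linarith
  have h1 : (L - 2 * α * b) ^ 2 = L ^ 2 - 4 * α * (L * b) + 4 * (α * b) ^ 2 := by ring
  have h2 : 0 ≤ 4 * (α * b) ^ 2 := by positivity
  linarith

end ItemLOWU

open ItemLOWU in
theorem prfLOWU : P_statement → KW3_statement → KWS_statement → CNTU_statement →
    LOWU_statement := by
  intro hP hK hS hC r C hr hC0
  obtain ⟨C3, n₁, hC3, hK⟩ := hK r 0 hr
  obtain ⟨C1, n₂, hS⟩ := hS r C hr hC0
  set B : ℝ := C3 * (1 + Real.sqrt C) with hB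
  have hB0 : 0 ≤ B := by positivity
  obtain ⟨n₃, hn₃⟩ := exists_nat_ge (4 * C * (1 + B) + 16 * (r : ℝ) ^ 2 * C + 1)
  refine ⟨C1 + 4 * C * B, max n₁ (max n₂ n₃), ?_⟩
  intro V _ G g n hind hn hsz hdev hα
  have hn1 : n₁ ≤ n := le_trans (le_max_left _ _) hn
  have hn2 : n₂ ≤ n := le_trans (le_trans (le_max_left _ _) (le_max_right _ _)) hn
  have hn3 : n₃ ≤ n := le_trans (le_trans (le_max_right _ _) (le_max_right _ _)) hn
  have hn3' : (n₃ : ℝ) ≤ n := by exact_mod_cast hn3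
  have hr3 : (3 : ℝ) ≤ r := by exact_mod_cast hr
  have hr0 : (0 : ℝ) < r := by linarith
  have hX : 0 ≤ 16 * (r : ℝ) ^ 2 * C := by positivity
  have hBB : 0 ≤ 4 * C * (1 + B) := by positivity
  have hnB : 4 * C * (1 + B) ≤ n := by linarith
  have hnX : 16 * (r : ℝ) ^ 2 * C ≤ n := by linarith
  have hnpos : (1 : ℝ) ≤ n := by linarith
  have hn0 : (0 : ℝ) < n := by linarith
  have hα0 : (0 : ℝ) ≤ (missSet G g).ncard := Nat.cast_nonneg _
  have hdev0 := ItemUB1.dev_nonneg (siz g)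
  have : Nonempty V := by
    by_contra hne
    rw [not_nonempty_iff] at hne
    have h0 : ∑ t, siz g t = 0 := by
      refine Finset.sum_eq_zero fun t _ => ?_
      unfold siz
      rw [Set.eq_empty_of_isEmpty {v | g v = some t}, Set.ncard_empty]
    rw [h0] at hsz
    rw [← hsz] at hn0
    simp at hn0
  set K := KU G g ∅ with hKdef
  obtain ⟨_, _, x, hx0, hx1, hxe⟩ := hP V K
  have hsum : (∑ t, (siz g t : ℝ)) = n := by
    rw [← hsz]
    push_cast
    rfl
  have hKU : IsKU K g ∅ := isKU0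
  have hdevs : Real.sqrt (dev (siz g)) ≤ Real.sqrt C * Real.sqrt n := by
    rw [← Real.sqrt_mul hC0]
    exact Real.sqrt_le_sqrt hdev
  have hCn : Real.sqrt C * Real.sqrt n ≤ n / (4 * (r : ℝ)) := by
    rw [← Real.sqrt_mul hC0, Real.sqrt_le_left (by positivity), div_pow, le_div_iff₀ (by positivity)]
    nlinarith
  have hdd : ∀ t, |(siz g t : ℝ) - (n : ℝ) / r| ≤ n / (4 * (r : ℝ)) := by
    intro t
    have h1 := ItemUB1.abs_le_sqrt_dev (siz g) t
    rw [hsum] at h1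
    exact h1.trans (hdevs.trans hCn)
  obtain ⟨_, _, hl3, _⟩ := hK V K g ∅ x n hKU (by simp) hn1 hsz hdd hx0 hx1 hxe
  obtain ⟨hS1, hS2, hS3⟩ := hS V K g n hKU hn2 hsz hdev
  set L := lam K with hL
  set M := qq r ^ 2 * (n : ℝ) ^ 2 - 2 * qq r ^ 2 * dev (siz g)
      + 2 * qq r ^ 2 * cub (siz g) / n with hM
  have hS1' : M - C1 ≤ L ^ 2 := by
    have := (abs_le.1 hS1).1
    linarith
  have hsn : 1 ≤ Real.sqrt (n : ℝ) := by
    rw [Real.one_le_sqrt]
    exact hnpos
  have hb : ∀ v, g v ≠ none → x v ^ 2 ≤ 1 / n * (1 + B * Real.sqrt n / n) := by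
    intro v hv
    refine (hl3 v hv).trans ?_
    have h1 : C3 * (1 + Real.sqrt (dev (siz g))) ≤ B * Real.sqrt n := by
      rw [hB]
      have h2 : 1 + Real.sqrt (dev (siz g)) ≤ (1 + Real.sqrt C) * Real.sqrt n := by
        nlinarith
      calc C3 * (1 + Real.sqrt (dev (siz g))) ≤ C3 * ((1 + Real.sqrt C) * Real.sqrt n) :=
            mul_le_mul_of_nonneg_left h2 hC3
        _ = C3 * (1 + Real.sqrt C) * Real.sqrt n := by ring
    gcongr
  set b : ℝ := 1 / n * (1 + B * Real.sqrt n / n) with hbdef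
  have hb0 : 0 ≤ b := by rw [hbdef]; positivity
  have hxb : ∀ u v, g u ≠ none → g v ≠ none → x u * x v ≤ b := by
    intro u v hu hv
    have h1 := hb u hu
    have h2 := hb v hv
    nlinarith [sq_nonneg (x u - x v)]
  have hq := qf_le (G := G) x hx0 hb0 hxb
  rw [← hKdef, ItemUB1.qf_eig _ _ _ hx1 hxe] at hq
  have hlG : L - 2 * (missSet G g).ncard * b ≤ lam G := by
    have h1 := (hP V G).2.1 x
    rw [hx1, mul_one] at h1
    linarith
  have hq1 : qq r ≤ 1 := by
    unfold qq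
    have : 0 ≤ 1 / (r : ℝ) := by positivity
    linarith
  have hq0 : 0 ≤ qq r := by
    unfold qq
    have : 1 / (r : ℝ) ≤ 1 := by
      rw [div_le_one hr0]
      linarith
    linarith
  have hfin : (M - C1) - 4 * qq r * (missSet G g).ncard - 4 * C * B ≤ lam G ^ 2 :=
    fin_arith hα0 hC0 hα hnpos hq0 hq1 hC3 hB hb0 le_rfl hS2 hS3 hS1' hlG hnB
  -- the number of edges
  obtain ⟨e, he, hcnt⟩ := hC r V G g ∅ hind (by simp)
  have he0 : e = 0 := by
    rw [Finset.card_empty] at he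
    omega
  rw [he0, hsz, Finset.sum_empty, light_empty] at hcnt
  have hcnt' : 2 * (G.edgeSet.ncard : ℝ) + 2 * (missSet G g).ncard + ∑ t, (siz g t : ℝ) ^ 2
      = (n : ℝ) ^ 2 + 2 * 0 + 2 * 0 + 2 * (outSet G g).ncard := by
    exact_mod_cast hcnt
  have hde := ItemUB1.dev_eq (by omega : 1 ≤ r) (siz g)
  rw [hsum] at hde
  have hE : 2 * (G.edgeSet.ncard : ℝ)
      = qq r * n ^ 2 - dev (siz g) - 2 * (missSet G g).ncard + 2 * (outSet G g).ncard := by
    rw [hde]
    unfold qq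
    have : (1 - 1 / (r : ℝ)) * (n : ℝ) ^ 2 = n ^ 2 - (n : ℝ) ^ 2 / r := by ring
    rw [this]
    linarith
  unfold Def
  have h8 : 2 * qq r * (G.edgeSet.ncard : ℝ) = qq r * (2 * G.edgeSet.ncard) := by ring
  rw [h8, hE]
  have h2r : 1 - 2 / (r : ℝ) = 2 * qq r - 1 := by
    unfold qq
    ring
  rw [h2r]
  have h9 : qq r * (qq r * (n : ℝ) ^ 2 - dev (siz g) - 2 * (missSet G g).ncard
        + 2 * (outSet G g).ncard)
      = qq r ^ 2 * (n : ℝ) ^ 2 - qq r * dev (siz g) - 2 * qq r * (missSet G g).ncard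
        + 2 * qq r * (outSet G g).ncard := by ring
  rw [h9]
  have h10 : qq r * (2 * qq r - 1) * dev (siz g)
      = 2 * qq r ^ 2 * dev (siz g) - qq r * dev (siz g) := by ring
  rw [h10]
  rw [hM] at hfin
  linarith

end MP0c3a8f

end

section

open Finset

namespace MP0c3a8f

open ItemMAINx in
theorem prfMAINU : CNTU_statement → COMPU_statement → KWU_statement → MAINU_statement := by
  intro hCNT hCOM hKW r hr
  have hr' : (3 : ℝ) ≤ r := by exact_mod_cast hr
  have hrpos : (0 : ℝ) < r := by linarith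
  have hq : 0 < qq r := by
    unfold qq
    have : 1 / (r : ℝ) ≤ 1 / 3 := one_div_le_one_div_of_le (by norm_num) hr'
    linarith
  have hr2 : (0 : ℝ) < 1 / (4 * (r : ℝ) ^ 2) := by positivity
  refine ⟨min (1 / 40) (1 / (4 * (r : ℝ) ^ 2) / 10), lt_min (by norm_num) (by positivity), ?_⟩
  intro δ hδ hδ0 K C₁ hC₁
  obtain ⟨C, n₀, hC, HK⟩ := hKW r K C₁ hr hC₁
  refine ⟨C, n₀, hC, ?_⟩
  intro V _ G z g U n hR hn hsum hdev
  have hd2 : δ ≤ 1 / 40 := hδ0.trans (min_le_left _ _)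
  have hd3 : δ ≤ 1 / (4 * (r : ℝ) ^ 2) / 10 := hδ0.trans (min_le_right _ _)
  have hU := hR.flat.exc
  have hn0 : (0 : ℝ) ≤ n := Nat.cast_nonneg n
  -- the three inputs
  obtain ⟨e, -, hcnt⟩ := hCNT r V G g U hR.flat.indep hU
  have hcom := hCOM r δ V G z g U G.edgeSet.ncard hr hδ hd2 hR.flat rfl
  have hkw := HK V (KU G g U) g U n (isKU G g U hU) hR.cardU hn hsum hdev
  have hnb : ∑ v ∈ U, ((∑ t, nbn (KU G g U) g v t : ℕ) : ℝ) ^ 2 =
      ∑ v ∈ U, ((∑ t, nbn G g v t : ℕ) : ℝ) ^ 2 := by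
    refine Finset.sum_congr rfl fun v hv => ?_
    rw [Finset.sum_congr rfl (fun t _ => nbn_KU G g U hU hv t)]
  rw [hnb] at hkw
  -- the edge count over the reals
  have hcnt' : 2 * (G.edgeSet.ncard : ℝ) + 2 * ((missSet G g).ncard : ℝ) + ∑ t, (siz g t : ℝ) ^ 2 =
      (n : ℝ) ^ 2 + 2 * (∑ v ∈ U, ((∑ t, nbn G g v t : ℕ) : ℝ)) + 2 * e
        + 2 * ((lightSet G g U).ncard : ℝ) := by
    have h1 := congrArg (Nat.cast (R := ℝ)) hcnt
    rw [hsum] at h1
    push_cast at h1 ⊢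
    exact h1
  rw [sumsq hr, hsum] at hcnt'
  have hsplit : ∑ v ∈ U, 2 * ((∑ t, nbn G g v t : ℕ) : ℝ)
      * (qq r - ((∑ t, nbn G g v t : ℕ) : ℝ) / n) =
      2 * qq r * (∑ v ∈ U, ((∑ t, nbn G g v t : ℕ) : ℝ)) -
        2 * (∑ v ∈ U, ((∑ t, nbn G g v t : ℕ) : ℝ) ^ 2) / n := by
    rw [Finset.mul_sum, Finset.mul_sum, Finset.sum_div, ← Finset.sum_sub_distrib]
    refine Finset.sum_congr rfl fun v _ => ?_
    ring
  rw [hsplit]
  have hq2 : qq r * (1 - 2 / (r : ℝ)) = 2 * qq r ^ 2 - qq r := by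
    unfold qq; ring
  have hq3 : (n : ℝ) ^ 2 / r = (1 - qq r) * (n : ℝ) ^ 2 := by unfold qq; ring
  rw [hq2]
  rw [hq3] at hcnt'
  set ε : ℝ := 1 / (4 * (r : ℝ) ^ 2) with hε
  have ha : (0 : ℝ) ≤ ((missSet G g).ncard : ℝ) := Nat.cast_nonneg _
  have hb : (0 : ℝ) ≤ ((lightSet G g U).ncard : ℝ) := Nat.cast_nonneg _
  have he : (0 : ℝ) ≤ (e : ℝ) := Nat.cast_nonneg _
  have h1 : (10 * δ) * ((missSet G g).ncard : ℝ) ≤ ε * ((missSet G g).ncard : ℝ) :=
    mul_le_mul_of_nonneg_right (by linarith) ha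
  have h2 : (8 * δ) * ((lightSet G g U).ncard : ℝ) ≤ ε * ((lightSet G g U).ncard : ℝ) :=
    mul_le_mul_of_nonneg_right (by linarith) hb
  have h3 : 0 ≤ qq r * (e : ℝ) := mul_nonneg hq.le he
  have h4 : qq r * (2 * (G.edgeSet.ncard : ℝ)) = qq r * ((n : ℝ) ^ 2 +
      2 * (∑ v ∈ U, ((∑ t, nbn G g v t : ℕ) : ℝ)) + 2 * e + 2 * ((lightSet G g U).ncard : ℝ)
        - 2 * ((missSet G g).ncard : ℝ) - ((1 - qq r) * (n : ℝ) ^ 2 + dev (siz g))) := by
    congr 1
    linarith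
  nlinarith

end MP0c3a8f

end

section

/-!
# MP_0c3a8f_co, phase B, upper range: item NUM (sizes of the classes of a good graph)
-/

set_option autoImplicit false

open Finset

namespace MP0c3a8f

namespace NUM

theorem tz_cases (r n : ℕ) (t : Fin r) : tz r n t = n / r ∨ tz r n t = n / r + 1 := by
  unfold tz
  split_ifs
  · exact Or.inr rfl
  · exact Or.inl rfl

theorem tz_mono (r n : ℕ) (s t : Fin r) (h : s.val ≤ t.val) : tz r n t ≤ tz r n s := by
  unfold tz
  split_ifs <;> omega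

theorem tz_real (r n : ℕ) (hr : 1 ≤ r) (t : Fin r) :
    |((tz r n t : ℕ) : ℝ) - (n : ℝ) / r| ≤ 1 := by
  have h1 : n < r * (n / r + 1) := by
    have := Nat.lt_mul_div_succ n (show 0 < r by omega)
    simpa using this
  have h2 : r * (n / r) ≤ n := Nat.mul_div_le n r
  have hr0 : (0 : ℝ) < r := by
    have : 0 < r := by omega
    exact_mod_cast this
  have h1' : (n : ℝ) < r * ((n / r : ℕ) + 1) := by exact_mod_cast h1
  have h2' : (r : ℝ) * ((n / r : ℕ)) ≤ n := by exact_mod_cast h2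
  have h3 : (n : ℝ) / r < (n / r : ℕ) + 1 := by
    rw [div_lt_iff₀ hr0]
    linarith
  have h4 : ((n / r : ℕ) : ℝ) ≤ (n : ℝ) / r := by
    rw [le_div_iff₀ hr0]
    linarith
  rcases tz_cases r n t with h5 | h5
  · rw [h5, abs_le]
    constructor <;> linarith
  · rw [h5, abs_le]
    push_cast
    constructor <;> linarith

theorem tz_sq (r n : ℕ) (hr : 1 ≤ r) :
    (n : ℝ) ^ 2 / r ≤ ∑ t, ((tz r n t : ℕ) : ℝ) ^ 2 ∧
      ∑ t, ((tz r n t : ℕ) : ℝ) ^ 2 ≤ (n : ℝ) ^ 2 / r + r := by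
  have hr0 : (0 : ℝ) < r := by
    have : 0 < r := by omega
    exact_mod_cast this
  have hs : ∑ t, ((tz r n t : ℕ) : ℝ) = n := by exact_mod_cast DEV_sum r n hr
  have h1 : ∑ t, (((tz r n t : ℕ) : ℝ) - (n : ℝ) / r) ^ 2
      = ∑ t, ((tz r n t : ℕ) : ℝ) ^ 2 - (n : ℝ) ^ 2 / r := by
    have h2 : ∀ t : Fin r, (((tz r n t : ℕ) : ℝ) - (n : ℝ) / r) ^ 2
        = ((tz r n t : ℕ) : ℝ) ^ 2 - 2 * ((n : ℝ) / r) * ((tz r n t : ℕ) : ℝ)
          + ((n : ℝ) / r) ^ 2 := fun t => by ring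
    simp_rw [h2]
    rw [Finset.sum_add_distrib, Finset.sum_sub_distrib, ← Finset.mul_sum, hs, Finset.sum_const,
      Finset.card_univ, Fintype.card_fin, nsmul_eq_mul]
    field_simp
    ring
  have h2 : 0 ≤ ∑ t, (((tz r n t : ℕ) : ℝ) - (n : ℝ) / r) ^ 2 :=
    Finset.sum_nonneg fun t _ => sq_nonneg _
  have h3 : ∑ t, (((tz r n t : ℕ) : ℝ) - (n : ℝ) / r) ^ 2 ≤ r := by
    have h4 : ∑ t, (((tz r n t : ℕ) : ℝ) - (n : ℝ) / r) ^ 2 ≤ ∑ _t : Fin r, (1 : ℝ) := by
      refine Finset.sum_le_sum fun t _ => ?_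
      have h5 := tz_real r n hr t
      rw [abs_le] at h5
      nlinarith [h5.1, h5.2]
    rw [Finset.sum_const, Finset.card_univ, Fintype.card_fin, nsmul_eq_mul, mul_one] at h4
    exact h4
  rw [h1] at h2 h3
  constructor <;> linarith

/-- `u² +` the sum of the squares of the balanced partition of `n - u` -/
def ff (p n u : ℕ) : ℕ := u ^ 2 + ∑ t, tz (p + 2) (n - u) t ^ 2

theorem ff_real (p n u : ℕ) (hu : u ≤ n) :
    (n : ℝ) ^ 2 / (p + 3) + ((u : ℝ) - n / (p + 3)) ^ 2 * (((p : ℝ) + 3) / (p + 2))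
      ≤ (ff p n u : ℕ) ∧
    ((ff p n u : ℕ) : ℝ) ≤ (n : ℝ) ^ 2 / (p + 3)
      + ((u : ℝ) - n / (p + 3)) ^ 2 * (((p : ℝ) + 3) / (p + 2)) + (p + 2) := by
  have h1 := tz_sq (p + 2) (n - u) (by omega)
  have hp : (0 : ℝ) ≤ p := Nat.cast_nonneg p
  have h2 : (n : ℝ) ^ 2 / (p + 3) + ((u : ℝ) - n / (p + 3)) ^ 2 * (((p : ℝ) + 3) / (p + 2))
      = (u : ℝ) ^ 2 + ((n : ℝ) - u) ^ 2 / (p + 2) := by
    field_simp
    ring
  unfold ff
  rw [h2]
  push_cast [Nat.cast_sub hu] at h1 ⊢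
  constructor <;> linarith [h1.1, h1.2]

theorem even_sq {ι : Type} [Fintype ι] (σ : ι → ℕ) : Even (∑ t, σ t ^ 2 + ∑ t, σ t) := by
  rw [← Finset.sum_add_distrib]
  refine Finset.even_sum _ fun t _ => ?_
  have h := Nat.even_mul_succ_self (σ t)
  have h2 : σ t ^ 2 + σ t = σ t * (σ t + 1) := by ring
  rw [h2]
  exact h

/-- the modification of the sizes -/
theorem exists_sizes (p n u k : ℕ) (hu : u ≤ n) (hk : k ≤ tz (p + 2) (n - u) 1) :
    ∃ σ : Fin (p + 3) → ℕ, σ 0 = u ∧ ∑ t, σ t = n ∧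
      ∑ t, σ t ^ 2 = ff p n u
        + (2 * k ^ 2 + 2 * k * (tz (p + 2) (n - u) 0 - tz (p + 2) (n - u) 1)) ∧
      ∀ t : Fin (p + 2), |((σ t.succ : ℕ) : ℝ) - ((n : ℝ) - u) / (p + 2)| ≤ k + 1 := by
  set τ := tz (p + 2) (n - u) with hτ
  have hle : τ 1 ≤ τ 0 := tz_mono (p + 2) (n - u) 0 1 (Nat.zero_le _)
  have hsum : ∑ t, τ t = n - u := DEV_sum (p + 2) (n - u) (by omega)
  have hreal : ∀ t, |((τ t : ℕ) : ℝ) - ((n : ℝ) - u) / (p + 2)| ≤ 1 := by
    intro t
    have := tz_real (p + 2) (n - u) (by omega) t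
    push_cast [Nat.cast_sub hu] at this
    exact this
  obtain ⟨θ, hθ⟩ := Nat.exists_eq_add_of_le hle
  obtain ⟨l, hl⟩ := Nat.exists_eq_add_of_le hk
  refine ⟨Fin.cons u (Fin.cons (τ 0 + k) (Fin.cons (τ 1 - k) fun t : Fin p => τ t.succ.succ)),
    rfl, ?_, ?_, ?_⟩
  · rw [Fin.sum_univ_succ] at hsum
    rw [Fin.sum_univ_succ] at hsum
    rw [Fin.sum_univ_succ, Fin.sum_univ_succ, Fin.sum_univ_succ]
    simp only [Fin.cons_zero, Fin.cons_succ]
    have h1 : τ (Fin.succ 0) = τ 1 := rfl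
    rw [h1] at hsum
    omega
  · have hff : ff p n u = u ^ 2 + ∑ t, τ t ^ 2 := rfl
    rw [hff, Fin.sum_univ_succ (n := p + 1) (fun t => τ t ^ 2),
      Fin.sum_univ_succ (n := p) (fun t => τ (Fin.succ t) ^ 2)]
    rw [Fin.sum_univ_succ, Fin.sum_univ_succ, Fin.sum_univ_succ]
    simp only [Fin.cons_zero, Fin.cons_succ]
    have h1 : τ (Fin.succ 0) = τ 1 := rfl
    rw [h1]
    have h2 : τ 0 - τ 1 = θ := by omega
    have h3 : τ 1 - k = l := by omega
    rw [h2, h3, hθ, hl]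
    ring
  · intro t
    simp only [Fin.cons_succ]
    have hk0 : (0 : ℝ) ≤ k := Nat.cast_nonneg k
    refine Fin.cases ?_ (fun t => ?_) t
    · simp only [Fin.cons_zero]
      have h1 := hreal 0
      rw [abs_le] at h1 ⊢
      push_cast
      constructor <;> linarith [h1.1, h1.2]
    · simp only [Fin.cons_succ]
      refine Fin.cases ?_ (fun t => ?_) t
      · simp only [Fin.cons_zero]
        have h1 := hreal 1
        rw [abs_le] at h1 ⊢
        rw [Nat.cast_sub hk]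
        constructor <;> linarith [h1.1, h1.2]
      · simp only [Fin.cons_succ]
        have h1 := hreal t.succ.succ
        rw [abs_le] at h1 ⊢
        constructor <;> linarith [h1.1, h1.2]

/-- lower bound for the sum of the cubes -/
theorem cub_ge (p n u : ℕ) (K : ℝ) (σ : Fin (p + 3) → ℕ) (h0 : σ 0 = u)
    (hs : ∑ t, σ t = n) (hu : (n : ℝ) / (p + 3) ≤ u)
    (hη : ∀ t : Fin (p + 2), |((σ t.succ : ℕ) : ℝ) - ((n : ℝ) - u) / (p + 2)| ≤ K) :
    ((u : ℝ) - n / (p + 3)) ^ 3 * (1 - 1 / ((p : ℝ) + 2) ^ 2)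
      - 3 * ((u : ℝ) - n / (p + 3)) * K ^ 2 - (p + 2) * K ^ 3 ≤ cub σ := by
  have hp : (0 : ℝ) ≤ p := Nat.cast_nonneg p
  set m : ℝ := (p : ℝ) + 2 with hm
  have hm2 : 2 ≤ m := by linarith
  have hpm : (p : ℝ) + 3 = m + 1 := by rw [hm]; ring
  rw [hpm] at hu ⊢
  set s : ℝ := (u : ℝ) - n / (m + 1) with hsd
  have hs0 : 0 ≤ s := by linarith
  have hsr : ∑ t, ((σ t : ℕ) : ℝ) = n := by exact_mod_cast hs
  have hmean : ((n : ℝ) - u) / m = n / (m + 1) - s / m := by
    rw [hsd]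
    field_simp
    ring
  rw [hmean] at hη
  set η : Fin (p + 2) → ℝ := fun t => ((σ t.succ : ℕ) : ℝ) - (n / (m + 1) - s / m) with hηd
  have hηK : ∀ t, |η t| ≤ K := hη
  have hK0 : 0 ≤ K := (abs_nonneg _).trans (hηK 0)
  have hη0 : ∑ t, η t = 0 := by
    rw [hηd]
    simp only
    rw [Finset.sum_sub_distrib, Finset.sum_const, Finset.card_univ, Fintype.card_fin,
      nsmul_eq_mul]
    have h1 : ((σ 0 : ℕ) : ℝ) + ∑ t : Fin (p + 2), ((σ t.succ : ℕ) : ℝ) = n := by
      rw [← hsr]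
      exact (Fin.sum_univ_succ (fun t => ((σ t : ℕ) : ℝ))).symm
    rw [h0] at h1
    have h2 : ((p + 2 : ℕ) : ℝ) = m := by push_cast; rw [hm]
    rw [h2]
    have h3 : m * ((n : ℝ) / (m + 1) - s / m) = n - u := by
      rw [← hmean]
      field_simp
    rw [h3]
    linarith
  unfold cub
  rw [hsr]
  have hcast : ((p + 3 : ℕ) : ℝ) = m + 1 := by push_cast; rw [hm]; ring
  rw [hcast, Fin.sum_univ_succ, h0]
  have hterm : ∀ t : Fin (p + 2), -(s ^ 3 / m ^ 3) + 3 * (s ^ 2 / m ^ 2) * η t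
      - 3 * (s / m) * K ^ 2 - K ^ 3 ≤ (((σ t.succ : ℕ) : ℝ) - n / (m + 1)) ^ 3 := by
    intro t
    have h1 : ((σ t.succ : ℕ) : ℝ) - n / (m + 1) = η t - s / m := by
      rw [hηd]
      simp only
      ring
    rw [h1]
    have h2 := abs_le.1 (hηK t)
    have h3 : η t ^ 2 ≤ K ^ 2 := by nlinarith [h2.1, h2.2]
    have h4 : -(K ^ 3) ≤ η t ^ 3 := by
      have h5 : -(K ^ 3) = (-K) ^ 3 := by ring
      rw [h5]
      exact (Odd.pow_le_pow (by decide : Odd 3)).2 h2.1
    have h5 : 0 ≤ s / m := by positivity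
    have h6 : (s / m) * η t ^ 2 ≤ (s / m) * K ^ 2 := mul_le_mul_of_nonneg_left h3 h5
    have h7 : (η t - s / m) ^ 3 = -(s ^ 3 / m ^ 3) + 3 * (s ^ 2 / m ^ 2) * η t
      - 3 * ((s / m) * η t ^ 2) + η t ^ 3 := by
      field_simp
      ring
    rw [h7]
    linarith
  have hsum := Finset.sum_le_sum fun t (_ : t ∈ (univ : Finset (Fin (p + 2)))) => hterm t
  rw [Finset.sum_sub_distrib, Finset.sum_sub_distrib, Finset.sum_add_distrib,
    ← Finset.mul_sum, hη0, Finset.sum_const, Finset.sum_const, Finset.sum_const,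
    Finset.card_univ, Fintype.card_fin, nsmul_eq_mul, nsmul_eq_mul, nsmul_eq_mul] at hsum
  have h2 : ((p + 2 : ℕ) : ℝ) = m := by push_cast; rw [hm]
  rw [h2] at hsum
  have h3 : m * -(s ^ 3 / m ^ 3) + 3 * (s ^ 2 / m ^ 2) * 0 - m * (3 * (s / m) * K ^ 2)
      - m * K ^ 3 = -(s ^ 3 * (1 / m ^ 2)) - 3 * s * K ^ 2 - m * K ^ 3 := by
    field_simp
    ring
  rw [h3] at hsum
  have h4 : s ^ 3 * (1 - 1 / m ^ 2) = s ^ 3 - s ^ 3 * (1 / m ^ 2) := by ring
  rw [h4]
  linarith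

theorem three_half {x v w : ℝ} (hv : 0 ≤ v) (hw : 0 ≤ w) (h : x ≤ v + w) :
    x * Real.sqrt x ≤ v * Real.sqrt v + 3 / 2 * (w * Real.sqrt (v + w)) := by
  have h1 : x * Real.sqrt x ≤ (v + w) * Real.sqrt (v + w) :=
    mul_le_mul h (Real.sqrt_le_sqrt h) (Real.sqrt_nonneg _) (by linarith)
  have hS : Real.sqrt (v + w) ^ 2 = v + w := Real.sq_sqrt (by linarith)
  have hT : Real.sqrt v ^ 2 = v := Real.sq_sqrt hv
  have hS0 := Real.sqrt_nonneg (v + w)
  have hT0 := Real.sqrt_nonneg v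
  set S := Real.sqrt (v + w)
  set T := Real.sqrt v
  have h2 : 0 ≤ (S - T) ^ 2 * (S + 2 * T) := by positivity
  have h3 : w = S ^ 2 - T ^ 2 := by linarith
  have h4 : (v + w) * S ≤ v * T + 3 / 2 * (w * S) := by
    rw [h3, ← hT]
    nlinarith [h2]
  exact h1.trans h4

/-- the leading term -/
theorem cr_mul (p : ℕ) (s : ℝ) (hs : 0 ≤ s) :
    cr (p + 3) * (s ^ 2 * (((p : ℝ) + 3) / (p + 2))
      * Real.sqrt (s ^ 2 * (((p : ℝ) + 3) / (p + 2)))) = s ^ 3 * (1 - 1 / ((p : ℝ) + 2) ^ 2) := by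
  have hp : (0 : ℝ) ≤ p := Nat.cast_nonneg p
  have hcast : ((p + 3 : ℕ) : ℝ) = (p : ℝ) + 3 := by push_cast; ring
  unfold cr
  rw [hcast]
  set m : ℝ := (p : ℝ) + 2 with hm
  have hm2 : 2 ≤ m := by linarith
  have hpm : (p : ℝ) + 3 = m + 1 := by rw [hm]; ring
  rw [hpm]
  have h0 : (m + 1) * (m + 1 - 1) = (m + 1) * m := by ring
  rw [h0]
  have hc2 : Real.sqrt ((m + 1) * m) ^ 2 = (m + 1) * m := Real.sq_sqrt (by positivity)
  have hc0 : 0 < Real.sqrt ((m + 1) * m) := Real.sqrt_pos.2 (by positivity)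
  set c := Real.sqrt ((m + 1) * m)
  have h1 : Real.sqrt (s ^ 2 * ((m + 1) / m)) = s * c / m := by
    rw [Real.sqrt_eq_iff_mul_self_eq (by positivity) (by positivity)]
    have : s * c / m * (s * c / m) = s ^ 2 * c ^ 2 / m ^ 2 := by
      field_simp
    rw [this, hc2]
    field_simp
  rw [h1]
  field_simp
  ring

theorem cr_bd (p : ℕ) : 0 ≤ cr (p + 3) ∧ cr (p + 3) ≤ 1 := by
  have hp : (0 : ℝ) ≤ p := Nat.cast_nonneg p
  have hcast : ((p + 3 : ℕ) : ℝ) = (p : ℝ) + 3 := by push_cast; ring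
  unfold cr
  rw [hcast]
  have h0 : (0 : ℝ) < Real.sqrt (((p : ℝ) + 3) * (p + 3 - 1)) :=
    Real.sqrt_pos.2 (by nlinarith)
  constructor
  · exact div_nonneg (by linarith) h0.le
  · rw [div_le_one h0]
    apply Real.le_sqrt_of_sq_le
    nlinarith

end NUM

theorem prfNUM : NUM_statement := by
  intro r b ε hr hε
  obtain ⟨p, rfl⟩ : ∃ p, r = p + 3 := ⟨r - 3, by omega⟩
  have hp : (0 : ℝ) ≤ p := Nat.cast_nonneg p
  have hcast : ((p + 3 : ℕ) : ℝ) = (p : ℝ) + 3 := by push_cast; ring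
  have hq : 0 < qq (p + 3) := by
    unfold qq
    rw [hcast]
    have : 1 / ((p : ℝ) + 3) < 1 := by rw [div_lt_one (by linarith)]; linarith
    linarith
  refine ⟨200 + 27 * (p + 3), 64 * (p + 3) ^ 2 + 2 * b + 10
    + ⌈((p : ℝ) + 5) / (ε * qq (p + 3))⌉₊, by positivity, ?_⟩
  intro n hn B hB hBn
  -- thresholds
  have hn1 : 64 * (p + 3) ^ 2 + 2 * b + 10 ≤ n := by omega
  have hn2' : ⌈((p : ℝ) + 5) / (ε * qq (p + 3))⌉₊ ≤ n := by omega
  have hn2 : ((p : ℝ) + 5) / (ε * qq (p + 3)) ≤ n :=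
    (Nat.le_ceil _).trans (Nat.cast_le.2 hn2')
  have hn1r : (64 : ℝ) * ((p : ℝ) + 3) ^ 2 + 2 * b + 10 ≤ n := by exact_mod_cast hn1
  have hn2r : (p : ℝ) + 5 ≤ B := by
    rw [div_le_iff₀ (by positivity)] at hn2
    linarith
  have hBr : (B : ℝ) ≤ n := by exact_mod_cast hBn
  have hb0 : (0 : ℝ) ≤ b := Nat.cast_nonneg b
  set m : ℝ := (p : ℝ) + 2 with hm
  have hm2 : 2 ≤ m := by linarith
  have hpm : (p : ℝ) + 3 = m + 1 := by rw [hm]; ring
  have hp5 : (p : ℝ) + 5 = m + 3 := by rw [hm]; ring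
  rw [hpm] at hn1r
  rw [hp5] at hn2r
  have hm1 : m + 1 ≤ (m + 1) ^ 2 := by nlinarith only [hm2]
  have hn10 : (10 : ℝ) ≤ n := by linarith
  have hn0 : (0 : ℝ) < n := by linarith
  -- the square root and the fourth root
  set Y : ℝ := Real.sqrt n with hY
  have hY0 : 0 ≤ Y := Real.sqrt_nonneg _
  have hY2 : Y ^ 2 = n := Real.sq_sqrt hn0.le
  set y : ℝ := Real.sqrt Y with hy
  have hy0 : 0 ≤ y := Real.sqrt_nonneg _
  have hy2 : y ^ 2 = Y := Real.sq_sqrt hY0
  have hY8 : 8 * (m + 1) ≤ Y := by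
    rw [hY]
    apply Real.le_sqrt_of_sq_le
    have h1 : (8 * (m + 1)) ^ 2 = 64 * (m + 1) ^ 2 := by ring
    rw [h1]
    linarith
  have hY1 : 1 ≤ Y := by linarith
  have hy1 : 1 ≤ y := by
    rw [hy]
    apply Real.le_sqrt_of_sq_le
    linarith
  have hyY : y ≤ Y := by nlinarith only [hy1, hy2]
  have hYY : Y ≤ Y ^ 2 := by nlinarith only [hY1]
  -- the right hand side
  set R : ℕ := ∑ t, tz (p + 3) n t ^ 2 + 2 * B + 2 * b with hR
  have hT := NUM.tz_sq (p + 3) n (by omega)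
  rw [hcast, hpm] at hT
  have hRr : (R : ℝ) = ∑ t, ((tz (p + 3) n t : ℕ) : ℝ) ^ 2 + 2 * B + 2 * b := by
    rw [hR]; push_cast; ring
  -- the size of the first class
  have hf := fun u (hu : u ≤ n) => NUM.ff_real p n u hu
  rw [← hm, hpm] at hf
  obtain ⟨u, hu0, hun, hu1, hu2⟩ : ∃ u : ℕ, (n : ℝ) / (m + 1) ≤ u ∧ u < n ∧
      NUM.ff p n u ≤ R ∧ R < NUM.ff p n (u + 1) := by
    by_contra hcon
    push Not at hcon
    have hstart : NUM.ff p n ⌈(n : ℝ) / (m + 1)⌉₊ ≤ R := by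
      have h1 : (⌈(n : ℝ) / (m + 1)⌉₊ : ℝ) < (n : ℝ) / (m + 1) + 1 :=
        Nat.ceil_lt_add_one (by positivity)
      have h2 : (n : ℝ) / (m + 1) ≤ ⌈(n : ℝ) / (m + 1)⌉₊ := Nat.le_ceil _
      have h3 : ⌈(n : ℝ) / (m + 1)⌉₊ ≤ n := by
        rw [Nat.ceil_le, div_le_iff₀ (by linarith)]
        nlinarith only [hn0, hm2]
      have h4 := (hf _ h3).2
      have h5 : ((⌈(n : ℝ) / (m + 1)⌉₊ : ℝ) - n / (m + 1)) ^ 2 ≤ 1 := by
        nlinarith only [h1, h2]
      have h6 : (m + 1) / m ≤ 3 / 2 := by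
        rw [div_le_iff₀ (by linarith)]
        linarith
      have h7 : ((⌈(n : ℝ) / (m + 1)⌉₊ : ℝ) - n / (m + 1)) ^ 2 * ((m + 1) / m) ≤ 1 * (3 / 2) :=
        mul_le_mul h5 h6 (by positivity) (by norm_num)
      have h8 : ((NUM.ff p n ⌈(n : ℝ) / (m + 1)⌉₊ : ℕ) : ℝ) ≤ R := by
        rw [hRr]
        linarith [hT.1]
      exact_mod_cast h8
    have hall : ∀ j : ℕ, ⌈(n : ℝ) / (m + 1)⌉₊ + j ≤ n →
        NUM.ff p n (⌈(n : ℝ) / (m + 1)⌉₊ + j) ≤ R := by
      intro j
      induction j with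
      | zero => intro _; exact hstart
      | succ j ih =>
        intro hj
        have h1 := ih (by omega)
        refine hcon (⌈(n : ℝ) / (m + 1)⌉₊ + j) ?_ (by omega) h1
        push_cast
        have h2 : (n : ℝ) / (m + 1) ≤ ⌈(n : ℝ) / (m + 1)⌉₊ := Nat.le_ceil _
        have h3 : (0 : ℝ) ≤ j := Nat.cast_nonneg j
        linarith
    have h3 : ⌈(n : ℝ) / (m + 1)⌉₊ ≤ n := by
      rw [Nat.ceil_le, div_le_iff₀ (by linarith)]
      nlinarith only [hn0, hm2]
    have h4 := hall (n - ⌈(n : ℝ) / (m + 1)⌉₊) (by omega)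
    have h5 : ⌈(n : ℝ) / (m + 1)⌉₊ + (n - ⌈(n : ℝ) / (m + 1)⌉₊) = n := by omega
    rw [h5] at h4
    have h6 : n ^ 2 ≤ NUM.ff p n n := by
      unfold NUM.ff
      exact Nat.le_add_right _ _
    have h7 : ((n : ℝ)) ^ 2 ≤ R := by
      have : n ^ 2 ≤ R := h6.trans h4
      exact_mod_cast this
    rw [hRr] at h7
    have h8 : (n : ℝ) ^ 2 / (m + 1) ≤ n ^ 2 / 3 := by
      apply div_le_div_of_nonneg_left (by positivity) (by norm_num) (by linarith)
    have h9 : (n : ℝ) * (64 * (m + 1) ^ 2 + 2 * b + 10) ≤ n * n :=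
      mul_le_mul_of_nonneg_left hn1r hn0.le
    have h10 : 10 * (b : ℝ) ≤ n * b := mul_le_mul_of_nonneg_right hn10 hb0
    have h11 : 1 * (m + 1) ^ 2 ≤ n * (m + 1) ^ 2 :=
      mul_le_mul_of_nonneg_right (by linarith) (sq_nonneg _)
    have h12 := hT.2
    linarith only [h7, h8, h9, h10, h11, h12, hm1, hBr, hn0, hb0, hm2]
  have hfu := hf u hun.le
  have hfu1 := hf (u + 1) (by omega)
  set s : ℝ := (u : ℝ) - n / (m + 1) with hs
  have hs0 : 0 ≤ s := by linarith
  have hus : ((u + 1 : ℕ) : ℝ) - n / (m + 1) = s + 1 := by push_cast; rw [hs]; ring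
  rw [hus] at hfu1
  -- the rest
  obtain ⟨g, hg⟩ : ∃ g, R = NUM.ff p n u + 2 * g := by
    obtain ⟨x1, hx1⟩ := NUM.even_sq (tz (p + 3) n)
    obtain ⟨x2, hx2⟩ := NUM.even_sq (tz (p + 2) (n - u))
    obtain ⟨x3, hx3⟩ := Nat.even_mul_succ_self u
    rw [DEV_sum (p + 3) n (by omega)] at hx1
    rw [DEV_sum (p + 2) (n - u) (by omega)] at hx2
    have hff : NUM.ff p n u = u ^ 2 + ∑ t, tz (p + 2) (n - u) t ^ 2 := rfl
    have h1 : u * (u + 1) = u ^ 2 + u := by ring
    rw [h1] at hx3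
    refine ⟨(R - NUM.ff p n u) / 2, ?_⟩
    omega
  have hgr : (R : ℝ) = NUM.ff p n u + 2 * (g : ℝ) := by
    rw [hg]; push_cast; ring
  have hu2r : (R : ℝ) < NUM.ff p n (u + 1) := by exact_mod_cast hu2
  have hg0 : (0 : ℝ) ≤ g := Nat.cast_nonneg g
  set c : ℝ := (m + 1) / m with hc
  have hc1 : 1 ≤ c := by
    rw [hc, le_div_iff₀ (by linarith)]
    linarith
  have hc2 : c ≤ 3 / 2 := by
    rw [hc, div_le_iff₀ (by linarith)]
    linarith
  have hv4 : s ^ 2 * c ≤ 4 * Y ^ 2 := by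
    rw [hY2]
    have h1 : ((NUM.ff p n u : ℕ) : ℝ) ≤ R := by exact_mod_cast hu1
    have h2 := hT.2
    have h3 := hfu.1
    linarith only [h1, h2, h3, hRr, hm1, hm2, hn1r, hBr, hb0, hn0]
  have hs2 : s ≤ 2 * Y := by
    by_contra h
    push Not at h
    have h1 : s ^ 2 * 1 ≤ s ^ 2 * c := mul_le_mul_of_nonneg_left hc1 (sq_nonneg _)
    nlinarith only [h, h1, hv4, hY0]
  have h2g : 2 * (g : ℝ) ≤ 7 * Y := by
    have h1 : 2 * (g : ℝ) < (2 * s + 1) * c + m := by
      have h2 := hfu1.2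
      have h3 := hfu.1
      linarith only [h2, h3, hgr, hu2r]
    have h2 : (2 * s + 1) * c ≤ (2 * s + 1) * (3 / 2) :=
      mul_le_mul_of_nonneg_left hc2 (by linarith)
    linarith
  -- the two classes
  set θ : ℕ := tz (p + 2) (n - u) 0 - tz (p + 2) (n - u) 1 with hθ
  have hθ1 : θ ≤ 1 := by
    have h1 := NUM.tz_cases (p + 2) (n - u) 0
    have h2 := NUM.tz_cases (p + 2) (n - u) 1
    omega
  obtain ⟨k, hk1, hk2⟩ : ∃ k : ℕ, k ^ 2 + k * θ ≤ g ∧ g < (k + 1) ^ 2 + (k + 1) * θ := by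
    by_contra hcon
    push Not at hcon
    have hall : ∀ j : ℕ, j ^ 2 + j * θ ≤ g := by
      intro j
      induction j with
      | zero => simp
      | succ j ih => exact hcon j ih
    have h1 := hall (g + 1)
    nlinarith only [h1, Nat.zero_le ((g + 1) * θ), Nat.zero_le g]
  have hk0 : (0 : ℝ) ≤ k := Nat.cast_nonneg k
  have hkg : (k : ℝ) ^ 2 ≤ g := by
    have : k ^ 2 ≤ g := le_trans (Nat.le_add_right _ _) hk1
    exact_mod_cast this
  have hk2y : (k : ℝ) ≤ 2 * y := by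
    by_contra h
    push Not at h
    nlinarith only [h, hkg, h2g, hy2, hy0, hY1]
  have hmean : ((n : ℝ) - u) / m = n / (m + 1) - s / m := by
    rw [hs]
    field_simp
    ring
  have hn8 : 8 * Y ≤ (n : ℝ) / (m + 1) := by
    rw [le_div_iff₀ (by linarith), ← hY2]
    nlinarith only [hY8, hY0]
  have hsm : s / m ≤ Y := by
    rw [div_le_iff₀ (by linarith)]
    nlinarith only [hs2, hm2, hY0]
  have hkτ : k ≤ tz (p + 2) (n - u) 1 := by
    have h1 := NUM.tz_real (p + 2) (n - u) (by omega) 1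
    push_cast [Nat.cast_sub hun.le] at h1
    rw [← hm, hmean, abs_le] at h1
    have h2 : (k : ℝ) ≤ (tz (p + 2) (n - u) 1 : ℕ) := by linarith [h1.1]
    exact_mod_cast h2
  obtain ⟨σ, hσ0, hσs, hσ2, hση⟩ := NUM.exists_sizes p n u k hun.le hkτ
  rw [← hθ] at hσ2
  rw [← hm] at hση
  have hcub := NUM.cub_ge p n u (k + 1) σ hσ0 hσs (by rw [hpm]; exact hu0)
    (by rw [← hm]; exact hση)
  rw [hpm, ← hm, ← hs] at hcub
  refine ⟨σ, g - (k ^ 2 + k * θ), hσs, ?_, ?_, ?_, ?_⟩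
  · obtain ⟨l, hl⟩ := Nat.exists_eq_add_of_le hk1
    have h1 : g - (k ^ 2 + k * θ) = l := by omega
    rw [h1, hσ2, hg, hl]
    ring
  · have h1 : g - (k ^ 2 + k * θ) ≤ 2 * k + 1 := by
      have h2 : (k + 1) ^ 2 + (k + 1) * θ = k ^ 2 + k * θ + (2 * k + 1 + θ) := by ring
      omega
    have h2 : ((g - (k ^ 2 + k * θ) : ℕ) : ℝ) ≤ 2 * k + 1 := by exact_mod_cast h1
    have h3 : (0 : ℝ) ≤ (200 + 27 * ((p : ℝ) + 3) - 5) * y := by
      apply mul_nonneg (by linarith) hy0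
    linarith
  · have hw8 : 2 * (g : ℝ) + m ≤ 8 * Y := by linarith
    have hv0 : 0 ≤ s ^ 2 * c := by positivity
    have h2B : 2 * (B : ℝ) ≤ s ^ 2 * c + (2 * g + m) := by linarith [hT.1, hfu.2]
    have h3 := NUM.three_half (x := 2 * (B : ℝ)) hv0 (by linarith : 0 ≤ 2 * (g : ℝ) + m) h2B
    have hcrm := NUM.cr_mul p s hs0
    rw [hpm, ← hm, ← hc] at hcrm
    obtain ⟨hcr0, hcr1⟩ := NUM.cr_bd p
    have hsq : Real.sqrt (s ^ 2 * c + (2 * g + m)) ≤ 4 * Y := by
      rw [Real.sqrt_le_left (by linarith)]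
      have h4 : (4 * Y) ^ 2 = 16 * Y ^ 2 := by ring
      rw [h4]
      linarith only [hv4, hw8, hYY, hY0]
    have hsq0 := Real.sqrt_nonneg (s ^ 2 * c + (2 * (g : ℝ) + m))
    have h4 : (2 * (g : ℝ) + m) * Real.sqrt (s ^ 2 * c + (2 * g + m)) ≤ (8 * Y) * (4 * Y) :=
      mul_le_mul hw8 hsq hsq0 (by linarith)
    have h5 : cr (p + 3) * (2 * (B : ℝ) * Real.sqrt (2 * B))
        ≤ s ^ 3 * (1 - 1 / m ^ 2) + 48 * n := by
      have h6 := mul_le_mul_of_nonneg_left h3 hcr0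
      rw [mul_add, hcrm] at h6
      have h7 : cr (p + 3) * (3 / 2 * ((2 * (g : ℝ) + m)
          * Real.sqrt (s ^ 2 * c + (2 * g + m)))) ≤ 1 * (3 / 2 * ((8 * Y) * (4 * Y))) :=
        mul_le_mul hcr1 (by linarith) (by positivity) (by norm_num)
      rw [← hY2]
      linarith
    have hK3 : (k : ℝ) + 1 ≤ 3 * y := by linarith
    have hK2 : ((k : ℝ) + 1) ^ 2 ≤ 9 * Y := by
      rw [← hy2]
      nlinarith only [hK3, hk0, hy0]
    have hK33 : ((k : ℝ) + 1) ^ 3 ≤ 27 * n := by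
      have h8 : ((k : ℝ) + 1) ^ 3 = ((k : ℝ) + 1) ^ 2 * (k + 1) := by ring
      rw [h8, ← hY2]
      have h9 : ((k : ℝ) + 1) ^ 2 * (k + 1) ≤ (9 * Y) * (3 * Y) :=
        mul_le_mul hK2 (by linarith) (by linarith) (by linarith)
      linarith
    have h10 : 3 * s * ((k : ℝ) + 1) ^ 2 ≤ 54 * n := by
      rw [← hY2]
      have h11 : (3 * s) * ((k : ℝ) + 1) ^ 2 ≤ (3 * (2 * Y)) * (9 * Y) :=
        mul_le_mul (by linarith) hK2 (by positivity) (by linarith)
      linarith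
    have h12 : m * ((k : ℝ) + 1) ^ 3 ≤ m * (27 * n) :=
      mul_le_mul_of_nonneg_left hK33 (by linarith)
    have h13 : (200 + 27 * ((p : ℝ) + 3)) * n = 200 * n + 27 * (m * n) + 27 * n := by
      rw [hpm]; ring
    rw [h13]
    linarith only [h5, h10, h12, hcub, hn0]
  · intro t
    rw [hcast, hpm]
    have h1 : (n : ℝ) / (2 * (m + 1)) = n / (m + 1) / 2 := by
      field_simp
    rw [h1]
    refine Fin.cases ?_ (fun t => ?_) t
    · rw [hσ0]
      linarith
    · have h2 := (abs_le.1 (hση t)).1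
      rw [hmean] at h2
      linarith

end MP0c3a8f

end

section

/-!
# MP_0c3a8f_co, upper range: the optimisation (item OPU)
-/

open Finset

namespace MP0c3a8f
namespace ItemOPU

theorem qq_bd {r : ℕ} (hr : 3 ≤ r) : 2 / 3 ≤ qq r ∧ qq r < 1 := by
  have h3 : (3 : ℝ) ≤ r := by exact_mod_cast hr
  unfold qq
  constructor
  · have : 1 / (r : ℝ) ≤ 1 / 3 := one_div_le_one_div_of_le (by norm_num) h3
    linarith
  · have : 0 < 1 / (r : ℝ) := by positivity
    linarith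

/-- the inequality in the scaled variables -/
theorem step4 (r K : ℕ) (ε C : ℝ) (n n₁ B : ℕ) (dv dT a b e : ℝ) (k : ℤ)
    {ι : Type} (U : Finset ι) (d : ι → ℝ) (t : ι → ℝ) (hr : 3 ≤ r)
    (hn : 0 < n) (hn₁ : 0 < n₁) (hε : 0 < ε)
    (_hdv : 0 ≤ dv) (hdT : 0 ≤ dT) (hdT' : dT ≤ r) (hC : 0 ≤ C)
    (ha : 0 ≤ a) (hb : 0 ≤ b) (he : 0 ≤ e) (he' : e ≤ (K : ℝ) ^ 2) (hU : U.card ≤ K)
    (hk : (k : ℝ) = n₁ - n) (hk' : |(n₁ : ℝ) - n| ≤ C)
    (ht : ∀ i, t i = d i / (qq r * n₁)) (ht01 : ∀ i ∈ U, 0 ≤ t i ∧ t i ≤ 1)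
    (h1 : ε * (qq r * n) ≤ B) (h2 : (B : ℝ) ≤ (2 / (r : ℝ) - ε) * (qq r * n))
    (hrel : qq r * (n₁ : ℝ) ^ 2 - dv + 2 * ∑ i ∈ U, d i + 2 * e - 2 * a + 2 * b
      = qq r * (n : ℝ) ^ 2 - dT - 2 * B)
    (hbig : 2 * (C ^ 2 + C * K + 2 * K ^ 2 + r) / ε ≤ n)
    (h3 : (2 * qq r - 1 / (4 * (r : ℝ) ^ 2)) * (a + b) + qq r * (1 - 2 / (r : ℝ)) * dv
      + ∑ i ∈ U, 2 * d i * (qq r - d i / n₁)
      ≤ 2 * qq r * (1 - 2 / (r : ℝ)) * B + C * Real.sqrt n) :
    ∃ x' : ℝ, ε / 2 ≤ x' ∧ x' ≤ 2 / (r : ℝ) - ε / 2 ∧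
      ∑ i ∈ U, t i + b / (qq r * n) - a / (qq r * n) - dv / (2 * qq r * n) + k = -x' ∧
      ∑ i ∈ U, t i * (1 - t i)
        + (1 - 1 / (4 * (r : ℝ) ^ 2)) * (a / (qq r * n) + b / (qq r * n))
        + (1 - 2 / (r : ℝ)) * (dv / (2 * qq r * n)) ≤ (1 - 2 / (r : ℝ)) * x'
        + (C * K + (C ^ 2 + C * K + 2 * K ^ 2 + r) + 2 * C) * Real.sqrt n / n
      := by
  obtain ⟨hq, hq1⟩ := qq_bd hr
  have hr' : (3 : ℝ) ≤ r := by exact_mod_cast hr
  have hn' : (0 : ℝ) < n := by exact_mod_cast hn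
  have hn1' : (1 : ℝ) ≤ n := by exact_mod_cast hn
  have hn₁' : (0 : ℝ) < n₁ := by exact_mod_cast hn₁
  have hq0 : 0 < qq r := by linarith
  have hr0 : (0 : ℝ) < r := by positivity
  have hr2 : 0 < 2 / (r : ℝ) := by positivity
  have hr3 : 2 / (r : ℝ) ≤ 2 / 3 := div_le_div_of_nonneg_left (by norm_num) (by norm_num) hr'
  have hK : (0 : ℝ) ≤ K := by positivity
  have hqn : 0 < qq r * n := by positivity
  have hqn1 : (qq r * n : ℝ) ≠ 0 := hqn.ne'
  have hs1 : 1 ≤ Real.sqrt n := by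
    rw [Real.one_le_sqrt]; exact hn1'
  have hs0 : 0 ≤ Real.sqrt n := by linarith
  have he10 : 0 ≤ 1 / (4 * (r : ℝ) ^ 2) := by positivity
  set s := Real.sqrt n
  set e1 := 1 / (4 * (r : ℝ) ^ 2) with he1
  set q := qq r with hqd
  set C8 := C ^ 2 + C * K + 2 * K ^ 2 + r with hC8
  have hC80 : 0 ≤ C8 := by positivity
  have hd : ∀ i, d i = t i * (q * n₁) := fun i => by
    rw [ht i]; field_simp
  have hst0 : 0 ≤ ∑ i ∈ U, t i := sum_nonneg fun i hi => (ht01 i hi).1
  have hstK : ∑ i ∈ U, t i ≤ K := by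
    calc ∑ i ∈ U, t i ≤ ∑ i ∈ U, (1 : ℝ) := sum_le_sum fun i hi => (ht01 i hi).2
      _ = U.card := by simp
      _ ≤ K := by exact_mod_cast hU
  have hsd : ∑ i ∈ U, d i = (∑ i ∈ U, t i) * (q * n₁) := by
    rw [sum_mul]; exact sum_congr rfl fun i _ => hd i
  set T := ∑ i ∈ U, t i with hT
  obtain ⟨x, hx⟩ : ∃ x : ℝ, x = B / (q * n) := ⟨_, rfl⟩
  have hDx : (B : ℝ) = x * (q * n) := by rw [hx]; field_simp
  have hx1 : ε ≤ x := by
    rw [hDx] at h1; exact le_of_mul_le_mul_right h1 hqn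
  have hx2 : x ≤ 2 / (r : ℝ) - ε := by
    rw [hDx] at h2; exact le_of_mul_le_mul_right h2 hqn
  obtain ⟨ξ, hξ⟩ : ∃ ξ : ℝ, ξ = (k : ℝ) ^ 2 / (2 * n) + k / n * T + e / (q * n)
    + dT / (2 * q * n) := ⟨_, rfl⟩
  have hn1k : (n₁ : ℝ) = n + k := by rw [hk]; ring
  have hkC : |(k : ℝ)| ≤ C := by rw [hk]; exact hk'
  have hξn : |ξ * n| ≤ C8 := by
    have e1 : ξ * n = (k : ℝ) ^ 2 / 2 + k * T + e / q + dT / (2 * q) := by
      rw [hξ]; field_simp
    rw [e1]
    have a1 : (k : ℝ) ^ 2 ≤ C ^ 2 := by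
      rw [← sq_abs]; exact pow_le_pow_left₀ (abs_nonneg _) hkC 2
    have a2 : |(k : ℝ) * T| ≤ C * K := by
      rw [abs_mul, abs_of_nonneg hst0]
      exact mul_le_mul hkC hstK hst0 hC
    have a3 : e / q ≤ 2 * K ^ 2 := by
      rw [div_le_iff₀ hq0]
      have : 2 * (K : ℝ) ^ 2 * (1 / 2) ≤ 2 * K ^ 2 * q :=
        mul_le_mul_of_nonneg_left (by linarith) (by positivity)
      linarith
    have a4 : dT / (2 * q) ≤ r := by
      rw [div_le_iff₀ (by positivity)]
      have : (r : ℝ) * 1 ≤ r * (2 * q) := mul_le_mul_of_nonneg_left (by linarith) hr0.le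
      linarith
    have a5 : 0 ≤ e / q := by positivity
    have a6 : 0 ≤ dT / (2 * q) := by positivity
    have a7 := abs_le.mp a2
    have a8 : (0 : ℝ) ≤ (k : ℝ) ^ 2 := sq_nonneg _
    have b1 : 0 ≤ C ^ 2 := sq_nonneg _
    have b2 : 0 ≤ (K : ℝ) ^ 2 := sq_nonneg _
    have a71 := a7.1
    have a72 := a7.2
    clear a7 hrel h3 hd ht hsd
    rw [abs_le, hC8]
    constructor <;> linarith
  have hξ' : |ξ| ≤ C8 / n := by
    rw [le_div_iff₀ hn']
    rwa [abs_mul, abs_of_pos hn'] at hξn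
  have hξ2 : |ξ| ≤ ε / 2 := by
    apply hξ'.trans
    rw [div_le_iff₀ hn']
    rw [div_le_iff₀ hε] at hbig
    linarith
  have hξa := abs_le.mp hξ2
  refine ⟨x + ξ, by linarith, by linarith, ?_, ?_⟩
  · rw [hx, hξ]
    have : q * ((n : ℝ) + k) ^ 2 - dv + 2 * (T * (q * (n + k))) + 2 * e - 2 * a + 2 * b
      = q * (n : ℝ) ^ 2 - dT - 2 * B := by
      rw [← hn1k, ← hsd]; exact hrel
    field_simp
    linear_combination this
  · have hsum : ∑ i ∈ U, 2 * d i * (q - d i / n₁)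
        = (∑ i ∈ U, t i * (1 - t i)) * (2 * q ^ 2 * n₁) := by
      rw [sum_mul]
      refine sum_congr rfl fun i _ => ?_
      rw [hd i]; field_simp
    set S := ∑ i ∈ U, t i * (1 - t i) with hS
    have hS0 : 0 ≤ S := sum_nonneg fun i hi =>
      mul_nonneg (ht01 i hi).1 (by linarith [(ht01 i hi).2])
    have hSK : S ≤ K := by
      refine le_trans (sum_le_sum fun i hi => ?_) hstK
      have h0 := (ht01 i hi).1
      have := mul_nonneg h0 h0
      linarith
    have hden : 0 < 2 * q ^ 2 * n := by positivity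
    have h2q : 1 / 2 ≤ 2 * q ^ 2 := by
      have : (2 / 3 : ℝ) ^ 2 ≤ q ^ 2 := pow_le_pow_left₀ (by norm_num) hq 2
      linarith
    rw [hsum] at h3
    have h4 : S * (n₁ / n) + (1 - e1 / (2 * q)) * (a / (q * n) + b / (q * n))
        + (1 - 2 / (r : ℝ)) * (dv / (2 * q * n))
        ≤ (1 - 2 / (r : ℝ)) * x + C * s / (2 * q ^ 2 * n) := by
      have e1' : S * (n₁ / n) + (1 - e1 / (2 * q)) * (a / (q * n) + b / (q * n))
        + (1 - 2 / (r : ℝ)) * (dv / (2 * q * n)) = ((2 * q - e1) * (a + b)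
          + q * (1 - 2 / (r : ℝ)) * dv + S * (2 * q ^ 2 * n₁)) / (2 * q ^ 2 * n) := by
        field_simp
        ring
      have e2' : (1 - 2 / (r : ℝ)) * x + C * s / (2 * q ^ 2 * n)
          = (2 * q * (1 - 2 / (r : ℝ)) * B + C * s) / (2 * q ^ 2 * n) := by
        rw [hDx]
        field_simp
      rw [e1', e2']
      apply div_le_div_of_nonneg_right _ hden.le
      linarith
    have h5 : C * s / (2 * q ^ 2 * n) ≤ 2 * C * s / n := by
      rw [div_le_div_iff₀ hden hn']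
      calc C * s * n = 2 * C * s * (1 / 2 * n) := by ring
        _ ≤ 2 * C * s * (2 * q ^ 2 * n) := by gcongr
    have h6 : S - C * K / n ≤ S * (n₁ / n) := by
      have e1' : S * (n₁ / n) = S + S * k / n := by rw [hn1k]; field_simp
      have e2' : -(C * K) ≤ S * k := by
        have e0 : |S * k| ≤ K * C := by
          rw [abs_mul, abs_of_nonneg hS0]
          exact mul_le_mul hSK hkC (abs_nonneg _) hK
        have := (abs_le.mp e0).1
        linarith
      have e3' : -(C * K) / n ≤ S * k / n := div_le_div_of_nonneg_right e2' hn'.le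
      rw [e1']
      have e4' : -(C * K) / n = -(C * K / n) := neg_div _ _
      linarith
    have h7 : (1 - e1) * (a / (q * n) + b / (q * n))
        ≤ (1 - e1 / (2 * q)) * (a / (q * n) + b / (q * n)) := by
      apply mul_le_mul_of_nonneg_right _ (by positivity)
      have : e1 / (2 * q) ≤ e1 := div_le_self he10 (by linarith)
      linarith
    have h8 : (1 - 2 / (r : ℝ)) * x ≤ (1 - 2 / (r : ℝ)) * (x + ξ) + C8 / n := by
      have e1' : -(C8 / n) ≤ ξ := (abs_le.mp hξ').1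
      have e2' : 0 ≤ C8 / n := by positivity
      have e3' : 0 ≤ 1 - 2 / (r : ℝ) := by linarith
      have e4' : (1 - 2 / (r : ℝ)) * (-(C8 / n)) ≤ (1 - 2 / (r : ℝ)) * ξ :=
        mul_le_mul_of_nonneg_left e1' e3'
      have e5' : (1 - 2 / (r : ℝ)) * (C8 / n) ≤ 1 * (C8 / n) :=
        mul_le_mul_of_nonneg_right (by linarith) e2'
      rw [mul_add]
      linarith
    have h9 : (C * K + C8 + 2 * C) * s / n
        = C * K * s / n + C8 * s / n + 2 * C * s / n := by ring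
    have h10 : C * K / n ≤ C * K * s / n := by
      apply div_le_div_of_nonneg_right _ hn'.le
      exact le_mul_of_one_le_right (by positivity) hs1
    have h11 : C8 / n ≤ C8 * s / n := by
      apply div_le_div_of_nonneg_right _ hn'.le
      exact le_mul_of_one_le_right (by positivity) hs1
    rw [h9]
    linarith

end ItemOPU

open ItemOPU in
theorem prfOPU : OPUC_statement → OPU_statement := by
  intro hO r K ε c C hr hε hc hc2 hC
  obtain ⟨γ, hγ, hOPT⟩ := hO r (ε / 2) c hr (by linarith) hc hc2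
  obtain ⟨C9, hC9⟩ : ∃ C9 : ℝ, C9 = C * K + (C ^ 2 + C * K + 2 * K ^ 2 + r) + 2 * C :=
    ⟨_, rfl⟩
  have hC90 : 0 ≤ C9 := by rw [hC9]; positivity
  obtain ⟨hq, hq1⟩ := qq_bd hr
  have hr' : (3 : ℝ) ≤ r := by exact_mod_cast hr
  have hr3 : 1 / (r : ℝ) ≤ 1 / 3 := one_div_le_one_div_of_le (by norm_num) hr'
  obtain ⟨n₀, hn₀⟩ : ∃ n₀ : ℕ, C + 2 * (C ^ 2 + C * K + 2 * K ^ 2 + r) / ε
      + (C9 / γ) ^ 2 + 1 < n₀ := exists_nat_gt _
  have t2 : 0 ≤ 2 * (C ^ 2 + C * K + 2 * K ^ 2 + r) / ε := by positivity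
  have t3 : 0 ≤ (C9 / γ) ^ 2 := by positivity
  refine ⟨⌈C9 / γ⌉₊, n₀, ?_⟩
  intro n n₁ B dv dT a b e ι U d hn hRU hdv hdT hdT' ha hb he he' hU hk7 hd hrel h3
  obtain ⟨h1, h2⟩ := hRU
  have hnn : (n₀ : ℝ) ≤ n := by exact_mod_cast hn
  have hn' : (0 : ℝ) < n := by linarith
  have hn0 : 0 < n := by exact_mod_cast hn'
  have hn₁' : (0 : ℝ) < n₁ := by
    have := (abs_le.mp hk7).1
    linarith
  have hn₁ : 0 < n₁ := by exact_mod_cast hn₁'
  have hq0 : 0 < qq r := by linarith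
  have hqn₁ : 0 < qq r * n₁ := by positivity
  have hqn : 0 < qq r * n := by positivity
  have htc : ∀ i ∈ U, c ≤ d i / (qq r * n₁) ∧ d i / (qq r * n₁) ≤ 1 - c := fun i hi => by
    rw [le_div_iff₀ hqn₁, div_le_iff₀ hqn₁]
    exact hd i hi
  obtain ⟨x', hx1, hx2, hx3, hx4⟩ := step4 r K ε C n n₁ B dv dT a b e ((n₁ : ℤ) - n) U d
    (fun i => d i / (qq r * n₁)) hr hn0 hn₁ hε hdv hdT hdT' hC ha hb he he' hU
    (by push_cast; ring) hk7 (fun _ => rfl)
    (fun i hi => ⟨hc.le.trans (htc i hi).1, by linarith [(htc i hi).2]⟩) h1 h2 hrel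
    (by linarith) h3
  rw [← hC9] at hx4
  have key := hOPT ι U (fun i => d i / (qq r * n₁)) x' (a / (qq r * n)) (b / (qq r * n))
    (dv / (2 * qq r * n)) ((n₁ : ℤ) - n) hx1 hx2 (by positivity) (by positivity)
    (by positivity) htc hx3
  have hss : Real.sqrt n * Real.sqrt n = n := Real.mul_self_sqrt hn'.le
  have hsp : 0 < Real.sqrt n := Real.sqrt_pos.2 hn'
  have hsn : Real.sqrt n / n = 1 / Real.sqrt n := by
    rw [div_eq_div_iff hn'.ne' hsp.ne', hss, one_mul]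
  have hE : C9 * Real.sqrt n / n = C9 / Real.sqrt n := by
    rw [mul_div_assoc, hsn]; ring
  rw [hE] at hx4
  rcases key with key | ⟨hc1, hk0, key⟩
  · exfalso
    have h4 : γ ≤ C9 / Real.sqrt n := by linarith
    rw [le_div_iff₀ hsp] at h4
    have h5 : Real.sqrt n ≤ C9 / γ := by
      rw [le_div_iff₀ hγ]; linarith
    have h6 : (n : ℝ) ≤ (C9 / γ) ^ 2 := by
      rw [← hss, sq]
      exact mul_le_mul h5 h5 hsp.le (by positivity)
    linarith
  · have hnn₁ : n₁ = n := by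
      have : (n₁ : ℤ) = n := by linarith
      exact_mod_cast this
    refine ⟨hc1, hnn₁, ?_⟩
    rw [hc1, Finset.sum_empty, zero_add] at hx4
    have h4 : γ * (a / (qq r * n) + b / (qq r * n)) ≤ C9 / Real.sqrt n := by linarith
    have h5 : (a + b) / n ≤ a / (qq r * n) + b / (qq r * n) := by
      rw [← add_div]
      apply div_le_div_of_nonneg_left (by positivity) hqn
      have : qq r * (n : ℝ) ≤ 1 * n := mul_le_mul_of_nonneg_right hq1.le hn'.le
      linarith
    have h6 : γ * ((a + b) / n) ≤ C9 / Real.sqrt n := le_trans (by gcongr) h4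
    have h7 : a + b ≤ C9 / γ * Real.sqrt n := by
      rw [le_div_iff₀ hsp] at h6
      have h8 : γ * ((a + b) / n) * Real.sqrt n = γ * (a + b) / Real.sqrt n := by
        rw [show γ * ((a + b) / n) * Real.sqrt n = γ * (a + b) * (Real.sqrt n / n) by ring, hsn]
        ring
      rw [h8, div_le_iff₀ hsp] at h6
      rw [div_mul_eq_mul_div, le_div_iff₀ hγ]
      linarith
    exact h7.trans (mul_le_mul_of_nonneg_right (Nat.le_ceil _) hsp.le)

end MP0c3a8f

end

section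

/-!
# MP_0c3a8f_co, phase B: all items of the parts PB2 and PB3 together
-/

namespace MP0c3a8f

theorem bGREE : GREE_statement := prfGREE bGRE
theorem bTOP3 : TOP3_statement :=
  prfTOP3 prfP prfEDG.1 prfEDG.2 prfCRT prfKCC bMAXE prfDEV prfCNTU bSTRB bLBG bUB1 bUB2 prfEXP
    bGREE (prfJFA prfEXP prfDEV) (prfJFB prfEXP prfDEV) (prfJFC prfEXP prfDEV) bJB prfFAM1
    prfFAM2 bMEM1 bMEM2 bCLA prfCLB
theorem bEVFR1 : EVFR1_statement := prfEVFR1 bMV1 bMEM1
theorem bORDR1 : ORDR1_statement := prfORDR1 bMV1 bSW1 bMEM1 bEVFR1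
theorem bEXCR2 : EXCR2_statement := prfEXCR2 bUS2 bMEM2
theorem bEVFR2 : EVFR2_statement := prfEVFR2 bMV2 bMEM2 bEXCR2 bRLC2
theorem bORDR2 : ORDR2_statement := prfORDR2 bMV2 bUS2 bMEM2 bEXCR2 bRLC2 bEVFR2
theorem bFIN3 : FIN3_statement :=
  prfFIN3 prfEDG.2 bMEM1 bMEM2 prfGV prfISO1 prfREL bTI2 prfDEV bTOP3 bEVFR1 bORDR1 bEXCR2
    bEVFR2 bORDR2
theorem bUBG : UBG_statement := prfUBG prfP bKW3 bSEC prfCNTU
theorem bKXB : KXB_statement := prfKXB prfEXP prfDEV
theorem bMEMB : MEMB_statement := prfMEMB prfNON2 prfREDS.1 prfDEV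
theorem bSTRG : STRG_statement := prfSTRG bSTRB bLBG bUBG
theorem bMAXG : MAXG_statement := prfMAXG prfP bMAXE prfDEV prfCNTU bSTRG bUBG bKXB bMEMB
theorem bMEMZ : MEMZ_statement := prfMEMZ prfCNTU
theorem bTOPZ : TOPZ_statement :=
  prfTOPZ prfP bMAXE prfDEV prfCNTU bSTRB bLBG bUBG bKXB bGREE (prfJFZ prfEXP prfDEV)
    (prfJBZ prfEXP prfDEV) prfFAMZ bMEMZ (prfEMBZ prfE12.2)
theorem bGENX : GENX_statement := prfGENX prfP prfDEV prfREL bMEMZ bTOPZ
theorem bMV0 : MV0_statement := prfMV0 prfP prfEIG0 (prfGAP0 prfP prfEIG0)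
theorem bFINS : FINS_statement :=
  prfFINS prfP prfEDG.2 prfDEV prfREL bMEMZ bTOPZ prfISO0 prfGVC (prfPICK prfP bMV0 bMEMZ)

end MP0c3a8f

end
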