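import Pool.Agent.Work.MP_0c3a8f_co.PB.Stmts4
import Pool.Agent.Work.MP_0c3a8f_co.PB.ItemOPTC
import Pool.Agent.Work.MP_0c3a8f_co.Bd.B06
import Pool.Agent.Work.MP_0c3a8f_co.PB.Stmts5
import Pool.Agent.Work.MP_0c3a8f_co.Bd.B09
import Pool.Agent.Work.MP_0c3a8f_co.Bd.B03

/-! Bundle of small proof modules (one section per former module). -/

section

/-!
# OPUC: the real inequality of the optimisation in the upper range
-/

set_option autoImplicit false

namespace MP0c3a8f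

namespace OPUCx

/-- nonnegative integer -/
theorem kP {ρ e y t α β ν κ : ℝ} (hρ : ρ ≤ 2 / 3) (he : e ≤ ρ)
    (ht0 : 0 ≤ t) (ht1 : t ≤ 1) (hα : 0 ≤ α) (hβ : 0 ≤ β)
    (h : t + β - α - ν + κ = -y) :
    (1 - ρ) * y + (1 - ρ) * t + (1 - ρ) * κ ≤
      t * (1 - t) + (1 - e) * (α + β) + (1 - ρ) * ν := by
  have h1 : 0 ≤ t * (1 - t) := mul_nonneg ht0 (by linarith)
  have h2 : 0 ≤ (ρ - e) * α := mul_nonneg (by linarith) hα
  have h3 : 0 ≤ (1 - e) * β := mul_nonneg (by linarith) hβ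
  have h4 : 0 ≤ (1 - ρ) * β := mul_nonneg (by linarith) hβ
  have h5 : ν = y + t + β + κ - α := by linarith
  subst h5
  linarith

/-- the integer `-1` -/
theorem kM {ε ρ e y t α β ν : ℝ} (hε : 0 < ε) (hρ : ρ ≤ 2 / 3) (he : e ≤ ρ) (he2 : e ≤ 1 / 36)
    (hy1 : ε ≤ y) (hy2 : y ≤ ρ - ε)
    (ht0 : 0 ≤ t) (ht1 : t ≤ 1) (hα : 0 ≤ α) (hβ : 0 ≤ β) (hν : 0 ≤ ν)
    (h : t + β - α - ν + (-1) = -y) :
    (1 - ρ) * y + ε ^ 2 ≤ t * (1 - t) + (1 - e) * (α + β) + (1 - ρ) * ν ∨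
    (1 - ρ) * y + (1 - t) * ε ≤ t * (1 - t) + (1 - e) * (α + β) + (1 - ρ) * ν := by
  by_cases hc : y ≤ 1 - t
  · left
    have h1 : β = (1 - t - y) + α + ν := by linarith
    have h2 : 0 ≤ (1 - e) * α := mul_nonneg (by linarith) hα
    have h3 : 0 ≤ (1 - e) * ν := mul_nonneg (by linarith) hν
    have h4 : 0 ≤ (1 - ρ) * ν := mul_nonneg (by linarith) hν
    have h5 : 0 ≤ (1 - t - y) * (1 + t - y - e) := mul_nonneg (by linarith) (by linarith)
    have h6 : ε * ε ≤ y * (ρ - y) := mul_le_mul hy1 (by linarith) hε.le (by linarith)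
    subst h1
    linarith
  · right
    push Not at hc
    have h1 : ν = β + (y - (1 - t)) - α := by linarith
    have h2 : 0 ≤ (ρ - e) * α := mul_nonneg (by linarith) hα
    have h3 : 0 ≤ (1 - e) * β := mul_nonneg (by linarith) hβ
    have h4 : 0 ≤ (1 - ρ) * β := mul_nonneg (by linarith) hβ
    have h5 : 0 ≤ (1 - t) * ((ρ - ε) - (1 - t)) := mul_nonneg (by linarith) (by linarith)
    subst h1
    linarith

/-- integers at most `-2` (or `-1` and `t = 0`) -/
theorem kN {ε ρ e y t α β ν κ : ℝ} (hε : 0 < ε) (hρ : ρ ≤ 2 / 3) (he0 : 0 ≤ e)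
    (he : e ≤ ρ) (he2 : e ≤ 1 / 36) (hy1 : ε ≤ y) (hy2 : y ≤ ρ - ε)
    (ht0 : 0 ≤ t) (ht1 : t ≤ 1) (hα : 0 ≤ α) (hν : 0 ≤ ν) (hκ : t + κ ≤ -1)
    (h : t + β - α - ν + κ = -y) :
    (1 - ρ) * y + 1 / 12 ≤ t * (1 - t) + (1 - e) * (α + β) + (1 - ρ) * ν := by
  have h1 : 0 ≤ t * (1 - t) := mul_nonneg ht0 (by linarith)
  have h2 : 0 ≤ (1 - e) * α := mul_nonneg (by linarith) hα
  have h3 : 0 ≤ (1 - ρ) * ν := mul_nonneg (by linarith) hν
  have h4 : (1 - e) * (1 - y) ≤ (1 - e) * β := mul_le_mul_of_nonneg_left (by linarith) (by linarith)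
  have h5 : 0 ≤ (ρ - y) * (2 - ρ) := mul_nonneg (by linarith) (by linarith)
  have h6 : 0 ≤ (2 / 3 - ρ) * (4 / 3 - ρ) := mul_nonneg (by linarith) (by linarith)
  have h7 : 0 ≤ e * y := mul_nonneg he0 (by linarith)
  have h8 : 0 ≤ (2 / 3 - ρ) ^ 2 := sq_nonneg _
  linarith

end OPUCx

open OPUCx OPTCx in
theorem prfOPUC : OPUC_statement := by
  intro r ε c hr hε hc hc2
  have hr0 : (3 : ℝ) ≤ (r : ℝ) := by exact_mod_cast hr
  have hr1 : (0 : ℝ) < (r : ℝ) := by linarith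
  set γ : ℝ := min (2 * c ^ 2) (min (1 / 12) (min (ε ^ 2) (min (c * ε) (c / r)))) with hγ
  have g1 : γ ≤ 2 * c ^ 2 := min_le_left _ _
  have g' : γ ≤ min (1 / 12) (min (ε ^ 2) (min (c * ε) (c / r))) := min_le_right _ _
  have g2 : γ ≤ 1 / 12 := g'.trans (min_le_left _ _)
  have g'' : γ ≤ min (ε ^ 2) (min (c * ε) (c / r)) := g'.trans (min_le_right _ _)
  have g3 : γ ≤ ε ^ 2 := g''.trans (min_le_left _ _)
  have g4 : γ ≤ c * ε := (g''.trans (min_le_right _ _)).trans (min_le_left _ _)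
  have g5 : γ ≤ c / r := (g''.trans (min_le_right _ _)).trans (min_le_right _ _)
  have gpos : 0 < γ := by
    rw [hγ]
    exact lt_min (by positivity) (lt_min (by norm_num)
      (lt_min (by positivity) (lt_min (by positivity) (by positivity))))
  refine ⟨γ, gpos, ?_⟩
  intro ι U t y α β ν k hy1 hy2 hα hβ hν ht hsum
  classical
  clear_value γ
  set ρ : ℝ := 2 / (r : ℝ) with hρ
  set e : ℝ := 1 / (4 * (r : ℝ) ^ 2) with he
  have hρ1 : ρ ≤ 2 / 3 := by
    rw [hρ, div_le_div_iff₀ hr1 (by norm_num)]; linarith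
  have hir : 1 / (r : ℝ) = ρ / 2 := by rw [hρ]; ring
  have hρ0 : 0 < ρ := by rw [hρ]; positivity
  have he0 : 0 ≤ e := by rw [he]; positivity
  have hee : e = ρ ^ 2 / 16 := by rw [he, hρ]; field_simp; norm_num
  have he1 : e ≤ ρ / 2 := by
    rw [hee]; nlinarith
  have he' : e ≤ ρ := by linarith
  have he2 : e ≤ 1 / 36 := by
    rw [hee]
    have : ρ ^ 2 ≤ (2 / 3) ^ 2 := pow_le_pow_left₀ hρ0.le hρ1 2
    linarith
  have hcr : c / r = c * (ρ / 2) := by rw [← hir]; ring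
  have hc3 : c < ρ / 2 := by rw [← hir]; exact hc2
  have hc5 : γ ≤ (1 - ρ) * c := by
    have : c * (ρ / 2) ≤ c * (1 - ρ) := mul_le_mul_of_nonneg_left (by linarith) hc.le
    linarith
  -- the sum of the `t i`
  set s := ∑ i ∈ U, t i with hs
  have f0 := Int.fract_nonneg s
  have f1 := (Int.fract_lt_one s).le
  have f2 := Int.floor_add_fract s
  have hGU : ∑ i ∈ U, t i * (1 - t i) = ∑ i ∈ U, G (t i) := by
    refine Finset.sum_congr rfl fun i hi => ?_
    obtain ⟨a, b⟩ := ht i hi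
    rw [G_self (by linarith) (by linarith)]
  have hG1 : G s ≤ ∑ i ∈ U, t i * (1 - t i) := by
    rw [hGU]
    exact G_sum U t
  have hGs : G s = Int.fract s * (1 - Int.fract s) := rfl
  have hk : Int.fract s + β - α - ν + ((k + ⌊s⌋ : ℤ) : ℝ) = -y := by
    push_cast
    linarith
  -- the general bound
  have hgen : (1 - ρ) * y ≤ G s + (1 - e) * (α + β) + (1 - ρ) * ν := by
    rw [hGs]
    rcases lt_trichotomy (k + ⌊s⌋) (-1) with h | h | h
    · have h' : ((k + ⌊s⌋ : ℤ) : ℝ) ≤ -2 := by exact_mod_cast (by omega : k + ⌊s⌋ ≤ -2)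
      have := kN hε hρ1 he0 he' he2 hy1 hy2 f0 f1 hα hν (by linarith) hk
      linarith
    · rw [h] at hk
      push_cast at hk
      rcases kM hε hρ1 he' he2 hy1 hy2 f0 f1 hα hβ hν hk with h' | h'
      · have : 0 < ε ^ 2 := by positivity
        linarith
      · have : 0 ≤ (1 - Int.fract s) * ε := mul_nonneg (by linarith) hε.le
        linarith
    · have h' : (0 : ℝ) ≤ ((k + ⌊s⌋ : ℤ) : ℝ) := by exact_mod_cast (by omega : 0 ≤ k + ⌊s⌋)
      have := kP hρ1 he' f0 f1 hα hβ hk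
      have h2 : 0 ≤ (1 - ρ) * Int.fract s := mul_nonneg (by linarith) f0
      have h3 : 0 ≤ (1 - ρ) * ((k + ⌊s⌋ : ℤ) : ℝ) := mul_nonneg (by linarith) h'
      linarith
  rcases Nat.lt_or_ge 1 U.card with hU | hU
  · left
    obtain ⟨i, hi, j, hj, hij⟩ := Finset.one_lt_card.1 hU
    have hj' : j ∈ U.erase i := Finset.mem_erase.2 ⟨hij.symm, hj⟩
    obtain ⟨a, b⟩ := ht i hi
    obtain ⟨a', b'⟩ := ht j hj
    have p := G_pair hc a b a' b'
    have q1 : s = (t i + t j) + ∑ l ∈ (U.erase i).erase j, t l := by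
      rw [hs, ← Finset.add_sum_erase U t hi, ← Finset.add_sum_erase (U.erase i) t hj']
      ring
    have q2 : ∑ l ∈ U, t l * (1 - t l) = (t i * (1 - t i) + t j * (1 - t j)) +
        ∑ l ∈ (U.erase i).erase j, G (t l) := by
      rw [← Finset.add_sum_erase U (fun l => t l * (1 - t l)) hi,
        ← Finset.add_sum_erase (U.erase i) (fun l => t l * (1 - t l)) hj', add_assoc]
      congr 2
      refine Finset.sum_congr rfl fun l hl => ?_
      obtain ⟨a, b⟩ := ht l (Finset.mem_of_mem_erase (Finset.mem_of_mem_erase hl))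
      rw [G_self (by linarith) (by linarith)]
    have q3 := G_sum ((U.erase i).erase j) t
    have q4 := G_add (t i + t j) (∑ l ∈ (U.erase i).erase j, t l)
    rw [← q1] at q4
    rw [q2]
    linarith
  · rcases Nat.lt_or_ge U.card 1 with hU0 | hU1
    · have hU' : U = ∅ := Finset.card_eq_zero.1 (by omega)
      have hs0 : s = 0 := by rw [hs, hU', Finset.sum_empty]
      have hz : ∑ i ∈ U, t i * (1 - t i) = 0 := by rw [hU', Finset.sum_empty]
      rw [hs0, Int.fract_zero, Int.floor_zero, add_zero] at hk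
      rw [hz]
      rcases lt_trichotomy k 0 with h | h | h
      · left
        have h' : (k : ℝ) ≤ -1 := by exact_mod_cast (by omega : k ≤ -1)
        have := kN hε hρ1 he0 he' he2 hy1 hy2 le_rfl zero_le_one hα hν (by linarith) hk
        linarith
      · right
        refine ⟨hU', h, ?_⟩
        rw [h] at hk
        push_cast at hk
        have h1 : ν = y + β - α := by linarith
        have h2 : 0 ≤ (ρ / 2 - e) * α := mul_nonneg (by linarith) hα
        have h3 : 0 ≤ (1 - e) * β := mul_nonneg (by linarith) hβ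
        have h4 : γ ≤ ρ / 2 := by
          have : c * (ρ / 2) ≤ 1 * (ρ / 2) := mul_le_mul_of_nonneg_right (by linarith) (by linarith)
          linarith
        have h5 : γ * (α + β) ≤ ρ / 2 * (α + β) := mul_le_mul_of_nonneg_right h4 (by linarith)
        have h6 : 0 ≤ (1 - ρ - ρ / 2) * β := mul_nonneg (by linarith) hβ
        subst h1
        linarith
      · left
        have h' : (1 : ℝ) ≤ (k : ℝ) := by exact_mod_cast (by omega : 1 ≤ k)
        have := kP hρ1 he' le_rfl zero_le_one hα hβ hk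
        have h3 : (1 - ρ) * 1 ≤ (1 - ρ) * (k : ℝ) := mul_le_mul_of_nonneg_left h' (by linarith)
        linarith
    · left
      have hU' : U.card = 1 := by omega
      obtain ⟨i, hi⟩ := Finset.card_eq_one.1 hU'
      have hsi : s = t i := by rw [hs, hi, Finset.sum_singleton]
      obtain ⟨a, b⟩ := ht i (by rw [hi]; exact Finset.mem_singleton_self i)
      have hfr : Int.fract s = t i := by
        rw [hsi]
        exact Int.fract_eq_self.2 ⟨by linarith, by linarith⟩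
      have hsm : ∑ i ∈ U, t i * (1 - t i) = t i * (1 - t i) := by rw [hi, Finset.sum_singleton]
      rw [hfr] at hk f0 f1
      rw [hsm]
      rcases lt_trichotomy (k + ⌊s⌋) (-1) with h | h | h
      · have h' : ((k + ⌊s⌋ : ℤ) : ℝ) ≤ -2 := by exact_mod_cast (by omega : k + ⌊s⌋ ≤ -2)
        have := kN hε hρ1 he0 he' he2 hy1 hy2 f0 f1 hα hν (by linarith) hk
        linarith
      · rw [h] at hk
        push_cast at hk
        rcases kM hε hρ1 he' he2 hy1 hy2 f0 f1 hα hβ hν hk with h' | h'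
        · linarith
        · have : c * ε ≤ (1 - t i) * ε := mul_le_mul_of_nonneg_right (by linarith) hε.le
          linarith
      · have h' : (0 : ℝ) ≤ ((k + ⌊s⌋ : ℤ) : ℝ) := by exact_mod_cast (by omega : 0 ≤ k + ⌊s⌋)
        have := kP hρ1 he' f0 f1 hα hβ hk
        have h2 : (1 - ρ) * c ≤ (1 - ρ) * t i := mul_le_mul_of_nonneg_left a (by linarith)
        have h3 : 0 ≤ (1 - ρ) * ((k + ⌊s⌋ : ℤ) : ℝ) := mul_nonneg (by linarith) h'
        linarith

end MP0c3a8f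

end

section

/-!
# MP_0c3a8f_co, upper range: rough bounds (item RGU)
-/

open Finset

namespace MP0c3a8f
namespace RGUI

theorem qq_bd {r : ℕ} (hr : 3 ≤ r) : 2 / 3 ≤ qq r ∧ qq r < 1 := by
  have h3 : (3 : ℝ) ≤ r := by exact_mod_cast hr
  unfold qq
  constructor
  · have : 1 / (r : ℝ) ≤ 1 / 3 := one_div_le_one_div_of_le (by norm_num) h3
    linarith
  · have : 0 < 1 / (r : ℝ) := by positivity
    linarith

/-- the coefficients -/
theorem coef {r : ℕ} (hr : 3 ≤ r) : 1 ≤ 2 * qq r - 1 / (4 * (r : ℝ) ^ 2) ∧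
    1 / 5 ≤ qq r * (1 - 2 / (r : ℝ) - 1 / (4 * (r : ℝ) ^ 2)) := by
  obtain ⟨hq, hq1⟩ := qq_bd hr
  have h3 : (3 : ℝ) ≤ r := by exact_mod_cast hr
  have h9 : (9 : ℝ) ≤ (r : ℝ) ^ 2 := by nlinarith
  have e1 : 1 / (4 * (r : ℝ) ^ 2) ≤ 1 / 36 :=
    one_div_le_one_div_of_le (by norm_num) (by linarith)
  have e2 : 2 / (r : ℝ) ≤ 2 / 3 := div_le_div_of_nonneg_left (by norm_num) (by norm_num) h3
  constructor
  · linarith
  · have h4 : 11 / 36 ≤ 1 - 2 / (r : ℝ) - 1 / (4 * (r : ℝ) ^ 2) := by linarith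
    nlinarith

theorem absurd_bound {q x y c : ℝ} (hq : 2 / 3 ≤ q) (hx : 0 < x) (hc : 0 ≤ c)
    (h : |q * (y * x)| ≤ c * x) : |y| ≤ 2 * c := by
  rw [abs_mul, abs_mul, abs_of_nonneg (by linarith : 0 ≤ q), abs_of_pos hx] at h
  have h3 : q * |y| ≤ c := by
    have : (q * |y|) * x ≤ c * x := by linarith
    exact le_of_mul_le_mul_right this hx
  have h4 := abs_nonneg y
  nlinarith

end RGUI

open RGUI in
theorem prfRGU : RGU_statement := by
  intro r K C C₀ hr hC hC₀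
  obtain ⟨hq, hq1⟩ := qq_bd hr
  obtain ⟨c1, c2⟩ := coef hr
  obtain ⟨M, hM⟩ : ∃ M : ℝ, M = C₀ + C + 5 * C ^ 2 / 2 := ⟨_, rfl⟩
  have hM0 : 0 ≤ M := by rw [hM]; positivity
  obtain ⟨C'', hC''⟩ : ∃ C'' : ℝ, C'' = 12 * M + 2 * K + 2 * (K : ℝ) ^ 2 + r + 2 := ⟨_, rfl⟩
  have hK : (0 : ℝ) ≤ K := by positivity
  have hr0 : (0 : ℝ) ≤ r := by positivity
  have hC0 : 0 ≤ C'' := by rw [hC'']; positivity
  have hK2 : (0 : ℝ) ≤ (K : ℝ) ^ 2 := by positivity
  refine ⟨2 * C'', 1, by positivity, ?_⟩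
  intro n n₁ B dv dT a b e ι U d hn hB hdv hdT hdT' ha hb he he' hU hd hrel h3
  have hn' : (1 : ℝ) ≤ n := by exact_mod_cast hn
  have hn₁ : (0 : ℝ) ≤ n₁ := by positivity
  have hB' : (B : ℝ) ≤ n := by exact_mod_cast hB
  have hB0 : (0 : ℝ) ≤ B := by positivity
  have hS : 0 ≤ ∑ i ∈ U, 2 * d i * (qq r - d i / n₁) := by
    refine sum_nonneg fun i hi => ?_
    obtain ⟨hi0, hi1⟩ := hd i hi
    rcases Nat.eq_zero_or_pos n₁ with h0 | h0
    · have : d i = 0 := le_antisymm (by rw [h0] at hi1; simpa using hi1) hi0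
      rw [this]; simp
    · have h0' : (0 : ℝ) < n₁ := by exact_mod_cast h0
      have : d i / n₁ ≤ qq r := by
        rw [div_le_iff₀ h0']
        exact hi1
      have : 0 ≤ qq r - d i / n₁ := by linarith
      positivity
  have hs : Real.sqrt dv * Real.sqrt dv = dv := Real.mul_self_sqrt hdv
  have ham : C * Real.sqrt dv ≤ dv / 10 + 5 * C ^ 2 / 2 := by
    have : 0 ≤ (Real.sqrt dv - 5 * C) ^ 2 / 10 := by positivity
    nlinarith
  have e1 : a + b ≤ (2 * qq r - 1 / (4 * (r : ℝ) ^ 2)) * (a + b) :=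
    le_mul_of_one_le_left (by linarith) c1
  have e2 : 1 / 5 * dv ≤ qq r * (1 - 2 / (r : ℝ) - 1 / (4 * (r : ℝ) ^ 2)) * dv :=
    mul_le_mul_of_nonneg_right c2 hdv
  have e3 : C + 5 * C ^ 2 / 2 ≤ (C + 5 * C ^ 2 / 2) * n :=
    le_mul_of_one_le_right (by positivity) hn'
  have e4 : a + b + dv / 10 ≤ M * n := by
    rw [hM]
    linarith
  have hMn : 0 ≤ M * n := by positivity
  have hab : a + b ≤ M * n := by linarith
  have hdv' : dv ≤ 10 * (M * n) := by linarith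
  have hCn : M * n ≤ C'' * n / 12 := by
    have : M ≤ C'' / 12 := by
      rw [hC'']
      linarith
    calc M * n ≤ C'' / 12 * n := by gcongr
      _ = C'' * n / 12 := by ring
  have hCn0 : 0 ≤ C'' * (n : ℝ) := by positivity
  refine ⟨by linarith, by linarith, ?_⟩
  -- the number of vertices
  have hsd : 0 ≤ ∑ i ∈ U, d i := sum_nonneg fun i hi => (hd i hi).1
  have hsdK : ∑ i ∈ U, d i ≤ K * n₁ := by
    calc ∑ i ∈ U, d i ≤ ∑ i ∈ U, (n₁ : ℝ) := sum_le_sum fun i hi => by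
          refine (hd i hi).2.trans ?_
          exact mul_le_of_le_one_left hn₁ hq1.le
      _ = U.card * n₁ := by simp
      _ ≤ K * n₁ := by gcongr
  have hup : C'' * (n + n₁) = 12 * (M * n) + 2 * K * n + 2 * (K : ℝ) ^ 2 * n + r * n + 2 * n
      + (12 * (M * n₁) + 2 * (K * n₁) + 2 * (K : ℝ) ^ 2 * n₁ + r * n₁ + 2 * n₁) := by
    rw [hC'']; ring
  have p1 : (K : ℝ) ^ 2 ≤ K ^ 2 * n := le_mul_of_one_le_right (by positivity) hn'
  have p2 : (r : ℝ) ≤ r * n := le_mul_of_one_le_right (by positivity) hn'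
  have p3 : 0 ≤ M * (n₁ : ℝ) := by positivity
  have p4 : (0 : ℝ) ≤ 2 * K ^ 2 * n₁ := by positivity
  have p5 : (0 : ℝ) ≤ r * n₁ := by positivity
  have p6 : (0 : ℝ) ≤ 2 * K * n := by positivity
  have p9 : (0 : ℝ) ≤ K * n₁ := by positivity
  have habs : |qq r * (((n₁ : ℝ) - n) * (n + n₁))| ≤ C'' * (n + n₁) := by
    have : qq r * (((n₁ : ℝ) - n) * (n + n₁))
      = dv - 2 * (∑ i ∈ U, d i) - 2 * e + 2 * a - 2 * b - dT - 2 * B := by
      linear_combination hrel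
    rw [this, abs_le, hup]
    constructor <;> linarith
  exact absurd_bound hq (by positivity) hC0 habs

end MP0c3a8f

end

section

/-!
# MP_0c3a8f_co, PB4: item S3M (the maximum of the sum of cubes and its stability)
-/

open Finset

namespace MP0c3a8f

namespace S3M

/-- the extremal value, in terms of `s = √(v (r-1)/r)` -/
lemma cr_eq {r : ℕ} (hr : 3 ≤ r) {v : ℝ} (hv : 0 < v) {s : ℝ} (hs : 0 < s)
    (hs2 : s ^ 2 = v * ((r : ℝ) - 1) / r) :
    cr r * (v * Real.sqrt v) = s * v - v ^ 2 / (r * s) := by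
  have hr3 : (3 : ℝ) ≤ r := by exact_mod_cast hr
  have hr0 : (0 : ℝ) < r := by linarith
  have hr1 : (0 : ℝ) < (r : ℝ) - 1 := by linarith
  have hq : 0 < (r : ℝ) * ((r : ℝ) - 1) := by positivity
  have hsq : Real.sqrt (r * ((r : ℝ) - 1)) = r * s / Real.sqrt v := by
    have hv' : 0 < Real.sqrt v := Real.sqrt_pos.mpr hv
    rw [eq_div_iff hv'.ne', ← Real.sqrt_mul hq.le]
    rw [Real.sqrt_eq_iff_mul_self_eq (by positivity) (by positivity)]
    have : s ^ 2 * r = v * ((r : ℝ) - 1) := by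
      rw [hs2]; field_simp
    nlinarith [this]
  have hv' : 0 < Real.sqrt v := Real.sqrt_pos.mpr hv
  have hvv : Real.sqrt v * Real.sqrt v = v := Real.mul_self_sqrt hv.le
  unfold cr
  rw [hsq]
  have h2 : s ^ 2 * r = v * ((r : ℝ) - 1) := by
    rw [hs2]; field_simp
  have h3 : ((r : ℝ) - 2) / (r * s / Real.sqrt v) * (v * Real.sqrt v)
      = ((r : ℝ) - 2) * v ^ 2 / (r * s) := by
    rw [div_div_eq_mul_div, div_mul_eq_mul_div]
    congr 1
    calc ((r : ℝ) - 2) * Real.sqrt v * (v * Real.sqrt v)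
        = ((r : ℝ) - 2) * v * (Real.sqrt v * Real.sqrt v) := by ring
      _ = ((r : ℝ) - 2) * v ^ 2 := by rw [hvv]; ring
  rw [h3]
  have hrs : (r : ℝ) * s ≠ 0 := by positivity
  rw [eq_sub_iff_add_eq, ← add_div, div_eq_iff hrs]
  calc ((r : ℝ) - 2) * v ^ 2 + v ^ 2 = v * (v * ((r : ℝ) - 1)) := by ring
    _ = v * (s ^ 2 * r) := by rw [h2]
    _ = s * v * (r * s) := by ring

end S3M

open S3M in
theorem prfS3M : S3M_statement := by
  intro r hr
  refine ⟨10, by norm_num, ?_⟩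
  intro x v Δ hx0 hx2 hv
  have hr3 : (3 : ℝ) ≤ r := by exact_mod_cast hr
  have hr0 : (0 : ℝ) < r := by linarith
  have hr1 : (0 : ℝ) < (r : ℝ) - 1 := by linarith
  haveI : Nonempty (Fin r) := ⟨⟨0, by omega⟩⟩
  obtain ⟨t₀, ht₀⟩ := Finite.exists_max x
  set M := x t₀ with hM
  have hMpos : 0 < M := by
    by_contra hcon
    push Not at hcon
    have h1 : ∀ t, x t = 0 := by
      have h2 : ∀ t ∈ (univ : Finset (Fin r)), x t ≤ 0 := fun t _ => (ht₀ t).trans hcon
      have := (Finset.sum_eq_zero_iff_of_nonpos h2).mp hx0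
      intro t; exact this t (mem_univ t)
    have : v = 0 := by rw [← hx2]; simp [h1]
    linarith
  set s := Real.sqrt (v * ((r : ℝ) - 1) / r) with hs
  have hspos : 0 < s := Real.sqrt_pos.mpr (by positivity)
  have hs2 : s ^ 2 = v * ((r : ℝ) - 1) / r := Real.sq_sqrt (by positivity)
  have hs2' : s ^ 2 * r = v * ((r : ℝ) - 1) := by rw [hs2]; field_simp
  -- the deviation from the extremal point
  have hdev : ∑ t ∈ univ.erase t₀, (x t + M / ((r : ℝ) - 1)) ^ 2
      = v - M ^ 2 * r / ((r : ℝ) - 1) := by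
    have e1 : ∑ t ∈ univ.erase t₀, x t = - M := by
      have := Finset.sum_erase_eq_sub (f := x) (mem_univ t₀)
      rw [this, hx0]; ring
    have e2 : ∑ t ∈ univ.erase t₀, x t ^ 2 = v - M ^ 2 := by
      have := Finset.sum_erase_eq_sub (f := fun t => x t ^ 2) (mem_univ t₀)
      rw [this, hx2]
    have e3 : ((univ.erase t₀ : Finset (Fin r)).card : ℝ) = (r : ℝ) - 1 := by
      rw [Finset.card_erase_of_mem (mem_univ t₀), card_univ, Fintype.card_fin,
        Nat.cast_sub (by omega)]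
      simp
    have e4 : ∀ t, (x t + M / ((r : ℝ) - 1)) ^ 2
        = x t ^ 2 + 2 * (M / ((r : ℝ) - 1)) * x t + (M / ((r : ℝ) - 1)) ^ 2 := fun t => by ring
    simp_rw [e4]
    rw [sum_add_distrib, sum_add_distrib, ← mul_sum, e1, e2, sum_const, nsmul_eq_mul, e3]
    field_simp
    ring
  have hMs : M ^ 2 ≤ s ^ 2 := by
    have h0 : 0 ≤ v - M ^ 2 * r / ((r : ℝ) - 1) := by
      rw [← hdev]; exact sum_nonneg fun t _ => sq_nonneg _
    have h1 : M ^ 2 * r / ((r : ℝ) - 1) ≤ v := by linarith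
    rw [div_le_iff₀ hr1] at h1
    rw [hs2, le_div_iff₀ hr0]
    exact h1
  have hMs' : M ≤ s := le_of_sq_le_sq hMs hspos.le
  have hsv : s ≤ Real.sqrt v := by
    apply Real.sqrt_le_sqrt
    rw [div_le_iff₀ hr0]
    nlinarith
  -- the main inequality
  have hmain : ∑ t, x t ^ 3 ≤ M * v - v ^ 2 / (r * M) := by
    set μ := v / (r * M) with hμ
    have hμpos : 0 < μ := by positivity
    have h0 : ∑ t, (x t - M) * (x t + μ) ^ 2 ≤ 0 :=
      sum_nonpos fun t _ => mul_nonpos_of_nonpos_of_nonneg (sub_nonpos.mpr (ht₀ t)) (sq_nonneg _)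
    have e4 : ∀ t, (x t - M) * (x t + μ) ^ 2
        = x t ^ 3 + (2 * μ - M) * x t ^ 2 + (μ ^ 2 - 2 * μ * M) * x t - M * μ ^ 2 :=
      fun t => by ring
    simp_rw [e4] at h0
    rw [sum_sub_distrib, sum_add_distrib, sum_add_distrib, ← mul_sum, ← mul_sum, hx0, hx2,
      sum_const, card_univ, Fintype.card_fin, nsmul_eq_mul] at h0
    have h1 : (r : ℝ) * (M * μ ^ 2) = μ * v := by
      rw [hμ]; field_simp
    have h2 : μ * v = v ^ 2 / (r * M) := by
      rw [hμ]; ring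
    rw [← h2]
    linarith only [h0, h1]
  have hgap : ∑ t, x t ^ 3 ≤ cr r * (v * Real.sqrt v) - (s - M) * v := by
    rw [cr_eq hr hv hspos hs2]
    have h1 : v ^ 2 / (r * s) ≤ v ^ 2 / (r * M) := by
      apply div_le_div_of_nonneg_left (by positivity) (by positivity)
      exact mul_le_mul_of_nonneg_left hMs' hr0.le
    linarith only [h1, hmain]
  refine ⟨?_, ?_⟩
  · have : 0 ≤ (s - M) * v := mul_nonneg (sub_nonneg.mpr hMs') hv.le
    linarith
  · intro hΔ
    have hd : (s - M) * v ≤ Δ := by linarith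
    have hdv : s - M ≤ Δ / v := by rw [le_div_iff₀ hv]; exact hd
    have hΔ0 : 0 ≤ Δ / v := (sub_nonneg.mpr hMs').trans hdv
    refine ⟨t₀, ?_, ?_⟩
    · rw [abs_le]
      have : 10 * Δ / v = 10 * (Δ / v) := by ring
      rw [this]
      constructor <;> linarith
    · intro t ht
      have hsq : 0 < Real.sqrt v := Real.sqrt_pos.mpr hv
      have hvv : Real.sqrt v * Real.sqrt v = v := Real.mul_self_sqrt hv.le
      have hD : Real.sqrt v * (Δ / v) = Δ / Real.sqrt v := by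
        rw [eq_div_iff hsq.ne']
        calc Real.sqrt v * (Δ / v) * Real.sqrt v = (Real.sqrt v * Real.sqrt v) * (Δ / v) := by ring
          _ = Δ := by rw [hvv]; field_simp
      have hsm : s * (s - M) ≤ Δ / Real.sqrt v := by
        rw [← hD]
        exact mul_le_mul hsv hdv (sub_nonneg.mpr hMs') hsq.le
      have h1 : (x t + M / ((r : ℝ) - 1)) ^ 2 ≤ v - M ^ 2 * r / ((r : ℝ) - 1) := by
        rw [← hdev]
        exact single_le_sum (f := fun t => (x t + M / ((r : ℝ) - 1)) ^ 2)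
          (fun t _ => sq_nonneg _) (mem_erase.mpr ⟨ht, mem_univ t⟩)
      have h2 : v - M ^ 2 * r / ((r : ℝ) - 1) = (r / ((r : ℝ) - 1)) * (s ^ 2 - M ^ 2) := by
        have : v = s ^ 2 * r / ((r : ℝ) - 1) := by rw [hs2']; field_simp
        rw [this]; ring
      have h3 : (r : ℝ) / ((r : ℝ) - 1) ≤ 3 / 2 := by
        rw [div_le_iff₀ hr1]; linarith
      have h4 : s ^ 2 - M ^ 2 ≤ 2 * (s * (s - M)) := by nlinarith [hMs', hMpos, hspos]
      have h40 : 0 ≤ s ^ 2 - M ^ 2 := by linarith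
      have h5 : (x t + M / ((r : ℝ) - 1)) ^ 2 ≤ 3 * (s * (s - M)) := by
        calc (x t + M / ((r : ℝ) - 1)) ^ 2 ≤ (r / ((r : ℝ) - 1)) * (s ^ 2 - M ^ 2) := by
              rw [← h2]; exact h1
          _ ≤ 3 / 2 * (s ^ 2 - M ^ 2) := mul_le_mul_of_nonneg_right h3 h40
          _ ≤ 3 * (s * (s - M)) := by linarith only [h4]
      have h6 : ((s - M) / ((r : ℝ) - 1)) ^ 2 ≤ s * (s - M) := by
        have h7 : (s - M) / ((r : ℝ) - 1) ≤ s - M := by
          apply div_le_self (sub_nonneg.mpr hMs'); linarith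
        have h8 : 0 ≤ (s - M) / ((r : ℝ) - 1) := div_nonneg (sub_nonneg.mpr hMs') hr1.le
        calc ((s - M) / ((r : ℝ) - 1)) ^ 2 ≤ (s - M) ^ 2 := pow_le_pow_left₀ h8 h7 2
          _ = (s - M) * (s - M) := by ring
          _ ≤ s * (s - M) := mul_le_mul_of_nonneg_right (by linarith) (sub_nonneg.mpr hMs')
      have h9 : x t + s / ((r : ℝ) - 1) = (x t + M / ((r : ℝ) - 1)) + (s - M) / ((r : ℝ) - 1) := by
        ring
      have h10 : (x t + s / ((r : ℝ) - 1)) ^ 2 ≤ 2 * (x t + M / ((r : ℝ) - 1)) ^ 2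
          + 2 * ((s - M) / ((r : ℝ) - 1)) ^ 2 := by
        rw [h9]
        linarith only [sq_nonneg ((x t + M / ((r : ℝ) - 1)) - (s - M) / ((r : ℝ) - 1))]
      have h11 : 0 ≤ Δ / Real.sqrt v := by rw [← hD]; exact mul_nonneg hsq.le hΔ0
      calc (x t + s / ((r : ℝ) - 1)) ^ 2 ≤ 8 * (s * (s - M)) := by linarith only [h10, h5, h6]
        _ ≤ 8 * (Δ / Real.sqrt v) := by linarith only [hsm]
        _ ≤ 10 * Δ / Real.sqrt v := by
          have : 10 * Δ / Real.sqrt v = 10 * (Δ / Real.sqrt v) := by ring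
          rw [this]; linarith only [h11]

end MP0c3a8f

end

section

/-!
# MP_0c3a8f_co, phase B, item STU: the rough structure in the upper range

The structure of the proof is the one of item STRB (helper33).
-/

set_option autoImplicit false

open Finset

namespace MP0c3a8f

namespace ItemSTU

/-- the number of edges of the Turán graph -/
theorem turan (hD : DEV_statement) (r n : ℕ) (hr : 1 ≤ r) :
    ∑ t, tz r n t = n ∧ 0 ≤ dev (tz r n) ∧ dev (tz r n) ≤ r ∧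
      2 * ((SimpleGraph.turanGraph n r).edgeSet.ncard : ℝ) = qq r * (n : ℝ) ^ 2 - dev (tz r n) := by
  classical
  have h0 : ∑ t, (Pi.single (⟨0, hr⟩ : Fin r) n : Fin r → ℕ) t = n := by
    rw [Finset.sum_pi_single']
    simp
  obtain ⟨h1, -, h2, -, -, h3⟩ := hD r n _ hr h0
  obtain ⟨-, -, -, h4, -, -⟩ := hD r n (tz r n) hr h1
  refine ⟨h1, Finset.sum_nonneg fun t _ => sq_nonneg _, h2, ?_⟩
  unfold Sz at h3
  rw [h1] at h3
  have h5 : 2 * ((SimpleGraph.turanGraph n r).edgeSet.ncard : ℝ) + ∑ t, (tz r n t : ℝ) ^ 2 =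
      (n : ℝ) ^ 2 := by
    have h6 : 2 * (SimpleGraph.turanGraph n r).edgeSet.ncard + ∑ t, tz r n t ^ 2 = n ^ 2 := by
      omega
    exact_mod_cast h6
  rw [h4]
  unfold qq
  linear_combination h5

/-- the range of `B` -/
theorem Ble (r n B : ℕ) (ε : ℝ) (hr : 3 ≤ r) (hε : 0 < ε) (h : RU r n B ε) : (B : ℝ) ≤ n := by
  have hr3 : (3 : ℝ) ≤ r := by exact_mod_cast hr
  have h1 : 2 / (r : ℝ) ≤ 2 / 3 := div_le_div_of_nonneg_left (by norm_num) (by norm_num) hr3
  have hq2 : qq r ≤ 1 := by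
    unfold qq
    have : 0 < 1 / (r : ℝ) := by positivity
    linarith
  have hq0 : 0 ≤ qq r := by
    unfold qq
    have : 1 / (r : ℝ) ≤ 1 / 3 := one_div_le_one_div_of_le (by norm_num) hr3
    linarith
  have hn : (0 : ℝ) ≤ n := Nat.cast_nonneg n
  have h2 : (2 / (r : ℝ) - ε) * (qq r * n) ≤ 1 * (qq r * n) :=
    mul_le_mul_of_nonneg_right (by linarith) (by positivity)
  have h3 : qq r * n ≤ 1 * n := mul_le_mul_of_nonneg_right hq2 hn
  have h4 := h.2
  linarith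

theorem lower (n m q dT B r : ℝ) (hq : 2 / 3 ≤ q) (hdT : dT ≤ r) (hB : B ≤ n) (hr : 0 ≤ r)
    (hn : 12 + r ≤ n) (hm : 2 * m = q * n ^ 2 - dT - 2 * B) :
    n ^ 2 / 4 ≤ m ∧ n / 2 ≤ Real.sqrt m := by
  have h1 : (12 + r) * n ≤ n ^ 2 := by nlinarith
  have h2 : 2 / 3 * n ^ 2 ≤ q * n ^ 2 := mul_le_mul_of_nonneg_right hq (sq_nonneg n)
  have h4 : r * 6 ≤ r * n := mul_le_mul_of_nonneg_left (by linarith) hr
  have h3 : n ^ 2 / 4 ≤ m := by linarith
  refine ⟨h3, ?_⟩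
  apply Real.le_sqrt_of_sq_le
  have : (n / 2) ^ 2 = n ^ 2 / 4 := by ring
  rw [this]
  exact h3

theorem big (m₀ : ℕ) (n m : ℝ) (h : 2 * (m₀ : ℝ) ≤ n) (hm : n ^ 2 / 4 ≤ m) : (m₀ : ℝ) ≤ m := by
  have h1 : (m₀ : ℝ) ≤ (m₀ : ℝ) ^ 2 := by
    rcases Nat.eq_zero_or_pos m₀ with h | h
    · rw [h]; norm_num
    · have e3 : (1 : ℝ) ≤ m₀ := by exact_mod_cast h
      nlinarith
  have h2 : (2 * (m₀ : ℝ)) ^ 2 ≤ n ^ 2 := by gcongr
  linarith

theorem kap (q s B n c : ℝ) (hq0 : 0 ≤ q) (hq : q ≤ 1) (hs0 : 0 ≤ s) (hs : s ≤ 1) (hB0 : 0 ≤ B)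
    (hB : B ≤ n) (hn : 1 ≤ n) (hc : 0 ≤ c) :
    2 * q * s * B + c * Real.sqrt n ≤ (2 + c) * n := by
  have h1 : q * s ≤ 1 := mul_le_one₀ hq hs0 hs
  have h2 : q * s * B ≤ 1 * B := mul_le_mul_of_nonneg_right h1 hB0
  have h3 : Real.sqrt n ≤ n := by
    rw [Real.sqrt_le_left (by linarith)]
    nlinarith
  have h4 : c * Real.sqrt n ≤ c * n := mul_le_mul_of_nonneg_left h3 hc
  linarith

theorem ksq (n s c : ℝ) (hn : 0 ≤ n) (hs : n / 2 ≤ s) (hc : 0 ≤ c) :
    (2 + c) * n ≤ (10 + 4 * c) * s := by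
  have e1 : (10 + 4 * c) * (n / 2) ≤ (10 + 4 * c) * s :=
    mul_le_mul_of_nonneg_left hs (by linarith)
  have e2 : 0 ≤ c * n := mul_nonneg hc hn
  linarith

/-- monotonicity of `Flat` -/
theorem flat_mono {V : Type} [Fintype V] {r : ℕ} {δ δ' : ℝ} {G : SimpleGraph V} {z : V → ℝ}
    {g : V → Option (Fin r)} {U : Finset V} {m : ℕ} (h : Flat r δ' G z g U m) (hle : δ' ≤ δ) :
    Flat r δ G z g U m := by
  refine ⟨h.zd, h.indep, fun v hv => (h.core v hv).trans hle,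
    fun v hv hvU => (h.light v hv hvU).trans hle, fun v => (h.bd v).trans (by linarith), h.exc,
    le_trans ?_ h.low, h.up⟩
  exact mul_le_mul_of_nonneg_right (by linarith) (Nat.cast_nonneg m)

end ItemSTU

theorem prfSTU : P_statement → EDG_statement → ROUGH_statement → MAIN_statement →
    MAINU_statement → CNTU_statement → RGU_statement → OPU_statement → DEV_statement →
    STU_statement := by
  classical
  intro _ _ hRo hMa hMu hCn hRg' hOp hDe W _ F r ε C₀ δ hr hcrit hcol hε hC0 hδ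
  have hr1 : 1 ≤ r := by omega
  have hr0 : (0 : ℝ) < r := by exact_mod_cast hr1
  have hr3 : (3 : ℝ) ≤ r := by exact_mod_cast hr
  have hq1 : 2 / 3 ≤ qq r := by
    unfold qq
    have : 1 / (r : ℝ) ≤ 1 / 3 := one_div_le_one_div_of_le (by norm_num) hr3
    linarith
  have hq0 : 0 < qq r := by linarith
  have hq2 : qq r ≤ 1 := by
    unfold qq
    have : 0 < 1 / (r : ℝ) := by positivity
    linarith
  have hs1 : 1 - 2 / (r : ℝ) ≤ 1 := by
    have : 0 < 2 / (r : ℝ) := by positivity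
    linarith
  have hs0 : 0 ≤ 1 - 2 / (r : ℝ) := by
    have h1 : 2 / (r : ℝ) ≤ 2 / 3 := div_le_div_of_nonneg_left (by norm_num) (by norm_num) hr3
    linarith
  obtain ⟨δM, hδM, hMa1⟩ := hMa r (1 / (4 * (r : ℝ) ^ 2)) hr (by positivity)
  obtain ⟨δU, hδU, hMu1⟩ := hMu r hr
  obtain ⟨δ1, hδ1, hd1, hd2, hd3, hd4⟩ : ∃ δ1 : ℝ, 0 < δ1 ∧ δ1 ≤ δ ∧ δ1 ≤ δM ∧ δ1 ≤ δU ∧
      δ1 ≤ 1 / (40 * (r : ℝ)) := by
    refine ⟨min δ (min δM (min δU (1 / (40 * (r : ℝ))))), ?_, min_le_left _ _, ?_, ?_, ?_⟩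
    · exact lt_min hδ (lt_min hδM (lt_min hδU (by positivity)))
    · exact (min_le_right _ _).trans (min_le_left _ _)
    · exact (min_le_right _ _).trans ((min_le_right _ _).trans (min_le_left _ _))
    · exact (min_le_right _ _).trans ((min_le_right _ _).trans (min_le_right _ _))
  obtain ⟨K, m₀, hRo1⟩ := hRo W F r (10 + 4 * C₀) hr hcrit hcol _ hδ1 hd4
  obtain ⟨C5, n₁, hC5, hMa2⟩ := hMa1 _ hδ1 hd2 K
  obtain ⟨C1, n₂, hC1, hRg1⟩ := hRg' r K C5 (2 + C₀) hr hC5 (by linarith)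
  obtain ⟨C6, n₃, hC6, hMu2⟩ := hMu1 _ hδ1 hd3 K (2 * C1) (by linarith)
  have hc : δ1 / 2 < 1 / (r : ℝ) := by
    have e1 : 1 / (40 * (r : ℝ)) = 1 / (r : ℝ) / 40 := by
      field_simp
    have e2 : 0 < 1 / (r : ℝ) := by positivity
    rw [e1] at hd4
    linarith
  obtain ⟨N, n₄, hOp1⟩ := hOp r K ε (δ1 / 2) (max C1 (2 * C6 + C₀)) hr hε (by linarith) hc
    (hC1.trans (le_max_left _ _))
  obtain ⟨n₅, hn₅⟩ := exists_nat_ge C1
  refine ⟨N, max (2 * n₁) (max n₂ (max (2 * n₃) (max n₄ (max n₅ (max (2 * m₀) (12 + r)))))),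
    fun n hn B hB V _ G hfree hm hk => ?_⟩
  simp only [max_le_iff] at hn
  obtain ⟨h1, h2, h3, h4, h5, h6, h7⟩ := hn
  have hn1 : (1 : ℝ) ≤ n := by exact_mod_cast (by omega : 1 ≤ n)
  have hn0 : (0 : ℝ) < n := by linarith
  obtain ⟨ht1, ht2, ht3, ht4⟩ := ItemSTU.turan hDe r n hr1
  have hB0 : (0 : ℝ) ≤ B := Nat.cast_nonneg B
  have hBn : (B : ℝ) ≤ n := ItemSTU.Ble r n B ε hr hε hB
  have hBn' : B ≤ n := by exact_mod_cast hBn
  have hm' : (G.edgeSet.ncard : ℝ) + B = ((SimpleGraph.turanGraph n r).edgeSet.ncard : ℝ) := by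
    exact_mod_cast hm
  have hm2 : 2 * (G.edgeSet.ncard : ℝ) = qq r * (n : ℝ) ^ 2 - dev (tz r n) - 2 * B := by
    linarith
  obtain ⟨hml, hsq⟩ := ItemSTU.lower n G.edgeSet.ncard (qq r) (dev (tz r n)) B r hq1 ht3 hBn
    hr0.le (by exact_mod_cast h7) hm2
  have hk' : 2 * qq r * G.edgeSet.ncard - lam G ^ 2
      ≤ 2 * qq r * (1 - 2 / (r : ℝ)) * B + C₀ * Real.sqrt n := hk
  have hk1 : 2 * qq r * G.edgeSet.ncard - lam G ^ 2 ≤ (2 + C₀) * n :=
    hk'.trans (ItemSTU.kap (qq r) (1 - 2 / (r : ℝ)) B n C₀ hq0.le hq2 hs0 hs1 hB0 hBn hn1 hC0)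
  have hk2 : 2 * qq r * G.edgeSet.ncard - lam G ^ 2
      ≤ (10 + 4 * C₀) * Real.sqrt G.edgeSet.ncard :=
    hk1.trans (ItemSTU.ksq _ _ _ hn0.le hsq hC0)
  have hm0 : m₀ ≤ G.edgeSet.ncard := by
    have e1 : 2 * (m₀ : ℝ) ≤ n := by exact_mod_cast h6
    have e2 : (m₀ : ℝ) ≤ G.edgeSet.ncard := ItemSTU.big m₀ n _ e1 hml
    exact_mod_cast e2
  obtain ⟨z, g, U, hRg⟩ := hRo1 V G hfree hm0 hk2
  set n' : ℕ := ∑ t, siz g t with hn'
  have hn'1 : (n : ℝ) / 2 ≤ n' := by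
    have e1 : (G.edgeSet.ncard : ℝ) ≤ (n' : ℝ) ^ 2 := hRg.nn
    have e2 : Real.sqrt G.edgeSet.ncard ≤ n' := by
      rw [Real.sqrt_le_left (Nat.cast_nonneg n')]
      exact e1
    linarith
  have hn'2 : n₁ ≤ n' := by
    have e1 : 2 * (n₁ : ℝ) ≤ n := by exact_mod_cast h1
    have e2 : (n₁ : ℝ) ≤ n' := by linarith
    exact_mod_cast e2
  have hn'3 : n₃ ≤ n' := by
    have e1 : 2 * (n₃ : ℝ) ≤ n := by exact_mod_cast h3
    have e2 : (n₃ : ℝ) ≤ n' := by linarith
    exact_mod_cast e2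
  have hmain := hMa2 V G z g U n' hRg hn'2 hn'.symm
  obtain ⟨e, he1, he2⟩ := hCn r V G g U hRg.flat.indep hRg.flat.exc
  obtain ⟨-, -, -, hdv, -, -⟩ := hDe r n' (siz g) hr1 hn'.symm
  have heK : (e : ℝ) ≤ (K : ℝ) ^ 2 := by
    have e1 : U.card * (U.card - 1) ≤ K * K :=
      Nat.mul_le_mul hRg.cardU ((Nat.sub_le _ _).trans hRg.cardU)
    have e2 : e ≤ K ^ 2 := by
      rw [sq]
      omega
    exact_mod_cast e2
  have heq : qq r * (n' : ℝ) ^ 2 - dev (siz g)
      + 2 * ∑ i ∈ U, ((∑ t, nbn G g i t : ℕ) : ℝ) + 2 * (e : ℝ)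
      - 2 * ((missSet G g).ncard : ℝ) + 2 * ((lightSet G g U).ncard : ℝ)
      = qq r * (n : ℝ) ^ 2 - dev (tz r n) - 2 * B := by
    rw [← hm2]
    rw [← hn'] at he2
    have e1 : 2 * (G.edgeSet.ncard : ℝ) + 2 * ((missSet G g).ncard : ℝ)
        + ∑ t, (siz g t : ℝ) ^ 2 = (n' : ℝ) ^ 2
          + 2 * (∑ v ∈ U, ((∑ t, nbn G g v t : ℕ) : ℝ)) + 2 * e
          + 2 * ((lightSet G g U).ncard : ℝ) := by exact_mod_cast he2
    rw [hdv]
    unfold qq
    linear_combination -e1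
  have hdev0 : 0 ≤ dev (siz g) := Finset.sum_nonneg fun t _ => sq_nonneg _
  have hqn' : 0 ≤ qq r * (n' : ℝ) := by positivity
  obtain ⟨-, hrd, hrn⟩ := hRg1 n n' B (dev (siz g)) (dev (tz r n)) ((missSet G g).ncard)
    ((lightSet G g U).ncard) e V U (fun v => ((∑ t, nbn G g v t : ℕ) : ℝ)) h2 hBn'
    hdev0 ht2 ht3 (Nat.cast_nonneg _) (Nat.cast_nonneg _) (Nat.cast_nonneg _) heK hRg.cardU
    (fun v hv => ⟨Nat.cast_nonneg _, (hRg.degU v hv).2.trans (by
      have e1 : (1 - δ1 / 2) * (qq r * (n' : ℝ)) ≤ 1 * (qq r * (n' : ℝ)) :=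
        mul_le_mul_of_nonneg_right (by linarith) hqn'
      linarith)⟩) heq (hmain.trans hk1)
  have hmainU := hMu2 V G z g U n' hRg hn'3 hn'.symm (by
    have e1 : C1 * n ≤ 2 * C1 * n' := by
      have := mul_le_mul_of_nonneg_left hn'1 hC1
      linarith
    linarith)
  have hsn' : Real.sqrt n' ≤ 2 * Real.sqrt n := by
    have e1 : (n' : ℝ) ≤ 4 * n := by
      have e2 : C1 ≤ n := hn₅.trans (by exact_mod_cast h5)
      have e3 := (abs_le.1 hrn).2
      linarith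
    have e2 : Real.sqrt (4 * n) = 2 * Real.sqrt n := by
      rw [Real.sqrt_mul (by norm_num), show (4 : ℝ) = 2 ^ 2 by norm_num,
        Real.sqrt_sq (by norm_num)]
    rw [← e2]
    exact Real.sqrt_le_sqrt e1
  have hC6s : C6 * Real.sqrt n' ≤ C6 * (2 * Real.sqrt n) := mul_le_mul_of_nonneg_left hsn' hC6
  have hsn0 : 0 ≤ Real.sqrt n := Real.sqrt_nonneg _
  obtain ⟨hU0, hnn, hbd⟩ := hOp1 n n' B (dev (siz g)) (dev (tz r n)) ((missSet G g).ncard)
    ((lightSet G g U).ncard) e V U (fun v => ((∑ t, nbn G g v t : ℕ) : ℝ)) h4 hB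
    hdev0 ht2 ht3 (Nat.cast_nonneg _) (Nat.cast_nonneg _) (Nat.cast_nonneg _) heK hRg.cardU
    (hrn.trans (le_max_left _ _)) hRg.degU heq (by
      have e1 : (2 * C6 + C₀) * Real.sqrt n ≤ max C1 (2 * C6 + C₀) * Real.sqrt n :=
        mul_le_mul_of_nonneg_right (le_max_right _ _) hsn0
      linarith)
  subst hU0
  exact ⟨z, g, ItemSTU.flat_mono hRg.flat hd1, hnn, hbd⟩

end MP0c3a8f

end

section

/-! Item UPU (helper55): lower bound for the defect in the upper range. -/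

set_option autoImplicit false

open Finset

namespace MP0c3a8f

theorem prfUPU : CNTU_statement → COMPU_statement → KWS_statement → UPU_statement := by
  intro hC hP hK r C hr hC0
  obtain ⟨C', n₀, hn₀⟩ := hK r C hr hC0
  refine ⟨C', n₀, ?_⟩
  intro V _ δ G z g n hδ0 hδ1 hF hn hsum hdev
  have hexc : ∀ v ∈ (∅ : Finset V), g v = none := fun v hv => absurd hv (Finset.notMem_empty v)
  obtain ⟨e, he, hE⟩ := hC r V G g ∅ hF.indep hexc
  have he0 : e = 0 := by simp at he; exact he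
  rw [he0, sum_empty] at hE
  have hcomp := hP r δ V G z g ∅ _ hr hδ0 hδ1 hF rfl
  set a : ℝ := ((missSet G g).ncard : ℝ) with ha
  set b : ℝ := ((lightSet G g ∅).ncard : ℝ) with hbb
  have hb0 : 0 ≤ b := by positivity
  have hsec := (abs_le.1 (hn₀ V (KU G g ∅) g n (ItemLBG.isKU G g ∅ hexc) hn hsum hdev).1).2
  have hEr : (2 : ℝ) * G.edgeSet.ncard + 2 * a + ∑ t, (siz g t : ℝ) ^ 2
      = (∑ t, (siz g t : ℝ)) ^ 2 + 2 * b := by
    have := congrArg (Nat.cast : ℕ → ℝ) hE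
    push_cast at this
    linarith
  have hr' : (r : ℝ) ≠ 0 := by positivity
  have hdv := ItemLBG.dev_eq (by omega : 1 ≤ r) (siz g)
  have hsr : ∑ t, (siz g t : ℝ) = n := by exact_mod_cast hsum
  rw [hsr] at hEr hdv
  have hq : qq r * (n : ℝ) ^ 2 = (n : ℝ) ^ 2 - (n : ℝ) ^ 2 / r := by
    unfold qq; field_simp
  have hE2 : (2 : ℝ) * G.edgeSet.ncard = (qq r * (n : ℝ) ^ 2 - dev (siz g)) - 2 * a + 2 * b := by
    rw [hq, hdv]; linarith
  have hqE : 2 * qq r * (G.edgeSet.ncard : ℝ) =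
      qq r * (qq r * (n : ℝ) ^ 2 - dev (siz g)) - 2 * qq r * a + 2 * qq r * b := by
    have : 2 * qq r * (G.edgeSet.ncard : ℝ) = qq r * (2 * G.edgeSet.ncard) := by ring
    rw [this, hE2]; ring
  have hq2 : qq r * (1 - 2 / (r : ℝ)) * dev (siz g)
      = 2 * qq r ^ 2 * dev (siz g) - qq r * dev (siz g) := by
    unfold qq
    field_simp
    ring
  have h8 : 8 * δ * b ≤ 10 * δ * b := by nlinarith [mul_nonneg hδ0.le hb0]
  unfold Def
  rw [hqE, hq2]
  linarith [hcomp, hsec, h8]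

end MP0c3a8f

end

section

/-!
# MP_0c3a8f_co, phase B, item FINA: all maximisers for all sufficiently large `m`
-/

open Finset

namespace MP0c3a8f

namespace ItemFINA

theorem qq_bd {r : ℕ} (hr : 3 ≤ r) : 2 / 3 ≤ qq r ∧ qq r ≤ 1 := by
  have hR : (3 : ℝ) ≤ r := by exact_mod_cast hr
  have h1 : (1 : ℝ) / r ≤ 1 / 3 := one_div_le_one_div_of_le (by norm_num) hR
  have h2 : (0 : ℝ) ≤ 1 / r := by positivity
  unfold qq
  constructor <;> linarith

theorem cr_nonneg {r : ℕ} (hr : 3 ≤ r) : 0 ≤ cr r := by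
  have hR : (3 : ℝ) ≤ r := by exact_mod_cast hr
  exact div_nonneg (by linarith) (Real.sqrt_nonneg _)

theorem eT_zero (r : ℕ) : (SimpleGraph.turanGraph 0 r).edgeSet.ncard = 0 := by
  have : (SimpleGraph.turanGraph 0 r).edgeSet = ∅ := Set.eq_empty_of_isEmpty _
  rw [this, Set.ncard_empty]

theorem eT_le (hT : TURN_statement) {r : ℕ} (hr : 2 ≤ r) (n : ℕ) :
    (SimpleGraph.turanGraph n r).edgeSet.ncard ≤
      (SimpleGraph.turanGraph (n + 1) r).edgeSet.ncard := by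
  have h1 := hT r n (by omega)
  have h2 : n / r ≤ n := Nat.div_le_self n r
  omega

theorem eT_lt (hT : TURN_statement) {r : ℕ} (hr : 2 ≤ r) {n : ℕ} (hn : 1 ≤ n) :
    (SimpleGraph.turanGraph n r).edgeSet.ncard <
      (SimpleGraph.turanGraph (n + 1) r).edgeSet.ncard := by
  have h1 := hT r n (by omega)
  have h2 : n / r < n := Nat.div_lt_self (by omega) (by omega)
  omega

theorem eT_ge (hT : TURN_statement) {r : ℕ} (hr : 2 ≤ r) (n : ℕ) :
    n ≤ (SimpleGraph.turanGraph n r).edgeSet.ncard + 1 := by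
  induction n with
  | zero => omega
  | succ n ih =>
    rcases Nat.eq_zero_or_pos n with h | h
    · subst h
      omega
    · have := eT_lt hT hr h
      omega

theorem pick (hT : TURN_statement) {r : ℕ} (hr : 2 ≤ r) (n₀ m : ℕ)
    (hm : (SimpleGraph.turanGraph n₀ r).edgeSet.ncard ≤ m) :
    ∃ n D B : ℕ, n₀ ≤ n ∧ (SimpleGraph.turanGraph n r).edgeSet.ncard + D = m ∧
      m + B = (SimpleGraph.turanGraph (n + 1) r).edgeSet.ncard ∧ D + B + n / r = n := by
  have hmono : Monotone (fun n => (SimpleGraph.turanGraph n r).edgeSet.ncard) :=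
    monotone_nat_of_le_succ (fun n => eT_le hT hr n)
  have hex : ∃ k, m < (SimpleGraph.turanGraph k r).edgeSet.ncard := by
    refine ⟨m + 3, ?_⟩
    have := eT_ge hT hr (m + 3)
    omega
  classical
  obtain ⟨k, hk, hmin⟩ : ∃ k, m < (SimpleGraph.turanGraph k r).edgeSet.ncard ∧
      ∀ j < k, ¬ m < (SimpleGraph.turanGraph j r).edgeSet.ncard :=
    ⟨Nat.find hex, Nat.find_spec hex, fun j hj => Nat.find_min hex hj⟩
  obtain _ | n := k
  · rw [eT_zero] at hk
    exact absurd hk (Nat.not_lt_zero _)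
  · have h1 : (SimpleGraph.turanGraph n r).edgeSet.ncard ≤ m := not_lt.1 (hmin n (by omega))
    have h2 := hT r n (by omega)
    have h3 : n / r ≤ n := Nat.div_le_self n r
    refine ⟨n, m - (SimpleGraph.turanGraph n r).edgeSet.ncard,
      (SimpleGraph.turanGraph (n + 1) r).edgeSet.ncard - m, ?_, by omega, by omega, by omega⟩
    by_contra hlt
    have h4 : n + 1 ≤ n₀ := by omega
    have h5 := hmono h4
    simp only at h5
    omega

theorem altI_mono {V : Type} [Fintype V] {r n D N N' : ℕ} {G : SimpleGraph V} (h : N ≤ N')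
    (hA : AltI r n D N G) : AltI r n D N' G := by
  obtain ⟨h1, g, w, hb, h2⟩ := hA
  have hN : (N : ℝ) ≤ N' := by exact_mod_cast h
  refine ⟨h1.trans hN, g, w, ⟨hb.indep, hb.out, hb.tot, hb.bnd.trans hN⟩, ?_⟩
  intro h3 h4
  exact h2 (h.trans h3) ((Nat.mul_le_mul_right D h).trans h4)

theorem altII_mono {V : Type} [Fintype V] {r n B N N' : ℕ} {G : SimpleGraph V} (h : N ≤ N')
    (hA : AltII r n B N G) : AltII r n B N' G := by
  obtain ⟨h1, g, hi, ht, h2, t₀, h3, h4⟩ := hA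
  have hN : (N : ℝ) ≤ N' := by exact_mod_cast h
  have hs : (0 : ℝ) ≤ Real.sqrt (Real.sqrt n) := Real.sqrt_nonneg _
  have hs2 : (0 : ℝ) ≤ n * Real.sqrt (Real.sqrt n) := by positivity
  exact ⟨h1.trans (mul_le_mul_of_nonneg_right hN hs), g, hi, ht,
    h2.trans (mul_le_mul_of_nonneg_right hN hs), t₀,
    h3.trans (mul_le_mul_of_nonneg_right hN hs2), fun t htt =>
      (h4 t htt).trans (mul_le_mul_of_nonneg_right hN hs2)⟩

theorem root_succ {n : ℕ} (hn : 1 ≤ n) : 1 ≤ Real.sqrt (Real.sqrt n) ∧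
    Real.sqrt (Real.sqrt ((n + 1 : ℕ) : ℝ)) ≤ 2 * Real.sqrt (Real.sqrt n) := by
  have h1 : (1 : ℝ) ≤ n := by exact_mod_cast hn
  refine ⟨Real.one_le_sqrt.2 (Real.one_le_sqrt.2 h1), ?_⟩
  have h2 : ((n + 1 : ℕ) : ℝ) ≤ 4 ^ 2 * n := by
    push_cast
    linarith
  have h3 : Real.sqrt ((n + 1 : ℕ) : ℝ) ≤ 4 * Real.sqrt n := by
    refine (Real.sqrt_le_sqrt h2).trans (le_of_eq ?_)
    rw [Real.sqrt_mul (by norm_num), Real.sqrt_sq (by norm_num)]
  refine (Real.sqrt_le_sqrt h3).trans (le_of_eq ?_)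
  have h4 : (4 : ℝ) = 2 ^ 2 := by norm_num
  rw [h4, Real.sqrt_mul (by norm_num), Real.sqrt_sq (by norm_num)]

theorem def_le {V U : Type} [Fintype V] [Fintype U] {r m : ℕ} {G : SimpleGraph V}
    {H : SimpleGraph U} (hG : G.edgeSet.ncard = m) (hH : H.edgeSet.ncard = m)
    (h0 : 0 ≤ lam H) (hl : lam H ≤ lam G) : Def r G ≤ Def r H := by
  unfold Def
  rw [hG, hH]
  have : lam H ^ 2 ≤ lam G ^ 2 := pow_le_pow_left₀ h0 hl 2
  linarith

theorem max_le (hP : P_statement) {W V U : Type} [Fintype V] [Fintype U] {r m : ℕ}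
    {F : SimpleGraph W} {G : SimpleGraph V} {H : SimpleGraph U} (hG : IsMaximiser r m F G)
    (hH : InN r m F H) : Def r G ≤ Def r H := by
  have hne : Nonempty U := by
    by_contra h
    rw [not_nonempty_iff] at h
    exact hH.notPartite (SimpleGraph.Colorable.of_isEmpty (G := H) r)
  exact def_le hG.1.size hH.size (hP U H).1 (hG.2 U H hH)

/-- `AB ≤ 2 B` -/
theorem AB_le {r : ℕ} (hr : 3 ≤ r) (n B : ℕ) : AB r n B ≤ 2 * B := by
  obtain ⟨hq0, hq1⟩ := qq_bd hr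
  have hc := cr_nonneg hr
  have hR : (3 : ℝ) ≤ r := by exact_mod_cast hr
  have hB : (0 : ℝ) ≤ B := Nat.cast_nonneg B
  have h2 : (0 : ℝ) ≤ 2 / r := by positivity
  have h3 : (2 : ℝ) / r ≤ 1 := by
    rw [div_le_one (by linarith)]
    linarith
  unfold AB
  have h4 : 0 ≤ 2 * qq r ^ 2 * cr r * (2 * B * Real.sqrt (2 * B)) / n := by positivity
  have h5 : qq r * (1 - 2 / (r : ℝ)) ≤ 1 * 1 :=
    mul_le_mul hq1 (by linarith) (by linarith) zero_le_one
  have h6 : 2 * qq r * (1 - 2 / (r : ℝ)) * B ≤ 2 * B := by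
    have h7 : qq r * (1 - 2 / (r : ℝ)) * B ≤ 1 * B :=
      mul_le_mul_of_nonneg_right (by linarith) hB
    linarith
  linarith

/-- real facts on `D` and `B` -/
theorem facts {r n D B : ℕ} (hr : 3 ≤ r) (h : D + B + n / r = n) :
    (B : ℝ) ≤ n ∧ (D : ℝ) ≤ n ∧ (D : ℝ) ≤ qq r * n + qq r ∧ (D : ℝ) + B ≤ qq r * n + 1 ∧
      (¬ D ≤ (r - 1) * (n / r) → B ≤ r) := by
  have hR : (3 : ℝ) ≤ r := by exact_mod_cast hr
  have hR0 : (0 : ℝ) < r := by linarith
  have h1 : r * (n / r) + n % r = n := Nat.div_add_mod n r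
  have h2 : n % r < r := Nat.mod_lt n (by omega)
  obtain ⟨u, hu⟩ : ∃ u : ℝ, u = 1 / (r : ℝ) := ⟨_, rfl⟩
  have hu0 : 0 < u := by rw [hu]; positivity
  have hru : (r : ℝ) * u = 1 := by rw [hu]; field_simp
  have hq : qq r = 1 - u := by rw [hu]; rfl
  have e1 : (D : ℝ) + B + ((n / r : ℕ) : ℝ) = n := by exact_mod_cast h
  have e2 : (r : ℝ) * ((n / r : ℕ) : ℝ) + ((n % r : ℕ) : ℝ) = n := by exact_mod_cast h1
  have e3 : ((n % r : ℕ) : ℝ) + 1 ≤ r := by exact_mod_cast h2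
  have e4 : ((n / r : ℕ) : ℝ) = u * n - u * ((n % r : ℕ) : ℝ) := by
    calc ((n / r : ℕ) : ℝ) = (r * u) * ((n / r : ℕ) : ℝ) := by rw [hru, one_mul]
      _ = u * (r * ((n / r : ℕ) : ℝ)) := by ring
      _ = u * (n - ((n % r : ℕ) : ℝ)) := by rw [← e2]; ring
      _ = _ := by ring
  have e5 : u * ((n % r : ℕ) : ℝ) ≤ 1 - u := by
    have : u * (((n % r : ℕ) : ℝ) + 1) ≤ u * r := mul_le_mul_of_nonneg_left e3 hu0.le
    linarith
  have eB : (0 : ℝ) ≤ B := Nat.cast_nonneg B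
  have eN : (0 : ℝ) ≤ ((n / r : ℕ) : ℝ) := Nat.cast_nonneg _
  have eD : (0 : ℝ) ≤ D := Nat.cast_nonneg D
  refine ⟨by linarith, by linarith, ?_, ?_, ?_⟩
  · rw [hq]
    linarith
  · rw [hq]
    linarith
  · intro h3
    rw [not_le] at h3
    have h4 : (r - 1) * (n / r) + n / r = r * (n / r) := by
      obtain ⟨s, rfl⟩ : ∃ s, r = s + 1 := ⟨r - 1, by omega⟩
      rw [Nat.add_sub_cancel]
      ring
    omega

end ItemFINA

open ItemFINA in
/-- Item FINA. -/
theorem prfFINA : P_statement → MAXE_statement → DEV_statement → TURN_statement →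
    UPS_statement → CHUV_statement → FNS_statement → MAXG_statement → FNT_statement →
    FNU_statement → FINA_statement := by
  intro hP hMAXE _ hTURN hUPS hCHUV hFNS hMAXG hFNT hFNU W _ F r hr hcrit hcol hncol
  obtain ⟨hq0, hq1⟩ := qq_bd hr
  have hqp : 0 < qq r := by linarith
  have hR : (3 : ℝ) ≤ r := by exact_mod_cast hr
  obtain ⟨C1, nU, hC1, hU⟩ := hUPS W F r hr hncol
  obtain ⟨C2, nC, hC2, hC⟩ := hCHUV W F r hr hncol
  obtain ⟨ε1, hε1, N1, n1, hF1⟩ := hFNS W F r hr hcrit hcol hncol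
  obtain ⟨ε2, hε2, N2, n2, hF2⟩ := hFNT W F r hr hcrit hcol hncol
  obtain ⟨ε, hεd⟩ : ∃ ε : ℝ, ε = min ε1 ε2 := ⟨_, rfl⟩
  have hε : 0 < ε := by rw [hεd]; exact lt_min hε1 hε2
  have hεε1 : ε ≤ ε1 := by rw [hεd]; exact min_le_left _ _
  have hεε2 : ε ≤ ε2 := by rw [hεd]; exact min_le_right _ _
  obtain ⟨N3, hF3'⟩ := hMAXG W F r ε hr hcrit hcol hncol hε
  obtain ⟨n3, hF3⟩ := hF3' 1 0 one_pos
  obtain ⟨N4, n4, hF4⟩ := hFNU W F r (ε / 2) hr hcrit hcol hncol (by linarith)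
  obtain ⟨M, hM⟩ : ∃ M : ℕ, M = ⌈1 / (ε * qq r)⌉₊ + 1 := ⟨_, rfl⟩
  have hM1 : 1 < (M : ℝ) * (ε * qq r) := by
    have h1 : 1 / (ε * qq r) ≤ (⌈1 / (ε * qq r)⌉₊ : ℝ) := Nat.le_ceil _
    have h2 : 0 < ε * qq r := by positivity
    rw [div_le_iff₀ h2] at h1
    rw [hM]
    push_cast
    linarith
  obtain ⟨N0, hN0⟩ : ∃ N0 : ℕ, N0 = N1 + N2 + N3 + N4 + M := ⟨_, rfl⟩
  obtain ⟨C', hC'⟩ : ∃ C' : ℝ, C' = C1 + 2 * r + 2 + 2 * C2 := ⟨_, rfl⟩
  have hC'0 : 0 ≤ C' := by rw [hC']; linarith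
  obtain ⟨N, hN⟩ : ∃ N : ℕ, N = 2 * N0 + ⌈C'⌉₊ := ⟨_, rfl⟩
  have hNC : 2 * (N0 : ℝ) + C' ≤ N := by
    have := Nat.le_ceil C'
    rw [hN]
    push_cast
    linarith
  obtain ⟨n₀, hn₀⟩ : ∃ n₀ : ℕ, n₀ = nU + nC + n1 + n2 + n3 + n4 + 2 * M + 2 := ⟨_, rfl⟩
  refine ⟨N, (SimpleGraph.turanGraph n₀ r).edgeSet.ncard, fun m hm => ?_⟩
  obtain ⟨n, D, B, hn, hnD, hnB, hDB⟩ := pick hTURN (by omega : 2 ≤ r) n₀ m hm
  have hn1 : 1 ≤ n := by omega
  have hnR : (1 : ℝ) ≤ n := by exact_mod_cast hn1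
  obtain ⟨hBn, hDn, hDq, hDBq, hBr⟩ := facts hr hDB
  have hBn' : B ≤ n := by exact_mod_cast hBn
  obtain ⟨hh1, hh2⟩ := root_succ hn1
  obtain ⟨h, hhd⟩ : ∃ h : ℝ, h = Real.sqrt (Real.sqrt n) := ⟨_, rfl⟩
  obtain ⟨h', hhd'⟩ : ∃ h' : ℝ, h' = Real.sqrt (Real.sqrt ((n + 1 : ℕ) : ℝ)) := ⟨_, rfl⟩
  rw [← hhd] at hh1
  rw [← hhd, ← hhd'] at hh2
  have hh'0 : 0 ≤ h' := by rw [hhd']; exact Real.sqrt_nonneg _
  have hD0 : (0 : ℝ) ≤ D := Nat.cast_nonneg D
  have hB0 : (0 : ℝ) ≤ B := Nat.cast_nonneg B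
  obtain ⟨k, H, hH, hHD⟩ := hC (n + 1) (by omega) B m (hBn'.trans (Nat.le_succ n)) hnB
  rw [← hhd'] at hHD
  obtain ⟨X, hX⟩ : ∃ X : ℝ, X = 2 * D * (qq r - D / n) := ⟨_, rfl⟩
  obtain ⟨Y, hY⟩ : ∃ Y : ℝ, Y = AB r (n + 1) B := ⟨_, rfl⟩
  rw [← hY] at hHD
  obtain ⟨k₁, G₁, hG₁, hG₁'⟩ := hMAXE W F r m ⟨Fin k, inferInstance, H, hH⟩
  refine ⟨n, D, B, hnD, hnB, ⟨k₁, G₁, hG₁, hG₁'⟩, ?_⟩
  intro V _ G hG
  rw [← hX, ← hY, ← hhd]
  -- upper bounds
  have hup2 : Def r G ≤ Y + C2 * h' := (max_le hP hG hH).trans hHD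
  have hup2' : Def r G ≤ Y + 2 * C2 * h := by
    have : C2 * h' ≤ C2 * (2 * h) := mul_le_mul_of_nonneg_left hh2 hC2
    linarith
  have hup1 : Def r G ≤ X + C' * h := by
    by_cases hD : D ≤ (r - 1) * (n / r)
    · obtain ⟨k₂, H₂, hH₂, hH₂D⟩ := hU n (by omega) D hD
      rw [hnD] at hH₂
      have h1 := (max_le hP hG hH₂).trans hH₂D
      rw [← hX] at h1
      have h2 : C1 ≤ C' * h := by
        have h3 : C' * 1 ≤ C' * h := mul_le_mul_of_nonneg_left hh1 hC'0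
        have h4 : C1 ≤ C' := by rw [hC']; linarith
        linarith
      linarith
    · have hB := hBr hD
      have hB' : (B : ℝ) ≤ r := by exact_mod_cast hB
      have h1 : Y ≤ 2 * r := by
        rw [hY]
        have := AB_le hr (n + 1) B
        linarith
      have h2 : -2 ≤ X := by
        have h3 : -(1 / (n : ℝ)) ≤ qq r - D / n := by
          have h4 : (D : ℝ) / n ≤ (qq r * n + 1) / n :=
            div_le_div_of_nonneg_right (by linarith) (by linarith)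
          have h5 : (qq r * n + 1) / n = qq r + 1 / (n : ℝ) := by
            field_simp
          rw [h5] at h4
          linarith
        have h6 : 2 * (D : ℝ) * (-(1 / (n : ℝ))) ≤ X := by
          rw [hX]
          exact mul_le_mul_of_nonneg_left h3 (by linarith)
        have h7 : (D : ℝ) * (1 / (n : ℝ)) ≤ 1 := by
          rw [mul_one_div, div_le_one (by linarith)]
          exact hDn
        linarith
      have h3 : 2 * C2 * h + (2 * r + 2) ≤ C' * h := by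
        have h4 : (2 * (r : ℝ) + 2) * 1 ≤ (2 * r + 2) * h :=
          mul_le_mul_of_nonneg_left hh1 (by linarith)
        have h5 : 0 ≤ C1 * h := by positivity
        rw [hC']
        linarith
      linarith
  -- the alternatives
  have hG' : MxF r n D F G := by
    unfold MxF
    rw [hnD]
    exact hG
  have hqn : 0 < qq r * (n : ℝ) := by positivity
  have halt : AltI r n D N0 G ∨ AltII r (n + 1) B N0 G := by
    by_cases ha : (D : ℝ) ≤ ε1 * n
    · exact Or.inl (altI_mono (by omega) (hF1 n (by omega) D ha V G hG'))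
    rw [not_le] at ha
    by_cases hb : (D : ℝ) ≤ (1 - 2 / (r : ℝ) - ε) * (qq r * n)
    · left
      have hlow : ε * (qq r * n) ≤ D := by
        have h1 : ε * (qq r * n) ≤ ε1 * (1 * n) :=
          mul_le_mul hεε1 (mul_le_mul_of_nonneg_right hq1 (by linarith)) hqn.le hε1.le
        linarith
      obtain ⟨-, h3⟩ := hF3 n (by omega) D ⟨hlow, hb⟩
      obtain ⟨h4, g, w, h5, -⟩ := h3 V G hG'
      have hN30 : (N3 : ℝ) ≤ N0 := by
        have : N3 ≤ N0 := by omega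
        exact_mod_cast this
      refine ⟨h4.trans hN30, g, w, ⟨h5.indep, h5.out, h5.tot, h5.bnd.trans hN30⟩, ?_⟩
      intro _ h6
      exfalso
      have h7 : (N0 : ℝ) * D ≤ n := by exact_mod_cast h6
      have h8 : (M : ℝ) ≤ N0 := by
        have : M ≤ N0 := by omega
        exact_mod_cast this
      have h9 : (M : ℝ) * (ε * (qq r * n)) ≤ N0 * D :=
        mul_le_mul h8 hlow (by positivity) (by positivity)
      have h10 : 1 * (n : ℝ) < (M : ℝ) * (ε * qq r) * n :=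
        mul_lt_mul_of_pos_right hM1 (by linarith)
      have h11 : (M : ℝ) * (ε * (qq r * n)) = (M : ℝ) * (ε * qq r) * n := by ring
      linarith
    rw [not_le] at hb
    by_cases hc : |(D : ℝ) - (1 - 2 / (r : ℝ)) * (qq r * n)| ≤ ε2 * (qq r * n)
    · rcases hF2 n (by omega) D B ⟨hc, hDB⟩ V G hG' with h1 | h1
      · exact Or.inl (altI_mono (by omega) h1)
      · exact Or.inr (altII_mono (by omega) h1)
    right
    have hd : (1 - 2 / (r : ℝ) + ε2) * (qq r * n) < D := by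
      by_contra hcon
      rw [not_lt] at hcon
      apply hc
      rw [abs_le]
      have h1 : ε * (qq r * n) ≤ ε2 * (qq r * n) := mul_le_mul_of_nonneg_right hεε2 hqn.le
      constructor
      · linarith
      · linarith
    have hBu : (B : ℝ) ≤ (2 / (r : ℝ) - ε / 2) * (qq r * ((n + 1 : ℕ) : ℝ)) := by
      have h1 : ε * (qq r * n) ≤ ε2 * (qq r * n) := mul_le_mul_of_nonneg_right hεε2 hqn.le
      have h2 : (2 : ℝ) * M ≤ n := by
        have : 2 * M ≤ n := by omega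
        exact_mod_cast this
      have h3 : (2 * (M : ℝ)) * (ε * qq r) ≤ n * (ε * qq r) :=
        mul_le_mul_of_nonneg_right h2 (by positivity)
      have h4 : 0 ≤ 2 / (r : ℝ) * qq r := by positivity
      have h5 : 2 ≤ ε * (qq r * n) := by
        have e1 : ε * (qq r * n) = n * (ε * qq r) := by ring
        have e2 : 2 * (M : ℝ) * (ε * qq r) = 2 * ((M : ℝ) * (ε * qq r)) := by ring
        linarith
      have h6 : (B : ℝ) ≤ (2 / (r : ℝ)) * (qq r * n) - ε * (qq r * n) + 1 := by linarith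
      push_cast
      by_cases hε4 : ε / 2 ≤ 2 / (r : ℝ)
      · have h7 : 0 ≤ (2 / (r : ℝ) - ε / 2) * qq r :=
          mul_nonneg (by linarith) hqp.le
        have e3 : (2 / (r : ℝ) - ε / 2) * (qq r * ((n : ℝ) + 1)) = 2 / (r : ℝ) * (qq r * n)
            - ε / 2 * (qq r * n) + (2 / (r : ℝ) - ε / 2) * qq r := by ring
        linarith
      · exfalso
        rw [not_le] at hε4
        have h8 : 2 / (r : ℝ) * (qq r * n) < ε / 2 * (qq r * n) :=
          mul_lt_mul_of_pos_right hε4 hqn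
        have h9 : (B : ℝ) < 0 + 1 - ε / 2 * (qq r * n) := by linarith
        linarith
    exact altII_mono (by omega) (hF4 (n + 1) (by omega) B m hBu hnB V G hG)
  have hN0N : N0 ≤ N := by omega
  refine ⟨?_, ?_⟩
  · have hC'N : C' * h ≤ N * h := mul_le_mul_of_nonneg_right (by
      have : (0 : ℝ) ≤ N0 := Nat.cast_nonneg N0
      linarith) (by linarith)
    have hN0h : 2 * (N0 : ℝ) * h ≤ N * h := mul_le_mul_of_nonneg_right (by linarith)
      (by linarith)
    have hN00 : (0 : ℝ) ≤ N0 := Nat.cast_nonneg N0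
    rw [abs_le]
    constructor
    · rcases halt with h1 | h1
      · have h2 := (abs_le.1 h1.1).1
        rw [← hX] at h2
        have h3 : min X Y ≤ X := min_le_left _ _
        have h4 : (N0 : ℝ) * 1 ≤ N0 * h := mul_le_mul_of_nonneg_left hh1 hN00
        have h5 : 0 ≤ (N0 : ℝ) * h := by positivity
        linarith
      · have h2 := (abs_le.1 h1.1).1
        rw [← hY, ← hhd'] at h2
        have h3 : min X Y ≤ Y := min_le_right _ _
        have h4 : (N0 : ℝ) * h' ≤ N0 * (2 * h) := mul_le_mul_of_nonneg_left hh2 hN00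
        linarith
    · have h1 : 2 * C2 * h ≤ C' * h := mul_le_mul_of_nonneg_right (by
        rw [hC']
        linarith) (by linarith)
      rcases min_choice X Y with h2 | h2
      · rw [h2]
        linarith
      · rw [h2]
        linarith
  · rcases halt with h1 | h1
    · exact Or.inl (altI_mono hN0N h1)
    · exact Or.inr (altII_mono hN0N h1)

end MP0c3a8f

end

section

/-!
# MP_0c3a8f_co, item FNS: all maximisers for small `D`
-/

open Finset

namespace MP0c3a8f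

namespace ItemFNS

/-- counting with `U = ∅` -/
theorem count0 (hC : CNTU_statement) (hD : DEV_statement) {V : Type} [Fintype V] {r n : ℕ}
    (hr : 1 ≤ r) (G : SimpleGraph V) (g : V → Option (Fin r)) (hi : Indep G g)
    (ht : ∑ t, siz g t = n) :
    2 * (G.edgeSet.ncard : ℝ) + 2 * ((missSet G g).ncard : ℝ) + dev (siz g) =
      qq r * (n : ℝ) ^ 2 + 2 * ((lightSet G g ∅).ncard : ℝ) := by
  obtain ⟨e, he, h1⟩ := hC r V G g ∅ hi (by
    intro v hv
    simp at hv)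
  rw [Finset.card_empty] at he
  have he0 : e = 0 := by omega
  rw [he0, Finset.sum_empty, ht] at h1
  obtain ⟨-, -, -, h4, -, -⟩ := hD r n (siz g) hr ht
  have h2 : 2 * (G.edgeSet.ncard : ℝ) + 2 * ((missSet G g).ncard : ℝ)
      + ∑ t, (siz g t : ℝ) ^ 2 =
      (n : ℝ) ^ 2 + 2 * ((lightSet G g ∅).ncard : ℝ) := by
    have h3 : 2 * G.edgeSet.ncard + 2 * (missSet G g).ncard + ∑ t, siz g t ^ 2 =
        n ^ 2 + 2 * (lightSet G g ∅).ncard := by
      omega
    exact_mod_cast h3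
  rw [h4]
  unfold qq
  linear_combination h2

theorem light_le {V : Type} [Fintype V] {r : ℕ} (G : SimpleGraph V) (g : V → Option (Fin r))
    (w : V) : (lightSet G g {w}).ncard ≤ (lightSet G g ∅).ncard := by
  refine Set.ncard_le_ncard ?_ (Set.toFinite _)
  rintro e ⟨h1, v, h2, h3, _⟩
  exact ⟨h1, v, h2, h3, by simp⟩

/-- a graph which is not `r`-colorable has a vertex outside of the classes -/
theorem exists_none {V : Type} {r : ℕ} (G : SimpleGraph V) (g : V → Option (Fin r))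
    (hi : Indep G g) (hn : ¬ G.Colorable r) : ∃ v, g v = none := by
  by_contra hcon
  push Not at hcon
  apply hn
  have hs : ∀ v, ∃ t, g v = some t := fun v => Option.ne_none_iff_exists'.1 (hcon v)
  choose c hc using hs
  refine ⟨SimpleGraph.Coloring.mk c ?_⟩
  intro v w hvw hcc
  exact hi v w (hcon v) (by rw [hc v, hc w, hcc]) hvw

/-- the vertex of maximal core degree -/
theorem exists_max {V : Type} [Fintype V] {r : ℕ} (G : SimpleGraph V) (g : V → Option (Fin r))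
    (h : ∃ v, g v = none) :
    ∃ w, g w = none ∧ ∀ v, g v = none → ∑ t, nbn G g v t ≤ ∑ t, nbn G g w t := by
  classical
  obtain ⟨v, hv⟩ := h
  obtain ⟨w, hw, hmax⟩ := Finset.exists_max_image (Finset.univ.filter fun v => g v = none)
    (fun v => ∑ t, nbn G g v t) ⟨v, by simp [hv]⟩
  refine ⟨w, by simpa using hw, fun u hu => hmax u (by simp [hu])⟩

/-- the comparison graph -/
theorem exists_H0 {V : Type} [Fintype V] {r : ℕ} (g : V → Option (Fin r)) (w : V)
    (hw : g w = none) (t₁ : Fin r) (d : ℕ) (hd : d ≤ siz g t₁) :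
    ∃ H : SimpleGraph V, IsKU H g {w} ∧ ∀ t, nbn H g w t = if t = t₁ then d else 0 := by
  classical
  obtain ⟨S, hS, hSd⟩ := Set.exists_subset_card_eq hd
  have hwS : w ∉ S := by
    intro h
    have := hS h
    simp only [Set.mem_ofPred_eq] at this
    rw [hw] at this
    exact absurd this (by simp)
  have hSn : ∀ v ∈ S, g v ≠ none := by
    intro v hv h
    have := hS hv
    simp only [Set.mem_ofPred_eq] at this
    rw [h] at this
    exact absurd this (by simp)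
  let H : SimpleGraph V :=
    { Adj := fun u v => (g u ≠ none ∧ g v ≠ none ∧ g u ≠ g v) ∨ (u = w ∧ v ∈ S) ∨
        (v = w ∧ u ∈ S)
      symm := ⟨fun u v h => by
        rcases h with h | h | h
        · exact Or.inl ⟨h.2.1, h.1, h.2.2.symm⟩
        · exact Or.inr (Or.inr h)
        · exact Or.inr (Or.inl h)⟩
      loopless := ⟨fun u h => by
        rcases h with h | h | h
        · exact h.2.2 rfl
        · exact hwS (h.1 ▸ h.2)
        · exact hwS (h.1 ▸ h.2)⟩ }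
  refine ⟨H, ⟨?_, ?_, ?_⟩, ?_⟩
  · intro u v hu hv
    constructor
    · rintro (h | h | h)
      · exact h.2.2
      · exact absurd (h.1 ▸ hw) hu
      · exact absurd (h.1 ▸ hw) hv
    · intro h
      exact Or.inl ⟨hu, hv, h⟩
  · intro v hv
    rw [Finset.mem_singleton] at hv
    rw [hv]; exact hw
  · rintro u v hu hu' (h | h | h)
    · exact h.1 hu
    · exact hu' (by simp [h.1])
    · exact hSn u h.2 hu
  · intro t
    have hadj : ∀ v, H.Adj w v ↔ v ∈ S := by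
      intro v
      constructor
      · rintro (h | h | h)
        · exact absurd hw h.1
        · exact h.2
        · exact absurd h.2 hwS
      · intro h
        exact Or.inr (Or.inl ⟨rfl, h⟩)
    unfold nbn
    split_ifs with ht
    · rw [← hSd]
      congr 1
      ext v
      simp only [Set.mem_ofPred_eq, hadj]
      constructor
      · exact fun h => h.2
      · intro h
        refine ⟨?_, h⟩
        have := hS h
        simp only [Set.mem_ofPred_eq] at this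
        rw [ht]; exact this
    · rw [Set.ncard_eq_zero]
      ext v
      simp only [Set.mem_ofPred_eq, hadj, Set.mem_empty_iff_false, iff_false, not_and]
      intro h1 h2
      have := hS h2
      simp only [Set.mem_ofPred_eq] at this
      rw [this] at h1
      exact ht (Option.some_injective _ h1.symm)

/-- sizes for small `D` -/
theorem sizes {r n D : ℕ} {ε : ℝ} (c : ℕ) (hr : 3 ≤ r) (hε : ε ≤ 1 / (8 * (r : ℝ)))
    (hD : (D : ℝ) ≤ ε * n) (hn : 4 * r * (c + 1) ≤ n) :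
    D + c ≤ n / r ∧ D ≤ (r - 1) * (n / r) := by
  have hr0 : (0 : ℝ) < r := by
    have : 0 < r := by omega
    exact_mod_cast this
  have h1 : (n : ℝ) < r * ((n / r : ℕ) + 1) := by
    have : n < r * (n / r + 1) := Nat.lt_mul_div_succ n (show 0 < r by omega)
    exact_mod_cast this
  have h2 : (D : ℝ) ≤ n / (8 * r) := by
    calc (D : ℝ) ≤ ε * n := hD
      _ ≤ 1 / (8 * (r : ℝ)) * n := mul_le_mul_of_nonneg_right hε (Nat.cast_nonneg _)
      _ = n / (8 * r) := by ring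
  have h3 : (4 : ℝ) * r * (c + 1) ≤ n := by exact_mod_cast hn
  have h4 : (D : ℝ) + c ≤ (n / r : ℕ) := by
    have h5 : (n : ℝ) / r < (n / r : ℕ) + 1 := by
      rw [div_lt_iff₀ hr0]; linarith
    have h6 : (4 : ℝ) * (c + 1) ≤ n / r := by
      rw [le_div_iff₀ hr0]; linarith
    have h7 : (n : ℝ) / (8 * r) = (n / r) / 8 := by
      field_simp
    rw [h7] at h2
    have hc : (0 : ℝ) ≤ c := Nat.cast_nonneg _
    linarith
  have h5 : D + c ≤ n / r := by exact_mod_cast h4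
  refine ⟨h5, ?_⟩
  have h6 : 1 * (n / r) ≤ (r - 1) * (n / r) := Nat.mul_le_mul_right _ (by omega)
  omega

theorem tz_ge (r n : ℕ) (t : Fin r) : n / r ≤ tz r n t := by
  unfold tz; omega

end ItemFNS

open ItemMAXG ItemFNS in
/-- Item FNS. -/
theorem prfFNS : P_statement → DEV_statement → CNTU_statement → UPS_statement → STS_statement →
    SBD_statement → SEX_statement → SSW_statement → MEMB_statement → MEMS_statement →
    TRF_statement → FNS_statement := by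
  classical
  intro hP hDEV hCNTU hUPS hSTS hSBD hSEX hSSW hMEMB hMEMS hTRF W _ F r hr hcrit hcol hncol
  obtain ⟨hq0, hq1⟩ := qq_bd hr
  have hr1 : 1 ≤ r := by omega
  have hr0 : (0 : ℝ) < r := by
    have : 0 < r := by omega
    exact_mod_cast this
  obtain ⟨C₀, nUP, hC₀, hUP⟩ := hUPS W F r hr hncol
  obtain ⟨ε₁, hε₁, nST, hST⟩ := hSTS W F r C₀ hr hcrit hcol hC₀
  obtain ⟨N₁, nSB, hSB⟩ := hSBD r C₀ hr hC₀
  obtain ⟨b₁, nMB, hMB⟩ := hMEMB W F r hr hncol
  obtain ⟨ε₂, hε₂, nSE, hSE⟩ := hSEX r N₁ b₁ hr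
  obtain ⟨ε₃, hε₃, nSW, hSW⟩ := hSSW r hr
  obtain ⟨b₂, nMS, hMS⟩ := hMEMS W F r hr hncol
  obtain ⟨M, hMdef⟩ : ∃ M : ℕ, M = 3 * N₁ + b₁ + r + 4 * b₂ + 2 + ⌈C₀⌉₊ := ⟨_, rfl⟩
  refine ⟨min (min ε₁ ε₂) (min ε₃ (1 / (8 * (r : ℝ)))), by positivity, M,
    nUP + nST + nSB + nMB + nSE + nSW + 4 * r * (nMS + 1), ?_⟩
  intro n hn D hD V _ G hG
  have hn0 : (0 : ℝ) ≤ n := Nat.cast_nonneg n
  have hD1 : (D : ℝ) ≤ ε₁ * n := hD.trans
    (mul_le_mul_of_nonneg_right ((min_le_left _ _).trans (min_le_left _ _)) hn0)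
  have hD2 : (D : ℝ) ≤ ε₂ * n := hD.trans
    (mul_le_mul_of_nonneg_right ((min_le_left _ _).trans (min_le_right _ _)) hn0)
  have hD3 : (D : ℝ) ≤ ε₃ * n := hD.trans
    (mul_le_mul_of_nonneg_right ((min_le_right _ _).trans (min_le_left _ _)) hn0)
  obtain ⟨hDs, hDr⟩ := sizes (D := D) (n := n) nMS hr
    ((min_le_right (min ε₁ ε₂) _).trans (min_le_right ε₃ (1 / (8 * (r : ℝ))))) hD (by omega)
  obtain ⟨hT1, hT2, hT3, hT4⟩ := turan hDEV r n hr1
  -- upper bound for the defect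
  obtain ⟨k₁, G₁, hG₁, hdG₁⟩ := hUP n (by omega) D hDr
  have hlG₁ : 0 ≤ lam G₁ := by
    obtain ⟨x⟩ : Nonempty (Fin k₁) := by
      by_contra hne
      rw [not_nonempty_iff] at hne
      exact hG₁.notPartite ⟨SimpleGraph.Coloring.mk (fun v => (hne.false v).elim)
        (fun {v} => (hne.false v).elim)⟩
    exact lam_nonneg hP x G₁
  have hdef : Def r G ≤ 2 * D * (qq r - D / n) + C₀ :=
    (def_le hG.1.size hG₁.size hlG₁ (hG.2 _ G₁ hG₁)).trans hdG₁
  obtain ⟨z, g, hfl, htot, hdvn, h16⟩ := hST n (by omega) D hD1 V G hG.1.free hG.1.size hdef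
  obtain ⟨w, hw, hmax⟩ := exists_max G g (exists_none G g hfl.indep hG.1.notPartite)
  obtain ⟨hbN, hlow⟩ := hSB V G z g w n D (by omega) hfl hw htot hdvn h16 hmax hG.1.size hdef
  have hcnt := count0 hCNTU hDEV hr1 G g hfl.indep htot
  rw [hG.1.size] at hcnt
  push_cast at hcnt
  have hdv := dev_nonneg (siz g)
  have hm0 : (0 : ℝ) ≤ (missSet G g).ncard := Nat.cast_nonneg _
  have hN10 : (0 : ℝ) ≤ N₁ := Nat.cast_nonneg _
  have hb10 : (0 : ℝ) ≤ b₁ := Nat.cast_nonneg _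
  have hb20 : (0 : ℝ) ≤ b₂ := Nat.cast_nonneg _
  have hce : C₀ ≤ (⌈C₀⌉₊ : ℝ) := Nat.le_ceil _
  have hce0 : (0 : ℝ) ≤ (⌈C₀⌉₊ : ℝ) := Nat.cast_nonneg _
  have hMr : (M : ℝ) = 3 * N₁ + b₁ + r + 4 * b₂ + 2 + ⌈C₀⌉₊ := by
    rw [hMdef]; push_cast; ring
  have hlt : ((lightSet G g {w}).ncard : ℝ) ≤ (lightSet G g ∅).ncard := by
    exact_mod_cast light_le G g w
  refine ⟨?_, g, w, ?_⟩
  · rw [abs_le, hMr]
    constructor <;> linarith
  by_cases hDb : D ≤ b₁
  · have hDb' : (D : ℝ) ≤ b₁ := by exact_mod_cast hDb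
    refine ⟨⟨hfl.indep, hw, htot, ?_⟩, ?_⟩
    · rw [hMr]
      linarith
    · intro hMD _
      exfalso
      omega
  -- `D > b₁`
  push Not at hDb
  obtain ⟨k, H, h, u, hfree, hnc, hiso, hind, hu, hmiss, hlight, hsiz, hnbn⟩ :=
    hMB n (by omega) D hDb hDr
  have hsh : siz h = tz r n := funext hsiz
  have htoth : ∑ t, siz h t = n := by rw [hsh]; exact hT1
  have hnR : ((∑ t, nbn H h u t : ℕ) : ℝ) + b₁ = D := by exact_mod_cast hnbn
  have hcH := count hCNTU hDEV hr1 H h u hind hu htoth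
  rw [hmiss, hlight, hsh] at hcH
  have hedge : H.edgeSet.ncard = (SimpleGraph.turanGraph n r).edgeSet.ncard + D := by
    have : (H.edgeSet.ncard : ℝ) = (SimpleGraph.turanGraph n r).edgeSet.ncard + D := by
      push_cast at hcH hnR ⊢
      linarith
    exact_mod_cast this
  have hInH : InN r ((SimpleGraph.turanGraph n r).edgeSet.ncard + D) F H :=
    ⟨hfree, hedge, hiso, hnc⟩
  have hdGH : Def r G ≤ Def r H :=
    def_le hG.1.size hedge (lam_nonneg hP u H) (hG.2 _ H hInH)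
  obtain ⟨hm, hsq⟩ := hSE V G z g w (Fin k) H h u n D (by omega) hD2 hfl hw htot hbN hmax
    hG.1.size hind hu hmiss hlight hsiz hnbn hdGH
  obtain ⟨-, -, -, hdevg, hperm, -⟩ := hDEV r n (siz g) hr1 htot
  obtain ⟨-, -, -, hdevt, -, -⟩ := hDEV r n (tz r n) hr1 hT1
  have hdeq : dev (siz g) = dev (tz r n) := by
    rw [hdevg, hdevt]
    have : (∑ t, (siz g t : ℝ) ^ 2) = ∑ t, (tz r n t : ℝ) ^ 2 := by exact_mod_cast hsq
    rw [this]
  have hdr : dev (siz g) ≤ r := by rw [hdeq]; exact hT3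
  obtain ⟨π, hπ⟩ := hperm hsq
  have hbD : ((lightSet G g ∅).ncard : ℝ) = D := by
    rw [hm, hdeq] at hcnt
    push_cast at hcnt
    linarith
  have hbDn : (lightSet G g ∅).ncard = D := by exact_mod_cast hbD
  -- it remains to bound the light edges
  suffices hkey : (lightSet G g {w}).ncard ≤ 4 * b₂ + 1 by
    have hkey' : ((lightSet G g {w}).ncard : ℝ) ≤ 4 * b₂ + 1 := by exact_mod_cast hkey
    refine ⟨⟨hfl.indep, hw, htot, ?_⟩, fun _ _ => ⟨hm, π, hπ⟩⟩
    rw [hMr, hm]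
    push_cast
    linarith
  by_cases hDb2 : D ≤ b₂
  · have := light_le G g w
    omega
  push Not at hDb2
  obtain ⟨d, hd⟩ : ∃ d, D = b₂ + d := ⟨D - b₂, by omega⟩
  have hsz : ∀ t, D + nMS ≤ siz g t := by
    intro t
    rw [hπ t]
    exact hDs.trans (tz_ge r n (π t))
  obtain ⟨k', G', g', w', hfree', hnc', hiso', hind', hw', hmiss', hlight', hsiz', hnbn'⟩ :=
    hMS (siz g) ⟨0, by omega⟩ ⟨1, by omega⟩ d (by simp [Fin.ext_iff])
      (fun t => by have := hsz t; omega) (by omega) (by have := hsz ⟨1, by omega⟩; omega)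
  have hsg' : siz g' = siz g := funext hsiz'
  have htot' : ∑ t, siz g' t = n := by rw [hsg']; exact htot
  have hsum' : ∑ t, nbn G' g' w' t = d := by
    rw [Finset.sum_congr rfl fun t _ => hnbn' t]
    simp
  have hcG' := count hCNTU hDEV hr1 G' g' w' hind' hw' htot'
  rw [hmiss', hlight', hsg', hsum', hdeq] at hcG'
  have hedge' : G'.edgeSet.ncard = (SimpleGraph.turanGraph n r).edgeSet.ncard + D := by
    have hdd : (D : ℝ) = b₂ + d := by exact_mod_cast hd
    have : (G'.edgeSet.ncard : ℝ) = (SimpleGraph.turanGraph n r).edgeSet.ncard + D := by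
      push_cast at hcG' ⊢
      linarith
    exact_mod_cast this
  have hInG' : InN r ((SimpleGraph.turanGraph n r).edgeSet.ncard + D) F G' :=
    ⟨hfree', hedge', hiso', hnc'⟩
  obtain ⟨H₀, hKU, hH₀⟩ := exists_H0 g w hw ⟨1, by omega⟩ d
    (by have := hsz ⟨1, by omega⟩; omega)
  have hl1 : lam H₀ ≤ lam G' := hTRF r V (Fin k') H₀ G' g g' w w' hKU hw' hmiss'
    (fun t => (hsiz' t).symm) (fun t => by rw [hH₀ t, hnbn' t])
  have hl2 : lam G' ≤ lam G := hG.2 _ G' hInG'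
  have hsum0 : ∑ t, nbn H₀ g w t = d := by
    rw [Finset.sum_congr rfl fun t _ => hH₀ t]
    simp
  have hfin := hSW V G H₀ z g w n d (by omega) hfl hw htot hm hdr (by rw [hbD]; exact hD3) hmax
    hKU hsum0 (by rw [hbDn]; omega) (hl1.trans hl2)
  rw [hbDn] at hfin
  omega

end MP0c3a8f

end

section

/-!
# MP_0c3a8f_co, phase B, item FNT: all maximisers in the transition range
-/

set_option autoImplicit false

open Finset

namespace MP0c3a8f

namespace ItemFNT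

/-- the range of `D` -/
theorem range {r n D : ℕ} {e : ℝ} (hr : 3 ≤ r) (he : e ≤ 1 / (8 * (r : ℝ)))
    (hn : r ^ 2 ≤ n)
    (h : |(D : ℝ) - (1 - 2 / (r : ℝ)) * (qq r * n)| ≤ e * (qq r * n)) :
    D ≤ (r - 1) * (n / r) ∧ (n : ℝ) < 10 * D := by
  have hR : (3 : ℝ) ≤ r := by exact_mod_cast hr
  have hR0 : (0 : ℝ) < r := by linarith
  obtain ⟨x, hx⟩ : ∃ x : ℝ, x = 1 / (r : ℝ) := ⟨_, rfl⟩
  have hRx : (r : ℝ) * x = 1 := by rw [hx]; field_simp
  have hx0 : 0 < x := by rw [hx]; positivity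
  have hx3 : x ≤ 1 / 3 := by
    rw [hx]
    exact one_div_le_one_div_of_le (by norm_num) hR
  have h2x : 2 / (r : ℝ) = 2 * x := by rw [hx]; ring
  have h8x : 1 / (8 * (r : ℝ)) = x / 8 := by rw [hx]; field_simp
  have hqx : qq r = 1 - x := by unfold qq; rw [hx]
  rw [h8x] at he
  rw [hqx, h2x] at h
  have hnr : (r : ℝ) ^ 2 ≤ n := by exact_mod_cast hn
  have hn0 : (0 : ℝ) < n := by nlinarith
  have hqn : 0 < (1 - x) * (n : ℝ) := mul_pos (by linarith) hn0
  have h1 := abs_le.1 h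
  have h2 : e * ((1 - x) * n) ≤ x / 8 * ((1 - x) * n) := mul_le_mul_of_nonneg_right he hqn.le
  constructor
  · -- upper bound
    have hk1 : n < r * (n / r + 1) := by
      have := Nat.lt_mul_div_succ n (show 0 < r by omega)
      simpa using this
    have hk : (n : ℝ) < r * (((n / r : ℕ) : ℝ) + 1) := by exact_mod_cast hk1
    set k : ℝ := ((n / r : ℕ) : ℝ) with hkdef
    have hup : (D : ℝ) ≤ (r - 1) * k := by
      have h3 : (D : ℝ) ≤ (1 - 2 * x + x / 8) * ((1 - x) * n) := by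
        have := h1.2
        nlinarith
      -- k > n x - 1
      have h4 : (n : ℝ) * x - 1 < k := by
        have h5 : (n : ℝ) * x < (r * (k + 1)) * x := mul_lt_mul_of_pos_right hk hx0
        have h6 : (r * (k + 1)) * x = k + 1 := by
          calc (r * (k + 1)) * x = (r * x) * (k + 1) := by ring
            _ = k + 1 := by rw [hRx, one_mul]
        linarith
      have h5 : ((r : ℝ) - 1) * (n * x - 1) ≤ (r - 1) * k :=
        mul_le_mul_of_nonneg_left h4.le (by linarith)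
      have h6 : ((r : ℝ) - 1) * (n * x - 1) = (1 - x) * n - r * (1 - x) := by
        have : ((r : ℝ) - 1) * (n * x - 1) = n * (r * x) - n * x - r + 1 := by ring
        rw [this, hRx]
        have h7 : r * (1 - x) = r - r * x := by ring
        rw [h7, hRx]
        ring
      have h7 : (r : ℝ) ≤ 15 / 8 * x * n := by
        have h8 : x * (r : ℝ) ^ 2 ≤ x * n := mul_le_mul_of_nonneg_left hnr hx0.le
        have h9 : x * (r : ℝ) ^ 2 = r := by
          calc x * (r : ℝ) ^ 2 = (r * x) * r := by ring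
            _ = r := by rw [hRx, one_mul]
        nlinarith
      have h8 : (r : ℝ) * (1 - x) ≤ 15 / 8 * x * n * (1 - x) :=
        mul_le_mul_of_nonneg_right h7 (by linarith)
      have h9 : (1 - 2 * x + x / 8) * ((1 - x) * n) = (1 - x) * n - 15 / 8 * x * n * (1 - x) := by
        ring
      linarith
    have hcast : ((r - 1 : ℕ) : ℝ) = (r : ℝ) - 1 := by
      push_cast [Nat.cast_sub (show 1 ≤ r by omega)]
      ring
    have : (D : ℝ) ≤ (((r - 1) * (n / r) : ℕ) : ℝ) := by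
      rw [Nat.cast_mul, hcast]
      exact hup
    exact_mod_cast this
  · have h3 : (1 - 2 * x - x / 8) * ((1 - x) * n) ≤ D := by
      have := h1.1
      nlinarith
    have h4 : 7 / 24 * ((1 - x) * (n : ℝ)) ≤ (1 - 2 * x - x / 8) * ((1 - x) * n) :=
      mul_le_mul_of_nonneg_right (by linarith) hqn.le
    have h5 : 2 / 3 * (n : ℝ) ≤ (1 - x) * n := mul_le_mul_of_nonneg_right (by linarith) hn0.le
    linarith

theorem altII_mono {V : Type} [Fintype V] {r n B N N' : ℕ} {G : SimpleGraph V} (h : N ≤ N')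
    (hA : AltII r n B N G) : AltII r n B N' G := by
  have hN : (N : ℝ) ≤ N' := by exact_mod_cast h
  obtain ⟨h1, g, h2, h3, h4, t₀, h5, h6⟩ := hA
  have hs : 0 ≤ Real.sqrt (Real.sqrt n) := Real.sqrt_nonneg _
  have e1 : (N : ℝ) * Real.sqrt (Real.sqrt n) ≤ N' * Real.sqrt (Real.sqrt n) :=
    mul_le_mul_of_nonneg_right hN hs
  have e2 : (N : ℝ) * (n * Real.sqrt (Real.sqrt n)) ≤ N' * (n * Real.sqrt (Real.sqrt n)) :=
    mul_le_mul_of_nonneg_right hN (mul_nonneg (Nat.cast_nonneg n) hs)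
  exact ⟨h1.trans e1, g, h2, h3, h4.trans e1, t₀, h5.trans e2, fun t ht => (h6 t ht).trans e2⟩

theorem bd_mono {V : Type} {r n N N' : ℕ} {G : SimpleGraph V} {g : V → Option (Fin r)} {w : V}
    (h : N ≤ N') (hB : Bd n N G g w) : Bd n N' G g w :=
  ⟨hB.indep, hB.out, hB.tot, hB.bnd.trans (by exact_mod_cast h)⟩

theorem cr_nonneg {r : ℕ} (hr : 3 ≤ r) : 0 ≤ cr r := by
  have hR : (3 : ℝ) ≤ r := by exact_mod_cast hr
  exact div_nonneg (by linarith) (Real.sqrt_nonneg _)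

theorem pos_lam (hP : P_statement) {W : Type} {F : SimpleGraph W} {r m k : ℕ}
    {H : SimpleGraph (Fin k)} (hH : InN r m F H) : 0 ≤ lam H := by
  obtain ⟨v₀⟩ : Nonempty (Fin k) := by
    by_contra hne
    rw [not_nonempty_iff] at hne
    exact hH.notPartite (SimpleGraph.Colorable.of_isEmpty r)
  exact ItemMAXG.lam_nonneg hP v₀ H

end ItemFNT

theorem prfFNT : P_statement → TURN_statement → UPS_statement → CHUV_statement →
    STT_statement → FINV_statement → FNT_statement := by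
  intro hP hTURN hUPS hCHUV hSTT hFINV W _ F r hr hcrit hcol hncol
  have hR : (3 : ℝ) ≤ r := by exact_mod_cast hr
  have hR0 : (0 : ℝ) < r := by linarith
  obtain ⟨hq0, hq1⟩ := ItemMAXG.qq_bd hr
  obtain ⟨ε, hε, hS⟩ := hSTT W F r hr hcrit hcol
  obtain ⟨CU, nU, hCU0, hU⟩ := hUPS W F r hr hncol
  obtain ⟨CV, nV, hCV0, hV⟩ := hCHUV W F r hr hncol
  obtain ⟨N₁, n₁, hS₁⟩ := hS (CU + 2 * CV) (by linarith)
  obtain ⟨N₂, n₂, hF₂⟩ := hFINV r N₁ CV hr hCV0
  refine ⟨min ε (1 / (8 * (r : ℝ))), lt_min hε (by positivity),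
    N₁ + N₂ + ⌈CU⌉₊ + 10, nU + nV + n₁ + n₂ + r ^ 2 + 1, ?_⟩
  intro n hn D B hRT V _ G hG
  have hr2 : r ^ 2 ≤ n := by omega
  have hn1 : (1 : ℝ) ≤ n := by
    have : 1 ≤ n := by omega
    exact_mod_cast this
  have hqn : 0 ≤ qq r * (n : ℝ) := by positivity
  obtain ⟨hDu, hDl⟩ := ItemFNT.range hr (min_le_right _ _) hr2 hRT.1
  have hRT' : RT r n D B ε :=
    ⟨hRT.1.trans (mul_le_mul_of_nonneg_right (min_le_left _ _) hqn), hRT.2⟩
  have hDB : D + B + n / r = n := hRT.2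
  have hBn : B ≤ n := by
    clear * - hDB
    generalize n / r = q at hDB
    omega
  -- the next Turán number
  have hT := hTURN r n (by omega)
  have hnext : (SimpleGraph.turanGraph n r).edgeSet.ncard + D + B =
      (SimpleGraph.turanGraph (n + 1) r).edgeSet.ncard := by
    clear * - hDB hT
    generalize n / r = q at hDB hT
    omega
  -- the two cheap members
  obtain ⟨k₁, H₁, hH₁, hD₁⟩ := hU n (by omega) D hDu
  obtain ⟨k₂, H₂, hH₂, hD₂⟩ := hV (n + 1) (by omega) B _ (by omega) hnext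
  have hd₁ : Def r G ≤ 2 * D * (qq r - D / n) + CU :=
    (ItemMAXG.def_le hG.1.size hH₁.size (ItemFNT.pos_lam hP hH₁) (hG.2 _ H₁ hH₁)).trans hD₁
  have hd₂ : Def r G ≤ AB r (n + 1) B + CV * Real.sqrt (Real.sqrt ((n + 1 : ℕ) : ℝ)) :=
    (ItemMAXG.def_le hG.1.size hH₂.size (ItemFNT.pos_lam hP hH₂) (hG.2 _ H₂ hH₂)).trans hD₂
  -- roots
  have hs1 : 1 ≤ Real.sqrt ((n + 1 : ℕ) : ℝ) := by
    rw [Real.one_le_sqrt]
    push_cast
    linarith
  have hss : Real.sqrt (Real.sqrt ((n + 1 : ℕ) : ℝ)) ≤ 2 * Real.sqrt n := by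
    have h1 : Real.sqrt (Real.sqrt ((n + 1 : ℕ) : ℝ)) ≤ Real.sqrt ((n + 1 : ℕ) : ℝ) := by
      rw [Real.sqrt_le_left (by positivity)]
      nlinarith
    have h2 : Real.sqrt ((n + 1 : ℕ) : ℝ) ≤ 2 * Real.sqrt n := by
      rw [Real.sqrt_le_left (by positivity), mul_pow, Real.sq_sqrt (by positivity)]
      push_cast
      linarith
    exact h1.trans h2
  have hd₃ : Def r G ≤ 2 * qq r * (1 - 2 / (r : ℝ)) * B + (CU + 2 * CV) * Real.sqrt n := by
    have h1 : AB r (n + 1) B ≤ 2 * qq r * (1 - 2 / (r : ℝ)) * B := by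
      unfold AB
      have h2 := ItemFNT.cr_nonneg hr
      have h3 : 0 ≤ 2 * qq r ^ 2 * cr r * (2 * B * Real.sqrt (2 * B)) / ((n + 1 : ℕ) : ℝ) := by
        positivity
      linarith
    have h2 : CV * Real.sqrt (Real.sqrt ((n + 1 : ℕ) : ℝ)) ≤ CV * (2 * Real.sqrt n) :=
      mul_le_mul_of_nonneg_left hss hCV0
    have h3 : 0 ≤ CU * Real.sqrt n := mul_nonneg hCU0 (Real.sqrt_nonneg _)
    linarith
  have hd₄ : Def r G ≤ 2 * D * (qq r - D / n) + (CU + 2 * CV) := by linarith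
  rcases hS₁ n (by omega) D B hRT' V G hG.1.free hG.1.size hd₄ hd₃ with
    ⟨h1, g, w, hB⟩ | ⟨z, g, hFl, hsum, hab⟩
  · left
    refine ⟨?_, g, w, ItemFNT.bd_mono (by omega) hB, ?_⟩
    · have hc : CU ≤ (⌈CU⌉₊ : ℝ) := Nat.le_ceil _
      have hN₁ : (0 : ℝ) ≤ N₁ := Nat.cast_nonneg _
      have hN₂ : (0 : ℝ) ≤ N₂ := Nat.cast_nonneg _
      have hc0 : (0 : ℝ) ≤ (⌈CU⌉₊ : ℝ) := Nat.cast_nonneg _
      push_cast
      rw [abs_le]
      constructor <;> linarith
    · intro _ h3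
      exfalso
      have h4 : (((N₁ + N₂ + ⌈CU⌉₊ + 10) * D : ℕ) : ℝ) ≤ n := by exact_mod_cast h3
      have h5 : 10 * D ≤ (N₁ + N₂ + ⌈CU⌉₊ + 10) * D := Nat.mul_le_mul_right _ (by omega)
      have h6 : (10 : ℝ) * D ≤ (((N₁ + N₂ + ⌈CU⌉₊ + 10) * D : ℕ) : ℝ) := by exact_mod_cast h5
      linarith
  · right
    refine ItemFNT.altII_mono (N := N₂) (by omega) ?_
    refine hF₂ V G z g (n + 1) B (by omega) (by omega) hFl hsum ?_ ?_ hd₂
    · rw [hG.1.size]
      exact hnext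
    · refine hab.trans (mul_le_mul_of_nonneg_left (Real.sqrt_le_sqrt ?_) (Nat.cast_nonneg _))
      push_cast
      linarith

end MP0c3a8f

end

section

/-!
# The difference of the Turán numbers
-/

namespace MP0c3a8f

lemma TURN_sq (r n : ℕ) (hr : 1 ≤ r) :
    ∑ t, (tz r (n + 1) t) ^ 2 = ∑ t, (tz r n t) ^ 2 + (2 * (n / r) + 1) := by
  have h1 := DEV_sq r n hr
  have h2 := DEV_sq r (n + 1) hr
  have hdm := Nat.div_add_mod n r
  have hdm' := Nat.div_add_mod (n + 1) r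
  by_cases hd : r ∣ n + 1
  · rw [Nat.succ_div_of_dvd hd] at h2
    obtain ⟨q, hq⟩ := hd
    have hs : (n + 1) / r = n / r + 1 := Nat.succ_div_of_dvd ⟨q, hq⟩
    have hq' : (n + 1) / r = q := by rw [hq, Nat.mul_div_cancel_left _ (by omega)]
    have hn : n + 1 = r * (n / r + 1) := by rw [← hs, hq', hq]
    set s := n / r with hsdef
    have h3 : (2 * (s + 1) + 1) * (n + 1) = r * ((s + 1) * (s + 1 + 1)) + r * (s + 1) ^ 2 := by
      rw [hn]; ring
    have h4 : (2 * s + 1) * n + (2 * s + 1) = r * (s * (s + 1)) + r * (s + 1) ^ 2 := by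
      have : (2 * s + 1) * n + (2 * s + 1) = (2 * s + 1) * (n + 1) := by ring
      rw [this, hn]; ring
    omega
  · rw [Nat.succ_div_of_not_dvd hd] at h2
    set s := n / r with hsdef
    have h4 : (2 * s + 1) * (n + 1) = (2 * s + 1) * n + (2 * s + 1) := by ring
    omega

theorem prfTURN : TURN_statement := by
  intro r n hr
  have h1 := DEV_sz r n hr
  have h2 := DEV_sz r (n + 1) hr
  unfold Sz at h1 h2
  rw [DEV_sum r n hr] at h1
  rw [DEV_sum r (n + 1) hr, TURN_sq r n hr] at h2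
  have h3 : (n + 1) ^ 2 = n ^ 2 + 2 * n + 1 := by ring
  rw [h3] at h2
  set s := n / r
  omega

end MP0c3a8f

end
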