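import Pool.Agent.Work.MP_0c3a8f_co.PB.Stmts5
import Pool.Agent.Work.MP_0c3a8f_co.Bd.B10
import Pool.Agent.Work.MP_0c3a8f_co.PB.ItemMEMB
import Pool.Agent.Work.MP_0c3a8f_co.PB.ItemMEMU
import Pool.Agent.Work.MP_0c3a8f_co.PB.ItemOPTC
import Pool.Agent.Work.MP_0c3a8f_co.PB.Stmts10

/-! Bundle of small proof modules (one section per former module). -/

section

/-!
# MP_0c3a8f_co: item CHUV (cheap members, all `B ≤ n`)
-/

open Finset

namespace MP0c3a8f

open ItemCHU in
theorem prfCHUV : NUMV_statement → MEMU_statement → LOWU_statement → CNTU_statement →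
    DEV_statement → CHUV_statement := by
  intro hNUM hMEMU hLOWU hCNTU hDEV W _ F r hr hF
  obtain ⟨b, n₀', hM⟩ := hMEMU W F r hr hF
  obtain ⟨C₁, n₁, hC₁, hN⟩ := hNUM r b hr
  obtain ⟨C', n₂, hL⟩ := hLOWU r ((r : ℝ) + 2 * b + 2 + C₁) hr (by positivity)
  refine ⟨(r : ℝ) + 4 * b + 4 * C₁ + |C'|,
    max (max n₁ n₂) (max 1 ⌈(2 * (r : ℝ) * (n₀' + C₁) + 1) ^ 2⌉₊), by positivity, ?_⟩
  intro n hn B m hBn hm
  have hn1 : n₁ ≤ n := le_trans (le_trans (le_max_left _ _) (le_max_left _ _)) hn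
  have hn2 : n₂ ≤ n := le_trans (le_trans (le_max_right _ _) (le_max_left _ _)) hn
  have hn3 : 1 ≤ n := le_trans (le_trans (le_max_left _ _) (le_max_right _ _)) hn
  have hn4 : (2 * (r : ℝ) * (n₀' + C₁) + 1) ^ 2 ≤ n := by
    have h1 : ⌈(2 * (r : ℝ) * (n₀' + C₁) + 1) ^ 2⌉₊ ≤ n :=
      le_trans (le_trans (le_max_right _ _) (le_max_right _ _)) hn
    exact (Nat.le_ceil _).trans (by exact_mod_cast h1)
  obtain ⟨σ, a, hσn, hσ2, ha, hcub, hσt⟩ := hN n hn1 B hBn
  obtain ⟨k, G, g, hFG, hGc, hiso, hind, hmiss, hout, hsiz⟩ :=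
    hM σ a (fun t => room hr hC₁ hn4 ha (hσt t))
  have hsizσ : siz g = σ := funext hsiz
  -- counting
  obtain ⟨e, he, hcnt⟩ := hCNTU r (Fin k) G g ∅ hind (by simp)
  have he0 : e = 0 := by
    simp at he
    exact he
  subst he0
  rw [lightSet_empty, hmiss, hout, hsizσ, hσn] at hcnt
  obtain ⟨htz, hmin, hdtz, hdσ, -, hSz⟩ := hDEV r n σ (by omega) hσn
  obtain ⟨-, -, -, hdtz2, -, -⟩ := hDEV r n (tz r n) (by omega) htz
  unfold Sz at hSz
  rw [htz] at hSz
  have hmG : G.edgeSet.ncard = m := by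
    simp only [Finset.sum_empty] at hcnt
    omega
  refine ⟨k, G, ⟨hFG, hmG, hiso, hGc⟩, ?_⟩
  -- bounds
  obtain ⟨q0, q1⟩ := qq_bounds hr
  obtain ⟨t0, t1⟩ := two_div_bounds hr
  have hnR : (1 : ℝ) ≤ n := by exact_mod_cast hn3
  have hBR : (B : ℝ) ≤ n := by exact_mod_cast hBn
  have hq1 : 1 ≤ Real.sqrt n := by
    rw [Real.one_le_sqrt]
    exact hnR
  have hqq1 : 1 ≤ Real.sqrt (Real.sqrt n) := by
    rw [Real.one_le_sqrt]
    exact hq1
  have hss : Real.sqrt (Real.sqrt n) ≤ Real.sqrt n := by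
    rw [Real.sqrt_le_left (by linarith)]
    nlinarith
  have hσ2R : ∑ t, (σ t : ℝ) ^ 2 + 2 * a = ∑ t, (tz r n t : ℝ) ^ 2 + 2 * B + 2 * b := by
    exact_mod_cast hσ2
  have hdev : dev σ = dev (tz r n) + 2 * B + 2 * b - 2 * a := by
    rw [hdσ, hdtz2]
    linarith
  have ha0 : (0 : ℝ) ≤ a := by positivity
  have hb0 : (0 : ℝ) ≤ b := by positivity
  have hr0 : (0 : ℝ) ≤ r := by positivity
  have hB0 : (0 : ℝ) ≤ B := by positivity
  have hdevle : dev σ ≤ r + 2 * B + 2 * b := by linarith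
  have hdevn : dev (siz g) ≤ ((r : ℝ) + 2 * b + 2 + C₁) * n := by
    rw [hsizσ]
    have e1 := mul_nonneg hr0 (sub_nonneg.2 hnR)
    have e2 := mul_nonneg hb0 (sub_nonneg.2 hnR)
    have e3 := mul_nonneg hC₁ (by linarith : (0 : ℝ) ≤ n)
    have e4 : ((r : ℝ) + 2 * b + 2 + C₁) * n = r * n + 2 * (b * n) + 2 * n + C₁ * n := by ring
    rw [e4]
    linarith
  have hmissn : ((missSet G g).ncard : ℝ) ≤ ((r : ℝ) + 2 * b + 2 + C₁) * Real.sqrt n := by
    rw [hmiss]
    have h1 : C₁ * Real.sqrt (Real.sqrt n) ≤ C₁ * Real.sqrt n :=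
      mul_le_mul_of_nonneg_left hss hC₁
    have h2 : 0 ≤ ((r : ℝ) + 2 * b + 2) * Real.sqrt n := by positivity
    have h3 : ((r : ℝ) + 2 * b + 2 + C₁) * Real.sqrt n
        = ((r : ℝ) + 2 * b + 2) * Real.sqrt n + C₁ * Real.sqrt n := by ring
    rw [h3]
    linarith
  have hsum : ∑ t, siz g t = n := by rw [hsizσ, hσn]
  have hD := hL (Fin k) G g n hind hn2 hsum hdevn hmissn
  rw [hmiss, hout, hsizσ] at hD
  have hq1' : 1 ≤ Real.sqrt (Real.sqrt n) := hqq1
  exact final_ineq q0 q1 t0 t1 hr0 ha0 hb0 hB0 hC₁ hnR hq1' ha hdevle hcub hD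

end MP0c3a8f

end

section

/-!
# MP_0c3a8f_co, phase B, item FINV: the structure near complete multipartite graphs, all `B ≤ n`
-/

open Finset

namespace MP0c3a8f

namespace ItemFINV

/-- the analysis, without a lower bound for `B` -/
theorem core {r : ℕ} (hr : 3 ≤ r) {N1 CH CU : ℝ} (hN1 : 0 ≤ N1) (hCH : 0 ≤ CH) :
    ∃ (N : ℝ) (X : ℝ), 0 ≤ N ∧ 0 ≤ X ∧ ∀ (n B : ℕ) (a b dT v cb D : ℝ), X ≤ Real.sqrt n →
      1 ≤ Real.sqrt n → (B : ℝ) ≤ n → 0 ≤ v → 0 ≤ a → 0 ≤ b → a + b ≤ N1 * Real.sqrt n →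
      0 ≤ dT → dT ≤ r → v = 2 * B + dT - 2 * a + 2 * b →
      qq r * (1 - 2 / (r : ℝ)) * v + (2 * qq r - 10 * (1 / (40 * (r : ℝ)))) * (a + b)
        - 2 * qq r ^ 2 * cb / n - CU ≤ D →
      cb ≤ cr r * (v * Real.sqrt v) → D ≤ AB r n B + CH * Real.sqrt (Real.sqrt n) →
      |D - AB r n B| ≤ N * Real.sqrt (Real.sqrt n) ∧
      a + b ≤ N * Real.sqrt (Real.sqrt n) ∧
      cr r * (v * Real.sqrt v) - cb ≤ N * (n * Real.sqrt (Real.sqrt n)) ∧
      |v - 2 * B| ≤ N * Real.sqrt (Real.sqrt n) := by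
  have hR : (3 : ℝ) ≤ r := by exact_mod_cast hr
  have hR0 : (0 : ℝ) < r := by linarith
  have hc0 := ItemFINU.cr_nonneg hr
  set c := cr r with hc
  obtain ⟨u, hu⟩ : ∃ u : ℝ, u = 1 / (r : ℝ) := ⟨_, rfl⟩
  have hu0 : 0 < u := by rw [hu]; positivity
  have hu1 : u ≤ 1 / 3 := by rw [hu]; exact one_div_le_one_div_of_le (by norm_num) hR
  have hru : (r : ℝ) * u = 1 := by rw [hu]; field_simp
  have hq : qq r = 1 - u := by rw [hu]; rfl
  have h2r : 2 / (r : ℝ) = 2 * u := by rw [hu]; ring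
  have hδ : 10 * (1 / (40 * (r : ℝ))) = u / 4 := by rw [hu]; field_simp; norm_num
  set q := qq r with hqd
  have hq0 : 2 / 3 ≤ q := by rw [hq]; linarith
  have hq1 : q ≤ 1 := by rw [hq]; linarith
  have hqp : 0 < q := by linarith
  set C1 : ℝ := 2 + r + 2 * N1 with hC1
  have hC10 : 0 < C1 := by positivity
  set K : ℝ := 4 * q ^ 2 * c * Real.sqrt C1 with hK
  have hK0 : 0 ≤ K := by positivity
  set C3 : ℝ := |CU| + 1 + CH with hC3
  have hC30 : 0 < C3 := by
    have := abs_nonneg CU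
    linarith
  set C4 : ℝ := C3 / (2 * q ^ 2) with hC4
  have hC40 : 0 < C4 := by positivity
  have hrC3 : 0 < r * C3 := by positivity
  refine ⟨C3 + 2 * (r * C3) + C4 + r, 2 * K * r, by positivity, by positivity, ?_⟩
  intro n B a b dT v cb D hX2 hs1 hBn hv00 ha hb hab hdT0 hdT1 hv hD hcb hDu
  set s := Real.sqrt n with hs
  have hs0 : 0 < s := by linarith
  have hs2 : s * s = n := Real.mul_self_sqrt (Nat.cast_nonneg n)
  have hn0 : (0 : ℝ) < n := by rw [← hs2]; positivity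
  set h := Real.sqrt s with hh
  have hh2 : h * h = s := Real.mul_self_sqrt hs0.le
  have hh1 : 1 ≤ h := by
    rw [hh]; exact Real.one_le_sqrt.2 hs1
  have hab0 : 0 ≤ a + b := by positivity
  rw [h2r, hδ] at hD
  have hB0 : (0 : ℝ) ≤ B := Nat.cast_nonneg B
  -- bounds for `v`
  have hsn : s ≤ n := by
    calc s = s * 1 := (mul_one s).symm
      _ ≤ s * s := mul_le_mul_of_nonneg_left hs1 hs0.le
      _ = n := hs2
  have hvup : v ≤ C1 * n := by
    have h1 : N1 * s ≤ N1 * n := mul_le_mul_of_nonneg_left hsn hN1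
    have h2 : (1 : ℝ) ≤ n := by linarith
    have h3 : (r : ℝ) * 1 ≤ r * n := mul_le_mul_of_nonneg_left h2 hR0.le
    have h5 : a + b ≤ N1 * s := hab
    rw [hv, hC1]
    linarith
  have h2B : 2 * (B : ℝ) ≤ C1 * n := by
    have h1 : 0 ≤ (r + 2 * N1) * n := by positivity
    rw [hC1]
    linarith
  have hvB : |v - 2 * B| ≤ r + 2 * (a + b) := by
    rw [hv, abs_le]
    constructor <;> linarith
  -- the error
  have hE : 2 * q ^ 2 * c * (v * Real.sqrt v - 2 * B * Real.sqrt (2 * B)) / n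
      ≤ 1 + u * (a + b) := by
    have h1 := ItemFINU.cube_diff hv00 (by positivity : (0 : ℝ) ≤ 2 * B) hvup h2B
    have h2 : Real.sqrt (C1 * n) = Real.sqrt C1 * s := Real.sqrt_mul hC10.le _
    rw [h2] at h1
    have h3 : v * Real.sqrt v - 2 * B * Real.sqrt (2 * B) ≤
        2 * (Real.sqrt C1 * s) * (r + 2 * (a + b)) :=
      (le_abs_self _).trans (h1.trans (mul_le_mul_of_nonneg_left hvB (by positivity)))
    rw [div_le_iff₀ hn0]
    have h4 : 2 * q ^ 2 * c * (v * Real.sqrt v - 2 * B * Real.sqrt (2 * B)) ≤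
        K * s * (r + 2 * (a + b)) := by
      calc 2 * q ^ 2 * c * (v * Real.sqrt v - 2 * B * Real.sqrt (2 * B)) ≤
            2 * q ^ 2 * c * (2 * (Real.sqrt C1 * s) * (r + 2 * (a + b))) :=
            mul_le_mul_of_nonneg_left h3 (by positivity)
        _ = K * s * (r + 2 * (a + b)) := by rw [hK]; ring
    have h5 : K * (r + 2 * (a + b)) ≤ (1 + u * (a + b)) * s := by
      have h6 : K * r ≤ s := by
        have : 0 ≤ K * r := by positivity
        linarith
      have h7 : 2 * K ≤ u * s := by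
        have h8 : u * (2 * K * r) ≤ u * s := mul_le_mul_of_nonneg_left hX2 hu0.le
        have h9 : u * (2 * K * r) = 2 * K * (r * u) := by ring
        rw [h9, hru, mul_one] at h8
        exact h8
      have h10 : 2 * K * (a + b) ≤ u * s * (a + b) := mul_le_mul_of_nonneg_right h7 hab0
      linarith
    calc 2 * q ^ 2 * c * (v * Real.sqrt v - 2 * B * Real.sqrt (2 * B))
        ≤ K * s * (r + 2 * (a + b)) := h4
      _ = K * (r + 2 * (a + b)) * s := by ring
      _ ≤ (1 + u * (a + b)) * s * s := mul_le_mul_of_nonneg_right h5 hs0.le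
      _ = (1 + u * (a + b)) * n := by rw [← hs2]; ring
  -- the main inequality
  obtain ⟨Δ, hΔ⟩ : ∃ Δ : ℝ, Δ = c * (v * Real.sqrt v) - cb := ⟨_, rfl⟩
  have hΔ0 : 0 ≤ Δ := by rw [hΔ]; linarith
  have hAB : AB r n B = 2 * q * (1 - 2 * u) * B
      - 2 * q ^ 2 * c * (2 * B * Real.sqrt (2 * B)) / n := by
    unfold AB
    rw [h2r]
  have hM : AB r n B + u * (a + b) + 2 * q ^ 2 * Δ / n - 1 - CU ≤ D := by
    have h1 : q * (1 - 2 * u) * v = 2 * q * (1 - 2 * u) * B
        + q * (1 - 2 * u) * (dT - 2 * a + 2 * b) := by rw [hv]; ring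
    have h2 : 2 * q ^ 2 * Δ / n = 2 * q ^ 2 * c * (v * Real.sqrt v) / n
        - 2 * q ^ 2 * cb / n := by rw [hΔ]; ring
    have h3 : 2 * q ^ 2 * c * (v * Real.sqrt v - 2 * B * Real.sqrt (2 * B)) / n =
        2 * q ^ 2 * c * (v * Real.sqrt v) / n
          - 2 * q ^ 2 * c * (2 * B * Real.sqrt (2 * B)) / n := by ring
    rw [h3] at hE
    have h4 : 2 * u * (a + b) ≤ q * (1 - 2 * u) * (dT - 2 * a + 2 * b)
        + (2 * q - u / 4) * (a + b) := by
      have h5 : 0 ≤ q * (1 - 2 * u) * dT := by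
        have : 0 ≤ 1 - 2 * u := by linarith
        positivity
      have h6 : 0 ≤ u * (4 * q - 1 / 4 - 2) * a := by
        have : 0 ≤ 4 * q - 1 / 4 - 2 := by linarith
        positivity
      have h7 : 0 ≤ (2 * q - u / 4 + 2 * q * (1 - 2 * u) - 2 * u) * b := by
        refine mul_nonneg ?_ hb
        have : 0 ≤ q * (1 - 2 * u) := mul_nonneg hqp.le (by linarith)
        linarith
      linarith
    rw [hAB, h2]
    linarith
  have hterm : 0 ≤ 2 * q ^ 2 * Δ / n := by positivity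
  have hC3h : CH * h + 1 + CU ≤ C3 * h := by
    have h1 : CU ≤ |CU| := le_abs_self CU
    have h2 : (|CU| + 1) * 1 ≤ (|CU| + 1) * h :=
      mul_le_mul_of_nonneg_left hh1 (by positivity)
    rw [hC3]
    linarith
  have hsum : u * (a + b) + 2 * q ^ 2 * Δ / n ≤ C3 * h := by linarith
  have hab1 : a + b ≤ r * C3 * h := by
    have h1 : u * (a + b) ≤ C3 * h := by linarith
    have h2 : r * (u * (a + b)) ≤ r * (C3 * h) := mul_le_mul_of_nonneg_left h1 hR0.le
    have h3 : r * (u * (a + b)) = (r * u) * (a + b) := by ring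
    rw [h3, hru, one_mul] at h2
    linarith
  have hΔ1 : Δ ≤ C4 * h * n := by
    have h1 : 2 * q ^ 2 * Δ / n ≤ C3 * h := by
      have : 0 ≤ u * (a + b) := by positivity
      linarith
    rw [div_le_iff₀ hn0] at h1
    have h2 : C4 * h * n = (C3 * h * n) / (2 * q ^ 2) := by rw [hC4]; ring
    rw [h2, le_div_iff₀ (by positivity)]
    linarith
  have hh0 : 0 ≤ h := by linarith
  have hN1' : C3 * h ≤ (C3 + 2 * (r * C3) + C4 + r) * h :=
    mul_le_mul_of_nonneg_right (by linarith) hh0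
  rw [← hΔ]
  refine ⟨?_, ?_, ?_, ?_⟩
  · rw [abs_le]
    have h1 : |CU| + 1 ≤ C3 * h := by
      have h2 : C3 * 1 ≤ C3 * h := mul_le_mul_of_nonneg_left hh1 hC30.le
      rw [hC3] at h2 ⊢
      linarith
    have h2 : CU ≤ |CU| := le_abs_self CU
    have h3 : CH * h ≤ C3 * h := mul_le_mul_of_nonneg_right (by
      have := abs_nonneg CU
      rw [hC3]; linarith) hh0
    have h4 : 0 ≤ u * (a + b) := by positivity
    constructor <;> linarith
  · refine hab1.trans (mul_le_mul_of_nonneg_right ?_ hh0)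
    linarith
  · have h1 : C4 * (n * h) ≤ (C3 + 2 * (r * C3) + C4 + r) * (n * h) :=
      mul_le_mul_of_nonneg_right (by linarith) (by positivity)
    linarith
  · refine hvB.trans ?_
    have h1 : (r : ℝ) * 1 ≤ r * h := mul_le_mul_of_nonneg_left hh1 hR0.le
    have h2 : (r + 2 * (r * C3)) * h ≤ (C3 + 2 * (r * C3) + C4 + r) * h :=
      mul_le_mul_of_nonneg_right (by linarith) hh0
    linarith

/-- the sizes of the classes -/
theorem sizes {r : ℕ} (hr : 3 ≤ r) {N CS : ℝ} (hN : 0 ≤ N) (hCS : 0 ≤ CS)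
    (hS3 : ∀ (x : Fin r → ℝ) (v Δ : ℝ), ∑ t, x t = 0 → ∑ t, x t ^ 2 = v → 0 < v →
      ∑ t, x t ^ 3 ≤ cr r * (v * Real.sqrt v) ∧
      (cr r * (v * Real.sqrt v) - Δ ≤ ∑ t, x t ^ 3 → ∃ t₀,
        |x t₀ - Real.sqrt (v * ((r : ℝ) - 1) / r)| ≤ CS * Δ / v ∧
        ∀ t, t ≠ t₀ → (x t + Real.sqrt (v * ((r : ℝ) - 1) / r) / ((r : ℝ) - 1)) ^ 2
          ≤ CS * Δ / Real.sqrt v))
    {x : Fin r → ℝ} {v B n s h : ℝ} (hx1 : ∑ t, x t = 0) (hx2 : ∑ t, x t ^ 2 = v)
    (hB : 0 ≤ B) (hBn : B ≤ n) (hh : 1 ≤ h) (hhn : h ≤ n) (hsn : s ≤ n)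
    (hs : Real.sqrt n = s)
    (hΔ : cr r * (v * Real.sqrt v) - ∑ t, x t ^ 3 ≤ N * (n * h))
    (hvB : |v - 2 * B| ≤ N * h) :
    ∃ t₀, B * |x t₀ - Real.sqrt (2 * B * ((r : ℝ) - 1) / r)|
        ≤ ((1 + N) * (2 * CS * N + N + 4)) * (n * h) ∧
      ∀ t, t ≠ t₀ → Real.sqrt B *
        (x t + Real.sqrt (2 * B * ((r : ℝ) - 1) / r) / ((r : ℝ) - 1)) ^ 2
        ≤ ((1 + N) * (2 * CS * N + N + 4)) * (n * h) := by
  have hR : (3 : ℝ) ≤ r := by exact_mod_cast hr
  have hR0 : (0 : ℝ) < r := by linarith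
  have hr2 : (0 : ℝ) < (r : ℝ) - 1 := by linarith
  have hv : 0 ≤ v := by
    rw [← hx2]
    exact Finset.sum_nonneg fun t _ => sq_nonneg _
  have hh0 : 0 ≤ h := by linarith
  have hn0 : 0 ≤ n := by linarith
  have hs0 : 0 ≤ s := by rw [← hs]; exact Real.sqrt_nonneg n
  obtain ⟨ρ, hρ⟩ : ∃ ρ : ℝ, ρ = Real.sqrt (((r : ℝ) - 1) / r) := ⟨_, rfl⟩
  have hρ0 : 0 ≤ ρ := by rw [hρ]; exact Real.sqrt_nonneg _
  have hρ1 : ρ ≤ 1 := by
    have h1 : ((r : ℝ) - 1) / r ≤ 1 := by
      rw [div_le_one hR0]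
      linarith
    rw [hρ]
    exact (Real.sqrt_le_sqrt h1).trans_eq Real.sqrt_one
  have e1 : ∀ w : ℝ, 0 ≤ w → Real.sqrt (w * ((r : ℝ) - 1) / r) = Real.sqrt w * ρ := by
    intro w hw
    rw [mul_div_assoc, Real.sqrt_mul hw, hρ]
  obtain ⟨σ, hσ⟩ : ∃ σ : ℝ, σ = ρ / ((r : ℝ) - 1) := ⟨_, rfl⟩
  have hσ0 : 0 ≤ σ := by rw [hσ]; positivity
  have hσ1 : σ ≤ 1 := by
    rw [hσ, div_le_one hr2]
    linarith
  have h2B0 : 0 ≤ 2 * B := by linarith
  rw [e1 (2 * B) h2B0]
  have e2 : ∀ w : ℝ, w * ρ / ((r : ℝ) - 1) = w * σ := by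
    intro w
    rw [hσ, mul_div_assoc]
  simp only [e2]
  -- the roots
  obtain ⟨y, hy⟩ : ∃ y : ℝ, y = Real.sqrt v := ⟨_, rfl⟩
  obtain ⟨w, hw⟩ : ∃ w : ℝ, w = Real.sqrt (2 * B) := ⟨_, rfl⟩
  obtain ⟨b, hb⟩ : ∃ b : ℝ, b = Real.sqrt B := ⟨_, rfl⟩
  have hy0 : 0 ≤ y := by rw [hy]; exact Real.sqrt_nonneg v
  have hw0 : 0 ≤ w := by rw [hw]; exact Real.sqrt_nonneg _
  have hb0 : 0 ≤ b := by rw [hb]; exact Real.sqrt_nonneg B
  have hyy : y * y = v := by rw [hy]; exact Real.mul_self_sqrt hv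
  have hww : w * w = 2 * B := by rw [hw]; exact Real.mul_self_sqrt h2B0
  have hbb : b * b = B := by rw [hb]; exact Real.mul_self_sqrt hB
  have hbw : b ≤ w := by rw [hb, hw]; exact Real.sqrt_le_sqrt (by linarith)
  have hbs : b ≤ s := by rw [hb, ← hs]; exact Real.sqrt_le_sqrt hBn
  rw [← hw, ← hb]
  have hNh : 0 ≤ N * h := by positivity
  have hnh : 0 ≤ n * h := by positivity
  have hd : |y - w| * (y + w) ≤ N * h := by
    have h0 : 0 ≤ y + w := by linarith
    have h1 : |y - w| * (y + w) = |v - 2 * B| := by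
      have h2 : y * y - w * w = (y - w) * (y + w) := by ring
      rw [← hyy, ← hww, h2, abs_mul, abs_of_nonneg h0]
    rw [h1]
    exact hvB
  have hdb : |y - w| * b ≤ N * h :=
    (mul_le_mul_of_nonneg_left (by linarith) (abs_nonneg _)).trans hd
  have hd2 : (y - w) ^ 2 ≤ N * h := by
    have h1 : |y - w| ≤ y + w := by
      rw [abs_le]
      constructor <;> linarith
    have h2 : (y - w) ^ 2 = |y - w| * |y - w| := by rw [abs_mul_abs_self, sq]
    rw [h2]
    exact (mul_le_mul_of_nonneg_left h1 (abs_nonneg _)).trans hd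
  have hsh : s * h ≤ n * h := mul_le_mul_of_nonneg_right hsn hh0
  have hbn : b ≤ n := hbs.trans hsn
  obtain ⟨hl1, hl2⟩ := abs_le.1 hvB
  have hNn : 0 ≤ N * (n * h) := by positivity
  have hCN : 0 ≤ CS * N := by positivity
  rcases le_or_gt h v with hhv | hhv
  · -- `v` is not small
    have hv0 : 0 < v := by linarith
    have hy1 : 0 < y := by rw [hy]; exact Real.sqrt_pos.2 hv0
    obtain ⟨t₀, ht0, ht1⟩ := (hS3 x v (N * (n * h)) hx1 hx2 hv0).2 (by linarith)
    rw [e1 v hv, ← hy] at ht0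
    rw [e1 v hv, ← hy] at ht1
    simp only [e2] at ht1
    have hBv : B ≤ (1 + N) * v := by
      have h1 : N * h ≤ N * v := mul_le_mul_of_nonneg_left hhv hN
      have h2 : 0 ≤ N * v := by positivity
      linarith
    have hbv : b ≤ (1 + N) * y := by
      apply le_of_sq_le_sq
      · calc b ^ 2 = B := by rw [sq, hbb]
          _ ≤ (1 + N) * v := hBv
          _ ≤ (1 + N) * v + (1 + N) * N * v := by
              have : 0 ≤ (1 + N) * N * v := by positivity
              linarith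
          _ = ((1 + N) * y) ^ 2 := by rw [← hyy]; ring
      · positivity
    refine ⟨t₀, ?_, fun t ht => ?_⟩
    · have h1 : x t₀ - w * ρ = (x t₀ - y * ρ) + (y - w) * ρ := by ring
      rw [h1]
      have h2 : |(x t₀ - y * ρ) + (y - w) * ρ| ≤ CS * (N * (n * h)) / v + |y - w| := by
        refine (abs_add_le _ _).trans (add_le_add ht0 ?_)
        rw [abs_mul, abs_of_nonneg hρ0]
        calc |y - w| * ρ ≤ |y - w| * 1 := mul_le_mul_of_nonneg_left hρ1 (abs_nonneg _)
          _ = |y - w| := mul_one _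
      refine (mul_le_mul_of_nonneg_left h2 hB).trans ?_
      have h3 : B * (CS * (N * (n * h)) / v) ≤ (1 + N) * (CS * (N * (n * h))) := by
        calc B * (CS * (N * (n * h)) / v) ≤ ((1 + N) * v) * (CS * (N * (n * h)) / v) :=
              mul_le_mul_of_nonneg_right hBv (by positivity)
          _ = (1 + N) * (CS * (N * (n * h))) := by field_simp
      have h4 : B * |y - w| ≤ N * (n * h) := by
        calc B * |y - w| = b * (|y - w| * b) := by rw [← hbb]; ring
          _ ≤ b * (N * h) := mul_le_mul_of_nonneg_left hdb hb0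
          _ ≤ n * (N * h) := mul_le_mul_of_nonneg_right hbn hNh
          _ = N * (n * h) := by ring
      have h5 : 0 ≤ (1 + N) * (CS * N + N + 4) * (n * h) := by positivity
      have h6 : (1 + N) * (2 * CS * N + N + 4) * (n * h) =
          (1 + N) * (CS * (N * (n * h))) + (1 + N) * (CS * N + N + 4) * (n * h) := by ring
      have h7 : N * (n * h) ≤ (1 + N) * (CS * N + N + 4) * (n * h) := by
        refine mul_le_mul_of_nonneg_right ?_ hnh
        have h8 : 0 ≤ N * (CS * N + N + 4) := by positivity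
        linarith
      rw [h6, mul_add]
      linarith
    · have h1 : x t + w * σ = (x t + y * σ) - (y - w) * σ := by ring
      have h2 := ht1 t ht
      have h3 : (x t + w * σ) ^ 2 ≤ 2 * (x t + y * σ) ^ 2 + 2 * (y - w) ^ 2 := by
        rw [h1]
        have e3 := sq_nonneg ((x t + y * σ) + (y - w) * σ)
        have e4 : ((x t + y * σ) - (y - w) * σ) ^ 2 = 2 * (x t + y * σ) ^ 2
            + 2 * ((y - w) * σ) ^ 2 - ((x t + y * σ) + (y - w) * σ) ^ 2 := by ring
        have e5 : ((y - w) * σ) ^ 2 ≤ (y - w) ^ 2 := by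
          rw [mul_pow]
          calc (y - w) ^ 2 * σ ^ 2 ≤ (y - w) ^ 2 * 1 :=
                mul_le_mul_of_nonneg_left (pow_le_one₀ hσ0 hσ1) (sq_nonneg _)
            _ = (y - w) ^ 2 := mul_one _
        linarith
      refine (mul_le_mul_of_nonneg_left h3 hb0).trans ?_
      have h4 : b * (x t + y * σ) ^ 2 ≤ (1 + N) * (CS * (N * (n * h))) := by
        calc b * (x t + y * σ) ^ 2 ≤ b * (CS * (N * (n * h)) / y) :=
              mul_le_mul_of_nonneg_left h2 hb0
          _ ≤ ((1 + N) * y) * (CS * (N * (n * h)) / y) :=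
              mul_le_mul_of_nonneg_right hbv (by positivity)
          _ = (1 + N) * (CS * (N * (n * h))) := by field_simp
      have h5 : b * (y - w) ^ 2 ≤ N * (n * h) := by
        calc b * (y - w) ^ 2 ≤ n * (N * h) := mul_le_mul hbn hd2 (sq_nonneg _) hn0
          _ = N * (n * h) := by ring
      have h6 : (1 + N) * (2 * CS * N + N + 4) * (n * h) =
          2 * ((1 + N) * (CS * (N * (n * h)))) + (1 + N) * (N + 4) * (n * h) := by ring
      have h7 : 2 * N * (n * h) ≤ (1 + N) * (N + 4) * (n * h) := by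
        refine mul_le_mul_of_nonneg_right ?_ hnh
        have h8 : 0 ≤ N * N := by positivity
        linarith
      rw [h6, mul_add]
      linarith
  · -- `v` is small
    have hBh : 2 * B ≤ (1 + N) * h := by linarith
    have hx : ∀ t, x t ^ 2 ≤ h := by
      intro t
      have h1 : x t ^ 2 ≤ ∑ t, x t ^ 2 :=
        Finset.single_le_sum (fun i _ => sq_nonneg (x i)) (Finset.mem_univ t)
      linarith
    have hh2 : h ≤ h ^ 2 := by
      rw [sq]
      calc h = h * 1 := (mul_one h).symm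
        _ ≤ h * h := mul_le_mul_of_nonneg_left hh hh0
    refine ⟨⟨0, by omega⟩, ?_, fun t _ => ?_⟩
    · have h1 : |x ⟨0, by omega⟩| ≤ n := by
        refine (abs_le_of_sq_le_sq ?_ hh0).trans hhn
        exact (hx _).trans hh2
      have h2 : w ≤ (1 + N) * n := by
        refine le_trans ?_ (mul_le_mul_of_nonneg_left hhn (by positivity))
        apply le_of_sq_le_sq
        · calc w ^ 2 = 2 * B := by rw [sq, hww]
            _ ≤ (1 + N) * h := hBh
            _ ≤ (1 + N) * h ^ 2 := mul_le_mul_of_nonneg_left hh2 (by positivity)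
            _ ≤ (1 + N) * h ^ 2 + (1 + N) * N * h ^ 2 := by
                have : 0 ≤ (1 + N) * N * h ^ 2 := by positivity
                linarith
            _ = ((1 + N) * h) ^ 2 := by ring
        · positivity
      have h3 : |x ⟨0, by omega⟩ - w * ρ| ≤ (2 + N) * n := by
        have h4 : |w * ρ| ≤ (1 + N) * n := by
          rw [abs_of_nonneg (by positivity)]
          calc w * ρ ≤ w * 1 := mul_le_mul_of_nonneg_left hρ1 hw0
            _ = w := mul_one w
            _ ≤ _ := h2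
        calc |x ⟨0, by omega⟩ - w * ρ| ≤ |x ⟨0, by omega⟩| + |w * ρ| := abs_sub _ _
          _ ≤ n + (1 + N) * n := add_le_add h1 h4
          _ = (2 + N) * n := by ring
      have h5 : B * |x ⟨0, by omega⟩ - w * ρ| ≤ ((1 + N) * h) * ((2 + N) * n) :=
        mul_le_mul (by linarith) h3 (abs_nonneg _) (by positivity)
      refine h5.trans ?_
      have h6 : ((1 + N) * h) * ((2 + N) * n) = (1 + N) * (2 + N) * (n * h) := by ring
      rw [h6]
      refine mul_le_mul_of_nonneg_right (mul_le_mul_of_nonneg_left ?_ (by positivity)) hnh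
      linarith
    · have h3 : (x t + w * σ) ^ 2 ≤ 2 * h + 2 * ((1 + N) * h) := by
        have e3 := sq_nonneg (x t - w * σ)
        have e4 : (x t + w * σ) ^ 2 = 2 * x t ^ 2 + 2 * (w * σ) ^ 2 - (x t - w * σ) ^ 2 := by
          ring
        have e5 : (w * σ) ^ 2 ≤ w ^ 2 := by
          rw [mul_pow]
          calc w ^ 2 * σ ^ 2 ≤ w ^ 2 * 1 :=
                mul_le_mul_of_nonneg_left (pow_le_one₀ hσ0 hσ1) (sq_nonneg _)
            _ = w ^ 2 := mul_one _
        have e6 : w ^ 2 ≤ (1 + N) * h := by rw [sq, hww]; exact hBh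
        have e7 := hx t
        linarith
      have h4 : b * (x t + w * σ) ^ 2 ≤ n * (2 * h + 2 * ((1 + N) * h)) :=
        mul_le_mul hbn h3 (sq_nonneg _) hn0
      refine h4.trans ?_
      have h5 : n * (2 * h + 2 * ((1 + N) * h)) = (4 + 2 * N) * (n * h) := by ring
      rw [h5]
      refine mul_le_mul_of_nonneg_right ?_ hnh
      have h6 : 0 ≤ 2 * CS * N := by positivity
      have h7 : 0 ≤ N * (2 * CS * N + N) := by positivity
      have h8 : (1 + N) * (2 * CS * N + N + 4) =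
          2 * CS * N + N + 4 + (N * (2 * CS * N + N) + 4 * N) := by ring
      rw [h8]
      linarith

end ItemFINV

open ItemFINU ItemFINV in
theorem prfFINV : DEV_statement → CNTU_statement → UPU_statement → S3M_statement →
    FINV_statement := by
  intro hDEV hCNTU hUPU hS3M r N₁ C₀ hr hC₀
  have hr1 : 1 ≤ r := by omega
  have hR : (3 : ℝ) ≤ r := by exact_mod_cast hr
  have hR0 : (0 : ℝ) < r := by linarith
  have hN10 : (0 : ℝ) ≤ N₁ := Nat.cast_nonneg N₁
  have hδ : 0 < 1 / (40 * (r : ℝ)) := by positivity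
  obtain ⟨CU, nU, hU⟩ := hUPU r (2 + r + 2 * N₁) hr (by positivity)
  obtain ⟨CS, hCS0, hS3⟩ := hS3M r hr
  obtain ⟨N, X, hN0, hX0, hcore⟩ := ItemFINV.core (CU := CU) hr hN10 hC₀
  refine ⟨⌈N + (1 + N) * (2 * CS * N + N + 4)⌉₊, nU + ⌈X ^ 2⌉₊ + 1, ?_⟩
  intro V _ G z g n B hn hBn' hF htot hedge hab hdef
  have hNc : N + (1 + N) * (2 * CS * N + N + 4) ≤
      (⌈N + (1 + N) * (2 * CS * N + N + 4)⌉₊ : ℝ) := Nat.le_ceil _
  set N' : ℝ := (⌈N + (1 + N) * (2 * CS * N + N + 4)⌉₊ : ℝ) with hN'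
  have hM0 : 0 ≤ (1 + N) * (2 * CS * N + N + 4) := by positivity
  have hn1 : (1 : ℝ) ≤ n := by
    have : 1 ≤ n := by omega
    exact_mod_cast this
  have hs1 : 1 ≤ Real.sqrt n := Real.one_le_sqrt.2 hn1
  have hXs : X ≤ Real.sqrt n := by
    apply Real.le_sqrt_of_sq_le
    refine (Nat.le_ceil _).trans ?_
    have : ⌈X ^ 2⌉₊ ≤ n := by omega
    exact_mod_cast this
  have hh1 : 1 ≤ Real.sqrt (Real.sqrt n) := Real.one_le_sqrt.2 hs1
  have hhs : Real.sqrt (Real.sqrt n) ≤ Real.sqrt n := by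
    calc Real.sqrt (Real.sqrt n) = Real.sqrt (Real.sqrt n) * 1 := (mul_one _).symm
      _ ≤ Real.sqrt (Real.sqrt n) * Real.sqrt (Real.sqrt n) :=
          mul_le_mul_of_nonneg_left hh1 (Real.sqrt_nonneg _)
      _ = Real.sqrt n := Real.mul_self_sqrt (Real.sqrt_nonneg _)
  have hsn : Real.sqrt n ≤ n := by
    calc Real.sqrt n = Real.sqrt n * 1 := (mul_one _).symm
      _ ≤ Real.sqrt n * Real.sqrt n := mul_le_mul_of_nonneg_left hs1 (Real.sqrt_nonneg _)
      _ = n := Real.mul_self_sqrt (Nat.cast_nonneg n)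
  have hh0 : 0 ≤ Real.sqrt (Real.sqrt n) := Real.sqrt_nonneg _
  have hBn : (B : ℝ) ≤ n := by exact_mod_cast hBn'
  obtain ⟨hT1, hT2, hT3, hT4⟩ := ItemMAXG.turan hDEV r n hr1
  have hcnt := count hCNTU hDEV hr1 G g hF.indep htot
  have hv : dev (siz g) = 2 * B + dev (tz r n) - 2 * ((missSet G g).ncard : ℝ)
      + 2 * ((lightSet G g ∅).ncard : ℝ) := by
    have h1 : (G.edgeSet.ncard : ℝ) + B = (SimpleGraph.turanGraph n r).edgeSet.ncard := by
      exact_mod_cast hedge
    linarith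
  have ha0 : (0 : ℝ) ≤ (missSet G g).ncard := Nat.cast_nonneg _
  have hb0 : (0 : ℝ) ≤ (lightSet G g ∅).ncard := Nat.cast_nonneg _
  have hdv : dev (siz g) ≤ (2 + r + 2 * N₁) * n := by
    have h1 : N₁ * Real.sqrt n ≤ N₁ * n := mul_le_mul_of_nonneg_left hsn hN10
    have h3 : (r : ℝ) * 1 ≤ r * n := mul_le_mul_of_nonneg_left hn1 hR0.le
    rw [hv]
    linarith
  have hUP := hU V (1 / (40 * (r : ℝ))) G z g n hδ (by
    rw [div_le_div_iff₀ (by positivity) (by norm_num)]
    linarith) hF (by omega) htot hdv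
  -- the deviations
  have hsum : (∑ s, (siz g s : ℝ)) = n := by exact_mod_cast htot
  set x : Fin r → ℝ := fun t => (siz g t : ℝ) - n / r with hx
  have hx1 : ∑ t, x t = 0 := by
    rw [hx, Finset.sum_sub_distrib, hsum, Finset.sum_const, Finset.card_univ, Fintype.card_fin,
      nsmul_eq_mul]
    field_simp
    ring
  have hx2 : ∑ t, x t ^ 2 = dev (siz g) := by
    unfold dev
    rw [hsum]
  have hx3 : ∑ t, x t ^ 3 = cub (siz g) := by
    unfold cub
    rw [hsum]
  have hcb' : cub (siz g) ≤ cr r * (dev (siz g) * Real.sqrt (dev (siz g))) := by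
    rcases (ItemMAXG.dev_nonneg (siz g)).lt_or_eq with hpos | h0
    · have := (hS3 x (dev (siz g)) 0 hx1 hx2 hpos).1
      rwa [hx3] at this
    · rw [← h0, zero_mul, mul_zero, ← hx3]
      rw [← hx2] at h0
      have h1 := (Finset.sum_eq_zero_iff_of_nonneg (fun t _ => sq_nonneg (x t))).1 h0.symm
      refine le_of_eq (Finset.sum_eq_zero fun t ht => ?_)
      have h2 : x t = 0 := by
        have := h1 t ht
        exact pow_eq_zero_iff (two_ne_zero) |>.1 this
      rw [h2]; norm_num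
  obtain ⟨k1, k2, k3, k4⟩ := hcore n B _ _ (dev (tz r n)) (dev (siz g)) (cub (siz g))
    (Def r G) hXs hs1 hBn (ItemMAXG.dev_nonneg _) ha0 hb0 hab hT2 hT3 hv hUP hcb' hdef
  have hNN' : N ≤ N' := by linarith
  refine ⟨k1.trans (mul_le_mul_of_nonneg_right hNN' hh0), g, hF.indep, htot, ?_, ?_⟩
  · rw [← light_eq G g]
    exact k2.trans (mul_le_mul_of_nonneg_right hNN' hh0)
  obtain ⟨t₀, h0, h1⟩ := sizes hr hN0 hCS0 hS3 hx1 hx2 (B := (B : ℝ)) (n := (n : ℝ))
    (Nat.cast_nonneg B) hBn hh1 (hhs.trans hsn) hsn rfl (by rw [hx3]; exact k3) k4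
  have hnh : 0 ≤ (n : ℝ) * Real.sqrt (Real.sqrt n) := by positivity
  have hMN : (1 + N) * (2 * CS * N + N + 4) * (n * Real.sqrt (Real.sqrt n)) ≤
      N' * (n * Real.sqrt (Real.sqrt n)) :=
    mul_le_mul_of_nonneg_right (by linarith) hnh
  refine ⟨t₀, ?_, fun t ht => ?_⟩
  · have e1 : (siz g t₀ : ℝ) - (n / r + Real.sqrt (2 * B * ((r : ℝ) - 1) / r)) =
        x t₀ - Real.sqrt (2 * B * ((r : ℝ) - 1) / r) := by
      rw [hx]; ring
    rw [e1]
    exact h0.trans hMN
  · have e1 : (siz g t : ℝ)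
        - (n / r - Real.sqrt (2 * B * ((r : ℝ) - 1) / r) / ((r : ℝ) - 1)) =
        x t + Real.sqrt (2 * B * ((r : ℝ) - 1) / r) / ((r : ℝ) - 1) := by
      rw [hx]; ring
    rw [e1]
    exact (h1 t ht).trans hMN

end MP0c3a8f

end

section

/-!
# MP_0c3a8f_co, PB5, item FNU: all maximisers in the upper range
-/

open Finset

namespace MP0c3a8f

namespace ItemFNU

theorem AB_le (r n B : ℕ) (hr : 3 ≤ r) :
    AB r n B ≤ 2 * qq r * (1 - 2 / (r : ℝ)) * B := by
  have h1 : (3 : ℝ) ≤ r := by exact_mod_cast hr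
  have h2 : 0 ≤ cr r := by
    unfold cr
    exact div_nonneg (by linarith) (Real.sqrt_nonneg _)
  unfold AB
  have h3 : 0 ≤ 2 * qq r ^ 2 * cr r * (2 * B * Real.sqrt (2 * B)) / n := by positivity
  linarith

theorem sqrt_sqrt_le (n : ℕ) (hn : 1 ≤ n) : Real.sqrt (Real.sqrt n) ≤ Real.sqrt n := by
  have h1 : (1 : ℝ) ≤ n := by exact_mod_cast hn
  have h2 : 1 ≤ Real.sqrt n := by
    rw [← Real.sqrt_one]
    exact Real.sqrt_le_sqrt h1
  apply Real.sqrt_le_sqrt
  calc Real.sqrt n ≤ Real.sqrt n * Real.sqrt n := by nlinarith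
    _ = n := Real.mul_self_sqrt (by linarith)

theorem B_le {r n B : ℕ} {ε : ℝ} (hr : 3 ≤ r) (hε : 0 < ε)
    (hB : (B : ℝ) ≤ (2 / (r : ℝ) - ε) * (qq r * n)) : B ≤ n := by
  have h1 : (3 : ℝ) ≤ r := by exact_mod_cast hr
  have hn : (0 : ℝ) ≤ n := Nat.cast_nonneg n
  have h2 : (0 : ℝ) < 1 / r := by positivity
  have h3 : (1 : ℝ) / r ≤ 1 / 3 := one_div_le_one_div_of_le (by norm_num) h1
  have h4 : (2 : ℝ) / r = 2 * (1 / r) := by ring
  have h5 : 0 ≤ qq r * n := by
    unfold qq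
    exact mul_nonneg (by linarith) hn
  have h6 : (B : ℝ) ≤ n := by
    calc (B : ℝ) ≤ (2 / (r : ℝ) - ε) * (qq r * n) := hB
      _ ≤ 1 * (qq r * n) := mul_le_mul_of_nonneg_right (by linarith) h5
      _ ≤ n := by
        unfold qq
        nlinarith
  exact_mod_cast h6

end ItemFNU

open ItemFNU in
theorem prfFNU : P_statement → CHUV_statement → STUE_statement → FINV_statement →
    FNU_statement := by
  intro hP hCHUV hSTUE hFINV W _ F r ε hr hcrit hcol hncol hε
  obtain ⟨C, n0, hC, h0⟩ := hCHUV W F r hr hncol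
  obtain ⟨N1, n1, h1⟩ := hSTUE W F r ε C hr hcrit hcol hε hC
  obtain ⟨N, n2, h2⟩ := hFINV r N1 C hr hC
  refine ⟨N, n0 + n1 + n2 + 1, fun n hn B m hB hm V _ G hG => ?_⟩
  have hBn : B ≤ n := B_le hr hε hB
  obtain ⟨k, H, hH, hDH⟩ := h0 n (by omega) B m hBn hm
  have hne : Nonempty (Fin k) := by
    by_contra hcon
    rw [not_nonempty_iff] at hcon
    exact hH.notPartite (SimpleGraph.Colorable.of_isEmpty r)
  have hl0 : 0 ≤ lam H := (hP (Fin k) H).1
  have hl : lam H ≤ lam G := hG.2 _ H hH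
  have hD1 : Def r G ≤ Def r H := by
    unfold Def
    rw [hG.1.size, hH.size]
    have : lam H ^ 2 ≤ lam G ^ 2 := pow_le_pow_left₀ hl0 hl 2
    linarith
  have hD2 : Def r G ≤ AB r n B + C * Real.sqrt (Real.sqrt n) := hD1.trans hDH
  have hD3 : Def r G ≤ 2 * qq r * (1 - 2 / (r : ℝ)) * B + C * Real.sqrt n := by
    refine hD2.trans (add_le_add (AB_le r n B hr) ?_)
    exact mul_le_mul_of_nonneg_left (sqrt_sqrt_le n (by omega)) hC
  have hsz : G.edgeSet.ncard + B = (SimpleGraph.turanGraph n r).edgeSet.ncard := by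
    rw [hG.1.size]; exact hm
  obtain ⟨z, g, hF, hg, hab⟩ := h1 n (by omega) B hB V G hG.1.free hsz hD3
  exact h2 V G z g n B (by omega) hBn hF hg hsz hab hD2

end MP0c3a8f

end

section

/-!
# MP_0c3a8f_co, phase B: members with prescribed sizes of the classes (MEMS)
-/

set_option autoImplicit false

open Finset

namespace MP0c3a8f

open MEMBx in
theorem prfMEMS : NON2_statement → REDS_statement → MEMS_statement := by
  classical
  intro hN hR W _ F r hr hF
  obtain ⟨b, hb1, hreal⟩ := hN W F r hr hF 1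
  refine ⟨b, 2 * b + 3, ?_⟩
  intro σ i0 i1 d hi10 hσ hd1 hd
  have hi01 : i0 ≠ i1 := hi10.symm
  have hle_sum : ∀ t, σ t ≤ ∑ t, σ t := fun t =>
    Finset.single_le_sum (f := σ) (fun _ _ => Nat.zero_le _) (Finset.mem_univ t)
  obtain ⟨s, hs, k₀, G₀, f₀, hmod, hfree₀, hcol₀, hiso₀⟩ := hreal ((∑ t, σ t) + 1)
  have hsize₀ := hmod.size
  obtain ⟨k, H, f, hH, hHfree, hHcol, hHiso⟩ := hR W F r
    (fun t => σ t + if t = i0 then 1 else 0) (Fin k₀) G₀ f₀ hr hmod.indep
    (by
      intro t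
      rw [hmod.miss, hmod.outer]
      have := hσ t
      omega)
    (by
      intro t
      rw [hsize₀ t]
      have := hle_sum t
      split_ifs <;> omega)
    hfree₀ hcol₀ hiso₀
  rw [hmod.miss, hmod.outer] at hH
  -- missing pairs
  have hmiss : ∀ u v, f u ≠ none → f v ≠ none → f u ≠ f v → H.Adj u v := by
    intro u v hu hv huv
    by_contra hcon
    have h1 : missSet H f = ∅ := by
      rw [← Set.ncard_eq_zero (Set.toFinite _)]
      exact hH.miss
    have h2 : s(u, v) ∈ missSet H f := ⟨u, v, rfl, hu, hv, huv, hcon⟩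
    rw [h1] at h2
    exact h2
  -- two vertices of the class `0` without outer edges
  have hB := card_outer H f i0
  rw [hH.outer] at hB
  have hclass : {v | f v = some i0}.ncard = σ i0 + 1 := by
    have := hH.size i0
    simpa using this
  obtain ⟨w, w', hww, hw, hw', hwo, hwo'⟩ : ∃ w w', w ≠ w' ∧ f w = some i0 ∧ f w' = some i0 ∧
      (∀ u, H.Adj w u → f u ≠ none) ∧ ∀ u, H.Adj w' u → f u ≠ none := by
    have h1 : 1 < ({v | f v = some i0} \
        {v | f v = some i0 ∧ ∃ u, H.Adj v u ∧ f u = none}).ncard := by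
      have h2 := Set.le_ncard_sdiff {v | f v = some i0 ∧ ∃ u, H.Adj v u ∧ f u = none}
        {v | f v = some i0} (Set.toFinite _)
      rw [hclass] at h2
      have := hσ i0
      omega
    obtain ⟨w, hw, w', hw', hne⟩ := (Set.one_lt_ncard (Set.toFinite _)).1 h1
    refine ⟨w, w', hne, hw.1, hw'.1, fun u hu hn => hw.2 ⟨hw.1, u, hu, hn⟩,
      fun u hu hn => hw'.2 ⟨hw'.1, u, hu, hn⟩⟩
  have hadj : ∀ x, f x = some i0 → (∀ u, H.Adj x u → f u ≠ none) → ∀ u,
      (H.Adj x u ↔ f u ≠ none ∧ f u ≠ some i0) := by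
    intro x hx hxo u
    constructor
    · intro h
      refine ⟨hxo u h, fun h2 => ?_⟩
      exact hH.indep x u (by rw [hx]; exact Option.some_ne_none _) (by rw [hx, h2]) h
    · rintro ⟨h1, h2⟩
      exact hmiss x u (by rw [hx]; exact Option.some_ne_none _) h1 (by rw [hx]; exact h2.symm)
  -- the set `M`
  have hclass1 : {v | f v = some i1}.ncard = σ i1 := by
    have := hH.size i1
    simpa [hi10] using this
  obtain ⟨M, hMR, hMcard⟩ := Finset.exists_subset_card_eq
    (s := Finset.univ.filter (fun v => f v = some i1)) (n := d) (by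
      rw [← ncard_filter, hclass1]
      omega)
  have hM1 : ∀ v ∈ M, f v = some i1 := fun v hv => (Finset.mem_filter.1 (hMR hv)).2
  have hM : ∀ v ∈ M, f v ≠ none ∧ f v ≠ some i0 := by
    intro v hv
    rw [hM1 v hv]
    exact ⟨Option.some_ne_none _, fun h => hi10 (Option.some_injective _ h)⟩
  have hwM : w ∉ M := fun h => (hM w h).2 hw
  have hMne : M.Nonempty := by
    rw [← Finset.card_pos]
    omega
  obtain ⟨y0, hy0⟩ := hMne
  have hMw : ∀ v ∈ M, v ≠ w := fun v hv h => hwM (h ▸ hv)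
  -- a vertex of the class `1`
  obtain ⟨y1, hy1⟩ : ∃ y, f y = some i1 := ⟨y0, hM1 y0 hy0⟩
  have hy1w : y1 ≠ w := by
    intro h
    rw [h, hw] at hy1
    exact hi01 (Option.some_injective _ hy1)
  have hle : mk H w M hwM ≤ H := by
    intro u v h
    rcases h with h | h | h
    · exact h.2.2
    · rw [h.1]
      exact (hadj w hw hwo v).2 (hM v h.2)
    · rw [h.1]
      exact ((hadj w hw hwo u).2 (hM u h.2)).symm
  obtain ⟨g, hg⟩ : ∃ g : Fin k → Option (Fin r), g = fun v => if v = w then none else f v :=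
    ⟨_, rfl⟩
  have hgw : g w = none := by rw [hg]; simp
  have hgn : ∀ v, v ≠ w → g v = f v := by
    intro v hv
    rw [hg]
    simp [hv]
  have hgnw : ∀ v, g v ≠ none → v ≠ w := by
    intro v hv h
    rw [h] at hv
    exact hv hgw
  refine ⟨k, mk H w M hwM, g, w, ?_, ?_, ?_, ?_, hgw, ?_, ?_, ?_, ?_⟩
  · exact fun h => hHfree (h.trans (SimpleGraph.IsContained.of_le hle))
  · -- not colorable
    rintro ⟨c⟩
    apply hHcol
    refine ⟨SimpleGraph.Coloring.mk (fun v => if v = w then c w' else c v) ?_⟩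
    intro u v huv
    have key : ∀ v, v ≠ w → H.Adj w v → c w' ≠ c v := by
      intro v hv h
      have h1 := (hadj w hw hwo v).1 h
      have h2 : H.Adj w' v := (hadj w' hw' hwo' v).2 h1
      exact c.valid ((mk_ne hww.symm hv).2 h2)
    by_cases hu : u = w
    · have hv : v ≠ w := by
        intro h
        rw [hu, h] at huv
        exact H.loopless.irrefl w huv
      rw [if_pos hu, if_neg hv]
      exact key v hv (hu ▸ huv)
    · by_cases hv : v = w
      · rw [if_neg hu, if_pos hv]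
        exact (key u hu (hv ▸ huv.symm)).symm
      · rw [if_neg hu, if_neg hv]
        exact c.valid ((mk_ne hu hv).2 huv)
  · -- no isolated vertices
    intro v
    by_cases hv : v = w
    · rw [hv]
      exact ⟨y0, mk_w.2 hy0⟩
    · by_cases hvn : f v = none
      · obtain ⟨u, hu⟩ := hHiso v
        have huw : u ≠ w := by
          intro h
          rw [h] at hu
          exact hwo v hu.symm hvn
        exact ⟨u, (mk_ne hv huw).2 hu⟩
      · by_cases hv0 : f v = some i0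
        · refine ⟨y1, (mk_ne hv hy1w).2 ?_⟩
          refine hmiss v y1 hvn (by rw [hy1]; exact Option.some_ne_none _) ?_
          rw [hv0, hy1]
          exact fun h => hi01 (Option.some_injective _ h)
        · exact ⟨w', (mk_ne hv hww.symm).2 ((hadj w' hw' hwo' v).2 ⟨hvn, hv0⟩).symm⟩
  · -- independent classes
    intro u v hu huv h
    have hu' := hgnw u hu
    have hv' : v ≠ w := hgnw v (huv ▸ hu)
    rw [hgn u hu'] at hu huv
    rw [hgn v hv'] at huv
    exact hH.indep u v hu huv ((mk_ne hu' hv').1 h)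
  · -- missing pairs
    rw [Set.ncard_eq_zero (Set.toFinite _), Set.eq_empty_iff_forall_notMem]
    rintro e ⟨u, v, -, hu, hv, huv, hn⟩
    have hu' := hgnw u hu
    have hv' := hgnw v hv
    rw [hgn u hu'] at hu huv
    rw [hgn v hv'] at hv huv
    exact hn ((mk_ne hu' hv').2 (hmiss u v hu hv huv))
  · -- light edges
    have h1 : lightSet (mk H w M hwM) g {w} = outSet H f := by
      ext e
      induction e using Sym2.ind with
      | _ u v =>
        constructor
        · rintro ⟨he, x, hx, hxn, hxw⟩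
          have hxw' : x ≠ w := fun h => hxw (by rw [h]; exact Finset.mem_singleton_self w)
          refine ⟨hle he, x, hx, ?_⟩
          rw [← hgn x hxw']
          exact hxn
        · rintro ⟨he, x, hx, hxn⟩
          have hxw : x ≠ w := by
            intro h
            rw [h, hw] at hxn
            exact Option.some_ne_none _ hxn
          have he' : H.Adj u v := he
          refine ⟨?_, x, hx, by rw [hgn x hxw]; exact hxn, fun h => hxw (Finset.mem_singleton.1 h)⟩
          change (mk H w M hwM).Adj u v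
          rcases Sym2.mem_iff.1 hx with h | h
          · have hv : v ≠ w := by
              intro h'
              rw [h'] at he'
              exact hwo u he'.symm (h ▸ hxn)
            exact (mk_ne (h ▸ hxw) hv).2 he'
          · have hu : u ≠ w := by
              intro h'
              rw [h'] at he'
              exact hwo v he' (h ▸ hxn)
            exact (mk_ne hu (h ▸ hxw)).2 he'
    rw [h1, hH.outer]
  · -- the sizes
    intro t
    unfold siz
    by_cases ht : t = i0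
    · have h1 : {v | g v = some t} = {v | f v = some i0} \ {w} := by
        ext v
        constructor
        · intro hv
          have hv1 : g v = some t := hv
          have hv' : v ≠ w := hgnw v (by rw [hv1]; exact Option.some_ne_none _)
          refine ⟨?_, hv'⟩
          rw [hgn v hv', ht] at hv1
          exact hv1
        · rintro ⟨hv, hv'⟩
          have hv2 : v ≠ w := hv'
          change g v = some t
          rw [hgn v hv2, ht]
          exact hv
      rw [h1, Set.ncard_sdiff_singleton_of_mem (show w ∈ {v | f v = some i0} from hw), hclass, ht]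
      omega
    · have h1 : {v | g v = some t} = {v | f v = some t} := by
        ext v
        constructor
        · intro hv
          have hv1 : g v = some t := hv
          have hv' : v ≠ w := hgnw v (by rw [hv1]; exact Option.some_ne_none _)
          rw [hgn v hv'] at hv1
          exact hv1
        · intro hv
          have hv1 : f v = some t := hv
          have hv2 : v ≠ w := by
            intro h
            rw [h, hw] at hv1
            exact ht (Option.some_injective _ hv1).symm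
          change g v = some t
          rw [hgn v hv2]
          exact hv1
      rw [h1, hH.size t, if_neg ht, Nat.add_zero]
  · -- the number of neighbours
    intro t
    have h1 : nbn (mk H w M hwM) g w t = (M.filter (fun v => g v = some t)).card := by
      unfold nbn
      rw [← Set.ncard_coe_finset]
      congr 1
      ext v
      simp only [Set.mem_ofPred_eq, Finset.coe_filter]
      rw [mk_w]
      exact and_comm
    rw [h1]
    by_cases ht : t = i1
    · rw [if_pos ht, Finset.filter_true_of_mem, hMcard]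
      intro v hv
      rw [hgn v (hMw v hv), ht]
      exact hM1 v hv
    · rw [if_neg ht, Finset.card_eq_zero, Finset.filter_eq_empty_iff]
      intro v hv
      rw [hgn v (hMw v hv), hM1 v hv]
      exact fun h => ht (Option.some_injective _ h).symm

end MP0c3a8f

end

section

/-!
# MP_0c3a8f_co, phase B: members with given sizes of the classes and many outer edges (MEMV)

The proof is that of `prfMEMU`.
-/

set_option autoImplicit false

open Finset

namespace MP0c3a8f

open MEMUx in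
theorem prfMEMV : NON2_statement → REDS_statement → MEMV_statement := by
  classical
  intro hN hR W _ F r hr hF b₁
  obtain ⟨b, hb₁, hreal⟩ := hN W F r hr hF (max 1 b₁)
  refine ⟨b, le_trans (le_max_right 1 b₁) hb₁, 2 * b + 3, ?_⟩
  intro σ a hσ
  obtain ⟨i0, hi0⟩ : ∃ i : Fin r, i.val = 0 := ⟨⟨0, by omega⟩, rfl⟩
  obtain ⟨i1, hi1⟩ : ∃ i : Fin r, i.val = 1 := ⟨⟨1, by omega⟩, rfl⟩
  have hi01 : i0 ≠ i1 := by
    intro h
    rw [h, hi1] at hi0
    omega
  obtain ⟨s, hs, k₀, G₀, f₀, hmod, hfree₀, hcol₀, hiso₀⟩ := hreal (∑ t, σ t)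
  have hsize₀ := hmod.size
  obtain ⟨k, H, f, hH, hHfree, hHcol, hHiso⟩ := hR W F r σ (Fin k₀) G₀ f₀ hr hmod.indep
    (by
      intro t
      rw [hmod.miss, hmod.outer]
      have := hσ t
      omega)
    (by
      intro t
      rw [hsize₀ t]
      have : σ t ≤ ∑ t, σ t := Finset.single_le_sum (fun _ _ => Nat.zero_le _) (Finset.mem_univ t)
      omega)
    hfree₀ hcol₀ hiso₀
  rw [hmod.miss, hmod.outer] at hH
  -- missing pairs
  have hmiss : ∀ u v, f u ≠ none → f v ≠ none → f u ≠ f v → H.Adj u v := by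
    intro u v hu hv huv
    by_contra hcon
    have h1 : missSet H f = ∅ := by
      rw [← Set.ncard_eq_zero (Set.toFinite _)]
      exact hH.miss
    have h2 : s(u, v) ∈ missSet H f := ⟨u, v, rfl, hu, hv, huv, hcon⟩
    rw [h1] at h2
    exact h2
  -- two vertices of the class `0` without outer edges
  have hB := MEMBx.card_outer H f i0
  rw [hH.outer] at hB
  obtain ⟨w, w', hww, hw, hw', hwo, hwo'⟩ : ∃ w w', w ≠ w' ∧ f w = some i0 ∧ f w' = some i0 ∧
      (∀ u, H.Adj w u → f u ≠ none) ∧ ∀ u, H.Adj w' u → f u ≠ none := by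
    have h1 : 1 < ({v | f v = some i0} \
        {v | f v = some i0 ∧ ∃ u, H.Adj v u ∧ f u = none}).ncard := by
      have h2 := Set.le_ncard_sdiff {v | f v = some i0 ∧ ∃ u, H.Adj v u ∧ f u = none}
        {v | f v = some i0} (Set.toFinite _)
      rw [hH.size i0] at h2
      have := hσ i0
      omega
    obtain ⟨w, hw, w', hw', hne⟩ := (Set.one_lt_ncard (Set.toFinite _)).1 h1
    refine ⟨w, w', hne, hw.1, hw'.1, fun u hu hn => hw.2 ⟨hw.1, u, hu, hn⟩,
      fun u hu hn => hw'.2 ⟨hw'.1, u, hu, hn⟩⟩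
  have hadj : ∀ x, f x = some i0 → (∀ u, H.Adj x u → f u ≠ none) → ∀ u,
      (H.Adj x u ↔ f u ≠ none ∧ f u ≠ some i0) := by
    intro x hx hxo u
    constructor
    · intro h
      refine ⟨hxo u h, fun h2 => ?_⟩
      exact hH.indep x u (by rw [hx]; exact Option.some_ne_none _) (by rw [hx, h2]) h
    · rintro ⟨h1, h2⟩
      exact hmiss x u (by rw [hx]; exact Option.some_ne_none _) h1 (by rw [hx]; exact h2.symm)
  -- the set `M`
  have hcard1 : (Finset.univ.filter fun v => f v = some i1).card = σ i1 := by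
    rw [← MEMBx.ncard_filter, hH.size i1]
  obtain ⟨M, hMR, hMcard⟩ := Finset.exists_subset_card_eq
    (s := Finset.univ.filter fun v => f v = some i1) (n := a) (by
      rw [hcard1]
      have := hσ i1
      omega)
  have hM : ∀ v ∈ M, f v = some i1 := fun v hv => (Finset.mem_filter.1 (hMR hv)).2
  -- a vertex of the class `1` not in `M`
  obtain ⟨y1, hy1, hy1M⟩ : ∃ y, f y = some i1 ∧ y ∉ M := by
    have h1 : M.card < (Finset.univ.filter fun v => f v = some i1).card := by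
      rw [hcard1, hMcard]
      have := hσ i1
      omega
    obtain ⟨y, hy, hyM⟩ := Finset.exists_mem_notMem_of_card_lt_card h1
    exact ⟨y, (Finset.mem_filter.1 hy).2, hyM⟩
  have hne0 : ∀ y, f y = some i1 → y ≠ w := by
    intro y hy h
    rw [h, hw] at hy
    exact hi01 (Option.some_injective _ hy)
  refine ⟨k, mk H w M, f, ?_, ?_, ?_, ?_, ?_, ?_, hH.size⟩
  · exact fun h => hHfree (h.trans (SimpleGraph.IsContained.of_le mk_le))
  · -- not colorable
    rintro ⟨c⟩
    apply hHcol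
    refine ⟨SimpleGraph.Coloring.mk (fun v => if v = w then c w' else c v) ?_⟩
    intro u v huv
    have key : ∀ v, v ≠ w → H.Adj w v → c w' ≠ c v := by
      intro v hv h
      have h1 := (hadj w hw hwo v).1 h
      have h2 : H.Adj w' v := (hadj w' hw' hwo' v).2 h1
      exact c.valid (mk_ne hww.symm hv h2)
    by_cases hu : u = w
    · have hv : v ≠ w := by
        intro h
        rw [hu, h] at huv
        exact H.loopless.irrefl w huv
      rw [if_pos hu, if_neg hv]
      exact key v hv (hu ▸ huv)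
    · by_cases hv : v = w
      · rw [if_neg hu, if_pos hv]
        exact (key u hu (hv ▸ huv.symm)).symm
      · rw [if_neg hu, if_neg hv]
        exact c.valid (mk_ne hu hv huv)
  · -- no isolated vertices
    intro v
    by_cases hv : v = w
    · rw [hv]
      refine ⟨y1, ?_, fun h => hy1M h.2, fun h => hne0 y1 hy1 h.1⟩
      refine (hadj w hw hwo y1).2 ?_
      rw [hy1]
      exact ⟨Option.some_ne_none _, fun h => hi01 (Option.some_injective _ h).symm⟩
    · by_cases hvn : f v = none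
      · obtain ⟨u, hu⟩ := hHiso v
        have huw : u ≠ w := by
          intro h
          rw [h] at hu
          exact hwo v hu.symm hvn
        exact ⟨u, mk_ne hv huw hu⟩
      · by_cases hv0 : f v = some i0
        · refine ⟨y1, mk_ne hv (hne0 y1 hy1) ?_⟩
          refine hmiss v y1 hvn (by rw [hy1]; exact Option.some_ne_none _) ?_
          rw [hv0, hy1]
          exact fun h => hi01 (Option.some_injective _ h)
        · exact ⟨w', mk_ne hv hww.symm ((hadj w' hw' hwo' v).2 ⟨hvn, hv0⟩).symm⟩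
  · -- independent classes
    intro u v hu huv h
    exact hH.indep u v hu huv h.1
  · -- missing pairs
    have h1 : missSet (mk H w M) f = (fun y => s(w, y)) '' (M : Set (Fin k)) := by
      ext e
      constructor
      · rintro ⟨u, v, rfl, hu, hv, huv, hn⟩
        have h2 := hmiss u v hu hv huv
        have h3 : (u = w ∧ v ∈ M) ∨ (v = w ∧ u ∈ M) := by
          by_contra hcon
          push Not at hcon
          exact hn ⟨h2, fun h => hcon.1 h.1 h.2, fun h => hcon.2 h.1 h.2⟩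
        rcases h3 with h3 | h3
        · exact ⟨v, h3.2, by rw [h3.1]⟩
        · exact ⟨u, h3.2, by rw [h3.1]; exact Sym2.eq_swap⟩
      · rintro ⟨y, hy, rfl⟩
        have hy' := hM y hy
        refine ⟨w, y, rfl, by rw [hw]; exact Option.some_ne_none _,
          by rw [hy']; exact Option.some_ne_none _, ?_, fun h => h.2.1 ⟨rfl, hy⟩⟩
        rw [hw, hy']
        exact fun h => hi01 (Option.some_injective _ h)
    rw [h1, Set.ncard_image_of_injective, Set.ncard_coe_finset, hMcard]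
    intro y y' h
    exact Sym2.congr_right.1 h
  · -- outer edges
    have h1 : outSet (mk H w M) f = outSet H f := by
      ext e
      induction e using Sym2.ind with
      | _ u v =>
        constructor
        · rintro ⟨he, x, hx, hxn⟩
          have he' : (mk H w M).Adj u v := he
          exact ⟨he'.1, x, hx, hxn⟩
        · rintro ⟨he, x, hx, hxn⟩
          have he' : H.Adj u v := he
          refine ⟨?_, x, hx, hxn⟩
          change (mk H w M).Adj u v
          refine ⟨he', fun h => ?_, fun h => ?_⟩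
          · rcases Sym2.mem_iff.1 hx with h' | h'
            · rw [h', h.1, hw] at hxn
              exact Option.some_ne_none _ hxn
            · rw [h', hM v h.2] at hxn
              exact Option.some_ne_none _ hxn
          · rcases Sym2.mem_iff.1 hx with h' | h'
            · rw [h', hM u h.2] at hxn
              exact Option.some_ne_none _ hxn
            · rw [h', h.1, hw] at hxn
              exact Option.some_ne_none _ hxn
    rw [h1, hH.outer]

end MP0c3a8f

end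

section

/-!
# MP_0c3a8f_co, transition range: the optimisation (item OPT2)
-/

open Finset

namespace MP0c3a8f
namespace ItemOPT2

theorem qq_bd {r : ℕ} (hr : 3 ≤ r) : 2 / 3 ≤ qq r ∧ qq r < 1 := by
  have h3 : (3 : ℝ) ≤ r := by exact_mod_cast hr
  unfold qq
  constructor
  · have : 1 / (r : ℝ) ≤ 1 / 3 := one_div_le_one_div_of_le (by norm_num) h3
    linarith
  · have : 0 < 1 / (r : ℝ) := by positivity
    linarith

/-- the distance of `B` from `q n - D` -/
theorem B_bd {r n D B : ℕ} (hr : 3 ≤ r) (h : D + B + n / r = n) :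
    (B : ℝ) ≤ qq r * n - D + 1 := by
  have hr0 : (0 : ℝ) < r := by
    have : (3 : ℝ) ≤ r := by exact_mod_cast hr
    linarith
  have h1 : (D : ℝ) + B + ((n / r : ℕ) : ℝ) = n := by exact_mod_cast h
  have h2 : (n : ℝ) / r < ((n / r : ℕ) : ℝ) + 1 := by
    rw [div_lt_iff₀ hr0]
    have h3 := Nat.lt_div_mul_add (a := n) (b := r) (by omega)
    have h4 : n < (n / r + 1) * r := by
      rw [add_mul, one_mul]; exact h3
    exact_mod_cast h4
  have h5 : qq r * n = n - (n : ℝ) / r := by unfold qq; ring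
  rw [h5]
  linarith

/-- the inequality in the scaled variables -/
theorem step4 (r K : ℕ) (ε C : ℝ) (n n₁ D B : ℕ) (dv dT a b e : ℝ) (k : ℤ)
    {ι : Type} (U : Finset ι) (d : ι → ℝ) (t : ι → ℝ) (hr : 3 ≤ r)
    (hn : 0 < n) (hn₁ : 0 < n₁) (hε : 0 < ε) (hεr : ε ≤ 1 / (2 * (r : ℝ)))
    (_hdv : 0 ≤ dv) (hdT : 0 ≤ dT) (hdT' : dT ≤ r) (hC : 0 ≤ C)
    (ha : 0 ≤ a) (hb : 0 ≤ b) (he : 0 ≤ e) (he' : e ≤ (K : ℝ) ^ 2) (hU : U.card ≤ K)
    (hk : (k : ℝ) = n₁ - n) (hk' : |(n₁ : ℝ) - n| ≤ C)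
    (ht : ∀ i, t i = d i / (qq r * n₁)) (ht01 : ∀ i ∈ U, 0 ≤ t i ∧ t i ≤ 1)
    (hRT : RT r n D B ε)
    (hrel : qq r * (n₁ : ℝ) ^ 2 - dv + 2 * ∑ i ∈ U, d i + 2 * e - 2 * a + 2 * b
      = qq r * (n : ℝ) ^ 2 - dT + 2 * D)
    (hbig : (C ^ 2 + C * K + 2 * K ^ 2 + r) / ε ≤ n)
    (h3 : (2 * qq r - 1 / (4 * (r : ℝ) ^ 2)) * (a + b) + qq r * (1 - 2 / (r : ℝ)) * dv
      + ∑ i ∈ U, 2 * d i * (qq r - d i / n₁) ≤ 2 * D * (qq r - D / n) + C * Real.sqrt n)
    (h3' : (2 * qq r - 1 / (4 * (r : ℝ) ^ 2)) * (a + b) + qq r * (1 - 2 / (r : ℝ)) * dv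
      + ∑ i ∈ U, 2 * d i * (qq r - d i / n₁)
      ≤ 2 * qq r * (1 - 2 / (r : ℝ)) * B + C * Real.sqrt n) :
    ∃ x' : ℝ, |x' - (1 - 2 / (r : ℝ))| ≤ 2 * ε ∧
      ∑ i ∈ U, t i + b / (qq r * n) - a / (qq r * n) - dv / (2 * qq r * n) + k = x' ∧
      ∑ i ∈ U, t i * (1 - t i)
        + (1 - 1 / (4 * (r : ℝ) ^ 2)) * (a / (qq r * n) + b / (qq r * n))
        + (1 - 2 / (r : ℝ)) * (dv / (2 * qq r * n)) ≤ x' * (1 - x')
        + (C * K + (C ^ 2 + C * K + 2 * K ^ 2 + r) + 2 * C + 2) * Real.sqrt n / n ∧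
      ∑ i ∈ U, t i * (1 - t i)
        + (1 - 1 / (4 * (r : ℝ) ^ 2)) * (a / (qq r * n) + b / (qq r * n))
        + (1 - 2 / (r : ℝ)) * (dv / (2 * qq r * n)) ≤ (1 - 2 / (r : ℝ)) * (1 - x')
        + (C * K + (C ^ 2 + C * K + 2 * K ^ 2 + r) + 2 * C + 2) * Real.sqrt n / n
      := by
  obtain ⟨hq, hq1⟩ := qq_bd hr
  have hr' : (3 : ℝ) ≤ r := by exact_mod_cast hr
  have hn' : (0 : ℝ) < n := by exact_mod_cast hn
  have hn1' : (1 : ℝ) ≤ n := by exact_mod_cast hn
  have hn₁' : (0 : ℝ) < n₁ := by exact_mod_cast hn₁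
  have hq0 : 0 < qq r := by linarith
  have hr0 : (0 : ℝ) < r := by positivity
  have hr2 : 0 < 2 / (r : ℝ) := by positivity
  have hr3 : 2 / (r : ℝ) ≤ 2 / 3 := div_le_div_of_nonneg_left (by norm_num) (by norm_num) hr'
  have hεr' : 4 * ε ≤ 2 / (r : ℝ) := by
    have : 1 / (2 * (r : ℝ)) = 2 / (r : ℝ) / 4 := by field_simp; norm_num
    linarith
  have hBB := B_bd hr hRT.2
  obtain ⟨hRT1, -⟩ := hRT
  obtain ⟨h1, h2⟩ := abs_le.1 hRT1
  have hK : (0 : ℝ) ≤ K := by positivity
  have hqn : 0 < qq r * n := by positivity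
  have hqn1 : (qq r * n : ℝ) ≠ 0 := hqn.ne'
  have hs1 : 1 ≤ Real.sqrt n := by
    rw [Real.one_le_sqrt]; exact hn1'
  have hs0 : 0 ≤ Real.sqrt n := by linarith
  have he10 : 0 ≤ 1 / (4 * (r : ℝ) ^ 2) := by positivity
  set s := Real.sqrt n
  set e1 := 1 / (4 * (r : ℝ) ^ 2) with he1
  set q := qq r with hqd
  set C8 := C ^ 2 + C * K + 2 * K ^ 2 + r with hC8
  have hC80 : 0 ≤ C8 := by positivity
  have hd : ∀ i, d i = t i * (q * n₁) := fun i => by
    rw [ht i]; field_simp
  have hst0 : 0 ≤ ∑ i ∈ U, t i := sum_nonneg fun i hi => (ht01 i hi).1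
  have hstK : ∑ i ∈ U, t i ≤ K := by
    calc ∑ i ∈ U, t i ≤ ∑ i ∈ U, (1 : ℝ) := sum_le_sum fun i hi => (ht01 i hi).2
      _ = U.card := by simp
      _ ≤ K := by exact_mod_cast hU
  have hsd : ∑ i ∈ U, d i = (∑ i ∈ U, t i) * (q * n₁) := by
    rw [sum_mul]; exact sum_congr rfl fun i _ => hd i
  set T := ∑ i ∈ U, t i with hT
  obtain ⟨x, hx⟩ : ∃ x : ℝ, x = D / (q * n) := ⟨_, rfl⟩
  have hDx : (D : ℝ) = x * (q * n) := by rw [hx]; field_simp
  have hx1 : -ε ≤ x - (1 - 2 / (r : ℝ)) := by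
    rw [hDx] at h1
    refine le_of_mul_le_mul_right ?_ hqn
    linarith
  have hx2 : x - (1 - 2 / (r : ℝ)) ≤ ε := by
    rw [hDx] at h2
    refine le_of_mul_le_mul_right ?_ hqn
    linarith
  obtain ⟨ξ, hξ⟩ : ∃ ξ : ℝ, ξ = (k : ℝ) ^ 2 / (2 * n) + k / n * T + e / (q * n)
    + dT / (2 * q * n) := ⟨_, rfl⟩
  have hn1k : (n₁ : ℝ) = n + k := by rw [hk]; ring
  have hkC : |(k : ℝ)| ≤ C := by rw [hk]; exact hk'
  have hξn : |ξ * n| ≤ C8 := by
    have e1 : ξ * n = (k : ℝ) ^ 2 / 2 + k * T + e / q + dT / (2 * q) := by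
      rw [hξ]; field_simp
    rw [e1]
    have a1 : (k : ℝ) ^ 2 ≤ C ^ 2 := by
      rw [← sq_abs]; exact pow_le_pow_left₀ (abs_nonneg _) hkC 2
    have a2 : |(k : ℝ) * T| ≤ C * K := by
      rw [abs_mul, abs_of_nonneg hst0]
      exact mul_le_mul hkC hstK hst0 hC
    have a3 : e / q ≤ 2 * K ^ 2 := by
      rw [div_le_iff₀ hq0]
      have : 2 * (K : ℝ) ^ 2 * (1 / 2) ≤ 2 * K ^ 2 * q :=
        mul_le_mul_of_nonneg_left (by linarith) (by positivity)
      linarith
    have a4 : dT / (2 * q) ≤ r := by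
      rw [div_le_iff₀ (by positivity)]
      have : (r : ℝ) * 1 ≤ r * (2 * q) := mul_le_mul_of_nonneg_left (by linarith) hr0.le
      linarith
    have a5 : 0 ≤ e / q := by positivity
    have a6 : 0 ≤ dT / (2 * q) := by positivity
    have a7 := abs_le.mp a2
    have a8 : (0 : ℝ) ≤ (k : ℝ) ^ 2 := sq_nonneg _
    have b1 : 0 ≤ C ^ 2 := sq_nonneg _
    have b2 : 0 ≤ (K : ℝ) ^ 2 := sq_nonneg _
    have a71 := a7.1
    have a72 := a7.2
    clear a7 hrel h3 h3' hd ht hsd
    rw [abs_le, hC8]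
    constructor <;> linarith
  have hξ' : |ξ| ≤ C8 / n := by
    rw [le_div_iff₀ hn']
    rwa [abs_mul, abs_of_pos hn'] at hξn
  have hξ2 : |ξ| ≤ ε := by
    apply hξ'.trans
    rw [div_le_iff₀ hn']
    rw [div_le_iff₀ hε] at hbig
    linarith
  have hξa := abs_le.mp hξ2
  have hsum : ∑ i ∈ U, 2 * d i * (q - d i / n₁)
      = (∑ i ∈ U, t i * (1 - t i)) * (2 * q ^ 2 * n₁) := by
    rw [sum_mul]
    refine sum_congr rfl fun i _ => ?_
    rw [hd i]; field_simp
  have hS0 : 0 ≤ ∑ i ∈ U, t i * (1 - t i) := sum_nonneg fun i hi =>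
    mul_nonneg (ht01 i hi).1 (by linarith [(ht01 i hi).2])
  have hSK : ∑ i ∈ U, t i * (1 - t i) ≤ K := by
    refine le_trans (sum_le_sum fun i hi => ?_) hstK
    have h0 := (ht01 i hi).1
    have := mul_nonneg h0 h0
    linarith
  set S := ∑ i ∈ U, t i * (1 - t i) with hS
  have hden : 0 < 2 * q ^ 2 * n := by positivity
  have h2q : 1 / 2 ≤ 2 * q ^ 2 := by
    have : (2 / 3 : ℝ) ^ 2 ≤ q ^ 2 := pow_le_pow_left₀ (by norm_num) hq 2
    linarith
  rw [hsum] at h3 h3'
  -- the common left side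
  have hL : ∀ R : ℝ, (2 * q - e1) * (a + b) + q * (1 - 2 / (r : ℝ)) * dv +
      S * (2 * q ^ 2 * n₁) ≤ 2 * q ^ 2 * n * R + C * s →
      S + (1 - e1) * (a / (q * n) + b / (q * n)) + (1 - 2 / (r : ℝ)) * (dv / (2 * q * n)) ≤
        R + (C * K * s / n + 2 * C * s / n) := by
    intro R hR
    have h4 : S * (n₁ / n) + (1 - e1 / (2 * q)) * (a / (q * n) + b / (q * n))
        + (1 - 2 / (r : ℝ)) * (dv / (2 * q * n)) ≤ R + C * s / (2 * q ^ 2 * n) := by
      have e1' : S * (n₁ / n) + (1 - e1 / (2 * q)) * (a / (q * n) + b / (q * n))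
        + (1 - 2 / (r : ℝ)) * (dv / (2 * q * n)) = ((2 * q - e1) * (a + b)
          + q * (1 - 2 / (r : ℝ)) * dv + S * (2 * q ^ 2 * n₁)) / (2 * q ^ 2 * n) := by
        field_simp
        ring
      have e2' : R + C * s / (2 * q ^ 2 * n)
          = (2 * q ^ 2 * n * R + C * s) / (2 * q ^ 2 * n) := by
        field_simp
      rw [e1', e2']
      exact div_le_div_of_nonneg_right hR hden.le
    have h5 : C * s / (2 * q ^ 2 * n) ≤ 2 * C * s / n := by
      rw [div_le_div_iff₀ hden hn']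
      calc C * s * n = 2 * C * s * (1 / 2 * n) := by ring
        _ ≤ 2 * C * s * (2 * q ^ 2 * n) := by gcongr
    have h6 : S - C * K / n ≤ S * (n₁ / n) := by
      have e1' : S * (n₁ / n) = S + S * k / n := by rw [hn1k]; field_simp
      have e2' : -(C * K) ≤ S * k := by
        have e0 : |S * k| ≤ K * C := by
          rw [abs_mul, abs_of_nonneg hS0]
          exact mul_le_mul hSK hkC (abs_nonneg _) hK
        have := (abs_le.mp e0).1
        linarith
      have e3' : -(C * K) / n ≤ S * k / n := div_le_div_of_nonneg_right e2' hn'.le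
      rw [e1']
      have e4' : -(C * K) / n = -(C * K / n) := neg_div _ _
      linarith
    have h7 : (1 - e1) * (a / (q * n) + b / (q * n))
        ≤ (1 - e1 / (2 * q)) * (a / (q * n) + b / (q * n)) := by
      apply mul_le_mul_of_nonneg_right _ (by positivity)
      have : e1 / (2 * q) ≤ e1 := div_le_self he10 (by linarith)
      linarith
    have h10 : C * K / n ≤ C * K * s / n := by
      apply div_le_div_of_nonneg_right _ hn'.le
      exact le_mul_of_one_le_right (by positivity) hs1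
    linarith only [h4, h5, h6, h7, h10]
  have h9 : (C * K + C8 + 2 * C + 2) * s / n
      = C * K * s / n + C8 * s / n + 2 * C * s / n + 2 * s / n := by ring
  have h11 : C8 / n ≤ C8 * s / n := by
    apply div_le_div_of_nonneg_right _ hn'.le
    exact le_mul_of_one_le_right (by positivity) hs1
  have h12 : 2 / n ≤ 2 * s / n := by
    apply div_le_div_of_nonneg_right _ hn'.le
    linarith
  have h13 : 0 ≤ 2 / (n : ℝ) := by positivity
  refine ⟨x - ξ, ?_, ?_, ?_, ?_⟩
  · rw [abs_le]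
    constructor <;> linarith only [hx1, hx2, hξa.1, hξa.2]
  · rw [hx, hξ]
    have : q * ((n : ℝ) + k) ^ 2 - dv + 2 * (T * (q * (n + k))) + 2 * e - 2 * a + 2 * b
      = q * (n : ℝ) ^ 2 - dT + 2 * D := by
      rw [← hn1k, ← hsd]; exact hrel
    field_simp
    linear_combination this
  · have hA := hL (x * (1 - x)) (by
      have e2' : 2 * (D : ℝ) * (q - D / n) = 2 * q ^ 2 * n * (x * (1 - x)) := by
        rw [hDx]
        field_simp
      rw [← e2']
      exact h3)
    have hB : x * (1 - x) ≤ (x - ξ) * (1 - (x - ξ)) + C8 / n := by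
      have e0 : |ξ * (2 * x - 1 - ξ)| ≤ C8 / n * 1 := by
        rw [abs_mul]
        refine mul_le_mul hξ' ?_ (abs_nonneg _) ((abs_nonneg _).trans hξ')
        rw [abs_le]
        constructor <;> linarith only [hx1, hx2, hξa.1, hξa.2, hεr', hr2, hr3]
      have e3' := (abs_le.mp e0).1
      linarith only [e3']
    rw [h9]
    linarith only [hA, hB, h11, h12, h13]
  · have hA := hL ((1 - 2 / (r : ℝ)) * (B / (q * n))) (by
      have e2' : 2 * q * (1 - 2 / (r : ℝ)) * B =
          2 * q ^ 2 * n * ((1 - 2 / (r : ℝ)) * (B / (q * n))) := by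
        field_simp
      rw [← e2']
      exact h3')
    have hB1 : (B : ℝ) / (q * n) ≤ 1 - x + 2 / n := by
      rw [div_le_iff₀ hqn]
      have e0 : (1 - x + 2 / (n : ℝ)) * (q * n) = q * n - D + 2 * q := by
        rw [hDx]; field_simp
      rw [e0]
      linarith only [hBB, hq]
    have hB2 : (B : ℝ) / (q * n) ≤ 1 - (x - ξ) + (C8 / n + 2 / n) := by
      have := (abs_le.mp hξ').1
      linarith only [this, hB1]
    have hr4 : 0 ≤ 1 - 2 / (r : ℝ) := by linarith only [hr3]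
    have hB3 : (1 - 2 / (r : ℝ)) * (B / (q * n)) ≤
        (1 - 2 / (r : ℝ)) * (1 - (x - ξ) + (C8 / n + 2 / n)) := mul_le_mul_of_nonneg_left hB2 hr4
    have hB4 : (1 - 2 / (r : ℝ)) * (C8 / n + 2 / n) ≤ 1 * (C8 / n + 2 / n) :=
      mul_le_mul_of_nonneg_right (by linarith only [hr2]) (by positivity)
    rw [h9]
    linarith only [hA, hB3, hB4, h11, h12]

/-- from the scaled bound to the bound of the numbers -/
theorem fin (n γ C9 y Y : ℝ) (hn : 0 < n) (hγ : 0 < γ)
    (hy : Y / (2 * n) ≤ y) (h : γ * y ≤ C9 / Real.sqrt n) :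
    Y ≤ 2 * C9 / γ * Real.sqrt n := by
  have hss : Real.sqrt n * Real.sqrt n = n := Real.mul_self_sqrt hn.le
  have hsp : 0 < Real.sqrt n := Real.sqrt_pos.2 hn
  have h1 : γ * (Y / (2 * n)) ≤ C9 / Real.sqrt n := (mul_le_mul_of_nonneg_left hy hγ.le).trans h
  rw [le_div_iff₀ hsp] at h1
  have h2 : γ * (Y / (2 * n)) * Real.sqrt n = γ * Y / (2 * Real.sqrt n) := by
    rw [eq_div_iff (by positivity)]
    have : γ * (Y / (2 * n)) * Real.sqrt n * (2 * Real.sqrt n) =
      γ * Y * (Real.sqrt n * Real.sqrt n) / n := by field_simp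
    rw [this, hss]
    field_simp
  rw [h2, div_le_iff₀ (by positivity)] at h1
  rw [div_mul_eq_mul_div, le_div_iff₀ hγ]
  linarith

end ItemOPT2

open ItemOPT2 in
theorem prfOPT2 : OTC_statement → OPT2_statement := by
  intro hO r c hr hc hc2
  obtain ⟨εO, hεO, γ, hγ, hOPT⟩ := hO r c hr hc hc2
  obtain ⟨hq, hq1⟩ := qq_bd hr
  have hr' : (3 : ℝ) ≤ r := by exact_mod_cast hr
  have hr3 : 1 / (r : ℝ) ≤ 1 / 3 := one_div_le_one_div_of_le (by norm_num) hr'
  obtain ⟨ε, hε, hε1, hε2⟩ : ∃ ε : ℝ, 0 < ε ∧ ε ≤ εO / 2 ∧ ε ≤ 1 / (2 * (r : ℝ)) :=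
    ⟨min (εO / 2) (1 / (2 * (r : ℝ))), lt_min (by positivity) (by positivity),
      min_le_left _ _, min_le_right _ _⟩
  refine ⟨ε, hε, ?_⟩
  intro K C hC
  obtain ⟨C9, hC9⟩ : ∃ C9 : ℝ, C9 = C * K + (C ^ 2 + C * K + 2 * K ^ 2 + r) + 2 * C + 2 :=
    ⟨_, rfl⟩
  have hC90 : 0 ≤ C9 := by rw [hC9]; positivity
  obtain ⟨n₀, hn₀⟩ : ∃ n₀ : ℕ, C + (C ^ 2 + C * K + 2 * K ^ 2 + r) / ε
      + (C9 / γ) ^ 2 + 1 < n₀ := exists_nat_gt _
  have t2 : 0 ≤ (C ^ 2 + C * K + 2 * K ^ 2 + r) / ε := by positivity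
  have t3 : 0 ≤ (C9 / γ) ^ 2 := by positivity
  refine ⟨⌈2 * C9 / γ⌉₊, n₀, ?_⟩
  intro n n₁ D B dv dT a b e ι U d hn hRT hdv hdT hdT' ha hb he he' hU hk7 hd hrel h3 h3'
  have hnn : (n₀ : ℝ) ≤ n := by exact_mod_cast hn
  have hn' : (0 : ℝ) < n := by linarith
  have hn0 : 0 < n := by exact_mod_cast hn'
  have hn₁' : (0 : ℝ) < n₁ := by
    have := (abs_le.mp hk7).1
    linarith
  have hn₁ : 0 < n₁ := by exact_mod_cast hn₁'
  have hq0 : 0 < qq r := by linarith
  have hqn₁ : 0 < qq r * n₁ := by positivity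
  have hqn : 0 < qq r * n := by positivity
  have htc : ∀ i ∈ U, c ≤ d i / (qq r * n₁) ∧ d i / (qq r * n₁) ≤ 1 - c := fun i hi => by
    rw [le_div_iff₀ hqn₁, div_le_iff₀ hqn₁]
    exact hd i hi
  obtain ⟨x', hx1, hx3, hx4, hx5⟩ := step4 r K ε C n n₁ D B dv dT a b e ((n₁ : ℤ) - n) U d
    (fun i => d i / (qq r * n₁)) hr hn0 hn₁ hε hε2 hdv hdT hdT' hC ha hb he he' hU
    (by push_cast; ring) hk7 (fun _ => rfl)
    (fun i hi => ⟨hc.le.trans (htc i hi).1, by linarith [(htc i hi).2]⟩) hRT hrel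
    (by linarith) h3 h3'
  rw [← hC9] at hx4 hx5
  have key := hOPT ι U (fun i => d i / (qq r * n₁)) x' (a / (qq r * n)) (b / (qq r * n))
    (dv / (2 * qq r * n)) ((n₁ : ℤ) - n) (hx1.trans (by linarith)) (by positivity) (by positivity)
    (by positivity) htc hx3
  have hss : Real.sqrt n * Real.sqrt n = n := Real.mul_self_sqrt hn'.le
  have hsp : 0 < Real.sqrt n := Real.sqrt_pos.2 hn'
  have hsn : Real.sqrt n / n = 1 / Real.sqrt n := by
    rw [div_eq_div_iff hn'.ne' hsp.ne', hss, one_mul]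
  have hE : C9 * Real.sqrt n / n = C9 / Real.sqrt n := by
    rw [mul_div_assoc, hsn]; ring
  rw [hE] at hx4 hx5
  have hab : ∀ z : ℝ, 0 ≤ z → z / (2 * n) ≤ z / (2 * qq r * n) := by
    intro z hz
    apply div_le_div_of_nonneg_left hz (by positivity)
    have : qq r * (n : ℝ) ≤ 1 * n := mul_le_mul_of_nonneg_right hq1.le hn'.le
    linarith
  have hab2 : ∀ z : ℝ, 0 ≤ z → z / (2 * n) ≤ z / (qq r * n) := by
    intro z hz
    apply div_le_div_of_nonneg_left hz hqn
    have : qq r * (n : ℝ) ≤ 2 * n := mul_le_mul_of_nonneg_right (by linarith) hn'.le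
    linarith
  rcases key with key | ⟨hc1, hk0, key⟩ | ⟨hc1, hk0, key⟩
  · exfalso
    have h4 : γ ≤ C9 / Real.sqrt n := by
      rcases min_choice (x' * (1 - x')) ((1 - 2 / (r : ℝ)) * (1 - x')) with hm | hm
      · rw [hm] at key
        linarith
      · rw [hm] at key
        linarith
    rw [le_div_iff₀ hsp] at h4
    have h5 : Real.sqrt n ≤ C9 / γ := by
      rw [le_div_iff₀ hγ]; linarith
    have h6 : (n : ℝ) ≤ (C9 / γ) ^ 2 := by
      rw [← hss, sq]
      exact mul_le_mul h5 h5 hsp.le (by positivity)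
    linarith
  · left
    have hnn₁ : n₁ = n := by
      have : (n₁ : ℤ) = n := by linarith
      exact_mod_cast this
    refine ⟨hc1, hnn₁, ?_⟩
    have h4 : γ * (a / (qq r * n) + b / (qq r * n) + dv / (2 * qq r * n)) ≤
        C9 / Real.sqrt n := by linarith
    have h5 : (a + b + dv) / (2 * n) ≤
        a / (qq r * n) + b / (qq r * n) + dv / (2 * qq r * n) := by
      rw [add_div, add_div]
      exact add_le_add (add_le_add (hab2 a ha) (hab2 b hb)) (hab dv hdv)
    have h7 := fin n γ C9 _ _ hn' hγ h5 h4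
    exact h7.trans (mul_le_mul_of_nonneg_right (Nat.le_ceil _) hsp.le)
  · right
    have hnn₁ : n₁ = n + 1 := by
      have : (n₁ : ℤ) = n + 1 := by linarith
      exact_mod_cast this
    refine ⟨hc1, hnn₁, ?_⟩
    have h4 : γ * (a / (qq r * n) + b / (qq r * n)) ≤ C9 / Real.sqrt n := by linarith
    have h5 : (a + b) / (2 * n) ≤ a / (qq r * n) + b / (qq r * n) := by
      rw [add_div]
      exact add_le_add (hab2 a ha) (hab2 b hb)
    have h7 := fin n γ C9 _ _ hn' hγ h5 h4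
    exact h7.trans (mul_le_mul_of_nonneg_right (Nat.le_ceil _) hsp.le)

end MP0c3a8f

end

section

/-!
# OPUD: the real inequality of the optimisation in the upper range, small `B` included
-/

set_option autoImplicit false

namespace MP0c3a8f

namespace OPUDx

/-- nonnegative integer -/
theorem kP {ρ e y t α β ν κ : ℝ} (hρ : ρ ≤ 2 / 3) (he : e ≤ ρ)
    (ht0 : 0 ≤ t) (ht1 : t ≤ 1) (hα : 0 ≤ α) (hβ : 0 ≤ β)
    (h : t + β - α - ν + κ = -y) :
    (1 - ρ) * y + (1 - ρ) * t + (1 - ρ) * κ ≤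
      t * (1 - t) + (1 - e) * (α + β) + (1 - ρ) * ν := by
  have h1 : 0 ≤ t * (1 - t) := mul_nonneg ht0 (by linarith)
  have h2 : 0 ≤ (ρ - e) * α := mul_nonneg (by linarith) hα
  have h3 : 0 ≤ (1 - e) * β := mul_nonneg (by linarith) hβ
  have h4 : 0 ≤ (1 - ρ) * β := mul_nonneg (by linarith) hβ
  have h5 : ν = y + t + β + κ - α := by linarith
  subst h5
  linarith

/-- the integer `-1` -/
theorem kM {ε ρ e y t α β ν : ℝ} (hε : 0 < ε) (hρ : ρ ≤ 2 / 3) (he : e ≤ ρ) (he2 : e ≤ 1 / 36)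
    (hy2 : y ≤ ρ - ε)
    (ht1 : t ≤ 1) (hα : 0 ≤ α) (hβ : 0 ≤ β) (hν : 0 ≤ ν)
    (h : t + β - α - ν + (-1) = -y) :
    (y ≤ 1 - t ∧ (1 - ρ) * y + (y * (ρ - y) + (1 - t - y) * (1 + t - y - e)) ≤
      t * (1 - t) + (1 - e) * (α + β) + (1 - ρ) * ν) ∨
    (1 - ρ) * y + (1 - t) * ε ≤ t * (1 - t) + (1 - e) * (α + β) + (1 - ρ) * ν := by
  by_cases hc : y ≤ 1 - t
  · left
    refine ⟨hc, ?_⟩
    have h1 : β = (1 - t - y) + α + ν := by linarith
    have h2 : 0 ≤ (1 - e) * α := mul_nonneg (by linarith) hα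
    have h3 : 0 ≤ (1 - e) * ν := mul_nonneg (by linarith) hν
    have h4 : 0 ≤ (1 - ρ) * ν := mul_nonneg (by linarith) hν
    subst h1
    linarith
  · right
    push Not at hc
    have h1 : ν = β + (y - (1 - t)) - α := by linarith
    have h2 : 0 ≤ (ρ - e) * α := mul_nonneg (by linarith) hα
    have h3 : 0 ≤ (1 - e) * β := mul_nonneg (by linarith) hβ
    have h4 : 0 ≤ (1 - ρ) * β := mul_nonneg (by linarith) hβ
    have h5 : 0 ≤ (1 - t) * ((ρ - ε) - (1 - t)) := mul_nonneg (by linarith) (by linarith)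
    subst h1
    linarith

/-- integers at most `-2` (or `-1` and `t = 0`) -/
theorem kN {ε ρ e y t α β ν κ : ℝ} (hε : 0 < ε) (hρ : ρ ≤ 2 / 3) (he0 : 0 ≤ e)
    (he : e ≤ ρ) (he2 : e ≤ 1 / 36) (hy1 : 0 ≤ y) (hy2 : y ≤ ρ - ε)
    (ht0 : 0 ≤ t) (ht1 : t ≤ 1) (hα : 0 ≤ α) (hν : 0 ≤ ν) (hκ : t + κ ≤ -1)
    (h : t + β - α - ν + κ = -y) :
    (1 - ρ) * y + 1 / 12 ≤ t * (1 - t) + (1 - e) * (α + β) + (1 - ρ) * ν := by
  have h1 : 0 ≤ t * (1 - t) := mul_nonneg ht0 (by linarith)
  have h2 : 0 ≤ (1 - e) * α := mul_nonneg (by linarith) hα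
  have h3 : 0 ≤ (1 - ρ) * ν := mul_nonneg (by linarith) hν
  have h4 : (1 - e) * (1 - y) ≤ (1 - e) * β := mul_le_mul_of_nonneg_left (by linarith) (by linarith)
  have h5 : 0 ≤ (ρ - y) * (2 - ρ) := mul_nonneg (by linarith) (by linarith)
  have h6 : 0 ≤ (2 / 3 - ρ) * (4 / 3 - ρ) := mul_nonneg (by linarith) (by linarith)
  have h7 : 0 ≤ e * y := mul_nonneg he0 (by linarith)
  have h8 : 0 ≤ (2 / 3 - ρ) ^ 2 := sq_nonneg _
  linarith

end OPUDx

open OPUDx OPTCx in
theorem prfOPUD : OPUD_statement := by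
  intro r ε c hr hε hc hc2
  have hr0 : (3 : ℝ) ≤ (r : ℝ) := by exact_mod_cast hr
  have hr1 : (0 : ℝ) < (r : ℝ) := by linarith
  set γ : ℝ := min (2 * c ^ 2) (min (1 / 12) (min (c * ε) (c / r))) with hγ
  have g1 : γ ≤ 2 * c ^ 2 := min_le_left _ _
  have g' : γ ≤ min (1 / 12) (min (c * ε) (c / r)) := min_le_right _ _
  have g2 : γ ≤ 1 / 12 := g'.trans (min_le_left _ _)
  have g'' : γ ≤ min (c * ε) (c / r) := g'.trans (min_le_right _ _)
  have g4 : γ ≤ c * ε := g''.trans (min_le_left _ _)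
  have g5 : γ ≤ c / r := g''.trans (min_le_right _ _)
  have gpos : 0 < γ := by
    rw [hγ]
    exact lt_min (by positivity) (lt_min (by norm_num)
      (lt_min (by positivity) (by positivity)))
  refine ⟨γ, gpos, ?_⟩
  intro ι U t y α β ν k hy1 hy2 hα hβ hν ht hsum
  classical
  clear_value γ
  set ρ : ℝ := 2 / (r : ℝ) with hρ
  set e : ℝ := 1 / (4 * (r : ℝ) ^ 2) with he
  have hρ1 : ρ ≤ 2 / 3 := by
    rw [hρ, div_le_div_iff₀ hr1 (by norm_num)]; linarith
  have hir : 1 / (r : ℝ) = ρ / 2 := by rw [hρ]; ring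
  have hρ0 : 0 < ρ := by rw [hρ]; positivity
  have he0 : 0 ≤ e := by rw [he]; positivity
  have hee : e = ρ ^ 2 / 16 := by rw [he, hρ]; field_simp; norm_num
  have he1 : e ≤ ρ / 2 := by
    rw [hee]; nlinarith
  have he' : e ≤ ρ := by linarith
  have he2 : e ≤ 1 / 36 := by
    rw [hee]
    have : ρ ^ 2 ≤ (2 / 3) ^ 2 := pow_le_pow_left₀ hρ0.le hρ1 2
    linarith
  have hcr : c / r = c * (ρ / 2) := by rw [← hir]; ring
  have hc3 : c < ρ / 2 := by rw [← hir]; exact hc2
  have hc5 : γ ≤ (1 - ρ) * c := by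
    have : c * (ρ / 2) ≤ c * (1 - ρ) := mul_le_mul_of_nonneg_left (by linarith) hc.le
    linarith
  -- the sum of the `t i`
  set s := ∑ i ∈ U, t i with hs
  have f0 := Int.fract_nonneg s
  have f1 := (Int.fract_lt_one s).le
  have f2 := Int.floor_add_fract s
  have hGU : ∑ i ∈ U, t i * (1 - t i) = ∑ i ∈ U, G (t i) := by
    refine Finset.sum_congr rfl fun i hi => ?_
    obtain ⟨a, b⟩ := ht i hi
    rw [G_self (by linarith) (by linarith)]
  have hG1 : G s ≤ ∑ i ∈ U, t i * (1 - t i) := by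
    rw [hGU]
    exact G_sum U t
  have hGs : G s = Int.fract s * (1 - Int.fract s) := rfl
  have hk : Int.fract s + β - α - ν + ((k + ⌊s⌋ : ℤ) : ℝ) = -y := by
    push_cast
    linarith
  -- the general bound
  have hgen : (1 - ρ) * y ≤ G s + (1 - e) * (α + β) + (1 - ρ) * ν := by
    rw [hGs]
    rcases lt_trichotomy (k + ⌊s⌋) (-1) with h | h | h
    · have h' : ((k + ⌊s⌋ : ℤ) : ℝ) ≤ -2 := by exact_mod_cast (by omega : k + ⌊s⌋ ≤ -2)
      have := kN hε hρ1 he0 he' he2 hy1 hy2 f0 f1 hα hν (by linarith) hk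
      linarith
    · rw [h] at hk
      push_cast at hk
      rcases kM hε hρ1 he' he2 hy2 f1 hα hβ hν hk with ⟨h0, h'⟩ | h'
      · have h5 : 0 ≤ y * (ρ - y) := mul_nonneg hy1 (by linarith)
        have h6 : 0 ≤ (1 - Int.fract s - y) * (1 + Int.fract s - y - e) :=
          mul_nonneg (by linarith) (by linarith)
        linarith
      · have : 0 ≤ (1 - Int.fract s) * ε := mul_nonneg (by linarith) hε.le
        linarith
    · have h' : (0 : ℝ) ≤ ((k + ⌊s⌋ : ℤ) : ℝ) := by exact_mod_cast (by omega : 0 ≤ k + ⌊s⌋)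
      have := kP hρ1 he' f0 f1 hα hβ hk
      have h2 : 0 ≤ (1 - ρ) * Int.fract s := mul_nonneg (by linarith) f0
      have h3 : 0 ≤ (1 - ρ) * ((k + ⌊s⌋ : ℤ) : ℝ) := mul_nonneg (by linarith) h'
      linarith
  rcases Nat.lt_or_ge 1 U.card with hU | hU
  · left
    obtain ⟨i, hi, j, hj, hij⟩ := Finset.one_lt_card.1 hU
    have hj' : j ∈ U.erase i := Finset.mem_erase.2 ⟨hij.symm, hj⟩
    obtain ⟨a, b⟩ := ht i hi
    obtain ⟨a', b'⟩ := ht j hj
    have p := G_pair hc a b a' b'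
    have q1 : s = (t i + t j) + ∑ l ∈ (U.erase i).erase j, t l := by
      rw [hs, ← Finset.add_sum_erase U t hi, ← Finset.add_sum_erase (U.erase i) t hj']
      ring
    have q2 : ∑ l ∈ U, t l * (1 - t l) = (t i * (1 - t i) + t j * (1 - t j)) +
        ∑ l ∈ (U.erase i).erase j, G (t l) := by
      rw [← Finset.add_sum_erase U (fun l => t l * (1 - t l)) hi,
        ← Finset.add_sum_erase (U.erase i) (fun l => t l * (1 - t l)) hj', add_assoc]
      congr 2
      refine Finset.sum_congr rfl fun l hl => ?_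
      obtain ⟨a, b⟩ := ht l (Finset.mem_of_mem_erase (Finset.mem_of_mem_erase hl))
      rw [G_self (by linarith) (by linarith)]
    have q3 := G_sum ((U.erase i).erase j) t
    have q4 := G_add (t i + t j) (∑ l ∈ (U.erase i).erase j, t l)
    rw [← q1] at q4
    rw [q2]
    linarith
  · rcases Nat.lt_or_ge U.card 1 with hU0 | hU1
    · have hU' : U = ∅ := Finset.card_eq_zero.1 (by omega)
      have hs0 : s = 0 := by rw [hs, hU', Finset.sum_empty]
      have hz : ∑ i ∈ U, t i * (1 - t i) = 0 := by rw [hU', Finset.sum_empty]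
      rw [hs0, Int.fract_zero, Int.floor_zero, add_zero] at hk
      rw [hz]
      rcases lt_trichotomy k 0 with h | h | h
      · left
        have h' : (k : ℝ) ≤ -1 := by exact_mod_cast (by omega : k ≤ -1)
        have := kN hε hρ1 he0 he' he2 hy1 hy2 le_rfl zero_le_one hα hν (by linarith) hk
        linarith
      · right
        refine ⟨hU', h, ?_⟩
        rw [h] at hk
        push_cast at hk
        have h1 : ν = y + β - α := by linarith
        have h2 : 0 ≤ (ρ / 2 - e) * α := mul_nonneg (by linarith) hα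
        have h3 : 0 ≤ (1 - e) * β := mul_nonneg (by linarith) hβ
        have h4 : γ ≤ ρ / 2 := by
          have : c * (ρ / 2) ≤ 1 * (ρ / 2) := mul_le_mul_of_nonneg_right (by linarith) (by linarith)
          linarith
        have h5 : γ * (α + β) ≤ ρ / 2 * (α + β) := mul_le_mul_of_nonneg_right h4 (by linarith)
        have h6 : 0 ≤ (1 - ρ - ρ / 2) * β := mul_nonneg (by linarith) hβ
        subst h1
        linarith
      · left
        have h' : (1 : ℝ) ≤ (k : ℝ) := by exact_mod_cast (by omega : 1 ≤ k)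
        have := kP hρ1 he' le_rfl zero_le_one hα hβ hk
        have h3 : (1 - ρ) * 1 ≤ (1 - ρ) * (k : ℝ) := mul_le_mul_of_nonneg_left h' (by linarith)
        linarith
    · left
      have hU' : U.card = 1 := by omega
      obtain ⟨i, hi⟩ := Finset.card_eq_one.1 hU'
      have hsi : s = t i := by rw [hs, hi, Finset.sum_singleton]
      obtain ⟨a, b⟩ := ht i (by rw [hi]; exact Finset.mem_singleton_self i)
      have hfr : Int.fract s = t i := by
        rw [hsi]
        exact Int.fract_eq_self.2 ⟨by linarith, by linarith⟩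
      have hsm : ∑ i ∈ U, t i * (1 - t i) = t i * (1 - t i) := by rw [hi, Finset.sum_singleton]
      rw [hfr] at hk f0 f1
      rw [hsm]
      rcases lt_trichotomy (k + ⌊s⌋) (-1) with h | h | h
      · have h' : ((k + ⌊s⌋ : ℤ) : ℝ) ≤ -2 := by exact_mod_cast (by omega : k + ⌊s⌋ ≤ -2)
        have := kN hε hρ1 he0 he' he2 hy1 hy2 f0 f1 hα hν (by linarith) hk
        linarith
      · rw [h] at hk
        push_cast at hk
        rcases kM hε hρ1 he' he2 hy2 f1 hα hβ hν hk with ⟨h0, h'⟩ | h'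
        · rcases le_total c y with hcy | hcy
          · have h5 : c * ε ≤ y * (ρ - y) := mul_le_mul hcy (by linarith) hε.le hy1
            have h6 : 0 ≤ (1 - t i - y) * (1 + t i - y - e) :=
              mul_nonneg (by linarith) (by linarith)
            linarith
          · have h5 : y * (ρ / 2) ≤ y * (ρ - y) := mul_le_mul_of_nonneg_left (by linarith) hy1
            have h6 : (c - y) * (ρ / 2) ≤ (1 - t i - y) * (1 + t i - y - e) :=
              mul_le_mul (by linarith) (by linarith) (by linarith) (by linarith)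
            have h7 : c * (ρ / 2) = y * (ρ / 2) + (c - y) * (ρ / 2) := by ring
            linarith
        · have : c * ε ≤ (1 - t i) * ε := mul_le_mul_of_nonneg_right (by linarith) hε.le
          linarith
      · have h' : (0 : ℝ) ≤ ((k + ⌊s⌋ : ℤ) : ℝ) := by exact_mod_cast (by omega : 0 ≤ k + ⌊s⌋)
        have := kP hρ1 he' f0 f1 hα hβ hk
        have h2 : (1 - ρ) * c ≤ (1 - ρ) * t i := mul_le_mul_of_nonneg_left a (by linarith)
        have h3 : 0 ≤ (1 - ρ) * ((k + ⌊s⌋ : ℤ) : ℝ) := mul_nonneg (by linarith) h'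
        linarith

end MP0c3a8f

end

section

/-!
# MP_0c3a8f_co: alternative two, assembly of the regimes (YAB)
-/

open Finset

namespace MP0c3a8f

namespace ItemYAB

/-- `C n^(1/4) ≤ ε n` for all large `n` -/
theorem sqrt_small (C ε : ℝ) (hε : 0 < ε) :
    ∃ n₀ : ℕ, ∀ n : ℕ, n₀ ≤ n → C * Real.sqrt (Real.sqrt n) ≤ ε * n := by
  obtain ⟨k, hk⟩ := exists_nat_ge ((|C| / ε) ^ 2)
  refine ⟨k + 1, fun n hn => ?_⟩
  have hn1 : (1 : ℝ) ≤ n := by
    have : 1 ≤ n := by omega
    exact_mod_cast this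
  have hs1 : (1 : ℝ) ≤ Real.sqrt n := by
    rw [show (1 : ℝ) = Real.sqrt 1 by simp]
    exact Real.sqrt_le_sqrt hn1
  have hss : Real.sqrt (Real.sqrt n) ≤ Real.sqrt n := by
    rw [Real.sqrt_le_left (by positivity)]
    nlinarith
  have hkn : (|C| / ε) ^ 2 ≤ n := by
    have : (k : ℝ) ≤ n := by exact_mod_cast (by omega : k ≤ n)
    linarith
  have h1 : |C| / ε ≤ Real.sqrt n := Real.le_sqrt_of_sq_le hkn
  have h2 : |C| ≤ ε * Real.sqrt n := by
    rw [div_le_iff₀ hε] at h1
    linarith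
  have h3 : Real.sqrt n * Real.sqrt n = n := Real.mul_self_sqrt (by positivity)
  calc C * Real.sqrt (Real.sqrt n) ≤ |C| * Real.sqrt (Real.sqrt n) :=
        mul_le_mul_of_nonneg_right (le_abs_self C) (Real.sqrt_nonneg _)
    _ ≤ |C| * Real.sqrt n := mul_le_mul_of_nonneg_left hss (abs_nonneg C)
    _ ≤ ε * Real.sqrt n * Real.sqrt n := mul_le_mul_of_nonneg_right h2 (Real.sqrt_nonneg _)
    _ = ε * n := by rw [mul_assoc, h3]

end ItemYAB

theorem prfYAB : NLV_statement → YNL_statement → YNB_statement → YAB_statement := by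
  intro hNLV hYNL hYNB r N hr
  obtain ⟨C, hC, hN⟩ := hNLV r N hr
  obtain ⟨ε₀, hε₀, n₁, h1⟩ := hYNB r C hr hC
  obtain ⟨c, n₂, hc, h2⟩ := hN (ε₀ / 4) (by linarith)
  obtain ⟨n₃, h3⟩ := hYNL r C c hr hC hc
  obtain ⟨n₄, h4⟩ := ItemYAB.sqrt_small C (ε₀ / 2) (by linarith)
  refine ⟨n₁ + n₂ + n₃ + n₄, ?_⟩
  intro V _ G n B m hn hB hm hG hA
  have hE : G.edgeSet.ncard = m := hG.1.size
  obtain ⟨g, hK, hdev, hL⟩ := h2 V G n B (by omega) hB (by rw [hE]; exact hm) hA
  refine ⟨siz g, hK.tot, ?_⟩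
  by_cases hb : ε₀ / 4 * n ≤ B
  · obtain ⟨i, hi⟩ := hL hb
    exact h3 V G g i n m (by omega) hG hi
  · have h5 := h4 n (by omega)
    push Not at hb
    exact h1 V G g n m (by omega) hG hK (by linarith)

end MP0c3a8f

end
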