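import Pool.Agent.Work.MP_0c3a8f_co.PB.Stmts5
import Pool.Agent.Work.MP_0c3a8f_co.Bd.B06
import Pool.Agent.Work.MP_0c3a8f_co.Bd.B12

/-! Bundle of small proof modules (one section per former module). -/

section

/-!
# MP_0c3a8f_co, phase B: item SSW
-/

set_option linter.unusedSectionVars false

open Finset

namespace MP0c3a8f

namespace ItemSSW

open ItemKW3 (siz_eq nbn_eq sum_cls sum_if_const adj_le_one adj_nonneg card_core)
open ItemKW2 (adj_comm)

variable {V : Type} [Fintype V] {r : ℕ}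

theorem adj_self (G : SimpleGraph V) (v : V) : adj G v v = 0 := by
  unfold adj
  rw [if_neg (G.loopless.irrefl v)]

/-- the part of a function on the core -/
def cc (g : V → Option (Fin r)) (y : V → ℝ) : V → ℝ := fun v => if g v = none then 0 else y v

/-- the part of a function on the light vertices -/
def ll (g : V → Option (Fin r)) (y : V → ℝ) : V → ℝ := fun v => if g v = none then y v else 0

theorem cc_add_ll (g : V → Option (Fin r)) (y : V → ℝ) (v : V) : cc g y v + ll g y v = y v := by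
  unfold cc ll
  split_ifs <;> simp

/-- bilinear form -/
noncomputable def bf (G : SimpleGraph V) (x y : V → ℝ) : ℝ := ∑ u, x u * ∑ v, adj G u v * y v

theorem bf_symm (G : SimpleGraph V) (x y : V → ℝ) : bf G x y = bf G y x := by
  unfold bf
  simp only [Finset.mul_sum]
  rw [Finset.sum_comm]
  refine Finset.sum_congr rfl fun v _ => Finset.sum_congr rfl fun u _ => ?_
  rw [adj_comm G u v]
  ring

theorem bf_add (G : SimpleGraph V) (x y y' : V → ℝ) :
    bf G x (fun v => y v + y' v) = bf G x y + bf G x y' := by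
  unfold bf
  rw [← Finset.sum_add_distrib]
  refine Finset.sum_congr rfl fun u _ => ?_
  rw [← mul_add, ← Finset.sum_add_distrib]
  congr 1
  refine Finset.sum_congr rfl fun v _ => ?_
  ring

theorem bf_nonneg (G : SimpleGraph V) (x y : V → ℝ) (hx : ∀ v, 0 ≤ x v) (hy : ∀ v, 0 ≤ y v) :
    0 ≤ bf G x y :=
  Finset.sum_nonneg fun u _ => mul_nonneg (hx u)
    (Finset.sum_nonneg fun v _ => mul_nonneg (adj_nonneg G u v) (hy v))

theorem qf_bf (G : SimpleGraph V) (y : V → ℝ) : qf G y = bf G y y := by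
  unfold qf bf
  simp only [Finset.mul_sum]
  refine Finset.sum_congr rfl fun u _ => Finset.sum_congr rfl fun v _ => ?_
  ring

/-- the quadratic form of the eigenvector on the core -/
theorem form {G : SimpleGraph V} {g : V → Option (Fin r)} {z : V → ℝ} {l : ℝ}
    (h : ∀ v, ∑ u, adj G v u * z u = l * z v) :
    bf G (cc g z) (cc g z)
      = l * ∑ v, cc g z v ^ 2 - l * ∑ v, ll g z v ^ 2 + bf G (ll g z) (ll g z) := by
  have hz : z = fun v => cc g z v + ll g z v := funext fun v => (cc_add_ll g z v).symm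
  have h1 : bf G (cc g z) z = l * ∑ v, cc g z v ^ 2 := by
    unfold bf
    rw [Finset.mul_sum]
    refine Finset.sum_congr rfl fun v _ => ?_
    rw [h v]
    unfold cc
    split_ifs <;> ring
  have h2 : bf G (ll g z) z = l * ∑ v, ll g z v ^ 2 := by
    unfold bf
    rw [Finset.mul_sum]
    refine Finset.sum_congr rfl fun v _ => ?_
    rw [h v]
    unfold ll
    split_ifs <;> ring
  have h3 : bf G (cc g z) z = bf G (cc g z) (cc g z) + bf G (cc g z) (ll g z) := by
    rw [← bf_add]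
    exact congrArg (bf G (cc g z)) hz
  have h4 : bf G (ll g z) z = bf G (ll g z) (cc g z) + bf G (ll g z) (ll g z) := by
    rw [← bf_add]
    exact congrArg (bf G (ll g z)) hz
  have h5 := bf_symm G (cc g z) (ll g z)
  linarith

/-- a complete core -/
def CK (G : SimpleGraph V) (g : V → Option (Fin r)) : Prop :=
  ∀ u v, g u ≠ none → g v ≠ none → (G.Adj u v ↔ g u ≠ g v)

theorem core_sum {G : SimpleGraph V} {g : V → Option (Fin r)} (hc : CK G g) (y : V → ℝ) (u : V)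
    (t : Fin r) (hu : g u = some t) :
    ∑ v, adj G u v * cc g y v = ∑ v, cc g y v - ∑ v, if g v = some t then y v else 0 := by
  rw [← Finset.sum_sub_distrib]
  refine Finset.sum_congr rfl fun v _ => ?_
  unfold cc adj
  cases hv : g v with
  | none => simp
  | some s =>
    have h := hc u v (by simp [hu]) (by simp [hv])
    rw [hu, hv] at h
    by_cases hst : s = t
    · subst hst
      have h1 : ¬ G.Adj u v := fun hh => (h.1 hh) rfl
      simp [h1]
    · have h1 : G.Adj u v := h.2 (fun e => hst (Option.some.inj e).symm)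
      simp [h1, hst]

/-- the core degree -/
theorem cdeg (G : SimpleGraph V) (g : V → Option (Fin r)) (v : V) :
    ∑ u, adj G v u * cc g 1 u = ((∑ t, nbn G g v t : ℕ) : ℝ) := by
  push_cast
  rw [Finset.sum_congr rfl fun t _ => nbn_eq G g v t, Finset.sum_comm]
  refine Finset.sum_congr rfl fun u _ => ?_
  rw [sum_cls]
  unfold cc
  split_ifs <;> simp

theorem core_card (g : V → Option (Fin r)) (n : ℕ) (hn : ∑ t, siz g t = n) :
    ∑ v, cc g 1 v = n := by
  rw [← card_core n hn]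
  rfl

theorem core_edges {G : SimpleGraph V} {g : V → Option (Fin r)} (hc : CK G g) (n : ℕ)
    (hn : ∑ t, siz g t = n) :
    bf G (cc g 1) (cc g 1) = (n : ℝ) ^ 2 - ∑ t, (siz g t : ℝ) ^ 2 := by
  have hcast : (n : ℝ) = ∑ s, (siz g s : ℝ) := by rw [← hn]; push_cast; rfl
  have h1 : ∀ u, cc g 1 u * ∑ v, adj G u v * cc g 1 v
      = ∑ t, if g u = some t then (n - siz g t : ℝ) else 0 := by
    intro u
    cases hu : g u with
    | none => simp [cc, hu]
    | some t =>
      rw [core_sum hc 1 u t hu, core_card g n hn]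
      simp only [cc, hu, reduceCtorEq, if_false, Pi.one_apply, one_mul, Option.some.injEq]
      rw [← siz_eq]
      simp
  unfold bf
  rw [Finset.sum_congr rfl fun u _ => h1 u, Finset.sum_comm]
  simp only [sum_if_const]
  have h2 : ∀ t, (siz g t : ℝ) * (n - siz g t) = n * siz g t - (siz g t : ℝ) ^ 2 :=
    fun t => by ring
  rw [Finset.sum_congr rfl fun t _ => h2 t, Finset.sum_sub_distrib, ← Finset.mul_sum, ← hcast]
  ring

theorem ck_of_miss {G : SimpleGraph V} {g : V → Option (Fin r)} (hi : Indep G g)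
    (hm : (missSet G g).ncard = 0) : CK G g := by
  intro u v hu hv
  have h1 : missSet G g = ∅ := by
    rwa [Set.ncard_eq_zero (Set.toFinite _)] at hm
  constructor
  · intro h he
    exact hi u v hu he h
  · intro he
    by_contra hc
    have : s(u, v) ∈ missSet G g := ⟨u, v, rfl, hu, hv, he, hc⟩
    rw [h1] at this
    exact this

/-- all edges -/
theorem edges_split (G : SimpleGraph V) (g : V → Option (Fin r)) :
    ∑ i, ∑ j, adj G i j = bf G (cc g 1) (cc g 1) + 2 * bf G (ll g 1) (cc g 1)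
      + bf G (ll g 1) (ll g 1) := by
  have h1 : ∑ i, ∑ j, adj G i j = bf G 1 1 := by
    unfold bf
    simp
  have hz : (1 : V → ℝ) = fun v => cc g 1 v + ll g 1 v :=
    funext fun v => (cc_add_ll g 1 v).symm
  have h2 : bf G 1 1 = bf G 1 (cc g 1) + bf G 1 (ll g 1) := by
    rw [← bf_add]
    exact congrArg (bf G 1) hz
  have h3 : bf G (cc g 1) 1 = bf G (cc g 1) (cc g 1) + bf G (cc g 1) (ll g 1) := by
    rw [← bf_add]
    exact congrArg (bf G (cc g 1)) hz
  have h4 : bf G (ll g 1) 1 = bf G (ll g 1) (cc g 1) + bf G (ll g 1) (ll g 1) := by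
    rw [← bf_add]
    exact congrArg (bf G (ll g 1)) hz
  have h5 := bf_symm G (cc g 1) (ll g 1)
  have h6 := bf_symm G 1 (cc g 1)
  have h7 := bf_symm G 1 (ll g 1)
  rw [h1, h2, h6, h7, h3, h4, h5]
  ring

theorem lv_le (G : SimpleGraph V) (g : V → Option (Fin r)) (v : V) (hv : g v = none) :
    2 * ∑ u, adj G v u * ll g 1 u ≤ bf G (ll g 1) (ll g 1) := by
  classical
  have h1 : ∀ v', (if v' = v then ∑ u, adj G v u * ll g 1 u else ll g 1 v' * adj G v' v)
      ≤ ll g 1 v' * ∑ u, adj G v' u * ll g 1 u := by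
    intro v'
    by_cases h : v' = v
    · subst h
      rw [if_pos rfl]
      have : ll g 1 v' = 1 := by simp [ll, hv]
      rw [this, one_mul]
    · rw [if_neg h]
      have h2 : 0 ≤ ll g 1 v' := by
        unfold ll
        split_ifs <;> simp
      refine mul_le_mul_of_nonneg_left ?_ h2
      have h3 : adj G v' v * ll g 1 v ≤ ∑ u, adj G v' u * ll g 1 u :=
        Finset.single_le_sum (f := fun u => adj G v' u * ll g 1 u)
          (fun u _ => mul_nonneg (adj_nonneg G v' u) (by unfold ll; split_ifs <;> simp))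
          (Finset.mem_univ v)
      have h4 : ll g 1 v = 1 := by simp [ll, hv]
      rw [h4, mul_one] at h3
      exact h3
  have h5 : ∑ v', (if v' = v then ∑ u, adj G v u * ll g 1 u else ll g 1 v' * adj G v' v)
      = 2 * ∑ u, adj G v u * ll g 1 u := by
    have h6 : ∀ v', (if v' = v then ∑ u, adj G v u * ll g 1 u else ll g 1 v' * adj G v' v)
        = (if v' = v then ∑ u, adj G v u * ll g 1 u else 0) + adj G v v' * ll g 1 v' := by
      intro v'
      by_cases h : v' = v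
      · subst h
        rw [if_pos rfl, if_pos rfl, adj_self]
        ring
      · rw [if_neg h, if_neg h, adj_comm G v' v]
        ring
    rw [Finset.sum_congr rfl fun v' _ => h6 v', Finset.sum_add_distrib,
      Finset.sum_ite_eq' Finset.univ v, if_pos (Finset.mem_univ v)]
    ring
  rw [← h5]
  exact Finset.sum_le_sum fun v' _ => h1 v'

/-- the equation of a class -/
theorem class_eq {G : SimpleGraph V} {g : V → Option (Fin r)} {z : V → ℝ} {l : ℝ}
    (hc : CK G g) (h : ∀ v, ∑ u, adj G v u * z u = l * z v) (t : Fin r) :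
    (∀ u, g u = some t → l * z u = (∑ v, cc g z v - ∑ v, if g v = some t then z v else 0)
      + ∑ v, adj G u v * ll g z v) ∧
    l * (∑ v, if g v = some t then z v else 0)
      = siz g t * (∑ v, cc g z v - ∑ v, if g v = some t then z v else 0)
        + ∑ u, if g u = some t then ∑ v, adj G u v * ll g z v else 0 := by
  have h1 : ∀ u, g u = some t →
      l * z u = (∑ v, cc g z v - ∑ v, if g v = some t then z v else 0)
      + ∑ v, adj G u v * ll g z v := by
    intro u hu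
    rw [← core_sum hc z u t hu, ← Finset.sum_add_distrib, ← h u]
    refine Finset.sum_congr rfl fun v _ => ?_
    rw [← mul_add, cc_add_ll]
  refine ⟨h1, ?_⟩
  rw [← sum_if_const g t, Finset.mul_sum, ← Finset.sum_add_distrib]
  refine Finset.sum_congr rfl fun u _ => ?_
  by_cases hu : g u = some t
  · rw [if_pos hu, if_pos hu, if_pos hu]
    exact h1 u hu
  · rw [if_neg hu, if_neg hu, if_neg hu]
    ring

theorem ana {l σ S St Y X n C zu : ℝ} (hC : 0 ≤ C) (hn : 2 * C + 4 ≤ n) (hl : n / 2 ≤ l)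
    (hS : n / 2 ≤ S) (hst : l * St = σ * (S - St) + Y) (hY0 : 0 ≤ Y) (hY : Y ≤ l)
    (hls : |l + σ - n| ≤ C) (hz : l * zu = S - St + X) (hX0 : 0 ≤ X) (hX : X ≤ 1) :
    zu ≤ S / n * (1 + (2 * C + 4) / n) ∧ S / n * (1 - (2 * C + 4) / n) ≤ zu := by
  have hn0 : 0 < n := by linarith
  have hl0 : 0 < l := by linarith
  obtain ⟨h1, h2⟩ := abs_le.1 hls
  have hls0 : 0 < l + σ := by linarith
  have hS1 : 1 ≤ S := by linarith
  have hS0 : 0 ≤ S := by linarith
  have hn2 : 0 < n ^ 2 := by positivity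
  have hCn : C * (2 * C + 4) ≤ C * n := mul_le_mul_of_nonneg_left hn hC
  have hCC : 0 ≤ C * C := mul_nonneg hC hC
  have hz' : zu = (S - Y / l) / (l + σ) + X / l := by
    have e1 : (l + σ) * St = σ * S + Y := by linear_combination hst
    have e3 : St = (σ * S + Y) / (l + σ) := by
      rw [eq_div_iff hls0.ne']
      linear_combination e1
    have e4 : zu = (S - St + X) / l := by
      rw [eq_div_iff hl0.ne']
      linear_combination hz
    rw [e4, e3]
    field_simp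
    ring
  have hYl : Y / l ≤ 1 := (div_le_one hl0).2 hY
  have hYl0 : 0 ≤ Y / l := div_nonneg hY0 hl0.le
  constructor
  · have h3 : (S - Y / l) / (l + σ) ≤ S / n * (1 + 2 * C / n) := by
      calc (S - Y / l) / (l + σ) ≤ S / (l + σ) := by
            apply div_le_div_of_nonneg_right _ hls0.le
            linarith
        _ ≤ S / (n - C) := by
            apply div_le_div_of_nonneg_left (by linarith) (by linarith) (by linarith)
        _ ≤ S / n * (1 + 2 * C / n) := by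
            have e : S / n * (1 + 2 * C / n) = S * ((n + 2 * C) / n ^ 2) := by
              field_simp
            rw [e, div_eq_mul_inv]
            refine mul_le_mul_of_nonneg_left ?_ hS0
            rw [inv_eq_one_div, div_le_div_iff₀ (by linarith) hn2]
            have e2 : (n + 2 * C) * (n - C) = n ^ 2 + (C * n - 2 * (C * C)) := by ring
            rw [e2]
            linarith
    have h4 : X / l ≤ S / n * (4 / n) := by
      have e : S / n * (4 / n) = 4 * S / n ^ 2 := by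
        field_simp
      rw [e, div_le_div_iff₀ hl0 hn2]
      have h5 : n / 2 * (n / 2) ≤ S * l := mul_le_mul hS hl (by linarith) hS0
      have h6 : X * n ^ 2 ≤ 1 * n ^ 2 := mul_le_mul_of_nonneg_right hX hn2.le
      have e2 : n ^ 2 = 4 * (n / 2 * (n / 2)) := by ring
      calc X * n ^ 2 ≤ 4 * (n / 2 * (n / 2)) := by linarith
        _ ≤ 4 * (S * l) := by linarith
        _ = 4 * S * l := by ring
    rw [hz']
    have e : S / n * (1 + (2 * C + 4) / n) = S / n * (1 + 2 * C / n) + S / n * (4 / n) := by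
      ring
    rw [e]
    linarith
  · have h3 : S / n * (1 - (2 * C + 4) / n) ≤ (S - 1) / (n + C) := by
      have e : S / n * (1 - (2 * C + 4) / n) = S * (n - (2 * C + 4)) / n ^ 2 := by
        field_simp
      rw [e, div_le_div_iff₀ hn2 (by linarith)]
      have h5 : (n - (2 * C + 4)) * (n + C) ≤ n ^ 2 - 2 * n := by
        have e2 : (n - (2 * C + 4)) * (n + C)
            = n ^ 2 - C * n - 4 * n - (2 * (C * C) + 4 * C) := by ring
        rw [e2]
        linarith
      have h6 : S * ((n - (2 * C + 4)) * (n + C)) ≤ S * (n ^ 2 - 2 * n) :=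
        mul_le_mul_of_nonneg_left h5 hS0
      have h7 : n * n ≤ 2 * S * n := mul_le_mul_of_nonneg_right (by linarith) hn0.le
      calc S * (n - (2 * C + 4)) * (n + C) = S * ((n - (2 * C + 4)) * (n + C)) := by ring
        _ ≤ S * (n ^ 2 - 2 * n) := h6
        _ = S * n ^ 2 - 2 * S * n := by ring
        _ ≤ S * n ^ 2 - n * n := by linarith
        _ = (S - 1) * n ^ 2 := by ring
    have h4 : (S - 1) / (n + C) ≤ (S - Y / l) / (l + σ) := by
      rw [div_le_div_iff₀ (by linarith) hls0]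
      have : (S - 1) * (l + σ) ≤ (S - 1) * (n + C) :=
        mul_le_mul_of_nonneg_left (by linarith) (by linarith)
      have : (S - 1) * (n + C) ≤ (S - Y / l) * (n + C) :=
        mul_le_mul_of_nonneg_right (by linarith) (by linarith)
      linarith
    have h5 : 0 ≤ X / l := div_nonneg hX0 hl0.le
    rw [hz']
    linarith

theorem dev_eq (σ : Fin r → ℕ) (n : ℕ) (hn : ∑ t, σ t = n) (hr : 0 < r) :
    dev σ = ∑ t, (σ t : ℝ) ^ 2 - (n : ℝ) ^ 2 / r := by
  have hrpos : (0 : ℝ) < r := by exact_mod_cast hr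
  have hcast : (n : ℝ) = ∑ s, (σ s : ℝ) := by rw [← hn]; push_cast; rfl
  unfold dev
  rw [← hcast]
  have h8 : ∀ t : Fin r, ((σ t : ℝ) - n / r) ^ 2
      = (σ t : ℝ) ^ 2 - 2 * (n / r) * σ t + (n / r) ^ 2 := fun t => by ring
  rw [Finset.sum_congr rfl fun t _ => h8 t, Finset.sum_add_distrib, Finset.sum_sub_distrib,
    ← Finset.mul_sum, ← hcast, Finset.sum_const, Finset.card_univ, Fintype.card_fin,
    nsmul_eq_mul]
  field_simp
  ring

theorem fin {b b' d η : ℝ} (hη : 0 ≤ η) (hη1 : η ≤ 1 / 9)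
    (hb : 0 < b) (hbη : 14 * η * b ≤ 1) (hb' : 0 ≤ b') (hbb' : b' ≤ b)
    (h : (d * (1 - η)) ^ 2 ≤ (1 + η) ^ 2 * (b * (b - b' / 2))) : b' ≤ 4 * (b - d) + 1 := by
  set X := b * (b - b' / 2) with hX
  have hX0 : 0 ≤ X := mul_nonneg hb.le (by linarith)
  have hX1 : X ≤ b * b := mul_le_mul_of_nonneg_left (by linarith) hb.le
  have h1 : (1 + η) ^ 2 ≤ (1 - η) ^ 2 * (1 + 7 * η) := by
    have e : (1 - η) ^ 2 * (1 + 7 * η) - (1 + η) ^ 2 = η * (3 - 14 * η + 7 * η ^ 2) := by ring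
    have : 0 ≤ η * (3 - 14 * η + 7 * η ^ 2) := mul_nonneg hη (by nlinarith)
    linarith
  have h2 : (1 - η) ^ 2 * d ^ 2 ≤ (1 - η) ^ 2 * ((1 + 7 * η) * X) := by
    calc (1 - η) ^ 2 * d ^ 2 = (d * (1 - η)) ^ 2 := by ring
      _ ≤ (1 + η) ^ 2 * X := h
      _ ≤ ((1 - η) ^ 2 * (1 + 7 * η)) * X := mul_le_mul_of_nonneg_right h1 hX0
      _ = _ := by ring
  have h3 : d ^ 2 ≤ (1 + 7 * η) * X :=
    le_of_mul_le_mul_left h2 (by have : 0 < 1 - η := by linarith
                                 positivity)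
  have h4 : 7 * η * X ≤ 7 * η * (b * b) := mul_le_mul_of_nonneg_left hX1 (by positivity)
  have h5 : 7 * η * (b * b) ≤ b / 2 := by
    have h6 : 14 * η * b * b ≤ 1 * b := mul_le_mul_of_nonneg_right hbη hb.le
    have e : 7 * η * (b * b) = (14 * η * b * b) / 2 := by ring
    rw [e]
    linarith
  have h6 : b * (b' / 2) ≤ b * (2 * (b - d) + 1 / 2) := by
    have e : X = b * b - b * (b' / 2) := by rw [hX]; ring
    have e2 : (1 + 7 * η) * X = X + 7 * η * X := by ring
    have h7 : 0 ≤ (b - d) * (b - d) := mul_self_nonneg _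
    have e3 : (b - d) * (b - d) = b * b - 2 * (b * d) + d ^ 2 := by ring
    have e4 : b * (2 * (b - d) + 1 / 2) = 2 * (b * b) - 2 * (b * d) + b / 2 := by ring
    rw [e4]
    linarith
  have h7 := le_of_mul_le_mul_left h6 hb
  linarith

theorem spec_low {n r l q s dv : ℝ} (hq : q = 1 - 1 / r) (hdv : dv = s - n ^ 2 / r)
    (hdr : dv ≤ r) (hrn : r ≤ n) (hn : 0 < n) (h : n ^ 2 - s ≤ l * n) : q * n - 1 ≤ l := by
  have e : n ^ 2 / r = 1 / r * n ^ 2 := by ring
  have h3 : (q * n - 1) * n ≤ l * n := by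
    have e2 : (q * n - 1) * n = n ^ 2 - 1 / r * n ^ 2 - n := by rw [hq]; ring
    rw [e2]
    linarith
  exact le_of_mul_le_mul_right h3 hn

theorem spec_up {n r l q s dv m b : ℝ} (hq : q = 1 - 1 / r) (hq0 : 0 ≤ q)
    (hdv : dv = s - n ^ 2 / r) (hdv0 : 0 ≤ dv) (hbn : b ≤ n) (hn : 0 < n)
    (hc : 2 * m + s = n ^ 2 + 2 * b) (h : l ^ 2 ≤ 2 * q * m) : l ≤ q * n + 1 := by
  have e : n ^ 2 / r = 1 / r * n ^ 2 := by ring
  have e2 : q * n ^ 2 = n ^ 2 - 1 / r * n ^ 2 := by rw [hq]; ring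
  have hqn : 0 ≤ q * n := mul_nonneg hq0 hn.le
  have h4 : 2 * m ≤ q * n ^ 2 + 2 * n := by
    rw [e2]
    linarith
  have h5 := mul_le_mul_of_nonneg_left h4 hq0
  have h6 : l ^ 2 ≤ (q * n + 1) ^ 2 := by
    have e3 : q * (q * n ^ 2 + 2 * n) = (q * n) ^ 2 + 2 * (q * n) := by ring
    have e4 : (q * n + 1) ^ 2 = (q * n) ^ 2 + 2 * (q * n) + 1 := by ring
    rw [e3] at h5
    rw [e4]
    linarith
  exact le_of_sq_le_sq h6 (by linarith)

/-- the main inequality: upper bound for the weight of the light vertices -/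
theorem upper {G : SimpleGraph V} {g : V → Option (Fin r)} {z : V → ℝ} {l M b D L : ℝ} {w : V}
    (hz : ∀ v, 0 ≤ z v) (hl : 0 < l) (h : ∀ v, ∑ u, adj G v u * z u = l * z v)
    (hgw : g w = none) (hM : ∀ u, g u ≠ none → z u ≤ M) (hM0 : 0 ≤ M)
    (hD : ∀ v, g v = none → ∑ u, adj G v u * cc g 1 u ≤ D)
    (hL : bf G (ll g 1) (ll g 1) = 2 * L) (hb : bf G (ll g 1) (cc g 1) + L = b)
    (hbl : 3 * b ≤ l) (hDb : D ≤ b) (hL0 : 0 ≤ L) (hD0 : 0 ≤ D) :
    l ^ 2 * ∑ v, ll g z v ^ 2 ≤ M ^ 2 * (b * (D + L / 2)) := by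
  classical
  have hP0 : 0 ≤ bf G (ll g 1) (cc g 1) :=
    bf_nonneg G _ _ (fun v => by unfold ll; split_ifs <;> simp)
      (fun v => by unfold cc; split_ifs <;> simp)
  have hb0 : 0 ≤ b := by linarith
  obtain ⟨v₀, hv₀, hmax⟩ := Finset.exists_max_image (univ.filter fun v => g v = none) z
    ⟨w, by simp [hgw]⟩
  rw [Finset.mem_filter] at hv₀
  have hZ : ∀ v, g v = none → z v ≤ z v₀ := fun v hv =>
    hmax v (by simp [hv])
  have hlv : ∀ v, g v = none → ∑ u, adj G v u * ll g 1 u ≤ L := by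
    intro v hv
    have := lv_le G g v hv
    rw [hL] at this
    linarith
  have hlv0 : ∀ v, 0 ≤ ∑ u, adj G v u * ll g 1 u := fun v =>
    Finset.sum_nonneg fun u _ => mul_nonneg (adj_nonneg G v u)
      (by unfold ll; split_ifs <;> simp)
  have hdv0 : ∀ v, 0 ≤ ∑ u, adj G v u * cc g 1 u := fun v =>
    Finset.sum_nonneg fun u _ => mul_nonneg (adj_nonneg G v u)
      (by unfold cc; split_ifs <;> simp)
  have key : ∀ v, l * z v ≤ M * ∑ u, adj G v u * cc g 1 u + z v₀ * ∑ u, adj G v u * ll g 1 u := by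
    intro v
    rw [← h v, Finset.mul_sum, Finset.mul_sum, ← Finset.sum_add_distrib]
    refine Finset.sum_le_sum fun u _ => ?_
    unfold cc ll
    by_cases hu : g u = none
    · simp only [hu, if_true, Pi.one_apply, mul_one, mul_zero, zero_add]
      rw [mul_comm (z v₀)]
      exact mul_le_mul_of_nonneg_left (hZ u hu) (adj_nonneg G v u)
    · simp only [hu, if_false, Pi.one_apply, mul_one, mul_zero, add_zero]
      rw [mul_comm M]
      exact mul_le_mul_of_nonneg_left (hM u hu) (adj_nonneg G v u)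
  have hz0 : z v₀ ≤ M / 2 := by
    have h1 := key v₀
    have h2 : M * ∑ u, adj G v₀ u * cc g 1 u ≤ M * b :=
      mul_le_mul_of_nonneg_left ((hD v₀ hv₀.2).trans hDb) hM0
    have h3 : z v₀ * ∑ u, adj G v₀ u * ll g 1 u ≤ z v₀ * b :=
      mul_le_mul_of_nonneg_left ((hlv v₀ hv₀.2).trans (by linarith)) (hz v₀)
    have h4 : l * z v₀ ≤ M * (l / 3) + z v₀ * (l / 3) := by
      have h5 : M * b ≤ M * (l / 3) := mul_le_mul_of_nonneg_left (by linarith) hM0
      have h6 : z v₀ * b ≤ z v₀ * (l / 3) := mul_le_mul_of_nonneg_left (by linarith) (hz v₀)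
      linarith
    have h5 : l * (2 * z v₀) ≤ l * M := by linarith
    have := le_of_mul_le_mul_left h5 hl
    linarith
  set f : V → ℝ := fun v => ll g 1 v * (∑ u, adj G v u * cc g 1 u
    + (∑ u, adj G v u * ll g 1 u) / 2) with hf
  have hf0 : ∀ v, 0 ≤ f v := fun v => by
    have h1 := hlv0 v
    have h2 := hdv0 v
    have h3 : (0 : ℝ) ≤ ll g 1 v := by unfold ll; split_ifs <;> simp
    have : 0 ≤ ∑ u, adj G v u * cc g 1 u + (∑ u, adj G v u * ll g 1 u) / 2 := by linarith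
    exact mul_nonneg h3 this
  have hf1 : ∀ v, f v ≤ D + L / 2 := fun v => by
    by_cases hv : g v = none
    · have h1 := hlv v hv
      have h2 := hD v hv
      have h3 : ll g 1 v = 1 := by simp [ll, hv]
      simp only [hf, h3, one_mul]
      linarith
    · have h3 : ll g 1 v = 0 := by simp [ll, hv]
      simp only [hf, h3, zero_mul]
      linarith
  have hf2 : ∑ v, f v = b := by
    have h1 : ∑ v, f v = bf G (ll g 1) (cc g 1) + bf G (ll g 1) (ll g 1) / 2 := by
      unfold bf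
      rw [Finset.sum_div, ← Finset.sum_add_distrib]
      refine Finset.sum_congr rfl fun v _ => ?_
      simp only [hf]
      ring
    rw [h1, hL]
    linarith
  have h1 : ∀ v, l ^ 2 * ll g z v ^ 2 ≤ M ^ 2 * ((D + L / 2) * f v) := by
    intro v
    have hDL : 0 ≤ D + L / 2 := by linarith
    by_cases hv : g v = none
    · have h3 : ll g 1 v = 1 := by simp [ll, hv]
      have h4 : ll g z v = z v := by simp [ll, hv]
      rw [h4]
      have h5 : l * z v ≤ M * f v := by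
        simp only [hf, h3, one_mul]
        have h6 := key v
        have h7 : z v₀ * ∑ u, adj G v u * ll g 1 u ≤ M / 2 * ∑ u, adj G v u * ll g 1 u :=
          mul_le_mul_of_nonneg_right hz0 (hlv0 v)
        linarith
      have h8 : 0 ≤ l * z v := mul_nonneg hl.le (hz v)
      calc l ^ 2 * z v ^ 2 = (l * z v) ^ 2 := by ring
        _ ≤ (M * f v) ^ 2 := pow_le_pow_left₀ h8 h5 2
        _ = M ^ 2 * (f v * f v) := by ring
        _ ≤ M ^ 2 * ((D + L / 2) * f v) :=
          mul_le_mul_of_nonneg_left (mul_le_mul_of_nonneg_right (hf1 v) (hf0 v)) (sq_nonneg M)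
    · have h4 : ll g z v = 0 := by simp [ll, hv]
      rw [h4]
      have : 0 ≤ M ^ 2 * ((D + L / 2) * f v) :=
        mul_nonneg (sq_nonneg M) (mul_nonneg hDL (hf0 v))
      simpa using this
  rw [Finset.mul_sum]
  calc ∑ v, l ^ 2 * ll g z v ^ 2 ≤ ∑ v, M ^ 2 * ((D + L / 2) * f v) :=
        Finset.sum_le_sum fun v _ => h1 v
    _ = M ^ 2 * (b * (D + L / 2)) := by
        rw [← Finset.mul_sum, ← Finset.mul_sum, hf2]
        ring

/-- the lower bound -/
theorem lower (hP : P_statement) {G H : SimpleGraph V} {g : V → Option (Fin r)} {z : V → ℝ}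
    {l m d : ℝ} {w : V} (hz : ∀ v, 0 ≤ z v) (hl : 0 < l)
    (h : ∀ v, ∑ u, adj G v u * z u = l * z v) (hG : CK G g) (hH : CK H g) (hgw : g w = none)
    (hm : ∀ u, g u ≠ none → m ≤ z u) (hm0 : 0 ≤ m)
    (hd : ∑ u, adj H w u * cc g 1 u = d) (hlam : lam H ≤ l) :
    (m * d) ^ 2 ≤ l ^ 2 * ∑ v, ll g z v ^ 2 := by
  classical
  have : Nonempty V := ⟨w⟩
  have hd0 : 0 ≤ d := by
    rw [← hd]
    exact Finset.sum_nonneg fun u _ => mul_nonneg (adj_nonneg H w u)
      (by unfold cc; split_ifs <;> simp)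
  set τ := m * d / l with hτ
  have hτ0 : 0 ≤ τ := by positivity
  set s := ∑ v, ll g z v ^ 2 with hs
  set Q := ∑ v, cc g z v ^ 2 with hQ
  set e : V → ℝ := fun u => if u = w then τ else 0 with he
  have h1 := (hP V H).2.1 (fun u => cc g z u + e u)
  have hcw : cc g z w = 0 := by simp [cc, hgw]
  have h2 : ∑ i, (cc g z i + e i) ^ 2 = Q + τ ^ 2 := by
    have h3 : ∀ i, (cc g z i + e i) ^ 2 = cc g z i ^ 2 + if i = w then τ ^ 2 else 0 := by
      intro i
      simp only [he]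
      by_cases hi : i = w
      · subst hi
        simp [hcw]
      · simp [hi]
    rw [Finset.sum_congr rfl fun i _ => h3 i, Finset.sum_add_distrib,
      Finset.sum_ite_eq' Finset.univ w, if_pos (Finset.mem_univ w)]
  have hew : ∀ y : V → ℝ, bf H e y = τ * ∑ v, adj H w v * y v := by
    intro y
    unfold bf
    have : ∀ u, e u * ∑ v, adj H u v * y v = if u = w then τ * ∑ v, adj H w v * y v else 0 := by
      intro u
      simp only [he]
      by_cases hu : u = w
      · subst hu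
        simp
      · simp [hu]
    rw [Finset.sum_congr rfl fun u _ => this u, Finset.sum_ite_eq' Finset.univ w,
      if_pos (Finset.mem_univ w)]
  have h3 : qf H (fun u => cc g z u + e u) = bf G (cc g z) (cc g z)
      + 2 * (τ * ∑ v, adj H w v * cc g z v) := by
    rw [qf_bf, bf_add, bf_symm H _ (cc g z), bf_symm H _ e, bf_add, bf_add,
      bf_symm H (cc g z) e, hew, hew]
    have h4 : ∑ v, adj H w v * e v = 0 := by
      refine Finset.sum_eq_zero fun v _ => ?_
      simp only [he]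
      by_cases hv : v = w
      · subst hv
        simp [adj_self]
      · simp [hv]
    have h5 : bf H (cc g z) (cc g z) = bf G (cc g z) (cc g z) := by
      unfold bf
      refine Finset.sum_congr rfl fun u _ => ?_
      by_cases hu : g u = none
      · simp [cc, hu]
      · congr 1
        refine Finset.sum_congr rfl fun v _ => ?_
        by_cases hv : g v = none
        · simp [cc, hv]
        · congr 1
          unfold adj
          rw [hG u v hu hv, hH u v hu hv]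
    rw [h4, h5]
    ring
  have h4 : m * d ≤ ∑ v, adj H w v * cc g z v := by
    rw [← hd, Finset.mul_sum]
    refine Finset.sum_le_sum fun v _ => ?_
    unfold cc
    by_cases hv : g v = none
    · simp [hv]
    · simp only [hv, if_false, Pi.one_apply, mul_one]
      rw [mul_comm m]
      exact mul_le_mul_of_nonneg_left (hm v hv) (adj_nonneg H w v)
  have h5 := form (G := G) (g := g) h
  have h6 : 0 ≤ bf G (ll g z) (ll g z) :=
    bf_nonneg G _ _ (fun v => by unfold ll; split_ifs <;> simp [hz v])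
      (fun v => by unfold ll; split_ifs <;> simp [hz v])
  rw [h2, h3, h5] at h1
  have hQ0 : 0 ≤ Q := Finset.sum_nonneg fun v _ => sq_nonneg _
  have h7 : lam H * (Q + τ ^ 2) ≤ l * (Q + τ ^ 2) :=
    mul_le_mul_of_nonneg_right hlam (by positivity)
  have h8 : τ * (m * d) ≤ τ * ∑ v, adj H w v * cc g z v := mul_le_mul_of_nonneg_left h4 hτ0
  have h9 : l * τ = m * d := by
    rw [hτ]
    field_simp
  have h10 : 2 * (τ * (m * d)) ≤ l * s + l * τ ^ 2 := by
    rw [← hs, ← hQ] at h1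
    linarith
  have h11 : τ * (m * d) = l * τ ^ 2 := by rw [← h9]; ring
  have h12 : l * τ ^ 2 ≤ l * s := by linarith
  calc (m * d) ^ 2 = l * (l * τ ^ 2) := by rw [← h9]; ring
    _ ≤ l * (l * s) := mul_le_mul_of_nonneg_left h12 hl.le
    _ = l ^ 2 * s := by ring

end ItemSSW

open ItemSSW ItemKW3 in
theorem prfSSW : P_statement → CNTU_statement → SSW_statement := by
  classical
  intro hP hCN r hr
  have hr0 : (3 : ℝ) ≤ r := by exact_mod_cast hr
  refine ⟨1 / (100 * ((r : ℝ) + 10)), by positivity, 100 * (r + 10), ?_⟩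
  intro V _ G H z g w n d hn hF hgw hsum hmiss hdev hlight hmax hH hd hdb hlam
  have hNe : Nonempty V := ⟨w⟩
  set b := (lightSet G g ∅).ncard with hb
  set b' := (lightSet G g {w}).ncard with hb'
  set l := lam G with hl
  set m := G.edgeSet.ncard with hm
  have hG : CK G g := ck_of_miss hF.indep hmiss
  have hHc : CK H g := hH.core
  have hz := hF.zd.nonneg
  have hl0 : 0 < l := hF.zd.lpos
  have heig : ∀ v, ∑ u, adj G v u * z u = l * z v := hF.zd.eig
  have hn' : 100 * ((r : ℝ) + 10) ≤ n := by exact_mod_cast hn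
  have hn0 : (0 : ℝ) < n := by linarith
  have hrpos : (0 : ℝ) < r := by linarith
  -- counting
  obtain ⟨e₁, he₁, hc₁⟩ := hCN r V G g ∅ hF.indep (by simp)
  obtain ⟨e₂, he₂, hc₂⟩ := hCN r V G g {w} hF.indep (by simpa using hgw)
  rw [Finset.card_empty, zero_mul] at he₁
  rw [Finset.card_singleton, Nat.sub_self, mul_zero] at he₂
  rw [Finset.sum_empty, hmiss, hsum] at hc₁
  rw [Finset.sum_singleton, hmiss, hsum] at hc₂
  set D := ∑ t, nbn G g w t with hD
  have hbD : b = D + b' := by omega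
  have hc₃ : 2 * m + ∑ t, siz g t ^ 2 = n ^ 2 + 2 * b := by omega
  have hc₄ : 2 * (m : ℝ) + ∑ t, (siz g t : ℝ) ^ 2 = (n : ℝ) ^ 2 + 2 * b := by exact_mod_cast hc₃
  have hed := hF.zd.edges
  rw [edges_split G g, core_edges hG n hsum] at hed
  set P := bf G (ll g 1) (cc g 1) with hPdef
  set L := bf G (ll g 1) (ll g 1) / 2 with hL
  have hLe : bf G (ll g 1) (ll g 1) = 2 * L := by rw [hL]; ring
  rw [hLe] at hed
  have hPL : P + L = b := by linarith
  have hll0 : ∀ v, 0 ≤ ll g (1 : V → ℝ) v := fun v => by unfold ll; split_ifs <;> simp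
  have hcc0 : ∀ v, 0 ≤ cc g (1 : V → ℝ) v := fun v => by unfold cc; split_ifs <;> simp
  have hL0 : 0 ≤ L := by
    have := bf_nonneg G (ll g 1) (ll g 1) hll0 hll0
    rw [hL]
    linarith
  have hP0 : 0 ≤ P := bf_nonneg G _ _ hll0 hcc0
  have hb0 : (0 : ℝ) ≤ b := Nat.cast_nonneg _
  have hbn : (b : ℝ) * 100 * (r + 10) ≤ n := by
    have : (b : ℝ) ≤ 1 / (100 * ((r : ℝ) + 10)) * n := hlight
    rw [div_mul_eq_mul_div, one_mul, le_div_iff₀ (by positivity)] at this
    linarith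
  have hbr : 0 ≤ (b : ℝ) * r := mul_nonneg hb0 hrpos.le
  have hbn' : (b : ℝ) * 1000 ≤ n := by linarith
  have hDv : ∀ v, g v = none → ∑ u, adj G v u * cc g 1 u ≤ D := by
    intro v hv
    rw [cdeg]
    exact_mod_cast hmax v hv
  have hDw : ∑ u, adj G w u * cc g 1 u = D := cdeg G g w
  have hDP : (D : ℝ) ≤ P := by
    rw [← hDw]
    have h1 : ll g 1 w * ∑ u, adj G w u * cc g 1 u ≤ P :=
      Finset.single_le_sum (f := fun v => ll g 1 v * ∑ u, adj G v u * cc g 1 u)
        (fun v _ => mul_nonneg (hll0 v)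
          (Finset.sum_nonneg fun u _ => mul_nonneg (adj_nonneg G v u) (hcc0 u)))
        (Finset.mem_univ w)
    have h2 : ll g 1 w = 1 := by simp [ll, hgw]
    rwa [h2, one_mul] at h1
  have hbD' : (b : ℝ) = D + b' := by exact_mod_cast hbD
  have hLb' : L ≤ b' := by linarith
  -- the spectral radius
  have hdeq := dev_eq (siz g) n hsum (by omega)
  have hdev0 : 0 ≤ dev (siz g) := Finset.sum_nonneg fun t _ => sq_nonneg _
  have hq : qq r = 1 - 1 / (r : ℝ) := rfl
  have hq1 : 1 / (r : ℝ) ≤ 1 / 3 := one_div_le_one_div_of_le (by norm_num) hr0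
  have hq2 : 0 < 1 / (r : ℝ) := by positivity
  have hlow : qq r * n - 1 ≤ l := by
    have h1 := (hP V G).2.1 (cc g 1)
    rw [qf_bf, core_edges hG n hsum] at h1
    have h2 : ∑ v, cc g (1 : V → ℝ) v ^ 2 = n := by
      rw [← core_card g n hsum]
      refine Finset.sum_congr rfl fun v _ => ?_
      unfold cc
      split_ifs <;> simp
    rw [h2] at h1
    exact spec_low hq hdeq hdev (by linarith) hn0 h1
  have hup : l ≤ qq r * n + 1 :=
    spec_up hq (by rw [hq]; linarith) hdeq hdev0 (by linarith) hn0 hc₄ hF.up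
  have hl2 : (n : ℝ) / 2 ≤ l := by
    have : (2 / 3 : ℝ) * n ≤ qq r * n := by
      apply mul_le_mul_of_nonneg_right _ hn0.le
      rw [hq]; linarith
    linarith
  have hσ : ∀ t, |l + siz g t - n| ≤ r + 1 := by
    intro t
    have h1 : ((siz g t : ℝ) - n / r) ^ 2 ≤ (r : ℝ) ^ 2 := by
      have h2 : ((siz g t : ℝ) - n / r) ^ 2 ≤ dev (siz g) := by
        unfold dev
        have hcast : (n : ℝ) = ∑ s, (siz g s : ℝ) := by rw [← hsum]; push_cast; rfl
        rw [← hcast]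
        exact Finset.single_le_sum (f := fun t => ((siz g t : ℝ) - n / r) ^ 2)
          (fun t _ => sq_nonneg _) (Finset.mem_univ t)
      have h3 : (r : ℝ) * 1 ≤ r * r := mul_le_mul_of_nonneg_left (by linarith) hrpos.le
      rw [pow_two (r : ℝ)]
      linarith
    have h2 := abs_le.1 (abs_le_of_sq_le_sq h1 (by linarith))
    have h3 : qq r * n + n / r = n := by rw [hq]; field_simp; ring
    rw [abs_le]
    constructor <;> linarith
  -- the core
  set S := ∑ v, cc g z v with hS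
  have hδ : (1 / (40 * (r : ℝ))) ≤ 1 / 2 := by
    rw [div_le_div_iff₀ (by positivity) (by norm_num)]
    linarith
  have hSn : (n : ℝ) / 2 ≤ S := by
    rw [hS, ← core_card g n hsum, Finset.sum_div]
    refine Finset.sum_le_sum fun v _ => ?_
    unfold cc
    by_cases hv : g v = none
    · simp [hv]
    · have h1 := (abs_le.1 (hF.core v hv)).1
      simp only [hv, if_false, Pi.one_apply]
      linarith
  have hzb : ∀ v, z v ≤ 2 := fun v => (hF.bd v).trans (by linarith)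
  have hzl : ∀ v, g v = none → z v ≤ 1 := fun v hv => (hF.light v hv (by simp)).trans (by linarith)
  have hllz0 : ∀ v, 0 ≤ ll g z v := fun v => by unfold ll; split_ifs <;> simp [hz v]
  have hllz1 : ∀ v, ll g z v ≤ ll g 1 v := fun v => by
    unfold ll
    by_cases hv : g v = none
    · simp [hv, hzl v hv]
    · simp [hv]
  have hZ : ∑ v, ll g z v ≤ 1 := by
    have h1 : l * ∑ v, ll g z v ≤ 4 * b := by
      calc l * ∑ v, ll g z v = ∑ v, ll g 1 v * ∑ u, adj G v u * z u := by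
            rw [Finset.mul_sum]
            refine Finset.sum_congr rfl fun v _ => ?_
            rw [heig v]
            unfold ll
            split_ifs <;> simp
        _ ≤ ∑ v, ll g 1 v * ∑ u, adj G v u * 2 := by
            refine Finset.sum_le_sum fun v _ => mul_le_mul_of_nonneg_left ?_ (hll0 v)
            exact Finset.sum_le_sum fun u _ =>
              mul_le_mul_of_nonneg_left (hzb u) (adj_nonneg G v u)
        _ = 2 * (P + 2 * L) := by
            rw [← hLe, hPdef]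
            unfold bf
            rw [← Finset.sum_add_distrib, Finset.mul_sum]
            refine Finset.sum_congr rfl fun v _ => ?_
            rw [← mul_add, ← Finset.sum_add_distrib, mul_left_comm]
            congr 1
            rw [Finset.mul_sum]
            refine Finset.sum_congr rfl fun u _ => ?_
            rw [← mul_add, cc_add_ll]
            simp only [Pi.one_apply]
            ring
        _ ≤ 4 * b := by linarith
    have h2 : l * ∑ v, ll g z v ≤ l * 1 := by linarith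
    exact le_of_mul_le_mul_left h2 hl0
  set η : ℝ := (2 * ((r : ℝ) + 1) + 4) / n with hη
  have hη0 : 0 ≤ η := by positivity
  have hη1 : η ≤ 1 / 9 := by
    rw [hη, div_le_iff₀ hn0]
    linarith
  have hcore : ∀ u, g u ≠ none → z u ≤ S / n * (1 + η) ∧ S / n * (1 - η) ≤ z u := by
    intro u hu
    obtain ⟨t, ht⟩ := Option.ne_none_iff_exists'.1 hu
    obtain ⟨h1, h2⟩ := class_eq hG heig t
    have hX0 : ∀ u, 0 ≤ ∑ v, adj G u v * ll g z v := fun u =>
      Finset.sum_nonneg fun v _ => mul_nonneg (adj_nonneg G u v) (hllz0 v)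
    refine ana (l := l) (σ := siz g t) (S := S) (n := n) (C := r + 1) (zu := z u)
      (by positivity) (by linarith) hl2 hSn h2 ?_ ?_ (hσ t) (h1 u ht) (hX0 u) ?_
    · exact Finset.sum_nonneg fun u _ => by split_ifs; exacts [hX0 u, le_refl _]
    · calc (∑ u, if g u = some t then ∑ v, adj G u v * ll g z v else 0)
          ≤ bf G (cc g 1) (ll g 1) := by
            unfold bf
            refine Finset.sum_le_sum fun u _ => ?_
            have h3 : ∑ v, adj G u v * ll g z v ≤ ∑ v, adj G u v * ll g 1 v :=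
              Finset.sum_le_sum fun v _ =>
                mul_le_mul_of_nonneg_left (hllz1 v) (adj_nonneg G u v)
            by_cases hu : g u = some t
            · have h4 : cc g (1 : V → ℝ) u = 1 := by simp [cc, hu]
              rw [if_pos hu, h4, one_mul]
              exact h3
            · rw [if_neg hu]
              exact mul_nonneg (hcc0 u) ((hX0 u).trans h3)
        _ = P := bf_symm G _ _
        _ ≤ l := by linarith
    · calc ∑ v, adj G u v * ll g z v ≤ ∑ v, ll g z v := by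
            refine Finset.sum_le_sum fun v _ => ?_
            calc adj G u v * ll g z v ≤ 1 * ll g z v :=
                  mul_le_mul_of_nonneg_right (adj_le_one G u v) (hllz0 v)
              _ = ll g z v := one_mul _
        _ ≤ 1 := hZ
  have hSn0 : 0 < S / n := div_pos (by linarith) hn0
  have hU := upper (G := G) (g := g) (z := z) (l := l) (M := S / n * (1 + η)) (b := b)
    (D := D) (L := L) (w := w) hz hl0 heig hgw (fun u hu => (hcore u hu).1) (by positivity)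
    hDv hLe hPL (by linarith) (by linarith) hL0 (Nat.cast_nonneg _)
  have hW := lower hP (G := G) (H := H) (g := g) (z := z) (l := l) (m := S / n * (1 - η))
    (d := d) (w := w) hz hl0 heig hG hHc hgw (fun u hu => (hcore u hu).2)
    (mul_nonneg hSn0.le (by linarith)) (by rw [cdeg, hd]) hlam
  have hfin : (b' : ℝ) ≤ 4 * (b - d) + 1 := by
    have hdb' : (d : ℝ) ≤ b := by exact_mod_cast hdb
    have hb'b : (b' : ℝ) ≤ b := by
      rw [hbD']
      linarith [(Nat.cast_nonneg D : (0 : ℝ) ≤ (D : ℝ))]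
    rcases eq_or_lt_of_le hb0 with hb1 | hb1
    · linarith
    · refine fin hη0 hη1 hb1 ?_ (Nat.cast_nonneg _) hb'b ?_
      · rw [hη, mul_div_assoc', div_mul_eq_mul_div, div_le_one hn0]
        linarith
      · have h1 : (S / n) ^ 2 * (d * (1 - η)) ^ 2
            ≤ (S / n) ^ 2 * ((1 + η) ^ 2 * (b * (b - b' / 2))) := by
          calc (S / n) ^ 2 * (d * (1 - η)) ^ 2 = (S / n * (1 - η) * d) ^ 2 := by ring
            _ ≤ l ^ 2 * ∑ v, ll g z v ^ 2 := hW
            _ ≤ (S / n * (1 + η)) ^ 2 * (b * (D + L / 2)) := hU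
            _ ≤ (S / n * (1 + η)) ^ 2 * (b * (b - b' / 2)) := by
                refine mul_le_mul_of_nonneg_left ?_ (sq_nonneg _)
                refine mul_le_mul_of_nonneg_left ?_ hb0
                linarith
            _ = _ := by ring
        exact le_of_mul_le_mul_left h1 (by positivity)
  have hsub : ((b - d : ℕ) : ℝ) = b - d := Nat.cast_sub hdb
  rw [← hsub] at hfin
  exact_mod_cast hfin

end MP0c3a8f

end

section

/-!
# MP_0c3a8f_co, phase B, item STS: the rough structure for small `D`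

The structure of the proof is the one of item STU (helper16).
-/

set_option autoImplicit false

open Finset

namespace MP0c3a8f

namespace ItemSTS

/-- a vertex of linear degree is expensive -/
theorem exc (q c n n' d : ℝ) (hq : 0 < q) (hc : 0 < c) (hc1 : c ≤ 1 / 80) (hn : 0 < n)
    (hn' : n / 2 ≤ n') (h1 : c * (q * n') ≤ d) (h2 : d ≤ (1 - c) * (q * n')) :
    c ^ 2 * q ^ 2 * n ≤ 2 * d * (q - d / n') := by
  have hn0 : 0 < n' := by linarith
  have hqn : 0 < q * n' := by positivity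
  obtain ⟨τ, hτ⟩ : ∃ τ : ℝ, τ = d / (q * n') := ⟨_, rfl⟩
  have hd : d = τ * (q * n') := by rw [hτ]; field_simp
  have h3 : c ≤ τ := by rw [hτ, le_div_iff₀ hqn]; exact h1
  have h4 : τ ≤ 1 - c := by rw [hτ, div_le_iff₀ hqn]; exact h2
  have e1 : d / n' = τ * q := by
    rw [hd]
    field_simp
  have e2 : 2 * d * (q - d / n') = 2 * (q ^ 2 * n') * (τ * (1 - τ)) := by
    rw [e1, hd]
    ring
  have h5 : c ^ 2 ≤ τ * (1 - τ) := by nlinarith
  have h6 : 2 * (q ^ 2 * n') * c ^ 2 ≤ 2 * (q ^ 2 * n') * (τ * (1 - τ)) :=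
    mul_le_mul_of_nonneg_left h5 (by positivity)
  have h7 : c ^ 2 * q ^ 2 * n ≤ 2 * (q ^ 2 * n') * c ^ 2 := by
    have : c ^ 2 * q ^ 2 * (n / 2) ≤ c ^ 2 * q ^ 2 * n' :=
      mul_le_mul_of_nonneg_left hn' (by positivity)
    linarith
  rw [e2]
  linarith

/-- the square root of the deviation is absorbed -/
theorem sqr (C dv : ℝ) (hdv : 0 ≤ dv) : C * Real.sqrt dv ≤ dv / 10 + 5 / 2 * C ^ 2 := by
  have h1 := Real.sq_sqrt hdv
  have h2 := sq_nonneg (Real.sqrt dv - 5 * C)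
  nlinarith

/-- the consequence of the main inequality -/
theorem cons (q s e₁ C5 a b dv S k : ℝ) (hq : 2 / 3 ≤ q) (hs : 1 / 3 ≤ s) (he : e₁ ≤ 1 / 36)
    (ha : 0 ≤ a) (hb : 0 ≤ b) (hdv : 0 ≤ dv)
    (h : (2 * q - e₁) * (a + b) + q * (s - e₁) * dv + S - C5 * (1 + Real.sqrt dv) ≤ k) :
    a + b + dv / 10 + S ≤ k + C5 + 5 / 2 * C5 ^ 2 := by
  have h1 := sqr C5 dv hdv
  have h2 : 1 * (a + b) ≤ (2 * q - e₁) * (a + b) :=
    mul_le_mul_of_nonneg_right (by linarith) (by linarith)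
  have h3 : 1 / 5 * dv ≤ q * (s - e₁) * dv := by
    refine mul_le_mul_of_nonneg_right ?_ hdv
    have h4 : 2 / 3 * (11 / 36) ≤ q * (s - e₁) :=
      mul_le_mul hq (by linarith) (by norm_num) (by linarith)
    linarith
  linarith

/-- equality of the numbers of vertices -/
theorem eqn (n n' : ℕ) (q : ℝ) (hq : 0 < q) (x : ℝ)
    (h : q * ((n' : ℝ) ^ 2 - (n : ℝ) ^ 2) = x) (hx1 : x < q * n) (hx2 : -(q * n) < x) :
    n' = n := by
  rcases lt_trichotomy n' n with hlt | heq | hgt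
  · exfalso
    have h1 : (n' : ℝ) + 1 ≤ n := by exact_mod_cast hlt
    have h2 : (0 : ℝ) ≤ n' := Nat.cast_nonneg _
    have h3 : (n' : ℝ) ^ 2 - (n : ℝ) ^ 2 ≤ -n := by nlinarith
    have h4 : q * ((n' : ℝ) ^ 2 - (n : ℝ) ^ 2) ≤ q * (-n) :=
      mul_le_mul_of_nonneg_left h3 hq.le
    linarith
  · exact heq
  · exfalso
    have h1 : (n : ℝ) + 1 ≤ n' := by exact_mod_cast hgt
    have h2 : (0 : ℝ) ≤ n := Nat.cast_nonneg _
    have h3 : (n : ℝ) ≤ (n' : ℝ) ^ 2 - (n : ℝ) ^ 2 := by nlinarith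
    have h4 : q * n ≤ q * ((n' : ℝ) ^ 2 - (n : ℝ) ^ 2) :=
      mul_le_mul_of_nonneg_left h3 hq.le
    linarith

end ItemSTS

theorem prfSTS : ROUGH_statement → MAIN_statement → CNTU_statement → DEV_statement →
    STS_statement := by
  classical
  intro hRo hMa hCn hDe W _ F r C₀ hr hcrit hcol hC0
  have hr1 : 1 ≤ r := by omega
  have hr0 : (0 : ℝ) < r := by exact_mod_cast hr1
  have hr3 : (3 : ℝ) ≤ r := by exact_mod_cast hr
  have hq1 : 2 / 3 ≤ qq r := by
    unfold qq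
    have : 1 / (r : ℝ) ≤ 1 / 3 := one_div_le_one_div_of_le (by norm_num) hr3
    linarith
  have hq0 : 0 < qq r := by linarith
  have hq2 : qq r ≤ 1 := by
    unfold qq
    have : 0 < 1 / (r : ℝ) := by positivity
    linarith
  have hs0 : 1 / 3 ≤ 1 - 2 / (r : ℝ) := by
    have h1 : 2 / (r : ℝ) ≤ 2 / 3 := div_le_div_of_nonneg_left (by norm_num) (by norm_num) hr3
    linarith
  have he1 : 1 / (4 * (r : ℝ) ^ 2) ≤ 1 / 36 := by
    refine one_div_le_one_div_of_le (by norm_num) ?_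
    nlinarith
  obtain ⟨δM, hδM, hMa1⟩ := hMa r (1 / (4 * (r : ℝ) ^ 2)) hr (by positivity)
  obtain ⟨δ1, hδ1, hd2, hd4⟩ : ∃ δ1 : ℝ, 0 < δ1 ∧ δ1 ≤ δM ∧ δ1 ≤ 1 / (40 * (r : ℝ)) :=
    ⟨min δM (1 / (40 * (r : ℝ))), lt_min hδM (by positivity), min_le_left _ _, min_le_right _ _⟩
  obtain ⟨K, m₀, hRo1⟩ := hRo W F r (10 + 4 * C₀) hr hcrit hcol _ hδ1 hd4
  obtain ⟨C5, n₁, hC5, hMa2⟩ := hMa1 _ hδ1 hd2 K
  obtain ⟨c, hc⟩ : ∃ c : ℝ, c = δ1 / 2 := ⟨_, rfl⟩
  have hc0 : 0 < c := by rw [hc]; linarith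
  have hc1 : c ≤ 1 / 80 := by
    have e1 : 1 / (40 * (r : ℝ)) ≤ 1 / 40 := by
      refine one_div_le_one_div_of_le (by norm_num) (by linarith)
    rw [hc]
    linarith
  obtain ⟨ε, hε0, hε1, hε2⟩ : ∃ ε : ℝ, 0 < ε ∧ ε ≤ c ^ 2 / 16 ∧ ε ≤ 1 / 3000 :=
    ⟨min (c ^ 2 / 16) (1 / 3000), lt_min (by positivity) (by norm_num), min_le_left _ _,
      min_le_right _ _⟩
  obtain ⟨C', hC'⟩ : ∃ C' : ℝ, C' = C₀ + C5 + 5 / 2 * C5 ^ 2 := ⟨_, rfl⟩
  have hC'0 : 0 ≤ C' := by rw [hC']; positivity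
  obtain ⟨n₂, hn₂⟩ := exists_nat_ge (3 * C' / c ^ 2 + 1)
  obtain ⟨n₃, hn₃⟩ := exists_nat_ge (40 * C' + 4 * r)
  refine ⟨ε, hε0, max (2 * n₁) (max n₂ (max n₃ (max (2 * m₀) (12 + r)))),
    fun n hn D hD V _ G hfree hm hk => ?_⟩
  simp only [max_le_iff] at hn
  obtain ⟨h1, h2, h3, h6, h7⟩ := hn
  have hn1 : (1 : ℝ) ≤ n := by exact_mod_cast (by omega : 1 ≤ n)
  have hn0 : (0 : ℝ) < n := by linarith
  obtain ⟨ht1, ht2, ht3, ht4⟩ := ItemSTU.turan hDe r n hr1
  have hD0 : (0 : ℝ) ≤ D := Nat.cast_nonneg D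
  have hεn : ε * n ≤ n / 3000 := by
    have := mul_le_mul_of_nonneg_right hε2 hn0.le
    linarith
  have hm' : (G.edgeSet.ncard : ℝ) = ((SimpleGraph.turanGraph n r).edgeSet.ncard : ℝ) + D := by
    exact_mod_cast hm
  have hm2 : 2 * (G.edgeSet.ncard : ℝ) = qq r * (n : ℝ) ^ 2 - dev (tz r n) - 2 * (-(D : ℝ)) := by
    linarith
  obtain ⟨hml, hsq⟩ := ItemSTU.lower n G.edgeSet.ncard (qq r) (dev (tz r n)) (-(D : ℝ)) r hq1 ht3
    (by linarith) hr0.le (by exact_mod_cast h7) hm2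
  have hk0 : 2 * qq r * G.edgeSet.ncard - lam G ^ 2 ≤ 2 * D * (qq r - D / n) + C₀ := hk
  have hk1 : 2 * qq r * G.edgeSet.ncard - lam G ^ 2 ≤ 2 * qq r * ε * n + C₀ := by
    have e1 : 2 * (D : ℝ) * (qq r - D / n) ≤ 2 * D * qq r := by
      have : 0 ≤ (D : ℝ) / n := by positivity
      exact mul_le_mul_of_nonneg_left (by linarith) (by linarith)
    have e2 : 2 * (D : ℝ) * qq r ≤ 2 * (ε * n) * qq r :=
      mul_le_mul_of_nonneg_right (by linarith) hq0.le
    linarith
  have hk2 : 2 * qq r * G.edgeSet.ncard - lam G ^ 2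
      ≤ (10 + 4 * C₀) * Real.sqrt G.edgeSet.ncard := by
    have e1 : (10 + 4 * C₀) * ((n : ℝ) / 2) ≤ (10 + 4 * C₀) * Real.sqrt G.edgeSet.ncard :=
      mul_le_mul_of_nonneg_left hsq (by linarith)
    have e2 : qq r * (ε * n) ≤ 1 * (ε * n) :=
      mul_le_mul_of_nonneg_right hq2 (by positivity)
    have e3 : C₀ * 1 ≤ C₀ * n := mul_le_mul_of_nonneg_left hn1 hC0
    linarith
  have hm0 : m₀ ≤ G.edgeSet.ncard := by
    have e1 : 2 * (m₀ : ℝ) ≤ n := by exact_mod_cast h6
    have e2 : (m₀ : ℝ) ≤ G.edgeSet.ncard := ItemSTU.big m₀ n _ e1 hml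
    exact_mod_cast e2
  obtain ⟨z, g, U, hRg⟩ := hRo1 V G hfree hm0 hk2
  set n' : ℕ := ∑ t, siz g t with hn'
  have hn'1 : (n : ℝ) / 2 ≤ n' := by
    have e1 : (G.edgeSet.ncard : ℝ) ≤ (n' : ℝ) ^ 2 := hRg.nn
    have e2 : Real.sqrt G.edgeSet.ncard ≤ n' := by
      rw [Real.sqrt_le_left (Nat.cast_nonneg n')]
      exact e1
    linarith
  have hn'2 : n₁ ≤ n' := by
    have e1 : 2 * (n₁ : ℝ) ≤ n := by exact_mod_cast h1
    have e2 : (n₁ : ℝ) ≤ n' := by linarith
    exact_mod_cast e2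
  have hmain := hMa2 V G z g U n' hRg hn'2 hn'.symm
  have hdev0 : 0 ≤ dev (siz g) := Finset.sum_nonneg fun t _ => sq_nonneg _
  have hcons := ItemSTS.cons (qq r) (1 - 2 / (r : ℝ)) (1 / (4 * (r : ℝ) ^ 2)) C5
    ((missSet G g).ncard) ((lightSet G g U).ncard) (dev (siz g))
    (∑ v ∈ U, 2 * ((∑ t, nbn G g v t : ℕ) : ℝ) * (qq r - ((∑ t, nbn G g v t : ℕ) : ℝ) / n'))
    (2 * qq r * ε * n + C₀) hq1 hs0 he1 (Nat.cast_nonneg _) (Nat.cast_nonneg _) hdev0
    (hmain.trans hk1)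
  have ha0 : (0 : ℝ) ≤ (missSet G g).ncard := Nat.cast_nonneg _
  have hb0 : (0 : ℝ) ≤ (lightSet G g U).ncard := Nat.cast_nonneg _
  have hexc : ∀ v ∈ U, c ^ 2 * qq r ^ 2 * n ≤
      2 * ((∑ t, nbn G g v t : ℕ) : ℝ) * (qq r - ((∑ t, nbn G g v t : ℕ) : ℝ) / n') := by
    intro v hv
    obtain ⟨g1, g2⟩ := hRg.degU v hv
    rw [← hc] at g1 g2
    exact ItemSTS.exc (qq r) c n n' _ hq0 hc0 hc1 hn0 hn'1 g1 g2
  have hcq : 0 < c ^ 2 * qq r ^ 2 * n := by positivity
  have hεn2 : ε * n ≤ c ^ 2 / 16 * n := mul_le_mul_of_nonneg_right hε1 hn0.le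
  have hU : U = ∅ := by
    by_contra hne
    obtain ⟨v, hv⟩ := Finset.nonempty_iff_ne_empty.2 hne
    have e1 : c ^ 2 * qq r ^ 2 * n ≤ ∑ v ∈ U, 2 * ((∑ t, nbn G g v t : ℕ) : ℝ) *
        (qq r - ((∑ t, nbn G g v t : ℕ) : ℝ) / n') :=
      (hexc v hv).trans (Finset.single_le_sum
        (f := fun v => 2 * ((∑ t, nbn G g v t : ℕ) : ℝ) *
        (qq r - ((∑ t, nbn G g v t : ℕ) : ℝ) / n')) (fun w hw => hcq.le.trans (hexc w hw)) hv)
    have e2 : c ^ 2 * qq r ^ 2 * n ≤ 2 * qq r * ε * n + C' := by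
      rw [hC']
      linarith
    have e3 : 2 * qq r * ε * n ≤ qq r * (c ^ 2 / 8 * n) := by
      have : qq r * (ε * n) ≤ qq r * (c ^ 2 / 16 * n) := mul_le_mul_of_nonneg_left hεn2 hq0.le
      linarith
    have e4 : 2 / 3 * (qq r * (c ^ 2 * n)) ≤ c ^ 2 * qq r ^ 2 * n := by
      have : 2 / 3 * (qq r * (c ^ 2 * n)) ≤ qq r * (qq r * (c ^ 2 * n)) :=
        mul_le_mul_of_nonneg_right hq1 (by positivity)
      linarith
    have e5 : 13 / 24 * (qq r * (c ^ 2 * n)) ≤ C' := by linarith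
    have e6 : 2 / 3 * (c ^ 2 * n) ≤ qq r * (c ^ 2 * n) :=
      mul_le_mul_of_nonneg_right hq1 (by positivity)
    have e7 : c ^ 2 * n / 3 ≤ C' := by
      have : 0 < c ^ 2 * n := by positivity
      linarith
    have e8 : 3 * C' / c ^ 2 + 1 ≤ n := hn₂.trans (by exact_mod_cast h2)
    have e9 : 3 * C' < c ^ 2 * n := by
      have : 3 * C' / c ^ 2 < n := by linarith
      rw [div_lt_iff₀ (by positivity)] at this
      linarith
    linarith
  subst hU
  rw [Finset.sum_empty, add_zero] at hcons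
  have hqε : 2 * qq r * ε * n ≤ n / 1500 := by
    have : qq r * (ε * n) ≤ 1 * (n / 3000) :=
      mul_le_mul hq2 hεn (by positivity) (by norm_num)
    linarith
  have hnC : 40 * C' + 4 * r ≤ n := hn₃.trans (by exact_mod_cast h3)
  have hcons' : ((missSet G g).ncard : ℝ) + ((lightSet G g ∅).ncard : ℝ) + dev (siz g) / 10 ≤
      n / 1500 + C' := by
    rw [hC']
    linarith
  obtain ⟨e, hee1, hee2⟩ := hCn r V G g ∅ hRg.flat.indep hRg.flat.exc
  obtain ⟨-, -, -, hdv, -, -⟩ := hDe r n' (siz g) hr1 hn'.symm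
  have he0 : e = 0 := by
    simp only [Finset.card_empty, zero_mul, nonpos_iff_eq_zero, mul_eq_zero] at hee1
    omega
  rw [Finset.sum_empty, he0, ← hn'] at hee2
  have heq : qq r * ((n' : ℝ) ^ 2 - (n : ℝ) ^ 2) = dev (siz g) - dev (tz r n) + 2 * D
      + 2 * ((missSet G g).ncard : ℝ) - 2 * ((lightSet G g ∅).ncard : ℝ) := by
    have e1 : 2 * (G.edgeSet.ncard : ℝ) + 2 * ((missSet G g).ncard : ℝ)
        + ∑ t, (siz g t : ℝ) ^ 2 = (n' : ℝ) ^ 2 + 2 * 0 + 2 * 0
          + 2 * ((lightSet G g ∅).ncard : ℝ) := by exact_mod_cast hee2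
    have e2 : qq r * (n' : ℝ) ^ 2 = (n' : ℝ) ^ 2 - (n' : ℝ) ^ 2 / r := by
      unfold qq
      ring
    have e3 : qq r * ((n' : ℝ) ^ 2 - (n : ℝ) ^ 2) = qq r * (n' : ℝ) ^ 2 - qq r * (n : ℝ) ^ 2 := by
      ring
    rw [e3, e2, hdv]
    linarith
  have hqn : 2 / 3 * (n : ℝ) ≤ qq r * n := mul_le_mul_of_nonneg_right hq1 hn0.le
  have hnn : n' = n := by
    refine ItemSTS.eqn n n' (qq r) hq0 _ heq ?_ ?_
    · linarith
    · linarith
  refine ⟨z, g, ItemSTU.flat_mono hRg.flat hd4, hnn, ?_, ?_⟩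
  · linarith
  · linarith

end MP0c3a8f

end

section

/-!
# MP_0c3a8f_co, phase B, item STT: the structure in the transition range

The structure of the proof is the one of the items STU (helper16) and STRB (helper33).
-/

set_option autoImplicit false

open Finset

namespace MP0c3a8f

namespace ItemSTT

/-- the number of edges of the Turán graph -/
theorem turan (hD : DEV_statement) (r n : ℕ) (hr : 1 ≤ r) :
    ∑ t, tz r n t = n ∧ 0 ≤ dev (tz r n) ∧ dev (tz r n) ≤ r ∧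
      2 * ((SimpleGraph.turanGraph n r).edgeSet.ncard : ℝ) = qq r * (n : ℝ) ^ 2 - dev (tz r n) := by
  classical
  have h0 : ∑ t, (Pi.single (⟨0, hr⟩ : Fin r) n : Fin r → ℕ) t = n := by
    rw [Finset.sum_pi_single']
    simp
  obtain ⟨h1, -, h2, -, -, h3⟩ := hD r n _ hr h0
  obtain ⟨-, -, -, h4, -, -⟩ := hD r n (tz r n) hr h1
  refine ⟨h1, Finset.sum_nonneg fun t _ => sq_nonneg _, h2, ?_⟩
  unfold Sz at h3
  rw [h1] at h3
  have h5 : 2 * ((SimpleGraph.turanGraph n r).edgeSet.ncard : ℝ) + ∑ t, (tz r n t : ℝ) ^ 2 =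
      (n : ℝ) ^ 2 := by
    have h6 : 2 * (SimpleGraph.turanGraph n r).edgeSet.ncard + ∑ t, tz r n t ^ 2 = n ^ 2 := by
      omega
    exact_mod_cast h6
  rw [h4]
  unfold qq
  linear_combination h5

theorem big (m₀ : ℕ) (n m : ℝ) (h : 2 * (m₀ : ℝ) ≤ n) (hm : n ^ 2 / 4 ≤ m) : (m₀ : ℝ) ≤ m := by
  have h1 : (m₀ : ℝ) ≤ (m₀ : ℝ) ^ 2 := by
    rcases Nat.eq_zero_or_pos m₀ with h | h
    · rw [h]; norm_num
    · have e3 : (1 : ℝ) ≤ m₀ := by exact_mod_cast h
      nlinarith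
  have h2 : (2 * (m₀ : ℝ)) ^ 2 ≤ n ^ 2 := by gcongr
  linarith

/-- monotonicity of `Flat` -/
theorem flat_mono {V : Type} [Fintype V] {r : ℕ} {δ δ' : ℝ} {G : SimpleGraph V} {z : V → ℝ}
    {g : V → Option (Fin r)} {U : Finset V} {m : ℕ} (h : Flat r δ' G z g U m) (hle : δ' ≤ δ) :
    Flat r δ G z g U m := by
  refine ⟨h.zd, h.indep, fun v hv => (h.core v hv).trans hle,
    fun v hv hvU => (h.light v hv hvU).trans hle, fun v => (h.bd v).trans (by linarith), h.exc,
    le_trans ?_ h.low, h.up⟩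
  exact mul_le_mul_of_nonneg_right (by linarith) (Nat.cast_nonneg m)

theorem lower (n m q dT D r : ℝ) (hq : 2 / 3 ≤ q) (hdT : dT ≤ r) (hD : 0 ≤ D)
    (hn : 1 ≤ n) (hn6 : 6 * r ≤ n) (hm : 2 * m = q * n ^ 2 - dT + 2 * D) :
    n ^ 2 / 4 ≤ m ∧ n / 2 ≤ Real.sqrt m := by
  have h1 : 6 * r ≤ n ^ 2 := hn6.trans (by nlinarith)
  have h2 : 2 / 3 * n ^ 2 ≤ q * n ^ 2 := mul_le_mul_of_nonneg_right hq (sq_nonneg n)
  have h3 : n ^ 2 / 4 ≤ m := by linarith
  refine ⟨h3, ?_⟩
  apply Real.le_sqrt_of_sq_le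
  have : (n / 2) ^ 2 = n ^ 2 / 4 := by ring
  rw [this]
  exact h3

theorem ksmall (D n q C₀ : ℝ) (hD : 0 ≤ D) (hDn : D ≤ n) (hn : 0 < n) (hq : q ≤ 1) :
    2 * D * (q - D / n) + C₀ ≤ 2 * n + C₀ := by
  have h1 : q - D / n ≤ 1 := by
    have : 0 ≤ D / n := div_nonneg hD hn.le
    linarith
  have h2 : 2 * D * (q - D / n) ≤ 2 * D * 1 := mul_le_mul_of_nonneg_left h1 (by linarith)
  linarith

theorem ksq (n s c : ℝ) (hn : 1 ≤ n) (hs : n / 2 ≤ s) (hc : 0 ≤ c) :
    2 * n + c ≤ (20 + 4 * c) * s := by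
  have e1 : (20 + 4 * c) * (n / 2) ≤ (20 + 4 * c) * s :=
    mul_le_mul_of_nonneg_left hs (by linarith)
  have e2 : c * 1 ≤ c * n := mul_le_mul_of_nonneg_left hn hc
  linarith

/-- the main inequality of case one, without optimisation -/
theorem real1 (q r n D d a b dv dT Nr C5 Df : ℝ) (hr : 3 ≤ r) (hq1 : 2 / 3 ≤ q) (hq2 : q ≤ 1)
    (hn : 1 ≤ n) (hx : |D - (1 - 2 / r) * (q * n)| ≤ 1 / (8 * r) * (q * n)) (ha : 0 ≤ a)
    (hb : 0 ≤ b) (hdv : 0 ≤ dv) (hdT0 : 0 ≤ dT) (hdT : dT ≤ r)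
    (hrel : d - D = a - b + (dv - dT) / 2) (hS : a + b + dv ≤ Nr * Real.sqrt n)
    (hmain : (2 * q - 1 / (8 * r)) * (a + b) + q * (1 - 2 / r - 1 / (8 * r)) * dv
      + 2 * d * (q - d / n) - C5 * (1 + Real.sqrt dv) ≤ Df) :
    2 * D * (q - D / n) + 1 / (2 * r) * (a + b + dv)
      - (2 * (Nr + r) ^ 2 + r + C5 + C5 * Real.sqrt dv) ≤ Df := by
  have hn0 : 0 < n := by linarith
  have hr0 : 0 < r := by linarith
  have hs1 : 1 ≤ Real.sqrt n := by
    rw [Real.one_le_sqrt]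
    exact hn
  have hss : Real.sqrt n ^ 2 = n := Real.sq_sqrt hn0.le
  -- the square of `d - D`
  have hg : (d - D) ^ 2 ≤ (Nr + r) ^ 2 * n := by
    have h1 : |d - D| ≤ (Nr + r) * Real.sqrt n := by
      rw [hrel, abs_le]
      have h2 : r * 1 ≤ r * Real.sqrt n := mul_le_mul_of_nonneg_left hs1 hr0.le
      constructor <;> linarith
    have h2 : |d - D| ^ 2 ≤ ((Nr + r) * Real.sqrt n) ^ 2 :=
      pow_le_pow_left₀ (abs_nonneg _) h1 2
    rw [sq_abs, mul_pow, hss] at h2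
    exact h2
  have hg2 : (d - D) ^ 2 / n ≤ (Nr + r) ^ 2 := by
    rw [div_le_iff₀ hn0]
    exact hg
  set u : ℝ := 1 / r with hu
  have hu0 : 0 < u := by positivity
  have hu1 : u ≤ 1 / 3 := one_div_le_one_div_of_le (by norm_num) hr
  have e1 : 2 / r = 2 * u := by rw [hu]; ring
  have e2 : 1 / (8 * r) = u / 8 := by rw [hu]; field_simp
  have e3 : 1 / (2 * r) = u / 2 := by rw [hu]; field_simp
  rw [e1, e2] at hx hmain
  rw [e3]
  set y : ℝ := D / n with hy
  have hDy : D = y * n := by rw [hy]; field_simp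
  have hyl : (1 - 2 * u) * q - u / 8 * q ≤ y ∧ y ≤ (1 - 2 * u) * q + u / 8 * q := by
    rw [hDy, abs_le] at hx
    constructor
    · have : ((1 - 2 * u) * q - u / 8 * q) * n ≤ y * n := by linarith [hx.1]
      exact le_of_mul_le_mul_right this hn0
    · have : y * n ≤ ((1 - 2 * u) * q + u / 8 * q) * n := by linarith [hx.2]
      exact le_of_mul_le_mul_right this hn0
  obtain ⟨y1, y2⟩ := hyl
  have hqu0 : 0 ≤ q * u := by positivity
  have hqu : q * u ≤ q * (1 / 3) := mul_le_mul_of_nonneg_left hu1 (by linarith)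
  have hqu2 : 2 / 3 * u ≤ q * u := mul_le_mul_of_nonneg_right hq1 hu0.le
  have k1 : 0 ≤ 4 * q - 4 * y - u / 8 - u / 2 := by linarith
  have k2 : 0 ≤ 4 * y - u / 8 - u / 2 := by linarith
  have k3 : 0 ≤ q * (1 - 2 * u - u / 8) + (q - 2 * y) - u / 2 := by linarith
  have k4 : q - 2 * y ≤ 1 := by linarith
  have m1 := mul_nonneg k1 ha
  have m2 := mul_nonneg k2 hb
  have m3 := mul_nonneg k3 hdv
  have m4 : (q - 2 * y) * dT ≤ r := by
    have : (q - 2 * y) * dT ≤ 1 * dT := mul_le_mul_of_nonneg_right k4 hdT0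
    linarith
  have hid : 2 * d * (q - d / n) = 2 * D * (q - y) + 2 * (d - D) * (q - 2 * y)
      - 2 * ((d - D) ^ 2 / n) := by
    rw [hy]
    field_simp
    ring
  have hgm : 2 * (d - D) * (q - 2 * y) = 2 * (q - 2 * y) * a - 2 * (q - 2 * y) * b
      + (q - 2 * y) * dv - (q - 2 * y) * dT := by
    rw [hrel]
    ring
  rw [hid, hgm] at hmain
  linarith

theorem real2 (κ s C5 : ℝ) (hκ : 0 < κ) : C5 * s ≤ κ / 2 * s ^ 2 + C5 ^ 2 / (2 * κ) := by
  have h : κ / 2 * s ^ 2 + C5 ^ 2 / (2 * κ) - C5 * s = (κ * s - C5) ^ 2 / (2 * κ) := by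
    field_simp
    ring
  have h2 : 0 ≤ (κ * s - C5) ^ 2 / (2 * κ) := by positivity
  linarith

/-- the bounds of case one -/
theorem real3 (r X S dv C5 C₀ M Df : ℝ) (hr : 3 ≤ r) (hdv : 0 ≤ dv) (hS : dv ≤ S)
    (h : X + 1 / (2 * r) * S - (M + C5 * Real.sqrt dv) ≤ Df) :
    X - (M + r * C5 ^ 2) ≤ Df ∧ (Df ≤ X + C₀ → S ≤ 4 * r * (C₀ + M + r * C5 ^ 2)) := by
  have hr0 : 0 < r := by linarith
  have h1 := real2 (1 / (2 * r)) (Real.sqrt dv) C5 (by positivity)
  rw [Real.sq_sqrt hdv] at h1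
  have e1 : C5 ^ 2 / (2 * (1 / (2 * r))) = r * C5 ^ 2 := by field_simp
  have e2 : 1 / (2 * r) / 2 = 1 / (4 * r) := by field_simp; norm_num
  have e3 : 1 / (2 * r) = 2 * (1 / (4 * r)) := by field_simp; norm_num
  rw [e1, e2] at h1
  rw [e3] at h
  set κ : ℝ := 1 / (4 * r) with hκ
  have hκ0 : 0 < κ := by positivity
  have h2 : κ * dv ≤ κ * S := mul_le_mul_of_nonneg_left hS hκ0.le
  have h3 : 0 ≤ κ * S := mul_nonneg hκ0.le (hdv.trans hS)
  constructor
  · linarith
  · intro h4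
    have h5 : κ * S ≤ C₀ + M + r * C5 ^ 2 := by linarith
    have h6 : S = 4 * r * (κ * S) := by
      rw [hκ]
      field_simp
    rw [h6]
    exact mul_le_mul_of_nonneg_left h5 (by positivity)

end ItemSTT

theorem prfSTT : ROUGH_statement → MAIN_statement → MAINU_statement → CNTU_statement →
    RGU_statement → OPT2_statement → DEV_statement → TURN_statement → STT_statement := by
  classical
  intro hRo hMa hMu hCn hRg' hOp hDe hTu W _ F r hr hcrit hcol
  have hr1 : 1 ≤ r := by omega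
  have hr0 : (0 : ℝ) < r := by exact_mod_cast hr1
  have hr3 : (3 : ℝ) ≤ r := by exact_mod_cast hr
  have hq1 : 2 / 3 ≤ qq r := by
    unfold qq
    have : 1 / (r : ℝ) ≤ 1 / 3 := one_div_le_one_div_of_le (by norm_num) hr3
    linarith
  have hq0 : 0 < qq r := by linarith
  have hq2 : qq r ≤ 1 := by
    unfold qq
    have : 0 < 1 / (r : ℝ) := by positivity
    linarith
  obtain ⟨δM, hδM, hMa1⟩ := hMa r (1 / (4 * (r : ℝ) ^ 2)) hr (by positivity)
  obtain ⟨δM2, hδM2, hMb1⟩ := hMa r (1 / (8 * (r : ℝ))) hr (by positivity)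
  obtain ⟨δU, hδU, hMu1⟩ := hMu r hr
  obtain ⟨δ1, hδ1, hd1, hd2, hd3, hd4⟩ : ∃ δ1 : ℝ, 0 < δ1 ∧ δ1 ≤ δM2 ∧ δ1 ≤ δM ∧ δ1 ≤ δU ∧
      δ1 ≤ 1 / (40 * (r : ℝ)) := by
    refine ⟨min δM2 (min δM (min δU (1 / (40 * (r : ℝ))))), ?_, min_le_left _ _, ?_, ?_, ?_⟩
    · exact lt_min hδM2 (lt_min hδM (lt_min hδU (by positivity)))
    · exact (min_le_right _ _).trans (min_le_left _ _)
    · exact (min_le_right _ _).trans ((min_le_right _ _).trans (min_le_left _ _))
    · exact (min_le_right _ _).trans ((min_le_right _ _).trans (min_le_right _ _))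
  have hc : δ1 / 2 < 1 / (r : ℝ) := by
    have e1 : 1 / (40 * (r : ℝ)) = 1 / (r : ℝ) / 40 := by
      field_simp
    have e2 : 0 < 1 / (r : ℝ) := by positivity
    rw [e1] at hd4
    linarith
  obtain ⟨ε0, hε0, hOp1⟩ := hOp r (δ1 / 2) hr (by linarith) hc
  refine ⟨min ε0 (1 / (8 * (r : ℝ))), lt_min hε0 (by positivity), fun C₀ hC0 => ?_⟩
  obtain ⟨K, m₀, hRo1⟩ := hRo W F r (20 + 4 * C₀) hr hcrit hcol _ hδ1 hd4
  obtain ⟨C5, n₁, hC5, hMa2⟩ := hMa1 _ hδ1 hd2 K
  obtain ⟨C5', n₁', hC5', hMb2⟩ := hMb1 _ hδ1 hd1 K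
  obtain ⟨C1, n₂, hC1, hRg1⟩ := hRg' r K C5 (2 + C₀) hr hC5 (by linarith)
  obtain ⟨C6, n₃, hC6, hMu2⟩ := hMu1 _ hδ1 hd3 K (4 * C1) (by linarith)
  obtain ⟨N, n₄, hOp2⟩ := hOp1 K (max (C1 + 1) (2 * C6 + C₀))
    (le_trans (by linarith) (le_max_left (C1 + 1) (2 * C6 + C₀)))
  obtain ⟨n₅, hn₅⟩ := exists_nat_ge C1
  obtain ⟨N', hN'⟩ := exists_nat_ge (4 * (r : ℝ) *
    (C₀ + (2 * ((N : ℝ) + r) ^ 2 + r + C5') + r * C5' ^ 2))
  refine ⟨max N N', max (2 * n₁) (max n₂ (max (2 * n₃) (max n₄ (max n₅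
    (max (2 * m₀) (max (6 * r) (2 * n₁'))))))),
    fun n hn D B hRT V _ G hfree hm hk hkB => ?_⟩
  simp only [max_le_iff] at hn
  obtain ⟨h1, h2, h3, h4, h5, h6, h7, h8⟩ := hn
  obtain ⟨hRT1, hRT2⟩ := hRT
  have hn1 : (1 : ℝ) ≤ n := by exact_mod_cast (by omega : 1 ≤ n)
  have hn0 : (0 : ℝ) < n := by linarith
  obtain ⟨ht1, ht2, ht3, ht4⟩ := ItemSTT.turan hDe r n hr1
  obtain ⟨hs1, hs2, hs3, hs4⟩ := ItemSTT.turan hDe r (n + 1) hr1
  have hD0 : (0 : ℝ) ≤ D := Nat.cast_nonneg D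
  have hDB : D + B ≤ n := Nat.le.intro hRT2
  have hDn' : D ≤ n := by omega
  have hDn : (D : ℝ) ≤ n := by exact_mod_cast hDn'
  have hBn' : B ≤ n + 1 := by omega
  have hmB : G.edgeSet.ncard + B = (SimpleGraph.turanGraph (n + 1) r).edgeSet.ncard := by
    have := hTu r n hr1
    omega
  have hm' : (G.edgeSet.ncard : ℝ) + B =
      ((SimpleGraph.turanGraph (n + 1) r).edgeSet.ncard : ℝ) := by
    exact_mod_cast hmB
  have hm2 : 2 * (G.edgeSet.ncard : ℝ) = qq r * (n : ℝ) ^ 2 - dev (tz r n) + 2 * D := by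
    rw [hm, Nat.cast_add]
    linarith
  have hm3 : 2 * (G.edgeSet.ncard : ℝ) =
      qq r * ((n + 1 : ℕ) : ℝ) ^ 2 - dev (tz r (n + 1)) - 2 * B := by
    linarith
  obtain ⟨hml, hsq⟩ := ItemSTT.lower n G.edgeSet.ncard (qq r) (dev (tz r n)) D r hq1 ht3 hD0
    hn1 (by exact_mod_cast h7) hm2
  have hk' : 2 * qq r * G.edgeSet.ncard - lam G ^ 2 ≤ 2 * D * (qq r - D / n) + C₀ := hk
  have hkB' : 2 * qq r * G.edgeSet.ncard - lam G ^ 2
      ≤ 2 * qq r * (1 - 2 / (r : ℝ)) * B + C₀ * Real.sqrt n := hkB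
  have hk1 : 2 * qq r * G.edgeSet.ncard - lam G ^ 2 ≤ 2 * n + C₀ :=
    hk'.trans (ItemSTT.ksmall D n (qq r) C₀ hD0 hDn hn0 hq2)
  have hk2 : 2 * qq r * G.edgeSet.ncard - lam G ^ 2
      ≤ (20 + 4 * C₀) * Real.sqrt G.edgeSet.ncard :=
    hk1.trans (ItemSTT.ksq _ _ _ hn1 hsq hC0)
  have hm0 : m₀ ≤ G.edgeSet.ncard := by
    have e1 : 2 * (m₀ : ℝ) ≤ n := by exact_mod_cast h6
    have e2 : (m₀ : ℝ) ≤ G.edgeSet.ncard := ItemSTT.big m₀ n _ e1 hml
    exact_mod_cast e2
  obtain ⟨z, g, U, hRg⟩ := hRo1 V G hfree hm0 hk2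
  set n' : ℕ := ∑ t, siz g t with hn'
  have hn'1 : (n : ℝ) / 2 ≤ n' := by
    have e1 : (G.edgeSet.ncard : ℝ) ≤ (n' : ℝ) ^ 2 := hRg.nn
    have e2 : Real.sqrt G.edgeSet.ncard ≤ n' := by
      rw [Real.sqrt_le_left (Nat.cast_nonneg n')]
      exact e1
    linarith
  have hn'2 : n₁ ≤ n' := by
    have e1 : 2 * (n₁ : ℝ) ≤ n := by exact_mod_cast h1
    have e2 : (n₁ : ℝ) ≤ n' := by linarith
    exact_mod_cast e2
  have hn'2b : n₁' ≤ n' := by
    have e1 : 2 * (n₁' : ℝ) ≤ n := by exact_mod_cast h8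
    have e2 : (n₁' : ℝ) ≤ n' := by linarith
    exact_mod_cast e2
  have hn'3 : n₃ ≤ n' := by
    have e1 : 2 * (n₃ : ℝ) ≤ n := by exact_mod_cast h3
    have e2 : (n₃ : ℝ) ≤ n' := by linarith
    exact_mod_cast e2
  have hmain := hMa2 V G z g U n' hRg hn'2 hn'.symm
  have hmainb := hMb2 V G z g U n' hRg hn'2b hn'.symm
  obtain ⟨e, he1, he2⟩ := hCn r V G g U hRg.flat.indep hRg.flat.exc
  obtain ⟨-, -, -, hdv, -, -⟩ := hDe r n' (siz g) hr1 hn'.symm
  have heK : (e : ℝ) ≤ (K : ℝ) ^ 2 := by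
    have e1 : U.card * (U.card - 1) ≤ K * K :=
      Nat.mul_le_mul hRg.cardU ((Nat.sub_le _ _).trans hRg.cardU)
    have e2 : e ≤ K ^ 2 := by
      rw [sq]
      omega
    exact_mod_cast e2
  have heq0 : qq r * (n' : ℝ) ^ 2 - dev (siz g)
      + 2 * ∑ i ∈ U, ((∑ t, nbn G g i t : ℕ) : ℝ) + 2 * (e : ℝ)
      - 2 * ((missSet G g).ncard : ℝ) + 2 * ((lightSet G g U).ncard : ℝ)
      = 2 * (G.edgeSet.ncard : ℝ) := by
    rw [← hn'] at he2
    have e1 : 2 * (G.edgeSet.ncard : ℝ) + 2 * ((missSet G g).ncard : ℝ)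
        + ∑ t, (siz g t : ℝ) ^ 2 = (n' : ℝ) ^ 2
          + 2 * (∑ v ∈ U, ((∑ t, nbn G g v t : ℕ) : ℝ)) + 2 * e
          + 2 * ((lightSet G g U).ncard : ℝ) := by exact_mod_cast he2
    rw [hdv]
    unfold qq
    linear_combination -e1
  have hdev0 : 0 ≤ dev (siz g) := Finset.sum_nonneg fun t _ => sq_nonneg _
  have hqn' : 0 ≤ qq r * (n' : ℝ) := by positivity
  obtain ⟨-, hrd, hrn⟩ := hRg1 (n + 1) n' B (dev (siz g)) (dev (tz r (n + 1)))
    ((missSet G g).ncard) ((lightSet G g U).ncard) e V U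
    (fun v => ((∑ t, nbn G g v t : ℕ) : ℝ)) (by omega) hBn'
    hdev0 hs2 hs3 (Nat.cast_nonneg _) (Nat.cast_nonneg _) (Nat.cast_nonneg _) heK hRg.cardU
    (fun v hv => ⟨Nat.cast_nonneg _, (hRg.degU v hv).2.trans (by
      have e1 : (1 - δ1 / 2) * (qq r * (n' : ℝ)) ≤ 1 * (qq r * (n' : ℝ)) :=
        mul_le_mul_of_nonneg_right (by linarith) hqn'
      linarith)⟩) (heq0.trans hm3) (hmain.trans (hk1.trans (by
      have e1 : 0 ≤ C₀ * n := mul_nonneg hC0 hn0.le
      push_cast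
      linarith)))
  push_cast at hrd hrn
  have hrn' : |(n' : ℝ) - n| ≤ C1 + 1 := by
    rw [abs_le] at hrn ⊢
    constructor <;> linarith [hrn.1, hrn.2]
  have hmainU := hMu2 V G z g U n' hRg hn'3 hn'.symm (by
    have e1 : C1 * (n + 1) ≤ C1 * (4 * n') :=
      mul_le_mul_of_nonneg_left (by linarith) hC1
    linarith)
  have hsn' : Real.sqrt n' ≤ 2 * Real.sqrt n := by
    have e1 : (n' : ℝ) ≤ 4 * n := by
      have e2 : C1 ≤ n := hn₅.trans (by exact_mod_cast h5)
      have e3 := (abs_le.1 hrn).2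
      linarith
    have e2 : Real.sqrt (4 * n) = 2 * Real.sqrt n := by
      rw [Real.sqrt_mul (by norm_num), show (4 : ℝ) = 2 ^ 2 by norm_num,
        Real.sqrt_sq (by norm_num)]
    rw [← e2]
    exact Real.sqrt_le_sqrt e1
  have hC6s : C6 * Real.sqrt n' ≤ C6 * (2 * Real.sqrt n) := mul_le_mul_of_nonneg_left hsn' hC6
  have hsn0 : 0 ≤ Real.sqrt n := Real.sqrt_nonneg _
  have hsn1 : 1 ≤ Real.sqrt n := by
    rw [Real.one_le_sqrt]
    exact hn1
  have hC0s : C₀ * 1 ≤ C₀ * Real.sqrt n := mul_le_mul_of_nonneg_left hsn1 hC0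
  have hmx : (2 * C6 + C₀) * Real.sqrt n ≤ max (C1 + 1) (2 * C6 + C₀) * Real.sqrt n :=
    mul_le_mul_of_nonneg_right (le_max_right _ _) hsn0
  have hcase := hOp2 n n' D B (dev (siz g)) (dev (tz r n)) ((missSet G g).ncard)
    ((lightSet G g U).ncard) e V U (fun v => ((∑ t, nbn G g v t : ℕ) : ℝ)) h4
    ⟨hRT1.trans (mul_le_mul_of_nonneg_right (min_le_left _ _) (by positivity)), hRT2⟩
    hdev0 ht2 ht3 (Nat.cast_nonneg _) (Nat.cast_nonneg _) (Nat.cast_nonneg _) heK hRg.cardU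
    (hrn'.trans (le_max_left _ _)) hRg.degU (heq0.trans hm2) (by linarith) (by linarith)
  have hNN : (N : ℝ) ≤ (max N N' : ℕ) := by exact_mod_cast le_max_left N N'
  have hNN' : (N' : ℝ) ≤ (max N N' : ℕ) := by exact_mod_cast le_max_right N N'
  rcases hcase with ⟨hU1, hnn, hbd⟩ | ⟨hU0, hnn, hbd⟩
  · left
    obtain ⟨w, rfl⟩ := Finset.card_eq_one.1 hU1
    have he0 : (e : ℝ) = 0 := by
      have : e = 0 := by
        simp only [Finset.card_singleton, Nat.sub_self, Nat.mul_zero] at he1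
        omega
      rw [this]
      norm_num
    simp only [Finset.sum_singleton] at heq0 hmainb
    rw [hnn] at heq0 hmainb
    have hrel : ((∑ t, nbn G g w t : ℕ) : ℝ) - D = ((missSet G g).ncard : ℝ)
        - ((lightSet G g {w}).ncard : ℝ) + (dev (siz g) - dev (tz r n)) / 2 := by
      rw [he0] at heq0
      linarith
    have hr1' := ItemSTT.real1 (qq r) r n D ((∑ t, nbn G g w t : ℕ) : ℝ)
      ((missSet G g).ncard : ℝ) ((lightSet G g {w}).ncard : ℝ) (dev (siz g)) (dev (tz r n)) N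
      C5' (Def r G) hr3 hq1 hq2 hn1
      (hRT1.trans (mul_le_mul_of_nonneg_right (min_le_right _ _) (by positivity)))
      (Nat.cast_nonneg _) (Nat.cast_nonneg _) hdev0 ht2 ht3 hrel hbd hmainb
    have hr2' := ItemSTT.real3 r (2 * D * (qq r - D / n))
      (((missSet G g).ncard : ℝ) + ((lightSet G g {w}).ncard : ℝ) + dev (siz g)) (dev (siz g))
      C5' C₀ (2 * ((N : ℝ) + r) ^ 2 + r + C5') (Def r G) hr3 hdev0 (by
        have e1 : (0 : ℝ) ≤ (missSet G g).ncard := Nat.cast_nonneg _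
        have e2 : (0 : ℝ) ≤ (lightSet G g {w}).ncard := Nat.cast_nonneg _
        linarith) hr1'
    obtain ⟨r1, r2⟩ := hr2'
    have r3 := r2 hk
    refine ⟨?_, g, w, ⟨hRg.flat.indep, hRg.flat.exc w (Finset.mem_singleton_self w), ?_, ?_⟩⟩
    · have hT : 2 * ((N : ℝ) + r) ^ 2 + r + C5' + r * C5' ^ 2 ≤ 4 * (r : ℝ) *
          (C₀ + (2 * ((N : ℝ) + r) ^ 2 + r + C5') + r * C5' ^ 2) := by
        have e1 : 0 ≤ C₀ + (2 * ((N : ℝ) + r) ^ 2 + r + C5') + r * C5' ^ 2 := by positivity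
        have e2 : 1 * (C₀ + (2 * ((N : ℝ) + r) ^ 2 + r + C5') + r * C5' ^ 2) ≤ 4 * (r : ℝ) *
          (C₀ + (2 * ((N : ℝ) + r) ^ 2 + r + C5') + r * C5' ^ 2) :=
          mul_le_mul_of_nonneg_right (by linarith) e1
        linarith
      linarith
    · rw [← hn']
      exact hnn
    · linarith
  · right
    subst hU0
    refine ⟨z, g, ItemSTT.flat_mono hRg.flat hd4, ?_, ?_⟩
    · rw [← hn']
      exact hnn
    · exact hbd.trans (mul_le_mul_of_nonneg_right hNN hsn0)

end MP0c3a8f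

end

section

/-!
# MP_0c3a8f_co, phase B, item STUE: the rough structure in the upper range, small `B` included

The proof is the one of item STU (`ItemSTU.lean`, helper16).
-/

set_option autoImplicit false

open Finset

namespace MP0c3a8f

namespace ItemSTUE

/-- the range of `B` -/
theorem Ble (r n B : ℕ) (ε : ℝ) (hr : 3 ≤ r) (hε : 0 < ε)
    (h : (B : ℝ) ≤ (2 / (r : ℝ) - ε) * (qq r * n)) : (B : ℝ) ≤ n := by
  have hr3 : (3 : ℝ) ≤ r := by exact_mod_cast hr
  have h1 : 2 / (r : ℝ) ≤ 2 / 3 := div_le_div_of_nonneg_left (by norm_num) (by norm_num) hr3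
  have hq2 : qq r ≤ 1 := by
    unfold qq
    have : 0 < 1 / (r : ℝ) := by positivity
    linarith
  have hq0 : 0 ≤ qq r := by
    unfold qq
    have : 1 / (r : ℝ) ≤ 1 / 3 := one_div_le_one_div_of_le (by norm_num) hr3
    linarith
  have hn : (0 : ℝ) ≤ n := Nat.cast_nonneg n
  have h2 : (2 / (r : ℝ) - ε) * (qq r * n) ≤ 1 * (qq r * n) :=
    mul_le_mul_of_nonneg_right (by linarith) (by positivity)
  have h3 : qq r * n ≤ 1 * n := mul_le_mul_of_nonneg_right hq2 hn
  linarith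

end ItemSTUE

theorem prfSTUE : ROUGH_statement → MAIN_statement → MAINU_statement → CNTU_statement →
    RGU_statement → OPUE_statement → DEV_statement → STUE_statement := by
  classical
  intro hRo hMa hMu hCn hRg' hOp hDe W _ F r ε C₀ hr hcrit hcol hε hC0
  have hr1 : 1 ≤ r := by omega
  have hr0 : (0 : ℝ) < r := by exact_mod_cast hr1
  obtain ⟨δ, hδdef, hδ⟩ : ∃ δ : ℝ, δ = 1 / (40 * (r : ℝ)) ∧ 0 < δ :=
    ⟨_, rfl, by positivity⟩
  have hr3 : (3 : ℝ) ≤ r := by exact_mod_cast hr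
  have hq1 : 2 / 3 ≤ qq r := by
    unfold qq
    have : 1 / (r : ℝ) ≤ 1 / 3 := one_div_le_one_div_of_le (by norm_num) hr3
    linarith
  have hq0 : 0 < qq r := by linarith
  have hq2 : qq r ≤ 1 := by
    unfold qq
    have : 0 < 1 / (r : ℝ) := by positivity
    linarith
  have hs1 : 1 - 2 / (r : ℝ) ≤ 1 := by
    have : 0 < 2 / (r : ℝ) := by positivity
    linarith
  have hs0 : 0 ≤ 1 - 2 / (r : ℝ) := by
    have h1 : 2 / (r : ℝ) ≤ 2 / 3 := div_le_div_of_nonneg_left (by norm_num) (by norm_num) hr3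
    linarith
  obtain ⟨δM, hδM, hMa1⟩ := hMa r (1 / (4 * (r : ℝ) ^ 2)) hr (by positivity)
  obtain ⟨δU, hδU, hMu1⟩ := hMu r hr
  obtain ⟨δ1, hδ1, hd1, hd2, hd3, hd4⟩ : ∃ δ1 : ℝ, 0 < δ1 ∧ δ1 ≤ δ ∧ δ1 ≤ δM ∧ δ1 ≤ δU ∧
      δ1 ≤ 1 / (40 * (r : ℝ)) := by
    refine ⟨min δ (min δM (min δU (1 / (40 * (r : ℝ))))), ?_, min_le_left _ _, ?_, ?_, ?_⟩
    · exact lt_min hδ (lt_min hδM (lt_min hδU (by positivity)))
    · exact (min_le_right _ _).trans (min_le_left _ _)
    · exact (min_le_right _ _).trans ((min_le_right _ _).trans (min_le_left _ _))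
    · exact (min_le_right _ _).trans ((min_le_right _ _).trans (min_le_right _ _))
  obtain ⟨K, m₀, hRo1⟩ := hRo W F r (10 + 4 * C₀) hr hcrit hcol _ hδ1 hd4
  obtain ⟨C5, n₁, hC5, hMa2⟩ := hMa1 _ hδ1 hd2 K
  obtain ⟨C1, n₂, hC1, hRg1⟩ := hRg' r K C5 (2 + C₀) hr hC5 (by linarith)
  obtain ⟨C6, n₃, hC6, hMu2⟩ := hMu1 _ hδ1 hd3 K (2 * C1) (by linarith)
  have hc : δ1 / 2 < 1 / (r : ℝ) := by
    have e1 : 1 / (40 * (r : ℝ)) = 1 / (r : ℝ) / 40 := by
      field_simp
    have e2 : 0 < 1 / (r : ℝ) := by positivity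
    rw [e1] at hd4
    linarith
  obtain ⟨N, n₄, hOp1⟩ := hOp r K ε (δ1 / 2) (max C1 (2 * C6 + C₀)) hr hε (by linarith) hc
    (hC1.trans (le_max_left _ _))
  obtain ⟨n₅, hn₅⟩ := exists_nat_ge C1
  refine ⟨N, max (2 * n₁) (max n₂ (max (2 * n₃) (max n₄ (max n₅ (max (2 * m₀) (12 + r)))))),
    fun n hn B hB V _ G hfree hm hk => ?_⟩
  simp only [max_le_iff] at hn
  obtain ⟨h1, h2, h3, h4, h5, h6, h7⟩ := hn
  have hn1 : (1 : ℝ) ≤ n := by exact_mod_cast (by omega : 1 ≤ n)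
  have hn0 : (0 : ℝ) < n := by linarith
  obtain ⟨ht1, ht2, ht3, ht4⟩ := ItemSTU.turan hDe r n hr1
  have hB0 : (0 : ℝ) ≤ B := Nat.cast_nonneg B
  have hBn : (B : ℝ) ≤ n := ItemSTUE.Ble r n B ε hr hε hB
  have hBn' : B ≤ n := by exact_mod_cast hBn
  have hm' : (G.edgeSet.ncard : ℝ) + B = ((SimpleGraph.turanGraph n r).edgeSet.ncard : ℝ) := by
    exact_mod_cast hm
  have hm2 : 2 * (G.edgeSet.ncard : ℝ) = qq r * (n : ℝ) ^ 2 - dev (tz r n) - 2 * B := by
    linarith
  obtain ⟨hml, hsq⟩ := ItemSTU.lower n G.edgeSet.ncard (qq r) (dev (tz r n)) B r hq1 ht3 hBn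
    hr0.le (by exact_mod_cast h7) hm2
  have hk' : 2 * qq r * G.edgeSet.ncard - lam G ^ 2
      ≤ 2 * qq r * (1 - 2 / (r : ℝ)) * B + C₀ * Real.sqrt n := hk
  have hk1 : 2 * qq r * G.edgeSet.ncard - lam G ^ 2 ≤ (2 + C₀) * n :=
    hk'.trans (ItemSTU.kap (qq r) (1 - 2 / (r : ℝ)) B n C₀ hq0.le hq2 hs0 hs1 hB0 hBn hn1 hC0)
  have hk2 : 2 * qq r * G.edgeSet.ncard - lam G ^ 2
      ≤ (10 + 4 * C₀) * Real.sqrt G.edgeSet.ncard :=
    hk1.trans (ItemSTU.ksq _ _ _ hn0.le hsq hC0)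
  have hm0 : m₀ ≤ G.edgeSet.ncard := by
    have e1 : 2 * (m₀ : ℝ) ≤ n := by exact_mod_cast h6
    have e2 : (m₀ : ℝ) ≤ G.edgeSet.ncard := ItemSTU.big m₀ n _ e1 hml
    exact_mod_cast e2
  obtain ⟨z, g, U, hRg⟩ := hRo1 V G hfree hm0 hk2
  set n' : ℕ := ∑ t, siz g t with hn'
  have hn'1 : (n : ℝ) / 2 ≤ n' := by
    have e1 : (G.edgeSet.ncard : ℝ) ≤ (n' : ℝ) ^ 2 := hRg.nn
    have e2 : Real.sqrt G.edgeSet.ncard ≤ n' := by
      rw [Real.sqrt_le_left (Nat.cast_nonneg n')]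
      exact e1
    linarith
  have hn'2 : n₁ ≤ n' := by
    have e1 : 2 * (n₁ : ℝ) ≤ n := by exact_mod_cast h1
    have e2 : (n₁ : ℝ) ≤ n' := by linarith
    exact_mod_cast e2
  have hn'3 : n₃ ≤ n' := by
    have e1 : 2 * (n₃ : ℝ) ≤ n := by exact_mod_cast h3
    have e2 : (n₃ : ℝ) ≤ n' := by linarith
    exact_mod_cast e2
  have hmain := hMa2 V G z g U n' hRg hn'2 hn'.symm
  obtain ⟨e, he1, he2⟩ := hCn r V G g U hRg.flat.indep hRg.flat.exc
  obtain ⟨-, -, -, hdv, -, -⟩ := hDe r n' (siz g) hr1 hn'.symm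
  have heK : (e : ℝ) ≤ (K : ℝ) ^ 2 := by
    have e1 : U.card * (U.card - 1) ≤ K * K :=
      Nat.mul_le_mul hRg.cardU ((Nat.sub_le _ _).trans hRg.cardU)
    have e2 : e ≤ K ^ 2 := by
      rw [sq]
      omega
    exact_mod_cast e2
  have heq : qq r * (n' : ℝ) ^ 2 - dev (siz g)
      + 2 * ∑ i ∈ U, ((∑ t, nbn G g i t : ℕ) : ℝ) + 2 * (e : ℝ)
      - 2 * ((missSet G g).ncard : ℝ) + 2 * ((lightSet G g U).ncard : ℝ)
      = qq r * (n : ℝ) ^ 2 - dev (tz r n) - 2 * B := by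
    rw [← hm2]
    rw [← hn'] at he2
    have e1 : 2 * (G.edgeSet.ncard : ℝ) + 2 * ((missSet G g).ncard : ℝ)
        + ∑ t, (siz g t : ℝ) ^ 2 = (n' : ℝ) ^ 2
          + 2 * (∑ v ∈ U, ((∑ t, nbn G g v t : ℕ) : ℝ)) + 2 * e
          + 2 * ((lightSet G g U).ncard : ℝ) := by exact_mod_cast he2
    rw [hdv]
    unfold qq
    linear_combination -e1
  have hdev0 : 0 ≤ dev (siz g) := Finset.sum_nonneg fun t _ => sq_nonneg _
  have hqn' : 0 ≤ qq r * (n' : ℝ) := by positivity
  obtain ⟨-, hrd, hrn⟩ := hRg1 n n' B (dev (siz g)) (dev (tz r n)) ((missSet G g).ncard)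
    ((lightSet G g U).ncard) e V U (fun v => ((∑ t, nbn G g v t : ℕ) : ℝ)) h2 hBn'
    hdev0 ht2 ht3 (Nat.cast_nonneg _) (Nat.cast_nonneg _) (Nat.cast_nonneg _) heK hRg.cardU
    (fun v hv => ⟨Nat.cast_nonneg _, (hRg.degU v hv).2.trans (by
      have e1 : (1 - δ1 / 2) * (qq r * (n' : ℝ)) ≤ 1 * (qq r * (n' : ℝ)) :=
        mul_le_mul_of_nonneg_right (by linarith) hqn'
      linarith)⟩) heq (hmain.trans hk1)
  have hmainU := hMu2 V G z g U n' hRg hn'3 hn'.symm (by
    have e1 : C1 * n ≤ 2 * C1 * n' := by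
      have := mul_le_mul_of_nonneg_left hn'1 hC1
      linarith
    linarith)
  have hsn' : Real.sqrt n' ≤ 2 * Real.sqrt n := by
    have e1 : (n' : ℝ) ≤ 4 * n := by
      have e2 : C1 ≤ n := hn₅.trans (by exact_mod_cast h5)
      have e3 := (abs_le.1 hrn).2
      linarith
    have e2 : Real.sqrt (4 * n) = 2 * Real.sqrt n := by
      rw [Real.sqrt_mul (by norm_num), show (4 : ℝ) = 2 ^ 2 by norm_num,
        Real.sqrt_sq (by norm_num)]
    rw [← e2]
    exact Real.sqrt_le_sqrt e1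
  have hC6s : C6 * Real.sqrt n' ≤ C6 * (2 * Real.sqrt n) := mul_le_mul_of_nonneg_left hsn' hC6
  have hsn0 : 0 ≤ Real.sqrt n := Real.sqrt_nonneg _
  obtain ⟨hU0, hnn, hbd⟩ := hOp1 n n' B (dev (siz g)) (dev (tz r n)) ((missSet G g).ncard)
    ((lightSet G g U).ncard) e V U (fun v => ((∑ t, nbn G g v t : ℕ) : ℝ)) h4 hB
    hdev0 ht2 ht3 (Nat.cast_nonneg _) (Nat.cast_nonneg _) (Nat.cast_nonneg _) heK hRg.cardU
    (hrn.trans (le_max_left _ _)) hRg.degU heq (by
      have e1 : (2 * C6 + C₀) * Real.sqrt n ≤ max C1 (2 * C6 + C₀) * Real.sqrt n :=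
        mul_le_mul_of_nonneg_right (le_max_right _ _) hsn0
      linarith)
  subst hU0
  rw [← hδdef]
  exact ⟨z, g, ItemSTU.flat_mono hRg.flat hd1, hnn, hbd⟩

end MP0c3a8f

end

section

/-!
# MP_0c3a8f_co, phase B: item TRF
-/

open Finset

namespace MP0c3a8f

namespace ItemTRF

/-- extension of injections between finite sets -/
theorem ext_inj {V U : Type} [Fintype V] [Fintype U] (A N : Set V) (B M : Set U) (hN : N ⊆ A)
    (hM : M ⊆ B) (hAB : A.ncard = B.ncard) (hNM : N.ncard ≤ M.ncard) (u : U) :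
    ∃ φ : V → U, (∀ v ∈ A, φ v ∈ B) ∧ (∀ v ∈ A, ∀ v' ∈ A, φ v = φ v' → v = v') ∧
      ∀ v ∈ N, φ v ∈ M := by
  classical
  have h1 : Fintype.card N ≤ Fintype.card M := by
    rw [← Nat.card_eq_fintype_card, ← Nat.card_eq_fintype_card, Nat.card_coe_set_eq,
      Nat.card_coe_set_eq]
    exact hNM
  obtain ⟨e⟩ := Function.Embedding.nonempty_of_card_le h1
  have h2 : Fintype.card A = (B.toFinset).card := by
    rw [← Nat.card_eq_fintype_card, Nat.card_coe_set_eq, hAB, Set.ncard_eq_toFinset_card']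
  let F : A → U := fun v => if h : v.1 ∈ N then (e ⟨v.1, h⟩).1 else u
  have hF : ∀ (v : A) (h : v.1 ∈ N), F v = (e ⟨v.1, h⟩).1 := fun v h => by
    simp only [F, dif_pos h]
  obtain ⟨k, hk⟩ := Set.MapsTo.exists_equiv_extend_of_card_eq h2 (s := {v : A | v.1 ∈ N})
    (f := F) (by
      intro v hv
      rw [hF v hv]
      simpa using hM (e ⟨v.1, hv⟩).2) (by
      intro v hv v' hv' h
      rw [hF v hv, hF v' hv'] at h
      have := e.injective (Subtype.ext h)
      exact Subtype.ext (congrArg (fun z : N => z.1) this))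
  refine ⟨fun v => if h : v ∈ A then (k ⟨v, h⟩).1 else u, ?_, ?_, ?_⟩
  · intro v hv
    simp only [dif_pos hv]
    exact Set.mem_toFinset.1 (k ⟨v, hv⟩).2
  · intro v hv v' hv' h
    simp only [dif_pos hv, dif_pos hv'] at h
    have := k.injective (Subtype.ext h)
    exact congrArg (fun z : A => z.1) this
  · intro v hv
    simp only [dif_pos (hN hv)]
    rw [hk ⟨v, hN hv⟩ hv, hF ⟨v, hN hv⟩ hv]
    exact (e ⟨v, hv⟩).2

/-- the map -/
theorem exists_map {r : ℕ} {V U : Type} [Fintype V] [Fintype U] {H : SimpleGraph V}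
    {G : SimpleGraph U} {g : V → Option (Fin r)} {f : U → Option (Fin r)} {w : V} {u : U}
    (hK : IsKU H g {w}) (hu : f u = none) (hm : (missSet G f).ncard = 0)
    (hs : ∀ t, siz g t = siz f t) (hn : ∀ t, nbn H g w t ≤ nbn G f u t) :
    ∃ φ : V → U, (∀ v v', (g v ≠ none ∨ v = w) → (g v' ≠ none ∨ v' = w) → φ v = φ v' → v = v') ∧
      ∀ v v', (g v ≠ none ∨ v = w) → (g v' ≠ none ∨ v' = w) → H.Adj v v' →
        G.Adj (φ v) (φ v') := by
  classical
  have hw : g w = none := hK.exc w (by simp)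
  have hm' : missSet G f = ∅ := by
    rwa [Set.ncard_eq_zero (Set.toFinite _)] at hm
  have hex : ∀ t, ∃ φ : V → U, (∀ v ∈ {v | g v = some t}, φ v ∈ {y | f y = some t}) ∧
      (∀ v ∈ {v | g v = some t}, ∀ v' ∈ {v | g v = some t}, φ v = φ v' → v = v') ∧
      ∀ v ∈ {v | g v = some t ∧ H.Adj w v}, φ v ∈ {y | f y = some t ∧ G.Adj u y} := fun t =>
    ext_inj _ _ _ _ (fun v hv => hv.1) (fun v hv => hv.1) (hs t) (hn t) u
  choose p hp1 hp2 hp3 using hex
  let φ : V → U := fun v => (g v).elim u (fun t => p t v)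
  have hφ : ∀ v t, g v = some t → φ v = p t v := fun v t h => by simp only [φ, h, Option.elim]
  have hφw : φ w = u := by simp only [φ, hw, Option.elim]
  have hf : ∀ v, g v ≠ none → f (φ v) = g v := by
    intro v hv
    obtain ⟨t, ht⟩ := Option.ne_none_iff_exists'.1 hv
    rw [hφ v t ht, ht]
    exact hp1 t v ht
  have hadj : ∀ v, g v ≠ none → H.Adj w v → G.Adj u (φ v) := by
    intro v hv h
    obtain ⟨t, ht⟩ := Option.ne_none_iff_exists'.1 hv
    rw [hφ v t ht]
    exact (hp3 t v ⟨ht, h⟩).2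
  refine ⟨φ, ?_, ?_⟩
  · rintro v v' (hv | rfl) (hv' | rfl) h
    · have h1 : g v = g v' := by rw [← hf v hv, ← hf v' hv', h]
      obtain ⟨t, ht⟩ := Option.ne_none_iff_exists'.1 hv
      have ht' : g v' = some t := by rw [← h1, ht]
      rw [hφ v t ht, hφ v' t ht'] at h
      exact hp2 t v ht v' ht' h
    · exfalso
      rw [hφw] at h
      apply hv
      rw [← hf v hv, h, hu]
    · exfalso
      rw [hφw] at h
      apply hv'
      rw [← hf v' hv', ← h, hu]
    · rfl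
  · rintro v v' (hv | rfl) (hv' | rfl) h
    · rw [hK.core v v' hv hv'] at h
      by_contra hcon
      have : s(φ v, φ v') ∈ missSet G f :=
        ⟨φ v, φ v', rfl, by rwa [hf v hv], by rwa [hf v' hv'], by rwa [hf v hv, hf v' hv'], hcon⟩
      rw [hm'] at this
      exact this
    · rw [hφw]
      exact (hadj v hv h.symm).symm
    · rw [hφw]
      exact hadj v' hv' h
    · exact absurd h (H.loopless.irrefl _)

/-- push forward -/
theorem push {V U : Type} [Fintype V] [Fintype U] {H : SimpleGraph V} {G : SimpleGraph U}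
    (S : Finset V) (φ : V → U) (hinj : ∀ v ∈ S, ∀ v' ∈ S, φ v = φ v' → v = v')
    (hadj : ∀ v ∈ S, ∀ v' ∈ S, H.Adj v v' → G.Adj (φ v) (φ v'))
    (hiso : ∀ v v', v ∉ S → ¬ H.Adj v v') (x : V → ℝ) (hx : ∀ v, 0 ≤ x v) :
    ∃ y : U → ℝ, qf H x ≤ qf G y ∧ ∑ b, y b ^ 2 ≤ ∑ v, x v ^ 2 := by
  classical
  have hex : ∃ y : U → ℝ, (∀ v ∈ S, y (φ v) = x v) ∧ ∀ b, b ∉ S.image φ → y b = 0 := by
    refine ⟨fun b => ∑ v ∈ S, if φ v = b then x v else 0, ?_, ?_⟩
    · intro v hv
      show ∑ v' ∈ S, (if φ v' = φ v then x v' else 0) = x v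
      rw [Finset.sum_eq_single v]
      · rw [if_pos rfl]
      · intro v' hv' hne
        rw [if_neg]
        intro h
        exact hne (hinj v' hv' v hv h)
      · intro h
        exact absurd hv h
    · intro b hb
      show ∑ v' ∈ S, (if φ v' = b then x v' else 0) = 0
      apply Finset.sum_eq_zero
      intro v hv
      rw [if_neg]
      rintro rfl
      exact hb (Finset.mem_image_of_mem φ hv)
  obtain ⟨y, hy, hy0⟩ := hex
  have hsum : ∀ K : U → ℝ, (∀ b, b ∉ S.image φ → K b = 0) →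
      ∑ b, K b = ∑ v ∈ S, K (φ v) := by
    intro K hK
    rw [← Finset.sum_image (s := S) (g := φ) (f := K) (fun v hv v' hv' h => hinj v hv v' hv' h)]
    symm
    apply Finset.sum_subset (Finset.subset_univ _)
    intro b _ hb
    exact hK b hb
  have hnil : ∀ v v', v ∉ S → adj H v v' = 0 := by
    intro v v' hv
    unfold adj
    rw [if_neg (hiso v v' hv)]
  have hnil' : ∀ v v', v' ∉ S → adj H v v' = 0 := by
    intro v v' hv
    unfold adj
    rw [if_neg (fun h => hiso v' v hv h.symm)]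
  refine ⟨y, ?_, ?_⟩
  · have e1 : qf H x = ∑ v ∈ S, ∑ v' ∈ S, adj H v v' * (x v * x v') := by
      unfold qf
      symm
      rw [← Finset.sum_subset (Finset.subset_univ S)]
      · apply Finset.sum_congr rfl
        intro v _
        apply Finset.sum_subset (Finset.subset_univ S)
        intro v' _ hv'
        rw [hnil' v v' hv', zero_mul]
      · intro v _ hv
        apply Finset.sum_eq_zero
        intro v' _
        rw [hnil v v' hv, zero_mul]
    have e2 : qf G y = ∑ v ∈ S, ∑ v' ∈ S, adj G (φ v) (φ v') * (x v * x v') := by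
      unfold qf
      rw [hsum]
      · apply Finset.sum_congr rfl
        intro v hv
        rw [hsum]
        · apply Finset.sum_congr rfl
          intro v' hv'
          rw [hy v hv, hy v' hv']
        · intro b hb
          rw [hy0 b hb, mul_zero, mul_zero]
      · intro b hb
        apply Finset.sum_eq_zero
        intro b' _
        rw [hy0 b hb, zero_mul, mul_zero]
    rw [e1, e2]
    apply Finset.sum_le_sum
    intro v hv
    apply Finset.sum_le_sum
    intro v' hv'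
    apply mul_le_mul_of_nonneg_right _ (mul_nonneg (hx v) (hx v'))
    unfold adj
    by_cases h : H.Adj v v'
    · rw [if_pos h, if_pos (hadj v hv v' hv' h)]
    · rw [if_neg h]
      split_ifs
      · exact zero_le_one
      · exact le_rfl
  · rw [hsum (fun b => y b ^ 2)]
    · calc ∑ v ∈ S, y (φ v) ^ 2 = ∑ v ∈ S, x v ^ 2 :=
            Finset.sum_congr rfl (fun v hv => by rw [hy v hv])
        _ ≤ ∑ v, x v ^ 2 := Finset.sum_le_sum_of_subset_of_nonneg (Finset.subset_univ S)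
            (fun v _ _ => sq_nonneg _)
    · intro b hb
      rw [hy0 b hb]
      norm_num

end ItemTRF

open ItemTRF in
theorem prfTRF : P_statement → TRF_statement := by
  classical
  intro hP r V U _ _ H G g f w u hK hu hm hs hn
  have : Nonempty V := ⟨w⟩
  have : Nonempty U := ⟨u⟩
  obtain ⟨φ, hinj, hadj⟩ := exists_map hK hu hm hs hn
  obtain ⟨_, _, x, hx, hx1, heig⟩ := hP V H
  obtain ⟨hG0, hG, _⟩ := hP U G
  have hmem : ∀ v, v ∈ (Finset.univ.filter fun v => g v ≠ none ∨ v = w) ↔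
      (g v ≠ none ∨ v = w) := fun v => by simp
  obtain ⟨y, hy1, hy2⟩ := push (H := H) (G := G)
    (Finset.univ.filter fun v => g v ≠ none ∨ v = w) φ
    (fun v hv v' hv' h => hinj v v' ((hmem v).1 hv) ((hmem v').1 hv') h)
    (fun v hv v' hv' h => hadj v v' ((hmem v).1 hv) ((hmem v').1 hv') h)
    (fun v v' hv => by
      rw [hmem, not_or, not_not] at hv
      exact hK.iso v v' hv.1 (by simpa using hv.2)) x hx
  have hq : qf H x = lam H := by
    have : qf H x = ∑ i, x i * ∑ j, adj H i j * x j := by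
      unfold qf
      apply Finset.sum_congr rfl
      intro i _
      rw [Finset.mul_sum]
      apply Finset.sum_congr rfl
      intro j _
      ring
    rw [this]
    calc ∑ i, x i * ∑ j, adj H i j * x j = ∑ i, lam H * x i ^ 2 :=
          Finset.sum_congr rfl (fun i _ => by rw [heig i]; ring)
      _ = lam H := by rw [← Finset.mul_sum, hx1, mul_one]
  rw [hx1] at hy2
  calc lam H = qf H x := hq.symm
    _ ≤ qf G y := hy1
    _ ≤ lam G * ∑ b, y b ^ 2 := hG y
    _ ≤ lam G * 1 := mul_le_mul_of_nonneg_left hy2 hG0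
    _ = lam G := mul_one _

end MP0c3a8f

end
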