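import Pool.Agent.Work.MP_0c3a8f_co.PB.Stmts5
import Pool.Agent.Work.MP_0c3a8f_co.Bd.B11
import Pool.Agent.Work.MP_0c3a8f_co.PB.ItemOPTC
import Pool.Agent.Work.MP_0c3a8f_co.Bd.B12
import Pool.Agent.Work.MP_0c3a8f_co.Bd.B06
import Pool.Agent.Work.MP_0c3a8f_co.Bd.B09
import Pool.Agent.Work.MP_0c3a8f_co.Bd.B10
import Pool.Agent.Work.MP_0c3a8f_co.PB.ItemMEMU
import Pool.Agent.Work.MP_0c3a8f_co.PB.ItemSLB
import Pool.Agent.Work.MP_0c3a8f_co.Bd.B15
import Pool.Agent.Work.MP_0c3a8f_co.Bd.B13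

/-! Bundle of small proof modules (one section per former module). -/

section

/-!
# MP_0c3a8f_co, phase B, item NUMV (sizes of the classes of a good graph, all `B ≤ n`)
-/

set_option autoImplicit false

open Finset

namespace MP0c3a8f

namespace NUMV

theorem core (p b : ℕ) : ∀ n : ℕ, 64 * (p + 3) ^ 2 + 2 * b + 10 ≤ n → ∀ B : ℕ, p + 5 ≤ B → B ≤ n →
    ∃ (σ : Fin (p + 3) → ℕ) (a : ℕ), ∑ t, σ t = n ∧
      ∑ t, σ t ^ 2 + 2 * a = ∑ t, tz (p + 3) n t ^ 2 + 2 * B + 2 * b ∧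
      (a : ℝ) ≤ (200 + 27 * ((p : ℝ) + 3)) * Real.sqrt (Real.sqrt n) ∧
      cr (p + 3) * (2 * B * Real.sqrt (2 * B)) - (200 + 27 * ((p : ℝ) + 3)) * n ≤ cub σ ∧
      ∀ t, (n : ℝ) / (2 * ((p + 3 : ℕ) : ℝ)) ≤ σ t := by
  have hp : (0 : ℝ) ≤ p := Nat.cast_nonneg p
  have hcast : ((p + 3 : ℕ) : ℝ) = (p : ℝ) + 3 := by push_cast; ring
  intro n hn1 B hB hBn
  have hn1r : (64 : ℝ) * ((p : ℝ) + 3) ^ 2 + 2 * b + 10 ≤ n := by exact_mod_cast hn1
  have hn2r : (p : ℝ) + 5 ≤ B := by exact_mod_cast hB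
  have hBr : (B : ℝ) ≤ n := by exact_mod_cast hBn
  have hb0 : (0 : ℝ) ≤ b := Nat.cast_nonneg b
  set m : ℝ := (p : ℝ) + 2 with hm
  have hm2 : 2 ≤ m := by linarith
  have hpm : (p : ℝ) + 3 = m + 1 := by rw [hm]; ring
  have hp5 : (p : ℝ) + 5 = m + 3 := by rw [hm]; ring
  rw [hpm] at hn1r
  rw [hp5] at hn2r
  have hm1 : m + 1 ≤ (m + 1) ^ 2 := by nlinarith only [hm2]
  have hn10 : (10 : ℝ) ≤ n := by linarith
  have hn0 : (0 : ℝ) < n := by linarith
  -- the square root and the fourth root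
  set Y : ℝ := Real.sqrt n with hY
  have hY0 : 0 ≤ Y := Real.sqrt_nonneg _
  have hY2 : Y ^ 2 = n := Real.sq_sqrt hn0.le
  set y : ℝ := Real.sqrt Y with hy
  have hy0 : 0 ≤ y := Real.sqrt_nonneg _
  have hy2 : y ^ 2 = Y := Real.sq_sqrt hY0
  have hY8 : 8 * (m + 1) ≤ Y := by
    rw [hY]
    apply Real.le_sqrt_of_sq_le
    have h1 : (8 * (m + 1)) ^ 2 = 64 * (m + 1) ^ 2 := by ring
    rw [h1]
    linarith
  have hY1 : 1 ≤ Y := by linarith
  have hy1 : 1 ≤ y := by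
    rw [hy]
    apply Real.le_sqrt_of_sq_le
    linarith
  have hyY : y ≤ Y := by nlinarith only [hy1, hy2]
  have hYY : Y ≤ Y ^ 2 := by nlinarith only [hY1]
  -- the right hand side
  set R : ℕ := ∑ t, tz (p + 3) n t ^ 2 + 2 * B + 2 * b with hR
  have hT := NUM.tz_sq (p + 3) n (by omega)
  rw [hcast, hpm] at hT
  have hRr : (R : ℝ) = ∑ t, ((tz (p + 3) n t : ℕ) : ℝ) ^ 2 + 2 * B + 2 * b := by
    rw [hR]; push_cast; ring
  -- the size of the first class
  have hf := fun u (hu : u ≤ n) => NUM.ff_real p n u hu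
  rw [← hm, hpm] at hf
  obtain ⟨u, hu0, hun, hu1, hu2⟩ : ∃ u : ℕ, (n : ℝ) / (m + 1) ≤ u ∧ u < n ∧
      NUM.ff p n u ≤ R ∧ R < NUM.ff p n (u + 1) := by
    by_contra hcon
    push Not at hcon
    have hstart : NUM.ff p n ⌈(n : ℝ) / (m + 1)⌉₊ ≤ R := by
      have h1 : (⌈(n : ℝ) / (m + 1)⌉₊ : ℝ) < (n : ℝ) / (m + 1) + 1 :=
        Nat.ceil_lt_add_one (by positivity)
      have h2 : (n : ℝ) / (m + 1) ≤ ⌈(n : ℝ) / (m + 1)⌉₊ := Nat.le_ceil _
      have h3 : ⌈(n : ℝ) / (m + 1)⌉₊ ≤ n := by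
        rw [Nat.ceil_le, div_le_iff₀ (by linarith)]
        nlinarith only [hn0, hm2]
      have h4 := (hf _ h3).2
      have h5 : ((⌈(n : ℝ) / (m + 1)⌉₊ : ℝ) - n / (m + 1)) ^ 2 ≤ 1 := by
        nlinarith only [h1, h2]
      have h6 : (m + 1) / m ≤ 3 / 2 := by
        rw [div_le_iff₀ (by linarith)]
        linarith
      have h7 : ((⌈(n : ℝ) / (m + 1)⌉₊ : ℝ) - n / (m + 1)) ^ 2 * ((m + 1) / m) ≤ 1 * (3 / 2) :=
        mul_le_mul h5 h6 (by positivity) (by norm_num)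
      have h8 : ((NUM.ff p n ⌈(n : ℝ) / (m + 1)⌉₊ : ℕ) : ℝ) ≤ R := by
        rw [hRr]
        linarith [hT.1]
      exact_mod_cast h8
    have hall : ∀ j : ℕ, ⌈(n : ℝ) / (m + 1)⌉₊ + j ≤ n →
        NUM.ff p n (⌈(n : ℝ) / (m + 1)⌉₊ + j) ≤ R := by
      intro j
      induction j with
      | zero => intro _; exact hstart
      | succ j ih =>
        intro hj
        have h1 := ih (by omega)
        refine hcon (⌈(n : ℝ) / (m + 1)⌉₊ + j) ?_ (by omega) h1
        push_cast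
        have h2 : (n : ℝ) / (m + 1) ≤ ⌈(n : ℝ) / (m + 1)⌉₊ := Nat.le_ceil _
        have h3 : (0 : ℝ) ≤ j := Nat.cast_nonneg j
        linarith
    have h3 : ⌈(n : ℝ) / (m + 1)⌉₊ ≤ n := by
      rw [Nat.ceil_le, div_le_iff₀ (by linarith)]
      nlinarith only [hn0, hm2]
    have h4 := hall (n - ⌈(n : ℝ) / (m + 1)⌉₊) (by omega)
    have h5 : ⌈(n : ℝ) / (m + 1)⌉₊ + (n - ⌈(n : ℝ) / (m + 1)⌉₊) = n := by omega
    rw [h5] at h4
    have h6 : n ^ 2 ≤ NUM.ff p n n := by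
      unfold NUM.ff
      exact Nat.le_add_right _ _
    have h7 : ((n : ℝ)) ^ 2 ≤ R := by
      have : n ^ 2 ≤ R := h6.trans h4
      exact_mod_cast this
    rw [hRr] at h7
    have h8 : (n : ℝ) ^ 2 / (m + 1) ≤ n ^ 2 / 3 := by
      apply div_le_div_of_nonneg_left (by positivity) (by norm_num) (by linarith)
    have h9 : (n : ℝ) * (64 * (m + 1) ^ 2 + 2 * b + 10) ≤ n * n :=
      mul_le_mul_of_nonneg_left hn1r hn0.le
    have h10 : 10 * (b : ℝ) ≤ n * b := mul_le_mul_of_nonneg_right hn10 hb0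
    have h11 : 1 * (m + 1) ^ 2 ≤ n * (m + 1) ^ 2 :=
      mul_le_mul_of_nonneg_right (by linarith) (sq_nonneg _)
    have h12 := hT.2
    linarith only [h7, h8, h9, h10, h11, h12, hm1, hBr, hn0, hb0, hm2]
  have hfu := hf u hun.le
  have hfu1 := hf (u + 1) (by omega)
  set s : ℝ := (u : ℝ) - n / (m + 1) with hs
  have hs0 : 0 ≤ s := by linarith
  have hus : ((u + 1 : ℕ) : ℝ) - n / (m + 1) = s + 1 := by push_cast; rw [hs]; ring
  rw [hus] at hfu1
  -- the rest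
  obtain ⟨g, hg⟩ : ∃ g, R = NUM.ff p n u + 2 * g := by
    obtain ⟨x1, hx1⟩ := NUM.even_sq (tz (p + 3) n)
    obtain ⟨x2, hx2⟩ := NUM.even_sq (tz (p + 2) (n - u))
    obtain ⟨x3, hx3⟩ := Nat.even_mul_succ_self u
    rw [DEV_sum (p + 3) n (by omega)] at hx1
    rw [DEV_sum (p + 2) (n - u) (by omega)] at hx2
    have hff : NUM.ff p n u = u ^ 2 + ∑ t, tz (p + 2) (n - u) t ^ 2 := rfl
    have h1 : u * (u + 1) = u ^ 2 + u := by ring
    rw [h1] at hx3
    refine ⟨(R - NUM.ff p n u) / 2, ?_⟩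
    omega
  have hgr : (R : ℝ) = NUM.ff p n u + 2 * (g : ℝ) := by
    rw [hg]; push_cast; ring
  have hu2r : (R : ℝ) < NUM.ff p n (u + 1) := by exact_mod_cast hu2
  have hg0 : (0 : ℝ) ≤ g := Nat.cast_nonneg g
  set c : ℝ := (m + 1) / m with hc
  have hc1 : 1 ≤ c := by
    rw [hc, le_div_iff₀ (by linarith)]
    linarith
  have hc2 : c ≤ 3 / 2 := by
    rw [hc, div_le_iff₀ (by linarith)]
    linarith
  have hv4 : s ^ 2 * c ≤ 4 * Y ^ 2 := by
    rw [hY2]
    have h1 : ((NUM.ff p n u : ℕ) : ℝ) ≤ R := by exact_mod_cast hu1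
    have h2 := hT.2
    have h3 := hfu.1
    linarith only [h1, h2, h3, hRr, hm1, hm2, hn1r, hBr, hb0, hn0]
  have hs2 : s ≤ 2 * Y := by
    by_contra h
    push Not at h
    have h1 : s ^ 2 * 1 ≤ s ^ 2 * c := mul_le_mul_of_nonneg_left hc1 (sq_nonneg _)
    nlinarith only [h, h1, hv4, hY0]
  have h2g : 2 * (g : ℝ) ≤ 7 * Y := by
    have h1 : 2 * (g : ℝ) < (2 * s + 1) * c + m := by
      have h2 := hfu1.2
      have h3 := hfu.1
      linarith only [h2, h3, hgr, hu2r]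
    have h2 : (2 * s + 1) * c ≤ (2 * s + 1) * (3 / 2) :=
      mul_le_mul_of_nonneg_left hc2 (by linarith)
    linarith
  -- the two classes
  set θ : ℕ := tz (p + 2) (n - u) 0 - tz (p + 2) (n - u) 1 with hθ
  have hθ1 : θ ≤ 1 := by
    have h1 := NUM.tz_cases (p + 2) (n - u) 0
    have h2 := NUM.tz_cases (p + 2) (n - u) 1
    omega
  obtain ⟨k, hk1, hk2⟩ : ∃ k : ℕ, k ^ 2 + k * θ ≤ g ∧ g < (k + 1) ^ 2 + (k + 1) * θ := by
    by_contra hcon
    push Not at hcon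
    have hall : ∀ j : ℕ, j ^ 2 + j * θ ≤ g := by
      intro j
      induction j with
      | zero => simp
      | succ j ih => exact hcon j ih
    have h1 := hall (g + 1)
    nlinarith only [h1, Nat.zero_le ((g + 1) * θ), Nat.zero_le g]
  have hk0 : (0 : ℝ) ≤ k := Nat.cast_nonneg k
  have hkg : (k : ℝ) ^ 2 ≤ g := by
    have : k ^ 2 ≤ g := le_trans (Nat.le_add_right _ _) hk1
    exact_mod_cast this
  have hk2y : (k : ℝ) ≤ 2 * y := by
    by_contra h
    push Not at h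
    nlinarith only [h, hkg, h2g, hy2, hy0, hY1]
  have hmean : ((n : ℝ) - u) / m = n / (m + 1) - s / m := by
    rw [hs]
    field_simp
    ring
  have hn8 : 8 * Y ≤ (n : ℝ) / (m + 1) := by
    rw [le_div_iff₀ (by linarith), ← hY2]
    nlinarith only [hY8, hY0]
  have hsm : s / m ≤ Y := by
    rw [div_le_iff₀ (by linarith)]
    nlinarith only [hs2, hm2, hY0]
  have hkτ : k ≤ tz (p + 2) (n - u) 1 := by
    have h1 := NUM.tz_real (p + 2) (n - u) (by omega) 1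
    push_cast [Nat.cast_sub hun.le] at h1
    rw [← hm, hmean, abs_le] at h1
    have h2 : (k : ℝ) ≤ (tz (p + 2) (n - u) 1 : ℕ) := by linarith [h1.1]
    exact_mod_cast h2
  obtain ⟨σ, hσ0, hσs, hσ2, hση⟩ := NUM.exists_sizes p n u k hun.le hkτ
  rw [← hθ] at hσ2
  rw [← hm] at hση
  have hcub := NUM.cub_ge p n u (k + 1) σ hσ0 hσs (by rw [hpm]; exact hu0)
    (by rw [← hm]; exact hση)
  rw [hpm, ← hm, ← hs] at hcub
  refine ⟨σ, g - (k ^ 2 + k * θ), hσs, ?_, ?_, ?_, ?_⟩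
  · obtain ⟨l, hl⟩ := Nat.exists_eq_add_of_le hk1
    have h1 : g - (k ^ 2 + k * θ) = l := by omega
    rw [h1, hσ2, hg, hl]
    ring
  · have h1 : g - (k ^ 2 + k * θ) ≤ 2 * k + 1 := by
      have h2 : (k + 1) ^ 2 + (k + 1) * θ = k ^ 2 + k * θ + (2 * k + 1 + θ) := by ring
      omega
    have h2 : ((g - (k ^ 2 + k * θ) : ℕ) : ℝ) ≤ 2 * k + 1 := by exact_mod_cast h1
    have h3 : (0 : ℝ) ≤ (200 + 27 * ((p : ℝ) + 3) - 5) * y := by
      apply mul_nonneg (by linarith) hy0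
    linarith
  · have hw8 : 2 * (g : ℝ) + m ≤ 8 * Y := by linarith
    have hv0 : 0 ≤ s ^ 2 * c := by positivity
    have h2B : 2 * (B : ℝ) ≤ s ^ 2 * c + (2 * g + m) := by linarith [hT.1, hfu.2]
    have h3 := NUM.three_half (x := 2 * (B : ℝ)) hv0 (by linarith : 0 ≤ 2 * (g : ℝ) + m) h2B
    have hcrm := NUM.cr_mul p s hs0
    rw [hpm, ← hm, ← hc] at hcrm
    obtain ⟨hcr0, hcr1⟩ := NUM.cr_bd p
    have hsq : Real.sqrt (s ^ 2 * c + (2 * g + m)) ≤ 4 * Y := by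
      rw [Real.sqrt_le_left (by linarith)]
      have h4 : (4 * Y) ^ 2 = 16 * Y ^ 2 := by ring
      rw [h4]
      linarith only [hv4, hw8, hYY, hY0]
    have hsq0 := Real.sqrt_nonneg (s ^ 2 * c + (2 * (g : ℝ) + m))
    have h4 : (2 * (g : ℝ) + m) * Real.sqrt (s ^ 2 * c + (2 * g + m)) ≤ (8 * Y) * (4 * Y) :=
      mul_le_mul hw8 hsq hsq0 (by linarith)
    have h5 : cr (p + 3) * (2 * (B : ℝ) * Real.sqrt (2 * B))
        ≤ s ^ 3 * (1 - 1 / m ^ 2) + 48 * n := by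
      have h6 := mul_le_mul_of_nonneg_left h3 hcr0
      rw [mul_add, hcrm] at h6
      have h7 : cr (p + 3) * (3 / 2 * ((2 * (g : ℝ) + m)
          * Real.sqrt (s ^ 2 * c + (2 * g + m)))) ≤ 1 * (3 / 2 * ((8 * Y) * (4 * Y))) :=
        mul_le_mul hcr1 (by linarith) (by positivity) (by norm_num)
      rw [← hY2]
      linarith
    have hK3 : (k : ℝ) + 1 ≤ 3 * y := by linarith
    have hK2 : ((k : ℝ) + 1) ^ 2 ≤ 9 * Y := by
      rw [← hy2]
      nlinarith only [hK3, hk0, hy0]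
    have hK33 : ((k : ℝ) + 1) ^ 3 ≤ 27 * n := by
      have h8 : ((k : ℝ) + 1) ^ 3 = ((k : ℝ) + 1) ^ 2 * (k + 1) := by ring
      rw [h8, ← hY2]
      have h9 : ((k : ℝ) + 1) ^ 2 * (k + 1) ≤ (9 * Y) * (3 * Y) :=
        mul_le_mul hK2 (by linarith) (by linarith) (by linarith)
      linarith
    have h10 : 3 * s * ((k : ℝ) + 1) ^ 2 ≤ 54 * n := by
      rw [← hY2]
      have h11 : (3 * s) * ((k : ℝ) + 1) ^ 2 ≤ (3 * (2 * Y)) * (9 * Y) :=
        mul_le_mul (by linarith) hK2 (by positivity) (by linarith)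
      linarith
    have h12 : m * ((k : ℝ) + 1) ^ 3 ≤ m * (27 * n) :=
      mul_le_mul_of_nonneg_left hK33 (by linarith)
    have h13 : (200 + 27 * ((p : ℝ) + 3)) * n = 200 * n + 27 * (m * n) + 27 * n := by
      rw [hpm]; ring
    rw [h13]
    linarith only [h5, h10, h12, hcub, hn0]
  · intro t
    rw [hcast, hpm]
    have h1 : (n : ℝ) / (2 * (m + 1)) = n / (m + 1) / 2 := by
      field_simp
    rw [h1]
    refine Fin.cases ?_ (fun t => ?_) t
    · rw [hσ0]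
      linarith
    · have h2 := (abs_le.1 (hση t)).1
      rw [hmean] at h2
      linarith


theorem cub_tz (r n : ℕ) (hr : 1 ≤ r) : -(r : ℝ) ≤ cub (tz r n) := by
  unfold cub
  have hs : ∑ t, ((tz r n t : ℕ) : ℝ) = n := by exact_mod_cast DEV_sum r n hr
  rw [hs]
  have h1 : ∑ t : Fin r, (-1 : ℝ) ≤ ∑ t, (((tz r n t : ℕ) : ℝ) - (n : ℝ) / r) ^ 3 := by
    refine Finset.sum_le_sum fun t _ => ?_
    have h2 := (abs_le.1 (NUM.tz_real r n hr t)).1
    have h3 : (-1 : ℝ) = (-1) ^ 3 := by norm_num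
    rw [h3]
    exact (Odd.pow_le_pow (by decide : Odd 3)).2 h2
  simpa using h1

end NUMV

theorem prfNUMV : NUMV_statement := by
  intro r b hr
  obtain ⟨p, rfl⟩ : ∃ p, r = p + 3 := ⟨r - 3, by omega⟩
  have hp : (0 : ℝ) ≤ p := Nat.cast_nonneg p
  have hb : (0 : ℝ) ≤ b := Nat.cast_nonneg b
  have hcast : ((p + 3 : ℕ) : ℝ) = (p : ℝ) + 3 := by push_cast; ring
  refine ⟨200 + 27 * ((p : ℝ) + 3) + (4 * ((p : ℝ) + 5) ^ 2 + (p + 5) + b + (p + 3)),
    64 * (p + 3) ^ 2 + 2 * b + 10, by positivity, ?_⟩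
  intro n hn B hBn
  have hnr : (64 : ℝ) * ((p : ℝ) + 3) ^ 2 + 2 * b + 10 ≤ n := by exact_mod_cast hn
  have hn1 : (1 : ℝ) ≤ n := by
    have : (0 : ℝ) ≤ 64 * ((p : ℝ) + 3) ^ 2 := by positivity
    linarith
  have hY : (1 : ℝ) ≤ Real.sqrt (Real.sqrt n) := by
    rw [Real.one_le_sqrt, Real.one_le_sqrt]
    exact hn1
  have hK : (0 : ℝ) ≤ 4 * ((p : ℝ) + 5) ^ 2 + (p + 5) + b + (p + 3) := by positivity
  have hM : (0 : ℝ) ≤ 200 + 27 * ((p : ℝ) + 3) := by positivity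
  by_cases hB : p + 5 ≤ B
  · obtain ⟨σ, a, h1, h2, h3, h4, h5⟩ := NUMV.core p b n hn B hB hBn
    refine ⟨σ, a, h1, h2, ?_, ?_, h5⟩
    · have h6 : 0 ≤ (4 * ((p : ℝ) + 5) ^ 2 + (p + 5) + b + (p + 3)) * Real.sqrt (Real.sqrt n) :=
        mul_nonneg hK (by linarith)
      rw [add_mul]
      linarith
    · have h6 : 0 ≤ (4 * ((p : ℝ) + 5) ^ 2 + (p + 5) + b + (p + 3)) * (n : ℝ) :=
        mul_nonneg hK (by linarith)
      rw [add_mul]
      linarith
  · have hBr : (B : ℝ) ≤ (p : ℝ) + 5 := by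
      have : B ≤ p + 5 := by omega
      exact_mod_cast this
    have hB0 : (0 : ℝ) ≤ B := Nat.cast_nonneg B
    refine ⟨tz (p + 3) n, B + b, ?_, by ring, ?_, ?_, ?_⟩
    · exact DEV_sum (p + 3) n (by omega)
    · push_cast
      have h6 : (4 * ((p : ℝ) + 5) ^ 2 + (p + 5) + b + (p + 3)) * 1 ≤
          (4 * ((p : ℝ) + 5) ^ 2 + (p + 5) + b + (p + 3)) * Real.sqrt (Real.sqrt n) :=
        mul_le_mul_of_nonneg_left hY hK
      have h7 : 0 ≤ (200 + 27 * ((p : ℝ) + 3)) * Real.sqrt (Real.sqrt n) :=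
        mul_nonneg (by positivity) (by linarith)
      have h8 : (0 : ℝ) ≤ 4 * ((p : ℝ) + 5) ^ 2 := by positivity
      rw [add_mul]
      linarith
    · have h9 := NUMV.cub_tz (p + 3) n (by omega)
      obtain ⟨hcr0, hcr1⟩ := NUM.cr_bd p
      have hsq : Real.sqrt (2 * (B : ℝ)) ≤ 2 * ((p : ℝ) + 5) := by
        rw [Real.sqrt_le_left (by linarith)]
        nlinarith
      have hsq0 := Real.sqrt_nonneg (2 * (B : ℝ))
      have h10 : 2 * (B : ℝ) * Real.sqrt (2 * B) ≤ (2 * ((p : ℝ) + 5)) * (2 * ((p : ℝ) + 5)) :=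
        mul_le_mul (by linarith) hsq hsq0 (by linarith)
      have h11 : cr (p + 3) * (2 * (B : ℝ) * Real.sqrt (2 * B)) ≤
          1 * ((2 * ((p : ℝ) + 5)) * (2 * ((p : ℝ) + 5))) :=
        mul_le_mul hcr1 h10 (by positivity) (by norm_num)
      have h6 : (4 * ((p : ℝ) + 5) ^ 2 + (p + 5) + b + (p + 3)) * 1 ≤
          (4 * ((p : ℝ) + 5) ^ 2 + (p + 5) + b + (p + 3)) * (n : ℝ) :=
        mul_le_mul_of_nonneg_left hn1 hK
      have h7 : 0 ≤ (200 + 27 * ((p : ℝ) + 3)) * (n : ℝ) :=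
        mul_nonneg hM (by linarith)
      rw [add_mul]
      rw [hcast] at h9
      linarith
    · intro t
      have h2 := (abs_le.1 (NUM.tz_real (p + 3) n (by omega) t)).1
      rw [hcast] at h2 ⊢
      have h3 : (n : ℝ) / ((p : ℝ) + 3) = 2 * ((n : ℝ) / (2 * ((p : ℝ) + 3))) := by
        field_simp
      have h4 : 1 ≤ (n : ℝ) / (2 * ((p : ℝ) + 3)) := by
        rw [le_div_iff₀ (by linarith)]
        nlinarith
      linarith

end MP0c3a8f

end

section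

/-!
# MP_0c3a8f_co, range up to the middle: the optimisation (item OPUE)
-/

open Finset

namespace MP0c3a8f
namespace ItemOPUE

theorem qq_bd {r : ℕ} (hr : 3 ≤ r) : 2 / 3 ≤ qq r ∧ qq r < 1 := by
  have h3 : (3 : ℝ) ≤ r := by exact_mod_cast hr
  unfold qq
  constructor
  · have : 1 / (r : ℝ) ≤ 1 / 3 := one_div_le_one_div_of_le (by norm_num) h3
    linarith
  · have : 0 < 1 / (r : ℝ) := by positivity
    linarith

/-- the inequality in the scaled variables -/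
theorem step4 (r K : ℕ) (ε C : ℝ) (n n₁ B : ℕ) (dv dT a b e : ℝ) (k : ℤ)
    {ι : Type} (U : Finset ι) (d : ι → ℝ) (t : ι → ℝ) (hr : 3 ≤ r)
    (hn : 0 < n) (hn₁ : 0 < n₁) (hε : 0 < ε)
    (_hdv : 0 ≤ dv) (hdT : 0 ≤ dT) (hdT' : dT ≤ r) (hC : 0 ≤ C)
    (ha : 0 ≤ a) (hb : 0 ≤ b) (he : 0 ≤ e) (he' : e ≤ (K : ℝ) ^ 2) (hU : U.card ≤ K)
    (hk : (k : ℝ) = n₁ - n) (hk' : |(n₁ : ℝ) - n| ≤ C)
    (ht : ∀ i, t i = d i / (qq r * n₁)) (ht01 : ∀ i ∈ U, 0 ≤ t i ∧ t i ≤ 1)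
    (h2 : (B : ℝ) ≤ (2 / (r : ℝ) - ε) * (qq r * n))
    (hrel : qq r * (n₁ : ℝ) ^ 2 - dv + 2 * ∑ i ∈ U, d i + 2 * e - 2 * a + 2 * b
      = qq r * (n : ℝ) ^ 2 - dT - 2 * B)
    (hbig : 2 * (C ^ 2 + C * K + 2 * K ^ 2 + r) / ε ≤ n)
    (h3 : (2 * qq r - 1 / (4 * (r : ℝ) ^ 2)) * (a + b) + qq r * (1 - 2 / (r : ℝ)) * dv
      + ∑ i ∈ U, 2 * d i * (qq r - d i / n₁)
      ≤ 2 * qq r * (1 - 2 / (r : ℝ)) * B + C * Real.sqrt n) :
    ∃ x' : ℝ, -((C ^ 2 + C * K + 2 * K ^ 2 + r) / n) ≤ x' ∧ x' ≤ 2 / (r : ℝ) - ε / 2 ∧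
      ∑ i ∈ U, t i + b / (qq r * n) - a / (qq r * n) - dv / (2 * qq r * n) + k = -x' ∧
      ∑ i ∈ U, t i * (1 - t i)
        + (1 - 1 / (4 * (r : ℝ) ^ 2)) * (a / (qq r * n) + b / (qq r * n))
        + (1 - 2 / (r : ℝ)) * (dv / (2 * qq r * n)) ≤ (1 - 2 / (r : ℝ)) * x'
        + (C * K + (C ^ 2 + C * K + 2 * K ^ 2 + r) + 2 * C) * Real.sqrt n / n
      := by
  obtain ⟨hq, hq1⟩ := qq_bd hr
  have hr' : (3 : ℝ) ≤ r := by exact_mod_cast hr
  have hn' : (0 : ℝ) < n := by exact_mod_cast hn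
  have hn1' : (1 : ℝ) ≤ n := by exact_mod_cast hn
  have hn₁' : (0 : ℝ) < n₁ := by exact_mod_cast hn₁
  have hq0 : 0 < qq r := by linarith
  have hr0 : (0 : ℝ) < r := by positivity
  have hr2 : 0 < 2 / (r : ℝ) := by positivity
  have hr3 : 2 / (r : ℝ) ≤ 2 / 3 := div_le_div_of_nonneg_left (by norm_num) (by norm_num) hr'
  have hK : (0 : ℝ) ≤ K := by positivity
  have hqn : 0 < qq r * n := by positivity
  have hqn1 : (qq r * n : ℝ) ≠ 0 := hqn.ne'
  have hs1 : 1 ≤ Real.sqrt n := by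
    rw [Real.one_le_sqrt]; exact hn1'
  have hs0 : 0 ≤ Real.sqrt n := by linarith
  have he10 : 0 ≤ 1 / (4 * (r : ℝ) ^ 2) := by positivity
  set s := Real.sqrt n
  set e1 := 1 / (4 * (r : ℝ) ^ 2) with he1
  set q := qq r with hqd
  set C8 := C ^ 2 + C * K + 2 * K ^ 2 + r with hC8
  have hC80 : 0 ≤ C8 := by positivity
  have hd : ∀ i, d i = t i * (q * n₁) := fun i => by
    rw [ht i]; field_simp
  have hst0 : 0 ≤ ∑ i ∈ U, t i := sum_nonneg fun i hi => (ht01 i hi).1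
  have hstK : ∑ i ∈ U, t i ≤ K := by
    calc ∑ i ∈ U, t i ≤ ∑ i ∈ U, (1 : ℝ) := sum_le_sum fun i hi => (ht01 i hi).2
      _ = U.card := by simp
      _ ≤ K := by exact_mod_cast hU
  have hsd : ∑ i ∈ U, d i = (∑ i ∈ U, t i) * (q * n₁) := by
    rw [sum_mul]; exact sum_congr rfl fun i _ => hd i
  set T := ∑ i ∈ U, t i with hT
  obtain ⟨x, hx⟩ : ∃ x : ℝ, x = B / (q * n) := ⟨_, rfl⟩
  have hDx : (B : ℝ) = x * (q * n) := by rw [hx]; field_simp
  have hx1 : 0 ≤ x := by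
    rw [hx]; positivity
  have hx2 : x ≤ 2 / (r : ℝ) - ε := by
    rw [hDx] at h2; exact le_of_mul_le_mul_right h2 hqn
  obtain ⟨ξ, hξ⟩ : ∃ ξ : ℝ, ξ = (k : ℝ) ^ 2 / (2 * n) + k / n * T + e / (q * n)
    + dT / (2 * q * n) := ⟨_, rfl⟩
  have hn1k : (n₁ : ℝ) = n + k := by rw [hk]; ring
  have hkC : |(k : ℝ)| ≤ C := by rw [hk]; exact hk'
  have hξn : |ξ * n| ≤ C8 := by
    have e1 : ξ * n = (k : ℝ) ^ 2 / 2 + k * T + e / q + dT / (2 * q) := by
      rw [hξ]; field_simp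
    rw [e1]
    have a1 : (k : ℝ) ^ 2 ≤ C ^ 2 := by
      rw [← sq_abs]; exact pow_le_pow_left₀ (abs_nonneg _) hkC 2
    have a2 : |(k : ℝ) * T| ≤ C * K := by
      rw [abs_mul, abs_of_nonneg hst0]
      exact mul_le_mul hkC hstK hst0 hC
    have a3 : e / q ≤ 2 * K ^ 2 := by
      rw [div_le_iff₀ hq0]
      have : 2 * (K : ℝ) ^ 2 * (1 / 2) ≤ 2 * K ^ 2 * q :=
        mul_le_mul_of_nonneg_left (by linarith) (by positivity)
      linarith
    have a4 : dT / (2 * q) ≤ r := by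
      rw [div_le_iff₀ (by positivity)]
      have : (r : ℝ) * 1 ≤ r * (2 * q) := mul_le_mul_of_nonneg_left (by linarith) hr0.le
      linarith
    have a5 : 0 ≤ e / q := by positivity
    have a6 : 0 ≤ dT / (2 * q) := by positivity
    have a7 := abs_le.mp a2
    have a8 : (0 : ℝ) ≤ (k : ℝ) ^ 2 := sq_nonneg _
    have b1 : 0 ≤ C ^ 2 := sq_nonneg _
    have b2 : 0 ≤ (K : ℝ) ^ 2 := sq_nonneg _
    have a71 := a7.1
    have a72 := a7.2
    clear a7 hrel h3 hd ht hsd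
    rw [abs_le, hC8]
    constructor <;> linarith
  have hξ' : |ξ| ≤ C8 / n := by
    rw [le_div_iff₀ hn']
    rwa [abs_mul, abs_of_pos hn'] at hξn
  have hξ2 : |ξ| ≤ ε / 2 := by
    apply hξ'.trans
    rw [div_le_iff₀ hn']
    rw [div_le_iff₀ hε] at hbig
    linarith
  have hξa := abs_le.mp hξ2
  have hξb := abs_le.mp hξ'
  refine ⟨x + ξ, by linarith [hξb.1], by linarith, ?_, ?_⟩
  · rw [hx, hξ]
    have : q * ((n : ℝ) + k) ^ 2 - dv + 2 * (T * (q * (n + k))) + 2 * e - 2 * a + 2 * b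
      = q * (n : ℝ) ^ 2 - dT - 2 * B := by
      rw [← hn1k, ← hsd]; exact hrel
    field_simp
    linear_combination this
  · have hsum : ∑ i ∈ U, 2 * d i * (q - d i / n₁)
        = (∑ i ∈ U, t i * (1 - t i)) * (2 * q ^ 2 * n₁) := by
      rw [sum_mul]
      refine sum_congr rfl fun i _ => ?_
      rw [hd i]; field_simp
    set S := ∑ i ∈ U, t i * (1 - t i) with hS
    have hS0 : 0 ≤ S := sum_nonneg fun i hi =>
      mul_nonneg (ht01 i hi).1 (by linarith [(ht01 i hi).2])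
    have hSK : S ≤ K := by
      refine le_trans (sum_le_sum fun i hi => ?_) hstK
      have h0 := (ht01 i hi).1
      have := mul_nonneg h0 h0
      linarith
    have hden : 0 < 2 * q ^ 2 * n := by positivity
    have h2q : 1 / 2 ≤ 2 * q ^ 2 := by
      have : (2 / 3 : ℝ) ^ 2 ≤ q ^ 2 := pow_le_pow_left₀ (by norm_num) hq 2
      linarith
    rw [hsum] at h3
    have h4 : S * (n₁ / n) + (1 - e1 / (2 * q)) * (a / (q * n) + b / (q * n))
        + (1 - 2 / (r : ℝ)) * (dv / (2 * q * n))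
        ≤ (1 - 2 / (r : ℝ)) * x + C * s / (2 * q ^ 2 * n) := by
      have e1' : S * (n₁ / n) + (1 - e1 / (2 * q)) * (a / (q * n) + b / (q * n))
        + (1 - 2 / (r : ℝ)) * (dv / (2 * q * n)) = ((2 * q - e1) * (a + b)
          + q * (1 - 2 / (r : ℝ)) * dv + S * (2 * q ^ 2 * n₁)) / (2 * q ^ 2 * n) := by
        field_simp
        ring
      have e2' : (1 - 2 / (r : ℝ)) * x + C * s / (2 * q ^ 2 * n)
          = (2 * q * (1 - 2 / (r : ℝ)) * B + C * s) / (2 * q ^ 2 * n) := by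
        rw [hDx]
        field_simp
      rw [e1', e2']
      apply div_le_div_of_nonneg_right _ hden.le
      linarith
    have h5 : C * s / (2 * q ^ 2 * n) ≤ 2 * C * s / n := by
      rw [div_le_div_iff₀ hden hn']
      calc C * s * n = 2 * C * s * (1 / 2 * n) := by ring
        _ ≤ 2 * C * s * (2 * q ^ 2 * n) := by gcongr
    have h6 : S - C * K / n ≤ S * (n₁ / n) := by
      have e1' : S * (n₁ / n) = S + S * k / n := by rw [hn1k]; field_simp
      have e2' : -(C * K) ≤ S * k := by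
        have e0 : |S * k| ≤ K * C := by
          rw [abs_mul, abs_of_nonneg hS0]
          exact mul_le_mul hSK hkC (abs_nonneg _) hK
        have := (abs_le.mp e0).1
        linarith
      have e3' : -(C * K) / n ≤ S * k / n := div_le_div_of_nonneg_right e2' hn'.le
      rw [e1']
      have e4' : -(C * K) / n = -(C * K / n) := neg_div _ _
      linarith
    have h7 : (1 - e1) * (a / (q * n) + b / (q * n))
        ≤ (1 - e1 / (2 * q)) * (a / (q * n) + b / (q * n)) := by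
      apply mul_le_mul_of_nonneg_right _ (by positivity)
      have : e1 / (2 * q) ≤ e1 := div_le_self he10 (by linarith)
      linarith
    have h8 : (1 - 2 / (r : ℝ)) * x ≤ (1 - 2 / (r : ℝ)) * (x + ξ) + C8 / n := by
      have e1' : -(C8 / n) ≤ ξ := (abs_le.mp hξ').1
      have e2' : 0 ≤ C8 / n := by positivity
      have e3' : 0 ≤ 1 - 2 / (r : ℝ) := by linarith
      have e4' : (1 - 2 / (r : ℝ)) * (-(C8 / n)) ≤ (1 - 2 / (r : ℝ)) * ξ :=
        mul_le_mul_of_nonneg_left e1' e3'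
      have e5' : (1 - 2 / (r : ℝ)) * (C8 / n) ≤ 1 * (C8 / n) :=
        mul_le_mul_of_nonneg_right (by linarith) e2'
      rw [mul_add]
      linarith
    have h9 : (C * K + C8 + 2 * C) * s / n
        = C * K * s / n + C8 * s / n + 2 * C * s / n := by ring
    have h10 : C * K / n ≤ C * K * s / n := by
      apply div_le_div_of_nonneg_right _ hn'.le
      exact le_mul_of_one_le_right (by positivity) hs1
    have h11 : C8 / n ≤ C8 * s / n := by
      apply div_le_div_of_nonneg_right _ hn'.le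
      exact le_mul_of_one_le_right (by positivity) hs1
    rw [h9]
    linarith

end ItemOPUE

open ItemOPUE in
theorem prfOPUE : OPUD_statement → OPUE_statement := by
  intro hO r K ε c C hr hε hc hc2 hC
  obtain ⟨γ, hγ, hOPT⟩ := hO r (ε / 2) c hr (by linarith) hc hc2
  obtain ⟨C8, hC8⟩ : ∃ C8 : ℝ, C8 = C ^ 2 + C * K + 2 * K ^ 2 + r := ⟨_, rfl⟩
  obtain ⟨C9, hC9⟩ : ∃ C9 : ℝ, C9 = C * K + (C ^ 2 + C * K + 2 * K ^ 2 + r) + 2 * C :=
    ⟨_, rfl⟩
  have hC80 : 0 ≤ C8 := by rw [hC8]; positivity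
  have hC90 : 0 ≤ C9 := by rw [hC9]; positivity
  obtain ⟨C10, hC10⟩ : ∃ C10 : ℝ, C10 = C9 + C8 := ⟨_, rfl⟩
  have hC100 : 0 ≤ C10 := by rw [hC10]; positivity
  obtain ⟨hq, hq1⟩ := qq_bd hr
  have hr' : (3 : ℝ) ≤ r := by exact_mod_cast hr
  have hr3 : 1 / (r : ℝ) ≤ 1 / 3 := one_div_le_one_div_of_le (by norm_num) hr'
  have hr2 : 2 / (r : ℝ) ≤ 2 / 3 := div_le_div_of_nonneg_left (by norm_num) (by norm_num) hr'
  have he1 : 0 ≤ 1 / (4 * (r : ℝ) ^ 2) := by positivity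
  have he2 : 1 / (4 * (r : ℝ) ^ 2) ≤ 1 := by
    rw [div_le_one (by positivity)]
    nlinarith
  obtain ⟨n₀, hn₀⟩ : ∃ n₀ : ℕ, C + 2 * (C ^ 2 + C * K + 2 * K ^ 2 + r) / ε
      + 2 * C8 / ε + (C10 / γ) ^ 2 + 1 < n₀ := exists_nat_gt _
  have t2 : 0 ≤ 2 * (C ^ 2 + C * K + 2 * K ^ 2 + r) / ε := by positivity
  have t4 : 0 ≤ 2 * C8 / ε := by positivity
  have t3 : 0 ≤ (C10 / γ) ^ 2 := by positivity
  refine ⟨⌈C10 / γ⌉₊, n₀, ?_⟩
  intro n n₁ B dv dT a b e ι U d hn h2 hdv hdT hdT' ha hb he he' hU hk7 hd hrel h3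
  have hnn : (n₀ : ℝ) ≤ n := by exact_mod_cast hn
  have hn' : (0 : ℝ) < n := by linarith
  have hn1' : (1 : ℝ) ≤ n := by linarith
  have hn0 : 0 < n := by exact_mod_cast hn'
  have hn₁' : (0 : ℝ) < n₁ := by
    have := (abs_le.mp hk7).1
    linarith
  have hn₁ : 0 < n₁ := by exact_mod_cast hn₁'
  have hq0 : 0 < qq r := by linarith
  have hqn₁ : 0 < qq r * n₁ := by positivity
  have hqn : 0 < qq r * n := by positivity
  have htc : ∀ i ∈ U, c ≤ d i / (qq r * n₁) ∧ d i / (qq r * n₁) ≤ 1 - c := fun i hi => by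
    rw [le_div_iff₀ hqn₁, div_le_iff₀ hqn₁]
    exact hd i hi
  obtain ⟨x', hx1, hx2, hx3, hx4⟩ := step4 r K ε C n n₁ B dv dT a b e ((n₁ : ℤ) - n) U d
    (fun i => d i / (qq r * n₁)) hr hn0 hn₁ hε hdv hdT hdT' hC ha hb he he' hU
    (by push_cast; ring) hk7 (fun _ => rfl)
    (fun i hi => ⟨hc.le.trans (htc i hi).1, by linarith [(htc i hi).2]⟩) h2 hrel
    (by linarith) h3
  rw [← hC9] at hx4
  rw [← hC8] at hx1
  have hss : Real.sqrt n * Real.sqrt n = n := Real.mul_self_sqrt hn'.le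
  have hsp : 0 < Real.sqrt n := Real.sqrt_pos.2 hn'
  have hs1 : 1 ≤ Real.sqrt n := by
    rw [Real.one_le_sqrt]; exact hn1'
  have hsn : Real.sqrt n / n = 1 / Real.sqrt n := by
    rw [div_eq_div_iff hn'.ne' hsp.ne', hss, one_mul]
  -- the nonnegative part of `x'`
  obtain ⟨y, hy⟩ : ∃ y : ℝ, y = max x' 0 := ⟨_, rfl⟩
  have hy0 : 0 ≤ y := by rw [hy]; exact le_max_right _ _
  have hyx : x' ≤ y := by rw [hy]; exact le_max_left _ _
  have hCn : 0 ≤ C8 / n := by positivity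
  have hyx2 : y - x' ≤ C8 / n := by
    have : y ≤ x' + C8 / n := by
      rw [hy]
      exact max_le (by linarith) (by linarith)
    linarith
  have hC8n : C8 / n ≤ C8 * Real.sqrt n / n := by
    apply div_le_div_of_nonneg_right _ hn'.le
    exact le_mul_of_one_le_right hC80 hs1
  have hεr : ε / 2 ≤ 2 / (r : ℝ) := by
    have hB : (0 : ℝ) ≤ (2 / (r : ℝ) - ε) * (qq r * n) := le_trans (by positivity) h2
    have := nonneg_of_mul_nonneg_left hB hqn
    linarith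
  have hy2 : y ≤ 2 / (r : ℝ) - ε / 2 := by
    rw [hy]
    exact max_le hx2 (by linarith)
  obtain ⟨al, hal⟩ : ∃ al : ℝ, al = a / (qq r * n) + (y - x') := ⟨_, rfl⟩
  have ha1 : 0 ≤ a / (qq r * n) := by positivity
  have hb1 : 0 ≤ b / (qq r * n) := by positivity
  have hal1 : a / (qq r * n) ≤ al := by rw [hal]; linarith
  have key := hOPT ι U (fun i => d i / (qq r * n₁)) y al (b / (qq r * n))
    (dv / (2 * qq r * n)) ((n₁ : ℤ) - n) hy0 hy2 (ha1.trans hal1) hb1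
    (by positivity) htc (by rw [hal]; linarith)
  have hcost : ∑ i ∈ U, d i / (qq r * n₁) * (1 - d i / (qq r * n₁))
        + (1 - 1 / (4 * (r : ℝ) ^ 2)) * (al + b / (qq r * n))
        + (1 - 2 / (r : ℝ)) * (dv / (2 * qq r * n)) ≤ (1 - 2 / (r : ℝ)) * y
        + C10 * Real.sqrt n / n := by
    have e1 : (1 - 1 / (4 * (r : ℝ) ^ 2)) * (al + b / (qq r * n)) =
        (1 - 1 / (4 * (r : ℝ) ^ 2)) * (a / (qq r * n) + b / (qq r * n))
          + (1 - 1 / (4 * (r : ℝ) ^ 2)) * (y - x') := by rw [hal]; ring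
    have e2 : (1 - 1 / (4 * (r : ℝ) ^ 2)) * (y - x') ≤ 1 * (y - x') :=
      mul_le_mul_of_nonneg_right (by linarith) (by linarith)
    have e3 : (1 - 2 / (r : ℝ)) * x' ≤ (1 - 2 / (r : ℝ)) * y :=
      mul_le_mul_of_nonneg_left hyx (by linarith)
    have e4 : C10 * Real.sqrt n / n = C9 * Real.sqrt n / n + C8 * Real.sqrt n / n := by
      rw [hC10]; ring
    rw [e1, e4]
    linarith
  have hE : C10 * Real.sqrt n / n = C10 / Real.sqrt n := by
    rw [mul_div_assoc, hsn]; ring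
  rw [hE] at hcost
  rcases key with key | ⟨hc1, hk0, key⟩
  · exfalso
    have h4 : γ ≤ C10 / Real.sqrt n := by linarith
    rw [le_div_iff₀ hsp] at h4
    have h5 : Real.sqrt n ≤ C10 / γ := by
      rw [le_div_iff₀ hγ]; linarith
    have h6 : (n : ℝ) ≤ (C10 / γ) ^ 2 := by
      rw [← hss, sq]
      exact mul_le_mul h5 h5 hsp.le (by positivity)
    linarith
  · have hnn₁ : n₁ = n := by
      have : (n₁ : ℤ) = n := by linarith
      exact_mod_cast this
    refine ⟨hc1, hnn₁, ?_⟩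
    rw [hc1, Finset.sum_empty, zero_add] at hcost
    have h4' : γ * (al + b / (qq r * n)) ≤ C10 / Real.sqrt n := by linarith
    have h4 : γ * (a / (qq r * n) + b / (qq r * n)) ≤ C10 / Real.sqrt n := by
      refine le_trans (mul_le_mul_of_nonneg_left ?_ hγ.le) h4'
      linarith
    have h5 : (a + b) / n ≤ a / (qq r * n) + b / (qq r * n) := by
      rw [← add_div]
      apply div_le_div_of_nonneg_left (by positivity) hqn
      have : qq r * (n : ℝ) ≤ 1 * n := mul_le_mul_of_nonneg_right hq1.le hn'.le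
      linarith
    have h6 : γ * ((a + b) / n) ≤ C10 / Real.sqrt n := le_trans (by gcongr) h4
    have h7 : a + b ≤ C10 / γ * Real.sqrt n := by
      rw [le_div_iff₀ hsp] at h6
      have h8 : γ * ((a + b) / n) * Real.sqrt n = γ * (a + b) / Real.sqrt n := by
        rw [show γ * ((a + b) / n) * Real.sqrt n = γ * (a + b) * (Real.sqrt n / n) by ring, hsn]
        ring
      rw [h8, div_le_iff₀ hsp] at h6
      rw [div_mul_eq_mul_div, le_div_iff₀ hγ]
      linarith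
    exact h7.trans (mul_le_mul_of_nonneg_right (Nat.le_ceil _) hsp.le)

end MP0c3a8f

end

section

/-!
# OTC: the real inequality of the optimisation in the transition range
-/

set_option autoImplicit false

namespace MP0c3a8f

namespace OTCx

/-- negative integers -/
theorem cN {q e x t α β ν κ : ℝ} (hq : 0 ≤ q) (he2 : e ≤ 1 / 36) (hx : 1 / 4 ≤ x)
    (hxe : 1 / 4 ≤ x - e) (ht0 : 0 ≤ t) (ht1 : t ≤ 1) (hα : 0 ≤ α) (hν : 0 ≤ ν) (hκ : κ ≤ -1)
    (h : t + β - α - ν + κ = x) :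
    x * (1 - x) + 1 / 16 ≤ t * (1 - t) + (1 - e) * (α + β) + q * ν := by
  have h1 : 0 ≤ t * (1 - t) := mul_nonneg ht0 (by linarith)
  have h2 : 0 ≤ (1 - e) * α := mul_nonneg (by linarith) hα
  have h3 : 0 ≤ q * ν := mul_nonneg hq hν
  have h4 : (1 - e) * x ≤ (1 - e) * β := mul_le_mul_of_nonneg_left (by linarith) (by linarith)
  have h5 : 1 / 4 * (1 / 4) ≤ x * (x - e) := mul_le_mul hx hxe (by norm_num) (by linarith)
  linarith

/-- the integer zero, `t ≤ x` -/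
theorem c0a {q e x t α β ν : ℝ} (he2 : e ≤ 1 / 36) (hq : 0 ≤ q)
    (hxe : 1 / 4 ≤ x - e) (ht0 : 0 ≤ t) (htx : t ≤ x) (hα : 0 ≤ α) (hν : 0 ≤ ν)
    (h : t + β - α - ν = x) :
    x * (1 - x) + 1 / 4 * (α + β + ν) ≤ t * (1 - t) + (1 - e) * (α + β) + q * ν := by
  have h1 : β = x - t + α + ν := by linarith
  have h2 : 0 ≤ (x - t) * (x - e - 1 / 4 + t) := mul_nonneg (by linarith) (by linarith)
  have h3 : 0 ≤ (1 / 2 - e) * α := mul_nonneg (by linarith) hα
  have h4 : 0 ≤ (1 / 2 - e) * ν := mul_nonneg (by linarith) hν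
  have h5 : 0 ≤ q * ν := mul_nonneg hq hν
  subst h1
  linarith

/-- the integer zero, `t ≤ x`, with the two distances -/
theorem c0a' {q e x t α β ν : ℝ} (he2 : e ≤ 1 / 36) (hq : 0 ≤ q)
    (hxe : 1 / 4 ≤ x - e) (ht0 : t = 0) (hx : 1 / 4 ≤ x) (hα : 0 ≤ α) (hν : 0 ≤ ν)
    (h : t + β - α - ν = x) :
    x * (1 - x) + 1 / 16 ≤ t * (1 - t) + (1 - e) * (α + β) + q * ν := by
  subst ht0
  have := c0a he2 hq hxe le_rfl (by linarith) hα hν h
  linarith

/-- the integer zero, `t > x` -/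
theorem c0b {ρ e x t α β ν : ℝ} (hρ : ρ ≤ 2 / 3) (he : e ≤ ρ / 2)
    (hα : 0 ≤ α) (hβ : 0 ≤ β)
    (h : t + β - α - ν = x) :
    t * (1 - t) + (1 - ρ) * (t - x) + ρ / 2 * α + β ≤
      t * (1 - t) + (1 - e) * (α + β) + (1 - ρ) * ν := by
  have h1 : ν = t - x + β - α := by linarith
  have h2 : 0 ≤ (ρ / 2 - e) * α := mul_nonneg (by linarith) hα
  have h3 : 0 ≤ (1 - e - ρ) * β := mul_nonneg (by linarith) hβ
  subst h1
  linarith

/-- the integer zero, general bound -/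
theorem c0gen {ρ e x t α β ν : ℝ} (hρ : ρ ≤ 2 / 3) (hρ0 : 0 < ρ) (he : e ≤ ρ / 2)
    (he2 : e ≤ 1 / 36) (hxe : 1 / 4 ≤ x - e) (ht0 : 0 ≤ t) (ht1 : t ≤ 1)
    (hα : 0 ≤ α) (hβ : 0 ≤ β) (hν : 0 ≤ ν) (h : t + β - α - ν = x) :
    min (x * (1 - x)) ((1 - ρ) * (1 - x)) ≤
      t * (1 - t) + (1 - e) * (α + β) + (1 - ρ) * ν := by
  by_cases htx : t ≤ x
  · refine (min_le_left _ _).trans ?_
    have := c0a he2 (by linarith : (0 : ℝ) ≤ 1 - ρ) hxe ht0 htx hα hν h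
    linarith
  · push Not at htx
    have := c0b hρ he hα hβ h
    have h5 : 0 ≤ ρ / 2 * α := mul_nonneg (by linarith) hα
    by_cases hxq : x ≤ 1 - ρ
    · refine (min_le_left _ _).trans ?_
      have h6 : 0 ≤ (t - x) * ((1 - t) + (1 - ρ - x)) := mul_nonneg (by linarith) (by linarith)
      linarith
    · push Not at hxq
      refine (min_le_right _ _).trans ?_
      have h6 : 0 ≤ (1 - t) * (t - (1 - ρ)) := mul_nonneg (by linarith) (by linarith)
      linarith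

/-- the integer zero, one vertex -/
theorem c0one {ρ e x t α β ν c γ : ℝ} (hρ : ρ ≤ 2 / 3) (hρ0 : 0 < ρ) (he : e ≤ ρ / 2)
    (he2 : e ≤ 1 / 36) (hxe : 1 / 4 ≤ x - e) (ht0 : 0 ≤ t) (ht1 : t ≤ 1 - c)
    (hxc : x ≤ 1 - ρ + c / 2) (hγ0 : 0 ≤ γ) (hγ1 : γ ≤ 1 / 16) (hγ2 : γ ≤ c / 3)
    (hα : 0 ≤ α) (hβ : 0 ≤ β) (hν : 0 ≤ ν) (h : t + β - α - ν = x) :
    x * (1 - x) + γ * (α + β + ν) ≤ t * (1 - t) + (1 - e) * (α + β) + (1 - ρ) * ν := by
  by_cases htx : t ≤ x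
  · have := c0a he2 (by linarith : (0 : ℝ) ≤ 1 - ρ) hxe ht0 htx hα hν h
    have h5 : γ * (α + β + ν) ≤ 1 / 4 * (α + β + ν) :=
      mul_le_mul_of_nonneg_right (by linarith) (by linarith)
    linarith
  · push Not at htx
    have := c0b hρ he hα hβ h
    have h6 : 0 ≤ (t - x) * ((1 - t - c) + (c / 2 - (x - (1 - ρ)))) :=
      mul_nonneg (by linarith) (by linarith)
    have h7 : γ * (t - x) ≤ c / 2 * (t - x) :=
      mul_le_mul_of_nonneg_right (by linarith) (by linarith)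
    have h8 : γ * β ≤ 1 / 16 * β := mul_le_mul_of_nonneg_right (by linarith) hβ
    have h9 : 0 ≤ ρ * α := mul_nonneg (by linarith) hα
    have h10 : α + β + ν = t - x + 2 * β := by linarith
    rw [h10]
    linarith

/-- the integer one, no vertex -/
theorem c1z {ρ e x α β ν γ : ℝ} (hρ : ρ ≤ 2 / 3) (hρ0 : 0 < ρ) (he : e ≤ ρ / 2)
    (he2 : e ≤ 1 / 36) (hγ : γ ≤ ρ / 6) (hα : 0 ≤ α) (hβ : 0 ≤ β)
    (h : β - α - ν + 1 = x) :
    (1 - ρ) * (1 - x) + γ * (α + β) ≤ (1 - e) * (α + β) + (1 - ρ) * ν := by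
  have h1 : ν = 1 - x + β - α := by linarith
  have h2 : 0 ≤ (ρ / 2 - e) * α := mul_nonneg (by linarith) hα
  have h3 : 0 ≤ (1 - e) * β := mul_nonneg (by linarith) hβ
  have h5 : γ * (α + β) ≤ ρ / 6 * (α + β) := mul_le_mul_of_nonneg_right hγ (by linarith)
  have h6 : 0 ≤ (1 - ρ - ρ / 6) * β := mul_nonneg (by linarith) hβ
  have h7 : 0 ≤ ρ * α := mul_nonneg (by linarith) hα
  subst h1
  linarith

/-- positive integers -/
theorem cP {ρ e x t α β ν κ : ℝ} (hρ : ρ ≤ 2 / 3) (he : e ≤ ρ)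
    (ht0 : 0 ≤ t) (ht1 : t ≤ 1) (hα : 0 ≤ α) (hβ : 0 ≤ β) (h : t + β - α - ν + κ = x) :
    (1 - ρ) * (1 - x) + (1 - ρ) * t + (1 - ρ) * (κ - 1) ≤
      t * (1 - t) + (1 - e) * (α + β) + (1 - ρ) * ν :=
  OPUCx.kP hρ he ht0 ht1 hα hβ (by linarith)

theorem cP' {ρ e x t α β ν κ b : ℝ} (hρ : ρ ≤ 2 / 3) (he : e ≤ ρ)
    (ht0 : 0 ≤ t) (ht1 : t ≤ 1) (hα : 0 ≤ α) (hβ : 0 ≤ β) (h : t + β - α - ν + κ = x)
    (hb : 0 ≤ b) (hb2 : b ≤ t + (κ - 1)) :
    (1 - ρ) * (1 - x) + b / 3 ≤ t * (1 - t) + (1 - e) * (α + β) + (1 - ρ) * ν := by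
  have h1 := cP hρ he ht0 ht1 hα hβ h
  have h2 : (1 - ρ) * b ≤ (1 - ρ) * (t + (κ - 1)) := mul_le_mul_of_nonneg_left hb2 (by linarith)
  have h3 : 0 ≤ (2 / 3 - ρ) * b := mul_nonneg (by linarith) hb
  linarith

end OTCx

open OTCx OPTCx OPUCx in
theorem prfOTC : OTC_statement := by
  intro r c hr hc hc2
  have hr0 : (3 : ℝ) ≤ (r : ℝ) := by exact_mod_cast hr
  have hr1 : (0 : ℝ) < (r : ℝ) := by linarith
  set ε : ℝ := min (c / 2) (1 / 24) with hε
  have e1 : ε ≤ c / 2 := min_le_left _ _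
  have e2 : ε ≤ 1 / 24 := min_le_right _ _
  have epos : 0 < ε := lt_min (by positivity) (by norm_num)
  set γ : ℝ := min (2 * c ^ 2) (min (1 / 16) (c / 3)) with hγ
  have g1 : γ ≤ 2 * c ^ 2 := min_le_left _ _
  have g2 : γ ≤ 1 / 16 := (min_le_right _ _).trans (min_le_left _ _)
  have g3 : γ ≤ c / 3 := (min_le_right _ _).trans (min_le_right _ _)
  have gpos : 0 < γ := lt_min (by positivity) (lt_min (by norm_num) (by positivity))
  refine ⟨ε, epos, γ, gpos, ?_⟩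
  intro ι U t x α β ν k hx hα hβ hν ht hsum
  classical
  clear_value γ ε
  have hir : 1 / (r : ℝ) = 2 / (r : ℝ) / 2 := by ring
  set ρ : ℝ := 2 / (r : ℝ) with hρ
  set e : ℝ := 1 / (4 * (r : ℝ) ^ 2) with he
  have hρ1 : ρ ≤ 2 / 3 := by
    rw [hρ, div_le_div_iff₀ hr1 (by norm_num)]; linarith
  have hρ0 : 0 < ρ := by rw [hρ]; positivity
  have he0 : 0 ≤ e := by rw [he]; positivity
  have hee : e = ρ ^ 2 / 16 := by rw [he, hρ]; field_simp; norm_num
  have he1 : e ≤ ρ / 2 := by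
    rw [hee]; nlinarith
  have he' : e ≤ ρ := by linarith
  have he2 : e ≤ 1 / 36 := by
    rw [hee]
    have : ρ ^ 2 ≤ (2 / 3) ^ 2 := pow_le_pow_left₀ hρ0.le hρ1 2
    linarith
  have hc3 : c < ρ / 2 := by rw [← hir]; exact hc2
  obtain ⟨hx1, hx2⟩ := abs_le.1 hx
  have hx3 : 1 / 4 ≤ x := by linarith
  have hx4 : 1 / 4 ≤ x - e := by linarith
  have hq0 : 0 ≤ 1 - ρ := by linarith
  -- the sum of the `t i`
  set s := ∑ i ∈ U, t i with hs
  have f0 := Int.fract_nonneg s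
  have f1 := (Int.fract_lt_one s).le
  have f2 := Int.floor_add_fract s
  have hGU : ∑ i ∈ U, t i * (1 - t i) = ∑ i ∈ U, G (t i) := by
    refine Finset.sum_congr rfl fun i hi => ?_
    obtain ⟨a, b⟩ := ht i hi
    rw [G_self (by linarith) (by linarith)]
  have hGs : G s = Int.fract s * (1 - Int.fract s) := rfl
  have hk : Int.fract s + β - α - ν + ((k + ⌊s⌋ : ℤ) : ℝ) = x := by
    push_cast
    linarith
  have m1 := min_le_left (x * (1 - x)) ((1 - ρ) * (1 - x))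
  have m2 := min_le_right (x * (1 - x)) ((1 - ρ) * (1 - x))
  -- the general bound
  have hgen : min (x * (1 - x)) ((1 - ρ) * (1 - x)) ≤ G s + (1 - e) * (α + β) + (1 - ρ) * ν := by
    rw [hGs]
    rcases lt_trichotomy (k + ⌊s⌋) 0 with h | h | h
    · have h' : ((k + ⌊s⌋ : ℤ) : ℝ) ≤ -1 := by exact_mod_cast (by omega : k + ⌊s⌋ ≤ -1)
      have := cN hq0 he2 hx3 hx4 f0 f1 hα hν h' hk
      exact m1.trans (by linarith only [this])
    · rw [h, Int.cast_zero, add_zero] at hk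
      exact c0gen hρ1 hρ0 he1 he2 hx4 f0 f1 hα hβ hν hk
    · have h' : (1 : ℝ) ≤ ((k + ⌊s⌋ : ℤ) : ℝ) := by exact_mod_cast (by omega : 1 ≤ k + ⌊s⌋)
      have := cP' hρ1 he' f0 f1 hα hβ hk le_rfl (by linarith only [f0, h'])
      exact m2.trans (by linarith only [this])
  rcases Nat.lt_or_ge 1 U.card with hU | hU
  · left
    obtain ⟨i, hi, j, hj, hij⟩ := Finset.one_lt_card.1 hU
    have hj' : j ∈ U.erase i := Finset.mem_erase.2 ⟨hij.symm, hj⟩
    obtain ⟨a, b⟩ := ht i hi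
    obtain ⟨a', b'⟩ := ht j hj
    have p := G_pair hc a b a' b'
    have q1 : s = (t i + t j) + ∑ l ∈ (U.erase i).erase j, t l := by
      rw [hs, ← Finset.add_sum_erase U t hi, ← Finset.add_sum_erase (U.erase i) t hj']
      ring
    have q2 : ∑ l ∈ U, t l * (1 - t l) = (t i * (1 - t i) + t j * (1 - t j)) +
        ∑ l ∈ (U.erase i).erase j, G (t l) := by
      rw [← Finset.add_sum_erase U (fun l => t l * (1 - t l)) hi,
        ← Finset.add_sum_erase (U.erase i) (fun l => t l * (1 - t l)) hj', add_assoc]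
      congr 2
      refine Finset.sum_congr rfl fun l hl => ?_
      obtain ⟨a, b⟩ := ht l (Finset.mem_of_mem_erase (Finset.mem_of_mem_erase hl))
      rw [G_self (by linarith) (by linarith)]
    have q3 := G_sum ((U.erase i).erase j) t
    have q4 := G_add (t i + t j) (∑ l ∈ (U.erase i).erase j, t l)
    rw [← q1] at q4
    rw [q2]
    linarith only [hgen, p, q3, q4, g1]
  · rcases Nat.lt_or_ge U.card 1 with hU0 | hU1
    · have hU' : U = ∅ := Finset.card_eq_zero.1 (by omega)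
      have hs0 : s = 0 := by rw [hs, hU', Finset.sum_empty]
      have hz : ∑ i ∈ U, t i * (1 - t i) = 0 := by rw [hU', Finset.sum_empty]
      rw [hs0, Int.fract_zero, Int.floor_zero, add_zero] at hk
      rw [hz]
      rcases lt_trichotomy k 1 with h | h | h
      · left
        rcases lt_or_eq_of_le (show k ≤ 0 by omega) with h0 | h0
        · have h' : (k : ℝ) ≤ -1 := by exact_mod_cast (by omega : k ≤ -1)
          have := cN hq0 he2 hx3 hx4 le_rfl zero_le_one hα hν h' hk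
          linarith only [this, m1, g2]
        · rw [h0, Int.cast_zero, add_zero] at hk
          have := c0a' he2 hq0 hx4 rfl hx3 hα hν hk
          linarith only [this, m1, g2]
      · right
        right
        refine ⟨hU', h, ?_⟩
        rw [h, Int.cast_one] at hk
        have := c1z (ν := ν) (x := x) hρ1 hρ0 he1 he2 (by linarith only [g3, hc3] : γ ≤ ρ / 6) hα hβ
          (by linarith only [hk])
        linarith only [this]
      · left
        have h' : (2 : ℝ) ≤ (k : ℝ) := by exact_mod_cast (by omega : 2 ≤ k)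
        have := cP' hρ1 he' le_rfl zero_le_one hα hβ hk zero_le_one (by linarith only [h'])
        linarith only [this, m2, g2]
    · have hU' : U.card = 1 := by omega
      obtain ⟨i, hi⟩ := Finset.card_eq_one.1 hU'
      have hsi : s = t i := by rw [hs, hi, Finset.sum_singleton]
      obtain ⟨a, b⟩ := ht i (by rw [hi]; exact Finset.mem_singleton_self i)
      have hfr : Int.fract s = t i := by
        rw [hsi]
        exact Int.fract_eq_self.2 ⟨by linarith only [a, hc], by linarith only [b, hc]⟩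
      have hfl : ⌊s⌋ = 0 := by
        rw [hsi, Int.floor_eq_zero_iff]
        exact ⟨by linarith only [a, hc], by linarith only [b, hc]⟩
      have hsm : ∑ i ∈ U, t i * (1 - t i) = t i * (1 - t i) := by rw [hi, Finset.sum_singleton]
      rw [hfr, hfl, add_zero] at hk
      rw [hsm]
      have ha0 : 0 ≤ t i := by linarith only [a, hc]
      have hb1 : t i ≤ 1 := by linarith only [b, hc]
      rcases lt_trichotomy k 0 with h | h | h
      · left
        have h' : (k : ℝ) ≤ -1 := by exact_mod_cast (by omega : k ≤ -1)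
        have := cN hq0 he2 hx3 hx4 ha0 hb1 hα hν h' hk
        linarith only [this, m1, g2]
      · right
        left
        rw [h, Int.cast_zero, add_zero] at hk
        exact ⟨hU', h, c0one hρ1 hρ0 he1 he2 hx4 ha0 b (by linarith only [hx2, e1]) gpos.le g2 g3
          hα hβ hν hk⟩
      · left
        have h' : (1 : ℝ) ≤ (k : ℝ) := by exact_mod_cast (by omega : 1 ≤ k)
        have := cP' hρ1 he' ha0 hb1 hα hβ hk hc.le (by linarith only [h', a])
        linarith only [this, m2, g3]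

end MP0c3a8f

end

section

/-! Item SBD (helper81): bounded defect for small `D`. -/

set_option autoImplicit false

open Finset

namespace MP0c3a8f

namespace ItemSBD

/-- the sum of the cubes. -/
theorem cub_le {r : ℕ} (σ : Fin r → ℕ) : cub σ ≤ dev σ * Real.sqrt (dev σ) := by
  unfold cub
  have h0 : dev σ * Real.sqrt (dev σ) =
      ∑ t, ((σ t : ℝ) - (∑ s, (σ s : ℝ)) / r) ^ 2 * Real.sqrt (dev σ) := by
    rw [← sum_mul]
    rfl
  rw [h0]
  refine sum_le_sum fun t _ => ?_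
  set x : ℝ := (σ t : ℝ) - (∑ s, (σ s : ℝ)) / r with hx
  have h1 : x ^ 2 ≤ dev σ := by
    unfold dev
    exact single_le_sum (f := fun t => ((σ t : ℝ) - (∑ s, (σ s : ℝ)) / r) ^ 2)
      (fun i _ => sq_nonneg _) (mem_univ t)
  have h2 : x ≤ Real.sqrt (dev σ) := Real.le_sqrt_of_sq_le h1
  have h3 : x ^ 3 = x ^ 2 * x := by ring
  rw [h3]
  exact mul_le_mul_of_nonneg_left h2 (sq_nonneg x)

/-- the final real inequality. -/
theorem real_ineq {q n a b b' D dv dT lam2 k2 cb C1 C2 C0 E s : ℝ} (hq : 2 / 3 ≤ q)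
    (hq1 : q ≤ 1) (hn : 1 ≤ n) (ha : 0 ≤ a) (hb : 0 ≤ b) (hb' : 0 ≤ b') (hC1 : 0 ≤ C1)
    (hC2 : 0 ≤ C2) (hs : 0 ≤ s) (hsd : s ^ 2 = dv) (hdn : dv ≤ n)
    (hab : 16 * (a + b) ≤ n) (hdT : dT ≤ dv)
    (hE1 : 2 * E = q * n ^ 2 - dv - 2 * a + 2 * b) (hE2 : 2 * E = q * n ^ 2 - dT + 2 * D)
    (hcb : cb ≤ dv * s)
    (hk2 : k2 - (q ^ 2 * n ^ 2 - 2 * q ^ 2 * dv + 2 * q ^ 2 * cb / n) ≤ C2)
    (hl : lam2 ≤ k2 - 3 * q * a + 2 * b ^ 2 / n - b * b' / n + C1 * (1 + s) * b ^ 2 / n ^ 2)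
    (hdef : 2 * q * E - lam2 ≤ 2 * D * (q - D / n) + C0) :
    a + dv ≤ 9 * (C0 + (C1 + C2 + 2) + 9 / 4 * (C1 + C2 + 2) ^ 2) ∧
      2 * D * (q - D / n) - ((C1 + C2 + 2) + 9 / 4 * (C1 + C2 + 2) ^ 2) ≤ 2 * q * E - lam2 := by
  have hn0 : 0 < n := by linarith
  have hdv : 0 ≤ dv := by rw [← hsd]; positivity
  -- the cubes
  have h1 : 2 * q ^ 2 * cb / n ≤ 2 * s := by
    rw [div_le_iff₀ hn0]
    have h2 : cb ≤ n * s := hcb.trans (mul_le_mul_of_nonneg_right hdn hs)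
    have h3 : q ^ 2 * cb ≤ n * s := by
      have h4 : q ^ 2 ≤ 1 := pow_le_one₀ (by linarith only [hq]) hq1
      have h5 : 0 ≤ q ^ 2 := sq_nonneg q
      have h6 : 0 ≤ n * s := mul_nonneg hn0.le hs
      calc q ^ 2 * cb ≤ q ^ 2 * (n * s) := mul_le_mul_of_nonneg_left h2 h5
        _ ≤ 1 * (n * s) := mul_le_mul_of_nonneg_right h4 h6
        _ = n * s := one_mul _
    have h4 : 2 * q ^ 2 * cb = 2 * (q ^ 2 * cb) := by ring
    have h5 : 2 * s * n = 2 * (n * s) := by ring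
    rw [h4, h5]
    linarith only [h3]
  -- the error term
  have h2 : C1 * (1 + s) * b ^ 2 / n ^ 2 ≤ C1 * (1 + s) := by
    have hbn : b ^ 2 ≤ n ^ 2 := by
      have : b ≤ n := by linarith
      exact pow_le_pow_left₀ hb this 2
    rw [div_le_iff₀ (by positivity)]
    exact mul_le_mul_of_nonneg_left hbn (by positivity)
  have h3 : 0 ≤ b * b' / n := by positivity
  -- the part of `b`
  obtain ⟨g1, hg1⟩ : ∃ g : ℝ, g = a + (dv - dT) / 2 := ⟨_, rfl⟩
  have hg0 : 0 ≤ g1 := by rw [hg1]; linarith only [ha, hdT]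
  have hbD : b = D + g1 := by rw [hg1]; linarith only [hE1, hE2]
  have hDb : D ≤ b := by linarith only [hbD, hg0]
  have h4 : 2 * q * b - 2 * b ^ 2 / n = 2 * D * (q - D / n) + g1 * (2 * q - 2 * (b + D) / n) := by
    rw [hbD]
    field_simp
    ring
  have h5 : 0 ≤ g1 * (2 * q - 2 * (b + D) / n) := by
    refine mul_nonneg hg0 ?_
    have : 2 * (b + D) / n ≤ 1 := by
      rw [div_le_iff₀ hn0]
      linarith only [hDb, hab, ha, hb]
    linarith only [this, hq]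
  -- the lower bound
  have h6 : 2 * D * (q - D / n) + q * (2 * q - 1) * dv + q * a - (C1 + C2 + 2) * (1 + s) ≤
      2 * q * E - lam2 := by
    have hqE : 2 * q * E = q ^ 2 * n ^ 2 - q * dv - 2 * (q * a) + 2 * q * b := by
      have h7 : 2 * q * E = q * (2 * E) := by ring
      rw [h7, hE1]
      ring
    have hC2s : 0 ≤ C2 * s := mul_nonneg hC2 hs
    have h8 : q * (2 * q - 1) * dv = 2 * q ^ 2 * dv - q * dv := by ring
    have h9 : (C1 + C2 + 2) * (1 + s) = C1 * (1 + s) + C2 + C2 * s + 2 + 2 * s := by ring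
    have h10 : 3 * q * a = 3 * (q * a) := by ring
    rw [hqE, h8, h9]
    rw [h10] at hl
    generalize 2 * q ^ 2 * cb / n = t1 at hk2 h1
    generalize C1 * (1 + s) * b ^ 2 / n ^ 2 = t2 at hl h2
    generalize b * b' / n = t3 at hl h3
    generalize g1 * (2 * q - 2 * (b + D) / n) = t4 at h4 h5
    generalize 2 * D * (q - D / n) = t5 at h4 ⊢
    generalize 2 * b ^ 2 / n = t6 at hl h4
    generalize q * a = t7 at hl ⊢
    generalize q ^ 2 * n ^ 2 = t8 at hk2 ⊢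
    generalize 2 * q ^ 2 * dv = t9 at hk2 ⊢
    generalize C1 * (1 + s) = t10 at h2 ⊢
    generalize 2 * q * b = t11 at h4 ⊢
    linarith only [hk2, hl, h1, h2, h3, h4, h5, hC2s]
  have h7 : 2 / 9 * dv ≤ q * (2 * q - 1) * dv := by
    refine mul_le_mul_of_nonneg_right ?_ hdv
    have e1 : q * (2 * q - 1) - 2 / 9 = (q - 2 / 3) * (2 * q + 1 / 3) := by ring
    have e2 : 0 ≤ (q - 2 / 3) * (2 * q + 1 / 3) :=
      mul_nonneg (by linarith only [hq]) (by linarith only [hq])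
    linarith only [e1, e2]
  have h8 : 2 / 3 * a ≤ q * a := mul_le_mul_of_nonneg_right hq ha
  obtain ⟨c, hc⟩ : ∃ c : ℝ, c = C1 + C2 + 2 := ⟨_, rfl⟩
  rw [← hc] at h6 ⊢
  have h9 : c * s ≤ 1 / 9 * dv + 9 / 4 * c ^ 2 := by
    rw [← hsd]
    have e1 := sq_nonneg (s / 3 - 3 / 2 * c)
    have e2 : (s / 3 - 3 / 2 * c) ^ 2 = 1 / 9 * s ^ 2 - c * s + 9 / 4 * c ^ 2 := by ring
    rw [e2] at e1
    linarith only [e1]
  have h10 : c * (1 + s) = c + c * s := by ring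
  rw [h10] at h6
  generalize 2 * D * (q - D / n) = t5 at h6 hdef ⊢
  generalize q * (2 * q - 1) * dv = t6 at h6 h7
  generalize q * a = t7 at h6 h8
  generalize 2 * q * E - lam2 = t8 at h6 hdef ⊢
  generalize c * s = t9 at h6 h9
  constructor
  · linarith only [h6, h7, h8, h9, hdef, ha, hdv]
  · linarith only [h6, h7, h8, h9, ha, hdv]

end ItemSBD

open ItemSBD in
theorem prfSBD : SLB_statement → KWS_statement → CNTU_statement → DEV_statement →
    SBD_statement := by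
  intro hS hK hC hDv r C₀ hr hC0
  obtain ⟨C1, n₁, hC1, hS1⟩ := hS r hr
  obtain ⟨C', n₂, hK1⟩ := hK r 1 hr zero_le_one
  set c : ℝ := C1 + |C'| + 2 with hc
  have hc0 : 0 ≤ c := by positivity
  obtain ⟨N, hN⟩ := exists_nat_ge (9 * (C₀ + c + 9 / 4 * c ^ 2))
  refine ⟨N, max 1 (max n₁ n₂), ?_⟩
  intro V _ G z g w n D hn hF hw hsum hdev hab hmax hE hdef
  have hn1 : 1 ≤ n := (le_max_left _ _).trans hn
  have hnn1 : n₁ ≤ n := ((le_max_left _ _).trans (le_max_right _ _)).trans hn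
  have hnn2 : n₂ ≤ n := ((le_max_right _ _).trans (le_max_right _ _)).trans hn
  have hexc : ∀ v ∈ (∅ : Finset V), g v = none := fun v hv => absurd hv (Finset.notMem_empty v)
  obtain ⟨e, he, hEc⟩ := hC r V G g ∅ hF.indep hexc
  have he0 : e = 0 := by simp at he; exact he
  rw [he0, sum_empty] at hEc
  have hl := hS1 V G z g w n hF hw hnn1 hsum hdev hab hmax
  have hk := hK1 V (KU G g ∅) g n (ItemLBG.isKU G g ∅ hexc) hnn2 hsum (by rw [one_mul]; exact hdev)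
  obtain ⟨hT1, hT2, hT3, hT4, -, hT6⟩ := hDv r n (siz g) (by omega) hsum
  have hT5 := (hDv r n (tz r n) (by omega) hT1).2.2.2.1
  unfold Sz at hT6
  rw [hT1] at hT6
  have hr' : (r : ℝ) ≠ 0 := by positivity
  have hr3 : (3 : ℝ) ≤ r := by exact_mod_cast hr
  have hq : 2 / 3 ≤ qq r := by
    unfold qq
    have : 1 / (r : ℝ) ≤ 1 / 3 := one_div_le_one_div_of_le (by norm_num) hr3
    linarith
  have hq1 : qq r ≤ 1 := by
    unfold qq
    have : 0 ≤ 1 / (r : ℝ) := by positivity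
    linarith
  have hqn : qq r * (n : ℝ) ^ 2 = (n : ℝ) ^ 2 - (n : ℝ) ^ 2 / r := by
    unfold qq; field_simp
  have hE1 : 2 * (G.edgeSet.ncard : ℝ) = qq r * (n : ℝ) ^ 2 - dev (siz g) -
      2 * ((missSet G g).ncard : ℝ) + 2 * ((lightSet G g ∅).ncard : ℝ) := by
    have h1 := congrArg (Nat.cast : ℕ → ℝ) hEc
    rw [hsum] at h1
    push_cast at h1
    rw [hT4, hqn]
    linarith
  have hE2 : 2 * (G.edgeSet.ncard : ℝ) = qq r * (n : ℝ) ^ 2 - dev (tz r n) + 2 * D := by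
    have h1 := congrArg (Nat.cast : ℕ → ℝ) hT6
    have h2 := congrArg (Nat.cast : ℕ → ℝ) hE
    push_cast at h1 h2
    rw [hT5, hqn, h2]
    linarith
  have hdT : dev (tz r n) ≤ dev (siz g) := by
    rw [hT4, hT5]
    have : (∑ t, (tz r n t : ℝ) ^ 2) ≤ ∑ t, (siz g t : ℝ) ^ 2 := by exact_mod_cast hT2
    linarith
  have hdv0 : 0 ≤ dev (siz g) := by unfold dev; positivity
  have hk2 := ((abs_le.1 hk.1).2).trans (le_abs_self C')
  have key := real_ineq (C2 := |C'|) hq hq1 (by exact_mod_cast hn1 : (1 : ℝ) ≤ n)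
    (Nat.cast_nonneg _) (Nat.cast_nonneg _) (Nat.cast_nonneg ((lightSet G g {w}).ncard)) hC1
    (abs_nonneg C') (Real.sqrt_nonneg (dev (siz g))) (Real.sq_sqrt hdv0) hdev hab
    hdT hE1 hE2 (cub_le (siz g)) hk2 hl hdef
  refine ⟨key.1.trans hN, ?_⟩
  have h2 := key.2
  unfold Def
  have h3 : c + 9 / 4 * c ^ 2 ≤ N := by
    have h4 : 0 ≤ c + 9 / 4 * c ^ 2 := by positivity
    linarith
  linarith

end MP0c3a8f

end

section

open Finset

namespace MP0c3a8f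

namespace SEXX

theorem qq_bounds (r : ℕ) (hr : 3 ≤ r) : 2 / 3 ≤ qq r ∧ qq r ≤ 1 := by
  have h : (3 : ℝ) ≤ r := by exact_mod_cast hr
  have h0 : (0 : ℝ) < r := by linarith
  unfold qq
  constructor
  · have : 1 / (r : ℝ) ≤ 1 / 3 := one_div_le_one_div_of_le (by norm_num) h
    linarith
  · have : 0 ≤ 1 / (r : ℝ) := by positivity
    linarith

theorem isKU {V : Type} {r : ℕ} (G : SimpleGraph V) (g : V → Option (Fin r)) (w : V)
    (hw : g w = none) : IsKU (KU G g ∅) g {w} := by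
  refine ⟨?_, ?_, ?_⟩
  · intro u v hu hv
    constructor
    · intro h
      rcases h with h | h
      · exact h.2.2
      · rcases h.2.1 with h | h <;> simp at h
    · intro h
      exact Or.inl ⟨hu, hv, h⟩
  · intro v hv
    rw [Finset.mem_singleton] at hv
    rw [hv]; exact hw
  · intro u v hu _ h
    rcases h with h | h
    · exact h.1 hu
    · rcases h.2.1 with h | h <;> simp at h

theorem nbnK {V : Type} {r : ℕ} (G : SimpleGraph V) (g : V → Option (Fin r)) (w : V)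
    (hw : g w = none) : nbn (KU G g ∅) g w = fun _ => 0 := by
  funext t
  unfold nbn
  have : {v | g v = some t ∧ (KU G g ∅).Adj w v} = ∅ := by
    ext v
    simp only [Set.mem_ofPred_eq, Set.mem_empty_iff_false, iff_false, not_and]
    intro _ h
    rcases h with h | h
    · exact h.1 hw
    · rcases h.2.1 with h | h <;> simp at h
  rw [this, Set.ncard_empty]

theorem Mu_zero (r : ℕ) (σ : Fin r → ℕ) :
    Mu r σ (fun _ => 0) = qq r ^ 2 * (∑ t, (σ t : ℝ)) ^ 2 - 2 * qq r ^ 2 * dev σ := by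
  unfold Mu
  simp

theorem tz_near (r n : ℕ) (hr : 3 ≤ r) (t : Fin r) : |(tz r n t : ℝ) - n / r| ≤ 1 := by
  have h0 : (0 : ℝ) < r := by
    have : 0 < r := by omega
    exact_mod_cast this
  have h1 : ((n / r : ℕ) : ℝ) ≤ (n : ℝ) / r := Nat.cast_div_le
  have h2 : (n : ℝ) / r ≤ ((n / r : ℕ) : ℝ) + 1 := by
    have := Nat.lt_div_mul_add (a := n) (b := r) (by omega)
    rw [div_le_iff₀ h0]
    have h3 : (n : ℝ) < ((n / r : ℕ) : ℝ) * r + r := by exact_mod_cast this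
    linarith
  unfold tz
  split_ifs
  · push_cast
    rw [abs_le]; constructor <;> linarith
  · push_cast
    rw [abs_le]; constructor <;> linarith

/-- upper bound for `Kap` -/
theorem Kap_le (r : ℕ) (n : ℕ) (σ a : Fin r → ℕ) (ε d : ℝ) (hr : 3 ≤ r) (hn : 0 < n)
    (hσ : ∑ t, σ t = n) (hd : ∑ t, (a t : ℝ) = d) (hdn : d ≤ ε * n) (hε : 0 < ε)
    (hnear : ∀ t, |(σ t : ℝ) - n / r| ≤ 1) :
    Kap r σ a ≤ qq r * (2 * qq r - 1) * dev σ + 2 * qq r * d - 2 * d ^ 2 / n + 4 * ε ^ 2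
      + 20 * ε ^ 4 := by
  obtain ⟨hq1, hq2⟩ := qq_bounds r hr
  have hn' : (0 : ℝ) < n := by exact_mod_cast hn
  have hσ' : ∑ t, (σ t : ℝ) = n := by exact_mod_cast hσ
  have hd0 : 0 ≤ d := by rw [← hd]; positivity
  have hdd : d / n ≤ ε := by rw [div_le_iff₀ hn']; exact hdn
  have hdd0 : 0 ≤ d / n := by positivity
  unfold Kap Mu
  rw [hσ', hd]
  set q := qq r with hq
  set s := ∑ t, (a t : ℝ) * ((σ t : ℝ) - n / r) with hs
  set s2 := ∑ t, (a t : ℝ) ^ 2 with hs2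
  have hs' : s ≤ d := by
    rw [hs, ← hd]
    apply Finset.sum_le_sum
    intro t _
    have := (abs_le.1 (hnear t)).2
    have h0 : (0 : ℝ) ≤ a t := by positivity
    nlinarith
  have hs2' : s2 ≤ d ^ 2 := by
    rw [hs2, ← hd]
    exact Finset.sum_sq_le_sq_sum_of_nonneg (fun t _ => by positivity)
  have e1 : 4 * d * s / (n : ℝ) ^ 2 ≤ 4 * ε ^ 2 := by
    have : 4 * d * s / (n : ℝ) ^ 2 ≤ 4 * d * d / (n : ℝ) ^ 2 := by
      gcongr
    refine this.trans ?_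
    have e : 4 * d * d / (n : ℝ) ^ 2 = 4 * (d / n) ^ 2 := by field_simp
    rw [e]
    have := pow_le_pow_left₀ hdd0 hdd 2
    linarith
  have e2 : 0 ≤ 2 * d ^ 3 / (q ^ 2 * (n : ℝ) ^ 3) := by positivity
  have hq0 : 0 < q := by linarith
  have hqq : 4 / 9 ≤ q ^ 2 := by nlinarith
  have hx4 : (d / n) ^ 4 ≤ ε ^ 4 := pow_le_pow_left₀ hdd0 hdd 4
  have hx40 : 0 ≤ (d / n) ^ 4 := by positivity
  have e3 : (1 + 2 * q) * d ^ 4 / (q ^ 2 * (n : ℝ) ^ 4) ≤ 27 / 4 * ε ^ 4 := by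
    have e : (1 + 2 * q) * d ^ 4 / (q ^ 2 * (n : ℝ) ^ 4) = (1 + 2 * q) * (d / n) ^ 4 / q ^ 2 := by
      field_simp
    rw [e, div_le_iff₀ (by positivity)]
    have h1 : (1 + 2 * q) * (d / n) ^ 4 ≤ 3 * ε ^ 4 := by nlinarith
    have h2 : 27 / 4 * ε ^ 4 * (4 / 9) ≤ 27 / 4 * ε ^ 4 * q ^ 2 := by gcongr
    linarith
  have e4 : 2 * d ^ 2 * s2 / (q ^ 2 * (n : ℝ) ^ 4) ≤ 9 / 2 * ε ^ 4 := by
    have h0 : 2 * d ^ 2 * s2 / (q ^ 2 * (n : ℝ) ^ 4) ≤
        2 * d ^ 2 * d ^ 2 / (q ^ 2 * (n : ℝ) ^ 4) := by gcongr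
    refine h0.trans ?_
    have e : 2 * d ^ 2 * d ^ 2 / (q ^ 2 * (n : ℝ) ^ 4) = 2 * (d / n) ^ 4 / q ^ 2 := by
      field_simp
    rw [e, div_le_iff₀ (by positivity)]
    have h2 : 9 / 2 * ε ^ 4 * (4 / 9) ≤ 9 / 2 * ε ^ 4 * q ^ 2 := by gcongr
    linarith
  have e5 : 0 ≤ ε ^ 4 := by positivity
  nlinarith

theorem mul_small {A ε : ℝ} (hε0 : 0 < ε) (hε1 : ε ≤ 1 / 100) (hε2 : ε * (120 * A) ≤ 1) :
    A * (2 * ε) ^ 2 ≤ 1 / 30 := by
  have h1 : (ε * (120 * A)) * ε ≤ 1 * ε := mul_le_mul_of_nonneg_right hε2 hε0.le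
  have h2 : A * (2 * ε) ^ 2 = (ε * (120 * A)) * ε / 30 := by ring
  rw [h2]
  linarith

theorem bsq {b D g1 n ε : ℝ} (hn : 0 < n) (hg : b = D + g1) (hD : D ≤ ε * n) (hg1 : g1 ≤ ε * n)
    (hg10 : 0 ≤ g1) : 2 * b ^ 2 / n ≤ 2 * D ^ 2 / n + 6 * ε * g1 := by
  have hDn : D / n ≤ ε := by rw [div_le_iff₀ hn]; exact hD
  have hgn : g1 / n ≤ ε := by rw [div_le_iff₀ hn]; exact hg1
  have e : 2 * b ^ 2 / n = 2 * D ^ 2 / n + 4 * (D / n) * g1 + 2 * (g1 / n) * g1 := by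
    rw [hg]; field_simp; ring
  rw [e]
  have h1 := mul_le_mul_of_nonneg_right hDn hg10
  have h2 := mul_le_mul_of_nonneg_right hgn hg10
  linarith

theorem lowG {q n dv a b D g1 ε E L LK bb er X Y : ℝ} (hq1 : 2 / 3 ≤ q) (hε1 : ε ≤ 1 / 100)
    (hg10 : 0 ≤ g1) (hE : 2 * E = q * n ^ 2 - dv - 2 * a + 2 * b) (hg : b = D + g1)
    (h1 : L ≤ LK - 3 * q * a + X - bb + er) (h2 : LK - (q ^ 2 * n ^ 2 - 2 * q ^ 2 * dv) ≤ 1 / 30)
    (hbb : 0 ≤ bb) (her : er ≤ 1 / 30) (hX : X ≤ Y + 6 * ε * g1) :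
    q * (2 * q - 1) * dv + q * a + q * g1 + 2 * q * D - Y - 2 / 30 ≤ 2 * q * E - L := by
  have e1 : 2 * q * E = q * (q * n ^ 2 - dv - 2 * a + 2 * b) := by rw [← hE]; ring
  have e3 : 6 * ε * g1 ≤ q * g1 := mul_le_mul_of_nonneg_right (by linarith) hg10
  rw [e1, hg]
  linarith

theorem small_eps {ε : ℝ} (hε0 : 0 < ε) (hε1 : ε ≤ 1 / 100) :
    4 * ε ^ 2 + 20 * ε ^ 4 ≤ 1 / 100 := by
  have h2 : ε ^ 2 ≤ 1 / 10000 := by
    have := pow_le_pow_left₀ hε0.le hε1 2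
    norm_num at this ⊢; exact this
  have h4 : ε ^ 4 ≤ 1 / 10000 := by
    have e : ε ^ 4 = ε ^ 2 * ε ^ 2 := by ring
    rw [e]
    have h0 : 0 ≤ ε ^ 2 := by positivity
    have := mul_le_mul h2 h2 h0 (by norm_num : (0:ℝ) ≤ 1 / 10000)
    norm_num at this ⊢
    linarith
  linarith

end SEXX

open SEXX in
theorem prfSEX : SLB_statement → SEC_statement → UBG_statement → CNTU_statement →
    DEV_statement → SEX_statement := by
  intro hSLB hSEC hUBG hCNT hDEV r N b₀ hr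
  obtain ⟨C, n1, hC0, hS⟩ := hSLB r hr
  obtain ⟨n2, hE⟩ := hSEC r N (1 / 30) hr (by norm_num)
  obtain ⟨n3, hU⟩ := hUBG r (b₀ + r) (1 / 30) hr (by norm_num)
  obtain ⟨hq1, hq2⟩ := qq_bounds r hr
  set A : ℝ := (C + 1) * (1 + Real.sqrt N) with hA
  have hs0 : 0 ≤ Real.sqrt (N : ℝ) := Real.sqrt_nonneg _
  have hA0 : 0 < A := by positivity
  set ε : ℝ := min (1 / 100) (min (1 / (120 * A)) (1 / (40 * ((b₀ : ℝ) + 1)))) with hεd
  have hε0 : 0 < ε := by
    rw [hεd]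
    refine lt_min (by norm_num) (lt_min (by positivity) (by positivity))
  have hε1 : ε ≤ 1 / 100 := min_le_left _ _
  have hε2 : ε * (120 * A) ≤ 1 := by
    have : ε ≤ 1 / (120 * A) := (min_le_right _ _).trans (min_le_left _ _)
    rwa [le_div_iff₀ (by positivity)] at this
  have hε3 : ε * (40 * ((b₀ : ℝ) + 1)) ≤ 1 := by
    have : ε ≤ 1 / (40 * ((b₀ : ℝ) + 1)) := (min_le_right _ _).trans (min_le_right _ _)
    rwa [le_div_iff₀ (by positivity)] at this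
  refine ⟨ε, hε0, max (max n1 n2) (max n3 (⌈((N : ℝ) + 1) / ε⌉₊ + 1)), ?_⟩
  intro V _ G z g w U _ H h u n D hn hD hFl hgw hsz hND hdom hm hInd hhu hms0 hlt hszh hnb hdef
  have hn1 : n1 ≤ n := le_trans (le_trans (le_max_left _ _) (le_max_left _ _)) hn
  have hn2 : n2 ≤ n := le_trans (le_trans (le_max_right _ _) (le_max_left _ _)) hn
  have hn3 : n3 ≤ n := le_trans (le_trans (le_max_left _ _) (le_max_right _ _)) hn
  have hn4 : ⌈((N : ℝ) + 1) / ε⌉₊ + 1 ≤ n :=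
    le_trans (le_trans (le_max_right _ _) (le_max_right _ _)) hn
  have hnpos : 0 < n := by omega
  have hnR : (0 : ℝ) < n := by exact_mod_cast hnpos
  have hNε : (N : ℝ) + 1 ≤ ε * n := by
    have h1 : ((N : ℝ) + 1) / ε ≤ n := by
      refine (Nat.le_ceil _).trans ?_
      exact_mod_cast (by omega : ⌈((N : ℝ) + 1) / ε⌉₊ ≤ n)
    rw [div_le_iff₀ hε0] at h1
    linarith
  have hN0 : (0 : ℝ) ≤ N := by positivity
  -- Turán
  obtain ⟨htz1, htz2, htz3, hdevg, hperm, hSz⟩ := hDEV r n (siz g) (by omega) hsz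
  obtain ⟨_, _, _, hdevt, _, _⟩ := hDEV r n (tz r n) (by omega) htz1
  -- counting
  obtain ⟨e, he, hcnt⟩ := hCNT r V G g ∅ hFl.indep (by simp)
  have he0 : e = 0 := by simpa using he
  rw [he0, hsz] at hcnt
  simp only [Finset.sum_empty, mul_zero, add_zero] at hcnt
  unfold Sz at hSz
  rw [htz1] at hSz
  set a := (missSet G g).ncard with ha
  set b := (lightSet G g ∅).ncard with hb
  set b' := (lightSet G g {w}).ncard with hb'
  set E := G.edgeSet.ncard with hEd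
  set S2 := ∑ t, siz g t ^ 2 with hS2
  set T2 := ∑ t, tz r n t ^ 2 with hT2
  have hkey : 2 * b + T2 = 2 * D + 2 * a + S2 := by omega
  -- real versions
  have hkR : 2 * (b : ℝ) + T2 = 2 * D + 2 * a + S2 := by exact_mod_cast hkey
  have hTS : (T2 : ℝ) ≤ S2 := by exact_mod_cast htz2
  have hdg : dev (siz g) = (S2 : ℝ) - (n : ℝ) ^ 2 / r := by
    rw [hdevg, hS2]; push_cast; rfl
  have hdt : dev (tz r n) = (T2 : ℝ) - (n : ℝ) ^ 2 / r := by
    rw [hdevt, hT2]; push_cast; rfl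
  have hER : 2 * (E : ℝ) + 2 * a + S2 = (n : ℝ) ^ 2 + 2 * b := by exact_mod_cast hcnt
  have ha0 : (0 : ℝ) ≤ a := by positivity
  have hb'0 : (0 : ℝ) ≤ b' := by positivity
  have hD0 : (0 : ℝ) ≤ D := by positivity
  have hdevt0 : 0 ≤ dev (tz r n) := by unfold dev; positivity
  have hdev0 : 0 ≤ dev (siz g) := by unfold dev; positivity
  set q := qq r with hq
  have hqn : q * (n : ℝ) ^ 2 = (n : ℝ) ^ 2 - (n : ℝ) ^ 2 / r := by
    rw [hq]; unfold qq; ring
  set dv := dev (siz g) with hdv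
  set dT := dev (tz r n) with hdT
  have hg1 : (b : ℝ) = D + (a + (dv - dT) / 2) := by rw [hdg, hdt]; linarith
  set g1 : ℝ := a + (dv - dT) / 2 with hg1d
  have hdd : 0 ≤ dv - dT := by rw [hdg, hdt]; linarith
  have hg10 : 0 ≤ g1 := by rw [hg1d]; linarith
  have hg1a : (a : ℝ) ≤ g1 := by rw [hg1d]; linarith
  have hg1N : g1 ≤ N := by rw [hg1d]; linarith
  have hbn : (b : ℝ) ≤ 2 * (ε * n) := by rw [hg1]; linarith
  have hb0 : (0 : ℝ) ≤ b := by positivity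
  -- lower bound for the defect of G
  have hεn : ε * n ≤ 1 / 100 * n := mul_le_mul_of_nonneg_right hε1 hnR.le
  have hdvn : dv ≤ n := by linarith
  have h16 : 16 * ((a : ℝ) + b) ≤ n := by linarith
  have h1 := hS V G z g w n hFl hgw hn1 hsz hdvn h16 hdom
  have h2 := (hE V (KU G g ∅) g w n hn2 (isKU G g w hgw) hsz (by linarith)).1
  rw [nbnK G g w hgw, Mu_zero] at h2
  have hszR : ∑ t, (siz g t : ℝ) = n := by exact_mod_cast hsz
  rw [hszR] at h2
  have h2' := (abs_le.1 h2).2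
  have hbb : 0 ≤ (b : ℝ) * b' / n := by positivity
  have herr : C * (1 + Real.sqrt dv) * (b : ℝ) ^ 2 / (n : ℝ) ^ 2 ≤ 1 / 30 := by
    have h3 : Real.sqrt dv ≤ Real.sqrt N := Real.sqrt_le_sqrt (by linarith)
    have h4 : ((b : ℝ) / n) ≤ 2 * ε := by
      rw [div_le_iff₀ hnR]; linarith
    have h40 : 0 ≤ (b : ℝ) / n := by positivity
    have h5 : C * (1 + Real.sqrt dv) ≤ A := by
      rw [hA]
      have : 0 ≤ Real.sqrt dv := Real.sqrt_nonneg _
      apply mul_le_mul (by linarith) (by linarith) (by linarith) (by linarith)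
    have h50 : 0 ≤ C * (1 + Real.sqrt dv) := by positivity
    have e : C * (1 + Real.sqrt dv) * (b : ℝ) ^ 2 / (n : ℝ) ^ 2 =
        C * (1 + Real.sqrt dv) * ((b : ℝ) / n) ^ 2 := by field_simp
    rw [e]
    exact (mul_le_mul h5 (pow_le_pow_left₀ h40 h4 2) (by positivity) hA0.le).trans
      (mul_small hε0 hε1 hε2)
  have hbsq : 2 * (b : ℝ) ^ 2 / n ≤ 2 * (D : ℝ) ^ 2 / n + 6 * ε * g1 :=
    bsq hnR hg1 hD (by linarith) hg10
  have hE2 : 2 * (E : ℝ) = q * (n : ℝ) ^ 2 - dv - 2 * a + 2 * b := by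
    rw [hqn, hdg]; linarith
  have hDG : q * (2 * q - 1) * dv + q * a + q * g1 + 2 * q * D - 2 * (D : ℝ) ^ 2 / n - 2 / 30
      ≤ Def r G :=
    lowG hq1 hε1 hg10 hE2 hg1 h1 h2' hbb herr hbsq
  -- upper bound for the defect of H
  have hszh' : siz h = tz r n := funext hszh
  have hBd : Bd n (b₀ + r) H h u := by
    refine ⟨hInd, hhu, ?_, ?_⟩
    · rw [hszh']; exact htz1
    · rw [hms0, hlt, hszh']
      push_cast
      linarith
  have h3 := hU U H h u n hn3 hBd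
  unfold Cst at h3
  rw [hms0, hlt, hszh'] at h3
  have hd : ∑ t, ((nbn H h u t : ℕ) : ℝ) = (D : ℝ) - b₀ := by
    have : ((∑ t, nbn H h u t : ℕ) : ℝ) + b₀ = D := by exact_mod_cast hnb
    push_cast at this
    linarith
  have hKap := Kap_le r n (tz r n) (nbn H h u) ε ((D : ℝ) - b₀) hr hnpos htz1 hd
    (by have : (0 : ℝ) ≤ b₀ := by positivity
        linarith) hε0 (tz_near r n hr)
  have hDH : Def r H ≤ q * (2 * q - 1) * dT + 2 * q * D - 2 * (D : ℝ) ^ 2 / n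
      + 4 * b₀ * ε + 4 * ε ^ 2 + 20 * ε ^ 4 + 1 / 30 := by
    have hDn : (D : ℝ) / n ≤ ε := by rw [div_le_iff₀ hnR]; exact hD
    have e : 2 * ((D : ℝ) - b₀) ^ 2 / n = 2 * (D : ℝ) ^ 2 / n - 4 * b₀ * ((D : ℝ) / n)
        + 2 * (b₀ : ℝ) ^ 2 / n := by field_simp; ring
    have e' : 0 ≤ 2 * (b₀ : ℝ) ^ 2 / n := by positivity
    have hb00 : (0 : ℝ) ≤ b₀ := by positivity
    have e'' : 4 * (b₀ : ℝ) * ((D : ℝ) / n) ≤ 4 * b₀ * ε := by gcongr
    unfold Def
    rw [e] at hKap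
    push_cast at h3
    linarith
  -- comparison
  have hε24 := small_eps hε0 hε1
  have hb0ε : 4 * (b₀ : ℝ) * ε ≤ 1 / 10 := by linarith
  have hfin : q * (2 * q - 1) * (dv - dT) + q * a + q * g1 < 1 / 2 := by
    have := hDG.trans (hdef.trans hDH)
    linarith
  have hq3 : 0 ≤ q * (2 * q - 1) * (dv - dT) :=
    mul_nonneg (mul_nonneg (by linarith) (by linarith)) hdd
  have hq0 : 0 ≤ q := by linarith
  have hqg1 : 0 ≤ q * g1 := mul_nonneg hq0 hg10
  have hqa : 0 ≤ q * (a : ℝ) := mul_nonneg hq0 ha0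
  have hazero : a = 0 := by
    by_contra hne
    have h1a : (1 : ℝ) ≤ a := by
      have : 1 ≤ a := Nat.one_le_iff_ne_zero.2 hne
      exact_mod_cast this
    have := mul_le_mul_of_nonneg_left h1a hq0
    linarith
  refine ⟨hazero, ?_⟩
  by_contra hne
  have hlt' : T2 < S2 := lt_of_le_of_ne htz2 (fun h => hne h.symm)
  have hbD : D + 1 ≤ b := by omega
  have hg11 : 1 ≤ g1 := by
    have : (D : ℝ) + 1 ≤ b := by exact_mod_cast hbD
    linarith
  have := mul_le_mul_of_nonneg_left hg11 hq0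
  linarith

end MP0c3a8f

end

section

/-!
# MP_0c3a8f_co: item UPS (cheap members, one vertex of large degree, all `D ≤ (r-1)(n/r)`)
-/

open Finset

namespace MP0c3a8f

namespace ItemUPS

/-- the sum of the cubes is bounded by the square of the bound for the sum of the squares -/
theorem cub_bd {r : ℕ} (σ : Fin r → ℕ) {C : ℝ} (hC : 1 ≤ C) (h : dev σ ≤ C) :
    |cub σ| ≤ C ^ 2 := by
  have hx : ∀ t, |(σ t : ℝ) - (∑ s, (σ s : ℝ)) / r| ≤ C := by
    intro t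
    have h1 : ((σ t : ℝ) - (∑ s, (σ s : ℝ)) / r) ^ 2 ≤ dev σ := by
      unfold dev
      exact Finset.single_le_sum
        (f := fun t => ((σ t : ℝ) - (∑ s, (σ s : ℝ)) / r) ^ 2)
        (fun i _ => sq_nonneg _) (Finset.mem_univ t)
    have h2 : ((σ t : ℝ) - (∑ s, (σ s : ℝ)) / r) ^ 2 ≤ C ^ 2 := by nlinarith
    exact abs_le_of_sq_le_sq h2 (by linarith)
  unfold cub
  calc |∑ t, ((σ t : ℝ) - (∑ s, (σ s : ℝ)) / r) ^ 3|
      ≤ ∑ t, |((σ t : ℝ) - (∑ s, (σ s : ℝ)) / r) ^ 3| := Finset.abs_sum_le_sum_abs _ _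
    _ ≤ ∑ t, C * ((σ t : ℝ) - (∑ s, (σ s : ℝ)) / r) ^ 2 := by
        apply Finset.sum_le_sum
        intro t _
        rw [pow_succ', abs_mul, abs_of_nonneg (sq_nonneg ((σ t : ℝ) - (∑ s, (σ s : ℝ)) / r))]
        exact mul_le_mul_of_nonneg_right (hx t) (sq_nonneg _)
    _ = C * dev σ := by rw [← Finset.mul_sum]; rfl
    _ ≤ C * C := mul_le_mul_of_nonneg_left h (by linarith)
    _ = C ^ 2 := by ring

/-- the final inequality for small `D` -/
theorem final_small {q t dv a b cb C' D n r x : ℝ} (q0 : 0 ≤ q) (q1 : q ≤ 1)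
    (t0 : 0 ≤ t) (t1 : t ≤ 1) (hr0 : 0 ≤ r) (hn : 1 ≤ n) (hdv0 : 0 ≤ dv) (hdv : dv ≤ r)
    (ha0 : 0 ≤ a) (ha : a ≤ b) (hcb : |cb| ≤ r ^ 2)
    (hD : D ≤ q * (1 - t) * dv + 2 * q * (a + b) - 2 * q ^ 2 * cb / n + C') (hx : 0 ≤ x) :
    D ≤ x + (r + 4 * b + 2 * r ^ 2 + |C'|) := by
  have h1 : q * (1 - t) * dv ≤ 1 * 1 * r := by
    apply mul_le_mul _ hdv hdv0 (by norm_num)
    apply mul_le_mul q1 (by linarith) (by linarith) (by norm_num)
  have h2 : 2 * q * (a + b) ≤ 2 * 1 * (b + b) := by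
    apply mul_le_mul (by linarith) (by linarith) (by linarith) (by norm_num)
  have h3 : -(2 * q ^ 2 * cb / n) ≤ 2 * r ^ 2 := by
    have h4 : |2 * q ^ 2 * cb / n| ≤ 2 * r ^ 2 := by
      rw [abs_div, abs_mul, abs_of_nonneg (by positivity : (0 : ℝ) ≤ 2 * q ^ 2),
        abs_of_nonneg (by linarith : (0 : ℝ) ≤ n), div_le_iff₀ (by linarith)]
      have h5 : 2 * q ^ 2 * |cb| ≤ 2 * 1 * r ^ 2 := by
        apply mul_le_mul _ hcb (abs_nonneg _) (by norm_num)
        nlinarith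
      have h6 : 2 * r ^ 2 * 1 ≤ 2 * r ^ 2 * n :=
        mul_le_mul_of_nonneg_left hn (by positivity)
      linarith
    have := (abs_le.1 h4).1
    linarith
  have h7 := le_abs_self C'
  linarith

end ItemUPS

open ItemUPS in
/-- Item UPS. -/
theorem prfUPS : MEMB_statement → MEMV_statement → UBG_statement → KXB_statement →
    LOWU_statement → CNTU_statement → DEV_statement → UPS_statement := by
  intro hMEMB hMEMV hUBG hKXB hLOWU hCNTU hDEV W _ F r hr hncol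
  obtain ⟨hq0, hq1⟩ := ItemMAXG.qq_bd hr
  obtain ⟨t0, t1⟩ := ItemCHU.two_div_bounds hr
  have hr1 : 1 ≤ r := by omega
  have hrR : (3 : ℝ) ≤ r := by exact_mod_cast hr
  have hq2 : (1 : ℝ) / 2 ≤ qq r := by
    unfold qq
    have : 1 / (r : ℝ) ≤ 1 / 3 := one_div_le_one_div_of_le (by norm_num) hrR
    linarith
  obtain ⟨b, nM, hM⟩ := hMEMB W F r hr hncol
  obtain ⟨b₂, hb₂, nV, hV⟩ := hMEMV W F r hr hncol b
  obtain ⟨C, nK, hK⟩ := hKXB r (b + r) hr
  obtain ⟨nU, hU⟩ := hUBG r (b + r) 1 hr one_pos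
  obtain ⟨C', nL, hL⟩ := hLOWU r (10 + r + b₂) hr (by positivity)
  refine ⟨(|C| + 2 * b + 1) + (r + 4 * b₂ + 2 * (r : ℝ) ^ 2 + |C'|),
    nM + nK + nU + nL + r * (nV + b₂) + 2 * b + 1, by positivity, fun n hn D hD1 => ?_⟩
  obtain ⟨hT1, hT2, hT3, hT4⟩ := ItemMAXG.turan hDEV r n hr1
  have hDn : D ≤ n := by
    have h1 : (r - 1) * (n / r) ≤ r * (n / r) := Nat.mul_le_mul_right _ (by omega)
    have h2 : r * (n / r) ≤ n := Nat.mul_div_le n r
    omega
  have hn1 : (1 : ℝ) ≤ n := by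
    have : 1 ≤ n := by omega
    exact_mod_cast this
  by_cases hbD : b < D
  · -- the member of MEMB
    obtain ⟨k, G₀, g₀, w₀, hfree, hnc, hiso, hind, hw₀, hmiss, hlight, hsiz, hnbn⟩ :=
      hM n (by omega) D hbD hD1
    have hsg : siz g₀ = tz r n := funext hsiz
    have htot : ∑ t, siz g₀ t = n := by rw [hsg]; exact hT1
    have hnR : ((∑ t, nbn G₀ g₀ w₀ t : ℕ) : ℝ) + b = D := by exact_mod_cast hnbn
    have hcnt := ItemMAXG.count hCNTU hDEV hr1 G₀ g₀ w₀ hind hw₀ htot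
    rw [hmiss, hlight, hsg] at hcnt
    have hedge : G₀.edgeSet.ncard = (SimpleGraph.turanGraph n r).edgeSet.ncard + D := by
      have : (G₀.edgeSet.ncard : ℝ) = (SimpleGraph.turanGraph n r).edgeSet.ncard + D := by
        push_cast at hcnt hnR ⊢
        linarith
      exact_mod_cast this
    have hBd : Bd n (b + r) G₀ g₀ w₀ := by
      refine ⟨hind, hw₀, htot, ?_⟩
      rw [hmiss, hlight, hsg]
      push_cast
      linarith
    have hD0 := hU (Fin k) G₀ g₀ w₀ n (by omega) hBd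
    have hKap := hK n (by omega) D (siz g₀) (nbn G₀ g₀ w₀) htot
      (by rw [hsg]; push_cast; linarith [Nat.cast_nonneg (α := ℝ) b])
      (ItemMAXG.nbn_le G₀ g₀ w₀) hDn (by
        have : (∑ t, (nbn G₀ g₀ w₀ t : ℝ)) - D = - b := by
          rw [← hnR]; push_cast; ring
        rw [this, abs_neg, abs_of_nonneg (Nat.cast_nonneg b)]
        push_cast
        linarith [Nat.cast_nonneg (α := ℝ) r])
    refine ⟨k, G₀, ⟨hfree, hedge, hiso, hnc⟩, ?_⟩
    unfold Def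
    unfold Cst at hD0
    rw [hmiss, hlight] at hD0
    have h1 := (abs_le.1 hKap).2
    have h2 : C ≤ |C| := le_abs_self C
    have h3 : 2 * qq r * (0 + (b : ℝ)) ≤ 2 * b := by
      have h4 : qq r * (b : ℝ) ≤ 1 * b := mul_le_mul_of_nonneg_right hq1 (Nat.cast_nonneg b)
      linarith
    have h5 : (0 : ℝ) ≤ r + 4 * b₂ + 2 * (r : ℝ) ^ 2 + |C'| := by positivity
    push_cast at hD0 h1
    linarith
  · -- the member of MEMV
    push Not at hbD
    have hDb₂ : D ≤ b₂ := by omega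
    obtain ⟨k, G, g, hFG, hGc, hiso, hind, hmiss, hout, hsiz⟩ :=
      hV (tz r n) (b₂ - D) (by
        intro t
        have h1 : nV + b₂ ≤ n / r := by
          rw [Nat.le_div_iff_mul_le (by omega), mul_comm]
          omega
        unfold tz
        have h2 : n / r ≤ n / r + if t.val < n % r then 1 else 0 := Nat.le_add_right _ _
        omega)
    have hsg : siz g = tz r n := funext hsiz
    have htot : ∑ t, siz g t = n := by rw [hsg]; exact hT1
    -- counting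
    obtain ⟨e, he, hcnt⟩ := hCNTU r (Fin k) G g ∅ hind (by simp)
    have he0 : e = 0 := by
      simp at he
      exact he
    subst he0
    rw [ItemCHU.lightSet_empty, hmiss, hout, hsg, hT1] at hcnt
    simp only [Finset.sum_empty] at hcnt
    obtain ⟨-, -, -, h4, -, -⟩ := hDEV r n (tz r n) hr1 hT1
    have hedge : G.edgeSet.ncard = (SimpleGraph.turanGraph n r).edgeSet.ncard + D := by
      have h5 : 2 * (G.edgeSet.ncard : ℝ) + 2 * ((b₂ - D : ℕ) : ℝ) + ∑ t, (tz r n t : ℝ) ^ 2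
          = (n : ℝ) ^ 2 + 2 * b₂ := by
        have h6 : 2 * G.edgeSet.ncard + 2 * (b₂ - D) + ∑ t, tz r n t ^ 2 = n ^ 2 + 2 * b₂ := by
          omega
        exact_mod_cast h6
      rw [Nat.cast_sub hDb₂] at h5
      have h7 : qq r * (n : ℝ) ^ 2 = (n : ℝ) ^ 2 - (n : ℝ) ^ 2 / r := by
        unfold qq; ring
      have : (G.edgeSet.ncard : ℝ) = (SimpleGraph.turanGraph n r).edgeSet.ncard + D := by
        linarith
      exact_mod_cast this
    refine ⟨k, G, ⟨hFG, hedge, hiso, hGc⟩, ?_⟩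
    have hdev : dev (siz g) ≤ (10 + r + b₂ : ℝ) * n := by
      rw [hsg]
      have h1 : (r : ℝ) * 1 ≤ (10 + r + b₂ : ℝ) * n := by
        apply mul_le_mul _ hn1 (by norm_num) (by positivity)
        linarith [Nat.cast_nonneg (α := ℝ) b₂]
      linarith
    have hs1 : 1 ≤ Real.sqrt n := by
      rw [Real.one_le_sqrt]
      exact hn1
    have hab : ((b₂ - D : ℕ) : ℝ) ≤ b₂ := by
      have : b₂ - D ≤ b₂ := Nat.sub_le _ _
      exact_mod_cast this
    have hms : ((missSet G g).ncard : ℝ) ≤ (10 + r + b₂ : ℝ) * Real.sqrt n := by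
      rw [hmiss]
      have h1 : (b₂ : ℝ) * 1 ≤ (10 + r + b₂ : ℝ) * Real.sqrt n := by
        apply mul_le_mul _ hs1 (by norm_num) (by positivity)
        linarith [Nat.cast_nonneg (α := ℝ) r]
      linarith
    have hDef := hL (Fin k) G g n hind (by omega) htot hdev hms
    rw [hmiss, hout, hsg] at hDef
    have hcub : |cub (tz r n)| ≤ (r : ℝ) ^ 2 := cub_bd _ (by linarith) hT3
    have hx : 0 ≤ 2 * (D : ℝ) * (qq r - D / n) := by
      apply mul_nonneg (by positivity)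
      have h1 : (D : ℝ) / n ≤ 1 / 2 := by
        rw [div_le_div_iff₀ (by linarith) (by norm_num)]
        have : D * 2 ≤ 1 * n := by omega
        exact_mod_cast this
      linarith
    have hfin := final_small hq0.le hq1 t0 t1 (by linarith : (0 : ℝ) ≤ r) hn1 hT2 hT3
      (Nat.cast_nonneg (b₂ - D)) hab hcub hDef hx
    have h8 : (0 : ℝ) ≤ |C| + 2 * b + 1 := by positivity
    linarith

end MP0c3a8f

end

section

/-!
# MP_0c3a8f_co: all items of the part PB4 (upper range) together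
-/

namespace MP0c3a8f

theorem bKWS : KWS_statement := prfKWS prfP
theorem bKWU : KWU_statement := prfKWU prfP bKWS (prfKW2 prfP) bKW3
theorem bMAINU : MAINU_statement := prfMAINU prfCNTU bCOMPU bKWU
theorem bOPU : OPU_statement := prfOPU prfOPUC
theorem bSTU : STU_statement :=
  prfSTU prfP prfEDG.1 bROUGH bMAIN bMAINU prfCNTU prfRGU bOPU prfDEV
theorem bMEMU : MEMU_statement := prfMEMU prfNON2 prfREDS.1
theorem bLOWU : LOWU_statement := prfLOWU prfP bKW3 bKWS prfCNTU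
theorem bUPU : UPU_statement := prfUPU prfCNTU bCOMPU bKWS
theorem bCHU : CHU_statement := prfCHU prfNUM bMEMU bLOWU prfCNTU prfDEV
theorem bFINU : FINU_statement :=
  prfFINU prfP bMAXE prfDEV prfCNTU bSTU bUPU prfS3M bCHU

end MP0c3a8f

end

section

/-!
# MP_0c3a8f_co: all items of the part PB5 (all sizes) together
-/

namespace MP0c3a8f

theorem bSLB : SLB_statement := prfSLB prfP prfCNTU
theorem bSTS : STS_statement := prfSTS bROUGH bMAIN prfCNTU prfDEV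
theorem bSBD : SBD_statement := prfSBD bSLB bKWS prfCNTU prfDEV
theorem bSEX : SEX_statement := prfSEX bSLB bSEC bUBG prfCNTU prfDEV
theorem bSSW : SSW_statement := prfSSW prfP prfCNTU
theorem bMEMS : MEMS_statement := prfMEMS prfNON2 prfREDS.1
theorem bTRF : TRF_statement := prfTRF prfP
theorem bMEMV : MEMV_statement := prfMEMV prfNON2 prfREDS.1
theorem bUPS : UPS_statement := prfUPS bMEMB bMEMV bUBG bKXB bLOWU prfCNTU prfDEV
theorem bOPT2 : OPT2_statement := prfOPT2 prfOTC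
theorem bSTT : STT_statement :=
  prfSTT bROUGH bMAIN bMAINU prfCNTU prfRGU bOPT2 prfDEV prfTURN
theorem bFINV : FINV_statement := prfFINV prfDEV prfCNTU bUPU prfS3M
theorem bCHUV : CHUV_statement := prfCHUV prfNUMV bMEMU bLOWU prfCNTU prfDEV
theorem bFNT : FNT_statement := prfFNT prfP prfTURN bUPS bCHUV bSTT bFINV
theorem bOPUE : OPUE_statement := prfOPUE prfOPUD
theorem bSTUE : STUE_statement := prfSTUE bROUGH bMAIN bMAINU prfCNTU prfRGU bOPUE prfDEV
theorem bFNU : FNU_statement := prfFNU prfP bCHUV bSTUE bFINV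
theorem bFNS : FNS_statement :=
  prfFNS prfP prfDEV prfCNTU bUPS bSTS bSBD bSEX bSSW bMEMB bMEMS bTRF
theorem bFINA : FINA_statement :=
  prfFINA prfP bMAXE prfDEV prfTURN bUPS bCHUV bFNS bMAXG bFNT bFNU

end MP0c3a8f

end
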