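import Mathlib
import Pool.Agent.Work.MP_0c3a8f_co.PB.Stmts6
import Pool.Agent.Work.MP_0c3a8f_co.Bd.B12
import Pool.Agent.Work.MP_0c3a8f_co.PB.ItemSLB
import Pool.Agent.Work.MP_0c3a8f_co.Bd.B15
import Pool.Agent.Work.MP_0c3a8f_co.PB.Stmts8
import Pool.Agent.Work.MP_0c3a8f_co.Bd.B03
import Pool.Agent.Work.MP_0c3a8f_co.Bd.B10
import Pool.Agent.Work.MP_0c3a8f_co.PB.ItemEVF1
import Pool.Agent.Work.MP_0c3a8f_co.PB.Stmts10

/-! Bundle of small proof modules (one section per former module). -/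

section

/-!
# MP_0c3a8f_co, phase B, item FINB: all maximisers for all sufficiently large `m`
-/

set_option autoImplicit false

open Finset

namespace MP0c3a8f

namespace ItemFINB

theorem light_empty {V : Type} {r : ℕ} (G : SimpleGraph V) (g : V → Option (Fin r)) :
    lightSet G g ∅ = outSet G g := by
  ext e
  simp [lightSet, outSet]

theorem root_le {n : ℕ} (hn : 1 ≤ n) : Real.sqrt (Real.sqrt (n : ℝ)) ≤ n := by
  have h1 : (1 : ℝ) ≤ n := by exact_mod_cast hn
  have h2 : Real.sqrt (n : ℝ) ≤ n := by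
    rw [Real.sqrt_le_left (by linarith)]
    nlinarith
  refine (Real.sqrt_le_sqrt h2).trans h2

theorem turan_le (hD : DEV_statement) (r n : ℕ) (hr : 3 ≤ r) :
    (SimpleGraph.turanGraph n r).edgeSet.ncard ≤ n ^ 2 := by
  obtain ⟨-, h2, -, h4⟩ := ItemSTU.turan hD r n (by omega)
  have hq := (ItemFINA.qq_bd hr).2
  have h5 : qq r * (n : ℝ) ^ 2 ≤ 1 * (n : ℝ) ^ 2 :=
    mul_le_mul_of_nonneg_right hq (sq_nonneg _)
  have h6 : ((SimpleGraph.turanGraph n r).edgeSet.ncard : ℝ) ≤ (n : ℝ) ^ 2 := by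
    have := sq_nonneg (n : ℝ)
    linarith
  exact_mod_cast h6

end ItemFINB

theorem prfFINB : DEV_statement → CNTU_statement → TURN_statement → FINA_statement →
    FNW_statement → FINB_statement := by
  classical
  intro hDe hCn hT hA hW W _ F r hr hcrit hcol hncol
  obtain ⟨N1, m0, h1⟩ := hA W F r hr hcrit hcol hncol
  obtain ⟨C, hC⟩ : ∃ C : ℝ, C = r + 4 + 2 * N1 := ⟨_, rfl⟩
  have hr0 : (0 : ℝ) ≤ r := Nat.cast_nonneg r
  have hN10 : (0 : ℝ) ≤ N1 := Nat.cast_nonneg N1
  have hC0 : 0 ≤ C := by rw [hC]; linarith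
  obtain ⟨N2, n2, h2⟩ := hW W F r C hr hncol hC0
  refine ⟨N1 + N2, max m0 (n2 ^ 2), fun m hm => ?_⟩
  rw [ge_iff_le, max_le_iff] at hm
  obtain ⟨n, D, B, e1, e2, e3, e4⟩ := h1 m hm.1
  refine ⟨n, D, B, e1, e2, e3, fun V _ G hG => ?_⟩
  obtain ⟨e5, e6⟩ := e4 V G hG
  have hN1N : (N1 : ℝ) ≤ ((N1 + N2 : ℕ) : ℝ) := by exact_mod_cast Nat.le_add_right _ _
  refine ⟨e5.trans (mul_le_mul_of_nonneg_right hN1N (Real.sqrt_nonneg _)), ?_⟩
  rcases e6 with e6 | e6
  · exact Or.inl (ItemFINA.altI_mono (Nat.le_add_right _ _) e6)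
  · right
    obtain ⟨g1, g, g2, g3, g4, t₀, g5, g6⟩ := e6
    have hBn : D + B + n / r = n := by
      have := hT r n (by omega)
      omega
    have hBn0 : B ≤ n := by
      rw [← hBn, add_assoc]
      exact (Nat.le_add_right B (n / r)).trans (Nat.le_add_left _ D)
    have hBn' : (B : ℝ) ≤ n := by exact_mod_cast hBn0
    have hn2 : n2 ≤ n + 1 := by
      have h3 := ItemFINB.turan_le hDe r (n + 1) hr
      have h4 : n2 ^ 2 ≤ (n + 1) ^ 2 := by omega
      exact (Nat.pow_le_pow_iff_left (by norm_num)).1 h4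
    have hroot := ItemFINB.root_le (n := n + 1) (by omega)
    have hroot0 : 0 ≤ Real.sqrt (Real.sqrt ((n + 1 : ℕ) : ℝ)) := Real.sqrt_nonneg _
    have ha0 : (0 : ℝ) ≤ (missSet G g).ncard := Nat.cast_nonneg _
    have hb0 : (0 : ℝ) ≤ (outSet G g).ncard := Nat.cast_nonneg _
    have hNK : NK (n + 1) C G g := by
      refine ⟨g2, g3, ?_, ?_⟩
      · obtain ⟨e, he1, he2⟩ := hCn r V G g ∅ g2 (by simp)
        obtain ⟨-, -, -, hdv, -, -⟩ := hDe r (n + 1) (siz g) (by omega) g3
        obtain ⟨-, ht2, ht3, ht4⟩ := ItemSTU.turan hDe r (n + 1) (by omega)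
        have he0 : e = 0 := by
          simp only [Finset.card_empty, zero_mul, nonpos_iff_eq_zero, mul_eq_zero] at he1
          omega
        rw [Finset.sum_empty, he0, g3, ItemFINB.light_empty, hG.1.size] at he2
        have he3 : 2 * (m : ℝ) + 2 * ((missSet G g).ncard : ℝ)
            + ∑ t, (siz g t : ℝ) ^ 2 = ((n + 1 : ℕ) : ℝ) ^ 2 + 2 * 0 + 2 * 0
              + 2 * ((outSet G g).ncard : ℝ) := by exact_mod_cast he2
        have hm' : (m : ℝ) + B = ((SimpleGraph.turanGraph (n + 1) r).edgeSet.ncard : ℝ) := by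
          exact_mod_cast e2
        have e7 : qq r * ((n + 1 : ℕ) : ℝ) ^ 2 = ((n + 1 : ℕ) : ℝ) ^ 2 -
            ((n + 1 : ℕ) : ℝ) ^ 2 / r := by
          unfold qq
          ring
        have hb1 : ((outSet G g).ncard : ℝ) ≤ N1 * ((n + 1 : ℕ) : ℝ) := by
          have := mul_le_mul_of_nonneg_left hroot hN10
          linarith
        have hn1 : (1 : ℝ) ≤ ((n + 1 : ℕ) : ℝ) := by exact_mod_cast Nat.le_add_left 1 n
        have hnn : ((n + 1 : ℕ) : ℝ) = (n : ℝ) + 1 := by push_cast; ring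
        have hrn : (r : ℝ) * 1 ≤ r * ((n + 1 : ℕ) : ℝ) := mul_le_mul_of_nonneg_left hn1 hr0
        have hn0 : (0 : ℝ) ≤ n := Nat.cast_nonneg n
        rw [hdv, hC]
        linarith
      · have := mul_le_mul_of_nonneg_right (show (N1 : ℝ) ≤ C by rw [hC]; linarith) hroot0
        linarith
    obtain ⟨w, hw⟩ := h2 V G g (n + 1) m hn2 hG hNK
    have hs2 : (0 : ℝ) ≤ ((n + 1 : ℕ) : ℝ) * Real.sqrt (Real.sqrt ((n + 1 : ℕ) : ℝ)) := by
      positivity
    exact ⟨g1.trans (mul_le_mul_of_nonneg_right hN1N hroot0), g, w, g2, g3,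
      hw.trans (Nat.le_add_left _ _), g4.trans (mul_le_mul_of_nonneg_right hN1N hroot0), t₀,
      g5.trans (mul_le_mul_of_nonneg_right hN1N hs2), fun t htt =>
        (g6 t htt).trans (mul_le_mul_of_nonneg_right hN1N hs2)⟩

end MP0c3a8f

end

section

/-!
# MP_0c3a8f_co, phase B: item SSWU
-/

open Finset

namespace MP0c3a8f

namespace SSWU

open ItemSLB

section sums

variable {V : Type} [Fintype V] {r : ℕ}

theorem eig {G : SimpleGraph V} {z : V → ℝ} {l : ℝ}
    (hz : ∀ v, ∑ u, adj G v u * z u = l * z v) (g : V → Option (Fin r)) (v : V) :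
    l * z v = ∑ u, adj G v u * ci g u * z u + ∑ u, adj G v u * (1 - ci g u) * z u := by
  rw [← hz v, ← sum_add_distrib]
  exact sum_congr rfl fun u _ => by ring

theorem eig_le {G : SimpleGraph V} {z : V → ℝ} {l : ℝ}
    (hz : ∀ v, ∑ u, adj G v u * z u = l * z v)
    {g : V → Option (Fin r)} {M Z : ℝ} (hM : ∀ u, g u ≠ none → z u ≤ M)
    (hZ : ∀ u, g u = none → z u ≤ Z) (v : V) :
    l * z v ≤ M * dc G g v + Z * dl G g v := by
  rw [eig hz g v]
  unfold dc dl
  rw [mul_sum, mul_sum]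
  refine add_le_add (sum_le_sum fun u _ => ?_) (sum_le_sum fun u _ => ?_)
  · by_cases hu : g u = none
    · rw [ci_none hu]
      simp
    · rw [ci_some hu]
      have := mul_le_mul_of_nonneg_left (hM u hu) (ItemKW3.adj_nonneg G v u)
      linarith
  · by_cases hu : g u = none
    · rw [ci_none hu]
      have := mul_le_mul_of_nonneg_left (hZ u hu) (ItemKW3.adj_nonneg G v u)
      linarith
    · rw [ci_some hu]
      simp

/-- the light part -/
theorem light_sq {G : SimpleGraph V} {z : V → ℝ} {l : ℝ}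
    (hz : ∀ v, ∑ u, adj G v u * z u = l * z v) (hz0 : ∀ v, 0 ≤ z v) (hl : 0 < l)
    {g : V → Option (Fin r)} {M b b' : ℝ} (hM1 : 1 ≤ M) (hM : ∀ u, g u ≠ none → z u ≤ M)
    (hZ : ∀ u, g u = none → z u ≤ 1 / 2)
    (hb : b = ((lightSet G g ∅).ncard : ℝ)) {w : V}
    (hbb : b = dc G g w + b') (hdw : dc G g w ≤ e1 G g)
    (hmax : ∀ v, g v = none → dc G g v ≤ dc G g w) :
    l ^ 2 * ∑ v, (1 - ci g v) * z v ^ 2 ≤ M ^ 2 * (b ^ 2 - b * b' / 2) := by
  have hbe := light_eq G g
  rw [← hb] at hbe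
  have h4 := e1_nonneg G g
  have h5 := e2_nonneg G g
  have hb'1 : e2 G g / 2 ≤ b' := by linarith
  have hpt : ∀ v, (1 - ci g v) * (l * z v) ^ 2 ≤
      (1 - ci g v) * (M ^ 2 * (b - b' / 2) * (dc G g v + 1 / 2 * dl G g v)) := by
    intro v
    by_cases hv : g v = none
    · refine mul_le_mul_of_nonneg_left ?_ (ci_le g v)
      have h6 := eig_le hz hM hZ v
      have h7 := dc_nonneg G g v
      have h8 := dl_nonneg G g v
      have h9 := hmax v hv
      have h10 := dl_le G g hv
      obtain ⟨y, hy⟩ : ∃ y, y = dc G g v + 1 / 2 * dl G g v := ⟨_, rfl⟩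
      have hy0 : 0 ≤ y := by rw [hy]; positivity
      have hy1 : y ≤ b - b' / 2 := by rw [hy]; linarith
      rw [← hy]
      have h12 : l * z v ≤ M * y := by
        rw [hy]
        have h13 := mul_le_mul_of_nonneg_right hM1 h8
        linarith
      have h13 : 0 ≤ l * z v := mul_nonneg hl.le (hz0 v)
      calc (l * z v) ^ 2 ≤ (M * y) ^ 2 := pow_le_pow_left₀ h13 h12 2
        _ = M ^ 2 * (y * y) := by ring
        _ ≤ M ^ 2 * ((b - b' / 2) * y) :=
            mul_le_mul_of_nonneg_left (mul_le_mul_of_nonneg_right hy1 hy0) (sq_nonneg M)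
        _ = M ^ 2 * (b - b' / 2) * y := by ring
    · rw [ci_some hv]
      simp
  have h6 := sum_le_sum fun v (_ : v ∈ univ) => hpt v
  have h7 : ∑ v, (1 - ci g v) * (l * z v) ^ 2 = l ^ 2 * ∑ v, (1 - ci g v) * z v ^ 2 := by
    rw [mul_sum]
    exact sum_congr rfl fun v _ => by ring
  have h8 : ∑ v, (1 - ci g v) * (M ^ 2 * (b - b' / 2) * (dc G g v + 1 / 2 * dl G g v)) =
      M ^ 2 * (b - b' / 2) * (e1 G g + 1 / 2 * e2 G g) := by
    unfold e1 e2
    rw [mul_sum, ← sum_add_distrib, mul_sum]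
    exact sum_congr rfl fun v _ => by ring
  rw [h7, h8] at h6
  refine h6.trans ?_
  have h10 : e1 G g + 1 / 2 * e2 G g = b := by linarith
  rw [h10]
  exact le_of_eq (by ring)

/-- the core part of the quadratic form -/
theorem core_form {G : SimpleGraph V} {z : V → ℝ} {l : ℝ}
    (hz : ∀ v, ∑ u, adj G v u * z u = l * z v) (hz0 : ∀ v, 0 ≤ z v) (g : V → Option (Fin r)) :
    l * ∑ v, ci g v * z v ^ 2 ≤
      ∑ v, ∑ u, adj G v u * ((ci g v * z v) * (ci g u * z u)) +
        l * ∑ v, (1 - ci g v) * z v ^ 2 := by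
  have h1 : l * ∑ v, ci g v * z v ^ 2 =
      ∑ v, ∑ u, adj G v u * ((ci g v * z v) * (ci g u * z u)) +
        ∑ v, ∑ u, (ci g v * z v) * (adj G v u * (1 - ci g u) * z u) := by
    rw [mul_sum, ← sum_add_distrib]
    refine sum_congr rfl fun v _ => ?_
    have h2 : l * (ci g v * z v ^ 2) = ci g v * z v * (l * z v) := by ring
    rw [h2, eig hz g v, mul_add, mul_sum, mul_sum]
    congr 1
    exact sum_congr rfl fun u _ => by ring
  have h2 : ∑ v, ∑ u, (ci g v * z v) * (adj G v u * (1 - ci g u) * z u) ≤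
      l * ∑ v, (1 - ci g v) * z v ^ 2 := by
    rw [sum_comm, mul_sum]
    refine sum_le_sum fun u _ => ?_
    have h3 : l * ((1 - ci g u) * z u ^ 2) = (1 - ci g u) * z u * (l * z u) := by ring
    rw [h3, eig hz g u, mul_add, mul_sum]
    have h4 : ∑ v, (ci g v * z v) * (adj G v u * (1 - ci g u) * z u) =
        ∑ v, (1 - ci g u) * z u * (adj G u v * ci g v * z v) :=
      sum_congr rfl fun v _ => by rw [adj_comm G v u]; ring
    rw [h4]
    have h5 : 0 ≤ (1 - ci g u) * z u * ∑ v, adj G u v * (1 - ci g v) * z v :=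
      mul_nonneg (mul_nonneg (ci_le g u) (hz0 u)) (sum_nonneg fun v _ =>
        mul_nonneg (mul_nonneg (ItemKW3.adj_nonneg G u v) (ci_le g v)) (hz0 v))
    linarith
  rw [h1]
  linarith

/-- the test vector -/
theorem test_vec (H : SimpleGraph V) (c : V → ℝ) (w : V) (τ : ℝ) (hcw : c w = 0) :
    ∃ y : V → ℝ, ∑ v, y v ^ 2 = ∑ v, c v ^ 2 + τ ^ 2 ∧
      qf H y = ∑ v, ∑ u, adj H v u * (c v * c u) + 2 * τ * ∑ u, adj H w u * c u := by
  classical
  refine ⟨fun v => c v + if v = w then τ else 0, ?_, ?_⟩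
  · have h1 : ∀ v, (c v + if v = w then τ else 0) ^ 2 = c v ^ 2 + if v = w then τ ^ 2 else 0 := by
      intro v
      by_cases h : v = w
      · rw [if_pos h, if_pos h, h, hcw]
        ring
      · rw [if_neg h, if_neg h]
        ring
    rw [sum_congr rfl fun v _ => h1 v, sum_add_distrib, sum_ite_eq' univ w, if_pos (mem_univ w)]
  · unfold qf
    have h1 : ∀ i j, adj H i j * ((c i + if i = w then τ else 0) * (c j + if j = w then τ else 0))
        = adj H i j * (c i * c j) + (if i = w then τ * (adj H i j * c j) else 0)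
          + (if j = w then τ * (adj H j i * c i) else 0)
          + (if i = w then (if j = w then τ * τ * adj H i j else 0) else 0) := by
      intro i j
      rw [adj_comm H j i]
      by_cases hi : i = w <;> by_cases hj : j = w <;> simp [hi, hj] <;> ring
    rw [sum_congr rfl fun i _ => sum_congr rfl fun j _ => h1 i j]
    simp only [sum_add_distrib]
    have h2 : ∑ i, ∑ j, (if i = w then τ * (adj H i j * c j) else 0)
        = τ * ∑ u, adj H w u * c u := by
      rw [sum_eq_single w (fun i _ hi => by simp [hi]) (fun h => absurd (mem_univ w) h), mul_sum]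
      simp
    have h3 : ∑ i, ∑ j, (if j = w then τ * (adj H j i * c i) else 0)
        = τ * ∑ u, adj H w u * c u := by
      rw [sum_comm, ← h2]
    have h4 : ∑ i, ∑ j, (if i = w then (if j = w then τ * τ * adj H i j else 0) else 0) = 0 := by
      refine sum_eq_zero fun i _ => sum_eq_zero fun j _ => ?_
      by_cases hi : i = w
      · by_cases hj : j = w
        · rw [if_pos hi, if_pos hj, hi, hj, adj_self]
          ring
        · rw [if_pos hi, if_neg hj]
      · rw [if_neg hi]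
    rw [h2, h3, h4]
    ring

end sums

/-- arithmetic -/
theorem final {x b b' d L2s : ℝ} (hx0 : 0 ≤ x) (hb0 : 0 < b) (hd0 : 0 ≤ d)
    (hdb : d ≤ b) (hxb : x * b ≤ 1)
    (h1 : d ^ 2 * (1 - x) ^ 2 ≤ L2s) (h2 : L2s ≤ (1 + x) ^ 2 * (b ^ 2 - b * b' / 2)) :
    b' ≤ 4 * (b - d) + 12 := by
  have h3 : (1 + x) ^ 2 * ((1 - 4 * x) * d ^ 2) ≤ (1 + x) ^ 2 * (b ^ 2 - b * b' / 2) := by
    refine le_trans ?_ (h1.trans h2)
    have h4 : (1 + x) ^ 2 * (1 - 4 * x) ≤ (1 - x) ^ 2 := by
      have h6 := mul_nonneg hx0 hx0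
      have h7 := mul_nonneg hx0 h6
      linarith
    have h5 := mul_le_mul_of_nonneg_right h4 (sq_nonneg d)
    linarith
  have h4 : (1 - 4 * x) * d ^ 2 ≤ b ^ 2 - b * b' / 2 :=
    le_of_mul_le_mul_left h3 (by positivity)
  have h5 : x * d ^ 2 ≤ b := by
    have h6 : d ^ 2 ≤ b ^ 2 := pow_le_pow_left₀ hd0 hdb 2
    have h7 := mul_le_mul_of_nonneg_left h6 hx0
    have h8 := mul_le_mul_of_nonneg_right hxb hb0.le
    linarith
  have h6 : b * b' ≤ b * (4 * (b - d) + 12) := by
    have h7 : b ^ 2 - d ^ 2 ≤ 2 * b * (b - d) := by nlinarith [sq_nonneg (b - d)]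
    linarith
  exact le_of_mul_le_mul_left h6 hb0

end SSWU

open SSWU ItemSLB in
theorem prfSSWU : P_statement → CNTU_statement → FLU_statement → SSWU_statement := by
  intro hP hC hFL r C hr hC0
  obtain ⟨C', n₁, hC'0, hFLU⟩ := hFL r C hr hC0
  obtain ⟨T, hT⟩ : ∃ T : ℝ, T = 1 + 6 * C' + C' * C := ⟨_, rfl⟩
  have hCC : 0 ≤ C' * C := mul_nonneg hC'0 hC0
  have hT1 : 1 ≤ T := by rw [hT]; linarith
  obtain ⟨N, hN⟩ := exists_nat_ge (T ^ 4)
  refine ⟨max n₁ N, ?_⟩
  intro V _ G H g w n d hn hNK hmiss hw hdeg hKU hd hdb hlam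
  have : Nonempty V := ⟨w⟩
  have hn₁ : n₁ ≤ n := (le_max_left _ _).trans hn
  have hNn : (N : ℝ) ≤ n := by exact_mod_cast (le_max_right _ _).trans hn
  obtain ⟨⟨z, hPer⟩, hall⟩ := hFLU V G g n hn₁ hNK
  obtain ⟨hcore, hlight, hlamn, -⟩ := hall z hPer
  -- the scale
  have hn0 : (0 : ℝ) ≤ n := Nat.cast_nonneg n
  obtain ⟨s, hs⟩ : ∃ s, s = Real.sqrt n := ⟨_, rfl⟩
  obtain ⟨h, hh⟩ : ∃ h, h = Real.sqrt s := ⟨_, rfl⟩
  have hs0 : 0 ≤ s := by rw [hs]; exact Real.sqrt_nonneg _
  have hs2 : s ^ 2 = n := by rw [hs]; exact Real.sq_sqrt hn0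
  have hh2 : h ^ 2 = s := by rw [hh]; exact Real.sq_sqrt hs0
  have hTn : T ^ 4 ≤ (n : ℝ) := hN.trans hNn
  have hTh : T ≤ h := by
    rw [hh]
    refine (Real.le_sqrt' (by linarith)).2 ?_
    rw [hs]
    refine (Real.le_sqrt' (by positivity)).2 ?_
    have e : (T ^ 2) ^ 2 = T ^ 4 := by ring
    rw [e]
    exact hTn
  have hfew := hNK.few
  rw [← hs, ← hh] at hfew hlight hlamn
  rw [← hs] at hcore
  have hh1 : 1 ≤ h := hT1.trans hTh
  have hh0 : 0 < h := by linarith
  have hn4 : (n : ℝ) = h ^ 4 := by rw [← hs2, ← hh2]; ring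
  have h6C : 6 * C' ≤ h := by linarith
  have hCCh : C' * C ≤ h := by linarith
  obtain ⟨x, hx⟩ : ∃ x, x = C' / s := ⟨_, rfl⟩
  rw [← hx] at hcore
  have hsh : s = h ^ 2 := hh2.symm
  have hs1 : 0 < s := by rw [hsh]; positivity
  have hhs : h ≤ s := by rw [hsh]; nlinarith
  have hx0 : 0 ≤ x := by rw [hx]; positivity
  have hx1 : x ≤ 1 := by
    rw [hx, div_le_one hs1]
    linarith
  have hnh : h * h ≤ n := by
    rw [hn4]
    have : 1 ≤ h ^ 2 := one_le_pow₀ hh1
    calc h * h = h ^ 2 * 1 := by ring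
      _ ≤ h ^ 2 * h ^ 2 := mul_le_mul_of_nonneg_left this (by positivity)
      _ = h ^ 4 := by ring
  have hnpos : (0 : ℝ) < n := by rw [hn4]; positivity
  have h6n : 6 * (C' * h) ≤ n := by
    have := mul_le_mul_of_nonneg_right h6C hh0.le
    linarith
  have hZ : ∀ u, g u = none → z u ≤ 1 / 2 := by
    intro u hu
    refine (hlight u hu).trans ?_
    rw [div_le_iff₀ hnpos]
    linarith
  have hM : ∀ u, g u ≠ none → z u ≤ 1 + x := by
    intro u hu
    have := (abs_le.1 (hcore u hu)).2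
    linarith
  have hlow : ∀ u, g u ≠ none → 1 - x ≤ z u := by
    intro u hu
    have := (abs_le.1 (hcore u hu)).1
    linarith
  have hr' : (3 : ℝ) ≤ r := by exact_mod_cast hr
  have hq : 2 / 3 ≤ qq r := by
    unfold qq
    have : 1 / (r : ℝ) ≤ 1 / 3 := one_div_le_one_div_of_le (by norm_num) hr'
    linarith
  have hl0 : 0 < lam G := by
    have h1 := (abs_le.1 hlamn).1
    have h2 : 2 / 3 * (n : ℝ) ≤ qq r * n := mul_le_mul_of_nonneg_right hq hn0
    linarith
  -- the number of edges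
  have hbw : ((lightSet G g ∅).ncard : ℝ) = dc G g w + ((lightSet G g {w}).ncard : ℝ) := by
    obtain ⟨e, he, hcnt⟩ := hC r V G g ∅ hNK.indep (fun v hv => absurd hv (notMem_empty v))
    obtain ⟨e', he', hcnt'⟩ := hC r V G g {w} hNK.indep (fun v hv => by
      rw [mem_singleton.1 hv]; exact hw)
    rw [card_empty, zero_mul] at he
    rw [card_singleton, Nat.sub_self, mul_zero] at he'
    have he0 : e = 0 := by omega
    have he0' : e' = 0 := by omega
    rw [he0, sum_empty] at hcnt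
    rw [he0', sum_singleton] at hcnt'
    rw [← dc_eq]
    have : (lightSet G g ∅).ncard = ∑ t, nbn G g w t + (lightSet G g {w}).ncard := by omega
    exact_mod_cast this
  have hout : outSet G g = lightSet G g ∅ := by
    unfold outSet lightSet
    ext e
    constructor
    · rintro ⟨h1, v, h2, h3⟩
      exact ⟨h1, v, h2, h3, notMem_empty v⟩
    · rintro ⟨h1, v, h2, h3, -⟩
      exact ⟨h1, v, h2, h3⟩
  have hmax : ∀ v, g v = none → dc G g v ≤ dc G g w := by
    intro v hv
    rw [← dc_eq, ← dc_eq]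
    exact_mod_cast hdeg v hv
  have hdc0 := dc_nonneg G g w
  rw [hout] at hfew hdb ⊢
  obtain ⟨b, hb⟩ : ∃ b, b = ((lightSet G g ∅).ncard : ℝ) := ⟨_, rfl⟩
  obtain ⟨b', hb'⟩ : ∃ b', b' = ((lightSet G g {w}).ncard : ℝ) := ⟨_, rfl⟩
  have hb'0 : 0 ≤ b' := by rw [hb']; exact Nat.cast_nonneg _
  have hdbR : (d : ℝ) ≤ b := by rw [hb]; exact_mod_cast hdb
  have hgoal : b' ≤ 4 * (b - d) + 12 → (lightSet G g {w}).ncard ≤
      4 * ((lightSet G g ∅).ncard - d) + 12 := by
    intro h1
    rw [hb', hb] at h1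
    have h2 : ((lightSet G g {w}).ncard : ℝ) ≤
        ((4 * ((lightSet G g ∅).ncard - d) + 12 : ℕ) : ℝ) := by
      push_cast [Nat.cast_sub hdb]
      exact h1
    exact_mod_cast h2
  apply hgoal
  rw [← hb, ← hb'] at hbw
  have hb0 : 0 ≤ b := by rw [hb]; exact Nat.cast_nonneg _
  rcases hb0.eq_or_lt with hbz | hbpos
  · have hd0 : (0 : ℝ) ≤ d := Nat.cast_nonneg d
    linarith
  have hbC : b ≤ C * h := by
    rw [hb]
    have : (0 : ℝ) ≤ ((missSet G g).ncard : ℝ) := Nat.cast_nonneg _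
    linarith
  have hxb : x * b ≤ 1 := by
    have h1 : x * b ≤ C' / s * (C * h) := by
      rw [hx]
      exact mul_le_mul_of_nonneg_left hbC (by positivity)
    have h2 : C' / s * (C * h) = C' * C / h := by
      rw [hsh]
      field_simp
    have h3 : C' * C / h ≤ 1 := by
      rw [div_le_one hh0]
      exact hCCh
    linarith
  have hsq := light_sq hPer.eig hPer.nonneg hl0 (b' := b') (by linarith : (1 : ℝ) ≤ 1 + x) hM hZ
    hb hbw (dc_le G g hw) hmax
  refine final (x := x) (L2s := lam G ^ 2 * ∑ v, (1 - ci g v) * z v ^ 2) hx0 hbpos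
    (Nat.cast_nonneg d) hdbR hxb ?_ hsq
  -- the test vector
  obtain ⟨Q, hQ⟩ : ∃ Q, Q = ∑ v, ci g v * z v ^ 2 := ⟨_, rfl⟩
  obtain ⟨S, hS⟩ : ∃ S, S = ∑ v, (1 - ci g v) * z v ^ 2 := ⟨_, rfl⟩
  rw [← hS]
  have hcf := core_form hPer.eig hPer.nonneg g
  rw [← hQ, ← hS] at hcf
  obtain ⟨-, hR, -⟩ := hP V H
  obtain ⟨τ, hτ⟩ : ∃ τ : ℝ, τ = d * (1 - x) / lam G := ⟨_, rfl⟩
  have hτ0 : 0 ≤ τ := by
    rw [hτ]
    exact div_nonneg (mul_nonneg (Nat.cast_nonneg d) (by linarith)) hl0.le
  obtain ⟨y, hy2, hyq⟩ := test_vec H (fun v => ci g v * z v) w τ (by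
    show ci g w * z w = 0
    rw [ci_none hw, zero_mul])
  have hy := hR y
  rw [hyq, hy2] at hy
  have hQ' : ∑ v, (ci g v * z v) ^ 2 = Q := by
    rw [hQ]
    exact sum_congr rfl fun v _ => by rw [mul_pow, ci_sq]
  rw [hQ'] at hy
  have hQ0 : 0 ≤ Q := by
    rw [hQ]
    exact sum_nonneg fun v _ => mul_nonneg (ci_nonneg g v) (sq_nonneg _)
  have hGH : ∑ v, ∑ u, adj H v u * ((ci g v * z v) * (ci g u * z u)) =
      ∑ v, ∑ u, adj G v u * ((ci g v * z v) * (ci g u * z u)) := by
    refine sum_congr rfl fun v _ => sum_congr rfl fun u _ => ?_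
    by_cases hv : g v = none
    · rw [ci_none hv]
      simp
    by_cases hu : g u = none
    · rw [ci_none hu]
      simp
    congr 1
    have hms : missSet G g = ∅ := (Set.ncard_eq_zero (Set.toFinite _)).1 hmiss
    have hiff : G.Adj v u ↔ g v ≠ g u := by
      constructor
      · intro h1 h2
        exact hNK.indep v u hv h2 h1
      · intro h1
        by_contra h2
        have h3 : s(v, u) ∈ missSet G g := ⟨v, u, rfl, hv, hu, h1, h2⟩
        rw [hms] at h3
        exact h3
    unfold adj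
    by_cases h1 : g v ≠ g u
    · rw [if_pos ((hKU.core v u hv hu).2 h1), if_pos (hiff.2 h1)]
    · rw [if_neg fun h2 => h1 ((hKU.core v u hv hu).1 h2), if_neg fun h2 => h1 (hiff.1 h2)]
  rw [hGH] at hy
  have hdH : (1 - x) * (d : ℝ) ≤ ∑ u, adj H w u * (ci g u * z u) := by
    have h1 : (d : ℝ) = dc H g w := by rw [← dc_eq, hd]
    rw [h1]
    unfold dc
    rw [mul_sum]
    refine sum_le_sum fun u _ => ?_
    by_cases hu : g u = none
    · rw [ci_none hu]
      simp
    · rw [ci_some hu]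
      have := mul_le_mul_of_nonneg_left (hlow u hu) (ItemKW3.adj_nonneg H w u)
      linarith
  have h1 : lam H * (Q + τ ^ 2) ≤ lam G * (Q + τ ^ 2) :=
    mul_le_mul_of_nonneg_right hlam (by positivity)
  have h2 : 2 * τ * ((1 - x) * d) ≤ 2 * τ * ∑ u, adj H w u * (ci g u * z u) :=
    mul_le_mul_of_nonneg_left hdH (by linarith)
  have h3 : 2 * τ * ((1 - x) * d) ≤ lam G * S + lam G * τ ^ 2 := by linarith
  have h4 : lam G * τ = d * (1 - x) := by
    rw [hτ]
    field_simp
  have h5 : lam G * (2 * τ * ((1 - x) * d)) ≤ lam G * (lam G * S + lam G * τ ^ 2) :=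
    mul_le_mul_of_nonneg_left h3 hl0.le
  have h6 : lam G * (2 * τ * ((1 - x) * d)) = 2 * (d ^ 2 * (1 - x) ^ 2) := by
    calc lam G * (2 * τ * ((1 - x) * d)) = 2 * (lam G * τ) * ((1 - x) * d) := by ring
      _ = 2 * (d ^ 2 * (1 - x) ^ 2) := by rw [h4]; ring
  have h7 : lam G * (lam G * S + lam G * τ ^ 2) = lam G ^ 2 * S + d ^ 2 * (1 - x) ^ 2 := by
    calc lam G * (lam G * S + lam G * τ ^ 2) = lam G ^ 2 * S + (lam G * τ) ^ 2 := by ring
      _ = lam G ^ 2 * S + d ^ 2 * (1 - x) ^ 2 := by rw [h4]; ring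
  rw [h6, h7] at h5
  linarith

end MP0c3a8f

end

section

/-!
# MP_0c3a8f_co, PB6, item TRK
-/

open Finset

namespace MP0c3a8f

namespace ItemTRK

theorem lam_empty {V : Type} [Fintype V] [IsEmpty V] (G : SimpleGraph V) : lam G = 0 := by
  unfold lam
  have h : {μ : ℝ | ∃ x : V → ℝ, x ≠ 0 ∧ ∀ i, ∑ j, adj G i j * x j = μ * x i} = ∅ := by
    apply Set.eq_empty_of_forall_notMem
    rintro μ ⟨x, hx, -⟩
    exact hx (Subsingleton.elim _ _)
  rw [h, Real.sSup_empty]

theorem lam_nonneg (hP : P_statement) {V : Type} [Fintype V] (G : SimpleGraph V) :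
    0 ≤ lam G := by
  by_cases hV : Nonempty V
  · exact (hP V G).1
  · rw [not_nonempty_iff] at hV
    rw [lam_empty]

theorem qf_eq {V : Type} [Fintype V] (H : SimpleGraph V) (x : V → ℝ)
    (hx1 : ∑ i, x i ^ 2 = 1) (heig : ∀ i, ∑ j, adj H i j * x j = lam H * x i) :
    qf H x = lam H := by
  have : qf H x = ∑ i, x i * ∑ j, adj H i j * x j := by
    unfold qf
    apply Finset.sum_congr rfl
    intro i _
    rw [Finset.mul_sum]
    apply Finset.sum_congr rfl
    intro j _
    ring
  rw [this]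
  calc ∑ i, x i * ∑ j, adj H i j * x j = ∑ i, lam H * x i ^ 2 :=
        Finset.sum_congr rfl (fun i _ => by rw [heig i]; ring)
    _ = lam H := by rw [← Finset.mul_sum, hx1, mul_one]

theorem exists_map {r : ℕ} {V U : Type} [Fintype V] [Fintype U] {H : SimpleGraph V}
    {G : SimpleGraph U} {g : V → Option (Fin r)} {f : U → Option (Fin r)} (u : U)
    (hH : IsKU H g ∅) (hG : IsKU G f ∅) (hs : ∀ t, siz g t = siz f t) :
    ∃ φ : V → U, (∀ v v', g v ≠ none → g v' ≠ none → φ v = φ v' → v = v') ∧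
      ∀ v v', g v ≠ none → g v' ≠ none → H.Adj v v' → G.Adj (φ v) (φ v') := by
  classical
  have hex : ∀ t, ∃ φ : V → U, (∀ v ∈ {v | g v = some t}, φ v ∈ {y | f y = some t}) ∧
      (∀ v ∈ {v | g v = some t}, ∀ v' ∈ {v | g v = some t}, φ v = φ v' → v = v') ∧
      ∀ v ∈ (∅ : Set V), φ v ∈ (∅ : Set U) := fun t =>
    ItemTRF.ext_inj _ _ _ _ (Set.empty_subset _) (Set.empty_subset _) (hs t) (by simp) u
  choose p hp1 hp2 hp3 using hex
  let φ : V → U := fun v => (g v).elim u (fun t => p t v)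
  have hφ : ∀ v t, g v = some t → φ v = p t v := fun v t h => by simp only [φ, h, Option.elim]
  have hf : ∀ v, g v ≠ none → f (φ v) = g v := by
    intro v hv
    obtain ⟨t, ht⟩ := Option.ne_none_iff_exists'.1 hv
    rw [hφ v t ht, ht]
    exact hp1 t v ht
  refine ⟨φ, ?_, ?_⟩
  · intro v v' hv hv' h
    have h1 : g v = g v' := by rw [← hf v hv, ← hf v' hv', h]
    obtain ⟨t, ht⟩ := Option.ne_none_iff_exists'.1 hv
    have ht' : g v' = some t := by rw [← h1, ht]
    rw [hφ v t ht, hφ v' t ht'] at h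
    exact hp2 t v ht v' ht' h
  · intro v v' hv hv' h
    rw [hH.core v v' hv hv'] at h
    rw [hG.core _ _ (by rwa [hf v hv]) (by rwa [hf v' hv']), hf v hv, hf v' hv']
    exact h

theorem le (hP : P_statement) {r : ℕ} {V U : Type} [Fintype V] [Fintype U] {H : SimpleGraph V}
    {G : SimpleGraph U} {g : V → Option (Fin r)} {f : U → Option (Fin r)}
    (hH : IsKU H g ∅) (hG : IsKU G f ∅) (hs : ∀ t, siz g t = siz f t) : lam H ≤ lam G := by
  classical
  by_cases hV : Nonempty V
  · obtain ⟨_, _, x, hx, hx1, heig⟩ := hP V H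
    have hq := qf_eq H x hx1 heig
    by_cases hU : Nonempty U
    · obtain ⟨u⟩ := hU
      have : Nonempty U := ⟨u⟩
      obtain ⟨φ, hinj, hadj⟩ := exists_map u hH hG hs
      obtain ⟨hG0, hGq, _⟩ := hP U G
      have hmem : ∀ v, v ∈ (Finset.univ.filter fun v => g v ≠ none) ↔ g v ≠ none :=
        fun v => by simp
      obtain ⟨y, hy1, hy2⟩ := ItemTRF.push (H := H) (G := G)
        (Finset.univ.filter fun v => g v ≠ none) φ
        (fun v hv v' hv' h => hinj v v' ((hmem v).1 hv) ((hmem v').1 hv') h)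
        (fun v hv v' hv' h => hadj v v' ((hmem v).1 hv) ((hmem v').1 hv') h)
        (fun v v' hv => by
          rw [hmem, not_not] at hv
          exact hH.iso v v' hv (by simp)) x hx
      rw [hx1] at hy2
      calc lam H = qf H x := hq.symm
        _ ≤ qf G y := hy1
        _ ≤ lam G * ∑ b, y b ^ 2 := hGq y
        _ ≤ lam G * 1 := mul_le_mul_of_nonneg_left hy2 hG0
        _ = lam G := mul_one _
    · rw [not_nonempty_iff] at hU
      have hno : ∀ v, g v = none := by
        intro v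
        by_contra hv
        obtain ⟨t, ht⟩ := Option.ne_none_iff_exists'.1 hv
        have h1 : siz f t = 0 := by
          unfold siz
          rw [Set.eq_empty_of_forall_notMem (s := {y | f y = some t}) (fun y _ => hU.elim y),
            Set.ncard_empty]
        have h2 := hs t
        rw [h1] at h2
        unfold siz at h2
        rw [Set.ncard_eq_zero (Set.toFinite _)] at h2
        have : v ∈ {v | g v = some t} := ht
        rw [h2] at this
        exact this
      have h0 : qf H x = 0 := by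
        unfold qf
        apply Finset.sum_eq_zero
        intro i _
        apply Finset.sum_eq_zero
        intro j _
        unfold adj
        rw [if_neg (hH.iso i j (hno i) (by simp)), zero_mul]
      rw [← hq, h0]
      exact lam_nonneg hP G
  · rw [not_nonempty_iff] at hV
    rw [lam_empty]
    exact lam_nonneg hP G

end ItemTRK

theorem prfTRK : P_statement → TRK_statement := by
  intro hP r V U _ _ G H g f hG hH hs
  exact le_antisymm (ItemTRK.le hP hG hH hs) (ItemTRK.le hP hH hG fun t => (hs t).symm)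

end MP0c3a8f

end

section

/-!
# Item GVG: permuting the excesses of the parts
-/

set_option autoImplicit false

namespace MP0c3a8f

namespace GVG

open Finset

/-- the sum of a function with values `f`, `f + 1` -/
theorem sum_two {ι : Type} [DecidableEq ι] (B : Finset ι) (d : ι → ℕ) (f : ℕ)
    (h : ∀ k ∈ B, d k = f ∨ d k = f + 1) :
    ∑ k ∈ B, d k = B.card * f + (B.filter fun k => d k = f + 1).card := by
  rw [Finset.card_filter, ← smul_eq_mul, ← Finset.sum_const, ← Finset.sum_add_distrib]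
  refine Finset.sum_congr rfl fun k hk => ?_
  rcases h k hk with h1 | h1
  · rw [h1, if_neg (by omega)]
    rfl
  · rw [h1, if_pos rfl]

theorem exists_min {ι : Type} [DecidableEq ι] (B : Finset ι) (hB : B.Nonempty) (d : ι → ℕ)
    (h : ∀ k ∈ B, ∀ l ∈ B, d k ≤ d l + 1) :
    ∃ f, (∀ k ∈ B, d k = f ∨ d k = f + 1) ∧ (B.filter fun k => d k = f + 1).card < B.card := by
  obtain ⟨l, hl, hm⟩ := Finset.exists_min_image B d hB
  refine ⟨d l, fun k hk => ?_, ?_⟩
  · have h1 := hm k hk
    have h2 := h k hk l hl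
    omega
  · refine Finset.card_lt_card ⟨Finset.filter_subset _ _, fun hs => ?_⟩
    have := (Finset.mem_filter.1 (hs hl)).2
    omega

theorem same_count {ι : Type} [DecidableEq ι] (B : Finset ι) (d d' : ι → ℕ)
    (h : ∀ k ∈ B, ∀ l ∈ B, d k ≤ d l + 1) (h' : ∀ k ∈ B, ∀ l ∈ B, d' k ≤ d' l + 1)
    (hs : ∑ k ∈ B, d k = ∑ k ∈ B, d' k) (v : ℕ) :
    (B.filter fun k => d k = v).card = (B.filter fun k => d' k = v).card := by
  rcases B.eq_empty_or_nonempty with rfl | hB
  · rfl
  obtain ⟨f, h1, h2⟩ := exists_min B hB d h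
  obtain ⟨f', h1', h2'⟩ := exists_min B hB d' h'
  have s := sum_two B d f h1
  have s' := sum_two B d' f' h1'
  have hc : B.card * f + (B.filter fun k => d k = f + 1).card =
      B.card * f' + (B.filter fun k => d' k = f' + 1).card := by
    rw [← s, ← s', hs]
  have hff : f = f' := by
    have e1 := congrArg (fun x => x / B.card) hc
    have hpos : 0 < B.card := Finset.card_pos.2 hB
    simp only [Nat.mul_add_div hpos, Nat.div_eq_of_lt h2, Nat.div_eq_of_lt h2', add_zero] at e1
    exact e1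
  subst hff
  have ha : (B.filter fun k => d k = f + 1).card = (B.filter fun k => d' k = f + 1).card := by
    omega
  by_cases hv : v = f + 1
  · rw [hv]
    exact ha
  by_cases hv2 : v = f
  · subst hv2
    have e : ∀ g : ι → ℕ, (∀ k ∈ B, g k = v ∨ g k = v + 1) →
        (B.filter fun k => g k = v).card + (B.filter fun k => g k = v + 1).card = B.card := by
      intro g hg
      rw [← Finset.card_union_of_disjoint]
      · congr 1
        ext k
        rw [Finset.mem_union, Finset.mem_filter, Finset.mem_filter]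
        constructor
        · rintro (hk | hk) <;> exact hk.1
        · intro hk
          rcases hg k hk with h3 | h3
          · exact Or.inl ⟨hk, h3⟩
          · exact Or.inr ⟨hk, h3⟩
      · rw [Finset.disjoint_left]
        intro k hk hk'
        rw [Finset.mem_filter] at hk hk'
        omega
    have e1 := e d h1
    have e2 := e d' h1'
    omega
  · have e : ∀ g : ι → ℕ, (∀ k ∈ B, g k = f ∨ g k = f + 1) →
        (B.filter fun k => g k = v).card = 0 := by
      intro g hg
      rw [Finset.card_eq_zero, Finset.filter_eq_empty_iff]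
      intro k hk hk'
      rcases hg k hk with h3 | h3 <;> omega
    rw [e d h1, e d' h1']

/-- a permutation moving `d` to `d'` inside `B` -/
theorem perm {r : ℕ} (B : Finset (Fin r)) (d d' : Fin r → ℕ)
    (hc : ∀ v, (B.filter fun k => d k = v).card = (B.filter fun k => d' k = v).card) :
    ∃ π : Equiv.Perm (Fin r), (∀ t, t ∉ B → π t = t) ∧ (∀ t ∈ B, π t ∈ B ∧ d' (π t) = d t) := by
  classical
  let F : Fin r → Fin r ⊕ ℕ := fun t => if t ∈ B then Sum.inr (d t) else Sum.inl t
  let F' : Fin r → Fin r ⊕ ℕ := fun t => if t ∈ B then Sum.inr (d' t) else Sum.inl t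
  have hF : ∀ c, Fintype.card {t // F t = c} = Fintype.card {t // F' t = c} := by
    intro c
    rw [Fintype.card_subtype, Fintype.card_subtype]
    rcases c with s | v
    · congr 1
      ext t
      simp only [Finset.mem_filter, Finset.mem_univ, true_and, F, F']
      by_cases ht : t ∈ B
      · rw [if_pos ht, if_pos ht]
        constructor <;> intro h <;> exact absurd h (by simp)
      · rw [if_neg ht, if_neg ht]
    · have e : ∀ g : Fin r → ℕ, (Finset.univ.filter fun t =>
          (if t ∈ B then Sum.inr (g t) else Sum.inl t : Fin r ⊕ ℕ) = Sum.inr v) =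
          B.filter fun t => g t = v := by
        intro g
        ext t
        simp only [Finset.mem_filter, Finset.mem_univ, true_and]
        by_cases ht : t ∈ B
        · rw [if_pos ht]
          simp [ht]
        · rw [if_neg ht]
          simp [ht]
      show (Finset.univ.filter fun t =>
          (if t ∈ B then Sum.inr (d t) else Sum.inl t : Fin r ⊕ ℕ) = Sum.inr v).card =
        (Finset.univ.filter fun t =>
          (if t ∈ B then Sum.inr (d' t) else Sum.inl t : Fin r ⊕ ℕ) = Sum.inr v).card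
      rw [e d, e d']
      exact hc v
  let π : Equiv.Perm (Fin r) := Equiv.ofFiberEquiv fun c => Fintype.equivOfCardEq (hF c)
  have hπ : ∀ t, F' (π t) = F t := fun t => Equiv.ofFiberEquiv_map _ t
  refine ⟨π, fun t ht => ?_, fun t ht => ?_⟩
  · have h1 := hπ t
    simp only [F, F', if_neg ht] at h1
    by_cases h2 : π t ∈ B
    · rw [if_pos h2] at h1
      exact absurd h1 (by simp)
    · rw [if_neg h2] at h1
      exact Sum.inl.inj h1
  · have h1 := hπ t
    simp only [F, F', if_pos ht] at h1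
    by_cases h2 : π t ∈ B
    · rw [if_pos h2] at h1
      exact ⟨h2, Sum.inr.inj h1⟩
    · rw [if_neg h2] at h1
      exact absurd h1 (by simp)

end GVG

theorem prfGVG : GVG_statement := by
  classical
  intro r m₀ A ρ d d' hA _ hlt heq hs
  rcases A.eq_empty_or_nonempty with rfl | hAn
  · exact ⟨1, fun t _ => rfl, fun t => rfl, fun t => (hA t (Finset.notMem_empty t)).symm⟩
  obtain ⟨k₀, hk₀, hmin⟩ := Finset.exists_min_image A ρ hAn
  set B := A.filter fun t => ρ t = ρ k₀ with hB
  have hout : ∀ t, t ∉ B → d t = d' t := by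
    intro t ht
    by_cases htA : t ∈ A
    · have h1 : ρ t ≠ ρ k₀ := fun h => ht (Finset.mem_filter.2 ⟨htA, h⟩)
      have h2 : ρ k₀ < ρ t := lt_of_le_of_ne (hmin t htA) (Ne.symm h1)
      obtain ⟨h3, h4⟩ := hlt t htA k₀ hk₀ h2
      rw [h3, h4]
    · exact hA t htA
  have hsB : ∑ k ∈ B, d k = ∑ k ∈ B, d' k := by
    have e := Finset.sum_add_sum_compl B d
    have e' := Finset.sum_add_sum_compl B d'
    have e3 : ∑ t ∈ Bᶜ, d t = ∑ t ∈ Bᶜ, d' t :=
      Finset.sum_congr rfl fun t ht => hout t (Finset.mem_compl.1 ht)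
    omega
  have hr : ∀ k ∈ B, ∀ l ∈ B, ρ k = ρ l := fun k hk l hl =>
    (Finset.mem_filter.1 hk).2.trans (Finset.mem_filter.1 hl).2.symm
  have hBA : ∀ k ∈ B, k ∈ A := fun k hk => (Finset.mem_filter.1 hk).1
  have hc := GVG.same_count B d d'
    (fun k hk l hl => (heq k (hBA k hk) l (hBA l hl) (hr k hk l hl)).1)
    (fun k hk l hl => (heq k (hBA k hk) l (hBA l hl) (hr k hk l hl)).2) hsB
  obtain ⟨π, h1, h2⟩ := GVG.perm B d d' hc
  refine ⟨π, fun t ht => h1 t (fun h => ht (hBA t h)), fun t => ?_, fun t => ?_⟩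
  · by_cases ht : t ∈ B
    · exact hr _ (h2 t ht).1 _ ht
    · rw [h1 t ht]
  · by_cases ht : t ∈ B
    · exact (h2 t ht).2
    · rw [h1 t ht]
      exact (hout t ht).symm

end MP0c3a8f

end

section

/-!
# MP_0c3a8f_co, phase B, item MEMP: graphs of type `P`
-/

set_option autoImplicit false

open Finset

namespace MP0c3a8f

namespace MEMPx

variable {r : ℕ} {V : Type} [Fintype V] {G : SimpleGraph V} {f : V → Option (Fin r)} {w : V}
  {q : Fin r → V} {i : Fin r} {L : Finset V}

omit [Fintype V] in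
theorem fw (h : TyP G f w q i L) : f w = none := (h.out w).2 rfl

omit [Fintype V] in
theorem indep (h : TyP G f w q i L) : Indep G f := by
  intro x y hx hxy hadj
  have hy : f y ≠ none := hxy ▸ hx
  exact ((h.core x y hx hy).1 hadj).1 hxy

omit [Fintype V] in
theorem q_inj (h : TyP G f w q i L) : Function.Injective q := by
  intro s t hst
  have h1 := h.hq s
  rw [hst, h.hq t] at h1
  exact (Option.some_injective _ h1).symm

/-- vertices outside `L` and different from `q i` -/
theorem exists_y (h : TyP G f w q i L) (t : Fin r) : ∃ y, f y = some t ∧ y ∉ L ∧ y ≠ q i := by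
  classical
  by_contra hcon
  push Not at hcon
  have h1 : {v | f v = some t} ⊆ ((insert (q i) L : Finset V) : Set V) := by
    intro y hy
    rw [mem_coe, mem_insert]
    by_cases hyL : y ∈ L
    · exact Or.inr hyL
    · exact Or.inl (hcon y hy hyL)
  have h2 := Set.ncard_le_ncard h1 (Finset.finite_toSet _)
  rw [Set.ncard_coe_finset] at h2
  have h3 := card_insert_le (q i) L
  have h4 := h.room t
  unfold siz at h4
  omega

theorem free (h : TyP G f w q i L) : (⊤ : SimpleGraph (Fin (r + 1))).Free G := by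
  classical
  rintro ⟨φ⟩
  have hadj : ∀ a b : Fin (r + 1), a ≠ b → G.Adj (φ a) (φ b) := fun a b hab =>
    φ.toHom.map_adj ((SimpleGraph.top_adj a b).2 hab)
  have hinj : Function.Injective φ := φ.injective
  by_cases hw : ∃ a, φ a = w
  · obtain ⟨a₀, ha₀⟩ := hw
    have hsub : (univ.erase a₀).image φ ⊆ univ.image q := by
      intro y hy
      obtain ⟨a, ha, h1⟩ := mem_image.1 hy
      have h2 := hadj a₀ a (mem_erase.1 ha).1.symm
      rw [ha₀, h1, h.wn] at h2
      obtain ⟨t, ht⟩ := h2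
      exact mem_image.2 ⟨t, mem_univ _, ht.symm⟩
    have hcard : ((univ.erase a₀).image φ).card = r := by
      rw [card_image_of_injective _ hinj, card_erase_of_mem (mem_univ a₀), card_univ,
        Fintype.card_fin]; rfl
    have heq : (univ.erase a₀).image φ = univ.image q :=
      eq_of_subset_of_card_le hsub (by
        rw [hcard, card_image_of_injective _ (q_inj h), card_univ, Fintype.card_fin])
    obtain ⟨t, ht⟩ := h.ex
    have h1 : q i ∈ (univ.erase a₀).image φ := by
      rw [heq]; exact mem_image_of_mem _ (mem_univ _)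
    have h2 : q t ∈ (univ.erase a₀).image φ := by
      rw [heq]; exact mem_image_of_mem _ (mem_univ _)
    obtain ⟨a, -, ha⟩ := mem_image.1 h1
    obtain ⟨b, -, hb⟩ := mem_image.1 h2
    have hab : a ≠ b := by
      rintro rfl
      rw [ha] at hb
      have h3 := (h.hL _ ht).2
      rw [← hb] at h3
      exact h3 (h.hq i)
    have h3 := hadj a b hab
    rw [ha, hb] at h3
    exact ((h.core _ _ (by rw [h.hq]; simp) (by rw [h.hq]; simp)).1 h3).2.1 ⟨rfl, ht⟩
  · push Not at hw
    have hcore : ∀ a, f (φ a) ≠ none := fun a hn => hw a ((h.out _).1 hn)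
    have hc : ∀ a, ∃ t : Fin r, f (φ a) = some t := fun a =>
      Option.ne_none_iff_exists'.1 (hcore a)
    choose c hc using hc
    obtain ⟨a, b, hab, h1⟩ := Fintype.exists_ne_map_eq_of_card_lt c (by simp)
    have h2 := (h.core _ _ (hcore a) (hcore b)).1 (hadj a b hab)
    rw [hc a, hc b, h1] at h2
    exact h2.1 rfl

theorem notCol (h : TyP G f w q i L) : ¬ G.Colorable r := by
  classical
  rintro ⟨c⟩
  choose y hy hyL hyq using exists_y h
  have hcy : Function.Injective (fun t => c (y t)) := by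
    intro s t hst
    by_contra hne
    have h1 : G.Adj (y s) (y t) :=
      (h.core _ _ (by rw [hy]; simp) (by rw [hy]; simp)).2
        ⟨by rw [hy, hy]; simpa using hne, fun h2 => hyq s h2.1, fun h2 => hyq t h2.1⟩
    exact (c.valid h1) hst
  have hsur : Function.Surjective (fun t => c (y t)) := Finite.injective_iff_surjective.1 hcy
  have hq : ∀ t, c (q t) = c (y t) := by
    intro t
    obtain ⟨s, hs⟩ := hsur (c (q t))
    have hs' : c (y s) = c (q t) := hs
    by_cases hst : s = t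
    · subst hst; exact hs'.symm
    · exfalso
      have h1 : G.Adj (y s) (q t) :=
        (h.core _ _ (by rw [hy]; simp) (by rw [h.hq]; simp)).2
          ⟨by rw [hy, h.hq]; simpa using hst, fun h2 => hyq s h2.1, fun h2 => hyL s h2.2⟩
      exact (c.valid h1) hs'
  obtain ⟨t, ht⟩ := hsur (c w)
  have ht' : c (y t) = c w := ht
  have h1 : G.Adj w (q t) := (h.wn _).2 ⟨t, rfl⟩
  exact (c.valid h1) (by rw [hq, ht'])

theorem noIso (h : TyP G f w q i L) (hr : 3 ≤ r) (v : V) : ∃ u, G.Adj v u := by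
  cases hv : f v with
  | none =>
    rw [(h.out v).1 hv]
    exact ⟨q i, (h.wn _).2 ⟨i, rfl⟩⟩
  | some t =>
    obtain ⟨s, hs⟩ : ∃ s : Fin r, s ≠ t := by
      haveI : Nontrivial (Fin r) := Fin.nontrivial_iff_two_le.2 (by omega)
      exact exists_ne t
    obtain ⟨y, hy, hyL, hyq⟩ := exists_y h s
    refine ⟨y, (h.core _ _ (by rw [hv]; simp) (by rw [hy]; simp)).2
      ⟨by rw [hv, hy]; simpa using hs.symm, fun h2 => hyL h2.2, fun h2 => hyq h2.1⟩⟩

theorem miss_card (h : TyP G f w q i L) : (missSet G f).ncard = L.card := by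
  classical
  have h1 : missSet G f = ((L.image fun v => s(q i, v) : Finset (Sym2 V)) : Set (Sym2 V)) := by
    ext e
    rw [coe_image]
    constructor
    · rintro ⟨v, u, rfl, hv, hu, hne, hadj⟩
      have h2 : (v = q i ∧ u ∈ L) ∨ (u = q i ∧ v ∈ L) := by
        by_contra hcon
        push Not at hcon
        exact hadj ((h.core v u hv hu).2 ⟨hne, fun h3 => hcon.1 h3.1 h3.2,
          fun h3 => hcon.2 h3.1 h3.2⟩)
      rcases h2 with ⟨e1, e2⟩ | ⟨e1, e2⟩
      · exact ⟨u, mem_coe.2 e2, by rw [e1]⟩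
      · exact ⟨v, mem_coe.2 e2, by rw [e1]; exact Sym2.eq_swap⟩
    · rintro ⟨v, hv, rfl⟩
      have hv' : v ∈ L := mem_coe.1 hv
      obtain ⟨h2, h3⟩ := h.hL v hv'
      have hne : f (q i) ≠ f v := by
        rw [h.hq]; exact fun h4 => h3 h4.symm
      refine ⟨q i, v, rfl, by rw [h.hq]; simp, h2, hne, fun hadj => ?_⟩
      exact ((h.core _ _ (by rw [h.hq]; simp) h2).1 hadj).2.1 ⟨rfl, hv'⟩
  rw [h1, Set.ncard_coe_finset, card_image_of_injOn]
  intro v _ v' _ hvv
  exact (Sym2.congr_right.1 hvv)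

theorem out_card (h : TyP G f w q i L) : (outSet G f).ncard = r := by
  classical
  have h1 : outSet G f = ((univ.image fun t => s(w, q t) : Finset (Sym2 V)) : Set (Sym2 V)) := by
    ext e
    rw [coe_image]
    induction e using Sym2.ind with
    | _ a b =>
    constructor
    · rintro ⟨he, x, hx, hfx⟩
      have hxw := (h.out x).1 hfx
      subst hxw
      have hadj : G.Adj a b := he
      rcases Sym2.mem_iff.1 hx with e1 | e1
      · subst e1
        obtain ⟨t, ht⟩ := (h.wn b).1 hadj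
        exact ⟨t, by simp, by rw [ht]⟩
      · subst e1
        obtain ⟨t, ht⟩ := (h.wn a).1 hadj.symm
        exact ⟨t, by simp, by rw [ht]; exact Sym2.eq_swap⟩
    · rintro ⟨t, -, ht⟩
      have ht' : s(w, q t) = s(a, b) := ht
      rw [← ht']
      exact ⟨(h.wn _).2 ⟨t, rfl⟩, w, Sym2.mem_mk_left _ _, fw h⟩
  rw [h1, Set.ncard_coe_finset, card_image_of_injective, card_univ, Fintype.card_fin]
  intro s t hst
  exact q_inj h (Sym2.congr_right.1 hst)

end MEMPx

theorem prfMEMP : MEMP_statement := by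
  intro r V _ G f w q i L hr h
  refine ⟨MEMPx.free h, MEMPx.notCol h, MEMPx.noIso h hr, MEMPx.indep h, MEMPx.miss_card h,
    MEMPx.out_card h, ?_⟩
  have hM : IsModS (siz f) L.card r G f :=
    ⟨fun t => rfl, MEMPx.indep h, MEMPx.miss_card h, MEMPx.out_card h⟩
  have h1 := prfREDS.2 r (siz f) _ _ V G f hM
  unfold Sz at h1
  exact h1

end MP0c3a8f

end

section

/-!
# MP_0c3a8f_co, phase B, item NLU: the structure of the extremal graphs in the upper range
-/

open Finset

namespace MP0c3a8f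

namespace ItemNLU

/-- the deviation of the sizes of the classes -/
theorem dev_le (hC : CNTU_statement) (hD : DEV_statement) {V : Type} [Fintype V] {r n B m : ℕ}
    (hr : 1 ≤ r) (G : SimpleGraph V) (g : V → Option (Fin r)) (hi : Indep G g)
    (ht : ∑ t, siz g t = n) (hm : G.edgeSet.ncard = m)
    (hB : m + B = (SimpleGraph.turanGraph n r).edgeSet.ncard) :
    dev (siz g) ≤ 2 * B + r + 2 * ((outSet G g).ncard : ℝ) := by
  have h1 := ItemFINU.count hC hD hr G g hi ht
  rw [ItemFINU.light_eq, hm] at h1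
  obtain ⟨e1, -, e3, -, -, -⟩ := hD r n (siz g) hr ht
  obtain ⟨-, -, -, e4, -, e6⟩ := hD r n (tz r n) hr e1
  unfold Sz at e6
  rw [e1] at e6
  have e7 : 2 * ((m : ℝ) + B) + ∑ t, (tz r n t : ℝ) ^ 2 = (n : ℝ) ^ 2 := by
    have e8 : 2 * (m + B) + ∑ t, tz r n t ^ 2 = n ^ 2 := by
      rw [hB]; omega
    exact_mod_cast e8
  have e9 : qq r * (n : ℝ) ^ 2 = 2 * ((m : ℝ) + B) + dev (tz r n) := by
    rw [e4]
    unfold qq
    linear_combination (-1 : ℝ) * e7
  have e10 : (0 : ℝ) ≤ ((missSet G g).ncard : ℝ) := Nat.cast_nonneg _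
  linarith

end ItemNLU

/-- (NLU) the structure of the extremal graphs in the upper range -/
theorem prfNLU : KCC_statement → CRT_statement → DEV_statement → CNTU_statement →
    FINU_statement → NLU_statement := by
  intro hKcc hCrt hDev hCntu hFinu r ε hr hε
  obtain ⟨hchi, hcc⟩ := hKcc r hr
  obtain ⟨hcrit, hncol, hcol⟩ := hCrt (Fin (r + 1)) ⊤ r hchi hcc
  obtain ⟨N, n₁, hF⟩ := hFinu (Fin (r + 1)) ⊤ r ε hr hcrit hcol hncol hε
  have hR : (3 : ℝ) ≤ r := by exact_mod_cast hr
  have hR0 : (0 : ℝ) < r := by linarith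
  have hN0 : (0 : ℝ) ≤ N := Nat.cast_nonneg N
  obtain ⟨u, hu⟩ : ∃ u : ℝ, u = 1 / (r : ℝ) := ⟨_, rfl⟩
  have hu0 : 0 < u := by rw [hu]; positivity
  have hu1 : u ≤ 1 / 3 := by rw [hu]; exact one_div_le_one_div_of_le (by norm_num) hR
  have hru : (r : ℝ) * u = 1 := by rw [hu]; field_simp
  have hq : qq r = 1 - u := by rw [hu]; rfl
  have h2r : 2 / (r : ℝ) = 2 * u := by rw [hu]; ring
  set c : ℝ := Real.sqrt (ε / 2) / 2 with hc
  have hc0 : 0 < c := by
    rw [hc]
    have : 0 < Real.sqrt (ε / 2) := Real.sqrt_pos.2 (by linarith)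
    linarith
  set X : ℝ := 2 * N / c + 4 * N / c ^ 2 + 1 with hX
  have hX1 : 1 ≤ X := by
    have h1 : 0 ≤ 2 * N / c := by positivity
    have h2 : 0 ≤ 4 * N / c ^ 2 := by positivity
    linarith
  refine ⟨2 + r + 2 * N, c, max n₁ ⌈X ^ 4⌉₊, by positivity, hc0, ?_⟩
  intro n hn B m hRU hmB V _ G hG
  have hn1 : n₁ ≤ n := (le_max_left _ _).trans hn
  have hnX : X ^ 4 ≤ n := (Nat.le_ceil _).trans (by exact_mod_cast (le_max_right _ _).trans hn)
  obtain ⟨-, g, hi, ht, hab, t₀, hbig, hsm⟩ := (hF n hn1 B m hRU hmB).2 V G hG |>.imp_left id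
  set s : ℝ := Real.sqrt n with hs
  set h : ℝ := Real.sqrt s with hh
  have hs0 : 0 ≤ s := Real.sqrt_nonneg _
  have hh0 : 0 ≤ h := Real.sqrt_nonneg _
  have hs2 : s * s = n := Real.mul_self_sqrt (Nat.cast_nonneg n)
  have hh2 : h * h = s := Real.mul_self_sqrt hs0
  have hXh : X ≤ h := by
    have e1 : X ^ 2 ≤ s := by
      rw [hs]
      apply Real.le_sqrt_of_sq_le
      have e0 : (X ^ 2) ^ 2 = X ^ 4 := by ring
      rw [e0]
      exact hnX
    rw [hh]
    exact Real.le_sqrt_of_sq_le e1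
  have hh1 : 1 ≤ h := hX1.trans hXh
  have hs1 : 1 ≤ s := by
    rw [← hh2]
    calc (1 : ℝ) = 1 * 1 := by ring
      _ ≤ h * h := mul_le_mul hh1 hh1 zero_le_one hh0
  have hhs : h ≤ s := by
    rw [← hh2]
    calc h = 1 * h := by ring
      _ ≤ h * h := mul_le_mul_of_nonneg_right hh1 hh0
  have hsn : s ≤ n := by
    rw [← hs2]
    calc s = 1 * s := by ring
      _ ≤ s * s := mul_le_mul_of_nonneg_right hs1 hs0
  have hn0 : (1 : ℝ) ≤ n := hs1.trans hsn
  obtain ⟨hB1, hB2⟩ := hRU
  have hB0 : (0 : ℝ) ≤ B := Nat.cast_nonneg B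
  have hBn : (B : ℝ) ≤ n := by
    rw [h2r, hq] at hB2
    have e1 : (2 * u - ε) * ((1 - u) * n) ≤ 1 * (1 * n) := by
      have e2 : (1 - u) * (n : ℝ) ≤ 1 * n := by gcongr; linarith
      have e3 : 0 ≤ (1 - u) * (n : ℝ) := by
        apply mul_nonneg (by linarith) (by linarith)
      calc (2 * u - ε) * ((1 - u) * n) ≤ 1 * ((1 - u) * n) :=
            mul_le_mul_of_nonneg_right (by linarith) e3
        _ ≤ 1 * (1 * n) := by linarith
    linarith
  have hout : ((outSet G g).ncard : ℝ) ≤ N * h := by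
    have : (0 : ℝ) ≤ ((missSet G g).ncard : ℝ) := Nat.cast_nonneg _
    linarith
  have hdev := ItemNLU.dev_le hCntu hDev (by omega) G g hi ht hG.1.size hmB
  refine ⟨g, t₀, ⟨hi, ht, ?_, ?_⟩, ?_⟩
  · have e1 : N * h ≤ N * n := by gcongr; linarith
    have e2 : (r : ℝ) ≤ r * n := le_mul_of_one_le_right hR0.le hn0
    calc dev (siz g) ≤ 2 * B + r + 2 * ((outSet G g).ncard : ℝ) := hdev
      _ ≤ 2 * n + r * n + 2 * (N * n) := by linarith
      _ = (2 + r + 2 * N) * n := by ring
  · refine hab.trans ?_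
    gcongr
    linarith
  · intro t htt
    set R : ℝ := Real.sqrt (2 * B * ((r : ℝ) - 1) / r) with hRdef
    have hR2 : 2 * c * s ≤ R := by
      have e1 : 2 * c * s = Real.sqrt (ε / 2 * n) := by
        rw [Real.sqrt_mul (by linarith), hc, hs]; ring
      rw [e1, hRdef]
      apply Real.sqrt_le_sqrt
      have e2 : 2 * (B : ℝ) * ((r : ℝ) - 1) / r = 2 * B * (1 - u) := by
        rw [hu]; field_simp
      rw [e2]
      rw [hq] at hB1
      have e3 : ε * ((1 - u) * n) ≤ B := hB1
      have e4 : ε / 2 * n ≤ ε * ((1 - u) * n) := by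
        have e6 : 1 / 2 * (n : ℝ) ≤ (1 - u) * n :=
          mul_le_mul_of_nonneg_right (by linarith) (by linarith)
        have e7 := mul_le_mul_of_nonneg_left e6 hε.le
        linarith
      have e5 : (B : ℝ) ≤ 2 * B * (1 - u) := by
        have e8 : (B : ℝ) * 1 ≤ B * (2 * (1 - u)) :=
          mul_le_mul_of_nonneg_left (by linarith) hB0
        linarith
      linarith
    have hR0' : 0 ≤ R := Real.sqrt_nonneg _
    have hRr : 0 ≤ R / ((r : ℝ) - 1) := div_nonneg hR0' (by linarith)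
    have hNh : N * h ≤ c / 2 * s := by
      have e1 : 2 * N / c ≤ h := by
        have h2 : 0 ≤ 4 * N / c ^ 2 := by positivity
        linarith
      rw [div_le_iff₀ hc0] at e1
      have e2 := mul_le_mul_of_nonneg_right e1 hh0
      have e3 : h * c * h = c * s := by rw [← hh2]; ring
      rw [e3] at e2
      linarith
    have hNsh : N * (s * h) ≤ (c / 2 * s) ^ 2 := by
      have e1 : 4 * N / c ^ 2 ≤ h := by
        have h2 : 0 ≤ 2 * N / c := by positivity
        linarith
      rw [div_le_iff₀ (by positivity)] at e1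
      have e2 : N * (s * h) ≤ c ^ 2 / 4 * (s * (h * h)) := by
        have e3 : 0 ≤ s * h := by positivity
        have e4 := mul_le_mul_of_nonneg_right e1 e3
        linarith
      rw [hh2] at e2
      calc N * (s * h) ≤ c ^ 2 / 4 * (s * s) := e2
        _ = (c / 2 * s) ^ 2 := by ring
    have e1 := hsm t htt
    have e2 := abs_le_of_sq_le_sq' (e1.trans hNsh) (by positivity)
    have e3 := (abs_le.1 hbig).1
    linarith [e2.2]

end MP0c3a8f

end

section

/-! Item QEV: the neighbours of `w` are spread greedily, type `Q`. -/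

set_option autoImplicit false

open Finset

namespace MP0c3a8f

namespace ItemQEV

open ItemEVF1 (mv mv_adj_w mv_adj_ne)

variable {r : ℕ} {V : Type} [Fintype V] {G : SimpleGraph V} {f : V → Option (Fin r)}
  {w p p' : V} {i j : Fin r}

/-- moving an edge gives a graph in the class -/
theorem step (hMEM : MEM1_statement) {m : ℕ} (hr : 3 ≤ r) (hMx : MxK r m G)
    (hT : Th1 G f w p p' i j) (hs : ∀ t, 2 ≤ siz f t)
    {k l : Fin r} (hki : k ≠ i) (hkj : k ≠ j) (hli : l ≠ i) (hlj : l ≠ j) (hkl : k ≠ l)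
    (h2 : 2 ≤ nbn G f w k) {y y' : V} (hy : f y = some k ∧ G.Adj w y) (hy' : f y' = some l)
    (hy'n : ¬ G.Adj w y') (hwy' : w ≠ y') : lam (mv G w y y' hwy') ≤ lam G := by
  classical
  have hfw : f w = none := (hT.ty.out w).2 rfl
  have hne : ∀ v, f v ≠ none → v ≠ w := fun v hv e => hv (e ▸ hfw)
  have hyk : f y = some k := hy.1
  have hyw : G.Adj w y := hy.2
  have hyp : y ≠ p := fun e => hki (by
    have := hT.ty.hp; rw [← e, hyk] at this; exact Option.some_injective _ this)
  have hyp' : y ≠ p' := fun e => hkj (by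
    have := hT.ty.hp'; rw [← e, hyk] at this; exact Option.some_injective _ this)
  have hy'p : y' ≠ p := fun e => hli (by
    have := hT.ty.hp; rw [← e, hy'] at this; exact Option.some_injective _ this)
  have hy'p' : y' ≠ p' := fun e => hlj (by
    have := hT.ty.hp'; rw [← e, hy'] at this; exact Option.some_injective _ this)
  set G' := mv G w y y' hwy' with hG'
  have hadj : ∀ z, G'.Adj w z ↔ (G.Adj w z ∧ z ≠ y) ∨ z = y' := mv_adj_w G w y y' hwy'
  have hTy : Ty1 G' f w p p' i j := by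
    refine ⟨hT.ty.out, hT.ty.ij, hT.ty.hp, hT.ty.hp', ?_⟩
    intro a b ha hb
    rw [hG', mv_adj_ne G w y y' hwy' a b (hne a ha) (hne b hb)]
    exact hT.ty.core a b ha hb
  -- the numbers of neighbours
  have hnk : nbn G' f w k + 1 = nbn G f w k := by
    have : {v | f v = some k ∧ G'.Adj w v} = {v | f v = some k ∧ G.Adj w v} \ {y} := by
      ext v
      simp only [Set.mem_ofPred_eq, Set.mem_sdiff, Set.mem_singleton_iff, hadj]
      constructor
      · rintro ⟨h1, h3 | h3⟩
        · exact ⟨⟨h1, h3.1⟩, h3.2⟩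
        · subst h3; rw [h1] at hy'; exact absurd (Option.some_injective _ hy') hkl
      · rintro ⟨⟨h1, h3⟩, h4⟩
        exact ⟨h1, Or.inl ⟨h3, h4⟩⟩
    unfold nbn
    rw [this]
    exact Set.ncard_sdiff_singleton_add_one hy (Set.toFinite _)
  have hnl : nbn G' f w l = nbn G f w l + 1 := by
    have : {v | f v = some l ∧ G'.Adj w v} = insert y' {v | f v = some l ∧ G.Adj w v} := by
      ext v
      simp only [Set.mem_ofPred_eq, Set.mem_insert_iff, hadj]
      constructor
      · rintro ⟨h1, h3 | h3⟩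
        · exact Or.inr ⟨h1, h3.1⟩
        · exact Or.inl h3
      · rintro (h1 | ⟨h1, h3⟩)
        · subst h1; exact ⟨hy', Or.inr rfl⟩
        · refine ⟨h1, Or.inl ⟨h3, ?_⟩⟩
          rintro rfl
          rw [hyk] at h1; exact hkl (Option.some_injective _ h1)
    unfold nbn
    rw [this]
    exact Set.ncard_insert_of_notMem (fun hmem => hy'n hmem.2) (Set.toFinite _)
  have hno : ∀ t, t ≠ k → t ≠ l → nbn G' f w t = nbn G f w t := by
    intro t htk htl
    have : {v | f v = some t ∧ G'.Adj w v} = {v | f v = some t ∧ G.Adj w v} := by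
      ext v
      simp only [Set.mem_ofPred_eq, hadj]
      constructor
      · rintro ⟨h1, h3 | h3⟩
        · exact ⟨h1, h3.1⟩
        · subst h3; rw [h1] at hy'; exact absurd (Option.some_injective _ hy') htl
      · rintro ⟨h1, h3⟩
        refine ⟨h1, Or.inl ⟨h3, ?_⟩⟩
        rintro rfl
        rw [hyk] at h1; exact htk (Option.some_injective _ h1.symm)
    unfold nbn
    rw [this]
  have hsum : ∑ t, nbn G' f w t = ∑ t, nbn G f w t := by
    have hlk : l ∈ (univ : Finset (Fin r)).erase k := mem_erase.2 ⟨hkl.symm, mem_univ l⟩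
    rw [← add_sum_erase univ (fun t => nbn G' f w t) (mem_univ k),
      ← add_sum_erase univ (fun t => nbn G f w t) (mem_univ k),
      ← add_sum_erase _ (fun t => nbn G' f w t) hlk, ← add_sum_erase _ (fun t => nbn G f w t) hlk]
    have : ∑ t ∈ (univ.erase k).erase l, nbn G' f w t
        = ∑ t ∈ (univ.erase k).erase l, nbn G f w t := by
      apply sum_congr rfl
      intro t ht
      rw [mem_erase, mem_erase] at ht
      exact hno t ht.2.1 ht.1
    rw [this]
    omega
  have hwp : G'.Adj w p := (hadj p).2 (Or.inl ⟨hT.wp, hyp.symm⟩)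
  have hwp' : G'.Adj w p' := (hadj p').2 (Or.inl ⟨hT.wp', hyp'.symm⟩)
  have hT' : Th1 G' f w p p' i j := by
    refine ⟨hTy, hwp, hwp', ?_, ?_, ?_⟩
    · rw [hno i hki.symm hli.symm]; exact hT.ni
    · rw [hno j hkj.symm hlj.symm]; exact hT.nj
    · intro t
      by_cases htk : t = k
      · subst htk; omega
      · by_cases htl : t = l
        · subst htl; omega
        · rw [hno t htk htl]; exact hT.pos t
  obtain ⟨_, _, _, e1⟩ := hMEM r V G f w p p' i j hr hT hs
  obtain ⟨m1, m2, m3, e2⟩ := hMEM r V G' f w p p' i j hr hT' hs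
  rw [hsum] at e2
  have he : G'.edgeSet.ncard = G.edgeSet.ncard := by omega
  have hIn : InN r m (⊤ : SimpleGraph (Fin (r + 1))) G' :=
    ⟨m1, by rw [he]; exact hMx.1.size, m3, m2⟩
  exact hMx.2 V G' hIn

theorem nbn_le_out (hfw : f w = none) (t : Fin r) : nbn G f w t ≤ (outSet G f).ncard := by
  unfold nbn
  apply Set.ncard_le_ncard_of_injOn (fun v => s(w, v)) _ _ (Set.toFinite _)
  · intro v hv
    exact ⟨hv.2, w, Sym2.mem_mk_left w v, hfw⟩
  · intro v _ v' _ h
    exact Sym2.congr_right.1 h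

theorem nbn_le_siz (t : Fin r) : nbn G f w t ≤ siz f t := by
  unfold nbn siz
  exact Set.ncard_le_ncard (fun v hv => hv.1) (Set.toFinite _)

theorem ex_nbr {k : Fin r} (h : 1 ≤ nbn G f w k) : ∃ y, f y = some k ∧ G.Adj w y := by
  have : {v | f v = some k ∧ G.Adj w v}.Nonempty := by
    rw [← Set.ncard_pos (Set.toFinite _)]
    change 0 < nbn G f w k
    omega
  exact this

theorem ex_non {l : Fin r} (h : nbn G f w l < siz f l) : ∃ y', f y' = some l ∧ ¬ G.Adj w y' := by
  by_contra hcon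
  push Not at hcon
  have : siz f l ≤ nbn G f w l := by
    unfold siz nbn
    apply Set.ncard_le_ncard _ (Set.toFinite _)
    intro v hv
    exact ⟨hv, hcon v hv⟩
  omega

open Classical in
theorem muv_zero (hT : Ty1 G f w p p' i j) (z : V → ℝ) {y : V} {k : Fin r} (hy : f y = some k)
    (hki : k ≠ i) (hkj : k ≠ j) : muv G f z y = 0 := by
  unfold muv
  apply Finset.sum_eq_zero
  intro u _
  rw [if_neg]
  rintro ⟨h1, h2, h3, h4⟩
  apply h4
  rw [hT.core y u h1 h2]
  refine ⟨h3.symm, ?_⟩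
  intro e
  rw [Sym2.eq_iff] at e
  rcases e with ⟨e, _⟩ | ⟨e, _⟩
  · rw [e, hT.hp] at hy
    exact hki (Option.some_injective _ hy).symm
  · rw [e, hT.hp'] at hy
    exact hkj (Option.some_injective _ hy).symm

open Classical in
theorem omv_eq (hT : Ty1 G f w p p' i j) (z : V → ℝ) (y : V) :
    omv G f z y = if G.Adj w y then z w else 0 := by
  unfold omv
  rw [Finset.sum_eq_single w]
  · by_cases h : G.Adj w y
    · rw [if_pos h, if_pos ⟨(hT.out w).2 rfl, h.symm⟩]
    · rw [if_neg h, if_neg (fun h' => h h'.2.symm)]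
  · intro b _ hb
    rw [if_neg]
    rintro ⟨h1, _⟩
    exact hb ((hT.out b).1 h1)
  · intro h
    exact absurd (mem_univ w) h

open Classical in
theorem cw_muv (hT : Ty1 G f w p p' i j) (z : V → ℝ) {k : Fin r}
    (hki : k ≠ i) (hkj : k ≠ j) : cw (fun v => muv G f z v) f (some k) = 0 := by
  unfold cw
  apply Finset.sum_eq_zero
  intro u _
  split_ifs with h
  · exact muv_zero hT z h hki hkj
  · rfl

open Classical in
theorem cw_omv (hT : Ty1 G f w p p' i j) (z : V → ℝ) (k : Fin r) :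
    cw (fun v => omv G f z v) f (some k) = nbn G f w k * z w := by
  unfold cw nbn
  have h1 : ∀ v : V, (if f v = some k then omv G f z v else 0) =
      if v ∈ {v | f v = some k ∧ G.Adj w v} then z w else 0 := by
    intro v
    rw [omv_eq hT z v]
    by_cases h2 : f v = some k
    · by_cases h3 : G.Adj w v
      · rw [if_pos h2, if_pos h3, if_pos (show v ∈ {v | f v = some k ∧ G.Adj w v} from ⟨h2, h3⟩)]
      · rw [if_pos h2, if_neg h3, if_neg (fun h => h3 h.2)]
    · rw [if_neg h2, if_neg (fun h => h2 h.1)]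
  simp only [h1]
  rw [← Finset.sum_filter, Finset.sum_const, nsmul_eq_mul, Set.ncard_eq_toFinset_card']
  congr 2
  congr 1
  ext v
  simp

theorem main : P_statement → FLU_statement → TCL_statement → MVE_statement → MEM1_statement →
    QEV_statement := by
  intro _ hFLU hTCL hMVE hMEM r C hr hC
  obtain ⟨C₁, n₁, hC₁, hF⟩ := hFLU r C hr hC
  obtain ⟨C₂, n₂, hC₂, hTc⟩ := hTCL r C hr hC
  have hr0 : (0 : ℝ) < r := by
    have : 0 < r := by omega
    exact_mod_cast this
  have hr3 : (3 : ℝ) ≤ r := by exact_mod_cast hr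
  obtain ⟨K, hK⟩ : ∃ K : ℝ, K = 12 * r * (C + 1) + 6 * C₁ + 4 * C₂ * (C + 1) := ⟨_, rfl⟩
  have hK0 : 0 < K := by rw [hK]; positivity
  refine ⟨max (max n₁ n₂) ⌈K ^ 4⌉₊, ?_⟩
  intro V _ G g w p p' i j n m hn hMx hNK hT
  have hnn₁ : n₁ ≤ n := le_trans (le_trans (le_max_left _ _) (le_max_left _ _)) hn
  have hnn₂ : n₂ ≤ n := le_trans (le_trans (le_max_right _ _) (le_max_left _ _)) hn
  have hnK : K ^ 4 ≤ n := le_trans (Nat.le_ceil _) (by exact_mod_cast le_trans (le_max_right _ _) hn)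
  -- the numbers
  obtain ⟨h, hh⟩ : ∃ h, h = Real.sqrt (Real.sqrt n) := ⟨_, rfl⟩
  have hn0 : (0 : ℝ) ≤ n := Nat.cast_nonneg n
  have hKh : K ≤ h := by
    rw [hh]
    apply Real.le_sqrt_of_sq_le
    apply Real.le_sqrt_of_sq_le
    calc (K ^ 2) ^ 2 = K ^ 4 := by ring
      _ ≤ (n : ℝ) := hnK
  have hh2 : h ^ 2 = Real.sqrt n := by rw [hh]; exact Real.sq_sqrt (Real.sqrt_nonneg _)
  have hh4 : h ^ 4 = n := by
    calc h ^ 4 = (h ^ 2) ^ 2 := by ring
      _ = (n : ℝ) := by rw [hh2]; exact Real.sq_sqrt hn0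
  have hC1 : 1 ≤ C + 1 := by linarith
  have hC20 : 0 ≤ C₂ * (C + 1) := mul_nonneg hC₂ (by linarith)
  have hrC : 3 ≤ r * (C + 1) := le_trans hr3 (le_mul_of_one_le_right hr0.le hC1)
  have hK' : K = 12 * (r * (C + 1)) + 6 * C₁ + 4 * (C₂ * (C + 1)) := by rw [hK]; ring
  have hh36 : 36 ≤ h := by linarith
  have hhr : 12 * (r * (C + 1)) ≤ h := by linarith
  have hhC1 : 6 * C₁ ≤ h := by linarith
  have hhC2 : 4 * (C₂ * (C + 1)) ≤ h := by linarith
  have hh0 : 0 < h := by linarith
  have hhh : h * h ≤ n := by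
    rw [← hh4]
    have : (1 : ℝ) ≤ h ^ 2 := one_le_pow₀ (by linarith)
    calc h * h = h ^ 2 * 1 := by ring
      _ ≤ h ^ 2 * h ^ 2 := mul_le_mul_of_nonneg_left this (sq_nonneg h)
      _ = h ^ 4 := by ring
  have hnpos : (0 : ℝ) < n := lt_of_lt_of_le (by positivity) hhh
  have hn36 : (36 : ℝ) * h ≤ n := le_trans (mul_le_mul_of_nonneg_right hh36 hh0.le) hhh
  -- the Perron vector
  obtain ⟨⟨z, hz⟩, hzall⟩ := hF V G g n hnn₁ hNK
  obtain ⟨hz1, hz2, hz3, -⟩ := hzall z hz
  rw [← hh] at hz2 hz3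
  obtain ⟨ht1, ht2, ht3⟩ := hTc V G z g n hnn₂ hNK hz
  have hfw : g w = none := (hT.ty.out w).2 rfl
  -- size of lam
  have hqn : (2 / 3 : ℝ) * n ≤ qq r * n := by
    apply mul_le_mul_of_nonneg_right _ hn0
    unfold qq
    have : 1 / (r : ℝ) ≤ 1 / 3 := one_div_le_one_div_of_le (by norm_num) hr3
    linarith
  have hC1h : C₁ * h ≤ n / 6 := by
    have : 6 * C₁ * h ≤ h * h := mul_le_mul_of_nonneg_right hhC1 hh0.le
    linarith
  have hlam : (n : ℝ) / 2 ≤ lam G := by
    have := (abs_le.1 hz3).1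
    linarith
  have hlam0 : 0 < lam G := by linarith
  have hlam1 : 1 ≤ lam G := by linarith
  -- sizes of the classes
  have hdev : ∀ t, |(siz g t : ℝ) - n / r| ≤ n / (12 * r) := by
    intro t
    have h1 : ((siz g t : ℝ) - n / r) ^ 2 ≤ dev (siz g) := by
      unfold dev
      have h2 : (∑ s, (siz g s : ℝ)) = n := by
        have := hNK.tot
        exact_mod_cast this
      rw [h2]
      exact Finset.single_le_sum (f := fun t => ((siz g t : ℝ) - n / r) ^ 2)
        (fun s _ => sq_nonneg _) (mem_univ t)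
    have h3 := hNK.dev
    have h4 : C * n ≤ (n / (12 * r)) ^ 2 := by
      rw [div_pow, le_div_iff₀ (by positivity)]
      have h5 : (12 * (r * (C + 1))) ^ 2 ≤ h ^ 2 := pow_le_pow_left₀ (by positivity) hhr 2
      have h6 : C * (12 * r) ^ 2 ≤ (12 * (r * (C + 1))) ^ 2 := by
        have : C ≤ (C + 1) ^ 2 := by
          have e : (C + 1) ^ 2 = C * C + 2 * C + 1 := by ring
          have := mul_nonneg hC hC
          rw [e]
          linarith
        calc C * (12 * r) ^ 2 ≤ (C + 1) ^ 2 * (12 * r) ^ 2 :=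
              mul_le_mul_of_nonneg_right this (by positivity)
          _ = _ := by ring
      have h7 : h ^ 2 ≤ n := by rw [sq]; exact hhh
      calc C * (n : ℝ) * (12 * r) ^ 2 = (C * (12 * r) ^ 2) * n := by ring
        _ ≤ (n : ℝ) * n := mul_le_mul_of_nonneg_right (by linarith) hn0
        _ = (n : ℝ) ^ 2 := by ring
    exact abs_le_of_sq_le_sq (le_trans h1 (le_trans h3 h4)) (by positivity)
  have hnr : (12 : ℝ) * ((C + 1) * h) ≤ n / r := by
    rw [le_div_iff₀ hr0]
    calc 12 * ((C + 1) * h) * r = (12 * (r * (C + 1))) * h := by ring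
      _ ≤ h * h := mul_le_mul_of_nonneg_right hhr hh0.le
      _ ≤ n := hhh
  have hn12 : (n : ℝ) / (12 * r) = (n / r) / 12 := by
    field_simp
  have hn3 : (n : ℝ) / r ≤ n / 3 := div_le_div_of_nonneg_left hn0 (by norm_num) hr3
  have hCh : C * h ≤ (C + 1) * h := mul_le_mul_of_nonneg_right (by linarith) hh0.le
  have hC1h' : h ≤ (C + 1) * h := le_mul_of_one_le_left hh0.le hC1
  have hsl : ∀ t, (siz g t : ℝ) < lam G := by
    intro t
    have := (abs_le.1 (hdev t)).2
    rw [hn12] at this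
    linarith
  have hsg : ∀ t, 2 * ((C + 1) * h) ≤ siz g t := by
    intro t
    have := (abs_le.1 (hdev t)).1
    rw [hn12] at this
    linarith
  have hs : ∀ t, 2 ≤ siz g t := by
    intro t
    have h1 := hsg t
    have h2 : (2 : ℝ) ≤ siz g t := by linarith
    exact_mod_cast h2
  have hout : ((outSet G g).ncard : ℝ) ≤ C * h ∧ ((missSet G g).ncard : ℝ) ≤ C * h := by
    have h1 := hNK.few
    rw [← hh] at h1
    have h2 : (0 : ℝ) ≤ (missSet G g).ncard := Nat.cast_nonneg _
    have h3 : (0 : ℝ) ≤ (outSet G g).ncard := Nat.cast_nonneg _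
    constructor <;> linarith
  have hlt : ∀ t, nbn G g w t < siz g t := by
    intro t
    have h1 : (nbn G g w t : ℝ) ≤ (outSet G g).ncard := by exact_mod_cast nbn_le_out hfw t
    have h2 : (nbn G g w t : ℝ) < siz g t := by
      have := hsg t
      linarith [hout.1]
    exact_mod_cast h2
  -- the value at w
  have hzp : 1 / 2 ≤ z p := by
    have h1 := hz1 p (by rw [hT.ty.hp]; simp)
    have h2 : C₁ / Real.sqrt n ≤ 1 / 6 := by
      rw [← hh2, div_le_iff₀ (by positivity)]
      have : h ≤ h ^ 2 := by rw [sq]; exact le_mul_of_one_le_left hh0.le (by linarith)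
      linarith
    have := (abs_le.1 h1).1
    linarith
  have hzw : 0 < z w := by
    have h1 := hz.eig w
    have h2 : z p ≤ ∑ u, adj G w u * z u := by
      have h3 : adj G w p * z p ≤ ∑ u, adj G w u * z u := by
        apply Finset.single_le_sum (f := fun u => adj G w u * z u) _ (mem_univ p)
        intro u _
        apply mul_nonneg _ (hz.nonneg u)
        unfold adj
        split_ifs <;> norm_num
      have h4 : adj G w p = 1 := by
        unfold adj
        rw [if_pos hT.wp]
      rwa [h4, one_mul] at h3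
    rw [h1] at h2
    have h5 : 0 < lam G * z w := by linarith
    exact (pos_iff_pos_of_mul_pos h5).1 hlam0
  -- the main inequality
  have key : ∀ k l, k ≠ i → k ≠ j → l ≠ i → l ≠ j → k ≠ l → 2 ≤ nbn G g w k →
      tv g z n l - tv g z n k ≤ z w / lam G := by
    intro k l hki hkj hli hlj hkl h2
    obtain ⟨y, hy, hyw⟩ := ex_nbr (G := G) (f := g) (w := w) (k := k) (by omega)
    obtain ⟨y', hy', hy'n⟩ := ex_non (hlt l)
    have hwy' : w ≠ y' := fun e => by rw [← e, hfw] at hy'; exact absurd hy' (by simp)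
    have hle := step hMEM hr hMx hT hs hki hkj hli hlj hkl h2 ⟨hy, hyw⟩ hy' hy'n hwy'
    have hmve := hMVE V G (mv G w y y' hwy') z w y y' hz.nonneg hz.eig hlam0 hzw hwy' hyw hy'n
      (fun u v => Iff.rfl)
    have h3 : ¬ (z w / lam G * adj G y y' < lam G * (z y' - z y) + z w) :=
      fun h => absurd hle (not_le.2 (hmve h))
    rw [not_lt] at h3
    have h4 : adj G y y' ≤ 1 := by
      unfold adj
      split_ifs <;> norm_num
    have h5 : z w / lam G * adj G y y' ≤ z w / lam G := by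
      have : 0 ≤ z w / lam G := by positivity
      exact mul_le_of_le_one_right this h4
    have e1 := ht1 y k hy
    have e2 := ht1 y' l hy'
    rw [muv_zero hT.ty z hy hki hkj, omv_eq hT.ty, if_pos hyw] at e1
    rw [muv_zero hT.ty z hy' hli hlj, omv_eq hT.ty, if_neg hy'n] at e2
    have e3 : lam G * (z y' - z y) + z w = tv g z n l - tv g z n k := by
      rw [mul_sub, e1, e2]
      ring
    rw [e3] at h3
    linarith
  have eqt : ∀ k, k ≠ i → k ≠ j → (lam G + siz g k) * tv g z n k =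
      lam G * n - nbn G g w k * z w := by
    intro k hki hkj
    have := ht2 k
    rw [cw_muv hT.ty z hki hkj, cw_omv hT.ty] at this
    rw [this]
    ring
  intro s t hsi hsj hti htj
  constructor
  · intro hst
    by_contra hcon
    push Not at hcon
    have hne : s ≠ t := by rintro rfl; omega
    have h1 := key s t hsi hsj hti htj hne (by omega)
    have h2 := eqt s hsi hsj
    have h3 := eqt t hti htj
    rw [hst] at h2
    have h4 : (lam G + siz g t) * (tv g z n t - tv g z n s) =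
        ((nbn G g w s : ℝ) - nbn G g w t) * z w := by linear_combination h3 - h2
    have h5 : (2 : ℝ) ≤ (nbn G g w s : ℝ) - nbn G g w t := by
      have : (nbn G g w t : ℝ) + 2 ≤ nbn G g w s := by exact_mod_cast hcon
      linarith
    have h6 := hsl t
    have h7 : (0 : ℝ) ≤ siz g t := Nat.cast_nonneg _
    have h8 : (lam G + siz g t) * (tv g z n t - tv g z n s) ≤ (lam G + siz g t) * (z w / lam G) :=
      mul_le_mul_of_nonneg_left h1 (by linarith)
    rw [h4] at h8
    have h9 : 2 * z w ≤ (lam G + siz g t) * (z w / lam G) :=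
      le_trans (mul_le_mul_of_nonneg_right h5 hzw.le) h8
    have h10 : (lam G + siz g t) * (z w / lam G) < 2 * z w := by
      rw [← mul_div_assoc, div_lt_iff₀ hlam0]
      have := mul_lt_mul_of_pos_right (show lam G + siz g t < 2 * lam G by linarith) hzw
      linarith
    linarith
  · intro hst
    by_contra hcon
    have hpos := hT.pos s
    have hne : s ≠ t := by rintro rfl; omega
    have h1 := key s t hsi hsj hti htj hne (by omega)
    have h2 := ht3 t s hst.le
    have h3 : (siz g t : ℝ) + 1 ≤ siz g s := by exact_mod_cast hst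
    have h4 : C₂ * ((missSet G g).ncard + 1) / n ≤ 1 / 4 := by
      rw [div_le_iff₀ hnpos]
      have h5 : ((missSet G g).ncard : ℝ) + 1 ≤ (C + 1) * h := by
        have := hout.2
        have e : (C + 1) * h = C * h + h := by ring
        rw [e]
        linarith
      calc C₂ * ((missSet G g).ncard + 1) ≤ C₂ * ((C + 1) * h) :=
            mul_le_mul_of_nonneg_left h5 hC₂
        _ = C₂ * (C + 1) * h := by ring
        _ ≤ h / 4 * h := mul_le_mul_of_nonneg_right (by linarith) hh0.le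
        _ ≤ 1 / 4 * n := by linarith
    have h5 : z w / lam G ≤ 1 / 6 := by
      have h6 := hz2 w hfw
      have h7 : C₁ * h / n ≤ 1 / 6 := by
        rw [div_le_iff₀ hnpos]
        linarith
      rw [div_le_iff₀ hlam0]
      linarith
    linarith

end ItemQEV

theorem prfQEV : P_statement → FLU_statement → TCL_statement → MVE_statement → MEM1_statement →
    QEV_statement := ItemQEV.main

end MP0c3a8f

end

section

/-!
# MP_0c3a8f_co, item QMB: comparison graphs of type one on the same vertex set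
-/

open Finset

namespace MP0c3a8f

namespace QMBa

variable {V : Type} {r : ℕ}

/-- The comparison graph. -/
def HH (g : V → Option (Fin r)) (w p p' : V) (A : Finset V) (hw : g w = none)
    (hA : ∀ v ∈ A, g v ≠ none) : SimpleGraph V where
  Adj u v := (g u ≠ none ∧ g v ≠ none ∧ g u ≠ g v ∧ s(u, v) ≠ s(p, p')) ∨
    (u = w ∧ v ∈ A) ∨ (v = w ∧ u ∈ A)
  symm := ⟨fun u v h => by
    rcases h with h | h | h
    · exact Or.inl ⟨h.2.1, h.1, h.2.2.1.symm, by rw [Sym2.eq_swap]; exact h.2.2.2⟩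
    · exact Or.inr (Or.inr h)
    · exact Or.inr (Or.inl h)⟩
  loopless := ⟨fun u h => by
    rcases h with h | h | h
    · exact h.2.2.1 rfl
    · exact hA u h.2 (h.1 ▸ hw)
    · exact hA u h.2 (h.1 ▸ hw)⟩

section
variable {g : V → Option (Fin r)} {w p p' : V} {A : Finset V} (hw : g w = none)
  (hA : ∀ v ∈ A, g v ≠ none)

theorem adj_w (v : V) : (HH g w p p' A hw hA).Adj w v ↔ v ∈ A := by
  constructor
  · rintro (h | h | h)
    · exact absurd hw h.1
    · exact h.2
    · exact absurd hw (hA w h.2)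
  · exact fun h => Or.inr (Or.inl ⟨rfl, h⟩)

theorem adj_core (u v : V) (hu : g u ≠ none) (hv : g v ≠ none) :
    (HH g w p p' A hw hA).Adj u v ↔ g u ≠ g v ∧ s(u, v) ≠ s(p, p') := by
  constructor
  · rintro (h | h | h)
    · exact h.2.2
    · exact absurd (h.1 ▸ hw) hu
    · exact absurd (h.1 ▸ hw) hv
  · exact fun h => Or.inl ⟨hu, hv, h⟩

theorem adj_none (u v : V) (hu : g u = none) (huw : u ≠ w) :
    ¬ (HH g w p p' A hw hA).Adj u v := by
  rintro (h | h | h)
  · exact h.1 hu
  · exact huw h.1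
  · exact hA u h.2 hu

theorem indep : Indep (HH g w p p' A hw hA) g := by
  rintro u v hu huv (h | h | h)
  · exact h.2.2.1 huv
  · exact hu (h.1 ▸ hw)
  · exact hu (huv.trans (h.1 ▸ hw))

end

open Classical in
theorem sum_card (g : V → Option (Fin r)) (A : Finset V) (hA : ∀ v ∈ A, g v ≠ none) :
    ∑ t, {v | g v = some t ∧ v ∈ A}.ncard = A.card := by
  rw [Finset.card_eq_sum_card_fiberwise (f := g) (t := Finset.univ) (s := A)
    (fun _ _ => Finset.mem_coe.2 (Finset.mem_univ _)), Fintype.sum_option]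
  have h0 : (A.filter fun a => g a = none) = ∅ := by
    rw [Finset.filter_eq_empty_iff]
    exact fun v hv h => hA v hv h
  rw [h0, Finset.card_empty, zero_add]
  refine Finset.sum_congr rfl fun t _ => ?_
  rw [← Set.ncard_coe_finset]
  congr 1
  ext v
  simp only [Set.mem_ofPred_eq, Finset.coe_filter]
  exact and_comm

/-- Cardinality of a set of the subtype. -/
theorem ncard_sub (S : Set V) (P : V → Prop) (h : ∀ v, P v → v ∈ S) :
    {v : S | P v.1}.ncard = {v | P v}.ncard := by
  rw [← Set.ncard_image_of_injective _ Subtype.val_injective]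
  congr 1
  ext v
  constructor
  · rintro ⟨x, hx, rfl⟩
    exact hx
  · intro hv
    exact ⟨⟨v, h v hv⟩, hv, rfl⟩

end QMBa

open QMBa in
theorem prfQMB : RSI_statement → MEM1_statement → QMB_statement := by
  classical
  intro hRSI hMEM r m V _ G g w p p' i j A h3 hG hw hij hA hi hj hex hs hm
  refine ⟨HH g w p p' A hw hA, indep hw hA, adj_none hw hA, adj_w hw hA, adj_core hw hA, ?_⟩
  obtain ⟨H, hH⟩ : ∃ H, H = HH g w p p' A hw hA := ⟨_, rfl⟩
  have aw : ∀ v, H.Adj w v ↔ v ∈ A := by rw [hH]; exact adj_w hw hA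
  have ac : ∀ u v, g u ≠ none → g v ≠ none → (H.Adj u v ↔ g u ≠ g v ∧ s(u, v) ≠ s(p, p')) := by
    rw [hH]; exact adj_core hw hA
  have an : ∀ u v, g u = none → u ≠ w → ¬ H.Adj u v := by rw [hH]; exact adj_none hw hA
  rw [← hH]
  have hp := (hi p).2 rfl
  have hp' := (hj p').2 rfl
  obtain ⟨S, hS⟩ : ∃ S : Set V, S = {v | g v ≠ none ∨ v = w} := ⟨_, rfl⟩
  have mS : ∀ v, v ∈ S ↔ g v ≠ none ∨ v = w := fun v => by rw [hS]; exact Iff.rfl
  have hSA : ∀ u v, H.Adj u v → u ∈ S := by
    intro u v h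
    rw [mS]
    by_contra hn
    rw [not_or, not_not] at hn
    exact an u v hn.1 hn.2 h
  have : Fintype S := Fintype.ofFinite _
  obtain ⟨e1, e2⟩ := hRSI V H S ⟨w, (mS w).2 (Or.inr rfl)⟩ fun u v h => ⟨hSA u v h,
    hSA v u h.symm⟩
  refine e1.trans ?_
  have some_S : ∀ (t : Fin r) (v : V), g v = some t → v ∈ S := fun t v hv =>
    (mS v).2 (Or.inl (by rw [hv]; exact Option.some_ne_none t))
  have hsiz : ∀ t, siz (fun v : S => g v.1) t = siz g t := fun t =>
    ncard_sub S (fun v => g v = some t) (some_S t)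
  have hnbn : ∀ t, nbn (H.comap (Subtype.val : S → V)) (fun v : S => g v.1)
      ⟨w, (mS w).2 (Or.inr rfl)⟩ t = {v | g v = some t ∧ v ∈ A}.ncard := by
    intro t
    rw [← ncard_sub S (fun v => g v = some t ∧ v ∈ A) fun v hv => some_S t v hv.1]
    unfold nbn
    congr 1
    ext v
    rw [Set.mem_ofPred_eq, Set.mem_ofPred_eq, SimpleGraph.comap_adj, aw]
  have hTh : Th1 (H.comap (Subtype.val : S → V)) (fun v : S => g v.1)
      ⟨w, (mS w).2 (Or.inr rfl)⟩ ⟨p, some_S i p hp.2⟩ ⟨p', some_S j p' hp'.2⟩ i j := by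
    refine ⟨⟨?_, hij, hp.2, hp'.2, ?_⟩, (aw p).2 hp.1, (aw p').2 hp'.1, ?_, ?_, ?_⟩
    · intro v
      rw [Subtype.ext_iff]
      constructor
      · intro h
        exact ((mS v.1).1 v.2).resolve_left (fun hn => hn h)
      · intro h
        have h' : v.1 = w := h
        change g v.1 = none
        rw [h', hw]
    · intro u v hu hv
      rw [SimpleGraph.comap_adj, ac u.1 v.1 hu hv]
      refine and_congr_right fun _ => not_congr ?_
      rw [Sym2.eq_iff, Sym2.eq_iff, Subtype.ext_iff, Subtype.ext_iff, Subtype.ext_iff,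
        Subtype.ext_iff]
    · rw [hnbn, Set.ncard_eq_one]
      refine ⟨p, ?_⟩
      ext v
      rw [Set.mem_ofPred_eq, Set.mem_singleton_iff, and_comm]
      exact hi v
    · rw [hnbn, Set.ncard_eq_one]
      refine ⟨p', ?_⟩
      ext v
      rw [Set.mem_ofPred_eq, Set.mem_singleton_iff, and_comm]
      exact hj v
    · intro t
      rw [hnbn]
      obtain ⟨v, hv, hvt⟩ := hex t
      exact Nat.succ_le_of_lt ((Set.ncard_pos (Set.toFinite _)).2 ⟨v, hvt, hv⟩)
  obtain ⟨f1, f2, f3, f4⟩ := hMEM r S _ _ _ _ _ i j h3 hTh (fun t => by rw [hsiz]; exact hs t)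
  refine hG.2 S _ ⟨f1, ?_, f3, f2⟩
  have e3 : ∑ t, nbn (H.comap (Subtype.val : S → V)) (fun v : S => g v.1)
      ⟨w, (mS w).2 (Or.inr rfl)⟩ t = A.card := by
    rw [Finset.sum_congr rfl fun t _ => hnbn t]
    exact sum_card g A hA
  have e4 : ∑ t, siz (fun v : S => g v.1) t ^ 2 = ∑ t, siz g t ^ 2 :=
    Finset.sum_congr rfl fun t _ => by rw [hsiz]
  have e5 : ∑ t, siz (fun v : S => g v.1) t = ∑ t, siz g t :=
    Finset.sum_congr rfl fun t _ => hsiz t
  rw [e3, e4, e5] at f4
  omega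

end MP0c3a8f

end

section

/-!
# Item GVH: uniqueness of greedy vectors
-/

set_option autoImplicit false

namespace MP0c3a8f

namespace GVH

open Finset

/-- the level sums are comparable above a level on which the first vector is smaller -/
theorem key {r : ℕ} (A : Finset (Fin r)) (σ d d' : Fin r → ℕ)
    (hb : ∀ t ∈ A, 1 ≤ d' t ∧ d' t ≤ σ t)
    (hg : ∀ s ∈ A, ∀ t ∈ A, σ t < σ s → 2 ≤ d s → d t = σ t) (u v : ℕ) (huv : u < v)
    (hu : ∑ t ∈ A.filter (fun t => σ t = u), d t < ∑ t ∈ A.filter (fun t => σ t = u), d' t) :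
    ∑ t ∈ A.filter (fun t => σ t = v), d t ≤ ∑ t ∈ A.filter (fun t => σ t = v), d' t := by
  obtain ⟨t, ht, hlt⟩ := Finset.exists_lt_of_sum_lt hu
  rw [Finset.mem_filter] at ht
  refine Finset.sum_le_sum fun s hs => ?_
  rw [Finset.mem_filter] at hs
  have h1 := hb t ht.1
  have h2 := hb s hs.1
  by_contra hc
  have h3 := hg s hs.1 t ht.1 (by rw [ht.2, hs.2]; exact huv) (by omega)
  omega

theorem level {r : ℕ} (A : Finset (Fin r)) (σ d d' : Fin r → ℕ)
    (hb : ∀ t ∈ A, 1 ≤ d t ∧ d t ≤ σ t ∧ 1 ≤ d' t ∧ d' t ≤ σ t)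
    (hg : ∀ s ∈ A, ∀ t ∈ A, σ t < σ s → (2 ≤ d s → d t = σ t) ∧ (2 ≤ d' s → d' t = σ t))
    (hs : ∑ t ∈ A, d t = ∑ t ∈ A, d' t) (v : ℕ) :
    ∑ t ∈ A.filter (fun t => σ t = v), d t = ∑ t ∈ A.filter (fun t => σ t = v), d' t := by
  have e : ∀ c : Fin r → ℕ,
      ∑ x ∈ A.image σ, ∑ t ∈ A.filter (fun t => σ t = x), c t = ∑ t ∈ A, c t := fun c =>
    Finset.sum_fiberwise_of_maps_to (fun t ht => Finset.mem_image_of_mem σ ht) c
  by_cases hv : v ∈ A.image σ
  swap
  · have h0 : A.filter (fun t => σ t = v) = ∅ := by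
      rw [Finset.filter_eq_empty_iff]
      intro t ht h
      exact hv (Finset.mem_image.2 ⟨t, ht, h⟩)
    rw [h0]
    rfl
  have k1 := key A σ d d' (fun t ht => (hb t ht).2.2) (fun s hs' t ht h => (hg s hs' t ht h).1)
  have k2 := key A σ d' d (fun t ht => ⟨(hb t ht).1, (hb t ht).2.1⟩)
    (fun s hs' t ht h => (hg s hs' t ht h).2)
  by_contra hne
  have h1 : ∃ u, ∑ t ∈ A.filter (fun t => σ t = u), d t <
      ∑ t ∈ A.filter (fun t => σ t = u), d' t := by
    by_contra hc
    push Not at hc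
    have h2 := (Finset.sum_eq_sum_iff_of_le (s := A.image σ)
      (f := fun x => ∑ t ∈ A.filter (fun t => σ t = x), d' t)
      (g := fun x => ∑ t ∈ A.filter (fun t => σ t = x), d t) (fun x _ => hc x)).1
      (by rw [e, e, hs]) v hv
    exact hne h2.symm
  have h1' : ∃ w, ∑ t ∈ A.filter (fun t => σ t = w), d' t <
      ∑ t ∈ A.filter (fun t => σ t = w), d t := by
    by_contra hc
    push Not at hc
    have h2 := (Finset.sum_eq_sum_iff_of_le (s := A.image σ)
      (f := fun x => ∑ t ∈ A.filter (fun t => σ t = x), d t)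
      (g := fun x => ∑ t ∈ A.filter (fun t => σ t = x), d' t) (fun x _ => hc x)).1
      (by rw [e, e, hs]) v hv
    exact hne h2
  obtain ⟨u, hu⟩ := h1
  obtain ⟨w, hw⟩ := h1'
  rcases lt_trichotomy u w with h | h | h
  · have := k1 u w h hu
    omega
  · subst h
    omega
  · have := k2 w u h hw
    omega

end GVH

theorem prfGVH : GVH_statement := by
  classical
  intro r A σ d d' hA hb hbal hg hs
  have hsA : ∑ t ∈ A, d t = ∑ t ∈ A, d' t := by
    have e := Finset.sum_add_sum_compl A d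
    have e' := Finset.sum_add_sum_compl A d'
    have e3 : ∑ t ∈ Aᶜ, d t = ∑ t ∈ Aᶜ, d' t :=
      Finset.sum_congr rfl fun t ht => hA t (Finset.mem_compl.1 ht)
    omega
  have hl := GVH.level A σ d d' hb hg hsA
  have hc : ∀ v, (A.filter fun k => Nat.pair (σ k) (d k) = v).card =
      (A.filter fun k => Nat.pair (σ k) (d' k) = v).card := by
    intro v
    have e : ∀ c : Fin r → ℕ, (A.filter fun k => Nat.pair (σ k) (c k) = v) =
        ((A.filter fun k => σ k = v.unpair.1).filter fun k => c k = v.unpair.2) := by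
      intro c
      ext k
      rw [Finset.mem_filter, Finset.mem_filter, Finset.mem_filter, and_assoc]
      refine and_congr_right fun _ => ⟨fun h => ?_, fun h => ?_⟩
      · rw [← h, Nat.unpair_pair]
        exact ⟨rfl, rfl⟩
      · rw [h.1, h.2, Nat.pair_unpair]
    rw [e d, e d']
    refine GVG.same_count _ d d' ?_ ?_ (hl _) _
    · intro k hk l hl'
      rw [Finset.mem_filter] at hk hl'
      exact (hbal k hk.1 l hl'.1 (hk.2.trans hl'.2.symm)).1
    · intro k hk l hl'
      rw [Finset.mem_filter] at hk hl'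
      exact (hbal k hk.1 l hl'.1 (hk.2.trans hl'.2.symm)).2
  obtain ⟨π, h1, h2⟩ := GVG.perm A (fun k => Nat.pair (σ k) (d k))
    (fun k => Nat.pair (σ k) (d' k)) hc
  have h3 : ∀ t ∈ A, σ (π t) = σ t ∧ d' (π t) = d t := by
    intro t ht
    exact Nat.pair_eq_pair.1 (h2 t ht).2
  refine ⟨π, h1, fun t => ?_, fun t => ?_⟩
  · by_cases ht : t ∈ A
    · exact (h3 t ht).1
    · rw [h1 t ht]
  · by_cases ht : t ∈ A
    · exact (h3 t ht).2
    · rw [h1 t ht]
      exact (hA t ht).symm

end MP0c3a8f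

end
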