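import Pool.Agent.Work.MP_0c3a8f_co.PB.Stmts6
import Pool.Agent.Work.MP_0c3a8f_co.Bd.B11
import Pool.Agent.Work.MP_0c3a8f_co.PB.ItemCOMPU
import Pool.Agent.Work.MP_0c3a8f_co.Bd.B06
import Pool.Agent.Work.MP_0c3a8f_co.PB.Stmts7
import Pool.Agent.Work.MP_0c3a8f_co.PB.ItemFLU
import Pool.Agent.Work.MP_0c3a8f_co.PB.ItemUBG
import Pool.Agent.Work.MP_0c3a8f_co.Bd.B14
import Pool.Agent.Work.MP_0c3a8f_co.Bd.B17
import Pool.Agent.Work.MP_0c3a8f_co.Bd.B16
import Pool.Agent.Work.MP_0c3a8f_co.PB.ItemSWS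
import Pool.Agent.Work.MP_0c3a8f_co.PB.ItemSQN
import Pool.Agent.Work.MP_0c3a8f_co.PB.Stmts8
import Pool.Agent.Work.MP_0c3a8f_co.PB.ItemEVF2
import Pool.Agent.Work.MP_0c3a8f_co.PB.ItemEXC2

/-! Bundle of small proof modules (one section per former module). -/

section

/-!
# MP_0c3a8f_co, PB6, item UPL: upper bound for the spectral radius
-/

open Finset

namespace MP0c3a8f

namespace ItemUPL

open Classical in
/-- the part of `z` on the core -/
noncomputable def zc {V : Type} {r : ℕ} (z : V → ℝ) (g : V → Option (Fin r)) (v : V) : ℝ :=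
  if g v = none then 0 else z v

open Classical in
/-- the part of `z` outside of the core -/
noncomputable def zl {V : Type} {r : ℕ} (z : V → ℝ) (g : V → Option (Fin r)) (v : V) : ℝ :=
  if g v = none then z v else 0

variable {V : Type} [Fintype V] {r : ℕ}

theorem adj_nonneg (G : SimpleGraph V) (i j : V) : 0 ≤ adj G i j := by
  unfold adj
  split_ifs
  · exact zero_le_one
  · exact le_rfl

theorem adj_symm (G : SimpleGraph V) (i j : V) : adj G i j = adj G j i := by
  unfold adj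
  by_cases h : G.Adj i j
  · rw [if_pos h, if_pos h.symm]
  · rw [if_neg h, if_neg (fun h' => h h'.symm)]

/-- the sum of the squares on the core -/
theorem core_sq (z : V → ℝ) (g : V → Option (Fin r)) {n : ℕ} {κ : ℝ} (hκ0 : 0 ≤ κ)
    (hκ : κ ≤ 1 / 4) (hz : ∀ v, g v ≠ none → |z v - 1| ≤ κ) (hn : ∑ t, siz g t = n) :
    n * (1 - κ) ^ 2 ≤ ∑ v, zc z g v ^ 2 ∧ ∑ v, zc z g v ^ 2 ≤ n * (1 + κ) ^ 2 := by
  classical
  have hc : ∑ v, (if g v = none then (0 : ℝ) else 1) = n := ItemKW3.card_core (g := g) n hn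
  have h1 : ∀ v, (if g v = none then (0 : ℝ) else 1) * (1 - κ) ^ 2 ≤ zc z g v ^ 2 ∧
      zc z g v ^ 2 ≤ (if g v = none then (0 : ℝ) else 1) * (1 + κ) ^ 2 := by
    intro v
    unfold zc
    by_cases hv : g v = none
    · rw [if_pos hv, if_pos hv]
      simp
    · rw [if_neg hv, if_neg hv]
      have := abs_le.1 (hz v hv)
      constructor
      · rw [one_mul]
        exact pow_le_pow_left₀ (by linarith) (by linarith [this.1]) 2
      · rw [one_mul]
        exact pow_le_pow_left₀ (by linarith [this.1]) (by linarith [this.2]) 2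
  constructor
  · rw [← hc, Finset.sum_mul]
    refine Finset.sum_le_sum fun v _ => ?_
    convert (h1 v).1
  · rw [← hc, Finset.sum_mul]
    refine Finset.sum_le_sum fun v _ => ?_
    convert (h1 v).2

open Classical in
theorem key (G : SimpleGraph V) (g : V → Option (Fin r)) (z : V → ℝ) {κ : ℝ} (hκ : κ ≤ 1 / 4)
    (hi : Indep G g) (hz0 : ∀ v, 0 ≤ z v) (hz : ∀ v, g v ≠ none → |z v - 1| ≤ κ) (i j : V) :
    adj G i j * (z i * z j) ≤ adj (KU G g ∅) i j * (zc z g i * zc z g j)
      - (1 - κ) ^ 2 * (if COMPU.Ms G g i j then (1 : ℝ) else 0)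
      + adj G i j * (zl z g i * z j) + adj G i j * (z i * zl z g j) := by
  have hK := adj_nonneg (KU G g ∅) i j
  have hG := adj_nonneg G i j
  by_cases h1 : g i = none
  · have e1 : zc z g i = 0 := by unfold zc; rw [if_pos h1]
    have e2 : zl z g i = z i := by unfold zl; rw [if_pos h1]
    have e3 : ¬ COMPU.Ms G g i j := fun h => h.1 h1
    have e4 : 0 ≤ zl z g j := by unfold zl; split_ifs; exacts [hz0 j, le_rfl]
    rw [e1, e2, if_neg e3]
    have := mul_nonneg hG (mul_nonneg (hz0 i) e4)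
    linarith
  by_cases h2 : g j = none
  · have e1 : zc z g j = 0 := by unfold zc; rw [if_pos h2]
    have e2 : zl z g j = z j := by unfold zl; rw [if_pos h2]
    have e3 : ¬ COMPU.Ms G g i j := fun h => h.2.1 h2
    have e4 : 0 ≤ zl z g i := by unfold zl; rw [if_neg h1]
    rw [e1, e2, if_neg e3]
    have := mul_nonneg hG (mul_nonneg e4 (hz0 j))
    linarith
  have e1 : zc z g i = z i := by unfold zc; rw [if_neg h1]
  have e2 : zc z g j = z j := by unfold zc; rw [if_neg h2]
  have e3 : zl z g i = 0 := by unfold zl; rw [if_neg h1]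
  have e4 : zl z g j = 0 := by unfold zl; rw [if_neg h2]
  rw [e1, e2, e3, e4]
  have hzz : 0 ≤ z i * z j := mul_nonneg (hz0 i) (hz0 j)
  by_cases hA : G.Adj i j
  · have e5 : (KU G g ∅).Adj i j := Or.inl ⟨h1, h2, fun h => hi i j h1 h hA⟩
    have e6 : ¬ COMPU.Ms G g i j := fun h => h.2.2.2 hA
    unfold adj
    rw [if_pos hA, if_pos e5, if_neg e6]
    linarith
  · have e5 : adj G i j = 0 := by unfold adj; rw [if_neg hA]
    rw [e5]
    by_cases hM : COMPU.Ms G g i j
    · have e6 : (KU G g ∅).Adj i j := Or.inl ⟨h1, h2, hM.2.2.1⟩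
      have e7 : adj (KU G g ∅) i j = 1 := by unfold adj; rw [if_pos e6]
      rw [if_pos hM, e7]
      have h3 := (abs_le.1 (hz i h1)).1
      have h4 := (abs_le.1 (hz j h2)).1
      have h5 : (1 - κ) * (1 - κ) ≤ z i * z j :=
        mul_le_mul (by linarith) (by linarith) (by linarith) (hz0 i)
      nlinarith
    · rw [if_neg hM]
      have := mul_nonneg hK hzz
      linarith

/-- the two main inequalities -/
theorem main (hP : P_statement) [Nonempty V] (G : SimpleGraph V) (g : V → Option (Fin r))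
    (z : V → ℝ) {κ ε : ℝ} (hκ : κ ≤ 1 / 4) (hε0 : 0 ≤ ε) (hε : ε ≤ 1 / 4)
    (hi : Indep G g) (hz0 : ∀ v, 0 ≤ z v) (heig : ∀ v, ∑ u, adj G v u * z u = lam G * z v)
    (hz : ∀ v, g v ≠ none → |z v - 1| ≤ κ) (hzl : ∀ v, g v = none → z v ≤ ε) :
    lam G * ∑ v, zc z g v ^ 2 ≤ lam (KU G g ∅) * ∑ v, zc z g v ^ 2
      - 2 * (missSet G g).ncard * (1 - κ) ^ 2 + lam G * ∑ v, zl z g v ^ 2 ∧
    lam G * ∑ v, zl z g v ^ 2 ≤ 4 * (outSet G g).ncard * ε := by
  classical
  have hzl0 : ∀ v, 0 ≤ zl z g v := fun v => by unfold zl; split_ifs; exacts [hz0 v, le_rfl]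
  have hlz : ∀ v, zl z g v * z v = zl z g v ^ 2 := fun v => by
    unfold zl; split_ifs <;> ring
  have hsum : ∀ v, z v * z v = zc z g v ^ 2 + zl z g v ^ 2 := fun v => by
    unfold zl zc; split_ifs <;> ring
  -- sums
  have s1 : ∑ i, ∑ j, adj G i j * (z i * z j) =
      lam G * ∑ v, zc z g v ^ 2 + lam G * ∑ v, zl z g v ^ 2 := by
    rw [← mul_add, ← Finset.sum_add_distrib, Finset.mul_sum]
    refine Finset.sum_congr rfl fun i _ => ?_
    rw [← hsum]
    calc ∑ j, adj G i j * (z i * z j) = z i * ∑ j, adj G i j * z j := by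
          rw [Finset.mul_sum]; exact Finset.sum_congr rfl fun j _ => by ring
      _ = lam G * (z i * z i) := by rw [heig]; ring
  have s2 : ∑ i, ∑ j, adj G i j * (zl z g i * z j) = lam G * ∑ v, zl z g v ^ 2 := by
    rw [Finset.mul_sum]
    refine Finset.sum_congr rfl fun i _ => ?_
    rw [← hlz]
    calc ∑ j, adj G i j * (zl z g i * z j) = zl z g i * ∑ j, adj G i j * z j := by
          rw [Finset.mul_sum]; exact Finset.sum_congr rfl fun j _ => by ring
      _ = lam G * (zl z g i * z i) := by rw [heig]; ring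
  have s3 : ∑ i, ∑ j, adj G i j * (z i * zl z g j) = lam G * ∑ v, zl z g v ^ 2 := by
    rw [Finset.sum_comm, ← s2]
    refine Finset.sum_congr rfl fun i _ => Finset.sum_congr rfl fun j _ => ?_
    rw [adj_symm G j i]
    ring
  have s4 : ∑ i, ∑ j, adj (KU G g ∅) i j * (zc z g i * zc z g j) ≤
      lam (KU G g ∅) * ∑ v, zc z g v ^ 2 := (hP V (KU G g ∅)).2.1 (zc z g)
  have s5 : ∑ i, ∑ j, (1 - κ) ^ 2 * (if COMPU.Ms G g i j then (1 : ℝ) else 0) =
      2 * (missSet G g).ncard * (1 - κ) ^ 2 := by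
    simp_rw [← Finset.mul_sum]
    rw [COMPU.miss_count]
    ring
  constructor
  · have h1 := Finset.sum_le_sum fun i (_ : i ∈ (Finset.univ : Finset V)) =>
      Finset.sum_le_sum fun j (_ : j ∈ (Finset.univ : Finset V)) =>
        key G g z hκ hi hz0 hz i j
    simp only [Finset.sum_add_distrib, Finset.sum_sub_distrib] at h1
    rw [s1, s2, s3, s5] at h1
    linarith
  · rw [← s2]
    have hz2 : ∀ v, z v ≤ 2 := by
      intro v
      by_cases hv : g v = none
      · linarith [hzl v hv]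
      · linarith [(abs_le.1 (hz v hv)).2]
    calc ∑ i, ∑ j, adj G i j * (zl z g i * z j)
        ≤ ∑ i, ∑ j, (2 * ε) * (if G.Adj i j ∧ (g i = none ∨ g j = none) then (1 : ℝ) else 0) := by
          refine Finset.sum_le_sum fun i _ => Finset.sum_le_sum fun j _ => ?_
          unfold adj
          by_cases hA : G.Adj i j
          · rw [if_pos hA]
            by_cases hgi : g i = none
            · rw [if_pos ⟨hA, Or.inl hgi⟩]
              have e : zl z g i = z i := by unfold zl; rw [if_pos hgi]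
              rw [e]
              have : z i * z j ≤ ε * 2 := mul_le_mul (hzl i hgi) (hz2 j) (hz0 j) hε0
              linarith
            · have e : zl z g i = 0 := by unfold zl; rw [if_neg hgi]
              rw [e]
              have : (0 : ℝ) ≤ (2 * ε) * (if G.Adj i j ∧ (g i = none ∨ g j = none)
                  then (1 : ℝ) else 0) := by
                apply mul_nonneg (by linarith)
                split_ifs <;> norm_num
              linarith
          · rw [if_neg hA, zero_mul, if_neg (fun h => hA h.1), mul_zero]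
      _ = 4 * (outSet G g).ncard * ε := by
          simp_rw [← Finset.mul_sum]
          rw [cnv_out]
          ring

/-- the final computation -/
theorem arith {q n C C' l L a b h κ ε Q S : ℝ} (hC : 0 ≤ C) (hC' : 0 ≤ C') (hq1 : q ≤ 1)
    (hh1 : 1 ≤ h) (hhn : h ^ 4 = n) (hκ : κ = C' / h ^ 2) (hε : ε = C' * h / n)
    (hκ4 : κ ≤ 1 / 4) (hl0 : 0 ≤ l) (ha : 0 ≤ a) (hb : 0 ≤ b) (hab : a + b ≤ C * h)
    (hl1 : |l - q * n| ≤ C' * h) (hQ1 : n * (1 - κ) ^ 2 ≤ Q) (hQ2 : Q ≤ n * (1 + κ) ^ 2)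
    (hS : l * S ≤ 4 * b * ε) (hmain : l * Q ≤ L * Q - 2 * a * (1 - κ) ^ 2 + l * S) :
    l ^ 2 ≤ L ^ 2 - 4 * q * a + C * C' * (20 + 16 * (1 + C')) / h := by
  have hh0 : 0 < h := by linarith
  have hn0 : 0 < n := by rw [← hhn]; positivity
  have hκ0 : 0 ≤ κ := by rw [hκ]; positivity
  have hε0 : 0 ≤ ε := by rw [hε]; positivity
  have hQ3 : n / 2 ≤ Q := by
    have : (9 / 16 : ℝ) ≤ (1 - κ) ^ 2 := by nlinarith
    nlinarith
  have hQ0 : 0 < Q := by linarith
  have hl2 := abs_le.1 hl1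
  have hεn : ε * n = C' * h := by rw [hε]; field_simp
  -- comparison of `l (1-κ)²` and `Q`
  have hc : (q - ε - 4 * κ) * Q ≤ l * (1 - κ) ^ 2 := by
    by_cases hcc : q - ε - 4 * κ ≤ 0
    · have h1 : (q - ε - 4 * κ) * Q ≤ 0 := mul_nonpos_of_nonpos_of_nonneg hcc hQ0.le
      have h2 : 0 ≤ l * (1 - κ) ^ 2 := mul_nonneg hl0 (sq_nonneg _)
      linarith
    · push Not at hcc
      have h1 : (q - ε - 4 * κ) * Q ≤ (q - ε - 4 * κ) * (n * (1 + κ) ^ 2) :=
        mul_le_mul_of_nonneg_left hQ2 hcc.le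
      have h2 : (q - ε) * n ≤ l := by nlinarith
      have h3 : (q - ε) * n * (1 - κ) ^ 2 ≤ l * (1 - κ) ^ 2 :=
        mul_le_mul_of_nonneg_right h2 (sq_nonneg _)
      have h4 : (q - ε - 4 * κ) * (1 + κ) ^ 2 ≤ (q - ε) * (1 - κ) ^ 2 := by
        have h5 : (q - ε) * (4 * κ) ≤ 1 * (4 * κ) :=
          mul_le_mul_of_nonneg_right (by linarith) (by linarith)
        have h6 : 4 * κ * 1 ≤ 4 * κ * (1 + κ) ^ 2 :=
          mul_le_mul_of_nonneg_left (by nlinarith) (by linarith)
        nlinarith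
      have h7 : n * ((q - ε - 4 * κ) * (1 + κ) ^ 2) ≤ n * ((q - ε) * (1 - κ) ^ 2) :=
        mul_le_mul_of_nonneg_left h4 hn0.le
      nlinarith
  -- the main inequality
  have hX : (l ^ 2 - L ^ 2) * Q ≤ -(4 * a * ((q - ε - 4 * κ) * Q)) + 8 * l * b * ε := by
    have h1 : (l ^ 2 - L ^ 2) ≤ 2 * l * (l - L) := by nlinarith [sq_nonneg (l - L)]
    have h2 : (l ^ 2 - L ^ 2) * Q ≤ 2 * l * (l - L) * Q := mul_le_mul_of_nonneg_right h1 hQ0.le
    have h3 : (l - L) * Q ≤ - (2 * a * (1 - κ) ^ 2) + 4 * b * ε := by linarith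
    have h4 : 2 * l * ((l - L) * Q) ≤ 2 * l * (- (2 * a * (1 - κ) ^ 2) + 4 * b * ε) :=
      mul_le_mul_of_nonneg_left h3 (by linarith)
    have h5 : 4 * a * ((q - ε - 4 * κ) * Q) ≤ 4 * a * (l * (1 - κ) ^ 2) :=
      mul_le_mul_of_nonneg_left hc (by linarith)
    nlinarith
  have hl3 : l ≤ (1 + C') * n := by
    have h1 : h ≤ n := by
      rw [← hhn]
      calc h = h ^ 1 := (pow_one h).symm
        _ ≤ h ^ 4 := pow_le_pow_right₀ hh1 (by norm_num)
    have h2 : C' * h ≤ C' * n := mul_le_mul_of_nonneg_left h1 hC'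
    nlinarith
  have hbε : 8 * l * b * ε ≤ 16 * (1 + C') * b * ε * Q := by
    have h1 : 0 ≤ b * ε := mul_nonneg hb hε0
    have h2 : 8 * l ≤ 16 * (1 + C') * Q := by nlinarith
    calc 8 * l * b * ε = (8 * l) * (b * ε) := by ring
      _ ≤ (16 * (1 + C') * Q) * (b * ε) := mul_le_mul_of_nonneg_right h2 h1
      _ = _ := by ring
  have hY : l ^ 2 - L ^ 2 ≤ -(4 * a * (q - ε - 4 * κ)) + 16 * (1 + C') * b * ε := by
    have h1 : (l ^ 2 - L ^ 2) * Q ≤
        (-(4 * a * (q - ε - 4 * κ)) + 16 * (1 + C') * b * ε) * Q := by nlinarith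
    exact le_of_mul_le_mul_right h1 hQ0
  -- the small terms
  have ha2 : a ≤ C * h := by linarith
  have hb2 : b ≤ C * h := by linarith
  have hCh : 0 ≤ C * h := by positivity
  have e1 : C * h * ε ≤ C * C' / h := by
    rw [hε, ← hhn]
    have : C * h * (C' * h / h ^ 4) = C * C' / h ^ 2 := by field_simp
    rw [this]
    apply div_le_div_of_nonneg_left (by positivity) hh0
    nlinarith
  have e2 : C * h * κ = C * C' / h := by
    rw [hκ]
    field_simp
  have e3 : a * ε ≤ C * C' / h := (mul_le_mul_of_nonneg_right ha2 hε0).trans e1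
  have e4 : b * ε ≤ C * C' / h := (mul_le_mul_of_nonneg_right hb2 hε0).trans e1
  have e5 : a * κ ≤ C * C' / h := (mul_le_mul_of_nonneg_right ha2 hκ0).trans e2.le
  have e6 : C * C' * (20 + 16 * (1 + C')) / h = (20 + 16 * (1 + C')) * (C * C' / h) := by ring
  have e7 : 16 * (1 + C') * (b * ε) ≤ 16 * (1 + C') * (C * C' / h) :=
    mul_le_mul_of_nonneg_left e4 (by linarith)
  rw [e6]
  nlinarith

end ItemUPL

open ItemUPL in
theorem prfUPL : P_statement → FLU_statement → UPL_statement := by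
  intro hP hFLU r C hr hC
  obtain ⟨C', n0, hC', hF⟩ := hFLU r C hr hC
  refine ⟨C * C' * (20 + 16 * (1 + C')), n0 + ⌈(4 * C') ^ 2⌉₊ + 1, by positivity,
    fun V _ G g n hn hNK => ?_⟩
  obtain ⟨⟨z, hz⟩, hall⟩ := hF V G g n (by omega) hNK
  obtain ⟨hc, hl, hlam, -⟩ := hall z hz
  have hn1 : (1 : ℝ) ≤ n := by exact_mod_cast (by omega : 1 ≤ n)
  have hn0 : (0 : ℝ) < n := by linarith
  have hs1 : 1 ≤ Real.sqrt n := by
    rw [← Real.sqrt_one]; exact Real.sqrt_le_sqrt hn1
  have hss : Real.sqrt n * Real.sqrt n = n := Real.mul_self_sqrt hn0.le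
  have hh1 : 1 ≤ Real.sqrt (Real.sqrt n) := by
    rw [← Real.sqrt_one]; exact Real.sqrt_le_sqrt hs1
  have hh2 : Real.sqrt (Real.sqrt n) ^ 2 = Real.sqrt n := Real.sq_sqrt (Real.sqrt_nonneg _)
  have hh4 : Real.sqrt (Real.sqrt n) ^ 4 = n := by
    have h5 : Real.sqrt (Real.sqrt n) ^ 4 = (Real.sqrt (Real.sqrt n) ^ 2) ^ 2 := by ring
    rw [h5, hh2, sq, hss]
  have h4 : 4 * C' ≤ Real.sqrt n := by
    apply Real.le_sqrt_of_sq_le
    refine (Nat.le_ceil _).trans ?_
    exact_mod_cast (by omega : ⌈(4 * C') ^ 2⌉₊ ≤ n)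
  have hκ : C' / Real.sqrt n ≤ 1 / 4 := by
    rw [div_le_iff₀ (by linarith)]
    linarith
  have hε : C' * Real.sqrt (Real.sqrt n) / n ≤ C' / Real.sqrt n := by
    rw [div_le_div_iff₀ hn0 (by linarith)]
    have h5 : Real.sqrt (Real.sqrt n) ≤ Real.sqrt n := by
      have h6 : Real.sqrt (Real.sqrt n) * 1 ≤ Real.sqrt (Real.sqrt n) * Real.sqrt (Real.sqrt n) :=
        mul_le_mul_of_nonneg_left hh1 (Real.sqrt_nonneg _)
      rw [← sq, hh2, mul_one] at h6
      exact h6
    calc C' * Real.sqrt (Real.sqrt n) * Real.sqrt n ≤ C' * Real.sqrt n * Real.sqrt n := by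
          gcongr
      _ = C' * n := by rw [mul_assoc, hss]
  have hne : Nonempty V := by
    by_contra hcon
    rw [not_nonempty_iff] at hcon
    have h0 : ∑ t, siz g t = 0 := by
      apply Finset.sum_eq_zero
      intro t _
      unfold siz
      rw [Set.eq_empty_of_forall_notMem (s := {y | g y = some t}) (fun y _ => hcon.elim y),
        Set.ncard_empty]
    have := hNK.tot
    omega
  have hε0 : 0 ≤ C' * Real.sqrt (Real.sqrt n) / n := by positivity
  obtain ⟨m1, m2⟩ := main hP G g z hκ hε0 (hε.trans hκ) hNK.indep hz.nonneg hz.eig hc hl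
  obtain ⟨q1, q2⟩ := core_sq z g (by positivity) hκ hc hNK.tot
  have hr1 : qq r ≤ 1 := by
    unfold qq
    have : (0 : ℝ) ≤ 1 / r := by positivity
    linarith
  exact arith hC hC' hr1 hh1 hh4 (by rw [hh2]) rfl hκ (hP V G).1 (Nat.cast_nonneg _)
    (Nat.cast_nonneg _) hNK.few hlam q1 q2 m2 m1

end MP0c3a8f

end

section

/-!
# MP_0c3a8f_co, PB7, item BDU: the spectral radius of the graphs of type one up to `O(1/n)`
-/

open Finset

namespace MP0c3a8f

namespace ItemBDU

variable {V : Type} [Fintype V] {r : ℕ}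

/-- edges at one vertex -/
theorem one (G : SimpleGraph V) (S : Set (Sym2 V)) (Q : V → Prop) (z : V → ℝ)
    (hz0 : ∀ v, 0 ≤ z v) (M : ℝ) (hz : ∀ v, z v ≤ M) (hM : 0 ≤ M) (v : V)
    (h : ∀ u, G.Adj v u → Q u → s(v, u) ∈ S) [∀ u, Decidable (G.Adj v u ∧ Q u)] :
    ∑ u, (if G.Adj v u ∧ Q u then z u else 0) ≤ S.ncard * M := by
  classical
  have h1 := ItemFLU.cnt S (fun a c => a = v ∧ G.Adj v c ∧ Q c) (fun a c h' => by
    rw [h'.1]
    exact h c h'.2.1 h'.2.2) (fun a c h1 h2 => by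
    have h3 := h1.2.1
    rw [h2.1] at h3
    exact G.loopless.irrefl _ h3) z M (fun a c _ => hz c) hM
  refine le_trans ?_ h1
  have h2 : ∀ a ∈ (Finset.univ : Finset V),
      0 ≤ ∑ c, (if a = v ∧ G.Adj v c ∧ Q c then z c else 0) := fun a _ =>
    Finset.sum_nonneg fun c _ => by
      split_ifs
      · exact hz0 c
      · exact le_rfl
  refine le_trans (le_of_eq ?_) (Finset.single_le_sum h2 (Finset.mem_univ v))
  refine Finset.sum_congr rfl fun c _ => ?_
  by_cases h : G.Adj v c ∧ Q c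
  · simp [h]
  · simp [h]

open Classical in
/-- the sum over the outer neighbours -/
theorem outer (G : SimpleGraph V) (g : V → Option (Fin r)) (w : V) (z : V → ℝ)
    (hz0 : ∀ v, 0 ≤ z v) (M : ℝ) (hz : ∀ v, z v ≤ M) (hM : 0 ≤ M) (v : V) :
    ∑ u, (if G.Adj v u ∧ g u = none then z u else 0)
      ≤ ((lightSet G g {w}).ncard + 1) * M := by
  have h1 := one G (lightSet G g {w}) (fun u => g u = none ∧ u ≠ w) z hz0 M hz hM v
    (fun u hA hQ => ⟨hA, u, by simp, hQ.1, by simpa using hQ.2⟩)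
  have h2 : ∑ u, (if u = w then M else 0) = M := by simp
  have h3 : ∑ u, (if G.Adj v u ∧ g u = none then z u else 0) ≤
      ∑ u, ((if G.Adj v u ∧ g u = none ∧ u ≠ w then z u else 0) + (if u = w then M else 0)) := by
    refine Finset.sum_le_sum fun u _ => ?_
    by_cases hu : u = w
    · rw [if_pos hu]
      have h4 := hz u
      have h5 := hz0 u
      split_ifs <;> linarith
    · rw [if_neg hu]
      by_cases hA : G.Adj v u ∧ g u = none
      · rw [if_pos hA, if_pos ⟨hA.1, hA.2, hu⟩]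
        linarith
      · rw [if_neg hA]
        have h5 := hz0 u
        split_ifs <;> linarith
  rw [Finset.sum_add_distrib, h2] at h3
  linarith

/-- the equation at a light vertex -/
theorem lightv (G : SimpleGraph V) (g : V → Option (Fin r)) (w : V) (z : V → ℝ)
    (hz0 : ∀ v, 0 ≤ z v) (M : ℝ) (hz : ∀ v, z v ≤ M) (hM : 0 ≤ M) (v : V) (hv : g v = none)
    (hvw : v ≠ w) :
    ∑ u, adj G v u * z u ≤ (lightSet G g {w}).ncard * M := by
  classical
  have h1 := one G (lightSet G g {w}) (fun _ => True) z hz0 M hz hM v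
    (fun u hA _ => ⟨hA, v, by simp, hv, by simpa using hvw⟩)
  refine le_trans (le_of_eq ?_) h1
  refine Finset.sum_congr rfl fun c _ => ?_
  unfold adj
  by_cases h : G.Adj v c
  · simp [h]
  · simp [h]

/-- the sum over the core -/
theorem coresum (g : V → Option (Fin r)) (z : V → ℝ) :
    ∑ t, cw z g (some t) = ∑ v, (if g v = none then 0 else z v) := by
  classical
  unfold cw
  rw [Finset.sum_comm]
  refine Finset.sum_congr rfl fun v _ => ?_
  rw [ItemKW3.sum_cls]

/-- the sum over all neighbours -/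
theorem all_le (G : SimpleGraph V) (g : V → Option (Fin r)) (w : V) (z : V → ℝ)
    (hz0 : ∀ v, 0 ≤ z v) (M : ℝ) (hz : ∀ v, z v ≤ M) (hM : 0 ≤ M) (v : V) :
    ∑ u, adj G v u * z u ≤ ∑ t, cw z g (some t) + ((lightSet G g {w}).ncard + 1) * M := by
  classical
  have h1 := outer G g w z hz0 M hz hM v
  rw [coresum]
  refine le_trans ?_ (add_le_add_right h1 _)
  rw [← Finset.sum_add_distrib]
  refine Finset.sum_le_sum fun u _ => ?_
  have h5 := hz0 u
  unfold adj
  by_cases hA : G.Adj v u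
  · by_cases hu : g u = none
    · simp [hA, hu]
    · simp [hA, hu]
  · rw [if_neg hA, zero_mul]
    split_ifs <;> simp [h5]

/-- existence of the eigenvector -/
theorem exist (hP : P_statement) [Nonempty V] {G : SimpleGraph V} {g : V → Option (Fin r)}
    (w : V) (n : ℝ) (hn : 0 ≤ n) (hb : ((lightSet G g {w}).ncard : ℝ) + 1 < lam G) :
    ∃ z : V → ℝ, (∀ v, 0 ≤ z v) ∧ (∀ v, ∑ u, adj G v u * z u = lam G * z v) ∧
      ∑ t, cw z g (some t) = n := by
  classical
  obtain ⟨-, -, x, hx0, hx1, hxe⟩ := hP V G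
  have hX0 : 0 ≤ ∑ t, cw x g (some t) := by
    rw [coresum]
    refine Finset.sum_nonneg fun v _ => ?_
    split_ifs
    · exact le_rfl
    · exact hx0 v
  have hXne : ∑ t, cw x g (some t) ≠ 0 := by
    intro h0
    obtain ⟨v₀, hv₀⟩ := Finite.exists_max x
    have h1 := all_le G g w x hx0 (x v₀) hv₀ (hx0 v₀) v₀
    rw [h0, zero_add, hxe] at h1
    have h2 : 0 < x v₀ := by
      refine lt_of_le_of_ne (hx0 v₀) fun h3 => ?_
      have h4 : ∑ i, x i ^ 2 = 0 := Finset.sum_eq_zero fun i _ => by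
        have : x i = 0 := le_antisymm (by rw [h3]; exact hv₀ i) (hx0 i)
        rw [this]
        norm_num
      rw [h4] at hx1
      norm_num at hx1
    have h3 : ((lightSet G g {w}).ncard + 1) * x v₀ < lam G * x v₀ :=
      mul_lt_mul_of_pos_right hb h2
    linarith
  have hXpos : 0 < ∑ t, cw x g (some t) := lt_of_le_of_ne hX0 (Ne.symm hXne)
  refine ⟨fun v => n / (∑ t, cw x g (some t)) * x v,
    fun v => mul_nonneg (div_nonneg hn hXpos.le) (hx0 v), ?_, ?_⟩
  · intro v
    have h1 : ∀ u, adj G v u * (n / (∑ t, cw x g (some t)) * x u) =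
        n / (∑ t, cw x g (some t)) * (adj G v u * x u) := fun u => by ring
    rw [Finset.sum_congr rfl fun u _ => h1 u, ← Finset.mul_sum, hxe v]
    ring
  · have h1 : ∑ t, cw (fun v => n / (∑ t, cw x g (some t)) * x v) g (some t) =
        n / (∑ t, cw x g (some t)) * ∑ t, cw x g (some t) := by
      rw [coresum, coresum, Finset.mul_sum]
      refine Finset.sum_congr rfl fun v _ => ?_
      split_ifs <;> simp
    rw [h1, div_mul_cancel₀ n hXne]

/-- the equations of the classes -/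
theorem cls {G : SimpleGraph V} {g : V → Option (Fin r)} (hI : Indep G g) (w : V) (z : V → ℝ)
    (hz0 : ∀ v, 0 ≤ z v) (l n M : ℝ) (hze : ∀ v, ∑ u, adj G v u * z u = l * z v)
    (hzs : ∑ t, cw z g (some t) = n) (hM : ∀ v, z v ≤ M) (hM0 : 0 ≤ M) (t : Fin r) :
    siz g t * n - (missSet G g).ncard * M ≤ (l + siz g t) * cw z g (some t) ∧
    (l + siz g t) * cw z g (some t)
      ≤ siz g t * n + siz g t * (((lightSet G g {w}).ncard + 1) * M) ∧
    ∀ u, g u = some t → n - cw z g (some t) - (missSet G g).ncard * M ≤ l * z u ∧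
      l * z u ≤ n - cw z g (some t) + ((lightSet G g {w}).ncard + 1) * M := by
  classical
  have h1 := ItemFLU.mi_le G g z t M hM hM0
  have hm0 : ∀ u ∈ (Finset.univ : Finset V), 0 ≤ ∑ v, ItemFLU.mi G g z t u v := fun u _ =>
    Finset.sum_nonneg fun v _ => ItemFLU.mi_nonneg G g z hz0 t u v
  have hl0 : ∀ u, 0 ≤ ∑ v, ItemFLU.li G g z t u v := fun u =>
    Finset.sum_nonneg fun v _ => ItemFLU.li_nonneg G g z hz0 t u v
  have h2 : ∀ u, ∑ v, ItemFLU.li G g z t u v ≤
      (if g u = some t then (((lightSet G g {w}).ncard : ℝ) + 1) * M else 0) := by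
    intro u
    by_cases hu : g u = some t
    · rw [if_pos hu]
      refine le_trans (le_of_eq ?_) (outer G g w z hz0 M hM hM0 u)
      refine Finset.sum_congr rfl fun v _ => ?_
      unfold ItemFLU.li ItemFLU.RL
      by_cases hA : G.Adj u v ∧ g v = none
      · rw [if_pos hA, if_pos ⟨hu, hA.2, hA.1⟩]
      · rw [if_neg hA, if_neg (fun h => hA ⟨h.2.2, h.2.1⟩)]
    · rw [if_neg hu]
      refine le_of_eq (Finset.sum_eq_zero fun v _ => ?_)
      unfold ItemFLU.li
      rw [if_neg (fun h => hu h.1)]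
  have h3 := Finset.sum_nonneg hm0
  have h4 : 0 ≤ ∑ u, ∑ v, ItemFLU.li G g z t u v := Finset.sum_nonneg fun u _ => hl0 u
  have h4' : ∑ u, ∑ v, ItemFLU.li G g z t u v ≤
      siz g t * (((lightSet G g {w}).ncard + 1) * M) := by
    refine (Finset.sum_le_sum fun u _ => h2 u).trans (le_of_eq ?_)
    rw [ItemKW3.sum_if_const]
  have h5 := ItemFLU.clsum hI z t
  have h6 : ∑ u, (if g u = some t then ∑ v, adj G u v * z v else 0) = l * cw z g (some t) := by
    unfold cw
    rw [Finset.mul_sum]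
    refine Finset.sum_congr rfl fun u _ => ?_
    by_cases hu : g u = some t
    · simp [hu, hze u]
    · simp [hu]
  rw [h6, hzs] at h5
  have e1 : (l + siz g t) * cw z g (some t) = l * cw z g (some t) + siz g t * n
      - siz g t * (n - cw z g (some t)) := by ring
  refine ⟨?_, ?_, ?_⟩
  · rw [e1]
    linarith
  · rw [e1]
    linarith
  · intro u hu
    have h7 := ItemFLU.row hI z u t hu
    rw [hze u, hzs] at h7
    have h8 := Finset.single_le_sum hm0 (Finset.mem_univ u)
    have h9 := h2 u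
    rw [if_pos hu] at h9
    have h10 := hm0 u (Finset.mem_univ u)
    have h11 := hl0 u
    constructor
    · linarith
    · linarith

/-! ### comparison of the quadratic forms -/

omit [Fintype V] in
open Classical in
theorem adjK {G : SimpleGraph V} {g : V → Option (Fin r)} {w : V} (hI : Indep G g)
    (hw : g w = none) (i j : V) :
    adj (KU G g {w}) i j = adj G i j + (if COMPU.Ms G g i j then (1 : ℝ) else 0)
      - (if COMPU.Lt G g {w} i j then (1 : ℝ) else 0) := by
  have hK := ItemUBG.isKU (G := G) (g := g) hw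
  unfold adj
  by_cases hA : G.Adj i j
  · have h1 : ¬ COMPU.Ms G g i j := fun h => h.2.2.2 hA
    rw [if_pos hA, if_neg h1]
    by_cases hL : COMPU.Lt G g {w} i j
    · have h2 : ¬ (KU G g {w}).Adj i j := by
        intro h3
        rcases hL.2 with h4 | h4
        · exact hK.iso i j h4.1 h4.2 h3
        · exact hK.iso j i h4.1 h4.2 h3.symm
      rw [if_pos hL, if_neg h2]
      norm_num
    · have h2 : (KU G g {w}).Adj i j := by
        have h3 : ¬ (g i = none ∧ i ∉ ({w} : Finset V)) := fun h => hL ⟨hA, Or.inl h⟩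
        have h4 : ¬ (g j = none ∧ j ∉ ({w} : Finset V)) := fun h => hL ⟨hA, Or.inr h⟩
        by_cases hi : g i = none
        · have h5 : i ∈ ({w} : Finset V) := by
            by_contra h
            exact h3 ⟨hi, h⟩
          refine Or.inr ⟨hA, Or.inl h5, Or.inr h5, ?_⟩
          by_contra h6
          rw [not_or, not_not] at h6
          exact h4 h6
        · by_cases hj : g j = none
          · have h5 : j ∈ ({w} : Finset V) := by
              by_contra h
              exact h4 ⟨hj, h⟩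
            exact Or.inr ⟨hA, Or.inr h5, Or.inl hi, Or.inr h5⟩
          · exact Or.inl ⟨hi, hj, fun h => hI i j hi h hA⟩
      rw [if_neg hL, if_pos h2]
      norm_num
  · have h1 : ¬ COMPU.Lt G g {w} i j := fun h => hA h.1
    rw [if_neg hA, if_neg h1]
    by_cases hM : COMPU.Ms G g i j
    · have h2 : (KU G g {w}).Adj i j := Or.inl ⟨hM.1, hM.2.1, hM.2.2.1⟩
      rw [if_pos hM, if_pos h2]
      norm_num
    · have h2 : ¬ (KU G g {w}).Adj i j := by
        rintro (h | h)
        · exact hM ⟨h.1, h.2.1, h.2.2, hA⟩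
        · exact hA h.1
      rw [if_neg hM, if_neg h2]
      norm_num

open Classical in
theorem qfK {G : SimpleGraph V} {g : V → Option (Fin r)} {w : V} (hI : Indep G g)
    (hw : g w = none) (x : V → ℝ) :
    qf (KU G g {w}) x = qf G x + (∑ i, ∑ j, if COMPU.Ms G g i j then x i * x j else 0)
      - ∑ i, ∑ j, if COMPU.Lt G g {w} i j then x i * x j else 0 := by
  unfold qf
  rw [← Finset.sum_add_distrib, ← Finset.sum_sub_distrib]
  refine Finset.sum_congr rfl fun i _ => ?_
  rw [← Finset.sum_add_distrib, ← Finset.sum_sub_distrib]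
  refine Finset.sum_congr rfl fun j _ => ?_
  rw [adjK hI hw]
  split_ifs <;> ring

open Classical in
theorem lt_hi (G : SimpleGraph V) (g : V → Option (Fin r)) (w : V) (x : V → ℝ) (b : ℝ)
    (h : ∀ i j, COMPU.Lt G g {w} i j → x i * x j ≤ b) :
    (∑ i, ∑ j, if COMPU.Lt G g {w} i j then x i * x j else 0)
      ≤ 2 * (lightSet G g {w}).ncard * b := by
  rw [← COMPU.light_count, Finset.sum_mul]
  refine Finset.sum_le_sum fun i _ => ?_
  rw [Finset.sum_mul]
  refine Finset.sum_le_sum fun j _ => ?_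
  by_cases hL : COMPU.Lt G g {w} i j
  · rw [if_pos hL, if_pos hL, one_mul]
    exact h i j hL
  · rw [if_neg hL, if_neg hL, zero_mul]

open Classical in
theorem ms_lo (G : SimpleGraph V) (g : V → Option (Fin r)) (x : V → ℝ) (b : ℝ)
    (h : ∀ i j, COMPU.Ms G g i j → b ≤ x i * x j) :
    2 * (missSet G g).ncard * b ≤ (∑ i, ∑ j, if COMPU.Ms G g i j then x i * x j else 0) := by
  rw [← COMPU.miss_count, Finset.sum_mul]
  refine Finset.sum_le_sum fun i _ => ?_
  rw [Finset.sum_mul]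
  refine Finset.sum_le_sum fun j _ => ?_
  by_cases hL : COMPU.Ms G g i j
  · rw [if_pos hL, if_pos hL, one_mul]
    exact h i j hL
  · rw [if_neg hL, if_neg hL, zero_mul]

/-! ### arithmetic -/

theorem ar_S {n q p l σ S N c a β M : ℝ} (hqp : q * n + p = n) (hp0 : 0 ≤ p) (hpn : p ≤ n)
    (hσp : |σ - p| ≤ N + 1) (hl : |l - q * n| ≤ c) (hl2 : n / 2 ≤ l) (hσ0 : 0 ≤ σ)
    (hσn : σ ≤ n) (hN : 0 ≤ N) (hn1 : 1 ≤ n) (ha : a ≤ N) (hb0 : 0 ≤ β) (hb : β ≤ N)
    (hM0 : 0 ≤ M) (hM : M ≤ 2) (e1 : σ * n - a * M ≤ (l + σ) * S)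
    (e2 : (l + σ) * S ≤ σ * n + σ * ((β + 1) * M)) :
    |S - p| ≤ 2 * (c + 4 * N + 4) := by
  have hc : 0 ≤ c := (abs_nonneg _).trans hl
  have h1 := abs_le.1 hσp
  have h2 := abs_le.1 hl
  have hL : n ≤ 2 * (l + σ) := by linarith
  have hL0 : 0 < l + σ := by linarith
  have h3 : n * (c + 4 * N + 4) ≤ 2 * (l + σ) * (c + 4 * N + 4) :=
    mul_le_mul_of_nonneg_right hL (by positivity)
  have e3 : (σ - p) * n ≤ (N + 1) * n := mul_le_mul_of_nonneg_right h1.2 (by linarith)
  have e4 : -(N + 1) * n ≤ (σ - p) * n :=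
    mul_le_mul_of_nonneg_right (by linarith [h1.1]) (by linarith)
  have e5 : (l + σ - n) * p ≤ (c + N + 1) * n := by
    have h4 : l + σ - n ≤ c + N + 1 := by linarith [h1.2, h2.2]
    have h5 : (l + σ - n) * p ≤ (c + N + 1) * p := mul_le_mul_of_nonneg_right h4 hp0
    have h6 : (c + N + 1) * p ≤ (c + N + 1) * n := mul_le_mul_of_nonneg_left hpn (by positivity)
    linarith
  have e6 : -((c + N + 1) * n) ≤ (l + σ - n) * p := by
    have h4 : -(c + N + 1) ≤ l + σ - n := by linarith [h1.1, h2.1]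
    have h5 : -(c + N + 1) * p ≤ (l + σ - n) * p := mul_le_mul_of_nonneg_right h4 hp0
    have h6 : (c + N + 1) * p ≤ (c + N + 1) * n := mul_le_mul_of_nonneg_left hpn (by positivity)
    linarith
  have e7 : σ * ((β + 1) * M) ≤ n * ((N + 1) * 2) := by
    refine mul_le_mul hσn ?_ (by positivity) (by linarith)
    exact mul_le_mul (by linarith) hM hM0 (by linarith)
  have e8 : a * M ≤ N * 2 := mul_le_mul ha hM hM0 hN
  have e9 : N * 2 * 1 ≤ N * 2 * n := mul_le_mul_of_nonneg_left hn1 (by positivity)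
  rw [abs_le]
  constructor
  · refine le_of_mul_le_mul_left ?_ hL0
    linarith
  · refine le_of_mul_le_mul_left ?_ hL0
    linarith

theorem ar_z {n q p l S z N c C2 a β M : ℝ} (hqp : q * n + p = n)
    (hS : |S - p| ≤ C2) (hl : |l - q * n| ≤ c) (hl2 : n / 2 ≤ l)
    (hN : 0 ≤ N) (hn1 : 1 ≤ n) (ha : a ≤ N) (hb : β ≤ N)
    (hM0 : 0 ≤ M) (hM : M ≤ 2) (e1 : n - S - a * M ≤ l * z)
    (e2 : l * z ≤ n - S + (β + 1) * M) :
    |z - 1| ≤ 2 * (C2 + c + 2 * N + 2) / n := by
  have hc : 0 ≤ c := (abs_nonneg _).trans hl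
  have hC2 : 0 ≤ C2 := (abs_nonneg _).trans hS
  have h1 := abs_le.1 hS
  have h2 := abs_le.1 hl
  have e8 : a * M ≤ N * 2 := mul_le_mul ha hM hM0 hN
  have e9 : (β + 1) * M ≤ (N + 1) * 2 := mul_le_mul (by linarith) hM hM0 (by linarith)
  have h3 : |l * (z - 1)| ≤ C2 + c + 2 * N + 2 := by
    rw [abs_le]
    constructor
    · linarith
    · linarith
  rw [abs_mul, abs_of_pos (by linarith : 0 < l)] at h3
  rw [le_div_iff₀ (by linarith)]
  have h4 : n / 2 * |z - 1| ≤ l * |z - 1| := mul_le_mul_of_nonneg_right hl2 (abs_nonneg _)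
  linarith

theorem ar_hi {q n c a κ l L P N : ℝ} (hn : 1 ≤ n) (hq0 : 0 ≤ q) (hq1 : q ≤ 1) (ha0 : 0 ≤ a)
    (haN : a ≤ N) (hκ : 0 ≤ κ) (hc : 0 ≤ c) (hs0 : 0 ≤ L + l) (hs : L + l ≤ 2 * q * n + c)
    (hP : n ≤ P) (h : (L - l) * P ≤ 2 * a * (1 + κ / n) ^ 2) :
    L ^ 2 - l ^ 2 ≤ 4 * q * a + (4 * N * (2 * κ + κ ^ 2) + 2 * c * N * (1 + κ) ^ 2) / n := by
  have hn0 : 0 < n := by linarith
  have hN : 0 ≤ N := ha0.trans haN
  have hsq : L ^ 2 - l ^ 2 = (L - l) * (L + l) := by ring
  by_cases hLl : L ≤ l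
  · have h1 : (L - l) * (L + l) ≤ 0 := mul_nonpos_of_nonpos_of_nonneg (by linarith) hs0
    have h2 : 0 ≤ 4 * q * a + (4 * N * (2 * κ + κ ^ 2) + 2 * c * N * (1 + κ) ^ 2) / n := by
      positivity
    linarith
  · rw [not_le] at hLl
    have h1 : (L - l) * n ≤ (L - l) * P := mul_le_mul_of_nonneg_left hP (by linarith)
    have h2 : (L - l) * (L + l) ≤ (L - l) * (2 * q * n + c) :=
      mul_le_mul_of_nonneg_left hs (by linarith)
    have he : κ / n ≤ κ := div_le_self hκ hn
    have he0 : 0 ≤ κ / n := by positivity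
    have h3 : (1 + κ / n) ^ 2 ≤ 1 + (2 * κ + κ ^ 2) / n := by
      have h4 : (κ / n) * (κ / n) ≤ κ * (κ / n) := mul_le_mul_of_nonneg_right he he0
      have h5 : (2 * κ + κ ^ 2) / n = 2 * (κ / n) + κ * (κ / n) := by ring
      rw [h5]
      linarith
    have h4 : (1 + κ / n) ^ 2 ≤ (1 + κ) ^ 2 := pow_le_pow_left₀ (by positivity) (by linarith) 2
    have h5 : (L - l) * n ≤ 2 * a * (1 + (2 * κ + κ ^ 2) / n) :=
      (h1.trans h).trans (mul_le_mul_of_nonneg_left h3 (by positivity))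
    have h6 : (L - l) ≤ 2 * N * (1 + κ) ^ 2 / n := by
      rw [le_div_iff₀ hn0]
      refine (h1.trans h).trans ?_
      exact mul_le_mul (by linarith) h4 (by positivity) (by positivity)
    have h7 : 2 * q * ((L - l) * n) ≤ 2 * q * (2 * a * (1 + (2 * κ + κ ^ 2) / n)) :=
      mul_le_mul_of_nonneg_left h5 (by positivity)
    have h8 : c * (L - l) ≤ c * (2 * N * (1 + κ) ^ 2 / n) := mul_le_mul_of_nonneg_left h6 hc
    have h9 : 4 * (q * a) * ((2 * κ + κ ^ 2) / n) ≤ 4 * N * ((2 * κ + κ ^ 2) / n) := by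
      refine mul_le_mul_of_nonneg_right ?_ (by positivity)
      have : q * a ≤ 1 * a := mul_le_mul_of_nonneg_right hq1 ha0
      linarith
    have e1 : (4 * N * (2 * κ + κ ^ 2) + 2 * c * N * (1 + κ) ^ 2) / n =
        4 * N * ((2 * κ + κ ^ 2) / n) + c * (2 * N * (1 + κ) ^ 2 / n) := by ring
    rw [e1, hsq]
    linarith

theorem ar_lo {q n c a b κ l L P N : ℝ} (hn : 1 ≤ n) (hq0 : 0 ≤ q) (hq1 : q ≤ 1) (ha0 : 0 ≤ a)
    (hb0 : 0 ≤ b) (hab : a + b ≤ N) (hκ : 0 ≤ κ) (hc : 0 ≤ c) (hs0 : 0 ≤ L + l)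
    (hs1 : L + l ≤ 3 * n) (hs : 2 * q * n - c ≤ L + l)
    (hP : n ≤ P) (hP2 : P ≤ n + κ)
    (h : 2 * a * (1 - κ / n) ^ 2 - 2 * b * (κ / n * 2) ≤ (L - l) * P) :
    4 * q * a - (2 * N * c + 16 * N * κ) / n ≤ L ^ 2 - l ^ 2 := by
  have hn0 : 0 < n := by linarith
  have hN : 0 ≤ N := by linarith
  have he0 : 0 ≤ κ / n := by positivity
  have hen : κ / n * n = κ := div_mul_cancel₀ κ hn0.ne'
  have h1 : 2 * a * (1 - 2 * (κ / n)) ≤ 2 * a * (1 - κ / n) ^ 2 := by
    refine mul_le_mul_of_nonneg_left ?_ (by positivity)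
    nlinarith [sq_nonneg (κ / n)]
  have h2 : (a + b) * (κ / n) ≤ N * (κ / n) := mul_le_mul_of_nonneg_right hab he0
  have h3 : 2 * a - 4 * N * (κ / n) ≤ (L - l) * P := by linarith
  have h4 : (2 * a - 4 * N * (κ / n)) * (L + l) ≤ (L - l) * P * (L + l) :=
    mul_le_mul_of_nonneg_right h3 hs0
  have h5 : 2 * a * (2 * q * n - c) ≤ 2 * a * (L + l) :=
    mul_le_mul_of_nonneg_left hs (by positivity)
  have h6 : 4 * N * (κ / n) * (L + l) ≤ 4 * N * (κ / n) * (3 * n) :=
    mul_le_mul_of_nonneg_left hs1 (by positivity)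
  have h7 : 4 * N * (κ / n) * (3 * n) = 12 * N * κ := by
    calc 4 * N * (κ / n) * (3 * n) = 12 * N * (κ / n * n) := by ring
      _ = _ := by rw [hen]
  have h8 : 4 * q * a * P ≤ 4 * q * a * (n + κ) := mul_le_mul_of_nonneg_left hP2 (by positivity)
  have h9 : q * a * κ ≤ N * κ := by
    refine mul_le_mul_of_nonneg_right ?_ hκ
    have : q * a ≤ 1 * a := mul_le_mul_of_nonneg_right hq1 ha0
    linarith
  have h10 : (2 * N * c + 16 * N * κ) / n * n ≤ (2 * N * c + 16 * N * κ) / n * P :=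
    mul_le_mul_of_nonneg_left hP (by positivity)
  rw [div_mul_cancel₀ _ hn0.ne'] at h10
  have h11 : a * c ≤ N * c := mul_le_mul_of_nonneg_right (by linarith) hc
  have h12 : (4 * q * a - (2 * N * c + 16 * N * κ) / n) * P ≤ (L ^ 2 - l ^ 2) * P := by
    have e1 : (L ^ 2 - l ^ 2) * P = (L - l) * P * (L + l) := by ring
    rw [e1]
    linarith
  exact le_of_mul_le_mul_right h12 (by linarith)

/-! ### flatness -/

/-- a flat eigenvector -/
structure Fl (n κ : ℝ) (G : SimpleGraph V) (g : V → Option (Fin r)) (w : V) (z : V → ℝ) :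
    Prop where
  nonneg : ∀ v, 0 ≤ z v
  eig : ∀ v, ∑ u, adj G v u * z u = lam G * z v
  core : ∀ v, g v ≠ none → |z v - 1| ≤ κ / n
  light : ∀ v, g v = none → v ≠ w → z v ≤ κ / n
  two : ∀ v, z v ≤ 2
  lo : n ≤ ∑ v, z v ^ 2
  up : ∑ v, z v ^ 2 ≤ n + (κ ^ 2 + 8 * κ ^ 2 + 4)

open Classical in
/-- the squares -/
theorem squares (g : V → Option (Fin r)) (w : V) (z : V → ℝ) (n : ℕ) {κ ε : ℝ} (hn1 : 1 ≤ n)
    (hz0 : ∀ v, 0 ≤ z v) (hz2 : ∀ v, z v ≤ 2) (hn : ∑ t, siz g t = n)
    (hzs : ∑ t, cw z g (some t) = n) (hc : ∀ v, g v ≠ none → |z v - 1| ≤ κ / n)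
    (hl : ∑ v, (if g v = none ∧ v ≠ w then z v ^ 2 else 0) ≤ ε) :
    (n : ℝ) ≤ ∑ v, z v ^ 2 ∧ ∑ v, z v ^ 2 ≤ n + (κ ^ 2 + ε + 4) := by
  classical
  have hn1' : (1 : ℝ) ≤ n := by exact_mod_cast hn1
  have hn0 : (0 : ℝ) < n := by linarith
  have h1 : ∑ v, (if g v = none then (0 : ℝ) else 1) = n := ItemKW3.card_core (g := g) n hn
  have h2 := hzs
  rw [coresum] at h2
  constructor
  · have h3 : ∑ v, (2 * (if g v = none then 0 else z v) - (if g v = none then (0 : ℝ) else 1)) ≤
        ∑ v, z v ^ 2 := by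
      refine Finset.sum_le_sum fun v _ => ?_
      by_cases hv : g v = none
      · rw [if_pos hv, if_pos hv]
        nlinarith [sq_nonneg (z v)]
      · rw [if_neg hv, if_neg hv]
        nlinarith [sq_nonneg (z v - 1)]
    rw [Finset.sum_sub_distrib, ← Finset.mul_sum, h1, h2] at h3
    linarith
  · have h3 : ∑ v, z v ^ 2 ≤
        ∑ v, ((2 * (if g v = none then 0 else z v) - (if g v = none then (0 : ℝ) else 1))
          + (if g v = none then (0 : ℝ) else 1) * (κ / n) ^ 2
          + (if g v = none ∧ v ≠ w then z v ^ 2 else 0) + (if v = w then 4 else 0)) := by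
      refine Finset.sum_le_sum fun v _ => ?_
      by_cases hv : g v = none
      · by_cases hw : v = w
        · have h4 := hz0 v
          have h5 := hz2 v
          have h6 : ¬ (g v = none ∧ v ≠ w) := fun h => h.2 hw
          rw [if_pos hv, if_pos hv, if_neg h6, if_pos hw]
          nlinarith
        · rw [if_pos hv, if_pos hv, if_pos ⟨hv, hw⟩, if_neg hw]
          linarith
      · have h6 : ¬ (g v = none ∧ v ≠ w) := fun h => hv h.1
        rw [if_neg hv, if_neg hv, if_neg h6]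
        have h7 : (z v - 1) ^ 2 ≤ (κ / n) ^ 2 := by
          rw [← sq_abs]
          exact pow_le_pow_left₀ (abs_nonneg _) (hc v hv) 2
        have h8 : (0 : ℝ) ≤ (if v = w then 4 else 0) := by split_ifs <;> norm_num
        linarith
    rw [Finset.sum_add_distrib, Finset.sum_add_distrib, Finset.sum_add_distrib,
      Finset.sum_sub_distrib, ← Finset.mul_sum, ← Finset.sum_mul, h1, h2] at h3
    have h4 : ∑ v, (if v = w then (4 : ℝ) else 0) = 4 := by simp
    rw [h4] at h3
    have h5 : (n : ℝ) * (κ / n) ^ 2 ≤ κ ^ 2 := by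
      have : (n : ℝ) * (κ / n) ^ 2 = κ ^ 2 / n := by field_simp
      rw [this]
      exact div_le_self (sq_nonneg κ) hn1'
    linarith

/-- flatness of the Perron vector -/
theorem flat (hP : P_statement) (hr : 3 ≤ r) {N n : ℕ} {c : ℝ} {G : SimpleGraph V}
    {g : V → Option (Fin r)} {w : V} (hB : Bd n N G g w) (hl : |lam G - qq r * n| ≤ c)
    (hn : 6 * (c + N + 2) ≤ n) :
    ∃ z : V → ℝ, Fl n (2 * (2 * (c + 4 * N + 4) + c + 2 * N + 2)) G g w z := by
  classical
  have : Nonempty V := ⟨w⟩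
  have hN : (0 : ℝ) ≤ N := Nat.cast_nonneg N
  have hc : 0 ≤ c := (abs_nonneg _).trans hl
  have hn1 : (1 : ℝ) ≤ n := by linarith
  have hn0 : (0 : ℝ) < n := by linarith
  have hr3 : (3 : ℝ) ≤ r := by exact_mod_cast hr
  have hr0 : (0 : ℝ) < r := by linarith
  have ha0 : (0 : ℝ) ≤ (missSet G g).ncard := Nat.cast_nonneg _
  have hb0 : (0 : ℝ) ≤ (lightSet G g {w}).ncard := Nat.cast_nonneg _
  have hd0 := ItemUB1.dev_nonneg (siz g)
  have hbnd := hB.bnd
  have hsum : ∑ t, (siz g t : ℝ) = n := by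
    rw [← hB.tot]
    push_cast
    rfl
  have hq1 : 2 / 3 ≤ qq r := by
    unfold qq
    have : 1 / (r : ℝ) ≤ 1 / 3 := one_div_le_one_div_of_le (by norm_num) hr3
    linarith
  have hqn : qq r * n + n / r = n := by
    unfold qq
    field_simp
    ring
  have hq2 : 2 / 3 * (n : ℝ) ≤ qq r * n := mul_le_mul_of_nonneg_right hq1 hn0.le
  have hl' := abs_le.1 hl
  have hl2 : (n : ℝ) / 2 + N + 1 ≤ lam G := by linarith [hl'.1]
  have hl3 : (n : ℝ) / 2 ≤ lam G := by linarith
  have hl0 : 0 < lam G := by linarith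
  obtain ⟨z, hz0, hze, hzs⟩ := exist hP (G := G) (g := g) w n hn0.le (by linarith)
  -- the maximum
  have hz2 : ∀ v, z v ≤ 2 := by
    obtain ⟨v₀, hv₀⟩ := Finite.exists_max z
    have h1 := all_le G g w z hz0 (z v₀) hv₀ (hz0 v₀) v₀
    rw [hzs, hze] at h1
    have h2 : ((lightSet G g {w}).ncard + 1) * z v₀ ≤ (N + 1) * z v₀ :=
      mul_le_mul_of_nonneg_right (by linarith) (hz0 v₀)
    have h3 : (n / 2 + N + 1) * z v₀ ≤ lam G * z v₀ := mul_le_mul_of_nonneg_right hl2 (hz0 v₀)
    have h4 : (n : ℝ) * z v₀ ≤ n * 2 := by linarith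
    have h5 := le_of_mul_le_mul_left h4 hn0
    exact fun v => (hv₀ v).trans h5
  obtain ⟨k, hk⟩ : ∃ k : ℝ, k = 2 * (2 * (c + 4 * N + 4) + c + 2 * N + 2) := ⟨_, rfl⟩
  rw [← hk]
  have hk0 : 0 ≤ k := by rw [hk]; positivity
  have hkN : 4 * (N : ℝ) ≤ k := by rw [hk]; linarith
  -- the core
  have hcore : ∀ v, g v ≠ none → |z v - 1| ≤ k / n := by
    intro v hv
    obtain ⟨t, ht⟩ := Option.ne_none_iff_exists'.1 hv
    obtain ⟨h1, h2, h3⟩ := cls hB.indep w z hz0 (lam G) n 2 hze hzs hz2 (by norm_num) t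
    have h4 : |(siz g t : ℝ) - n / r| ≤ N + 1 := by
      have h5 := ItemUB1.abs_le_sqrt_dev (siz g) t
      rw [hsum] at h5
      refine h5.trans ?_
      rw [Real.sqrt_le_left (by positivity)]
      nlinarith
    have h5 : (siz g t : ℝ) ≤ n := by
      rw [← hsum]
      exact Finset.single_le_sum (f := fun t => (siz g t : ℝ)) (fun _ _ => Nat.cast_nonneg _)
        (Finset.mem_univ t)
    have h6 := ar_S hqn (by positivity) (div_le_self hn0.le (by linarith)) h4 hl hl3
      (Nat.cast_nonneg _) h5 hN hn1 (by linarith) hb0 (by linarith) (by norm_num) le_rfl h1 h2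
    rw [hk]
    exact ar_z hqn h6 hl hl3 hN hn1 (by linarith) (by linarith) (by norm_num) le_rfl
      (h3 v ht).1 (h3 v ht).2
  have hlight : ∀ v, g v = none → v ≠ w → z v ≤ k / n := by
    intro v hv hvw
    have h1 := lightv G g w z hz0 2 hz2 (by norm_num) v hv hvw
    rw [hze] at h1
    have h2 : n / 2 * z v ≤ lam G * z v := mul_le_mul_of_nonneg_right hl3 (hz0 v)
    rw [le_div_iff₀ hn0]
    linarith
  have hsq : ∑ v, (if g v = none ∧ v ≠ w then z v ^ 2 else 0) ≤ 8 * k ^ 2 := by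
    have h1 : lam G * ∑ v, (if g v = none ∧ v ≠ w then z v ^ 2 else 0) ≤
        2 * (lightSet G g {w}).ncard * (k / n * 2) := by
      rw [← COMPU.light_count, Finset.sum_mul, Finset.mul_sum]
      refine Finset.sum_le_sum fun i _ => ?_
      rw [Finset.sum_mul]
      by_cases hi : g i = none ∧ i ≠ w
      · rw [if_pos hi]
        have e1 : lam G * z i ^ 2 = z i * (lam G * z i) := by ring
        rw [e1, ← hze i, Finset.mul_sum]
        refine Finset.sum_le_sum fun j _ => ?_
        unfold adj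
        by_cases hA : G.Adj i j
        · have h2 : COMPU.Lt G g {w} i j := ⟨hA, Or.inl ⟨hi.1, by simpa using hi.2⟩⟩
          rw [if_pos hA, if_pos h2, one_mul, one_mul]
          exact mul_le_mul (hlight i hi.1 hi.2) (hz2 j) (hz0 j) (by positivity)
        · rw [if_neg hA, zero_mul, mul_zero]
          split_ifs
          · positivity
          · simp
      · rw [if_neg hi, mul_zero]
        refine Finset.sum_nonneg fun j _ => ?_
        split_ifs
        · positivity
        · simp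
    have h2 : 2 * ((lightSet G g {w}).ncard : ℝ) * (k / n * 2) ≤ 2 * N * (k * 2) := by
      have h3 : k / n ≤ k := div_le_self hk0 hn1
      have h4 : 0 ≤ k / n := by positivity
      have h5 : ((lightSet G g {w}).ncard : ℝ) ≤ N := by linarith
      exact mul_le_mul (by linarith) (by linarith) (by positivity) (by positivity)
    have h3 : 0 ≤ ∑ v, (if g v = none ∧ v ≠ w then z v ^ 2 else 0) := by
      refine Finset.sum_nonneg fun v _ => ?_
      split_ifs
      · positivity
      · exact le_rfl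
    have h4 : 1 / 2 * ∑ v, (if g v = none ∧ v ≠ w then z v ^ 2 else 0) ≤
        lam G * ∑ v, (if g v = none ∧ v ≠ w then z v ^ 2 else 0) :=
      mul_le_mul_of_nonneg_right (by linarith) h3
    have h5 : 4 * N * k ≤ k * k := mul_le_mul_of_nonneg_right hkN hk0
    have h6 : 0 ≤ k ^ 2 := sq_nonneg k
    have h7 : k ^ 2 = k * k := sq k
    linarith
  obtain ⟨h1, h2⟩ := squares g w z n (by exact_mod_cast hn1) hz0 hz2 hB.tot hzs hcore hsq
  exact ⟨z, hz0, hze, hcore, hlight, hz2, h1, h2⟩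

omit [Fintype V] in
/-- the complete core is of the same kind -/
theorem bdK {G : SimpleGraph V} {g : V → Option (Fin r)} {w : V} {n N : ℕ}
    (h : Bd n N G g w) : Bd n N (KU G g {w}) g w := by
  have hK := ItemUBG.isKU (G := G) (g := g) h.out
  refine ⟨?_, h.out, h.tot, ?_⟩
  · intro u v hu huv hA
    exact (hK.core u v hu (huv ▸ hu)).1 hA huv
  · have h1 : missSet (KU G g {w}) g = ∅ := by
      apply Set.eq_empty_of_forall_notMem
      rintro e ⟨u, v, -, hu, hv, huv, hA⟩
      exact hA ((hK.core u v hu hv).2 huv)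
    have h2 : lightSet (KU G g {w}) g {w} = ∅ := by
      apply Set.eq_empty_of_forall_notMem
      rintro e ⟨he, v, hv, hgv, hvw⟩
      induction e using Sym2.ind with
      | _ x y =>
        have hA : (KU G g {w}).Adj x y := he
        rcases Sym2.mem_iff.1 hv with rfl | rfl
        · exact hK.iso _ _ hgv hvw hA
        · exact hK.iso _ _ hgv hvw hA.symm
    rw [h1, h2, Set.ncard_empty]
    have h3 := h.bnd
    have ha0 : (0 : ℝ) ≤ (missSet G g).ncard := Nat.cast_nonneg _
    have hb0 : (0 : ℝ) ≤ (lightSet G g {w}).ncard := Nat.cast_nonneg _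
    push_cast
    linarith

theorem qf_eig2 (G : SimpleGraph V) (x : V → ℝ) (l : ℝ)
    (h : ∀ i, ∑ j, adj G i j * x j = l * x i) : qf G x = l * ∑ i, x i ^ 2 := by
  unfold qf
  rw [Finset.mul_sum]
  refine Finset.sum_congr rfl fun i _ => ?_
  calc ∑ j, adj G i j * (x i * x j) = x i * ∑ j, adj G i j * x j := by
        rw [Finset.mul_sum]
        exact Finset.sum_congr rfl fun j _ => by ring
    _ = l * x i ^ 2 := by rw [h]; ring

end ItemBDU

open ItemBDU in
theorem prfBDU : P_statement → SEC_statement → BDU_statement := by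
  classical
  intro hP hS r N hr
  obtain ⟨n₁, hS⟩ := hS r N 1 hr one_pos
  have hN : (0 : ℝ) ≤ N := Nat.cast_nonneg N
  obtain ⟨c, hc⟩ : ∃ c : ℝ, c = 3 * N + 10 := ⟨_, rfl⟩
  have hc0 : 0 ≤ c := by rw [hc]; positivity
  obtain ⟨k, hk⟩ : ∃ k : ℝ, k = 2 * (2 * (c + 4 * N + 4) + c + 2 * N + 2) := ⟨_, rfl⟩
  have hk0 : 0 ≤ k := by rw [hk]; positivity
  obtain ⟨κ, hκ⟩ : ∃ κ : ℝ, κ = k + (k ^ 2 + 8 * k ^ 2 + 4) := ⟨_, rfl⟩
  have hκ0 : 0 ≤ κ := by rw [hκ]; positivity
  have hkκ : k ≤ κ := by rw [hκ]; linarith [sq_nonneg k]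
  obtain ⟨n₂, hn₂⟩ := exists_nat_ge (6 * (c + N + 2) + κ)
  refine ⟨(4 * N * (2 * κ + κ ^ 2) + 2 * (2 * c) * N * (1 + κ) ^ 2)
    + (2 * N * (2 * c) + 16 * N * κ), max n₁ n₂, by positivity, ?_⟩
  intro V _ G g w n hn hB
  have hn1 : n₁ ≤ n := le_trans (le_max_left _ _) hn
  have hn2 : n₂ ≤ n := le_trans (le_max_right _ _) hn
  have hn2' : (n₂ : ℝ) ≤ n := by exact_mod_cast hn2
  have hnn : 6 * (c + N + 2) + κ ≤ n := hn₂.trans hn2'
  have hn1' : (1 : ℝ) ≤ n := by linarith
  have hn0 : (0 : ℝ) < n := by linarith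
  have : Nonempty V := ⟨w⟩
  have hw := hB.out
  have hBK := bdK hB
  have hKU := ItemUBG.isKU (G := G) (g := g) hw
  have ha0 : (0 : ℝ) ≤ (missSet G g).ncard := Nat.cast_nonneg _
  have hb0 : (0 : ℝ) ≤ (lightSet G g {w}).ncard := Nat.cast_nonneg _
  have hd0 := ItemUB1.dev_nonneg (siz g)
  have hbnd := hB.bnd
  have hr3 : (3 : ℝ) ≤ r := by exact_mod_cast hr
  have hq0 : 0 ≤ qq r := by
    unfold qq
    have : 1 / (r : ℝ) ≤ 1 / 3 := one_div_le_one_div_of_le (by norm_num) hr3
    linarith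
  have hq1 : qq r ≤ 1 := by
    unfold qq
    have : 0 ≤ 1 / (r : ℝ) := by positivity
    linarith
  have hLK : |lam (KU G g {w}) - qq r * n| ≤ N + 10 :=
    (hS V (KU G g {w}) g w n hn1 hKU hB.tot (by linarith)).2
  have hLK' := abs_le.1 hLK
  -- comparison of the spectral radii
  have hxx : ∀ x : V → ℝ, (∀ i, 0 ≤ x i) → ∑ i, x i ^ 2 = 1 → ∀ i j, x i * x j ≤ 1 := by
    intro x hx0 hx1 i j
    have h1 : ∀ i, x i ≤ 1 := by
      intro i
      have h2 := Finset.single_le_sum (f := fun i => x i ^ 2) (fun i _ => sq_nonneg _)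
        (Finset.mem_univ i)
      rw [hx1] at h2
      exact (sq_le_one_iff₀ (hx0 i)).1 h2
    exact mul_le_one₀ (h1 i) (hx0 j) (h1 j)
  have hlG1 : lam G ≤ lam (KU G g {w}) + 2 * N := by
    obtain ⟨-, -, x, hx0, hx1, hxe⟩ := hP V G
    have h1 := (hP V (KU G g {w})).2.1 x
    have h2 := qfK hB.indep hw x
    have h3 := ItemUB1.qf_eig G x (lam G) hx1 hxe
    have h4 := lt_hi G g w x 1 (fun i j _ => hxx x hx0 hx1 i j)
    have h5 := ms_lo G g x 0 (fun i j _ => mul_nonneg (hx0 i) (hx0 j))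
    rw [hx1, mul_one] at h1
    linarith
  have hlG2 : lam (KU G g {w}) ≤ lam G + 2 * N := by
    obtain ⟨-, -, x, hx0, hx1, hxe⟩ := hP V (KU G g {w})
    have h1 := (hP V G).2.1 x
    have h2 := ItemUBG.qf_le (G := G) (g := g) (w := w) x hx0 zero_le_one
      (fun u v _ _ => hxx x hx0 hx1 u v)
    rw [ItemUB1.qf_eig _ _ _ hx1 hxe] at h2
    rw [hx1, mul_one] at h1
    linarith
  have hlG : |lam G - qq r * n| ≤ c := by
    rw [hc, abs_le]
    constructor
    · linarith [hLK'.1]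
    · linarith [hLK'.2]
  have hlK : |lam (KU G g {w}) - qq r * n| ≤ c := hLK.trans (by rw [hc]; linarith)
  obtain ⟨z, hz⟩ := flat hP hr hB hlG (by linarith)
  obtain ⟨y, hy⟩ := flat hP hr hBK hlK (by linarith)
  rw [← hk] at hz hy
  have hkn : k / n ≤ κ / n := div_le_div_of_nonneg_right hkκ hn0.le
  have hkn1 : κ / n ≤ 1 := by
    rw [div_le_one hn0]
    linarith
  have hlG' := abs_le.1 hlG
  have hlK' := abs_le.1 hlK
  have hqn : qq r * n ≤ 1 * n := mul_le_mul_of_nonneg_right hq1 hn0.le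
  have hG0 := (hP V G).1
  have hK0 := (hP V (KU G g {w})).1
  -- the first inequality
  have hA : 2 * ((missSet G g).ncard : ℝ) * (1 - κ / n) ^ 2
      - 2 * ((lightSet G g {w}).ncard : ℝ) * (κ / n * 2) ≤
      (lam (KU G g {w}) - lam G) * ∑ v, z v ^ 2 := by
    have h1 := (hP V (KU G g {w})).2.1 z
    have h2 := qfK hB.indep hw z
    rw [qf_eig2 G z (lam G) hz.eig] at h2
    have h3 := lt_hi G g w z (κ / n * 2) (fun i j h => by
      rcases h.2 with h4 | h4
      · have h5 := hz.light i h4.1 (by simpa using h4.2)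
        exact mul_le_mul (h5.trans hkn) (hz.two j) (hz.nonneg j) (by positivity)
      · have h5 := hz.light j h4.1 (by simpa using h4.2)
        rw [mul_comm]
        exact mul_le_mul (h5.trans hkn) (hz.two i) (hz.nonneg i) (by positivity))
    have h4 := ms_lo G g z ((1 - κ / n) ^ 2) (fun i j h => by
      have h5 := (abs_le.1 (hz.core i h.1)).1
      have h6 := (abs_le.1 (hz.core j h.2.1)).1
      rw [sq]
      exact mul_le_mul (by linarith) (by linarith) (by linarith) (hz.nonneg i))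
    have e1 : (lam (KU G g {w}) - lam G) * ∑ v, z v ^ 2 =
        lam (KU G g {w}) * ∑ v, z v ^ 2 - lam G * ∑ v, z v ^ 2 := by ring
    rw [e1]
    linarith
  -- the second inequality
  have hC : (lam (KU G g {w}) - lam G) * ∑ v, y v ^ 2 ≤
      2 * ((missSet G g).ncard : ℝ) * (1 + κ / n) ^ 2 := by
    have h1 := (hP V G).2.1 y
    have h2 := ItemUBG.qf_le (G := G) (g := g) (w := w) y hy.nonneg
      (sq_nonneg (1 + κ / n)) (fun u v hu hv => by
        have h5 := (abs_le.1 (hy.core u hu)).2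
        have h6 := (abs_le.1 (hy.core v hv)).2
        have h7 : 0 ≤ κ / n := by positivity
        rw [sq]
        exact mul_le_mul (by linarith) (by linarith) (hy.nonneg v) (by linarith))
    rw [qf_eig2 _ y _ hy.eig] at h2
    have e1 : (lam (KU G g {w}) - lam G) * ∑ v, y v ^ 2 =
        lam (KU G g {w}) * ∑ v, y v ^ 2 - lam G * ∑ v, y v ^ 2 := by ring
    rw [e1]
    linarith
  have hlo := ar_lo (N := N) (c := 2 * c) hn1' hq0 hq1 ha0 hb0 (by linarith) hκ0 (by positivity)
    (by linarith) (by linarith) (by linarith [hlG'.1, hlK'.1]) hz.lo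
    (hz.up.trans (by rw [hκ]; linarith)) hA
  have hhi := ar_hi (N := N) (c := 2 * c) hn1' hq0 hq1 ha0 (by linarith) hκ0 (by positivity)
    (by linarith) (by linarith [hlG'.2, hlK'.2]) hy.lo hC
  have e2 : ((4 * N * (2 * κ + κ ^ 2) + 2 * (2 * c) * N * (1 + κ) ^ 2)
      + (2 * N * (2 * c) + 16 * N * κ)) / n =
      (4 * N * (2 * κ + κ ^ 2) + 2 * (2 * c) * N * (1 + κ) ^ 2) / n
      + (2 * N * (2 * c) + 16 * N * κ) / n := by ring
  have e3 : 0 ≤ (4 * N * (2 * κ + κ ^ 2) + 2 * (2 * c) * N * (1 + κ) ^ 2) / n := by positivity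
  have e4 : 0 ≤ (2 * N * (2 * c) + 16 * N * κ) / n := by positivity
  rw [e2, abs_le]
  constructor
  · linarith
  · linarith

end MP0c3a8f

end

section

/-!
# MP_0c3a8f_co, PB6, item LOL: lower bound for the spectral radius
-/

open Finset

namespace MP0c3a8f

namespace ItemLOL

open ItemUPL

variable {V : Type} [Fintype V] {r : ℕ}

/-- the complete core is of the same kind -/
theorem nk (G : SimpleGraph V) (g : V → Option (Fin r)) {n : ℕ} {C : ℝ} (hC : 0 ≤ C)
    (h : NK n C G g) : NK n C (KU G g ∅) g := by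
  refine ⟨?_, h.tot, h.dev, ?_⟩
  · intro v w hv hvw hA
    rcases hA with hA | hA
    · exact hA.2.2 hvw
    · rcases hA.2.1 with h1 | h1 <;> simp at h1
  · have h1 : missSet (KU G g ∅) g = ∅ := by
      apply Set.eq_empty_of_forall_notMem
      rintro e ⟨v, w, -, hv, hw, hvw, hA⟩
      exact hA (Or.inl ⟨hv, hw, hvw⟩)
    have h2 : outSet (KU G g ∅) g = ∅ := by
      apply Set.eq_empty_of_forall_notMem
      rintro e ⟨he, v, hv, hgv⟩
      induction e using Sym2.ind with
      | _ x y =>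
        have hA : (KU G g ∅).Adj x y := he
        have h3 : g x ≠ none ∧ g y ≠ none := by
          rcases hA with hA | hA
          · exact ⟨hA.1, hA.2.1⟩
          · rcases hA.2.1 with h1 | h1 <;> simp at h1
        rcases Sym2.mem_iff.1 hv with rfl | rfl
        · exact h3.1 hgv
        · exact h3.2 hgv
    rw [h1, h2, Set.ncard_empty]
    push_cast
    rw [zero_add]
    positivity

/-- the main inequality -/
theorem main (hP : P_statement) [Nonempty V] (G : SimpleGraph V) (g : V → Option (Fin r))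
    (z : V → ℝ) {κ : ℝ} (hκ0 : 0 ≤ κ) (hz0 : ∀ v, 0 ≤ z v)
    (heig : ∀ v, ∑ u, adj (KU G g ∅) v u * z u = lam (KU G g ∅) * z v)
    (hz : ∀ v, g v ≠ none → |z v - 1| ≤ κ) :
    lam (KU G g ∅) * ∑ v, zc z g v ^ 2 ≤ lam G * ∑ v, zc z g v ^ 2
      + 2 * (missSet G g).ncard * (1 + κ) ^ 2 := by
  classical
  have hzc0 : ∀ v, 0 ≤ zc z g v := fun v => by unfold zc; split_ifs; exacts [le_rfl, hz0 v]
  have hzc1 : ∀ v, g v ≠ none → zc z g v ≤ 1 + κ := fun v hv => by
    unfold zc
    rw [if_neg hv]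
    linarith [(abs_le.1 (hz v hv)).2]
  have hzz : ∀ v, zc z g v * z v = zc z g v ^ 2 := fun v => by
    unfold zc; split_ifs <;> ring
  have h1 : qf (KU G g ∅) (zc z g) ≤ qf G (zc z g) + 2 * (missSet G g).ncard * (1 + κ) ^ 2 :=
    ItemLOWU.qf_le (zc z g) hzc0 (sq_nonneg _) fun u v hu hv => by
      rw [sq]
      exact mul_le_mul (hzc1 u hu) (hzc1 v hv) (hzc0 v) (by linarith)
  have h2 : qf G (zc z g) ≤ lam G * ∑ v, zc z g v ^ 2 := (hP V G).2.1 (zc z g)
  have h3 : qf (KU G g ∅) (zc z g) = lam (KU G g ∅) * ∑ v, zc z g v ^ 2 := by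
    unfold qf
    rw [Finset.mul_sum]
    refine Finset.sum_congr rfl fun i _ => ?_
    rw [← hzz]
    calc ∑ j, adj (KU G g ∅) i j * (zc z g i * zc z g j)
        = zc z g i * ∑ j, adj (KU G g ∅) i j * z j := by
          rw [Finset.mul_sum]
          refine Finset.sum_congr rfl fun j _ => ?_
          by_cases hj : g j = none
          · have h4 : ¬ (KU G g ∅).Adj i j := by
              rintro (hA | hA)
              · exact hA.2.1 hj
              · rcases hA.2.1 with h1 | h1 <;> simp at h1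
            have h5 : adj (KU G g ∅) i j = 0 := by unfold adj; rw [if_neg h4]
            rw [h5]
            ring
          · have h4 : zc z g j = z j := by unfold zc; rw [if_neg hj]
            rw [h4]
            ring
      _ = lam (KU G g ∅) * (zc z g i * z i) := by rw [heig]; ring
  rw [← h3]
  linarith

/-- the final computation -/
theorem arith {q n C C' l L a h κ ε Q : ℝ} (hC : 0 ≤ C) (hC' : 0 ≤ C') (hq0 : 0 ≤ q)
    (hq1 : q ≤ 1) (hh1 : 1 ≤ h) (hhn : h ^ 4 = n) (hκ : κ = C' / h ^ 2) (hε : ε = C' * h / n)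
    (hκ4 : κ ≤ 1 / 4) (hε4 : ε ≤ 1 / 4) (hL0 : 0 ≤ L) (ha : 0 ≤ a) (hab : a ≤ C * h)
    (hl1 : |L - q * n| ≤ C' * h) (hQ1 : n * (1 - κ) ^ 2 ≤ Q)
    (hmain : L * Q ≤ l * Q + 2 * a * (1 + κ) ^ 2) :
    L ^ 2 - 4 * q * a - 68 * (C * C') / h ≤ l ^ 2 := by
  have hh0 : 0 < h := by linarith
  have hn0 : 0 < n := by rw [← hhn]; positivity
  have hκ0 : 0 ≤ κ := by rw [hκ]; positivity
  have hε0 : 0 ≤ ε := by rw [hε]; positivity
  have h916 : (9 / 16 : ℝ) ≤ (1 - κ) ^ 2 := by nlinarith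
  have hQ0 : 0 < Q := by nlinarith
  have hl2 := abs_le.1 hl1
  have hεn : ε * n = C' * h := by rw [hε]; field_simp
  have hc : L * (1 + κ) ^ 2 ≤ (q + ε + 16 * κ) * Q := by
    have h1 : (q + ε + 16 * κ) * (n * (1 - κ) ^ 2) ≤ (q + ε + 16 * κ) * Q :=
      mul_le_mul_of_nonneg_left hQ1 (by linarith)
    have h2 : L ≤ (q + ε) * n := by nlinarith
    have h3 : L * (1 + κ) ^ 2 ≤ (q + ε) * n * (1 + κ) ^ 2 :=
      mul_le_mul_of_nonneg_right h2 (sq_nonneg _)
    have h4 : (q + ε) * (1 + κ) ^ 2 ≤ (q + ε + 16 * κ) * (1 - κ) ^ 2 := by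
      have h5 : (q + ε) * (4 * κ) ≤ 2 * (4 * κ) :=
        mul_le_mul_of_nonneg_right (by linarith) (by linarith)
      have h6 : 16 * κ * (9 / 16) ≤ 16 * κ * (1 - κ) ^ 2 :=
        mul_le_mul_of_nonneg_left h916 (by linarith)
      nlinarith
    have h7 : n * ((q + ε) * (1 + κ) ^ 2) ≤ n * ((q + ε + 16 * κ) * (1 - κ) ^ 2) :=
      mul_le_mul_of_nonneg_left h4 hn0.le
    nlinarith
  have hY : L ^ 2 - l ^ 2 ≤ 4 * a * (q + ε + 16 * κ) := by
    have h1 : (L ^ 2 - l ^ 2) ≤ 2 * L * (L - l) := by nlinarith [sq_nonneg (L - l)]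
    have h2 : (L ^ 2 - l ^ 2) * Q ≤ 2 * L * (L - l) * Q := mul_le_mul_of_nonneg_right h1 hQ0.le
    have h3 : (L - l) * Q ≤ 2 * a * (1 + κ) ^ 2 := by linarith
    have h4 : 2 * L * ((L - l) * Q) ≤ 2 * L * (2 * a * (1 + κ) ^ 2) :=
      mul_le_mul_of_nonneg_left h3 (by linarith)
    have h5 : 4 * a * (L * (1 + κ) ^ 2) ≤ 4 * a * ((q + ε + 16 * κ) * Q) :=
      mul_le_mul_of_nonneg_left hc (by linarith)
    have h6 : (L ^ 2 - l ^ 2) * Q ≤ (4 * a * (q + ε + 16 * κ)) * Q := by nlinarith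
    exact le_of_mul_le_mul_right h6 hQ0
  have e1 : C * h * ε ≤ C * C' / h := by
    rw [hε, ← hhn]
    have : C * h * (C' * h / h ^ 4) = C * C' / h ^ 2 := by field_simp
    rw [this]
    apply div_le_div_of_nonneg_left (by positivity) hh0
    nlinarith
  have e2 : C * h * κ = C * C' / h := by
    rw [hκ]
    field_simp
  have e3 : a * ε ≤ C * C' / h := (mul_le_mul_of_nonneg_right hab hε0).trans e1
  have e5 : a * κ ≤ C * C' / h := (mul_le_mul_of_nonneg_right hab hκ0).trans e2.le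
  have e6 : 68 * (C * C') / h = 68 * (C * C' / h) := by ring
  rw [e6]
  nlinarith

end ItemLOL

open ItemUPL in
theorem prfLOL : P_statement → FLU_statement → LOL_statement := by
  intro hP hFLU r C hr hC
  obtain ⟨C', n0, hC', hF⟩ := hFLU r C hr hC
  refine ⟨68 * (C * C'), n0 + ⌈(4 * C') ^ 2⌉₊ + 1, by positivity, fun V _ G g n hn hNK => ?_⟩
  obtain ⟨⟨z, hz⟩, hall⟩ := hF V (KU G g ∅) g n (by omega) (ItemLOL.nk G g hC hNK)
  obtain ⟨hc, hl, hlam, -⟩ := hall z hz
  have hn1 : (1 : ℝ) ≤ n := by exact_mod_cast (by omega : 1 ≤ n)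
  have hn0 : (0 : ℝ) < n := by linarith
  have hs1 : 1 ≤ Real.sqrt n := by
    rw [← Real.sqrt_one]; exact Real.sqrt_le_sqrt hn1
  have hss : Real.sqrt n * Real.sqrt n = n := Real.mul_self_sqrt hn0.le
  have hh1 : 1 ≤ Real.sqrt (Real.sqrt n) := by
    rw [← Real.sqrt_one]; exact Real.sqrt_le_sqrt hs1
  have hh2 : Real.sqrt (Real.sqrt n) ^ 2 = Real.sqrt n := Real.sq_sqrt (Real.sqrt_nonneg _)
  have hh4 : Real.sqrt (Real.sqrt n) ^ 4 = n := by
    have h5 : Real.sqrt (Real.sqrt n) ^ 4 = (Real.sqrt (Real.sqrt n) ^ 2) ^ 2 := by ring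
    rw [h5, hh2, sq, hss]
  have h4 : 4 * C' ≤ Real.sqrt n := by
    apply Real.le_sqrt_of_sq_le
    refine (Nat.le_ceil _).trans ?_
    exact_mod_cast (by omega : ⌈(4 * C') ^ 2⌉₊ ≤ n)
  have hκ : C' / Real.sqrt n ≤ 1 / 4 := by
    rw [div_le_iff₀ (by linarith)]
    linarith
  have hε : C' * Real.sqrt (Real.sqrt n) / n ≤ C' / Real.sqrt n := by
    rw [div_le_div_iff₀ hn0 (by linarith)]
    have h5 : Real.sqrt (Real.sqrt n) ≤ Real.sqrt n := by
      have h6 : Real.sqrt (Real.sqrt n) * 1 ≤ Real.sqrt (Real.sqrt n) * Real.sqrt (Real.sqrt n) :=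
        mul_le_mul_of_nonneg_left hh1 (Real.sqrt_nonneg _)
      rw [← sq, hh2, mul_one] at h6
      exact h6
    calc C' * Real.sqrt (Real.sqrt n) * Real.sqrt n ≤ C' * Real.sqrt n * Real.sqrt n := by
          gcongr
      _ = C' * n := by rw [mul_assoc, hss]
  have hne : Nonempty V := by
    by_contra hcon
    rw [not_nonempty_iff] at hcon
    have h0 : ∑ t, siz g t = 0 := by
      apply Finset.sum_eq_zero
      intro t _
      unfold siz
      rw [Set.eq_empty_of_forall_notMem (s := {y | g y = some t}) (fun y _ => hcon.elim y),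
        Set.ncard_empty]
    have := hNK.tot
    omega
  have hκ0 : 0 ≤ C' / Real.sqrt n := by positivity
  have m1 := ItemLOL.main hP G g z hκ0 hz.nonneg hz.eig hc
  obtain ⟨q1, q2⟩ := core_sq z g hκ0 hκ hc hNK.tot
  have hr0 : (3 : ℝ) ≤ r := by exact_mod_cast hr
  have hr2 : 0 ≤ qq r ∧ qq r ≤ 1 := by
    unfold qq
    have h1 : (0 : ℝ) ≤ 1 / r := by positivity
    have h2 : (1 : ℝ) / r ≤ 1 / 3 := one_div_le_one_div_of_le (by norm_num) hr0
    constructor <;> linarith
  have hab : ((missSet G g).ncard : ℝ) ≤ C * Real.sqrt (Real.sqrt n) := by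
    have := hNK.few
    have h1 : (0 : ℝ) ≤ (outSet G g).ncard := Nat.cast_nonneg _
    linarith
  exact ItemLOL.arith hC hC' hr2.1 hr2.2 hh1 hh4 (by rw [hh2]) rfl hκ (hε.trans hκ)
    (hP V (KU G g ∅)).1 (Nat.cast_nonneg _) hab hlam q1 m1

end MP0c3a8f

end

section

/-!
# MP_0c3a8f_co: all items of the part PB6 (one special vertex, all sizes) together
-/

namespace MP0c3a8f

theorem bFLU : FLU_statement := prfFLU prfP bKWS
theorem bUPL : UPL_statement := prfUPL prfP bFLU
theorem bLOL : LOL_statement := prfLOL prfP bFLU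
theorem bTRK : TRK_statement := prfTRK prfP
theorem bBLA : BLA_statement := prfBLA prfCNTU bMEMS bMEMV bUPL bLOL bTRK
theorem bSSWU : SSWU_statement := prfSSWU prfP prfCNTU bFLU
theorem bSWS : SWS_statement := prfSWS prfP bFLU
theorem bFNW : FNW_statement :=
  prfFNW prfP prfCNTU bFLU bBLA bSSWU bMEMS bTRF prfSWM bSWS prfSQN prfMKH
theorem bFINB : FINB_statement := prfFINB prfDEV prfCNTU prfTURN bFINA bFNW

end MP0c3a8f

end

section

/-!
# MP_0c3a8f_co, item REV: the neighbours of `w`, type `R`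
-/

set_option autoImplicit false

open Finset

namespace MP0c3a8f

namespace ItemREV

variable {r : ℕ} {V : Type} [Fintype V] {G : SimpleGraph V} {g : V → Option (Fin r)} {w u : V}
  {v : Fin r → V} {i : Fin r}

theorem nbn_le_out (hw : g w = none) (t : Fin r) : nbn G g w t ≤ (outSet G g).ncard := by
  unfold nbn
  refine Set.ncard_le_ncard_of_injOn (fun x => s(w, x)) ?_ ?_ (Set.toFinite _)
  · intro x hx
    exact ⟨hx.2, w, by simp, hw⟩
  · intro x _ y _ hxy
    exact Sym2.congr_right.1 hxy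

open Classical in
theorem sum_ite_ncard (P : V → Prop) [DecidablePred P] (c : ℝ) :
    (∑ y, if P y then c else 0) = ({y | P y}.ncard : ℝ) * c := by
  rw [← Finset.sum_filter, Finset.sum_const, nsmul_eq_mul]
  congr 2
  rw [Set.ncard_eq_toFinset_card' {y | P y}]
  congr 1
  ext y
  simp

theorem missSet_empty (hT : Ty2 G g w u v i) : missSet G g = ∅ := by
  rw [Set.eq_empty_iff_forall_notMem]
  rintro e ⟨a, b, -, ha, hb, hab, hn⟩
  exact hn ((hT.core a b ha hb).2 hab)

theorem muv_zero (hT : Ty2 G g w u v i) (z : V → ℝ) (y : V) : muv G g z y = 0 := by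
  unfold muv
  apply Finset.sum_eq_zero
  intro x _
  rw [if_neg]
  rintro ⟨ha, hb, hab, hn⟩
  exact hn ((hT.core y x ha hb).2 (Ne.symm hab))

open Classical in
theorem omv_eq (hT : Ty2 G g w u v i) (z : V → ℝ) (y : V) :
    omv G g z y = (if G.Adj y w then z w else 0) + (if G.Adj y u then z u else 0) := by
  unfold omv
  have key : ∀ x, (if g x = none ∧ G.Adj y x then z x else 0) =
      (if x = w then (if G.Adj y w then z w else 0) else 0) +
      (if x = u then (if G.Adj y u then z u else 0) else 0) := by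
    intro x
    by_cases hxw : x = w
    · subst hxw
      have h1 : x ≠ u := hT.ne
      have h2 : g x = none := (hT.out x).2 (Or.inl rfl)
      simp [h1, h2]
    · by_cases hxu : x = u
      · subst hxu
        have h2 : g x = none := (hT.out x).2 (Or.inr rfl)
        simp [hxw, h2]
      · have h2 : g x ≠ none := by
          intro h3
          rcases (hT.out x).1 h3 with h4 | h4
          · exact hxw h4
          · exact hxu h4
        simp [hxw, hxu, h2]
  simp only [key]
  rw [Finset.sum_add_distrib, Finset.sum_ite_eq' Finset.univ w, Finset.sum_ite_eq' Finset.univ u]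
  simp

open Classical in
theorem cw_omv (hT : Ty2 G g w u v i) (z : V → ℝ) (t : Fin r) (ht : t ≠ i) :
    cw (fun y => omv G g z y) g (some t) = (nbn G g w t : ℝ) * z w + z u := by
  unfold cw
  have key : ∀ y, (if g y = some t then omv G g z y else 0) =
      (if g y = some t ∧ G.Adj w y then z w else 0) + (if y = v t then z u else 0) := by
    intro y
    by_cases hy : g y = some t
    · rw [if_pos hy, omv_eq hT]
      congr 1
      · by_cases h1 : G.Adj w y
        · rw [if_pos h1.symm, if_pos ⟨hy, h1⟩]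
        · rw [if_neg (fun h => h1 h.symm), if_neg (fun h => h1 h.2)]
      · have h2 : G.Adj y u ↔ y = v t := by
          rw [G.adj_comm, hT.un y (by rw [hy]; simp)]
          constructor
          · rintro ⟨s, hs, rfl⟩
            have h3 := hT.hv s hs
            rw [hy] at h3
            rw [Option.some.inj h3]
          · intro h3
            exact ⟨t, ht, h3⟩
        by_cases h3 : y = v t
        · rw [if_pos (h2.2 h3), if_pos h3]
        · rw [if_neg (fun h => h3 (h2.1 h)), if_neg h3]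
    · rw [if_neg hy, if_neg (fun h => hy h.1), if_neg, add_zero]
      intro h3
      exact hy (by rw [h3]; exact hT.hv t ht)
  simp only [key]
  rw [Finset.sum_add_distrib, sum_ite_ncard (fun x => g x = some t ∧ G.Adj w x),
    Finset.sum_ite_eq' Finset.univ (v t)]
  simp [nbn]

theorem cw_muv (hT : Ty2 G g w u v i) (z : V → ℝ) (t : Fin r) :
    cw (fun y => muv G g z y) g (some t) = 0 := by
  unfold cw
  apply Finset.sum_eq_zero
  intro y _
  simp [muv_zero hT]

/-- the membership part, moving an edge at `w` -/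
theorem mem {m : ℕ} {k l : Fin r} {y y' : V} (hMEM : MEM2_statement) (hr : 3 ≤ r)
    (hM : MxK r m G) (hT : Th2 G g w u v i) (hs : ∀ t, 1 ≤ siz g t) (hki : k ≠ i) (hli : l ≠ i)
    (hy : g y = some k) (hwy : G.Adj w y) (hk2 : 2 ≤ nbn G g w k)
    (hy' : g y' = some l) (hwy' : ¬ G.Adj w y') (hyl : y' ≠ v l) (h : w ≠ y') :
    lam (EVF2.mv G w y y' h) ≤ lam G := by
  have hwyne : w ≠ y := G.ne_of_adj hwy
  have hTy := EVF2.mv_ty2 hT.ty hy hy' h
  have hn := EVF2.mv_nbn hy hy' hwy hwy' h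
  have hTh : Th2 (EVF2.mv G w y y' h) g w u v i := by
    refine ⟨hTy, ?_, ?_, ?_⟩
    · have := hn i
      rw [if_neg (Ne.symm hki), if_neg (Ne.symm hli), hT.ni] at this
      simpa using this
    · intro t ht
      have h1 := hn t
      have h2 := hT.pos t ht
      by_cases htk : t = k
      · rw [htk] at h1 h2 ⊢
        simp only [if_true] at h1
        split_ifs at h1 <;> omega
      · rw [if_neg htk] at h1
        split_ifs at h1 <;> omega
    · obtain ⟨t0, ht0, hex⟩ := hT.exc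
      refine ⟨t0, ht0, ?_⟩
      rw [EVF2.mv_adj_w hwyne]
      rintro (h1 | h1)
      · exact hex h1.1
      · have h2 := hT.ty.hv t0 ht0
        rw [h1, hy'] at h2
        have h3 : l = t0 := Option.some.inj h2
        apply hyl
        rw [← h1, h3]
  obtain ⟨a1, a2, a3, a4⟩ := hMEM r V (EVF2.mv G w y y' h) g w u v i hr hTh hs
  obtain ⟨-, -, -, b4⟩ := hMEM r V G g w u v i hr hT hs
  have hsum : ∑ t, nbn (EVF2.mv G w y y' h) g w t = ∑ t, nbn G g w t := by
    have h1 : ∑ t, (nbn (EVF2.mv G w y y' h) g w t + (if t = k then 1 else 0)) =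
        ∑ t, (nbn G g w t + (if t = l then 1 else 0)) := Finset.sum_congr rfl fun t _ => hn t
    rw [Finset.sum_add_distrib, Finset.sum_add_distrib, Finset.sum_ite_eq' Finset.univ k,
      Finset.sum_ite_eq' Finset.univ l] at h1
    simpa using h1
  have hcard : (EVF2.mv G w y y' h).edgeSet.ncard = G.edgeSet.ncard := by
    rw [hsum] at a4
    omega
  apply hM.2
  exact ⟨a1, by rw [hcard]; exact hM.1.size, a3, a2⟩

theorem mv_iff {w y y' : V} (h : w ≠ y') (a b : V) : (EVF2.mv G w y y' h).Adj a b ↔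
    (G.Adj a b ∧ s(a, b) ≠ s(w, y)) ∨ s(a, b) = s(w, y') := by
  have e1 : ∀ c, s(a, b) = s(w, c) ↔ (a = w ∧ b = c) ∨ (a = c ∧ b = w) := fun c => Sym2.eq_iff
  show ((G.Adj a b ∧ ¬ (a = w ∧ b = y) ∧ ¬ (a = y ∧ b = w)) ∨ (a = w ∧ b = y') ∨
    (a = y' ∧ b = w)) ↔ _
  rw [ne_eq, e1, e1]
  tauto

/-- the membership part, moving an edge at `u` -/
theorem mem' {m : ℕ} {t1 t2 : Fin r} {y' : V} (hMEM : MEM2_statement) (hr : 3 ≤ r)
    (hM : MxK r m G) (hTh : Th2 G g w u v i) (hs : ∀ t, 1 ≤ siz g t)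
    (ht1 : t1 ≠ i) (ht2 : t2 ≠ i) (h12 : t1 ≠ t2) (hw1 : ¬ G.Adj w (v t1))
    (hy' : g y' = some t2) (hne : u ≠ y') :
    lam (ItemEXC2.mv G u (v t2) y' hne) ≤ lam G := by
  have hT := hTh.ty
  have hTh' := ItemEXC2.th2_mv hTh t1 t2 ht1 ht2 h12 hw1 y' hy' hne
  obtain ⟨_, _, _, c4⟩ := hMEM r V G g w u v i hr hTh hs
  obtain ⟨d1, d2, d3, d4⟩ := hMEM r V (ItemEXC2.mv G u (v t2) y' hne) g w u _ i hr hTh' hs
  have hsm : ∑ t, nbn (ItemEXC2.mv G u (v t2) y' hne) g w t = ∑ t, nbn G g w t :=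
    Finset.sum_congr rfl fun t _ => ItemEXC2.nbn_mv hT _ _ hne t
  rw [hsm] at d4
  have hcard : (ItemEXC2.mv G u (v t2) y' hne).edgeSet.ncard = G.edgeSet.ncard := by omega
  apply hM.2
  exact ⟨d1, by rw [hcard]; exact hM.1.size, d3, d2⟩

theorem siz_dev {n : ℕ} {C : ℝ} (hC : 0 ≤ C) (hN : NK n C G g) (t : Fin r) :
    |(siz g t : ℝ) - n / r| ≤ Real.sqrt C * Real.sqrt n := by
  have h1 : dev (siz g) ≤ C * n := hN.dev
  unfold dev at h1
  have h2 : (∑ s, (siz g s : ℝ)) = n := by exact_mod_cast hN.tot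
  rw [h2] at h1
  have h3 : ((siz g t : ℝ) - n / r) ^ 2 ≤ ∑ t, ((siz g t : ℝ) - n / r) ^ 2 :=
    Finset.single_le_sum (f := fun t => ((siz g t : ℝ) - n / r) ^ 2)
      (fun _ _ => sq_nonneg _) (Finset.mem_univ t)
  rw [← Real.sqrt_mul hC]
  exact Real.abs_le_sqrt (h3.trans h1)

end ItemREV

theorem prfREV : P_statement → FLU_statement → TCL_statement → MVE_statement →
    MEM2_statement → REV_statement := by
  intro _ hFLU hTCL hMVE hMEM r C hr hC
  obtain ⟨C1, n1, hC1, hF⟩ := hFLU r C hr hC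
  obtain ⟨C2, n2, hC2, hTC⟩ := hTCL r C hr hC
  have hr3 : (3 : ℝ) ≤ r := by exact_mod_cast hr
  have hrpos : (0 : ℝ) < r := by linarith
  set K : ℝ := 6 * r * (Real.sqrt C + C + C1 + C2 + 4) with hK
  obtain ⟨n3, hn3⟩ := exists_nat_ge (K ^ 2)
  refine ⟨max (max n1 n2) n3, ?_⟩
  intro V _ G g w u v i n m hn hM hN hTh
  have hn1 : n1 ≤ n := le_trans (le_trans (le_max_left _ _) (le_max_left _ _)) hn
  have hn2 : n2 ≤ n := le_trans (le_trans (le_max_right _ _) (le_max_left _ _)) hn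
  have hn3' : n3 ≤ n := le_trans (le_max_right _ _) hn
  have hT := hTh.ty
  have hsC := Real.sqrt_nonneg C
  have hKpos : 0 < K := by positivity
  have hgw : g w = none := (hT.out w).2 (Or.inl rfl)
  have hgu : g u = none := (hT.out u).2 (Or.inr rfl)
  -- the numbers
  set x : ℝ := Real.sqrt n with hx
  have hxK : K ≤ x := by
    rw [hx]
    apply Real.le_sqrt_of_sq_le
    refine hn3.trans ?_
    exact_mod_cast hn3'
  have hxn : x * x = n := Real.mul_self_sqrt (Nat.cast_nonneg n)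
  have hS : 18 * (Real.sqrt C + C + C1 + C2 + 4) ≤ x := by
    refine le_trans ?_ hxK
    rw [hK]
    have : 0 ≤ Real.sqrt C + C + C1 + C2 + 4 := by positivity
    nlinarith
  have hxpos : 0 < x := by linarith
  have hx1 : 1 ≤ x := by linarith
  have hnpos : (0 : ℝ) < n := by rw [← hxn]; positivity
  have hh : Real.sqrt x ≤ x := by
    rw [Real.sqrt_le_left (by linarith)]
    nlinarith
  have hh0 : 0 ≤ Real.sqrt x := Real.sqrt_nonneg x
  -- sizes
  have hsd := ItemREV.siz_dev hC hN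
  have hrx : r * (6 * (Real.sqrt C + C + C1 + C2 + 4)) ≤ x := by
    have : r * (6 * (Real.sqrt C + C + C1 + C2 + 4)) = K := by rw [hK]; ring
    rw [this]; exact hxK
  have hnr : 6 * (Real.sqrt C + C + C1 + C2 + 4) * x ≤ n / r := by
    rw [le_div_iff₀ hrpos, ← hxn]
    nlinarith
  have hnr3 : (n : ℝ) / r ≤ n / 3 := div_le_div_of_nonneg_left hnpos.le (by norm_num) hr3
  have hsl : ∀ t, (C * x + 3 : ℝ) ≤ siz g t := by
    intro t
    have h1 := (abs_le.1 (hsd t)).1
    rw [← hx] at h1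
    nlinarith
  have hsu : ∀ t, (siz g t : ℝ) ≤ n / 3 + Real.sqrt C * x := by
    intro t
    have h1 := (abs_le.1 (hsd t)).2
    rw [← hx] at h1
    linarith
  have hs1 : ∀ t, 1 ≤ siz g t := by
    intro t
    have h1 := hsl t
    have h2 : (1 : ℝ) ≤ siz g t := by
      have : 0 ≤ C * x := by positivity
      linarith
    exact_mod_cast h2
  have hout : ((outSet G g).ncard : ℝ) ≤ C * x := by
    have h1 := hN.few
    rw [← hx] at h1
    have h2 : (0 : ℝ) ≤ (missSet G g).ncard := Nat.cast_nonneg _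
    have h3 : C * Real.sqrt x ≤ C * x := by gcongr
    linarith
  have hroom : ∀ t, nbn G g w t + 2 ≤ siz g t := by
    intro t
    have h1 : (nbn G g w t : ℝ) ≤ (outSet G g).ncard := by
      exact_mod_cast ItemREV.nbn_le_out hgw t
    have h2 := hsl t
    have h3 : ((nbn G g w t + 2 : ℕ) : ℝ) ≤ siz g t := by push_cast; linarith
    exact_mod_cast h3
  -- the vector
  obtain ⟨⟨z, hz⟩, hzall⟩ := hF V G g n hn1 hN
  obtain ⟨hz1, hz2, hlam, -⟩ := hzall z hz
  rw [← hx] at hz2 hlam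
  have hq : 2 / 3 ≤ qq r := by
    unfold qq
    have : 1 / (r : ℝ) ≤ 1 / 3 := one_div_le_one_div_of_le (by norm_num) hr3
    linarith
  have hlam1 : 2 / 3 * n - C1 * x ≤ lam G := by
    have h1 := (abs_le.1 hlam).1
    have h2 : C1 * Real.sqrt x ≤ C1 * x := by gcongr
    have h3 : 2 / 3 * (n : ℝ) ≤ qq r * n := by gcongr
    linarith
  have hlam2 : (n : ℝ) / 3 + Real.sqrt C * x < lam G := by
    have h1 : 3 * (C1 + Real.sqrt C + 1) * x ≤ n := by
      rw [← hxn]
      nlinarith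
    nlinarith
  have hlpos : 0 < lam G := by
    have : 0 ≤ Real.sqrt C * x := by positivity
    linarith
  have hsl2 : ∀ t, (siz g t : ℝ) < lam G := fun t => lt_of_le_of_lt (hsu t) hlam2
  have hzc : ∀ y, g y ≠ none → 0 < z y := by
    intro y hy
    have h1 := (abs_le.1 (hz1 y hy)).1
    have h2 : C1 / x < 1 := by
      rw [div_lt_one hxpos]
      linarith
    rw [← hx] at h1
    linarith
  obtain ⟨t1, ht1, hw1⟩ := hTh.exc
  -- weights of the light vertices
  have hzw : 0 < z w := by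
    have h1 := hTh.pos t1 ht1
    unfold nbn at h1
    obtain ⟨y, hy1, hy2⟩ := (Set.ncard_pos (Set.toFinite _)).1 h1
    have h2 := hz.eig w
    have h3 : adj G w y * z y ≤ ∑ a, adj G w a * z a := by
      refine Finset.single_le_sum (f := fun a => adj G w a * z a) (fun a _ => ?_)
        (Finset.mem_univ y)
      have := hz.nonneg a
      unfold adj
      split_ifs <;> simp [this]
    rw [h2] at h3
    have h4 : adj G w y = 1 := by unfold adj; rw [if_pos hy2]
    rw [h4, one_mul] at h3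
    have h5 := hzc y (by rw [hy1]; simp)
    by_contra h6
    push Not at h6
    nlinarith
  have hzu : 0 < z u := by
    have h2 := hz.eig u
    have h3 : adj G u (v t1) * z (v t1) ≤ ∑ a, adj G u a * z a := by
      refine Finset.single_le_sum (f := fun a => adj G u a * z a) (fun a _ => ?_)
        (Finset.mem_univ (v t1))
      have := hz.nonneg a
      unfold adj
      split_ifs <;> simp [this]
    rw [h2] at h3
    have h4 : adj G u (v t1) = 1 := by
      unfold adj
      rw [if_pos ((hT.un _ (by rw [hT.hv t1 ht1]; simp)).2 ⟨t1, ht1, rfl⟩)]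
    rw [h4, one_mul] at h3
    have h5 := hzc (v t1) (by rw [hT.hv t1 ht1]; simp)
    by_contra h6
    push Not at h6
    nlinarith
  obtain ⟨hT1, hT2, hT3⟩ := hTC V G z g n hn2 hN hz
  simp only [ItemREV.muv_zero hT, ItemREV.omv_eq hT, sub_zero] at hT1
  have hun : ∀ y t, g y = some t → t ≠ i → (G.Adj y u ↔ y = v t) := by
    intro y t hy ht
    rw [G.adj_comm, hT.un y (by rw [hy]; simp)]
    constructor
    · rintro ⟨s, hs, rfl⟩
      have h3 := hT.hv s hs
      rw [hy] at h3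
      rw [Option.some.inj h3]
    · intro h3
      exact ⟨t, ht, h3⟩
  have hT2' : ∀ t, t ≠ i → (lam G + siz g t) * tv g z n t =
      lam G * n - (nbn G g w t * z w + z u) := by
    intro t ht
    rw [hT2 t, ItemREV.cw_muv hT, ItemREV.cw_omv hT z t ht]
    ring
  refine ⟨⟨t1, ⟨ht1, hw1⟩, ?_⟩, ?_⟩
  · rintro t2 ⟨ht2, hw2⟩
    by_contra hne21
    have h12 : t1 ≠ t2 := fun h => hne21 h.symm
    obtain ⟨y', hy', hwy'⟩ : ∃ y', g y' = some t2 ∧ G.Adj w y' := by
      have h1 := hTh.pos t2 ht2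
      unfold nbn at h1
      obtain ⟨y', hy'⟩ := (Set.ncard_pos (Set.toFinite _)).1 h1
      exact ⟨y', hy'.1, hy'.2⟩
    have hne : u ≠ y' := fun h => by rw [← h, hgu] at hy'; exact absurd hy' (by simp)
    have hy'v : y' ≠ v t2 := fun h => hw2 (by rw [← h]; exact hwy')
    have huy' : ¬ G.Adj y' u := fun h => hy'v ((hun y' t2 hy' ht2).1 h)
    have huy : G.Adj u (v t2) := (hT.un _ (by rw [hT.hv t2 ht2]; simp)).2 ⟨t2, ht2, rfl⟩
    have hle := ItemREV.mem' hMEM hr hM hTh hs1 ht1 ht2 h12 hw1 hy' hne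
    have e1 := hT1 y' t2 hy'
    have e2 := hT1 (v t2) t2 (hT.hv t2 ht2)
    rw [if_pos hwy'.symm, if_neg huy'] at e1
    rw [if_neg (fun h => hw2 h.symm), if_pos huy.symm] at e2
    have hadj : adj G (v t2) y' = 0 := by
      unfold adj
      rw [if_neg]
      intro h
      rw [hT.core _ _ (by rw [hT.hv t2 ht2]; simp) (by rw [hy']; simp), hT.hv t2 ht2, hy'] at h
      exact h rfl
    have hlt := hMVE V G (ItemEXC2.mv G u (v t2) y' hne) z u (v t2) y' hz.nonneg hz.eig hlpos hzu
      hne huy (fun h => huy' h.symm) (fun a b => ItemEXC2.mv_adj _ _ hne a b) (by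
        rw [hadj, mul_zero]
        have : lam G * (z y' - z (v t2)) + z u = z w := by
          rw [mul_sub, e1, e2]; ring
        rw [this]
        exact hzw)
    exact absurd hlt (not_lt.2 hle)
  · -- the basic move
    have basic : ∀ k l, k ≠ i → l ≠ i → k ≠ l → 2 ≤ nbn G g w k →
        z w / lam G < tv g z n l - tv g z n k → False := by
      intro k l hki hli hkl hk2 hlt0
      obtain ⟨y, hy, hwy, hyk⟩ := EVF2.ex_nbr (v k) hk2
      obtain ⟨y', hy', hwy', hyl⟩ := EVF2.ex_non (G := G) (f := g) (w := w) (l := l) (v l)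
        (hroom l)
      have hne : w ≠ y' := fun h => by rw [← h, hgw] at hy'; exact absurd hy' (by simp)
      have hle := ItemREV.mem hMEM hr hM hTh hs1 hki hli hy hwy hk2 hy' hwy' hyl hne
      have e1 := hT1 y k hy
      have e2 := hT1 y' l hy'
      rw [if_pos hwy.symm, if_neg (fun h => hyk ((hun y k hy hki).1 h))] at e1
      rw [if_neg (fun h => hwy' h.symm), if_neg (fun h => hyl ((hun y' l hy' hli).1 h))] at e2
      have hadj : adj G y y' = 1 := by
        unfold adj
        rw [if_pos]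
        rw [hT.core _ _ (by rw [hy]; simp) (by rw [hy']; simp), hy, hy']
        intro h
        exact hkl (Option.some.inj h)
      have hlt := hMVE V G (EVF2.mv G w y y' hne) z w y y' hz.nonneg hz.eig hlpos hzw
        hne hwy hwy' (fun a b => ItemREV.mv_iff hne a b) (by
          rw [hadj, mul_one]
          have : lam G * (z y' - z y) + z w = tv g z n l - tv g z n k := by
            rw [mul_sub, e1, e2]; ring
          rw [this]
          exact hlt0)
      exact absurd hlt (not_lt.2 hle)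
    intro s t hsi hti
    constructor
    · intro hst
      by_contra hc
      push Not at hc
      have hst' : s ≠ t := by
        intro h; rw [h] at hc; omega
      refine basic s t hsi hti hst' (by omega) ?_
      have e1 := hT2' s hsi
      have e2 := hT2' t hti
      rw [hst] at e1
      have hsz := hsl2 t
      have hsz0 : (0 : ℝ) ≤ siz g t := Nat.cast_nonneg _
      have e3 : (lam G + siz g t) * (tv g z n t - tv g z n s) =
          ((nbn G g w s : ℝ) - nbn G g w t) * z w := by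
        rw [mul_sub, e1, e2]; ring
      have e4 : (2 : ℝ) ≤ (nbn G g w s : ℝ) - nbn G g w t := by
        have : ((nbn G g w t + 2 : ℕ) : ℝ) ≤ nbn G g w s := by exact_mod_cast (by omega)
        push_cast at this
        linarith
      rw [div_lt_iff₀ hlpos]
      have e5 : 2 * z w ≤ (lam G + siz g t) * (tv g z n t - tv g z n s) := by
        rw [e3]
        gcongr
      have e6 : 0 < tv g z n t - tv g z n s := by
        by_contra h
        push Not at h
        nlinarith
      nlinarith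
    · intro hst
      by_contra hc
      have hst' : s ≠ t := by
        intro h; rw [h] at hst; omega
      have hp := hTh.pos s hsi
      refine basic s t hsi hti hst' (by omega) ?_
      have e1 := hT3 t s hst.le
      rw [ItemREV.missSet_empty hT, Set.ncard_empty] at e1
      have e2 : (1 : ℝ) ≤ (siz g s : ℝ) - siz g t := by
        have : ((siz g t + 1 : ℕ) : ℝ) ≤ siz g s := by exact_mod_cast hst
        push_cast at this
        linarith
      have e3 : C2 * (((0 : ℕ) : ℝ) + 1) / n ≤ 1 / 18 := by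
        rw [Nat.cast_zero, zero_add, mul_one, div_le_iff₀ hnpos, ← hxn]
        nlinarith
      have e4 : z w / lam G ≤ 1 / 18 := by
        rw [div_le_iff₀ hlpos]
        have h1 := hz2 w hgw
        have h2 : C1 * Real.sqrt x / n ≤ C1 * x / n := by gcongr
        have h3 : C1 * x / n ≤ 1 / 18 := by
          rw [div_le_iff₀ hnpos, ← hxn]
          nlinarith
        have h4 : 1 ≤ lam G := by
          have h5 : (3 : ℝ) ≤ n := by
            rw [← hxn]
            nlinarith
          have : 0 ≤ Real.sqrt C * x := by positivity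
          linarith
        nlinarith
      linarith

end MP0c3a8f

end

section

/-!
# MP_0c3a8f_co: all items of the part PB7 together
-/

namespace MP0c3a8f

theorem bBDU : BDU_statement := prfBDU prfP bSEC
theorem bFIND : FIND_statement :=
  prfFIND prfP prfDEV prfCNTU prfTURN bFINB bBDU bUPL bLOL

end MP0c3a8f

end
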