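import Pool.Agent.Work.MP_0c3a8f_co.PB.Stmts8
import Pool.Agent.Work.MP_0c3a8f_co.Bd.B16
import Pool.Agent.Work.MP_0c3a8f_co.PB.ItemSWS
import Pool.Agent.Work.MP_0c3a8f_co.Bd.B08
import Pool.Agent.Work.MP_0c3a8f_co.PB.Stmts10
import Pool.Agent.Work.MP_0c3a8f_co.Bd.B12

/-! Bundle of small proof modules (one section per former module). -/

section

/-!
# MP_0c3a8f_co, phase PB8: item RII
-/

open Finset

namespace MP0c3a8f

namespace ItemRII

variable {V : Type} [Fintype V] {r : ℕ}

theorem nbn_zero {G : SimpleGraph V} {f : V → Option (Fin r)} {w : V} {i : Fin r}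
    (h : nbn G f w i = 0) (y : V) (hy : f y = some i) : ¬ G.Adj w y := by
  intro ha
  unfold nbn at h
  rw [Set.ncard_eq_zero (Set.toFinite _)] at h
  exact (Set.eq_empty_iff_forall_notMem.1 h y) ⟨hy, ha⟩

theorem nbn_pos {G : SimpleGraph V} {f : V → Option (Fin r)} {w : V} {t : Fin r}
    (h : 1 ≤ nbn G f w t) : ∃ y, f y = some t ∧ G.Adj w y := by
  unfold nbn at h
  have h1 : {v | f v = some t ∧ G.Adj w v}.Nonempty := by
    rw [← Set.ncard_pos (Set.toFinite _)]; omega
  obtain ⟨y, hy⟩ := h1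
  exact ⟨y, hy.1, hy.2⟩

open Classical in
theorem nbn_card (G : SimpleGraph V) (f : V → Option (Fin r)) (w : V) (t : Fin r) :
    nbn G f w t = (univ.filter fun x => f x = some t ∧ G.Adj w x).card := by
  unfold nbn
  rw [Set.ncard_eq_toFinset_card']
  congr 1
  ext v
  simp

open Classical in
theorem siz_card (f : V → Option (Fin r)) (t : Fin r) :
    siz f t = (univ.filter fun x => f x = some t).card := by
  unfold siz
  rw [Set.ncard_eq_toFinset_card']
  congr 1
  ext v
  simp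

open Classical in
theorem sum_nbn (G : SimpleGraph V) (f : V → Option (Fin r)) (w : V) :
    ∑ t, nbn G f w t = (univ.filter fun x => f x ≠ none ∧ G.Adj w x).card := by
  rw [Finset.sum_congr rfl fun t _ => nbn_card G f w t]
  simp only [Finset.card_filter]
  rw [Finset.sum_comm]
  refine Finset.sum_congr rfl fun v _ => ?_
  cases h : f v with
  | none => simp
  | some s =>
    by_cases hw : G.Adj w v
    · simp [hw]
    · simp [hw]

theorem nbn_le_out (G : SimpleGraph V) (g : V → Option (Fin r)) (w : V) (t : Fin r)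
    (hw : g w = none) : nbn G g w t ≤ (outSet G g).ncard := by
  unfold nbn
  refine Set.ncard_le_ncard_of_injOn (fun x => s(w, x)) ?_ ?_ (Set.toFinite _)
  · intro x hx
    exact ⟨(SimpleGraph.mem_edgeSet G).2 hx.2, w, Sym2.mem_mk_left w x, hw⟩
  · intro x _ y _ hxy
    exact Sym2.congr_right.1 hxy

theorem miss_zero {G : SimpleGraph V} {g : V → Option (Fin r)} {w u : V} {v : Fin r → V}
    {k : Fin r} (h : Ty2 G g w u v k) : (missSet G g).ncard = 0 := by
  rw [Set.ncard_eq_zero (Set.toFinite _)]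
  refine Set.eq_empty_iff_forall_notMem.2 fun e he => ?_
  obtain ⟨x, y, -, h1, h2, h3, h4⟩ := he
  exact h4 ((h.core x y h1 h2).2 h3)

/-- the comparison graph -/
theorem comb (hRMB : RMB_statement) (hMEM : MEM2_statement) (hr : 3 ≤ r) {m : ℕ}
    {G : SimpleGraph V} {g : V → Option (Fin r)} {w u : V} {v : Fin r → V} {i k : Fin r}
    (hM : MxK r m G) (hT : Th2 G g w u v k) (hki : k ≠ i) (hs : ∀ t, 1 ≤ siz g t)
    (hroom : nbn G g w i + 1 ≤ siz g k) :
    ∃ (H : SimpleGraph V) (A : Finset V) (v' : V), (∀ x ∈ A, g x = some k) ∧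
      A.card = nbn G g w i ∧ g v' = some k ∧ Indep H g ∧ (missSet H g).ncard = 0 ∧ H.Adj w u ∧
      (∀ x y, g x = none → x ≠ w → x ≠ u → ¬ H.Adj x y) ∧ lam H ≤ lam G ∧
      (∀ x, g x ≠ none → (H.Adj w x ↔ (G.Adj w x ∧ g x ≠ some i) ∨ x ∈ A)) ∧
      ∀ x, g x ≠ none → (H.Adj u x ↔ (G.Adj u x ∧ x ≠ v i) ∨ x = v') := by
  classical
  have hw : g w = none := (hT.ty.out w).2 (Or.inl rfl)
  have hu : g u = none := (hT.ty.out u).2 (Or.inr rfl)
  have hik : i ≠ k := hki.symm
  set K : Finset V := univ.filter fun x => g x = some k with hK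
  have hKc : K.card = siz g k := (siz_card g k).symm
  have hmemK : ∀ x, x ∈ K ↔ g x = some k := fun x => by simp [hK]
  obtain ⟨A, hAK, hAc⟩ := Finset.exists_subset_card_eq (s := K) (n := nbn G g w i)
    (by rw [hKc]; omega)
  have hd : 1 ≤ nbn G g w i := hT.pos i hik
  have hex : ∃ v', g v' = some k ∧ (v' ∈ A ↔ G.Adj w (v i)) := by
    by_cases hwv : G.Adj w (v i)
    · have hne : A.Nonempty := by
        rw [← Finset.card_pos, hAc]; omega
      obtain ⟨y, hy⟩ := hne
      exact ⟨y, (hmemK y).1 (hAK hy), iff_of_true hy hwv⟩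
    · have hne : (K \ A).Nonempty := by
        rw [← Finset.card_pos, Finset.card_sdiff_of_subset hAK, hAc, hKc]; omega
      obtain ⟨y, hy⟩ := hne
      rw [Finset.mem_sdiff] at hy
      exact ⟨y, (hmemK y).1 hy.1, iff_of_false hy.2 hwv⟩
  obtain ⟨v', hv'k, hv'A⟩ := hex
  set N0 : Finset V := univ.filter fun x => g x ≠ none ∧ g x ≠ some i ∧ G.Adj w x with hN0
  have hmemN0 : ∀ x, x ∈ N0 ↔ g x ≠ none ∧ g x ≠ some i ∧ G.Adj w x := fun x => by simp [hN0]
  have hnk : ∀ x, g x = some k → ¬ G.Adj w x := fun x hx => nbn_zero hT.ni x hx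
  have hdisj : Disjoint N0 A := by
    rw [Finset.disjoint_left]
    intro x hx hxA
    exact hnk x ((hmemK x).1 (hAK hxA)) ((hmemN0 x).1 hx).2.2
  have hcard : (N0 ∪ A).card = ∑ t, nbn G g w t := by
    rw [Finset.card_union_of_disjoint hdisj, hAc, sum_nbn, nbn_card G g w i]
    rw [← Finset.card_union_of_disjoint]
    · congr 1
      ext x
      simp only [hN0, Finset.mem_union, Finset.mem_filter, Finset.mem_univ, true_and]
      constructor
      · rintro (h | h)
        · exact ⟨h.1, h.2.2⟩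
        · exact ⟨by rw [h.1]; simp, h.2⟩
      · intro h
        by_cases h1 : g x = some i
        · exact Or.inr ⟨h1, h.2⟩
        · exact Or.inl ⟨h.1, h1, h.2⟩
    · rw [Finset.disjoint_left]
      intro x hx hx2
      exact ((hmemN0 x).1 hx).2.1 (Finset.mem_filter.1 hx2).2.1
  have hmem := hMEM r V G g w u v k hr hT hs
  have hsize : G.edgeSet.ncard = m := hM.1.size
  obtain ⟨H, h1, h2, h3, h4, h5, h6, h7⟩ := hRMB r m V G g w u
    (fun t => if t = k then v' else v t) i (N0 ∪ A) hr hM hw hu hT.ty.ne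
    (by
      intro x hx
      rcases Finset.mem_union.1 hx with h | h
      · exact ⟨((hmemN0 x).1 h).1, ((hmemN0 x).1 h).2.1⟩
      · have := (hmemK x).1 (hAK h)
        rw [this]
        exact ⟨by simp, by simpa using hki⟩)
    (by
      intro t ht
      by_cases htk : t = k
      · have hne : A.Nonempty := by
          rw [← Finset.card_pos, hAc]; omega
        obtain ⟨y, hy⟩ := hne
        exact ⟨y, Finset.mem_union_right _ hy, by rw [htk]; exact (hmemK y).1 (hAK hy)⟩
      · obtain ⟨y, hy1, hy2⟩ := nbn_pos (hT.pos t htk)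
        refine ⟨y, Finset.mem_union_left _ ((hmemN0 y).2 ⟨by rw [hy1]; simp, ?_, hy2⟩), hy1⟩
        rw [hy1]
        simpa using ht)
    (by
      intro t ht
      by_cases htk : t = k
      · simp only [htk, if_true]; exact hv'k
      · simp only [htk, if_false]; exact hT.ty.hv t htk)
    (by
      obtain ⟨t0, ht0, hna⟩ := hT.exc
      by_cases h0 : t0 = i
      · refine ⟨k, hki, ?_⟩
        simp only [if_true]
        rw [h0] at hna
        intro hc
        rcases Finset.mem_union.1 hc with h | h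
        · exact hnk v' hv'k ((hmemN0 v').1 h).2.2
        · exact hna (hv'A.1 h)
      · refine ⟨t0, h0, ?_⟩
        simp only [ht0, if_false]
        intro hc
        rcases Finset.mem_union.1 hc with h | h
        · exact hna ((hmemN0 _).1 h).2.2
        · have := (hmemK _).1 (hAK h)
          rw [hT.ty.hv t0 ht0] at this
          exact ht0 (Option.some_injective _ this))
    hs
    (by
      rw [hcard, ← hsize]
      exact hmem.2.2.2)
  refine ⟨H, A, v', fun x hx => (hmemK x).1 (hAK hx), hAc, hv'k, h1, h2, h3, h4, h7, ?_, ?_⟩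
  · intro x hx
    rw [h5 x hx, Finset.mem_union, hmemN0]
    constructor
    · rintro (h | h)
      · exact Or.inl ⟨h.2.2, h.2.1⟩
      · exact Or.inr h
    · rintro (h | h)
      · exact Or.inl ⟨hx, h.2, h.1⟩
      · exact Or.inr h
  · intro x hx
    rw [h6 x hx, hT.ty.un x hx]
    constructor
    · rintro ⟨t, ht, rfl⟩
      by_cases htk : t = k
      · right; simp [htk]
      · left
        simp only [htk, if_false]
        refine ⟨⟨t, htk, rfl⟩, ?_⟩
        intro hc
        have h8 := hT.ty.hv t htk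
        rw [hc, hT.ty.hv i hik] at h8
        exact ht (Option.some_injective _ h8).symm
    · rintro (⟨⟨t, htk, rfl⟩, hne⟩ | rfl)
      · refine ⟨t, ?_, by simp [htk]⟩
        rintro rfl
        exact hne rfl
      · exact ⟨k, hki, by simp⟩

/-- the eigenvalue equation -/
theorem eig_split {G : SimpleGraph V} {g : V → Option (Fin r)} {z : V → ℝ} {n : ℕ}
    (hP : Per G z g n) (x : V) : lam G * z x = cov G g z x + omv G g z x := by
  classical
  rw [← hP.eig x]
  unfold cov omv
  rw [← Finset.sum_add_distrib]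
  refine Finset.sum_congr rfl fun y _ => ?_
  unfold adj
  by_cases h1 : g y = none <;> by_cases h2 : G.Adj x y <;> simp [h1, h2]

theorem cov_w {G H : SimpleGraph V} {g : V → Option (Fin r)} {w : V} {i k : Fin r}
    {A : Finset V} (z : V → ℝ) (hA : ∀ x ∈ A, g x = some k)
    (hnk : ∀ x, g x = some k → ¬ G.Adj w x)
    (hH : ∀ x, g x ≠ none → (H.Adj w x ↔ (G.Adj w x ∧ g x ≠ some i) ∨ x ∈ A)) :
    cov H g z w = cov G g z w + ∑ x ∈ A, z x
      - ∑ x ∈ (by classical exact univ.filter fun x => g x = some i ∧ G.Adj w x), z x := by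
  classical
  have h1 : ∑ x ∈ A, z x = ∑ x, if x ∈ A then z x else 0 := by
    rw [Finset.sum_ite_mem, Finset.univ_inter]
  rw [h1, Finset.sum_filter]
  unfold cov
  rw [← Finset.sum_add_distrib, ← Finset.sum_sub_distrib]
  refine Finset.sum_congr rfl fun x _ => ?_
  by_cases hx : g x = none
  · have hxA : x ∉ A := fun h => by rw [hA x h] at hx; exact absurd hx (by simp)
    simp [hx, hxA]
  · have h2 := hH x hx
    by_cases hxA : x ∈ A
    · have h3 := hA x hxA
      have h4 := hnk x h3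
      have h5 : H.Adj w x := h2.2 (Or.inr hxA)
      simp [hxA, h3, h4, h5]
    · by_cases h6 : G.Adj w x
      · by_cases h7 : g x = some i
        · have h8 : ¬ H.Adj w x := by
            rw [h2]; rintro (h | h)
            · exact h.2 h7
            · exact hxA h
          simp [hxA, h6, h7, h8]
        · have h8 : H.Adj w x := h2.2 (Or.inl ⟨h6, h7⟩)
          simp [hxA, h6, h7, h8, hx]
      · have h8 : ¬ H.Adj w x := by
          rw [h2]; rintro (h | h)
          · exact h6 h.1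
          · exact hxA h
        simp [hxA, h6, h8]

theorem cov_u {G H : SimpleGraph V} {g : V → Option (Fin r)} {u a b : V}
    (z : V → ℝ) (ha : g a ≠ none) (hb : g b ≠ none) (hab : a ≠ b) (hGa : G.Adj u a)
    (hGb : ¬ G.Adj u b)
    (hH : ∀ x, g x ≠ none → (H.Adj u x ↔ (G.Adj u x ∧ x ≠ a) ∨ x = b)) :
    cov H g z u = cov G g z u + z b - z a := by
  classical
  have h1 : z b = ∑ x, if x = b then z x else 0 := by simp
  have h2 : z a = ∑ x, if x = a then z x else 0 := by simp
  rw [h1, h2]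
  unfold cov
  rw [← Finset.sum_add_distrib, ← Finset.sum_sub_distrib]
  refine Finset.sum_congr rfl fun x _ => ?_
  by_cases hx : g x = none
  · have hxa : x ≠ a := fun h => ha (h ▸ hx)
    have hxb : x ≠ b := fun h => hb (h ▸ hx)
    simp [hx, hxa, hxb]
  · have h3 := hH x hx
    by_cases hxb : x = b
    · subst hxb
      have h4 : H.Adj u x := h3.2 (Or.inr rfl)
      simp [hx, h4, hGb, hab.symm]
    · by_cases hxa : x = a
      · subst hxa
        have h4 : ¬ H.Adj u x := by
          rw [h3]; rintro (h | h)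
          · exact h.2 rfl
          · exact hxb h
        simp [hx, h4, hGa, hxb]
      · have h4 : H.Adj u x ↔ G.Adj u x := by
          rw [h3]
          exact ⟨fun h => h.elim (fun h => h.1) fun h => absurd h hxb, fun h => Or.inl ⟨h, hxa⟩⟩
        simp [hxa, hxb, h4]

theorem omv_w {G : SimpleGraph V} {g : V → Option (Fin r)} {w u : V}
    (z : V → ℝ) (hout : ∀ y, g y = none ↔ y = w ∨ y = u) (hwu : G.Adj w u) :
    omv G g z w = z u := by
  classical
  have h1 : z u = ∑ x, if x = u then z x else 0 := by simp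
  rw [h1]
  unfold omv
  refine Finset.sum_congr rfl fun x _ => ?_
  by_cases hx : x = u
  · subst hx
    have h2 : g x = none := (hout x).2 (Or.inr rfl)
    simp [h2, hwu]
  · rw [if_neg hx, if_neg]
    rintro ⟨h2, h3⟩
    rcases (hout x).1 h2 with rfl | h4
    · exact G.loopless.irrefl x h3
    · exact hx h4

theorem sum_light {g : V → Option (Fin r)} {w u : V} (F : V → ℝ)
    (hout : ∀ y, g y = none ↔ y = w ∨ y = u) (hwu : w ≠ u) :
    (∑ x, (by classical exact if g x = none then F x else 0)) = F w + F u := by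
  classical
  have h1 : F w = ∑ x, if x = w then F x else 0 := by simp
  have h2 : F u = ∑ x, if x = u then F x else 0 := by simp
  rw [h1, h2, ← Finset.sum_add_distrib]
  refine Finset.sum_congr rfl fun x _ => ?_
  by_cases hx : x = w
  · subst hx
    have : g x = none := (hout x).2 (Or.inl rfl)
    simp [this, hwu]
  · by_cases hx2 : x = u
    · subst hx2
      have : g x = none := (hout x).2 (Or.inr rfl)
      simp [this, hx]
    · have : g x ≠ none := fun h => by
        rcases (hout x).1 h with h | h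
        · exact hx h
        · exact hx2 h
      simp [this, hx, hx2]

/-- room in the class `t` -/
theorem room (hr : 3 ≤ r) {σ : Fin r → ℕ} {n : ℕ} {C s : ℝ} (hC : 0 ≤ C) (hs : s ^ 2 = n)
    (hs1 : 1 ≤ s) (hs2 : 2 * r * (C + 1) ≤ s) (htot : ∑ t, σ t = n)
    (hdev : dev σ ≤ C * n) (t : Fin r) : (C + 1) * s ≤ σ t := by
  by_contra hcon
  push Not at hcon
  have hr0 : (0 : ℝ) < r := by
    have : (3 : ℝ) ≤ r := by exact_mod_cast hr
    linarith
  have h1 : ((σ t : ℝ) - n / r) ^ 2 ≤ dev σ := by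
    have hn' : ∑ t, (σ t : ℝ) = n := by exact_mod_cast htot
    unfold dev
    rw [hn']
    exact Finset.single_le_sum (f := fun t => ((σ t : ℝ) - n / r) ^ 2)
      (fun t _ => sq_nonneg _) (Finset.mem_univ t)
  have h2 : 2 * (C + 1) * s ≤ (n : ℝ) / r := by
    rw [le_div_iff₀ hr0, ← hs]
    nlinarith
  have h3 : (C + 1) * s < (n : ℝ) / r - σ t := by nlinarith
  have h4 : ((C + 1) * s) ^ 2 < ((n : ℝ) / r - σ t) ^ 2 := by
    apply pow_lt_pow_left₀ h3 (by positivity) (by norm_num)
  have h5 : C * (n : ℝ) < ((C + 1) * s) ^ 2 := by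
    rw [mul_pow, hs]
    have hn : (0 : ℝ) < n := by rw [← hs]; positivity
    nlinarith
  nlinarith

/-- the numerical contradiction -/
theorem numer {L s c Cw Cu Cw' Cu' zw zu δ C' h : ℝ} (hL : 0 < L) (hs : 0 < s) (hc : 0 < c)
    (hCw : 1 / 2 ≤ Cw) (hCu : 0 ≤ Cu) (hδ : δ = c / (8 * s)) (hCw' : Cw + δ ≤ Cw')
    (hCu' : Cu ≤ Cu') (hw : L * zw = Cw + zu) (hu : L * zu = Cu + zw)
    (hzw0 : 0 ≤ zw) (hzu0 : 0 ≤ zu) (hzw : zw ≤ 1) (hzu : zu ≤ C' * h / s ^ 2)
    (hh : h ^ 2 = s) (hh0 : 0 ≤ h) (hC' : 0 ≤ C') (hs1 : 2 * C' ^ 2 ≤ s)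
    (hLl : s ^ 2 / 3 ≤ L) (hLu : L ≤ 2 * s ^ 2) (hs2 : 48 / c ≤ s)
    (hmain : Cw' ^ 2 + Cu' ^ 2 + 2 * (Cw' * Cu') / L ≤ Cw ^ 2 + Cw * zu + (Cu ^ 2 + Cu * zw)) :
    False := by
  have hδ0 : 0 < δ := by rw [hδ]; positivity
  have hCw0 : 0 < Cw := by linarith
  have h1 : Cw ^ 2 + 2 * (Cw * δ) ≤ Cw' ^ 2 := by nlinarith
  have h2 : Cu ^ 2 ≤ Cu' ^ 2 := by nlinarith
  have h3 : Cw * Cu ≤ Cw' * Cu' := mul_le_mul (by linarith) hCu' hCu (by linarith)
  have h4 : 2 * (Cw * Cu) / L ≤ 2 * (Cw' * Cu') / L := by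
    apply div_le_div_of_nonneg_right _ hL.le
    linarith
  have h5 : 2 * (Cw * δ) + 2 * (Cw * Cu) / L ≤ Cw * zu + Cu * zw := by linarith
  have h6 : L * (2 * (Cw * Cu) / L) = 2 * (Cw * Cu) := by field_simp
  have h7 : L * (2 * (Cw * δ)) + 2 * (Cw * Cu) ≤ Cw * (Cu + zw) + Cu * (Cw + zu) := by
    have := mul_le_mul_of_nonneg_left h5 hL.le
    rw [mul_add, h6] at this
    calc _ ≤ L * (Cw * zu + Cu * zw) := this
      _ = Cw * (L * zu) + Cu * (L * zw) := by ring
      _ = _ := by rw [hw, hu]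
  have h8 : L * (2 * (Cw * δ)) ≤ Cw * zw + Cu * zu := by linarith
  have hs2' : (0 : ℝ) < s ^ 2 := by positivity
  have h9 : Cu ≤ 2 * C' * h := by
    have : Cu ≤ L * zu := by linarith
    calc Cu ≤ L * zu := this
      _ ≤ (2 * s ^ 2) * (C' * h / s ^ 2) := mul_le_mul hLu hzu hzu0 (by positivity)
      _ = 2 * C' * h := by field_simp
  have h10 : Cu * zu ≤ 1 := by
    calc Cu * zu ≤ (2 * C' * h) * (C' * h / s ^ 2) := mul_le_mul h9 hzu hzu0 (by positivity)
      _ = 2 * C' ^ 2 * h ^ 2 / s ^ 2 := by ring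
      _ = 2 * C' ^ 2 / s := by rw [hh]; field_simp
      _ ≤ 1 := by rw [div_le_one hs]; exact hs1
  have h11 : Cw * zw ≤ Cw := by nlinarith
  have h12 : 2 ≤ L * δ := by
    have h13 : s ^ 2 / 3 * δ = c * s / 24 := by rw [hδ]; field_simp; norm_num
    have h14 : 48 ≤ c * s := by
      rw [div_le_iff₀ hc] at hs2
      linarith
    have h15 : s ^ 2 / 3 * δ ≤ L * δ := mul_le_mul_of_nonneg_right hLl hδ0.le
    linarith
  nlinarith

end ItemRII

open ItemRII in
theorem prfRII : P_statement → CNTU_statement → FLU_statement → TCL_statement →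
    SWR_statement → RMB_statement → MEM2_statement → RII_statement := by
  intro _ _ hFLU hTCL hSWR hRMB hMEM r C c hr hC hc
  obtain ⟨C₁, n₁, hC₁, hF⟩ := hFLU r C hr hC
  obtain ⟨C₂, n₂, hC₂, hT⟩ := hTCL r C hr hC
  obtain ⟨n₃, hS⟩ := hSWR r C hr hC
  set S : ℝ := 1 + 2 * r * (C + 1) + 3 * C₁ + 2 * C₁ ^ 2 + 48 / c + 4 * (C₂ + 2) / c with hSdef
  refine ⟨n₁ + n₂ + n₃ + ⌈S ^ 2⌉₊, ?_⟩
  intro V _ G g w u v i k n m hn hM hNL hTh
  by_contra hki
  classical
  have hr3 : (3 : ℝ) ≤ r := by exact_mod_cast hr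
  have hNK := hNL.nk
  have hp1 : 0 ≤ 2 * (r : ℝ) * (C + 1) := by positivity
  have hp2 : 0 ≤ 48 / c := by positivity
  have hp3 : 0 ≤ 4 * (C₂ + 2) / c := by positivity
  have hp4 : 0 ≤ 2 * C₁ ^ 2 := by positivity
  have hS1 : 1 ≤ S := by rw [hSdef]; linarith
  have hnS : S ^ 2 ≤ (n : ℝ) := by
    have h1 : S ^ 2 ≤ (⌈S ^ 2⌉₊ : ℝ) := Nat.le_ceil _
    have h2 : ((⌈S ^ 2⌉₊ : ℕ) : ℝ) ≤ n := by exact_mod_cast (by omega : ⌈S ^ 2⌉₊ ≤ n)
    linarith
  set s : ℝ := Real.sqrt n with hs
  set h : ℝ := Real.sqrt s with hh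
  have hn0 : (0 : ℝ) ≤ n := Nat.cast_nonneg n
  have hss : s ^ 2 = n := Real.sq_sqrt hn0
  have hsS : S ≤ s := by
    rw [hs]
    exact Real.le_sqrt_of_sq_le hnS
  have hs0 : 0 < s := by linarith
  have hh2 : h ^ 2 = s := Real.sq_sqrt hs0.le
  have hh0 : 0 ≤ h := Real.sqrt_nonneg _
  have hs1' : 1 ≤ s := by linarith
  have hhs : h ≤ s := by
    rw [hh, Real.sqrt_le_left hs0.le]
    exact le_self_pow₀ hs1' (by norm_num)
  have hnpos : (0 : ℝ) < n := by rw [← hss]; positivity
  have hn1 : (1 : ℝ) ≤ n := by rw [← hss]; exact one_le_pow₀ hs1'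
  obtain ⟨⟨z, hP⟩, hFz⟩ := hF V G g n (by omega) hNK
  obtain ⟨hz1, hz2, hz3, -⟩ := hFz z hP
  obtain ⟨hTa, -, hTc⟩ := hT V G z g n (by omega) hNK hP
  have hw : g w = none := (hTh.ty.out w).2 (Or.inl rfl)
  have hu : g u = none := (hTh.ty.out u).2 (Or.inr rfl)
  have hwu : w ≠ u := hTh.ty.ne
  have hik : i ≠ k := fun h => hki h.symm
  have hmiss := miss_zero hTh.ty
  -- the spectral radius
  have hq := hz3
  have hqq : 2 / 3 ≤ qq r ∧ qq r ≤ 1 := by
    unfold qq
    constructor
    · have : 1 / (r : ℝ) ≤ 1 / 3 := one_div_le_one_div_of_le (by norm_num) hr3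
      linarith
    · have : 0 ≤ 1 / (r : ℝ) := by positivity
      linarith
  have hCs : C₁ * h ≤ C₁ * s := mul_le_mul_of_nonneg_left hhs hC₁
  have hs3 : 3 * C₁ ≤ s := by rw [hSdef] at hsS; linarith
  have hLl : s ^ 2 / 3 ≤ lam G := by
    have := (abs_le.1 hq).1
    have h1 : C₁ * s ≤ s ^ 2 / 3 := by
      have := mul_le_mul_of_nonneg_right hs3 hs0.le
      rw [pow_two]; linarith
    have h2 : 2 / 3 * s ^ 2 ≤ qq r * n := by
      rw [← hss]; exact mul_le_mul_of_nonneg_right hqq.1 (by positivity)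
    linarith
  have hLu : lam G ≤ 2 * s ^ 2 := by
    have := (abs_le.1 hq).2
    have h1 : C₁ * s ≤ s ^ 2 := by
      rw [pow_two]
      exact mul_le_mul_of_nonneg_right (by linarith) hs0.le
    have h2 : qq r * n ≤ s ^ 2 := by
      rw [hss]
      calc qq r * n ≤ 1 * n := mul_le_mul_of_nonneg_right hqq.2 hn0
        _ = n := one_mul _
    linarith
  have hL0 : 0 < lam G := by
    have : 0 < s ^ 2 / 3 := by positivity
    linarith
  -- room
  have hdev : dev (siz g) ≤ C * n := hNK.dev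
  have hrm : ∀ t, (C + 1) * s ≤ siz g t := fun t =>
    room hr hC hss (by linarith) (by rw [hSdef] at hsS; linarith) hNK.tot hdev t
  have hd : (nbn G g w i : ℝ) ≤ C * s := by
    have h1 : (nbn G g w i : ℝ) ≤ ((outSet G g).ncard : ℝ) := by
      exact_mod_cast nbn_le_out G g w i hw
    have h2 := hNK.few
    have h3 : (0 : ℝ) ≤ ((missSet G g).ncard : ℝ) := Nat.cast_nonneg _
    have h4 : C * h ≤ C * s := mul_le_mul_of_nonneg_left hhs hC
    linarith
  have hCs0 : 0 ≤ C * s := mul_nonneg hC hs0.le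
  have hroom : nbn G g w i + 1 ≤ siz g k := by
    have h1 := hrm k
    rw [add_mul, one_mul] at h1
    have : ((nbn G g w i + 1 : ℕ) : ℝ) ≤ siz g k := by push_cast; linarith
    exact_mod_cast this
  have hsz : ∀ t, 1 ≤ siz g t := fun t => by
    have h1 := hrm t
    rw [add_mul, one_mul] at h1
    have : ((1 : ℕ) : ℝ) ≤ siz g t := by push_cast; linarith
    exact_mod_cast this
  obtain ⟨H, A, v', hA, hAc, hv', hI, hmH, hHwu, hHl, hlam, hHw, hHu⟩ :=
    comb hRMB hMEM hr hM hTh hki hsz hroom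
  have hmain := hS V G H z g w u n (by omega) hNK hmiss hI hmH hw hu hwu hHwu hHl hP hlam
  rw [sum_light (fun x => cov G g z x ^ 2 + cov G g z x * omv G g z x) hTh.ty.out hwu] at hmain
  have hGwu : G.Adj w u := hTh.ty.uw.symm
  have how : omv G g z w = z u := omv_w z hTh.ty.out hGwu
  have hou : omv G g z u = z w :=
    omv_w z (fun y => by rw [hTh.ty.out y]; exact or_comm) hTh.ty.uw
  rw [how, hou] at hmain
  -- weights of the classes
  have hzl : ∀ x, g x = none → z x ≤ 1 := by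
    intro x hx
    have h1 := hz2 x hx
    have h2 : C₁ * h / n ≤ 1 := by
      rw [div_le_one hnpos, ← hss, pow_two]
      calc C₁ * h ≤ C₁ * s := hCs
        _ ≤ s * s := mul_le_mul_of_nonneg_right (by linarith) hs0.le
    linarith
  have hmu : ∀ x, muv G g z x = 0 := by
    intro x
    unfold muv
    refine Finset.sum_eq_zero fun y _ => if_neg ?_
    rintro ⟨h1, h2, h3, h4⟩
    exact h4 ((hTh.ty.core x y h1 h2).2 fun h => h3 h.symm)
  have hom0 : ∀ x, 0 ≤ omv G g z x := fun x => by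
    unfold omv
    exact Finset.sum_nonneg fun y _ => by split_ifs; exacts [hP.nonneg y, le_rfl]
  have hom1 : ∀ x, omv G g z x ≤ 2 := fun x => by
    have h1 : omv G g z x ≤ ∑ y, (if g y = none then z y else 0) := by
      unfold omv
      refine Finset.sum_le_sum fun y _ => ?_
      by_cases hy : g y = none
      · by_cases hy2 : G.Adj x y
        · simp [hy, hy2]
        · simp [hy, hy2, hP.nonneg y]
      · simp [hy]
    rw [sum_light z hTh.ty.out hwu] at h1
    linarith [hzl w hw, hzl u hu]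
  set θ : ℝ := (tv g z n i + 2) / lam G with hθ
  set δ : ℝ := c / (8 * s) with hδ
  have hyi : ∀ x, g x = some i → z x ≤ θ := by
    intro x hx
    rw [hθ, le_div_iff₀ hL0, mul_comm, hTa x i hx, hmu x]
    linarith [hom1 x]
  have hTd : c / 4 * s + 2 ≤ tv g z n k - tv g z n i := by
    have hbig := hNL.big k hki
    have hb3 : 0 ≤ c * Real.sqrt n := mul_nonneg hc.le (Real.sqrt_nonneg _)
    have hb2 : (siz g k : ℝ) ≤ siz g i := by linarith
    have h1 := hTc k i (by exact_mod_cast hb2)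
    rw [hmiss] at h1
    have h2 : C₂ * (((0 : ℕ) : ℝ) + 1) / n ≤ C₂ := by
      rw [Nat.cast_zero, zero_add, mul_one]
      exact div_le_self hC₂ hn1
    have h3 : 4 * (C₂ + 2) / c ≤ s := by rw [hSdef] at hsS; linarith
    rw [div_le_iff₀ hc] at h3
    rw [← hs] at hbig
    linarith
  have hyk : ∀ x, g x = some k → θ + δ ≤ z x := by
    intro x hx
    have h1 : lam G * z x = tv g z n k + omv G g z x := by
      rw [hTa x k hx, hmu x]; ring
    have h2 : lam G * (θ + δ) ≤ lam G * z x := by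
      rw [mul_add, h1, hθ, mul_div_cancel₀ _ hL0.ne']
      have h3 : lam G * δ ≤ c / 4 * s := by
        calc lam G * δ ≤ 2 * s ^ 2 * δ :=
              mul_le_mul_of_nonneg_right hLu (by rw [hδ]; positivity)
          _ = c / 4 * s := by rw [hδ]; field_simp; norm_num
      linarith [hom0 x]
    exact le_of_mul_le_mul_left h2 hL0
  have hcw := cov_w z hA (fun x hx => nbn_zero hTh.ni x hx) hHw
  have hGa : G.Adj u (v i) :=
    (hTh.ty.un (v i) (by rw [hTh.ty.hv i hik]; simp)).2 ⟨i, hik, rfl⟩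
  have hGb : ¬ G.Adj u v' := by
    intro hadj
    obtain ⟨t, ht, h1⟩ := (hTh.ty.un v' (by rw [hv']; simp)).1 hadj
    have h2 := hTh.ty.hv t ht
    rw [← h1, hv'] at h2
    exact ht (Option.some_injective _ h2).symm
  have hne : v i ≠ v' := by
    intro he
    rw [he] at hGa
    exact hGb hGa
  have hcu := cov_u z (by rw [hTh.ty.hv i hik]; simp) (by rw [hv']; simp) hne hGa hGb hHu
  have hδ0 : 0 < δ := by rw [hδ]; positivity
  have hCu' : cov G g z u ≤ cov H g z u := by
    rw [hcu]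
    have h1 := hyk v' hv'
    have h2 := hyi (v i) (hTh.ty.hv i hik)
    linarith
  have hd1 : 1 ≤ nbn G g w i := hTh.pos i hik
  have hd1' : (1 : ℝ) ≤ (nbn G g w i : ℝ) := by exact_mod_cast hd1
  have hCw' : cov G g z w + δ ≤ cov H g z w := by
    rw [hcw]
    have h1 : (nbn G g w i : ℝ) * (θ + δ) ≤ ∑ x ∈ A, z x := by
      rw [← hAc, ← nsmul_eq_mul]
      exact Finset.card_nsmul_le_sum _ _ _ fun x hx => hyk x (hA x hx)
    have h2 : ∑ x ∈ univ.filter (fun x => g x = some i ∧ G.Adj w x), z x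
        ≤ (nbn G g w i : ℝ) * θ := by
      rw [nbn_card G g w i, ← nsmul_eq_mul]
      exact Finset.sum_le_card_nsmul _ _ _ fun x hx => hyi x (Finset.mem_filter.1 hx).2.1
    have h3 : δ ≤ (nbn G g w i : ℝ) * δ := le_mul_of_one_le_left hδ0.le hd1'
    linarith
  have hcov0 : ∀ x, 0 ≤ cov G g z x := fun x => by
    unfold cov
    exact Finset.sum_nonneg fun y _ => by split_ifs; exacts [hP.nonneg y, le_rfl]
  have hCw : 1 / 2 ≤ cov G g z w := by
    obtain ⟨y, hy1, hy2⟩ := nbn_pos hd1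
    have hy3 : g y ≠ none := by rw [hy1]; simp
    have h1 : (1 : ℝ) / 2 ≤ z y := by
      have h2 := (abs_le.1 (hz1 y hy3)).1
      have h3 : C₁ / s ≤ 1 / 2 := by
        rw [div_le_iff₀ hs0]
        linarith
      linarith
    have h4 : z y ≤ cov G g z w := by
      unfold cov
      have h5 := Finset.single_le_sum
        (f := fun x => if g x ≠ none ∧ G.Adj w x then z x else 0)
        (fun x _ => by split_ifs; exacts [hP.nonneg x, le_rfl]) (Finset.mem_univ y)
      simpa [hy3, hy2] using h5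
    linarith
  have hew : lam G * z w = cov G g z w + z u := by rw [eig_split hP w, how]
  have heu : lam G * z u = cov G g z u + z w := by rw [eig_split hP u, hou]
  exact numer hL0 hs0 hc hCw (hcov0 u) hδ hCw' hCu' hew heu (hP.nonneg w) (hP.nonneg u)
    (hzl w hw) (by rw [hss]; exact hz2 u hu) hh2 hh0 hC₁
    (by rw [hSdef] at hsS; linarith) hLl hLu (by rw [hSdef] at hsS; linarith) hmain

end MP0c3a8f

end

section

/-!
# MP_0c3a8f_co, item RMB: comparison graphs of type two on the same vertex set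
-/

open Finset

namespace MP0c3a8f

namespace RMBa

variable {V : Type} {r : ℕ}

/-- The comparison graph; `B` is the set of the core neighbours of `u`. -/
def HH (g : V → Option (Fin r)) (w u : V) (A : Finset V) (B : V → Prop) (hw : g w = none)
    (hu : g u = none) (hwu : w ≠ u) (hA : ∀ x ∈ A, g x ≠ none) (hB : ∀ x, B x → g x ≠ none) :
    SimpleGraph V where
  Adj x y := (g x ≠ none ∧ g y ≠ none ∧ g x ≠ g y) ∨
    ((x = w ∧ y ∈ A) ∨ (y = w ∧ x ∈ A)) ∨ ((x = w ∧ y = u) ∨ (y = w ∧ x = u)) ∨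
    ((x = u ∧ B y) ∨ (y = u ∧ B x))
  symm := ⟨fun x y h => by
    rcases h with h | h | h | h
    · exact Or.inl ⟨h.2.1, h.1, h.2.2.symm⟩
    · exact Or.inr (Or.inl h.symm)
    · exact Or.inr (Or.inr (Or.inl h.symm))
    · exact Or.inr (Or.inr (Or.inr h.symm))⟩
  loopless := ⟨fun x h => by
    rcases h with h | (h | h) | (h | h) | (h | h)
    · exact h.2.2 rfl
    · exact hA x h.2 (h.1 ▸ hw)
    · exact hA x h.2 (h.1 ▸ hw)
    · exact hwu (h.1.symm.trans h.2)
    · exact hwu (h.1.symm.trans h.2)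
    · exact hB x h.2 (h.1 ▸ hu)
    · exact hB x h.2 (h.1 ▸ hu)⟩

section
variable {g : V → Option (Fin r)} {w u : V} {A : Finset V} {B : V → Prop} (hw : g w = none)
  (hu : g u = none) (hwu : w ≠ u) (hA : ∀ x ∈ A, g x ≠ none) (hB : ∀ x, B x → g x ≠ none)

theorem adj_w (x : V) (hx : g x ≠ none) : (HH g w u A B hw hu hwu hA hB).Adj w x ↔ x ∈ A := by
  constructor
  · rintro (h | (h | h) | (h | h) | (h | h))
    · exact absurd hw h.1
    · exact h.2
    · exact absurd (h.1 ▸ hw) hx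
    · exact absurd (h.2 ▸ hu) hx
    · exact absurd h.2 hwu
    · exact absurd h.1 hwu
    · exact absurd (h.1 ▸ hu) hx
  · exact fun h => Or.inr (Or.inl (Or.inl ⟨rfl, h⟩))

theorem adj_u (x : V) (hx : g x ≠ none) : (HH g w u A B hw hu hwu hA hB).Adj u x ↔ B x := by
  constructor
  · rintro (h | (h | h) | (h | h) | (h | h))
    · exact absurd hu h.1
    · exact absurd h.1.symm hwu
    · exact absurd (h.1 ▸ hw) hx
    · exact absurd h.1.symm hwu
    · exact absurd (h.1 ▸ hw) hx
    · exact h.2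
    · exact absurd (h.1 ▸ hu) hx
  · exact fun h => Or.inr (Or.inr (Or.inr (Or.inl ⟨rfl, h⟩)))

theorem adj_wu : (HH g w u A B hw hu hwu hA hB).Adj w u :=
  Or.inr (Or.inr (Or.inl (Or.inl ⟨rfl, rfl⟩)))

theorem adj_core (x y : V) (hx : g x ≠ none) (hy : g y ≠ none) :
    (HH g w u A B hw hu hwu hA hB).Adj x y ↔ g x ≠ g y := by
  constructor
  · rintro (h | (h | h) | (h | h) | (h | h))
    · exact h.2.2
    · exact absurd (h.1 ▸ hw) hx
    · exact absurd (h.1 ▸ hw) hy
    · exact absurd (h.1 ▸ hw) hx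
    · exact absurd (h.1 ▸ hw) hy
    · exact absurd (h.1 ▸ hu) hx
    · exact absurd (h.1 ▸ hu) hy
  · exact fun h => Or.inl ⟨hx, hy, h⟩

theorem adj_none (x y : V) (hx : g x = none) (hxw : x ≠ w) (hxu : x ≠ u) :
    ¬ (HH g w u A B hw hu hwu hA hB).Adj x y := by
  rintro (h | (h | h) | (h | h) | (h | h))
  · exact h.1 hx
  · exact hxw h.1
  · exact hA x h.2 hx
  · exact hxw h.1
  · exact hxu h.2
  · exact hxu h.1
  · exact hB x h.2 hx

theorem indep : Indep (HH g w u A B hw hu hwu hA hB) g := by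
  intro x y hx hxy h
  have hy : g y ≠ none := hxy ▸ hx
  exact (adj_core hw hu hwu hA hB x y hx hy).1 h hxy

theorem miss_zero : (missSet (HH g w u A B hw hu hwu hA hB) g).ncard = 0 := by
  have : missSet (HH g w u A B hw hu hwu hA hB) g = ∅ := by
    ext e
    simp only [missSet, Set.mem_ofPred_eq, Set.mem_empty_iff_false, iff_false]
    rintro ⟨x, y, -, hx, hy, hxy, hn⟩
    exact hn ((adj_core hw hu hwu hA hB x y hx hy).2 hxy)
  rw [this, Set.ncard_empty]

end

open Classical in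
theorem sum_card (g : V → Option (Fin r)) (A : Finset V) (hA : ∀ v ∈ A, g v ≠ none) :
    ∑ t, {v | g v = some t ∧ v ∈ A}.ncard = A.card := by
  rw [Finset.card_eq_sum_card_fiberwise (f := g) (t := Finset.univ) (s := A)
    (fun _ _ => Finset.mem_coe.2 (Finset.mem_univ _)), Fintype.sum_option]
  have h0 : (A.filter fun a => g a = none) = ∅ := by
    rw [Finset.filter_eq_empty_iff]
    exact fun v hv h => hA v hv h
  rw [h0, Finset.card_empty, zero_add]
  refine Finset.sum_congr rfl fun t _ => ?_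
  rw [← Set.ncard_coe_finset]
  congr 1
  ext v
  simp only [Set.mem_ofPred_eq, Finset.coe_filter]
  exact and_comm

/-- Cardinality of a set of the subtype. -/
theorem ncard_sub (S : Set V) (P : V → Prop) (h : ∀ v, P v → v ∈ S) :
    {v : S | P v.1}.ncard = {v | P v}.ncard := by
  rw [← Set.ncard_image_of_injective _ Subtype.val_injective]
  congr 1
  ext v
  constructor
  · rintro ⟨x, hx, rfl⟩
    exact hx
  · intro hv
    exact ⟨⟨v, h v hv⟩, hv, rfl⟩

end RMBa

open RMBa in
theorem prfRMB : RSI_statement → MEM2_statement → RMB_statement := by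
  classical
  intro hRSI hMEM r m V _ G g w u v i A h3 hG hw hu hwu hA0 hex hv0 hexc hs hm
  have hA : ∀ x ∈ A, g x ≠ none := fun x hx => (hA0 x hx).1
  obtain ⟨B, hBdef⟩ : ∃ B : V → Prop, B = fun x => ∃ t, t ≠ i ∧ x = v t := ⟨_, rfl⟩
  have hB' : ∀ x, B x ↔ ∃ t, t ≠ i ∧ x = v t := fun x => by rw [hBdef]
  have hB : ∀ x, B x → g x ≠ none := by
    intro x hx
    obtain ⟨t, ht, rfl⟩ := (hB' x).1 hx
    rw [hv0 t ht]
    exact Option.some_ne_none t
  obtain ⟨H, hH⟩ : ∃ H, H = HH g w u A B hw hu hwu hA hB := ⟨_, rfl⟩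
  have aw : ∀ x, g x ≠ none → (H.Adj w x ↔ x ∈ A) := by
    rw [hH]; exact adj_w hw hu hwu hA hB
  have au : ∀ x, g x ≠ none → (H.Adj u x ↔ ∃ t, t ≠ i ∧ x = v t) := by
    intro x hx
    rw [← hB' x, hH]
    exact adj_u hw hu hwu hA hB x hx
  have awu : H.Adj w u := by rw [hH]; exact adj_wu hw hu hwu hA hB
  have ac : ∀ x y, g x ≠ none → g y ≠ none → (H.Adj x y ↔ g x ≠ g y) := by
    rw [hH]; exact adj_core hw hu hwu hA hB
  have an : ∀ x y, g x = none → x ≠ w → x ≠ u → ¬ H.Adj x y := by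
    rw [hH]; exact adj_none hw hu hwu hA hB
  refine ⟨H, by rw [hH]; exact indep hw hu hwu hA hB, by rw [hH]; exact miss_zero hw hu hwu hA hB,
    awu, an, aw, au, ?_⟩
  obtain ⟨S, hS⟩ : ∃ S : Set V, S = {x | g x ≠ none ∨ x = w ∨ x = u} := ⟨_, rfl⟩
  have mS : ∀ x, x ∈ S ↔ g x ≠ none ∨ x = w ∨ x = u := fun x => by rw [hS]; exact Iff.rfl
  have hSA : ∀ x y, H.Adj x y → x ∈ S := by
    intro x y h
    rw [mS]
    by_contra hn
    rw [not_or, not_or, not_not] at hn
    exact an x y hn.1 hn.2.1 hn.2.2 h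
  have wS : w ∈ S := (mS w).2 (Or.inr (Or.inl rfl))
  have uS : u ∈ S := (mS u).2 (Or.inr (Or.inr rfl))
  have : Fintype S := Fintype.ofFinite _
  obtain ⟨e1, e2⟩ := hRSI V H S ⟨w, wS⟩ fun x y h => ⟨hSA x y h, hSA y x h.symm⟩
  refine e1.trans ?_
  have some_S : ∀ (t : Fin r) (x : V), g x = some t → x ∈ S := fun t x hx =>
    (mS x).2 (Or.inl (by rw [hx]; exact Option.some_ne_none t))
  have hsiz : ∀ t, siz (fun x : S => g x.1) t = siz g t := fun t =>
    ncard_sub S (fun x => g x = some t) (some_S t)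
  have hnbn : ∀ t, nbn (H.comap (Subtype.val : S → V)) (fun x : S => g x.1)
      ⟨w, wS⟩ t = {x | g x = some t ∧ x ∈ A}.ncard := by
    intro t
    rw [← ncard_sub S (fun x => g x = some t ∧ x ∈ A) fun x hx => some_S t x hx.1]
    unfold nbn
    congr 1
    ext x
    rw [Set.mem_ofPred_eq, Set.mem_ofPred_eq, SimpleGraph.comap_adj]
    refine and_congr_right fun hx => ?_
    have hx' : g x.1 = some t := hx
    exact aw x.1 (by rw [hx']; exact Option.some_ne_none t)
  obtain ⟨v', hv'⟩ : ∃ v' : Fin r → S, ∀ t, t ≠ i → (v' t).1 = v t := by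
    refine ⟨fun t => if h : t = i then ⟨w, wS⟩ else ⟨v t, some_S t (v t) (hv0 t h)⟩, ?_⟩
    intro t ht
    simp only [dif_neg ht]
  have hTh : Th2 (H.comap (Subtype.val : S → V)) (fun x : S => g x.1)
      ⟨w, wS⟩ ⟨u, uS⟩ v' i := by
    refine ⟨⟨?_, ?_, ?_, ?_, ?_, ?_⟩, ?_, ?_, ?_⟩
    · intro x
      rw [Subtype.ext_iff, Subtype.ext_iff]
      constructor
      · intro h
        exact ((mS x.1).1 x.2).resolve_left (fun hn => hn h)
      · intro h
        change g x.1 = none
        rcases h with h | h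
        · have h' : x.1 = w := h
          rw [h', hw]
        · have h' : x.1 = u := h
          rw [h', hu]
    · intro h
      exact hwu (Subtype.ext_iff.1 h)
    · intro x y hx hy
      rw [SimpleGraph.comap_adj]
      exact ac x.1 y.1 hx hy
    · rw [SimpleGraph.comap_adj]
      exact awu.symm
    · intro t ht
      change g (v' t).1 = some t
      rw [hv' t ht]
      exact hv0 t ht
    · intro x hx
      rw [SimpleGraph.comap_adj]
      refine (au x.1 hx).trans ⟨?_, ?_⟩
      · rintro ⟨t, ht, he⟩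
        exact ⟨t, ht, Subtype.ext (by rw [hv' t ht]; exact he)⟩
      · rintro ⟨t, ht, he⟩
        refine ⟨t, ht, ?_⟩
        rw [he, hv' t ht]
    · rw [hnbn, Set.ncard_eq_zero]
      ext x
      simp only [Set.mem_ofPred_eq, Set.mem_empty_iff_false, iff_false]
      rintro ⟨h1, h2⟩
      exact (hA0 x h2).2 h1
    · intro t ht
      rw [hnbn]
      obtain ⟨x, hx, hxt⟩ := hex t ht
      exact Nat.succ_le_of_lt ((Set.ncard_pos (Set.toFinite _)).2 ⟨x, hxt, hx⟩)
    · obtain ⟨t, ht, hvt⟩ := hexc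
      refine ⟨t, ht, ?_⟩
      rw [SimpleGraph.comap_adj, hv' t ht]
      intro h
      exact hvt ((aw (v t) (by rw [hv0 t ht]; exact Option.some_ne_none t)).1 h)
  obtain ⟨f1, f2, f3, f4⟩ := hMEM r S _ _ _ _ _ i h3 hTh (fun t => by rw [hsiz]; exact hs t)
  refine hG.2 S _ ⟨f1, ?_, f3, f2⟩
  have e3 : ∑ t, nbn (H.comap (Subtype.val : S → V)) (fun x : S => g x.1)
      ⟨w, wS⟩ t = A.card := by
    rw [Finset.sum_congr rfl fun t _ => hnbn t]
    exact sum_card g A hA
  have e4 : ∑ t, siz (fun x : S => g x.1) t ^ 2 = ∑ t, siz g t ^ 2 :=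
    Finset.sum_congr rfl fun t _ => by rw [hsiz]
  have e5 : ∑ t, siz (fun x : S => g x.1) t = ∑ t, siz g t :=
    Finset.sum_congr rfl fun t _ => hsiz t
  rw [e3, e4, e5] at f4
  omega

end MP0c3a8f

end

section

set_option autoImplicit false

namespace MP0c3a8f

namespace ItemRSI

lemma sumS {V : Type} [Fintype V] (S : Set V) [Fintype S] (f : V → ℝ)
    (hf : ∀ v, v ∉ S → f v = 0) : ∑ v : S, f v = ∑ v, f v := by
  classical
  rw [← Finset.sum_subtype (Finset.univ.filter (· ∈ S)) (by simp) f]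
  refine Finset.sum_subset (Finset.filter_subset _ _) ?_
  intro v _ hv
  exact hf v (by simpa using hv)

lemma adjC {V : Type} (H : SimpleGraph V) (S : Set V) (i j : S) :
    adj (H.comap (Subtype.val : S → V)) i j = adj H i j := by
  unfold adj
  rfl

lemma edges {V : Type} (H : SimpleGraph V) (S : Set V)
    (hS : ∀ u v, H.Adj u v → u ∈ S ∧ v ∈ S) :
    (H.comap (Subtype.val : S → V)).edgeSet.ncard = H.edgeSet.ncard := by
  have h : H.edgeSet = Sym2.map (Subtype.val : S → V) ''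
      (H.comap (Subtype.val : S → V)).edgeSet := by
    ext e
    constructor
    · intro he
      induction e using Sym2.ind with
      | _ u v =>
        rw [SimpleGraph.mem_edgeSet] at he
        obtain ⟨hu, hv⟩ := hS u v he
        refine ⟨s(⟨u, hu⟩, ⟨v, hv⟩), ?_, ?_⟩
        · rw [SimpleGraph.mem_edgeSet, SimpleGraph.comap_adj]
          exact he
        · simp
    · rintro ⟨e', he', rfl⟩
      induction e' using Sym2.ind with
      | _ u v =>
        rw [SimpleGraph.mem_edgeSet, SimpleGraph.comap_adj] at he'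
        rw [Sym2.map_mk]
        exact he'
  rw [h, Set.ncard_image_of_injective _ (Sym2.map.injective Subtype.val_injective)]

end ItemRSI

open ItemRSI in
theorem prfRSI : P_statement → RSI_statement := by
  intro hP V _ H S _ hSne hS
  refine ⟨?_, edges H S hS⟩
  obtain ⟨s0, hs0⟩ := hSne
  have : Nonempty V := ⟨s0⟩
  have : Nonempty S := ⟨⟨s0, hs0⟩⟩
  obtain ⟨h0, _, x, _, hx1, hx2⟩ := hP V H
  obtain ⟨g0, g1, _⟩ := hP S (H.comap (Subtype.val : S → V))
  rcases h0.eq_or_lt with hl | hl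
  · rw [← hl]; exact g0
  · have hx0 : ∀ v, v ∉ S → x v = 0 := by
      intro v hv
      have h1 := hx2 v
      have h2 : ∑ j, adj H v j * x j = 0 := by
        refine Finset.sum_eq_zero fun j _ => ?_
        have : ¬ H.Adj v j := fun h => hv (hS v j h).1
        simp [adj, this]
      rw [h2] at h1
      have h3 : lam H * x v = 0 := h1.symm
      rcases mul_eq_zero.mp h3 with h | h
      · exact absurd h hl.ne'
      · exact h
    have hsq : ∑ i : S, x i ^ 2 = 1 := by
      rw [sumS S (fun v => x v ^ 2) (fun v hv => by rw [hx0 v hv]; ring), hx1]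
    have hq : qf (H.comap (Subtype.val : S → V)) (fun v : S => x v) = lam H := by
      unfold qf
      have h1 : ∀ i : S, ∑ j : S, adj (H.comap (Subtype.val : S → V)) i j * (x i * x j) =
          x i * (lam H * x i) := by
        intro i
        rw [← hx2 i, Finset.mul_sum,
          ← sumS S (fun j => x i * (adj H i j * x j)) (fun v hv => by rw [hx0 v hv]; ring)]
        refine Finset.sum_congr rfl fun j _ => ?_
        rw [adjC]; ring
      rw [Finset.sum_congr rfl fun i _ => h1 i,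
        sumS S (fun v => x v * (lam H * x v)) (fun v hv => by rw [hx0 v hv]; ring)]
      calc ∑ v, x v * (lam H * x v) = lam H * ∑ v, x v ^ 2 := by
            rw [Finset.mul_sum]
            exact Finset.sum_congr rfl fun v _ => by ring
        _ = lam H := by rw [hx1, mul_one]
    have := g1 (fun v : S => x v)
    rw [hq, hsq, mul_one] at this
    exact this

end MP0c3a8f

end

section

/-!
# MP_0c3a8f_co: item RST (type `R`)
-/

open Finset

namespace MP0c3a8f

namespace ItemRST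

variable {V : Type} {r : ℕ}

theorem cnb_card [Fintype V] (G : SimpleGraph V) (g : V → Option (Fin r)) (v : V)
    [DecidablePred fun u => g u ≠ none ∧ G.Adj v u] :
    cnb G g v = (univ.filter fun u => g u ≠ none ∧ G.Adj v u).card := by
  unfold cnb
  rw [Set.ncard_eq_toFinset_card _ (Set.toFinite _)]
  congr 1
  ext u
  simp

theorem cnb_eq [Fintype V] (G : SimpleGraph V) (g : V → Option (Fin r)) (v : V) :
    cnb G g v = ∑ t, nbn G g v t := by
  classical
  have h1 : ∀ t, nbn G g v t = ∑ u, if g u = some t ∧ G.Adj v u then 1 else 0 := by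
    intro t
    unfold nbn
    rw [Set.ncard_eq_toFinset_card _ (Set.toFinite _), Finset.sum_boole]
    simp only [Nat.cast_id]
    congr 1
    ext u
    simp
  rw [cnb_card]
  simp only [h1]
  rw [Finset.sum_comm, Finset.card_filter]
  refine Finset.sum_congr rfl fun u _ => ?_
  rcases hu : g u with _ | s
  · simp
  · by_cases h : G.Adj v u
    · simp [h]
    · simp [h]

theorem sum_cnb_le (hC : CNTU_statement) [Fintype V] (G : SimpleGraph V)
    (g : V → Option (Fin r)) (hI : Indep G g) [DecidablePred fun x => g x = none] :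
    (∑ x, if g x = none then cnb G g x else 0) ≤ (outSet G g).ncard := by
  classical
  obtain ⟨e, _, h⟩ := hC r V G g (univ.filter fun v => g v = none) hI (by simp)
  have h0 := FNWx.cnt0 hC G g hI
  have h1 : lightSet G g (univ.filter fun v => g v = none) = ∅ := by
    ext e
    simp only [lightSet, Set.mem_ofPred_eq, Set.mem_empty_iff_false, iff_false]
    rintro ⟨_, v, _, h2, h3⟩
    exact h3 (by simp [h2])
  have h2 : ∑ v ∈ univ.filter (fun v => g v = none), ∑ t, nbn G g v t
      = ∑ x, if g x = none then cnb G g x else 0 := by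
    rw [Finset.sum_filter]
    refine Finset.sum_congr rfl fun x _ => ?_
    rw [cnb_eq]
  rw [h1, h2, Set.ncard_empty] at h
  omega

theorem omv_le [Fintype V] (G : SimpleGraph V) (g : V → Option (Fin r)) (z : V → ℝ) {κ : ℝ}
    (hκ : 0 ≤ κ) (hz : ∀ v, g v = none → z v ≤ κ) (x : V) :
    omv G g z x ≤ (outSet G g).ncard * κ := by
  classical
  unfold omv
  have h1 : (univ.filter fun u => g u = none ∧ G.Adj x u).card ≤ (outSet G g).ncard := by
    rw [Set.ncard_eq_toFinset_card _ (Set.toFinite _)]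
    refine Finset.card_le_card_of_injOn (fun u => s(x, u)) ?_ ?_
    · intro u hu
      have hu' := (Finset.mem_filter.1 (Finset.mem_coe.1 hu)).2
      refine Finset.mem_coe.2 ((Set.Finite.mem_toFinset _).2 ⟨?_, u, ?_, hu'.1⟩)
      · exact hu'.2
      · exact Sym2.mem_mk_right _ _
    · intro u _ u' _ h
      exact (Sym2.congr_right).1 h
  calc (∑ u, if g u = none ∧ G.Adj x u then z u else 0)
      ≤ ∑ u, if g u = none ∧ G.Adj x u then κ else 0 := by
        refine Finset.sum_le_sum fun u _ => ?_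
        split_ifs with h
        · exact hz u h.1
        · exact le_rfl
    _ = ((univ.filter fun u => g u = none ∧ G.Adj x u).card : ℝ) * κ := by
        rw [← Finset.sum_filter, Finset.sum_const, nsmul_eq_mul]
    _ ≤ (outSet G g).ncard * κ := mul_le_mul_of_nonneg_right (by exact_mod_cast h1) hκ

theorem omv_nonneg [Fintype V] (G : SimpleGraph V) (g : V → Option (Fin r)) (z : V → ℝ)
    (hz : ∀ v, 0 ≤ z v) (x : V) : 0 ≤ omv G g z x := by
  unfold omv
  refine Finset.sum_nonneg fun u _ => ?_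
  split_ifs
  · exact hz u
  · exact le_rfl

theorem cov_nonneg [Fintype V] (G : SimpleGraph V) (g : V → Option (Fin r)) (z : V → ℝ)
    (hz : ∀ v, 0 ≤ z v) (x : V) : 0 ≤ cov G g z x := by
  unfold cov
  refine Finset.sum_nonneg fun u _ => ?_
  split_ifs
  · exact hz u
  · exact le_rfl

theorem cov_le [Fintype V] (G : SimpleGraph V) (g : V → Option (Fin r)) (z : V → ℝ) {K : ℝ}
    (hz : ∀ v, g v ≠ none → z v ≤ K) (x : V) : cov G g z x ≤ K * cnb G g x := by
  classical
  unfold cov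
  rw [cnb_card]
  calc (∑ u, if g u ≠ none ∧ G.Adj x u then z u else 0)
      ≤ ∑ u, if g u ≠ none ∧ G.Adj x u then K else 0 := by
        refine Finset.sum_le_sum fun u _ => ?_
        split_ifs with h
        · exact hz u h.1
        · exact le_rfl
    _ = K * ((univ.filter fun u => g u ≠ none ∧ G.Adj x u).card : ℝ) := by
        rw [← Finset.sum_filter, Finset.sum_const, nsmul_eq_mul, mul_comm]

theorem le_cov [Fintype V] (G : SimpleGraph V) (g : V → Option (Fin r)) (z : V → ℝ) {K : ℝ}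
    (hz : ∀ v, g v ≠ none → K ≤ z v) (x : V) : K * cnb G g x ≤ cov G g z x := by
  classical
  unfold cov
  rw [cnb_card]
  calc K * ((univ.filter fun u => g u ≠ none ∧ G.Adj x u).card : ℝ)
      = ∑ u, if g u ≠ none ∧ G.Adj x u then K else 0 := by
        rw [← Finset.sum_filter, Finset.sum_const, nsmul_eq_mul, mul_comm]
    _ ≤ _ := by
        refine Finset.sum_le_sum fun u _ => ?_
        split_ifs with h
        · exact hz u h.1
        · exact le_rfl

theorem fin {k κ b q E X Y : ℝ} (hk0 : 0 ≤ k) (hk1 : k ≤ 1) (hκ : κ ≤ k)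
    (hbq : q ≤ b) (hq : 1 ≤ q) (hE0 : 0 ≤ E)
    (hX : (1 - k) * (b - q) ≤ X) (hY : (1 - k) * (q - 1) ≤ Y)
    (hm : X ^ 2 + Y ^ 2 ≤ (1 + k) ^ 2 * E + (1 + k) * (b * κ) * b)
    (hE : E ≤ (b - q) ^ 2 + (q - 1) ^ 2) :
    (b - q) ^ 2 + (q - 1) ^ 2 - E ≤ 7 * k * b ^ 2 := by
  have hb : 1 ≤ b := by linarith
  have h1 : ((1 - k) * (b - q)) ^ 2 ≤ X ^ 2 :=
    pow_le_pow_left₀ (mul_nonneg (by linarith) (by linarith)) hX 2
  have h2 : ((1 - k) * (q - 1)) ^ 2 ≤ Y ^ 2 :=
    pow_le_pow_left₀ (mul_nonneg (by linarith) (by linarith)) hY 2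
  obtain ⟨τ, hτ⟩ : ∃ τ : ℝ, τ = (b - q) ^ 2 + (q - 1) ^ 2 := ⟨_, rfl⟩
  rw [← hτ] at hE ⊢
  have h3 : (1 - k) ^ 2 * τ ≤ X ^ 2 + Y ^ 2 := by
    rw [hτ]
    calc (1 - k) ^ 2 * ((b - q) ^ 2 + (q - 1) ^ 2)
        = ((1 - k) * (b - q)) ^ 2 + ((1 - k) * (q - 1)) ^ 2 := by ring
      _ ≤ _ := add_le_add h1 h2
  have hτ0 : 0 ≤ τ := by rw [hτ]; positivity
  have hτb : τ ≤ b ^ 2 := by
    rw [hτ]
    have h4 : 0 ≤ (b - q) * (q - 1) := mul_nonneg (by linarith) (by linarith)
    nlinarith
  have h5 : (1 + k) * (b * κ) * b ≤ 2 * k * b ^ 2 := by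
    have h6 : κ * b ^ 2 ≤ k * b ^ 2 := mul_le_mul_of_nonneg_right hκ (by positivity)
    have h7 : (1 + k) * (κ * b ^ 2) ≤ (1 + k) * (k * b ^ 2) :=
      mul_le_mul_of_nonneg_left h6 (by linarith)
    have h8 : (1 + k) * (k * b ^ 2) ≤ 2 * (k * b ^ 2) :=
      mul_le_mul_of_nonneg_right (by linarith) (by positivity)
    calc (1 + k) * (b * κ) * b = (1 + k) * (κ * b ^ 2) := by ring
      _ ≤ 2 * (k * b ^ 2) := h7.trans h8
      _ = 2 * k * b ^ 2 := by ring
  have h9 : (1 + k) ^ 2 * E ≤ E + 3 * k * τ := by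
    have h10 : k * k ≤ k * 1 := mul_le_mul_of_nonneg_left hk1 hk0
    have h11 : (2 * k + k * k) * E ≤ (3 * k) * E := mul_le_mul_of_nonneg_right (by linarith) hE0
    have h12 : (3 * k) * E ≤ (3 * k) * τ := mul_le_mul_of_nonneg_left hE (by linarith)
    calc (1 + k) ^ 2 * E = E + (2 * k + k * k) * E := by ring
      _ ≤ E + 3 * k * τ := by linarith
  have h13 : τ - 2 * k * τ ≤ (1 - k) ^ 2 * τ := by
    have : 0 ≤ k ^ 2 * τ := by positivity
    calc τ - 2 * k * τ ≤ τ - 2 * k * τ + k ^ 2 * τ := by linarith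
      _ = (1 - k) ^ 2 * τ := by ring
  have h14 : 5 * k * τ ≤ 5 * k * b ^ 2 := mul_le_mul_of_nonneg_left hτb (by linarith)
  linarith

theorem exists_two [Fintype V] {g : V → Option (Fin r)} {t : Fin r} (h : 2 ≤ siz g t) (y : V) :
    ∃ v, g v = some t ∧ v ≠ y := by
  by_contra hcon
  push Not at hcon
  have h1 : {v | g v = some t} ⊆ {y} := by
    intro v hv
    exact hcon v hv
  have h2 := Set.ncard_le_ncard h1 (Set.toFinite _)
  rw [Set.ncard_singleton] at h2
  unfold siz at h
  omega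

theorem exists_one [Fintype V] {g : V → Option (Fin r)} {t : Fin r} (h : 1 ≤ siz g t) :
    ∃ v, g v = some t := by
  unfold siz at h
  obtain ⟨v, hv⟩ := (Set.ncard_pos (Set.toFinite _)).mp h
  exact ⟨v, hv⟩

/-- the choice of `A` and `v` -/
theorem choice [Fintype V] (g : V → Option (Fin r)) (hr : 3 ≤ r) {d : ℕ}
    (hs : ∀ t, d + 2 ≤ siz g t) (hd : r - 1 ≤ d) :
    ∃ (i : Fin r) (v : Fin r → V) (A : Finset V), (∀ x ∈ A, g x ≠ none ∧ g x ≠ some i) ∧
      (∀ t, t ≠ i → ∃ x ∈ A, g x = some t) ∧ (∀ t, g (v t) = some t) ∧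
      (∃ t, t ≠ i ∧ v t ∉ A) ∧ A.card = d := by
  classical
  have h1 : ∀ t, ∃ v, g v = some t := fun t => exists_one (by have := hs t; omega)
  choose y hy using h1
  obtain ⟨i, hi⟩ : ∃ i : Fin r, i = ⟨0, by omega⟩ := ⟨_, rfl⟩
  obtain ⟨t₀, ht₀⟩ : ∃ t₀ : Fin r, t₀ = ⟨1, by omega⟩ := ⟨_, rfl⟩
  have hti : t₀ ≠ i := by
    rw [hi, ht₀]
    simp
  obtain ⟨v₀, hv₀, hv₀'⟩ := exists_two (by have := hs t₀; omega : 2 ≤ siz g t₀) (y t₀)
  have hyi : Function.Injective y := by
    intro s t h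
    have := hy s
    rw [h, hy t] at this
    exact (Option.some_injective _ this).symm
  have hS : ((univ.filter fun t => t ≠ i).image y).card = r - 1 := by
    rw [Finset.card_image_of_injective _ hyi, Finset.filter_ne', Finset.card_erase_of_mem
      (Finset.mem_univ _), Finset.card_univ, Fintype.card_fin]
  have hST : (univ.filter fun t => t ≠ i).image y ⊆
      univ.filter fun x => g x ≠ none ∧ g x ≠ some i ∧ x ≠ v₀ := by
    intro x hx
    obtain ⟨t, ht, rfl⟩ := Finset.mem_image.1 hx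
    have hti' : t ≠ i := (Finset.mem_filter.1 ht).2
    refine Finset.mem_filter.2 ⟨Finset.mem_univ _, ?_, ?_, ?_⟩
    · rw [hy t]; simp
    · rw [hy t]; simpa using hti'
    · intro h
      have h2 := hy t
      rw [h, hv₀] at h2
      have h3 : t₀ = t := Option.some_injective _ h2
      rw [← h3] at h
      exact hv₀' h.symm
  have hT : d ≤ (univ.filter fun x => g x ≠ none ∧ g x ≠ some i ∧ x ≠ v₀).card := by
    have h2 : (univ.filter fun x => g x = some t₀).card = siz g t₀ := by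
      unfold siz
      rw [Set.ncard_eq_toFinset_card _ (Set.toFinite _)]
      congr 1
      ext x
      simp
    have h3 : (univ.filter fun x => g x = some t₀).erase v₀ ⊆
        univ.filter fun x => g x ≠ none ∧ g x ≠ some i ∧ x ≠ v₀ := by
      intro x hx
      obtain ⟨hx1, hx2⟩ := Finset.mem_erase.1 hx
      have hx3 := (Finset.mem_filter.1 hx2).2
      refine Finset.mem_filter.2 ⟨Finset.mem_univ _, ?_, ?_, hx1⟩
      · rw [hx3]; simp
      · rw [hx3]; simpa using hti
    have h4 := Finset.card_le_card h3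
    rw [Finset.card_erase_of_mem (by simp [hv₀]), h2] at h4
    have := hs t₀
    omega
  obtain ⟨A, hSA, hAT, hA⟩ := Finset.exists_subsuperset_card_eq hST (by rw [hS]; exact hd) hT
  refine ⟨i, Function.update y t₀ v₀, A, ?_, ?_, ?_, ⟨t₀, hti, ?_⟩, hA⟩
  · intro x hx
    have := (Finset.mem_filter.1 (hAT hx)).2
    exact ⟨this.1, this.2.1⟩
  · intro t ht
    exact ⟨y t, hSA (Finset.mem_image.2 ⟨t, by simp [ht], rfl⟩), hy t⟩
  · intro t
    by_cases h : t = t₀
    · rw [h, Function.update_self]; exact hv₀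
    · rw [Function.update_of_ne h]; exact hy t
  · rw [Function.update_self]
    intro h
    exact (Finset.mem_filter.1 (hAT h)).2.2.2 rfl

/-- the number of core neighbours of `u` in the comparison graph -/
theorem cnb_u [Fintype V] {H : SimpleGraph V} {g : V → Option (Fin r)} {u : V} {v : Fin r → V}
    {i : Fin r} (hv : ∀ t, g (v t) = some t)
    (hu : ∀ x, g x ≠ none → (H.Adj u x ↔ ∃ t, t ≠ i ∧ x = v t)) : cnb H g u = r - 1 := by
  classical
  have hvi : Function.Injective v := by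
    intro s t h
    have := hv s
    rw [h, hv t] at this
    exact (Option.some_injective _ this).symm
  rw [cnb_card]
  have h1 : (univ.filter fun x => g x ≠ none ∧ H.Adj u x)
      = (univ.filter fun t => t ≠ i).image v := by
    ext x
    simp only [Finset.mem_filter, Finset.mem_univ, true_and, Finset.mem_image]
    constructor
    · rintro ⟨h1, h2⟩
      obtain ⟨t, ht, hx⟩ := (hu x h1).1 h2
      exact ⟨t, ht, hx.symm⟩
    · rintro ⟨t, ht, rfl⟩
      have h1 : g (v t) ≠ none := by rw [hv t]; simp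
      exact ⟨h1, (hu _ h1).2 ⟨t, ht, rfl⟩⟩
  rw [h1, Finset.card_image_of_injective _ hvi, Finset.filter_ne', Finset.card_erase_of_mem
      (Finset.mem_univ _), Finset.card_univ, Fintype.card_fin]

theorem cnb_w [Fintype V] {H : SimpleGraph V} {g : V → Option (Fin r)} {w : V} {A : Finset V}
    (hA : ∀ x ∈ A, g x ≠ none) (hw : ∀ x, g x ≠ none → (H.Adj w x ↔ x ∈ A)) :
    cnb H g w = A.card := by
  classical
  rw [cnb_card]
  congr 1
  ext x
  simp only [Finset.mem_filter, Finset.mem_univ, true_and]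
  constructor
  · rintro ⟨h1, h2⟩
    exact (hw x h1).1 h2
  · intro h
    exact ⟨hA x h, (hw x (hA x h)).2 h⟩

open Classical in
theorem rhs_le (hCN : CNTU_statement) [Fintype V] (G : SimpleGraph V) (g : V → Option (Fin r))
    (hI : Indep G g) (z : V → ℝ) (hz : ∀ v, 0 ≤ z v) {k κ : ℝ} (hk : 0 ≤ k) (hκ : 0 ≤ κ)
    (h1 : ∀ v, g v ≠ none → z v ≤ 1 + k) (h2 : ∀ v, g v = none → z v ≤ κ) :
    (∑ x, if g x = none then cov G g z x ^ 2 + cov G g z x * omv G g z x else 0)
      ≤ (1 + k) ^ 2 * ((∑ x, if g x = none then cnb G g x ^ 2 else 0 : ℕ) : ℝ)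
        + (1 + k) * ((outSet G g).ncard * κ) * (outSet G g).ncard := by
  have hb : (0 : ℝ) ≤ (outSet G g).ncard := Nat.cast_nonneg _
  have h3 : ((∑ x, if g x = none then cnb G g x else 0 : ℕ) : ℝ) ≤ (outSet G g).ncard := by
    exact_mod_cast sum_cnb_le hCN G g hI
  calc (∑ x, if g x = none then cov G g z x ^ 2 + cov G g z x * omv G g z x else 0)
      ≤ ∑ x, ((1 + k) ^ 2 * (if g x = none then (cnb G g x : ℝ) ^ 2 else 0)
          + (1 + k) * ((outSet G g).ncard * κ) * (if g x = none then (cnb G g x : ℝ) else 0)) := by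
        refine Finset.sum_le_sum fun x _ => ?_
        split_ifs with h
        · have h4 := cov_le G g z h1 x
          have h5 := omv_le G g z hκ h2 x
          have h6 := cov_nonneg G g z hz x
          have h7 := omv_nonneg G g z hz x
          have h8 : cov G g z x ^ 2 ≤ ((1 + k) * cnb G g x) ^ 2 := pow_le_pow_left₀ h6 h4 2
          have h9 : cov G g z x * omv G g z x
              ≤ ((1 + k) * cnb G g x) * ((outSet G g).ncard * κ) :=
            mul_le_mul h4 h5 h7 (by positivity)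
          calc _ ≤ ((1 + k) * cnb G g x) ^ 2
                + ((1 + k) * cnb G g x) * ((outSet G g).ncard * κ) := add_le_add h8 h9
            _ = _ := by ring
        · simp
    _ = (1 + k) ^ 2 * ((∑ x, if g x = none then cnb G g x ^ 2 else 0 : ℕ) : ℝ)
        + (1 + k) * ((outSet G g).ncard * κ)
          * ((∑ x, if g x = none then cnb G g x else 0 : ℕ) : ℝ) := by
        rw [Finset.sum_add_distrib, ← Finset.mul_sum, ← Finset.mul_sum]
        push_cast
        rfl
    _ ≤ _ := by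
        have h10 : 0 ≤ (1 + k) * ((outSet G g).ncard * κ) := by positivity
        have := mul_le_mul_of_nonneg_left h3 h10
        linarith

/-- there is a second light vertex -/
theorem second [Fintype V] {G : SimpleGraph V} {g : V → Option (Fin r)} {w : V}
    (h : 1 ≤ (lightSet G g {w}).ncard) : ∃ u, g u = none ∧ w ≠ u := by
  by_contra hcon
  push Not at hcon
  have h1 : lightSet G g {w} = ∅ := by
    ext e
    simp only [lightSet, Set.mem_ofPred_eq, Set.mem_empty_iff_false, iff_false]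
    rintro ⟨_, v, _, h2, h3⟩
    exact h3 (by rw [Finset.mem_singleton]; exact (hcon v h2).symm)
  rw [h1, Set.ncard_empty] at h
  omega

theorem big {M : ℝ} {N n : ℕ} (hM : 1 ≤ M) (hN : M ^ 4 ≤ N) (hn : N ≤ n) :
    M ≤ Real.sqrt (Real.sqrt n) := by
  have h1 : (N : ℝ) ≤ n := by exact_mod_cast hn
  apply Real.le_sqrt_of_sq_le
  apply Real.le_sqrt_of_sq_le
  have h2 : (M ^ 2) ^ 2 = M ^ 4 := by ring
  rw [h2]
  exact hN.trans h1

end ItemRST

open ItemRST in
theorem prfRST : P_statement → CNTU_statement → FLU_statement → SWR_statement → RLE_statement →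
    RMB_statement → CLA_statement → RST_statement := by
  classical
  intro hP hCN hF hSW hRL hRM hCL r C hr hC
  obtain ⟨C₁, n₁, hC₁, h₁⟩ := hF r C hr hC
  obtain ⟨n₂, h₂⟩ := hSW r C hr hC
  obtain ⟨n₃, h₃⟩ := FNWx.num r C 3 hr hC (by norm_num)
  obtain ⟨n₄, hn₄⟩ := exists_nat_ge ((112 * C₁ * (r : ℝ) ^ 2 + 7 * C * C₁ + C₁ + 2) ^ 4)
  refine ⟨n₁ + n₂ + n₃ + n₄, ?_⟩
  intro V _ G g n m hn hM hNK ha
  obtain ⟨h3a, -, h3c⟩ := h₃ n (by omega)
  obtain ⟨h, hh⟩ : ∃ h : ℝ, h = Real.sqrt (Real.sqrt n) := ⟨_, rfl⟩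
  have hbig : 112 * C₁ * (r : ℝ) ^ 2 + 7 * C * C₁ + C₁ + 2 ≤ h := by
    rw [hh]
    refine big ?_ hn₄ (by omega)
    have : 0 ≤ 112 * C₁ * (r : ℝ) ^ 2 + 7 * C * C₁ + C₁ := by positivity
    linarith
  have hfew := hNK.few
  rw [ha] at hfew
  rw [← hh] at hfew h3a
  push_cast at hfew
  obtain ⟨b, hb⟩ : ∃ b : ℕ, b = (outSet G g).ncard := ⟨_, rfl⟩
  rw [← hb] at hfew
  rw [zero_add] at hfew
  have hsiz : ∀ t, 3 + 4 * b ≤ siz g t := by
    intro t
    have h1 := FNWx.siz_low hNK t
    have : ((3 + 4 * b : ℕ) : ℝ) ≤ siz g t := by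
      push_cast
      linarith
    exact_mod_cast this
  have hsiz1 : ∀ t, 1 ≤ siz g t := fun t => by have := hsiz t; omega
  obtain ⟨hb2, w, hw, -, -, hcase⟩ := hRL r b V G g hr hNK.indep ha hsiz1 hM.1.free
    hM.1.notPartite hM.1.noIso hb.symm
  have hcla := hCL r V G g w hr hNK.indep hw ha hsiz1 hM.1.free hM.1.notPartite hM.1.noIso
  rcases hcase with hl | ⟨hE1, hE2⟩
  · obtain ⟨u, v, i, h⟩ := hcla.2 hl
    exact ⟨w, u, v, i, h⟩
  exfalso
  obtain ⟨u, hu, hwu⟩ := second (by have := hcla.1; omega : 1 ≤ (lightSet G g {w}).ncard)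
  obtain ⟨i, v, A, hA1, hA2, hv, hA3, hAc⟩ := choice g hr (d := b - r)
    (fun t => by have := hsiz t; omega) (by omega)
  have hcnt := FNWx.cnt0 hCN G g hNK.indep
  rw [ha, hM.1.size, ← hb] at hcnt
  obtain ⟨H, hHI, hHm, hHwu, hHiso, hHw, hHu, hHl⟩ := hRM r m V G g w u v i A hr hM hw hu hwu
    hA1 hA2 (fun t _ => hv t) hA3 hsiz1 (by rw [hAc]; omega)
  obtain ⟨⟨z, hz⟩, hz2⟩ := h₁ V G g n (by omega) hNK
  obtain ⟨hz1, hz0, hlam, -⟩ := hz2 z hz
  have hmain := h₂ V G H z g w u n (by omega) hNK ha hHI hHm hw hu hwu hHwu hHiso hz hHl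
  obtain ⟨k, hk⟩ : ∃ k : ℝ, k = C₁ / Real.sqrt n := ⟨_, rfl⟩
  obtain ⟨κ, hκ⟩ : ∃ κ : ℝ, κ = C₁ * Real.sqrt (Real.sqrt n) / n := ⟨_, rfl⟩
  rw [← hk] at hz1
  rw [← hκ] at hz0
  rw [← hh] at hκ
  have hhs : h * h = Real.sqrt n := by rw [hh]; exact Real.mul_self_sqrt (Real.sqrt_nonneg _)
  have hn0 : (h * h) * (h * h) = n := by rw [hhs]; exact Real.mul_self_sqrt (Nat.cast_nonneg n)
  rw [← hhs] at hk
  rw [← hn0] at hκ
  have hr0 : (3 : ℝ) ≤ r := by exact_mod_cast hr
  have hM0 : 0 ≤ 112 * C₁ * (r : ℝ) ^ 2 := by positivity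
  have hM1 : 0 ≤ 7 * C * C₁ := by positivity
  have hh2 : 2 ≤ h := by linarith
  have hh0 : 0 < h := by linarith
  have hhh : 0 < h * h := by positivity
  have hk0 : 0 ≤ k := by rw [hk]; positivity
  have hκ0 : 0 ≤ κ := by rw [hκ]; positivity
  have hhle : h ≤ h * h := le_mul_of_one_le_left hh0.le (by linarith)
  have hk1 : k ≤ 1 := by
    rw [hk, div_le_one hhh]
    linarith
  have hκk : κ ≤ k := by
    rw [hκ, hk]
    rw [div_le_div_iff₀ (by positivity) hhh]
    calc C₁ * h * (h * h) ≤ C₁ * (h * h) * (h * h) := by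
          apply mul_le_mul_of_nonneg_right _ hhh.le
          exact mul_le_mul_of_nonneg_left hhle hC₁
      _ = C₁ * ((h * h) * (h * h)) := by ring
  have hup : ∀ v, g v ≠ none → z v ≤ 1 + k := fun v hv => by
    have := (abs_le.1 (hz1 v hv)).2
    linarith
  have hlow : ∀ v, g v ≠ none → 1 - k ≤ z v := fun v hv => by
    have := (abs_le.1 (hz1 v hv)).1
    linarith
  have hR := rhs_le hCN G g hNK.indep z hz.nonneg hk0 hκ0 hup hz0
  rw [← hb] at hR
  have hX := le_cov H g z hlow w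
  have hY := le_cov H g z hlow u
  rw [cnb_w (fun x hx => (hA1 x hx).1) hHw, hAc] at hX
  rw [cnb_u hv hHu] at hY
  have hbr : r ≤ b := by omega
  rw [Nat.cast_sub hbr] at hX
  rw [Nat.cast_sub (by omega : 1 ≤ r), Nat.cast_one] at hY
  have hX0 := cov_nonneg H g z hz.nonneg w
  have hY0 := cov_nonneg H g z hz.nonneg u
  have : Nonempty V := ⟨w⟩
  have hl0 := (hP V G).1
  have hXY : 0 ≤ 2 * (cov H g z w * cov H g z u) / lam G := by positivity
  have hbr' : (r : ℝ) ≤ b := by exact_mod_cast hbr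
  obtain ⟨E, hE⟩ : ∃ E : ℕ, E = ∑ x, if g x = none then cnb G g x ^ 2 else 0 := ⟨_, rfl⟩
  rw [← hE] at hR
  have hE1' : E + 1 ≤ (b - r) ^ 2 + (r - 1) ^ 2 := by
    rw [hE]
    convert hE1
  have hE1r : (E : ℝ) + 1 ≤ ((b : ℝ) - r) ^ 2 + ((r : ℝ) - 1) ^ 2 := by
    have h5 : ((E + 1 : ℕ) : ℝ) ≤ (((b - r) ^ 2 + (r - 1) ^ 2 : ℕ) : ℝ) := by exact_mod_cast hE1'
    push_cast at h5
    rw [Nat.cast_sub hbr, Nat.cast_sub (by omega : 1 ≤ r), Nat.cast_one] at h5
    exact h5
  have hfin := ItemRST.fin hk0 hk1 hκk hbr' (by linarith : (1 : ℝ) ≤ r) (Nat.cast_nonneg E) hX hY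
    (by linarith) (by linarith)
  have hb0 : (0 : ℝ) ≤ b := Nat.cast_nonneg b
  rcases lt_or_ge b (4 * r) with hlt | hge
  · have hlt' : (b : ℝ) ≤ 4 * r := by exact_mod_cast hlt.le
    have h5 : (b : ℝ) ^ 2 ≤ (4 * r) ^ 2 := pow_le_pow_left₀ hb0 hlt' 2
    have h6 : 7 * k * (b : ℝ) ^ 2 ≤ 7 * k * (4 * r) ^ 2 :=
      mul_le_mul_of_nonneg_left h5 (by linarith)
    have h7 : 7 * k * (4 * (r : ℝ)) ^ 2 < 1 := by
      rw [hk]
      have : 7 * (C₁ / (h * h)) * (4 * (r : ℝ)) ^ 2 = (112 * C₁ * (r : ℝ) ^ 2) / (h * h) := by ring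
      rw [this, div_lt_one hhh]
      linarith
    linarith
  · have hE2' : E + b ≤ (b - r) ^ 2 + (r - 1) ^ 2 := by
      rw [hE]
      convert hE2 hge
    have hE2r : (E : ℝ) + b ≤ ((b : ℝ) - r) ^ 2 + ((r : ℝ) - 1) ^ 2 := by
      have h5 : ((E + b : ℕ) : ℝ) ≤ (((b - r) ^ 2 + (r - 1) ^ 2 : ℕ) : ℝ) := by
        exact_mod_cast hE2'
      push_cast at h5
      rw [Nat.cast_sub hbr, Nat.cast_sub (by omega : 1 ≤ r), Nat.cast_one] at h5
      exact h5
    have hbpos : (0 : ℝ) < b := by linarith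
    have h6 : 7 * k * (b : ℝ) ^ 2 ≤ 7 * k * (C * h) * b := by
      have h7 : (b : ℝ) * b ≤ C * h * b := mul_le_mul_of_nonneg_right hfew hb0
      have h8 : 7 * k * ((b : ℝ) * b) ≤ 7 * k * (C * h * b) :=
        mul_le_mul_of_nonneg_left h7 (by linarith)
      calc 7 * k * (b : ℝ) ^ 2 = 7 * k * ((b : ℝ) * b) := by ring
        _ ≤ 7 * k * (C * h * b) := h8
        _ = 7 * k * (C * h) * b := by ring
    have h9 : 7 * k * (C * h) < 1 := by
      rw [hk]
      have : 7 * (C₁ / (h * h)) * (C * h) = (7 * C * C₁) / h := by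
        field_simp
      rw [this, div_lt_one hh0]
      linarith
    have h10 : 7 * k * (C * h) * b < 1 * b := mul_lt_mul_of_pos_right h9 hbpos
    linarith

end MP0c3a8f

end

section

/-!
# MP_0c3a8f_co, phase B: item SWR
-/

open Finset

namespace MP0c3a8f

namespace ItemSWR

open ItemSLB (ci ki mi ci_none ci_some ci_nonneg adj_comm adj_self adj_core)
open ItemSWS (Q mv Q_eq Q_add sum_core sum_class)

variable {V : Type} {r : ℕ}

/-- no missing pairs -/
theorem mi_zero [Fintype V] {G : SimpleGraph V} {g : V → Option (Fin r)}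
    (h : (missSet G g).ncard = 0) (u v : V) : mi G g u v = 0 := by
  refine if_neg fun hm => ?_
  have h1 : missSet G g = ∅ := (Set.ncard_eq_zero (Set.toFinite _)).1 h
  have h2 : s(u, v) ∈ missSet G g := ⟨u, v, rfl, hm.1, hm.2.1, hm.2.2.1, hm.2.2.2⟩
  rw [h1] at h2
  exact h2

theorem adj_c [Fintype V] {G : SimpleGraph V} {g : V → Option (Fin r)} (hI : Indep G g)
    (h : (missSet G g).ncard = 0) {u : V} {t : Fin r} (hu : g u = some t) (v : V) :
    adj G u v * ci g v = ci g v - ki g t v := by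
  rw [adj_core hI hu v, mi_zero h, sub_zero]

theorem ci_mul (g : V → Option (Fin r)) (v : V) : ci g v * ci g v = ci g v := by
  unfold ci; split_ifs <;> norm_num

theorem ki_ci (g : V → Option (Fin r)) (t : Fin r) (v : V) : ki g t v * ci g v = ki g t v := by
  unfold ki ci
  by_cases h : g v = some t
  · rw [if_pos h, if_neg (by rw [h]; exact Option.some_ne_none t)]; norm_num
  · rw [if_neg h, zero_mul]

/-- the product of the adjacency matrix with a vector on the core -/
theorem mv_core [Fintype V] {G : SimpleGraph V} {g : V → Option (Fin r)} (hI : Indep G g)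
    (h : (missSet G g).ncard = 0) (p : V → ℝ) {u : V} {t : Fin r} (hu : g u = some t) :
    mv (adj G) (fun v => ci g v * p v) u = ∑ v, ci g v * p v - ∑ v, ki g t v * p v := by
  unfold mv
  rw [← sum_sub_distrib]
  refine sum_congr rfl fun v _ => ?_
  have := adj_c hI h hu v
  linear_combination p v * this

/-- the quadratic form on the core -/
theorem Q_c [Fintype V] {G : SimpleGraph V} {g : V → Option (Fin r)} (hI : Indep G g)
    (h : (missSet G g).ncard = 0) (p : V → ℝ) :
    Q (adj G) (fun v => ci g v * p v) =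
      (∑ v, ci g v * p v) ^ 2 - ∑ t, (∑ v, ki g t v * p v) ^ 2 := by
  classical
  rw [Q_eq]
  have h1 : ∀ i, (ci g i * p i) * mv (adj G) (fun v => ci g v * p v) i =
      (ci g i * p i) * (∑ v, ci g v * p v) - ∑ t, (ki g t i * p i) * (∑ v, ki g t v * p v) := by
    intro i
    rcases hi : g i with _ | t
    · rw [ci_none hi, zero_mul, zero_mul, zero_mul, zero_sub, eq_comm, neg_eq_zero]
      refine sum_eq_zero fun t _ => ?_
      unfold ki
      rw [if_neg (by rw [hi]; exact (Option.some_ne_none t).symm)]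
      ring
    · rw [mv_core hI h p hi, ci_some (by rw [hi]; exact Option.some_ne_none t)]
      rw [sum_eq_single t]
      · have : ki g t i = 1 := if_pos hi
        rw [this]
        ring
      · intro s _ hs
        have : ki g s i = 0 := if_neg (by rw [hi]; intro h'; exact hs (Option.some.inj h').symm)
        rw [this]
        ring
      · intro h'; exact absurd (mem_univ t) h'
  rw [sum_congr rfl fun i _ => h1 i, sum_sub_distrib, ← sum_mul, sum_comm, ← sq]
  congr 1
  refine sum_congr rfl fun t _ => ?_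
  rw [← sum_mul, ← sq]

theorem siz_sum [Fintype V] (g : V → Option (Fin r)) (t : Fin r) :
    (siz g t : ℝ) = ∑ v, ki g t v ^ 2 := by
  classical
  rw [ItemKW3.siz_eq]
  refine sum_congr rfl fun v _ => ?_
  unfold ki
  by_cases h : g v = some t
  · rw [if_pos h]; norm_num
  · rw [if_neg h]; norm_num

/-- lower bound for the quadratic form on the core -/
theorem Q_ge [Fintype V] {G : SimpleGraph V} {g : V → Option (Fin r)} (hI : Indep G g)
    (h : (missSet G g).ncard = 0) {l : ℝ} (hs : ∀ t, (siz g t : ℝ) ≤ l) (p : V → ℝ) :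
    - (l * ∑ v, (ci g v * p v) ^ 2) ≤ Q (adj G) (fun v => ci g v * p v) := by
  classical
  rw [Q_c hI h]
  have h1 : ∀ t, (∑ v, ki g t v * p v) ^ 2 ≤ l * ∑ v, (ki g t v * p v) ^ 2 := by
    intro t
    have h2 : ∑ v, ki g t v * p v = ∑ v, ki g t v * (ki g t v * p v) := by
      refine sum_congr rfl fun v _ => ?_
      unfold ki
      split_ifs <;> ring
    rw [h2]
    refine (sum_mul_sq_le_sq_mul_sq _ _ _).trans ?_
    rw [← siz_sum]
    exact mul_le_mul_of_nonneg_right (hs t) (sum_nonneg fun v _ => sq_nonneg _)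
  have h2 : ∑ t, ∑ v, (ki g t v * p v) ^ 2 = ∑ v, (ci g v * p v) ^ 2 := by
    rw [sum_comm]
    refine sum_congr rfl fun v _ => ?_
    rcases hv : g v with _ | t
    · rw [ci_none hv, zero_mul]
      rw [sum_eq_zero]
      · norm_num
      intro t _
      unfold ki
      rw [if_neg (by rw [hv]; exact (Option.some_ne_none t).symm)]
      norm_num
    · rw [ci_some (by rw [hv]; exact Option.some_ne_none t)]
      rw [sum_eq_single t]
      · have : ki g t v = 1 := if_pos hv
        rw [this]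
      · intro s _ hs
        have : ki g s v = 0 := if_neg (by rw [hv]; intro h'; exact hs (Option.some.inj h').symm)
        rw [this]
        norm_num
      · intro h'; exact absurd (mem_univ t) h'
  have h3 : ∑ t, (∑ v, ki g t v * p v) ^ 2 ≤ l * ∑ v, (ci g v * p v) ^ 2 := by
    rw [← h2, mul_sum]
    exact sum_le_sum fun t _ => h1 t
  linarith [sq_nonneg (∑ v, ci g v * p v)]

theorem cov_eq [Fintype V] (G : SimpleGraph V) (g : V → Option (Fin r)) (z : V → ℝ) (v : V) :
    cov G g z v = ∑ u, adj G v u * (ci g u * z u) := by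
  classical
  unfold cov
  refine sum_congr rfl fun u _ => ?_
  by_cases h1 : g u = none
  · rw [ci_none h1, if_neg (fun h => h.1 h1)]; ring
  · rw [ci_some h1]
    unfold adj
    by_cases h2 : G.Adj v u
    · rw [if_pos ⟨h1, h2⟩, if_pos h2]; ring
    · rw [if_neg (fun h => h2 h.2), if_neg h2]; ring

theorem omv_eq [Fintype V] (G : SimpleGraph V) (g : V → Option (Fin r)) (z : V → ℝ) (v : V) :
    omv G g z v = ∑ u, adj G v u * ((1 - ci g u) * z u) := by
  classical
  unfold omv
  refine sum_congr rfl fun u _ => ?_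
  by_cases h1 : g u = none
  · rw [ci_none h1]
    unfold adj
    by_cases h2 : G.Adj v u
    · rw [if_pos ⟨h1, h2⟩, if_pos h2]; ring
    · rw [if_neg (fun h => h2 h.2), if_neg h2]; ring
  · rw [ci_some h1, if_neg (fun h => h1 h.1)]; ring

theorem cov_add_omv [Fintype V] {G : SimpleGraph V} {z : V → ℝ} {g : V → Option (Fin r)} {n : ℕ}
    (hz : Per G z g n) (v : V) : cov G g z v + omv G g z v = lam G * z v := by
  rw [cov_eq, omv_eq, ← sum_add_distrib, ← hz.eig v]
  exact sum_congr rfl fun u _ => by ring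

/-- the eigenvalue equation at a core vertex -/
theorem eig_c [Fintype V] {G : SimpleGraph V} {z : V → ℝ} {g : V → Option (Fin r)} {n : ℕ}
    (hI : Indep G g) (h : (missSet G g).ncard = 0) (hz : Per G z g n) {u : V} {t : Fin r}
    (hu : g u = some t) :
    ∑ v, ci g v * z v - ∑ v, ki g t v * z v = lam G * z u - omv G g z u := by
  rw [← cov_add_omv hz u, cov_eq, ← mv_core hI h z hu]
  unfold mv
  ring

open Classical in
theorem main [Fintype V] [Nonempty V] (hP : P_statement) {G H : SimpleGraph V} {z : V → ℝ}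
    {g : V → Option (Fin r)} {w u : V} {n : ℕ} (hI : Indep G g)
    (hm : (missSet G g).ncard = 0) (hIH : Indep H g) (hmH : (missSet H g).ncard = 0)
    (hw : g w = none) (hu : g u = none) (hwu : w ≠ u) (hA : H.Adj w u)
    (hz : Per G z g n) (hlam : lam H ≤ lam G) (hl : 0 < lam G)
    (hs : ∀ t, (siz g t : ℝ) ≤ lam G) :
    cov H g z w ^ 2 + cov H g z u ^ 2 + 2 * (cov H g z w * cov H g z u) / lam G
      ≤ ∑ x, if g x = none then cov G g z x ^ 2 + cov G g z x * omv G g z x else 0 := by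
  obtain ⟨l, hle⟩ : ∃ l, l = lam G := ⟨_, rfl⟩
  rw [← hle] at hlam hl hs ⊢
  obtain ⟨a, ha⟩ : ∃ a, a = cov H g z w / l := ⟨_, rfl⟩
  obtain ⟨b, hb⟩ : ∃ b, b = cov H g z u / l := ⟨_, rfl⟩
  have hal : l * a = cov H g z w := by rw [ha]; field_simp
  have hbl : l * b = cov H g z u := by rw [hb]; field_simp
  obtain ⟨om, hom⟩ : ∃ om : V → ℝ, om = omv G g z := ⟨_, rfl⟩
  obtain ⟨om', hom'⟩ : ∃ om' : V → ℝ, om' = fun v => a * adj H v w + b * adj H v u := ⟨_, rfl⟩
  obtain ⟨eta, heta⟩ : ∃ eta : V → ℝ, eta = fun v => (om' v - om v) / l := ⟨_, rfl⟩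
  obtain ⟨s, hsd⟩ : ∃ s : V → ℝ, s = fun v => a * (if v = w then 1 else 0) +
    b * (if v = u then 1 else 0) := ⟨_, rfl⟩
  have hle' : ∀ v, l * eta v = om' v - om v := by
    intro v; rw [heta]; show l * ((om' v - om v) / l) = _; field_simp
  -- the core part
  have hcw : ci g w = 0 := ci_none hw
  have hcu : ci g u = 0 := ci_none hu
  have hsc : ∀ v, ci g v * s v = 0 := by
    intro v
    rw [hsd]
    by_cases h1 : v = w
    · rw [h1, hcw, zero_mul]
    · by_cases h2 : v = u
      · rw [h2, hcu, zero_mul]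
      · show ci g v * (a * (if v = w then 1 else 0) + b * (if v = u then 1 else 0)) = 0
        rw [if_neg h1, if_neg h2]; ring
  have hsum_s : ∀ f : V → ℝ, ∑ v, s v * f v = a * f w + b * f u := by
    intro f
    rw [hsd]
    have : ∀ v, (a * (if v = w then (1 : ℝ) else 0) + b * (if v = u then 1 else 0)) * f v =
        (if v = w then a * f v else 0) + (if v = u then b * f v else 0) := by
      intro v
      split_ifs <;> ring
    rw [sum_congr rfl fun v _ => this v, sum_add_distrib, sum_ite_eq' univ w, sum_ite_eq' univ u,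
      if_pos (mem_univ _), if_pos (mem_univ _)]
  have hsymm : ∀ i j, adj H i j = adj H j i := adj_comm H
  -- quadratic form of the trial vector
  obtain ⟨y, hy⟩ : ∃ y : V → ℝ, y = fun v => ci g v * (z v + eta v) + s v := ⟨_, rfl⟩
  have hq := (hP V H).2.1 y
  have hq0 : qf H y = Q (adj H) y := rfl
  have e1 : Q (adj H) y = Q (adj H) (fun v => ci g v * (z v + eta v)) +
      2 * ∑ i, s i * mv (adj H) (fun v => ci g v * (z v + eta v)) i + Q (adj H) s := by
    rw [hy]; exact Q_add hsymm _ _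
  have e2 : Q (adj H) s = 2 * (a * b) := by
    rw [Q_eq, hsum_s]
    have h1 : mv (adj H) s w = b := by
      unfold mv
      have : ∀ j, adj H w j * s j = s j * adj H w j := fun j => mul_comm _ _
      rw [sum_congr rfl fun j _ => this j, hsum_s, adj_self]
      have : adj H w u = 1 := if_pos hA
      rw [this]; ring
    have h2 : mv (adj H) s u = a := by
      unfold mv
      have : ∀ j, adj H u j * s j = s j * adj H u j := fun j => mul_comm _ _
      rw [sum_congr rfl fun j _ => this j, hsum_s, adj_self]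
      have : adj H u w = 1 := if_pos hA.symm
      rw [this]; ring
    rw [h1, h2]; ring
  have e3 : ∑ i, s i * mv (adj H) (fun v => ci g v * (z v + eta v)) i =
      l * a ^ 2 + l * b ^ 2 + ∑ v, ci g v * (eta v * om' v) := by
    rw [hsum_s]
    have h1 : ∀ x, mv (adj H) (fun v => ci g v * (z v + eta v)) x = cov H g z x +
        ∑ v, adj H x v * (ci g v * eta v) := by
      intro x
      rw [cov_eq, ← sum_add_distrib]
      exact sum_congr rfl fun v _ => by ring
    rw [h1, h1, ← hal, ← hbl]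
    have h2 : ∑ v, ci g v * (eta v * om' v) = a * ∑ v, adj H w v * (ci g v * eta v) +
        b * ∑ v, adj H u v * (ci g v * eta v) := by
      rw [mul_sum, mul_sum, ← sum_add_distrib]
      refine sum_congr rfl fun v _ => ?_
      rw [hom']
      show ci g v * (eta v * (a * adj H v w + b * adj H v u)) = _
      rw [hsymm v w, hsymm v u]
      ring
    rw [h2]; ring
  -- product with the adjacency matrix on the core
  have hmv : ∀ v, ci g v * mv (adj H) (fun v => ci g v * z v) v =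
      ci g v * (l * z v - om v) := by
    intro v
    rcases hv : g v with _ | t
    · rw [ci_none hv, zero_mul, zero_mul]
    · rw [mv_core hIH hmH z hv, eig_c hI hm hz hv, hom, hle]
  have e4 : Q (adj H) (fun v => ci g v * (z v + eta v)) =
      ∑ v, ci g v * (z v * (l * z v - om v)) + 2 * ∑ v, ci g v * (eta v * (l * z v - om v)) +
        Q (adj H) (fun v => ci g v * eta v) := by
    have h1 : (fun v => ci g v * (z v + eta v)) = fun v => ci g v * z v + ci g v * eta v := by
      funext v; ring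
    rw [h1, Q_add hsymm (fun v => ci g v * z v) (fun v => ci g v * eta v), Q_eq (adj H)
      (fun v => ci g v * z v)]
    have h2 : ∑ i, (ci g i * z i) * mv (adj H) (fun v => ci g v * z v) i =
        ∑ v, ci g v * (z v * (l * z v - om v)) := by
      refine sum_congr rfl fun v _ => ?_
      have := hmv v
      linear_combination z v * this
    have h3 : ∑ i, (ci g i * eta i) * mv (adj H) (fun v => ci g v * z v) i =
        ∑ v, ci g v * (eta v * (l * z v - om v)) := by
      refine sum_congr rfl fun v _ => ?_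
      have := hmv v
      linear_combination eta v * this
    rw [h2, h3]
  have e5 : ∑ v, y v ^ 2 = ∑ v, ci g v * (z v + eta v) ^ 2 + a ^ 2 + b ^ 2 := by
    have h1 : ∀ v, y v ^ 2 = ci g v * (z v + eta v) ^ 2 + s v * s v := by
      intro v
      have h2 := hsc v
      have h3 := ci_mul g v
      rw [hy]
      show (ci g v * (z v + eta v) + s v) ^ 2 = _
      linear_combination (z v + eta v) ^ 2 * h3 + 2 * (z v + eta v) * h2
    rw [sum_congr rfl fun v _ => h1 v, sum_add_distrib, hsum_s]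
    have h2 : s w = a := by
      rw [hsd]; show a * (if w = w then 1 else 0) + b * (if w = u then 1 else 0) = a
      rw [if_pos rfl, if_neg hwu]; ring
    have h3 : s u = b := by
      rw [hsd]; show a * (if u = w then 1 else 0) + b * (if u = u then 1 else 0) = b
      rw [if_neg (Ne.symm hwu), if_pos rfl]; ring
    rw [h2, h3]; ring
  have e6 := Q_ge hIH hmH hs eta
  have hy0 : 0 ≤ ∑ v, y v ^ 2 := sum_nonneg fun v _ => sq_nonneg _
  have hq2 : Q (adj H) y ≤ l * ∑ v, y v ^ 2 := by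
    rw [← hq0]
    exact hq.trans (mul_le_mul_of_nonneg_right hlam hy0)
  -- the sum of all terms
  have e7 : l * ∑ v, (ci g v * eta v) ^ 2 = ∑ v, ci g v * (l * eta v ^ 2) := by
    rw [mul_sum]
    refine sum_congr rfl fun v _ => ?_
    have := ci_mul g v
    linear_combination l * eta v ^ 2 * this
  have e8 : ∑ v, ci g v * (z v * (l * z v - om v)) + 2 * ∑ v, ci g v * (eta v * (l * z v - om v)) +
      2 * ∑ v, ci g v * (eta v * om' v) - l * ∑ v, ci g v * (z v + eta v) ^ 2 =
      ∑ v, ci g v * (l * eta v ^ 2) - ∑ v, ci g v * (z v * om v) := by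
    rw [mul_sum, mul_sum, mul_sum, ← sum_add_distrib, ← sum_add_distrib, ← sum_sub_distrib,
      ← sum_sub_distrib]
    refine sum_congr rfl fun v _ => ?_
    have := hle' v
    linear_combination (-2) * ci g v * eta v * this
  have e9 : l * a ^ 2 + l * b ^ 2 + 2 * (a * b) ≤ ∑ v, ci g v * (z v * om v) := by
    rw [e1, e2, e3, e4, e5] at hq2
    rw [e7] at e6
    linarith
  -- the right hand side
  have e10 : l * ∑ v, ci g v * (z v * om v) =
      ∑ x, if g x = none then cov G g z x ^ 2 + cov G g z x * omv G g z x else 0 := by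
    have h1 : ∑ v, ci g v * (z v * om v) = ∑ x, (1 - ci g x) * (z x * cov G g z x) := by
      have h2 : ∀ v, ci g v * (z v * om v) =
          ∑ x, adj G v x * (ci g v * z v * ((1 - ci g x) * z x)) := by
        intro v
        rw [hom, omv_eq, mul_sum, mul_sum]
        exact sum_congr rfl fun x _ => by ring
      have h3 : ∀ x, (1 - ci g x) * (z x * cov G g z x) =
          ∑ v, adj G v x * (ci g v * z v * ((1 - ci g x) * z x)) := by
        intro x
        rw [cov_eq, mul_sum, mul_sum]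
        refine sum_congr rfl fun v _ => ?_
        rw [adj_comm G x v]
        ring
      rw [sum_congr rfl fun v _ => h2 v, sum_congr rfl fun x _ => h3 x, sum_comm]
    rw [h1, mul_sum]
    refine sum_congr rfl fun x _ => ?_
    by_cases hx : g x = none
    · rw [if_pos hx, ci_none hx]
      have := cov_add_omv hz x
      rw [← hle] at this
      linear_combination (-cov G g z x) * this
    · rw [if_neg hx, ci_some hx]; ring
  rw [← e10, ← hal, ← hbl]
  have e11 := mul_le_mul_of_nonneg_left e9 hl.le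
  have e12 : (l * a) ^ 2 + (l * b) ^ 2 + 2 * (l * a * (l * b)) / l =
      l * (l * a ^ 2 + l * b ^ 2 + 2 * (a * b)) := by
    field_simp
  rw [e12]
  exact e11

/-- the classes are small -/
theorem sizes {r n : ℕ} {C C1 l h : ℝ} (hr : 3 ≤ r) (hC : 0 ≤ C) (hC1 : 0 ≤ C1) {σ : Fin r → ℕ}
    (htot : ∑ t, σ t = n) (hdev : dev σ ≤ C * n) (hh : h ^ 4 = n) (hh0 : 0 ≤ h)
    (hT : 1 + 6 * C1 + 6 * (C + 1) ≤ h) (hl : |l - qq r * n| ≤ C1 * h) :
    0 < l ∧ ∀ t, (σ t : ℝ) ≤ l := by
  have hh1 : 1 ≤ h := by linarith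
  have hhp : 0 < h := by linarith
  have hn0 : (0 : ℝ) < n := by rw [← hh]; positivity
  have h3 : (3 : ℝ) ≤ r := by exact_mod_cast hr
  have h13 : 1 / (r : ℝ) ≤ 1 / 3 := one_div_le_one_div_of_le (by norm_num) h3
  have hq : 2 / 3 ≤ qq r := by unfold qq; linarith
  have h2 : h ≤ h ^ 2 := le_self_pow₀ hh1 two_ne_zero
  have h24 : h ^ 2 * h ^ 2 = n := by rw [← hh]; ring
  have hln : (n : ℝ) / 2 ≤ l := by
    have h5 := (abs_le.1 hl).1
    have h6 : 2 / 3 * (n : ℝ) ≤ qq r * n := mul_le_mul_of_nonneg_right hq hn0.le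
    have h7 : 6 * C1 * h ≤ n := by
      calc 6 * C1 * h ≤ h * h := mul_le_mul_of_nonneg_right (by linarith) hh0
        _ = h ^ 2 := by ring
        _ ≤ h ^ 4 := pow_le_pow_right₀ hh1 (by norm_num)
        _ = n := hh
    linarith
  refine ⟨by linarith, fun t => ?_⟩
  have h5 := ItemUB1.abs_le_sqrt_dev σ t
  have hsum : ∑ t, (σ t : ℝ) = n := by rw [← htot]; push_cast; rfl
  rw [hsum] at h5
  have h6 : Real.sqrt (dev σ) ≤ (C + 1) * h ^ 2 := by
    apply Real.sqrt_le_iff.2
    refine ⟨by positivity, hdev.trans ?_⟩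
    rw [mul_pow, ← h24]
    have : C ≤ (C + 1) ^ 2 := by nlinarith
    have h7 : 0 ≤ h ^ 2 * h ^ 2 := by positivity
    calc C * (h ^ 2 * h ^ 2) ≤ (C + 1) ^ 2 * (h ^ 2 * h ^ 2) := mul_le_mul_of_nonneg_right this h7
      _ = (C + 1) ^ 2 * (h ^ 2) ^ 2 := by ring
  have h7 : 6 * (C + 1) * h ^ 2 ≤ n := by
    rw [← h24]
    exact mul_le_mul_of_nonneg_right (by linarith) (by positivity)
  have h8 : (n : ℝ) / r ≤ n / 3 := by
    rw [div_eq_mul_one_div, div_eq_mul_one_div (n : ℝ) 3]
    exact mul_le_mul_of_nonneg_left h13 hn0.le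
  have h9 := (abs_le.1 h5).2
  linarith

end ItemSWR

theorem prfSWR : P_statement → FLU_statement → SWR_statement := by
  intro hP hFLU r C hr hC
  obtain ⟨C1, n1, hC1, hF⟩ := hFLU r C hr hC
  refine ⟨max n1 ⌈(1 + 6 * C1 + 6 * (C + 1)) ^ 4⌉₊, ?_⟩
  intro V _ G H z g w u n hn hG hm hIH hmH hw hu hwu hA _ hz hlam
  obtain ⟨-, hflu⟩ := hF V G g n (le_trans (le_max_left _ _) hn) hG
  obtain ⟨-, -, hlamG, -⟩ := hflu z hz
  have hTn : (1 + 6 * C1 + 6 * (C + 1)) ^ 4 ≤ n :=
    (Nat.le_ceil _).trans (by exact_mod_cast (le_trans (le_max_right _ _) hn))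
  obtain ⟨h, hh⟩ : ∃ h, h = Real.sqrt (Real.sqrt n) := ⟨_, rfl⟩
  have hsq : Real.sqrt n = h ^ 2 := by rw [hh]; exact (Real.sq_sqrt (Real.sqrt_nonneg _)).symm
  have hh4 : h ^ 4 = n := by
    have : h ^ 4 = (h ^ 2) ^ 2 := by ring
    rw [this, ← hsq]
    exact Real.sq_sqrt (Nat.cast_nonneg _)
  have hh0 : 0 ≤ h := by rw [hh]; exact Real.sqrt_nonneg _
  have hTh : 1 + 6 * C1 + 6 * (C + 1) ≤ h := by
    rw [← hh4] at hTn
    exact le_of_pow_le_pow_left₀ (by norm_num) hh0 hTn
  rw [← hh] at hlamG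
  obtain ⟨hl0, hs⟩ := ItemSWR.sizes hr hC hC1 hG.tot hG.dev hh4 hh0 hTh hlamG
  have : Nonempty V := ⟨w⟩
  exact ItemSWR.main hP hG.indep hm hIH hmH hw hu hwu hA hz hlam hl0 hs

end MP0c3a8f

end

section

/-!
# MP_0c3a8f_co, item CLQ: the final form of the theorem for complete graphs
-/

open Finset

namespace MP0c3a8f

namespace ItemCLQ

theorem n_large (hT : TURN_statement) {r : ℕ} (hr : 2 ≤ r) {n m : ℕ}
    (h : (SimpleGraph.turanGraph (2 * r) r).edgeSet.ncard ≤ m)
    (h' : m < (SimpleGraph.turanGraph (n + 1) r).edgeSet.ncard) : 2 * r ≤ n := by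
  by_contra hlt
  have hmono : Monotone (fun n => (SimpleGraph.turanGraph n r).edgeSet.ncard) :=
    monotone_nat_of_le_succ (fun n => ItemFINA.eT_le hT hr n)
  have h4 : n + 1 ≤ 2 * r := by omega
  have h5 := hmono h4
  simp only at h5
  omega

theorem mx_of_lam {V U : Type} [Fintype V] [Fintype U] {r m : ℕ} {G : SimpleGraph V}
    {G₀ : SimpleGraph U} (h : InN r m (⊤ : SimpleGraph (Fin (r + 1))) G) (h₀ : MxK r m G₀)
    (hl : lam G = lam G₀) : MxK r m G :=
  ⟨h, fun Y _ H hH => (h₀.2 Y H hH).trans hl.ge⟩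

end ItemCLQ

theorem prfCLQA : ISO_statement → TURN_statement → YCV_statement → YIN_statement →
    UNP_statement → UNQ_statement → UNR_statement → FINE_statement →
    ∀ (r : ℕ), 3 ≤ r → ∀ ε : ℝ, 0 < ε →
    (∃ N m₀ : ℕ, ∀ m ≥ m₀, ∃ n D : ℕ,
      (SimpleGraph.turanGraph n r).edgeSet.ncard + D = m ∧
      m < (SimpleGraph.turanGraph (n + 1) r).edgeSet.ncard ∧
      (∃ (k : ℕ) (G : SimpleGraph (Fin k)), MxK r m G) ∧
      (∀ (V : Type) [Fintype V] (G : SimpleGraph V), MxK r m G ↔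
        IsZ r n m G ∧ ∀ (U : Type) [Fintype U] (H : SimpleGraph U), IsZ r n m H →
          lam H ≤ lam G) ∧
      (N * Real.sqrt (Real.sqrt n) ≤ D →
        (D : ℝ) ≤ (1 - 2 / (r : ℝ) - ε) * ((1 - 1 / (r : ℝ)) * n) →
        (gap r n D ≤ -ε → ∀ (V : Type) [Fintype V] (G : SimpleGraph V), MxK r m G ↔
          G.edgeSet.ncard = m ∧ IsYR (fun t : Fin r => tz r n t) G) ∧
        (ε ≤ gap r n D → ∀ (V : Type) [Fintype V] (G : SimpleGraph V), MxK r m G ↔
          G.edgeSet.ncard = m ∧ IsYQ (fun t : Fin r => tz r n t) G))) ∧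
    ∀ (m : ℕ) (σ : Fin r → ℕ) (V U : Type) [Fintype V] [Fintype U] (G : SimpleGraph V)
      (H : SimpleGraph U), (∀ t, 2 ≤ σ t) → G.edgeSet.ncard = m → H.edgeSet.ncard = m →
      (IsYP σ G ∧ IsYP σ H) ∨ (IsYQ σ G ∧ IsYQ σ H) ∨ (IsYR σ G ∧ IsYR σ H) →
      lam G = lam H := by
  intro hISO hT hC hI hP hQ hR hF r hr ε hε
  have hiso : ∀ (m : ℕ) (σ : Fin r → ℕ) (V U : Type) [Fintype V] [Fintype U]
      (G : SimpleGraph V) (H : SimpleGraph U), (∀ t, 2 ≤ σ t) → G.edgeSet.ncard = m →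
      H.edgeSet.ncard = m → IsYQ σ G → IsYQ σ H → lam G = lam H := by
    intro m σ V U _ _ G H h2 hG hH h3 h4
    exact hISO _ _ G H (hQ r m σ V U G H hr h2 hG hH h3 h4)
  refine ⟨?_, ?_⟩
  · obtain ⟨N, m₀, h⟩ := hF r ε hr hε
    refine ⟨N, m₀ + (SimpleGraph.turanGraph (2 * r) r).edgeSet.ncard, fun m hm => ?_⟩
    obtain ⟨n, D, h1, h2, h3, h4, h5⟩ := h m (by omega)
    have hn : 2 * r ≤ n := ItemCLQ.n_large hT (by omega) (by omega : _ ≤ m) h2
    refine ⟨n, D, h1, h2, h3, h4, fun h6 h7 => ?_⟩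
    obtain ⟨h8, h9⟩ := h5 h6 h7
    obtain ⟨k, G₀, hG₀⟩ := h3
    constructor
    · intro hg V _ G
      have h10 := h8 hg
      obtain ⟨c1, -, -, c2⟩ := hC r n D (Fin k) G₀ hr hn
      obtain ⟨c3, c4⟩ := c2 ((h10 _ G₀).1 hG₀)
      constructor
      · intro hG
        obtain ⟨-, -, -, d2⟩ := hC r n D V G hr hn
        obtain ⟨d3, d4⟩ := d2 ((h10 _ G).1 hG)
        exact ⟨d3.trans h1, d4⟩
      · rintro ⟨hm', hG⟩
        refine ItemCLQ.mx_of_lam (hI r m (fun t => tz r n t) V G hr ⟨c1, hm', Or.inr (Or.inr hG)⟩)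
          hG₀ ?_
        exact hR r m (fun t => tz r n t) V (Fin k) G G₀ hr c1 hm' (c3.trans h1) hG c4
    · intro hg V _ G
      have h10 := h9 hg
      obtain ⟨c1, -, c2, -⟩ := hC r n D (Fin k) G₀ hr hn
      obtain ⟨c3, c4⟩ := c2 ((h10 _ G₀).1 hG₀)
      constructor
      · intro hG
        obtain ⟨-, -, d2, -⟩ := hC r n D V G hr hn
        obtain ⟨d3, d4⟩ := d2 ((h10 _ G).1 hG)
        exact ⟨d3.trans h1, d4⟩
      · rintro ⟨hm', hG⟩
        refine ItemCLQ.mx_of_lam (hI r m (fun t => tz r n t) V G hr ⟨c1, hm', Or.inr (Or.inl hG)⟩)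
          hG₀ ?_
        exact hiso m (fun t => tz r n t) V (Fin k) G G₀ c1 hm' (c3.trans h1) hG c4
  · intro m σ V U _ _ G H h2 hG hH h
    rcases h with ⟨h3, h4⟩ | ⟨h3, h4⟩ | ⟨h3, h4⟩
    · exact hP r m σ V U G H hr hG hH h3 h4
    · exact hiso m σ V U G H h2 hG hH h3 h4
    · exact hR r m σ V U G H hr h2 hG hH h3 h4

end MP0c3a8f

end
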