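import Pool.Agent.Work.MP_0c3a8f_co.PB.Stmts8
import Pool.Agent.Work.MP_0c3a8f_co.PB.ItemSWS
import Pool.Agent.Work.MP_0c3a8f_co.PB.Stmts9
import Pool.Agent.Work.MP_0c3a8f_co.PB.ItemPEV
import Pool.Agent.Work.MP_0c3a8f_co.PB.Stmts10
import Pool.Agent.Work.MP_0c3a8f_co.Bd.B06

/-! Bundle of small proof modules (one section per former module). -/

section

/-!
# MP_0c3a8f_co, phase B: item SWZ
-/

open Finset

namespace MP0c3a8f

namespace ItemSWZ

open ItemSLB (ci ki mi ci_none ci_some ci_nonneg ci_le ci_sq mi_nonneg adj_comm adj_self adj_core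
  dc dl e1 e2 dc_nonneg dl_nonneg sum_mi light_eq dc_le dl_le e1_nonneg e2_nonneg)
open ItemSWS (Q mv Q_eq Q_add Q_le Q_le_one mi_symm mi_none mi_none' mdeg_le light_out La
  La_nonneg La_sum eig_core sum_core sum_class miss_eq Q_core mv_nonneg mv_le mdeg_sum)

/-! ### linear algebra -/

/-- the exact identity of the second order -/
theorem core {V : Type} [Fintype V] {K M M' : V → V → ℝ} {zc mu mu' om om' rho eta : V → ℝ}
    {l tau mG mH S2 SL : ℝ} (hl : 0 < l)
    (hK : ∀ i j, K i j = K j i) (hM : ∀ i j, M i j = M j i) (hM' : ∀ i j, M' i j = M' j i)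
    (hKz : ∀ i, mv K zc i = l * zc i + mu i - om i)
    (hmu : ∀ i, mv M zc i = mu i) (hmu' : ∀ i, mv M' zc i = mu' i)
    (hom' : ∑ i, om' i * zc i = l * tau ^ 2)
    (hzom : l * ∑ i, zc i * om i = S2 + SL)
    (hrho : ∀ i, l * rho i = mu i - om i)
    (heta : ∀ i, l * eta i = mu i - mu' i + om' i - om i)
    (hF : Q K (fun v => zc v + eta v) - Q M' (fun v => zc v + eta v) +
      2 * ∑ i, om' i * (zc i + eta i) ≤ l * (∑ i, (zc i + eta i) ^ 2 + tau ^ 2))
    (hG : Q M (fun v => zc v + rho v) = mG / l ^ 2)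
    (hH : Q M' (fun v => zc v + rho v) = mH / l ^ 2) :
    (mG - mH) / l + (∑ v, mu' v ^ 2 - ∑ v, mu v ^ 2) + ((l * tau) ^ 2 - S2) ≤
      2 * ∑ v, (mu' v - mu v) * om' v - ∑ v, (om' v - om v) ^ 2 + SL +
        l * (Q M rho - Q M' rho - Q K eta + Q M' eta) := by
  have e1 := Q_add hK zc eta
  have e2 := Q_add hM' zc eta
  have e3 := Q_add hM zc rho
  have e4 := Q_add hM' zc rho
  have f1 := Q_eq K zc
  have f2 := Q_eq M' zc
  have f3 := Q_eq M zc
  simp only [hKz, hmu, hmu'] at e1 e2 e3 e4 f1 f2 f3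
  have s1 : ∑ i, zc i * (l * zc i + mu i - om i) =
      l * ∑ i, zc i ^ 2 + ∑ i, zc i * mu i - ∑ i, zc i * om i := by
    rw [mul_sum, ← sum_add_distrib, ← sum_sub_distrib]
    exact sum_congr rfl fun i _ => by ring
  have s2 : ∑ i, eta i * (l * zc i + mu i - om i) - ∑ i, eta i * mu' i + ∑ i, om' i * eta i =
      l * ∑ i, eta i * zc i + l * ∑ i, eta i ^ 2 := by
    rw [mul_sum, mul_sum, ← sum_sub_distrib, ← sum_add_distrib, ← sum_add_distrib]
    refine sum_congr rfl fun i _ => ?_
    linear_combination -eta i * heta i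
  have s3 : ∑ i, (zc i + eta i) ^ 2 =
      ∑ i, zc i ^ 2 + 2 * ∑ i, eta i * zc i + ∑ i, eta i ^ 2 := by
    rw [mul_sum, ← sum_add_distrib, ← sum_add_distrib]
    exact sum_congr rfl fun i _ => by ring
  have s4 : ∑ i, om' i * (zc i + eta i) = l * tau ^ 2 + ∑ i, om' i * eta i := by
    rw [← hom', ← sum_add_distrib]
    exact sum_congr rfl fun i _ => by ring
  have s5 : l ^ 2 * ∑ i, eta i ^ 2 - 2 * (l * (∑ i, rho i * mu i - ∑ i, rho i * mu' i)) =
      ∑ v, mu' v ^ 2 - ∑ v, mu v ^ 2 - 2 * ∑ v, (mu' v - mu v) * om' v +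
        ∑ v, (om' v - om v) ^ 2 := by
    rw [← sum_sub_distrib, mul_sum, mul_sum, mul_sum, mul_sum, ← sum_sub_distrib,
      ← sum_sub_distrib, ← sum_sub_distrib, ← sum_add_distrib]
    refine sum_congr rfl fun i _ => ?_
    have h1 := hrho i
    have h2 := heta i
    linear_combination (l * eta i + (mu i - mu' i + om' i - om i)) * h2 -
      2 * (mu i - mu' i) * h1
  rw [f1, s1] at e1
  rw [f2] at e2 e4
  rw [f3, hG] at e3
  rw [hH] at e4
  rw [e1, e2, s3, s4] at hF
  -- the inequality `D ≤ 0`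
  have hD : ∑ i, zc i * mu i - ∑ i, zc i * mu' i - ∑ i, zc i * om i + l * ∑ i, eta i ^ 2 +
      l * tau ^ 2 + Q K eta - Q M' eta ≤ 0 := by
    linarith
  have hD2 := mul_le_mul_of_nonneg_left hD hl.le
  rw [mul_zero] at hD2
  have g1 : l * ∑ i, zc i * mu i = mG / l - 2 * (l * ∑ i, rho i * mu i) - l * Q M rho := by
    have h1 : ∑ i, zc i * mu i = mG / l ^ 2 - 2 * ∑ i, rho i * mu i - Q M rho := by linarith
    rw [h1]
    field_simp
  have g2 : l * ∑ i, zc i * mu' i = mH / l - 2 * (l * ∑ i, rho i * mu' i) - l * Q M' rho := by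
    have h1 : ∑ i, zc i * mu' i = mH / l ^ 2 - 2 * ∑ i, rho i * mu' i - Q M' rho := by linarith
    rw [h1]
    field_simp
  have g3 : l * (∑ i, zc i * mu i - ∑ i, zc i * mu' i - ∑ i, zc i * om i + l * ∑ i, eta i ^ 2 +
      l * tau ^ 2 + Q K eta - Q M' eta) = l * ∑ i, zc i * mu i - l * ∑ i, zc i * mu' i -
        l * ∑ i, zc i * om i + l ^ 2 * ∑ i, eta i ^ 2 + (l * tau) ^ 2 + l * Q K eta -
          l * Q M' eta := by ring
  rw [g3, g1, g2, hzom] at hD2
  have g4 : (mG - mH) / l = mG / l - mH / l := sub_div _ _ _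
  rw [g4]
  linarith

/-! ### graphs -/

section graphs

variable {V : Type} {r : ℕ}

open Classical in
/-- adjacency matrix of the complete core -/
noncomputable def AK (g : V → Option (Fin r)) (u v : V) : ℝ :=
  if g u ≠ none ∧ g v ≠ none ∧ g u ≠ g v then 1 else 0

theorem AK_symm (g : V → Option (Fin r)) (u v : V) : AK g u v = AK g v u := by
  unfold AK
  by_cases h : g u ≠ none ∧ g v ≠ none ∧ g u ≠ g v
  · rw [if_pos h, if_pos ⟨h.2.1, h.1, h.2.2.symm⟩]
  · rw [if_neg h, if_neg fun h' => h ⟨h'.2.1, h'.1, h'.2.2.symm⟩]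

theorem AK_nonneg (g : V → Option (Fin r)) (u v : V) : 0 ≤ AK g u v := by
  unfold AK; split_ifs <;> norm_num

theorem AK_le (g : V → Option (Fin r)) (u v : V) : AK g u v ≤ 1 := by
  unfold AK; split_ifs <;> norm_num

theorem AK_none {g : V → Option (Fin r)} {u : V} (hu : g u = none) (v : V) : AK g u v = 0 :=
  if_neg fun h => h.1 hu

theorem AK_class {g : V → Option (Fin r)} {u : V} {t : Fin r} (hu : g u = some t) (v : V) :
    AK g u v = ci g v - ki g t v := by
  have hu0 : g u ≠ none := by rw [hu]; exact Option.some_ne_none t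
  unfold AK ci ki
  by_cases hv : g v = none
  · have h1 : ¬ g v = some t := by rw [hv]; exact (Option.some_ne_none t).symm
    rw [if_neg fun h => h.2.1 hv, if_pos hv, if_neg h1]
    ring
  · by_cases hvt : g v = some t
    · rw [if_neg fun h => h.2.2 (by rw [hu, hvt]), if_neg hv, if_pos hvt]
      ring
    · rw [if_pos ⟨hu0, hv, fun h => hvt (by rw [← h, hu])⟩, if_neg hv, if_neg hvt]
      ring

theorem adj_AK {H : SimpleGraph V} {g : V → Option (Fin r)} (hI : Indep H g) {u v : V}
    (hu : g u ≠ none) (hv : g v ≠ none) : adj H u v = AK g u v - mi H g u v := by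
  obtain ⟨t, ht⟩ := Option.ne_none_iff_exists'.1 hu
  have h1 := adj_core hI ht v
  rw [ci_some hv, mul_one] at h1
  rw [AK_class ht, ci_some hv, h1]

variable [Fintype V]

theorem cov_eq (G : SimpleGraph V) (g : V → Option (Fin r)) (z : V → ℝ) (v : V) :
    cov G g z v = ∑ u, adj G v u * (ci g u * z u) := by
  unfold cov
  refine sum_congr rfl fun u _ => ?_
  unfold adj
  by_cases hu : g u = none
  · rw [if_neg fun h => h.1 hu, ci_none hu]; ring
  · by_cases hA : G.Adj v u
    · rw [if_pos ⟨hu, hA⟩, ci_some hu, if_pos hA]; ring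
    · rw [if_neg fun h => hA h.2, if_neg hA]; ring

theorem omv_eq (G : SimpleGraph V) (g : V → Option (Fin r)) (z : V → ℝ) (v : V) :
    omv G g z v = ∑ u, adj G v u * ((1 - ci g u) * z u) := by
  unfold omv
  refine sum_congr rfl fun u _ => ?_
  unfold adj
  by_cases hu : g u = none
  · by_cases hA : G.Adj v u
    · rw [if_pos ⟨hu, hA⟩, ci_none hu, if_pos hA]; ring
    · rw [if_neg fun h => hA h.2, if_neg hA]; ring
  · rw [if_neg fun h => hu h.1, ci_some hu]; ring

theorem muv_eq (G : SimpleGraph V) (g : V → Option (Fin r)) (z : V → ℝ) (v : V) :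
    muv G g z v = mv (mi G g) z v := by
  unfold muv mv
  refine sum_congr rfl fun u _ => ?_
  by_cases h : COMPU.Ms G g v u
  · have h1 : mi G g v u = 1 := if_pos h
    rw [if_pos ⟨h.1, h.2.1, h.2.2.1.symm, h.2.2.2⟩, h1, one_mul]
  · have h1 : mi G g v u = 0 := if_neg h
    rw [if_neg fun h' => h ⟨h'.1, h'.2.1, h'.2.2.1.symm, h'.2.2.2⟩, h1, zero_mul]

theorem La_eq (G : SimpleGraph V) (g : V → Option (Fin r)) (z : V → ℝ) (v : V) :
    La G g z v = ci g v * omv G g z v := by
  rw [omv_eq]; rfl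

theorem eig_split {G : SimpleGraph V} {g : V → Option (Fin r)} {z : V → ℝ} {n : ℕ}
    (hz : Per G z g n) (v : V) : lam G * z v = cov G g z v + omv G g z v := by
  rw [cov_eq, omv_eq, ← hz.eig v, ← sum_add_distrib]
  exact sum_congr rfl fun u _ => by ring

/-- `∑ z om` over the core -/
theorem sum_zom {G : SimpleGraph V} {g : V → Option (Fin r)} {z : V → ℝ} {n : ℕ}
    (hz : Per G z g n) : lam G * ∑ i, (ci g i * z i) * La G g z i =
      ∑ v, (1 - ci g v) * cov G g z v ^ 2 +
        ∑ v, (1 - ci g v) * (cov G g z v * omv G g z v) := by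
  have h1 : ∑ i, (ci g i * z i) * La G g z i = ∑ v, (1 - ci g v) * (z v * cov G g z v) := by
    have h2 : ∀ i, (ci g i * z i) * La G g z i =
        ∑ v, (1 - ci g v) * (z v * (adj G v i * (ci g i * z i))) := by
      intro i
      rw [La_eq, omv_eq, mul_sum, mul_sum]
      refine sum_congr rfl fun v _ => ?_
      have h3 := ci_sq g i
      rw [adj_comm G v i]
      linear_combination (z i * adj G i v * (1 - ci g v) * z v) * h3
    rw [sum_congr rfl fun i _ => h2 i, sum_comm]
    refine sum_congr rfl fun v _ => ?_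
    rw [cov_eq, mul_sum, mul_sum]
  rw [h1, mul_sum, ← sum_add_distrib]
  refine sum_congr rfl fun v _ => ?_
  have h4 := eig_split hz v
  linear_combination ((1 - ci g v) * cov G g z v) * h4

theorem dl_core (G : SimpleGraph V) (g : V → Option (Fin r)) {u : V} (hu : g u ≠ none) :
    dl G g u ≤ e1 G g := by
  unfold dl e1
  refine sum_le_sum fun v _ => ?_
  rw [adj_comm G u v, mul_comm]
  refine mul_le_mul_of_nonneg_left ?_ (ci_le g v)
  have h := single_le_sum (f := fun w => adj G v w * ci g w)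
    (fun i _ => mul_nonneg (ItemKW3.adj_nonneg G v i) (ci_nonneg g i)) (mem_univ u)
  simp only [ci_some hu, mul_one] at h
  exact h

/-- the numbers of outer edges -/
theorem out_eq (G : SimpleGraph V) (g : V → Option (Fin r)) :
    2 * ((outSet G g).ncard : ℝ) = 2 * e1 G g + e2 G g := by
  rw [← light_out]; exact light_eq G g

theorem e1_le (G : SimpleGraph V) (g : V → Option (Fin r)) :
    e1 G g ≤ (outSet G g).ncard := by
  have h1 := out_eq G g
  have h2 := e2_nonneg G g
  linarith

theorem deg_le (G : SimpleGraph V) (g : V → Option (Fin r)) {v : V} (hv : g v = none) :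
    dc G g v + dl G g v ≤ (outSet G g).ncard := by
  have h1 := out_eq G g
  have h2 := dc_le G g hv
  have h3 := dl_le G g hv
  linarith

/-- the weight of a light vertex -/
theorem light_le {G : SimpleGraph V} {g : V → Option (Fin r)} {z : V → ℝ} {n : ℕ}
    (hz : Per G z g n) (hl : 0 < lam G) (h2 : ∀ v, z v ≤ 2) {v : V} (hv : g v = none) :
    z v ≤ 2 * (outSet G g).ncard / lam G := by
  rw [le_div_iff₀ hl, mul_comm, ← hz.eig v]
  have h1 : ∑ u, adj G v u * z u ≤ 2 * (dc G g v + dl G g v) := by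
    unfold dc dl
    rw [← sum_add_distrib, mul_sum]
    refine sum_le_sum fun u _ => ?_
    have := mul_le_mul_of_nonneg_left (h2 u) (ItemKW3.adj_nonneg G v u)
    linarith
  have h3 := deg_le G g hv
  linarith

theorem cov_nonneg (G : SimpleGraph V) (g : V → Option (Fin r)) {z : V → ℝ} (hz : ∀ v, 0 ≤ z v)
    (v : V) : 0 ≤ cov G g z v := by
  rw [cov_eq]
  exact sum_nonneg fun u _ => mul_nonneg (ItemKW3.adj_nonneg G v u)
    (mul_nonneg (ci_nonneg g u) (hz u))

theorem omv_nonneg (G : SimpleGraph V) (g : V → Option (Fin r)) {z : V → ℝ} (hz : ∀ v, 0 ≤ z v)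
    (v : V) : 0 ≤ omv G g z v := by
  rw [omv_eq]
  exact sum_nonneg fun u _ => mul_nonneg (ItemKW3.adj_nonneg G v u)
    (mul_nonneg (ci_le g u) (hz u))

theorem cov_le (G : SimpleGraph V) (g : V → Option (Fin r)) {z : V → ℝ} (h2 : ∀ v, z v ≤ 2)
    (v : V) : cov G g z v ≤ 2 * dc G g v := by
  rw [cov_eq]
  unfold dc
  rw [mul_sum]
  refine sum_le_sum fun u _ => ?_
  have := mul_le_mul_of_nonneg_left (h2 u)
    (mul_nonneg (ItemKW3.adj_nonneg G v u) (ci_nonneg g u))
  linarith

theorem omv_le (G : SimpleGraph V) (g : V → Option (Fin r)) {z : V → ℝ} {c : ℝ}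
    (hc : ∀ v, g v = none → z v ≤ c) (v : V) : omv G g z v ≤ c * dl G g v := by
  rw [omv_eq]
  unfold dl
  rw [mul_sum]
  refine sum_le_sum fun u _ => ?_
  by_cases hu : g u = none
  · rw [ci_none hu]
    have := mul_le_mul_of_nonneg_left (hc u hu) (ItemKW3.adj_nonneg G v u)
    linarith
  · rw [ci_some hu]; simp


end graphs

/-! ### the estimates -/

theorem realE {l a a' b b' s T1 T2 q q' e e' : ℝ} (hl : 0 < l) (ha : 0 ≤ a) (ha' : 0 ≤ a')
    (hb : 0 ≤ b) (hb' : 0 ≤ b') (hs : s = a + a' + b + b' + 1)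
    (h1 : T1 ≤ 2 * a' * (2 * b' ^ 2 / l)) (h2 : T2 ≤ 4 * b ^ 3 / l)
    (hq : |q| ≤ 2 * a * (2 * s / l) ^ 2) (hq' : |q'| ≤ 2 * a' * (2 * s / l) ^ 2)
    (he : |e| ≤ (4 * s / l) ^ 2) (he' : |e'| ≤ 2 * a' * (2 * s / l) ^ 2) :
    2 * T1 + T2 + l * (q - q' - e + e') ≤ 52 * s ^ 3 / l := by
  have hq1 := (abs_le.1 hq).2
  have hq2 := (abs_le.1 hq').1
  have he1 := (abs_le.1 he).1
  have he2 := (abs_le.1 he').2
  have hs1 : 1 ≤ s := by rw [hs]; linarith
  have hs0 : 0 ≤ s := by linarith
  have hbs : b ≤ s := by rw [hs]; linarith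
  have hbs' : b' ≤ s := by rw [hs]; linarith
  have has : a ≤ s := by rw [hs]; linarith
  have has' : a' ≤ s := by rw [hs]; linarith
  have k1 : q - q' - e + e' ≤ (8 * a * s ^ 2 + 16 * a' * s ^ 2 + 16 * s ^ 2) / l ^ 2 := by
    have e1 : (8 * a * s ^ 2 + 16 * a' * s ^ 2 + 16 * s ^ 2) / l ^ 2 =
        2 * a * (2 * s / l) ^ 2 + 2 * a' * (2 * s / l) ^ 2 + (4 * s / l) ^ 2 +
          2 * a' * (2 * s / l) ^ 2 := by
      field_simp
      ring
    rw [e1]
    linarith
  have k2 : l * (q - q' - e + e') ≤ (8 * a * s ^ 2 + 16 * a' * s ^ 2 + 16 * s ^ 2) / l := by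
    refine (mul_le_mul_of_nonneg_left k1 hl.le).trans (le_of_eq ?_)
    field_simp
  have k3 : 2 * T1 + T2 + l * (q - q' - e + e') ≤
      (8 * a' * b' ^ 2 + 4 * b ^ 3 + (8 * a * s ^ 2 + 16 * a' * s ^ 2 + 16 * s ^ 2)) / l := by
    have e1 : (8 * a' * b' ^ 2 + 4 * b ^ 3 + (8 * a * s ^ 2 + 16 * a' * s ^ 2 + 16 * s ^ 2)) / l =
        2 * (2 * a' * (2 * b' ^ 2 / l)) + 4 * b ^ 3 / l +
          (8 * a * s ^ 2 + 16 * a' * s ^ 2 + 16 * s ^ 2) / l := by
      field_simp
      ring
    rw [e1]
    linarith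
  refine k3.trans (div_le_div_of_nonneg_right ?_ hl.le)
  have m1 : a' * b' ^ 2 ≤ s * s ^ 2 :=
    mul_le_mul has' (pow_le_pow_left₀ hb' hbs' 2) (by positivity) hs0
  have m2 : b ^ 3 ≤ s ^ 3 := pow_le_pow_left₀ hb hbs 3
  have m3 : a * s ^ 2 ≤ s * s ^ 2 := mul_le_mul_of_nonneg_right has (sq_nonneg s)
  have m4 : a' * s ^ 2 ≤ s * s ^ 2 := mul_le_mul_of_nonneg_right has' (sq_nonneg s)
  have m5 : s ^ 2 ≤ s ^ 3 := pow_le_pow_right₀ hs1 (by norm_num)
  have m6 : s * s ^ 2 = s ^ 3 := by ring
  rw [m6] at m1 m3 m4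
  linarith

/-- the comparison -/
theorem main {V : Type} [Fintype V] [Nonempty V] {r : ℕ} (hP : P_statement)
    {G H : SimpleGraph V} {z : V → ℝ} {g : V → Option (Fin r)} {w : V} {n : ℕ} {k s : ℝ}
    (hG : Indep G g) (hH : Indep H g) (hw : g w = none)
    (hz : Per G z g n) (hlam : lam H ≤ lam G) (hk1 : k ≤ 1)
    (hc : ∀ v, g v ≠ none → |z v - 1| ≤ k) (hlt : ∀ v, g v = none → z v ≤ 2)
    (hl0 : 0 < lam G)
    (hss : s = ((missSet G g).ncard : ℝ) + (missSet H g).ncard + (outSet G g).ncard +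
      (outSet H g).ncard + 1) (hs : s ^ 2 ≤ lam G) :
    (miss G (fun v => (n : ℝ) - cw z g (g v)) g - miss H (fun v => (n : ℝ) - cw z g (g v)) g)
        / lam G
      + (∑ v, muv H g z v ^ 2 - ∑ v, muv G g z v ^ 2)
      + (cov H g z w ^ 2 - ∑ v, (1 - ci g v) * cov G g z v ^ 2) ≤ 52 * s ^ 3 / lam G := by
  classical
  obtain ⟨l, hl1⟩ : ∃ l, l = lam G := ⟨_, rfl⟩
  obtain ⟨a, ha⟩ : ∃ a : ℝ, a = (missSet G g).ncard := ⟨_, rfl⟩
  obtain ⟨a', ha'⟩ : ∃ a' : ℝ, a' = (missSet H g).ncard := ⟨_, rfl⟩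
  obtain ⟨b, hb⟩ : ∃ b : ℝ, b = (outSet G g).ncard := ⟨_, rfl⟩
  obtain ⟨b', hb'⟩ : ∃ b' : ℝ, b' = (outSet H g).ncard := ⟨_, rfl⟩
  obtain ⟨D, hD⟩ : ∃ D : ℝ, D = dc H g w := ⟨_, rfl⟩
  have ha0 : 0 ≤ a := by rw [ha]; exact Nat.cast_nonneg _
  have ha0' : 0 ≤ a' := by rw [ha']; exact Nat.cast_nonneg _
  have hb0 : 0 ≤ b := by rw [hb]; exact Nat.cast_nonneg _
  have hb0' : 0 ≤ b' := by rw [hb']; exact Nat.cast_nonneg _
  have hD0 : 0 ≤ D := by rw [hD]; exact dc_nonneg H g w
  have hDb : D ≤ b' := by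
    rw [hD, hb']
    have h1 := deg_le H g hw
    have h2 := dl_nonneg H g w
    linarith
  have hz2 : ∀ v, z v ≤ 2 := fun v => by
    by_cases hv : g v = none
    · exact hlt v hv
    · have := (abs_le.1 (hc v hv)).2
      linarith
  have hζ : ∀ v, g v = none → z v ≤ 2 * b / l := fun v hv => by
    rw [hb, hl1]; exact light_le hz hl0 hz2 hv
  have hsum := sum_zom hz
  have heigc : ∀ u, g u ≠ none →
      (n - cw z g (g u)) - l * z u = mv (mi G g) z u - La G g z u := fun u hu => by
    rw [hl1]; exact eig_core hG hz hu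
  rw [← hl1] at hl0 hs hlam hsum ⊢
  rw [← ha, ← ha', ← hb, ← hb'] at hss
  have hs1 : 1 ≤ s := by rw [hss]; linarith
  have hs0 : 0 ≤ s := by linarith
  have hbs : b ≤ s := by rw [hss]; linarith
  have hbs' : b' ≤ s := by rw [hss]; linarith
  have hb2 : b * b ≤ l := by
    refine le_trans ?_ hs
    rw [sq]
    exact mul_le_mul hbs hbs hb0 hs0
  have hb2' : b' * b' ≤ l := by
    refine le_trans ?_ hs
    rw [sq]
    exact mul_le_mul hbs' hbs' hb0' hs0
  -- the functions
  have hmuG := mv_nonneg G g hz.nonneg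
  have hmuH := mv_nonneg H g hz.nonneg
  have hmdG : ∀ u, (mdeg G g u : ℝ) ≤ a := fun u => by rw [ha]; exact_mod_cast mdeg_le G g u
  have hmdH : ∀ u, (mdeg H g u : ℝ) ≤ a' := fun u => by rw [ha']; exact_mod_cast mdeg_le H g u
  have hmaG : ∀ u, mv (mi G g) z u ≤ 2 * a := fun u => by
    have h1 := mv_le G g hk1 hc u
    have h2 := hmdG u
    linarith
  have hmaH : ∀ u, mv (mi H g) z u ≤ 2 * a' := fun u => by
    have h1 := mv_le H g hk1 hc u
    have h2 := hmdH u
    linarith
  have hLa0 := La_nonneg G g hz.nonneg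
  have hLaS : ∑ u, La G g z u ≤ 2 * b / l * b := by
    have := La_sum G g (c := 2 * b / l) (by positivity) hζ
    rw [← hb] at this
    exact this
  have hLaS2 : ∑ u, La G g z u ≤ 2 := by
    refine hLaS.trans ?_
    rw [div_mul_eq_mul_div, div_le_iff₀ hl0]
    linarith
  have hLa1 : ∀ u, La G g z u ≤ 2 := fun u =>
    (single_le_sum (f := fun u => La G g z u) (fun i _ => hLa0 i) (mem_univ u)).trans hLaS2
  obtain ⟨tau, htau⟩ : ∃ tau, tau = cov H g z w / l := ⟨_, rfl⟩
  have htau0 : 0 ≤ tau := by rw [htau]; exact div_nonneg (cov_nonneg H g hz.nonneg w) hl0.le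
  have htau1 : l * tau = cov H g z w := by rw [htau]; field_simp
  have htau2 : tau ≤ 2 * b' / l := by
    rw [htau]
    refine div_le_div_of_nonneg_right ?_ hl0.le
    have := cov_le H g hz2 w
    rw [← hD] at this
    linarith
  have hom0 : ∀ i, 0 ≤ tau * (ci g i * adj H i w) := fun i =>
    mul_nonneg htau0 (mul_nonneg (ci_nonneg g i) (ItemKW3.adj_nonneg H i w))
  have homS : ∑ i, tau * (ci g i * adj H i w) = tau * D := by
    rw [← mul_sum, hD]
    unfold dc
    congr 1
    exact sum_congr rfl fun i _ => by rw [adj_comm H i w, mul_comm]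
  have homS1 : ∑ i, tau * (ci g i * adj H i w) ≤ 2 * b' ^ 2 / l := by
    rw [homS]
    refine (mul_le_mul htau2 hDb hD0 (by positivity)).trans (le_of_eq ?_)
    ring
  have homS2 : ∑ i, tau * (ci g i * adj H i w) ≤ 2 := by
    refine homS1.trans ?_
    rw [div_le_iff₀ hl0]
    nlinarith
  have hom2 : ∀ i, tau * (ci g i * adj H i w) ≤ 2 := fun u =>
    (single_le_sum (f := fun i => tau * (ci g i * adj H i w)) (fun i _ => hom0 i)
      (mem_univ u)).trans homS2
  -- the vector `eta`
  obtain ⟨eta, heta⟩ : ∃ eta : V → ℝ, ∀ i, eta i = (mv (mi G g) z i - mv (mi H g) z i +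
      tau * (ci g i * adj H i w) - La G g z i) / l := ⟨_, fun _ => rfl⟩
  have hetal : ∀ i, l * eta i = mv (mi G g) z i - mv (mi H g) z i +
      tau * (ci g i * adj H i w) - La G g z i := fun i => by rw [heta]; field_simp
  have hmv0 : ∀ (M : SimpleGraph V) (i : V), g i = none → mv (mi M g) z i = 0 := by
    intro M i hi
    unfold mv
    exact sum_eq_zero fun j _ => by rw [mi_none hi, zero_mul]
  have hLa00 : ∀ i, g i = none → La G g z i = 0 := fun i hi => by
    rw [La_eq, ci_none hi, zero_mul]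
  have heta0 : ∀ i, g i = none → eta i = 0 := fun i hi => by
    rw [heta, hmv0 G i hi, hmv0 H i hi, hLa00 i hi, ci_none hi]
    simp
  have hmvc : ∀ (M : SimpleGraph V) (i : V), mv (mi M g) (fun v => ci g v * z v) i =
      mv (mi M g) z i := by
    intro M i
    unfold mv
    refine sum_congr rfl fun j _ => ?_
    beta_reduce
    by_cases hj : g j = none
    · rw [mi_none' hj]; ring
    · rw [ci_some hj, one_mul]
  have hcore := core (K := AK g) (M := mi G g) (M' := mi H g) (zc := fun v => ci g v * z v)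
    (mu := mv (mi G g) z) (mu' := mv (mi H g) z) (om := La G g z)
    (om' := fun i => tau * (ci g i * adj H i w))
    (rho := fun u => (mv (mi G g) z u - La G g z u) / l) (eta := eta) (tau := tau)
    (mG := miss G (fun v => (n : ℝ) - cw z g (g v)) g)
    (mH := miss H (fun v => (n : ℝ) - cw z g (g v)) g)
    (S2 := ∑ v, (1 - ci g v) * cov G g z v ^ 2)
    (SL := ∑ v, (1 - ci g v) * (cov G g z v * omv G g z v)) hl0
    (AK_symm g) (mi_symm G g) (mi_symm H g)
    (fun i => by
      by_cases hi : g i = none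
      · have h1 : mv (AK g) (fun v => ci g v * z v) i = 0 := by
          unfold mv
          exact sum_eq_zero fun j _ => by rw [AK_none hi, zero_mul]
        rw [h1, ci_none hi, hmv0 G i hi, hLa00 i hi]
        ring
      · obtain ⟨t, ht⟩ := Option.ne_none_iff_exists'.1 hi
        have h1 : mv (AK g) (fun v => ci g v * z v) i = n - cw z g (g i) := by
          rw [← sum_core hz, ht, ← sum_class z g t]
          unfold mv
          rw [← sum_sub_distrib]
          refine sum_congr rfl fun v _ => ?_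
          beta_reduce
          rw [AK_class ht]
          by_cases hv : g v = none
          · have h2 : ¬ g v = some t := by rw [hv]; exact (Option.some_ne_none t).symm
            unfold ki
            rw [ci_none hv, if_neg h2]
            ring
          · rw [ci_some hv]; ring
        have h2 := heigc i hi
        rw [h1, ci_some hi]
        linarith)
    (hmvc G) (hmvc H)
    (by
      have h1 : l * tau ^ 2 = tau * cov H g z w := by rw [← htau1]; ring
      rw [h1, cov_eq, mul_sum]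
      refine sum_congr rfl fun i _ => ?_
      rw [adj_comm H i w]
      linear_combination (tau * adj H w i * z i) * ci_sq g i)
    hsum
    (fun u => by field_simp) hetal
    (by
      obtain ⟨-, h1, -⟩ := hP V H
      -- the test vector
      obtain ⟨x, hx⟩ : ∃ x : V → ℝ, ∀ v, x v = ci g v * z v + eta v := ⟨_, fun _ => rfl⟩
      have hx0 : ∀ v, g v = none → x v = 0 := fun v hv => by
        rw [hx, ci_none hv, heta0 v hv]; ring
      have hx' : (fun v => ci g v * z v + eta v) = x := by funext v; rw [hx]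
      have h2 := h1 (fun v => x v + (if v = w then tau else 0))
      have h3 : qf H (fun v => x v + (if v = w then tau else 0)) =
          Q (adj H) (fun v => x v + (if v = w then tau else 0)) := rfl
      have h4 := Q_add (adj_comm H) x (fun v => if v = w then tau else 0)
      have h5 : ∑ i, (if i = w then tau else 0) * mv (adj H) x i =
          ∑ i, tau * (ci g i * adj H i w) * x i := by
        have h6 : ∑ i, (if i = w then tau else 0) * mv (adj H) x i = tau * mv (adj H) x w := by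
          simp
        rw [h6]
        unfold mv
        rw [mul_sum]
        refine sum_congr rfl fun i _ => ?_
        by_cases hi : g i = none
        · rw [hx0 i hi]; ring
        · rw [ci_some hi, adj_comm H i w]; ring
      have h7 : Q (adj H) (fun v => if v = w then tau else 0) = 0 := by
        rw [Q_eq]
        have h8 : ∑ i, (if i = w then tau else 0) * mv (adj H) (fun v => if v = w then tau else 0) i
            = tau * mv (adj H) (fun v => if v = w then tau else 0) w := by
          simp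
        rw [h8]
        unfold mv
        have h9 : ∑ j, adj H w j * (if j = w then tau else 0) = adj H w w * tau := by
          simp
        rw [h9, adj_self]
        ring
      have h10 : Q (adj H) x = Q (AK g) x - Q (mi H g) x := by
        unfold Q
        rw [← sum_sub_distrib]
        refine sum_congr rfl fun i _ => ?_
        rw [← sum_sub_distrib]
        refine sum_congr rfl fun j _ => ?_
        by_cases hi : g i = none
        · rw [hx0 i hi]; ring
        · by_cases hj : g j = none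
          · rw [hx0 j hj]; ring
          · rw [adj_AK hH hi hj]; ring
      have h11 : ∑ v, (x v + (if v = w then tau else 0)) ^ 2 = ∑ v, x v ^ 2 + tau ^ 2 := by
        have h12 : ∑ v : V, (if v = w then tau ^ 2 else 0) = tau ^ 2 := by simp
        rw [← h12, ← sum_add_distrib]
        refine sum_congr rfl fun v _ => ?_
        by_cases hv : v = w
        · rw [if_pos hv, if_pos hv, hv, hx0 w hw]; ring
        · rw [if_neg hv, if_neg hv]; ring
      rw [h3, h4, h5, h7, h10, h11] at h2
      have h13 : lam H * (∑ v, x v ^ 2 + tau ^ 2) ≤ l * (∑ v, x v ^ 2 + tau ^ 2) :=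
        mul_le_mul_of_nonneg_right hlam (add_nonneg (sum_nonneg fun v _ => sq_nonneg _)
          (sq_nonneg _))
      rw [hx']
      simp only [← hx]
      linarith)
    (by
      rw [miss_eq G g _ hl0, mul_div_assoc, mul_comm, div_mul_cancel₀ _ (by positivity)]
      refine Q_core G g fun v hv => ?_
      have h1 := heigc v hv
      rw [ci_some hv, one_mul, one_mul, ← h1]
      field_simp
      ring)
    (by
      rw [miss_eq H g _ hl0, mul_div_assoc, mul_comm, div_mul_cancel₀ _ (by positivity)]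
      refine Q_core H g fun v hv => ?_
      have h1 := heigc v hv
      rw [ci_some hv, one_mul, one_mul, ← h1]
      field_simp
      ring)
  rw [htau1] at hcore
  have hmu1 : ∑ v, muv H g z v ^ 2 = ∑ v, mv (mi H g) z v ^ 2 :=
    sum_congr rfl fun v _ => by rw [muv_eq]
  have hmu2 : ∑ v, muv G g z v ^ 2 = ∑ v, mv (mi G g) z v ^ 2 :=
    sum_congr rfl fun v _ => by rw [muv_eq]
  rw [hmu1, hmu2]
  refine hcore.trans ?_
  have hsq : 0 ≤ ∑ v, (tau * (ci g v * adj H v w) - La G g z v) ^ 2 :=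
    sum_nonneg fun v _ => sq_nonneg _
  have hfin := realE (l := l) (a := a) (a' := a') (b := b) (b' := b') (s := s)
    (T1 := ∑ v, (mv (mi H g) z v - mv (mi G g) z v) * (tau * (ci g v * adj H v w)))
    (T2 := ∑ v, (1 - ci g v) * (cov G g z v * omv G g z v))
    (q := Q (mi G g) (fun u => (mv (mi G g) z u - La G g z u) / l))
    (q' := Q (mi H g) (fun u => (mv (mi G g) z u - La G g z u) / l))
    (e := Q (AK g) eta) (e' := Q (mi H g) eta) hl0 ha0 ha0' hb0 hb0' hss
    (by
      have h1 : ∀ v, (mv (mi H g) z v - mv (mi G g) z v) * (tau * (ci g v * adj H v w)) ≤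
          2 * a' * (tau * (ci g v * adj H v w)) := by
        intro v
        refine mul_le_mul_of_nonneg_right ?_ (hom0 v)
        have h2 := hmaH v
        have h3 := hmuG v
        linarith
      refine (sum_le_sum fun v _ => h1 v).trans ?_
      rw [← mul_sum]
      exact mul_le_mul_of_nonneg_left homS1 (by positivity))
    (by
      have h1 : ∀ v, (1 - ci g v) * (cov G g z v * omv G g z v) ≤
          4 * b ^ 2 / l * ((1 - ci g v) * dc G g v) := by
        intro v
        by_cases hv : g v = none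
        · rw [ci_none hv]
          have h2 := cov_le G g hz2 v
          have h3 := omv_le G g hζ v
          have h4 : dl G g v ≤ b := by
            have h5 := deg_le G g hv
            have h6 := dc_nonneg G g v
            rw [hb]
            linarith
          have h5 : omv G g z v ≤ 2 * b / l * b :=
            h3.trans (mul_le_mul_of_nonneg_left h4 (by positivity))
          have h6 : cov G g z v * omv G g z v ≤ 2 * dc G g v * (2 * b / l * b) :=
            mul_le_mul h2 h5 (omv_nonneg G g hz.nonneg v)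
              (mul_nonneg (by norm_num) (dc_nonneg G g v))
          have h7 : 4 * b ^ 2 / l * ((1 - 0) * dc G g v) = 2 * dc G g v * (2 * b / l * b) := by
            ring
          rw [h7]
          linarith
        · rw [ci_some hv]; simp
      refine (sum_le_sum fun v _ => h1 v).trans ?_
      rw [← mul_sum]
      have h2 : ∑ v, (1 - ci g v) * dc G g v ≤ b := by
        rw [hb]; exact e1_le G g
      refine (mul_le_mul_of_nonneg_left h2 (by positivity)).trans (le_of_eq ?_)
      ring)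
    (by
      refine Q_le (mi_nonneg G g) (by rw [sum_mi, ha]) fun u => ?_
      rw [abs_div, abs_of_pos hl0]
      refine div_le_div_of_nonneg_right (abs_le.2 ⟨?_, ?_⟩) hl0.le
      · have := hmuG u; have := hLa1 u; linarith
      · have := hmaG u; have := hLa0 u; linarith)
    (by
      refine Q_le (mi_nonneg H g) (by rw [sum_mi, ha']) fun u => ?_
      rw [abs_div, abs_of_pos hl0]
      refine div_le_div_of_nonneg_right (abs_le.2 ⟨?_, ?_⟩) hl0.le
      · have := hmuG u; have := hLa1 u; linarith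
      · have := hmaG u; have := hLa0 u; linarith)
    (by
      refine (Q_le_one (AK_nonneg g) (AK_le g)).trans ?_
      refine pow_le_pow_left₀ (sum_nonneg fun v _ => abs_nonneg _) ?_ 2
      have h1 : ∀ u, |eta u| ≤ (2 * (mdeg G g u : ℝ) + 2 * (mdeg H g u : ℝ) +
          tau * (ci g u * adj H u w) + La G g z u) / l := by
        intro u
        rw [heta, abs_div, abs_of_pos hl0]
        have h2 := mv_le H g hk1 hc u
        have h3 := mv_le G g hk1 hc u
        have h4 := hmuG u
        have h5 := hmuH u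
        have h6 : (0 : ℝ) ≤ mdeg G g u := Nat.cast_nonneg _
        have h7 : (0 : ℝ) ≤ mdeg H g u := Nat.cast_nonneg _
        have h8 := hom0 u
        have h9 := hLa0 u
        exact div_le_div_of_nonneg_right (abs_le.2 ⟨by linarith, by linarith⟩) hl0.le
      refine (sum_le_sum fun u _ => h1 u).trans ?_
      rw [← sum_div]
      refine div_le_div_of_nonneg_right ?_ hl0.le
      rw [sum_add_distrib, sum_add_distrib, sum_add_distrib, ← mul_sum, ← mul_sum, mdeg_sum,
        mdeg_sum, ← ha, ← ha']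
      linarith)
    (by
      refine Q_le (mi_nonneg H g) (by rw [sum_mi, ha']) fun u => ?_
      rw [heta, abs_div, abs_of_pos hl0]
      have h1 := hmaG u
      have h2 := hmaH u
      have h3 := hmuG u
      have h4 := hmuH u
      have h5 := hom0 u
      have h6 := hom2 u
      have h7 := hLa0 u
      have h8 := hLa1 u
      exact div_le_div_of_nonneg_right (abs_le.2 ⟨by linarith, by linarith⟩) hl0.le)
  linarith

end ItemSWZ

open ItemSWZ in
theorem prfSWZ : P_statement → FLU_statement → SWZ_statement := by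
  intro hP hFLU r C hr hC
  obtain ⟨C1, n1, hC1, hF⟩ := hFLU r C hr hC
  obtain ⟨T, hT⟩ : ∃ T : ℝ, T = 1 + C1 + 1 * C1 + 6 * C1 + 2 * (2 * C + 1) ^ 2 := ⟨_, rfl⟩
  refine ⟨104, max n1 ⌈T ^ 4⌉₊, by norm_num, ?_⟩
  intro V _ G H z g w n hn hG hH hw _ hz hlam
  obtain ⟨-, hflu⟩ := hF V G g n (le_trans (le_max_left _ _) hn) hG
  obtain ⟨hc, hlt, hlamG, -⟩ := hflu z hz
  have hT1 : 1 ≤ T := by
    rw [hT]
    linarith [sq_nonneg (2 * C + 1)]
  have hTn : T ^ 4 ≤ n := (Nat.le_ceil _).trans (by exact_mod_cast (le_trans (le_max_right _ _) hn))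
  obtain ⟨h, hh⟩ : ∃ h, h = Real.sqrt (Real.sqrt n) := ⟨_, rfl⟩
  have hsq : Real.sqrt n = h ^ 2 := by rw [hh]; exact (Real.sq_sqrt (Real.sqrt_nonneg _)).symm
  have hh4 : h ^ 4 = n := by
    have : h ^ 4 = (h ^ 2) ^ 2 := by ring
    rw [this, ← hsq]
    exact Real.sq_sqrt (Nat.cast_nonneg _)
  have hh0 : 0 ≤ h := by rw [hh]; exact Real.sqrt_nonneg _
  have hTh : T ≤ h := by
    rw [← hh4] at hTn
    exact le_of_pow_le_pow_left₀ (by norm_num) hh0 hTn
  rw [← hh] at hlt hlamG
  rw [hsq] at hc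
  have hfG := hG.few
  have hfH := hH.few
  rw [← hh] at hfG hfH
  have hoG : (0 : ℝ) ≤ (outSet G g).ncard := Nat.cast_nonneg _
  have hoH : (0 : ℝ) ≤ (outSet H g).ncard := Nat.cast_nonneg _
  have haG : (0 : ℝ) ≤ (missSet G g).ncard := Nat.cast_nonneg _
  have haH : (0 : ℝ) ≤ (missSet H g).ncard := Nat.cast_nonneg _
  obtain ⟨hl0, hk1, hcb, hs⟩ := ItemSWS.real4 (r := r) (a := ((missSet G g).ncard : ℝ) +
    (outSet G g).ncard) (a' := ((missSet H g).ncard : ℝ) + (outSet H g).ncard) hr hC hC1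
    zero_le_one hT hTh hh4 hlamG (add_nonneg haG hoG) (add_nonneg haH hoH) hfG hfH
  have hh1 : 1 ≤ h := hT1.trans hTh
  have hn0 : (0 : ℝ) < n := by rw [← hh4]; positivity
  have : Nonempty V := ⟨w⟩
  have hln : (n : ℝ) / 2 ≤ lam G := by
    have hq : 2 / 3 ≤ qq r := by
      unfold qq
      have h3 : (3 : ℝ) ≤ r := by exact_mod_cast hr
      have : 1 / (r : ℝ) ≤ 1 / 3 := one_div_le_one_div_of_le (by norm_num) h3
      linarith
    have h5 := (abs_le.1 hlamG).1
    have h6 : 2 / 3 * (n : ℝ) ≤ qq r * n := mul_le_mul_of_nonneg_right hq hn0.le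
    have h7 : C1 * h ≤ (n : ℝ) / 6 := by
      have h6C : 6 * C1 ≤ h := by
        refine le_trans ?_ hTh
        rw [hT]; linarith [sq_nonneg (2 * C + 1)]
      have h8 : 6 * C1 * h ≤ h * h := mul_le_mul_of_nonneg_right h6C hh0
      have h9 : h * h ≤ h ^ 4 := by
        rw [← sq]
        exact pow_le_pow_right₀ hh1 (by norm_num)
      rw [← hh4]
      linarith
    linarith
  obtain ⟨s, hss⟩ : ∃ s : ℝ, s = ((missSet G g).ncard : ℝ) + (missSet H g).ncard +
      (outSet G g).ncard + (outSet H g).ncard + 1 := ⟨_, rfl⟩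
  have hs' : s ^ 2 ≤ lam G := by
    refine le_trans (le_of_eq ?_) hs
    rw [hss]
    ring
  have hmain := main hP hG.indep hH.indep hw hz hlam hk1 hc
    (fun v hv => (hlt v hv).trans (by linarith)) hl0 hss hs'
  have hS : (∑ v, if g v = none then cov G g z v ^ 2 else 0) =
      ∑ v, (1 - ItemSLB.ci g v) * cov G g z v ^ 2 := by
    refine sum_congr rfl fun v _ => ?_
    by_cases hv : g v = none
    · rw [if_pos hv, ItemSLB.ci_none hv]; ring
    · rw [if_neg hv, ItemSLB.ci_some hv]; ring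
  rw [hS]
  refine hmain.trans ?_
  rw [← hss, div_le_div_iff₀ hl0 hn0]
  have hs0 : 0 ≤ s := by rw [hss]; positivity
  have : 0 ≤ s ^ 3 * (2 * lam G - n) := mul_nonneg (by positivity) (by linarith)
  linarith

end MP0c3a8f

end

section

/-!
# (TIP) graphs of type `P` with the same parameters have the same spectral radius
-/

set_option linter.unusedSectionVars false

open Finset

namespace MP0c3a8f

namespace ItemTIP

section

variable {V : Type} [Fintype V] {r : ℕ}

lemma sum_split (F : V → ℝ) (f : V → Option (Fin r)) :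
    ∑ z, F z = (∑ s, cw F f (some s)) + cw F f none := by
  classical
  have h1 : ∀ z, F z = ∑ o : Option (Fin r), if f z = o then F z else 0 := by
    intro z
    rw [Finset.sum_ite_eq]
    simp
  calc ∑ z, F z = ∑ z, ∑ o : Option (Fin r), (if f z = o then F z else 0) :=
        sum_congr rfl fun z _ => h1 z
    _ = ∑ o : Option (Fin r), ∑ z, (if f z = o then F z else 0) := sum_comm
    _ = ∑ o : Option (Fin r), cw F f o := by
        refine sum_congr rfl fun o _ => ?_
        unfold cw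
        exact sum_congr rfl fun z _ => by congr
    _ = _ := by rw [Fintype.sum_option, add_comm]

lemma cw_congr (F F' : V → ℝ) (f : V → Option (Fin r)) (o : Option (Fin r))
    (h : ∀ z, f z = o → F z = F' z) : cw F f o = cw F' f o := by
  unfold cw
  refine sum_congr rfl fun z _ => ?_
  split_ifs with h1
  · exact h z h1
  · rfl

lemma cw_add (F F' : V → ℝ) (f : V → Option (Fin r)) (o : Option (Fin r)) :
    cw (fun z => F z + F' z) f o = cw F f o + cw F' f o := by
  unfold cw
  rw [← sum_add_distrib]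
  refine sum_congr rfl fun z _ => ?_
  split_ifs
  · rfl
  · rw [add_zero]

lemma cw_mul (c : ℝ) (F : V → ℝ) (f : V → Option (Fin r)) (o : Option (Fin r)) :
    cw (fun z => c * F z) f o = c * cw F f o := by
  unfold cw
  rw [mul_sum]
  refine sum_congr rfl fun z _ => ?_
  split_ifs
  · rfl
  · rw [mul_zero]

lemma cw_zero (f : V → Option (Fin r)) (o : Option (Fin r)) : cw (fun _ => 0) f o = 0 := by
  unfold cw
  simp

lemma cw_one (f : V → Option (Fin r)) (t : Fin r) :
    cw (fun _ => 1) f (some t) = (siz f t : ℝ) := by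
  classical
  unfold cw siz
  rw [sum_boole]
  congr 1
  rw [← Set.ncard_coe_finset]
  congr 1
  ext z
  simp

open Classical in
/-- the indicator function of a point -/
noncomputable def ie (y z : V) : ℝ := if z = y then 1 else 0

open Classical in
/-- the indicator function of a set -/
noncomputable def iL (L : Finset V) (z : V) : ℝ := if z ∈ L then 1 else 0

lemma ie_pos {y z : V} (h : z = y) : ie y z = 1 := by
  unfold ie
  rw [if_pos h]

lemma ie_neg {y z : V} (h : ¬ z = y) : ie y z = 0 := by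
  unfold ie
  rw [if_neg h]

lemma iL_pos {L : Finset V} {z : V} (h : z ∈ L) : iL L z = 1 := by
  unfold iL
  rw [if_pos h]

lemma iL_neg {L : Finset V} {z : V} (h : ¬ z ∈ L) : iL L z = 0 := by
  unfold iL
  rw [if_neg h]

lemma cw_lc (L : Finset V) (f : V → Option (Fin r)) (t : Fin r) :
    cw (iL L) f (some t) = (lc L f t : ℝ) := by
  classical
  unfold cw lc
  have h2 : ∑ z, (if z ∈ L ∧ f z = some t then (1 : ℝ) else 0) =
      ({z | z ∈ L ∧ f z = some t}.ncard : ℝ) := by
    rw [sum_boole]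
    congr 1
    rw [← Set.ncard_coe_finset]
    congr 1
    ext z
    simp
  rw [← h2]
  refine sum_congr rfl fun z _ => ?_
  by_cases h1 : f z = some t
  · by_cases h3 : z ∈ L
    · rw [if_pos h1, iL_pos h3, if_pos ⟨h3, h1⟩]
    · rw [if_pos h1, iL_neg h3, if_neg fun h => h3 h.1]
  · rw [if_neg h1, if_neg fun h => h1 h.2]

lemma cw_single (f : V → Option (Fin r)) {t : Fin r} {y : V} (hy : f y = some t) (F : V → ℝ) :
    cw (fun z => ie y z * F z) f (some t) = F y := by
  classical
  unfold cw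
  rw [Finset.sum_eq_single y]
  · rw [if_pos hy]
    show ie y y * F y = F y
    rw [ie_pos rfl, one_mul]
  · intro z _ hz
    split_ifs with h4
    · show ie y z * F z = 0
      rw [ie_neg hz, zero_mul]
    · rfl
  · intro h4
    exact absurd (mem_univ _) h4

variable {G : SimpleGraph V} {f : V → Option (Fin r)} {w : V} {q : Fin r → V} {i : Fin r}
  {L : Finset V}

lemma fw (h : TyP G f w q i L) : f w = none := (h.out w).2 rfl

lemma cw_none (h : TyP G f w q i L) (F : V → ℝ) : cw F f none = F w := by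
  classical
  unfold cw
  rw [Finset.sum_eq_single w]
  · rw [if_pos (fw h)]
  · intro z _ hz
    rw [if_neg fun h4 => hz ((h.out z).1 h4)]
  · intro h4
    exact absurd (mem_univ _) h4

lemma adj_comm' (G : SimpleGraph V) (y z : V) : adj G y z = adj G z y := by
  unfold adj
  by_cases h : G.Adj y z
  · rw [if_pos h, if_pos h.symm]
  · rw [if_neg h, if_neg fun h' => h h'.symm]

lemma adj_self (G : SimpleGraph V) (y : V) : adj G y y = 0 := by
  unfold adj
  rw [if_neg (G.irrefl)]

lemma L_i (h : TyP G f w q i L) {z : V} (hz : z ∈ L) : f z ≠ some i := (h.hL z hz).2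

lemma qi_L (h : TyP G f w q i L) : q i ∉ L := fun h1 => L_i h h1 (h.hq i)

lemma w_L (h : TyP G f w q i L) : w ∉ L := fun h1 => (h.hL w h1).1 (fw h)

lemma w_q (h : TyP G f w q i L) (t : Fin r) : q t ≠ w := by
  intro h1
  have := h.hq t
  rw [h1, fw h] at this
  exact absurd this (by simp)

lemma q_eq (h : TyP G f w q i L) {z : V} {t s : Fin r} (hz : f z = some t) (hs : z = q s) :
    s = t := by
  rw [hs, h.hq s] at hz
  exact Option.some_injective _ hz

lemma adj_w (h : TyP G f w q i L) {z : V} {t : Fin r} (hz : f z = some t) :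
    adj G w z = ie (q t) z := by
  by_cases h1 : z = q t
  · rw [ie_pos h1]
    unfold adj
    rw [if_pos ((h.wn z).2 ⟨t, h1⟩)]
  · rw [ie_neg h1]
    unfold adj
    rw [if_neg]
    intro h2
    obtain ⟨s, hs⟩ := (h.wn z).1 h2
    have h3 := q_eq h hz hs
    exact h1 (by rw [hs, h3])

/-- the sum over the neighbours of a core vertex -/
lemma nb_core (h : TyP G f w q i L) (x : V → ℝ) {y : V} {t : Fin r} (hy : f y = some t) :
    ∑ z, adj G y z * x z = (∑ s, cw x f (some s) - cw x f (some t))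
      - iL L y * x (q i) + ie (q t) y * x w
      - ie (q i) y * ∑ z ∈ L, x z := by
  classical
  have hy0 : f y ≠ none := by rw [hy]; exact Option.some_ne_none t
  -- the three parts
  have key : ∀ z, adj G y z * x z =
      (if f z = none then adj G y z * x z else if f z = some t then 0 else x z)
      - (if z = q i then iL L y * x z else 0)
      - (if z ∈ L then ie (q i) y * x z else 0) := by
    intro z
    by_cases hz0 : f z = none
    · have hzw := (h.out z).1 hz0
      have h1 : z ≠ q i := by rw [hzw]; exact (w_q h i).symm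
      have h2 : z ∉ L := by rw [hzw]; exact w_L h
      rw [if_pos hz0, if_neg h1, if_neg h2]
      ring
    · rw [if_neg hz0]
      by_cases hzt : f z = some t
      · rw [if_pos hzt]
        have h0 : adj G y z = 0 := by
          unfold adj
          rw [if_neg]
          rw [h.core y z hy0 hz0]
          rintro ⟨h1, -⟩
          exact h1 (hy.trans hzt.symm)
        have h1 : (if z = q i then iL L y * x z else 0) = 0 := by
          split_ifs with h2
          · have h3 : i = t := q_eq h hzt h2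
            have h4 : y ∉ L := fun h5 => L_i h h5 (by rw [hy, h3])
            rw [iL_neg h4, zero_mul]
          · rfl
        have h2 : (if z ∈ L then ie (q i) y * x z else 0) = 0 := by
          split_ifs with h2
          · have h4 : y ≠ q i := by
              intro h5
              have h3 : i = t := q_eq h hy h5
              exact L_i h h2 (by rw [hzt, h3])
            rw [ie_neg h4, zero_mul]
          · rfl
        rw [h0, h1, h2]
        ring
      · rw [if_neg hzt]
        have hne : f y ≠ f z := fun h1 => hzt (h1.symm.trans hy)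
        by_cases c1 : y = q i ∧ z ∈ L
        · have h0 : adj G y z = 0 := by
            unfold adj
            rw [if_neg]
            rw [h.core y z hy0 hz0]
            rintro ⟨-, h1, -⟩
            exact h1 c1
          have h1 : y ∉ L := by rw [c1.1]; exact qi_L h
          rw [h0, if_pos c1.2, ie_pos c1.1, iL_neg h1]
          split_ifs <;> ring
        · by_cases c2 : z = q i ∧ y ∈ L
          · have h0 : adj G y z = 0 := by
              unfold adj
              rw [if_neg]
              rw [h.core y z hy0 hz0]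
              rintro ⟨-, -, h1⟩
              exact h1 c2
            have h1 : z ∉ L := by rw [c2.1]; exact qi_L h
            rw [h0, if_pos c2.1, iL_pos c2.2, if_neg h1]
            ring
          · have h0 : adj G y z = 1 := by
              unfold adj
              rw [if_pos]
              rw [h.core y z hy0 hz0]
              exact ⟨hne, c1, c2⟩
            have h1 : (if z = q i then iL L y * x z else 0) = 0 := by
              split_ifs with h2
              · rw [iL_neg fun h3 => c2 ⟨h2, h3⟩, zero_mul]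
              · rfl
            have h2 : (if z ∈ L then ie (q i) y * x z else 0) = 0 := by
              split_ifs with h2
              · rw [ie_neg fun h3 => c1 ⟨h3, h2⟩, zero_mul]
              · rfl
            rw [h0, h1, h2]
            ring
  rw [sum_congr rfl fun z _ => key z, sum_sub_distrib, sum_sub_distrib, sum_ite_eq']
  have e1 : ∑ z, (if z ∈ L then ie (q i) y * x z else 0) =
      ie (q i) y * ∑ z ∈ L, x z := by
    rw [mul_sum, ← sum_filter]
    congr 1
    ext z
    simp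
  rw [e1, sum_split _ f, cw_none h, if_pos (fw h)]
  have h1 : ∀ s, cw (fun z => if f z = none then adj G y z * x z else
      if f z = some t then 0 else x z) f (some s) =
      cw x f (some s) - if s = t then cw x f (some s) else 0 := by
    intro s
    by_cases hs : s = t
    · rw [if_pos hs, sub_self]
      rw [cw_congr _ (fun _ => 0) f _ fun z hz => ?_, cw_zero]
      rw [if_neg (by rw [hz]; exact Option.some_ne_none s), if_pos (by rw [hz, hs])]
    · rw [if_neg hs, sub_zero]
      refine cw_congr _ _ f _ fun z hz => ?_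
      rw [if_neg (by rw [hz]; exact Option.some_ne_none s), if_neg]
      rw [hz]
      intro h4
      exact hs (Option.some_injective _ h4)
  rw [sum_congr rfl fun s _ => h1 s, sum_sub_distrib, sum_ite_eq', adj_comm' G y w, adj_w h hy]
  simp only [mem_univ, if_true]
  ring

/-- the vector has the form of an eigenvector on the core -/
def Frm (f : V → Option (Fin r)) (q : Fin r → V) (i : Fin r) (L : Finset V) (l a P Y : ℝ)
    (c : Fin r → ℝ) (x : V → ℝ) : Prop :=
  ∀ z t, f z = some t → l * x z = c t - iL L z * P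
    + ie (q t) z * a - ie (q i) z * Y

lemma frm_cls (h : TyP G f w q i L) {l a P Y : ℝ} {c : Fin r → ℝ} {x : V → ℝ}
    (hx : Frm f q i L l a P Y c x) (t : Fin r) :
    l * cw x f (some t) = siz f t * c t - lc L f t * P + a - if t = i then Y else 0 := by
  rw [← cw_mul]
  have h1 : cw (fun z => l * x z) f (some t) =
      cw (fun z => (c t * 1 + (-P) * iL L z) +
        (ie (q t) z * a + ie (q t) z * (if t = i then -Y else 0)))
        f (some t) := by
    refine cw_congr _ _ f _ fun z hz => ?_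
    rw [hx z t hz]
    by_cases ht : t = i
    · rw [if_pos ht, ht]
      ring
    · have h2 : z ≠ q i := fun h3 => ht (q_eq h hz h3).symm
      rw [if_neg ht, ie_neg h2]
      ring
  rw [h1, cw_add, cw_add, cw_add, cw_mul, cw_mul, cw_one, cw_lc,
    cw_single f (h.hq t) (fun _ => a), cw_single f (h.hq t) (fun _ => if t = i then -Y else 0)]
  split_ifs <;> ring

lemma frm_y (h : TyP G f w q i L) (hex : ∃! t, q t ∈ L) {l a P Y : ℝ} {c : Fin r → ℝ}
    {x : V → ℝ} (hx : Frm f q i L l a P Y c x) :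
    l * ∑ z ∈ L, x z = (∑ t, (lc L f t : ℝ) * (c t - P)) + a := by
  classical
  have e1 : ∑ z ∈ L, x z = ∑ z, iL L z * x z := by
    have h2 : ∀ z, iL L z * x z = if z ∈ L then x z else 0 := by
      intro z
      split_ifs with h3
      · rw [iL_pos h3, one_mul]
      · rw [iL_neg h3, zero_mul]
    rw [sum_congr rfl fun z _ => h2 z, ← sum_filter]
    congr 1
    ext z
    simp
  rw [e1, sum_split _ f, cw_none h, iL_neg (w_L h), zero_mul, add_zero, mul_sum]
  have h1 : ∀ t, l * cw (fun z => iL L z * x z) f (some t) =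
      (lc L f t : ℝ) * (c t - P) + (if q t ∈ L then a else 0) := by
    intro t
    rw [← cw_mul]
    have h2 : cw (fun z => l * (iL L z * x z)) f (some t) =
        cw (fun z => (c t - P) * iL L z +
          ie (q t) z * (if q t ∈ L then a else 0)) f (some t) := by
      refine cw_congr _ _ f _ fun z hz => ?_
      by_cases h3 : z ∈ L
      · have h4 : z ≠ q i := by
          intro h5
          exact qi_L h (by rw [← h5]; exact h3)
        rw [iL_pos h3, one_mul, hx z t hz, iL_pos h3, ie_neg h4]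
        by_cases h5 : z = q t
        · rw [ie_pos h5, if_pos (by rw [← h5]; exact h3)]
          ring
        · rw [ie_neg h5]
          ring
      · rw [iL_neg h3]
        by_cases h5 : z = q t
        · rw [if_neg (by rw [← h5]; exact h3)]
          ring
        · rw [ie_neg h5]
          ring
    rw [h2, cw_add, cw_mul, cw_lc, cw_single f (h.hq t) (fun _ => if q t ∈ L then a else 0)]
    ring
  rw [sum_congr rfl fun t _ => h1 t, sum_add_distrib]
  congr 1
  obtain ⟨t₀, h0, h2⟩ := hex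
  rw [Finset.sum_eq_single t₀]
  · rw [if_pos h0]
  · intro t _ ht
    rw [if_neg fun h3 => ht (h2 t h3)]
  · intro h4
    exact absurd (mem_univ _) h4

lemma sum_w (h : TyP G f w q i L) (F : V → ℝ) : ∑ z, adj G w z * F z = ∑ t, F (q t) := by
  rw [sum_split _ f, cw_none h, adj_self, zero_mul, add_zero]
  refine sum_congr rfl fun t _ => ?_
  rw [cw_congr _ (fun z => ie (q t) z * F z) f _ fun z hz => by rw [adj_w h hz]]
  exact cw_single f (h.hq t) F

lemma frm_w (h : TyP G f w q i L) (hex : ∃! t, q t ∈ L) {l a P Y : ℝ} {c : Fin r → ℝ}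
    {x : V → ℝ} (hx : Frm f q i L l a P Y c x) :
    l * ∑ z, adj G w z * x z = (∑ t, (c t + a)) - P - Y := by
  classical
  rw [sum_w h, mul_sum]
  have h1 : ∀ t, l * x (q t) = (c t + a) - (if q t ∈ L then P else 0) -
      (if t = i then Y else 0) := by
    intro t
    rw [hx (q t) t (h.hq t), ie_pos rfl]
    have h2 : iL L (q t) * P = if q t ∈ L then P else 0 := by
      split_ifs with h3
      · rw [iL_pos h3, one_mul]
      · rw [iL_neg h3, zero_mul]
    have h3 : ie (q i) (q t) * Y = if t = i then Y else 0 := by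
      split_ifs with h3
      · rw [ie_pos (by rw [h3]), one_mul]
      · rw [ie_neg fun h4 => h3 (q_eq h (h.hq t) h4).symm, zero_mul]
    rw [h2, h3]
    ring
  rw [sum_congr rfl fun t _ => h1 t, sum_sub_distrib, sum_sub_distrib, sum_ite_eq']
  simp only [mem_univ, if_true]
  congr 2
  obtain ⟨t₀, h0, h2⟩ := hex
  rw [Finset.sum_eq_single t₀]
  · rw [if_pos h0]
  · intro t _ ht
    rw [if_neg fun h3 => ht (h2 t h3)]
  · intro h4
    exact absurd (mem_univ _) h4

lemma frm_p (h : TyP G f w q i L) {l a P Y : ℝ} {c : Fin r → ℝ}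
    {x : V → ℝ} (hx : Frm f q i L l a P Y c x) : l * x (q i) = c i + a - Y := by
  rw [hx (q i) i (h.hq i), ie_pos rfl, iL_neg (qi_L h)]
  ring

end

/-- the quotient equations -/
structure Sol (r : ℕ) (i : Fin r) (sz nl : Fin r → ℕ) (l a P Y : ℝ) (X : Fin r → ℝ) :
    Prop where
  cls : ∀ t, l * X t = sz t * (∑ s, X s - X t) - nl t * P + a - if t = i then Y else 0
  p : l * P = (∑ s, X s - X i) + a - Y
  y : l * Y = (∑ t, (nl t : ℝ) * ((∑ s, X s - X t) - P)) + a
  w : l * (l * a) = (∑ t, ((∑ s, X s - X t) + a)) - P - Y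

lemma Sol.perm {r : ℕ} {i i' : Fin r} {sz nl sz' nl' : Fin r → ℕ} {l a P Y : ℝ}
    {X : Fin r → ℝ} (π : Equiv.Perm (Fin r)) (h : Sol r i sz nl l a P Y X) (hi : i' = π i)
    (hs : ∀ t, sz' (π t) = sz t) (hn : ∀ t, nl' (π t) = nl t) :
    Sol r i' sz' nl' l a P Y (fun t => X (π.symm t)) := by
  have hsum : ∑ s, X (π.symm s) = ∑ s, X s := Equiv.sum_comp π.symm X
  refine ⟨fun t => ?_, ?_, ?_, ?_⟩
  · have h1 := h.cls (π.symm t)
    have h2 : sz' t = sz (π.symm t) := by rw [← hs, Equiv.apply_symm_apply]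
    have h3 : nl' t = nl (π.symm t) := by rw [← hn, Equiv.apply_symm_apply]
    have h4 : (π.symm t = i) ↔ t = i' := by
      rw [hi, Equiv.symm_apply_eq]
    rw [hsum, h2, h3, h1]
    simp only [h4]
  · have h4 : π.symm i' = i := by rw [hi, Equiv.symm_apply_apply]
    simp only [hsum, h4]
    exact h.p
  · rw [h.y, hsum, ← Equiv.sum_comp π.symm fun t => (nl t : ℝ) * ((∑ s, X s - X t) - P)]
    congr 1
    refine sum_congr rfl fun t _ => ?_
    have h3 : nl' t = nl (π.symm t) := by rw [← hn, Equiv.apply_symm_apply]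
    rw [h3]
  · rw [h.w, hsum, ← Equiv.sum_comp π.symm fun t => ((∑ s, X s - X t) + a)]

section

variable {V : Type} [Fintype V] {r : ℕ}
variable {G : SimpleGraph V} {f : V → Option (Fin r)} {w : V} {q : Fin r → V} {i : Fin r}
  {L : Finset V}

lemma frm_of_eig (h : TyP G f w q i L) {x : V → ℝ} {l : ℝ}
    (hx : ∀ y, ∑ z, adj G y z * x z = l * x y) :
    Frm f q i L l (x w) (x (q i)) (∑ z ∈ L, x z)
      (fun t => ∑ s, cw x f (some s) - cw x f (some t)) x := by
  intro z t hz
  rw [← hx z, nb_core h x hz]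

lemma sol_of_eig (h : TyP G f w q i L) (hex : ∃! t, q t ∈ L) {x : V → ℝ}
    {l : ℝ} (hx : ∀ y, ∑ z, adj G y z * x z = l * x y) :
    Sol r i (siz f) (lc L f) l (x w) (x (q i)) (∑ z ∈ L, x z) (fun t => cw x f (some t)) := by
  have hf := frm_of_eig h hx
  refine ⟨fun t => frm_cls h hf t, frm_p h hf, frm_y h hex hf, ?_⟩
  rw [← hx w]
  exact frm_w h hex hf

open Classical in
/-- the eigenvector of the second graph -/
noncomputable def vec (f : V → Option (Fin r)) (q : Fin r → V) (i : Fin r) (L : Finset V)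
    (l a P Y : ℝ) (c : Fin r → ℝ) (z : V) : ℝ :=
  match f z with
  | some t => (c t - iL L z * P + ie (q t) z * a
      - ie (q i) z * Y) / l
  | none => a

lemma eig_of_sol (h : TyP G f w q i L) (hex : ∃! t, q t ∈ L) {l a P Y : ℝ}
    {X : Fin r → ℝ} (hl : 0 < l) (hX : Sol r i (siz f) (lc L f) l a P Y X) :
    ∃ x : V → ℝ, (∀ y, ∑ z, adj G y z * x z = l * x y) ∧ x w = a ∧ x (q i) = P ∧
      ∑ z ∈ L, x z = Y ∧ ∀ t, cw x f (some t) = X t := by
  classical
  set c : Fin r → ℝ := fun t => ∑ s, X s - X t with hc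
  have hw : vec f q i L l a P Y c w = a := by
    unfold vec
    rw [fw h]
  have hfrm : Frm f q i L l a P Y c (vec f q i L l a P Y c) := by
    intro z t hz
    unfold vec
    rw [hz]
    dsimp only
    field_simp
  have hcls : ∀ t, cw (vec f q i L l a P Y c) f (some t) = X t := by
    intro t
    have h1 := frm_cls h hfrm t
    rw [← hX.cls t] at h1
    exact mul_left_cancel₀ hl.ne' h1
  have hp : vec f q i L l a P Y c (q i) = P := by
    apply mul_left_cancel₀ hl.ne'
    rw [frm_p h hfrm, hX.p]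
  have hy : ∑ z ∈ L, vec f q i L l a P Y c z = Y := by
    apply mul_left_cancel₀ hl.ne'
    rw [frm_y h hex hfrm, hX.y]
  refine ⟨vec f q i L l a P Y c, fun y => ?_, hw, hp, hy, hcls⟩
  rcases hfy : f y with _ | t
  · have h1 := (h.out y).1 hfy
    rw [h1, hw]
    apply mul_left_cancel₀ hl.ne'
    rw [frm_w h hex hfrm, hX.w]
  · rw [nb_core h _ hfy, hfrm y t hfy, hw, hp, hy, hcls]
    simp only [hcls]
    rfl

lemma zero_of_zero (h : TyP G f w q i L) {x : V → ℝ} {l : ℝ} (hl : 0 < l)
    (hx : ∀ y, ∑ z, adj G y z * x z = l * x y) (hw : x w = 0) (hp : x (q i) = 0)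
    (hy : ∑ z ∈ L, x z = 0) (hX : ∀ t, cw x f (some t) = 0) (y : V) : x y = 0 := by
  rcases hfy : f y with _ | t
  · rw [(h.out y).1 hfy, hw]
  · have h1 := frm_of_eig h hx y t hfy
    rw [hw, hp, hy] at h1
    simp only [hX, sum_const_zero, sub_zero, mul_zero, add_zero] at h1
    exact (mul_eq_zero.1 h1).resolve_left hl.ne'

lemma lam_pos (hP : P_statement) (h : TyP G f w q i L) : 0 < lam G := by
  classical
  have : Nonempty V := ⟨w⟩
  obtain ⟨-, h2, -⟩ := hP V G
  have h3 := h2 fun _ => 1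
  have h4 : (1 : ℝ) ≤ qf G fun _ => 1 := by
    unfold qf
    have h0 : ∀ y z, 0 ≤ adj G y z * ((1 : ℝ) * 1) := by
      intro y z
      unfold adj
      split_ifs <;> norm_num
    calc (1 : ℝ) = adj G w (q i) * ((1 : ℝ) * 1) := by
          unfold adj
          rw [if_pos ((h.wn _).2 ⟨i, rfl⟩)]
          norm_num
      _ ≤ ∑ z, adj G w z * ((1 : ℝ) * 1) :=
          single_le_sum (f := fun z => adj G w z * ((1 : ℝ) * 1)) (fun z _ => h0 w z)
            (mem_univ (q i))
      _ ≤ ∑ y, ∑ z, adj G y z * ((1 : ℝ) * 1) :=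
          single_le_sum (f := fun y => ∑ z, adj G y z * ((1 : ℝ) * 1))
            (fun y _ => sum_nonneg fun z _ => h0 y z) (mem_univ w)
  have h5 : (0 : ℝ) ≤ ∑ _i : V, (1 : ℝ) ^ 2 := sum_nonneg fun _ _ => by norm_num
  by_contra h6
  have h7 : lam G ≤ 0 := not_lt.1 h6
  have h8 := mul_nonpos_of_nonpos_of_nonneg h7 h5
  linarith only [h3, h4, h8]

end

lemma le (hP : P_statement) {r : ℕ} {V V' : Type} [Fintype V] [Fintype V'] {G : SimpleGraph V}
    {G' : SimpleGraph V'} {f : V → Option (Fin r)} {f' : V' → Option (Fin r)} {w : V}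
    {w' : V'} {q : Fin r → V} {q' : Fin r → V'} {i i' : Fin r} {L : Finset V}
    {L' : Finset V'} (π : Equiv.Perm (Fin r)) (hi : i' = π i) (h : TyP G f w q i L)
    (h' : TyP G' f' w' q' i' L') (hs : ∀ t, siz f' (π t) = siz f t)
    (hn : ∀ t, lc L' f' (π t) = lc L f t) (hex : ∃! t, q t ∈ L)
    (hex' : ∃! t, q' t ∈ L') : lam G ≤ lam G' := by
  have : Nonempty V := ⟨w⟩
  have : Nonempty V' := ⟨w'⟩
  have hl := lam_pos hP h
  obtain ⟨-, -, x, -, hx1, hx⟩ := hP V G
  have hsol := Sol.perm π (sol_of_eig h hex hx) hi hs hn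
  obtain ⟨x', hx', hw', hp', hy', hX'⟩ := eig_of_sol h' hex' hl hsol
  obtain ⟨-, h2, -⟩ := hP V' G'
  have h3 := h2 x'
  have h4 : qf G' x' = lam G * ∑ y, x' y ^ 2 := by
    unfold qf
    rw [mul_sum]
    refine sum_congr rfl fun y _ => ?_
    calc ∑ z, adj G' y z * (x' y * x' z) = x' y * ∑ z, adj G' y z * x' z := by
          rw [mul_sum]
          exact sum_congr rfl fun z _ => by ring
      _ = lam G * x' y ^ 2 := by rw [hx' y]; ring
  have h5 : 0 < ∑ y, x' y ^ 2 := by
    rcases (sum_nonneg fun y _ => sq_nonneg (x' y) : 0 ≤ ∑ y, x' y ^ 2).lt_or_eq with h6 | h6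
    · exact h6
    · exfalso
      have h7 : ∀ y, x' y = 0 := by
        intro y
        have := (sum_eq_zero_iff_of_nonneg fun y _ => sq_nonneg (x' y)).1 h6.symm y (mem_univ y)
        exact pow_eq_zero_iff (two_ne_zero) |>.1 this
      have h8 : ∀ t, cw x f (some t) = 0 := by
        intro t
        have h10 := hX' (π t)
        simp only [Equiv.symm_apply_apply] at h10
        rw [← h10]
        unfold cw
        refine sum_eq_zero fun z _ => ?_
        rw [h7 z]
        split_ifs <;> rfl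
      have hy0 : ∑ z ∈ L, x z = 0 := by
        rw [← hy']
        exact sum_eq_zero fun z _ => h7 z
      have h9 := zero_of_zero h hl hx (hw'.symm.trans (h7 w')) (hp'.symm.trans (h7 (q' i')))
        hy0 h8
      rw [sum_congr rfl fun y _ => by rw [h9 y]] at hx1
      simp at hx1
  rw [h4] at h3
  exact le_of_mul_le_mul_right h3 h5

end ItemTIP

theorem prfTIP : P_statement → TIP_statement := by
  intro hP r V V' _ _ G G' f f' w w' q q' i L L' π _ h h' hs hn hex hex'
  refine le_antisymm (ItemTIP.le hP π rfl h h' hs hn hex hex')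
    (ItemTIP.le hP π.symm (Equiv.symm_apply_apply π i).symm h' h (fun t => ?_) (fun t => ?_)
      hex' hex)
  · rw [← hs, Equiv.apply_symm_apply]
  · rw [← hn, Equiv.apply_symm_apply]

end MP0c3a8f

end

section

/-!
# MP_0c3a8f_co: the candidates with given sizes of the parts have the same spectral radius
-/

open Finset

namespace MP0c3a8f

namespace UNX

theorem sum_lc {V : Type} {r : ℕ} (L : Finset V) (f : V → Option (Fin r))
    (hL : ∀ v ∈ L, f v ≠ none) : ∑ t, lc L f t = L.card := by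
  classical
  have h1 : ∀ t, lc L f t = (L.filter fun v => f v = some t).card := by
    intro t
    unfold lc
    rw [← Set.ncard_coe_finset]
    congr 1
    ext v
    simp
  simp_rw [h1, Finset.card_filter]
  rw [Finset.sum_comm, Finset.card_eq_sum_ones]
  refine Finset.sum_congr rfl fun v hv => ?_
  obtain ⟨s, hs⟩ := Option.ne_none_iff_exists'.mp (hL v hv)
  simp [hs]

theorem lc_eq_zero {V : Type} {r : ℕ} {L : Finset V} {f : V → Option (Fin r)} {t : Fin r}
    (h : ∀ v ∈ L, f v ≠ some t) : lc L f t = 0 := by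
  have : {v | v ∈ L ∧ f v = some t} = (∅ : Set V) := by
    ext v
    simp only [Set.mem_ofPred_eq, Set.mem_empty_iff_false, iff_false, not_and]
    exact h v
  unfold lc
  rw [this, Set.ncard_empty]

theorem uniq {r : ℕ} {σ : Fin r → ℕ} {i i' : Fin r} (h : ∀ t, t ≠ i → σ t < σ i)
    (h' : ∀ t, t ≠ i' → σ t < σ i') : i = i' := by
  by_contra hne
  have h1 := h i' (fun e => hne e.symm)
  have h2 := h' i hne
  omega

theorem casePP (hTIP : TIP_statement) (hGVG : GVG_statement) {r a : ℕ} {σ : Fin r → ℕ}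
    (hr : 3 ≤ r) (V U : Type) [Fintype V] [Fintype U] (G : SimpleGraph V) (H : SimpleGraph U)
    (hG : IsXP σ a G) (hH : IsXP σ a H) : lam G = lam H := by
  classical
  obtain ⟨f, w, q, i, L, hT, hq, hLa, hs, hi, hmax, hev⟩ := hG
  obtain ⟨f', w', q', i', L', hT', hq', hLa', hs', hi', hmax', hev'⟩ := hH
  obtain rfl := uniq hi hi'
  have key : ∀ {W : Type} (M : Finset W) (g : W → Option (Fin r)),
      (∀ v ∈ M, ∀ t, g v = some t → ∀ s, s ≠ i → σ s ≤ σ t) →
      ∀ k l : Fin r, l ≠ i → σ k < σ l → lc M g k = 0 := by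
    intro W M g h k l hl hkl
    refine lc_eq_zero fun v hv hvk => ?_
    have := h v hv k hvk l hl
    omega
  obtain ⟨π, hπ1, hπ2, hπ3⟩ := hGVG r 0 (Finset.univ.filter fun t => t ≠ i)
    (fun t => -(σ t : ℤ)) (lc L f) (lc L' f') (by
      intro t ht
      have hti : t = i := by simpa using ht
      subst hti
      rw [lc_eq_zero fun v hv => (hT.hL v hv).2, lc_eq_zero fun v hv => (hT'.hL v hv).2])
    (fun t _ => ⟨Nat.zero_le _, Nat.zero_le _⟩) (by
      intro k _ l hl hkl
      have hl' : l ≠ i := by simpa using hl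
      have hkl' : σ k < σ l := by
        have h1 : -(σ l : ℤ) < -(σ k : ℤ) := hkl
        omega
      exact ⟨key L f hmax k l hl' hkl', key L' f' hmax' k l hl' hkl'⟩) (by
      intro k hk l hl hkl
      have hk' : k ≠ i := by simpa using hk
      have hl' : l ≠ i := by simpa using hl
      have hkl' : σ k = σ l := by
        have h1 : -(σ k : ℤ) = -(σ l : ℤ) := hkl
        omega
      exact ⟨hev k l hk' hl' hkl', hev' k l hk' hl' hkl'⟩) (by
      rw [sum_lc L f fun v hv => (hT.hL v hv).1, sum_lc L' f' fun v hv => (hT'.hL v hv).1, hLa,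
        hLa'])
  have hπi : π i = i := hπ1 i (by simp)
  have hπσ : ∀ t, σ (π t) = σ t := by
    intro t
    have h1 : -(σ (π t) : ℤ) = -(σ t : ℤ) := hπ2 t
    omega
  refine hTIP r V U G H f f' w w' q q' i L L' π hr hT (by rw [hπi]; exact hT') ?_ hπ3 hq hq'
  intro t
  rw [hs', hs, hπσ]

theorem siz_map (hREL : REL_statement) {r : ℕ} (V : Type) [Fintype V] (G : SimpleGraph V)
    (f : V → Option (Fin r)) (π : Equiv.Perm (Fin r)) (t : Fin r) :
    siz (fun v => (f v).map π) t = siz f (π.symm t) := by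
  have h := (hREL r V G f π).1 (π.symm t)
  rwa [Equiv.apply_symm_apply] at h

theorem nbn_map (hREL : REL_statement) {r : ℕ} (V : Type) [Fintype V] (G : SimpleGraph V)
    (f : V → Option (Fin r)) (π : Equiv.Perm (Fin r)) (w : V) (t : Fin r) :
    nbn G (fun v => (f v).map π) w t = nbn G f w (π.symm t) := by
  have h := (hREL r V G f π).2.1 w (π.symm t)
  rwa [Equiv.apply_symm_apply] at h

theorem caseQQ (hISO : ISO_statement) (hISO1 : ISO1_statement) (hREL : REL_statement)
    (hGVG : GVG_statement) {r b : ℕ} {σ : Fin r → ℕ} (V U : Type) [Fintype V]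
    [Fintype U] (G : SimpleGraph V) (H : SimpleGraph U) (hG : IsXQ σ b G) (hH : IsXQ σ b H) :
    lam G = lam H := by
  classical
  obtain ⟨f, w, p, p₁, i, j, hT, hb, hs, hi, hj, hev⟩ := hG
  obtain ⟨f', w', p', p₁', i', j', hT', hb', hs', hi', hj', hev'⟩ := hH
  obtain rfl := uniq hi hi'
  have hij : i ≠ j := hT.ty.ij
  have hij' : i ≠ j' := hT'.ty.ij
  have hjj : σ j = σ j' := le_antisymm (hj' j hij.symm) (hj j' hij'.symm)
  -- relabel the second graph
  set τ : Equiv.Perm (Fin r) := Equiv.swap j j' with hτ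
  have hτs : τ.symm = τ := by rw [hτ, Equiv.symm_swap]
  have hτσ : ∀ t, σ (τ t) = σ t := by
    intro t
    rw [hτ, Equiv.swap_apply_def]
    split_ifs with h1 h2
    · rw [h1, hjj]
    · rw [h2, hjj]
    · rfl
  have hτi : τ i = i := by rw [hτ, Equiv.swap_apply_of_ne_of_ne hij hij']
  have hτj : τ j' = j := by rw [hτ, Equiv.swap_apply_right]
  have hτj' : τ j = j' := by rw [hτ, Equiv.swap_apply_left]
  set f2 : U → Option (Fin r) := fun v => (f' v).map τ with hf2
  have hT2 : Th1 H f2 w' p' p₁' i j := by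
    have h := ((hREL r U H f' τ).2.2.1 w' p' p₁' i j' hT').1
    rwa [hτi, hτj] at h
  have hs2 : ∀ t, siz f2 t = σ t := by
    intro t
    rw [hf2, siz_map hREL U H, hτs, hs', hτσ]
  have hn2 : ∀ t, nbn H f2 w' t = nbn H f' w' (τ t) := by
    intro t
    rw [hf2, nbn_map hREL, hτs]
  have hb2 : ∑ t, nbn H f2 w' t = b := by
    simp_rw [hn2]
    rw [Equiv.sum_comp τ (fun t => nbn H f' w' t), hb']
  have hev2 : ∀ s t, s ≠ i → s ≠ j → t ≠ i → t ≠ j →
      (σ s = σ t → nbn H f2 w' s ≤ nbn H f2 w' t + 1) ∧ (σ t < σ s → nbn H f2 w' s = 1) := by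
    intro s t hsi hsj hti htj
    have h1 : ∀ x, x ≠ i → τ x ≠ i := fun x hx h => hx (τ.injective (by rw [h, hτi]))
    have h2 : ∀ x, x ≠ j → τ x ≠ j' := fun x hx h => hx (τ.injective (by rw [h, hτj']))
    have h3 := hev' (τ s) (τ t) (h1 s hsi) (h2 s hsj) (h1 t hti) (h2 t htj)
    rw [hτσ, hτσ] at h3
    rw [hn2, hn2]
    exact h3
  obtain ⟨π, hπ1, hπ2, hπ3⟩ := hGVG r 1 (Finset.univ.filter fun t => t ≠ i ∧ t ≠ j)
    (fun t => (σ t : ℤ)) (nbn G f w) (nbn H f2 w') (by
      intro t ht
      have hti : t = i ∨ t = j := by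
        by_contra hcon
        rw [not_or] at hcon
        exact ht (by simp [hcon.1, hcon.2])
      rcases hti with rfl | rfl
      · rw [hT.ni, hT2.ni]
      · rw [hT.nj, hT2.nj])
    (fun t _ => ⟨hT.pos t, hT2.pos t⟩) (by
      intro k hk l hl hkl
      have hk' : k ≠ i ∧ k ≠ j := by simpa using hk
      have hl' : l ≠ i ∧ l ≠ j := by simpa using hl
      have hkl' : σ l < σ k := by
        have h1 : (σ l : ℤ) < (σ k : ℤ) := hkl
        omega
      exact ⟨(hev k l hk'.1 hk'.2 hl'.1 hl'.2).2 hkl', (hev2 k l hk'.1 hk'.2 hl'.1 hl'.2).2 hkl'⟩)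
    (by
      intro k hk l hl hkl
      have hk' : k ≠ i ∧ k ≠ j := by simpa using hk
      have hl' : l ≠ i ∧ l ≠ j := by simpa using hl
      have hkl' : σ k = σ l := by
        have h1 : (σ k : ℤ) = (σ l : ℤ) := hkl
        omega
      exact ⟨(hev k l hk'.1 hk'.2 hl'.1 hl'.2).1 hkl', (hev2 k l hk'.1 hk'.2 hl'.1 hl'.2).1 hkl'⟩)
    (by rw [hb, hb2])
  have hπi : π i = i := hπ1 i (by simp)
  have hπj : π j = j := hπ1 j (by simp)
  have hπσ : ∀ t, σ (π t) = σ t := by
    intro t
    have h1 : (σ (π t) : ℤ) = (σ t : ℤ) := hπ2 t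
    omega
  set f3 : V → Option (Fin r) := fun v => (f v).map π with hf3
  have hT3 : Th1 G f3 w p p₁ i j := by
    have h := ((hREL r V G f π).2.2.1 w p p₁ i j hT).1
    rwa [hπi, hπj] at h
  have hs3 : ∀ t, siz f3 t = σ t := by
    intro t
    rw [hf3, siz_map hREL V G, hs]
    have h := hπσ (π.symm t)
    rwa [Equiv.apply_symm_apply, eq_comm] at h
  have hn3 : ∀ t, nbn G f3 w t = nbn H f2 w' t := by
    intro t
    rw [hf3, nbn_map hREL]
    have h := hπ3 (π.symm t)
    rwa [Equiv.apply_symm_apply, eq_comm] at h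
  exact hISO V U G H (hISO1 r V U G H f3 f2 w p p₁ w' p' p₁' i j hT3 hT2
    (fun t => by rw [hs3, hs2]) hn3)

theorem caseRR (hREL : REL_statement) (hTI2 : TI2_statement)
    (hGVG : GVG_statement) {r b : ℕ} {σ : Fin r → ℕ} (hr : 3 ≤ r) (hσ : ∀ t, 2 ≤ σ t)
    (V U : Type) [Fintype V]
    [Fintype U] (G : SimpleGraph V) (H : SimpleGraph U) (hG : IsXR σ b G) (hH : IsXR σ b H) :
    lam G = lam H := by
  classical
  obtain ⟨f, w, u, v, i, hT, hex, hb, hs, hi, hev⟩ := hG
  obtain ⟨f', w', u', v', i', hT', hex', hb', hs', hi', hev'⟩ := hH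
  obtain rfl := uniq hi hi'
  obtain ⟨π, hπ1, hπ2, hπ3⟩ := hGVG r 1 (Finset.univ.filter fun t => t ≠ i)
    (fun t => (σ t : ℤ)) (nbn G f w) (nbn H f' w') (by
      intro t ht
      have hti : t = i := by simpa using ht
      subst hti
      rw [hT.ni, hT'.ni])
    (fun t ht => by
      have ht' : t ≠ i := by simpa using ht
      exact ⟨hT.pos t ht', hT'.pos t ht'⟩) (by
      intro k hk l hl hkl
      have hk' : k ≠ i := by simpa using hk
      have hl' : l ≠ i := by simpa using hl
      have hkl' : σ l < σ k := by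
        have h1 : (σ l : ℤ) < (σ k : ℤ) := hkl
        omega
      exact ⟨(hev k l hk' hl').2 hkl', (hev' k l hk' hl').2 hkl'⟩)
    (by
      intro k hk l hl hkl
      have hk' : k ≠ i := by simpa using hk
      have hl' : l ≠ i := by simpa using hl
      have hkl' : σ k = σ l := by
        have h1 : (σ k : ℤ) = (σ l : ℤ) := hkl
        omega
      exact ⟨(hev k l hk' hl').1 hkl', (hev' k l hk' hl').1 hkl'⟩)
    (by omega)
  have hπi : π i = i := hπ1 i (by simp)
  have hπσ : ∀ t, σ (π t) = σ t := by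
    intro t
    have h1 : (σ (π t) : ℤ) = (σ t : ℤ) := hπ2 t
    omega
  set f3 : V → Option (Fin r) := fun x => (f x).map π with hf3
  have hT3 : Th2 G f3 w u (fun t => v (π.symm t)) i := by
    have h := (hREL r V G f π).2.2.2 w u v i hT
    rwa [hπi] at h
  have hs3 : ∀ t, siz f3 t = σ t := by
    intro t
    rw [hf3, siz_map hREL V G, hs]
    have h := hπσ (π.symm t)
    rwa [Equiv.apply_symm_apply, eq_comm] at h
  have hn3 : ∀ t, nbn G f3 w t = nbn H f' w' t := by
    intro t
    rw [hf3, nbn_map hREL]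
    have h := hπ3 (π.symm t)
    rwa [Equiv.apply_symm_apply, eq_comm] at h
  refine hTI2 r V U G H f3 f' w u w' u' (fun t => v (π.symm t)) v' i hr hT3.ty hT'.ty
    (fun t => by rw [hs3]; have := hσ t; omega) (fun t => by rw [hs3, hs']) hn3 ?_ hex'
  obtain ⟨t0, ⟨h1, h2⟩, h3⟩ := hex
  refine ⟨π t0, ⟨fun h => h1 (π.injective (by rw [h, hπi])), ?_⟩, ?_⟩
  · simpa using h2
  · rintro t ⟨ht1, ht2⟩
    have h4 := h3 (π.symm t) ⟨fun h => ht1 (by
      have := congrArg π h
      rwa [Equiv.apply_symm_apply, hπi] at this), ht2⟩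
    rw [← h4, Equiv.apply_symm_apply]

end UNX

open UNX in
theorem prfUNX : ISO_statement → MEMP_statement → MEM1_statement → MEM2_statement →
    REL_statement → ISO1_statement → TI2_statement → TIP_statement → GVG_statement →
    UNX_statement := by
  intro hISO hMEMP hMEM1 hMEM2 hREL hISO1 hTI2 hTIP hGVG r m σ V U _ _ G H hr hG hH
  obtain ⟨hσ, hGm, hG⟩ := hG
  obtain ⟨-, hHm, hH⟩ := hH
  have eP : ∀ (W : Type) [Fintype W] (K : SimpleGraph W) (a : ℕ), K.edgeSet.ncard = m →
      IsXP σ a K → 1 ≤ a ∧ 2 * m + 2 * a + ∑ t, σ t ^ 2 = (∑ t, σ t) ^ 2 + 2 * r := by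
    intro W _ K a hK h
    obtain ⟨f, w, q, i, L, hT, hq, hLa, hs, -⟩ := h
    have h1 := (hMEMP r W K f w q i L hr hT).2.2.2.2.2.2
    simp_rw [hs] at h1
    rw [hK, hLa] at h1
    refine ⟨?_, h1⟩
    obtain ⟨t, ht, -⟩ := hq
    rw [← hLa]
    exact Finset.card_pos.mpr ⟨_, ht⟩
  have eQ : ∀ (W : Type) [Fintype W] (K : SimpleGraph W) (b : ℕ), K.edgeSet.ncard = m →
      IsXQ σ b K → 2 * m + 2 + ∑ t, σ t ^ 2 = (∑ t, σ t) ^ 2 + 2 * b := by
    intro W _ K b hK h
    obtain ⟨f, w, p, p', i, j, hT, hb, hs, -⟩ := h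
    have h1 := (hMEM1 r W K f w p p' i j hr hT (fun t => by rw [hs]; exact hσ t)).2.2.2
    simp_rw [hs] at h1
    rw [hK, hb] at h1
    exact h1
  have eR : ∀ (W : Type) [Fintype W] (K : SimpleGraph W) (b : ℕ), K.edgeSet.ncard = m →
      IsXR σ b K → 2 * r ≤ b + 1 ∧ 2 * m + ∑ t, σ t ^ 2 = (∑ t, σ t) ^ 2 + 2 * b := by
    intro W _ K b hK h
    obtain ⟨f, w, u, v, i, hT, -, hb, hs, -⟩ := h
    have h1 := (hMEM2 r W K f w u v i hr hT
      (fun t => by rw [hs]; have := hσ t; omega)).2.2.2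
    simp_rw [hs] at h1
    rw [hK] at h1
    have h2 : r ≤ ∑ t, nbn K f w t + 1 := by
      classical
      have h3 : ∑ t, (if t = i then 0 else 1) ≤ ∑ t, nbn K f w t := by
        refine Finset.sum_le_sum fun t _ => ?_
        split_ifs with h
        · exact Nat.zero_le _
        · exact hT.pos t h
      have h4 : ∑ t : Fin r, (if t = i then 0 else 1) + 1 = r := by
        have h5 : ∑ t : Fin r, ((if t = i then 0 else 1) + (if t = i then 1 else 0)) = r := by
          rw [Finset.sum_congr rfl (g := fun _ => 1) (fun t _ => by split_ifs <;> rfl)]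
          simp
        rw [Finset.sum_add_distrib] at h5
        simpa using h5
      omega
    omega
  rcases hG with ⟨a, hGa⟩ | ⟨b, hb1, hb2, hGb⟩ | ⟨b, hGb⟩
  · obtain ⟨g1, g2⟩ := eP V G a hGm hGa
    rcases hH with ⟨a', hHa⟩ | ⟨b', hb1', hb2', hHb⟩ | ⟨b', hHb⟩
    · obtain ⟨k1, k2⟩ := eP U H a' hHm hHa
      obtain rfl : a = a' := by omega
      exact casePP hTIP hGVG hr V U G H hGa hHa
    · have k2 := eQ U H b' hHm hHb
      omega
    · obtain ⟨k1, k2⟩ := eR U H b' hHm hHb
      omega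
  · have g2 := eQ V G b hGm hGb
    rcases hH with ⟨a', hHa⟩ | ⟨b', hb1', hb2', hHb⟩ | ⟨b', hHb⟩
    · obtain ⟨k1, k2⟩ := eP U H a' hHm hHa
      omega
    · have k2 := eQ U H b' hHm hHb
      obtain rfl : b = b' := by omega
      exact caseQQ hISO hISO1 hREL hGVG V U G H hGb hHb
    · obtain ⟨k1, k2⟩ := eR U H b' hHm hHb
      omega
  · obtain ⟨g1, g2⟩ := eR V G b hGm hGb
    rcases hH with ⟨a', hHa⟩ | ⟨b', hb1', hb2', hHb⟩ | ⟨b', hHb⟩
    · obtain ⟨k1, k2⟩ := eP U H a' hHm hHa
      omega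
    · have k2 := eQ U H b' hHm hHb
      omega
    · obtain ⟨k1, k2⟩ := eR U H b' hHm hHb
      obtain rfl : b = b' := by omega
      exact caseRR hREL hTI2 hGVG hr hσ V U G H hGb hHb

end MP0c3a8f

end

section

/-!
# MP_0c3a8f_co, phase B, item AIK: alternative one for very small `D`
-/

open Finset

namespace MP0c3a8f

namespace ItemAIK

/-- the number of edges -/
theorem count (hC : CNTU_statement) (hD : DEV_statement) {V : Type} [Fintype V] {r n : ℕ}
    (hr : 1 ≤ r) (G : SimpleGraph V) (g : V → Option (Fin r)) (hi : Indep G g)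
    (ht : ∑ t, siz g t = n) :
    2 * (G.edgeSet.ncard : ℝ) + 2 * ((missSet G g).ncard : ℝ) + dev (siz g) =
      qq r * (n : ℝ) ^ 2 + 2 * ((outSet G g).ncard : ℝ) := by
  obtain ⟨e, he, h1⟩ := hC r V G g ∅ hi (by
    intro v hv
    exact absurd hv (Finset.notMem_empty v))
  rw [Finset.card_empty] at he
  have he0 : e = 0 := by omega
  have hlo : lightSet G g ∅ = outSet G g := by
    ext e
    simp [lightSet, outSet]
  rw [he0, Finset.sum_empty, ht, hlo] at h1
  obtain ⟨-, -, -, h4, -, -⟩ := hD r n (siz g) hr ht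
  have h2 : 2 * (G.edgeSet.ncard : ℝ) + 2 * ((missSet G g).ncard : ℝ)
      + ∑ t, (siz g t : ℝ) ^ 2 =
      (n : ℝ) ^ 2 + 2 * ((outSet G g).ncard : ℝ) := by
    have h3 : 2 * G.edgeSet.ncard + 2 * (missSet G g).ncard + ∑ t, siz g t ^ 2 =
        n ^ 2 + 2 * (outSet G g).ncard := by
      omega
    exact_mod_cast h3
  rw [h4]
  unfold qq
  linear_combination h2

theorem dev_nonneg {r : ℕ} (σ : Fin r → ℕ) : 0 ≤ dev σ := by
  unfold dev
  exact Finset.sum_nonneg fun t _ => sq_nonneg _

end ItemAIK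

/-- (AIK) from `AltI`, very small `D` -/
theorem prfAIK : DEV_statement → CNTU_statement → AIK_statement := by
  intro hDev hCntu r N hr
  have hN0 : (0 : ℝ) ≤ N := Nat.cast_nonneg N
  refine ⟨3 * N, 1, by linarith, ?_⟩
  intro V _ G n D hn hDh hm hI
  obtain ⟨-, g, w, hB, -⟩ := hI
  have hn1 : (1 : ℝ) ≤ n := by exact_mod_cast hn
  have hs1 : 1 ≤ Real.sqrt n := Real.one_le_sqrt.2 hn1
  have hh1 : 1 ≤ Real.sqrt (Real.sqrt n) := Real.one_le_sqrt.2 hs1
  have hr1 : 1 ≤ r := by omega
  have h1 := ItemAIK.count hCntu hDev hr1 G g hB.indep hB.tot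
  obtain ⟨e1, -, -, -, -, -⟩ := hDev r n (siz g) hr1 hB.tot
  obtain ⟨-, -, -, e4, -, e6⟩ := hDev r n (tz r n) hr1 e1
  unfold Sz at e6
  rw [e1] at e6
  have e7 : 2 * ((SimpleGraph.turanGraph n r).edgeSet.ncard : ℝ)
      + ∑ t, (tz r n t : ℝ) ^ 2 = (n : ℝ) ^ 2 := by
    have e8 : 2 * (SimpleGraph.turanGraph n r).edgeSet.ncard + ∑ t, tz r n t ^ 2 = n ^ 2 := by
      omega
    exact_mod_cast e8
  have e9 : qq r * (n : ℝ) ^ 2 = 2 * ((SimpleGraph.turanGraph n r).edgeSet.ncard : ℝ)
      + dev (tz r n) := by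
    rw [e4]
    unfold qq
    linear_combination (-1 : ℝ) * e7
  have hmR : (G.edgeSet.ncard : ℝ) = (SimpleGraph.turanGraph n r).edgeSet.ncard + D := by
    exact_mod_cast hm
  have hd1 := ItemAIK.dev_nonneg (tz r n)
  have hd2 := ItemAIK.dev_nonneg (siz g)
  have hb := hB.bnd
  have ha0 : (0 : ℝ) ≤ ((missSet G g).ncard : ℝ) := Nat.cast_nonneg _
  have hl0 : (0 : ℝ) ≤ ((lightSet G g {w}).ncard : ℝ) := Nat.cast_nonneg _
  have hNh : (N : ℝ) ≤ N * Real.sqrt (Real.sqrt n) := le_mul_of_one_le_right hN0 hh1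
  have hNn : (N : ℝ) ≤ N * n := le_mul_of_one_le_right hN0 hn1
  refine ⟨g, ⟨hB.indep, hB.tot, ?_, ?_⟩, ?_⟩
  · nlinarith
  · nlinarith
  · linarith

end MP0c3a8f

end

section

/-!
# MP_0c3a8f_co: item PEK (the leaves, type `P`, nearly balanced classes)
-/

open Finset

namespace MP0c3a8f

namespace ItemPEK

/-- the numbers -/
theorem half {h n l q C C₁ C₂ : ℝ} (hn : (h * h) * (h * h) = n) (hq : 2 / 3 ≤ q)
    (hC : 0 ≤ C) (hC₁ : 0 ≤ C₁) (hC₂ : 0 ≤ C₂)
    (hbig : 4 * C₂ * (C + 1) + 12 * C₁ + 8 ≤ h)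
    (hl : |l - q * n| ≤ C₁ * h) : n / 2 < l := by
  have h0 : 0 ≤ 4 * C₂ * (C + 1) := by positivity
  have h8 : 8 ≤ h := by linarith
  have hh0 : 0 < h := by linarith
  have hhh : 0 < h * h := by positivity
  have hhle : 8 * h ≤ h * h := mul_le_mul_of_nonneg_right h8 hh0.le
  have h64 : 64 ≤ h * h := by linarith
  have hn1 : 64 * (h * h) ≤ n := by
    rw [← hn]
    exact mul_le_mul_of_nonneg_right h64 hhh.le
  have hn0 : 0 < n := by linarith
  have h1 := (abs_le.1 hl).1
  have h2 : 12 * C₁ * h ≤ h * h := mul_le_mul_of_nonneg_right (by linarith) hh0.le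
  have h3 : 2 / 3 * n ≤ q * n := mul_le_mul_of_nonneg_right hq hn0.le
  linarith

theorem two_le {r : ℕ} (σ : Fin r → ℕ) {s t : Fin r} (hst : s ≠ t) :
    σ s + σ t ≤ ∑ t, σ t := by
  classical
  have h1 : ∑ x ∈ ({s, t} : Finset (Fin r)), σ x = σ s + σ t := by
    rw [Finset.sum_insert (by simp [hst]), Finset.sum_singleton]
  have h2 : ∑ x ∈ ({s, t} : Finset (Fin r)), σ x ≤ ∑ x, σ x :=
    Finset.sum_le_sum_of_subset (Finset.subset_univ _)
  omega

end ItemPEK

open ItemPEV ItemPEK in
theorem prfPEK : P_statement → FLU_statement → TCL_statement → MVE_statement → MEMP_statement →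
    PEK_statement := by
  classical
  intro hP hF hTC hMV hME r C hr hC
  obtain ⟨C₁, n₁, hC₁, h₁⟩ := hF r C hr hC
  obtain ⟨C₂, n₂, hC₂, h₂⟩ := hTC r C hr hC
  obtain ⟨n₃, hn₃⟩ := exists_nat_ge ((4 * C₂ * (C + 1) + 12 * C₁ + 8) ^ 4)
  refine ⟨n₁ + n₂ + n₃, ?_⟩
  intro V _ G g w q i L n m hn hM hNK hT
  obtain ⟨h, hh⟩ : ∃ h : ℝ, h = Real.sqrt (Real.sqrt n) := ⟨_, rfl⟩
  have hbig : 4 * C₂ * (C + 1) + 12 * C₁ + 8 ≤ h := by
    rw [hh]
    exact big hn₃ (by omega)
  obtain ⟨⟨z, hz⟩, hz2⟩ := h₁ V G g n (by omega) hNK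
  obtain ⟨hz1, -, hlam, -⟩ := hz2 z hz
  obtain ⟨hrow, hcls, hdif⟩ := h₂ V G z g n (by omega) hNK hz
  obtain ⟨-, -, -, -, hmL, -, -⟩ := hME r V G g w q i L hr hT
  have hfew := hNK.few
  rw [hmL, ← hh] at hfew
  have ha : (L.card : ℝ) ≤ C * h := by
    have : (0 : ℝ) ≤ (outSet G g).ncard := Nat.cast_nonneg _
    linarith
  rw [← hh] at hlam
  have hhs : h * h = Real.sqrt n := by rw [hh]; exact Real.mul_self_sqrt (Real.sqrt_nonneg _)
  have hn0 : (h * h) * (h * h) = n := by rw [hhs]; exact Real.mul_self_sqrt (Nat.cast_nonneg n)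
  have hr0 : (3 : ℝ) ≤ r := by exact_mod_cast hr
  have hq : 2 / 3 ≤ qq r := by
    unfold qq
    have : 1 / (r : ℝ) ≤ 1 / 3 := one_div_le_one_div_of_le (by norm_num) hr0
    linarith
  obtain ⟨hl1, hl8, hk, hsm, hnpos⟩ := num hn0 hq hC hC₁ hC₂ hbig ha hlam
  have hl2 := half hn0 hq hC hC₁ hC₂ hbig hlam
  rw [← hhs] at hz1
  have hl : 0 < lam G := by linarith
  have hgp : g (q i) ≠ none := by rw [hT.hq]; simp
  have hp1 := abs_le.1 (hz1 _ hgp)
  have hp : 0 < z (q i) := by linarith [hp1.1]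
  have hp2 : z (q i) ≤ 2 := by linarith [hp1.2]
  have hzw : 0 < z w := by
    have h5 := hz.eig w
    have h6 : z (q i) ≤ ∑ u, adj G w u * z u := by
      have h7 : adj G w (q i) * z (q i) ≤ ∑ u, adj G w u * z u :=
        Finset.single_le_sum (f := fun u => adj G w u * z u)
          (fun u _ => mul_nonneg (adj_nonneg G w u) (hz.nonneg u)) (Finset.mem_univ (q i))
      have h8 : adj G w (q i) = 1 := by
        unfold adj
        rw [if_pos ((hT.wn _).2 ⟨i, rfl⟩)]
      rw [h8, one_mul] at h7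
      exact h7
    rw [h5] at h6
    by_contra hcon
    push Not at hcon
    have : lam G * z w ≤ 0 := mul_nonpos_of_nonneg_of_nonpos hl.le hcon
    linarith
  obtain ⟨T, hTd⟩ : ∃ T : Fin r → ℝ, T = fun t => tv g z n t := ⟨_, rfl⟩
  have hTt : ∀ t, tv g z n t = T t := fun t => by rw [hTd]
  -- the rows
  have hL1 : ∀ v t, g v = some t → t ≠ i → v ∈ L → v ≠ q t →
      lam G * z v = T t - z (q i) := by
    intro v t hv hti hvL hvq
    have h5 := hrow v t hv
    rw [hTt, muv_eq hT z hv hti, omv_eq hT z hv, if_pos hvL, if_neg hvq] at h5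
    linarith
  have hL2 : ∀ v t, g v = some t → t ≠ i → v ∈ L → v = q t →
      lam G * z v = T t - z (q i) + z w := by
    intro v t hv hti hvL hvq
    have h5 := hrow v t hv
    rw [hTt, muv_eq hT z hv hti, omv_eq hT z hv, if_pos hvL, if_pos hvq] at h5
    linarith
  have hL3 : ∀ v t, g v = some t → t ≠ i → v ∉ L → v ≠ q t → lam G * z v = T t := by
    intro v t hv hti hvL hvq
    have h5 := hrow v t hv
    rw [hTt, muv_eq hT z hv hti, omv_eq hT z hv, if_neg hvL, if_neg hvq] at h5
    linarith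
  have hL4 : ∀ v t, g v = some t → t ≠ i → v ∉ L → v = q t → lam G * z v = T t + z w := by
    intro v t hv hti hvL hvq
    have h5 := hrow v t hv
    rw [hTt, muv_eq hT z hv hti, omv_eq hT z hv, if_neg hvL, if_pos hvq] at h5
    linarith
  have hne : ∀ v ∈ L, ∀ t, g v = some t → t ≠ i := fun v hv t hvt e =>
    (hT.hL v hv).2 (by rw [hvt, e])
  have huniq : ∀ s t, q s ∈ L → q t ∈ L → s = t := fun s t hs ht =>
    uniq hMV hME hr hM hT hz.nonneg hz.eig hl hp hzw (T := T)
      (fun t ht => hL2 _ t (hT.hq t) (hne _ ht t (hT.hq t)) ht rfl)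
      (fun t y' hti hy' hy'L hy'q => hL3 y' t hy' hti hy'L hy'q) hs ht
  have step : ∀ (y y' : V) (s u : Fin r), y ∈ L → g y = some s → y' ∉ L → g y' = some u →
      u ≠ i → (y = q s ↔ y' = q u) → T s - T u ≤ z (q i) / lam G := by
    intro y y' s u hy hys hy' hyu hui hiff
    have hsi := hne y hy s hys
    exact stepP hMV hME hr hM hT hz.nonneg hz.eig hl hp (T := T)
      (fun h => hL1 y s hys hsi hy h) (fun h => hL2 y s hys hsi hy h)
      (fun h => hL3 y' u hyu hui hy' h) (fun h => hL4 y' u hyu hui hy' h)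
      hy hys hy' hyu hui hiff
  refine ⟨?_, ?_, ?_⟩
  · obtain ⟨t, ht⟩ := hT.ex
    exact ⟨t, ht, fun s hs => huniq s t hs ht⟩
  · intro v hv s hvs u hui
    by_contra hcon
    push Not at hcon
    have h5 : T s - T u ≤ z (q i) / lam G := by
      by_cases hvq : v = q s
      · refine step v (q u) s u hv hvs ?_ (hT.hq u) hui ⟨fun _ => rfl, fun _ => hvq⟩
        intro h6
        have h7 := huniq u s h6 (hvq ▸ hv)
        rw [h7] at hcon
        exact lt_irrefl _ hcon
      · obtain ⟨y', hy', hy'L, hy'q⟩ := exists_out g L (hT.room u) (q u)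
        exact step v y' s u hv hvs hy'L hy' hui
          ⟨fun h => absurd h hvq, fun h => absurd h hy'q⟩
    have h6 := hdif s u hcon.le
    rw [hTt, hTt, hmL] at h6
    have h7 : (siz g s : ℝ) + 1 ≤ siz g u := by exact_mod_cast hcon
    have h8 : z (q i) / lam G ≤ 2 / lam G := div_le_div_of_nonneg_right hp2 hl.le
    have h9 : 2 / lam G < 1 / 4 := by
      rw [div_lt_iff₀ hl]
      linarith
    linarith
  · intro s t hsi hti hst
    by_contra hcon
    push Not at hcon
    have hne' : s ≠ t := by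
      rintro rfl
      omega
    obtain ⟨y, hy, hys, hyq⟩ := exists_in g L (by omega : 2 ≤ lc L g s) (q s)
    obtain ⟨y', hy', hy'L, hy'q⟩ := exists_out g L (hT.room t) (q t)
    have h5 := step y y' s t hy hys hy'L hy' hti
      ⟨fun h => absurd h hyq, fun h => absurd h hy'q⟩
    have h6 := hcls s
    have h7 := hcls t
    rw [hTt, cw_muv hT z hsi, cw_omv hT z] at h6
    rw [hTt, cw_muv hT z hti, cw_omv hT z] at h7
    rw [← hst] at h7
    have h8 := two_le (siz g) hne'
    rw [hNK.tot, ← hst] at h8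
    have h11 : (siz g s : ℝ) + siz g s ≤ n := by exact_mod_cast h8
    have h12 : (lc L g t : ℝ) + 2 ≤ lc L g s := by exact_mod_cast hcon
    have h13 : 2 * z (q i) ≤ ((lc L g s : ℝ) - lc L g t) * z (q i) :=
      mul_le_mul_of_nonneg_right (by linarith) hp.le
    have h14 := final_le hl (Nat.cast_nonneg (siz g s)) (by linarith) hp h13
      (D := T s - T t) (by linarith)
    linarith

end MP0c3a8f

end

section

/-! Item CSB (helper41): the defect is the cost up to `o(1)`. -/

set_option autoImplicit false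

open Finset

namespace MP0c3a8f

theorem prfCSB : BDU_statement → SEC_statement → CNTU_statement → DEV_statement →
    CSB_statement := by
  intro hB hS hC _ r N ε hr hε
  obtain ⟨C, n₁, hC0, hn₁⟩ := hB r N hr
  obtain ⟨n₂, hn₂⟩ := hS r N (ε / 2) hr (by positivity)
  refine ⟨max (max n₁ n₂) (⌈2 * C / ε⌉₊ + 1), ?_⟩
  intro V _ G g w n hn hBd
  have hnn₁ : n₁ ≤ n := (le_max_left _ _).trans ((le_max_left _ _).trans hn)
  have hnn₂ : n₂ ≤ n := (le_max_right _ _).trans ((le_max_left _ _).trans hn)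
  have hn3 : ⌈2 * C / ε⌉₊ + 1 ≤ n := (le_max_right _ _).trans hn
  have hn0 : (0 : ℝ) < n := by
    have : 0 < n := by omega
    exact_mod_cast this
  have hCn : C / n ≤ ε / 2 := by
    have h1 : 2 * C / ε ≤ n := by
      refine (Nat.le_ceil _).trans ?_
      exact_mod_cast (Nat.le_succ _).trans hn3
    rw [div_le_iff₀ hε] at h1
    rw [div_le_iff₀ hn0]
    linarith
  have hU : ∀ v ∈ ({w} : Finset V), g v = none := by
    intro v hv
    rw [mem_singleton] at hv
    rw [hv]
    exact hBd.out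
  have hdev0 : 0 ≤ dev (siz g) := by unfold dev; positivity
  have hb := hBd.bnd
  have hbdu := hn₁ V G g w n hnn₁ hBd
  obtain ⟨e, he, hE⟩ := hC r V G g {w} hBd.indep hU
  have he0 : e = 0 := by simp at he; exact he
  rw [he0, sum_singleton] at hE
  unfold Def Cst
  set a : ℝ := ((missSet G g).ncard : ℝ) with ha
  set b : ℝ := ((lightSet G g {w}).ncard : ℝ) with hbb
  have ha0 : 0 ≤ a := by positivity
  have hb0 : 0 ≤ b := by positivity
  have hsec := (hn₂ V (KU G g {w}) g w n hnn₂ (ItemLBG.isKU G g {w} hU) hBd.tot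
    (by linarith)).1
  rw [ItemLBG.nbn_KU G g w hBd.out] at hsec
  have hEr : (2 : ℝ) * G.edgeSet.ncard + 2 * a + ∑ t, (siz g t : ℝ) ^ 2
      = (∑ t, (siz g t : ℝ)) ^ 2 + 2 * (∑ t, (nbn G g w t : ℝ)) + 2 * b := by
    have := congrArg (Nat.cast : ℕ → ℝ) hE
    push_cast at this
    linarith
  have hr' : (r : ℝ) ≠ 0 := by positivity
  have hdev := ItemLBG.dev_eq (by omega : 1 ≤ r) (siz g)
  have hq : qq r * (∑ t, (siz g t : ℝ)) ^ 2 =
      (∑ t, (siz g t : ℝ)) ^ 2 - (∑ t, (siz g t : ℝ)) ^ 2 / r := by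
    unfold qq; field_simp
  have hE2 : (2 : ℝ) * G.edgeSet.ncard = (qq r * (∑ t, (siz g t : ℝ)) ^ 2 - dev (siz g))
      + 2 * (∑ t, (nbn G g w t : ℝ)) - 2 * a + 2 * b := by
    rw [hq, hdev]; linarith
  have hKap : Kap r (siz g) (nbn G g w) = qq r * (qq r * (∑ t, (siz g t : ℝ)) ^ 2 - dev (siz g))
      + 2 * qq r * ∑ t, (nbn G g w t : ℝ) - Mu r (siz g) (nbn G g w) := rfl
  have hqE : 2 * qq r * (G.edgeSet.ncard : ℝ) =
      qq r * (qq r * (∑ t, (siz g t : ℝ)) ^ 2 - dev (siz g))
      + 2 * qq r * (∑ t, (nbn G g w t : ℝ)) - 2 * qq r * a + 2 * qq r * b := by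
    have : 2 * qq r * (G.edgeSet.ncard : ℝ) = qq r * (2 * G.edgeSet.ncard) := by ring
    rw [this, hE2]; ring
  rw [hKap, hqE]
  rw [abs_le] at hbdu hsec ⊢
  constructor
  · linarith [hbdu.1, hbdu.2, hsec.1, hsec.2]
  · linarith [hbdu.1, hbdu.2, hsec.1, hsec.2]

end MP0c3a8f

end

section

/-!
# MP_0c3a8f_co: the candidates are in `N_r(m, K_{r+1})`
-/

open Finset

namespace MP0c3a8f

theorem prfYIN : MEMP_statement → MEM1_statement → MEM2_statement → YIN_statement := by
  intro hP h1 h2 r m σ V _ G hr hY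
  obtain ⟨hσ, hm, hY⟩ := hY
  rcases hY with hY | hY | hY
  · obtain ⟨f, w, q, i, L, hT, -⟩ := hY
    obtain ⟨a, b, c, -⟩ := hP r V G f w q i L hr hT
    exact ⟨a, hm, c, b⟩
  · obtain ⟨f, w, p, p', i, j, hT, hs, -⟩ := hY
    obtain ⟨a, b, c, -⟩ := h1 r V G f w p p' i j hr hT (fun t => by rw [hs t]; exact hσ t)
    exact ⟨a, hm, c, b⟩
  · obtain ⟨f, w, u, v, i, hT, -, hs, -⟩ := hY
    obtain ⟨a, b, c, -⟩ := h2 r V G f w u v i hr hT
      (fun t => by rw [hs t]; exact le_trans (by norm_num) (hσ t))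
    exact ⟨a, hm, c, b⟩

end MP0c3a8f

end
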