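import Pool.Agent.Work.MP_0c3a8f_co.PB.Stmts8
import Pool.Agent.Work.MP_0c3a8f_co.PB.ItemFLU
import Pool.Agent.Work.MP_0c3a8f_co.PB.Stmts9
import Pool.Agent.Work.MP_0c3a8f_co.PB.ItemPEV
import Pool.Agent.Work.MP_0c3a8f_co.Bd.B17
import Pool.Agent.Work.MP_0c3a8f_co.Bd.B18
import Pool.Agent.Work.MP_0c3a8f_co.Bd.B16
import Pool.Agent.Work.MP_0c3a8f_co.Bd.B05
import Pool.Agent.Work.MP_0c3a8f_co.Bd.B19
import Pool.Agent.Work.MP_0c3a8f_co.PB.ItemMVE
import Pool.Agent.Work.MP_0c3a8f_co.Bd.B20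
import Pool.Agent.Work.MP_0c3a8f_co.PB.ItemSQE
import Pool.Agent.Work.MP_0c3a8f_co.PB.ItemFAMP
import Pool.Agent.Work.MP_0c3a8f_co.PB.ItemRLE
import Pool.Agent.Work.MP_0c3a8f_co.PB.ItemPST
import Pool.Agent.Work.MP_0c3a8f_co.PB.ItemQST
import Pool.Agent.Work.MP_0c3a8f_co.PB.Stmts10

/-! Bundle of small proof modules (one section per former module). -/

section

/-!
# MP_0c3a8f_co: item TCL (the eigenvalue equations and the weights of the classes)
-/

open Finset

namespace MP0c3a8f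

namespace ItemTCL

open ItemFLU

variable {V : Type} {r : ℕ} [Fintype V]

theorem muv_eq (G : SimpleGraph V) (g : V → Option (Fin r)) (z : V → ℝ) (v : V) (t : Fin r)
    (hv : g v = some t) : muv G g z v = ∑ u, mi G g z t v u := by
  unfold muv mi RM
  refine Finset.sum_congr rfl fun u _ => ?_
  by_cases h1 : g u ≠ none ∧ g u ≠ some t ∧ ¬ G.Adj v u
  · rw [if_pos ⟨by rw [hv]; simp, h1.1, by rw [hv]; exact h1.2.1, h1.2.2⟩, if_pos ⟨hv, h1⟩]
  · rw [if_neg (fun h => h1 ⟨h.2.1, by rw [← hv]; exact h.2.2.1, h.2.2.2⟩),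
      if_neg (fun h => h1 h.2)]

theorem omv_eq (G : SimpleGraph V) (g : V → Option (Fin r)) (z : V → ℝ) (v : V) (t : Fin r)
    (hv : g v = some t) : omv G g z v = ∑ u, li G g z t v u := by
  unfold omv li RL
  refine Finset.sum_congr rfl fun u _ => ?_
  by_cases h1 : g u = none ∧ G.Adj v u
  · rw [if_pos h1, if_pos ⟨hv, h1⟩]
  · rw [if_neg h1, if_neg (fun h => h1 h.2)]

theorem cw_muv (G : SimpleGraph V) (g : V → Option (Fin r)) (z : V → ℝ) (t : Fin r) :
    cw (fun v => muv G g z v) g (some t) = ∑ v, ∑ u, mi G g z t v u := by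
  classical
  unfold cw
  refine Finset.sum_congr rfl fun v _ => ?_
  by_cases hv : g v = some t
  · rw [if_pos hv]
    exact muv_eq G g z v t hv
  · rw [if_neg hv, Finset.sum_eq_zero]
    intro u _
    unfold mi
    rw [if_neg (fun h => hv h.1)]

theorem cw_omv (G : SimpleGraph V) (g : V → Option (Fin r)) (z : V → ℝ) (t : Fin r) :
    cw (fun v => omv G g z v) g (some t) = ∑ v, ∑ u, li G g z t v u := by
  classical
  unfold cw
  refine Finset.sum_congr rfl fun v _ => ?_
  by_cases hv : g v = some t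
  · rw [if_pos hv]
    exact omv_eq G g z v t hv
  · rw [if_neg hv, Finset.sum_eq_zero]
    intro u _
    unfold li
    rw [if_neg (fun h => hv h.1)]

/-- the arithmetic of the last clause -/
theorem ar {n l σs σt Ts Tt Xs Xt a : ℝ} (hn : 0 < n) (hl : 6566 / 10000 * n ≤ l)
    (hσs : 0 ≤ σs) (hσt : 0 ≤ σt) (hDs : l + σs ≤ 101 / 100 * n) (hDt : l + σt ≤ 101 / 100 * n)
    (hst : σs ≤ σt) (h1 : (l + σs) * Ts = l * n + Xs) (h2 : (l + σt) * Tt = l * n + Xt)
    (hXs : -1 ≤ Xs) (hXt : Xt ≤ 2 * a) (ha : 0 ≤ a) :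
    (σt - σs) / 2 - 4 * (a + 1) / n ≤ Ts - Tt := by
  have hDs0 : n / 2 ≤ l + σs := by linarith
  have hDt0 : n / 2 ≤ l + σt := by linarith
  have hs0 : 0 < l + σs := by linarith
  have ht0 : 0 < l + σt := by linarith
  have e1 : Ts = (l * n + Xs) / (l + σs) := by
    rw [← h1, mul_div_cancel_left₀ _ hs0.ne']
  have e2 : Tt = (l * n + Xt) / (l + σt) := by
    rw [← h2, mul_div_cancel_left₀ _ ht0.ne']
  have e3 : Ts - Tt = l * n * (σt - σs) / ((l + σs) * (l + σt)) + Xs / (l + σs) -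
      Xt / (l + σt) := by
    rw [e1, e2]
    field_simp
    ring
  have h3 : (σt - σs) / 2 ≤ l * n * (σt - σs) / ((l + σs) * (l + σt)) := by
    rw [le_div_iff₀ (by positivity)]
    have h4 : (l + σs) * (l + σt) ≤ 101 / 100 * n * (101 / 100 * n) :=
      mul_le_mul hDs hDt ht0.le (by positivity)
    have h5 : 6566 / 10000 * n * n ≤ l * n := mul_le_mul_of_nonneg_right hl hn.le
    have h6 : (l + σs) * (l + σt) ≤ 2 * (l * n) := by nlinarith [mul_pos hn hn]
    have h7 : 0 ≤ σt - σs := by linarith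
    nlinarith [mul_le_mul_of_nonneg_left h6 h7]
  have h4 : -(2 / n) ≤ Xs / (l + σs) := by
    have h5 : -1 / (l + σs) ≤ Xs / (l + σs) := div_le_div_of_nonneg_right hXs hs0.le
    have h6 : 1 / (l + σs) ≤ 2 / n := by
      rw [div_le_div_iff₀ hs0 hn]
      linarith
    have h7 : -1 / (l + σs) = -(1 / (l + σs)) := by ring
    linarith
  have h5 : Xt / (l + σt) ≤ 4 * a / n := by
    rw [div_le_div_iff₀ ht0 hn]
    have h6 : Xt * n ≤ 2 * a * n := mul_le_mul_of_nonneg_right hXt hn.le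
    have h7 : 4 * a * (n / 2) ≤ 4 * a * (l + σt) := mul_le_mul_of_nonneg_left hDt0 (by linarith)
    linarith
  have h6 : 4 * (a + 1) / n = 4 * a / n + 2 / n + 2 / n := by ring
  have h7 : 0 < 2 / n := by positivity
  rw [e3, h6]
  linarith

end ItemTCL

open ItemFLU ItemTCL in
theorem prfTCL : FLU_statement → TCL_statement := by
  classical
  intro hF r C hr hC
  obtain ⟨C', n₁, hC', hF⟩ := hF r C hr hC
  obtain ⟨c, hc⟩ : ∃ c : ℝ, c = C' + Real.sqrt C := ⟨_, rfl⟩
  have hc0 : 0 ≤ c := by rw [hc]; positivity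
  obtain ⟨n₂, hn₂⟩ := exists_nat_ge ((100 * (c + 1) + C * C' + 1) ^ 2)
  refine ⟨4, max n₁ n₂, by norm_num, ?_⟩
  intro V _ G z g n hn hNK hz
  have hn1 : n₁ ≤ n := le_trans (le_max_left _ _) hn
  have hn2 : (n₂ : ℝ) ≤ n := by exact_mod_cast le_trans (le_max_right _ _) hn
  obtain ⟨-, hFz⟩ := hF V G g n hn1 hNK
  obtain ⟨f1, f2, f3, -⟩ := hFz z hz
  obtain ⟨hI, htot, hdev, hfew⟩ := hNK
  obtain ⟨hz0, hze, hzs⟩ := hz
  obtain ⟨s, hsd⟩ : ∃ s : ℝ, s = Real.sqrt n := ⟨_, rfl⟩
  obtain ⟨h, hhd⟩ : ∃ h : ℝ, h = Real.sqrt s := ⟨_, rfl⟩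
  have hCC : 0 ≤ C * C' := mul_nonneg hC hC'
  have hsS : 100 * (c + 1) + C * C' + 1 ≤ s := by
    rw [hsd, Real.le_sqrt (by positivity) (by positivity)]
    exact hn₂.trans hn2
  have hs1 : 1 ≤ s := by linarith
  have hs : s * s = n := by rw [hsd]; exact Real.mul_self_sqrt (by positivity)
  have hh : h * h = s := by rw [hhd]; exact Real.mul_self_sqrt (by linarith)
  have h1 : 1 ≤ h := by rw [hhd, Real.one_le_sqrt]; linarith
  have hhs : h ≤ s := by rw [← hh]; exact le_mul_of_one_le_left (by linarith) h1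
  have hsn : s ≤ n := by rw [← hs]; exact le_mul_of_one_le_left (by linarith) (by linarith)
  have hn0 : (0 : ℝ) < n := by linarith
  have hs0 : 0 < s := by linarith
  rw [← hsd] at f1 f2 f3 hfew
  rw [← hhd] at f2 f3 hfew
  have hC's : C' ≤ s := by
    have : 0 ≤ Real.sqrt C := Real.sqrt_nonneg _
    linarith
  have ha0 : (0 : ℝ) ≤ (missSet G g).ncard := Nat.cast_nonneg _
  have hb0 : (0 : ℝ) ≤ (outSet G g).ncard := Nat.cast_nonneg _
  -- `z ≤ 2`
  have hZ1 : C' * h / n ≤ 1 := by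
    rw [div_le_one hn0, ← hs]
    exact mul_le_mul hC's hhs (by linarith) hs0.le
  have hz2 : ∀ v, z v ≤ 2 := by
    intro v
    by_cases hv : g v = none
    · have := f2 v hv
      linarith
    · have h2 := (abs_le.1 (f1 v hv)).2
      have h3 : C' / s ≤ 1 := by rw [div_le_one hs0]; exact hC's
      linarith
  have hM := fun t => mi_le G g z t 2 hz2 (by norm_num)
  have hZ0 : 0 ≤ C' * h / n := by positivity
  have hO := fun t => li_le G g z t (C' * h / n) f2 hZ0
  have hO1 : ((outSet G g).ncard : ℝ) * (C' * h / n) ≤ 1 := by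
    have h2 : ((outSet G g).ncard : ℝ) ≤ C * h := by linarith
    have h3 : ((outSet G g).ncard : ℝ) * (C' * h / n) ≤ C * h * (C' * h / n) :=
      mul_le_mul_of_nonneg_right h2 hZ0
    have h4 : C * h * (C' * h / n) = C * C' * s / n := by rw [← hh]; ring
    have h5 : C * C' * s / n ≤ 1 := by
      rw [div_le_one hn0, ← hs]
      exact mul_le_mul_of_nonneg_right (by linarith) hs0.le
    linarith
  have hm0 : ∀ t, 0 ≤ ∑ v, ∑ u, mi G g z t v u := fun t =>
    Finset.sum_nonneg fun v _ => Finset.sum_nonneg fun u _ => mi_nonneg G g z hz0 t v u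
  have hl0 : ∀ t, 0 ≤ ∑ v, ∑ u, li G g z t v u := fun t =>
    Finset.sum_nonneg fun v _ => Finset.sum_nonneg fun u _ => li_nonneg G g z hz0 t v u
  have heq : ∀ t, (lam G + siz g t) * tv g z n t = lam G * n
      + (cw (fun v => muv G g z v) g (some t) - cw (fun v => omv G g z v) g (some t)) := by
    intro t
    have h5 := clsum hI z t
    have h6 : ∑ u, (if g u = some t then ∑ v, adj G u v * z v else 0) =
        lam G * cw z g (some t) := by
      unfold cw
      rw [Finset.mul_sum]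
      refine Finset.sum_congr rfl fun u _ => ?_
      by_cases hu : g u = some t
      · simp [hu, hze u]
      · simp [hu]
    rw [h6, hzs] at h5
    rw [cw_muv, cw_omv]
    unfold tv
    linear_combination -h5
  refine ⟨?_, heq, ?_⟩
  · intro v t hv
    have h7 := row hI z v t hv
    rw [hze v, hzs] at h7
    rw [h7, muv_eq G g z v t hv, omv_eq G g z v t hv, tv]
  · intro s' t hst
    have hr3 : (3 : ℝ) ≤ r := by exact_mod_cast hr
    have hsum : ∑ t, (siz g t : ℝ) = n := by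
      rw [← htot]
      push_cast
      rfl
    have hq1 : 2 / 3 ≤ qq r := by
      unfold qq
      have : 1 / (r : ℝ) ≤ 1 / 3 := one_div_le_one_div_of_le (by norm_num) hr3
      linarith
    have hqn : qq r * n + n / r = n := by
      unfold qq
      field_simp
      ring
    have hσ : ∀ t, |(siz g t : ℝ) - n / r| ≤ Real.sqrt C * s := by
      intro t
      have h2 := ItemUB1.abs_le_sqrt_dev (siz g) t
      rw [hsum] at h2
      refine h2.trans ?_
      rw [hsd, ← Real.sqrt_mul hC]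
      exact Real.sqrt_le_sqrt hdev
    have hC'h : C' * h ≤ C' * s := mul_le_mul_of_nonneg_left hhs hC'
    have hcs : c * s ≤ n / 100 := by
      have h2 : 100 * c ≤ s := by linarith
      have h3 : 100 * c * s ≤ s * s := mul_le_mul_of_nonneg_right h2 hs0.le
      rw [hs] at h3
      linarith
    have hcs' : c * s = C' * s + Real.sqrt C * s := by rw [hc]; ring
    have hsCs : 0 ≤ Real.sqrt C * s := by positivity
    have hlow : 6566 / 10000 * (n : ℝ) ≤ lam G := by
      have h2 := (abs_le.1 f3).1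
      have h3 : 2 / 3 * (n : ℝ) ≤ qq r * n := mul_le_mul_of_nonneg_right hq1 hn0.le
      linarith
    have hD : ∀ t, lam G + siz g t ≤ 101 / 100 * n := by
      intro t
      have h2 := (abs_le.1 f3).2
      have h3 := (abs_le.1 (hσ t)).2
      linarith
    have hst' : (siz g s' : ℝ) ≤ siz g t := by exact_mod_cast hst
    refine ar hn0 hlow (Nat.cast_nonneg _) (Nat.cast_nonneg _) (hD s') (hD t) hst'
      (heq s') (heq t) ?_ ?_ ha0
    · rw [cw_muv, cw_omv]
      linarith [hm0 s', hO s']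
    · rw [cw_muv, cw_omv]
      linarith [hl0 t, hM t]

end MP0c3a8f

end

section

/-!
# MP_0c3a8f_co: item CEN (the centre of the star is in the larger class)
-/

open Finset

namespace MP0c3a8f

namespace ItemCEN

/-- the main inequality -/
theorem core1 {a u α β ω XG XH E E' NG NH KG KH θ : ℝ}
    (ha : 2 ≤ a) (hu0 : 0 < u) (hu : u ≤ 1 / 32) (hau : a * u ≤ 1 / 16) (hα : 0 < α)
    (hαβ : α < β) (hβ : β ≤ 4 * α) (haβ : a * β ≤ 1) (hω0 : 0 < ω) (hω : 64 * ω ≤ α)
    (hE : E = 1 - a * (1 - a * β) * (1 - α) * u ^ 2)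
    (hE' : E' = 1 - a * (1 - a * α) * (1 - β) * u ^ 2)
    (hNG : NG = a * α - ω - (1 - a * α) * (a * β - ω) * u)
    (hNH : NH = a * β - ω - (1 - a * β) * (a * α - ω) * u)
    (hKG : KG = β - a * α * (1 - β) * u) (hKH : KH = α - a * β * (1 - α) * u)
    (hXG : XG * E' = NG) (hXH : XH * E = NH)
    (hθ : θ = (β - α) * ω + XG * KG - XH * KH) :
    (β - α) * (a - 1) * (a * (α + β)) * u / 2 ≤ θ ∧ |XG - XH| ≤ 3 * (a * (β - α)) ∧
      0 ≤ XH ∧ XH ≤ 2 := by
  have hβ0 : 0 < β := by linarith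
  have ha0 : 0 < a := by linarith
  have hg : 0 < β - α := by linarith
  have haα : a * α ≤ a * β := mul_le_mul_of_nonneg_left hαβ.le ha0.le
  have haα0 : 0 < a * α := mul_pos ha0 hα
  have h2α : 2 * α ≤ a * α := mul_le_mul_of_nonneg_right ha hα.le
  have h2β : 2 * β ≤ a * β := mul_le_mul_of_nonneg_right ha hβ0.le
  have hau2 : a * u ^ 2 ≤ 1 / 512 := by
    have h1 : (a * u) * u ≤ 1 / 16 * (1 / 32) :=
      mul_le_mul hau hu hu0.le (by norm_num)
    calc a * u ^ 2 = (a * u) * u := by ring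
      _ ≤ _ := by linarith
  have hau20 : 0 ≤ a * u ^ 2 := by positivity
  have hp1 : 0 ≤ (1 - a * β) * (1 - α) := mul_nonneg (by linarith) (by linarith)
  have hp1' : (1 - a * β) * (1 - α) ≤ 1 :=
    mul_le_one₀ (by linarith) (by linarith) (by linarith)
  have hp2 : 0 ≤ (1 - a * α) * (1 - β) := mul_nonneg (by linarith) (by linarith)
  have hp2' : (1 - a * α) * (1 - β) ≤ 1 :=
    mul_le_one₀ (by linarith) (by linarith) (by linarith)
  have hE1 : E ≤ 1 := by
    have : 0 ≤ (1 - a * β) * (1 - α) * (a * u ^ 2) := mul_nonneg hp1 hau20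
    rw [hE]; linarith
  have hE2 : 1 / 2 ≤ E' := by
    have : (1 - a * α) * (1 - β) * (a * u ^ 2) ≤ 1 * (a * u ^ 2) :=
      mul_le_mul_of_nonneg_right hp2' hau20
    rw [hE']; linarith
  have hEE : E - E' = a * (a - 1) * (β - α) * u ^ 2 := by rw [hE, hE']; ring
  have hEE0 : 0 ≤ E - E' := by
    rw [hEE]
    have : 0 ≤ a - 1 := by linarith
    positivity
  have hE3 : 1 / 2 ≤ E := by linarith
  -- `NG`
  have hb1 : a * β * u ≤ a * β * (1 / 32) := mul_le_mul_of_nonneg_left hu (by positivity)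
  have hb2 : a * β ≤ a * (4 * α) := mul_le_mul_of_nonneg_left hβ ha0.le
  have hNG0 : 0 ≤ NG := by
    have h1 : (1 - a * α) * (a * β - ω) ≤ 1 * (a * β) :=
      mul_le_mul (by linarith) (by linarith) (by linarith) (by norm_num)
    have h2 : (1 - a * α) * (a * β - ω) * u ≤ 1 * (a * β) * u :=
      mul_le_mul_of_nonneg_right h1 hu0.le
    rw [hNG]; linarith
  have hKG0 : 0 ≤ KG := by
    have h1 : a * α * (1 - β) ≤ a * β * 1 :=
      mul_le_mul haα (by linarith) (by linarith) (by positivity)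
    have h2 : a * α * (1 - β) * u ≤ a * β * 1 * u := mul_le_mul_of_nonneg_right h1 hu0.le
    have h3 : β * (a * u) ≤ β * (1 / 16) := mul_le_mul_of_nonneg_left hau hβ0.le
    rw [hKG]; linarith
  have hNH0 : 0 ≤ NH := by
    have h1 : (1 - a * β) * (a * α - ω) ≤ 1 * (a * β) :=
      mul_le_mul (by linarith [mul_pos ha0 hβ0]) (by linarith) (by linarith) (by norm_num)
    have h2 : (1 - a * β) * (a * α - ω) * u ≤ 1 * (a * β) * u :=
      mul_le_mul_of_nonneg_right h1 hu0.le
    rw [hNH]; linarith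
  have hNH1 : NH ≤ 1 := by
    have h1 : 0 ≤ (1 - a * β) * (a * α - ω) * u :=
      mul_nonneg (mul_nonneg (by linarith) (by linarith)) hu0.le
    rw [hNH]; linarith
  have hXG0 : 0 ≤ XG := by
    by_contra hcon
    push Not at hcon
    have : XG * E' < 0 := mul_neg_of_neg_of_pos hcon (by linarith)
    linarith
  have hXH0 : 0 ≤ XH := by
    by_contra hcon
    push Not at hcon
    have : XH * E < 0 := mul_neg_of_neg_of_pos hcon (by linarith)
    linarith
  have hXH2 : XH ≤ 2 := by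
    have : XH * (1 / 2) ≤ XH * E := mul_le_mul_of_nonneg_left hE3 hXH0
    linarith
  refine ⟨?_, ?_, hXH0, hXH2⟩
  · obtain ⟨B, hB⟩ : ∃ B : ℝ, B = (β - α) * (a - 1) * (a * (α + β)) * u / 2 := ⟨_, rfl⟩
    rw [← hB]
    have hB0 : 0 ≤ B := by
      rw [hB]
      have h1 : 0 ≤ a - 1 := by linarith
      have h2 : 0 ≤ a * (α + β) := by positivity
      have h3 : 0 ≤ (β - α) * (a - 1) * (a * (α + β)) * u :=
        mul_nonneg (mul_nonneg (mul_nonneg hg.le h1) h2) hu0.le
      linarith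
    have h1 : XG * KG * E' ≤ XG * KG * E :=
      mul_le_mul_of_nonneg_left (by linarith) (mul_nonneg hXG0 hKG0)
    have h2 : XG * KG * E' = NG * KG := by rw [← hXG]; ring
    have h3 : θ * E = (β - α) * ω * E + XG * KG * E - NH * KH := by
      rw [hθ, ← hXH]; ring
    have h4 : (β - α) * ω * E + NG * KG - NH * KH = (β - α) * (a - 1) *
        ((a * (α + β) - ω) * u + a ^ 2 * α * β * u ^ 2 - a * α * ω * u ^ 2) := by
      rw [hE, hNG, hNH, hKG, hKH]; ring
    have h5 : 0 ≤ (a * (α + β) / 2 - ω) * u + a * α * u ^ 2 * (a * β - ω) := by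
      have h6 : 0 ≤ a * (α + β) / 2 - ω := by
        have : a * (α + β) = a * α + a * β := by ring
        linarith
      have h7 : 0 ≤ a * β - ω := by linarith
      have h8 : 0 ≤ a * α * u ^ 2 := by positivity
      exact add_nonneg (mul_nonneg h6 hu0.le) (mul_nonneg h8 h7)
    have h6 : 0 ≤ (β - α) * (a - 1) *
        ((a * (α + β) / 2 - ω) * u + a * α * u ^ 2 * (a * β - ω)) :=
      mul_nonneg (mul_nonneg hg.le (by linarith)) h5
    have h7 : (β - α) * (a - 1) *
        ((a * (α + β) - ω) * u + a ^ 2 * α * β * u ^ 2 - a * α * ω * u ^ 2) = B +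
        (β - α) * (a - 1) * ((a * (α + β) / 2 - ω) * u + a * α * u ^ 2 * (a * β - ω)) := by
      rw [hB]; ring
    have h8 : B ≤ θ * E := by linarith
    have h9 : 0 ≤ θ := by
      by_contra hcon
      push Not at hcon
      have : θ * E < 0 := mul_neg_of_neg_of_pos hcon (by linarith)
      linarith
    have h10 : θ * E ≤ θ * 1 := mul_le_mul_of_nonneg_left hE1 h9
    linarith
  · obtain ⟨D, hD⟩ : ∃ D : ℝ, D = XG - XH := ⟨_, rfl⟩
    rw [← hD]
    obtain ⟨A, hA⟩ : ∃ A : ℝ, A = a * (β - α) := ⟨_, rfl⟩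
    have hA0 : 0 < A := by rw [hA]; exact mul_pos ha0 hg
    have h1 : D * E' = -A * (1 + (1 - ω) * u) + A * ((a - 1) * u ^ 2 * XH) := by
      have h2 : D * E' = NG - NH + (E - E') * XH := by
        rw [hD, ← hXG, ← hXH]; ring
      have h3 : NG - NH = -A * (1 + (1 - ω) * u) := by
        rw [hNG, hNH, hA]; ring
      rw [h2, h3, hEE, hA]; ring
    have h2 : 0 ≤ (a - 1) * u ^ 2 * XH := by
      have : 0 ≤ a - 1 := by linarith
      positivity
    have h3 : (a - 1) * u ^ 2 * XH ≤ 1 / 256 := by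
      have h4 : (a - 1) * u ^ 2 ≤ 1 / 512 := by
        have : 0 ≤ u ^ 2 := by positivity
        linarith
      calc (a - 1) * u ^ 2 * XH ≤ 1 / 512 * 2 :=
            mul_le_mul h4 hXH2 hXH0 (by norm_num)
        _ = 1 / 256 := by norm_num
    have h4 : A * ((a - 1) * u ^ 2 * XH) ≤ A * (1 / 256) := mul_le_mul_of_nonneg_left h3 hA0.le
    have h4' : 0 ≤ A * ((a - 1) * u ^ 2 * XH) := mul_nonneg hA0.le h2
    have hω1 : ω ≤ 1 := by linarith
    have h5 : 0 ≤ (1 - ω) * u := mul_nonneg (by linarith) hu0.le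
    have h6 : (1 - ω) * u ≤ 1 / 32 := by
      have : 0 ≤ ω * u := by positivity
      linarith
    have h7 : A * ((1 - ω) * u) ≤ A * (1 / 32) := mul_le_mul_of_nonneg_left h6 hA0.le
    have h7' : 0 ≤ A * ((1 - ω) * u) := mul_nonneg hA0.le h5
    have h8 : D * E' ≤ A := by rw [h1]; linarith
    have h9 : -(3 / 2 * A) ≤ D * E' := by rw [h1]; linarith
    rw [← hA, abs_le]
    constructor
    · by_contra hcon
      push Not at hcon
      have h10 : D * E' ≤ D * (1 / 2) := by
        have : D * (E' - 1 / 2) ≤ 0 :=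
          mul_nonpos_of_nonpos_of_nonneg (by linarith) (by linarith)
        linarith
      linarith
    · by_contra hcon
      push Not at hcon
      have h10 : D * (1 / 2) ≤ D * E' := mul_le_mul_of_nonneg_left hE2 (by linarith)
      linarith

theorem core2 {a u α β ω XH D θ Q : ℝ}
    (ha : 2 ≤ a) (hu0 : 0 < u) (hu : u ≤ 1 / 32) (hα : 0 < α) (hαβ : α < β) (haβ : a * β ≤ 1) (hω0 : 0 < ω) (hω : 64 * ω ≤ α)
    (h1 : (β - α) * (a - 1) * (a * (α + β)) * u / 2 ≤ θ) (h2 : |D| ≤ 3 * (a * (β - α)))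
    (h3 : 0 ≤ XH) (h4 : XH ≤ 2)
    (hQ : Q = (β - α) - u * ((1 - β) * D - (β - α) * XH)) :
    0 < θ * (1 + θ) + (-θ + D + Q) * u * ω := by
  have hg : 0 < β - α := by linarith
  have ha0 : 0 < a := by linarith
  have hβ0 : 0 < β := by linarith
  obtain ⟨A, hA⟩ : ∃ A : ℝ, A = a * (β - α) := ⟨_, rfl⟩
  have hA0 : 0 < A := by rw [hA]; exact mul_pos ha0 hg
  rw [← hA] at h2
  have h2β : 2 * β ≤ a * β := mul_le_mul_of_nonneg_right ha hβ0.le
  have hgA : 2 * (β - α) ≤ A := by rw [hA]; exact mul_le_mul_of_nonneg_right ha hg.le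
  have hQ1 : |Q| ≤ A := by
    have h5 : |(1 - β) * D| ≤ 3 * A := by
      rw [abs_mul, abs_of_nonneg (by linarith : (0 : ℝ) ≤ 1 - β)]
      calc (1 - β) * |D| ≤ 1 * (3 * A) :=
            mul_le_mul (by linarith) h2 (abs_nonneg _) (by norm_num)
        _ = 3 * A := one_mul _
    have h6 := abs_le.1 h5
    have h7 : 0 ≤ (β - α) * XH := mul_nonneg hg.le h3
    have h8 : (β - α) * XH ≤ (β - α) * 2 := mul_le_mul_of_nonneg_left h4 hg.le
    obtain ⟨R, hR⟩ : ∃ R : ℝ, R = (1 - β) * D - (β - α) * XH := ⟨_, rfl⟩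
    have h9 : |R| ≤ 4 * A := by
      rw [hR, abs_le]
      constructor <;> linarith
    have h10 : |u * R| ≤ 1 / 32 * (4 * A) := by
      rw [abs_mul, abs_of_pos hu0]
      exact mul_le_mul hu h9 (abs_nonneg _) (by norm_num)
    have h11 := abs_le.1 h10
    rw [hQ, ← hR, abs_le]
    constructor <;> linarith
  have hDQ : -(4 * A) ≤ D + Q := by
    have h5 := (abs_le.1 h2).1
    have h6 := (abs_le.1 hQ1).1
    linarith
  -- the lower bound for `θ`
  have h5 : A * (a - 1) * (α + β) * u / 2 ≤ θ := by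
    have : (β - α) * (a - 1) * (a * (α + β)) * u / 2 = A * (a - 1) * (α + β) * u / 2 := by
      rw [hA]; ring
    linarith
  have h6 : A * 1 * (64 * ω) * u / 2 < A * (a - 1) * (α + β) * u / 2 := by
    have h7 : 1 * (64 * ω) < (a - 1) * (α + β) := by
      have : 1 * (α + β) ≤ (a - 1) * (α + β) :=
        mul_le_mul_of_nonneg_right (by linarith) (by linarith)
      linarith
    have h8 : A * u * (1 * (64 * ω)) < A * u * ((a - 1) * (α + β)) :=
      mul_lt_mul_of_pos_left h7 (mul_pos hA0 hu0)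
    linarith
  have h7 : 32 * (A * (u * ω)) < θ := by linarith
  have h8 : 0 < A * (u * ω) := mul_pos hA0 (mul_pos hu0 hω0)
  have hθ0 : 0 < θ := by linarith
  have hω1 : ω ≤ 1 := by linarith
  have huω : u * ω ≤ 1 / 32 := by
    calc u * ω ≤ 1 / 32 * 1 := mul_le_mul hu hω1 hω0.le (by norm_num)
      _ = 1 / 32 := by norm_num
  have huω0 : 0 < u * ω := mul_pos hu0 hω0
  have h9 : θ * (u * ω) ≤ θ * (1 / 32) := mul_le_mul_of_nonneg_left huω hθ0.le
  have h10 : -(4 * A) * (u * ω) ≤ (D + Q) * (u * ω) := mul_le_mul_of_nonneg_right hDQ huω0.le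
  have h11 : 0 ≤ θ * θ := mul_nonneg hθ0.le hθ0.le
  have h12 : θ * (1 + θ) + (-θ + D + Q) * u * ω
      = θ + θ * θ - θ * (u * ω) + (D + Q) * (u * ω) := by ring
  rw [h12]
  linarith

theorem real {a l α β ω σi σs X P Ti Ts : ℝ} (ha : 2 ≤ a) (hl : 32 ≤ l) (hal : 16 * a ≤ l)
    (hαd : α * (l + σi) = 1) (hβd : β * (l + σs) = 1) (hα : 0 < α) (hαβ : α < β)
    (hβ : β ≤ 4 * α) (haβ : a * β ≤ 1) (hω0 : 0 < ω) (hω : 64 * ω ≤ α)
    (h1 : Ti * (l + σi) = l + a * P - ω) (h2 : Ts * (l + σs) = l + X - ω)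
    (h3 : l * P = Ts - X + ω) (h4 : l * X = a * (Ti - P) + ω) :
    ∃ X' P' Ti' Ts' : ℝ, Ti' * (l + σi) = l + X' - ω ∧ Ts' * (l + σs) = l + a * P' - ω ∧
      l * P' = Ti' - X' + ω ∧ l * X' = a * (Ts' - P') + ω ∧
      ∀ θ, θ = Ti + Ts - Ti' - Ts' →
        0 < θ * (1 + θ) + (-θ + (X - X') + (P - P')) / l * ω := by
  have hl0 : 0 < l := by linarith
  obtain ⟨u, hu⟩ : ∃ u : ℝ, u = 1 / l := ⟨_, rfl⟩
  have hul : u * l = 1 := by rw [hu]; field_simp
  have hu0 : 0 < u := by rw [hu]; positivity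
  have hu1 : u ≤ 1 / 32 := by
    rw [hu]; exact one_div_le_one_div_of_le (by norm_num) hl
  have hau : a * u ≤ 1 / 16 := by
    rw [hu, mul_one_div, div_le_iff₀ hl0]
    linarith
  have ha0 : 0 < a := by linarith
  have hβ0 : 0 < β := by linarith
  obtain ⟨E, hE⟩ : ∃ E : ℝ, E = 1 - a * (1 - a * β) * (1 - α) * u ^ 2 := ⟨_, rfl⟩
  obtain ⟨NH, hNH⟩ : ∃ NH : ℝ, NH = a * β - ω - (1 - a * β) * (a * α - ω) * u := ⟨_, rfl⟩
  have hEpos : 0 < E := by
    have h2α : 2 * α ≤ a * α := mul_le_mul_of_nonneg_right ha hα.le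
    have haα : a * α ≤ a * β := mul_le_mul_of_nonneg_left hαβ.le ha0.le
    have haβ0 : 0 < a * β := mul_pos ha0 hβ0
    have hp1 : 0 ≤ (1 - a * β) * (1 - α) := mul_nonneg (by linarith) (by linarith)
    have hp1' : (1 - a * β) * (1 - α) ≤ 1 :=
      mul_le_one₀ (by linarith) (by linarith) (by linarith)
    have hau2 : a * u ^ 2 ≤ 1 / 512 := by
      have h1 : (a * u) * u ≤ 1 / 16 * (1 / 32) :=
        mul_le_mul hau hu1 hu0.le (by norm_num)
      calc a * u ^ 2 = (a * u) * u := by ring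
        _ ≤ _ := by linarith
    have hau20 : 0 ≤ a * u ^ 2 := by positivity
    have h5 : (1 - a * β) * (1 - α) * (a * u ^ 2) ≤ 1 * (a * u ^ 2) :=
      mul_le_mul_of_nonneg_right hp1' hau20
    rw [hE]; linarith
  -- the system for `G`
  obtain ⟨Xt, hXt⟩ : ∃ Xt : ℝ, Xt = X - ω := ⟨_, rfl⟩
  have hTs : Ts = β * (l + Xt) := by
    rw [hXt]; linear_combination β * h2 - Ts * hβd
  have hTi : Ti = α * (l + a * P - ω) := by linear_combination α * h1 - Ti * hαd
  have hP : P = β - (1 - β) * Xt * u := by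
    have h5 : l * P = β * l - (1 - β) * Xt := by rw [h3, hTs, hXt]; ring
    linear_combination u * h5 + (β - P) * hul
  have hXtG : Xt = a * α - ω - (1 - a * α) * (a * P - ω) * u := by
    have h5 : l * Xt = a * α * l - l * ω - (1 - a * α) * (a * P - ω) := by
      rw [hXt, mul_sub, h4, hTi]; ring
    linear_combination u * h5 + (a * α - ω - Xt) * hul
  have hXG : Xt * (1 - a * (1 - a * α) * (1 - β) * u ^ 2)
      = a * α - ω - (1 - a * α) * (a * β - ω) * u := by
    rw [hP] at hXtG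
    linear_combination hXtG
  -- the system for `H`
  obtain ⟨Xh, hXh⟩ : ∃ Xh : ℝ, Xh = NH / E := ⟨_, rfl⟩
  have hXH : Xh * E = NH := by rw [hXh]; field_simp
  obtain ⟨P', hP'⟩ : ∃ P' : ℝ, P' = α - (1 - α) * Xh * u := ⟨_, rfl⟩
  have hXh' : Xh = a * β - ω - (1 - a * β) * (a * P' - ω) * u := by
    rw [hP']
    rw [hE, hNH] at hXH
    linear_combination hXH
  refine ⟨Xh + ω, P', α * (l + Xh), β * (l + a * P' - ω), ?_, ?_, ?_, ?_, ?_⟩
  · linear_combination (l + Xh) * hαd
  · linear_combination (l + a * P' - ω) * hβd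
  · rw [hP']
    linear_combination (-(1 - α) * Xh) * hul
  · linear_combination l * hXh' - (1 - a * β) * (a * P' - ω) * hul
  · intro θ hθ
    have hθ' : θ = (β - α) * ω + Xt * (β - a * α * (1 - β) * u)
        - Xh * (α - a * β * (1 - α) * u) := by
      rw [hθ, hTi, hTs, hP, hP']; ring
    obtain ⟨c1, c2, c3, c4⟩ := core1 ha hu0 hu1 hau hα hαβ hβ haβ hω0 hω hE rfl rfl hNH rfl rfl
      hXG hXH hθ'
    have hQ : P - P' = (β - α) - u * ((1 - β) * (Xt - Xh) - (β - α) * Xh) := by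
      rw [hP, hP']; ring
    have h5 := core2 ha hu0 hu1 hα hαβ haβ hω0 hω c1 c2 c3 c4 hQ
    have h6 : (-θ + (X - (Xh + ω)) + (P - P')) / l * ω
        = (-θ + (Xt - Xh) + (P - P')) * u * ω := by
      rw [hXt, hu]; ring
    rw [h6]
    exact h5

section

variable {V : Type} {r : ℕ} {G : SimpleGraph V} {g : V → Option (Fin r)} {w : V}
  {q : Fin r → V} {i : Fin r} {L : Finset V}

theorem muv_center [Fintype V] (hT : TyP G g w q i L) (z : V → ℝ) :
    muv G g z (q i) = ∑ u ∈ L, z u := by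
  classical
  unfold muv
  have h1 : ∀ u, (g (q i) ≠ none ∧ g u ≠ none ∧ g u ≠ g (q i) ∧ ¬ G.Adj (q i) u) ↔ u ∈ L := by
    intro u
    have hp : g (q i) ≠ none := by rw [hT.hq]; simp
    constructor
    · rintro ⟨_, h1, h2, h3⟩
      rw [hT.core _ u hp h1] at h3
      by_contra hcon
      refine h3 ⟨h2.symm, fun h => hcon h.2, fun h => h2 (by rw [h.1])⟩
    · intro h
      obtain ⟨h1, h2⟩ := hT.hL u h
      refine ⟨hp, h1, ?_, ?_⟩
      · rw [hT.hq]; exact h2
      · rw [hT.core _ _ hp h1]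
        rintro ⟨_, h3, _⟩
        exact h3 ⟨rfl, h⟩
  simp only [h1]
  simp

theorem muv_zero [Fintype V] (hT : TyP G g w q i L) (z : V → ℝ) {v : V} (hv : g v = some i)
    (hvq : v ≠ q i) : muv G g z v = 0 := by
  classical
  unfold muv
  refine Finset.sum_eq_zero fun u _ => ?_
  rw [if_neg]
  rintro ⟨h0, h1, h2, h3⟩
  rw [hT.core _ u h0 h1] at h3
  apply h3
  refine ⟨h2.symm, fun h => hvq h.1, fun h => ?_⟩
  exact (hT.hL v h.2).2 hv

theorem cw_muv_center [Fintype V] (hT : TyP G g w q i L) (z : V → ℝ) :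
    cw (fun v => muv G g z v) g (some i) = ∑ u ∈ L, z u := by
  classical
  unfold cw
  have h1 : ∀ v, (if g v = some i then muv G g z v else 0)
      = if v = q i then ∑ u ∈ L, z u else 0 := by
    intro v
    by_cases h : v = q i
    · rw [if_pos h, h, if_pos (hT.hq i), muv_center hT z]
    · rw [if_neg h]
      by_cases h2 : g v = some i
      · rw [if_pos h2, muv_zero hT z h2 h]
      · rw [if_neg h2]
  simp only [h1]
  simp

theorem lc_all (hs : ∀ v ∈ L, g v = some i) : lc L g i = L.card := by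
  unfold lc
  have : {v | v ∈ L ∧ g v = some i} = (L : Set V) := by
    ext v
    exact ⟨fun h => h.1, fun h => ⟨h, hs v h⟩⟩
  rw [this, Set.ncard_coe_finset]

theorem lc_none (hs : ∀ v ∈ L, g v = some i) {t : Fin r} (ht : t ≠ i) : lc L g t = 0 := by
  unfold lc
  have : {v | v ∈ L ∧ g v = some t} = (∅ : Set V) := by
    ext v
    simp only [Set.mem_ofPred_eq, Set.mem_empty_iff_false, iff_false]
    rintro ⟨h1, h2⟩
    rw [hs v h1] at h2
    exact ht (Option.some_injective _ h2).symm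
  rw [this, Set.ncard_empty]

/-- the index of the vertex in `L` -/
theorem mem_iff (hT : TyP G g w q i L) {s : Fin r} (hs : ∀ v ∈ L, g v = some s) (t : Fin r) :
    q t ∈ L ↔ t = s := by
  have h1 : ∀ t, q t ∈ L → t = s := fun t ht => by
    have := hs _ ht
    rw [hT.hq] at this
    exact Option.some_injective _ this
  constructor
  · exact h1 t
  · rintro rfl
    obtain ⟨t', ht'⟩ := hT.ex
    rw [← h1 t' ht']
    exact ht'

/-- the equations for `G` -/
theorem sysG [Fintype V] (hT : TyP G g w q i L) {s : Fin r} (hs : ∀ v ∈ L, g v = some s)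
    (hsi : s ≠ i) (z : V → ℝ) {n : ℕ} {l : ℝ}
    (hrow : ∀ v t, g v = some t → l * z v = tv g z n t - muv G g z v + omv G g z v)
    (heig : ∑ u, adj G w u * z u = l * z w) :
    l * z (q i) = tv g z n i - ∑ u ∈ L, z u + z w ∧
    l * ∑ u ∈ L, z u = L.card * (tv g z n s - z (q i)) + z w ∧
    l * z w = ∑ t, z (q t) ∧
    l * ∑ t, z (q t) = l * z (q i) - z (q i) + ∑ t, (if t = i then 0 else tv g z n t + z w) := by
  classical
  have h1 : l * z (q i) = tv g z n i - ∑ u ∈ L, z u + z w := by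
    have h := hrow _ i (hT.hq i)
    rw [muv_center hT z, ItemPEV.omv_eq hT z (hT.hq i), if_pos rfl] at h
    exact h
  have hrowL : ∀ v ∈ L, l * z v = (tv g z n s - z (q i)) + if v = q s then z w else 0 := by
    intro v hv
    have h := hrow v s (hs v hv)
    rw [ItemPEV.muv_eq hT z (hs v hv) hsi, if_pos hv, ItemPEV.omv_eq hT z (hs v hv)] at h
    exact h
  have h2 : l * ∑ u ∈ L, z u = L.card * (tv g z n s - z (q i)) + z w := by
    rw [Finset.mul_sum, Finset.sum_congr rfl hrowL, Finset.sum_add_distrib, Finset.sum_const,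
      nsmul_eq_mul, Finset.sum_ite_eq', if_pos ((mem_iff hT hs s).2 rfl)]
  have h3 : l * z w = ∑ t, z (q t) := by
    rw [← heig]
    have h4 : ∀ u, adj G w u * z u = ∑ t, if u = q t then z (q t) else 0 := by
      intro u
      unfold adj
      by_cases h : ∃ t, u = q t
      · rw [if_pos ((hT.wn u).2 h), one_mul]
        obtain ⟨t, rfl⟩ := h
        rw [Finset.sum_eq_single t]
        · rw [if_pos rfl]
        · intro t' _ ht'
          rw [if_neg]
          intro h
          exact ht' (ItemPEV.q_inj hT h).symm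
        · intro h
          exact absurd (Finset.mem_univ t) h
      · rw [if_neg (fun h' => h ((hT.wn u).1 h')), zero_mul, Finset.sum_eq_zero]
        intro t _
        rw [if_neg (fun h' => h ⟨t, h'⟩)]
    simp only [h4]
    rw [Finset.sum_comm]
    simp
  refine ⟨h1, h2, h3, ?_⟩
  rw [Finset.mul_sum]
  have h5 : ∀ t, l * z (q t) = (if t = i then l * z (q i) else 0)
      + (if t = s then - z (q i) else 0) + (if t = i then 0 else tv g z n t + z w) := by
    intro t
    by_cases hti : t = i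
    · subst hti
      rw [if_pos rfl, if_neg hsi.symm, if_pos rfl]
      ring
    · rw [if_neg hti, if_neg hti]
      have h := hrow _ t (hT.hq t)
      rw [ItemPEV.omv_eq hT z (hT.hq t), if_pos rfl, ItemPEV.muv_eq hT z (hT.hq t) hti] at h
      by_cases hts : t = s
      · subst hts
        rw [if_pos ((mem_iff hT hs _).2 rfl)] at h
        rw [h, if_pos rfl]
        ring
      · rw [if_neg (fun h' => hts ((mem_iff hT hs t).1 h'))] at h
        rw [h, if_neg hts]
        ring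
  rw [Finset.sum_congr rfl (fun t _ => h5 t), Finset.sum_add_distrib, Finset.sum_add_distrib,
    Finset.sum_ite_eq', Finset.sum_ite_eq', if_pos (Finset.mem_univ _),
    if_pos (Finset.mem_univ _)]
  ring

end

/-- the numbers -/
theorem num {h n l C C₁ a : ℝ} {r : ℕ} (hr : 3 ≤ r) (hn : (h * h) * (h * h) = n)
    (hC : 0 ≤ C) (hC₁ : 0 ≤ C₁)
    (hbig : 6 * C₁ + C₁ * r + 32 * C + 512 * r + 64 ≤ h) (ha : a ≤ C * h)
    (hl : |l - qq r * n| ≤ C₁ * h) :
    n / 2 ≤ l ∧ l ≤ n ∧ 32 ≤ l ∧ 16 * a ≤ l ∧ 256 * r ≤ l ∧ C₁ / (h * h) ≤ 1 / 2 ∧ 0 < n := by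
  have hr0 : (3 : ℝ) ≤ r := by exact_mod_cast hr
  have hrp : (0 : ℝ) < r := by linarith
  have h0 : 0 ≤ C₁ * r := by positivity
  have h64 : 64 ≤ h := by linarith
  have hh0 : 0 < h := by linarith
  have hhh : 0 < h * h := by positivity
  have hhle : h ≤ h * h := le_mul_of_one_le_left hh0.le (by linarith)
  have hhn : h * h ≤ n := by rw [← hn]; exact le_mul_of_one_le_left hhh.le (by linarith)
  have hn0 : 0 < n := by linarith
  have hn64 : 64 * n ≤ h * n := mul_le_mul_of_nonneg_right h64 hn0.le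
  have h1 := abs_le.1 hl
  have h6 : 6 * C₁ * h ≤ h * h := mul_le_mul_of_nonneg_right (by linarith) hh0.le
  have h7 : C₁ * r * h ≤ h * h := mul_le_mul_of_nonneg_right (by linarith) hh0.le
  have h8 : 32 * C * h ≤ h * h := mul_le_mul_of_nonneg_right (by linarith) hh0.le
  have h9 : 512 * r * h ≤ h * h := mul_le_mul_of_nonneg_right (by linarith) hh0.le
  have h9' : 512 * (r : ℝ) ≤ 512 * r * h := le_mul_of_one_le_right (by positivity) (by linarith)
  have hq : 2 / 3 * n ≤ qq r * n := by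
    apply mul_le_mul_of_nonneg_right _ hn0.le
    unfold qq
    have : 1 / (r : ℝ) ≤ 1 / 3 := one_div_le_one_div_of_le (by norm_num) hr0
    linarith
  have hq2 : qq r * n = n - n / r := by unfold qq; ring
  have hq3 : C₁ * h ≤ n / r := by
    rw [le_div_iff₀ hrp]
    linarith
  refine ⟨by linarith, by linarith, by linarith, by linarith, by linarith, ?_, hn0⟩
  rw [div_le_iff₀ hhh]
  linarith

end ItemCEN

open ItemCEN in
theorem prfCEN : P_statement → FLU_statement → TCG_statement → TVP_statement →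
    CEN_statement := by
  classical
  intro _hP hF hTC hTV r C hr hC
  obtain ⟨C₁, n₁, hC₁, h₁⟩ := hF r C hr hC
  obtain ⟨n₂, hn₂⟩ := exists_nat_ge ((6 * C₁ + C₁ * r + 32 * C + 512 * r + 64) ^ 4)
  refine ⟨n₁ + n₂, ?_⟩
  intro V U _ _ G H f f' w w' q q' s i L L' n hn hTG hTH hsi hNK hσ hlt hL hL' hcard h2
  obtain ⟨h, hh⟩ : ∃ h : ℝ, h = Real.sqrt (Real.sqrt n) := ⟨_, rfl⟩
  have hbig : 6 * C₁ + C₁ * r + 32 * C + 512 * r + 64 ≤ h := by
    rw [hh]
    exact ItemPEV.big hn₂ (by omega)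
  obtain ⟨⟨z, hz⟩, hz2⟩ := h₁ V G f n (by omega) hNK
  obtain ⟨hz1, -, hlam, -⟩ := hz2 z hz
  obtain ⟨hrow, hcls⟩ := hTC r V G z f n hNK.indep hz
  obtain ⟨-, -, -, -, hmL, -, -⟩ := prfMEMP r V G f w q s L hr hTG
  have hfew := hNK.few
  rw [hmL, ← hh] at hfew
  have ha : (L.card : ℝ) ≤ C * h := by
    have : (0 : ℝ) ≤ (outSet G f).ncard := Nat.cast_nonneg _
    linarith
  rw [← hh] at hlam
  have hhs : h * h = Real.sqrt n := by rw [hh]; exact Real.mul_self_sqrt (Real.sqrt_nonneg _)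
  have hn0 : (h * h) * (h * h) = n := by rw [hhs]; exact Real.mul_self_sqrt (Nat.cast_nonneg n)
  obtain ⟨hl1, hl2, hl3, hl4, hl5, hk, hnpos⟩ := num hr hn0 hC hC₁ hbig ha hlam
  rw [← hhs] at hz1
  obtain ⟨l, hl⟩ : ∃ l : ℝ, l = lam G := ⟨_, rfl⟩
  rw [← hl] at hl1 hl2 hl3 hl4 hl5 hrow hcls ⊢
  have hl0 : 0 < l := by linarith
  have heig := hz.eig w
  rw [← hl] at heig
  obtain ⟨e1, e2, e3, e4⟩ := sysG hTG hL hsi.symm z hrow heig
  -- bounds for the entries
  have hzq : ∀ t, 1 / 2 ≤ z (q t) ∧ z (q t) ≤ 2 := by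
    intro t
    have h5 := abs_le.1 (hz1 (q t) (by rw [hTG.hq]; simp))
    constructor <;> linarith
  have hr0 : (3 : ℝ) ≤ r := by exact_mod_cast hr
  have hsum1 : (r : ℝ) * (1 / 2) ≤ ∑ t, z (q t) := by
    have h5 := Finset.card_nsmul_le_sum Finset.univ (fun t => z (q t)) (1 / 2)
      (fun t _ => (hzq t).1)
    rw [Finset.card_univ, Fintype.card_fin, nsmul_eq_mul] at h5
    exact h5
  have hsum2 : ∑ t, z (q t) ≤ (r : ℝ) * 2 := by
    have h5 := Finset.sum_le_card_nsmul Finset.univ (fun t => z (q t)) 2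
      (fun t _ => (hzq t).2)
    rw [Finset.card_univ, Fintype.card_fin, nsmul_eq_mul] at h5
    exact h5
  have hzw : 0 < z w := by
    by_contra hcon
    push Not at hcon
    have : l * z w ≤ 0 := mul_nonpos_of_nonneg_of_nonpos hl0.le hcon
    linarith
  -- the normalised data
  obtain ⟨ω, hω⟩ : ∃ ω : ℝ, ω = z w / n := ⟨_, rfl⟩
  obtain ⟨P, hPd⟩ : ∃ P : ℝ, P = z (q s) / n := ⟨_, rfl⟩
  obtain ⟨X, hX⟩ : ∃ X : ℝ, X = (∑ u ∈ L, z u) / n := ⟨_, rfl⟩
  obtain ⟨T, hT⟩ : ∃ T : Fin r → ℝ, T = fun t => tv f z n t / n := ⟨_, rfl⟩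
  have hTt : ∀ t, T t = tv f z n t / n := fun t => by rw [hT]
  have hω' : z w = n * ω := by rw [hω]; field_simp
  have hP' : z (q s) = n * P := by rw [hPd]; field_simp
  have hX' : ∑ u ∈ L, z u = n * X := by rw [hX]; field_simp
  have hT' : ∀ t, tv f z n t = n * T t := fun t => by rw [hTt]; field_simp
  obtain ⟨a, haa⟩ : ∃ a : ℝ, a = L.card := ⟨_, rfl⟩
  have ha2 : 2 ≤ a := by rw [haa]; exact_mod_cast h2
  rw [← haa] at hl4 e2
  rw [hω', hP', hX', hT'] at e1 e2
  have hn' : (n : ℝ) ≠ 0 := hnpos.ne'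
  have q3 : l * P = T s - X + ω := by
    apply mul_left_cancel₀ hn'
    linear_combination e1
  have q4 : l * X = a * (T i - P) + ω := by
    apply mul_left_cancel₀ hn'
    linear_combination e2
  have q1 : T i * (l + siz f i) = l + a * P - ω := by
    have h5 := hcls i
    rw [ItemPEV.cw_muv hTG z hsi.symm, ItemPEV.cw_omv hTG z, lc_all hL, ← haa, hω', hP',
      hT'] at h5
    apply mul_left_cancel₀ hn'
    linear_combination h5
  have q2 : T s * (l + siz f s) = l + X - ω := by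
    have h5 := hcls s
    rw [cw_muv_center hTG z, ItemPEV.cw_omv hTG z, hω', hX', hT'] at h5
    apply mul_left_cancel₀ hn'
    linear_combination h5
  have q0 : ∀ t, t ≠ s → t ≠ i → T t * (l + siz f t) = l - ω := by
    intro t hts hti
    have h5 := hcls t
    rw [ItemPEV.cw_muv hTG z hts, ItemPEV.cw_omv hTG z, lc_none hL hti, hω', hT'] at h5
    apply mul_left_cancel₀ hn'
    push_cast at h5
    linear_combination h5
  have q5 : ∑ t, T t = r - 1 := by
    have h5 : ∑ t, tv f z n t = (r - 1) * n := by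
      unfold tv
      rw [Finset.sum_sub_distrib, hz.sum, Finset.sum_const, Finset.card_univ, Fintype.card_fin,
        nsmul_eq_mul]
      ring
    have h6 : ∑ t, T t = (∑ t, tv f z n t) / n := by
      rw [Finset.sum_div]
      exact Finset.sum_congr rfl fun t _ => hTt t
    rw [h6, h5]
    field_simp
  have q6 : l ^ 2 * ω = l * P - P + ∑ t, (if t = s then 0 else T t + ω) := by
    have h5 : ∑ t, (if t = s then 0 else tv f z n t + z w)
        = n * ∑ t, (if t = s then 0 else T t + ω) := by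
      rw [Finset.mul_sum]
      refine Finset.sum_congr rfl fun t _ => ?_
      split_ifs
      · simp
      · rw [hT', hω']; ring
    rw [h5, ← e3, hω', hP'] at e4
    apply mul_left_cancel₀ hn'
    linear_combination e4
  -- `α` and `β`
  have hσn : ∀ t, (siz f t : ℝ) ≤ n := by
    intro t
    have h5 : siz f t ≤ ∑ t, siz f t :=
      Finset.single_le_sum (f := fun t => siz f t) (fun _ _ => Nat.zero_le _) (Finset.mem_univ t)
    rw [hNK.tot] at h5
    exact_mod_cast h5
  have hσ0 : ∀ t, (0 : ℝ) ≤ siz f t := fun t => Nat.cast_nonneg _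
  have hlt' : (siz f s : ℝ) < siz f i := by exact_mod_cast hlt
  obtain ⟨α, hα⟩ : ∃ α : ℝ, α = 1 / (l + siz f i) := ⟨_, rfl⟩
  obtain ⟨β, hβ⟩ : ∃ β : ℝ, β = 1 / (l + siz f s) := ⟨_, rfl⟩
  have hpi : 0 < l + siz f i := by linarith [hσ0 i]
  have hps : 0 < l + siz f s := by linarith [hσ0 s]
  have hαd : α * (l + siz f i) = 1 := by rw [hα]; field_simp
  have hβd : β * (l + siz f s) = 1 := by rw [hβ]; field_simp
  have hα0 : 0 < α := by rw [hα]; positivity
  have hαβ : α < β := by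
    rw [hα, hβ]
    exact one_div_lt_one_div_of_lt hps (by linarith)
  have hαn : 1 / (2 * n) ≤ α := by
    rw [hα]
    exact one_div_le_one_div_of_le hpi (by linarith [hσn i])
  have hβ4 : β ≤ 4 * α := by
    rw [hα, hβ, mul_one_div, div_le_div_iff₀ hps hpi]
    linarith [hσn i, hσ0 s]
  have haβ : a * β ≤ 1 := by
    rw [hβ, mul_one_div, div_le_one hps]
    linarith [hσ0 s]
  have hω0 : 0 < ω := by rw [hω]; positivity
  have hω64 : 64 * ω ≤ α := by
    refine le_trans ?_ hαn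
    rw [le_div_iff₀ (by positivity)]
    have h5 : l * z w ≤ r * 2 := by rw [e3]; exact hsum2
    rw [hω'] at h5
    have h6 : 256 * r * (n * ω) ≤ l * (n * ω) :=
      mul_le_mul_of_nonneg_right hl5 (by positivity)
    have h7 : r * (256 * (n * ω)) ≤ r * 2 := by linarith
    have h8 := le_of_mul_le_mul_left h7 (by linarith : (0 : ℝ) < r)
    linarith
  obtain ⟨X', P', Ti', Ts', p1, p2, p3, p4, p5⟩ := real ha2 hl3 hl4 hαd hβd hα0 hαβ hβ4 haβ hω0
    hω64 q1 q2 q3 q4
  -- the test data for `H`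
  obtain ⟨T', hT'd⟩ : ∃ T' : Fin r → ℝ, T' = fun t => T t
    + ((if t = i then Ti' - T i else 0) + (if t = s then Ts' - T s else 0)) := ⟨_, rfl⟩
  have hTi' : T' i = Ti' := by
    rw [hT'd]
    simp only [if_true, if_neg hsi.symm]
    ring
  have hTs' : T' s = Ts' := by
    rw [hT'd]
    simp only [if_true, if_neg hsi]
    ring
  have hTo' : ∀ t, t ≠ s → t ≠ i → T' t = T t := by
    intro t h5 h6
    rw [hT'd]
    simp only [if_neg h5, if_neg h6]
    ring
  have hlc : ∀ t, t ≠ s → lc L' f' t = 0 := fun t ht => lc_none hL' ht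
  have hlcs : (lc L' f' s : ℝ) = a := by rw [lc_all hL', hcard, haa]
  have hsumT' : ∑ t, T' t = (r - 1) + (Ti' - T i) + (Ts' - T s) := by
    rw [hT'd]
    rw [Finset.sum_add_distrib, Finset.sum_add_distrib, q5, Finset.sum_ite_eq',
      Finset.sum_ite_eq', if_pos (Finset.mem_univ _), if_pos (Finset.mem_univ _)]
    ring
  obtain ⟨θ, hθ⟩ : ∃ θ : ℝ, θ = T i + T s - Ti' - Ts' := ⟨_, rfl⟩
  have hfin := p5 θ hθ
  have hsumω : ∀ (S : Fin r → ℝ) (k : Fin r), ∑ t, (if t = k then 0 else S t + ω)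
      = (∑ t, S t) + r * ω - (S k + ω) := by
    intro S k
    have h5 : ∀ t, (if t = k then 0 else S t + ω) = S t + ω - (if t = k then S k + ω else 0) := by
      intro t
      by_cases h : t = k
      · subst h; simp
      · simp [h]
    rw [Finset.sum_congr rfl (fun t _ => h5 t), Finset.sum_sub_distrib, Finset.sum_add_distrib,
      Finset.sum_const, Finset.card_univ, Fintype.card_fin, nsmul_eq_mul, Finset.sum_ite_eq',
      if_pos (Finset.mem_univ _)]
  refine hTV r U H f' w' q' i L' l ω P' X' T' hr hTH ?_ hl0 ?_ ?_ ?_ ?_ ?_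
  · exact ⟨s, (mem_iff hTH hL' s).2 rfl, fun t ht => (mem_iff hTH hL' t).1 ht⟩
  · intro t hti
    rw [hσ t]
    by_cases hts : t = s
    · subst hts
      rw [hlcs, hTs']
      exact p2
    · rw [hlc t hts, hTo' t hts hti, Nat.cast_zero, zero_mul, add_zero]
      exact q0 t hts hti
  · rw [hσ i, hTi']
    exact p1
  · rw [hTi']
    exact p3
  · rw [p4]
    have h5 : ∀ t, (if t = i then 0 else (lc L' f' t : ℝ) * (T' t - P'))
        = if t = s then a * (Ts' - P') else 0 := by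
      intro t
      by_cases hts : t = s
      · subst hts
        rw [if_neg hsi, if_pos rfl, hlcs, hTs']
      · rw [if_neg hts, hlc t hts]
        simp
    rw [Finset.sum_congr rfl (fun t _ => h5 t), Finset.sum_ite_eq', if_pos (Finset.mem_univ _)]
  · rw [hsumω T' i, q6, hsumω T s, hsumT', q5, hTi']
    have h5 : ((r : ℝ) - 1 - ((r - 1) + (Ti' - T i) + (Ts' - T s))) = θ := by
      rw [hθ]; ring
    have h6 : ((r : ℝ) - ((r - 1) + (Ti' - T i) + (Ts' - T s))) = 1 + θ := by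
      rw [hθ]; ring
    have h7 : l * P' + ((r : ℝ) - 1 + (Ti' - T i) + (Ts' - T s) + r * ω - (Ti' + ω)) - P'
        - (l * P - P + ((r : ℝ) - 1 + r * ω - (T s + ω)))
        = -θ + (X - X') + (P - P') := by
      rw [p3, q3, hθ]; ring
    rw [h5, h6, h7]
    exact hfin

end MP0c3a8f

end

section

/-!
# MP_0c3a8f_co, PB9, item FLB: the Perron vector of a graph which is complete multipartite with one
more vertex, up to boundedly many edges
-/

open Finset

namespace MP0c3a8f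

namespace ItemFLB

variable {V : Type} [Fintype V] {r : ℕ}

/-- the number of neighbours in the core -/
theorem sumnbn (G : SimpleGraph V) (g : V → Option (Fin r)) (w : V) :
    ((∑ t, nbn G g w t : ℕ) : ℝ) = ∑ v, (if g v = none then 0 else adj G w v) := by
  classical
  push_cast
  rw [Finset.sum_congr rfl fun t _ => ItemKW3.nbn_eq G g w t, Finset.sum_comm]
  refine Finset.sum_congr rfl fun v _ => ?_
  rw [ItemKW3.sum_cls]

/-- bounds for every eigenvector of this kind -/
theorem bounds (hr : 3 ≤ r) {N n : ℕ} {c : ℝ} {G : SimpleGraph V}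
    {g : V → Option (Fin r)} {w : V} (hB : Bd n N G g w) (hl : |lam G - qq r * n| ≤ c)
    (hn : 6 * (c + N + 2) ≤ n) {k : ℝ} (hk : k = 2 * (2 * (c + 4 * N + 4) + c + 2 * N + 2))
    {z : V → ℝ} (hz : Per G z g n) :
    (∀ v, g v ≠ none → |z v - 1| ≤ k / n) ∧ (∀ v, g v = none → v ≠ w → z v ≤ k / n) ∧
    z w ≤ (2 * ((∑ t, nbn G g w t : ℕ) : ℝ) + (2 * k + 4 * N)) / n := by
  classical
  obtain ⟨hz0, hze, hzs⟩ := hz
  have hN : (0 : ℝ) ≤ N := Nat.cast_nonneg N
  have hc : 0 ≤ c := (abs_nonneg _).trans hl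
  have hn1 : (1 : ℝ) ≤ n := by linarith
  have hn0 : (0 : ℝ) < n := by linarith
  have hr3 : (3 : ℝ) ≤ r := by exact_mod_cast hr
  have hr0 : (0 : ℝ) < r := by linarith
  have ha0 : (0 : ℝ) ≤ (missSet G g).ncard := Nat.cast_nonneg _
  have hb0 : (0 : ℝ) ≤ (lightSet G g {w}).ncard := Nat.cast_nonneg _
  have hd0 := ItemUB1.dev_nonneg (siz g)
  have hbnd := hB.bnd
  have hsum : ∑ t, (siz g t : ℝ) = n := by
    rw [← hB.tot]
    push_cast
    rfl
  have hq1 : 2 / 3 ≤ qq r := by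
    unfold qq
    have : 1 / (r : ℝ) ≤ 1 / 3 := one_div_le_one_div_of_le (by norm_num) hr3
    linarith
  have hqn : qq r * n + n / r = n := by
    unfold qq
    field_simp
    ring
  have hq2 : 2 / 3 * (n : ℝ) ≤ qq r * n := mul_le_mul_of_nonneg_right hq1 hn0.le
  have hl' := abs_le.1 hl
  have hl2 : (n : ℝ) / 2 + N + 1 ≤ lam G := by linarith [hl'.1]
  have hl3 : (n : ℝ) / 2 ≤ lam G := by linarith
  have hl0 : 0 < lam G := by linarith
  -- the maximum
  have hz2 : ∀ v, z v ≤ 2 := by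
    have : Nonempty V := ⟨w⟩
    obtain ⟨v₀, hv₀⟩ := Finite.exists_max z
    have h1 := ItemBDU.all_le G g w z hz0 (z v₀) hv₀ (hz0 v₀) v₀
    rw [hzs, hze] at h1
    have h2 : ((lightSet G g {w}).ncard + 1) * z v₀ ≤ (N + 1) * z v₀ :=
      mul_le_mul_of_nonneg_right (by linarith) (hz0 v₀)
    have h3 : (n / 2 + N + 1) * z v₀ ≤ lam G * z v₀ := mul_le_mul_of_nonneg_right hl2 (hz0 v₀)
    have h4 : (n : ℝ) * z v₀ ≤ n * 2 := by linarith
    have h5 := le_of_mul_le_mul_left h4 hn0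
    exact fun v => (hv₀ v).trans h5
  have hk0 : 0 ≤ k := by rw [hk]; positivity
  have hkN : 4 * (N : ℝ) ≤ k := by rw [hk]; linarith
  -- the core
  have hcore : ∀ v, g v ≠ none → |z v - 1| ≤ k / n := by
    intro v hv
    obtain ⟨t, ht⟩ := Option.ne_none_iff_exists'.1 hv
    obtain ⟨h1, h2, h3⟩ := ItemBDU.cls hB.indep w z hz0 (lam G) n 2 hze hzs hz2 (by norm_num) t
    have h4 : |(siz g t : ℝ) - n / r| ≤ N + 1 := by
      have h5 := ItemUB1.abs_le_sqrt_dev (siz g) t
      rw [hsum] at h5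
      refine h5.trans ?_
      rw [Real.sqrt_le_left (by positivity)]
      nlinarith
    have h5 : (siz g t : ℝ) ≤ n := by
      rw [← hsum]
      exact Finset.single_le_sum (f := fun t => (siz g t : ℝ)) (fun _ _ => Nat.cast_nonneg _)
        (Finset.mem_univ t)
    have h6 := ItemBDU.ar_S hqn (by positivity) (div_le_self hn0.le (by linarith)) h4 hl hl3
      (Nat.cast_nonneg _) h5 hN hn1 (by linarith) hb0 (by linarith) (by norm_num) le_rfl h1 h2
    rw [hk]
    exact ItemBDU.ar_z hqn h6 hl hl3 hN hn1 (by linarith) (by linarith) (by norm_num) le_rfl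
      (h3 v ht).1 (h3 v ht).2
  have hlight : ∀ v, g v = none → v ≠ w → z v ≤ k / n := by
    intro v hv hvw
    have h1 := ItemBDU.lightv G g w z hz0 2 hz2 (by norm_num) v hv hvw
    rw [hze] at h1
    have h2 : n / 2 * z v ≤ lam G * z v := mul_le_mul_of_nonneg_right hl3 (hz0 v)
    rw [le_div_iff₀ hn0]
    linarith
  refine ⟨hcore, hlight, ?_⟩
  -- the vertex w
  obtain ⟨d, hd⟩ : ∃ d : ℝ, d = ((∑ t, nbn G g w t : ℕ) : ℝ) := ⟨_, rfl⟩
  have hdn : d ≤ n := by
    rw [hd, ← hsum]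
    push_cast
    refine Finset.sum_le_sum fun t _ => ?_
    have : nbn G g w t ≤ siz g t := Set.ncard_le_ncard (fun v hv => hv.1) (Set.toFinite _)
    exact_mod_cast this
  have hout : ∑ u, (if G.Adj w u ∧ g u = none then z u else 0) ≤
      (lightSet G g {w}).ncard * 2 := by
    refine ItemBDU.one G (lightSet G g {w}) (fun u => g u = none) z hz0 2 hz2 (by norm_num) w
      (fun u hA hQ => ⟨hA, u, by simp, hQ, ?_⟩)
    rw [Finset.mem_singleton]
    exact hA.ne'
  have hall : lam G * z w ≤ d * (1 + k / n) + (lightSet G g {w}).ncard * 2 := by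
    refine le_trans ?_ (add_le_add_right hout _)
    rw [hd, sumnbn, Finset.sum_mul, ← hze w, ← Finset.sum_add_distrib]
    refine Finset.sum_le_sum fun u _ => ?_
    unfold adj
    by_cases hA : G.Adj w u
    · by_cases hu : g u = none
      · simp [hA, hu]
      · have h1 := (abs_le.1 (hcore u hu)).2
        rw [if_pos hA, if_neg hu, if_neg (fun h => hu h.2)]
        linarith
    · have h2 : ¬ (G.Adj w u ∧ g u = none) := fun h => hA h.1
      rw [if_neg hA, if_neg h2]
      simp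
  have h1 : d * (k / n) ≤ k := by
    have h2 : d * (k / n) ≤ n * (k / n) := mul_le_mul_of_nonneg_right hdn (by positivity)
    rwa [mul_div_cancel₀ k hn0.ne'] at h2
  have h2 : n / 2 * z w ≤ lam G * z w := mul_le_mul_of_nonneg_right hl3 (hz0 w)
  rw [← hd, le_div_iff₀ hn0]
  linarith

end ItemFLB

open ItemFLB in
theorem prfFLB : P_statement → SEC_statement → FLB_statement := by
  classical
  intro hP hS r N hr
  obtain ⟨n₁, hS⟩ := hS r N 1 hr one_pos
  have hN : (0 : ℝ) ≤ N := Nat.cast_nonneg N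
  obtain ⟨c, hc⟩ : ∃ c : ℝ, c = 3 * N + 10 := ⟨_, rfl⟩
  have hc0 : 0 ≤ c := by rw [hc]; positivity
  obtain ⟨k, hk⟩ : ∃ k : ℝ, k = 2 * (2 * (c + 4 * N + 4) + c + 2 * N + 2) := ⟨_, rfl⟩
  have hk0 : 0 ≤ k := by rw [hk]; positivity
  obtain ⟨n₂, hn₂⟩ := exists_nat_ge (6 * (c + N + 2))
  refine ⟨2 * k + 4 * N + c, max n₁ n₂, by positivity, ?_⟩
  intro V _ G g w n hn hB
  have hn1 : n₁ ≤ n := le_trans (le_max_left _ _) hn
  have hn2 : n₂ ≤ n := le_trans (le_max_right _ _) hn
  have hn2' : (n₂ : ℝ) ≤ n := by exact_mod_cast hn2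
  have hnn : 6 * (c + N + 2) ≤ n := hn₂.trans hn2'
  have hn1' : (1 : ℝ) ≤ n := by linarith
  have hn0 : (0 : ℝ) < n := by linarith
  have : Nonempty V := ⟨w⟩
  have hw := hB.out
  have hKU := ItemUBG.isKU (G := G) (g := g) hw
  have ha0 : (0 : ℝ) ≤ (missSet G g).ncard := Nat.cast_nonneg _
  have hb0 : (0 : ℝ) ≤ (lightSet G g {w}).ncard := Nat.cast_nonneg _
  have hd0 := ItemUB1.dev_nonneg (siz g)
  have hbnd := hB.bnd
  have hr3 : (3 : ℝ) ≤ r := by exact_mod_cast hr
  have hq1 : 2 / 3 ≤ qq r := by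
    unfold qq
    have : 1 / (r : ℝ) ≤ 1 / 3 := one_div_le_one_div_of_le (by norm_num) hr3
    linarith
  have hq2 : 2 / 3 * (n : ℝ) ≤ qq r * n := mul_le_mul_of_nonneg_right hq1 hn0.le
  have hLK : |lam (KU G g {w}) - qq r * n| ≤ N + 10 :=
    (hS V (KU G g {w}) g w n hn1 hKU hB.tot (by linarith)).2
  have hLK' := abs_le.1 hLK
  -- comparison of the spectral radii
  have hxx : ∀ x : V → ℝ, (∀ i, 0 ≤ x i) → ∑ i, x i ^ 2 = 1 → ∀ i j, x i * x j ≤ 1 := by
    intro x hx0 hx1 i j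
    have h1 : ∀ i, x i ≤ 1 := by
      intro i
      have h2 := Finset.single_le_sum (f := fun i => x i ^ 2) (fun i _ => sq_nonneg _)
        (Finset.mem_univ i)
      rw [hx1] at h2
      exact (sq_le_one_iff₀ (hx0 i)).1 h2
    exact mul_le_one₀ (h1 i) (hx0 j) (h1 j)
  have hlG1 : lam G ≤ lam (KU G g {w}) + 2 * N := by
    obtain ⟨-, -, x, hx0, hx1, hxe⟩ := hP V G
    have h1 := (hP V (KU G g {w})).2.1 x
    have h2 := ItemBDU.qfK hB.indep hw x
    have h3 := ItemUB1.qf_eig G x (lam G) hx1 hxe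
    have h4 := ItemBDU.lt_hi G g w x 1 (fun i j _ => hxx x hx0 hx1 i j)
    have h5 := ItemBDU.ms_lo G g x 0 (fun i j _ => mul_nonneg (hx0 i) (hx0 j))
    rw [hx1, mul_one] at h1
    linarith
  have hlG2 : lam (KU G g {w}) ≤ lam G + 2 * N := by
    obtain ⟨-, -, x, hx0, hx1, hxe⟩ := hP V (KU G g {w})
    have h1 := (hP V G).2.1 x
    have h2 := ItemUBG.qf_le (G := G) (g := g) (w := w) x hx0 zero_le_one
      (fun u v _ _ => hxx x hx0 hx1 u v)
    rw [ItemUB1.qf_eig _ _ _ hx1 hxe] at h2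
    rw [hx1, mul_one] at h1
    linarith
  have hlG : |lam G - qq r * n| ≤ c := by
    rw [hc, abs_le]
    constructor
    · linarith [hLK'.1]
    · linarith [hLK'.2]
  have hlG' := abs_le.1 hlG
  refine ⟨?_, fun z hz => ?_⟩
  · obtain ⟨z, hz0, hze, hzs⟩ := ItemBDU.exist hP (G := G) (g := g) w (n : ℝ) hn0.le
      (by linarith [hlG'.1])
    exact ⟨z, hz0, hze, hzs⟩
  · obtain ⟨h1, h2, h3⟩ := bounds hr hB hlG hnn hk hz
    have e1 : k / n ≤ (2 * k + 4 * N + c) / n :=
      div_le_div_of_nonneg_right (by linarith) hn0.le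
    refine ⟨fun v hv => (h1 v hv).trans e1, fun v hv hvw => (h2 v hv hvw).trans e1,
      h3.trans (div_le_div_of_nonneg_right (by linarith) hn0.le), hlG.trans (by linarith)⟩

end MP0c3a8f

end

section

/-!
# MP_0c3a8f_co, phase B, item NLV: the structure of the extremal graphs from `AltII`
-/

open Finset

namespace MP0c3a8f

/-- (NLV) from `AltII` -/
theorem prfNLV : DEV_statement → CNTU_statement → NLV_statement := by
  intro hDev hCntu r N hr
  have hR : (3 : ℝ) ≤ r := by exact_mod_cast hr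
  have hR0 : (0 : ℝ) < r := by linarith
  have hN0 : (0 : ℝ) ≤ N := Nat.cast_nonneg N
  refine ⟨2 + r + 2 * N, by positivity, ?_⟩
  intro ε hε
  obtain ⟨u, hu⟩ : ∃ u : ℝ, u = 1 / (r : ℝ) := ⟨_, rfl⟩
  have hu0 : 0 < u := by rw [hu]; positivity
  have hu1 : u ≤ 1 / 3 := by rw [hu]; exact one_div_le_one_div_of_le (by norm_num) hR
  obtain ⟨c, hc⟩ : ∃ c : ℝ, c = Real.sqrt ε / 2 := ⟨_, rfl⟩
  have hc0 : 0 < c := by
    rw [hc]
    have : 0 < Real.sqrt ε := Real.sqrt_pos.2 hε
    linarith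
  have hc2 : Real.sqrt ε = 2 * c := by rw [hc]; ring
  obtain ⟨X, hX⟩ : ∃ X : ℝ, X = 2 * N / (ε * c) + 2 * N / c ^ 3 + 1 := ⟨_, rfl⟩
  have hXa : 0 ≤ 2 * N / (ε * c) := by positivity
  have hXb : 0 ≤ 2 * N / c ^ 3 := by positivity
  have hX1 : 1 ≤ X := by linarith
  refine ⟨c, ⌈X ^ 4⌉₊, hc0, ?_⟩
  intro V _ G n B hn hBn hmB hA
  have hnX : X ^ 4 ≤ n := (Nat.le_ceil _).trans (by exact_mod_cast hn)
  obtain ⟨-, g, hi, ht, hab, t₀, hbig, hsm⟩ := hA
  obtain ⟨s, hs⟩ : ∃ s : ℝ, s = Real.sqrt n := ⟨_, rfl⟩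
  obtain ⟨h, hh⟩ : ∃ h : ℝ, h = Real.sqrt s := ⟨_, rfl⟩
  rw [← hs, ← hh] at hab hbig
  have hsm' : ∀ t, t ≠ t₀ → Real.sqrt B * ((siz g t : ℝ)
          - (n / r - Real.sqrt (2 * B * ((r : ℝ) - 1) / r) / ((r : ℝ) - 1))) ^ 2
          ≤ N * (n * h) := by
    intro t ht'
    have := hsm t ht'
    rw [← hs, ← hh] at this
    exact this
  have hs0 : 0 ≤ s := by rw [hs]; exact Real.sqrt_nonneg _
  have hh0 : 0 ≤ h := by rw [hh]; exact Real.sqrt_nonneg _
  have hs2 : s * s = n := by rw [hs]; exact Real.mul_self_sqrt (Nat.cast_nonneg n)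
  have hh2 : h * h = s := by rw [hh]; exact Real.mul_self_sqrt hs0
  have hXh : X ≤ h := by
    have e1 : X ^ 2 ≤ s := by
      rw [hs]
      apply Real.le_sqrt_of_sq_le
      have e0 : (X ^ 2) ^ 2 = X ^ 4 := by ring
      rw [e0]
      exact hnX
    rw [hh]
    exact Real.le_sqrt_of_sq_le e1
  have hh1 : 1 ≤ h := hX1.trans hXh
  have hs1 : 1 ≤ s := by
    rw [← hh2]
    calc (1 : ℝ) = 1 * 1 := by ring
      _ ≤ h * h := mul_le_mul hh1 hh1 zero_le_one hh0
  have hhs : h ≤ s := by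
    rw [← hh2]
    calc h = 1 * h := by ring
      _ ≤ h * h := mul_le_mul_of_nonneg_right hh1 hh0
  have hsn : s ≤ n := by
    rw [← hs2]
    calc s = 1 * s := by ring
      _ ≤ s * s := mul_le_mul_of_nonneg_right hs1 hs0
  have hn0 : (1 : ℝ) ≤ n := hs1.trans hsn
  have hB0 : (0 : ℝ) ≤ B := Nat.cast_nonneg B
  have hBn' : (B : ℝ) ≤ n := by exact_mod_cast hBn
  have hout : ((outSet G g).ncard : ℝ) ≤ N * h := by
    have : (0 : ℝ) ≤ ((missSet G g).ncard : ℝ) := Nat.cast_nonneg _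
    linarith
  have hdev := ItemNLU.dev_le hCntu hDev (by omega) G g hi ht rfl hmB
  have hNK : NK n (2 + r + 2 * N) G g := by
    refine ⟨hi, ht, ?_, ?_⟩
    · have e1 : N * h ≤ N * n := by gcongr; linarith
      have e2 : (r : ℝ) ≤ r * n := le_mul_of_one_le_right hR0.le hn0
      calc dev (siz g) ≤ 2 * B + r + 2 * ((outSet G g).ncard : ℝ) := hdev
        _ ≤ 2 * n + r * n + 2 * (N * n) := by linarith
        _ = (2 + r + 2 * N) * n := by ring
    · rw [← hs, ← hh]
      refine hab.trans ?_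
      gcongr
      linarith
  refine ⟨g, hNK, ?_, ?_⟩
  · rw [← hs, ← hh]
    have e2 : (r : ℝ) ≤ r * h := le_mul_of_one_le_right hR0.le hh1
    calc dev (siz g) ≤ 2 * B + r + 2 * ((outSet G g).ncard : ℝ) := hdev
      _ ≤ 2 * B + r * h + 2 * (N * h) := by linarith
      _ ≤ 2 * B + (2 + r + 2 * N) * h := by linarith
  · intro hεB
    refine ⟨t₀, hNK, ?_⟩
    intro t htt
    rw [← hs]
    obtain ⟨R, hRdef⟩ : ∃ R : ℝ, R = Real.sqrt (2 * B * ((r : ℝ) - 1) / r) := ⟨_, rfl⟩
    have hst := hsm' t htt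
    rw [← hRdef] at hst hbig
    have hsB : 2 * c * s ≤ Real.sqrt B := by
      have e1 : 2 * c * s = Real.sqrt (ε * n) := by
        rw [Real.sqrt_mul hε.le, hc2, hs]
      rw [e1]
      exact Real.sqrt_le_sqrt hεB
    have hR2 : 2 * c * s ≤ R := by
      refine hsB.trans ?_
      rw [hRdef]
      apply Real.sqrt_le_sqrt
      have e2 : 2 * (B : ℝ) * ((r : ℝ) - 1) / r = 2 * B * (1 - u) := by
        rw [hu]; field_simp
      rw [e2]
      have e8 : (B : ℝ) * 1 ≤ B * (2 * (1 - u)) :=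
        mul_le_mul_of_nonneg_left (by linarith) hB0
      linarith
    have hR0' : 0 ≤ R := by rw [hRdef]; exact Real.sqrt_nonneg _
    have hRr : 0 ≤ R / ((r : ℝ) - 1) := div_nonneg hR0' (by linarith)
    -- the large class
    have hx : |(siz g t₀ : ℝ) - (n / r + R)| ≤ c / 2 * s := by
      have e1 : ε * n * |(siz g t₀ : ℝ) - (n / r + R)| ≤ N * (n * h) :=
        (mul_le_mul_of_nonneg_right hεB (abs_nonneg _)).trans hbig
      have e2 : 2 * N / (ε * c) ≤ h := by linarith
      rw [div_le_iff₀ (by positivity)] at e2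
      have e3 : N * (n * h) ≤ ε * n * (c / 2 * s) := by
        have e4 := mul_le_mul_of_nonneg_right e2 (by positivity : (0 : ℝ) ≤ n * h)
        have e5 : h * (ε * c) * (n * h) = ε * n * (c * s) := by rw [← hh2]; ring
        rw [e5] at e4
        linarith
      exact le_of_mul_le_mul_left (e1.trans e3) (by positivity)
    have hy : ((siz g t : ℝ) - (n / r - R / ((r : ℝ) - 1))) ^ 2 ≤ (c / 2 * s) ^ 2 := by
      have e1 : 2 * c * s * ((siz g t : ℝ) - (n / r - R / ((r : ℝ) - 1))) ^ 2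
          ≤ N * (n * h) :=
        (mul_le_mul_of_nonneg_right hsB (sq_nonneg _)).trans hst
      have e2 : 2 * N / c ^ 3 ≤ h := by linarith
      rw [div_le_iff₀ (by positivity)] at e2
      have e3 : N * (n * h) ≤ 2 * c * s * (c / 2 * s) ^ 2 := by
        have e4 := mul_le_mul_of_nonneg_right e2 (by positivity : (0 : ℝ) ≤ n * h)
        have e5 : h * c ^ 3 * (n * h) = 2 * (2 * c * s * (c / 2 * s) ^ 2) := by
          rw [← hs2, ← hh2]; ring
        rw [e5] at e4
        linarith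
      exact le_of_mul_le_mul_left (e1.trans e3) (by positivity)
    have e2 := abs_le_of_sq_le_sq' hy (by positivity)
    have e3 := (abs_le.1 hx).1
    linarith [e2.2]

end MP0c3a8f

end

section

/-!
# MP_0c3a8f_co, item PSN, part 1: the graph of the missing pairs and the comparison graph
-/

set_option autoImplicit false
set_option linter.unusedSectionVars false
set_option linter.unusedVariables false

open Finset

namespace MP0c3a8f

namespace ItemPSN

variable {V : Type} [Fintype V] {r : ℕ}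

/-- the graph of the missing pairs -/
def MG (G : SimpleGraph V) (g : V → Option (Fin r)) : SimpleGraph V where
  Adj v u := g v ≠ none ∧ g u ≠ none ∧ g u ≠ g v ∧ ¬ G.Adj v u
  symm := ⟨fun v u h => ⟨h.2.1, h.1, h.2.2.1.symm, fun h' => h.2.2.2 h'.symm⟩⟩
  loopless := ⟨fun v h => h.2.2.1 rfl⟩

theorem MG_iff (G : SimpleGraph V) (g : V → Option (Fin r)) (u v : V) :
    (MG G g).Adj u v ↔ s(u, v) ∈ missSet G g := by
  rw [ItemMKH.mem_missSet]
  constructor
  · intro h
    exact ⟨h.1, h.2.1, h.2.2.1.symm, h.2.2.2⟩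
  · intro h
    exact ⟨h.1, h.2.1, h.2.2.1.symm, h.2.2.2⟩

theorem MG_edge (G : SimpleGraph V) (g : V → Option (Fin r)) :
    (MG G g).edgeSet = missSet G g := by
  ext e
  induction e using Sym2.ind with
  | _ u v => rw [SimpleGraph.mem_edgeSet, MG_iff]

theorem MG_deg (G : SimpleGraph V) (g : V → Option (Fin r)) (v : V) :
    {u | (MG G g).Adj v u}.ncard = mdeg G g v := rfl

open Classical in
theorem miss_MG (G : SimpleGraph V) (g : V → Option (Fin r)) (Y : V → ℝ) :
    miss G Y g = ∑ u, ∑ v, if (MG G g).Adj u v then Y u * Y v else 0 := by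
  rw [ItemMKH.miss_eq]
  refine Finset.sum_congr rfl fun u _ => Finset.sum_congr rfl fun v _ => ?_
  by_cases h : (MG G g).Adj u v
  · rw [if_pos h, if_pos ((MG_iff G g u v).1 h)]
  · rw [if_neg h, if_neg fun h' => h ((MG_iff G g u v).2 h')]

open Classical in
theorem count_MG (G : SimpleGraph V) (g : V → Option (Fin r)) :
    ∑ u, ∑ v, (if (MG G g).Adj u v then (1 : ℝ) else 0) = 2 * ((missSet G g).ncard : ℝ) := by
  rw [← ItemMKH.ordered (missSet G g) (fun u h => ((ItemMKH.mem_missSet G g u u).1 h).2.2.1 rfl)]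
  refine Finset.sum_congr rfl fun u _ => Finset.sum_congr rfl fun v _ => ?_
  by_cases h : (MG G g).Adj u v
  · rw [if_pos h, if_pos ((MG_iff G g u v).1 h)]
  · rw [if_neg h, if_neg fun h' => h ((MG_iff G g u v).2 h')]

open Classical in
theorem muv_MG (G : SimpleGraph V) (g : V → Option (Fin r)) (z : V → ℝ) (v : V) :
    muv G g z v = ∑ u, if (MG G g).Adj v u then z u else 0 := by
  unfold muv
  refine Finset.sum_congr rfl fun u _ => ?_
  by_cases h : (MG G g).Adj v u
  · rw [if_pos h, if_pos (show g v ≠ none ∧ g u ≠ none ∧ g u ≠ g v ∧ ¬ G.Adj v u from h)]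
  · rw [if_neg h, if_neg (show ¬ (g v ≠ none ∧ g u ≠ none ∧ g u ≠ g v ∧ ¬ G.Adj v u) from h)]

/-- vertices in missing pairs -/
def MV (G : SimpleGraph V) (g : V → Option (Fin r)) : Set V := {v | ∃ u, (MG G g).Adj v u}

theorem MV_card (G : SimpleGraph V) (g : V → Option (Fin r)) :
    (MV G g).ncard ≤ 2 * (missSet G g).ncard := by
  classical
  have h1 : ((MV G g).ncard : ℝ) = ∑ v, if v ∈ MV G g then (1 : ℝ) else 0 := by
    rw [Finset.sum_ite, Finset.sum_const_zero, add_zero, Finset.sum_const, nsmul_eq_mul, mul_one]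
    congr 1
    rw [← Set.ncard_coe_finset]
    congr 1
    ext v
    simp
  have h2 : ((MV G g).ncard : ℝ) ≤ 2 * ((missSet G g).ncard : ℝ) := by
    rw [h1, ← count_MG]
    refine Finset.sum_le_sum fun v _ => ?_
    by_cases hv : v ∈ MV G g
    · rw [if_pos hv]
      obtain ⟨u, hu⟩ := hv
      have : (if (MG G g).Adj v u then (1 : ℝ) else 0) ≤
          ∑ u, if (MG G g).Adj v u then (1 : ℝ) else 0 :=
        Finset.single_le_sum (f := fun u => if (MG G g).Adj v u then (1 : ℝ) else 0)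
          (fun i _ => by split_ifs <;> norm_num) (Finset.mem_univ u)
      rwa [if_pos hu] at this
    · rw [if_neg hv]
      exact Finset.sum_nonneg fun i _ => by split_ifs <;> norm_num
  exact_mod_cast h2

/-- clean vertices: in no missing pair and without light neighbour -/
def Cl (G : SimpleGraph V) (g : V → Option (Fin r)) (v : V) : Prop :=
  (∀ u, ¬ (MG G g).Adj v u) ∧ ∀ u, g u = none → ¬ G.Adj v u

/-- many clean vertices -/
theorem clean_card (G : SimpleGraph V) (g : V → Option (Fin r)) (t : Fin r) :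
    siz g t ≤ {v | g v = some t ∧ Cl G g v}.ncard + 2 * (missSet G g).ncard +
      (outSet G g).ncard := by
  have h1 : {v | g v = some t} ⊆ {v | g v = some t ∧ Cl G g v} ∪ MV G g ∪ ItemMKH.Xs G g := by
    intro v hv
    by_cases h : Cl G g v
    · exact Or.inl (Or.inl ⟨hv, h⟩)
    · unfold Cl at h
      rw [not_and_or] at h
      rcases h with h | h
      · push Not at h
        exact Or.inl (Or.inr h)
      · push Not at h
        obtain ⟨x, hx, hvx⟩ := h
        refine Or.inr ⟨?_, x, hx, hvx⟩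
        rw [show g v = some t from hv]
        simp
  have h2 := Set.ncard_le_ncard h1 (Set.toFinite _)
  have h3 := Set.ncard_union_le ({v | g v = some t ∧ Cl G g v} ∪ MV G g) (ItemMKH.Xs G g)
  have h4 := Set.ncard_union_le {v | g v = some t ∧ Cl G g v} (MV G g)
  have h5 := MV_card G g
  have h6 := ItemMKH.Xs_card G g
  unfold siz
  omega

/-- the comparison graph -/
def HH (g : V → Option (Fin r)) (w : V) (q : Fin r → V) (p : V) (L : Finset V) :
    SimpleGraph V where
  Adj u v := (g u = none ∧ u = w ∧ g v ≠ none ∧ ∃ t, v = q t) ∨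
    (g v = none ∧ v = w ∧ g u ≠ none ∧ ∃ t, u = q t) ∨
    (g u ≠ none ∧ g v ≠ none ∧ g u ≠ g v ∧ ¬ (u = p ∧ v ∈ L) ∧ ¬ (v = p ∧ u ∈ L))
  symm := ⟨fun u v h => by
    rcases h with h | h | h
    · exact Or.inr (Or.inl h)
    · exact Or.inl h
    · exact Or.inr (Or.inr ⟨h.2.1, h.1, h.2.2.1.symm, h.2.2.2.2, h.2.2.2.1⟩)⟩
  loopless := ⟨fun u h => by
    rcases h with h | h | h
    · exact h.2.2.1 h.1
    · exact h.2.2.1 h.1
    · exact h.2.2.1 rfl⟩

theorem HH_TyP {g : V → Option (Fin r)} {w : V} {q : Fin r → V} {i j : Fin r} {L : Finset V}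
    (out : ∀ v, g v = none ↔ v = w) (hq : ∀ t, g (q t) = some t) (hij : j ≠ i)
    (hL : ∀ v ∈ L, g v = some j) (hj : q j ∈ L) (room : ∀ t, L.card + 2 ≤ siz g t) :
    TyP (HH g w q (q i) L) g w q i L where
  out := out
  hq := hq
  wn v := by
    have hw : g w = none := (out w).2 rfl
    constructor
    · rintro (h | h | h)
      · exact h.2.2.2
      · exact absurd hw h.2.2.1
      · exact absurd hw h.1
    · rintro ⟨t, rfl⟩
      exact Or.inl ⟨hw, rfl, by rw [hq]; simp, t, rfl⟩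
  hL v hv := by
    rw [hL v hv]
    exact ⟨by simp, fun h => hij (Option.some_injective _ h)⟩
  core u v hu hv := by
    constructor
    · rintro (h | h | h)
      · exact absurd h.1 hu
      · exact absurd h.1 hv
      · exact ⟨h.2.2.1, h.2.2.2.1, h.2.2.2.2⟩
    · intro h
      exact Or.inr (Or.inr ⟨hu, hv, h.1, h.2.1, h.2.2⟩)
  ex := ⟨j, hj⟩
  room := room

/-- the number of edges -/
theorem edges (hC : CNTU_statement) (G : SimpleGraph V) (g : V → Option (Fin r))
    (hI : Indep G g) : 2 * G.edgeSet.ncard + 2 * (missSet G g).ncard + ∑ t, siz g t ^ 2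
      = (∑ t, siz g t) ^ 2 + 2 * (outSet G g).ncard := by
  obtain ⟨e, he, h⟩ := hC r V G g ∅ hI (by simp)
  have he0 : e = 0 := by
    rw [Finset.card_empty] at he
    omega
  subst he0
  have h1 : lightSet G g ∅ = outSet G g := by
    unfold lightSet outSet
    simp
  rw [h1] at h
  simpa using h

/-- graphs of type `P` with the right number of edges are not better -/
theorem lam_le {U : Type} [Fintype U] {G : SimpleGraph V} {g : V → Option (Fin r)} {m : ℕ}
    (hC : CNTU_statement) (hM : MEMP_statement) (hr : 3 ≤ r) (hG : MxK r m G)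
    (hI : Indep G g) (ho : (outSet G g).ncard = r) {H : SimpleGraph U}
    {f : U → Option (Fin r)} {w : U} {q : Fin r → U} {i : Fin r} {L : Finset U}
    (hT : TyP H f w q i L) (hL : L.card = (missSet G g).ncard)
    (hs : ∀ t, siz f t = siz g t) : lam H ≤ lam G := by
  obtain ⟨h1, h2, h3, h4, h5, h6, h7⟩ := hM r U H f w q i L hr hT
  refine hG.2 U H ⟨h1, ?_, h3, h2⟩
  have h8 := edges hC G g hI
  rw [ho, hG.1.size] at h8
  rw [hL] at h7
  simp only [hs] at h7
  omega

/-- existence of the comparison graph -/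
theorem comp_exists {G : SimpleGraph V} {g : V → Option (Fin r)} {m : ℕ} {w : V}
    (hC : CNTU_statement) (hM : MEMP_statement) (hr : 3 ≤ r) (hG : MxK r m G)
    (hI : Indep G g) (ho : (outSet G g).ncard = r) (out : ∀ v, g v = none ↔ v = w)
    (ha : 1 ≤ (missSet G g).ncard) (i j : Fin r) (hij : j ≠ i)
    (room : ∀ t, 3 * (missSet G g).ncard + r + 2 ≤ siz g t) :
    ∃ (H : SimpleGraph V) (q : Fin r → V) (L : Finset V), TyP H g w q i L ∧
      L.card = (missSet G g).ncard ∧ (∀ v ∈ L, g v = some j ∧ Cl G g v) ∧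
      (∀ t, Cl G g (q t)) ∧ lam H ≤ lam G := by
  classical
  have h1 : ∀ t, (missSet G g).ncard ≤ {v | g v = some t ∧ Cl G g v}.ncard := by
    intro t
    have h2 := clean_card G g t
    have h3 := room t
    omega
  have h2 : ∀ t, ∃ v, g v = some t ∧ Cl G g v := by
    intro t
    by_contra hne
    have h3 : {v | g v = some t ∧ Cl G g v} = ∅ := by
      ext v
      simp only [Set.mem_setOf_eq, Set.mem_empty_iff_false, iff_false]
      exact fun h => hne ⟨v, h⟩
    have h4 := h1 t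
    rw [h3, Set.ncard_empty] at h4
    omega
  choose q0 hq0 using h2
  obtain ⟨L0, hL0, hL0c⟩ := Set.exists_subset_card_eq (h1 j)
  have hfin : L0.Finite := Set.toFinite _
  obtain ⟨y, hy⟩ : L0.Nonempty := by
    rw [Set.nonempty_iff_ne_empty]
    rintro rfl
    rw [Set.ncard_empty] at hL0c
    omega
  have hLc : hfin.toFinset.card = (missSet G g).ncard := by
    rw [← hL0c, ← Set.ncard_eq_toFinset_card L0 hfin]
  have hLm : ∀ v ∈ hfin.toFinset, g v = some j ∧ Cl G g v := by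
    intro v hv
    exact hL0 (hfin.mem_toFinset.1 hv)
  set q : Fin r → V := fun t => if t = j then y else q0 t with hq
  have hqj : q j = y := by rw [hq]; simp
  have hqt : ∀ t, g (q t) = some t ∧ Cl G g (q t) := by
    intro t
    by_cases ht : t = j
    · subst ht
      rw [hqj]
      exact hL0 hy
    · have : q t = q0 t := by rw [hq]; simp [ht]
      rw [this]
      exact hq0 t
  have hT : TyP (HH g w q (q i) hfin.toFinset) g w q i hfin.toFinset :=
    HH_TyP out (fun t => (hqt t).1) hij (fun v hv => (hLm v hv).1)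
      (by rw [hqj]; exact hfin.mem_toFinset.2 hy) (fun t => by
        rw [hLc]
        have := room t
        omega)
  exact ⟨_, q, _, hT, hLc, hLm, fun t => (hqt t).2,
    lam_le hC hM hr hG hI ho hT hLc fun t => rfl⟩

end ItemPSN

end MP0c3a8f

end

section

/-!
# MP_0c3a8f_co: item TCG (the eigenvalue equations and the weights of the classes)
-/

open Finset

namespace MP0c3a8f

open ItemFLU ItemTCL in
theorem prfTCG : TCG_statement := by
  classical
  intro r V _ G z g n hI hz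
  obtain ⟨hz0, hze, hzs⟩ := hz
  refine ⟨?_, ?_⟩
  · intro v t hv
    have h7 := row hI z v t hv
    rw [hze v, hzs] at h7
    rw [h7, muv_eq G g z v t hv, omv_eq G g z v t hv, tv]
  · intro t
    have h5 := clsum hI z t
    have h6 : ∑ u, (if g u = some t then ∑ v, adj G u v * z v else 0) =
        lam G * cw z g (some t) := by
      unfold cw
      rw [Finset.mul_sum]
      refine Finset.sum_congr rfl fun u _ => ?_
      by_cases hu : g u = some t
      · simp [hu, hze u]
      · simp [hu]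
    rw [h6, hzs] at h5
    rw [cw_muv, cw_omv]
    unfold tv
    linear_combination -h5

end MP0c3a8f

end

section

/-!
# MP_0c3a8f_co: all items of the part PB8 (`F = K_{r+1}`, upper range) together
-/

namespace MP0c3a8f

theorem bNLU : NLU_statement := prfNLU prfKCC prfCRT prfDEV prfCNTU bFINU
theorem bRSI : RSI_statement := prfRSI prfP
theorem bQMB : QMB_statement := prfQMB bRSI bMEM1
theorem bRMB : RMB_statement := prfRMB bRSI bMEM2
theorem bMVE : MVE_statement := prfMVE prfP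
theorem bTCL : TCL_statement := prfTCL bFLU
theorem bSWZ : SWZ_statement := prfSWZ prfP bFLU
theorem bSWR : SWR_statement := prfSWR prfP bFLU
theorem bRLE : RLE_statement := prfRLE bCLA
theorem bCAB : CAB_statement :=
  prfCAB prfCNTU prfGRD.1 bUPL bLOL bTRK bRLE bMEM1 bMEM2 prfMEMP prfFAM1 prfFAM2 prfFAMP
theorem bCLSS : CLSS_statement := prfCLSS prfGRD.1
theorem bPST : PST_statement := prfPST prfP prfCNTU bFLU bTCL bSWZ prfSQE bCLSS prfMEMP
theorem bPEV : PEV_statement := prfPEV prfP bFLU bTCL bMVE prfMEMP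
theorem bQST : QST_statement := prfQST prfP prfCNTU bFLU bTCL bSWZ bQMB prfCLB prfREL
theorem bQEV : QEV_statement := prfQEV prfP bFLU bTCL bMVE bMEM1
theorem bRST : RST_statement := prfRST prfP prfCNTU bFLU bSWR bRLE bRMB bCLA
theorem bRII : RII_statement := prfRII prfP prfCNTU bFLU bTCL bSWR bRMB bMEM2
theorem bREV : REV_statement := prfREV prfP bFLU bTCL bMVE bMEM2
theorem bTIP : TIP_statement := prfTIP prfP
theorem bUNX : UNX_statement :=
  prfUNX prfEDG.2 prfMEMP bMEM1 bMEM2 prfREL prfISO1 bTI2 bTIP prfGVG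
theorem bFINC : FINC_statement :=
  prfFINC prfKCC prfCRT bFINU bNLU bCAB bPST bPEV bQST bQEV bRST bRII bREV prfMEMP bMEM1 bMEM2

end MP0c3a8f

end

section

/-!
# MP_0c3a8f_co, PB10: item FINE (the extremal graphs for `K_{r+1}` for all sufficiently large `m`)
-/

set_option autoImplicit false

open Finset

namespace MP0c3a8f

namespace FINEx

theorem qq_low {r : ℕ} (hr : 3 ≤ r) : (2 : ℝ) / 3 ≤ qq r := by
  have h3 : (3 : ℝ) ≤ r := by exact_mod_cast hr
  unfold qq
  have : 1 / (r : ℝ) ≤ 1 / 3 := one_div_le_one_div_of_le (by norm_num) h3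
  linarith

theorem qq_up (r : ℕ) : qq r ≤ 1 := by
  unfold qq
  have : (0 : ℝ) ≤ 1 / (r : ℝ) := by positivity
  linarith

/-- for small `D` the number `gap` is negative -/
theorem gap_neg {r n D : ℕ} (hr : 3 ≤ r) (hn : 0 < n) (h : (D : ℝ) ≤ 1 / (8 * (r : ℝ)) * n) :
    gap r n D < 0 := by
  have h3 : (3 : ℝ) ≤ r := by exact_mod_cast hr
  have hn' : (0 : ℝ) < n := by exact_mod_cast hn
  have hq := qq_low hr
  have hqn : 0 < qq r * (n : ℝ) := mul_pos (by linarith) hn'
  have hx0 : 0 ≤ (D : ℝ) / (qq r * n) := by positivity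
  have hx : (D : ℝ) / (qq r * n) ≤ 3 / (16 * r) := by
    rw [div_le_iff₀ hqn]
    have h1 : (3 : ℝ) / (16 * r) * (qq r * n) ≥ 3 / (16 * r) * (2 / 3 * n) := by
      apply mul_le_mul_of_nonneg_left _ (by positivity)
      exact mul_le_mul_of_nonneg_right hq hn'.le
    have h2 : (3 : ℝ) / (16 * r) * (2 / 3 * n) = 1 / (8 * (r : ℝ)) * n := by
      field_simp
      norm_num
    linarith
  have hsub : 0 ≤ (if n % r ≤ 1 then ((D : ℝ) / (qq r * n)) ^ 4 / (r * ((r : ℝ) - 2)) else 0) := by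
    split_ifs
    · apply div_nonneg (by positivity)
      exact mul_nonneg (by linarith) (by linarith)
    · exact le_refl _
  have hmain : 2 * ((r : ℝ) + 1) * ((D : ℝ) / (qq r * n)) ≤ 1 := by
    have h1 : 2 * ((r : ℝ) + 1) * ((D : ℝ) / (qq r * n)) ≤ 2 * ((r : ℝ) + 1) * (3 / (16 * r)) :=
      mul_le_mul_of_nonneg_left hx (by linarith)
    have h2 : 2 * ((r : ℝ) + 1) * (3 / (16 * r)) = 3 / 8 * (((r : ℝ) + 1) / r) := by
      field_simp
      ring
    have h4 : ((r : ℝ) + 1) / r ≤ 4 / 3 := by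
      rw [div_le_div_iff₀ (by linarith) (by norm_num)]
      linarith
    rw [h2] at h1
    linarith
  unfold gap
  linarith

end FINEx

theorem prfFINE : P_statement → FINA_statement → KCC_statement → CRT_statement →
    FIN3_statement → YCV_statement → YIN_statement → UNR_statement → YRA_statement →
    YRC_statement → YRD_statement → PCK_statement → FINE_statement := by
  intro _ hFINA hKCC hCRT hFIN3 hYCV hYIN hUNR hYRA hYRC hYRD hPCK r ε hr hε
  obtain ⟨hk1, hk2⟩ := hKCC r hr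
  obtain ⟨c1, c2, c3⟩ := hCRT (Fin (r + 1)) (⊤ : SimpleGraph (Fin (r + 1))) r hk1 hk2
  obtain ⟨_, m₁, hA⟩ := hFINA (Fin (r + 1)) (⊤ : SimpleGraph (Fin (r + 1))) r hr c1 c3 c2
  obtain ⟨ε₀, hε₀, N, n₁, h₁⟩ := hYRA r hr
  obtain ⟨ε₂, hε₂, n₂, h₂⟩ := hYRC r hr
  have h3 : (3 : ℝ) ≤ r := by exact_mod_cast hr
  obtain ⟨ε₁, hε₁⟩ : ∃ x : ℝ, x = min (min ε₀ ε) (1 / (8 * (r : ℝ))) := ⟨_, rfl⟩
  obtain ⟨ε₃, hε₃⟩ : ∃ x : ℝ, x = min ε₂ ε := ⟨_, rfl⟩
  have hε₁0 : 0 < ε₁ := by
    rw [hε₁]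
    exact lt_min (lt_min hε₀ hε) (by positivity)
  have hε₃0 : 0 < ε₃ := by
    rw [hε₃]
    exact lt_min hε₂ hε
  have e1 : ε₁ ≤ ε₀ := by
    rw [hε₁]
    exact (min_le_left _ _).trans (min_le_left _ _)
  have e2 : ε₁ ≤ ε := by
    rw [hε₁]
    exact (min_le_left _ _).trans (min_le_right _ _)
  have e3 : ε₁ ≤ 1 / (8 * (r : ℝ)) := by
    rw [hε₁]
    exact min_le_right _ _
  have e4 : ε₃ ≤ ε₂ := by
    rw [hε₃]
    exact min_le_left _ _
  obtain ⟨ε', hε'⟩ : ∃ x : ℝ, x = min ε₁ (ε₃ / 2) := ⟨_, rfl⟩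
  have hε'0 : 0 < ε' := by
    rw [hε']
    exact lt_min hε₁0 (by linarith)
  have e5 : ε' ≤ ε₁ := by
    rw [hε']
    exact min_le_left _ _
  obtain ⟨n₃, h₃⟩ := hFIN3 r ε' hr hε'0
  obtain ⟨n₄, h₄⟩ := hYRD r (ε₃ / 2) hr (by linarith)
  obtain ⟨m₂, h₅⟩ := hPCK r ε₁ ε₃ hr hε₁0 hε₃0 (n₁ + n₂ + n₃ + n₄ + 2 * r + 1)
  refine ⟨N, m₁ + m₂, ?_⟩
  intro m hm
  obtain ⟨n, D, B, hn, hD, hB, hB1, hcase⟩ := h₅ m (by omega)
  obtain ⟨_, _, _, _, _, hex, _⟩ := hA m (by omega)
  subst hD
  have hn0 : (0 : ℝ) < n := by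
    have : 0 < n := by omega
    exact_mod_cast this
  have hq0 : 0 < qq r := lt_of_lt_of_le (by norm_num) (FINEx.qq_low hr)
  have hqn : 0 < qq r * (n : ℝ) := mul_pos hq0 hn0
  have hY1 : ∀ (V : Type) [Fintype V] (G : SimpleGraph V), IsG1 r n D G →
      IsY (fun t : Fin r => tz r n t) ((SimpleGraph.turanGraph n r).edgeSet.ncard + D) G := by
    intro V _ G hG
    obtain ⟨a1, _, a3, _⟩ := hYCV r n D V G hr (by omega)
    exact ⟨a1, (a3 hG).1, Or.inr (Or.inl (a3 hG).2)⟩
  have hY2 : ∀ (V : Type) [Fintype V] (G : SimpleGraph V), IsG2 r n D G →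
      IsY (fun t : Fin r => tz r n t) ((SimpleGraph.turanGraph n r).edgeSet.ncard + D) G := by
    intro V _ G hG
    obtain ⟨a1, _, _, a4⟩ := hYCV r n D V G hr (by omega)
    exact ⟨a1, (a4 hG).1, Or.inr (Or.inr (a4 hG).2)⟩
  have hsum : ∑ t : Fin r, tz r n t = n := by
    obtain ⟨k, G, _⟩ := hex
    exact (hYCV r n D (Fin k) G hr (by omega)).2.1
  have hA2 : (D : ℝ) ≤ ε₁ * n → ∀ (V : Type) [Fintype V] (G : SimpleGraph V),
      MxK r ((SimpleGraph.turanGraph n r).edgeSet.ncard + D) G →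
      ((D : ℝ) < N * Real.sqrt (Real.sqrt n) → ∃ σ : Fin r → ℕ, ∑ t, σ t = n ∧
        IsY σ ((SimpleGraph.turanGraph n r).edgeSet.ncard + D) G) ∧
      (N * Real.sqrt (Real.sqrt n) ≤ D → IsG2 r n D G) := by
    intro hDε V _ G hG
    exact h₁ n (by omega) D (hDε.trans (mul_le_mul_of_nonneg_right e1 hn0.le)) V G hG
  have hZ : ∀ (V : Type) [Fintype V] (G : SimpleGraph V),
      MxK r ((SimpleGraph.turanGraph n r).edgeSet.ncard + D) G →
      IsZ r n ((SimpleGraph.turanGraph n r).edgeSet.ncard + D) G := by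
    intro V _ G hG
    rcases hcase with hc | hc | hc | hc
    · obtain ⟨a1, a2⟩ := hA2 hc V G hG
      rcases lt_or_ge (D : ℝ) (N * Real.sqrt (Real.sqrt n)) with h | h
      · obtain ⟨σ, hσ, hσY⟩ := a1 h
        exact ⟨σ, Or.inl hσ, hσY⟩
      · exact ⟨fun t : Fin r => tz r n t, Or.inl hsum, hY2 V G (a2 h)⟩
    · rw [← hε'] at hc
      obtain ⟨_, b2, _⟩ := h₃ n (by omega) D hc
      rcases ((b2 V G).1 hG).1 with h | h
      · exact ⟨fun t : Fin r => tz r n t, Or.inl hsum, hY1 V G h⟩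
      · exact ⟨fun t : Fin r => tz r n t, Or.inl hsum, hY2 V G h⟩
    · have hRT : RT r n D B ε₂ := ⟨hc.1.trans (mul_le_mul_of_nonneg_right e4 hqn.le), hc.2⟩
      exact h₂ n (by omega) D B hRT V G hG
    · obtain ⟨σ, hσ, hσY⟩ := h₄ (n + 1) (by omega) B _ hc hB V G hG
      exact ⟨σ, Or.inr hσ, hσY⟩
  have hIn : ∀ (V : Type) [Fintype V] (G : SimpleGraph V),
      IsZ r n ((SimpleGraph.turanGraph n r).edgeSet.ncard + D) G →
      InN r ((SimpleGraph.turanGraph n r).edgeSet.ncard + D)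
        (⊤ : SimpleGraph (Fin (r + 1))) G := by
    rintro V _ G ⟨σ, _, hσ⟩
    exact hYIN r _ σ V G hr hσ
  refine ⟨n, D, rfl, by omega, hex, ?_, ?_⟩
  · intro V _ G
    constructor
    · intro hG
      exact ⟨hZ V G hG, fun U _ H hH => hG.2 U H (hIn U H hH)⟩
    · rintro ⟨hG, hmax⟩
      refine ⟨hIn V G hG, ?_⟩
      intro U _ H hH
      obtain ⟨k, M, hM⟩ := hex
      exact (hM.2 U H hH).trans (hmax (Fin k) M (hZ (Fin k) M hM))
  · intro hDl hDu
    rcases le_or_gt (D : ℝ) (ε₁ * n) with hDε | hDε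
    · constructor
      · intro _ V _ G
        constructor
        · intro hG
          exact (hA2 hDε V G hG).2 hDl
        · intro hG
          refine ⟨hYIN r _ _ V G hr (hY2 V G hG), ?_⟩
          intro U _ H hH
          obtain ⟨k, M, hM⟩ := hex
          have hM2 : IsG2 r n D M := (hA2 hDε (Fin k) M hM).2 hDl
          obtain ⟨a1, _, _, a4⟩ := hYCV r n D V G hr (by omega)
          obtain ⟨_, _, _, b4⟩ := hYCV r n D (Fin k) M hr (by omega)
          have hlam : lam G = lam M := hUNR r _ _ V (Fin k) G M hr a1 (a4 hG).1 (b4 hM2).1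
            (a4 hG).2 (b4 hM2).2
          rw [hlam]
          exact hM.2 U H hH
      · intro hgap
        have hneg : gap r n D < 0 := FINEx.gap_neg hr (by omega)
          (hDε.trans (mul_le_mul_of_nonneg_right e3 hn0.le))
        exact absurd hneg (not_lt.mpr (hε.le.trans hgap))
    · have hRR : RR r n D ε' := by
        constructor
        · have h1 : ε' * (qq r * (n : ℝ)) ≤ ε₁ * (1 * (n : ℝ)) := by
            apply mul_le_mul e5 _ hqn.le hε₁0.le
            exact mul_le_mul_of_nonneg_right (FINEx.qq_up r) hn0.le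
          rw [one_mul] at h1
          exact h1.trans hDε.le
        · refine hDu.trans (mul_le_mul_of_nonneg_right ?_ hqn.le)
          have : ε' ≤ ε := e5.trans e2
          linarith
      obtain ⟨_, _, _, _, b5, b6⟩ := h₃ n (by omega) D hRR
      have hee : ε' ≤ ε := e5.trans e2
      exact ⟨fun hgap V _ G => b6 (by linarith) V G, fun hgap V _ G => b5 (by linarith) V G⟩

end MP0c3a8f

end
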