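import Pool.Agent.Work.MP_0c3a8f_co.PB.Stmts9
import Pool.Agent.Work.MP_0c3a8f_co.Bd.B19
import Pool.Agent.Work.MP_0c3a8f_co.PB.ItemSQE
import Pool.Agent.Work.MP_0c3a8f_co.PB.Stmts10

/-! Bundle of small proof modules (one section per former module). -/

section

/-!
# MP_0c3a8f_co: item QSU (type `Q`, nearly balanced classes)
-/

open Finset

namespace MP0c3a8f

namespace QSUx

variable {V : Type} {r : ℕ}

theorem miss_iff (G : SimpleGraph V) (g : V → Option (Fin r)) {x y : V}
    (h : missSet G g = {s(x, y)}) (a b : V) :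
    (g a ≠ none ∧ g b ≠ none ∧ g a ≠ g b ∧ ¬ G.Adj a b) ↔
      (a = x ∧ b = y) ∨ (a = y ∧ b = x) := by
  have h1 : (FNWx.MG G g).Adj a b ↔ s(a, b) ∈ missSet G g := by
    rw [← FNWx.MG_edge, SimpleGraph.mem_edgeSet]
  rw [h, Set.mem_singleton_iff, Sym2.eq_iff] at h1
  rw [← h1]
  constructor
  · rintro ⟨h2, h3, h4, h5⟩
    exact ⟨h2, h3, h4.symm, h5⟩
  · rintro ⟨h2, h3, h4, h5⟩
    exact ⟨h2, h3, h4.symm, h5⟩

theorem miss_iff' (G : SimpleGraph V) (g : V → Option (Fin r)) {x y : V}
    (h : missSet G g = {s(x, y)}) (a b : V) :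
    (g a ≠ none ∧ g b ≠ none ∧ g b ≠ g a ∧ ¬ G.Adj a b) ↔
      (a = x ∧ b = y) ∨ (a = y ∧ b = x) := by
  rw [← miss_iff G g h a b]
  constructor
  · rintro ⟨h2, h3, h4, h5⟩
    exact ⟨h2, h3, h4.symm, h5⟩
  · rintro ⟨h2, h3, h4, h5⟩
    exact ⟨h2, h3, h4.symm, h5⟩

theorem miss_ne {G : SimpleGraph V} {g : V → Option (Fin r)} {x y : V}
    (h : missSet G g = {s(x, y)}) : x ≠ y := by
  have h1 := (miss_iff G g h x y).2 (Or.inl ⟨rfl, rfl⟩)
  intro hxy
  subst hxy
  exact h1.2.2.1 rfl

theorem miss_val [Fintype V] (G : SimpleGraph V) (g : V → Option (Fin r)) {x y : V}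
    (h : missSet G g = {s(x, y)}) (T : V → ℝ) : miss G T g = 2 * (T x * T y) := by
  classical
  have hxy := miss_ne h
  have key : ∀ a b, (if g a ≠ none ∧ g b ≠ none ∧ g a ≠ g b ∧ ¬ G.Adj a b then T a * T b
      else 0) = (if a = x then T a else 0) * (if b = y then T b else 0)
      + (if a = y then T a else 0) * (if b = x then T b else 0) := by
    intro a b
    simp only [miss_iff G g h a b]
    by_cases h1 : a = x
    · by_cases h2 : b = y
      · simp [h1, h2, hxy]
      · simp [h1, h2, hxy]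
    · by_cases h2 : a = y
      · by_cases h3 : b = x
        · simp [h2, h3, hxy, hxy.symm]
        · simp [h2, h3, hxy.symm]
      · simp [h1, h2]
  unfold miss
  simp only [key, Finset.sum_add_distrib, ← Finset.mul_sum, ← Finset.sum_mul,
    Finset.sum_ite_eq', Finset.mem_univ, if_true]
  ring

open Classical in
theorem muv_val [Fintype V] (G : SimpleGraph V) (g : V → Option (Fin r))
    {x y : V} (h : missSet G g = {s(x, y)}) (z : V → ℝ) (v : V) :
    muv G g z v = (if v = x then z y else 0) + (if v = y then z x else 0) := by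
  have hxy := miss_ne h
  have key : ∀ u, (if g v ≠ none ∧ g u ≠ none ∧ g u ≠ g v ∧ ¬ G.Adj v u then z u else 0)
      = (if u = y then (if v = x then z u else 0) else 0)
      + (if u = x then (if v = y then z u else 0) else 0) := by
    intro u
    simp only [miss_iff' G g h v u]
    by_cases h1 : v = x
    · by_cases h2 : u = y
      · simp [h1, h2, hxy, hxy.symm]
      · simp [h1, h2, hxy]
    · by_cases h2 : v = y
      · by_cases h3 : u = x
        · simp [h2, h3, hxy, hxy.symm]
        · simp [h2, h3, hxy.symm]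
      · simp [h1, h2]
  unfold muv
  simp only [key, Finset.sum_add_distrib, Finset.sum_ite_eq', Finset.mem_univ, if_true]

open Classical in
theorem muv_sq [Fintype V] (G : SimpleGraph V) (g : V → Option (Fin r)) {x y : V}
    (h : missSet G g = {s(x, y)}) (z : V → ℝ) :
    ∑ v, muv G g z v ^ 2 = z y ^ 2 + z x ^ 2 := by
  have hxy := miss_ne h
  have key : ∀ v, muv G g z v ^ 2 = (if v = x then z y ^ 2 else 0)
      + (if v = y then z x ^ 2 else 0) := by
    intro v
    rw [muv_val G g h z v]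
    by_cases h1 : v = x
    · simp [h1, hxy]
    · by_cases h2 : v = y
      · simp [h2, hxy.symm]
      · simp [h1, h2]
  simp only [key, Finset.sum_add_distrib, Finset.sum_ite_eq', Finset.mem_univ, if_true]

theorem missSet_eq {H : SimpleGraph V} {g : V → Option (Fin r)} {p p' : V} {i j : Fin r}
    (hij : i ≠ j) (hp : g p = some i) (hp' : g p' = some j)
    (hc : ∀ u v, g u ≠ none → g v ≠ none → (H.Adj u v ↔ g u ≠ g v ∧ s(u, v) ≠ s(p, p'))) :
    missSet H g = {s(p, p')} := by
  ext e
  rw [Set.mem_singleton_iff]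
  constructor
  · rintro ⟨v, w, rfl, h1, h2, h3, h4⟩
    rw [hc v w h1 h2] at h4
    by_contra h5
    exact h4 ⟨h3, h5⟩
  · rintro rfl
    have h1 : g p ≠ none := by rw [hp]; simp
    have h2 : g p' ≠ none := by rw [hp']; simp
    refine ⟨p, p', rfl, h1, h2, ?_, ?_⟩
    · rw [hp, hp']
      simpa using hij
    · rw [hc p p' h1 h2]
      exact fun h => h.2 rfl

theorem outSet_card [Fintype V] {H : SimpleGraph V} {g : V → Option (Fin r)} {w : V}
    {A : Finset V} (hw : g w = none) (h1 : ∀ u v, g u = none → u ≠ w → ¬ H.Adj u v)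
    (h2 : ∀ v, H.Adj w v ↔ v ∈ A) : (outSet H g).ncard = A.card := by
  have h3 : outSet H g = (fun v => s(w, v)) '' (A : Set V) := by
    ext e
    constructor
    · rintro ⟨he, v, hv, hv0⟩
      obtain ⟨u, rfl⟩ := Sym2.mem_iff_exists.1 hv
      rw [SimpleGraph.mem_edgeSet] at he
      have hvw : v = w := by
        by_contra hne
        exact h1 v u hv0 hne he
      subst hvw
      exact ⟨u, Finset.mem_coe.2 ((h2 u).1 he), rfl⟩
    · rintro ⟨v, hv, rfl⟩
      exact ⟨(SimpleGraph.mem_edgeSet _).2 ((h2 v).2 (Finset.mem_coe.1 hv)), w, by simp, hw⟩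
  have h4 : Set.InjOn (fun v => s(w, v)) (A : Set V) := by
    intro a _ b _ hab
    exact Sym2.congr_right.1 hab
  rw [h3, h4.ncard_image, Set.ncard_coe_finset]

/-- the choice of `A` -/
theorem choice [Fintype V] (g : V → Option (Fin r)) (hr : 3 ≤ r) {b : ℕ} {i j : Fin r}
    (hs : ∀ t, b ≤ siz g t) (hs1 : ∀ t, 1 ≤ siz g t) (hb : r ≤ b) :
    ∃ (p p' : V) (A : Finset V), (∀ v ∈ A, g v ≠ none) ∧
      (∀ v, (v ∈ A ∧ g v = some i) ↔ v = p) ∧ (∀ v, (v ∈ A ∧ g v = some j) ↔ v = p') ∧
      (∀ t, ∃ v ∈ A, g v = some t) ∧ A.card = b := by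
  classical
  have h1 : ∀ t, ∃ v, g v = some t := fun t => ItemRST.exists_one (hs1 t)
  choose y hy using h1
  obtain ⟨k, hk⟩ : ∃ k : Fin r, k ≠ i ∧ k ≠ j := by
    by_contra hcon
    push Not at hcon
    have h2 : (Finset.univ : Finset (Fin r)) ⊆ {i, j} := by
      intro k _
      by_cases h3 : k = i
      · simp [h3]
      · simp [hcon k h3]
    have h3 := Finset.card_le_card h2
    rw [Finset.card_univ, Fintype.card_fin] at h3
    have h4 := Finset.card_le_two (a := i) (b := j)
    omega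
  have hyi : Function.Injective y := by
    intro s t h
    have := hy s
    rw [h, hy t] at this
    exact (Option.some_injective _ this).symm
  have hS : (univ.image y).card = r := by
    rw [Finset.card_image_of_injective _ hyi, Finset.card_univ, Fintype.card_fin]
  have hST : univ.image y ⊆ univ.filter fun x => g x ≠ none ∧ (g x = some i → x = y i) ∧
      (g x = some j → x = y j) := by
    intro x hx
    obtain ⟨t, -, rfl⟩ := Finset.mem_image.1 hx
    refine Finset.mem_filter.2 ⟨Finset.mem_univ _, ?_, ?_, ?_⟩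
    · rw [hy t]; simp
    · intro h
      rw [hy t] at h
      rw [Option.some_injective _ h]
    · intro h
      rw [hy t] at h
      rw [Option.some_injective _ h]
  have hT : b ≤ (univ.filter fun x => g x ≠ none ∧ (g x = some i → x = y i) ∧
      (g x = some j → x = y j)).card := by
    have h2 : (univ.filter fun x => g x = some k).card = siz g k := by
      unfold siz
      rw [Set.ncard_eq_toFinset_card _ (Set.toFinite _)]
      congr 1
      ext x
      simp
    have h3 : (univ.filter fun x => g x = some k) ⊆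
        univ.filter fun x => g x ≠ none ∧ (g x = some i → x = y i) ∧
          (g x = some j → x = y j) := by
      intro x hx
      have hx3 := (Finset.mem_filter.1 hx).2
      refine Finset.mem_filter.2 ⟨Finset.mem_univ _, ?_, ?_, ?_⟩
      · rw [hx3]; simp
      · intro h
        rw [hx3] at h
        exact absurd (Option.some_injective _ h) hk.1
      · intro h
        rw [hx3] at h
        exact absurd (Option.some_injective _ h) hk.2
    have h4 := Finset.card_le_card h3
    rw [h2] at h4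
    exact (hs k).trans h4
  obtain ⟨A, hSA, hAT, hA⟩ := Finset.exists_subsuperset_card_eq hST (by rw [hS]; exact hb) hT
  have hyA : ∀ t, y t ∈ A := fun t => hSA (Finset.mem_image.2 ⟨t, Finset.mem_univ _, rfl⟩)
  refine ⟨y i, y j, A, ?_, ?_, ?_, fun t => ⟨y t, hyA t, hy t⟩, hA⟩
  · intro x hx
    exact (Finset.mem_filter.1 (hAT hx)).2.1
  · intro v
    constructor
    · rintro ⟨h2, h3⟩
      exact (Finset.mem_filter.1 (hAT h2)).2.2.1 h3
    · rintro rfl
      exact ⟨hyA i, hy i⟩
  · intro v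
    constructor
    · rintro ⟨h2, h3⟩
      exact (Finset.mem_filter.1 (hAT h2)).2.2.2 h3
    · rintro rfl
      exact ⟨hyA j, hy j⟩

theorem delta_low {Ti Tj Ts Tt l e g1 g2 : ℝ} (hl : 0 < l) (he0 : 0 ≤ e) (he : e ≤ l / 4)
    (hi1 : l / 2 ≤ Ti) (hi2 : Ti ≤ 2 * l) (hj1 : l / 2 ≤ Tj) (hj2 : Tj ≤ 2 * l)
    (hg1 : 0 ≤ g1) (hg2 : 0 ≤ g2) (hs : Ti - e + g1 / 2 ≤ Ts) (ht : Tj - e + g2 / 2 ≤ Tt) :
    -(8 * e) + (g1 + g2) / 4 ≤ 2 * (Ts * Tt - Ti * Tj) / l := by
  rw [le_div_iff₀ hl]
  have h1 : (Ti - e + g1 / 2) * (Tj - e + g2 / 2) ≤ Ts * Tt :=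
    mul_le_mul hs ht (by linarith) (by linarith)
  have h2 : g1 * (l / 4) ≤ g1 * (Tj - e) := mul_le_mul_of_nonneg_left (by linarith) hg1
  have h3 : g2 * (l / 4) ≤ g2 * (Ti - e) := mul_le_mul_of_nonneg_left (by linarith) hg2
  have h4 : 0 ≤ g1 * g2 := mul_nonneg hg1 hg2
  have h5 : e * (Ti + Tj) ≤ e * (4 * l) := mul_le_mul_of_nonneg_left (by linarith) he0
  nlinarith [mul_nonneg he0 he0]

/-- the numerical part of the comparison -/
theorem combine {l X k b N E D mG mH mu mu' cH cG : ℝ} (hk0 : 0 ≤ k) (hk1 : k ≤ 1)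
    (hb : 0 ≤ b) (hN0 : 0 ≤ N) (hNb : N ≤ b ^ 2) (hmG : mG = X) (hD : D = (X - mH) / l)
    (hmu' : 2 * (1 - k) ^ 2 ≤ mu') (hmu : mu ≤ 2 * (1 + k) ^ 2)
    (hcH : ((1 - k) * b) ^ 2 ≤ cH) (hcG : cG ≤ (1 + k) ^ 2 * N)
    (h : (mG - mH) / l + (mu' - mu) + (cH - cG) ≤ E) :
    D + (b ^ 2 - N) ≤ E + 8 * k + 5 * k * b ^ 2 := by
  rw [hmG, ← hD] at h
  have h1 : (1 - 2 * k) * b ^ 2 ≤ ((1 - k) * b) ^ 2 := by
    nlinarith [mul_nonneg (mul_nonneg hk0 hk0) (mul_nonneg hb hb)]
  have h2 : (1 + k) ^ 2 * N ≤ N + 3 * k * b ^ 2 := by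
    have h3 : k * k ≤ k := by nlinarith
    have h4 : (2 * k + k * k) * N ≤ (3 * k) * N := mul_le_mul_of_nonneg_right (by linarith) hN0
    have h5 : (3 * k) * N ≤ (3 * k) * b ^ 2 := mul_le_mul_of_nonneg_left hNb (by linarith)
    nlinarith
  nlinarith

theorem fin_sizes {σ : Fin r → ℕ} {i j c d : Fin r} (hi : ∀ t, σ t ≤ σ i)
    (hj : ∀ t, t ≠ i → σ t ≤ σ j) (hcd : c ≠ d) (hsum : σ i + σ j ≤ σ c + σ d)
    (hle : σ d ≤ σ c) : (∀ t, σ t ≤ σ c) ∧ ∀ t, t ≠ c → σ t ≤ σ d := by
  have h1 : σ c = σ i ∧ σ d = σ j := by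
    by_cases hd : d = i
    · have hc : c ≠ i := fun h => hcd (h.trans hd.symm)
      have h2 := hj c hc
      have h3 := hi j
      have h4 := hi c
      rw [hd] at hle hsum ⊢
      omega
    · have h2 := hj d hd
      have h3 := hi c
      omega
  refine ⟨fun t => by rw [h1.1]; exact hi t, fun t ht => ?_⟩
  rw [h1.2]
  by_cases hti : t = i
  · have hc : c ≠ i := fun h => ht (hti.trans h.symm)
    have h2 := hj c hc
    rw [hti]
    omega
  · exact hj t hti

end QSUx


open QSUx in
theorem prfQSU : P_statement → CNTU_statement → FLU_statement → TCL_statement →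
    SWZ_statement → QMB_statement → CLB_statement → REL_statement → QSU_statement := by
  classical
  intro hP hCN hF hTC hSW hQM hCL hRE r C hr hC
  obtain ⟨C₁, n₁, hC₁, h₁⟩ := hF r C hr hC
  obtain ⟨C₂, n₂, hC₂, h₂⟩ := hSW r C hr hC
  obtain ⟨C₃, n₃, hC₃, h₃⟩ := hTC r C hr hC
  obtain ⟨n₄, h₄⟩ := FNWx.num r C (2 * r) hr hC (by positivity)
  obtain ⟨M, hM⟩ : ∃ M : ℝ, M = C₂ * (4 * (r : ℝ) + 1) ^ 3 + 16 * C₃
    + (8 + 20 * (r : ℝ) ^ 2) * C₁ := ⟨_, rfl⟩
  have hM0 : 0 ≤ M := by rw [hM]; positivity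
  obtain ⟨n₅, hn₅⟩ := exists_nat_ge ((4 * M + 6 * C₁ + 24 * C₃ + 1) ^ 2)
  refine ⟨n₁ + n₂ + n₃ + n₄ + n₅ + 1, ?_⟩
  intro V _ G g n m hn hMx hNK ha hb1 hb2
  obtain ⟨b, hb⟩ : ∃ b : ℕ, b = (outSet G g).ncard := ⟨_, rfl⟩
  rw [← hb] at hb1 hb2
  obtain ⟨h4a, -, h4c⟩ := h₄ n (by omega)
  -- the square root of `n`
  obtain ⟨s, hs⟩ : ∃ s : ℝ, s = Real.sqrt n := ⟨_, rfl⟩
  have hs0 : 0 ≤ s := by rw [hs]; exact Real.sqrt_nonneg _
  have hss : s * s = n := by rw [hs]; exact Real.mul_self_sqrt (Nat.cast_nonneg n)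
  have hbig : 4 * M + 6 * C₁ + 24 * C₃ + 1 ≤ s := by
    rw [hs]
    apply Real.le_sqrt_of_sq_le
    refine hn₅.trans ?_
    exact_mod_cast (by omega : n₅ ≤ n)
  have hs1 : 1 ≤ s := by linarith
  have hspos : 0 < s := by linarith
  have hss1 : s ≤ s * s := le_mul_of_one_le_left hs0 hs1
  have hr3 : (3 : ℝ) ≤ r := by exact_mod_cast hr
  -- the sizes of the classes
  have hsizr : ∀ t, (2 * r : ℝ) ≤ siz g t := by
    intro t
    have h1 := FNWx.siz_low hNK t
    have h2 : 0 ≤ 4 * (C * Real.sqrt (Real.sqrt n)) := by positivity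
    linarith
  have hsiz : ∀ t, 2 * r ≤ siz g t := fun t => by
    have := hsizr t
    exact_mod_cast this
  -- a light vertex
  obtain ⟨w₀, hw₀⟩ : ∃ w, g w = none := by
    have h1 : (outSet G g).Nonempty := by
      rw [← Set.ncard_pos (Set.toFinite _)]
      omega
    obtain ⟨e, -, v, -, hv⟩ := h1
    exact ⟨v, hv⟩
  have : Nonempty V := ⟨w₀⟩
  -- the largest classes
  obtain ⟨i, -, hi⟩ := Finset.exists_max_image (univ : Finset (Fin r)) (siz g)
    ⟨⟨0, by omega⟩, Finset.mem_univ _⟩
  have hi' : ∀ t, siz g t ≤ siz g i := fun t => hi t (Finset.mem_univ _)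
  obtain ⟨j, hj0, hj⟩ := Finset.exists_max_image ((univ : Finset (Fin r)).erase i) (siz g) (by
    rw [← Finset.card_pos, Finset.card_erase_of_mem (Finset.mem_univ _), Finset.card_univ,
      Fintype.card_fin]
    omega)
  have hji : j ≠ i := Finset.ne_of_mem_erase hj0
  have hj' : ∀ t, t ≠ i → siz g t ≤ siz g j := fun t ht =>
    hj t (Finset.mem_erase.2 ⟨ht, Finset.mem_univ _⟩)
  -- the comparison graph
  obtain ⟨p, p', A, hA0, hAi, hAj, hAt, hAc⟩ := choice g hr (b := b) (i := i) (j := j)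
    (fun t => by have := hsiz t; omega) (fun t => by have := hsiz t; omega) (by omega)
  have hcnt := FNWx.cnt0 hCN G g hNK.indep
  rw [ha, hMx.1.size, ← hb] at hcnt
  obtain ⟨H, hHI, hHiso, hHw, hHc, hHl⟩ := hQM r m V G g w₀ p p' i j A hr hMx hw₀ hji.symm
    hA0 hAi hAj hAt (fun t => by have := hsiz t; omega) (by rw [hAc]; omega)
  have hgp : g p = some i := ((hAi p).2 rfl).2
  have hgp' : g p' = some j := ((hAj p').2 rfl).2
  have hHm : missSet H g = {s(p, p')} := missSet_eq hji.symm hgp hgp' hHc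
  have hHo : (outSet H g).ncard = b := by
    rw [outSet_card hw₀ hHiso hHw, hAc]
  have hNKH : NK n C H g := by
    refine ⟨hHI, hNK.tot, hNK.dev, ?_⟩
    have h1 := hNK.few
    rw [ha, ← hb] at h1
    rw [hHm, Set.ncard_singleton, hHo]
    exact h1
  -- the Perron vector
  obtain ⟨⟨z, hz⟩, hz2⟩ := h₁ V G g n (by omega) hNK
  obtain ⟨hz1, -, hlam, hT⟩ := hz2 z hz
  obtain ⟨-, -, hTC3⟩ := h₃ V G z g n (by omega) hNK hz
  rw [ha, Nat.cast_one] at hTC3
  obtain ⟨l, hl⟩ : ∃ l : ℝ, l = lam G := ⟨_, rfl⟩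
  obtain ⟨k, hk⟩ : ∃ k : ℝ, k = C₁ / s := ⟨_, rfl⟩
  obtain ⟨e, he⟩ : ∃ e : ℝ, e = C₃ * (1 + 1) / n := ⟨_, rfl⟩
  rw [← he] at hTC3
  rw [← hs, ← hk] at hz1
  rw [← hl] at hlam hT
  rw [← hs] at hlam hT
  have hnpos : 0 < (n : ℝ) := by rw [← hss]; positivity
  have hk0 : 0 ≤ k := by rw [hk]; positivity
  have hk1 : k ≤ 1 := by
    rw [hk, div_le_one hspos]
    linarith
  have he0 : 0 ≤ e := by rw [he]; positivity
  have hhs : Real.sqrt s ≤ s := by
    rw [Real.sqrt_le_left hs0]
    nlinarith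
  have hq : 2 / 3 ≤ qq r := by
    unfold qq
    have : 1 / (r : ℝ) ≤ 1 / 3 := by
      apply one_div_le_one_div_of_le <;> linarith
    linarith
  have hln : (n : ℝ) / 3 ≤ l := by
    have h1 := (abs_le.1 hlam).1
    have h2 : C₁ * Real.sqrt s ≤ C₁ * s := mul_le_mul_of_nonneg_left hhs hC₁
    have h3 : 3 * C₁ * s ≤ s * s := mul_le_mul_of_nonneg_right (by linarith) hs0
    have h4 : 2 / 3 * (n : ℝ) ≤ qq r * n := mul_le_mul_of_nonneg_right hq hnpos.le
    rw [hss] at h3
    linarith
  have hlpos : 0 < l := by linarith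
  have hC1s : C₁ * s ≤ l / 2 := by
    have h3 : 6 * C₁ * s ≤ s * s := mul_le_mul_of_nonneg_right (by linarith) hs0
    rw [hss] at h3
    linarith
  have hT1 : ∀ t, l / 2 ≤ tv g z n t ∧ tv g z n t ≤ 2 * l := by
    intro t
    have h1 := abs_le.1 (hT t)
    unfold tv
    constructor <;> linarith
  have hel : e ≤ l / 4 := by
    have h1 : e ≤ 2 * C₃ := by
      rw [he, div_le_iff₀ hnpos]
      have : 1 ≤ (n : ℝ) := by rw [← hss]; linarith
      nlinarith
    have h2 : 24 * C₃ ≤ n := by rw [← hss]; linarith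
    linarith
  have hup : ∀ v, g v ≠ none → z v ≤ 1 + k := fun v hv => by
    have := (abs_le.1 (hz1 v hv)).2
    linarith
  have hlow : ∀ v, g v ≠ none → 1 - k ≤ z v := fun v hv => by
    have := (abs_le.1 (hz1 v hv)).1
    linarith
  -- the numbers of core neighbours
  obtain ⟨w, hw, hwmax⟩ := Finset.exists_max_image (univ.filter fun x => g x = none) (cnb G g)
    ⟨w₀, by simp [hw₀]⟩
  have hgw : g w = none := (Finset.mem_filter.1 hw).2
  have hwmax' : ∀ x, g x = none → cnb G g x ≤ cnb G g w := fun x hx =>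
    hwmax x (by simp [hx])
  have hcnt1 := FNWx.cnt1 hCN G g w hNK.indep hgw
  rw [ha, hMx.1.size, ← ItemRST.cnb_eq] at hcnt1
  have hwb : cnb G g w + (lightSet G g {w}).ncard = b := by omega
  obtain ⟨N, hN⟩ : ∃ N : ℕ, N = ∑ x, if g x = none then cnb G g x ^ 2 else 0 := ⟨_, rfl⟩
  have hsum := ItemRST.sum_cnb_le hCN G g hNK.indep
  rw [← hb] at hsum
  have hNw : N ≤ cnb G g w * b := by
    rw [hN]
    calc (∑ x, if g x = none then cnb G g x ^ 2 else 0)
        ≤ ∑ x, cnb G g w * (if g x = none then cnb G g x else 0) := by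
          refine Finset.sum_le_sum fun x _ => ?_
          split_ifs with h
          · rw [pow_two]
            exact Nat.mul_le_mul_right _ (hwmax' x h)
          · exact Nat.zero_le _
      _ = cnb G g w * ∑ x, (if g x = none then cnb G g x else 0) := by rw [Finset.mul_sum]
      _ ≤ _ := Nat.mul_le_mul_left _ hsum
  have hNb : N ≤ b ^ 2 := by
    refine hNw.trans ?_
    rw [pow_two]
    exact Nat.mul_le_mul_right _ (by omega)
  -- the main inequality
  have key : ∀ (x y : V) (c d : Fin r), missSet G g = {s(x, y)} → g x = some c →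
      g y = some d → 2 * (tv g z n c * tv g z n d - tv g z n i * tv g z n j) / l
        + ((b : ℝ) ^ 2 - N) ≤ C₂ * (4 * (r : ℝ) + 1) ^ 3 / n + 8 * k + 5 * k * (b : ℝ) ^ 2 := by
    intro x y c d hm hx hy
    have hmain := h₂ V G H z g w₀ n (by omega) hNK hNKH hw₀ hHiso hz hHl
    rw [← hl] at hmain
    have hgx : g x ≠ none := by rw [hx]; simp
    have hgy : g y ≠ none := by rw [hy]; simp
    have hgp0 : g p ≠ none := by rw [hgp]; simp
    have hgp0' : g p' ≠ none := by rw [hgp']; simp
    have hmH : miss H (fun v => (n : ℝ) - cw z g (g v)) g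
        = 2 * (tv g z n i * tv g z n j) := by
      rw [miss_val H g hHm]
      simp only [hgp, hgp']
      rfl
    have hmG : miss G (fun v => (n : ℝ) - cw z g (g v)) g
        = 2 * (tv g z n c * tv g z n d) := by
      rw [miss_val G g hm]
      simp only [hx, hy]
      rfl
    rw [hmH] at hmain
    have hE : C₂ * ((missSet G g).ncard + (missSet H g).ncard + (outSet G g).ncard
          + (outSet H g).ncard + 1) ^ 3 / n ≤ C₂ * (4 * (r : ℝ) + 1) ^ 3 / n := by
      apply div_le_div_of_nonneg_right _ hnpos.le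
      apply mul_le_mul_of_nonneg_left _ hC₂
      rw [ha, hHm, Set.ncard_singleton, hHo, ← hb]
      apply pow_le_pow_left₀ (by positivity)
      have h1 : ((1 : ℕ) : ℝ) + ((1 : ℕ) : ℝ) + (b : ℝ) + b + 1 = ((2 * b + 3 : ℕ) : ℝ) := by
        push_cast
        ring
      have h2 : (4 * (r : ℝ) + 1) = ((4 * r + 1 : ℕ) : ℝ) := by push_cast; ring
      rw [h1, h2]
      exact_mod_cast (by omega : 2 * b + 3 ≤ 4 * r + 1)
    refine combine (l := l) (X := 2 * (tv g z n c * tv g z n d))
      (mH := 2 * (tv g z n i * tv g z n j)) hk0 hk1 (Nat.cast_nonneg b) (Nat.cast_nonneg N)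
      (by exact_mod_cast hNb) hmG (by ring) ?_ ?_ ?_ ?_ (hmain.trans hE)
    · rw [muv_sq H g hHm z]
      have h1 : (1 - k) ^ 2 ≤ z p ^ 2 := pow_le_pow_left₀ (by linarith) (hlow p hgp0) 2
      have h2 : (1 - k) ^ 2 ≤ z p' ^ 2 := pow_le_pow_left₀ (by linarith) (hlow p' hgp0') 2
      linarith
    · rw [muv_sq G g hm z]
      have h1 : z x ^ 2 ≤ (1 + k) ^ 2 := pow_le_pow_left₀ (hz.nonneg x) (hup x hgx) 2
      have h2 : z y ^ 2 ≤ (1 + k) ^ 2 := pow_le_pow_left₀ (hz.nonneg y) (hup y hgy) 2
      linarith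
    · have h1 := ItemRST.le_cov H g z hlow w₀
      rw [ItemRST.cnb_w hA0 (fun x _ => hHw x), hAc] at h1
      exact pow_le_pow_left₀ (mul_nonneg (by linarith) (Nat.cast_nonneg b)) h1 2
    · calc (∑ v, if g v = none then cov G g z v ^ 2 else 0)
          ≤ ∑ v, (1 + k) ^ 2 * (if g v = none then (cnb G g v : ℝ) ^ 2 else 0) := by
            refine Finset.sum_le_sum fun v _ => ?_
            split_ifs with h
            · have h4 := ItemRST.cov_le G g z hup v
              have h6 := ItemRST.cov_nonneg G g z hz.nonneg v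
              calc cov G g z v ^ 2 ≤ ((1 + k) * cnb G g v) ^ 2 := pow_le_pow_left₀ h6 h4 2
                _ = _ := by ring
            · simp
        _ = (1 + k) ^ 2 * ((∑ v, if g v = none then cnb G g v ^ 2 else 0 : ℕ) : ℝ) := by
            rw [← Finset.mul_sum]
            push_cast
            rfl
        _ = _ := by rw [hN]
  -- smallness of the error
  have hb2r : (b : ℝ) ≤ 2 * r := by exact_mod_cast (by omega : b ≤ 2 * r)
  have herr : C₂ * (4 * (r : ℝ) + 1) ^ 3 / n + 8 * k + 5 * k * (b : ℝ) ^ 2 + 8 * e < 1 / 4 := by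
    have h1 : (b : ℝ) ^ 2 ≤ 4 * (r : ℝ) ^ 2 := by
      calc (b : ℝ) ^ 2 ≤ (2 * r) ^ 2 := pow_le_pow_left₀ (Nat.cast_nonneg b) hb2r 2
        _ = _ := by ring
    have h2 : 5 * k * (b : ℝ) ^ 2 ≤ 5 * k * (4 * (r : ℝ) ^ 2) :=
      mul_le_mul_of_nonneg_left h1 (by linarith)
    have h3 : ∀ c : ℝ, 0 ≤ c → c / n ≤ c / s := fun c hc =>
      div_le_div_of_nonneg_left hc hspos (by rw [← hss]; exact hss1)
    have h4 : C₂ * (4 * (r : ℝ) + 1) ^ 3 / n ≤ C₂ * (4 * (r : ℝ) + 1) ^ 3 / s :=
      h3 _ (by positivity)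
    have h5 : 8 * e ≤ 16 * C₃ / s := by
      calc 8 * e = 16 * C₃ / n := by rw [he]; ring
        _ ≤ _ := h3 _ (by positivity)
    have h6 : C₂ * (4 * (r : ℝ) + 1) ^ 3 / s + 8 * k + 5 * k * (4 * (r : ℝ) ^ 2) + 16 * C₃ / s
        = M / s := by
      rw [hk, hM]
      ring
    have h7 : M / s < 1 / 4 := by
      rw [div_lt_iff₀ hspos]
      linarith
    linarith
  have hNbr : (N : ℝ) ≤ (b : ℝ) ^ 2 := by exact_mod_cast hNb
  have low : ∀ c d : Fin r, c ≠ d → -(8 * e)
      + (((siz g i : ℝ) - siz g c) + ((siz g j : ℝ) - siz g d)) / 4 ≤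
      2 * (tv g z n c * tv g z n d - tv g z n i * tv g z n j) / l := by
    intro c d hcd
    by_cases hd : d = i
    · have hc : c ≠ i := fun h => hcd (h.trans hd.symm)
      have h1 := hTC3 d i (hi' d)
      have h2 := hTC3 c j (hj' c hc)
      have h3 : (siz g d : ℝ) ≤ siz g i := by exact_mod_cast hi' d
      have h4 : (siz g c : ℝ) ≤ siz g j := by exact_mod_cast hj' c hc
      have h5 := delta_low (Ti := tv g z n i) (Tj := tv g z n j) (Ts := tv g z n d)
        (Tt := tv g z n c) (g1 := (siz g i : ℝ) - siz g d) (g2 := (siz g j : ℝ) - siz g c)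
        hlpos he0 hel (hT1 i).1 (hT1 i).2 (hT1 j).1 (hT1 j).2 (by linarith) (by linarith)
        (by linarith) (by linarith)
      rw [mul_comm (tv g z n c)]
      linarith
    · have h1 := hTC3 c i (hi' c)
      have h2 := hTC3 d j (hj' d hd)
      have h3 : (siz g c : ℝ) ≤ siz g i := by exact_mod_cast hi' c
      have h4 : (siz g d : ℝ) ≤ siz g j := by exact_mod_cast hj' d hd
      exact delta_low hlpos he0 hel (hT1 i).1 (hT1 i).2 (hT1 j).1 (hT1 j).2 (by linarith)
        (by linarith) (by linarith) (by linarith)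
  have hsumle : ∀ c d : Fin r, c ≠ d → siz g c + siz g d ≤ siz g i + siz g j := by
    intro c d hcd
    by_cases hd : d = i
    · have hc : c ≠ i := fun h => hcd (h.trans hd.symm)
      have := hj' c hc
      have := hi' d
      omega
    · have := hj' d hd
      have := hi' c
      omega
  -- only one light vertex
  have hNge : b ^ 2 ≤ N := by
    obtain ⟨e₀, he₀⟩ := Set.ncard_eq_one.1 ha
    have hmem : e₀ ∈ missSet G g := by rw [he₀]; exact Set.mem_singleton e₀
    obtain ⟨x, y, hxy, hx, hy, hgxy, -⟩ := hmem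
    obtain ⟨c, hc⟩ := Option.ne_none_iff_exists'.1 hx
    obtain ⟨d, hd⟩ := Option.ne_none_iff_exists'.1 hy
    have hcd : c ≠ d := by
      intro h
      rw [hc, hd, h] at hgxy
      exact hgxy rfl
    have h1 := key x y c d (by rw [he₀, hxy]) hc hd
    have h2 := low c d hcd
    have h3 : ((siz g c : ℝ)) + siz g d ≤ siz g i + siz g j := by exact_mod_cast hsumle c d hcd
    by_contra hcon
    push Not at hcon
    have h4 : (N : ℝ) + 1 ≤ (b : ℝ) ^ 2 := by exact_mod_cast hcon
    linarith
  have hbpos : 0 < b := by omega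
  have hbw : b ≤ cnb G g w := by
    have h1 : b * b ≤ cnb G g w * b := by
      rw [← pow_two]
      exact hNge.trans hNw
    exact Nat.le_of_mul_le_mul_right h1 hbpos
  obtain ⟨q, q', c, d, hTh⟩ := hCL r V G g w hr hNK.indep hgw ha (by omega)
    (fun t => by have := hsiz t; omega) hMx.1.free hMx.1.notPartite hMx.1.noIso
  have hm : missSet G g = {s(q, q')} := missSet_eq hTh.ty.ij hTh.ty.hp hTh.ty.hp' hTh.ty.core
  have h1 := key q q' c d hm hTh.ty.hp hTh.ty.hp'
  have h2 := low c d hTh.ty.ij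
  have hsum2 : siz g i + siz g j ≤ siz g c + siz g d := by
    by_contra hcon
    push Not at hcon
    have h4 : (siz g c : ℝ) + siz g d + 1 ≤ siz g i + siz g j := by exact_mod_cast hcon
    linarith
  have hfin : ∑ t, nbn G g w t = (outSet G g).ncard := by
    rw [← ItemRST.cnb_eq, ← hb]
    omega
  rcases le_total (siz g d) (siz g c) with hle | hle
  · obtain ⟨h3, h4⟩ := fin_sizes hi' hj' hTh.ty.ij hsum2 hle
    exact ⟨w, q, q', c, d, hTh, h3, h4, hfin⟩
  · obtain ⟨h3, h4⟩ := fin_sizes hi' hj' hTh.ty.ij.symm (by rw [add_comm (siz g d)]; exact hsum2) hle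
    exact ⟨w, q', q, d, c, ((hRE r V G g 1).2.2.1 w q q' c d hTh).2, h3, h4, hfin⟩

end MP0c3a8f

end

section

/-!
# MP_0c3a8f_co, phase PB9: item RIK
-/

open Finset

namespace MP0c3a8f

namespace ItemRIK

/-- the numerical contradiction -/
theorem numer' {L s Cw Cu Cw' Cu' zw zu δ C' h : ℝ} (hL : 0 < L) (hs : 0 < s)
    (hCw : 1 / 2 ≤ Cw) (hCu : 0 ≤ Cu) (hδ : δ = 1 / (8 * L)) (hCw' : Cw + δ ≤ Cw')
    (hCu' : Cu ≤ Cu') (hw : L * zw = Cw + zu) (hu : L * zu = Cu + zw)
    (hzw0 : 0 ≤ zw) (hzu0 : 0 ≤ zu) (hzw : zw ≤ 1 / 16) (hzu : zu ≤ C' * h / s ^ 2)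
    (hh : h ^ 2 = s) (hh0 : 0 ≤ h) (hC' : 0 ≤ C') (hs1 : 32 * C' ^ 2 ≤ s)
    (hLu : L ≤ 2 * s ^ 2)
    (hmain : Cw' ^ 2 + Cu' ^ 2 + 2 * (Cw' * Cu') / L ≤ Cw ^ 2 + Cw * zu + (Cu ^ 2 + Cu * zw)) :
    False := by
  have hδ0 : 0 < δ := by rw [hδ]; positivity
  have hCw0 : 0 < Cw := by linarith
  have h1 : Cw ^ 2 + 2 * (Cw * δ) ≤ Cw' ^ 2 := by nlinarith
  have h2 : Cu ^ 2 ≤ Cu' ^ 2 := by nlinarith
  have h3 : Cw * Cu ≤ Cw' * Cu' := mul_le_mul (by linarith) hCu' hCu (by linarith)
  have h4 : 2 * (Cw * Cu) / L ≤ 2 * (Cw' * Cu') / L := by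
    apply div_le_div_of_nonneg_right _ hL.le
    linarith
  have h5 : 2 * (Cw * δ) + 2 * (Cw * Cu) / L ≤ Cw * zu + Cu * zw := by linarith
  have h6 : L * (2 * (Cw * Cu) / L) = 2 * (Cw * Cu) := by field_simp
  have h7 : L * (2 * (Cw * δ)) + 2 * (Cw * Cu) ≤ Cw * (Cu + zw) + Cu * (Cw + zu) := by
    have := mul_le_mul_of_nonneg_left h5 hL.le
    rw [mul_add, h6] at this
    calc _ ≤ L * (Cw * zu + Cu * zw) := this
      _ = Cw * (L * zu) + Cu * (L * zw) := by ring
      _ = _ := by rw [hw, hu]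
  have h8 : L * (2 * (Cw * δ)) ≤ Cw * zw + Cu * zu := by linarith
  have hs2' : (0 : ℝ) < s ^ 2 := by positivity
  have h9 : Cu ≤ 2 * C' * h := by
    have : Cu ≤ L * zu := by linarith
    calc Cu ≤ L * zu := this
      _ ≤ (2 * s ^ 2) * (C' * h / s ^ 2) := mul_le_mul hLu hzu hzu0 (by positivity)
      _ = 2 * C' * h := by field_simp
  have h10 : Cu * zu ≤ 1 / 16 := by
    calc Cu * zu ≤ (2 * C' * h) * (C' * h / s ^ 2) := mul_le_mul h9 hzu hzu0 (by positivity)
      _ = 2 * C' ^ 2 * h ^ 2 / s ^ 2 := by ring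
      _ = 2 * C' ^ 2 / s := by rw [hh]; field_simp
      _ ≤ 1 / 16 := by
          rw [div_le_iff₀ hs]
          linarith
  have h11 : Cw * zw ≤ Cw * (1 / 16) := mul_le_mul_of_nonneg_left hzw hCw0.le
  have h12 : L * (2 * (Cw * δ)) = Cw / 4 := by
    rw [hδ]
    field_simp
    norm_num
  linarith

end ItemRIK

open ItemRII ItemRIK in
theorem prfRIK : P_statement → CNTU_statement → FLU_statement → TCL_statement →
    SWR_statement → RMB_statement → MEM2_statement → RIK_statement := by
  intro _ _ hFLU hTCL hSWR hRMB hMEM r C hr hC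
  obtain ⟨C₁, n₁, hC₁, hF⟩ := hFLU r C hr hC
  obtain ⟨C₂, n₂, hC₂, hT⟩ := hTCL r C hr hC
  obtain ⟨n₃, hS⟩ := hSWR r C hr hC
  set S : ℝ := 4 + 2 * r * (C + 1) + 16 * C₁ + 32 * C₁ ^ 2 + 4 * C₂ with hSdef
  refine ⟨n₁ + n₂ + n₃ + ⌈S ^ 2⌉₊, ?_⟩
  intro V _ G g w u v k n m hn hM hNK hTh
  by_contra hcon
  push Not at hcon
  obtain ⟨i, hikl⟩ := hcon
  have hki : k ≠ i := by
    rintro rfl
    exact lt_irrefl _ hikl
  classical
  have hr3 : (3 : ℝ) ≤ r := by exact_mod_cast hr
  have hp1 : 0 ≤ 2 * (r : ℝ) * (C + 1) := by positivity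
  have hp4 : 0 ≤ 32 * C₁ ^ 2 := by positivity
  have hS1 : 1 ≤ S := by rw [hSdef]; linarith
  have hnS : S ^ 2 ≤ (n : ℝ) := by
    have h1 : S ^ 2 ≤ (⌈S ^ 2⌉₊ : ℝ) := Nat.le_ceil _
    have h2 : ((⌈S ^ 2⌉₊ : ℕ) : ℝ) ≤ n := by exact_mod_cast (by omega : ⌈S ^ 2⌉₊ ≤ n)
    linarith
  set s : ℝ := Real.sqrt n with hs
  set h : ℝ := Real.sqrt s with hh
  have hn0 : (0 : ℝ) ≤ n := Nat.cast_nonneg n
  have hss : s ^ 2 = n := Real.sq_sqrt hn0
  have hsS : S ≤ s := by
    rw [hs]
    exact Real.le_sqrt_of_sq_le hnS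
  have hs0 : 0 < s := by linarith
  have hh2 : h ^ 2 = s := Real.sq_sqrt hs0.le
  have hh0 : 0 ≤ h := Real.sqrt_nonneg _
  have hs1' : 1 ≤ s := by linarith
  have hhs : h ≤ s := by
    rw [hh, Real.sqrt_le_left hs0.le]
    exact le_self_pow₀ hs1' (by norm_num)
  have hnpos : (0 : ℝ) < n := by rw [← hss]; positivity
  have hn1 : (1 : ℝ) ≤ n := by rw [← hss]; exact one_le_pow₀ hs1'
  obtain ⟨⟨z, hP⟩, hFz⟩ := hF V G g n (by omega) hNK
  obtain ⟨hz1, hz2, hz3, -⟩ := hFz z hP
  obtain ⟨hTa, -, hTc⟩ := hT V G z g n (by omega) hNK hP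
  have hw : g w = none := (hTh.ty.out w).2 (Or.inl rfl)
  have hu : g u = none := (hTh.ty.out u).2 (Or.inr rfl)
  have hwu : w ≠ u := hTh.ty.ne
  have hik : i ≠ k := fun h => hki h.symm
  have hmiss := miss_zero hTh.ty
  -- the spectral radius
  have hq := hz3
  have hqq : 2 / 3 ≤ qq r ∧ qq r ≤ 1 := by
    unfold qq
    constructor
    · have : 1 / (r : ℝ) ≤ 1 / 3 := one_div_le_one_div_of_le (by norm_num) hr3
      linarith
    · have : 0 ≤ 1 / (r : ℝ) := by positivity
      linarith
  have hCs : C₁ * h ≤ C₁ * s := mul_le_mul_of_nonneg_left hhs hC₁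
  have hs3 : 3 * C₁ ≤ s := by rw [hSdef] at hsS; linarith
  have hLl : s ^ 2 / 3 ≤ lam G := by
    have := (abs_le.1 hq).1
    have h1 : C₁ * s ≤ s ^ 2 / 3 := by
      have := mul_le_mul_of_nonneg_right hs3 hs0.le
      rw [pow_two]; linarith
    have h2 : 2 / 3 * s ^ 2 ≤ qq r * n := by
      rw [← hss]; exact mul_le_mul_of_nonneg_right hqq.1 (by positivity)
    linarith
  have hLu : lam G ≤ 2 * s ^ 2 := by
    have := (abs_le.1 hq).2
    have h1 : C₁ * s ≤ s ^ 2 := by
      rw [pow_two]
      exact mul_le_mul_of_nonneg_right (by linarith) hs0.le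
    have h2 : qq r * n ≤ s ^ 2 := by
      rw [hss]
      calc qq r * n ≤ 1 * n := mul_le_mul_of_nonneg_right hqq.2 hn0
        _ = n := one_mul _
    linarith
  have hL0 : 0 < lam G := by
    have : 0 < s ^ 2 / 3 := by positivity
    linarith
  -- room
  have hdev : dev (siz g) ≤ C * n := hNK.dev
  have hrm : ∀ t, (C + 1) * s ≤ siz g t := fun t =>
    room hr hC hss (by linarith) (by rw [hSdef] at hsS; linarith) hNK.tot hdev t
  have hd : (nbn G g w i : ℝ) ≤ C * s := by
    have h1 : (nbn G g w i : ℝ) ≤ ((outSet G g).ncard : ℝ) := by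
      exact_mod_cast nbn_le_out G g w i hw
    have h2 := hNK.few
    have h3 : (0 : ℝ) ≤ ((missSet G g).ncard : ℝ) := Nat.cast_nonneg _
    have h4 : C * h ≤ C * s := mul_le_mul_of_nonneg_left hhs hC
    linarith
  have hCs0 : 0 ≤ C * s := mul_nonneg hC hs0.le
  have hroom : nbn G g w i + 1 ≤ siz g k := by
    have h1 := hrm k
    rw [add_mul, one_mul] at h1
    have : ((nbn G g w i + 1 : ℕ) : ℝ) ≤ siz g k := by push_cast; linarith
    exact_mod_cast this
  have hsz : ∀ t, 1 ≤ siz g t := fun t => by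
    have h1 := hrm t
    rw [add_mul, one_mul] at h1
    have : ((1 : ℕ) : ℝ) ≤ siz g t := by push_cast; linarith
    exact_mod_cast this
  obtain ⟨H, A, v', hA, hAc, hv', hI, hmH, hHwu, hHl, hlam, hHw, hHu⟩ :=
    comb hRMB hMEM hr hM hTh hki hsz hroom
  have hmain := hS V G H z g w u n (by omega) hNK hmiss hI hmH hw hu hwu hHwu hHl hP hlam
  rw [sum_light (fun x => cov G g z x ^ 2 + cov G g z x * omv G g z x) hTh.ty.out hwu] at hmain
  have hGwu : G.Adj w u := hTh.ty.uw.symm
  have how : omv G g z w = z u := omv_w z hTh.ty.out hGwu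
  have hou : omv G g z u = z w :=
    omv_w z (fun y => by rw [hTh.ty.out y]; exact or_comm) hTh.ty.uw
  rw [how, hou] at hmain
  -- weights of the classes
  have hzl : ∀ x, g x = none → z x ≤ 1 / 16 := by
    intro x hx
    have h1 := hz2 x hx
    have h2 : C₁ * h / n ≤ 1 / 16 := by
      rw [div_le_iff₀ hnpos, ← hss, pow_two]
      have h3 : 16 * C₁ ≤ s := by rw [hSdef] at hsS; linarith
      have h4 := mul_le_mul_of_nonneg_right h3 hs0.le
      linarith
    linarith
  have hmu : ∀ x, muv G g z x = 0 := by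
    intro x
    unfold muv
    refine Finset.sum_eq_zero fun y _ => if_neg ?_
    rintro ⟨h1, h2, h3, h4⟩
    exact h4 ((hTh.ty.core x y h1 h2).2 fun h => h3 h.symm)
  have hom0 : ∀ x, 0 ≤ omv G g z x := fun x => by
    unfold omv
    exact Finset.sum_nonneg fun y _ => by split_ifs; exacts [hP.nonneg y, le_rfl]
  have hom1 : ∀ x, omv G g z x ≤ 1 / 8 := fun x => by
    have h1 : omv G g z x ≤ ∑ y, (if g y = none then z y else 0) := by
      unfold omv
      refine Finset.sum_le_sum fun y _ => ?_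
      by_cases hy : g y = none
      · by_cases hy2 : G.Adj x y
        · simp [hy, hy2]
        · simp [hy, hy2, hP.nonneg y]
      · simp [hy]
    rw [sum_light z hTh.ty.out hwu] at h1
    linarith [hzl w hw, hzl u hu]
  set θ : ℝ := (tv g z n i + 1 / 8) / lam G with hθ
  set δ : ℝ := 1 / (8 * lam G) with hδ
  have hyi : ∀ x, g x = some i → z x ≤ θ := by
    intro x hx
    rw [hθ, le_div_iff₀ hL0, mul_comm, hTa x i hx, hmu x]
    linarith [hom1 x]
  have hTd : 1 / 4 ≤ tv g z n k - tv g z n i := by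
    have h1 := hTc k i hikl.le
    rw [hmiss] at h1
    have h2 : C₂ * (((0 : ℕ) : ℝ) + 1) / n ≤ 1 / 4 := by
      rw [Nat.cast_zero, zero_add, mul_one, div_le_iff₀ hnpos, ← hss, pow_two]
      have h3 : 4 * C₂ ≤ s := by rw [hSdef] at hsS; linarith
      have h4 : s * 1 ≤ s * s := mul_le_mul_of_nonneg_left hs1' hs0.le
      linarith
    have h5 : (siz g k : ℝ) + 1 ≤ siz g i := by exact_mod_cast hikl
    linarith
  have hyk : ∀ x, g x = some k → θ + δ ≤ z x := by
    intro x hx
    have h1 : lam G * z x = tv g z n k + omv G g z x := by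
      rw [hTa x k hx, hmu x]; ring
    have h2 : lam G * (θ + δ) ≤ lam G * z x := by
      rw [mul_add, h1, hθ, mul_div_cancel₀ _ hL0.ne']
      have h3 : lam G * δ = 1 / 8 := by rw [hδ]; field_simp
      linarith [hom0 x]
    exact le_of_mul_le_mul_left h2 hL0
  have hcw := cov_w z hA (fun x hx => nbn_zero hTh.ni x hx) hHw
  have hGa : G.Adj u (v i) :=
    (hTh.ty.un (v i) (by rw [hTh.ty.hv i hik]; simp)).2 ⟨i, hik, rfl⟩
  have hGb : ¬ G.Adj u v' := by
    intro hadj
    obtain ⟨t, ht, h1⟩ := (hTh.ty.un v' (by rw [hv']; simp)).1 hadj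
    have h2 := hTh.ty.hv t ht
    rw [← h1, hv'] at h2
    exact ht (Option.some_injective _ h2).symm
  have hne : v i ≠ v' := by
    intro he
    rw [he] at hGa
    exact hGb hGa
  have hcu := cov_u z (by rw [hTh.ty.hv i hik]; simp) (by rw [hv']; simp) hne hGa hGb hHu
  have hδ0 : 0 < δ := by rw [hδ]; positivity
  have hCu' : cov G g z u ≤ cov H g z u := by
    rw [hcu]
    have h1 := hyk v' hv'
    have h2 := hyi (v i) (hTh.ty.hv i hik)
    linarith
  have hd1 : 1 ≤ nbn G g w i := hTh.pos i hik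
  have hd1' : (1 : ℝ) ≤ (nbn G g w i : ℝ) := by exact_mod_cast hd1
  have hCw' : cov G g z w + δ ≤ cov H g z w := by
    rw [hcw]
    have h1 : (nbn G g w i : ℝ) * (θ + δ) ≤ ∑ x ∈ A, z x := by
      rw [← hAc, ← nsmul_eq_mul]
      exact Finset.card_nsmul_le_sum _ _ _ fun x hx => hyk x (hA x hx)
    have h2 : ∑ x ∈ univ.filter (fun x => g x = some i ∧ G.Adj w x), z x
        ≤ (nbn G g w i : ℝ) * θ := by
      rw [nbn_card G g w i, ← nsmul_eq_mul]
      exact Finset.sum_le_card_nsmul _ _ _ fun x hx => hyi x (Finset.mem_filter.1 hx).2.1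
    have h3 : δ ≤ (nbn G g w i : ℝ) * δ := le_mul_of_one_le_left hδ0.le hd1'
    linarith
  have hcov0 : ∀ x, 0 ≤ cov G g z x := fun x => by
    unfold cov
    exact Finset.sum_nonneg fun y _ => by split_ifs; exacts [hP.nonneg y, le_rfl]
  have hCw : 1 / 2 ≤ cov G g z w := by
    obtain ⟨y, hy1, hy2⟩ := nbn_pos hd1
    have hy3 : g y ≠ none := by rw [hy1]; simp
    have h1 : (1 : ℝ) / 2 ≤ z y := by
      have h2 := (abs_le.1 (hz1 y hy3)).1
      have h3 : C₁ / s ≤ 1 / 2 := by
        rw [div_le_iff₀ hs0]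
        linarith
      linarith
    have h4 : z y ≤ cov G g z w := by
      unfold cov
      have h5 := Finset.single_le_sum
        (f := fun x => if g x ≠ none ∧ G.Adj w x then z x else 0)
        (fun x _ => by split_ifs; exacts [hP.nonneg x, le_rfl]) (Finset.mem_univ y)
      simpa [hy3, hy2] using h5
    linarith
  have hew : lam G * z w = cov G g z w + z u := by rw [eig_split hP w, how]
  have heu : lam G * z u = cov G g z u + z w := by rw [eig_split hP u, hou]
  exact numer' hL0 hs0 hCw (hcov0 u) hδ hCw' hCu' hew heu (hP.nonneg w) (hP.nonneg u)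
    (hzl w hw) (by rw [hss]; exact hz2 u hu) hh2 hh0 hC₁
    (by rw [hSdef] at hsS; linarith) hLu hmain

end MP0c3a8f

end

section

/-!
# MP_0c3a8f_co: item RSS (type `R`, small `D`)
-/

open Finset

namespace MP0c3a8f

namespace ItemRSS

open ItemRST (cnb_card cnb_eq cov_nonneg omv_nonneg cov_le le_cov choice cnb_u cnb_w second
  sum_cnb_le)

variable {V : Type} {r : ℕ}

theorem sum_split [Fintype V] (g : V → Option (Fin r)) {w : V} (hw : g w = none)
    {R : Type} [AddCommMonoid R] (f : V → R) [DecidablePred fun x => g x = none]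
    [DecidableEq V] :
    (∑ x, if g x = none then f x else 0) = f w + ∑ x, if g x = none ∧ x ≠ w then f x else 0 := by
  have h1 : ∑ x, (if x = w then f x else 0) = f w := by
    simp
  rw [← h1, ← sum_add_distrib]
  refine sum_congr rfl fun x _ => ?_
  by_cases hx : x = w
  · subst hx
    simp [hw]
  · by_cases hg : g x = none
    · simp [hx, hg]
    · simp [hx, hg]

theorem sum_cnb_w (hC : CNTU_statement) [Fintype V] (G : SimpleGraph V)
    (g : V → Option (Fin r)) (hI : Indep G g) {w : V} (hw : g w = none)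
    [DecidablePred fun x => g x = none] [DecidableEq V] :
    (∑ x, if g x = none ∧ x ≠ w then cnb G g x else 0) ≤ (lightSet G g {w}).ncard := by
  obtain ⟨e, _, h⟩ := hC r V G g (univ.filter fun v => g v = none) hI (by simp)
  have h0 := FNWx.cnt1 hC G g w hI hw
  have h1 : lightSet G g (univ.filter fun v => g v = none) = ∅ := by
    ext e
    simp only [lightSet, Set.mem_ofPred_eq, Set.mem_empty_iff_false, iff_false]
    rintro ⟨_, v, _, h2, h3⟩
    exact h3 (by simp [h2])
  have h2 : ∑ v ∈ univ.filter (fun v => g v = none), ∑ t, nbn G g v t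
      = ∑ x, if g x = none then cnb G g x else 0 := by
    rw [Finset.sum_filter]
    refine Finset.sum_congr rfl fun x _ => ?_
    rw [cnb_eq]
  rw [h1, h2, Set.ncard_empty, sum_split g hw] at h
  rw [← cnb_eq] at h0
  omega

theorem omv_w [Fintype V] (G : SimpleGraph V) (g : V → Option (Fin r)) (z : V → ℝ) {κ : ℝ}
    (hκ : 0 ≤ κ) {w : V} (hz : ∀ v, g v = none → v ≠ w → z v ≤ κ) :
    omv G g z w ≤ (lightSet G g {w}).ncard * κ := by
  classical
  unfold omv
  have h1 : (univ.filter fun u => g u = none ∧ G.Adj w u).card ≤ (lightSet G g {w}).ncard := by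
    rw [Set.ncard_eq_toFinset_card _ (Set.toFinite _)]
    refine Finset.card_le_card_of_injOn (fun u => s(w, u)) ?_ ?_
    · intro u hu
      have hu' := (Finset.mem_filter.1 (Finset.mem_coe.1 hu)).2
      refine Finset.mem_coe.2 ((Set.Finite.mem_toFinset _).2 ⟨hu'.2, u, Sym2.mem_mk_right _ _,
        hu'.1, ?_⟩)
      rw [Finset.mem_singleton]
      exact hu'.2.ne'
    · intro u _ u' _ h
      exact (Sym2.congr_right).1 h
  calc (∑ u, if g u = none ∧ G.Adj w u then z u else 0)
      ≤ ∑ u, if g u = none ∧ G.Adj w u then κ else 0 := by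
        refine Finset.sum_le_sum fun u _ => ?_
        split_ifs with h
        · exact hz u h.1 h.2.ne'
        · exact le_rfl
    _ = ((univ.filter fun u => g u = none ∧ G.Adj w u).card : ℝ) * κ := by
        rw [← Finset.sum_filter, Finset.sum_const, nsmul_eq_mul]
    _ ≤ _ := mul_le_mul_of_nonneg_right (by exact_mod_cast h1) hκ

theorem omv_x [Fintype V] (G : SimpleGraph V) (g : V → Option (Fin r)) (z : V → ℝ) {κ : ℝ}
    (hκ : 0 ≤ κ) {w : V} (hz0 : 0 ≤ z w) (hz : ∀ v, g v = none → v ≠ w → z v ≤ κ) (x : V) :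
    omv G g z x ≤ z w + (lightSet G g {w}).ncard * κ := by
  classical
  unfold omv
  have h1 : (univ.filter fun u => g u = none ∧ G.Adj x u ∧ u ≠ w).card
      ≤ (lightSet G g {w}).ncard := by
    rw [Set.ncard_eq_toFinset_card _ (Set.toFinite _)]
    refine Finset.card_le_card_of_injOn (fun u => s(x, u)) ?_ ?_
    · intro u hu
      have hu' := (Finset.mem_filter.1 (Finset.mem_coe.1 hu)).2
      refine Finset.mem_coe.2 ((Set.Finite.mem_toFinset _).2 ⟨hu'.2.1, u, Sym2.mem_mk_right _ _,
        hu'.1, ?_⟩)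
      rw [Finset.mem_singleton]
      exact hu'.2.2
    · intro u _ u' _ h
      exact (Sym2.congr_right).1 h
  have h2 : ∑ u, (if u = w then z w else 0) = z w := by simp
  calc (∑ u, if g u = none ∧ G.Adj x u then z u else 0)
      ≤ ∑ u, ((if u = w then z w else 0) +
          if g u = none ∧ G.Adj x u ∧ u ≠ w then κ else 0) := by
        refine Finset.sum_le_sum fun u _ => ?_
        by_cases hu : u = w
        · subst hu
          simp only [if_true]
          split_ifs with h h' h'
          · linarith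
          · linarith
          · linarith
          · linarith
        · rw [if_neg hu, zero_add]
          split_ifs with h h' h'
          · exact hz u h.1 hu
          · exact absurd ⟨h.1, h.2, hu⟩ h'
          · exact hκ
          · exact le_rfl
    _ = z w + ((univ.filter fun u => g u = none ∧ G.Adj x u ∧ u ≠ w).card : ℝ) * κ := by
        rw [sum_add_distrib, h2, ← Finset.sum_filter, Finset.sum_const, nsmul_eq_mul]
    _ ≤ _ := by
        have := mul_le_mul_of_nonneg_right
          (show ((univ.filter fun u => g u = none ∧ G.Adj x u ∧ u ≠ w).card : ℝ) ≤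
            (lightSet G g {w}).ncard by exact_mod_cast h1) hκ
        linarith

open Classical in
theorem rhs_le (hCN : CNTU_statement) [Fintype V] (G : SimpleGraph V) (g : V → Option (Fin r))
    (hI : Indep G g) {w : V} (hw : g w = none) (z : V → ℝ) (hz : ∀ v, 0 ≤ z v) {k κ L : ℝ}
    (hk : 0 ≤ k) (hκ : 0 ≤ κ) (hL : ((lightSet G g {w}).ncard : ℝ) ≤ L)
    (h1 : ∀ v, g v ≠ none → z v ≤ 1 + k) (h2 : ∀ v, g v = none → v ≠ w → z v ≤ κ) :
    (∑ x, if g x = none then cov G g z x ^ 2 + cov G g z x * omv G g z x else 0)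
      ≤ (1 + k) ^ 2 * ((∑ x, if g x = none then cnb G g x ^ 2 else 0 : ℕ) : ℝ)
        + ((1 + k) * (outSet G g).ncard * (L * κ) + (1 + k) * L * (z w + L * κ)) := by
  have hL0 : 0 ≤ L := le_trans (Nat.cast_nonneg _) hL
  have hb : (0 : ℝ) ≤ (outSet G g).ncard := Nat.cast_nonneg _
  have h3 : ((∑ x, if g x = none then cnb G g x else 0 : ℕ) : ℝ) ≤ (outSet G g).ncard := by
    exact_mod_cast sum_cnb_le hCN G g hI
  have h3' : (cnb G g w : ℝ) ≤ (outSet G g).ncard := by
    rw [sum_split g hw] at h3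
    push_cast at h3
    have : (0 : ℝ) ≤ ∑ x, if g x = none ∧ x ≠ w then (cnb G g x : ℝ) else 0 :=
      sum_nonneg fun x _ => by split_ifs <;> positivity
    linarith
  have h4 : ((∑ x, if g x = none ∧ x ≠ w then cnb G g x else 0 : ℕ) : ℝ) ≤ L := by
    refine le_trans ?_ hL
    exact_mod_cast sum_cnb_w hCN G g hI hw
  push_cast at h4
  have h5 : (∑ x, if g x = none then cov G g z x ^ 2 + cov G g z x * omv G g z x else 0) =
      (∑ x, if g x = none then cov G g z x ^ 2 else 0) +
        ∑ x, if g x = none then cov G g z x * omv G g z x else 0 := by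
    rw [← sum_add_distrib]
    refine sum_congr rfl fun x _ => ?_
    split_ifs <;> simp
  have h6 : (∑ x, if g x = none then cov G g z x ^ 2 else 0) ≤
      (1 + k) ^ 2 * ((∑ x, if g x = none then cnb G g x ^ 2 else 0 : ℕ) : ℝ) := by
    push_cast
    rw [mul_sum]
    refine sum_le_sum fun x _ => ?_
    split_ifs with h
    · rw [← mul_pow]
      exact pow_le_pow_left₀ (cov_nonneg G g z hz x) (cov_le G g z h1 x) 2
    · simp
  have h7 : (∑ x, if g x = none then cov G g z x * omv G g z x else 0) ≤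
      (1 + k) * (outSet G g).ncard * (L * κ) + (1 + k) * L * (z w + L * κ) := by
    rw [sum_split g hw]
    have h8 : cov G g z w * omv G g z w ≤ (1 + k) * (outSet G g).ncard * (L * κ) := by
      refine mul_le_mul ((cov_le G g z h1 w).trans ?_) ((omv_w G g z hκ h2).trans ?_)
        (omv_nonneg G g z hz w) (by positivity)
      · exact mul_le_mul_of_nonneg_left h3' (by linarith)
      · exact mul_le_mul_of_nonneg_right hL hκ
    have h9 : (∑ x, if g x = none ∧ x ≠ w then cov G g z x * omv G g z x else 0) ≤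
        ∑ x, (1 + k) * (z w + L * κ) * (if g x = none ∧ x ≠ w then (cnb G g x : ℝ) else 0) := by
      refine sum_le_sum fun x _ => ?_
      split_ifs with h
      · have h10 := cov_le G g z h1 x
        have h11 : omv G g z x ≤ z w + L * κ := by
          refine (omv_x G g z hκ (hz w) h2 x).trans ?_
          have := mul_le_mul_of_nonneg_right hL hκ
          linarith
        calc cov G g z x * omv G g z x ≤ ((1 + k) * cnb G g x) * (z w + L * κ) :=
              mul_le_mul h10 h11 (omv_nonneg G g z hz x) (by positivity)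
          _ = _ := by ring
      · simp
    rw [← mul_sum] at h9
    have h10 : 0 ≤ (1 + k) * (z w + L * κ) := by
      have := hz w
      positivity
    have h11 := mul_le_mul_of_nonneg_left h4 h10
    have h12 : (1 + k) * L * (z w + L * κ) = (1 + k) * (z w + L * κ) * L := by ring
    linarith
  rw [h5]
  linarith

theorem fin {k b q E X Y R : ℝ} (hk0 : 0 ≤ k) (hk1 : k ≤ 1)
    (hbq : q ≤ b) (hq : 1 ≤ q) (hE0 : 0 ≤ E)
    (hX : (1 - k) * (b - q) ≤ X) (hY : (1 - k) * (q - 1) ≤ Y)
    (hm : X ^ 2 + Y ^ 2 ≤ (1 + k) ^ 2 * E + R)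
    (hE : E ≤ (b - q) ^ 2 + (q - 1) ^ 2) :
    (b - q) ^ 2 + (q - 1) ^ 2 - E ≤ 5 * k * b ^ 2 + R := by
  have hb : 1 ≤ b := by linarith
  have h1 : ((1 - k) * (b - q)) ^ 2 ≤ X ^ 2 :=
    pow_le_pow_left₀ (mul_nonneg (by linarith) (by linarith)) hX 2
  have h2 : ((1 - k) * (q - 1)) ^ 2 ≤ Y ^ 2 :=
    pow_le_pow_left₀ (mul_nonneg (by linarith) (by linarith)) hY 2
  obtain ⟨τ, hτ⟩ : ∃ τ : ℝ, τ = (b - q) ^ 2 + (q - 1) ^ 2 := ⟨_, rfl⟩
  rw [← hτ] at hE ⊢
  have h3 : (1 - k) ^ 2 * τ ≤ X ^ 2 + Y ^ 2 := by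
    rw [hτ]
    calc (1 - k) ^ 2 * ((b - q) ^ 2 + (q - 1) ^ 2)
        = ((1 - k) * (b - q)) ^ 2 + ((1 - k) * (q - 1)) ^ 2 := by ring
      _ ≤ _ := add_le_add h1 h2
  have hτ0 : 0 ≤ τ := by rw [hτ]; positivity
  have hτb : τ ≤ b ^ 2 := by
    rw [hτ]
    have h4 : 0 ≤ (b - q) * (q - 1) := mul_nonneg (by linarith) (by linarith)
    nlinarith
  have h9 : (1 + k) ^ 2 * E ≤ E + 3 * k * τ := by
    have h10 : k * k ≤ k * 1 := mul_le_mul_of_nonneg_left hk1 hk0
    have h11 : (2 * k + k * k) * E ≤ (3 * k) * E := mul_le_mul_of_nonneg_right (by linarith) hE0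
    have h12 : (3 * k) * E ≤ (3 * k) * τ := mul_le_mul_of_nonneg_left hE (by linarith)
    calc (1 + k) ^ 2 * E = E + (2 * k + k * k) * E := by ring
      _ ≤ E + 3 * k * τ := by linarith
  have h13 : τ - 2 * k * τ ≤ (1 - k) ^ 2 * τ := by
    have : 0 ≤ k ^ 2 * τ := by positivity
    calc τ - 2 * k * τ ≤ τ - 2 * k * τ + k ^ 2 * τ := by linarith
      _ = (1 - k) ^ 2 * τ := by ring
  have h14 : 5 * k * τ ≤ 5 * k * b ^ 2 := mul_le_mul_of_nonneg_left hτb (by linarith)
  linarith

theorem siz_abs {n N : ℕ} [Fintype V] {G : SimpleGraph V} {g : V → Option (Fin r)} {w : V}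
    (h : Bd n N G g w) (t : Fin r) : |(siz g t : ℝ) - (n : ℝ) / r| ≤ N + 1 := by
  have h0 := h.bnd
  have h5 : (0 : ℝ) ≤ (missSet G g).ncard := Nat.cast_nonneg _
  have h6 : (0 : ℝ) ≤ (lightSet G g {w}).ncard := Nat.cast_nonneg _
  have h1 : ((siz g t : ℝ) - (n : ℝ) / r) ^ 2 ≤ N := by
    have h2 : dev (siz g) ≤ N := by linarith
    unfold dev at h2
    have h3 : (∑ s, (siz g s : ℝ)) = n := by
      have := h.tot
      exact_mod_cast this
    rw [h3] at h2
    refine le_trans ?_ h2
    exact Finset.single_le_sum (f := fun t => ((siz g t : ℝ) - (n : ℝ) / r) ^ 2)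
      (fun _ _ => sq_nonneg _) (mem_univ t)
  have hN : (0 : ℝ) ≤ N := Nat.cast_nonneg _
  apply abs_le_of_sq_le_sq _ (by linarith)
  nlinarith

end ItemRSS

open ItemRST (cnb_card cnb_eq cov_nonneg omv_nonneg cov_le le_cov choice cnb_u cnb_w second
  sum_cnb_le) in
theorem prfRSS : P_statement → CNTU_statement → FLB_statement → SWY_statement → RLE_statement →
    RMB_statement → CLA_statement → RSS_statement := by
  classical
  intro hP hCN hF hSW hRL hRM hCL r N hr
  obtain ⟨C, n₁, hC, h₁⟩ := hF r N hr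
  have hN0 : (0 : ℝ) ≤ N := Nat.cast_nonneg N
  have hr0 : (3 : ℝ) ≤ r := by exact_mod_cast hr
  have hrp : (0 : ℝ) < r := by linarith
  obtain ⟨n₄, hn₄⟩ := exists_nat_ge (C + 2 * r * (N + 1) + 3 * (N + 1 + C) +
    8 * N * (C + N * C) + 1 : ℝ)
  obtain ⟨D, hD⟩ : ∃ D : ℝ, D = 40 * r * (N + 1) * (C + 1) := ⟨_, rfl⟩
  have hDpos : 0 < D := by rw [hD]; positivity
  refine ⟨1 / D, by positivity, 4 * r, n₁ + n₄, ?_⟩
  intro V _ G g w n m hn hM hBd ha hb4 hbn
  have hn4 : (n₄ : ℝ) ≤ n := by exact_mod_cast (by omega : n₄ ≤ n)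
  have hp1 : (0 : ℝ) ≤ 2 * r * (N + 1) := by positivity
  have hp2 : (0 : ℝ) ≤ 3 * (N + 1 + C) := by positivity
  have hp3 : (0 : ℝ) ≤ 8 * N * (C + N * C) := by positivity
  have hnC : C + 1 ≤ (n : ℝ) := by linarith
  have hnr : 2 * r * (N + 1) ≤ (n : ℝ) := by linarith
  have hn3 : 3 * (N + 1 + C) ≤ (n : ℝ) := by linarith
  have hn8 : 8 * N * (C + N * C) ≤ (n : ℝ) := by linarith
  have hnpos : (0 : ℝ) < n := by linarith
  obtain ⟨b, hb⟩ : ∃ b : ℕ, b = (outSet G g).ncard := ⟨_, rfl⟩
  rw [← hb] at hb4 hbn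
  have hw := hBd.out
  -- the sizes of the classes
  have hsab := fun t => abs_le.1 (ItemRSS.siz_abs hBd t)
  have hnr2 : (N : ℝ) + 1 ≤ n / (2 * r) := by
    rw [le_div_iff₀ (by positivity)]
    linarith
  have hhalf : (n : ℝ) / r = n / (2 * r) + n / (2 * r) := by
    field_simp
    norm_num
  have hbr' : (b : ℝ) ≤ n / (2 * r) := by
    refine hbn.trans ?_
    have hDr : 2 * r ≤ D := by
      have h1 : (1 : ℝ) ≤ (N + 1) * (C + 1) := by linarith [mul_nonneg hN0 hC]
      have h2 : 2 * (r : ℝ) * 1 ≤ 40 * r * ((N + 1) * (C + 1)) :=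
        mul_le_mul (by linarith) h1 zero_le_one (by linarith)
      have h3 : 40 * (r : ℝ) * ((N + 1) * (C + 1)) = 40 * r * (N + 1) * (C + 1) := by ring
      rw [hD]
      linarith
    calc 1 / D * n = n / D := by ring
      _ ≤ n / (2 * r) := div_le_div_of_nonneg_left hnpos.le (by positivity) hDr
  have hsiz : ∀ t, b ≤ siz g t := by
    intro t
    have h1 := (hsab t).1
    have : (b : ℝ) ≤ siz g t := by linarith
    exact_mod_cast this
  have hsiz1 : ∀ t, 1 ≤ siz g t := fun t => by have := hsiz t; omega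
  obtain ⟨hb2, w0, hw0, -, -, hcase⟩ := hRL r b V G g hr hBd.indep ha hsiz1 hM.1.free
    hM.1.notPartite hM.1.noIso hb.symm
  have hcla := hCL r V G g w0 hr hBd.indep hw0 ha hsiz1 hM.1.free hM.1.notPartite hM.1.noIso
  rcases hcase with hl | ⟨-, hE2⟩
  · obtain ⟨u, v, i, h⟩ := hcla.2 hl
    exact ⟨w0, u, v, i, h, hl⟩
  exfalso
  obtain ⟨u, hu, hwu⟩ := second (by have := hcla.1; omega : 1 ≤ (lightSet G g {w0}).ncard)
  obtain ⟨i, v, A, hA1, hA2, hv, hA3, hAc⟩ := choice g hr (d := b - r)
    (fun t => by have := hsiz t; omega) (by omega)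
  have hcnt := FNWx.cnt0 hCN G g hBd.indep
  rw [ha, hM.1.size, ← hb] at hcnt
  obtain ⟨H, hHI, hHm, hHwu, hHiso, hHw, hHu, hHl⟩ := hRM r m V G g w0 u v i A hr hM hw0 hu hwu
    hA1 hA2 (fun t _ => hv t) hA3 hsiz1 (by rw [hAc]; omega)
  obtain ⟨⟨z, hz⟩, hz2⟩ := h₁ V G g w n (by omega) hBd
  obtain ⟨hz1, hz0, hzw, hlam⟩ := hz2 z hz
  have hlamn : (n : ℝ) / r + (N + 1) ≤ lam G := by
    have h1 := (abs_le.1 hlam).1
    have h2 : qq r * n = n - n / r := by
      unfold qq
      field_simp
    have h3 : (n : ℝ) / r ≤ n / 3 := div_le_div_of_nonneg_left hnpos.le (by norm_num) hr0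
    have h4 : (N : ℝ) + 1 + C ≤ n / 3 := by
      rw [le_div_iff₀ (by norm_num)]
      linarith
    linarith
  have hsl : ∀ t, (siz g t : ℝ) ≤ lam G := fun t => by
    have := (hsab t).2
    linarith
  have hl0 : 0 < lam G := by
    have h1 : (0 : ℝ) ≤ n / r := by positivity
    linarith
  have hmain := hSW r V G H z g w0 u n hBd.indep ha hHI hHm hw0 hu hwu hHwu hHiso hz hl0 hsl hHl
  obtain ⟨k, hk⟩ : ∃ k : ℝ, k = C / n := ⟨_, rfl⟩
  rw [← hk] at hz1 hz0
  have hk0 : 0 ≤ k := by rw [hk]; positivity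
  have hk1 : k ≤ 1 := by
    rw [hk, div_le_one hnpos]
    linarith
  have hup : ∀ v, g v ≠ none → z v ≤ 1 + k := fun v hv => by
    have := (abs_le.1 (hz1 v hv)).2
    linarith
  have hlow : ∀ v, g v ≠ none → 1 - k ≤ z v := fun v hv => by
    have := (abs_le.1 (hz1 v hv)).1
    linarith
  have hL : ((lightSet G g {w}).ncard : ℝ) ≤ N := by
    have h0 := hBd.bnd
    have h5 : (0 : ℝ) ≤ (missSet G g).ncard := Nat.cast_nonneg _
    have h6 : 0 ≤ dev (siz g) := sum_nonneg fun t _ => sq_nonneg _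
    linarith
  have hR := ItemRSS.rhs_le hCN G g hBd.indep hw z hz.nonneg hk0 hk0 hL hup hz0
  rw [← hb] at hR
  have hX := le_cov H g z hlow w0
  have hY := le_cov H g z hlow u
  rw [cnb_w (fun x hx => (hA1 x hx).1) hHw, hAc] at hX
  rw [cnb_u hv hHu] at hY
  have hbr : r ≤ b := by omega
  rw [Nat.cast_sub hbr] at hX
  rw [Nat.cast_sub (by omega : 1 ≤ r), Nat.cast_one] at hY
  have hX0 := cov_nonneg H g z hz.nonneg w0
  have hY0 := cov_nonneg H g z hz.nonneg u
  have hXY : 0 ≤ 2 * (cov H g z w0 * cov H g z u) / lam G := by positivity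
  have hbr'' : (r : ℝ) ≤ b := by exact_mod_cast hbr
  obtain ⟨E, hE⟩ : ∃ E : ℕ, E = ∑ x, if g x = none then cnb G g x ^ 2 else 0 := ⟨_, rfl⟩
  rw [← hE] at hR
  have hE2' : E + b ≤ (b - r) ^ 2 + (r - 1) ^ 2 := by
    rw [hE]
    convert hE2 hb4
  have hE2r : (E : ℝ) + b ≤ ((b : ℝ) - r) ^ 2 + ((r : ℝ) - 1) ^ 2 := by
    have h5 : ((E + b : ℕ) : ℝ) ≤ (((b - r) ^ 2 + (r - 1) ^ 2 : ℕ) : ℝ) := by
      exact_mod_cast hE2'
    push_cast at h5
    rw [Nat.cast_sub hbr, Nat.cast_sub (by omega : 1 ≤ r), Nat.cast_one] at h5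
    exact h5
  have hb0 : (0 : ℝ) ≤ b := Nat.cast_nonneg b
  obtain ⟨R, hRd⟩ : ∃ R : ℝ, R = (1 + k) * b * (N * k) + (1 + k) * N * (z w + N * k) := ⟨_, rfl⟩
  rw [← hRd] at hR
  have hfin := ItemRSS.fin hk0 hk1 hbr'' (by linarith : (1 : ℝ) ≤ r) (Nat.cast_nonneg E) hX hY
    (R := R) (by linarith) (by linarith)
  -- the numbers
  have hbk : b * k ≤ C / D := by
    have h1 : b * k ≤ (1 / D * n) * k := mul_le_mul_of_nonneg_right hbn hk0
    refine h1.trans (le_of_eq ?_)
    rw [hk]
    field_simp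
  have hD2 : 120 * (((N : ℝ) + 1) * (C + 1)) ≤ D := by
    have h1 : (0 : ℝ) ≤ (N + 1) * (C + 1) := by positivity
    have h2 := mul_le_mul_of_nonneg_right (show (120 : ℝ) ≤ 40 * r by linarith) h1
    have h3 : 40 * (r : ℝ) * ((N + 1) * (C + 1)) = 40 * r * (N + 1) * (C + 1) := by ring
    rw [hD]
    linarith
  have hNC : 0 ≤ (N : ℝ) * C := mul_nonneg hN0 hC
  have hPe : ((N : ℝ) + 1) * (C + 1) = N * C + N + C + 1 := by ring
  have hCD : C / D ≤ 1 / 120 := by
    rw [div_le_div_iff₀ hDpos (by norm_num)]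
    linarith
  have hNCD : N * (C / D) ≤ 1 / 120 := by
    rw [← mul_div_assoc, div_le_div_iff₀ hDpos (by norm_num)]
    linarith
  have hND : N * (1 / D) ≤ 1 / 120 := by
    rw [mul_one_div, div_le_div_iff₀ hDpos (by norm_num)]
    linarith
  have hzw2 : z w ≤ 2 / D + k := by
    have h1 : ((∑ t, nbn G g w t : ℕ) : ℝ) ≤ b := by
      have h2 := sum_cnb_le hCN G g hBd.indep
      rw [← hb, ItemRSS.sum_split g hw] at h2
      rw [← cnb_eq]
      exact_mod_cast (by omega : cnb G g w ≤ b)
    refine hzw.trans ?_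
    have h3 : 2 / D + k = (2 * (1 / D * n) + C) / n := by
      rw [hk]
      field_simp
    rw [h3]
    apply div_le_div_of_nonneg_right _ hnpos.le
    linarith
  have hNk : N * (C + N * C) / n ≤ 1 / 8 := by
    rw [div_le_div_iff₀ hnpos (by norm_num)]
    linarith
  have hR1 : R ≤ 1 := by
    have h1 : (1 + k) * b * (N * k) ≤ 2 * (N * (C / D)) := by
      have h2 : N * (b * k) ≤ N * (C / D) := mul_le_mul_of_nonneg_left hbk hN0
      have h3 : 0 ≤ N * (b * k) := by positivity
      calc (1 + k) * b * (N * k) = (1 + k) * (N * (b * k)) := by ring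
        _ ≤ 2 * (N * (b * k)) := mul_le_mul_of_nonneg_right (by linarith) h3
        _ ≤ _ := by linarith
    have h4 : (1 + k) * N * (z w + N * k) ≤ 2 * (N * (2 / D) + N * (C + N * C) / n) := by
      have h5 : z w + N * k ≤ 2 / D + k + N * k := by linarith
      have h6 : 0 ≤ z w + N * k := by
        have := hz.nonneg w
        positivity
      have h7 : (1 + k) * N * (z w + N * k) ≤ 2 * N * (2 / D + k + N * k) :=
        mul_le_mul (mul_le_mul_of_nonneg_right (by linarith) hN0) h5 h6 (by positivity)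
      refine h7.trans (le_of_eq ?_)
      rw [hk]
      ring
    have h8 : N * (2 / D) = 2 * (N * (1 / D)) := by ring
    rw [hRd]
    linarith
  have hk5 : 5 * k * (b : ℝ) ^ 2 ≤ b / 24 := by
    have h1 : 5 * k * (b : ℝ) ^ 2 = 5 * (b * k) * b := by ring
    rw [h1]
    have h2 : 5 * (b * k) ≤ 1 / 24 := by linarith
    have h3 := mul_le_mul_of_nonneg_right h2 hb0
    linarith
  have hb12 : (12 : ℝ) ≤ b := by
    have : 12 ≤ b := by omega
    exact_mod_cast this
  linarith

end MP0c3a8f

end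

section

/-! Sums of squares of degrees: stars, triangles, or a deficit. -/

namespace MP0c3a8f

namespace ItemSQF

open Finset

open Classical in
lemma meet {V : Type} [Fintype V] (M : SimpleGraph V) {u v x : V}
    (hvx : v ≠ x)
    (h0 : ItemSQE.dd M s(u, v) = 0) (h0' : ItemSQE.dd M s(u, x) = 0) {f : Sym2 V}
    (hf : f ∈ M.edgeSet) (huf : u ∉ f) : f = s(v, x) := by
  unfold ItemSQE.dd at h0 h0'
  rw [card_eq_zero, filter_eq_empty_iff] at h0 h0'
  have h1 := h0 (SimpleGraph.mem_edgeFinset.2 hf)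
  have h2 := h0' (SimpleGraph.mem_edgeFinset.2 hf)
  push Not at h1 h2
  obtain ⟨a, ha, haf⟩ := h1
  obtain ⟨b, hb, hbf⟩ := h2
  rw [Sym2.mem_iff] at ha hb
  have hav : a = v := by
    rcases ha with rfl | rfl
    · exact absurd haf huf
    · rfl
  have hbx : b = x := by
    rcases hb with rfl | rfl
    · exact absurd hbf huf
    · rfl
  subst hav hbx
  exact (Sym2.mem_and_mem_iff hvx).1 ⟨haf, hbf⟩

open Classical in
lemma zero_meet {V : Type} [Fintype V] (M : SimpleGraph V) {e f : Sym2 V}
    (h0 : ItemSQE.dd M e = 0) (hf : f ∈ M.edgeSet) : ∃ x ∈ e, x ∈ f := by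
  unfold ItemSQE.dd at h0
  rw [card_eq_zero, filter_eq_empty_iff] at h0
  have h1 := h0 (SimpleGraph.mem_edgeFinset.2 hf)
  push Not at h1
  exact h1

open Classical in
lemma two_zero {V : Type} [Fintype V] (M : SimpleGraph V)
    (hw : ¬ ∃ w, ∀ e ∈ M.edgeSet, w ∈ e) {e e' : Sym2 V} (he : e ∈ M.edgeFinset)
    (he' : e' ∈ M.edgeFinset) (hne : e ≠ e') (h0 : ItemSQE.dd M e = 0)
    (h0' : ItemSQE.dd M e' = 0) :
    (∃ x y z, M.Adj x y ∧ M.Adj y z ∧ M.Adj x z ∧
      M.edgeSet = {s(x, y), s(y, z), s(x, z)}) ∨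
    (3 ≤ M.edgeFinset.card ∧
      (M.edgeFinset.filter (fun g => ItemSQE.dd M g = 0)).card ≤ 2) := by
  rw [SimpleGraph.mem_edgeFinset] at he he'
  obtain ⟨u, hu, hu'⟩ := zero_meet M h0 he'
  obtain ⟨v, rfl⟩ := hu
  obtain ⟨x, rfl⟩ := hu'
  rw [SimpleGraph.mem_edgeSet] at he he'
  have hvx : v ≠ x := by
    rintro rfl
    exact hne rfl
  have key : ∀ f ∈ M.edgeSet, u ∉ f → f = s(v, x) := fun f hf huf =>
    meet M hvx h0 h0' hf huf
  have hw' := hw
  push Not at hw'
  obtain ⟨f, hf, huf⟩ := hw' u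
  have hfe := key f hf huf
  subst hfe
  have hfa : M.Adj v x := hf
  by_cases ht : M.edgeSet = {s(u, v), s(v, x), s(u, x)}
  · exact Or.inl ⟨u, v, x, he, hfa, he', ht⟩
  right
  -- another edge
  have hex : ∃ h ∈ M.edgeSet, h ≠ s(u, v) ∧ h ≠ s(v, x) ∧ h ≠ s(u, x) := by
    by_contra hcon
    push Not at hcon
    apply ht
    ext h
    simp only [Set.mem_insert_iff, Set.mem_singleton_iff]
    constructor
    · intro hh
      by_cases h1 : h = s(u, v)
      · exact Or.inl h1
      · by_cases h2 : h = s(v, x)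
        · exact Or.inr (Or.inl h2)
        · exact Or.inr (Or.inr (hcon h hh h1 h2))
    · rintro (rfl | rfl | rfl)
      · exact he
      · exact hfa
      · exact he'
  obtain ⟨h, hh, hh1, hh2, hh3⟩ := hex
  have gen : ∀ g ∈ M.edgeSet, g ≠ s(u, v) → g ≠ s(v, x) → g ≠ s(u, x) →
      ∀ a ∈ s(v, x), a ∉ g := by
    intro g hg h1 h2 h3 a ha hag
    have hug : u ∈ g := by
      by_contra hug
      exact h2 (key g hg hug)
    rw [Sym2.mem_iff] at ha
    rcases ha with rfl | rfl
    · exact h1 ((Sym2.mem_and_mem_iff he.ne).1 ⟨hug, hag⟩)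
    · exact h3 ((Sym2.mem_and_mem_iff he'.ne).1 ⟨hug, hag⟩)
  constructor
  · have hsub : ({s(u, v), s(v, x), s(u, x)} : Finset (Sym2 V)) ⊆ M.edgeFinset := by
      intro g hg
      simp only [mem_insert, mem_singleton] at hg
      rw [SimpleGraph.mem_edgeFinset]
      rcases hg with rfl | rfl | rfl
      · exact he
      · exact hfa
      · exact he'
    have hc : ({s(u, v), s(v, x), s(u, x)} : Finset (Sym2 V)).card = 3 := by
      rw [card_eq_three]
      refine ⟨s(u, v), s(v, x), s(u, x), ?_, ?_, ?_, rfl⟩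
      · intro hcon
        apply huf
        rw [← hcon]
        exact Sym2.mem_mk_left _ _
      · exact hne
      · intro hcon
        apply huf
        rw [hcon]
        exact Sym2.mem_mk_left _ _
    rw [← hc]
    exact card_le_card hsub
  · have hsub : M.edgeFinset.filter (fun g => ItemSQE.dd M g = 0) ⊆
        ({s(u, v), s(u, x)} : Finset (Sym2 V)) := by
      intro g hg
      rw [mem_filter, SimpleGraph.mem_edgeFinset] at hg
      obtain ⟨hg, hg0⟩ := hg
      simp only [mem_insert, mem_singleton]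
      by_contra hcon
      push Not at hcon
      obtain ⟨h1, h3⟩ := hcon
      by_cases h2 : g = s(v, x)
      · subst h2
        obtain ⟨a, ha, hah⟩ := zero_meet M hg0 hh
        exact gen h hh hh1 hh2 hh3 a ha hah
      · obtain ⟨a, ha, hah⟩ := zero_meet M hg0 ((SimpleGraph.mem_edgeSet M).2 hfa)
        exact gen g hg h1 h2 h3 a hah ha
    exact (card_le_card hsub).trans (card_le_two)

open Classical in
lemma sum_ge {V : Type} [Fintype V] [Nonempty V] (M : SimpleGraph V)
    (hw : ¬ ∃ w, ∀ e ∈ M.edgeSet, w ∈ e) :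
    (∃ x y z, M.Adj x y ∧ M.Adj y z ∧ M.Adj x z ∧
      M.edgeSet = {s(x, y), s(y, z), s(x, z)}) ∨
    M.edgeFinset.card ≤ 4 * ∑ e ∈ M.edgeFinset, ItemSQE.dd M e := by
  have h2 := ItemSQE.two_le M hw
  have h3 : (M.edgeFinset.filter (fun e => ¬ ItemSQE.dd M e = 0)).card ≤
      ∑ e ∈ M.edgeFinset, ItemSQE.dd M e := by
    rw [card_filter]
    apply sum_le_sum
    intro e _
    split_ifs with h
    · exact Nat.zero_le _
    · exact Nat.one_le_iff_ne_zero.2 h
  have h4 := Finset.card_filter_add_card_filter_not (s := M.edgeFinset)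
    (fun e => ItemSQE.dd M e = 0)
  by_cases hZ : (M.edgeFinset.filter (fun e => ItemSQE.dd M e = 0)).card ≤ 1
  · right
    omega
  · push Not at hZ
    rw [one_lt_card] at hZ
    obtain ⟨e, he, e', he', hne⟩ := hZ
    rw [mem_filter] at he he'
    rcases two_zero M hw he.1 he'.1 hne he.2 he'.2 with h | ⟨h, h'⟩
    · exact Or.inl h
    · right
      omega

end ItemSQF

open Classical in
/-- (SQF) sums of squares of degrees: stars, triangles, or a deficit -/
theorem prfSQF : SQF_statement := by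
  intro V _ _ M
  have hd : ∀ v, {u | M.Adj v u}.ncard = M.degree v := by
    intro v
    rw [Set.ncard_eq_toFinset_card', ← M.card_neighborFinset_eq_degree]
    congr 1
  have hE : M.edgeSet.ncard = M.edgeFinset.card := by
    rw [Set.ncard_eq_toFinset_card']
    rfl
  have h1 := ItemSQE.sum_sq M
  simp only [hd, hE]
  by_cases hw : ∃ w, ∀ e ∈ M.edgeSet, w ∈ e
  · exact Or.inl hw
  · right
    rcases ItemSQF.sum_ge M hw with h2 | h2
    · exact Or.inl h2
    · right
      omega

end MP0c3a8f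

end

section

/-!
# MP_0c3a8f_co, phase B: item SWY
-/

open Finset

namespace MP0c3a8f

theorem prfSWY : P_statement → SWY_statement := by
  intro hP r V _ G H z g w u n hI hm hIH hmH hw hu hwu hA _ hz hl hs hlam
  have : Nonempty V := ⟨w⟩
  exact ItemSWR.main hP hI hm hIH hmH hw hu hwu hA hz hlam hl hs

end MP0c3a8f

end

section

/-!
# MP_0c3a8f_co: test vectors for graphs of type `P` (item TVP)
-/

open Finset

namespace MP0c3a8f

namespace ItemTVP

theorem cast_ncard {V : Type} [Fintype V] (p : V → Prop) [DecidablePred p] :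
    (({v | p v}.ncard : ℕ) : ℝ) = ∑ v, if p v then (1 : ℝ) else 0 := by
  rw [Finset.sum_boole, Set.ncard_eq_toFinset_card', Set.toFinset_ofPred]

theorem sum_single {V : Type} [Fintype V] [DecidableEq V] (x : V) (F : V → ℝ) :
    ∑ v, (if v = x then F v else 0) = F x := by
  rw [Finset.sum_ite_eq' Finset.univ x F, if_pos (Finset.mem_univ x)]

open Classical in
/-- the test vector -/
noncomputable def yv {V : Type} {r : ℕ} (f : V → Option (Fin r)) (w : V) (q : Fin r → V)
    (i : Fin r) (L : Finset V) (l ω P : ℝ) (T : Fin r → ℝ) (v : V) : ℝ :=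
  if v = w then ω else if v = q i then P else if f v = some i then T i / l else
    (f v).elim 0 (fun t => (T t - (if v ∈ L then P else 0) + (if v = q t then ω else 0)) / l)

section

variable {V : Type} [Fintype V] {r : ℕ} {H : SimpleGraph V} {f : V → Option (Fin r)} {w : V}
  {q : Fin r → V} {i : Fin r} {L : Finset V} {l ω P X : ℝ} {T : Fin r → ℝ}

theorem fw (h : TyP H f w q i L) : f w = none := (h.out w).2 rfl

theorem ne_w (h : TyP H f w q i L) {v : V} {t : Fin r} (hv : f v = some t) : v ≠ w := by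
  intro e
  rw [e, fw h] at hv
  exact absurd hv (by simp)

theorem q_inj (h : TyP H f w q i L) {s t : Fin r} (e : q s = q t) : s = t := by
  have h1 := h.hq s
  rw [e, h.hq t] at h1
  exact (Option.some.inj h1).symm

theorem y_w (f : V → Option (Fin r)) (w : V) (q : Fin r → V) (i : Fin r) (L : Finset V)
    (l ω P : ℝ) (T : Fin r → ℝ) : yv f w q i L l ω P T w = ω := by
  unfold yv
  rw [if_pos rfl]

theorem y_qi (h : TyP H f w q i L) : yv f w q i L l ω P T (q i) = P := by
  unfold yv
  rw [if_neg (ne_w h (h.hq i)), if_pos rfl]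

theorem y_i (h : TyP H f w q i L) {v : V} (hv : f v = some i) (hn : v ≠ q i) :
    yv f w q i L l ω P T v = T i / l := by
  unfold yv
  rw [if_neg (ne_w h hv), if_neg hn, if_pos hv]

open Classical in
theorem y_t (h : TyP H f w q i L) {v : V} {t : Fin r} (hv : f v = some t) (ht : t ≠ i) :
    yv f w q i L l ω P T v =
      (T t - (if v ∈ L then P else 0) + (if v = q t then ω else 0)) / l := by
  unfold yv
  have h1 : v ≠ q i := by
    intro e
    rw [e, h.hq i] at hv
    exact ht (Option.some.inj hv).symm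
  have h2 : f v ≠ some i := by
    rw [hv]
    intro e
    exact ht (Option.some.inj e)
  rw [if_neg (ne_w h hv), if_neg h1, if_neg h2, hv]
  rfl

open Classical in
/-- the weight of the class `t ≠ i` -/
theorem cls_t (h : TyP H f w q i L) {t : Fin r} (ht : t ≠ i) :
    ∑ v, (if f v = some t then yv f w q i L l ω P T v else 0) =
      (siz f t * T t - lc L f t * P + ω) / l := by
  have e : ∀ v, (if f v = some t then yv f w q i L l ω P T v else 0) =
      T t / l * (if f v = some t then 1 else 0) - P / l * (if v ∈ L ∧ f v = some t then 1 else 0)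
        + (if v = q t then ω / l else 0) := by
    intro v
    by_cases hv : f v = some t
    · rw [if_pos hv, if_pos hv, y_t h hv ht]
      by_cases h1 : v ∈ L
      · have hA : v ∈ L ∧ f v = some t := ⟨h1, hv⟩
        by_cases h2 : v = q t
        · simp only [if_pos h1, if_pos hA, if_pos h2]
          ring
        · simp only [if_pos h1, if_pos hA, if_neg h2]
          ring
      · have hA : ¬ (v ∈ L ∧ f v = some t) := fun h2 => h1 h2.1
        by_cases h2 : v = q t
        · simp only [if_neg h1, if_neg hA, if_pos h2]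
          ring
        · simp only [if_neg h1, if_neg hA, if_neg h2]
          ring
    · have h2 : v ≠ q t := by
        intro e
        rw [e, h.hq t] at hv
        exact hv rfl
      have hA : ¬ (v ∈ L ∧ f v = some t) := fun h3 => hv h3.2
      simp only [if_neg hv, if_neg hA, if_neg h2]
      ring
  rw [Finset.sum_congr rfl fun v _ => e v, Finset.sum_add_distrib, Finset.sum_sub_distrib,
    ← Finset.mul_sum, ← Finset.mul_sum, ← cast_ncard, ← cast_ncard, sum_single]
  unfold siz lc
  ring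

open Classical in
/-- the weight of the class `i` -/
theorem cls_i (h : TyP H f w q i L) :
    ∑ v, (if f v = some i then yv f w q i L l ω P T v else 0) =
      siz f i * (T i / l) + (P - T i / l) := by
  have e : ∀ v, (if f v = some i then yv f w q i L l ω P T v else 0) =
      T i / l * (if f v = some i then 1 else 0) + (if v = q i then P - T i / l else 0) := by
    intro v
    by_cases hv : f v = some i
    · rw [if_pos hv, if_pos hv]
      by_cases h2 : v = q i
      · rw [if_pos h2, h2, y_qi h]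
        ring
      · rw [if_neg h2, y_i h hv h2]
        ring
    · have h2 : v ≠ q i := by
        intro e
        rw [e, h.hq i] at hv
        exact hv rfl
      rw [if_neg hv, if_neg hv, if_neg h2]
      ring
  rw [Finset.sum_congr rfl fun v _ => e v, Finset.sum_add_distrib, ← Finset.mul_sum,
    ← cast_ncard, sum_single]
  unfold siz
  ring

open Classical in
/-- the core weight as the sum over the classes -/
theorem core_sum (f : V → Option (Fin r)) (y : V → ℝ) :
    ∑ v, (if f v = none then 0 else y v) = ∑ t, ∑ v, (if f v = some t then y v else 0) := by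
  rw [Finset.sum_comm]
  refine Finset.sum_congr rfl fun v _ => ?_
  rcases hv : f v with _ | t
  · simp
  · rw [if_neg (by simp)]
    have e : ∀ s : Fin r, (if (some t : Option (Fin r)) = some s then y v else 0) =
        if s = t then y v else 0 := by
      intro s
      by_cases hs : s = t
      · rw [if_pos hs, if_pos (by rw [hs])]
      · rw [if_neg hs, if_neg (fun h => hs (Option.some.inj h).symm)]
    rw [Finset.sum_congr rfl fun s _ => e s, sum_single t (fun _ => y v)]

open Classical in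
/-- the row of a core vertex, any vector -/
theorem row_core (h : TyP H f w q i L) (y : V → ℝ) {v : V} {t : Fin r} (hv : f v = some t) :
    ∑ u, adj H v u * y u = ∑ u, (if f u = none then 0 else y u)
      - ∑ u, (if f u = some t then y u else 0) - (if v = q i then ∑ u, (if u ∈ L then y u else 0)
      else 0) - (if v ∈ L then y (q i) else 0) + (if v = q t then y w else 0) := by
  have e : ∀ u, adj H v u * y u = (if f u = none then 0 else y u)
      - (if f u = some t then y u else 0) - (if v = q i then (if u ∈ L then y u else 0) else 0)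
      - (if u = q i then (if v ∈ L then y u else 0) else 0)
      + (if u = w then (if v = q t then y u else 0) else 0) := by
    intro u
    unfold adj
    rcases hu : f u with _ | s
    · have huw : u = w := (h.out u).1 hu
      have h1 : u ∉ L := fun h2 => (h.hL u h2).1 hu
      have h3 : u ≠ q i := by
        intro e
        rw [e, h.hq i] at hu
        exact absurd hu (by simp)
      have h4 : H.Adj v u ↔ v = q t := by
        rw [SimpleGraph.adj_comm, huw, h.wn]
        constructor
        · rintro ⟨t', rfl⟩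
          rw [h.hq t'] at hv
          rw [Option.some.inj hv]
        · intro e
          exact ⟨t, e⟩
      have hn0 : (none : Option (Fin r)) ≠ some t := by simp
      by_cases h5 : v = q t
      · have h6 := h4.2 h5
        simp only [if_pos h6, if_neg hn0, if_neg h1, if_neg h3, if_pos huw, if_pos h5, ite_self,
          if_true]
        ring
      · have h6 : ¬ H.Adj v u := fun h7 => h5 (h4.1 h7)
        simp only [if_neg h6, if_neg hn0, if_neg h1, if_neg h3, if_pos huw, if_neg h5, ite_self,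
          if_true]
        ring
    · have huw : u ≠ w := ne_w h hu
      have h4 : H.Adj v u ↔ f v ≠ f u ∧ ¬ (v = q i ∧ u ∈ L) ∧ ¬ (u = q i ∧ v ∈ L) :=
        h.core v u (by rw [hv]; simp) (by rw [hu]; simp)
      have hn0 : (some s : Option (Fin r)) ≠ none := by simp
      by_cases hst : s = t
      · have hst' : (some s : Option (Fin r)) = some t := by rw [hst]
        have h5 : ¬ H.Adj v u := by
          rw [h4, hv, hu, hst]
          exact fun h6 => h6.1 rfl
        have h6 : (if v = q i then (if u ∈ L then y u else 0) else 0) = 0 := by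
          by_cases h7 : v = q i
          · have h8 : u ∉ L := by
              intro h8
              apply (h.hL u h8).2
              rw [hu, hst, ← hv, h7, h.hq i]
            simp only [if_neg h8, ite_self]
          · exact if_neg h7
        have h9 : (if u = q i then (if v ∈ L then y u else 0) else 0) = 0 := by
          by_cases h7 : u = q i
          · have h8 : v ∉ L := by
              intro h8
              apply (h.hL v h8).2
              rw [hv, ← hst, ← hu, h7, h.hq i]
            simp only [if_neg h8, ite_self]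
          · exact if_neg h7
        rw [h6, h9]
        simp only [if_neg h5, if_neg hn0, if_pos hst', if_neg huw]
        ring
      · have h5 : (some s : Option (Fin r)) ≠ some t := fun h6 => hst (Option.some.inj h6)
        have h5' : f v ≠ f u := by
          rw [hv, hu]
          exact fun h6 => hst (Option.some.inj h6).symm
        by_cases h7 : v = q i ∧ u ∈ L
        · have h8 : ¬ H.Adj v u := by
            rw [h4]
            exact fun h9 => h9.2.1 h7
          have h9 : ¬ (u = q i ∧ v ∈ L) := by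
            rintro ⟨h10, -⟩
            apply (h.hL u h7.2).2
            rw [h10, h.hq i]
          have h11 : (if u = q i then (if v ∈ L then y u else 0) else 0) = 0 := by
            by_cases h12 : u = q i
            · have h13 : v ∉ L := fun h13 => h9 ⟨h12, h13⟩
              simp only [if_neg h13, ite_self]
            · exact if_neg h12
          rw [h11]
          simp only [if_neg h8, if_neg hn0, if_neg h5, if_pos h7.1, if_pos h7.2, if_neg huw]
          ring
        · have h11 : (if v = q i then (if u ∈ L then y u else 0) else 0) = 0 := by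
            by_cases h12 : v = q i
            · have h13 : u ∉ L := fun h13 => h7 ⟨h12, h13⟩
              simp only [if_neg h13, ite_self]
            · exact if_neg h12
          rw [h11]
          by_cases h9 : u = q i ∧ v ∈ L
          · have h8 : ¬ H.Adj v u := by
              rw [h4]
              exact fun h10 => h10.2.2 h9
            simp only [if_neg h8, if_neg hn0, if_neg h5, if_pos h9.1, if_pos h9.2, if_neg huw]
            ring
          · have h8 : H.Adj v u := h4.2 ⟨h5', h7, h9⟩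
            have h13 : (if u = q i then (if v ∈ L then y u else 0) else 0) = 0 := by
              by_cases h12 : u = q i
              · have h14 : v ∉ L := fun h14 => h9 ⟨h12, h14⟩
                simp only [if_neg h14, ite_self]
              · exact if_neg h12
            rw [h13]
            simp only [if_pos h8, if_neg hn0, if_neg h5, if_neg huw]
            ring
  rw [Finset.sum_congr rfl fun u _ => e u, Finset.sum_add_distrib, Finset.sum_sub_distrib,
    Finset.sum_sub_distrib, Finset.sum_sub_distrib, sum_single, sum_single]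
  congr 3
  by_cases h1 : v = q i
  · simp only [if_pos h1]
  · simp only [if_neg h1, Finset.sum_const_zero]

open Classical in
/-- the row of `w` -/
theorem row_w (h : TyP H f w q i L) (y : V → ℝ) :
    ∑ u, adj H w u * y u = ∑ t, y (q t) := by
  have e : ∀ u, adj H w u * y u = ∑ t, (if u = q t then y u else 0) := by
    intro u
    unfold adj
    by_cases hu : H.Adj w u
    · obtain ⟨t, ht⟩ := (h.wn u).1 hu
      rw [if_pos hu, Finset.sum_eq_single t]
      · rw [if_pos ht]
        ring
      · intro s _ hs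
        rw [if_neg]
        intro e
        exact hs (q_inj h (e.symm.trans ht))
      · intro h1
        exact absurd (Finset.mem_univ t) h1
    · rw [if_neg hu, Finset.sum_eq_zero]
      · ring
      · intro t _
        rw [if_neg]
        intro e
        exact hu ((h.wn u).2 ⟨t, e⟩)
  rw [Finset.sum_congr rfl fun u _ => e u, Finset.sum_comm]
  exact Finset.sum_congr rfl fun t _ => sum_single (q t) y

end

end ItemTVP

open ItemTVP in
theorem prfTVP : P_statement → TVP_statement := by
  classical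
  intro hP r V _ H f w q i L l ω P X T hr hT hu hl h4 h5 h6 h7 h8
  set y : V → ℝ := yv f w q i L l ω P T with hy
  have hS : ∀ t, ∑ v, (if f v = some t then y v else 0) = 1 - T t := by
    intro t
    by_cases ht : t = i
    · rw [ht, hy, cls_i hT]
      field_simp
      linarith
    · rw [hy, cls_t hT ht]
      have := h4 t ht
      field_simp
      linarith
  have hSC : ∑ v, (if f v = none then 0 else y v) = (r : ℝ) - ∑ t, T t := by
    rw [core_sum f y, Finset.sum_congr rfl fun t _ => hS t, Finset.sum_sub_distrib]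
    simp
  obtain ⟨s, hs, hsu⟩ := hu
  have hsi : s ≠ i := by
    intro e
    apply (hT.hL _ hs).2
    rw [e, hT.hq i]
  have hLi : lc L f i = 0 := by
    unfold lc
    rw [Set.ncard_eq_zero (Set.toFinite _)]
    ext v
    simp only [Set.mem_ofPred_eq, Set.mem_empty_iff_false, iff_false]
    rintro ⟨h1, h2⟩
    exact (hT.hL v h1).2 h2
  have hX : ∑ v, (if v ∈ L then y v else 0) = X := by
    have e1 : ∀ v, (if v ∈ L then y v else 0) =
        if f v = none then 0 else (if v ∈ L then y v else 0) := by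
      intro v
      by_cases h1 : f v = none
      · rw [if_pos h1, if_neg (fun h2 => (hT.hL v h2).1 h1)]
      · rw [if_neg h1]
    rw [Finset.sum_congr rfl fun v _ => e1 v, core_sum f (fun v => if v ∈ L then y v else 0)]
    have e2 : ∀ t, ∑ v, (if f v = some t then (if v ∈ L then y v else 0) else 0) =
        (if t = i then 0 else lc L f t * (T t - P)) / l + (if t = s then ω / l else 0) := by
      intro t
      by_cases ht : t = i
      · rw [if_pos ht, if_neg (fun h1 => hsi (h1.symm.trans ht)), Finset.sum_eq_zero]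
        · ring
        · intro v _
          by_cases hv : f v = some t
          · rw [if_pos hv, if_neg]
            intro h1
            apply (hT.hL v h1).2
            rw [hv, ht]
          · rw [if_neg hv]
      · have e3 : ∀ v, (if f v = some t then (if v ∈ L then y v else 0) else 0) =
            (T t - P) / l * (if v ∈ L ∧ f v = some t then 1 else 0) +
              (if v = q t then (if t = s then ω / l else 0) else 0) := by
          intro v
          by_cases hv : f v = some t
          · rw [if_pos hv]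
            by_cases h1 : v ∈ L
            · rw [if_pos h1, if_pos ⟨h1, hv⟩, hy, y_t hT hv ht, if_pos h1]
              by_cases h2 : v = q t
              · rw [if_pos h2, if_pos h2, if_pos (hsu t (show q t ∈ L by rw [← h2]; exact h1))]
                ring
              · rw [if_neg h2, if_neg h2]
                ring
            · rw [if_neg h1, if_neg (fun h2 => h1 h2.1)]
              by_cases h2 : v = q t
              · rw [if_pos h2, if_neg]
                · ring
                · intro h3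
                  apply h1
                  rw [h2, h3]
                  exact hs
              · rw [if_neg h2]
                ring
          · have h2 : v ≠ q t := by
              intro e
              rw [e, hT.hq t] at hv
              exact hv rfl
            rw [if_neg hv, if_neg (fun h3 => hv h3.2), if_neg h2]
            ring
        rw [Finset.sum_congr rfl fun v _ => e3 v, Finset.sum_add_distrib, ← Finset.mul_sum,
          ← cast_ncard, sum_single (q t) (fun _ => if t = s then ω / l else 0), if_neg ht]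
        unfold lc
        ring
    rw [Finset.sum_congr rfl fun t _ => e2 t, Finset.sum_add_distrib,
      sum_single s (fun _ => ω / l), ← Finset.sum_div, ← add_div, ← h7]
    field_simp
  have hyi : y (q i) = P := y_qi hT
  have hyw : y w = ω := y_w f w q i L l ω P T
  -- the rows of the core
  have hcore : ∀ v, f v ≠ none → ∑ u, adj H v u * y u = l * y v + ((r : ℝ) - ∑ t, T t - 1) := by
    intro v hv0
    obtain ⟨t, hv⟩ := Option.ne_none_iff_exists'.1 hv0
    rw [row_core hT y hv, hSC, hS t, hX, hyi, hyw]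
    by_cases ht : t = i
    · have hvL : v ∉ L := by
        intro h1
        apply (hT.hL v h1).2
        rw [hv, ht]
      rw [if_neg hvL, ht]
      by_cases h1 : v = q i
      · rw [if_pos h1, if_pos h1, h1, hyi]
        linarith
      · rw [if_neg h1, if_neg h1, hy, y_i hT (by rw [hv, ht]) h1]
        field_simp
        ring
    · have h1 : v ≠ q i := by
        intro e
        rw [e, hT.hq i] at hv
        exact ht (Option.some.inj hv).symm
      rw [if_neg h1, hy, y_t hT hv ht]
      field_simp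
      ring
  -- the row of `w`
  have hroww : ∑ u, adj H w u * y u = l * ω +
      (l * P + ∑ t, (if t = i then 0 else T t + ω) - P - l ^ 2 * ω) / l := by
    rw [row_w hT y]
    have e1 : ∀ t, y (q t) = (if t = i then P else 0) + (if t = i then 0 else T t + ω) / l -
        (if t = s then P / l else 0) := by
      intro t
      by_cases ht : t = i
      · rw [if_pos ht, if_pos ht, if_neg (fun h1 => hsi (h1.symm.trans ht)), ht, hyi]
        ring
      · rw [if_neg ht, if_neg ht, hy, y_t hT (hT.hq t) ht, if_pos rfl]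
        by_cases hts : t = s
        · rw [if_pos hts, if_pos (by rw [hts]; exact hs)]
          ring
        · rw [if_neg hts, if_neg (fun h1 => hts (hsu t h1))]
          ring
    rw [Finset.sum_congr rfl fun t _ => e1 t, Finset.sum_sub_distrib, Finset.sum_add_distrib,
      sum_single i (fun _ => P), sum_single s (fun _ => P / l), ← Finset.sum_div]
    field_simp
    ring
  -- the quadratic form
  set S' : ℝ := (r : ℝ) - ∑ t, T t with hS'
  set ρ : ℝ := (l * P + ∑ t, (if t = i then 0 else T t + ω) - P - l ^ 2 * ω) / l with hρ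
  have hqf : qf H y = l * ∑ v, y v ^ 2 + ((S' - 1) * S' + ρ * ω) := by
    unfold qf
    have e1 : ∀ v, ∑ u, adj H v u * (y v * y u) = l * y v ^ 2 +
        (if f v = none then 0 else y v) * (S' - 1) + (if v = w then ω * ρ else 0) := by
      intro v
      have e2 : ∑ u, adj H v u * (y v * y u) = y v * ∑ u, adj H v u * y u := by
        rw [Finset.mul_sum]
        exact Finset.sum_congr rfl fun u _ => by ring
      rw [e2]
      by_cases hv : f v = none
      · have hvw : v = w := (hT.out v).1 hv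
        rw [if_pos hv, if_pos hvw, hvw, hroww, hyw]
        ring
      · have hvw : v ≠ w := fun h1 => hv ((hT.out v).2 h1)
        rw [if_neg hv, if_neg hvw, hcore v hv]
        ring
    rw [Finset.sum_congr rfl fun v _ => e1 v, Finset.sum_add_distrib, Finset.sum_add_distrib,
      ← Finset.mul_sum, ← Finset.sum_mul, hSC, sum_single w (fun _ => ω * ρ)]
    ring
  have hpos : 0 < (S' - 1) * S' + ρ * ω := by
    have e : (S' - 1) * S' = ((r : ℝ) - 1 - ∑ t, T t) * ((r : ℝ) - ∑ t, T t) := by
      rw [hS']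
      ring
    rw [e]
    exact h8
  have : Nonempty V := ⟨w⟩
  have hR := (hP V H).2.1 y
  rw [hqf] at hR
  have hsq : 0 ≤ ∑ v, y v ^ 2 := Finset.sum_nonneg fun v _ => sq_nonneg _
  by_contra hcon
  have h9 : lam H * ∑ v, y v ^ 2 ≤ l * ∑ v, y v ^ 2 :=
    mul_le_mul_of_nonneg_right (not_lt.1 hcon) hsq
  linarith

end MP0c3a8f

end

section

/-!
# MP_0c3a8f_co: the upper range (item YRD)
-/

open Finset

namespace MP0c3a8f

namespace ItemYRD

/-- `B` is at most `n` -/
theorem le_n {r n B : ℕ} {ε : ℝ} (hr : 3 ≤ r) (hε : 0 < ε)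
    (h : (B : ℝ) ≤ (2 / (r : ℝ) - ε) * (qq r * n)) : B ≤ n := by
  have hr3 : (3 : ℝ) ≤ r := by exact_mod_cast hr
  have h1 : 2 / (r : ℝ) ≤ 1 := by
    rw [div_le_one (by linarith)]
    linarith
  have hq0 : 0 ≤ qq r := by
    unfold qq
    have : 1 / (r : ℝ) ≤ 1 := by
      rw [div_le_one (by linarith)]
      linarith
    linarith
  have hq1 : qq r ≤ 1 := by
    unfold qq
    have : 0 ≤ 1 / (r : ℝ) := by positivity
    linarith
  have hn : (0 : ℝ) ≤ n := Nat.cast_nonneg n
  have h2 : 0 ≤ qq r * n := mul_nonneg hq0 hn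
  have h3 : (2 / (r : ℝ) - ε) * (qq r * n) ≤ 1 * (qq r * n) :=
    mul_le_mul_of_nonneg_right (by linarith) h2
  have h4 : qq r * n ≤ 1 * n := mul_le_mul_of_nonneg_right hq1 hn
  have h5 : (B : ℝ) ≤ n := by linarith
  exact_mod_cast h5

end ItemYRD

theorem prfYRD : KCC_statement → CRT_statement → FNU_statement → YAB_statement → YRD_statement := by
  intro hK hC hF hY r ε hr hε
  obtain ⟨hch, hcc⟩ := hK r hr
  obtain ⟨h1, h2, h3⟩ := hC (Fin (r + 1)) ⊤ r hch hcc
  obtain ⟨N, n₁, hN⟩ := hF (Fin (r + 1)) ⊤ r ε hr h1 h3 h2 hε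
  obtain ⟨n₂, hn₂⟩ := hY r N hr
  refine ⟨max n₁ n₂, ?_⟩
  intro n hn B m hB hm V _ G hG
  exact hn₂ V G n B m (le_trans (le_max_right _ _) hn) (ItemYRD.le_n hr hε hB) hm hG
    (hN n (le_trans (le_max_left _ _) hn) B m hB hm V G hG)

end MP0c3a8f

end
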