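import Pool.Agent.Work.MP_0c3a8f_co.PB.Stmts9
import Pool.Agent.Work.MP_0c3a8f_co.Bd.B19
import Pool.Agent.Work.MP_0c3a8f_co.Bd.B18
import Pool.Agent.Work.MP_0c3a8f_co.PB.Stmts10
import Pool.Agent.Work.MP_0c3a8f_co.Bd.B21

/-! Bundle of small proof modules (one section per former module). -/

section

/-!
# MP_0c3a8f_co, phase PB9: item RSE
-/

set_option autoImplicit false

open Finset

namespace MP0c3a8f

namespace ItemRSE

variable {V : Type} [Fintype V] {r : ℕ}

/-- the numbers in the last step for the largest class -/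
theorem numer {L Cw Cu Cw' Cu' zw zu C n : ℝ} (hL : 0 < L) (hCw : 1 / 2 ≤ Cw) (hCu : 0 ≤ Cu)
    (hCw' : Cw + 1 / (8 * L) ≤ Cw') (hCu' : Cu ≤ Cu') (hw : L * zw = Cw + zu)
    (hu : L * zu = Cu + zw) (hzw0 : 0 ≤ zw) (hzu0 : 0 ≤ zu) (hzw : zw ≤ 1 / 50)
    (hzu : zu ≤ C / n) (hn : 0 < n) (hC : 0 ≤ C) (hLn : L ≤ 2 * n) (hbig : 300 * C ^ 2 ≤ n)
    (hmain : Cw' ^ 2 + Cu' ^ 2 + 2 * (Cw' * Cu') / L ≤ Cw ^ 2 + Cw * zu + (Cu ^ 2 + Cu * zw)) :
    False := by
  obtain ⟨δ, hδ⟩ : ∃ δ : ℝ, δ = 1 / (8 * L) := ⟨_, rfl⟩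
  rw [← hδ] at hCw'
  have hδ0 : 0 < δ := by rw [hδ]; positivity
  have hδL : L * δ = 1 / 8 := by rw [hδ]; field_simp
  have hCw0 : 0 < Cw := by linarith
  have h1 : Cw ^ 2 + 2 * (Cw * δ) ≤ Cw' ^ 2 := by nlinarith
  have h2 : Cu ^ 2 ≤ Cu' ^ 2 := by nlinarith
  have h3 : Cw * Cu ≤ Cw' * Cu' := mul_le_mul (by linarith) hCu' hCu (by linarith)
  have h4 : 2 * (Cw * Cu) / L ≤ 2 * (Cw' * Cu') / L := by
    apply div_le_div_of_nonneg_right _ hL.le
    linarith
  have h5 : 2 * (Cw * δ) + 2 * (Cw * Cu) / L ≤ Cw * zu + Cu * zw := by linarith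
  have h6 : L * (2 * (Cw * Cu) / L) = 2 * (Cw * Cu) := by field_simp
  have h7 : L * (2 * (Cw * δ)) + 2 * (Cw * Cu) ≤ Cw * (Cu + zw) + Cu * (Cw + zu) := by
    have := mul_le_mul_of_nonneg_left h5 hL.le
    rw [mul_add, h6] at this
    calc _ ≤ L * (Cw * zu + Cu * zw) := this
      _ = Cw * (L * zu) + Cu * (L * zw) := by ring
      _ = _ := by rw [hw, hu]
  have h8 : L * (2 * (Cw * δ)) ≤ Cw * zw + Cu * zu := by linarith
  have h8' : L * (2 * (Cw * δ)) = Cw / 4 := by
    calc L * (2 * (Cw * δ)) = 2 * Cw * (L * δ) := by ring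
      _ = _ := by rw [hδL]; ring
  have h9 : Cu ≤ 2 * C := by
    have : Cu ≤ L * zu := by linarith
    calc Cu ≤ L * zu := this
      _ ≤ (2 * n) * (C / n) := mul_le_mul hLn hzu hzu0 (by positivity)
      _ = 2 * C := by field_simp
  have h10 : Cu * zu ≤ 2 / 300 := by
    calc Cu * zu ≤ (2 * C) * (C / n) := mul_le_mul h9 hzu hzu0 (by positivity)
      _ = 2 * C ^ 2 / n := by ring
      _ ≤ 2 / 300 := by
        rw [div_le_div_iff₀ hn (by norm_num)]
        linarith
  have h11 : Cw * zw ≤ Cw * (1 / 50) := mul_le_mul_of_nonneg_left hzw hCw0.le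
  linarith

/-- difference of the weights -/
theorem diffT {L n a b es et Ts Tt : ℝ} (hn : 300 ≤ n) (hL : 19 / 30 * n ≤ L) (ha : L ≤ a)
    (hab : a + 1 ≤ b) (hb : b ≤ 11 / 10 * n) (hes : es ≤ n / 1000) (het : 0 ≤ et)
    (h1 : a * Ts = L * n - es) (h2 : b * Tt = L * n - et) : 1 / 4 ≤ Ts - Tt := by
  have hn0 : 0 < n := by linarith
  have hL0 : 0 < L := by
    have : 0 < 19 / 30 * n := by positivity
    linarith
  have ha0 : 0 < a := by linarith
  have hb0 : 0 < b := by linarith
  have hab0 : 0 < a * b := by positivity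
  have e : a * b * (Ts - Tt) = (b - a) * (L * n) - b * es + a * et := by
    linear_combination b * h1 - a * h2
  have h3 : L * n ≤ (b - a) * (L * n) := by
    have : 0 < L * n := by positivity
    nlinarith
  have h4 : b * es ≤ 11 / 10 * n * (n / 1000) := by
    have h5 : b * es ≤ b * (n / 1000) := mul_le_mul_of_nonneg_left hes hb0.le
    have h6 : b * (n / 1000) ≤ 11 / 10 * n * (n / 1000) :=
      mul_le_mul_of_nonneg_right hb (by positivity)
    linarith
  have h5 : a * b ≤ 11 / 10 * n * (11 / 10 * n) := mul_le_mul (by linarith) hb hb0.le (by positivity)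
  have h6 : 19 / 30 * n * n ≤ L * n := mul_le_mul_of_nonneg_right hL hn0.le
  have h7 : 0 ≤ a * et := by positivity
  have h8 : a * b * (1 / 4) ≤ a * b * (Ts - Tt) := by
    rw [e]
    nlinarith
  exact le_of_mul_le_mul_left h8 hab0

/-- the number of core neighbours of `w` -/
theorem sum_nbn_le_out (G : SimpleGraph V) (g : V → Option (Fin r)) (w : V)
    (hw : g w = none) : ∑ t, nbn G g w t ≤ (outSet G g).ncard := by
  classical
  rw [ItemRII.sum_nbn, ← Set.ncard_coe_finset]
  refine Set.ncard_le_ncard_of_injOn (fun x => s(w, x)) ?_ ?_ (Set.toFinite _)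
  · intro x hx
    have h1 := Finset.mem_filter.1 (Finset.mem_coe.1 hx)
    exact ⟨(SimpleGraph.mem_edgeSet G).2 h1.2.2, w, Sym2.mem_mk_left w x, hw⟩
  · intro x _ y _ hxy
    exact Sym2.congr_right.1 hxy

omit [Fintype V] in
theorem siz_dev {n N : ℕ} {G : SimpleGraph V} {g : V → Option (Fin r)} {w : V}
    (hB : Bd n N G g w) (t : Fin r) : |(siz g t : ℝ) - n / r| ≤ Real.sqrt N := by
  have h1 : dev (siz g) ≤ N := by
    have h := hB.bnd
    have h2 : (0 : ℝ) ≤ (missSet G g).ncard := Nat.cast_nonneg _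
    have h3 : (0 : ℝ) ≤ (lightSet G g {w}).ncard := Nat.cast_nonneg _
    linarith
  unfold dev at h1
  have h2 : (∑ s, (siz g s : ℝ)) = n := by exact_mod_cast hB.tot
  rw [h2] at h1
  have h3 : ((siz g t : ℝ) - n / r) ^ 2 ≤ ∑ t, ((siz g t : ℝ) - n / r) ^ 2 :=
    Finset.single_le_sum (f := fun t => ((siz g t : ℝ) - n / r) ^ 2)
      (fun _ _ => sq_nonneg _) (Finset.mem_univ t)
  exact Real.abs_le_sqrt (h3.trans h1)

open Classical in
theorem cw_omv_k {G : SimpleGraph V} {g : V → Option (Fin r)} {w u : V} {v : Fin r → V}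
    {k : Fin r} (hT : Th2 G g w u v k) (z : V → ℝ) :
    cw (fun y => omv G g z y) g (some k) = 0 := by
  unfold cw
  refine Finset.sum_eq_zero fun y _ => ?_
  by_cases hy : g y = some k
  · rw [if_pos hy]
    show omv G g z y = 0
    rw [ItemREV.omv_eq hT.ty, if_neg, if_neg, add_zero]
    · intro h
      obtain ⟨t, ht, h1⟩ := (hT.ty.un y (by rw [hy]; simp)).1 h.symm
      have h2 := hT.ty.hv t ht
      rw [← h1, hy] at h2
      exact ht (Option.some_injective _ h2).symm
    · intro h
      exact ItemRII.nbn_zero hT.ni y hy h.symm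
  · rw [if_neg hy]

end ItemRSE

theorem prfRSE : P_statement → CNTU_statement → FLB_statement → TCG_statement → MVE_statement →
    SWY_statement → RMB_statement → MEM2_statement → RSE_statement := by
  intro _ _ hFLB hTCG hMVE hSWY hRMB hMEM r N hr
  obtain ⟨C, n1, hC, hF⟩ := hFLB r N hr
  have hr3 : (3 : ℝ) ≤ r := by exact_mod_cast hr
  have hrpos : (0 : ℝ) < r := by linarith
  set S : ℝ := 100 * r * (C ^ 2 + C + Real.sqrt N + 1) with hS
  obtain ⟨n2, hn2⟩ := exists_nat_ge S
  refine ⟨1 / (48 * r), by positivity, max n1 n2, ?_⟩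
  intro V _ G g w u v k n m hn hM hB hout hTh
  have hn1 : n1 ≤ n := (le_max_left _ _).trans hn
  have hn2' : n2 ≤ n := (le_max_right _ _).trans hn
  have hT := hTh.ty
  have hgw : g w = none := (hT.out w).2 (Or.inl rfl)
  have hgu : g u = none := (hT.out u).2 (Or.inr rfl)
  have hwu : w ≠ u := hT.ne
  have hmiss : (missSet G g).ncard = 0 := ItemRII.miss_zero hT
  -- the numbers
  have hsN : 0 ≤ Real.sqrt N := Real.sqrt_nonneg _
  have hSn : S ≤ n := hn2.trans (by exact_mod_cast hn2')
  have hC2 : 0 ≤ C ^ 2 := sq_nonneg C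
  have hS3 : 300 * (C ^ 2 + C + Real.sqrt N + 1) ≤ n := by
    refine le_trans ?_ hSn
    rw [hS]
    have : 0 ≤ C ^ 2 + C + Real.sqrt N + 1 := by positivity
    nlinarith
  have hn300 : (300 : ℝ) ≤ n := by linarith
  have hnpos : (0 : ℝ) < n := by linarith
  have hCn : C ≤ n / 300 := by linarith
  have hNn : Real.sqrt N ≤ n / 300 := by linarith
  have hnr : 100 * (Real.sqrt N + 1) ≤ n / r := by
    rw [le_div_iff₀ hrpos]
    refine le_trans ?_ hSn
    rw [hS]
    nlinarith [mul_nonneg hrpos.le (add_nonneg hC2 hC)]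
  have hnr3 : (n : ℝ) / r ≤ n / 3 := div_le_div_of_nonneg_left hnpos.le (by norm_num) hr3
  have hnr0 : 0 < (n : ℝ) / r := by positivity
  -- the degree
  have hdo : ((∑ t, nbn G g w t : ℕ) : ℝ) ≤ n / r / 48 := by
    have h1 : ((∑ t, nbn G g w t : ℕ) : ℝ) ≤ (outSet G g).ncard := by
      exact_mod_cast ItemRSE.sum_nbn_le_out G g w hgw
    refine (h1.trans hout).trans (le_of_eq ?_)
    field_simp
  have hdt : ∀ t, (nbn G g w t : ℝ) ≤ n / r / 48 := by
    intro t
    refine le_trans ?_ hdo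
    have : nbn G g w t ≤ ∑ t, nbn G g w t :=
      Finset.single_le_sum (f := fun t => nbn G g w t) (fun _ _ => Nat.zero_le _)
        (Finset.mem_univ t)
    exact_mod_cast this
  -- sizes
  have hsd := ItemRSE.siz_dev hB
  have hsl : ∀ t, (n : ℝ) / r - Real.sqrt N ≤ siz g t := fun t => by
    have := (abs_le.1 (hsd t)).1
    linarith
  have hsu : ∀ t, (siz g t : ℝ) ≤ n / r + Real.sqrt N := fun t => by
    have := (abs_le.1 (hsd t)).2
    linarith
  have hroom : ∀ s t, nbn G g w s + 2 ≤ siz g t := by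
    intro s t
    have h1 := hdt s
    have h2 := hsl t
    have h3 : ((nbn G g w s + 2 : ℕ) : ℝ) ≤ siz g t := by push_cast; linarith
    exact_mod_cast h3
  have hs1 : ∀ t, 1 ≤ siz g t := fun t => by
    have := hroom t t
    omega
  -- the vector
  obtain ⟨⟨z, hz⟩, hzall⟩ := hF V G g w n hn1 hB
  obtain ⟨hz1, hz2, hz3, hlam⟩ := hzall z hz
  have hzw50 : z w ≤ 1 / 50 := by
    refine hz3.trans ?_
    rw [div_le_iff₀ hnpos]
    linarith
  have hzuC : z u ≤ C / n := hz2 u hgu hwu.symm
  have hzu300 : z u ≤ 1 / 300 := by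
    refine hzuC.trans ?_
    rw [div_le_iff₀ hnpos]
    linarith
  have hq : 2 / 3 ≤ qq r := by
    unfold qq
    have : 1 / (r : ℝ) ≤ 1 / 3 := one_div_le_one_div_of_le (by norm_num) hr3
    linarith
  have hqn : qq r * n = n - n / r := by
    unfold qq
    ring
  have hlam1 : 19 / 30 * n ≤ lam G := by
    have h1 := (abs_le.1 hlam).1
    rw [hqn] at h1
    linarith
  have hlam2 : lam G ≤ n - n / r + C := by
    have h1 := (abs_le.1 hlam).2
    rw [hqn] at h1
    linarith
  have hlam3 : lam G ≤ 2 * n := by linarith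
  have hlpos : 0 < lam G := by linarith
  have hsl2 : ∀ t, (siz g t : ℝ) < lam G := fun t => by
    have := hsu t
    linarith
  have hsb : ∀ t, lam G + siz g t ≤ 11 / 10 * n := fun t => by
    have := hsu t
    linarith
  have hzc : ∀ y, g y ≠ none → 1 / 2 ≤ z y := by
    intro y hy
    have h1 := (abs_le.1 (hz1 y hy)).1
    have h2 : C / n ≤ 1 / 2 := by
      rw [div_le_iff₀ hnpos]
      linarith
    linarith
  obtain ⟨t1, ht1, hw1⟩ := hTh.exc
  -- weights of the light vertices
  have hzw : 0 < z w := by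
    obtain ⟨y, hy1, hy2⟩ := ItemRII.nbn_pos (hTh.pos t1 ht1)
    have h2 := hz.eig w
    have h3 : adj G w y * z y ≤ ∑ a, adj G w a * z a := by
      refine Finset.single_le_sum (f := fun a => adj G w a * z a) (fun a _ => ?_)
        (Finset.mem_univ y)
      have := hz.nonneg a
      unfold adj
      split_ifs <;> simp [this]
    rw [h2] at h3
    have h4 : adj G w y = 1 := by unfold adj; rw [if_pos hy2]
    rw [h4, one_mul] at h3
    have h5 := hzc y (by rw [hy1]; simp)
    by_contra h6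
    push Not at h6
    nlinarith
  have hzu : 0 < z u := by
    have h2 := hz.eig u
    have h3 : adj G u (v t1) * z (v t1) ≤ ∑ a, adj G u a * z a := by
      refine Finset.single_le_sum (f := fun a => adj G u a * z a) (fun a _ => ?_)
        (Finset.mem_univ (v t1))
      have := hz.nonneg a
      unfold adj
      split_ifs <;> simp [this]
    rw [h2] at h3
    have h4 : adj G u (v t1) = 1 := by
      unfold adj
      rw [if_pos ((hT.un _ (by rw [hT.hv t1 ht1]; simp)).2 ⟨t1, ht1, rfl⟩)]
    rw [h4, one_mul] at h3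
    have h5 := hzc (v t1) (by rw [hT.hv t1 ht1]; simp)
    by_contra h6
    push Not at h6
    nlinarith
  obtain ⟨hT1, hT2⟩ := hTCG r V G z g n hB.indep hz
  simp only [ItemREV.muv_zero hT, ItemREV.omv_eq hT, sub_zero] at hT1
  have hun : ∀ y t, g y = some t → t ≠ k → (G.Adj y u ↔ y = v t) := by
    intro y t hy ht
    rw [G.adj_comm, hT.un y (by rw [hy]; simp)]
    constructor
    · rintro ⟨s, hs, rfl⟩
      have h3 := hT.hv s hs
      rw [hy] at h3
      rw [Option.some.inj h3]
    · intro h3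
      exact ⟨t, ht, h3⟩
  have hT2' : ∀ t, t ≠ k → (lam G + siz g t) * tv g z n t =
      lam G * n - (nbn G g w t * z w + z u) := by
    intro t ht
    rw [hT2 t, ItemREV.cw_muv hT, ItemREV.cw_omv hT z t ht]
    ring
  have hT2k : (lam G + siz g k) * tv g z n k = lam G * n - 0 := by
    rw [hT2 k, ItemREV.cw_muv hT, ItemRSE.cw_omv_k hTh z]
    ring
  have hT2'' : ∀ t, ∃ e : ℝ, 0 ≤ e ∧ e ≤ n / 1000 ∧
      (lam G + siz g t) * tv g z n t = lam G * n - e := by
    intro t
    by_cases ht : t = k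
    · subst ht
      exact ⟨0, le_rfl, by positivity, hT2k⟩
    · refine ⟨nbn G g w t * z w + z u, by positivity, ?_, hT2' t ht⟩
      have h1 : (nbn G g w t : ℝ) * z w ≤ (n / 144) * (1 / 50) :=
        mul_le_mul ((hdt t).trans (by linarith)) hzw50 hzw.le (by positivity)
      linarith
  have hTd : ∀ s t, siz g s < siz g t → 1 / 4 ≤ tv g z n s - tv g z n t := by
    intro s t hst
    obtain ⟨es, -, hes, h1⟩ := hT2'' s
    obtain ⟨et, het, -, h2⟩ := hT2'' t
    have h3 : (siz g s : ℝ) + 1 ≤ siz g t := by exact_mod_cast hst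
    exact ItemRSE.diffT hn300 hlam1 (by have : (0 : ℝ) ≤ siz g s := Nat.cast_nonneg _; linarith)
      (by linarith) (hsb t) hes het h1 h2
  refine ⟨?_, ?_, ?_⟩
  · -- the largest class
    intro i
    by_contra hlt
    push Not at hlt
    classical
    have hki : k ≠ i := fun h => by rw [h] at hlt; exact lt_irrefl _ hlt
    have hik : i ≠ k := hki.symm
    obtain ⟨H, A, v', hA, hAc, hv', hI, hmH, hHwu, hHl, hlamH, hHw, hHu⟩ :=
      ItemRII.comb hRMB hMEM hr hM hTh hki hs1 (by have := hroom i k; omega)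
    have hmain := hSWY r V G H z g w u n hB.indep hmiss hI hmH hgw hgu hwu hHwu hHl hz hlpos
      (fun t => (hsl2 t).le) hlamH
    rw [ItemRII.sum_light (fun x => cov G g z x ^ 2 + cov G g z x * omv G g z x) hT.out hwu]
      at hmain
    have how : omv G g z w = z u := ItemRII.omv_w z hT.out hT.uw.symm
    have hou : omv G g z u = z w :=
      ItemRII.omv_w z (fun y => by rw [hT.out y]; exact or_comm) hT.uw
    rw [how, hou] at hmain
    have hdiff := hTd k i hlt
    set θ : ℝ := (tv g z n i + z w + z u) / lam G with hθ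
    set δ : ℝ := 1 / (8 * lam G) with hδ
    have hδL : lam G * δ = 1 / 8 := by rw [hδ]; field_simp
    have hyi : ∀ x, g x = some i → z x ≤ θ := by
      intro x hx
      rw [hθ, le_div_iff₀ hlpos, mul_comm, hT1 x i hx]
      have h1 : (if G.Adj x w then z w else 0) ≤ z w := by
        split_ifs
        exacts [le_rfl, hzw.le]
      have h2 : (if G.Adj x u then z u else 0) ≤ z u := by
        split_ifs
        exacts [le_rfl, hzu.le]
      linarith
    have hyk : ∀ x, g x = some k → θ + δ ≤ z x := by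
      intro x hx
      have h2 : lam G * (θ + δ) ≤ lam G * z x := by
        rw [mul_add, hδL, hT1 x k hx, hθ, mul_div_cancel₀ _ hlpos.ne']
        have h1 : 0 ≤ (if G.Adj x w then z w else 0) := by
          split_ifs
          exacts [hzw.le, le_rfl]
        have h2 : 0 ≤ (if G.Adj x u then z u else 0) := by
          split_ifs
          exacts [hzu.le, le_rfl]
        linarith
      exact le_of_mul_le_mul_left h2 hlpos
    have hcw := ItemRII.cov_w z hA (fun x hx => ItemRII.nbn_zero hTh.ni x hx) hHw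
    have hGa : G.Adj u (v i) :=
      (hT.un (v i) (by rw [hT.hv i hik]; simp)).2 ⟨i, hik, rfl⟩
    have hGb : ¬ G.Adj u v' := by
      intro hadj
      obtain ⟨t, ht, h1⟩ := (hT.un v' (by rw [hv']; simp)).1 hadj
      have h2 := hT.hv t ht
      rw [← h1, hv'] at h2
      exact ht (Option.some_injective _ h2).symm
    have hne : v i ≠ v' := by
      intro he
      rw [he] at hGa
      exact hGb hGa
    have hcu := ItemRII.cov_u z (by rw [hT.hv i hik]; simp) (by rw [hv']; simp) hne hGa hGb hHu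
    have hδ0 : 0 < δ := by rw [hδ]; positivity
    have hCu' : cov G g z u ≤ cov H g z u := by
      rw [hcu]
      have h1 := hyk v' hv'
      have h2 := hyi (v i) (hT.hv i hik)
      linarith
    have hd1 : 1 ≤ nbn G g w i := hTh.pos i hik
    have hd1' : (1 : ℝ) ≤ (nbn G g w i : ℝ) := by exact_mod_cast hd1
    have hCw' : cov G g z w + δ ≤ cov H g z w := by
      rw [hcw]
      have h1 : (nbn G g w i : ℝ) * (θ + δ) ≤ ∑ x ∈ A, z x := by
        rw [← hAc, ← nsmul_eq_mul]
        exact Finset.card_nsmul_le_sum _ _ _ fun x hx => hyk x (hA x hx)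
      have h2 : ∑ x ∈ univ.filter (fun x => g x = some i ∧ G.Adj w x), z x
          ≤ (nbn G g w i : ℝ) * θ := by
        rw [ItemRII.nbn_card G g w i, ← nsmul_eq_mul]
        exact Finset.sum_le_card_nsmul _ _ _ fun x hx => hyi x (Finset.mem_filter.1 hx).2.1
      have h3 : δ ≤ (nbn G g w i : ℝ) * δ := le_mul_of_one_le_left hδ0.le hd1'
      linarith
    have hcov0 : ∀ x, 0 ≤ cov G g z x := fun x => by
      unfold cov
      exact Finset.sum_nonneg fun y _ => by split_ifs; exacts [hz.nonneg y, le_rfl]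
    have hCw : 1 / 2 ≤ cov G g z w := by
      obtain ⟨y, hy1, hy2⟩ := ItemRII.nbn_pos hd1
      have hy3 : g y ≠ none := by rw [hy1]; simp
      have h4 : z y ≤ cov G g z w := by
        unfold cov
        have h5 := Finset.single_le_sum
          (f := fun x => if g x ≠ none ∧ G.Adj w x then z x else 0)
          (fun x _ => by split_ifs; exacts [hz.nonneg x, le_rfl]) (Finset.mem_univ y)
        simpa [hy3, hy2] using h5
      exact (hzc y hy3).trans h4
    have hew : lam G * z w = cov G g z w + z u := by rw [ItemRII.eig_split hz w, how]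
    have heu : lam G * z u = cov G g z u + z w := by rw [ItemRII.eig_split hz u, hou]
    exact ItemRSE.numer hlpos hCw (hcov0 u) hCw' hCu' hew heu hzw.le hzu.le hzw50 hzuC hnpos hC
      hlam3 (by linarith) hmain
  · refine ⟨t1, ⟨ht1, hw1⟩, ?_⟩
    rintro t2 ⟨ht2, hw2⟩
    by_contra hne21
    have h12 : t1 ≠ t2 := fun h => hne21 h.symm
    obtain ⟨y', hy', hwy'⟩ : ∃ y', g y' = some t2 ∧ G.Adj w y' :=
      ItemRII.nbn_pos (hTh.pos t2 ht2)
    have hne : u ≠ y' := fun h => by rw [← h, hgu] at hy'; exact absurd hy' (by simp)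
    have hy'v : y' ≠ v t2 := fun h => hw2 (by rw [← h]; exact hwy')
    have huy' : ¬ G.Adj y' u := fun h => hy'v ((hun y' t2 hy' ht2).1 h)
    have huy : G.Adj u (v t2) := (hT.un _ (by rw [hT.hv t2 ht2]; simp)).2 ⟨t2, ht2, rfl⟩
    have hle := ItemREV.mem' hMEM hr hM hTh hs1 ht1 ht2 h12 hw1 hy' hne
    have e1 := hT1 y' t2 hy'
    have e2 := hT1 (v t2) t2 (hT.hv t2 ht2)
    rw [if_pos hwy'.symm, if_neg huy'] at e1
    rw [if_neg (fun h => hw2 h.symm), if_pos huy.symm] at e2
    have hadj : adj G (v t2) y' = 0 := by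
      unfold adj
      rw [if_neg]
      intro h
      rw [hT.core _ _ (by rw [hT.hv t2 ht2]; simp) (by rw [hy']; simp), hT.hv t2 ht2, hy'] at h
      exact h rfl
    have hlt := hMVE V G (ItemEXC2.mv G u (v t2) y' hne) z u (v t2) y' hz.nonneg hz.eig hlpos hzu
      hne huy (fun h => huy' h.symm) (fun a b => ItemEXC2.mv_adj _ _ hne a b) (by
        rw [hadj, mul_zero]
        have : lam G * (z y' - z (v t2)) + z u = z w := by
          rw [mul_sub, e1, e2]; ring
        rw [this]
        exact hzw)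
    exact absurd hlt (not_lt.2 hle)
  · -- the basic move
    have basic : ∀ s l, s ≠ k → l ≠ k → s ≠ l → 2 ≤ nbn G g w s →
        z w / lam G < tv g z n l - tv g z n s → False := by
      intro s l hsk hlk hsl' hs2 hlt0
      obtain ⟨y, hy, hwy, hyk⟩ := EVF2.ex_nbr (v s) hs2
      obtain ⟨y', hy', hwy', hyl⟩ := EVF2.ex_non (G := G) (f := g) (w := w) (l := l) (v l)
        (hroom l l)
      have hne : w ≠ y' := fun h => by rw [← h, hgw] at hy'; exact absurd hy' (by simp)
      have hle := ItemREV.mem hMEM hr hM hTh hs1 hsk hlk hy hwy hs2 hy' hwy' hyl hne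
      have e1 := hT1 y s hy
      have e2 := hT1 y' l hy'
      rw [if_pos hwy.symm, if_neg (fun h => hyk ((hun y s hy hsk).1 h))] at e1
      rw [if_neg (fun h => hwy' h.symm), if_neg (fun h => hyl ((hun y' l hy' hlk).1 h))] at e2
      have hadj : adj G y y' = 1 := by
        unfold adj
        rw [if_pos]
        rw [hT.core _ _ (by rw [hy]; simp) (by rw [hy']; simp), hy, hy']
        intro h
        exact hsl' (Option.some.inj h)
      have hlt := hMVE V G (EVF2.mv G w y y' hne) z w y y' hz.nonneg hz.eig hlpos hzw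
        hne hwy hwy' (fun a b => ItemREV.mv_iff hne a b) (by
          rw [hadj, mul_one]
          have : lam G * (z y' - z y) + z w = tv g z n l - tv g z n s := by
            rw [mul_sub, e1, e2]; ring
          rw [this]
          exact hlt0)
      exact absurd hlt (not_lt.2 hle)
    intro s t hsi hti
    constructor
    · intro hst
      by_contra hc
      push Not at hc
      have hst' : s ≠ t := by
        intro h; rw [h] at hc; omega
      refine basic s t hsi hti hst' (by omega) ?_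
      have e1 := hT2' s hsi
      have e2 := hT2' t hti
      rw [hst] at e1
      have hsz := hsl2 t
      have hsz0 : (0 : ℝ) ≤ siz g t := Nat.cast_nonneg _
      have e3 : (lam G + siz g t) * (tv g z n t - tv g z n s) =
          ((nbn G g w s : ℝ) - nbn G g w t) * z w := by
        rw [mul_sub, e1, e2]; ring
      have e4 : (2 : ℝ) ≤ (nbn G g w s : ℝ) - nbn G g w t := by
        have : ((nbn G g w t + 2 : ℕ) : ℝ) ≤ nbn G g w s := by exact_mod_cast (by omega)
        push_cast at this
        linarith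
      rw [div_lt_iff₀ hlpos]
      have e5 : 2 * z w ≤ (lam G + siz g t) * (tv g z n t - tv g z n s) := by
        rw [e3]
        gcongr
      have e6 : 0 < tv g z n t - tv g z n s := by
        by_contra h
        push Not at h
        nlinarith
      nlinarith
    · intro hst
      by_contra hc
      have hst' : s ≠ t := by
        intro h; rw [h] at hst; omega
      have hp := hTh.pos s hsi
      refine basic s t hsi hti hst' (by omega) ?_
      have e1 := hTd t s hst
      have e4 : z w / lam G ≤ 1 / 50 := by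
        rw [div_le_iff₀ hlpos]
        have h4 : 1 ≤ lam G := by linarith
        linarith
      linarith

end MP0c3a8f

end

section

/-!
# MP_0c3a8f_co: item TRI (a star is better than a triangle)
-/

open Finset

namespace MP0c3a8f

namespace ItemTRI

/-- the deviation from the main term is `O(u^2)` -/
theorem real_dev (K u l a ω P P3 P' X e : ℝ) (hK : 0 ≤ K) (hu : 0 < u) (hu1 : 1024 * u ≤ 1)
    (hKu : K * u ≤ 1) (hl1 : 1 ≤ 2 * (l * u)) (ha1 : u ≤ 2 * a) (ha2 : a ≤ 2 * u)
    (hla : l * a ≤ 1) (hω0 : 0 < ω) (hω : ω ≤ K * u ^ 2) (hP0 : 0 ≤ P) (hP : P ≤ 2 * u)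
    (hQ0 : 0 ≤ P3) (hQ : P3 ≤ 2 * u) (he0 : 0 ≤ e) (he1 : e ≤ 1)
    (e1 : l * P = l * a + (1 - a) * ω - (1 - a) * (P + P3))
    (e2 : l * P3 = l * a - 2 * (1 - a) * P - a * ω + e * ω)
    (e3 : l * P' = l * a + (1 - a) * ω - (1 - a) * X)
    (e4 : l * X = 3 * (l * a) + 5 * (a * P') - 3 * (a * ω) - 3 * P' + ω) :
    |P - a| ≤ (2 * K + 400) * u ^ 2 ∧ |P3 - a| ≤ (2 * K + 400) * u ^ 2 ∧
    |P' - a| ≤ (2 * K + 400) * u ^ 2 ∧ |X - 3 * a| ≤ (2 * K + 400) * u ^ 2 := by
  have hl : 0 < l := by
    by_contra h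
    push Not at h
    nlinarith
  have ha0 : 0 < a := by linarith
  have hωu : ω ≤ u := by nlinarith
  have key : ∀ A B : ℝ, 0 ≤ B → |l * A| ≤ B → |A| ≤ 2 * u * B := by
    intro A B hB h
    rw [abs_mul, abs_of_pos hl] at h
    have h1 : |A| * 1 ≤ |A| * (2 * (l * u)) := mul_le_mul_of_nonneg_left hl1 (abs_nonneg A)
    nlinarith [mul_le_mul_of_nonneg_left h hu.le]
  -- crude bounds of `P'`, `X`
  have hM : |P'| ≤ 32 * u ∧ |X| ≤ 32 * u := by
    have hp1 : |l * P'| ≤ 1 + ω + |X| := by
      rw [e3]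
      have h1 : |(1 - a) * ω| ≤ ω := by
        rw [abs_mul, abs_of_pos hω0]
        have : |1 - a| ≤ 1 := abs_le.2 ⟨by linarith, by linarith⟩
        nlinarith
      have h2 : |(1 - a) * X| ≤ |X| := by
        rw [abs_mul]
        have : |1 - a| ≤ 1 := abs_le.2 ⟨by linarith, by linarith⟩
        nlinarith [abs_nonneg X]
      have h3 : |l * a| ≤ 1 := abs_le.2 ⟨by nlinarith, hla⟩
      calc |l * a + (1 - a) * ω - (1 - a) * X| ≤ |l * a + (1 - a) * ω| + |(1 - a) * X| := abs_sub _ _
        _ ≤ |l * a| + |(1 - a) * ω| + |(1 - a) * X| := by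
            linarith [abs_add_le (l * a) ((1 - a) * ω)]
        _ ≤ 1 + ω + |X| := by linarith
    have hp2 : |l * X| ≤ 3 + ω + 4 * |P'| := by
      rw [e4]
      have h3 : |3 * (l * a)| ≤ 3 := abs_le.2 ⟨by nlinarith, by linarith⟩
      have h4 : |(5 * a - 3) * P'| ≤ 4 * |P'| := by
        rw [abs_mul]
        have : |5 * a - 3| ≤ 4 := abs_le.2 ⟨by linarith, by linarith⟩
        nlinarith [abs_nonneg P']
      have h5 : |(1 - 3 * a) * ω| ≤ ω := by
        rw [abs_mul, abs_of_pos hω0]
        have : |1 - 3 * a| ≤ 1 := abs_le.2 ⟨by linarith, by linarith⟩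
        nlinarith
      have h6 : 3 * (l * a) + 5 * (a * P') - 3 * (a * ω) - 3 * P' + ω =
        3 * (l * a) + (5 * a - 3) * P' + (1 - 3 * a) * ω := by ring
      rw [h6]
      linarith [abs_add_le (3 * (l * a) + (5 * a - 3) * P') ((1 - 3 * a) * ω),
        abs_add_le (3 * (l * a)) ((5 * a - 3) * P')]
    have k1 := key P' _ (by positivity) hp1
    have k2 := key X _ (by positivity) hp2
    have hX0 := abs_nonneg X
    have hP'0 := abs_nonneg P'
    have hu3 : u ≤ 1 / 1024 := by linarith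
    have m1 : u * |X| ≤ (1 / 1024) * |X| := mul_le_mul_of_nonneg_right hu3 hX0
    have m2 : u * |P'| ≤ (1 / 1024) * |P'| := mul_le_mul_of_nonneg_right hu3 hP'0
    have m3 : u * ω ≤ u * 1 := mul_le_mul_of_nonneg_left (by linarith) hu.le
    have k1' : |P'| ≤ 2 * u + 2 * (u * ω) + 2 * (u * |X|) := by linarith
    have k2' : |X| ≤ 6 * u + 2 * (u * ω) + 8 * (u * |P'|) := by linarith
    constructor <;> linarith
  obtain ⟨hM1, hM2⟩ := hM
  have b1 := abs_le.1 hM1
  have b2 := abs_le.1 hM2
  have hu2 : 0 ≤ u ^ 2 := by positivity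
  have hu3 : u ≤ 1 / 1024 := by linarith
  have fin : ∀ A : ℝ, |l * A| ≤ ω + 200 * u → |A| ≤ (2 * K + 400) * u ^ 2 := by
    intro A h
    have h1 := key A _ (by positivity) h
    have h2 : u * ω ≤ u * (K * u ^ 2) := mul_le_mul_of_nonneg_left hω hu.le
    have h3 : (K * u ^ 2) * u ≤ (K * u ^ 2) * 1 :=
      mul_le_mul_of_nonneg_left (by linarith) (by positivity)
    have h4 : 2 * u * (ω + 200 * u) = 2 * (u * ω) + 400 * u ^ 2 := by ring
    have h5 : (2 * K + 400) * u ^ 2 = 2 * (K * u ^ 2) + 400 * u ^ 2 := by ring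
    rw [h4] at h1
    rw [h5]
    linarith
  have ha3 : a ≤ 1 := by linarith
  have sm : ∀ A : ℝ, |A| ≤ 32 * u → -u ≤ a * A ∧ a * A ≤ u := by
    intro A hA
    have h1 : |a * A| ≤ u := by
      rw [abs_mul, abs_of_pos ha0]
      calc a * |A| ≤ (2 * u) * (32 * u) := mul_le_mul ha2 hA (abs_nonneg _) (by positivity)
        _ = (64 * u) * u := by ring
        _ ≤ 1 * u := mul_le_mul_of_nonneg_right (by linarith) hu.le
        _ = u := one_mul u
    exact abs_le.1 h1
  have haω0 : 0 ≤ a * ω := by positivity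
  have haω : a * ω ≤ 1 * ω := mul_le_mul_of_nonneg_right ha3 hω0.le
  have haP0 : 0 ≤ a * P := by positivity
  have haP : a * P ≤ 1 * P := mul_le_mul_of_nonneg_right ha3 hP0
  have haQ0 : 0 ≤ a * P3 := by positivity
  have haQ : a * P3 ≤ 1 * P3 := mul_le_mul_of_nonneg_right ha3 hQ0
  obtain ⟨haX2, haX1⟩ := sm X hM2
  obtain ⟨haP'2, haP'1⟩ := sm P' hM1
  have heω0 : 0 ≤ e * ω := by positivity
  have heω : e * ω ≤ 1 * ω := mul_le_mul_of_nonneg_right he1 hω0.le
  refine ⟨fin _ ?_, fin _ ?_, fin _ ?_, fin _ ?_⟩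
  · rw [mul_sub, e1]
    rw [abs_le]; constructor <;> linarith
  · rw [mul_sub, e2]
    rw [abs_le]; constructor <;> linarith
  · rw [mul_sub, e3]
    rw [abs_le]; constructor <;> linarith
  · have : l * (X - 3 * a) = 5 * (a * P') - 3 * (a * ω) - 3 * P' + ω := by
      rw [mul_sub, e4]; ring
    rw [this, abs_le]; constructor <;> linarith


/-- the comparison -/
theorem real_core (K u l a ω P P3 P' X e : ℝ) (hK : 0 ≤ K) (hu : 0 < u)
    (hu1 : (1000000 * (K + 1)) * u ≤ 1) (hl1 : 1 ≤ 2 * (l * u))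
    (ha1 : u ≤ 2 * a) (ha2 : a ≤ 2 * u)
    (hla : l * a ≤ 1) (hω0 : 0 < ω) (hω : ω ≤ K * u ^ 2) (hP0 : 0 ≤ P) (hP : P ≤ 2 * u)
    (hQ0 : 0 ≤ P3) (hQ : P3 ≤ 2 * u) (he0 : 0 ≤ e) (he1 : e ≤ 1)
    (e1 : l * P = l * a + (1 - a) * ω - (1 - a) * (P + P3))
    (e2 : l * P3 = l * a - 2 * (1 - a) * P - a * ω + e * ω)
    (e3 : l * P' = l * a + (1 - a) * ω - (1 - a) * X)
    (e4 : l * X = 3 * (l * a) + 5 * (a * P') - 3 * (a * ω) - 3 * P' + ω) :
    0 < (a * (4 * P + 2 * P3 - X - 3 * P')) * (1 + a * (4 * P + 2 * P3 - X - 3 * P'))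
      + (-(a * (4 * P + 2 * P3 - X - 3 * P')) + (2 * P + 2 * P3 - X - P') + 2 * (e * P)) / l
        * ω := by
  have hKu0 : 0 ≤ K * u := by positivity
  have hu5 : 1000000 * (K * u) + 1000000 * u ≤ 1 := by linarith
  have hu3 : 1024 * u ≤ 1 := by linarith
  have hKu : K * u ≤ 1 := by linarith
  obtain ⟨d1, d2, d3, d4⟩ := real_dev K u l a ω P P3 P' X e hK hu hu3 hKu hl1 ha1 ha2 hla hω0 hω
    hP0 hP hQ0 hQ he0 he1 e1 e2 e3 e4
  set D := (2 * K + 400) * u ^ 2 with hD
  have hl : 0 < l := by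
    by_contra h
    push Not at h
    have : l * u ≤ 0 := mul_nonpos_of_nonpos_of_nonneg h hu.le
    linarith
  have ha0 : 0 < a := by linarith
  -- `D` is small
  have hDu : 1000 * D ≤ u := by
    have : 1000 * D = (2000 * (K * u) + 400000 * u) * u := by rw [hD]; ring
    rw [this]
    calc (2000 * (K * u) + 400000 * u) * u ≤ 1 * u :=
          mul_le_mul_of_nonneg_right (by linarith) hu.le
      _ = u := one_mul u
  have hD0 : 0 ≤ D := by positivity
  have hωD : ω ≤ D := by
    have : D = 2 * (K * u ^ 2) + 400 * u ^ 2 := by rw [hD]; ring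
    rw [this]
    have : 0 ≤ K * u ^ 2 := by positivity
    nlinarith [sq_nonneg u]
  have hau : a ^ 2 * 100 ≤ D := by
    have h1 : a ^ 2 ≤ (2 * u) ^ 2 := pow_le_pow_left₀ ha0.le ha2 2
    have : D = 2 * (K * u ^ 2) + 400 * u ^ 2 := by rw [hD]; ring
    rw [this]
    have : 0 ≤ K * u ^ 2 := by positivity
    linarith
  have b1 := abs_le.1 d1
  have b2 := abs_le.1 d2
  have b3 := abs_le.1 d3
  have b4 := abs_le.1 d4
  have ha3 : a ≤ 1 / 1000 := by linarith
  have heω0 : 0 ≤ e * ω := by positivity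
  have heω : e * ω ≤ 1 * ω := mul_le_mul_of_nonneg_right he1 hω0.le
  have heP0 : 0 ≤ e * P := by positivity
  -- products with `a`
  have pr : ∀ A c : ℝ, |A - c * a| ≤ D → a * A ≤ c * a ^ 2 + D / 500 ∧
      c * a ^ 2 - D / 500 ≤ a * A := by
    intro A c h
    have h0 := abs_le.1 h
    have h1 : a * (A - c * a) ≤ a * D := mul_le_mul_of_nonneg_left h0.2 ha0.le
    have h2 : a * -D ≤ a * (A - c * a) := mul_le_mul_of_nonneg_left h0.1 ha0.le
    have h3 : a * D ≤ (1 / 1000) * D := mul_le_mul_of_nonneg_right ha3 hD0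
    have h4 : a * (A - c * a) = a * A - c * a ^ 2 := by ring
    rw [h4] at h1 h2
    have h5 : a * -D = -(a * D) := by ring
    rw [h5] at h2
    constructor <;> linarith
  obtain ⟨p1, p1'⟩ := pr P 1 (by rw [one_mul]; exact d1)
  obtain ⟨p2, p2'⟩ := pr P3 1 (by rw [one_mul]; exact d2)
  obtain ⟨p3, p3'⟩ := pr P' 1 (by rw [one_mul]; exact d3)
  obtain ⟨p4, p4'⟩ := pr X 3 d4
  have haω0 : 0 ≤ a * ω := by positivity
  -- `l V`
  have hV : l * (3 * X + 3 * P' - 8 * P - 4 * P3) = 15 * (a * P') - 9 * P' - 3 * X + 3 * (a * X)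
      + 16 * P - 16 * (a * P) + 8 * P3 - 8 * (a * P3) - (2 * ω + 4 * (e * ω)) := by
    linear_combination 3 * e4 + 3 * e3 - 8 * e1 - 4 * e2
  have hV1 : 6 * a - 60 * D ≤ l * (3 * X + 3 * P' - 8 * P - 4 * P3) := by
    rw [hV]; linarith
  -- `l^2 (U - W)`
  have hUW : l * (4 * P + 2 * P3 - X - 3 * P') = (1 - a) * (3 * X + 3 * P' - 8 * P - 4 * P3)
      - 2 * (a * P') + 2 * (e * ω) := by
    linear_combination 4 * e1 + 2 * e2 - e4 - 3 * e3
  have hlD : l * (a * D) ≤ D := by
    have : l * (a * D) = (l * a) * D := by ring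
    rw [this]
    calc (l * a) * D ≤ 1 * D := mul_le_mul_of_nonneg_right hla hD0
      _ = D := one_mul D
  have hUW2 : 3 * a ≤ l * (l * (4 * P + 2 * P3 - X - 3 * P')) := by
    rw [hUW]
    have h1 : l * ((1 - a) * (3 * X + 3 * P' - 8 * P - 4 * P3) - 2 * (a * P') + 2 * (e * ω)) =
        (1 - a) * (l * (3 * X + 3 * P' - 8 * P - 4 * P3)) - 2 * (l * (a * P'))
          + 2 * (l * (e * ω)) := by ring
    rw [h1]
    have h2 : (1 - a) * (6 * a - 60 * D) ≤ (1 - a) * (l * (3 * X + 3 * P' - 8 * P - 4 * P3)) :=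
      mul_le_mul_of_nonneg_left hV1 (by linarith)
    have h3 : 0 ≤ l * (e * ω) := by positivity
    have h4 : l * (a * P') ≤ a + D := by
      have : l * (a * P') ≤ l * (a * (a + D)) :=
        mul_le_mul_of_nonneg_left (mul_le_mul_of_nonneg_left (by linarith) ha0.le) hl.le
      have h5 : l * (a * (a + D)) = (l * a) * (a + D) := by ring
      have h6 : (l * a) * (a + D) ≤ 1 * (a + D) :=
        mul_le_mul_of_nonneg_right hla (by linarith)
      linarith
    have h7 : (1 - a) * (6 * a - 60 * D) = 6 * a - 60 * D - 6 * a ^ 2 + 60 * (a * D) := by ring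
    have h8 : 0 ≤ a * D := by positivity
    linarith
  -- `l Y`
  have hY : l * (2 * P + 2 * P3 - X - P') = -6 * P + 6 * (a * P) - 2 * P3 + 2 * (a * P3)
      + 3 * P' + X - a * X - 5 * (a * P') + 2 * (e * ω) := by
    linear_combination 2 * e1 + 2 * e2 - e4 - e3
  have hY1 : -(3 * a) ≤ l * (2 * P + 2 * P3 - X - P') := by
    rw [hY]; linarith
  -- conclusion
  set θ := a * (4 * P + 2 * P3 - X - 3 * P') with hθ
  have hθ2 : 3 * a ^ 2 ≤ l ^ 2 * θ := by
    have h1 : l ^ 2 * θ = a * (l * (l * (4 * P + 2 * P3 - X - 3 * P'))) := by rw [hθ]; ring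
    rw [h1]
    have h2 : a * (3 * a) ≤ a * (l * (l * (4 * P + 2 * P3 - X - 3 * P'))) :=
      mul_le_mul_of_nonneg_left hUW2 ha0.le
    linarith
  have hθ0 : 0 < θ := by
    by_contra h
    push Not at h
    have : l ^ 2 * θ ≤ 0 := mul_nonpos_of_nonneg_of_nonpos (by positivity) h
    have : 0 < a ^ 2 := by positivity
    linarith
  have hfin : 0 < l ^ 2 * (θ * (1 + θ)) + (l * (-θ + (2 * P + 2 * P3 - X - P') + 2 * (e * P))) * ω := by
    have h1 : l * (-θ + (2 * P + 2 * P3 - X - P') + 2 * (e * P)) * ω =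
      -(l * θ * ω) + (l * (2 * P + 2 * P3 - X - P')) * ω + 2 * (l * (e * P) * ω) := by ring
    rw [h1]
    have h2 : -(3 * a) * ω ≤ (l * (2 * P + 2 * P3 - X - P')) * ω :=
      mul_le_mul_of_nonneg_right hY1 hω0.le
    have h3 : 0 ≤ l * (e * P) * ω := by positivity
    have h4 : 0 < l ^ 2 * (θ * θ) := by positivity
    have h5 : 2 * (l * θ * ω) ≤ l ^ 2 * θ := by
      have h60 : 1 ≤ l := by
        have : 1 * u ≤ l * u := by linarith
        exact le_of_mul_le_mul_right this hu
      have h6 : 2 * ω ≤ l := by linarith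
      have h7 : (l * θ) * (2 * ω) ≤ (l * θ) * l := mul_le_mul_of_nonneg_left h6 (by positivity)
      linarith
    have h6 : a * ω ≤ a * D := mul_le_mul_of_nonneg_left hωD ha0.le
    have h7 : a * (1000 * D) ≤ a * u := mul_le_mul_of_nonneg_left hDu ha0.le
    have h8 : a * u ≤ a * (2 * a) := mul_le_mul_of_nonneg_left ha1 ha0.le
    have h9 : 0 < a * a := by positivity
    linarith
  have hq : θ * (1 + θ) + (-θ + (2 * P + 2 * P3 - X - P') + 2 * (e * P)) / l * ω =
      (l ^ 2 * (θ * (1 + θ)) + (l * (-θ + (2 * P + 2 * P3 - X - P') + 2 * (e * P))) * ω) / l ^ 2 := by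
    field_simp
  rw [hq]
  exact div_pos hfin (by positivity)


section

variable {V : Type} {r : ℕ} {G : SimpleGraph V} {f : V → Option (Fin r)} {w : V}
  {q : Fin r → V} {x y z : V}

theorem hw (hT : TyT G f w q x y z) : f w = none := (hT.out w).2 rfl

theorem nxy (hT : TyT G f w q x y z) : x ≠ y := fun h => hT.xy (by rw [h])
theorem nyz (hT : TyT G f w q x y z) : y ≠ z := fun h => hT.yz (by rw [h])
theorem nxz (hT : TyT G f w q x y z) : x ≠ z := fun h => hT.xz (by rw [h])

theorem cond (hT : TyT G f w q x y z) (v u : V) :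
    (f v ≠ none ∧ f u ≠ none ∧ f u ≠ f v ∧ ¬ G.Adj v u) ↔
      (v = x ∧ u = y) ∨ (v = x ∧ u = z) ∨ (v = y ∧ u = x) ∨ (v = y ∧ u = z) ∨
      (v = z ∧ u = x) ∨ (v = z ∧ u = y) := by
  constructor
  · rintro ⟨hv, hu, hne, ha⟩
    rw [hT.core v u hv hu] at ha
    by_contra hcon
    push Not at hcon
    obtain ⟨c1, c2, c3, c4, c5, c6⟩ := hcon
    apply ha
    refine ⟨fun h => hne h.symm, ?_, ?_, ?_⟩
    · intro h
      rcases Sym2.eq_iff.1 h with ⟨h1, h2⟩ | ⟨h1, h2⟩
      · exact c1 h1 h2
      · exact c3 h1 h2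
    · intro h
      rcases Sym2.eq_iff.1 h with ⟨h1, h2⟩ | ⟨h1, h2⟩
      · exact c4 h1 h2
      · exact c6 h1 h2
    · intro h
      rcases Sym2.eq_iff.1 h with ⟨h1, h2⟩ | ⟨h1, h2⟩
      · exact c2 h1 h2
      · exact c5 h1 h2
  · have hxy := hT.xy
    have hyz := hT.yz
    have hxz := hT.xz
    have hx := hT.cx
    have hy := hT.cy
    have hz := hT.cz
    rintro (⟨rfl, rfl⟩ | ⟨rfl, rfl⟩ | ⟨rfl, rfl⟩ | ⟨rfl, rfl⟩ | ⟨rfl, rfl⟩ | ⟨rfl, rfl⟩)
    · exact ⟨hx, hy, hxy.symm, fun h => ((hT.core _ _ hx hy).1 h).2.1 rfl⟩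
    · exact ⟨hx, hz, hxz.symm, fun h => ((hT.core _ _ hx hz).1 h).2.2.2 rfl⟩
    · exact ⟨hy, hx, hxy, fun h => ((hT.core _ _ hy hx).1 h).2.1 Sym2.eq_swap⟩
    · exact ⟨hy, hz, hyz.symm, fun h => ((hT.core _ _ hy hz).1 h).2.2.1 rfl⟩
    · exact ⟨hz, hx, hxz, fun h => ((hT.core _ _ hz hx).1 h).2.2.2 Sym2.eq_swap⟩
    · exact ⟨hz, hy, hyz, fun h => ((hT.core _ _ hz hy).1 h).2.2.1 Sym2.eq_swap⟩

variable [Fintype V]

open Classical in
theorem muv_eq (hT : TyT G f w q x y z) (Z : V → ℝ) (v : V) :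
    muv G f Z v = (if v = x then Z y + Z z else 0) + (if v = y then Z x + Z z else 0)
      + (if v = z then Z x + Z y else 0) := by
  have hxy := nxy hT
  have hyz := nyz hT
  have hxz := nxz hT
  have key : ∀ u, (if f v ≠ none ∧ f u ≠ none ∧ f u ≠ f v ∧ ¬ G.Adj v u then Z u else 0) =
      (if u = y then (if v = x then Z y else 0) else 0)
      + (if u = z then (if v = x then Z z else 0) else 0)
      + (if u = x then (if v = y then Z x else 0) else 0)
      + (if u = z then (if v = y then Z z else 0) else 0)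
      + (if u = x then (if v = z then Z x else 0) else 0)
      + (if u = y then (if v = z then Z y else 0) else 0) := by
    intro u
    rw [if_congr (cond hT v u) rfl rfl]
    by_cases h1 : v = x
    · subst h1
      by_cases h2 : u = y
      · subst h2; simp [hxy, hyz, hxz, hxy.symm, hyz.symm, hxz.symm]
      · by_cases h3 : u = z
        · subst h3; simp [hxy, hyz, hxz, hxy.symm, hyz.symm, hxz.symm]
        · simp [h2, h3, hxy, hxz]
    · by_cases h4 : v = y
      · subst h4
        by_cases h2 : u = x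
        · subst h2; simp [hxy, hyz, hxz, hxy.symm, hyz.symm, hxz.symm]
        · by_cases h3 : u = z
          · subst h3; simp [hxy, hyz, hxz, hxy.symm, hyz.symm, hxz.symm]
          · simp [h2, h3, h1, hyz]
      · by_cases h5 : v = z
        · subst h5
          by_cases h2 : u = x
          · subst h2; simp [hxy, hyz, hxz, hxy.symm, hyz.symm, hxz.symm]
          · by_cases h3 : u = y
            · subst h3; simp [hxy, hyz, hxz, hxy.symm, hyz.symm, hxz.symm]
            · simp [h2, h3, h1, h4]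
        · simp [h1, h4, h5]
  unfold muv
  rw [Finset.sum_congr rfl (fun u _ => key u)]
  simp only [Finset.sum_add_distrib, Finset.sum_ite_eq', Finset.mem_univ, if_true]
  split_ifs <;> ring

open Classical in
theorem omv_eq (hT : TyT G f w q x y z) (Z : V → ℝ) (v : V) :
    omv G f Z v = if ∃ t, v = q t then Z w else 0 := by
  unfold omv
  have key : ∀ u, (if f u = none ∧ G.Adj v u then Z u else 0) =
      if u = w then (if ∃ t, v = q t then Z w else 0) else 0 := by
    intro u
    by_cases h : u = w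
    · subst h
      rw [if_pos rfl]
      refine if_congr ?_ rfl rfl
      rw [SimpleGraph.adj_comm, hT.wn]
      exact ⟨fun h => h.2, fun h => ⟨hw hT, h⟩⟩
    · rw [if_neg h, if_neg (fun h1 => h ((hT.out u).1 h1.1))]
  rw [Finset.sum_congr rfl (fun u _ => key u), Finset.sum_ite_eq' Finset.univ w]
  simp

open Classical in
theorem cw_mu (hT : TyT G f w q x y z) (Z : V → ℝ) (t : Fin r) :
    cw (fun v => muv G f Z v) f (some t) = (if f x = some t then Z y + Z z else 0)
      + (if f y = some t then Z x + Z z else 0) + (if f z = some t then Z x + Z y else 0) := by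
  unfold cw
  have key : ∀ v, (if f v = some t then muv G f Z v else 0) =
      (if v = x then (if f x = some t then Z y + Z z else 0) else 0)
      + (if v = y then (if f y = some t then Z x + Z z else 0) else 0)
      + (if v = z then (if f z = some t then Z x + Z y else 0) else 0) := by
    intro v
    rw [muv_eq hT]
    by_cases h1 : v = x
    · subst h1; simp [nxy hT, nxz hT]
    · by_cases h2 : v = y
      · subst h2; simp [nyz hT, h1]
      · by_cases h3 : v = z
        · subst h3; simp [h1, h2]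
        · simp [h1, h2, h3]
  rw [Finset.sum_congr rfl (fun u _ => key u)]
  simp only [Finset.sum_add_distrib, Finset.sum_ite_eq', Finset.mem_univ, if_true]

open Classical in
theorem cw_om (hT : TyT G f w q x y z) (Z : V → ℝ) (t : Fin r) :
    cw (fun v => omv G f Z v) f (some t) = Z w := by
  unfold cw
  have key : ∀ v, (if f v = some t then omv G f Z v else 0) = if v = q t then Z w else 0 := by
    intro v
    rw [omv_eq hT]
    by_cases h : v = q t
    · subst h
      rw [if_pos (hT.hq t), if_pos ⟨t, rfl⟩, if_pos rfl]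
    · rw [if_neg h]
      by_cases h1 : f v = some t
      · rw [if_pos h1, if_neg]
        rintro ⟨s, rfl⟩
        rw [hT.hq s] at h1
        exact h (by rw [Option.some_injective _ h1])
      · rw [if_neg h1]
  rw [Finset.sum_congr rfl (fun u _ => key u), Finset.sum_ite_eq' Finset.univ (q t)]
  simp

open Classical in
theorem eig_w (hT : TyT G f w q x y z) (Z : V → ℝ) :
    ∑ u, adj G w u * Z u = ∑ t, Z (q t) := by
  have hinj : Function.Injective q := by
    intro s t h
    have h1 := hT.hq s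
    rw [h, hT.hq t] at h1
    exact (Option.some_injective _ h1).symm
  have h1 : ∀ u, adj G w u * Z u = if u ∈ Finset.univ.image q then Z u else 0 := by
    intro u
    unfold adj
    by_cases h : ∃ t, u = q t
    · rw [if_pos ((hT.wn u).2 h), one_mul, if_pos]
      obtain ⟨t, rfl⟩ := h
      exact Finset.mem_image_of_mem _ (Finset.mem_univ _)
    · rw [if_neg (fun h1 => h ((hT.wn u).1 h1)), zero_mul, if_neg]
      intro h1
      obtain ⟨t, _, ht⟩ := Finset.mem_image.1 h1
      exact h ⟨t, ht.symm⟩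
  rw [Finset.sum_congr rfl (fun u _ => h1 u), Finset.sum_ite_mem, Finset.univ_inter,
    Finset.sum_image (fun a _ b _ h => hinj h)]

open Classical in
theorem sum_mu (hT : TyT G f w q x y z) (Z : V → ℝ) {i j k : Fin r} (hx : x = q i)
    (hy : y = q j) (hz : f z = some k) :
    ∑ t, muv G f Z (q t) = (Z y + Z z) + (Z x + Z z)
      + (if ∃ t, z = q t then Z x + Z y else 0) := by
  have hinj : Function.Injective q := by
    intro s t h
    have h1 := hT.hq s
    rw [h, hT.hq t] at h1
    exact (Option.some_injective _ h1).symm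
  have key : ∀ t, muv G f Z (q t) = (if t = i then Z y + Z z else 0)
      + (if t = j then Z x + Z z else 0)
      + (if t = k then (if ∃ t, z = q t then Z x + Z y else 0) else 0) := by
    intro t
    rw [muv_eq hT]
    congr 1
    · congr 1
      · refine if_congr ?_ rfl rfl
        rw [hx]; exact hinj.eq_iff
      · refine if_congr ?_ rfl rfl
        rw [hy]; exact hinj.eq_iff
    · by_cases h : q t = z
      · rw [if_pos h, if_pos, if_pos ⟨t, h.symm⟩]
        rw [← h, hT.hq t] at hz
        exact Option.some_injective _ hz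
      · rw [if_neg h]
        by_cases h1 : t = k
        · rw [if_pos h1, if_neg]
          rintro ⟨s, hs⟩
          rw [hs, hT.hq s] at hz
          have := Option.some_injective _ hz
          exact h (by rw [hs, this, h1])
        · rw [if_neg h1]
  rw [Finset.sum_congr rfl (fun u _ => key u)]
  simp only [Finset.sum_add_distrib, Finset.sum_ite_eq', Finset.mem_univ, if_true]

end

/-- the number of the vertices of `L` -/
theorem lc_sum {U : Type} {r : ℕ} (L : Finset U) (f : U → Option (Fin r))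
    (h : ∀ v ∈ L, f v ≠ none) : ∑ t, lc L f t = L.card := by
  classical
  have h1 : ∀ t, lc L f t = (L.filter fun v => f v = some t).card := by
    intro t
    unfold lc
    rw [← Set.ncard_coe_finset]
    congr 1
    ext v
    simp
  rw [Finset.card_eq_sum_card_fiberwise (f := f) (t := Finset.univ) (fun _ _ => by simp),
    Fintype.sum_option]
  have h2 : (L.filter fun v => f v = none).card = 0 := by
    rw [Finset.card_eq_zero, Finset.filter_eq_empty_iff]
    exact fun v hv => h v hv
  rw [h2, zero_add]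
  exact Finset.sum_congr rfl (fun t _ => h1 t)

end ItemTRI

open ItemTRI Classical in
theorem prfTRI : P_statement → FLU_statement → TCG_statement → TVP_statement →
    TRI_statement := by
  intro _ hFLU hTCG hTVP r C hr hC
  obtain ⟨C', n1, hC', hF⟩ := hFLU r C hr hC
  refine ⟨n1 + ⌈1000000 * (4 * (r : ℝ) + 1)⌉₊ + ⌈(6 * C' + 1) ^ 2⌉₊, ?_⟩
  intro V U _ _ G H f f' w x y z w' q q' i j k L' n hn hT hH hfx hfy hfz hxq hyq hNK hsz hsj
    hsk hex hlj hlk hLc
  have hr0 : (3 : ℝ) ≤ r := by exact_mod_cast hr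
  -- size of `n`
  have hn2 : 1000000 * (4 * (r : ℝ) + 1) ≤ n := by
    have h1 : (⌈1000000 * (4 * (r : ℝ) + 1)⌉₊ : ℝ) ≤ n := by
      exact_mod_cast (by omega : ⌈1000000 * (4 * (r : ℝ) + 1)⌉₊ ≤ n)
    exact (Nat.le_ceil _).trans h1
  have hn3 : (6 * C' + 1) ^ 2 ≤ n := by
    have h1 : (⌈(6 * C' + 1) ^ 2⌉₊ : ℝ) ≤ n := by
      exact_mod_cast (by omega : ⌈(6 * C' + 1) ^ 2⌉₊ ≤ n)
    exact (Nat.le_ceil _).trans h1
  have hN : (0 : ℝ) < n := by linarith
  have hsq : 6 * C' + 1 ≤ Real.sqrt n := Real.le_sqrt_of_sq_le hn3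
  have hsqn : Real.sqrt n * Real.sqrt n = n := Real.mul_self_sqrt hN.le
  have hs1 : (1 : ℝ) ≤ Real.sqrt n := by linarith
  have hh : Real.sqrt (Real.sqrt n) ≤ Real.sqrt n := by
    rw [Real.sqrt_le_left (by linarith)]
    nlinarith
  obtain ⟨⟨Z, hZ⟩, hB⟩ := hF V G f n (by omega) hNK
  obtain ⟨hB1, _, hB3, _⟩ := hB Z hZ
  obtain ⟨c1, c2⟩ := hTCG r V G Z f n hNK.indep hZ
  set l := lam G with hl
  have hC'n : C' * Real.sqrt (Real.sqrt n) ≤ n / 6 := by
    have h1 : C' * Real.sqrt (Real.sqrt n) ≤ C' * Real.sqrt n :=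
      mul_le_mul_of_nonneg_left hh hC'
    have h2 : 6 * (C' * Real.sqrt n) ≤ Real.sqrt n * Real.sqrt n := by nlinarith
    linarith
  have hq1 : 2 / 3 ≤ qq r := by
    unfold qq
    have : 1 / (r : ℝ) ≤ 1 / 3 := one_div_le_one_div_of_le (by norm_num) hr0
    linarith
  have hq2 : qq r ≤ 1 := by
    unfold qq
    have : 0 ≤ 1 / (r : ℝ) := by positivity
    linarith
  have hl3 := abs_le.1 hB3
  have hl1 : (n : ℝ) / 2 ≤ l := by nlinarith
  have hl2 : l ≤ 7 * (n : ℝ) / 6 := by nlinarith
  have hlpos : 0 < l := by linarith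
  have hl100 : 100 ≤ l := by linarith
  -- bounds of the vector
  have hzz : ∀ v, f v ≠ none → 1 / 2 ≤ Z v ∧ Z v ≤ 2 := by
    intro v hv
    have h1 := hB1 v hv
    have h2 : C' / Real.sqrt n ≤ 1 / 2 := by
      rw [div_le_div_iff₀ (by linarith) (by norm_num)]
      linarith
    have h3 := abs_le.1 h1
    constructor <;> linarith
  have hij : i ≠ j := fun h => hT.xy (by rw [hfx, hfy, h])
  have hjk : j ≠ k := fun h => hT.yz (by rw [hfy, hfz, h])
  have hik : i ≠ k := fun h => hT.xz (by rw [hfx, hfz, h])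
  -- the common size
  have hs2 : siz f i + siz f j ≤ n := by
    rw [← hNK.tot]
    have : ∑ t ∈ ({i, j} : Finset (Fin r)), siz f t ≤ ∑ t, siz f t :=
      Finset.sum_le_sum_of_subset (Finset.subset_univ _)
    rwa [Finset.sum_pair hij] at this
  have hs3 : 2 * (siz f i : ℝ) ≤ n := by
    rw [hsj] at hs2
    exact_mod_cast (by omega : 2 * siz f i ≤ n)
  set s : ℝ := (siz f i : ℝ) with hs
  have hs0 : 0 ≤ s := by rw [hs]; positivity
  -- normalisation
  set u : ℝ := 1 / n with hu
  have hu0 : 0 < u := by positivity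
  have hnu : (n : ℝ) * u = 1 := by rw [hu]; field_simp
  set a : ℝ := 1 / (l + s) with ha
  have hls : 0 < l + s := by linarith
  have has : a * (l + s) = 1 := by rw [ha]; field_simp
  have ha0 : 0 < a := by positivity
  have hla : l * a ≤ 1 := by nlinarith
  have ha1 : u ≤ 2 * a := by
    have : l + s ≤ 2 * n := by linarith
    rw [hu, ha, mul_one_div, div_le_div_iff₀ hN hls]
    linarith
  have ha2 : a ≤ 2 * u := by
    rw [hu, ha, mul_one_div, div_le_div_iff₀ hls hN]
    linarith
  set P1 := Z x * u with hP1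
  set P2 := Z y * u with hP2
  set P3 := Z z * u with hP3
  set ω := Z w * u with hω
  set e : ℝ := if ∃ t, z = q t then 1 else 0 with he
  set T : Fin r → ℝ := fun t => tv f Z n t * u with hTt
  have he0 : 0 ≤ e := by rw [he]; split_ifs <;> norm_num
  have he1 : e ≤ 1 := by rw [he]; split_ifs <;> norm_num
  -- the equations for `G`
  have sumT : ∑ t, T t = r - 1 := by
    rw [hTt, ← Finset.sum_mul]
    have h1 : ∑ t, tv f Z n t = (r : ℝ) * n - n := by
      unfold tv
      rw [Finset.sum_sub_distrib, hZ.sum]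
      simp
    rw [h1]
    have : ((r : ℝ) * n - n) * u = ((r : ℝ) - 1) * (n * u) := by ring
    rw [this, hnu, mul_one]
  have hTeq : ∀ t, T t * (l + siz f t) = l + ((if f x = some t then P2 + P3 else 0)
      + (if f y = some t then P1 + P3 else 0) + (if f z = some t then P1 + P2 else 0)) - ω := by
    intro t
    have h1 := c2 t
    rw [cw_mu hT, cw_om hT] at h1
    have h2 : T t * (l + siz f t) = ((l + siz f t) * tv f Z n t) * u := by rw [hTt]; ring
    rw [h2, h1]
    have h3 : (l * n + ((if f x = some t then Z y + Z z else 0)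
      + (if f y = some t then Z x + Z z else 0) + (if f z = some t then Z x + Z y else 0)
      - Z w)) * u = l * (n * u) + (((if f x = some t then Z y + Z z else 0) * u
      + (if f y = some t then Z x + Z z else 0) * u
      + (if f z = some t then Z x + Z y else 0) * u) - Z w * u) := by ring
    rw [h3, hnu, mul_one]
    have h4 : ∀ (c : Prop) [Decidable c] (A B : ℝ), (if c then A + B else 0) * u =
        if c then A * u + B * u else 0 := by
      intro c _ A B
      split_ifs <;> ring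
    rw [h4, h4, h4]
    ring
  have omx : omv G f Z x = Z w := by rw [omv_eq hT, if_pos ⟨i, hxq⟩]
  have omy : omv G f Z y = Z w := by rw [omv_eq hT, if_pos ⟨j, hyq⟩]
  have A1 : l * P1 = T i - (P2 + P3) + ω := by
    have h1 := c1 x i hfx
    rw [muv_eq hT, omx, if_pos rfl, if_neg (nxy hT), if_neg (nxz hT)] at h1
    have h2 : l * P1 = (l * Z x) * u := by rw [hP1]; ring
    rw [h2, h1, hTt]; ring
  have A2 : l * P2 = T j - (P1 + P3) + ω := by
    have h1 := c1 y j hfy
    rw [muv_eq hT, omy, if_neg (nxy hT).symm, if_pos rfl, if_neg (nyz hT)] at h1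
    have h2 : l * P2 = (l * Z y) * u := by rw [hP2]; ring
    rw [h2, h1, hTt]; ring
  have A3 : l * P3 = T k - (P1 + P2) + e * ω := by
    have h1 := c1 z k hfz
    rw [muv_eq hT, omv_eq hT, if_neg (nxz hT).symm, if_neg (nyz hT).symm, if_pos rfl] at h1
    have h2 : l * P3 = (l * Z z) * u := by rw [hP3]; ring
    have h3 : (if ∃ t, z = q t then Z w else 0) = e * Z w := by
      rw [he]; split_ifs <;> ring
    rw [h2, h1, h3, hTt]; ring
  have hTi : T i = a * (l + (P2 + P3) - ω) := by
    have h1 := hTeq i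
    rw [hfx, hfy, hfz, if_pos rfl, if_neg (fun h => hij (Option.some_injective _ h).symm),
      if_neg (fun h => hik (Option.some_injective _ h).symm)] at h1
    have h2 : T i = a * (T i * (l + siz f i)) := by
      have : a * (T i * (l + siz f i)) = T i * (a * (l + s)) := by rw [hs]; ring
      rw [this, has, mul_one]
    rw [h2, h1]; ring
  have hTj : T j = a * (l + (P1 + P3) - ω) := by
    have h1 := hTeq j
    rw [hfx, hfy, hfz, if_pos rfl, if_neg (fun h => hij (Option.some_injective _ h)),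
      if_neg (fun h => hjk (Option.some_injective _ h).symm)] at h1
    have h2 : T j = a * (T j * (l + siz f j)) := by
      have : a * (T j * (l + siz f j)) = T j * (a * (l + s)) := by rw [hs, hsj]; ring
      rw [this, has, mul_one]
    rw [h2, h1]; ring
  have hTk : T k = a * (l + (P1 + P2) - ω) := by
    have h1 := hTeq k
    rw [hfx, hfy, hfz, if_pos rfl, if_neg (fun h => hik (Option.some_injective _ h)),
      if_neg (fun h => hjk (Option.some_injective _ h))] at h1
    have h2 : T k = a * (T k * (l + siz f k)) := by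
      have : a * (T k * (l + siz f k)) = T k * (a * (l + s)) := by rw [hs, hsk]; ring
      rw [this, has, mul_one]
    rw [h2, h1]; ring
  have hP12 : P1 = P2 := by
    have h1 : (l - 1 + a) * (P1 - P2) = 0 := by
      rw [hTi] at A1
      rw [hTj] at A2
      linear_combination A1 - A2
    rcases mul_eq_zero.1 h1 with h | h
    · linarith
    · linarith
  -- the equation at `w`
  have hW : l ^ 2 * ω = ((r : ℝ) - 1) + r * ω - 2 * (P1 + P3) - 2 * (e * P1) := by
    have h1 := hZ.eig w
    rw [eig_w hT] at h1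
    have h2 : ∀ t, l * Z (q t) = tv f Z n t - muv G f Z (q t) + Z w := by
      intro t
      have := c1 (q t) t (hT.hq t)
      rwa [omv_eq hT, if_pos ⟨t, rfl⟩] at this
    have h3 : l * (l * Z w) = ∑ t, (tv f Z n t - muv G f Z (q t) + Z w) := by
      rw [← h1, Finset.mul_sum]
      exact Finset.sum_congr rfl (fun t _ => h2 t)
    rw [Finset.sum_add_distrib, Finset.sum_sub_distrib, sum_mu hT Z hxq hyq hfz] at h3
    have h4 : (if ∃ t, z = q t then Z x + Z y else 0) = e * (Z x + Z y) := by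
      rw [he]; split_ifs <;> ring
    rw [h4] at h3
    have h5 : ∑ _t : Fin r, Z w = r * Z w := by simp
    rw [h5] at h3
    have h6 : (∑ t, tv f Z n t) * u = r - 1 := by
      rw [Finset.sum_mul]; exact sumT
    have h7 : l ^ 2 * ω = (l * (l * Z w)) * u := by rw [hω]; ring
    rw [h7, h3]
    have h8 : ((∑ t, tv f Z n t) - (Z y + Z z + (Z x + Z z) + e * (Z x + Z y)) + r * Z w) * u =
      (∑ t, tv f Z n t) * u - (P2 + P3 + (P1 + P3) + e * (P1 + P2)) + r * ω := by
      rw [hP1, hP2, hP3, hω]; ring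
    rw [h8, h6, ← hP12]; ring
  have hPb : ∀ v, f v ≠ none → u / 2 ≤ Z v * u ∧ Z v * u ≤ 2 * u := by
    intro v hv
    have h1 := hzz v hv
    constructor
    · have := mul_le_mul_of_nonneg_right h1.1 hu0.le
      linarith
    · exact mul_le_mul_of_nonneg_right h1.2 hu0.le
  have hω0 : 0 < ω := by
    have h1 := hZ.eig w
    rw [eig_w hT] at h1
    have h2 : 0 < ∑ t, Z (q t) := by
      have h3 : Z (q i) ≤ ∑ t, Z (q t) :=
        Finset.single_le_sum (fun t _ => hZ.nonneg (q t)) (Finset.mem_univ i)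
      have h4 := (hzz (q i) (by rw [hT.hq i]; simp)).1
      linarith
    rw [h1] at h2
    have h3 : 0 < Z w := by
      by_contra h
      push Not at h
      have := mul_nonpos_of_nonneg_of_nonpos hlpos.le h
      linarith
    exact mul_pos h3 hu0
  have hω1 : ω ≤ 4 * r * u ^ 2 := by
    have h1 := hZ.eig w
    rw [eig_w hT] at h1
    have h2 : ∑ t, Z (q t) ≤ 2 * r := by
      have : ∑ t, Z (q t) ≤ ∑ _t : Fin r, (2 : ℝ) :=
        Finset.sum_le_sum (fun t _ => (hzz (q t) (by rw [hT.hq t]; simp)).2)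
      simp at this
      linarith
    rw [h1] at h2
    have h3 : (n / 2 : ℝ) * Z w ≤ l * Z w := mul_le_mul_of_nonneg_right hl1 (hZ.nonneg w)
    have h4 : (n : ℝ) * Z w ≤ 4 * r := by linarith
    have h5 : ω = ((n : ℝ) * Z w) * u ^ 2 := by
      rw [hω]
      have : ((n : ℝ) * Z w) * u ^ 2 = ((n : ℝ) * u) * (Z w * u) := by ring
      rw [this, hnu, one_mul]
    rw [h5]
    exact mul_le_mul_of_nonneg_right h4 (by positivity)
  have hbx := hPb x hT.cx
  have hbz := hPb z hT.cz
  -- the solution for `H`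
  have ha3 : a ≤ 1 / 1000 := by
    have h1 : u * 1000000 ≤ 1 := by
      rw [← hnu, mul_comm (n : ℝ) u]
      exact mul_le_mul_of_nonneg_left (by linarith) hu0.le
    linarith
  set det := l ^ 2 - (1 - a) * (3 - 5 * a) with hdet
  have hdet0 : 0 < det := by
    have h1 : (1 - a) * (3 - 5 * a) ≤ 1 * 3 :=
      mul_le_mul (by linarith) (by linarith) (by linarith) (by norm_num)
    have h2 : (100 : ℝ) ^ 2 ≤ l ^ 2 := pow_le_pow_left₀ (by norm_num) hl100 2
    rw [hdet]
    linarith
  set R1 := l * a + (1 - a) * ω with hR1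
  set R2 := 3 * (l * a) - 3 * (a * ω) + ω with hR2
  set P' := (l * R1 - (1 - a) * R2) / det with hP'
  set X := (l * R2 - (3 - 5 * a) * R1) / det with hX
  have e3 : l * P' = l * a + (1 - a) * ω - (1 - a) * X := by
    have : l * P' + (1 - a) * X = R1 := by
      rw [hP', hX]; field_simp; rw [hdet]; ring
    linarith
  have e4 : l * X = 3 * (l * a) + 5 * (a * P') - 3 * (a * ω) - 3 * P' + ω := by
    have : (3 - 5 * a) * P' + l * X = R2 := by
      rw [hP', hX]; field_simp; rw [hdet]; ring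
    linarith
  have e1 : l * P1 = l * a + (1 - a) * ω - (1 - a) * (P1 + P3) := by
    rw [hTi, ← hP12] at A1
    linear_combination A1
  have e2 : l * P3 = l * a - 2 * (1 - a) * P1 - a * ω + e * ω := by
    rw [hTk, ← hP12] at A3
    linear_combination A3
  have hK1 : 1000000 * (4 * (r : ℝ) + 1) * u ≤ 1 := by
    have h1 := mul_le_mul_of_nonneg_right hn2 hu0.le
    rwa [hnu] at h1
  have hK2 : 1 ≤ 2 * (l * u) := by
    have h1 := mul_le_mul_of_nonneg_right hl1 hu0.le
    have h2 : (n : ℝ) / 2 * u = (n * u) / 2 := by ring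
    rw [h2, hnu] at h1
    linarith
  have hmain := real_core (4 * r) u l a ω P1 P3 P' X e (by positivity) hu0 hK1 hK2 ha1 ha2 hla hω0 hω1 (by linarith) hbx.2 (by linarith) hbz.2 he0 he1 e1 e2 e3 e4
  -- the test vector
  have hlci : ∑ t, lc L' f' t = 3 := by
    rw [lc_sum L' f' (fun v hv => (hH.hL v hv).1), hLc]
  have hlc0 : ∀ t, t ≠ j → t ≠ k → lc L' f' t = 0 := by
    intro t h1 h2
    have : ∑ s ∈ ({t, j, k} : Finset (Fin r)), lc L' f' s ≤ ∑ s, lc L' f' s :=
      Finset.sum_le_sum_of_subset (Finset.subset_univ _)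
    rw [Finset.sum_insert (by simp [h1, h2]), Finset.sum_pair hjk, hlci, hlj, hlk] at this
    omega
  set T' : Fin r → ℝ := fun t => if t = i then a * (l + X - ω) else
    (l + lc L' f' t * P' - ω) / (l + siz f' t) with hT'
  have hpos : ∀ t, 0 < l + (siz f' t : ℝ) := fun t => by positivity
  have T'i : T' i = a * (l + X - ω) := by rw [hT']; simp
  have T'j : T' j = a * (l + 2 * P' - ω) := by
    rw [hT']
    simp only [if_neg hij.symm, hlj]
    rw [hsz j, hsj, ← hs, ha]
    push_cast
    ring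
  have T'k : T' k = a * (l + P' - ω) := by
    rw [hT']
    simp only [if_neg hik.symm, hlk]
    rw [hsz k, hsk, ← hs, ha]
    push_cast
    ring
  have hdiff : ∀ t, T t - T' t = (if t = i then a * (P1 + P3 - X) else 0)
      + (if t = j then a * (P1 + P3 - 2 * P') else 0)
      + (if t = k then a * (2 * P1 - P') else 0) := by
    intro t
    by_cases h1 : t = i
    · rw [h1, if_pos rfl, if_neg hij, if_neg hik, hTi, T'i, ← hP12]; ring
    · by_cases h2 : t = j
      · rw [h2, if_neg hij.symm, if_pos rfl, if_neg hjk, hTj, T'j]; ring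
      · by_cases h3 : t = k
        · rw [h3, if_neg hik.symm, if_neg hjk.symm, if_pos rfl, hTk, T'k, ← hP12]; ring
        · rw [if_neg h1, if_neg h2, if_neg h3]
          have h4 := hTeq t
          rw [hfx, hfy, hfz, if_neg (fun h => h1 (Option.some_injective _ h).symm),
            if_neg (fun h => h2 (Option.some_injective _ h).symm),
            if_neg (fun h => h3 (Option.some_injective _ h).symm)] at h4
          have h5 : T' t = (l - ω) / (l + siz f t) := by
            rw [hT']
            simp only [if_neg h1, hlc0 t h2 h3]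
            rw [hsz t]
            push_cast
            ring
          have h6 : T t = (l - ω) / (l + siz f t) := by
            rw [eq_div_iff (by have := hpos t; rw [hsz t] at this; exact this.ne')]
            linarith
          rw [h5, h6]; ring
  set θ := a * (4 * P1 + 2 * P3 - X - 3 * P') with hθ
  have sumT' : ∑ t, T' t = r - 1 - θ := by
    have h1 : ∑ t, (T t - T' t) = θ := by
      rw [Finset.sum_congr rfl (fun t _ => hdiff t)]
      simp only [Finset.sum_add_distrib, Finset.sum_ite_eq', Finset.mem_univ, if_true]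
      rw [hθ]; ring
    rw [Finset.sum_sub_distrib, sumT] at h1
    linarith
  refine hTVP r U H f' w' q' i L' l ω P' X T' hr hH hex hlpos ?_ ?_ ?_ ?_ ?_
  · intro t ht
    rw [hT']
    simp only [if_neg ht]
    rw [div_mul_cancel₀ _ (hpos t).ne']
  · rw [T'i, hsz i, ← hs]
    have : a * (l + X - ω) * (l + s) = (l + X - ω) * (a * (l + s)) := by ring
    rw [this, has, mul_one]
  · rw [T'i, e3]; ring
  · have h1 : ∀ t, (if t = i then 0 else lc L' f' t * (T' t - P')) =
        (if t = j then 2 * (T' j - P') else 0) + (if t = k then (T' k - P') else 0) := by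
      intro t
      by_cases h1 : t = i
      · rw [h1, if_pos rfl, if_neg hij, if_neg hik]; ring
      · rw [if_neg h1]
        by_cases h2 : t = j
        · rw [h2, if_pos rfl, if_neg hjk, hlj]; push_cast; ring
        · by_cases h3 : t = k
          · rw [h3, if_neg hjk.symm, if_pos rfl, hlk]; push_cast; ring
          · rw [if_neg h2, if_neg h3, hlc0 t h2 h3]; push_cast; ring
    rw [Finset.sum_congr rfl (fun t _ => h1 t)]
    simp only [Finset.sum_add_distrib, Finset.sum_ite_eq', Finset.mem_univ, if_true]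
    rw [T'j, T'k, e4]; ring
  · have h1 : ∑ t, (if t = i then 0 else T' t + ω) = (r - 1 - θ) + r * ω - (T' i + ω) := by
      have h2 : ∀ t, (if t = i then 0 else T' t + ω) =
          (T' t + ω) - (if t = i then T' i + ω else 0) := by
        intro t
        by_cases h : t = i
        · rw [h, if_pos rfl, if_pos rfl]; ring
        · rw [if_neg h, if_neg h]; ring
      rw [Finset.sum_congr rfl (fun t _ => h2 t), Finset.sum_sub_distrib,
        Finset.sum_add_distrib, sumT', Finset.sum_ite_eq' Finset.univ i]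
      simp
    rw [h1, sumT', hW, T'i]
    have h3 : ((r : ℝ) - 1 - ((r : ℝ) - 1 - θ)) * ((r : ℝ) - ((r : ℝ) - 1 - θ)) +
        (l * P' + ((r : ℝ) - 1 - θ + r * ω - (a * (l + X - ω) + ω)) - P' -
          ((r : ℝ) - 1 + r * ω - 2 * (P1 + P3) - 2 * (e * P1))) / l * ω =
        θ * (1 + θ) + (-θ + (2 * P1 + 2 * P3 - X - P') + 2 * (e * P1)) / l * ω := by
      rw [e3]; ring
    rw [h3]
    exact hmain

end MP0c3a8f

end

section

/-!
# MP_0c3a8f_co, PB10, item FIT: the extremal graphs of alternative one are candidates of type `Q`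
-/

open Finset

namespace MP0c3a8f

namespace ItemFIT

theorem nbn_le {V : Type} [Fintype V] {r : ℕ} (G : SimpleGraph V) (g : V → Option (Fin r))
    (w : V) (t : Fin r) : nbn G g w t ≤ siz g t := by
  unfold nbn siz
  exact Set.ncard_le_ncard (fun v hv => hv.1) (Set.toFinite _)

/-- the lower bound for the number of neighbours -/
theorem sum_ge {r : ℕ} (d : Fin r → ℕ) (i j : Fin r) (b : ℕ) (hij : i ≠ j) (hi : d i = 1)
    (hj : d j = 1) (h : ∀ t, t ≠ i → t ≠ j → b ≤ d t) : 2 + (r - 2) * b ≤ ∑ t, d t := by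
  classical
  have h1 : ∑ t, d t = ∑ t ∈ ({i, j} : Finset (Fin r)), d t
      + ∑ t ∈ (Finset.univ \ {i, j} : Finset (Fin r)), d t := by
    rw [add_comm, Finset.sum_sdiff (Finset.subset_univ _)]
  have h2 : ∑ t ∈ ({i, j} : Finset (Fin r)), d t = 2 := by
    rw [Finset.sum_insert (by simp [hij]), Finset.sum_singleton, hi, hj]
  have h3 : (Finset.univ \ {i, j} : Finset (Fin r)).card = r - 2 := by
    rw [Finset.card_sdiff_of_subset (Finset.subset_univ _), Finset.card_univ, Fintype.card_fin,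
      Finset.card_insert_of_notMem (by simp [hij]), Finset.card_singleton]
  have h4 : (r - 2) * b ≤ ∑ t ∈ (Finset.univ \ {i, j} : Finset (Fin r)), d t := by
    rw [← h3, ← smul_eq_mul]
    refine Finset.card_nsmul_le_sum _ _ _ fun t ht => ?_
    have h5 := (Finset.mem_sdiff.1 ht).2
    rw [Finset.mem_insert, Finset.mem_singleton, not_or] at h5
    exact h t h5.1 h5.2
  omega

/-- too many neighbours -/
theorem arith {r n D : ℕ} (hr : 3 ≤ r) (hn : 4 * r ^ 2 + 1 ≤ n) (hX : RX r n D)
    (hD : 2 + (r - 2) * (n / r) ≤ D + 1) : False := by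
  have hr3 : (3 : ℝ) ≤ r := by exact_mod_cast hr
  have hr0 : (0 : ℝ) < r := by linarith
  have hn' : 4 * (r : ℝ) ^ 2 + 1 ≤ n := by exact_mod_cast hn
  have h1 : (n : ℝ) / r - 1 ≤ ((n / r : ℕ) : ℝ) := by
    have h2 : n < r * (n / r + 1) := by
      have := Nat.lt_mul_div_succ n (by omega : 0 < r)
      simpa using this
    have h3 : (n : ℝ) < r * (((n / r : ℕ) : ℝ) + 1) := by exact_mod_cast h2
    have h4 : (n : ℝ) / r < ((n / r : ℕ) : ℝ) + 1 := by
      rw [div_lt_iff₀ hr0]
      linarith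
    linarith
  have h2 : (2 : ℝ) + (r - 2) * ((n / r : ℕ) : ℝ) ≤ D + 1 := by
    have h3 : ((2 + (r - 2) * (n / r) : ℕ) : ℝ) ≤ ((D + 1 : ℕ) : ℝ) := by exact_mod_cast hD
    rw [Nat.cast_add, Nat.cast_mul, Nat.cast_sub (by omega : 2 ≤ r)] at h3
    push_cast at h3
    push_cast
    exact h3
  have h3 : ((r : ℝ) - 2) * ((n : ℝ) / r - 1) ≤ (r - 2) * ((n / r : ℕ) : ℝ) :=
    mul_le_mul_of_nonneg_left h1 (by linarith)
  have h4 := hX.2
  unfold qq at h4
  obtain ⟨s, hs⟩ : ∃ s : ℝ, s = 1 / r := ⟨_, rfl⟩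
  have hs0 : 0 < s := by rw [hs]; positivity
  have hs1 : s ≤ 1 / 3 := by
    rw [hs]
    exact one_div_le_one_div_of_le (by norm_num) hr3
  have hrs : (r : ℝ) * s = 1 := by rw [hs]; field_simp
  have e1 : 2 / (r : ℝ) = 2 * s := by rw [hs]; ring
  have e2 : 1 / (4 * (r : ℝ) ^ 2) = s ^ 2 / 4 := by rw [hs]; field_simp
  have e3 : (n : ℝ) / r = n * s := by rw [hs]; ring
  rw [e1, e2, ← hs] at h4
  rw [e3] at h3
  have e4 : ((r : ℝ) - 2) * (n * s - 1) = n * (1 - 2 * s) - (r - 2) := by
    have : ((r : ℝ) - 2) * (n * s - 1) = n * (r * s) - 2 * n * s - r + 2 := by ring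
    rw [this, hrs]
    ring
  rw [e4] at h3
  have h5 : (n : ℝ) * (1 - 2 * s) - r + 3 ≤ (1 - 2 * s + s ^ 2 / 4) * ((1 - s) * n) := by
    linarith
  have h6 : s / 4 * n ≤ n * (1 - 2 * s) - (1 - 2 * s + s ^ 2 / 4) * ((1 - s) * n) := by
    have h7 : n * (1 - 2 * s) - (1 - 2 * s + s ^ 2 / 4) * ((1 - s) * n) =
        s * (1 - 2 * s - s / 4 * (1 - s)) * n := by ring
    rw [h7]
    have h8 : 1 / 4 ≤ 1 - 2 * s - s / 4 * (1 - s) := by nlinarith
    have h9 : s * (1 / 4) ≤ s * (1 - 2 * s - s / 4 * (1 - s)) :=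
      mul_le_mul_of_nonneg_left h8 hs0.le
    have h10 : (0 : ℝ) ≤ n := Nat.cast_nonneg n
    have h11 := mul_le_mul_of_nonneg_right h9 h10
    linarith
  have h7 : s * n ≤ 4 * (r : ℝ) := by linarith
  have h8 : r * (s * n) ≤ r * (4 * (r : ℝ)) := mul_le_mul_of_nonneg_left h7 hr0.le
  have h9 : (r : ℝ) * (s * n) = n := by rw [← mul_assoc, hrs, one_mul]
  have h10 : (r : ℝ) * (4 * r) = 4 * r ^ 2 := by ring
  linarith

/-- the numbers of edges -/
theorem edges {V U : Type} [Fintype V] [Fintype U] {r : ℕ} (hM : MEM1_statement) (hr : 3 ≤ r)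
    {G : SimpleGraph V} {H : SimpleGraph U} {g : V → Option (Fin r)} {f : U → Option (Fin r)}
    {w p p' : V} {w' p₁ p₁' : U} {i j i' j' : Fin r} (hG : Th1 G g w p p' i j)
    (hH : Th1 H f w' p₁ p₁' i' j') (e : Equiv.Perm (Fin r)) (hs : ∀ t, siz f t = siz g (e t))
    (hd : ∀ t, nbn H f w' t = nbn G g w t) (h2 : ∀ t, 2 ≤ siz g t) :
    (⊤ : SimpleGraph (Fin (r + 1))).Free H ∧ ¬ H.Colorable r ∧ (∀ v, ∃ u, H.Adj v u) ∧
      H.edgeSet.ncard = G.edgeSet.ncard := by
  obtain ⟨-, -, -, h3⟩ := hM r V G g w p p' i j hr hG h2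
  obtain ⟨h4, h5, h6, h7⟩ := hM r U H f w' p₁ p₁' i' j' hr hH (fun t => by rw [hs]; exact h2 _)
  refine ⟨h4, h5, h6, ?_⟩
  have e1 : ∑ t, siz f t = ∑ t, siz g t := by
    rw [Finset.sum_congr rfl fun t _ => hs t]
    exact Equiv.sum_comp e (siz g)
  have e2 : ∑ t, siz f t ^ 2 = ∑ t, siz g t ^ 2 := by
    rw [Finset.sum_congr rfl fun t _ => by rw [hs t]]
    exact Equiv.sum_comp e (fun t => siz g t ^ 2)
  have e3 : ∑ t, nbn H f w' t = ∑ t, nbn G g w t := Finset.sum_congr rfl fun t _ => hd t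
  rw [e1, e2, e3] at h7
  omega

end ItemFIT

open ItemFIT in
theorem prfFIT : P_statement → TPT_statement → QEL_statement → ORQ_statement →
    FAM1_statement → MEM1_statement → REL_statement → FIT_statement := by
  intro _ hT hQ hO hF hM hR r N hr
  obtain ⟨n₁, hT⟩ := hT r N hr
  obtain ⟨n₂, hQ⟩ := hQ r N hr
  obtain ⟨n₃, hO⟩ := hO r N hr
  refine ⟨n₁ + n₂ + n₃ + (4 * r ^ 2 + 1), ?_⟩
  intro V _ G g w n D hn hX hMx hB
  obtain ⟨⟨p, p', i, j, hTh⟩, hBal, hsum⟩ := hT V G g w n D (by omega) hX hMx hB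
  have h2 : ∀ t, 2 ≤ siz g t := by
    intro t
    have h3 : 2 ≤ n / r := by
      rw [Nat.le_div_iff_mul_le (by omega)]
      have : 2 * r ≤ 4 * r ^ 2 := by nlinarith
      omega
    exact h3.trans (hBal.1 t).1
  refine ⟨h2, ?_⟩
  -- the main case
  have key : ∀ (p p' : V) (i j : Fin r), Th1 G g w p p' i j → siz g j ≤ siz g i →
      IsYQ (siz g) G := by
    intro p p' i j hTh hji
    have hq := hQ V G g w p p' i j n _ (by omega) hMx hB hTh
    have hTh' : Th1 G g w p' p j i := ((hR r V G g (Equiv.refl _)).2.2.1 w p p' i j hTh).2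
    have hij : i ≠ j := hTh.ty.ij
    have claim : ∀ k, k ≠ i → k ≠ j → siz g k ≤ siz g j := by
      intro k hki hkj
      by_contra hcon
      rw [not_le] at hcon
      have hj := hBal.1 j
      have hk := hBal.1 k
      by_cases hd : nbn G g w k ≤ siz g j
      · obtain ⟨K, H, f, w', p₁, p₁', hH, hHs, hHd⟩ := hF r
          (fun t => siz g (Equiv.swap j k t)) (nbn G g w) j i hr hij.symm hTh.nj hTh.ni
          (fun t => by
            refine ⟨hTh.pos t, ?_⟩
            by_cases htj : t = j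
            · rw [htj, hTh.nj, Equiv.swap_apply_left]
              have := h2 k
              omega
            · by_cases htk : t = k
              · rw [htk, Equiv.swap_apply_right]
                exact hd
              · rw [Equiv.swap_apply_of_ne_of_ne htj htk]
                exact nbn_le G g w t)
        obtain ⟨h3, h4, h5, h6⟩ := edges hM hr hTh hH (Equiv.swap j k) hHs hHd h2
        have h7 : lam H ≤ lam G := hMx.2 (Fin K) H ⟨h3, by rw [h6]; exact hMx.1.size, h5, h4⟩
        have h8 := hO V (Fin K) G H g f w p' p w' p₁ p₁' j i k n (by omega) hB hTh' hH hkj hki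
          hcon (by rw [hHs, Equiv.swap_apply_left]) (by rw [hHs, Equiv.swap_apply_right])
          (fun t htj htk => by rw [hHs, Equiv.swap_apply_of_ne_of_ne htj htk]) hHd
        exact absurd h8 (not_lt.2 h7)
      · rw [not_le] at hd
        have h3 : ∀ t, t ≠ i → t ≠ j → n / r ≤ nbn G g w t := by
          intro t hti htj
          obtain ⟨h4, h5⟩ := hq k t hki hkj hti htj
          have ht := hBal.1 t
          by_cases hst : siz g k = siz g t
          · have h6 := h4 hst
            omega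
          · have h6 : siz g t < siz g k := by omega
            have h7 := h5 h6 (by have := h2 j; omega)
            omega
        have h4 := sum_ge (nbn G g w) i j (n / r) hij hTh.ni hTh.nj h3
        rw [hsum] at h4
        exact arith hr (by omega) hX h4
    refine ⟨g, w, p, p', i, j, hTh, fun t => rfl, ?_, ?_, hq⟩
    · intro t
      by_cases hti : t = i
      · rw [hti]
      · by_cases htj : t = j
        · rw [htj]
          exact hji
        · exact (claim t hti htj).trans hji
    · intro t hti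
      by_cases htj : t = j
      · rw [htj]
      · exact claim t hti htj
  rcases le_total (siz g j) (siz g i) with h | h
  · exact key p p' i j hTh h
  · exact key p' p j i ((hR r V G g (Equiv.refl _)).2.2.1 w p p' i j hTh).2 h

end MP0c3a8f

end

section

/-!
# MP_0c3a8f_co, item PSN, part 2: the main inequality
-/

set_option autoImplicit false
set_option linter.unusedSectionVars false
set_option linter.unusedVariables false

open Finset

namespace MP0c3a8f

namespace ItemPSN

variable {V : Type} [Fintype V] {r : ℕ}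

theorem MG_TyP {H : SimpleGraph V} {g : V → Option (Fin r)} {w : V} {q : Fin r → V}
    {i : Fin r} {L : Finset V} (hT : TyP H g w q i L) (u v : V) :
    (MG H g).Adj u v ↔ (u = q i ∧ v ∈ L) ∨ (v = q i ∧ u ∈ L) := by
  constructor
  · rintro ⟨h1, h2, h3, h4⟩
    rw [hT.core u v h1 h2] at h4
    by_contra hc
    rw [not_or] at hc
    exact h4 ⟨h3.symm, hc.1, hc.2⟩
  · rintro (⟨rfl, hv⟩ | ⟨rfl, hu⟩)
    · obtain ⟨h1, h2⟩ := hT.hL v hv
      refine ⟨by rw [hT.hq]; simp, h1, by rw [hT.hq]; exact h2, ?_⟩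
      rw [hT.core _ _ (by rw [hT.hq]; simp) h1]
      exact fun h => h.2.1 ⟨rfl, hv⟩
    · obtain ⟨h1, h2⟩ := hT.hL u hu
      refine ⟨h1, by rw [hT.hq]; simp, by rw [hT.hq]; exact fun h => h2 h.symm, ?_⟩
      rw [hT.core _ _ h1 (by rw [hT.hq]; simp)]
      exact fun h => h.2.2 ⟨rfl, hu⟩

theorem qi_notMem {H : SimpleGraph V} {g : V → Option (Fin r)} {w : V} {q : Fin r → V}
    {i : Fin r} {L : Finset V} (hT : TyP H g w q i L) : q i ∉ L := fun h =>
  (hT.hL _ h).2 (hT.hq i)

theorem muv_centre {H : SimpleGraph V} {g : V → Option (Fin r)} {w : V} {q : Fin r → V}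
    {i : Fin r} {L : Finset V} (hT : TyP H g w q i L) (z : V → ℝ) :
    muv H g z (q i) = ∑ u ∈ L, z u := by
  classical
  rw [muv_MG, ← Finset.sum_filter]
  refine Finset.sum_congr ?_ fun _ _ => rfl
  ext u
  rw [mem_filter, MG_TyP hT]
  constructor
  · rintro ⟨-, h | h⟩
    · exact h.2
    · exact absurd h.2 (qi_notMem hT)
  · exact fun h => ⟨mem_univ _, Or.inl ⟨rfl, h⟩⟩

theorem muv_leaf {H : SimpleGraph V} {g : V → Option (Fin r)} {w : V} {q : Fin r → V}
    {i : Fin r} {L : Finset V} (hT : TyP H g w q i L) (z : V → ℝ) {y : V} (hy : y ∈ L) :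
    muv H g z y = z (q i) := by
  classical
  rw [muv_MG, Finset.sum_eq_single (q i)]
  · rw [if_pos ((MG_TyP hT _ _).2 (Or.inr ⟨rfl, hy⟩))]
  · intro u _ hu
    rw [if_neg]
    rw [MG_TyP hT]
    rintro (h | h)
    · exact qi_notMem hT (h.1 ▸ hy)
    · exact hu h.1
  · intro h
    exact absurd (mem_univ _) h

theorem sum_muv {H : SimpleGraph V} {g : V → Option (Fin r)} {w : V} {q : Fin r → V}
    {i : Fin r} {L : Finset V} (hT : TyP H g w q i L) (z : V → ℝ) :
    (∑ u ∈ L, z u) ^ 2 + L.card * z (q i) ^ 2 ≤ ∑ v, muv H g z v ^ 2 := by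
  classical
  have h1 : ∑ v ∈ insert (q i) L, muv H g z v ^ 2 ≤ ∑ v, muv H g z v ^ 2 :=
    Finset.sum_le_sum_of_subset_of_nonneg (subset_univ _) fun _ _ _ => sq_nonneg _
  rw [Finset.sum_insert (qi_notMem hT), muv_centre hT] at h1
  have h2 : ∑ v ∈ L, muv H g z v ^ 2 = L.card * z (q i) ^ 2 := by
    rw [Finset.sum_congr rfl fun v hv => by rw [muv_leaf hT z hv], Finset.sum_const,
      nsmul_eq_mul]
  rwa [h2] at h1

open Classical in
theorem miss_TyP (hM : MEMP_statement) (hr : 3 ≤ r) {H : SimpleGraph V}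
    {g : V → Option (Fin r)} {w : V} {q : Fin r → V}
    {i j : Fin r} {L : Finset V} (hT : TyP H g w q i L) (hL : ∀ v ∈ L, g v = some j)
    (Y : Option (Fin r) → ℝ) :
    miss H (fun v => Y (g v)) g = 2 * L.card * (Y (some i) * Y (some j)) := by
  obtain ⟨-, -, -, -, h5, -, -⟩ := hM r V H g w q i L hr hT
  rw [← h5, ← count_MG, miss_MG, Finset.sum_mul]
  refine Finset.sum_congr rfl fun u _ => ?_
  rw [Finset.sum_mul]
  refine Finset.sum_congr rfl fun v _ => ?_
  by_cases h : (MG H g).Adj u v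
  · rw [if_pos h, if_pos h, one_mul]
    rcases (MG_TyP hT u v).1 h with ⟨rfl, hv⟩ | ⟨rfl, hu⟩
    · rw [hT.hq, hL v hv]
    · rw [hT.hq, hL u hu, mul_comm]
  · rw [if_neg h, if_neg h, zero_mul]

theorem cov_w {G : SimpleGraph V} {g : V → Option (Fin r)} {w : V} {q : Fin r → V}
    (hq : ∀ t, g (q t) = some t) (wn : ∀ v, G.Adj w v ↔ ∃ t, v = q t) (z : V → ℝ) :
    cov G g z w = ∑ t, z (q t) := by
  classical
  have hinj : Function.Injective q := by
    intro s t hst
    have h1 := hq s
    rw [hst, hq t] at h1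
    exact (Option.some_injective _ h1).symm
  unfold cov
  rw [← Finset.sum_filter]
  have h1 : (univ.filter fun u => g u ≠ none ∧ G.Adj w u) = univ.image q := by
    ext u
    rw [mem_filter, mem_image]
    constructor
    · rintro ⟨-, -, h⟩
      obtain ⟨t, rfl⟩ := (wn u).1 h
      exact ⟨t, mem_univ _, rfl⟩
    · rintro ⟨t, -, rfl⟩
      exact ⟨mem_univ _, by rw [hq]; simp, (wn _).2 ⟨t, rfl⟩⟩
  rw [h1, Finset.sum_image fun s _ t _ h => hinj h]

theorem omv_le_w {G : SimpleGraph V} {g : V → Option (Fin r)} {w : V}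
    (out : ∀ v, g v = none ↔ v = w) {z : V → ℝ} (hz : ∀ v, 0 ≤ z v) (v : V) :
    omv G g z v ≤ z w := by
  classical
  unfold omv
  rw [Finset.sum_eq_single w]
  · split_ifs
    · exact le_rfl
    · exact hz w
  · intro u _ hu
    rw [if_neg]
    rintro ⟨h, -⟩
    exact hu ((out u).1 h)
  · intro h
    exact absurd (mem_univ _) h

theorem omv_nonneg' (G : SimpleGraph V) (g : V → Option (Fin r)) {z : V → ℝ}
    (hz : ∀ v, 0 ≤ z v) (v : V) : 0 ≤ omv G g z v := by
  classical
  unfold omv
  exact Finset.sum_nonneg fun u _ => by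
    split_ifs
    · exact hz u
    · exact le_rfl

theorem muv_nonneg' (G : SimpleGraph V) (g : V → Option (Fin r)) {z : V → ℝ}
    (hz : ∀ v, 0 ≤ z v) (v : V) : 0 ≤ muv G g z v := by
  classical
  unfold muv
  exact Finset.sum_nonneg fun u _ => by
    split_ifs
    · exact hz u
    · exact le_rfl

theorem cov_nonneg' (G : SimpleGraph V) (g : V → Option (Fin r)) {z : V → ℝ}
    (hz : ∀ v, 0 ≤ z v) (v : V) : 0 ≤ cov G g z v := by
  classical
  unfold cov
  exact Finset.sum_nonneg fun u _ => by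
    split_ifs
    · exact hz u
    · exact le_rfl

/-- the value at a clean vertex -/
theorem clean_val {G : SimpleGraph V} {g : V → Option (Fin r)} {z : V → ℝ} {n : ℕ}
    (e1 : ∀ v t, g v = some t → lam G * z v = tv g z n t - muv G g z v + omv G g z v)
    {v : V} {t : Fin r} (hv : g v = some t) (hc : Cl G g v) : lam G * z v = tv g z n t := by
  classical
  have h1 : muv G g z v = 0 := by
    rw [muv_MG]
    exact Finset.sum_eq_zero fun u _ => if_neg (hc.1 u)
  have h2 : omv G g z v = 0 := by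
    unfold omv
    exact Finset.sum_eq_zero fun u _ => if_neg fun h => hc.2 u h.1 h.2
  rw [e1 v t hv, h1, h2]
  ring

/-- upper bound for the values -/
theorem val_le {G : SimpleGraph V} {g : V → Option (Fin r)} {w : V} {z : V → ℝ} {n : ℕ}
    (e1 : ∀ v t, g v = some t → lam G * z v = tv g z n t - muv G g z v + omv G g z v)
    (out : ∀ v, g v = none ↔ v = w) (hz : ∀ v, 0 ≤ z v)
    {v : V} {t : Fin r} (hv : g v = some t) : lam G * z v ≤ tv g z n t + z w := by
  have h1 := muv_nonneg' G g hz v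
  have h2 := omv_le_w (G := G) out hz v
  rw [e1 v t hv]
  linarith

/-- the main inequality -/
theorem star (hM : MEMP_statement) (hr : 3 ≤ r) {G H : SimpleGraph V}
    {g : V → Option (Fin r)} {w : V} {q q' : Fin r → V} {i j : Fin r} {L : Finset V}
    {z : V → ℝ} {n : ℕ} {E : ℝ} (hl : 0 < lam G) (hz : ∀ v, 0 ≤ z v)
    (e1 : ∀ v t, g v = some t → lam G * z v = tv g z n t - muv G g z v + omv G g z v)
    (out : ∀ v, g v = none ↔ v = w) (hq : ∀ t, g (q t) = some t)
    (wn : ∀ v, G.Adj w v ↔ ∃ t, v = q t) (hT : TyP H g w q' i L)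
    (hL : ∀ v ∈ L, g v = some j ∧ Cl G g v) (hqc : ∀ t, Cl G g (q' t))
    (hT2 : ∀ t, tv g z n t ≤ 2 * lam G)
    (hS : open Classical in (miss G (fun v => (n : ℝ) - cw z g (g v)) g
        - miss H (fun v => (n : ℝ) - cw z g (g v)) g) / lam G
      + (∑ v, muv H g z v ^ 2 - ∑ v, muv G g z v ^ 2)
      + (cov H g z w ^ 2 - ∑ v, if g v = none then cov G g z v ^ 2 else 0) ≤ E) :
    (miss G (fun v => (n : ℝ) - cw z g (g v)) g
        - 2 * L.card * (tv g z n i * tv g z n j)) / lam G
      + ((L.card : ℝ) ^ 2 * tv g z n j ^ 2 + L.card * tv g z n i ^ 2) / lam G ^ 2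
      - ∑ v, muv G g z v ^ 2
      ≤ E + r * z w / lam G * (4 * r + r * z w / lam G) := by
  classical
  have hl' := hl.ne'
  -- the missing pairs
  have h1 : miss H (fun v => (n : ℝ) - cw z g (g v)) g =
      2 * L.card * (tv g z n i * tv g z n j) :=
    miss_TyP hM hr hT (fun v hv => (hL v hv).1) fun o => (n : ℝ) - cw z g o
  rw [h1] at hS
  -- the sum of the squares
  have hzq : ∀ t, z (q' t) = tv g z n t / lam G := by
    intro t
    rw [eq_div_iff hl', mul_comm]
    exact clean_val e1 (hT.hq t) (hqc t)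
  have hzL : ∀ v ∈ L, z v = tv g z n j / lam G := by
    intro v hv
    rw [eq_div_iff hl', mul_comm]
    exact clean_val e1 (hL v hv).1 (hL v hv).2
  have h2 := sum_muv hT z
  rw [Finset.sum_congr rfl hzL, Finset.sum_const, nsmul_eq_mul, hzq i] at h2
  have h3 : ((L.card : ℝ) * (tv g z n j / lam G)) ^ 2 + L.card * (tv g z n i / lam G) ^ 2 =
      ((L.card : ℝ) ^ 2 * tv g z n j ^ 2 + L.card * tv g z n i ^ 2) / lam G ^ 2 := by
    field_simp
  rw [h3] at h2
  -- the light vertices
  have h4 : (∑ v, if g v = none then cov G g z v ^ 2 else 0) = cov G g z w ^ 2 := by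
    rw [Finset.sum_eq_single w]
    · rw [if_pos ((out w).2 rfl)]
    · intro v _ hv
      rw [if_neg fun h => hv ((out v).1 h)]
    · intro h
      exact absurd (mem_univ _) h
  rw [h4] at hS
  have h5 : cov H g z w = ∑ t, tv g z n t / lam G := by
    rw [cov_w hT.hq hT.wn]
    exact Finset.sum_congr rfl fun t _ => hzq t
  have h6 : cov G g z w ≤ ∑ t, tv g z n t / lam G + r * z w / lam G := by
    rw [cov_w hq wn]
    have h7 : ∀ t, z (q t) ≤ tv g z n t / lam G + z w / lam G := by
      intro t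
      rw [← add_div, le_div_iff₀ hl, mul_comm]
      exact val_le e1 out hz (hq t)
    refine (Finset.sum_le_sum fun t _ => h7 t).trans ?_
    rw [Finset.sum_add_distrib, Finset.sum_const, card_univ, Fintype.card_fin, nsmul_eq_mul,
      mul_div_assoc]
  have h7 : 0 ≤ cov G g z w := cov_nonneg' G g hz w
  set X : ℝ := ∑ t, tv g z n t / lam G with hX
  have hX2 : X ≤ 2 * r := by
    have h8 : ∀ t, tv g z n t / lam G ≤ 2 := by
      intro t
      rw [div_le_iff₀ hl]
      exact hT2 t
    refine (Finset.sum_le_sum fun t _ => h8 t).trans ?_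
    rw [Finset.sum_const, card_univ, Fintype.card_fin, nsmul_eq_mul]
    linarith
  set y : ℝ := r * z w / lam G with hy
  have hy0 : 0 ≤ y := div_nonneg (mul_nonneg (Nat.cast_nonneg _) (hz w)) hl.le
  have h9 : cov H g z w ^ 2 - cov G g z w ^ 2 ≥ -(y * (4 * r + y)) := by
    have h10 : X ^ 2 = cov H g z w ^ 2 := by rw [h5]
    have h11 : cov G g z w ^ 2 ≤ (X + y) ^ 2 := pow_le_pow_left₀ h7 h6 2
    have h12 : y * X ≤ y * (2 * r) := mul_le_mul_of_nonneg_left hX2 hy0
    nlinarith
  linarith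

end ItemPSN

end MP0c3a8f

end
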