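import Pool.Agent.Work.MP_0c3a8f_co.PB.Stmts10
import Pool.Agent.Work.MP_0c3a8f_co.PB.ItemJB
import Pool.Agent.Work.MP_0c3a8f_co.PB.ItemJF1
import Pool.Agent.Work.MP_0c3a8f_co.Bd.B05
import Pool.Agent.Work.MP_0c3a8f_co.Bd.B12

/-! Bundle of small proof modules (one section per former module). -/

section

/-!
# MP_0c3a8f_co, phase B, item JBT: unbalanced parts are worse, transition range
-/

open Finset

namespace MP0c3a8f

namespace ItemJBT

open ItemJB (abs_le_sq tz_cases align adjust even_diff)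

/-- the combinatorial part -/
theorem comb (hD : DEV_statement) (r N n D : ℕ) (hr : 3 ≤ r)
    (hn : r ≤ n) (hlo : 2 * (N : ℝ) + 2 + r ≤ D)
    (hcap : (D : ℝ) + N ≤ (1 - 2 / (r : ℝ)) * n - (r - 2)) (σ a : Fin r → ℕ) (Φ : Finset (Fin r))
    (hσ : ∑ t, σ t = n) (hdev : dev σ ≤ N) (ha : ∀ t, a t ≤ σ t) (hΦ : Φ.card ≤ 2)
    (hΦ1 : ∀ t ∈ Φ, a t ≤ 1) (hΦ2 : ∀ t, t ∉ Φ → 1 ≤ a t) (hsum : |(∑ t, (a t : ℝ)) - D| ≤ N)
    (hlt : ∑ t, tz r n t ^ 2 < ∑ t, σ t ^ 2) :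
    ∃ (π : Equiv.Perm (Fin r)) (a' : Fin r → ℕ), (∀ t ∈ Φ, a' t = a t) ∧
      (∀ t, t ∉ Φ → 1 ≤ a' t) ∧ (∀ t, a' t ≤ tz r n (π t)) ∧
      2 * ∑ t, a' t + ∑ t, σ t ^ 2 = 2 * ∑ t, a t + ∑ t, tz r n t ^ 2 ∧
      (∀ t, (a' t : ℤ) ≤ a t + 2 * N ∧ (a t : ℤ) ≤ a' t + 2 * N) ∧
      2 ≤ ∑ t, ((σ t : ℤ) - tz r n (π t)) ^ 2 ∧
      ∑ t, ((σ t : ℤ) - tz r n (π t)) ^ 2 ≤ ∑ t, (σ t : ℤ) ^ 2 - ∑ t, (tz r n t : ℤ) ^ 2 ∧
      (∑ t, (σ t : ℤ) ^ 2 - ∑ t, (tz r n t : ℤ) ^ 2 ≤ N) := by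
  classical
  have hr1 : 1 ≤ r := by omega
  obtain ⟨hd1, hd2, hd3, hd4, -, -⟩ := hD r n σ hr1 hσ
  obtain ⟨-, -, -, hd5, -, -⟩ := hD r n (tz r n) hr1 hd1
  obtain ⟨π, hπ⟩ := align r n σ hσ hd1
  set τ : Fin r → ℕ := fun t => tz r n (π t) with hτ
  set e : Fin r → ℤ := fun t => (σ t : ℤ) - τ t with he
  have hτn : ∑ t, τ t = n := by
    rw [hτ, Equiv.sum_comp π (fun t => tz r n t)]
    exact hd1
  have hτ2 : ∑ t, (τ t : ℤ) ^ 2 = ∑ t, (tz r n t : ℤ) ^ 2 := by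
    rw [hτ]
    exact Equiv.sum_comp π (fun t => (tz r n t : ℤ) ^ 2)
  have hesum : ∑ t, e t = 0 := by
    rw [he, Finset.sum_sub_distrib]
    have h1 : ∑ t, (τ t : ℤ) = n := by exact_mod_cast hτn
    have h2 : ∑ t, (σ t : ℤ) = n := by exact_mod_cast hσ
    rw [h1, h2, sub_self]
  set P : ℤ := ∑ t, (σ t : ℤ) ^ 2 - ∑ t, (tz r n t : ℤ) ^ 2 with hP
  set Q : ℤ := ∑ t, e t ^ 2 with hQ
  have hPQ : P = 2 * ∑ t, (τ t : ℤ) * e t + Q := by
    rw [hP, hQ, ← hτ2, Finset.mul_sum, ← Finset.sum_add_distrib, ← Finset.sum_sub_distrib]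
    refine Finset.sum_congr rfl fun t _ => ?_
    rw [he]; ring
  have hQP : Q ≤ P := by
    rw [hPQ]
    have : 0 ≤ ∑ t, (τ t : ℤ) * e t := hπ
    linarith
  have hP0 : 0 < P := by
    rw [hP]
    have : ((∑ t, tz r n t ^ 2 : ℕ) : ℤ) < ((∑ t, σ t ^ 2 : ℕ) : ℤ) := by exact_mod_cast hlt
    push_cast at this
    linarith
  have hPN : P ≤ N := by
    have h0 : 0 ≤ dev (tz r n) := Finset.sum_nonneg fun t _ => sq_nonneg _
    have h1 : (P : ℝ) = dev σ - dev (tz r n) := by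
      rw [hd4, hd5, hP]
      push_cast
      ring
    have h2 : (P : ℝ) ≤ N := by rw [h1]; linarith
    exact_mod_cast h2
  have habs : ∀ t, |e t| ≤ e t ^ 2 := fun t => abs_le_sq (e t)
  have hQabs : ∑ t, |e t| ≤ Q := Finset.sum_le_sum fun t _ => habs t
  have hQ2 : 2 ≤ Q := by
    by_contra hcon
    push Not at hcon
    have hne : ∃ t, e t ≠ 0 := by
      by_contra hall
      push Not at hall
      have h0 : P = 0 := by
        rw [hPQ, hQ]
        simp [hall]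
      omega
    obtain ⟨t, ht⟩ := hne
    have h1 : |e t| ≤ 1 := by
      have h2 : |e t| ≤ ∑ s, |e s| := Finset.single_le_sum (fun s _ => abs_nonneg (e s))
        (Finset.mem_univ t)
      linarith
    have h2 : e t + ∑ s ∈ Finset.univ.erase t, e s = 0 := by
      rw [Finset.add_sum_erase _ _ (Finset.mem_univ t)]
      exact hesum
    have h3 : |e t| + ∑ s ∈ Finset.univ.erase t, |e s| ≤ Q := by
      rw [Finset.add_sum_erase _ (fun s => |e s|) (Finset.mem_univ t)]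
      exact hQabs
    have h4 : |∑ s ∈ Finset.univ.erase t, e s| ≤ ∑ s ∈ Finset.univ.erase t, |e s| :=
      Finset.abs_sum_le_sum_abs _ _
    have h5 : ∑ s ∈ Finset.univ.erase t, e s = - e t := by linarith
    rw [h5, abs_neg] at h4
    have h6 : 1 ≤ |e t| := Int.one_le_abs ht
    linarith
  obtain ⟨S, hS⟩ := even_diff σ τ (hσ.trans hτn.symm)
  rw [hτ2] at hS
  change P = 2 * S at hS
  have hS1 : 1 ≤ S := by omega
  have hSN : 2 * S ≤ N := by omega
  have het : ∀ t, |e t| ≤ N := by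
    intro t
    have h2 : |e t| ≤ ∑ s, |e s| := Finset.single_le_sum (fun s _ => abs_nonneg (e s))
      (Finset.mem_univ t)
    linarith
  have hq0 : (0 : ℝ) < r := by exact_mod_cast hr1
  have hτ1 : ∀ t, n / r ≤ τ t := by
    intro t
    rcases tz_cases r n (π t) with h | h
    · exact h.ge
    · rw [hτ]; simp only; omega
  have hnr : 1 ≤ n / r := (Nat.one_le_div_iff (by omega)).2 hn
  set s : Finset (Fin r) := Φᶜ with hs
  have hscard : s.card = r - Φ.card := by rw [hs, Finset.card_compl, Fintype.card_fin]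
  have hsplit : ∀ f : Fin r → ℕ, ∑ t, f t = ∑ t ∈ Φ, f t + ∑ t ∈ s, f t := by
    intro f
    rw [hs, Finset.sum_add_sum_compl]
  have hΦa : ∑ t ∈ Φ, a t ≤ 2 := by
    calc ∑ t ∈ Φ, a t ≤ ∑ _t ∈ Φ, 1 := Finset.sum_le_sum hΦ1
      _ = Φ.card := by simp
      _ ≤ 2 := hΦ
  obtain ⟨S', rfl⟩ : ∃ S' : ℕ, S = S' := ⟨S.toNat, by omega⟩
  rw [abs_le] at hsum
  have hlow : S' + r ≤ ∑ t ∈ s, a t := by
    have h1 := hsplit a
    have h2 : ((∑ t, a t : ℕ) : ℝ) = ((∑ t ∈ Φ, a t : ℕ) : ℝ) + ((∑ t ∈ s, a t : ℕ) : ℝ) := by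
      exact_mod_cast h1
    have h3 : ((∑ t, a t : ℕ) : ℝ) = ∑ t, (a t : ℝ) := by push_cast; rfl
    have h4 : ((∑ t ∈ Φ, a t : ℕ) : ℝ) ≤ 2 := by exact_mod_cast hΦa
    have h5 : (S' : ℝ) ≤ N := by
      have : (S' : ℤ) ≤ N := by omega
      exact_mod_cast this
    have h6 : (S' : ℝ) + r ≤ ((∑ t ∈ s, a t : ℕ) : ℝ) := by linarith
    exact_mod_cast h6
  set A : ℕ := ∑ t ∈ s, a t - S' with hA
  have hAS : A + S' = ∑ t ∈ s, a t := by omega
  have hup : A ≤ ∑ t ∈ s, τ t := by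
    have h1 : (A : ℝ) ≤ D + N := by
      have h2 : (A : ℝ) ≤ ((∑ t, a t : ℕ) : ℝ) := by
        have := hsplit a
        exact_mod_cast (by omega : A ≤ ∑ t, a t)
      have h3 : ((∑ t, a t : ℕ) : ℝ) = ∑ t, (a t : ℝ) := by push_cast; rfl
      linarith
    have h4 : (r - 2) * (n / r) ≤ ∑ t ∈ s, τ t := by
      calc (r - 2) * (n / r) ≤ s.card * (n / r) := by
            apply Nat.mul_le_mul_right
            omega
        _ = ∑ _t ∈ s, n / r := by rw [Finset.sum_const, smul_eq_mul]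
        _ ≤ ∑ t ∈ s, τ t := Finset.sum_le_sum fun t _ => hτ1 t
    have h5 : (n : ℝ) / r - 1 ≤ ((n / r : ℕ) : ℝ) := by
      have h6 : n < (n / r + 1) * r := by
        rw [mul_comm]
        exact Nat.lt_mul_div_succ n (by omega)
      have h7 : (n : ℝ) < (((n / r : ℕ) : ℝ) + 1) * r := by exact_mod_cast h6
      have h8 : (n : ℝ) / r < ((n / r : ℕ) : ℝ) + 1 := by rwa [div_lt_iff₀ hq0]
      linarith
    have h9 : (A : ℝ) ≤ (((r - 2) * (n / r) : ℕ) : ℝ) := by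
      have hc : (((r - 2 : ℕ)) : ℝ) = (r : ℝ) - 2 := by
        rw [Nat.cast_sub (by omega)]; norm_num
      rw [Nat.cast_mul, hc]
      have hr3 : (3 : ℝ) ≤ r := by exact_mod_cast hr
      have h10 : ((r : ℝ) - 2) * ((n : ℝ) / r - 1) ≤ ((r : ℝ) - 2) * ((n / r : ℕ) : ℝ) := by
        apply mul_le_mul_of_nonneg_left h5
        linarith
      refine le_trans ?_ h10
      have h11 : ((r : ℝ) - 2) * ((n : ℝ) / r - 1) = (1 - 2 / (r : ℝ)) * n - (r - 2) := by
        field_simp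
      rw [h11]
      linarith
    have h10 : A ≤ (r - 2) * (n / r) := by exact_mod_cast h9
    exact h10.trans h4
  have hab : ∀ t, (a t : ℤ) ≤ min (a t) (τ t) + |e t| := by
    intro t
    rcases le_total (a t) (τ t) with h | h
    · rw [min_eq_left h]
      have := abs_nonneg (e t)
      omega
    · rw [min_eq_right h]
      have h1 := le_abs_self (e t)
      have h2 : (a t : ℤ) ≤ σ t := by exact_mod_cast ha t
      have h3 : e t = (σ t : ℤ) - τ t := rfl
      linarith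
  obtain ⟨b', hb1, hb2, hb3⟩ := adjust s (fun _ => 1) τ A (by
      rw [Finset.sum_const, smul_eq_mul, mul_one]
      omega) hup N (fun t => min (a t) (τ t)) (by
      intro t ht
      have h1 : 1 ≤ a t := hΦ2 t (by rw [hs, Finset.mem_compl] at ht; exact ht)
      have h2 : 1 ≤ τ t := hnr.trans (hτ1 t)
      exact ⟨le_min h1 h2, min_le_right _ _⟩) (by
      have h1 : ∑ t ∈ s, min (a t) (τ t) ≤ ∑ t ∈ s, a t :=
        Finset.sum_le_sum fun t _ => min_le_left _ _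
      omega) (by
      have h1 : ∑ t ∈ s, (a t : ℤ) ≤ ∑ t ∈ s, (((min (a t) (τ t) : ℕ) : ℤ) + |e t|) := by
        refine Finset.sum_le_sum fun t _ => ?_
        have := hab t
        push_cast at this ⊢
        exact this
      rw [Finset.sum_add_distrib] at h1
      have h2 : ∑ t ∈ s, |e t| ≤ ∑ t, |e t| :=
        Finset.sum_le_sum_of_subset_of_nonneg (Finset.subset_univ s) fun t _ _ => abs_nonneg _
      have h3 : ∑ t ∈ s, (a t : ℤ) = ((∑ t ∈ s, a t : ℕ) : ℤ) := by push_cast; rfl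
      have h4 : ∑ t ∈ s, ((min (a t) (τ t) : ℕ) : ℤ) =
          ((∑ t ∈ s, min (a t) (τ t) : ℕ) : ℤ) := by push_cast; rfl
      rw [h3, h4] at h1
      omega)
  refine ⟨π, fun t => if t ∈ Φ then a t else b' t, ?_, ?_, ?_, ?_, ?_, hQ2, hQP, hPN⟩
  · intro t ht
    simp only [if_pos ht]
  · intro t ht
    simp only [if_neg ht]
    exact (hb1 t (by rw [hs, Finset.mem_compl]; exact ht)).1
  · intro t
    by_cases ht : t ∈ Φ
    · simp only [if_pos ht]
      exact (hΦ1 t ht).trans (hnr.trans (hτ1 t))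
    · simp only [if_neg ht]
      exact (hb1 t (by rw [hs, Finset.mem_compl]; exact ht)).2
  · have h1 : ∑ t, (if t ∈ Φ then a t else b' t) = ∑ t ∈ Φ, a t + A := by
      rw [hsplit]
      congr 1
      · exact Finset.sum_congr rfl fun t ht => if_pos ht
      · rw [← hb2]
        refine Finset.sum_congr rfl fun t ht => if_neg ?_
        rwa [hs, Finset.mem_compl] at ht
    rw [h1]
    have h2 := hsplit a
    have h3 : (∑ t, (σ t : ℤ) ^ 2) = ((∑ t, σ t ^ 2 : ℕ) : ℤ) := by push_cast; rfl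
    have h4 : (∑ t, (tz r n t : ℤ) ^ 2) = ((∑ t, tz r n t ^ 2 : ℕ) : ℤ) := by push_cast; rfl
    rw [hP, h3, h4] at hS
    omega
  · intro t
    by_cases ht : t ∈ Φ
    · simp only [if_pos ht]
      omega
    · simp only [if_neg ht]
      have h1 := hb3 t
      have h2 := hab t
      have h3 := het t
      have h4 : min (a t) (τ t) ≤ a t := min_le_left _ _
      push_cast at h2
      omega

theorem analytic (r : ℕ) (n N x q P Q : ℝ) (σ τ a a' : Fin r → ℝ) (hr : 3 ≤ r) (hn : 0 < n)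
    (hN : 0 ≤ N) (hx : 0 ≤ x) (hx1' : x ≤ 1) (hq : q = 1 - 1 / (r : ℝ))
    (g1 : 5 / (3 * (r : ℝ) ^ 2) ≤ q - x - x / r)
    (hσ : ∑ t, σ t = n) (hτ : ∑ t, τ t = n) (hP : P = 2 * (∑ t, a t - ∑ t, a' t))
    (hQ2 : 2 ≤ Q) (hQP : Q ≤ P) (hPN : P ≤ N)
    (habs : ∑ t, |σ t - τ t| ≤ Q) (ha0 : ∀ t, 0 ≤ a t) (ha0' : ∀ t, 0 ≤ a' t)
    (ha : ∀ t, a t ≤ σ t) (ha' : ∀ t, a' t ≤ τ t) (haa : ∀ t, |a t - a' t| ≤ 2 * N)
    (hτ1 : ∀ t, |τ t - n / r| ≤ 1)
    (hn2 : (r : ℝ) ^ 2 * ((1 + N) * N + 4 * r * N + 6 * N) ≤ n) :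
    2 / (r : ℝ) ^ 2 ≤ (1 - 2 * x) * (∑ t, a t - ∑ t, a' t) + (1 / 2 - 1 / (r : ℝ)) * P
      + 2 * x / r * (∑ t, (r * a t / n) * (σ t - n / r) - ∑ t, (r * a' t / n) * (τ t - n / r))
      + x ^ 2 / (q * r ^ 2) * (∑ t, (r * a t / n) ^ 2 - ∑ t, (r * a' t / n) ^ 2) := by
  have hr0 : (0 : ℝ) < r := by
    have : 0 < r := by omega
    exact_mod_cast this
  have hr3 : (3 : ℝ) ≤ r := by exact_mod_cast hr
  have hq1 : 2 / 3 ≤ q := by
    rw [hq]
    have : 1 / (r : ℝ) ≤ 1 / 3 := one_div_le_one_div_of_le (by norm_num) hr3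
    linarith
  have hq0 : 0 < q := by linarith
  -- third term
  have e3 : 2 * x / r * (∑ t, (r * a t / n) * (σ t - n / r) - ∑ t, (r * a' t / n) * (τ t - n / r))
      = 2 * x / n * (∑ t, a t * (σ t - τ t) + ∑ t, (a t - a' t) * (τ t - n / r)) := by
    rw [← Finset.sum_sub_distrib, ← Finset.sum_add_distrib, Finset.mul_sum, Finset.mul_sum]
    refine Finset.sum_congr rfl fun t _ => ?_
    field_simp
    ring
  have e4 : x ^ 2 / (q * r ^ 2) * (∑ t, (r * a t / n) ^ 2 - ∑ t, (r * a' t / n) ^ 2)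
      = x ^ 2 / (q * n ^ 2) * ∑ t, (a t - a' t) * (a t + a' t) := by
    rw [← Finset.sum_sub_distrib, Finset.mul_sum, Finset.mul_sum]
    refine Finset.sum_congr rfl fun t _ => ?_
    field_simp
    ring
  set M : ℝ := n / r + 1 + N with hM
  have hM0 : 0 ≤ M := by rw [hM]; positivity
  have habsN : ∀ t, |σ t - τ t| ≤ N := by
    intro t
    have h2 : |σ t - τ t| ≤ ∑ s, |σ s - τ s| :=
      Finset.single_le_sum (f := fun s => |σ s - τ s|) (fun s _ => abs_nonneg _)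
        (Finset.mem_univ t)
    linarith
  have haM : ∀ t, a t ≤ M := by
    intro t
    have h1 := (abs_le.1 (hτ1 t)).2
    have h2 := (abs_le.1 (habsN t)).2
    have h3 := ha t
    rw [hM]
    linarith
  have b1 : -(M * Q / 2) ≤ ∑ t, a t * (σ t - τ t) := by
    have h1 : ∀ t, M * ((σ t - τ t) - |σ t - τ t|) / 2 ≤ a t * (σ t - τ t) := by
      intro t
      rcases le_total 0 (σ t - τ t) with h | h
      · rw [abs_of_nonneg h]
        have := mul_nonneg (ha0 t) h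
        linarith
      · rw [abs_of_nonpos h]
        have := mul_le_mul_of_nonpos_right (haM t) h
        linarith
    have h2 := Finset.sum_le_sum (s := Finset.univ) fun t _ => h1 t
    have h3 : ∑ t, M * ((σ t - τ t) - |σ t - τ t|) / 2 = - (M * (∑ t, |σ t - τ t|) / 2) := by
      rw [← Finset.sum_div, ← Finset.mul_sum, Finset.sum_sub_distrib, Finset.sum_sub_distrib,
        hσ, hτ]
      ring
    rw [h3] at h2
    have h4 : M * (∑ t, |σ t - τ t|) ≤ M * Q := mul_le_mul_of_nonneg_left habs hM0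
    linarith
  have b2 : -(2 * N * r) ≤ ∑ t, (a t - a' t) * (τ t - n / r) := by
    have h1 : ∀ t : Fin r, -(2 * N) ≤ (a t - a' t) * (τ t - n / r) := by
      intro t
      have h2 : |(a t - a' t) * (τ t - n / r)| ≤ 2 * N * 1 := by
        rw [abs_mul]
        exact mul_le_mul (haa t) (hτ1 t) (abs_nonneg _) (by linarith)
      have := (abs_le.1 h2).1
      linarith
    have h2 := Finset.sum_le_sum (s := (Finset.univ : Finset (Fin r))) fun t _ => h1 t
    rw [Finset.sum_const, Finset.card_univ, Fintype.card_fin, nsmul_eq_mul] at h2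
    linarith
  have b3 : -(4 * N * n) ≤ ∑ t, (a t - a' t) * (a t + a' t) := by
    have h1 : ∀ t, -(2 * N) * (σ t + τ t) ≤ (a t - a' t) * (a t + a' t) := by
      intro t
      have h2 := (abs_le.1 (haa t)).1
      have h3 : 0 ≤ a t + a' t := add_nonneg (ha0 t) (ha0' t)
      have h4 : a t + a' t ≤ σ t + τ t := add_le_add (ha t) (ha' t)
      have h5 := mul_le_mul_of_nonneg_right h2 h3
      have h6 : -(2 * N) * (σ t + τ t) ≤ -(2 * N) * (a t + a' t) :=
        mul_le_mul_of_nonpos_left h4 (by linarith)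
      exact h6.trans h5
    have h2 := Finset.sum_le_sum (s := (Finset.univ : Finset (Fin r))) fun t _ => h1 t
    rw [← Finset.mul_sum, Finset.sum_add_distrib, hσ, hτ] at h2
    linarith
  rw [e3, e4]
  have c3 : 2 * x / n * (-(M * Q / 2) + -(2 * N * r)) ≤
      2 * x / n * (∑ t, a t * (σ t - τ t) + ∑ t, (a t - a' t) * (τ t - n / r)) := by
    apply mul_le_mul_of_nonneg_left _ (by positivity)
    linarith
  have c4 : x ^ 2 / (q * n ^ 2) * (-(4 * N * n)) ≤
      x ^ 2 / (q * n ^ 2) * ∑ t, (a t - a' t) * (a t + a' t) :=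
    mul_le_mul_of_nonneg_left b3 (by positivity)
  have d3 : 2 * x / n * (-(M * Q / 2) + -(2 * N * r)) =
      -(x * Q / r) - (x * ((1 + N) * Q) + 4 * x * r * N) / n := by
    rw [hM]
    field_simp
    ring
  have d4 : x ^ 2 / (q * n ^ 2) * (-(4 * N * n)) = -(x ^ 2 / q * (4 * N)) / n := by
    field_simp
  have hQN : Q ≤ N := hQP.trans hPN
  have f1 : x * ((1 + N) * Q) ≤ (1 + N) * N := by
    calc x * ((1 + N) * Q) ≤ 1 * ((1 + N) * N) := by gcongr
      _ = _ := one_mul _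
  have f2 : 4 * x * r * N ≤ 4 * r * N := by
    have : x * (4 * r * N) ≤ 1 * (4 * r * N) := by gcongr
    linarith
  have f3 : x ^ 2 / q * (4 * N) ≤ 6 * N := by
    have h1 : x ^ 2 ≤ 1 := pow_le_one₀ hx hx1'
    have h2 : x ^ 2 / q ≤ 3 / 2 := by
      rw [div_le_iff₀ hq0]
      linarith
    calc x ^ 2 / q * (4 * N) ≤ 3 / 2 * (4 * N) := by gcongr
      _ = 6 * N := by ring
  have f4 : (x * ((1 + N) * Q) + 4 * x * r * N + x ^ 2 / q * (4 * N)) / n ≤ 1 / (r : ℝ) ^ 2 := by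
    rw [div_le_div_iff₀ hn (by positivity)]
    have h1 : (x * ((1 + N) * Q) + 4 * x * r * N + x ^ 2 / q * (4 * N)) * (r : ℝ) ^ 2 ≤
        ((1 + N) * N + 4 * r * N + 6 * N) * (r : ℝ) ^ 2 := by
      gcongr
    linarith
  have g2 : 0 ≤ q - x := by
    have h1 : 0 ≤ x / r := by positivity
    have h2 : 0 < 5 / (3 * (r : ℝ) ^ 2) := by positivity
    linarith
  have g3 : (1 - 2 * x) * (∑ t, a t - ∑ t, a' t) + (1 / 2 - 1 / (r : ℝ)) * P = (q - x) * P := by
    rw [hP, hq]; ring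
  have g4 : (q - x) * Q ≤ (q - x) * P := mul_le_mul_of_nonneg_left hQP g2
  have g5 : 5 / (3 * (r : ℝ) ^ 2) * 2 ≤ (q - x - x / r) * Q := by
    have h2 : 0 < 5 / (3 * (r : ℝ) ^ 2) := by positivity
    calc 5 / (3 * (r : ℝ) ^ 2) * 2 ≤ 5 / (3 * (r : ℝ) ^ 2) * Q := by gcongr
      _ ≤ (q - x - x / r) * Q := by
        apply mul_le_mul_of_nonneg_right g1
        linarith
  have g6 : (q - x - x / r) * Q = (q - x) * Q - x * Q / r := by ring
  have g7 : 5 / (3 * (r : ℝ) ^ 2) * 2 = 2 / (r : ℝ) ^ 2 + 1 / (r : ℝ) ^ 2 +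
      1 / (3 * (r : ℝ) ^ 2) := by
    field_simp
    ring
  have g8 : 0 < 1 / (3 * (r : ℝ) ^ 2) := by positivity
  have g9 : (x * ((1 + N) * Q) + 4 * x * r * N + x ^ 2 / q * (4 * N)) / n =
      (x * ((1 + N) * Q) + 4 * x * r * N) / n + (x ^ 2 / q * (4 * N)) / n := by ring
  have g10 : -(x ^ 2 / q * (4 * N)) / n = -((x ^ 2 / q * (4 * N)) / n) := by ring
  rw [d3] at c3
  rw [d4, g10] at c4
  rw [g9] at f4
  rw [g3]
  linarith

end ItemJBT

theorem prfJBT : EXP_statement → DEV_statement → JBT_statement := by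
  intro hE hD r hr
  have hr0 : (0 : ℝ) < r := by
    have : 0 < r := by omega
    exact_mod_cast this
  have hr3 : (3 : ℝ) ≤ r := by exact_mod_cast hr
  have hr9 : (9 : ℝ) ≤ (r : ℝ) ^ 2 := by
    have h1 : (3 : ℝ) * 3 ≤ r * r := mul_le_mul hr3 hr3 (by norm_num) hr0.le
    rw [sq]
    linarith
  have hrr : (r : ℝ) ≤ (r : ℝ) ^ 2 := by
    have h1 : (1 : ℝ) * r ≤ r * r := mul_le_mul_of_nonneg_right (by linarith) hr0.le
    rw [sq]
    linarith
  have hq1 : 2 / 3 ≤ qq r := by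
    unfold qq
    have : 1 / (r : ℝ) ≤ 1 / 3 := one_div_le_one_div_of_le (by norm_num) hr3
    linarith
  have hq0 : 0 < qq r := by linarith
  have hq2 : qq r ≤ 1 := by
    unfold qq
    have : 0 < 1 / (r : ℝ) := by positivity
    linarith
  refine ⟨qq r / (r : ℝ) ^ 2, by positivity, fun N => ?_⟩
  obtain ⟨n₁, hn₁⟩ := hE r (3 * N + r) (qq r / (r : ℝ) ^ 2) hr (by positivity)
  obtain ⟨n₂, hn₂⟩ := exists_nat_ge
    (6 * (2 * (N : ℝ) + 2 + r) + 2 * (r : ℝ) ^ 2 * (N + r))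
  obtain ⟨n₃, hn₃⟩ := exists_nat_ge
    ((r : ℝ) ^ 2 * ((1 + (N : ℝ)) * N + 4 * r * N + 6 * N))
  refine ⟨max n₁ (max n₂ (max n₃ r)), fun n hn D hRX σ a Φ hσ hdev ha hΦ hΦ1 hΦ2 hsum hlt => ?_⟩
  have hnn1 : n₁ ≤ n := (le_max_left _ _).trans hn
  have hnn2 : n₂ ≤ n := (le_max_left _ _).trans ((le_max_right _ _).trans hn)
  have hnn3 : n₃ ≤ n :=
    (le_max_left _ _).trans ((le_max_right _ _).trans ((le_max_right _ _).trans hn))
  have hnr : r ≤ n :=
    (le_max_right _ _).trans ((le_max_right _ _).trans ((le_max_right _ _).trans hn))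
  have hn0 : (0 : ℝ) < n := by
    have : 0 < n := by omega
    exact_mod_cast this
  obtain ⟨hD1, hD2⟩ := hRX
  have hbig : 6 * (2 * (N : ℝ) + 2 + r) + 2 * (r : ℝ) ^ 2 * (N + r) ≤ n :=
    hn₂.trans (by exact_mod_cast hnn2)
  have hN0 : (0 : ℝ) ≤ N := Nat.cast_nonneg N
  have hlo : 2 * (N : ℝ) + 2 + r ≤ D := by
    have h1 : 11 / 36 ≤ 1 - 2 / (r : ℝ) - 1 / (4 * (r : ℝ) ^ 2) := by
      have h2 : 2 / (r : ℝ) ≤ 2 / 3 := div_le_div_of_nonneg_left (by norm_num) (by norm_num) hr3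
      have h3 : 1 / (4 * (r : ℝ) ^ 2) ≤ 1 / 36 := by
        refine one_div_le_one_div_of_le (by norm_num) ?_
        linarith
      linarith
    have h4 : 2 / 3 * (n : ℝ) ≤ qq r * n := mul_le_mul_of_nonneg_right hq1 hn0.le
    have h5 : 11 / 36 * (2 / 3 * (n : ℝ)) ≤
        (1 - 2 / (r : ℝ) - 1 / (4 * (r : ℝ) ^ 2)) * (qq r * n) :=
      mul_le_mul h1 h4 (by positivity) (by linarith)
    have h6 : 0 ≤ 2 * (r : ℝ) ^ 2 * (N + r) := by positivity
    linarith
  have hcap : (D : ℝ) + N ≤ (1 - 2 / (r : ℝ)) * n - (r - 2) := by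
    have h1 : (1 - 2 / (r : ℝ)) - (1 - 2 / (r : ℝ) + 1 / (4 * (r : ℝ) ^ 2)) * qq r ≥
        3 / (4 * (r : ℝ) ^ 2) := by
      unfold qq
      rw [ge_iff_le, ← sub_nonneg]
      have h2 : 1 - 2 / (r : ℝ) - (1 - 2 / (r : ℝ) + 1 / (4 * (r : ℝ) ^ 2)) * (1 - 1 / (r : ℝ)) -
          3 / (4 * (r : ℝ) ^ 2) = ((4 * (r : ℝ) - 12) * r + 1) / (4 * (r : ℝ) ^ 3) := by
        field_simp
        ring
      rw [h2]
      have h3 : 0 ≤ (4 * (r : ℝ) - 12) * r := mul_nonneg (by linarith) hr0.le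
      positivity
    have h4 := mul_le_mul_of_nonneg_right h1.le hn0.le
    have h5 : (N : ℝ) + r ≤ 3 / (4 * (r : ℝ) ^ 2) * n := by
      have h6 : 2 * (r : ℝ) ^ 2 * (N + r) ≤ n := by linarith
      have h7 : 3 / (4 * (r : ℝ) ^ 2) * (2 * (r : ℝ) ^ 2 * (N + r)) ≤
          3 / (4 * (r : ℝ) ^ 2) * n := mul_le_mul_of_nonneg_left h6 (by positivity)
      have h8 : 3 / (4 * (r : ℝ) ^ 2) * (2 * (r : ℝ) ^ 2 * (N + r)) = 3 / 2 * (N + r) := by
        field_simp
        ring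
      linarith
    have h9 : ((1 - 2 / (r : ℝ)) - (1 - 2 / (r : ℝ) + 1 / (4 * (r : ℝ) ^ 2)) * qq r) * n =
        (1 - 2 / (r : ℝ)) * n - (1 - 2 / (r : ℝ) + 1 / (4 * (r : ℝ) ^ 2)) * (qq r * n) := by ring
    linarith
  have hc3 : (r : ℝ) ^ 2 * ((1 + (N : ℝ)) * N + 4 * r * N + 6 * N) ≤ n := by
    have h1 : (n₃ : ℝ) ≤ n := by exact_mod_cast hnn3
    exact hn₃.trans h1
  obtain ⟨π, a', g1, g2, g3, g4, g5, g6, g7, g8⟩ := ItemJBT.comb hD r N n D hr hnr hlo hcap
    σ a Φ hσ hdev ha hΦ hΦ1 hΦ2 hsum hlt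
  refine ⟨π, a', g1, g2, g3, g4, ?_⟩
  have hr1 : 1 ≤ r := by omega
  obtain ⟨hd1, hd2, hd3, hd4, -, -⟩ := hD r n σ hr1 hσ
  obtain ⟨-, -, -, hd5, -, -⟩ := hD r n (tz r n) hr1 hd1
  have hτn : ∑ t, tz r n (π t) = n := by
    rw [Equiv.sum_comp π (fun t => tz r n t)]
    exact hd1
  obtain ⟨-, -, -, hd6, -, -⟩ := hD r n (fun t => tz r n (π t)) hr1 hτn
  have hτ2 : ∑ t, (tz r n (π t) : ℝ) ^ 2 = ∑ t, (tz r n t : ℝ) ^ 2 :=
    Equiv.sum_comp π (fun t => (tz r n t : ℝ) ^ 2)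
  have hdevτ : dev (fun t => tz r n (π t)) = dev (tz r n) := by rw [hd6, hd5, hτ2]
  set P : ℝ := dev σ - dev (fun t => tz r n (π t)) with hP
  set Q : ℝ := ∑ t, ((σ t : ℝ) - tz r n (π t)) ^ 2 with hQ
  have hPr : P = ((∑ t, (σ t : ℤ) ^ 2 - ∑ t, (tz r n t : ℤ) ^ 2 : ℤ) : ℝ) := by
    rw [hP, hd4, hdevτ, hd5]
    push_cast
    ring
  have hQr : Q = ((∑ t, ((σ t : ℤ) - tz r n (π t)) ^ 2 : ℤ) : ℝ) := by
    rw [hQ]
    push_cast
    rfl
  have hQ2 : 2 ≤ Q := by rw [hQr]; exact_mod_cast g6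
  have hQP : Q ≤ P := by rw [hQr, hPr]; exact_mod_cast g7
  have hPN : P ≤ N := by rw [hPr]; exact_mod_cast g8
  have hPa : P = 2 * (∑ t, (a t : ℝ) - ∑ t, (a' t : ℝ)) := by
    have h1 : 2 * ∑ t, (a' t : ℝ) + ∑ t, (σ t : ℝ) ^ 2 =
        2 * ∑ t, (a t : ℝ) + ∑ t, (tz r n t : ℝ) ^ 2 := by exact_mod_cast g4
    rw [hP, hd4, hdevτ, hd5]
    linarith
  set x : ℝ := D / (qq r * n) with hx
  have hx0 : 0 ≤ x := by rw [hx]; positivity
  have hx2 : x ≤ 1 - 2 / (r : ℝ) + 1 / (4 * (r : ℝ) ^ 2) := by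
    rw [hx, div_le_iff₀ (by positivity)]
    exact hD2
  have hx1 : x ≤ 1 := by
    have h1 : 1 / (4 * (r : ℝ) ^ 2) ≤ 2 / (r : ℝ) := by
      rw [div_le_div_iff₀ (by positivity) hr0]
      linarith
    linarith
  have hxg : 5 / (3 * (r : ℝ) ^ 2) ≤ qq r - x - x / r := by
    have h1 : x * (1 + 1 / (r : ℝ)) ≤
        (1 - 2 / (r : ℝ) + 1 / (4 * (r : ℝ) ^ 2)) * (1 + 1 / (r : ℝ)) :=
      mul_le_mul_of_nonneg_right hx2 (by positivity)
    have h2 : x / r = x * (1 / r) := by ring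
    have h3 : qq r - (1 - 2 / (r : ℝ) + 1 / (4 * (r : ℝ) ^ 2)) * (1 + 1 / (r : ℝ)) -
        5 / (3 * (r : ℝ) ^ 2) = ((r : ℝ) - 3) / (12 * (r : ℝ) ^ 3) := by
      unfold qq
      field_simp
      ring
    have h4 : 0 ≤ ((r : ℝ) - 3) / (12 * (r : ℝ) ^ 3) := div_nonneg (by linarith) (by positivity)
    rw [h2]
    linarith
  have habs : ∑ t, |(σ t : ℝ) - tz r n (π t)| ≤ Q := by
    rw [hQ]
    refine Finset.sum_le_sum fun t _ => ?_
    have h1 : |(σ t : ℤ) - tz r n (π t)| ≤ ((σ t : ℤ) - tz r n (π t)) ^ 2 :=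
      ItemJB.abs_le_sq _
    exact_mod_cast h1
  have hτ1 : ∀ t, |(tz r n (π t) : ℝ) - (n : ℝ) / r| ≤ 1 := by
    intro t
    have h5 : (n : ℝ) / r - 1 ≤ ((n / r : ℕ) : ℝ) := by
      have h6 : n < (n / r + 1) * r := by
        rw [mul_comm]
        exact Nat.lt_mul_div_succ n (by omega)
      have h7 : (n : ℝ) < (((n / r : ℕ) : ℝ) + 1) * r := by exact_mod_cast h6
      have h8 : (n : ℝ) / r < ((n / r : ℕ) : ℝ) + 1 := by rwa [div_lt_iff₀ hr0]
      linarith
    have h6 : ((n / r : ℕ) : ℝ) ≤ (n : ℝ) / r := Nat.cast_div_le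
    rw [abs_le]
    unfold tz
    by_cases hc : (π t).val < n % r
    · rw [if_pos hc]
      push_cast
      constructor <;> linarith
    · rw [if_neg hc]
      push_cast
      constructor <;> linarith
  have key := ItemJBT.analytic r n N x (qq r) P Q (fun t => (σ t : ℝ))
    (fun t => (tz r n (π t) : ℝ)) (fun t => (a t : ℝ)) (fun t => (a' t : ℝ)) hr hn0
    (Nat.cast_nonneg N) hx0 hx1 rfl hxg (by exact_mod_cast hσ) (by exact_mod_cast hτn) hPa hQ2 hQP
    hPN habs (fun t => Nat.cast_nonneg _) (fun t => Nat.cast_nonneg _)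
    (fun t => by exact_mod_cast ha t) (fun t => by exact_mod_cast g3 t) (by
      intro t
      have h1 := g5 t
      have h2 : (a' t : ℝ) ≤ a t + 2 * N := by exact_mod_cast h1.1
      have h3 : (a t : ℝ) ≤ a' t + 2 * N := by exact_mod_cast h1.2
      rw [abs_le]
      constructor <;> linarith) hτ1 hc3
  have hDn : D ≤ n := by
    have h1 : (D : ℝ) ≤ n := by
      refine hD2.trans ?_
      have h2 : 1 - 2 / (r : ℝ) + 1 / (4 * (r : ℝ) ^ 2) ≤ 1 := by
        have h1 : 1 / (4 * (r : ℝ) ^ 2) ≤ 2 / (r : ℝ) := by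
          rw [div_le_div_iff₀ (by positivity) hr0]
          linarith
        linarith
      have h3 : qq r * n ≤ 1 * n := by gcongr
      have h4 : 0 ≤ qq r * n := by positivity
      have h5 := mul_le_mul_of_nonneg_right h2 h4
      linarith
    exact_mod_cast h1
  have k1 := hn₁ n D σ a hnn1 hσ (hdev.trans (by push_cast; linarith)) ha hDn
    (hsum.trans (by push_cast; linarith))
  have k2 := hn₁ n D (fun t => tz r n (π t)) a' hnn1 hτn (by
      rw [hdevτ]; push_cast; linarith) g3 hDn (by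
      have h1 : |(∑ t, (a' t : ℝ)) - D| ≤ |(∑ t, (a t : ℝ)) - D| + |P / 2| := by
        have h2 : (∑ t, (a' t : ℝ)) - D = ((∑ t, (a t : ℝ)) - D) - P / 2 := by
          rw [hPa]; ring
        rw [h2]
        exact abs_sub _ _
      have h2 : |P / 2| ≤ N := by
        rw [abs_of_nonneg (by linarith)]
        linarith
      push_cast
      linarith)
  have hdiff : Kx r n D σ a - Kx r n D (fun t => tz r n (π t)) a' =
      2 * qq r * ((1 - 2 * x) * (∑ t, (a t : ℝ) - ∑ t, (a' t : ℝ)) + (1 / 2 - 1 / (r : ℝ)) * P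
      + 2 * x / r * (∑ t, (r * (a t : ℝ) / n) * ((σ t : ℝ) - n / r)
        - ∑ t, (r * (a' t : ℝ) / n) * ((tz r n (π t) : ℝ) - n / r))
      + x ^ 2 / (qq r * r ^ 2) * (∑ t, (r * (a t : ℝ) / n) ^ 2 - ∑ t, (r * (a' t : ℝ) / n) ^ 2)) := by
    unfold Kx
    simp only [← hx]
    rw [hP]
    ring
  have hfin : 2 * qq r * (2 / (r : ℝ) ^ 2) ≤
      Kx r n D σ a - Kx r n D (fun t => tz r n (π t)) a' := by
    rw [hdiff]
    exact mul_le_mul_of_nonneg_left key (by positivity)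
  have k1' := (abs_le.1 k1).1
  have k2' := (abs_le.1 k2).2
  have hpos : 0 < qq r / (r : ℝ) ^ 2 := by positivity
  have he : 2 * qq r * (2 / (r : ℝ) ^ 2) = 4 * (qq r / (r : ℝ) ^ 2) := by ring
  rw [he] at hfin
  linarith

end MP0c3a8f

end

section

/-!
# MP_0c3a8f_co, phase B: item JFT
-/

open Finset

namespace MP0c3a8f

namespace JFT

theorem x_le (r x : ℝ) (hr : 3 ≤ r) (hx2 : x ≤ 1 - 2 / r + 1 / (4 * r ^ 2)) : x ≤ 1 := by
  have hr0 : 0 < r := by linarith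
  have hu1 : 1 / r ≤ 1 / 3 := one_div_le_one_div_of_le (by norm_num) hr
  have hu0 : 0 < 1 / r := by positivity
  have hu2 : 1 / (4 * r ^ 2) = (1 / r) * (1 / r) / 4 := by field_simp
  have hu3 : (1 / r) * (1 / r) ≤ 1 / 3 * (1 / r) := mul_le_mul_of_nonneg_right hu1 hu0.le
  have hu4 : 2 / r = 2 * (1 / r) := by ring
  rw [hu2, hu4] at hx2
  linarith

theorem low (r : ℝ) (hr : 3 ≤ r) :
    1 / (r + 1) + 1 / r ^ 5 ≤ 1 - 2 / r - 1 / (4 * r ^ 2) := by
  have hr0 : 0 < r := by linarith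
  have hu1 : 1 / r ≤ 1 / 3 := one_div_le_one_div_of_le (by norm_num) hr
  have hu0 : 0 < 1 / r := by positivity
  have hu2 : 1 / (4 * r ^ 2) = (1 / r) * (1 / r) / 4 := by field_simp
  have hu3 : (1 / r) * (1 / r) ≤ 1 / 3 * (1 / r) := mul_le_mul_of_nonneg_right hu1 hu0.le
  have hu4 : 2 / r = 2 * (1 / r) := by ring
  have h1 : 1 / (r + 1) ≤ 1 / 4 := one_div_le_one_div_of_le (by norm_num) (by linarith)
  have h2 : 1 / r ^ 5 ≤ 1 / 243 := by
    apply one_div_le_one_div_of_le (by norm_num)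
    calc (243 : ℝ) = 3 ^ 5 := by norm_num
      _ ≤ r ^ 5 := by gcongr
  rw [hu2, hu4]
  linarith

theorem gval (r : ℕ) (hr : 3 ≤ r) (x : ℝ) (α b : ℕ)
    (hx1 : 1 / ((r : ℝ) + 1) + 1 / (r : ℝ) ^ 5 ≤ x) (hx2 : x ≤ 1 - 2 / (r : ℝ) + 1 / (4 * (r : ℝ) ^ 2))
    (h0 : α = 0 → r ≤ b) (h1 : ¬ (α = 1 ∧ b = 0)) :
    1 / (r : ℝ) ^ 5 ≤ (2 - 2 * x) * ((α : ℝ) - 1) + 2 * x * b - x ^ 3 / r := by
  have hr3 : (3 : ℝ) ≤ r := by exact_mod_cast hr
  have hr0 : (0 : ℝ) < r := by linarith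
  have hx0 : 0 < x := lt_of_lt_of_le (by positivity) hx1
  have h2r : 0 < 2 / (r : ℝ) := by positivity
  have hu1 : 1 / (r : ℝ) ≤ 1 / 3 := one_div_le_one_div_of_le (by norm_num) hr3
  have hu0 : 0 < 1 / (r : ℝ) := by positivity
  have hu2 : 1 / (4 * (r : ℝ) ^ 2) = (1 / (r : ℝ)) * (1 / (r : ℝ)) / 4 := by field_simp
  have hu3 : (1 / (r : ℝ)) * (1 / (r : ℝ)) ≤ 1 / 3 * (1 / (r : ℝ)) :=
    mul_le_mul_of_nonneg_right hu1 hu0.le
  have hu4 : 2 / (r : ℝ) = 2 * (1 / r) := by ring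
  rw [hu2, hu4] at hx2
  have hxle : x ≤ 1 := by linarith
  have hr4 : 1 / (r : ℝ) ^ 4 ≤ 1 / (r : ℝ) :=
    one_div_le_one_div_of_le hr0 (by nlinarith [pow_le_pow_right₀ (by linarith : (1 : ℝ) ≤ r) (by norm_num : 1 ≤ 4)])
  have hr5 : 1 / (r : ℝ) ^ 5 ≤ 1 / (r : ℝ) :=
    one_div_le_one_div_of_le hr0 (by nlinarith [pow_le_pow_right₀ (by linarith : (1 : ℝ) ≤ r) (by norm_num : 1 ≤ 5)])
  have hx3 : x ^ 3 ≤ 1 := pow_le_one₀ hx0.le hxle
  have hx3r : x ^ 3 / r ≤ 1 / r := by gcongr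
  have hr1 : 0 < 1 / (r : ℝ) := by positivity
  rcases Nat.eq_zero_or_pos α with ha | ha
  · have hb : (r : ℝ) ≤ b := by exact_mod_cast h0 ha
    subst ha
    have h2 : 2 * x * r ≤ 2 * x * b := mul_le_mul_of_nonneg_left hb (by positivity)
    rcases le_or_gt x (1 / r) with hc | hc
    · have h3 : x ^ 3 / r ≤ 1 / (r : ℝ) ^ 4 := by
        have : x ^ 3 ≤ (1 / (r : ℝ)) ^ 3 := pow_le_pow_left₀ hx0.le hc 3
        calc x ^ 3 / r ≤ (1 / (r : ℝ)) ^ 3 / r := by gcongr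
          _ = 1 / (r : ℝ) ^ 4 := by field_simp
      have h4 : 2 * ((r : ℝ) + 1) * (1 / ((r : ℝ) + 1) + 1 / (r : ℝ) ^ 5) ≤ 2 * ((r : ℝ) + 1) * x :=
        mul_le_mul_of_nonneg_left hx1 (by positivity)
      have h5 : 2 * ((r : ℝ) + 1) * (1 / ((r : ℝ) + 1) + 1 / (r : ℝ) ^ 5) =
          2 + 2 * ((r : ℝ) + 1) * (1 / (r : ℝ) ^ 5) := by field_simp
      have h6 : 1 / (r : ℝ) ^ 4 = r * (1 / (r : ℝ) ^ 5) := by field_simp
      have h7 : 0 < 1 / (r : ℝ) ^ 5 := by positivity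
      rw [h5] at h4
      rw [h6] at h3
      push_cast
      nlinarith
    · have h3 : 1 ≤ x * r := ((div_lt_iff₀ hr0).1 hc).le
      push_cast
      have h4 : 1 / (r : ℝ) ≤ x := hc.le
      nlinarith
  · rcases Nat.eq_zero_or_pos b with hb | hb
    · have h2 : (2 : ℝ) ≤ α := by exact_mod_cast (by
        rcases Nat.lt_or_ge α 2 with h | h
        · exact absurd ⟨by omega, hb⟩ h1
        · exact h : 2 ≤ α)
      have h3 : (2 - 2 * x) * 1 ≤ (2 - 2 * x) * ((α : ℝ) - 1) :=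
        mul_le_mul_of_nonneg_left (by linarith) (by linarith)
      subst hb
      push_cast
      linarith
    · have h2 : (1 : ℝ) ≤ α := by exact_mod_cast ha
      have h3 : (1 : ℝ) ≤ b := by exact_mod_cast hb
      have h4 : 0 ≤ (2 - 2 * x) * ((α : ℝ) - 1) := mul_nonneg (by linarith) (by linarith)
      have h5 : 2 * x * 1 ≤ 2 * x * b := mul_le_mul_of_nonneg_left h3 (by positivity)
      have h6 : x ^ 3 / r ≤ x := by
        rw [div_le_iff₀ hr0]
        have : x ^ 3 = x * x ^ 2 := by ring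
        rw [this]
        refine mul_le_mul_of_nonneg_left ?_ hx0.le
        nlinarith
      have h7 : 1 / (r : ℝ) ^ 5 ≤ x := by
        have : (0 : ℝ) < 1 / ((r : ℝ) + 1) := by positivity
        linarith
      linarith

theorem p_le (r x κ : ℝ) (hr : 3 ≤ r) (hx0 : 0 ≤ x) (hx2 : x ≤ 1 - 2 / r + 1 / (4 * r ^ 2))
    (hκ : κ ≤ 1 / r) : x / r * (1 + κ) ≤ 1 - 1 / r - x := by
  have hr0 : 0 < r := by linarith
  have hu1 : 1 / r ≤ 1 / 3 := one_div_le_one_div_of_le (by norm_num) hr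
  have hu0 : 0 < 1 / r := by positivity
  have hu2 : 1 / (4 * r ^ 2) = (1 / r) * (1 / r) / 4 := by field_simp
  have hu4 : 2 / r = 2 * (1 / r) := by ring
  have h1 : x / r * (1 + κ) ≤ x / r * (1 + 1 / r) := by gcongr
  have h6 : x / r * (1 + 1 / r) = x * (1 / r + (1 / r) * (1 / r)) := by ring
  rw [hu2, hu4] at hx2
  rw [h6] at h1
  generalize 1 / r = u at *
  have h2 : x * (1 + u + u * u) ≤ (1 - 2 * u + u * u / 4) * (1 + u + u * u) :=
    mul_le_mul_of_nonneg_right hx2 (by positivity)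
  have h3 : (1 - 2 * u + u * u / 4) * (1 + u + u * u) =
      1 - u - 3 / 4 * (u * u) - 7 / 4 * (u * u * u) + 1 / 4 * (u * u * (u * u)) := by ring
  have h4 : 0 ≤ u * u := by positivity
  have h5 : 0 ≤ u * u * u := by positivity
  have h8 : u * u * (u * u) ≤ u * u * 1 := mul_le_mul_of_nonneg_left (by nlinarith) h4
  have h7 : x * (1 + u + u * u) = x + x * (u + u * u) := by ring
  linarith

/-- the final comparison -/
theorem core (r N n D : ℕ) (hr : 3 ≤ r) (hn : 1 ≤ n) (hnN : r ^ 2 * (N + 1) ≤ n)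
    (σ a a' : Fin r → ℕ) (α b : ℕ) (x : ℝ) (hxD : (D : ℝ) = x * (qq r * n)) (hx0 : 0 ≤ x)
    (hx2 : x ≤ 1 - 2 / (r : ℝ) + 1 / (4 * (r : ℝ) ^ 2)) (hDEV : DEV_statement) (hσ : ∑ t, σ t = n) (hdev : dev σ ≤ N)
    (ha : ∀ t, a t ≤ σ t) (hαb : α + b ≤ N)
    (hm : 2 * D + 2 * α + ∑ t, σ t ^ 2 = ∑ t, tz r n t ^ 2 + 2 * ∑ t, a t + 2 * b)
    (hT : Tg1 r n D a') :
    |(∑ t, (a t : ℝ)) - D| ≤ 3 * N ∧
    (2 - 2 * x) * ((α : ℝ) - 1) + 2 * x * b - x ^ 3 / r
        - ((12 * N + 4 + 2 * r) / n + 2 * r * (N + 1) / n + (2 * r ^ 2 + r) / n) ≤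
      ((1 - 2 * x) * (∑ t, (a t : ℝ) - D) + (1 / 2 - 1 / (r : ℝ)) * dev σ
        + 2 * x / r * ∑ t, (r * (a t : ℝ) / n) * ((σ t : ℝ) - n / r)
        + x ^ 2 / (qq r * r ^ 2) * ∑ t, (r * (a t : ℝ) / n) ^ 2 + (α + b)) -
      ((1 - 2 * x) * (∑ t, (a' t : ℝ) - D) + (1 / 2 - 1 / (r : ℝ)) * dev (tz r n)
        + 2 * x / r * ∑ t, (r * (a' t : ℝ) / n) * ((tz r n t : ℝ) - n / r)
        + x ^ 2 / (qq r * r ^ 2) * ∑ t, (r * (a' t : ℝ) / n) ^ 2 + 1) := by
  have hn0 : (0 : ℝ) < n := by exact_mod_cast hn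
  have hr3 : (3 : ℝ) ≤ r := by exact_mod_cast hr
  have hr0 : (0 : ℝ) < r := by linarith
  have hq : qq r = 1 - 1 / (r : ℝ) := rfl
  have hqr : qq r * r = r - 1 := by rw [hq]; field_simp
  have hxle : x ≤ 1 := x_le r x hr3 hx2
  obtain ⟨s, W, hsr, hssum, hW, hWdev, hdT0, hW0, hWN, hh⟩ :=
    JF1.basic r N n D hr σ a α b hDEV hσ hdev hαb hm
  obtain ⟨hκ1, hrn1⟩ := JF1.kap_le r N n (by omega) hn hnN
  have hκ0 : 0 ≤ (r : ℝ) * (N + 1) / n := by positivity
  have hmod : n % r < r := Nat.mod_lt _ (by omega)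
  have hdm : (r : ℝ) * ((n / r : ℕ) : ℝ) + ((n % r : ℕ) : ℝ) = n := by
    exact_mod_cast Nat.div_add_mod n r
  have hρ0 : (0 : ℝ) ≤ ((n % r : ℕ) : ℝ) := by positivity
  have hρr : ((n % r : ℕ) : ℝ) ≤ r := by exact_mod_cast hmod.le
  have hσr : ∑ t, (σ t : ℝ) = n := by exact_mod_cast hσ
  have hαbr : (α : ℝ) + b ≤ N := by exact_mod_cast hαb
  have hα0 : (0 : ℝ) ≤ α := by positivity
  have hb0 : (0 : ℝ) ≤ b := by positivity
  have hhN : |(∑ t, (a t : ℝ)) - D| ≤ 3 * N := by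
    rw [hh, abs_le]; constructor <;> linarith
  refine ⟨hhN, ?_⟩
  have ha'0 : ∑ t, (a' t : ℝ) = D + 1 := by exact_mod_cast hT.2.2.1
  have ha' : ∑ t, (a' t : ℝ) - D = 1 := by linarith
  have hθ0 : ∀ t, 0 ≤ r * (a t : ℝ) / n := fun t => by positivity
  have hθ1 : ∀ t, r * (a t : ℝ) / n ≤ 1 + r * (N + 1) / n := fun t => by
    refine JF1.theta_le r N n (σ t) (a t) hr0 hn0 (le_trans ?_ hdev) (by exact_mod_cast ha t)
    have h1 := Finset.single_le_sum (f := fun t => ((σ t : ℝ) - (∑ s, (σ s : ℝ)) / r) ^ 2)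
      (fun t _ => sq_nonneg _) (Finset.mem_univ t)
    simp only [hσr] at h1
    unfold dev
    rw [hσr]
    exact h1
  have hThe : ∑ t, r * (a t : ℝ) / n = r * (∑ t, (a t : ℝ)) / n := by
    rw [← Finset.sum_div, ← Finset.mul_sum]
  have hThe' : ∑ t, r * (a' t : ℝ) / n = r * (∑ t, (a' t : ℝ)) / n := by
    rw [← Finset.sum_div, ← Finset.mul_sum]
  have hdiff : |∑ t, r * (a t : ℝ) / n - ∑ t, r * (a' t : ℝ) / n| ≤ r * (3 * N + 1) / n := by
    have : ∑ t, r * (a t : ℝ) / n - ∑ t, r * (a' t : ℝ) / n =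
        r * ((∑ t, (a t : ℝ) - D) - 1) / n := by
      rw [hThe, hThe', ← ha']; ring
    rw [this, abs_div, abs_mul, abs_of_pos hr0, abs_of_pos hn0]
    refine div_le_div_of_nonneg_right (mul_le_mul_of_nonneg_left ?_ hr0.le) hn0.le
    have h1 := abs_le.1 hhN
    rw [abs_le]; constructor <;> linarith
  have hThx : ∑ t, r * (a' t : ℝ) / n = (r - 1) * x + r / n := by
    rw [hThe', ha'0, hxD]
    have : (r : ℝ) * (x * (qq r * n) + 1) / n = (qq r * r) * x + r / n := by field_simp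
    rw [this, hqr]
  have hp : x / r * (1 + r * (N + 1) / n) ≤ qq r - x := p_le r x _ hr3 hx0 hx2 hκ1
  have hlin := JF1.linear (by omega : 1 ≤ r) (qq r - x) x _ (fun t => r * (a t : ℝ) / n) s _ hx0 hp hθ0
    hθ1 hκ0 (hκ1.trans ((div_le_one hr0).2 (by linarith))) hssum
  rw [hW] at hlin
  have hL := JF1.target_large hr hn a' hT
  have hsq := JF1.target_sq hr hn a' (fun t => (hT.2.1 t).2)
  have hQ' := JF1.Q_le r n x (qq r) _ _ hr3 hn0 hx0 hxle hqr hrn1 hThx hsq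
  have hnr : (n : ℝ) / r = ((n / r : ℕ) : ℝ) + ((n % r : ℕ) : ℝ) / r := by
    rw [← hdm]; field_simp
  have e1 : ∑ t, (r * (a t : ℝ) / n) * ((σ t : ℝ) - n / r) =
      ∑ t, (r * (a t : ℝ) / n) * s t - ((n % r : ℕ) : ℝ) / r * ∑ t, r * (a t : ℝ) / n := by
    rw [Finset.mul_sum, ← Finset.sum_sub_distrib]
    refine Finset.sum_congr rfl fun t _ => ?_
    rw [hsr t, hnr]; ring
  have e1' : ∑ t, (r * (a' t : ℝ) / n) * ((tz r n t : ℝ) - n / r) =
      ∑ t, (r * (a' t : ℝ) / n) * (if t.val < n % r then (1 : ℝ) else 0) -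
        ((n % r : ℕ) : ℝ) / r * ∑ t, r * (a' t : ℝ) / n := by
    rw [Finset.mul_sum, ← Finset.sum_sub_distrib]
    refine Finset.sum_congr rfl fun t _ => ?_
    have : (tz r n t : ℝ) = ((n / r : ℕ) : ℝ) + if t.val < n % r then (1 : ℝ) else 0 := by
      unfold tz; split_ifs <;> push_cast <;> ring
    rw [this, hnr]; ring
  have hD := JF1.D_le r n N x ((n % r : ℕ) : ℝ) _ _ _ hr0 hn0 hx0 hxle hρ0 hρr hdiff hL
  have hD4 : 2 * x * (r * (N + 1) / n) ≤ 2 * r * (N + 1) / n := by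
    calc 2 * x * (r * (N + 1) / n) ≤ 2 * 1 * (r * (N + 1) / n) :=
          mul_le_mul_of_nonneg_right (by linarith) hκ0
      _ = _ := by ring
  rw [e1, e1', hh, ha', hWdev]
  have hQ1 : 0 ≤ x ^ 2 / (qq r * r ^ 2) * ∑ t, (r * (a t : ℝ) / n) ^ 2 := by
    have hqpos : 0 ≤ qq r := by
      have : 1 / (r : ℝ) ≤ 1 := (div_le_one hr0).2 (by linarith)
      rw [hq]; linarith
    have : 0 ≤ ∑ t, (r * (a t : ℝ) / n) ^ 2 := Finset.sum_nonneg fun t _ => sq_nonneg _
    positivity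
  exact JF1.assemble x α b (qq r) (1 / 2 - 1 / (r : ℝ)) W (dev (tz r n)) (2 * x / r) _ _ _ _ _ _ _ _ _ _
    _ _ _ (by rw [hq]; ring) hlin hQ1 hQ' hD le_rfl hD4

end JFT

theorem prfJFT : EXP_statement → DEV_statement → JFT_statement := by
  intro hE hDEV r hr
  have hr3 : (3 : ℝ) ≤ r := by exact_mod_cast hr
  have hr0 : (0 : ℝ) < r := by linarith
  have hr1 : 1 / (r : ℝ) ≤ 1 / 3 := by
    apply one_div_le_one_div_of_le <;> linarith
  have hq0 : 0 < qq r := by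
    have : qq r = 1 - 1 / (r : ℝ) := rfl
    linarith
  have hq1 : qq r ≤ 1 := by
    have : qq r = 1 - 1 / (r : ℝ) := rfl
    have : 0 < 1 / (r : ℝ) := by positivity
    linarith
  have h5 : (0 : ℝ) < 1 / (r : ℝ) ^ 5 := by positivity
  refine ⟨qq r * (1 / (r : ℝ) ^ 5), by positivity, fun N => ?_⟩
  obtain ⟨n₁, hn₁⟩ := hE r (3 * N + 3 * r) (qq r * (1 / (r : ℝ) ^ 5) / 4) hr (by positivity)
  set K : ℝ := (12 * N + 4 + 2 * r) + 2 * r * (N + 1) + (2 * r ^ 2 + r) with hK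
  have hK0 : 0 < K := by positivity
  obtain ⟨n₂, hn₂⟩ := exists_nat_gt (K / (1 / (r : ℝ) ^ 5 / 4))
  refine ⟨n₁ + n₂ + r ^ 2 * (N + 1) + 1, fun n hn D hRX σ a a' α b hσ hdev ha hαb hm h0 h1 hT =>
    ?_⟩
  have hn0 : (0 : ℝ) < n := by exact_mod_cast (by omega : 0 < n)
  have hqn : 0 < qq r * n := by positivity
  set x : ℝ := D / (qq r * n) with hx
  have hxD : (D : ℝ) = x * (qq r * n) := by rw [hx]; field_simp
  have hx1 : 1 / ((r : ℝ) + 1) + 1 / (r : ℝ) ^ 5 ≤ x := by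
    refine (JFT.low r hr3).trans ?_
    rw [hx, le_div_iff₀ hqn]; exact hRX.1
  have hx2 : x ≤ 1 - 2 / (r : ℝ) + 1 / (4 * (r : ℝ) ^ 2) := by
    rw [hx, div_le_iff₀ hqn]; exact hRX.2
  have hx0 : 0 ≤ x := by positivity
  obtain ⟨c1, c2⟩ := JFT.core r N n D hr (by omega) (by omega) σ a a' α b x hxD hx0 hx2 hDEV hσ hdev
    ha hαb hm hT
  have c3 := JFT.gval r hr x α b hx1 hx2 h0 h1
  have hDn : D ≤ n := by
    have : (D : ℝ) ≤ n := by
      rw [hxD]
      have hx' : x ≤ 1 := JFT.x_le r x hr3 hx2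
      calc x * (qq r * n) ≤ 1 * (1 * n) := by gcongr
        _ = n := by ring
    exact_mod_cast this
  have hN' : ((3 * N + 3 * r : ℕ) : ℝ) = 3 * N + 3 * r := by push_cast; ring
  have hNn : (0 : ℝ) ≤ N := by positivity
  have d1 := hn₁ n D σ a (by omega) hσ (by rw [hN']; linarith) ha hDn
    (by rw [hN']; linarith)
  obtain ⟨hT1, -, hdT, -, -, -⟩ := hDEV r n (tz r n) (by omega) (hDEV r n σ (by omega) hσ).1
  have ha' : ∑ t, (a' t : ℝ) - D = 1 := by
    have := hT.2.2.1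
    have h' : ∑ t, (a' t : ℝ) = D + 1 := by exact_mod_cast this
    linarith
  have d2 := hn₁ n D (tz r n) a' (by omega) hT1 (by rw [hN']; linarith) (fun t => (hT.2.1 t).2) hDn
    (by rw [hN', ha']; simp only [abs_one]; linarith)
  have hKn : K / n ≤ 1 / (r : ℝ) ^ 5 / 4 := by
    have h6 : (n₂ : ℝ) ≤ n := by exact_mod_cast (by omega : n₂ ≤ n)
    rw [div_lt_iff₀ (by positivity)] at hn₂
    rw [div_le_iff₀ hn0]
    nlinarith
  rw [← add_div, ← add_div, ← hK] at c2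
  have d1' := (abs_le.1 d1).1
  have d2' := (abs_le.1 d2).2
  unfold Kx at d1' d2'
  simp only [← hx] at d1' d2'
  set J1 : ℝ := (1 - 2 * x) * (∑ t, (a t : ℝ) - D) + (1 / 2 - 1 / (r : ℝ)) * dev σ
        + 2 * x / r * ∑ t, (r * (a t : ℝ) / n) * ((σ t : ℝ) - n / r)
        + x ^ 2 / (qq r * r ^ 2) * ∑ t, (r * (a t : ℝ) / n) ^ 2 with hJ1
  set J2 : ℝ := (1 - 2 * x) * (∑ t, (a' t : ℝ) - D) + (1 / 2 - 1 / (r : ℝ)) * dev (tz r n)
        + 2 * x / r * ∑ t, (r * (a' t : ℝ) / n) * ((tz r n t : ℝ) - n / r)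
        + x ^ 2 / (qq r * r ^ 2) * ∑ t, (r * (a' t : ℝ) / n) ^ 2 with hJ2
  have c4 : 1 / (r : ℝ) ^ 5 - 1 / (r : ℝ) ^ 5 / 4 ≤ J1 + (α + b) - (J2 + 1) := by linarith
  have c5 := mul_le_mul_of_nonneg_left c4 (by positivity : (0 : ℝ) ≤ 2 * qq r)
  have c6 : 2 * qq r * (J1 + (α + b) - (J2 + 1)) =
      2 * qq r * J1 + 2 * qq r * (α + b) - 2 * qq r * J2 - 2 * qq r := by ring
  have c7 : 2 * qq r * (1 / (r : ℝ) ^ 5 - 1 / (r : ℝ) ^ 5 / 4) =
      3 / 2 * (qq r * (1 / (r : ℝ) ^ 5)) := by ring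
  rw [c6, c7] at c5
  linarith

end MP0c3a8f

end

section

/-!
# MP_0c3a8f_co: the missing edge is between larger classes, type `Q` (item ORQ)
-/

open Finset

namespace MP0c3a8f

namespace ItemORQ

theorem sum_ite_ncard {V : Type} [Fintype V] (P : V → Prop) [DecidablePred P] (c : ℝ) :
    (∑ y, if P y then c else 0) = ({y | P y}.ncard : ℝ) * c := by
  rw [← Finset.sum_filter, Finset.sum_const, nsmul_eq_mul]
  congr 2
  rw [Set.ncard_eq_toFinset_card' {y | P y}]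
  congr 1
  ext y
  simp

theorem single {V : Type} [Fintype V] {r : ℕ} {G : SimpleGraph V} {f : V → Option (Fin r)}
    {w p : V} {i : Fin r} (h1 : nbn G f w i = 1) (hp : f p = some i) (hw : G.Adj w p) (v : V) :
    (f v = some i ∧ G.Adj w v) ↔ v = p := by
  unfold nbn at h1
  obtain ⟨a, ha⟩ := Set.ncard_eq_one.1 h1
  have h2 : p ∈ {v | f v = some i ∧ G.Adj w v} := ⟨hp, hw⟩
  rw [ha, Set.mem_singleton_iff] at h2
  have h3 : (v ∈ {v | f v = some i ∧ G.Adj w v}) ↔ v = a := by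
    rw [ha, Set.mem_singleton_iff]
  rw [h2]
  exact h3

open Classical in
/-- the eigenvalue equation at `w` -/
theorem eq_w {V : Type} [Fintype V] {r : ℕ} {G : SimpleGraph V} {f : V → Option (Fin r)}
    {w p p' : V} {i j : Fin r} (h : Th1 G f w p p' i j) {z : V → ℝ} {l : ℝ} (hl : 0 < l)
    (T : Fin r → ℝ)
    (hrow : ∀ v t, f v = some t → v ≠ p → v ≠ p' →
      l * z v = T t + if G.Adj w v then z w else 0)
    (hw : l * z w = ∑ v, if f v ≠ none ∧ G.Adj w v then z v else 0) :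
    l * z w = z p + z p' + ∑ t, (if t = i ∨ t = j then 0 else
      nbn G f w t * (T t + z w) / l) := by
  have hij := h.ty.ij
  have hS : ∀ v, (if f v ≠ none ∧ G.Adj w v then z v else 0) =
      ∑ t, (if f v = some t ∧ G.Adj w v then z v else 0) := by
    intro v
    rcases hv : f v with _ | s
    · simp
    · by_cases ha : G.Adj w v
      · simp [ha]
      · simp [ha]
  have hc : ∀ t, (∑ v, if f v = some t ∧ G.Adj w v then z v else 0) =
      (if t = i then z p else 0) + (if t = j then z p' else 0) +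
        (if t = i ∨ t = j then 0 else nbn G f w t * (T t + z w) / l) := by
    intro t
    by_cases hti : t = i
    · subst hti
      simp only [single h.ni h.ty.hp h.wp, Finset.sum_ite_eq', Finset.mem_univ, if_true, hij,
        if_false, true_or, add_zero]
    by_cases htj : t = j
    · subst htj
      simp only [single h.nj h.ty.hp' h.wp', Finset.sum_ite_eq', Finset.mem_univ, if_true, hti,
        if_false, or_true, add_zero, zero_add]
    · rw [if_neg hti, if_neg htj, if_neg (by tauto), zero_add, zero_add]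
      have h1 : ∀ v, (if f v = some t ∧ G.Adj w v then z v else 0) =
          (if f v = some t ∧ G.Adj w v then (T t + z w) / l else 0) := by
        intro v
        split_ifs with hv
        · have hvp : v ≠ p := by
            intro e
            rw [e, h.ty.hp] at hv
            exact hti (Option.some.inj hv.1).symm
          have hvp' : v ≠ p' := by
            intro e
            rw [e, h.ty.hp'] at hv
            exact htj (Option.some.inj hv.1).symm
          have h2 := hrow v t hv.1 hvp hvp'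
          rw [if_pos hv.2] at h2
          rw [eq_div_iff hl.ne', ← h2]
          ring
        · rfl
      simp only [h1]
      rw [sum_ite_ncard, mul_div_assoc]
      rfl
  rw [hw]
  simp only [hS]
  rw [Finset.sum_comm]
  simp only [hc, Finset.sum_add_distrib, Finset.sum_ite_eq', Finset.mem_univ, if_true]

/-- the inequality in real numbers -/
theorem num {l n ω P' A B δ κ p0 s0 d θ ρ : ℝ} (hn : 40 ≤ n) (hl : n / 2 ≤ l)
    (hP1 : 1 / 2 ≤ P') (hP2 : P' ≤ 3 / 2) (hω0 : 0 ≤ ω) (hω3 : ω ≤ 3)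
    (hA : l ≤ A) (hB : l ≤ B) (hB2 : B ≤ l + n) (hδ : 0 < δ) (hκ : κ ≤ 1)
    (hp0 : p0 * (l - κ / l) = -((l * n - ω + P') * δ)) (hs0 : s0 = -p0 * (1 - 1 / B) / l)
    (hd : d = 1 ∨ (2 ≤ d ∧ d ≤ n))
    (hθ : θ = δ * ((d - 1) * ω + P') - p0 / B - s0 / A)
    (hρ : ρ = p0 + s0 + d * ((l * n - d * ω) * δ) / l) :
    0 < θ * (n + θ) + ρ * ω := by
  have hl20 : 20 ≤ l := by linarith
  have hlpos : 0 < l := by linarith
  have hApos : 0 < A := by linarith
  have hBpos : 0 < B := by linarith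
  have hx : 0 < l * n - ω + P' := by nlinarith
  have hκl : 0 < l - κ / l := by
    have h1 : κ / l ≤ 1 := by
      rw [div_le_one hlpos]
      linarith
    linarith
  have hp0' : p0 < 0 := by
    by_contra hcon
    push Not at hcon
    have h1 : 0 ≤ p0 * (l - κ / l) := mul_nonneg hcon hκl.le
    have h2 : 0 < (l * n - ω + P') * δ := mul_pos hx hδ
    linarith
  obtain ⟨u, hu⟩ : ∃ u, u = -p0 := ⟨_, rfl⟩
  have hu0 : 0 < u := by linarith
  have hp0u : p0 = -u := by linarith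
  have hB1 : 0 ≤ 1 - 1 / B := by
    have : 1 / B ≤ 1 := by
      rw [div_le_one hBpos]
      linarith
    linarith
  have hs0' : 0 ≤ s0 := by
    rw [hs0, ← hu]
    positivity
  -- lower bound for `θ`
  have hθ1 : s0 / A ≤ u / B := by
    rw [div_le_div_iff₀ hApos hBpos, hs0, ← hu]
    have h1 : u * (1 - 1 / B) / l * B = u * (B - 1) / l := by
      field_simp
    rw [h1, div_le_iff₀ hlpos]
    have h2 : B - 1 ≤ A * l := by nlinarith
    have h3 : u * (B - 1) ≤ u * (A * l) := mul_le_mul_of_nonneg_left h2 hu0.le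
    linarith
  have hd1 : 1 ≤ d := by
    rcases hd with h | h
    · rw [h]
    · linarith [h.1]
  have hθ2 : δ / 2 ≤ θ := by
    rw [hθ, hp0u]
    have h1 : 0 ≤ (d - 1) * ω := mul_nonneg (by linarith) hω0
    have h2 : δ * (1 / 2) ≤ δ * ((d - 1) * ω + P') := mul_le_mul_of_nonneg_left (by linarith) hδ.le
    have h3 : -u / B = -(u / B) := by ring
    rw [h3]
    linarith
  -- upper bound for `u`
  have hu1 : u ≤ δ * (n - ω / l + 30 / n) := by
    have h1 : u * (l - κ / l) = (l * n - ω + P') * δ := by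
      rw [hu]
      linarith
    have h2 : u * (l - 1 / l) ≤ (l * n - ω + P') * δ := by
      rw [← h1]
      apply mul_le_mul_of_nonneg_left _ hu0.le
      have : κ / l ≤ 1 / l := div_le_div_of_nonneg_right hκ hlpos.le
      linarith
    have h3 : (l * n - ω + P') ≤ (n - ω / l + 30 / n) * (l - 1 / l) := by
      have h4 : (n - ω / l + 30 / n) * (l - 1 / l) =
          l * n - ω + 30 * (l / n) - n / l + ω / (l * l) - 30 / (n * l) := by
        field_simp
        ring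
      rw [h4]
      have h5 : 1 / 2 ≤ l / n := by
        rw [le_div_iff₀ (by linarith)]
        linarith
      have h6 : n / l ≤ 2 := by
        rw [div_le_iff₀ hlpos]
        linarith
      have h7 : 0 ≤ ω / (l * l) := by positivity
      have h8 : 30 / (n * l) ≤ 1 := by
        rw [div_le_one (by positivity)]
        nlinarith
      linarith
    have h9 : 0 < l - 1 / l := by
      have : 1 / l ≤ 1 := by
        rw [div_le_one hlpos]
        linarith
      linarith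
    have h10 : u * (l - 1 / l) ≤ δ * (n - ω / l + 30 / n) * (l - 1 / l) := by
      calc u * (l - 1 / l) ≤ (l * n - ω + P') * δ := h2
        _ ≤ ((n - ω / l + 30 / n) * (l - 1 / l)) * δ := mul_le_mul_of_nonneg_right h3 hδ.le
        _ = _ := by ring
    exact le_of_mul_le_mul_right h10 h9
  have hnpos : 0 < n := by linarith
  have h30 : 30 / n ≤ 1 := by
    rw [div_le_one hnpos]
    linarith
  have hωl : 0 ≤ ω / l := by positivity
  have hdl : d * ((l * n - d * ω) * δ) / l = δ * (d * (n - d * (ω / l))) := by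
    field_simp
  -- lower bound for `ρ`
  have hρ1 : -(30 / n * δ) ≤ ρ := by
    rw [hρ, hdl, hp0u]
    rcases hd with h | h
    · rw [h]
      have : δ * (1 * (n - 1 * (ω / l))) = δ * (n - ω / l) := by ring
      rw [this]
      have h2 : δ * (n - ω / l + 30 / n) = δ * (n - ω / l) + 30 / n * δ := by ring
      rw [h2] at hu1
      linarith
    · have h1 : ω / l ≤ 6 / n := by
        rw [div_le_div_iff₀ hlpos hnpos]
        nlinarith
      have h2 : d * (ω / l) ≤ 6 := by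
        calc d * (ω / l) ≤ n * (6 / n) := mul_le_mul h.2 h1 hωl hnpos.le
          _ = 6 := by field_simp
      have h3 : 2 * (n - 6) ≤ d * (n - d * (ω / l)) :=
        mul_le_mul h.1 (by linarith) (by linarith) (by linarith)
      have h4 : δ * (2 * (n - 6)) ≤ δ * (d * (n - d * (ω / l))) :=
        mul_le_mul_of_nonneg_left h3 hδ.le
      have h5 : δ * (n - ω / l + 30 / n) ≤ δ * (n + 1) :=
        mul_le_mul_of_nonneg_left (by linarith) hδ.le
      have h6 : δ * (n + 1) ≤ δ * (2 * (n - 6)) := mul_le_mul_of_nonneg_left (by linarith) hδ.le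
      have h7 : 0 ≤ 30 / n * δ := by positivity
      linarith
  have h1 : δ / 2 * n ≤ θ * (n + θ) := by
    have h2 : 0 ≤ θ := by linarith
    have h3 : δ / 2 * n ≤ θ * n := mul_le_mul_of_nonneg_right hθ2 hnpos.le
    nlinarith
  have h2 : -(90 / n * δ) ≤ ρ * ω := by
    have h3 : -(30 / n * δ) * ω ≤ ρ * ω := mul_le_mul_of_nonneg_right hρ1 hω0
    have h4 : 30 / n * δ * ω ≤ 30 / n * δ * 3 := mul_le_mul_of_nonneg_left hω3 (by positivity)
    have h5 : 30 / n * δ * 3 = 90 / n * δ := by ring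
    linarith
  have h3 : 90 / n * δ < δ / 2 * n := by
    have h4 : 90 / n < n / 2 := by
      rw [div_lt_iff₀ hnpos]
      nlinarith
    have h5 : 90 / n * δ < n / 2 * δ := mul_lt_mul_of_pos_right h4 hδ
    linarith
  linarith

end ItemORQ

open ItemORQ in
theorem prfORQ : P_statement → FLB_statement → TCG_statement → TVQ_statement →
    ORQ_statement := by
  classical
  intro _ hFLB _ hTVQ r N hr
  obtain ⟨C, n₁, hC, hF⟩ := hFLB r N hr
  obtain ⟨n₂, hn₂⟩ := exists_nat_ge (6 * C + 40)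
  refine ⟨n₁ + n₂, ?_⟩
  intro V U _ _ G H f f' w p p' w' p₁ p₁' i j k n hn hBd hTh hTh' hki hkj hlt hs1 hs2 hs3 hd
  obtain ⟨⟨z, hz⟩, hz2⟩ := hF V G f w n (by omega) hBd
  obtain ⟨hz1, -, hzw, hlam⟩ := hz2 z hz
  have hij := hTh.ty.ij
  have hnC : 6 * C + 40 ≤ n := by
    have : (n₂ : ℝ) ≤ n := by exact_mod_cast (by omega : n₂ ≤ n)
    linarith
  have hn40 : (40 : ℝ) ≤ n := by linarith
  have hnpos : (0 : ℝ) < n := by linarith
  obtain ⟨e1, e2, e3, e4, e5⟩ := prfEIG1 r V G f w p p' i j z (lam G) hTh.ty hz.eig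
  rw [hz.sum] at e2 e3
  simp only [hz.sum] at e1 e4
  obtain ⟨l, hl⟩ : ∃ l, l = lam G := ⟨_, rfl⟩
  obtain ⟨T, hT⟩ : ∃ T : Fin r → ℝ, T = fun t => (n : ℝ) - cw z f (some t) := ⟨_, rfl⟩
  have hTt : ∀ t, cw z f (some t) = n - T t := fun t => by rw [hT]; ring
  rw [← hl] at e1 e2 e3 e4 e5 hlam ⊢
  simp only [hTt, sub_sub_cancel] at e1 e2 e3 e4
  rw [if_pos hTh.wp] at e2
  rw [if_pos hTh.wp'] at e3
  -- bounds
  have hr3 : (3 : ℝ) ≤ r := by exact_mod_cast hr
  have hq1 : 2 / 3 ≤ qq r := by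
    unfold qq
    have : 1 / (r : ℝ) ≤ 1 / 3 := by
      apply one_div_le_one_div_of_le <;> linarith
    linarith
  have hln : (n : ℝ) / 2 ≤ l := by
    have h1 := (abs_le.1 hlam).1
    have h2 : 2 / 3 * (n : ℝ) ≤ qq r * n := mul_le_mul_of_nonneg_right hq1 hnpos.le
    linarith
  have hlpos : 0 < l := by linarith
  have hCn : C / n ≤ 1 / 2 := by
    rw [div_le_iff₀ hnpos]
    linarith
  have hfp' : f p' ≠ none := by rw [hTh.ty.hp']; simp
  have hP' := abs_le.1 (hz1 p' hfp')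
  have hω0 : 0 ≤ z w := hz.nonneg w
  have hnbn : ∀ t, nbn G f w t ≤ siz f t := by
    intro t
    unfold nbn siz
    exact Set.ncard_le_ncard (fun v hv => hv.1) (Set.toFinite _)
  have hω3 : z w ≤ 3 := by
    have h1 : ((∑ t, nbn G f w t : ℕ) : ℝ) ≤ n := by
      have h2 : ∑ t, nbn G f w t ≤ n := by
        rw [← hBd.tot]
        exact Finset.sum_le_sum fun t _ => hnbn t
      exact_mod_cast h2
    have h3 : (2 * ((∑ t, nbn G f w t : ℕ) : ℝ) + C) / n ≤ 3 := by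
      rw [div_le_iff₀ hnpos]
      linarith
    linarith
  have hsn : ∀ t, siz f t ≤ n := by
    intro t
    rw [← hBd.tot]
    exact Finset.single_le_sum (f := siz f) (fun _ _ => Nat.zero_le _) (Finset.mem_univ t)
  have eqw := eq_w hTh hlpos T e1 e5
  -- the sum of `T`
  have hsumT : ∑ t, T t = ((r : ℝ) - 1) * n := by
    have h1 := hz.sum
    simp only [hTt, Finset.sum_sub_distrib, Finset.sum_const, Finset.card_univ,
      Fintype.card_fin, nsmul_eq_mul] at h1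
    linarith
  -- the class equations
  have eqi : (l + siz f i) * T i = l * n - z w + z p' := by
    have h1 := e4 i
    rw [hTh.ni, if_pos rfl, if_neg hij] at h1
    push_cast at h1
    linarith
  have eqj : (l + siz f j) * T j = l * n - z w + z p := by
    have h1 := e4 j
    rw [hTh.nj, if_neg hij.symm, if_pos rfl] at h1
    push_cast at h1
    linarith
  have eqt : ∀ t, t ≠ i → t ≠ j → (l + siz f t) * T t = l * n - nbn G f w t * z w := by
    intro t h1 h2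
    have h3 := e4 t
    rw [if_neg h1, if_neg h2] at h3
    linarith
  -- the parameters
  obtain ⟨A0, hA0⟩ : ∃ A0 : ℝ, A0 = l + siz f i := ⟨_, rfl⟩
  obtain ⟨A, hA⟩ : ∃ A : ℝ, A = l + siz f k := ⟨_, rfl⟩
  obtain ⟨B, hB⟩ : ∃ B : ℝ, B = l + siz f j := ⟨_, rfl⟩
  obtain ⟨δ, hδ⟩ : ∃ δ : ℝ, δ = 1 / A0 - 1 / A := ⟨_, rfl⟩
  obtain ⟨κ, hκ⟩ : ∃ κ : ℝ, κ = (1 - 1 / A) * (1 - 1 / B) := ⟨_, rfl⟩
  obtain ⟨p0, hp0⟩ : ∃ p0 : ℝ, p0 = -((l * n - z w + z p') * δ) / (l - κ / l) := ⟨_, rfl⟩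
  obtain ⟨s0, hs0⟩ : ∃ s0 : ℝ, s0 = -p0 * (1 - 1 / B) / l := ⟨_, rfl⟩
  have hsiz0 : ∀ t, (0 : ℝ) ≤ siz f t := fun t => Nat.cast_nonneg _
  have hA0l : l ≤ A0 := by rw [hA0]; linarith [hsiz0 i]
  have hAl : l ≤ A := by rw [hA]; linarith [hsiz0 k]
  have hBl : l ≤ B := by rw [hB]; linarith [hsiz0 j]
  have hB2 : B ≤ l + n := by
    rw [hB]
    have : (siz f j : ℝ) ≤ n := by exact_mod_cast hsn j
    linarith
  have hA0A : A0 < A := by
    rw [hA0, hA]
    have : (siz f i : ℝ) < siz f k := by exact_mod_cast hlt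
    linarith
  have hA0pos : 0 < A0 := by linarith
  have hApos : 0 < A := by linarith
  have hBpos : 0 < B := by linarith
  have hδpos : 0 < δ := by
    rw [hδ]
    have := one_div_lt_one_div_of_lt hA0pos hA0A
    linarith
  have hA1 : 0 ≤ 1 - 1 / A ∧ 1 - 1 / A ≤ 1 := by
    have h1 : 1 / A ≤ 1 := by
      rw [div_le_one hApos]
      linarith
    have h2 : 0 ≤ 1 / A := by positivity
    constructor <;> linarith
  have hB1 : 0 ≤ 1 - 1 / B ∧ 1 - 1 / B ≤ 1 := by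
    have h1 : 1 / B ≤ 1 := by
      rw [div_le_one hBpos]
      linarith
    have h2 : 0 ≤ 1 / B := by positivity
    constructor <;> linarith
  have hκ1 : κ ≤ 1 := by
    rw [hκ]
    exact mul_le_one₀ hA1.2 hB1.1 hB1.2
  have hκl : 0 < l - κ / l := by
    have h1 : κ / l ≤ 1 := by
      rw [div_le_one hlpos]
      linarith
    linarith
  have hp0' : p0 * (l - κ / l) = -((l * n - z w + z p') * δ) := by
    rw [hp0, div_mul_cancel₀ _ hκl.ne']
  obtain ⟨Ti, hTi⟩ : ∃ Ti : ℝ, Ti = (l * n - z w + (z p' + s0)) / A := ⟨_, rfl⟩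
  obtain ⟨Tj, hTj⟩ : ∃ Tj : ℝ, Tj = (l * n - z w + (z p + p0)) / B := ⟨_, rfl⟩
  obtain ⟨Tk, hTk⟩ : ∃ Tk : ℝ, Tk = (l * n - nbn G f w k * z w) / A0 := ⟨_, rfl⟩
  have dTi : Ti - T i = -((l * n - z w + z p') * δ) + s0 / A := by
    have h1 : T i = (l * n - z w + z p') / A0 := by
      rw [eq_div_iff hA0pos.ne', ← eqi, hA0]
      ring
    rw [hTi, h1, hδ]
    ring
  have dTj : Tj - T j = p0 / B := by
    have h1 : T j = (l * n - z w + z p) / B := by
      rw [eq_div_iff hBpos.ne', ← eqj, hB]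
      ring
    rw [hTj, h1]
    ring
  have dTk : Tk - T k = (l * n - nbn G f w k * z w) * δ := by
    have h1 : T k = (l * n - nbn G f w k * z w) / A := by
      rw [eq_div_iff hApos.ne', ← eqt k hki hkj, hA]
      ring
    rw [hTk, h1, hδ]
    ring
  obtain ⟨T', hT'⟩ : ∃ T' : Fin r → ℝ, T' = fun t => T t + (if t = i then Ti - T i else 0) +
      (if t = j then Tj - T j else 0) + (if t = k then Tk - T k else 0) := ⟨_, rfl⟩
  have T'i : T' i = Ti := by
    rw [hT']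
    simp [hij, hki.symm]
  have T'j : T' j = Tj := by
    rw [hT']
    simp [hij.symm, hkj.symm]
  have T'k : T' k = Tk := by
    rw [hT']
    simp [hki, hkj]
  have T't : ∀ t, t ≠ i → t ≠ j → t ≠ k → T' t = T t := by
    intro t h1 h2 h3
    rw [hT']
    simp [h1, h2, h3]
  have hsumT' : ∑ t, T' t = ∑ t, T t + (Ti - T i) + (Tj - T j) + (Tk - T k) := by
    rw [hT']
    simp only [Finset.sum_add_distrib, Finset.sum_ite_eq', Finset.mem_univ, if_true]
  have hsumD : ∑ t, (if t = i ∨ t = j then 0 else nbn H f' w' t * (T' t + z w) / l) =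
      ∑ t, (if t = i ∨ t = j then 0 else nbn G f w t * (T t + z w) / l) +
        nbn G f w k * (Tk - T k) / l := by
    have h1 : ∀ t, (if t = i ∨ t = j then 0 else nbn H f' w' t * (T' t + z w) / l) =
        (if t = i ∨ t = j then 0 else nbn G f w t * (T t + z w) / l) +
          (if t = k then nbn G f w k * (Tk - T k) / l else 0) := by
      intro t
      rw [hd]
      by_cases h2 : t = k
      · rw [h2, if_neg (by tauto), if_neg (by tauto), if_pos rfl, T'k]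
        ring
      · rw [if_neg h2, add_zero]
        by_cases h3 : t = i ∨ t = j
        · rw [if_pos h3, if_pos h3]
        · rw [if_neg h3, if_neg h3, T't t (by tauto) (by tauto) h2]
    simp only [h1, Finset.sum_add_distrib, Finset.sum_ite_eq', Finset.mem_univ, if_true]
  have hsj : siz f' j = siz f j := hs3 j hij.symm hkj.symm
  refine hTVQ r U H f' w' p₁ p₁' i j l (z w) (z p + p0) (z p' + s0) n T' hTh' hlpos
    ?_ ?_ ?_ ?_ ?_ ?_
  · intro t h1 h2
    rw [hd]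
    by_cases h3 : t = k
    · rw [h3, T'k, hs2, hTk, ← hA0, div_mul_cancel₀ _ hA0pos.ne']
    · rw [T't t h1 h2 h3, hs3 t h1 h3, mul_comm, eqt t h1 h2]
  · rw [T'i, hs1, hTi, ← hA, div_mul_cancel₀ _ hApos.ne']
    ring
  · rw [T'j, hsj, hTj, ← hB, div_mul_cancel₀ _ hBpos.ne']
    ring
  · rw [T'i]
    have h1 : Ti = T i + (-((l * n - z w + z p') * δ) + s0 / A) := by linarith
    have h2 : s0 * (1 - 1 / A) = -(p0 * (κ / l)) := by
      rw [hs0, hκ]
      ring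
    have h3 : s0 * (1 - 1 / A) = s0 - s0 / A := by ring
    have h4 : p0 * (l - κ / l) = l * p0 - p0 * (κ / l) := by ring
    rw [h1, mul_add]
    linarith
  · rw [T'j]
    have h1 : Tj = T j + p0 / B := by linarith
    have h2 : l * s0 = -p0 + p0 / B := by
      rw [hs0]
      field_simp
      ring
    rw [h1, mul_add]
    linarith
  · have hd1 : (nbn G f w k : ℝ) = 1 ∨ (2 ≤ (nbn G f w k : ℝ) ∧ (nbn G f w k : ℝ) ≤ n) := by
      have h1 := hTh.pos k
      rcases Nat.lt_or_ge (nbn G f w k) 2 with h2 | h2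
      · left
        have : nbn G f w k = 1 := by omega
        exact_mod_cast this
      · right
        exact ⟨by exact_mod_cast h2, by exact_mod_cast (hnbn k).trans (hsn k)⟩
    obtain ⟨θ, hθ⟩ : ∃ θ : ℝ, θ = δ * (((nbn G f w k : ℝ) - 1) * z w + z p') - p0 / B - s0 / A :=
      ⟨_, rfl⟩
    obtain ⟨ρ, hρ⟩ : ∃ ρ : ℝ, ρ = p0 + s0 + nbn G f w k *
      ((l * n - nbn G f w k * z w) * δ) / l := ⟨_, rfl⟩
    have hfin := num hn40 hln (by linarith : 1 / 2 ≤ z p') (by linarith : z p' ≤ 3 / 2) hω0 hω3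
      hAl hBl hB2 hδpos hκ1 hp0' hs0 hd1 hθ hρ
    have h1 : ((r : ℝ) - 1) * n - ∑ t, T' t = θ := by
      rw [hsumT', hsumT, dTi, dTj, dTk, hθ]
      ring
    have h2 : (r : ℝ) * n - ∑ t, T' t = n + θ := by
      rw [← h1]
      ring
    have h3 : z p + p0 + (z p' + s0) + ∑ t, (if t = i ∨ t = j then 0 else
        nbn H f' w' t * (T' t + z w) / l) - l * z w = ρ := by
      rw [hsumD, eqw, dTk, hρ]
      ring
    rw [h1, h2, h3]
    exact hfin

end MP0c3a8f

end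

section

/-!
# MP_0c3a8f_co, phase B, item PCK: the regimes
-/

open Finset

namespace MP0c3a8f

namespace ItemPCK

theorem pick (hT : TURN_statement) {r : ℕ} (hr : 2 ≤ r) (n₀ m : ℕ)
    (hm : (SimpleGraph.turanGraph n₀ r).edgeSet.ncard ≤ m) :
    ∃ n D B : ℕ, n₀ ≤ n ∧ (SimpleGraph.turanGraph n r).edgeSet.ncard + D = m ∧
      m + B = (SimpleGraph.turanGraph (n + 1) r).edgeSet.ncard ∧ D + B + n / r = n ∧ 1 ≤ B := by
  have hmono : Monotone (fun n => (SimpleGraph.turanGraph n r).edgeSet.ncard) :=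
    monotone_nat_of_le_succ (fun n => ItemFINA.eT_le hT hr n)
  have hex : ∃ k, m < (SimpleGraph.turanGraph k r).edgeSet.ncard := by
    refine ⟨m + 3, ?_⟩
    have := ItemFINA.eT_ge hT hr (m + 3)
    omega
  classical
  obtain ⟨k, hk, hmin⟩ : ∃ k, m < (SimpleGraph.turanGraph k r).edgeSet.ncard ∧
      ∀ j < k, ¬ m < (SimpleGraph.turanGraph j r).edgeSet.ncard :=
    ⟨Nat.find hex, Nat.find_spec hex, fun j hj => Nat.find_min hex hj⟩
  obtain _ | n := k
  · rw [ItemFINA.eT_zero] at hk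
    exact absurd hk (Nat.not_lt_zero _)
  · have h1 : (SimpleGraph.turanGraph n r).edgeSet.ncard ≤ m := not_lt.1 (hmin n (by omega))
    have h2 := hT r n (by omega)
    have h3 : n / r ≤ n := Nat.div_le_self n r
    refine ⟨n, m - (SimpleGraph.turanGraph n r).edgeSet.ncard,
      (SimpleGraph.turanGraph (n + 1) r).edgeSet.ncard - m, ?_, by omega, by omega, by omega,
      by omega⟩
    by_contra hlt
    have h4 : n + 1 ≤ n₀ := by omega
    have h5 := hmono h4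
    simp only at h5
    omega

end ItemPCK

open ItemPCK in
/-- Item PCK. -/
theorem prfPCK : TURN_statement → PCK_statement := by
  intro hT r ε₁ ε₂ hr hε₁ hε₂ n₀
  obtain ⟨hq0, hq1⟩ := ItemFINA.qq_bd hr
  have hqp : 0 < qq r := by linarith
  obtain ⟨ε, hεd⟩ : ∃ ε : ℝ, ε = min ε₁ (ε₂ / 2) := ⟨_, rfl⟩
  have hε1 : ε ≤ ε₁ := by rw [hεd]; exact min_le_left _ _
  have hε2 : ε ≤ ε₂ / 2 := by rw [hεd]; exact min_le_right _ _
  obtain ⟨M, hM⟩ : ∃ M : ℕ, M = ⌈1 / (ε₂ / 2 * qq r)⌉₊ + 1 := ⟨_, rfl⟩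
  have hM1 : 1 < (M : ℝ) * (ε₂ / 2 * qq r) := by
    have h1 : 1 / (ε₂ / 2 * qq r) ≤ (⌈1 / (ε₂ / 2 * qq r)⌉₊ : ℝ) := Nat.le_ceil _
    have h2 : 0 < ε₂ / 2 * qq r := by positivity
    rw [div_le_iff₀ h2] at h1
    rw [hM]
    push_cast
    linarith
  refine ⟨(SimpleGraph.turanGraph (n₀ + M + 1) r).edgeSet.ncard, fun m hm => ?_⟩
  obtain ⟨n, D, B, hn, hnD, hnB, hDB, hB1⟩ := ItemPCK.pick hT (by omega : 2 ≤ r) _ m hm
  refine ⟨n, D, B, by omega, hnD, hnB, hB1, ?_⟩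
  rw [← hεd]
  obtain ⟨hBn, hDn, hDq, hDBq, hBr⟩ := ItemFINA.facts hr hDB
  have hnR : (M : ℝ) ≤ n := by
    have : M ≤ n := by omega
    exact_mod_cast this
  have hn1 : (1 : ℝ) ≤ n := by
    have : 1 ≤ n := by omega
    exact_mod_cast this
  have hqn : 0 < qq r * (n : ℝ) := by positivity
  have hbig : 1 < ε₂ / 2 * (qq r * n) := by
    have h1 : (M : ℝ) * (ε₂ / 2 * qq r) ≤ n * (ε₂ / 2 * qq r) :=
      mul_le_mul_of_nonneg_right hnR (by positivity)
    have h2 : (n : ℝ) * (ε₂ / 2 * qq r) = ε₂ / 2 * (qq r * n) := by ring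
    linarith
  by_cases ha : (D : ℝ) ≤ ε₁ * n
  · exact Or.inl ha
  rw [not_le] at ha
  by_cases hb : (D : ℝ) ≤ (1 - 2 / (r : ℝ) - ε) * (qq r * n)
  · right
    left
    refine ⟨?_, hb⟩
    have h1 : ε * (qq r * n) ≤ ε₁ * (qq r * n) := mul_le_mul_of_nonneg_right hε1 hqn.le
    have h2 : ε₁ * (qq r * n) ≤ ε₁ * (1 * n) :=
      mul_le_mul_of_nonneg_left (mul_le_mul_of_nonneg_right hq1 (by linarith)) hε₁.le
    linarith
  rw [not_le] at hb
  have h0 : ε * (qq r * n) ≤ ε₂ / 2 * (qq r * n) := mul_le_mul_of_nonneg_right hε2 hqn.le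
  by_cases hc : |(D : ℝ) - (1 - 2 / (r : ℝ)) * (qq r * n)| ≤ ε₂ * (qq r * n)
  · exact Or.inr (Or.inr (Or.inl ⟨hc, hDB⟩))
  right
  right
  right
  have hd : (1 - 2 / (r : ℝ) + ε₂) * (qq r * n) < D := by
    by_contra hcon
    rw [not_lt] at hcon
    apply hc
    rw [abs_le]
    have h1 : 0 < ε₂ * (qq r * n) := by positivity
    constructor
    · linarith
    · linarith
  have h6 : (B : ℝ) ≤ (2 / (r : ℝ)) * (qq r * n) - ε₂ * (qq r * n) + 1 := by linarith
  push_cast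
  by_cases hε4 : ε₂ / 2 ≤ 2 / (r : ℝ)
  · have h7 : 0 ≤ (2 / (r : ℝ) - ε₂ / 2) * qq r :=
      mul_nonneg (by linarith) hqp.le
    have e3 : (2 / (r : ℝ) - ε₂ / 2) * (qq r * ((n : ℝ) + 1)) = 2 / (r : ℝ) * (qq r * n)
        - ε₂ / 2 * (qq r * n) + (2 / (r : ℝ) - ε₂ / 2) * qq r := by ring
    linarith
  · exfalso
    rw [not_le] at hε4
    have h8 : 2 / (r : ℝ) * (qq r * n) < ε₂ / 2 * (qq r * n) :=
      mul_lt_mul_of_pos_right hε4 hqn
    have hB0 : (0 : ℝ) ≤ B := Nat.cast_nonneg B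
    linarith

end MP0c3a8f

end

section

/-!
# MP_0c3a8f_co: item SDX (small `D`, the extremal graphs have type `R`)
-/

open Finset

namespace MP0c3a8f

namespace ItemSDX

theorem light_empty {V : Type} {r : ℕ} (G : SimpleGraph V) (g : V → Option (Fin r)) :
    lightSet G g ∅ = outSet G g := by
  ext e
  simp [lightSet, outSet]

theorem tz_max {r : ℕ} (n : ℕ) (o t : Fin r) (ho : o.val = 0) : tz r n t ≤ tz r n o := by
  unfold tz
  by_cases h : t.val < n % r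
  · rw [if_pos h, if_pos (by omega)]
  · rw [if_neg h]; omega

end ItemSDX

open ItemSDX in
theorem prfSDX : DEV_statement → CNTU_statement → RSS_statement → RSE_statement →
    MEM2_statement → REL_statement → SDX_statement := by
  intro hDEV hCNT hRSS hRSE hMEM hREL r N hr
  obtain ⟨ε1, hε1, b1, n1, h1⟩ := hRSS r N hr
  obtain ⟨ε2, hε2, n2, h2⟩ := hRSE r (N + r) hr
  refine ⟨min ε1 ε2, lt_min hε1 hε2, b1, n1 + n2 + r, ?_⟩
  intro n hn D hb1 hDε hND hNDn V _ G hMx hAlt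
  obtain ⟨_, g, w, hBd, hg⟩ := hAlt
  obtain ⟨hmiss, π, hπ⟩ := hg hND hNDn
  set m := (SimpleGraph.turanGraph n r).edgeSet.ncard + D with hm
  have hMxK : MxK r m G := hMx
  have hE : G.edgeSet.ncard = m := hMx.1.size
  obtain ⟨d1, _, _, _, _, d6⟩ := hDEV r n (siz g) (by omega) hBd.tot
  unfold Sz at d6
  rw [d1] at d6
  have hsq : ∑ t, siz g t ^ 2 = ∑ t, tz r n t ^ 2 := by
    rw [← Equiv.sum_comp π (fun t => tz r n t ^ 2)]
    exact Finset.sum_congr rfl (fun t _ => by rw [hπ t])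
  -- the number of outer edges
  have hout : (outSet G g).ncard = D := by
    obtain ⟨e, he, hc⟩ := hCNT r V G g ∅ hBd.indep (by simp)
    rw [light_empty, hmiss, hBd.tot, hE, hsq] at hc
    simp only [Finset.card_empty, Finset.sum_empty] at he hc
    omega
  have hn0 : (0 : ℝ) ≤ n := Nat.cast_nonneg n
  have hD1 : ((outSet G g).ncard : ℝ) ≤ ε1 * n := by
    rw [hout]
    exact hDε.trans (mul_le_mul_of_nonneg_right (min_le_left _ _) hn0)
  have hD2 : ((outSet G g).ncard : ℝ) ≤ ε2 * n := by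
    rw [hout]
    exact hDε.trans (mul_le_mul_of_nonneg_right (min_le_right _ _) hn0)
  obtain ⟨w', u, v, k, hTh, hlight⟩ := h1 V G g w n m (by omega) hMxK hBd hmiss
    (by rw [hout]; exact hb1) hD1
  have hBd' : Bd n (N + r) G g w' := by
    refine ⟨hBd.indep, (hTh.ty.out w').2 (Or.inl rfl), hBd.tot, ?_⟩
    have h3 := hBd.bnd
    rw [hmiss] at h3
    rw [hmiss, hlight]
    have h4 : (0 : ℝ) ≤ ((lightSet G g {w}).ncard : ℝ) := Nat.cast_nonneg _
    push_cast at h3 ⊢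
    linarith
  obtain ⟨e1, e2, e3⟩ := h2 V G g w' u v k n m (by omega) hMxK hBd' hD2 hTh
  have hsz1 : ∀ t, 1 ≤ siz g t := by
    intro t
    rw [hπ t]
    unfold tz
    have : 1 ≤ n / r := Nat.div_pos (by omega) (by omega)
    omega
  have hsum : ∑ t, nbn G g w' t + r = D := by
    have h3 := (hMEM r V G g w' u v k hr hTh hsz1).2.2.2
    rw [hBd.tot, hE, hsq] at h3
    omega
  -- the renumbering
  have hr0 : 0 < r := by omega
  obtain ⟨o, ho⟩ : ∃ o : Fin r, o.val = 0 := ⟨⟨0, hr0⟩, rfl⟩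
  have hko : tz r n (π k) = tz r n o := by
    refine le_antisymm (tz_max n o _ ho) ?_
    have h3 := e1 (π.symm o)
    rw [hπ, hπ, Equiv.apply_symm_apply] at h3
    exact h3
  set ρ : Equiv.Perm (Fin r) := π.trans (Equiv.swap (π k) o) with hρ
  have hρk : ρ k = o := by rw [hρ, Equiv.trans_apply, Equiv.swap_apply_left]
  have hρt : ∀ t, tz r n (ρ t) = siz g t := by
    intro t
    rw [hρ, Equiv.trans_apply, hπ t]
    by_cases h3 : π t = π k
    · rw [h3, Equiv.swap_apply_left, hko]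
    · by_cases h4 : π t = o
      · rw [h4, Equiv.swap_apply_right, hko]
      · rw [Equiv.swap_apply_of_ne_of_ne h3 h4]
  obtain ⟨r1, r2, _, r4⟩ := hREL r V G g ρ
  have hρs : ∀ t, siz (fun v => (g v).map ρ) t = siz g (ρ.symm t) := by
    intro t
    rw [← r1 (ρ.symm t), Equiv.apply_symm_apply]
  have hρn : ∀ t, nbn G (fun v => (g v).map ρ) w' t = nbn G g w' (ρ.symm t) := by
    intro t
    rw [← r2 w' (ρ.symm t), Equiv.apply_symm_apply]
  have hsk : ∀ t, t ≠ ρ k → ρ.symm t ≠ k := by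
    intro t ht h3
    exact ht (by rw [← h3, Equiv.apply_symm_apply])
  refine ⟨fun v => (g v).map ρ, w', u, fun t => v (ρ.symm t), ρ k, by rw [hρk, ho],
    r4 w' u v k hTh, ?_, ?_, ?_, ?_, ?_⟩
  · obtain ⟨t, ⟨ht1, ht2⟩, ht3⟩ := e2
    refine ⟨ρ t, ⟨fun h => ht1 (ρ.injective h), by
      simp only [Equiv.symm_apply_apply]
      exact ht2⟩, ?_⟩
    rintro s ⟨hs1, hs2⟩
    have h3 := ht3 (ρ.symm s) ⟨hsk s hs1, hs2⟩
    rw [← h3, Equiv.apply_symm_apply]
  · intro t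
    rw [hρs, ← hρt, Equiv.apply_symm_apply]
  · rw [← hsum]
    congr 1
    rw [← Equiv.sum_comp ρ (fun t => nbn G (fun v => (g v).map ρ) w' t)]
    exact Finset.sum_congr rfl (fun t _ => r2 w' t)
  · intro s t hs ht hst
    have hs' : s ≠ ρ k := fun h => by rw [h, hρk, ho] at hs; omega
    have ht' : t ≠ ρ k := fun h => by rw [h, hρk, ho] at ht; omega
    have h3 := (e3 (ρ.symm s) (ρ.symm t) (hsk s hs') (hsk t ht')).1
    rw [← hρt, ← hρt, Equiv.apply_symm_apply, Equiv.apply_symm_apply] at h3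
    rw [hρn, hρn]
    exact h3 hst
  · intro s t hs ht hst h2s
    have hs' : s ≠ ρ k := fun h => by rw [h, hρk, ho] at hs; omega
    have ht' : t ≠ ρ k := fun h => by rw [h, hρk, ho] at ht; omega
    have h3 := (e3 (ρ.symm s) (ρ.symm t) (hsk s hs') (hsk t ht')).2
    rw [← hρt, ← hρt, Equiv.apply_symm_apply, Equiv.apply_symm_apply] at h3
    have h4 := h3 hst
    rw [hρn] at h2s
    omega

end MP0c3a8f

end

section

/-!
# MP_0c3a8f_co: uniqueness, type `P`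
-/

open Finset

namespace MP0c3a8f

namespace UNP

theorem sum_lc {V : Type} {r : ℕ} (L : Finset V) (f : V → Option (Fin r))
    (hL : ∀ v ∈ L, f v ≠ none) : ∑ t, lc L f t = L.card := by
  classical
  have h1 : ∀ t, lc L f t = (L.filter fun v => f v = some t).card := by
    intro t
    unfold lc
    rw [← Set.ncard_coe_finset]
    congr 1
    ext v
    simp
  simp_rw [h1, Finset.card_filter]
  rw [Finset.sum_comm, Finset.card_eq_sum_ones]
  refine Finset.sum_congr rfl fun v hv => ?_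
  obtain ⟨s, hs⟩ := Option.ne_none_iff_exists'.mp (hL v hv)
  simp [hs]

theorem lc_eq_zero {V : Type} {r : ℕ} {L : Finset V} {f : V → Option (Fin r)} {t : Fin r}
    (h : ∀ v ∈ L, f v ≠ some t) : lc L f t = 0 := by
  have : {v | v ∈ L ∧ f v = some t} = (∅ : Set V) := by
    ext v
    simp only [Set.mem_ofPred_eq, Set.mem_empty_iff_false, iff_false, not_and]
    exact h v
  unfold lc
  rw [this, Set.ncard_empty]

end UNP

open UNP in
theorem prfUNP : MEMP_statement → TIP_statement → GVG_statement → UNP_statement := by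
  classical
  intro hMEMP hTIP hGVG r m σ V U _ _ G H hr hGm hHm hG hH
  obtain ⟨f, w, q, i, L, hT, hq, hs, hmax, hleaf, hev⟩ := hG
  obtain ⟨f', w', q', i', L', hT', hq', hs', hmax', hleaf', hev'⟩ := hH
  have hLL : L.card = L'.card := by
    have h1 := (hMEMP r V G f w q i L hr hT).2.2.2.2.2.2
    have h2 := (hMEMP r U H f' w' q' i' L' hr hT').2.2.2.2.2.2
    simp_rw [hs] at h1
    simp_rw [hs'] at h2
    rw [hGm] at h1
    rw [hHm] at h2
    omega
  have hii : σ i = σ i' := le_antisymm (hmax' i) (hmax i')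
  set τ : Equiv.Perm (Fin r) := Equiv.swap i i' with hτ
  have hτσ : ∀ t, σ (τ t) = σ t := by
    intro t
    rw [hτ, Equiv.swap_apply_def]
    split_ifs with h1 h2
    · rw [h1, hii]
    · rw [h2, hii]
    · rfl
  have hτi : τ i = i' := by rw [hτ, Equiv.swap_apply_left]
  have hτne : ∀ t, t ≠ i → τ t ≠ i' := fun t ht h => ht (τ.injective (by rw [h, hτi]))
  obtain ⟨π, hπ1, hπ2, hπ3⟩ := hGVG r 0 (Finset.univ.filter fun t => t ≠ i)
    (fun t => -(σ t : ℤ)) (lc L f) (fun t => lc L' f' (τ t)) (by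
      intro t ht
      have hti : t = i := by simpa using ht
      subst hti
      rw [hτi, lc_eq_zero fun v hv => (hT.hL v hv).2, lc_eq_zero fun v hv => (hT'.hL v hv).2])
    (fun t _ => ⟨Nat.zero_le _, Nat.zero_le _⟩) (by
      intro k hk l hl hkl
      have hk' : k ≠ i := by simpa using hk
      have hl' : l ≠ i := by simpa using hl
      have hkl' : σ k < σ l := by
        have h1 : -(σ l : ℤ) < -(σ k : ℤ) := hkl
        omega
      refine ⟨lc_eq_zero fun v hv hvk => ?_, lc_eq_zero fun v hv hvk => ?_⟩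
      · have := hleaf v hv k hvk l hl'
        omega
      · have := hleaf' v hv (τ k) hvk (τ l) (hτne l hl')
        rw [hτσ, hτσ] at this
        omega) (by
      intro k hk l hl hkl
      have hk' : k ≠ i := by simpa using hk
      have hl' : l ≠ i := by simpa using hl
      have hkl' : σ k = σ l := by
        have h1 : -(σ k : ℤ) = -(σ l : ℤ) := hkl
        omega
      exact ⟨hev k l hk' hl' hkl',
        hev' (τ k) (τ l) (hτne k hk') (hτne l hl') (by rw [hτσ, hτσ, hkl'])⟩) (by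
      rw [sum_lc L f fun v hv => (hT.hL v hv).1, Equiv.sum_comp τ (fun t => lc L' f' t),
        sum_lc L' f' fun v hv => (hT'.hL v hv).1, hLL])
  have hπi : π i = i := hπ1 i (by simp)
  have hπσ : ∀ t, σ (π t) = σ t := by
    intro t
    have h1 : -(σ (π t) : ℤ) = -(σ t : ℤ) := hπ2 t
    omega
  have hi2 : (π.trans τ) i = i' := by
    rw [Equiv.trans_apply, hπi, hτi]
  refine hTIP r V U G H f f' w w' q q' i L L' (π.trans τ) hr hT (by rw [hi2]; exact hT') ?_ ?_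
    hq hq'
  · intro t
    rw [hs', hs, Equiv.trans_apply, hτσ, hπσ]
  · intro t
    rw [Equiv.trans_apply]
    exact hπ3 t

end MP0c3a8f

end

section

/-!
# MP_0c3a8f_co, item UNQ: uniqueness of the candidates of type `Q`
-/

open Finset

namespace MP0c3a8f

namespace ItemUNQ

theorem relab (hREL : REL_statement) {r : ℕ} {V : Type} [Fintype V] {G : SimpleGraph V}
    {f : V → Option (Fin r)} {w p p' : V} {i j : Fin r} (π : Equiv.Perm (Fin r))
    (h : Th1 G f w p p' (π i) (π j)) :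
    ∃ f₁ : V → Option (Fin r), Th1 G f₁ w p p' i j ∧ (∀ t, siz f₁ t = siz f (π t)) ∧
      ∀ t, nbn G f₁ w t = nbn G f w (π t) := by
  obtain ⟨h1, h2, h3, -⟩ := hREL r V G f π.symm
  refine ⟨fun v => (f v).map π.symm, ?_, ?_, ?_⟩
  · have := (h3 w p p' _ _ h).1
    simpa using this
  · intro t
    have := h1 (π t)
    simpa using this
  · intro t
    have := h2 w (π t)
    simpa using this

theorem nbn_le_siz {r : ℕ} {V : Type} [Fintype V] (G : SimpleGraph V)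
    (f : V → Option (Fin r)) (w : V) (t : Fin r) : nbn G f w t ≤ siz f t := by
  unfold nbn siz
  exact Set.ncard_le_ncard (fun v hv => hv.1) (Set.toFinite _)

theorem exTau {r : ℕ} (σ : Fin r → ℕ) {i j i' j' : Fin r} (hij : i ≠ j) (hij' : i' ≠ j')
    (hi : ∀ t, σ t ≤ σ i) (hi' : ∀ t, σ t ≤ σ i') (hj : ∀ t, t ≠ i → σ t ≤ σ j)
    (hj' : ∀ t, t ≠ i' → σ t ≤ σ j') :
    ∃ τ : Equiv.Perm (Fin r), τ i = i' ∧ τ j = j' ∧ ∀ t, σ (τ t) = σ t := by
  have e1 : σ i = σ i' := le_antisymm (hi' i) (hi i')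
  have e2 : σ j = σ j' := by
    apply le_antisymm
    · by_cases h : j = i'
      · have : i ≠ i' := fun hh => hij (hh.trans h.symm)
        calc σ j ≤ σ i := hi j
          _ ≤ σ j' := hj' i this
      · exact hj' j h
    · by_cases h : j' = i
      · have : i' ≠ i := fun hh => hij' (hh.trans h.symm)
        calc σ j' ≤ σ i' := hi' j'
          _ ≤ σ j := hj i' this
      · exact hj j' h
  have sw : ∀ a b : Fin r, σ a = σ b → ∀ t, σ (Equiv.swap a b t) = σ t := by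
    intro a b hab t
    rcases eq_or_ne t a with h | h
    · subst h
      rw [Equiv.swap_apply_left, hab]
    · rcases eq_or_ne t b with h' | h'
      · subst h'
        rw [Equiv.swap_apply_right, hab]
      · rw [Equiv.swap_apply_of_ne_of_ne h h']
  set x : Fin r := Equiv.swap i i' j with hx
  have hxi : i' ≠ x := by
    intro h
    have h1 : Equiv.swap i i' i = Equiv.swap i i' j := by
      rw [Equiv.swap_apply_left]
      exact h
    exact hij ((Equiv.swap i i').injective h1)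
  have hxs : σ x = σ j' := by
    rw [hx, sw i i' e1 j, e2]
  refine ⟨Equiv.swap x j' * Equiv.swap i i', ?_, ?_, ?_⟩
  · rw [Equiv.Perm.mul_apply, Equiv.swap_apply_left, Equiv.swap_apply_of_ne_of_ne hxi hij']
  · rw [Equiv.Perm.mul_apply, ← hx, Equiv.swap_apply_left]
  · intro t
    rw [Equiv.Perm.mul_apply, sw x j' hxs, sw i i' e1]

end ItemUNQ

theorem prfUNQ : MEM1_statement → REL_statement → ISO1_statement → GVH_statement →
    UNQ_statement := by
  intro hMEM hREL hISO hGVH r m σ V U _ _ G H hr hσ hG hH hYG hYH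
  obtain ⟨f, w, p, p₁, i, j, hT, hs, hi, hj, hst⟩ := hYG
  obtain ⟨f', w', p', p₁', i', j', hT', hs', hi', hj', hst'⟩ := hYH
  obtain ⟨τ, hτi, hτj, hτ⟩ := ItemUNQ.exTau σ hT.ty.ij hT'.ty.ij hi hi' hj hj'
  have hT1 : Th1 H f' w' p' p₁' (τ i) (τ j) := by
    rw [hτi, hτj]
    exact hT'
  obtain ⟨f₁, hT₁, hs₁, hn₁⟩ := ItemUNQ.relab hREL τ hT1
  have hs₁' : ∀ t, siz f₁ t = σ t := fun t => by rw [hs₁, hs', hτ]
  have e1 := (hMEM r V G f w p p₁ i j hr hT (fun t => by rw [hs]; exact hσ t)).2.2.2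
  have e2 := (hMEM r U H f₁ w' p' p₁' i j hr hT₁ (fun t => by rw [hs₁']; exact hσ t)).2.2.2
  simp only [hs] at e1
  simp only [hs₁'] at e2
  rw [hG] at e1
  rw [hH] at e2
  have hsum : ∑ t, nbn G f w t = ∑ t, nbn H f₁ w' t := by omega
  have hne : ∀ t, t ≠ i → t ≠ j → τ t ≠ i' ∧ τ t ≠ j' := by
    intro t h1 h2
    constructor
    · intro h
      rw [← hτi] at h
      exact h1 (τ.injective h)
    · intro h
      rw [← hτj] at h
      exact h2 (τ.injective h)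
  obtain ⟨π, hπ1, hπ2, hπ3⟩ := hGVH r (Finset.univ.filter (fun t => t ≠ i ∧ t ≠ j)) σ
    (nbn G f w) (nbn H f₁ w')
    (by
      intro t ht
      have ht' : t = i ∨ t = j := by
        by_contra hc
        push Not at hc
        exact ht (by simpa using hc)
      rcases ht' with h | h
      · rw [h, hT.ni, hT₁.ni]
      · rw [h, hT.nj, hT₁.nj])
    (by
      intro t _
      refine ⟨hT.pos t, ?_, hT₁.pos t, ?_⟩
      · rw [← hs t]
        exact ItemUNQ.nbn_le_siz G f w t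
      · rw [← hs₁' t]
        exact ItemUNQ.nbn_le_siz H f₁ w' t)
    (by
      intro s hs0 t ht0 hst0
      have h1 : s ≠ i ∧ s ≠ j := by simpa using hs0
      have h2 : t ≠ i ∧ t ≠ j := by simpa using ht0
      refine ⟨(hst s t h1.1 h1.2 h2.1 h2.2).1 hst0, ?_⟩
      rw [hn₁, hn₁]
      refine (hst' (τ s) (τ t) (hne s h1.1 h1.2).1 (hne s h1.1 h1.2).2 (hne t h2.1 h2.2).1
        (hne t h2.1 h2.2).2).1 ?_
      rw [hτ, hτ]
      exact hst0)
    (by
      intro s hs0 t ht0 hst0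
      have h1 : s ≠ i ∧ s ≠ j := by simpa using hs0
      have h2 : t ≠ i ∧ t ≠ j := by simpa using ht0
      refine ⟨(hst s t h1.1 h1.2 h2.1 h2.2).2 hst0, ?_⟩
      rw [hn₁, hn₁]
      have h3 := (hst' (τ s) (τ t) (hne s h1.1 h1.2).1 (hne s h1.1 h1.2).2 (hne t h2.1 h2.2).1
        (hne t h2.1 h2.2).2).2
      rw [hτ, hτ] at h3
      exact h3 hst0)
    hsum
  have hπi : π i = i := hπ1 i (by simp)
  have hπj : π j = j := hπ1 j (by simp)
  have hT2 : Th1 H f₁ w' p' p₁' (π i) (π j) := by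
    rw [hπi, hπj]
    exact hT₁
  obtain ⟨f₂, hT₂, hs₂, hn₂⟩ := ItemUNQ.relab hREL π hT2
  refine hISO r V U G H f f₂ w p p₁ w' p' p₁' i j hT hT₂ ?_ ?_
  · intro t
    rw [hs, hs₂, hs₁', hπ2]
  · intro t
    rw [hn₂, hπ3]

end MP0c3a8f

end
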