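import Pool.Agent.Work.MP_0c3a8f_co.PB.Stmts10
import Pool.Agent.Work.MP_0c3a8f_co.Bd.B17
import Pool.Agent.Work.MP_0c3a8f_co.Bd.B22
import Pool.Agent.Work.MP_0c3a8f_co.Bd.B16
import Pool.Agent.Work.MP_0c3a8f_co.Bd.B12

/-! Bundle of small proof modules (one section per former module). -/

section

/-! Item QEL: the neighbours of `w` are spread greedily, type `Q`, one vertex of large degree. -/

set_option autoImplicit false

open Finset

namespace MP0c3a8f

namespace ItemQEL

open ItemEVF1 (mv)

/-- the real inequality for (B) -/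
theorem numB {u n E lam σs σt d ds z Ts Tt : ℝ} (hu0 : 0 < u) (hu1 : u ≤ 1 / 3)
    (hE : 1 ≤ E) (hn : 100 * E + 100 ≤ n)
    (hl1 : (1 - u) * n - E ≤ lam) (hl2 : lam ≤ (1 - u) * n + E)
    (hs1 : σs ≤ u * n + E) (ht0 : 0 ≤ σt) (hst : σt + 1 ≤ σs)
    (hd0 : 0 ≤ d) (hd : d ≤ σt) (hds : 0 ≤ ds) (hz : 0 < z)
    (hzn : n * z ≤ 2 * (1 - 2 * u) * n + 5 * E)
    (hs : (lam + σs) * Ts = lam * n - ds * z) (ht : (lam + σt) * Tt = lam * n - d * z)
    (hkey : Tt - Ts ≤ z / lam) : False := by
  have hn0 : 0 < n := by linarith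
  have hun : u * n ≤ n / 3 := by
    have := mul_le_mul_of_nonneg_right hu1 hn0.le
    linarith
  have hun0 : 0 < u * n := mul_pos hu0 hn0
  have hlam : n / 2 ≤ lam := by linarith
  have hlam0 : 0 < lam := by linarith
  have hP0 : 0 < lam + σt := by linarith
  have hQ0 : 0 < lam + σs := by linarith
  have hP1 : lam + σt ≤ n + 2 * E := by linarith
  have hQ1 : lam + σs ≤ n + 2 * E := by linarith
  have hz3 : z ≤ 3 := by
    have e : 2 * (1 - 2 * u) * n = 2 * n - 4 * (u * n) := by ring
    have h1 : n * z ≤ n * 3 := by linarith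
    exact le_of_mul_le_mul_left h1 hn0
  -- the product
  have h1 : (lam + σt) * (lam + σs) * (Tt - Ts) =
      lam * n * (σs - σt) - (lam + σs) * (d * z) + (lam + σt) * (ds * z) := by
    linear_combination (lam + σs) * ht - (lam + σt) * hs
  have h2 : lam * n ≤ lam * n * (σs - σt) := by
    have : lam * n * 1 ≤ lam * n * (σs - σt) :=
      mul_le_mul_of_nonneg_left (by linarith) (mul_pos hlam0 hn0).le
    linarith
  have h3 : 0 ≤ (lam + σt) * (ds * z) := mul_nonneg hP0.le (mul_nonneg hds hz.le)
  have h4 : (lam + σt) * (lam + σs) * (Tt - Ts) ≤ 24 * n := by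
    have h5 : (lam + σt) * (lam + σs) * (Tt - Ts) ≤ (lam + σt) * (lam + σs) * (z / lam) :=
      mul_le_mul_of_nonneg_left hkey (mul_pos hP0 hQ0).le
    have h6 : (lam + σt) * (lam + σs) * (z / lam) ≤ 24 * n := by
      rw [← mul_div_assoc, div_le_iff₀ hlam0]
      have h7 : (lam + σt) * (lam + σs) ≤ (2 * n) * (2 * n) :=
        mul_le_mul (by linarith) (by linarith) hQ0.le (by linarith)
      have h8 : (lam + σt) * (lam + σs) * z ≤ (2 * n) * (2 * n) * 3 :=
        mul_le_mul h7 hz3 hz.le (by positivity)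
      have h9 : 24 * n * (n / 2) ≤ 24 * n * lam :=
        mul_le_mul_of_nonneg_left hlam (by linarith)
      have e : (2 * n) * (2 * n) * 3 = 24 * n * (n / 2) := by ring
      linarith
    exact h5.trans h6
  -- `Q d z`
  have h5 : (lam + σs) * (d * z) ≤ (u * n + 4 * E) * (n * z) := by
    have h6 : (lam + σs) * d ≤ (n + 2 * E) * (u * n + E) :=
      mul_le_mul hQ1 (by linarith) hd0 (by linarith)
    have h7 : (n + 2 * E) * (u * n + E) ≤ (u * n + 4 * E) * n := by
      have e1 : E * (u * n) ≤ E * (n / 3) := mul_le_mul_of_nonneg_left hun (by linarith)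
      have e2 : E * E ≤ E * (n / 100) := mul_le_mul_of_nonneg_left (by linarith) (by linarith)
      have e3 : (n + 2 * E) * (u * n + E) = u * n * n + E * n + 2 * (E * (u * n)) + 2 * (E * E) := by
        ring
      have e4 : (u * n + 4 * E) * n = u * n * n + 4 * (E * n) := by ring
      have e5 : E * (n / 3) = E * n / 3 := by ring
      have e6 : E * (n / 100) = E * n / 100 := by ring
      have e7 : 0 ≤ E * n := mul_nonneg (by linarith) hn0.le
      linarith
    have h8 := mul_le_mul_of_nonneg_right (h6.trans h7) hz.le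
    calc (lam + σs) * (d * z) = (lam + σs) * d * z := by ring
      _ ≤ (u * n + 4 * E) * n * z := h8
      _ = (u * n + 4 * E) * (n * z) := by ring
  have h6 : (u * n + 4 * E) * (n * z) ≤ (u * n + 4 * E) * (2 * (1 - 2 * u) * n + 5 * E) :=
    mul_le_mul_of_nonneg_left hzn (by linarith)
  have h7 : (u * n + 4 * E) * (2 * (1 - 2 * u) * n + 5 * E) ≤
      2 * u * (1 - 2 * u) * n ^ 2 + 30 * E * n := by
    have e1 : E * (u * n) ≤ E * (n / 3) := mul_le_mul_of_nonneg_left hun (by linarith)
    have e2 : E * E ≤ E * (n / 100) := mul_le_mul_of_nonneg_left (by linarith) (by linarith)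
    have e3 : 0 ≤ E * (u * n) := mul_nonneg (by linarith) hun0.le
    have e4 : 0 ≤ E * n := mul_nonneg (by linarith) hn0.le
    have e5 : E * (n / 3) = E * n / 3 := by ring
    have e6 : E * (n / 100) = E * n / 100 := by ring
    have e7 : (u * n + 4 * E) * (2 * (1 - 2 * u) * n + 5 * E) = 2 * u * (1 - 2 * u) * n ^ 2
        + 8 * (E * n) - 11 * (E * (u * n)) + 20 * (E * E) := by ring
    linarith
  have h8 : (1 - u) * n ^ 2 - E * n ≤ lam * n := by
    have := mul_le_mul_of_nonneg_right hl1 hn0.le
    have e : ((1 - u) * n - E) * n = (1 - u) * n ^ 2 - E * n := by ring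
    linarith
  have h9 : (1 - u) * n ^ 2 - E * n ≤ 2 * u * (1 - 2 * u) * n ^ 2 + 30 * E * n + 24 * n := by
    linarith
  have h10 : 7 / 16 * n ^ 2 ≤ (31 * E + 24) * n := by
    have e1 : 7 / 16 * n ^ 2 ≤ (1 - 3 * u + 4 * u ^ 2) * n ^ 2 :=
      mul_le_mul_of_nonneg_right (by nlinarith [sq_nonneg (u - 3 / 8)]) (sq_nonneg n)
    have e2 : (1 - 3 * u + 4 * u ^ 2) * n ^ 2 =
      (1 - u) * n ^ 2 - 2 * u * (1 - 2 * u) * n ^ 2 := by ring
    have e3 : (31 * E + 24) * n = 31 * (E * n) + 24 * n := by ring
    linarith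
  have h11 : 7 / 16 * n ≤ 31 * E + 24 := by
    have : 7 / 16 * n * n ≤ (31 * E + 24) * n := by
      have e : 7 / 16 * n * n = 7 / 16 * n ^ 2 := by ring
      linarith
    exact le_of_mul_le_mul_right this hn0
  linarith

theorem main : P_statement → FLB_statement → TCG_statement → MVE_statement → MEM1_statement →
    QEL_statement := by
  classical
  intro _ hFLB hTCG hMVE hMEM r N hr
  obtain ⟨C, n₁, hC, hF⟩ := hFLB r N hr
  have hr0 : (0 : ℝ) < r := by
    have : 0 < r := by omega
    exact_mod_cast this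
  have hr3 : (3 : ℝ) ≤ r := by exact_mod_cast hr
  obtain ⟨E, hE⟩ : ∃ E : ℝ, E = C + N + 5 := ⟨_, rfl⟩
  have hN0 : (0 : ℝ) ≤ N := Nat.cast_nonneg N
  have hE1 : 1 ≤ E := by linarith
  refine ⟨max n₁ ⌈(100 * E + 100) * r⌉₊, ?_⟩
  intro V _ G g w p p' i j n m hn hMx hBd hT
  have hnn₁ : n₁ ≤ n := le_trans (le_max_left _ _) hn
  have hnK : (100 * E + 100) * r ≤ n :=
    le_trans (Nat.le_ceil _) (by exact_mod_cast le_trans (le_max_right _ _) hn)
  have hnE : 100 * E + 100 ≤ (n : ℝ) := by
    have : (100 * E + 100) * 1 ≤ (100 * E + 100) * r :=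
      mul_le_mul_of_nonneg_left (by linarith) (by linarith)
    linarith
  have hnpos : (0 : ℝ) < n := by linarith
  obtain ⟨u, hu⟩ : ∃ u : ℝ, u = 1 / (r : ℝ) := ⟨_, rfl⟩
  have hu0 : 0 < u := by rw [hu]; positivity
  have hu1 : u ≤ 1 / 3 := by rw [hu]; exact one_div_le_one_div_of_le (by norm_num) hr3
  have hnu : (n : ℝ) / r = u * n := by rw [hu]; ring
  have hq : qq r = 1 - u := by rw [hu]; rfl
  have hunE : 100 * E + 100 ≤ u * n := by
    rw [← hnu, le_div_iff₀ hr0]
    exact hnK
  have hun : u * n ≤ n / 3 := by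
    have := mul_le_mul_of_nonneg_right hu1 hnpos.le
    linarith
  -- the Perron vector
  obtain ⟨⟨z, hz⟩, hzall⟩ := hF V G g w n hnn₁ hBd
  obtain ⟨hz1, -, hz2, hz3⟩ := hzall z hz
  rw [hq] at hz3
  obtain ⟨ht1, ht2⟩ := hTCG r V G z g n hBd.indep hz
  have hfw : g w = none := hBd.out
  have hl1 : (1 - u) * n - E ≤ lam G := by
    have := (abs_le.1 hz3).1
    linarith
  have hl2 : lam G ≤ (1 - u) * n + E := by
    have := (abs_le.1 hz3).2
    linarith
  have hlam : (n : ℝ) / 2 ≤ lam G := by linarith
  have hlam0 : 0 < lam G := by linarith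
  -- sizes of the classes
  have hsz : ∀ t, |(siz g t : ℝ) - u * n| ≤ N + 1 := by
    intro t
    have h1 : ((siz g t : ℝ) - u * n) ^ 2 ≤ dev (siz g) := by
      unfold dev
      have h2 : (∑ s, (siz g s : ℝ)) = n := by
        have := hBd.tot
        exact_mod_cast this
      rw [h2, hnu]
      exact Finset.single_le_sum (f := fun t => ((siz g t : ℝ) - u * n) ^ 2)
        (fun s _ => sq_nonneg _) (mem_univ t)
    have h3 := hBd.bnd
    have h4 : (0 : ℝ) ≤ (missSet G g).ncard := Nat.cast_nonneg _
    have h5 : (0 : ℝ) ≤ (lightSet G g {w}).ncard := Nat.cast_nonneg _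
    have h6 : (N : ℝ) ≤ ((N : ℝ) + 1) ^ 2 := by nlinarith
    exact abs_le_of_sq_le_sq (by linarith) (by linarith)
  have hsu : ∀ t, (siz g t : ℝ) ≤ u * n + (N + 1) := fun t => by
    have := (abs_le.1 (hsz t)).2
    linarith
  have hsl' : ∀ t, u * n - (N + 1) ≤ (siz g t : ℝ) := fun t => by
    have := (abs_le.1 (hsz t)).1
    linarith
  have hsl : ∀ t, (siz g t : ℝ) < lam G := by
    intro t
    have := hsu t
    linarith
  have hs : ∀ t, 2 ≤ siz g t := by
    intro t
    have h1 := hsl' t
    have h2 : (2 : ℝ) ≤ siz g t := by linarith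
    exact_mod_cast h2
  -- the value at w
  have hzp : 1 / 2 ≤ z p := by
    have h1 := hz1 p (by rw [hT.ty.hp]; simp)
    have h2 : C / n ≤ 1 / 2 := by
      rw [div_le_iff₀ hnpos]
      linarith
    have := (abs_le.1 h1).1
    linarith
  have hzw : 0 < z w := by
    have h1 := hz.eig w
    have h2 : z p ≤ ∑ u, adj G w u * z u := by
      have h3 : adj G w p * z p ≤ ∑ u, adj G w u * z u := by
        apply Finset.single_le_sum (f := fun u => adj G w u * z u) _ (mem_univ p)
        intro u _
        apply mul_nonneg _ (hz.nonneg u)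
        unfold adj
        split_ifs <;> norm_num
      have h4 : adj G w p = 1 := by
        unfold adj
        rw [if_pos hT.wp]
      rwa [h4, one_mul] at h3
    rw [h1] at h2
    have h5 : 0 < lam G * z w := by linarith
    exact (pos_iff_pos_of_mul_pos h5).1 hlam0
  -- the number of neighbours of w
  have hdsum : ((∑ t, nbn G g w t : ℕ) : ℝ) ≤ 2 + n - 2 * (u * n - (N + 1)) := by
    have h1 : ∀ t, (nbn G g w t : ℝ) ≤ (siz g t : ℝ) - (if t = i then (siz g i : ℝ) - 1 else 0)
        - (if t = j then (siz g j : ℝ) - 1 else 0) := by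
      intro t
      by_cases hti : t = i
      · subst hti
        rw [if_pos rfl, if_neg hT.ty.ij, hT.ni]
        push_cast
        linarith
      · by_cases htj : t = j
        · subst htj
          rw [if_neg hti, if_pos rfl, hT.nj]
          push_cast
          linarith
        · rw [if_neg hti, if_neg htj]
          have h0 : nbn G g w t ≤ siz g t := ItemQEV.nbn_le_siz t
          have : (nbn G g w t : ℝ) ≤ siz g t := by exact_mod_cast h0
          linarith
    have h2 : (∑ t, (nbn G g w t : ℝ)) ≤ ∑ t, ((siz g t : ℝ)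
        - (if t = i then (siz g i : ℝ) - 1 else 0) - (if t = j then (siz g j : ℝ) - 1 else 0)) :=
      Finset.sum_le_sum fun t _ => h1 t
    rw [Finset.sum_sub_distrib, Finset.sum_sub_distrib, Finset.sum_ite_eq', Finset.sum_ite_eq',
      if_pos (mem_univ i), if_pos (mem_univ j)] at h2
    have h3 : (∑ s, (siz g s : ℝ)) = n := by
      have := hBd.tot
      exact_mod_cast this
    rw [h3] at h2
    have h4 := hsl' i
    have h5 := hsl' j
    push_cast
    linarith
  have hzn : n * z w ≤ 2 * (1 - 2 * u) * n + 5 * E := by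
    rw [le_div_iff₀ hnpos] at hz2
    nlinarith
  -- the main inequality
  have key : ∀ k l, k ≠ i → k ≠ j → l ≠ i → l ≠ j → k ≠ l → 2 ≤ nbn G g w k →
      nbn G g w l < siz g l → tv g z n l - tv g z n k ≤ z w / lam G := by
    intro k l hki hkj hli hlj hkl h2 hltl
    obtain ⟨y, hy, hyw⟩ := ItemQEV.ex_nbr (G := G) (f := g) (w := w) (k := k) (by omega)
    obtain ⟨y', hy', hy'n⟩ := ItemQEV.ex_non hltl
    have hwy' : w ≠ y' := fun e => by rw [← e, hfw] at hy'; exact absurd hy' (by simp)
    have hle := ItemQEV.step hMEM hr hMx hT hs hki hkj hli hlj hkl h2 ⟨hy, hyw⟩ hy' hy'n hwy'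
    have hmve := hMVE V G (mv G w y y' hwy') z w y y' hz.nonneg hz.eig hlam0 hzw hwy' hyw hy'n
      (fun u v => Iff.rfl)
    have h3 : ¬ (z w / lam G * adj G y y' < lam G * (z y' - z y) + z w) :=
      fun h => absurd hle (not_le.2 (hmve h))
    rw [not_lt] at h3
    have h4 : adj G y y' ≤ 1 := by
      unfold adj
      split_ifs <;> norm_num
    have h5 : z w / lam G * adj G y y' ≤ z w / lam G := by
      have : 0 ≤ z w / lam G := by positivity
      exact mul_le_of_le_one_right this h4
    have e1 := ht1 y k hy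
    have e2 := ht1 y' l hy'
    rw [ItemQEV.muv_zero hT.ty z hy hki hkj, ItemQEV.omv_eq hT.ty, if_pos hyw] at e1
    rw [ItemQEV.muv_zero hT.ty z hy' hli hlj, ItemQEV.omv_eq hT.ty, if_neg hy'n] at e2
    have e3 : lam G * (z y' - z y) + z w = tv g z n l - tv g z n k := by
      rw [mul_sub, e1, e2]
      ring
    rw [e3] at h3
    linarith
  have eqt : ∀ k, k ≠ i → k ≠ j → (lam G + siz g k) * tv g z n k =
      lam G * n - nbn G g w k * z w := by
    intro k hki hkj
    have := ht2 k
    rw [ItemQEV.cw_muv hT.ty z hki hkj, ItemQEV.cw_omv hT.ty] at this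
    rw [this]
    ring
  intro s t hsi hsj hti htj
  constructor
  · intro hst
    by_contra hcon
    push Not at hcon
    have hne : s ≠ t := by rintro rfl; omega
    have hle : nbn G g w s ≤ siz g s := ItemQEV.nbn_le_siz s
    have h1 := key s t hsi hsj hti htj hne (by omega) (by omega)
    have h2 := eqt s hsi hsj
    have h3 := eqt t hti htj
    rw [hst] at h2
    have h4 : (lam G + siz g t) * (tv g z n t - tv g z n s) =
        ((nbn G g w s : ℝ) - nbn G g w t) * z w := by linear_combination h3 - h2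
    have h5 : (2 : ℝ) ≤ (nbn G g w s : ℝ) - nbn G g w t := by
      have : (nbn G g w t : ℝ) + 2 ≤ nbn G g w s := by exact_mod_cast hcon
      linarith
    have h6 := hsl t
    have h7 : (0 : ℝ) ≤ siz g t := Nat.cast_nonneg _
    have h8 : (lam G + siz g t) * (tv g z n t - tv g z n s) ≤ (lam G + siz g t) * (z w / lam G) :=
      mul_le_mul_of_nonneg_left h1 (by linarith)
    rw [h4] at h8
    have h9 : 2 * z w ≤ (lam G + siz g t) * (z w / lam G) :=
      le_trans (mul_le_mul_of_nonneg_right h5 hzw.le) h8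
    have h10 : (lam G + siz g t) * (z w / lam G) < 2 * z w := by
      rw [← mul_div_assoc, div_lt_iff₀ hlam0]
      have := mul_lt_mul_of_pos_right (show lam G + siz g t < 2 * lam G by linarith) hzw
      linarith
    linarith
  · intro hst h2
    by_contra hcon
    have hle : nbn G g w t ≤ siz g t := ItemQEV.nbn_le_siz t
    have hlt : nbn G g w t < siz g t := lt_of_le_of_ne hle hcon
    have hne : s ≠ t := by rintro rfl; omega
    have h1 := key s t hsi hsj hti htj hne h2 hlt
    have h3 : (siz g t : ℝ) + 1 ≤ siz g s := by exact_mod_cast hst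
    exact numB (u := u) (n := n) (E := E) (lam := lam G) (σs := siz g s)
      (σt := siz g t) (d := nbn G g w t) (ds := nbn G g w s) (z := z w)
      (Ts := tv g z n s) (Tt := tv g z n t) hu0 hu1 hE1 hnE hl1 hl2
      (by have := hsu s; linarith) (Nat.cast_nonneg _) h3
      (Nat.cast_nonneg _) (by exact_mod_cast hle) (Nat.cast_nonneg _) hzw hzn
      (eqt s hsi hsj) (eqt t hti htj) h1

end ItemQEL

theorem prfQEL : P_statement → FLB_statement → TCG_statement → MVE_statement → MEM1_statement →
    QEL_statement := ItemQEL.main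

end MP0c3a8f

end

section

/-!
# MP_0c3a8f_co: test vectors for graphs of type `Q` (item TVQ)
-/

open Finset

namespace MP0c3a8f

namespace ItemTVQ

open Classical in
/-- the test vector -/
noncomputable def yv {V : Type} {r : ℕ} (H : SimpleGraph V) (f : V → Option (Fin r))
    (w p p' : V) (l ω P P' : ℝ) (T : Fin r → ℝ) (v : V) : ℝ :=
  if v = w then ω else
    (f v).elim 0 (fun t => (T t - (if v = p then P' else 0) - (if v = p' then P else 0)
      + (if H.Adj w v then ω else 0)) / l)

section

variable {V : Type} [Fintype V] {r : ℕ} {H : SimpleGraph V} {f : V → Option (Fin r)}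
  {w p p' : V} {i j : Fin r} {l ω P P' : ℝ} {T : Fin r → ℝ}

omit [Fintype V] in
theorem fw (h : Th1 H f w p p' i j) : f w = none := (h.ty.out w).2 rfl

omit [Fintype V] in
theorem ne_w (h : Th1 H f w p p' i j) {v : V} {t : Fin r} (hv : f v = some t) : v ≠ w := by
  intro e
  rw [e, fw h] at hv
  exact absurd hv (by simp)

omit [Fintype V] in
theorem y_w (H : SimpleGraph V) (f : V → Option (Fin r)) (w p p' : V)
    (l ω P P' : ℝ) (T : Fin r → ℝ) : yv H f w p p' l ω P P' T w = ω := by
  unfold yv
  rw [if_pos rfl]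

open Classical in
theorem y_t (h : Th1 H f w p p' i j) {v : V} {t : Fin r} (hv : f v = some t) :
    yv H f w p p' l ω P P' T v = (T t - (if v = p then P' else 0) - (if v = p' then P else 0)
      + (if H.Adj w v then ω else 0)) / l := by
  unfold yv
  rw [if_neg (ne_w h hv), hv]
  rfl

omit [Fintype V] in
theorem p_ne (h : Th1 H f w p p' i j) : p ≠ p' := by
  intro e
  have h1 := h.ty.hp
  rw [e, h.ty.hp'] at h1
  exact h.ty.ij (Option.some.inj h1).symm

open Classical in
/-- the weight of the class `t` -/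
theorem cls_t (h : Th1 H f w p p' i j) (t : Fin r) :
    ∑ v, (if f v = some t then yv H f w p p' l ω P P' T v else 0) =
      (siz f t * T t - (if t = i then P' else 0) - (if t = j then P else 0)
        + nbn H f w t * ω) / l := by
  have e : ∀ v, (if f v = some t then yv H f w p p' l ω P P' T v else 0) =
      T t / l * (if f v = some t then 1 else 0)
        - (if v = p then (if t = i then P' / l else 0) else 0)
        - (if v = p' then (if t = j then P / l else 0) else 0)
        + ω / l * (if f v = some t ∧ H.Adj w v then 1 else 0) := by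
    intro v
    by_cases hv : f v = some t
    · rw [if_pos hv, if_pos hv, y_t h hv]
      have h1 : (if v = p then (if t = i then P' / l else 0) else 0) =
          (if v = p then P' else 0) / l := by
        by_cases h2 : v = p
        · have h3 : t = i := by
            have h4 := h.ty.hp
            rw [← h2, hv] at h4
            exact Option.some.inj h4
          rw [if_pos h2, if_pos h2, if_pos h3]
        · rw [if_neg h2, if_neg h2, zero_div]
      have h1' : (if v = p' then (if t = j then P / l else 0) else 0) =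
          (if v = p' then P else 0) / l := by
        by_cases h2 : v = p'
        · have h3 : t = j := by
            have h4 := h.ty.hp'
            rw [← h2, hv] at h4
            exact Option.some.inj h4
          rw [if_pos h2, if_pos h2, if_pos h3]
        · rw [if_neg h2, if_neg h2, zero_div]
      rw [h1, h1']
      by_cases h5 : H.Adj w v
      · have hA : f v = some t ∧ H.Adj w v := ⟨hv, h5⟩
        rw [if_pos h5, if_pos hA]
        ring
      · have hA : ¬ (f v = some t ∧ H.Adj w v) := fun h6 => h5 h6.2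
        rw [if_neg h5, if_neg hA]
        ring
    · rw [if_neg hv, if_neg hv, if_neg (fun h6 : f v = some t ∧ H.Adj w v => hv h6.1)]
      have h1 : (if v = p then (if t = i then P' / l else 0) else 0) = 0 := by
        by_cases h2 : v = p
        · rw [if_pos h2, if_neg]
          intro h3
          apply hv
          rw [h2, h.ty.hp, h3]
        · rw [if_neg h2]
      have h1' : (if v = p' then (if t = j then P / l else 0) else 0) = 0 := by
        by_cases h2 : v = p'
        · rw [if_pos h2, if_neg]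
          intro h3
          apply hv
          rw [h2, h.ty.hp', h3]
        · rw [if_neg h2]
      rw [h1, h1']
      ring
  rw [Finset.sum_congr rfl fun v _ => e v, Finset.sum_add_distrib, Finset.sum_sub_distrib,
    Finset.sum_sub_distrib, ← Finset.mul_sum, ← Finset.mul_sum, ← ItemTVP.cast_ncard,
    ← ItemTVP.cast_ncard, ItemTVP.sum_single p (fun _ => if t = i then P' / l else 0),
    ItemTVP.sum_single p' (fun _ => if t = j then P / l else 0)]
  unfold siz nbn
  by_cases h1 : t = i
  · by_cases h2 : t = j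
    · rw [if_pos h1, if_pos h1, if_pos h2, if_pos h2]
      ring
    · rw [if_pos h1, if_pos h1, if_neg h2, if_neg h2]
      ring
  · by_cases h2 : t = j
    · rw [if_neg h1, if_neg h1, if_pos h2, if_pos h2]
      ring
    · rw [if_neg h1, if_neg h1, if_neg h2, if_neg h2]
      ring

open Classical in
/-- the row of a core vertex, any vector -/
theorem row_core (h : Th1 H f w p p' i j) (y : V → ℝ) {v : V} {t : Fin r} (hv : f v = some t) :
    ∑ u, adj H v u * y u = ∑ u, (if f u = none then 0 else y u)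
      - ∑ u, (if f u = some t then y u else 0) - (if v = p then y p' else 0)
      - (if v = p' then y p else 0) + (if H.Adj w v then y w else 0) := by
  have e : ∀ u, adj H v u * y u = (if f u = none then 0 else y u)
      - (if f u = some t then y u else 0) - (if u = p' then (if v = p then y u else 0) else 0)
      - (if u = p then (if v = p' then y u else 0) else 0)
      + (if u = w then (if H.Adj w v then y u else 0) else 0) := by
    intro u
    unfold adj
    rcases hu : f u with _ | s
    · have huw : u = w := (h.ty.out u).1 hu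
      have h1 : u ≠ p' := by
        intro e
        rw [e, h.ty.hp'] at hu
        exact absurd hu (by simp)
      have h3 : u ≠ p := by
        intro e
        rw [e, h.ty.hp] at hu
        exact absurd hu (by simp)
      have hn0 : (none : Option (Fin r)) ≠ some t := by simp
      have h4 : H.Adj v u ↔ H.Adj w v := by rw [huw, SimpleGraph.adj_comm]
      by_cases h5 : H.Adj w v
      · simp only [if_pos (h4.2 h5), if_neg hn0, if_neg h1, if_neg h3, if_pos huw, if_pos h5,
          if_true]
        ring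
      · simp only [if_neg (fun h6 => h5 (h4.1 h6)), if_neg hn0, if_neg h1, if_neg h3, if_pos huw,
          if_neg h5, if_true]
        ring
    · have huw : u ≠ w := ne_w h hu
      have h4 : H.Adj v u ↔ f v ≠ f u ∧ s(v, u) ≠ s(p, p') :=
        h.ty.core v u (by rw [hv]; simp) (by rw [hu]; simp)
      have hn0 : (some s : Option (Fin r)) ≠ none := by simp
      by_cases hst : s = t
      · have hst' : (some s : Option (Fin r)) = some t := by rw [hst]
        have h5 : ¬ H.Adj v u := by
          rw [h4, hv, hu, hst]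
          exact fun h6 => h6.1 rfl
        have h6 : (if u = p' then (if v = p then y u else 0) else 0) = 0 := by
          by_cases h7 : u = p'
          · rw [if_pos h7, if_neg]
            intro h8
            apply h.ty.ij
            rw [h8, h.ty.hp] at hv
            rw [h7, h.ty.hp'] at hu
            exact (Option.some.inj hv).trans (hst.symm.trans (Option.some.inj hu).symm)
          · exact if_neg h7
        have h9 : (if u = p then (if v = p' then y u else 0) else 0) = 0 := by
          by_cases h7 : u = p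
          · rw [if_pos h7, if_neg]
            intro h8
            apply h.ty.ij
            rw [h8, h.ty.hp'] at hv
            rw [h7, h.ty.hp] at hu
            exact (Option.some.inj hu).trans (hst.trans (Option.some.inj hv).symm)
          · exact if_neg h7
        rw [h6, h9]
        simp only [if_neg h5, if_neg hn0, if_pos hst', if_neg huw]
        ring
      · have h5 : (some s : Option (Fin r)) ≠ some t := fun h6 => hst (Option.some.inj h6)
        have h5' : f v ≠ f u := by
          rw [hv, hu]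
          exact fun h6 => hst (Option.some.inj h6).symm
        by_cases h7 : v = p ∧ u = p'
        · have h8 : ¬ H.Adj v u := by
            rw [h4]
            exact fun h9 => h9.2 (by rw [h7.1, h7.2])
          have h9 : u ≠ p := by
            rw [h7.2]
            exact (p_ne h).symm
          simp only [if_neg h8, if_neg hn0, if_neg h5, if_pos h7.1, if_pos h7.2, if_neg huw,
            if_neg h9]
          ring
        · have h11 : (if u = p' then (if v = p then y u else 0) else 0) = 0 := by
            by_cases h12 : u = p'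
            · rw [if_pos h12, if_neg (fun h13 => h7 ⟨h13, h12⟩)]
            · exact if_neg h12
          rw [h11]
          by_cases h9 : v = p' ∧ u = p
          · have h8 : ¬ H.Adj v u := by
              rw [h4]
              exact fun h10 => h10.2 (by rw [h9.1, h9.2, Sym2.eq_swap])
            simp only [if_neg h8, if_neg hn0, if_neg h5, if_pos h9.1, if_pos h9.2, if_neg huw]
            ring
          · have h8 : H.Adj v u := by
              rw [h4]
              refine ⟨h5', fun h10 => ?_⟩
              rcases Sym2.eq_iff.1 h10 with h12 | h12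
              · exact h7 h12
              · exact h9 h12
            have h13 : (if u = p then (if v = p' then y u else 0) else 0) = 0 := by
              by_cases h12 : u = p
              · rw [if_pos h12, if_neg (fun h14 => h9 ⟨h14, h12⟩)]
              · exact if_neg h12
            rw [h13]
            simp only [if_pos h8, if_neg hn0, if_neg h5, if_neg huw]
            ring
  rw [Finset.sum_congr rfl fun u _ => e u, Finset.sum_add_distrib, Finset.sum_sub_distrib,
    Finset.sum_sub_distrib, Finset.sum_sub_distrib,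
    ItemTVP.sum_single p' (fun u => if v = p then y u else 0),
    ItemTVP.sum_single p (fun u => if v = p' then y u else 0),
    ItemTVP.sum_single w (fun u => if H.Adj w v then y u else 0)]

open Classical in
/-- the row of `w` -/
theorem row_w (h : Th1 H f w p p' i j) :
    ∑ u, adj H w u * yv H f w p p' l ω P P' T u = ∑ t, (nbn H f w t * (T t + ω)
      - (if t = i then P' else 0) - (if t = j then P else 0)) / l := by
  have e : ∀ u, adj H w u * yv H f w p p' l ω P P' T u =
      if f u = none then 0 else (if H.Adj w u then yv H f w p p' l ω P P' T u else 0) := by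
    intro u
    unfold adj
    rcases hu : f u with _ | s
    · have huw : u = w := (h.ty.out u).1 hu
      rw [if_pos rfl, huw, if_neg (H.loopless.irrefl w)]
      ring
    · have hn0 : ¬ ((some s : Option (Fin r)) = none) := by simp
      rw [if_neg hn0]
      by_cases h1 : H.Adj w u
      · rw [if_pos h1, if_pos h1]
        ring
      · rw [if_neg h1, if_neg h1]
        ring
  rw [Finset.sum_congr rfl fun u _ => e u, ItemTVP.core_sum f
    (fun u => if H.Adj w u then yv H f w p p' l ω P P' T u else 0)]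
  refine Finset.sum_congr rfl fun t _ => ?_
  have e2 : ∀ v, (if f v = some t then (if H.Adj w v then yv H f w p p' l ω P P' T v else 0)
      else 0) = (T t + ω) / l * (if f v = some t ∧ H.Adj w v then 1 else 0)
        - (if v = p then (if t = i then P' / l else 0) else 0)
        - (if v = p' then (if t = j then P / l else 0) else 0) := by
    intro v
    by_cases hv : f v = some t
    · rw [if_pos hv, y_t h hv]
      by_cases h5 : H.Adj w v
      · have hA : f v = some t ∧ H.Adj w v := ⟨hv, h5⟩
        rw [if_pos h5, if_pos h5, if_pos hA]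
        have h1 : (if v = p then (if t = i then P' / l else 0) else 0) =
            (if v = p then P' else 0) / l := by
          by_cases h2 : v = p
          · have h3 : t = i := by
              have h4 := h.ty.hp
              rw [← h2, hv] at h4
              exact Option.some.inj h4
            rw [if_pos h2, if_pos h2, if_pos h3]
          · rw [if_neg h2, if_neg h2, zero_div]
        have h1' : (if v = p' then (if t = j then P / l else 0) else 0) =
            (if v = p' then P else 0) / l := by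
          by_cases h2 : v = p'
          · have h3 : t = j := by
              have h4 := h.ty.hp'
              rw [← h2, hv] at h4
              exact Option.some.inj h4
            rw [if_pos h2, if_pos h2, if_pos h3]
          · rw [if_neg h2, if_neg h2, zero_div]
        rw [h1, h1']
        ring
      · have h6 : v ≠ p := fun h7 => h5 (by rw [h7]; exact h.wp)
        have h8 : v ≠ p' := fun h7 => h5 (by rw [h7]; exact h.wp')
        rw [if_neg h5, if_neg (fun h6 : f v = some t ∧ H.Adj w v => h5 h6.2), if_neg h6,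
          if_neg h8]
        ring
    · rw [if_neg hv, if_neg (fun h6 : f v = some t ∧ H.Adj w v => hv h6.1)]
      have h1 : (if v = p then (if t = i then P' / l else 0) else 0) = 0 := by
        by_cases h2 : v = p
        · rw [if_pos h2, if_neg]
          intro h3
          apply hv
          rw [h2, h.ty.hp, h3]
        · rw [if_neg h2]
      have h1' : (if v = p' then (if t = j then P / l else 0) else 0) = 0 := by
        by_cases h2 : v = p'
        · rw [if_pos h2, if_neg]
          intro h3
          apply hv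
          rw [h2, h.ty.hp', h3]
        · rw [if_neg h2]
      rw [h1, h1']
      ring
  rw [Finset.sum_congr rfl fun v _ => e2 v, Finset.sum_sub_distrib, Finset.sum_sub_distrib,
    ← Finset.mul_sum, ← ItemTVP.cast_ncard,
    ItemTVP.sum_single p (fun _ => if t = i then P' / l else 0),
    ItemTVP.sum_single p' (fun _ => if t = j then P / l else 0)]
  unfold nbn
  by_cases h1 : t = i
  · by_cases h2 : t = j
    · rw [if_pos h1, if_pos h1, if_pos h2, if_pos h2]
      ring
    · rw [if_pos h1, if_pos h1, if_neg h2, if_neg h2]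
      ring
  · by_cases h2 : t = j
    · rw [if_neg h1, if_neg h1, if_pos h2, if_pos h2]
      ring
    · rw [if_neg h1, if_neg h1, if_neg h2, if_neg h2]
      ring

end

end ItemTVQ

open ItemTVQ in
theorem prfTVQ : P_statement → TVQ_statement := by
  classical
  intro hP r V _ H f w p p' i j l ω P P' S T h hl h3 h4 h5 h6 h7 h8
  have hl0 : l ≠ 0 := hl.ne'
  set y : V → ℝ := yv H f w p p' l ω P P' T with hy
  have hij := h.ty.ij
  have hS : ∀ t, ∑ v, (if f v = some t then y v else 0) = S - T t := by
    intro t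
    rw [hy, cls_t h t]
    by_cases ht : t = i
    · rw [if_pos ht, if_neg (fun h9 => hij (ht.symm.trans h9)), ht, h.ni, div_eq_iff hl0]
      push_cast
      linarith
    · by_cases ht' : t = j
      · rw [if_neg ht, if_pos ht', ht', h.nj, div_eq_iff hl0]
        push_cast
        linarith
      · rw [if_neg ht, if_neg ht', div_eq_iff hl0]
        have := h3 t ht ht'
        linarith
  have hSC : ∑ v, (if f v = none then 0 else y v) = (r : ℝ) * S - ∑ t, T t := by
    rw [ItemTVP.core_sum f y, Finset.sum_congr rfl fun t _ => hS t, Finset.sum_sub_distrib]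
    simp
  have hyp : y p = P := by
    rw [hy, y_t h h.ty.hp, if_pos rfl, if_neg (p_ne h), if_pos h.wp, div_eq_iff hl0]
    linarith
  have hyp' : y p' = P' := by
    rw [hy, y_t h h.ty.hp', if_neg (p_ne h).symm, if_pos rfl, if_pos h.wp', div_eq_iff hl0]
    linarith
  have hyw : y w = ω := y_w H f w p p' l ω P P' T
  set θ : ℝ := ((r : ℝ) - 1) * S - ∑ t, T t with hθ
  -- the rows of the core
  have hcore : ∀ v, f v ≠ none → ∑ u, adj H v u * y u = l * y v + θ := by
    intro v hv0
    obtain ⟨t, hv⟩ := Option.ne_none_iff_exists'.1 hv0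
    rw [row_core h y hv, hSC, hS t, hyp, hyp', hyw, hy, y_t h hv]
    field_simp
    ring
  -- the row of `w`
  have hroww : ∑ u, adj H w u * y u = l * ω +
      (P + P' + ∑ t, (if t = i ∨ t = j then 0 else nbn H f w t * (T t + ω) / l) - l * ω) := by
    rw [hy, row_w h]
    have e1 : ∀ t, (nbn H f w t * (T t + ω) - (if t = i then P' else 0)
        - (if t = j then P else 0)) / l = (if t = i then P else 0) + (if t = j then P' else 0) +
          (if t = i ∨ t = j then 0 else nbn H f w t * (T t + ω) / l) := by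
      intro t
      by_cases ht : t = i
      · rw [if_pos ht, if_pos ht, if_neg (fun h9 => hij (ht.symm.trans h9)),
          if_neg (fun h9 => hij (ht.symm.trans h9)), if_pos (Or.inl ht), ht, h.ni,
          div_eq_iff hl0]
        push_cast
        linarith
      · by_cases ht' : t = j
        · rw [if_neg ht, if_neg ht, if_pos ht', if_pos ht', if_pos (Or.inr ht'), ht', h.nj,
            div_eq_iff hl0]
          push_cast
          linarith
        · rw [if_neg ht, if_neg ht, if_neg ht', if_neg ht', if_neg (by tauto)]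
          ring
    rw [Finset.sum_congr rfl fun t _ => e1 t, Finset.sum_add_distrib, Finset.sum_add_distrib,
      ItemTVP.sum_single i (fun _ => P), ItemTVP.sum_single j (fun _ => P')]
    ring
  -- the quadratic form
  set ρ : ℝ := P + P' + ∑ t, (if t = i ∨ t = j then 0 else nbn H f w t * (T t + ω) / l) - l * ω
    with hρ
  set S' : ℝ := (r : ℝ) * S - ∑ t, T t with hS'
  have hqf : qf H y = l * ∑ v, y v ^ 2 + (θ * S' + ρ * ω) := by
    unfold qf
    have e1 : ∀ v, ∑ u, adj H v u * (y v * y u) = l * y v ^ 2 +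
        (if f v = none then 0 else y v) * θ + (if v = w then ω * ρ else 0) := by
      intro v
      have e2 : ∑ u, adj H v u * (y v * y u) = y v * ∑ u, adj H v u * y u := by
        rw [Finset.mul_sum]
        exact Finset.sum_congr rfl fun u _ => by ring
      rw [e2]
      by_cases hv : f v = none
      · have hvw : v = w := (h.ty.out v).1 hv
        rw [if_pos hv, if_pos hvw, hvw, hroww, hyw]
        ring
      · have hvw : v ≠ w := fun h1 => hv ((h.ty.out v).2 h1)
        rw [if_neg hv, if_neg hvw, hcore v hv]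
        ring
    rw [Finset.sum_congr rfl fun v _ => e1 v, Finset.sum_add_distrib, Finset.sum_add_distrib,
      ← Finset.mul_sum, ← Finset.sum_mul, hSC, ItemTVP.sum_single w (fun _ => ω * ρ)]
    ring
  have : Nonempty V := ⟨w⟩
  have hR := (hP V H).2.1 y
  rw [hqf] at hR
  have hsq : 0 ≤ ∑ v, y v ^ 2 := Finset.sum_nonneg fun v _ => sq_nonneg _
  by_contra hcon
  have h9 : lam H * ∑ v, y v ^ 2 ≤ l * ∑ v, y v ^ 2 :=
    mul_le_mul_of_nonneg_right (not_lt.1 hcon) hsq
  linarith

end MP0c3a8f

end

section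

/-!
# MP_0c3a8f_co: uniqueness, type `R`
-/

open Finset

namespace MP0c3a8f

namespace UNR

theorem nbn_le {V : Type} [Fintype V] {r : ℕ} (G : SimpleGraph V) (f : V → Option (Fin r))
    (w : V) (t : Fin r) : nbn G f w t ≤ siz f t := by
  unfold nbn siz
  exact Set.ncard_le_ncard (fun v hv => hv.1) (Set.toFinite _)

theorem siz_map (hREL : REL_statement) {r : ℕ} (V : Type) [Fintype V] (G : SimpleGraph V)
    (f : V → Option (Fin r)) (π : Equiv.Perm (Fin r)) (t : Fin r) :
    siz (fun v => (f v).map π) t = siz f (π.symm t) := by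
  have h := (hREL r V G f π).1 (π.symm t)
  rwa [Equiv.apply_symm_apply] at h

theorem nbn_map (hREL : REL_statement) {r : ℕ} (V : Type) [Fintype V] (G : SimpleGraph V)
    (f : V → Option (Fin r)) (π : Equiv.Perm (Fin r)) (w : V) (t : Fin r) :
    nbn G (fun v => (f v).map π) w t = nbn G f w (π.symm t) := by
  have h := (hREL r V G f π).2.1 w (π.symm t)
  rwa [Equiv.apply_symm_apply] at h

theorem exc_map {r : ℕ} {U : Type} (H : SimpleGraph U) (w : U) (v : Fin r → U) (i : Fin r)
    (π : Equiv.Perm (Fin r)) (h : ∃! t, t ≠ i ∧ ¬ H.Adj w (v t)) :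
    ∃! t, t ≠ π i ∧ ¬ H.Adj w (v (π.symm t)) := by
  obtain ⟨t, ⟨h1, h2⟩, h3⟩ := h
  refine ⟨π t, ⟨fun e => h1 (π.injective e), by simpa using h2⟩, fun s hs => ?_⟩
  have h4 : π.symm s = t := h3 (π.symm s) ⟨fun e => hs.1 (by rw [← e, Equiv.apply_symm_apply]), hs.2⟩
  rw [← h4, Equiv.apply_symm_apply]

end UNR

theorem prfUNR : MEM2_statement → REL_statement → TI2_statement → GVH_statement →
    UNR_statement := by
  classical
  intro hMEM hREL hTI2 hGVH r m σ V U _ _ G H hr hσ hGm hHm hG hH
  obtain ⟨f, w, u, v, i, hT, hex, hs, hmax, hev⟩ := hG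
  obtain ⟨f', w', u', v', i', hT', hex', hs', hmax', hev'⟩ := hH
  have hii : σ i' = σ i := le_antisymm (hmax i') (hmax' i)
  -- the numbers of neighbours
  have e1 := (hMEM r V G f w u v i hr hT (fun t => by rw [hs]; have := hσ t; omega)).2.2.2
  have e2 := (hMEM r U H f' w' u' v' i' hr hT' (fun t => by rw [hs']; have := hσ t; omega)).2.2.2
  rw [hGm] at e1
  rw [hHm] at e2
  simp_rw [hs] at e1
  simp_rw [hs'] at e2
  have hsum : ∑ t, nbn G f w t = ∑ t, nbn H f' w' t := by omega
  -- relabel the second graph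
  set τ : Equiv.Perm (Fin r) := Equiv.swap i i' with hτ
  have hτs : τ.symm = τ := by rw [hτ, Equiv.symm_swap]
  have hτσ : ∀ t, σ (τ t) = σ t := by
    intro t
    rw [hτ, Equiv.swap_apply_def]
    split_ifs with h1 h2
    · rw [h1, hii]
    · rw [h2, hii]
    · rfl
  have hτi' : τ i' = i := by rw [hτ, Equiv.swap_apply_right]
  have hτi : τ i = i' := by rw [hτ, Equiv.swap_apply_left]
  set f2 : U → Option (Fin r) := fun v => (f' v).map τ with hf2
  have hT2 : Th2 H f2 w' u' (fun t => v' (τ.symm t)) i := by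
    have h := (hREL r U H f' τ).2.2.2 w' u' v' i' hT'
    rwa [hτi'] at h
  have hs2 : ∀ t, siz f2 t = σ t := by
    intro t
    rw [hf2, UNR.siz_map hREL U H, hτs, hs', hτσ]
  have hn2 : ∀ t, nbn H f2 w' t = nbn H f' w' (τ t) := by
    intro t
    rw [hf2, UNR.nbn_map hREL, hτs]
  have hex2 : ∃! t, t ≠ i ∧ ¬ H.Adj w' (v' (τ.symm t)) := by
    have h := UNR.exc_map H w' v' i' τ hex'
    rwa [hτi'] at h
  have hτne : ∀ t, t ≠ i → τ t ≠ i' := fun t ht h => ht (τ.injective (by rw [h, hτi]))
  obtain ⟨π, hπ1, hπ2, hπ3⟩ := hGVH r (Finset.univ.filter fun t => t ≠ i) σ (nbn G f w)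
    (nbn H f2 w') (by
      intro t ht
      have hti : t = i := by simpa using ht
      rw [hti, hT.ni, hT2.ni]) (by
      intro t ht
      have hti : t ≠ i := by simpa using ht
      refine ⟨hT.pos t hti, ?_, hT2.pos t hti, ?_⟩
      · rw [← hs t]; exact UNR.nbn_le G f w t
      · rw [← hs2 t]; exact UNR.nbn_le H f2 w' t) (by
      intro s hs1 t ht1 hst
      have hsi : s ≠ i := by simpa using hs1
      have hti : t ≠ i := by simpa using ht1
      refine ⟨(hev s t hsi hti).1 hst, ?_⟩
      rw [hn2, hn2]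
      exact (hev' (τ s) (τ t) (hτne s hsi) (hτne t hti)).1 (by rw [hτσ, hτσ, hst])) (by
      intro s hs1 t ht1 hst
      have hsi : s ≠ i := by simpa using hs1
      have hti : t ≠ i := by simpa using ht1
      refine ⟨(hev s t hsi hti).2 hst, ?_⟩
      rw [hn2, hn2]
      intro h2
      rw [(hev' (τ s) (τ t) (hτne s hsi) (hτne t hti)).2 (by rw [hτσ, hτσ]; exact hst) h2, hτσ])
      (by
      rw [hsum]
      simp_rw [hn2]
      rw [Equiv.sum_comp τ (fun t => nbn H f' w' t)])
  have hπi : π i = i := hπ1 i (by simp)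
  have hπsi : π.symm i = i := by rw [Equiv.symm_apply_eq, hπi]
  have hT3 := (hREL r U H f2 π.symm).2.2.2 w' u' _ i hT2
  have hex3 := UNR.exc_map H w' _ i π.symm hex2
  rw [hπsi] at hT3 hex3
  refine hTI2 r V U G H f _ w u w' u' v _ i hr hT.ty hT3.ty ?_ ?_ ?_ hex hex3
  · intro t
    rw [hs]
    have := hσ t
    omega
  · intro t
    rw [UNR.siz_map hREL U H, Equiv.symm_symm, hs, hs2, hπ2]
  · intro t
    rw [UNR.nbn_map hREL, Equiv.symm_symm, hπ3]

end MP0c3a8f

end

section

/-!
# MP_0c3a8f_co: conversions (item YCV)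
-/

open Finset

namespace MP0c3a8f

namespace ItemYCV

theorem tz_anti (r n : ℕ) {s t : Fin r} (h : s.val ≤ t.val) : tz r n t ≤ tz r n s := by
  unfold tz
  by_cases h1 : t.val < n % r
  · have h2 : s.val < n % r := lt_of_le_of_lt h h1
    rw [if_pos h1, if_pos h2]
  · rw [if_neg h1]
    omega

theorem tz_two {r n : ℕ} (hr : 3 ≤ r) (h : 2 * r ≤ n) (t : Fin r) : 2 ≤ tz r n t := by
  unfold tz
  have h1 : 2 ≤ n / r := by
    rw [Nat.le_div_iff_mul_le (by omega)]
    exact h
  omega

theorem sum_tz (hD : DEV_statement) {r : ℕ} (n : ℕ) (hr : 3 ≤ r) :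
    ∑ t : Fin r, tz r n t = n ∧
      2 * (SimpleGraph.turanGraph n r).edgeSet.ncard + ∑ t : Fin r, tz r n t ^ 2 = n ^ 2 := by
  have h0 : (⟨0, by omega⟩ : Fin r) ∈ (Finset.univ : Finset (Fin r)) := Finset.mem_univ _
  have h1 : ∑ t : Fin r, (if t = ⟨0, by omega⟩ then n else 0) = n := by
    rw [Finset.sum_ite_eq' Finset.univ, if_pos h0]
  obtain ⟨h2, -, -, -, -, h3⟩ := hD r n (fun t => if t = ⟨0, by omega⟩ then n else 0) (by omega) h1
  refine ⟨h2, ?_⟩
  unfold Sz at h3
  rw [h2] at h3
  omega

end ItemYCV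

open ItemYCV in
theorem prfYCV : DEV_statement → MEM1_statement → MEM2_statement → YCV_statement := by
  intro hD h1 h2 r n D V _ G hr hn
  obtain ⟨hs, he⟩ := sum_tz hD n hr
  refine ⟨tz_two hr hn, hs, ?_, ?_⟩
  · rintro ⟨f, w, p, p', i, j, hi, hj, hT, hsz, hnb, ha, hb⟩
    have hsz2 : ∀ t, 2 ≤ siz f t := fun t => by
      rw [hsz t]
      exact tz_two hr hn t
    obtain ⟨-, -, -, hE⟩ := h1 r V G f w p p' i j hr hT hsz2
    have e1 : ∑ t, siz f t = n := by
      rw [Finset.sum_congr rfl fun t _ => hsz t, hs]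
    have e2 : ∑ t, siz f t ^ 2 = ∑ t : Fin r, tz r n t ^ 2 :=
      Finset.sum_congr rfl fun t _ => by rw [hsz t]
    rw [e1, e2, hnb] at hE
    refine ⟨by omega, f, w, p, p', i, j, hT, hsz, ?_, ?_, ?_⟩
    · intro t
      exact tz_anti r n (by omega)
    · intro t ht
      refine tz_anti r n ?_
      have : t.val ≠ i.val := fun h => ht (Fin.ext h)
      omega
    · intro s t hsi hsj hti htj
      have a1 : s.val ≠ i.val := fun h => hsi (Fin.ext h)
      have a2 : s.val ≠ j.val := fun h => hsj (Fin.ext h)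
      have a3 : t.val ≠ i.val := fun h => hti (Fin.ext h)
      have a4 : t.val ≠ j.val := fun h => htj (Fin.ext h)
      exact ⟨ha s t (by omega) (by omega), hb s t (by omega) (by omega)⟩
  · rintro ⟨f, w, u, v, i, hi, hT, hu, hsz, hnb, ha, hb⟩
    have hsz1 : ∀ t, 1 ≤ siz f t := fun t => by
      rw [hsz t]
      have := tz_two hr hn t
      omega
    obtain ⟨-, -, -, hE⟩ := h2 r V G f w u v i hr hT hsz1
    have e1 : ∑ t, siz f t = n := by
      rw [Finset.sum_congr rfl fun t _ => hsz t, hs]
    have e2 : ∑ t, siz f t ^ 2 = ∑ t : Fin r, tz r n t ^ 2 :=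
      Finset.sum_congr rfl fun t _ => by rw [hsz t]
    rw [e1, e2] at hE
    refine ⟨by omega, f, w, u, v, i, hT, hu, hsz, ?_, ?_⟩
    · intro t
      exact tz_anti r n (by omega)
    · intro s t hsi hti
      have a1 : s.val ≠ i.val := fun h => hsi (Fin.ext h)
      have a3 : t.val ≠ i.val := fun h => hti (Fin.ext h)
      exact ⟨ha s t (by omega) (by omega), hb s t (by omega) (by omega)⟩

end MP0c3a8f

end

section

/-!
# MP_0c3a8f_co: nearly balanced classes (item YNB)
-/

open Finset

namespace MP0c3a8f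

namespace ItemYNB

/-- the classes are large -/
theorem big (r : ℕ) (C : ℝ) (hr : 3 ≤ r) (hC : 0 ≤ C) : ∃ n₀ : ℕ, ∀ (V : Type)
    (g : V → Option (Fin r)) (n : ℕ), n₀ ≤ n → ∑ t, siz g t = n → dev (siz g) ≤ C * n →
    ∀ t, 2 ≤ siz g t := by
  obtain ⟨n₀, hn₀⟩ := exists_nat_ge (4 * (r : ℝ) + 4 * (r : ℝ) ^ 2 * C)
  refine ⟨n₀, ?_⟩
  intro V g n hn hs hd t
  have hr3 : (3 : ℝ) ≤ r := by exact_mod_cast hr
  have hn1 : 4 * (r : ℝ) + 4 * (r : ℝ) ^ 2 * C ≤ n := hn₀.trans (by exact_mod_cast hn)
  have hr0 : (0 : ℝ) < r := by linarith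
  have hrC : 0 ≤ 4 * (r : ℝ) ^ 2 * C := by positivity
  have hn0 : (0 : ℝ) < n := by linarith
  have hsum : ∑ s, (siz g s : ℝ) = n := by
    rw [← hs]
    push_cast
    rfl
  have h1 : ((siz g t : ℝ) - n / r) ^ 2 ≤ C * n := by
    refine le_trans ?_ hd
    unfold dev
    rw [hsum]
    exact Finset.single_le_sum (f := fun t => ((siz g t : ℝ) - (n : ℝ) / r) ^ 2)
      (fun t _ => sq_nonneg _) (Finset.mem_univ t)
  have h2 : C * n ≤ (n / (2 * (r : ℝ))) ^ 2 := by
    rw [div_pow, le_div_iff₀ (by positivity)]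
    have h3 : 4 * (r : ℝ) ^ 2 * C * n ≤ n * n :=
      mul_le_mul_of_nonneg_right (by linarith) hn0.le
    nlinarith
  have h3 : |(siz g t : ℝ) - n / r| ≤ n / (2 * (r : ℝ)) :=
    abs_le_of_sq_le_sq (h1.trans h2) (by positivity)
  have h4 := (abs_le.1 h3).1
  have h5 : (n : ℝ) / r = 2 * (n / (2 * (r : ℝ))) := by
    field_simp
  have h6 : 2 ≤ (n : ℝ) / (2 * (r : ℝ)) := by
    rw [le_div_iff₀ (by positivity)]
    linarith
  have h7 : (2 : ℝ) ≤ siz g t := by linarith
  exact_mod_cast h7

end ItemYNB

theorem prfYNB : CAB_statement → PSN_statement → PEK_statement → QSU_statement →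
    QEV_statement → RST_statement → RIK_statement → REV_statement → YNB_statement := by
  intro hCAB hPSN hPEK hQSU hQEV hRST hRIK hREV r C hr hC
  obtain ⟨n₁, h₁⟩ := hCAB r C hr hC
  obtain ⟨ε, hε, n₂, h₂⟩ := hPSN r C hr hC
  obtain ⟨n₃, h₃⟩ := hPEK r C hr hC
  obtain ⟨n₄, h₄⟩ := hQSU r C hr hC
  obtain ⟨n₅, h₅⟩ := hQEV r C hr hC
  obtain ⟨n₆, h₆⟩ := hRST r C hr hC
  obtain ⟨n₇, h₇⟩ := hRIK r C hr hC
  obtain ⟨n₈, h₈⟩ := hREV r C hr hC
  obtain ⟨n₉, h₉⟩ := ItemYNB.big r C hr hC
  refine ⟨ε, hε, n₁ + n₂ + n₃ + n₄ + n₅ + n₆ + n₇ + n₈ + n₉, ?_⟩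
  intro V _ G g n m hn hG hNK hdev
  have hbig : ∀ t, 2 ≤ siz g t := h₉ V g n (by omega) hNK.tot hNK.dev
  refine ⟨hbig, hG.1.size, ?_⟩
  rcases h₁ V G g n m (by omega) hG hNK with ⟨ho, hm⟩ | ⟨hm, ho, ho'⟩ | ⟨hm, ho⟩
  · left
    obtain ⟨w, q, i, L, hT, hi⟩ := h₂ V G g n m (by omega) hG hNK hdev ho hm
    obtain ⟨a, b, c⟩ := h₃ V G g w q i L n m (by omega) hG hNK hT
    exact ⟨g, w, q, i, L, hT, a, fun _ => rfl, hi, b, c⟩
  · right
    left
    obtain ⟨w, p, p', i, j, hT, hi, hj, -⟩ := h₄ V G g n m (by omega) hG hNK hm ho ho'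
    have hE := h₅ V G g w p p' i j n m (by omega) hG hNK hT
    refine ⟨g, w, p, p', i, j, hT, fun _ => rfl, hi, hj, ?_⟩
    intro s t hsi hsj hti htj
    refine ⟨(hE s t hsi hsj hti htj).1, ?_⟩
    intro hlt h2
    have := (hE s t hsi hsj hti htj).2 hlt
    omega
  · right
    right
    obtain ⟨w, u, v, k, hT⟩ := h₆ V G g n m (by omega) hG hNK hm
    have hk := h₇ V G g w u v k n m (by omega) hG hNK hT
    obtain ⟨hu, hE⟩ := h₈ V G g w u v k n m (by omega) hG hNK hT
    refine ⟨g, w, u, v, k, hT, hu, fun _ => rfl, hk, ?_⟩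
    intro s t hs ht
    refine ⟨(hE s t hs ht).1, ?_⟩
    intro hlt h2
    have := (hE s t hs ht).2 hlt
    omega

end MP0c3a8f

end

section

/-!
# MP_0c3a8f_co, PB10: item YNL (one large class)
-/

set_option autoImplicit false

open Finset

namespace MP0c3a8f

theorem prfYNL : CAB_statement → PST_statement → PEV_statement → QST_statement →
    QEV_statement → RST_statement → RII_statement → REV_statement → YNL_statement := by
  intro hCAB hPST hPEV hQST hQEV hRST hRII hREV r C c hr hC hc
  obtain ⟨n₃, h₃⟩ := hCAB r C hr hC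
  obtain ⟨n₄, h₄⟩ := hPST r C c hr hC hc
  obtain ⟨n₅, h₅⟩ := hPEV r C c hr hC hc
  obtain ⟨n₆, h₆⟩ := hQST r C c hr hC hc
  obtain ⟨n₇, h₇⟩ := hQEV r C hr hC
  obtain ⟨n₈, h₈⟩ := hRST r C hr hC
  obtain ⟨n₉, h₉⟩ := hRII r C c hr hC hc
  obtain ⟨n₁₀, h₁₀⟩ := hREV r C hr hC
  obtain ⟨n₁₁, h₁₁⟩ := FNWx.num r C 2 hr hC (by norm_num)
  refine ⟨n₃ + n₄ + n₅ + n₆ + n₇ + n₈ + n₉ + n₁₀ + n₁₁, ?_⟩
  intro V _ G g i n m hn hG hNL
  obtain ⟨s1, _, s3⟩ := h₁₁ n (by omega)
  have hn0 : 0 < c * Real.sqrt n := by
    have : (0 : ℝ) < n := by exact_mod_cast s3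
    positivity
  have hbig : ∀ t, siz g t ≤ siz g i := by
    intro t
    by_cases ht : t = i
    · rw [ht]
    · have h1 := hNL.big t ht
      have h2 : (siz g t : ℝ) ≤ siz g i := by linarith
      exact_mod_cast h2
  have htwo : ∀ t, 2 ≤ siz g t := by
    intro t
    have h1 := FNWx.siz_low hNL.nk t
    have h2 : 0 ≤ 4 * (C * Real.sqrt (Real.sqrt n)) := by positivity
    have h3 : (2 : ℝ) ≤ siz g t := by linarith
    exact_mod_cast h3
  refine ⟨htwo, hG.1.size, ?_⟩
  rcases h₃ V G g n m (by omega) hG hNL.nk with ⟨o1, o2⟩ | ⟨o1, o2, o3⟩ | ⟨o1, _⟩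
  · left
    obtain ⟨w, q, L, hT⟩ := h₄ V G g i n m (by omega) hG hNL o1 o2
    obtain ⟨e1, e2, e3⟩ := h₅ V G g w q i L n m (by omega) hG hNL hT
    exact ⟨g, w, q, i, L, hT, e1, fun _ => rfl, hbig, e2, e3⟩
  · right
    left
    obtain ⟨w, p, p', j, hT, hj, _⟩ := h₆ V G g i n m (by omega) hG hNL o1 o2 o3
    refine ⟨g, w, p, p', i, j, hT, fun _ => rfl, hbig, hj, ?_⟩
    intro s t hs hs' ht ht'
    obtain ⟨e1, e2⟩ := h₇ V G g w p p' i j n m (by omega) hG hNL.nk hT s t hs hs' ht ht'
    refine ⟨e1, fun h h' => ?_⟩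
    have := e2 h
    omega
  · right
    right
    obtain ⟨w, u, v, k, hT⟩ := h₈ V G g n m (by omega) hG hNL.nk o1
    obtain rfl := h₉ V G g w u v i k n m (by omega) hG hNL hT
    obtain ⟨e1, e2⟩ := h₁₀ V G g w u v k n m (by omega) hG hNL.nk hT
    refine ⟨g, w, u, v, k, hT, e1, fun _ => rfl, hbig, ?_⟩
    intro s t hs ht
    obtain ⟨e3, e4⟩ := e2 s t hs ht
    refine ⟨e3, fun h h' => ?_⟩
    have := e4 h
    omega

end MP0c3a8f

end

section

/-!
# MP_0c3a8f_co, PB10: item YRA (small `D`)
-/

set_option autoImplicit false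

open Finset

namespace MP0c3a8f

theorem prfYRA : KCC_statement → CRT_statement → FNS_statement → AIK_statement →
    YNB_statement → SDX_statement → YRA_statement := by
  intro hKCC hCRT hFNS hAIK hYNB hSDX r hr
  obtain ⟨hk1, hk2⟩ := hKCC r hr
  obtain ⟨c1, c2, c3⟩ := hCRT (Fin (r + 1)) (⊤ : SimpleGraph (Fin (r + 1))) r hk1 hk2
  obtain ⟨ε1, hε1, N1, n1, h1⟩ := hFNS (Fin (r + 1)) (⊤ : SimpleGraph (Fin (r + 1))) r hr c1 c3 c2
  obtain ⟨ε2, hε2, b1, n2, h2⟩ := hSDX r N1 hr
  obtain ⟨N, hN⟩ : ∃ N : ℕ, N = N1 + b1 + 1 := ⟨_, rfl⟩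
  obtain ⟨C, n3, hC, h3⟩ := hAIK r N hr
  obtain ⟨ε0, hε0, n4, h4⟩ := hYNB r C hr hC
  have hN1 : (0 : ℝ) < (N : ℝ) + 1 := by positivity
  obtain ⟨n5, hn5⟩ := exists_nat_ge (C / ε0)
  refine ⟨min (min ε1 ε2) (1 / ((N : ℝ) + 1)), lt_min (lt_min hε1 hε2) (by positivity), N,
    n1 + n2 + n3 + n4 + n5 + 1, ?_⟩
  intro n hn D hD V _ G hG
  have hn0 : (0 : ℝ) ≤ n := Nat.cast_nonneg n
  have hD1 : (D : ℝ) ≤ ε1 * n := hD.trans (mul_le_mul_of_nonneg_right
    ((min_le_left _ _).trans (min_le_left _ _)) hn0)
  have hD2 : (D : ℝ) ≤ ε2 * n := hD.trans (mul_le_mul_of_nonneg_right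
    ((min_le_left _ _).trans (min_le_right _ _)) hn0)
  have hD3 : (D : ℝ) ≤ 1 / ((N : ℝ) + 1) * n := hD.trans (mul_le_mul_of_nonneg_right
    (min_le_right _ _) hn0)
  have hA : AltI r n D N1 G := h1 n (by omega) D hD1 V G hG
  constructor
  · intro hlt
    obtain ⟨g, hNK, hdev⟩ := h3 V G n D (by omega) hlt.le hG.1.size
      (ItemFINA.altI_mono (by omega) hA)
    have hdev' : (dev (siz g) : ℝ) ≤ ε0 * n := by
      refine hdev.trans ?_
      have e1 : (n5 : ℝ) ≤ n := by
        have : n5 ≤ n := by omega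
        exact_mod_cast this
      have e2 : C / ε0 ≤ n := hn5.trans e1
      rw [div_le_iff₀ hε0] at e2
      linarith
    exact ⟨siz g, hNK.tot, h4 V G g n _ (by omega) hG hNK hdev'⟩
  · intro hge
    have hs : 1 ≤ Real.sqrt (Real.sqrt n) := by
      refine Real.one_le_sqrt.2 (Real.one_le_sqrt.2 ?_)
      have : 1 ≤ n := by omega
      exact_mod_cast this
    have hND : (N : ℝ) ≤ D := by
      refine le_trans ?_ hge
      have : (0 : ℝ) ≤ N := Nat.cast_nonneg N
      nlinarith
    have hND' : N ≤ D := by exact_mod_cast hND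
    refine h2 n (by omega) D (by omega) hD2 (by omega) ?_ V G hG hA
    have e1 : ((N : ℝ) + 1) * D ≤ n := by
      rw [one_div_mul_eq_div, le_div_iff₀ hN1] at hD3
      linarith
    have e2 : (N + 1) * D ≤ n := by exact_mod_cast e1
    have e3 : N1 * D ≤ (N + 1) * D := Nat.mul_le_mul_right D (by omega)
    exact e3.trans e2

end MP0c3a8f

end

section

/-! Item YRC: the transition range. -/

set_option autoImplicit false

open Finset

namespace MP0c3a8f

theorem prfYRC : KCC_statement → CRT_statement → TURN_statement → FNT_statement →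
    FIT_statement → YAB_statement → YRC_statement := by
  intro hKCC hCRT hTURN hFNT hFIT hYAB r hr
  obtain ⟨hk1, hk2⟩ := hKCC r hr
  obtain ⟨hc1, hc2, hc3⟩ := hCRT (Fin (r + 1)) (⊤ : SimpleGraph (Fin (r + 1))) r hk1 hk2
  obtain ⟨ε, hε, N, n₁, h1⟩ := hFNT (Fin (r + 1)) (⊤ : SimpleGraph (Fin (r + 1))) r hr hc1 hc3 hc2
  obtain ⟨n₂, h2⟩ := hFIT r N hr
  obtain ⟨n₃, h3⟩ := hYAB r N hr
  have hr0 : (0 : ℝ) < r := by
    have : 0 < r := by omega
    exact_mod_cast this
  have hr3 : (3 : ℝ) ≤ r := by exact_mod_cast hr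
  have hq : 0 ≤ qq r := by
    unfold qq
    have : 1 / (r : ℝ) ≤ 1 := by rw [div_le_one hr0]; linarith
    linarith
  refine ⟨min ε (1 / (4 * (r : ℝ) ^ 2)), lt_min hε (by positivity), max (max n₁ n₂) n₃, ?_⟩
  intro n hn D B hRT V _ G hMx
  have hn1 : n₁ ≤ n := le_trans (le_trans (le_max_left _ _) (le_max_left _ _)) hn
  have hn2 : n₂ ≤ n := le_trans (le_trans (le_max_right _ _) (le_max_left _ _)) hn
  have hn3 : n₃ ≤ n + 1 := le_trans (le_trans (le_max_right _ _) hn) (Nat.le_succ n)
  have hqn : 0 ≤ qq r * (n : ℝ) := mul_nonneg hq (Nat.cast_nonneg n)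
  obtain ⟨hR1, hR2⟩ := hRT
  have hRT' : RT r n D B ε :=
    ⟨hR1.trans (mul_le_mul_of_nonneg_right (min_le_left _ _) hqn), hR2⟩
  have hRX : RX r n D := by
    have h4 := hR1.trans (mul_le_mul_of_nonneg_right (min_le_right _ _) hqn)
    rw [abs_le] at h4
    constructor
    · rw [sub_mul]
      linarith [h4.1]
    · rw [add_mul]
      linarith [h4.2]
  rcases h1 n hn1 D B hRT' V G hMx with h | h
  · obtain ⟨_, g, w, hBd, _⟩ := h
    obtain ⟨h5, h6⟩ := h2 V G g w n D hn2 hRX hMx hBd
    exact ⟨siz g, Or.inl hBd.tot, h5, hMx.1.size, Or.inr (Or.inl h6)⟩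
  · have hT := hTURN r n (by omega)
    have hB : B ≤ n := by
      calc B ≤ D + B := Nat.le_add_left B D
        _ ≤ D + B + n / r := Nat.le_add_right _ _
        _ = n := hR2
    obtain ⟨σ, h5, h6⟩ := h3 V G (n + 1) B ((SimpleGraph.turanGraph n r).edgeSet.ncard + D) hn3
      (by omega) (by omega) hMx h
    exact ⟨σ, Or.inr h5, h6⟩

end MP0c3a8f

end
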