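import Pool.Agent.Work.MP_0c3a8f_co.PB.Stmts11
import Pool.Agent.Work.MP_0c3a8f_co.Bd.B16
import Pool.Agent.Work.MP_0c3a8f_co.Bd.B12
import Pool.Agent.Work.MP_0c3a8f_co.Bd.B24
import Pool.Agent.Work.MP_0c3a8f_co.Bd.B09
import Pool.Agent.Work.MP_0c3a8f_co.Bd.B17

/-! Bundle of small proof modules (one section per former module). -/

section

/-! Item DIC: few outer edges or complete core. -/

open Finset

namespace MP0c3a8f

namespace DICx

open FNWx

variable {V : Type} {r : ℕ}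

/-- a graph which is not `r`-colourable has a light vertex -/
theorem exists_light {G : SimpleGraph V} {g : V → Option (Fin r)} (hI : Indep G g)
    (hG : ¬ G.Colorable r) : ∃ v, g v = none := by
  by_contra hcon
  push Not at hcon
  apply hG
  have hs : ∀ v, (g v).isSome := fun v => Option.isSome_iff_ne_none.2 (hcon v)
  refine ⟨SimpleGraph.Coloring.mk (fun v => (g v).get (hs v)) ?_⟩
  intro u v huv heq
  refine hI u v (hcon u) ?_ huv
  rw [← Option.some_get (hs u), ← Option.some_get (hs v), heq]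

theorem light_sub (G : SimpleGraph V) (g : V → Option (Fin r)) (w : V) :
    lightSet G g {w} ⊆ outSet G g := by
  rintro e ⟨he, v, hv, hv0, -⟩
  exact ⟨he, v, hv, hv0⟩

theorem miss_out {G : SimpleGraph V} {g : V → Option (Fin r)} {w : V} (hw : g w = none) :
    {e | e ∈ missSet G g ∧ w ∉ e} = missSet G g := by
  ext e
  refine ⟨fun h => h.1, fun h => ⟨h, ?_⟩⟩
  obtain ⟨x, y, rfl, hx, hy, -, -⟩ := h
  intro hwe
  rcases Sym2.mem_iff.mp hwe with rfl | rfl
  · exact hx hw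
  · exact hy hw

theorem case2 (hCN : CNTU_statement) (hS : SSWU_statement) (hM : MEMS_statement)
    (hT : TRF_statement)
    (W : Type) [Fintype W] (F : SimpleGraph W) (r : ℕ) (C : ℝ) (hr : 3 ≤ r)
    (hFr : ¬ F.Colorable r) (hC : 0 ≤ C) :
    ∃ N n₀ : ℕ, ∀ (V : Type) [Fintype V] (G : SimpleGraph V)
    (g : V → Option (Fin r)) (n m : ℕ), n₀ ≤ n → IsMaximiser r m F G → NK n C G g →
    (missSet G g).ncard = 0 → ∃ w, g w = none ∧ (lightSet G g {w}).ncard ≤ N := by
  obtain ⟨b₂, n₂, h₂⟩ := hM W F r hr hFr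
  obtain ⟨n₃, h₃⟩ := hS r C hr hC
  obtain ⟨n₄, h₄⟩ := num r C (n₂ + 1) hr hC (by positivity)
  refine ⟨4 * b₂ + 12, n₃ + n₄, ?_⟩
  intro V _ G g n m hn hmax hNK ha
  classical
  obtain ⟨h4a, h4b, h4c⟩ := h₄ n (by omega)
  set b := (outSet G g).ncard with hbdef
  have hab := hNK.few
  rw [ha, ← hbdef] at hab
  have hsiz : ∀ t, n₂ + 1 + 4 * b ≤ siz g t := by
    intro t
    have h := siz_low hNK t
    have : ((n₂ + 1 + 4 * b : ℕ) : ℝ) ≤ siz g t := by
      push_cast
      push_cast at hab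
      linarith
    exact_mod_cast this
  have hlight : (Finset.univ.filter fun v : V => g v = none).Nonempty := by
    obtain ⟨v, hv⟩ := exists_light hNK.indep hmax.1.notPartite
    exact ⟨v, by simpa using hv⟩
  obtain ⟨w, hw, hwmax⟩ := Finset.exists_max_image _ (fun v => ∑ t, nbn G g v t) hlight
  have hw0 : g w = none := by simpa using hw
  refine ⟨w, hw0, ?_⟩
  by_cases hb : b ≤ b₂
  · have hle : (lightSet G g {w}).ncard ≤ b :=
      Set.ncard_le_ncard (light_sub G g w) (Set.toFinite _)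
    omega
  · push Not at hb
    set d := b - b₂ with hd
    let t₀ : Fin r := ⟨0, by omega⟩
    let t₁ : Fin r := ⟨1, by omega⟩
    obtain ⟨k, H', g', w', hfree, hcol, hiso, hInd, hw'0, hmiss', hlight', hsiz', hnbn'⟩ :=
      h₂ (siz g) t₀ t₁ d (by simp [t₀, t₁]) (fun t => by have := hsiz t; omega)
        (by omega) (by have := hsiz t₁; omega)
    have hedge : H'.edgeSet.ncard = m := by
      have e1 := cnt0 hCN G g hNK.indep
      have e2 := cnt1 hCN H' g' w' hInd hw'0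
      have e3 : ∑ t, nbn H' g' w' t = d := by
        simp only [hnbn']
        simp
      rw [hmiss', hlight', e3] at e2
      simp only [hsiz'] at e2
      rw [ha, ← hbdef] at e1
      have := hmax.1.size
      omega
    have hlam' : lam H' ≤ lam G := hmax.2 (Fin k) H' ⟨hfree, hedge, hiso, hcol⟩
    -- the graph `H0`
    obtain ⟨S, hS1, hS2⟩ := Set.exists_subset_card_eq
      (s := {v | g v = some t₁}) (n := d) (by
        have := hsiz t₁
        unfold siz at this
        omega)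
    have hS3 : ∀ v ∈ S, g v = some t₁ := fun v hv => hS1 hv
    let H0 := KS g w S hw0 (fun v hv => by rw [hS3 v hv]; simp)
    have hKU : IsKU H0 g {w} := KS_isKU g w S hw0 _
    have hnb : ∀ t, nbn H0 g w t = if t = t₁ then d else 0 := by
      intro t
      have := KS_nbn g w S hw0 t₁ hS3 t
      rw [hS2] at this
      exact this
    have hlam0 : lam H0 ≤ lam H' := hT r V (Fin k) H0 H' g g' w w' hKU hw'0 hmiss'
      (fun t => (hsiz' t).symm) (fun t => by rw [hnb t, hnbn' t])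
    have hsum : ∑ t, nbn H0 g w t = d := by
      simp only [hnb]
      simp
    have hfin := h₃ V G H0 g w n d (by omega) hNK ha hw0
      (fun v hv => hwmax v (by simpa using hv)) hKU hsum (by omega) (hlam0.trans hlam')
    omega

end DICx

open DICx in
theorem prfDIC : P_statement → CNTU_statement → FLU_statement → BLA_statement →
    SSWU_statement → MEMS_statement → TRF_statement → SWM_statement → SWS_statement →
    SQN_statement → MKH_statement → DIC_statement := by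
  intro _ hCN hF hB hS hM hT hSWM hSWS hSQN hMKH W _ F r C hr hFr hC
  obtain ⟨b₀, n₀, h₀⟩ := hB W F r C hr hFr hC
  obtain ⟨N₁, n₁, h₁⟩ := FNWx.case1 hCN hF hSWM hSWS hSQN hMKH W F r C hr hC b₀
  obtain ⟨N₂, n₂, h₂⟩ := DICx.case2 hCN hS hM hT W F r C hr hFr hC
  refine ⟨b₀ + N₁ + N₂, 1 + n₀ + n₁ + n₂, ?_⟩
  intro V _ G g n m hn hmax hNK
  rcases h₀ V G g n m (by omega) hmax hNK with hb | ha
  · right
    obtain ⟨w, hw⟩ := h₁ V G g n m (by omega) hmax hNK hb
    rcases hgw : g w with _ | k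
    · rw [miss_out hgw] at hw
      obtain ⟨t, ht⟩ : ∃ t, siz g t ≠ 0 := by
        by_contra hcon
        push Not at hcon
        have h := hNK.tot
        rw [Finset.sum_eq_zero (fun t _ => hcon t)] at h
        omega
      obtain ⟨v, hv⟩ := Set.nonempty_of_ncard_ne_zero ht
      refine ⟨v, t, hv, by omega, ?_⟩
      have hle : {e | e ∈ missSet G g ∧ v ∉ e}.ncard ≤ (missSet G g).ncard :=
        Set.ncard_le_ncard (fun e he => he.1) (Set.toFinite _)
      omega
    · exact ⟨w, k, hgw, by omega, by omega⟩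
  · left
    obtain ⟨w, hw, hw2⟩ := h₂ V G g n m (by omega) hmax hNK ha
    exact ⟨w, hw, ha, by omega⟩

end MP0c3a8f

end

section

/-!
# MP_0c3a8f_co, PB11, item EQG: first order conditions
-/

open Finset

namespace MP0c3a8f

namespace EQGaux

open Classical in
theorem muv_cln {V : Type} [Fintype V] {r : ℕ} {G : SimpleGraph V} {g : V → Option (Fin r)}
    {z : V → ℝ} {w v : V} (h : Cln G g w v) :
    muv G g z v = if g w ≠ none ∧ g w ≠ g v ∧ ¬ G.Adj v w then z w else 0 := by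
  unfold muv
  rw [Finset.sum_eq_single w]
  · by_cases h1 : g w ≠ none ∧ g w ≠ g v ∧ ¬ G.Adj v w
    · rw [if_pos h1, if_pos ⟨h.2.1, h1⟩]
    · rw [if_neg h1, if_neg]
      rintro ⟨_, h2⟩
      exact h1 h2
  · intro u _ hu
    rw [if_neg]
    rintro ⟨_, h2, h3, h4⟩
    exact h4 (h.2.2.1 u hu h2 h3)
  · intro hw
    exact absurd (Finset.mem_univ w) hw

open Classical in
theorem omv_cln {V : Type} [Fintype V] {r : ℕ} {G : SimpleGraph V} {g : V → Option (Fin r)}
    {z : V → ℝ} {w v : V} (h : Cln G g w v) :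
    omv G g z v = if g w = none ∧ G.Adj v w then z w else 0 := by
  unfold omv
  rw [Finset.sum_eq_single w]
  · intro u _ hu
    rw [if_neg]
    rintro ⟨h2, h3⟩
    exact h.2.2.2 u hu h2 h3
  · intro hw
    exact absurd (Finset.mem_univ w) hw

theorem adj_le_one {V : Type} (G : SimpleGraph V) (u v : V) : adj G u v ≤ 1 := by
  classical
  unfold adj
  split_ifs <;> norm_num

end EQGaux

open EQGaux in
theorem prfEQG : P_statement → MVG_statement → MVE_statement → TCG_statement →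
    EQG_statement := by
  intro _ hMVG hMVE hTCG W _ F r m V _ G z g w y y' s t n hmax hind hper hlam hzw hy hy' hst
    hgy hgy' hgw hwy hwy' hcard hc
  have hne : g y ≠ g y' := by
    rw [hgy, hgy']
    intro h
    exact hst (Option.some.inj h)
  have hgw' : g w ≠ g y' := by rw [hgy']; exact hgw
  obtain ⟨H, hH, hin⟩ := hMVG W F r m V G g w y y' hmax.1 hind hy hy' hne hgw' hwy hwy' hcard hc
  have hle := hmax.2 V H hin
  have hkey : lam G * (z y' - z y) + z w ≤ z w / lam G * adj G y y' := by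
    by_contra hcon
    push Not at hcon
    exact absurd (hMVE V G H z w y y' hper.nonneg hper.eig hlam hzw hy'.1.symm hwy hwy' hH hcon)
      (not_lt.2 hle)
  have h1 : z w / lam G * adj G y y' ≤ z w / lam G := by
    have h0 : 0 ≤ z w / lam G := (div_pos hzw hlam).le
    nlinarith [adj_le_one G y y']
  obtain ⟨hT, _⟩ := hTCG r V G z g n hind hper
  have ey := hT y s hgy
  have ey' := hT y' t hgy'
  rw [muv_cln hy, omv_cln hy] at ey
  rw [muv_cln hy', omv_cln hy'] at ey'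
  have hyw : G.Adj y w := hwy.symm
  have hy'w : ¬ G.Adj y' w := fun h => hwy' h.symm
  by_cases hw : g w = none
  · rw [if_neg (fun h => h.1 hw), if_pos ⟨hw, hyw⟩] at ey
    rw [if_neg (fun h => h.1 hw), if_neg (fun h => hy'w h.2)] at ey'
    linarith
  · rw [if_neg (fun h => h.2.2 hyw), if_neg (fun h => hw h.1)] at ey
    rw [if_pos ⟨hw, hgw', hy'w⟩, if_neg (fun h => hw h.1)] at ey'
    linarith

end MP0c3a8f

end

section

/-!
# MP_0c3a8f_co, PB11, item FINK: all maximisers for all sufficiently large `m`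
-/

open Finset

namespace MP0c3a8f

namespace ItemFINK

variable {V : Type} [Fintype V] {r : ℕ}

theorem KI_mono {n D N N' : ℕ} {G : SimpleGraph V} {g : V → Option (Fin r)} {w : V}
    (hN : N ≤ N') (h : KI n D N G g w) : KI n D N' G g w := by
  obtain ⟨h1, h2, h3, h4, h5⟩ := h
  have hN' : (N : ℝ) ≤ N' := by exact_mod_cast hN
  refine ⟨h1.trans hN', ⟨h2.indep, h2.out, h2.tot, h2.bnd.trans hN'⟩,
    fun h => h3 (hN.trans h), fun h h' => h4 (hN.trans h)
      ((Nat.mul_le_mul_right D hN).trans h'), fun s t hs ht => ?_⟩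
  obtain ⟨h6, h7⟩ := h5 s t (hN.trans hs) (hN.trans ht)
  exact ⟨fun h => (h6 h).trans (Nat.add_le_add_left hN _),
    fun h => (h7 h).trans (Nat.add_le_add_left hN _)⟩

theorem KII_mono {n B N N' : ℕ} {G : SimpleGraph V} {g : V → Option (Fin r)} {w : V}
    (hN : N ≤ N') (h : KII n B N G g w) : KII n B N' G g w := by
  obtain ⟨h1, h2, h3, t₀, h4, h5⟩ := h
  have hN' : (N : ℝ) ≤ N' := by exact_mod_cast hN
  have hn : (0 : ℝ) ≤ n := Nat.cast_nonneg n
  have e1 : (N : ℝ) * Real.sqrt (Real.sqrt n) ≤ N' * Real.sqrt (Real.sqrt n) :=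
    mul_le_mul_of_nonneg_right hN' (Real.sqrt_nonneg _)
  have e2 : (N : ℝ) * (n * Real.sqrt (Real.sqrt n)) ≤ N' * (n * Real.sqrt (Real.sqrt n)) :=
    mul_le_mul_of_nonneg_right hN' (mul_nonneg hn (Real.sqrt_nonneg _))
  have e3 : (N : ℝ) * n ≤ N' * n := mul_le_mul_of_nonneg_right hN' hn
  refine ⟨h1.trans e1, ⟨h2.indep, h2.tot, h2.dev.trans e3, h2.few.trans e1⟩, ?_, t₀,
    h4.trans e2, fun t ht => (h5 t ht).trans e2⟩
  rcases h3 with ⟨h6, h7, h8, h9⟩ | ⟨k, h6, h7, h8, h9⟩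
  · refine Or.inl ⟨h6, h7, h8.trans hN, fun s t hs ht => ?_⟩
    obtain ⟨h10, h11⟩ := h9 s t (hN.trans hs) (hN.trans ht)
    exact ⟨h10, h11.trans (Nat.add_le_add_left hN _)⟩
  · refine Or.inr ⟨k, h6, h7.trans hN, h8.trans hN, fun s t hs ht hm => ?_⟩
    obtain ⟨h10, h11⟩ := h9 s t hs ht (hN.trans hm)
    exact ⟨h10, fun h => (h11 h).trans (Nat.add_le_add_left hN _)⟩

end ItemFINK

theorem prfFINK : FINX_statement → KIX_statement → KIY_statement → FINK_statement := by
  intro hF hX hY W _ F r hr hcrit hcol hnc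
  obtain ⟨N1, hF⟩ := hF W F r hr hcrit hcol hnc
  obtain ⟨N2, n2, hX⟩ := hX W F r N1 hr
  obtain ⟨N3, n3, hY⟩ := hY W F r N1 hr hnc
  obtain ⟨m₀, hF⟩ := hF (n2 + n3 + 1)
  refine ⟨N1 + N2 + N3, m₀, fun m hm => ?_⟩
  obtain ⟨n, D, B, hn, hD, hB, hB1, hBn, hex, hall⟩ := hF m hm
  refine ⟨n, D, B, hD, hB, hB1, hex, fun V _ G hG => ?_⟩
  obtain ⟨h1, h2⟩ := hall V G hG
  refine ⟨h1.trans ?_, ?_⟩
  · refine mul_le_mul_of_nonneg_right ?_ (Real.sqrt_nonneg _)
    exact_mod_cast (by omega : N1 ≤ N1 + N2 + N3)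
  · rcases h2 with ⟨h2, h3⟩ | h2
    · have hM : MxF r n D F G := by
        unfold MxF
        rw [hD]
        exact hG
      obtain ⟨g, w, h4⟩ := hX n (by omega) D h3 V G hM h2
      exact ⟨g, w, Or.inl (ItemFINK.KI_mono (by omega) h4)⟩
    · obtain ⟨g, w, h4⟩ := hY (n + 1) (by omega) B m (by omega) hB V G hG h2
      exact ⟨g, w, Or.inr (ItemFINK.KII_mono (by omega) h4)⟩

end MP0c3a8f

end

section

/-!
# MP_0c3a8f_co, PB11, item FINX: all maximisers for all large `m`, range of alternative one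
-/

open Finset

namespace MP0c3a8f

namespace ItemFINX

open ItemFINA

theorem pick (hT : TURN_statement) {r : ℕ} (hr : 2 ≤ r) (n₀ m : ℕ)
    (hm : (SimpleGraph.turanGraph n₀ r).edgeSet.ncard ≤ m) :
    ∃ n D B : ℕ, n₀ ≤ n ∧ (SimpleGraph.turanGraph n r).edgeSet.ncard + D = m ∧
      m + B = (SimpleGraph.turanGraph (n + 1) r).edgeSet.ncard ∧ D + B + n / r = n ∧ 1 ≤ B := by
  have hmono : Monotone (fun n => (SimpleGraph.turanGraph n r).edgeSet.ncard) :=
    monotone_nat_of_le_succ (fun n => eT_le hT hr n)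
  have hex : ∃ k, m < (SimpleGraph.turanGraph k r).edgeSet.ncard := by
    refine ⟨m + 3, ?_⟩
    have := eT_ge hT hr (m + 3)
    omega
  classical
  obtain ⟨k, hk, hmin⟩ : ∃ k, m < (SimpleGraph.turanGraph k r).edgeSet.ncard ∧
      ∀ j < k, ¬ m < (SimpleGraph.turanGraph j r).edgeSet.ncard :=
    ⟨Nat.find hex, Nat.find_spec hex, fun j hj => Nat.find_min hex hj⟩
  obtain _ | n := k
  · rw [eT_zero] at hk
    exact absurd hk (Nat.not_lt_zero _)
  · have h1 : (SimpleGraph.turanGraph n r).edgeSet.ncard ≤ m := not_lt.1 (hmin n (by omega))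
    have h2 := hT r n (by omega)
    have h3 : n / r ≤ n := Nat.div_le_self n r
    refine ⟨n, m - (SimpleGraph.turanGraph n r).edgeSet.ncard,
      (SimpleGraph.turanGraph (n + 1) r).edgeSet.ncard - m, ?_, by omega, by omega, by omega,
      by omega⟩
    by_contra hlt
    have h4 : n + 1 ≤ n₀ := by omega
    have h5 := hmono h4
    simp only at h5
    omega

/-- the range of alternative one contains `D ≤ n / 9` -/
theorem rng {r : ℕ} (hr : 3 ≤ r) {n D ε : ℝ} (hn : 0 ≤ n) (hε : ε ≤ 1 / 9) (h : D ≤ ε * n) :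
    D ≤ (1 - 2 / (r : ℝ) + 1 / (4 * (r : ℝ) ^ 2)) * (qq r * n) := by
  obtain ⟨hq0, hq1⟩ := qq_bd hr
  have hR : (3 : ℝ) ≤ r := by exact_mod_cast hr
  have h1 : (2 : ℝ) / r ≤ 2 / 3 := by
    rw [div_le_div_iff₀ (by linarith) (by norm_num)]
    linarith
  have h2 : (0 : ℝ) ≤ 1 / (4 * (r : ℝ) ^ 2) := by positivity
  have h3 : (2 / 3 : ℝ) * n ≤ qq r * n := mul_le_mul_of_nonneg_right hq0 hn
  have h4 : (1 / 3 : ℝ) * (2 / 3 * n) ≤ (1 - 2 / (r : ℝ) + 1 / (4 * (r : ℝ) ^ 2)) * (qq r * n) :=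
    mul_le_mul (by linarith) h3 (by positivity) (by linarith)
  have h5 : ε * n ≤ 1 / 9 * n := mul_le_mul_of_nonneg_right hε hn
  linarith

end ItemFINX

open ItemFINA ItemFINX in
/-- Item FINX. -/
theorem prfFINX : P_statement → MAXE_statement → DEV_statement → TURN_statement →
    UPS_statement → CHUV_statement → FNS_statement → MAXG_statement → FNT_statement →
    FNU_statement → FINX_statement := by
  intro hP hMAXE _ hTURN hUPS hCHUV hFNS hMAXG hFNT hFNU W _ F r hr hcrit hcol hncol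
  obtain ⟨hq0, hq1⟩ := qq_bd hr
  have hqp : 0 < qq r := by linarith
  have hR : (3 : ℝ) ≤ r := by exact_mod_cast hr
  obtain ⟨C1, nU, hC1, hU⟩ := hUPS W F r hr hncol
  obtain ⟨C2, nC, hC2, hC⟩ := hCHUV W F r hr hncol
  obtain ⟨ε1', hε1', N1, n1, hF1⟩ := hFNS W F r hr hcrit hcol hncol
  obtain ⟨ε2', hε2', N2, n2, hF2⟩ := hFNT W F r hr hcrit hcol hncol
  obtain ⟨ε1, hε1d⟩ : ∃ ε1 : ℝ, ε1 = min ε1' (1 / 9) := ⟨_, rfl⟩
  obtain ⟨ε2, hε2d⟩ : ∃ ε2 : ℝ, ε2 = min ε2' (1 / (4 * (r : ℝ) ^ 2)) := ⟨_, rfl⟩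
  have hr4 : (0 : ℝ) < 1 / (4 * (r : ℝ) ^ 2) := by positivity
  have hε1 : 0 < ε1 := by rw [hε1d]; exact lt_min hε1' (by norm_num)
  have hε2 : 0 < ε2 := by rw [hε2d]; exact lt_min hε2' hr4
  have hε11 : ε1 ≤ ε1' := by rw [hε1d]; exact min_le_left _ _
  have hε19 : ε1 ≤ 1 / 9 := by rw [hε1d]; exact min_le_right _ _
  have hε22 : ε2 ≤ ε2' := by rw [hε2d]; exact min_le_left _ _
  have hε24 : ε2 ≤ 1 / (4 * (r : ℝ) ^ 2) := by rw [hε2d]; exact min_le_right _ _
  obtain ⟨ε, hεd⟩ : ∃ ε : ℝ, ε = min ε1 ε2 := ⟨_, rfl⟩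
  have hε : 0 < ε := by rw [hεd]; exact lt_min hε1 hε2
  have hεε1 : ε ≤ ε1 := by rw [hεd]; exact min_le_left _ _
  have hεε2 : ε ≤ ε2 := by rw [hεd]; exact min_le_right _ _
  obtain ⟨N3, hF3'⟩ := hMAXG W F r ε hr hcrit hcol hncol hε
  obtain ⟨n3, hF3⟩ := hF3' 1 0 one_pos
  obtain ⟨N4, n4, hF4⟩ := hFNU W F r (ε / 2) hr hcrit hcol hncol (by linarith)
  obtain ⟨M, hM⟩ : ∃ M : ℕ, M = ⌈1 / (ε * qq r)⌉₊ + 1 := ⟨_, rfl⟩
  have hM1 : 1 < (M : ℝ) * (ε * qq r) := by
    have h1 : 1 / (ε * qq r) ≤ (⌈1 / (ε * qq r)⌉₊ : ℝ) := Nat.le_ceil _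
    have h2 : 0 < ε * qq r := by positivity
    rw [div_le_iff₀ h2] at h1
    rw [hM]
    push_cast
    linarith
  obtain ⟨N0, hN0⟩ : ∃ N0 : ℕ, N0 = N1 + N2 + N3 + N4 + M := ⟨_, rfl⟩
  obtain ⟨C', hC'⟩ : ∃ C' : ℝ, C' = C1 + 2 * r + 2 + 2 * C2 := ⟨_, rfl⟩
  have hC'0 : 0 ≤ C' := by rw [hC']; linarith
  obtain ⟨N, hN⟩ : ∃ N : ℕ, N = 2 * N0 + ⌈C'⌉₊ := ⟨_, rfl⟩
  have hNC : 2 * (N0 : ℝ) + C' ≤ N := by
    have := Nat.le_ceil C'
    rw [hN]
    push_cast
    linarith
  refine ⟨N, fun nx => ?_⟩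
  obtain ⟨n₀, hn₀⟩ : ∃ n₀ : ℕ, n₀ = nU + nC + n1 + n2 + n3 + n4 + 2 * M + 2 + nx := ⟨_, rfl⟩
  refine ⟨(SimpleGraph.turanGraph n₀ r).edgeSet.ncard, fun m hm => ?_⟩
  obtain ⟨n, D, B, hn, hnD, hnB, hDB, hB1⟩ := ItemFINX.pick hTURN (by omega : 2 ≤ r) n₀ m hm
  have hn1 : 1 ≤ n := by omega
  have hnR : (1 : ℝ) ≤ n := by exact_mod_cast hn1
  obtain ⟨hBn, hDn, hDq, hDBq, hBr⟩ := facts hr hDB
  have hBn' : B ≤ n := by exact_mod_cast hBn
  obtain ⟨hh1, hh2⟩ := root_succ hn1
  obtain ⟨h, hhd⟩ : ∃ h : ℝ, h = Real.sqrt (Real.sqrt n) := ⟨_, rfl⟩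
  obtain ⟨h', hhd'⟩ : ∃ h' : ℝ, h' = Real.sqrt (Real.sqrt ((n + 1 : ℕ) : ℝ)) := ⟨_, rfl⟩
  rw [← hhd] at hh1
  rw [← hhd, ← hhd'] at hh2
  have hh'0 : 0 ≤ h' := by rw [hhd']; exact Real.sqrt_nonneg _
  have hD0 : (0 : ℝ) ≤ D := Nat.cast_nonneg D
  have hB0 : (0 : ℝ) ≤ B := Nat.cast_nonneg B
  obtain ⟨k, H, hH, hHD⟩ := hC (n + 1) (by omega) B m (hBn'.trans (Nat.le_succ n)) hnB
  rw [← hhd'] at hHD
  obtain ⟨X, hX⟩ : ∃ X : ℝ, X = 2 * D * (qq r - D / n) := ⟨_, rfl⟩
  obtain ⟨Y, hY⟩ : ∃ Y : ℝ, Y = AB r (n + 1) B := ⟨_, rfl⟩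
  rw [← hY] at hHD
  obtain ⟨k₁, G₁, hG₁, hG₁'⟩ := hMAXE W F r m ⟨Fin k, inferInstance, H, hH⟩
  refine ⟨n, D, B, by omega, hnD, hnB, hB1, hBn', ⟨k₁, G₁, hG₁, hG₁'⟩, ?_⟩
  intro V _ G hG
  rw [← hX, ← hY, ← hhd]
  -- upper bounds
  have hup2 : Def r G ≤ Y + C2 * h' := (max_le hP hG hH).trans hHD
  have hup2' : Def r G ≤ Y + 2 * C2 * h := by
    have : C2 * h' ≤ C2 * (2 * h) := mul_le_mul_of_nonneg_left hh2 hC2
    linarith
  have hup1 : Def r G ≤ X + C' * h := by
    by_cases hD : D ≤ (r - 1) * (n / r)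
    · obtain ⟨k₂, H₂, hH₂, hH₂D⟩ := hU n (by omega) D hD
      rw [hnD] at hH₂
      have h1 := (max_le hP hG hH₂).trans hH₂D
      rw [← hX] at h1
      have h2 : C1 ≤ C' * h := by
        have h3 : C' * 1 ≤ C' * h := mul_le_mul_of_nonneg_left hh1 hC'0
        have h4 : C1 ≤ C' := by rw [hC']; linarith
        linarith
      linarith
    · have hB := hBr hD
      have hB' : (B : ℝ) ≤ r := by exact_mod_cast hB
      have h1 : Y ≤ 2 * r := by
        rw [hY]
        have := AB_le hr (n + 1) B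
        linarith
      have h2 : -2 ≤ X := by
        have h3 : -(1 / (n : ℝ)) ≤ qq r - D / n := by
          have h4 : (D : ℝ) / n ≤ (qq r * n + 1) / n :=
            div_le_div_of_nonneg_right (by linarith) (by linarith)
          have h5 : (qq r * n + 1) / n = qq r + 1 / (n : ℝ) := by
            field_simp
          rw [h5] at h4
          linarith
        have h6 : 2 * (D : ℝ) * (-(1 / (n : ℝ))) ≤ X := by
          rw [hX]
          exact mul_le_mul_of_nonneg_left h3 (by linarith)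
        have h7 : (D : ℝ) * (1 / (n : ℝ)) ≤ 1 := by
          rw [mul_one_div, div_le_one (by linarith)]
          exact hDn
        linarith
      have h3 : 2 * C2 * h + (2 * r + 2) ≤ C' * h := by
        have h4 : (2 * (r : ℝ) + 2) * 1 ≤ (2 * r + 2) * h :=
          mul_le_mul_of_nonneg_left hh1 (by linarith)
        have h5 : 0 ≤ C1 * h := by positivity
        rw [hC']
        linarith
      linarith
  -- the alternatives
  have hG' : MxF r n D F G := by
    unfold MxF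
    rw [hnD]
    exact hG
  have hqn : 0 < qq r * (n : ℝ) := by positivity
  have halt : (AltI r n D N0 G ∧
      (D : ℝ) ≤ (1 - 2 / (r : ℝ) + 1 / (4 * (r : ℝ) ^ 2)) * (qq r * n)) ∨
      AltII r (n + 1) B N0 G := by
    by_cases ha : (D : ℝ) ≤ ε1 * n
    · have ha' : (D : ℝ) ≤ ε1' * n :=
        ha.trans (mul_le_mul_of_nonneg_right hε11 (by linarith))
      exact Or.inl ⟨altI_mono (by omega) (hF1 n (by omega) D ha' V G hG'),
        rng hr (by linarith) hε19 ha⟩
    rw [not_le] at ha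
    by_cases hb : (D : ℝ) ≤ (1 - 2 / (r : ℝ) - ε) * (qq r * n)
    · left
      refine ⟨?_, hb.trans (mul_le_mul_of_nonneg_right (by linarith) hqn.le)⟩
      have hlow : ε * (qq r * n) ≤ D := by
        have h1 : ε * (qq r * n) ≤ ε1 * (1 * n) :=
          mul_le_mul hεε1 (mul_le_mul_of_nonneg_right hq1 (by linarith)) hqn.le hε1.le
        linarith
      obtain ⟨-, h3⟩ := hF3 n (by omega) D ⟨hlow, hb⟩
      obtain ⟨h4, g, w, h5, -⟩ := h3 V G hG'
      have hN30 : (N3 : ℝ) ≤ N0 := by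
        have : N3 ≤ N0 := by omega
        exact_mod_cast this
      refine ⟨h4.trans hN30, g, w, ⟨h5.indep, h5.out, h5.tot, h5.bnd.trans hN30⟩, ?_⟩
      intro _ h6
      exfalso
      have h7 : (N0 : ℝ) * D ≤ n := by exact_mod_cast h6
      have h8 : (M : ℝ) ≤ N0 := by
        have : M ≤ N0 := by omega
        exact_mod_cast this
      have h9 : (M : ℝ) * (ε * (qq r * n)) ≤ N0 * D :=
        mul_le_mul h8 hlow (by positivity) (by positivity)
      have h10 : 1 * (n : ℝ) < (M : ℝ) * (ε * qq r) * n :=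
        mul_lt_mul_of_pos_right hM1 (by linarith)
      have h11 : (M : ℝ) * (ε * (qq r * n)) = (M : ℝ) * (ε * qq r) * n := by ring
      linarith
    rw [not_le] at hb
    by_cases hc : |(D : ℝ) - (1 - 2 / (r : ℝ)) * (qq r * n)| ≤ ε2 * (qq r * n)
    · have hc' := hc.trans (mul_le_mul_of_nonneg_right hε22 hqn.le)
      rcases hF2 n (by omega) D B ⟨hc', hDB⟩ V G hG' with h1 | h1
      · refine Or.inl ⟨altI_mono (by omega) h1, ?_⟩
        have e1 := (abs_le.1 hc).2
        have e2 : ε2 * (qq r * n) ≤ 1 / (4 * (r : ℝ) ^ 2) * (qq r * n) :=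
          mul_le_mul_of_nonneg_right hε24 hqn.le
        have e3 : (1 - 2 / (r : ℝ) + 1 / (4 * (r : ℝ) ^ 2)) * (qq r * n) =
            (1 - 2 / (r : ℝ)) * (qq r * n) + 1 / (4 * (r : ℝ) ^ 2) * (qq r * n) := by ring
        rw [e3]
        linarith
      · exact Or.inr (altII_mono (by omega) h1)
    right
    have hd : (1 - 2 / (r : ℝ) + ε2) * (qq r * n) < D := by
      by_contra hcon
      rw [not_lt] at hcon
      apply hc
      rw [abs_le]
      have h1 : ε * (qq r * n) ≤ ε2 * (qq r * n) := mul_le_mul_of_nonneg_right hεε2 hqn.le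
      constructor
      · linarith
      · linarith
    have hBu : (B : ℝ) ≤ (2 / (r : ℝ) - ε / 2) * (qq r * ((n + 1 : ℕ) : ℝ)) := by
      have h1 : ε * (qq r * n) ≤ ε2 * (qq r * n) := mul_le_mul_of_nonneg_right hεε2 hqn.le
      have h2 : (2 : ℝ) * M ≤ n := by
        have : 2 * M ≤ n := by omega
        exact_mod_cast this
      have h3 : (2 * (M : ℝ)) * (ε * qq r) ≤ n * (ε * qq r) :=
        mul_le_mul_of_nonneg_right h2 (by positivity)
      have h4 : 0 ≤ 2 / (r : ℝ) * qq r := by positivity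
      have h5 : 2 ≤ ε * (qq r * n) := by
        have e1 : ε * (qq r * n) = n * (ε * qq r) := by ring
        have e2 : 2 * (M : ℝ) * (ε * qq r) = 2 * ((M : ℝ) * (ε * qq r)) := by ring
        linarith
      have h6 : (B : ℝ) ≤ (2 / (r : ℝ)) * (qq r * n) - ε * (qq r * n) + 1 := by linarith
      push_cast
      by_cases hε4 : ε / 2 ≤ 2 / (r : ℝ)
      · have h7 : 0 ≤ (2 / (r : ℝ) - ε / 2) * qq r :=
          mul_nonneg (by linarith) hqp.le
        have e3 : (2 / (r : ℝ) - ε / 2) * (qq r * ((n : ℝ) + 1)) = 2 / (r : ℝ) * (qq r * n)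
            - ε / 2 * (qq r * n) + (2 / (r : ℝ) - ε / 2) * qq r := by ring
        linarith
      · exfalso
        rw [not_le] at hε4
        have h8 : 2 / (r : ℝ) * (qq r * n) < ε / 2 * (qq r * n) :=
          mul_lt_mul_of_pos_right hε4 hqn
        have h9 : (B : ℝ) < 0 + 1 - ε / 2 * (qq r * n) := by linarith
        linarith
    exact altII_mono (by omega) (hF4 (n + 1) (by omega) B m hBu hnB V G hG)
  have hN0N : N0 ≤ N := by omega
  refine ⟨?_, ?_⟩
  · have hC'N : C' * h ≤ N * h := mul_le_mul_of_nonneg_right (by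
      have : (0 : ℝ) ≤ N0 := Nat.cast_nonneg N0
      linarith) (by linarith)
    have hN0h : 2 * (N0 : ℝ) * h ≤ N * h := mul_le_mul_of_nonneg_right (by linarith)
      (by linarith)
    have hN00 : (0 : ℝ) ≤ N0 := Nat.cast_nonneg N0
    rw [abs_le]
    constructor
    · rcases halt with ⟨h1, -⟩ | h1
      · have h2 := (abs_le.1 h1.1).1
        rw [← hX] at h2
        have h3 : min X Y ≤ X := min_le_left _ _
        have h4 : (N0 : ℝ) * 1 ≤ N0 * h := mul_le_mul_of_nonneg_left hh1 hN00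
        have h5 : 0 ≤ (N0 : ℝ) * h := by positivity
        linarith
      · have h2 := (abs_le.1 h1.1).1
        rw [← hY, ← hhd'] at h2
        have h3 : min X Y ≤ Y := min_le_right _ _
        have h4 : (N0 : ℝ) * h' ≤ N0 * (2 * h) := mul_le_mul_of_nonneg_left hh2 hN00
        linarith
    · have h1 : 2 * C2 * h ≤ C' * h := mul_le_mul_of_nonneg_right (by
        rw [hC']
        linarith) (by linarith)
      rcases min_choice X Y with h2 | h2
      · rw [h2]
        linarith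
      · rw [h2]
        linarith
  · rcases halt with ⟨h1, h1'⟩ | h1
    · exact Or.inl ⟨altI_mono hN0N h1, h1'⟩
    · exact Or.inr (altII_mono hN0N h1)

end MP0c3a8f

end

section

/-!
# MP_0c3a8f_co, phase B, item JBG: unbalanced parts are worse, general form
-/

open Finset

namespace MP0c3a8f

namespace ItemJBG

open ItemJB (abs_le_sq tz_cases align adjust even_diff)

/-- the combinatorial part -/
theorem comb (hD : DEV_statement) (r N K n D : ℕ) (hr : 3 ≤ r)
    (hn : K + N ≤ n / r) (hlo : 2 * N + K * r ≤ D)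
    (σ a v : Fin r → ℕ)
    (hσ : ∑ t, σ t = n) (hdev : dev σ ≤ N) (hav : ∀ t, a t + v t ≤ σ t)
    (hv : ∀ t, v t ≤ N) (hsum : |(∑ t, (a t : ℝ)) - D| ≤ N)
    (hlt : ∑ t, tz r n t ^ 2 < ∑ t, σ t ^ 2) :
    ∃ (π : Equiv.Perm (Fin r)) (a' : Fin r → ℕ), (∀ t, a t ≤ K → a' t = a t) ∧
      (∀ t, K < a t → K ≤ a' t) ∧ (∀ t, a' t + v t ≤ tz r n (π t)) ∧
      2 * ∑ t, a' t + ∑ t, σ t ^ 2 = 2 * ∑ t, a t + ∑ t, tz r n t ^ 2 ∧
      (∀ t, (a' t : ℤ) ≤ a t + 2 * N ∧ (a t : ℤ) ≤ a' t + 2 * N) ∧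
      2 ≤ ∑ t, ((σ t : ℤ) - tz r n (π t)) ^ 2 ∧
      ∑ t, ((σ t : ℤ) - tz r n (π t)) ^ 2 ≤ ∑ t, (σ t : ℤ) ^ 2 - ∑ t, (tz r n t : ℤ) ^ 2 ∧
      (∑ t, (σ t : ℤ) ^ 2 - ∑ t, (tz r n t : ℤ) ^ 2 ≤ N) := by
  classical
  have hr1 : 1 ≤ r := by omega
  obtain ⟨hd1, hd2, hd3, hd4, -, -⟩ := hD r n σ hr1 hσ
  obtain ⟨-, -, -, hd5, -, -⟩ := hD r n (tz r n) hr1 hd1
  obtain ⟨π, hπ⟩ := align r n σ hσ hd1
  set τ : Fin r → ℕ := fun t => tz r n (π t) with hτ
  set e : Fin r → ℤ := fun t => (σ t : ℤ) - τ t with he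
  have hτn : ∑ t, τ t = n := by
    rw [hτ, Equiv.sum_comp π (fun t => tz r n t)]
    exact hd1
  have hτ2 : ∑ t, (τ t : ℤ) ^ 2 = ∑ t, (tz r n t : ℤ) ^ 2 := by
    rw [hτ]
    exact Equiv.sum_comp π (fun t => (tz r n t : ℤ) ^ 2)
  have hesum : ∑ t, e t = 0 := by
    rw [he, Finset.sum_sub_distrib]
    have h1 : ∑ t, (τ t : ℤ) = n := by exact_mod_cast hτn
    have h2 : ∑ t, (σ t : ℤ) = n := by exact_mod_cast hσ
    rw [h1, h2, sub_self]
  set P : ℤ := ∑ t, (σ t : ℤ) ^ 2 - ∑ t, (tz r n t : ℤ) ^ 2 with hP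
  set Q : ℤ := ∑ t, e t ^ 2 with hQ
  have hPQ : P = 2 * ∑ t, (τ t : ℤ) * e t + Q := by
    rw [hP, hQ, ← hτ2, Finset.mul_sum, ← Finset.sum_add_distrib, ← Finset.sum_sub_distrib]
    refine Finset.sum_congr rfl fun t _ => ?_
    rw [he]; ring
  have hQP : Q ≤ P := by
    rw [hPQ]
    have : 0 ≤ ∑ t, (τ t : ℤ) * e t := hπ
    linarith
  have hP0 : 0 < P := by
    rw [hP]
    have : ((∑ t, tz r n t ^ 2 : ℕ) : ℤ) < ((∑ t, σ t ^ 2 : ℕ) : ℤ) := by exact_mod_cast hlt
    push_cast at this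
    linarith
  have hPN : P ≤ N := by
    have h0 : 0 ≤ dev (tz r n) := Finset.sum_nonneg fun t _ => sq_nonneg _
    have h1 : (P : ℝ) = dev σ - dev (tz r n) := by
      rw [hd4, hd5, hP]
      push_cast
      ring
    have h2 : (P : ℝ) ≤ N := by rw [h1]; linarith
    exact_mod_cast h2
  have habs : ∀ t, |e t| ≤ e t ^ 2 := fun t => abs_le_sq (e t)
  have hQabs : ∑ t, |e t| ≤ Q := Finset.sum_le_sum fun t _ => habs t
  have hQ2 : 2 ≤ Q := by
    by_contra hcon
    push Not at hcon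
    have hne : ∃ t, e t ≠ 0 := by
      by_contra hall
      push Not at hall
      have h0 : P = 0 := by
        rw [hPQ, hQ]
        simp [hall]
      omega
    obtain ⟨t, ht⟩ := hne
    have h1 : |e t| ≤ 1 := by
      have h2 : |e t| ≤ ∑ s, |e s| := Finset.single_le_sum (fun s _ => abs_nonneg (e s))
        (Finset.mem_univ t)
      linarith
    have h2 : e t + ∑ s ∈ Finset.univ.erase t, e s = 0 := by
      rw [Finset.add_sum_erase _ _ (Finset.mem_univ t)]
      exact hesum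
    have h3 : |e t| + ∑ s ∈ Finset.univ.erase t, |e s| ≤ Q := by
      rw [Finset.add_sum_erase _ (fun s => |e s|) (Finset.mem_univ t)]
      exact hQabs
    have h4 : |∑ s ∈ Finset.univ.erase t, e s| ≤ ∑ s ∈ Finset.univ.erase t, |e s| :=
      Finset.abs_sum_le_sum_abs _ _
    have h5 : ∑ s ∈ Finset.univ.erase t, e s = - e t := by linarith
    rw [h5, abs_neg] at h4
    have h6 : 1 ≤ |e t| := Int.one_le_abs ht
    linarith
  obtain ⟨S, hS⟩ := even_diff σ τ (hσ.trans hτn.symm)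
  rw [hτ2] at hS
  change P = 2 * S at hS
  have hS1 : 1 ≤ S := by omega
  have hSN : 2 * S ≤ N := by omega
  have het : ∀ t, |e t| ≤ N := by
    intro t
    have h2 : |e t| ≤ ∑ s, |e s| := Finset.single_le_sum (fun s _ => abs_nonneg (e s))
      (Finset.mem_univ t)
    linarith
  have hq0 : (0 : ℝ) < r := by exact_mod_cast hr1
  have hτ1 : ∀ t, n / r ≤ τ t := by
    intro t
    rcases tz_cases r n (π t) with h | h
    · exact h.ge
    · rw [hτ]; simp only; omega
  set Φ : Finset (Fin r) := Finset.univ.filter (fun t => a t ≤ K) with hΦ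
  have hmemΦ : ∀ t, t ∈ Φ ↔ a t ≤ K := fun t => by simp [hΦ]
  set s : Finset (Fin r) := Φᶜ with hs
  have hmems : ∀ t, t ∈ s ↔ K < a t := fun t => by
    rw [hs, Finset.mem_compl, hmemΦ, not_le]
  have hscard : s.card = r - Φ.card := by rw [hs, Finset.card_compl, Fintype.card_fin]
  have hΦcard : Φ.card ≤ r := by
    calc Φ.card ≤ (Finset.univ : Finset (Fin r)).card := Finset.card_le_univ _
      _ = r := by simp
  have hsplit : ∀ f : Fin r → ℕ, ∑ t, f t = ∑ t ∈ Φ, f t + ∑ t ∈ s, f t := by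
    intro f
    rw [hs, Finset.sum_add_sum_compl]
  have hΦa : ∑ t ∈ Φ, a t ≤ Φ.card * K := by
    calc ∑ t ∈ Φ, a t ≤ ∑ _t ∈ Φ, K := Finset.sum_le_sum fun t ht => (hmemΦ t).1 ht
      _ = Φ.card * K := by rw [Finset.sum_const, smul_eq_mul]
  obtain ⟨S', rfl⟩ : ∃ S' : ℕ, S = S' := ⟨S.toNat, by omega⟩
  rw [abs_le] at hsum
  have hsumN : D ≤ ∑ t, a t + N := by
    have h3 : ((∑ t, a t : ℕ) : ℝ) = ∑ t, (a t : ℝ) := by push_cast; rfl
    have h4 : (D : ℝ) ≤ ((∑ t, a t : ℕ) : ℝ) + N := by rw [h3]; linarith [hsum.1]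
    exact_mod_cast h4
  have hcards : Φ.card * K + s.card * K = K * r := by
    rw [hscard, ← Nat.add_mul, Nat.add_sub_cancel' hΦcard, mul_comm]
  have hlow : S' + s.card * K ≤ ∑ t ∈ s, a t := by
    have h1 := hsplit a
    have h5 : (S' : ℤ) ≤ N := by omega
    omega
  set A : ℕ := ∑ t ∈ s, a t - S' with hA
  have hAS : A + S' = ∑ t ∈ s, a t := by omega
  have hτv : ∀ t, K + v t ≤ τ t := fun t => by
    have := hτ1 t
    have := hv t
    omega
  -- the positive parts
  have hpos : ∑ t, (|e t| + e t) ≤ 2 * S' := by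
    rw [Finset.sum_add_distrib, hesum]
    linarith
  have hab : ∀ t, 2 * (a t : ℤ) ≤ 2 * ((min (a t) (τ t - v t) : ℕ) : ℤ) + (|e t| + e t) := by
    intro t
    have hv1 := hτv t
    have h3 : e t = (σ t : ℤ) - τ t := rfl
    have h4 := hav t
    rcases le_total (a t) (τ t - v t) with h | h
    · rw [min_eq_left h]
      have := neg_abs_le (e t)
      omega
    · rw [min_eq_right h]
      have h1 := le_abs_self (e t)
      omega
  have hbsum : ∑ t ∈ s, a t ≤ ∑ t ∈ s, min (a t) (τ t - v t) + S' := by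
    have h1 : ∑ t ∈ s, 2 * (a t : ℤ) ≤
        ∑ t ∈ s, (2 * ((min (a t) (τ t - v t) : ℕ) : ℤ) + (|e t| + e t)) :=
      Finset.sum_le_sum fun t _ => hab t
    rw [Finset.sum_add_distrib] at h1
    have h2 : ∑ t ∈ s, (|e t| + e t) ≤ ∑ t, (|e t| + e t) :=
      Finset.sum_le_sum_of_subset_of_nonneg (Finset.subset_univ s) fun t _ _ => by
        have := neg_abs_le (e t)
        linarith
    rw [← Finset.mul_sum, ← Finset.mul_sum] at h1
    have h3 : ∑ t ∈ s, (a t : ℤ) = ((∑ t ∈ s, a t : ℕ) : ℤ) := by push_cast; rfl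
    have h4 : ∑ t ∈ s, ((min (a t) (τ t - v t) : ℕ) : ℤ) =
        ((∑ t ∈ s, min (a t) (τ t - v t) : ℕ) : ℤ) := by rw [Nat.cast_sum]
    rw [h3, h4] at h1
    omega
  have hbhi : ∑ t ∈ s, min (a t) (τ t - v t) ≤ ∑ t ∈ s, (τ t - v t) :=
    Finset.sum_le_sum fun t _ => min_le_right _ _
  have hba : ∑ t ∈ s, min (a t) (τ t - v t) ≤ ∑ t ∈ s, a t :=
    Finset.sum_le_sum fun t _ => min_le_left _ _
  obtain ⟨b', hb1, hb2, hb3⟩ := adjust s (fun _ => K) (fun t => τ t - v t) A (by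
      rw [Finset.sum_const, smul_eq_mul]
      omega) (by omega) S' (fun t => min (a t) (τ t - v t)) (by
      intro t ht
      have h1 : K < a t := (hmems t).1 ht
      have h2 := hτv t
      refine ⟨le_min h1.le (by omega), min_le_right _ _⟩) (by omega) (by omega)
  refine ⟨π, fun t => if a t ≤ K then a t else b' t, ?_, ?_, ?_, ?_, ?_, hQ2, hQP, hPN⟩
  · intro t ht
    simp only [if_pos ht]
  · intro t ht
    simp only [if_neg (not_le.2 ht)]
    exact (hb1 t ((hmems t).2 ht)).1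
  · intro t
    by_cases ht : a t ≤ K
    · simp only [if_pos ht]
      have h1 := hτv t
      have h2 : τ t = tz r n (π t) := rfl
      omega
    · simp only [if_neg ht]
      have h1 := (hb1 t ((hmems t).2 (not_le.1 ht))).2
      have h2 := hτv t
      have h3 : τ t = tz r n (π t) := rfl
      omega
  · have h1 : ∑ t, (if a t ≤ K then a t else b' t) = ∑ t ∈ Φ, a t + A := by
      rw [hsplit]
      congr 1
      · exact Finset.sum_congr rfl fun t ht => if_pos ((hmemΦ t).1 ht)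
      · rw [← hb2]
        refine Finset.sum_congr rfl fun t ht => if_neg ?_
        exact not_le.2 ((hmems t).1 ht)
    rw [h1]
    have h2 := hsplit a
    have h3 : (∑ t, (σ t : ℤ) ^ 2) = ((∑ t, σ t ^ 2 : ℕ) : ℤ) := by push_cast; rfl
    have h4 : (∑ t, (tz r n t : ℤ) ^ 2) = ((∑ t, tz r n t ^ 2 : ℕ) : ℤ) := by push_cast; rfl
    rw [hP, h3, h4] at hS
    omega
  · intro t
    by_cases ht : a t ≤ K
    · simp only [if_pos ht]
      omega
    · simp only [if_neg ht]
      have h1 := hb3 t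
      have h2 := hab t
      have h3 := het t
      have h4 : min (a t) (τ t - v t) ≤ a t := min_le_left _ _
      have h5 := le_abs_self (e t)
      omega

end ItemJBG

theorem prfJBG : EXP_statement → DEV_statement → JBG_statement := by
  intro hE hD r ε hr hε
  have hr0 : (0 : ℝ) < r := by
    have : 0 < r := by omega
    exact_mod_cast this
  have hr3 : (3 : ℝ) ≤ r := by exact_mod_cast hr
  have hr9 : (9 : ℝ) ≤ (r : ℝ) ^ 2 := by
    have h1 : (3 : ℝ) * 3 ≤ r * r := mul_le_mul hr3 hr3 (by norm_num) hr0.le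
    rw [sq]
    linarith
  have hrr : (r : ℝ) ≤ (r : ℝ) ^ 2 := by
    have h1 : (1 : ℝ) * r ≤ r * r := mul_le_mul_of_nonneg_right (by linarith) hr0.le
    rw [sq]
    linarith
  have hq1 : 2 / 3 ≤ qq r := by
    unfold qq
    have : 1 / (r : ℝ) ≤ 1 / 3 := one_div_le_one_div_of_le (by norm_num) hr3
    linarith
  have hq0 : 0 < qq r := by linarith
  have hq2 : qq r ≤ 1 := by
    unfold qq
    have : 0 < 1 / (r : ℝ) := by positivity
    linarith
  refine ⟨qq r / (r : ℝ) ^ 2, by positivity, fun N K => ?_⟩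
  obtain ⟨n₁, hn₁⟩ := hE r (3 * N + r) (qq r / (r : ℝ) ^ 2) hr (by positivity)
  obtain ⟨n₂, hn₂⟩ := exists_nat_ge ((2 * (N : ℝ) + K * r) / (ε * qq r))
  obtain ⟨n₃, hn₃⟩ := exists_nat_ge
    ((r : ℝ) ^ 2 * ((1 + (N : ℝ)) * N + 4 * r * N + 6 * N))
  refine ⟨max n₁ (max n₂ (max n₃ ((K + N + 1) * r))),
    fun n hn D hD1 hD2 σ a v hσ hdev hav hv hsum hlt => ?_⟩
  have hnn1 : n₁ ≤ n := (le_max_left _ _).trans hn
  have hnn2 : n₂ ≤ n := (le_max_left _ _).trans ((le_max_right _ _).trans hn)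
  have hnn3 : n₃ ≤ n :=
    (le_max_left _ _).trans ((le_max_right _ _).trans ((le_max_right _ _).trans hn))
  have hnr' : (K + N + 1) * r ≤ n :=
    (le_max_right _ _).trans ((le_max_right _ _).trans ((le_max_right _ _).trans hn))
  have hnr : K + N ≤ n / r := by
    rw [Nat.le_div_iff_mul_le (by omega)]
    exact le_trans (Nat.mul_le_mul_right r (by omega)) hnr'
  have ha : ∀ t, a t ≤ σ t := fun t => le_trans (Nat.le_add_right _ _) (hav t)
  have hn0 : (0 : ℝ) < n := by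
    have : 0 < n := by
      have h1 : 1 * r ≤ (K + N + 1) * r := Nat.mul_le_mul_right r (by omega)
      omega
    exact_mod_cast this
  have hN0 : (0 : ℝ) ≤ N := Nat.cast_nonneg N
  have hlo : 2 * N + K * r ≤ D := by
    have h1 : (2 * (N : ℝ) + K * r) / (ε * qq r) ≤ n := hn₂.trans (by exact_mod_cast hnn2)
    rw [div_le_iff₀ (by positivity)] at h1
    have h2 : 2 * (N : ℝ) + K * r ≤ D := by
      calc 2 * (N : ℝ) + K * r ≤ n * (ε * qq r) := h1
        _ = ε * (qq r * n) := by ring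
        _ ≤ D := hD1
    exact_mod_cast h2
  have hc3 : (r : ℝ) ^ 2 * ((1 + (N : ℝ)) * N + 4 * r * N + 6 * N) ≤ n := by
    have h1 : (n₃ : ℝ) ≤ n := by exact_mod_cast hnn3
    exact hn₃.trans h1
  obtain ⟨π, a', g1, g2, g3', g4, g5, g6, g7, g8⟩ := ItemJBG.comb hD r N K n D hr hnr hlo
    σ a v hσ hdev hav hv hsum hlt
  have g3 : ∀ t, a' t ≤ tz r n (π t) := fun t => le_trans (Nat.le_add_right _ _) (g3' t)
  refine ⟨π, a', g1, g2, g3', g4, ?_⟩
  have hr1 : 1 ≤ r := by omega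
  obtain ⟨hd1, hd2, hd3, hd4, -, -⟩ := hD r n σ hr1 hσ
  obtain ⟨-, -, -, hd5, -, -⟩ := hD r n (tz r n) hr1 hd1
  have hτn : ∑ t, tz r n (π t) = n := by
    rw [Equiv.sum_comp π (fun t => tz r n t)]
    exact hd1
  obtain ⟨-, -, -, hd6, -, -⟩ := hD r n (fun t => tz r n (π t)) hr1 hτn
  have hτ2 : ∑ t, (tz r n (π t) : ℝ) ^ 2 = ∑ t, (tz r n t : ℝ) ^ 2 :=
    Equiv.sum_comp π (fun t => (tz r n t : ℝ) ^ 2)
  have hdevτ : dev (fun t => tz r n (π t)) = dev (tz r n) := by rw [hd6, hd5, hτ2]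
  set P : ℝ := dev σ - dev (fun t => tz r n (π t)) with hP
  set Q : ℝ := ∑ t, ((σ t : ℝ) - tz r n (π t)) ^ 2 with hQ
  have hPr : P = ((∑ t, (σ t : ℤ) ^ 2 - ∑ t, (tz r n t : ℤ) ^ 2 : ℤ) : ℝ) := by
    rw [hP, hd4, hdevτ, hd5]
    push_cast
    ring
  have hQr : Q = ((∑ t, ((σ t : ℤ) - tz r n (π t)) ^ 2 : ℤ) : ℝ) := by
    rw [hQ]
    push_cast
    rfl
  have hQ2 : 2 ≤ Q := by rw [hQr]; exact_mod_cast g6
  have hQP : Q ≤ P := by rw [hQr, hPr]; exact_mod_cast g7
  have hPN : P ≤ N := by rw [hPr]; exact_mod_cast g8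
  have hPa : P = 2 * (∑ t, (a t : ℝ) - ∑ t, (a' t : ℝ)) := by
    have h1 : 2 * ∑ t, (a' t : ℝ) + ∑ t, (σ t : ℝ) ^ 2 =
        2 * ∑ t, (a t : ℝ) + ∑ t, (tz r n t : ℝ) ^ 2 := by exact_mod_cast g4
    rw [hP, hd4, hdevτ, hd5]
    linarith
  set x : ℝ := D / (qq r * n) with hx
  have hx0 : 0 ≤ x := by rw [hx]; positivity
  have hx2 : x ≤ 1 - 2 / (r : ℝ) + 1 / (4 * (r : ℝ) ^ 2) := by
    rw [hx, div_le_iff₀ (by positivity)]
    exact hD2
  have hx1 : x ≤ 1 := by
    have h1 : 1 / (4 * (r : ℝ) ^ 2) ≤ 2 / (r : ℝ) := by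
      rw [div_le_div_iff₀ (by positivity) hr0]
      linarith
    linarith
  have hxg : 5 / (3 * (r : ℝ) ^ 2) ≤ qq r - x - x / r := by
    have h1 : x * (1 + 1 / (r : ℝ)) ≤
        (1 - 2 / (r : ℝ) + 1 / (4 * (r : ℝ) ^ 2)) * (1 + 1 / (r : ℝ)) :=
      mul_le_mul_of_nonneg_right hx2 (by positivity)
    have h2 : x / r = x * (1 / r) := by ring
    have h3 : qq r - (1 - 2 / (r : ℝ) + 1 / (4 * (r : ℝ) ^ 2)) * (1 + 1 / (r : ℝ)) -
        5 / (3 * (r : ℝ) ^ 2) = ((r : ℝ) - 3) / (12 * (r : ℝ) ^ 3) := by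
      unfold qq
      field_simp
      ring
    have h4 : 0 ≤ ((r : ℝ) - 3) / (12 * (r : ℝ) ^ 3) := div_nonneg (by linarith) (by positivity)
    rw [h2]
    linarith
  have habs : ∑ t, |(σ t : ℝ) - tz r n (π t)| ≤ Q := by
    rw [hQ]
    refine Finset.sum_le_sum fun t _ => ?_
    have h1 : |(σ t : ℤ) - tz r n (π t)| ≤ ((σ t : ℤ) - tz r n (π t)) ^ 2 :=
      ItemJB.abs_le_sq _
    exact_mod_cast h1
  have hτ1 : ∀ t, |(tz r n (π t) : ℝ) - (n : ℝ) / r| ≤ 1 := by
    intro t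
    have h5 : (n : ℝ) / r - 1 ≤ ((n / r : ℕ) : ℝ) := by
      have h6 : n < (n / r + 1) * r := by
        rw [mul_comm]
        exact Nat.lt_mul_div_succ n (by omega)
      have h7 : (n : ℝ) < (((n / r : ℕ) : ℝ) + 1) * r := by exact_mod_cast h6
      have h8 : (n : ℝ) / r < ((n / r : ℕ) : ℝ) + 1 := by rwa [div_lt_iff₀ hr0]
      linarith
    have h6 : ((n / r : ℕ) : ℝ) ≤ (n : ℝ) / r := Nat.cast_div_le
    rw [abs_le]
    unfold tz
    by_cases hc : (π t).val < n % r
    · rw [if_pos hc]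
      push_cast
      constructor <;> linarith
    · rw [if_neg hc]
      push_cast
      constructor <;> linarith
  have key := ItemJBT.analytic r n N x (qq r) P Q (fun t => (σ t : ℝ))
    (fun t => (tz r n (π t) : ℝ)) (fun t => (a t : ℝ)) (fun t => (a' t : ℝ)) hr hn0
    (Nat.cast_nonneg N) hx0 hx1 rfl hxg (by exact_mod_cast hσ) (by exact_mod_cast hτn) hPa hQ2 hQP
    hPN habs (fun t => Nat.cast_nonneg _) (fun t => Nat.cast_nonneg _)
    (fun t => by exact_mod_cast ha t) (fun t => by exact_mod_cast g3 t) (by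
      intro t
      have h1 := g5 t
      have h2 : (a' t : ℝ) ≤ a t + 2 * N := by exact_mod_cast h1.1
      have h3 : (a t : ℝ) ≤ a' t + 2 * N := by exact_mod_cast h1.2
      rw [abs_le]
      constructor <;> linarith) hτ1 hc3
  have hDn : D ≤ n := by
    have h1 : (D : ℝ) ≤ n := by
      refine hD2.trans ?_
      have h2 : 1 - 2 / (r : ℝ) + 1 / (4 * (r : ℝ) ^ 2) ≤ 1 := by
        have h1 : 1 / (4 * (r : ℝ) ^ 2) ≤ 2 / (r : ℝ) := by
          rw [div_le_div_iff₀ (by positivity) hr0]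
          linarith
        linarith
      have h3 : qq r * n ≤ 1 * n := by gcongr
      have h4 : 0 ≤ qq r * n := by positivity
      have h5 := mul_le_mul_of_nonneg_right h2 h4
      linarith
    exact_mod_cast h1
  have k1 := hn₁ n D σ a hnn1 hσ (hdev.trans (by push_cast; linarith)) ha hDn
    (hsum.trans (by push_cast; linarith))
  have k2 := hn₁ n D (fun t => tz r n (π t)) a' hnn1 hτn (by
      rw [hdevτ]; push_cast; linarith) g3 hDn (by
      have h1 : |(∑ t, (a' t : ℝ)) - D| ≤ |(∑ t, (a t : ℝ)) - D| + |P / 2| := by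
        have h2 : (∑ t, (a' t : ℝ)) - D = ((∑ t, (a t : ℝ)) - D) - P / 2 := by
          rw [hPa]; ring
        rw [h2]
        exact abs_sub _ _
      have h2 : |P / 2| ≤ N := by
        rw [abs_of_nonneg (by linarith)]
        linarith
      push_cast
      linarith)
  have hdiff : Kx r n D σ a - Kx r n D (fun t => tz r n (π t)) a' =
      2 * qq r * ((1 - 2 * x) * (∑ t, (a t : ℝ) - ∑ t, (a' t : ℝ)) + (1 / 2 - 1 / (r : ℝ)) * P
      + 2 * x / r * (∑ t, (r * (a t : ℝ) / n) * ((σ t : ℝ) - n / r)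
        - ∑ t, (r * (a' t : ℝ) / n) * ((tz r n (π t) : ℝ) - n / r))
      + x ^ 2 / (qq r * r ^ 2) * (∑ t, (r * (a t : ℝ) / n) ^ 2 - ∑ t, (r * (a' t : ℝ) / n) ^ 2)) := by
    unfold Kx
    simp only [← hx]
    rw [hP]
    ring
  have hfin : 2 * qq r * (2 / (r : ℝ) ^ 2) ≤
      Kx r n D σ a - Kx r n D (fun t => tz r n (π t)) a' := by
    rw [hdiff]
    exact mul_le_mul_of_nonneg_left key (by positivity)
  have k1' := (abs_le.1 k1).1
  have k2' := (abs_le.1 k2).2
  have hpos : 0 < qq r / (r : ℝ) ^ 2 := by positivity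
  have he : 2 * qq r * (2 / (r : ℝ) ^ 2) = 4 * (qq r / (r : ℝ) ^ 2) := by ring
  rw [he] at hfin
  linarith

end MP0c3a8f

end

section

/-!
# Alternative one (MP_0c3a8f_co, PB11, KIX)
-/

open Finset

namespace MP0c3a8f

namespace ItemKIX

open ItemMAXG

/-- the number of the neighbours of `w` -/
theorem deg (hC : CNTU_statement) (hD : DEV_statement) {V W : Type} [Fintype V] {r n D N : ℕ}
    (hr : 1 ≤ r) (F : SimpleGraph W) (G : SimpleGraph V) (g : V → Option (Fin r)) (w : V)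
    (hM : MxF r n D F G) (hB : Bd n N G g w) :
    ∑ t, nbn G g w t ≤ D + N ∧ D ≤ ∑ t, nbn G g w t + (N + r) := by
  obtain ⟨-, h1, h2, h3⟩ := turan hD r n hr
  have h4 := count hC hD hr G g w hB.indep hB.out hB.tot
  have h5 : (G.edgeSet.ncard : ℝ) = ((SimpleGraph.turanGraph n r).edgeSet.ncard : ℝ) + D := by
    exact_mod_cast hM.1.size
  have h6 := hB.bnd
  have h7 := dev_nonneg (siz g)
  have h8 : (0 : ℝ) ≤ ((missSet G g).ncard : ℝ) := Nat.cast_nonneg _
  have h9 : (0 : ℝ) ≤ ((lightSet G g {w}).ncard : ℝ) := Nat.cast_nonneg _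
  have hr0 : (0 : ℝ) ≤ r := Nat.cast_nonneg _
  have hN0 : (0 : ℝ) ≤ N := Nat.cast_nonneg _
  constructor
  · have h10 : ((∑ t, nbn G g w t : ℕ) : ℝ) ≤ D + N := by nlinarith
    exact_mod_cast h10
  · have h10 : (D : ℝ) ≤ ((∑ t, nbn G g w t : ℕ) : ℝ) + (N + r) := by nlinarith
    exact_mod_cast h10

end ItemKIX

open ItemMAXG ItemKIX in
theorem prfKIX : P_statement → DEV_statement → CNTU_statement → QEG_statement → SZG_statement →
    KIX_statement := by
  intro _ hD hC hQ hS W _ F r N hr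
  obtain ⟨N1, n1, h1⟩ := hQ W F r N hr
  obtain ⟨N2, n2, h2⟩ := hQ W F r (2 * N) hr
  obtain ⟨n3, h3⟩ := hS W F r N (1 / ((N : ℝ) + 1)) hr (by positivity)
  obtain ⟨hq0, hq1⟩ := qq_bd hr
  refine ⟨2 * N + r + 1 + N1 + N2, n1 + n2 + n3, ?_⟩
  intro n hn D hDle V _ G hM hA
  obtain ⟨hdef, g, w, hB, hA2⟩ := hA
  obtain ⟨hd1, hd2⟩ := deg hC hD (by omega) F G g w hM hB
  refine ⟨g, w, ?_, ?_, ?_, ?_, ?_⟩
  · refine hdef.trans ?_
    have : N ≤ 2 * N + r + 1 + N1 + N2 := by omega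
    exact_mod_cast this
  · exact bd_mono (by omega) hB
  · intro hND
    by_cases hc : N * D ≤ n
    · exact (hA2 (by omega) hc).2
    · push Not at hc
      refine h3 V G g w n D (by omega) ?_ hDle hM hB
      have hN1 : (0 : ℝ) < (N : ℝ) + 1 := by positivity
      have h4 : (n : ℝ) < N * D := by exact_mod_cast hc
      have h5 : qq r * (n : ℝ) ≤ n := by
        have := mul_le_mul_of_nonneg_right hq1 (Nat.cast_nonneg n : (0 : ℝ) ≤ n)
        linarith
      rw [div_mul_eq_mul_div, one_mul, div_le_iff₀ hN1]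
      have h6 : (0 : ℝ) ≤ D := Nat.cast_nonneg _
      nlinarith
  · intro hND hc
    refine (hA2 (by omega) ?_).1
    exact (Nat.mul_le_mul_right D (by omega)).trans hc
  · intro s t hs ht
    have hsd : nbn G g w s ≤ ∑ t, nbn G g w t :=
      Finset.single_le_sum (f := fun t => nbn G g w t) (fun _ _ => Nat.zero_le _)
        (Finset.mem_univ s)
    have hND : N ≤ D := by omega
    by_cases hc : N * D ≤ n
    · obtain ⟨h6, h7⟩ := h1 V G g w n _ (by omega) hM hB (Or.inl (hA2 hND hc).1) s t (by omega)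
        (by omega)
      exact ⟨fun h => (h6 h).trans (by omega), fun h => (h7 h).trans (by omega)⟩
    · push Not at hc
      have h5 : n ≤ 2 * N * ∑ t, nbn G g w t := by
        have h6 : D ≤ 2 * ∑ t, nbn G g w t := by omega
        calc n ≤ N * D := hc.le
          _ ≤ N * (2 * ∑ t, nbn G g w t) := Nat.mul_le_mul_left N h6
          _ = 2 * N * ∑ t, nbn G g w t := by ring
      obtain ⟨h6, h7⟩ := h2 V G g w n _ (by omega) hM (bd_mono (by omega) hB) (Or.inr h5) s t
        (by omega) (by omega)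
      exact ⟨fun h => (h6 h).trans (by omega), fun h => (h7 h).trans (by omega)⟩

end MP0c3a8f

end

section

/-!
# MP_0c3a8f_co, phase B, item KIY: alternative two for all color-critical `F`
-/

open Finset

namespace MP0c3a8f

namespace ItemKIY

/-- `NK` is monotone in the constant -/
theorem nk_mono {V : Type} {r n : ℕ} {C C' : ℝ} {G : SimpleGraph V} {g : V → Option (Fin r)}
    (h : NK n C G g) (hC : C ≤ C') : NK n C' G g := by
  refine ⟨h.indep, h.tot, h.dev.trans ?_, h.few.trans ?_⟩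
  · exact mul_le_mul_of_nonneg_right hC (Nat.cast_nonneg n)
  · exact mul_le_mul_of_nonneg_right hC (Real.sqrt_nonneg _)

/-- the structure of the extremal graphs from `AltII` -/
theorem nk (hDev : DEV_statement) (hCntu : CNTU_statement) {V : Type} [Fintype V]
    {r N n B m : ℕ} (hr : 3 ≤ r) (hn : 1 ≤ n) (hBn : B ≤ n) (G : SimpleGraph V)
    (g : V → Option (Fin r)) (hi : Indep G g) (ht : ∑ t, siz g t = n)
    (hm : G.edgeSet.ncard = m)
    (hmB : m + B = (SimpleGraph.turanGraph n r).edgeSet.ncard)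
    (hab : ((missSet G g).ncard : ℝ) + ((outSet G g).ncard : ℝ)
      ≤ N * Real.sqrt (Real.sqrt n)) : NK n (2 + r + 2 * N) G g := by
  have hR : (3 : ℝ) ≤ r := by exact_mod_cast hr
  have hR0 : (0 : ℝ) < r := by linarith
  have hN0 : (0 : ℝ) ≤ N := Nat.cast_nonneg N
  obtain ⟨s, hs⟩ : ∃ s : ℝ, s = Real.sqrt n := ⟨_, rfl⟩
  obtain ⟨h, hh⟩ : ∃ h : ℝ, h = Real.sqrt s := ⟨_, rfl⟩
  rw [← hs, ← hh] at hab
  have hn0 : (1 : ℝ) ≤ n := by exact_mod_cast hn
  have hs0 : 0 ≤ s := by rw [hs]; exact Real.sqrt_nonneg _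
  have hh0 : 0 ≤ h := by rw [hh]; exact Real.sqrt_nonneg _
  have hs2 : s * s = n := by rw [hs]; exact Real.mul_self_sqrt (Nat.cast_nonneg n)
  have hh2 : h * h = s := by rw [hh]; exact Real.mul_self_sqrt hs0
  have hs1 : 1 ≤ s := by
    rw [hs]
    exact Real.one_le_sqrt.2 hn0
  have hh1 : 1 ≤ h := by
    rw [hh]
    exact Real.one_le_sqrt.2 hs1
  have hhs : h ≤ s := by
    rw [← hh2]
    calc h = 1 * h := by ring
      _ ≤ h * h := mul_le_mul_of_nonneg_right hh1 hh0
  have hsn : s ≤ n := by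
    rw [← hs2]
    calc s = 1 * s := by ring
      _ ≤ s * s := mul_le_mul_of_nonneg_right hs1 hs0
  have hB0 : (0 : ℝ) ≤ B := Nat.cast_nonneg B
  have hBn' : (B : ℝ) ≤ n := by exact_mod_cast hBn
  have hout : ((outSet G g).ncard : ℝ) ≤ N * h := by
    have : (0 : ℝ) ≤ ((missSet G g).ncard : ℝ) := Nat.cast_nonneg _
    linarith
  have hdev := ItemNLU.dev_le hCntu hDev (by omega) G g hi ht hm hmB
  refine ⟨hi, ht, ?_, ?_⟩
  · have e1 : N * h ≤ N * n := by gcongr; linarith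
    have e2 : (r : ℝ) ≤ r * n := le_mul_of_one_le_right hR0.le hn0
    calc dev (siz g) ≤ 2 * B + r + 2 * ((outSet G g).ncard : ℝ) := hdev
      _ ≤ 2 * n + r * n + 2 * (N * n) := by linarith
      _ = (2 + r + 2 * N) * n := by ring
  · rw [← hs, ← hh]
    refine hab.trans ?_
    gcongr
    linarith

end ItemKIY

/-- (KIY) alternative two -/
theorem prfKIY : P_statement → DEV_statement → CNTU_statement → DIC_statement →
    QEH_statement → QEM_statement → KIY_statement := by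
  intro _ hDev hCntu hDic hQeh hQem W _ F r N hr hF
  have hC0 : (0 : ℝ) ≤ 2 + r + 2 * N := by positivity
  obtain ⟨N₁, n₁, h1⟩ := hDic W F r (2 + r + 2 * N) hr hF hC0
  obtain ⟨N₂, n₂, h2⟩ := hQeh W F r N₁ (2 + r + 2 * N) hr hC0
  obtain ⟨N₃, n₃, h3⟩ := hQem W F r N₁ (2 + r + 2 * N) hr hC0
  obtain ⟨M, hM⟩ : ∃ M : ℕ, M = (2 + r + 2 * N) + N₁ + N₂ + N₃ := ⟨_, rfl⟩
  refine ⟨M, max 1 (max n₁ (max n₂ n₃)), ?_⟩
  intro n hn B m hBn hmB V _ G hG hA
  have hn0 : 1 ≤ n := (le_max_left _ _).trans hn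
  have hn' : max n₁ (max n₂ n₃) ≤ n := (le_max_right _ _).trans hn
  have hn1 : n₁ ≤ n := (le_max_left _ _).trans hn'
  have hn'' : max n₂ n₃ ≤ n := (le_max_right _ _).trans hn'
  have hn2 : n₂ ≤ n := (le_max_left _ _).trans hn''
  have hn3 : n₃ ≤ n := (le_max_right _ _).trans hn''
  obtain ⟨hdef, g, hi, ht, hab, t₀, hbig, hsm⟩ := hA
  have hNK := ItemKIY.nk hDev hCntu hr hn0 hBn G g hi ht hG.1.size hmB hab
  have hMN : (N : ℝ) ≤ M := by
    have : N ≤ M := by omega
    exact_mod_cast this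
  have hMC : (2 + r + 2 * N : ℝ) ≤ M := by
    have : 2 + r + 2 * N ≤ M := by omega
    exact_mod_cast this
  have hh0 : (0 : ℝ) ≤ Real.sqrt (Real.sqrt n) := Real.sqrt_nonneg _
  have hnh : (0 : ℝ) ≤ n * Real.sqrt (Real.sqrt n) := mul_nonneg (Nat.cast_nonneg n) hh0
  have hlast : ∃ t₀, B * |(siz g t₀ : ℝ) - (n / r + Real.sqrt (2 * B * ((r : ℝ) - 1) / r))|
        ≤ M * (n * Real.sqrt (Real.sqrt n)) ∧
      ∀ t, t ≠ t₀ → Real.sqrt B * ((siz g t : ℝ)
        - (n / r - Real.sqrt (2 * B * ((r : ℝ) - 1) / r) / ((r : ℝ) - 1))) ^ 2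
        ≤ M * (n * Real.sqrt (Real.sqrt n)) :=
    ⟨t₀, hbig.trans (mul_le_mul_of_nonneg_right hMN hnh), fun t htt =>
      (hsm t htt).trans (mul_le_mul_of_nonneg_right hMN hnh)⟩
  have hdef' : |Def r G - AB r n B| ≤ M * Real.sqrt (Real.sqrt n) :=
    hdef.trans (mul_le_mul_of_nonneg_right hMN hh0)
  rcases h1 V G g n m hn1 hG hNK with ⟨w, hw, hm0, hl⟩ | ⟨w, k, hw, ho, hmi⟩
  · refine ⟨g, w, hdef', ItemKIY.nk_mono hNK hMC, Or.inl ⟨hw, hm0, hl.trans (by omega), ?_⟩,
      hlast⟩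
    intro s t hs' ht'
    obtain ⟨e1, e2⟩ := h2 V G g w n m hn2 hG hNK hm0 hw hl s t (le_trans (by omega) hs')
      (le_trans (by omega) ht')
    exact ⟨e1, e2.trans (by omega)⟩
  · refine ⟨g, w, hdef', ItemKIY.nk_mono hNK hMC, Or.inr ⟨k, hw, ho.trans (by omega),
      hmi.trans (by omega), ?_⟩, hlast⟩
    intro s t hs' ht' hst
    obtain ⟨e1, e2⟩ := h3 V G g w k n m hn3 hG hNK ho hw hmi s t hs' ht'
      (le_trans (by omega) hst)
    exact ⟨e1, fun e => (e2 e).trans (by omega)⟩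

end MP0c3a8f

end

section

/-!
# Moving an edge at the special vertex (MP_0c3a8f_co, PB11, MVG)
-/

open Finset

namespace MP0c3a8f

namespace ItemMVG

/-- the graph with the edge `w y` replaced by `w y'` -/
def HH {V : Type} (G : SimpleGraph V) (w y y' : V) (h : y' ≠ w) : SimpleGraph V where
  Adj u v := (G.Adj u v ∧ s(u, v) ≠ s(w, y)) ∨ s(u, v) = s(w, y')
  symm := ⟨fun u v h1 => by
    rcases h1 with ⟨h1, h2⟩ | h1
    · exact Or.inl ⟨h1.symm, by rwa [Sym2.eq_swap (a := v)]⟩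
    · exact Or.inr (by rwa [Sym2.eq_swap (a := v)])⟩
  loopless := ⟨fun u h1 => by
    rcases h1 with ⟨h1, h2⟩ | h1
    · exact G.loopless.irrefl u h1
    · rw [Sym2.eq_iff] at h1
      rcases h1 with ⟨h1, h2⟩ | ⟨h1, h2⟩
      · exact h (h2.symm.trans h1)
      · exact h (h1.symm.trans h2)⟩

theorem out {V : Type} {r : ℕ} {G : SimpleGraph V} {g : V → Option (Fin r)} {w : V}
    (hI : Indep G g) {a u : V} (ha : Cln G g w a) (hu : u ≠ w) (h : G.Adj a u) :
    g u ≠ none ∧ g u ≠ g a := by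
  refine ⟨fun h1 => ha.2.2.2 u hu h1 h, fun h1 => ?_⟩
  exact hI a u ha.2.1 h1.symm h

theorem edges {V : Type} [Fintype V] (G : SimpleGraph V) (w y y' : V) (h : y' ≠ w)
    (h1 : G.Adj w y) (h2 : ¬ G.Adj w y') :
    (HH G w y y' h).edgeSet.ncard = G.edgeSet.ncard := by
  classical
  have e : (HH G w y y' h).edgeSet = insert s(w, y') (G.edgeSet \ {s(w, y)}) := by
    ext x
    induction x using Sym2.ind with
    | _ u v =>
      rw [SimpleGraph.mem_edgeSet, Set.mem_insert_iff, Set.mem_sdiff, SimpleGraph.mem_edgeSet,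
        Set.mem_singleton_iff]
      show (G.Adj u v ∧ s(u, v) ≠ s(w, y)) ∨ s(u, v) = s(w, y') ↔ _
      tauto
  have hfin : (G.edgeSet \ {s(w, y)}).Finite := Set.toFinite _
  rw [e, Set.ncard_insert_of_notMem (fun h3 => h2 h3.1) hfin]
  exact Set.ncard_sdiff_singleton_add_one (show s(w, y) ∈ G.edgeSet from h1) (Set.toFinite _)

end ItemMVG

open ItemMVG in
theorem prfMVG : MVG_statement := by
  classical
  intro W _ F r m V _ G g w y y' hG hI hy hy' hyy hwy h1 h2 hcard hc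
  have hy'w : y' ≠ w := hy'.1
  refine ⟨HH G w y y' hy'w, fun u v => Iff.rfl, ?_, ?_, ?_, ?_⟩
  · -- free
    rintro ⟨φ⟩
    by_cases hr : ∃ a0, φ a0 = y'
    · obtain ⟨a0, ha0⟩ := hr
      set S : Set V := {c | Cln G g w c ∧ g c = g y' ∧ G.Adj w c} with hS
      obtain ⟨c, hcS, hcr⟩ : ∃ c ∈ S, ∀ a, φ a ≠ c := by
        by_contra hcon
        push Not at hcon
        have h3 : S ⊆ (Set.range φ) \ {y'} := by
          intro c hcS
          obtain ⟨a, ha⟩ := hcon c hcS
          refine ⟨⟨a, ha⟩, ?_⟩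
          intro h4
          rw [Set.mem_singleton_iff] at h4
          rw [h4] at hcS
          exact h2 hcS.2.2
        have h4 : S.ncard ≤ ((Set.range φ) \ {y'}).ncard :=
          Set.ncard_le_ncard h3 (Set.toFinite _)
        have h5 : ((Set.range φ) \ {y'}).ncard + 1 = (Set.range φ).ncard :=
          Set.ncard_sdiff_singleton_add_one ⟨a0, ha0⟩ (Set.toFinite _)
        have h6 : (Set.range φ).ncard = Fintype.card W := by
          have hinj : Function.Injective (φ : W → V) := φ.injective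
          rw [← Set.image_univ, Set.ncard_image_of_injective _ hinj, Set.ncard_univ,
            Nat.card_eq_fintype_card]
        omega
      obtain ⟨hcc, hcg, hcw⟩ := hcS
      -- adjacency of the new vertex
      have key : ∀ b, b ≠ a0 → F.Adj a0 b → G.Adj c (φ b) := by
        intro b hb hab
        have h3 : (HH G w y y' hy'w).Adj (φ a0) (φ b) := φ.toHom.map_adj hab
        rw [ha0] at h3
        by_cases hbw : φ b = w
        · rw [hbw]
          exact hcw.symm
        · rcases h3 with ⟨h3, _⟩ | h3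
          · obtain ⟨h4, h5⟩ := out hI hy' hbw h3
            exact hcc.2.2.1 _ hbw h4 (by rw [hcg]; exact h5)
          · rw [Sym2.eq_iff] at h3
            rcases h3 with ⟨h3, _⟩ | ⟨_, h3⟩
            · exact absurd h3 hy'w
            · exact absurd h3 hbw
      have key2 : ∀ a b, a ≠ a0 → b ≠ a0 → F.Adj a b → G.Adj (φ a) (φ b) := by
        intro a b ha hb hab
        have h3 : (HH G w y y' hy'w).Adj (φ a) (φ b) := φ.toHom.map_adj hab
        rcases h3 with ⟨h3, _⟩ | h3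
        · exact h3
        · exfalso
          rw [Sym2.eq_iff] at h3
          rcases h3 with ⟨_, h3⟩ | ⟨h3, _⟩
          · exact hb (φ.injective (h3.trans ha0.symm))
          · exact ha (φ.injective (h3.trans ha0.symm))
      refine hG.free ⟨⟨⟨Function.update φ a0 c, ?_⟩, ?_⟩⟩
      · intro a b hab
        by_cases ha : a = a0
        · have hb : b ≠ a0 := by
            intro hb
            rw [ha, hb] at hab
            exact F.loopless.irrefl _ hab
          rw [ha, Function.update_self, Function.update_of_ne hb]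
          exact key b hb (ha ▸ hab)
        · by_cases hb : b = a0
          · rw [hb, Function.update_self, Function.update_of_ne ha]
            exact (key a ha (hb ▸ hab.symm)).symm
          · rw [Function.update_of_ne ha, Function.update_of_ne hb]
            exact key2 a b ha hb hab
      · intro a b hab
        simp only [RelHom.coeFn_mk] at hab
        by_cases ha : a = a0
        · by_cases hb : b = a0
          · rw [ha, hb]
          · rw [ha, Function.update_self, Function.update_of_ne hb] at hab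
            exact absurd hab.symm (hcr b)
        · by_cases hb : b = a0
          · rw [hb, Function.update_self, Function.update_of_ne ha] at hab
            exact absurd hab (hcr a)
          · rw [Function.update_of_ne ha, Function.update_of_ne hb] at hab
            exact φ.injective hab
    · push Not at hr
      refine hG.free ⟨⟨⟨φ, ?_⟩, φ.injective⟩⟩
      intro a b hab
      have h3 : (HH G w y y' hy'w).Adj (φ a) (φ b) := φ.toHom.map_adj hab
      rcases h3 with ⟨h3, _⟩ | h3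
      · exact h3
      · exfalso
        rw [Sym2.eq_iff] at h3
        rcases h3 with ⟨_, h3⟩ | ⟨h3, _⟩
        · exact hr b h3
        · exact hr a h3
  · rw [edges G w y y' hy'w h1 h2]
    exact hG.size
  · intro v
    obtain ⟨u, hu⟩ := hG.noIso v
    by_cases h3 : s(v, u) = s(w, y)
    · rw [Sym2.eq_iff] at h3
      rcases h3 with ⟨h3, _⟩ | ⟨h3, _⟩
      · exact ⟨y', Or.inr (by rw [h3])⟩
      · refine ⟨y', Or.inl ⟨?_, ?_⟩⟩
        · rw [h3]
          exact hy.2.2.1 y' hy'w hy'.2.1 hyy.symm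
        · intro h4
          rw [Sym2.eq_iff] at h4
          rcases h4 with ⟨h4, _⟩ | ⟨_, h4⟩
          · exact hy.1 (h3.symm.trans h4)
          · exact hy'w h4
    · exact ⟨u, Or.inl ⟨hu, h3⟩⟩
  · rintro ⟨C⟩
    obtain ⟨c, hcy, hcc, hcg, hcw⟩ := hc
    have key : ∀ v, v ≠ y → G.Adj y v → C c ≠ C v := by
      intro v hv hyv
      apply C.valid
      by_cases hvw : v = w
      · rw [hvw]
        refine Or.inl ⟨hcw.symm, ?_⟩
        intro h4
        rw [Sym2.eq_iff] at h4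
        rcases h4 with ⟨h4, _⟩ | ⟨h4, _⟩
        · exact hcc.1 h4
        · exact hcy h4
      · obtain ⟨h4, h5⟩ := out hI hy hvw hyv
        refine Or.inl ⟨hcc.2.2.1 v hvw h4 (by rw [hcg]; exact h5), ?_⟩
        intro h6
        rw [Sym2.eq_iff] at h6
        rcases h6 with ⟨h6, _⟩ | ⟨h6, _⟩
        · exact hcc.1 h6
        · exact hcy h6
    refine hG.notPartite ⟨SimpleGraph.Coloring.mk (fun v => if v = y then C c else C v) ?_⟩
    intro u v huv
    show (if u = y then C c else C u) ≠ (if v = y then C c else C v)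
    by_cases hu : u = y
    · have hv : v ≠ y := by
        intro hv
        rw [hu, hv] at huv
        exact G.loopless.irrefl _ huv
      rw [if_pos hu, if_neg hv]
      exact key v hv (hu ▸ huv)
    · by_cases hv : v = y
      · rw [if_neg hu, if_pos hv]
        exact (key u hu (hv ▸ huv.symm)).symm
      · rw [if_neg hu, if_neg hv]
        apply C.valid
        refine Or.inl ⟨huv, ?_⟩
        intro h6
        rw [Sym2.eq_iff] at h6
        rcases h6 with ⟨_, h6⟩ | ⟨h6, _⟩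
        · exact hv h6
        · exact hu h6

end MP0c3a8f

end

section

/-!
# MP_0c3a8f_co, PB11: item SZG (the parts are balanced)
-/

set_option autoImplicit false

open Finset

namespace MP0c3a8f

namespace SZGx

/-- the number of the non-clean non-neighbours of `w` in one class -/
theorem unclean {V : Type} [Fintype V] {r : ℕ} (G : SimpleGraph V) (g : V → Option (Fin r))
    (w : V) (hw : g w = none) (t : Fin r) :
    {v | g v = some t ∧ ¬ G.Adj w v ∧ ¬ Cln G g w v}.ncard ≤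
      (missSet G g).ncard + (lightSet G g {w}).ncard := by
  classical
  have key : ∀ v, g v = some t ∧ ¬ G.Adj w v ∧ ¬ Cln G g w v →
      ∃ u, g u ≠ some t ∧ s(v, u) ∈ missSet G g ∪ lightSet G g {w} := by
    rintro v ⟨h1, h2, h3⟩
    have hvn : g v ≠ none := by rw [h1]; exact Option.some_ne_none t
    have hvw : v ≠ w := by
      rintro rfl
      exact hvn hw
    by_contra hcon
    push Not at hcon
    apply h3
    refine ⟨hvw, hvn, ?_, ?_⟩
    · intro u hu hun hne
      by_contra hadj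
      refine hcon u (by rw [← h1]; exact hne) (Or.inl ⟨v, u, rfl, hvn, hun, hne.symm, hadj⟩)
    · intro u hu hun hadj
      refine hcon u (by rw [hun]; exact (Option.some_ne_none t).symm)
        (Or.inr ⟨hadj, u, by simp, hun, by simpa using hu⟩)
  choose! u hu using key
  refine le_trans ?_ (Set.ncard_union_le _ _)
  refine Set.ncard_le_ncard_of_injOn (fun v => s(v, u v)) (fun v hv => (hu v hv).2) ?_
    (Set.toFinite _)
  intro a ha b hb hab
  have ha1 := (hu a ha).1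
  have hb1 := (hu b hb).1
  have ha2 : g a = some t := ha.1
  have hb2 : g b = some t := hb.1
  simp only [Sym2.eq_iff] at hab
  rcases hab with ⟨h1, _⟩ | ⟨h1, _⟩
  · exact h1
  · exfalso
    rw [← h1, ha2] at hb1
    exact hb1 rfl

/-- neighbours and non-neighbours -/
theorem nbn_add {V : Type} [Fintype V] {r : ℕ} (G : SimpleGraph V) (g : V → Option (Fin r))
    (w : V) (t : Fin r) :
    nbn G g w t + {v | g v = some t ∧ ¬ G.Adj w v ∧ ¬ Cln G g w v}.ncard ≤ siz g t := by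
  unfold nbn siz
  rw [← Set.ncard_union_eq ?_ (Set.toFinite _) (Set.toFinite _)]
  · refine Set.ncard_le_ncard ?_ (Set.toFinite _)
    rintro v (h | h)
    · exact h.1
    · exact h.1
  · rw [Set.disjoint_left]
    rintro v h1 h2
    exact h2.2.1 h1.2

theorem dev_ge {r : ℕ} (σ : Fin r → ℕ) (n : ℕ) (hn : ∑ t, σ t = n) (t : Fin r) :
    (n : ℝ) / r - (dev σ + 1) ≤ σ t := by
  have h1 : ((σ t : ℝ) - (∑ s, (σ s : ℝ)) / r) ^ 2 ≤ dev σ := by
    unfold dev
    exact Finset.single_le_sum (f := fun t => ((σ t : ℝ) - (∑ s, (σ s : ℝ)) / r) ^ 2)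
      (fun i _ => sq_nonneg _) (Finset.mem_univ t)
  have h2 : (∑ s, (σ s : ℝ)) = n := by exact_mod_cast hn
  rw [h2] at h1
  nlinarith [sq_nonneg ((σ t : ℝ) - (n : ℝ) / r + 1)]

end SZGx

open ItemMAXG SZGx in
theorem prfSZG : P_statement → DEV_statement → CNTU_statement → CSB_statement → JBG_statement →
    RSZ_statement → SZG_statement := by
  intro hP hDEV hCNTU hCSB hJBG hRSZ W _ F r N ε hr hε
  obtain ⟨K, hK⟩ := hRSZ W F r N hr
  obtain ⟨c, hc, hJ⟩ := hJBG r ε hr hε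
  obtain ⟨n₁, h₁⟩ := hJ (3 * N + r) K
  obtain ⟨n₂, h₂⟩ := hCSB r (N + r) (c / 3) hr (by positivity)
  refine ⟨n₁ + n₂ + r * (K + N + 2), ?_⟩
  intro V _ G g w n D hn hD1 hD2 hG hB
  have hr1 : 1 ≤ r := by omega
  have hr0 : (0 : ℝ) < r := by
    have : 0 < r := by omega
    exact_mod_cast this
  obtain ⟨hT1, hT2, hT3, hT4⟩ := turan hDEV r n hr1
  obtain ⟨-, hle, -, hdevg, hperm, -⟩ := hDEV r n (siz g) hr1 hB.tot
  obtain ⟨-, -, -, hdevt, -, -⟩ := hDEV r n (tz r n) hr1 hT1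
  rcases hle.lt_or_eq with hlt | heq
  swap
  · exact hperm heq.symm
  exfalso
  have hcG := count hCNTU hDEV hr1 G g w hB.indep hB.out hB.tot
  rw [hG.1.size] at hcG
  push_cast at hcG
  have hdv := dev_nonneg (siz g)
  have hm0 : (0 : ℝ) ≤ (missSet G g).ncard := Nat.cast_nonneg _
  have hl0 : (0 : ℝ) ≤ (lightSet G g {w}).ncard := Nat.cast_nonneg _
  have hbnd := hB.bnd
  have hN0 : (0 : ℝ) ≤ N := Nat.cast_nonneg _
  -- sizes
  have hnr : (K : ℝ) + N + 2 ≤ (n : ℝ) / r := by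
    rw [le_div_iff₀ hr0]
    have : r * (K + N + 2) ≤ n := by omega
    have h5 : ((r * (K + N + 2) : ℕ) : ℝ) ≤ n := by exact_mod_cast this
    push_cast at h5
    linarith
  have hKs : ∀ t, K ≤ siz g t := by
    intro t
    have h5 := dev_ge (siz g) n hB.tot t
    have h6 : (K : ℝ) ≤ siz g t := by linarith
    exact_mod_cast h6
  have hKt : ∀ t, K ≤ tz r n t := by
    intro t
    have h5 : K + N + 2 ≤ n / r := by
      rw [Nat.le_div_iff_mul_le (by omega)]
      rw [mul_comm]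
      omega
    unfold tz
    omega
  -- the vector `a'`
  have hvN : ∀ t, {v | g v = some t ∧ ¬ G.Adj w v ∧ ¬ Cln G g w v}.ncard ≤ 3 * N + r := by
    intro t
    have h5 := unclean G g w hB.out t
    have h6 : ((missSet G g).ncard + (lightSet G g {w}).ncard : ℕ) ≤ N := by
      have : (((missSet G g).ncard + (lightSet G g {w}).ncard : ℕ) : ℝ) ≤ N := by
        push_cast
        linarith
      exact_mod_cast this
    omega
  obtain ⟨π, a', ha1, ha2, ha3, ha4, ha5⟩ := h₁ n (by omega) D hD1 hD2 (siz g) (nbn G g w)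
    (fun t => {v | g v = some t ∧ ¬ G.Adj w v ∧ ¬ Cln G g w v}.ncard) hB.tot
    (by push_cast; linarith) (fun t => nbn_add G g w t) hvN
    (by
      push_cast at hcG ⊢
      rw [abs_le]
      constructor <;> linarith) hlt
  obtain ⟨k, G', g', w', hfree, hnc, hiso, hind, hw', hmiss, hlight, hsiz, hnbn⟩ :=
    hK V G g w n (fun t => tz r n (π t)) a' hG.1.free hG.1.notPartite hG.1.noIso hB hKs
      (fun t => hKt (π t)) ha1 ha2 ha3
  have hsum' : ∑ t, siz g' t = n := by
    rw [Finset.sum_congr rfl fun t _ => hsiz t, Equiv.sum_comp π (tz r n)]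
    exact hT1
  have hsq' : ∑ t, siz g' t ^ 2 = ∑ t, tz r n t ^ 2 := by
    rw [Finset.sum_congr rfl fun t _ => by rw [hsiz t]]
    exact Equiv.sum_comp π (fun t => tz r n t ^ 2)
  obtain ⟨-, -, -, hdevg', -, -⟩ := hDEV r n (siz g') hr1 hsum'
  have hdev' : dev (siz g') = dev (tz r n) := by
    rw [hdevg', hdevt]
    have : (∑ t, (siz g' t : ℝ) ^ 2) = ∑ t, (tz r n t : ℝ) ^ 2 := by exact_mod_cast hsq'
    rw [this]
  have hcG' := count hCNTU hDEV hr1 G' g' w' hind hw' hsum'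
  rw [hmiss, hlight, hdev', Finset.sum_congr rfl fun t _ => hnbn t] at hcG'
  have ha4' : 2 * (∑ t, (a' t : ℝ)) + ∑ t, (siz g t : ℝ) ^ 2 =
      2 * (∑ t, (nbn G g w t : ℝ)) + ∑ t, (tz r n t : ℝ) ^ 2 := by exact_mod_cast ha4
  have hedge : G'.edgeSet.ncard = (SimpleGraph.turanGraph n r).edgeSet.ncard + D := by
    have : (G'.edgeSet.ncard : ℝ) = (SimpleGraph.turanGraph n r).edgeSet.ncard + D := by
      push_cast at hcG hcG'
      rw [hdevg] at hcG
      rw [hdevt] at hcG'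
      linarith
    exact_mod_cast this
  have hIn : InN r ((SimpleGraph.turanGraph n r).edgeSet.ncard + D) F G' :=
    ⟨hfree, hedge, hiso, hnc⟩
  have hdd : Def r G ≤ Def r G' :=
    def_le hG.1.size hedge (lam_nonneg hP w' G') (hG.2 _ G' hIn)
  have hB' : Bd n (N + r) G' g' w' := by
    refine ⟨hind, hw', hsum', ?_⟩
    rw [hmiss, hlight, hdev']
    push_cast
    linarith
  have e1 := h₂ V G g w n (by omega) (bd_mono (by omega) hB)
  have e2 := h₂ (Fin k) G' g' w' n (by omega) hB'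
  rw [abs_le] at e1 e2
  have hcst : Cst G' g' w' + c ≤ Cst G g w := by
    unfold Cst
    rw [hmiss, hlight, show siz g' = fun t => tz r n (π t) from funext hsiz,
      show nbn G' g' w' = a' from funext hnbn]
    linarith
  linarith [e1.1, e1.2, e2.1, e2.2]

end MP0c3a8f

end
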