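import Pool.Agent.Work.MP_0c3a8f_co.Bd.B23
import Pool.Agent.Work.MP_0c3a8f_co.PB.Stmts10
import Pool.Agent.Work.MP_0c3a8f_co.PB.ItemTOP1
import Pool.Agent.Work.MP_0c3a8f_co.Bd.B01
import Pool.Agent.Work.MP_0c3a8f_co.Bd.B21
import Pool.Agent.Work.MP_0c3a8f_co.Bd.B22
import Pool.Agent.Work.MP_0c3a8f_co.PB.ItemFAMG
import Pool.Agent.Work.MP_0c3a8f_co.Bd.B20

/-! Bundle of small proof modules (one section per former module). -/

section

/-!
# MP_0c3a8f_co, item PSN, part 3: all missing pairs are good, stars and triangles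
-/

set_option autoImplicit false
set_option linter.unusedSectionVars false
set_option linter.unusedVariables false

open Finset

namespace MP0c3a8f

namespace ItemPSN

variable {V : Type} [Fintype V] {r : ℕ}

/-- arithmetic of a pair -/
theorem pair_ar {l e Ti Tj Ts Tt x y : ℝ} (hl : 0 < l) (he : 0 ≤ e) (hx : 0 ≤ x) (hy : 0 ≤ y)
    (h1 : Ti + x / 2 - e ≤ Ts) (h2 : Tj + y / 2 - e ≤ Tt) (hTi : 3 / 4 * l ≤ Ti)
    (hTi' : Ti ≤ 2 * l) (hTt : 3 / 4 * l ≤ Tt) (hTt' : Tt ≤ 2 * l) :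
    Ti * Tj + 3 / 8 * l * (x + y) - 4 * l * e ≤ Ts * Tt := by
  have hTt0 : 0 ≤ Tt := by linarith
  have hTi0 : 0 ≤ Ti := by linarith
  have h3 : (Ti + x / 2 - e) * Tt ≤ Ts * Tt := mul_le_mul_of_nonneg_right h1 hTt0
  have h4 : Ti * (Tj + y / 2 - e) ≤ Ti * Tt := mul_le_mul_of_nonneg_left h2 hTi0
  have h5 : x * (3 / 4 * l) ≤ x * Tt := mul_le_mul_of_nonneg_left hTt hx
  have h6 : y * (3 / 4 * l) ≤ y * Ti := mul_le_mul_of_nonneg_left hTi hy
  have h7 : e * Tt ≤ e * (2 * l) := mul_le_mul_of_nonneg_left hTt' he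
  have h8 : e * Ti ≤ e * (2 * l) := mul_le_mul_of_nonneg_left hTi' he
  nlinarith

/-- the sizes of two classes compared with the two largest ones -/
theorem sizes {σ : Fin r → ℕ} {i j : Fin r} (hi : ∀ t, σ t ≤ σ i)
    (hj : ∀ t, t ≠ i → σ t ≤ σ j) {s t : Fin r} (hst : s ≠ t) :
    (σ s ≤ σ i ∧ σ t ≤ σ j) ∨ (σ t ≤ σ i ∧ σ s ≤ σ j) := by
  by_cases ht : t = i
  · subst ht
    exact Or.inr ⟨hi t, hj s hst⟩
  · exact Or.inl ⟨hi s, hj t ht⟩

/-- good pairs of classes -/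
def Gd (σ : Fin r → ℕ) (i j s t : Fin r) : Prop :=
  (σ s = σ i ∧ σ t = σ j) ∨ (σ t = σ i ∧ σ s = σ j)

theorem pair_le {σ : Fin r → ℕ} {T : Fin r → ℝ} {i j : Fin r} {l e : ℝ}
    (hi : ∀ t, σ t ≤ σ i) (hj : ∀ t, t ≠ i → σ t ≤ σ j) (hl : 0 < l) (he : 0 ≤ e)
    (h3 : ∀ s t, σ s ≤ σ t → ((σ t : ℝ) - σ s) / 2 - e ≤ T s - T t)
    (hT : ∀ t, 3 / 4 * l ≤ T t ∧ T t ≤ 2 * l) {s t : Fin r} (hst : s ≠ t) :
    T i * T j - 4 * l * e ≤ T s * T t ∧
      (e ≤ 1 / 32 → ¬ Gd σ i j s t → T i * T j + l / 4 ≤ T s * T t) := by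
  have key : ∀ s t : Fin r, σ s ≤ σ i → σ t ≤ σ j →
      T i * T j - 4 * l * e ≤ T s * T t ∧
      (e ≤ 1 / 32 → ¬ (σ s = σ i ∧ σ t = σ j) → T i * T j + l / 4 ≤ T s * T t) := by
    intro s t hs ht
    have hs' : (σ s : ℝ) ≤ σ i := by exact_mod_cast hs
    have ht' : (σ t : ℝ) ≤ σ j := by exact_mod_cast ht
    have h4 := h3 s i hs
    have h5 := h3 t j ht
    have h6 := pair_ar (x := (σ i : ℝ) - σ s) (y := (σ j : ℝ) - σ t) (Ti := T i) (Tj := T j)
      (Ts := T s) (Tt := T t) hl he (by linarith) (by linarith) (by linarith) (by linarith)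
      (hT i).1 (hT i).2 (hT t).1 (hT t).2
    constructor
    · have : 0 ≤ l * (((σ i : ℝ) - σ s) + (σ j - σ t)) :=
        mul_nonneg hl.le (by linarith)
      linarith
    · intro he' hne
      have h7 : (1 : ℝ) ≤ ((σ i : ℝ) - σ s) + (σ j - σ t) := by
        have h8 : σ s + σ t + 1 ≤ σ i + σ j := by
          by_contra hc
          exact hne ⟨by omega, by omega⟩
        have h9 : ((σ s + σ t + 1 : ℕ) : ℝ) ≤ ((σ i + σ j : ℕ) : ℝ) := by exact_mod_cast h8
        push_cast at h9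
        linarith
      have h8 : l * 1 ≤ l * (((σ i : ℝ) - σ s) + (σ j - σ t)) :=
        mul_le_mul_of_nonneg_left h7 hl.le
      have h9 : l * e ≤ l * (1 / 32) := mul_le_mul_of_nonneg_left he' hl.le
      linarith
  rcases sizes hi hj hst with h | h
  · obtain ⟨k1, k2⟩ := key s t h.1 h.2
    refine ⟨k1, fun he' hG => k2 he' fun h' => hG (Or.inl h')⟩
  · obtain ⟨k1, k2⟩ := key t s h.1 h.2
    rw [mul_comm (T t) (T s)] at k1 k2
    refine ⟨k1, fun he' hG => k2 he' fun h' => hG (Or.inr h')⟩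

/-- lower bound for the weight of the missing pairs -/
theorem miss_ge {G : SimpleGraph V} {g : V → Option (Fin r)} {z : V → ℝ} {n : ℕ} {i j : Fin r}
    {l e : ℝ} (hi : ∀ t, siz g t ≤ siz g i) (hj : ∀ t, t ≠ i → siz g t ≤ siz g j) (hl : 0 < l)
    (he : 0 ≤ e)
    (h3 : ∀ s t, siz g s ≤ siz g t → ((siz g t : ℝ) - siz g s) / 2 - e ≤
      tv g z n s - tv g z n t)
    (hT : ∀ t, 3 / 4 * l ≤ tv g z n t ∧ tv g z n t ≤ 2 * l) :
    (2 * ((missSet G g).ncard : ℝ) * (tv g z n i * tv g z n j - 4 * l * e) ≤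
      miss G (fun v => (n : ℝ) - cw z g (g v)) g) ∧
    (e ≤ 1 / 32 → ∀ u v s t, (MG G g).Adj u v → g u = some s → g v = some t →
      ¬ Gd (siz g) i j s t →
      2 * ((missSet G g).ncard : ℝ) * (tv g z n i * tv g z n j - 4 * l * e) + l / 4 ≤
      miss G (fun v => (n : ℝ) - cw z g (g v)) g) := by
  classical
  have hp : ∀ u v, (MG G g).Adj u v → ∃ s t, s ≠ t ∧ g u = some s ∧ g v = some t := by
    rintro u v ⟨h1, h2, h3, -⟩
    obtain ⟨s, hs⟩ := Option.ne_none_iff_exists'.1 h1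
    obtain ⟨t, ht⟩ := Option.ne_none_iff_exists'.1 h2
    refine ⟨s, t, ?_, hs, ht⟩
    rintro rfl
    exact h3 (ht.trans hs.symm)
  have hval : ∀ u s, g u = some s → (n : ℝ) - cw z g (g u) = tv g z n s := by
    intro u s hs
    rw [hs]
    rfl
  rw [miss_MG, ← count_MG]
  constructor
  · rw [Finset.sum_mul]
    refine Finset.sum_le_sum fun u _ => ?_
    rw [Finset.sum_mul]
    refine Finset.sum_le_sum fun v _ => ?_
    by_cases h : (MG G g).Adj u v
    · rw [if_pos h, if_pos h, one_mul]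
      obtain ⟨s, t, hst, hs, ht⟩ := hp u v h
      rw [hval u s hs, hval v t ht]
      exact (pair_le hi hj hl he h3 hT hst).1
    · rw [if_neg h, if_neg h, zero_mul]
  · intro he' u₀ v₀ s₀ t₀ h₀ hs₀ ht₀ hG
    have h4 : ∑ u, ∑ v, (if u = u₀ ∧ v = v₀ then l / 4 else 0) = l / 4 := by
      rw [Finset.sum_eq_single u₀, Finset.sum_eq_single v₀]
      · simp
      · intro v _ hv
        rw [if_neg fun h => hv h.2]
      · intro h
        exact absurd (mem_univ _) h
      · intro u _ hu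
        exact Finset.sum_eq_zero fun v _ => if_neg fun h => hu h.1
      · intro h
        exact absurd (mem_univ _) h
    rw [← h4, Finset.sum_mul, ← Finset.sum_add_distrib]
    refine Finset.sum_le_sum fun u _ => ?_
    rw [Finset.sum_mul, ← Finset.sum_add_distrib]
    refine Finset.sum_le_sum fun v _ => ?_
    by_cases h : (MG G g).Adj u v
    · rw [if_pos h, if_pos h, one_mul]
      obtain ⟨s, t, hst, hs, ht⟩ := hp u v h
      rw [hval u s hs, hval v t ht]
      by_cases huv : u = u₀ ∧ v = v₀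
      · rw [if_pos huv]
        obtain ⟨rfl, rfl⟩ := huv
        have e1 : s = s₀ := Option.some_injective _ (hs.symm.trans hs₀)
        have e2 : t = t₀ := Option.some_injective _ (ht.symm.trans ht₀)
        subst e1 e2
        have h5 := (pair_le hi hj hl he h3 hT hst).2 he' hG
        have h6 : 0 ≤ 4 * l * e := by positivity
        linarith
      · rw [if_neg huv, add_zero]
        exact (pair_le hi hj hl he h3 hT hst).1
    · rw [if_neg h, if_neg h, zero_mul, zero_add]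
      rw [if_neg]
      rintro ⟨rfl, rfl⟩
      exact h h₀

/-- upper bound for the sum of the squares of the weights of the missing neighbours -/
theorem muv_le {G : SimpleGraph V} {g : V → Option (Fin r)} {z : V → ℝ} {Z : ℝ}
    (hZ : ∀ v, g v ≠ none → z v ≤ Z) (v : V) : muv G g z v ≤ Z * mdeg G g v := by
  classical
  rw [muv_MG]
  have h1 : ((mdeg G g v : ℕ) : ℝ) = ∑ u, if (MG G g).Adj v u then (1 : ℝ) else 0 := by
    rw [Finset.sum_ite, Finset.sum_const_zero, add_zero, Finset.sum_const, nsmul_eq_mul, mul_one]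
    congr 1
    rw [← MG_deg, ← Set.ncard_coe_finset]
    congr 1
    ext u
    simp
  rw [h1, Finset.mul_sum]
  refine Finset.sum_le_sum fun u _ => ?_
  by_cases h : (MG G g).Adj v u
  · rw [if_pos h, if_pos h, mul_one]
    exact hZ u h.2.1
  · rw [if_neg h, if_neg h, mul_zero]

theorem sum_muv_le {G : SimpleGraph V} {g : V → Option (Fin r)} {z : V → ℝ} {Z : ℝ}
    (hz : ∀ v, 0 ≤ z v) (hZ : ∀ v, g v ≠ none → z v ≤ Z) :
    ∑ v, muv G g z v ^ 2 ≤ Z ^ 2 * ∑ v, ((mdeg G g v : ℕ) : ℝ) ^ 2 := by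
  rw [Finset.mul_sum]
  refine Finset.sum_le_sum fun v _ => ?_
  rw [← mul_pow]
  exact pow_le_pow_left₀ (muv_nonneg' G g hz v) (muv_le hZ v) 2

/-- the first part of SQE -/
theorem sq_le (hSQE : SQE_statement) [Nonempty V] (G : SimpleGraph V)
    (g : V → Option (Fin r)) :
    ∑ v, ((mdeg G g v : ℕ) : ℝ) ^ 2 ≤
      ((missSet G g).ncard : ℝ) ^ 2 + (missSet G g).ncard := by
  have h1 := (hSQE V (MG G g)).1
  rw [MG_edge] at h1
  have h2 : ((∑ v, ({u | (MG G g).Adj v u}.ncard) ^ 2 : ℕ) : ℝ) ≤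
      (((missSet G g).ncard ^ 2 + (missSet G g).ncard : ℕ) : ℝ) := by exact_mod_cast h1
  push_cast at h2
  exact h2

/-- case (A): all missing pairs are good -/
theorem caseA [Nonempty V] (hSQE : SQE_statement) {G : SimpleGraph V}
    {g : V → Option (Fin r)} {w : V} {z : V → ℝ} {n : ℕ} {i j : Fin r} {e δ E : ℝ}
    (hi : ∀ t, siz g t ≤ siz g i) (hj : ∀ t, t ≠ i → siz g t ≤ siz g j) (hl : 0 < lam G)
    (hz : ∀ v, 0 ≤ z v)
    (e1 : ∀ v t, g v = some t → lam G * z v = tv g z n t - muv G g z v + omv G g z v)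
    (out : ∀ v, g v = none ↔ v = w) (he : 0 ≤ e) (he' : e ≤ 1 / 32)
    (h3 : ∀ s t, siz g s ≤ siz g t → ((siz g t : ℝ) - siz g s) / 2 - e ≤
      tv g z n s - tv g z n t)
    (hT : ∀ t, 3 / 4 * lam G ≤ tv g z n t ∧ tv g z n t ≤ 2 * lam G)
    (hδ : ∀ s t, tv g z n s + z w ≤ tv g z n t + δ) (hδ0 : 0 ≤ δ) (hδl : δ ≤ lam G)
    (hs : (miss G (fun v => (n : ℝ) - cw z g (g v)) g
        - 2 * (missSet G g).ncard * (tv g z n i * tv g z n j)) / lam G
      + (((missSet G g).ncard : ℝ) ^ 2 * tv g z n j ^ 2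
        + (missSet G g).ncard * tv g z n i ^ 2) / lam G ^ 2
      - ∑ v, muv G g z v ^ 2 ≤ E)
    (hA : E + 8 * (missSet G g).ncard * e +
      5 * (((missSet G g).ncard : ℝ) ^ 2 + (missSet G g).ncard) * δ / lam G < 1 / 4) :
    ∀ u v s t, (MG G g).Adj u v → g u = some s → g v = some t → Gd (siz g) i j s t := by
  intro u v s t huv hu hv
  by_contra hG
  have h4 := (miss_ge (G := G) hi hj hl he h3 hT).2 he' u v s t huv hu hv hG
  set a : ℝ := ((missSet G g).ncard : ℝ) with ha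
  have ha0 : 0 ≤ a := Nat.cast_nonneg _
  set l := lam G with hld
  -- the class with the smallest weight
  have : Nonempty (Fin r) := ⟨i⟩
  obtain ⟨t₀, -, ht₀⟩ := Finset.exists_min_image (univ : Finset (Fin r)) (fun t => tv g z n t)
    ⟨i, mem_univ _⟩
  set τ := tv g z n t₀ with hτ
  have hτ1 : 3 / 4 * l ≤ τ := (hT t₀).1
  have hτ2 : τ ≤ 2 * l := (hT t₀).2
  have hZ : ∀ v, g v ≠ none → z v ≤ (τ + δ) / l := by
    intro v hv
    obtain ⟨t, ht⟩ := Option.ne_none_iff_exists'.1 hv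
    rw [le_div_iff₀ hl, mul_comm]
    exact (val_le e1 out hz ht).trans (hδ t t₀)
  have h5 := sum_muv_le (G := G) hz hZ
  have h6 := sq_le hSQE G g
  have h7 : ((τ + δ) / l) ^ 2 * ∑ v, ((mdeg G g v : ℕ) : ℝ) ^ 2 ≤
      ((τ + δ) / l) ^ 2 * (a ^ 2 + a) := mul_le_mul_of_nonneg_left h6 (sq_nonneg _)
  have h8 : (τ / l) ^ 2 * (a ^ 2 + a) ≤ (a ^ 2 * tv g z n j ^ 2 + a * tv g z n i ^ 2) / l ^ 2 := by
    rw [div_pow, div_mul_eq_mul_div]
    refine div_le_div_of_nonneg_right ?_ (sq_nonneg _)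
    have k1 : τ ^ 2 ≤ tv g z n j ^ 2 :=
      pow_le_pow_left₀ (by linarith) (ht₀ j (mem_univ _)) 2
    have k2 : τ ^ 2 ≤ tv g z n i ^ 2 :=
      pow_le_pow_left₀ (by linarith) (ht₀ i (mem_univ _)) 2
    have k3 := mul_le_mul_of_nonneg_left k1 (sq_nonneg a)
    have k4 := mul_le_mul_of_nonneg_left k2 ha0
    linarith
  have h9 : ((τ + δ) / l) ^ 2 - (τ / l) ^ 2 ≤ 5 * δ / l := by
    have k1 : ((τ + δ) / l) ^ 2 - (τ / l) ^ 2 = (2 * τ + δ) * δ / l ^ 2 := by
      field_simp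
      ring
    rw [k1, div_le_div_iff₀ (by positivity) hl]
    have k2 : (2 * τ + δ) * δ ≤ 5 * l * δ := mul_le_mul_of_nonneg_right (by linarith) hδ0
    have k3 := mul_le_mul_of_nonneg_right k2 hl.le
    nlinarith
  have h10 : (((τ + δ) / l) ^ 2 - (τ / l) ^ 2) * (a ^ 2 + a) ≤ 5 * δ / l * (a ^ 2 + a) :=
    mul_le_mul_of_nonneg_right h9 (by positivity)
  have h11 : 1 / 4 - 8 * a * e ≤ (miss G (fun v => (n : ℝ) - cw z g (g v)) g
        - 2 * a * (tv g z n i * tv g z n j)) / l := by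
    rw [le_div_iff₀ hl]
    linarith
  have h12 : 5 * δ / l * (a ^ 2 + a) = 5 * (a ^ 2 + a) * δ / l := by ring
  linarith

/-- case (B): large sum of squares -/
theorem caseB {G : SimpleGraph V}
    {g : V → Option (Fin r)} {z : V → ℝ} {n : ℕ} {i j : Fin r} {e κ κ' E : ℝ}
    (hi : ∀ t, siz g t ≤ siz g i) (hj : ∀ t, t ≠ i → siz g t ≤ siz g j) (hl : 0 < lam G)
    (hz : ∀ v, 0 ≤ z v) (he : 0 ≤ e)
    (h3 : ∀ s t, siz g s ≤ siz g t → ((siz g t : ℝ) - siz g s) / 2 - e ≤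
      tv g z n s - tv g z n t)
    (hT : ∀ t, 3 / 4 * lam G ≤ tv g z n t ∧ tv g z n t ≤ 2 * lam G)
    (hκ : ∀ v, g v ≠ none → z v ≤ 1 + κ) (hκ0 : 0 ≤ κ) (hκ1 : κ ≤ 1)
    (hκ' : ∀ t, (1 - κ') * lam G ≤ tv g z n t) (hκ'1 : κ' ≤ 1)
    (hs : (miss G (fun v => (n : ℝ) - cw z g (g v)) g
        - 2 * (missSet G g).ncard * (tv g z n i * tv g z n j)) / lam G
      + (((missSet G g).ncard : ℝ) ^ 2 * tv g z n j ^ 2
        + (missSet G g).ncard * tv g z n i ^ 2) / lam G ^ 2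
      - ∑ v, muv G g z v ^ 2 ≤ E)
    (hB : E + 8 * (missSet G g).ncard * e +
      (3 * κ + 2 * κ') * (((missSet G g).ncard : ℝ) ^ 2 + (missSet G g).ncard) <
        (missSet G g).ncard / 4) :
    ¬ (4 * ∑ v, (mdeg G g v) ^ 2 + (missSet G g).ncard
      ≤ 4 * ((missSet G g).ncard ^ 2 + (missSet G g).ncard)) := by
  intro hsq
  have h4 := (miss_ge (G := G) hi hj hl he h3 hT).1
  set a : ℝ := ((missSet G g).ncard : ℝ) with ha
  have ha0 : 0 ≤ a := Nat.cast_nonneg _
  set l := lam G with hld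
  have h5 := sum_muv_le hz hκ (G := G)
  have h6 : ∑ v, ((mdeg G g v : ℕ) : ℝ) ^ 2 ≤ a ^ 2 + a - a / 4 := by
    have k1 : ((4 * ∑ v, (mdeg G g v) ^ 2 + (missSet G g).ncard : ℕ) : ℝ) ≤
      ((4 * ((missSet G g).ncard ^ 2 + (missSet G g).ncard) : ℕ) : ℝ) := by exact_mod_cast hsq
    push_cast at k1
    rw [← ha] at k1
    linarith
  have h7 : (1 + κ) ^ 2 * ∑ v, ((mdeg G g v : ℕ) : ℝ) ^ 2 ≤ (1 + κ) ^ 2 * (a ^ 2 + a - a / 4) :=
    mul_le_mul_of_nonneg_left h6 (sq_nonneg _)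
  have h8 : (1 - κ') ^ 2 * (a ^ 2 + a) ≤ (a ^ 2 * tv g z n j ^ 2 + a * tv g z n i ^ 2) / l ^ 2 := by
    rw [le_div_iff₀ (by positivity)]
    have k0 : 0 ≤ (1 - κ') * l := mul_nonneg (by linarith) hl.le
    have k1 : ((1 - κ') * l) ^ 2 ≤ tv g z n j ^ 2 := pow_le_pow_left₀ k0 (hκ' j) 2
    have k2 : ((1 - κ') * l) ^ 2 ≤ tv g z n i ^ 2 := pow_le_pow_left₀ k0 (hκ' i) 2
    have k3 := mul_le_mul_of_nonneg_left k1 (sq_nonneg a)
    have k4 := mul_le_mul_of_nonneg_left k2 ha0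
    nlinarith
  have h11 : - (8 * a * e) ≤ (miss G (fun v => (n : ℝ) - cw z g (g v)) g
        - 2 * a * (tv g z n i * tv g z n j)) / l := by
    rw [le_div_iff₀ hl]
    linarith
  have h12 : (1 + κ) ^ 2 * (a ^ 2 + a - a / 4) ≤ (1 + 3 * κ) * (a ^ 2 + a) - a / 4 := by
    have k1 : (1 + κ) ^ 2 ≤ 1 + 3 * κ := by nlinarith
    have k2 : 0 ≤ a ^ 2 + a := by positivity
    have k3 := mul_le_mul_of_nonneg_right k1 k2
    have k4 : a ≤ (1 + κ) ^ 2 * a := by
      have : (1 : ℝ) ≤ (1 + κ) ^ 2 := by nlinarith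
      exact le_mul_of_one_le_left ha0 this
    linarith
  have h13 : (1 - 2 * κ') * (a ^ 2 + a) ≤ (1 - κ') ^ 2 * (a ^ 2 + a) :=
    mul_le_mul_of_nonneg_right (by nlinarith [sq_nonneg κ']) (by positivity)
  linarith

end ItemPSN

end MP0c3a8f

end

section

/-!
# MP_0c3a8f_co, PB10, item TPT: alternative one in the transition range
-/

set_option autoImplicit false

open Finset

namespace MP0c3a8f

namespace TPT

theorem not_adj {V : Type} {r : ℕ} {G : SimpleGraph V} {f : V → Option (Fin r)} {w p p' : V}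
    {i j : Fin r} (hT : Ty1 G f w p p' i j) : ¬ G.Adj p p' := by
  intro h
  have := (hT.core p p' (by rw [hT.hp]; simp) (by rw [hT.hp']; simp)).1 h
  exact this.2 rfl

theorem miss1 {V : Type} {r : ℕ} {G : SimpleGraph V} {f : V → Option (Fin r)} {w p p' : V}
    {i j : Fin r} (hT : Ty1 G f w p p' i j) : (missSet G f).ncard = 1 := by
  have : missSet G f = {s(p, p')} := by
    ext e
    constructor
    · rintro ⟨u, v, rfl, hu, hv, huv, hn⟩
      rw [Set.mem_singleton_iff]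
      by_contra h
      exact hn ((hT.core u v hu hv).2 ⟨huv, h⟩)
    · intro he
      rw [Set.mem_singleton_iff] at he
      refine ⟨p, p', he, by rw [hT.hp]; simp, by rw [hT.hp']; simp, ?_, not_adj hT⟩
      rw [hT.hp, hT.hp']
      exact fun h' => hT.ij (Option.some.inj h')
  rw [this, Set.ncard_singleton]

theorem light0 {V : Type} {r : ℕ} {G : SimpleGraph V} {f : V → Option (Fin r)} {w p p' : V}
    {i j : Fin r} (hT : Ty1 G f w p p' i j) : (lightSet G f {w}).ncard = 0 := by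
  have : lightSet G f {w} = ∅ := by
    ext e
    constructor
    · rintro ⟨_, v, _, hv, hv'⟩
      exact absurd (Finset.mem_singleton.2 ((hT.out v).1 hv)) hv'
    · intro h
      exact absurd h (Set.notMem_empty e)
  rw [this, Set.ncard_empty]

theorem bd1 {V : Type} {r : ℕ} {G : SimpleGraph V} {f : V → Option (Fin r)} {w p p' : V}
    {i j : Fin r} (hT : Ty1 G f w p p' i j) (n : ℕ) (htot : ∑ t, siz f t = n)
    (hdev : dev (siz f) ≤ r) : Bd n (r + 1) G f w := by
  refine ⟨?_, (hT.out w).2 rfl, htot, ?_⟩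
  · intro u v hu huv h
    exact ((hT.core u v hu (huv ▸ hu)).1 h).1 huv
  · rw [miss1 hT, light0 hT]
    push_cast
    linarith

theorem def_le {r m : ℕ} {V : Type} [Fintype V] (hP : P_statement) {G : SimpleGraph V}
    (hG : IsMaximiser r m (⊤ : SimpleGraph (Fin (r + 1))) G) {k : ℕ} {H : SimpleGraph (Fin k)}
    (w : Fin k) (hH : InN r m (⊤ : SimpleGraph (Fin (r + 1))) H) : Def r G ≤ Def r H := by
  have h4 : 0 ≤ lam H := by
    have : Nonempty (Fin k) := ⟨w⟩
    exact (hP (Fin k) H).1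
  have h5 : lam H ^ 2 ≤ lam G ^ 2 := pow_le_pow_left₀ h4 (hG.2 (Fin k) H hH) 2
  unfold Def
  rw [hG.1.size, hH.size]
  linarith

theorem D_bounds {r n D : ℕ} (hr : 3 ≤ r) (hn : 4 * r ^ 2 + 6 * r + 1 ≤ n) (hX : RX r n D) :
    r ≤ D ∧ D ≤ (r - 2) * (n / r) := by
  constructor
  · have hr' : (3 : ℝ) ≤ r := by exact_mod_cast hr
    obtain ⟨q1, q2⟩ := TOP1.qq_bounds hr
    have h1 := hX.1
    have h2 : 2 / (r : ℝ) ≤ 2 / 3 := div_le_div_of_nonneg_left (by norm_num) (by norm_num) hr'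
    have h3 : 1 / (4 * (r : ℝ) ^ 2) ≤ 1 / 36 := by
      apply one_div_le_one_div_of_le (by norm_num)
      nlinarith
    have h4 : (6 : ℝ) * r ≤ n := by
      have : 6 * r ≤ n := by omega
      exact_mod_cast this
    have h5 : (0 : ℝ) ≤ n := Nat.cast_nonneg n
    have h6 : (2 / 3 : ℝ) * n ≤ qq r * n := mul_le_mul_of_nonneg_right q1 h5
    have h7 : (1 / 4 : ℝ) * (qq r * n) ≤ (1 - 2 / (r : ℝ) - 1 / (4 * (r : ℝ) ^ 2)) * (qq r * n) :=
      mul_le_mul_of_nonneg_right (by linarith) (by linarith)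
    have h8 : (r : ℝ) ≤ D := by linarith
    exact_mod_cast h8
  · by_contra hcon
    push Not at hcon
    exact ItemFIT.arith (D := D) hr (by omega) hX (by omega)

end TPT

theorem prfTPT : P_statement → DEV_statement → CNTU_statement → CSB_statement →
    JFT_statement → JBT_statement → GRT_statement → FAM1_statement → MEM1_statement →
    CLA_statement → CLB_statement → TPT_statement := by
  intro hP hDEV hCNTU hCSB hJFT hJBT hGRT hFAM1 hMEM1 hCLA hCLB r N hr
  have hr' : (3 : ℝ) ≤ r := by exact_mod_cast hr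
  obtain ⟨q1, q2⟩ := TOP1.qq_bounds hr
  obtain ⟨c1, hc1, hJ1⟩ := hJFT r hr
  obtain ⟨c2, hc2, hJ2⟩ := hJBT r hr
  obtain ⟨ε1, hε1, e1, e2⟩ : ∃ ε1 > (0 : ℝ), 4 * ε1 ≤ c1 ∧ 4 * ε1 ≤ c2 := by
    have h1 := min_le_left c1 c2
    have h2 := min_le_right c1 c2
    have h3 : 0 < min c1 c2 := lt_min hc1 hc2
    exact ⟨min c1 c2 / 4, by positivity, by linarith, by linarith⟩
  obtain ⟨nA, hA⟩ := hCSB r N ε1 hr hε1
  obtain ⟨nB, hB⟩ := hCSB r (r + 1) ε1 hr hε1
  obtain ⟨n1, hJ1'⟩ := hJ1 N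
  obtain ⟨n2, hJ2'⟩ := hJ2 (N + 2)
  refine ⟨nA + nB + n1 + n2 + 4 * r ^ 2 + 6 * r + r * (N + 3) + 1, ?_⟩
  intro V _ G g w n D hn hRX hMx hBd
  have hn1 : 1 ≤ n := by omega
  have hn1' : (1 : ℝ) ≤ n := by exact_mod_cast hn1
  obtain ⟨hD1, hD2⟩ := TPT.D_bounds hr (by omega) hRX
  set T : ℕ := (SimpleGraph.turanGraph n r).edgeSet.ncard with hT
  -- the comparison graph
  obtain ⟨a₁, hTg1⟩ := hGRT r n D hr hD1 hD2
  obtain ⟨g1, g2, g3, -⟩ := id hTg1
  have htz2 : ∀ t, 2 ≤ tz r n t := by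
    intro t
    have h1 : 2 ≤ n / r := by
      rw [Nat.le_div_iff_mul_le (by omega)]
      omega
    unfold tz
    omega
  have hσ0 : ∑ t : Fin r, (if t = ⟨0, by omega⟩ then n else 0) = n := by
    rw [Finset.sum_ite_eq' Finset.univ (⟨0, by omega⟩ : Fin r) (fun _ => n)]
    simp
  obtain ⟨d1, -, d3, -, -, d6⟩ := hDEV r n (fun t => if t = ⟨0, by omega⟩ then n else 0)
    (by omega) hσ0
  obtain ⟨k₀, H₀, f₀, w₀, p₀, p₀', hty₀, hs₀, hnb₀, hin₀⟩ := TOP1.member hDEV hFAM1 hMEM1 r n D hr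
    (tz r n) a₁ ⟨0, by omega⟩ ⟨1, by omega⟩ (by simp [Fin.ext_iff]) (g1 _ (by simp)) (g1 _ (by simp))
    g2 htz2 d1 rfl g3
  have hk₀ : Def r H₀ ≤ Kap r (tz r n) a₁ + 2 * qq r + ε1 := by
    have h1 := hB (Fin k₀) H₀ f₀ w₀ n (by omega)
      (TPT.bd1 hty₀ n (by rw [hs₀]; exact d1) (by rw [hs₀]; exact d3))
    unfold Cst at h1
    rw [TPT.miss1 hty₀, TPT.light0 hty₀, hs₀, hnb₀] at h1
    have h2 := (abs_le.1 h1).2
    push_cast at h2
    linarith
  have hIn : InN r (T + D) (⊤ : SimpleGraph (Fin (r + 1))) G := hMx.1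
  have hsize : G.edgeSet.ncard = T + D := hIn.size
  have hκ : Def r G ≤ Kap r (tz r n) a₁ + 2 * qq r + ε1 := (TPT.def_le hP hMx w₀ hin₀).trans hk₀
  obtain ⟨hind, hgw, htot, hbnd⟩ := id hBd
  have hLB := (abs_le.1 (hA V G g w n (by omega) hBd)).1
  unfold Cst at hLB
  set σ : Fin r → ℕ := siz g with hσ
  set a : Fin r → ℕ := nbn G g w with ha
  set α : ℕ := (missSet G g).ncard with hα
  set b : ℕ := (lightSet G g {w}).ncard with hb
  have hdevσ0 : 0 ≤ dev σ := by unfold dev; positivity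
  have hαb : α + b ≤ N := by
    have : (α : ℝ) + b ≤ N := by linarith
    exact_mod_cast this
  have hdevσ : dev σ ≤ N := by
    have h1 : (0 : ℝ) ≤ α := Nat.cast_nonneg _
    have h2 : (0 : ℝ) ≤ b := Nat.cast_nonneg _
    linarith
  have haσ : ∀ t, a t ≤ σ t := fun t => TOP1.nbn_le G g w t
  have htotr : (∑ s, (σ s : ℝ)) = n := by exact_mod_cast htot
  have hσ2 : ∀ t, 2 ≤ σ t := by
    intro t
    have h1 := TOP1.abs_dev σ (N + 1) (by
      have : (0 : ℝ) ≤ N := Nat.cast_nonneg _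
      linarith) (by linarith) t
    rw [htotr] at h1
    have h2 := (abs_le.1 h1).1
    have h3 : (N : ℝ) + 3 ≤ (n : ℝ) / r := by
      rw [le_div_iff₀ (by linarith)]
      have : (N + 3) * r ≤ n := by
        have := Nat.mul_comm r (N + 3)
        omega
      exact_mod_cast this
    have h4 : (2 : ℝ) ≤ σ t := by linarith
    exact_mod_cast h4
  -- the number of edges
  have hrel : 2 * D + 2 * α + ∑ t, σ t ^ 2 = ∑ t, tz r n t ^ 2 + 2 * ∑ t, a t + 2 * b := by
    obtain ⟨e, he, hcnt⟩ := hCNTU r V G g {w} hind (by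
      intro v hv
      rw [Finset.mem_singleton] at hv
      rw [hv]; exact hgw)
    rw [Finset.card_singleton] at he
    rw [Finset.sum_singleton, hsize, htot] at hcnt
    unfold Sz at d6
    rw [d1] at d6
    have he0 : e = 0 := by omega
    rw [he0] at hcnt
    have hcnt' : 2 * (T + D) + 2 * α + ∑ t, σ t ^ 2 = n ^ 2 + 2 * ∑ t, a t + 2 * 0 + 2 * b := hcnt
    omega
  have hdiff : (∑ t, (σ t : ℝ) ^ 2) - ∑ t, (tz r n t : ℝ) ^ 2 ≤ N := by
    obtain ⟨-, -, -, e4, -, -⟩ := hDEV r n σ (by omega) htot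
    obtain ⟨-, -, -, e4', -, -⟩ := hDEV r n (tz r n) (by omega) d1
    have h0 : 0 ≤ dev (tz r n) := by unfold dev; positivity
    linarith
  obtain ⟨-, f2, -, -, f5, -⟩ := hDEV r n σ (by omega) htot
  have hbal : ∑ t, σ t ^ 2 ≤ ∑ t, tz r n t ^ 2 → Bal n g := by
    intro hsq
    obtain ⟨π, hπ⟩ := f5 (le_antisymm hsq f2)
    refine ⟨?_, htot⟩
    intro t
    have h1 : siz g t = tz r n (π t) := hπ t
    rw [h1]
    unfold tz
    split_ifs <;> omega
  have hτn : ∀ π : Equiv.Perm (Fin r), ∑ t, tz r n (π t) = n := fun π => by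
    rw [Equiv.sum_comp π (fun t => tz r n t)]
    exact d1
  have hτ2 : ∀ π : Equiv.Perm (Fin r), ∑ t, (tz r n (π t)) ^ 2 = ∑ t, tz r n t ^ 2 := fun π =>
    Equiv.sum_comp π (fun t => tz r n t ^ 2)
  by_cases hcase1 : α = 1 ∧ b = 0
  · obtain ⟨hα1, hb0⟩ := hcase1
    obtain ⟨p, p', i, j, hTh⟩ := hCLB r V G g w hr hind hgw hα1 hb0 hσ2 hIn.free hIn.notPartite
      hIn.noIso
    rw [hα1, hb0] at hrel hLB
    have hLB' : Kap r σ a + 2 * qq r - ε1 ≤ Def r G := by
      push_cast at hLB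
      linarith
    have hsq : ∑ t, σ t ^ 2 ≤ ∑ t, tz r n t ^ 2 := by
      by_contra hcon
      push Not at hcon
      have hrelr : 2 * (D : ℝ) + 2 + ∑ t, (σ t : ℝ) ^ 2 =
          ∑ t, (tz r n t : ℝ) ^ 2 + 2 * ∑ t, (a t : ℝ) := by
        have h0 : 2 * D + 2 + ∑ t, σ t ^ 2 = ∑ t, tz r n t ^ 2 + 2 * ∑ t, a t := by omega
        exact_mod_cast h0
      have hconr : ∑ t, (tz r n t : ℝ) ^ 2 < ∑ t, (σ t : ℝ) ^ 2 := by exact_mod_cast hcon
      have hsumr : |(∑ t, (a t : ℝ)) - D| ≤ ((N + 2 : ℕ) : ℝ) := by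
        have hN0 : (0 : ℝ) ≤ N := Nat.cast_nonneg _
        rw [abs_le]
        push_cast
        constructor <;> linarith
      obtain ⟨π, a'', l1, l2, l3, l4, l5⟩ := hJ2' n (by omega) D hRX σ a {i, j} htot (by
          push_cast; linarith) haσ Finset.card_le_two (by
          intro t ht
          rw [Finset.mem_insert, Finset.mem_singleton] at ht
          rcases ht with rfl | rfl
          · exact hTh.ni.le
          · exact hTh.nj.le) (fun t _ => hTh.pos t) hsumr hcon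
      have hi : a'' i = 1 := by
        rw [l1 i (Finset.mem_insert_self _ _)]; exact hTh.ni
      have hj : a'' j = 1 := by
        rw [l1 j (Finset.mem_insert_of_mem (Finset.mem_singleton_self _))]; exact hTh.nj
      obtain ⟨k, H, f, w', y, y', hty, hs, hnb, hin⟩ := TOP1.member hDEV hFAM1 hMEM1 r n D hr
        (fun t => tz r n (π t)) a'' i j hTh.ty.ij hi hj (by
          intro t
          refine ⟨?_, l3 t⟩
          by_cases ht : t ∈ ({i, j} : Finset (Fin r))
          · rw [l1 t ht]; exact hTh.pos t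
          · exact l2 t ht) (fun t => htz2 _) (hτn π) (hτ2 π) (by omega)
      have h1 := hB (Fin k) H f w' n (by omega)
        (TPT.bd1 hty n (by rw [hs]; exact hτn π)
          (by rw [hs]; exact TOP1.dev_perm hDEV r n hr _ (hτn π) (hτ2 π)))
      unfold Cst at h1
      rw [TPT.miss1 hty, TPT.light0 hty, hs, hnb] at h1
      have h2 := (abs_le.1 h1).2
      push_cast at h2
      have h3 := TPT.def_le hP hMx w' hin
      linarith
    refine ⟨⟨p, p', i, j, hTh⟩, hbal hsq, ?_⟩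
    have h1 : ∑ t, σ t ^ 2 = ∑ t, tz r n t ^ 2 := le_antisymm hsq f2
    have h2 : ∑ t, a t = D + 1 := by omega
    exact h2
  · exfalso
    have h1 := hJ1' n (by omega) D hRX σ a a₁ α b htot hdevσ haσ hαb hrel (by
      intro h0
      exact (hCLA r V G g w hr hind hgw h0 (fun t => (by norm_num : 1 ≤ 2).trans (hσ2 t))
        hIn.free hIn.notPartite hIn.noIso).1) hcase1 hTg1
    linarith

end MP0c3a8f

end

section

/-!
# MP_0c3a8f_co, item PSN, part 4: the combinatorial end of the proof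
-/

set_option autoImplicit false
set_option linter.unusedSectionVars false
set_option linter.unusedVariables false

open Finset

namespace MP0c3a8f

namespace ItemPSN

variable {V : Type} [Fintype V] {r : ℕ}

/-- a missing pair of neighbours of `w` -/
theorem exists_missing {G : SimpleGraph V} {g : V → Option (Fin r)} {w : V} {q : Fin r → V}
    (hF : (⊤ : SimpleGraph (Fin (r + 1))).Free G) (hq : ∀ t, g (q t) = some t)
    (wn : ∀ v, G.Adj w v ↔ ∃ t, v = q t) : ∃ s t, s ≠ t ∧ (MG G g).Adj (q s) (q t) := by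
  by_contra hcon
  push Not at hcon
  refine ItemCLA.free_aux hF w q (fun t => (wn _).2 ⟨t, rfl⟩) fun s t hst => ?_
  by_contra hadj
  apply hcon s t hst
  refine ⟨by rw [hq]; simp, by rw [hq]; simp, ?_, hadj⟩
  rw [hq, hq]
  exact fun h => hst (Option.some_injective _ h).symm

/-- type `P` from a star of missing pairs -/
theorem TyP_of_star {G : SimpleGraph V} {g : V → Option (Fin r)} {w : V} {q : Fin r → V}
    (hI : Indep G g) (out : ∀ v, g v = none ↔ v = w) (hq : ∀ t, g (q t) = some t)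
    (wn : ∀ v, G.Adj w v ↔ ∃ t, v = q t) (s : Fin r)
    (hst : ∀ e ∈ (MG G g).edgeSet, q s ∈ e) (hex : ∃ t, (MG G g).Adj (q s) (q t))
    (room : ∀ t, (missSet G g).ncard + 2 ≤ siz g t) :
    ∃ L : Finset V, TyP G g w q s L ∧ ∀ v ∈ L, (MG G g).Adj (q s) v := by
  classical
  set L : Finset V := univ.filter fun y => (MG G g).Adj (q s) y with hL
  have hmem : ∀ y, y ∈ L ↔ (MG G g).Adj (q s) y := by
    intro y
    rw [hL, mem_filter]
    exact ⟨fun h => h.2, fun h => ⟨mem_univ _, h⟩⟩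
  have hcard : L.card ≤ (missSet G g).ncard := by
    rw [← Set.ncard_coe_finset]
    apply Set.ncard_le_ncard_of_injOn (fun y => s(q s, y)) _ _ (Set.toFinite _)
    · intro y hy
      exact (MG_iff G g _ _).1 ((hmem y).1 hy)
    · intro y _ y' _ h
      simp only [Sym2.eq_iff] at h
      rcases h with h | h
      · exact h.2
      · exact h.2.trans h.1
  refine ⟨L, ⟨out, hq, wn, ?_, ?_, ?_, ?_⟩, fun v hv => (hmem v).1 hv⟩
  · intro v hv
    obtain ⟨h1, h2, h3, h4⟩ := (hmem v).1 hv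
    rw [hq] at h3
    exact ⟨h2, h3⟩
  · intro u v hu hv
    constructor
    · intro h
      refine ⟨fun h' => hI u v hu h' h, ?_, ?_⟩
      · rintro ⟨rfl, hv'⟩
        exact ((hmem v).1 hv').2.2.2 h
      · rintro ⟨rfl, hu'⟩
        exact ((hmem u).1 hu').2.2.2 h.symm
    · rintro ⟨h1, h2, h3⟩
      by_contra h
      have h4 : (MG G g).Adj u v := ⟨hu, hv, h1.symm, h⟩
      have h5 := hst s(u, v) ((SimpleGraph.mem_edgeSet _).2 h4)
      rw [Sym2.mem_iff] at h5
      rcases h5 with h5 | h5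
      · exact h2 ⟨h5.symm, (hmem v).2 (by rw [h5]; exact h4)⟩
      · exact h3 ⟨h5.symm, (hmem u).2 (by rw [h5]; exact h4.symm)⟩
  · obtain ⟨t, ht⟩ := hex
    exact ⟨t, (hmem _).2 ht⟩
  · intro t
    have := room t
    omega

/-- triangles of missing pairs -/
def Tr (M : SimpleGraph V) (x y z : V) : Prop :=
  M.Adj x y ∧ M.Adj y z ∧ M.Adj x z ∧ M.edgeSet = {s(x, y), s(y, z), s(x, z)}

theorem Tr.swap {M : SimpleGraph V} {x y z : V} (h : Tr M x y z) : Tr M y x z := by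
  refine ⟨h.1.symm, h.2.2.1, h.2.1, ?_⟩
  rw [h.2.2.2, Sym2.eq_swap (a := y) (b := x)]
  ext e
  simp only [Set.mem_insert_iff, Set.mem_singleton_iff]
  tauto

theorem Tr.rot {M : SimpleGraph V} {x y z : V} (h : Tr M x y z) : Tr M y z x := by
  refine ⟨h.2.1, h.2.2.1.symm, h.1.symm, ?_⟩
  rw [h.2.2.2, Sym2.eq_swap (a := y) (b := x), Sym2.eq_swap (a := z) (b := x)]
  ext e
  simp only [Set.mem_insert_iff, Set.mem_singleton_iff]
  tauto

/-- the triangle is worse -/
theorem tri_main {G : SimpleGraph V} {g : V → Option (Fin r)} {m n : ℕ} {w : V}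
    {q : Fin r → V} {C : ℝ} (hC : CNTU_statement) (hM : MEMP_statement)
    (hFam : FAMG_statement) (hr : 3 ≤ r)
    (hTRI : ∀ (V U : Type) [Fintype V] [Fintype U]
      (G : SimpleGraph V) (H : SimpleGraph U) (f : V → Option (Fin r)) (f' : U → Option (Fin r))
      (w x y z : V) (w' : U) (q : Fin r → V) (q' : Fin r → U) (i j k : Fin r)
      (L' : Finset U), TyT G f w q x y z → TyP H f' w' q' i L' →
      f x = some i → f y = some j → f z = some k → x = q i → y = q j →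
      NK n C G f → (∀ t, siz f' t = siz f t) → siz f j = siz f i → siz f k = siz f i →
      (∃! t, q' t ∈ L') → lc L' f' j = 2 → lc L' f' k = 1 → L'.card = 3 → lam G < lam H)
    (hG : MxK r m G) (hN : NK n C G g) (ho : (outSet G g).ncard = r)
    (out : ∀ v, g v = none ↔ v = w) (hq : ∀ t, g (q t) = some t)
    (wn : ∀ v, G.Adj w v ↔ ∃ t, v = q t) (room : ∀ t, 5 ≤ siz g t) {A B : ℕ}
    (good : ∀ u v s t, (MG G g).Adj u v → g u = some s → g v = some t →
      (siz g s = A ∧ siz g t = B) ∨ (siz g t = A ∧ siz g s = B))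
    {s t : Fin r} {z : V} (hT : Tr (MG G g) (q s) (q t) z) : False := by
  classical
  obtain ⟨h1, h2, h3, h4⟩ := hT
  obtain ⟨k, hk⟩ := Option.ne_none_iff_exists'.1 h2.2.1
  have hst : s ≠ t := by
    rintro rfl
    exact h1.2.2.1 rfl
  have htk : t ≠ k := by
    rintro rfl
    exact h2.2.2.1 (by rw [hq, hk])
  have hsk : s ≠ k := by
    rintro rfl
    exact h3.2.2.1 (by rw [hq, hk])
  have g1 := good _ _ s t h1 (hq s) (hq t)
  have g2 := good _ _ t k h2 (hq t) hk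
  have g3 := good _ _ s k h3 (hq s) hk
  have e1 : siz g t = siz g s := by omega
  have e2 : siz g k = siz g s := by omega
  rw [MG_edge] at h4
  have hTy : TyT G g w q (q s) (q t) z := by
    refine ⟨out, hq, wn, by rw [hq]; simp, by rw [hq]; simp, by rw [hk]; simp, ?_, ?_, ?_, ?_⟩
    · rw [hq, hq]
      exact fun h => hst (Option.some_injective _ h)
    · rw [hq, hk]
      exact fun h => htk (Option.some_injective _ h)
    · rw [hq, hk]
      exact fun h => hsk (Option.some_injective _ h)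
    · intro u v hu hv
      constructor
      · intro h
        refine ⟨fun h' => hN.indep u v hu h' h, ?_⟩
        have h5 : s(u, v) ∉ missSet G g := fun h' =>
          ((ItemMKH.mem_missSet G g u v).1 h').2.2.2 h
        rw [h4] at h5
        simp only [Set.mem_insert_iff, Set.mem_singleton_iff, not_or] at h5
        exact h5
      · rintro ⟨h5, h6⟩
        by_contra h
        have h7 : s(u, v) ∈ missSet G g := (ItemMKH.mem_missSet G g u v).2 ⟨hu, hv, h5, h⟩
        rw [h4] at h7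
        simp only [Set.mem_insert_iff, Set.mem_singleton_iff] at h7
        tauto
  have hxy : q s ≠ q t := h1.ne
  have hyz : q t ≠ z := h2.ne
  have hxz : q s ≠ z := h3.ne
  have hcard : (missSet G g).ncard = 3 := by
    rw [h4]
    have k1 : s(q s, q t) ≠ s(q t, z) := by
      rw [Ne, Sym2.eq_iff]
      tauto
    have k2 : s(q s, q t) ≠ s(q s, z) := by
      rw [Ne, Sym2.eq_iff]
      tauto
    have k3 : s(q t, z) ≠ s(q s, z) := by
      rw [Ne, Sym2.eq_iff]
      tauto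
    rw [Set.ncard_insert_of_notMem (by simp [k1, k2]), Set.ncard_insert_of_notMem (by simp [k3]),
      Set.ncard_singleton]
  set l : Fin r → ℕ := fun u => if u = t then 2 else if u = k then 1 else 0 with hl
  have hlt : l t = 2 := by rw [hl]; simp
  have hlk : l k = 1 := by rw [hl]; simp [htk.symm]
  have hls : l s = 0 := by rw [hl]; simp [hst, hsk]
  have hsum : ∑ u, l u = 3 := by
    have h5 : ∀ u, l u = (if u = t then 2 else 0) + (if u = k then 1 else 0) := by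
      intro u
      by_cases hu : u = t
      · subst hu
        rw [hlt, if_pos rfl, if_neg htk]
      · by_cases hu' : u = k
        · subst hu'
          rw [hlk, if_neg hu, if_pos rfl]
        · rw [hl]
          simp [hu, hu']
    rw [Finset.sum_congr rfl fun u _ => h5 u, Finset.sum_add_distrib,
      Finset.sum_ite_eq' univ t, Finset.sum_ite_eq' univ k]
    simp
  obtain ⟨K, H, f', w', q', L', hT', hLc, hlc, hq', hs'⟩ := hFam r (siz g) l s t hr hls
    hst.symm (by omega) (fun u => by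
      have := room u
      omega)
  have h5 := lam_le hC hM hr hG hN.indep ho hT' (by omega) hs'
  have h6 := hTRI V (Fin K) G H g f' w (q s) (q t) z w' q q' s t k L' hTy hT' (hq s) (hq t) hk
    rfl rfl hN hs' e1 e2 ⟨t, (hq' t).2 rfl, fun u hu => (hq' u).1 hu⟩ (by rw [hlc, hlt])
    (by rw [hlc, hlk]) (by omega)
  exact absurd h5 (not_le.2 h6)

/-- the end of the proof -/
theorem final {G : SimpleGraph V} {g : V → Option (Fin r)} {m n : ℕ} {w : V}
    {q : Fin r → V} {C : ℝ} {i j : Fin r} (hC : CNTU_statement) (hM : MEMP_statement)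
    (hFam : FAMG_statement) (hr : 3 ≤ r)
    (hTRI : ∀ (V U : Type) [Fintype V] [Fintype U]
      (G : SimpleGraph V) (H : SimpleGraph U) (f : V → Option (Fin r)) (f' : U → Option (Fin r))
      (w x y z : V) (w' : U) (q : Fin r → V) (q' : Fin r → U) (i j k : Fin r)
      (L' : Finset U), TyT G f w q x y z → TyP H f' w' q' i L' →
      f x = some i → f y = some j → f z = some k → x = q i → y = q j →
      NK n C G f → (∀ t, siz f' t = siz f t) → siz f j = siz f i → siz f k = siz f i →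
      (∃! t, q' t ∈ L') → lc L' f' j = 2 → lc L' f' k = 1 → L'.card = 3 → lam G < lam H)
    (hCEN : ∀ (V U : Type) [Fintype V] [Fintype U]
      (G : SimpleGraph V) (H : SimpleGraph U) (f : V → Option (Fin r)) (f' : U → Option (Fin r))
      (w : V) (w' : U) (q : Fin r → V) (q' : Fin r → U) (s i : Fin r) (L : Finset V)
      (L' : Finset U), TyP G f w q s L → TyP H f' w' q' i L' → s ≠ i →
      NK n C G f → (∀ t, siz f' t = siz f t) → siz f s < siz f i → (∀ v ∈ L, f v = some i) →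
      (∀ v ∈ L', f' v = some s) → L'.card = L.card → 2 ≤ L.card → lam G < lam H)
    (hG : MxK r m G) (hN : NK n C G g) (ho : (outSet G g).ncard = r)
    (out : ∀ v, g v = none ↔ v = w) (hq : ∀ t, g (q t) = some t)
    (wn : ∀ v, G.Adj w v ↔ ∃ t, v = q t) (room : ∀ t, 5 ≤ siz g t)
    (room' : ∀ t, (missSet G g).ncard + 2 ≤ siz g t)
    (hi : ∀ t, siz g t ≤ siz g i) (hj : ∀ t, t ≠ i → siz g t ≤ siz g j)
    (good : ∀ u v s t, (MG G g).Adj u v → g u = some s → g v = some t → Gd (siz g) i j s t)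
    (hcase : (∃ x, ∀ e ∈ (MG G g).edgeSet, x ∈ e) ∨ ∃ x y z, Tr (MG G g) x y z) :
    ∃ (s : Fin r) (L : Finset V), TyP G g w q s L ∧ ∀ t, siz g t ≤ siz g s := by
  classical
  obtain ⟨s, t, hst, hadj⟩ := exists_missing hG.1.free hq wn
  rcases hcase with ⟨x, hx⟩ | ⟨x, y, z, hT⟩
  · -- star
    have hmem : s(q s, q t) ∈ (MG G g).edgeSet := hadj
    by_cases ha : (missSet G g).ncard = 1
    · -- one missing pair
      rw [← MG_edge] at ha
      obtain ⟨e, he⟩ := Set.ncard_eq_one.1 ha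
      have he' : e = s(q s, q t) := by
        rw [he] at hmem
        exact hmem.symm
      have hall : ∀ e' ∈ (MG G g).edgeSet, e' = s(q s, q t) := by
        intro e' h'
        rw [he] at h'
        rw [h', he']
      rcases good _ _ s t hadj (hq s) (hq t) with h1 | h1
      · obtain ⟨L, hL, -⟩ := TyP_of_star hN.indep out hq wn s
          (fun e' h' => by rw [hall e' h']; simp) ⟨t, hadj⟩ room'
        exact ⟨s, L, hL, fun u => by rw [h1.1]; exact hi u⟩
      · obtain ⟨L, hL, -⟩ := TyP_of_star hN.indep out hq wn t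
          (fun e' h' => by rw [hall e' h']; simp) ⟨s, hadj.symm⟩ room'
        exact ⟨t, L, hL, fun u => by rw [h1.1]; exact hi u⟩
    · -- the centre is a vertex `q s₀`
      obtain ⟨s₀, t₀, hs₀, hadj₀⟩ : ∃ s₀ t₀, x = q s₀ ∧ (MG G g).Adj (q s₀) (q t₀) := by
        have h1 := hx _ hmem
        rw [Sym2.mem_iff] at h1
        rcases h1 with h1 | h1
        · exact ⟨s, t, h1, hadj⟩
        · exact ⟨t, s, h1, hadj.symm⟩
      subst hs₀
      obtain ⟨L, hL, hLa⟩ := TyP_of_star hN.indep out hq wn s₀ hx ⟨t₀, hadj₀⟩ room'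
      by_cases hmax : siz g s₀ = siz g i
      · exact ⟨s₀, L, hL, fun u => by rw [hmax]; exact hi u⟩
      exfalso
      have hLc : (missSet G g).ncard = L.card := (hM r V G g w q s₀ L hr hL).2.2.2.2.1
      have hadj₀' := good _ _ s₀ t₀ hadj₀ (hq _) (hq _)
      have hpos : (missSet G g).ncard ≠ 0 := by
        intro h0
        rw [Set.ncard_eq_zero (Set.toFinite _)] at h0
        have h1 := hmem
        rw [MG_edge, h0] at h1
        exact h1
      have hsj : siz g s₀ = siz g j := by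
        rcases hadj₀' with h | h
        · exact absurd h.1 hmax
        · exact h.2
      have hlt : siz g s₀ < siz g i := lt_of_le_of_ne (hi _) hmax
      have hLi : ∀ v ∈ L, g v = some i := by
        intro v hv
        have h1 := hLa v hv
        obtain ⟨u, hu⟩ := Option.ne_none_iff_exists'.1 h1.2.1
        have h2 := good _ _ s₀ u h1 (hq _) hu
        by_cases hui : u = i
        · rw [hu, hui]
        · exfalso
          have h3 := hj u hui
          rcases h2 with h2 | h2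
          · exact hmax h2.1
          · omega
      have hsi : s₀ ≠ i := by
        rintro rfl
        exact hmax rfl
      set l : Fin r → ℕ := fun u => if u = s₀ then (missSet G g).ncard else 0 with hl
      have hls : l s₀ = (missSet G g).ncard := by rw [hl]; simp
      have hl0 : ∀ u, u ≠ s₀ → l u = 0 := by
        intro u hu
        rw [hl]
        simp [hu]
      have hsum : ∑ u, l u = (missSet G g).ncard := by
        rw [Finset.sum_eq_single s₀ (fun u _ hu => hl0 u hu)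
          fun h => absurd (mem_univ _) h, hls]
      obtain ⟨K, H, f', w', q', L', hT', hLc', hlc, hq', hs'⟩ := hFam r (siz g) l i s₀ hr
        (hl0 i hsi.symm) hsi (by omega) (fun u => by
          rw [hsum]
          exact room' u)
      have h5 := lam_le hC hM hr hG hN.indep ho hT' (by omega) hs'
      have hL' : ∀ v ∈ L', f' v = some s₀ := by
        intro v hv
        obtain ⟨u, hu⟩ := Option.ne_none_iff_exists'.1 (hT'.hL v hv).1
        by_cases hus : u = s₀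
        · rw [hu, hus]
        · exfalso
          have h6 := hlc u
          rw [hl0 u hus] at h6
          unfold lc at h6
          rw [Set.ncard_eq_zero (Set.toFinite _)] at h6
          have h7 : v ∈ {v | v ∈ L' ∧ f' v = some u} := ⟨hv, hu⟩
          rw [h6] at h7
          exact h7
      have h6 := hCEN V (Fin K) G H g f' w w' q q' s₀ i L L' hL hT' hsi hN hs' hlt hLi hL'
        (by omega) (by omega)
      exact absurd h5 (not_le.2 h6)
  · -- triangle
    exfalso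
    have hmem : s(q s, q t) ∈ (MG G g).edgeSet := hadj
    have hmem' := hmem
    rw [hT.2.2.2] at hmem'
    simp only [Set.mem_insert_iff, Set.mem_singleton_iff] at hmem'
    have key : ∀ x y z, Tr (MG G g) x y z → s(q s, q t) = s(x, y) → False := by
      intro x y z hT hxy
      rw [Sym2.eq_iff] at hxy
      rcases hxy with ⟨rfl, rfl⟩ | ⟨rfl, rfl⟩
      · exact tri_main hC hM hFam hr hTRI hG hN ho out hq wn room good hT
      · exact tri_main hC hM hFam hr hTRI hG hN ho out hq wn room good hT.swap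
    rcases hmem' with h | h | h
    · exact key x y z hT h
    · exact key y z x hT.rot h
    · exact key x z y hT.swap.rot h

end ItemPSN

end MP0c3a8f

end

section

/-!
# MP_0c3a8f_co: item PSN (type `P`, nearly balanced classes)
-/

set_option autoImplicit false
set_option linter.unusedVariables false

open Finset

namespace MP0c3a8f

namespace ItemPSN

theorem siz_dev {V : Type} [Fintype V] {r : ℕ} {g : V → Option (Fin r)} {n : ℕ} {K s : ℝ}
    (hK : 0 ≤ K) (hs : 0 ≤ s) (hsn : s ^ 2 = n) (htot : ∑ t, siz g t = n)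
    (hd : dev (siz g) ≤ K ^ 2 * n) (t : Fin r) : |(siz g t : ℝ) - n / r| ≤ K * s := by
  unfold dev at hd
  have h2 : (∑ s, (siz g s : ℝ)) = n := by exact_mod_cast htot
  rw [h2] at hd
  have h3 : ((siz g t : ℝ) - n / r) ^ 2 ≤ ∑ t, ((siz g t : ℝ) - n / r) ^ 2 :=
    Finset.single_le_sum (f := fun t => ((siz g t : ℝ) - n / r) ^ 2)
      (fun _ _ => sq_nonneg _) (Finset.mem_univ t)
  refine abs_le_of_sq_le_sq ?_ (mul_nonneg hK hs)
  rw [mul_pow, hsn]
  exact h3.trans hd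

end ItemPSN

open ItemPSN in
theorem prfPSN : P_statement → CNTU_statement → FLU_statement → TCL_statement →
    SWZ_statement → SQE_statement → SQF_statement → CLSS_statement → MEMP_statement →
    FAMG_statement → CEN_statement → TRI_statement → PSN_statement := by
  classical
  intro hP hCN hFLU hTCL hSWZ hSQE hSQF hCLSS hMEMP hFAMG hCEN hTRI r C hr hC
  obtain ⟨C1, n1, hC1, hFLU⟩ := hFLU r C hr hC
  obtain ⟨C2, n2, hC2, hTCL⟩ := hTCL r C hr hC
  obtain ⟨C3, n3, hC3, hSWZ⟩ := hSWZ r C hr hC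
  obtain ⟨n4, hCEN⟩ := hCEN r C hr hC
  obtain ⟨n5, hTRI⟩ := hTRI r C hr hC
  obtain ⟨A, hAd⟩ : ∃ A : ℝ, A = C + 1 := ⟨_, rfl⟩
  obtain ⟨R, hRd⟩ : ∃ R : ℝ, R = r := ⟨_, rfl⟩
  have hR3 : 3 ≤ R := by rw [hRd]; exact_mod_cast hr
  have hA1 : 1 ≤ A := by linarith
  obtain ⟨M1, hM1⟩ : ∃ x : ℝ, x = 64 * (C3 * (2 * R + 1) ^ 3 * A ^ 3) := ⟨_, rfl⟩
  obtain ⟨M2, hM2⟩ : ∃ x : ℝ, x = 64 * (10 * R ^ 2) := ⟨_, rfl⟩
  obtain ⟨M3, hM3⟩ : ∃ x : ℝ, x = 64 * (8 * C2 * A ^ 2) := ⟨_, rfl⟩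
  obtain ⟨M4, hM4⟩ : ∃ x : ℝ, x = 64 * (10 * A ^ 2 * (8 * A + C1)) := ⟨_, rfl⟩
  obtain ⟨M5, hM5⟩ : ∃ x : ℝ, x = 64 * (8 * C2 * A) := ⟨_, rfl⟩
  obtain ⟨M6, hM6⟩ : ∃ x : ℝ, x = 64 * (2 * C3 * (2 * R + 1) ^ 3 * A ^ 2) := ⟨_, rfl⟩
  obtain ⟨M7, hM7⟩ : ∃ x : ℝ, x = 64 * (7 * C1 * A) := ⟨_, rfl⟩
  obtain ⟨M8, hM8⟩ : ∃ x : ℝ, x = 64 * C1 := ⟨_, rfl⟩
  obtain ⟨M9, hM9⟩ : ∃ x : ℝ, x = R * C1 := ⟨_, rfl⟩
  obtain ⟨M10, hM10⟩ : ∃ x : ℝ, x = R * (4 * A + R + 5) := ⟨_, rfl⟩
  obtain ⟨M11, hM11⟩ : ∃ x : ℝ, x = 64 * (8 * A + C1) := ⟨_, rfl⟩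
  have p1 : 0 ≤ M1 := by rw [hM1]; positivity
  have p2 : 0 ≤ M2 := by rw [hM2]; positivity
  have p3 : 0 ≤ M3 := by rw [hM3]; positivity
  have p4 : 0 ≤ M4 := by rw [hM4]; positivity
  have p5 : 0 ≤ M5 := by rw [hM5]; positivity
  have p6 : 0 ≤ M6 := by rw [hM6]; positivity
  have p7 : 0 ≤ M7 := by rw [hM7]; positivity
  have p8 : 0 ≤ M8 := by rw [hM8]; positivity
  have p9 : 0 ≤ M9 := by rw [hM9]; positivity
  have p10 : 0 ≤ M10 := by rw [hM10]; positivity
  have p11 : 0 ≤ M11 := by rw [hM11]; positivity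
  obtain ⟨M, hM⟩ : ∃ x : ℝ, x = 2 + M1 + M2 + M3 + M4 + M5 + M6 + M7 + M8 + M9 + M10 + M11 :=
    ⟨_, rfl⟩
  obtain ⟨n6, hn6⟩ := exists_nat_ge (M ^ 4)
  obtain ⟨es, hes⟩ : ∃ x : ℝ, x = 1 / (320 * A ^ 2) := ⟨_, rfl⟩
  have hes0 : 0 < es := by rw [hes]; positivity
  have hes1 : 40 * A ^ 2 * es ≤ 1 / 8 := by
    rw [hes]
    apply le_of_eq
    field_simp
    norm_num
  have hes2 : es ≤ 1 / 320 := by
    rw [hes]
    apply one_div_le_one_div_of_le (by norm_num)
    have : 1 ≤ A ^ 2 := one_le_pow₀ hA1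
    linarith
  refine ⟨es ^ 2, by positivity, max n1 (max n2 (max n3 (max n4 (max n5 n6)))), ?_⟩
  intro V _ G g n m hn hG hN hdev ho ha
  have hn1 : n1 ≤ n := (le_max_left _ _).trans hn
  have hn2 : n2 ≤ n := ((le_max_left _ _).trans (le_max_right _ _)).trans hn
  have hn3 : n3 ≤ n := by
    have := hn
    simp only [max_le_iff] at this
    exact this.2.2.1
  have hn4 : n4 ≤ n := by
    have := hn
    simp only [max_le_iff] at this
    exact this.2.2.2.1
  have hn5 : n5 ≤ n := by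
    have := hn
    simp only [max_le_iff] at this
    exact this.2.2.2.2.1
  have hn6' : n6 ≤ n := by
    have := hn
    simp only [max_le_iff] at this
    exact this.2.2.2.2.2
  have hn6r : M ^ 4 ≤ (n : ℝ) := hn6.trans (by exact_mod_cast hn6')
  -- the scale
  obtain ⟨h, hhd⟩ : ∃ h : ℝ, h = Real.sqrt (Real.sqrt n) := ⟨_, rfl⟩
  have hMh : M ≤ h := by
    rw [hhd]
    apply Real.le_sqrt_of_sq_le
    apply Real.le_sqrt_of_sq_le
    have : (M ^ 2) ^ 2 = M ^ 4 := by ring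
    rw [this]
    exact hn6r
  have hh2 : 2 ≤ h := by linarith
  have hh0 : 0 < h := by linarith
  have hh1 : 1 ≤ h := by linarith
  have hs : Real.sqrt n = h ^ 2 := by
    rw [hhd, Real.sq_sqrt (Real.sqrt_nonneg _)]
  have hnh : (n : ℝ) = h ^ 4 := by
    have h1 : (n : ℝ) = Real.sqrt n ^ 2 := (Real.sq_sqrt (Nat.cast_nonneg n)).symm
    rw [h1, hs]
    ring
  have q1 : M1 ≤ h := by linarith only [hM, hMh, p1, p2, p3, p4, p5, p6, p7, p8, p9, p10, p11]
  have q2 : M2 ≤ h := by linarith only [hM, hMh, p1, p2, p3, p4, p5, p6, p7, p8, p9, p10, p11]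
  have q3 : M3 ≤ h := by linarith only [hM, hMh, p1, p2, p3, p4, p5, p6, p7, p8, p9, p10, p11]
  have q4 : M4 ≤ h := by linarith only [hM, hMh, p1, p2, p3, p4, p5, p6, p7, p8, p9, p10, p11]
  have q5 : M5 ≤ h := by linarith only [hM, hMh, p1, p2, p3, p4, p5, p6, p7, p8, p9, p10, p11]
  have q6 : M6 ≤ h := by linarith only [hM, hMh, p1, p2, p3, p4, p5, p6, p7, p8, p9, p10, p11]
  have q7 : M7 ≤ h := by linarith only [hM, hMh, p1, p2, p3, p4, p5, p6, p7, p8, p9, p10, p11]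
  have q8 : M8 ≤ h := by linarith only [hM, hMh, p1, p2, p3, p4, p5, p6, p7, p8, p9, p10, p11]
  have q9 : M9 ≤ h := by linarith only [hM, hMh, p1, p2, p3, p4, p5, p6, p7, p8, p9, p10, p11]
  have q10 : M10 ≤ h := by linarith only [hM, hMh, p1, p2, p3, p4, p5, p6, p7, p8, p9, p10, p11]
  have q11 : M11 ≤ h := by linarith only [hM, hMh, p1, p2, p3, p4, p5, p6, p7, p8, p9, p10, p11]
  have hn0 : (0 : ℝ) < n := by rw [hnh]; positivity
  have hh24 : h ^ 2 ≤ h ^ 4 := pow_le_pow_right₀ hh1 (by norm_num)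
  have hh14 : h ≤ h ^ 4 := le_self_pow₀ hh1 (by norm_num)
  have hh12 : h ≤ h ^ 2 := le_self_pow₀ hh1 (by norm_num)
  have hh34 : h ^ 3 ≤ h ^ 4 := pow_le_pow_right₀ hh1 (by norm_num)
  have hn2' : (2 : ℝ) ≤ n := by rw [hnh]; linarith
  -- the number of missing pairs
  obtain ⟨α, hα⟩ : ∃ x : ℝ, x = ((missSet G g).ncard : ℝ) := ⟨_, rfl⟩
  have hα1 : 1 ≤ α := by rw [hα]; exact_mod_cast ha
  have hfew := hN.few
  rw [ho, ← hα, ← hhd, ← hRd] at hfew
  have hαA : α + 1 ≤ A * h := x1 hAd hh0.le hR3 hfew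
  -- the structure
  obtain ⟨w, q, out, hq, wn⟩ := hCLSS r (siz g) (missSet G g).ncard V G g hr
    ⟨fun t => rfl, hN.indep, rfl, ho⟩ hG.1.notPartite hG.1.noIso
  have hne : Nonempty V := ⟨w⟩
  obtain ⟨⟨z, hz⟩, hFz⟩ := hFLU V G g n hn1 hN
  obtain ⟨f1, f2, f3, f4⟩ := hFz z hz
  rw [hs] at f1
  rw [← hhd] at f2 f3
  rw [hs] at f4
  obtain ⟨t1, t2, t3⟩ := hTCL V G z g n hn2 hN hz
  obtain ⟨l, hld⟩ : ∃ l : ℝ, l = lam G := ⟨_, rfl⟩
  -- the eigenvalue
  have hC1h : C1 * h ≤ n / 64 := by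
    rw [hnh]
    exact x2 hh1 (hM8 ▸ q8)
  have hqn : qq r * n = n - n / R := by
    unfold qq
    rw [← hRd]
    ring
  have hnR : (n : ℝ) / R ≤ n / 3 := div_le_div_of_nonneg_left hn0.le (by norm_num) hR3
  have hRC : C1 * h ≤ n / R := by
    rw [hnh]
    exact x3 hh1 hR3 (hM9 ▸ q9)
  rw [← hld, hqn] at f3
  obtain ⟨f31, f32⟩ := abs_le.1 f3
  have hl : (n : ℝ) / 2 ≤ l := by linarith
  have hl' : l ≤ n := by linarith
  have hl0 : 0 < l := by linarith
  -- sizes
  have hσ : ∀ t, |(siz g t : ℝ) - n / r| ≤ A * h ^ 2 := by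
    intro t
    refine siz_dev (by linarith) (by positivity) (by rw [hnh]; ring) hN.tot ?_ t
    exact hN.dev.trans (mul_le_mul_of_nonneg_right (x4 hC hAd) hn0.le)
  have hσ' : ∀ t, |(siz g t : ℝ) - n / r| ≤ es * h ^ 2 := fun t =>
    siz_dev hes0.le (by positivity) (by rw [hnh]; ring) hN.tot hdev t
  rw [← hRd] at hσ hσ'
  have hroom' : R * (A * h ^ 2 + 3 * (A * h) + R + 2) ≤ n := by
    rw [hnh]
    exact x5 hh1 hA1 hR3 (hM10 ▸ q10)
  have room : ∀ t, 3 * (missSet G g).ncard + r + 2 ≤ siz g t := by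
    intro t
    have k1 := (abs_le.1 (hσ t)).1
    have k2 : A * h ^ 2 + 3 * (A * h) + R + 2 ≤ n / R := by
      rw [le_div_iff₀ (by linarith)]
      linarith
    have k3 : ((3 * (missSet G g).ncard + r + 2 : ℕ) : ℝ) ≤ (siz g t : ℝ) := by
      push_cast
      rw [← hα, ← hRd]
      linarith
    exact_mod_cast k3
  have hDt : ∀ t, 3 / 4 * (n : ℝ) ≤ l + siz g t := by
    intro t
    have k1 := (abs_le.1 (hσ t)).1
    have k2 : A * h ^ 2 ≤ n / 8 := by
      rw [hnh]
      exact x6 hh1 hA1 hR3 (hM10 ▸ q10)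
    linarith
  -- bounds of z
  have hz0 := hz.nonneg
  have hZ1 : C1 * h / n ≤ 1 / 64 := by
    rw [div_le_iff₀ hn0]
    linarith
  have hZ0 : 0 ≤ C1 * h / n := by positivity
  have hκ1 : C1 / h ^ 2 ≤ 1 / 64 := small (hM8 ▸ q8) hh1 2 (by norm_num) hC1
  have hzcore : ∀ v, g v ≠ none → z v ≤ 1 + C1 / h ^ 2 := by
    intro v hv
    have := (abs_le.1 (f1 v hv)).2
    linarith
  have hz2 : ∀ v, z v ≤ 2 := by
    intro v
    by_cases hv : g v = none
    · have := f2 v hv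
      linarith
    · have := hzcore v hv
      linarith
  have gw : g w = none := (out w).2 rfl
  have hzw := f2 w gw
  -- the corrections
  have hX : ∀ t, |cw (fun v => muv G g z v) g (some t) - cw (fun v => omv G g z v) g (some t)|
      ≤ 2 * (α + 1) := by
    intro t
    rw [ItemTCL.cw_muv, ItemTCL.cw_omv]
    have k1 := ItemFLU.mi_le G g z t 2 hz2 (by norm_num)
    have k2 := ItemFLU.li_le G g z t (C1 * h / n) f2 hZ0
    have k3 : 0 ≤ ∑ v, ∑ u, ItemFLU.mi G g z t v u :=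
      Finset.sum_nonneg fun v _ => Finset.sum_nonneg fun u _ => ItemFLU.mi_nonneg G g z hz0 t v u
    have k4 : 0 ≤ ∑ v, ∑ u, ItemFLU.li G g z t v u :=
      Finset.sum_nonneg fun v _ => Finset.sum_nonneg fun u _ => ItemFLU.li_nonneg G g z hz0 t v u
    rw [← hα] at k1
    rw [ho, ← hRd] at k2
    have k5 : R * (C1 * h / n) ≤ 1 := by
      rw [← mul_div_assoc, div_le_one hn0]
      have := mul_le_mul_of_nonneg_left hRC (by linarith : (0 : ℝ) ≤ R)
      rwa [mul_div_cancel₀ _ (by linarith : R ≠ 0)] at this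
    rw [abs_le]
    constructor <;> linarith
  have hTd : ∀ s t, tv g z n s - tv g z n t ≤ 2 * (2 * es * h ^ 2) + 8 * (α + 1) / n := by
    intro s t
    have k1 := t2 s
    have k2 := t2 t
    rw [← hld] at k1 k2
    refine tv_diff hn0 hl hl' (hDt s) (hDt t) k1 k2 (hX s) (hX t) ?_
    have k3 := abs_le.1 (hσ' s)
    have k4 := abs_le.1 (hσ' t)
    rw [abs_le]
    constructor <;> linarith [k3.1, k3.2, k4.1, k4.2]
  obtain ⟨δ, hδ⟩ : ∃ x : ℝ, x = 4 * es * h ^ 2 + 8 * (α + 1) / n + C1 * h / n := ⟨_, rfl⟩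
  have hδ0 : 0 ≤ δ := by rw [hδ]; positivity
  have hδ1 : ∀ s t, tv g z n s + z w ≤ tv g z n t + δ := by
    intro s t
    have := hTd s t
    rw [hδ]
    linarith
  have hδl : δ ≤ l := (x7 hh1 hnh hes2 hαA (hM11 ▸ q11) hC1 hδ).trans hl
  -- the weights
  have hTl : ∀ t, |tv g z n t - l| ≤ C1 * h ^ 2 := by
    intro t
    have := f4 t
    rw [← hld] at this
    exact this
  have hT3 := fun t => x10 hh1 hnh hl hC1 hκ1 (hTl t)
  have hκ' : ∀ t, (1 - 2 * C1 / h ^ 2) * l ≤ tv g z n t := fun t => (hT3 t).1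
  have hT : ∀ t, 3 / 4 * l ≤ tv g z n t ∧ tv g z n t ≤ 2 * l := fun t => (hT3 t).2
  have hκ'1 : 2 * C1 / h ^ 2 ≤ 1 := by
    have : 2 * C1 / h ^ 2 = 2 * (C1 / h ^ 2) := by ring
    linarith only [this, hκ1]
  -- the error in TCL
  obtain ⟨e, he⟩ : ∃ x : ℝ, x = C2 * (α + 1) / n := ⟨_, rfl⟩
  have he0 : 0 ≤ e := by rw [he]; positivity
  have he1 : e ≤ 1 / 32 := by
    rw [he]
    exact x8 hh1 hnh hαA hC2 (hM5 ▸ q5)
  have h3 : ∀ s t, siz g s ≤ siz g t → ((siz g t : ℝ) - siz g s) / 2 - e ≤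
      tv g z n s - tv g z n t := by
    intro s t hst
    have := t3 s t hst
    rw [← hα] at this
    rw [he]
    exact this
  -- the two largest classes
  have hrpos : 0 < r := by omega
  obtain ⟨i, -, hi⟩ := Finset.exists_max_image (univ : Finset (Fin r)) (siz g)
    ⟨⟨0, hrpos⟩, mem_univ _⟩
  have hjne : (univ.erase i : Finset (Fin r)).Nonempty := by
    rw [← Finset.card_pos, Finset.card_erase_of_mem (mem_univ _), Finset.card_univ,
      Fintype.card_fin]
    omega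
  obtain ⟨j, hjm, hj⟩ := Finset.exists_max_image (univ.erase i) (siz g) hjne
  have hij : j ≠ i := Finset.ne_of_mem_erase hjm
  have hi' : ∀ t, siz g t ≤ siz g i := fun t => hi t (mem_univ _)
  have hj' : ∀ t, t ≠ i → siz g t ≤ siz g j := fun t ht =>
    hj t (Finset.mem_erase.2 ⟨ht, mem_univ _⟩)
  -- the comparison graph
  obtain ⟨H, q', L, hTy, hLc, hL, hqc, hle⟩ := comp_exists hCN hMEMP hr hG hN.indep ho out ha
    i j hij room
  obtain ⟨-, -, -, m4, m5, m6, -⟩ := hMEMP r V H g w q' i L hr hTy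
  have hNH : NK n C H g := by
    refine ⟨m4, hN.tot, hN.dev, ?_⟩
    rw [m5, m6, hLc, ← hhd, ← hα, ← hRd]
    exact hfew
  have hS := hSWZ V G H z g w n hn3 hN hNH gw
    (fun u v hu huw => absurd ((out u).1 hu) huw) hz hle
  have hstar := star hMEMP hr (hld ▸ hl0) hz0 t1 out hq wn hTy hL hqc
    (fun t => hld ▸ (hT t).2) hS
  rw [m5, m6, ho, hLc, ← hα, ← hRd] at hstar
  -- the error term
  have hE := numE (α := α) (R := R) (C3 := C3) (n := n) (l := l) (zw := z w) hα1 hR3 hC3 hn2' hl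
    (hz0 w) (by linarith)
  obtain ⟨E, hEd⟩ : ∃ x : ℝ, x = C3 * (2 * R + 1) ^ 3 * (α + 1) ^ 3 / n + 10 * R ^ 2 / n :=
    ⟨_, rfl⟩
  rw [← hEd] at hE
  rw [← hld] at hstar
  have hstar' := hstar.trans hE
  have hnA := numA (es := es) (l := l) (δ := δ) (e := e) hα1 hR3 hC1 hC2 hC3 hA1 hh1 hnh hαA hl he
    hδ hes0.le hes1 (hM1 ▸ q1) (hM2 ▸ q2) (hM3 ▸ q3) (hM4 ▸ q4)
  have hnB := numB (κ := C1 / h ^ 2) (κ' := 2 * C1 / h ^ 2) (e := e) hα1 hR3 hC1 hC2 hC3 hA1 hh1
    hnh hαA he rfl rfl (hM2 ▸ q2) (hM5 ▸ q5) (hM6 ▸ q6) (hM7 ▸ q7)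
  rw [← hEd] at hnA hnB
  -- all missing pairs are good
  have good := caseA (G := G) (g := g) (w := w) (z := z) (n := n) (i := i) (j := j) (e := e)
    (δ := δ) (E := E) hSQE hi' hj' (hld ▸ hl0) hz0 t1 out he0 he1 h3 (hld ▸ hT) hδ1 hδ0
    (hld ▸ hδl) (by rw [← hα, ← hld]; exact hstar') (by rw [← hα, ← hld]; exact hnA)
  -- star or triangle
  have hB := caseB (G := G) (g := g) (z := z) (n := n) (i := i) (j := j) (e := e)
    (κ := C1 / h ^ 2) (κ' := 2 * C1 / h ^ 2) (E := E) hi' hj' (hld ▸ hl0) hz0 he0 h3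
    (hld ▸ hT) hzcore (by positivity) (by linarith only [hκ1]) (hld ▸ hκ') hκ'1
    (by rw [← hα, ← hld]; exact hstar') (by rw [← hα]; exact hnB)
  have hcase : (∃ x, ∀ e ∈ (MG G g).edgeSet, x ∈ e) ∨ ∃ x y z, Tr (MG G g) x y z := by
    rcases hSQF V (MG G g) with k | k | k
    · exact Or.inl k
    · exact Or.inr k
    · exfalso
      rw [MG_edge] at k
      exact hB k
  obtain ⟨s, L', hL', hmax⟩ := final (C := C) (i := i) (j := j) (n := n) hCN hMEMP hFAMG hr
    (fun V U _ _ G H f f' w x y z w' q q' i j k L' => hTRI V U G H f f' w x y z w' q q' i j k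
      L' n hn5)
    (fun V U _ _ G H f f' w w' q q' s i L L' => hCEN V U G H f f' w w' q q' s i L L' n hn4)
    hG hN ho out hq wn (fun t => by
      have := room t
      omega) (fun t => by
      have := room t
      omega) hi' hj' good hcase
  exact ⟨w, q, s, L', hL', hmax⟩

end MP0c3a8f

end

section

/-!
# MP_0c3a8f_co: all items of the part PB9 together
-/

namespace MP0c3a8f

theorem bTVP : TVP_statement := prfTVP prfP
theorem bCEN : CEN_statement := prfCEN prfP bFLU prfTCG bTVP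
theorem bTRI : TRI_statement := prfTRI prfP bFLU prfTCG bTVP
theorem bSWY : SWY_statement := prfSWY prfP
theorem bPSN : PSN_statement :=
  prfPSN prfP prfCNTU bFLU bTCL bSWZ prfSQE prfSQF bCLSS prfMEMP prfFAMG bCEN bTRI
theorem bPEK : PEK_statement := prfPEK prfP bFLU bTCL bMVE prfMEMP
theorem bQSU : QSU_statement := prfQSU prfP prfCNTU bFLU bTCL bSWZ bQMB prfCLB prfREL
theorem bRIK : RIK_statement := prfRIK prfP prfCNTU bFLU bTCL bSWR bRMB bMEM2
theorem bFLB : FLB_statement := prfFLB prfP bSEC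
theorem bRSS : RSS_statement := prfRSS prfP prfCNTU bFLB bSWY bRLE bRMB bCLA
theorem bRSE : RSE_statement := prfRSE prfP prfCNTU bFLB prfTCG bMVE bSWY bRMB bMEM2
theorem bNLV : NLV_statement := prfNLV prfDEV prfCNTU
theorem bAIK : AIK_statement := prfAIK prfDEV prfCNTU

end MP0c3a8f

end
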