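import Pool.Agent.Work.MP_0c3a8f_co.PB.Stmts11
import Pool.Agent.Work.MP_0c3a8f_co.Bd.B18
import Pool.Agent.Work.MP_0c3a8f_co.PB.ItemFLU

/-! Bundle of small proof modules (one section per former module). -/

section

/-!
# MP_0c3a8f_co, PB11, item QEG: the neighbours of the special vertex, bounded defect
-/

set_option autoImplicit false

open Finset

namespace MP0c3a8f

namespace ItemQEG

/-! ### arithmetic -/

theorem numB {n A lam σs σt z Ot Os Mt Ms Ts Tt : ℝ} (hA : 1 ≤ A) (hn : 1000 * A ≤ n)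
    (hl1 : 2 / 3 * n - A ≤ lam) (hl2 : lam ≤ n + A) (hs1 : σs ≤ n / 3 + A)
    (ht1 : σt ≤ n / 3 + A) (ht0 : 0 ≤ σt) (hst : σt + 1 ≤ σs) (hz0 : 0 ≤ z)
    (hz : lam * z ≤ n + A) (hOt : Ot ≤ σt * z + A) (hOs : 0 ≤ Os) (hMt : 0 ≤ Mt)
    (hMs : Ms ≤ 2 * A) (hs : (lam + σs) * Ts = lam * n + (Ms - Os))
    (ht : (lam + σt) * Tt = lam * n + (Mt - Ot)) (hkey : Tt - Ts ≤ z / lam) : False := by
  have hn0 : 0 < n := by linarith
  have hlam0 : 0 < lam := by linarith
  have hP0 : 0 < lam + σt := by linarith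
  have hQ0 : 0 < lam + σs := by linarith
  have hP1 : lam + σt ≤ 2 * lam := by linarith
  have hQ1 : lam + σs ≤ 2 * lam := by linarith
  have hAn : A * n ≤ n ^ 2 / 1000 := by
    have := mul_le_mul_of_nonneg_right hn hn0.le
    linarith [this, sq n]
  have hAA : A * A ≤ n ^ 2 / 1000 := by
    have : A * A ≤ A * n := mul_le_mul_of_nonneg_left (by linarith) (by linarith)
    linarith
  have hn1 : n ≤ n ^ 2 / 1000 := by
    have : 1 * n ≤ A * n := mul_le_mul_of_nonneg_right hA hn0.le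
    linarith
  have hz3 : z ≤ 7 / 4 := by
    by_contra hc
    have h1 : lam * (7 / 4) ≤ lam * z := mul_le_mul_of_nonneg_left (not_le.1 hc).le hlam0.le
    linarith
  have h1 : (lam + σt) * (lam + σs) * (Tt - Ts) =
      lam * n * (σs - σt) + (lam + σs) * Mt - (lam + σs) * Ot - (lam + σt) * Ms
        + (lam + σt) * Os := by
    linear_combination (lam + σs) * ht - (lam + σt) * hs
  have h2 : lam * n ≤ lam * n * (σs - σt) := by
    have : lam * n * 1 ≤ lam * n * (σs - σt) :=
      mul_le_mul_of_nonneg_left (by linarith) (mul_pos hlam0 hn0).le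
    linarith
  have h3 : 0 ≤ (lam + σt) * Os := mul_nonneg hP0.le hOs
  have h3' : 0 ≤ (lam + σs) * Mt := mul_nonneg hQ0.le hMt
  have h4 : (lam + σt) * (lam + σs) * (Tt - Ts) ≤ 4 * (n + A) := by
    have h5 : (lam + σt) * (lam + σs) * (Tt - Ts) ≤ (lam + σt) * (lam + σs) * (z / lam) :=
      mul_le_mul_of_nonneg_left hkey (mul_pos hP0 hQ0).le
    have h6 : (lam + σt) * (lam + σs) * (z / lam) ≤ 4 * (n + A) := by
      rw [← mul_div_assoc, div_le_iff₀ hlam0]
      have h7 : (lam + σt) * (lam + σs) ≤ (2 * lam) * (2 * lam) :=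
        mul_le_mul hP1 hQ1 hQ0.le (by linarith)
      have h8 : (lam + σt) * (lam + σs) * z ≤ (2 * lam) * (2 * lam) * z :=
        mul_le_mul_of_nonneg_right h7 hz0
      have h9 : lam * (lam * z) ≤ lam * (n + A) := mul_le_mul_of_nonneg_left hz hlam0.le
      have e : (2 * lam) * (2 * lam) * z = 4 * (lam * (lam * z)) := by ring
      linarith
    exact h5.trans h6
  have h5 : (lam + σt) * Ms ≤ 4 * (A * n) := by
    have h6 : (lam + σt) * Ms ≤ (lam + σt) * (2 * A) := mul_le_mul_of_nonneg_left hMs hP0.le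
    have h7 : (lam + σt) * (2 * A) ≤ (2 * n) * (2 * A) :=
      mul_le_mul_of_nonneg_right (by linarith) (by linarith)
    linarith
  have h6 : (lam + σs) * Ot ≤ (n + A) * (n / 3 + A) + 7 / 4 * (n / 3 + A) ^ 2 + 2 * (A * n) := by
    have h7 : (lam + σs) * Ot ≤ (lam + σs) * (σt * z + A) := mul_le_mul_of_nonneg_left hOt hQ0.le
    have e : (lam + σs) * (σt * z + A) = (lam * z) * σt + (σs * σt) * z + (lam + σs) * A := by ring
    have h8 : (lam * z) * σt ≤ (n + A) * (n / 3 + A) :=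
      mul_le_mul hz ht1 ht0 (by linarith)
    have h9 : σs * σt ≤ (n / 3 + A) * (n / 3 + A) :=
      mul_le_mul hs1 ht1 ht0 (by linarith)
    have h10 : (σs * σt) * z ≤ ((n / 3 + A) * (n / 3 + A)) * (7 / 4) :=
      mul_le_mul h9 hz3 hz0 (by positivity)
    have h11 : (lam + σs) * A ≤ (2 * n) * A :=
      mul_le_mul_of_nonneg_right (by linarith) (by linarith)
    have e2 : ((n / 3 + A) * (n / 3 + A)) * (7 / 4) = 7 / 4 * (n / 3 + A) ^ 2 := by ring
    linarith
  have h7 : 2 / 3 * n ^ 2 - A * n ≤ lam * n := by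
    have := mul_le_mul_of_nonneg_right hl1 hn0.le
    have e : (2 / 3 * n - A) * n = 2 / 3 * n ^ 2 - A * n := by ring
    linarith
  have e1 : (n + A) * (n / 3 + A) = n ^ 2 / 3 + 4 / 3 * (A * n) + A * A := by ring
  have e2 : 7 / 4 * (n / 3 + A) ^ 2 = 7 / 36 * n ^ 2 + 7 / 6 * (A * n) + 7 / 4 * (A * A) := by ring
  have hn2 : 0 < n ^ 2 := by positivity
  linarith

theorem numA {n lam σ ds dt z Ot Os Mt Ms Ts Tt e : ℝ} (hlam0 : 0 < lam) (hσ : σ ≤ lam)
    (hσ0 : 0 ≤ σ) (hz0 : 0 ≤ z) (hOt : Ot ≤ dt * z + e) (hOs : ds * z ≤ Os) (hMt : 0 ≤ Mt)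
    (hs : (lam + σ) * Ts = lam * n + (Ms - Os))
    (ht : (lam + σ) * Tt = lam * n + (Mt - Ot)) (hkey : Tt - Ts ≤ z / lam) :
    (ds - dt - 2) * z ≤ Ms + e := by
  have h1 : (lam + σ) * (Tt - Ts) = Mt - Ms + Os - Ot := by
    linear_combination ht - hs
  have h2 : (lam + σ) * (Tt - Ts) ≤ 2 * z := by
    have h3 : (lam + σ) * (Tt - Ts) ≤ (lam + σ) * (z / lam) :=
      mul_le_mul_of_nonneg_left hkey (by linarith)
    have h4 : (lam + σ) * (z / lam) ≤ 2 * z := by
      rw [← mul_div_assoc, div_le_iff₀ hlam0]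
      have := mul_le_mul_of_nonneg_right (show lam + σ ≤ 2 * lam by linarith) hz0
      linarith
    exact h3.trans h4
  have e1 : (ds - dt - 2) * z = ds * z - dt * z - 2 * z := by ring
  linarith

/-! ### counting -/

variable {V : Type} [Fintype V] {r : ℕ}

omit [Fintype V] in
theorem card_toFinset_le [DecidableEq V] (e : Sym2 V) : e.toFinset.card ≤ 2 := by
  induction e using Sym2.ind with
  | _ a b =>
    have h : (s(a, b) : Sym2 V).toFinset ⊆ {a, b} := by
      intro x hx
      simpa using hx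
    exact (Finset.card_le_card h).trans (Finset.card_le_two)

/-- the ends of the pairs in `S` -/
theorem ends (S : Set (Sym2 V)) : {v : V | ∃ e ∈ S, v ∈ e}.ncard ≤ 2 * S.ncard := by
  classical
  have h : {v : V | ∃ e ∈ S, v ∈ e} ⊆
      (((Set.toFinite S).toFinset.biUnion fun e => e.toFinset : Finset V) : Set V) := by
    rintro v ⟨e, he, hv⟩
    rw [Finset.mem_coe, Finset.mem_biUnion]
    exact ⟨e, (Set.Finite.mem_toFinset _).2 he, Sym2.mem_toFinset.2 hv⟩
  refine (Set.ncard_le_ncard h (Finset.finite_toSet _)).trans ?_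
  rw [Set.ncard_coe_finset, Set.ncard_eq_toFinset_card S (Set.toFinite S), mul_comm]
  exact Finset.card_biUnion_le_card_mul _ _ _ fun e _ => card_toFinset_le e

/-- the number of the core vertices which are not clean -/
theorem unclean (G : SimpleGraph V) (g : V → Option (Fin r)) {w : V} (hw : g w = none) :
    {v | g v ≠ none ∧ ¬ Cln G g w v}.ncard
      ≤ 2 * (missSet G g).ncard + 2 * (lightSet G g {w}).ncard := by
  classical
  have h : {v | g v ≠ none ∧ ¬ Cln G g w v} ⊆
      {v : V | ∃ e ∈ missSet G g, v ∈ e} ∪ {v : V | ∃ e ∈ lightSet G g {w}, v ∈ e} := by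
    rintro v ⟨hv, hc⟩
    by_contra hcon
    rw [Set.mem_union, not_or] at hcon
    apply hc
    refine ⟨fun h => hv (h ▸ hw), hv, ?_, ?_⟩
    · intro u _ hu hne
      by_contra hA
      exact hcon.1 ⟨s(v, u), ⟨v, u, rfl, hv, hu, fun h => hne h.symm, hA⟩, Sym2.mem_mk_left v u⟩
    · intro u hu hun hA
      exact hcon.2 ⟨s(v, u), ⟨hA, u, Sym2.mem_mk_right v u, hun, by simpa using hu⟩,
        Sym2.mem_mk_left v u⟩
  refine (Set.ncard_le_ncard h (Set.toFinite _)).trans ((Set.ncard_union_le _ _).trans ?_)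
  exact add_le_add (ends _) (ends _)

/-- clean neighbours -/
theorem clean_nbr (G : SimpleGraph V) (g : V → Option (Fin r)) (w : V) (t : Fin r) :
    nbn G g w t ≤ {c | Cln G g w c ∧ g c = some t ∧ G.Adj w c}.ncard
      + {v | g v ≠ none ∧ ¬ Cln G g w v}.ncard := by
  classical
  refine le_trans ?_ (Set.ncard_union_le _ _)
  unfold nbn
  refine Set.ncard_le_ncard ?_ (Set.toFinite _)
  rintro v ⟨hv, hA⟩
  by_cases hc : Cln G g w v
  · exact Or.inl ⟨hc, hv, hA⟩
  · exact Or.inr ⟨by simp [hv], hc⟩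

/-- clean non-neighbours -/
theorem clean_non (G : SimpleGraph V) (g : V → Option (Fin r)) (w : V) (t : Fin r) :
    siz g t ≤ nbn G g w t + {c | Cln G g w c ∧ g c = some t ∧ ¬ G.Adj w c}.ncard
      + {v | g v ≠ none ∧ ¬ Cln G g w v}.ncard := by
  classical
  refine le_trans ?_ (Nat.add_le_add_right (Set.ncard_union_le _ _) _)
  refine le_trans ?_ (Set.ncard_union_le _ _)
  unfold siz
  refine Set.ncard_le_ncard ?_ (Set.toFinite _)
  intro v hv
  have hv' : g v = some t := hv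
  by_cases hA : G.Adj w v
  · exact Or.inl (Or.inl ⟨hv', hA⟩)
  · by_cases hc : Cln G g w v
    · exact Or.inl (Or.inr ⟨hc, hv', hA⟩)
    · exact Or.inr ⟨by simp [hv'], hc⟩

/-! ### weights -/

/-- the light neighbours of a class -/
theorem cw_omv (G : SimpleGraph V) (g : V → Option (Fin r)) {w : V} (hw : g w = none)
    (z : V → ℝ) (hz0 : ∀ v, 0 ≤ z v) (M : ℝ) (hM0 : 0 ≤ M)
    (hM : ∀ v, g v = none → v ≠ w → z v ≤ M) (t : Fin r) :
    nbn G g w t * z w ≤ cw (fun v => omv G g z v) g (some t) ∧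
    cw (fun v => omv G g z v) g (some t) ≤ nbn G g w t * z w + (lightSet G g {w}).ncard * M := by
  classical
  have h1 := ItemFLU.cnt (lightSet G g {w})
    (fun a c => g a = some t ∧ g c = none ∧ c ≠ w ∧ G.Adj a c)
    (fun a c h => ⟨h.2.2.2, c, Sym2.mem_mk_right a c, h.2.1, by simpa using h.2.2.1⟩)
    (fun a c h1 h2 => by
      have h3 := h2.1
      rw [h1.2.1] at h3
      cases h3) z M (fun a c h => hM c h.2.1 h.2.2.1) hM0
  have h2 : cw (fun v => omv G g z v) g (some t) = nbn G g w t * z w +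
      ∑ a, ∑ c, (if g a = some t ∧ g c = none ∧ c ≠ w ∧ G.Adj a c then z c else 0) := by
    unfold cw omv
    rw [ItemKW3.nbn_eq, Finset.sum_mul, ← Finset.sum_add_distrib]
    refine Finset.sum_congr rfl fun v _ => ?_
    by_cases hv : g v = some t
    · rw [if_pos hv, if_pos hv]
      have h3 : adj G w v * z w = ∑ u, (if u = w then adj G w v * z u else 0) := by
        rw [Finset.sum_ite_eq' Finset.univ w]
        simp
      rw [h3, ← Finset.sum_add_distrib]
      refine Finset.sum_congr rfl fun u _ => ?_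
      unfold adj
      by_cases hu : u = w
      · subst hu
        by_cases hA : G.Adj v u
        · rw [if_pos ⟨hw, hA⟩, if_pos rfl, if_pos hA.symm, if_neg (fun h => h.2.2.1 rfl)]
          ring
        · rw [if_neg (fun h => hA h.2), if_pos rfl, if_neg (fun h => hA h.symm),
            if_neg (fun h => h.2.2.1 rfl)]
          ring
      · rw [if_neg hu, zero_add]
        by_cases hA : g u = none ∧ G.Adj v u
        · rw [if_pos hA, if_pos ⟨hv, hA.1, hu, hA.2⟩]
        · rw [if_neg hA, if_neg (fun h => hA ⟨h.2.1, h.2.2.2⟩)]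
    · rw [if_neg hv, if_neg hv, zero_mul, zero_add]
      symm
      refine Finset.sum_eq_zero fun c _ => ?_
      rw [if_neg (fun h => hv h.1)]
  have h3 : 0 ≤ ∑ a, ∑ c, (if g a = some t ∧ g c = none ∧ c ≠ w ∧ G.Adj a c then z c else 0) :=
    Finset.sum_nonneg fun a _ => Finset.sum_nonneg fun c _ => by
      split_ifs
      · exact hz0 c
      · exact le_rfl
  rw [h2]
  constructor
  · linarith
  · linarith

/-- the missing pairs of a class -/
theorem cw_muv (G : SimpleGraph V) (g : V → Option (Fin r)) (z : V → ℝ) (hz0 : ∀ v, 0 ≤ z v)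
    (M : ℝ) (hM0 : 0 ≤ M) (hM : ∀ v, g v ≠ none → z v ≤ M) (t : Fin r) :
    0 ≤ cw (fun v => muv G g z v) g (some t) ∧
    cw (fun v => muv G g z v) g (some t) ≤ (missSet G g).ncard * M := by
  classical
  have h1 := ItemFLU.cnt (missSet G g)
    (fun a c => g a = some t ∧ g c ≠ none ∧ g c ≠ g a ∧ ¬ G.Adj a c)
    (fun a c h => ⟨a, c, rfl, by rw [h.1]; simp, h.2.1, fun h' => h.2.2.1 h'.symm, h.2.2.2⟩)
    (fun a c h1 h2 => h1.2.2.1 (by rw [h1.1, h2.1])) z M (fun a c h => hM c h.2.1) hM0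
  have h2 : cw (fun v => muv G g z v) g (some t) =
      ∑ a, ∑ c, (if g a = some t ∧ g c ≠ none ∧ g c ≠ g a ∧ ¬ G.Adj a c then z c else 0) := by
    unfold cw muv
    refine Finset.sum_congr rfl fun v _ => ?_
    by_cases hv : g v = some t
    · rw [if_pos hv]
      refine Finset.sum_congr rfl fun u _ => ?_
      by_cases hu : g u ≠ none ∧ g u ≠ g v ∧ ¬ G.Adj v u
      · rw [if_pos ⟨by rw [hv]; simp, hu⟩, if_pos ⟨hv, hu⟩]
      · rw [if_neg (fun h => hu h.2), if_neg (fun h => hu h.2)]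
    · rw [if_neg hv]
      symm
      refine Finset.sum_eq_zero fun c _ => ?_
      rw [if_neg (fun h => hv h.1)]
  rw [h2]
  exact ⟨Finset.sum_nonneg fun a _ => Finset.sum_nonneg fun c _ => by
    split_ifs
    · exact hz0 c
    · exact le_rfl, h1⟩

/-- the equation at `w` -/
theorem eqw (G : SimpleGraph V) (g : V → Option (Fin r)) {w : V}
    (z : V → ℝ) (hz0 : ∀ v, 0 ≤ z v) (l a M : ℝ) (hM0 : 0 ≤ M) (hM : ∀ v, z v ≤ M)
    (hze : ∀ v, ∑ u, adj G v u * z u = l * z v) (hcore : ∀ v, g v ≠ none → |z v - 1| ≤ a) :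
    ((∑ t, nbn G g w t : ℕ) : ℝ) * (1 - a) ≤ l * z w ∧
    l * z w ≤ ((∑ t, nbn G g w t : ℕ) : ℝ) * (1 + a) + (lightSet G g {w}).ncard * M := by
  classical
  have hout : ∑ u, (if G.Adj w u ∧ g u = none then z u else 0) ≤
      (lightSet G g {w}).ncard * M := by
    refine ItemBDU.one G (lightSet G g {w}) (fun u => g u = none) z hz0 M hM hM0 w
      (fun u hA hQ => ⟨hA, u, by simp, hQ, ?_⟩)
    rw [Finset.mem_singleton]
    exact hA.ne'
  have hs : ((∑ t, nbn G g w t : ℕ) : ℝ) = ∑ v, (if g v = none then 0 else adj G w v) := by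
    push_cast
    rw [Finset.sum_congr rfl fun t _ => ItemKW3.nbn_eq G g w t, Finset.sum_comm]
    refine Finset.sum_congr rfl fun v _ => ?_
    rw [ItemKW3.sum_cls]
  constructor
  · rw [hs, Finset.sum_mul, ← hze w]
    refine Finset.sum_le_sum fun u _ => ?_
    unfold adj
    by_cases hA : G.Adj w u
    · by_cases hu : g u = none
      · simp [hA, hu, hz0 u]
      · have h1 := (abs_le.1 (hcore u hu)).1
        rw [if_pos hA, if_neg hu]
        linarith
    · rw [if_neg hA]
      split_ifs <;> simp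
  · refine le_trans ?_ (add_le_add_right hout _)
    rw [hs, Finset.sum_mul, ← hze w, ← Finset.sum_add_distrib]
    refine Finset.sum_le_sum fun u _ => ?_
    unfold adj
    by_cases hA : G.Adj w u
    · by_cases hu : g u = none
      · simp [hA, hu]
      · have h1 := (abs_le.1 (hcore u hu)).2
        rw [if_pos hA, if_neg hu, if_neg (fun h => hu h.2)]
        linarith
    · have h2 : ¬ (G.Adj w u ∧ g u = none) := fun h => hA h.1
      rw [if_neg hA, if_neg h2]
      simp

end ItemQEG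

open ItemQEG in
theorem prfQEG : P_statement → FLB_statement → TCG_statement → EQG_statement →
    QEG_statement := by
  classical
  intro _ hFLB hTCG hEQG W _ F r N hr
  obtain ⟨C, n₁, hC, hF⟩ := hFLB r N hr
  have hN0 : (0 : ℝ) ≤ N := Nat.cast_nonneg N
  have hNC : 0 ≤ N * C := mul_nonneg hN0 hC
  obtain ⟨A, hA⟩ : ∃ A : ℝ, A = C + 3 * N + N * C + 2 := ⟨_, rfl⟩
  have hA1 : 1 ≤ A := by linarith
  obtain ⟨B, hB⟩ : ∃ B : ℝ, B = 2 * N * C + 2 * N * (2 * N + N * C) := ⟨_, rfl⟩
  have hB0 : 0 ≤ B := by rw [hB]; positivity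
  have hr3 : (3 : ℝ) ≤ r := by exact_mod_cast hr
  have hr0 : (0 : ℝ) < r := by linarith
  obtain ⟨N', hN'⟩ : ∃ N' : ℕ, N' = 2 * N + Fintype.card W + ⌈B⌉₊ + 5 := ⟨_, rfl⟩
  refine ⟨N', max n₁ ⌈1000 * A⌉₊, ?_⟩
  intro V _ G g w n m hn hMx hBd hcase s t hs ht
  have hnn₁ : n₁ ≤ n := le_trans (le_max_left _ _) hn
  have hnA : 1000 * A ≤ n :=
    le_trans (Nat.le_ceil _) (by exact_mod_cast le_trans (le_max_right _ _) hn)
  have hn0 : (0 : ℝ) < n := by linarith
  have hn1 : (1 : ℝ) ≤ n := by linarith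
  -- the Perron vector
  obtain ⟨⟨z, hz⟩, hzall⟩ := hF V G g w n hnn₁ hBd
  obtain ⟨hz1, hz2, hz3, hz4⟩ := hzall z hz
  obtain ⟨htc1, htc2⟩ := hTCG r V G z g n hBd.indep hz
  have hz0 := hz.nonneg
  have hw := hBd.out
  have ha0 : (0 : ℝ) ≤ (missSet G g).ncard := Nat.cast_nonneg _
  have hb0 : (0 : ℝ) ≤ (lightSet G g {w}).ncard := Nat.cast_nonneg _
  have hd0 := ItemUB1.dev_nonneg (siz g)
  have hbnd := hBd.bnd
  have hCn : C / n ≤ 1 / 1000 := by
    rw [div_le_iff₀ hn0]
    linarith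
  have hCn0 : 0 ≤ C / n := by positivity
  -- the sizes
  have hsum : ∑ t, (siz g t : ℝ) = n := by
    rw [← hBd.tot]
    push_cast
    rfl
  have hq1 : 2 / 3 ≤ qq r := by
    unfold qq
    have : 1 / (r : ℝ) ≤ 1 / 3 := one_div_le_one_div_of_le (by norm_num) hr3
    linarith
  have hq3 : qq r ≤ 1 := by
    unfold qq
    have : 0 ≤ 1 / (r : ℝ) := by positivity
    linarith
  have hq2 : 2 / 3 * (n : ℝ) ≤ qq r * n := mul_le_mul_of_nonneg_right hq1 hn0.le
  have hq4 : qq r * n ≤ 1 * n := mul_le_mul_of_nonneg_right hq3 hn0.le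
  have hl' := abs_le.1 hz4
  have hl1 : 2 / 3 * (n : ℝ) - A ≤ lam G := by linarith [hl'.1]
  have hl2 : lam G ≤ n + A := by linarith [hl'.2]
  have hl0 : 0 < lam G := by linarith
  have hsz : ∀ t, (siz g t : ℝ) ≤ n / 3 + A := by
    intro t
    have h5 := ItemUB1.abs_le_sqrt_dev (siz g) t
    rw [hsum] at h5
    have h4 : |(siz g t : ℝ) - n / r| ≤ N + 1 := by
      refine h5.trans ?_
      rw [Real.sqrt_le_left (by positivity)]
      have e : ((N : ℝ) + 1) ^ 2 = N ^ 2 + 2 * N + 1 := by ring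
      have e2 : 0 ≤ (N : ℝ) ^ 2 := sq_nonneg _
      rw [e]
      linarith
    have h6 : (n : ℝ) / r ≤ n / 3 := div_le_div_of_nonneg_left hn0.le (by norm_num) hr3
    linarith [(abs_le.1 h4).2]
  -- the number of the neighbours
  obtain ⟨D, hD⟩ : ∃ D : ℝ, D = ((∑ t, nbn G g w t : ℕ) : ℝ) := ⟨_, rfl⟩
  have hDn : D ≤ n := by
    rw [hD, ← hsum]
    push_cast
    refine Finset.sum_le_sum fun t _ => ?_
    have : nbn G g w t ≤ siz g t := Set.ncard_le_ncard (fun v hv => hv.1) (Set.toFinite _)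
    exact_mod_cast this
  have hD1 : 1 ≤ D := by
    have h1 : nbn G g w s ≤ ∑ t, nbn G g w t :=
      Finset.single_le_sum (f := fun t => nbn G g w t) (fun _ _ => Nat.zero_le _)
        (Finset.mem_univ s)
    have h2 : 1 ≤ ∑ t, nbn G g w t := by omega
    rw [hD]
    exact_mod_cast h2
  -- the vertex `w`
  have hM3 : ∀ v, z v ≤ 3 := by
    intro v
    by_cases hv : g v = none
    · by_cases hvw : v = w
      · subst hvw
        refine hz3.trans ?_
        rw [div_le_iff₀ hn0, ← hD]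
        linarith
      · exact (hz2 v hv hvw).trans (by linarith)
    · linarith [(abs_le.1 (hz1 v hv)).2]
  obtain ⟨hw1, hw2⟩ := eqw G g (w := w) z hz0 (lam G) (C / n) 3 (by norm_num) hM3 hz.eig hz1
  rw [← hD] at hw1 hw2
  have hDC : D * (C / n) ≤ C := by
    have h2 : D * (C / n) ≤ n * (C / n) := mul_le_mul_of_nonneg_right hDn hCn0
    rwa [mul_div_cancel₀ C hn0.ne'] at h2
  have hwu : lam G * z w ≤ n + A := by linarith
  have hwl : D ≤ 2 * n * z w := by
    have h1 : D * (1 - C / n) ≤ (n + A) * z w :=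
      hw1.trans (mul_le_mul_of_nonneg_right hl2 (hz0 w))
    have h2 : (n + A) * z w ≤ (1001 / 1000 * n) * z w :=
      mul_le_mul_of_nonneg_right (by linarith) (hz0 w)
    have h3 : D * (999 / 1000) ≤ D * (1 - C / n) :=
      mul_le_mul_of_nonneg_left (by linarith) (by linarith)
    have h4 : 0 ≤ (n : ℝ) * z w := mul_nonneg hn0.le (hz0 w)
    have e1 : (1001 / 1000 * (n : ℝ)) * z w = 1001 / 1000 * (n * z w) := by ring
    have e2 : 2 * (n : ℝ) * z w = 2 * (n * z w) := by ring
    rw [e1] at h2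
    rw [e2]
    linarith
  have hzw : 0 < z w := by
    by_contra hc
    have : z w = 0 := le_antisymm (not_lt.1 hc) (hz0 w)
    rw [this] at hwl
    linarith
  -- the unclean vertices
  have hunc : {v | g v ≠ none ∧ ¬ Cln G g w v}.ncard ≤ 2 * N := by
    refine (unclean G g hw).trans ?_
    have h1 : ((missSet G g).ncard : ℝ) + (lightSet G g {w}).ncard ≤ N := by linarith
    have h2 : (missSet G g).ncard + (lightSet G g {w}).ncard ≤ N := by exact_mod_cast h1
    omega
  -- the first order condition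
  have hkey : s ≠ t → nbn G g w t + 2 * N < siz g t →
      tv g z n t - tv g z n s ≤ z w / lam G := by
    intro hst hlt
    have h1 := clean_non G g w t
    have h2 := clean_nbr G g w s
    have h3 := clean_nbr G g w t
    have h4 : 0 < {c | Cln G g w c ∧ g c = some t ∧ ¬ G.Adj w c}.ncard := by omega
    obtain ⟨y', hy'1, hy'2, hy'3⟩ := (Set.ncard_pos (Set.toFinite _)).1 h4
    have h5 : 1 < {c | Cln G g w c ∧ g c = some s ∧ G.Adj w c}.ncard := by omega
    obtain ⟨y, hy, c, hc, hyc⟩ := (Set.one_lt_ncard (Set.toFinite _)).1 h5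
    have h6 : Fintype.card W ≤ {c | Cln G g w c ∧ g c = g y' ∧ G.Adj w c}.ncard := by
      rw [hy'2]
      omega
    refine hEQG W F r m V G z g w y y' s t n hMx hBd.indep hz hl0 hzw hy.1 hy'1 hst hy.2.1 hy'2
      (by rw [hw]; simp) hy.2.2 hy'3 h6 ⟨c, hyc.symm, hc.1, ?_, hc.2.2⟩
    rw [hc.2.1, hy.2.1]
  -- the weights
  have hO := fun t => cw_omv G g hw z hz0 (C / n) hCn0 hz2 t
  have hMu := fun t => cw_muv G g z hz0 2 (by norm_num)
    (fun v hv => by linarith [(abs_le.1 (hz1 v hv)).2]) t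
  have hlC : (lightSet G g {w}).ncard * (C / n) ≤ N * C / n := by
    rw [mul_div_assoc]
    exact mul_le_mul_of_nonneg_right (by linarith) hCn0
  have hNCn : N * C / n ≤ N * C := div_le_self hNC hn1
  have hceil := Nat.le_ceil B
  constructor
  · intro hss
    by_contra hlt
    rw [not_le] at hlt
    have hst : s ≠ t := by
      rintro rfl
      omega
    have hns : nbn G g w s ≤ siz g s := Set.ncard_le_ncard (fun v hv => hv.1) (Set.toFinite _)
    have hk := hkey hst (by omega)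
    have hts := htc2 s
    have htt := htc2 t
    rw [hss] at hts
    have h1 := numA hl0 (by linarith [hsz t]) (Nat.cast_nonneg (siz g t)) (hz0 w)
      ((hO t).2.trans (by linarith : _ ≤ (nbn G g w t : ℝ) * z w + N * C / n)) (hO s).1
      (hMu t).1 hts htt hk
    have h2 : B + 5 ≤ (nbn G g w s : ℝ) - nbn G g w t := by
      have h3 : nbn G g w t + (⌈B⌉₊ + 5) ≤ nbn G g w s := by omega
      have h4 : ((nbn G g w t + (⌈B⌉₊ + 5) : ℕ) : ℝ) ≤ nbn G g w s := by exact_mod_cast h3
      push_cast at h4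
      linarith
    obtain ⟨x, hx⟩ : ∃ x : ℝ, x = (nbn G g w s : ℝ) - nbn G g w t - 2 := ⟨_, rfl⟩
    rw [← hx] at h1
    have hx1 : B + 3 ≤ x := by linarith
    have hx0 : 0 ≤ x := by linarith
    rcases hcase with hc | hc
    · have h3 : cw (fun v => muv G g z v) g (some s) ≤ 0 := by
        have := (hMu s).2
        rw [hc] at this
        simpa using this
      have h4 : x * z w ≤ N * C / n := by linarith
      rw [le_div_iff₀ hn0] at h4
      have h5 : x * 1 ≤ x * (2 * n * z w) := mul_le_mul_of_nonneg_left (hD1.trans hwl) hx0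
      have h6 : x * (2 * n * z w) = 2 * (x * z w * n) := by ring
      have h7 : 0 ≤ 2 * N * (2 * N + N * C) := by positivity
      linarith
    · have h3 : cw (fun v => muv G g z v) g (some s) ≤ 2 * N := by
        have := (hMu s).2
        linarith
      have h4 : x * z w ≤ 2 * N + N * C := by linarith
      have h5 : (n : ℝ) ≤ N * D := by
        rw [hD]
        exact_mod_cast hc
      have h6 : (n : ℝ) * 1 ≤ n * (2 * N * z w) := by
        have : N * D ≤ N * (2 * n * z w) := mul_le_mul_of_nonneg_left hwl hN0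
        linarith
      have h7 : 1 ≤ 2 * N * z w := le_of_mul_le_mul_left h6 hn0
      have h8 : x * 1 ≤ x * (2 * N * z w) := mul_le_mul_of_nonneg_left h7 hx0
      have h9 : 2 * N * (x * z w) ≤ 2 * N * (2 * N + N * C) :=
        mul_le_mul_of_nonneg_left h4 (by positivity)
      have h10 : 0 ≤ 2 * N * C := by positivity
      linarith
  · intro hss
    by_contra hlt
    rw [not_le] at hlt
    have hst : s ≠ t := by
      rintro rfl
      omega
    have hk := hkey hst (by omega)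
    have h1 : (siz g t : ℝ) + 1 ≤ siz g s := by exact_mod_cast hss
    have h2 : (nbn G g w t : ℝ) ≤ siz g t := by
      have : nbn G g w t ≤ siz g t := by omega
      exact_mod_cast this
    refine numB hA1 hnA hl1 hl2 (hsz s) (hsz t) (Nat.cast_nonneg _) h1 (hz0 w) hwu ?_ ?_
      (hMu t).1 ?_ (htc2 s) (htc2 t) hk
    · have := mul_le_mul_of_nonneg_right h2 (hz0 w)
      linarith [(hO t).2]
    · exact le_trans (mul_nonneg (Nat.cast_nonneg _) (hz0 w)) (hO s).1
    · linarith [(hMu s).2]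

end MP0c3a8f

end

section

/-!
# MP_0c3a8f_co, PB11, item QEH: the neighbours of the special vertex, complete core
-/

set_option autoImplicit false

open Finset

namespace MP0c3a8f

namespace ItemQEH

section graphs

variable {V : Type} [Fintype V] {r : ℕ}

theorem sum_ite_ncard (P : V → Prop) [DecidablePred P] (c : ℝ) :
    (∑ y, if P y then c else 0) = ({y | P y}.ncard : ℝ) * c := by
  rw [← Finset.sum_filter, Finset.sum_const, nsmul_eq_mul]
  congr 2
  rw [Set.ncard_eq_toFinset_card' {y | P y}]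
  congr 1
  ext y
  simp

/-- light vertices different from `w` have small weight -/
theorem light_z {G : SimpleGraph V} {g : V → Option (Fin r)} {w u : V} {z : V → ℝ} {l : ℝ} {N : ℕ}
    (hz2 : ∀ v, z v ≤ 2) (heig : ∑ v, adj G u v * z v = l * z u) (hgu : g u = none)
    (huw : u ≠ w) (hN : (lightSet G g {w}).ncard ≤ N) : l * z u ≤ 2 * N := by
  classical
  have h1 := ItemFLU.cnt (lightSet G g {w}) (fun a b => a = u ∧ G.Adj u b)
    (by
      rintro a b ⟨rfl, hab⟩
      exact ⟨hab, a, Sym2.mem_mk_left _ _, hgu, by simpa using huw⟩)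
    (by
      rintro a b ⟨rfl, hab⟩ ⟨h, -⟩
      rw [h] at hab
      exact G.loopless.irrefl _ hab) z 2 (fun a b _ => hz2 b) (by norm_num)
  have h2 : ∑ a, ∑ b, (if a = u ∧ G.Adj u b then z b else 0) = ∑ v, adj G u v * z v := by
    rw [Finset.sum_eq_single u]
    · refine Finset.sum_congr rfl fun b _ => ?_
      unfold adj
      by_cases hb : G.Adj u b
      · simp [hb]
      · simp [hb]
    · intro a _ ha
      refine Finset.sum_eq_zero fun b _ => ?_
      rw [if_neg]
      rintro ⟨h, -⟩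
      exact ha h
    · intro h
      exact absurd (Finset.mem_univ u) h
  rw [h2, heig] at h1
  have h3 : ((lightSet G g {w}).ncard : ℝ) ≤ N := by exact_mod_cast hN
  linarith

/-- the weight of the light neighbours of the vertices of a class -/
theorem omv_sum {G : SimpleGraph V} {g : V → Option (Fin r)} {w : V} {z : V → ℝ} {Z : ℝ} {N : ℕ}
    (hz0 : ∀ v, 0 ≤ z v) (hgw : g w = none) (hZ0 : 0 ≤ Z)
    (hZ : ∀ u, g u = none → u ≠ w → z u ≤ Z) (hN : (lightSet G g {w}).ncard ≤ N) (t : Fin r) :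
    (nbn G g w t : ℝ) * z w ≤ cw (fun v => omv G g z v) g (some t) ∧
      cw (fun v => omv G g z v) g (some t) ≤ (nbn G g w t : ℝ) * z w + N * Z := by
  classical
  have e1 : cw (fun v => omv G g z v) g (some t) = (nbn G g w t : ℝ) * z w +
      ∑ i, ∑ u, (if g i = some t ∧ g u = none ∧ u ≠ w ∧ G.Adj i u then z u else 0) := by
    have e2 : (nbn G g w t : ℝ) * z w =
        ∑ i, ∑ u, (if u = w then (if g i = some t ∧ G.Adj w i then z w else 0) else 0) := by
      unfold nbn
      rw [← sum_ite_ncard (fun v => g v = some t ∧ G.Adj w v) (z w)]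
      refine Finset.sum_congr rfl fun i _ => ?_
      rw [Finset.sum_ite_eq' Finset.univ w]
      simp
    rw [e2, ← Finset.sum_add_distrib]
    unfold cw omv
    refine Finset.sum_congr rfl fun i _ => ?_
    rw [← Finset.sum_add_distrib]
    by_cases hi : g i = some t
    · rw [if_pos hi]
      refine Finset.sum_congr rfl fun u _ => ?_
      by_cases hu : u = w
      · subst hu
        by_cases ha : G.Adj u i
        · simp [hgw, hi, ha, ha.symm]
        · have ha' : ¬ G.Adj i u := fun h => ha h.symm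
          simp [hgw, hi, ha, ha']
      · by_cases hgu : g u = none
        · by_cases ha : G.Adj i u
          · simp [hgu, hi, ha, hu]
          · simp [hgu, hi, ha, hu]
        · simp [hgu, hi, hu]
    · rw [if_neg hi]
      symm
      refine Finset.sum_eq_zero fun u _ => ?_
      simp [hi]
  have h0 : 0 ≤ ∑ i, ∑ u, (if g i = some t ∧ g u = none ∧ u ≠ w ∧ G.Adj i u then z u else 0) := by
    refine Finset.sum_nonneg fun i _ => Finset.sum_nonneg fun u _ => ?_
    split_ifs
    · exact hz0 u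
    · exact le_rfl
  have h1 := ItemFLU.cnt (lightSet G g {w})
    (fun i u => g i = some t ∧ g u = none ∧ u ≠ w ∧ G.Adj i u)
    (by
      rintro a b ⟨-, hb, hbw, hab⟩
      exact ⟨hab, b, Sym2.mem_mk_right _ _, hb, by simpa using hbw⟩)
    (by
      rintro a b ⟨ha, hb, -, -⟩ ⟨hb', -, -, -⟩
      rw [hb] at hb'
      exact absurd hb' (by simp)) z Z (fun a b h => hZ b h.2.1 h.2.2.1) hZ0
  have h2 : ((lightSet G g {w}).ncard : ℝ) * Z ≤ N * Z :=
    mul_le_mul_of_nonneg_right (by exact_mod_cast hN) hZ0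
  constructor
  · rw [e1]
    linarith
  · rw [e1]
    linarith

/-- the number of the vertices of a class which are not clean -/
theorem not_clean {G : SimpleGraph V} {g : V → Option (Fin r)} {w : V} {N : ℕ}
    (hm : missSet G g = ∅) (hgw : g w = none) (hN : (lightSet G g {w}).ncard ≤ N) (t : Fin r) :
    {v | g v = some t ∧ ¬ Cln G g w v}.ncard ≤ N := by
  classical
  have h1 : ∀ v, ∃ u, g v = some t → ¬ Cln G g w v → u ≠ w ∧ g u = none ∧ G.Adj v u := by
    intro v
    by_cases h : g v = some t ∧ ¬ Cln G g w v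
    · obtain ⟨hv, hc⟩ := h
      by_contra hcon
      push Not at hcon
      apply hc
      refine ⟨?_, ?_, ?_, ?_⟩
      · rintro rfl
        rw [hgw] at hv
        exact absurd hv (by simp)
      · rw [hv]
        simp
      · intro u hu hgu hne
        by_contra hadj
        have h3 : s(v, u) ∈ missSet G g := ⟨v, u, rfl, by rw [hv]; simp, hgu, hne.symm, hadj⟩
        rw [hm] at h3
        exact h3
      · intro u hu hgu hadj
        obtain ⟨-, -, h3⟩ := hcon u
        exact h3 hu hgu hadj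
    · exact ⟨v, fun h1 h2 => absurd ⟨h1, h2⟩ h⟩
  choose φ hφ using h1
  refine le_trans ?_ hN
  refine Set.ncard_le_ncard_of_injOn (fun v => s(v, φ v)) ?_ ?_ (Set.toFinite _)
  · rintro v ⟨hv, hc⟩
    obtain ⟨h1, h2, h3⟩ := hφ v hv hc
    exact ⟨h3, φ v, Sym2.mem_mk_right _ _, h2, by simpa using h1⟩
  · rintro v ⟨hv, hc⟩ v' ⟨hv', hc'⟩ heq
    rcases Sym2.eq_iff.1 heq with ⟨h3, -⟩ | ⟨h3, -⟩
    · exact h3
    · exfalso
      have h4 := (hφ v' hv' hc').2.1
      rw [← h3, hv] at h4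
      exact absurd h4 (by simp)

theorem nbn_le_out {G : SimpleGraph V} {g : V → Option (Fin r)} {w : V} (hgw : g w = none)
    (t : Fin r) : nbn G g w t ≤ (outSet G g).ncard := by
  unfold nbn
  refine Set.ncard_le_ncard_of_injOn (fun v => s(w, v)) ?_ ?_ (Set.toFinite _)
  · rintro v ⟨-, hv⟩
    exact ⟨hv, w, Sym2.mem_mk_left _ _, hgw⟩
  · rintro v ⟨hv, hc⟩ v' ⟨hv', hc'⟩ heq
    rcases Sym2.eq_iff.1 heq with ⟨-, h3⟩ | ⟨h3, h4⟩
    · exact h3
    · rw [h4, ← h3]

omit [Fintype V] in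
theorem siz_le {g : V → Option (Fin r)} {n : ℕ} (hn : ∑ t, siz g t = n) (t : Fin r) :
    siz g t ≤ n := by
  rw [← hn]
  exact Finset.single_le_sum (f := fun t => siz g t) (fun _ _ => Nat.zero_le _)
    (Finset.mem_univ t)

omit [Fintype V] in
theorem siz_low {g : V → Option (Fin r)} {n : ℕ} {C : ℝ} (hn : ∑ t, siz g t = n)
    (hdev : dev (siz g) ≤ C * n) (t : Fin r) :
    (n : ℝ) / r - Real.sqrt (C * n) ≤ siz g t := by
  have h1 : ∑ s, ((siz g s : ℕ) : ℝ) = n := by
    rw [← hn]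
    push_cast
    rfl
  have h2 : ((siz g t : ℝ) - n / r) ^ 2 ≤ dev (siz g) := by
    unfold dev
    rw [h1]
    exact single_le_sum (f := fun t => ((siz g t : ℝ) - n / r) ^ 2)
      (fun _ _ => sq_nonneg _) (mem_univ t)
  have h3 := Real.abs_le_sqrt (h2.trans hdev)
  have h4 := (abs_le.1 h3).1
  linarith

/-- the vertices which are needed -/
theorem pick {G : SimpleGraph V} {g : V → Option (Fin r)} {w : V} {N K : ℕ}
    (hm : missSet G g = ∅) (hgw : g w = none) (hN : (lightSet G g {w}).ncard ≤ N) (s t : Fin r)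
    (hs : N + 2 ≤ nbn G g w s) (ht : N + K ≤ nbn G g w t) (hbig : nbn G g w t + N < siz g t) :
    ∃ y y', Cln G g w y ∧ Cln G g w y' ∧ g y = some s ∧ g y' = some t ∧ G.Adj w y ∧
      ¬ G.Adj w y' ∧ K ≤ {c | Cln G g w c ∧ g c = g y' ∧ G.Adj w c}.ncard ∧
      ∃ c, c ≠ y ∧ Cln G g w c ∧ g c = g y ∧ G.Adj w c := by
  classical
  have hcount : ∀ t : Fin r, nbn G g w t ≤
      {c | Cln G g w c ∧ g c = some t ∧ G.Adj w c}.ncard + N := by
    intro t
    have h1 : {v | g v = some t ∧ G.Adj w v} ⊆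
        {c | Cln G g w c ∧ g c = some t ∧ G.Adj w c} ∪ {v | g v = some t ∧ ¬ Cln G g w v} := by
      rintro v ⟨h1, h2⟩
      by_cases hc : Cln G g w v
      · exact Or.inl ⟨hc, h1, h2⟩
      · exact Or.inr ⟨h1, hc⟩
    have h2 := (Set.ncard_le_ncard h1 (Set.toFinite _)).trans (Set.ncard_union_le _ _)
    have h3 := not_clean hm hgw hN t
    unfold nbn
    omega
  have h1 : 1 < {c | Cln G g w c ∧ g c = some s ∧ G.Adj w c}.ncard := by
    have := hcount s
    omega
  obtain ⟨y, hy, c, hc, hyc⟩ := (Set.one_lt_ncard (Set.toFinite _)).1 h1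
  have h2 : {v | g v = some t} ⊆ {v | g v = some t ∧ G.Adj w v} ∪
      {v | g v = some t ∧ ¬ Cln G g w v} ∪ {v | g v = some t ∧ ¬ G.Adj w v ∧ Cln G g w v} := by
    intro v hv
    by_cases ha : G.Adj w v
    · exact Or.inl (Or.inl ⟨hv, ha⟩)
    · by_cases hc : Cln G g w v
      · exact Or.inr ⟨hv, ha, hc⟩
      · exact Or.inl (Or.inr ⟨hv, hc⟩)
  have h3 : 0 < {v | g v = some t ∧ ¬ G.Adj w v ∧ Cln G g w v}.ncard := by
    have h4 := Set.ncard_le_ncard h2 (Set.toFinite _)
    have h5 := Set.ncard_union_le ({v | g v = some t ∧ G.Adj w v} ∪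
      {v | g v = some t ∧ ¬ Cln G g w v}) {v | g v = some t ∧ ¬ G.Adj w v ∧ Cln G g w v}
    have h6 := Set.ncard_union_le {v | g v = some t ∧ G.Adj w v}
      {v | g v = some t ∧ ¬ Cln G g w v}
    have h7 := not_clean hm hgw hN t
    unfold siz nbn at hbig
    omega
  obtain ⟨y', hy'⟩ := (Set.ncard_pos (Set.toFinite _)).1 h3
  refine ⟨y, y', hy.1, hy'.2.2, hy.2.1, hy'.1, hy.2.2, hy'.2.1, ?_, c, hyc.symm, hc.1, ?_, hc.2.2⟩
  · rw [hy'.1]
    have := hcount t
    omega
  · rw [hy.2.1, hc.2.1]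

end graphs

section num

theorem num1 {l n σs σt Ts Tt Os Ot x : ℝ} (hn : 8 ≤ n) (hl : n / 2 ≤ l) (hl2 : l ≤ n)
    (hs0 : 0 ≤ σs) (hs : σs ≤ n) (ht0 : 0 ≤ σt) (ht : σt ≤ n) (hOs : 0 ≤ Os) (hOt : Ot ≤ 1)
    (es : (l + σs) * Ts = l * n - Os) (et : (l + σt) * Tt = l * n - Ot) (hst : σt + 1 ≤ σs)
    (hx : Tt - Ts ≤ x) (hx2 : x < 1 / 16) : False := by
  have hl0 : 0 < l := by linarith
  have h1 : (l + σt) * (l + σs) * (Tt - Ts) =
      l * n * (σs - σt) - Ot * (l + σs) + Os * (l + σt) := by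
    linear_combination (l + σs) * et - (l + σt) * es
  have h2 : l * n ≤ l * n * (σs - σt) := by
    have := mul_le_mul_of_nonneg_left (show (1 : ℝ) ≤ σs - σt by linarith)
      (mul_nonneg hl0.le (show (0 : ℝ) ≤ n by linarith))
    linarith
  have h3 : Ot * (l + σs) ≤ 1 * (l + σs) := mul_le_mul_of_nonneg_right hOt (by linarith)
  have h4 : 0 ≤ Os * (l + σt) := mul_nonneg hOs (by linarith)
  have h5 : n ^ 2 / 2 ≤ l * n := by nlinarith
  have h6 : n ^ 2 / 4 ≤ (l + σt) * (l + σs) * (Tt - Ts) := by nlinarith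
  have hpos : 0 < (l + σt) * (l + σs) := mul_pos (by linarith) (by linarith)
  have h7 : (l + σt) * (l + σs) * (Tt - Ts) < (l + σt) * (l + σs) * (1 / 16) :=
    mul_lt_mul_of_pos_left (by linarith) hpos
  have h8 : (l + σt) * (l + σs) ≤ (2 * n) * (2 * n) :=
    mul_le_mul (by linarith) (by linarith) (by linarith) (by linarith)
  nlinarith

theorem num2 {l n σ Ts Tt Os Ot z ds dt P N : ℝ} (hn : 8 ≤ n) (hl : n / 2 ≤ l)
    (hs0 : 0 ≤ σ) (hs : σ ≤ n) (es : (l + σ) * Ts = l * n - Os) (et : (l + σ) * Tt = l * n - Ot)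
    (hx : Tt - Ts ≤ z / l) (hz : 1 / (2 * n) ≤ z) (hOs : ds * z ≤ Os) (hOt : Ot ≤ dt * z + P)
    (hP : P ≤ 4 * N ^ 2 / n) : ds ≤ dt + (3 + 8 * N ^ 2) := by
  have hn0 : 0 < n := by linarith
  have hl0 : 0 < l := by linarith
  have hz0 : 0 < z := lt_of_lt_of_le (by positivity) hz
  have h1 : (l + σ) * (Tt - Ts) = Os - Ot := by linear_combination et - es
  have h2 : (l + σ) * (Tt - Ts) ≤ (l + σ) * (z / l) :=
    mul_le_mul_of_nonneg_left hx (by linarith)
  have h3 : (l + σ) * (z / l) ≤ 3 * z := by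
    rw [← mul_div_assoc, div_le_iff₀ hl0]
    have : (l + σ) * z ≤ (3 * l) * z := mul_le_mul_of_nonneg_right (by linarith) hz0.le
    linarith
  have h4 : 4 * N ^ 2 / n ≤ 8 * N ^ 2 * z := by
    have h5 : 8 * N ^ 2 * (1 / (2 * n)) ≤ 8 * N ^ 2 * z :=
      mul_le_mul_of_nonneg_left hz (by positivity)
    have h6 : 8 * N ^ 2 * (1 / (2 * n)) = 4 * N ^ 2 / n := by
      field_simp
      ring
    linarith
  have h7 : ds * z ≤ (dt + (3 + 8 * N ^ 2)) * z := by nlinarith
  exact le_of_mul_le_mul_right h7 hz0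

/-- the numerical conditions -/
theorem cond {K C C' N r h n : ℝ} (hK : K = C + C' + N + r + 1) (hC : 0 ≤ C) (hC' : 0 ≤ C')
    (hN : 0 ≤ N) (hr : 3 ≤ r) (hh : 16 * K ^ 2 ≤ h) (hn : h ^ 4 = n) :
    C' / h ^ 2 ≤ 1 / 2 ∧ C' * h ≤ n / 6 ∧ C' * h ≤ n / r ∧
      C * h + N < n / r - Real.sqrt C * h ^ 2 ∧ C * h * (C' * h / n) ≤ 1 / 2 ∧
      4 * N ^ 2 / n ≤ 1 / 2 ∧ 8 ≤ n ∧ C' * h / n ≤ 1 ∧ C' * h / n / (n / 2) < 1 / 16 := by
  have hK4 : 4 ≤ K := by linarith
  have hK2 : K ≤ K ^ 2 := by nlinarith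
  have h16 : 16 * K ≤ h := by linarith
  have h64 : 64 ≤ h := by linarith
  have h0 : 0 < h := by linarith
  have hn0 : 0 < n := by rw [← hn]; positivity
  have hr0 : 0 < r := by linarith
  have hCK : C ≤ K := by linarith
  have hC'K : C' ≤ K := by linarith
  have hNK : N ≤ K := by linarith
  have hrK : r ≤ K := by linarith
  have hp2 : h ≤ h ^ 2 := by nlinarith
  have hp3 : h ^ 2 ≤ h ^ 3 := by nlinarith [sq_nonneg h]
  have hp4 : h ^ 3 * (16 * K ^ 2) ≤ n := by
    rw [← hn]
    have : h ^ 3 * (16 * K ^ 2) ≤ h ^ 3 * h := mul_le_mul_of_nonneg_left hh (by positivity)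
    calc h ^ 3 * (16 * K ^ 2) ≤ h ^ 3 * h := this
      _ = h ^ 4 := by ring
  have hp31 : 1 ≤ h ^ 3 := by nlinarith
  have hKh : K * h ≤ h ^ 3 * K ^ 2 := by
    have h1 : K * h ≤ K ^ 2 * h ^ 3 :=
      mul_le_mul hK2 (hp2.trans hp3) h0.le (by positivity)
    linarith
  have hC'h : C' * h ≤ K * h := mul_le_mul_of_nonneg_right hC'K h0.le
  have hCh : C * h ≤ K * h := mul_le_mul_of_nonneg_right hCK h0.le
  have hpos : 0 ≤ h ^ 3 * K ^ 2 := by positivity
  have c2 : C' * h ≤ n / 6 := by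
    rw [le_div_iff₀ (by norm_num)]
    nlinarith
  have c1 : C' / h ^ 2 ≤ 1 / 2 := by
    rw [div_le_iff₀ (by positivity)]
    nlinarith
  have c3 : C' * h ≤ n / r := by
    rw [le_div_iff₀ hr0]
    have h1 : C' * h * r ≤ K * h * K := mul_le_mul hC'h hrK hr0.le (by positivity)
    have h2 : K * h * K ≤ h ^ 3 * K ^ 2 := by
      have : K ^ 2 * h ≤ K ^ 2 * h ^ 3 := mul_le_mul_of_nonneg_left (hp2.trans hp3) (by positivity)
      nlinarith
    linarith
  have c4 : C * h + N < n / r - Real.sqrt C * h ^ 2 := by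
    rw [lt_sub_iff_add_lt, lt_div_iff₀ hr0]
    have hsC : Real.sqrt C ≤ K := by
      have h1 : Real.sqrt C ≤ C + 1 := by
        rw [Real.sqrt_le_left (by linarith)]
        nlinarith
      linarith
    have h1 : C * h + N + Real.sqrt C * h ^ 2 ≤ 3 * (K * h ^ 3) := by
      have e1 : C * h ≤ K * h ^ 3 :=
        mul_le_mul hCK (hp2.trans hp3) h0.le (by linarith)
      have e2 : N ≤ K * h ^ 3 := by
        have : K * 1 ≤ K * h ^ 3 := mul_le_mul_of_nonneg_left hp31 (by linarith)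
        linarith
      have e3 : Real.sqrt C * h ^ 2 ≤ K * h ^ 3 :=
        mul_le_mul hsC hp3 (by positivity) (by linarith)
      linarith
    have h2 : (C * h + N + Real.sqrt C * h ^ 2) * r ≤ 3 * (K * h ^ 3) * K :=
      mul_le_mul h1 hrK hr0.le (by positivity)
    have h3 : 0 < h ^ 3 * K ^ 2 := by positivity
    nlinarith
  have c5 : C * h * (C' * h / n) ≤ 1 / 2 := by
    rw [← mul_div_assoc, div_le_iff₀ hn0]
    have h1 : C * h * (C' * h) ≤ K * h * (K * h) := mul_le_mul hCh hC'h (by positivity)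
      (by positivity)
    have h2 : K * h * (K * h) ≤ h ^ 3 * K ^ 2 := by
      have : K ^ 2 * h ^ 2 ≤ K ^ 2 * h ^ 3 := mul_le_mul_of_nonneg_left hp3 (by positivity)
      nlinarith
    linarith
  have c6 : 4 * N ^ 2 / n ≤ 1 / 2 := by
    rw [div_le_iff₀ hn0]
    have h1 : N ^ 2 ≤ K ^ 2 := pow_le_pow_left₀ hN hNK 2
    have h2 : K ^ 2 * 1 ≤ K ^ 2 * h ^ 3 := mul_le_mul_of_nonneg_left hp31 (by positivity)
    nlinarith
  have c7 : 8 ≤ n := by
    have : 1 * (16 * 1) ≤ h ^ 3 * (16 * K ^ 2) :=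
      mul_le_mul hp31 (by nlinarith) (by norm_num) (by positivity)
    linarith
  have c8 : C' * h / n ≤ 1 := by
    rw [div_le_iff₀ hn0]
    linarith
  have c9 : C' * h / n / (n / 2) < 1 / 16 := by
    rw [div_lt_iff₀ (by linarith)]
    have h1 : 16 ≤ n / 4 := by
      have h2 : 64 * (16 * 1) ≤ h ^ 3 * (16 * K ^ 2) :=
        mul_le_mul (by nlinarith) (by nlinarith) (by norm_num) (by positivity)
      linarith
    linarith
  exact ⟨c1, c2, c3, c4, c5, c6, c7, c8, c9⟩

end num

end ItemQEH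

open ItemQEH in
theorem prfQEH : P_statement → FLU_statement → TCG_statement → EQG_statement →
    QEH_statement := by
  classical
  intro _ hFLU hTCG hEQG W _ F r N C hr hC
  obtain ⟨C', n₁, hC', hF⟩ := hFLU r C hr hC
  obtain ⟨K, hK⟩ : ∃ K : ℝ, K = C + C' + N + r + 1 := ⟨_, rfl⟩
  obtain ⟨H, hH⟩ : ∃ H : ℝ, H = 16 * K ^ 2 := ⟨_, rfl⟩
  have hH0 : 0 ≤ H := by rw [hH]; positivity
  have hr3 : (3 : ℝ) ≤ r := by exact_mod_cast hr
  refine ⟨N + Fintype.card W + (3 + 8 * N ^ 2), max n₁ ⌈H ^ 4⌉₊, ?_⟩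
  intro V _ G g w n m hn hmax hNK hmiss hgw hlight s t hds hdt
  have hn1 : n₁ ≤ n := (le_max_left _ _).trans hn
  have hn2 : H ^ 4 ≤ n := (Nat.le_ceil _).trans (by exact_mod_cast (le_max_right _ _).trans hn)
  -- the fourth root
  obtain ⟨h, hhdef⟩ : ∃ h : ℝ, h = Real.sqrt (Real.sqrt n) := ⟨_, rfl⟩
  have hsq : h ^ 2 = Real.sqrt n := by
    rw [hhdef]
    exact Real.sq_sqrt (Real.sqrt_nonneg _)
  have hh4 : h ^ 4 = (n : ℝ) := by
    have : h ^ 4 = (h ^ 2) ^ 2 := by ring
    rw [this, hsq]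
    exact Real.sq_sqrt (Nat.cast_nonneg _)
  have hh0 : 0 ≤ h := by
    rw [hhdef]
    exact Real.sqrt_nonneg _
  have hHh : H ≤ h := by
    have : H ^ 4 ≤ h ^ 4 := by rw [hh4]; exact hn2
    exact le_of_pow_le_pow_left₀ (by norm_num) hh0 this
  obtain ⟨c1, c2, c3, c4, c5, c6, c7, c8, c9⟩ := cond (K := K) (C := C) (C' := C') (N := N)
    (r := r) (h := h) (n := n) hK hC hC' (Nat.cast_nonneg _) hr3 (hH ▸ hHh) hh4
  have hn0 : (0 : ℝ) < n := by linarith
  obtain ⟨⟨z, hz⟩, hzall⟩ := hF V G g n hn1 hNK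
  obtain ⟨z1, z2, z3, z4⟩ := hzall z hz
  rw [← hsq] at z1 z4
  rw [← hhdef] at z2 z3
  set l := lam G with hl
  -- bounds for lam
  have hqlo : (2 : ℝ) / 3 ≤ qq r := by
    unfold qq
    have : 1 / (r : ℝ) ≤ 1 / 3 := one_div_le_one_div_of_le (by norm_num) hr3
    linarith
  have hl1 : (n : ℝ) / 2 ≤ l := by
    have h1 := (abs_le.1 z3).1
    have h2 : 2 / 3 * (n : ℝ) ≤ qq r * n := mul_le_mul_of_nonneg_right hqlo hn0.le
    linarith
  have hl2 : l ≤ n := by
    have h1 := (abs_le.1 z3).2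
    have h2 : qq r * (n : ℝ) = n - n / r := by
      unfold qq
      ring
    linarith
  have hl0 : 0 < l := by linarith
  -- bounds for z
  have hzc : ∀ v, g v ≠ none → 1 / 2 ≤ z v ∧ z v ≤ 2 := by
    intro v hv
    have h1 := abs_le.1 (z1 v hv)
    constructor
    · linarith [h1.1]
    · linarith [h1.2]
  have hz2 : ∀ v, z v ≤ 2 := by
    intro v
    by_cases hv : g v = none
    · linarith [z2 v hv]
    · exact (hzc v hv).2
  -- the missing pairs
  have hmE : missSet G g = ∅ := (Set.ncard_eq_zero (Set.toFinite _)).1 hmiss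
  have hmuv : ∀ v, muv G g z v = 0 := by
    intro v
    unfold muv
    refine Finset.sum_eq_zero fun u _ => ?_
    rw [if_neg]
    rintro ⟨h1, h2, h3, h4⟩
    have h5 : s(v, u) ∈ missSet G g := ⟨v, u, rfl, h1, h2, h3.symm, h4⟩
    rw [hmE] at h5
    exact h5
  obtain ⟨-, hT⟩ := hTCG r V G z g n hNK.indep hz
  have hcm : ∀ t, cw (fun v => muv G g z v) g (some t) = 0 := by
    intro t
    unfold cw
    refine Finset.sum_eq_zero fun i _ => ?_
    split_ifs
    · exact hmuv i
    · rfl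
  have hT2 : ∀ t, (l + siz g t) * tv g z n t =
      l * n - cw (fun v => omv G g z v) g (some t) := by
    intro t
    rw [hT t, hcm t]
    ring
  -- the light neighbours
  have hlz : ∀ u, g u = none → u ≠ w → z u ≤ 4 * N / n := by
    intro u hu huw
    have h1 := light_z hz2 (hz.eig u) hu huw hlight
    rw [le_div_iff₀ hn0]
    have h2 : (n : ℝ) / 2 * z u ≤ l * z u := mul_le_mul_of_nonneg_right hl1 (hz.nonneg u)
    linarith
  have hO := fun t => omv_sum (G := G) (g := g) (w := w) (z := z) (Z := 4 * N / n) (N := N)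
    hz.nonneg hgw (by positivity) hlz hlight t
  have hNN : (N : ℝ) * (4 * N / n) = 4 * (N : ℝ) ^ 2 / n := by ring
  have hzw0 : 0 ≤ z w := hz.nonneg w
  have hzw1 : z w ≤ C' * h / n := z2 w hgw
  have hout : ((outSet G g).ncard : ℝ) ≤ C * h := by
    have h1 := hNK.few
    rw [← hhdef] at h1
    have h2 : (0 : ℝ) ≤ (missSet G g).ncard := Nat.cast_nonneg _
    linarith
  have hdle : ∀ t, (nbn G g w t : ℝ) ≤ C * h := by
    intro t
    have : (nbn G g w t : ℝ) ≤ (outSet G g).ncard := by exact_mod_cast nbn_le_out hgw t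
    linarith
  have hO1 : ∀ t, cw (fun v => omv G g z v) g (some t) ≤ 1 := by
    intro t
    have h1 := (hO t).2
    have h2 : (nbn G g w t : ℝ) * z w ≤ C * h * (C' * h / n) :=
      mul_le_mul (hdle t) hzw1 hzw0 (by positivity)
    rw [hNN] at h1
    linarith
  have hO0 : ∀ t, 0 ≤ cw (fun v => omv G g z v) g (some t) := by
    intro t
    exact (mul_nonneg (Nat.cast_nonneg _) hzw0).trans (hO t).1
  -- sizes
  have hszle : ∀ t, (siz g t : ℝ) ≤ n := by
    intro t
    exact_mod_cast siz_le hNK.tot t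
  have hbig : ∀ t, nbn G g w t + N < siz g t := by
    intro t
    have h1 := siz_low hNK.tot hNK.dev t
    have h2 : Real.sqrt (C * n) = Real.sqrt C * h ^ 2 := by
      rw [Real.sqrt_mul hC, hsq]
    rw [h2] at h1
    have h3 : (nbn G g w t : ℝ) + N < siz g t := by
      have := hdle t
      linarith
    exact_mod_cast h3
  -- the weight of `w`
  have hzw : 1 / (2 * (n : ℝ)) ≤ z w := by
    have h1 : 0 < nbn G g w s := by omega
    obtain ⟨y, hy⟩ := (Set.ncard_pos (Set.toFinite _)).1 h1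
    have h2 := (hzc y (by rw [hy.1]; simp)).1
    have h3 : z y ≤ ∑ u, adj G w u * z u := by
      have h4 : adj G w y * z y = z y := by
        unfold adj
        rw [if_pos hy.2, one_mul]
      rw [← h4]
      refine Finset.single_le_sum (f := fun u => adj G w u * z u) (fun u _ => ?_)
        (Finset.mem_univ y)
      refine mul_nonneg ?_ (hz.nonneg u)
      unfold adj
      split_ifs <;> norm_num
    rw [hz.eig w] at h3
    rw [div_le_iff₀ (by positivity)]
    have h4 : l * z w ≤ n * z w := mul_le_mul_of_nonneg_right hl2 hzw0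
    have h5 : lam G * z w = l * z w := rfl
    linarith
  have hzwp : 0 < z w := lt_of_lt_of_le (by positivity) hzw
  -- comparison of two classes
  have hcmp : ∀ a b : Fin r, a ≠ b → N + Fintype.card W + (3 + 8 * N ^ 2) ≤ nbn G g w a →
      N + Fintype.card W + (3 + 8 * N ^ 2) ≤ nbn G g w b →
      tv g z n b - tv g z n a ≤ z w / l := by
    intro a b hab ha hb
    obtain ⟨y, y', hy, hy', hya, hyb, hay, hay', hk, hc⟩ := pick (K := Fintype.card W) hmE hgw
      hlight a b (by omega) (by omega) (hbig b)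
    exact hEQG W F r m V G z g w y y' a b n hmax hNK.indep hz hl0 hzwp hy hy' hab hya hyb
      (by rw [hgw]; simp) hay hay' hk hc
  by_cases hst : s = t
  · subst hst
    exact ⟨rfl, Nat.le_add_right _ _⟩
  have hA := hcmp s t hst hds hdt
  have hB := hcmp t s (Ne.symm hst) hdt hds
  have hx : z w / l < 1 / 16 := by
    refine lt_of_le_of_lt ?_ c9
    exact div_le_div₀ (by positivity) hzw1 (by positivity) hl1
  have hsiz : siz g s = siz g t := by
    rcases lt_trichotomy (siz g s) (siz g t) with h1 | h1 | h1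
    · exfalso
      have h2 : (siz g s : ℝ) + 1 ≤ siz g t := by exact_mod_cast h1
      exact num1 c7 hl1 hl2 (Nat.cast_nonneg _) (hszle t) (Nat.cast_nonneg _) (hszle s)
        (hO0 t) (hO1 s) (hT2 t) (hT2 s) h2 hB hx
    · exact h1
    · exfalso
      have h2 : (siz g t : ℝ) + 1 ≤ siz g s := by exact_mod_cast h1
      exact num1 c7 hl1 hl2 (Nat.cast_nonneg _) (hszle s) (Nat.cast_nonneg _) (hszle t)
        (hO0 s) (hO1 t) (hT2 s) (hT2 t) h2 hA hx
  refine ⟨hsiz, ?_⟩
  have e1 := hT2 s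
  have e2 := hT2 t
  rw [← hsiz] at e2
  have h1 := num2 (P := (N : ℝ) * (4 * N / n)) (N := (N : ℝ)) c7 hl1 (Nat.cast_nonneg _)
    (hszle s) e1 e2 hA hzw (hO s).1 (hO t).2 hNN.le
  have h2 : nbn G g w s ≤ nbn G g w t + (3 + 8 * N ^ 2) := by exact_mod_cast h1
  omega

end MP0c3a8f

end

section

/-!
# MP_0c3a8f_co: item QEM (the non-neighbours of `w`, few outer edges)
-/

open Finset

namespace MP0c3a8f

namespace ItemQEM

section

variable {V : Type} [Fintype V]

/-- counting pairs -/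
theorem pair_bound (P : V → V → Prop) [∀ v u, Decidable (P v u)] (S : Set (Sym2 V)) (N : ℕ) (z : V → ℝ) (B : ℝ)
    (hB : 0 ≤ B) (hP : ∀ v u, P v u → s(v, u) ∈ S)
    (hinj : ∀ v u v' u', P v u → P v' u' → s(v, u) = s(v', u') → v = v' ∧ u = u')
    (hz : ∀ v u, P v u → z u ≤ B) (hS : S.ncard ≤ N) :
    ∑ v, ∑ u, (if P v u then z u else 0) ≤ N * B := by
  classical
  have h1 : ∑ v, ∑ u, (if P v u then z u else 0) ≤ ∑ v, ∑ u, (if P v u then B else 0) := by
    refine Finset.sum_le_sum fun v _ => Finset.sum_le_sum fun u _ => ?_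
    by_cases h : P v u
    · rw [if_pos h, if_pos h]; exact hz v u h
    · rw [if_neg h, if_neg h]
  refine h1.trans ?_
  have h2 : ∑ v, ∑ u, (if P v u then B else 0) =
      ((Finset.univ.filter fun p : V × V => P p.1 p.2).card : ℝ) * B := by
    rw [← Fintype.sum_prod_type' (f := fun v u => if P v u then B else 0), ← Finset.sum_filter,
      Finset.sum_const, nsmul_eq_mul]
  rw [h2]
  refine mul_le_mul_of_nonneg_right ?_ hB
  have h3 : (Finset.univ.filter fun p : V × V => P p.1 p.2).card ≤ S.ncard := by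
    rw [Set.ncard_eq_toFinset_card' S]
    refine Finset.card_le_card_of_injOn (fun p => s(p.1, p.2)) ?_ ?_
    · intro p hp
      have := (Finset.mem_filter.1 (Finset.mem_coe.1 hp)).2
      simpa using hP p.1 p.2 this
    · intro p hp p' hp' he
      have h4 := (Finset.mem_filter.1 (Finset.mem_coe.1 hp)).2
      have h5 := (Finset.mem_filter.1 (Finset.mem_coe.1 hp')).2
      have h6 := hinj _ _ _ _ h4 h5 he
      exact Prod.ext h6.1 h6.2
  exact_mod_cast h3.trans hS

open Classical in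
/-- the number of the vertices of the members of a set of pairs -/
theorem ends_bound (S : Set (Sym2 V)) : {v : V | ∃ e ∈ S, v ∈ e}.ncard ≤ 2 * S.ncard := by
  have h1 : {v : V | ∃ e ∈ S, v ∈ e} ⊆ ((S.toFinset.biUnion fun e => e.toFinset : Finset V) :
      Set V) := by
    rintro v ⟨e, he, hv⟩
    simp only [Finset.coe_biUnion, Set.mem_iUnion, Finset.mem_coe]
    exact ⟨e, by simpa using he, by simpa using hv⟩
  refine (Set.ncard_le_ncard h1 (Finset.finite_toSet _)).trans ?_
  rw [Set.ncard_coe_finset, Set.ncard_eq_toFinset_card' S, mul_comm]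
  refine Finset.card_biUnion_le_card_mul _ _ _ fun e _ => ?_
  rw [Sym2.card_toFinset]
  split_ifs <;> omega

variable {r : ℕ} {G : SimpleGraph V} {g : V → Option (Fin r)} {w : V} {k : Fin r}

/-- the number of the vertices of the core which are not clean -/
theorem bad_bound {N : ℕ} (hout : (outSet G g).ncard ≤ N)
    (hmiss : {e | e ∈ missSet G g ∧ w ∉ e}.ncard ≤ N) :
    {v | v ≠ w ∧ g v ≠ none ∧ ¬ Cln G g w v}.ncard ≤ 4 * N := by
  have h1 : {v | v ≠ w ∧ g v ≠ none ∧ ¬ Cln G g w v} ⊆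
      {v : V | ∃ e ∈ {e | e ∈ missSet G g ∧ w ∉ e}, v ∈ e} ∪
        {v : V | ∃ e ∈ outSet G g, v ∈ e} := by
    rintro v ⟨hvw, hv, hc⟩
    by_cases h1 : ∀ u, u ≠ w → g u ≠ none → g u ≠ g v → G.Adj v u
    · right
      have h2 : ¬ ∀ u, u ≠ w → g u = none → ¬ G.Adj v u := fun h => hc ⟨hvw, hv, h1, h⟩
      push Not at h2
      obtain ⟨u, _, hu, hvu⟩ := h2
      exact ⟨s(v, u), ⟨hvu, u, Sym2.mem_mk_right v u, hu⟩, Sym2.mem_mk_left v u⟩
    · left
      push Not at h1
      obtain ⟨u, huw, hu, hne, hvu⟩ := h1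
      refine ⟨s(v, u), ⟨⟨v, u, rfl, hv, hu, hne.symm, hvu⟩, ?_⟩, Sym2.mem_mk_left v u⟩
      intro h
      rcases Sym2.mem_iff.1 h with h | h
      · exact hvw h.symm
      · exact huw h.symm
  refine (Set.ncard_le_ncard h1 (Set.toFinite _)).trans ((Set.ncard_union_le _ _).trans ?_)
  have h2 := ends_bound {e | e ∈ missSet G g ∧ w ∉ e}
  have h3 := ends_bound (outSet G g)
  omega

open Classical in
/-- the weight of the missing neighbours of a class -/
theorem M_eq (z : V → ℝ) (hw : g w = some k) {s : Fin r} (hs : s ≠ k) :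
    cw (fun v => muv G g z v) g (some s) = mis G g w s * z w +
      ∑ v, ∑ u, if (g v = some s ∧ u ≠ w ∧ g u ≠ none ∧ g u ≠ some s ∧ ¬ G.Adj v u) then z u
        else 0 := by
  have h1 : ∀ v, (if g v = some s then muv G g z v else 0) =
      (if g v = some s ∧ ¬ G.Adj w v then z w else 0) +
      ∑ u, if (g v = some s ∧ u ≠ w ∧ g u ≠ none ∧ g u ≠ some s ∧ ¬ G.Adj v u) then z u
        else 0 := by
    intro v
    by_cases hv : g v = some s
    · rw [if_pos hv]
      unfold muv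
      have h2 : ∀ u, (if g v ≠ none ∧ g u ≠ none ∧ g u ≠ g v ∧ ¬ G.Adj v u then z u else 0) =
          (if u = w then (if g v = some s ∧ ¬ G.Adj w v then z w else 0) else 0) +
          (if (g v = some s ∧ u ≠ w ∧ g u ≠ none ∧ g u ≠ some s ∧ ¬ G.Adj v u) then z u
            else 0) := by
        intro u
        by_cases hu : u = w
        · subst hu
          rw [if_pos rfl, if_neg (c := g v = some s ∧ u ≠ u ∧ _) (fun h => h.2.1 rfl), add_zero]
          refine if_congr ?_ rfl rfl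
          rw [G.adj_comm u v, hw, hv]
          constructor
          · rintro ⟨_, _, _, h⟩
            exact ⟨rfl, h⟩
          · rintro ⟨_, h⟩
            exact ⟨by simp, by simp, fun h => hs (Option.some_injective _ h).symm, h⟩
        · rw [if_neg hu, zero_add]
          refine if_congr ?_ rfl rfl
          rw [hv]
          constructor
          · rintro ⟨_, h1, h2, h3⟩
            exact ⟨rfl, hu, h1, h2, h3⟩
          · rintro ⟨_, _, h1, h2, h3⟩
            exact ⟨by simp, h1, h2, h3⟩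
      rw [Finset.sum_congr rfl (fun u _ => h2 u), Finset.sum_add_distrib,
        Finset.sum_ite_eq' Finset.univ w, if_pos (Finset.mem_univ w)]
    · rw [if_neg hv, if_neg (fun h => hv h.1), zero_add]
      symm
      exact Finset.sum_eq_zero fun u _ => if_neg (fun h => hv h.1)
  unfold cw
  rw [Finset.sum_congr rfl (fun v _ => h1 v), Finset.sum_add_distrib]
  congr 1
  rw [← Finset.sum_filter, Finset.sum_const, nsmul_eq_mul]
  congr 2
  unfold mis
  rw [Set.ncard_eq_toFinset_card']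
  congr 1
  ext v
  simp

/-- bounds of the weight of the missing neighbours of a class -/
theorem M_bd {N : ℕ} (z : V → ℝ) (hz0 : ∀ v, 0 ≤ z v) (hz2 : ∀ v, g v ≠ none → z v ≤ 2)
    (hw : g w = some k) (hmiss : {e | e ∈ missSet G g ∧ w ∉ e}.ncard ≤ N) {s : Fin r}
    (hs : s ≠ k) :
    mis G g w s * z w ≤ cw (fun v => muv G g z v) g (some s) ∧
      cw (fun v => muv G g z v) g (some s) ≤ mis G g w s * z w + N * 2 := by
  classical
  rw [M_eq z hw hs]
  constructor
  · have : 0 ≤ ∑ v, ∑ u, if (g v = some s ∧ u ≠ w ∧ g u ≠ none ∧ g u ≠ some s ∧ ¬ G.Adj v u)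
        then z u else 0 :=
      Finset.sum_nonneg fun v _ => Finset.sum_nonneg fun u _ => by
        split_ifs
        · exact hz0 u
        · exact le_refl _
    linarith
  · have := pair_bound (fun v u => g v = some s ∧ u ≠ w ∧ g u ≠ none ∧ g u ≠ some s ∧
      ¬ G.Adj v u) {e | e ∈ missSet G g ∧ w ∉ e} N z 2 (by norm_num) ?_ ?_ ?_ hmiss
    · linarith
    · rintro v u ⟨h1, h2, h3, h4, h5⟩
      refine ⟨⟨v, u, rfl, by rw [h1]; simp, h3, by rw [h1]; exact h4.symm, h5⟩, fun h => ?_⟩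
      rcases Sym2.mem_iff.1 h with h | h
      · rw [← h, hw] at h1
        exact hs (Option.some_injective _ h1).symm
      · exact h2 h.symm
    · rintro v u v' u' ⟨h1, h2, h3, h4, h5⟩ ⟨h1', h2', h3', h4', h5'⟩ he
      rcases Sym2.eq_iff.1 he with h | h
      · exact h
      · exact absurd (by rw [h.2]; exact h1') h4
    · rintro v u ⟨h1, h2, h3, h4, h5⟩
      exact hz2 u h3

/-- bounds of the weight of the light neighbours of a class -/
theorem O_bd {N : ℕ} (z : V → ℝ) (hz0 : ∀ v, 0 ≤ z v) (hz1 : ∀ v, g v = none → z v ≤ 1)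
    (hout : (outSet G g).ncard ≤ N) (s : Fin r) :
    0 ≤ cw (fun v => omv G g z v) g (some s) ∧ cw (fun v => omv G g z v) g (some s) ≤ N * 1 := by
  classical
  have h1 : cw (fun v => omv G g z v) g (some s) =
      ∑ v, ∑ u, if (g v = some s ∧ g u = none ∧ G.Adj v u) then z u else 0 := by
    unfold cw omv
    refine Finset.sum_congr rfl fun v _ => ?_
    by_cases hv : g v = some s
    · rw [if_pos hv]
      refine Finset.sum_congr rfl fun u _ => if_congr ?_ rfl rfl
      exact ⟨fun h => ⟨hv, h⟩, fun h => h.2⟩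
    · rw [if_neg hv]
      symm
      exact Finset.sum_eq_zero fun u _ => if_neg (fun h => hv h.1)
  rw [h1]
  constructor
  · exact Finset.sum_nonneg fun v _ => Finset.sum_nonneg fun u _ => by
      split_ifs
      · exact hz0 u
      · exact le_refl _
  · refine pair_bound (fun v u => g v = some s ∧ g u = none ∧ G.Adj v u) (outSet G g) N z 1
      (by norm_num) ?_ ?_ ?_ hout
    · rintro v u ⟨h1, h2, h3⟩
      exact ⟨h3, u, Sym2.mem_mk_right v u, h2⟩
    · rintro v u v' u' ⟨h1, h2, h3⟩ ⟨h1', h2', h3'⟩ he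
      rcases Sym2.eq_iff.1 he with h | h
      · exact h
      · rw [h.1, h2'] at h1
        exact absurd h1 (by simp)
    · rintro v u ⟨h1, h2, h3⟩
      exact hz1 u h2

/-- the vertices of a class which are not joined to `w` are in missing pairs -/
theorem mis_le (hw : g w = some k) {s : Fin r} (hs : s ≠ k) :
    mis G g w s ≤ (missSet G g).ncard := by
  classical
  unfold mis
  refine Set.ncard_le_ncard_of_injOn (fun v => s(w, v)) ?_ ?_ (Set.toFinite _)
  · rintro v ⟨h1, h2⟩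
    refine ⟨w, v, rfl, by rw [hw]; simp, by rw [h1]; simp, ?_, h2⟩
    rw [hw, h1]
    exact fun h => hs (Option.some_injective _ h).symm
  · rintro v ⟨h1, h2⟩ v' ⟨h1', h2'⟩ he
    rcases Sym2.eq_iff.1 he with h | h
    · exact h.2
    · rw [h.2, hw] at h1
      exact absurd (Option.some_injective _ h1).symm hs

/-- many clean neighbours -/
theorem clean_nb {N : ℕ} (hw : g w = some k) (hout : (outSet G g).ncard ≤ N)
    (hmiss : {e | e ∈ missSet G g ∧ w ∉ e}.ncard ≤ N) {s : Fin r} (hs : s ≠ k) :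
    siz g s ≤ {c | Cln G g w c ∧ g c = some s ∧ G.Adj w c}.ncard + mis G g w s + 4 * N := by
  have h1 : {v | g v = some s} ⊆ ({c | Cln G g w c ∧ g c = some s ∧ G.Adj w c} ∪
      {v | g v = some s ∧ ¬ G.Adj w v}) ∪ {v | v ≠ w ∧ g v ≠ none ∧ ¬ Cln G g w v} := by
    intro v hv
    have hv' : g v = some s := hv
    by_cases h2 : G.Adj w v
    · by_cases h3 : Cln G g w v
      · exact Or.inl (Or.inl ⟨h3, hv', h2⟩)
      · refine Or.inr ⟨?_, ?_, h3⟩
        · rintro rfl
          rw [hw] at hv'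
          exact hs (Option.some_injective _ hv').symm
        · rw [hv']; simp
    · exact Or.inl (Or.inr ⟨hv', h2⟩)
  have h2 := Set.ncard_le_ncard h1 (Set.toFinite _)
  have h3 := Set.ncard_union_le ({c | Cln G g w c ∧ g c = some s ∧ G.Adj w c} ∪
      {v | g v = some s ∧ ¬ G.Adj w v}) {v | v ≠ w ∧ g v ≠ none ∧ ¬ Cln G g w v}
  have h4 := Set.ncard_union_le {c | Cln G g w c ∧ g c = some s ∧ G.Adj w c}
      {v | g v = some s ∧ ¬ G.Adj w v}
  have h5 := bad_bound hout hmiss
  unfold siz mis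
  omega

/-- a clean non-neighbour -/
theorem clean_mis {N : ℕ} (hw : g w = some k) (hout : (outSet G g).ncard ≤ N)
    (hmiss : {e | e ∈ missSet G g ∧ w ∉ e}.ncard ≤ N) {s : Fin r} (hs : s ≠ k)
    (h : 4 * N < mis G g w s) : ∃ y, Cln G g w y ∧ g y = some s ∧ ¬ G.Adj w y := by
  by_contra hcon
  push Not at hcon
  have h1 : {v | g v = some s ∧ ¬ G.Adj w v} ⊆ {v | v ≠ w ∧ g v ≠ none ∧ ¬ Cln G g w v} := by
    rintro v ⟨h1, h2⟩
    refine ⟨?_, by rw [h1]; simp, fun h3 => h2 (hcon v h3 h1)⟩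
    rintro rfl
    rw [hw] at h1
    exact hs (Option.some_injective _ h1).symm
  have h2 := Set.ncard_le_ncard h1 (Set.toFinite _)
  have h5 := bad_bound hout hmiss
  unfold mis at h
  omega

end

/-- the size of a class -/
theorem siz_low {r n : ℕ} {C : ℝ} {V : Type} (g : V → Option (Fin r)) (hr : 3 ≤ r)
    (htot : ∑ t, siz g t = n) (hdev : dev (siz g) ≤ C * n) (hn : 4 * (r : ℝ) ^ 2 * C < n)
    (t : Fin r) : (n : ℝ) ≤ 2 * r * siz g t := by
  by_contra hcon
  push Not at hcon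
  have hr0 : (0 : ℝ) < r := by
    have : 0 < r := by omega
    exact_mod_cast this
  have hs : (0 : ℝ) ≤ siz g t := Nat.cast_nonneg _
  have hn0 : (0 : ℝ) < n := lt_of_le_of_lt (by positivity) hcon
  have h1 : ((siz g t : ℝ) - (∑ s, (siz g s : ℝ)) / r) ^ 2 ≤ dev (siz g) := by
    unfold dev
    exact Finset.single_le_sum (f := fun t => ((siz g t : ℝ) - (∑ s, (siz g s : ℝ)) / r) ^ 2)
      (fun _ _ => sq_nonneg _) (Finset.mem_univ t)
  have h2 : (∑ s, (siz g s : ℝ)) = n := by
    rw [← htot]; push_cast; rfl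
  rw [h2] at h1
  have h3 : (n : ℝ) / (2 * r) ≤ n / r - siz g t := by
    have h4 : (siz g t : ℝ) ≤ n / (2 * r) := by
      rw [le_div_iff₀ (by positivity)]
      linarith
    have h5 : (n : ℝ) / r = n / (2 * r) + n / (2 * r) := by field_simp; ring
    linarith
  have h6 : ((n : ℝ) / (2 * r)) ^ 2 ≤ C * n := by
    have h7 : ((n : ℝ) / (2 * r)) ^ 2 ≤ (n / r - siz g t) ^ 2 :=
      pow_le_pow_left₀ (by positivity) h3 2
    have h8 : ((n : ℝ) / r - siz g t) ^ 2 = ((siz g t : ℝ) - n / r) ^ 2 := by ring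
    linarith
  rw [div_pow, div_le_iff₀ (by positivity)] at h6
  have h9 : (n : ℝ) * n ≤ n * (4 * r ^ 2 * C) := by nlinarith
  have := le_of_mul_le_mul_left h9 hn0
  linarith

end ItemQEM

open ItemQEM in
theorem prfQEM : P_statement → FLU_statement → TCG_statement → EQG_statement →
    QEM_statement := by
  intro _ hFLU hTCG hEQG W _ F r N C hr hC
  obtain ⟨C', n1, hC', hF⟩ := hFLU r C hr hC
  obtain ⟨K1, hK1⟩ : ∃ K1 : ℝ, K1 = 4 * N + Fintype.card W + 2 := ⟨_, rfl⟩
  obtain ⟨R0, hR0⟩ : ∃ R0 : ℝ, R0 = 2 + 6 * C' + 2 * r * (C + K1) + 2 * (36 + 9 * N + 6 * C)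
      + 4 * (r : ℝ) ^ 2 * C := ⟨_, rfl⟩
  refine ⟨6 * N + 2, n1 + ⌈R0 ^ 2⌉₊, ?_⟩
  intro V _ G g w k n m hn hMax hNK hout hw hmiss s t hs ht hN'
  have hr0 : (3 : ℝ) ≤ r := by exact_mod_cast hr
  have hNr : (0 : ℝ) ≤ N := Nat.cast_nonneg N
  have hWr : (0 : ℝ) ≤ Fintype.card W := Nat.cast_nonneg _
  have hK10 : 0 ≤ K1 := by rw [hK1]; linarith
  have hR01 : 2 ≤ R0 := by
    rw [hR0]
    have : 0 ≤ 2 * r * (C + K1) := by positivity
    have : 0 ≤ 4 * (r : ℝ) ^ 2 * C := by positivity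
    linarith
  -- the size of `n`
  have hn2 : R0 ^ 2 ≤ n := by
    have h1 : (⌈R0 ^ 2⌉₊ : ℝ) ≤ n := by
      exact_mod_cast (by omega : ⌈R0 ^ 2⌉₊ ≤ n)
    exact (Nat.le_ceil _).trans h1
  have hn0 : (0 : ℝ) < n := lt_of_lt_of_le (by positivity) hn2
  obtain ⟨R, hR⟩ : ∃ R : ℝ, R = Real.sqrt n := ⟨_, rfl⟩
  have hRR0 : R0 ≤ R := by rw [hR]; exact Real.le_sqrt_of_sq_le hn2
  have hRn : R * R = n := by rw [hR]; exact Real.mul_self_sqrt hn0.le
  have hR1 : 1 ≤ R := by linarith
  obtain ⟨h, hh⟩ : ∃ h : ℝ, h = Real.sqrt (Real.sqrt n) := ⟨_, rfl⟩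
  have hh0 : 0 ≤ h := by rw [hh]; exact Real.sqrt_nonneg _
  have hhR : h ≤ R := by
    rw [hh, ← hR, Real.sqrt_le_left (by linarith)]
    nlinarith
  have hRa : 6 * C' ≤ R := by
    have : 0 ≤ 2 * r * (C + K1) := by positivity
    have : 0 ≤ 4 * (r : ℝ) ^ 2 * C := by positivity
    linarith
  have hRb : 2 * r * (C + K1) ≤ R := by
    have : 0 ≤ 4 * (r : ℝ) ^ 2 * C := by positivity
    linarith
  have hRc : 2 * (36 + 9 * N + 6 * C) + 1 ≤ R := by
    have : 0 ≤ 2 * r * (C + K1) := by positivity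
    have : 0 ≤ 4 * (r : ℝ) ^ 2 * C := by positivity
    linarith
  have hRd : 4 * (r : ℝ) ^ 2 * C + 1 ≤ R := by
    have : 0 ≤ 2 * r * (C + K1) := by positivity
    linarith
  have hRn' : R ≤ n := by
    rw [← hRn]; exact le_mul_of_one_le_left (by linarith) hR1
  -- the Perron vector
  obtain ⟨⟨z, hz⟩, hB⟩ := hF V G g n (by omega) hNK
  obtain ⟨hB1, hB2, hB3, _⟩ := hB z hz
  rw [← hh] at hB2 hB3
  rw [← hR] at hB1
  obtain ⟨_, c2⟩ := hTCG r V G z g n hNK.indep hz
  obtain ⟨l, hl⟩ : ∃ l : ℝ, l = lam G := ⟨_, rfl⟩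
  rw [← hl] at hB3 c2
  have hC'h : 6 * (C' * h) ≤ n := by
    have h1 : C' * h ≤ C' * R := mul_le_mul_of_nonneg_left hhR hC'
    have h2 : 6 * C' * R ≤ R * R := mul_le_mul_of_nonneg_right hRa (by linarith)
    linarith
  have hq1 : 2 / 3 ≤ qq r := by
    unfold qq
    have : 1 / (r : ℝ) ≤ 1 / 3 := one_div_le_one_div_of_le (by norm_num) hr0
    linarith
  have hq2 : qq r ≤ 1 := by
    unfold qq
    have : 0 ≤ 1 / (r : ℝ) := by positivity
    linarith
  have hl3 := abs_le.1 hB3
  have hl1 : (n : ℝ) ≤ 2 * l := by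
    have := mul_le_mul_of_nonneg_right hq1 hn0.le
    linarith
  have hl2 : l ≤ 2 * n := by
    have := mul_le_mul_of_nonneg_right hq2 hn0.le
    linarith
  have hl0 : 0 < l := by linarith
  have hz1 : ∀ v, g v ≠ none → 1 / 2 ≤ z v ∧ z v ≤ 2 := by
    intro v hv
    have h1 := abs_le.1 (hB1 v hv)
    have h2 : C' / R ≤ 1 / 2 := by
      rw [div_le_div_iff₀ (by linarith) (by norm_num)]
      linarith
    constructor <;> linarith
  have hz2 : ∀ v, g v = none → z v ≤ 1 := by
    intro v hv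
    refine (hB2 v hv).trans ?_
    rw [div_le_one hn0]
    linarith
  have hzw := hz1 w (by rw [hw]; simp)
  have hsz : ∀ t, (n : ℝ) ≤ 2 * r * siz g t := fun t =>
    siz_low g hr hNK.tot hNK.dev (by linarith) t
  have hsn : ∀ t, (siz g t : ℝ) ≤ n := by
    intro t
    have h1 : siz g t ≤ ∑ s, siz g s :=
      Finset.single_le_sum (fun _ _ => Nat.zero_le _) (Finset.mem_univ t)
    rw [hNK.tot] at h1
    exact_mod_cast h1
  have hmis : ∀ t, t ≠ k → (mis G g w t : ℝ) ≤ C * h := by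
    intro t ht
    have h1 : (mis G g w t : ℝ) ≤ (missSet G g).ncard := by exact_mod_cast mis_le hw ht
    have h2 := hNK.few
    rw [← hh] at h2
    have h3 : (0 : ℝ) ≤ (outSet G g).ncard := Nat.cast_nonneg _
    linarith
  have hCh : C * h ≤ C * R := mul_le_mul_of_nonneg_left hhR hC
  -- the trivial case
  by_cases hst : s = t
  · subst hst
    exact ⟨le_refl _, fun _ => by omega⟩
  -- clean neighbours
  have hcl : ∀ t, t ≠ k → Fintype.card W + 2 ≤
      {c | Cln G g w c ∧ g c = some t ∧ G.Adj w c}.ncard := by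
    intro t ht
    have h1 := clean_nb hw hout hmiss ht
    have h2 : (siz g t : ℝ) ≤ {c | Cln G g w c ∧ g c = some t ∧ G.Adj w c}.ncard
        + mis G g w t + 4 * N := by exact_mod_cast h1
    have h3 := hmis t ht
    have h4 := hsz t
    have h5 : (C + K1) * R ≤ siz g t := by
      have h6 : 2 * r * (C + K1) * R ≤ R * R := mul_le_mul_of_nonneg_right hRb (by linarith)
      have h7 : 2 * (r : ℝ) * ((C + K1) * R) ≤ 2 * r * siz g t := by
        calc 2 * (r : ℝ) * ((C + K1) * R) = 2 * r * (C + K1) * R := by ring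
          _ ≤ R * R := h6
          _ = n := hRn
          _ ≤ _ := h4
      exact le_of_mul_le_mul_left h7 (by positivity)
    have h6 : K1 * 1 ≤ K1 * R := mul_le_mul_of_nonneg_left hR1 hK10
    have h7 : (C + K1) * R = C * R + K1 * R := by ring
    have h8 : ((Fintype.card W + 2 : ℕ) : ℝ) ≤
        {c | Cln G g w c ∧ g c = some t ∧ G.Adj w c}.ncard := by
      push_cast
      linarith
    exact_mod_cast h8
  obtain ⟨y', hy'c, hy's, hy'w⟩ := clean_mis hw hout hmiss hs (by omega)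
  obtain ⟨y, c, hyc, hcc, hyne⟩ : ∃ y c, (Cln G g w y ∧ g y = some t ∧ G.Adj w y) ∧
      (Cln G g w c ∧ g c = some t ∧ G.Adj w c) ∧ c ≠ y := by
    have h1 : 1 < {c | Cln G g w c ∧ g c = some t ∧ G.Adj w c}.ncard := by
      have := hcl t ht
      omega
    obtain ⟨a, b, ha, hb, hab⟩ := (Set.one_lt_ncard_iff (Set.toFinite _)).1 h1
    exact ⟨a, b, ha, hb, hab.symm⟩
  have hEQ := hEQG W F r m V G z g w y y' t s n hMax hNK.indep hz (by rw [← hl]; exact hl0)
    (by linarith) hyc.1 hy'c (fun h => hst h.symm) hyc.2.1 hy's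
    (by rw [hw]; exact fun h => hs (Option.some_injective _ h).symm) hyc.2.2 hy'w
    (by rw [hy's]; have := hcl s hs; omega)
    ⟨c, hyne, hcc.1, by rw [hcc.2.1, hyc.2.1], hcc.2.2⟩
  rw [← hl] at hEQ
  obtain ⟨Ms1, Ms2⟩ := M_bd z hz.nonneg (fun v hv => (hz1 v hv).2) hw hmiss hs
  obtain ⟨Mt1, Mt2⟩ := M_bd z hz.nonneg (fun v hv => (hz1 v hv).2) hw hmiss ht
  obtain ⟨Os1, Os2⟩ := O_bd z hz.nonneg hz2 hout s
  obtain ⟨Ot1, Ot2⟩ := O_bd z hz.nonneg hz2 hout t
  have es := c2 s
  have et := c2 t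
  generalize cw (fun v => muv G g z v) g (some s) = Ms at Ms1 Ms2 es
  generalize cw (fun v => muv G g z v) g (some t) = Mt at Mt1 Mt2 et
  generalize cw (fun v => omv G g z v) g (some s) = Os at Os1 Os2 es
  generalize cw (fun v => omv G g z v) g (some t) = Ot at Ot1 Ot2 et
  generalize tv g z n s = Ts at es hEQ
  generalize tv g z n t = Tt at et hEQ
  have hmt := hmis t ht
  have hmt0 : (0 : ℝ) ≤ mis G g w t := Nat.cast_nonneg _
  have hms0 : (0 : ℝ) ≤ mis G g w s := Nat.cast_nonneg _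
  have hMs0 : 0 ≤ Ms := le_trans (mul_nonneg hms0 (by linarith)) Ms1
  have hls : 0 < l + (siz g s : ℝ) := by positivity
  have hlt : 0 < l + (siz g t : ℝ) := by positivity
  have hEQ' : l * (Ts - Tt) ≤ z w := by
    rw [le_div_iff₀ hl0] at hEQ
    linarith
  constructor
  · by_contra hcon
    push Not at hcon
    have hcon' : (siz g s : ℝ) + 1 ≤ siz g t := by exact_mod_cast hcon
    -- `M_t` is small
    have hMt : Mt ≤ 2 * (C * R) + 2 * N := by
      have h1 : (mis G g w t : ℝ) * z w ≤ (C * R) * 2 :=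
        mul_le_mul (hmt.trans hCh) hzw.2 (by linarith) (by positivity)
      linarith
    -- multiply
    have h1 : l * (Ts - Tt) * ((l + siz g s) * (l + siz g t)) ≤
        2 * ((3 * n) * (3 * n)) := by
      have h2 : l * (Ts - Tt) * ((l + siz g s) * (l + siz g t)) ≤
          2 * ((l + siz g s) * (l + siz g t)) :=
        mul_le_mul_of_nonneg_right (hEQ'.trans hzw.2) (by positivity)
      have h3 : (l + siz g s) * (l + siz g t) ≤ (3 * n) * (3 * n) :=
        mul_le_mul (by linarith [hsn s]) (by linarith [hsn t]) hlt.le (by positivity)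
      linarith
    have h2 : l * (Ts - Tt) * ((l + siz g s) * (l + siz g t)) =
        l * ((l * n + (Ms - Os)) * (l + siz g t) - (l * n + (Mt - Ot)) * (l + siz g s)) := by
      rw [← es, ← et]; ring
    have h3 : l * n - Os * (l + siz g t) - Mt * (l + siz g s) ≤
        (l * n + (Ms - Os)) * (l + siz g t) - (l * n + (Mt - Ot)) * (l + siz g s) := by
      have h4 : (l * n) * 1 ≤ (l * n) * (siz g t - siz g s) :=
        mul_le_mul_of_nonneg_left (by linarith) (by positivity)
      have h5 : 0 ≤ Ms * (l + siz g t) := mul_nonneg hMs0 hlt.le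
      have h6 : 0 ≤ Ot * (l + siz g s) := mul_nonneg Ot1 hls.le
      linarith
    have h4 : Os * (l + siz g t) ≤ N * (3 * n) :=
      mul_le_mul (by linarith) (by linarith [hsn t]) hlt.le hNr
    have h5 : Mt * (l + siz g s) ≤ (2 * (C * R) + 2 * N) * (3 * n) :=
      mul_le_mul hMt (by linarith [hsn s]) hls.le (by positivity)
    have h6 : n * (n / 2 - 9 * N - 6 * (C * R)) ≤ l * n - Os * (l + siz g t)
        - Mt * (l + siz g s) := by
      have h7 : (n : ℝ) / 2 * n ≤ l * n := mul_le_mul_of_nonneg_right (by linarith) hn0.le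
      linarith
    have h7 : 36 < n / 2 - 9 * N - 6 * (C * R) := by
      have h8 : (2 * (36 + 9 * N + 6 * C) + 1) * R ≤ R * R :=
        mul_le_mul_of_nonneg_right hRc (by linarith)
      have h9 : (36 + 9 * (N : ℝ)) * 1 ≤ (36 + 9 * N) * R :=
        mul_le_mul_of_nonneg_left hR1 (by linarith)
      linarith
    have h8 : (n / 2 : ℝ) * (n * 36) < l * (l * n - Os * (l + siz g t) - Mt * (l + siz g s)) := by
      have h9 : (n : ℝ) * 36 < n * (n / 2 - 9 * N - 6 * (C * R)) :=
        mul_lt_mul_of_pos_left h7 hn0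
      have h10 : (n / 2 : ℝ) * (n * 36) < (n / 2) * (l * n - Os * (l + siz g t)
          - Mt * (l + siz g s)) := mul_lt_mul_of_pos_left (by linarith) (by linarith)
      have h11 : 0 ≤ l * n - Os * (l + siz g t) - Mt * (l + siz g s) := by
        have : 0 ≤ (n : ℝ) * 36 := by positivity
        linarith
      have h12 : (n / 2 : ℝ) * (l * n - Os * (l + siz g t) - Mt * (l + siz g s)) ≤
          l * (l * n - Os * (l + siz g t) - Mt * (l + siz g s)) :=
        mul_le_mul_of_nonneg_right (by linarith) h11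
      linarith
    have h9 := mul_le_mul_of_nonneg_left h3 hl0.le
    rw [h2] at h1
    have h10 : 2 * ((3 * (n : ℝ)) * (3 * n)) = (n / 2 : ℝ) * (n * 36) := by ring
    linarith
  · intro hsize
    have hsize' : (siz g t : ℝ) = siz g s := by exact_mod_cast hsize
    have hs2 : (siz g s : ℝ) ≤ l := by
      have h1 : siz g s + siz g t ≤ n := by
        rw [← hNK.tot]
        have : ∑ u ∈ ({s, t} : Finset (Fin r)), siz g u ≤ ∑ u, siz g u :=
          Finset.sum_le_sum_of_subset (Finset.subset_univ _)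
        rwa [Finset.sum_pair hst] at this
      have h2 : (siz g s : ℝ) + siz g t ≤ n := by exact_mod_cast h1
      linarith
    rw [hsize'] at et
    have h1 : l * (Ms - Os - Mt + Ot) = (l * (Ts - Tt)) * (l + siz g s) := by
      linear_combination l * et - l * es
    have h2 : l * (Ms - Os - Mt + Ot) ≤ l * (2 * z w) := by
      rw [h1]
      calc (l * (Ts - Tt)) * (l + siz g s) ≤ z w * (l + siz g s) :=
            mul_le_mul_of_nonneg_right hEQ' hls.le
        _ ≤ z w * (l + l) := mul_le_mul_of_nonneg_left (by linarith) (by linarith)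
        _ = l * (2 * z w) := by ring
    have h3 := le_of_mul_le_mul_left h2 hl0
    have h4 : ((mis G g w s : ℝ) - mis G g w t - 2) * z w ≤ 3 * N := by linarith
    have h5 : (mis G g w s : ℝ) - mis G g w t - 2 ≤ 6 * N := by
      by_contra hcon
      push Not at hcon
      have h6 : ((mis G g w s : ℝ) - mis G g w t - 2) * (1 / 2) ≤
          ((mis G g w s : ℝ) - mis G g w t - 2) * z w :=
        mul_le_mul_of_nonneg_left hzw.1 (by linarith)
      linarith
    have h6 : (mis G g w s : ℝ) ≤ ((mis G g w t + (6 * N + 2) : ℕ) : ℝ) := by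
      push_cast
      linarith
    exact_mod_cast h6

end MP0c3a8f

end
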