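import Pool.Agent.Work.MP_0c3a8f_co.PB.Stmts12
import Pool.Agent.Work.MP_0c3a8f_co.Bd.B16
import Pool.Agent.Work.MP_0c3a8f_co.Bd.B03
import Pool.Agent.Work.MP_0c3a8f_co.PB.ItemJF1
import Pool.Agent.Work.MP_0c3a8f_co.PB.ItemJFZ
import Pool.Agent.Work.MP_0c3a8f_co.Bd.B24
import Pool.Agent.Work.MP_0c3a8f_co.PB.ItemPEV
import Pool.Agent.Work.MP_0c3a8f_co.Bd.B19

/-! Bundle of small proof modules (one section per former module). -/

section

/-!
# MP_0c3a8f_co, phase B, item CABZ: the numbers of missing pairs and outer edges, generic case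
-/

set_option autoImplicit false

open Finset

namespace MP0c3a8f

namespace CABZx

/-- the comparison -/
theorem final {W : Type} [Fintype W] {F : SimpleGraph W} (hTRK : TRK_statement) {r n m : ℕ}
    {C C1 C2 : ℝ} (hr : 3 ≤ r)
    (hU : ∀ (V : Type) [Fintype V] (G : SimpleGraph V) (g : V → Option (Fin r)), NK n C G g →
      lam G ^ 2 ≤ lam (KU G g ∅) ^ 2 - 4 * qq r * (missSet G g).ncard
        + C1 / Real.sqrt (Real.sqrt n))
    (hL : ∀ (V : Type) [Fintype V] (G : SimpleGraph V) (g : V → Option (Fin r)), NK n C G g →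
      lam (KU G g ∅) ^ 2 - 4 * qq r * (missSet G g).ncard - C2 / Real.sqrt (Real.sqrt n)
        ≤ lam G ^ 2)
    (hA : (C1 + C2) / Real.sqrt (Real.sqrt n) < 4 * qq r)
    {V : Type} [Fintype V] {G : SimpleGraph V} {g : V → Option (Fin r)}
    (hMx : IsMaximiser r m F G)
    (hNK : NK n C G g) {a' b' : ℕ} (ha : a' + 1 ≤ (missSet G g).ncard)
    (hb : b' ≤ (outSet G g).ncard)
    (hab : (outSet G g).ncard + a' = b' + (missSet G g).ncard)
    {k : ℕ} (H : SimpleGraph (Fin k)) (f : Fin k → Option (Fin r)) (hI : Indep H f)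
    (hm : (missSet H f).ncard = a') (ho : (outSet H f).ncard = b')
    (hs : ∀ t, siz f t = siz g t) (hF : F.Free H)
    (hc : ¬ H.Colorable r) (hn : ∀ v, ∃ u, H.Adj v u) : False := by
  have hs' : siz f = siz g := funext hs
  have e1 := CABx.sz_of hNK.indep
  have e2 := CABx.sz_of hI
  rw [hs', hm, ho] at e2
  have hsize := hMx.1.size
  have hInN : InN r m F H := by
    refine ⟨hF, ?_, hn, hc⟩
    rw [hsize] at e1
    omega
  have hle := hMx.2 (Fin k) H hInN
  have hNKH : NK n C H f := by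
    refine ⟨hI, ?_, ?_, ?_⟩
    · rw [hs']; exact hNK.tot
    · rw [hs']; exact hNK.dev
    · rw [hm, ho]
      refine le_trans ?_ hNK.few
      have h1 : (a' : ℝ) ≤ (missSet G g).ncard := by exact_mod_cast (by omega : a' ≤ _)
      have h2 : (b' : ℝ) ≤ (outSet G g).ncard := by exact_mod_cast hb
      linarith
  have hne : Nonempty (Fin k) := by
    by_contra hne
    rw [not_nonempty_iff] at hne
    exact hc ⟨SimpleGraph.Coloring.mk (fun v => hne.elim v) (fun {v} => hne.elim v)⟩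
  have hpos : 0 ≤ lam H := (prfP (Fin k) H).1
  have hsq : lam H ^ 2 ≤ lam G ^ 2 := pow_le_pow_left₀ hpos hle 2
  have hK : lam (KU G g ∅) = lam (KU H f ∅) :=
    hTRK r V (Fin k) (KU G g ∅) (KU H f ∅) g f (CABx.isKU_KU G g) (CABx.isKU_KU H f)
      fun t => (hs t).symm
  have h1 := hU V G g hNK
  have h2 := hL (Fin k) H f hNKH
  rw [hm, ← hK] at h2
  have hq : 0 < qq r := by
    unfold qq
    have : (3 : ℝ) ≤ r := by exact_mod_cast hr
    have h3 : 1 / (r : ℝ) ≤ 1 / 3 := one_div_le_one_div_of_le (by norm_num) this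
    linarith
  have h4 : ((a' : ℝ) + 1) ≤ (missSet G g).ncard := by exact_mod_cast ha
  have h5 : 4 * qq r * ((a' : ℝ) + 1) ≤ 4 * qq r * (missSet G g).ncard :=
    mul_le_mul_of_nonneg_left h4 (by linarith)
  have h6 : (C1 + C2) / Real.sqrt (Real.sqrt n) =
      C1 / Real.sqrt (Real.sqrt n) + C2 / Real.sqrt (Real.sqrt n) := add_div _ _ _
  nlinarith

theorem miss0 {V : Type} {r : ℕ} {G : SimpleGraph V} {f : V → Option (Fin r)} {w : V}
    (h : Ty0 G f w) : (missSet G f).ncard = 0 := by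
  have h1 : missSet G f = ∅ := by
    rw [Set.eq_empty_iff_forall_notMem]
    rintro e ⟨x, y, rfl, hx, hy, hne, hadj⟩
    exact hadj ((h.core x y hx hy).2 hne)
  rw [h1, Set.ncard_empty]

theorem ind0 {V : Type} {r : ℕ} {G : SimpleGraph V} {f : V → Option (Fin r)} {w : V}
    (h : Ty0 G f w) : Indep G f := by
  intro x y hx hxy hadj
  exact ((h.core x y hx (hxy ▸ hx)).1 hadj) hxy

end CABZx

open CABZx in
theorem prfCABZ : GRD_statement → CNTU_statement → UPL_statement → LOL_statement →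
    TRK_statement → FAMZ_statement → MEMZ_statement → MEMW_statement → MEMX_statement →
    FAMX_statement → CABZ_statement := by
  intro hGRD _ hUPL hLOL hTRK hFAMZ hMEMZ hMEMW hMEMX hFAMX W _ F r C hr hG2 hC
  obtain ⟨C1, n1, hC1, h1⟩ := hUPL r C hr hC
  obtain ⟨C2, n2, hC2, h2⟩ := hLOL r C hr hC
  obtain ⟨n3, h3⟩ := CABx.large r C (C1 + C2) hr hC
  refine ⟨max n1 (max n2 n3), ?_⟩
  intro V _ G g n m hn hMx hNK
  have hn1 : n1 ≤ n := (le_max_left _ _).trans hn
  have hn2 : n2 ≤ n := (le_max_left _ _).trans ((le_max_right _ _).trans hn)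
  have hn3 : n3 ≤ n := (le_max_right _ _).trans ((le_max_right _ _).trans hn)
  obtain ⟨hA, hB⟩ := h3 n hn3
  have hsize := CABx.size_low hNK hB
  have hbr := CABx.out_ge hGRD hr hNK.indep hMx.1.notPartite
  have hfin := fun {a' b' : ℕ} => final hTRK (C := C) hr
    (fun V _ G g h => h1 V G g n hn1 h) (fun V _ G g h => h2 V G g n hn2 h) hA hMx hNK
    (a' := a') (b' := b')
  obtain ⟨a, ha⟩ : ∃ a, a = (missSet G g).ncard := ⟨_, rfl⟩
  obtain ⟨b, hb⟩ : ∃ b, b = (outSet G g).ncard := ⟨_, rfl⟩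
  rw [← ha, ← hb] at hfin
  rw [← hb] at hbr
  have hsize' : ∀ t, a + b + (2 * r + 2) ≤ siz g t := by
    intro t
    rw [ha, hb]
    exact hsize t
  rw [← ha, ← hb]
  rcases Nat.eq_zero_or_pos a with ha0 | ha0
  · exact Or.inl ⟨ha0, hbr⟩
  by_cases hb0 : b = r
  · exact Or.inr ⟨ha0, hb0⟩
  exfalso
  have h01 : (⟨0, by omega⟩ : Fin r) ≠ ⟨1, by omega⟩ := by simp
  rcases Nat.lt_or_ge b (a + r) with hd | hd
  · -- type `S`
    have hsum : ∑ t : Fin r, (if t = (⟨1, by omega⟩ : Fin r) then a + r - b else 0)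
        = a + r - b := by simp
    obtain ⟨k, H, f, w, q, c, L, hTy, hLc, -, hsz⟩ := hFAMX r (siz g)
      (fun t => if t = (⟨1, by omega⟩ : Fin r) then a + r - b else 0) ⟨0, by omega⟩ hr
      (by simp) (fun t => by rw [hsum]; have := hsize' t; omega)
    rw [hsum] at hLc
    obtain ⟨hI, hmi, hnb, hou, hro⟩ := hMEMX r (Fin k) H f w q c _ L hr hTy
    obtain ⟨hc, hiso, -, -, hfr⟩ := hMEMW r (Fin k) H f w hr hI hTy.out hro
      (fun t => (hnb t).ge)
    exact hfin (a' := a + r - b) (b' := r) (by omega) (by omega) (by omega) H f hI (by omega) hou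
      hsz (hfr W F ⟨0, by omega⟩ ⟨1, by omega⟩ hG2 h01 (hnb _) (hnb _)) hc hiso
  · -- type `Z`
    obtain ⟨x, hx⟩ : ∃ x, b = a + r + x := ⟨b - (a + r), by omega⟩
    obtain ⟨k, H, f, w, hTy, hsz, hnb⟩ := hFAMZ r (siz g)
      (fun t => 1 + if t = (⟨2, by omega⟩ : Fin r) then x else 0) hr
      (fun t => by have := hsize' t; split_ifs <;> omega)
    have hI := ind0 hTy
    have hmi := miss0 hTy
    have hnb1 : ∀ t, 1 ≤ nbn H f w t := fun t => by rw [hnb]; omega
    obtain ⟨hc, hiso, hou, -, hfr⟩ := hMEMW r (Fin k) H f w hr hI hTy.out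
      (fun t => by rw [hsz, hmi]; have := hsize' t; omega) hnb1
    have hsum : ∑ t, nbn H f w t = r + x := by
      rw [← CABx.sum_vec (⟨2, by omega⟩ : Fin r) x, Finset.sum_congr rfl fun t _ => hnb t]
    have e0 : nbn H f w ⟨0, by omega⟩ = 1 := by rw [hnb]; simp
    have e1 : nbn H f w ⟨1, by omega⟩ = 1 := by rw [hnb]; simp
    exact hfin (a' := 0) (b' := r + x) (by omega) (by omega) (by omega) H f hI hmi (by omega)
      hsz (hfr W F ⟨0, by omega⟩ ⟨1, by omega⟩ hG2 h01 e0 e1) hc hiso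

end MP0c3a8f

end

section

/-!
# MP_0c3a8f_co: the final theorem for the class `Fs`, all sufficiently large `m`
-/

open Finset

namespace MP0c3a8f

namespace FINF

theorem gen2 {W : Type} {F : SimpleGraph W} {r s s₁ : ℕ} (hs : 2 ≤ s) (hF : Fs r s s₁ F) :
    Gen2 r F := by
  intro V _ G f w i j hij hT h1 h2
  exact hF.free V G f w i j hij hT (by omega) (by omega)

/-- the classes are large -/
theorem large {V : Type} [Fintype V] {r k s : ℕ} {C : ℝ} {G : SimpleGraph V}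
    {g : V → Option (Fin r)} (hr : 3 ≤ r) (h : NK k C G g) (h1 : 2 * r * s ≤ k)
    (h2 : 4 * (r : ℝ) ^ 2 * C < k) (t : Fin r) : s ≤ siz g t := by
  by_contra hcon
  push Not at hcon
  have hr0 : (0 : ℝ) < r := by
    have : 0 < r := by omega
    exact_mod_cast this
  have e1 : ((siz g t : ℝ) - (∑ u, (siz g u : ℝ)) / r) ^ 2 ≤ dev (siz g) := by
    unfold dev
    exact Finset.single_le_sum
      (f := fun t => ((siz g t : ℝ) - (∑ u, (siz g u : ℝ)) / r) ^ 2)
      (fun t _ => sq_nonneg _) (mem_univ t)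
  have e2 : (∑ u, (siz g u : ℝ)) = k := by
    have := h.tot
    exact_mod_cast this
  rw [e2] at e1
  have e3 := e1.trans h.dev
  have hk0 : (0 : ℝ) ≤ k := Nat.cast_nonneg _
  have hs' : (siz g t : ℝ) ≤ s := by exact_mod_cast hcon.le
  have h1' : 2 * (r : ℝ) * s ≤ k := by exact_mod_cast h1
  have e4 : (k : ℝ) / (2 * r) ≤ k / r - siz g t := by
    have e5 : (k : ℝ) / r = k / (2 * r) + k / (2 * r) := by
      field_simp
      ring
    have e6 : (s : ℝ) ≤ k / (2 * r) := by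
      rw [le_div_iff₀ (by positivity)]
      linarith
    linarith
  have e7 : ((k : ℝ) / (2 * r)) ^ 2 ≤ C * k := by
    have e8 : ((k : ℝ) / (2 * r)) ^ 2 ≤ ((siz g t : ℝ) - k / r) ^ 2 := by
      have e9 : ((siz g t : ℝ) - k / r) ^ 2 = (k / r - siz g t) ^ 2 := by ring
      rw [e9]
      exact pow_le_pow_left₀ (by positivity) e4 2
    exact e8.trans e3
  have e10 : ((k : ℝ) / (2 * r)) ^ 2 = k * k / (4 * r ^ 2) := by
    field_simp
    ring
  rw [e10, div_le_iff₀ (by positivity)] at e7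
  rcases hk0.lt_or_eq with hk | hk
  · have e11 : (k : ℝ) ≤ 4 * r ^ 2 * C := by
      have : (k : ℝ) * k ≤ k * (4 * r ^ 2 * C) := by
        calc (k : ℝ) * k ≤ C * k * (4 * r ^ 2) := e7
          _ = k * (4 * r ^ 2 * C) := by ring
      exact le_of_mul_le_mul_left this hk
    linarith
  · rw [← hk] at h1'
    have hs0 : (s : ℝ) ≤ 0 := by
      by_contra hc
      push Not at hc
      have : 0 < 2 * (r : ℝ) * s := by positivity
      linarith
    have hs1 : s = 0 := by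
      have : s ≤ 0 := by exact_mod_cast hs0
      omega
    omega

theorem vz_of_vr {V : Type} {r s : ℕ} {G : SimpleGraph V} {f : V → Option (Fin r)} {w : V}
    {i j : Fin r} {σ : Fin r → ℕ} (hT : Ty0 G f w) (hσ : ∀ t, siz f t = σ t)
    (hp : ∀ t, 1 ≤ nbn G f w t) (h : VR s G f w i j) : IsVZ s σ G := by
  obtain ⟨h1, h2, h3, h4, h5, h6⟩ := h
  simp only [hσ] at h2 h3 h6
  exact ⟨f, w, i, j, hT, hσ, hp, h1, h2, h3, h4, h5, h6⟩

theorem mem_vz {W : Type} {F : SimpleGraph W} {r s s₁ m : ℕ} (hMEMZ : MEMZ_statement)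
    (hr : 3 ≤ r) (hs : 2 ≤ s) (hF : Fs r s s₁ F) {V : Type} [Fintype V] {G : SimpleGraph V}
    {σ : Fin r → ℕ} (hσ : ∀ t, s ≤ σ t) (hm : G.edgeSet.ncard = m) (h : IsVZ s σ G) :
    InN r m F G := by
  obtain ⟨f, w, i, j, hT, hsz, hp, hij, -, -, hi, hj, -⟩ := h
  obtain ⟨m1, m2, -⟩ := hMEMZ r V G f w hr hT (fun t => by
    rw [hsz t]
    have := hσ t
    omega)
  refine ⟨hF.free V G f w i j hij hT hi hj, hm, m2 ?_, ?_⟩
  · calc 1 ≤ nbn G f w ⟨0, by omega⟩ := hp _
      _ ≤ ∑ t, nbn G f w t := Finset.single_le_sum (fun t _ => Nat.zero_le _) (mem_univ _)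
  · rw [m1]
    rintro ⟨t, ht⟩
    have := hp t
    omega

theorem mem_ws {W : Type} [Fintype W] {F : SimpleGraph W} {r m : ℕ} (hMEMW : MEMW_statement)
    (hMEMX : MEMX_statement) (hr : 3 ≤ r) (hF : Gen2 r F) {V : Type} [Fintype V]
    {G : SimpleGraph V} {σ : Fin r → ℕ} (hm : G.edgeSet.ncard = m) (h : IsWS σ G) :
    InN r m F G := by
  obtain ⟨f, w, q, c, i, L, hT, -⟩ := h
  obtain ⟨h1, -, h3, -, h5⟩ := hMEMX r V G f w q c i L hr hT
  obtain ⟨h6, h7, -, -, h10⟩ := hMEMW r V G f w hr h1 hT.out h5 (fun t => (h3 t).ge)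
  refine ⟨h10 W F ⟨0, by omega⟩ ⟨1, by omega⟩ hF ?_ (h3 _) (h3 _), hm, h7, h6⟩
  intro h0
  have := congrArg Fin.val h0
  simp at this

theorem mem {W : Type} [Fintype W] {F : SimpleGraph W} {r s s₁ n m : ℕ}
    (hMEMZ : MEMZ_statement) (hMEMW : MEMW_statement) (hMEMX : MEMX_statement) (hr : 3 ≤ r)
    (hs : 2 ≤ s) (hF : Fs r s s₁ F) {V : Type} [Fintype V] {G : SimpleGraph V}
    (h : IsUs r n m s G) : InN r m F G := by
  obtain ⟨σ, -, h2, h3, h4 | h4⟩ := h
  · exact mem_vz hMEMZ hr hs hF h2 h3 h4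
  · exact mem_ws hMEMW hMEMX hr (gen2 hs hF) h3 h4

theorem tz_large {r n s : ℕ} (hr : 3 ≤ r) (h : r * s ≤ n) (t : Fin r) : s ≤ tz r n t := by
  have : s ≤ n / r := by
    rw [Nat.le_div_iff_mul_le (by omega)]
    linarith [Nat.mul_comm r s]
  unfold tz
  omega

theorem sum_tz (hDEV : DEV_statement) {r n : ℕ} (hr : 3 ≤ r) : ∑ t, tz r n t = n := by
  obtain ⟨σ, hσ⟩ : ∃ σ : Fin r → ℕ, ∑ t, σ t = n := by
    refine ⟨fun t => if t = ⟨0, by omega⟩ then n else 0, ?_⟩
    simp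
  exact (hDEV r n σ (by omega) hσ).1

end FINF

open FINF in
theorem prfFINF : ISO_statement → DEV_statement → FINR_statement → PICKN_statement →
    PICKB_statement → MEMZ_statement → MEMW_statement → MEMX_statement → UNV_statement →
    FINF_statement := by
  intro hISO hDEV hFINR hPICKN hPICKB hMEMZ hMEMW hMEMX hUNV W _ F r s s₁ ε hr hs hcr hcol hnc
    hF hε
  have hgen := gen2 hs hF
  obtain ⟨C, N, hC, hall⟩ := hFINR W F r ε hr hcr hcol hnc hgen hε
  obtain ⟨n₁, hn₁⟩ := hPICKN W F r s s₁ C hr hs hF hC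
  obtain ⟨n₂, hn₂⟩ := hPICKB W F r s s₁ hr hs hF
  obtain ⟨K, hK⟩ := exists_nat_gt (4 * (r : ℝ) ^ 2 * C)
  obtain ⟨m₀, hm₀⟩ := hall (n₁ + n₂ + 2 * r * s + K)
  refine ⟨N, m₀, fun m hm => ?_⟩
  obtain ⟨n, D, hn, hD, hlt, hex, hmax⟩ := hm₀ m hm
  have hlarge : ∀ (V : Type) [Fintype V] (G : SimpleGraph V) (k : ℕ) (g : V → Option (Fin r)),
      (k = n ∨ k = n + 1) → NK k C G g → ∀ t, s ≤ siz g t := by
    intro V _ G k g hk hNK t
    refine large hr hNK ?_ ?_ t
    · rcases hk with rfl | rfl <;> omega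
    · refine hK.trans_le ?_
      have : K ≤ k := by
        rcases hk with rfl | rfl <;> omega
      exact_mod_cast this
  have htz : ∀ t : Fin r, s ≤ tz r n t := by
    intro t
    refine tz_large hr ?_ t
    have : 2 * r * s = r * s + r * s := by ring
    omega
  have hvz : ∀ (V : Type) [Fintype V] (G : SimpleGraph V), IsMaximiser r m F G →
      IsG0 r n D G → (D : ℝ) ≤ (1 - 2 / (r : ℝ) + 1 / (4 * (r : ℝ) ^ 2)) * (qq r * n) →
      IsVZ s (fun t : Fin r => tz r n t) G := by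
    intro V _ G hG h0 hDD
    obtain ⟨f, w, hT, hsz, hd, hp⟩ := h0
    obtain ⟨i, j, hVR⟩ := hn₂ V G f w n D m (by omega) hG hT hsz hd hp hDD
    exact vz_of_vr hT hsz hp hVR
  have fwd : ∀ (V : Type) [Fintype V] (G : SimpleGraph V), IsMaximiser r m F G →
      IsUs r n m s G := by
    intro V _ G hG
    rcases (hmax V G hG).1 with ⟨h0, hDD⟩ | ⟨k, g, hk, hNK, hW⟩
    · exact ⟨fun t => tz r n t, Or.inl (sum_tz hDEV hr), htz, hG.1.size,
        Or.inl (hvz V G hG h0 hDD)⟩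
    · refine ⟨siz g, ?_, hlarge V G k g hk hNK, hG.1.size, ?_⟩
      · rw [hNK.tot]
        exact hk
      · rcases hW with ⟨w, hT, hp⟩ | ⟨w, q, c, i, L, hT, h1, h2, h3⟩
        · obtain ⟨i, j, hVR⟩ := hn₁ V G g w k m (by rcases hk with rfl | rfl <;> omega) hG hNK
            hT hp
          exact Or.inl (vz_of_vr hT (fun _ => rfl) hp hVR)
        · exact Or.inr ⟨g, w, q, c, i, L, hT, fun _ => rfl, h1, h2, h3⟩
  refine ⟨n, D, hD, hlt, hex, ?_, ?_⟩
  · intro V _ G
    constructor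
    · intro hG
      exact ⟨fwd V G hG, fun U _ H hH => hG.2 U H (mem hMEMZ hMEMW hMEMX hr hs hF hH)⟩
    · rintro ⟨h1, h2⟩
      refine ⟨mem hMEMZ hMEMW hMEMX hr hs hF h1, fun U _ H hH => ?_⟩
      obtain ⟨k, M, hM⟩ := hex
      exact (hM.2 U H hH).trans (h2 _ M (fwd _ M hM))
  · intro hN hDle V _ G
    have hDle' : (D : ℝ) ≤ (1 - 2 / (r : ℝ) + 1 / (4 * (r : ℝ) ^ 2)) * (qq r * n) := by
      refine hDle.trans ?_
      have hr0 : (1 : ℝ) ≤ r := by
        have : 1 ≤ r := by omega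
        exact_mod_cast this
      have hq : 0 ≤ qq r := by
        unfold qq
        have : 1 / (r : ℝ) ≤ 1 := by
          rw [div_le_one (by linarith)]
          exact hr0
        linarith
      refine mul_le_mul_of_nonneg_right ?_ (mul_nonneg hq (Nat.cast_nonneg _))
      have : 0 ≤ 1 / (4 * (r : ℝ) ^ 2) := by positivity
      linarith
    constructor
    · intro hG
      exact ⟨hG.1.size, hvz V G hG ((hmax V G hG).2 hN hDle) hDle'⟩
    · rintro ⟨he, hV⟩
      obtain ⟨k, M, hM⟩ := hex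
      have hMV := hvz _ M hM ((hmax _ M hM).2 hN hDle) hDle'
      have hiso := hUNV r s m (fun t : Fin r => tz r n t) V (Fin k) G M hr hs htz he hM.1.size
        hV hMV
      have hlam := hISO V (Fin k) G M hiso
      refine ⟨mem_vz hMEMZ hr hs hF htz he hV, fun U _ H hH => ?_⟩
      rw [hlam]
      exact hM.2 U H hH

end MP0c3a8f

end

section

/-!
# MP_0c3a8f_co, item FINR: the structure for all sufficiently large `m`, generic case
-/

open Finset

namespace MP0c3a8f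

namespace FINRx

theorem bd_mono {V : Type} {r n N N' : ℕ} {G : SimpleGraph V} {g : V → Option (Fin r)} {w : V}
    (h : Bd n N G g w) (hN : N ≤ N') : Bd n N' G g w :=
  ⟨h.indep, h.out, h.tot, h.bnd.trans (by exact_mod_cast hN)⟩

theorem altI_mono {V : Type} [Fintype V] {r n D N N' : ℕ} {G : SimpleGraph V}
    (h : AltI r n D N G) (hN : N ≤ N') : AltI r n D N' G := by
  obtain ⟨h1, g, w, h2, h3⟩ := h
  refine ⟨h1.trans (by exact_mod_cast hN), g, w, bd_mono h2 hN, fun a b => ?_⟩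
  exact h3 (hN.trans a) ((Nat.mul_le_mul_right D hN).trans b)

theorem nk_mono {V : Type} {r n : ℕ} {C C' : ℝ} {G : SimpleGraph V} {g : V → Option (Fin r)}
    (h : NK n C G g) (hC : C ≤ C') : NK n C' G g :=
  ⟨h.indep, h.tot, h.dev.trans (mul_le_mul_of_nonneg_right hC (Nat.cast_nonneg n)),
    h.few.trans (mul_le_mul_of_nonneg_right hC (Real.sqrt_nonneg _))⟩

theorem qq_up (r : ℕ) : qq r ≤ 1 := by
  unfold qq
  have : (0 : ℝ) ≤ 1 / (r : ℝ) := by positivity
  linarith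

theorem qq_nn {r : ℕ} (hr : 3 ≤ r) : 0 ≤ qq r := by
  have h3 : (3 : ℝ) ≤ r := by exact_mod_cast hr
  unfold qq
  have : 1 / (r : ℝ) ≤ 1 := by
    rw [div_le_one (by linarith)]
    linarith
  linarith

/-- lower bound for the fourth root -/
theorem root_ge {b n : ℕ} (h : b ^ 4 ≤ n) : (b : ℝ) ≤ Real.sqrt (Real.sqrt n) := by
  apply Real.le_sqrt_of_sq_le
  apply Real.le_sqrt_of_sq_le
  have : ((b : ℝ) ^ 2) ^ 2 = ((b ^ 4 : ℕ) : ℝ) := by
    push_cast
    ring
  rw [this]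
  exact_mod_cast h

end FINRx

open FINRx in
theorem prfFINR : FINX_statement → FNS_statement → GENX_statement → AIK_statement →
    YABS_statement → YNBS_statement → SDZ_statement → TPZ_statement → FINR_statement := by
  intro hFINX hFNS hGENX hAIK hYABS hYNBS hSDZ hTPZ W _ F r ε hr hcrit hcol hncol hgen hε
  obtain ⟨N₁, hX⟩ := hFINX W F r hr hcrit hcol hncol
  obtain ⟨ε₂, hε₂, N₂, n₂, h2⟩ := hFNS W F r hr hcrit hcol hncol
  obtain ⟨N₃, hN₃⟩ : ∃ x : ℕ, x = max N₁ N₂ + 1 := ⟨_, rfl⟩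
  have hN13 : N₁ ≤ N₃ := by
    rw [hN₃]
    exact (le_max_left _ _).trans (Nat.le_succ _)
  have hN23 : N₂ ≤ N₃ := by
    rw [hN₃]
    exact (le_max_right _ _).trans (Nat.le_succ _)
  have hN31 : 1 ≤ N₃ := by
    rw [hN₃]
    exact Nat.succ_le_succ (Nat.zero_le _)
  obtain ⟨ε₃, hε₃, b₁, n₃, h3⟩ := hSDZ W F r N₃ hr hgen
  obtain ⟨ε₄, hε₄⟩ : ∃ x : ℝ, x = min ε₂ (min ε₃ (1 / ((N₃ : ℝ) + 1))) := ⟨_, rfl⟩
  have hN₃0 : (0 : ℝ) ≤ N₃ := Nat.cast_nonneg _
  have hε₄0 : 0 < ε₄ := by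
    rw [hε₄]
    exact lt_min hε₂ (lt_min hε₃ (by positivity))
  have e42 : ε₄ ≤ ε₂ := by
    rw [hε₄]
    exact min_le_left _ _
  have e43 : ε₄ ≤ ε₃ := by
    rw [hε₄]
    exact (min_le_right _ _).trans (min_le_left _ _)
  have e4N : ε₄ ≤ 1 / ((N₃ : ℝ) + 1) := by
    rw [hε₄]
    exact (min_le_right _ _).trans (min_le_right _ _)
  obtain ⟨n₄, h4⟩ := hTPZ W F r N₃ (ε₄ / 2) hr hgen (by linarith)
  obtain ⟨C₁, hC₁, n₅, h5⟩ := hYABS W F r N₁ hr hgen
  obtain ⟨C₂, n₆, hC₂, h6⟩ := hAIK r N₃ hr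
  obtain ⟨ε₇, hε₇, n₇, h7⟩ := hYNBS W F r C₂ hr hgen hC₂
  obtain ⟨ε₈, hε₈⟩ : ∃ x : ℝ, x = min ε (ε₄ / 2) := ⟨_, rfl⟩
  have hε₈0 : 0 < ε₈ := by
    rw [hε₈]
    exact lt_min hε (by linarith)
  have e81 : ε₈ ≤ ε := by
    rw [hε₈]
    exact min_le_left _ _
  have e84 : ε₈ ≤ ε₄ / 2 := by
    rw [hε₈]
    exact min_le_right _ _
  obtain ⟨n₈, h8⟩ := hGENX W F r ε₈ hr hcrit hcol hgen hε₈0
  refine ⟨max C₁ C₂, N₃, hC₁.trans (le_max_left _ _), ?_⟩
  intro n₀
  obtain ⟨m₀, hm₀⟩ := hX (n₀ + n₂ + n₃ + n₄ + n₅ + n₆ + n₇ + n₈ + (b₁ + N₃) ^ 4 +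
    ⌈C₂ / ε₇⌉₊ + 1)
  refine ⟨m₀, ?_⟩
  intro m hm
  obtain ⟨n, D, B, hn, hD, hB, hB1, hBn, hex, hall⟩ := hm₀ m hm
  subst hD
  obtain ⟨K, hK⟩ : ∃ K, K = (b₁ + N₃) ^ 4 := ⟨_, rfl⟩
  rw [← hK] at hn
  have hn0 : (0 : ℝ) < n := by
    have : 0 < n := by omega
    exact_mod_cast this
  have hroot : ((b₁ + N₃ : ℕ) : ℝ) ≤ Real.sqrt (Real.sqrt n) := root_ge (by
    rw [← hK]
    omega)
  have hC₂n : C₂ ≤ ε₇ * n := by
    have h9 : C₂ / ε₇ ≤ n := by
      refine (Nat.le_ceil _).trans ?_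
      have : ⌈C₂ / ε₇⌉₊ ≤ n := by omega
      exact_mod_cast this
    rw [div_le_iff₀ hε₇] at h9
    linarith
  have hqn : qq r * (n : ℝ) ≤ n := by
    have := mul_le_mul_of_nonneg_right (qq_up r) hn0.le
    linarith
  have hqn0 : 0 ≤ qq r * (n : ℝ) := mul_nonneg (qq_nn hr) hn0.le
  -- consequences of `D ≥ N₃ h`
  have hlow : (N₃ : ℝ) * Real.sqrt (Real.sqrt n) ≤ D → b₁ ≤ D ∧ N₃ ≤ D := by
    intro h
    have h9 : ((b₁ + N₃ : ℕ) : ℝ) ≤ D := by
      refine hroot.trans (le_trans ?_ h)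
      have h10 : (1 : ℝ) ≤ N₃ := by exact_mod_cast hN31
      exact le_mul_of_one_le_left (Real.sqrt_nonneg _) h10
    have h11 : b₁ + N₃ ≤ D := by exact_mod_cast h9
    omega
  -- small `D`
  have hsmall : ∀ (V : Type) [Fintype V] (G : SimpleGraph V),
      IsMaximiser r ((SimpleGraph.turanGraph n r).edgeSet.ncard + D) F G →
      (N₃ : ℝ) * Real.sqrt (Real.sqrt n) ≤ D → (D : ℝ) ≤ ε₄ * n → AltI r n D N₃ G →
      IsG0 r n D G := by
    intro V _ G hG hDl hDu hA
    obtain ⟨hb, hN⟩ := hlow hDl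
    refine h3 n (by omega) D hb (hDu.trans (mul_le_mul_of_nonneg_right e43 hn0.le)) hN ?_ V G
      hG hA
    have h9 : (D : ℝ) ≤ 1 / ((N₃ : ℝ) + 1) * n :=
      hDu.trans (mul_le_mul_of_nonneg_right e4N hn0.le)
    have h10 : ((N₃ : ℝ) + 1) * D ≤ n := by
      rw [one_div, inv_mul_eq_div, le_div_iff₀ (by linarith)] at h9
      linarith
    have h11 : (N₃ : ℝ) * D ≤ n := by
      have : (0 : ℝ) ≤ D := Nat.cast_nonneg _
      linarith
    exact_mod_cast h11
  refine ⟨n, D, by omega, rfl, by omega, hex, ?_⟩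
  intro V _ G hG
  constructor
  · rcases (hall V G hG).2 with ⟨hA, hDu⟩ | hA
    · rcases lt_or_ge (D : ℝ) ((N₃ : ℝ) * Real.sqrt (Real.sqrt n)) with hlt | hge
      · right
        obtain ⟨g, hg, hdev⟩ := h6 V G n D (by omega) hlt.le hG.1.size (altI_mono hA hN13)
        exact ⟨n, g, Or.inl rfl, nk_mono hg (le_max_right _ _),
          h7 V G g n _ (by omega) hG hg (hdev.trans hC₂n)⟩
      · left
        refine ⟨?_, hDu⟩
        rcases le_or_gt (D : ℝ) (ε₄ * n) with hle | hgt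
        · exact hsmall V G hG hge hle (altI_mono hA hN13)
        · obtain ⟨-, g, w, hBd, -⟩ := hA
          refine h4 V G g w n D (by omega) ?_ hDu hG (bd_mono hBd hN13)
          have h9 : ε₄ / 2 * (qq r * (n : ℝ)) ≤ ε₄ / 2 * n :=
            mul_le_mul_of_nonneg_left hqn (by linarith)
          have h10 : 0 ≤ ε₄ / 2 * n := mul_nonneg (by linarith) hn0.le
          linarith
    · right
      obtain ⟨g, hg, hgg⟩ := h5 V G (n + 1) B _ (by omega) (by omega) hB hG hA
      exact ⟨n + 1, g, Or.inr rfl, nk_mono hg (le_max_left _ _), hgg⟩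
  · intro hDl hDu
    rcases le_or_gt (D : ℝ) (ε₄ * n) with hle | hgt
    · exact hsmall V G hG hDl hle (altI_mono (h2 n (by omega) D
        (hle.trans (mul_le_mul_of_nonneg_right e42 hn0.le)) V G hG) hN23)
    · have hRR : RR r n D ε₈ := by
        constructor
        · have h9 : ε₈ * (qq r * (n : ℝ)) ≤ ε₄ / 2 * n :=
            mul_le_mul e84 hqn hqn0 (by linarith)
          have h10 : 0 ≤ ε₄ / 2 * n := mul_nonneg (by linarith) hn0.le
          linarith
        · refine hDu.trans (mul_le_mul_of_nonneg_right ?_ hqn0)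
          linarith
      exact (((h8 n (by omega) D hRR).2 V G).1 hG).1.1

end MP0c3a8f

end

section

/-!
# MP_0c3a8f_co: the extremal graphs in the generic case for all sufficiently large `m`
-/

set_option autoImplicit false

open Finset

namespace MP0c3a8f

namespace GENA

/-- the parts have at least two vertices -/
theorem siz_two {V : Type} {r : ℕ} {k : ℕ} {C : ℝ} {G : SimpleGraph V} {g : V → Option (Fin r)}
    (hr : 3 ≤ r) (hC : 0 ≤ C) (hk : (r : ℝ) * (r * C + 4) ≤ k) (h : NK k C G g) (t : Fin r) :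
    2 ≤ siz g t := by
  by_contra hlt
  have hs : (siz g t : ℝ) ≤ 1 := by
    have : siz g t ≤ 1 := by omega
    exact_mod_cast this
  have hs0 : (0 : ℝ) ≤ siz g t := Nat.cast_nonneg _
  have hr' : (3 : ℝ) ≤ r := by exact_mod_cast hr
  have hr0 : (0 : ℝ) < r := by linarith
  have htot : (∑ s, (siz g s : ℝ)) = k := by
    have := h.tot
    exact_mod_cast this
  have hd := h.dev
  unfold dev at hd
  rw [htot] at hd
  have h1 : ((siz g t : ℝ) - k / r) ^ 2 ≤ C * k :=
    le_trans (Finset.single_le_sum (f := fun s => ((siz g s : ℝ) - k / r) ^ 2)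
      (fun s _ => sq_nonneg _) (Finset.mem_univ t)) hd
  obtain ⟨x, hx⟩ : ∃ x : ℝ, x = k / r := ⟨_, rfl⟩
  have hkx : (k : ℝ) = r * x := by
    rw [hx]
    field_simp
  have hx1 : r * C + 4 ≤ x := by
    rw [hkx] at hk
    exact le_of_mul_le_mul_left hk hr0
  rw [← hx, hkx] at h1
  have hrC : 0 ≤ r * C := mul_nonneg hr0.le hC
  have h2 : (x - 1) ^ 2 ≤ ((siz g t : ℝ) - x) ^ 2 := by nlinarith
  nlinarith

theorem tz_two {r n : ℕ} (hr : 1 ≤ r) (hn : 2 * r ≤ n) (t : Fin r) : 2 ≤ tz r n t := by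
  have : 2 ≤ n / r := (Nat.le_div_iff_mul_le (by omega)).2 hn
  unfold tz
  omega

theorem sum_tz (hDEV : DEV_statement) {r n : ℕ} (hr : 1 ≤ r) : ∑ t, tz r n t = n := by
  obtain ⟨σ, hσ⟩ : ∃ σ : Fin r → ℕ, ∑ t, σ t = n := by
    refine ⟨fun t => if t = ⟨0, by omega⟩ then n else 0, ?_⟩
    simp
  exact (hDEV r n σ hr hσ).1

/-- the candidates are in the class -/
theorem mem (hMEMZ : MEMZ_statement) (hMEMW : MEMW_statement) (hMEMX : MEMX_statement)
    {W : Type} {F : SimpleGraph W} {r n m : ℕ} (hr : 3 ≤ r) {V : Type} [Fintype V]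
    {G : SimpleGraph V} (h : IsU0 r n m G) (hF : F.Free G) : InN r m F G := by
  obtain ⟨σ, _, h2, hsz, hor⟩ := h
  rcases hor with ⟨f, w, hT, hs, hp⟩ | ⟨f, w, q, c, i, L, hT, hs, _, _, _⟩
  · obtain ⟨m1, m2, _⟩ := hMEMZ r V G f w hr hT (fun t => by rw [hs t]; have := h2 t; omega)
    refine ⟨hF, hsz, m2 ?_, ?_⟩
    · calc 1 ≤ nbn G f w ⟨0, by omega⟩ := hp _
        _ ≤ ∑ t, nbn G f w t := Finset.single_le_sum (fun t _ => Nat.zero_le _) (mem_univ _)
    · rw [m1]
      rintro ⟨t, ht⟩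
      have := hp t
      omega
  · obtain ⟨x1, _, x3, _, x5⟩ := hMEMX r V G f w q c i L hr hT
    obtain ⟨w1, w2, _⟩ := hMEMW r V G f w hr x1 hT.out x5 (fun t => by rw [x3 t])
    exact ⟨hF, hsz, w2, w1⟩

end GENA

theorem prfGENA : DEV_statement → FINR_statement → MEMZ_statement → MEMW_statement →
    MEMX_statement → GENA_statement := by
  intro hDEV hFINR hMEMZ hMEMW hMEMX W _ F r ε hr hcr hcol hncol hgen hε
  obtain ⟨C, N, hC, hf⟩ := hFINR W F r ε hr hcr hcol hncol hgen hε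
  obtain ⟨m₀, hm₀⟩ := hf (⌈(r : ℝ) * (r * C + 4)⌉₊ + 2 * r)
  refine ⟨N, m₀, ?_⟩
  intro m hm
  obtain ⟨n, D, hn, hD, hm1, hex, hmx⟩ := hm₀ m hm
  have hnr : 2 * r ≤ n := by omega
  have hnC : (r : ℝ) * (r * C + 4) ≤ n := by
    refine (Nat.le_ceil _).trans ?_
    have : ⌈(r : ℝ) * (r * C + 4)⌉₊ ≤ n := by omega
    exact_mod_cast this
  have hG0 : ∀ (V : Type) [Fintype V] (G : SimpleGraph V), IsG0 r n D G → F.Free G →
      InN r m F G := by
    intro V _ G h hF
    rw [← hD]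
    exact GENX.mem hDEV hMEMZ hr (by omega) h hF
  have fwd : ∀ (V : Type) [Fintype V] (G : SimpleGraph V), IsMaximiser r m F G →
      IsU0 r n m G ∧ F.Free G := by
    intro V _ G hG
    refine ⟨?_, hG.1.free⟩
    rcases (hmx V G hG).1 with ⟨⟨f, w, hT, hs, _, hp⟩, _⟩ | ⟨k, g, hk, hNK, hor⟩
    · exact ⟨tz r n, Or.inl (GENA.sum_tz hDEV (by omega)), GENA.tz_two (by omega) hnr,
        hG.1.size, Or.inl ⟨f, w, hT, hs, hp⟩⟩
    · refine ⟨siz g, ?_, ?_, hG.1.size, ?_⟩
      · rw [hNK.tot]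
        exact hk
      · refine GENA.siz_two hr hC (hnC.trans ?_) hNK
        have : n ≤ k := by omega
        exact_mod_cast this
      · rcases hor with ⟨w, hT, hp⟩ | ⟨w, q, c, i, L, hT, h1, h2, h3⟩
        · exact Or.inl ⟨g, w, hT, fun _ => rfl, hp⟩
        · exact Or.inr ⟨g, w, q, c, i, L, hT, fun _ => rfl, h1, h2, h3⟩
  refine ⟨n, D, hD, hm1, hex, ?_, ?_⟩
  · intro V _ G
    constructor
    · intro hG
      refine ⟨fwd V G hG, ?_⟩
      intro U _ H hH hFH
      exact hG.2 U H (GENA.mem hMEMZ hMEMW hMEMX hr hH hFH)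
    · rintro ⟨⟨h1, h2⟩, h3⟩
      refine ⟨GENA.mem hMEMZ hMEMW hMEMX hr h1 h2, ?_⟩
      intro U _ H hH
      obtain ⟨k, M, hM⟩ := hex
      obtain ⟨g1, g2⟩ := fwd (Fin k) M hM
      exact (hM.2 U H hH).trans (h3 (Fin k) M g1 g2)
  · intro hl hu V _ G
    constructor
    · intro hG
      refine ⟨⟨(hmx V G hG).2 hl hu, hG.1.free⟩, ?_⟩
      intro U _ H hH hFH
      exact hG.2 U H (hG0 U H hH hFH)
    · rintro ⟨⟨h1, h2⟩, h3⟩
      refine ⟨hG0 V G h1 h2, ?_⟩
      intro U _ H hH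
      obtain ⟨k, M, hM⟩ := hex
      exact (hM.2 U H hH).trans (h3 (Fin k) M ((hmx (Fin k) M hM).2 hl hu) hM.1.free)

end MP0c3a8f

end

section

/-!
# MP_0c3a8f_co, phase B, item JFZT
-/

open Finset

namespace MP0c3a8f

namespace JFZT

/-- the main term -/
theorem gval (r : ℕ) (hr : 3 ≤ r) (x ε : ℝ) (α b : ℕ) (hε : 0 < ε) (hx1 : ε ≤ x)
    (hx2 : x ≤ 1 - 2 / (r : ℝ) + 1 / (4 * (r : ℝ) ^ 2)) (h0 : ¬ (α = 0 ∧ b = 0)) :
    min ε (1 / (r : ℝ)) ≤ (2 - 2 * x) * (α : ℝ) + 2 * x * b - x ^ 3 / r := by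
  have hr3 : (3 : ℝ) ≤ r := by exact_mod_cast hr
  have hr0 : (0 : ℝ) < r := by linarith
  have hx0 : 0 < x := lt_of_lt_of_le hε hx1
  have hu1 : 1 / (r : ℝ) ≤ 1 / 3 := one_div_le_one_div_of_le (by norm_num) hr3
  have hr1 : 0 < 1 / (r : ℝ) := by positivity
  have hu2 : 1 / (4 * (r : ℝ) ^ 2) = (1 / (r : ℝ)) * (1 / (r : ℝ)) / 4 := by field_simp
  have hu3 : (1 / (r : ℝ)) * (1 / (r : ℝ)) ≤ 1 / 3 * (1 / (r : ℝ)) :=
    mul_le_mul_of_nonneg_right hu1 hr1.le
  have h2r' : 2 / (r : ℝ) = 2 * (1 / r) := by ring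
  rw [hu2, h2r'] at hx2
  have hxle : x ≤ 1 := by linarith
  have hx3 : x ^ 3 ≤ 1 := pow_le_one₀ hx0.le hxle
  have hx3r : x ^ 3 / r ≤ 1 / r := by gcongr
  have hx3x : x ^ 3 / r ≤ x := by
    rw [div_le_iff₀ hr0]
    have : x ^ 3 = x * x ^ 2 := by ring
    rw [this]
    refine mul_le_mul_of_nonneg_left ?_ hx0.le
    nlinarith
  have hα0 : (0 : ℝ) ≤ α := by positivity
  have hb0 : (0 : ℝ) ≤ b := by positivity
  rcases Nat.eq_zero_or_pos α with ha | ha
  · have hb : (1 : ℝ) ≤ b := by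
      have : 1 ≤ b := by
        rcases Nat.eq_zero_or_pos b with h | h
        · exact absurd ⟨ha, h⟩ h0
        · exact h
      exact_mod_cast this
    have h3 : 0 ≤ (2 - 2 * x) * (α : ℝ) := mul_nonneg (by linarith) hα0
    have h4 : 2 * x * 1 ≤ 2 * x * b := mul_le_mul_of_nonneg_left hb (by positivity)
    exact (min_le_left _ _).trans (by linarith)
  · have ha1 : (1 : ℝ) ≤ α := by exact_mod_cast ha
    have h3 : (2 - 2 * x) * 1 ≤ (2 - 2 * x) * (α : ℝ) :=
      mul_le_mul_of_nonneg_left ha1 (by linarith)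
    have h4 : 0 ≤ 2 * x * b := by positivity
    exact (min_le_right _ _).trans (by linarith)

/-- the final comparison -/
theorem core (r N n D : ℕ) (hr : 3 ≤ r) (hn : 1 ≤ n) (hnN : r ^ 2 * (N + 1) ≤ n)
    (σ a a' : Fin r → ℕ) (α b : ℕ) (x : ℝ) (hxD : (D : ℝ) = x * (qq r * n)) (hx0 : 0 ≤ x)
    (hx2 : x ≤ 1 - 2 / (r : ℝ) + 1 / (4 * (r : ℝ) ^ 2)) (hDEV : DEV_statement) (hσ : ∑ t, σ t = n) (hdev : dev σ ≤ N)
    (ha : ∀ t, a t ≤ σ t) (hαb : α + b ≤ N)
    (hm : 2 * D + 2 * α + ∑ t, σ t ^ 2 = ∑ t, tz r n t ^ 2 + 2 * ∑ t, a t + 2 * b)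
    (hD1 : 1 ≤ D) (hT : Tg1 r n (D - 1) a') :
    |(∑ t, (a t : ℝ)) - D| ≤ 3 * N ∧
    (2 - 2 * x) * (α : ℝ) + 2 * x * b - x ^ 3 / r
        - ((12 * N + 4 + 2 * r) / n + 2 * r * (N + 1) / n + (2 * r ^ 2 + r) / n) ≤
      ((1 - 2 * x) * (∑ t, (a t : ℝ) - D) + (1 / 2 - 1 / (r : ℝ)) * dev σ
        + 2 * x / r * ∑ t, (r * (a t : ℝ) / n) * ((σ t : ℝ) - n / r)
        + x ^ 2 / (qq r * r ^ 2) * ∑ t, (r * (a t : ℝ) / n) ^ 2 + (α + b)) -
      ((1 - 2 * x) * (∑ t, (a' t : ℝ) - D) + (1 / 2 - 1 / (r : ℝ)) * dev (tz r n)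
        + 2 * x / r * ∑ t, (r * (a' t : ℝ) / n) * ((tz r n t : ℝ) - n / r)
        + x ^ 2 / (qq r * r ^ 2) * ∑ t, (r * (a' t : ℝ) / n) ^ 2) := by
  have hn0 : (0 : ℝ) < n := by exact_mod_cast hn
  have hr3 : (3 : ℝ) ≤ r := by exact_mod_cast hr
  have hr0 : (0 : ℝ) < r := by linarith
  have hq : qq r = 1 - 1 / (r : ℝ) := rfl
  have hqr : qq r * r = r - 1 := by rw [hq]; field_simp
  have hxle : x ≤ 1 := JFT.x_le r x hr3 hx2
  obtain ⟨s, W, hsr, hssum, hW, hWdev, hdT0, hW0, hWN, hh⟩ :=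
    JF1.basic r N n D hr σ a α b hDEV hσ hdev hαb hm
  obtain ⟨hκ1, hrn1⟩ := JF1.kap_le r N n (by omega) hn hnN
  have hκ0 : 0 ≤ (r : ℝ) * (N + 1) / n := by positivity
  have hmod : n % r < r := Nat.mod_lt _ (by omega)
  have hdm : (r : ℝ) * ((n / r : ℕ) : ℝ) + ((n % r : ℕ) : ℝ) = n := by
    exact_mod_cast Nat.div_add_mod n r
  have hρ0 : (0 : ℝ) ≤ ((n % r : ℕ) : ℝ) := by positivity
  have hρr : ((n % r : ℕ) : ℝ) ≤ r := by exact_mod_cast hmod.le
  have hσr : ∑ t, (σ t : ℝ) = n := by exact_mod_cast hσ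
  have hαbr : (α : ℝ) + b ≤ N := by exact_mod_cast hαb
  have hα0 : (0 : ℝ) ≤ α := by positivity
  have hb0 : (0 : ℝ) ≤ b := by positivity
  have hhN : |(∑ t, (a t : ℝ)) - D| ≤ 3 * N := by
    rw [hh, abs_le]; constructor <;> linarith
  refine ⟨hhN, ?_⟩
  have ha'0 : ∑ t, (a' t : ℝ) = D := by
    have h1 : ∑ t, a' t = D := by rw [hT.2.2.1]; omega
    exact_mod_cast h1
  have ha' : ∑ t, (a' t : ℝ) - D = 0 := by linarith
  have hθ0 : ∀ t, 0 ≤ r * (a t : ℝ) / n := fun t => by positivity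
  have hθ1 : ∀ t, r * (a t : ℝ) / n ≤ 1 + r * (N + 1) / n := fun t => by
    refine JF1.theta_le r N n (σ t) (a t) hr0 hn0 (le_trans ?_ hdev) (by exact_mod_cast ha t)
    have h1 := Finset.single_le_sum (f := fun t => ((σ t : ℝ) - (∑ s, (σ s : ℝ)) / r) ^ 2)
      (fun t _ => sq_nonneg _) (Finset.mem_univ t)
    simp only [hσr] at h1
    unfold dev
    rw [hσr]
    exact h1
  have hThe : ∑ t, r * (a t : ℝ) / n = r * (∑ t, (a t : ℝ)) / n := by
    rw [← Finset.sum_div, ← Finset.mul_sum]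
  have hThe' : ∑ t, r * (a' t : ℝ) / n = r * (∑ t, (a' t : ℝ)) / n := by
    rw [← Finset.sum_div, ← Finset.mul_sum]
  have hdiff : |∑ t, r * (a t : ℝ) / n - ∑ t, r * (a' t : ℝ) / n| ≤ r * (3 * N + 1) / n := by
    have : ∑ t, r * (a t : ℝ) / n - ∑ t, r * (a' t : ℝ) / n =
        r * (∑ t, (a t : ℝ) - D) / n := by
      rw [hThe, hThe', ha'0]; ring
    rw [this, abs_div, abs_mul, abs_of_pos hr0, abs_of_pos hn0]
    refine div_le_div_of_nonneg_right (mul_le_mul_of_nonneg_left ?_ hr0.le) hn0.le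
    linarith
  have hThx : ∑ t, r * (a' t : ℝ) / n = (r - 1) * x := by
    rw [hThe', ha'0, hxD]
    have : (r : ℝ) * (x * (qq r * n)) / n = (qq r * r) * x := by field_simp
    rw [this, hqr]
  have hp : x / r * (1 + r * (N + 1) / n) ≤ qq r - x := JFT.p_le r x _ hr3 hx0 hx2 hκ1
  have hlin := JF1.linear (by omega : 1 ≤ r) (qq r - x) x _ (fun t => r * (a t : ℝ) / n) s _ hx0 hp
    hθ0 hθ1 hκ0 (hκ1.trans ((div_le_one hr0).2 (by linarith))) hssum
  rw [hW] at hlin
  have hL := JF1.target_large hr hn a' hT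
  have hsq := JF1.target_sq hr hn a' (fun t => (hT.2.1 t).2)
  have hrn0 : 0 ≤ (r : ℝ) / n := by positivity
  have hsq' : ∑ t, (r * (a' t : ℝ) / n) ^ 2 ≤ (1 + r / n) * ((r - 1) * x + r / n) := by
    refine hsq.trans (mul_le_mul_of_nonneg_left ?_ (by positivity))
    rw [hThx]; linarith
  have hQ' := JF1.Q_le r n x (qq r) _ _ hr3 hn0 hx0 hxle hqr hrn1 rfl hsq'
  have hnr : (n : ℝ) / r = ((n / r : ℕ) : ℝ) + ((n % r : ℕ) : ℝ) / r := by
    rw [← hdm]; field_simp
  have e1 : ∑ t, (r * (a t : ℝ) / n) * ((σ t : ℝ) - n / r) =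
      ∑ t, (r * (a t : ℝ) / n) * s t - ((n % r : ℕ) : ℝ) / r * ∑ t, r * (a t : ℝ) / n := by
    rw [Finset.mul_sum, ← Finset.sum_sub_distrib]
    refine Finset.sum_congr rfl fun t _ => ?_
    rw [hsr t, hnr]; ring
  have e1' : ∑ t, (r * (a' t : ℝ) / n) * ((tz r n t : ℝ) - n / r) =
      ∑ t, (r * (a' t : ℝ) / n) * (if t.val < n % r then (1 : ℝ) else 0) -
        ((n % r : ℕ) : ℝ) / r * ∑ t, r * (a' t : ℝ) / n := by
    rw [Finset.mul_sum, ← Finset.sum_sub_distrib]
    refine Finset.sum_congr rfl fun t _ => ?_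
    have : (tz r n t : ℝ) = ((n / r : ℕ) : ℝ) + if t.val < n % r then (1 : ℝ) else 0 := by
      unfold tz; split_ifs <;> push_cast <;> ring
    rw [this, hnr]; ring
  have hD := JF1.D_le r n N x ((n % r : ℕ) : ℝ) _ _ _ hr0 hn0 hx0 hxle hρ0 hρr hdiff hL
  have hD4 : 2 * x * (r * (N + 1) / n) ≤ 2 * r * (N + 1) / n := by
    calc 2 * x * (r * (N + 1) / n) ≤ 2 * 1 * (r * (N + 1) / n) :=
          mul_le_mul_of_nonneg_right (by linarith) hκ0
      _ = _ := by ring
  rw [e1, e1', hh, ha', hWdev]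
  have hQ1 : 0 ≤ x ^ 2 / (qq r * r ^ 2) * ∑ t, (r * (a t : ℝ) / n) ^ 2 := by
    have hqpos : 0 ≤ qq r := by
      have : 1 / (r : ℝ) ≤ 1 := (div_le_one hr0).2 (by linarith)
      rw [hq]; linarith
    have : 0 ≤ ∑ t, (r * (a t : ℝ) / n) ^ 2 := Finset.sum_nonneg fun t _ => sq_nonneg _
    positivity
  exact JFZ.assemble x α b (qq r) (1 / 2 - 1 / (r : ℝ)) W (dev (tz r n)) (2 * x / r) _ _ _ _ _ _ _ _ _ _
    _ _ _ (by rw [hq]; ring) hlin hQ1 hQ' hD le_rfl hD4

/-- the general comparison -/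
theorem gen (hE : EXP_statement) (hDEV : DEV_statement) (r : ℕ) (ε : ℝ) (hr : 3 ≤ r)
    (hε : 0 < ε) : ∃ c > (0 : ℝ), ∀ N : ℕ, ∃ n₀ : ℕ, ∀ n ≥ n₀, ∀ D : ℕ,
    ε * (qq r * n) ≤ D →
    (D : ℝ) ≤ (1 - 2 / (r : ℝ) + 1 / (4 * (r : ℝ) ^ 2)) * (qq r * n) →
    ∀ (σ a a' : Fin r → ℕ) (α b : ℕ),
    ∑ t, σ t = n → dev σ ≤ N → (∀ t, a t ≤ σ t) → α + b ≤ N →
    2 * D + 2 * α + ∑ t, σ t ^ 2 = ∑ t, tz r n t ^ 2 + 2 * ∑ t, a t + 2 * b →
    ¬ (α = 0 ∧ b = 0) → Tg1 r n (D - 1) a' → 1 ≤ D →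
    Kap r (tz r n) a' + c ≤ Kap r σ a + 2 * qq r * (α + b) := by
  have hr3 : (3 : ℝ) ≤ r := by exact_mod_cast hr
  have hr0 : (0 : ℝ) < r := by linarith
  have hr1 : 1 / (r : ℝ) ≤ 1 / 3 := by
    apply one_div_le_one_div_of_le <;> linarith
  have hq0 : 0 < qq r := by
    have : qq r = 1 - 1 / (r : ℝ) := rfl
    linarith
  have hq1 : qq r ≤ 1 := by
    have : qq r = 1 - 1 / (r : ℝ) := rfl
    have : 0 < 1 / (r : ℝ) := by positivity
    linarith
  set g : ℝ := min ε (1 / (r : ℝ)) with hg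
  have h5 : (0 : ℝ) < g := lt_min hε (by positivity)
  refine ⟨qq r * g, by positivity, fun N => ?_⟩
  obtain ⟨n₁, hn₁⟩ := hE r (3 * N + 3 * r) (qq r * g / 4) hr (by positivity)
  set K : ℝ := (12 * N + 4 + 2 * r) + 2 * r * (N + 1) + (2 * r ^ 2 + r) with hK
  have hK0 : 0 < K := by positivity
  obtain ⟨n₂, hn₂⟩ := exists_nat_gt (K / (g / 4))
  refine ⟨n₁ + n₂ + r ^ 2 * (N + 1) + 1, fun n hn D hD0 hD2 σ a a' α b hσ hdev ha hαb hm h0 hT hD1 =>
    ?_⟩
  have hn0 : (0 : ℝ) < n := by exact_mod_cast (by omega : 0 < n)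
  have hqn : 0 < qq r * n := by positivity
  set x : ℝ := D / (qq r * n) with hx
  have hxD : (D : ℝ) = x * (qq r * n) := by rw [hx]; field_simp
  have hx1 : ε ≤ x := by
    rw [hx, le_div_iff₀ hqn]; exact hD0
  have hx2 : x ≤ 1 - 2 / (r : ℝ) + 1 / (4 * (r : ℝ) ^ 2) := by
    rw [hx, div_le_iff₀ hqn]; exact hD2
  have hx0 : 0 ≤ x := by positivity
  obtain ⟨c1, c2⟩ := JFZT.core r N n D hr (by omega) (by omega) σ a a' α b x hxD hx0 hx2 hDEV hσ hdev
    ha hαb hm hD1 hT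
  have c3 := JFZT.gval r hr x ε α b hε hx1 hx2 h0
  have hDn : D ≤ n := by
    have : (D : ℝ) ≤ n := by
      rw [hxD]
      have hx' : x ≤ 1 := JFT.x_le r x hr3 hx2
      calc x * (qq r * n) ≤ 1 * (1 * n) := by gcongr
        _ = n := by ring
    exact_mod_cast this
  have hN' : ((3 * N + 3 * r : ℕ) : ℝ) = 3 * N + 3 * r := by push_cast; ring
  have hNn : (0 : ℝ) ≤ N := by positivity
  have d1 := hn₁ n D σ a (by omega) hσ (by rw [hN']; linarith) ha hDn
    (by rw [hN']; linarith)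
  obtain ⟨hT1, -, hdT, -, -, -⟩ := hDEV r n (tz r n) (by omega) (hDEV r n σ (by omega) hσ).1
  have ha' : ∑ t, (a' t : ℝ) - D = 0 := by
    have h1 : ∑ t, a' t = D := by rw [hT.2.2.1]; omega
    have h' : ∑ t, (a' t : ℝ) = D := by exact_mod_cast h1
    linarith
  have d2 := hn₁ n D (tz r n) a' (by omega) hT1 (by rw [hN']; linarith) (fun t => (hT.2.1 t).2) hDn
    (by rw [hN', ha']; simp only [abs_zero]; linarith)
  have hKn : K / n ≤ g / 4 := by
    have h6 : (n₂ : ℝ) ≤ n := by exact_mod_cast (by omega : n₂ ≤ n)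
    rw [div_lt_iff₀ (by positivity)] at hn₂
    rw [div_le_iff₀ hn0]
    nlinarith
  rw [← add_div, ← add_div, ← hK] at c2
  have d1' := (abs_le.1 d1).1
  have d2' := (abs_le.1 d2).2
  unfold Kx at d1' d2'
  simp only [← hx] at d1' d2'
  set J1 : ℝ := (1 - 2 * x) * (∑ t, (a t : ℝ) - D) + (1 / 2 - 1 / (r : ℝ)) * dev σ
        + 2 * x / r * ∑ t, (r * (a t : ℝ) / n) * ((σ t : ℝ) - n / r)
        + x ^ 2 / (qq r * r ^ 2) * ∑ t, (r * (a t : ℝ) / n) ^ 2 with hJ1
  set J2 : ℝ := (1 - 2 * x) * (∑ t, (a' t : ℝ) - D) + (1 / 2 - 1 / (r : ℝ)) * dev (tz r n)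
        + 2 * x / r * ∑ t, (r * (a' t : ℝ) / n) * ((tz r n t : ℝ) - n / r)
        + x ^ 2 / (qq r * r ^ 2) * ∑ t, (r * (a' t : ℝ) / n) ^ 2 with hJ2
  have c4 : g - g / 4 ≤ J1 + (α + b) - J2 := by linarith
  have c5 := mul_le_mul_of_nonneg_left c4 (by positivity : (0 : ℝ) ≤ 2 * qq r)
  have c6 : 2 * qq r * (J1 + (α + b) - J2) =
      2 * qq r * J1 + 2 * qq r * (α + b) - 2 * qq r * J2 := by ring
  have c7 : 2 * qq r * (g - g / 4) = 3 / 2 * (qq r * g) := by ring
  rw [c6, c7] at c5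
  linarith

end JFZT

theorem prfJFZT : EXP_statement → DEV_statement → JFZT_statement := by
  intro hE hDEV r ε hr hε
  obtain ⟨c, hc, H⟩ := JFZT.gen hE hDEV r ε hr hε
  refine ⟨c, hc, fun N => ?_⟩
  obtain ⟨n₀, hn₀⟩ := H (N + r)
  refine ⟨n₀, fun n hn D hD0 hD2 a a' π α b ha hαb hs h0 hT hD1 => ?_⟩
  have hTn : ∑ t, tz r n t = n :=
    (hDEV r n (fun t => if t = ⟨0, by omega⟩ then n else 0) (by omega) (by simp)).1
  have hσ : ∑ t, tz r n (π t) = n := (Equiv.sum_comp π (tz r n)).trans hTn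
  have hσ2 : ∑ t, tz r n (π t) ^ 2 = ∑ t, tz r n t ^ 2 :=
    Equiv.sum_comp π (fun t => tz r n t ^ 2)
  have hdev : dev (fun t => tz r n (π t)) ≤ ((N + r : ℕ) : ℝ) := by
    have h1 := (hDEV r n (fun t => tz r n (π t)) (by omega) hσ).2.2.2.1
    have h2 := (hDEV r n (tz r n) (by omega) hTn).2.2.2.1
    have h3 := (hDEV r n (tz r n) (by omega) hTn).2.2.1
    have h4 : ∑ t, (tz r n (π t) : ℝ) ^ 2 = ∑ t, (tz r n t : ℝ) ^ 2 :=
      Equiv.sum_comp π (fun t => (tz r n t : ℝ) ^ 2)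
    rw [h1, h4, ← h2]
    refine h3.trans ?_
    push_cast
    have : (0 : ℝ) ≤ N := by positivity
    linarith
  exact hn₀ n hn D hD0 hD2 (fun t => tz r n (π t)) a a' α b hσ hdev ha (by omega)
    (by rw [hσ2]; omega) h0 hT hD1

end MP0c3a8f

end

section

/-!
# MP_0c3a8f_co: graphs with one vertex outside of the parts
-/

set_option autoImplicit false

open Finset

namespace MP0c3a8f

set_option linter.unusedSectionVars false

namespace ItemMEMW

variable {r : ℕ} {V : Type} [Fintype V] {G : SimpleGraph V} {f : V → Option (Fin r)} {w : V}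

/-- in every large class there is a vertex in no missing pair -/
theorem exists_clean (ha : ∀ t, (missSet G f).ncard + 1 ≤ siz f t) (t : Fin r) :
    ∃ x, f x = some t ∧ ∀ v, f v ≠ none → f v ≠ some t → G.Adj x v := by
  classical
  by_contra hc
  push Not at hc
  have h1 : ∀ x ∈ {v | f v = some t}, ∃ v, f v ≠ none ∧ f v ≠ some t ∧ ¬ G.Adj x v := by
    intro x hx
    exact hc x hx
  choose! u hu using h1
  have h2 : siz f t ≤ (missSet G f).ncard := by
    unfold siz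
    refine Set.ncard_le_ncard_of_injOn (fun x => s(x, u x)) ?_ ?_ (Set.toFinite _)
    · intro x hx
      obtain ⟨a1, a2, a3⟩ := hu x hx
      have hx' : f x = some t := hx
      exact ⟨x, u x, rfl, by rw [hx']; simp, a1, by rw [hx']; exact fun h => a2 h.symm, a3⟩
    · intro x hx y hy hxy
      have hx' : f x = some t := hx
      rcases Sym2.eq_iff.1 hxy with ⟨h, _⟩ | ⟨h, _⟩
      · exact h
      · exfalso
        apply (hu y hy).2.1
        rw [← h]
        exact hx'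
  have h3 := ha t
  omega

/-- a vertex of another class has a neighbour in the class `s` -/
theorem exists_nbr (ha : ∀ t, (missSet G f).ncard + 1 ≤ siz f t) (s : Fin r) (v : V)
    (hv : f v ≠ none) (hvs : f v ≠ some s) : ∃ u, f u = some s ∧ G.Adj v u := by
  classical
  by_contra hc
  push Not at hc
  have h2 : siz f s ≤ (missSet G f).ncard := by
    unfold siz
    refine Set.ncard_le_ncard_of_injOn (fun x => s(v, x)) ?_ ?_ (Set.toFinite _)
    · intro x hx
      have hx' : f x = some s := hx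
      exact ⟨v, x, rfl, hv, by rw [hx']; simp, by rw [hx']; exact hvs, hc x hx⟩
    · intro x _ y _ hxy
      rcases Sym2.eq_iff.1 hxy with ⟨_, h⟩ | ⟨h1, h2⟩
      · exact h
      · rw [h2, ← h1]
  have h3 := ha s
  omega

/-- a neighbour of `w` in the class `t` -/
theorem exists_w (h : ∀ t, 1 ≤ nbn G f w t) (t : Fin r) : ∃ v, f v = some t ∧ G.Adj w v := by
  have h1 : {v | f v = some t ∧ G.Adj w v}.Nonempty := by
    apply Set.nonempty_of_ncard_ne_zero
    have := h t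
    unfold nbn at this
    omega
  exact h1

theorem not_col (ha : ∀ t, (missSet G f).ncard + 1 ≤ siz f t) (h : ∀ t, 1 ≤ nbn G f w t) :
    ¬ G.Colorable r := by
  classical
  rintro ⟨c⟩
  choose x hx1 hx2 using exists_clean ha
  have hinj : Function.Injective fun t => c (x t) := by
    intro t s hts
    by_contra hne
    have h1 : G.Adj (x t) (x s) := hx2 t (x s) (by rw [hx1]; simp)
      (by rw [hx1]; simpa using fun h => hne h.symm)
    exact c.valid h1 hts
  have hsur : Function.Surjective fun t => c (x t) := Finite.injective_iff_surjective.1 hinj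
  obtain ⟨t, ht⟩ := hsur (c w)
  obtain ⟨v, hv1, hv2⟩ := exists_w h t
  obtain ⟨s, hs⟩ := hsur (c v)
  by_cases hst : s = t
  · subst hst
    exact c.valid hv2 (by rw [← ht, ← hs])
  · have h1 : G.Adj (x s) v := hx2 s v (by rw [hv1]; simp) (by
      rw [hv1]
      simpa using fun h => hst h.symm)
    exact c.valid h1 hs

theorem no_iso (hr : 3 ≤ r) (hw : ∀ v, f v = none ↔ v = w)
    (ha : ∀ t, (missSet G f).ncard + 1 ≤ siz f t) (h : ∀ t, 1 ≤ nbn G f w t) :
    ∀ v, ∃ u, G.Adj v u := by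
  intro v
  by_cases hv : f v = none
  · rw [(hw v).1 hv]
    obtain ⟨u, _, hu⟩ := exists_w h ⟨0, by omega⟩
    exact ⟨u, hu⟩
  · obtain ⟨t, ht⟩ := Option.ne_none_iff_exists'.1 hv
    have hs : ∃ s : Fin r, s ≠ t := by
      by_cases h0 : t = ⟨0, by omega⟩
      · exact ⟨⟨1, by omega⟩, by rw [h0]; simp⟩
      · exact ⟨⟨0, by omega⟩, fun h => h0 h.symm⟩
    obtain ⟨s, hs⟩ := hs
    obtain ⟨u, _, hu⟩ := exists_nbr ha s v hv (by rw [ht]; simpa using fun h => hs h.symm)
    exact ⟨u, hu⟩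

theorem out_card (hw : ∀ v, f v = none ↔ v = w) :
    (outSet G f).ncard = ∑ t, nbn G f w t := by
  classical
  have h1 : outSet G f = (fun u => s(w, u)) '' {u | G.Adj w u} := by
    ext e
    constructor
    · rintro ⟨he, v, hv, hfv⟩
      have hvw := (hw v).1 hfv
      subst hvw
      obtain ⟨u, rfl⟩ := Sym2.mem_iff_exists.1 hv
      exact ⟨u, he, rfl⟩
    · rintro ⟨u, hu, rfl⟩
      exact ⟨hu, w, Sym2.mem_mk_left w u, (hw w).2 rfl⟩
  have h2 : (outSet G f).ncard = {u | G.Adj w u}.ncard := by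
    rw [h1]
    apply Set.ncard_image_of_injective
    intro x y hxy
    rcases Sym2.eq_iff.1 hxy with ⟨_, h⟩ | ⟨h1, h2⟩
    · exact h
    · rw [h2, ← h1]
  rw [h2]
  have h3 : {u | G.Adj w u}.ncard = (univ.filter fun u => G.Adj w u).card := by
    rw [← Set.ncard_coe_finset]
    congr 1
    ext u
    simp
  rw [h3, Finset.card_eq_sum_card_fiberwise (f := f) (t := univ) (fun _ _ => mem_univ _),
    Fintype.sum_option]
  have h4 : ((univ.filter fun u => G.Adj w u).filter fun u => f u = none).card = 0 := by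
    rw [Finset.card_eq_zero, Finset.filter_eq_empty_iff]
    intro u hu hfu
    have hu' : G.Adj w u := (mem_filter.1 hu).2
    rw [(hw u).1 hfu] at hu'
    exact G.loopless.irrefl w hu'
  rw [h4, zero_add]
  refine Finset.sum_congr rfl fun t _ => ?_
  unfold nbn
  rw [← Set.ncard_coe_finset]
  congr 1
  ext u
  simp [and_comm]

/-- the graph with complete core -/
def full (G : SimpleGraph V) (f : V → Option (Fin r)) (w : V) : SimpleGraph V where
  Adj u v := (f u ≠ none ∧ f v ≠ none ∧ f u ≠ f v) ∨ (G.Adj u v ∧ (u = w ∨ v = w))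
  symm := ⟨fun u v h => by
    rcases h with ⟨h1, h2, h3⟩ | ⟨h1, h2⟩
    · exact Or.inl ⟨h2, h1, fun h => h3 h.symm⟩
    · exact Or.inr ⟨h1.symm, h2.symm⟩⟩
  loopless := ⟨fun u h => by
    rcases h with ⟨_, _, h3⟩ | ⟨h1, _⟩
    · exact h3 rfl
    · exact G.loopless.irrefl u h1⟩

theorem le_full (hind : Indep G f) (hw : ∀ v, f v = none ↔ v = w) : G ≤ full G f w := by
  intro u v huv
  by_cases hu : u = w
  · exact Or.inr ⟨huv, Or.inl hu⟩
  · by_cases hv : v = w
    · exact Or.inr ⟨huv, Or.inr hv⟩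
    · have hu' : f u ≠ none := fun h => hu ((hw u).1 h)
      exact Or.inl ⟨hu', fun h => hv ((hw v).1 h), fun h => hind u v hu' h huv⟩

theorem ty_full (hw : ∀ v, f v = none ↔ v = w) : Ty0 (full G f w) f w := by
  refine ⟨hw, fun u v hu hv => ⟨fun h => ?_, fun h => Or.inl ⟨hu, hv, h⟩⟩⟩
  rcases h with ⟨_, _, h3⟩ | ⟨_, h2⟩
  · exact h3
  · rcases h2 with h2 | h2
    · exact absurd ((hw u).2 h2) hu
    · exact absurd ((hw v).2 h2) hv

theorem nbn_full (hw : ∀ v, f v = none ↔ v = w) (t : Fin r) :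
    nbn (full G f w) f w t = nbn G f w t := by
  unfold nbn
  congr 1
  ext v
  constructor
  · rintro ⟨h1, h2⟩
    rcases h2 with ⟨h3, _, _⟩ | ⟨h3, _⟩
    · exact absurd ((hw w).2 rfl) h3
    · exact ⟨h1, h3⟩
  · rintro ⟨h1, h2⟩
    exact ⟨h1, Or.inr ⟨h2, Or.inl rfl⟩⟩

end ItemMEMW

open ItemMEMW in
theorem prfMEMW : CNTU_statement → MEMW_statement := by
  classical
  intro hC r V _ G f w hr hind hw ha hn
  refine ⟨not_col ha hn, no_iso hr hw ha hn, out_card hw, ?_, ?_⟩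
  · obtain ⟨e, he, h1⟩ := hC r V G f {w} hind (fun v hv => by
      rw [Finset.mem_singleton] at hv
      rw [hv]
      exact (hw w).2 rfl)
    have he0 : e = 0 := by
      rw [Finset.card_singleton] at he
      omega
    have hl : lightSet G f {w} = ∅ := by
      ext x
      simp only [Set.mem_empty_iff_false, iff_false]
      rintro ⟨_, v, _, hv1, hv2⟩
      exact hv2 (Finset.mem_singleton.2 ((hw v).1 hv1))
    rw [he0, hl, Set.ncard_empty, Finset.sum_singleton] at h1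
    omega
  · intro W _ F i j hG hij hi hj
    have h1 := hG V (full G f w) f w i j hij (ty_full hw) (by rw [nbn_full hw, hi])
      (by rw [nbn_full hw, hj])
    intro hcon
    exact h1 (hcon.mono_right (le_full hind hw))

end MP0c3a8f

end

section

/-!
# MP_0c3a8f_co, phase B, item MEMX: graphs of type `S`
-/

set_option autoImplicit false

open Finset

namespace MP0c3a8f

namespace MEMXx

variable {r : ℕ} {V : Type} [Fintype V] {G : SimpleGraph V} {f : V → Option (Fin r)} {w : V}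
  {q : Fin r → V} {c : V} {i : Fin r} {L : Finset V}

omit [Fintype V] in
theorem fw (h : TyS G f w q c i L) : f w = none := (h.out w).2 rfl

omit [Fintype V] in
theorem indep (h : TyS G f w q c i L) : Indep G f := by
  intro x y hx hxy hadj
  have hy : f y ≠ none := hxy ▸ hx
  exact ((h.core x y hx hy).1 hadj).1 hxy

omit [Fintype V] in
theorem q_inj (h : TyS G f w q c i L) : Function.Injective q := by
  intro s t hst
  have h1 := h.hq s
  rw [hst, h.hq t] at h1
  exact (Option.some_injective _ h1).symm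

theorem miss_card (h : TyS G f w q c i L) : (missSet G f).ncard = L.card := by
  classical
  have h1 : missSet G f = ((L.image fun v => s(c, v) : Finset (Sym2 V)) : Set (Sym2 V)) := by
    ext e
    rw [coe_image]
    constructor
    · rintro ⟨v, u, rfl, hv, hu, hne, hadj⟩
      have h2 : (v = c ∧ u ∈ L) ∨ (u = c ∧ v ∈ L) := by
        by_contra hcon
        push Not at hcon
        exact hadj ((h.core v u hv hu).2 ⟨hne, fun h3 => hcon.1 h3.1 h3.2,
          fun h3 => hcon.2 h3.1 h3.2⟩)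
      rcases h2 with ⟨e1, e2⟩ | ⟨e1, e2⟩
      · exact ⟨u, mem_coe.2 e2, by rw [e1]⟩
      · exact ⟨v, mem_coe.2 e2, by rw [e1]; exact Sym2.eq_swap⟩
    · rintro ⟨v, hv, rfl⟩
      have hv' : v ∈ L := mem_coe.1 hv
      obtain ⟨h2, h3⟩ := h.hL v hv'
      have hne : f c ≠ f v := by
        rw [h.hc]; exact fun h4 => h3 h4.symm
      refine ⟨c, v, rfl, by rw [h.hc]; simp, h2, hne, fun hadj => ?_⟩
      exact ((h.core _ _ (by rw [h.hc]; simp) h2).1 hadj).2.1 ⟨rfl, hv'⟩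
  rw [h1, Set.ncard_coe_finset, card_image_of_injOn]
  intro v _ v' _ hvv
  exact (Sym2.congr_right.1 hvv)

theorem out_card (h : TyS G f w q c i L) : (outSet G f).ncard = r := by
  classical
  have h1 : outSet G f = ((univ.image fun t => s(w, q t) : Finset (Sym2 V)) : Set (Sym2 V)) := by
    ext e
    rw [coe_image]
    induction e using Sym2.ind with
    | _ a b =>
    constructor
    · rintro ⟨he, x, hx, hfx⟩
      have hxw := (h.out x).1 hfx
      subst hxw
      have hadj : G.Adj a b := he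
      rcases Sym2.mem_iff.1 hx with e1 | e1
      · subst e1
        obtain ⟨t, ht⟩ := (h.wn b).1 hadj
        exact ⟨t, by simp, by rw [ht]⟩
      · subst e1
        obtain ⟨t, ht⟩ := (h.wn a).1 hadj.symm
        exact ⟨t, by simp, by rw [ht]; exact Sym2.eq_swap⟩
    · rintro ⟨t, -, ht⟩
      have ht' : s(w, q t) = s(a, b) := ht
      rw [← ht']
      exact ⟨(h.wn _).2 ⟨t, rfl⟩, w, Sym2.mem_mk_left _ _, fw h⟩
  rw [h1, Set.ncard_coe_finset, card_image_of_injective, card_univ, Fintype.card_fin]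
  intro s t hst
  exact q_inj h (Sym2.congr_right.1 hst)

omit [Fintype V] in
theorem nbn_one (h : TyS G f w q c i L) (t : Fin r) : nbn G f w t = 1 := by
  unfold nbn
  rw [Set.ncard_eq_one]
  refine ⟨q t, ?_⟩
  ext v
  simp only [Set.mem_setOf_eq, Set.mem_singleton_iff]
  constructor
  · rintro ⟨h1, h2⟩
    obtain ⟨s, hs⟩ := (h.wn v).1 h2
    rw [hs, h.hq s] at h1
    rw [hs, Option.some_injective _ h1]
  · intro hv
    rw [hv]
    exact ⟨h.hq t, (h.wn _).2 ⟨t, rfl⟩⟩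

end MEMXx

theorem prfMEMX : MEMX_statement := by
  intro r V _ G f w q c i L _ h
  refine ⟨MEMXx.indep h, MEMXx.miss_card h, MEMXx.nbn_one h, MEMXx.out_card h, fun t => ?_⟩
  rw [MEMXx.miss_card h]
  have := h.room t
  omega

end MP0c3a8f

end

section

/-!
# MP_0c3a8f_co: item PEKS (the leaves, type `S`)
-/

set_option autoImplicit false

open Finset

namespace MP0c3a8f

namespace ItemPEKS

open ItemPEV (mv mv_adj)

variable {V : Type} {r : ℕ}

/-- counting of the edges -/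
theorem cnt [Fintype V] (G : SimpleGraph V) (g : V → Option (Fin r)) (hind : Indep G g) :
    2 * G.edgeSet.ncard + 2 * (missSet G g).ncard + ∑ t, siz g t ^ 2
      = (∑ t, siz g t) ^ 2 + 2 * (outSet G g).ncard := by
  have hM : IsModS (siz g) (missSet G g).ncard (outSet G g).ncard G g :=
    ⟨fun t => rfl, hind, rfl, rfl⟩
  have h := prfREDS.2 r (siz g) _ _ V G g hM
  unfold Sz at h
  exact h

section

variable {G : SimpleGraph V} {g : V → Option (Fin r)} {w : V} {q : Fin r → V} {c : V} {i : Fin r}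
  {L : Finset V}

theorem hw (hT : TyS G g w q c i L) : g w = none := (hT.out w).2 rfl

/-- move a missing pair -/
theorem move_c [DecidableEq V] (hT : TyS G g w q c i L) {y y' : V} (hcy : c ≠ y) (hy : y ∈ L)
    (hy' : y' ∉ L) (hy'1 : g y' ≠ none) (hy'2 : g y' ≠ some i) (hqy' : ∀ t, q t ≠ y') :
    TyS (mv G c y' y hcy) g w q c i (insert y' (L.erase y)) where
  out := hT.out
  hq := hT.hq
  wn := by
    intro v
    have hyw : y ≠ w := fun e => (hT.hL y hy).1 (by rw [e]; exact hw hT)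
    have hy'w : y' ≠ w := fun e => hy'1 (by rw [e]; exact hw hT)
    have hcw : c ≠ w := fun e => by
      have h1 := hT.hc
      rw [e, hw hT] at h1
      exact absurd h1 (by simp)
    have h1 : s(w, v) ≠ s(c, y') := by
      intro e
      rcases Sym2.eq_iff.1 e with ⟨e, _⟩ | ⟨e, _⟩
      · exact hcw e.symm
      · exact hy'w e.symm
    have h2 : s(w, v) ≠ s(c, y) := by
      intro e
      rcases Sym2.eq_iff.1 e with ⟨e, _⟩ | ⟨e, _⟩
      · exact hcw e.symm
      · exact hyw e.symm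
    rw [mv_adj, ← hT.wn v]
    constructor
    · rintro (h | h)
      · exact h.1
      · exact absurd h h2
    · intro h
      exact Or.inl ⟨h, h1⟩
  hc := hT.hc
  cq := hT.cq
  hL := by
    intro v hv
    rcases Finset.mem_insert.1 hv with rfl | hv
    · exact ⟨hy'1, hy'2⟩
    · exact hT.hL v (Finset.mem_of_mem_erase hv)
  qL := by
    intro t h
    rcases Finset.mem_insert.1 h with h | h
    · exact hqy' t h
    · exact hT.qL t (Finset.mem_of_mem_erase h)
  core := by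
    intro a b ha hb
    have hyy : y ≠ y' := fun e => hy' (e ▸ hy)
    have hyi := (hT.hL y hy).2
    have key : ∀ b, ((g b ≠ some i ∧ b ∉ L) ∧ b ≠ y') ∨ b = y ↔
        g b ≠ some i ∧ b ∉ insert y' (L.erase y) := by
      intro b
      rw [Finset.mem_insert, Finset.mem_erase]
      by_cases hby : b = y
      · subst hby
        constructor
        · intro _
          refine ⟨hyi, ?_⟩
          rintro (h | h)
          · exact hyy h
          · exact h.1 rfl
        · intro _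
          exact Or.inr rfl
      · constructor
        · rintro (⟨⟨h1, h2⟩, h3⟩ | h)
          · refine ⟨h1, ?_⟩
            rintro (h | h)
            · exact h3 h
            · exact h2 h.2
          · exact absurd h hby
        · rintro ⟨h1, h2⟩
          exact Or.inl ⟨⟨h1, fun h => h2 (Or.inr ⟨hby, h⟩)⟩, fun h => h2 (Or.inl h)⟩
    rw [mv_adj, hT.core a b ha hb]
    by_cases hap : a = c
    · subst hap
      by_cases hbp : b = a
      · subst hbp
        constructor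
        · rintro (⟨⟨h, _⟩, _⟩ | h)
          · exact absurd rfl h
          · exfalso
            rcases Sym2.eq_iff.1 h with ⟨_, h⟩ | ⟨h, _⟩ <;> exact hcy h
        · rintro ⟨h, _⟩
          exact absurd rfl h
      · have h1 : s(a, b) = s(a, y') ↔ b = y' := Sym2.congr_right
        have h2 : s(a, b) = s(a, y) ↔ b = y := Sym2.congr_right
        rw [Ne, Ne, h1, h2, hT.hc]
        have h3 := key b
        have h4 : (some i = g b) ↔ (g b = some i) := eq_comm
        rw [h4]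
        tauto
    · by_cases hbp : b = c
      · subst hbp
        have h1 : s(a, b) = s(b, y') ↔ a = y' := by
          rw [Sym2.eq_swap]; exact Sym2.congr_right
        have h2 : s(a, b) = s(b, y) ↔ a = y := by
          rw [Sym2.eq_swap]; exact Sym2.congr_right
        rw [Ne, Ne, h1, h2, hT.hc]
        have h3 := key a
        tauto
      · have h1 : s(a, b) ≠ s(c, y') := by
          intro e
          rcases Sym2.eq_iff.1 e with ⟨e, _⟩ | ⟨_, e⟩
          · exact hap e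
          · exact hbp e
        have h2 : s(a, b) ≠ s(c, y) := by
          intro e
          rcases Sym2.eq_iff.1 e with ⟨e, _⟩ | ⟨_, e⟩
          · exact hap e
          · exact hbp e
        tauto
  room := by
    intro t
    have h1 := hT.room t
    have h2 : 0 < L.card := Finset.card_pos.2 ⟨y, hy⟩
    rw [Finset.card_insert_of_notMem (fun h => hy' (Finset.mem_of_mem_erase h)),
      Finset.card_erase_of_mem hy]
    omega

theorem muv_eq [Fintype V] (hT : TyS G g w q c i L) (z : V → ℝ) {v : V} {t : Fin r}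
    (hv : g v = some t) (hti : t ≠ i) [Decidable (v ∈ L)] :
    muv G g z v = if v ∈ L then z c else 0 := by
  classical
  unfold muv
  have hvp : v ≠ c := fun e => hti (by
    have h1 := hT.hc
    rw [← e, hv] at h1
    exact Option.some_injective _ h1)
  have hv0 : g v ≠ none := by rw [hv]; simp
  have h1 : ∀ u, (g v ≠ none ∧ g u ≠ none ∧ g u ≠ g v ∧ ¬ G.Adj v u) ↔ (u = c ∧ v ∈ L) := by
    intro u
    constructor
    · rintro ⟨_, h1, h2, h3⟩
      rw [hT.core v u hv0 h1] at h3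
      by_contra hcon
      exact h3 ⟨h2.symm, fun h => hvp h.1, hcon⟩
    · rintro ⟨rfl, h⟩
      have hp : g u ≠ none := by rw [hT.hc]; simp
      refine ⟨hv0, hp, ?_, ?_⟩
      · rw [hT.hc, hv]
        exact fun h => hti (Option.some_injective _ h).symm
      · rw [hT.core v _ hv0 hp]
        rintro ⟨_, _, h2⟩
        exact h2 ⟨rfl, h⟩
  simp only [h1]
  by_cases hvL : v ∈ L
  · simp [hvL]
  · simp [hvL]

theorem omv_eq [Fintype V] (hT : TyS G g w q c i L) (z : V → ℝ) {v : V} {t : Fin r}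
    (hv : g v = some t) [Decidable (v = q t)] :
    omv G g z v = if v = q t then z w else 0 := by
  classical
  unfold omv
  have h1 : ∀ u, (g u = none ∧ G.Adj v u) ↔ (u = w ∧ v = q t) := by
    intro u
    constructor
    · rintro ⟨h1, h2⟩
      have hu : u = w := (hT.out u).1 h1
      rw [hu] at h2
      obtain ⟨s, hs⟩ := (hT.wn v).1 h2.symm
      have h3 : s = t := by
        have h4 := hT.hq s
        rw [← hs, hv] at h4
        exact (Option.some_injective _ h4).symm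
      exact ⟨hu, by rw [hs, h3]⟩
    · rintro ⟨rfl, h⟩
      exact ⟨hw hT, ((hT.wn v).2 ⟨t, h⟩).symm⟩
  simp only [h1]
  by_cases hvL : v = q t
  · simp [hvL]
  · simp [hvL]

theorem cw_muv [Fintype V] (hT : TyS G g w q c i L) (z : V → ℝ) {t : Fin r} (hti : t ≠ i) :
    cw (fun v => muv G g z v) g (some t) = lc L g t * z c := by
  classical
  unfold cw lc
  have h1 : ∀ v, (if g v = some t then muv G g z v else 0)
      = if (v ∈ L ∧ g v = some t) then z c else 0 := by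
    intro v
    by_cases h : g v = some t
    · rw [if_pos h, muv_eq hT z h hti]; simp [h]
    · simp [h]
  simp only [h1]
  rw [← Finset.sum_filter, Finset.sum_const, nsmul_eq_mul,
    Set.ncard_eq_toFinset_card _ (Set.toFinite _)]
  congr 3
  ext v
  simp

theorem cw_omv [Fintype V] (hT : TyS G g w q c i L) (z : V → ℝ) (t : Fin r) :
    cw (fun v => omv G g z v) g (some t) = z w := by
  classical
  unfold cw
  have h1 : ∀ v, (if g v = some t then omv G g z v else 0) = if v = q t then z w else 0 := by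
    intro v
    by_cases h : g v = some t
    · rw [if_pos h, omv_eq hT z h]
    · rw [if_neg h, if_neg]
      rintro rfl
      exact h (hT.hq t)
  simp only [h1]
  simp

/-- graphs of type `S` with the same numbers -/
theorem maxS (hME : MEMX_statement) (hWM : WMB_statement) [Fintype V] {W : Type} [Fintype W]
    {F : SimpleGraph W} {m : ℕ} (hr : 3 ≤ r) (hF : Gen2 r F) (hM : IsMaximiser r m F G)
    (hT : TyS G g w q c i L) {H : SimpleGraph V} {q' : Fin r → V} {L' : Finset V}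
    (hT' : TyS H g w q' c i L') (hc : L'.card = L.card) : lam H ≤ lam G := by
  obtain ⟨a1, a2, a3, a4, a5⟩ := hME r V G g w q c i L hr hT
  obtain ⟨b1, b2, b3, b4, b5⟩ := hME r V H g w q' c i L' hr hT'
  have h1 := cnt G g a1
  have h6 := hM.1.size
  refine hWM W F r m V G H g w (⟨0, by omega⟩ : Fin r) ⟨1, by omega⟩ hr hF hM (hw hT) ?_ b1 ?_
    (b3 _) (b3 _) (fun t => (b3 t).ge) b5 ?_
  · intro h
    exact absurd (congrArg Fin.val h) (by simp)
  · intro u v hu huw
    exact absurd ((hT'.out u).1 hu) huw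
  · have h2 : ∑ t : Fin r, nbn H g w t = r := by
      simp [b3]
    rw [h2, b2, hc]
    rw [a2, a4, h6] at h1
    omega

/-- moving a missing pair from the class `s` to the class `u` -/
theorem stepS (hMV : MVE_statement) (hME : MEMX_statement) (hWM : WMB_statement) [Fintype V]
    {W : Type} [Fintype W] {F : SimpleGraph W} {m : ℕ} (hr : 3 ≤ r) (hF : Gen2 r F)
    (hM : IsMaximiser r m F G) (hT : TyS G g w q c i L) {z : V → ℝ} (hz : ∀ v, 0 ≤ z v)
    (he : ∀ v, ∑ u, adj G v u * z u = lam G * z v) (hl : 0 < lam G) (hp : 0 < z c)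
    {T : Fin r → ℝ} {y y' : V} {s u : Fin r}
    (hrow1 : lam G * z y = T s - z c) (hrow3 : lam G * z y' = T u)
    (hy : y ∈ L) (hy' : y' ∉ L) (hyu : g y' = some u) (hui : u ≠ i)
    (hyq : y' ≠ q u) : T s - T u ≤ z c / lam G := by
  classical
  by_contra hcon
  push Not at hcon
  have hgp : g c = some i := hT.hc
  have hyL := hT.hL y hy
  have hpy : c ≠ y := fun e => hyL.2 (by rw [← e]; exact hgp)
  have hy'0 : g y' ≠ none := by rw [hyu]; simp
  have hy'i : g y' ≠ some i := by rw [hyu]; exact fun h => hui (Option.some_injective _ h)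
  have hy'p : y' ≠ c := fun e => hy'i (by rw [e]; exact hgp)
  have hp0 : g c ≠ none := by rw [hgp]; simp
  have hqy' : ∀ t, q t ≠ y' := by
    intro t e
    have h3 := hT.hq t
    rw [e, hyu] at h3
    apply hyq
    rw [← e, Option.some_injective _ h3]
  have hTH := move_c hT hpy hy hy' hy'0 hy'i hqy'
  have hle := maxS hME hWM hr hF hM hT hTH (ItemPEV.card_swap hy hy')
  have hadj1 : G.Adj c y' := by
    rw [hT.core _ _ hp0 hy'0]
    refine ⟨?_, fun h => hy' h.2, fun h => hy'p h.1⟩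
    rw [hgp]
    exact hy'i.symm
  have hadj2 : ¬ G.Adj c y := by
    rw [hT.core _ _ hp0 hyL.1]
    rintro ⟨_, h, _⟩
    exact h ⟨rfl, hy⟩
  have h5 : lam G * (z y - z y') + z c = T s - T u := by
    rw [mul_sub, hrow1, hrow3]
    ring
  have h8 : z c / lam G * adj G y' y ≤ z c / lam G :=
    mul_le_of_le_one_right (div_nonneg hp.le hl.le) (ItemPEV.adj_le G y' y)
  have h9 := hMV V G _ z c y' y hz he hl hp hpy hadj1 hadj2 (mv_adj G c y' y hpy)
    (by rw [h5]; linarith)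
  exact absurd h9 (not_lt.2 hle)

end

/-- the classes are smaller than `n/2` -/
theorem siz_half {n : ℕ} {C : ℝ} {G : SimpleGraph V} {g : V → Option (Fin r)} (hr : 3 ≤ r)
    (hNK : NK n C G g) (hn : 36 * C ≤ n) (t : Fin r) : (siz g t : ℝ) ≤ n / 2 := by
  have h1 := hNK.dev
  unfold dev at h1
  have h2 : (∑ s, (siz g s : ℝ)) = n := by
    have := hNK.tot
    rw [← this]
    push_cast
    rfl
  rw [h2] at h1
  have h3 : ((siz g t : ℝ) - n / r) ^ 2 ≤ ∑ s, ((siz g s : ℝ) - n / r) ^ 2 :=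
    Finset.single_le_sum (f := fun s => ((siz g s : ℝ) - n / r) ^ 2)
      (fun s _ => sq_nonneg _) (Finset.mem_univ t)
  have hn0 : (0 : ℝ) ≤ n := Nat.cast_nonneg n
  have h4 : ((siz g t : ℝ) - n / r) ^ 2 ≤ ((n : ℝ) / 6) ^ 2 := by
    have h5 : C * n ≤ n / 36 * n := mul_le_mul_of_nonneg_right (by linarith) hn0
    have h6 : (n : ℝ) / 36 * n = (n / 6) ^ 2 := by ring
    linarith
  have h7 := abs_le_of_sq_le_sq h4 (by positivity)
  have h8 := (abs_le.1 h7).2
  have hr0 : (3 : ℝ) ≤ r := by exact_mod_cast hr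
  have h9 : (n : ℝ) / r ≤ n / 3 := div_le_div_of_nonneg_left hn0 (by norm_num) hr0
  linarith

theorem num2 {h n l q C₁ : ℝ} (hn : (h * h) * (h * h) = n) (hq : 2 / 3 ≤ q) (hC₁ : 0 ≤ C₁)
    (hbig : 12 * C₁ + 8 ≤ h) (hl : |l - q * n| ≤ C₁ * h) : n / 2 < l := by
  have h8 : 8 ≤ h := by linarith
  have hh0 : 0 < h := by linarith
  have hhh : 0 < h * h := by positivity
  have hhle : 8 * h ≤ h * h := mul_le_mul_of_nonneg_right h8 hh0.le
  have h64 : 64 ≤ h * h := by linarith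
  have hn1 : 64 * (h * h) ≤ n := by
    rw [← hn]
    exact mul_le_mul_of_nonneg_right h64 hhh.le
  have hn0 : 0 < n := by linarith
  have h1 := (abs_le.1 hl).1
  have h2 : 12 * C₁ * h ≤ h * h := mul_le_mul_of_nonneg_right (by linarith) hh0.le
  have h3 : 2 / 3 * n ≤ q * n := mul_le_mul_of_nonneg_right hq hn0.le
  linarith

end ItemPEKS

open ItemPEKS in
theorem prfPEKS : P_statement → FLU_statement → TCL_statement → MVE_statement →
    MEMX_statement → WMB_statement → PEKS_statement := by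
  classical
  intro hP hFL hTC hMV hME hWM W _ F r C hr hF hC
  obtain ⟨C₁, n₁, hC₁, h₁⟩ := hFL r C hr hC
  obtain ⟨C₂, n₂, hC₂, h₂⟩ := hTC r C hr hC
  obtain ⟨n₃, hn₃⟩ := exists_nat_ge ((4 * C₂ * (C + 1) + 12 * C₁ + 8) ^ 4)
  obtain ⟨n₄, hn₄⟩ := exists_nat_ge (36 * C)
  refine ⟨n₁ + n₂ + n₃ + n₄, ?_⟩
  intro V _ G g w q c i L n m hn hM hNK hT
  obtain ⟨h, hh⟩ : ∃ h : ℝ, h = Real.sqrt (Real.sqrt n) := ⟨_, rfl⟩
  have hbig : 4 * C₂ * (C + 1) + 12 * C₁ + 8 ≤ h := by
    rw [hh]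
    exact ItemPEV.big hn₃ (by omega)
  obtain ⟨⟨z, hz⟩, hz2⟩ := h₁ V G g n (by omega) hNK
  obtain ⟨hz1, -, hlam, -⟩ := hz2 z hz
  obtain ⟨hrow, hcls, hdif⟩ := h₂ V G z g n (by omega) hNK hz
  obtain ⟨-, hmL, -, -, -⟩ := hME r V G g w q c i L hr hT
  have hfew := hNK.few
  rw [hmL, ← hh] at hfew
  have ha : (L.card : ℝ) ≤ C * h := by
    have : (0 : ℝ) ≤ (outSet G g).ncard := Nat.cast_nonneg _
    linarith
  rw [← hh] at hlam
  have hhs : h * h = Real.sqrt n := by rw [hh]; exact Real.mul_self_sqrt (Real.sqrt_nonneg _)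
  have hn0 : (h * h) * (h * h) = n := by rw [hhs]; exact Real.mul_self_sqrt (Nat.cast_nonneg n)
  have hr0 : (3 : ℝ) ≤ r := by exact_mod_cast hr
  have hq : 2 / 3 ≤ qq r := by
    unfold qq
    have : 1 / (r : ℝ) ≤ 1 / 3 := one_div_le_one_div_of_le (by norm_num) hr0
    linarith
  obtain ⟨hl1, hl8, hk, hsm, hnpos⟩ := ItemPEV.num hn0 hq hC hC₁ hC₂ hbig ha hlam
  have hcc : 0 ≤ 4 * C₂ * (C + 1) := by positivity
  have hl2 := num2 hn0 hq hC₁ (by linarith) hlam
  rw [← hhs] at hz1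
  have hl : 0 < lam G := by linarith
  have hgp : g c ≠ none := by rw [hT.hc]; simp
  have hp1 := abs_le.1 (hz1 _ hgp)
  have hp : 0 < z c := by linarith [hp1.1]
  have hp2 : z c ≤ 2 := by linarith [hp1.2]
  obtain ⟨T, hTd⟩ : ∃ T : Fin r → ℝ, T = fun t => tv g z n t := ⟨_, rfl⟩
  have hTt : ∀ t, tv g z n t = T t := fun t => by rw [hTd]
  -- the rows
  have hL1 : ∀ v t, g v = some t → t ≠ i → v ∈ L → lam G * z v = T t - z c := by
    intro v t hv hti hvL
    have hvq : v ≠ q t := fun e => hT.qL t (e ▸ hvL)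
    have h5 := hrow v t hv
    rw [hTt, muv_eq hT z hv hti, omv_eq hT z hv, if_pos hvL, if_neg hvq] at h5
    linarith
  have hL3 : ∀ v t, g v = some t → t ≠ i → v ∉ L → v ≠ q t → lam G * z v = T t := by
    intro v t hv hti hvL hvq
    have h5 := hrow v t hv
    rw [hTt, muv_eq hT z hv hti, omv_eq hT z hv, if_neg hvL, if_neg hvq] at h5
    linarith
  have hne : ∀ v ∈ L, ∀ t, g v = some t → t ≠ i := fun v hv t hvt e =>
    (hT.hL v hv).2 (by rw [hvt, e])
  have step : ∀ (y y' : V) (s u : Fin r), y ∈ L → g y = some s → y' ∉ L → g y' = some u →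
      u ≠ i → y' ≠ q u → T s - T u ≤ z c / lam G := by
    intro y y' s u hy hys hy' hyu hui hyq
    have hsi := hne y hy s hys
    exact stepS hMV hME hWM hr hF hM hT hz.nonneg hz.eig hl hp (T := T)
      (hL1 y s hys hsi hy) (hL3 y' u hyu hui hy' hyq) hy hy' hyu hui hyq
  refine ⟨?_, ?_⟩
  · intro v hv s hvs u hui
    by_contra hcon
    push Not at hcon
    obtain ⟨y', hy', hy'L, hy'q⟩ := ItemPEV.exists_out g L (hT.room u) (q u)
    have h5 := step v y' s u hv hvs hy'L hy' hui hy'q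
    have h6 := hdif s u hcon.le
    rw [hTt, hTt, hmL] at h6
    have h7 : (siz g s : ℝ) + 1 ≤ siz g u := by exact_mod_cast hcon
    have h8 : z c / lam G ≤ 2 / lam G := div_le_div_of_nonneg_right hp2 hl.le
    have h9 : 2 / lam G < 1 / 4 := by
      rw [div_lt_iff₀ hl]
      linarith
    linarith
  · intro s t hsi hti hst
    by_contra hcon
    push Not at hcon
    obtain ⟨y, hy, hys, hyq⟩ := ItemPEV.exists_in g L (by omega : 2 ≤ lc L g s) (q s)
    obtain ⟨y', hy', hy'L, hy'q⟩ := ItemPEV.exists_out g L (hT.room t) (q t)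
    have h5 := step y y' s t hy hys hy'L hy' hti hy'q
    have h6 := hcls s
    have h7 := hcls t
    rw [hTt, cw_muv hT z hsi, cw_omv hT z] at h6
    rw [hTt, cw_muv hT z hti, cw_omv hT z] at h7
    rw [← hst] at h7
    have h11 := siz_half hr hNK (hn₄.trans (by exact_mod_cast (by omega : n₄ ≤ n))) s
    have h12 : (lc L g t : ℝ) + 2 ≤ lc L g s := by exact_mod_cast hcon
    have h13 : 2 * z c ≤ ((lc L g s : ℝ) - lc L g t) * z c :=
      mul_le_mul_of_nonneg_right (by linarith) hp.le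
    have h14 := ItemPEV.final_le hl (Nat.cast_nonneg (siz g s)) (by linarith) hp h13
      (D := T s - T t) (by linarith)
    linarith

end MP0c3a8f

end

section

/-!
# MP_0c3a8f_co, phase B: item SWYZ
-/

open Finset

namespace MP0c3a8f

namespace ItemSWYZ

open ItemSLB (ci ki mi ci_none ci_some ci_nonneg adj_comm adj_self adj_core)
open ItemSWS (Q mv Q_eq Q_add sum_core sum_class)
open ItemSWR (mi_zero adj_c ci_mul ki_ci mv_core Q_c cov_eq omv_eq cov_add_omv eig_c)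

variable {V : Type} {r : ℕ}

open Classical in
theorem main [Fintype V] [Nonempty V] (hP : P_statement) {G H : SimpleGraph V} {z : V → ℝ}
    {g : V → Option (Fin r)} {w : V} {n : ℕ} (hI : Indep G g)
    (hm : (missSet G g).ncard = 0) (hIH : Indep H g) (hmH : (missSet H g).ncard = 0)
    (hw : g w = none) (hz : Per G z g n) (hlam : lam H ≤ lam G) (hl : 0 < lam G) :
    cov H g z w ^ 2
      ≤ ∑ x, if g x = none then cov G g z x ^ 2 + cov G g z x * omv G g z x else 0 := by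
  obtain ⟨l, hle⟩ : ∃ l, l = lam G := ⟨_, rfl⟩
  rw [← hle] at hlam hl
  obtain ⟨a, ha⟩ : ∃ a, a = cov H g z w / l := ⟨_, rfl⟩
  have hal : l * a = cov H g z w := by rw [ha]; field_simp
  obtain ⟨om, hom⟩ : ∃ om : V → ℝ, om = omv G g z := ⟨_, rfl⟩
  obtain ⟨s, hsd⟩ : ∃ s : V → ℝ, s = fun v => a * (if v = w then 1 else 0) := ⟨_, rfl⟩
  have hcw : ci g w = 0 := ci_none hw
  have hsc : ∀ v, ci g v * s v = 0 := by
    intro v
    rw [hsd]
    by_cases h1 : v = w
    · rw [h1, hcw, zero_mul]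
    · show ci g v * (a * (if v = w then 1 else 0)) = 0
      rw [if_neg h1]; ring
  have hsum_s : ∀ f : V → ℝ, ∑ v, s v * f v = a * f w := by
    intro f
    rw [hsd]
    have : ∀ v, (a * (if v = w then (1 : ℝ) else 0)) * f v = (if v = w then a * f v else 0) := by
      intro v
      split_ifs <;> ring
    rw [sum_congr rfl fun v _ => this v, sum_ite_eq' univ w, if_pos (mem_univ _)]
  have hsymm : ∀ i j, adj H i j = adj H j i := adj_comm H
  obtain ⟨y, hy⟩ : ∃ y : V → ℝ, y = fun v => ci g v * z v + s v := ⟨_, rfl⟩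
  have hq := (hP V H).2.1 y
  have hq0 : qf H y = Q (adj H) y := rfl
  have e1 : Q (adj H) y = Q (adj H) (fun v => ci g v * z v) +
      2 * ∑ i, s i * mv (adj H) (fun v => ci g v * z v) i + Q (adj H) s := by
    rw [hy]; exact Q_add hsymm _ _
  have e2 : Q (adj H) s = 0 := by
    rw [Q_eq, hsum_s]
    have h1 : mv (adj H) s w = 0 := by
      unfold mv
      have : ∀ j, adj H w j * s j = s j * adj H w j := fun j => mul_comm _ _
      rw [sum_congr rfl fun j _ => this j, hsum_s, adj_self]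
      ring
    rw [h1]; ring
  have e3 : ∑ i, s i * mv (adj H) (fun v => ci g v * z v) i = l * a ^ 2 := by
    rw [hsum_s]
    have h1 : mv (adj H) (fun v => ci g v * z v) w = cov H g z w := by
      rw [cov_eq]
      rfl
    rw [h1, ← hal]
    ring
  have hmv : ∀ v, ci g v * mv (adj H) (fun v => ci g v * z v) v =
      ci g v * (l * z v - om v) := by
    intro v
    rcases hv : g v with _ | t
    · rw [ci_none hv, zero_mul, zero_mul]
    · rw [mv_core hIH hmH z hv, eig_c hI hm hz hv, hom, hle]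
  have e4 : Q (adj H) (fun v => ci g v * z v) = ∑ v, ci g v * (z v * (l * z v - om v)) := by
    rw [Q_eq (adj H) (fun v => ci g v * z v)]
    refine sum_congr rfl fun v _ => ?_
    have := hmv v
    linear_combination z v * this
  have e5 : ∑ v, y v ^ 2 = ∑ v, ci g v * z v ^ 2 + a ^ 2 := by
    have h1 : ∀ v, y v ^ 2 = ci g v * z v ^ 2 + s v * s v := by
      intro v
      have h2 := hsc v
      have h3 := ci_mul g v
      rw [hy]
      show (ci g v * z v + s v) ^ 2 = _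
      linear_combination z v ^ 2 * h3 + 2 * z v * h2
    rw [sum_congr rfl fun v _ => h1 v, sum_add_distrib, hsum_s]
    have h2 : s w = a := by
      rw [hsd]; show a * (if w = w then 1 else 0) = a
      rw [if_pos rfl]; ring
    rw [h2]; ring
  have hy0 : 0 ≤ ∑ v, y v ^ 2 := sum_nonneg fun v _ => sq_nonneg _
  have hq2 : Q (adj H) y ≤ l * ∑ v, y v ^ 2 := by
    rw [← hq0]
    exact hq.trans (mul_le_mul_of_nonneg_right hlam hy0)
  have e8 : ∑ v, ci g v * (z v * (l * z v - om v)) - l * ∑ v, ci g v * z v ^ 2 =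
      - ∑ v, ci g v * (z v * om v) := by
    rw [mul_sum, ← sum_sub_distrib, ← sum_neg_distrib]
    refine sum_congr rfl fun v _ => ?_
    ring
  have e9 : l * a ^ 2 ≤ ∑ v, ci g v * (z v * om v) := by
    rw [e1, e2, e3, e4, e5] at hq2
    linarith
  -- the right hand side
  have e10 : l * ∑ v, ci g v * (z v * om v) =
      ∑ x, if g x = none then cov G g z x ^ 2 + cov G g z x * omv G g z x else 0 := by
    have h1 : ∑ v, ci g v * (z v * om v) = ∑ x, (1 - ci g x) * (z x * cov G g z x) := by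
      have h2 : ∀ v, ci g v * (z v * om v) =
          ∑ x, adj G v x * (ci g v * z v * ((1 - ci g x) * z x)) := by
        intro v
        rw [hom, omv_eq, mul_sum, mul_sum]
        exact sum_congr rfl fun x _ => by ring
      have h3 : ∀ x, (1 - ci g x) * (z x * cov G g z x) =
          ∑ v, adj G v x * (ci g v * z v * ((1 - ci g x) * z x)) := by
        intro x
        rw [cov_eq, mul_sum, mul_sum]
        refine sum_congr rfl fun v _ => ?_
        rw [adj_comm G x v]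
        ring
      rw [sum_congr rfl fun v _ => h2 v, sum_congr rfl fun x _ => h3 x, sum_comm]
    rw [h1, mul_sum]
    refine sum_congr rfl fun x _ => ?_
    by_cases hx : g x = none
    · rw [if_pos hx, ci_none hx]
      have := cov_add_omv hz x
      rw [← hle] at this
      linear_combination (-cov G g z x) * this
    · rw [if_neg hx, ci_some hx]; ring
  rw [← e10, ← hal]
  have e11 := mul_le_mul_of_nonneg_left e9 hl.le
  have e12 : (l * a) ^ 2 = l * (l * a ^ 2) := by ring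
  rw [e12]
  exact e11

end ItemSWYZ

theorem prfSWYZ : P_statement → SWYZ_statement := by
  intro hP r V _ G H z g w n hI hm hIH hmH hw _ hz hl hlam
  have : Nonempty V := ⟨w⟩
  exact ItemSWYZ.main hP hI hm hIH hmH hw hz hlam hl

end MP0c3a8f

end

section

/-!
# MP_0c3a8f_co: alternative two for the generic graphs, assembly of the regimes (YABS)
-/

open Finset

namespace MP0c3a8f

namespace ItemYABS

/-- `C n^(1/4) ≤ ε n` for all large `n` -/
theorem sqrt_small (C ε : ℝ) (hε : 0 < ε) :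
    ∃ n₀ : ℕ, ∀ n : ℕ, n₀ ≤ n → C * Real.sqrt (Real.sqrt n) ≤ ε * n := by
  obtain ⟨k, hk⟩ := exists_nat_ge ((|C| / ε) ^ 2)
  refine ⟨k + 1, fun n hn => ?_⟩
  have hn1 : (1 : ℝ) ≤ n := by
    have : 1 ≤ n := by omega
    exact_mod_cast this
  have hs1 : (1 : ℝ) ≤ Real.sqrt n := by
    rw [show (1 : ℝ) = Real.sqrt 1 by simp]
    exact Real.sqrt_le_sqrt hn1
  have hss : Real.sqrt (Real.sqrt n) ≤ Real.sqrt n := by
    rw [Real.sqrt_le_left (by positivity)]
    nlinarith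
  have hkn : (|C| / ε) ^ 2 ≤ n := by
    have : (k : ℝ) ≤ n := by exact_mod_cast (by omega : k ≤ n)
    linarith
  have h1 : |C| / ε ≤ Real.sqrt n := Real.le_sqrt_of_sq_le hkn
  have h2 : |C| ≤ ε * Real.sqrt n := by
    rw [div_le_iff₀ hε] at h1
    linarith
  have h3 : Real.sqrt n * Real.sqrt n = n := Real.mul_self_sqrt (by positivity)
  calc C * Real.sqrt (Real.sqrt n) ≤ |C| * Real.sqrt (Real.sqrt n) :=
        mul_le_mul_of_nonneg_right (le_abs_self C) (Real.sqrt_nonneg _)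
    _ ≤ |C| * Real.sqrt n := mul_le_mul_of_nonneg_left hss (abs_nonneg C)
    _ ≤ ε * Real.sqrt n * Real.sqrt n := mul_le_mul_of_nonneg_right h2 (Real.sqrt_nonneg _)
    _ = ε * n := by rw [mul_assoc, h3]

end ItemYABS

theorem prfYABS : NLV_statement → YNLS_statement → YNBS_statement → YABS_statement := by
  intro hNLV hYNL hYNB W _ F r N hr hF
  obtain ⟨C, hC, hN⟩ := hNLV r N hr
  obtain ⟨ε₀, hε₀, n₁, h1⟩ := hYNB W F r C hr hF hC
  obtain ⟨c, n₂, hc, h2⟩ := hN (ε₀ / 4) (by linarith)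
  obtain ⟨n₃, h3⟩ := hYNL W F r C c hr hF hC hc
  obtain ⟨n₄, h4⟩ := ItemYABS.sqrt_small C (ε₀ / 2) (by linarith)
  refine ⟨C, hC, n₁ + n₂ + n₃ + n₄, ?_⟩
  intro V _ G n B m hn hB hm hG hA
  have hE : G.edgeSet.ncard = m := hG.1.size
  obtain ⟨g, hK, hdev, hL⟩ := h2 V G n B (by omega) hB (by rw [hE]; exact hm) hA
  refine ⟨g, hK, ?_⟩
  by_cases hb : ε₀ / 4 * n ≤ B
  · obtain ⟨i, hi⟩ := hL hb
    exact h3 V G g i n m (by omega) hG hi
  · have h5 := h4 n (by omega)
    push Not at hb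
    exact h1 V G g n m (by omega) hG hK (by linarith)

end MP0c3a8f

end
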