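import Pool.Agent.Work.MP_0c3a8f_co.PB.Stmts12
import Pool.Agent.Work.MP_0c3a8f_co.Bd.B08
import Pool.Agent.Work.MP_0c3a8f_co.Bd.B11
import Pool.Agent.Work.MP_0c3a8f_co.PB.ItemPICK
import Pool.Agent.Work.MP_0c3a8f_co.Bd.B19
import Pool.Agent.Work.MP_0c3a8f_co.ItemP
import Pool.Agent.Work.MP_0c3a8f_co.PB.ItemTOPZ
import Pool.Agent.Work.MP_0c3a8f_co.Bd.B24

/-! Bundle of small proof modules (one section per former module). -/

section

/-!
# MP_0c3a8f_co, phase B: item MVM
-/

open Finset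

namespace MP0c3a8f

namespace MVMx

variable {V : Type} [Fintype V]

open Classical in
lemma row (w : V) (N : Finset V) (y : V → ℝ) :
    ∑ a, ∑ b, (if a = w ∧ b ∈ N then (1 : ℝ) else 0) * (y a * y b) = y w * ∑ b ∈ N, y b := by
  rw [Finset.sum_eq_single w]
  · rw [Finset.mul_sum, ← Finset.sum_ite_mem_eq N]
    apply Finset.sum_congr rfl
    intro b _
    by_cases hb : b ∈ N
    · simp [hb]
    · simp [hb]
  · intro a _ ha
    apply Finset.sum_eq_zero
    intro b _
    rw [if_neg (fun h => ha h.1), zero_mul]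
  · intro h
    exact absurd (Finset.mem_univ _) h

open Classical in
lemma col (w : V) (N : Finset V) (y : V → ℝ) :
    ∑ a, ∑ b, (if b = w ∧ a ∈ N then (1 : ℝ) else 0) * (y a * y b) = y w * ∑ b ∈ N, y b := by
  rw [Finset.sum_comm, ← row w N y]
  apply Finset.sum_congr rfl
  intro b _
  apply Finset.sum_congr rfl
  intro a _
  ring

open Classical in
lemma sum_e (M M' : Finset V) (g : V → ℝ) :
    ∑ a, ((if a ∈ M' then (1 : ℝ) else 0) - (if a ∈ M then 1 else 0)) * g a =
      ∑ a ∈ M', g a - ∑ a ∈ M, g a := by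
  rw [← Finset.sum_ite_mem_eq M', ← Finset.sum_ite_mem_eq M, ← Finset.sum_sub_distrib]
  apply Finset.sum_congr rfl
  intro a _
  by_cases h1 : a ∈ M' <;> by_cases h2 : a ∈ M <;> simp [h1, h2]

end MVMx

open Classical in
theorem prfMVM : P_statement → MVM_statement := by
  intro hP r V _ G H f w k l M M' z hG hH hz0 hze hl hzw hkl hne hMM hM hM' hadj hlt
  have : Nonempty V := ⟨w⟩
  obtain ⟨q1, -, -⟩ := prfEIG0 r V G f w z (lam G) hG hze
  obtain ⟨-, hPq, -⟩ := hP V H
  set L : ℝ := lam G with hL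
  set δ : ℝ := z w / L with hδ
  have hδ0 : 0 < δ := div_pos hzw hl
  have hLδ : L * δ = z w := by
    rw [hδ]; field_simp
  set e : V → ℝ := fun v => (if v ∈ M' then (1 : ℝ) else 0) - (if v ∈ M then 1 else 0) with he
  set y : V → ℝ := fun v => z v + δ * e v with hy
  set m : ℝ := (M.card : ℝ) with hm
  have hm' : (M'.card : ℝ) = m := by rw [hm, hMM]
  have hm0 : 0 < m := by
    rw [hm]; exact_mod_cast hne.card_pos
  have hfw : f w = none := (hG.out w).2 rfl
  have hwM : w ∉ M := fun h1 => by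
    have := (hM w h1).1
    rw [hfw] at this
    exact absurd this (by simp)
  have hwM' : w ∉ M' := fun h1 => by
    have := (hM' w h1).1
    rw [hfw] at this
    exact absurd this (by simp)
  have hdis : ∀ v ∈ M, v ∉ M' := fun v h1 h2 => by
    have e1 := (hM v h1).1
    have e2 := (hM' v h2).1
    rw [e1] at e2
    exact hkl (Option.some.inj e2)
  have heM : ∀ v ∈ M, e v = -1 := by
    intro v hv
    simp only [he]
    rw [if_neg (hdis v hv), if_pos hv]
    ring
  have heM' : ∀ v ∈ M', e v = 1 := by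
    intro v hv
    simp only [he]
    rw [if_pos hv, if_neg (fun h => hdis v h hv)]
    ring
  have hew : e w = 0 := by
    simp only [he]
    rw [if_neg hwM, if_neg hwM', sub_self]
  have hyw : y w = z w := by
    simp only [hy, hew, mul_zero, add_zero]
  have hse : ∀ g : V → ℝ, ∑ a, e a * g a = ∑ a ∈ M', g a - ∑ a ∈ M, g a :=
    fun g => MVMx.sum_e M M' g
  -- sums of z
  set S : ℝ := ∑ s, cw z f (some s) with hS
  set σ : ℝ := ∑ a ∈ M, z a with hσ
  set σ' : ℝ := ∑ a ∈ M', z a with hσ'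
  have hσv : L * σ = m * (S - cw z f (some k) + z w) := by
    rw [hσ, Finset.mul_sum, Finset.sum_congr rfl (g := fun _ => S - cw z f (some k) + z w)
      (fun v hv => by
        obtain ⟨h1, h2⟩ := hM v hv
        have := q1 v k h1
        rwa [if_pos h2] at this), Finset.sum_const, nsmul_eq_mul]
  have hσv' : L * σ' = m * (S - cw z f (some l)) := by
    rw [hσ', Finset.mul_sum, Finset.sum_congr rfl (g := fun _ => S - cw z f (some l))
      (fun v hv => by
        obtain ⟨h1, h2⟩ := hM' v hv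
        have := q1 v l h1
        rwa [if_neg h2, add_zero] at this), Finset.sum_const, nsmul_eq_mul, hm']
  -- the bilinear form of e
  have hnone : ∀ v ∈ M ∪ M', f v ≠ none := by
    intro v hv
    rcases Finset.mem_union.1 hv with h1 | h1
    · rw [(hM v h1).1]; simp
    · rw [(hM' v h1).1]; simp
  have a0 : ∀ a ∈ M, ∀ b ∈ M, adj G a b = 0 := by
    intro a ha b hb
    unfold adj
    rw [if_neg]
    rw [hG.core a b (hnone a (mem_union_left _ ha)) (hnone b (mem_union_left _ hb)),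
      (hM a ha).1, (hM b hb).1]
    simp
  have a0' : ∀ a ∈ M', ∀ b ∈ M', adj G a b = 0 := by
    intro a ha b hb
    unfold adj
    rw [if_neg]
    rw [hG.core a b (hnone a (mem_union_right _ ha)) (hnone b (mem_union_right _ hb)),
      (hM' a ha).1, (hM' b hb).1]
    simp
  have a1 : ∀ a ∈ M, ∀ b ∈ M', adj G a b = 1 := by
    intro a ha b hb
    unfold adj
    rw [if_pos]
    rw [hG.core a b (hnone a (mem_union_left _ ha)) (hnone b (mem_union_right _ hb)),
      (hM a ha).1, (hM' b hb).1]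
    simpa using hkl
  have hAe : ∀ a, ∑ b, adj G a b * e b = ∑ b ∈ M', adj G a b - ∑ b ∈ M, adj G a b := by
    intro a
    rw [← hse]
    exact Finset.sum_congr rfl fun b _ => mul_comm _ _
  have hAeM : ∀ a ∈ M, ∑ b, adj G a b * e b = m := by
    intro a ha
    rw [hAe, Finset.sum_congr rfl (fun b hb => a1 a ha b hb),
      Finset.sum_congr rfl (fun b hb => a0 a ha b hb), Finset.sum_const, Finset.sum_const,
      nsmul_eq_mul, hm']
    simp
  have hAeM' : ∀ a ∈ M', ∑ b, adj G a b * e b = -m := by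
    intro a ha
    rw [hAe, Finset.sum_congr rfl (fun b hb => a0' a ha b hb),
      Finset.sum_congr rfl (fun b hb => (MV.adj_symm G a b).trans (a1 b hb a ha)),
      Finset.sum_const, Finset.sum_const, nsmul_eq_mul]
    simp [hm]
  have hBee : ∑ a, e a * ∑ b, adj G a b * e b = -2 * m ^ 2 := by
    rw [hse, Finset.sum_congr rfl hAeM', Finset.sum_congr rfl hAeM, Finset.sum_const,
      Finset.sum_const, nsmul_eq_mul, nsmul_eq_mul, hm', ← hm]
    ring
  have hBez : ∑ a, e a * ∑ b, adj G a b * z b = L * (σ' - σ) := by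
    rw [Finset.sum_congr rfl (fun a _ => by rw [hze a]), hse, ← Finset.mul_sum,
      ← Finset.mul_sum]
    ring
  have hBze : ∑ a, z a * ∑ b, adj G a b * e b = L * (σ' - σ) := by
    rw [← hBez]
    have h1 : ∀ a, z a * ∑ b, adj G a b * e b = ∑ b, adj G a b * (z a * e b) := fun a => by
      rw [Finset.mul_sum]
      exact Finset.sum_congr rfl fun b _ => by ring
    have h2 : ∀ a, e a * ∑ b, adj G a b * z b = ∑ b, adj G b a * (z b * e a) := fun a => by
      rw [Finset.mul_sum]
      exact Finset.sum_congr rfl fun b _ => by rw [MV.adj_symm G a b]; ring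
    rw [Finset.sum_congr rfl (fun a _ => h1 a), Finset.sum_congr rfl (fun a _ => h2 a),
      Finset.sum_comm]
  have hBzz : ∑ a, z a * ∑ b, adj G a b * z b = L * ∑ a, z a ^ 2 := by
    rw [Finset.sum_congr rfl (fun a _ => by rw [hze a]), Finset.mul_sum]
    exact Finset.sum_congr rfl fun a _ => by ring
  have hqG : qf G y = L * ∑ a, z a ^ 2 + 2 * δ * (L * (σ' - σ)) + δ ^ 2 * (-2 * m ^ 2) := by
    have h1 : qf G y = ∑ a, (z a * ∑ b, adj G a b * z b + δ * (z a * ∑ b, adj G a b * e b) +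
        δ * (e a * ∑ b, adj G a b * z b) + δ ^ 2 * (e a * ∑ b, adj G a b * e b)) := by
      unfold qf
      refine Finset.sum_congr rfl fun a _ => ?_
      simp only [Finset.mul_sum, ← Finset.sum_add_distrib]
      refine Finset.sum_congr rfl fun b _ => ?_
      simp only [hy]
      ring
    rw [h1, Finset.sum_add_distrib, Finset.sum_add_distrib, Finset.sum_add_distrib,
      ← Finset.mul_sum, ← Finset.mul_sum, ← Finset.mul_sum, hBzz, hBze, hBez, hBee]
    ring
  have hy2 : ∑ a, y a ^ 2 = ∑ a, z a ^ 2 + 2 * δ * (σ' - σ) + δ ^ 2 * (2 * m) := by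
    have h1 : ∀ a, y a ^ 2 = z a ^ 2 + 2 * δ * (e a * z a) + δ ^ 2 * (e a * e a) := by
      intro a
      simp only [hy]
      ring
    rw [Finset.sum_congr rfl (fun a _ => h1 a), Finset.sum_add_distrib, Finset.sum_add_distrib,
      ← Finset.mul_sum, ← Finset.mul_sum, hse, hse, Finset.sum_congr rfl heM',
      Finset.sum_congr rfl heM, Finset.sum_const, Finset.sum_const, nsmul_eq_mul, nsmul_eq_mul,
      hm', ← hm]
    ring
  have hyM : ∑ a ∈ M, y a = σ - δ * m := by
    rw [Finset.sum_congr rfl (g := fun a => z a - δ) (fun a ha => by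
      simp only [hy, heM a ha]; ring), Finset.sum_sub_distrib, Finset.sum_const, nsmul_eq_mul,
      ← hm]
    ring
  have hyM' : ∑ a ∈ M', y a = σ' + δ * m := by
    rw [Finset.sum_congr rfl (g := fun a => z a + δ) (fun a ha => by
      simp only [hy, heM' a ha]; ring), Finset.sum_add_distrib, Finset.sum_const, nsmul_eq_mul,
      hm']
    ring
  have hqH : qf H y = qf G y + 2 * (z w * (σ' + δ * m)) - 2 * (z w * (σ - δ * m)) := by
    have r1 := MVMx.row w M' y
    have r2 := MVMx.col w M' y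
    have r3 := MVMx.row w M y
    have r4 := MVMx.col w M y
    rw [hyw, hyM'] at r1 r2
    rw [hyw, hyM] at r3 r4
    have h1 : qf H y = qf G y +
        ∑ a, ∑ b, (if a = w ∧ b ∈ M' then (1 : ℝ) else 0) * (y a * y b) +
        ∑ a, ∑ b, (if b = w ∧ a ∈ M' then (1 : ℝ) else 0) * (y a * y b) -
        ∑ a, ∑ b, (if a = w ∧ b ∈ M then (1 : ℝ) else 0) * (y a * y b) -
        ∑ a, ∑ b, (if b = w ∧ a ∈ M then (1 : ℝ) else 0) * (y a * y b) := by
      unfold qf
      rw [← Finset.sum_add_distrib, ← Finset.sum_add_distrib, ← Finset.sum_sub_distrib,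
        ← Finset.sum_sub_distrib]
      refine Finset.sum_congr rfl fun a _ => ?_
      rw [← Finset.sum_add_distrib, ← Finset.sum_add_distrib, ← Finset.sum_sub_distrib,
        ← Finset.sum_sub_distrib]
      refine Finset.sum_congr rfl fun b _ => ?_
      rw [MV.adj0 hG hH hkl hM hM' hadj a b]
      ring
    rw [h1, r1, r2, r3, r4]
    ring
  have hmain : qf H y - L * ∑ a, y a ^ 2 =
      2 * δ * m * (cw z f (some k) - cw z f (some l) - δ * m) := by
    rw [hqH, hqG, hy2]
    have e1 : z w = L * δ := hLδ.symm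
    have e2 : L * σ = m * (S - cw z f (some k) + L * δ) := by rw [hσv, e1]
    rw [e1]
    linear_combination 2 * δ * hσv' - 2 * δ * e2
  have hpos : 0 < qf H y - L * ∑ a, y a ^ 2 := by
    rw [hmain]
    have h1 : m * z w / L = δ * m := by
      rw [hδ]; ring
    rw [h1] at hlt
    have h2 : 0 < cw z f (some k) - cw z f (some l) - δ * m := by linarith
    exact mul_pos (mul_pos (mul_pos two_pos hδ0) hm0) h2
  have h3 := hPq y
  have h4 : 0 ≤ ∑ a, y a ^ 2 := Finset.sum_nonneg fun a _ => sq_nonneg _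
  by_contra hcon
  push Not at hcon
  have h5 : lam H * ∑ a, y a ^ 2 ≤ L * ∑ a, y a ^ 2 := mul_le_mul_of_nonneg_right hcon h4
  linarith

end MP0c3a8f

end

section

/-!
# MP_0c3a8f_co, phase PB12: item PICKB (the neighbours of `w`, balanced classes)
-/

set_option autoImplicit false

open Finset

namespace MP0c3a8f

namespace ItemPICKB

/-- the second estimate -/
theorem second {L n p dk dl M zw Tk Tl : ℝ} (hn : 300 ≤ n) (hL : 19 / 30 * n ≤ L) (hp0 : 0 ≤ p)
    (hp : p ≤ n / 3 + 1) (hA : L + p + 1 ≤ 101 / 100 * n) (hzw0 : 0 < zw) (hzw : zw ≤ 3 / 2)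
    (hM : 0 ≤ M) (hMk : M ≤ dk) (hMl : M + dl ≤ p) (h1 : (L + (p + 1)) * Tk = L * n - dk * zw)
    (h2 : (L + p) * Tl = L * n - dl * zw) : M * zw / L < Tl - Tk := by
  have hn0 : 0 < n := by linarith
  have hL0 : 0 < L := by linarith
  obtain ⟨c, hc⟩ : ∃ c, c = M * zw / L := ⟨_, rfl⟩
  rw [← hc]
  have hcL : c * L = M * zw := by rw [hc]; field_simp
  have hc0 : 0 ≤ c := by rw [hc]; positivity
  have hMz : 0 ≤ M * zw := by positivity
  have hA0 : 0 < L + p := by linarith
  have hA1 : 0 < L + p + 1 := by linarith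
  have hAA : 0 < (L + p) * (L + p + 1) := mul_pos hA0 hA1
  have e : (L + p) * (L + p + 1) * (Tl - Tk)
      = L * n - (L + p + 1) * dl * zw + (L + p) * dk * zw := by
    linear_combination (L + p + 1) * h2 - (L + p) * h1
  -- the left side
  have hcp : c * p ≤ 54 / 100 * (M * zw) := by
    have h3 : p ≤ 54 / 100 * L := by linarith
    calc c * p ≤ c * (54 / 100 * L) := mul_le_mul_of_nonneg_left h3 hc0
      _ = 54 / 100 * (c * L) := by ring
      _ = _ := by rw [hcL]
  have hl : c * ((L + p) * (L + p + 1)) ≤ 154 / 100 * (M * zw) * (L + p + 1) := by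
    have h3 : c * (L + p) ≤ 154 / 100 * (M * zw) := by linarith
    calc c * ((L + p) * (L + p + 1)) = c * (L + p) * (L + p + 1) := by ring
      _ ≤ _ := mul_le_mul_of_nonneg_right h3 hA1.le
  -- the right side
  have h4 : (L + p + 1) * dl * zw ≤ (L + p + 1) * (p - M) * zw := by
    apply mul_le_mul_of_nonneg_right _ hzw0.le
    apply mul_le_mul_of_nonneg_left _ hA1.le
    linarith
  have h5 : (L + p) * M * zw ≤ (L + p) * dk * zw := by
    apply mul_le_mul_of_nonneg_right _ hzw0.le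
    exact mul_le_mul_of_nonneg_left hMk hA0.le
  have h6 : 154 / 100 * (M * zw) * (L + p + 1) ≤ (2 * (L + p) + 1) * (M * zw) := by
    have h7 : 154 / 100 * (L + p + 1) ≤ 2 * (L + p) + 1 := by linarith
    calc 154 / 100 * (M * zw) * (L + p + 1) = 154 / 100 * (L + p + 1) * (M * zw) := by ring
      _ ≤ _ := mul_le_mul_of_nonneg_right h7 hMz
  have h8 : (L + p + 1) * p * zw < L * n := by
    have h9 : (L + p + 1) * p ≤ 101 / 100 * n * (n / 3 + 1) :=
      mul_le_mul hA hp hp0 (by positivity)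
    have h10 : (L + p + 1) * p * zw ≤ 101 / 100 * n * (n / 3 + 1) * (3 / 2) :=
      mul_le_mul h9 hzw hzw0.le (by positivity)
    have h11 : 19 / 30 * n * n ≤ L * n := mul_le_mul_of_nonneg_right hL hn0.le
    have h12 : 300 * n ≤ n * n := mul_le_mul_of_nonneg_right hn hn0.le
    nlinarith
  have h13 : c * ((L + p) * (L + p + 1)) < (Tl - Tk) * ((L + p) * (L + p + 1)) := by
    have h14 : (Tl - Tk) * ((L + p) * (L + p + 1))
        = L * n - (L + p + 1) * dl * zw + (L + p) * dk * zw := by rw [← e]; ring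
    rw [h14]
    nlinarith
  exact lt_of_mul_lt_mul_right h13 hAA.le

/-- the third estimate -/
theorem third {L n p dk dl c zw Tk Tl : ℝ} (hp0 : 0 ≤ p) (hp : p < L) (hc : 0 < c)
    (hzw : 0 < zw) (hd : dl + 2 * c ≤ dk) (h1 : (L + p) * Tk = L * n - dk * zw)
    (h2 : (L + p) * Tl = L * n - dl * zw) : c * zw / L < Tl - Tk := by
  have hL0 : 0 < L := by linarith
  have hA : 0 < L + p := by linarith
  have e : (L + p) * (Tl - Tk) = (dk - dl) * zw := by linear_combination h2 - h1
  have h3 : 2 * c * zw ≤ (dk - dl) * zw := mul_le_mul_of_nonneg_right (by linarith) hzw.le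
  have hcz : 0 < c * zw := mul_pos hc hzw
  have h4 : (L + p) * (c * zw / L) < 2 * c * zw := by
    rw [mul_div_assoc', div_lt_iff₀ hL0]
    nlinarith
  have h5 : (L + p) * (c * zw / L) < (L + p) * (Tl - Tk) := by rw [e]; linarith
  exact lt_of_mul_lt_mul_left h5 hA.le

variable {V : Type} [Fintype V] {r : ℕ}

omit [Fintype V] in
theorem miss_zero {G : SimpleGraph V} {g : V → Option (Fin r)} {w : V} (h : Ty0 G g w) :
    missSet G g = ∅ := by
  refine Set.eq_empty_iff_forall_notMem.2 fun e he => ?_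
  obtain ⟨x, y, -, h1, h2, h3, h4⟩ := he
  exact h4 ((h.core x y h1 h2).2 h3)

omit [Fintype V] in
theorem light_zero {G : SimpleGraph V} {g : V → Option (Fin r)} {w : V} (h : Ty0 G g w) :
    lightSet G g {w} = ∅ := by
  refine Set.eq_empty_iff_forall_notMem.2 fun e he => ?_
  obtain ⟨-, v, -, h1, h2⟩ := he
  exact h2 (by rw [(h.out v).1 h1]; simp)

omit [Fintype V] in
theorem indep {G : SimpleGraph V} {g : V → Option (Fin r)} {w : V} (h : Ty0 G g w) :
    Indep G g := by
  intro v u hv huv hadj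
  exact (h.core v u hv (huv ▸ hv)).1 hadj huv

theorem muv_zero {G : SimpleGraph V} {g : V → Option (Fin r)} {w : V} (h : Ty0 G g w)
    (z : V → ℝ) (v : V) : muv G g z v = 0 := by
  unfold muv
  refine Finset.sum_eq_zero fun u _ => ?_
  rw [if_neg]
  rintro ⟨h1, h2, h3, h4⟩
  exact h4 ((h.core v u h1 h2).2 fun h5 => h3 h5.symm)

open Classical in
theorem omv_eq {G : SimpleGraph V} {g : V → Option (Fin r)} {w : V} (h : Ty0 G g w)
    (z : V → ℝ) (v : V) : omv G g z v = if G.Adj w v then z w else 0 := by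
  unfold omv
  rw [Finset.sum_eq_single w]
  · simp only [(h.out w).2 rfl, true_and, G.adj_comm v w]
  · intro u _ hu
    rw [if_neg]
    rintro ⟨h1, -⟩
    exact hu ((h.out u).1 h1)
  · intro hw
    exact absurd (Finset.mem_univ w) hw

theorem cw_omv {G : SimpleGraph V} {g : V → Option (Fin r)} {w : V} (h : Ty0 G g w)
    (z : V → ℝ) (t : Fin r) : cw (fun v => omv G g z v) g (some t) = nbn G g w t * z w := by
  classical
  unfold cw
  rw [ItemRII.nbn_card G g w t, ← nsmul_eq_mul, ← Finset.sum_const, Finset.sum_filter]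
  refine Finset.sum_congr rfl fun v _ => ?_
  by_cases h1 : g v = some t
  · rw [if_pos h1]
    simp only [omv_eq h, h1, true_and]
  · rw [if_neg h1, if_neg fun h2 => h1 h2.1]

theorem cw_muv {G : SimpleGraph V} {g : V → Option (Fin r)} {w : V} (h : Ty0 G g w)
    (z : V → ℝ) (t : Fin r) : cw (fun v => muv G g z v) g (some t) = 0 := by
  classical
  unfold cw
  refine Finset.sum_eq_zero fun v _ => ?_
  show (if g v = some t then muv G g z v else 0) = 0
  rw [muv_zero h, ite_self]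

omit [Fintype V] in
theorem isBd (hDEV : DEV_statement) (hr : 3 ≤ r) {n : ℕ} {G : SimpleGraph V}
    {g : V → Option (Fin r)} {w : V} (h : Ty0 G g w) (hs : ∀ t, siz g t = tz r n t)
    (hsum : ∑ t, tz r n t = n) : Bd n r G g w := by
  have hfun : siz g = tz r n := funext hs
  refine ⟨indep h, (h.out w).2 rfl, ?_, ?_⟩
  · rw [hfun]; exact hsum
  · rw [miss_zero h, light_zero h, hfun]
    simp only [Set.ncard_empty, Nat.cast_zero, zero_add]
    exact (hDEV r n (tz r n) (by omega) hsum).2.2.1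

/-- the lower bound for the number of neighbours -/
theorem sum_ge {d : Fin r → ℕ} {i j : Fin r} {b : ℕ} (hij : i ≠ j)
    (h : ∀ t, t ≠ i → t ≠ j → b ≤ d t) : (r - 2) * b ≤ ∑ t, d t := by
  classical
  have h2 : ∑ t ∈ (Finset.univ \ {i, j} : Finset (Fin r)), d t ≤ ∑ t, d t :=
    Finset.sum_le_sum_of_subset (Finset.subset_univ _)
  have h3 : (Finset.univ \ {i, j} : Finset (Fin r)).card = r - 2 := by
    rw [Finset.card_sdiff_of_subset (Finset.subset_univ _), Finset.card_univ, Fintype.card_fin,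
      Finset.card_insert_of_notMem (by simp [hij]), Finset.card_singleton]
  have h4 : (r - 2) * b ≤ ∑ t ∈ (Finset.univ \ {i, j} : Finset (Fin r)), d t := by
    rw [← h3, ← smul_eq_mul]
    refine Finset.card_nsmul_le_sum _ _ _ fun t ht => ?_
    rw [Finset.mem_sdiff, Finset.mem_insert, Finset.mem_singleton] at ht
    push Not at ht
    exact h t ht.2.1 ht.2.2
  exact h4.trans h2

theorem tz_le (n : ℕ) (t : Fin r) : (tz r n t : ℝ) ≤ n / r + 1 := by
  have h1 : tz r n t ≤ n / r + 1 := by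
    unfold tz
    split_ifs <;> omega
  have h2 : ((n / r : ℕ) : ℝ) ≤ (n : ℝ) / r := Nat.cast_div_le
  have h3 : (tz r n t : ℝ) ≤ ((n / r : ℕ) : ℝ) + 1 := by exact_mod_cast h1
  linarith

theorem le_tz (n : ℕ) (t : Fin r) : n / r ≤ tz r n t ∧ tz r n t ≤ n / r + 1 := by
  unfold tz
  split_ifs <;> omega

end ItemPICKB

theorem prfPICKB : P_statement → DEV_statement → FLB_statement → TCG_statement →
    MVM_statement → MEMZ_statement → PICKG_statement → PICKB_statement := by
  intro _ hDEV hFLB hTCG hMVM hMEMZ hPICKG W _ F r s s₁ hr hs2 hFs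
  classical
  obtain ⟨C, n1, hC, hF⟩ := hFLB r r hr
  have hr3 : (3 : ℝ) ≤ r := by exact_mod_cast hr
  have hrpos : (0 : ℝ) < r := by linarith
  obtain ⟨n2, hn2⟩ := exists_nat_ge (300 * (C + 1))
  refine ⟨n1 + n2 + r * (s₁ + s + 2) + 16 * r ^ 2, ?_⟩
  intro V _ G g w n D m hn hM hT hsz hD hpos hDx
  have hgw : g w = none := (hT.out w).2 rfl
  -- the numbers
  have hSn : 300 * (C + 1) ≤ (n : ℝ) := hn2.trans (by exact_mod_cast (by omega : n2 ≤ n))
  have hn300 : (300 : ℝ) ≤ n := by linarith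
  have hnpos : (0 : ℝ) < n := by linarith
  have hCn : C ≤ n / 300 - 1 := by linarith
  have hnr3 : (n : ℝ) / r ≤ n / 3 := div_le_div_of_nonneg_left hnpos.le (by norm_num) hr3
  have hdiv : s₁ + s + 2 ≤ n / r := by
    rw [Nat.le_div_iff_mul_le (by omega), mul_comm]
    omega
  have hsz1 : ∀ t, n / r ≤ siz g t ∧ siz g t ≤ n / r + 1 := fun t => by
    rw [hsz t]; exact ItemPICKB.le_tz n t
  have hsumtz : ∑ t, tz r n t = n := by
    have h := (hDEV r n (fun t => if t = (⟨0, by omega⟩ : Fin r) then n else 0) (by omega)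
      (by simp)).1
    exact h
  have hBd : Bd n r G g w := ItemPICKB.isBd hDEV hr hT hsz hsumtz
  -- the vector
  obtain ⟨⟨z, hz⟩, hzall⟩ := hF V G g w n (by omega) hBd
  obtain ⟨hz1, hz2, hz3, hlam⟩ := hzall z hz
  have hq : 2 / 3 ≤ qq r := by
    unfold qq
    have : 1 / (r : ℝ) ≤ 1 / 3 := one_div_le_one_div_of_le (by norm_num) hr3
    linarith
  have hq1 : qq r ≤ 1 := by
    unfold qq
    have : 0 ≤ 1 / (r : ℝ) := by positivity
    linarith
  have hqn : qq r * n = n - n / r := by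
    unfold qq
    ring
  have hlam1 : 19 / 30 * n ≤ lam G := by
    have h1 := (abs_le.1 hlam).1
    rw [hqn] at h1
    linarith
  have hlam2 : lam G ≤ n - n / r + C := by
    have h1 := (abs_le.1 hlam).2
    rw [hqn] at h1
    linarith
  have hlpos : 0 < lam G := by linarith
  have hsu : ∀ t, (siz g t : ℝ) ≤ n / r + 1 := fun t => by
    rw [hsz t]; exact ItemPICKB.tz_le n t
  have hsl2 : ∀ t, (siz g t : ℝ) < lam G := fun t => by
    have := hsu t
    linarith
  have hzc : ∀ y, g y ≠ none → 1 / 2 ≤ z y := by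
    intro y hy
    have h1 := (abs_le.1 (hz1 y hy)).1
    have h2 : C / n ≤ 1 / 2 := by
      rw [div_le_iff₀ hnpos]
      linarith
    linarith
  -- the weight of `w`
  have hzw : 0 < z w := by
    obtain ⟨y, hy1, hy2⟩ := ItemRII.nbn_pos (hpos ⟨0, by omega⟩)
    have h2 := hz.eig w
    have h3 : adj G w y * z y ≤ ∑ a, adj G w a * z a := by
      refine Finset.single_le_sum (f := fun a => adj G w a * z a) (fun a _ => ?_)
        (Finset.mem_univ y)
      have := hz.nonneg a
      unfold adj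
      split_ifs <;> simp [this]
    rw [h2] at h3
    have h4 : adj G w y = 1 := by unfold adj; rw [if_pos hy2]
    rw [h4, one_mul] at h3
    have h5 := hzc y (by rw [hy1]; simp)
    by_contra h6
    push Not at h6
    nlinarith
  have hD1 : (D : ℝ) ≤ qq r * n := by
    have h1 : 1 - 2 / (r : ℝ) + 1 / (4 * (r : ℝ) ^ 2) ≤ 1 := by
      have : 1 / (4 * (r : ℝ) ^ 2) ≤ 2 / (r : ℝ) := by
        rw [div_le_div_iff₀ (by positivity) hrpos]
        nlinarith
      linarith
    have h2 : 0 ≤ qq r * n := by positivity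
    calc (D : ℝ) ≤ _ := hDx
      _ ≤ 1 * (qq r * n) := mul_le_mul_of_nonneg_right h1 h2
      _ = _ := one_mul _
  have hzw2 : z w ≤ 3 / 2 := by
    have h1 : lam G * z w ≤ D * (1 + C / n) := by
      rw [← hz.eig w, ← hD, ItemRII.sum_nbn, ← nsmul_eq_mul, ← Finset.sum_const,
        Finset.sum_filter]
      refine Finset.sum_le_sum fun u _ => ?_
      by_cases h2 : G.Adj w u
      · have h3 : g u ≠ none := fun h4 => by
          rw [(hT.out u).1 h4] at h2
          exact G.loopless.irrefl w h2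
        rw [if_pos ⟨h3, h2⟩]
        unfold adj
        rw [if_pos h2, one_mul]
        have := (abs_le.1 (hz1 u h3)).2
        linarith
      · rw [if_neg fun h3 => h2 h3.2]
        unfold adj
        rw [if_neg h2, zero_mul]
    have h2 : (D : ℝ) * (1 + C / n) ≤ qq r * n * (1 + C / n) :=
      mul_le_mul_of_nonneg_right hD1 (by positivity)
    have h3 : qq r * n * (1 + C / n) = qq r * n + qq r * C := by
      field_simp
    have h4 : qq r * C ≤ C := by
      calc qq r * C ≤ 1 * C := mul_le_mul_of_nonneg_right hq1 hC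
        _ = C := one_mul C
    have h5 := (abs_le.1 hlam).1
    have h6 : lam G * z w ≤ lam G * (3 / 2) := by linarith
    exact le_of_mul_le_mul_left h6 hlpos
  -- the weights of the classes
  have hT2 : ∀ t, (lam G + siz g t) * tv g z n t = lam G * n - nbn G g w t * z w := by
    intro t
    rw [(hTCG r V G z g n hBd.indep hz).2 t, ItemPICKB.cw_muv hT, ItemPICKB.cw_omv hT]
    ring
  have hTc : ∀ k l, cw z g (some k) - cw z g (some l) = tv g z n l - tv g z n k := by
    intro k l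
    unfold tv
    ring
  have h2nd : ∀ (k l : Fin r) (M : ℕ), siz g l < siz g k → M ≤ nbn G g w k →
      M + nbn G g w l ≤ siz g l →
      M * z w / lam G < cw z g (some k) - cw z g (some l) := by
    intro k l M hlk h1 h2
    rw [hTc]
    have hk := hsz1 k
    have hl := hsz1 l
    have e0 : siz g k = siz g l + 1 := by omega
    have e1 := hT2 k
    have e2 := hT2 l
    rw [e0] at e1
    push_cast at e1
    have h4 := hsu l
    refine ItemPICKB.second (p := siz g l) (dk := nbn G g w k) (dl := nbn G g w l) hn300 hlam1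
      (Nat.cast_nonneg _) (by linarith) (by linarith) hzw hzw2 (Nat.cast_nonneg _)
      (by exact_mod_cast h1) (by exact_mod_cast h2) e1 e2
  have h3rd : ∀ (k l : Fin r) (c : ℕ), 1 ≤ c → siz g k = siz g l →
      nbn G g w l + 2 * c ≤ nbn G g w k →
      c * z w / lam G < cw z g (some k) - cw z g (some l) := by
    intro k l c hc hkl h1
    rw [hTc]
    have e1 := hT2 k
    have e2 := hT2 l
    rw [hkl] at e1
    refine ItemPICKB.third (p := siz g l) (dk := nbn G g w k) (dl := nbn G g w l) (n := n)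
      (Nat.cast_nonneg _) (hsl2 l) (by exact_mod_cast hc) hzw (by exact_mod_cast h1) e1 e2
  have hle : ∀ t, nbn G g w t ≤ siz g t := PICK.nbn_le G g w
  -- moving neighbours
  have hmv : ∀ (G' : SimpleGraph V) (k l : Fin r) (M M' : Finset V), Ty0 G' g w →
      k ≠ l → M.Nonempty → M.card = M'.card →
      (∀ y ∈ M, g y = some k ∧ G.Adj w y) →
      (∀ y ∈ M', g y = some l ∧ ¬ G.Adj w y) →
      (∀ y, G'.Adj w y ↔ (G.Adj w y ∧ y ∉ M) ∨ y ∈ M') →
      (siz g k = siz g l + 1 ∨ (siz g k = siz g l ∧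
        nbn G g w l + 2 * M.card ≤ nbn G g w k)) → lam G < lam G' := by
    intro G' k l M M' hTy hkl hMn hMM h1 h2 h3 h4
    refine hMVM r V G G' g w k l M M' z hT hTy hz.nonneg hz.eig hlpos hzw hkl hMn hMM h1 h2
      h3 ?_
    rcases h4 with h4 | ⟨h4, h5⟩
    · refine h2nd k l M.card (by omega) ?_ ?_
      · rw [← Set.ncard_coe_finset]
        exact Set.ncard_le_ncard (fun y hy => h1 y hy) (Set.toFinite _)
      · rw [hMM, ← Set.ncard_coe_finset]
        unfold nbn siz
        rw [← Set.ncard_union_eq _ (Set.toFinite _) (Set.toFinite _)]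
        · refine Set.ncard_le_ncard ?_ (Set.toFinite _)
          rintro y (hy | hy)
          · exact (h2 y hy).1
          · exact hy.1
        · rw [Set.disjoint_left]
          intro y hy hy'
          exact (h2 y hy).2 hy'.2
    · exact h3rd k l M.card (Finset.card_pos.2 hMn) h4 h5
  have hMxF : MxF r n D F G := by
    have e1 := (hMEMZ r V G g w hr hT (fun t => by have := (hsz1 t).1; omega)).2.2
    have e2 := (hDEV r n (tz r n) (by omega) hsumtz).2.2.2.2.2
    unfold Sz at e2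
    simp only [hsz] at e1
    rw [hM.1.size, hD, hsumtz] at e1
    rw [hsumtz] at e2
    have e3 : m = (SimpleGraph.turanGraph n r).edgeSet.ncard + D := by omega
    unfold MxF
    rw [← e3]
    exact hM
  -- the first estimate
  have h1st : ∀ k l, siz g l < siz g k → nbn G g w k ≤ siz g l := by
    intro k l hlk
    by_contra hcon
    push Not at hcon
    have hbk := hsz1 k
    have hbl := hsz1 l
    have hlek := hle k
    have hdk : nbn G g w k = siz g k := by omega
    obtain ⟨i, j, hij, hi, hj⟩ := hFs.cont V G g w hT (fun t => by have := (hsz1 t).1; omega)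
      hpos hM.1.free
    have hik : i ≠ k := by rintro rfl; omega
    have hjk : j ≠ k := by rintro rfl; omega
    -- another class
    obtain ⟨l', hl'k, hl'i, hl'j, hl'⟩ : ∃ l', l' ≠ k ∧ l' ≠ i ∧ l' ≠ j ∧
        nbn G g w l' + 2 ≤ siz g l' := by
      by_contra hno
      push Not at hno
      have h1 : ∀ t, t ≠ i → t ≠ j → n / r - 1 ≤ nbn G g w t := by
        intro t hti htj
        by_cases htk : t = k
        · subst htk; omega
        · have h2 := hno t htk hti htj
          have h3 := (hsz1 t).1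
          omega
      have h2 := ItemPICKB.sum_ge hij h1
      rw [hD] at h2
      -- the numbers
      have h3 : n < r * (n / r + 1) := by
        have := Nat.lt_mul_div_succ n (show 0 < r by omega)
        simpa using this
      have h4 : (n : ℝ) / r - 2 ≤ ((n / r - 1 : ℕ) : ℝ) := by
        have h5 : (n : ℝ) < r * ((n / r : ℕ) + 1) := by exact_mod_cast h3
        have h6 : ((n / r - 1 : ℕ) : ℝ) = ((n / r : ℕ) : ℝ) - 1 := by
          rw [Nat.cast_sub (by omega)]; norm_num
        rw [h6, sub_le_iff_le_add, div_le_iff₀ hrpos]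
        linarith
      have h5 : ((r : ℝ) - 2) * (n / r - 2) ≤ D := by
        have h6 : (((r - 2) * (n / r - 1) : ℕ) : ℝ) ≤ D := by exact_mod_cast h2
        have h7 : ((r - 2 : ℕ) : ℝ) = (r : ℝ) - 2 := by
          rw [Nat.cast_sub (by omega)]; norm_num
        rw [Nat.cast_mul, h7] at h6
        refine le_trans ?_ h6
        exact mul_le_mul_of_nonneg_left h4 (by linarith)
      have h6 := h5.trans hDx
      have h7 : (16 : ℝ) * r ^ 2 ≤ n := by
        exact_mod_cast (by omega : 16 * r ^ 2 ≤ n)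
      obtain ⟨x, hx⟩ : ∃ x : ℝ, x = n / r := ⟨_, rfl⟩
      have hnx : (n : ℝ) = r * x := by rw [hx]; field_simp
      have h8 : (1 - 2 / (r : ℝ) + 1 / (4 * (r : ℝ) ^ 2)) * (qq r * n)
          = ((r : ℝ) - 2) * x - ((r : ℝ) - 2) * x / r + (r - 1) * x / (4 * r ^ 2) := by
        unfold qq
        rw [hnx]
        field_simp
      rw [h8, ← hx] at h6
      have h9 : ((r : ℝ) - 2) * x / r ≤ 2 * (r - 2) + (r - 1) * x / (4 * r ^ 2) := by linarith
      have hx0 : 0 < x := by rw [hx]; positivity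
      have h10 : ((r : ℝ) - 2) * x / r = 4 * r * (r - 2) * x / (4 * r ^ 2) := by
        field_simp
      have h11 : 4 * r * ((r : ℝ) - 2) * x ≤ 8 * r ^ 2 * (r - 2) + (r - 1) * x := by
        rw [h10, div_le_iff₀ (by positivity)] at h9
        have h12 : (2 * ((r : ℝ) - 2) + (r - 1) * x / (4 * r ^ 2)) * (4 * r ^ 2)
            = 8 * r ^ 2 * (r - 2) + (r - 1) * x := by
          field_simp
          ring
        rwa [h12] at h9
      have h12 : (16 : ℝ) * r ≤ x := by
        rw [hnx] at h7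
        have : (r : ℝ) * (16 * r) ≤ r * x := by linarith [sq (r : ℝ)]
        exact le_of_mul_le_mul_left this hrpos
      have h13 : ((r : ℝ) - 1) * x ≤ 2 * (r - 2) * x :=
        mul_le_mul_of_nonneg_right (by linarith) hx0.le
      have h14 : (16 : ℝ) * r * (2 * r * (r - 2)) ≤ x * (2 * r * (r - 2)) :=
        mul_le_mul_of_nonneg_right h12 (by
          have : (0 : ℝ) ≤ r - 2 := by linarith
          positivity)
      have h15 : 0 < ((r : ℝ) - 2) * x := mul_pos (by linarith) hx0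
      have h16 : 3 * (((r : ℝ) - 2) * x) ≤ r * ((r - 2) * x) :=
        mul_le_mul_of_nonneg_right hr3 h15.le
      nlinarith
    have hb' := hsz1 l'
    have hcond : siz g k = siz g l' + 1 ∨ (siz g k = siz g l' ∧
        nbn G g w l' + 2 * 1 ≤ nbn G g w k) := by omega
    have hp' := hpos l'
    refine PICK.step (c := 1) hMEMZ hr hFs hmv hMxF hT (fun t => by have := (hsz1 t).1; omega)
      hpos (Ne.symm hl'k) le_rfl (by omega) (by omega) hcond i j hij ?_ ?_
    · rw [if_neg hik, if_neg (Ne.symm hl'i)]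
      exact hi
    · rw [if_neg hjk, if_neg (Ne.symm hl'j)]
      exact hj
  refine hPICKG W F r s s₁ m V G g w z hr hs2 hFs hM hT (fun t => ?_) hpos hz.nonneg hz.eig
    hlpos hzw h1st (fun k l M h1 _ h2 h3 => h2nd k l M h1 h2 h3) ?_
  · have := (hsz1 t).1
    omega
  · intro k l h1 h2
    have h3 := h3rd k l 1 le_rfl h1 (by omega)
    simpa using h3

end MP0c3a8f

end

section

/-!
# MP_0c3a8f_co, phase B, item PICKG (the neighbours of `w`, from estimates for the weights)
-/

set_option autoImplicit false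

open Finset

namespace MP0c3a8f

namespace PICKGx

variable {r : ℕ} {V : Type}

/-- one step: the neighbours of `w` cannot be moved such that two classes have less than `s` -/
theorem step [Fintype V] {W : Type} [Fintype W] {F : SimpleGraph W} {s s₁ m : ℕ}
    {G : SimpleGraph V} {f : V → Option (Fin r)} {w : V} {z : V → ℝ} (hMEMZ : MEMZ_statement)
    (hr : 3 ≤ r) (hFs : Fs r s s₁ F)
    (hMV : ∀ (G' : SimpleGraph V) (k l : Fin r) (M M' : Finset V), Ty0 G' f w →
      k ≠ l → M.Nonempty → M.card = M'.card →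
      (∀ y ∈ M, f y = some k ∧ G.Adj w y) →
      (∀ y ∈ M', f y = some l ∧ ¬ G.Adj w y) →
      (∀ y, G'.Adj w y ↔ (G.Adj w y ∧ y ∉ M) ∨ y ∈ M') →
      M.card * z w / lam G < cw z f (some k) - cw z f (some l) → lam G < lam G')
    (hMx : IsMaximiser r m F G) (hT : Ty0 G f w) (hsz : ∀ t, 1 ≤ siz f t)
    (hpos : ∀ t, 1 ≤ nbn G f w t) {k l : Fin r} (hkl : k ≠ l) (c : ℕ) (hc1 : 1 ≤ c)
    (hck : c < nbn G f w k) (hcl : nbn G f w l + c ≤ siz f l)
    (hcond : c * z w / lam G < cw z f (some k) - cw z f (some l)) (i j : Fin r) (hij : i ≠ j)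
    (hi : (if i = k then nbn G f w k - c else if i = l then nbn G f w l + c
      else nbn G f w i) < s)
    (hj : (if j = k then nbn G f w k - c else if j = l then nbn G f w l + c
      else nbn G f w j) < s) : False := by
  classical
  have hfw : f w = none := (hT.out w).2 rfl
  have hne : ∀ v, f v ≠ none → v ≠ w := fun v hv e => hv (e ▸ hfw)
  -- the sets `M` and `M'`
  obtain ⟨M, hM, hMc⟩ : ∃ M : Finset V, (∀ y ∈ M, f y = some k ∧ G.Adj w y) ∧ M.card = c := by
    have h1 : c ≤ {v | f v = some k ∧ G.Adj w v}.toFinset.card := by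
      rw [← Set.ncard_eq_toFinset_card']
      exact hck.le
    obtain ⟨M, h2, h3⟩ := Finset.exists_subset_card_eq h1
    refine ⟨M, fun y hy => ?_, h3⟩
    have := h2 hy
    rw [Set.mem_toFinset] at this
    exact this
  obtain ⟨M', hM', hMc'⟩ : ∃ M : Finset V, (∀ y ∈ M, f y = some l ∧ ¬ G.Adj w y) ∧
      M.card = c := by
    have h0 : {v | f v = some l ∧ G.Adj w v}.ncard + {v | f v = some l ∧ ¬ G.Adj w v}.ncard
        = siz f l := by
      unfold siz
      rw [← Set.ncard_union_eq _ (Set.toFinite _) (Set.toFinite _)]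
      · congr 1
        ext v
        simp only [Set.mem_union, Set.mem_ofPred_eq]
        tauto
      · rw [Set.disjoint_left]
        rintro v ⟨_, h1⟩ ⟨_, h2⟩
        exact h2 h1
    have h1 : c ≤ {v | f v = some l ∧ ¬ G.Adj w v}.toFinset.card := by
      rw [← Set.ncard_eq_toFinset_card']
      unfold nbn at hcl
      omega
    obtain ⟨M, h2, h3⟩ := Finset.exists_subset_card_eq h1
    refine ⟨M, fun y hy => ?_, h3⟩
    have := h2 hy
    rw [Set.mem_toFinset] at this
    exact this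
  have hwM : w ∉ M := fun h => by
    have := (hM w h).1
    rw [hfw] at this
    exact absurd this (by simp)
  have hwM' : w ∉ M' := fun h => by
    have := (hM' w h).1
    rw [hfw] at this
    exact absurd this (by simp)
  set G' := PICK.mv G w M M' hwM' with hG'
  have hadj : ∀ z, G'.Adj w z ↔ (G.Adj w z ∧ z ∉ M) ∨ z ∈ M' := PICK.mv_adj_w G w M M' hwM' hwM
  have hTy : Ty0 G' f w := by
    refine ⟨hT.out, ?_⟩
    intro a b ha hb
    rw [hG', PICK.mv_adj_ne G w M M' hwM' a b (hne a ha) (hne b hb)]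
    exact hT.core a b ha hb
  clear_value G'
  -- the numbers of neighbours
  have hnk : nbn G' f w k + c = nbn G f w k := by
    have h1 : {v | f v = some k ∧ G'.Adj w v} = {v | f v = some k ∧ G.Adj w v} \ (M : Set V) := by
      ext v
      simp only [Set.mem_ofPred_eq, Set.mem_sdiff, Finset.mem_coe, hadj]
      constructor
      · rintro ⟨h1, h3 | h3⟩
        · exact ⟨⟨h1, h3.1⟩, h3.2⟩
        · have := (hM' v h3).1
          rw [h1] at this
          exact absurd (Option.some_injective _ this) hkl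
      · rintro ⟨⟨h1, h3⟩, h4⟩
        exact ⟨h1, Or.inl ⟨h3, h4⟩⟩
    have hsub : (M : Set V) ⊆ {v | f v = some k ∧ G.Adj w v} := fun v hv => hM v hv
    unfold nbn
    rw [h1, Set.ncard_sdiff hsub, Set.ncard_coe_finset, hMc]
    unfold nbn at hck
    omega
  have hnl : nbn G' f w l = nbn G f w l + c := by
    have h1 : {v | f v = some l ∧ G'.Adj w v} = {v | f v = some l ∧ G.Adj w v} ∪ (M' : Set V) := by
      ext v
      simp only [Set.mem_ofPred_eq, Set.mem_union, Finset.mem_coe, hadj]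
      constructor
      · rintro ⟨h1, h3 | h3⟩
        · exact Or.inl ⟨h1, h3.1⟩
        · exact Or.inr h3
      · rintro (⟨h1, h3⟩ | h1)
        · refine ⟨h1, Or.inl ⟨h3, ?_⟩⟩
          intro h4
          have := (hM v h4).1
          rw [h1] at this
          exact hkl (Option.some_injective _ this).symm
        · exact ⟨(hM' v h1).1, Or.inr h1⟩
    unfold nbn
    rw [h1, Set.ncard_union_eq _ (Set.toFinite _) (Set.toFinite _), Set.ncard_coe_finset, hMc']
    rw [Set.disjoint_left]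
    rintro v ⟨_, h3⟩ h4
    exact (hM' v h4).2 h3
  have hno : ∀ t, t ≠ k → t ≠ l → nbn G' f w t = nbn G f w t := by
    intro t htk htl
    have h1 : {v | f v = some t ∧ G'.Adj w v} = {v | f v = some t ∧ G.Adj w v} := by
      ext v
      simp only [Set.mem_ofPred_eq, hadj]
      constructor
      · rintro ⟨h1, h3 | h3⟩
        · exact ⟨h1, h3.1⟩
        · have := (hM' v h3).1
          rw [h1] at this
          exact absurd (Option.some_injective _ this) htl
      · rintro ⟨h1, h3⟩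
        refine ⟨h1, Or.inl ⟨h3, ?_⟩⟩
        intro h4
        have := (hM v h4).1
        rw [h1] at this
        exact htk (Option.some_injective _ this)
    unfold nbn
    rw [h1]
  have hval : ∀ t, nbn G' f w t = if t = k then nbn G f w k - c else
      if t = l then nbn G f w l + c else nbn G f w t := by
    intro t
    split_ifs with h1 h2
    · rw [h1]; omega
    · rw [h2]; exact hnl
    · exact hno t h1 h2
  have hsum : ∑ t, nbn G' f w t = ∑ t, nbn G f w t := by
    have hlk : l ∈ (univ : Finset (Fin r)).erase k := mem_erase.2 ⟨hkl.symm, mem_univ l⟩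
    rw [← add_sum_erase univ (fun t => nbn G' f w t) (mem_univ k),
      ← add_sum_erase univ (fun t => nbn G f w t) (mem_univ k),
      ← add_sum_erase _ (fun t => nbn G' f w t) hlk, ← add_sum_erase _ (fun t => nbn G f w t) hlk]
    have : ∑ t ∈ (univ.erase k).erase l, nbn G' f w t
        = ∑ t ∈ (univ.erase k).erase l, nbn G f w t := by
      apply sum_congr rfl
      intro t ht
      rw [mem_erase, mem_erase] at ht
      exact hno t ht.2.1 ht.1
    rw [this]
    omega
  have hpos' : ∀ t, 1 ≤ nbn G' f w t := by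
    intro t
    rw [hval t]
    have := hpos t
    split_ifs <;> omega
  obtain ⟨_, _, e1⟩ := hMEMZ r V G f w hr hT hsz
  obtain ⟨m1, m2, e2⟩ := hMEMZ r V G' f w hr hTy hsz
  rw [hsum] at e2
  have he : G'.edgeSet.ncard = G.edgeSet.ncard := by omega
  have hnc : ¬ G'.Colorable r := by
    rw [m1]
    rintro ⟨t, ht⟩
    have := hpos' t
    omega
  have hsum1 : 1 ≤ ∑ t, nbn G' f w t :=
    (hpos' k).trans (Finset.single_le_sum (f := fun t => nbn G' f w t)
      (fun t _ => Nat.zero_le _) (mem_univ k))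
  have hfree : F.Free G' := hFs.free V G' f w i j hij hTy (by rw [hval]; exact hi)
    (by rw [hval]; exact hj)
  have hIn : InN r m F G' :=
    ⟨hfree, by rw [he]; exact hMx.1.size, m2 hsum1, hnc⟩
  have hle := hMx.2 V G' hIn
  have hlt := hMV G' k l M M' hTy hkl (Finset.card_pos.mp (by omega)) (by rw [hMc, hMc'])
    hM hM' hadj (by rw [hMc]; exact hcond)
  exact absurd hle (not_le.2 hlt)

end PICKGx

theorem prfPICKG : MVM_statement → MEMZ_statement → PICKG_statement := by
  intro hMVM hMEMZ W _ F r s s₁ m V _ G f w z hr hs2 hFs hMx hT hsz0 hpos hz heig hlam hzw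
    hA hE1 hE2
  classical
  have hsz : ∀ t, 1 ≤ siz f t := fun t => (hsz0 t).2
  have hle : ∀ t, nbn G f w t ≤ siz f t := PICK.nbn_le G f w
  have hmv : ∀ (G' : SimpleGraph V) (k l : Fin r) (M M' : Finset V), Ty0 G' f w →
      k ≠ l → M.Nonempty → M.card = M'.card →
      (∀ y ∈ M, f y = some k ∧ G.Adj w y) →
      (∀ y ∈ M', f y = some l ∧ ¬ G.Adj w y) →
      (∀ y, G'.Adj w y ↔ (G.Adj w y ∧ y ∉ M) ∨ y ∈ M') →
      M.card * z w / lam G < cw z f (some k) - cw z f (some l) → lam G < lam G' :=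
    fun G' k l M M' hTy hkl hM hMM h1 h2 h3 h4 =>
      hMVM r V G G' f w k l M M' z hT hTy hz heig hlam hzw hkl hM hMM h1 h2 h3 h4
  have key : ∀ (k l : Fin r), k ≠ l → ∀ c : ℕ, 1 ≤ c → c < nbn G f w k →
      nbn G f w l + c ≤ siz f l → (c * z w / lam G < cw z f (some k) - cw z f (some l)) →
      ∀ i j : Fin r, i ≠ j →
      (if i = k then nbn G f w k - c else if i = l then nbn G f w l + c
        else nbn G f w i) < s →
      (if j = k then nbn G f w k - c else if j = l then nbn G f w l + c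
        else nbn G f w j) < s → False :=
    fun k l hkl c h1 h2 h3 h4 i j hij h5 h6 =>
      PICKGx.step hMEMZ hr hFs hmv hMx hT hsz hpos hkl c h1 h2 h3 h4 i j hij h5 h6
  -- the two classes
  obtain ⟨i₀, j₀, hij₀, hi₀, hj₀⟩ := hFs.cont V G f w hT
    (fun t => (hsz0 t).1) hpos hMx.1.free
  set S : Finset (Fin r) := univ.filter fun t => nbn G f w t < s with hS
  have hmS : ∀ t, t ∈ S ↔ nbn G f w t < s := by
    intro t; rw [hS, mem_filter]; simp
  have hi₀S : i₀ ∈ S := (hmS _).2 hi₀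
  have hj₀S : j₀ ∈ S := (hmS _).2 hj₀
  -- the claim
  have claim : ∀ k l : Fin r, k ∉ S → l ∈ S → siz f k ≤ siz f l := by
    intro k l hk hl
    by_contra hcon
    push Not at hcon
    rw [hmS] at hk hl
    have hkl : k ≠ l := by rintro rfl; exact hk hl
    obtain ⟨u, huS, hul⟩ : ∃ u, u ∈ S ∧ u ≠ l := by
      by_cases h : l = i₀
      · exact ⟨j₀, hj₀S, fun h1 => hij₀ (by rw [h1, h])⟩
      · exact ⟨i₀, hi₀S, fun h1 => h h1.symm⟩
    rw [hmS] at huS
    have huk : u ≠ k := by rintro rfl; exact hk huS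
    have h1 := hA k l hcon
    have h2 := hpos l
    have h3 := hE1 k l (nbn G f w k - nbn G f w l) hcon (by omega) (by omega) (by omega)
    refine key k l hkl (nbn G f w k - nbn G f w l) (by omega) (by omega) (by omega) h3 u k
      huk ?_ ?_
    · rw [if_neg huk, if_neg hul]; exact huS
    · rw [if_pos rfl]; omega
  obtain ⟨i, hiS, himax⟩ := Finset.exists_max_image S (fun t => siz f t) ⟨i₀, hi₀S⟩
  have hne : (S.erase i).Nonempty := by
    by_cases h : i = i₀
    · exact ⟨j₀, mem_erase.2 ⟨fun h1 => hij₀ (by rw [h1, h]), hj₀S⟩⟩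
    · exact ⟨i₀, mem_erase.2 ⟨fun h1 => h h1.symm, hi₀S⟩⟩
  obtain ⟨j, hjS, hjmax⟩ := Finset.exists_max_image (S.erase i) (fun t => siz f t) hne
  have hij : i ≠ j := (mem_erase.1 hjS).1.symm
  have hjS' : j ∈ S := (mem_erase.1 hjS).2
  have hsi : nbn G f w i < s := (hmS _).1 hiS
  have hsj : nbn G f w j < s := (hmS _).1 hjS'
  have hloc : ∀ k l : Fin r, k ≠ l → (l ≠ i ∧ l ≠ j ∨ nbn G f w l + 1 < s) →
      1 < nbn G f w k → nbn G f w l + 1 ≤ siz f l →
      (z w / lam G < cw z f (some k) - cw z f (some l)) → False := by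
    intro k l hkl hl h1 h2 h3
    refine key k l hkl 1 le_rfl h1 h2 (by rw [Nat.cast_one, one_mul]; exact h3) i j hij ?_ ?_
    · split_ifs with h4 h5
      · rw [← h4]; omega
      · rcases hl with hl | hl
        · exact absurd h5.symm hl.1
        · exact hl
      · exact hsi
    · split_ifs with h4 h5
      · rw [← h4]; omega
      · rcases hl with hl | hl
        · exact absurd h5.symm hl.2
        · exact hl
      · exact hsj
  refine ⟨i, j, hij, ?_, ?_, hsi, hsj, ?_⟩
  · intro t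
    by_cases ht : t ∈ S
    · exact himax t ht
    · exact claim t i ht hiS
  · intro t hti
    by_cases ht : t ∈ S
    · exact hjmax t (mem_erase.2 ⟨hti, ht⟩)
    · exact claim t j ht hjS'
  · intro k l hl
    constructor
    · intro hkl
      by_contra hcon
      push Not at hcon
      have hk := hle k
      have hne : k ≠ l := by rintro rfl; omega
      have hpl := hpos l
      exact hloc k l hne hl (by omega) (by omega) (hE2 k l hkl (by omega))
    · intro hkl h2
      by_contra hcon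
      have hll := hle l
      have hne : k ≠ l := by rintro rfl; omega
      have h3 := hE1 k l 1 hkl le_rfl (by omega) (by omega)
      rw [Nat.cast_one, one_mul] at h3
      exact hloc k l hne hl (by omega) (by omega) h3

end MP0c3a8f

end

section

/-!
# MP_0c3a8f_co: item PICKN (the neighbours of `w`, few outer edges)
-/

open Finset

namespace MP0c3a8f

namespace ItemPICKN

theorem adj_nonneg {V : Type} (G : SimpleGraph V) (i j : V) : 0 ≤ adj G i j := by
  unfold adj
  split_ifs <;> norm_num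

theorem big {M : ℝ} {N n : ℕ} (hN : M ^ 4 ≤ N) (hn : N ≤ n) :
    M ≤ Real.sqrt (Real.sqrt n) := by
  have h1 : (N : ℝ) ≤ n := by exact_mod_cast hn
  apply Real.le_sqrt_of_sq_le
  apply Real.le_sqrt_of_sq_le
  have h2 : (M ^ 2) ^ 2 = M ^ 4 := by ring
  rw [h2]
  exact hN.trans h1

/-- the numbers -/
theorem num {r s₁ n C c C₁ C₂ h l : ℝ} (hr : 3 ≤ r) (hs : 0 ≤ s₁) (hC : 0 ≤ C) (hc : 0 ≤ c)
    (hC₁ : 0 ≤ C₁) (hC₂ : 0 ≤ C₂) (hn : h ^ 4 = n)
    (hbig : r * (c + C + s₁ + 1) + 3 * (C₁ + c) + 2 * C₁ + 24 * (C * C₁) + 8 * C₂ + 1 ≤ h)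
    (hl : |l - (1 - 1 / r) * n| ≤ C₁ * h) :
    0 < n ∧ n / 3 < l ∧ n / r + c * h ^ 2 < l ∧ C * h + s₁ + 1 ≤ n / r - c * h ^ 2 ∧
      C₁ / h ^ 2 ≤ 1 / 2 ∧ C * h * (C₁ * h / n) / l ≤ 1 / 8 ∧ C₂ / n ≤ 1 / 8 := by
  have hr0 : 0 < r := by linarith
  have p1 : 0 ≤ r * (c + C + s₁ + 1) := by positivity
  have p2 : 0 ≤ C * C₁ := by positivity
  have h1 : 1 ≤ h := by linarith
  have h0 : 0 < h := by linarith
  have hp2 : 0 < h ^ 2 := by positivity
  have hp3 : 0 < h ^ 3 := by positivity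
  have h2 : h ≤ h ^ 2 := by
    have h5 := mul_le_mul_of_nonneg_right h1 h0.le
    linarith [show h * h = h ^ 2 by ring]
  have h3 : h ^ 2 ≤ h ^ 3 := by
    have h5 := mul_le_mul_of_nonneg_right h1 hp2.le
    linarith [show h * h ^ 2 = h ^ 3 by ring]
  have h4 : h ^ 3 ≤ h ^ 4 := by
    have h5 := mul_le_mul_of_nonneg_right h1 hp3.le
    linarith [show h * h ^ 3 = h ^ 4 by ring]
  have hn0 : 0 < n := by rw [← hn]; positivity
  have e4 : h * h ^ 3 = n := by rw [← hn]; ring
  have q1 : ((C₁ + c) * 3 + 1) * h ^ 3 ≤ n := by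
    rw [← e4]
    exact mul_le_mul_of_nonneg_right (by linarith) hp3.le
  have hrr : n / r ≤ n / 3 := div_le_div_of_nonneg_left hn0.le (by norm_num) hr
  have hl1 := (abs_le.1 hl).1
  have hl2 : (1 - 1 / r) * n = n - n / r := by field_simp
  rw [hl2] at hl1
  have m1 : C₁ * h ≤ C₁ * h ^ 3 := mul_le_mul_of_nonneg_left (by linarith) hC₁
  have m2 : c * h ^ 2 ≤ c * h ^ 3 := mul_le_mul_of_nonneg_left h3 hc
  have m3 : 0 ≤ c * h ^ 3 := by positivity
  have m4 : 0 ≤ C₁ * h ^ 3 := by positivity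
  have a1 : n / 3 < l := by linarith
  have a2 : n / r + c * h ^ 2 < l := by linarith
  have a3 : C * h + s₁ + 1 ≤ n / r - c * h ^ 2 := by
    have b1 : (c + C + s₁ + 1) * h ^ 3 ≤ n / r := by
      rw [le_div_iff₀ hr0, ← e4]
      have b5 : r * (c + C + s₁ + 1) * h ^ 3 ≤ h * h ^ 3 :=
        mul_le_mul_of_nonneg_right (by linarith) hp3.le
      calc (c + C + s₁ + 1) * h ^ 3 * r = r * (c + C + s₁ + 1) * h ^ 3 := by ring
        _ ≤ _ := b5
    have b2 : C * h ≤ C * h ^ 3 := mul_le_mul_of_nonneg_left (by linarith) hC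
    have b3 : s₁ * 1 ≤ s₁ * h ^ 3 := mul_le_mul_of_nonneg_left (by linarith) hs
    linarith
  have a4 : C₁ / h ^ 2 ≤ 1 / 2 := by
    rw [div_le_iff₀ hp2]
    linarith
  have a5 : C₂ / n ≤ 1 / 8 := by
    rw [div_le_iff₀ hn0]
    linarith
  have hl0 : 0 < l := by linarith
  have a6 : C * h * (C₁ * h / n) / l ≤ 1 / 8 := by
    rw [div_le_iff₀ hl0, ← mul_div_assoc, div_le_iff₀ hn0]
    have b1 : C * h * (C₁ * h) = C * C₁ * h ^ 2 := by ring
    rw [b1]
    have b2 : h ^ 2 ≤ n := by linarith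
    have b4 : C * C₁ ≤ 1 / 8 * l := by linarith
    calc C * C₁ * h ^ 2 ≤ C * C₁ * n := mul_le_mul_of_nonneg_left b2 p2
      _ ≤ 1 / 8 * l * n := mul_le_mul_of_nonneg_right b4 hn0.le
  exact ⟨hn0, a1, a2, a3, a4, a6, a5⟩

variable {V : Type} [Fintype V] {r : ℕ}

/-- the sizes of the classes -/
theorem siz_bd {G : SimpleGraph V} {g : V → Option (Fin r)} {n : ℕ} {C c h : ℝ}
    (hK : NK n C G g) (hc : 0 ≤ c) (hcc : c ^ 2 = C) (hn : h ^ 4 = n) (t : Fin r) :
    |(siz g t : ℝ) - n / r| ≤ c * h ^ 2 := by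
  have h1 : ((siz g t : ℝ) - n / r) ^ 2 ≤ (c * h ^ 2) ^ 2 := by
    have h2 := hK.dev
    unfold dev at h2
    have h3 : ∑ s, (siz g s : ℝ) = n := by exact_mod_cast hK.tot
    rw [h3] at h2
    have h4 : ((siz g t : ℝ) - n / r) ^ 2 ≤ ∑ t, ((siz g t : ℝ) - n / r) ^ 2 :=
      Finset.single_le_sum (f := fun t => ((siz g t : ℝ) - n / r) ^ 2)
        (fun _ _ => sq_nonneg _) (Finset.mem_univ t)
    calc ((siz g t : ℝ) - n / r) ^ 2 ≤ C * n := h4.trans h2
      _ = (c * h ^ 2) ^ 2 := by rw [← hcc, ← hn]; ring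
  exact abs_le_of_sq_le_sq h1 (by positivity)

theorem nbn_le_out (G : SimpleGraph V) (g : V → Option (Fin r)) (w : V) (hw : g w = none)
    (t : Fin r) : nbn G g w t ≤ (outSet G g).ncard := by
  unfold nbn
  refine Set.ncard_le_ncard_of_injOn (fun v => s(w, v)) ?_ ?_ (Set.toFinite _)
  · rintro v ⟨_, hv⟩
    exact ⟨hv, w, Sym2.mem_mk_left w v, hw⟩
  · intro a _ b _ hab
    have h1 : s(w, a) = s(w, b) := hab
    rcases Sym2.eq_iff.1 h1 with h2 | h2
    · exact h2.2
    · exact h2.2.trans h2.1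

theorem miss_zero {G : SimpleGraph V} {g : V → Option (Fin r)} {w : V} (hT : Ty0 G g w) :
    (missSet G g).ncard = 0 := by
  have h : missSet G g = ∅ := by
    ext e
    simp only [missSet, Set.mem_ofPred_eq, Set.mem_empty_iff_false, iff_false]
    rintro ⟨a, b, -, ha, hb, hab, hn⟩
    exact hn ((hT.core a b ha hb).2 hab)
  rw [h, Set.ncard_empty]

theorem muv_zero {G : SimpleGraph V} {g : V → Option (Fin r)} {w : V} (hT : Ty0 G g w)
    (z : V → ℝ) (v : V) : muv G g z v = 0 := by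
  unfold muv
  refine Finset.sum_eq_zero fun u _ => if_neg ?_
  rintro ⟨h1, h2, h3, h4⟩
  exact h4 ((hT.core v u h1 h2).2 (Ne.symm h3))

theorem cw_omv {G : SimpleGraph V} {g : V → Option (Fin r)} {w : V} (hT : Ty0 G g w)
    (z : V → ℝ) (t : Fin r) : cw (fun v => omv G g z v) g (some t) = nbn G g w t * z w := by
  classical
  have h1 : ∀ v, omv G g z v = if G.Adj w v then z w else 0 := by
    intro v
    unfold omv
    rw [Finset.sum_eq_single w]
    · have hw := (hT.out w).2 rfl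
      simp only [hw, true_and, G.adj_comm v w]
    · intro u _ hu
      rw [if_neg]
      rintro ⟨h2, _⟩
      exact hu ((hT.out u).1 h2)
    · intro h2
      exact absurd (Finset.mem_univ w) h2
  unfold cw nbn
  have h2 : {v | g v = some t ∧ G.Adj w v} =
      ((Finset.univ.filter (fun v => g v = some t ∧ G.Adj w v) : Finset V) : Set V) := by
    ext v; simp
  rw [h2, Set.ncard_coe_finset, Finset.card_filter, Nat.cast_sum, Finset.sum_mul]
  refine Finset.sum_congr rfl fun v _ => ?_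
  show (if g v = some t then omv G g z v else 0) = _
  rw [h1]
  by_cases h3 : g v = some t
  · by_cases h4 : G.Adj w v
    · simp [h3, h4]
    · simp [h3, h4]
  · simp [h3]

end ItemPICKN

open ItemPICKN in
theorem prfPICKN : P_statement → FLU_statement → TCG_statement → TCL_statement →
    PICKG_statement → PICKN_statement := by
  intro _ hF hTG hTL hPG W _ F r s s₁ C hr hs hFs hC
  obtain ⟨C₁, n₁, hC₁, h₁⟩ := hF r C hr hC
  obtain ⟨C₂, n₂, hC₂, h₂⟩ := hTL r C hr hC
  obtain ⟨c, hc, hcc⟩ : ∃ c : ℝ, 0 ≤ c ∧ c ^ 2 = C := ⟨Real.sqrt C, Real.sqrt_nonneg _,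
    Real.sq_sqrt hC⟩
  obtain ⟨n₃, hn₃⟩ := exists_nat_ge ((r * (c + C + s₁ + 1) + 3 * (C₁ + c) + 2 * C₁ +
    24 * (C * C₁) + 8 * C₂ + 1) ^ 4)
  refine ⟨n₁ + n₂ + n₃, ?_⟩
  intro V _ G g w n m hn hM hNK hT hpos
  obtain ⟨h, hh⟩ : ∃ h : ℝ, h = Real.sqrt (Real.sqrt n) := ⟨_, rfl⟩
  have hbig : r * (c + C + s₁ + 1) + 3 * (C₁ + c) + 2 * C₁ + 24 * (C * C₁) + 8 * C₂ + 1 ≤ h := by
    rw [hh]
    exact big hn₃ (by omega)
  have hhs : h ^ 2 = Real.sqrt n := by rw [hh]; exact Real.sq_sqrt (Real.sqrt_nonneg _)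
  have hn4 : h ^ 4 = n := by
    have : h ^ 4 = (h ^ 2) ^ 2 := by ring
    rw [this, hhs]
    exact Real.sq_sqrt (Nat.cast_nonneg n)
  obtain ⟨⟨z, hz⟩, hz2⟩ := h₁ V G g n (by omega) hNK
  obtain ⟨hz1, hz3, hlam, -⟩ := hz2 z hz
  obtain ⟨-, hcls⟩ := hTG r V G z g n hNK.indep hz
  obtain ⟨-, -, hdif⟩ := h₂ V G z g n (by omega) hNK hz
  rw [← hh] at hlam hz3
  rw [← hhs] at hz1
  have hr0 : (3 : ℝ) ≤ r := by exact_mod_cast hr
  obtain ⟨a0, a1, a2, a3, a4, a5, a6⟩ := num hr0 (Nat.cast_nonneg s₁) hC hc hC₁ hC₂ hn4 hbig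
    (by unfold qq at hlam; exact hlam)
  have hfew := hNK.few
  rw [miss_zero hT, ← hh] at hfew
  have hw : g w = none := (hT.out w).2 rfl
  have hd : ∀ t, (nbn G g w t : ℝ) ≤ C * h := by
    intro t
    have h5 : (nbn G g w t : ℝ) ≤ (outSet G g).ncard := by exact_mod_cast nbn_le_out G g w hw t
    push_cast at hfew
    linarith
  have hsz : ∀ t, C * h + s₁ + 1 ≤ siz g t := by
    intro t
    have h5 := (abs_le.1 (siz_bd hNK hc hcc hn4 t)).1
    linarith
  have hszl : ∀ t, (siz g t : ℝ) < lam G := by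
    intro t
    have h5 := (abs_le.1 (siz_bd hNK hc hcc hn4 t)).2
    linarith
  have hh0 : 0 ≤ h := by rw [hh]; exact Real.sqrt_nonneg _
  have hCh : 0 ≤ C * h := mul_nonneg hC hh0
  have hl : 0 < lam G := by linarith
  have hzw : 0 < z w := by
    obtain ⟨t0⟩ : Nonempty (Fin r) := ⟨⟨0, by omega⟩⟩
    have h5 : {v | g v = some t0 ∧ G.Adj w v}.Nonempty := by
      rw [← Set.ncard_pos]
      exact hpos t0
    obtain ⟨u, hu1, hu2⟩ := h5
    have h6 := hz.eig w
    have h7 : adj G w u * z u ≤ ∑ u, adj G w u * z u :=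
      Finset.single_le_sum (f := fun u => adj G w u * z u)
        (fun u _ => mul_nonneg (adj_nonneg G w u) (hz.nonneg u)) (Finset.mem_univ u)
    have h8 : adj G w u = 1 := by unfold adj; rw [if_pos hu2]
    rw [h8, one_mul, h6] at h7
    have h9 := (abs_le.1 (hz1 u (by rw [hu1]; simp))).1
    by_contra hcon
    push Not at hcon
    have : lam G * z w ≤ 0 := mul_nonpos_of_nonneg_of_nonpos hl.le hcon
    linarith
  have htv : ∀ k l : Fin r, tv g z n l - tv g z n k = cw z g (some k) - cw z g (some l) := by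
    intro k l
    unfold tv
    ring
  refine hPG W F r s s₁ m V G g w z hr hs hFs hM hT ?_ hpos hz.nonneg hz.eig hl hzw ?_ ?_ ?_
  · intro t
    have h5 := hsz t
    have h6 : (s₁ : ℝ) ≤ siz g t := by linarith
    have h7 : ((1 : ℕ) : ℝ) ≤ siz g t := by push_cast; have : (0 : ℝ) ≤ s₁ := Nat.cast_nonneg _; linarith
    exact ⟨by exact_mod_cast h6, by exact_mod_cast h7⟩
  · intro k l _
    have h5 := hd k
    have h6 := hsz l
    have h7 : (nbn G g w k : ℝ) ≤ siz g l := by
      have : (0 : ℝ) ≤ s₁ := Nat.cast_nonneg _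
      linarith
    exact_mod_cast h7
  · intro k l M hlk _ hMk _
    have h5 := hdif l k hlk.le
    rw [miss_zero hT, htv] at h5
    have h6 : (siz g l : ℝ) + 1 ≤ siz g k := by exact_mod_cast hlk
    have h7 : C₂ * (((0 : ℕ) : ℝ) + 1) / n = C₂ / n := by push_cast; ring
    rw [h7] at h5
    have h8 : (M : ℝ) ≤ C * h := le_trans (by exact_mod_cast hMk) (hd k)
    have h9 : M * z w / lam G ≤ C * h * (C₁ * h / n) / lam G := by
      refine div_le_div_of_nonneg_right ?_ hl.le
      exact mul_le_mul h8 (hz3 w hw) (hz.nonneg w) hCh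
    linarith
  · intro k l hkl hdl
    have e1 := hcls k
    have e2 := hcls l
    rw [cw_omv hT] at e1 e2
    have hmu : ∀ t : Fin r, cw (fun v => muv G g z v) g (some t) = 0 := by
      intro t
      unfold cw
      refine Finset.sum_eq_zero fun v _ => ?_
      show (if g v = some t then muv G g z v else 0) = 0
      rw [muv_zero hT, ite_self]
    rw [hmu] at e1 e2
    rw [← htv]
    have h5 : (nbn G g w l : ℝ) + 2 ≤ nbn G g w k := by exact_mod_cast hdl
    have e3 : (lam G + siz g k) * (tv g z n l - tv g z n k) =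
        ((nbn G g w k : ℝ) - nbn G g w l) * z w := by
      have e4 : (siz g l : ℝ) = siz g k := by rw [hkl]
      rw [e4] at e2
      linear_combination e2 - e1
    have h6 : 2 * z w ≤ ((nbn G g w k : ℝ) - nbn G g w l) * z w :=
      mul_le_mul_of_nonneg_right (by linarith) hzw.le
    have h7 := hszl k
    have h8 : (0 : ℝ) ≤ siz g k := Nat.cast_nonneg _
    rw [← e3] at h6
    by_contra hcon
    push Not at hcon
    rw [le_div_iff₀ hl] at hcon
    have h9 : 0 ≤ tv g z n l - tv g z n k := by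
      by_contra hcon2
      push Not at hcon2
      have : (lam G + siz g k) * (tv g z n l - tv g z n k) < 0 :=
        mul_neg_of_pos_of_neg (by linarith) hcon2
      linarith
    have h10 : siz g k * (tv g z n l - tv g z n k) ≤ lam G * (tv g z n l - tv g z n k) :=
      mul_le_mul_of_nonneg_right h7.le h9
    have h11 : 0 < tv g z n l - tv g z n k := by
      rcases h9.lt_or_eq with h12 | h12
      · exact h12
      · rw [← h12, mul_zero] at h6
        linarith
    have h12 : siz g k * (tv g z n l - tv g z n k) < lam G * (tv g z n l - tv g z n k) :=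
      mul_lt_mul_of_pos_right h7 h11
    rw [add_mul] at h6
    rw [mul_comm] at hcon
    linarith

end MP0c3a8f

end

section

/-!
# MP_0c3a8f_co: item PZN (complete core)
-/

set_option autoImplicit false

open Finset

namespace MP0c3a8f

namespace ItemPZN

open ItemRST

variable {V : Type} {r : ℕ}

/-- complete core on the classes of `g`, and `w` joined to `A` -/
def HZ (g : V → Option (Fin r)) (w : V) (A : Finset V) : SimpleGraph V where
  Adj u v := u ≠ v ∧ ((g u ≠ none ∧ g v ≠ none ∧ g u ≠ g v) ∨ (u = w ∧ v ∈ A) ∨ (v = w ∧ u ∈ A))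
  symm := ⟨fun u v h => ⟨h.1.symm, by
    rcases h.2 with h | h | h
    · exact Or.inl ⟨h.2.1, h.1, h.2.2.symm⟩
    · exact Or.inr (Or.inr h)
    · exact Or.inr (Or.inl h)⟩⟩
  loopless := ⟨fun _ h => h.1 rfl⟩

section

variable {g : V → Option (Fin r)} {w : V} {A : Finset V}

theorem hz_core {u v : V} (hw : g w = none) (hu : g u ≠ none) (hv : g v ≠ none) :
    (HZ g w A).Adj u v ↔ g u ≠ g v := by
  constructor
  · rintro ⟨-, h | h | h⟩
    · exact h.2.2
    · exact absurd (by rw [h.1]; exact hw) hu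
    · exact absurd (by rw [h.1]; exact hw) hv
  · intro h
    exact ⟨fun e => h (by rw [e]), Or.inl ⟨hu, hv, h⟩⟩

theorem hz_indep (hw : g w = none) : Indep (HZ g w A) g := by
  intro u v hu huv hadj
  exact (hz_core hw hu (huv ▸ hu)).1 hadj huv

theorem hz_miss (hw : g w = none) : missSet (HZ g w A) g = ∅ := by
  ext e
  simp only [missSet, Set.mem_ofPred_eq, Set.mem_empty_iff_false, iff_false]
  rintro ⟨u, v, -, hu, hv, huv, h⟩
  exact h ((hz_core hw hu hv).2 huv)

theorem hz_iso (hA : ∀ x ∈ A, g x ≠ none) {x y : V} (hx : g x = none) (hxw : x ≠ w) :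
    ¬ (HZ g w A).Adj x y := by
  rintro ⟨-, h | h | h⟩
  · exact h.1 hx
  · exact hxw h.1
  · exact hA x h.2 hx

theorem hz_w (hw : g w = none) (hA : ∀ x ∈ A, g x ≠ none) (x : V) :
    (HZ g w A).Adj w x ↔ x ∈ A := by
  constructor
  · rintro ⟨h0, h | h | h⟩
    · exact absurd hw h.1
    · exact h.2
    · exact absurd h.1.symm h0
  · intro h
    refine ⟨?_, Or.inr (Or.inl ⟨rfl, h⟩)⟩
    rintro rfl
    exact hA _ h hw

end

/-- the set of the neighbours of `w` -/
theorem choiceZ [Fintype V] (g : V → Option (Fin r)) {b : ℕ} (k : Fin r) (hrb : r ≤ b)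
    (hs : ∀ t, b ≤ siz g t) :
    ∃ A : Finset V, (∀ x ∈ A, g x ≠ none) ∧ A.card = b ∧
      (∀ t, t ≠ k → {x | g x = some t ∧ x ∈ A}.ncard = 1) ∧
      1 ≤ {x | g x = some k ∧ x ∈ A}.ncard := by
  classical
  have hr : 1 ≤ r := by
    have := k.isLt
    omega
  have h1 : ∀ t, ∃ v, g v = some t := fun t => exists_one (by have := hs t; omega)
  choose y hy using h1
  have hyi : Function.Injective y := by
    intro s t h
    have := hy s
    rw [h, hy t] at this
    exact (Option.some_injective _ this).symm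
  have hk : b - (r - 1) ≤ (univ.filter fun x => g x = some k).card := by
    have h2 : (univ.filter fun x => g x = some k).card = siz g k := by
      unfold siz
      rw [Set.ncard_eq_toFinset_card _ (Set.toFinite _)]
      congr 1
      ext x
      simp
    rw [h2]
    have := hs k
    omega
  obtain ⟨B, hB1, hB2⟩ := Finset.exists_subset_card_eq hk
  have hBk : ∀ x ∈ B, g x = some k := fun x hx => (Finset.mem_filter.1 (hB1 hx)).2
  have hdis : Disjoint ((univ.filter fun t => t ≠ k).image y) B := by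
    rw [Finset.disjoint_left]
    intro x hx hxB
    obtain ⟨t, ht, rfl⟩ := Finset.mem_image.1 hx
    have h2 := hBk _ hxB
    rw [hy t] at h2
    exact (Finset.mem_filter.1 ht).2 (Option.some_injective _ h2)
  refine ⟨(univ.filter fun t => t ≠ k).image y ∪ B, ?_, ?_, ?_, ?_⟩
  · intro x hx
    rcases Finset.mem_union.1 hx with hx | hx
    · obtain ⟨t, -, rfl⟩ := Finset.mem_image.1 hx
      rw [hy t]
      exact Option.some_ne_none t
    · rw [hBk x hx]
      exact Option.some_ne_none k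
  · rw [Finset.card_union_of_disjoint hdis, Finset.card_image_of_injective _ hyi,
      Finset.filter_ne', Finset.card_erase_of_mem (Finset.mem_univ _), Finset.card_univ,
      Fintype.card_fin, hB2]
    omega
  · intro t ht
    rw [Set.ncard_eq_one]
    refine ⟨y t, ?_⟩
    ext x
    simp only [Set.mem_ofPred_eq, Set.mem_singleton_iff]
    constructor
    · rintro ⟨h2, h3⟩
      rcases Finset.mem_union.1 h3 with h3 | h3
      · obtain ⟨s, -, rfl⟩ := Finset.mem_image.1 h3
        rw [hy s] at h2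
        rw [Option.some_injective _ h2]
      · rw [hBk x h3] at h2
        exact absurd (Option.some_injective _ h2).symm ht
    · rintro rfl
      exact ⟨hy t, Finset.mem_union_left _ (Finset.mem_image.2 ⟨t, by simp [ht], rfl⟩)⟩
  · have h2 : 0 < B.card := by omega
    obtain ⟨x, hx⟩ := Finset.card_pos.1 h2
    exact (Set.ncard_pos (Set.toFinite _)).2 ⟨x, hBk x hx, Finset.mem_union_right _ hx⟩

theorem sq_sum [Fintype V] (S : Finset V) (f : V → ℕ) : ∑ x ∈ S, f x ^ 2 ≤ (∑ x ∈ S, f x) ^ 2 := by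
  rw [sq (∑ x ∈ S, f x), Finset.sum_mul]
  refine Finset.sum_le_sum fun x hx => ?_
  rw [sq]
  exact Nat.mul_le_mul_left _ (Finset.single_le_sum (f := f) (fun _ _ => Nat.zero_le _) hx)

/-- sum of the squares -/
theorem sq_bound [Fintype V] (S : Finset V) (f : V → ℕ) (b : ℕ) (hs : ∑ x ∈ S, f x ≤ b)
    (hf : ∀ x ∈ S, f x < b) : ∑ x ∈ S, f x ^ 2 + 2 * b ≤ b ^ 2 + 2 := by
  classical
  by_cases h : ∃ x ∈ S, 1 ≤ f x
  · obtain ⟨x, hx, hx1⟩ := h
    have h1 := Finset.add_sum_erase S f hx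
    have h2 := Finset.add_sum_erase S (fun x => f x ^ 2) hx
    have h3 := sq_sum (S.erase x) f
    obtain ⟨c, hc⟩ : ∃ c, f x = c + 1 := ⟨f x - 1, by omega⟩
    obtain ⟨d, hd⟩ : ∃ d, b = c + 1 + (d + 1) := ⟨b - (c + 2), by have := hf x hx; omega⟩
    have h4 : ∑ x ∈ S.erase x, f x ≤ d + 1 := by omega
    have h5 : (∑ x ∈ S.erase x, f x) ^ 2 ≤ (d + 1) ^ 2 := Nat.pow_le_pow_left h4 2
    have h6 : ∑ x ∈ S, f x ^ 2 ≤ (c + 1) ^ 2 + (d + 1) ^ 2 := by
      rw [← h2]
      show f x ^ 2 + _ ≤ _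
      rw [hc]
      omega
    rw [hd]
    nlinarith
  · push Not at h
    have h1 : ∑ x ∈ S, f x ^ 2 = 0 := by
      refine Finset.sum_eq_zero fun x hx => ?_
      have : f x = 0 := by
        have := h x hx
        omega
      rw [this]
      rfl
    rw [h1]
    rcases b with _ | b
    · omega
    · nlinarith

/-- the real inequality -/
theorem finZ {k κ b E X : ℝ} (hk0 : 0 ≤ k) (hk1 : k ≤ 1) (hκ : κ ≤ k)
    (hb : 0 ≤ b) (hE0 : 0 ≤ E) (hX : (1 - k) * b ≤ X)
    (hm : X ^ 2 ≤ (1 + k) ^ 2 * E + (1 + k) * (b * κ) * b) (hE : E ≤ b ^ 2) :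
    b ^ 2 - E ≤ 7 * k * b ^ 2 := by
  have h1 : ((1 - k) * b) ^ 2 ≤ X ^ 2 :=
    pow_le_pow_left₀ (mul_nonneg (by linarith) hb) hX 2
  have h5 : (1 + k) * (b * κ) * b ≤ 2 * k * b ^ 2 := by
    have h6 : κ * b ^ 2 ≤ k * b ^ 2 := mul_le_mul_of_nonneg_right hκ (by positivity)
    have h7 : (1 + k) * (κ * b ^ 2) ≤ (1 + k) * (k * b ^ 2) :=
      mul_le_mul_of_nonneg_left h6 (by linarith)
    have h8 : (1 + k) * (k * b ^ 2) ≤ 2 * (k * b ^ 2) :=
      mul_le_mul_of_nonneg_right (by linarith) (by positivity)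
    calc (1 + k) * (b * κ) * b = (1 + k) * (κ * b ^ 2) := by ring
      _ ≤ 2 * (k * b ^ 2) := h7.trans h8
      _ = 2 * k * b ^ 2 := by ring
  have h9 : (1 + k) ^ 2 * E ≤ E + 3 * k * b ^ 2 := by
    have h10 : k * k ≤ k * 1 := mul_le_mul_of_nonneg_left hk1 hk0
    have h11 : (2 * k + k * k) * E ≤ (3 * k) * E := mul_le_mul_of_nonneg_right (by linarith) hE0
    have h12 : (3 * k) * E ≤ (3 * k) * b ^ 2 := mul_le_mul_of_nonneg_left hE (by linarith)
    calc (1 + k) ^ 2 * E = E + (2 * k + k * k) * E := by ring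
      _ ≤ E + 3 * k * b ^ 2 := by linarith
  have h13 : b ^ 2 - 2 * k * b ^ 2 ≤ ((1 - k) * b) ^ 2 := by
    have : 0 ≤ k ^ 2 * b ^ 2 := by positivity
    calc b ^ 2 - 2 * k * b ^ 2 ≤ b ^ 2 - 2 * k * b ^ 2 + k ^ 2 * b ^ 2 := by linarith
      _ = ((1 - k) * b) ^ 2 := by ring
  linarith

/-- all outer edges are the edges from `w` to the core -/
theorem finish [Fintype V] {G : SimpleGraph V} {g : V → Option (Fin r)} {w : V}
    (hI : Indep G g) (ha : (missSet G g).ncard = 0) (hiso : ∀ v, ∃ u, G.Adj v u)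
    (hw : g w = none) (hb : (outSet G g).ncard ≤ cnb G g w) : Ty0 G g w := by
  classical
  have h1 : (fun u => s(w, u)) '' {u | g u ≠ none ∧ G.Adj w u} ⊆ outSet G g := by
    rintro _ ⟨u, hu, rfl⟩
    exact ⟨hu.2, w, Sym2.mem_mk_left _ _, hw⟩
  have h2 : ((fun u => s(w, u)) '' {u | g u ≠ none ∧ G.Adj w u}).ncard = cnb G g w := by
    rw [Set.InjOn.ncard_image]
    · rfl
    · intro u _ u' _ h
      exact (Sym2.congr_right).1 h
  have h3 : (fun u => s(w, u)) '' {u | g u ≠ none ∧ G.Adj w u} = outSet G g :=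
    Set.eq_of_subset_of_ncard_le h1 (by rw [h2]; exact hb) (Set.toFinite _)
  refine ⟨fun v => ⟨fun hv => ?_, fun hv => by rw [hv]; exact hw⟩, fun u v hu hv => ?_⟩
  · obtain ⟨u, hu⟩ := hiso v
    have h4 : s(v, u) ∈ outSet G g := ⟨hu, v, Sym2.mem_mk_left _ _, hv⟩
    rw [← h3] at h4
    obtain ⟨x, hx, hxe⟩ := h4
    rcases Sym2.eq_iff.1 hxe with ⟨e1, -⟩ | ⟨-, e2⟩
    · exact e1.symm
    · exact absurd (by rw [e2]; exact hv) hx.1
  · constructor
    · intro h h'
      exact hI u v hu h' h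
    · intro h
      by_contra hcon
      have h4 : (missSet G g).Nonempty := ⟨s(u, v), u, v, rfl, hu, hv, h, hcon⟩
      have h5 := (Set.ncard_pos (Set.toFinite _)).2 h4
      omega

end ItemPZN

open ItemRST ItemPZN in
theorem prfPZN : P_statement → CNTU_statement → FLU_statement → WMB_statement →
    SWYZ_statement → PZN_statement := by
  classical
  intro hP hCN hFL hWM hSW W _ F r C hr hF hC
  obtain ⟨C₁, n₁, hC₁, h₁⟩ := hFL r C hr hC
  obtain ⟨n₃, h₃⟩ := FNWx.num r C 3 hr hC (by norm_num)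
  obtain ⟨n₄, hn₄⟩ := exists_nat_ge ((7 * C * C₁ + C₁ + 2) ^ 4)
  refine ⟨n₁ + n₃ + n₄, ?_⟩
  intro V _ G g n m hn hM hNK ha hrb
  obtain ⟨h3a, -, h3c⟩ := h₃ n (by omega)
  obtain ⟨h, hh⟩ : ∃ h : ℝ, h = Real.sqrt (Real.sqrt n) := ⟨_, rfl⟩
  have hM1 : 0 ≤ 7 * C * C₁ := by positivity
  have hbig : 7 * C * C₁ + C₁ + 2 ≤ h := by
    rw [hh]
    exact big (by linarith) hn₄ (by omega)
  have hfew := hNK.few
  rw [ha] at hfew
  rw [← hh] at hfew h3a
  push_cast at hfew
  obtain ⟨b, hb⟩ : ∃ b : ℕ, b = (outSet G g).ncard := ⟨_, rfl⟩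
  rw [← hb] at hfew hrb
  rw [zero_add] at hfew
  have hsiz : ∀ t, b ≤ siz g t := by
    intro t
    have h1 := FNWx.siz_low hNK t
    have hb0 : (0 : ℝ) ≤ b := Nat.cast_nonneg b
    have : ((b : ℕ) : ℝ) ≤ siz g t := by
      linarith
    exact_mod_cast this
  -- a light vertex
  obtain ⟨w₀, hw₀⟩ : ∃ w₀, g w₀ = none := by
    have h1 : 0 < (outSet G g).ncard := by omega
    obtain ⟨e, -, v, -, hv⟩ := (Set.ncard_pos (Set.toFinite _)).1 h1
    exact ⟨v, hv⟩
  obtain ⟨i, hi⟩ : ∃ i : Fin r, i = ⟨0, by omega⟩ := ⟨_, rfl⟩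
  obtain ⟨j, hj⟩ : ∃ j : Fin r, j = ⟨1, by omega⟩ := ⟨_, rfl⟩
  obtain ⟨k₀, hk₀⟩ : ∃ k : Fin r, k = ⟨2, by omega⟩ := ⟨_, rfl⟩
  have hij : i ≠ j := by rw [hi, hj]; simp
  have hik : i ≠ k₀ := by rw [hi, hk₀]; simp
  have hjk : j ≠ k₀ := by rw [hj, hk₀]; simp
  obtain ⟨A, hA1, hA2, hA3, hA4⟩ := choiceZ g k₀ hrb hsiz
  obtain ⟨H, hH⟩ : ∃ H : SimpleGraph V, H = HZ g w₀ A := ⟨_, rfl⟩
  have hHw : ∀ x, H.Adj w₀ x ↔ x ∈ A := by
    rw [hH]
    exact hz_w hw₀ hA1
  have hHI : Indep H g := by rw [hH]; exact hz_indep hw₀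
  have hHm : (missSet H g).ncard = 0 := by rw [hH, hz_miss hw₀, Set.ncard_empty]
  have hHiso : ∀ x y, g x = none → x ≠ w₀ → ¬ H.Adj x y := by
    intro x y hx hxw
    rw [hH]
    exact hz_iso hA1 hx hxw
  have hnb : ∀ t, nbn H g w₀ t = {x | g x = some t ∧ x ∈ A}.ncard := by
    intro t
    unfold nbn
    simp only [hHw]
  have hcH : cnb H g w₀ = b := by
    rw [cnb_w hA1 (fun x _ => hHw x), hA2]
  have hcnt := FNWx.cnt0 hCN G g hNK.indep
  rw [ha, hM.1.size, ← hb] at hcnt
  have hHl : lam H ≤ lam G := by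
    refine hWM W F r m V G H g w₀ i j hr hF hM hw₀ hij hHI ?_ ?_ ?_ ?_ ?_ ?_
    · intro u v hu huw
      exact hHiso u v hu huw
    · rw [hnb]; exact hA3 i hik
    · rw [hnb]; exact hA3 j hjk
    · intro t
      rw [hnb]
      by_cases h : t = k₀
      · rw [h]; exact hA4
      · rw [hA3 t h]
    · intro t
      rw [hHm]
      have := hsiz t
      omega
    · rw [hHm, ← cnb_eq, hcH]
      omega
  obtain ⟨⟨z, hz⟩, hz2⟩ := h₁ V G g n (by omega) hNK
  obtain ⟨hz1, hz0, hlam, -⟩ := hz2 z hz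
  have : Nonempty V := ⟨w₀⟩
  obtain ⟨k, hk⟩ : ∃ k : ℝ, k = C₁ / Real.sqrt n := ⟨_, rfl⟩
  obtain ⟨κ, hκ⟩ : ∃ κ : ℝ, κ = C₁ * Real.sqrt (Real.sqrt n) / n := ⟨_, rfl⟩
  rw [← hk] at hz1
  rw [← hκ] at hz0
  rw [← hh] at hκ hlam
  have hhs : h * h = Real.sqrt n := by rw [hh]; exact Real.mul_self_sqrt (Real.sqrt_nonneg _)
  have hn0 : (h * h) * (h * h) = n := by rw [hhs]; exact Real.mul_self_sqrt (Nat.cast_nonneg n)
  rw [← hhs] at hk
  have hr0 : (3 : ℝ) ≤ r := by exact_mod_cast hr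
  have hh2 : 2 ≤ h := by linarith
  have hh0 : 0 < h := by linarith
  have hhh : 0 < h * h := by positivity
  have hhle : h ≤ h * h := le_mul_of_one_le_left hh0.le (by linarith)
  have hl0 : 0 < lam G := by
    have h1 := (abs_le.1 hlam).1
    have h2 : 2 / 3 ≤ qq r := by
      unfold qq
      have : 1 / (r : ℝ) ≤ 1 / 3 := one_div_le_one_div_of_le (by norm_num) hr0
      linarith
    have h3 : (0 : ℝ) < n := by rw [← hn0]; positivity
    have h4 : 2 / 3 * (n : ℝ) ≤ qq r * n := mul_le_mul_of_nonneg_right h2 h3.le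
    have h5 : C₁ * h ≤ n / 2 := by
      have h6 : C₁ * h ≤ h * h := mul_le_mul_of_nonneg_right (by linarith) hh0.le
      have h7 : 2 * (h * h) ≤ (h * h) * (h * h) :=
        mul_le_mul_of_nonneg_right (by linarith) hhh.le
      linarith
    linarith
  have hmain := hSW r V G H z g w₀ n hNK.indep ha hHI hHm hw₀ hHiso hz hl0 hHl
  rw [← hn0] at hκ
  have hk0 : 0 ≤ k := by rw [hk]; positivity
  have hκ0 : 0 ≤ κ := by rw [hκ]; positivity
  have hk1 : k ≤ 1 := by
    rw [hk, div_le_one hhh]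
    linarith
  have hκk : κ ≤ k := by
    rw [hκ, hk]
    rw [div_le_div_iff₀ (by positivity) hhh]
    calc C₁ * h * (h * h) ≤ C₁ * (h * h) * (h * h) := by
          apply mul_le_mul_of_nonneg_right _ hhh.le
          exact mul_le_mul_of_nonneg_left hhle hC₁
      _ = C₁ * ((h * h) * (h * h)) := by ring
  have hup : ∀ v, g v ≠ none → z v ≤ 1 + k := fun v hv => by
    have := (abs_le.1 (hz1 v hv)).2
    linarith
  have hlow : ∀ v, g v ≠ none → 1 - k ≤ z v := fun v hv => by
    have := (abs_le.1 (hz1 v hv)).1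
    linarith
  have hR := rhs_le hCN G g hNK.indep z hz.nonneg hk0 hκ0 hup hz0
  rw [← hb] at hR
  have hX := le_cov H g z hlow w₀
  rw [hcH] at hX
  by_cases hex : ∃ w, g w = none ∧ b ≤ cnb G g w
  · obtain ⟨w, hw, hbw⟩ := hex
    exact ⟨w, finish hNK.indep ha hM.1.noIso hw (by rw [← hb]; exact hbw)⟩
  exfalso
  push Not at hex
  obtain ⟨E, hE⟩ : ∃ E : ℕ, E = ∑ x, if g x = none then cnb G g x ^ 2 else 0 := ⟨_, rfl⟩
  rw [← hE] at hR
  have hE1 : E + 2 * b ≤ b ^ 2 + 2 := by
    have h1 := sum_cnb_le hCN G g hNK.indep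
    rw [← Finset.sum_filter, ← hb] at h1
    rw [hE, ← Finset.sum_filter]
    exact sq_bound _ (fun x => cnb G g x) b h1 (fun x hx => hex x (Finset.mem_filter.1 hx).2)
  have hE1r : (E : ℝ) + 2 * b ≤ (b : ℝ) ^ 2 + 2 := by exact_mod_cast hE1
  have hb0 : (0 : ℝ) ≤ b := Nat.cast_nonneg b
  have hb3 : (3 : ℝ) ≤ b := by
    have : 3 ≤ b := by omega
    exact_mod_cast this
  have hfin := finZ hk0 hk1 hκk hb0 (Nat.cast_nonneg E) hX (hmain.trans hR) (by linarith)
  have h6 : 7 * k * (b : ℝ) ^ 2 ≤ 7 * k * (C * h) * b := by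
    have h7 : (b : ℝ) * b ≤ C * h * b := mul_le_mul_of_nonneg_right hfew hb0
    have h8 : 7 * k * ((b : ℝ) * b) ≤ 7 * k * (C * h * b) :=
      mul_le_mul_of_nonneg_left h7 (by linarith)
    calc 7 * k * (b : ℝ) ^ 2 = 7 * k * ((b : ℝ) * b) := by ring
      _ ≤ 7 * k * (C * h * b) := h8
      _ = 7 * k * (C * h) * b := by ring
  have h9 : 7 * k * (C * h) < 1 := by
    rw [hk]
    have : 7 * (C₁ / (h * h)) * (C * h) = (7 * C * C₁) / h := by
      field_simp
    rw [this, div_lt_one hh0]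
    linarith
  have h10 : 7 * k * (C * h) * b < 1 * b := mul_lt_mul_of_pos_right h9 (by linarith)
  linarith

end MP0c3a8f

end

section

/-!
# MP_0c3a8f_co, PB12: item TPZ (linear `D`)
-/

set_option autoImplicit false

open Finset

namespace MP0c3a8f

namespace TPZ

theorem def_le {r m : ℕ} {V W : Type} [Fintype V] {F : SimpleGraph W} {G : SimpleGraph V}
    (hG : IsMaximiser r m F G) {k : ℕ} {H : SimpleGraph (Fin k)} (w : Fin k)
    (hH : InN r m F H) : Def r G ≤ Def r H := by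
  have h4 : 0 ≤ lam H := by
    have : Nonempty (Fin k) := ⟨w⟩
    exact (prfP (Fin k) H).1
  have h5 : lam H ^ 2 ≤ lam G ^ 2 := pow_le_pow_left₀ h4 (hG.2 (Fin k) H hH) 2
  unfold Def
  rw [hG.1.size, hH.size]
  linarith

theorem D_bounds {r n D : ℕ} {ε : ℝ} (hr : 3 ≤ r) (hn : 4 * r ^ 2 ≤ n) (hε : 0 < ε)
    (hn2 : 3 * ((r : ℝ) + 1) / (2 * ε) ≤ n) (h1 : ε * (qq r * n) ≤ D)
    (h2 : (D : ℝ) ≤ (1 - 2 / (r : ℝ) + 1 / (4 * (r : ℝ) ^ 2)) * (qq r * n)) :
    r + 1 ≤ D ∧ D ≤ (r - 2) * (n / r) := by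
  have hr' : (3 : ℝ) ≤ r := by exact_mod_cast hr
  have hr0 : (0 : ℝ) < r := by linarith
  obtain ⟨q1, -⟩ := TOP1.qq_bounds hr
  constructor
  · rw [div_le_iff₀ (by positivity)] at hn2
    have h3 : (0 : ℝ) ≤ n := Nat.cast_nonneg n
    have h4 : (2 / 3 : ℝ) * n ≤ qq r * n := mul_le_mul_of_nonneg_right q1 h3
    have h5 : ε * ((2 / 3 : ℝ) * n) ≤ ε * (qq r * n) := mul_le_mul_of_nonneg_left h4 hε.le
    have h6 : (r : ℝ) + 1 ≤ D := by nlinarith
    exact_mod_cast h6
  · set k : ℕ := n / r with hk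
    have h3 : n + 1 ≤ r * k + r := by
      have h4 := Nat.div_add_mod n r
      have h5 := Nat.mod_lt n (show 0 < r by omega)
      rw [← hk] at h4
      omega
    have h3' : (n : ℝ) + 1 ≤ r * k + r := by exact_mod_cast h3
    have hn' : 4 * (r : ℝ) ^ 2 ≤ n := by exact_mod_cast hn
    have hX : (1 - 2 / (r : ℝ) + 1 / (4 * (r : ℝ) ^ 2)) * (qq r * n) =
        (4 * (r : ℝ) ^ 2 - 8 * r + 1) * (r - 1) * n / (4 * (r : ℝ) ^ 3) := by
      unfold qq
      field_simp
      ring
    have hY : (4 * (r : ℝ) ^ 2 - 8 * r + 1) * (r - 1) * n / (4 * (r : ℝ) ^ 3) ≤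
        ((r : ℝ) - 2) * k := by
      rw [div_le_iff₀ (by positivity)]
      have h4 : 4 * (r : ℝ) ^ 2 * (r - 2) * ((n : ℝ) + 1 - r) ≤
          4 * (r : ℝ) ^ 2 * (r - 2) * (r * k) := by
        apply mul_le_mul_of_nonneg_left (by linarith)
        have : (0 : ℝ) ≤ r - 2 := by linarith
        positivity
      have h5 : (r : ℝ) ^ 2 ≤ 4 * (r : ℝ) ^ 2 - 9 * r + 1 := by nlinarith
      have h6 : (r : ℝ) ^ 2 * n ≤ (4 * (r : ℝ) ^ 2 - 9 * r + 1) * n :=
        mul_le_mul_of_nonneg_right h5 (Nat.cast_nonneg n)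
      have h7 : 4 * (r : ℝ) ^ 2 * ((r : ℝ) - 2) * (r - 1) ≤ (r : ℝ) ^ 2 * n := by
        have h8 : 4 * ((r : ℝ) - 2) * (r - 1) ≤ n := by nlinarith
        have h9 : (r : ℝ) ^ 2 * (4 * ((r : ℝ) - 2) * (r - 1)) ≤ (r : ℝ) ^ 2 * n :=
          mul_le_mul_of_nonneg_left h8 (by positivity)
        linarith
      have h10 : (4 * (r : ℝ) ^ 2 - 8 * r + 1) * (r - 1) * n =
          4 * (r : ℝ) ^ 2 * (r - 2) * n - (4 * (r : ℝ) ^ 2 - 9 * r + 1) * n := by ring
      have h11 : 4 * (r : ℝ) ^ 2 * (r - 2) * ((n : ℝ) + 1 - r) =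
          4 * (r : ℝ) ^ 2 * (r - 2) * n - 4 * (r : ℝ) ^ 2 * ((r : ℝ) - 2) * (r - 1) := by ring
      have h12 : ((r : ℝ) - 2) * k * (4 * (r : ℝ) ^ 3) =
          4 * (r : ℝ) ^ 2 * (r - 2) * (r * k) := by ring
      linarith
    have h13 : (D : ℝ) ≤ (((r - 2) * k : ℕ) : ℝ) := by
      push_cast [Nat.cast_sub (show 2 ≤ r by omega)]
      linarith
    exact_mod_cast h13

theorem relabel {V : Type} {r : ℕ} {G : SimpleGraph V} {g : V → Option (Fin r)} {w : V}
    (h : Ty0 G g w) (π : Equiv.Perm (Fin r)) : Ty0 G (fun v => (g v).map π) w := by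
  have hinj : Function.Injective (Option.map (π : Fin r → Fin r)) :=
    Option.map_injective π.injective
  refine ⟨fun v => ?_, fun u v hu hv => ?_⟩
  · rw [← h.out v]
    exact Option.map_eq_none_iff
  · have hu' : g u ≠ none := fun h0 => hu (by simp [h0])
    have hv' : g v ≠ none := fun h0 => hv (by simp [h0])
    rw [h.core u v hu' hv']
    exact hinj.ne_iff.symm

end TPZ

theorem prfTPZ : CNTU_statement → DEV_statement → CSB_statement → SZG_statement →
    JFZT_statement → GRT_statement → FAMZ_statement → MEMZ_statement → REL_statement →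
    TPZ_statement := by
  intro hCNTU hDEV hCSB hSZG hJFZT hGRT hFAMZ hMEMZ hREL W _ F r N ε hr hgen hε
  have hr' : (3 : ℝ) ≤ r := by exact_mod_cast hr
  obtain ⟨c, hc, hJ⟩ := hJFZT r ε hr hε
  obtain ⟨nA, hA⟩ := hCSB r N (c / 4) hr (by positivity)
  obtain ⟨nB, hB⟩ := hCSB r r (c / 4) hr (by positivity)
  obtain ⟨nJ, hJ'⟩ := hJ N
  obtain ⟨nS, hS⟩ := hSZG W F r N ε hr hε
  obtain ⟨nE, hE⟩ := exists_nat_ge (3 * ((r : ℝ) + 1) / (2 * ε))
  refine ⟨nA + nB + nJ + nS + nE + 4 * r ^ 2 + 1, ?_⟩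
  intro V _ G g w n D hn hD1 hD2 hMx hBd
  have hnE : 3 * ((r : ℝ) + 1) / (2 * ε) ≤ n := by
    have : (nE : ℝ) ≤ n := by exact_mod_cast (by omega : nE ≤ n)
    linarith
  obtain ⟨hDr, hDu⟩ := TPZ.D_bounds hr (by omega) hε hnE hD1 hD2
  obtain ⟨π, hπ⟩ := hS V G g w n D (by omega) hD1 hD2 hMx hBd
  obtain ⟨hind, hgw, htot, hbnd⟩ := id hBd
  set T : ℕ := (SimpleGraph.turanGraph n r).edgeSet.ncard with hT
  -- the comparison graph
  obtain ⟨a', hTg⟩ := hGRT r n (D - 1) hr (by omega) (by omega)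
  obtain ⟨g1, g2, g3, -⟩ := id hTg
  have g3' : ∑ t, a' t = D := by rw [g3]; omega
  have hσ0 : ∑ t : Fin r, (if t = ⟨0, by omega⟩ then n else 0) = n := by
    rw [Finset.sum_ite_eq' Finset.univ (⟨0, by omega⟩ : Fin r) (fun _ => n)]
    simp
  obtain ⟨d1, -, d3, -, -, d6⟩ := hDEV r n (fun t => if t = ⟨0, by omega⟩ then n else 0)
    (by omega) hσ0
  obtain ⟨k₀, H₀, f₀, w₀, hs₀, hnb₀, hbd₀, hm₀, hl₀, hin₀⟩ := TOPZ.member hDEV hFAMZ hMEMZ F r n D
    hr hgen (tz r n) a' ⟨0, by omega⟩ ⟨1, by omega⟩ (by simp [Fin.ext_iff]) (g1 _ (by simp))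
    (g1 _ (by simp)) (fun t => (g2 t).1) (fun t => (g2 t).2) d1 rfl g3'
  have hk₀ : Def r H₀ ≤ Kap r (tz r n) a' + c / 4 := by
    have h1 := hB (Fin k₀) H₀ f₀ w₀ n (by omega) hbd₀
    unfold Cst at h1
    rw [hs₀, hnb₀, hm₀, hl₀] at h1
    have h2 := (abs_le.1 h1).2
    push_cast at h2
    linarith
  have hIn : InN r (T + D) F G := hMx.1
  have hsize : G.edgeSet.ncard = T + D := hIn.size
  have hκ : Def r G ≤ Kap r (tz r n) a' + c / 4 := (TPZ.def_le hMx w₀ hin₀).trans hk₀
  have hLB := (abs_le.1 (hA V G g w n (by omega) hBd)).1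
  unfold Cst at hLB
  have hσeq : siz g = fun t => tz r n (π t) := funext hπ
  have hsq : ∑ t, siz g t ^ 2 = ∑ t, tz r n t ^ 2 := by
    rw [hσeq]
    exact Equiv.sum_comp π (fun t => tz r n t ^ 2)
  have haσ : ∀ t, nbn G g w t ≤ siz g t := fun t => TOP1.nbn_le G g w t
  have hpos1 : ∀ t, 1 ≤ siz g t := by
    intro t
    rw [hπ t]
    have h1 : 1 ≤ n / r := by
      rw [Nat.le_div_iff_mul_le (by omega)]
      nlinarith
    unfold tz
    omega
  set a : Fin r → ℕ := nbn G g w with ha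
  set α : ℕ := (missSet G g).ncard with hα
  set b : ℕ := (lightSet G g {w}).ncard with hb
  have hdevσ0 : 0 ≤ dev (siz g) := by unfold dev; positivity
  have hαb : α + b ≤ N := by
    have : (α : ℝ) + b ≤ N := by linarith
    exact_mod_cast this
  -- the number of edges
  have hrel : D + α = ∑ t, a t + b := by
    obtain ⟨e, he, hcnt⟩ := hCNTU r V G g {w} hind (by
      intro v hv
      rw [Finset.mem_singleton] at hv
      rw [hv]; exact hgw)
    rw [Finset.card_singleton] at he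
    rw [Finset.sum_singleton, hsize, htot, hsq] at hcnt
    unfold Sz at d6
    rw [d1] at d6
    have he0 : e = 0 := by omega
    rw [he0] at hcnt
    have hcnt' : 2 * (T + D) + 2 * α + ∑ t, tz r n t ^ 2 =
        n ^ 2 + 2 * ∑ t, a t + 2 * 0 + 2 * b := hcnt
    omega
  have hal : α = 0 ∧ b = 0 := by
    by_contra hcon
    have h1 := hJ' n (by omega) D hD1 hD2 a a' π α b (fun t => by
      rw [← hπ t]; exact haσ t) hαb hrel hcon hTg (by omega)
    rw [hσeq] at hLB
    linarith
  obtain ⟨hα0, hb0⟩ := hal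
  have hTy : Ty0 G g w := TOPZ.ty0_of G g w hind hgw hα0 hb0 hIn.noIso
  have hpos : ∀ t, 1 ≤ nbn G g w t := by
    obtain ⟨h1, -, -⟩ := hMEMZ r V G g w hr hTy hpos1
    intro t
    by_contra hcon
    exact hIn.notPartite (h1.2 ⟨t, by omega⟩)
  have hsum : ∑ t, nbn G g w t = D := by
    have : ∑ t, a t = D := by omega
    exact this
  obtain ⟨e1, e2, -, -⟩ := hREL r V G g π
  have hnb : ∀ s, nbn G (fun v => (g v).map π) w s = nbn G g w (π.symm s) := by
    intro s
    have := e2 w (π.symm s)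
    rwa [Equiv.apply_symm_apply] at this
  refine ⟨fun v => (g v).map π, w, TPZ.relabel hTy π, ?_, ?_, ?_⟩
  · intro s
    have h1 := e1 (π.symm s)
    rw [Equiv.apply_symm_apply] at h1
    rw [h1, hπ, Equiv.apply_symm_apply]
  · rw [← hsum]
    rw [Finset.sum_congr rfl (fun s _ => hnb s)]
    exact Equiv.sum_comp π.symm (fun t => nbn G g w t)
  · intro s
    rw [hnb s]
    exact hpos _

end MP0c3a8f

end

section

/-!
# MP_0c3a8f_co, item UNV: uniqueness of the candidates of type `V`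
-/

open Finset

namespace MP0c3a8f

namespace ItemUNV

theorem relab (hREL : REL_statement) {r : ℕ} {V : Type} [Fintype V] {G : SimpleGraph V}
    {f : V → Option (Fin r)} {w : V} (π : Equiv.Perm (Fin r)) (h : Ty0 G f w) :
    ∃ f₁ : V → Option (Fin r), Ty0 G f₁ w ∧ (∀ t, siz f₁ t = siz f (π t)) ∧
      ∀ t, nbn G f₁ w t = nbn G f w (π t) := by
  obtain ⟨h1, h2, -, -⟩ := hREL r V G f π.symm
  refine ⟨fun v => (f v).map π.symm, ⟨?_, ?_⟩, ?_, ?_⟩
  · intro v
    rw [← h.out v]
    exact Option.map_eq_none_iff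
  · intro u v hu hv
    have hu' : f u ≠ none := fun hh => hu (by simp [hh])
    have hv' : f v ≠ none := fun hh => hv (by simp [hh])
    rw [h.core u v hu' hv']
    constructor
    · intro hne heq
      exact hne (Option.map_injective π.symm.injective heq)
    · intro hne heq
      apply hne
      show (f u).map π.symm = (f v).map π.symm
      rw [heq]
  · intro t
    have := h1 (π t)
    simpa using this
  · intro t
    have := h2 w (π t)
    simpa using this

end ItemUNV

theorem prfUNV : GVCG_statement → ISO0_statement → MEMZ_statement → REL_statement →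
    UNV_statement := by
  intro hGVCG hISO hMEM hREL r s m σ V U _ _ G H hr hs2 hσ hG hH hYG hYH
  obtain ⟨f, w, i, j, hT, hs, hpos, hij, hi, hj, hdi, hdj, hst⟩ := hYG
  obtain ⟨f', w', i', j', hT', hs', hpos', hij', hi', hj', hdi', hdj', hst'⟩ := hYH
  obtain ⟨τ, hτi, hτj, hτ⟩ := ItemUNQ.exTau σ hij hij' hi hi' hj hj'
  obtain ⟨f₁, hT₁, hs₁, hn₁⟩ := ItemUNV.relab hREL τ hT'
  have hs₁' : ∀ t, siz f₁ t = σ t := fun t => by rw [hs₁, hs', hτ]
  have e1 := (hMEM r V G f w hr hT (fun t => by rw [hs]; have := hσ t; omega)).2.2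
  have e2 := (hMEM r U H f₁ w' hr hT₁ (fun t => by rw [hs₁']; have := hσ t; omega)).2.2
  simp only [hs] at e1
  simp only [hs₁'] at e2
  rw [hG] at e1
  rw [hH] at e2
  have hsum : ∑ t, nbn G f w t = ∑ t, nbn H f₁ w' t := by omega
  obtain ⟨π, hπ1, hπ2⟩ := hGVCG r s σ (nbn G f w) (nbn H f₁ w') i j hs2 hij hσ hi hj
    (by
      intro t
      refine ⟨hpos t, ?_, ?_, ?_⟩
      · rw [← hs t]
        exact ItemUNQ.nbn_le_siz G f w t
      · rw [hn₁]
        exact hpos' (τ t)
      · rw [← hs₁' t]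
        exact ItemUNQ.nbn_le_siz H f₁ w' t)
    hdi hdj (by rw [hn₁, hτi]; exact hdi') (by rw [hn₁, hτj]; exact hdj') hst
    (by
      intro k l hl
      have hl' : (τ l ≠ i' ∧ τ l ≠ j') ∨ nbn H f' w' (τ l) + 1 < s := by
        rcases hl with ⟨h1, h2⟩ | h
        · left
          constructor
          · intro h
            rw [← hτi] at h
            exact h1 (τ.injective h)
          · intro h
            rw [← hτj] at h
            exact h2 (τ.injective h)
        · right
          rw [← hn₁]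
          exact h
      have h3 := hst' (τ k) (τ l) hl'
      rw [hτ, hτ] at h3
      rw [hn₁, hn₁]
      exact h3)
    hsum
  obtain ⟨f₂, hT₂, hs₂, hn₂⟩ := ItemUNV.relab hREL π hT₁
  refine hISO r V U G H f f₂ w w' hT hT₂ ?_ ?_
  · intro t
    rw [hs, hs₂, hs₁', hπ1]
  · intro t
    rw [hn₂, hπ2]

end MP0c3a8f

end
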