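import Pool.Agent.Work.MP_0c3a8f_co.PB.Stmts12
import Pool.Agent.Work.MP_0c3a8f_co.Bd.B04
import Pool.Agent.Work.MP_0c3a8f_co.Bd.B21
import Pool.Agent.Work.MP_0c3a8f_co.Bd.B22
import Pool.Agent.Work.MP_0c3a8f_co.Bd.B23
import Pool.Agent.Work.MP_0c3a8f_co.Bd.B24
import Pool.Agent.Work.MP_0c3a8f_co.Bd.B25

/-! Bundle of small proof modules (one section per former module). -/

section

/-!
# MP_0c3a8f_co: item QCL (the neighbours of `w` are in no missing pair)
-/

set_option autoImplicit false

open Finset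

namespace MP0c3a8f

namespace ItemQCL

/-- the sizes of the classes -/
theorem room {V : Type} [Fintype V] {r n : ℕ} {C : ℝ} {G : SimpleGraph V}
    {g : V → Option (Fin r)} (h : NK n C G g)
    (hB : 2 * (C * Real.sqrt (Real.sqrt n)) + 1 + Real.sqrt (C * n) ≤ n / r) (t : Fin r) :
    2 * (missSet G g).ncard + (outSet G g).ncard + 1 ≤ siz g t := by
  have h1 : ((siz g t : ℝ) - (∑ s, (siz g s : ℝ)) / r) ^ 2 ≤ C * n := by
    refine le_trans ?_ h.dev
    unfold dev
    exact Finset.single_le_sum (f := fun t => ((siz g t : ℝ) - (∑ s, (siz g s : ℝ)) / r) ^ 2)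
      (fun s _ => sq_nonneg _) (Finset.mem_univ t)
  have h2 : (∑ s, (siz g s : ℝ)) = n := by
    have := h.tot
    exact_mod_cast this
  rw [h2] at h1
  have h3 := Real.abs_le_sqrt h1
  have h4 := (abs_le.1 h3).1
  have h5 := h.few
  have h7 : (0 : ℝ) ≤ (outSet G g).ncard := Nat.cast_nonneg _
  have h6 : 2 * ((missSet G g).ncard : ℝ) + (outSet G g).ncard + 1 ≤ siz g t := by
    linarith
  exact_mod_cast h6

/-- the comparison graph -/
def HG {V : Type} (G : SimpleGraph V) (w y c : V) (hwc : w ≠ c) : SimpleGraph V where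
  Adj u v := (G.Adj u v ∧ s(u, v) ≠ s(w, y)) ∨ s(u, v) = s(w, c)
  symm := ⟨fun u v h => by
    rcases h with h | h
    · exact Or.inl ⟨h.1.symm, by rw [Sym2.eq_swap]; exact h.2⟩
    · exact Or.inr (by rw [Sym2.eq_swap]; exact h)⟩
  loopless := ⟨fun v h => by
    rcases h with h | h
    · exact G.loopless.irrefl v h.1
    · rw [Sym2.eq_iff] at h
      rcases h with h | h
      · exact hwc (h.1.symm.trans h.2)
      · exact hwc (h.2.symm.trans h.1)⟩

/-- numerical facts -/
theorem nums {r n : ℕ} {C C' : ℝ} (hr : 3 ≤ r) (hC : 0 ≤ C) (hC' : 0 ≤ C')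
    (hn : ((r : ℝ) * (Real.sqrt C + 2 * C + 1) + 2 * C' + 1) ^ 2 ≤ n) :
    2 * (C * Real.sqrt (Real.sqrt n)) + 1 + Real.sqrt (C * n) ≤ (n : ℝ) / r ∧
    C' / Real.sqrt n < 1 ∧ C' * Real.sqrt (Real.sqrt n) < qq r * n := by
  have hr3 : (3 : ℝ) ≤ r := by exact_mod_cast hr
  have hr0 : (0 : ℝ) < r := by linarith
  have hK := Real.le_sqrt_of_sq_le hn
  set s := Real.sqrt (n : ℝ) with hs
  have hs2 : s ^ 2 = n := Real.sq_sqrt (Nat.cast_nonneg n)
  have hc0 : 0 ≤ Real.sqrt C := Real.sqrt_nonneg C
  have hp : 0 ≤ (r : ℝ) * (Real.sqrt C + 2 * C + 1) := by positivity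
  have hs1 : 1 ≤ s := by linarith
  have hs0 : 0 < s := by linarith
  have hh : Real.sqrt s ≤ s := by
    rw [Real.sqrt_le_left (by linarith)]
    nlinarith
  have hsq : Real.sqrt (C * n) = Real.sqrt C * s := by rw [Real.sqrt_mul hC]
  refine ⟨?_, ?_, ?_⟩
  · rw [hsq, le_div_iff₀ hr0, ← hs2]
    have h1 : (2 * (C * Real.sqrt s) + 1 + Real.sqrt C * s) ≤
        (Real.sqrt C + 2 * C + 1) * s := by
      have := mul_le_mul_of_nonneg_left hh hC
      nlinarith
    calc (2 * (C * Real.sqrt s) + 1 + Real.sqrt C * s) * r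
        ≤ ((Real.sqrt C + 2 * C + 1) * s) * r := by
          exact mul_le_mul_of_nonneg_right h1 hr0.le
      _ = (r * (Real.sqrt C + 2 * C + 1)) * s := by ring
      _ ≤ s * s := mul_le_mul_of_nonneg_right (by linarith) hs0.le
      _ = s ^ 2 := by ring
  · rw [div_lt_one hs0]
    linarith
  · have hq : (2 : ℝ) / 3 ≤ qq r := by
      unfold qq
      have h3 : 1 / (r : ℝ) ≤ 1 / 3 := one_div_le_one_div_of_le (by norm_num) hr3
      linarith
    rw [← hs2]
    have h1 : C' * Real.sqrt s ≤ C' * s := mul_le_mul_of_nonneg_left hh hC'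
    have h2 : C' < 2 / 3 * s := by linarith
    have h3 : C' * s < 2 / 3 * s * s := mul_lt_mul_of_pos_right h2 hs0
    have h4 : 2 / 3 * s ^ 2 ≤ qq r * s ^ 2 := mul_le_mul_of_nonneg_right hq (by positivity)
    nlinarith

end ItemQCL

open ItemQCL in
theorem prfQCL : P_statement → FLU_statement → MVE_statement → WMB_statement →
    QCL_statement := by
  classical
  intro _ hFLU hMVE hWMB W _ F r C hr hgen hC
  obtain ⟨C', n1, hC', hFLU⟩ := hFLU r C hr hC
  refine ⟨max n1 ⌈((r : ℝ) * (Real.sqrt C + 2 * C + 1) + 2 * C' + 1) ^ 2⌉₊, ?_⟩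
  intro V _ G g w q n m hn hmax hNK hout hq hw t u hu hut
  have hn1 : n1 ≤ n := le_trans (le_max_left _ _) hn
  have hn2 : ((r : ℝ) * (Real.sqrt C + 2 * C + 1) + 2 * C' + 1) ^ 2 ≤ n :=
    (Nat.le_ceil _).trans (by exact_mod_cast (le_trans (le_max_right _ _) hn))
  obtain ⟨e1, e2, e3⟩ := nums hr hC hC' hn2
  by_contra hna
  obtain ⟨⟨z, hz⟩, hFL⟩ := hFLU V G g n hn1 hNK
  obtain ⟨hcore, -, hlam, -⟩ := hFL z hz
  have hpos : ∀ v, g v ≠ none → 0 < z v := by
    intro v hv
    have h1 := (abs_le.1 (hcore v hv)).1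
    linarith
  have hl : 0 < lam G := by
    have h1 := (abs_le.1 hlam).1
    linarith
  have hgw : g w = none := (hout w).2 rfl
  have hadj1 : ∀ t, G.Adj w (q t) := fun t => (hw _).2 ⟨t, rfl⟩
  have hzw : 0 < z w := by
    have h1 := hz.eig w
    have h2 : adj G w (q t) * z (q t) ≤ ∑ u, adj G w u * z u :=
      Finset.single_le_sum (f := fun u => adj G w u * z u)
        (fun i _ => mul_nonneg (by unfold adj; split_ifs <;> norm_num) (hz.nonneg i))
        (Finset.mem_univ (q t))
    have h3 : adj G w (q t) = 1 := if_pos (hadj1 t)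
    rw [h1, h3, one_mul] at h2
    have h4 : 0 < z (q t) := hpos _ (by rw [hq]; simp)
    exact (mul_pos_iff_of_pos_left hl).1 (lt_of_lt_of_le h4 h2)
  -- a clean vertex
  have hroom := room hNK e1
  obtain ⟨c, hc, hcl⟩ : ∃ c, g c = some t ∧ ItemPSN.Cl G g c := by
    by_contra hne
    have h3 : {v | g v = some t ∧ ItemPSN.Cl G g v} = ∅ := by
      ext v
      simp only [Set.mem_setOf_eq, Set.mem_empty_iff_false, iff_false]
      exact fun h => hne ⟨v, h⟩
    have h4 := ItemPSN.clean_card G g t
    have h5 := hroom t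
    rw [h3, Set.ncard_empty] at h4
    omega
  have hcn : g c ≠ none := by rw [hc]; simp
  have hwc : w ≠ c := fun h => hcn (h ▸ hgw)
  have hnwc : ¬ G.Adj w c := fun h => hcl.2 w hgw h.symm
  have hcq : c ≠ q t := fun h => hnwc (h ▸ hadj1 t)
  have hcall : ∀ v, g v ≠ none → g v ≠ some t → G.Adj c v := by
    intro v hv hvt
    by_contra hcon
    exact hcl.1 v ⟨hcn, hv, by rw [hc]; exact hvt, hcon⟩
  obtain ⟨H, hH⟩ : ∃ H : SimpleGraph V, ∀ u v, H.Adj u v ↔
      (G.Adj u v ∧ s(u, v) ≠ s(w, q t)) ∨ s(u, v) = s(w, c) :=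
    ⟨HG G w (q t) c hwc, fun u v => Iff.rfl⟩
  have hHcore : ∀ u v, g u ≠ none → g v ≠ none → (H.Adj u v ↔ G.Adj u v) := by
    intro u v hu hv
    rw [hH]
    have huw : u ≠ w := fun h => hu (h ▸ hgw)
    have hvw : v ≠ w := fun h => hv (h ▸ hgw)
    constructor
    · rintro (h | h)
      · exact h.1
      · rw [Sym2.eq_iff] at h
        rcases h with h | h
        · exact absurd h.1 huw
        · exact absurd h.2 hvw
    · intro h
      refine Or.inl ⟨h, fun h' => ?_⟩
      rw [Sym2.eq_iff] at h'
      rcases h' with h' | h'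
      · exact huw h'.1
      · exact hvw h'.2
  have hHw : ∀ v, H.Adj w v ↔ (G.Adj w v ∧ v ≠ q t) ∨ v = c := by
    intro v
    rw [hH]
    constructor
    · rintro (h | h)
      · exact Or.inl ⟨h.1, fun h' => h.2 (by rw [h'])⟩
      · rw [Sym2.eq_iff] at h
        rcases h with h | h
        · exact Or.inr h.2
        · exact absurd h.1 hwc
    · rintro (h | h)
      · refine Or.inl ⟨h.1, fun h' => ?_⟩
        rw [Sym2.eq_iff] at h'
        rcases h' with h' | h'
        · exact h.2 h'.2
        · exact G.loopless.irrefl w (by have := h.1; rw [h'.2] at this; exact this)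
      · exact Or.inr (by rw [h])
  have hmiss : missSet H g = missSet G g := by
    ext e
    induction e using Sym2.ind with
    | _ x y =>
      rw [ItemMKH.mem_missSet, ItemMKH.mem_missSet]
      constructor
      · rintro ⟨h1, h2, h3, h4⟩
        exact ⟨h1, h2, h3, fun h => h4 ((hHcore x y h1 h2).2 h)⟩
      · rintro ⟨h1, h2, h3, h4⟩
        exact ⟨h1, h2, h3, fun h => h4 ((hHcore x y h1 h2).1 h)⟩
  have hind : Indep H g := by
    intro v v' hv hvv h
    exact hNK.indep v v' hv hvv ((hHcore v v' hv (hvv ▸ hv)).1 h)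
  have hnG : ∀ s, nbn G g w s = 1 := by
    intro s
    unfold nbn
    have : {v | g v = some s ∧ G.Adj w v} = {q s} := by
      ext v
      simp only [Set.mem_setOf_eq, Set.mem_singleton_iff]
      constructor
      · rintro ⟨h1, h2⟩
        obtain ⟨t', rfl⟩ := (hw v).1 h2
        rw [hq] at h1
        rw [Option.some.inj h1]
      · rintro rfl
        exact ⟨hq s, hadj1 s⟩
    rw [this, Set.ncard_singleton]
  have hnH : ∀ s, nbn H g w s = 1 := by
    intro s
    unfold nbn
    by_cases hst : s = t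
    · subst hst
      have : {v | g v = some s ∧ H.Adj w v} = {c} := by
        ext v
        simp only [Set.mem_setOf_eq, Set.mem_singleton_iff]
        constructor
        · rintro ⟨h1, h2⟩
          rcases (hHw v).1 h2 with h | h
          · exfalso
            obtain ⟨t', rfl⟩ := (hw v).1 h.1
            rw [hq] at h1
            exact h.2 (by rw [Option.some.inj h1])
          · exact h
        · rintro rfl
          exact ⟨hc, (hHw _).2 (Or.inr rfl)⟩
      rw [this, Set.ncard_singleton]
    · have : {v | g v = some s ∧ H.Adj w v} = {q s} := by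
        ext v
        simp only [Set.mem_setOf_eq, Set.mem_singleton_iff]
        constructor
        · rintro ⟨h1, h2⟩
          rcases (hHw v).1 h2 with h | h
          · obtain ⟨t', rfl⟩ := (hw v).1 h.1
            rw [hq] at h1
            rw [Option.some.inj h1]
          · exfalso
            rw [h, hc] at h1
            exact hst (Option.some.inj h1).symm
        · rintro rfl
          refine ⟨hq s, (hHw _).2 (Or.inl ⟨hadj1 s, fun h => ?_⟩)⟩
          have h1 := hq s
          rw [h, hq] at h1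
          exact hst (Option.some.inj h1).symm
      rw [this, Set.ncard_singleton]
  have hle : lam H ≤ lam G := by
    have h0 : (⟨0, by omega⟩ : Fin r) ≠ ⟨1, by omega⟩ := by
      intro h
      have := congrArg Fin.val h
      simp at this
    refine hWMB W F r m V G H g w ⟨0, by omega⟩ ⟨1, by omega⟩ hr hgen hmax hgw h0 hind ?_
      (hnH _) (hnH _) (fun s => (hnH s).ge) ?_ ?_
    · intro u v hu' huw
      exact absurd ((hout u).1 hu') huw
    · intro s
      rw [hmiss]
      have := hroom s
      omega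
    · obtain ⟨e, he, hid⟩ := prfCNTU r V G g {w} hNK.indep (fun v hv => by
        rw [mem_singleton.1 hv]; exact hgw)
      have hL : (lightSet G g {w}).ncard = 0 := by
        have : lightSet G g {w} = ∅ := by
          ext e
          simp only [Set.mem_empty_iff_false, iff_false]
          rintro ⟨-, v, -, h1, h2⟩
          exact h2 (mem_singleton.2 ((hout v).1 h1))
        rw [this, Set.ncard_empty]
      rw [card_singleton] at he
      rw [sum_singleton, hL, hmax.1.size] at hid
      rw [hmiss]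
      have h1 : ∑ t, nbn H g w t = ∑ t, nbn G g w t :=
        Finset.sum_congr rfl fun s _ => by rw [hnH, hnG]
      rw [h1]
      omega
  have hlt : lam G < lam H := by
    refine hMVE V G H z w (q t) c hz.nonneg hz.eig hl hzw hwc (hadj1 t) hnwc hH ?_
    have h1 : adj G (q t) c = 0 := by
      unfold adj
      rw [if_neg]
      exact hNK.indep _ _ (by rw [hq]; simp) (by rw [hq, hc])
    rw [h1, mul_zero]
    have h2 : lam G * (z c - z (q t)) + z w =
        ∑ v, ((adj G c v - adj G (q t) v) * z v + if v = w then z w else 0) := by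
      rw [Finset.sum_add_distrib, Finset.sum_ite_eq' Finset.univ w, if_pos (Finset.mem_univ w)]
      simp_rw [sub_mul]
      rw [Finset.sum_sub_distrib, hz.eig, hz.eig]
      ring
    rw [h2]
    refine Finset.sum_pos' ?_ ⟨u, Finset.mem_univ u, ?_⟩
    · intro v _
      by_cases hvw : v = w
      · subst hvw
        have h3 : adj G c v = 0 := if_neg fun h => hnwc h.symm
        have h4 : adj G (q t) v = 1 := if_pos (hadj1 t).symm
        rw [h3, h4, if_pos rfl]
        linarith
      · rw [if_neg hvw, add_zero]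
        have hv : g v ≠ none := fun h => hvw ((hout v).1 h)
        refine mul_nonneg ?_ (hz.nonneg v)
        by_cases hvt : g v = some t
        · have h4 : adj G (q t) v = 0 := by
            unfold adj
            rw [if_neg]
            exact hNK.indep _ _ (by rw [hq]; simp) (by rw [hq, hvt])
          rw [h4, sub_zero]
          unfold adj
          split_ifs <;> norm_num
        · have h3 : adj G c v = 1 := if_pos (hcall v hv hvt)
          rw [h3]
          unfold adj
          split_ifs <;> norm_num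
    · have huw : u ≠ w := fun h => hu (h ▸ hgw)
      have h3 : adj G c u = 1 := if_pos (hcall u hu hut)
      have h4 : adj G (q t) u = 0 := if_neg hna
      rw [if_neg huw, h3, h4, add_zero, sub_zero, one_mul]
      exact hpos u hu
  linarith

end MP0c3a8f

end

section

/-!
# MP_0c3a8f_co: item SDZ (small `D`, the generic case)
-/

open Finset

namespace MP0c3a8f

namespace ItemSDZ

open ItemRST (cnb_card cnb_eq cov_nonneg cov_le le_cov cnb_w sum_cnb_le exists_one)

variable {V : Type} {r : ℕ}

/-- the choice of the neighbours of `w` in the comparison graph -/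
theorem choice2 [Fintype V] (g : V → Option (Fin r)) (hr : 3 ≤ r) {d : ℕ}
    (hs : ∀ t, d ≤ siz g t) (hd : r ≤ d) :
    ∃ (i j : Fin r) (A : Finset V), i ≠ j ∧ (∀ x ∈ A, g x ≠ none) ∧
      (∀ t, ∃ x ∈ A, g x = some t) ∧ (∀ x ∈ A, ∀ y ∈ A, g x = some i → g y = some i → x = y) ∧
      (∀ x ∈ A, ∀ y ∈ A, g x = some j → g y = some j → x = y) ∧ A.card = d := by
  classical
  have h1 : ∀ t, ∃ v, g v = some t := fun t => exists_one (by have := hs t; omega)
  choose y hy using h1
  obtain ⟨i, hi⟩ : ∃ i : Fin r, i = ⟨0, by omega⟩ := ⟨_, rfl⟩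
  obtain ⟨j, hj⟩ : ∃ j : Fin r, j = ⟨1, by omega⟩ := ⟨_, rfl⟩
  obtain ⟨k, hk⟩ : ∃ k : Fin r, k = ⟨2, by omega⟩ := ⟨_, rfl⟩
  have hij : i ≠ j := by
    rw [hi, hj]
    simp
  have hki : k ≠ i := by
    rw [hi, hk]
    simp
  have hkj : k ≠ j := by
    rw [hj, hk]
    simp
  have hyi : Function.Injective y := by
    intro s t h
    have := hy s
    rw [h, hy t] at this
    exact (Option.some_injective _ this).symm
  have hS : (univ.image y).card = r := by
    rw [Finset.card_image_of_injective _ hyi, Finset.card_univ, Fintype.card_fin]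
  have hST : univ.image y ⊆
      univ.filter fun x => g x ≠ none ∧ (g x = some i → x = y i) ∧ (g x = some j → x = y j) := by
    intro x hx
    obtain ⟨t, -, rfl⟩ := Finset.mem_image.1 hx
    refine Finset.mem_filter.2 ⟨Finset.mem_univ _, ?_, ?_, ?_⟩
    · rw [hy t]; simp
    · intro h
      rw [hy t] at h
      rw [Option.some_injective _ h]
    · intro h
      rw [hy t] at h
      rw [Option.some_injective _ h]
  have hT : d ≤ (univ.filter fun x => g x ≠ none ∧ (g x = some i → x = y i) ∧
      (g x = some j → x = y j)).card := by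
    have h2 : (univ.filter fun x => g x = some k).card = siz g k := by
      unfold siz
      rw [Set.ncard_eq_toFinset_card _ (Set.toFinite _)]
      congr 1
      ext x
      simp
    have h3 : (univ.filter fun x => g x = some k) ⊆
        univ.filter fun x => g x ≠ none ∧ (g x = some i → x = y i) ∧
          (g x = some j → x = y j) := by
      intro x hx
      have hx3 := (Finset.mem_filter.1 hx).2
      refine Finset.mem_filter.2 ⟨Finset.mem_univ _, ?_, ?_, ?_⟩
      · rw [hx3]; simp
      · intro h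
        rw [hx3] at h
        exact absurd (Option.some_injective _ h) hki
      · intro h
        rw [hx3] at h
        exact absurd (Option.some_injective _ h) hkj
    have h4 := Finset.card_le_card h3
    rw [h2] at h4
    have := hs k
    omega
  obtain ⟨A, hSA, hAT, hA⟩ := Finset.exists_subsuperset_card_eq hST (by rw [hS]; exact hd) hT
  refine ⟨i, j, A, hij, ?_, ?_, ?_, ?_, hA⟩
  · intro x hx
    exact (Finset.mem_filter.1 (hAT hx)).2.1
  · intro t
    exact ⟨y t, hSA (Finset.mem_image.2 ⟨t, mem_univ _, rfl⟩), hy t⟩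
  · intro x hx x' hx' h h'
    rw [(Finset.mem_filter.1 (hAT hx)).2.2.1 h, (Finset.mem_filter.1 (hAT hx')).2.2.1 h']
  · intro x hx x' hx' h h'
    rw [(Finset.mem_filter.1 (hAT hx)).2.2.2 h, (Finset.mem_filter.1 (hAT hx')).2.2.2 h']

/-- the comparison graph: complete core, `w` is joined to `A` -/
def HG (g : V → Option (Fin r)) (w : V) (A : Finset V) : SimpleGraph V where
  Adj u v := u ≠ v ∧ ((g u ≠ none ∧ g v ≠ none ∧ g u ≠ g v) ∨ (u = w ∧ v ∈ A) ∨
    (v = w ∧ u ∈ A))
  symm := by
    refine ⟨fun u v h => ?_⟩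
    rcases h with ⟨h0, ⟨h1, h2, h3⟩ | h | h⟩
    · exact ⟨h0.symm, Or.inl ⟨h2, h1, h3.symm⟩⟩
    · exact ⟨h0.symm, Or.inr (Or.inr h)⟩
    · exact ⟨h0.symm, Or.inr (Or.inl h)⟩
  loopless := by
    refine ⟨fun u h => ?_⟩
    exact h.1 rfl

theorem HG_indep {g : V → Option (Fin r)} {w : V} {A : Finset V} (hw : g w = none) :
    Indep (HG g w A) g := by
  intro u v hu huv h
  rcases h with ⟨h0, ⟨h1, h2, h3⟩ | ⟨h, -⟩ | ⟨h, h'⟩⟩
  · exact h3 huv
  · rw [h] at hu
    exact hu hw
  · rw [h, hw] at huv
    exact hu huv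

theorem HG_miss {g : V → Option (Fin r)} {w : V} {A : Finset V} :
    missSet (HG g w A) g = ∅ := by
  ext e
  simp only [missSet, Set.mem_ofPred_eq, Set.mem_empty_iff_false, iff_false]
  rintro ⟨u, v, -, hu, hv, huv, h⟩
  exact h ⟨fun h' => huv (by rw [h']), Or.inl ⟨hu, hv, huv⟩⟩

theorem HG_iso {g : V → Option (Fin r)} {w : V} {A : Finset V} (hA : ∀ x ∈ A, g x ≠ none)
    (u v : V) (hu : g u = none) (huw : u ≠ w) : ¬ (HG g w A).Adj u v := by
  rintro ⟨h0, ⟨h1, h2, h3⟩ | ⟨h, -⟩ | ⟨h, h'⟩⟩
  · exact h1 hu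
  · exact huw h
  · exact hA u h' hu

theorem HG_w {g : V → Option (Fin r)} {w : V} {A : Finset V} (hw : g w = none)
    (x : V) (hx : g x ≠ none) : (HG g w A).Adj w x ↔ x ∈ A := by
  constructor
  · rintro ⟨h0, ⟨h1, h2, h3⟩ | ⟨-, h⟩ | ⟨h, h'⟩⟩
    · exact absurd hw h1
    · exact h
    · exact absurd h.symm h0
  · intro h
    refine ⟨?_, Or.inr (Or.inl ⟨rfl, h⟩)⟩
    intro h'
    rw [← h'] at hx
    exact hx hw

theorem HG_nbn {g : V → Option (Fin r)} {w : V} {A : Finset V} (hw : g w = none) (t : Fin r) :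
    nbn (HG g w A) g w t = {x | x ∈ A ∧ g x = some t}.ncard := by
  unfold nbn
  congr 1
  ext x
  simp only [Set.mem_ofPred_eq]
  constructor
  · rintro ⟨h1, h2⟩
    exact ⟨(HG_w hw x (by rw [h1]; simp)).1 h2, h1⟩
  · rintro ⟨h1, h2⟩
    exact ⟨h2, (HG_w hw x (by rw [h2]; simp)).2 h1⟩

theorem HG_nbn_one [Fintype V] {g : V → Option (Fin r)} {w : V} {A : Finset V} (hw : g w = none)
    {t : Fin r} (h1 : ∃ x ∈ A, g x = some t)
    (h2 : ∀ x ∈ A, ∀ y ∈ A, g x = some t → g y = some t → x = y) :
    nbn (HG g w A) g w t = 1 := by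
  rw [HG_nbn hw, Set.ncard_eq_one]
  obtain ⟨x, hx, hxt⟩ := h1
  refine ⟨x, ?_⟩
  ext y
  simp only [Set.mem_ofPred_eq, Set.mem_singleton_iff]
  constructor
  · rintro ⟨hy, hyt⟩
    exact h2 y hy x hx hyt hxt
  · rintro rfl
    exact ⟨hx, hxt⟩

theorem HG_nbn_pos [Fintype V] {g : V → Option (Fin r)} {w : V} {A : Finset V} (hw : g w = none)
    {t : Fin r} (h1 : ∃ x ∈ A, g x = some t) : 1 ≤ nbn (HG g w A) g w t := by
  rw [HG_nbn hw]
  obtain ⟨x, hx, hxt⟩ := h1
  exact (Set.ncard_pos (Set.toFinite _)).2 ⟨x, hx, hxt⟩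

/-- sums of squares -/
theorem sq_sum_le {ι : Type} [Fintype ι] (f : ι → ℕ) : ∑ x, f x ^ 2 ≤ (∑ x, f x) ^ 2 := by
  rw [pow_two, Finset.sum_mul]
  refine Finset.sum_le_sum fun x hx => ?_
  rw [pow_two]
  exact Nat.mul_le_mul_left _ (Finset.single_le_sum (f := f) (fun _ _ => Nat.zero_le _) hx)

theorem fin {k D E X R : ℝ} (hk0 : 0 ≤ k) (hk1 : k ≤ 1) (hD : 0 ≤ D)
    (hX : (1 - k) * D ≤ X) (hm : X ^ 2 ≤ (1 + k) ^ 2 * E + R) (hE : E + D ≤ D ^ 2) :
    D ≤ 4 * (k * D) * D + R := by
  have h1 : ((1 - k) * D) ^ 2 ≤ X ^ 2 :=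
    pow_le_pow_left₀ (mul_nonneg (by linarith) hD) hX 2
  have h2 : (1 + k) ^ 2 * (E + D) ≤ (1 + k) ^ 2 * D ^ 2 :=
    mul_le_mul_of_nonneg_left hE (by positivity)
  have h3 : D ≤ (1 + k) ^ 2 * D := by
    have : 1 ≤ (1 + k) ^ 2 := by nlinarith
    nlinarith
  nlinarith

theorem tz_ge (n : ℕ) (t : Fin r) : n / r ≤ tz r n t := by
  unfold tz
  omega

end ItemSDZ

open ItemSDZ in
open ItemRST (cnb_card cnb_eq cov_nonneg cov_le le_cov cnb_w sum_cnb_le) in
theorem prfSDZ : P_statement → CNTU_statement → DEV_statement → FLB_statement → WMB_statement →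
    SWYZ_statement → MEMZ_statement → REL_statement → SDZ_statement := by
  classical
  intro _ hCN hDEV hF hWM hSW hME hREL W _ F r N hr hGen
  obtain ⟨C, n₁, hC, h₁⟩ := hF r N hr
  have hN0 : (0 : ℝ) ≤ N := Nat.cast_nonneg N
  have hr0 : (3 : ℝ) ≤ r := by exact_mod_cast hr
  have hrp : (0 : ℝ) < r := by linarith
  obtain ⟨n₄, hn₄⟩ := exists_nat_ge (C + 2 * r * (N + 1) + 3 * (N + 1 + C) +
    8 * N * (C + N * C) + 1 : ℝ)
  obtain ⟨M, hM⟩ : ∃ M : ℝ, M = 40 * r * (N + 1) * (C + 1) := ⟨_, rfl⟩
  have hMpos : 0 < M := by rw [hM]; positivity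
  refine ⟨1 / M, by positivity, N + r + 3, n₁ + n₄ + r, ?_⟩
  intro n hn D hb1 hDε hND hNDn V _ G hMx hAlt
  obtain ⟨_, g, w, hBd, hg⟩ := hAlt
  obtain ⟨hmiss, π, hπ⟩ := hg hND hNDn
  set m := (SimpleGraph.turanGraph n r).edgeSet.ncard + D with hm
  have hMaxi : IsMaximiser r m F G := hMx
  have hE : G.edgeSet.ncard = m := hMaxi.1.size
  obtain ⟨d1, _, _, _, _, d6⟩ := hDEV r n (siz g) (by omega) hBd.tot
  unfold Sz at d6
  rw [d1] at d6
  have hsq : ∑ t, siz g t ^ 2 = ∑ t, tz r n t ^ 2 := by
    rw [← Equiv.sum_comp π (fun t => tz r n t ^ 2)]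
    exact Finset.sum_congr rfl (fun t _ => by rw [hπ t])
  -- the number of outer edges
  have hc0 := FNWx.cnt0 hCN G g hBd.indep
  rw [hmiss, hBd.tot, hE, hsq] at hc0
  have hout : (outSet G g).ncard = D := by omega
  have hw := hBd.out
  have hc1 := FNWx.cnt1 hCN G g w hBd.indep hw
  rw [hmiss, hBd.tot, hE, hsq] at hc1
  have hsplit : ∑ t, nbn G g w t + (lightSet G g {w}).ncard = D := by omega
  have hlN : (lightSet G g {w}).ncard ≤ N := by
    have h0 := hBd.bnd
    have h5 : (0 : ℝ) ≤ (missSet G g).ncard := Nat.cast_nonneg _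
    have h6 : 0 ≤ dev (siz g) := sum_nonneg fun t _ => sq_nonneg _
    have : ((lightSet G g {w}).ncard : ℝ) ≤ N := by linarith
    exact_mod_cast this
  have hn4 : (n₄ : ℝ) ≤ n := by exact_mod_cast (by omega : n₄ ≤ n)
  have hp1 : (0 : ℝ) ≤ 2 * r * (N + 1) := by positivity
  have hp2 : (0 : ℝ) ≤ 3 * (N + 1 + C) := by positivity
  have hp3 : (0 : ℝ) ≤ 8 * N * (C + N * C) := by positivity
  have hnC : C + 1 ≤ (n : ℝ) := by linarith
  have hnr : 2 * r * (N + 1) ≤ (n : ℝ) := by linarith
  have hn3 : 3 * (N + 1 + C) ≤ (n : ℝ) := by linarith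
  have hn8 : 8 * N * (C + N * C) ≤ (n : ℝ) := by linarith
  have hnpos : (0 : ℝ) < n := by linarith
  -- the sizes of the classes
  have hDr : D * r ≤ n := by
    have h0 : (r : ℝ) ≤ M := by
      have h1 : (1 : ℝ) ≤ (N + 1) * (C + 1) := by linarith [mul_nonneg hN0 hC]
      have h2 : (40 : ℝ) * r * 1 ≤ 40 * r * ((N + 1) * (C + 1)) :=
        mul_le_mul_of_nonneg_left h1 (by linarith)
      have h3 : 40 * (r : ℝ) * ((N + 1) * (C + 1)) = 40 * r * (N + 1) * (C + 1) := by ring
      rw [hM]
      linarith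
    have h4 : (D : ℝ) * r ≤ n := by
      calc (D : ℝ) * r ≤ (1 / M * n) * r := mul_le_mul_of_nonneg_right hDε hrp.le
        _ = (r / M) * n := by ring
        _ ≤ 1 * n := mul_le_mul_of_nonneg_right ((div_le_one hMpos).2 h0) hnpos.le
        _ = n := one_mul _
    exact_mod_cast h4
  have hsiz : ∀ t, D ≤ siz g t := by
    intro t
    rw [hπ t]
    refine le_trans ?_ (tz_ge n (π t))
    exact (Nat.le_div_iff_mul_le (by omega)).2 hDr
  have hsiz1 : ∀ t, 1 ≤ siz g t := fun t => by have := hsiz t; omega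
  -- there are no light edges
  have hlight : (lightSet G g {w}).ncard = 0 := by
    by_contra hne
    obtain ⟨i, j, A, hij, hA1, hA2, hAi, hAj, hAc⟩ := choice2 g hr hsiz (by omega)
    set H := HG g w A with hH
    have hHI : Indep H g := HG_indep hw
    have hHm : (missSet H g).ncard = 0 := by rw [HG_miss, Set.ncard_empty]
    have hHcnb : cnb H g w = D := by
      rw [cnb_w hA1 (fun x hx => HG_w hw x hx), hAc]
    have hHl : lam H ≤ lam G := by
      refine hWM W F r m V G H g w i j hr hGen hMaxi hw hij hHI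
        (fun u v hu huw => HG_iso hA1 u v hu huw) (HG_nbn_one hw (hA2 i) hAi)
        (HG_nbn_one hw (hA2 j) hAj) (fun t => HG_nbn_pos hw (hA2 t))
        (fun t => by rw [hHm]; have := hsiz1 t; omega) ?_
      rw [hHm, hBd.tot, hsq, ← cnb_eq, hHcnb]
      omega
    obtain ⟨⟨z, hz⟩, hz2⟩ := h₁ V G g w n (by omega) hBd
    obtain ⟨hz1, hz0, hzw, hlam⟩ := hz2 z hz
    have hl0 : 0 < lam G := by
      have h1 := (abs_le.1 hlam).1
      have h2 : qq r * n = n - n / r := by
        unfold qq
        field_simp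
      have h3 : (n : ℝ) / r ≤ n / 3 := div_le_div_of_nonneg_left hnpos.le (by norm_num) hr0
      have h4 : (N : ℝ) + 1 + C ≤ n / 3 := by
        rw [le_div_iff₀ (by norm_num)]
        linarith
      linarith
    have hmain := hSW r V G H z g w n hBd.indep hmiss hHI hHm hw
      (fun u v hu huw => HG_iso hA1 u v hu huw) hz hl0 hHl
    obtain ⟨k, hk⟩ : ∃ k : ℝ, k = C / n := ⟨_, rfl⟩
    rw [← hk] at hz1 hz0
    have hk0 : 0 ≤ k := by rw [hk]; positivity
    have hk1 : k ≤ 1 := by
      rw [hk, div_le_one hnpos]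
      linarith
    have hup : ∀ v, g v ≠ none → z v ≤ 1 + k := fun v hv => by
      have := (abs_le.1 (hz1 v hv)).2
      linarith
    have hlow : ∀ v, g v ≠ none → 1 - k ≤ z v := fun v hv => by
      have := (abs_le.1 (hz1 v hv)).1
      linarith
    have hL : ((lightSet G g {w}).ncard : ℝ) ≤ N := by exact_mod_cast hlN
    have hR := ItemRSS.rhs_le hCN G g hBd.indep hw z hz.nonneg hk0 hk0 hL hup hz0
    rw [hout] at hR
    have hX := le_cov H g z hlow w
    rw [hHcnb] at hX
    obtain ⟨E, hEd⟩ : ∃ E : ℕ, E = ∑ x, if g x = none then cnb G g x ^ 2 else 0 := ⟨_, rfl⟩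
    rw [← hEd] at hR
    have hE2' : E + D ≤ D ^ 2 := by
      obtain ⟨c, hc⟩ : ∃ c : ℕ, c = ∑ t, nbn G g w t := ⟨_, rfl⟩
      obtain ⟨b', hb'⟩ : ∃ b' : ℕ, b' = (lightSet G g {w}).ncard := ⟨_, rfl⟩
      rw [← hc, ← hb'] at hsplit
      rw [← hb'] at hne hlN
      have hc1' : 1 ≤ c := by omega
      have hb1' : 1 ≤ b' := by omega
      have h1 : E ≤ c ^ 2 + b' ^ 2 := by
        rw [hEd, ItemRSS.sum_split g hw, cnb_eq, ← hc]
        refine Nat.add_le_add_left ?_ _
        have h2 : (∑ x, if g x = none ∧ x ≠ w then cnb G g x ^ 2 else 0)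
            = ∑ x, (if g x = none ∧ x ≠ w then cnb G g x else 0) ^ 2 :=
          Finset.sum_congr rfl fun x _ => by split_ifs <;> simp
        rw [h2]
        refine (sq_sum_le _).trans (Nat.pow_le_pow_left ?_ 2)
        rw [hb']
        exact ItemRSS.sum_cnb_w hCN G g hBd.indep hw
      have h3 : c ≤ c * b' := Nat.le_mul_of_pos_right c hb1'
      have h4 : b' ≤ c * b' := Nat.le_mul_of_pos_left b' hc1'
      have h5 : D ^ 2 = c ^ 2 + b' ^ 2 + 2 * (c * b') := by rw [← hsplit]; ring
      omega
    have hE2r : (E : ℝ) + D ≤ (D : ℝ) ^ 2 := by exact_mod_cast hE2'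
    have hb0 : (0 : ℝ) ≤ D := Nat.cast_nonneg D
    obtain ⟨R, hRd⟩ : ∃ R : ℝ, R = (1 + k) * D * (N * k) + (1 + k) * N * (z w + N * k) :=
      ⟨_, rfl⟩
    rw [← hRd] at hR
    have hfin := ItemSDZ.fin hk0 hk1 hb0 hX (R := R) (hmain.trans hR) hE2r
    -- the numbers
    have hbk : D * k ≤ C / M := by
      have h1 : D * k ≤ (1 / M * n) * k := mul_le_mul_of_nonneg_right hDε hk0
      refine h1.trans (le_of_eq ?_)
      rw [hk]
      field_simp
    have hM2 : 120 * (((N : ℝ) + 1) * (C + 1)) ≤ M := by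
      have h1 : (0 : ℝ) ≤ (N + 1) * (C + 1) := by positivity
      have h2 := mul_le_mul_of_nonneg_right (show (120 : ℝ) ≤ 40 * r by linarith) h1
      have h3 : 40 * (r : ℝ) * ((N + 1) * (C + 1)) = 40 * r * (N + 1) * (C + 1) := by ring
      rw [hM]
      linarith
    have hNC : 0 ≤ (N : ℝ) * C := mul_nonneg hN0 hC
    have hPe : ((N : ℝ) + 1) * (C + 1) = N * C + N + C + 1 := by ring
    have hCM : C / M ≤ 1 / 120 := by
      rw [div_le_div_iff₀ hMpos (by norm_num)]
      linarith
    have hNCM : N * (C / M) ≤ 1 / 120 := by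
      rw [← mul_div_assoc, div_le_div_iff₀ hMpos (by norm_num)]
      linarith
    have hNM : N * (1 / M) ≤ 1 / 120 := by
      rw [mul_one_div, div_le_div_iff₀ hMpos (by norm_num)]
      linarith
    have hzw2 : z w ≤ 2 / M + k := by
      have h1 : ((∑ t, nbn G g w t : ℕ) : ℝ) ≤ D := by
        exact_mod_cast (by omega : ∑ t, nbn G g w t ≤ D)
      refine hzw.trans ?_
      have h3 : 2 / M + k = (2 * (1 / M * n) + C) / n := by
        rw [hk]
        field_simp
      rw [h3]
      apply div_le_div_of_nonneg_right _ hnpos.le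
      linarith
    have hNk : N * (C + N * C) / n ≤ 1 / 8 := by
      rw [div_le_div_iff₀ hnpos (by norm_num)]
      linarith
    have hR1 : R ≤ 1 := by
      have h1 : (1 + k) * D * (N * k) ≤ 2 * (N * (C / M)) := by
        have h2 : N * (D * k) ≤ N * (C / M) := mul_le_mul_of_nonneg_left hbk hN0
        have h3 : 0 ≤ N * (D * k) := by positivity
        calc (1 + k) * D * (N * k) = (1 + k) * (N * (D * k)) := by ring
          _ ≤ 2 * (N * (D * k)) := mul_le_mul_of_nonneg_right (by linarith) h3
          _ ≤ _ := by linarith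
      have h4 : (1 + k) * N * (z w + N * k) ≤ 2 * (N * (2 / M) + N * (C + N * C) / n) := by
        have h5 : z w + N * k ≤ 2 / M + k + N * k := by linarith
        have h6 : 0 ≤ z w + N * k := by
          have := hz.nonneg w
          positivity
        have h7 : (1 + k) * N * (z w + N * k) ≤ 2 * N * (2 / M + k + N * k) :=
          mul_le_mul (mul_le_mul_of_nonneg_right (by linarith) hN0) h5 h6 (by positivity)
        refine h7.trans (le_of_eq ?_)
        rw [hk]
        ring
      have h8 : N * (2 / M) = 2 * (N * (1 / M)) := by ring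
      rw [hRd]
      linarith
    have hk5 : 4 * (k * D) * (D : ℝ) ≤ D / 24 := by
      have h2 : 4 * (k * D) ≤ 1 / 24 := by
        have : k * D = D * k := mul_comm _ _
        linarith
      have h3 := mul_le_mul_of_nonneg_right h2 hb0
      linarith
    have hb12 : (3 : ℝ) ≤ D := by
      have : 3 ≤ D := by omega
      exact_mod_cast this
    linarith
  -- the structure
  have hnone : ∀ v, g v = none ↔ v = w := by
    intro v
    refine ⟨fun hv => ?_, fun hv => by rw [hv]; exact hw⟩
    by_contra hvw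
    obtain ⟨u, hu⟩ := hMaxi.1.noIso v
    have h1 : lightSet G g {w} = ∅ := (Set.ncard_eq_zero (Set.toFinite _)).1 hlight
    have h2 : s(v, u) ∈ lightSet G g {w} :=
      ⟨hu, v, Sym2.mem_mk_left _ _, hv, by rw [Finset.mem_singleton]; exact hvw⟩
    rw [h1] at h2
    exact h2
  have hmiss' : missSet G g = ∅ := (Set.ncard_eq_zero (Set.toFinite _)).1 hmiss
  have hcore : ∀ u v, g u ≠ none → g v ≠ none → (G.Adj u v ↔ g u ≠ g v) := by
    intro u v hu hv
    constructor
    · intro h h'
      exact hBd.indep u v hu h' h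
    · intro h
      by_contra hna
      have h2 : s(u, v) ∈ missSet G g := ⟨u, v, rfl, hu, hv, h, hna⟩
      rw [hmiss'] at h2
      exact h2
  have hTy : Ty0 G g w := ⟨hnone, hcore⟩
  have hpos : ∀ t, 1 ≤ nbn G g w t := by
    intro t
    by_contra hcon
    exact hMaxi.1.notPartite ((hME r V G g w hr hTy hsiz1).1.2 ⟨t, by omega⟩)
  -- the renumbering
  obtain ⟨r1, r2, _, _⟩ := hREL r V G g π
  refine ⟨fun v => (g v).map π, w, ⟨?_, ?_⟩, ?_, ?_, ?_⟩
  · intro v
    rw [Option.map_eq_none_iff]
    exact hnone v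
  · intro u v hu hv
    have hu' : g u ≠ none := fun h => hu (by simp [h])
    have hv' : g v ≠ none := fun h => hv (by simp [h])
    rw [hcore u v hu' hv']
    constructor
    · intro h h'
      exact h (Option.map_injective π.injective h')
    · intro h h'
      exact h (by simp only [h'])
  · intro t
    have h3 := r1 (π.symm t)
    rw [Equiv.apply_symm_apply] at h3
    rw [h3, hπ, Equiv.apply_symm_apply]
  · have h3 : ∑ t, nbn G (fun v => (g v).map π) w t = ∑ t, nbn G g w t := by
      rw [← Equiv.sum_comp π (fun t => nbn G (fun v => (g v).map π) w t)]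
      exact Finset.sum_congr rfl (fun t _ => r2 w t)
    rw [h3]
    omega
  · intro t
    have h3 := r2 w (π.symm t)
    rw [Equiv.apply_symm_apply] at h3
    rw [h3]
    exact hpos _

end MP0c3a8f

end

section

/-!
# MP_0c3a8f_co: item TRIS (type `S`: a star is better than a triangle)
-/

open Finset

namespace MP0c3a8f

namespace ItemTRIS

/-- the solution of the equations of the star and the comparison -/
theorem real {l a U : ℝ} (hl : 32 ≤ l) (ha0 : 0 < a) (ha : a ≤ 1 / 32) (hla : l * a ≤ 1)
    (hU : 0 < U) : ∃ P' X : ℝ, l * P' = a * (U + X) - X ∧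
      l * X = 2 * (a * (U + 2 * P') - P') + (a * (U + P') - P') ∧
      ∀ P : ℝ, P * (l + 2 * (1 - a)) = a * U → 0 < a * (6 * P - X - 3 * P') := by
  obtain ⟨E, hE⟩ : ∃ E : ℝ, E = l ^ 2 - (1 - a) * (3 - 5 * a) := ⟨_, rfl⟩
  have hE0 : 0 < E := by
    have h1 : (1 - a) * (3 - 5 * a) ≤ 1 * 3 :=
      mul_le_mul (by linarith) (by linarith) (by linarith) (by norm_num)
    have h2 : (32 : ℝ) ^ 2 ≤ l ^ 2 := pow_le_pow_left₀ (by norm_num) hl 2
    rw [hE]; linarith
  obtain ⟨P', hP'⟩ : ∃ P' : ℝ, P' = a * U * (l - 3 * (1 - a)) / E := ⟨_, rfl⟩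
  obtain ⟨X, hX⟩ : ∃ X : ℝ, X = a * U * (3 * l - (3 - 5 * a)) / E := ⟨_, rfl⟩
  have p1 : P' * E = a * U * (l - 3 * (1 - a)) := by rw [hP']; field_simp
  have p2 : X * E = a * U * (3 * l - (3 - 5 * a)) := by rw [hX]; field_simp
  refine ⟨P', X, ?_, ?_, ?_⟩
  · apply mul_right_cancel₀ hE0.ne'
    have h1 : l * P' * E = l * (P' * E) := by ring
    have h2 : (a * (U + X) - X) * E = a * U * E - (1 - a) * (X * E) := by ring
    rw [h1, h2, p1, p2, hE]
    ring
  · apply mul_right_cancel₀ hE0.ne'
    have h1 : l * X * E = l * (X * E) := by ring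
    have h2 : (2 * (a * (U + 2 * P') - P') + (a * (U + P') - P')) * E
        = 3 * (a * U) * E - (3 - 5 * a) * (P' * E) := by ring
    rw [h1, h2, p1, p2, hE]
    ring
  · intro P hP
    apply mul_pos ha0
    have hc : 0 < l + 2 * (1 - a) := by linarith
    have h3 : (6 * P - X - 3 * P') * ((l + 2 * (1 - a)) * E)
        = a * U * (6 - 4 * a - 2 * a ^ 2 - 2 * (l * a)) := by
      have h4 : (6 * P - X - 3 * P') * ((l + 2 * (1 - a)) * E)
          = 6 * (P * (l + 2 * (1 - a))) * E - (l + 2 * (1 - a)) * (X * E)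
            - 3 * (l + 2 * (1 - a)) * (P' * E) := by ring
      rw [h4, hP, p1, p2, hE]
      ring
    have h5 : 0 < a * U * (6 - 4 * a - 2 * a ^ 2 - 2 * (l * a)) := by
      apply mul_pos (mul_pos ha0 hU)
      have : a ^ 2 ≤ 1 := by
        rw [sq]
        exact mul_le_one₀ (by linarith) ha0.le (by linarith)
      nlinarith
    rw [← h3] at h5
    exact pos_of_mul_pos_left h5 (mul_pos hc hE0).le

section

variable {V : Type} {r : ℕ} {G : SimpleGraph V} {f : V → Option (Fin r)} {w : V}
  {q : Fin r → V} {x y z : V}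

theorem hw (hT : TyR G f w q x y z) : f w = none := (hT.out w).2 rfl

theorem nxy (hT : TyR G f w q x y z) : x ≠ y := fun h => hT.xy (by rw [h])
theorem nyz (hT : TyR G f w q x y z) : y ≠ z := fun h => hT.yz (by rw [h])
theorem nxz (hT : TyR G f w q x y z) : x ≠ z := fun h => hT.xz (by rw [h])

theorem cond (hT : TyR G f w q x y z) (v u : V) :
    (f v ≠ none ∧ f u ≠ none ∧ f u ≠ f v ∧ ¬ G.Adj v u) ↔
      (v = x ∧ u = y) ∨ (v = x ∧ u = z) ∨ (v = y ∧ u = x) ∨ (v = y ∧ u = z) ∨
      (v = z ∧ u = x) ∨ (v = z ∧ u = y) := by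
  constructor
  · rintro ⟨hv, hu, hne, ha⟩
    rw [hT.core v u hv hu] at ha
    by_contra hcon
    push Not at hcon
    obtain ⟨c1, c2, c3, c4, c5, c6⟩ := hcon
    apply ha
    refine ⟨fun h => hne h.symm, ?_, ?_, ?_⟩
    · intro h
      rcases Sym2.eq_iff.1 h with ⟨h1, h2⟩ | ⟨h1, h2⟩
      · exact c1 h1 h2
      · exact c3 h1 h2
    · intro h
      rcases Sym2.eq_iff.1 h with ⟨h1, h2⟩ | ⟨h1, h2⟩
      · exact c4 h1 h2
      · exact c6 h1 h2
    · intro h
      rcases Sym2.eq_iff.1 h with ⟨h1, h2⟩ | ⟨h1, h2⟩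
      · exact c2 h1 h2
      · exact c5 h1 h2
  · have hxy := hT.xy
    have hyz := hT.yz
    have hxz := hT.xz
    have hx := hT.cx
    have hy := hT.cy
    have hz := hT.cz
    rintro (⟨rfl, rfl⟩ | ⟨rfl, rfl⟩ | ⟨rfl, rfl⟩ | ⟨rfl, rfl⟩ | ⟨rfl, rfl⟩ | ⟨rfl, rfl⟩)
    · exact ⟨hx, hy, hxy.symm, fun h => ((hT.core _ _ hx hy).1 h).2.1 rfl⟩
    · exact ⟨hx, hz, hxz.symm, fun h => ((hT.core _ _ hx hz).1 h).2.2.2 rfl⟩
    · exact ⟨hy, hx, hxy, fun h => ((hT.core _ _ hy hx).1 h).2.1 Sym2.eq_swap⟩
    · exact ⟨hy, hz, hyz.symm, fun h => ((hT.core _ _ hy hz).1 h).2.2.1 rfl⟩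
    · exact ⟨hz, hx, hxz, fun h => ((hT.core _ _ hz hx).1 h).2.2.2 Sym2.eq_swap⟩
    · exact ⟨hz, hy, hyz, fun h => ((hT.core _ _ hz hy).1 h).2.2.1 Sym2.eq_swap⟩

variable [Fintype V]

open Classical in
theorem muv_eq (hT : TyR G f w q x y z) (Z : V → ℝ) (v : V) :
    muv G f Z v = (if v = x then Z y + Z z else 0) + (if v = y then Z x + Z z else 0)
      + (if v = z then Z x + Z y else 0) := by
  have hxy := nxy hT
  have hyz := nyz hT
  have hxz := nxz hT
  have key : ∀ u, (if f v ≠ none ∧ f u ≠ none ∧ f u ≠ f v ∧ ¬ G.Adj v u then Z u else 0) =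
      (if u = y then (if v = x then Z y else 0) else 0)
      + (if u = z then (if v = x then Z z else 0) else 0)
      + (if u = x then (if v = y then Z x else 0) else 0)
      + (if u = z then (if v = y then Z z else 0) else 0)
      + (if u = x then (if v = z then Z x else 0) else 0)
      + (if u = y then (if v = z then Z y else 0) else 0) := by
    intro u
    rw [if_congr (cond hT v u) rfl rfl]
    by_cases h1 : v = x
    · subst h1
      by_cases h2 : u = y
      · subst h2; simp [hxy, hyz, hxz, hxy.symm, hyz.symm, hxz.symm]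
      · by_cases h3 : u = z
        · subst h3; simp [hxy, hyz, hxz, hxy.symm, hyz.symm, hxz.symm]
        · simp [h2, h3, hxy, hxz]
    · by_cases h4 : v = y
      · subst h4
        by_cases h2 : u = x
        · subst h2; simp [hxy, hyz, hxz, hxy.symm, hyz.symm, hxz.symm]
        · by_cases h3 : u = z
          · subst h3; simp [hxy, hyz, hxz, hxy.symm, hyz.symm, hxz.symm]
          · simp [h2, h3, h1, hyz]
      · by_cases h5 : v = z
        · subst h5
          by_cases h2 : u = x
          · subst h2; simp [hxy, hyz, hxz, hxy.symm, hyz.symm, hxz.symm]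
          · by_cases h3 : u = y
            · subst h3; simp [hxy, hyz, hxz, hxy.symm, hyz.symm, hxz.symm]
            · simp [h2, h3, h1, h4]
        · simp [h1, h4, h5]
  unfold muv
  rw [Finset.sum_congr rfl (fun u _ => key u)]
  simp only [Finset.sum_add_distrib, Finset.sum_ite_eq', Finset.mem_univ, if_true]
  split_ifs <;> ring

open Classical in
theorem omv_eq (hT : TyR G f w q x y z) (Z : V → ℝ) (v : V) :
    omv G f Z v = if ∃ t, v = q t then Z w else 0 := by
  unfold omv
  have key : ∀ u, (if f u = none ∧ G.Adj v u then Z u else 0) =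
      if u = w then (if ∃ t, v = q t then Z w else 0) else 0 := by
    intro u
    by_cases h : u = w
    · subst h
      rw [if_pos rfl]
      refine if_congr ?_ rfl rfl
      rw [SimpleGraph.adj_comm, hT.wn]
      exact ⟨fun h => h.2, fun h => ⟨hw hT, h⟩⟩
    · rw [if_neg h, if_neg (fun h1 => h ((hT.out u).1 h1.1))]
  rw [Finset.sum_congr rfl (fun u _ => key u), Finset.sum_ite_eq' Finset.univ w]
  simp

open Classical in
theorem cw_mu (hT : TyR G f w q x y z) (Z : V → ℝ) (t : Fin r) :
    cw (fun v => muv G f Z v) f (some t) = (if f x = some t then Z y + Z z else 0)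
      + (if f y = some t then Z x + Z z else 0) + (if f z = some t then Z x + Z y else 0) := by
  unfold cw
  have key : ∀ v, (if f v = some t then muv G f Z v else 0) =
      (if v = x then (if f x = some t then Z y + Z z else 0) else 0)
      + (if v = y then (if f y = some t then Z x + Z z else 0) else 0)
      + (if v = z then (if f z = some t then Z x + Z y else 0) else 0) := by
    intro v
    rw [muv_eq hT]
    by_cases h1 : v = x
    · subst h1; simp [nxy hT, nxz hT]
    · by_cases h2 : v = y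
      · subst h2; simp [nyz hT, h1]
      · by_cases h3 : v = z
        · subst h3; simp [h1, h2]
        · simp [h1, h2, h3]
  rw [Finset.sum_congr rfl (fun u _ => key u)]
  simp only [Finset.sum_add_distrib, Finset.sum_ite_eq', Finset.mem_univ, if_true]

open Classical in
theorem cw_om (hT : TyR G f w q x y z) (Z : V → ℝ) (t : Fin r) :
    cw (fun v => omv G f Z v) f (some t) = Z w := by
  unfold cw
  have key : ∀ v, (if f v = some t then omv G f Z v else 0) = if v = q t then Z w else 0 := by
    intro v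
    rw [omv_eq hT]
    by_cases h : v = q t
    · subst h
      rw [if_pos (hT.hq t), if_pos ⟨t, rfl⟩, if_pos rfl]
    · rw [if_neg h]
      by_cases h1 : f v = some t
      · rw [if_pos h1, if_neg]
        rintro ⟨s, rfl⟩
        rw [hT.hq s] at h1
        exact h (by rw [Option.some_injective _ h1])
      · rw [if_neg h1]
  rw [Finset.sum_congr rfl (fun u _ => key u), Finset.sum_ite_eq' Finset.univ (q t)]
  simp

open Classical in
theorem eig_w (hT : TyR G f w q x y z) (Z : V → ℝ) :
    ∑ u, adj G w u * Z u = ∑ t, Z (q t) := by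
  have hinj : Function.Injective q := by
    intro s t h
    have h1 := hT.hq s
    rw [h, hT.hq t] at h1
    exact (Option.some_injective _ h1).symm
  have h1 : ∀ u, adj G w u * Z u = if u ∈ Finset.univ.image q then Z u else 0 := by
    intro u
    unfold adj
    by_cases h : ∃ t, u = q t
    · rw [if_pos ((hT.wn u).2 h), one_mul, if_pos]
      obtain ⟨t, rfl⟩ := h
      exact Finset.mem_image_of_mem _ (Finset.mem_univ _)
    · rw [if_neg (fun h1 => h ((hT.wn u).1 h1)), zero_mul, if_neg]
      intro h1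
      obtain ⟨t, _, ht⟩ := Finset.mem_image.1 h1
      exact h ⟨t, ht.symm⟩
  rw [Finset.sum_congr rfl (fun u _ => h1 u), Finset.sum_ite_mem, Finset.univ_inter,
    Finset.sum_image (fun a _ b _ h => hinj h)]


theorem sum_mu (hT : TyR G f w q x y z) (Z : V → ℝ) (t : Fin r) : muv G f Z (q t) = 0 := by
  classical
  obtain ⟨h1, h2, h3⟩ := hT.qx t
  rw [muv_eq hT, if_neg h1, if_neg h2, if_neg h3]
  ring

end

end ItemTRIS

open ItemTRIS Classical in
theorem prfTRIS : P_statement → FLU_statement → TCG_statement → TVS_statement →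
    TRIS_statement := by
  intro _hP hF hTC hTV r C hr hC
  obtain ⟨C₁, n₁, hC₁, h₁⟩ := hF r C hr hC
  obtain ⟨n₂, hn₂⟩ := exists_nat_ge ((6 * C₁ + C₁ * r + 32 * C + 512 * r + 64) ^ 4)
  refine ⟨n₁ + n₂, ?_⟩
  intro V U _ _ G H f f' w x y z w' q q' c' i j k L' n hn hT hTH hfx hfy hfz hNK hσ hsj hsk
    hlj hlk hLc
  obtain ⟨h, hh⟩ : ∃ h : ℝ, h = Real.sqrt (Real.sqrt n) := ⟨_, rfl⟩
  have hbig : 6 * C₁ + C₁ * r + 32 * C + 512 * r + 64 ≤ h := by
    rw [hh]
    exact ItemPEV.big hn₂ (by omega)
  obtain ⟨⟨Z, hZ⟩, hz2⟩ := h₁ V G f n (by omega) hNK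
  obtain ⟨hz1, -, hlam, -⟩ := hz2 Z hZ
  obtain ⟨hrow, hcls⟩ := hTC r V G Z f n hNK.indep hZ
  have hh0 : 0 ≤ h := by rw [hh]; positivity
  have ha : (0 : ℝ) ≤ C * h := by positivity
  rw [← hh] at hlam
  have hhs : h * h = Real.sqrt n := by rw [hh]; exact Real.mul_self_sqrt (Real.sqrt_nonneg _)
  have hn0 : (h * h) * (h * h) = n := by rw [hhs]; exact Real.mul_self_sqrt (Nat.cast_nonneg n)
  obtain ⟨hl1, hl2, hl3, -, hl5, hk, hnpos⟩ := ItemCEN.num hr hn0 hC hC₁ hbig ha hlam
  rw [← hhs] at hz1
  obtain ⟨l, hl⟩ : ∃ l : ℝ, l = lam G := ⟨_, rfl⟩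
  rw [← hl] at hl1 hl2 hl3 hl5 hrow hcls ⊢
  have hl0 : 0 < l := by linarith
  have heig := hZ.eig w
  rw [← hl, eig_w hT] at heig
  have hr0 : (3 : ℝ) ≤ r := by exact_mod_cast hr
  -- bounds for the entries
  have hzq : ∀ t, 1 / 2 ≤ Z (q t) ∧ Z (q t) ≤ 2 := by
    intro t
    have h5 := abs_le.1 (hz1 (q t) (by rw [hT.hq]; simp))
    constructor <;> linarith
  have hsum1 : (r : ℝ) * (1 / 2) ≤ ∑ t, Z (q t) := by
    have h5 := Finset.card_nsmul_le_sum Finset.univ (fun t => Z (q t)) (1 / 2)
      (fun t _ => (hzq t).1)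
    rw [Finset.card_univ, Fintype.card_fin, nsmul_eq_mul] at h5
    exact h5
  have hsum2 : ∑ t, Z (q t) ≤ (r : ℝ) * 2 := by
    have h5 := Finset.sum_le_card_nsmul Finset.univ (fun t => Z (q t)) 2
      (fun t _ => (hzq t).2)
    rw [Finset.card_univ, Fintype.card_fin, nsmul_eq_mul] at h5
    exact h5
  have hzw : 0 < Z w := by
    by_contra hcon
    push Not at hcon
    have : l * Z w ≤ 0 := mul_nonpos_of_nonneg_of_nonpos hl0.le hcon
    linarith
  -- the normalised data
  have hn' : (n : ℝ) ≠ 0 := hnpos.ne'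
  obtain ⟨ω, hω⟩ : ∃ ω : ℝ, ω = Z w / n := ⟨_, rfl⟩
  obtain ⟨P1, hP1⟩ : ∃ P : ℝ, P = Z x / n := ⟨_, rfl⟩
  obtain ⟨P2, hP2⟩ : ∃ P : ℝ, P = Z y / n := ⟨_, rfl⟩
  obtain ⟨P3, hP3⟩ : ∃ P : ℝ, P = Z z / n := ⟨_, rfl⟩
  obtain ⟨T, hTd⟩ : ∃ T : Fin r → ℝ, T = fun t => tv f Z n t / n := ⟨_, rfl⟩
  have hTt : ∀ t, T t = tv f Z n t / n := fun t => by rw [hTd]
  have hω' : Z w = n * ω := by rw [hω]; field_simp
  have hP1' : Z x = n * P1 := by rw [hP1]; field_simp
  have hP2' : Z y = n * P2 := by rw [hP2]; field_simp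
  have hP3' : Z z = n * P3 := by rw [hP3]; field_simp
  have hT' : ∀ t, tv f Z n t = n * T t := fun t => by rw [hTt]; field_simp
  have hij : i ≠ j := fun h => hT.xy (by rw [hfx, hfy, h])
  have hjk : j ≠ k := fun h => hT.yz (by rw [hfy, hfz, h])
  have hik : i ≠ k := fun h => hT.xz (by rw [hfx, hfz, h])
  have hom : ∀ v, (v = x ∨ v = y ∨ v = z) → omv G f Z v = 0 := by
    intro v hv
    rw [omv_eq hT, if_neg]
    rintro ⟨t, rfl⟩
    obtain ⟨h1, h2, h3⟩ := hT.qx t
    rcases hv with hv | hv | hv
    · exact h1 hv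
    · exact h2 hv
    · exact h3 hv
  have A1 : l * P1 = T i - (P2 + P3) := by
    have h1 := hrow x i hfx
    rw [muv_eq hT, hom x (Or.inl rfl), if_pos rfl, if_neg (nxy hT), if_neg (nxz hT), hP1',
      hP2', hP3', hT'] at h1
    apply mul_left_cancel₀ hn'
    linear_combination h1
  have A2 : l * P2 = T j - (P1 + P3) := by
    have h1 := hrow y j hfy
    rw [muv_eq hT, hom y (Or.inr (Or.inl rfl)), if_neg (nxy hT).symm, if_pos rfl,
      if_neg (nyz hT), hP1', hP2', hP3', hT'] at h1
    apply mul_left_cancel₀ hn'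
    linear_combination h1
  have A3 : l * P3 = T k - (P1 + P2) := by
    have h1 := hrow z k hfz
    rw [muv_eq hT, hom z (Or.inr (Or.inr rfl)), if_neg (nxz hT).symm, if_neg (nyz hT).symm,
      if_pos rfl, hP1', hP2', hP3', hT'] at h1
    apply mul_left_cancel₀ hn'
    linear_combination h1
  have hTeq : ∀ t, T t * (l + siz f t) = l + ((if f x = some t then P2 + P3 else 0)
      + (if f y = some t then P1 + P3 else 0) + (if f z = some t then P1 + P2 else 0)) - ω := by
    intro t
    have h1 := hcls t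
    rw [cw_mu hT, cw_om hT, hω', hP1', hP2', hP3', hT'] at h1
    have h4 : ∀ (c : Prop) [Decidable c] (A B : ℝ), (if c then n * A + n * B else 0) =
        n * (if c then A + B else 0) := by
      intro c _ A B
      split_ifs <;> ring
    rw [h4, h4, h4] at h1
    apply mul_left_cancel₀ hn'
    linear_combination h1
  have B1 : T i * (l + siz f i) = l + (P2 + P3) - ω := by
    have h1 := hTeq i
    rw [hfx, hfy, hfz, if_pos rfl, if_neg (fun h => hij (Option.some_injective _ h).symm),
      if_neg (fun h => hik (Option.some_injective _ h).symm)] at h1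
    linarith
  have B2 : T j * (l + siz f i) = l + (P1 + P3) - ω := by
    have h1 := hTeq j
    rw [hfx, hfy, hfz, if_neg (fun h => hij (Option.some_injective _ h)), if_pos rfl,
      if_neg (fun h => hjk (Option.some_injective _ h).symm), hsj] at h1
    linarith
  have B3 : T k * (l + siz f i) = l + (P1 + P2) - ω := by
    have h1 := hTeq k
    rw [hfx, hfy, hfz, if_neg (fun h => hik (Option.some_injective _ h)),
      if_neg (fun h => hjk (Option.some_injective _ h)), if_pos rfl, hsk] at h1
    linarith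
  have B0 : ∀ t, t ≠ i → t ≠ j → t ≠ k → T t * (l + siz f t) = l - ω := by
    intro t h1 h2 h3
    have h5 := hTeq t
    rw [hfx, hfy, hfz, if_neg (fun h => h1 (Option.some_injective _ h).symm),
      if_neg (fun h => h2 (Option.some_injective _ h).symm),
      if_neg (fun h => h3 (Option.some_injective _ h).symm)] at h5
    linarith
  have q5' : ∑ t, tv f Z n t = (r - 1) * n := by
    unfold tv
    rw [Finset.sum_sub_distrib, hZ.sum, Finset.sum_const, Finset.card_univ, Fintype.card_fin,
      nsmul_eq_mul]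
    ring
  have q5 : ∑ t, T t = r - 1 := by
    have h6 : ∑ t, T t = (∑ t, tv f Z n t) / n := by
      rw [Finset.sum_div]
      exact Finset.sum_congr rfl fun t _ => hTt t
    rw [h6, q5']
    field_simp
  have q6 : l ^ 2 * ω = (r - 1) + r * ω := by
    have h5 : ∀ t, l * Z (q t) = tv f Z n t + Z w := by
      intro t
      have h := hrow _ t (hT.hq t)
      rw [omv_eq hT, if_pos ⟨t, rfl⟩, sum_mu hT, sub_zero] at h
      exact h
    have e4 : l * ∑ t, Z (q t) = ∑ t, tv f Z n t + r * Z w := by
      rw [Finset.mul_sum, Finset.sum_congr rfl (fun t _ => h5 t), Finset.sum_add_distrib,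
        Finset.sum_const, Finset.card_univ, Fintype.card_fin, nsmul_eq_mul]
    rw [q5', heig, hω'] at e4
    apply mul_left_cancel₀ hn'
    linear_combination e4
  -- `a`
  have hσn : (siz f i : ℝ) ≤ n := by
    have h5 : siz f i ≤ ∑ t, siz f t :=
      Finset.single_le_sum (f := fun t => siz f t) (fun _ _ => Nat.zero_le _) (Finset.mem_univ i)
    rw [hNK.tot] at h5
    exact_mod_cast h5
  have hσ0 : (0 : ℝ) ≤ siz f i := Nat.cast_nonneg _
  obtain ⟨a, haa⟩ : ∃ a : ℝ, a = 1 / (l + siz f i) := ⟨_, rfl⟩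
  have hpi : 0 < l + siz f i := by linarith
  have had : a * (l + siz f i) = 1 := by rw [haa]; field_simp
  have ha0 : 0 < a := by rw [haa]; positivity
  have hla : l * a ≤ 1 := by
    have : 0 ≤ a * siz f i := by positivity
    linarith
  have ha1 : a ≤ 1 / 32 := by
    rw [haa]
    exact one_div_le_one_div_of_le (by norm_num) (by linarith)
  have hω0 : 0 < ω := by rw [hω]; positivity
  have hωl : ω < l := by
    have h5 : l * Z w ≤ r * 2 := by rw [← heig]; exact hsum2
    rw [hω'] at h5
    have h6 : 256 * r * (n * ω) ≤ l * (n * ω) :=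
      mul_le_mul_of_nonneg_right hl5 (by positivity)
    have h7 : r * (256 * (n * ω)) ≤ r * 2 := by linarith
    have h8 := le_of_mul_le_mul_left h7 (by linarith : (0 : ℝ) < r)
    have h9 : 32 * ω ≤ n * ω := mul_le_mul_of_nonneg_right (by linarith) hω0.le
    linarith
  have Ti : T i = a * (l - ω + (P2 + P3)) := by
    have h1 : a * (T i * (l + siz f i)) = T i := by
      have : a * (T i * (l + siz f i)) = (a * (l + siz f i)) * T i := by ring
      rw [this, had, one_mul]
    rw [← h1, B1]; ring
  have Tj : T j = a * (l - ω + (P1 + P3)) := by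
    have h1 : a * (T j * (l + siz f i)) = T j := by
      have : a * (T j * (l + siz f i)) = (a * (l + siz f i)) * T j := by ring
      rw [this, had, one_mul]
    rw [← h1, B2]; ring
  have Tk : T k = a * (l - ω + (P1 + P2)) := by
    have h1 : a * (T k * (l + siz f i)) = T k := by
      have : a * (T k * (l + siz f i)) = (a * (l + siz f i)) * T k := by ring
      rw [this, had, one_mul]
    rw [← h1, B3]; ring
  -- the three entries agree
  have hlc0 : l - (1 - a) ≠ 0 := by
    have : 0 < l - (1 - a) := by linarith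
    exact this.ne'
  have e12 : P1 = P2 := by
    have h1 : (l - (1 - a)) * P1 = (l - (1 - a)) * P2 := by
      rw [Ti] at A1
      rw [Tj] at A2
      linear_combination A1 - A2
    exact mul_left_cancel₀ hlc0 h1
  have e13 : P1 = P3 := by
    have h1 : (l - (1 - a)) * P1 = (l - (1 - a)) * P3 := by
      rw [Ti] at A1
      rw [Tk] at A3
      linear_combination A1 - A3
    exact mul_left_cancel₀ hlc0 h1
  have hPe : P1 * (l + 2 * (1 - a)) = a * (l - ω) := by
    rw [Ti, ← e12, ← e13] at A1
    linear_combination A1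
  obtain ⟨P', X, p1, p2, p3⟩ := real hl3 ha0 ha1 hla (by linarith : 0 < l - ω)
  have hθ0 := p3 P1 hPe
  obtain ⟨θ, hθ⟩ : ∃ θ : ℝ, θ = a * (6 * P1 - X - 3 * P') := ⟨_, rfl⟩
  rw [← hθ] at hθ0
  -- the test data for `H`
  obtain ⟨T', hT'd⟩ : ∃ T' : Fin r → ℝ, T' = fun t => T t
    + ((if t = i then a * (l - ω + X) - T i else 0)
      + (if t = j then a * (l - ω + 2 * P') - T j else 0)
      + (if t = k then a * (l - ω + P') - T k else 0)) := ⟨_, rfl⟩
  have hTi' : T' i = a * (l - ω + X) := by
    rw [hT'd]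
    simp only [if_true, if_neg hij, if_neg hik]
    ring
  have hTj' : T' j = a * (l - ω + 2 * P') := by
    rw [hT'd]
    simp only [if_true, if_neg hij.symm, if_neg hjk]
    ring
  have hTk' : T' k = a * (l - ω + P') := by
    rw [hT'd]
    simp only [if_true, if_neg hik.symm, if_neg hjk.symm]
    ring
  have hTo' : ∀ t, t ≠ i → t ≠ j → t ≠ k → T' t = T t := by
    intro t h5 h6 h7
    rw [hT'd]
    simp only [if_neg h5, if_neg h6, if_neg h7]
    ring
  have hsumT' : ∑ t, T' t = (r - 1) - θ := by
    have h5 : ∑ t, T' t = (r - 1) + ((a * (l - ω + X) - T i) + (a * (l - ω + 2 * P') - T j)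
        + (a * (l - ω + P') - T k)) := by
      rw [hT'd]
      rw [Finset.sum_add_distrib, Finset.sum_add_distrib, Finset.sum_add_distrib, q5,
        Finset.sum_ite_eq', Finset.sum_ite_eq', Finset.sum_ite_eq',
        if_pos (Finset.mem_univ _), if_pos (Finset.mem_univ _), if_pos (Finset.mem_univ _)]
    rw [h5, hθ, Ti, Tj, Tk, ← e12, ← e13]
    ring
  -- the classes of `L'`
  have hlc : ∑ t, lc L' f' t = 3 := by
    rw [ItemTRI.lc_sum L' f' (fun v hv => (hTH.hL v hv).1), hLc]
  have hlct : ∀ t, t ≠ j → t ≠ k → lc L' f' t = 0 := by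
    intro t h5 h6
    have h7 : ∑ t ∈ ({t, j, k} : Finset (Fin r)), lc L' f' t ≤ ∑ t, lc L' f' t :=
      Finset.sum_le_sum_of_subset (Finset.subset_univ _)
    rw [Finset.sum_insert (by simp [h5, h6]), Finset.sum_pair hjk, hlj, hlk, hlc] at h7
    omega
  refine hTV r U H f' w' q' c' i L' l ω P' X T' hr hTH hl0 ?_ ?_ ?_ ?_ ?_
  · intro t hti
    rw [hσ t]
    by_cases h5 : t = j
    · subst h5
      rw [hlj, hTj', hsj]
      push_cast
      have : a * (l - ω + 2 * P') * (l + siz f i) = (a * (l + siz f i)) * (l - ω + 2 * P') := by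
        ring
      rw [this, had]; ring
    · by_cases h6 : t = k
      · subst h6
        rw [hlk, hTk', hsk]
        push_cast
        have : a * (l - ω + P') * (l + siz f i) = (a * (l + siz f i)) * (l - ω + P') := by
          ring
        rw [this, had]; ring
      · rw [hlct t h5 h6, hTo' t hti h5 h6, Nat.cast_zero, zero_mul, add_zero]
        exact B0 t hti h5 h6
  · rw [hσ i, hTi']
    have : a * (l - ω + X) * (l + siz f i) = (a * (l + siz f i)) * (l - ω + X) := by ring
    rw [this, had]; ring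
  · rw [hTi']
    linarith
  · rw [p2]
    have h5 : ∀ t, (if t = i then 0 else (lc L' f' t : ℝ) * (T' t - P'))
        = (if t = j then 2 * (T' j - P') else 0) + (if t = k then (T' k - P') else 0) := by
      intro t
      by_cases h6 : t = i
      · subst h6
        rw [if_pos rfl, if_neg hij, if_neg hik, add_zero]
      · rw [if_neg h6]
        by_cases h7 : t = j
        · subst h7
          rw [if_pos rfl, if_neg hjk, hlj, add_zero]
          norm_num
        · by_cases h8 : t = k
          · subst h8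
            rw [if_neg h7, if_pos rfl, hlk, zero_add]
            norm_num
          · rw [if_neg h7, if_neg h8, hlct t h7 h8]
            simp
    rw [Finset.sum_congr rfl (fun t _ => h5 t), Finset.sum_add_distrib, Finset.sum_ite_eq',
      Finset.sum_ite_eq', if_pos (Finset.mem_univ _), if_pos (Finset.mem_univ _), hTj', hTk']
  · have h4 : ∑ t, (T' t + ω) = ∑ t, T' t + r * ω := by
      rw [Finset.sum_add_distrib, Finset.sum_const, Finset.card_univ, Fintype.card_fin,
        nsmul_eq_mul]
    rw [h4, q6, hsumT']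
    have h5 : ((r : ℝ) - 1 - ((r - 1) - θ)) = θ := by ring
    have h6 : ((r : ℝ) - ((r - 1) - θ)) = 1 + θ := by ring
    have h7 : (r : ℝ) - 1 - θ + r * ω - (r - 1 + r * ω) = -θ := by ring
    rw [h5, h6, h7]
    have h8 : -θ / l * ω = -(θ * (ω / l)) := by ring
    rw [h8]
    have h9 : ω / l < 1 := by rw [div_lt_one hl0]; exact hωl
    have h10 : θ * (ω / l) < θ * 1 := mul_lt_mul_of_pos_left h9 hθ0
    have h11 : 0 < θ * θ := mul_pos hθ0 hθ0
    linarith

end MP0c3a8f

end

section

/-!
# MP_0c3a8f_co: test vectors for graphs of type `S` (item TVS)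
-/

open Finset

namespace MP0c3a8f

namespace ItemTVS

open ItemTVP (cast_ncard sum_single core_sum)

open Classical in
/-- the test vector -/
noncomputable def yv {V : Type} {r : ℕ} (f : V → Option (Fin r)) (w : V) (q : Fin r → V)
    (c : V) (L : Finset V) (l ω P : ℝ) (T : Fin r → ℝ) (v : V) : ℝ :=
  if v = w then ω else if v = c then P else
    (f v).elim 0 (fun t => (T t - (if v ∈ L then P else 0) + (if v = q t then ω else 0)) / l)

section

variable {V : Type} [Fintype V] {r : ℕ} {H : SimpleGraph V} {f : V → Option (Fin r)} {w : V}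
  {q : Fin r → V} {c : V} {i : Fin r} {L : Finset V} {l ω P X : ℝ} {T : Fin r → ℝ}

theorem fw (h : TyS H f w q c i L) : f w = none := (h.out w).2 rfl

theorem ne_w (h : TyS H f w q c i L) {v : V} {t : Fin r} (hv : f v = some t) : v ≠ w := by
  intro e
  rw [e, fw h] at hv
  exact absurd hv (by simp)

theorem q_inj (h : TyS H f w q c i L) {s t : Fin r} (e : q s = q t) : s = t := by
  have h1 := h.hq s
  rw [e, h.hq t] at h1
  exact (Option.some.inj h1).symm

theorem q_ne (h : TyS H f w q c i L) (t : Fin r) : q t ≠ c := by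
  intro e
  have h1 := h.hq t
  rw [e, h.hc] at h1
  have h2 : i = t := Option.some.inj h1
  apply h.cq
  rw [h2, e]

theorem y_w (f : V → Option (Fin r)) (w : V) (q : Fin r → V) (c : V) (L : Finset V)
    (l ω P : ℝ) (T : Fin r → ℝ) : yv f w q c L l ω P T w = ω := by
  unfold yv
  rw [if_pos rfl]

theorem y_c (h : TyS H f w q c i L) : yv f w q c L l ω P T c = P := by
  unfold yv
  rw [if_neg (ne_w h h.hc), if_pos rfl]

open Classical in
theorem y_t (h : TyS H f w q c i L) {v : V} {t : Fin r} (hv : f v = some t) (hn : v ≠ c) :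
    yv f w q c L l ω P T v =
      (T t - (if v ∈ L then P else 0) + (if v = q t then ω else 0)) / l := by
  unfold yv
  rw [if_neg (ne_w h hv), if_neg hn, hv]
  rfl

open Classical in
/-- the weight of the class `t ≠ i` -/
theorem cls_t (h : TyS H f w q c i L) (t : Fin r) :
    ∑ v, (if f v = some t then yv f w q c L l ω P T v else 0) =
      (siz f t * T t - lc L f t * P + ω) / l + (if t = i then P - T t / l else 0) := by
  have hcL : c ∉ L := fun h1 => (h.hL c h1).2 h.hc
  have e : ∀ v, (if f v = some t then yv f w q c L l ω P T v else 0) =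
      T t / l * (if f v = some t then 1 else 0) - P / l * (if v ∈ L ∧ f v = some t then 1 else 0)
        + (if v = q t then ω / l else 0) +
        (if v = c then (if t = i then P - T t / l else 0) else 0) := by
    intro v
    by_cases hv : f v = some t
    · by_cases hvc : v = c
      · have hti : t = i := by
          rw [hvc, h.hc] at hv
          exact (Option.some.inj hv).symm
        have h1 : v ∉ L := by rw [hvc]; exact hcL
        have hA : ¬ (v ∈ L ∧ f v = some t) := fun h2 => h1 h2.1
        have h2 : v ≠ q t := by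
          rw [hvc]
          exact (q_ne h t).symm
        rw [if_pos hv, if_pos hv, if_neg hA, if_neg h2, if_pos hvc, if_pos hti, hvc, y_c h]
        ring
      · rw [if_pos hv, if_pos hv, y_t h hv hvc]
        by_cases h1 : v ∈ L
        · have hA : v ∈ L ∧ f v = some t := ⟨h1, hv⟩
          by_cases h2 : v = q t
          · simp only [if_pos h1, if_pos hA, if_pos h2, if_neg hvc]
            ring
          · simp only [if_pos h1, if_pos hA, if_neg h2, if_neg hvc]
            ring
        · have hA : ¬ (v ∈ L ∧ f v = some t) := fun h2 => h1 h2.1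
          by_cases h2 : v = q t
          · simp only [if_neg h1, if_neg hA, if_pos h2, if_neg hvc]
            ring
          · simp only [if_neg h1, if_neg hA, if_neg h2, if_neg hvc]
            ring
    · have h2 : v ≠ q t := by
        intro e
        rw [e, h.hq t] at hv
        exact hv rfl
      have hA : ¬ (v ∈ L ∧ f v = some t) := fun h3 => hv h3.2
      have h3 : (if v = c then (if t = i then P - T t / l else 0) else 0) = 0 := by
        by_cases h4 : v = c
        · rw [if_pos h4, if_neg]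
          intro h5
          apply hv
          rw [h4, h5, h.hc]
        · rw [if_neg h4]
      rw [h3]
      simp only [if_neg hv, if_neg hA, if_neg h2]
      ring
  rw [Finset.sum_congr rfl fun v _ => e v, Finset.sum_add_distrib, Finset.sum_add_distrib,
    Finset.sum_sub_distrib, ← Finset.mul_sum, ← Finset.mul_sum, ← cast_ncard, ← cast_ncard,
    sum_single, sum_single]
  unfold siz lc
  ring

open Classical in
/-- the row of a core vertex, any vector -/
theorem row_core (h : TyS H f w q c i L) (y : V → ℝ) {v : V} {t : Fin r} (hv : f v = some t) :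
    ∑ u, adj H v u * y u = ∑ u, (if f u = none then 0 else y u)
      - ∑ u, (if f u = some t then y u else 0) - (if v = c then ∑ u, (if u ∈ L then y u else 0)
      else 0) - (if v ∈ L then y c else 0) + (if v = q t then y w else 0) := by
  have e : ∀ u, adj H v u * y u = (if f u = none then 0 else y u)
      - (if f u = some t then y u else 0) - (if v = c then (if u ∈ L then y u else 0) else 0)
      - (if u = c then (if v ∈ L then y u else 0) else 0)
      + (if u = w then (if v = q t then y u else 0) else 0) := by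
    intro u
    unfold adj
    rcases hu : f u with _ | s
    · have huw : u = w := (h.out u).1 hu
      have h1 : u ∉ L := fun h2 => (h.hL u h2).1 hu
      have h3 : u ≠ c := by
        intro e
        rw [e, h.hc] at hu
        exact absurd hu (by simp)
      have h4 : H.Adj v u ↔ v = q t := by
        rw [SimpleGraph.adj_comm, huw, h.wn]
        constructor
        · rintro ⟨t', rfl⟩
          rw [h.hq t'] at hv
          rw [Option.some.inj hv]
        · intro e
          exact ⟨t, e⟩
      have hn0 : (none : Option (Fin r)) ≠ some t := by simp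
      by_cases h5 : v = q t
      · have h6 := h4.2 h5
        simp only [if_pos h6, if_neg hn0, if_neg h1, if_neg h3, if_pos huw, if_pos h5, ite_self,
          if_true]
        ring
      · have h6 : ¬ H.Adj v u := fun h7 => h5 (h4.1 h7)
        simp only [if_neg h6, if_neg hn0, if_neg h1, if_neg h3, if_pos huw, if_neg h5, ite_self,
          if_true]
        ring
    · have huw : u ≠ w := ne_w h hu
      have h4 : H.Adj v u ↔ f v ≠ f u ∧ ¬ (v = c ∧ u ∈ L) ∧ ¬ (u = c ∧ v ∈ L) :=
        h.core v u (by rw [hv]; simp) (by rw [hu]; simp)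
      have hn0 : (some s : Option (Fin r)) ≠ none := by simp
      by_cases hst : s = t
      · have hst' : (some s : Option (Fin r)) = some t := by rw [hst]
        have h5 : ¬ H.Adj v u := by
          rw [h4, hv, hu, hst]
          exact fun h6 => h6.1 rfl
        have h6 : (if v = c then (if u ∈ L then y u else 0) else 0) = 0 := by
          by_cases h7 : v = c
          · have h8 : u ∉ L := by
              intro h8
              apply (h.hL u h8).2
              rw [hu, hst, ← hv, h7, h.hc]
            simp only [if_neg h8, ite_self]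
          · exact if_neg h7
        have h9 : (if u = c then (if v ∈ L then y u else 0) else 0) = 0 := by
          by_cases h7 : u = c
          · have h8 : v ∉ L := by
              intro h8
              apply (h.hL v h8).2
              rw [hv, ← hst, ← hu, h7, h.hc]
            simp only [if_neg h8, ite_self]
          · exact if_neg h7
        rw [h6, h9]
        simp only [if_neg h5, if_neg hn0, if_pos hst', if_neg huw]
        ring
      · have h5 : (some s : Option (Fin r)) ≠ some t := fun h6 => hst (Option.some.inj h6)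
        have h5' : f v ≠ f u := by
          rw [hv, hu]
          exact fun h6 => hst (Option.some.inj h6).symm
        by_cases h7 : v = c ∧ u ∈ L
        · have h8 : ¬ H.Adj v u := by
            rw [h4]
            exact fun h9 => h9.2.1 h7
          have h9 : ¬ (u = c ∧ v ∈ L) := by
            rintro ⟨h10, -⟩
            apply (h.hL u h7.2).2
            rw [h10, h.hc]
          have h11 : (if u = c then (if v ∈ L then y u else 0) else 0) = 0 := by
            by_cases h12 : u = c
            · have h13 : v ∉ L := fun h13 => h9 ⟨h12, h13⟩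
              simp only [if_neg h13, ite_self]
            · exact if_neg h12
          rw [h11]
          simp only [if_neg h8, if_neg hn0, if_neg h5, if_pos h7.1, if_pos h7.2, if_neg huw]
          ring
        · have h11 : (if v = c then (if u ∈ L then y u else 0) else 0) = 0 := by
            by_cases h12 : v = c
            · have h13 : u ∉ L := fun h13 => h7 ⟨h12, h13⟩
              simp only [if_neg h13, ite_self]
            · exact if_neg h12
          rw [h11]
          by_cases h9 : u = c ∧ v ∈ L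
          · have h8 : ¬ H.Adj v u := by
              rw [h4]
              exact fun h10 => h10.2.2 h9
            simp only [if_neg h8, if_neg hn0, if_neg h5, if_pos h9.1, if_pos h9.2, if_neg huw]
            ring
          · have h8 : H.Adj v u := h4.2 ⟨h5', h7, h9⟩
            have h13 : (if u = c then (if v ∈ L then y u else 0) else 0) = 0 := by
              by_cases h12 : u = c
              · have h14 : v ∉ L := fun h14 => h9 ⟨h12, h14⟩
                simp only [if_neg h14, ite_self]
              · exact if_neg h12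
            rw [h13]
            simp only [if_pos h8, if_neg hn0, if_neg h5, if_neg huw]
            ring
  rw [Finset.sum_congr rfl fun u _ => e u, Finset.sum_add_distrib, Finset.sum_sub_distrib,
    Finset.sum_sub_distrib, Finset.sum_sub_distrib, sum_single, sum_single]
  congr 3
  by_cases h1 : v = c
  · simp only [if_pos h1]
  · simp only [if_neg h1, Finset.sum_const_zero]

open Classical in
/-- the row of `w` -/
theorem row_w (h : TyS H f w q c i L) (y : V → ℝ) :
    ∑ u, adj H w u * y u = ∑ t, y (q t) := by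
  have e : ∀ u, adj H w u * y u = ∑ t, (if u = q t then y u else 0) := by
    intro u
    unfold adj
    by_cases hu : H.Adj w u
    · obtain ⟨t, ht⟩ := (h.wn u).1 hu
      rw [if_pos hu, Finset.sum_eq_single t]
      · rw [if_pos ht]
        ring
      · intro s _ hs
        rw [if_neg]
        intro e
        exact hs (q_inj h (e.symm.trans ht))
      · intro h1
        exact absurd (Finset.mem_univ t) h1
    · rw [if_neg hu, Finset.sum_eq_zero]
      · ring
      · intro t _
        rw [if_neg]
        intro e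
        exact hu ((h.wn u).2 ⟨t, e⟩)
  rw [Finset.sum_congr rfl fun u _ => e u, Finset.sum_comm]
  exact Finset.sum_congr rfl fun t _ => sum_single (q t) y

end

end ItemTVS

open ItemTVP (cast_ncard sum_single core_sum) in
open ItemTVS in
theorem prfTVS : P_statement → TVS_statement := by
  classical
  intro hP r V _ H f w q c i L l ω P X T hr hT hl h4 h5 h6 h7 h8
  set y : V → ℝ := yv f w q c L l ω P T with hy
  have hLi : lc L f i = 0 := by
    unfold lc
    rw [Set.ncard_eq_zero (Set.toFinite _)]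
    ext v
    simp only [Set.mem_ofPred_eq, Set.mem_empty_iff_false, iff_false]
    rintro ⟨h1, h2⟩
    exact (hT.hL v h1).2 h2
  have hS : ∀ t, ∑ v, (if f v = some t then y v else 0) = 1 - T t := by
    intro t
    rw [hy, cls_t hT t]
    by_cases ht : t = i
    · rw [if_pos ht, ht, hLi]
      push_cast
      field_simp
      linarith
    · rw [if_neg ht]
      have := h4 t ht
      field_simp
      linarith
  have hSC : ∑ v, (if f v = none then 0 else y v) = (r : ℝ) - ∑ t, T t := by
    rw [core_sum f y, Finset.sum_congr rfl fun t _ => hS t, Finset.sum_sub_distrib]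
    simp
  have hcL : ∀ v ∈ L, v ≠ c := by
    intro v hv e
    apply (hT.hL v hv).2
    rw [e, hT.hc]
  have hX : ∑ v, (if v ∈ L then y v else 0) = X := by
    have e1 : ∀ v, (if v ∈ L then y v else 0) =
        if f v = none then 0 else (if v ∈ L then y v else 0) := by
      intro v
      by_cases h1 : f v = none
      · rw [if_pos h1, if_neg (fun h2 => (hT.hL v h2).1 h1)]
      · rw [if_neg h1]
    rw [Finset.sum_congr rfl fun v _ => e1 v, core_sum f (fun v => if v ∈ L then y v else 0)]
    have e2 : ∀ t, ∑ v, (if f v = some t then (if v ∈ L then y v else 0) else 0) =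
        (if t = i then 0 else lc L f t * (T t - P)) / l := by
      intro t
      by_cases ht : t = i
      · rw [if_pos ht, Finset.sum_eq_zero]
        · ring
        · intro v _
          by_cases hv : f v = some t
          · rw [if_pos hv, if_neg]
            intro h1
            apply (hT.hL v h1).2
            rw [hv, ht]
          · rw [if_neg hv]
      · have e3 : ∀ v, (if f v = some t then (if v ∈ L then y v else 0) else 0) =
            (T t - P) / l * (if v ∈ L ∧ f v = some t then 1 else 0) := by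
          intro v
          by_cases hv : f v = some t
          · rw [if_pos hv]
            by_cases h1 : v ∈ L
            · have h2 : v ≠ q t := by
                intro h3
                rw [h3] at h1
                exact hT.qL t h1
              rw [if_pos h1, if_pos ⟨h1, hv⟩, hy, y_t hT hv (hcL v h1), if_pos h1, if_neg h2]
              ring
            · rw [if_neg h1, if_neg (fun h2 => h1 h2.1)]
              ring
          · rw [if_neg hv, if_neg (fun h3 => hv h3.2)]
            ring
        rw [Finset.sum_congr rfl fun v _ => e3 v, ← Finset.mul_sum,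
          ← cast_ncard, if_neg ht]
        unfold lc
        ring
    rw [Finset.sum_congr rfl fun t _ => e2 t, ← Finset.sum_div, ← h7]
    field_simp
  have hyc : y c = P := y_c hT
  have hyw : y w = ω := y_w f w q c L l ω P T
  -- the rows of the core
  have hcore : ∀ v, f v ≠ none → ∑ u, adj H v u * y u = l * y v + ((r : ℝ) - ∑ t, T t - 1) := by
    intro v hv0
    obtain ⟨t, hv⟩ := Option.ne_none_iff_exists'.1 hv0
    rw [row_core hT y hv, hSC, hS t, hX, hyc, hyw]
    by_cases h1 : v = c
    · have ht : t = i := by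
        rw [h1, hT.hc] at hv
        exact (Option.some.inj hv).symm
      have hvL : v ∉ L := by
        intro h2
        exact hcL v h2 h1
      have h3 : v ≠ q t := by
        rw [h1]
        exact (q_ne hT t).symm
      rw [if_neg hvL, if_pos h1, if_neg h3, h1, hyc, ht]
      linarith
    · rw [if_neg h1, hy, y_t hT hv h1]
      field_simp
      ring
  -- the row of `w`
  have hroww : ∑ u, adj H w u * y u = l * ω + (∑ t, (T t + ω) - l ^ 2 * ω) / l := by
    rw [row_w hT y]
    have e1 : ∀ t, y (q t) = (T t + ω) / l := by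
      intro t
      rw [hy, y_t hT (hT.hq t) (q_ne hT t), if_pos rfl, if_neg (hT.qL t)]
      ring
    rw [Finset.sum_congr rfl fun t _ => e1 t, ← Finset.sum_div]
    field_simp
    ring
  -- the quadratic form
  set S' : ℝ := (r : ℝ) - ∑ t, T t with hS'
  set ρ : ℝ := (∑ t, (T t + ω) - l ^ 2 * ω) / l with hρ
  have hqf : qf H y = l * ∑ v, y v ^ 2 + ((S' - 1) * S' + ρ * ω) := by
    unfold qf
    have e1 : ∀ v, ∑ u, adj H v u * (y v * y u) = l * y v ^ 2 +
        (if f v = none then 0 else y v) * (S' - 1) + (if v = w then ω * ρ else 0) := by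
      intro v
      have e2 : ∑ u, adj H v u * (y v * y u) = y v * ∑ u, adj H v u * y u := by
        rw [Finset.mul_sum]
        exact Finset.sum_congr rfl fun u _ => by ring
      rw [e2]
      by_cases hv : f v = none
      · have hvw : v = w := (hT.out v).1 hv
        rw [if_pos hv, if_pos hvw, hvw, hroww, hyw]
        ring
      · have hvw : v ≠ w := fun h1 => hv ((hT.out v).2 h1)
        rw [if_neg hv, if_neg hvw, hcore v hv]
        ring
    rw [Finset.sum_congr rfl fun v _ => e1 v, Finset.sum_add_distrib, Finset.sum_add_distrib,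
      ← Finset.mul_sum, ← Finset.sum_mul, hSC, sum_single w (fun _ => ω * ρ)]
    ring
  have hpos : 0 < (S' - 1) * S' + ρ * ω := by
    have e : (S' - 1) * S' = ((r : ℝ) - 1 - ∑ t, T t) * ((r : ℝ) - ∑ t, T t) := by
      rw [hS']
      ring
    rw [e]
    exact h8
  have : Nonempty V := ⟨w⟩
  have hR := (hP V H).2.1 y
  rw [hqf] at hR
  have hsq : 0 ≤ ∑ v, y v ^ 2 := Finset.sum_nonneg fun v _ => sq_nonneg _
  by_contra hcon
  have h9 : lam H * ∑ v, y v ^ 2 ≤ l * ∑ v, y v ^ 2 :=
    mul_le_mul_of_nonneg_right (not_lt.1 hcon) hsq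
  linarith

end MP0c3a8f

end

section

/-!
# MP_0c3a8f_co: uniqueness, type `S`
-/

open Finset

namespace MP0c3a8f

namespace UNS

/-- relabelling of the classes -/
theorem tys_map {V : Type} [Fintype V] {r : ℕ} (hREL : REL_statement) {G : SimpleGraph V}
    {f : V → Option (Fin r)} {w : V} {q : Fin r → V} {c : V} {i : Fin r} {L : Finset V}
    (h : TyS G f w q c i L) (ρ : Equiv.Perm (Fin r)) :
    TyS G (fun v => (f v).map ρ) w (fun t => q (ρ.symm t)) c (ρ i) L := by
  have hnone : ∀ v, (f v).map ρ = none ↔ f v = none := fun v => Option.map_eq_none_iff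
  have hsome : ∀ v t, (f v).map ρ = some (ρ t) ↔ f v = some t := by
    intro v t
    rw [show (some (ρ t) : Option (Fin r)) = (some t).map ρ from rfl]
    exact (Option.map_injective ρ.injective).eq_iff
  have hsiz := (hREL r V G f ρ).1
  refine ⟨fun v => ?_, fun t => ?_, fun v => ?_, ?_, ?_, fun v hv => ?_, fun t => h.qL _,
    fun u v hu hv => ?_, fun t => ?_⟩
  · show (f v).map ρ = none ↔ v = w
    rw [hnone, h.out]
  · show (f (q (ρ.symm t))).map ρ = some t
    have h1 := h.hq (ρ.symm t)
    rw [h1]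
    simp
  · rw [h.wn]
    constructor
    · rintro ⟨t, rfl⟩
      exact ⟨ρ t, by simp⟩
    · rintro ⟨t, ht⟩
      exact ⟨ρ.symm t, ht⟩
  · show (f c).map ρ = some (ρ i)
    rw [hsome]
    exact h.hc
  · show c ≠ q (ρ.symm (ρ i))
    rw [Equiv.symm_apply_apply]
    exact h.cq
  · obtain ⟨h1, h2⟩ := h.hL v hv
    constructor
    · show (f v).map ρ ≠ none
      exact fun h' => h1 ((hnone v).1 h')
    · show (f v).map ρ ≠ some (ρ i)
      exact fun h' => h2 ((hsome v i).1 h')
  · show G.Adj u v ↔ (f u).map ρ ≠ (f v).map ρ ∧ ¬ (u = c ∧ v ∈ L) ∧ ¬ (v = c ∧ u ∈ L)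
    rw [h.core u v (fun h' => hu ((hnone u).2 h')) (fun h' => hv ((hnone v).2 h'))]
    have h3 : (f u).map ρ ≠ (f v).map ρ ↔ f u ≠ f v :=
      not_congr (Option.map_injective ρ.injective).eq_iff
    rw [h3]
  · have h1 := hsiz (ρ.symm t)
    rw [Equiv.apply_symm_apply] at h1
    rw [h1]
    exact h.room _

theorem lc_map {V : Type} {r : ℕ} (L : Finset V) (f : V → Option (Fin r))
    (ρ : Equiv.Perm (Fin r)) (t : Fin r) :
    lc L (fun v => (f v).map ρ) (ρ t) = lc L f t := by
  unfold lc
  congr 1
  ext v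
  simp only [Set.mem_ofPred_eq]
  rw [show (some (ρ t) : Option (Fin r)) = (some t).map ρ from rfl,
    (Option.map_injective ρ.injective).eq_iff]

/-- the number of edges determines the number of leaves -/
theorem card_eq {r m : ℕ} (hMEMW : MEMW_statement) (hMEMX : MEMX_statement) (hr : 3 ≤ r)
    {V : Type} [Fintype V] {G : SimpleGraph V} {f : V → Option (Fin r)} {w : V}
    {q : Fin r → V} {c : V} {i : Fin r} {L : Finset V} (h : TyS G f w q c i L)
    (hm : G.edgeSet.ncard = m) :
    2 * m + 2 * L.card + ∑ t, siz f t ^ 2 = (∑ t, siz f t) ^ 2 + 2 * r := by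
  obtain ⟨h1, h2, h3, -, h5⟩ := hMEMX r V G f w q c i L hr h
  have h6 := (hMEMW r V G f w hr h1 h.out h5 (fun t => (h3 t).ge)).2.2.2.1
  rw [h2, hm] at h6
  simp only [h3] at h6
  simpa using h6

end UNS

open UNS UNP in
theorem prfUNS : MEMW_statement → MEMX_statement → GVG_statement → ISOS_statement →
    REL_statement → UNS_statement := by
  classical
  intro hMEMW hMEMX hGVG hISOS hREL r m σ V U _ _ G H hr hGm hHm hG hH
  obtain ⟨f, w, q, c, i, L, hT, hs, hmax, hleaf, hev⟩ := hG
  obtain ⟨f', w', q', c', i', L', hT', hs', hmax', hleaf', hev'⟩ := hH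
  have hLL : L.card = L'.card := by
    have h1 := card_eq hMEMW hMEMX hr hT hGm
    have h2 := card_eq hMEMW hMEMX hr hT' hHm
    simp_rw [hs] at h1
    simp_rw [hs'] at h2
    omega
  have hii : σ i = σ i' := le_antisymm (hmax' i) (hmax i')
  set τ : Equiv.Perm (Fin r) := Equiv.swap i i' with hτ
  have hτσ : ∀ t, σ (τ t) = σ t := by
    intro t
    rw [hτ, Equiv.swap_apply_def]
    split_ifs with h1 h2
    · rw [h1, hii]
    · rw [h2, hii]
    · rfl
  have hτi : τ i = i' := by rw [hτ, Equiv.swap_apply_left]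
  have hτne : ∀ t, t ≠ i → τ t ≠ i' := fun t ht h => ht (τ.injective (by rw [h, hτi]))
  obtain ⟨π, hπ1, hπ2, hπ3⟩ := hGVG r 0 (Finset.univ.filter fun t => t ≠ i)
    (fun t => -(σ t : ℤ)) (lc L f) (fun t => lc L' f' (τ t)) (by
      intro t ht
      have hti : t = i := by simpa using ht
      subst hti
      rw [hτi, lc_eq_zero fun v hv => (hT.hL v hv).2, lc_eq_zero fun v hv => (hT'.hL v hv).2])
    (fun t _ => ⟨Nat.zero_le _, Nat.zero_le _⟩) (by
      intro k hk l hl hkl
      have hk' : k ≠ i := by simpa using hk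
      have hl' : l ≠ i := by simpa using hl
      have hkl' : σ k < σ l := by
        have h1 : -(σ l : ℤ) < -(σ k : ℤ) := hkl
        omega
      refine ⟨lc_eq_zero fun v hv hvk => ?_, lc_eq_zero fun v hv hvk => ?_⟩
      · have := hleaf v hv k hvk l hl'
        omega
      · have := hleaf' v hv (τ k) hvk (τ l) (hτne l hl')
        rw [hτσ, hτσ] at this
        omega) (by
      intro k hk l hl hkl
      have hk' : k ≠ i := by simpa using hk
      have hl' : l ≠ i := by simpa using hl
      have hkl' : σ k = σ l := by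
        have h1 : -(σ k : ℤ) = -(σ l : ℤ) := hkl
        omega
      exact ⟨hev k l hk' hl' hkl',
        hev' (τ k) (τ l) (hτne k hk') (hτne l hl') (by rw [hτσ, hτσ, hkl'])⟩) (by
      rw [sum_lc L f fun v hv => (hT.hL v hv).1, Equiv.sum_comp τ (fun t => lc L' f' t),
        sum_lc L' f' fun v hv => (hT'.hL v hv).1, hLL])
  have hπi : π i = i := hπ1 i (by simp)
  have hπσ : ∀ t, σ (π t) = σ t := by
    intro t
    have h1 : -(σ (π t) : ℤ) = -(σ t : ℤ) := hπ2 t
    omega
  set ρ : Equiv.Perm (Fin r) := π.trans τ with hρ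
  have hi2 : ρ i = i' := by
    rw [hρ, Equiv.trans_apply, hπi, hτi]
  have hρσ : ∀ t, σ (ρ t) = σ t := by
    intro t
    rw [hρ, Equiv.trans_apply, hτσ, hπσ]
  have hT1 := tys_map hREL hT ρ
  rw [hi2] at hT1
  refine hISOS r V U G H _ f' w w' _ q' c c' i' L L' hT1 hT' ?_ ?_
  · intro t
    have h1 := (hREL r V G f ρ).1 (ρ.symm t)
    rw [Equiv.apply_symm_apply] at h1
    rw [h1, hs, hs']
    have h2 := hρσ (ρ.symm t)
    rw [Equiv.apply_symm_apply] at h2
    exact h2.symm
  · intro t
    have h1 := lc_map L f ρ (ρ.symm t)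
    rw [Equiv.apply_symm_apply] at h1
    rw [h1]
    have h2 := hπ3 (ρ.symm t)
    have h3 : τ (π (ρ.symm t)) = t := by
      have : ρ (ρ.symm t) = t := Equiv.apply_symm_apply _ _
      rw [hρ, Equiv.trans_apply] at this
      exact this
    rw [← h2]
    show lc L' f' (τ (π (ρ.symm t))) = lc L' f' t
    rw [h3]

end MP0c3a8f

end

section

/-!
# MP_0c3a8f_co, item WMB: comparison graphs on the same vertex set
-/

open Finset

namespace MP0c3a8f

namespace WMBa

/-- Cardinality of a set of the subtype. -/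
theorem ncard_sub {V : Type} (S : Set V) (P : V → Prop) (h : ∀ v, P v → v ∈ S) :
    {v : S | P v.1}.ncard = {v | P v}.ncard := by
  rw [← Set.ncard_image_of_injective _ Subtype.val_injective]
  congr 1
  ext v
  constructor
  · rintro ⟨x, hx, rfl⟩
    exact hx
  · intro hv
    exact ⟨⟨v, h v hv⟩, hv, rfl⟩

/-- Missing pairs of the subtype. -/
theorem miss_sub {V : Type} {r : ℕ} (H : SimpleGraph V) (g : V → Option (Fin r)) (S : Set V)
    (h : ∀ v, g v ≠ none → v ∈ S) :
    (missSet (H.comap (Subtype.val : S → V)) (fun v : S => g v.1)).ncard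
      = (missSet H g).ncard := by
  rw [← Set.ncard_image_of_injective _ (Sym2.map.injective Subtype.val_injective)]
  congr 1
  ext e
  constructor
  · rintro ⟨_, ⟨v, w, rfl, h1, h2, h3, h4⟩, rfl⟩
    exact ⟨v.1, w.1, rfl, h1, h2, h3, h4⟩
  · rintro ⟨v, w, rfl, h1, h2, h3, h4⟩
    exact ⟨s(⟨v, h v h1⟩, ⟨w, h w h2⟩), ⟨_, _, rfl, h1, h2, h3, h4⟩, rfl⟩

end WMBa

open WMBa in
theorem prfWMB : RSI_statement → MEMW_statement → WMB_statement := by
  classical
  intro hRSI hMEM W _ F r m V _ G H g w i j h3 hF hG hw hij hi an ni nj h1 hs hm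
  obtain ⟨S, hS⟩ : ∃ S : Set V, S = {v | g v ≠ none ∨ v = w} := ⟨_, rfl⟩
  have mS : ∀ v, v ∈ S ↔ g v ≠ none ∨ v = w := fun v => by rw [hS]; exact Iff.rfl
  have hSA : ∀ u v, H.Adj u v → u ∈ S := by
    intro u v h
    rw [mS]
    by_contra hn
    rw [not_or, not_not] at hn
    exact an u v hn.1 hn.2 h
  have : Fintype S := Fintype.ofFinite _
  obtain ⟨e1, e2⟩ := hRSI V H S ⟨w, (mS w).2 (Or.inr rfl)⟩ fun u v h => ⟨hSA u v h,
    hSA v u h.symm⟩
  refine e1.trans ?_
  have some_S : ∀ (t : Fin r) (v : V), g v = some t → v ∈ S := fun t v hv =>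
    (mS v).2 (Or.inl (by rw [hv]; exact Option.some_ne_none t))
  have hsiz : ∀ t, siz (fun v : S => g v.1) t = siz g t := fun t =>
    ncard_sub S (fun v => g v = some t) (some_S t)
  have hnbn : ∀ t, nbn (H.comap (Subtype.val : S → V)) (fun v : S => g v.1)
      ⟨w, (mS w).2 (Or.inr rfl)⟩ t = nbn H g w t := fun t =>
    ncard_sub S (fun v => g v = some t ∧ H.Adj w v) fun v hv => some_S t v hv.1
  have hmis : (missSet (H.comap (Subtype.val : S → V)) (fun v : S => g v.1)).ncard
      = (missSet H g).ncard := miss_sub H g S fun v hv => (mS v).2 (Or.inl hv)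
  have hind : Indep (H.comap (Subtype.val : S → V)) (fun v : S => g v.1) :=
    fun u v hu huv h => hi u.1 v.1 hu huv h
  obtain ⟨f1, f2, -, f4, f5⟩ := hMEM r S (H.comap (Subtype.val : S → V)) (fun v : S => g v.1)
    ⟨w, (mS w).2 (Or.inr rfl)⟩ h3 hind (by
      intro v
      rw [Subtype.ext_iff]
      constructor
      · intro h
        exact ((mS v.1).1 v.2).resolve_left (fun hn => hn h)
      · intro h
        have h' : v.1 = w := h
        change g v.1 = none
        rw [h', hw]) (fun t => by rw [hsiz, hmis]; exact hs t)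
      (fun t => by rw [hnbn]; exact h1 t)
  refine hG.2 S _ ⟨f5 W F i j hF hij (by rw [hnbn]; exact ni) (by rw [hnbn]; exact nj), ?_,
    f2, f1⟩
  have e3 : ∑ t, nbn (H.comap (Subtype.val : S → V)) (fun v : S => g v.1)
      ⟨w, (mS w).2 (Or.inr rfl)⟩ t = ∑ t, nbn H g w t :=
    Finset.sum_congr rfl fun t _ => hnbn t
  have e4 : ∑ t, siz (fun v : S => g v.1) t ^ 2 = ∑ t, siz g t ^ 2 :=
    Finset.sum_congr rfl fun t _ => by rw [hsiz]
  have e5 : ∑ t, siz (fun v : S => g v.1) t = ∑ t, siz g t :=
    Finset.sum_congr rfl fun t _ => hsiz t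
  rw [e3, e4, e5, hmis] at f4
  omega

end MP0c3a8f

end

section

/-!
# MP_0c3a8f_co: nearly balanced classes (item YNBS)
-/

open Finset

namespace MP0c3a8f

theorem prfYNBS : CABZ_statement → PZN_statement → PSNS_statement → PEKS_statement →
    MEMZ_statement → YNBS_statement := by
  intro hCAB hPZN hPSN hPEK hMEM W _ F r C hr hF hC
  obtain ⟨n₁, h₁⟩ := hCAB W F r C hr hF hC
  obtain ⟨n₂, h₂⟩ := hPZN W F r C hr hF hC
  obtain ⟨ε, hε, n₃, h₃⟩ := hPSN W F r C hr hF hC
  obtain ⟨n₄, h₄⟩ := hPEK W F r C hr hF hC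
  obtain ⟨n₅, h₅⟩ := ItemYNB.big r C hr hC
  refine ⟨ε, hε, n₁ + n₂ + n₃ + n₄ + n₅, ?_⟩
  intro V _ G g n m hn hG hNK hdev
  have hbig : ∀ t, 2 ≤ siz g t := h₅ V g n (by omega) hNK.tot hNK.dev
  rcases h₁ V G g n m (by omega) hG hNK with ⟨hm, ho⟩ | ⟨hm, ho⟩
  · left
    obtain ⟨w, hT⟩ := h₂ V G g n m (by omega) hG hNK hm ho
    refine ⟨w, hT, ?_⟩
    intro t
    by_contra hcon
    have h0 : nbn G g w t = 0 := by omega
    have hcol := ((hMEM r V G g w hr hT (fun t => by have := hbig t; omega)).1).2 ⟨t, h0⟩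
    exact hG.1.notPartite hcol
  · right
    obtain ⟨w, q, c, i, L, hT, hi⟩ := h₃ V G g n m (by omega) hG hNK hdev ho hm
    obtain ⟨a, b⟩ := h₄ V G g w q c i L n m (by omega) hG hNK hT
    exact ⟨w, q, c, i, L, hT, hi, a, b⟩

end MP0c3a8f

end
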