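import Pool.Agent.Work.MP_0c3a8f_co.PB.Stmts12
import Pool.Agent.Work.MP_0c3a8f_co.Bd.B21
import Pool.Agent.Work.MP_0c3a8f_co.Bd.B29
import Pool.Agent.Work.MP_0c3a8f_co.PB.ItemPST

/-! Bundle of small proof modules (one section per former module). -/

section

/-!
# MP_0c3a8f_co: item CENS (type `S`: the centre of the star is in the larger class)
-/

open Finset

namespace MP0c3a8f

namespace ItemCENS

/-- the main inequality -/
theorem core1 {a u α β K XG XH PG PH E E' MG MH θ : ℝ}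
    (ha : 2 ≤ a) (hu0 : 0 < u) (hu : u ≤ 1 / 32) (hau : a * u ≤ 1 / 16) (hα : 0 < α)
    (hαβ : α < β) (hβ : β ≤ 4 * α) (haβ : a * β ≤ 1) (hK : 0 < K)
    (hE : E = 1 - a * (1 - a * β) * (1 - α) * u ^ 2)
    (hE' : E' = 1 - a * (1 - a * α) * (1 - β) * u ^ 2)
    (hMG : MG = 2 * α * β - (a * α ^ 2 * (1 - β) + β ^ 2 * (1 - a * α)) * u)
    (hMH : MH = 2 * α * β - (α ^ 2 * (1 - a * β) + a * β ^ 2 * (1 - α)) * u)
    (hG : (α * (a * PG) + β * XG) * E' = a * K * u * MG)
    (hH : (α * XH + β * (a * PH)) * E = a * K * u * MH)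
    (hθ : θ = α * (a * PG - XH) + β * (XG - a * PH)) : 0 < θ := by
  have hβ0 : 0 < β := by linarith
  have ha0 : 0 < a := by linarith
  have hg : 0 < β - α := by linarith
  have haα : a * α ≤ a * β := mul_le_mul_of_nonneg_left hαβ.le ha0.le
  have haα0 : 0 < a * α := mul_pos ha0 hα
  have h2α : 2 * α ≤ a * α := mul_le_mul_of_nonneg_right ha hα.le
  have h2β : 2 * β ≤ a * β := mul_le_mul_of_nonneg_right ha hβ0.le
  have hau2 : a * u ^ 2 ≤ 1 / 512 := by
    have h1 : (a * u) * u ≤ 1 / 16 * (1 / 32) :=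
      mul_le_mul hau hu hu0.le (by norm_num)
    calc a * u ^ 2 = (a * u) * u := by ring
      _ ≤ _ := by linarith
  have hau20 : 0 ≤ a * u ^ 2 := by positivity
  have hp2' : (1 - a * α) * (1 - β) ≤ 1 :=
    mul_le_one₀ (by linarith) (by linarith) (by linarith)
  have hE2 : 1 / 2 ≤ E' := by
    have : (1 - a * α) * (1 - β) * (a * u ^ 2) ≤ 1 * (a * u ^ 2) :=
      mul_le_mul_of_nonneg_right hp2' hau20
    rw [hE']; linarith
  have hEE : E - E' = a * (a - 1) * (β - α) * u ^ 2 := by rw [hE, hE']; ring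
  have hEE0 : 0 ≤ E - E' := by
    rw [hEE]
    have : 0 ≤ a - 1 := by linarith
    positivity
  have hE'0 : 0 < E' := by linarith
  have hE0 : 0 < E := by linarith
  -- `M_G ≥ 0`
  have hMG0 : 0 ≤ MG := by
    have h1 : a * α ^ 2 * (1 - β) * u ≤ a * α ^ 2 * 1 * u := by
      apply mul_le_mul_of_nonneg_right _ hu0.le
      exact mul_le_mul_of_nonneg_left (by linarith) (by positivity)
    have h2 : a * α ^ 2 * 1 * u ≤ α * β * (1 / 16) := by
      have h3 : α * α * (a * u) ≤ α * β * (1 / 16) :=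
        mul_le_mul (mul_le_mul_of_nonneg_left hαβ.le hα.le) hau (by positivity) (by positivity)
      have h4 : a * α ^ 2 * 1 * u = α * α * (a * u) := by ring
      rw [h4]; exact h3
    have h5 : β ^ 2 * (1 - a * α) * u ≤ β ^ 2 * 1 * u := by
      apply mul_le_mul_of_nonneg_right _ hu0.le
      exact mul_le_mul_of_nonneg_left (by linarith) (by positivity)
    have h6 : β ^ 2 * 1 * u ≤ α * β * (1 / 8) := by
      have h7 : β * β * u ≤ β * (4 * α) * (1 / 32) :=
        mul_le_mul (mul_le_mul_of_nonneg_left hβ hβ0.le) hu hu0.le (by positivity)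
      have h8 : β ^ 2 * 1 * u = β * β * u := by ring
      rw [h8]; linarith
    have h9 : 0 < α * β := mul_pos hα hβ0
    rw [hMG]
    have h10 : (a * α ^ 2 * (1 - β) + β ^ 2 * (1 - a * α)) * u
        = a * α ^ 2 * (1 - β) * u + β ^ 2 * (1 - a * α) * u := by ring
    rw [h10]
    linarith
  have hMM : MG - MH = (a - 1) * (β - α) * (β + α) * u := by rw [hMG, hMH]; ring
  have hMM0 : 0 < MG - MH := by
    rw [hMM]
    have h1 : 0 < a - 1 := by linarith
    have h2 : 0 < β + α := by linarith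
    positivity
  have haK : 0 < a * K * u := by positivity
  -- `SG ≥ a K u MG / E`
  have hSG0 : 0 ≤ α * (a * PG) + β * XG := by
    by_contra hcon
    push Not at hcon
    have h1 : (α * (a * PG) + β * XG) * E' < 0 := mul_neg_of_neg_of_pos hcon hE'0
    have h2 : 0 ≤ a * K * u * MG := mul_nonneg haK.le hMG0
    linarith
  have h1 : (α * (a * PG) + β * XG) * E' ≤ (α * (a * PG) + β * XG) * E :=
    mul_le_mul_of_nonneg_left (by linarith) hSG0
  have h2 : θ * E = (α * (a * PG) + β * XG) * E - (α * XH + β * (a * PH)) * E := by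
    rw [hθ]; ring
  have h3 : 0 < a * K * u * (MG - MH) := mul_pos haK hMM0
  have h4 : 0 < θ * E := by
    rw [h2, hH]
    linarith
  by_contra hcon
  push Not at hcon
  have : θ * E ≤ 0 := mul_nonpos_of_nonpos_of_nonneg hcon hE0.le
  linarith

theorem real {a l α β ω σi σs X P Ti Ts : ℝ} (ha : 2 ≤ a) (hl : 32 ≤ l) (hal : 16 * a ≤ l)
    (hαd : α * (l + σi) = 1) (hβd : β * (l + σs) = 1) (hα : 0 < α) (hαβ : α < β)
    (hβ : β ≤ 4 * α) (haβ : a * β ≤ 1) (hω : ω < l)
    (h1 : Ti * (l + σi) = l + a * P - ω) (h2 : Ts * (l + σs) = l + X - ω)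
    (h3 : l * P = Ts - X) (h4 : l * X = a * (Ti - P)) :
    ∃ X' P' Ti' Ts' : ℝ, Ti' * (l + σi) = l + X' - ω ∧ Ts' * (l + σs) = l + a * P' - ω ∧
      l * P' = Ti' - X' ∧ l * X' = a * (Ts' - P') ∧ 0 < Ti + Ts - Ti' - Ts' := by
  have hl0 : 0 < l := by linarith
  obtain ⟨u, hu⟩ : ∃ u : ℝ, u = 1 / l := ⟨_, rfl⟩
  have hul : u * l = 1 := by rw [hu]; field_simp
  have hu0 : 0 < u := by rw [hu]; positivity
  have hu1 : u ≤ 1 / 32 := by
    rw [hu]; exact one_div_le_one_div_of_le (by norm_num) hl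
  have hau : a * u ≤ 1 / 16 := by
    rw [hu, mul_one_div, div_le_iff₀ hl0]
    linarith
  have ha0 : 0 < a := by linarith
  have hβ0 : 0 < β := by linarith
  obtain ⟨K, hK⟩ : ∃ K : ℝ, K = l - ω := ⟨_, rfl⟩
  have hK0 : 0 < K := by rw [hK]; linarith
  obtain ⟨E, hE⟩ : ∃ E : ℝ, E = 1 - a * (1 - a * β) * (1 - α) * u ^ 2 := ⟨_, rfl⟩
  have hEpos : 0 < E := by
    have h2α : 2 * α ≤ a * α := mul_le_mul_of_nonneg_right ha hα.le
    have haα : a * α ≤ a * β := mul_le_mul_of_nonneg_left hαβ.le ha0.le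
    have haβ0 : 0 < a * β := mul_pos ha0 hβ0
    have hp1' : (1 - a * β) * (1 - α) ≤ 1 :=
      mul_le_one₀ (by linarith) (by linarith) (by linarith)
    have hau2 : a * u ^ 2 ≤ 1 / 512 := by
      have h1 : (a * u) * u ≤ 1 / 16 * (1 / 32) :=
        mul_le_mul hau hu1 hu0.le (by norm_num)
      calc a * u ^ 2 = (a * u) * u := by ring
        _ ≤ _ := by linarith
    have hau20 : 0 ≤ a * u ^ 2 := by positivity
    have h5 : (1 - a * β) * (1 - α) * (a * u ^ 2) ≤ 1 * (a * u ^ 2) :=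
      mul_le_mul_of_nonneg_right hp1' hau20
    rw [hE]; linarith
  -- the system for `G`
  have hTs : Ts = β * (K + X) := by
    rw [hK]; linear_combination β * h2 - Ts * hβd
  have hTi : Ti = α * (K + a * P) := by
    rw [hK]; linear_combination α * h1 - Ti * hαd
  have hP : P = (β * K - (1 - β) * X) * u := by
    have h5 : l * P = β * K - (1 - β) * X := by rw [h3, hTs]; ring
    linear_combination u * h5 - P * hul
  have hXG : X = a * (α * K - (1 - a * α) * P) * u := by
    have h5 : l * X = a * (α * K - (1 - a * α) * P) := by rw [h4, hTi]; ring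
    linear_combination u * h5 - X * hul
  have hXE : X * (1 - a * (1 - a * α) * (1 - β) * u ^ 2)
      = a * K * u * (α - (1 - a * α) * β * u) := by
    rw [hP] at hXG
    linear_combination hXG
  have hPE : P * (1 - a * (1 - a * α) * (1 - β) * u ^ 2)
      = K * u * (β - (1 - β) * a * α * u) := by
    have h5 : P * (1 - a * (1 - a * α) * (1 - β) * u ^ 2)
        = (β * K * (1 - a * (1 - a * α) * (1 - β) * u ^ 2)
          - (1 - β) * (X * (1 - a * (1 - a * α) * (1 - β) * u ^ 2))) * u := by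
      rw [hP]; ring
    rw [h5, hXE]; ring
  -- the system for `H`
  obtain ⟨Xh, hXh⟩ : ∃ Xh : ℝ, Xh = a * K * u * (β - (1 - a * β) * α * u) / E := ⟨_, rfl⟩
  have hXH : Xh * E = a * K * u * (β - (1 - a * β) * α * u) := by rw [hXh]; field_simp
  obtain ⟨P', hP'⟩ : ∃ P' : ℝ, P' = (α * K - (1 - α) * Xh) * u := ⟨_, rfl⟩
  have hPH : P' * E = K * u * (α - (1 - α) * a * β * u) := by
    have h5 : P' * E = (α * K * E - (1 - α) * (Xh * E)) * u := by rw [hP']; ring
    rw [h5, hXH, hE]; ring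
  have hXh' : Xh = a * (β * K - (1 - a * β) * P') * u := by
    rw [hP']
    rw [hE] at hXH
    linear_combination hXH
  refine ⟨Xh, P', α * (K + Xh), β * (K + a * P'), ?_, ?_, ?_, ?_, ?_⟩
  · rw [hK]; linear_combination (l - ω + Xh) * hαd
  · rw [hK]; linear_combination (l - ω + a * P') * hβd
  · rw [hP']
    linear_combination (α * K - (1 - α) * Xh) * hul
  · linear_combination l * hXh' + a * (β * K - (1 - a * β) * P') * hul
  · refine core1 (XG := X) (XH := Xh) (PG := P) (PH := P') ha hu0 hu1 hau hα hαβ hβ haβ hK0 hE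
      rfl rfl rfl ?_ ?_ ?_
    · linear_combination α * a * hPE + β * hXE
    · linear_combination α * hXH + β * a * hPH
    · rw [hTi, hTs]; ring

section

variable {V : Type} {r : ℕ} {G : SimpleGraph V} {g : V → Option (Fin r)} {w : V}
  {q : Fin r → V} {c : V} {i : Fin r} {L : Finset V}

theorem hw (hT : TyS G g w q c i L) : g w = none := (hT.out w).2 rfl

theorem c_notin (hT : TyS G g w q c i L) : c ∉ L := fun h => (hT.hL c h).2 hT.hc

theorem c_ne (hT : TyS G g w q c i L) (t : Fin r) : c ≠ q t := by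
  intro h
  have h1 := hT.hq t
  rw [← h, hT.hc] at h1
  have h2 : i = t := Option.some_injective _ h1
  subst h2
  exact hT.cq h

theorem muv_eq [Fintype V] (hT : TyS G g w q c i L) (z : V → ℝ) {v : V} {t : Fin r}
    (hv : g v = some t) (hti : t ≠ i) [Decidable (v ∈ L)] :
    muv G g z v = if v ∈ L then z c else 0 := by
  classical
  unfold muv
  have hvp : v ≠ c := fun e => hti (by
    have h1 := hT.hc
    rw [← e, hv] at h1
    exact Option.some_injective _ h1)
  have hv0 : g v ≠ none := by rw [hv]; simp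
  have h1 : ∀ u, (g v ≠ none ∧ g u ≠ none ∧ g u ≠ g v ∧ ¬ G.Adj v u) ↔ (u = c ∧ v ∈ L) := by
    intro u
    constructor
    · rintro ⟨_, h1, h2, h3⟩
      rw [hT.core v u hv0 h1] at h3
      by_contra hcon
      exact h3 ⟨h2.symm, fun h => hvp h.1, hcon⟩
    · rintro ⟨rfl, h⟩
      have hp : g u ≠ none := by rw [hT.hc]; simp
      refine ⟨hv0, hp, ?_, ?_⟩
      · rw [hT.hc, hv]
        exact fun h => hti (Option.some_injective _ h).symm
      · rw [hT.core v _ hv0 hp]
        rintro ⟨_, _, h2⟩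
        exact h2 ⟨rfl, h⟩
  simp only [h1]
  by_cases hvL : v ∈ L
  · simp [hvL]
  · simp [hvL]

theorem omv_eq [Fintype V] (hT : TyS G g w q c i L) (z : V → ℝ) {v : V} {t : Fin r}
    (hv : g v = some t) [Decidable (v = q t)] :
    omv G g z v = if v = q t then z w else 0 := by
  classical
  unfold omv
  have h1 : ∀ u, (g u = none ∧ G.Adj v u) ↔ (u = w ∧ v = q t) := by
    intro u
    constructor
    · rintro ⟨h1, h2⟩
      have hu : u = w := (hT.out u).1 h1
      rw [hu] at h2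
      obtain ⟨s, hs⟩ := (hT.wn v).1 h2.symm
      have h3 : s = t := by
        have h4 := hT.hq s
        rw [← hs, hv] at h4
        exact (Option.some_injective _ h4).symm
      exact ⟨hu, by rw [hs, h3]⟩
    · rintro ⟨rfl, h⟩
      exact ⟨hw hT, ((hT.wn v).2 ⟨t, h⟩).symm⟩
  simp only [h1]
  by_cases hvL : v = q t
  · simp [hvL]
  · simp [hvL]

theorem cw_muv [Fintype V] (hT : TyS G g w q c i L) (z : V → ℝ) {t : Fin r} (hti : t ≠ i) :
    cw (fun v => muv G g z v) g (some t) = lc L g t * z c := by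
  classical
  unfold cw lc
  have h1 : ∀ v, (if g v = some t then muv G g z v else 0)
      = if (v ∈ L ∧ g v = some t) then z c else 0 := by
    intro v
    by_cases h : g v = some t
    · rw [if_pos h, muv_eq hT z h hti]; simp [h]
    · simp [h]
  simp only [h1]
  rw [← Finset.sum_filter, Finset.sum_const, nsmul_eq_mul,
    Set.ncard_eq_toFinset_card _ (Set.toFinite _)]
  congr 3
  ext v
  simp

theorem cw_omv [Fintype V] (hT : TyS G g w q c i L) (z : V → ℝ) (t : Fin r) :
    cw (fun v => omv G g z v) g (some t) = z w := by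
  classical
  unfold cw
  have h1 : ∀ v, (if g v = some t then omv G g z v else 0) = if v = q t then z w else 0 := by
    intro v
    by_cases h : g v = some t
    · rw [if_pos h, omv_eq hT z h]
    · rw [if_neg h, if_neg]
      rintro rfl
      exact h (hT.hq t)
  simp only [h1]
  simp

theorem muv_center [Fintype V] (hT : TyS G g w q c i L) (z : V → ℝ) :
    muv G g z c = ∑ u ∈ L, z u := by
  classical
  unfold muv
  have h1 : ∀ u, (g c ≠ none ∧ g u ≠ none ∧ g u ≠ g c ∧ ¬ G.Adj c u) ↔ u ∈ L := by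
    intro u
    have hp : g c ≠ none := by rw [hT.hc]; simp
    constructor
    · rintro ⟨_, h1, h2, h3⟩
      rw [hT.core _ u hp h1] at h3
      by_contra hcon
      refine h3 ⟨h2.symm, fun h => hcon h.2, fun h => h2 (by rw [h.1])⟩
    · intro h
      obtain ⟨h1, h2⟩ := hT.hL u h
      refine ⟨hp, h1, ?_, ?_⟩
      · rw [hT.hc]; exact h2
      · rw [hT.core _ _ hp h1]
        rintro ⟨_, h3, _⟩
        exact h3 ⟨rfl, h⟩
  simp only [h1]
  simp

theorem muv_zero [Fintype V] (hT : TyS G g w q c i L) (z : V → ℝ) {v : V} (hv : g v = some i)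
    (hvq : v ≠ c) : muv G g z v = 0 := by
  classical
  unfold muv
  refine Finset.sum_eq_zero fun u _ => ?_
  rw [if_neg]
  rintro ⟨h0, h1, h2, h3⟩
  rw [hT.core _ u h0 h1] at h3
  apply h3
  refine ⟨h2.symm, fun h => hvq h.1, fun h => ?_⟩
  exact (hT.hL v h.2).2 hv

theorem cw_muv_center [Fintype V] (hT : TyS G g w q c i L) (z : V → ℝ) :
    cw (fun v => muv G g z v) g (some i) = ∑ u ∈ L, z u := by
  classical
  unfold cw
  have h1 : ∀ v, (if g v = some i then muv G g z v else 0)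
      = if v = c then ∑ u ∈ L, z u else 0 := by
    intro v
    by_cases h : v = c
    · rw [if_pos h, h, if_pos hT.hc, muv_center hT z]
    · rw [if_neg h]
      by_cases h2 : g v = some i
      · rw [if_pos h2, muv_zero hT z h2 h]
      · rw [if_neg h2]
  simp only [h1]
  simp

/-- the equations for `G` -/
theorem sysG [Fintype V] (hT : TyS G g w q c i L) {s : Fin r} (hs : ∀ v ∈ L, g v = some s)
    (hsi : s ≠ i) (z : V → ℝ) {n : ℕ} {l : ℝ}
    (hrow : ∀ v t, g v = some t → l * z v = tv g z n t - muv G g z v + omv G g z v)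
    (heig : ∑ u, adj G w u * z u = l * z w) :
    l * z c = tv g z n i - ∑ u ∈ L, z u ∧
    l * ∑ u ∈ L, z u = L.card * (tv g z n s - z c) ∧
    l * z w = ∑ t, z (q t) ∧
    l * ∑ t, z (q t) = ∑ t, tv g z n t + r * z w := by
  classical
  have h1 : l * z c = tv g z n i - ∑ u ∈ L, z u := by
    have h := hrow _ i hT.hc
    rw [muv_center hT z, omv_eq hT z hT.hc, if_neg (c_ne hT i), add_zero] at h
    exact h
  have hrowL : ∀ v ∈ L, l * z v = tv g z n s - z c := by
    intro v hv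
    have h := hrow v s (hs v hv)
    have hne : v ≠ q s := by
      rintro rfl
      exact hT.qL s hv
    rw [muv_eq hT z (hs v hv) hsi, if_pos hv, omv_eq hT z (hs v hv), if_neg hne, add_zero] at h
    exact h
  have h2 : l * ∑ u ∈ L, z u = L.card * (tv g z n s - z c) := by
    rw [Finset.mul_sum, Finset.sum_congr rfl hrowL, Finset.sum_const, nsmul_eq_mul]
  have h3 : l * z w = ∑ t, z (q t) := by
    rw [← heig]
    have h4 : ∀ u, adj G w u * z u = ∑ t, if u = q t then z (q t) else 0 := by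
      intro u
      unfold adj
      by_cases h : ∃ t, u = q t
      · rw [if_pos ((hT.wn u).2 h), one_mul]
        obtain ⟨t, rfl⟩ := h
        rw [Finset.sum_eq_single t]
        · rw [if_pos rfl]
        · intro t' _ ht'
          rw [if_neg]
          intro h
          exact ht' (MEMXx.q_inj hT h).symm
        · intro h
          exact absurd (Finset.mem_univ t) h
      · rw [if_neg (fun h' => h ((hT.wn u).1 h')), zero_mul, Finset.sum_eq_zero]
        intro t _
        rw [if_neg (fun h' => h ⟨t, h'⟩)]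
    simp only [h4]
    rw [Finset.sum_comm]
    simp
  refine ⟨h1, h2, h3, ?_⟩
  rw [Finset.mul_sum]
  have h5 : ∀ t, l * z (q t) = tv g z n t + z w := by
    intro t
    have h := hrow _ t (hT.hq t)
    rw [omv_eq hT z (hT.hq t), if_pos rfl] at h
    by_cases hti : t = i
    · subst hti
      rw [muv_zero hT z (hT.hq t) (Ne.symm (c_ne hT t)), sub_zero] at h
      exact h
    · rw [muv_eq hT z (hT.hq t) hti, if_neg (hT.qL t), sub_zero] at h
      exact h
  rw [Finset.sum_congr rfl (fun t _ => h5 t), Finset.sum_add_distrib, Finset.sum_const,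
    Finset.card_univ, Fintype.card_fin, nsmul_eq_mul]

end

end ItemCENS

open ItemCENS in
theorem prfCENS : P_statement → FLU_statement → TCG_statement → TVS_statement →
    CENS_statement := by
  classical
  intro _hP hF hTC hTV r C hr hC
  obtain ⟨C₁, n₁, hC₁, h₁⟩ := hF r C hr hC
  obtain ⟨n₂, hn₂⟩ := exists_nat_ge ((6 * C₁ + C₁ * r + 32 * C + 512 * r + 64) ^ 4)
  refine ⟨n₁ + n₂, ?_⟩
  intro V U _ _ G H f f' w w' q q' c c' s i L L' n hn hTG hTH hsi hNK hσ hlt hL hL' hcard h2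
  obtain ⟨h, hh⟩ : ∃ h : ℝ, h = Real.sqrt (Real.sqrt n) := ⟨_, rfl⟩
  have hbig : 6 * C₁ + C₁ * r + 32 * C + 512 * r + 64 ≤ h := by
    rw [hh]
    exact ItemPEV.big hn₂ (by omega)
  obtain ⟨⟨z, hz⟩, hz2⟩ := h₁ V G f n (by omega) hNK
  obtain ⟨hz1, -, hlam, -⟩ := hz2 z hz
  obtain ⟨hrow, hcls⟩ := hTC r V G z f n hNK.indep hz
  have hmL : (missSet G f).ncard = L.card := MEMXx.miss_card hTG
  have hfew := hNK.few
  rw [hmL, ← hh] at hfew
  have ha : (L.card : ℝ) ≤ C * h := by
    have : (0 : ℝ) ≤ (outSet G f).ncard := Nat.cast_nonneg _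
    linarith
  rw [← hh] at hlam
  have hhs : h * h = Real.sqrt n := by rw [hh]; exact Real.mul_self_sqrt (Real.sqrt_nonneg _)
  have hn0 : (h * h) * (h * h) = n := by rw [hhs]; exact Real.mul_self_sqrt (Nat.cast_nonneg n)
  obtain ⟨hl1, hl2, hl3, hl4, hl5, hk, hnpos⟩ := ItemCEN.num hr hn0 hC hC₁ hbig ha hlam
  rw [← hhs] at hz1
  obtain ⟨l, hl⟩ : ∃ l : ℝ, l = lam G := ⟨_, rfl⟩
  rw [← hl] at hl1 hl2 hl3 hl4 hl5 hrow hcls ⊢
  have hl0 : 0 < l := by linarith
  have heig := hz.eig w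
  rw [← hl] at heig
  obtain ⟨e1, e2, e3, e4⟩ := sysG hTG hL hsi.symm z hrow heig
  -- bounds for the entries
  have hzq : ∀ t, 1 / 2 ≤ z (q t) ∧ z (q t) ≤ 2 := by
    intro t
    have h5 := abs_le.1 (hz1 (q t) (by rw [hTG.hq]; simp))
    constructor <;> linarith
  have hr0 : (3 : ℝ) ≤ r := by exact_mod_cast hr
  have hsum1 : (r : ℝ) * (1 / 2) ≤ ∑ t, z (q t) := by
    have h5 := Finset.card_nsmul_le_sum Finset.univ (fun t => z (q t)) (1 / 2)
      (fun t _ => (hzq t).1)
    rw [Finset.card_univ, Fintype.card_fin, nsmul_eq_mul] at h5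
    exact h5
  have hsum2 : ∑ t, z (q t) ≤ (r : ℝ) * 2 := by
    have h5 := Finset.sum_le_card_nsmul Finset.univ (fun t => z (q t)) 2
      (fun t _ => (hzq t).2)
    rw [Finset.card_univ, Fintype.card_fin, nsmul_eq_mul] at h5
    exact h5
  have hzw : 0 < z w := by
    by_contra hcon
    push Not at hcon
    have : l * z w ≤ 0 := mul_nonpos_of_nonneg_of_nonpos hl0.le hcon
    linarith
  -- the normalised data
  obtain ⟨ω, hω⟩ : ∃ ω : ℝ, ω = z w / n := ⟨_, rfl⟩
  obtain ⟨P, hPd⟩ : ∃ P : ℝ, P = z c / n := ⟨_, rfl⟩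
  obtain ⟨X, hX⟩ : ∃ X : ℝ, X = (∑ u ∈ L, z u) / n := ⟨_, rfl⟩
  obtain ⟨T, hT⟩ : ∃ T : Fin r → ℝ, T = fun t => tv f z n t / n := ⟨_, rfl⟩
  have hTt : ∀ t, T t = tv f z n t / n := fun t => by rw [hT]
  have hω' : z w = n * ω := by rw [hω]; field_simp
  have hP' : z c = n * P := by rw [hPd]; field_simp
  have hX' : ∑ u ∈ L, z u = n * X := by rw [hX]; field_simp
  have hT' : ∀ t, tv f z n t = n * T t := fun t => by rw [hTt]; field_simp
  obtain ⟨a, haa⟩ : ∃ a : ℝ, a = L.card := ⟨_, rfl⟩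
  have ha2 : 2 ≤ a := by rw [haa]; exact_mod_cast h2
  rw [← haa] at hl4 e2
  rw [hP', hX', hT'] at e1 e2
  have hn' : (n : ℝ) ≠ 0 := hnpos.ne'
  have q3 : l * P = T s - X := by
    apply mul_left_cancel₀ hn'
    linear_combination e1
  have q4 : l * X = a * (T i - P) := by
    apply mul_left_cancel₀ hn'
    linear_combination e2
  have q1 : T i * (l + siz f i) = l + a * P - ω := by
    have h5 := hcls i
    rw [cw_muv hTG z hsi.symm, cw_omv hTG z, ItemCEN.lc_all hL, ← haa, hω', hP',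
      hT'] at h5
    apply mul_left_cancel₀ hn'
    linear_combination h5
  have q2 : T s * (l + siz f s) = l + X - ω := by
    have h5 := hcls s
    rw [cw_muv_center hTG z, cw_omv hTG z, hω', hX', hT'] at h5
    apply mul_left_cancel₀ hn'
    linear_combination h5
  have q0 : ∀ t, t ≠ s → t ≠ i → T t * (l + siz f t) = l - ω := by
    intro t hts hti
    have h5 := hcls t
    rw [cw_muv hTG z hts, cw_omv hTG z, ItemCEN.lc_none hL hti, hω', hT'] at h5
    apply mul_left_cancel₀ hn'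
    push_cast at h5
    linear_combination h5
  have q5' : ∑ t, tv f z n t = (r - 1) * n := by
    unfold tv
    rw [Finset.sum_sub_distrib, hz.sum, Finset.sum_const, Finset.card_univ, Fintype.card_fin,
      nsmul_eq_mul]
    ring
  have q5 : ∑ t, T t = r - 1 := by
    have h6 : ∑ t, T t = (∑ t, tv f z n t) / n := by
      rw [Finset.sum_div]
      exact Finset.sum_congr rfl fun t _ => hTt t
    rw [h6, q5']
    field_simp
  have q6 : l ^ 2 * ω = (r - 1) + r * ω := by
    rw [q5', ← e3, hω'] at e4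
    apply mul_left_cancel₀ hn'
    linear_combination e4
  -- `α` and `β`
  have hσn : ∀ t, (siz f t : ℝ) ≤ n := by
    intro t
    have h5 : siz f t ≤ ∑ t, siz f t :=
      Finset.single_le_sum (f := fun t => siz f t) (fun _ _ => Nat.zero_le _) (Finset.mem_univ t)
    rw [hNK.tot] at h5
    exact_mod_cast h5
  have hσ0 : ∀ t, (0 : ℝ) ≤ siz f t := fun t => Nat.cast_nonneg _
  have hlt' : (siz f s : ℝ) < siz f i := by exact_mod_cast hlt
  obtain ⟨α, hα⟩ : ∃ α : ℝ, α = 1 / (l + siz f i) := ⟨_, rfl⟩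
  obtain ⟨β, hβ⟩ : ∃ β : ℝ, β = 1 / (l + siz f s) := ⟨_, rfl⟩
  have hpi : 0 < l + siz f i := by linarith [hσ0 i]
  have hps : 0 < l + siz f s := by linarith [hσ0 s]
  have hαd : α * (l + siz f i) = 1 := by rw [hα]; field_simp
  have hβd : β * (l + siz f s) = 1 := by rw [hβ]; field_simp
  have hα0 : 0 < α := by rw [hα]; positivity
  have hαβ : α < β := by
    rw [hα, hβ]
    exact one_div_lt_one_div_of_lt hps (by linarith)
  have hβ4 : β ≤ 4 * α := by
    rw [hα, hβ, mul_one_div, div_le_div_iff₀ hps hpi]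
    linarith [hσn i, hσ0 s]
  have haβ : a * β ≤ 1 := by
    rw [hβ, mul_one_div, div_le_one hps]
    linarith [hσ0 s]
  have hω0 : 0 < ω := by rw [hω]; positivity
  have hωl : ω < l := by
    have h5 : l * z w ≤ r * 2 := by rw [e3]; exact hsum2
    rw [hω'] at h5
    have h6 : 256 * r * (n * ω) ≤ l * (n * ω) :=
      mul_le_mul_of_nonneg_right hl5 (by positivity)
    have h7 : r * (256 * (n * ω)) ≤ r * 2 := by linarith
    have h8 := le_of_mul_le_mul_left h7 (by linarith : (0 : ℝ) < r)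
    have h9 : 32 * ω ≤ n * ω := mul_le_mul_of_nonneg_right (by linarith) hω0.le
    linarith
  obtain ⟨X', P', Ti', Ts', p1, p2, p3, p4, p5⟩ := real ha2 hl3 hl4 hαd hβd hα0 hαβ hβ4 haβ
    hωl q1 q2 q3 q4
  -- the test data for `H`
  obtain ⟨T', hT'd⟩ : ∃ T' : Fin r → ℝ, T' = fun t => T t
    + ((if t = i then Ti' - T i else 0) + (if t = s then Ts' - T s else 0)) := ⟨_, rfl⟩
  have hTi' : T' i = Ti' := by
    rw [hT'd]
    simp only [if_true, if_neg hsi.symm]
    ring
  have hTs' : T' s = Ts' := by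
    rw [hT'd]
    simp only [if_true, if_neg hsi]
    ring
  have hTo' : ∀ t, t ≠ s → t ≠ i → T' t = T t := by
    intro t h5 h6
    rw [hT'd]
    simp only [if_neg h5, if_neg h6]
    ring
  have hlc : ∀ t, t ≠ s → lc L' f' t = 0 := fun t ht => ItemCEN.lc_none hL' ht
  have hlcs : (lc L' f' s : ℝ) = a := by rw [ItemCEN.lc_all hL', hcard, haa]
  have hsumT' : ∑ t, T' t = (r - 1) + (Ti' - T i) + (Ts' - T s) := by
    rw [hT'd]
    rw [Finset.sum_add_distrib, Finset.sum_add_distrib, q5, Finset.sum_ite_eq',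
      Finset.sum_ite_eq', if_pos (Finset.mem_univ _), if_pos (Finset.mem_univ _)]
    ring
  obtain ⟨θ, hθ⟩ : ∃ θ : ℝ, θ = T i + T s - Ti' - Ts' := ⟨_, rfl⟩
  rw [← hθ] at p5
  refine hTV r U H f' w' q' c' i L' l ω P' X' T' hr hTH hl0 ?_ ?_ ?_ ?_ ?_
  · intro t hti
    rw [hσ t]
    by_cases hts : t = s
    · subst hts
      rw [hlcs, hTs']
      exact p2
    · rw [hlc t hts, hTo' t hts hti, Nat.cast_zero, zero_mul, add_zero]
      exact q0 t hts hti
  · rw [hσ i, hTi']
    exact p1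
  · rw [hTi']
    exact p3
  · rw [p4]
    have h5 : ∀ t, (if t = i then 0 else (lc L' f' t : ℝ) * (T' t - P'))
        = if t = s then a * (Ts' - P') else 0 := by
      intro t
      by_cases hts : t = s
      · subst hts
        rw [if_neg hsi, if_pos rfl, hlcs, hTs']
      · rw [if_neg hts, hlc t hts]
        simp
    rw [Finset.sum_congr rfl (fun t _ => h5 t), Finset.sum_ite_eq', if_pos (Finset.mem_univ _)]
  · have h4 : ∑ t, (T' t + ω) = ∑ t, T' t + r * ω := by
      rw [Finset.sum_add_distrib, Finset.sum_const, Finset.card_univ, Fintype.card_fin,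
        nsmul_eq_mul]
    rw [h4, q6, hsumT']
    have h5 : ((r : ℝ) - 1 - ((r - 1) + (Ti' - T i) + (Ts' - T s))) = θ := by
      rw [hθ]; ring
    have h6 : ((r : ℝ) - ((r - 1) + (Ti' - T i) + (Ts' - T s))) = 1 + θ := by
      rw [hθ]; ring
    have h7 : (r : ℝ) - 1 + (Ti' - T i) + (Ts' - T s) + r * ω - (r - 1 + r * ω) = -θ := by
      rw [hθ]; ring
    rw [h5, h6, h7]
    have h8 : -θ / l * ω = -(θ * (ω / l)) := by ring
    rw [h8]
    have h9 : ω / l < 1 := by rw [div_lt_one hl0]; exact hωl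
    have h10 : θ * (ω / l) < θ * 1 := mul_lt_mul_of_pos_left h9 p5
    have h11 : 0 < θ * θ := mul_pos p5 p5
    linarith

end MP0c3a8f

end

section

/-!
# MP_0c3a8f_co, item PSTS: type `S`, one large class
-/

set_option autoImplicit false

open Finset

namespace MP0c3a8f

namespace ItemPSTS

open ItemPST

/-! ### Graphs of type `S` -/

/-- the graph of type `S` -/
def HS {V : Type} {r : ℕ} (g : V → Option (Fin r)) (w : V) (q : Fin r → V) (c : V)
    (L : Finset V) : SimpleGraph V where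
  Adj u v := u ≠ v ∧
    ((g u ≠ none ∧ g v ≠ none ∧ g u ≠ g v ∧ ¬ (u = c ∧ v ∈ L) ∧ ¬ (v = c ∧ u ∈ L)) ∨
      (u = w ∧ ∃ t, v = q t) ∨ (v = w ∧ ∃ t, u = q t))
  symm := ⟨fun u v h => ⟨h.1.symm, by
    rcases h.2 with h | h | h
    · exact Or.inl ⟨h.2.1, h.1, h.2.2.1.symm, h.2.2.2.2, h.2.2.2.1⟩
    · exact Or.inr (Or.inr h)
    · exact Or.inr (Or.inl h)⟩⟩
  loopless := ⟨fun u h => h.1 rfl⟩

theorem tyS_HS {V : Type} {r : ℕ} {g : V → Option (Fin r)} {w : V} {q : Fin r → V} {c : V}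
    {i : Fin r} {L : Finset V} (out : ∀ v, g v = none ↔ v = w) (hq : ∀ t, g (q t) = some t)
    (hc : g c = some i) (cq : c ≠ q i) (hL : ∀ v ∈ L, g v ≠ none ∧ g v ≠ some i)
    (qL : ∀ t, q t ∉ L) (room : ∀ t, L.card + 2 ≤ siz g t) : TyS (HS g w q c L) g w q c i L where
  out := out
  hq := hq
  wn v := by
    have hw : g w = none := (out w).2 rfl
    constructor
    · rintro ⟨h0, h | h | h⟩
      · exact absurd hw h.1
      · exact h.2
      · exact absurd h.1.symm h0
    · rintro ⟨t, rfl⟩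
      refine ⟨?_, Or.inr (Or.inl ⟨rfl, t, rfl⟩)⟩
      intro h
      rw [h, hq t] at hw
      exact absurd hw (Option.some_ne_none t)
  hc := hc
  cq := cq
  hL := hL
  qL := qL
  core u v hu hv := by
    have hw : g w = none := (out w).2 rfl
    constructor
    · rintro ⟨h0, h | h | h⟩
      · exact h.2.2
      · exact absurd (by rw [h.1]; exact hw) hu
      · exact absurd (by rw [h.1]; exact hw) hv
    · intro h
      exact ⟨fun h' => h.1 (by rw [h']), Or.inl ⟨hu, hv, h⟩⟩
  room := room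

theorem mg_tyS {V : Type} {r : ℕ} {H : SimpleGraph V} {g : V → Option (Fin r)} {w : V}
    {q : Fin r → V} {c : V} {i : Fin r} {L : Finset V} (hT : TyS H g w q c i L) (u v : V) :
    (MG H g).Adj u v ↔ (u = c ∧ v ∈ L) ∨ (v = c ∧ u ∈ L) := by
  constructor
  · rintro ⟨h1, h2, h3, h4⟩
    rw [hT.core u v h1 h2] at h4
    by_contra hcon
    push Not at hcon
    exact h4 ⟨h3, fun h => hcon.1 h.1 h.2, fun h => hcon.2 h.1 h.2⟩
  · have key : ∀ u v, u = c → v ∈ L → (MG H g).Adj u v := by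
      rintro u v rfl hv
      have h1 : g u ≠ none := by rw [hT.hc]; exact Option.some_ne_none i
      refine ⟨h1, (hT.hL v hv).1, ?_, ?_⟩
      · rw [hT.hc]; exact (hT.hL v hv).2.symm
      · rw [hT.core _ _ h1 (hT.hL v hv).1]
        rintro ⟨-, h, -⟩
        exact h ⟨rfl, hv⟩
    rintro (h | h)
    · exact key u v h.1 h.2
    · exact (key v u h.1 h.2).symm

/-- the sum of the squares for a graph of type `S` -/
theorem mu_tyS {V : Type} [Fintype V] {r : ℕ} {H : SimpleGraph V} {g : V → Option (Fin r)}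
    {w : V} {q : Fin r → V} {c : V} {i : Fin r} {L : Finset V} (hT : TyS H g w q c i L)
    (z : V → ℝ) {x y : ℝ} (hx : z c = x) (hy : ∀ v ∈ L, z v = y) :
    (L.card * y) ^ 2 + L.card * x ^ 2 ≤ ∑ v, muv H g z v ^ 2 := by
  classical
  have hqi : c ∉ L := fun h => (hT.hL _ h).2 hT.hc
  have h1 : muv H g z c = L.card * y := by
    rw [muv_eq]
    rw [← Finset.sum_subset (Finset.subset_univ L)]
    · rw [← nsmul_eq_mul, ← Finset.sum_const]
      refine sum_congr rfl fun v hv => ?_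
      rw [adj_pos ((mg_tyS hT _ _).2 (Or.inl ⟨rfl, hv⟩)), one_mul, hy v hv]
    · intro v _ hv
      rw [adj_neg, zero_mul]
      rw [mg_tyS hT]
      rintro (h | h)
      · exact hv h.2
      · exact hqi h.2
  have h2 : ∀ v ∈ L, muv H g z v = x := by
    intro v hv
    rw [muv_eq, Finset.sum_eq_single c]
    · rw [adj_pos ((mg_tyS hT _ _).2 (Or.inr ⟨rfl, hv⟩)), one_mul, hx]
    · intro u _ hu
      rw [adj_neg, zero_mul]
      rw [mg_tyS hT]
      rintro (h | h)
      · exact hqi (h.1 ▸ hv)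
      · exact hu h.1
    · intro h
      exact absurd (Finset.mem_univ _) h
  calc (L.card * y) ^ 2 + L.card * x ^ 2 = ∑ v ∈ insert c L, muv H g z v ^ 2 := by
        rw [Finset.sum_insert hqi, h1]
        congr 1
        rw [← nsmul_eq_mul, ← Finset.sum_const]
        exact sum_congr rfl fun v hv => by rw [h2 v hv]
    _ ≤ ∑ v, muv H g z v ^ 2 :=
        Finset.sum_le_sum_of_subset_of_nonneg (Finset.subset_univ _)
          (fun v _ _ => sq_nonneg _)

/-- clean vertices -/
theorem cleanS {V : Type} [Fintype V] {r : ℕ} (G : SimpleGraph V) (g : V → Option (Fin r))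
    (i j : Fin r) (a : ℕ) (ha : 1 ≤ a)
    (h : ∀ t, a + 2 * ((missSet G g).ncard + (missSet G g).ncard + (outSet G g).ncard)
      ≤ siz g t) :
    ∃ (c : V) (L : Finset V), g c = some i ∧ ItemSWM.Cl G G g c ∧ L.card = a ∧
      ∀ v ∈ L, g v = some j ∧ ItemSWM.Cl G G g v := by
  classical
  have h1 : ∀ t, a ≤ (univ.filter fun v => g v = some t ∧ ItemSWM.Cl G G g v).card := by
    intro t
    have h2 := ItemSWM.many G G g t a (h t)
    rw [Set.ncard_eq_toFinset_card', Set.toFinset_ofPred] at h2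
    exact h2
  have h4 : 0 < (univ.filter fun v => g v = some i ∧ ItemSWM.Cl G G g v).card :=
    lt_of_lt_of_le ha (h1 i)
  obtain ⟨c, hc⟩ := Finset.card_pos.1 h4
  obtain ⟨L, hL1, hL2⟩ := Finset.exists_subset_card_eq (h1 j)
  exact ⟨c, L, (Finset.mem_filter.1 hc).2.1, (Finset.mem_filter.1 hc).2.2, hL2, fun v hv =>
    (Finset.mem_filter.1 (hL1 hv)).2⟩

open Classical in
/-- comparison with a graph of type `S` -/
theorem starS {V W : Type} [Fintype V] [Fintype W] {F : SimpleGraph W} {r n m : ℕ} (hr : 3 ≤ r)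
    (hGen : Gen2 r F) (hCNT : CNTU_statement) (hWM : WMB_statement) {C C3 : ℝ}
    {G : SimpleGraph V} {z : V → ℝ}
    {g : V → Option (Fin r)} {w : V} {q : Fin r → V} {i j : Fin r} (hij : i ≠ j)
    (hMx : IsMaximiser r m F G) (hNK : NK n C G g) (hb : (outSet G g).ncard = r)
    (ha : 1 ≤ (missSet G g).ncard) (hw : ∀ v, g v = none ↔ v = w)
    (hq : ∀ t, g (q t) = some t) (wn : ∀ v, G.Adj w v ↔ ∃ t, v = q t)
    (hTCL : ∀ v t, g v = some t → lam G * z v = tv g z n t - muv G g z v + omv G g z v)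
    (hsz : ∀ t, 5 * (missSet G g).ncard + 2 * r + 2 ≤ siz g t) (hn1 : (1 : ℝ) ≤ n)
    (hlam : (n : ℝ) / 2 ≤ lam G)
    (hSW : ∀ H : SimpleGraph V, NK n C H g → (∀ u v, g u = none → u ≠ w → ¬ H.Adj u v) →
      lam H ≤ lam G →
      (miss G (fun v => (n : ℝ) - cw z g (g v)) g - miss H (fun v => (n : ℝ) - cw z g (g v)) g)
        / lam G
      + (∑ v, muv H g z v ^ 2 - ∑ v, muv G g z v ^ 2)
      + (cov H g z w ^ 2 - ∑ v, if g v = none then cov G g z v ^ 2 else 0)
      ≤ C3 * ((missSet G g).ncard + (missSet H g).ncard + (outSet G g).ncard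
          + (outSet H g).ncard + 1) ^ 3 / n) :
    (miss G (fun v => (n : ℝ) - cw z g (g v)) g
        - 2 * ((missSet G g).ncard : ℝ) * (tv g z n i * tv g z n j)) / lam G
      + (((missSet G g).ncard : ℝ) ^ 2 * (tv g z n j / lam G) ^ 2
        + ((missSet G g).ncard : ℝ) * (tv g z n i / lam G) ^ 2)
      - ∑ v, muv G g z v ^ 2
      ≤ (C3 * (2 * ((missSet G g).ncard : ℝ) + 2 * r + 1) ^ 3 + 12 * (r : ℝ) ^ 2) / n := by
  obtain ⟨a, hadef⟩ : ∃ a : ℕ, a = (missSet G g).ncard := ⟨_, rfl⟩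
  have hl : 0 < lam G := by linarith
  have hn0 : (0 : ℝ) < n := by linarith
  obtain ⟨c, L, hc, hccl, hLa, hL⟩ := cleanS G g i j a (hadef ▸ ha) (by
    intro t
    have := hsz t
    omega)
  have hadjw : ∀ t, G.Adj (q t) w := fun t => ((wn _).2 ⟨t, rfl⟩).symm
  have hTy : TyS (HS g w q c L) g w q c i L := by
    refine tyS_HS hw hq hc ?_ ?_ ?_ ?_
    · intro h
      exact hccl.nolight w ((hw w).2 rfl) (by rw [h]; exact hadjw i)
    · intro v hv
      rw [(hL v hv).1]
      exact ⟨Option.some_ne_none j, fun h => hij (Option.some.inj h).symm⟩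
    · intro t ht
      exact (hL _ ht).2.nolight w ((hw w).2 rfl) (hadjw t)
    · intro t
      have := hsz t
      omega
  obtain ⟨H, hH⟩ : ∃ H : SimpleGraph V, H = HS g w q c L := ⟨_, rfl⟩
  rw [← hH] at hTy
  obtain ⟨m4, m5, m7, m6, m8⟩ := prfMEMX r V H g w q c i L hr hTy
  have hcG := ItemBLA.count0 hCNT hNK.indep hNK.tot
  have hlH : lam H ≤ lam G := by
    refine hWM W F r m V G H g w i j hr hGen hMx ((hw w).2 rfl) hij m4 ?_ (m7 i) (m7 j)
      (fun t => (m7 t).ge) m8 ?_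
    · intro u v hu huw
      exact absurd ((hw u).1 hu) huw
    · have h1 := hMx.1.size
      have h2 : ∑ t : Fin r, nbn H g w t = r := by
        simp [m7]
      rw [h2, m5, hLa, hNK.tot]
      rw [hb, h1, ← hadef] at hcG
      omega
  have hNKH : NK n C H g := by
    refine ⟨m4, hNK.tot, hNK.dev, ?_⟩
    have h1 := hNK.few
    rw [m5, m6, hLa]
    rw [hb, ← hadef] at h1
    exact h1
  have key := hSW H hNKH (fun u v hu huw _ => huw ((hw u).1 hu)) hlH
  -- the missing pairs of `H`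
  have tvi : ∀ {v : V} {t : Fin r}, g v = some t → (n : ℝ) - cw z g (g v) = tv g z n t := by
    intro v t hv
    unfold tv
    rw [hv]
  have e1 : miss H (fun v => (n : ℝ) - cw z g (g v)) g =
      2 * (a : ℝ) * (tv g z n i * tv g z n j) := by
    rw [miss_const (T := tv g z n i * tv g z n j), m5, hLa]
    intro u v huv
    rw [mg_tyS hTy] at huv
    rcases huv with ⟨rfl, hv⟩ | ⟨rfl, hu⟩
    · show ((n : ℝ) - cw z g (g u)) * ((n : ℝ) - cw z g (g v)) = _
      rw [tvi hc, tvi (hL v hv).1]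
    · show ((n : ℝ) - cw z g (g u)) * ((n : ℝ) - cw z g (g v)) = _
      rw [tvi hc, tvi (hL u hu).1, mul_comm]
  have e2 : ((a : ℝ) * (tv g z n j / lam G)) ^ 2 + (a : ℝ) * (tv g z n i / lam G) ^ 2 ≤
      ∑ v, muv H g z v ^ 2 := by
    have h1 := mu_tyS hTy z (x := tv g z n i / lam G) (y := tv g z n j / lam G)
      (z_clean hl hTCL hc hccl) (fun v hv => z_clean hl hTCL (hL v hv).1 (hL v hv).2)
    rw [hLa] at h1
    exact h1
  have e3 : cov H g z w = cov G g z w := by
    rw [cov_eq z hq hTy.wn, cov_eq z hq wn]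
  have e6 : (∑ v, if g v = none then cov G g z v ^ 2 else 0) = cov G g z w ^ 2 := by
    rw [Finset.sum_eq_single w]
    · exact if_pos ((hw w).2 rfl)
    · intro v _ hv
      exact if_neg fun h => hv ((hw v).1 h)
    · intro h
      exact absurd (Finset.mem_univ _) h
  have e8 : C3 * (((missSet G g).ncard : ℝ) + (missSet H g).ncard + (outSet G g).ncard
      + (outSet H g).ncard + 1) ^ 3 / n = C3 * (2 * (a : ℝ) + 2 * r + 1) ^ 3 / n := by
    rw [m5, m6, hb, hLa, ← hadef]
    ring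
  rw [e1, e3, e6, e8] at key
  rw [← hadef]
  rw [add_div]
  have e9 : ((a : ℝ) * (tv g z n j / lam G)) ^ 2 = (a : ℝ) ^ 2 * (tv g z n j / lam G) ^ 2 := by
    ring
  have e10 : 0 ≤ 12 * (r : ℝ) ^ 2 / n := by positivity
  linarith

end ItemPSTS

open ItemPST ItemPSTS in
theorem prfPSTS : P_statement → CNTU_statement → FLU_statement → TCL_statement →
    SWZ_statement → SQE_statement → CLSS_statement → QCL_statement → WMB_statement →
    PSTS_statement := by
  classical
  intro _ hCNT hFLU hTCL hSWZ hSQE hCLS hQCL hWM W _ F r C c hr hGen hC hc0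
  obtain ⟨n5, hQ⟩ := hQCL W F r C hr hGen hC
  obtain ⟨C1, n1, hC1, hF⟩ := hFLU r C hr hC
  obtain ⟨C2, n2, hC2, hT⟩ := hTCL r C hr hC
  obtain ⟨C3, n3, hC3, hS⟩ := hSWZ r C hr hC
  have hr3 : (3 : ℝ) ≤ r := by exact_mod_cast hr
  have hr0 : (0 : ℝ) < r := by linarith
  obtain ⟨K, hKd⟩ : ∃ K : ℝ, K = 1 + C + C1 + C2 + C3 + 1 / c := ⟨_, rfl⟩
  have hc1 : 0 < 1 / c := by positivity
  have hK1 : 1 ≤ K := by linarith
  have hKC : C ≤ K := by linarith
  have hKC1 : C1 ≤ K := by linarith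
  have hKC2 : C2 ≤ K := by linarith
  have hKC3 : C3 ≤ K := by linarith
  have hcK : 1 ≤ c * K := by
    have h1 : 1 / c ≤ K := by linarith
    calc (1 : ℝ) = c * (1 / c) := by field_simp
      _ ≤ c * K := mul_le_mul_of_nonneg_left h1 hc0.le
  have hK0 : 0 < K := by linarith
  obtain ⟨D, hD⟩ : ∃ D : ℝ, D = 54 * K * (r : ℝ) ^ 3 := ⟨_, rfl⟩
  have hD0 : 0 ≤ D := by rw [hD]; positivity
  obtain ⟨H0, hH0⟩ : ∃ H0 : ℝ, H0 = 8 + r * (Real.sqrt C + (5 * K + 2 * r + 2)) + 6 * K
      + 128 * K ^ 3 + 32 * K ^ 2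
      + 16 * K * (24 * K ^ 3 + D * K ^ 3) + 2 * ((28 + D) * K ^ 2)
      + 8 * K * (26 * K + 2 * (D * K)) := ⟨_, rfl⟩
  refine ⟨max n1 (max n2 (max n3 (⌈H0 ^ 4⌉₊ + 1))) + n5, ?_⟩
  intro V _ G g i n m hnn5 hMx hNL hb ha
  have hn : max n1 (max n2 (max n3 (⌈H0 ^ 4⌉₊ + 1))) ≤ n := (Nat.le_add_right _ _).trans hnn5
  have hn5 : n5 ≤ n := (Nat.le_add_left _ _).trans hnn5
  have hnn1 : n1 ≤ n := (le_max_left _ _).trans hn
  have hnn2 : n2 ≤ n := (le_max_left _ _).trans ((le_max_right _ _).trans hn)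
  have hnn3 : n3 ≤ n :=
    (le_max_left _ _).trans ((le_max_right _ _).trans ((le_max_right _ _).trans hn))
  have hnn4 : H0 ^ 4 < n := by
    have h1 : ⌈H0 ^ 4⌉₊ + 1 ≤ n :=
      (le_max_right _ _).trans ((le_max_right _ _).trans ((le_max_right _ _).trans hn))
    have h2 : (⌈H0 ^ 4⌉₊ : ℝ) + 1 ≤ n := by exact_mod_cast h1
    have h3 := Nat.le_ceil (H0 ^ 4)
    linarith
  obtain ⟨h, hh⟩ : ∃ h : ℝ, h = Real.sqrt (Real.sqrt n) := ⟨_, rfl⟩
  obtain ⟨hHh, hs2, hs4⟩ := consts hr hK1 hD hH0 hh hnn4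
  -- the size of `h`
  have p1 : 0 ≤ (r : ℝ) * (Real.sqrt C + (5 * K + 2 * r + 2)) := by positivity
  have p2 : 0 ≤ 128 * K ^ 3 := by positivity
  have p3 : 0 ≤ 32 * K ^ 2 := by positivity
  have p4 : 0 ≤ 16 * K * (24 * K ^ 3 + D * K ^ 3) := by positivity
  have p5 : 0 ≤ 2 * ((28 + D) * K ^ 2) := by positivity
  have p6 : 0 ≤ 8 * K * (26 * K + 2 * (D * K)) := by positivity
  have b1 : 8 ≤ h := by linarith
  have b2 : (r : ℝ) * (Real.sqrt C + (5 * K + 2 * r + 2)) ≤ h := by linarith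
  have b3 : 6 * K ≤ h := by linarith
  have b4 : 128 * K ^ 3 ≤ h := by linarith
  have b5 : 32 * K ^ 2 ≤ h := by linarith
  have b6 : 16 * K * (24 * K ^ 3 + D * K ^ 3) < h := by linarith
  have b7 : 2 * ((28 + D) * K ^ 2) < h := by linarith
  have b8 : 8 * K * (26 * K + 2 * (D * K)) < h := by linarith
  clear p1 p2 p3 p4 p5 p6
  have hh1 : 1 ≤ h := by linarith
  have hh0 : 0 < h := by linarith
  have hpow2 : h ≤ h ^ 2 := by
    calc h = h ^ 1 := by ring
      _ ≤ h ^ 2 := pow_le_pow_right₀ hh1 (by norm_num)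
  have hpow3 : h ≤ h ^ 3 := by
    calc h = h ^ 1 := by ring
      _ ≤ h ^ 3 := pow_le_pow_right₀ hh1 (by norm_num)
  have hpow23 : h ^ 2 ≤ h ^ 3 := pow_le_pow_right₀ hh1 (by norm_num)
  have hpow34 : h ^ 3 ≤ h ^ 4 := pow_le_pow_right₀ hh1 (by norm_num)
  have hn1 : (1 : ℝ) ≤ n := by rw [hs4]; exact one_le_pow₀ hh1
  have hn0 : (0 : ℝ) < n := by linarith
  have hh2 : 0 < h ^ 2 := by positivity
  have hh4 : 0 < h ^ 4 := by positivity
  -- the number of missing pairs
  obtain ⟨a, hadef⟩ : ∃ a : ℕ, a = (missSet G g).ncard := ⟨_, rfl⟩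
  obtain ⟨A, hA⟩ : ∃ A : ℝ, A = (a : ℝ) := ⟨_, rfl⟩
  have hNK := hNL.nk
  have hA1 : 1 ≤ A := by
    rw [hA]
    have : 1 ≤ a := by rw [hadef]; exact ha
    exact_mod_cast this
  have hA0 : 0 < A := by linarith
  have hAK : A ≤ K * h := by
    have h1 := hNK.few
    rw [← hadef, ← hA, hb, ← hh] at h1
    have h2 : C * h ≤ K * h := mul_le_mul_of_nonneg_right hKC hh0.le
    linarith
  -- the classes are large
  have hsz : ∀ t, 5 * (missSet G g).ncard + 2 * r + 2 ≤ siz g t := by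
    intro t
    have h1 := ItemBLA.large hr (K := 5 * K + 2 * r + 2) hC hNK.tot hNK.dev
      (by rw [hs2]; linarith) (by rw [hs2]; linarith) t
    rw [hs2] at h1
    have h2 : 5 * A + 2 * r + 2 ≤ (5 * K + 2 * r + 2) * h ^ 2 := by
      have h3 : K * h ≤ K * h ^ 2 := mul_le_mul_of_nonneg_left hpow2 hK0.le
      have h4 : (2 * (r : ℝ) + 2) * 1 ≤ (2 * r + 2) * h ^ 2 :=
        mul_le_mul_of_nonneg_left (by linarith) (by linarith)
      linarith
    have h3 : 5 * (a : ℝ) + 2 * r + 2 ≤ siz g t := by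
      rw [← hA]; linarith
    rw [← hadef]
    exact_mod_cast h3
  -- the light vertex
  obtain ⟨w, q, hw, hq, wn⟩ := hCLS r (siz g) (missSet G g).ncard V G g hr
    ⟨fun _ => rfl, hNK.indep, rfl, hb⟩ hMx.1.notPartite hMx.1.noIso
  -- the eigenvector
  obtain ⟨⟨z, hz⟩, hzall⟩ := hF V G g n hnn1 hNK
  obtain ⟨hz1, hz2, hz3, hz4⟩ := hzall z hz
  rw [hs2] at hz1
  rw [← hh] at hz2 hz3
  rw [hs2] at hz4
  obtain ⟨hT1, -, hT3⟩ := hT V G z g n hnn2 hNK hz
  obtain ⟨L, hL⟩ : ∃ L : ℝ, L = lam G := ⟨_, rfl⟩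
  have hq23 : 2 / 3 ≤ qq r ∧ qq r ≤ 1 := by
    unfold qq
    have h1 : 1 / (r : ℝ) ≤ 1 / 3 := one_div_le_one_div_of_le (by norm_num) hr3
    have h2 : 0 < 1 / (r : ℝ) := by positivity
    constructor <;> linarith
  have hKh : K * h ≤ h ^ 4 / 6 := by
    have h1 : 6 * K * h ≤ h * h ^ 3 := mul_le_mul (by linarith) hpow3 hh0.le (by positivity)
    have h2 : h * h ^ 3 = h ^ 4 := by ring
    linarith
  have hC1h : C1 * h ≤ K * h := mul_le_mul_of_nonneg_right hKC1 hh0.le
  have hLlow : (n : ℝ) / 2 ≤ L := by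
    have h1 := (abs_le.1 hz3).1
    rw [← hL] at h1
    have h2 : 2 / 3 * (n : ℝ) ≤ qq r * n := mul_le_mul_of_nonneg_right hq23.1 hn0.le
    rw [hs4] at h1 h2 ⊢
    linarith
  have hLup : L ≤ 2 * n := by
    have h1 := (abs_le.1 hz3).2
    rw [← hL] at h1
    have h2 : qq r * n ≤ 1 * (n : ℝ) := mul_le_mul_of_nonneg_right hq23.2 hn0.le
    rw [hs4] at h1 h2 ⊢
    linarith
  have hL0 : 0 < L := by linarith
  have hzw : z w ≤ 1 := by
    refine (hz2 w ((hw w).2 rfl)).trans ?_
    rw [div_le_one hn0, hs4]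
    linarith
  have hTabs : ∀ t, |tv g z n t - L| ≤ K * h ^ 2 := by
    intro t
    rw [hL]
    refine (hz4 t).trans ?_
    exact mul_le_mul_of_nonneg_right hKC1 hh2.le
  have hKh2 : K * h ^ 2 ≤ L / 2 := by
    have h1 : 4 * K * h ^ 2 ≤ h ^ 2 * h ^ 2 :=
      mul_le_mul_of_nonneg_right (by linarith) hh2.le
    have h2 : h ^ 2 * h ^ 2 = h ^ 4 := by ring
    rw [hs4] at hLlow
    linarith
  have hTlow : ∀ t, L / 2 ≤ tv g z n t := fun t => by
    have := (abs_le.1 (hTabs t)).1
    linarith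
  have hTup : ∀ t, tv g z n t ≤ 2 * L := fun t => by
    have := (abs_le.1 (hTabs t)).2
    linarith
  have hTdiv : ∀ t, 1 - 2 * K / h ^ 2 ≤ tv g z n t / L := by
    intro t
    rw [le_div_iff₀ hL0]
    have h1 := (abs_le.1 (hTabs t)).1
    have h2 : K * h ^ 2 ≤ 2 * K / h ^ 2 * L := by
      rw [div_mul_eq_mul_div, le_div_iff₀ hh2]
      rw [hs4] at hLlow
      calc K * h ^ 2 * h ^ 2 = 2 * K * (h ^ 4 / 2) := by ring
        _ ≤ 2 * K * L := mul_le_mul_of_nonneg_left hLlow (by positivity)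
    linarith
  have hzcore : ∀ u, g u ≠ none → z u ≤ 1 + 2 * K / h ^ 2 := by
    intro u hu
    have h1 := (abs_le.1 (hz1 u hu)).2
    have h2 : C1 / h ^ 2 ≤ 2 * K / h ^ 2 := div_le_div_of_nonneg_right (by linarith) hh2.le
    linarith
  -- the second class
  obtain ⟨j, hji, hj⟩ : ∃ j, j ≠ i ∧ ∀ t, t ≠ i → siz g t ≤ siz g j := by
    have hne : (univ.filter fun t : Fin r => t ≠ i).Nonempty := by
      have : Nontrivial (Fin r) := Fin.nontrivial_iff_two_le.2 (by omega)
      obtain ⟨t, ht⟩ := exists_ne i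
      exact ⟨t, Finset.mem_filter.2 ⟨Finset.mem_univ t, ht⟩⟩
    obtain ⟨j, hj1, hj2⟩ := Finset.exists_max_image _ (siz g) hne
    exact ⟨j, (Finset.mem_filter.1 hj1).2, fun t ht =>
      hj2 t (Finset.mem_filter.2 ⟨Finset.mem_univ t, ht⟩)⟩
  -- the error `η`
  obtain ⟨e, he⟩ : ∃ e : ℝ, e = 2 * K * A / h ^ 4 := ⟨_, rfl⟩
  have he0 : 0 ≤ e := by rw [he]; positivity
  have heη : C2 * ((missSet G g).ncard + 1) / n ≤ e := by
    rw [he, hs4, ← hadef, ← hA]
    refine div_le_div_of_nonneg_right ?_ hh4.le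
    calc C2 * (A + 1) ≤ K * (2 * A) := mul_le_mul hKC2 (by linarith) (by linarith) hK0.le
      _ = 2 * K * A := by ring
  have he1 : e ≤ 2 * K ^ 2 / h ^ 3 := by
    rw [he, div_le_div_iff₀ hh4 (by positivity)]
    calc 2 * K * A * h ^ 3 ≤ 2 * K * (K * h) * h ^ 3 := by
          refine mul_le_mul_of_nonneg_right ?_ (by positivity)
          exact mul_le_mul_of_nonneg_left hAK (by positivity)
      _ = 2 * K ^ 2 * h ^ 4 := by ring
  have he2 : e ≤ c / 64 * h ^ 2 := by
    refine he1.trans ?_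
    rw [div_le_iff₀ (by positivity)]
    have h1 : 2 * K ^ 2 * (64 * K) ≤ c * K * (h ^ 2 * h ^ 3) := by
      calc 2 * K ^ 2 * (64 * K) = 128 * K ^ 3 := by ring
        _ ≤ h := b4
        _ = 1 * (h * 1) := by ring
        _ ≤ c * K * (h ^ 2 * h ^ 3) := by
            refine mul_le_mul hcK ?_ (by positivity) (by positivity)
            exact mul_le_mul hpow2 (by linarith) (by norm_num) (by positivity)
    have h2 : (2 * K ^ 2) * (64 * K) ≤ (c / 64 * h ^ 2 * h ^ 3) * (64 * K) := by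
      calc (2 * K ^ 2) * (64 * K) ≤ c * K * (h ^ 2 * h ^ 3) := h1
        _ = _ := by ring
    exact le_of_mul_le_mul_right h2 (by positivity)
  have he3 : e ≤ L / 8 := by
    refine he1.trans ?_
    rw [div_le_iff₀ (by positivity)]
    have h1 : 32 * K ^ 2 ≤ h ^ 4 * h ^ 3 := by
      calc 32 * K ^ 2 ≤ h := b5
        _ = 1 * h := by ring
        _ ≤ h ^ 4 * h ^ 3 := mul_le_mul (by linarith) hpow3 hh0.le (by positivity)
    have h2 : h ^ 4 / 2 * h ^ 3 ≤ L * h ^ 3 := by
      rw [hs4] at hLlow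
      exact mul_le_mul_of_nonneg_right hLlow (by positivity)
    linarith
  have hTj : ∀ t, t ≠ i → tv g z n j - e ≤ tv g z n t := by
    intro t ht
    have h1 := hT3 t j (hj t ht)
    have h2 : (0 : ℝ) ≤ ((siz g j : ℝ) - siz g t) / 2 := by
      have : (siz g t : ℝ) ≤ siz g j := by exact_mod_cast hj t ht
      linarith
    linarith
  have hTi : ∀ t, t ≠ i → tv g z n i + c / 4 * h ^ 2 ≤ tv g z n t := by
    intro t ht
    have h0 := hNL.big t ht
    rw [hs2] at h0
    have h3 : siz g t ≤ siz g i := by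
      have h4 : (siz g t : ℝ) ≤ siz g i := by
        have : 0 ≤ c * h ^ 2 := by positivity
        linarith
      exact_mod_cast h4
    have h1 := hT3 t i h3
    have h5 : 0 ≤ c * h ^ 2 := by positivity
    linarith
  -- comparison
  have hst := starS (i := i) (j := j) hr hGen hCNT hWM hji.symm hMx hNK hb ha hw hq wn hT1 hsz
    hn1 (by rw [← hL]; exact hLlow)
    (fun H h1 h2 h3 => hS V G H z g w n hnn3 hNK h1 ((hw w).2 rfl) h2 hz h3)
  rw [← hadef, ← hA, ← hL] at hst
  obtain ⟨y, hy⟩ : ∃ y : V → ℝ, y = fun v => (n : ℝ) - cw z g (g v) := ⟨_, rfl⟩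
  have hyt : ∀ {v : V} {t : Fin r}, g v = some t → y v = tv g z n t := by
    intro v t hv
    rw [hy]
    unfold tv
    simp only [hv]
  rw [← hy] at hst
  have hE : (C3 * (2 * A + 2 * r + 1) ^ 3 + 12 * (r : ℝ) ^ 2) / n ≤ D * A ^ 3 / h ^ 4 := by
    rw [hs4]
    refine div_le_div_of_nonneg_right ?_ hh4.le
    have h1 : 2 * A + 2 * r + 1 ≤ 3 * r * A := by
      have h2 : (3 * (r : ℝ) - 2) * 1 ≤ (3 * r - 2) * A :=
        mul_le_mul_of_nonneg_left hA1 (by linarith)
      linarith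
    have h2 : C3 * (2 * A + 2 * r + 1) ^ 3 ≤ K * (3 * r * A) ^ 3 :=
      mul_le_mul hKC3 (pow_le_pow_left₀ (by positivity) h1 3) (by positivity) hK0.le
    have h3 : 12 * (r : ℝ) ^ 2 ≤ 27 * K * r ^ 3 * A ^ 3 := by
      have h4 : (1 : ℝ) ≤ K * A ^ 3 := one_le_mul_of_one_le_of_one_le hK1 (one_le_pow₀ hA1)
      have h5 : 12 * (r : ℝ) ^ 2 ≤ 27 * r ^ 3 := by
        have h6 : (r : ℝ) ^ 2 * 1 ≤ r ^ 2 * r :=
          mul_le_mul_of_nonneg_left (by linarith) (by positivity)
        have h7 : (0 : ℝ) ≤ (r : ℝ) ^ 2 := by positivity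
        have h8 : (r : ℝ) ^ 2 * r = r ^ 3 := by ring
        linarith
      calc 12 * (r : ℝ) ^ 2 ≤ 27 * r ^ 3 := h5
        _ = 27 * r ^ 3 * 1 := by ring
        _ ≤ 27 * r ^ 3 * (K * A ^ 3) := mul_le_mul_of_nonneg_left h4 (by positivity)
        _ = 27 * K * r ^ 3 * A ^ 3 := by ring
    rw [hD]
    linarith [show K * (3 * r * A) ^ 3 = 27 * K * r ^ 3 * A ^ 3 by ring]
  have hst2 := hst.trans hE
  clear hst hE
  obtain ⟨Ti, hTid⟩ : ∃ Ti : ℝ, Ti = tv g z n i := ⟨_, rfl⟩
  obtain ⟨Tj, hTjd⟩ : ∃ Tj : ℝ, Tj = tv g z n j := ⟨_, rfl⟩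
  obtain ⟨X, hX⟩ : ∃ X : ℝ, X = (miss G y g - 2 * A * (Ti * Tj)) / L := ⟨_, rfl⟩
  obtain ⟨S, hSd⟩ : ∃ S : ℝ, S = ∑ v, muv G g z v ^ 2 := ⟨_, rfl⟩
  rw [← hTid, ← hTjd, ← hX, ← hSd] at hst2
  have hTi1 : L / 2 ≤ Ti := by rw [hTid]; exact hTlow i
  have hTi2 : Ti ≤ 2 * L := by rw [hTid]; exact hTup i
  have hTj1 : L / 2 ≤ Tj := by rw [hTjd]; exact hTlow j
  have hTi0 : 0 ≤ Ti := by linarith
  have hTid' : 1 - 2 * K / h ^ 2 ≤ Ti / L := by rw [hTid]; exact hTdiv i
  have hTjd' : 1 - 2 * K / h ^ 2 ≤ Tj / L := by rw [hTjd]; exact hTdiv j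
  have h2K : 2 * K ≤ h ^ 2 := by linarith
  -- products
  have hprod : ∀ u v, (MG G g).Adj u v → ∀ s t, g u = some s → g v = some t → s ≠ i → t ≠ i →
      Ti * Tj + c / 16 * h ^ 2 * L ≤ y u * y v := by
    intro u v _ s t hu hv hs ht
    rw [hyt hu, hyt hv]
    refine prod2 hL0 hc0 hTi2 hTi0 hTj1 he0 he2 he3 ?_ ?_
    · rw [hTjd]; exact hTj s hs
    · rw [hTid]; exact hTi t ht
  have hprod1 : ∀ v t, g v = some t → t ≠ i → Ti * Tj - 2 * L * e ≤ Ti * y v := by
    intro v t hv ht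
    rw [hyt hv]
    refine prod1 hTi0 hTi2 he0 ?_
    rw [hTjd]; exact hTj t ht
  have hcl : 0 ≤ c / 16 * h ^ 2 * L := by positivity
  have hLe : 0 ≤ 2 * L * e := by positivity
  have hall : ∀ u v, (MG G g).Adj u v → Ti * Tj - 2 * L * e ≤ y u * y v := by
    intro u v huv
    obtain ⟨s, hs⟩ := Option.ne_none_iff_exists'.1 huv.1
    obtain ⟨t, ht⟩ := Option.ne_none_iff_exists'.1 huv.2.1
    have hst' : s ≠ t := by
      intro h'
      exact huv.2.2.1 (by rw [hs, ht, h'])
    by_cases hsi : s = i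
    · have h1 := hprod1 v t ht (fun h' => hst' (hsi.trans h'.symm))
      have h2 : y u = Ti := by rw [hyt hs, hsi, hTid]
      rw [h2]
      exact h1
    · by_cases hti : t = i
      · have h1 := hprod1 u s hs hsi
        have h2 : y v = Ti := by rw [hyt ht, hti, hTid]
        rw [h2, mul_comm (y u)]
        exact h1
      · have h1 := hprod u v huv s t hs ht hsi hti
        linarith
  have hmu : S ≤ (1 + 2 * K / h ^ 2) ^ 2 * ∑ v, ({u | (MG G g).Adj v u}.ncard : ℝ) ^ 2 := by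
    rw [hSd]
    exact mu_sq G g hz.nonneg hzcore
  have : Nonempty V := ⟨w⟩
  obtain ⟨hq1, hq2⟩ := hSQE V (MG G g)
  rw [edge_eq, ← hadef] at hq1 hq2
  -- all missing pairs meet the class `i`
  have hmeet : ∀ u v, (MG G g).Adj u v → g u = some i ∨ g v = some i := by
    intro u v huv
    by_contra hcon
    push Not at hcon
    obtain ⟨s, hs⟩ := Option.ne_none_iff_exists'.1 huv.1
    obtain ⟨t, ht⟩ := Option.ne_none_iff_exists'.1 huv.2.1
    have hsi : s ≠ i := fun h' => hcon.1 (by rw [hs, h'])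
    have hti : t ≠ i := fun h' => hcon.2 (by rw [ht, h'])
    have h1 := miss_low1 G g hLe hall huv (hprod u v huv s t hs ht hsi hti)
    rw [← hadef, ← hA] at h1
    refine realA (a := A) (X := X) (S := S) hh1 hK1 hD0 hcK hA1 hAK h2K hTid' hTjd' ?_ ?_ hst2 b6
    · rw [hX, le_div_iff₀ hL0]
      have h2 : 8 * K * A ^ 2 / h ^ 4 = 4 * A * e := by rw [he]; ring
      rw [h2]
      linarith
    · refine hmu.trans (mul_le_mul_of_nonneg_left ?_ (sq_nonneg _))
      rw [hA]
      exact_mod_cast hq1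
  have hlow := miss_low G g hall
  rw [← hadef, ← hA] at hlow
  have hXlow : - (8 * K * A ^ 2 / h ^ 4) ≤ X := by
    rw [hX, le_div_iff₀ hL0]
    have h2 : 8 * K * A ^ 2 / h ^ 4 = 4 * A * e := by rw [he]; ring
    rw [h2]
    linarith
  -- the missing pairs form a star
  have hstar : ∃ x, ∀ e ∈ missSet G g, x ∈ e := by
    have htf : ∀ x y z, (MG G g).Adj x y → (MG G g).Adj y z → ¬ (MG G g).Adj x z := by
      intro u v t h1 h2 h3
      rcases hmeet u v h1 with h4 | h4
      · rcases hmeet v t h2 with h5 | h5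
        · exact h1.2.2.1 (by rw [h4, h5])
        · exact h3.2.2.1 (by rw [h4, h5])
      · rcases hmeet u t h3 with h5 | h5
        · exact h1.2.2.1 (by rw [h4, h5])
        · exact h2.2.2.1 (by rw [h4, h5])
    rcases hq2 htf with h1 | h1
    · exact h1
    · exfalso
      refine realB (a := A) (X := X) (S := S) hh1 hK1 hD0 hA1 hAK h2K hTid' hTjd' hXlow ?_ hst2 b7
      refine hmu.trans (mul_le_mul_of_nonneg_left ?_ (sq_nonneg _))
      have h2 : 2 * (∑ v, ({u | (MG G g).Adj v u}.ncard : ℝ) ^ 2) + A ≤ 2 * (A ^ 2 + A) := by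
        rw [hA]
        exact_mod_cast h1
      linarith
  -- the centre is in the class `i`
  have hne : (missSet G g).Nonempty := by
    rw [← Set.ncard_pos (Set.toFinite _), ← hadef]
    have : 1 ≤ a := by rw [hadef]; exact ha
    exact this
  obtain ⟨e0, he0'⟩ := hne
  obtain ⟨u0, v0, hadj0, he00⟩ : ∃ u v, (MG G g).Adj u v ∧ e0 = s(u, v) := by
    obtain ⟨u, v, h1, h2, h3, h4, h5⟩ := he0'
    exact ⟨u, v, ⟨h2, h3, h4, h5⟩, h1⟩
  have hcentre : ∃ x, g x = some i ∧ ∀ e ∈ missSet G g, x ∈ e := by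
    obtain ⟨x, hx⟩ := hstar
    have hxg : g x ≠ none := by
      rcases star_off hx hadj0 with h1 | h1
      · rw [h1]; exact hadj0.1
      · rw [h1]; exact hadj0.2.1
    obtain ⟨s, hs⟩ := Option.ne_none_iff_exists'.1 hxg
    by_cases hsi : s = i
    · exact ⟨x, by rw [hs, hsi], hx⟩
    · by_cases ha2 : a = 1
      · obtain ⟨e1, he1'⟩ := Set.ncard_eq_one.1 (hadef.symm.trans ha2)
        have h1 : e0 = e1 := by
          rw [he1'] at he0'
          exact he0'
        have h2 : ∀ e ∈ missSet G g, e = s(u0, v0) := by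
          intro e' h3
          rw [he1'] at h3
          rw [← he00, h1]
          exact h3
        rcases hmeet u0 v0 hadj0 with h3 | h3
        · exact ⟨u0, h3, fun e' h4 => by rw [h2 e' h4]; exact Sym2.mem_mk_left u0 v0⟩
        · exact ⟨v0, h3, fun e' h4 => by rw [h2 e' h4]; exact Sym2.mem_mk_right u0 v0⟩
      · exfalso
        have hA2 : 2 ≤ A := by
          have h1 : 1 ≤ a := by rw [hadef]; exact ha
          have h2 : 2 ≤ a := by omega
          rw [hA]
          exact_mod_cast h2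
        have hleaf : ∀ v, (MG G g).Adj x v → g v = some i := by
          intro v hv
          rcases hmeet x v hv with h1 | h1
          · rw [hs] at h1
            exact absurd (Option.some.inj h1) hsi
          · exact h1
        obtain ⟨Ts, hTs⟩ : ∃ Ts : ℝ, Ts = tv g z n s := ⟨_, rfl⟩
        have hmc : miss G y g = 2 * A * (Ts * Ti) := by
          rw [miss_const G g (T := Ts * Ti), ← hadef, ← hA]
          intro u v huv
          rcases star_off hx huv with h1 | h1
          · subst h1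
            rw [hyt hs, hyt (hleaf v huv), hTs, hTid]
          · subst h1
            rw [hyt hs, hyt (hleaf u huv.symm), hTs, hTid, mul_comm]
        have hzx : z x ≤ (Ts + z w) / L := by
          rw [hTs, hL]
          exact z_le (by rw [← hL]; exact hL0) hT1 hw hz.nonneg hs
        have hmx : muv G g z x ≤ A * ((Ti + z w) / L) := by
          have h1 := star_row hx
          rw [← hadef, ← hA] at h1
          rw [muv_eq, ← h1, Finset.sum_mul]
          refine sum_le_sum fun v _ => ?_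
          by_cases hadj : (MG G g).Adj x v
          · rw [adj_pos hadj, one_mul, one_mul, hTid, hL]
            exact z_le (by rw [← hL]; exact hL0) hT1 hw hz.nonneg (hleaf v hadj)
          · rw [adj_neg hadj, zero_mul, zero_mul]
        refine realC (a := A) (Ti := Ti) (Tj := Tj) (Ts := Ts) (zw := z w) (X := X) (S := S)
          (L := L) hh1 hK1 hD0 hcK hA2 hAK (by rw [← hs4]; exact hLup) ?_ hTi1 hTi2 hTj1
          (by rw [hTjd]; exact hTup j) (by rw [hTs]; exact hTlow s) (by rw [hTs]; exact hTup s)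
          (hz.nonneg w) hzw ?_ ?_ ?_ ?_ hst2 b8
        · rw [hs4] at hLlow
          linarith
        · rw [hTs, hTjd, ← he]
          have := hTj s hsi
          linarith
        · rw [hTjd, hTid]
          have := hTi j hji
          linarith
        · rw [hX, hmc]
          congr 1
          ring
        · rw [hSd]
          refine (star_sq hx z).trans ?_
          rw [← hadef, ← hA, ← mul_pow]
          refine add_le_add ?_ ?_
          · exact pow_le_pow_left₀ (muv_nonneg G g hz.nonneg x) hmx 2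
          · exact mul_le_mul_of_nonneg_left (pow_le_pow_left₀ (hz.nonneg x) hzx 2) hA0.le
  obtain ⟨x, hxi, hx⟩ := hcentre
  -- the neighbours of `w` are in no missing pair
  have hqn : ∀ (t : Fin r) (u : V), ¬ (MG G g).Adj u (q t) := by
    intro t u hu
    apply hu.2.2.2
    refine (hQ V G g w q n m hn5 hMx hNK hw hq wn t u hu.1 ?_).symm
    intro h
    exact hu.2.2.1 (by rw [h, hq])
  have hxM : ∃ v, (MG G g).Adj x v := by
    rcases star_off hx hadj0 with h1 | h1
    · exact ⟨v0, by rw [h1]; exact hadj0⟩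
    · exact ⟨u0, by rw [h1]; exact hadj0.symm⟩
  refine ⟨w, q, x, univ.filter fun v => (MG G g).Adj x v, hw, hq, wn, hxi, ?_, ?_, ?_, ?_, ?_⟩
  · intro h
    obtain ⟨v, hv⟩ := hxM
    rw [h] at hv
    exact hqn i v hv.symm
  · intro v hv
    have h1 := (Finset.mem_filter.1 hv).2
    refine ⟨h1.2.1, fun h2 => h1.2.2.1 ?_⟩
    rw [hxi, h2]
  · intro t ht
    exact hqn t x (Finset.mem_filter.1 ht).2
  · intro u v hu hv
    constructor
    · intro huv
      refine ⟨fun h1 => hNK.indep u v hu h1 huv, ?_, ?_⟩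
      · rintro ⟨rfl, h2⟩
        exact (Finset.mem_filter.1 h2).2.2.2.2 huv
      · rintro ⟨rfl, h2⟩
        exact (Finset.mem_filter.1 h2).2.2.2.2 huv.symm
    · rintro ⟨h1, h2, h3⟩
      by_contra hcon
      have h4 : (MG G g).Adj u v := ⟨hu, hv, h1, hcon⟩
      rcases star_off hx h4 with h5 | h5
      · refine h2 ⟨h5.symm, Finset.mem_filter.2 ⟨Finset.mem_univ _, ?_⟩⟩
        rw [h5]; exact h4
      · refine h3 ⟨h5.symm, Finset.mem_filter.2 ⟨Finset.mem_univ _, ?_⟩⟩
        rw [h5]; exact h4.symm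
  · intro t
    have h1 := star_row hx
    rw [adj_row, Set.ncard_eq_toFinset_card', Set.toFinset_ofPred] at h1
    have h2 : (univ.filter fun v => (MG G g).Adj x v).card = (missSet G g).ncard := by
      exact_mod_cast h1
    rw [h2]
    have := hsz t
    omega

end MP0c3a8f

end
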